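import Mathlib

/-! The parts of this file: G3.C.LemmaU, H17.LinePoly, H62.BU.Surf, H62.FC.Avg, H62.FC.Calculus, H95.GC.ThreeCircles. -/

section

/-!
# G3 C LemmaU: the uniqueness lemma on a half plane

`HP ω h` is the half plane `{z | h < Im (ω̄ z)}`.  `hp_zero`: if `L` is continuous on the half plane, its means over the circles of radius `R₀` exceed the value at the
centre by at least `c > 0`, `P` is holomorphic and `|P| e^L ≤ C`, then `P = 0`.
-/

set_option autoImplicit false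

open Topology Filter Metric

namespace Pool.Agent.G3.C

/-- the half plane `{z | h < Im (ω̄ z)}` -/
def HP (ω : ℂ) (h : ℝ) : Set ℂ := {z | h < ((starRingEnd ℂ) ω * z).im}

/-- sub-mean inequality with a continuous majorant -/
theorem log_norm_le_avg {P : ℂ → ℂ} {c : ℂ} {r : ℝ} (hr : 0 < r) (hP : AnalyticOnNhd ℂ P (closedBall c r)) (hc : P c ≠ 0) {g : ℂ → ℝ}
    (hg : ContinuousOn g (sphere c r)) (hle : ∀ z ∈ sphere c r, ‖P z‖ ≤ Real.exp (g z)) :
    Real.log ‖P c‖ ≤ Real.circleAverage g c r := by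
  have har : |r| = r := abs_of_pos hr
  have hana : AnalyticOnNhd ℂ P (closedBall c |r|) := by rwa [har]
  have h1 : Real.log ‖P c‖ ≤ Real.circleAverage (fun z => Real.log ‖P z‖) c r := by
    rw [AnalyticOnNhd.circleAverage_log_norm hr.ne' hana hc]
    have h1 : 0 ≤ ∑ᶠ u, (MeromorphicOn.divisor P (closedBall c |r|) u : ℝ) * Real.log (r * ‖c - u‖⁻¹) := by
      apply finsum_nonneg
      intro u
      by_cases hu : u ∈ closedBall c |r|
      · apply mul_nonneg
        · have := MeromorphicOn.AnalyticOnNhd.divisor_nonneg hana u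
          exact_mod_cast this
        · by_cases huc : u = c
          · simp [huc]
          · apply Real.log_nonneg
            have h2 : 0 < ‖c - u‖ := by
              rw [norm_pos_iff, sub_ne_zero]
              exact fun h => huc h.symm
            have h3 : ‖c - u‖ ≤ r := by
              rw [mem_closedBall, dist_eq_norm, abs_of_pos hr, norm_sub_rev] at hu
              exact hu
            rw [← div_eq_mul_inv, le_div_iff₀ h2]
            linarith only [h3]
      · have : MeromorphicOn.divisor P (closedBall c |r|) u = 0 := Function.locallyFinsuppWithin.apply_eq_zero_of_notMem _ hu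
        simp [this]
    linarith only [h1]
  refine h1.trans ?_
  set f₂ : ℂ → ℝ := fun z => if P z = 0 then g z else Real.log ‖P z‖ with hf₂
  have hcod : (fun z => Real.log ‖P z‖) =ᶠ[codiscreteWithin (sphere c |r|)] f₂ := by
    rcases hana.eqOn_zero_or_eventually_ne_zero_of_preconnected (convex_closedBall c |r|).isPreconnected with h | h
    · exact absurd (h (mem_closedBall_self (abs_nonneg r))) hc
    · have h' : ∀ᶠ x in codiscreteWithin (sphere c |r|), P x ≠ 0 := h.filter_mono (Filter.codiscreteWithin_mono sphere_subset_closedBall)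
      filter_upwards [h'] with z hz
      simp [hf₂, hz]
  have hint1 : CircleIntegrable (fun z => Real.log ‖P z‖) c r := by
    apply MeromorphicOn.circleIntegrable_log_norm
    intro z hz
    exact (hana z (sphere_subset_closedBall hz)).meromorphicAt
  have hint2 : CircleIntegrable f₂ c r := hint1.congr_codiscreteWithin hcod
  have hint : CircleIntegrable g c r := hg.circleIntegrable hr.le
  rw [Real.circleAverage_congr_codiscreteWithin hcod hr.ne']
  apply Real.circleAverage_mono hint2 hint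
  intro z hz
  rw [har] at hz
  by_cases hz0 : P z = 0
  · simp [hf₂, hz0]
  · simp only [hf₂, hz0, if_false]
    rw [Real.log_le_iff_le_exp (norm_pos_iff.mpr hz0)]
    exact hle z hz

end Pool.Agent.G3.C

end

section

/-!
# Restriction of a polynomial to the lines through a point
-/

open MvPolynomial

namespace Pool.Agent.H17

variable {σ : Type}

/-- Evaluation of a homogeneous polynomial at a multiple of a vector. -/
lemma eval_smul_of_isHomogeneous {P : MvPolynomial σ ℂ} {d : ℕ} (hP : P.IsHomogeneous d)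
    (c : ℂ) (x : σ → ℂ) : eval (fun i => c * x i) P = c ^ d * eval x P := by
  classical
  rw [eval_eq, eval_eq, Finset.mul_sum]
  refine Finset.sum_congr rfl ?_
  intro m hm
  have hdeg : m.degree = d := by
    by_contra hne
    exact (mem_support_iff.mp hm) (hP.coeff_eq_zero hne)
  have : ∏ i ∈ m.support, (c * x i) ^ m i = c ^ d * ∏ i ∈ m.support, x i ^ m i := by
    simp_rw [mul_pow]
    rw [Finset.prod_mul_distrib, Finset.prod_pow_eq_pow_sum]
    congr 2
  rw [this]
  ring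

end Pool.Agent.H17

end

section

/-!
# BU: surfaces through their cones (germ level), copy of the definitions of note 2276
-/

set_option autoImplicit false

namespace Pool.Agent.H62.BU

open Filter Topology

variable {V : Type*} [NormedAddCommGroup V] [NormedSpace ℂ V]

/-- tangent vectors of `X` at `x` -/
def Tan (X : Set V) (x v : V) : Prop :=
  ∃ γ : ℂ → V, AnalyticAt ℂ γ 0 ∧ (∀ᶠ z in 𝓝 (0 : ℂ), γ z ∈ X) ∧ γ 0 = x ∧ deriv γ 0 = v

end Pool.Agent.H62.BU

end

section

/-!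
# Second derivatives of circle means: the smooth case

Taylor's formula with integral remainder in `x` for every fixed `θ`, Fubini, and periodicity.
-/

noncomputable section

namespace Pool.Agent.H62.FC

open Filter Topology MeasureTheory

/-- directional derivatives -/
def Avg_d (F : ℝ × ℝ → ℝ) (v : ℝ × ℝ) (p : ℝ × ℝ) : ℝ := fderiv ℝ F p v

theorem Avg_d_contDiffAt {F : ℝ × ℝ → ℝ} {p : ℝ × ℝ} (v : ℝ × ℝ) {m n : WithTop ℕ∞}
    (h : ContDiffAt ℝ n F p) (hmn : m + 1 ≤ n) : ContDiffAt ℝ m (Avg_d F v) p :=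
  (h.fderiv_right hmn).clm_apply contDiffAt_const

theorem Avg_hasDerivAt_fst {F : ℝ × ℝ → ℝ} {x θ : ℝ} (h : DifferentiableAt ℝ F (x, θ)) :
    HasDerivAt (fun y => F (y, θ)) (Avg_d F (1, 0) (x, θ)) x :=
  HasFDerivAt.comp_hasDerivAt (f := fun y : ℝ => (y, θ)) x h.hasFDerivAt
    ((hasDerivAt_id x).prodMk (hasDerivAt_const x θ))

theorem Avg_hasDerivAt_snd {F : ℝ × ℝ → ℝ} {x θ : ℝ} (h : DifferentiableAt ℝ F (x, θ)) :
    HasDerivAt (fun φ => F (x, φ)) (Avg_d F (0, 1) (x, θ)) θ :=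
  HasFDerivAt.comp_hasDerivAt (f := fun φ : ℝ => (x, φ)) θ h.hasFDerivAt
    ((hasDerivAt_const θ x).prodMk (hasDerivAt_id θ))

theorem Avg_iter_two {f g : ℝ → ℝ} {x g' : ℝ} (h : ∀ᶠ y in 𝓝 x, HasDerivAt f (g y) y)
    (hg : HasDerivAt g g' x) : iteratedDeriv 2 f x = g' := by
  have h1 : iteratedDeriv 2 f = deriv (deriv f) := by
    rw [iteratedDeriv_succ, iteratedDeriv_one]
  rw [h1]
  have h2 : deriv f =ᶠ[𝓝 x] g := h.mono fun y hy => hy.deriv
  rw [h2.deriv_eq]
  exact hg.deriv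

/-- Taylor's formula with integral remainder -/
theorem Avg_taylor {u u' u'' : ℝ → ℝ} {x₀ x : ℝ} (h1 : ∀ y ∈ Set.uIcc x₀ x, HasDerivAt u (u' y) y)
    (h2 : ∀ y ∈ Set.uIcc x₀ x, HasDerivAt u' (u'' y) y)
    (hc : ContinuousOn u'' (Set.uIcc x₀ x)) :
    ∫ y in x₀..x, (x - y) * u'' y = u x - u x₀ - u' x₀ * (x - x₀) := by
  have h3 : ∀ y ∈ Set.uIcc x₀ x,
      HasDerivAt (fun y => (x - y) * u' y + u y) ((x - y) * u'' y) y := by
    intro y hy
    have h4 := (((hasDerivAt_const y x).sub (hasDerivAt_id y)).mul (h2 y hy)).add (h1 y hy)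
    refine HasDerivAt.congr_deriv (f' := _) h4 ?_
    simp only [Pi.sub_apply, id]
    ring
  rw [intervalIntegral.integral_eq_sub_of_hasDerivAt h3]
  · ring
  · exact ((continuousOn_const.sub continuousOn_id).mul hc).intervalIntegrable

theorem average_second_deriv {Φ L : ℝ → ℝ → ℝ} {α β : ℝ}
    (hΦ : ∀ x ∈ Set.Ioo α β, ∀ θ, ContDiffAt ℝ 2 (fun p : ℝ × ℝ => Φ p.1 p.2) (x, θ))
    (hper : ∀ x θ, Φ x (θ + 2 * Real.pi) = Φ x θ)
    (hL : ∀ x ∈ Set.Ioo α β, ∀ θ, L x θ =
      iteratedDeriv 2 (fun y => Φ y θ) x + iteratedDeriv 2 (fun φ => Φ x φ) θ)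
    {x₀ x : ℝ} (hx₀ : x₀ ∈ Set.Ioo α β) (hx : x ∈ Set.Ioo α β) :
    (∫ θ in (0 : ℝ)..2 * Real.pi, Φ x θ) = (∫ θ in (0 : ℝ)..2 * Real.pi, Φ x₀ θ) +
      (∫ θ in (0 : ℝ)..2 * Real.pi, deriv (fun y => Φ y θ) x₀) * (x - x₀) +
      ∫ y in x₀..x, (x - y) * ∫ θ in (0 : ℝ)..2 * Real.pi, L y θ := by
  set F : ℝ × ℝ → ℝ := fun p => Φ p.1 p.2 with hF
  set G1 : ℝ × ℝ → ℝ := Avg_d F (1, 0) with hG1
  set G2 : ℝ × ℝ → ℝ := Avg_d F (0, 1) with hG2
  set G11 : ℝ × ℝ → ℝ := Avg_d G1 (1, 0) with hG11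
  set G22 : ℝ × ℝ → ℝ := Avg_d G2 (0, 1) with hG22
  have c1 : ∀ y ∈ Set.Ioo α β, ∀ θ, ContDiffAt ℝ 1 G1 (y, θ) := fun y hy θ =>
    Avg_d_contDiffAt _ (hΦ y hy θ) (by norm_num)
  have c2 : ∀ y ∈ Set.Ioo α β, ∀ θ, ContDiffAt ℝ 1 G2 (y, θ) := fun y hy θ =>
    Avg_d_contDiffAt _ (hΦ y hy θ) (by norm_num)
  have c11 : ∀ y ∈ Set.Ioo α β, ∀ θ, ContinuousAt G11 (y, θ) := fun y hy θ =>
    (Avg_d_contDiffAt (m := 0) _ (c1 y hy θ) (by norm_num)).continuousAt
  have c22 : ∀ y ∈ Set.Ioo α β, ∀ θ, ContinuousAt G22 (y, θ) := fun y hy θ =>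
    (Avg_d_contDiffAt (m := 0) _ (c2 y hy θ) (by norm_num)).continuousAt
  have d1 : ∀ y ∈ Set.Ioo α β, ∀ θ, HasDerivAt (fun y => Φ y θ) (G1 (y, θ)) y := fun y hy θ =>
    Avg_hasDerivAt_fst ((hΦ y hy θ).differentiableAt (by norm_num))
  have d2 : ∀ y ∈ Set.Ioo α β, ∀ θ, HasDerivAt (fun φ => Φ y φ) (G2 (y, θ)) θ := fun y hy θ =>
    Avg_hasDerivAt_snd ((hΦ y hy θ).differentiableAt (by norm_num))
  have d11 : ∀ y ∈ Set.Ioo α β, ∀ θ, HasDerivAt (fun y => G1 (y, θ)) (G11 (y, θ)) y :=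
    fun y hy θ => Avg_hasDerivAt_fst ((c1 y hy θ).differentiableAt (by norm_num))
  have d22 : ∀ y ∈ Set.Ioo α β, ∀ θ, HasDerivAt (fun φ => G2 (y, φ)) (G22 (y, θ)) θ :=
    fun y hy θ => Avg_hasDerivAt_snd ((c2 y hy θ).differentiableAt (by norm_num))
  have hsub : Set.uIcc x₀ x ⊆ Set.Ioo α β := Set.OrdConnected.uIcc_subset Set.ordConnected_Ioo hx₀ hx
  have hpair : ∀ y : ℝ, Continuous fun θ : ℝ => ((y, θ) : ℝ × ℝ) := fun y => by fun_prop
  have k0 : ∀ y ∈ Set.Ioo α β, Continuous fun θ => Φ y θ := fun y hy =>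
    continuous_iff_continuousAt.2 fun θ => (d2 y hy θ).continuousAt
  have k1 : ∀ y ∈ Set.Ioo α β, Continuous fun θ => G1 (y, θ) := fun y hy =>
    continuous_iff_continuousAt.2 fun θ =>
      ContinuousAt.comp (f := fun θ : ℝ => ((y, θ) : ℝ × ℝ)) (g := G1) (c1 y hy θ).continuousAt
        (hpair y).continuousAt
  have k11 : ∀ y ∈ Set.Ioo α β, Continuous fun θ => G11 (y, θ) := fun y hy =>
    continuous_iff_continuousAt.2 fun θ =>
      ContinuousAt.comp (f := fun θ : ℝ => ((y, θ) : ℝ × ℝ)) (g := G11) (c11 y hy θ)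
        (hpair y).continuousAt
  have k22 : ∀ y ∈ Set.Ioo α β, Continuous fun θ => G22 (y, θ) := fun y hy =>
    continuous_iff_continuousAt.2 fun θ =>
      ContinuousAt.comp (f := fun θ : ℝ => ((y, θ) : ℝ × ℝ)) (g := G22) (c22 y hy θ)
        (hpair y).continuousAt
  -- the function `L`
  have hL' : ∀ y ∈ Set.Ioo α β, ∀ θ, L y θ = G11 (y, θ) + G22 (y, θ) := by
    intro y hy θ
    rw [hL y hy θ, Avg_iter_two (g := fun y => G1 (y, θ)) ?_ (d11 y hy θ),
      Avg_iter_two (g := fun φ => G2 (y, φ)) ?_ (d22 y hy θ)]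
    · exact Eventually.of_forall fun φ => d2 y hy φ
    · filter_upwards [isOpen_Ioo.mem_nhds hy] with y' hy' using d1 y' hy' θ
  -- periodicity
  have hper2 : ∀ y ∈ Set.Ioo α β, G2 (y, 2 * Real.pi) = G2 (y, 0) := by
    intro y hy
    have e1 := d2 y hy (0 + 2 * Real.pi)
    have e2 : HasDerivAt (fun φ => Φ y (φ + 2 * Real.pi)) (G2 (y, 0 + 2 * Real.pi)) 0 :=
      HasDerivAt.comp_add_const 0 (2 * Real.pi) e1
    simp only [hper] at e2
    rw [zero_add] at e2
    exact e2.unique (d2 y hy 0)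
  have hint22 : ∀ y ∈ Set.Ioo α β, ∫ θ in (0 : ℝ)..2 * Real.pi, G22 (y, θ) = 0 := by
    intro y hy
    rw [intervalIntegral.integral_eq_sub_of_hasDerivAt (fun θ _ => d22 y hy θ)
      ((k22 y hy).intervalIntegrable _ _), hper2 y hy, sub_self]
  have hintL : ∀ y ∈ Set.Ioo α β, ∫ θ in (0 : ℝ)..2 * Real.pi, L y θ =
      ∫ θ in (0 : ℝ)..2 * Real.pi, G11 (y, θ) := by
    intro y hy
    simp only [hL' y hy]
    rw [intervalIntegral.integral_add ((k11 y hy).intervalIntegrable _ _)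
      ((k22 y hy).intervalIntegrable _ _), hint22 y hy, add_zero]
  -- Taylor
  have hT : ∀ θ, ∫ y in x₀..x, (x - y) * G11 (y, θ) =
      Φ x θ - Φ x₀ θ - G1 (x₀, θ) * (x - x₀) := by
    intro θ
    refine Avg_taylor (u := fun y => Φ y θ) (u' := fun y => G1 (y, θ))
      (u'' := fun y => G11 (y, θ)) (fun y hy => d1 y (hsub hy) θ)
      (fun y hy => d11 y (hsub hy) θ) fun y hy => ?_
    exact (ContinuousAt.comp (f := fun y : ℝ => ((y, θ) : ℝ × ℝ)) (g := G11)
      (c11 y (hsub hy) θ) (by fun_prop)).continuousWithinAt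
  -- Fubini
  have hcont : ContinuousOn (Function.uncurry fun y θ : ℝ => (x - y) * G11 (y, θ))
      (Set.uIcc x₀ x ×ˢ Set.uIcc 0 (2 * Real.pi)) := by
    rintro ⟨y, θ⟩ hp
    refine ContinuousAt.continuousWithinAt ?_
    change ContinuousAt (fun p : ℝ × ℝ => (x - p.1) * G11 (p.1, p.2)) (y, θ)
    have h2 : ContinuousAt (fun p : ℝ × ℝ => G11 (p.1, p.2)) (y, θ) := c11 y (hsub hp.1) θ
    exact ContinuousAt.mul (by fun_prop) h2
  have hfub : ∫ y in x₀..x, ∫ θ in (0 : ℝ)..2 * Real.pi, (x - y) * G11 (y, θ) =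
      ∫ θ in (0 : ℝ)..2 * Real.pi, ∫ y in x₀..x, (x - y) * G11 (y, θ) := by
    refine intervalIntegral_intervalIntegral_swap ?_
    refine IntegrableOn.mono_set (hcont.integrableOn_compact
      (isCompact_uIcc.prod isCompact_uIcc)) ?_
    exact Set.prod_mono Set.uIoc_subset_uIcc Set.uIoc_subset_uIcc
  have hR : ∫ y in x₀..x, (x - y) * ∫ θ in (0 : ℝ)..2 * Real.pi, L y θ =
      ∫ y in x₀..x, ∫ θ in (0 : ℝ)..2 * Real.pi, (x - y) * G11 (y, θ) := by
    refine intervalIntegral.integral_congr fun y hy => ?_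
    rw [hintL y (hsub hy), intervalIntegral.integral_const_mul]
  have hD : ∀ θ, deriv (fun y => Φ y θ) x₀ = G1 (x₀, θ) := fun θ => (d1 x₀ hx₀ θ).deriv
  rw [hR, hfub]
  simp only [hT, hD]
  have i0 := (k0 x hx).intervalIntegrable (μ := volume) 0 (2 * Real.pi)
  have i1 := (k0 x₀ hx₀).intervalIntegrable (μ := volume) 0 (2 * Real.pi)
  have i2 := ((k1 x₀ hx₀).mul_const (x - x₀)).intervalIntegrable (μ := volume) 0 (2 * Real.pi)
  rw [intervalIntegral.integral_sub (i0.sub i1) i2, intervalIntegral.integral_sub i0 i1,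
    intervalIntegral.integral_mul_const]
  ring

end Pool.Agent.H62.FC

end
end

section

/-! FC Calculus: Borel's calculus lemma. -/

noncomputable section

namespace Pool.Agent.H62.FC

open Filter Topology MeasureTheory

private theorem Calculus_step {f f' : ℝ → ℝ} {x₀ : ℝ} (hf : ∀ x, HasDerivAt f (f' x) x)
    (hc : Continuous f') (h0 : f x₀ = 0) (hpos : ∀ x, x₀ ≤ x → 0 ≤ f' x) :
    (∀ x, x₀ ≤ x → 0 ≤ f x) ∧ volume {x | x₀ ≤ x ∧ (1 + f x) ^ 2 < f' x} ≤ 1 := by
  have hfc : Continuous f := continuous_iff_continuousAt.2 fun x => (hf x).continuousAt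
  have hnn : ∀ x, x₀ ≤ x → 0 ≤ f x := by
    intro x hx
    have h1 := intervalIntegral.integral_eq_sub_of_hasDerivAt (f := f) (f' := f') (a := x₀)
      (b := x) (fun y _ => hf y) (hc.intervalIntegrable _ _)
    rw [h0, sub_zero] at h1
    rw [← h1]
    exact intervalIntegral.integral_nonneg hx fun y hy => hpos y hy.1
  refine ⟨hnn, ?_⟩
  -- the density
  set g : ℝ → ℝ := fun x => f' x / (1 + f x) ^ 2 with hg
  have hgc : ContinuousOn g (Set.Ici x₀) := by
    refine ContinuousOn.div hc.continuousOn (by fun_prop) ?_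
    intro x hx
    have := hnn x hx
    positivity
  have hgnn : ∀ x, x₀ ≤ x → 0 ≤ g x := fun x hx =>
    div_nonneg (hpos x hx) (sq_nonneg _)
  have hder : ∀ x, x₀ ≤ x → HasDerivAt (fun y => -(1 + f y)⁻¹) (g x) x := by
    intro x hx
    have h1 : 1 + f x ≠ 0 := by
      have := hnn x hx
      positivity
    have h2 := (((hf x).const_add 1).inv h1).neg
    refine h2.congr_deriv ?_
    rw [hg]
    simp only
    rw [neg_div, neg_neg]
  have hbound : ∀ b, x₀ ≤ b →
      volume ({x | x₀ ≤ x ∧ (1 + f x) ^ 2 < f' x} ∩ Set.Ioc x₀ b) ≤ 1 := by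
    intro b hb
    have hgi : IntervalIntegrable g volume x₀ b := by
      refine ContinuousOn.intervalIntegrable (hgc.mono ?_)
      rw [Set.uIcc_of_le hb]
      exact Set.Icc_subset_Ici_self
    have hint : ∫ x in x₀..b, g x = 1 - (1 + f b)⁻¹ := by
      rw [intervalIntegral.integral_eq_sub_of_hasDerivAt (f := fun y => -(1 + f y)⁻¹)
        (fun y hy => hder y (by rw [Set.uIcc_of_le hb] at hy; exact hy.1)) hgi, h0]
      ring
    have hle1 : ∫ x in x₀..b, g x ≤ 1 := by
      rw [hint]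
      have : 0 ≤ (1 + f b)⁻¹ := inv_nonneg.2 (by linarith [hnn b hb])
      linarith
    rw [intervalIntegral.integral_of_le hb] at hle1
    have hgi' : IntegrableOn g (Set.Ioc x₀ b) volume :=
      (intervalIntegrable_iff_integrableOn_Ioc_of_le hb).1 hgi
    have hae : 0 ≤ᵐ[volume.restrict (Set.Ioc x₀ b)] g :=
      (ae_restrict_iff' measurableSet_Ioc).2 (Eventually.of_forall fun x hx => hgnn x hx.1.le)
    have hL : ∫⁻ x in Set.Ioc x₀ b, ENNReal.ofReal (g x) ≤ 1 := by
      rw [← ofReal_integral_eq_lintegral_ofReal hgi' hae]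
      exact (ENNReal.ofReal_le_ofReal hle1).trans_eq ENNReal.ofReal_one
    have hM := mul_meas_ge_le_lintegral₀ (μ := volume.restrict (Set.Ioc x₀ b))
      (f := fun x => ENNReal.ofReal (g x)) hgi'.aestronglyMeasurable.aemeasurable.ennreal_ofReal 1
    rw [one_mul] at hM
    refine le_trans ?_ (hM.trans hL)
    rw [Measure.restrict_apply' measurableSet_Ioc]
    refine measure_mono ?_
    rintro x ⟨⟨hx1, hx2⟩, hx3⟩
    refine ⟨?_, hx3⟩
    show (1 : ENNReal) ≤ ENNReal.ofReal (g x)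
    rw [← ENNReal.ofReal_one]
    refine ENNReal.ofReal_le_ofReal ?_
    have h1 : 0 < 1 + f x := by linarith [hnn x hx1]
    rw [hg]
    simp only
    rw [le_div_iff₀ (by positivity), one_mul]
    exact hx2.le
  set E : Set ℝ := {x | x₀ ≤ x ∧ (1 + f x) ^ 2 < f' x} with hE
  have hmono : Monotone fun m : ℕ => E ∩ Set.Ioc x₀ (x₀ + m) := by
    intro m m' hmm
    refine Set.inter_subset_inter_right _ (Set.Ioc_subset_Ioc_right ?_)
    have : (m : ℝ) ≤ m' := by exact_mod_cast hmm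
    linarith
  have hcov : E ⊆ {x₀} ∪ ⋃ m : ℕ, E ∩ Set.Ioc x₀ (x₀ + m) := by
    intro x hx
    rcases eq_or_lt_of_le hx.1 with h | h
    · exact Or.inl h.symm
    · right
      obtain ⟨m, hm⟩ := exists_nat_ge (x - x₀)
      exact Set.mem_iUnion.2 ⟨m, hx, h, by linarith⟩
  calc volume E ≤ volume ({x₀} ∪ ⋃ m : ℕ, E ∩ Set.Ioc x₀ (x₀ + m)) := measure_mono hcov
    _ ≤ volume {x₀} + volume (⋃ m : ℕ, E ∩ Set.Ioc x₀ (x₀ + m)) := measure_union_le _ _
    _ = volume (⋃ m : ℕ, E ∩ Set.Ioc x₀ (x₀ + m)) := by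
        rw [Real.volume_singleton, zero_add]
    _ = ⨆ m : ℕ, volume (E ∩ Set.Ioc x₀ (x₀ + m)) := hmono.measure_iUnion
    _ ≤ 1 := iSup_le fun m => hbound _ (by
        have : (0 : ℝ) ≤ m := Nat.cast_nonneg m
        linarith)

/-- Borel's calculus lemma. -/
theorem calculus_lemma {G : ℝ → ℝ} {x₀ : ℝ} (hG : ContinuousOn G (Set.Ici x₀))
    (hG0 : ∀ x, x₀ ≤ x → 0 ≤ G x) :
    volume {x | x₀ ≤ x ∧ 4 * (1 + ∫ y in x₀..x, (x - y) * G y) ^ 4 < G x} ≤ 2 := by
  -- a continuous extension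
  set K : ℝ → ℝ := fun x => G (max x₀ x) with hK
  have hKc : Continuous K := by
    have h1 : Continuous fun x : ℝ => max x₀ x := by fun_prop
    exact hG.comp_continuous h1 fun x => Set.mem_Ici.2 (le_max_left _ _)
  have hKG : ∀ x, x₀ ≤ x → K x = G x := fun x hx => by
    rw [hK]
    simp only
    rw [max_eq_right hx]
  have hK0 : ∀ x, 0 ≤ K x := fun x => hG0 _ (le_max_left _ _)
  set P : ℝ → ℝ := fun x => ∫ y in x₀..x, K y with hP
  set Q : ℝ → ℝ := fun x => ∫ y in x₀..x, y * K y with hQ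
  have hP' : ∀ x, HasDerivAt P (K x) x := fun x =>
    intervalIntegral.integral_hasDerivAt_right (hKc.intervalIntegrable _ _)
      (hKc.stronglyMeasurableAtFilter _ _) hKc.continuousAt
  have hyK : Continuous fun y : ℝ => y * K y := continuous_id.mul hKc
  have hQ' : ∀ x, HasDerivAt Q (x * K x) x := fun x =>
    intervalIntegral.integral_hasDerivAt_right (hyK.intervalIntegrable _ _)
      (hyK.stronglyMeasurableAtFilter _ _) hyK.continuousAt
  have hPc : Continuous P := continuous_iff_continuousAt.2 fun x => (hP' x).continuousAt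
  have hP0 : P x₀ = 0 := intervalIntegral.integral_same
  set H : ℝ → ℝ := fun x => x * P x - Q x with hH
  have hH' : ∀ x, HasDerivAt H (P x) x := by
    intro x
    have h1 := ((hasDerivAt_id x).mul (hP' x)).sub (hQ' x)
    refine h1.congr_deriv ?_
    simp only [id]
    ring
  have hH0 : H x₀ = 0 := by
    rw [hH]
    simp only
    rw [hP0, hQ]
    simp only
    rw [intervalIntegral.integral_same]
    ring
  have hHeq : ∀ x, x₀ ≤ x → ∫ y in x₀..x, (x - y) * G y = H x := by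
    intro x hx
    have h1 : ∫ y in x₀..x, (x - y) * G y = ∫ y in x₀..x, (x * K y - y * K y) := by
      refine intervalIntegral.integral_congr fun y hy => ?_
      rw [Set.uIcc_of_le hx] at hy
      show (x - y) * G y = x * K y - y * K y
      rw [hKG y hy.1]
      ring
    have h2 : Continuous fun y : ℝ => x * K y := continuous_const.mul hKc
    rw [h1, intervalIntegral.integral_sub (h2.intervalIntegrable _ _)
      (hyK.intervalIntegrable _ _), intervalIntegral.integral_const_mul]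
  obtain ⟨hPnn, hE2⟩ := Calculus_step (x₀ := x₀) hP' hKc hP0 (fun x _ => hK0 x)
  obtain ⟨hHnn, hE1⟩ := Calculus_step (x₀ := x₀) hH' hPc hH0 hPnn
  have hsub : {x | x₀ ≤ x ∧ 4 * (1 + ∫ y in x₀..x, (x - y) * G y) ^ 4 < G x} ⊆
      {x | x₀ ≤ x ∧ (1 + H x) ^ 2 < P x} ∪ {x | x₀ ≤ x ∧ (1 + P x) ^ 2 < K x} := by
    rintro x ⟨hx, hx2⟩
    by_contra hcon
    rw [Set.mem_union, not_or] at hcon
    have h1 : P x ≤ (1 + H x) ^ 2 := by
      by_contra h
      exact hcon.1 ⟨hx, not_le.1 h⟩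
    have h2 : K x ≤ (1 + P x) ^ 2 := by
      by_contra h
      exact hcon.2 ⟨hx, not_le.1 h⟩
    rw [hHeq x hx, ← hKG x hx] at hx2
    have h3 := hHnn x hx
    have h4 := hPnn x hx
    have h5 : 1 ≤ (1 + H x) ^ 2 := by nlinarith
    have h6 : 1 + P x ≤ 2 * (1 + H x) ^ 2 := by linarith
    have h7 : (1 + P x) ^ 2 ≤ (2 * (1 + H x) ^ 2) ^ 2 :=
      pow_le_pow_left₀ (by linarith) h6 2
    have h8 : (2 * (1 + H x) ^ 2) ^ 2 = 4 * (1 + H x) ^ 4 := by ring
    linarith
  calc _ ≤ volume ({x | x₀ ≤ x ∧ (1 + H x) ^ 2 < P x} ∪ {x | x₀ ≤ x ∧ (1 + P x) ^ 2 < K x}) :=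
        measure_mono hsub
    _ ≤ volume {x | x₀ ≤ x ∧ (1 + H x) ^ 2 < P x} + volume {x | x₀ ≤ x ∧ (1 + P x) ^ 2 < K x} :=
        measure_union_le _ _
    _ ≤ 1 + 1 := add_le_add hE1 hE2
    _ = 2 := by norm_num

end Pool.Agent.H62.FC

end
end

section

set_option autoImplicit false

namespace Pool.Agent.H95.GC

open Set MeasureTheory

/-- Hadamard's three circles theorem. -/
theorem three_circles (f : ℂ → ℂ) (c : ℂ) (r₁ r₂ r₃ R M₁ M₃ : ℝ) (h₁ : 0 < r₁) (h₁₂ : r₁ < r₂)
    (h₂₃ : r₂ < r₃) (h₃ : r₃ < R) (hf : DifferentiableOn ℂ f (Metric.ball c R))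
    (hM₁ : 0 < M₁) (hM₃ : 0 < M₃)
    (hb₁ : ∀ z, dist z c = r₁ → ‖f z‖ ≤ M₁) (hb₃ : ∀ z, dist z c = r₃ → ‖f z‖ ≤ M₃)
    (z : ℂ) (hz : dist z c = r₂) :
    ‖f z‖ ≤ M₁ ^ (Real.log (r₃ / r₂) / Real.log (r₃ / r₁))
      * M₃ ^ (Real.log (r₂ / r₁) / Real.log (r₃ / r₁)) := by
  have hr2 : 0 < r₂ := h₁.trans h₁₂
  have hr3 : 0 < r₃ := hr2.trans h₂₃
  -- the composed function
  set g : ℂ → ℂ := fun w => f (c + Complex.exp w) with hg
  have hdist : ∀ w : ℂ, dist (c + Complex.exp w) c = Real.exp w.re := by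
    intro w
    rw [dist_eq_norm, add_sub_cancel_left, Complex.norm_exp]
  have hlul : Real.log r₁ < Real.log r₃ := Real.log_lt_log h₁ (h₁₂.trans h₂₃)
  have hgd : ∀ w : ℂ, w.re < Real.log R → DifferentiableAt ℂ g w := by
    intro w hw
    have hmem : c + Complex.exp w ∈ Metric.ball c R := by
      rw [Metric.mem_ball, hdist]
      have : Real.exp w.re < Real.exp (Real.log R) := Real.exp_lt_exp.mpr hw
      rwa [Real.exp_log (hr3.trans h₃)] at this
    have h1 : DifferentiableAt ℂ f (c + Complex.exp w) :=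
      hf.differentiableAt (Metric.isOpen_ball.mem_nhds hmem)
    exact DifferentiableAt.comp w h1 (by fun_prop)
  have hlR : Real.log r₃ < Real.log R := Real.log_lt_log hr3 h₃
  have hdc : DiffContOnCl ℂ g (Complex.HadamardThreeLines.verticalStrip (Real.log r₁) (Real.log r₃)) := by
    apply DifferentiableOn.diffContOnCl
    intro w hw
    apply DifferentiableAt.differentiableWithinAt
    apply hgd
    have hcl : closure (Complex.HadamardThreeLines.verticalStrip (Real.log r₁) (Real.log r₃)) ⊆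
        Complex.re ⁻¹' (Set.Icc (Real.log r₁) (Real.log r₃)) := by
      apply closure_minimal
      · intro x hx
        exact Set.Ioo_subset_Icc_self hx
      · exact IsClosed.preimage Complex.continuous_re isClosed_Icc
    exact lt_of_le_of_lt (hcl hw).2 hlR
  obtain ⟨w, hw⟩ : ∃ w : ℂ, Complex.exp w = z - c := by
    have hne : z - c ≠ 0 := by
      intro h0
      rw [dist_eq_norm, h0, norm_zero] at hz
      exact hr2.ne hz
    exact ⟨Complex.log (z - c), Complex.exp_log hne⟩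
  have hwre : w.re = Real.log r₂ := by
    have h := hdist w
    rw [hw, add_sub_cancel, hz] at h
    rw [h, Real.log_exp]
  have hbd : BddAbove ((norm ∘ g) '' Complex.HadamardThreeLines.verticalClosedStrip (Real.log r₁) (Real.log r₃)) := by
    have hK : IsCompact (Metric.closedBall c r₃) := isCompact_closedBall c r₃
    have hcont : ContinuousOn (fun z => ‖f z‖) (Metric.closedBall c r₃) :=
      (hf.continuousOn.mono (Metric.closedBall_subset_ball h₃)).norm
    have hb := hK.bddAbove_image hcont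
    refine hb.mono ?_
    rintro _ ⟨x, hx, rfl⟩
    refine ⟨c + Complex.exp x, ?_, rfl⟩
    rw [Metric.mem_closedBall, hdist]
    have : Real.exp x.re ≤ Real.exp (Real.log r₃) := Real.exp_le_exp.mpr hx.2
    rwa [Real.exp_log hr3] at this
  have hzs : w ∈ Complex.HadamardThreeLines.verticalClosedStrip (Real.log r₁) (Real.log r₃) := by
    change w.re ∈ Set.Icc (Real.log r₁) (Real.log r₃)
    rw [hwre]
    exact ⟨(Real.log_lt_log h₁ h₁₂).le, (Real.log_lt_log hr2 h₂₃).le⟩
  have key := Complex.HadamardThreeLines.norm_le_interp_of_mem_verticalClosedStrip' (f := g)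
    (z := w) (a := M₁) (b := M₃) hlul hzs hdc hbd
    (by
      intro x hx
      have hx' : x.re = Real.log r₁ := hx
      apply hb₁
      rw [hdist, hx', Real.exp_log h₁])
    (by
      intro x hx
      have hx' : x.re = Real.log r₃ := hx
      apply hb₃
      rw [hdist, hx', Real.exp_log hr3])
  have hgw : g w = f z := by
    simp only [hg]
    rw [hw]
    congr 1
    ring
  rw [hgw, hwre] at key
  have hpos : 0 < Real.log r₃ - Real.log r₁ := sub_pos.mpr hlul
  have e1 : 1 - (Real.log r₂ - Real.log r₁) / (Real.log r₃ - Real.log r₁)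
      = Real.log (r₃ / r₂) / Real.log (r₃ / r₁) := by
    rw [Real.log_div hr3.ne' hr2.ne', Real.log_div hr3.ne' h₁.ne']
    field_simp
    ring
  have e2 : (Real.log r₂ - Real.log r₁) / (Real.log r₃ - Real.log r₁)
      = Real.log (r₂ / r₁) / Real.log (r₃ / r₁) := by
    rw [Real.log_div hr2.ne' h₁.ne', Real.log_div hr3.ne' h₁.ne']
  rw [e1, e2] at key
  exact key

end Pool.Agent.H95.GC

end
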