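import Mathlib

/-! The parts of this file: G3.C.Ode, G3.C.GenA, G4.RE.Defs, H22.HF.Fac, H23.Defs, H23.Forms. -/

section

/-!
# G3 C Ode: real solutions of holomorphic differential equations extend to complex time

Let `V` be holomorphic and bounded by `M` on `ball (s₁, y₁) R ⊆ ℂ × ℂ^n` (sup norm).
`ode_hol`: PICARD ITERATION on the complex disc.  By the Cauchy estimates `V` is `K`-Lipschitz in `y` on `ball (s₁, y₁) (R / 2)` with `K = K (R, M, n)` (or: use the
Schwarz-type bound `Complex.norm_deriv_le_of_forall_mem_sphere_norm_le` on complex lines, or `dist_le_mul_dist_of_mapsTo_ball`).  `ε = min (R / 2) (R / (4 (M + 1))) …` with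
`K ε ≤ 1 / 2`.  For a holomorphic `Y : ball s₁ ε → closedBall y₁ (R / 4)` let `T Y` be the primitive of `s ↦ V (s, Y s)` on the ball with value `y₁` at `s₁`
(`DifferentiableOn.isExactOn_ball` or `Complex.IsExactOn`; mean value inequality `Convex.norm_image_sub_le_of_norm_hasDerivWithin_le` for the bounds).  The iterates
`Y_0 = y₁`, `Y_{m+1} = T Y_m` satisfy `‖Y_{m+1} - Y_m‖ ≤ 2^(-m) R` on the ball, so they converge uniformly to a holomorphic `Y` (`TendstoLocallyUniformlyOn.differentiableOn`,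
derivatives converge: `TendstoLocallyUniformlyOn.deriv`), and `Y' = V (s, Y)`.
`ode_real`: `ε` as in `ode_hol` (made smaller such that `M ε ≤ R / 4`); the restriction of `Y` to the real interval and `y` solve the same real differential equation with the
same value at `s₁`, and both stay in `ball y₁ (R / 2)` for `|s - s₁| < ε` (for `y`: `ODE_solution_unique_of_mem_Ioo` or a Gronwall / continuity argument: the set of `t < ε` such that
`Y = y` on `[s₁ - t, s₁ + t]` is open and closed; where `Y = y` the value lies in `ball y₁ (R / 2)`, a neighbourhood in which `V` is Lipschitz in `y`).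
-/

set_option autoImplicit false

open Topology Filter Metric

namespace Pool.Agent.G3.C

private theorem ode_comp {n : ℕ} {f : ℂ → Fin n → ℂ} {f' : Fin n → ℂ} {t : ℝ} (h : HasDerivAt f f' (t : ℂ)) :
    HasDerivAt (fun t : ℝ => f (t : ℂ)) f' t := by
  have h1 : HasDerivAt (fun t : ℝ => (t : ℂ)) 1 t := Complex.ofRealCLM.hasDerivAt
  have h2 := HasDerivAt.scomp (g₁ := f) (h := fun t : ℝ => (t : ℂ)) t h h1
  rw [one_smul] at h2
  exact h2

/-- Lipschitz bound in `y` -/
private theorem ode_lip {n : ℕ} {R M : ℝ} (hR : 0 < R) (V : ℂ × (Fin n → ℂ) → Fin n → ℂ) (s₁ : ℂ) (y₁ : Fin n → ℂ)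
    (hV : DifferentiableOn ℂ V (ball (s₁, y₁) R)) (hM : ∀ q ∈ ball (s₁, y₁) R, ‖V q‖ ≤ M) {s : ℂ} (hs : s ∈ ball s₁ R)
    {y y' : Fin n → ℂ} (hy : y ∈ ball y₁ (R / 2)) (hy' : y' ∈ ball y₁ (R / 2)) :
    ‖V (s, y') - V (s, y)‖ ≤ 4 * M / R * ‖y' - y‖ := by
  rcases eq_or_ne y' y with rfl | hne
  · simp
  have hv : 0 < ‖y' - y‖ := norm_pos_iff.2 (sub_ne_zero.2 hne)
  -- the points of the segment
  have hseg : ∀ t ∈ Set.Icc (0 : ℝ) 1, y + (t : ℂ) • (y' - y) ∈ ball y₁ (R / 2) := by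
    intro t ht
    have h := (convex_ball y₁ (R / 2)).add_smul_sub_mem hy hy' ht
    have e : (t : ℂ) • (y' - y) = t • (y' - y) := by
      funext i
      simp
    rw [e]
    exact h
  have hmem : ∀ t ∈ Set.Icc (0 : ℝ) 1, ∀ τ : ℂ, ‖τ‖ ≤ R / (4 * ‖y' - y‖) →
      (s, y + ((t : ℂ) + τ) • (y' - y)) ∈ ball (s₁, y₁) R := by
    intro t ht τ hτ
    rw [← ball_prod_same]
    refine ⟨hs, ?_⟩
    have h1 := hseg t ht
    rw [mem_ball, dist_eq_norm] at h1 ⊢
    show ‖y + ((t : ℂ) + τ) • (y' - y) - y₁‖ < R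
    have e : y + ((t : ℂ) + τ) • (y' - y) - y₁ = (y + (t : ℂ) • (y' - y) - y₁) + τ • (y' - y) := by
      rw [add_smul]
      abel
    rw [e]
    have h2 : ‖τ • (y' - y)‖ ≤ R / 4 := by
      rw [norm_smul]
      calc ‖τ‖ * ‖y' - y‖ ≤ R / (4 * ‖y' - y‖) * ‖y' - y‖ := by gcongr
        _ = R / 4 := by field_simp
    calc ‖(y + (t : ℂ) • (y' - y) - y₁) + τ • (y' - y)‖ ≤ ‖y + (t : ℂ) • (y' - y) - y₁‖ + ‖τ • (y' - y)‖ := norm_add_le _ _
      _ < R := by linarith
  have hρ : 0 < R / (4 * ‖y' - y‖) := by positivity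
  -- the complex line
  obtain ⟨G, hG⟩ : ∃ G : ℂ → Fin n → ℂ, G = fun τ => V (s, y + τ • (y' - y)) := ⟨_, rfl⟩
  have hGd : ∀ t ∈ Set.Icc (0 : ℝ) 1, ∀ τ : ℂ, ‖τ‖ ≤ R / (4 * ‖y' - y‖) → DifferentiableAt ℂ G ((t : ℂ) + τ) := by
    intro t ht τ hτ
    rw [hG]
    have h1 : DifferentiableAt ℂ V (s, y + ((t : ℂ) + τ) • (y' - y)) :=
      hV.differentiableAt (isOpen_ball.mem_nhds (hmem t ht τ hτ))
    refine DifferentiableAt.comp (g := V) (f := fun τ : ℂ => (s, y + τ • (y' - y))) ((t : ℂ) + τ) h1 ?_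
    exact (differentiableAt_const s).prodMk ((differentiableAt_const y).add (differentiableAt_id.smul_const _))
  have hGM : ∀ t ∈ Set.Icc (0 : ℝ) 1, ∀ τ : ℂ, ‖τ‖ ≤ R / (4 * ‖y' - y‖) → ‖G ((t : ℂ) + τ)‖ ≤ M := by
    intro t ht τ hτ
    rw [hG]
    exact hM _ (hmem t ht τ hτ)
  have hder : ∀ t ∈ Set.Icc (0 : ℝ) 1, ‖deriv G (t : ℂ)‖ ≤ 4 * M / R * ‖y' - y‖ := by
    intro t ht
    have h := Complex.norm_deriv_le_of_forall_mem_sphere_norm_le (f := G) (c := (t : ℂ)) (C := M) hρ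
      (DifferentiableOn.diffContOnCl (by
        intro z hz
        have hz' := closure_ball_subset_closedBall hz
        rw [mem_closedBall, dist_eq_norm] at hz'
        have := hGd t ht (z - t) hz'
        rw [add_sub_cancel] at this
        exact this.differentiableWithinAt))
      (by
        intro z hz
        rw [mem_sphere, dist_eq_norm] at hz
        have := hGM t ht (z - t) hz.le
        rwa [add_sub_cancel] at this)
    refine h.trans (le_of_eq ?_)
    field_simp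
  have key := norm_image_sub_le_of_norm_deriv_le_segment_01' (f := fun t : ℝ => G (t : ℂ)) (f' := fun t : ℝ => deriv G (t : ℂ))
    (C := 4 * M / R * ‖y' - y‖)
    (fun t ht => by
      have h0 := hGd t ht 0 (by rw [norm_zero]; exact hρ.le)
      rw [add_zero] at h0
      exact (ode_comp h0.hasDerivAt).hasDerivWithinAt)
    (fun t ht => hder t ⟨ht.1, ht.2.le⟩)
  have e1 : G ((1 : ℝ) : ℂ) = V (s, y') := by
    rw [hG]
    simp
  have e0 : G ((0 : ℝ) : ℂ) = V (s, y) := by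
    rw [hG]
    simp
  rw [e1, e0] at key
  exact key

/-- the functions of the iteration -/
private def OdeS {n : ℕ} (s₁ : ℂ) (y₁ : Fin n → ℂ) (ε R : ℝ) : Type :=
  {Y : ℂ → Fin n → ℂ // Y s₁ = y₁ ∧ (∀ s ∈ ball s₁ ε, ‖Y s - y₁‖ ≤ R / 8) ∧ DifferentiableOn ℂ Y (ball s₁ ε)}

private theorem ode_hol' {n : ℕ} {R M ε : ℝ} (hR : 0 < R) (hM : 0 < M) (hε : 0 < ε) (hεR : ε ≤ R) (hεM : M * ε ≤ R / 8)
    (V : ℂ × (Fin n → ℂ) → Fin n → ℂ) (s₁ : ℂ) (y₁ : Fin n → ℂ) (hV : DifferentiableOn ℂ V (ball (s₁, y₁) R))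
    (hVM : ∀ q ∈ ball (s₁, y₁) R, ‖V q‖ ≤ M) :
    ∃ Y : ℂ → Fin n → ℂ, Y s₁ = y₁ ∧ ∀ s ∈ ball s₁ ε, Y s ∈ ball y₁ (R / 2) ∧ HasDerivAt Y (V (s, Y s)) s := by
  have hs₁ : s₁ ∈ ball s₁ ε := mem_ball_self hε
  have hsub : ∀ s ∈ ball s₁ ε, s ∈ ball s₁ R := fun s hs => ball_subset_ball hεR hs
  have hin : ∀ {s : ℂ} {y : Fin n → ℂ}, s ∈ ball s₁ ε → ‖y - y₁‖ ≤ R / 8 → (s, y) ∈ ball (s₁, y₁) R := by
    intro s y hs hy
    rw [← ball_prod_same]
    refine ⟨hsub s hs, ?_⟩
    rw [mem_ball, dist_eq_norm]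
    show ‖y - y₁‖ < R
    linarith
  have hin2 : ∀ {y : Fin n → ℂ}, ‖y - y₁‖ ≤ R / 8 → y ∈ ball y₁ (R / 2) := by
    intro y hy
    rw [mem_ball, dist_eq_norm]
    linarith
  -- mean value inequality on the ball
  have hmv : ∀ (f f' : ℂ → Fin n → ℂ) (C : ℝ), (∀ s ∈ ball s₁ ε, HasDerivAt f (f' s) s) → (∀ s ∈ ball s₁ ε, ‖f' s‖ ≤ C) →
      ∀ s ∈ ball s₁ ε, ‖f s - f s₁‖ ≤ C * ε := by
    intro f f' C hf hC s hs
    have hC0 : 0 ≤ C := (norm_nonneg _).trans (hC s₁ hs₁)
    have h := (convex_ball s₁ ε).norm_image_sub_le_of_norm_hasDerivWithin_le (𝕜 := ℂ) (f := f) (f' := f')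
      (fun x hx => (hf x hx).hasDerivWithinAt) hC hs₁ hs
    rw [mem_ball, dist_eq_norm] at hs
    exact h.trans (mul_le_mul_of_nonneg_left hs.le hC0)
  -- the step
  have hstep : ∀ Y : OdeS s₁ y₁ ε R, ∃ Y' : OdeS s₁ y₁ ε R, ∀ s ∈ ball s₁ ε, HasDerivAt Y'.1 (V (s, Y.1 s)) s := by
    rintro ⟨Y, hY1, hY2, hY3⟩
    have hd : DifferentiableOn ℂ (fun s => V (s, Y s)) (ball s₁ ε) := by
      refine DifferentiableOn.comp (g := V) (f := fun s => (s, Y s)) (t := ball (s₁, y₁) R) hV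
        (differentiableOn_id.prodMk hY3) ?_
      intro s hs
      exact hin hs (hY2 s hs)
    obtain ⟨g, hg1, hg⟩ := (hd.isExactOn_ball).with_val_at s₁ y₁
    refine ⟨⟨g, hg1, ?_, fun s hs => (hg s hs).differentiableAt.differentiableWithinAt⟩, hg⟩
    intro s hs
    have h := hmv g _ M hg (fun s hs => hVM _ (hin hs (hY2 s hs))) s hs
    rw [hg1] at h
    exact h.trans hεM
  choose T hT using hstep
  obtain ⟨Y, hY0⟩ : ∃ Y : ℕ → OdeS s₁ y₁ ε R, ∀ m, Y (m + 1) = T (Y m) := by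
    have h0 : (fun _ : ℂ => y₁) s₁ = y₁ ∧ (∀ s ∈ ball s₁ ε, ‖(fun _ : ℂ => y₁) s - y₁‖ ≤ R / 8) ∧
        DifferentiableOn ℂ (fun _ : ℂ => y₁) (ball s₁ ε) := by
      refine ⟨rfl, fun s _ => ?_, differentiableOn_const _⟩
      show ‖y₁ - y₁‖ ≤ R / 8
      rw [sub_self, norm_zero]
      positivity
    exact ⟨fun m => T^[m] ⟨fun _ => y₁, h0⟩, fun m => Function.iterate_succ_apply' T m _⟩
  have hder : ∀ m, ∀ s ∈ ball s₁ ε, HasDerivAt (Y (m + 1)).1 (V (s, (Y m).1 s)) s := by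
    intro m s hs
    rw [hY0]
    exact hT (Y m) s hs
  have hK : 4 * M / R * ε ≤ 1 / 2 := by
    rw [div_mul_eq_mul_div, div_le_iff₀ hR]
    linarith
  -- geometric convergence
  have hgeo : ∀ m, ∀ s ∈ ball s₁ ε, ‖(Y (m + 1)).1 s - (Y m).1 s‖ ≤ R / 4 * (1 / 2) ^ m := by
    intro m
    induction m with
    | zero =>
      intro s hs
      have h1 := (Y 1).2.2.1 s hs
      have h0 := (Y 0).2.2.1 s hs
      rw [pow_zero, mul_one]
      have e : (Y (0 + 1)).1 s - (Y 0).1 s = ((Y 1).1 s - y₁) - ((Y 0).1 s - y₁) := by abel_nf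
      rw [e]
      refine (norm_sub_le _ _).trans ?_
      linarith
    | succ m ih =>
      intro s hs
      have h := hmv (fun s => (Y (m + 1 + 1)).1 s - (Y (m + 1)).1 s)
        (fun s => V (s, (Y (m + 1)).1 s) - V (s, (Y m).1 s)) (4 * M / R * (R / 4 * (1 / 2) ^ m))
        (fun s hs => (hder (m + 1) s hs).sub (hder m s hs))
        (fun s hs => (ode_lip hR V s₁ y₁ hV hVM (hsub s hs) (hin2 ((Y m).2.2.1 s hs))
          (hin2 ((Y (m + 1)).2.2.1 s hs))).trans (by
            have := ih s hs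
            gcongr)) s hs
      have e : (Y (m + 1 + 1)).1 s₁ - (Y (m + 1)).1 s₁ = 0 := by
        rw [(Y (m + 1 + 1)).2.1, (Y (m + 1)).2.1, sub_self]
      simp only [e, sub_zero] at h
      refine h.trans ?_
      have h2 : 0 ≤ R / 4 * (1 / 2 : ℝ) ^ m := by positivity
      calc 4 * M / R * (R / 4 * (1 / 2) ^ m) * ε = (4 * M / R * ε) * (R / 4 * (1 / 2) ^ m) := by ring
        _ ≤ 1 / 2 * (R / 4 * (1 / 2) ^ m) := mul_le_mul_of_nonneg_right hK h2
        _ = R / 4 * (1 / 2) ^ (m + 1) := by ring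
  have hdist : ∀ s ∈ ball s₁ ε, ∀ m, dist ((Y m).1 s) ((Y (m + 1)).1 s) ≤ R / 4 * (1 / 2) ^ m := by
    intro s hs m
    rw [dist_comm, dist_eq_norm]
    exact hgeo m s hs
  have hlim : ∀ s : ℂ, ∃ y : Fin n → ℂ, s ∈ ball s₁ ε → Tendsto (fun m => (Y m).1 s) atTop (𝓝 y) := by
    intro s
    by_cases hs : s ∈ ball s₁ ε
    · obtain ⟨y, hy⟩ := cauchySeq_tendsto_of_complete (cauchySeq_of_le_geometric (1 / 2) (R / 4) (by norm_num) (hdist s hs))
      exact ⟨y, fun _ => hy⟩
    · exact ⟨0, fun h => absurd h hs⟩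
  choose Z hZ using hlim
  have hrate : ∀ s ∈ ball s₁ ε, ∀ m, ‖(Y m).1 s - Z s‖ ≤ R / 2 * (1 / 2) ^ m := by
    intro s hs m
    have h := dist_le_of_le_geometric_of_tendsto (1 / 2) (R / 4) (by norm_num) (hdist s hs) (hZ s hs) m
    rw [dist_eq_norm] at h
    refine h.trans (le_of_eq ?_)
    ring
  have hZb : ∀ s ∈ ball s₁ ε, ‖Z s - y₁‖ ≤ R / 8 := by
    intro s hs
    have h : Tendsto (fun m => ‖(Y m).1 s - y₁‖) atTop (𝓝 ‖Z s - y₁‖) := ((hZ s hs).sub_const y₁).norm
    exact le_of_tendsto' h fun m => (Y m).2.2.1 s hs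
  have hZ1 : Z s₁ = y₁ := by
    have h := hZ s₁ hs₁
    have e : (fun m => (Y m).1 s₁) = fun _ => y₁ := by
      funext m
      exact (Y m).2.1
    rw [e] at h
    exact tendsto_nhds_unique h tendsto_const_nhds
  refine ⟨Z, hZ1, fun s hs => ⟨hin2 (hZb s hs), ?_⟩⟩
  refine hasDerivAt_of_tendstoUniformlyOn (l := atTop) (f := fun m s => (Y (m + 1)).1 s)
    (f' := fun m s => V (s, (Y m).1 s)) (g' := fun s => V (s, Z s)) (s := ball s₁ ε) isOpen_ball ?_
    (Eventually.of_forall fun m s hs => hder m s hs) (fun s hs => (tendsto_add_atTop_iff_nat 1).2 (hZ s hs)) hs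
  rw [Metric.tendstoUniformlyOn_iff]
  intro η hη
  have h0 : Tendsto (fun m : ℕ => 4 * M / R * (R / 2 * (1 / 2 : ℝ) ^ m)) atTop (𝓝 (4 * M / R * (R / 2 * 0))) :=
    ((tendsto_pow_atTop_nhds_zero_of_lt_one (by norm_num) (by norm_num)).const_mul _).const_mul _
  rw [mul_zero, mul_zero] at h0
  filter_upwards [h0.eventually_lt_const hη] with m hm s hs
  rw [dist_eq_norm, norm_sub_rev]
  refine lt_of_le_of_lt ((ode_lip hR V s₁ y₁ hV hVM (hsub s hs) (hin2 (hZb s hs)) (hin2 ((Y m).2.2.1 s hs))).trans ?_) hm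
  have := hrate s hs m
  gcongr

/-- a real solution extends to a complex disc whose radius depends only on the bounds -/
theorem ode_real {n : ℕ} {R M : ℝ} (hR : 0 < R) (hM : 0 < M) :
    ∃ ε : ℝ, 0 < ε ∧ ε ≤ R ∧ ∀ (V : ℂ × (Fin n → ℂ) → Fin n → ℂ) (s₁ : ℝ) (y₁ : Fin n → ℂ), DifferentiableOn ℂ V (ball ((s₁ : ℂ), y₁) R) →
      (∀ q ∈ ball ((s₁ : ℂ), y₁) R, ‖V q‖ ≤ M) →
      ∀ (r : ℝ) (y : ℝ → Fin n → ℂ), 0 < r → y s₁ = y₁ →
      (∀ s : ℝ, |s - s₁| < r → y s ∈ ball y₁ R ∧ HasDerivAt y (V ((s : ℂ), y s)) s) →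
      ∃ Y : ℂ → Fin n → ℂ, DifferentiableOn ℂ Y (ball (s₁ : ℂ) ε) ∧ (∀ s ∈ ball (s₁ : ℂ) ε, Y s ∈ ball y₁ R) ∧
        ∀ s : ℝ, |s - s₁| < ε → |s - s₁| < r → Y (s : ℂ) = y s := by
  have h1 : 0 < R / (8 * M) := by positivity
  obtain ⟨ε, hεdef⟩ : ∃ ε : ℝ, ε = min R (R / (8 * M)) := ⟨_, rfl⟩
  have hε : 0 < ε := by rw [hεdef]; exact lt_min hR h1
  have hεR : ε ≤ R := by rw [hεdef]; exact min_le_left _ _
  have hεM : M * ε ≤ R / 8 := by
    rw [hεdef]
    calc M * min R (R / (8 * M)) ≤ M * (R / (8 * M)) := mul_le_mul_of_nonneg_left (min_le_right _ _) hM.le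
      _ = R / 8 := by field_simp
  refine ⟨ε, hε, hεR, fun V s₁ y₁ hV hVM r y hr hy1 hy => ?_⟩
  obtain ⟨Y, hY1, hY⟩ := ode_hol' hR hM hε hεR hεM V (s₁ : ℂ) y₁ hV hVM
  refine ⟨Y, fun s hs => (hY s hs).2.differentiableAt.differentiableWithinAt,
    fun s hs => ball_subset_ball (by linarith) (hY s hs).1, ?_⟩
  -- the real interval
  obtain ⟨ρ, hρdef⟩ : ∃ ρ : ℝ, ρ = min ε r := ⟨_, rfl⟩
  have hρ : 0 < ρ := by rw [hρdef]; exact lt_min hε hr
  have hρε : ρ ≤ ε := by rw [hρdef]; exact min_le_left _ _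
  have hρr : ρ ≤ r := by rw [hρdef]; exact min_le_right _ _
  have habs : ∀ t ∈ Set.Ioo (s₁ - ρ) (s₁ + ρ), |t - s₁| < ρ := by
    intro t ht
    rw [abs_lt]
    constructor <;> linarith [ht.1, ht.2]
  have hball : ∀ t : ℝ, |t - s₁| < ρ → (t : ℂ) ∈ ball (s₁ : ℂ) ε := by
    intro t ht
    rw [mem_ball, dist_eq_norm, ← Complex.ofReal_sub, Complex.norm_real, Real.norm_eq_abs]
    linarith
  have hs0 : s₁ ∈ Set.Ioo (s₁ - ρ) (s₁ + ρ) := ⟨by linarith, by linarith⟩
  -- `y` stays in the smaller ball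
  have hyin : ∀ t ∈ Set.Ioo (s₁ - ρ) (s₁ + ρ), y t ∈ ball y₁ (R / 2) := by
    intro t ht
    have hC : ∀ x ∈ Set.Ioo (s₁ - ρ) (s₁ + ρ), ‖V ((x : ℂ), y x)‖ ≤ M := by
      intro x hx
      refine hVM _ ?_
      rw [← ball_prod_same]
      exact ⟨ball_subset_ball hεR (hball x (habs x hx)), (hy x ((habs x hx).trans_le hρr)).1⟩
    have h := (convex_Ioo (s₁ - ρ) (s₁ + ρ)).norm_image_sub_le_of_norm_hasDerivWithin_le (𝕜 := ℝ) (f := y)
      (f' := fun x => V ((x : ℂ), y x)) (fun x hx => (hy x ((habs x hx).trans_le hρr)).2.hasDerivWithinAt) hC hs0 ht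
    rw [hy1] at h
    rw [mem_ball, dist_eq_norm]
    have h2 : ‖t - s₁‖ ≤ ε := by
      rw [Real.norm_eq_abs]
      linarith [habs t ht]
    have h3 : M * ‖t - s₁‖ ≤ M * ε := mul_le_mul_of_nonneg_left h2 hM.le
    linarith
  have key : Set.EqOn (fun t : ℝ => Y (t : ℂ)) y (Set.Ioo (s₁ - ρ) (s₁ + ρ)) := by
    refine ODE_solution_unique_of_mem_Ioo (v := fun (t : ℝ) (x : Fin n → ℂ) => V ((t : ℂ), x))
      (s := fun _ => ball y₁ (R / 2)) (K := (4 * M / R).toNNReal) ?_ hs0 ?_ ?_ ?_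
    · intro t ht
      rw [lipschitzOnWith_iff_norm_sub_le]
      intro x hx x' hx'
      rw [Real.coe_toNNReal _ (by positivity)]
      exact ode_lip hR V (s₁ : ℂ) y₁ hV hVM (ball_subset_ball hεR (hball t (habs t ht))) hx' hx
    · intro t ht
      have h := hY (t : ℂ) (hball t (habs t ht))
      exact ⟨ode_comp h.2, h.1⟩
    · intro t ht
      exact ⟨(hy t ((habs t ht).trans_le hρr)).2, hyin t ht⟩
    · show Y (s₁ : ℂ) = y s₁
      rw [hY1, hy1]
  intro s hsε hsr
  have hsρ : |s - s₁| < ρ := by rw [hρdef]; exact lt_min hsε hsr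
  rw [abs_lt] at hsρ
  exact key ⟨by linarith [hsρ.1], by linarith [hsρ.2]⟩

end Pool.Agent.G3.C

end

section

/-!
# G3 C GenA: solutions of regular relations are analytic in `s`

`JetFam w I D`: `w j s z` is the `j`-th derivative in `s` of `w 0 s z`, continuous in both variables and holomorphic in `z`.
`gen_step`: if the jets satisfy `Q (s, z, w_0, …, w_k) = 0` and the derivative of `Q` in the last variable is not `0` at one point, then `w 0` extends, near this point, to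
complex `s`: differentiate the relation once and apply `ode_real` for each `z`.
-/

set_option autoImplicit false

open Topology Filter Metric

namespace Pool.Agent.G3.C

/-- a family of functions of `s ∈ I` with the parameter `z ∈ D`: `w j` is the `j`-th derivative in `s` -/
structure JetFam (w : ℕ → ℝ → ℂ → ℂ) (I : Set ℝ) (D : Set ℂ) : Prop where
  der : ∀ j, ∀ s ∈ I, ∀ z ∈ D, HasDerivAt (fun t => w j t z) (w (j + 1) s z) s
  cont : ∀ j, ContinuousOn (fun q : ℝ × ℂ => w j q.1 q.2) (I ×ˢ D)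
  hol : ∀ j, ∀ s ∈ I, DifferentiableOn ℂ (w j s) D

/-- the point `(s, z, w_0, …, w_k)` -/
noncomputable def Jt (k : ℕ) (w : ℕ → ℝ → ℂ → ℂ) (s : ℝ) (z : ℂ) : ℂ × ℂ × (Fin (k + 1) → ℂ) := ((s : ℂ), z, fun j => w j s z)

/-- the derivative in the last variable -/
noncomputable def dk {k : ℕ} (Q : ℂ × ℂ × (Fin (k + 1) → ℂ) → ℂ) (q : ℂ × ℂ × (Fin (k + 1) → ℂ)) : ℂ :=
  fderiv ℂ Q q (0, 0, Pi.single (Fin.last k) 1)

theorem dk_analytic {k : ℕ} {Q : ℂ × ℂ × (Fin (k + 1) → ℂ) → ℂ} {q : ℂ × ℂ × (Fin (k + 1) → ℂ)} (hQ : AnalyticAt ℂ Q q) : AnalyticAt ℂ (dk Q) q := by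
  have h1 : AnalyticAt ℂ (fderiv ℂ Q) q := hQ.fderiv
  exact (ContinuousLinearMap.apply ℂ ℂ ((0, 0, Pi.single (Fin.last k) 1) : ℂ × ℂ × (Fin (k + 1) → ℂ))).analyticAt _ |>.comp h1

/-- the conclusion: near `(s₁, z₁)` the function `w` extends to complex `s` -/
def Ext (w : ℝ → ℂ → ℂ) (I : Set ℝ) (D : Set ℂ) (s₁ : ℝ) (z₁ : ℂ) : Prop :=
  ∃ (ε : ℝ) (W : ℂ → ℂ → ℂ) (C : ℝ), 0 < ε ∧ ball z₁ ε ⊆ D ∧ (∀ s : ℝ, |s - s₁| < ε → s ∈ I) ∧
    (∀ z ∈ ball z₁ ε, DifferentiableOn ℂ (fun s => W s z) (ball (s₁ : ℂ) ε)) ∧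
    (∀ z ∈ ball z₁ ε, ∀ s : ℝ, |s - s₁| < ε → W s z = w s z) ∧ ∀ s ∈ ball (s₁ : ℂ) ε, ∀ z ∈ ball z₁ ε, ‖W s z‖ ≤ C

theorem split_vec {k : ℕ} (v : Fin (k + 1) → ℂ) :
    ((1, 0, v) : ℂ × ℂ × (Fin (k + 1) → ℂ)) = (1, 0, 0) + ∑ j : Fin k, v j.castSucc • ((0, 0, Pi.single j.castSucc 1) : ℂ × ℂ × (Fin (k + 1) → ℂ)) +
      v (Fin.last k) • ((0, 0, Pi.single (Fin.last k) 1) : ℂ × ℂ × (Fin (k + 1) → ℂ)) := by
  have h : (v : Fin (k + 1) → ℂ) = ∑ j : Fin (k + 1), v j • (Pi.single j 1 : Fin (k + 1) → ℂ) := by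
    ext i
    simp [Finset.sum_apply, Pi.single_apply]
  have h2 : ((0, 0, v) : ℂ × ℂ × (Fin (k + 1) → ℂ)) = ∑ j : Fin (k + 1), v j • ((0, 0, Pi.single j 1) : ℂ × ℂ × (Fin (k + 1) → ℂ)) := by
    rw [Prod.ext_iff, Prod.ext_iff]
    refine ⟨by simp [Prod.fst_sum], by simp [Prod.fst_sum, Prod.snd_sum], ?_⟩
    simp only [Prod.snd_sum, Prod.smul_snd]
    exact h
  rw [Fin.sum_univ_castSucc] at h2
  rw [add_assoc, ← h2]
  simp

theorem gen_step {k : ℕ} {O : Set (ℂ × ℂ × (Fin (k + 1) → ℂ))} (hO : IsOpen O) {Q : ℂ × ℂ × (Fin (k + 1) → ℂ) → ℂ} (hQ : AnalyticOnNhd ℂ Q O)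
    {w : ℕ → ℝ → ℂ → ℂ} {I : Set ℝ} {D : Set ℂ} (hI : IsOpen I) (hD : IsOpen D) (hw : JetFam w I D) (hmem : ∀ s ∈ I, ∀ z ∈ D, Jt k w s z ∈ O)
    (hrel : ∀ s ∈ I, ∀ z ∈ D, Q (Jt k w s z) = 0) {s₁ : ℝ} {z₁ : ℂ} (hs₁ : s₁ ∈ I) (hz₁ : z₁ ∈ D) (hne : dk Q (Jt k w s₁ z₁) ≠ 0) :
    Ext (w 0) I D s₁ z₁ := by
  set q₁ := Jt k w s₁ z₁ with hq₁
  -- the right hand side of the equation
  set G : ℂ × ℂ × (Fin (k + 1) → ℂ) → ℂ := fun q =>
    -(fderiv ℂ Q q (1, 0, 0) + ∑ j : Fin k, q.2.2 j.succ * fderiv ℂ Q q (0, 0, Pi.single j.castSucc 1)) / dk Q q with hG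
  set VV : ℂ × ℂ × (Fin (k + 1) → ℂ) → Fin (k + 1) → ℂ := fun q => Fin.snoc (α := fun _ => ℂ) (fun j : Fin k => q.2.2 j.succ) (G q) with hVV
  have hap : ∀ v : ℂ × ℂ × (Fin (k + 1) → ℂ), ∀ q ∈ O, AnalyticAt ℂ (fun q => fderiv ℂ Q q v) q := by
    intro v q hq
    exact (ContinuousLinearMap.apply ℂ ℂ v).analyticAt _ |>.comp (hQ q hq).fderiv
  have hco : ∀ (j : Fin (k + 1)) (q : ℂ × ℂ × (Fin (k + 1) → ℂ)), AnalyticAt ℂ (fun q : ℂ × ℂ × (Fin (k + 1) → ℂ) => q.2.2 j) q := by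
    intro j q
    exact ((ContinuousLinearMap.proj (R := ℂ) (φ := fun _ : Fin (k + 1) => ℂ) j).comp
      ((ContinuousLinearMap.snd ℂ ℂ (Fin (k + 1) → ℂ)).comp (ContinuousLinearMap.snd ℂ ℂ (ℂ × (Fin (k + 1) → ℂ))))).analyticAt q
  have hGa : ∀ q ∈ O, dk Q q ≠ 0 → AnalyticAt ℂ G q := by
    intro q hq hq0
    apply AnalyticAt.div _ (dk_analytic (hQ q hq)) hq0
    apply AnalyticAt.neg
    apply (hap _ q hq).add
    apply Finset.analyticAt_fun_sum
    intro j _
    exact (hco j.succ q).mul (hap _ q hq)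
  have hVa : ∀ q ∈ O, dk Q q ≠ 0 → AnalyticAt ℂ VV q := by
    intro q hq hq0
    rw [analyticAt_pi_iff]
    intro i
    refine Fin.lastCases ?_ (fun j => ?_) i
    · simpa [hVV] using hGa q hq hq0
    · simpa [hVV] using hco j.succ q
  have hdkc : ContinuousAt (dk Q) q₁ := (dk_analytic (hQ q₁ (hmem s₁ hs₁ z₁ hz₁))).continuousAt
  have hVc : ContinuousAt VV q₁ := (hVa q₁ (hmem s₁ hs₁ z₁ hz₁) hne).continuousAt
  obtain ⟨R, hR, hball⟩ : ∃ R : ℝ, 0 < R ∧ ∀ q ∈ ball q₁ (2 * R), q ∈ O ∧ dk Q q ≠ 0 ∧ ‖VV q‖ ≤ ‖VV q₁‖ + 1 := by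
    have h1 : ∀ᶠ q in 𝓝 q₁, q ∈ O ∧ dk Q q ≠ 0 ∧ ‖VV q‖ ≤ ‖VV q₁‖ + 1 := by
      refine (hO.eventually_mem (hmem s₁ hs₁ z₁ hz₁)).and ((hdkc.eventually_ne hne).and ?_)
      filter_upwards [hVc.norm.eventually_le_const (show ‖VV q₁‖ < ‖VV q₁‖ + 1 by linarith)] with q hq using hq
    obtain ⟨R, hR, h2⟩ := Metric.eventually_nhds_iff_ball.mp h1
    exact ⟨R / 2, by positivity, fun q hq => h2 q (by rwa [mul_div_cancel₀ R (two_ne_zero)] at hq)⟩
  set M := ‖VV q₁‖ + 1 with hM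
  have hM0 : 0 < M := by positivity
  obtain ⟨ε₀, hε₀, hε₀R, hode⟩ := ode_real (n := k + 1) hR hM0
  -- joint continuity of the jets
  have hJc : ContinuousAt (fun q : ℝ × ℂ => (fun j : Fin (k + 1) => w j q.1 q.2 : Fin (k + 1) → ℂ)) (s₁, z₁) := by
    rw [continuousAt_pi]
    intro j
    exact (hw.cont j).continuousAt ((hI.prod hD).mem_nhds ⟨hs₁, hz₁⟩)
  obtain ⟨r, hr, hrR, hrb⟩ : ∃ r : ℝ, 0 < r ∧ r ≤ R ∧ ∀ q ∈ ball (s₁, z₁) r, q ∈ I ×ˢ D ∧
      (fun j : Fin (k + 1) => w j q.1 q.2 : Fin (k + 1) → ℂ) ∈ ball (fun j : Fin (k + 1) => w j s₁ z₁ : Fin (k + 1) → ℂ) (R / 2) := by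
    have h1 : ∀ᶠ q in 𝓝 (s₁, z₁), q ∈ I ×ˢ D ∧
      (fun j : Fin (k + 1) => w j q.1 q.2 : Fin (k + 1) → ℂ) ∈ ball (fun j : Fin (k + 1) => w j s₁ z₁ : Fin (k + 1) → ℂ) (R / 2) :=
      ((hI.prod hD).eventually_mem ⟨hs₁, hz₁⟩).and (hJc.eventually_mem (isOpen_ball.mem_nhds (mem_ball_self (by positivity))))
    obtain ⟨r, hr, h2⟩ := Metric.eventually_nhds_iff_ball.mp h1
    exact ⟨min r R, lt_min hr hR, min_le_right _ _, fun q hq => h2 q (ball_subset_ball (min_le_left _ _) hq)⟩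
  set ε := min (min ε₀ r) R with hε
  have hε0 : 0 < ε := by positivity
  have hεε₀ : ε ≤ ε₀ := (min_le_left _ _).trans (min_le_left _ _)
  have hεr : ε ≤ r := (min_le_left _ _).trans (min_le_right _ _)
  have hεR : ε ≤ R := min_le_right _ _
  have hin : ∀ s : ℝ, |s - s₁| < r → ∀ z ∈ ball z₁ r, s ∈ I ∧ z ∈ D ∧
      (fun j : Fin (k + 1) => w j s z : Fin (k + 1) → ℂ) ∈ ball (fun j : Fin (k + 1) => w j s₁ z₁ : Fin (k + 1) → ℂ) (R / 2) := by
    intro s hs z hz
    have h1 : ((s, z) : ℝ × ℂ) ∈ ball (s₁, z₁) r := by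
      rw [← ball_prod_same]
      exact ⟨by rwa [mem_ball, Real.dist_eq], hz⟩
    obtain ⟨h2, h3⟩ := hrb _ h1
    exact ⟨h2.1, h2.2, h3⟩
  -- the solution for each z
  have hsol : ∀ z ∈ ball z₁ ε, ∃ Y : ℂ → Fin (k + 1) → ℂ, DifferentiableOn ℂ Y (ball (s₁ : ℂ) ε) ∧
      (∀ s ∈ ball (s₁ : ℂ) ε, ‖Y s‖ ≤ ‖(fun j : Fin (k + 1) => w j s₁ z₁ : Fin (k + 1) → ℂ)‖ + 2 * R) ∧
      ∀ s : ℝ, |s - s₁| < ε → Y (s : ℂ) = fun j : Fin (k + 1) => w j s z := by
    intro z hz
    have hzr : z ∈ ball z₁ r := ball_subset_ball hεr hz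
    have hzR : dist z z₁ < R := lt_of_lt_of_le hz hεR
    set y₁ : Fin (k + 1) → ℂ := fun j => w j s₁ z with hy₁
    have hy₁b : dist y₁ (fun j : Fin (k + 1) => w j s₁ z₁) < R / 2 := (hin s₁ (by simpa using hr) z hzr).2.2
    have hsub : ∀ q ∈ ball ((s₁ : ℂ), y₁) R, ((q.1, z, q.2) : ℂ × ℂ × (Fin (k + 1) → ℂ)) ∈ ball q₁ (2 * R) := by
      intro q hq
      rw [← ball_prod_same] at hq
      rw [hq₁, Jt, ← ball_prod_same, ← ball_prod_same]
      refine ⟨?_, ?_, ?_⟩
      · exact ball_subset_ball (by linarith) hq.1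
      · exact ball_subset_ball (by linarith) (show z ∈ ball z₁ R from hzR)
      · have h1 : dist q.2 y₁ < R := hq.2
        calc dist q.2 (fun j : Fin (k + 1) => w j s₁ z₁) ≤ dist q.2 y₁ + dist y₁ (fun j : Fin (k + 1) => w j s₁ z₁) := dist_triangle _ _ _
          _ < 2 * R := by linarith
    have hins : ∀ q : ℂ × (Fin (k + 1) → ℂ), AnalyticAt ℂ (fun q : ℂ × (Fin (k + 1) → ℂ) => ((q.1, z, q.2) : ℂ × ℂ × (Fin (k + 1) → ℂ))) q := by
      intro q
      exact analyticAt_fst.prod (analyticAt_const.prod analyticAt_snd)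
    obtain ⟨Y, hY1, hY2, hY3⟩ := hode (fun q => VV (q.1, z, q.2)) s₁ y₁ (by
        intro q hq
        obtain ⟨h1, h2, h3⟩ := hball _ (hsub q hq)
        exact ((hVa _ h1 h2).comp_of_eq (hins q) rfl).differentiableAt.differentiableWithinAt) (by
        intro q hq
        exact (hball _ (hsub q hq)).2.2) r (fun s j => w j s z) hr rfl (by
        intro s hs
        obtain ⟨hsI, hzD, hsb⟩ := hin s hs z hzr
        refine ⟨?_, ?_⟩
        · rw [mem_ball] at hsb ⊢
          calc dist (fun j : Fin (k + 1) => w j s z) y₁ ≤ dist (fun j : Fin (k + 1) => w j s z : Fin (k + 1) → ℂ) (fun j : Fin (k + 1) => w j s₁ z₁) +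
              dist y₁ (fun j : Fin (k + 1) => w j s₁ z₁) := dist_triangle_right _ _ _
            _ < R := by linarith
        · -- the differential equation
          have hder : HasDerivAt (fun t : ℝ => (fun j : Fin (k + 1) => w j t z : Fin (k + 1) → ℂ)) (fun j : Fin (k + 1) => w (j + 1) s z) s := by
            rw [hasDerivAt_pi]
            intro j
            exact hw.der j s hsI z hzD
          convert hder using 1
          ext i
          refine Fin.lastCases ?_ (fun j => ?_) i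
          · simp only [hVV, Fin.snoc_last, Fin.val_last]
            have hJ : HasDerivAt (fun t : ℝ => Jt k w t z) ((1, 0, fun j : Fin (k + 1) => w (j + 1) s z) : ℂ × ℂ × (Fin (k + 1) → ℂ)) s := by
              apply HasDerivAt.prodMk (HasDerivAt.ofReal_comp (hasDerivAt_id s))
              exact (hasDerivAt_const s z).prodMk hder
            have hQd : HasFDerivAt Q ((fderiv ℂ Q (Jt k w s z)).restrictScalars ℝ) (Jt k w s z) :=
              (hQ _ (hmem s hsI z hzD)).differentiableAt.hasFDerivAt.restrictScalars ℝ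
            have hcomp := hQd.comp_hasDerivAt s hJ
            have hz0 : HasDerivAt (Q ∘ fun t : ℝ => Jt k w t z) 0 s := by
              apply (hasDerivAt_const s (0 : ℂ)).congr_of_eventuallyEq
              filter_upwards [hI.mem_nhds hsI] with t ht
              exact hrel t ht z hzD
            have heq := hcomp.unique hz0
            simp only [ContinuousLinearMap.coe_restrictScalars'] at heq
            rw [split_vec, map_add, map_add, map_sum, map_smul] at heq
            simp only [map_smul, smul_eq_mul, Fin.val_castSucc, Fin.val_last] at heq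
            have hqb : Jt k w s z ∈ ball q₁ (2 * R) := by
              apply hsub ((s : ℂ), fun j : Fin (k + 1) => w j s z)
              rw [← ball_prod_same]
              refine ⟨?_, ?_⟩
              · rw [mem_ball, dist_eq_norm, ← Complex.ofReal_sub, Complex.norm_real]
                exact lt_of_lt_of_le hs hrR
              · rw [mem_ball] at hsb ⊢
                calc dist (fun j : Fin (k + 1) => w j s z) y₁ ≤ dist (fun j : Fin (k + 1) => w j s z : Fin (k + 1) → ℂ) (fun j : Fin (k + 1) => w j s₁ z₁) +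
                    dist y₁ (fun j : Fin (k + 1) => w j s₁ z₁) := dist_triangle_right _ _ _
                  _ < R := by linarith
            have hdn : dk Q (Jt k w s z) ≠ 0 := (hball _ hqb).2.1
            rw [hG]
            simp only [Jt] at heq hdn ⊢
            rw [div_eq_iff hdn]
            simp only [dk, Fin.val_succ] at heq ⊢
            linear_combination -heq
          · simp [hVV])
    refine ⟨Y, hY1.mono (ball_subset_ball hεε₀), ?_, ?_⟩
    · intro s hs
      have h1 := hY2 s (ball_subset_ball hεε₀ hs)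
      rw [mem_ball, dist_eq_norm] at h1
      have h2 : ‖y₁ - (fun j : Fin (k + 1) => w j s₁ z₁)‖ < R / 2 := by rwa [dist_eq_norm] at hy₁b
      calc ‖Y s‖ = ‖(fun j : Fin (k + 1) => w j s₁ z₁ : Fin (k + 1) → ℂ) + (y₁ - (fun j : Fin (k + 1) => w j s₁ z₁)) + (Y s - y₁)‖ := by
            congr 1
            abel
        _ ≤ ‖(fun j : Fin (k + 1) => w j s₁ z₁ : Fin (k + 1) → ℂ)‖ + ‖y₁ - (fun j : Fin (k + 1) => w j s₁ z₁)‖ + ‖Y s - y₁‖ := norm_add₃_le
        _ ≤ _ := by linarith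
    · intro s hs
      exact hY3 s (hs.trans_le hεε₀) (hs.trans_le hεr)
  choose! Y hY1 hY2 hY3 using hsol
  refine ⟨ε, fun s z => Y z s 0, ‖(fun j : Fin (k + 1) => w j s₁ z₁ : Fin (k + 1) → ℂ)‖ + 2 * R, hε0, ?_, ?_, ?_, ?_, ?_⟩
  · intro z hz
    exact (hin s₁ (by simpa using hr) z (ball_subset_ball hεr hz)).2.1
  · intro s hs
    exact (hin s (hs.trans_le hεr) z₁ (mem_ball_self hr)).1
  · intro z hz
    exact (differentiableOn_pi.mp (hY1 z hz)) 0
  · intro z hz s hs
    show Y z (s : ℂ) 0 = w 0 s z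
    rw [hY3 z hz s hs]
    simp
  · intro s hs z hz
    exact (norm_le_pi_norm _ 0).trans (hY2 z hz s hs)

end Pool.Agent.G3.C

end

section

/-!
# G4 RE Defs: reduced local equations of analytic hypersurfaces; definitions

`Gd D y a`: at the point `y` the set `D` is a smooth hypersurface, and `a` is not tangent.  `Bd D a`: the other points of `D`.  `dd b S`: the product of the differences `b i - b j`, `i ≠ j` in `S`.  `sc q b`, `sd q b t`: if the roots `b i` have exactly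
`q` values, then `sc q b ≠ 0` and `sd q b t = sc q b * ∏ v, (t - v)`, `v` the different roots; if they have fewer values: `sc q b = 0`.
-/

set_option autoImplicit false

open Topology Filter Metric

namespace Pool.Agent.G4.RE

/-- `D` is smooth at `y` and `a` is not tangent -/
def Gd {V : Type} [NormedAddCommGroup V] [NormedSpace ℂ V] (D : Set V) (y a : V) : Prop :=
  ∃ s : V → ℂ, AnalyticAt ℂ s y ∧ s y = 0 ∧ fderiv ℂ s y a ≠ 0 ∧ ∀ᶠ z in 𝓝 y, (z ∈ D ↔ s z = 0)

/-- the bad points -/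
def Bd {V : Type} [NormedAddCommGroup V] [NormedSpace ℂ V] (D : Set V) (a : V) : Set V := {y | y ∈ D ∧ ¬ Gd D y a}

/-- the product of the differences -/
noncomputable def dd {n : ℕ} (b : Fin n → ℂ) (S : Finset (Fin n)) : ℂ := ∏ p ∈ S.offDiag, (b p.1 - b p.2)

noncomputable def sc {n : ℕ} (q : ℕ) (b : Fin n → ℂ) : ℂ := ∑ S ∈ Finset.powersetCard q Finset.univ, dd b S

noncomputable def sd {n : ℕ} (q : ℕ) (b : Fin n → ℂ) (t : ℂ) : ℂ := ∑ S ∈ Finset.powersetCard q Finset.univ, dd b S * ∏ i ∈ S, (t - b i)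

end Pool.Agent.G4.RE

end

section

/-!
# HF Fac: the zeros of a holomorphic function in a disc and power sums

`exists_fac`: `φ` analytic on a neighbourhood of the closed disc, without zeros on the circle: `φ t = ∏ (t - r i) * w t`, `w` analytic without zeros on the closed disc.  (Finitely many zeros in
the compact disc, finite orders, induction on the sum of the orders `∑ analyticOrderAt`; or `MeromorphicOn.extract_zeros_poles` / `AnalyticOnNhd` divisors in Mathlib.)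

`power_sum`: for `H` analytic on a neighbourhood of the closed disc `∮ H φ' / φ = 2 π i ∑ H (r i)`: `φ' / φ = ∑ 1 / (t - r i) + w' / w` on the circle, Cauchy's formula and Cauchy's theorem.

`esymm_newton`: the product of `ν` numbers is a polynomial in their power sums, with rational coefficients which do not depend on the numbers (`MvPolynomial.mul_esymm_eq_sum`, strong induction).
-/

set_option autoImplicit false

open Metric Set Filter Topology

namespace Pool.Agent.H22.HF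

private lemma divide_zero {φ : ℂ → ℂ} {ρ : ℝ} (hφ : ∀ t ∈ closedBall (0 : ℂ) ρ, AnalyticAt ℂ φ t)
    {z : ℂ} (hz : AnalyticAt ℂ φ z) (hord : analyticOrderAt φ z ≠ ⊤) :
    ∃ (m : ℕ) (φ1 : ℂ → ℂ), (∀ t ∈ closedBall (0 : ℂ) ρ, AnalyticAt ℂ φ1 t) ∧ φ1 z ≠ 0 ∧
      (∀ t, φ t = (t - z) ^ m * φ1 t) := by
  obtain ⟨m, hm⟩ := ENat.ne_top_iff_exists.1 hord
  obtain ⟨g, hg, hg0, hgφ⟩ := (hz.analyticOrderAt_eq_natCast).1 hm.symm
  classical
  refine ⟨m, fun t => if t = z then g z else φ t / (t - z) ^ m, ?_, ?_, ?_⟩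
  · intro t ht
    by_cases htz : t = z
    · subst htz
      refine hg.congr ?_
      filter_upwards [hgφ] with s hs
      by_cases hst : s = t
      · simp [hst]
      · have : (s - t) ^ m ≠ 0 := pow_ne_zero _ (sub_ne_zero.2 hst)
        rw [if_neg hst, hs, smul_eq_mul]
        field_simp
    · have h1 : AnalyticAt ℂ (fun s => φ s / (s - z) ^ m) t := by
        refine (hφ t ht).div ?_ ?_
        · exact (analyticAt_id.sub analyticAt_const).pow m
        · exact pow_ne_zero _ (sub_ne_zero.2 htz)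
      refine h1.congr ?_
      filter_upwards [isOpen_ne.mem_nhds htz] with s hs
      rw [if_neg hs]
  · simpa using hg0
  · intro t
    by_cases htz : t = z
    · subst htz
      have := hgφ.self_of_nhds
      simpa [smul_eq_mul] using this
    · have : (t - z) ^ m ≠ 0 := pow_ne_zero _ (sub_ne_zero.2 htz)
      simp only [if_neg htz]
      field_simp

private lemma fac_finset {ρ : ℝ} (Z : Finset ℂ) : ∀ (φ : ℂ → ℂ)
    (_ : ∀ t ∈ closedBall (0 : ℂ) ρ, AnalyticAt ℂ φ t)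
    (_ : ∀ t ∈ closedBall (0 : ℂ) ρ, analyticOrderAt φ t ≠ ⊤)
    (_ : ∀ t ∈ closedBall (0 : ℂ) ρ, φ t = 0 → t ∈ Z) (_ : ∀ z ∈ Z, ‖z‖ < ρ),
    ∃ (ν : ℕ) (r : Fin ν → ℂ) (w : ℂ → ℂ), (∀ i, ‖r i‖ < ρ) ∧
      (∀ t ∈ closedBall (0 : ℂ) ρ, AnalyticAt ℂ w t ∧ w t ≠ 0) ∧
      ∀ t, φ t = (∏ i, (t - r i)) * w t := by
  classical
  induction Z using Finset.induction_on with
  | empty =>
    intro φ hφ _ h0 _
    refine ⟨0, Fin.elim0, φ, fun i => i.elim0, fun t ht => ⟨hφ t ht, fun h => ?_⟩, fun t => by simp⟩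
    simpa using h0 t ht h
  | insert z Z hzZ ih =>
    intro φ hφ hord h0 hZ
    have hzρ : ‖z‖ < ρ := hZ z (Finset.mem_insert_self _ _)
    have hzb : z ∈ closedBall (0 : ℂ) ρ := by
      rw [mem_closedBall, dist_zero_right]; exact hzρ.le
    obtain ⟨m, φ1, h1, h2, h3⟩ := divide_zero hφ (hφ z hzb) (hord z hzb)
    obtain ⟨ν, r, w, hr, hw, hfac⟩ := ih φ1 h1 (by
      intro t ht htop
      apply hord t ht
      rw [analyticOrderAt_eq_top] at htop ⊢
      filter_upwards [htop] with s hs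
      rw [h3 s, hs, mul_zero]) (by
      intro t ht h
      have : φ t = 0 := by rw [h3 t, h, mul_zero]
      rcases Finset.mem_insert.1 (h0 t ht this) with h' | h'
      · subst h'; exact absurd h h2
      · exact h') (fun y hy => hZ y (Finset.mem_insert_of_mem hy))
    refine ⟨m + ν, Fin.append (fun _ : Fin m => z) r, w, ?_, hw, ?_⟩
    · intro i
      refine Fin.addCases (fun i => ?_) (fun i => ?_) i
      · rw [Fin.append_left]; exact hzρ
      · rw [Fin.append_right]; exact hr i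
    · intro t
      rw [Fin.prod_univ_add]
      simp only [Fin.append_left, Fin.append_right, Finset.prod_const, Finset.card_univ, Fintype.card_fin]
      rw [h3 t, hfac t, mul_assoc]

theorem exists_fac {φ : ℂ → ℂ} {ρ : ℝ} (hρ : 0 < ρ) (hφ : ∀ t ∈ closedBall (0 : ℂ) ρ, AnalyticAt ℂ φ t) (h0 : ∀ t ∈ sphere (0 : ℂ) ρ, φ t ≠ 0) :
    ∃ (ν : ℕ) (r : Fin ν → ℂ) (w : ℂ → ℂ), (∀ i, ‖r i‖ < ρ) ∧ (∀ t ∈ closedBall (0 : ℂ) ρ, AnalyticAt ℂ w t ∧ w t ≠ 0) ∧
      ∀ t ∈ closedBall (0 : ℂ) ρ, φ =ᶠ[𝓝 t] fun t => (∏ i, (t - r i)) * w t := by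
  classical
  have hρs : ((ρ : ℝ) : ℂ) ∈ sphere (0 : ℂ) ρ := by
    rw [mem_sphere, dist_zero_right, Complex.norm_real, Real.norm_of_nonneg hρ.le]
  have hnotloc : ∀ t ∈ closedBall (0 : ℂ) ρ, ¬ (∀ᶠ s in 𝓝 t, φ s = 0) := by
    intro t ht hev
    have hpre : IsPreconnected (closedBall (0 : ℂ) ρ) := (convex_closedBall 0 ρ).isPreconnected
    have hA : AnalyticOnNhd ℂ φ (closedBall (0 : ℂ) ρ) := fun s hs => hφ s hs
    have := hA.eqOn_zero_of_preconnected_of_eventuallyEq_zero hpre ht hev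
    exact h0 _ hρs (this (sphere_subset_closedBall hρs))
  have hord : ∀ t ∈ closedBall (0 : ℂ) ρ, analyticOrderAt φ t ≠ ⊤ := by
    intro t ht htop
    rw [analyticOrderAt_eq_top] at htop
    exact hnotloc t ht htop
  -- finitely many zeros
  have hfin : ∃ Z : Finset ℂ, ∀ t ∈ closedBall (0 : ℂ) ρ, φ t = 0 → t ∈ Z := by
    have hU : ∀ t ∈ closedBall (0 : ℂ) ρ, {s : ℂ | φ s ≠ 0 ∨ s = t} ∈ 𝓝 t := by
      intro t ht
      rcases (hφ t ht).eventually_eq_zero_or_eventually_ne_zero with h | h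
      · exact absurd h (hnotloc t ht)
      · rw [eventually_nhdsWithin_iff] at h
        filter_upwards [h] with s hs
        by_cases hst : s = t
        · right; exact hst
        · left; exact hs hst
    obtain ⟨F, hF1, hF2⟩ := (isCompact_closedBall (0 : ℂ) ρ).elim_nhds_subcover (fun t => {s : ℂ | φ s ≠ 0 ∨ s = t}) hU
    refine ⟨F, fun t ht h => ?_⟩
    obtain ⟨x, hx, hx2⟩ := mem_iUnion₂.1 (hF2 ht)
    rcases hx2 with h' | h'
    · exact absurd h h'
    · rw [h']; exact hx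
  obtain ⟨Z, hZ⟩ := hfin
  obtain ⟨ν, r, w, hr, hw, hfac⟩ := fac_finset (ρ := ρ) (Z.filter fun z => ‖z‖ < ρ) φ hφ hord (by
    intro t ht h
    refine Finset.mem_filter.2 ⟨hZ t ht h, ?_⟩
    rw [mem_closedBall, dist_zero_right] at ht
    rcases ht.lt_or_eq with h' | h'
    · exact h'
    · exact absurd h (h0 t (by rw [mem_sphere, dist_zero_right]; exact h'))) (fun z hz => (Finset.mem_filter.1 hz).2)
  exact ⟨ν, r, w, hr, hw, fun t _ => Eventually.of_forall hfac⟩

theorem power_sum {ρ : ℝ} (hρ : 0 < ρ) {φ w H : ℂ → ℂ} {ν : ℕ} {r : Fin ν → ℂ} (hr : ∀ i, ‖r i‖ < ρ) (hw : ∀ t ∈ closedBall (0 : ℂ) ρ, AnalyticAt ℂ w t ∧ w t ≠ 0)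
    (hφ : ∀ t ∈ closedBall (0 : ℂ) ρ, φ =ᶠ[𝓝 t] fun t => (∏ i, (t - r i)) * w t) (hH : ∀ t ∈ closedBall (0 : ℂ) ρ, AnalyticAt ℂ H t) :
    (∮ t in C(0, ρ), H t * deriv φ t / φ t) = 2 * Real.pi * Complex.I * ∑ i, H (r i) := by
  have hne : ∀ t ∈ sphere (0 : ℂ) ρ, ∀ i, t - r i ≠ 0 := by
    intro t ht i h
    rw [mem_sphere, dist_zero_right] at ht
    have := hr i
    rw [← sub_eq_zero.1 h, ht] at this
    exact lt_irrefl _ this
  have hdiff : DifferentiableOn ℂ H (closedBall 0 ρ) :=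
    fun t ht => (hH t ht).differentiableAt.differentiableWithinAt
  have hdiff2 : DifferentiableOn ℂ (fun t => H t * logDeriv w t) (closedBall 0 ρ) := by
    intro t ht
    refine DifferentiableAt.differentiableWithinAt ?_
    have h1 : AnalyticAt ℂ (fun t => H t * (deriv w t / w t)) t :=
      (hH t ht).mul ((hw t ht).1.deriv.div (hw t ht).1 (hw t ht).2)
    exact h1.differentiableAt
  have hEq : EqOn (fun t => H t * deriv φ t / φ t)
      (fun t => (∑ i, (t - r i)⁻¹ • H t) + H t * logDeriv w t) (sphere 0 ρ) := by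
    intro t ht
    have htc := sphere_subset_closedBall ht
    have h1 : logDeriv φ t = logDeriv (fun t => (∏ i, (t - r i)) * w t) t :=
      (logDeriv_congr_nhds (hφ t htc)).self_of_nhds
    have h2 : logDeriv (fun t => (∏ i, (t - r i)) * w t) t =
        (∑ i, (t - r i)⁻¹) + logDeriv w t := by
      rw [logDeriv_mul t (Finset.prod_ne_zero_iff.2 fun i _ => hne t ht i) (hw t htc).2
        (by fun_prop) (hw t htc).1.differentiableAt,
        logDeriv_prod (fun i _ => hne t ht i) (fun i _ => by fun_prop)]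
      congr 1
      refine Finset.sum_congr rfl fun i _ => ?_
      rw [logDeriv_apply, deriv_sub_const, deriv_id'', one_div]
    change H t * deriv φ t / φ t = (∑ i, (t - r i)⁻¹ • H t) + H t * logDeriv w t
    rw [mul_div_assoc, ← logDeriv_apply, h1, h2, mul_add, Finset.mul_sum]
    congr 1
    refine Finset.sum_congr rfl fun i _ => ?_
    rw [smul_eq_mul, mul_comm]
  rw [circleIntegral.integral_congr hρ.le hEq]
  have hci : ∀ i ∈ (Finset.univ : Finset (Fin ν)), CircleIntegrable (fun t => (t - r i)⁻¹ • H t) 0 ρ := by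
    intro i _
    refine ContinuousOn.circleIntegrable hρ.le ?_
    have h5 : ContinuousOn (fun t : ℂ => (t - r i)⁻¹) (sphere 0 ρ) :=
      (continuousOn_id.sub continuousOn_const).inv₀ fun t ht => hne t ht i
    exact h5.smul (hdiff.continuousOn.mono sphere_subset_closedBall)
  rw [circleIntegral.integral_add, circleIntegral.integral_fun_sum hci]
  · have h3 : (∮ t in C(0, ρ), H t * logDeriv w t) = 0 := by
      refine DiffContOnCl.circleIntegral_eq_zero hρ.le ?_
      exact (hdiff2.mono closure_ball_subset_closedBall).diffContOnCl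
    rw [h3, add_zero, Finset.mul_sum]
    refine Finset.sum_congr rfl fun i _ => ?_
    rw [hdiff.circleIntegral_sub_inv_smul (by rw [mem_ball, dist_zero_right]; exact hr i), smul_eq_mul]
  · have := CircleIntegrable.fun_sum Finset.univ hci
    exact this
  · exact ContinuousOn.circleIntegrable hρ.le (hdiff2.continuousOn.mono sphere_subset_closedBall)

open MvPolynomial in
private lemma esymm_newton_aux (ν : ℕ) : ∀ k : ℕ, k ≤ ν → ∃ P : MvPolynomial (Fin ν) ℂ, ∀ a : Fin ν → ℂ,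
    eval a (esymm (Fin ν) ℂ k) = eval (fun j : Fin ν => ∑ i, a i ^ ((j : ℕ) + 1)) P := by
  intro k
  induction k using Nat.strong_induction_on with
  | _ k ih =>
    intro hk
    rcases Nat.eq_zero_or_pos k with h0 | h0
    · subst h0
      exact ⟨1, fun a => by simp⟩
    · have hex : ∀ j : ℕ, ∃ Q : MvPolynomial (Fin ν) ℂ, j < k → ∀ a : Fin ν → ℂ,
          eval a (esymm (Fin ν) ℂ j) = eval (fun j : Fin ν => ∑ i, a i ^ ((j : ℕ) + 1)) Q := by
        intro j
        by_cases hj : j < k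
        · obtain ⟨Q, hQ⟩ := ih j hj (hj.le.trans hk)
          exact ⟨Q, fun _ => hQ⟩
        · exact ⟨0, fun h => absurd h hj⟩
      choose Q hQ using hex
      have hps : ∀ j : ℕ, ∃ R : MvPolynomial (Fin ν) ℂ, 0 < j → j ≤ k → ∀ a : Fin ν → ℂ,
          eval a (psum (Fin ν) ℂ j) = eval (fun j : Fin ν => ∑ i, a i ^ ((j : ℕ) + 1)) R := by
        intro j
        by_cases hj : 0 < j ∧ j ≤ k
        · refine ⟨X ⟨j - 1, by omega⟩, fun _ _ a => ?_⟩
          rw [eval_X, psum, map_sum]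
          refine Finset.sum_congr rfl fun i _ => ?_
          have : j - 1 + 1 = j := by omega
          simp [this]
        · exact ⟨0, fun h1 h2 => absurd ⟨h1, h2⟩ hj⟩
      choose R hR using hps
      refine ⟨C ((k : ℂ)⁻¹ * (-1) ^ (k + 1)) * ∑ a ∈ Finset.HasAntidiagonal.antidiagonal k with a.1 < k, C ((-1 : ℂ) ^ a.1) * Q a.1 * R a.2, fun a => ?_⟩
      have hk0 : (k : ℂ) ≠ 0 := by exact_mod_cast h0.ne'
      have h1 := congrArg (eval a) (mul_esymm_eq_sum (Fin ν) ℂ k)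
      simp only [map_mul, map_natCast, map_pow, map_neg, map_one, map_sum] at h1
      have h2 : eval a (esymm (Fin ν) ℂ k) = (k : ℂ)⁻¹ * ((k : ℂ) * eval a (esymm (Fin ν) ℂ k)) := by
        field_simp
      rw [h2, h1]
      simp only [map_mul, eval_C, map_sum]
      rw [mul_assoc]
      congr 2
      refine Finset.sum_congr rfl fun b hb => ?_
      obtain ⟨hb1, hb2⟩ := Finset.mem_filter.1 hb
      rw [Finset.HasAntidiagonal.mem_antidiagonal] at hb1
      rw [hQ b.1 hb2 a, hR b.2 (by omega) (by omega) a]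

theorem esymm_newton (ν : ℕ) : ∃ P : MvPolynomial (Fin ν) ℂ, ∀ a : Fin ν → ℂ, ∏ i, a i = MvPolynomial.eval (fun k : Fin ν => ∑ i, a i ^ ((k : ℕ) + 1)) P := by
  obtain ⟨P, hP⟩ := esymm_newton_aux ν ν le_rfl
  refine ⟨P, fun a => ?_⟩
  rw [← hP a, MvPolynomial.esymm]
  have : (Finset.univ : Finset (Fin ν)).powersetCard ν = {Finset.univ} := by
    have := Finset.powersetCard_self (Finset.univ : Finset (Fin ν))
    simpa using this
  rw [this, Finset.sum_singleton, map_prod]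
  simp

end Pool.Agent.H22.HF

end

section

/-!
# K-semistability of Fano varieties over the complex numbers: definitions

Smooth projective varieties with ample anticanonical divisor, pluri-anticanonical sections,
prime divisors over a variety, log discrepancies, the invariant `S`, and the valuative criterion
of Fujita and Li.
-/

open AlgebraicGeometry CategoryTheory MeasureTheory Filter
open scoped ENNReal

noncomputable section

namespace Pool.Agent.H23

/-! ## Birational algebra in a function field -/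

section FunctionField

variable (K : Type) [Field K] [Algebra ℂ K] (n : ℕ)

/-- Rational `n`-forms of the function field `K` over `ℂ`: the `K`-vector space `⋀ⁿ Ω_{K/ℂ}`. -/
abbrev RatForm : Type := ⋀[K]^n Ω[K⁄ℂ]

variable {K}

/-- The regular `n`-forms of a `ℂ`-subalgebra `A` of `K`, that is the image of
`⋀ⁿ Ω_{A/ℂ}` in `⋀ⁿ Ω_{K/ℂ}`: all finite sums of forms `c da₁ ∧ ⋯ ∧ daₙ` with
`c, a₁, …, aₙ ∈ A`. -/
def regularForms (A : Subalgebra ℂ K) : AddSubgroup (RatForm K n) :=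
  AddSubgroup.closure {ω | ∃ (c : K) (a : Fin n → K), c ∈ A ∧ (∀ i, a i ∈ A) ∧
    ω = c • exteriorPower.ιMulti K n (fun i => KaehlerDifferential.D ℂ K (a i))}

variable {ι : Type} (O : ι → Subalgebra ℂ K)

/-- Let `O x`, `x : ι`, be the local rings of a smooth variety `X` of dimension `n` with function
field `K`. A rational section of `-m K_X` is a function `φ` on rational `n`-forms with
`φ (g • ω) = g ^ m * φ ω`; it is regular at `x` if it takes the regular `n`-forms at `x` to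
`O x`. This is the space `H⁰(X, -m K_X)` of everywhere regular sections. -/
def antiSections (m : ℕ) : Submodule ℂ (RatForm K n → K) where
  carrier := {φ | (∀ (g : K) (ω : RatForm K n), φ (g • ω) = g ^ m * φ ω) ∧
    ∀ x, ∀ ω ∈ regularForms n (O x), φ ω ∈ O x}
  add_mem' := by
    rintro φ ψ ⟨h1, h2⟩ ⟨h3, h4⟩
    refine ⟨fun g ω => ?_, fun x ω hω => ?_⟩
    · simp only [Pi.add_apply, h1, h3, mul_add]
    · exact (O x).add_mem (h2 x ω hω) (h4 x ω hω)
  zero_mem' := ⟨fun g ω => by simp, fun x ω _ => (O x).zero_mem⟩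
  smul_mem' := by
    rintro c φ ⟨h1, h2⟩
    refine ⟨fun g ω => ?_, fun x ω hω => ?_⟩
    · simp only [Pi.smul_apply, h1, mul_smul_comm]
    · exact (O x).smul_mem (h2 x ω hω) c

/-- The valuation ring of a valuation which is trivial on `ℂ`. -/
def valRing (v : AddValuation K (WithTop ℤ)) (hv : ∀ c : ℂ, 0 ≤ v (algebraMap ℂ K c)) :
    Subalgebra ℂ K where
  carrier := {f | 0 ≤ v f}
  mul_mem' := fun {a b} ha hb => by
    simp only [Set.mem_ofPred_eq, AddValuation.map_mul] at *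
    exact add_nonneg ha hb
  add_mem' := fun {a b} ha hb => by
    simp only [Set.mem_ofPred_eq] at *
    exact le_trans (le_min ha hb) (v.map_add a b)
  algebraMap_mem' := hv

variable (K) in
/-- A prime divisor over a variety of dimension `n` with function field `K`, given by its order
function: a discrete valuation of `K`, normalised to have value group `ℤ`, trivial on `ℂ`, whose
residue field has transcendence degree `n - 1` over `ℂ` (that is, there are `n - 1` elements of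
the valuation ring whose residue classes are algebraically independent over `ℂ`). -/
structure PrimeDivisorOver where
  /-- the order of vanishing along the divisor -/
  ord : AddValuation K (WithTop ℤ)
  ord_const : ∀ c : ℂ, 0 ≤ ord (algebraMap ℂ K c)
  exists_uniformizer : ∃ t : K, ord t = 1
  residue_trdeg : ∃ s : Fin (n - 1) → K, (∀ i, 0 ≤ ord (s i)) ∧
    ∀ p : MvPolynomial (Fin (n - 1)) ℂ, p ≠ 0 → ord (MvPolynomial.aeval s p) = 0

variable {n}

/-- The local ring of the generic point of a prime divisor over `X`. -/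
def PrimeDivisorOver.localRing (E : PrimeDivisorOver K n) : Subalgebra ℂ K :=
  valRing E.ord E.ord_const

variable (n)

end FunctionField

/-! ## Varieties -/

section Scheme

variable {X : Scheme.{0}} (s : X ⟶ Spec (.of ℂ)) [IsIntegral X]

/-- The function field of a complex variety is a `ℂ`-algebra. -/
@[reducible]
def functionFieldAlgebra : Algebra ℂ X.functionField :=
  RingHom.toAlgebra ((Scheme.ΓSpecIso (.of ℂ)).inv ≫ s.appTop ≫
    X.presheaf.germ ⊤ (genericPoint X) (TopologicalSpace.Opens.mem_top _)).hom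

/-- The local ring of a complex variety at a point, as a subalgebra of the function field. -/
def localRingAt (x : X) :
    letI := functionFieldAlgebra s
    Subalgebra ℂ X.functionField :=
  letI := functionFieldAlgebra s
  { (algebraMap (X.presheaf.stalk x) X.functionField).range with
    algebraMap_mem' := fun c => by
      refine ⟨((Scheme.ΓSpecIso (.of ℂ)).inv ≫ s.appTop ≫
        X.presheaf.germ ⊤ x (TopologicalSpace.Opens.mem_top _)).hom c, ?_⟩
      change (((Scheme.ΓSpecIso (.of ℂ)).inv ≫ s.appTop ≫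
        X.presheaf.germ ⊤ x (TopologicalSpace.Opens.mem_top _)) ≫
          X.presheaf.stalkSpecializes ((genericPoint_spec X).specializes trivial)).hom c =
        ((Scheme.ΓSpecIso (.of ℂ)).inv ≫ s.appTop ≫
          X.presheaf.germ ⊤ (genericPoint X) (TopologicalSpace.Opens.mem_top _)).hom c
      rw [Category.assoc, Category.assoc, X.presheaf.germ_stalkSpecializes] }

/-- `-K_X` is ample: every point of `X` has an open affine neighbourhood of the form
`X_φ = {y | φ generates the sheaf of sections of -m K_X at y}` with `m ≥ 1` and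
`φ ∈ H⁰(X, -m K_X)`. -/
def AntiAmple (n : ℕ) : Prop :=
  letI := functionFieldAlgebra s
  ∀ x : X, ∃ m : ℕ, 1 ≤ m ∧ ∃ φ ∈ antiSections n (localRingAt s) m, ∃ U : X.Opens,
    IsAffineOpen U ∧ x ∈ U ∧ ∀ y : X, y ∈ U ↔
      ∃ ω ∈ regularForms n (localRingAt s y), φ ω ≠ 0 ∧ (φ ω)⁻¹ ∈ localRingAt s y

end Scheme

/-- A Fano variety of dimension `n` over `ℂ`: a smooth projective variety of dimension `n` with
ample anticanonical divisor. -/
structure FanoVariety (n : ℕ) where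
  /-- the underlying scheme -/
  X : Scheme.{0}
  /-- the structure morphism -/
  str : X ⟶ Spec (.of ℂ)
  [integral : IsIntegral X]
  proper : IsProper str
  smooth : SmoothOfRelativeDimension n str
  ample : AntiAmple str n


end Pool.Agent.H23

end
end

section

set_option linter.style.haveILetI false

noncomputable section

namespace Pool.Agent.H23

section top

variable {K : Type*} [Field K] {M : Type*} [AddCommGroup M] [Module K M] {n : ℕ}
  (b : Module.Basis (Fin n) K M)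

lemma ιMulti_eq (v : Fin n → M) :
    exteriorPower.ιMulti K n v = b.det v • exteriorPower.ιMulti K n (fun i => b i) := by
  have h : (exteriorPower.ιMulti K n : M [⋀^Fin n]→ₗ[K] ⋀[K]^n M) =
      (LinearMap.toSpanSingleton K (⋀[K]^n M) (exteriorPower.ιMulti K n (fun i => b i))).compAlternatingMap
        b.det := by
    apply Module.Basis.ext_alternating b
    intro σ hσ
    have hbij : Function.Bijective σ := (Finite.injective_iff_bijective).1 hσ
    let e : Equiv.Perm (Fin n) := Equiv.ofBijective σ hbij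
    have h1 : (fun i => b (σ i)) = (fun i => b i) ∘ e := rfl
    rw [h1, AlternatingMap.map_perm, LinearMap.compAlternatingMap_apply, AlternatingMap.map_perm,
      Module.Basis.det_self]
    simp
  conv_lhs => rw [h]
  rw [LinearMap.compAlternatingMap_apply, LinearMap.toSpanSingleton_apply]

/-- coordinate of a top form -/
def fc : (⋀[K]^n M) →ₗ[K] K := exteriorPower.alternatingMapLinearEquiv b.det

lemma fc_ιMulti (v : Fin n → M) : fc b (exteriorPower.ιMulti K n v) = b.det v := by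
  rw [fc, exteriorPower.alternatingMapLinearEquiv_apply_ιMulti]

lemma fc_self : fc b (exteriorPower.ιMulti K n (fun i => b i)) = 1 := by
  rw [fc_ιMulti]
  exact b.det_self

lemma eq_fc_smul (ω : ⋀[K]^n M) : ω = fc b ω • exteriorPower.ιMulti K n (fun i => b i) := by
  have hω : ω ∈ Submodule.span K (Set.range (exteriorPower.ιMulti K n (M := M))) := by
    rw [exteriorPower.ιMulti_span]; trivial
  induction hω using Submodule.span_induction with
  | mem x hx =>
    obtain ⟨v, rfl⟩ := hx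
    rw [fc_ιMulti]
    exact ιMulti_eq b v
  | zero => simp
  | add x y _ _ hx hy =>
    rw [map_add, add_smul, ← hx, ← hy]
  | smul c x _ hx =>
    rw [map_smul, smul_assoc, ← hx]

end top

section coords

variable {K : Type} [Field K] [Algebra ℂ K] {n : ℕ}

end coords

section primeDivisor

variable {K : Type} [Field K] [Algebra ℂ K]

end primeDivisor

end Pool.Agent.H23

end
end
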