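import Pool.Agent.H94.G5T.M07

/-! The parts of this file: G3.Defs_1, G3.CvA, TG.Y.Sl, TG.Y.SlA. -/

section

/-!
# G3 Defs: curves over arcs, symmetric differentials, the functional

`X` is the cone (without `0`) over a projective manifold, `u` a holomorphic map to `ℂ^(k+1) / Λ` (conventions of `TG.Defs`).

* `Cv X Λ u U F h`: `F` is a holomorphic curve in `X` over the set `U` (used for open sets), `h` a lift of `u ∘ F`.
* `SForm X Λ u m`: symmetric differentials of degree `m` on `{(x, y) : u x = y mod Λ}` with values in `O(-1)`.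
* `PData`: finitely many symmetric differentials without common zeros outside `D`, quasi-periodic with respect to the weight `wt W y = ∑ |W i y|²`.
* `PS`: the properties of the real valued function `p (x, v) = max_j |P_j (x, v)|` (metrics of `O(-1)` and of the weight) which are used in the sequel.
* `QD`: the form `Q`, of degree `d`, `|Q x| ≤ |x|^d` on `X`; `Lq Q d x = - log (|Q x| / |x|^d) ≥ 0`.
* `Np = max (0, log (|h'|^m / p (F, F')))`, `Lam = Lq + K Np`, `Mf = max (|h'|, ε p (F, F')^(1/m))`.  (If `h' = 0` then `Np = 0`.  These definitions are used only at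
  points where `Ok` holds: `Q (F z) ≠ 0` and `0 < p (F z) (F' z)`.)
-/

set_option autoImplicit false

open Topology Filter Metric

namespace Pool.Agent.G3

open Pool.Agent.H36.BP (EN fs wd Sub)
open Pool.Agent.H14.PP (IsCone CurveAt Tan)
open Pool.Agent.H62.EF (MN pr)
open Pool.Agent.AD (Vd)
open Pool.Agent.TG (TMap Lat Geo Gd)

variable {N k : ℕ}

/-- `F` is a holomorphic curve in `X` over `U`, and `h` is a lift of `u ∘ F` -/
structure Cv (X : Set (EN N)) (Λ : AddSubgroup (Vd (k + 1))) (u : EN N → Vd (k + 1)) (U : Set ℂ) (F : ℂ → EN N) (h : ℂ → Vd (k + 1)) : Prop where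
  F_diff : DifferentiableOn ℂ F U
  h_diff : DifferentiableOn ℂ h U
  mem : ∀ z ∈ U, F z ∈ X
  lift : ∀ z ∈ U, u (F z) - h z ∈ Λ

/-- the value of `p` on the curve `F` -/
noncomputable def pf (p : EN N → EN N → ℝ) (F : ℂ → EN N) (z : ℂ) : ℝ := p (F z) (deriv F z)

/-- `circleAverage (log |F|) z r - log |F z|` -/
noncomputable def TT (F : ℂ → EN N) (z : ℂ) (r : ℝ) : ℝ := Real.circleAverage (fun w => Real.log ‖F w‖) z r - Real.log ‖F z‖

/-- the properties of the function `p` -/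
structure PS (X : Set (EN N)) (Λ : AddSubgroup (Vd (k + 1))) (u : EN N → Vd (k + 1)) (D : Set (Vd (k + 1))) (p : EN N → EN N → ℝ) (m : ℕ) (C : ℝ) :
    Prop where
  m_pos : 1 ≤ m
  C_ge : 1 ≤ C
  nonneg : ∀ x v, 0 ≤ p x v
  hom : ∀ x ∈ X, ∀ v, Tan X x v → ∀ a : ℂ, p x (a • v) = ‖a‖ ^ m * p x v
  le_fs : ∀ x ∈ X, ∀ v, Tan X x v → p x v ≤ C * fs x v ^ m
  ge_fs : ∀ δ : ℝ, 0 < δ → ∃ c : ℝ, 0 < c ∧ ∀ y ∈ Gd D δ, ∀ x ∈ X, u x - y ∈ Λ → ∀ v, Tan X x v → c * fs x v ^ m ≤ p x v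
  /-- the derivative of `u` is bounded -/
  du : ∀ (U : Set ℂ) (F : ℂ → EN N) (h : ℂ → Vd (k + 1)), IsOpen U → Cv X Λ u U F h → ∀ z ∈ U, ‖deriv h z‖ ≤ C * fs (F z) (deriv F z)
  cont : ∀ (U : Set ℂ) (F : ℂ → EN N) (h : ℂ → Vd (k + 1)), IsOpen U → Cv X Λ u U F h → ContinuousOn (pf p F) U
  /-- Jensen's inequality -/
  jensen : ∀ (U : Set ℂ) (F : ℂ → EN N) (h : ℂ → Vd (k + 1)), IsOpen U → Cv X Λ u U F h → ∀ (z : ℂ) (r : ℝ), 0 < r → closedBall z r ⊆ U →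
    0 < pf p F z → CircleIntegrable (fun w => Real.log (pf p F w)) z r ∧
    Real.log (pf p F z) + TT F z r ≤ Real.circleAverage (fun w => Real.log (pf p F w)) z r + C * Real.circleAverage (fun w => ‖h w - h z‖ ^ 2) z r
  /-- the zeros of `p` on a curve are isolated, or `p` is `0` -/
  isol : ∀ (U : Set ℂ) (F : ℂ → EN N) (h : ℂ → Vd (k + 1)), IsOpen U → Cv X Λ u U F h → IsPreconnected U → (∃ z ∈ U, 0 < pf p F z) →
    ∀ z ∈ U, ∀ᶠ w in 𝓝[≠] z, 0 < pf p F w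

/-- the form `Q` of degree `d`, `|Q x| ≤ |x|^d` on `X`; it is `0` on the fibres over `D` -/
structure QD (X : Set (EN N)) (Λ : AddSubgroup (Vd (k + 1))) (u : EN N → Vd (k + 1)) (D : Set (Vd (k + 1))) (Q : EN N → ℂ) (d : ℕ) : Prop where
  d_pos : 1 ≤ d
  diff : Differentiable ℂ Q
  hom : ∀ (c : ℂ) (x : EN N), Q (c • x) = c ^ d * Q x
  bound : ∀ x ∈ X, ‖Q x‖ ≤ ‖x‖ ^ d
  zero : ∀ x ∈ X, ∀ y ∈ D, u x - y ∈ Λ → Q x = 0

/-- `- log (|Q x| / |x|^d)` -/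
noncomputable def Lq (Q : EN N → ℂ) (d : ℕ) (x : EN N) : ℝ := d * Real.log ‖x‖ - Real.log ‖Q x‖

/-- the point `z` is not degenerate -/
def Ok (Q : EN N → ℂ) (p : EN N → EN N → ℝ) (F : ℂ → EN N) (z : ℂ) : Prop := Q (F z) ≠ 0 ∧ 0 < pf p F z

/-- `max (0, log (|h'|^m / p (F, F')))` -/
noncomputable def Np (p : EN N → EN N → ℝ) (m : ℕ) (F : ℂ → EN N) (h : ℂ → Vd (k + 1)) (z : ℂ) : ℝ :=
  max 0 (-Real.log (pf p F z / ‖deriv h z‖ ^ m))

/-- the functional -/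
noncomputable def Lam (Q : EN N → ℂ) (d : ℕ) (p : EN N → EN N → ℝ) (m : ℕ) (F : ℂ → EN N) (h : ℂ → Vd (k + 1)) (z : ℂ) : ℝ :=
  Lq Q d (F z) + d * Np p m F h z

/-- `max (|h'|, ε p (F, F')^(1/m))` -/
noncomputable def Mf (p : EN N → EN N → ℝ) (m : ℕ) (ε : ℝ) (F : ℂ → EN N) (h : ℂ → Vd (k + 1)) (z : ℂ) : ℝ :=
  max ‖deriv h z‖ (ε * pf p F z ^ (1 / (m : ℝ)))

end Pool.Agent.G3

end

section

/-!
# G3 CvA: basic facts on curves over arcs
-/

set_option autoImplicit false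

open Topology Filter Metric

namespace Pool.Agent.G3

open Pool.Agent.H36.BP (EN fs wd Sub)
open Pool.Agent.H14.PP (IsCone CurveAt Tan)
open Pool.Agent.H62.EF (MN pr)
open Pool.Agent.AD (Vd)
open Pool.Agent.TG (TMap Lat Geo Gd)

variable {N k : ℕ} {X : Set (EN N)} {Λ : AddSubgroup (Vd (k + 1))} {u : EN N → Vd (k + 1)} {D : Set (Vd (k + 1))} {p : EN N → EN N → ℝ} {m : ℕ} {C : ℝ}

theorem Cv.mono {U V : Set ℂ} {F : ℂ → EN N} {h : ℂ → Vd (k + 1)} (hF : Cv X Λ u U F h) (hV : V ⊆ U) : Cv X Λ u V F h :=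
  ⟨hF.F_diff.mono hV, hF.h_diff.mono hV, fun z hz => hF.mem z (hV hz), fun z hz => hF.lift z (hV hz)⟩

/-- composition with a holomorphic map -/
theorem Cv.comp {U V : Set ℂ} {F : ℂ → EN N} {h : ℂ → Vd (k + 1)} (hF : Cv X Λ u U F h) {φ : ℂ → ℂ} (hφ : DifferentiableOn ℂ φ V) (hm : Set.MapsTo φ V U) :
    Cv X Λ u V (fun z => F (φ z)) fun z => h (φ z) :=
  ⟨hF.F_diff.comp hφ hm, hF.h_diff.comp hφ hm, fun z hz => hF.mem _ (hm hz), fun z hz => hF.lift _ (hm hz)⟩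

/-- translation of the lift by a constant in `Λ` -/
theorem Cv.add {U : Set ℂ} {F : ℂ → EN N} {h : ℂ → Vd (k + 1)} (hF : Cv X Λ u U F h) {l : Vd (k + 1)} (hl : l ∈ Λ) : Cv X Λ u U F fun z => h z + l :=
  ⟨hF.F_diff, hF.h_diff.add_const l, hF.mem, fun z hz => by
    rw [← sub_sub]
    exact Λ.sub_mem (hF.lift z hz) hl⟩

/-- the derivative of a curve is a tangent vector -/
theorem Cv.tan {U : Set ℂ} (hU : IsOpen U) {F : ℂ → EN N} {h : ℂ → Vd (k + 1)} (hF : Cv X Λ u U F h) {z : ℂ} (hz : z ∈ U) :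
    Tan X (F z) (deriv F z) := by
  have hUz : U ∈ 𝓝 z := hU.mem_nhds hz
  have han : AnalyticAt ℂ F z := hF.F_diff.analyticAt hUz
  have hmap : Tendsto (fun w : ℂ => w + z) (𝓝 0) (𝓝 z) := by
    have h1 : Tendsto (fun w : ℂ => w + z) (𝓝 0) (𝓝 (0 + z)) := (continuous_id.add continuous_const).tendsto 0
    rwa [zero_add] at h1
  refine ⟨fun w => F (w + z), ⟨?_, ?_⟩, by simp, ?_⟩
  · have h2 : AnalyticAt ℂ (fun w : ℂ => w + z) 0 := analyticAt_id.add analyticAt_const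
    exact han.comp_of_eq h2 (by simp)
  · filter_upwards [hmap.eventually hUz] with w hw
    exact hF.mem _ hw
  · rw [deriv_comp_add_const]
    simp

end Pool.Agent.G3

end

section

/-!
# TG Y Sl: the part of `X` over a small disc which crosses `D`

`Yl` is the part of `X` over the closed disc `{p + z e : ‖z‖ ≤ s}`, `wl` the coordinate `z` on it.  `Ln` collects the data near a point `p ∈ D`, `p ∉ B`, for a direction `e` which is not
tangent to `D`: `κ` are the coordinates of `D`, `c z = κ⁻¹ (p + z e)`.  `fr κ c z j = ∂κ/∂q_{j+1}` at `c z`: together with `e` a basis.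
-/

set_option autoImplicit false

open Topology Filter Metric

namespace Pool.Agent.TG

open Pool.Agent.H36.BP (EN fs wd)
open Pool.Agent.H14.PP (IsCone CurveAt Tan)
open Pool.Agent.H62.EF (MN pr)
open Pool.Agent.AD (Vd Chart Charts IsGerm)

variable {N k : ℕ}

variable (X : Set (EN N)) (Λ : AddSubgroup (Vd (k + 1))) (u : EN N → Vd (k + 1))

/-- the part of `X` over the closed disc of radius `s` in the line `p + ℂ e` -/
def Yl (p e : Vd (k + 1)) (s : ℝ) : Set (EN N) := {x | x ∈ X ∧ ∃ z : ℂ, ‖z‖ ≤ s ∧ u x - (p + z • e) ∈ Λ}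

open Classical in
/-- the coordinate `z` -/
noncomputable def wl (p e : Vd (k + 1)) (s : ℝ) (x : EN N) : ℂ := if h : ∃ z : ℂ, ‖z‖ ≤ s ∧ u x - (p + z • e) ∈ Λ then h.choose else 0

/-- the vectors `∂κ/∂q_{j+1}` at `c z` -/
noncomputable def fr (κ : Vd (k + 1) → Vd (k + 1)) (c : ℂ → Vd (k + 1)) (z : ℂ) (j : Fin k) : Vd (k + 1) := fderiv ℂ κ (c z) (Pi.single j.succ 1)

/-- the determinant of `e` and the vectors `fr` -/
noncomputable def dt (κ : Vd (k + 1) → Vd (k + 1)) (e : Vd (k + 1)) (c : ℂ → Vd (k + 1)) (z : ℂ) : ℂ :=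
  (Matrix.of fun i j => (Fin.cons e (fr κ c z) : Fin (k + 1) → Vd (k + 1)) i j).det

/-- the data near `p` -/
structure Ln (D : Set (Vd (k + 1))) (κ : Vd (k + 1) → Vd (k + 1)) (p e : Vd (k + 1)) (c : ℂ → Vd (k + 1)) (Γ₀ : AddSubgroup ℂ) (s : ℝ) : Prop where
  cone : IsCone X
  charts : Charts (k + 2) X
  tor : TMap X Λ u
  lat : Lat Λ
  lat₀ : Pool.Agent.H62.EF.Lat Γ₀
  pos : 0 < s
  e_ne : e ≠ 0
  small : ∀ l ∈ Λ, ‖l‖ ≤ 4 * s * ‖e‖ → l = 0
  big : ∀ l ∈ Γ₀, ‖l‖ ≤ 8 * s → l = 0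
  off : ∀ z : ℂ, z ≠ 0 → ‖z‖ ≤ s → p + z • e ∉ D
  sub : ∀ y ∉ D, ∀ x ∈ X, u x - y ∈ Λ → IsStr X Λ u x y
  nc : ∀ x ∈ X, u x - p ∈ Λ → IsNC X Λ u κ x
  c_zero : c 0 = 0
  c_ne : (deriv c 0) 0 ≠ 0
  c_an : ∀ z ∈ closedBall (0 : ℂ) s, AnalyticAt ℂ c z
  κ_an : ∀ z ∈ closedBall (0 : ℂ) s, AnalyticAt ℂ κ (c z)
  κ_c : ∀ z ∈ closedBall (0 : ℂ) s, κ (c z) = p + z • e
  dt_ne : ∀ z ∈ closedBall (0 : ℂ) s, dt κ e c z ≠ 0

end Pool.Agent.TG

end

section

/-!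
# TG Y SlA: the slab is a cone with a map to `ℂ / Γ₀`

`wl_spec`: `Exists.choose_spec`.  `wl_eq`: two values `z, z'` with `‖z‖, ‖z'‖ ≤ s`: `(z - z') • e ∈ Λ` has norm `≤ 2 s ‖e‖`, so it is `0` (`L.small`), `z = z'` (`e ≠ 0`).
`isCone`: `smul_mem`: `smul_mem_lat`.  `closed`: let `x_n → x`, `x_n ∈ insert 0 Y`; `x = 0`, or `x ∈ X` (`L.cone.closed`) and eventually `x_n ≠ 0`, `x_n ∈ Y` with `z_n` in the compact disc, along a subsequence (or ultrafilter) `z_n → z`, `lim_mem`.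
`exists_loc`: let `v` be a local lift of `u` at `x` (`TMap.loc`), changed by a constant of `Λ` such that `v x = p + wl x • e`.  For `y ∈ Y` near `x`: `l = v y - (p + wl y • e) ∈ Λ`, and `‖l‖ ≤ ‖v y - v x‖ + ‖(wl x - wl y) • e‖ ≤ ‖v y - v x‖ + 2 s ‖e‖ ≤ 4 s ‖e‖` for `y` near `x`
(`s ‖e‖ > 0`), so `l = 0`, `v y = p + wl y • e`.  With a linear form `ℓ`, `ℓ e = 1`: `wl y = ℓ (v y - p)`: `W y = ℓ (v y - p)`.
`torusMap`: `smul`: `wl (c • x) = wl x` for `x ∈ Y` (`wl_eq`), `loc` from `exists_loc`.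
-/

set_option autoImplicit false

open Topology Filter Metric

namespace Pool.Agent.TG

open Pool.Agent.H36.BP (EN fs wd)
open Pool.Agent.H14.PP (IsCone CurveAt Tan)
open Pool.Agent.H62.EF (MN pr)
open Pool.Agent.AD (Vd Chart Charts IsGerm)

variable {N k : ℕ}

variable {X : Set (EN N)} {Λ : AddSubgroup (Vd (k + 1))} {u : EN N → Vd (k + 1)} {D B : Set (Vd (k + 1))}
  {κ : Vd (k + 1) → Vd (k + 1)} {p e : Vd (k + 1)} {c : ℂ → Vd (k + 1)} {Γ₀ : AddSubgroup ℂ} {s : ℝ}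

theorem Ln.wl_spec {x : EN N} (hx : x ∈ Yl X Λ u p e s) : ‖wl Λ u p e s x‖ ≤ s ∧ u x - (p + wl Λ u p e s x • e) ∈ Λ := by
  unfold wl
  rw [dif_pos hx.2]
  exact hx.2.choose_spec

theorem Ln.exists_loc (L : Ln X Λ u D κ p e c Γ₀ s) {x : EN N} (hx : x ∈ Yl X Λ u p e s) :
    ∃ W : EN N → ℂ, AnalyticAt ℂ W x ∧ ∀ᶠ y in 𝓝 x, y ∈ Yl X Λ u p e s → wl Λ u p e s y = W y := by
  obtain ⟨v, hv, hv'⟩ := L.tor.loc x hx.1
  obtain ⟨i, hi⟩ : ∃ i, e i ≠ 0 := Function.ne_iff.1 L.e_ne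
  set l₀ : Vd (k + 1) := v x - (p + wl Λ u p e s x • e) with hl₀
  have hl₀Λ : l₀ ∈ Λ := by
    have h1 : l₀ = (u x - (p + wl Λ u p e s x • e)) - (u x - v x) := by
      rw [hl₀]
      abel
    rw [h1]
    exact Λ.sub_mem (Ln.wl_spec hx).2 (hv'.self_of_nhds hx.1)
  have he : 0 < ‖e‖ := norm_pos_iff.2 L.e_ne
  have hpos : 0 < 2 * s * ‖e‖ := by
    have := L.pos
    positivity
  have hproj : AnalyticAt ℂ (fun y : EN N => (v y - l₀ - p) i) x := by
    have h1 : AnalyticAt ℂ (fun y : EN N => v y - l₀ - p) x := (hv.sub analyticAt_const).sub analyticAt_const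
    exact ((ContinuousLinearMap.proj (R := ℂ) (φ := fun _ : Fin (k + 1) => ℂ) i).analyticAt _).fun_comp h1
  refine ⟨fun y => (v y - l₀ - p) i / e i, hproj.div analyticAt_const hi, ?_⟩
  have hcont : ∀ᶠ y in 𝓝 x, ‖v y - v x‖ < 2 * s * ‖e‖ := by
    have h1 := hv.continuousAt.eventually (Metric.ball_mem_nhds (v x) hpos)
    filter_upwards [h1] with y hy
    rwa [dist_eq_norm] at hy
  filter_upwards [hv', hcont] with y h1 h2 hy
  have h3 := Ln.wl_spec hy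
  have h4 : v y - l₀ - (p + wl Λ u p e s y • e) ∈ Λ := by
    have h5 : v y - l₀ - (p + wl Λ u p e s y • e) = (u y - (p + wl Λ u p e s y • e)) - (u y - v y) - l₀ := by abel
    rw [h5]
    exact Λ.sub_mem (Λ.sub_mem h3.2 (h1 hy.1)) hl₀Λ
  have h6 : v y - l₀ - (p + wl Λ u p e s y • e) = 0 := by
    refine L.small _ h4 ?_
    have h7 : v y - l₀ - (p + wl Λ u p e s y • e) = (v y - v x) + (wl Λ u p e s x - wl Λ u p e s y) • e := by
      rw [hl₀, sub_smul]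
      abel
    rw [h7]
    refine (norm_add_le _ _).trans ?_
    rw [norm_smul]
    have h8 : ‖wl Λ u p e s x - wl Λ u p e s y‖ ≤ s + s := (norm_sub_le _ _).trans (add_le_add (Ln.wl_spec hx).1 h3.1)
    have h9 := mul_le_mul_of_nonneg_right h8 (norm_nonneg e)
    linarith
  have h7 : v y - l₀ - p = wl Λ u p e s y • e := by
    have h8 : v y - l₀ - p = (v y - l₀ - (p + wl Λ u p e s y • e)) + wl Λ u p e s y • e := by abel
    rw [h8, h6, zero_add]
  show wl Λ u p e s y = (v y - l₀ - p) i / e i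
  rw [h7, Pi.smul_apply, smul_eq_mul, mul_div_cancel_right₀ _ hi]

end Pool.Agent.TG

end
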