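import Pool.Agent.H94.G5T.M01

/-! The parts of this file: H14.PP.Defs_2, H36.BP.GermChart, H62.EF.Defs_1, H62.EL.Db, H62.EL.Defs. -/

section

/-!
# Project BP, metric half: definitions

`X` is the cone (without `0`) over a compact surface in `ℙ^N`, `K ⊆ X` the cone over the complement
of a curve (`K = X` in the compact case), `T` the cone over the total curve: it contains `X \ K`,
and `K ∩ T` is the exceptional set.
-/

open Topology Filter Metric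

namespace Pool.Agent.H14.PP

open Pool.Agent.H36.BP (EN wd)

variable {N : ℕ}

/-- In the chart `χ` the curve `T` is the coordinate axis `s = 0` (`nd = false`) or the union
`s t = 0` of the two coordinate axes (`nd = true`). -/
def HasType {X : Set (EN N)} (T : Set (EN N)) (χ : Chart X) (nd : Bool) : Prop :=
  ∀ p ∈ ball (0 : ℂ × ℂ) 2, (χ.σ p ∈ T ↔ p.1 = 0 ∨ (nd = true ∧ p.2 = 0))

/-- A section of `m K (-j)` over the surface whose cone is `K`. -/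
structure Form (K : Set (EN N)) (m j : ℕ) where
  /-- the form -/
  toFun : EN N → EN N → EN N → ℂ
  add_smul : ∀ x ∈ K, ∀ v w, Tan K x v → Tan K x w → ∀ a b : ℂ,
    toFun x (v + a • x) (w + b • x) = toFun x v w
  det : ∀ x ∈ K, ∀ v w, Tan K x v → Tan K x w → ∀ a b c d : ℂ,
    toFun x (a • v + b • w) (c • v + d • w) = (a * d - b * c) ^ m * toFun x v w
  scale : ∀ x ∈ K, ∀ v w, Tan K x v → Tan K x w → ∀ c : ℂ, c ≠ 0 →
    c ^ j * toFun (c • x) (c • v) (c • w) = toFun x v w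
  analytic : ∀ (φ : ℂ × ℂ → EN N) (p : ℂ × ℂ), AnalyticAt ℂ φ p → (∀ᶠ y in 𝓝 p, φ y ∈ K) →
    AnalyticAt ℂ (fun y => toFun (φ y) (fderiv ℂ φ y (1, 0)) (fderiv ℂ φ y (0, 1))) p

/-- The coefficient of the form in a chart. -/
noncomputable def aCoef {X K : Set (EN N)} {m j : ℕ} (Ω : Form K m j) (χ : Chart X) (p : ℂ × ℂ) :
    ℂ :=
  Ω.toFun (χ.σ p) (fderiv ℂ χ.σ p (1, 0)) (fderiv ℂ χ.σ p (0, 1))

/-- The parameters of the metric near `T`. -/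
structure Par where
  ε : ℝ
  κ : ℝ
  K : ℝ
  M : ℝ
  e : ℝ

/-- The normal piece. -/
noncomputable def pN (nd : Bool) (P : Par) (s t s' : ℂ) : ℝ :=
  (if nd = true then ‖t‖ ^ (1 - P.κ) * Real.exp (-P.ε * ‖s‖ ^ 2) else 1) * ‖s'‖ *
    (1 + P.M * ‖s‖ ^ (2 * P.κ)) ^ P.e * Real.exp (-P.K * ‖t‖ ^ 2)

/-- The tangential piece. -/
noncomputable def pT (nd : Bool) (P : Par) (s t t' : ℂ) : ℝ :=
  if nd = true then pN true P t s t' else ‖s‖ ^ (1 - P.κ) * ‖t'‖ * Real.exp (-P.ε * ‖t‖ ^ 2)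

/-- The function measuring the distance to `T` in a chart. -/
noncomputable def small (nd : Bool) (p : ℂ × ℂ) : ℝ := if nd = true then ‖p.1‖ * ‖p.2‖ else ‖p.1‖

/-- The matrix `(l, b; c, m)` of the derivative of a change of charts, at a point with first
coordinate `s`, where the first new coordinate is `u`, is `C`-controlled. -/
def TE (C : ℝ) (s u l b c m : ℂ) : Prop :=
  ‖b‖ ≤ C * ‖s‖ ∧ ‖c‖ ≤ C ∧ |‖u‖ - ‖l‖ * ‖s‖| ≤ C * ‖s‖ ^ 2 ∧ C⁻¹ ≤ ‖l‖ ∧ ‖l‖ ≤ C ∧ C⁻¹ ≤ ‖m‖ ∧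
    ‖m‖ ≤ C

/-- The Jacobian determinant. -/
noncomputable def jac (τ : ℂ × ℂ → ℂ × ℂ) (p : ℂ × ℂ) : ℂ :=
  (fderiv ℂ τ p (1, 0)).1 * (fderiv ℂ τ p (0, 1)).2 -
    (fderiv ℂ τ p (0, 1)).1 * (fderiv ℂ τ p (1, 0)).2

section metric

variable {W : Type*} [NormedAddCommGroup W] [InnerProductSpace ℂ W]

end metric

end Pool.Agent.H14.PP

end

section

/-!
# BP GermChart: from germ-level charts to charts on the bidisc of radius 2

Let `ℓ` be a linear form with `ℓ (σ 0) = 1`, `σ₁ p = (ℓ (σ p))⁻¹ • σ p`, `σ' p = σ₁ (r p)` for a small `r`, `U = {x : ℓ x ≠ 0, x/ℓ x ∈ W₀, |τ (x/ℓ x)| < 2r}`, `q x = τ (x/ℓ x)/r`.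
-/

set_option autoImplicit false

namespace Pool.Agent.H36.BP

open Filter Topology Metric

variable {N : ℕ}

/-- germ-level charts -/
structure IsGermChart (X : Set (EN N)) (σ : ℂ × ℂ → EN N) (τ : EN N → ℂ × ℂ) : Prop where
  σ_an : AnalyticAt ℂ σ 0
  σ_mem : ∀ᶠ p in 𝓝 (0 : ℂ × ℂ), σ p ∈ X
  τ_an : AnalyticAt ℂ τ (σ 0)
  left : ∀ᶠ p in 𝓝 (0 : ℂ × ℂ), τ (σ p) = p
  right : ∀ᶠ y in 𝓝 (σ 0), y ∈ X → ∃ c : ℂ, c ≠ 0 ∧ y = c • σ (τ y)
  inv : ∀ᶠ z in 𝓝 (σ 0, (1 : ℂ)), τ (z.2 • z.1) = τ z.1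

end Pool.Agent.H36.BP

end

section

/-!
# EF Defs: surfaces with a holomorphic map to an elliptic curve

`X` is the cone (without `0`) of a smooth projective surface, in `EN N = ℂ^(N+1)` with the Euclidean norm.  The map to `ℂ / Λ` is
given by a function `u : EN N → ℂ` which is holomorphic modulo `Λ`.  `pr x` is the orthogonal projection to the line of `x`, a
matrix: in this way the projective space is a compact subset of a Euclidean space.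
-/

set_option autoImplicit false

open Topology Filter Metric

namespace Pool.Agent.H62.EF

open Pool.Agent.H36.BP (EN wd)
open Pool.Agent.H14.PP (Chart Tan)

variable {N : ℕ}

/-- `X` is smooth: there are charts -/
def Charts (X : Set (EN N)) : Prop := ∀ x ∈ X, ∃ χ : Chart X, x ∈ χ.U ∧ χ.q x = 0

/-- the function which is compared with holomorphic functions -/
noncomputable def rho {Y : Type} [MetricSpace Y] (M : ℕ) (T : Y → ℝ) (f g : ℂ → Y) (z : ℂ) : ℝ := dist (f z) (g z) ^ M * T (f z)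

end Pool.Agent.H62.EF

end

section

/-!
# EL Db: the form `β = - A ds` in another chart

Let `τ = χ.q ∘ χ'.σ`, analytic near `p` if `χ'.σ p ∈ χ.U`, with values in `ball 0 2` (`Chart.surj`).  `bc χ A χ' e = - A(τ) ∂_e τ₁`.
`bc_an`: clear (`fderiv` of an analytic function is analytic).
`bc_closed`: `∂₁ b₂ - ∂₂ b₁ = -(A_s ∂₁τ₁ + A_t ∂₁τ₂) ∂₂τ₁ + (A_s ∂₂τ₁ + A_t ∂₂τ₂) ∂₁τ₁ - A (∂₁∂₂τ₁ - ∂₂∂₁τ₁) = A_t (τ) (∂₁τ₁ ∂₂τ₂ - ∂₂τ₁ ∂₁τ₂)`
(mixed derivatives are symmetric), `A_t (τ p) = tc α χ υ (τ p)` and `tc α χ υ (τ p) * jac τ p = tc α χ' υ' p` (`tc_trans`).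
`bt_eq`: near `ζ`, `χ.q (γ ξ) = τ (χ'.q (γ ξ))` (`γ ξ = c • χ'.σ (χ'.q (γ ξ))`, `q_smul`); chain rule; at `ζ`: `χ.q (γ ζ) = τ (χ'.q (γ ζ))`.
-/

set_option autoImplicit false

open Topology Filter Metric

namespace Pool.Agent.H62.EL

open Pool.Agent.H36.BP (EN wd)
open Pool.Agent.H14.PP (Chart Tan CurveAt)

variable {N : ℕ} {X : Set (EN N)} {Λ : AddSubgroup ℂ} {u : EN N → ℂ}

theorem Db_tau_an (χ χ' : Chart X) {p : ℂ × ℂ} (hp : p ∈ ball (0 : ℂ × ℂ) 2) (hU : χ'.σ p ∈ χ.U) :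
    AnalyticAt ℂ (fun y => χ.q (χ'.σ y)) p :=
  AnalyticAt.comp (g := χ.q) (f := χ'.σ) (χ.q_an _ hU) (χ'.σ_an p hp)

theorem Db_pair {E : Type*} [NormedAddCommGroup E] [NormedSpace ℂ E] (L : (ℂ × ℂ) →L[ℂ] E) (w : ℂ × ℂ) :
    L w = w.1 • L (1, 0) + w.2 • L (0, 1) := by
  rw [← map_smul, ← map_smul, ← map_add]
  congr 1
  ext
  · simp
  · simp

end Pool.Agent.H62.EL

end

section

/-!
# EL Defs: surfaces over an elliptic curve with a holomorphic `2`-form, normal crossing bad fibres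

`X` is the cone (without `0`) over a smooth projective surface, `u` a holomorphic map to `ℂ / Λ` (see EF Defs).  `TForm X Λ u` are the
holomorphic `2`-forms on the surface `{(x, z) : u x = z mod Λ}` (a covering of `X` with group `Λ`).
-/

set_option autoImplicit false

open Topology Filter Metric

namespace Pool.Agent.H62.EL

open Pool.Agent.H36.BP (EN wd IsGermChart)
open Pool.Agent.H14.PP (Chart Tan CurveAt)

variable {N : ℕ}

/-- in suitable local coordinates at `x` the map `u` is `b + s ^ i * t ^ j` -/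
def IsNC (X : Set (EN N)) (Λ : AddSubgroup ℂ) (u : EN N → ℂ) (x : EN N) (b : ℂ) : Prop :=
  ∃ (σ : ℂ × ℂ → EN N) (τ : EN N → ℂ × ℂ) (i j : ℕ), IsGermChart X σ τ ∧ σ 0 = x ∧ 0 < i + j ∧
    ∀ᶠ p in 𝓝 (0 : ℂ × ℂ), u (σ p) - (b + p.1 ^ i * p.2 ^ j) ∈ Λ

/-- a holomorphic `2`-form on `{(x, z) : u x = z mod Λ}` -/
structure TForm (X : Set (EN N)) (Λ : AddSubgroup ℂ) (u : EN N → ℂ) where
  /-- the form: `toFun z x v w` for `u x = z mod Λ` and tangent vectors `v`, `w` at `x` -/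
  toFun : ℂ → EN N → EN N → EN N → ℂ
  add_smul : ∀ z, ∀ x ∈ X, u x - z ∈ Λ → ∀ v w, Tan X x v → Tan X x w → ∀ a b : ℂ,
    toFun z x (v + a • x) (w + b • x) = toFun z x v w
  det : ∀ z, ∀ x ∈ X, u x - z ∈ Λ → ∀ v w, Tan X x v → Tan X x w → ∀ a b c d : ℂ,
    toFun z x (a • v + b • w) (c • v + d • w) = (a * d - b * c) * toFun z x v w
  scale : ∀ z, ∀ x ∈ X, u x - z ∈ Λ → ∀ v w, Tan X x v → Tan X x w → ∀ c : ℂ, c ≠ 0 →
    toFun z (c • x) (c • v) (c • w) = toFun z x v w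
  analytic : ∀ (φ : ℂ × ℂ → EN N) (υ : ℂ × ℂ → ℂ) (p : ℂ × ℂ), AnalyticAt ℂ φ p → AnalyticAt ℂ υ p →
    (∀ᶠ y in 𝓝 p, φ y ∈ X ∧ u (φ y) - υ y ∈ Λ) →
    AnalyticAt ℂ (fun y => toFun (υ y) (φ y) (fderiv ℂ φ y (1, 0)) (fderiv ℂ φ y (0, 1))) p

variable {X : Set (EN N)} {Λ : AddSubgroup ℂ} {u : EN N → ℂ}

/-- the coefficient of the form in the chart `χ` with the lift `υ` of `u` -/
noncomputable def tc (α : TForm X Λ u) (χ : Chart X) (υ : ℂ × ℂ → ℂ) (p : ℂ × ℂ) : ℂ :=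
  α.toFun (υ p) (χ.σ p) (fderiv ℂ χ.σ p (1, 0)) (fderiv ℂ χ.σ p (0, 1))

/-- the function `b + ρ s^i t^j` -/
noncomputable def mo (b : ℂ) (ρ : ℝ) (i j : ℕ) (p : ℂ × ℂ) : ℂ := b + ρ * (p.1 ^ i * p.2 ^ j)

/-- in the chart `χ` the map `u` is `b + ρ s^i t^j` -/
structure Mon (Λ : AddSubgroup ℂ) (u : EN N → ℂ) (χ : Chart X) (b : ℂ) (ρ : ℝ) (i j : ℕ) : Prop where
  pos : 0 < ρ
  ij : 0 < i + j
  lift : ∀ p ∈ ball (0 : ℂ × ℂ) 2, u (χ.σ p) - mo b ρ i j p ∈ Λ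

/-- the form `- A ds` of the chart on the derivative of the curve `γ` at `ζ` -/
noncomputable def bt (χ : Chart X) (A : ℂ × ℂ → ℂ) (γ : ℂ → EN N) (ζ : ℂ) : ℂ :=
  -(A (χ.q (γ ζ)) * (deriv (fun ξ => χ.q (γ ξ)) ζ).1)

end Pool.Agent.H62.EL

end
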