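import Pool.Agent.H94.G5T.AD.Defs
import Pool.Agent.H94.G5T.H36.BP.Defs_1
import Pool.Agent.H94.G5T.M02
import Pool.Agent.H94.G5T.M06

/-! The parts of this file: AD.Germ, TG.Defs, TG.Defs_1, TG.Gd, TG.JJ, TG.Tc, TG.Un. -/

section

/-!
# AD Germ: charts from germ-level charts

The proof of `Pool.Agent.H62.EF.exists_chart_of_germ` with `ℂ × ℂ` replaced by `Vd d`.
-/

set_option autoImplicit false

open Topology Filter Metric

namespace Pool.Agent.AD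

open Pool.Agent.H36.BP (EN)

variable {N d : ℕ}

/-- germ-level charts -/
structure IsGerm (X : Set (EN N)) (σ : Vd d → EN N) (τ : EN N → Vd d) : Prop where
  σ_an : AnalyticAt ℂ σ 0
  σ_mem : ∀ᶠ p in 𝓝 (0 : Vd d), σ p ∈ X
  τ_an : AnalyticAt ℂ τ (σ 0)
  left : ∀ᶠ p in 𝓝 (0 : Vd d), τ (σ p) = p
  right : ∀ᶠ y in 𝓝 (σ 0), y ∈ X → ∃ c : ℂ, c ≠ 0 ∧ y = c • σ (τ y)
  inv : ∀ᶠ z in 𝓝 (σ 0, (1 : ℂ)), τ (z.2 • z.1) = τ z.1

end Pool.Agent.AD

end

section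

/-!
# TG Defs: projective manifolds of dimension `k + 2` over complex tori of dimension `k + 1`, arbitrary singular fibres

`X` is the cone (without `0`) over a projective manifold of dimension `k + 2`, `u` a holomorphic map to `ℂ^(k+1) / Λ` (a function `u : EN N → Vd (k+1)`
which is holomorphic modulo `Λ`).  `D ⊆ ℂ^(k+1)` is the set of the bad values (closed, `Λ`-invariant, contained in hypersurfaces), `B ⊆ D` the set of the
very bad values, which almost every line avoids.  Over `D \ B` the map `u` is `(x^a y^b, s)` in suitable coordinates.  Charts are `AD.Chart (k + 2) X`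
(polydisc of radius `2` for the sup norm); the coordinate `0` is the coordinate along the fibres, the others (`tl p`) those of the base.
All norms and balls in `Vd (k+1)` are for the sup norm.
-/

set_option autoImplicit false

open Topology Filter Metric

namespace Pool.Agent.TG

open Pool.Agent.H36.BP (EN wd)
open Pool.Agent.H14.PP (CurveAt Tan)
open Pool.Agent.H62.EF (MN pr)
open Pool.Agent.AD (Vd Chart Charts)

variable {N k : ℕ}

/-- `u` is a holomorphic map from the variety with the cone `X` to `ℂ^(k+1) / Λ` -/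
structure TMap (X : Set (EN N)) (Λ : AddSubgroup (Vd (k + 1))) (u : EN N → Vd (k + 1)) : Prop where
  smul : ∀ x ∈ X, ∀ c : ℂ, c ≠ 0 → u (c • x) - u x ∈ Λ
  loc : ∀ x ∈ X, ∃ v : EN N → Vd (k + 1), AnalyticAt ℂ v x ∧ ∀ᶠ y in 𝓝 x, y ∈ X → u y - v y ∈ Λ

/-- the coordinates `1, …, k + 1` -/
def tl (p : Vd (k + 2)) : Vd (k + 1) := fun i => p i.succ

/-- `κ` is a system of local coordinates at `y` in which `D` is `{q 0 = 0}` -/
structure IsCoord (D : Set (Vd (k + 1))) (κ : Vd (k + 1) → Vd (k + 1)) (y : Vd (k + 1)) : Prop where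
  an : AnalyticAt ℂ κ 0
  zero : κ 0 = y
  inj : Function.Injective (fderiv ℂ κ 0)
  mem_iff : ∀ᶠ q in 𝓝 (0 : Vd (k + 1)), (κ q ∈ D ↔ q 0 = 0)

/-- a holomorphic `(k+2)`-form on `{(x, y) : u x = y mod Λ}` -/
structure VForm (X : Set (EN N)) (Λ : AddSubgroup (Vd (k + 1))) (u : EN N → Vd (k + 1)) where
  /-- the form: `toFun y x v` for `u x = y mod Λ` and `k + 2` tangent vectors `v` at `x` -/
  toFun : Vd (k + 1) → EN N → (Fin (k + 2) → EN N) → ℂ
  add_smul : ∀ y, ∀ x ∈ X, u x - y ∈ Λ → ∀ v : Fin (k + 2) → EN N, (∀ i, Tan X x (v i)) → ∀ a : Fin (k + 2) → ℂ,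
    toFun y x (fun i => v i + a i • x) = toFun y x v
  det : ∀ y, ∀ x ∈ X, u x - y ∈ Λ → ∀ v : Fin (k + 2) → EN N, (∀ i, Tan X x (v i)) → ∀ A : Matrix (Fin (k + 2)) (Fin (k + 2)) ℂ,
    toFun y x (fun i => ∑ j, A i j • v j) = A.det * toFun y x v
  scale : ∀ y, ∀ x ∈ X, u x - y ∈ Λ → ∀ v : Fin (k + 2) → EN N, (∀ i, Tan X x (v i)) → ∀ c : ℂ, c ≠ 0 →
    toFun y (c • x) (fun i => c • v i) = toFun y x v
  analytic : ∀ (φ : Vd (k + 2) → EN N) (υ : Vd (k + 2) → Vd (k + 1)) (p : Vd (k + 2)), AnalyticAt ℂ φ p → AnalyticAt ℂ υ p →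
    (∀ᶠ q in 𝓝 p, φ q ∈ X ∧ u (φ q) - υ q ∈ Λ) →
    AnalyticAt ℂ (fun q => toFun (υ q) (φ q) fun i => fderiv ℂ φ q (Pi.single i 1)) p

variable {X : Set (EN N)} {Λ : AddSubgroup (Vd (k + 1))} {u : EN N → Vd (k + 1)}

/-- the coefficient of the form in the chart `χ` with the lift `υ` of `u` -/
noncomputable def tc (α : VForm X Λ u) (χ : Chart (k + 2) X) (υ : Vd (k + 2) → Vd (k + 1)) (p : Vd (k + 2)) : ℂ :=
  α.toFun (υ p) (χ.σ p) fun i => fderiv ℂ χ.σ p (Pi.single i 1)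

/-- the form is `Γ`-periodic -/
def Per (α : VForm X Λ u) (Γ : AddSubgroup (Vd (k + 1))) : Prop :=
  ∀ y, ∀ l ∈ Γ, ∀ x ∈ X, u x - y ∈ Λ → ∀ v : Fin (k + 2) → EN N, (∀ i, Tan X x (v i)) → α.toFun (y + l) x v = α.toFun y x v

/-- the form vanishes on the fibre over `0` -/
def VanZero (α : VForm X Λ u) : Prop := ∀ x ∈ X, u x ∈ Λ → ∀ v : Fin (k + 2) → EN N, (∀ i, Tan X x (v i)) → α.toFun 0 x v = 0

/-- the form is nowhere locally `0` -/
def Thin (α : VForm X Λ u) : Prop :=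
  ∀ (χ : Chart (k + 2) X) (υ : Vd (k + 2) → Vd (k + 1)), ∀ p ∈ ball (0 : Vd (k + 2)) 2, AnalyticAt ℂ υ p →
    (∀ᶠ q in 𝓝 p, u (χ.σ q) - υ q ∈ Λ) → ¬ ∀ᶠ q in 𝓝 p, tc α χ υ q = 0

/-- the function `c + ρ (tl p)` -/
noncomputable def ms (c : Vd (k + 1)) (ρ : ℝ) (p : Vd (k + 2)) : Vd (k + 1) := c + (ρ : ℂ) • tl p

/-- the chart is straight: `u` is `c + ρ (tl p)` -/
structure Str (Λ : AddSubgroup (Vd (k + 1))) (u : EN N → Vd (k + 1)) (χ : Chart (k + 2) X) (c : Vd (k + 1)) (ρ : ℝ) : Prop where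
  pos : 0 < ρ
  lift : ∀ p ∈ ball (0 : Vd (k + 2)) 2, u (χ.σ p) - ms c ρ p ∈ Λ

/-- `A` is the primitive of the coefficient of the form in the direction of the coordinate `0` -/
structure IsPrim (α : VForm X Λ u) (χ : Chart (k + 2) X) (υ : Vd (k + 2) → Vd (k + 1)) (A : Vd (k + 2) → ℂ) : Prop where
  an : ∀ p ∈ ball (0 : Vd (k + 2)) 2, AnalyticAt ℂ A p
  der : ∀ p ∈ ball (0 : Vd (k + 2)) 2, fderiv ℂ A p (Pi.single 0 1) = tc α χ υ p
  zero : ∀ p ∈ ball (0 : Vd (k + 2)) 2, p 0 = 0 → A p = 0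

/-- the straight chart contains all points near `m₀` of the fibres near `y₀` -/
structure Cap (Λ : AddSubgroup (Vd (k + 1))) (u : EN N → Vd (k + 1)) (χ : Chart (k + 2) X) (c : Vd (k + 1)) (ρ : ℝ) (y₀ : Vd (k + 1)) (m₀ : MN N)
    (r : ℝ) : Prop where
  str : Str Λ u χ c ρ
  cap : ∀ y ∈ closedBall y₀ r, ∀ x ∈ X, u x - y ∈ Λ → dist (pr x) m₀ ≤ r →
    x ∈ χ.U ∧ χ.q x ∈ closedBall (0 : Vd (k + 2)) 1 ∧ ms c ρ (χ.q x) = y

/-- `v` is the integral of `α / dy` from `m` to `m'` along a short path in the fibre over `y` -/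
def IRel (α : VForm X Λ u) (ε : ℝ) (y : Vd (k + 1)) (m m' : MN N) (v : ℂ) : Prop :=
  ∃ (χ : Chart (k + 2) X) (c : Vd (k + 1)) (ρ : ℝ) (A : Vd (k + 2) → ℂ) (p p' : Vd (k + 2)), Str Λ u χ c ρ ∧ IsPrim α χ (ms c ρ) A ∧
    p ∈ ball (0 : Vd (k + 2)) 2 ∧ p' ∈ ball (0 : Vd (k + 2)) 2 ∧ ms c ρ p = y ∧ ms c ρ p' = y ∧ pr (χ.σ p) = m ∧ pr (χ.σ p') = m' ∧
    (∀ θ ∈ Set.Icc (0 : ℝ) 1, dist (pr (χ.σ (p + (θ : ℂ) • (p' - p)))) m ≤ ε) ∧ v = (A p' - A p) / (ρ : ℂ) ^ (k + 1)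

open Classical in
/-- the integral of `α / dy` from `m` to `m'` along a short path in the fibre over `y` -/
noncomputable def II (α : VForm X Λ u) (ε : ℝ) (y : Vd (k + 1)) (m m' : MN N) : ℂ :=
  if h : ∃ v, IRel α ε y m m' v then h.choose else 0

/-- the fibre over `y`, in the projective space -/
def Fb (X : Set (EN N)) (Λ : AddSubgroup (Vd (k + 1))) (u : EN N → Vd (k + 1)) (y : Vd (k + 1)) : Set (MN N) :=
  {m | ∃ x ∈ X, pr x = m ∧ u x - y ∈ Λ}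

/-- the translated form -/
def VForm.shift (α : VForm X Λ u) {l : Vd (k + 1)} (hl : l ∈ Λ) : VForm X Λ u where
  toFun := fun y x v => α.toFun (y + l) x v
  add_smul := fun y x hx hy v hv a => α.add_smul (y + l) x hx (by rw [← sub_sub]; exact Λ.sub_mem hy hl) v hv a
  det := fun y x hx hy v hv A => α.det (y + l) x hx (by rw [← sub_sub]; exact Λ.sub_mem hy hl) v hv A
  scale := fun y x hx hy v hv c hc => α.scale (y + l) x hx (by rw [← sub_sub]; exact Λ.sub_mem hy hl) v hv c hc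
  analytic := fun φ υ p hφ hυ h => α.analytic φ (fun q => υ q + l) p hφ (hυ.add analyticAt_const) (by
    filter_upwards [h] with q hq
    exact ⟨hq.1, by rw [← sub_sub]; exact Λ.sub_mem hq.2 hl⟩)

end Pool.Agent.TG

end

section

/-!
# TG Defs: projective manifolds of dimension `k + 2` over complex tori of dimension `k + 1`, arbitrary singular fibres

`X` is the cone (without `0`) over a projective manifold of dimension `k + 2`, `u` a holomorphic map to `ℂ^(k+1) / Λ` (a function `u : EN N → Vd (k+1)`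
which is holomorphic modulo `Λ`).  `D ⊆ ℂ^(k+1)` is the set of the bad values (closed, `Λ`-invariant, contained in hypersurfaces), `B ⊆ D` the set of the
very bad values, which almost every line avoids.  Over `D \ B` the map `u` is `(x^a y^b, s)` in suitable coordinates.  Charts are `AD.Chart (k + 2) X`
(polydisc of radius `2` for the sup norm); the coordinate `0` is the coordinate along the fibres, the others (`tl p`) those of the base.
All norms and balls in `Vd (k+1)` are for the sup norm.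
-/

set_option autoImplicit false

open Topology Filter Metric

namespace Pool.Agent.TG

open Pool.Agent.H36.BP (EN fs wd)
open Pool.Agent.H14.PP (IsCone CurveAt Tan)
open Pool.Agent.H62.EF (MN pr)
open Pool.Agent.AD (Vd Chart Charts IsGerm)

variable {N k : ℕ}

/-- `Λ` is a lattice -/
structure Lat (Λ : AddSubgroup (Vd (k + 1))) : Prop where
  disc : ∃ δ : ℝ, 0 < δ ∧ ∀ l ∈ Λ, ‖l‖ < δ → l = 0
  cpt : ∃ R : ℝ, 0 < R ∧ ∀ y : Vd (k + 1), ∃ l ∈ Λ, ‖y - l‖ ≤ R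

/-- the model of the bad fibres: `(x, y, s) ↦ (x ^ a * y ^ b, s)` -/
def nm (a b : ℕ) (p : Vd (k + 2)) : Vd (k + 1) := Fin.cons (α := fun _ => ℂ) (p 0 ^ a * p 1 ^ b) fun i : Fin k => p i.succ.succ

/-- `u` is a submersion at `x`, with value `y`: in suitable coordinates `u` is `y + tl p` -/
def IsStr (X : Set (EN N)) (Λ : AddSubgroup (Vd (k + 1))) (u : EN N → Vd (k + 1)) (x : EN N) (y : Vd (k + 1)) : Prop :=
  ∃ (σ : Vd (k + 2) → EN N) (τ : EN N → Vd (k + 2)), IsGerm X σ τ ∧ σ 0 = x ∧ ∀ᶠ p in 𝓝 (0 : Vd (k + 2)), u (σ p) - (y + tl p) ∈ Λ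

/-- in suitable coordinates at `x` the map `u` is `κ (x ^ a * y ^ b, s)` -/
def IsNC (X : Set (EN N)) (Λ : AddSubgroup (Vd (k + 1))) (u : EN N → Vd (k + 1)) (κ : Vd (k + 1) → Vd (k + 1)) (x : EN N) : Prop :=
  ∃ (σ : Vd (k + 2) → EN N) (τ : EN N → Vd (k + 2)) (a b : ℕ), IsGerm X σ τ ∧ σ 0 = x ∧ 0 < a + b ∧
    ∀ᶠ p in 𝓝 (0 : Vd (k + 2)), u (σ p) - κ (nm a b p) ∈ Λ

/-- the geometric data -/
structure Geo (X : Set (EN N)) (Λ : AddSubgroup (Vd (k + 1))) (u : EN N → Vd (k + 1)) (D B : Set (Vd (k + 1))) : Prop where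
  cone : IsCone X
  charts : Charts (k + 2) X
  tor : TMap X Λ u
  lat : Lat Λ
  D_closed : IsClosed D
  D_inv : ∀ y ∈ D, ∀ l ∈ Λ, y + l ∈ D
  D_thin : ∀ y : Vd (k + 1), ∃ h : Vd (k + 1) → ℂ, AnalyticAt ℂ h y ∧ (∀ᶠ z in 𝓝 y, z ∈ D → h z = 0) ∧ ¬ ∀ᶠ z in 𝓝 y, h z = 0
  B_lines : ∀ e : Vd (k + 1), e ≠ 0 → ∀ᵐ y : Vd (k + 1), ∀ z : ℂ, y + z • e ∉ B
  sub : ∀ y ∉ D, ∀ x ∈ X, u x - y ∈ Λ → IsStr X Λ u x y
  fib : ∀ y ∉ D, ∀ F : ℂ → EN N, Differentiable ℂ F → (∀ z, F z ∈ X) → (∀ z, u (F z) - y ∈ Λ) → (∃ L : ℝ, ∀ z, fs (F z) (deriv F z) ≤ L) →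
    ∀ z w, ∃ c : ℂ, F z = c • F w
  nc : ∀ y ∈ D, y ∉ B → ∃ κ : Vd (k + 1) → Vd (k + 1), IsCoord D κ y ∧ ∀ x ∈ X, u x - y ∈ Λ → IsNC X Λ u κ x

variable {X : Set (EN N)} {Λ : AddSubgroup (Vd (k + 1))} {u : EN N → Vd (k + 1)}

/-- the zeros of the form -/
def Zr (α : VForm X Λ u) (y : Vd (k + 1)) (m : MN N) : Prop :=
  ∃ x ∈ X, pr x = m ∧ u x - y ∈ Λ ∧ ∀ v : Fin (k + 2) → EN N, (∀ i, Tan X x (v i)) → α.toFun y x v = 0

/-- the vector `e` is not tangent to `D` at `p` (no condition if `p ∉ D`) -/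
def TransAt (D : Set (Vd (k + 1))) (p e : Vd (k + 1)) : Prop :=
  e ≠ 0 ∧ ∀ κ : Vd (k + 1) → Vd (k + 1), IsCoord D κ p → ∀ q : Vd (k + 1), q 0 = 0 → fderiv ℂ κ 0 q ≠ e

/-- the points of distance at least `δ` from `D` -/
def Gd (D : Set (Vd (k + 1))) (δ : ℝ) : Set (Vd (k + 1)) := {y | ∀ b ∈ D, δ ≤ ‖y - b‖}

/-- the map `f : ℂ → MN N` is at `z` a holomorphic curve in `X` over the line `y + z e` -/
def LiftAt (X : Set (EN N)) (Λ : AddSubgroup (Vd (k + 1))) (u : EN N → Vd (k + 1)) (y e : Vd (k + 1)) (f : ℂ → MN N) (z : ℂ) : Prop :=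
  ∃ Φ : ℂ → EN N, AnalyticAt ℂ Φ z ∧ ∀ᶠ w in 𝓝 z, Φ w ∈ X ∧ f w = pr (Φ w) ∧ u (Φ w) - (y + w • e) ∈ Λ

/-- the sections of `u` over the complement of `D` which extend to the points of `D` on every line (values on `D` do not matter) -/
def Sec (X : Set (EN N)) (Λ : AddSubgroup (Vd (k + 1))) (u : EN N → Vd (k + 1)) (D : Set (Vd (k + 1))) : Set (Vd (k + 1) → MN N) :=
  {f | (∀ y, y ∉ D → ∃ φ : Vd (k + 1) → EN N, AnalyticAt ℂ φ y ∧ ∀ᶠ z in 𝓝 y, φ z ∈ X ∧ f z = pr (φ z) ∧ u (φ z) - z ∈ Λ) ∧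
    ∀ y e : Vd (k + 1), (∀ᶠ z in 𝓝[≠] (0 : ℂ), y + z • e ∉ D) →
      ∃ g : ℂ → MN N, LiftAt X Λ u y e g 0 ∧ ∀ᶠ z in 𝓝[≠] (0 : ℂ), g z = f (y + z • e)}

/-- the limits of the sections, locally uniformly outside `D` -/
def Sb (X : Set (EN N)) (Λ : AddSubgroup (Vd (k + 1))) (u : EN N → Vd (k + 1)) (D : Set (Vd (k + 1))) : Set (Vd (k + 1) → MN N) :=
  {f | ∀ δ' : ℝ, 0 < δ' → ∀ R ε : ℝ, 0 < ε → ∃ F ∈ Sec X Λ u D, ∀ y ∈ Gd D δ', ‖y‖ ≤ R → dist (F y) (f y) < ε}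

/-- the constants of the theory on `Gd D δ` -/
structure Cst (X : Set (EN N)) (Λ : AddSubgroup (Vd (k + 1))) (u : EN N → Vd (k + 1)) (D : Set (Vd (k + 1))) (δ ε ε₀ : ℝ) : Prop where
  δ_pos : 0 < δ
  ε_pos : 0 < ε
  ε₀_pos : 0 < ε₀
  cap : ∀ y₀ ∈ Gd D δ, ∀ m ∈ Fb X Λ u y₀, ∃ (χ : Chart (k + 2) X) (c : Vd (k + 1)) (ρ : ℝ), Cap Λ u χ c ρ y₀ m (3 * ε)
  rel : ∀ y ∈ Gd D δ, ∀ m ∈ Fb X Λ u y, ∀ m' ∈ Fb X Λ u y, dist m m' ≤ ε₀ → ∀ α : VForm X Λ u, ∃ v, IRel α ε y m m' v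

/-- `w` is a tangent vector of `X` at `x` on which the derivative of `u` is `E` -/
def DV (X : Set (EN N)) (Λ : AddSubgroup (Vd (k + 1))) (u : EN N → Vd (k + 1)) (x w : EN N) (E : Vd (k + 1)) : Prop :=
  ∃ (γ : ℂ → EN N) (υ : ℂ → Vd (k + 1)), CurveAt X γ 0 ∧ γ 0 = x ∧ deriv γ 0 = w ∧ AnalyticAt ℂ υ 0 ∧
    (∀ᶠ z in 𝓝 (0 : ℂ), u (γ z) - υ z ∈ Λ) ∧ deriv υ 0 = E

end Pool.Agent.TG

end

section

/-!
# TG Gd: basic facts on the points far from `D`, fibres, compactness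
-/

set_option autoImplicit false

open Topology Filter Metric

namespace Pool.Agent.TG

open Pool.Agent.H36.BP (EN wd)
open Pool.Agent.H14.PP (CurveAt Tan)
open Pool.Agent.H62.EF (MN pr)
open Pool.Agent.AD (Vd Chart Charts)

variable {N k : ℕ}

variable {X : Set (EN N)} {Λ : AddSubgroup (Vd (k + 1))} {u : EN N → Vd (k + 1)} {D B : Set (Vd (k + 1))}

theorem smul_mem_lat (hu : TMap X Λ u) {x : EN N} (hx : x ∈ X) {y : Vd (k + 1)} (h : u x - y ∈ Λ) {c : ℂ} (hc : c ≠ 0) :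
    u (c • x) - y ∈ Λ := by
  have h3 : u (c • x) - y = u (c • x) - u x + (u x - y) := by abel
  rw [h3]
  exact Λ.add_mem (hu.smul x hx c hc) h

end Pool.Agent.TG

end

section

/-!
# TG JJ: the integral along short paths in the fibres, without the parameter `ε`

`JRel α y m m' v`: for some `ε` the points near `m` (radius `3 ε`) of the fibres near `y` are in one straight chart, and `v` is the integral of `α / dy` along a path from `m` to `m'` of the fibre over `y` which stays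
in the ball of radius `ε` around `m`.
-/

set_option autoImplicit false

open Topology Filter Metric

namespace Pool.Agent.TG

open Pool.Agent.H36.BP (EN wd)
open Pool.Agent.H14.PP (CurveAt Tan)
open Pool.Agent.H62.EF (MN pr)
open Pool.Agent.AD (Vd Chart Charts)

variable {N k : ℕ} {X : Set (EN N)} {Λ : AddSubgroup (Vd (k + 1))} {u : EN N → Vd (k + 1)}

/-- `v` is the integral of `α / dy` from `m` to `m'` along a short path in the fibre over `y` -/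
def JRel (α : VForm X Λ u) (y : Vd (k + 1)) (m m' : MN N) (v : ℂ) : Prop :=
  ∃ ε : ℝ, 0 < ε ∧ (∃ (χ : Chart (k + 2) X) (c : Vd (k + 1)) (ρ : ℝ), Cap Λ u χ c ρ y m (3 * ε)) ∧ IRel α ε y m m' v

open Classical in
/-- the integral of `α / dy` from `m` to `m'` along a short path in the fibre over `y` (`0` if there is none) -/
noncomputable def JJ (α : VForm X Λ u) (y : Vd (k + 1)) (m m' : MN N) : ℂ :=
  if h : ∃ v, JRel α y m m' v then h.choose else 0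

theorem jj_spec {α : VForm X Λ u} {y : Vd (k + 1)} {m m' : MN N} (h : ∃ v, JRel α y m m' v) : JRel α y m m' (JJ α y m m') := by
  unfold JJ
  rw [dif_pos h]
  exact h.choose_spec

end Pool.Agent.TG

end

section

/-!
# TG Tc: coefficients of forms in charts

Port of `Pool/Agent/H62/EL/Tc.lean` (copy it and change `ℂ × ℂ` to `Vd (k + 2)`).  `tc_an`: `VForm.analytic` with `φ = χ.σ`.

`tan_decomp`: a curve `γ` in `X` near `x ∈ X ∩ χ.U` is `c ξ • χ.σ (χ.q (γ ξ))` with `c` analytic (`AD.Chart.curve`); differentiate at `0`.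

`toFun_eq`: by `tan_decomp` `x = c • χ.σ p`, `p = χ.q x`, `v i = c • (Σ_j (fderiv χ.q x (v i)) j • ∂_j χ.σ p) + a_i • x`.  `add_smul`, `scale`, `det`
(the vectors `∂_j χ.σ p = fderiv ℂ χ.σ p (Pi.single j 1)` are tangent: `tan_sigma`), and
`α.toFun y (c • x') (fun i => c • v' i) = α.toFun y x' v'` with `u x' - y ∈ Λ` (`TMap.smul`).
`tc_trans`: `toFun_eq` for `x = χ'.σ p`, `v i = fderiv ℂ χ'.σ p (Pi.single i 1)`; `fderiv χ.q x (v i) = fderiv (χ.q ∘ χ'.σ) p (Pi.single i 1)` (chain rule);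
`ContinuousLinearMap.det` of a map of `Fin n → ℂ` is the determinant of its matrix (`LinearMap.det_toLin'`, `LinearMap.toMatrix'_apply`; transpose: `Matrix.det_transpose`).
`zr_iff`: `→`: if `x ∈ X`, `pr x = pr (χ.σ p)`, then `x = a • χ.σ p` (`pr_eq_iff`); use `scale`.  `←`: `x = χ.σ p` and `toFun_eq`.
-/

set_option autoImplicit false

open Topology Filter Metric

namespace Pool.Agent.TG

open Pool.Agent.H36.BP (EN wd)
open Pool.Agent.H14.PP (IsCone CurveAt Tan)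
open Pool.Agent.H62.EF (MN pr)
open Pool.Agent.AD (Vd Chart Charts)

variable {N k : ℕ}

variable {X : Set (EN N)} {Λ : AddSubgroup (Vd (k + 1))} {u : EN N → Vd (k + 1)}

theorem tc_an (α : VForm X Λ u) (χ : Chart (k + 2) X) {υ : Vd (k + 2) → Vd (k + 1)} {p : Vd (k + 2)} (hp : p ∈ ball (0 : Vd (k + 2)) 2)
    (hυ : AnalyticAt ℂ υ p) (hl : ∀ᶠ q in 𝓝 p, u (χ.σ q) - υ q ∈ Λ) : AnalyticAt ℂ (tc α χ υ) p := by
  refine α.analytic χ.σ υ p (χ.σ_an p hp) hυ ?_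
  filter_upwards [hl, isOpen_ball.mem_nhds hp] with y hy hy2
  exact ⟨(χ.σ_mem y hy2).1, hy⟩

theorem tan_sigma {d : ℕ} (χ : Chart d X) {p : Vd d} (hp : p ∈ ball (0 : Vd d) 2) (w : Vd d) :
    Tan X (χ.σ p) (fderiv ℂ χ.σ p w) := by
  have hl : AnalyticAt ℂ (fun z : ℂ => p + z • w) 0 := by fun_prop
  have h0 : p + (0 : ℂ) • w = p := by simp
  have hσ : AnalyticAt ℂ χ.σ (p + (0 : ℂ) • w) := by rw [h0]; exact χ.σ_an p hp
  have hF : AnalyticAt ℂ (fun z : ℂ => χ.σ (p + z • w)) 0 :=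
    AnalyticAt.comp (g := χ.σ) (f := fun z : ℂ => p + z • w) hσ hl
  refine ⟨fun z => χ.σ (p + z • w), ⟨hF, ?_⟩, by simp, ?_⟩
  · have h6 : ∀ᶠ z : ℂ in 𝓝 0, p + z • w ∈ ball (0 : Vd d) 2 := by
      have h7 := hl.continuousAt
      apply h7.eventually_mem
      rw [h0]
      exact isOpen_ball.mem_nhds hp
    filter_upwards [h6] with z hz'
    exact (χ.σ_mem _ hz').1
  · have h1 : HasFDerivAt χ.σ (fderiv ℂ χ.σ p) (p + (0 : ℂ) • w) := by
      rw [h0]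
      exact (χ.σ_an p hp).differentiableAt.hasFDerivAt
    have h2 : HasDerivAt (fun z : ℂ => p + z • w) w 0 := by
      have h3 : HasDerivAt (fun z : ℂ => z • w) ((1 : ℂ) • w) 0 :=
        (hasDerivAt_id (0 : ℂ)).smul_const w
      rw [one_smul] at h3
      exact h3.const_add p
    exact (h1.comp_hasDerivAt (0 : ℂ) h2).deriv

theorem Tc_tan_smul (hX : IsCone X) {x v : EN N} (h : Tan X x v) {c : ℂ} (hc : c ≠ 0) : Tan X (c • x) (c • v) := by
  obtain ⟨F, hF, hF0, hFd⟩ := h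
  refine ⟨fun z => c • F z, ⟨AnalyticAt.fun_smul analyticAt_const hF.1, ?_⟩, ?_, ?_⟩
  · filter_upwards [hF.2] with z hz
    exact hX.smul_mem _ hz c hc
  · show c • F 0 = c • x
    rw [hF0]
  · have h1 : HasDerivAt (fun z => c • F z) (c • deriv F 0) 0 :=
      hF.1.differentiableAt.hasDerivAt.const_smul c
    rw [h1.deriv, hFd]

/-- the expansion of a linear map in the standard basis -/
private theorem Tc_lin_sum {d : ℕ} {E : Type} [NormedAddCommGroup E] [NormedSpace ℂ E] (L : Vd d →L[ℂ] E) (w : Vd d) :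
    L w = ∑ j, w j • L (Pi.single j 1) := by
  have h1 : w = ∑ j, w j • (Pi.single j 1 : Vd d) := by
    funext i
    rw [Finset.sum_apply]
    simp [Pi.single_apply]
  conv_lhs => rw [h1]
  rw [map_sum]
  exact Finset.sum_congr rfl fun j _ => by rw [map_smul]

theorem Tc_val (α : VForm X Λ u) (χ : Chart (k + 2) X) {p : Vd (k + 2)} {y : Vd (k + 1)}
    (hp : p ∈ ball (0 : Vd (k + 2)) 2) (hl : u (χ.σ p) - y ∈ Λ) (A : Fin (k + 2) → Vd (k + 2)) :
    α.toFun y (χ.σ p) (fun i => fderiv ℂ χ.σ p (A i)) =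
      (Matrix.of A).det * α.toFun y (χ.σ p) (fun i => fderiv ℂ χ.σ p (Pi.single i 1)) := by
  have hx := (χ.σ_mem p hp).1
  have h3 := α.det y (χ.σ p) hx hl (fun i => fderiv ℂ χ.σ p (Pi.single i 1)) (fun i => tan_sigma χ hp _) (Matrix.of A)
  rw [← h3]
  congr 1
  funext i
  exact Tc_lin_sum _ _

theorem Tc_det (L : Vd (k + 2) →L[ℂ] Vd (k + 2)) : (Matrix.of fun i j : Fin (k + 2) => L (Pi.single i 1) j).det = L.det := by
  rw [ContinuousLinearMap.det, ← LinearMap.det_toMatrix', ← Matrix.det_transpose]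
  congr 1

end Pool.Agent.TG

end

section

/-!
# TG Un: the integral along short paths in the fibres

Port of `Pool/Agent/H62/EL/Un.lean` (`EL.IRel.eq_cap`, `EL.II_eq`; the coordinate along the fibres is now the coordinate `0`, those of the base are `tl p`).

`IRel.eq_cap`: let `χ', c', ρ', A', p, p'` be from `IRel`; `v = (A' p' - A' p) / ρ' ^ (k + 1)`.  On `p_θ = p + θ (p' - p)`, `θ ∈ [0, 1]`, `tl p_θ` is constant, `χ'.σ p_θ` is over `y` and within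
`r` of `m₀`, so in `χ.U`, and with `τ = χ.q ∘ χ'.σ`: `ms c ρ (τ p_θ) = y`; near `p_θ` even `ms c ρ (τ q) = ms c' ρ' q` (both sides are analytic, equal at `p_θ`, and the difference is in the
discrete group `Λ`).  So `ρ ∂_(j+1) τ_(i+1) = ρ' δ_ij`, `∂_0 τ_(i+1) = 0` at `p_θ`: `det Dτ = ∂_0 τ_0 * (ρ' / ρ) ^ (k + 1)` (expand along the column / row `0`: `Matrix.det_succ_column_zero` or
`Matrix.det_succ_row_zero`, and the minor is `(ρ' / ρ) • 1`), and by `tc_trans` (`υ = ms c ρ`, `υ' = ms c' ρ'`) `tc' (p_θ) / ρ' ^ (k + 1) = tc (τ p_θ) ∂_0 τ_0 / ρ ^ (k + 1)`.  Hence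
`θ ↦ A' (p_θ) / ρ' ^ (k + 1)` and `θ ↦ A (τ p_θ) / ρ ^ (k + 1)` have the same derivative.  `τ p = χ.q x`: `χ'.σ p` and `x` are proportional (`pr_eq_iff`, `q_smul`).
-/

set_option autoImplicit false

open Topology Filter Metric

namespace Pool.Agent.TG

open Pool.Agent.H36.BP (EN wd)
open Pool.Agent.H14.PP (CurveAt Tan)
open Pool.Agent.H62.EF (MN pr)
open Pool.Agent.AD (Vd Chart Charts)

variable {N k : ℕ}

variable {X : Set (EN N)} {Λ : AddSubgroup (Vd (k + 1))} {u : EN N → Vd (k + 1)}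

theorem IRel.mem {α : VForm X Λ u} {ε : ℝ} {y : Vd (k + 1)} {m m' : MN N} {v : ℂ} (h : IRel α ε y m m' v) :
    m ∈ Fb X Λ u y ∧ m' ∈ Fb X Λ u y ∧ dist m' m ≤ ε := by
  obtain ⟨χ, c, ρ, A, p, p', hm, -, hp, hp', hpz, hpz', hpy, hpy', hseg, -⟩ := h
  refine ⟨⟨χ.σ p, (χ.σ_mem p hp).1, hpy, ?_⟩, ⟨χ.σ p', (χ.σ_mem p' hp').1, hpy', ?_⟩, ?_⟩
  · have h1 := hm.lift p hp
    rwa [hpz] at h1
  · have h1 := hm.lift p' hp'
    rwa [hpz'] at h1
  · have h1 := hseg 1 ⟨zero_le_one, le_rfl⟩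
    have h2 : p + ((1 : ℝ) : ℂ) • (p' - p) = p' := by
      rw [Complex.ofReal_one, one_smul]
      abel
    rwa [h2, hpy'] at h1

theorem IRel.mono {α : VForm X Λ u} {ε ε' : ℝ} (hε : ε ≤ ε') {y : Vd (k + 1)} {m m' : MN N} {v : ℂ} (h : IRel α ε y m m' v) :
    IRel α ε' y m m' v := by
  obtain ⟨χ, c, ρ, A, p, p', hm, hA, hp, hp', hpz, hpz', hpy, hpy', hseg, hv⟩ := h
  exact ⟨χ, c, ρ, A, p, p', hm, hA, hp, hp', hpz, hpz', hpy, hpy', fun θ hθ => (hseg θ hθ).trans hε, hv⟩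

theorem Cap.mono {χ : Chart (k + 2) X} {c : Vd (k + 1)} {ρ : ℝ} {y₀ : Vd (k + 1)} {m₀ : MN N} {r r' : ℝ} (h : Cap Λ u χ c ρ y₀ m₀ r)
    (hr : r' ≤ r) : Cap Λ u χ c ρ y₀ m₀ r' :=
  ⟨h.str, fun y hy x hx hxy hd => h.cap y (closedBall_subset_closedBall hr hy) x hx hxy (hd.trans hr)⟩

/-- The point of the segment. -/
noncomputable def un_P (p p' : Vd (k + 2)) (t : ℂ) : Vd (k + 2) := p + t • (p' - p)

theorem un_P_mem {p p' : Vd (k + 2)} (hp : p ∈ ball (0 : Vd (k + 2)) 2) (hp' : p' ∈ ball (0 : Vd (k + 2)) 2) {θ : ℝ} (hθ : θ ∈ Set.Icc (0 : ℝ) 1) :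
    un_P p p' (θ : ℂ) ∈ ball (0 : Vd (k + 2)) 2 := by
  have hc : Convex ℝ (ball (0 : Vd (k + 2)) 2) := convex_ball _ _
  have h1 := hc.add_smul_sub_mem hp hp' hθ
  have h2 : un_P p p' (θ : ℂ) = p + θ • (p' - p) := by
    unfold un_P
    congr 1
  rwa [h2]

/-- a vector with `tl d = 0` is a multiple of the first basis vector -/
theorem vert_eq {d : Vd (k + 2)} (hd : tl d = 0) : d = d 0 • (Pi.single 0 1 : Vd (k + 2)) := by
  funext i
  refine Fin.cases ?_ ?_ i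
  · simp
  · intro j
    have h1 : d j.succ = 0 := congrFun hd j
    simp [h1]

theorem lin_vert {E : Type} [NormedAddCommGroup E] [NormedSpace ℂ E] (L : Vd (k + 2) →L[ℂ] E) {d : Vd (k + 2)} (hd : tl d = 0) :
    L d = d 0 • L (Pi.single 0 1) := by
  conv_lhs => rw [vert_eq hd]
  rw [map_smul]

theorem tl_add (p q : Vd (k + 2)) : tl (p + q) = tl p + tl q := rfl
theorem tl_sub (p q : Vd (k + 2)) : tl (p - q) = tl p - tl q := rfl
theorem tl_smul (c : ℂ) (q : Vd (k + 2)) : tl (c • q) = c • tl q := rfl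

/-- `tl` as a linear map -/
noncomputable def tlL : Vd (k + 2) →L[ℂ] Vd (k + 1) := ContinuousLinearMap.pi fun i : Fin (k + 1) => ContinuousLinearMap.proj i.succ

end Pool.Agent.TG

end
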