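import Pool.Agent.H94.G5T.H62.EF.PrA
import Pool.Agent.H94.G5T.M07
import Pool.Agent.H94.G5T.M19

/-! The parts of this file: G3.C.EDefs, G3.A.Defs, TG.Gd_1. -/

section

/-!
# G3 C EDefs: extension of families of curves to complex values of the parameter, definitions

Coordinates `(σ, z) ↦ b + σ ν + z a` of `ℂ^(k+1)` (`k = 1`), `Bd ⊆ ℂ × ℂ` the set of the `(σ, z)` over the bad points, separated for the sup metric,
`Φ : ℝ → ℂ → MN N` a family of curves, `Φ s` a curve over the line `b + s ν + ℂ a`.  `EAt Φ s₀ z₀ ε`: the family extends to the ball of radius `ε` in `ℂ × ℂ`.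
-/

set_option autoImplicit false

open Topology Filter Metric

namespace Pool.Agent.G3.C

open Pool.Agent.H36.BP (EN wd)
open Pool.Agent.H62.EF (MN pr)
open Pool.Agent.AD (Vd)

variable {N k : ℕ}

/-- the bad points are separated -/
structure Sep (Bd : Set (ℂ × ℂ)) (ρ : ℝ) : Prop where
  pos : 0 < ρ
  sep : ∀ β ∈ Bd, ∀ β' ∈ Bd, β ≠ β' → 8 * ρ ≤ dist β β'

/-- the entire curves in `X` over the line `y + ℂ a` -/
def Gc (X : Set (EN N)) (Λ : AddSubgroup (Vd (k + 1))) (u : EN N → Vd (k + 1)) (a y : Vd (k + 1)) : Set (ℂ → EN N) :=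
  {F | Differentiable ℂ F ∧ (∀ z, F z ∈ X) ∧ ∀ z, u (F z) - (y + z • a) ∈ Λ}

/-- the family extends to the ball of radius `ε` in `ℂ × ℂ` with centre `(s₀, z₀)` -/
def EAt (Φ : ℝ → ℂ → MN N) (s₀ : ℝ) (z₀ : ℂ) (ε : ℝ) : Prop :=
  ∃ F : ℂ × ℂ → EN N, DifferentiableOn ℂ F (ball ((s₀ : ℂ), z₀) ε) ∧ (∀ p ∈ ball ((s₀ : ℂ), z₀) ε, F p ≠ 0) ∧
    ∀ (s : ℝ) (z : ℂ), ((s : ℂ), z) ∈ ball ((s₀ : ℂ), z₀) ε → Φ s z = pr (F (s, z))

theorem EAt.shrink {Φ : ℝ → ℂ → MN N} {s₀ s₁ : ℝ} {z₀ z₁ : ℂ} {ε ε' : ℝ} (h : EAt Φ s₀ z₀ ε)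
    (hb : ball ((s₁ : ℂ), z₁) ε' ⊆ ball ((s₀ : ℂ), z₀) ε) : EAt Φ s₁ z₁ ε' := by
  obtain ⟨F, h1, h2, h3⟩ := h
  exact ⟨F, h1.mono hb, fun p hp => h2 p (hb hp), fun s z hz => h3 s z (hb hz)⟩

theorem EAt.mono {Φ : ℝ → ℂ → MN N} {s₀ : ℝ} {z₀ : ℂ} {ε ε' : ℝ} (h : EAt Φ s₀ z₀ ε) (hε : ε' ≤ ε) : EAt Φ s₀ z₀ ε' :=
  h.shrink (ball_subset_ball hε)

theorem EAt.move {Φ : ℝ → ℂ → MN N} {s₀ s₁ : ℝ} {z₀ z₁ : ℂ} {ε : ℝ} (h : EAt Φ s₀ z₀ ε) :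
    EAt Φ s₁ z₁ (ε - dist ((s₁ : ℂ), z₁) ((s₀ : ℂ), z₀)) :=
  h.shrink (ball_subset_ball' (by linarith))

/-! ### the normalised vector of a line -/

/-- the vector `x / ⟨v, x⟩` for the line with the projection matrix `pr x` -/
noncomputable def nv (v : EN N) (m : MN N) : EN N := (∑ i, ∑ j, (starRingEnd ℂ) (v i) * m (i, j) * v j)⁻¹ • WithLp.toLp 2 fun i => ∑ j, m (i, j) * v j

private theorem inner_eq_sum (x y : EN N) : (inner ℂ x y : ℂ) = ∑ j, (starRingEnd ℂ) (x j) * y j := by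
  rw [PiLp.inner_apply]
  refine Finset.sum_congr rfl fun j _ => ?_
  rw [RCLike.inner_apply]
  ring

private theorem nv_row (v x : EN N) (i : Fin (N + 1)) : ∑ j, pr x (i, j) * v j = (inner ℂ x v / ((‖x‖ ^ 2 : ℝ) : ℂ)) * x i := by
  rw [inner_eq_sum, Finset.sum_div, Finset.sum_mul]
  refine Finset.sum_congr rfl fun j _ => ?_
  simp only [pr]
  ring

private theorem nv_den (v x : EN N) : ∑ i, ∑ j, (starRingEnd ℂ) (v i) * pr x (i, j) * v j = (inner ℂ x v / ((‖x‖ ^ 2 : ℝ) : ℂ)) * inner ℂ v x := by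
  rw [inner_eq_sum v x, Finset.mul_sum]
  refine Finset.sum_congr rfl fun i _ => ?_
  have h := nv_row v x i
  calc ∑ j, (starRingEnd ℂ) (v i) * pr x (i, j) * v j = (starRingEnd ℂ) (v i) * ∑ j, pr x (i, j) * v j := by
        rw [Finset.mul_sum]
        exact Finset.sum_congr rfl fun j _ => by ring
    _ = _ := by rw [h]; ring

theorem nv_pr {v x : EN N} (h : inner ℂ v x ≠ (0 : ℂ)) : nv v (pr x) = (inner ℂ v x : ℂ)⁻¹ • x := by
  have hx : x ≠ 0 := by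
    rintro rfl
    exact h (inner_zero_right _)
  have h1 : ((‖x‖ ^ 2 : ℝ) : ℂ) ≠ 0 := by
    have : ‖x‖ ≠ 0 := norm_ne_zero_iff.mpr hx
    exact_mod_cast pow_ne_zero 2 this
  have h2 : inner ℂ x v ≠ (0 : ℂ) := fun h' => h (by rw [← inner_conj_symm, h', map_zero])
  unfold nv
  rw [nv_den]
  ext i
  simp only [PiLp.smul_apply, smul_eq_mul]
  rw [nv_row]
  field_simp

/-- the denominator of `nv`, a continuous function which is not zero at `pr x` if `⟨v, x⟩ ≠ 0` -/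
noncomputable def nd (v : EN N) (m : MN N) : ℂ := ∑ i, ∑ j, (starRingEnd ℂ) (v i) * m (i, j) * v j

theorem nd_cont (v : EN N) : Continuous (nd v : MN N → ℂ) := by
  unfold nd
  refine continuous_finsetSum _ fun i _ => continuous_finsetSum _ fun j _ => ?_
  exact (continuous_const.mul (PiLp.continuous_apply 2 _ (i, j))).mul continuous_const

theorem nd_pr_ne {v x : EN N} (hx : x ≠ 0) : nd v (pr x) ≠ 0 ↔ inner ℂ v x ≠ (0 : ℂ) := by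
  have h1 : ((‖x‖ ^ 2 : ℝ) : ℂ) ≠ 0 := by
    have : ‖x‖ ≠ 0 := norm_ne_zero_iff.mpr hx
    exact_mod_cast pow_ne_zero 2 this
  unfold nd
  rw [nv_den]
  constructor
  · intro h h'
    rw [h', mul_zero] at h
    exact h rfl
  · intro h
    have h2 : inner ℂ x v ≠ (0 : ℂ) := fun h' => h (by rw [← inner_conj_symm, h', map_zero])
    exact mul_ne_zero (div_ne_zero h2 h1) h

theorem nv_continuousAt {v : EN N} {m : MN N} (h : nd v m ≠ 0) : ContinuousAt (nv v) m := by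
  have h1 : ContinuousAt (fun m : MN N => (nd v m)⁻¹) m := ((nd_cont v).continuousAt (x := m)).inv₀ h
  have h2 : ContinuousAt (fun m : MN N => (WithLp.toLp 2 fun i => ∑ j, m (i, j) * v j : EN N)) m := ?_
  · exact h1.smul h2
  · refine ((PiLp.continuous_toLp 2 _).comp (continuous_pi fun i => ?_)).continuousAt
    refine continuous_finsetSum _ fun j _ => ?_
    exact (PiLp.continuous_apply 2 _ (i, j)).mul continuous_const

theorem pr_nv {v x : EN N} (h : inner ℂ v x ≠ (0 : ℂ)) : pr (nv v (pr x)) = pr x := by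
  rw [nv_pr h]
  exact Pool.Agent.H62.EF.pr_smul x (inv_ne_zero h)

end Pool.Agent.G3.C

end

section

/-!
# G3 A Defs: curves over the lines of one direction

`a` is a direction (sup norm `1`), `Bad` the set of the bad points for this direction (`Ba D B a`: points of `B` and points where `a` is tangent to `D`).

* `Hc X Λ u a y`: the entire curves over the line `y + ℂ a`, as maps to the projective space (`MN N`).
* `Frm`: finitely many forms `α j` with theta factors for `Γ ≤ Λ` (`Tht`), without common zeros outside `D` (`Sepa`); `Dec`: decay `|α j| ≤ C₀ exp (- c₀ |y|²)`.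
* `NL`: normalised lifts of the curves in `Hc` (from block P).
* `LG`: the geometry of the lines of direction `a`; `LC`: the constants `ρ`, `δ`; `Co`: the core.
* `CRL`: crossing for the lines near a line through a good point (from block X); `DA`: all data for the direction `a`.
* `Tb`, `ToE`, `Sht`: the real subspace `E`, the closure of `ℂ a`, and the sheets over `b + E`.
* `Lm`: convergence of curves `f n` over `y n + ℂ a` to a curve `g` over `y₀ + ℂ a`, locally uniformly outside `D`.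
-/

set_option autoImplicit false

open Topology Filter Metric

namespace Pool.Agent.G3.A

open Pool.Agent.H36.BP (EN fs wd)
open Pool.Agent.H14.PP (IsCone CurveAt Tan)
open Pool.Agent.H62.EF (MN pr)
open Pool.Agent.AD (Vd Chart Charts IsGerm)
open Pool.Agent.TG
open Pool.Agent.G3.C (Gc)

variable {N k : ℕ}

/-- the bad points for the direction `a`: the points of `B`, and the points at which `a` is tangent to `D` -/
def Ba (D B : Set (Vd (k + 1))) (a : Vd (k + 1)) : Set (Vd (k + 1)) := {q | q ∈ D ∧ (q ∈ B ∨ ¬ TransAt D q a)}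

/-- the entire curves in `X` over the line `y + ℂ a`, as maps to the projective space -/
def Hc (X : Set (EN N)) (Λ : AddSubgroup (Vd (k + 1))) (u : EN N → Vd (k + 1)) (a y : Vd (k + 1)) : Set (ℂ → MN N) :=
  {f | ∃ F ∈ Gc X Λ u a y, f = fun z => pr (F z)}

/-- the form `α` decays -/
def Dec {X : Set (EN N)} {Λ : AddSubgroup (Vd (k + 1))} {u : EN N → Vd (k + 1)} (α : VForm X Λ u) (c₀ C₀ : ℝ) : Prop :=
  ∀ y, ∀ x ∈ X, u x - y ∈ Λ → ∀ v : Fin (k + 2) → EN N, (∀ i, Tan X x (v i)) → (∀ i, ‖v i‖ ≤ ‖x‖) →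
    ‖α.toFun y x v‖ ≤ C₀ * Real.exp (-(c₀ * ‖y‖ ^ 2))

/-- the forms `α j` have no common zero outside `D` -/
def Sepa {X : Set (EN N)} {Λ : AddSubgroup (Vd (k + 1))} {u : EN N → Vd (k + 1)} (D : Set (Vd (k + 1))) {J : ℕ} (α : Fin J → VForm X Λ u) : Prop :=
  ∀ y ∉ D, ∀ x ∈ X, u x - y ∈ Λ → ∃ j, ∃ v : Fin (k + 2) → EN N, (∀ i, Tan X x (v i)) ∧ (α j).toFun y x v ≠ 0

/-- the form `α` is quasi-periodic for `Γ`, with theta factors of the weight `wt W` -/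
def Tht {X : Set (EN N)} {Λ : AddSubgroup (Vd (k + 1))} {u : EN N → Vd (k + 1)} (Γ : AddSubgroup (Vd (k + 1))) {r : ℕ}
    (W : Fin r → Vd (k + 1) →L[ℂ] ℂ) (α : VForm X Λ u) : Prop :=
  ∀ l ∈ Γ, ∃ (L : Vd (k + 1) →L[ℂ] ℂ) (c : ℂ), (∀ y, ‖Complex.exp (L y + c)‖ = Real.exp (wt W y - wt W (y + l))) ∧
    ∀ y, ∀ x ∈ X, u x - y ∈ Λ → ∀ v : Fin (k + 2) → EN N, (∀ i, Tan X x (v i)) → α.toFun (y + l) x v = Complex.exp (L y + c) * α.toFun y x v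

/-- the forms: theta factors for a lattice `Γ ≤ Λ` and a positive definite weight, no common zero outside `D` -/
structure Frm (X : Set (EN N)) (Λ : AddSubgroup (Vd (k + 1))) (u : EN N → Vd (k + 1)) (D : Set (Vd (k + 1))) (Γ : AddSubgroup (Vd (k + 1))) {J r : ℕ}
    (W : Fin r → Vd (k + 1) →L[ℂ] ℂ) (α : Fin J → VForm X Λ u) : Prop where
  lat : Lat Γ
  le : Γ ≤ Λ
  pos : ∀ y, (∀ i, W i y = 0) → y = 0
  per : ∀ j, Tht Γ W (α j)
  sep : Sepa D α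

/-- normalised lifts of the curves over the lines of direction `a` -/
def NL (X : Set (EN N)) (Λ : AddSubgroup (Vd (k + 1))) (u : EN N → Vd (k + 1)) (D : Set (Vd (k + 1))) (a : Vd (k + 1)) : Prop :=
  ∀ δ : ℝ, 0 < δ → ∃ c : ℝ, 0 < c ∧ ∀ y, ∀ f ∈ Hc X Λ u a y, ∀ z₀ : ℂ, ∃ F : ℂ → EN N, DifferentiableOn ℂ F (ball z₀ 2) ∧
    (∀ z ∈ ball z₀ 2, F z ∈ X ∧ f z = pr (F z) ∧ ‖F z‖ ≤ 1) ∧ ∀ z ∈ closedBall z₀ 1, y + z • a ∈ Gd D δ → c ≤ ‖F z‖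

/-- the geometry of the lines of direction `a` -/
structure LG (Λ : AddSubgroup (Vd (k + 1))) (D Bad : Set (Vd (k + 1))) (a : Vd (k + 1)) : Prop where
  norm : ‖a‖ = 1
  lat : Lat Λ
  D_closed : IsClosed D
  D_inv : ∀ y ∈ D, ∀ l ∈ Λ, y + l ∈ D
  bad_sub : Bad ⊆ D
  bad_inv : ∀ β ∈ Bad, ∀ l ∈ Λ, β + l ∈ Bad
  bad_fin : ∃ S : Set (Vd (k + 1)), S.Finite ∧ ∀ β ∈ Bad, ∃ s ∈ S, β - s ∈ Λ
  iso : ∀ y : Vd (k + 1), ∀ᶠ z in 𝓝[≠] (0 : ℂ), y + z • a ∉ D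
  rank : ∃ ω : ℂ, ‖ω‖ = 1 ∧ ∀ z : ℂ, z • a ∈ Λ → ((starRingEnd ℂ) ω * z).im = 0

/-- the core: points of distance at least `2 δ` from `D` and at least `ρ / 2` from the bad points -/
def Co (D Bad : Set (Vd (k + 1))) (δ ρ : ℝ) : Set (Vd (k + 1)) := {y | y ∈ Gd D (2 * δ) ∧ ∀ β ∈ Bad, ρ / 2 ≤ ‖y - β‖}

/-- the constants of the geometry of the lines of direction `a` -/
structure LC (D Bad : Set (Vd (k + 1))) (a : Vd (k + 1)) (ρ δ : ℝ) : Prop where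
  norm : ‖a‖ = 1
  D_closed : IsClosed D
  bad_sub : Bad ⊆ D
  ρ_pos : 0 < ρ
  ρ_le : ρ ≤ 1 / 4
  δ_pos : 0 < δ
  δ_le : 8 * δ ≤ ρ
  sep : ∀ β ∈ Bad, ∀ β' ∈ Bad, β ≠ β' → 8 * ρ ≤ ‖β - β'‖
  iso : ∀ y : Vd (k + 1), ∀ᶠ z in 𝓝[≠] (0 : ℂ), y + z • a ∉ D
  /-- the discs around the bad points contain no other hits -/
  ann : ∀ β ∈ Bad, ∀ z : ℂ, ρ / 4 ≤ ‖z‖ → ‖z‖ ≤ ρ → β + z • a ∈ Gd D (2 * δ)
  /-- small circles -/
  circ : ∀ y : Vd (k + 1), ∃ r : ℝ, 0 < r ∧ r < ρ / 2 ∧ ∀ z : ℂ, ‖z‖ = r → y + z • a ∈ Gd D (2 * δ)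
  /-- circles in the core -/
  circC : ∀ y : Vd (k + 1), ∃ r : ℝ, 0 < r ∧ r ≤ 2 * ρ ∧ ∀ z : ℂ, ‖z‖ = r → y + z • a ∈ Gd D (4 * δ) ∧ ∀ β ∈ Bad, 3 / 4 * ρ ≤ ‖y + z • a - β‖
  /-- the exact bad hits of a line are in a strip -/
  strip : ∀ y : Vd (k + 1), ∃ (ω : ℂ) (M : ℝ), ‖ω‖ = 1 ∧ ∀ z : ℂ, y + z • a ∈ Bad → |((starRingEnd ℂ) ω * z).im| ≤ M

/-- the curves `f n` over `y n + ℂ a` converge to `g` locally uniformly at the points where `y₀ + z a` is not in `D` -/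
def Lm (D : Set (Vd (k + 1))) (a : Vd (k + 1)) {ι : Type*} (l : Filter ι) (y₀ : Vd (k + 1)) (f : ι → ℂ → MN N) (g : ℂ → MN N) : Prop :=
  ∀ z : ℂ, y₀ + z • a ∉ D → ∀ w : ι → ℂ, Tendsto w l (𝓝 z) → Tendsto (fun n => f n (w n)) l (𝓝 (g z))

/-- crossing for the lines near the line `p + ℂ a` -/
def CRL (X : Set (EN N)) (Λ : AddSubgroup (Vd (k + 1))) (u : EN N → Vd (k + 1)) (D : Set (Vd (k + 1))) (a p : Vd (k + 1)) : Prop :=
  ∀ η : ℝ, 0 < η → ∃ s₀ ρ₀ : ℝ, 0 < s₀ ∧ s₀ ≤ η ∧ 0 < ρ₀ ∧ ∀ δ ε ε₀ : ℝ, Cst X Λ u D δ ε ε₀ → ∃ ε₁ : ℝ, 0 < ε₁ ∧ ε₁ ≤ ε₀ ∧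
    ∀ p' ∈ ball p ρ₀, (∀ z : ℂ, s₀ / 4 ≤ ‖z‖ → ‖z‖ ≤ s₀ → p' + z • a ∈ Gd D δ) → ∀ (α : VForm X Λ u) (F H : ℂ → EN N),
      DifferentiableOn ℂ F (ball 0 (2 * s₀)) → (∀ z ∈ ball (0 : ℂ) (2 * s₀), F z ∈ X ∧ u (F z) - (p' + z • a) ∈ Λ) →
      DifferentiableOn ℂ H (ball 0 (2 * s₀)) → (∀ z ∈ ball (0 : ℂ) (2 * s₀), H z ∈ X ∧ u (H z) - (p' + z • a) ∈ Λ) →
      (∀ z : ℂ, s₀ / 4 ≤ ‖z‖ → ‖z‖ ≤ s₀ → dist (pr (F z)) (pr (H z)) ≤ ε₁) →
      ∃ J : ℂ → ℂ, DifferentiableOn ℂ J (ball 0 s₀) ∧ ∀ z : ℂ, s₀ / 4 < ‖z‖ → ‖z‖ < s₀ → J z = II α ε (p' + z • a) (pr (F z)) (pr (H z))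

/-- the data of block (A) for the direction `a` -/
structure DA (X : Set (EN N)) (Λ : AddSubgroup (Vd (k + 1))) (u : EN N → Vd (k + 1)) (D B Bad : Set (Vd (k + 1))) (a : Vd (k + 1)) {J : ℕ}
    (α : Fin J → VForm X Λ u) (c₀ C₀ ρ δ : ℝ) : Prop where
  geo : Geo X Λ u D B
  lg : LG Λ D Bad a
  lc : LC D Bad a ρ δ
  nl : NL X Λ u D a
  c_pos : 0 < c₀
  C_pos : 0 < C₀
  dec : ∀ j, Dec (α j) c₀ C₀
  sep : Sepa D α
  cr : ∀ p ∈ D, p ∉ Bad → CRL X Λ u D a p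
  good : ∀ p ∈ D, p ∉ Bad → p ∉ B ∧ TransAt D p a

/-- the real affine subspace `b + E` -/
def Tb (b : Vd (k + 1)) (E : Submodule ℝ (Vd (k + 1))) : Set (Vd (k + 1)) := {y | y - b ∈ E}

/-- `E` is the real closure of `ℂ a`: the lift of the closure of the image of `ℂ a` in the torus -/
structure ToE (Λ : AddSubgroup (Vd (k + 1))) (a : Vd (k + 1)) (E : Submodule ℝ (Vd (k + 1))) : Prop where
  mem : ∀ z : ℂ, z • a ∈ E
  cpt : ∃ R : ℝ, 0 < R ∧ ∀ v ∈ E, ∃ l ∈ Λ, l ∈ E ∧ ‖v - l‖ ≤ R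
  dns : ∀ v ∈ E, ∀ ε : ℝ, 0 < ε → ∃ l ∈ Λ, l ∈ E ∧ ∃ z : ℂ, ‖v - (l + z • a)‖ ≤ ε

/-- the hypothesis under which the curves over the lines in `b + E` are the leaves of sheets: their number is constant (`ToE.ce` in `A/Cns`; also used for `E = ⊤`) -/
structure CE (X : Set (EN N)) (Λ : AddSubgroup (Vd (k + 1))) (u : EN N → Vd (k + 1)) (a b : Vd (k + 1)) (E : Submodule ℝ (Vd (k + 1))) : Prop where
  mem : ∀ z : ℂ, z • a ∈ E
  cpt : ∃ R : ℝ, 0 < R ∧ ∀ v ∈ E, ∃ l ∈ Λ, l ∈ E ∧ ‖v - l‖ ≤ R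
  card : ∀ y ∈ Tb b E, (Hc X Λ u a y).ncard = (Hc X Λ u a b).ncard

/-- `φ` is a sheet over `T`: a continuous family of curves over the lines in `T` (the values outside `T` do not matter) -/
structure Sht (X : Set (EN N)) (Λ : AddSubgroup (Vd (k + 1))) (u : EN N → Vd (k + 1)) (D : Set (Vd (k + 1))) (a : Vd (k + 1)) (T : Set (Vd (k + 1)))
    (φ : Vd (k + 1) → MN N) : Prop where
  line : ∀ y ∈ T, (fun z : ℂ => φ (y + z • a)) ∈ Hc X Λ u a y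
  cont : ∀ y ∈ T, y ∉ D → ContinuousWithinAt φ T y

end Pool.Agent.G3.A

end

section

/-!
# TG Gd: basic facts on the points far from `D`, fibres, compactness
-/

set_option autoImplicit false

open Topology Filter Metric

namespace Pool.Agent.TG

open Pool.Agent.H36.BP (EN fs wd)
open Pool.Agent.H14.PP (IsCone CurveAt Tan)
open Pool.Agent.H62.EF (MN pr)
open Pool.Agent.AD (Vd Chart Charts IsGerm)

variable {N k : ℕ}

theorem gd_mono {D : Set (Vd (k + 1))} {δ₁ δ₂ : ℝ} (h : δ₁ ≤ δ₂) : Gd D δ₂ ⊆ Gd D δ₁ :=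
  fun _ hy b hb => h.trans (hy b hb)

theorem gd_notMem {D : Set (Vd (k + 1))} {δ : ℝ} (h : 0 < δ) {y : Vd (k + 1)} (hy : y ∈ Gd D δ) : y ∉ D := by
  intro hD
  have h1 := hy y hD
  rw [sub_self, norm_zero] at h1
  linarith

theorem gd_closed (D : Set (Vd (k + 1))) (δ : ℝ) : IsClosed (Gd D δ) := by
  have h : Gd D δ = ⋂ b ∈ D, {y : Vd (k + 1) | δ ≤ ‖y - b‖} := by
    ext y
    simp [Gd]
  rw [h]
  exact isClosed_biInter fun b _ => isClosed_le continuous_const (by fun_prop)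

theorem gd_near {D : Set (Vd (k + 1))} {δ r : ℝ} {y w : Vd (k + 1)} (hy : y ∈ Gd D δ) (h : ‖w - y‖ ≤ r) : w ∈ Gd D (δ - r) := by
  intro b hb
  have h1 := hy b hb
  have h2 : ‖y - b‖ ≤ ‖w - b‖ + ‖w - y‖ := by
    have : y - b = (w - b) - (w - y) := by abel
    rw [this]
    exact norm_sub_le _ _
  linarith

variable {X : Set (EN N)} {Λ : AddSubgroup (Vd (k + 1))} {u : EN N → Vd (k + 1)} {D B : Set (Vd (k + 1))}

theorem Geo.D_sub (G : Geo X Λ u D B) {y l : Vd (k + 1)} (hl : l ∈ Λ) : y + l ∈ D ↔ y ∈ D := by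
  refine ⟨fun h => ?_, fun h => G.D_inv y h l hl⟩
  have h1 := G.D_inv _ h (-l) (Λ.neg_mem hl)
  rwa [add_neg_cancel_right] at h1

theorem Geo.gd_add (G : Geo X Λ u D B) (δ : ℝ) {y l : Vd (k + 1)} (hl : l ∈ Λ) : y + l ∈ Gd D δ ↔ y ∈ Gd D δ := by
  constructor
  · intro h b hb
    have h1 := h _ (G.D_inv b hb l hl)
    rwa [add_sub_add_right_eq_sub] at h1
  · intro h b hb
    have h1 := h _ (G.D_inv b hb (-l) (Λ.neg_mem hl))
    have h2 : y - (b + -l) = y + l - b := by abel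
    rwa [h2] at h1

theorem Geo.exists_gd (G : Geo X Λ u D B) {y : Vd (k + 1)} (hy : y ∉ D) : ∃ δ : ℝ, 0 < δ ∧ y ∈ Gd D δ := by
  have h1 : Dᶜ ∈ 𝓝 y := G.D_closed.isOpen_compl.mem_nhds hy
  obtain ⟨δ, hδ, h⟩ := Metric.mem_nhds_iff.mp h1
  refine ⟨δ, hδ, fun b hb => ?_⟩
  by_contra hlt
  push Not at hlt
  have hb' : b ∈ ball y δ := by
    rw [mem_ball, dist_comm, dist_eq_norm]
    exact hlt
  exact h hb' hb

theorem fb_add {y l : Vd (k + 1)} (hl : l ∈ Λ) : Fb X Λ u (y + l) = Fb X Λ u y := by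
  ext m
  constructor
  · rintro ⟨x, hx, hm, hu⟩
    refine ⟨x, hx, hm, ?_⟩
    have h1 := Λ.add_mem hu hl
    have h2 : u x - (y + l) + l = u x - y := by abel
    rwa [h2] at h1
  · rintro ⟨x, hx, hm, hu⟩
    refine ⟨x, hx, hm, ?_⟩
    rw [← sub_sub]
    exact Λ.sub_mem hu hl

theorem mem_fb {x : EN N} {y : Vd (k + 1)} (hx : x ∈ X) (h : u x - y ∈ Λ) : pr x ∈ Fb X Λ u y := ⟨x, hx, rfl, h⟩

theorem ne_zero (hX : IsCone X) {x : EN N} (hx : x ∈ X) : x ≠ 0 := fun h => hX.zero_notMem (h ▸ hx)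

/-- every lift of a point of the fibre lies over `y` -/
theorem fb_lift (hX : IsCone X) (hu : TMap X Λ u) {y : Vd (k + 1)} {m : MN N} (hm : m ∈ Fb X Λ u y) {x : EN N} (hx : x ∈ X) (hxm : pr x = m) :
    u x - y ∈ Λ := by
  obtain ⟨x', hx', hm', hu'⟩ := hm
  obtain ⟨c, hc, hcx⟩ := (Pool.Agent.H62.EF.pr_eq_iff (ne_zero hX hx) (ne_zero hX hx')).1 (hxm.trans hm'.symm)
  rw [hcx]
  have h1 := Λ.add_mem (hu.smul x' hx' c hc) hu'
  have h2 : u (c • x') - u x' + (u x' - y) = u (c • x') - y := by abel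
  rwa [h2] at h1

theorem Lat.closed (hΛ : Lat Λ) : IsClosed (Λ : Set (Vd (k + 1))) := by
  obtain ⟨δ, hδ, h⟩ := hΛ.disc
  refine Metric.isClosed_of_pairwise_le_dist hδ ?_
  intro x hx y hy hxy
  by_contra hlt
  push Not at hlt
  rw [dist_eq_norm] at hlt
  exact hxy (sub_eq_zero.mp (h _ (Λ.sub_mem hx hy) hlt))

theorem compact_unit (hX : IsCone X) : IsCompact (X ∩ sphere (0 : EN N) 1) := by
  have h1 : X ∩ sphere (0 : EN N) 1 = (insert 0 X) ∩ sphere (0 : EN N) 1 := by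
    ext x
    constructor
    · rintro ⟨hx, hs⟩
      exact ⟨Set.mem_insert_of_mem _ hx, hs⟩
    · rintro ⟨hx, hs⟩
      refine ⟨?_, hs⟩
      rcases hx with rfl | hx
      · simp at hs
      · exact hx
  rw [h1]
  exact (isCompact_sphere (0 : EN N) 1).inter_left hX.closed

theorem exists_unit (hX : IsCone X) {x : EN N} (hx : x ∈ X) : ∃ c : ℂ, c ≠ 0 ∧ c • x ∈ X ∩ sphere (0 : EN N) 1 := by
  have hn : ‖x‖ ≠ 0 := norm_ne_zero_iff.mpr (ne_zero hX hx)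
  have hc : (((‖x‖⁻¹ : ℝ)) : ℂ) ≠ 0 := by
    exact_mod_cast inv_ne_zero hn
  refine ⟨(((‖x‖⁻¹ : ℝ)) : ℂ), hc, hX.smul_mem x hx _ hc, ?_⟩
  rw [mem_sphere_zero_iff_norm, norm_smul, Complex.norm_real, norm_inv, norm_norm]
  exact inv_mul_cancel₀ hn

/-- limits of points over `y n → y` are over `y` -/
theorem lim_mem (hΛ : Lat Λ) (hu : TMap X Λ u) {ι : Type*} {l : Filter ι} [l.NeBot] {x : ι → EN N} {y : ι → Vd (k + 1)} {x₀ : EN N}
    {y₀ : Vd (k + 1)} (hx₀ : x₀ ∈ X) (hx : Tendsto x l (𝓝 x₀)) (hy : Tendsto y l (𝓝 y₀)) (h : ∀ᶠ i in l, x i ∈ X ∧ u (x i) - y i ∈ Λ) :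
    u x₀ - y₀ ∈ Λ := by
  obtain ⟨v, hv, hv'⟩ := hu.loc x₀ hx₀
  have h1 : Tendsto (fun i => v (x i) - y i) l (𝓝 (v x₀ - y₀)) := (hv.continuousAt.tendsto.comp hx).sub hy
  have h2 : ∀ᶠ i in l, v (x i) - y i ∈ (Λ : Set (Vd (k + 1))) := by
    filter_upwards [h, hx.eventually hv'] with i hi hi'
    have h3 : v (x i) - y i = u (x i) - y i - (u (x i) - v (x i)) := by abel
    rw [h3]
    exact Λ.sub_mem hi.2 (hi' hi.1)
  have h4 : v x₀ - y₀ ∈ Λ := hΛ.closed.mem_of_tendsto h1 h2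
  have h5 := hv'.self_of_nhds hx₀
  have h6 : u x₀ - y₀ = (u x₀ - v x₀) + (v x₀ - y₀) := by abel
  rw [h6]
  exact Λ.add_mem h5 h4

/-- limits in the projective space: `m n → m₀`, `m n` in the fibre over `y n → y₀`; then `m₀` is in the fibre over `y₀`, and every lift `x₀` of `m₀` is the limit of
lifts -/
theorem fb_lim (hX : IsCone X) (hΛ : Lat Λ) (hu : TMap X Λ u) {ι : Type*} {l : Filter ι} [l.NeBot] {m : ι → MN N} {y : ι → Vd (k + 1)} {m₀ : MN N}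
    {y₀ : Vd (k + 1)} (hm : Tendsto m l (𝓝 m₀)) (hy : Tendsto y l (𝓝 y₀)) (h : ∀ᶠ i in l, m i ∈ Fb X Λ u (y i)) :
    m₀ ∈ Fb X Λ u y₀ ∧ ∀ x₀ ∈ X, pr x₀ = m₀ → ∀ U ∈ 𝓝 x₀, ∀ᶠ i in l, ∃ x ∈ X, x ∈ U ∧ pr x = m i ∧ u x - y i ∈ Λ := by
  have hmem : m₀ ∈ pr '' X := (Pool.Agent.H62.EF.isCompact_pr hX).isClosed.mem_of_tendsto hm (by
    filter_upwards [h] with i hi
    obtain ⟨x, hx, hxm, -⟩ := hi
    exact ⟨x, hx, hxm⟩)
  have hlift : ∀ x₀ ∈ X, pr x₀ = m₀ → ∀ U ∈ 𝓝 x₀, ∀ᶠ i in l, ∃ x ∈ X, x ∈ U ∧ pr x = m i ∧ u x - y i ∈ Λ := by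
    intro x₀ hx₀ hxm U hU
    obtain ⟨R, hR, hnear⟩ := Pool.Agent.H62.EF.near_of_pr (ne_zero hX hx₀) hU
    have h1 : ∀ᶠ i in l, dist (m i) m₀ < R := hm.eventually (ball_mem_nhds _ hR)
    filter_upwards [h, h1] with i hi hd
    obtain ⟨x, hx, hxm', hux⟩ := hi
    obtain ⟨c, hc, hcx⟩ := hnear x (ne_zero hX hx) (by rw [hxm', hxm]; exact hd)
    exact ⟨c • x, hX.smul_mem x hx c hc, hcx, by rw [Pool.Agent.H62.EF.pr_smul x hc, hxm'], smul_mem_lat hu hx hux hc⟩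
  refine ⟨?_, hlift⟩
  obtain ⟨x₀, hx₀, hxm⟩ := hmem
  refine ⟨x₀, hx₀, hxm, ?_⟩
  -- choose lifts converging to `x₀`
  obtain ⟨v, hv, hv'⟩ := hu.loc x₀ hx₀
  have hcl := hΛ.closed
  by_contra hcon
  have h5 := hv'.self_of_nhds hx₀
  have h6 : v x₀ - y₀ ∉ (Λ : Set (Vd (k + 1))) := by
    intro h7
    apply hcon
    have h8 : u x₀ - y₀ = (u x₀ - v x₀) + (v x₀ - y₀) := by abel
    rw [h8]
    exact Λ.add_mem h5 h7
  have h7 : ∀ᶠ p in 𝓝 (x₀, y₀), v p.1 - p.2 ∉ (Λ : Set (Vd (k + 1))) := by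
    have hc : ContinuousAt (fun p : EN N × Vd (k + 1) => v p.1 - p.2) (x₀, y₀) :=
      (ContinuousAt.comp (f := fun p : EN N × Vd (k + 1) => p.1) hv.continuousAt continuousAt_fst).sub continuousAt_snd
    exact hc.eventually (hcl.isOpen_compl.mem_nhds h6)
  rw [nhds_prod_eq] at h7
  obtain ⟨pa, hpa, pb, hpb, hab⟩ := Filter.eventually_prod_iff.mp h7
  obtain ⟨i, ⟨x, hx, hxU, -, hux⟩, hyi⟩ := ((hlift x₀ hx₀ hxm _ (hpa.and hv')).and (hy.eventually hpb)).exists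
  refine hab hxU.1 hyi ?_
  have h8 : v x - y i = u x - y i - (u x - v x) := by abel
  show v x - y i ∈ (Λ : Set (Vd (k + 1)))
  rw [h8]
  exact Λ.sub_mem hux (hxU.2 hx)

end Pool.Agent.TG

end
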