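import Pool.Agent.H94.G5T.M07

/-! The parts of this file: TG.JanA, TG.JJ_2. -/

section

/-!
# TG JanA: periodicity, translation and zeros of the integral

Port of `Pool/Agent/H62/EL/JanA.lean`.
`irel_shift`: use the same chart and `A` with `c + l` instead of `c`: `ms (c + l) ρ p = ms c ρ p + l`, `tc (α.shift hl) χ (ms c ρ) p = tc α χ (ms (c + l) ρ) p` (by definition).
`II_shift`: from `irel_shift` (`II` is defined by the predicate `fun v => IRel ..`).
`II_per`: `IRel α ε (y + l) m m' v ↔ IRel α ε y m m' v`: same chart, `c + l` instead of `c`, `Per` (the vectors `∂_i χ.σ` are tangent: `tan_sigma`).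
`II_zero`: let `IRel α ε l m m' v`, `ms c ρ p = l = ms c ρ p'`, so `tl p = tl p'`.  For `q` with `tl q = tl p` in the ball: `∂_0 A q = tc α χ _ q = α.toFun l (χ.σ q) .. = α.toFun 0 .. = 0` (`Per`, `VanZero`;
`u (χ.σ q) ∈ Λ`).  So `A` is constant on the segment from `p` to `p'`, `v = 0`.
-/

set_option autoImplicit false

open Topology Filter Metric

namespace Pool.Agent.TG

open Pool.Agent.H36.BP (EN wd)
open Pool.Agent.H14.PP (IsCone CurveAt Tan)
open Pool.Agent.H62.EF (MN pr)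
open Pool.Agent.AD (Vd Chart Charts)

variable {N k : ℕ}

variable {X : Set (EN N)} {Λ : AddSubgroup (Vd (k + 1))} {u : EN N → Vd (k + 1)} {Γ : AddSubgroup (Vd (k + 1))}

/-- charts are invariant under translation -/
theorem Str.add {χ : Chart (k + 2) X} {c : Vd (k + 1)} {ρ : ℝ} (h : Str Λ u χ c ρ) {l : Vd (k + 1)} (hl : l ∈ Λ) : Str Λ u χ (c + l) ρ := by
  refine ⟨h.pos, fun p hp => ?_⟩
  have h1 : u (χ.σ p) - ms (c + l) ρ p = u (χ.σ p) - ms c ρ p - l := by
    unfold ms
    abel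
  rw [h1]
  exact Λ.sub_mem (h.lift p hp) hl

theorem ms_add (c l : Vd (k + 1)) (ρ : ℝ) (p : Vd (k + 2)) : ms (c + l) ρ p = ms c ρ p + l := by
  unfold ms
  abel

theorem IRel.add {α : VForm X Λ u} (hle : Γ ≤ Λ) (hper : Per α Γ) {ε : ℝ} {y : Vd (k + 1)} {m m' : MN N} {v : ℂ}
    (h : IRel α ε y m m' v) {l : Vd (k + 1)} (hl : l ∈ Γ) : IRel α ε (y + l) m m' v := by
  obtain ⟨χ, c, ρ, A, p, p', hm, hA, hp, hp', hpz, hpz', hpy, hpy', hseg, hv⟩ := h
  refine ⟨χ, c + l, ρ, A, p, p', hm.add (hle hl), ⟨hA.an, fun q hq => ?_, hA.zero⟩, hp, hp', by rw [ms_add, hpz], by rw [ms_add, hpz'], hpy, hpy', hseg, hv⟩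
  rw [hA.der q hq]
  show α.toFun (ms c ρ q) (χ.σ q) _ = α.toFun (ms (c + l) ρ q) (χ.σ q) _
  rw [ms_add]
  exact (hper _ l hl (χ.σ q) (χ.σ_mem q hq).1 (hm.lift q hq) _ fun i => tan_sigma χ hq _).symm

theorem irel_shift {α : VForm X Λ u} {l : Vd (k + 1)} (hl : l ∈ Λ) (ε : ℝ) (y : Vd (k + 1)) (m m' : MN N) (v : ℂ) :
    IRel (α.shift hl) ε y m m' v ↔ IRel α ε (y + l) m m' v := by
  constructor
  · rintro ⟨χ, c, ρ, A, p, p', hm, hA, hp, hp', hpz, hpz', hpy, hpy', hseg, hv⟩
    refine ⟨χ, c + l, ρ, A, p, p', hm.add hl, ⟨hA.an, fun q hq => ?_, hA.zero⟩, hp, hp', by rw [ms_add, hpz], by rw [ms_add, hpz'], hpy, hpy', hseg, hv⟩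
    rw [hA.der q hq]
    show α.toFun (ms c ρ q + l) (χ.σ q) _ = α.toFun (ms (c + l) ρ q) (χ.σ q) _
    rw [ms_add]
  · rintro ⟨χ, c, ρ, A, p, p', hm, hA, hp, hp', hpz, hpz', hpy, hpy', hseg, hv⟩
    have e : ∀ q, ms (c + -l) ρ q + l = ms c ρ q := fun q => by rw [ms_add]; abel
    refine ⟨χ, c + -l, ρ, A, p, p', hm.add (Λ.neg_mem hl), ⟨hA.an, fun q hq => ?_, hA.zero⟩, hp, hp', by rw [ms_add, hpz]; abel,
      by rw [ms_add, hpz']; abel, hpy, hpy', hseg, hv⟩
    rw [hA.der q hq]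
    show α.toFun (ms c ρ q) (χ.σ q) _ = α.toFun (ms (c + -l) ρ q + l) (χ.σ q) _
    rw [e]

theorem II_shift {α : VForm X Λ u} {l : Vd (k + 1)} (hl : l ∈ Λ) (ε : ℝ) (y : Vd (k + 1)) (m m' : MN N) :
    II (α.shift hl) ε y m m' = II α ε (y + l) m m' := by
  have key : IRel (α.shift hl) ε y m m' = IRel α ε (y + l) m m' := funext fun v => propext (irel_shift hl ε y m m' v)
  unfold II
  rw [key]

theorem II_per (hu : TMap X Λ u) {α : VForm X Λ u} (hle : Γ ≤ Λ) (hper : Per α Γ) {l : Vd (k + 1)} (hl : l ∈ Γ) (ε : ℝ) (y : Vd (k + 1))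
    (m m' : MN N) : II α ε (y + l) m m' = II α ε y m m' := by
  have key : IRel α ε (y + l) m m' = IRel α ε y m m' := by
    funext v
    refine propext ⟨fun h => ?_, fun h => h.add hle hper hl⟩
    have h1 := h.add hle hper (Γ.neg_mem hl)
    rwa [add_neg_cancel_right] at h1
  unfold II
  rw [key]

private theorem JanA_zero {α : VForm X Λ u} (hvan : VanZero α) {ε : ℝ} {m m' : MN N} {v : ℂ} (h : IRel α ε 0 m m' v) : v = 0 := by
  obtain ⟨χ, c, ρ, A, p, p', hm, hA, hp, hp', h1, h2, -, -, -, h6⟩ := h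
  have hρ : (ρ : ℂ) ≠ 0 := by
    have := hm.pos
    exact_mod_cast this.ne'
  have htl : tl p' = tl p := by
    have h3 : (ρ : ℂ) • tl p' = (ρ : ℂ) • tl p := by
      have h4 := h2.trans h1.symm
      unfold ms at h4
      exact add_left_cancel h4
    exact smul_right_injective _ hρ h3
  set e0 : Vd (k + 2) := Pi.single 0 1 with he0
  have htle : tl e0 = (0 : Vd (k + 1)) := by
    funext i
    show (Pi.single 0 1 : Vd (k + 2)) i.succ = 0
    rw [Pi.single_eq_of_ne (Fin.succ_ne_zero i)]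
  have hp'e : p' = p + (p' - p) 0 • e0 := by
    have h3 : tl (p' - p) = 0 := by rw [tl_sub, htl, sub_self]
    have h4 := vert_eq h3
    rw [he0, ← h4]
    abel
  set S : Set ℂ := {t : ℂ | p + t • e0 ∈ ball (0 : Vd (k + 2)) 2} with hS
  have hSo : IsOpen S := isOpen_ball.preimage (by fun_prop : Continuous fun t : ℂ => p + t • e0)
  have hSc : Convex ℝ S := by
    intro t ht t' ht' a b ha hb hab
    show p + (a • t + b • t') • e0 ∈ ball (0 : Vd (k + 2)) 2
    have e : p + (a • t + b • t') • e0 = a • (p + t • e0) + b • (p + t' • e0) := by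
      have e1 : p = a • p + b • p := by rw [← add_smul, hab, one_smul]
      calc p + (a • t + b • t') • e0 = (a • p + b • p) + (a • t + b • t') • e0 := by rw [← e1]
        _ = a • (p + t • e0) + b • (p + t' • e0) := by
          rw [add_smul, smul_assoc, smul_assoc, smul_add, smul_add]
          abel
    rw [e]
    exact convex_ball (0 : Vd (k + 2)) 2 ht ht' ha hb hab
  have hms : ∀ t : ℂ, ms c ρ (p + t • e0) = 0 := by
    intro t
    rw [← h1]
    unfold ms
    rw [tl_add, tl_smul, htle, smul_zero, add_zero]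
  have hder : ∀ t ∈ S, HasDerivAt (fun t : ℂ => A (p + t • e0)) 0 t := by
    intro t ht
    have h7 : HasFDerivAt A (fderiv ℂ A (p + t • e0)) (p + t • e0) := (hA.an _ ht).differentiableAt.hasFDerivAt
    have h8 : HasDerivAt (fun t : ℂ => p + t • e0) e0 t := by
      have h9 : HasDerivAt (fun z : ℂ => z • e0) ((1 : ℂ) • e0) t := (hasDerivAt_id t).smul_const e0
      rw [one_smul] at h9
      exact h9.const_add p
    have h9 := h7.comp_hasDerivAt t h8
    have h10 : fderiv ℂ A (p + t • e0) e0 = 0 := by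
      rw [he0, hA.der _ ht]
      have h12 := hm.lift _ ht
      rw [hms, sub_zero] at h12
      show α.toFun (ms c ρ (p + t • e0)) (χ.σ (p + t • e0)) _ = 0
      rw [hms]
      exact hvan _ (χ.σ_mem _ ht).1 h12 _ fun i => tan_sigma χ ht _
    rw [h10] at h9
    exact h9
  have h0S : (0 : ℂ) ∈ S := by
    show p + (0 : ℂ) • e0 ∈ ball (0 : Vd (k + 2)) 2
    rwa [zero_smul, add_zero]
  have h1S : (p' - p) 0 ∈ S := by
    show p + (p' - p) 0 • e0 ∈ ball (0 : Vd (k + 2)) 2
    rwa [← hp'e]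
  have hconst : A (p + (p' - p) 0 • e0) = A (p + (0 : ℂ) • e0) :=
    hSo.is_const_of_deriv_eq_zero (f := fun t : ℂ => A (p + t • e0)) hSc.isPreconnected
      (fun t ht => (hder t ht).differentiableAt.differentiableWithinAt) (fun t ht => (hder t ht).deriv) h1S h0S
  rw [← hp'e, zero_smul, add_zero] at hconst
  rw [h6, hconst, sub_self, zero_div]

theorem II_zero (hu : TMap X Λ u) {α : VForm X Λ u} (hle : Γ ≤ Λ) (hper : Per α Γ) (hvan : VanZero α) {l : Vd (k + 1)} (hl : l ∈ Γ)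
    (ε : ℝ) (m m' : MN N) : II α ε l m m' = 0 := by
  have h1 := II_per hu hle hper hl ε 0 m m'
  rw [zero_add] at h1
  rw [h1]
  unfold II
  split_ifs with h
  · exact JanA_zero hvan h.choose_spec
  · rfl

end Pool.Agent.TG

end

section

/-!
# TG JJ: the integral along short paths in the fibres, without the parameter `ε`

`JRel α y m m' v`: for some `ε` the points near `m` (radius `3 ε`) of the fibres near `y` are in one straight chart, and `v` is the integral of `α / dy` along a path from `m` to `m'` of the fibre over `y` which stays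
in the ball of radius `ε` around `m`.
-/

set_option autoImplicit false

open Topology Filter Metric

namespace Pool.Agent.TG

open Pool.Agent.H36.BP (EN wd)
open Pool.Agent.H14.PP (IsCone CurveAt Tan)
open Pool.Agent.H62.EF (MN pr)
open Pool.Agent.AD (Vd Chart Charts)

variable {N k : ℕ} {X : Set (EN N)} {Λ : AddSubgroup (Vd (k + 1))} {u : EN N → Vd (k + 1)}

theorem Cap.add {χ : Chart (k + 2) X} {c : Vd (k + 1)} {ρ : ℝ} {y : Vd (k + 1)} {m : MN N} {r : ℝ} (h : Cap Λ u χ c ρ y m r) {l : Vd (k + 1)}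
    (hl : l ∈ Λ) : Cap Λ u χ (c + l) ρ (y + l) m r := by
  refine ⟨h.str.add hl, fun y' hy' x hx hxy hd => ?_⟩
  have h1 : y' - l ∈ closedBall y r := by
    rw [mem_closedBall, dist_eq_norm] at hy' ⊢
    have e : y' - l - y = y' - (y + l) := by abel
    rwa [e]
  have h2 : u x - (y' - l) ∈ Λ := by
    have e : u x - (y' - l) = u x - y' + l := by abel
    rw [e]
    exact Λ.add_mem hxy hl
  obtain ⟨a, b, c'⟩ := h.cap _ h1 x hx h2 hd
  refine ⟨a, b, ?_⟩
  rw [ms_add, c']
  abel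

theorem JRel.add {Γ : AddSubgroup (Vd (k + 1))} {α : VForm X Λ u} (hle : Γ ≤ Λ) (hper : Per α Γ) {y : Vd (k + 1)} {m m' : MN N} {v : ℂ}
    (h : JRel α y m m' v) {l : Vd (k + 1)} (hl : l ∈ Γ) : JRel α (y + l) m m' v := by
  obtain ⟨ε, hε, ⟨χ, c, ρ, hc⟩, hv⟩ := h
  exact ⟨ε, hε, ⟨χ, c + l, ρ, hc.add (hle hl)⟩, hv.add hle hper hl⟩

theorem jj_add {Γ : AddSubgroup (Vd (k + 1))} {α : VForm X Λ u} (hle : Γ ≤ Λ) (hper : Per α Γ) {y : Vd (k + 1)} (m m' : MN N)
    {l : Vd (k + 1)} (hl : l ∈ Γ) : JJ α (y + l) m m' = JJ α y m m' := by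
  have h1 : JRel α (y + l) m m' = JRel α y m m' := by
    funext v
    apply propext
    constructor
    · intro h
      have h2 := h.add hle hper (Γ.neg_mem hl)
      rwa [add_neg_cancel_right] at h2
    · intro h
      exact h.add hle hper hl
  unfold JJ
  rw [h1]

end Pool.Agent.TG

end
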