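import Pool.Agent.H94.G5T.M10
import Pool.Agent.H94.G5T.M13
import Pool.Agent.H94.G5T.M22
import Pool.Agent.H94.G5T.M23

/-! The parts of this file: TG.Y.SlA_1, TG.Y.Br, TG.Un_1, TG.JJ_1. -/

section

/-!
# TG Y SlA: the slab is a cone with a map to `ℂ / Γ₀`

`wl_spec`: `Exists.choose_spec`.  `wl_eq`: two values `z, z'` with `‖z‖, ‖z'‖ ≤ s`: `(z - z') • e ∈ Λ` has norm `≤ 2 s ‖e‖`, so it is `0` (`L.small`), `z = z'` (`e ≠ 0`).
`isCone`: `smul_mem`: `smul_mem_lat`.  `closed`: let `x_n → x`, `x_n ∈ insert 0 Y`; `x = 0`, or `x ∈ X` (`L.cone.closed`) and eventually `x_n ≠ 0`, `x_n ∈ Y` with `z_n` in the compact disc, along a subsequence (or ultrafilter) `z_n → z`, `lim_mem`.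
`exists_loc`: let `v` be a local lift of `u` at `x` (`TMap.loc`), changed by a constant of `Λ` such that `v x = p + wl x • e`.  For `y ∈ Y` near `x`: `l = v y - (p + wl y • e) ∈ Λ`, and `‖l‖ ≤ ‖v y - v x‖ + ‖(wl x - wl y) • e‖ ≤ ‖v y - v x‖ + 2 s ‖e‖ ≤ 4 s ‖e‖` for `y` near `x`
(`s ‖e‖ > 0`), so `l = 0`, `v y = p + wl y • e`.  With a linear form `ℓ`, `ℓ e = 1`: `wl y = ℓ (v y - p)`: `W y = ℓ (v y - p)`.
`torusMap`: `smul`: `wl (c • x) = wl x` for `x ∈ Y` (`wl_eq`), `loc` from `exists_loc`.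
-/

set_option autoImplicit false

open Topology Filter Metric

namespace Pool.Agent.TG

open Pool.Agent.H36.BP (EN fs wd)
open Pool.Agent.H14.PP (IsCone CurveAt Tan)
open Pool.Agent.H62.EF (MN pr)
open Pool.Agent.AD (Vd Chart Charts IsGerm)

variable {N k : ℕ}

variable {X : Set (EN N)} {Λ : AddSubgroup (Vd (k + 1))} {u : EN N → Vd (k + 1)} {D B : Set (Vd (k + 1))}
  {κ : Vd (k + 1) → Vd (k + 1)} {p e : Vd (k + 1)} {c : ℂ → Vd (k + 1)} {Γ₀ : AddSubgroup ℂ} {s : ℝ}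

theorem Ln.wl_eq (L : Ln X Λ u D κ p e c Γ₀ s) {x : EN N} {z : ℂ} (hz : ‖z‖ ≤ s) (h : u x - (p + z • e) ∈ Λ) : wl Λ u p e s x = z := by
  have hex : ∃ z : ℂ, ‖z‖ ≤ s ∧ u x - (p + z • e) ∈ Λ := ⟨z, hz, h⟩
  have h1 : ‖wl Λ u p e s x‖ ≤ s ∧ u x - (p + wl Λ u p e s x • e) ∈ Λ := by
    unfold wl
    rw [dif_pos hex]
    exact hex.choose_spec
  have h2 : (z - wl Λ u p e s x) • e ∈ Λ := by
    have h3 : (z - wl Λ u p e s x) • e = (u x - (p + wl Λ u p e s x • e)) - (u x - (p + z • e)) := by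
      rw [sub_smul]
      abel
    rw [h3]
    exact Λ.sub_mem h1.2 h
  have h4 : (z - wl Λ u p e s x) • e = 0 := by
    refine L.small _ h2 ?_
    rw [norm_smul]
    have h5 : ‖z - wl Λ u p e s x‖ ≤ s + s := (norm_sub_le _ _).trans (add_le_add hz h1.1)
    have h6 := mul_le_mul_of_nonneg_right h5 (norm_nonneg e)
    have h7 := mul_nonneg L.pos.le (norm_nonneg e)
    linarith
  rcases smul_eq_zero.1 h4 with h5 | h5
  · exact (sub_eq_zero.1 h5).symm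
  · exact absurd h5 L.e_ne

theorem Ln.wl_smul (L : Ln X Λ u D κ p e c Γ₀ s) {x : EN N} (hx : x ∈ Yl X Λ u p e s) {a : ℂ} (ha : a ≠ 0) :
    wl Λ u p e s (a • x) = wl Λ u p e s x := by
  have h1 := Ln.wl_spec hx
  exact L.wl_eq h1.1 (smul_mem_lat L.tor hx.1 h1.2 ha)

theorem Ln.isCone (L : Ln X Λ u D κ p e c Γ₀ s) : IsCone (Yl X Λ u p e s) := by
  refine ⟨fun h => L.cone.zero_notMem h.1, fun x hx a ha => ?_, ?_⟩
  · obtain ⟨hxX, z, hz, hzx⟩ := hx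
    exact ⟨L.cone.smul_mem x hxX a ha, z, hz, smul_mem_lat L.tor hxX hzx ha⟩
  · refine IsSeqClosed.isClosed fun x x₀ hx hlim => ?_
    have hx₀ : x₀ ∈ insert (0 : EN N) X := by
      refine L.cone.closed.mem_of_tendsto hlim (Eventually.of_forall fun n => ?_)
      rcases hx n with h | h
      · exact Or.inl h
      · exact Or.inr h.1
    rcases hx₀ with h0 | hx₀
    · exact Or.inl h0
    · right
      have hne : x₀ ≠ 0 := ne_zero L.cone hx₀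
      have hev : ∀ᶠ n in atTop, x n ∈ Yl X Λ u p e s := by
        filter_upwards [hlim.eventually_ne hne] with n hn
        exact (hx n).resolve_left hn
      set 𝒰 : Ultrafilter ℕ := hyperfilter ℕ with h𝒰
      have hevU : ∀ᶠ n in (𝒰 : Filter ℕ), x n ∈ Yl X Λ u p e s := Nat.hyperfilter_le_atTop hev
      obtain ⟨z, hz, hzt⟩ := (isCompact_closedBall (0 : ℂ) s).ultrafilter_le_nhds (𝒰.map fun n => wl Λ u p e s (x n)) (by
        rw [Ultrafilter.coe_map, le_principal_iff, mem_map]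
        filter_upwards [hevU] with n hn
        show wl Λ u p e s (x n) ∈ closedBall (0 : ℂ) s
        rw [mem_closedBall_zero_iff]
        exact (Ln.wl_spec hn).1)
      have hzt' : Tendsto (fun n => wl Λ u p e s (x n)) 𝒰 (𝓝 z) := hzt
      have hxt : Tendsto x 𝒰 (𝓝 x₀) := hlim.mono_left Nat.hyperfilter_le_atTop
      refine ⟨hx₀, z, mem_closedBall_zero_iff.1 hz, ?_⟩
      refine lim_mem L.lat L.tor (l := (𝒰 : Filter ℕ)) (y := fun n => p + wl Λ u p e s (x n) • e) hx₀ hxt ?_ ?_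
      · exact tendsto_const_nhds.add (hzt'.smul_const e)
      · filter_upwards [hevU] with n hn
        exact ⟨hn.1, (Ln.wl_spec hn).2⟩

theorem Ln.torusMap (L : Ln X Λ u D κ p e c Γ₀ s) : Pool.Agent.H62.EF.TorusMap (Yl X Λ u p e s) Γ₀ (wl Λ u p e s) := by
  refine ⟨fun x hx a ha => ?_, fun x hx => ?_⟩
  · rw [L.wl_smul hx ha, sub_self]
    exact Γ₀.zero_mem
  · obtain ⟨W, hW, hW'⟩ := L.exists_loc hx
    refine ⟨W, hW, ?_⟩
    filter_upwards [hW'] with y hy hyY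
    rw [hy hyY, sub_self]
    exact Γ₀.zero_mem

end Pool.Agent.TG

end

section

/-!
# TG Y Br: short paths in the slab

`sl y = cons y.2 (ρ⁻¹ (p + (z₀ + r y.1) e - c'))`: the slice of the straight chart `χ` over the line.

`Ln.slice_chart`: `r > 0` small: for `‖y.1‖ < 2`: `‖z₀ + r y.1‖ < s` and the tail of `sl y` stays in the open ball of radius `2` (at `y.1 = 0` it is `tl q₀`).  `U' = {x ∈ χ.U : ‖tl (χ.q x) - tl q₀‖ < η', ‖q'₁ x‖ < 2}`, `q' x = ((ℓ (ms c' ρ (χ.q x) - p) - z₀) / r, (χ.q x) 0)` with a linear form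
`ℓ`, `ℓ e = 1`; `η'` such that `ρ η' ≤ s ‖e‖` and `r` small w.r.t. `η'` (so that `sl y` satisfies the conditions).  `surj`: let `x ∈ Y ∩ U'`: `ms c' ρ (χ.q x) - (p + wl x • e) ∈ Λ` has norm `≤ ρ η' + ‖(z₀ - wl x) • e‖ ≤ s ‖e‖ + 2 s ‖e‖`, so it is `0` (`L.small`): `χ.q x = sl (q' x)`, and
`x = a • χ.σ (χ.q x)`.  `σ_mem`: `χ.σ (sl y) ∈ X` is over `p + (z₀ + r y.1) • e` (`Str.lift`), `wl = z₀ + r y.1` (`Ln.wl_eq`).  `Mon`: `mo z₀ r 1 0 y = z₀ + r y.1`.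

`Ln.slice_tc`: `form_eq` at `x = χ.σ (sl y)` with the vectors `∂₁ = fderiv χ'.σ y (1, 0) = fderiv χ.σ (sl y) (cons 0 ((r / ρ) e))`, `∂₂ = fderiv χ.σ (sl y) (Pi.single 0 1)` and the frame `ℓ j = fderiv χ.σ (sl y) (cons 0 (ρ⁻¹ fr_j))` (`dv_iff` with `υ = ms c' ρ`; `wl x = z₀ + r y.1`); `toFun_eq`:
the matrix has the rows `(0, (r / ρ) e)`, `(1, 0)`, `(0, ρ⁻¹ fr_j)`; its determinant is `- (r / ρ) ρ⁻ᵏ dt` (expand along the row `1` or the column `0`: `Matrix.det_succ_column_zero`).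

`Ln.irel_bridge`: let `χ, c', ρ, A, q, q'` be from `IRel`: `ms c' ρ q = p + z • e = ms c' ρ q'`, so `tl q = tl q'`.  `χ', r` from `slice_chart` with `z₀ = z`, `q₀ = q`; `A' y = - (r / ρ ^ (k + 1)) * dt κ e c (z + r y.1) * A (sl y)` is a primitive of the restricted form (`slice_tc`, `IsPrim` for `χ`;
analytic: `dt` is analytic at points of norm `< s`: `L.κ_an`, `L.c_an`); the points `(0, q 0)`, `(0, q' 0)` have `sl = q, q'`.  `v' = (A' (0, q' 0) - A' (0, q 0)) / r = - dt κ e c z * v`.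
-/

set_option autoImplicit false

open Topology Filter Metric

namespace Pool.Agent.TG

open Pool.Agent.H36.BP (EN fs wd)
open Pool.Agent.H14.PP (IsCone CurveAt Tan)
open Pool.Agent.H62.EF (MN pr)
open Pool.Agent.AD (Vd Chart Charts IsGerm)

variable {N k : ℕ}

variable {X : Set (EN N)} {Λ : AddSubgroup (Vd (k + 1))} {u : EN N → Vd (k + 1)} {D B : Set (Vd (k + 1))}
  {κ : Vd (k + 1) → Vd (k + 1)} {p e : Vd (k + 1)} {c : ℂ → Vd (k + 1)} {Γ₀ : AddSubgroup ℂ} {s : ℝ}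

/-- the slice of a straight chart over the line -/
noncomputable def slc (p e c' : Vd (k + 1)) (ρ : ℝ) (z₀ : ℂ) (r : ℝ) (y : ℂ × ℂ) : Vd (k + 2) :=
  Fin.cons (α := fun _ => ℂ) y.2 ((ρ : ℂ)⁻¹ • (p + (z₀ + r * y.1) • e - c'))

private theorem Br_slc_tl (p e c' : Vd (k + 1)) (ρ : ℝ) (z₀ : ℂ) (r : ℝ) (y : ℂ × ℂ) :
    tl (slc p e c' ρ z₀ r y) = (ρ : ℂ)⁻¹ • (p + (z₀ + r * y.1) • e - c') := rfl

theorem Br_slc_ms (p e c' : Vd (k + 1)) {ρ : ℝ} (hρ : 0 < ρ) (z₀ : ℂ) (r : ℝ) (y : ℂ × ℂ) :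
    ms c' ρ (slc p e c' ρ z₀ r y) = p + (z₀ + r * y.1) • e := by
  have h1 : (ρ : ℂ) ≠ 0 := by exact_mod_cast hρ.ne'
  unfold ms
  rw [Br_slc_tl, smul_smul, mul_inv_cancel₀ h1, one_smul]
  abel

/-- two points of the model space with the same first coordinate and tail -/
private theorem Br_ext {a b : Vd (k + 2)} (h0 : a 0 = b 0) (h1 : tl a = tl b) : a = b := by
  funext i
  refine Fin.cases h0 (fun j => congrFun h1 j) i

theorem Br_slc_eq (p e c' : Vd (k + 1)) {ρ : ℝ} (hρ : 0 < ρ) (z₀ : ℂ) (r : ℝ) {y : ℂ × ℂ} {q : Vd (k + 2)}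
    (h0 : q 0 = y.2) (h1 : ms c' ρ q = p + (z₀ + r * y.1) • e) : slc p e c' ρ z₀ r y = q := by
  have h2 : (ρ : ℂ) ≠ 0 := by exact_mod_cast hρ.ne'
  refine Br_ext h0.symm ?_
  rw [Br_slc_tl, ← h1]
  unfold ms
  rw [add_sub_cancel_left, smul_smul, inv_mul_cancel₀ h2, one_smul]

/-- the linear part of `slc` -/
noncomputable def Br_slL (e : Vd (k + 1)) (ρ r : ℝ) : ℂ × ℂ →L[ℂ] Vd (k + 2) :=
  ContinuousLinearMap.pi (Fin.cons (α := fun _ => ℂ × ℂ →L[ℂ] ℂ) (ContinuousLinearMap.snd ℂ ℂ ℂ)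
    fun i : Fin (k + 1) => ((ρ : ℂ)⁻¹ * (r * e i)) • ContinuousLinearMap.fst ℂ ℂ ℂ)

theorem Br_slL_apply (e : Vd (k + 1)) (ρ r : ℝ) (w : ℂ × ℂ) :
    Br_slL e ρ r w = Fin.cons (α := fun _ => ℂ) w.2 ((ρ : ℂ)⁻¹ • ((r * w.1) • e)) := by
  funext i
  refine Fin.cases rfl (fun j => ?_) i
  show ((ρ : ℂ)⁻¹ * (r * e j)) * w.1 = (ρ : ℂ)⁻¹ * ((r * w.1) * e j)
  ring

private theorem Br_slc_affine (p e c' : Vd (k + 1)) (ρ : ℝ) (z₀ : ℂ) (r : ℝ) (y : ℂ × ℂ) :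
    slc p e c' ρ z₀ r y = Br_slL e ρ r y + slc p e c' ρ z₀ r 0 := by
  rw [Br_slL_apply]
  funext i
  refine Fin.cases ?_ (fun j => ?_) i
  · show y.2 = y.2 + 0
    ring
  · show (ρ : ℂ)⁻¹ * (p j + (z₀ + r * y.1) * e j - c' j) = (ρ : ℂ)⁻¹ * ((r * y.1) * e j) + (ρ : ℂ)⁻¹ * (p j + (z₀ + r * 0) * e j - c' j)
    ring

theorem Br_slc_deriv (p e c' : Vd (k + 1)) (ρ : ℝ) (z₀ : ℂ) (r : ℝ) (y : ℂ × ℂ) :
    HasFDerivAt (slc p e c' ρ z₀ r) (Br_slL e ρ r) y := by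
  have h1 : slc p e c' ρ z₀ r = fun y => Br_slL e ρ r y + slc p e c' ρ z₀ r 0 := funext fun y => Br_slc_affine p e c' ρ z₀ r y
  rw [h1]
  exact (Br_slL e ρ r).hasFDerivAt.add_const _

theorem Br_slc_an (p e c' : Vd (k + 1)) (ρ : ℝ) (z₀ : ℂ) (r : ℝ) (y : ℂ × ℂ) : AnalyticAt ℂ (slc p e c' ρ z₀ r) y := by
  have h1 : slc p e c' ρ z₀ r = fun y => Br_slL e ρ r y + slc p e c' ρ z₀ r 0 := funext fun y => Br_slc_affine p e c' ρ z₀ r y
  rw [h1]
  exact ((Br_slL e ρ r).analyticAt y).add analyticAt_const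

theorem Br_ball_iff (y : ℂ × ℂ) {R : ℝ} : y ∈ ball (0 : ℂ × ℂ) R ↔ ‖y.1‖ < R ∧ ‖y.2‖ < R := by
  rw [mem_ball_zero_iff, Prod.norm_def, max_lt_iff]

theorem Br_ball_iff' (q : Vd (k + 2)) : q ∈ ball (0 : Vd (k + 2)) 2 ↔ ‖q 0‖ < 2 ∧ ‖tl q‖ < 2 := by
  rw [mem_ball_zero_iff, pi_norm_lt_iff (by norm_num : (0 : ℝ) < 2), pi_norm_lt_iff (by norm_num : (0 : ℝ) < 2)]
  constructor
  · intro h
    exact ⟨h 0, fun i => h i.succ⟩
  · rintro ⟨h0, h1⟩ i
    exact Fin.cases h0 (fun j => h1 j) i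

theorem Ln.slice_chart (L : Ln X Λ u D κ p e c Γ₀ s) (χ : Chart (k + 2) X) {c' : Vd (k + 1)} {ρ : ℝ} (hs : Str Λ u χ c' ρ)
    {q₀ : Vd (k + 2)} (hq₀ : q₀ ∈ ball (0 : Vd (k + 2)) 2) {z₀ : ℂ} (hz₀ : ‖z₀‖ < s) (hq : ms c' ρ q₀ = p + z₀ • e) :
    ∃ (χ' : Pool.Agent.H14.PP.Chart (Yl X Λ u p e s)) (r : ℝ), Pool.Agent.H62.EL.Mon Γ₀ (wl Λ u p e s) χ' z₀ r 1 0 ∧
      (∀ y ∈ ball (0 : ℂ × ℂ) 2, ‖z₀ + r * y.1‖ < s ∧ slc p e c' ρ z₀ r y ∈ ball (0 : Vd (k + 2)) 2 ∧ χ'.σ y = χ.σ (slc p e c' ρ z₀ r y)) ∧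
      ∀ x ∈ Yl X Λ u p e s, x ∈ χ.U → wl Λ u p e s x = z₀ → ms c' ρ (χ.q x) = p + z₀ • e → x ∈ χ'.U ∧ χ'.q x = (0, χ.q x 0) := by
  obtain ⟨i, hi⟩ : ∃ i, e i ≠ 0 := Function.ne_iff.1 L.e_ne
  have he : 0 < ‖e‖ := norm_pos_iff.2 L.e_ne
  have hρ := hs.pos
  have hρ0 : (ρ : ℂ) ≠ 0 := by exact_mod_cast hρ.ne'
  have hspos := L.pos
  have htq : 0 < 2 - ‖tl q₀‖ := by
    have := ((Br_ball_iff' q₀).1 hq₀).2
    linarith
  obtain ⟨r, hr0, hr1, hr2⟩ : ∃ r : ℝ, 0 < r ∧ 2 * r ≤ s - ‖z₀‖ ∧ 2 * r * ‖e‖ ≤ (2 - ‖tl q₀‖) * ρ := by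
    refine ⟨min ((s - ‖z₀‖) / 2) ((2 - ‖tl q₀‖) * ρ / (2 * ‖e‖)), ?_, ?_, ?_⟩
    · refine lt_min (by linarith) (by positivity)
    · have := min_le_left ((s - ‖z₀‖) / 2) ((2 - ‖tl q₀‖) * ρ / (2 * ‖e‖))
      linarith
    · have h1 := min_le_right ((s - ‖z₀‖) / 2) ((2 - ‖tl q₀‖) * ρ / (2 * ‖e‖))
      rw [le_div_iff₀ (by positivity)] at h1
      linarith
  have hr0' : (r : ℂ) ≠ 0 := by exact_mod_cast hr0.ne'
  -- the points of the line
  have hz : ∀ y : ℂ × ℂ, ‖y.1‖ < 2 → ‖z₀ + r * y.1‖ < s := by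
    intro y hy
    have h1 : ‖(r : ℂ) * y.1‖ < r * 2 := by
      rw [norm_mul, Complex.norm_real, Real.norm_eq_abs, abs_of_pos hr0]
      exact mul_lt_mul_of_pos_left hy hr0
    have h2 := norm_add_le z₀ ((r : ℂ) * y.1)
    linarith
  have htl0 : (ρ : ℂ) • tl q₀ = p + z₀ • e - c' := by
    rw [← hq]
    unfold ms
    abel
  have htl : ∀ y : ℂ × ℂ, tl (slc p e c' ρ z₀ r y) - tl q₀ = (ρ : ℂ)⁻¹ • ((r * y.1) • e) := by
    intro y
    have h1 : tl q₀ = (ρ : ℂ)⁻¹ • (p + z₀ • e - c') := by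
      rw [← htl0, smul_smul, inv_mul_cancel₀ hρ0, one_smul]
    rw [Br_slc_tl, h1, ← smul_sub]
    congr 1
    rw [add_smul]
    abel
  have htln : ∀ y : ℂ × ℂ, ‖y.1‖ < 2 → ‖tl (slc p e c' ρ z₀ r y) - tl q₀‖ < ρ⁻¹ * (2 * r * ‖e‖) := by
    intro y hy
    rw [htl y, norm_smul, norm_smul, norm_mul, norm_inv, Complex.norm_real, Complex.norm_real, Real.norm_eq_abs, Real.norm_eq_abs,
      abs_of_pos hρ, abs_of_pos hr0]
    refine mul_lt_mul_of_pos_left ?_ (inv_pos.2 hρ)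
    refine mul_lt_mul_of_pos_right ?_ he
    have := mul_lt_mul_of_pos_left hy hr0
    linarith
  have hsl : ∀ y ∈ ball (0 : ℂ × ℂ) 2, slc p e c' ρ z₀ r y ∈ ball (0 : Vd (k + 2)) 2 := by
    intro y hy
    rw [Br_ball_iff] at hy
    rw [Br_ball_iff']
    refine ⟨hy.2, ?_⟩
    have h1 := htln y hy.1
    have h2 : ρ⁻¹ * (2 * r * ‖e‖) ≤ 2 - ‖tl q₀‖ := by
      rw [inv_mul_le_iff₀ hρ]
      linarith
    have h3 : tl (slc p e c' ρ z₀ r y) = (tl (slc p e c' ρ z₀ r y) - tl q₀) + tl q₀ := by abel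
    rw [h3]
    have := norm_add_le (tl (slc p e c' ρ z₀ r y) - tl q₀) (tl q₀)
    linarith
  have hmem : ∀ y ∈ ball (0 : ℂ × ℂ) 2, χ.σ (slc p e c' ρ z₀ r y) ∈ Yl X Λ u p e s ∧
      u (χ.σ (slc p e c' ρ z₀ r y)) - (p + (z₀ + r * y.1) • e) ∈ Λ := by
    intro y hy
    have h1 := hs.lift _ (hsl y hy)
    rw [Br_slc_ms p e c' hρ] at h1
    exact ⟨⟨(χ.σ_mem _ (hsl y hy)).1, z₀ + r * y.1, (hz y ((Br_ball_iff y).1 hy).1).le, h1⟩, h1⟩
  -- the first coordinate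
  set g : EN N → ℂ := fun x => ((ms c' ρ (χ.q x) - p) i / e i - z₀) / r with hg
  have hgan : ∀ x ∈ χ.U, AnalyticAt ℂ g x := by
    intro x hx
    have h1 : AnalyticAt ℂ (fun x => ms c' ρ (χ.q x) - p) x := by
      have h2 : AnalyticAt ℂ (fun x => ms c' ρ (χ.q x)) x := by
        have h3 : AnalyticAt ℂ (ms (k := k) c' ρ) (χ.q x) := by
          exact analyticAt_const.add (((ρ : ℂ) • tlL (k := k)).analyticAt _)
        exact h3.fun_comp (χ.q_an x hx)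
      exact h2.sub analyticAt_const
    have h4 : AnalyticAt ℂ (fun x => (ms c' ρ (χ.q x) - p) i) x :=
      ((ContinuousLinearMap.proj (R := ℂ) (φ := fun _ : Fin (k + 1) => ℂ) i).analyticAt _).fun_comp h1
    exact ((h4.div analyticAt_const hi).sub analyticAt_const).div analyticAt_const hr0'
  have hgval : ∀ x : EN N, ∀ w : ℂ, ms c' ρ (χ.q x) = p + (z₀ + r * w) • e → g x = w := by
    intro x w h
    show ((ms c' ρ (χ.q x) - p) i / e i - z₀) / r = w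
    rw [h, add_sub_cancel_left, Pi.smul_apply, smul_eq_mul, mul_div_cancel_right₀ _ hi, add_sub_cancel_left, mul_div_cancel_left₀ _ hr0']
  -- the coordinates are on the line
  have hline : ∀ x ∈ Yl X Λ u p e s, x ∈ χ.U → ‖tl (χ.q x) - tl q₀‖ < ρ⁻¹ * (s * ‖e‖) →
      ms c' ρ (χ.q x) = p + wl Λ u p e s x • e := by
    intro x hx hU hn
    have h1 := Ln.wl_spec hx
    obtain ⟨hb, a, ha, hxa⟩ := χ.surj x hx.1 hU
    have h2 := hs.lift _ hb
    have h3 : u x - u (χ.σ (χ.q x)) ∈ Λ := by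
      have h4 := L.tor.smul _ (χ.σ_mem _ hb).1 a ha
      rwa [← hxa] at h4
    have h5 : ms c' ρ (χ.q x) - (p + wl Λ u p e s x • e) ∈ Λ := by
      have h6 : ms c' ρ (χ.q x) - (p + wl Λ u p e s x • e) =
          (u x - (p + wl Λ u p e s x • e)) - (u x - u (χ.σ (χ.q x))) - (u (χ.σ (χ.q x)) - ms c' ρ (χ.q x)) := by abel
      rw [h6]
      exact Λ.sub_mem (Λ.sub_mem h1.2 h3) h2
    refine sub_eq_zero.1 (L.small _ h5 ?_)
    have h7 : ms c' ρ (χ.q x) - (p + wl Λ u p e s x • e) = (ρ : ℂ) • (tl (χ.q x) - tl q₀) + (z₀ - wl Λ u p e s x) • e := by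
      unfold ms
      rw [smul_sub, htl0, sub_smul]
      abel
    rw [h7]
    refine (norm_add_le _ _).trans ?_
    rw [norm_smul, norm_smul, Complex.norm_real, Real.norm_eq_abs, abs_of_pos hρ]
    have h8 : ‖z₀ - wl Λ u p e s x‖ ≤ s + s := (norm_sub_le _ _).trans (add_le_add hz₀.le h1.1)
    have h9 := mul_le_mul_of_nonneg_right h8 (norm_nonneg e)
    have h10 : ρ * ‖tl (χ.q x) - tl q₀‖ ≤ s * ‖e‖ := by
      have h11 := mul_le_mul_of_nonneg_left hn.le hρ.le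
      rwa [← mul_assoc, mul_inv_cancel₀ hρ.ne', one_mul] at h11
    linarith [mul_nonneg hspos.le (norm_nonneg e)]
  have hqc : ∀ x ∈ χ.U, ContinuousAt (fun x => ‖tl (χ.q x) - tl q₀‖) x := by
    intro x hx
    have h1 : ContinuousAt (fun x => tl (χ.q x)) x :=
      (tlL (k := k)).continuous.continuousAt.comp (χ.q_an x hx).continuousAt
    exact (h1.sub continuousAt_const).norm
  let χ' : Pool.Agent.H14.PP.Chart (Yl X Λ u p e s) :=
    { σ := fun y => χ.σ (slc p e c' ρ z₀ r y)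
      U := {x | x ∈ χ.U ∧ ‖tl (χ.q x) - tl q₀‖ < ρ⁻¹ * (s * ‖e‖) ∧ ‖g x‖ < 2}
      q := fun x => (g x, χ.q x 0)
      isOpen_U := by
        rw [isOpen_iff_mem_nhds]
        rintro x ⟨h1, h2, h3⟩
        filter_upwards [χ.isOpen_U.mem_nhds h1, (hqc x h1).eventually_lt continuousAt_const h2,
          (hgan x h1).continuousAt.norm.eventually_lt continuousAt_const h3] with x' h4 h5 h6
        exact ⟨h4, h5, h6⟩
      smul_U := by
        rintro x ⟨h1, h2, h3⟩ a ha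
        have h4 := χ.q_smul x h1 a ha
        refine ⟨χ.smul_U x h1 a ha, ?_, ?_⟩
        · rw [h4]
          exact h2
        · have h5 : g (a • x) = g x := by
            show ((ms c' ρ (χ.q (a • x)) - p) i / e i - z₀) / r = ((ms c' ρ (χ.q x) - p) i / e i - z₀) / r
            rw [h4]
          rw [h5]
          exact h3
      σ_an := fun y hy => (χ.σ_an _ (hsl y hy)).fun_comp (Br_slc_an p e c' ρ z₀ r y)
      q_an := fun x hx => (hgan x hx.1).prod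
        (((ContinuousLinearMap.proj (R := ℂ) (φ := fun _ : Fin (k + 2) => ℂ) 0).analyticAt _).fun_comp (χ.q_an x hx.1))
      q_smul := by
        rintro x ⟨h1, h2, h3⟩ a ha
        have h4 := χ.q_smul x h1 a ha
        show (((ms c' ρ (χ.q (a • x)) - p) i / e i - z₀) / r, χ.q (a • x) 0) = (((ms c' ρ (χ.q x) - p) i / e i - z₀) / r, χ.q x 0)
        rw [h4]
      σ_mem := by
        intro y hy
        have h1 := χ.σ_mem _ (hsl y hy)
        have hy' := (Br_ball_iff y).1 hy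
        have h2 : g (χ.σ (slc p e c' ρ z₀ r y)) = y.1 := by
          refine hgval _ _ ?_
          rw [h1.2.2]
          exact Br_slc_ms p e c' hρ z₀ r y
        refine ⟨(hmem y hy).1, ⟨h1.2.1, ?_, ?_⟩, ?_⟩
        · rw [h1.2.2]
          refine (htln y hy'.1).trans_le ?_
          refine mul_le_mul_of_nonneg_left ?_ (inv_pos.2 hρ).le
          refine mul_le_mul_of_nonneg_right ?_ (norm_nonneg e)
          linarith [norm_nonneg z₀]
        · rw [h2]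
          exact hy'.1
        · show (g (χ.σ (slc p e c' ρ z₀ r y)), χ.q (χ.σ (slc p e c' ρ z₀ r y)) 0) = y
          rw [h2, h1.2.2]
          rfl
      surj := by
        rintro x hx ⟨hU, h2, h3⟩
        obtain ⟨hb, a, ha, hxa⟩ := χ.surj x hx.1 hU
        have hb' := (Br_ball_iff' _).1 hb
        have h4 := hline x hx hU h2
        have h5 : ms c' ρ (χ.q x) = p + (z₀ + r * g x) • e := by
          have h6 : z₀ + r * g x = wl Λ u p e s x := by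
            show z₀ + r * (((ms c' ρ (χ.q x) - p) i / e i - z₀) / r) = wl Λ u p e s x
            rw [mul_div_cancel₀ _ hr0', h4, add_sub_cancel_left, Pi.smul_apply, smul_eq_mul, mul_div_cancel_right₀ _ hi]
            ring
          rw [h6]
          exact h4
        refine ⟨(Br_ball_iff _).2 ⟨h3, hb'.1⟩, a, ha, ?_⟩
        show x = a • χ.σ (slc p e c' ρ z₀ r (g x, χ.q x 0))
        rw [Br_slc_eq p e c' hρ z₀ r (y := (g x, χ.q x 0)) rfl h5]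
        exact hxa }
  refine ⟨χ', r, ⟨hr0, by norm_num, ?_⟩, ?_, ?_⟩
  · intro y hy
    have h1 : wl Λ u p e s (χ.σ (slc p e c' ρ z₀ r y)) = z₀ + r * y.1 :=
      L.wl_eq (hz y ((Br_ball_iff y).1 hy).1).le (hmem y hy).2
    show wl Λ u p e s (χ.σ (slc p e c' ρ z₀ r y)) - Pool.Agent.H62.EL.mo z₀ r 1 0 y ∈ Γ₀
    rw [h1]
    unfold Pool.Agent.H62.EL.mo
    rw [pow_one, pow_zero, mul_one, sub_self]
    exact Γ₀.zero_mem
  · intro y hy
    exact ⟨hz y ((Br_ball_iff y).1 hy).1, hsl y hy, rfl⟩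
  · intro x hx hU hw hms
    have h1 : tl (χ.q x) - tl q₀ = 0 := by
      have h2 : (ρ : ℂ) • (tl (χ.q x) - tl q₀) = 0 := by
        rw [smul_sub, htl0]
        have h3 : (ρ : ℂ) • tl (χ.q x) = p + z₀ • e - c' := by
          rw [← hms]
          unfold ms
          abel
        rw [h3, sub_self]
      exact (smul_eq_zero.1 h2).resolve_left hρ0
    have h2 : g x = 0 := by
      refine hgval x 0 ?_
      rw [mul_zero, add_zero]
      exact hms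
    refine ⟨⟨hU, ?_, ?_⟩, ?_⟩
    · rw [h1, norm_zero]
      positivity
    · rw [h2, norm_zero]
      norm_num
    · show (g x, χ.q x 0) = (0, χ.q x 0)
      rw [h2]

/-- the first column is zero except in the row `1` -/
theorem Br_det {a b : ℂ} {v : Vd (k + 1)} {w : Fin k → Vd (k + 1)} :
    (Matrix.of fun i j => (Fin.cons (Fin.cons (α := fun _ => ℂ) 0 ((a * b) • v)) (Fin.cons (Pi.single 0 1)
      fun l => Fin.cons (α := fun _ => ℂ) 0 (b • w l)) : Fin (k + 2) → Vd (k + 2)) i j).det =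
      -(a * b ^ (k + 1)) * (Matrix.of fun i j => (Fin.cons v w : Fin (k + 1) → Vd (k + 1)) i j).det := by
  rw [Matrix.det_succ_column_zero]
  rw [Fin.sum_univ_succ, Fin.sum_univ_succ]
  have h0 : ∀ x : Fin k, (Matrix.of fun i j => (Fin.cons (Fin.cons (α := fun _ => ℂ) 0 ((a * b) • v)) (Fin.cons (Pi.single 0 1)
      fun l => Fin.cons (α := fun _ => ℂ) 0 (b • w l)) : Fin (k + 2) → Vd (k + 2)) i j) x.succ.succ 0 = 0 := fun x => rfl
  have h1 : (Matrix.of fun i j => (Fin.cons (Fin.cons (α := fun _ => ℂ) 0 ((a * b) • v)) (Fin.cons (Pi.single 0 1)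
      fun l => Fin.cons (α := fun _ => ℂ) 0 (b • w l)) : Fin (k + 2) → Vd (k + 2)) i j) 0 0 = 0 := rfl
  have h2 : (Matrix.of fun i j => (Fin.cons (Fin.cons (α := fun _ => ℂ) 0 ((a * b) • v)) (Fin.cons (Pi.single 0 1)
      fun l => Fin.cons (α := fun _ => ℂ) 0 (b • w l)) : Fin (k + 2) → Vd (k + 2)) i j) (Fin.succ 0) 0 = 1 := by
    show (Pi.single 0 1 : Vd (k + 2)) 0 = 1
    exact Pi.single_eq_same _ _
  rw [h1, h2, Finset.sum_eq_zero (fun x _ => by rw [h0 x]; ring)]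
  have h3 : (Matrix.of fun i j => (Fin.cons (Fin.cons (α := fun _ => ℂ) 0 ((a * b) • v)) (Fin.cons (Pi.single 0 1)
      fun l => Fin.cons (α := fun _ => ℂ) 0 (b • w l)) : Fin (k + 2) → Vd (k + 2)) i j).submatrix (Fin.succ 0).succAbove Fin.succ =
      Matrix.of fun i j => (Fin.cons (a * b) fun _ => b : Fin (k + 1) → ℂ) i * (Matrix.of fun i j => (Fin.cons v w : Fin (k + 1) → Vd (k + 1)) i j) i j := by
    funext i j
    refine Fin.cases ?_ (fun l => ?_) i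
    · rfl
    · rfl
  rw [h3, Matrix.det_mul_column, Fin.prod_univ_succ]
  simp only [Fin.cons_zero, Fin.cons_succ, Finset.prod_const, Finset.card_univ, Fintype.card_fin]
  simp only [Fin.val_zero, Fin.succ_zero_eq_one, Fin.val_one]
  ring

theorem Br_dt_an (L : Ln X Λ u D κ p e c Γ₀ s) {z : ℂ} (hz : ‖z‖ ≤ s) : AnalyticAt ℂ (dt κ e c) z := by
  have hz' : z ∈ closedBall (0 : ℂ) s := by
    rw [mem_closedBall_zero_iff]
    exact hz
  have hc := L.c_an z hz'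
  have hκ := L.κ_an z hz'
  have hf : ∀ j : Fin k, AnalyticAt ℂ (fun z => fr κ c z j) z := by
    intro j
    have h1 : AnalyticAt ℂ (fun z => fderiv ℂ κ (c z)) z := hκ.fderiv.fun_comp hc
    exact ((ContinuousLinearMap.apply ℂ (Vd (k + 1)) (Pi.single j.succ 1 : Vd (k + 1))).analyticAt _).fun_comp h1
  have hrow : ∀ i j : Fin (k + 1), AnalyticAt ℂ (fun z => (Fin.cons e (fr κ c z) : Fin (k + 1) → Vd (k + 1)) i j) z := by
    intro i j
    refine Fin.cases ?_ (fun l => ?_) i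
    · exact analyticAt_const
    · exact ((ContinuousLinearMap.proj (R := ℂ) (φ := fun _ : Fin (k + 1) => ℂ) j).analyticAt _).fun_comp (hf l)
  have h2 : dt κ e c = fun z => ∑ σ : Equiv.Perm (Fin (k + 1)), (Equiv.Perm.sign σ : ℂ) *
      ∏ i, (Fin.cons e (fr κ c z) : Fin (k + 1) → Vd (k + 1)) (σ i) i := by
    funext z
    unfold dt
    rw [Matrix.det_apply']
    rfl
  rw [h2]
  refine Finset.analyticAt_fun_sum _ fun σ _ => analyticAt_const.mul ?_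
  exact Finset.analyticAt_fun_prod _ fun i _ => hrow _ _

end Pool.Agent.TG

end

section

/-!
# TG Un: the integral along short paths in the fibres

Port of `Pool/Agent/H62/EL/Un.lean` (`EL.IRel.eq_cap`, `EL.II_eq`; the coordinate along the fibres is now the coordinate `0`, those of the base are `tl p`).

`IRel.eq_cap`: let `χ', c', ρ', A', p, p'` be from `IRel`; `v = (A' p' - A' p) / ρ' ^ (k + 1)`.  On `p_θ = p + θ (p' - p)`, `θ ∈ [0, 1]`, `tl p_θ` is constant, `χ'.σ p_θ` is over `y` and within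
`r` of `m₀`, so in `χ.U`, and with `τ = χ.q ∘ χ'.σ`: `ms c ρ (τ p_θ) = y`; near `p_θ` even `ms c ρ (τ q) = ms c' ρ' q` (both sides are analytic, equal at `p_θ`, and the difference is in the
discrete group `Λ`).  So `ρ ∂_(j+1) τ_(i+1) = ρ' δ_ij`, `∂_0 τ_(i+1) = 0` at `p_θ`: `det Dτ = ∂_0 τ_0 * (ρ' / ρ) ^ (k + 1)` (expand along the column / row `0`: `Matrix.det_succ_column_zero` or
`Matrix.det_succ_row_zero`, and the minor is `(ρ' / ρ) • 1`), and by `tc_trans` (`υ = ms c ρ`, `υ' = ms c' ρ'`) `tc' (p_θ) / ρ' ^ (k + 1) = tc (τ p_θ) ∂_0 τ_0 / ρ ^ (k + 1)`.  Hence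
`θ ↦ A' (p_θ) / ρ' ^ (k + 1)` and `θ ↦ A (τ p_θ) / ρ ^ (k + 1)` have the same derivative.  `τ p = χ.q x`: `χ'.σ p` and `x` are proportional (`pr_eq_iff`, `q_smul`).
-/

set_option autoImplicit false

open Topology Filter Metric

namespace Pool.Agent.TG

open Pool.Agent.H36.BP (EN fs wd)
open Pool.Agent.H14.PP (IsCone CurveAt Tan)
open Pool.Agent.H62.EF (MN pr)
open Pool.Agent.AD (Vd Chart Charts IsGerm)

variable {N k : ℕ}

variable {X : Set (EN N)} {Λ : AddSubgroup (Vd (k + 1))} {u : EN N → Vd (k + 1)}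

/-- The change of charts along the segment. -/
theorem str_trans (hX : IsCone X) (hu : TMap X Λ u) (hΛ : Lat Λ) {χ χ' : Chart (k + 2) X} {c c' : Vd (k + 1)} {ρ ρ' : ℝ}
    (hm : Str Λ u χ c ρ) (hm' : Str Λ u χ' c' ρ') {q : Vd (k + 2)} (hq : q ∈ ball (0 : Vd (k + 2)) 2) (hU : χ'.σ q ∈ χ.U)
    (he : ms c ρ (χ.q (χ'.σ q)) = ms c' ρ' q) : ∀ᶠ y in 𝓝 q, ms c ρ (χ.q (χ'.σ y)) = ms c' ρ' y := by
  obtain ⟨δ, hδ, hdisc⟩ := hΛ.disc
  have hσ : ContinuousAt χ'.σ q := (χ'.σ_an q hq).continuousAt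
  have hτ : ContinuousAt (fun y => χ.q (χ'.σ y)) q := (χ.q_an _ hU).continuousAt.comp hσ
  have hτ1 : ContinuousAt (fun y => ms c ρ (χ.q (χ'.σ y))) q :=
    ContinuousAt.comp (g := ms c ρ) (f := fun y => χ.q (χ'.σ y)) (ms_an c ρ _).continuousAt hτ
  have hcont : ContinuousAt (fun y : Vd (k + 2) => ms c ρ (χ.q (χ'.σ y)) - ms c' ρ' y) q := hτ1.sub (ms_an c' ρ' q).continuousAt
  have hsmall : ∀ᶠ y in 𝓝 q, ‖ms c ρ (χ.q (χ'.σ y)) - ms c' ρ' y‖ < δ := by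
    have h1 := hcont.norm
    have h2 : ‖ms c ρ (χ.q (χ'.σ q)) - ms c' ρ' q‖ < δ := by
      rw [he, sub_self, norm_zero]
      exact hδ
    exact h1.eventually_lt_const h2
  filter_upwards [hsmall, isOpen_ball.mem_nhds hq, hσ (χ.isOpen_U.mem_nhds hU)] with y h1 h2 h3
  have hyX := (χ'.σ_mem y h2).1
  obtain ⟨hb, a, ha, hay⟩ := χ.surj _ hyX h3
  have h4 := hm'.lift y h2
  have h5 := hm.lift _ hb
  have h6 : u (χ'.σ y) - u (χ.σ (χ.q (χ'.σ y))) ∈ Λ := by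
    have := hu.smul _ (χ.σ_mem _ hb).1 a ha
    rwa [← hay] at this
  have h7 : ms c ρ (χ.q (χ'.σ y)) - ms c' ρ' y ∈ Λ := by
    have h8 := Λ.sub_mem (Λ.sub_mem h4 h6) h5
    convert h8 using 1
    abel
  exact sub_eq_zero.mp (hdisc _ h7 h1)

/-- the derivative of the change of straight charts -/
theorem str_deriv (hX : IsCone X) (hu : TMap X Λ u) (hΛ : Lat Λ) {χ χ' : Chart (k + 2) X} {c c' : Vd (k + 1)} {ρ ρ' : ℝ}
    (hm : Str Λ u χ c ρ) (hm' : Str Λ u χ' c' ρ') {q : Vd (k + 2)} (hq : q ∈ ball (0 : Vd (k + 2)) 2) (hU : χ'.σ q ∈ χ.U)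
    (he : ms c ρ (χ.q (χ'.σ q)) = ms c' ρ' q) (w : Vd (k + 2)) :
    (ρ : ℂ) • tl (fderiv ℂ (fun y => χ.q (χ'.σ y)) q w) = (ρ' : ℂ) • tl w := by
  have hτ : HasFDerivAt (fun y => χ.q (χ'.σ y)) (fderiv ℂ (fun y => χ.q (χ'.σ y)) q) q :=
    ((χ.q_an _ hU).differentiableAt.comp q (χ'.σ_an q hq).differentiableAt).hasFDerivAt
  have h1 := str_trans hX hu hΛ hm hm' hq hU he
  have h2 : HasFDerivAt (fun y : Vd (k + 2) => ms c ρ (χ.q (χ'.σ y)))
      ((ρ : ℂ) • (tlL.comp (fderiv ℂ (fun y => χ.q (χ'.σ y)) q))) q := by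
    have h3 : HasFDerivAt (fun y => tlL (χ.q (χ'.σ y))) (tlL.comp (fderiv ℂ (fun y => χ.q (χ'.σ y)) q)) q :=
      tlL.hasFDerivAt.comp q hτ
    exact (h3.const_smul (ρ : ℂ)).const_add c
  have h4 : HasFDerivAt (ms c' ρ') ((ρ' : ℂ) • (tlL : Vd (k + 2) →L[ℂ] Vd (k + 1))) q := by
    have h3 : HasFDerivAt (fun y : Vd (k + 2) => tlL y) tlL q := tlL.hasFDerivAt
    exact (h3.const_smul (ρ' : ℂ)).const_add c'
  have h5 : HasFDerivAt (fun y : Vd (k + 2) => ms c ρ (χ.q (χ'.σ y))) ((ρ' : ℂ) • (tlL : Vd (k + 2) →L[ℂ] Vd (k + 1))) q :=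
    h4.congr_of_eventuallyEq h1
  have h6 := h2.unique h5
  exact congrArg (fun L : Vd (k + 2) →L[ℂ] Vd (k + 1) => L w) h6

/-- the Jacobian determinant of the change of straight charts -/
theorem str_jc (hX : IsCone X) (hu : TMap X Λ u) (hΛ : Lat Λ) {χ χ' : Chart (k + 2) X} {c c' : Vd (k + 1)} {ρ ρ' : ℝ}
    (hm : Str Λ u χ c ρ) (hm' : Str Λ u χ' c' ρ') {q : Vd (k + 2)} (hq : q ∈ ball (0 : Vd (k + 2)) 2) (hU : χ'.σ q ∈ χ.U)
    (he : ms c ρ (χ.q (χ'.σ q)) = ms c' ρ' q) :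
    (fderiv ℂ (fun y => χ.q (χ'.σ y)) q).det = fderiv ℂ (fun y => χ.q (χ'.σ y)) q (Pi.single 0 1) 0 * ((ρ' : ℂ) / ρ) ^ (k + 1) := by
  have hρ : (ρ : ℂ) ≠ 0 := by exact_mod_cast hm.pos.ne'
  have hd := str_deriv hX hu hΛ hm hm' hq hU he
  set L := fderiv ℂ (fun y => χ.q (χ'.σ y)) q with hL
  have h0 : ∀ i j : Fin (k + 1), L (Pi.single i.succ 1) j.succ = if i = j then (ρ' : ℂ) / ρ else 0 := by
    intro i j
    have h1 := congrFun (hd (Pi.single i.succ 1)) j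
    have h2 : (ρ : ℂ) * L (Pi.single i.succ 1) j.succ = ρ' * (Pi.single i.succ (1 : ℂ) : Vd (k + 2)) j.succ := h1
    rw [Pi.single_apply] at h2
    simp only [Fin.succ_inj] at h2
    by_cases hij : i = j
    · rw [if_pos hij] at *
      rw [if_pos hij.symm, mul_one] at h2
      rw [eq_div_iff hρ, mul_comm]
      exact h2
    · rw [if_neg hij]
      rw [if_neg (Ne.symm hij), mul_zero] at h2
      exact (mul_eq_zero.mp h2).resolve_left hρ
  have h00 : ∀ j : Fin (k + 1), L (Pi.single 0 1) j.succ = 0 := by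
    intro j
    have h1 := congrFun (hd (Pi.single 0 1)) j
    have h2 : (ρ : ℂ) * L (Pi.single 0 1) j.succ = ρ' * (Pi.single 0 (1 : ℂ) : Vd (k + 2)) j.succ := h1
    rw [Pi.single_apply, if_neg (Fin.succ_ne_zero j), mul_zero] at h2
    exact (mul_eq_zero.mp h2).resolve_left hρ
  rw [ContinuousLinearMap.det, ← LinearMap.det_toMatrix', ← Matrix.det_transpose]
  have hM : Matrix.transpose (LinearMap.toMatrix' (L : Vd (k + 2) →ₗ[ℂ] Vd (k + 2))) = Matrix.of fun i j : Fin (k + 2) => L (Pi.single i 1) j := rfl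
  rw [hM, Matrix.det_succ_row_zero, Fin.sum_univ_succ]
  have h1 : ∀ j : Fin (k + 1), (Matrix.of fun i j : Fin (k + 2) => L (Pi.single i 1) j) 0 j.succ = 0 := fun j => h00 j
  have h2 : (Matrix.of fun i j : Fin (k + 2) => L (Pi.single i 1) j).submatrix Fin.succ (Fin.succAbove 0) = ((ρ' : ℂ) / ρ) • (1 : Matrix (Fin (k + 1)) (Fin (k + 1)) ℂ) := by
    ext i j
    rw [Matrix.submatrix_apply, Matrix.smul_apply, Matrix.one_apply, Fin.succAbove_zero, Matrix.of_apply, h0, smul_eq_mul]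
    split_ifs <;> simp
  rw [h2, Finset.sum_eq_zero fun j _ => by rw [h1 j, mul_zero, zero_mul], add_zero, Matrix.det_smul, Matrix.det_one, Fintype.card_fin, mul_one,
    Fin.val_zero, pow_zero, one_mul]
  rfl

/-- The derivatives of the two primitives agree. -/
theorem prim_deriv (hX : IsCone X) (hu : TMap X Λ u) (hΛ : Lat Λ) (α : VForm X Λ u) {χ χ' : Chart (k + 2) X} {c c' : Vd (k + 1)} {ρ ρ' : ℝ}
    (hm : Str Λ u χ c ρ) (hm' : Str Λ u χ' c' ρ') {A A' : Vd (k + 2) → ℂ} (hA : IsPrim α χ (ms c ρ) A)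
    (hA' : IsPrim α χ' (ms c' ρ') A') {q : Vd (k + 2)} (hq : q ∈ ball (0 : Vd (k + 2)) 2) (hU : χ'.σ q ∈ χ.U)
    (he : ms c ρ (χ.q (χ'.σ q)) = ms c' ρ' q) {d : Vd (k + 2)} (hd : tl d = 0) :
    HasFDerivAt (fun y => A (χ.q (χ'.σ y))) (fderiv ℂ (fun y => A (χ.q (χ'.σ y))) q) q ∧
      fderiv ℂ A' q d / (ρ' : ℂ) ^ (k + 1) = fderiv ℂ (fun y => A (χ.q (χ'.σ y))) q d / (ρ : ℂ) ^ (k + 1) := by
  have hρ : (ρ : ℂ) ≠ 0 := by exact_mod_cast hm.pos.ne'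
  have hρ' : (ρ' : ℂ) ≠ 0 := by exact_mod_cast hm'.pos.ne'
  have hb : χ.q (χ'.σ q) ∈ ball (0 : Vd (k + 2)) 2 := (χ.surj _ (χ'.σ_mem q hq).1 hU).1
  have hτ : HasFDerivAt (fun y => χ.q (χ'.σ y)) (fderiv ℂ (fun y => χ.q (χ'.σ y)) q) q :=
    ((χ.q_an _ hU).differentiableAt.comp q (χ'.σ_an q hq).differentiableAt).hasFDerivAt
  have hAd : HasFDerivAt A (fderiv ℂ A (χ.q (χ'.σ q))) (χ.q (χ'.σ q)) := (hA.an _ hb).differentiableAt.hasFDerivAt
  have hcomp : HasFDerivAt (fun y => A (χ.q (χ'.σ y))) ((fderiv ℂ A (χ.q (χ'.σ q))).comp (fderiv ℂ (fun y => χ.q (χ'.σ y)) q)) q :=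
    hAd.comp q hτ
  have hdd := str_deriv hX hu hΛ hm hm' hq hU he
  have hj := str_jc hX hu hΛ hm hm' hq hU he
  have htc := tc_trans hX hu α χ χ' (υ := ms c ρ) (υ' := ms c' ρ') hq hU (hm'.lift q hq) he
  rw [hj] at htc
  set L := fderiv ℂ (fun y => χ.q (χ'.σ y)) q with hL
  have hLv : ∀ w : Vd (k + 2), tl w = 0 → tl (L w) = 0 := by
    intro w hw
    have h1 := hdd w
    rw [hw, smul_zero] at h1
    exact (smul_eq_zero.mp h1).resolve_left hρ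
  refine ⟨by rw [hcomp.fderiv]; exact hcomp, ?_⟩
  have h1 : L d 0 = d 0 * L (Pi.single 0 1) 0 := by
    rw [lin_vert L hd]
    rfl
  rw [hcomp.fderiv, ContinuousLinearMap.comp_apply, lin_vert _ (hLv d hd), hA.der _ hb, h1, lin_vert _ hd, hA'.der _ hq, htc, smul_eq_mul, smul_eq_mul, div_pow]
  field_simp

theorem IRel.eq_cap (hX : IsCone X) (hu : TMap X Λ u) (hΛ : Lat Λ) {α : VForm X Λ u} {ε : ℝ} {y : Vd (k + 1)} {v : ℂ} {m m' : MN N}
    (h : IRel α ε y m m' v) {χ : Chart (k + 2) X} {c : Vd (k + 1)} {ρ : ℝ} {y₀ : Vd (k + 1)} {m₀ : MN N} {r : ℝ} (hc : Cap Λ u χ c ρ y₀ m₀ r)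
    {A : Vd (k + 2) → ℂ} (hA : IsPrim α χ (ms c ρ) A) (hy : y ∈ closedBall y₀ r) (hm : dist m m₀ + ε ≤ r) {x x' : EN N}
    (hx : x ∈ X) (hx' : x' ∈ X) (hxm : pr x = m) (hxm' : pr x' = m') : v = (A (χ.q x') - A (χ.q x)) / (ρ : ℂ) ^ (k + 1) := by
  obtain ⟨χ', c', ρ', A', p, p', hm', hA', hp, hp', hpz, hpz', hpy, hpy', hseg, hv⟩ := h
  have hst := hc.str
  have hρ : (ρ : ℂ) ≠ 0 := by exact_mod_cast hst.pos.ne'
  have hρ' : (ρ' : ℂ) ≠ 0 := by exact_mod_cast hm'.pos.ne'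
  have hd : tl (p' - p) = 0 := by
    have h1 : c' + (ρ' : ℂ) • tl p' = c' + (ρ' : ℂ) • tl p := hpz'.trans hpz.symm
    have h2 := smul_right_injective _ hρ' (add_left_cancel h1)
    rw [tl_sub]
    exact sub_eq_zero.2 h2
  have hP1 : ∀ t : ℂ, tl (un_P p p' t) = tl p := by
    intro t
    have h1 : tl (un_P p p' t) = tl p + t • tl (p' - p) := rfl
    rw [h1, hd, smul_zero, add_zero]
  have hms : ∀ t : ℂ, ms c' ρ' (un_P p p' t) = y := by
    intro t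
    show c' + (ρ' : ℂ) • tl (un_P p p' t) = y
    rw [hP1]
    exact hpz
  have hcap : ∀ θ ∈ Set.Icc (0 : ℝ) 1, χ'.σ (un_P p p' (θ : ℂ)) ∈ χ.U ∧
      ms c ρ (χ.q (χ'.σ (un_P p p' (θ : ℂ)))) = ms c' ρ' (un_P p p' (θ : ℂ)) := by
    intro θ hθ
    have hb := un_P_mem hp hp' hθ
    have h1 : u (χ'.σ (un_P p p' (θ : ℂ))) - y ∈ Λ := by
      have h2 := hm'.lift _ hb
      rwa [hms] at h2
    have h2 : dist (pr (χ'.σ (un_P p p' (θ : ℂ)))) m₀ ≤ r := by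
      have h3 : dist (pr (χ'.σ (un_P p p' (θ : ℂ)))) m ≤ ε := hseg θ hθ
      linarith [dist_triangle (pr (χ'.σ (un_P p p' (θ : ℂ)))) m m₀]
    obtain ⟨h3, _, h4⟩ := hc.cap y hy _ (χ'.σ_mem _ hb).1 h1 h2
    exact ⟨h3, by rw [h4, hms]⟩
  set f : ℝ → ℂ := fun θ => A' (un_P p p' (θ : ℂ)) / (ρ' : ℂ) ^ (k + 1) - A (χ.q (χ'.σ (un_P p p' (θ : ℂ)))) / (ρ : ℂ) ^ (k + 1) with hf
  have hder : ∀ θ ∈ Set.Icc (0 : ℝ) 1, HasDerivAt f 0 θ := by
    intro θ hθ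
    have hb := un_P_mem hp hp' hθ
    obtain ⟨h1, h2⟩ := prim_deriv hX hu hΛ α hst hm' hA hA' hb (hcap θ hθ).1 (hcap θ hθ).2 hd
    have hPd : HasDerivAt (fun t : ℂ => un_P p p' t) (p' - p) (θ : ℂ) := by
      have h3 := ((hasDerivAt_id (θ : ℂ)).smul_const (p' - p)).const_add p
      rw [one_smul] at h3
      exact h3
    have h4 : HasDerivAt (fun t : ℂ => A' (un_P p p' t)) (fderiv ℂ A' (un_P p p' (θ : ℂ)) (p' - p)) (θ : ℂ) :=
      (hA'.an _ hb).differentiableAt.hasFDerivAt.comp_hasDerivAt (θ : ℂ) hPd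
    have h5 : HasDerivAt (fun t : ℂ => A (χ.q (χ'.σ (un_P p p' t))))
        (fderiv ℂ (fun y => A (χ.q (χ'.σ y))) (un_P p p' (θ : ℂ)) (p' - p)) (θ : ℂ) :=
      h1.comp_hasDerivAt (θ : ℂ) hPd
    have h6 := ((h4.div_const ((ρ' : ℂ) ^ (k + 1))).sub (h5.div_const ((ρ : ℂ) ^ (k + 1)))).comp_ofReal
    rw [h2, sub_self] at h6
    exact h6
  have hconst := constant_of_has_deriv_right_zero (f := f) (a := 0) (b := 1)
    (fun θ hθ => (hder θ hθ).continuousAt.continuousWithinAt)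
    (fun θ hθ => (hder θ ⟨hθ.1, hθ.2.le⟩).hasDerivWithinAt) 1 ⟨zero_le_one, le_rfl⟩
  have hP0 : un_P p p' ((0 : ℝ) : ℂ) = p := by
    unfold un_P
    simp
  have hP1' : un_P p p' ((1 : ℝ) : ℂ) = p' := by
    unfold un_P
    simp
  have hX0 : ∀ w ∈ X, w ≠ 0 := fun w hw h => hX.zero_notMem (h ▸ hw)
  have hq : χ.q x = χ.q (χ'.σ p) := by
    have hU := (hcap 0 ⟨le_rfl, zero_le_one⟩).1
    rw [hP0] at hU
    obtain ⟨a, ha, hax⟩ := (Pool.Agent.H62.EF.pr_eq_iff (hX0 x hx) (hX0 _ (χ'.σ_mem p hp).1)).mp (hxm.trans hpy.symm)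
    rw [hax]
    exact χ.q_smul _ hU a ha
  have hq' : χ.q x' = χ.q (χ'.σ p') := by
    have hU := (hcap 1 ⟨zero_le_one, le_rfl⟩).1
    rw [hP1'] at hU
    obtain ⟨a, ha, hax⟩ := (Pool.Agent.H62.EF.pr_eq_iff (hX0 x' hx') (hX0 _ (χ'.σ_mem p' hp').1)).mp (hxm'.trans hpy'.symm)
    rw [hax]
    exact χ.q_smul _ hU a ha
  simp only [hf] at hconst
  rw [hP0, hP1'] at hconst
  rw [hv, hq, hq']
  rw [sub_div, sub_div]
  linear_combination hconst

theorem II_eq (hX : IsCone X) (hu : TMap X Λ u) (hΛ : Lat Λ) {α : VForm X Λ u} {ε : ℝ} {y : Vd (k + 1)} {m m' : MN N}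
    (h : ∃ v, IRel α ε y m m' v) {χ : Chart (k + 2) X} {c : Vd (k + 1)} {ρ : ℝ} {y₀ : Vd (k + 1)} {m₀ : MN N} {r : ℝ} (hc : Cap Λ u χ c ρ y₀ m₀ r)
    {A : Vd (k + 2) → ℂ} (hA : IsPrim α χ (ms c ρ) A) (hy : y ∈ closedBall y₀ r) (hm : dist m m₀ + ε ≤ r) {x x' : EN N}
    (hx : x ∈ X) (hx' : x' ∈ X) (hxm : pr x = m) (hxm' : pr x' = m') : II α ε y m m' = (A (χ.q x') - A (χ.q x)) / (ρ : ℂ) ^ (k + 1) := by
  have h1 : II α ε y m m' = h.choose := by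
    unfold II
    rw [dif_pos h]
  rw [h1]
  exact IRel.eq_cap hX hu hΛ h.choose_spec hc hA hy hm hx hx' hxm hxm'

/-- the value is unique, and does not depend on the size `ε` of the paths -/
theorem II_of_rel (hX : IsCone X) (hu : TMap X Λ u) (hΛ : Lat Λ) {α : VForm X Λ u} {ε ε' : ℝ} (hε : ε ≤ ε') {y : Vd (k + 1)} {m m' : MN N} {v : ℂ}
    (h : IRel α ε y m m' v) {χ : Chart (k + 2) X} {c : Vd (k + 1)} {ρ : ℝ} {r : ℝ} (hc : Cap Λ u χ c ρ y m r) (hr : ε' ≤ r) :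
    II α ε' y m m' = v := by
  obtain ⟨A, hA⟩ := exists_prim α χ hc.str
  obtain ⟨⟨x, hx, hxm, -⟩, ⟨x', hx', hxm', -⟩, hd⟩ := h.mem
  have hε0 : 0 ≤ ε := dist_nonneg.trans hd
  have hr0 : 0 ≤ r := hε0.trans (hε.trans hr)
  have h1 := IRel.eq_cap hX hu hΛ (h.mono hε) hc hA (mem_closedBall_self hr0) (by rw [dist_self, zero_add]; exact hr) hx hx' hxm hxm'
  rw [h1]
  exact II_eq hX hu hΛ ⟨v, h.mono hε⟩ hc hA (mem_closedBall_self hr0) (by rw [dist_self, zero_add]; exact hr) hx hx' hxm hxm'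

end Pool.Agent.TG

end

section

/-!
# TG JJ: the integral along short paths in the fibres, without the parameter `ε`

`JRel α y m m' v`: for some `ε` the points near `m` (radius `3 ε`) of the fibres near `y` are in one straight chart, and `v` is the integral of `α / dy` along a path from `m` to `m'` of the fibre over `y` which stays
in the ball of radius `ε` around `m`.
-/

set_option autoImplicit false

open Topology Filter Metric

namespace Pool.Agent.TG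

open Pool.Agent.H36.BP (EN fs wd)
open Pool.Agent.H14.PP (IsCone CurveAt Tan)
open Pool.Agent.H62.EF (MN pr)
open Pool.Agent.AD (Vd Chart Charts IsGerm)

variable {N k : ℕ} {X : Set (EN N)} {Λ : AddSubgroup (Vd (k + 1))} {u : EN N → Vd (k + 1)}

theorem jrel_unique (hX : IsCone X) (hu : TMap X Λ u) (hΛ : Lat Λ) {α : VForm X Λ u} {y : Vd (k + 1)} {m m' : MN N} {v v' : ℂ}
    (h : JRel α y m m' v) (h' : JRel α y m m' v') : v = v' := by
  obtain ⟨ε, hε, ⟨χ, c, ρ, hc⟩, hv⟩ := h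
  obtain ⟨ε', hε', ⟨χ', c', ρ', hc'⟩, hv'⟩ := h'
  rcases le_total ε ε' with hle | hle
  · have h1 := II_of_rel hX hu hΛ hle hv hc' (by linarith)
    have h2 := II_of_rel hX hu hΛ le_rfl hv' hc' (by linarith)
    rw [← h1, h2]
  · have h1 := II_of_rel hX hu hΛ le_rfl hv hc (by linarith)
    have h2 := II_of_rel hX hu hΛ hle hv' hc (by linarith)
    rw [← h1, h2]

theorem jj_eq (hX : IsCone X) (hu : TMap X Λ u) (hΛ : Lat Λ) {α : VForm X Λ u} {y : Vd (k + 1)} {m m' : MN N} {v : ℂ}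
    (h : JRel α y m m' v) : JJ α y m m' = v := jrel_unique hX hu hΛ (jj_spec ⟨v, h⟩) h

/-- `JJ` and `II` agree where the constants are valid -/
theorem jj_eq_II {D : Set (Vd (k + 1))} (hX : IsCone X) (hu : TMap X Λ u) (hΛ : Lat Λ) {α : VForm X Λ u} {δ ε ε₀ : ℝ} (hc : Cst X Λ u D δ ε ε₀)
    {y : Vd (k + 1)} (hy : y ∈ Gd D δ) {m m' : MN N} (hm : m ∈ Fb X Λ u y) (hm' : m' ∈ Fb X Λ u y) (hd : dist m m' ≤ ε₀) :
    JJ α y m m' = II α ε y m m' := by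
  obtain ⟨v, hv⟩ := hc.rel y hy m hm m' hm' hd α
  obtain ⟨χ, c, ρ, hcap⟩ := hc.cap y hy m hm
  rw [jj_eq hX hu hΛ ⟨ε, hc.ε_pos, ⟨χ, c, ρ, hcap⟩, hv⟩, II_of_rel hX hu hΛ le_rfl hv hcap (by linarith [hc.ε_pos])]

theorem jj_zero (hX : IsCone X) (hu : TMap X Λ u) (hΛ : Lat Λ) {Γ : AddSubgroup (Vd (k + 1))} {α : VForm X Λ u} (hle : Γ ≤ Λ) (hper : Per α Γ)
    (hvan : VanZero α) {l : Vd (k + 1)} (hl : l ∈ Γ) (m m' : MN N) : JJ α l m m' = 0 := by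
  by_cases h : ∃ v, JRel α l m m' v
  · obtain ⟨v, hv⟩ := h
    rw [jj_eq hX hu hΛ hv]
    obtain ⟨ε, hε, ⟨χ, c, ρ, hc⟩, hv⟩ := hv
    rw [← II_of_rel hX hu hΛ le_rfl hv hc (by linarith)]
    exact II_zero hu hle hper hvan hl ε m m'
  · unfold JJ
    rw [dif_neg h]

end Pool.Agent.TG

end
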