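import Mathlib

/-! The parts of this file: G3.R.DDefs, H17BP.Surf, H62.EL.Dyn. -/

section

/-!
# G3 R DDefs: divided differences, definitions

`dd m σ f = f [σ 0, …, σ m]`, the divided difference of order `m` of the function `f` of a real variable, for the distinct nodes `σ 0, …, σ m`.
-/

set_option autoImplicit false

open Finset

namespace Pool.Agent.G3.R

/-- the weight of the node `σ i` in the divided difference with the nodes `σ 0, …, σ m` -/
noncomputable def dw (m : ℕ) (σ : ℕ → ℝ) (i : ℕ) : ℝ := ∏ j ∈ (range (m + 1)).erase i, (σ i - σ j)⁻¹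

/-- the divided difference `f [σ 0, …, σ m]` -/
noncomputable def dd {E : Type*} [AddCommGroup E] [Module ℂ E] (m : ℕ) (σ : ℕ → ℝ) (f : ℝ → E) : E :=
  ∑ i ∈ range (m + 1), ((dw m σ i : ℝ) : ℂ) • f (σ i)

/-- distinct nodes `σ 0, …, σ m` of absolute value at most `r` -/
structure Nod (m : ℕ) (σ : ℕ → ℝ) (r : ℝ) : Prop where
  inj : ∀ i ≤ m, ∀ j ≤ m, σ i = σ j → i = j
  le : ∀ i ≤ m, |σ i| ≤ r

theorem Nod.mono {m m' : ℕ} {σ : ℕ → ℝ} {r r' : ℝ} (h : Nod m σ r) (hm : m' ≤ m) (hr : r ≤ r') : Nod m' σ r' :=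
  ⟨fun i hi j hj => h.inj i (hi.trans hm) j (hj.trans hm), fun i hi => (h.le i (hi.trans hm)).trans hr⟩

/-- the Newton polynomial of degree `m` which interpolates `f` at `σ 0, …, σ m` -/
noncomputable def np {E : Type*} [AddCommGroup E] [Module ℂ E] (m : ℕ) (σ : ℕ → ℝ) (f : ℝ → E) (ζ : ℂ) : E :=
  ∑ j ∈ range (m + 1), (∏ i ∈ range j, (ζ - (σ i : ℂ))) • dd j σ f

end Pool.Agent.G3.R

end

section

/-!
# Smooth closed surfaces in a projective space, in terms of their cones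

`V` is a finite dimensional complex normed space; a closed subset of `ℙ(V)` is given by its cone `X ⊆ V ∖ {0}`.
-/

open Topology Filter

noncomputable section

namespace Pool.Agent.H17BP

variable {V : Type} [NormedAddCommGroup V] [NormedSpace ℂ V]

/-- The germ `σ : (ℂ², 0) → X` parametrises the surface given by the cone `X`, with the inverse `τ`. -/
structure IsChart (X : Set V) (σ : ℂ × ℂ → V) (τ : V → ℂ × ℂ) : Prop where
  σ_an : AnalyticAt ℂ σ 0
  σ_mem : ∀ᶠ p in 𝓝 (0 : ℂ × ℂ), σ p ∈ X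
  ne : σ 0 ≠ 0
  τ_an : AnalyticAt ℂ τ (σ 0)
  left : ∀ᶠ p in 𝓝 (0 : ℂ × ℂ), τ (σ p) = p
  right : ∀ᶠ y in 𝓝 (σ 0), y ∈ X → ∃ c : ℂ, c ≠ 0 ∧ y = c • σ (τ y)
  inv : ∀ᶠ p in 𝓝 (σ 0, (1 : ℂ)), τ (p.2 • p.1) = τ p.1

/-- `X` is the cone of a smooth closed surface in `ℙ(V)`. -/
structure Surface (X : Set V) : Prop where
  zero : (0 : V) ∉ X
  smul : ∀ x ∈ X, ∀ c : ℂ, c ≠ 0 → c • x ∈ X
  closed : ∀ x ∈ closure X, x ≠ 0 → x ∈ X
  chart : ∀ x ∈ X, ∃ σ τ, IsChart X σ τ ∧ σ 0 = x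

/-- The tangent vectors of the cone `X` at `x`. -/
def Tan (X : Set V) (x : V) : Set V :=
  {v | ∃ γ : ℂ → V, AnalyticAt ℂ γ 0 ∧ (∀ᶠ z in 𝓝 (0 : ℂ), γ z ∈ X) ∧ γ 0 = x ∧ deriv γ 0 = v}

/-- The subset `B` of the surface `X` is given near `σ 0` by the equation `g = 0`. -/
def LocalEq (B : Set V) (σ : ℂ × ℂ → V) (g : ℂ × ℂ → ℂ) : Prop :=
  AnalyticAt ℂ g 0 ∧ ∀ᶠ p in 𝓝 (0 : ℂ × ℂ), (σ p ∈ B ↔ g p = 0)

end Pool.Agent.H17BP

end
end

section

/-!
# EL Dyn: the abstract dynamical situation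

`S` is a compact, `Λ`-invariant family of maps `ℂ \ B → Y` (maps `ℂ → Y` whose values on `B` do not matter), `B` is a discrete
`Λ`-invariant set.  `N z y y'` measures the distance of two near points `y`, `y'` over `z`; it may vanish for different points, but
only near the closed set `Zr`.
-/

set_option autoImplicit false

open Topology Filter Metric

namespace Pool.Agent.H62.EL

/-- the points of distance at least `δ` from `B` -/
def Gd (B : Set ℂ) (δ : ℝ) : Set ℂ := {z | ∀ b ∈ B, δ ≤ ‖z - b‖}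

/-- a discrete `Λ`-invariant set -/
structure BadSet (B : Set ℂ) (Λ : AddSubgroup ℂ) (δ : ℝ) : Prop where
  pos : 0 < δ
  inv : ∀ b ∈ B, ∀ l ∈ Λ, b + l ∈ B
  sep : ∀ b ∈ B, ∀ b' ∈ B, b ≠ b' → 8 * δ ≤ ‖b - b'‖

end Pool.Agent.H62.EL

end
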