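import Pool.Agent.H94.G5T.H62.EL.Prm
import Pool.Agent.H94.G5T.M02
import Pool.Agent.H94.G5T.M06
import Pool.Agent.H94.G5T.M15

/-! The parts of this file: H62.EL.Defs_2, H62.EL.Db_2, H62.EL.Db_3, H62.EL.Db_4, H62.EL.Defs_1, H62.EL.Tc_2. -/

section

/-!
# EL Defs: surfaces over an elliptic curve with a holomorphic `2`-form, normal crossing bad fibres

`X` is the cone (without `0`) over a smooth projective surface, `u` a holomorphic map to `ℂ / Λ` (see EF Defs).  `TForm X Λ u` are the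
holomorphic `2`-forms on the surface `{(x, z) : u x = z mod Λ}` (a covering of `X` with group `Λ`).
-/

set_option autoImplicit false

open Topology Filter Metric

namespace Pool.Agent.H62.EL

open Pool.Agent.H36.BP (EN wd IsGermChart)
open Pool.Agent.H14.PP (IsCone Chart Tan CurveAt)
open Pool.Agent.H62.EF (Lat MN pr TorusMap Sec Charts)

variable {N : ℕ}

/-- the geometric data; `B` is the set of the bad values -/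
structure EData (X : Set (EN N)) (Λ : AddSubgroup ℂ) (u : EN N → ℂ) (Γ : AddSubgroup ℂ) (B : Set ℂ) (δ : ℝ) : Prop where
  cone : IsCone X
  charts : Charts X
  tor : TorusMap X Λ u
  lat : Lat Λ
  latΓ : Lat Γ
  le : Γ ≤ Λ
  bad : BadSet B Λ δ
  zero : ∀ b ∈ B, 4 * δ ≤ ‖b‖
  fib : ∀ F : ℂ → EN N, Differentiable ℂ F → (∀ z, F z ∈ X) → (∀ z w, u (F z) - u (F w) ∈ Λ) →
    (∃ z w, ∀ c : ℂ, F z ≠ c • F w) → ∃ b ∈ B, u (F 0) - b ∈ Λ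
  nc : ∀ b ∈ B, ∀ x ∈ X, u x - b ∈ Λ → IsNC X Λ u x b

variable {X : Set (EN N)} {Λ : AddSubgroup ℂ} {u : EN N → ℂ}

/-- `A` is the primitive of the coefficient of the form in the direction of the second variable -/
structure IsPrim (α : TForm X Λ u) (χ : Chart X) (υ A : ℂ × ℂ → ℂ) : Prop where
  an : ∀ p ∈ ball (0 : ℂ × ℂ) 2, AnalyticAt ℂ A p
  der : ∀ p ∈ ball (0 : ℂ × ℂ) 2, fderiv ℂ A p (0, 1) = tc α χ υ p
  zero : ∀ s : ℂ, ‖s‖ < 2 → A (s, 0) = 0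

/-- finitely many charts and open cones -/
structure TubeData (X : Set (EN N)) where
  /-- the number of charts -/
  m : ℕ
  /-- the charts -/
  χ : Fin m → Chart X
  /-- in the chart `χ k` the map `u` is `b + ρ k * s ^ i k * t ^ j k` -/
  ρ : Fin m → ℝ
  /-- exponents -/
  i : Fin m → ℕ
  /-- exponents -/
  j : Fin m → ℕ
  /-- the open cones -/
  W : Fin m → Set (EN N)

/-- a witness chart, with a radius -/
structure Wit (X : Set (EN N)) where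
  /-- the chart -/
  χ : Chart X
  /-- constant -/
  ρ : ℝ
  /-- exponents -/
  i : ℕ
  /-- exponents -/
  j : ℕ
  /-- radius of the part which is used -/
  r : ℝ

/-- the coefficients of the form `- A ds` of the chart `χ` in the chart `χ'` -/
noncomputable def bc (χ : Chart X) (A : ℂ × ℂ → ℂ) (χ' : Chart X) (e : ℂ × ℂ) (p : ℂ × ℂ) : ℂ :=
  -(A (χ.q (χ'.σ p)) * (fderiv ℂ (fun y => χ.q (χ'.σ y)) p e).1)

end Pool.Agent.H62.EL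

end

section

/-!
# EL Db: the form `β = - A ds` in another chart

Let `τ = χ.q ∘ χ'.σ`, analytic near `p` if `χ'.σ p ∈ χ.U`, with values in `ball 0 2` (`Chart.surj`).  `bc χ A χ' e = - A(τ) ∂_e τ₁`.
`bc_an`: clear (`fderiv` of an analytic function is analytic).
`bc_closed`: `∂₁ b₂ - ∂₂ b₁ = -(A_s ∂₁τ₁ + A_t ∂₁τ₂) ∂₂τ₁ + (A_s ∂₂τ₁ + A_t ∂₂τ₂) ∂₁τ₁ - A (∂₁∂₂τ₁ - ∂₂∂₁τ₁) = A_t (τ) (∂₁τ₁ ∂₂τ₂ - ∂₂τ₁ ∂₁τ₂)`
(mixed derivatives are symmetric), `A_t (τ p) = tc α χ υ (τ p)` and `tc α χ υ (τ p) * jac τ p = tc α χ' υ' p` (`tc_trans`).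
`bt_eq`: near `ζ`, `χ.q (γ ξ) = τ (χ'.q (γ ξ))` (`γ ξ = c • χ'.σ (χ'.q (γ ξ))`, `q_smul`); chain rule; at `ζ`: `χ.q (γ ζ) = τ (χ'.q (γ ζ))`.
-/

set_option autoImplicit false

open Topology Filter Metric

namespace Pool.Agent.H62.EL

open Pool.Agent.H36.BP (EN wd IsGermChart)
open Pool.Agent.H14.PP (IsCone Chart Tan CurveAt)
open Pool.Agent.H62.EF (Lat MN pr TorusMap Sec Charts)

variable {N : ℕ} {X : Set (EN N)} {Λ : AddSubgroup ℂ} {u : EN N → ℂ}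

theorem bc_an (χ χ' : Chart X) {A : ℂ × ℂ → ℂ} (hA : ∀ p ∈ ball (0 : ℂ × ℂ) 2, AnalyticAt ℂ A p) {p : ℂ × ℂ}
    (hp : p ∈ ball (0 : ℂ × ℂ) 2) (hU : χ'.σ p ∈ χ.U) (e : ℂ × ℂ) : AnalyticAt ℂ (bc χ A χ' e) p := by
  have hτ : AnalyticAt ℂ (fun y => χ.q (χ'.σ y)) p := Db_tau_an χ χ' hp hU
  have hτb : χ.q (χ'.σ p) ∈ ball (0 : ℂ × ℂ) 2 := (χ.surj _ (χ'.σ_mem p hp).1 hU).1
  have h1 : AnalyticAt ℂ (fun y => A (χ.q (χ'.σ y))) p :=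
    AnalyticAt.comp (g := A) (f := fun y => χ.q (χ'.σ y)) (hA _ hτb) hτ
  have h2 : AnalyticAt ℂ (fun y => fderiv ℂ (fun y => χ.q (χ'.σ y)) y e) p :=
    AnalyticAt.comp (g := fun L : (ℂ × ℂ) →L[ℂ] (ℂ × ℂ) => ContinuousLinearMap.apply ℂ (ℂ × ℂ) e L)
      (f := fderiv ℂ (fun y => χ.q (χ'.σ y))) ((ContinuousLinearMap.apply ℂ (ℂ × ℂ) e).analyticAt _) hτ.fderiv
  have h3 : AnalyticAt ℂ (fun y => (fderiv ℂ (fun y => χ.q (χ'.σ y)) y e).1) p :=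
    AnalyticAt.comp (g := fun v : ℂ × ℂ => v.1) (f := fun y => fderiv ℂ (fun y => χ.q (χ'.σ y)) y e)
      ((ContinuousLinearMap.fst ℂ ℂ ℂ).analyticAt _) h2
  exact (h1.mul h3).neg

end Pool.Agent.H62.EL

end

section

/-!
# EL Db: the form `β = - A ds` in another chart

Let `τ = χ.q ∘ χ'.σ`, analytic near `p` if `χ'.σ p ∈ χ.U`, with values in `ball 0 2` (`Chart.surj`).  `bc χ A χ' e = - A(τ) ∂_e τ₁`.
`bc_an`: clear (`fderiv` of an analytic function is analytic).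
`bc_closed`: `∂₁ b₂ - ∂₂ b₁ = -(A_s ∂₁τ₁ + A_t ∂₁τ₂) ∂₂τ₁ + (A_s ∂₂τ₁ + A_t ∂₂τ₂) ∂₁τ₁ - A (∂₁∂₂τ₁ - ∂₂∂₁τ₁) = A_t (τ) (∂₁τ₁ ∂₂τ₂ - ∂₂τ₁ ∂₁τ₂)`
(mixed derivatives are symmetric), `A_t (τ p) = tc α χ υ (τ p)` and `tc α χ υ (τ p) * jac τ p = tc α χ' υ' p` (`tc_trans`).
`bt_eq`: near `ζ`, `χ.q (γ ξ) = τ (χ'.q (γ ξ))` (`γ ξ = c • χ'.σ (χ'.q (γ ξ))`, `q_smul`); chain rule; at `ζ`: `χ.q (γ ζ) = τ (χ'.q (γ ζ))`.
-/

set_option autoImplicit false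

open Topology Filter Metric

namespace Pool.Agent.H62.EL

open Pool.Agent.H36.BP (EN wd IsGermChart)
open Pool.Agent.H14.PP (IsCone Chart Tan CurveAt)
open Pool.Agent.H62.EF (Lat MN pr TorusMap Sec Charts)

variable {N : ℕ} {X : Set (EN N)} {Λ : AddSubgroup ℂ} {u : EN N → ℂ}

theorem Db_fderiv_bc (χ χ' : Chart X) {A : ℂ × ℂ → ℂ} (hA : ∀ p ∈ ball (0 : ℂ × ℂ) 2, AnalyticAt ℂ A p) {p : ℂ × ℂ}
    (hp : p ∈ ball (0 : ℂ × ℂ) 2) (hU : χ'.σ p ∈ χ.U) (e w : ℂ × ℂ) :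
    fderiv ℂ (bc χ A χ' e) p w =
      -(A (χ.q (χ'.σ p)) * (fderiv ℂ (fderiv ℂ (fun y => χ.q (χ'.σ y))) p w e).1 +
        (fderiv ℂ (fun y => χ.q (χ'.σ y)) p e).1 * fderiv ℂ A (χ.q (χ'.σ p)) (fderiv ℂ (fun y => χ.q (χ'.σ y)) p w)) := by
  have hτ : AnalyticAt ℂ (fun y => χ.q (χ'.σ y)) p := Db_tau_an χ χ' hp hU
  have hτb : χ.q (χ'.σ p) ∈ ball (0 : ℂ × ℂ) 2 := (χ.surj _ (χ'.σ_mem p hp).1 hU).1
  have h1 : HasFDerivAt (fun y => A (χ.q (χ'.σ y)))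
      ((fderiv ℂ A (χ.q (χ'.σ p))).comp (fderiv ℂ (fun y => χ.q (χ'.σ y)) p)) p :=
    HasFDerivAt.comp (g := A) (f := fun y => χ.q (χ'.σ y)) p (hA _ hτb).differentiableAt.hasFDerivAt
      hτ.differentiableAt.hasFDerivAt
  have h2 : HasFDerivAt (fun y => fderiv ℂ (fun y => χ.q (χ'.σ y)) y e)
      ((ContinuousLinearMap.apply ℂ (ℂ × ℂ) e).comp (fderiv ℂ (fderiv ℂ (fun y => χ.q (χ'.σ y))) p)) p :=
    HasFDerivAt.comp (g := fun L : (ℂ × ℂ) →L[ℂ] (ℂ × ℂ) => ContinuousLinearMap.apply ℂ (ℂ × ℂ) e L) p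
      (ContinuousLinearMap.apply ℂ (ℂ × ℂ) e).hasFDerivAt hτ.fderiv.differentiableAt.hasFDerivAt
  have h3 : HasFDerivAt (fun y => (fderiv ℂ (fun y => χ.q (χ'.σ y)) y e).1)
      ((ContinuousLinearMap.fst ℂ ℂ ℂ).comp
        ((ContinuousLinearMap.apply ℂ (ℂ × ℂ) e).comp (fderiv ℂ (fderiv ℂ (fun y => χ.q (χ'.σ y))) p))) p :=
    HasFDerivAt.comp (g := fun v : ℂ × ℂ => ContinuousLinearMap.fst ℂ ℂ ℂ v) p
      (ContinuousLinearMap.fst ℂ ℂ ℂ).hasFDerivAt h2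
  have h4 : HasFDerivAt (bc χ A χ' e) _ p := (h1.mul h3).neg
  rw [h4.fderiv]
  simp

end Pool.Agent.H62.EL

end

section

/-!
# EL Db: the form `β = - A ds` in another chart

Let `τ = χ.q ∘ χ'.σ`, analytic near `p` if `χ'.σ p ∈ χ.U`, with values in `ball 0 2` (`Chart.surj`).  `bc χ A χ' e = - A(τ) ∂_e τ₁`.
`bc_an`: clear (`fderiv` of an analytic function is analytic).
`bc_closed`: `∂₁ b₂ - ∂₂ b₁ = -(A_s ∂₁τ₁ + A_t ∂₁τ₂) ∂₂τ₁ + (A_s ∂₂τ₁ + A_t ∂₂τ₂) ∂₁τ₁ - A (∂₁∂₂τ₁ - ∂₂∂₁τ₁) = A_t (τ) (∂₁τ₁ ∂₂τ₂ - ∂₂τ₁ ∂₁τ₂)`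
(mixed derivatives are symmetric), `A_t (τ p) = tc α χ υ (τ p)` and `tc α χ υ (τ p) * jac τ p = tc α χ' υ' p` (`tc_trans`).
`bt_eq`: near `ζ`, `χ.q (γ ξ) = τ (χ'.q (γ ξ))` (`γ ξ = c • χ'.σ (χ'.q (γ ξ))`, `q_smul`); chain rule; at `ζ`: `χ.q (γ ζ) = τ (χ'.q (γ ζ))`.
-/

set_option autoImplicit false

open Topology Filter Metric

namespace Pool.Agent.H62.EL

open Pool.Agent.H36.BP (EN wd IsGermChart)
open Pool.Agent.H14.PP (IsCone Chart Tan CurveAt)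
open Pool.Agent.H62.EF (Lat MN pr TorusMap Sec Charts)

variable {N : ℕ} {X : Set (EN N)} {Λ : AddSubgroup ℂ} {u : EN N → ℂ}

theorem bt_eq (χ χ' : Chart X) (A : ℂ × ℂ → ℂ) {γ : ℂ → EN N} {ζ : ℂ} (hγ : CurveAt X γ ζ) (hU' : γ ζ ∈ χ'.U) (hU : γ ζ ∈ χ.U) :
    bt χ A γ ζ = bc χ A χ' (1, 0) (χ'.q (γ ζ)) * (deriv (fun ξ => χ'.q (γ ξ)) ζ).1 +
      bc χ A χ' (0, 1) (χ'.q (γ ζ)) * (deriv (fun ξ => χ'.q (γ ξ)) ζ).2 := by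
  have hkey : ∀ x ∈ X, x ∈ χ'.U → x ∈ χ.U → χ'.σ (χ'.q x) ∈ χ.U ∧ χ.q x = χ.q (χ'.σ (χ'.q x)) := by
    intro x hx hx' hxU
    obtain ⟨-, c, hc, hxc⟩ := χ'.surj x hx hx'
    have h1 : χ'.σ (χ'.q x) = c⁻¹ • x := by
      conv_rhs => rw [hxc]
      rw [smul_smul, inv_mul_cancel₀ hc, one_smul]
    have h2 : χ'.σ (χ'.q x) ∈ χ.U := by
      rw [h1]
      exact χ.smul_U x hxU _ (inv_ne_zero hc)
    refine ⟨h2, ?_⟩
    rw [h1, χ.q_smul x hxU _ (inv_ne_zero hc)]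
  have hγX : γ ζ ∈ X := hγ.mem
  obtain ⟨hq', -⟩ := χ'.surj _ hγX hU'
  obtain ⟨hσU, hq⟩ := hkey _ hγX hU' hU
  have hτ : AnalyticAt ℂ (fun y => χ.q (χ'.σ y)) (χ'.q (γ ζ)) := Db_tau_an χ χ' hq' hσU
  have hq'an : AnalyticAt ℂ (fun ξ => χ'.q (γ ξ)) ζ :=
    AnalyticAt.comp (g := χ'.q) (f := γ) (χ'.q_an _ hU') hγ.1
  have hev : (fun ξ => χ.q (γ ξ)) =ᶠ[𝓝 ζ] fun ξ => χ.q (χ'.σ (χ'.q (γ ξ))) := by
    have h1 : ∀ᶠ ξ in 𝓝 ζ, γ ξ ∈ χ'.U := hγ.1.continuousAt.eventually (χ'.isOpen_U.mem_nhds hU')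
    have h2 : ∀ᶠ ξ in 𝓝 ζ, γ ξ ∈ χ.U := hγ.1.continuousAt.eventually (χ.isOpen_U.mem_nhds hU)
    filter_upwards [hγ.2, h1, h2] with ξ h3 h4 h5
    exact (hkey _ h3 h4 h5).2
  have hd : HasDerivAt (fun ξ => χ.q (χ'.σ (χ'.q (γ ξ))))
      (fderiv ℂ (fun y => χ.q (χ'.σ y)) (χ'.q (γ ζ)) (deriv (fun ξ => χ'.q (γ ξ)) ζ)) ζ :=
    HasFDerivAt.comp_hasDerivAt (l := fun y => χ.q (χ'.σ y)) (f := fun ξ => χ'.q (γ ξ)) ζ
      hτ.differentiableAt.hasFDerivAt hq'an.differentiableAt.hasDerivAt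
  have hd' : deriv (fun ξ => χ.q (γ ξ)) ζ =
      fderiv ℂ (fun y => χ.q (χ'.σ y)) (χ'.q (γ ζ)) (deriv (fun ξ => χ'.q (γ ξ)) ζ) := by
    rw [hev.deriv_eq, hd.deriv]
  unfold bt bc
  rw [hd', Db_pair (fderiv ℂ (fun y => χ.q (χ'.σ y)) (χ'.q (γ ζ))) (deriv (fun ξ => χ'.q (γ ξ)) ζ), ← hq]
  simp only [Prod.fst_add, Prod.smul_fst, smul_eq_mul]
  ring

end Pool.Agent.H62.EL

end

section

/-!
# EL Defs: surfaces over an elliptic curve with a holomorphic `2`-form, normal crossing bad fibres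

`X` is the cone (without `0`) over a smooth projective surface, `u` a holomorphic map to `ℂ / Λ` (see EF Defs).  `TForm X Λ u` are the
holomorphic `2`-forms on the surface `{(x, z) : u x = z mod Λ}` (a covering of `X` with group `Λ`).
-/

set_option autoImplicit false

open Topology Filter Metric

namespace Pool.Agent.H62.EL

open Pool.Agent.H36.BP (EN wd IsGermChart)
open Pool.Agent.H14.PP (IsCone Chart Tan CurveAt)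
open Pool.Agent.H62.EF (Lat MN pr TorusMap Sec Charts)

variable {N : ℕ}

variable {X : Set (EN N)} {Λ : AddSubgroup ℂ} {u : EN N → ℂ}

/-- the form is `Γ`-periodic -/
def Per (α : TForm X Λ u) (Γ : AddSubgroup ℂ) : Prop :=
  ∀ z, ∀ l ∈ Γ, ∀ x ∈ X, u x - z ∈ Λ → ∀ v w, Tan X x v → Tan X x w → α.toFun (z + l) x v w = α.toFun z x v w

/-- the form is nowhere locally `0` -/
def Thin (α : TForm X Λ u) : Prop :=
  ∀ (χ : Chart X) (υ : ℂ × ℂ → ℂ), ∀ p ∈ ball (0 : ℂ × ℂ) 2, AnalyticAt ℂ υ p → (∀ᶠ y in 𝓝 p, u (χ.σ y) - υ y ∈ Λ) →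
    ¬ ∀ᶠ y in 𝓝 p, tc α χ υ y = 0

/-- the chart (with `u = c + ρ s`) contains all points near `y₀` of the fibres near `z₀` -/
structure Cap (Λ : AddSubgroup ℂ) (u : EN N → ℂ) (χ : Chart X) (c : ℂ) (ρ : ℝ) (z₀ : ℂ) (y₀ : MN N) (r : ℝ) : Prop where
  mon : Mon Λ u χ c ρ 1 0
  cap : ∀ z ∈ closedBall z₀ r, ∀ x ∈ X, u x - z ∈ Λ → dist (pr x) y₀ ≤ r →
    x ∈ χ.U ∧ χ.q x ∈ closedBall (0 : ℂ × ℂ) 1 ∧ c + ρ * (χ.q x).1 = z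

/-- `v` is the integral of `α / dz` from `y` to `y'` along a short path in the fibre over `z` -/
def IRel (α : TForm X Λ u) (ε : ℝ) (z : ℂ) (y y' : MN N) (v : ℂ) : Prop :=
  ∃ (χ : Chart X) (c : ℂ) (ρ : ℝ) (A : ℂ × ℂ → ℂ) (p p' : ℂ × ℂ), Mon Λ u χ c ρ 1 0 ∧ IsPrim α χ (mo c ρ 1 0) A ∧
    p ∈ ball (0 : ℂ × ℂ) 2 ∧ p' ∈ ball (0 : ℂ × ℂ) 2 ∧ c + ρ * p.1 = z ∧ c + ρ * p'.1 = z ∧ pr (χ.σ p) = y ∧ pr (χ.σ p') = y' ∧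
    (∀ θ ∈ Set.Icc (0 : ℝ) 1, dist (pr (χ.σ (p + (θ : ℂ) • (p' - p)))) y ≤ ε) ∧ v = (A p' - A p) / ρ

open Classical in
/-- the integral of `α / dz` from `y` to `y'` along a short path in the fibre over `z` -/
noncomputable def II (α : TForm X Λ u) (ε : ℝ) (z : ℂ) (y y' : MN N) : ℂ :=
  if h : ∃ v, IRel α ε z y y' v then h.choose else 0

/-- the form multiplied by `(z - b)^n` -/
noncomputable def TForm.mulPow (α : TForm X Λ u) (b : ℂ) (n : ℕ) : TForm X Λ u where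
  toFun := fun z x v w => (z - b) ^ n * α.toFun z x v w
  add_smul := fun z x hx hz v w hv hw a b' => by rw [α.add_smul z x hx hz v w hv hw a b']
  det := fun z x hx hz v w hv hw a b' c d => by rw [α.det z x hx hz v w hv hw a b' c d]; ring
  scale := fun z x hx hz v w hv hw c hc => by rw [α.scale z x hx hz v w hv hw c hc]
  analytic := fun φ υ p hφ hυ h => ((hυ.sub analyticAt_const).pow n).mul (α.analytic φ υ p hφ hυ h)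

/-- charts covering the fibre over `b`, and open cones `W k` covering the part of `X` over `ball b s` -/
structure TubeG (Λ : AddSubgroup ℂ) (u : EN N → ℂ) (b : ℂ) (s η : ℝ) (T : TubeData X) : Prop where
  pos : 0 < s
  le : s ≤ η
  inj : ∀ l ∈ Λ, ‖l‖ < 2 * η → l = 0
  mon : ∀ k, Mon Λ u (T.χ k) b (T.ρ k) (T.i k) (T.j k)
  range : ∀ k, ∀ p ∈ ball (0 : ℂ × ℂ) 2, ‖mo b (T.ρ k) (T.i k) (T.j k) p - b‖ < η
  W_open : ∀ k, IsOpen (T.W k)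
  W_sub : ∀ k, T.W k ⊆ (T.χ k).U
  W_smul : ∀ k, ∀ x ∈ T.W k, ∀ c : ℂ, c ≠ 0 → c • x ∈ T.W k
  cover : ∀ z ∈ ball b s, ∀ x ∈ X, u x - z ∈ Λ → ∃ k, x ∈ T.W k

/-- the functions `lam k` split the primitives of the closed forms `β_k - β_l` -/
def Split (Λ : AddSubgroup ℂ) (u : EN N → ℂ) (b : ℂ) (s : ℝ) (T : TubeData X) (A : Fin T.m → ℂ × ℂ → ℂ)
    (lam : Fin T.m → EN N → ℂ) : Prop :=
  (∀ k, ∀ x ∈ X, ∀ c : ℂ, c ≠ 0 → lam k (c • x) = lam k x) ∧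
    ∀ (k l : Fin T.m) (γ : ℂ → EN N) (ζ : ℂ), CurveAt X γ ζ → (∃ z ∈ ball b s, u (γ ζ) - z ∈ Λ) → γ ζ ∈ T.W k → γ ζ ∈ T.W l →
      HasDerivAt (fun ξ => lam k (γ ξ) - lam l (γ ξ)) (bt (T.χ k) (A k) γ ζ - bt (T.χ l) (A l) γ ζ) ζ

/-- a tube: for all forms and primitives there are splittings -/
structure Tube (Λ : AddSubgroup ℂ) (u : EN N → ℂ) (b : ℂ) (s η : ℝ) (T : TubeData X) : Prop where
  geo : TubeG Λ u b s η T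
  split : ∀ (α : TForm X Λ u) (A : Fin T.m → ℂ × ℂ → ℂ), (∀ k, IsPrim α (T.χ k) (mo b (T.ρ k) (T.i k) (T.j k)) (A k)) →
    ∃ lam : Fin T.m → EN N → ℂ, Split Λ u b s T A lam

/-- the witness charts for a tube -/
structure WitG (Λ : AddSubgroup ℂ) (u : EN N → ℂ) (b : ℂ) (s η : ℝ) (T : TubeData X) (𝒲 : Set (Wit X)) : Prop where
  pos : ∀ w ∈ 𝒲, 0 < w.r ∧ w.r ≤ 2
  mon : ∀ w ∈ 𝒲, Mon Λ u w.χ b w.ρ w.i w.j
  range : ∀ w ∈ 𝒲, ∀ p ∈ ball (0 : ℂ × ℂ) 2, ‖mo b w.ρ w.i w.j p - b‖ < η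
  sub : ∀ w ∈ 𝒲, ∀ k, (∃ p ∈ ball (0 : ℂ × ℂ) w.r, w.χ.σ p ∈ T.W k) → ∀ p ∈ ball (0 : ℂ × ℂ) 2, w.χ.σ p ∈ (T.χ k).U
  nest : ∀ w ∈ 𝒲, ∀ w' ∈ 𝒲, (∃ p ∈ ball (0 : ℂ × ℂ) w.r, ∃ p' ∈ ball (0 : ℂ × ℂ) w'.r, pr (w.χ.σ p) = pr (w'.χ.σ p')) →
    (∀ p ∈ ball (0 : ℂ × ℂ) w.r, w.χ.σ p ∈ w'.χ.U) ∨ (∀ p ∈ ball (0 : ℂ × ℂ) w'.r, w'.χ.σ p ∈ w.χ.U)
  cover : ∀ z ∈ ball b s, ∀ x ∈ X, u x - z ∈ Λ → ∃ w ∈ 𝒲, x ∈ w.χ.U ∧ w.χ.q x ∈ ball (0 : ℂ × ℂ) w.r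

/-- `ψ` is a primitive of `β - β'` in the chart `χ'` which vanishes on the fibre over `b` -/
structure PsiP (χ : Chart X) (A : ℂ × ℂ → ℂ) (χ' : Chart X) (A' : ℂ × ℂ → ℂ) (i' j' : ℕ) (ψ : ℂ × ℂ → ℂ) : Prop where
  zero : ∀ p ∈ ball (0 : ℂ × ℂ) 2, p.1 ^ i' * p.2 ^ j' = 0 → ψ p = 0
  der : ∀ (γ : ℂ → EN N) (ζ : ℂ), CurveAt X γ ζ → γ ζ ∈ χ'.U →
    HasDerivAt (fun ξ => ψ (χ'.q (γ ξ))) (bt χ A γ ζ - bt χ' A' γ ζ) ζ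

end Pool.Agent.H62.EL

end

section

/-!
# EL Tc: coefficients of forms in charts

`tc_an`: `TForm.analytic` with `φ = χ.σ` (`χ.σ_mem`: `χ.σ y ∈ X` for `y ∈ ball 0 2`).

`tc_trans` (compare `FormTrans_lift`, `FormTrans_coef` in `H14/PP/FormTrans.lean`): near `p` we have `χ'.σ y = c y • χ.σ (τ y)`, `τ y = χ.q (χ'.σ y)`,
with `c` analytic, `c ≠ 0` (`Chart.surj`; `c` is analytic because for a linear form `ℓ` with `ℓ (χ.σ (τ p)) ≠ 0`: `c y = ℓ (χ'.σ y) / ℓ (χ.σ (τ y))`).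
So `∂_e χ'.σ = c • Dχ.σ (τ p) (Dτ p e) + (∂_e c) • χ.σ (τ p)`.  With `x = χ'.σ p = c • χ.σ (τ p)`: by `add_smul` (multiples of `x`), `scale`, `det`
(`Dτ e_1 = (τ_1)_1 e_1 + (τ_2)_1 e_2` ...), `toFun z x ∂₁ ∂₂ = jac τ p * toFun z (χ.σ (τ p)) (∂₁ χ.σ) (∂₂ χ.σ)`, where `z = υ' p = υ (τ p)`.
The vectors `Dχ.σ e` are tangent (`Chart.tan`, or directly: the curve `ξ ↦ χ.σ (q + ξ e)`).

`exists_prim`: `exists_prim_snd` with `R = 2`, `a = tc α χ (mo c ρ i j)` (`mo` is a polynomial).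

`zr_iff`: `→`: if `x ∈ X`, `pr x = pr (χ.σ p)`, then `x = a • χ.σ p`; use `scale`.  `←`: `x = χ.σ p`; every tangent vector at `χ.σ p` is
`a • ∂₁ + b • ∂₂ + c • x` (a curve `F` in `X` near `χ.σ p` is `F ξ = a ξ • χ.σ (χ.q (F ξ))`, see `Chart.curve`), so by `add_smul` and `det` the form is
`(det) * tc = 0`.
-/

set_option autoImplicit false

open Topology Filter Metric

namespace Pool.Agent.H62.EL

open Pool.Agent.H36.BP (EN wd IsGermChart)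
open Pool.Agent.H14.PP (IsCone Chart Tan CurveAt)
open Pool.Agent.H62.EF (Lat MN pr TorusMap Sec Charts)

variable {N : ℕ} {X : Set (EN N)} {Λ : AddSubgroup ℂ} {u : EN N → ℂ}

theorem tc_an (α : TForm X Λ u) (χ : Chart X) {υ : ℂ × ℂ → ℂ} {p : ℂ × ℂ} (hp : p ∈ ball (0 : ℂ × ℂ) 2) (hυ : AnalyticAt ℂ υ p)
    (hl : ∀ᶠ y in 𝓝 p, u (χ.σ y) - υ y ∈ Λ) : AnalyticAt ℂ (tc α χ υ) p := by
  refine α.analytic χ.σ υ p (χ.σ_an p hp) hυ ?_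
  filter_upwards [hl, isOpen_ball.mem_nhds hp] with y hy hy2
  exact ⟨(χ.σ_mem y hy2).1, hy⟩

theorem mo_an (b : ℂ) (ρ : ℝ) (i j : ℕ) (p : ℂ × ℂ) : AnalyticAt ℂ (mo b ρ i j) p := by
  show AnalyticAt ℂ (fun p : ℂ × ℂ => b + ρ * (p.1 ^ i * p.2 ^ j)) p
  exact analyticAt_const.add (analyticAt_const.mul ((analyticAt_fst.pow i).mul (analyticAt_snd.pow j)))

theorem exists_prim (α : TForm X Λ u) (χ : Chart X) {b : ℂ} {ρ : ℝ} {i j : ℕ} (h : Mon Λ u χ b ρ i j) :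
    ∃ A : ℂ × ℂ → ℂ, IsPrim α χ (mo b ρ i j) A := by
  have ha : ∀ p ∈ ball (0 : ℂ × ℂ) 2, AnalyticAt ℂ (tc α χ (mo b ρ i j)) p := fun p hp =>
    tc_an α χ hp (mo_an b ρ i j p) (by
      filter_upwards [isOpen_ball.mem_nhds hp] with y hy
      exact h.lift y hy)
  obtain ⟨A, h1, h2⟩ := exists_prim_snd ha
  exact ⟨A, fun p hp => (h1 p hp).1, fun p hp => (h1 p hp).2, h2⟩

end Pool.Agent.H62.EL

end
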