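import Pool.Agent.H94.G5T.H62.EF.PrA
import Pool.Agent.H94.G5T.M07
import Pool.Agent.H94.G5T.M16
import Pool.Agent.H94.G5T.M19

/-! The parts of this file: H62.EL.Un, G4.H.Defs, G4.H.Bas. -/

section

/-!
# EL Un: the integral along short paths in the fibres

`cap_mem`: `Cap` at `(z₀, y₀)` of radius `r`: `x ∈ X` over `z ∈ closedBall z₀ r` with `dist (pr x) y₀ ≤ r`.

`IRel.eq_cap`: let `χ', c', ρ', A', p, p'` be from `IRel`; `v = (A' p' - A' p) / ρ'`.  Let `γ θ = χ'.σ (p + θ (p' - p))`, `θ ∈ [0, 1]`: points of `X`; the first coordinate of `p + θ (p' - p)` is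
constant, `u (γ θ) - z ∈ Λ` (`Mon.lift`, `mo c' ρ' 1 0 (p + θ (p' - p)) = c' + ρ' p.1 = z`), `dist (pr (γ θ)) y₀ ≤ ε + dist y y₀ ≤ r`.  By `Cap` `γ θ ∈ χ.U`, `τ = χ.q ∘ χ'.σ` is analytic near
these points, with values in `closedBall 0 1`, and `c + ρ (τ ..).1 = z`.  Near each point `p_θ = p + θ (p' - p)` we even have `c + ρ (τ y).1 = c' + ρ' y.1` [only at `p_θ` known from `Cap`;
for the derivative: for `y` near `p_θ` with `c' + ρ' y.1 ∈ closedBall z₀ r` the point `χ'.σ y` may leave the ball of radius `r`; use instead: both sides are analytic near `p_θ`, equal at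
`p_θ`, and their difference is in `Λ` (`Mon.lift` of both charts, `τ y ∈ ball 0 2` by `Chart.surj`), which is discrete, so it is `0` near `p_θ`].  So `ρ ∂₁ τ₁ = ρ'`, `∂₂ τ₁ = 0` at `p_θ`, and
`tc_trans` (`υ = mo c ρ 1 0`, `υ' = mo c' ρ' 1 0`): `tc' (p_θ) = tc (τ p_θ) (∂₁τ₁ ∂₂τ₂) = tc (τ p_θ) (ρ' / ρ) ∂₂τ₂`.  Hence the functions `θ ↦ A' (p_θ) / ρ'` and `θ ↦ A (τ p_θ) / ρ` have the
same derivative on `[0, 1]`: `tc' (p_θ) (p'.2 - p.2) / ρ'` and `(∂₂A) (τ p_θ) ∂₂τ₂ (p'.2 - p.2) / ρ` (`(p' - p).1 = 0` and `∂₂ τ₁ = 0`).  So `v = (A (τ p') - A (τ p)) / ρ`, and `τ p = χ.q x`, because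
`χ'.σ p` and `x` are proportional (`pr` equal, `pr_eq_iff`, `q_smul`); same for `p'`, `x'`.

`II_eq`: `II = h.choose`, which satisfies `IRel`.
`IRel.mulPow`: the same chart and points, `A₁ q = (mo c ρ 1 0 q - b)^n * A q` (`mo c ρ 1 0 q` does not depend on `q.2`, so `∂₂ A₁ = (mo - b)^n ∂₂ A`, and `tc (α.mulPow b n) = (mo - b)^n tc α`); at
`p, p'`: `mo = z`.
`II_mulPow`: if there is `v` with `IRel α ε z y y' v` then both sides are the unique values (`eq_cap` for the two forms with the primitives `A`, `A₁`).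
-/

set_option autoImplicit false

open Topology Filter Metric

namespace Pool.Agent.H62.EL

open Pool.Agent.H36.BP (EN wd IsGermChart)
open Pool.Agent.H14.PP (IsCone Chart Tan CurveAt jac)
open Pool.Agent.H62.EF (Lat MN pr TorusMap Sec Charts)

variable {N : ℕ} {X : Set (EN N)} {Λ : AddSubgroup ℂ} {u : EN N → ℂ}

/-- The point of the segment. -/
private noncomputable def Un_P (p p' : ℂ × ℂ) (t : ℂ) : ℂ × ℂ := p + t • (p' - p)

private theorem Un_mo (c : ℂ) (ρ : ℝ) (p : ℂ × ℂ) : mo c ρ 1 0 p = c + ρ * p.1 := by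
  simp [mo]

private theorem Un_P_mem {p p' : ℂ × ℂ} (hp : p ∈ ball (0 : ℂ × ℂ) 2) (hp' : p' ∈ ball (0 : ℂ × ℂ) 2) {θ : ℝ} (hθ : θ ∈ Set.Icc (0 : ℝ) 1) :
    Un_P p p' (θ : ℂ) ∈ ball (0 : ℂ × ℂ) 2 := by
  have hc : Convex ℝ (ball (0 : ℂ × ℂ) 2) := convex_ball _ _
  have h1 := hc.add_smul_sub_mem hp hp' hθ
  have h2 : Un_P p p' (θ : ℂ) = p + θ • (p' - p) := by
    unfold Un_P
    congr 1
  rwa [h2]

private theorem Un_vert (L : ℂ × ℂ →L[ℂ] ℂ) (d : ℂ × ℂ) (hd : d.1 = 0) : L d = d.2 * L (0, 1) := by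
  have h1 : d = d.2 • ((0, 1) : ℂ × ℂ) := by
    ext
    · simp [hd]
    · simp
  conv_lhs => rw [h1]
  rw [map_smul, smul_eq_mul]

/-- The change of charts along the segment. -/
private theorem Un_trans (hX : IsCone X) (hu : TorusMap X Λ u) (hΛ : Lat Λ) {χ χ' : Chart X} {c c' : ℂ} {ρ ρ' : ℝ}
    (hm : Mon Λ u χ c ρ 1 0) (hm' : Mon Λ u χ' c' ρ' 1 0) {q : ℂ × ℂ} (hq : q ∈ ball (0 : ℂ × ℂ) 2) (hU : χ'.σ q ∈ χ.U)
    (he : c + ρ * (χ.q (χ'.σ q)).1 = c' + ρ' * q.1) :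
    ∀ᶠ y in 𝓝 q, c + ρ * (χ.q (χ'.σ y)).1 = c' + ρ' * y.1 := by
  obtain ⟨δ, hδ, hdisc⟩ := hΛ.discrete
  have hσ : ContinuousAt χ'.σ q := (χ'.σ_an q hq).continuousAt
  have hτ : ContinuousAt (fun y => χ.q (χ'.σ y)) q := (χ.q_an _ hU).continuousAt.comp hσ
  have hτ1 : ContinuousAt (fun y => (χ.q (χ'.σ y)).1) q := continuous_fst.continuousAt.comp hτ
  have hcont : ContinuousAt (fun y : ℂ × ℂ => c + ρ * (χ.q (χ'.σ y)).1 - (c' + ρ' * y.1)) q := by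
    refine (continuousAt_const.add (continuousAt_const.mul hτ1)).sub ?_
    exact continuousAt_const.add (continuousAt_const.mul continuous_fst.continuousAt)
  have hsmall : ∀ᶠ y in 𝓝 q, ‖c + ρ * (χ.q (χ'.σ y)).1 - (c' + ρ' * y.1)‖ < δ := by
    have h1 := hcont.norm
    have h2 : ‖c + ρ * (χ.q (χ'.σ q)).1 - (c' + ρ' * q.1)‖ < δ := by
      rw [he, sub_self, norm_zero]
      exact hδ
    exact h1.eventually_lt_const h2
  filter_upwards [hsmall, isOpen_ball.mem_nhds hq, hσ (χ.isOpen_U.mem_nhds hU)] with y h1 h2 h3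
  have hyX := (χ'.σ_mem y h2).1
  obtain ⟨hb, a, ha, hay⟩ := χ.surj _ hyX h3
  have h4 := hm'.lift y h2
  have h5 := hm.lift _ hb
  have h6 : u (χ'.σ y) - u (χ.σ (χ.q (χ'.σ y))) ∈ Λ := by
    have := hu.smul _ (χ.σ_mem _ hb).1 a ha
    rwa [← hay] at this
  rw [Un_mo] at h4 h5
  have h7 : c + ρ * (χ.q (χ'.σ y)).1 - (c' + ρ' * y.1) ∈ Λ := by
    have h8 := Λ.sub_mem (Λ.sub_mem h4 h6) h5
    convert h8 using 1
    ring
  exact sub_eq_zero.mp (hdisc _ h7 h1)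

/-- The derivatives of the two primitives agree. -/
private theorem Un_deriv (hX : IsCone X) (hu : TorusMap X Λ u) (hΛ : Lat Λ) (α : TForm X Λ u) {χ χ' : Chart X} {c c' : ℂ} {ρ ρ' : ℝ}
    (hm : Mon Λ u χ c ρ 1 0) (hm' : Mon Λ u χ' c' ρ' 1 0) {A A' : ℂ × ℂ → ℂ} (hA : IsPrim α χ (mo c ρ 1 0) A)
    (hA' : IsPrim α χ' (mo c' ρ' 1 0) A') {q : ℂ × ℂ} (hq : q ∈ ball (0 : ℂ × ℂ) 2) (hU : χ'.σ q ∈ χ.U)
    (he : c + ρ * (χ.q (χ'.σ q)).1 = c' + ρ' * q.1) {d : ℂ × ℂ} (hd : d.1 = 0) :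
    HasFDerivAt (fun y => A (χ.q (χ'.σ y))) (fderiv ℂ (fun y => A (χ.q (χ'.σ y))) q) q ∧
      fderiv ℂ A' q d / ρ' = fderiv ℂ (fun y => A (χ.q (χ'.σ y))) q d / ρ := by
  have hρ : (ρ : ℂ) ≠ 0 := by exact_mod_cast hm.pos.ne'
  have hρ' : (ρ' : ℂ) ≠ 0 := by exact_mod_cast hm'.pos.ne'
  have hσ : HasFDerivAt χ'.σ (fderiv ℂ χ'.σ q) q := (χ'.σ_an q hq).differentiableAt.hasFDerivAt
  have hb : χ.q (χ'.σ q) ∈ ball (0 : ℂ × ℂ) 2 := (χ.surj _ (χ'.σ_mem q hq).1 hU).1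
  have hτ : HasFDerivAt (fun y => χ.q (χ'.σ y)) (fderiv ℂ (fun y => χ.q (χ'.σ y)) q) q :=
    ((χ.q_an _ hU).differentiableAt.comp q (χ'.σ_an q hq).differentiableAt).hasFDerivAt
  have hAd : HasFDerivAt A (fderiv ℂ A (χ.q (χ'.σ q))) (χ.q (χ'.σ q)) := (hA.an _ hb).differentiableAt.hasFDerivAt
  have hcomp : HasFDerivAt (fun y => A (χ.q (χ'.σ y))) ((fderiv ℂ A (χ.q (χ'.σ q))).comp (fderiv ℂ (fun y => χ.q (χ'.σ y)) q)) q :=
    hAd.comp q hτ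
  set D := fderiv ℂ (fun y => χ.q (χ'.σ y)) q with hD
  have hfst : ∀ w : ℂ × ℂ, ρ * (D w).1 = ρ' * w.1 := by
    intro w
    have h1 := Un_trans hX hu hΛ hm hm' hq hU he
    have h2 : HasFDerivAt (fun y : ℂ × ℂ => c + ρ * (χ.q (χ'.σ y)).1)
        ((ρ : ℂ) • ((ContinuousLinearMap.fst ℂ ℂ ℂ).comp D)) q := by
      have h3 : HasFDerivAt (fun y => (χ.q (χ'.σ y)).1) ((ContinuousLinearMap.fst ℂ ℂ ℂ).comp D) q :=
        (ContinuousLinearMap.fst ℂ ℂ ℂ).hasFDerivAt.comp q hτ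
      exact (h3.const_mul (ρ : ℂ)).const_add c
    have h4 : HasFDerivAt (fun y : ℂ × ℂ => c' + ρ' * y.1) ((ρ' : ℂ) • (ContinuousLinearMap.fst ℂ ℂ ℂ)) q :=
      ((ContinuousLinearMap.fst ℂ ℂ ℂ).hasFDerivAt.const_mul (ρ' : ℂ)).const_add c'
    have h5 : HasFDerivAt (fun y : ℂ × ℂ => c + ρ * (χ.q (χ'.σ y)).1) ((ρ' : ℂ) • (ContinuousLinearMap.fst ℂ ℂ ℂ)) q :=
      h4.congr_of_eventuallyEq h1
    have h6 := h2.unique h5
    have h7 := congrArg (fun L : ℂ × ℂ →L[ℂ] ℂ => L w) h6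
    simpa using h7
  have hDd : (D d).1 = 0 := by
    have h1 := hfst d
    rw [hd, mul_zero] at h1
    exact (mul_eq_zero.mp h1).resolve_left hρ
  have hD01 : (D (0, 1)).1 = 0 := by
    have h1 := hfst (0, 1)
    simp only [mul_zero] at h1
    exact (mul_eq_zero.mp h1).resolve_left hρ
  have hD10 : (D (1, 0)).1 = ρ' / ρ := by
    have h1 := hfst (1, 0)
    simp only [mul_one] at h1
    field_simp
    rw [← h1]
    ring
  have hD2 : (D d).2 = d.2 * (D (0, 1)).2 := by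
    have h1 := Un_vert ((ContinuousLinearMap.snd ℂ ℂ ℂ).comp D) d hd
    simpa using h1
  have htc := tc_trans hX hu α χ χ' (υ := mo c ρ 1 0) (υ' := mo c' ρ' 1 0) hq hU (hm'.lift q hq)
    (by rw [Un_mo, Un_mo]; exact he)
  have hjac : jac (fun y => χ.q (χ'.σ y)) q = ρ' / ρ * (D (0, 1)).2 := by
    unfold jac
    rw [← hD, hD10, hD01]
    ring
  refine ⟨by rw [hcomp.fderiv]; exact hcomp, ?_⟩
  rw [hcomp.fderiv, ContinuousLinearMap.comp_apply, Un_vert _ _ hDd, hA.der _ hb, hD2, Un_vert _ _ hd, hA'.der _ hq, htc, hjac]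
  field_simp

theorem IRel.eq_cap (hX : IsCone X) (hu : TorusMap X Λ u) (hΛ : Lat Λ) {α : TForm X Λ u} {ε : ℝ} {z v : ℂ} {y y' : MN N}
    (h : IRel α ε z y y' v) {χ : Chart X} {c : ℂ} {ρ : ℝ} {z₀ : ℂ} {y₀ : MN N} {r : ℝ} (hc : Cap Λ u χ c ρ z₀ y₀ r)
    {A : ℂ × ℂ → ℂ} (hA : IsPrim α χ (mo c ρ 1 0) A) (hz : z ∈ closedBall z₀ r) (hy : dist y y₀ + ε ≤ r) {x x' : EN N}
    (hx : x ∈ X) (hx' : x' ∈ X) (hxy : pr x = y) (hxy' : pr x' = y') : v = (A (χ.q x') - A (χ.q x)) / ρ := by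
  obtain ⟨χ', c', ρ', A', p, p', hm', hA', hp, hp', hpz, hpz', hpy, hpy', hseg, hv⟩ := h
  have hm := hc.mon
  have hρ : (ρ : ℂ) ≠ 0 := by exact_mod_cast hm.pos.ne'
  have hρ' : (ρ' : ℂ) ≠ 0 := by exact_mod_cast hm'.pos.ne'
  have hd : (p' - p).1 = 0 := by
    have h1 : (ρ' : ℂ) * (p'.1 - p.1) = 0 := by linear_combination hpz' - hpz
    exact (mul_eq_zero.mp h1).resolve_left hρ'
  have hP1 : ∀ t : ℂ, (Un_P p p' t).1 = p.1 := by
    intro t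
    have h1 : (Un_P p p' t).1 = p.1 + t * (p' - p).1 := rfl
    rw [h1, hd, mul_zero, add_zero]
  have hcap : ∀ θ ∈ Set.Icc (0 : ℝ) 1, χ'.σ (Un_P p p' (θ : ℂ)) ∈ χ.U ∧
      c + ρ * (χ.q (χ'.σ (Un_P p p' (θ : ℂ)))).1 = c' + ρ' * (Un_P p p' (θ : ℂ)).1 := by
    intro θ hθ
    have hb := Un_P_mem hp hp' hθ
    have h1 : u (χ'.σ (Un_P p p' (θ : ℂ))) - z ∈ Λ := by
      have h2 := hm'.lift _ hb
      rwa [Un_mo, hP1, hpz] at h2
    have h2 : dist (pr (χ'.σ (Un_P p p' (θ : ℂ)))) y₀ ≤ r := by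
      have h3 : dist (pr (χ'.σ (Un_P p p' (θ : ℂ)))) y ≤ ε := hseg θ hθ
      linarith [dist_triangle (pr (χ'.σ (Un_P p p' (θ : ℂ)))) y y₀]
    obtain ⟨h3, _, h4⟩ := hc.cap z hz _ (χ'.σ_mem _ hb).1 h1 h2
    exact ⟨h3, by rw [h4, hP1, hpz]⟩
  set f : ℝ → ℂ := fun θ => A' (Un_P p p' (θ : ℂ)) / ρ' - A (χ.q (χ'.σ (Un_P p p' (θ : ℂ)))) / ρ with hf
  have hder : ∀ θ ∈ Set.Icc (0 : ℝ) 1, HasDerivAt f 0 θ := by
    intro θ hθ
    have hb := Un_P_mem hp hp' hθ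
    obtain ⟨h1, h2⟩ := Un_deriv hX hu hΛ α hm hm' hA hA' hb (hcap θ hθ).1 (hcap θ hθ).2 hd
    have hPd : HasDerivAt (fun t : ℂ => Un_P p p' t) (p' - p) (θ : ℂ) := by
      have h3 := ((hasDerivAt_id (θ : ℂ)).smul_const (p' - p)).const_add p
      rw [one_smul] at h3
      exact h3
    have h4 : HasDerivAt (fun t : ℂ => A' (Un_P p p' t)) (fderiv ℂ A' (Un_P p p' (θ : ℂ)) (p' - p)) (θ : ℂ) :=
      (hA'.an _ hb).differentiableAt.hasFDerivAt.comp_hasDerivAt (θ : ℂ) hPd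
    have h5 : HasDerivAt (fun t : ℂ => A (χ.q (χ'.σ (Un_P p p' t))))
        (fderiv ℂ (fun y => A (χ.q (χ'.σ y))) (Un_P p p' (θ : ℂ)) (p' - p)) (θ : ℂ) :=
      h1.comp_hasDerivAt (θ : ℂ) hPd
    have h6 := ((h4.div_const (ρ' : ℂ)).sub (h5.div_const (ρ : ℂ))).comp_ofReal
    rw [h2, sub_self] at h6
    exact h6
  have hconst := constant_of_has_deriv_right_zero (f := f) (a := 0) (b := 1)
    (fun θ hθ => (hder θ hθ).continuousAt.continuousWithinAt)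
    (fun θ hθ => (hder θ ⟨hθ.1, hθ.2.le⟩).hasDerivWithinAt) 1 ⟨zero_le_one, le_rfl⟩
  have hP0 : Un_P p p' ((0 : ℝ) : ℂ) = p := by
    unfold Un_P
    simp
  have hP1' : Un_P p p' ((1 : ℝ) : ℂ) = p' := by
    unfold Un_P
    simp
  have hX0 : ∀ w ∈ X, w ≠ 0 := fun w hw h => hX.zero_notMem (h ▸ hw)
  have hq : χ.q x = χ.q (χ'.σ p) := by
    have hU := (hcap 0 ⟨le_rfl, zero_le_one⟩).1
    rw [hP0] at hU
    obtain ⟨a, ha, hax⟩ := (Pool.Agent.H62.EF.pr_eq_iff (hX0 x hx) (hX0 _ (χ'.σ_mem p hp).1)).mp (hxy.trans hpy.symm)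
    rw [hax]
    exact χ.q_smul _ hU a ha
  have hq' : χ.q x' = χ.q (χ'.σ p') := by
    have hU := (hcap 1 ⟨zero_le_one, le_rfl⟩).1
    rw [hP1'] at hU
    obtain ⟨a, ha, hax⟩ := (Pool.Agent.H62.EF.pr_eq_iff (hX0 x' hx') (hX0 _ (χ'.σ_mem p' hp').1)).mp (hxy'.trans hpy'.symm)
    rw [hax]
    exact χ.q_smul _ hU a ha
  simp only [hf] at hconst
  rw [hP0, hP1'] at hconst
  rw [hv, hq, hq']
  rw [sub_div, sub_div]
  linear_combination hconst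

theorem II_eq (hX : IsCone X) (hu : TorusMap X Λ u) (hΛ : Lat Λ) {α : TForm X Λ u} {ε : ℝ} {z : ℂ} {y y' : MN N}
    (h : ∃ v, IRel α ε z y y' v) {χ : Chart X} {c : ℂ} {ρ : ℝ} {z₀ : ℂ} {y₀ : MN N} {r : ℝ} (hc : Cap Λ u χ c ρ z₀ y₀ r)
    {A : ℂ × ℂ → ℂ} (hA : IsPrim α χ (mo c ρ 1 0) A) (hz : z ∈ closedBall z₀ r) (hy : dist y y₀ + ε ≤ r) {x x' : EN N}
    (hx : x ∈ X) (hx' : x' ∈ X) (hxy : pr x = y) (hxy' : pr x' = y') : II α ε z y y' = (A (χ.q x') - A (χ.q x)) / ρ := by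
  have h1 : II α ε z y y' = h.choose := by
    unfold II
    rw [dif_pos h]
  rw [h1]
  exact IRel.eq_cap hX hu hΛ h.choose_spec hc hA hz hy hx hx' hxy hxy'

private theorem Un_prim {α : TForm X Λ u} {χ : Chart X} {c : ℂ} {ρ : ℝ} {A : ℂ × ℂ → ℂ} (hA : IsPrim α χ (mo c ρ 1 0) A) (b : ℂ) (n : ℕ) :
    IsPrim (α.mulPow b n) χ (mo c ρ 1 0) (fun q => (mo c ρ 1 0 q - b) ^ n * A q) := by
  refine ⟨fun p hp => ?_, fun p hp => ?_, fun s hs => ?_⟩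
  · exact (((mo_an c ρ 1 0 p).sub analyticAt_const).pow n).mul (hA.an p hp)
  · have h1 : HasFDerivAt (fun q : ℂ × ℂ => mo c ρ 1 0 q - b) ((ρ : ℂ) • (ContinuousLinearMap.fst ℂ ℂ ℂ)) p := by
      have h2 : (fun q : ℂ × ℂ => mo c ρ 1 0 q - b) = fun q => c + ρ * q.1 - b := by
        funext q
        rw [Un_mo]
      rw [h2]
      exact (((ContinuousLinearMap.fst ℂ ℂ ℂ).hasFDerivAt.const_mul (ρ : ℂ)).const_add c).sub_const b
    have h3 := h1.pow n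
    have h4 := h3.mul (hA.an p hp).differentiableAt.hasFDerivAt
    have h5 : fderiv ℂ (fun q => (mo c ρ 1 0 q - b) ^ n * A q) p = _ := h4.fderiv
    rw [h5]
    simp only [ContinuousLinearMap.add_apply, ContinuousLinearMap.smul_apply, ContinuousLinearMap.coe_fst', smul_eq_mul, mul_zero,
      add_zero, hA.der p hp]
    rfl
  · simp only [hA.zero s hs, mul_zero]

theorem IRel.mulPow {α : TForm X Λ u} {ε : ℝ} {z v : ℂ} {y y' : MN N} (h : IRel α ε z y y' v) (b : ℂ) (n : ℕ) :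
    IRel (α.mulPow b n) ε z y y' ((z - b) ^ n * v) := by
  obtain ⟨χ', c', ρ', A', p, p', hm', hA', hp, hp', hpz, hpz', hpy, hpy', hseg, hv⟩ := h
  refine ⟨χ', c', ρ', fun q => (mo c' ρ' 1 0 q - b) ^ n * A' q, p, p', hm', Un_prim hA' b n, hp, hp', hpz, hpz', hpy, hpy', hseg, ?_⟩
  simp only [Un_mo]
  rw [hpz, hpz', hv]
  ring

theorem II_mulPow (hX : IsCone X) (hu : TorusMap X Λ u) (hΛ : Lat Λ) {α : TForm X Λ u} {ε : ℝ} {z : ℂ} {y y' : MN N}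
    (h : ∃ v, IRel α ε z y y' v) {χ : Chart X} {c : ℂ} {ρ : ℝ} {z₀ : ℂ} {y₀ : MN N} {r : ℝ} (hc : Cap Λ u χ c ρ z₀ y₀ r)
    (hz : z ∈ closedBall z₀ r) (hy : dist y y₀ + ε ≤ r) (b : ℂ) (n : ℕ) :
    II (α.mulPow b n) ε z y y' = (z - b) ^ n * II α ε z y y' := by
  obtain ⟨v, hv⟩ := h
  obtain ⟨A, hA⟩ := exists_prim α χ hc.mon
  obtain ⟨x, hx, hxy, x', hx', hxy'⟩ : ∃ x ∈ X, pr x = y ∧ ∃ x' ∈ X, pr x' = y' := by
    obtain ⟨χ', c', ρ', A', p, p', _, _, hp, hp', _, _, hpy, hpy', _, _⟩ := hv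
    exact ⟨_, (χ'.σ_mem p hp).1, hpy, _, (χ'.σ_mem p' hp').1, hpy'⟩
  rw [II_eq hX hu hΛ ⟨v, hv⟩ hc hA hz hy hx hx' hxy hxy',
    II_eq hX hu hΛ ⟨_, hv.mulPow b n⟩ hc (Un_prim hA b n) hz hy hx hx' hxy hxy',
    ← IRel.eq_cap hX hu hΛ hv hc hA hz hy hx hx' hxy hxy',
    ← IRel.eq_cap hX hu hΛ (hv.mulPow b n) hc (Un_prim hA b n) hz hy hx hx' hxy hxy']

end Pool.Agent.H62.EL

end

section

/-!
# G4 H Defs: few bad hits, by theta functions; definitions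

`ThF Γ W e`: theta factors `e l y` of the weight `wt W` for the lattice `Γ`, with the cocycle property.  `lv b c`: the vector `∑ c i b i`, `b` a real basis in `Γ`, `c` integral.  `ThM b W e M f`: `f` is a theta function of the
weight `M wt W` for the lattice spanned by `b`.  `dir a f`: the derivative in the direction `a`.  `Cov d Z`: near each of its points `Z` is the union of the images of finitely many holomorphic maps from the unit polydisc of `ℂ^d`.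
-/

set_option autoImplicit false

open Topology Filter Metric

namespace Pool.Agent.G4.H

open Pool.Agent.AD (Vd)
open Pool.Agent.TG (Lat)
open Pool.Agent.G3 (wt)

variable {k r : ℕ}

/-- theta factors of the weight `wt W` -/
structure ThF (Γ : AddSubgroup (Vd (k + 1))) (W : Fin r → Vd (k + 1) →L[ℂ] ℂ) (e : Vd (k + 1) → Vd (k + 1) → ℂ) : Prop where
  lat : Lat Γ
  pos : ∀ y, (∀ i, W i y = 0) → y = 0
  an : ∀ l ∈ Γ, ∀ y, AnalyticAt ℂ (e l) y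
  nrm : ∀ l ∈ Γ, ∀ y, ‖e l y‖ = Real.exp (wt W y - wt W (y + l))
  coc : ∀ l ∈ Γ, ∀ l' ∈ Γ, ∀ y, e (l + l') y = e l (y + l') * e l' y

/-- real bases of `ℂ^(k+1)` -/
abbrev RB (k : ℕ) : Type := Module.Basis (Fin (2 * (k + 1))) ℝ (Vd (k + 1))

/-- the integral combinations of the basis -/
noncomputable def lv (b : RB k) (c : Fin (2 * (k + 1)) → ℤ) : Vd (k + 1) := ∑ i, (c i : ℝ) • b i

/-- the Gaussian with the peak `p`: `‖pk W M p y‖ * exp (- M wt y) = exp (- M wt (y - p))` -/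
noncomputable def pk (W : Fin r → Vd (k + 1) →L[ℂ] ℂ) (M : ℕ) (p y : Vd (k + 1)) : ℂ :=
  Complex.exp ((M : ℂ) * ∑ i, (2 * (starRingEnd ℂ) (W i p) * W i y - (starRingEnd ℂ) (W i p) * W i p))

/-- the theta series with the peaks `p - lv b c` -/
noncomputable def th (b : RB k) (W : Fin r → Vd (k + 1) →L[ℂ] ℂ) (e : Vd (k + 1) → Vd (k + 1) → ℂ) (M : ℕ) (p y : Vd (k + 1)) : ℂ :=
  ∑' c : Fin (2 * (k + 1)) → ℤ, e (lv b c) y ^ M * pk W M p (y + lv b c)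

/-- theta functions of the weight `M wt W` for the lattice spanned by `b` -/
structure ThM (b : RB k) (e : Vd (k + 1) → Vd (k + 1) → ℂ) (M : ℕ) (f : Vd (k + 1) → ℂ) : Prop where
  an : ∀ y, AnalyticAt ℂ f y
  per : ∀ (c : Fin (2 * (k + 1)) → ℤ) (y : Vd (k + 1)), e (lv b c) y ^ M * f (y + lv b c) = f y

/-- the derivative in the direction `a` -/
noncomputable def dir (a : Vd (k + 1)) (f : Vd (k + 1) → ℂ) (y : Vd (k + 1)) : ℂ := fderiv ℂ f y a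

end Pool.Agent.G4.H

end

section

/-!
# G4 H Bas: real bases in lattices

`exists_rb`: the lattice `Γ` contains a real basis (`Γ` spans `ℂ^(k+1)` over `ℝ`: a proper real subspace does not have all points within distance `R`).  `lv_mem`, `lv_add`.  `lv_red`: every point is within distance `R` of a point `lv b c`.
`lv_mul`: for `Γ ≤ Λ`, `b` in `Γ`: there is `m ≥ 1` with `m l ∈ {lv b c}` for all `l ∈ Λ` (`Λ / {lv b c}` is finite: the representatives within distance `R` of `0` are finitely many, `Λ` is discrete).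
`lv_low`: `‖lv b c‖ ≥ κ * ∑ |c i|`.
-/

set_option autoImplicit false

open Topology Filter Metric

namespace Pool.Agent.G4.H

open Pool.Agent.AD (Vd)
open Pool.Agent.TG (Lat)
open Pool.Agent.G3 (wt)

variable {k r : ℕ} {Λ Γ : AddSubgroup (Vd (k + 1))}

private theorem Bas_span {n : ℕ} {L : AddSubgroup (Vd n)} {R : ℝ} (h : ∀ y : Vd n, ∃ l ∈ L, ‖y - l‖ ≤ R) :
    Submodule.span ℝ (L : Set (Vd n)) = ⊤ := by
  by_contra hne
  obtain ⟨f, hf, hle⟩ := Submodule.exists_le_ker_of_lt_top _ (lt_top_iff_ne_top.2 hne)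
  obtain ⟨y, hy⟩ : ∃ y, f y ≠ 0 := by
    by_contra hcon
    push Not at hcon
    exact hf (LinearMap.ext hcon)
  set g := LinearMap.toContinuousLinearMap f with hg
  obtain ⟨l, hl, hyl⟩ := h (((‖g‖ * R + 1) / f y) • y)
  have h1 : f l = 0 := hle (Submodule.subset_span hl)
  have h2 : f (((‖g‖ * R + 1) / f y) • y - l) = ‖g‖ * R + 1 := by
    rw [map_sub, h1, map_smul, smul_eq_mul, sub_zero, div_mul_cancel₀ _ hy]
  have h3 : ‖g (((‖g‖ * R + 1) / f y) • y - l)‖ ≤ ‖g‖ * R :=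
    (g.le_opNorm _).trans (mul_le_mul_of_nonneg_left hyl (norm_nonneg _))
  have h4 : g (((‖g‖ * R + 1) / f y) • y - l) = ‖g‖ * R + 1 := h2
  rw [h4] at h3
  have h5 := (le_abs_self (‖g‖ * R + 1)).trans h3
  linarith

theorem exists_rb (hΓ : Lat Γ) : ∃ b : RB k, ∀ i, b i ∈ Γ := by
  obtain ⟨R, -, hR⟩ := hΓ.cpt
  have hs : ⊤ ≤ Submodule.span ℝ (Γ : Set (Vd (k + 1))) := (Bas_span hR).ge
  let B := Module.Basis.ofSpan hs
  have hB : ∀ i, B i ∈ (Γ : Set (Vd (k + 1))) := fun i =>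
    Module.Basis.ofSpan_subset hs (Set.mem_range_self i)
  letI := FiniteDimensional.fintypeBasisIndex B
  have hc : Fintype.card ((linearIndepOn_empty ℝ (id : Vd (k + 1) → Vd (k + 1))).extend (Set.empty_subset (Γ : Set (Vd (k + 1))))) =
      2 * (k + 1) := by
    rw [← Module.finrank_eq_card_basis B, finrank_real_of_complex, Module.finrank_fin_fun]
  refine ⟨B.reindex (Fintype.equivFinOfCardEq hc), fun i => ?_⟩
  rw [Module.Basis.reindex_apply]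
  exact hB _

theorem lv_mem {b : RB k} (hb : ∀ i, b i ∈ Γ) (c : Fin (2 * (k + 1)) → ℤ) : lv b c ∈ Γ := by
  refine AddSubgroup.sum_mem _ fun i _ => ?_
  rw [Int.cast_smul_eq_zsmul]
  exact AddSubgroup.zsmul_mem _ (hb i) (c i)

theorem lv_add (b : RB k) (c c' : Fin (2 * (k + 1)) → ℤ) : lv b (c + c') = lv b c + lv b c' := by
  unfold lv
  rw [← Finset.sum_add_distrib]
  refine Finset.sum_congr rfl fun i _ => ?_
  rw [Pi.add_apply, Int.cast_add, add_smul]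

private theorem Bas_eq (b : RB k) (c : Fin (2 * (k + 1)) → ℤ) : lv b c = b.equivFun.symm fun i => (c i : ℝ) := by
  rw [Module.Basis.equivFun_symm_apply]
  rfl

private theorem Bas_nsmul (b : RB k) (n : ℕ) (c : Fin (2 * (k + 1)) → ℤ) : n • lv b c = lv b (n • c) := by
  rw [Bas_eq, Bas_eq, ← map_nsmul]
  congr 1
  funext i
  simp

private theorem Bas_sub (b : RB k) (c c' : Fin (2 * (k + 1)) → ℤ) : lv b c - lv b c' = lv b (c - c') := by
  rw [Bas_eq, Bas_eq, Bas_eq, ← map_sub]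
  congr 1
  funext i
  simp

theorem lv_red (b : RB k) : ∃ R : ℝ, 0 < R ∧ ∀ y : Vd (k + 1), ∃ c : Fin (2 * (k + 1)) → ℤ, ‖y - lv b c‖ ≤ R := by
  have h0 : (0 : ℝ) ≤ ∑ i, ‖b i‖ := Finset.sum_nonneg fun _ _ => norm_nonneg _
  refine ⟨∑ i, ‖b i‖ + 1, by linarith, fun y => ⟨fun i => ⌊b.equivFun y i⌋, ?_⟩⟩
  have h1 : y - lv b (fun i => ⌊b.equivFun y i⌋) = ∑ i, Int.fract (b.equivFun y i) • b i := by
    conv_lhs => rw [← b.sum_equivFun y]
    unfold lv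
    rw [← Finset.sum_sub_distrib]
    refine Finset.sum_congr rfl fun i _ => ?_
    rw [← sub_smul]
    simp only [b.sum_equivFun]
    rfl
  rw [h1]
  have h2 : ‖∑ i, Int.fract (b.equivFun y i) • b i‖ ≤ ∑ i, ‖b i‖ := by
    refine (norm_sum_le _ _).trans (Finset.sum_le_sum fun i _ => ?_)
    rw [norm_smul, Real.norm_eq_abs, abs_of_nonneg (Int.fract_nonneg _)]
    exact mul_le_of_le_one_left (norm_nonneg _) (Int.fract_lt_one _).le
  linarith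

theorem lv_low (b : RB k) : ∃ κ : ℝ, 0 < κ ∧ ∀ c : Fin (2 * (k + 1)) → ℤ, κ * ∑ i, |(c i : ℝ)| ≤ ‖lv b c‖ := by
  obtain ⟨K, hK, ha⟩ := LinearMap.exists_antilipschitzWith (b.equivFun.symm : (Fin (2 * (k + 1)) → ℝ) →ₗ[ℝ] Vd (k + 1))
    (LinearEquiv.ker _)
  have hK' : (0 : ℝ) < K := hK
  have hn : (0 : ℝ) < 2 * (k + 1) := by positivity
  refine ⟨(2 * (k + 1) * K)⁻¹, by positivity, fun c => ?_⟩
  rw [inv_mul_le_iff₀ (by positivity)]
  have h1 := ha.le_mul_dist (fun i => (c i : ℝ)) 0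
  rw [map_zero, dist_zero_right, dist_zero_right] at h1
  have h2 : ‖(fun i => (c i : ℝ))‖ ≤ K * ‖lv b c‖ := by
    rw [Bas_eq]
    exact h1
  have h3 : ∑ i, |(c i : ℝ)| ≤ ∑ _i : Fin (2 * (k + 1)), ‖(fun i => (c i : ℝ))‖ :=
    Finset.sum_le_sum fun i _ => norm_le_pi_norm (fun i => (c i : ℝ)) i
  rw [Finset.sum_const, Finset.card_univ, Fintype.card_fin, nsmul_eq_mul] at h3
  push_cast at h3
  calc ∑ i, |(c i : ℝ)| ≤ 2 * (k + 1) * ‖(fun i => (c i : ℝ))‖ := h3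
    _ ≤ 2 * (k + 1) * (K * ‖lv b c‖) := mul_le_mul_of_nonneg_left h2 hn.le
    _ = 2 * (k + 1) * K * ‖lv b c‖ := by ring

private theorem Bas_fin {L : AddSubgroup (Vd (k + 1))} (hL : Lat L) (R : ℝ) : {l | l ∈ L ∧ ‖l‖ ≤ R}.Finite := by
  obtain ⟨δ, hδ, hd⟩ := hL.disc
  obtain ⟨t, -, htf, ht⟩ := (isCompact_closedBall (0 : Vd (k + 1)) R).finite_cover_balls (half_pos hδ)
  have h1 : {l | l ∈ L ∧ ‖l‖ ≤ R} ⊆ ⋃ x ∈ t, {l | l ∈ L ∧ l ∈ ball x (δ / 2)} := by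
    rintro l ⟨hl, hn⟩
    have h2 := ht (mem_closedBall_zero_iff.2 hn)
    obtain ⟨x, hx, hlx⟩ := Set.mem_iUnion₂.1 h2
    exact Set.mem_iUnion₂.2 ⟨x, hx, hl, hlx⟩
  refine (htf.biUnion fun x _ => ?_).subset h1
  refine Set.Subsingleton.finite fun l hl l' hl' => ?_
  have h2 : ‖l - l'‖ < δ := by
    rw [← dist_eq_norm]
    have h3 := dist_triangle_right l l' x
    have h4 := mem_ball.1 hl.2
    have h5 := mem_ball.1 hl'.2
    linarith
  exact sub_eq_zero.1 (hd _ (L.sub_mem hl.1 hl'.1) h2)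

theorem lv_mul (hΛ : Lat Λ) {b : RB k} (hb : ∀ i, b i ∈ Λ) : ∃ m : ℕ, 1 ≤ m ∧ ∀ l ∈ Λ, ∃ c : Fin (2 * (k + 1)) → ℤ, m • l = lv b c := by
  obtain ⟨R, hR, hred⟩ := lv_red b
  have hF := Bas_fin hΛ R
  set F := hF.toFinset with hFd
  refine ⟨F.card.factorial, Nat.one_le_iff_ne_zero.2 (Nat.factorial_ne_zero _), fun l hl => ?_⟩
  choose c hc using fun j : ℕ => hred (j • l)
  have hmaps : ∀ j ∈ Finset.range (F.card + 1), j • l - lv b (c j) ∈ F := by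
    intro j _
    rw [hFd, Set.Finite.mem_toFinset]
    exact ⟨Λ.sub_mem (Λ.nsmul_mem hl j) (lv_mem hb _), hc j⟩
  obtain ⟨i, hi, j, hj, hij, he⟩ := Finset.exists_ne_map_eq_of_card_lt_of_maps_to
    (by rw [Finset.card_range]; exact Nat.lt_succ_self _) hmaps
  have key : ∀ i j : ℕ, i < j → j < F.card + 1 → i • l - lv b (c i) = j • l - lv b (c j) →
      ∃ c' : Fin (2 * (k + 1)) → ℤ, F.card.factorial • l = lv b c' := by
    intro i j hij hj he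
    have h1 : (j - i) • l = lv b (c j - c i) := by
      rw [← Bas_sub, sub_nsmul l hij.le]
      have h2 : j • l = i • l - lv b (c i) + lv b (c j) := by
        rw [he, sub_add_cancel]
      rw [h2]
      abel
    obtain ⟨q, hq⟩ := Nat.dvd_factorial (Nat.sub_pos_of_lt hij) (by omega : j - i ≤ F.card)
    refine ⟨q • (c j - c i), ?_⟩
    rw [← Bas_nsmul, ← h1, smul_smul, mul_comm, ← hq]
  rw [Finset.mem_range] at hi hj
  rcases lt_or_gt_of_ne hij with h | h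
  · exact key i j h hj he
  · exact key j i h hi he.symm

/-- the weight is positive definite -/
theorem wt_low {W : Fin r → Vd (k + 1) →L[ℂ] ℂ} (hW : ∀ y, (∀ i, W i y = 0) → y = 0) : ∃ c₀ : ℝ, 0 < c₀ ∧ ∀ y, c₀ * ‖y‖ ^ 2 ≤ wt W y := by
  let T : Vd (k + 1) →ₗ[ℂ] (Fin r → ℂ) := LinearMap.pi fun i => (W i : Vd (k + 1) →ₗ[ℂ] ℂ)
  have hT : LinearMap.ker T = ⊥ := by
    rw [LinearMap.ker_eq_bot']
    intro y hy
    exact hW y fun i => congrFun hy i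
  obtain ⟨K, hK, ha⟩ := LinearMap.exists_antilipschitzWith T hT
  have hK' : (0 : ℝ) < K := hK
  refine ⟨((K : ℝ) ^ 2)⁻¹, by positivity, fun y => ?_⟩
  rw [inv_mul_le_iff₀ (by positivity)]
  have h1 := ha.le_mul_dist y 0
  rw [map_zero, dist_zero_right, dist_zero_right] at h1
  have hw : 0 ≤ wt W y := Finset.sum_nonneg fun i _ => sq_nonneg _
  have h2 : ‖T y‖ ≤ Real.sqrt (wt W y) := by
    refine (pi_norm_le_iff_of_nonneg (Real.sqrt_nonneg _)).2 fun i => ?_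
    refine Real.le_sqrt_of_sq_le ?_
    exact Finset.single_le_sum (f := fun i => ‖W i y‖ ^ 2) (fun _ _ => sq_nonneg _) (Finset.mem_univ i)
  have h3 : ‖y‖ ≤ K * Real.sqrt (wt W y) := h1.trans (mul_le_mul_of_nonneg_left h2 hK'.le)
  calc ‖y‖ ^ 2 ≤ (K * Real.sqrt (wt W y)) ^ 2 := pow_le_pow_left₀ (norm_nonneg _) h3 2
    _ = K ^ 2 * wt W y := by rw [mul_pow, Real.sq_sqrt hw]

end Pool.Agent.G4.H

end
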