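import Pool.Agent.H94.G5T.M39

/-! The parts of this file: H13.CV.Appr, H13.CV.Val. -/

section

/-!
# CV Appr: weak approximation

(1) `E ≠ E'` implies that there is `f` with `0 ≤ ord_E f` and `ord_{E'} f < 0`: otherwise `0 ≤ ord_E f → 0 ≤ ord_{E'} f` for all `f`.  Then `ord_E f = 0` implies `ord_{E'} f = 0` (apply it to `f` and `f⁻¹`).
Let `oz E t = 1`, `k = oz E' t ≥ 0`.  For `f ≠ 0`, `f * t ^ (- oz E f)` has order `0` at `E`, so `oz E' f = oz E f * k`.  With `f` a uniformizer of `E'`: `1 = oz E f * k`, so `k = 1` (`k ≥ 0`), so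
`oz E' = oz E` and `E = E'` (`Place.ext'`).
(2) `E ≠ E'` implies that there is `s ≠ 0` with `oz E s < 0`, `0 < oz E' s`: `f` as in (1) and `g` as in (1) for `(E', E)`: `s = g / f`:
`ord_E g < 0`, `0 ≤ ord_E f`, `0 ≤ ord_{E'} g`, `ord_{E'} f < 0`.
(3) `exists_sep`: for a finite set `T` of places not containing `E` there is `s ≠ 0` with `oz E s < 0`, `0 < oz E' s` for all `E' ∈ T`.  Induction on `T`: `T = ∅`: inverse of a uniformizer.  Let `a` be good
for `T`, and `b` for `E'' ∉ T`, as in (2).  If `0 ≤ oz E'' a`, then `a ^ r * b` is good for large `r` (at `E`: both negative; at `E' ∈ T`: `r * oz E' a + oz E' b > 0` for large `r`; at `E''`: `≥ oz E'' b > 0`).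
If `oz E'' a < 0`: `b * a ^ r / (1 + a ^ r)`: at `E` and at `E''`, `a ^ r / (1 + a ^ r)` has order `0`; at `E' ∈ T`: `1 + a ^ r` has order `0`, so the order is `oz E' b + r * oz E' a > 0` for large `r`.
(`1 + a ^ r ≠ 0` as at `E` it has negative order.)
(4) for all `n` there is `e` with `n ≤ ord_E (e - 1)` and `n ≤ ord_{E'} e` for all `E' ∈ T`: with `s` as in (3): `e = s ^ r / (1 + s ^ r)`, `e - 1 = - 1 / (1 + s ^ r)`, `r ≥ n`.
(5) `approx`: `f = ∑ E ∈ T, g E * e_E` with `e_E` as in (4) for `E` and `T.erase E`, with `n' = n + max` of the `- oz E' (g E)`: at `E'`: `f - g E' = g E' (e_{E'} - 1) + ∑ E ≠ E', g E * e_E`.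
-/

set_option autoImplicit false

open Pool.Agent.H23.Fano (PrimeDivisorOver Form regularForms)

noncomputable section

namespace Pool.Agent.H13.CV

variable {K : Type} [Field K] [Algebra ℂ K]

private theorem appr_sep1 {E E' : Place K} (h : E ≠ E') : ∃ f : K, f ≠ 0 ∧ 0 ≤ oz E f ∧ oz E' f < 0 := by
  by_contra hcon
  push Not at hcon
  apply h
  obtain ⟨t, ht0, ht⟩ := exists_uni E
  obtain ⟨u, hu0, hu⟩ := exists_uni E'
  have hk : 0 ≤ oz E' t := hcon t ht0 (by omega)
  have key : ∀ f : K, f ≠ 0 → oz E' f = oz E f * oz E' t := by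
    intro f hf
    have h1 : t ^ (-oz E f) ≠ 0 := zpow_ne_zero _ ht0
    have h2 : oz E (f * t ^ (-oz E f)) = 0 := by
      rw [oz_mul E hf h1, oz_zpow, ht]; ring
    have h3 : f * t ^ (-oz E f) ≠ 0 := mul_ne_zero hf h1
    have h4 := hcon _ h3 (by omega)
    have h5 := hcon (f * t ^ (-oz E f))⁻¹ (inv_ne_zero h3) (by rw [oz_inv]; omega)
    rw [oz_inv] at h5
    have h6 : oz E' (f * t ^ (-oz E f)) = 0 := by omega
    rw [oz_mul E' hf h1, oz_zpow] at h6
    linarith
  have h7 := key u hu0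
  rw [hu] at h7
  have h8 : oz E' t = 1 := by
    have h9 : oz E' t ∣ 1 := ⟨oz E u, by rw [mul_comm]; exact h7⟩
    exact Int.eq_one_of_dvd_one hk h9
  refine Place.ext' fun f => ?_
  by_cases hf : f = 0
  · subst hf
    rw [E.ord.map_zero, E'.ord.map_zero]
  · rw [← coe_oz E hf, ← coe_oz E' hf, key f hf, h8, mul_one]

private theorem appr_sep2 {E E' : Place K} (h : E ≠ E') : ∃ s : K, s ≠ 0 ∧ oz E s < 0 ∧ 0 < oz E' s := by
  obtain ⟨f, hf0, hf1, hf2⟩ := appr_sep1 h
  obtain ⟨g, hg0, hg1, hg2⟩ := appr_sep1 h.symm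
  refine ⟨g / f, div_ne_zero hg0 hf0, ?_, ?_⟩
  · rw [oz_div E hg0 hf0]; omega
  · rw [oz_div E' hg0 hf0]; omega

private theorem appr_one_add_neg {E : Place K} {a : K} {r : ℕ} (hr : 1 ≤ r) (h : oz E a < 0) :
    1 + a ^ r ≠ 0 ∧ oz E (1 + a ^ r) = r * oz E a := by
  have ha : a ≠ 0 := by
    rintro rfl
    rw [oz_zero] at h
    exact lt_irrefl _ h
  have h1 : oz E (a ^ r) < oz E (1 : K) := by
    rw [oz_pow, oz_one]
    have : (1 : ℤ) ≤ r := by exact_mod_cast hr
    nlinarith
  have h2 := oz_add_of_lt E (pow_ne_zero r ha) one_ne_zero h1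
  rw [add_comm, oz_pow] at h2
  exact h2

private theorem appr_one_add_pos {E : Place K} {a : K} {r : ℕ} (hr : 1 ≤ r) (h : 0 < oz E a) :
    1 + a ^ r ≠ 0 ∧ oz E (1 + a ^ r) = 0 := by
  have ha : a ≠ 0 := by
    rintro rfl
    rw [oz_zero] at h
    exact lt_irrefl _ h
  have h1 : oz E (1 : K) < oz E (a ^ r) := by
    rw [oz_pow, oz_one]
    have : (1 : ℤ) ≤ r := by exact_mod_cast hr
    nlinarith
  have h2 := oz_add_of_lt E one_ne_zero (pow_ne_zero r ha) h1
  rw [oz_one] at h2
  exact h2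

private theorem appr_large (T : Finset (Place K)) (b : K) : ∃ r : ℕ, 1 ≤ r ∧ ∀ E ∈ T, -oz E b < r := by
  refine ⟨1 + ∑ E ∈ T, (oz E b).natAbs, by omega, fun E hE => ?_⟩
  have h1 : (oz E b).natAbs ≤ ∑ E ∈ T, (oz E b).natAbs :=
    Finset.single_le_sum (f := fun E : Place K => (oz E b).natAbs) (fun _ _ => Nat.zero_le _) hE
  have h2 : ((oz E b).natAbs : ℤ) ≤ ((∑ E ∈ T, (oz E b).natAbs : ℕ) : ℤ) := by exact_mod_cast h1
  have h3 : ((1 + ∑ E ∈ T, (oz E b).natAbs : ℕ) : ℤ) = 1 + ((∑ E ∈ T, (oz E b).natAbs : ℕ) : ℤ) := by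
    rw [Nat.cast_add, Nat.cast_one]
  rw [h3]
  omega

theorem exists_sep {E : Place K} (T : Finset (Place K)) (hT : E ∉ T) : ∃ s : K, s ≠ 0 ∧ oz E s < 0 ∧ ∀ E' ∈ T, 0 < oz E' s := by
  classical
  induction T using Finset.induction_on with
  | empty =>
    obtain ⟨t, ht0, ht⟩ := exists_uni E
    refine ⟨t⁻¹, inv_ne_zero ht0, by rw [oz_inv]; omega, fun E' hE' => absurd hE' (Finset.notMem_empty _)⟩
  | insert E'' T hE'' ih =>
    rw [Finset.mem_insert, not_or] at hT
    obtain ⟨a, ha0, ha1, ha2⟩ := ih hT.2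
    obtain ⟨b, hb0, hb1, hb2⟩ := appr_sep2 hT.1
    obtain ⟨r, hr1, hr⟩ := appr_large T b
    have hr1' : (1 : ℤ) ≤ r := by exact_mod_cast hr1
    rcases le_or_gt 0 (oz E'' a) with h | h
    · refine ⟨a ^ r * b, mul_ne_zero (pow_ne_zero _ ha0) hb0, ?_, ?_⟩
      · rw [oz_mul E (pow_ne_zero _ ha0) hb0, oz_pow]
        nlinarith
      · intro E' hE'
        rw [oz_mul E' (pow_ne_zero _ ha0) hb0, oz_pow]
        rcases Finset.mem_insert.1 hE' with rfl | hE'
        · nlinarith
        · have h1 := ha2 E' hE'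
          have h2 := hr E' hE'
          nlinarith
    · have h0 : (1 + a ^ r) ≠ 0 := (appr_one_add_neg hr1 ha1).1
      have h3 : b * a ^ r ≠ 0 := mul_ne_zero hb0 (pow_ne_zero _ ha0)
      refine ⟨b * a ^ r / (1 + a ^ r), div_ne_zero h3 h0, ?_, ?_⟩
      · rw [oz_div E h3 h0, oz_mul E hb0 (pow_ne_zero _ ha0), oz_pow, (appr_one_add_neg hr1 ha1).2]
        linarith
      · intro E' hE'
        rw [oz_div E' h3 h0, oz_mul E' hb0 (pow_ne_zero _ ha0), oz_pow]
        rcases Finset.mem_insert.1 hE' with rfl | hE'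
        · rw [(appr_one_add_neg hr1 h).2]
          linarith
        · have h1 := ha2 E' hE'
          have h2 := hr E' hE'
          rw [(appr_one_add_pos hr1 h1).2]
          nlinarith

private theorem appr_idem {E : Place K} (T : Finset (Place K)) (hT : E ∉ T) (n : ℕ) :
    ∃ e : K, ((n : ℤ) : WithTop ℤ) ≤ E.ord (e - 1) ∧ ∀ E' ∈ T, ((n : ℤ) : WithTop ℤ) ≤ E'.ord e := by
  obtain ⟨s, hs0, hs1, hs2⟩ := exists_sep T hT
  have hr : 1 ≤ n + 1 := by omega
  have h0 := appr_one_add_neg hr hs1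
  have hc : (((n + 1 : ℕ)) : ℤ) = n + 1 := by push_cast; ring
  refine ⟨s ^ (n + 1) / (1 + s ^ (n + 1)), ?_, ?_⟩
  · have h1 : s ^ (n + 1) / (1 + s ^ (n + 1)) - 1 = -(1 + s ^ (n + 1))⁻¹ := by
      have := h0.1
      field_simp
      ring
    rw [h1, le_ord_iff]
    right
    rw [oz_neg, oz_inv, h0.2, hc]
    nlinarith
  · intro E' hE'
    have h2 := hs2 E' hE'
    rw [le_ord_iff]
    right
    rw [oz_div E' (pow_ne_zero _ hs0) h0.1, oz_pow, (appr_one_add_pos hr h2).2, hc]
    nlinarith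

/-- weak approximation -/
theorem approx (T : Finset (Place K)) (g : Place K → K) (n : ℤ) : ∃ f : K, ∀ E ∈ T, (n : WithTop ℤ) ≤ E.ord (f - g E) := by
  classical
  let N : ℕ := n.natAbs + ∑ E ∈ T, ∑ E' ∈ T, (oz E' (g E)).natAbs
  have hN : ∀ E ∈ T, ∀ E' ∈ T, n - oz E' (g E) ≤ (N : ℤ) := by
    intro E hE E' hE'
    have h1 : (oz E' (g E)).natAbs ≤ ∑ E' ∈ T, (oz E' (g E)).natAbs :=
      Finset.single_le_sum (f := fun E' : Place K => (oz E' (g E)).natAbs) (fun _ _ => Nat.zero_le _) hE'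
    have h2 : ∑ E' ∈ T, (oz E' (g E)).natAbs ≤ ∑ E ∈ T, ∑ E' ∈ T, (oz E' (g E)).natAbs :=
      Finset.single_le_sum (f := fun E : Place K => ∑ E' ∈ T, (oz E' (g E)).natAbs) (fun _ _ => Nat.zero_le _) hE
    have h3 : n.natAbs + (oz E' (g E)).natAbs ≤ N := Nat.add_le_add_left (h1.trans h2) _
    omega
  have hex : ∀ E : Place K, ∃ e : K, ((N : ℤ) : WithTop ℤ) ≤ E.ord (e - 1) ∧
      ∀ E' ∈ T.erase E, ((N : ℤ) : WithTop ℤ) ≤ E'.ord e := fun E =>
    appr_idem (T.erase E) (Finset.notMem_erase E T) N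
  choose e he1 he2 using hex
  have hmul : ∀ E ∈ T, ∀ E' ∈ T, ∀ x : K, ((N : ℤ) : WithTop ℤ) ≤ E'.ord x →
      (n : WithTop ℤ) ≤ E'.ord (g E * x) := by
    intro E hE E' hE' x hx
    rw [le_ord_iff] at hx ⊢
    by_cases hg : g E = 0
    · left; rw [hg, zero_mul]
    · rcases hx with hx | hx
      · left; rw [hx, mul_zero]
      · by_cases hx0 : x = 0
        · left; rw [hx0, mul_zero]
        · right
          rw [oz_mul E' hg hx0]
          have := hN E hE E' hE'
          omega
  refine ⟨∑ E ∈ T, g E * e E, fun E' hE' => ?_⟩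
  have h1 : (∑ E ∈ T, g E * e E) - g E' = g E' * (e E' - 1) + ∑ E ∈ T.erase E', g E * e E := by
    rw [← Finset.add_sum_erase T (fun E => g E * e E) hE']
    ring
  rw [h1]
  refine le_trans (le_min (hmul E' hE' E' hE' _ (he1 E')) ?_) (E'.ord.map_add _ _)
  refine E'.ord.map_le_sum fun E hE => ?_
  exact hmul E (Finset.mem_of_mem_erase hE) E' hE' _
    (he2 E E' (Finset.mem_erase.2 ⟨(Finset.ne_of_mem_erase hE).symm, hE'⟩))

/-- functions with given orders at finitely many places -/
theorem exists_orders (T : Finset (Place K)) (d : Place K → ℤ) (hT : T.Nonempty) : ∃ f : K, f ≠ 0 ∧ ∀ E ∈ T, oz E f = d E := by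
  classical
  choose t ht0 ht using fun E : Place K => exists_uni E
  obtain ⟨f, hf⟩ := approx T (fun E => t E ^ d E) (1 + ∑ E ∈ T, ((d E).natAbs : ℤ))
  have key : ∀ E ∈ T, f ≠ 0 ∧ oz E f = d E := by
    intro E hE
    have h1 : ((d E).natAbs : ℤ) ≤ ∑ E ∈ T, ((d E).natAbs : ℤ) :=
      Finset.single_le_sum (f := fun E : Place K => ((d E).natAbs : ℤ)) (fun _ _ => by positivity) hE
    have h2 := hf E hE
    rw [le_ord_iff] at h2
    have h3 : t E ^ d E ≠ 0 := zpow_ne_zero _ (ht0 E)
    have h4 : oz E (t E ^ d E) = d E := by rw [oz_zpow, ht, mul_one]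
    rcases h2 with h2 | h2
    · have h5 : f = t E ^ d E := sub_eq_zero.1 h2
      rw [h5]
      exact ⟨h3, h4⟩
    · by_cases h6 : f - t E ^ d E = 0
      · have h5 : f = t E ^ d E := sub_eq_zero.1 h6
        rw [h5]
        exact ⟨h3, h4⟩
      · have h7 : oz E (t E ^ d E) < oz E (f - t E ^ d E) := by
          rw [h4]
          omega
        have h8 := oz_add_of_lt E h3 h6 h7
        rw [add_sub_cancel, h4] at h8
        exact h8
  obtain ⟨E0, hE0⟩ := hT
  exact ⟨f, (key E0 hE0).1, fun E hE => (key E hE).2⟩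

end Pool.Agent.H13.CV

end
end

section

/-!
# CV Val: the value of a function at a place

`exists_value`: let `0 ≤ ord f` and suppose that `0 < ord (f - c)` for no `c : ℂ`.  So `ord (f - c) = 0` for all `c` (it is `≥ 0`), in particular `f` is not a constant (`ord 0 = ⊤`), so `f` is
transcendental (`transcendental_of_not_const`).  Every non-zero polynomial in `f` is a constant times a product of factors `f - c` (`IsAlgClosed.splits`,
`Polynomial.Splits.aeval_eq_prod_aroots` or induction on the degree with a root), so it has order `0`; so all non-zero elements of `L = ℂ(f)` have order `0`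
(`IntermediateField.mem_adjoin_simple_iff`).  `K` is finite over `L` (`hK.fin`), so the uniformizer `t` (`oz E t = 1`) is algebraic over `L`; `t⁻¹` is also algebraic over `L`:
there is a monic polynomial `p` over `L` with `p (t⁻¹) = 0`, of degree `n > 0`.  `(t⁻¹) ^ n = - ∑ i < n, p_i (t⁻¹) ^ i` has order `- n`, but the right side has order `≥ - (n - 1)`: contradiction.

The other lemmas follow from `res_spec` and `res_eq` (uniqueness: `ord (c - c') > 0` with `c ≠ c'` contradicts `ord_const`).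
-/

set_option autoImplicit false

open Pool.Agent.H23.Fano (PrimeDivisorOver Form regularForms)

noncomputable section

namespace Pool.Agent.H13.CV

variable {K : Type} [Field K] [Algebra ℂ K] {E E' : Place K} {f g : K}

theorem exists_value (hK : CurveField K) (hf : 0 ≤ E.ord f) : ∃ c : ℂ, 0 < E.ord (f - algebraMap ℂ K c) := by
  by_contra hc
  push Not at hc
  have h0 : ∀ c : ℂ, E.ord (f - algebraMap ℂ K c) = 0 := fun c =>
    le_antisymm (hc c) (nonneg_sub hf (const_nonneg E c))
  have hne : ∀ c : ℂ, f ≠ algebraMap ℂ K c := by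
    intro c hfc
    have h1 := h0 c
    rw [hfc, sub_self, E.ord.map_zero] at h1
    exact WithTop.top_ne_zero h1
  have htr : Transcendental ℂ f := transcendental_of_not_const hne
  -- polynomials in `f` have order `0`
  have hA : ∀ (n : ℕ) (q : Polynomial ℂ), q ≠ 0 → q.natDegree = n → E.ord (Polynomial.aeval f q) = 0 := by
    intro n
    induction n with
    | zero =>
      intro q hq hn
      rw [Polynomial.eq_C_of_natDegree_eq_zero hn, Polynomial.aeval_C]
      refine ord_const E ?_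
      intro h2
      apply hq
      rw [Polynomial.eq_C_of_natDegree_eq_zero hn, h2, Polynomial.C_0]
    | succ n ih =>
      intro q hq hn
      obtain ⟨a, ha⟩ := IsAlgClosed.exists_root q (by
        intro h2
        have h3 : q.natDegree = 0 := Polynomial.natDegree_eq_zero_iff_degree_le_zero.2 (le_of_eq h2)
        omega)
      obtain ⟨q', hq'⟩ := Polynomial.dvd_iff_isRoot.2 ha
      have hq0 : q' ≠ 0 := by
        rintro rfl
        exact hq (by rw [hq', mul_zero])
      have hdeg : q'.natDegree = n := by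
        have h3 := congrArg Polynomial.natDegree hq'
        rw [Polynomial.natDegree_mul (Polynomial.X_sub_C_ne_zero a) hq0, Polynomial.natDegree_X_sub_C] at h3
        omega
      rw [hq', map_mul, E.ord.map_mul, ih q' hq0 hdeg, map_sub, Polynomial.aeval_X, Polynomial.aeval_C, h0 a,
        add_zero]
  -- elements of `ℂ(f)`
  have hB : ∀ l : K, l ∈ IntermediateField.adjoin ℂ {f} → l ≠ 0 → E.ord l = 0 := by
    intro l hl hl0
    obtain ⟨r, s, hrs⟩ := (IntermediateField.mem_adjoin_simple_iff ℂ l).1 hl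
    have hs : Polynomial.aeval f s ≠ 0 := by
      intro h2
      rw [h2, div_zero] at hrs
      exact hl0 hrs
    have hr : Polynomial.aeval f r ≠ 0 := by
      intro h2
      rw [h2, zero_div] at hrs
      exact hl0 hrs
    have hs' : s ≠ 0 := by
      rintro rfl
      exact hs (map_zero _)
    have hr' : r ≠ 0 := by
      rintro rfl
      exact hr (map_zero _)
    have h3 : l * Polynomial.aeval f s = Polynomial.aeval f r := by
      rw [hrs, div_mul_cancel₀ _ hs]
    have h4 := congrArg E.ord h3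
    rw [E.ord.map_mul, hA _ s hs' rfl, hA _ r hr' rfl, add_zero] at h4
    exact h4
  have := hK.fin f htr
  obtain ⟨t, ht0, ht⟩ := exists_uni E
  have hu0 : t⁻¹ ≠ 0 := inv_ne_zero ht0
  have hint : IsIntegral (IntermediateField.adjoin ℂ {f}) t⁻¹ := Algebra.IsIntegral.isIntegral t⁻¹
  obtain ⟨p, hp, hpe⟩ := hint
  have hoz : ∀ n : ℕ, E.ord (t⁻¹ ^ n) = ((-(n : ℤ) : ℤ) : WithTop ℤ) := by
    intro n
    rw [← coe_oz E (pow_ne_zero n hu0), oz_pow, oz_inv, ht]
    congr 1
    ring
  rw [Polynomial.eval₂_eq_sum_range, Finset.sum_range_succ, hp.coeff_natDegree, map_one, one_mul] at hpe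
  have h5 : t⁻¹ ^ p.natDegree = -∑ i ∈ Finset.range p.natDegree,
      (algebraMap (IntermediateField.adjoin ℂ {f}) K) (p.coeff i) * t⁻¹ ^ i := by
    rw [eq_neg_iff_add_eq_zero, add_comm]
    exact hpe
  have h6 : ((-((p.natDegree : ℤ) - 1) : ℤ) : WithTop ℤ) ≤ E.ord (∑ i ∈ Finset.range p.natDegree,
      (algebraMap (IntermediateField.adjoin ℂ {f}) K) (p.coeff i) * t⁻¹ ^ i) := by
    refine E.ord.map_le_sum fun i hi => ?_
    rw [Finset.mem_range] at hi
    by_cases hz : (algebraMap (IntermediateField.adjoin ℂ {f}) K) (p.coeff i) = 0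
    · rw [hz, zero_mul, E.ord.map_zero]
      exact le_top
    · have h7 : E.ord ((algebraMap (IntermediateField.adjoin ℂ {f}) K) (p.coeff i)) = 0 :=
        hB _ (p.coeff i).2 hz
      rw [E.ord.map_mul, h7, zero_add, hoz]
      rw [WithTop.coe_le_coe]
      omega
  have h8 := hoz p.natDegree
  rw [h5, E.ord.map_neg] at h8
  rw [h8, WithTop.coe_le_coe] at h6
  omega

theorem value_unique {c c' : ℂ} (h : 0 < E.ord (f - algebraMap ℂ K c)) (h' : 0 < E.ord (f - algebraMap ℂ K c')) : c = c' := by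
  by_contra hcc
  have h1 := pos_sub h' h
  have h2 : f - algebraMap ℂ K c' - (f - algebraMap ℂ K c) = algebraMap ℂ K (c - c') := by
    rw [map_sub]
    ring
  rw [h2, ord_const E (sub_ne_zero.2 hcc)] at h1
  exact lt_irrefl _ h1

theorem res_eq {c : ℂ} (h : 0 < E.ord (f - algebraMap ℂ K c)) : res E f = c := by
  classical
  have h1 : ∃ c : ℂ, 0 < E.ord (f - algebraMap ℂ K c) := ⟨c, h⟩
  unfold res
  rw [dif_pos h1]
  exact value_unique h1.choose_spec h

theorem res_spec (hK : CurveField K) (hf : 0 ≤ E.ord f) : 0 < E.ord (f - algebraMap ℂ K (res E f)) := by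
  obtain ⟨c, hc⟩ := exists_value hK hf
  rw [res_eq hc]
  exact hc

theorem res_const (E : Place K) (c : ℂ) : res E (algebraMap ℂ K c) = c := by
  refine res_eq ?_
  rw [sub_self, E.ord.map_zero]
  exact WithTop.coe_lt_top (0 : ℤ)

theorem res_zero (E : Place K) : res E (0 : K) = 0 := by
  have h := res_const E 0
  rwa [map_zero] at h

theorem res_add (hK : CurveField K) (hf : 0 ≤ E.ord f) (hg : 0 ≤ E.ord g) : res E (f + g) = res E f + res E g := by
  refine res_eq ?_
  have h : f + g - algebraMap ℂ K (res E f + res E g) =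
      (f - algebraMap ℂ K (res E f)) + (g - algebraMap ℂ K (res E g)) := by
    rw [map_add]
    ring
  rw [h]
  exact pos_add (res_spec hK hf) (res_spec hK hg)

theorem res_mul (hK : CurveField K) (hf : 0 ≤ E.ord f) (hg : 0 ≤ E.ord g) : res E (f * g) = res E f * res E g := by
  refine res_eq ?_
  have h : f * g - algebraMap ℂ K (res E f * res E g) =
      (f - algebraMap ℂ K (res E f)) * g + (g - algebraMap ℂ K (res E g)) * algebraMap ℂ K (res E f) := by
    rw [map_mul]
    ring
  rw [h]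
  exact pos_add (pos_mul (res_spec hK hf) hg) (pos_mul (res_spec hK hg) (const_nonneg E _))

theorem res_smul (hK : CurveField K) (c : ℂ) (hf : 0 ≤ E.ord f) : res E (c • f) = c * res E f := by
  rw [Algebra.smul_def, res_mul hK (const_nonneg E c) hf, res_const]

theorem res_sum (hK : CurveField K) {ι : Type*} {s : Finset ι} {F : ι → K} (h : ∀ i ∈ s, 0 ≤ E.ord (F i)) :
    res E (∑ i ∈ s, F i) = ∑ i ∈ s, res E (F i) := by
  classical
  induction s using Finset.induction_on with
  | empty => rw [Finset.sum_empty, Finset.sum_empty, res_zero]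
  | insert a s ha ih =>
    rw [Finset.sum_insert ha, Finset.sum_insert ha,
      res_add hK (h a (Finset.mem_insert_self a s)) (nonneg_sum fun i hi => h i (Finset.mem_insert_of_mem hi)),
      ih fun i hi => h i (Finset.mem_insert_of_mem hi)]

theorem res_eq_zero_iff (hK : CurveField K) (hf : 0 ≤ E.ord f) : res E f = 0 ↔ 0 < E.ord f := by
  constructor
  · intro h
    have h1 := res_spec hK hf
    rwa [h, map_zero, sub_zero] at h1
  · intro h
    refine res_eq ?_
    rwa [map_zero, sub_zero]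

end Pool.Agent.H13.CV

end
end
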