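import Pool.Agent.H94.G5T.H36.BP.WdA_1
import Pool.Agent.H94.G5T.H62.EF.PrA
import Pool.Agent.H94.G5T.M09
import Pool.Agent.H94.G5T.M16
import Pool.Agent.H94.G5T.M42
import Pool.Agent.H94.G5T.M43

/-! The parts of this file: H13.CV.FinPl, AD.F.PotA, H62.EF.Comp, H62.EL.Cp, H62.EL.Tw. -/

section

/-!
# CV FinPl: finitely many places over `x = 0`

`sum_le`: let `e E = oz E x > 0` for `E ∈ T`.  By `exists_orders` (applied to `T`, with `d E = j` and `d E' = e E'` for `E' ≠ E`) there are functions `f E j`, `E ∈ T`, `j < e E`, with `oz E (f E j) = j`,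
`oz E' (f E j) = e E'` for `E' ∈ T`, `E' ≠ E`.  They are linearly independent over `L`: let `∑ c E j • f E j = 0`, not all `c E j = 0`.  For the `c E j ≠ 0` let `k E j` be as in `exists_zpow`, and let `k₀`
be the minimum of them; multiply by `x ^ (- k₀)`: so we may assume that `k₀ = 0`, all `k E j ≥ 0`.  Let `(E, j)` have `c E j ≠ 0`, `k E j = 0`, and `j` minimal for this `E`.  Look at the orders at `E`:
the term `(E, j)` has order `j < e E`; the terms `(E, i)` with `i ≠ j`, `c E i ≠ 0` have order `k E i * e E + i > j` (`i > j` or `k E i ≥ 1`); the terms `(E', i)`, `E' ≠ E`, have order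
`≥ e E > j`.  So the sum of the other terms has order `> j` (or is `0`) and the total sum has order `j`: contradiction.
The number of these functions is `∑ E ∈ T, e E`, so it is `≤ finrank L K` (`LinearIndependent.fintype_card_le_finrank`, index type a sigma type `Σ E : T, Fin (oz E x).toNat`, or a finset of pairs).

`finite_over`: otherwise there is a set `T` with more than `finrank L K` elements, and all `oz E x ≥ 1`.  `finite_poles`: if `f` has a pole then it is transcendental (`tr_of_pole`), apply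
`finite_over` to `f⁻¹` and `L = ℂ(f⁻¹)`.  `finite_supp`: the zeros of `f` are the poles of `f⁻¹`.
-/

set_option autoImplicit false

open Pool.Agent.H23.Fano (PrimeDivisorOver Form regularForms)

noncomputable section

namespace Pool.Agent.H13.CV

variable {K : Type} [Field K] [Algebra ℂ K] {L : IntermediateField ℂ K} {x : K}

/-- the order of a product with an element of `ℂ(x)` -/
private theorem finPl_ord (E : Place K) {a b : K} (ha : a ≠ 0) (hb : b ≠ 0) {m n : ℤ}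
    (h1 : oz E a = m) (h2 : oz E b = n) : E.ord (a * b) = ((m + n : ℤ) : WithTop ℤ) := by
  rw [← coe_oz E (mul_ne_zero ha hb), oz_mul E ha hb, h1, h2]

theorem sum_le (hL : Gen L x) [FiniteDimensional L K] (T : Finset (Place K)) (hT : ∀ E ∈ T, 0 < E.ord x) :
    ∑ E ∈ T, oz E x ≤ (Module.finrank L K : ℤ) := by
  classical
  have hx := hL.ne_zero
  have he : ∀ E ∈ T, 0 < oz E x := fun E hE => (pos_iff.1 (hT E hE)).resolve_left hx
  -- the functions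
  have hf : ∀ i : (Σ E : {E // E ∈ T}, Fin (oz E.1 x).toNat), ∃ f : K, f ≠ 0 ∧
      oz i.1.1 f = ((i.2 : ℕ) : ℤ) ∧ ∀ E' ∈ T, E' ≠ i.1.1 → oz E' f = oz E' x := by
    intro i
    obtain ⟨f, hf0, hf1⟩ := exists_orders T
      (fun E' => if E' = i.1.1 then ((i.2 : ℕ) : ℤ) else oz E' x) ⟨i.1.1, i.1.2⟩
    refine ⟨f, hf0, ?_, fun E' hE' hne => ?_⟩
    · rw [hf1 _ i.1.2, if_pos rfl]
    · rw [hf1 _ hE', if_neg hne]
  choose f hf0 hf1 hf2 using hf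
  have hli : LinearIndependent L f := by
    rw [Fintype.linearIndependent_iff]
    intro c hc
    by_contra hcon
    push Not at hcon
    obtain ⟨i₁, hi₁⟩ := hcon
    -- the exponents
    have hk : ∀ i, ∃ k : ℤ, c i ≠ 0 → ∀ E : Place K, 0 < E.ord x →
        oz E (c i : K) = k * oz E x := by
      intro i
      by_cases h : c i = 0
      · exact ⟨0, fun h1 => absurd h h1⟩
      · obtain ⟨k, hk⟩ := exists_zpow hL (c i).2 (fun h1 => h (Subtype.ext h1))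
        exact ⟨k, fun _ => hk⟩
    choose k hk using hk
    set S : Finset (Σ E : {E // E ∈ T}, Fin (oz E.1 x).toNat) :=
      Finset.univ.filter fun i => c i ≠ 0 with hS
    have hS1 : S.Nonempty := ⟨i₁, by rw [hS, Finset.mem_filter]; exact ⟨Finset.mem_univ _, hi₁⟩⟩
    obtain ⟨i₂, hi₂, hmin₂⟩ := Finset.exists_min_image S k hS1
    obtain ⟨i₀, hi₀, hmin₀⟩ := Finset.exists_min_image (S.filter fun i => k i = k i₂)
      (fun i => (i.2 : ℕ)) ⟨i₂, by rw [Finset.mem_filter]; exact ⟨hi₂, rfl⟩⟩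
    rw [Finset.mem_filter] at hi₀
    obtain ⟨hi₀S, hk₀⟩ := hi₀
    have hc0 : c i₀ ≠ 0 := by
      rw [hS, Finset.mem_filter] at hi₀S
      exact hi₀S.2
    have hcK : ∀ i, c i ≠ 0 → (c i : K) ≠ 0 := fun i h h1 => h (Subtype.ext h1)
    have hE0 : 0 < i₀.1.1.ord x := hT _ i₀.1.2
    have hord0 : i₀.1.1.ord ((c i₀ : K) * f i₀) =
        ((k i₀ * oz i₀.1.1 x + ((i₀.2 : ℕ) : ℤ) : ℤ) : WithTop ℤ) :=
      finPl_ord _ (hcK _ hc0) (hf0 _) (hk _ hc0 _ hE0) (hf1 _)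
    have hj0 : ((i₀.2 : ℕ) : ℤ) < oz i₀.1.1 x := by
      have h1 := i₀.2.2
      omega
    have hothers : ∀ i ∈ Finset.univ.erase i₀,
        i₀.1.1.ord ((c i₀ : K) * f i₀) < i₀.1.1.ord ((c i : K) * f i) := by
      intro i hi
      rw [Finset.mem_erase] at hi
      by_cases hci : c i = 0
      · rw [hci, hord0]
        simp only [ZeroMemClass.coe_zero, zero_mul, AddValuation.map_zero]
        exact WithTop.coe_lt_top _
      · have hiS : i ∈ S := by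
          rw [hS, Finset.mem_filter]
          exact ⟨Finset.mem_univ _, hci⟩
        have hki : k i₀ ≤ k i := by
          rw [hk₀]
          exact hmin₂ i hiS
        have hepos := he _ i₀.1.2
        by_cases hEi : i.1 = i₀.1
        · obtain ⟨Ei, ji⟩ := i
          simp only at hEi
          subst hEi
          have h1 := finPl_ord i₀.1.1 (hcK _ hci) (hf0 _) (hk _ hci _ hE0)
            (hf1 (⟨i₀.1, ji⟩ : Σ E : {E // E ∈ T}, Fin (oz E.1 x).toNat))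
          rw [hord0, h1, WithTop.coe_lt_coe]
          simp only
          rcases lt_or_eq_of_le hki with h2 | h2
          · have h3 : (k i₀ + 1) * oz i₀.1.1 x ≤ k ⟨i₀.1, ji⟩ * oz i₀.1.1 x :=
              mul_le_mul_of_nonneg_right (by omega) hepos.le
            have h4 : (k i₀ + 1) * oz i₀.1.1 x = k i₀ * oz i₀.1.1 x + oz i₀.1.1 x := by ring
            have h5 : (0 : ℤ) ≤ ((ji : ℕ) : ℤ) := Int.natCast_nonneg _
            linarith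
          · have h3 := hmin₀ ⟨i₀.1, ji⟩ (by
              rw [Finset.mem_filter]
              exact ⟨hiS, by rw [← h2, hk₀]⟩)
            simp only at h3
            have h4 : (i₀.2 : ℕ) ≠ (ji : ℕ) := by
              intro h5
              apply hi.1
              have h6 : ji = i₀.2 := Fin.ext h5.symm
              rw [h6]
            have h5 : (i₀.2 : ℕ) < (ji : ℕ) := lt_of_le_of_ne h3 h4
            have h6 : ((i₀.2 : ℕ) : ℤ) < ((ji : ℕ) : ℤ) := by exact_mod_cast h5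
            rw [← h2]
            linarith
        · have hne : i₀.1.1 ≠ i.1.1 := fun h => hEi (Subtype.ext h.symm)
          have h1 := finPl_ord i₀.1.1 (hcK _ hci) (hf0 i) (hk _ hci _ hE0)
            (hf2 i _ i₀.1.2 hne)
          rw [hord0, h1, WithTop.coe_lt_coe]
          have h3 : k i₀ * oz i₀.1.1 x ≤ k i * oz i₀.1.1 x :=
            mul_le_mul_of_nonneg_right hki hepos.le
          linarith
    have hg : i₀.1.1.ord ((c i₀ : K) * f i₀) ≠ ⊤ := by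
      rw [hord0]
      exact WithTop.coe_ne_top
    have hlt := AddValuation.map_lt_sum (v := i₀.1.1.ord) hg hothers
    have hsum : (c i₀ : K) * f i₀ + ∑ i ∈ Finset.univ.erase i₀, (c i : K) * f i = 0 := by
      rw [Finset.add_sum_erase _ (fun i => (c i : K) * f i) (Finset.mem_univ i₀)]
      exact hc
    have hneg : ∑ i ∈ Finset.univ.erase i₀, (c i : K) * f i = -((c i₀ : K) * f i₀) :=
      eq_neg_of_add_eq_zero_right hsum
    rw [hneg, AddValuation.map_neg] at hlt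
    exact lt_irrefl _ hlt
  have hcard := hli.fintype_card_le_finrank
  rw [Fintype.card_sigma] at hcard
  simp only [Fintype.card_fin] at hcard
  have h1 : ∑ E ∈ T, oz E x = ((∑ E : {E // E ∈ T}, (oz E.1 x).toNat : ℕ) : ℤ) := by
    rw [Nat.cast_sum, ← Finset.sum_coe_sort T (fun E => oz E x)]
    refine Finset.sum_congr rfl fun E _ => ?_
    rw [Int.toNat_of_nonneg (he E.1 E.2).le]
  rw [h1]
  exact_mod_cast hcard

theorem finite_over (hL : Gen L x) [FiniteDimensional L K] : {E : Place K | 0 < E.ord x}.Finite := by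
  by_contra hinf
  obtain ⟨T, hT, hcard⟩ := (Set.not_finite.1 hinf).exists_subset_card_eq (Module.finrank L K + 1)
  have h1 := sum_le hL T (fun E hE => hT hE)
  have hx := hL.ne_zero
  have h2 : ∀ E ∈ T, (1 : ℤ) ≤ oz E x := fun E hE => (pos_iff.1 (hT hE)).resolve_left hx
  have h3 := Finset.sum_le_sum h2
  rw [Finset.sum_const, nsmul_eq_mul, mul_one, hcard] at h3
  push_cast at h3
  linarith

theorem finite_poles (hK : CurveField K) (f : K) : {E : Place K | E.ord f < 0}.Finite := by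
  by_cases hne : ∃ E : Place K, E.ord f < 0
  · obtain ⟨E, hE⟩ := hne
    have htr := tr_of_pole hE
    have hL : Gen (IntermediateField.adjoin ℂ {f}) f := ⟨htr, rfl⟩
    have hfd : FiniteDimensional (IntermediateField.adjoin ℂ {f}) K := hK.fin f htr
    have h1 := finite_over hL.inv
    refine h1.subset fun E' hE' => ?_
    exact (inv_pos_iff hL.ne_zero).2 hE'
  · push Not at hne
    have h1 : {E : Place K | E.ord f < 0} = ∅ :=
      Set.eq_empty_of_forall_notMem fun E hE => absurd hE (not_lt.2 (hne E))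
    rw [h1]
    exact Set.finite_empty

end Pool.Agent.H13.CV

end
end

section

/-!
# AD F PotA: the potential lemma, first part

`pot_a` (Ahlfors-Schwarz for all exponents).  For `0 < t < 1` maximise `R z ^ (1/b) * vel F z * (t² - ‖z‖²)` on `‖z‖ ≤ t` (compact, continuous, zero on
`‖z‖ = t`).  At a positive maximum `z₀`: `u z = R z ^ (1/b) * (t² - ‖z‖²)` has `Sub u z₀ (κ v(z₀)²/b - t²/(t² - ‖z₀‖²)²)`
(`Sub.rpow`, `Sub.mul`, and `sub_sq` below), so by `vel_mul_not_isLocalMax` this number is `≤ 0`, i.e. `v(z₀) (t² - ‖z₀‖²) ≤ t √(b/κ)`, and `R ≤ 1`.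
Let `t → 1`.

`sub_sq`: lower support of `t² - ‖z‖²` at `z₀` (`‖z₀‖ < t`): `log(t² - |z|²)` has `∂∂̄ = -t²/(t² - |z|²)²`.  With
`h z = (t² - ‖z₀‖²) * exp(- conj z₀ (z - z₀) * 2 / (2 (t² - ‖z₀‖²)) - (conj z₀)² (z - z₀)² / (2 (t² - ‖z₀‖²)²))` (Taylor expansion of `log`) the quotient
`(t² - ‖z‖²) / |h z|` is `1 - t²/(t² - ‖z₀‖²)² ‖z - z₀‖² + O(‖z - z₀‖³)`.  (Another way: with `D = t² - ‖z₀‖²`, use the Moebius map `w = t² (z - z₀)/(..)`.)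
-/

set_option autoImplicit false

open Topology Filter Metric

namespace Pool.Agent.AD.F

open Pool.Agent.H36.BP (EN fs wd Sub Curve)

variable {N : ℕ} {X : Set (EN N)}

private theorem PotA_exp_le {a s : ℝ} (ha : 1 < a) (hs : 0 ≤ s) (hs1 : a * s ≤ a - 1) : Real.exp (-(a * s)) ≤ 1 - s := by
  have h1 : 1 + a * s ≤ Real.exp (a * s) := by
    have := Real.add_one_le_exp (a * s)
    linarith
  have h2 : 0 < 1 + a * s := by nlinarith
  have h3 : Real.exp (-(a * s)) ≤ (1 + a * s)⁻¹ := by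
    rw [Real.exp_neg]
    exact inv_anti₀ h2 h1
  refine h3.trans ?_
  rw [inv_le_iff_one_le_mul₀ h2]
  nlinarith [mul_nonneg hs (sub_nonneg.2 hs1)]

theorem sub_sq {t : ℝ} {z₀ : ℂ} (h : ‖z₀‖ < t) : Sub (fun z => t ^ 2 - ‖z‖ ^ 2) z₀ (-(t ^ 2 / (t ^ 2 - ‖z₀‖ ^ 2) ^ 2)) := by
  have ht : 0 < t := lt_of_le_of_lt (norm_nonneg _) h
  obtain ⟨D, hD⟩ : ∃ D : ℝ, D = t ^ 2 - ‖z₀‖ ^ 2 := ⟨_, rfl⟩
  have hD0 : 0 < D := by
    rw [hD]
    have := norm_nonneg z₀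
    nlinarith
  rw [← hD]
  obtain ⟨q, hq⟩ : ∃ q : ℂ → ℂ, q = fun z => (t : ℂ) ^ 2 - (starRingEnd ℂ) z₀ * z := ⟨_, rfl⟩
  have hqa : ∀ z, AnalyticAt ℂ q z := by
    intro z
    rw [hq]
    exact analyticAt_const.sub (analyticAt_const.mul analyticAt_id)
  have hq0 : q z₀ = (D : ℂ) := by
    rw [hq]
    simp only
    rw [mul_comm, Complex.mul_conj', hD]
    push_cast
    ring
  have hq00 : q z₀ ≠ 0 := by rw [hq0]; exact_mod_cast hD0.ne'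
  obtain ⟨B, hB⟩ : ∃ B : ℂ → ℂ, B = fun z => (t : ℂ) * (z - z₀) / q z := ⟨_, rfl⟩
  have hBa : AnalyticAt ℂ B z₀ := by
    rw [hB]
    exact (analyticAt_const.mul (analyticAt_id.sub analyticAt_const)).div (hqa z₀) hq00
  have hB0 : B z₀ = 0 := by rw [hB]; simp
  have hBd : deriv B z₀ = (t : ℂ) / D := by
    have h1 : HasDerivAt (fun z : ℂ => (t : ℂ) * (z - z₀)) (t : ℂ) z₀ := by
      simpa using ((hasDerivAt_id z₀).sub_const z₀).const_mul (t : ℂ)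
    have h2 : HasDerivAt q (deriv q z₀) z₀ := (hqa z₀).differentiableAt.hasDerivAt
    have h3 := h1.div h2 hq00
    rw [hB]
    have h4 : deriv (fun z => (t : ℂ) * (z - z₀) / q z) z₀ = _ := h3.deriv
    rw [h4, sub_self, mul_zero, zero_mul, sub_zero, hq0]
    have : (D : ℂ) ≠ 0 := by exact_mod_cast hD0.ne'
    field_simp
  have key : ∀ᶠ z in 𝓝 z₀, t ^ 2 - ‖z‖ ^ 2 = ‖q z ^ 2 / (D : ℂ)‖ * (1 - ‖B z‖ ^ 2) := by
    filter_upwards [(hqa z₀).continuousAt.eventually_ne hq00] with z hz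
    have e1 : ‖q z‖ ^ 2 - t ^ 2 * ‖z - z₀‖ ^ 2 = (t ^ 2 - ‖z‖ ^ 2) * D := by
      rw [hD, hq]
      simp only [Complex.sq_norm, Complex.normSq_apply, Complex.sub_re, Complex.sub_im, Complex.mul_re, Complex.mul_im,
        Complex.conj_re, Complex.conj_im]
      have e2 : (((t : ℂ)) ^ 2).re = t ^ 2 := by
        rw [← Complex.ofReal_pow, Complex.ofReal_re]
      have e3 : (((t : ℂ)) ^ 2).im = 0 := by
        rw [← Complex.ofReal_pow, Complex.ofReal_im]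
      rw [e2, e3]
      ring
    have e4 : ‖B z‖ ^ 2 = t ^ 2 * ‖z - z₀‖ ^ 2 / ‖q z‖ ^ 2 := by
      rw [hB]
      simp only
      rw [norm_div, norm_mul, Complex.norm_real, Real.norm_of_nonneg ht.le, div_pow, mul_pow]
    have hqn : ‖q z‖ ≠ 0 := norm_ne_zero_iff.2 hz
    rw [e4, norm_div, norm_pow, Complex.norm_real, Real.norm_of_nonneg hD0.le]
    field_simp
    linarith
  have hhol : Sub (fun z => ‖q z ^ 2 / (D : ℂ)‖) z₀ 0 := by
    refine Sub.of_holo (((hqa z₀).pow 2).div analyticAt_const (by exact_mod_cast hD0.ne')) ?_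
    exact div_ne_zero (pow_ne_zero _ hq00) (by exact_mod_cast hD0.ne')
  have hone : Sub (fun z => 1 - ‖B z‖ ^ 2) z₀ (-(t ^ 2 / D ^ 2)) := by
    refine Sub.of_forall fun d hd => ?_
    obtain ⟨m, hm⟩ : ∃ m : ℝ, m = t ^ 2 / D ^ 2 := ⟨_, rfl⟩
    rw [← hm] at hd
    have hm0 : 0 < m := by rw [hm]; positivity
    obtain ⟨a, ha⟩ : ∃ a : ℝ, a = -d / m := ⟨_, rfl⟩
    have ha1 : 1 < a := by
      rw [ha, lt_div_iff₀ hm0]
      linarith
    have h1 := Sub.exp_sq hBa (-a)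
    have h2 : -a * ‖deriv B z₀‖ ^ 2 = d := by
      rw [hBd, norm_div, Complex.norm_real, Complex.norm_real, Real.norm_of_nonneg ht.le, Real.norm_of_nonneg hD0.le, div_pow, ← hm, ha]
      field_simp
    rw [h2] at h1
    refine h1.mono ?_ ?_
    · show Real.exp (-a * ‖B z₀‖ ^ 2) = 1 - ‖B z₀‖ ^ 2
      rw [hB0]
      simp
    · have hc : ContinuousAt (fun z => a * ‖B z‖ ^ 2) z₀ := ((hBa.continuousAt.norm.pow 2).const_mul a)
      have h3 : ∀ᶠ z in 𝓝 z₀, a * ‖B z‖ ^ 2 < a - 1 := by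
        refine hc.eventually (gt_mem_nhds ?_)
        show a * ‖B z₀‖ ^ 2 < a - 1
        rw [hB0, norm_zero]
        linarith
      filter_upwards [h3] with z hz
      rw [neg_mul]
      exact PotA_exp_le ha1 (by positivity) hz.le
  have h1 := hhol.mul hone
  rw [zero_add] at h1
  refine h1.congr ?_
  filter_upwards [key] with z hz
  exact hz.symm

end Pool.Agent.AD.F

end

section

/-!
# EF Comp: comparison of the distance with a determinant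

Suppose the claim is false for `η > 0`: there are `p n ∈ P₀`, `q n ∈ W`, `q n ≠ p n`, `‖q n - p n‖ → 0`, `υ (q n) = υ (p n)`, and `ξ n`, `‖ξ n‖ ≤ L`,
`dυ_{p n} (ξ n) = 1` such that one of the two inequalities fails.  Let `t n = ‖q n - p n‖`, `e n = (q n - p n) / t n` (a unit vector).  Along an
ultrafilter (`hyperfilter ℕ`): `p n → p ∈ P₀`, `q n → p`, `e n → e`, `‖e‖ = 1`, `ξ n → ξ`, `dυ_p ξ = 1` (`fderiv ℂ υ` is continuous at `p`, `υ` is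
analytic near `p`).  By strict differentiability (`AnalyticAt.hasStrictFDerivAt`) `(σ (q n) - σ (p n)) / t n → dσ_p e` and
`0 = (υ (q n) - υ (p n)) / t n → dυ_p e`.
Write `a = grd υ p = (-∂₂υ, ∂₁υ)`; `dυ_p a = 0`, `dυ_p ≠ 0`, so `e = λ a` with `λ ≠ 0` (both are in the kernel of `dυ_p`, of dimension `1`, `e ≠ 0`, `a ≠ 0`).
* `A n = ‖det2 (q n - p n) (ξ n)‖ / t n → ‖det2 e ξ‖ = ‖λ‖ ‖det2 a ξ‖ = ‖λ‖ ‖dυ_p ξ‖ = ‖λ‖`.
* `B n = (wd (σ (p n)) (σ (q n)) / (‖σ (p n)‖ ‖σ (q n)‖)) ‖σ (p n)‖² / wd (σ (p n)) (dσ_{p n} (grd υ (p n))) / t n`.  As `wd x y = wd x (y - x)` and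
  `wd x (s y) = s wd x y` for real `s > 0` (`wd_sq` or the formulas of `H36/BP/WdA.lean`), and `wd` is continuous,
  `B n → wd (σ p) (dσ_p e) / wd (σ p) (dσ_p a) = ‖λ‖`.
So `B n / A n → 1`, and both inequalities hold for almost all `n`: contradiction.
-/

set_option autoImplicit false

open Topology Filter Metric

namespace Pool.Agent.H62.EF

open Pool.Agent.H36.BP (EN fs wd)

variable {N : ℕ}

/-- the divided difference along an ultrafilter -/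
private theorem Comp_div {V : Type*} [NormedAddCommGroup V] [NormedSpace ℂ V] {G : ℂ × ℂ → V} {G' : ℂ × ℂ →L[ℂ] V} {P E : ℂ × ℂ}
    (hG : HasStrictFDerivAt G G' P) {l : Filter ℕ} {p q : ℕ → ℂ × ℂ} (hp : Tendsto p l (𝓝 P)) (hq : Tendsto q l (𝓝 P))
    (hE : Tendsto (fun n => (((‖q n - p n‖ : ℝ) : ℂ)⁻¹) • (q n - p n)) l (𝓝 E)) :
    Tendsto (fun n => (((‖q n - p n‖ : ℝ) : ℂ)⁻¹) • (G (q n) - G (p n))) l (𝓝 (G' E)) := by
  have h1 : (fun x : (ℂ × ℂ) × (ℂ × ℂ) => G x.1 - G x.2 - G' (x.1 - x.2)) =o[𝓝 (P, P)] fun x => x.1 - x.2 := hG.isLittleO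
  have h2 : Tendsto (fun n => (q n, p n)) l (𝓝 (P, P)) := hq.prodMk_nhds hp
  have h3 : (fun n => G (q n) - G (p n) - G' (q n - p n)) =o[l] fun n => q n - p n := h1.comp_tendsto h2
  have h4 : (fun n => G (q n) - G (p n) - G' (q n - p n)) =o[l] fun n => ((‖q n - p n‖ : ℝ) : ℂ) := by
    refine h3.trans_isBigO ?_
    refine Asymptotics.IsBigO.of_bound 1 (Eventually.of_forall fun n => ?_)
    rw [Complex.norm_real, norm_norm, one_mul]
  have h5 := h4.tendsto_inv_smul_nhds_zero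
  have h6 : Tendsto (fun n => G' ((((‖q n - p n‖ : ℝ) : ℂ)⁻¹) • (q n - p n))) l (𝓝 (G' E)) :=
    (G'.continuous.tendsto E).comp hE
  have h7 := h5.add h6
  rw [zero_add] at h7
  refine h7.congr fun n => ?_
  rw [map_smul, ← smul_add]
  congr 1
  abel

private theorem Comp_wd_sub (x y : EN N) : wd x y = wd x (y - x) := by
  have h := Pool.Agent.H36.BP.wd_inv x y 1 (-1)
  rw [one_smul, one_smul, norm_one, neg_one_smul, ← sub_eq_add_neg] at h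
  rw [h]
  ring

private theorem Comp_grd {υ : ℂ × ℂ → ℂ} {P : ℂ × ℂ} (h : fderiv ℂ υ P ≠ 0) : grd υ P ≠ 0 := by
  intro h0
  apply h
  have h1 : fderiv ℂ υ P (0, 1) = 0 := by
    have := congrArg Prod.fst h0
    simpa [grd] using this
  have h2 : fderiv ℂ υ P (1, 0) = 0 := by
    have := congrArg Prod.snd h0
    simpa [grd] using this
  ext
  · simpa using h2
  · simpa using h1

private theorem Comp_apply (L : ℂ × ℂ →L[ℂ] ℂ) (v : ℂ × ℂ) : L v = v.1 * L (1, 0) + v.2 * L (0, 1) := by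
  have h : v = v.1 • ((1 : ℂ), (0 : ℂ)) + v.2 • ((0 : ℂ), (1 : ℂ)) := by
    ext <;> simp
  conv_lhs => rw [h]
  rw [map_add, map_smul, map_smul, smul_eq_mul, smul_eq_mul]

private theorem Comp_ker {υ : ℂ × ℂ → ℂ} {P E : ℂ × ℂ} (h : fderiv ℂ υ P ≠ 0) (hE : fderiv ℂ υ P E = 0) : ∃ c : ℂ, E = c • grd υ P := by
  have h0 := Comp_grd h
  rw [Comp_apply] at hE
  by_cases h1 : fderiv ℂ υ P (1, 0) = 0
  · have h2 : fderiv ℂ υ P (0, 1) ≠ 0 := by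
      intro h2
      apply h0
      rw [grd, h1, h2]
      simp
    refine ⟨-(E.1 / fderiv ℂ υ P (0, 1)), ?_⟩
    rw [h1] at hE
    have h3 : E.2 = 0 := by
      have h4 : E.2 * fderiv ℂ υ P (0, 1) = 0 := by linear_combination hE
      exact (mul_eq_zero.mp h4).resolve_right h2
    ext
    · simp only [grd, Prod.smul_fst, smul_eq_mul]
      field_simp
    · simp only [grd, Prod.smul_snd, smul_eq_mul, h1, h3]
      ring
  · refine ⟨E.2 / fderiv ℂ υ P (1, 0), ?_⟩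
    ext
    · simp only [grd, Prod.smul_fst, smul_eq_mul]
      field_simp
      linear_combination hE
    · simp only [grd, Prod.smul_snd, smul_eq_mul]
      field_simp

private theorem Comp_det (υ : ℂ × ℂ → ℂ) (P : ℂ × ℂ) (c : ℂ) (ξ : ℂ × ℂ) : det2 (c • grd υ P) ξ = -(c * fderiv ℂ υ P ξ) := by
  rw [Comp_apply (fderiv ℂ υ P) ξ]
  simp only [det2, grd, Prod.smul_fst, Prod.smul_snd, smul_eq_mul]
  ring

private theorem Comp_det_smul (s : ℂ) (a ξ : ℂ × ℂ) : det2 (s • a) ξ = s * det2 a ξ := by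
  simp only [det2, Prod.smul_fst, Prod.smul_snd, smul_eq_mul]
  ring

private theorem Comp_clm {V : Type*} [NormedAddCommGroup V] [NormedSpace ℂ V] {l : Filter ℕ} {A : ℕ → ℂ × ℂ →L[ℂ] V} {A₀ : ℂ × ℂ →L[ℂ] V}
    {v : ℕ → ℂ × ℂ} {v₀ : ℂ × ℂ} (hA : Tendsto A l (𝓝 A₀)) (hv : Tendsto v l (𝓝 v₀)) : Tendsto (fun n => A n (v n)) l (𝓝 (A₀ v₀)) := by
  have h1 : Continuous (fun x : (ℂ × ℂ →L[ℂ] V) × (ℂ × ℂ) => x.1 x.2) := isBoundedBilinearMap_apply.continuous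
  exact (h1.tendsto (A₀, v₀)).comp (hA.prodMk_nhds hv)

private theorem Comp_detc {l : Filter ℕ} {a b : ℕ → ℂ × ℂ} {a₀ b₀ : ℂ × ℂ} (ha : Tendsto a l (𝓝 a₀)) (hb : Tendsto b l (𝓝 b₀)) :
    Tendsto (fun n => ‖det2 (a n) (b n)‖) l (𝓝 ‖det2 a₀ b₀‖) := by
  have h1 : Tendsto (fun n => (a n).1) l (𝓝 a₀.1) := (continuous_fst.tendsto a₀).comp ha
  have h2 : Tendsto (fun n => (a n).2) l (𝓝 a₀.2) := (continuous_snd.tendsto a₀).comp ha
  have h3 : Tendsto (fun n => (b n).1) l (𝓝 b₀.1) := (continuous_fst.tendsto b₀).comp hb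
  have h4 : Tendsto (fun n => (b n).2) l (𝓝 b₀.2) := (continuous_snd.tendsto b₀).comp hb
  unfold det2
  exact ((h1.mul h4).sub (h2.mul h3)).norm

private theorem Comp_wdc {l : Filter ℕ} {a b : ℕ → EN N} {a₀ b₀ : EN N} (ha : Tendsto a l (𝓝 a₀)) (hb : Tendsto b l (𝓝 b₀)) :
    Tendsto (fun n => wd (a n) (b n)) l (𝓝 (wd a₀ b₀)) := by
  unfold wd
  exact (((ha.norm.pow 2).mul (hb.norm.pow 2)).sub ((ha.inner hb).norm.pow 2)).sqrt

/-- the two inequalities hold along an ultrafilter -/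
private theorem Comp_key {W : Set (ℂ × ℂ)} {σ : ℂ × ℂ → EN N} {υ : ℂ × ℂ → ℂ}
    (hσ : ∀ p ∈ W, AnalyticAt ℂ σ p) (hυ : ∀ p ∈ W, AnalyticAt ℂ υ p) (hσ0 : ∀ p ∈ W, σ p ≠ 0)
    (himm : ∀ p ∈ W, ∀ e : ℂ × ℂ, e ≠ 0 → 0 < wd (σ p) (fderiv ℂ σ p e)) (hdυ : ∀ p ∈ W, fderiv ℂ υ p ≠ 0)
    {η : ℝ} (hη : 0 < η) {l : Filter ℕ} [l.NeBot] {p q ξ : ℕ → ℂ × ℂ} {P E Ξ : ℂ × ℂ} (hPW : P ∈ W)
    (hp : Tendsto p l (𝓝 P)) (hq : Tendsto q l (𝓝 P)) (hE1 : ‖E‖ = 1) (hqp : ∀ n, q n ≠ p n) (hυqp : ∀ n, υ (q n) = υ (p n))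
    (hE : Tendsto (fun n => (((‖q n - p n‖ : ℝ) : ℂ)⁻¹) • (q n - p n)) l (𝓝 E))
    (hξ : Tendsto ξ l (𝓝 Ξ)) (hξ1 : ∀ n, fderiv ℂ υ (p n) (ξ n) = 1) :
    ∀ᶠ n in l, Real.exp (-η) * ‖det2 (q n - p n) (ξ n)‖ ≤
        wd (σ (p n)) (σ (q n)) / (‖σ (p n)‖ * ‖σ (q n)‖) * ‖σ (p n)‖ ^ 2 / wd (σ (p n)) (fderiv ℂ σ (p n) (grd υ (p n))) ∧
      wd (σ (p n)) (σ (q n)) / (‖σ (p n)‖ * ‖σ (q n)‖) * ‖σ (p n)‖ ^ 2 / wd (σ (p n)) (fderiv ℂ σ (p n) (grd υ (p n))) ≤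
        Real.exp η * ‖det2 (q n - p n) (ξ n)‖ := by
  set t : ℕ → ℝ := fun n => ‖q n - p n‖ with ht
  have htpos : ∀ n, 0 < t n := fun n => norm_pos_iff.mpr (sub_ne_zero.mpr (hqp n))
  -- derivatives
  have hdσl : Tendsto (fun n => fderiv ℂ σ (p n)) l (𝓝 (fderiv ℂ σ P)) := (hσ P hPW).fderiv.continuousAt.tendsto.comp hp
  have hdυl : Tendsto (fun n => fderiv ℂ υ (p n)) l (𝓝 (fderiv ℂ υ P)) := (hυ P hPW).fderiv.continuousAt.tendsto.comp hp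
  have hσp : Tendsto (fun n => σ (p n)) l (𝓝 (σ P)) := (hσ P hPW).continuousAt.tendsto.comp hp
  have hσq : Tendsto (fun n => σ (q n)) l (𝓝 (σ P)) := (hσ P hPW).continuousAt.tendsto.comp hq
  have hυ1 : fderiv ℂ υ P Ξ = 1 := by
    have h1 : Tendsto (fun n => fderiv ℂ υ (p n) (ξ n)) l (𝓝 (fderiv ℂ υ P Ξ)) := Comp_clm hdυl hξ
    have h2 : Tendsto (fun n => fderiv ℂ υ (p n) (ξ n)) l (𝓝 1) := by
      refine tendsto_const_nhds.congr fun n => ?_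
      rw [hξ1 n]
    exact tendsto_nhds_unique h1 h2
  have hυE : fderiv ℂ υ P E = 0 := by
    have h1 := Comp_div ((hυ P hPW).hasStrictFDerivAt) hp hq hE
    have h2 : Tendsto (fun n => (((‖q n - p n‖ : ℝ) : ℂ)⁻¹) • (υ (q n) - υ (p n))) l (𝓝 0) := by
      refine tendsto_const_nhds.congr fun n => ?_
      rw [hυqp n, sub_self, smul_zero]
    exact tendsto_nhds_unique h1 h2
  obtain ⟨c, hc⟩ := Comp_ker (hdυ P hPW) hυE
  have hc0 : c ≠ 0 := by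
    rintro rfl
    rw [zero_smul] at hc
    rw [hc, norm_zero] at hE1
    exact zero_ne_one hE1
  have hcpos : 0 < ‖c‖ := norm_pos_iff.mpr hc0
  have hgr : grd υ P ≠ 0 := Comp_grd (hdυ P hPW)
  -- the first quantity
  have hA : Tendsto (fun n => (t n)⁻¹ * ‖det2 (q n - p n) (ξ n)‖) l (𝓝 ‖c‖) := by
    have h1 : Tendsto (fun n => ‖det2 ((((‖q n - p n‖ : ℝ) : ℂ)⁻¹) • (q n - p n)) (ξ n)‖) l (𝓝 ‖det2 E Ξ‖) := Comp_detc hE hξ
    rw [hc, Comp_det, hυ1, mul_one, norm_neg] at h1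
    refine h1.congr fun n => ?_
    rw [Comp_det_smul, norm_mul, norm_inv, Complex.norm_real, norm_norm]
  -- the second quantity
  set D : ℝ := wd (σ P) (fderiv ℂ σ P (grd υ P)) with hD
  have hDpos : 0 < D := himm P hPW _ hgr
  have hgl : Tendsto (fun n => grd υ (p n)) l (𝓝 (grd υ P)) := by
    have h1 : Tendsto (fun n => fderiv ℂ υ (p n) (0, 1)) l (𝓝 (fderiv ℂ υ P (0, 1))) := Comp_clm hdυl tendsto_const_nhds
    have h2 : Tendsto (fun n => fderiv ℂ υ (p n) (1, 0)) l (𝓝 (fderiv ℂ υ P (1, 0))) := Comp_clm hdυl tendsto_const_nhds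
    exact h1.neg.prodMk_nhds h2
  have hDl : Tendsto (fun n => wd (σ (p n)) (fderiv ℂ σ (p n) (grd υ (p n)))) l (𝓝 D) := by
    have h1 : Tendsto (fun n => fderiv ℂ σ (p n) (grd υ (p n))) l (𝓝 (fderiv ℂ σ P (grd υ P))) := Comp_clm hdσl hgl
    exact Comp_wdc hσp h1
  have hwl : Tendsto (fun n => (t n)⁻¹ * wd (σ (p n)) (σ (q n))) l (𝓝 (‖c‖ * D)) := by
    have h1 := Comp_div ((hσ P hPW).hasStrictFDerivAt) hp hq hE
    have h2 := Comp_wdc hσp h1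
    have h3 : wd (σ P) (fderiv ℂ σ P E) = ‖c‖ * D := by
      rw [hc, map_smul, Pool.Agent.H36.BP.wd_smul_right]
    rw [h3] at h2
    refine h2.congr fun n => ?_
    rw [Pool.Agent.H36.BP.wd_smul_right, norm_inv, Complex.norm_real, norm_norm, ← Comp_wd_sub]
  have hσP : 0 < ‖σ P‖ := norm_pos_iff.mpr (hσ0 P hPW)
  have hB : Tendsto (fun n => (t n)⁻¹ * wd (σ (p n)) (σ (q n)) / (‖σ (p n)‖ * ‖σ (q n)‖) * ‖σ (p n)‖ ^ 2 /
      wd (σ (p n)) (fderiv ℂ σ (p n) (grd υ (p n)))) l (𝓝 ‖c‖) := by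
    have h1 := ((hwl.div (hσp.norm.mul hσq.norm) (mul_pos hσP hσP).ne').mul (hσp.norm.pow 2)).div hDl hDpos.ne'
    have h2 : ‖c‖ * D / (‖σ P‖ * ‖σ P‖) * ‖σ P‖ ^ 2 / D = ‖c‖ := by
      field_simp
    rw [h2] at h1
    exact h1
  have h1 : Real.exp (-η) * ‖c‖ < ‖c‖ := by
    have : Real.exp (-η) < 1 := by
      rw [Real.exp_lt_one_iff]
      linarith
    nlinarith
  have h2 : ‖c‖ < Real.exp η * ‖c‖ := by
    have : 1 < Real.exp η := Real.one_lt_exp_iff.mpr hη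
    nlinarith
  have h3 := (hA.const_mul (Real.exp (-η))).eventually_lt hB h1
  have h4 := hB.eventually_lt (hA.const_mul (Real.exp η)) h2
  filter_upwards [h3, h4] with n h5 h6
  have h7 := htpos n
  have h8 : wd (σ (p n)) (σ (q n)) / (‖σ (p n)‖ * ‖σ (q n)‖) * ‖σ (p n)‖ ^ 2 / wd (σ (p n)) (fderiv ℂ σ (p n) (grd υ (p n))) =
      t n * ((t n)⁻¹ * wd (σ (p n)) (σ (q n)) / (‖σ (p n)‖ * ‖σ (q n)‖) * ‖σ (p n)‖ ^ 2 /
        wd (σ (p n)) (fderiv ℂ σ (p n) (grd υ (p n)))) := by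
    have h9 : wd (σ (p n)) (σ (q n)) = t n * ((t n)⁻¹ * wd (σ (p n)) (σ (q n))) := by
      rw [← mul_assoc, mul_inv_cancel₀ h7.ne', one_mul]
    conv_lhs => rw [h9]
    ring
  have h10 : ‖det2 (q n - p n) (ξ n)‖ = t n * ((t n)⁻¹ * ‖det2 (q n - p n) (ξ n)‖) := by
    rw [← mul_assoc, mul_inv_cancel₀ h7.ne', one_mul]
  rw [h8]
  constructor
  · conv_lhs => rw [h10]
    have := mul_le_mul_of_nonneg_left h5.le h7.le
    linarith
  · conv_rhs => rw [h10]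
    have := mul_le_mul_of_nonneg_left h6.le h7.le
    linarith

theorem comp {P₀ W : Set (ℂ × ℂ)} (hP : IsCompact P₀) (hW : IsOpen W) (hPW : P₀ ⊆ W) {σ : ℂ × ℂ → EN N} {υ : ℂ × ℂ → ℂ}
    (hσ : ∀ p ∈ W, AnalyticAt ℂ σ p) (hυ : ∀ p ∈ W, AnalyticAt ℂ υ p) (hσ0 : ∀ p ∈ W, σ p ≠ 0)
    (himm : ∀ p ∈ W, ∀ e : ℂ × ℂ, e ≠ 0 → 0 < wd (σ p) (fderiv ℂ σ p e)) (hdυ : ∀ p ∈ W, fderiv ℂ υ p ≠ 0)
    (L : ℝ) {η : ℝ} (hη : 0 < η) :
    ∃ ε : ℝ, 0 < ε ∧ ∀ p ∈ P₀, ∀ q ∈ W, q ≠ p → ‖q - p‖ < ε → υ q = υ p → ∀ ξ : ℂ × ℂ, ‖ξ‖ ≤ L → fderiv ℂ υ p ξ = 1 →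
      Real.exp (-η) * ‖det2 (q - p) ξ‖ ≤
        wd (σ p) (σ q) / (‖σ p‖ * ‖σ q‖) * ‖σ p‖ ^ 2 / wd (σ p) (fderiv ℂ σ p (grd υ p)) ∧
      wd (σ p) (σ q) / (‖σ p‖ * ‖σ q‖) * ‖σ p‖ ^ 2 / wd (σ p) (fderiv ℂ σ p (grd υ p)) ≤
        Real.exp η * ‖det2 (q - p) ξ‖ := by
  by_contra hcon
  have hex : ∀ n : ℕ, ∃ p q ξ : ℂ × ℂ, p ∈ P₀ ∧ q ∈ W ∧ q ≠ p ∧ ‖q - p‖ < 1 / ((n : ℝ) + 1) ∧ υ q = υ p ∧ ‖ξ‖ ≤ L ∧
      fderiv ℂ υ p ξ = 1 ∧ ¬ (Real.exp (-η) * ‖det2 (q - p) ξ‖ ≤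
        wd (σ p) (σ q) / (‖σ p‖ * ‖σ q‖) * ‖σ p‖ ^ 2 / wd (σ p) (fderiv ℂ σ p (grd υ p)) ∧
      wd (σ p) (σ q) / (‖σ p‖ * ‖σ q‖) * ‖σ p‖ ^ 2 / wd (σ p) (fderiv ℂ σ p (grd υ p)) ≤
        Real.exp η * ‖det2 (q - p) ξ‖) := by
    intro n
    by_contra hn
    apply hcon
    refine ⟨1 / ((n : ℝ) + 1), by positivity, ?_⟩
    intro p hp q hq hqp hd hυq ξ hξ hξ1
    by_contra hno
    exact hn ⟨p, q, ξ, hp, hq, hqp, hd, hυq, hξ, hξ1, hno⟩
  choose p q ξ hp hq hqp hd hυqp hξL hξ1 hno using hex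
  set 𝒰 : Ultrafilter ℕ := hyperfilter ℕ with h𝒰
  have hUle : (𝒰 : Filter ℕ) ≤ atTop := Nat.hyperfilter_le_atTop
  obtain ⟨P, hP0, hPl⟩ := hP.ultrafilter_le_nhds (𝒰.map p) (by
    rw [le_principal_iff]
    exact Filter.mem_map.mpr (Filter.univ_mem' hp))
  obtain ⟨Ξ, -, hΞl⟩ := (isCompact_closedBall (0 : ℂ × ℂ) L).ultrafilter_le_nhds (𝒰.map ξ) (by
    rw [le_principal_iff]
    exact Filter.mem_map.mpr (Filter.univ_mem' fun n => by
      rw [Set.mem_preimage, mem_closedBall_zero_iff]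
      exact hξL n))
  obtain ⟨E, hE1, hEl⟩ := (isCompact_sphere (0 : ℂ × ℂ) 1).ultrafilter_le_nhds
    (𝒰.map fun n => (((‖q n - p n‖ : ℝ) : ℂ)⁻¹) • (q n - p n)) (by
      rw [le_principal_iff]
      exact Filter.mem_map.mpr (Filter.univ_mem' fun n => by
        have h1 : ‖q n - p n‖ ≠ 0 := norm_ne_zero_iff.mpr (sub_ne_zero.mpr (hqp n))
        rw [Set.mem_preimage, mem_sphere_zero_iff_norm, norm_smul, norm_inv, Complex.norm_real, norm_norm]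
        exact inv_mul_cancel₀ h1))
  have hp' : Tendsto p 𝒰 (𝓝 P) := hPl
  have hξ' : Tendsto ξ 𝒰 (𝓝 Ξ) := hΞl
  have hE' : Tendsto (fun n => (((‖q n - p n‖ : ℝ) : ℂ)⁻¹) • (q n - p n)) 𝒰 (𝓝 E) := hEl
  have ht : Tendsto (fun n => q n - p n) 𝒰 (𝓝 0) := by
    refine squeeze_zero_norm (a := fun n : ℕ => 1 / ((n : ℝ) + 1)) (fun n => (hd n).le) ?_
    exact tendsto_one_div_add_atTop_nhds_zero_nat.mono_left hUle
  have hq' : Tendsto q 𝒰 (𝓝 P) := by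
    have h1 := hp'.add ht
    rw [add_zero] at h1
    refine h1.congr fun n => ?_
    abel
  have hkey := Comp_key hσ hυ hσ0 himm hdυ hη (hPW hP0) hp' hq' (mem_sphere_zero_iff_norm.mp hE1) hqp hυqp hE' hξ' hξ1
  obtain ⟨n, hn⟩ := hkey.exists
  exact hno n hn

end Pool.Agent.H62.EF

end

section

/-!
# EL Cp: uniform charts along the limits of the sections (Lebesgue numbers)

`cap_of_small` (auxiliary, used several times): let `Ψ z₀ ∈ X`, `u (Ψ z₀) - z₀ ∈ Λ`, and `χ, ρ` a straight chart (`Mon Λ u χ z₀ ρ 1 0`) with `Ψ z₀ ∈ χ.U`, `χ.q (Ψ z₀) = 0` and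
`‖mo z₀ ρ 1 0 p - z₀‖ < η` on `ball 0 2`, where no nonzero element of `Λ` has norm `< 2η`.  Then `Cap Λ u χ z₀ ρ z₀ (pr (Ψ z₀)) r` for some `r > 0`: by `near_of_pr` (the cone
`{x ∈ χ.U : ‖χ.q x‖ < 1}` is a neighbourhood of `Ψ z₀`) there is `r < η` such that `x ∈ X`, `dist (pr x) (pr (Ψ z₀)) ≤ r` implies `x ∈ χ.U`, `‖χ.q x‖ ≤ 1`; and then for `z ∈ closedBall z₀ r`,
`u x - z ∈ Λ`: `mo z₀ ρ 1 0 (χ.q x) - z ∈ Λ` (`Mon.lift`, `x = a • χ.σ (χ.q x)`), of norm `< η + r ≤ 2η`, so it is `0`.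

`exists_cap_P`: suppose not: for every `n` there are `z_n ∈ Gd B δ'`, `‖z_n‖ ≤ R`, `f_n ∈ Sb` without such a chart for `r = 1/(n+1)`.  Along `𝒰 = hyperfilter ℕ`: `z_n → z ∈ Gd B δ'`,
`f_n → f ∈ Sb` (`sb_exists_lim`), `f_n z_n → f z` (`sb_along`).  Let `Ψ` be a lift of `f` near `z` (`sb_lift`), `η` from `hP z f`, and a straight chart of size `< η` (and small with respect to
`Λ`) at `Ψ z` (`exists_str_of_lift`); `P χ` holds.  By `cap_of_small` `Cap ... z (f z) r`, so `Cap ... z_n (f_n z_n) (r/2)` as soon as `‖z_n - z‖ ≤ r/2`, `dist (f_n z_n) (f z) ≤ r/2`, and then also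
with `1/(n+1) ≤ r/2`: contradiction.

`exists_cap`: `exists_cap_P` with `P = True` and `R` the covering radius of `Λ`; for arbitrary `z₀ ∈ Gd B δ'` choose `l ∈ Λ` with `‖z₀ - l‖ ≤ R` and use the chart for `(z₀ - l, f (· + l))` with `c + l` instead
of `c`.

`exists_irel`: suppose not: `f_n, g_n ∈ Sb`, `z_n ∈ Gd B δ'`, `dist (f_n z_n) (g_n z_n) ≤ 1/(n+1)`, `α_n` without `v`.  Translate by `Λ`: `z_n` bounded [here the form changes: `α'_n` with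
`toFun z = α_n.toFun (z + l_n)` is again a `TForm`; `IRel α'_n ε (z_n - l_n) ..` implies `IRel α_n ε z_n ..` with `c + l_n`.  To avoid this: prove first the statement for the relation without `α`:
`∃ χ c ρ p p', Mon .. ∧ p, p' ∈ ball 0 2 ∧ c + ρ p.1 = z ∧ ... ∧ (∀ θ, dist ..)`, which is invariant under translation, and add a primitive `A` at the end by `exists_prim`].  Limits `z`, `f`, `f_n z_n → f z`,
`g_n z_n → f z`.  A straight chart `χ` at the lift `Ψ z`, `Cap` of radius `r` at `(z, f z)`: for large `n` the lifts `x_n, x'_n ∈ X` of `f_n z_n`, `g_n z_n` (`sb_mem`; with `u x_n - z_n ∈ Λ`, from `sb_lift`) are in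
`χ.U`; `p_n = χ.q x_n`, `p'_n = χ.q x'_n` tend to `0`; `c + ρ (p_n).1 = z_n = c + ρ (p'_n).1`, and `dist (pr (χ.σ (p_n + θ (p'_n - p_n)))) (f_n z_n) ≤ ε` for large `n` by continuity at `0`: contradiction.
-/

set_option autoImplicit false

open Topology Filter Metric

namespace Pool.Agent.H62.EL

open Pool.Agent.H36.BP (EN wd IsGermChart)
open Pool.Agent.H14.PP (IsCone Chart Tan CurveAt)
open Pool.Agent.H62.EF (Lat MN pr TorusMap Sec Charts)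

variable {N : ℕ} {X : Set (EN N)} {Λ : AddSubgroup ℂ} {u : EN N → ℂ}

variable {Γ : AddSubgroup ℂ} {B : Set ℂ} {δ : ℝ}

private lemma cp_q_small (hX : IsCone X) {χ : Chart X} {x₀ : EN N} (hx₀ : x₀ ∈ X) (hU : x₀ ∈ χ.U) (hq : χ.q x₀ = 0)
    {s : ℝ} (hs : 0 < s) : ∃ d : ℝ, 0 < d ∧ ∀ x ∈ X, dist (pr x) (pr x₀) < d → x ∈ χ.U ∧ ‖χ.q x‖ < s := by
  have hx0 : x₀ ≠ 0 := fun h => hX.zero_notMem (h ▸ hx₀)
  have hV : {x | x ∈ χ.U ∧ ‖χ.q x‖ < s} ∈ 𝓝 x₀ := by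
    have h1 : ∀ᶠ x in 𝓝 x₀, x ∈ χ.U := χ.isOpen_U.mem_nhds hU
    have h2 : ∀ᶠ x in 𝓝 x₀, ‖χ.q x‖ < s := by
      have hc : ContinuousAt (fun x => ‖χ.q x‖) x₀ := (χ.q_an x₀ hU).continuousAt.norm
      have h3 : (fun x => ‖χ.q x‖) x₀ < s := by simpa [hq] using hs
      exact hc.tendsto.eventually_lt_const h3
    exact h1.and h2
  obtain ⟨d, hd, h⟩ := Pool.Agent.H62.EF.near_of_pr hx0 hV
  refine ⟨d, hd, fun x hx hxd => ?_⟩
  obtain ⟨c, hc, hcU, hcq⟩ := h x (fun h0 => hX.zero_notMem (h0 ▸ hx)) hxd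
  have e : x = c⁻¹ • (c • x) := by rw [smul_smul, inv_mul_cancel₀ hc, one_smul]
  have hxU : x ∈ χ.U := by rw [e]; exact χ.smul_U _ hcU _ (inv_ne_zero hc)
  refine ⟨hxU, ?_⟩
  rw [← χ.q_smul x hxU c hc]
  exact hcq

private lemma cp_mo (b : ℂ) (ρ : ℝ) (p : ℂ × ℂ) : mo b ρ 1 0 p = b + ρ * p.1 := by
  simp [mo]

theorem cap_of_small (hX : IsCone X) (hu : TorusMap X Λ u) {x₀ : EN N} (hx₀ : x₀ ∈ X) {z₀ : ℂ} (hz₀ : u x₀ - z₀ ∈ Λ)
    {χ : Chart X} {ρ η : ℝ} (hm : Mon Λ u χ z₀ ρ 1 0) (hU : x₀ ∈ χ.U) (hq : χ.q x₀ = 0) (hinj : ∀ l ∈ Λ, ‖l‖ < 2 * η → l = 0)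
    (hr : ∀ p ∈ ball (0 : ℂ × ℂ) 2, ‖mo z₀ ρ 1 0 p - z₀‖ < η) : ∃ r : ℝ, 0 < r ∧ Cap Λ u χ z₀ ρ z₀ (pr x₀) r := by
  obtain ⟨d, hd, h⟩ := cp_q_small hX hx₀ hU hq (zero_lt_one' ℝ)
  have hη : 0 < η := lt_of_le_of_lt (norm_nonneg _) (hr 0 (mem_ball_self two_pos))
  have hr0 : 0 < min (d / 2) (η / 2) := lt_min (by linarith) (by linarith)
  refine ⟨min (d / 2) (η / 2), hr0, hm, fun z hz x hx hxz hxd => ?_⟩
  have h1 : min (d / 2) (η / 2) ≤ d / 2 := min_le_left _ _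
  have h2 : min (d / 2) (η / 2) ≤ η / 2 := min_le_right _ _
  obtain ⟨hxU, hxq⟩ := h x hx (by linarith)
  refine ⟨hxU, ?_, ?_⟩
  · rw [mem_closedBall, dist_zero_right]
    exact hxq.le
  · obtain ⟨hb, c, hc, e⟩ := χ.surj x hx hxU
    have h3 : u x - u (χ.σ (χ.q x)) ∈ Λ := by
      have h3' := hu.smul _ (χ.σ_mem _ hb).1 c hc
      rw [← e] at h3'
      exact h3'
    have h4 := hm.lift _ hb
    have h5 : mo z₀ ρ 1 0 (χ.q x) - z ∈ Λ := by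
      have h6 := Λ.sub_mem (Λ.sub_mem hxz h3) h4
      have e2 : mo z₀ ρ 1 0 (χ.q x) - z =
          u x - z - (u x - u (χ.σ (χ.q x))) - (u (χ.σ (χ.q x)) - mo z₀ ρ 1 0 (χ.q x)) := by ring
      rw [e2]
      exact h6
    have h7 : ‖mo z₀ ρ 1 0 (χ.q x) - z‖ < 2 * η := by
      have e3 : mo z₀ ρ 1 0 (χ.q x) - z = (mo z₀ ρ 1 0 (χ.q x) - z₀) - (z - z₀) := by ring
      have h8 := norm_sub_le (mo z₀ ρ 1 0 (χ.q x) - z₀) (z - z₀)
      have h9 := hr _ hb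
      rw [mem_closedBall, dist_eq_norm] at hz
      rw [e3]
      linarith
    have h10 := hinj _ h5 h7
    rw [cp_mo] at h10
    exact sub_eq_zero.1 h10

end Pool.Agent.H62.EL

end

section

/-!
# EL Tw: the differences of the primitives do not depend on the witness chart

Fix `p ∈ ball 0 r` and consider the curve `γ ξ = χ''.σ (ξ • p)`, defined for `ξ` in the open convex set `{ξ : ‖ξ • p‖ < r}` which contains `[0, 1]`.  Let
`Φ ξ = ψ₁' (χ'.q (γ ξ)) - ψ₂' (χ'.q (γ ξ)) - (ψ₁'' (χ''.q (γ ξ)) - ψ₂'' (χ''.q (γ ξ)))`, `χ''.q (γ ξ) = ξ • p`.  By `PsiP.der` (four times; `γ ξ ∈ χ'.U` by `hsub`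
and `γ ξ ∈ χ''.U`) its derivative is `(bt χ₁ - bt χ') - (bt χ₂ - bt χ') - ((bt χ₁ - bt χ'') - (bt χ₂ - bt χ'')) = 0`, so `Φ 1 = Φ 0`.  `Φ 0 = 0`: `ψ₁'' 0 = ψ₂'' 0 = 0`
(`PsiP.zero`, `0 ^ i'' * 0 ^ j'' = 0` as `i'' + j'' > 0`), and the point `q = χ'.q (χ''.σ 0)` satisfies `ρ' q.1^i' q.2^j' = 0`, because `mo b ρ' i' j' q = b`: both
sides are `u (χ''.σ 0)` modulo `Λ` (`mo b ρ'' i'' j'' 0 = b`), and `‖mo b ρ' i' j' q - b‖ < η`, `hinj`; so `ψ₁' q = ψ₂' q = 0`.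
[`χ''.σ 0 = c • χ'.σ q` by `Chart.surj`, `TorusMap.smul`.]
-/

set_option autoImplicit false

open Topology Filter Metric

namespace Pool.Agent.H62.EL

open Pool.Agent.H36.BP (EN wd IsGermChart)
open Pool.Agent.H14.PP (IsCone Chart Tan CurveAt)
open Pool.Agent.H62.EF (Lat MN pr TorusMap Sec Charts)

variable {N : ℕ} {X : Set (EN N)} {Λ : AddSubgroup ℂ} {u : EN N → ℂ}

theorem two_witness (hX : IsCone X) (hu : TorusMap X Λ u) {b : ℂ} {η : ℝ} (hinj : ∀ l ∈ Λ, ‖l‖ < 2 * η → l = 0)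
    {χ₁ χ₂ χ' χ'' : Chart X} {A₁ A₂ A' A'' : ℂ × ℂ → ℂ} {ρ' ρ'' : ℝ} {i' j' i'' j'' : ℕ} (hm' : Mon Λ u χ' b ρ' i' j')
    (hm'' : Mon Λ u χ'' b ρ'' i'' j'') (hr' : ∀ p ∈ ball (0 : ℂ × ℂ) 2, ‖mo b ρ' i' j' p - b‖ < η)
    {ψ₁' ψ₂' ψ₁'' ψ₂'' : ℂ × ℂ → ℂ} (h₁' : PsiP χ₁ A₁ χ' A' i' j' ψ₁') (h₂' : PsiP χ₂ A₂ χ' A' i' j' ψ₂')
    (h₁'' : PsiP χ₁ A₁ χ'' A'' i'' j'' ψ₁'') (h₂'' : PsiP χ₂ A₂ χ'' A'' i'' j'' ψ₂'') {r : ℝ} (hr0 : 0 < r) (hr : r ≤ 2)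
    (hsub : ∀ p ∈ ball (0 : ℂ × ℂ) r, χ''.σ p ∈ χ'.U) : ∀ p ∈ ball (0 : ℂ × ℂ) r,
      ψ₁' (χ'.q (χ''.σ p)) - ψ₂' (χ'.q (χ''.σ p)) = ψ₁'' p - ψ₂'' p := by
  have hball : ∀ y ∈ ball (0 : ℂ × ℂ) r, y ∈ ball (0 : ℂ × ℂ) 2 := fun y hy => ball_subset_ball hr hy
  have h0r : (0 : ℂ × ℂ) ∈ ball (0 : ℂ × ℂ) r := mem_ball_self hr0
  -- the value at the centre
  have hmo0 : mo b ρ'' i'' j'' 0 = b := by
    have h1 : (0 : ℂ) ^ i'' * (0 : ℂ) ^ j'' = 0 := by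
      rw [← pow_add]
      exact zero_pow hm''.ij.ne'
    show b + (ρ'' : ℂ) * ((0 : ℂ) ^ i'' * (0 : ℂ) ^ j'') = b
    rw [h1, mul_zero, add_zero]
  have hz'' : (0 : ℂ × ℂ).1 ^ i'' * (0 : ℂ × ℂ).2 ^ j'' = 0 := by
    show (0 : ℂ) ^ i'' * (0 : ℂ) ^ j'' = 0
    rw [← pow_add]
    exact zero_pow hm''.ij.ne'
  obtain ⟨hX0, -, hq0⟩ := χ''.σ_mem 0 (hball 0 h0r)
  have hU0 : χ''.σ 0 ∈ χ'.U := hsub 0 h0r
  obtain ⟨hq2, c, hc, hceq⟩ := χ'.surj (χ''.σ 0) hX0 hU0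
  set q : ℂ × ℂ := χ'.q (χ''.σ 0) with hq
  have hqz : q.1 ^ i' * q.2 ^ j' = 0 := by
    have h1 : u (χ''.σ 0) - mo b ρ'' i'' j'' 0 ∈ Λ := hm''.lift 0 (hball 0 h0r)
    have h2 : u (c • χ'.σ q) - u (χ'.σ q) ∈ Λ := hu.smul _ (χ'.σ_mem q hq2).1 c hc
    have h3 : u (χ'.σ q) - mo b ρ' i' j' q ∈ Λ := hm'.lift q hq2
    rw [hmo0] at h1
    rw [← hceq] at h2
    have h4 : mo b ρ' i' j' q - b ∈ Λ := by
      have h5 : mo b ρ' i' j' q - b = (u (χ''.σ 0) - b) - (u (χ''.σ 0) - u (χ'.σ q)) - (u (χ'.σ q) - mo b ρ' i' j' q) := by ring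
      rw [h5]
      exact Λ.sub_mem (Λ.sub_mem h1 h2) h3
    have h6 := hr' q hq2
    have h7 : mo b ρ' i' j' q - b = 0 := by
      refine hinj _ h4 ?_
      have h8 := norm_nonneg (mo b ρ' i' j' q - b)
      linarith
    have h9 : (ρ' : ℂ) * (q.1 ^ i' * q.2 ^ j') = 0 := by
      have h10 : mo b ρ' i' j' q - b = (ρ' : ℂ) * (q.1 ^ i' * q.2 ^ j') := by
        unfold mo
        ring
      rw [← h10, h7]
    exact (mul_eq_zero.mp h9).resolve_left (by exact_mod_cast hm'.pos.ne')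
  intro p hp
  -- the curve
  set γ : ℂ → EN N := fun ξ => χ''.σ (ξ • p) with hγ
  set D : Set ℂ := {ξ | ξ • p ∈ ball (0 : ℂ × ℂ) r} with hD
  have hDopen : IsOpen D := isOpen_ball.preimage (continuous_id.smul continuous_const)
  have hDconv : Convex ℝ D := by
    intro x hx y hy a a' ha ha' haa
    have hx' : x • p ∈ ball (0 : ℂ × ℂ) r := hx
    have hy' : y • p ∈ ball (0 : ℂ × ℂ) r := hy
    have h1 := convex_ball (0 : ℂ × ℂ) r hx' hy' ha ha' haa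
    show (a • x + a' • y) • p ∈ ball (0 : ℂ × ℂ) r
    rwa [add_smul, smul_assoc, smul_assoc]
  have h0D : (0 : ℂ) ∈ D := by
    show (0 : ℂ) • p ∈ ball (0 : ℂ × ℂ) r
    rw [zero_smul]
    exact h0r
  have h1D : (1 : ℂ) ∈ D := by
    show (1 : ℂ) • p ∈ ball (0 : ℂ × ℂ) r
    rw [one_smul]
    exact hp
  have hcurve : ∀ ξ ∈ D, CurveAt X γ ξ := by
    intro ξ hξ
    refine ⟨?_, ?_⟩
    · exact AnalyticAt.fun_comp (χ''.σ_an (ξ • p) (hball _ hξ)) (analyticAt_id.fun_smul analyticAt_const)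
    · filter_upwards [hDopen.mem_nhds hξ] with y hy
      exact (χ''.σ_mem (y • p) (hball _ hy)).1
  have hU'' : ∀ ξ ∈ D, γ ξ ∈ χ''.U := fun ξ hξ => (χ''.σ_mem (ξ • p) (hball _ hξ)).2.1
  have hU' : ∀ ξ ∈ D, γ ξ ∈ χ'.U := fun ξ hξ => hsub (ξ • p) hξ
  have hqq : ∀ ξ ∈ D, χ''.q (γ ξ) = ξ • p := fun ξ hξ => (χ''.σ_mem (ξ • p) (hball _ hξ)).2.2
  set Φ : ℂ → ℂ := fun ξ => ψ₁' (χ'.q (γ ξ)) - ψ₂' (χ'.q (γ ξ)) - (ψ₁'' (χ''.q (γ ξ)) - ψ₂'' (χ''.q (γ ξ))) with hΦ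
  have hder : ∀ ξ ∈ D, HasDerivAt Φ 0 ξ := by
    intro ξ hξ
    have h1 := h₁'.der γ ξ (hcurve ξ hξ) (hU' ξ hξ)
    have h2 := h₂'.der γ ξ (hcurve ξ hξ) (hU' ξ hξ)
    have h3 := h₁''.der γ ξ (hcurve ξ hξ) (hU'' ξ hξ)
    have h4 := h₂''.der γ ξ (hcurve ξ hξ) (hU'' ξ hξ)
    have h5 := (h1.sub h2).sub (h3.sub h4)
    have h6 : bt χ₁ A₁ γ ξ - bt χ' A' γ ξ - (bt χ₂ A₂ γ ξ - bt χ' A' γ ξ) -
        (bt χ₁ A₁ γ ξ - bt χ'' A'' γ ξ - (bt χ₂ A₂ γ ξ - bt χ'' A'' γ ξ)) = 0 := by ring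
    rw [h6] at h5
    exact h5
  have hconst : Φ 1 = Φ 0 := by
    refine hDopen.is_const_of_deriv_eq_zero hDconv.isPreconnected
      (fun ξ hξ => (hder ξ hξ).differentiableAt.differentiableWithinAt) ?_ h1D h0D
    intro ξ hξ
    exact (hder ξ hξ).deriv
  have hΦ0 : Φ 0 = 0 := by
    have h1 : γ 0 = χ''.σ 0 := by
      show χ''.σ ((0 : ℂ) • p) = χ''.σ 0
      rw [zero_smul]
    show ψ₁' (χ'.q (γ 0)) - ψ₂' (χ'.q (γ 0)) - (ψ₁'' (χ''.q (γ 0)) - ψ₂'' (χ''.q (γ 0))) = 0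
    rw [h1, hq0, ← hq, h₁'.zero q hq2 hqz, h₂'.zero q hq2 hqz, h₁''.zero 0 (hball 0 h0r) hz'', h₂''.zero 0 (hball 0 h0r) hz'']
    ring
  have hΦ1 : Φ 1 = ψ₁' (χ'.q (χ''.σ p)) - ψ₂' (χ'.q (χ''.σ p)) - (ψ₁'' p - ψ₂'' p) := by
    have h1 : γ 1 = χ''.σ p := by
      show χ''.σ ((1 : ℂ) • p) = χ''.σ p
      rw [one_smul]
    have h2 : χ''.q (γ 1) = p := by
      rw [hqq 1 h1D, one_smul]
    show ψ₁' (χ'.q (γ 1)) - ψ₂' (χ'.q (γ 1)) - (ψ₁'' (χ''.q (γ 1)) - ψ₂'' (χ''.q (γ 1))) = _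
    rw [h2, h1]
  rw [hΦ0, hΦ1] at hconst
  exact sub_eq_zero.mp hconst

end Pool.Agent.H62.EL

end
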