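import Pool.Agent.H94.G5T.M08
import Pool.Agent.H94.G5T.M16
import Pool.Agent.H94.G5T.M19

/-! The parts of this file: H62.EL.Db_1, H62.EL.Kq_1, TG.Y.Kq. -/

section

/-!
# EL Db: the form `β = - A ds` in another chart

Let `τ = χ.q ∘ χ'.σ`, analytic near `p` if `χ'.σ p ∈ χ.U`, with values in `ball 0 2` (`Chart.surj`).  `bc χ A χ' e = - A(τ) ∂_e τ₁`.
`bc_an`: clear (`fderiv` of an analytic function is analytic).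
`bc_closed`: `∂₁ b₂ - ∂₂ b₁ = -(A_s ∂₁τ₁ + A_t ∂₁τ₂) ∂₂τ₁ + (A_s ∂₂τ₁ + A_t ∂₂τ₂) ∂₁τ₁ - A (∂₁∂₂τ₁ - ∂₂∂₁τ₁) = A_t (τ) (∂₁τ₁ ∂₂τ₂ - ∂₂τ₁ ∂₁τ₂)`
(mixed derivatives are symmetric), `A_t (τ p) = tc α χ υ (τ p)` and `tc α χ υ (τ p) * jac τ p = tc α χ' υ' p` (`tc_trans`).
`bt_eq`: near `ζ`, `χ.q (γ ξ) = τ (χ'.q (γ ξ))` (`γ ξ = c • χ'.σ (χ'.q (γ ξ))`, `q_smul`); chain rule; at `ζ`: `χ.q (γ ζ) = τ (χ'.q (γ ζ))`.
-/

set_option autoImplicit false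

open Topology Filter Metric

namespace Pool.Agent.H62.EL

open Pool.Agent.H36.BP (EN wd IsGermChart)
open Pool.Agent.H14.PP (IsCone Chart Tan CurveAt jac)
open Pool.Agent.H62.EF (Lat MN pr TorusMap Sec Charts)

variable {N : ℕ} {X : Set (EN N)} {Λ : AddSubgroup ℂ} {u : EN N → ℂ}

theorem bc_closed (hX : IsCone X) (hu : TorusMap X Λ u) (α : TForm X Λ u) (χ χ' : Chart X) {υ υ' A : ℂ × ℂ → ℂ}
    (hA : IsPrim α χ υ A) {p : ℂ × ℂ} (hp : p ∈ ball (0 : ℂ × ℂ) 2) (hU : χ'.σ p ∈ χ.U) (hl : u (χ'.σ p) - υ' p ∈ Λ)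
    (he : υ (χ.q (χ'.σ p)) = υ' p) :
    fderiv ℂ (bc χ A χ' (0, 1)) p (1, 0) - fderiv ℂ (bc χ A χ' (1, 0)) p (0, 1) = tc α χ' υ' p := by
  have hτ : AnalyticAt ℂ (fun y => χ.q (χ'.σ y)) p := Db_tau_an χ χ' hp hU
  have hτb : χ.q (χ'.σ p) ∈ ball (0 : ℂ × ℂ) 2 := (χ.surj _ (χ'.σ_mem p hp).1 hU).1
  have hsym : fderiv ℂ (fderiv ℂ (fun y => χ.q (χ'.σ y))) p (1, 0) (0, 1) =
      fderiv ℂ (fderiv ℂ (fun y => χ.q (χ'.σ y))) p (0, 1) (1, 0) :=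
    (ContDiffAt.isSymmSndFDerivAt_of_omega (hτ.contDiffAt)).eq _ _
  rw [Db_fderiv_bc χ χ' hA.an hp hU, Db_fderiv_bc χ χ' hA.an hp hU, hsym,
    Db_pair (fderiv ℂ A (χ.q (χ'.σ p))) (fderiv ℂ (fun y => χ.q (χ'.σ y)) p (1, 0)),
    Db_pair (fderiv ℂ A (χ.q (χ'.σ p))) (fderiv ℂ (fun y => χ.q (χ'.σ y)) p (0, 1)), hA.der _ hτb,
    tc_trans hX hu α χ χ' hp hU hl he]
  simp only [smul_eq_mul, jac]
  ring

end Pool.Agent.H62.EL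

end

section

/-!
# EL Kq: the primitive of `β` along the fibres, in a straight chart

`χ` is a chart of the tube (with `u = b + ρ s^i t^j`, primitive `A`), `χ₀` a straight chart (`u = c₀ + ρ₀ s`, primitive `A₀`) inside `χ`; `b₁ = bc χ A χ₀ (1, 0)`, `b₂ = bc χ A χ₀ (0, 1)`; `Q` is the primitive of `b₂`
in the direction of the second variable with `Q (s, 0) = 0`.

`q_fderiv`: fix `p`; for all `t` with `|t| < 2` and `q = (p.1, t)`: `mo c₀ ρ₀ 1 0 q = mo c₀ ρ₀ 1 0 p` is within `η` of `b`, and `mo b ρ i j (τ q)` too (`τ = χ.q ∘ χ₀.σ`), both are `u (χ₀.σ q)` modulo `Λ`, so they are equal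
(`hinj`); so `bc_closed`: `∂₁ b₂ - ∂₂ b₁ = tc α χ₀ (mo c₀ ρ₀ 1 0) = ∂₂ A₀` at `q`.  Hence the functions `t ↦ ∂₁ Q (p.1, t)` and `t ↦ A₀ (p.1, t) + b₁ (p.1, t) - b₁ (p.1, 0)` have the same derivative on the disc
(`∂₂ ∂₁ Q = ∂₁ ∂₂ Q = ∂₁ b₂`) and the same value `0` at `t = 0` (`Q (·, 0) = 0`, `A₀ (·, 0) = 0`).

`q_curve`: near `z`, `c₀ + ρ₀ (χ₀.q (F w)).1 = w`: the difference is in `Λ` (`Mon.lift`, `F w = a • χ₀.σ (χ₀.q (F w))`), continuous and `0` at `w = z`.  So `(χ₀.q ∘ F)' = (1 / ρ₀, f₂')`, and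
`(Q ∘ χ₀.q ∘ F)' = ∂₁ Q / ρ₀ + b₂ f₂' = (A₀ + b₁ - b₁ (·, 0)) / ρ₀ + b₂ f₂' = bt χ A F z + (A₀ - b₁ (·, 0)) / ρ₀` (`bt_eq`).

`q_fibre`: `(Q ∘ χ₀.q ∘ γ)' = b₂ (χ₀.q ∘ γ)'.2 = bt χ A γ ζ` (`bt_eq`; the first coordinate of the derivative is `0`).
-/

set_option autoImplicit false

open Topology Filter Metric

namespace Pool.Agent.H62.EL

open Pool.Agent.H36.BP (EN wd IsGermChart)
open Pool.Agent.H14.PP (IsCone Chart Tan CurveAt jac)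
open Pool.Agent.H62.EF (Lat MN pr TorusMap Sec Charts)

variable {N : ℕ} {X : Set (EN N)} {Λ : AddSubgroup ℂ} {u : EN N → ℂ}

variable {α : TForm X Λ u} {χ χ₀ : Chart X} {b c₀ : ℂ} {ρ ρ₀ η : ℝ} {i j : ℕ} {A A₀ Q : ℂ × ℂ → ℂ}

theorem q_fderiv (hX : IsCone X) (hu : TorusMap X Λ u) (hinj : ∀ l ∈ Λ, ‖l‖ < 2 * η → l = 0) (hm : Mon Λ u χ b ρ i j)
    (hr : ∀ p ∈ ball (0 : ℂ × ℂ) 2, ‖mo b ρ i j p - b‖ < η) (hm₀ : Mon Λ u χ₀ c₀ ρ₀ 1 0) (hA : IsPrim α χ (mo b ρ i j) A)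
    (hA₀ : IsPrim α χ₀ (mo c₀ ρ₀ 1 0) A₀) (hsub : ∀ p ∈ ball (0 : ℂ × ℂ) 2, χ₀.σ p ∈ χ.U)
    (hQ : ∀ p ∈ ball (0 : ℂ × ℂ) 2, AnalyticAt ℂ Q p ∧ fderiv ℂ Q p (0, 1) = bc χ A χ₀ (0, 1) p)
    (hQ0 : ∀ s : ℂ, ‖s‖ < 2 → Q (s, 0) = 0) {p : ℂ × ℂ} (hp : p ∈ ball (0 : ℂ × ℂ) 2) (hpb : ‖mo c₀ ρ₀ 1 0 p - b‖ < η) :
    fderiv ℂ Q p (1, 0) = A₀ p + bc χ A χ₀ (1, 0) p - bc χ A χ₀ (1, 0) (p.1, 0) := by
  have hp' := hp
  rw [mem_ball_zero_iff, Prod.norm_def, max_lt_iff] at hp'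
  obtain ⟨hp1, hp2⟩ := hp'
  have hmem : ∀ t ∈ ball (0 : ℂ) 2, ((p.1, t) : ℂ × ℂ) ∈ ball (0 : ℂ × ℂ) 2 := by
    intro t ht
    rw [mem_ball_zero_iff] at ht
    rw [mem_ball_zero_iff, Prod.norm_def, max_lt_iff]
    exact ⟨hp1, ht⟩
  have hmo : ∀ t : ℂ, mo c₀ ρ₀ 1 0 (p.1, t) = mo c₀ ρ₀ 1 0 p := by
    intro t
    rw [Kq_mo, Kq_mo]
  let G : ℂ → ℂ := fun t => fderiv ℂ Q (p.1, t) (1, 0) - A₀ (p.1, t) - bc χ A χ₀ (1, 0) (p.1, t)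
  have hG : ∀ t ∈ ball (0 : ℂ) 2, HasDerivAt G 0 t := by
    intro t ht
    have hq := hmem t ht
    have hQa := (hQ _ hq).1
    have hb1 : AnalyticAt ℂ (bc χ A χ₀ (1, 0)) (p.1, t) := bc_an χ χ₀ hA.an hq (hsub _ hq) (1, 0)
    have hA0 : AnalyticAt ℂ A₀ (p.1, t) := hA₀.an _ hq
    have hd1 : HasFDerivAt (fun y => fderiv ℂ Q y (1, 0))
        ((ContinuousLinearMap.apply ℂ ℂ ((1 : ℂ), (0 : ℂ))).comp (fderiv ℂ (fderiv ℂ Q) (p.1, t))) (p.1, t) :=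
      HasFDerivAt.comp (g := fun L : (ℂ × ℂ) →L[ℂ] ℂ => ContinuousLinearMap.apply ℂ ℂ ((1 : ℂ), (0 : ℂ)) L) (p.1, t)
        (ContinuousLinearMap.apply ℂ ℂ ((1 : ℂ), (0 : ℂ))).hasFDerivAt hQa.fderiv.differentiableAt.hasFDerivAt
    have hd2 : HasFDerivAt (fun y => fderiv ℂ Q y (0, 1))
        ((ContinuousLinearMap.apply ℂ ℂ ((0 : ℂ), (1 : ℂ))).comp (fderiv ℂ (fderiv ℂ Q) (p.1, t))) (p.1, t) :=
      HasFDerivAt.comp (g := fun L : (ℂ × ℂ) →L[ℂ] ℂ => ContinuousLinearMap.apply ℂ ℂ ((0 : ℂ), (1 : ℂ)) L) (p.1, t)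
        (ContinuousLinearMap.apply ℂ ℂ ((0 : ℂ), (1 : ℂ))).hasFDerivAt hQa.fderiv.differentiableAt.hasFDerivAt
    have hev : (fun y => fderiv ℂ Q y (0, 1)) =ᶠ[𝓝 (p.1, t)] bc χ A χ₀ (0, 1) :=
      eventuallyEq_of_mem (isOpen_ball.mem_nhds hq) (fun y hy => (hQ y hy).2)
    have hsym : fderiv ℂ (fderiv ℂ Q) (p.1, t) (0, 1) (1, 0) = fderiv ℂ (fderiv ℂ Q) (p.1, t) (1, 0) (0, 1) := by
      have := hQa.contDiffAt (n := ⊤)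
      exact (this.isSymmSndFDerivAt (by simp)) _ _
    have h1 : HasDerivAt (fun t' => fderiv ℂ Q (p.1, t') (1, 0)) (fderiv ℂ (bc χ A χ₀ (0, 1)) (p.1, t) (1, 0)) t := by
      have h2 := Kq_snd (g := fun y => fderiv ℂ Q y (1, 0)) (s := p.1) (t := t) hd1.differentiableAt
      rw [hd1.fderiv] at h2
      have h3 : fderiv ℂ (bc χ A χ₀ (0, 1)) (p.1, t) (1, 0) = fderiv ℂ (fderiv ℂ Q) (p.1, t) (1, 0) (0, 1) := by
        rw [← hev.fderiv_eq, hd2.fderiv]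
        rfl
      rw [h3, ← hsym]
      exact h2
    have h4 := Kq_snd (g := A₀) (s := p.1) (t := t) hA0.differentiableAt
    have h5 := Kq_snd (g := bc χ A χ₀ (1, 0)) (s := p.1) (t := t) hb1.differentiableAt
    have h6 := bc_closed hX hu α χ χ₀ (υ := mo b ρ i j) (υ' := mo c₀ ρ₀ 1 0) hA hq (hsub _ hq) (hm₀.lift _ hq)
      (Kq_lift hu hinj hm hr hm₀ hsub hq (by rw [hmo t]; exact hpb))
    have h7 := hA₀.der _ hq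
    have h8 := (h1.sub h4).sub h5
    have h9 : fderiv ℂ (bc χ A χ₀ (0, 1)) (p.1, t) (1, 0) - fderiv ℂ A₀ (p.1, t) (0, 1) -
        fderiv ℂ (bc χ A χ₀ (1, 0)) (p.1, t) (0, 1) = 0 := by
      rw [h7, ← h6]
      ring
    rw [h9] at h8
    exact h8
  have hGc : ∀ t ∈ ball (0 : ℂ) 2, G t = G 0 := by
    intro t ht
    refine (convex_ball (0 : ℂ) 2).is_const_of_fderivWithin_eq_zero (𝕜 := ℂ) (f := G)
      (fun x hx => (hG x hx).differentiableAt.differentiableWithinAt) ?_ ht (mem_ball_self two_pos)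
    intro x hx
    rw [fderivWithin_of_isOpen isOpen_ball hx]
    have := (hG x hx).hasFDerivAt.fderiv
    rw [this]
    ext
    simp
  have h0m := hmem 0 (mem_ball_self two_pos)
  have hQ00 : fderiv ℂ Q (p.1, 0) (1, 0) = 0 := by
    have h1 := Kq_fst (g := Q) (s := p.1) (t := 0) (hQ _ h0m).1.differentiableAt
    have h2 : (fun s' : ℂ => Q (s', 0)) =ᶠ[𝓝 p.1] fun _ => 0 := by
      refine eventuallyEq_of_mem (isOpen_ball.mem_nhds (x := p.1) (s := ball (0 : ℂ) 2) ?_) ?_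
      · rwa [mem_ball_zero_iff]
      · intro s' hs'
        rw [mem_ball_zero_iff] at hs'
        exact hQ0 s' hs'
    have h3 : HasDerivAt (fun s' : ℂ => Q (s', 0)) 0 p.1 := (hasDerivAt_const p.1 (0 : ℂ)).congr_of_eventuallyEq h2
    exact h1.unique h3
  have h1 := hGc p.2 (by rwa [mem_ball_zero_iff])
  have h2 : G p.2 = fderiv ℂ Q p (1, 0) - A₀ p - bc χ A χ₀ (1, 0) p := rfl
  have h3 : G 0 = fderiv ℂ Q (p.1, 0) (1, 0) - A₀ (p.1, 0) - bc χ A χ₀ (1, 0) (p.1, 0) := rfl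
  rw [h2, h3, hQ00, hA₀.zero p.1 hp1] at h1
  linear_combination h1

theorem q_curve (hX : IsCone X) (hu : TorusMap X Λ u) (hΛ : Lat Λ) (hinj : ∀ l ∈ Λ, ‖l‖ < 2 * η → l = 0) (hm : Mon Λ u χ b ρ i j)
    (hr : ∀ p ∈ ball (0 : ℂ × ℂ) 2, ‖mo b ρ i j p - b‖ < η) (hm₀ : Mon Λ u χ₀ c₀ ρ₀ 1 0) (hA : IsPrim α χ (mo b ρ i j) A)
    (hA₀ : IsPrim α χ₀ (mo c₀ ρ₀ 1 0) A₀) (hsub : ∀ p ∈ ball (0 : ℂ × ℂ) 2, χ₀.σ p ∈ χ.U)
    (hQ : ∀ p ∈ ball (0 : ℂ × ℂ) 2, AnalyticAt ℂ Q p ∧ fderiv ℂ Q p (0, 1) = bc χ A χ₀ (0, 1) p)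
    (hQ0 : ∀ s : ℂ, ‖s‖ < 2 → Q (s, 0) = 0) {F : ℂ → EN N} (hF : F ∈ Sec X Λ u) {z : ℂ} (hU : F z ∈ χ₀.U)
    (hz : c₀ + ρ₀ * (χ₀.q (F z)).1 = z) (hzb : ‖z - b‖ < η) :
    HasDerivAt (fun w => Q (χ₀.q (F w)))
      (bt χ A F z + (A₀ (χ₀.q (F z)) - bc χ A χ₀ (1, 0) ((z - c₀) / ρ₀, 0)) / ρ₀) z := by
  have hcur : CurveAt X F z := ⟨hF.1.analyticAt z, Eventually.of_forall hF.2.1⟩
  have hFan : AnalyticAt ℂ F z := hF.1.analyticAt z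
  have hfan : AnalyticAt ℂ (fun w => χ₀.q (F w)) z := (χ₀.q_an _ hU).comp hFan
  obtain ⟨hfb, -⟩ := χ₀.surj _ (hF.2.1 z) hU
  have hUχ : F z ∈ χ.U := by
    obtain ⟨hb, c, hc, hx⟩ := χ₀.surj _ (hF.2.1 z) hU
    rw [hx]
    exact χ.smul_U _ (hsub _ hb) c hc
  have hρ : (ρ₀ : ℂ) ≠ 0 := by exact_mod_cast hm₀.pos.ne'
  obtain ⟨δΛ, hδΛ, hdisc⟩ := hΛ.discrete
  have hev : ∀ᶠ w in 𝓝 z, c₀ + ρ₀ * (χ₀.q (F w)).1 = w := by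
    have hcont : ContinuousAt (fun w => c₀ + ρ₀ * (χ₀.q (F w)).1 - w) z := by
      have h1 : ContinuousAt (fun w => (χ₀.q (F w)).1) z := continuousAt_fst.comp hfan.continuousAt
      exact ((continuousAt_const.add (continuousAt_const.mul h1)).sub continuousAt_id)
    have h2 : ∀ᶠ w in 𝓝 z, ‖c₀ + ρ₀ * (χ₀.q (F w)).1 - w‖ < δΛ := by
      have h3 := hcont.norm.tendsto
      refine h3.eventually_lt_const ?_
      rw [hz, sub_self, norm_zero]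
      exact hδΛ
    have h4 : ∀ᶠ w in 𝓝 z, F w ∈ χ₀.U := hFan.continuousAt.eventually (χ₀.isOpen_U.mem_nhds hU)
    filter_upwards [h2, h4] with w hw hwU
    obtain ⟨hb, c, hc, hx⟩ := χ₀.surj _ (hF.2.1 w) hwU
    have h5 := hm₀.lift _ hb
    have h6 := hu.smul _ (χ₀.σ_mem _ hb).1 c hc
    rw [← hx] at h6
    have h7 := hF.2.2 w
    rw [Kq_mo] at h5
    have h8 : c₀ + ρ₀ * (χ₀.q (F w)).1 - w ∈ Λ := by
      have := Λ.sub_mem (Λ.sub_mem h7 h6) h5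
      convert this using 1
      ring
    exact sub_eq_zero.1 (hdisc _ h8 hw)
  have hd := hfan.differentiableAt.hasDerivAt
  have hd1 : (deriv (fun w => χ₀.q (F w)) z).1 = 1 / ρ₀ := by
    have h1 : HasDerivAt (fun w => (χ₀.q (F w)).1) (deriv (fun w => χ₀.q (F w)) z).1 z :=
      HasFDerivAt.comp_hasDerivAt (f := fun w => χ₀.q (F w)) z
        (ContinuousLinearMap.fst ℂ ℂ ℂ).hasFDerivAt hd
    have h2 : (fun w => (χ₀.q (F w)).1) =ᶠ[𝓝 z] fun w => (w - c₀) / ρ₀ := by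
      filter_upwards [hev] with w hw
      rw [eq_div_iff hρ]
      linear_combination hw
    have h3 : HasDerivAt (fun w : ℂ => (w - c₀) / ρ₀) (1 / ρ₀) z := ((hasDerivAt_id z).sub_const c₀).div_const _
    exact h1.unique (h3.congr_of_eventuallyEq h2)
  have hpb : ‖mo c₀ ρ₀ 1 0 (χ₀.q (F z)) - b‖ < η := by rw [Kq_mo, hz]; exact hzb
  have h1 := q_fderiv hX hu hinj hm hr hm₀ hA hA₀ hsub hQ hQ0 hfb hpb
  have h2 := (hQ _ hfb).2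
  have h3 : HasDerivAt (fun w => Q (χ₀.q (F w))) (fderiv ℂ Q (χ₀.q (F z)) (deriv (fun w => χ₀.q (F w)) z)) z :=
    HasFDerivAt.comp_hasDerivAt (f := fun w => χ₀.q (F w)) z (hQ _ hfb).1.differentiableAt.hasFDerivAt hd
  have hz1 : (χ₀.q (F z)).1 = (z - c₀) / ρ₀ := by
    rw [eq_div_iff hρ]
    linear_combination hz
  rw [Kq_pair, h1, h2, hd1] at h3
  rw [bt_eq χ χ₀ A hcur hU hUχ, hd1, ← hz1]
  convert h3 using 1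
  field_simp
  ring

end Pool.Agent.H62.EL

end

section

/-!
# TG Y Kq: `EL/Kq` for local sections
-/

set_option autoImplicit false

open Topology Filter Metric

namespace Pool.Agent.TGY

open Pool.Agent.H36.BP (EN wd IsGermChart)
open Pool.Agent.H14.PP (IsCone Chart Tan CurveAt jac)
open Pool.Agent.H62.EF (Lat MN pr TorusMap Charts)
open Pool.Agent.H62.EL

variable {N : ℕ} {X : Set (EN N)} {Λ : AddSubgroup ℂ} {u : EN N → ℂ}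
variable {α : TForm X Λ u} {χ χ₀ : Chart X} {b c₀ : ℂ} {ρ ρ₀ η : ℝ} {i j : ℕ} {A A₀ Q : ℂ × ℂ → ℂ}

private theorem Kq_pair (L : (ℂ × ℂ) →L[ℂ] ℂ) (w : ℂ × ℂ) : L w = w.1 * L (1, 0) + w.2 * L (0, 1) := by
  rw [← smul_eq_mul, ← smul_eq_mul, ← map_smul, ← map_smul, ← map_add]
  congr 1
  ext
  · simp
  · simp

private theorem Kq_mo (c : ℂ) (ρ : ℝ) (p : ℂ × ℂ) : mo c ρ 1 0 p = c + ρ * p.1 := by
  simp [mo]

theorem q_curve_loc (hX : IsCone X) (hu : TorusMap X Λ u) (hΛ : Lat Λ) (hinj : ∀ l ∈ Λ, ‖l‖ < 2 * η → l = 0) (hm : Mon Λ u χ b ρ i j)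
    (hr : ∀ p ∈ ball (0 : ℂ × ℂ) 2, ‖mo b ρ i j p - b‖ < η) (hm₀ : Mon Λ u χ₀ c₀ ρ₀ 1 0) (hA : IsPrim α χ (mo b ρ i j) A)
    (hA₀ : IsPrim α χ₀ (mo c₀ ρ₀ 1 0) A₀) (hsub : ∀ p ∈ ball (0 : ℂ × ℂ) 2, χ₀.σ p ∈ χ.U)
    (hQ : ∀ p ∈ ball (0 : ℂ × ℂ) 2, AnalyticAt ℂ Q p ∧ fderiv ℂ Q p (0, 1) = bc χ A χ₀ (0, 1) p)
    (hQ0 : ∀ s : ℂ, ‖s‖ < 2 → Q (s, 0) = 0) {F : ℂ → EN N} {z : ℂ} (hF : CurveAt X F z) (hFu : ∀ᶠ w in 𝓝 z, u (F w) - w ∈ Λ) (hU : F z ∈ χ₀.U)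
    (hz : c₀ + ρ₀ * (χ₀.q (F z)).1 = z) (hzb : ‖z - b‖ < η) :
    HasDerivAt (fun w => Q (χ₀.q (F w)))
      (bt χ A F z + (A₀ (χ₀.q (F z)) - bc χ A χ₀ (1, 0) ((z - c₀) / ρ₀, 0)) / ρ₀) z := by
  have hcur : CurveAt X F z := hF
  have hFan : AnalyticAt ℂ F z := hF.1
  have hFX : F z ∈ X := hF.2.self_of_nhds
  have hfan : AnalyticAt ℂ (fun w => χ₀.q (F w)) z := (χ₀.q_an _ hU).comp hFan
  obtain ⟨hfb, -⟩ := χ₀.surj _ hFX hU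
  have hUχ : F z ∈ χ.U := by
    obtain ⟨hb, c, hc, hx⟩ := χ₀.surj _ hFX hU
    rw [hx]
    exact χ.smul_U _ (hsub _ hb) c hc
  have hρ : (ρ₀ : ℂ) ≠ 0 := by exact_mod_cast hm₀.pos.ne'
  obtain ⟨δΛ, hδΛ, hdisc⟩ := hΛ.discrete
  have hev : ∀ᶠ w in 𝓝 z, c₀ + ρ₀ * (χ₀.q (F w)).1 = w := by
    have hcont : ContinuousAt (fun w => c₀ + ρ₀ * (χ₀.q (F w)).1 - w) z := by
      have h1 : ContinuousAt (fun w => (χ₀.q (F w)).1) z := continuousAt_fst.comp hfan.continuousAt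
      exact ((continuousAt_const.add (continuousAt_const.mul h1)).sub continuousAt_id)
    have h2 : ∀ᶠ w in 𝓝 z, ‖c₀ + ρ₀ * (χ₀.q (F w)).1 - w‖ < δΛ := by
      have h3 := hcont.norm.tendsto
      refine h3.eventually_lt_const ?_
      rw [hz, sub_self, norm_zero]
      exact hδΛ
    have h4 : ∀ᶠ w in 𝓝 z, F w ∈ χ₀.U := hFan.continuousAt.eventually (χ₀.isOpen_U.mem_nhds hU)
    filter_upwards [h2, h4, hF.2, hFu] with w hw hwU hwX hwu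
    obtain ⟨hb, c, hc, hx⟩ := χ₀.surj _ hwX hwU
    have h5 := hm₀.lift _ hb
    have h6 := hu.smul _ (χ₀.σ_mem _ hb).1 c hc
    rw [← hx] at h6
    have h7 := hwu
    rw [Kq_mo] at h5
    have h8 : c₀ + ρ₀ * (χ₀.q (F w)).1 - w ∈ Λ := by
      have := Λ.sub_mem (Λ.sub_mem h7 h6) h5
      convert this using 1
      ring
    exact sub_eq_zero.1 (hdisc _ h8 hw)
  have hd := hfan.differentiableAt.hasDerivAt
  have hd1 : (deriv (fun w => χ₀.q (F w)) z).1 = 1 / ρ₀ := by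
    have h1 : HasDerivAt (fun w => (χ₀.q (F w)).1) (deriv (fun w => χ₀.q (F w)) z).1 z :=
      HasFDerivAt.comp_hasDerivAt (f := fun w => χ₀.q (F w)) z
        (ContinuousLinearMap.fst ℂ ℂ ℂ).hasFDerivAt hd
    have h2 : (fun w => (χ₀.q (F w)).1) =ᶠ[𝓝 z] fun w => (w - c₀) / ρ₀ := by
      filter_upwards [hev] with w hw
      rw [eq_div_iff hρ]
      linear_combination hw
    have h3 : HasDerivAt (fun w : ℂ => (w - c₀) / ρ₀) (1 / ρ₀) z := ((hasDerivAt_id z).sub_const c₀).div_const _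
    exact h1.unique (h3.congr_of_eventuallyEq h2)
  have hpb : ‖mo c₀ ρ₀ 1 0 (χ₀.q (F z)) - b‖ < η := by rw [Kq_mo, hz]; exact hzb
  have h1 := q_fderiv hX hu hinj hm hr hm₀ hA hA₀ hsub hQ hQ0 hfb hpb
  have h2 := (hQ _ hfb).2
  have h3 : HasDerivAt (fun w => Q (χ₀.q (F w))) (fderiv ℂ Q (χ₀.q (F z)) (deriv (fun w => χ₀.q (F w)) z)) z :=
    HasFDerivAt.comp_hasDerivAt (f := fun w => χ₀.q (F w)) z (hQ _ hfb).1.differentiableAt.hasFDerivAt hd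
  have hz1 : (χ₀.q (F z)).1 = (z - c₀) / ρ₀ := by
    rw [eq_div_iff hρ]
    linear_combination hz
  rw [Kq_pair, h1, h2, hd1] at h3
  rw [bt_eq χ χ₀ A hcur hU hUχ, hd1, ← hz1]
  convert h3 using 1
  field_simp
  ring

end Pool.Agent.TGY

end
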