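import Pool.Agent.H94.G5T.M18
import Pool.Agent.H94.G5T.M36
import Pool.Agent.H94.G5T.M44
import Pool.Agent.H94.G5T.M66

/-! The parts of this file: H62.EL.Ps, TG.Y.Jan, TG.Y.TbB. -/

section

/-!
# EL Ps: the primitive of `β - β'` in the witness chart

`τ = χ.q ∘ χ'.σ : ball 0 2 → ball 0 2`, `b₁ = bc χ A χ' (1, 0)`, `b₂ = bc χ A χ' (0, 1)`.  Lifts: for `p ∈ ball 0 2`,
`mo b ρ i j (τ p) = mo b ρ' i' j' p`: both are `u (χ'.σ p)` modulo `Λ` (`Mon.lift`, `TorusMap.smul`) and within `η` of `b`, and `hinj`.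
`β' = - A' ds` has the coefficients `(-A', 0)` in the chart `χ'`.  The form with coefficients `(b₁ + A', b₂)` is closed: `∂₁ b₂ - ∂₂ b₁ = tc α χ'`
(`bc_closed`) `= ∂₂ A'`.  Let `ψ` be the potential of `exists_potential` (`R = 2`), `ψ 0 = 0`.
`der`: near `ζ`, `γ ξ ∈ χ'.U` and `χ'.q (γ ξ) ∈ ball 0 2`; with `(s, t) = χ'.q ∘ γ`: `(ψ (s, t))' = (b₁ + A') s' + b₂ t' = bt χ A γ ζ + A' s' = bt χ A γ ζ -
bt χ' A' γ ζ` (`bt_eq` for the charts `χ`, `χ'`; `bt χ' A' γ ζ = - A' s'` by definition).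
`zero`: let `p.1 ^ i' * p.2 ^ j' = 0`.
Case `i' > 0`, `p.1 = 0`: for `|t| < 2` the function `t ↦ ψ (0, t)` has the derivative `b₂ (0, t) = - A (τ (0, t)) (∂₂ τ₁) (0, t)`.  Let
`s t = τ₁ (0, t)`, `t' t = τ₂ (0, t)`, analytic on the disc `|t| < 2`; `ρ (s t)^i (t' t)^j = mo .. - b = mo b ρ' i' j' (0, t) - b = 0`.  So `i > 0` and `s ≡ 0`,
or `j > 0` and `t' ≡ 0` on the disc (a product of analytic functions on a connected set which vanishes: one factor vanishes identically; `i + j > 0`, if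
`i = 0` the first factor is `1`).  If `s ≡ 0` then `∂₂ τ₁ (0, t) = s' t = 0`; if `t' ≡ 0` then `A (s t, 0) = 0` (`IsPrim.zero`).  So `ψ (0, t) = ψ 0 = 0`.
Case `j' > 0`, `p.2 = 0`: `s ↦ ψ (s, 0)` has the derivative `b₁ (s, 0) + A' (s, 0) = b₁ (s, 0)`, which vanishes by the same argument.
-/

set_option autoImplicit false

open Topology Filter Metric

namespace Pool.Agent.H62.EL

open Pool.Agent.H36.BP (EN wd IsGermChart)
open Pool.Agent.H14.PP (IsCone Chart Tan CurveAt jac)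
open Pool.Agent.H62.EF (Lat MN pr TorusMap Sec Charts)

variable {N : ℕ} {X : Set (EN N)} {Λ : AddSubgroup ℂ} {u : EN N → ℂ}

/-- a product of powers of analytic functions which vanishes on a disc -/
private theorem ps_prod {S T : ℂ → ℂ} {i j : ℕ} (hS : ∀ t ∈ ball (0 : ℂ) 2, AnalyticAt ℂ S t)
    (hT : ∀ t ∈ ball (0 : ℂ) 2, AnalyticAt ℂ T t) (h : ∀ t ∈ ball (0 : ℂ) 2, S t ^ i * T t ^ j = 0) :
    (∀ t ∈ ball (0 : ℂ) 2, S t = 0) ∨ ∀ t ∈ ball (0 : ℂ) 2, T t = 0 := by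
  have h1 : AnalyticOnNhd ℂ (fun t => S t ^ i) (ball (0 : ℂ) 2) := fun t ht => (hS t ht).fun_pow i
  have h2 : AnalyticOnNhd ℂ (fun t => T t ^ j) (ball (0 : ℂ) 2) := fun t ht => (hT t ht).fun_pow j
  have hpre : IsPreconnected (ball (0 : ℂ) 2) := (convex_ball (0 : ℂ) 2).isPreconnected
  rcases h1.eq_zero_or_eq_zero_of_mul_eq_zero h2 h hpre with h3 | h3
  · left
    intro t ht
    exact eq_zero_of_pow_eq_zero (h3 t ht)
  · right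
    intro t ht
    exact eq_zero_of_pow_eq_zero (h3 t ht)

private theorem ps_mem (χ χ' : Chart X) {p : ℂ × ℂ} (hp : p ∈ ball (0 : ℂ × ℂ) 2) (hU : χ'.σ p ∈ χ.U) :
    χ.q (χ'.σ p) ∈ ball (0 : ℂ × ℂ) 2 :=
  (χ.surj _ (χ'.σ_mem p hp).1 hU).1

private theorem ps_an (χ χ' : Chart X) {p : ℂ × ℂ} (hp : p ∈ ball (0 : ℂ × ℂ) 2) (hU : χ'.σ p ∈ χ.U) :
    AnalyticAt ℂ (fun y => χ.q (χ'.σ y)) p :=
  AnalyticAt.comp (g := χ.q) (f := χ'.σ) (χ.q_an _ hU) (χ'.σ_an p hp)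

/-- the lifts of `u` agree -/
private theorem ps_lift (hu : TorusMap X Λ u) {b : ℂ} {η : ℝ} (hinj : ∀ l ∈ Λ, ‖l‖ < 2 * η → l = 0)
    {χ χ' : Chart X} {ρ ρ' : ℝ} {i j i' j' : ℕ} (hm : Mon Λ u χ b ρ i j) (hm' : Mon Λ u χ' b ρ' i' j')
    (hr : ∀ p ∈ ball (0 : ℂ × ℂ) 2, ‖mo b ρ i j p - b‖ < η) (hr' : ∀ p ∈ ball (0 : ℂ × ℂ) 2, ‖mo b ρ' i' j' p - b‖ < η)
    {p : ℂ × ℂ} (hp : p ∈ ball (0 : ℂ × ℂ) 2) (hU : χ'.σ p ∈ χ.U) :
    mo b ρ i j (χ.q (χ'.σ p)) = mo b ρ' i' j' p := by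
  obtain ⟨hτ, c, hc, hx⟩ := χ.surj _ (χ'.σ_mem p hp).1 hU
  have h1 := hm'.lift p hp
  have h2 := hm.lift _ hτ
  have h3 := hu.smul (χ.σ (χ.q (χ'.σ p))) (χ.σ_mem _ hτ).1 c hc
  rw [← hx] at h3
  have h4 : mo b ρ i j (χ.q (χ'.σ p)) - mo b ρ' i' j' p ∈ Λ := by
    have h5 := Λ.sub_mem h1 (Λ.add_mem h3 h2)
    have h6 : u (χ'.σ p) - mo b ρ' i' j' p - (u (χ'.σ p) - u (χ.σ (χ.q (χ'.σ p))) +
        (u (χ.σ (χ.q (χ'.σ p))) - mo b ρ i j (χ.q (χ'.σ p)))) =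
        mo b ρ i j (χ.q (χ'.σ p)) - mo b ρ' i' j' p := by ring
    rwa [h6] at h5
  have h5 : ‖mo b ρ i j (χ.q (χ'.σ p)) - mo b ρ' i' j' p‖ < 2 * η := by
    have h6 : mo b ρ i j (χ.q (χ'.σ p)) - mo b ρ' i' j' p =
        (mo b ρ i j (χ.q (χ'.σ p)) - b) - (mo b ρ' i' j' p - b) := by ring
    rw [h6]
    have h7 := norm_sub_le (mo b ρ i j (χ.q (χ'.σ p)) - b) (mo b ρ' i' j' p - b)
    have h8 := hr _ hτ
    have h9 := hr' p hp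
    linarith
  exact sub_eq_zero.1 (hinj _ h4 h5)

/-- the coefficient of `β` along a coordinate axis on which `u = b` vanishes -/
private theorem ps_axis (α : TForm X Λ u) {b : ℂ} {χ χ' : Chart X} {ρ : ℝ} {i j : ℕ} (hm : Mon Λ u χ b ρ i j)
    {A : ℂ × ℂ → ℂ} (hA : IsPrim α χ (mo b ρ i j) A) (hsub : ∀ p ∈ ball (0 : ℂ × ℂ) 2, χ'.σ p ∈ χ.U) (e : ℂ × ℂ)
    (he : ∀ t ∈ ball (0 : ℂ) 2, t • e ∈ ball (0 : ℂ × ℂ) 2)
    (h0 : ∀ t ∈ ball (0 : ℂ) 2, mo b ρ i j (χ.q (χ'.σ (t • e))) = b) :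
    ∀ t ∈ ball (0 : ℂ) 2, bc χ A χ' e (t • e) = 0 := by
  have hl : ∀ t : ℂ, HasDerivAt (fun t : ℂ => t • e) e t := fun t => by
    simpa using (hasDerivAt_id t).smul_const e
  have hlan : ∀ t : ℂ, AnalyticAt ℂ (fun t : ℂ => t • e) t := fun t => by fun_prop
  have hτ : ∀ t ∈ ball (0 : ℂ) 2, AnalyticAt ℂ (fun t : ℂ => χ.q (χ'.σ (t • e))) t := fun t ht =>
    AnalyticAt.comp (g := fun y => χ.q (χ'.σ y)) (f := fun t : ℂ => t • e)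
      (ps_an χ χ' (he t ht) (hsub _ (he t ht))) (hlan t)
  have hd : ∀ t ∈ ball (0 : ℂ) 2, HasDerivAt (fun t : ℂ => χ.q (χ'.σ (t • e)))
      (fderiv ℂ (fun y => χ.q (χ'.σ y)) (t • e) e) t := fun t ht =>
    HasFDerivAt.comp_hasDerivAt (l := fun y => χ.q (χ'.σ y)) t
      (ps_an χ χ' (he t ht) (hsub _ (he t ht))).differentiableAt.hasFDerivAt (hl t)
  have hS : ∀ t ∈ ball (0 : ℂ) 2, AnalyticAt ℂ (fun t : ℂ => (χ.q (χ'.σ (t • e))).1) t := fun t ht =>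
    AnalyticAt.comp (g := fun y : ℂ × ℂ => y.1) (f := fun t : ℂ => χ.q (χ'.σ (t • e))) analyticAt_fst (hτ t ht)
  have hT : ∀ t ∈ ball (0 : ℂ) 2, AnalyticAt ℂ (fun t : ℂ => (χ.q (χ'.σ (t • e))).2) t := fun t ht =>
    AnalyticAt.comp (g := fun y : ℂ × ℂ => y.2) (f := fun t : ℂ => χ.q (χ'.σ (t • e))) analyticAt_snd (hτ t ht)
  have hST : ∀ t ∈ ball (0 : ℂ) 2, (χ.q (χ'.σ (t • e))).1 ^ i * (χ.q (χ'.σ (t • e))).2 ^ j = 0 := by
    intro t ht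
    have h1 := h0 t ht
    unfold mo at h1
    have h2 : (ρ : ℂ) * ((χ.q (χ'.σ (t • e))).1 ^ i * (χ.q (χ'.σ (t • e))).2 ^ j) = 0 := by
      linear_combination h1
    have h3 : (ρ : ℂ) ≠ 0 := by
      exact_mod_cast hm.pos.ne'
    exact (mul_eq_zero.1 h2).resolve_left h3
  intro t ht
  unfold bc
  rw [neg_eq_zero, mul_eq_zero]
  rcases ps_prod hS hT hST with h | h
  · right
    have h1 : HasDerivAt (fun t : ℂ => (χ.q (χ'.σ (t • e))).1)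
        (fderiv ℂ (fun y => χ.q (χ'.σ y)) (t • e) e).1 t :=
      HasFDerivAt.comp_hasDerivAt (l := fun y : ℂ × ℂ => y.1) t hasFDerivAt_fst (hd t ht)
    have h2 : (fun t : ℂ => (χ.q (χ'.σ (t • e))).1) =ᶠ[𝓝 t] fun _ => 0 := by
      filter_upwards [isOpen_ball.mem_nhds ht] with s hs
      exact h s hs
    exact h1.unique ((hasDerivAt_const t (0 : ℂ)).congr_of_eventuallyEq h2)
  · left
    have h1 : χ.q (χ'.σ (t • e)) = ((χ.q (χ'.σ (t • e))).1, 0) := Prod.ext rfl (h t ht)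
    have h2 := ps_mem χ χ' (he t ht) (hsub _ (he t ht))
    rw [h1]
    refine hA.zero _ ?_
    rw [mem_ball_zero_iff] at h2
    exact (norm_fst_le _).trans_lt h2

/-- a function with derivative `0` along the axis -/
private theorem ps_const {ψ : ℂ × ℂ → ℂ} (hψ : ∀ p ∈ ball (0 : ℂ × ℂ) 2, AnalyticAt ℂ ψ p) (e : ℂ × ℂ)
    (he : ∀ t ∈ ball (0 : ℂ) 2, t • e ∈ ball (0 : ℂ × ℂ) 2)
    (h0 : ∀ t ∈ ball (0 : ℂ) 2, fderiv ℂ ψ (t • e) e = 0) {t : ℂ} (ht : t ∈ ball (0 : ℂ) 2) :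
    ψ (t • e) = ψ 0 := by
  have hl : ∀ t : ℂ, HasDerivAt (fun t : ℂ => t • e) e t := fun t => by
    simpa using (hasDerivAt_id t).smul_const e
  have hd : ∀ t ∈ ball (0 : ℂ) 2, HasDerivAt (fun t : ℂ => ψ (t • e)) 0 t := fun t ht => by
    have h1 : HasDerivAt (fun t : ℂ => ψ (t • e)) (fderiv ℂ ψ (t • e) e) t :=
      HasFDerivAt.comp_hasDerivAt (l := ψ) t (hψ _ (he t ht)).differentiableAt.hasFDerivAt (hl t)
    rwa [h0 t ht] at h1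
  have h2 := isOpen_ball.is_const_of_deriv_eq_zero (𝕜 := ℂ) (convex_ball (0 : ℂ) 2).isPreconnected
    (f := fun t : ℂ => ψ (t • e)) (fun t ht => (hd t ht).differentiableAt.differentiableWithinAt)
    (fun t ht => (hd t ht).deriv) ht (mem_ball_self two_pos)
  simpa using h2

theorem exists_psi (hX : IsCone X) (hu : TorusMap X Λ u) (α : TForm X Λ u) {b : ℂ} {η : ℝ} (hinj : ∀ l ∈ Λ, ‖l‖ < 2 * η → l = 0)
    {χ χ' : Chart X} {ρ ρ' : ℝ} {i j i' j' : ℕ} (hm : Mon Λ u χ b ρ i j) (hm' : Mon Λ u χ' b ρ' i' j')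
    (hr : ∀ p ∈ ball (0 : ℂ × ℂ) 2, ‖mo b ρ i j p - b‖ < η) (hr' : ∀ p ∈ ball (0 : ℂ × ℂ) 2, ‖mo b ρ' i' j' p - b‖ < η)
    {A A' : ℂ × ℂ → ℂ} (hA : IsPrim α χ (mo b ρ i j) A) (hA' : IsPrim α χ' (mo b ρ' i' j') A')
    (hsub : ∀ p ∈ ball (0 : ℂ × ℂ) 2, χ'.σ p ∈ χ.U) : ∃ ψ : ℂ × ℂ → ℂ, PsiP χ A χ' A' i' j' ψ := by
  have hτ : ∀ p ∈ ball (0 : ℂ × ℂ) 2, mo b ρ i j (χ.q (χ'.σ p)) = mo b ρ' i' j' p := fun p hp =>
    ps_lift hu hinj hm hm' hr hr' hp (hsub p hp)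
  have hb1 : ∀ p ∈ ball (0 : ℂ × ℂ) 2, AnalyticAt ℂ (bc χ A χ' (1, 0)) p := fun p hp =>
    bc_an χ χ' hA.an hp (hsub p hp) (1, 0)
  have hb2 : ∀ p ∈ ball (0 : ℂ × ℂ) 2, AnalyticAt ℂ (bc χ A χ' (0, 1)) p := fun p hp =>
    bc_an χ χ' hA.an hp (hsub p hp) (0, 1)
  obtain ⟨ψ, hψ0, hψ⟩ := exists_potential (R := 2) (b₁ := fun p => bc χ A χ' (1, 0) p + A' p)
    (b₂ := bc χ A χ' (0, 1)) (fun p hp => (hb1 p hp).fun_add (hA'.an p hp)) hb2 (by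
      intro p hp
      have h1 := bc_closed hX hu α χ χ' hA hp (hsub p hp) (hm'.lift p hp) (hτ p hp)
      have h2 := hA'.der p hp
      have h3 : fderiv ℂ (fun p => bc χ A χ' (1, 0) p + A' p) p =
          fderiv ℂ (bc χ A χ' (1, 0)) p + fderiv ℂ A' p :=
        fderiv_fun_add (hb1 p hp).differentiableAt (hA'.an p hp).differentiableAt
      rw [h3, _root_.add_apply, h2, ← h1]
      ring)
  refine ⟨ψ, ⟨?_, ?_⟩⟩
  · intro p hp h0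
    rcases mul_eq_zero.1 h0 with h1 | h1
    · -- the axis `s = 0`
      have hp1 : p.1 = 0 := eq_zero_of_pow_eq_zero h1
      have hi' : i' ≠ 0 := by
        rintro rfl
        simp at h1
      have he : ∀ t ∈ ball (0 : ℂ) 2, t • ((0, 1) : ℂ × ℂ) ∈ ball (0 : ℂ × ℂ) 2 := by
        intro t ht
        rw [mem_ball_zero_iff] at ht ⊢
        simpa [Prod.norm_def] using ht
      have h2 : ∀ t ∈ ball (0 : ℂ) 2, mo b ρ i j (χ.q (χ'.σ (t • ((0, 1) : ℂ × ℂ)))) = b := by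
        intro t ht
        rw [hτ _ (he t ht)]
        simp [mo, hi']
      have h3 := ps_axis α hm hA hsub (0, 1) he h2
      have h4 : p = p.2 • ((0, 1) : ℂ × ℂ) := by
        refine Prod.ext ?_ ?_
        · simp [hp1]
        · simp
      have h5 : p.2 ∈ ball (0 : ℂ) 2 := by
        rw [mem_ball_zero_iff] at hp ⊢
        exact (norm_snd_le _).trans_lt hp
      rw [h4, ps_const (fun q hq => (hψ q hq).1) (0, 1) he
        (fun t ht => by rw [(hψ _ (he t ht)).2.2]; exact h3 t ht) h5, hψ0]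
    · -- the axis `t = 0`
      have hp1 : p.2 = 0 := eq_zero_of_pow_eq_zero h1
      have hj' : j' ≠ 0 := by
        rintro rfl
        simp at h1
      have he : ∀ t ∈ ball (0 : ℂ) 2, t • ((1, 0) : ℂ × ℂ) ∈ ball (0 : ℂ × ℂ) 2 := by
        intro t ht
        rw [mem_ball_zero_iff] at ht ⊢
        simpa [Prod.norm_def] using ht
      have h2 : ∀ t ∈ ball (0 : ℂ) 2, mo b ρ i j (χ.q (χ'.σ (t • ((1, 0) : ℂ × ℂ)))) = b := by
        intro t ht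
        rw [hτ _ (he t ht)]
        simp [mo, hj']
      have h3 := ps_axis α hm hA hsub (1, 0) he h2
      have h4 : p = p.1 • ((1, 0) : ℂ × ℂ) := by
        refine Prod.ext ?_ ?_
        · simp
        · simp [hp1]
      have h5 : p.1 ∈ ball (0 : ℂ) 2 := by
        rw [mem_ball_zero_iff] at hp ⊢
        exact (norm_fst_le _).trans_lt hp
      rw [h4, ps_const (fun q hq => (hψ q hq).1) (1, 0) he
        (fun t ht => by
          rw [(hψ _ (he t ht)).2.1]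
          have h6 : A' (t • ((1, 0) : ℂ × ℂ)) = 0 := by
            have h7 : t • ((1, 0) : ℂ × ℂ) = (t, 0) := by simp
            rw [h7]
            exact hA'.zero t (mem_ball_zero_iff.1 ht)
          rw [h6, h3 t ht, add_zero]) h5, hψ0]
  · intro γ ζ hγ hU'
    obtain ⟨hw, -, c, -, hc0, hev⟩ := χ'.curve hX hγ hU'
    obtain ⟨hwm, hγζ⟩ := hev.self_of_nhds
    have hU : γ ζ ∈ χ.U := by
      rw [hγζ]
      exact χ.smul_U _ (hsub _ hwm) _ hc0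
    have h1 : HasDerivAt (fun ξ => ψ (χ'.q (γ ξ)))
        (fderiv ℂ ψ (χ'.q (γ ζ)) (deriv (fun ξ => χ'.q (γ ξ)) ζ)) ζ :=
      HasFDerivAt.comp_hasDerivAt (l := ψ) ζ (hψ _ hwm).1.differentiableAt.hasFDerivAt
        hw.differentiableAt.hasDerivAt
    have h2 : fderiv ℂ ψ (χ'.q (γ ζ)) (deriv (fun ξ => χ'.q (γ ξ)) ζ) =
        bt χ A γ ζ - bt χ' A' γ ζ := by
      have h3 : deriv (fun ξ => χ'.q (γ ξ)) ζ = (deriv (fun ξ => χ'.q (γ ξ)) ζ).1 • ((1, 0) : ℂ × ℂ) +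
          (deriv (fun ξ => χ'.q (γ ξ)) ζ).2 • ((0, 1) : ℂ × ℂ) := by
        refine Prod.ext ?_ ?_
        · simp
        · simp
      rw [bt_eq χ χ' A hγ hU' hU]
      unfold bt
      conv_lhs => rw [h3, map_add, map_smul, map_smul, (hψ _ hwm).2.1, (hψ _ hwm).2.2, smul_eq_mul, smul_eq_mul]
      ring
    rwa [h2] at h1

end Pool.Agent.H62.EL

end

section

/-!
# TG Y Jan: the integral is holomorphic (local lifts)
-/

set_option autoImplicit false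

open Topology Filter Metric

namespace Pool.Agent.TGY

open Pool.Agent.H36.BP (EN wd IsGermChart)
open Pool.Agent.H14.PP (IsCone Chart Tan CurveAt jac)
open Pool.Agent.H62.EF (Lat MN pr TorusMap Charts)
open Pool.Agent.H62.EL

variable {N : ℕ} {X : Set (EN N)} {Λ : AddSubgroup ℂ} {u : EN N → ℂ}

private theorem ne_zero_of_mem (hX : IsCone X) {x : EN N} (hx : x ∈ X) : x ≠ 0 := fun h => hX.zero_notMem (h ▸ hx)

theorem rel_eps {α : TForm X Λ u} {ε : ℝ} {z v : ℂ} {y y' : MN N} (h : IRel α ε z y y' v) : 0 ≤ ε ∧ dist y' y ≤ ε := by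
  obtain ⟨χ, c, ρ, A, p, p', -, -, -, -, -, -, hy, hy', hθ, -⟩ := h
  constructor
  · exact dist_nonneg.trans (hθ 0 ⟨le_refl _, zero_le_one⟩)
  · have h1 := hθ 1 ⟨zero_le_one, le_refl _⟩
    have h2 : p + ((1 : ℝ) : ℂ) • (p' - p) = p' := by
      rw [Complex.ofReal_one, one_smul]
      abel
    rw [h2, hy'] at h1
    exact h1

private theorem closed_sub : closedBall (0 : ℂ × ℂ) 1 ⊆ ball (0 : ℂ × ℂ) 2 := closedBall_subset_ball (by norm_num)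

theorem II_analytic_on (hX : IsCone X) (hu : TorusMap X Λ u) (hΛ : Lat Λ) {α : TForm X Λ u} {ε r : ℝ} {Ψ Φ : ℂ → EN N} {z₀ : ℂ}
    (hΨ : AnalyticAt ℂ Ψ z₀) (hΦ : AnalyticAt ℂ Φ z₀) (hΨ' : ∀ᶠ z in 𝓝 z₀, Ψ z ∈ X ∧ u (Ψ z) - z ∈ Λ)
    (hΦ' : ∀ᶠ z in 𝓝 z₀, Φ z ∈ X ∧ u (Φ z) - z ∈ Λ) {χ : Chart X} {c : ℂ} {ρ : ℝ} (hc : Cap Λ u χ c ρ z₀ (pr (Ψ z₀)) r) (hr : ε < r)
    (hrel : ∀ᶠ z in 𝓝 z₀, ∃ v, IRel α ε z (pr (Ψ z)) (pr (Φ z)) v) :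
    AnalyticAt ℂ (fun z => II α ε z (pr (Ψ z)) (pr (Φ z))) z₀ := by
  obtain ⟨A, hA⟩ := exists_prim α χ hc.mon
  obtain ⟨v₀, hv₀⟩ := hrel.self_of_nhds
  obtain ⟨hε, hfg⟩ := rel_eps hv₀
  have hr0 : 0 < r := lt_of_le_of_lt hε hr
  obtain ⟨hΨX, hΨu⟩ := hΨ'.self_of_nhds
  obtain ⟨hΦX, hΦu⟩ := hΦ'.self_of_nhds
  have hz₀r : z₀ ∈ closedBall z₀ r := mem_closedBall_self hr0.le
  obtain ⟨hΨU, hΨq, -⟩ := hc.cap z₀ hz₀r (Ψ z₀) hΨX hΨu (by rw [dist_self]; exact hr0.le)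
  obtain ⟨hΦU, hΦq, -⟩ := hc.cap z₀ hz₀r (Φ z₀) hΦX hΦu (hfg.trans hr.le)
  have a1 : AnalyticAt ℂ (fun z => A (χ.q (Ψ z))) z₀ :=
    AnalyticAt.comp (f := fun z => χ.q (Ψ z)) (g := A) (hA.an _ (closed_sub hΨq))
      (AnalyticAt.comp (f := Ψ) (g := χ.q) (χ.q_an _ hΨU) hΨ)
  have a2 : AnalyticAt ℂ (fun z => A (χ.q (Φ z))) z₀ :=
    AnalyticAt.comp (f := fun z => χ.q (Φ z)) (g := A) (hA.an _ (closed_sub hΦq))
      (AnalyticAt.comp (f := Φ) (g := χ.q) (χ.q_an _ hΦU) hΦ)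
  have hρ : (ρ : ℂ) ≠ 0 := by
    have := hc.mon.pos
    exact_mod_cast this.ne'
  have a3 : AnalyticAt ℂ (fun z => (A (χ.q (Φ z)) - A (χ.q (Ψ z))) / (ρ : ℂ)) z₀ := (a2.sub a1).div analyticAt_const hρ
  refine a3.congr ?_
  have e3 : ∀ᶠ z in 𝓝 z₀, z ∈ closedBall z₀ r := closedBall_mem_nhds _ hr0
  have e4 : ∀ᶠ z in 𝓝 z₀, dist (pr (Ψ z)) (pr (Ψ z₀)) < r - ε := by
    have h1 : ContinuousAt (fun z => pr (Ψ z)) z₀ := ContinuousAt.comp (f := Ψ) (g := pr)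
      (Pool.Agent.H62.EF.continuousAt_pr (ne_zero_of_mem hX hΨX)) hΨ.continuousAt
    exact h1.eventually (ball_mem_nhds _ (by linarith))
  filter_upwards [e3, e4, hrel, hΨ', hΦ'] with z h3 h4 h5 h6 h7
  exact (II_eq hX hu hΛ h5 hc hA h3 (by linarith) h6.1 h7.1 rfl rfl).symm

end Pool.Agent.TGY

end

section

/-!
# TG Y TbB: `EL/TbB` with weaker hypotheses
-/

set_option autoImplicit false

open Topology Filter Metric

namespace Pool.Agent.TGY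

open Pool.Agent.H36.BP (EN wd IsGermChart)
open Pool.Agent.H14.PP (IsCone Chart Tan CurveAt jac)
open Pool.Agent.H62.EF (Lat MN pr TorusMap Charts)
open Pool.Agent.H62.EL

variable {N : ℕ} {X : Set (EN N)} {Λ : AddSubgroup ℂ} {u : EN N → ℂ}

open Classical in
/-- choice of a witness with the property `P` -/
private noncomputable def pickW (P : Wit X → Prop) (f : Wit X → ℂ) : ℂ := if h : ∃ w, P w then f h.choose else 0

private theorem pickW_congr {P P' : Wit X → Prop} {f f' : Wit X → ℂ} (hP : ∀ w, P w ↔ P' w) (hf : ∀ w, P w → f w = f' w) :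
    pickW P f = pickW P' f' := by
  have hPP : P = P' := funext fun w => propext (hP w)
  subst hPP
  unfold pickW
  by_cases h : ∃ w, P w
  · rw [dif_pos h, dif_pos h]
    exact hf _ h.choose_spec
  · rw [dif_neg h, dif_neg h]

private theorem pickW_eq {P : Wit X → Prop} (h : ∃ w, P w) : ∃ w, P w ∧ ∀ f : Wit X → ℂ, pickW P f = f w :=
  ⟨h.choose, h.choose_spec, fun f => by unfold pickW; rw [dif_pos h]⟩

private theorem pr_chart (χ : Chart X) {x : EN N} (hx : x ∈ X) (hU : x ∈ χ.U) : pr (χ.σ (χ.q x)) = pr x := by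
  obtain ⟨-, c, hc, hxc⟩ := χ.surj x hx hU
  conv_rhs => rw [hxc]
  exact (Pool.Agent.H62.EF.pr_smul _ hc).symm

private theorem q_chart {χ χ' : Chart X} {x : EN N} (hx : x ∈ X) (hU : x ∈ χ.U) (hs : χ.σ (χ.q x) ∈ χ'.U) :
    χ'.q (χ.σ (χ.q x)) = χ'.q x := by
  obtain ⟨-, c, hc, hxc⟩ := χ.surj x hx hU
  conv_rhs => rw [hxc]
  exact (χ'.q_smul _ hs c hc).symm

private theorem mem_W_chart {χ : Chart X} {W : Set (EN N)} (hW : ∀ x ∈ W, ∀ c : ℂ, c ≠ 0 → c • x ∈ W) {x : EN N} (hx : x ∈ X)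
    (hU : x ∈ χ.U) (hxW : x ∈ W) : χ.σ (χ.q x) ∈ W := by
  obtain ⟨-, c, hc, hxc⟩ := χ.surj x hx hU
  have h1 : χ.σ (χ.q x) = c⁻¹ • x := by
    conv_rhs => rw [hxc]
    rw [smul_smul, inv_mul_cancel₀ hc, one_smul]
  rw [h1]
  exact hW x hxW _ (inv_ne_zero hc)

theorem exists_tube (hX : IsCone X) (hu : TorusMap X Λ u) (hΛ : Lat Λ) {b : ℂ} (hnc : ∀ x ∈ X, u x - b ∈ Λ → IsNC X Λ u x b) :
    ∃ (T : TubeData X) (s η : ℝ), Tube Λ u b s η T := by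
  classical
  obtain ⟨T, s, η, 𝒲, hT, hW⟩ := exists_tube_geo hX hu hΛ hnc
  refine ⟨T, s, η, hT, ?_⟩
  intro α A hA
  have hprim : ∀ w : Wit X, ∃ A' : ℂ × ℂ → ℂ, w ∈ 𝒲 → IsPrim α w.χ (mo b w.ρ w.i w.j) A' := by
    intro w
    by_cases hw : w ∈ 𝒲
    · obtain ⟨A', hA'⟩ := exists_prim α w.χ (hW.mon w hw)
      exact ⟨A', fun _ => hA'⟩
    · exact ⟨fun _ => 0, fun h => absurd h hw⟩
  choose A' hA' using hprim
  have hpsi : ∀ (w : Wit X) (k : Fin T.m), ∃ ψ : ℂ × ℂ → ℂ, w ∈ 𝒲 → (∀ p ∈ ball (0 : ℂ × ℂ) 2, w.χ.σ p ∈ (T.χ k).U) →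
      PsiP (T.χ k) (A k) w.χ (A' w) w.i w.j ψ := by
    intro w k
    by_cases hw : w ∈ 𝒲 ∧ ∀ p ∈ ball (0 : ℂ × ℂ) 2, w.χ.σ p ∈ (T.χ k).U
    · obtain ⟨ψ, hψ⟩ := exists_psi hX hu α hT.inj (hT.mon k) (hW.mon w hw.1) (hT.range k) (hW.range w hw.1) (hA k)
        (hA' w hw.1) hw.2
      exact ⟨ψ, fun _ _ => hψ⟩
    · exact ⟨fun _ => 0, fun h1 h2 => absurd ⟨h1, h2⟩ hw⟩
  choose ψ hψ using hpsi
  set Good : EN N → Wit X → Prop := fun x w => w ∈ 𝒲 ∧ x ∈ w.χ.U ∧ w.χ.q x ∈ ball (0 : ℂ × ℂ) w.r with hGood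
  set lam : Fin T.m → EN N → ℂ := fun k x => pickW (Good x) fun w => ψ w k (w.χ.q x) with hlam
  -- the functions are defined at the points of `W k`
  have hdef : ∀ (w : Wit X) (x : EN N) (k : Fin T.m), x ∈ X → Good x w → x ∈ T.W k →
      PsiP (T.χ k) (A k) w.χ (A' w) w.i w.j (ψ w k) := by
    intro w x k hx hg hk
    refine hψ w k hg.1 (hW.sub w hg.1 k ⟨w.χ.q x, hg.2.2, ?_⟩)
    exact mem_W_chart (hT.W_smul k) hx hg.2.1 hk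
  refine ⟨lam, ?_, ?_⟩
  · intro k x hx c hc
    simp only [hlam]
    refine pickW_congr (fun w => ?_) fun w hw => ?_
    · simp only [hGood]
      constructor
      · rintro ⟨h1, h2, h3⟩
        have h4 : x ∈ w.χ.U := by
          have := w.χ.smul_U _ h2 c⁻¹ (inv_ne_zero hc)
          rwa [smul_smul, inv_mul_cancel₀ hc, one_smul] at this
        refine ⟨h1, h4, ?_⟩
        rwa [w.χ.q_smul x h4 c hc] at h3
      · rintro ⟨h1, h2, h3⟩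
        refine ⟨h1, w.χ.smul_U x h2 c hc, ?_⟩
        rwa [w.χ.q_smul x h2 c hc]
    · have h4 : x ∈ w.χ.U := by
        have := w.χ.smul_U _ hw.2.1 c⁻¹ (inv_ne_zero hc)
        rwa [smul_smul, inv_mul_cancel₀ hc, one_smul] at this
      rw [w.χ.q_smul x h4 c hc]
  · intro k l γ ζ hγ hz hk hl
    obtain ⟨z₀, hz₀, hzu⟩ := hz
    have hx₀ : γ ζ ∈ X := hγ.2.self_of_nhds
    obtain ⟨w₀, hw₀, hU₀, hq₀⟩ := hW.cover z₀ hz₀ (γ ζ) hx₀ hzu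
    have hg₀ : Good (γ ζ) w₀ := ⟨hw₀, hU₀, hq₀⟩
    have hk₀ := hdef w₀ (γ ζ) k hx₀ hg₀ hk
    have hl₀ := hdef w₀ (γ ζ) l hx₀ hg₀ hl
    have hd := (hk₀.der γ ζ hγ hU₀).sub (hl₀.der γ ζ hγ hU₀)
    have hval : bt (T.χ k) (A k) γ ζ - bt w₀.χ (A' w₀) γ ζ - (bt (T.χ l) (A l) γ ζ - bt w₀.χ (A' w₀) γ ζ) =
        bt (T.χ k) (A k) γ ζ - bt (T.χ l) (A l) γ ζ := by ring
    rw [hval] at hd
    refine hd.congr_of_eventuallyEq ?_
    -- neighbourhoods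
    have hγc : ContinuousAt γ ζ := hγ.1.continuousAt
    have e1 : ∀ᶠ ξ in 𝓝 ζ, γ ξ ∈ T.W k := hγc.eventually_mem ((hT.W_open k).mem_nhds hk)
    have e2 : ∀ᶠ ξ in 𝓝 ζ, γ ξ ∈ T.W l := hγc.eventually_mem ((hT.W_open l).mem_nhds hl)
    have e3 : ∀ᶠ ξ in 𝓝 ζ, γ ξ ∈ w₀.χ.U := hγc.eventually_mem (w₀.χ.isOpen_U.mem_nhds hU₀)
    have e4 : ∀ᶠ ξ in 𝓝 ζ, w₀.χ.q (γ ξ) ∈ ball (0 : ℂ × ℂ) w₀.r := by
      have h1 : ContinuousAt (fun ξ => w₀.χ.q (γ ξ)) ζ :=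
        ContinuousAt.comp (f := γ) (g := w₀.χ.q) (w₀.χ.q_an _ hU₀).continuousAt hγc
      exact h1.eventually_mem (isOpen_ball.mem_nhds hq₀)
    have e5 : ∀ᶠ ξ in 𝓝 ζ, γ ξ ∈ X → ∃ z ∈ ball b s, u (γ ξ) - z ∈ Λ := by
      obtain ⟨v, hv, hvu⟩ := hu.loc (γ ζ) hx₀
      have h1 : v (γ ζ) - z₀ ∈ Λ := by
        have h2 := hvu.self_of_nhds hx₀
        have h3 := Λ.sub_mem hzu h2
        have h4 : u (γ ζ) - z₀ - (u (γ ζ) - v (γ ζ)) = v (γ ζ) - z₀ := by ring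
        rwa [h4] at h3
      have h5 : ContinuousAt (fun ξ => v (γ ξ) - (v (γ ζ) - z₀)) ζ :=
        (ContinuousAt.comp (f := γ) (g := v) hv.continuousAt hγc).sub continuousAt_const
      have h6 : ∀ᶠ ξ in 𝓝 ζ, v (γ ξ) - (v (γ ζ) - z₀) ∈ ball b s := by
        apply h5.eventually_mem
        apply isOpen_ball.mem_nhds
        simpa using hz₀
      filter_upwards [h6, hγc.eventually hvu] with ξ h7 h8 h9
      refine ⟨_, h7, ?_⟩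
      have h10 := Λ.add_mem (h8 h9) h1
      have h11 : u (γ ξ) - v (γ ξ) + (v (γ ζ) - z₀) = u (γ ξ) - (v (γ ξ) - (v (γ ζ) - z₀)) := by ring
      rwa [h11] at h10
    filter_upwards [e1, e2, e3, e4, e5, hγ.2] with ξ f1 f2 f3 f4 f5 f6
    obtain ⟨z, hz, hzx⟩ := f5 f6
    obtain ⟨w', hw', hU', hq'⟩ := hW.cover z hz (γ ξ) f6 hzx
    obtain ⟨w₁, hg₁, hpick⟩ := pickW_eq (P := Good (γ ξ)) ⟨w', hw', hU', hq'⟩
    have hk₁ := hdef w₁ (γ ξ) k f6 hg₁ f1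
    have hl₁ := hdef w₁ (γ ξ) l f6 hg₁ f2
    simp only [hlam, hpick, Pi.sub_apply]
    obtain ⟨hw₁, hU₁, hq₁⟩ := hg₁
    have hpr : pr (w₀.χ.σ (w₀.χ.q (γ ξ))) = pr (w₁.χ.σ (w₁.χ.q (γ ξ))) := by
      rw [pr_chart w₀.χ f6 f3, pr_chart w₁.χ f6 hU₁]
    rcases hW.nest w₀ hw₀ w₁ hw₁ ⟨_, f4, _, hq₁, hpr⟩ with hn | hn
    · have h1 := two_witness hX hu hT.inj (hW.mon w₁ hw₁) (hW.mon w₀ hw₀) (hW.range w₁ hw₁) hk₁ hl₁ hk₀ hl₀
        (hW.pos w₀ hw₀).1 (hW.pos w₀ hw₀).2 hn (w₀.χ.q (γ ξ)) f4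
      rw [q_chart f6 f3 (hn _ f4)] at h1
      exact h1
    · have h1 := two_witness hX hu hT.inj (hW.mon w₀ hw₀) (hW.mon w₁ hw₁) (hW.range w₀ hw₀) hk₀ hl₀ hk₁ hl₁
        (hW.pos w₁ hw₁).1 (hW.pos w₁ hw₁).2 hn (w₁.χ.q (γ ξ)) hq₁
      rw [q_chart f6 hU₁ (hn _ hq₁)] at h1
      exact h1.symm

end Pool.Agent.TGY

end
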