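import Mathlib

/-! The parts of this file: H17.AhlforsGlobal, H17.EntireRing, TN.Osg. -/

section

/-!
# A vanishing theorem of Ahlfors–Schwarz type

`r i` are entire functions (without identically vanishing ones), `U = ∑ |r i|`, and `V` is the
variance of the logarithmic derivatives `r i' / r i` with weights `|r i| / U`.  If an entire
function `g` satisfies `|g|^2 U^a ≤ C ∏ |r i| V^ρ` with `a > 0`, and `V` is locally bounded, then
`g = 0`.
-/

open Topology Filter Complex

namespace Pool.Agent.H17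

section

variable {ι : Type} [Fintype ι]

/-- Zeros of a nonzero entire function are isolated. -/
lemma eventually_ne_zero_of_entire {f : ℂ → ℂ} (hf : Differentiable ℂ f) (h0 : ∃ z, f z ≠ 0)
    (s : ℂ) : ∀ᶠ z in 𝓝[≠] s, f z ≠ 0 := by
  rcases (hf.analyticAt s).eventually_eq_zero_or_eventually_ne_zero with h | h
  · exfalso
    obtain ⟨z, hz⟩ := h0
    have hana : AnalyticOnNhd ℂ f Set.univ := fun z _ => hf.analyticAt z
    exact hz (hana.eqOn_zero_of_preconnected_of_eventuallyEq_zero isPreconnected_univ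
      (Set.mem_univ s) h (Set.mem_univ z))
  · exact h

end

end Pool.Agent.H17

end

section

/-!
# The ring of entire functions
-/

open Polynomial Topology Filter

namespace Pool.Agent.H17

/-- The algebra of entire functions. -/
def entire : Subalgebra ℂ (ℂ → ℂ) where
  carrier := {f | Differentiable ℂ f}
  mul_mem' hf hg := hf.mul hg
  add_mem' hf hg := hf.add hg
  algebraMap_mem' c := differentiable_const c

/-- Entire functions. -/
abbrev EntFun : Type := ↥entire

namespace EntFun

lemma diff (f : EntFun) : Differentiable ℂ (f : ℂ → ℂ) := f.2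

lemma analyticAt (f : EntFun) (z : ℂ) : AnalyticAt ℂ (f : ℂ → ℂ) z := f.2.analyticAt z

@[ext] lemma ext' {f g : EntFun} (h : ∀ z, (f : ℂ → ℂ) z = (g : ℂ → ℂ) z) : f = g :=
  Subtype.ext (funext h)

lemma ne_zero_iff (f : EntFun) : f ≠ 0 ↔ ∃ z, (f : ℂ → ℂ) z ≠ 0 := by
  constructor
  · intro h
    by_contra h1
    push Not at h1
    exact h (ext' fun z => by simpa using h1 z)
  · rintro ⟨z, hz⟩ rfl
    exact hz rfl

instance : Nontrivial EntFun := ⟨⟨0, 1, fun h => by
  have := congrArg (fun f : EntFun => (f : ℂ → ℂ) 0) h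
  simp at this⟩⟩

instance : NoZeroDivisors EntFun := ⟨by
  intro f g hfg
  by_contra h
  push Not at h
  have h1 := eventually_ne_zero_of_entire f.2 ((ne_zero_iff f).mp h.1) 0
  have h2 := eventually_ne_zero_of_entire g.2 ((ne_zero_iff g).mp h.2) 0
  obtain ⟨z, hz1, hz2⟩ := (h1.and h2).exists
  have h3 : (f * g : EntFun).1 z = 0 := by rw [hfg]; rfl
  have h4 : (f : ℂ → ℂ) z * (g : ℂ → ℂ) z = 0 := h3
  rcases mul_eq_zero.mp h4 with h | h
  · exact hz1 h
  · exact hz2 h⟩

instance : IsDomain EntFun := NoZeroDivisors.to_isDomain _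

/-- Evaluation at a point. -/
def ev (z : ℂ) : EntFun →+* ℂ := (Pi.evalRingHom (fun _ : ℂ => ℂ) z).comp entire.subtype

@[simp] lemma ev_apply (z : ℂ) (f : EntFun) : ev z f = (f : ℂ → ℂ) z := rfl

@[simp] lemma ev_algebraMap (z c : ℂ) : ev z (algebraMap ℂ EntFun c) = c := rfl

@[simp] lemma coe_algebraMap (c z : ℂ) : ((algebraMap ℂ EntFun c : EntFun) : ℂ → ℂ) z = c := rfl

open Differential

/-- The coordinate function centred at `s`. -/
def coord (s : ℂ) : EntFun := ⟨fun z => z - s, by
  change Differentiable ℂ fun z : ℂ => z - s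
  fun_prop⟩

@[simp] lemma coord_apply (s z : ℂ) : ((coord s : EntFun) : ℂ → ℂ) z = z - s := rfl

lemma coord_ne_zero (s : ℂ) : coord s ≠ 0 := (ne_zero_iff _).mpr ⟨s + 1, by simp⟩

/-- Division by the coordinate function. -/
lemma exists_coord_mul {f : EntFun} {s : ℂ} (h : (f : ℂ → ℂ) s = 0) : ∃ g, f = coord s * g := by
  refine ⟨⟨dslope (f : ℂ → ℂ) s, ?_⟩, ?_⟩
  · intro z
    have h1 : DifferentiableOn ℂ (dslope (f : ℂ → ℂ) s) Set.univ :=
      (Complex.differentiableOn_dslope Filter.univ_mem).mpr f.diff.differentiableOn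
    exact (h1 z (Set.mem_univ z)).differentiableAt Filter.univ_mem
  · ext z
    have h2 := sub_smul_dslope (f : ℂ → ℂ) s z
    rw [h, sub_zero, smul_eq_mul] at h2
    exact h2.symm

/-- The order of a nonzero entire function is finite. -/
lemma order_ne_top {f : EntFun} (hf : f ≠ 0) (s : ℂ) : analyticOrderAt (f : ℂ → ℂ) s ≠ ⊤ := by
  intro h
  rw [analyticOrderAt_eq_top] at h
  have h1 := eventually_ne_zero_of_entire f.2 ((ne_zero_iff f).mp hf) s
  obtain ⟨z, hz1, hz2⟩ := ((h.filter_mono nhdsWithin_le_nhds).and h1).exists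
  exact hz2 hz1

lemma order_mul (f g : EntFun) (s : ℂ) : analyticOrderAt ((f * g : EntFun) : ℂ → ℂ) s =
    analyticOrderAt (f : ℂ → ℂ) s + analyticOrderAt (g : ℂ → ℂ) s :=
  analyticOrderAt_mul (f.analyticAt s) (g.analyticAt s)

lemma order_pow (f : EntFun) (n : ℕ) (s : ℂ) : analyticOrderAt ((f ^ n : EntFun) : ℂ → ℂ) s =
    n * analyticOrderAt (f : ℂ → ℂ) s := by
  have h : ((f ^ n : EntFun) : ℂ → ℂ) = (f : ℂ → ℂ) ^ n := rfl
  rw [h, analyticOrderAt_pow (f.analyticAt s), nsmul_eq_mul]

lemma order_prod {ι : Type*} (S : Finset ι) (f : ι → EntFun) (s : ℂ) :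
    analyticOrderAt ((∏ i ∈ S, f i : EntFun) : ℂ → ℂ) s =
      ∑ i ∈ S, analyticOrderAt ((f i : EntFun) : ℂ → ℂ) s := by
  classical
  induction S using Finset.induction_on with
  | empty =>
    rw [Finset.prod_empty, Finset.sum_empty, analyticOrderAt_eq_zero]
    right
    simp
  | insert a S ha ih => rw [Finset.prod_insert ha, Finset.sum_insert ha, order_mul, ih]

lemma order_eq_zero_iff (f : EntFun) (s : ℂ) :
    analyticOrderAt (f : ℂ → ℂ) s = 0 ↔ (f : ℂ → ℂ) s ≠ 0 :=
  (f.analyticAt s).analyticOrderAt_eq_zero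

lemma order_coord (s : ℂ) : analyticOrderAt ((coord s : EntFun) : ℂ → ℂ) s = 1 :=
  analyticOrderAt_id_sub_const_self

end EntFun

open EntFun

end Pool.Agent.H17

end

section

/-!
# TN Osg: bounded separately holomorphic functions of several variables are analytic

Induction on the number of variables, for all complex Banach spaces `E` at once.  For `f : ℂ × (Fin k → ℂ) → E` put
`G y = (θ ↦ f (a + ρ e^(iθ), y))`, a function with values in the Banach space of the bounded continuous functions `ℝ → E`; it is bounded and separately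
holomorphic (`osg_unif`: the Schwarz lemma and the Cauchy formula are uniform in `θ`), so analytic by induction, and
`2 π i f (z, y) = ∫ (D (X - z)⁻¹) (θ) • G y (θ) dθ` with `X - z` in the Banach algebra of the bounded continuous functions `ℝ → ℂ`.
-/

set_option autoImplicit false

open Topology Filter Metric

namespace Pool.Agent.TN

/-- a bounded function of one variable with values in a space of bounded functions which is pointwise holomorphic is holomorphic -/
private theorem osg_unif {T : Type*} [TopologicalSpace T] {E : Type*} [NormedAddCommGroup E] [NormedSpace ℂ E] [CompleteSpace E]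
    {φ : ℂ → BoundedContinuousFunction T E} {s M : ℝ} (hs : 0 < s) (hM : ∀ t ∈ ball (0:ℂ) s, ‖φ t‖ ≤ M)
    (hd : ∀ θ, ∀ t ∈ ball (0:ℂ) s, DifferentiableAt ℂ (fun t => φ t θ) t) : DifferentiableAt ℂ φ 0 := by
  have hM0 : 0 ≤ M := (norm_nonneg _).trans (hM 0 (mem_ball_self hs))
  have hcont : ContinuousOn φ (ball (0:ℂ) s) := by
    intro t0 ht0
    have ht0' : dist t0 0 < s := ht0
    set s' : ℝ := s - dist t0 0 with hs'
    have hs0 : 0 < s' := by linarith
    have hsub : ball t0 s' ⊆ ball (0:ℂ) s := by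
      intro w hw
      have hw' : dist w t0 < s' := hw
      have := dist_triangle w t0 0
      rw [mem_ball]
      linarith
    have key : ∀ t ∈ ball t0 s', dist (φ t) (φ t0) ≤ (2 * M) / s' * dist t t0 := by
      intro t ht
      rw [BoundedContinuousFunction.dist_le (by positivity)]
      intro θ
      refine Complex.dist_le_div_mul_dist_of_mapsTo_ball (f := fun t => φ t θ)
        (fun x hx => (hd θ x (hsub hx)).differentiableWithinAt) ?_ ht
      intro w hw
      rw [mem_closedBall, dist_eq_norm]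
      calc ‖φ w θ - φ t0 θ‖ ≤ ‖φ w θ‖ + ‖φ t0 θ‖ := norm_sub_le _ _
        _ ≤ M + M := add_le_add (((φ w).norm_coe_le_norm θ).trans (hM w (hsub hw))) (((φ t0).norm_coe_le_norm θ).trans (hM t0 ht0))
        _ = 2 * M := by ring
    refine ContinuousAt.continuousWithinAt ?_
    show Tendsto φ (𝓝 t0) (𝓝 (φ t0))
    rw [tendsto_iff_dist_tendsto_zero]
    have ht : Tendsto (fun t : ℂ => (2 * M) / s' * dist t t0) (𝓝 t0) (𝓝 0) := by
      have e1 : Tendsto (fun t : ℂ => (2 * M) / s' * dist t t0) (𝓝 t0) (𝓝 ((2 * M) / s' * dist t0 t0)) :=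
        ((continuous_const.mul (continuous_id.dist continuous_const)).tendsto t0)
      simpa using e1
    refine squeeze_zero' (Eventually.of_forall fun _ => dist_nonneg) ?_ ht
    filter_upwards [ball_mem_nhds t0 hs0] with t ht
    exact key t ht
  set R : NNReal := ⟨s / 2, by positivity⟩ with hRd
  have hR : (0:ℝ) < R := by show 0 < s / 2; positivity
  have hRs : (R:ℝ) < s := by show s / 2 < s; linarith
  have hsph : closedBall (0:ℂ) R ⊆ ball 0 s := closedBall_subset_ball hRs
  have hci : CircleIntegrable φ 0 R := by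
    refine ContinuousOn.circleIntegrable hR.le ?_
    exact hcont.mono (sphere_subset_closedBall.trans hsph)
  have hps := hasFPowerSeriesOn_cauchy_integral hci (by exact_mod_cast hR)
  have hana : AnalyticAt ℂ (fun w => (2 * Real.pi * Complex.I : ℂ)⁻¹ • ∮ z in C(0, R), (z - w)⁻¹ • φ z) 0 := hps.analyticAt
  refine (hana.congr ?_).differentiableAt
  filter_upwards [ball_mem_nhds (0:ℂ) hR] with w hw
  show (2 * Real.pi * Complex.I : ℂ)⁻¹ • (∮ z in C(0, R), (z - w)⁻¹ • φ z) = φ w
  ext θ
  have hint : CircleIntegrable (fun z => (z - w)⁻¹ • φ z) 0 R := by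
    refine ContinuousOn.circleIntegrable hR.le ?_
    have hinv : ContinuousOn (fun z : ℂ => (z - w)⁻¹) (sphere (0:ℂ) (R:ℝ)) := by
      refine ContinuousOn.inv₀ (by fun_prop) ?_
      intro z hz h0
      have hz' : dist z 0 = (R:ℝ) := hz
      have hw' : dist w 0 < (R:ℝ) := hw
      rw [sub_eq_zero.1 h0] at hz'
      exact absurd hz' hw'.ne
    exact hinv.smul (hcont.mono (sphere_subset_closedBall.trans hsph))
  have hev : (∮ z in C(0, R), (z - w)⁻¹ • φ z) θ = ∮ z in C(0, R), (z - w)⁻¹ • φ z θ := by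
    have h := ContinuousLinearMap.intervalIntegral_comp_comm (BoundedContinuousFunction.evalCLM ℂ (β := E) θ) hint.out
    rw [circleIntegral, circleIntegral]
    exact h.symm
  have hcf : (∮ z in C(0, R), (z - w)⁻¹ • φ z θ) = (2 * Real.pi * Complex.I : ℂ) • φ w θ :=
    DifferentiableOn.circleIntegral_sub_inv_smul (f := fun z => φ z θ)
      (fun x hx => (hd θ x (hsph hx)).differentiableWithinAt) hw
  show (2 * Real.pi * Complex.I : ℂ)⁻¹ • ((∮ z in C(0, R), (z - w)⁻¹ • φ z) θ) = φ w θ
  rw [hev, hcf, smul_smul, inv_mul_cancel₀ Complex.two_pi_I_ne_zero, one_smul]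

/-- the bilinear map `(g, h) ↦ ∫ g h` -/
private theorem osg_bil (E : Type*) [NormedAddCommGroup E] [NormedSpace ℂ E] :
    ∃ B : (BoundedContinuousFunction ℝ ℂ) →L[ℂ] (BoundedContinuousFunction ℝ E) →L[ℂ] E,
      ∀ g h, B g h = ∫ θ in (0:ℝ)..2 * Real.pi, g θ • h θ := by
  have hcont : ∀ (g : BoundedContinuousFunction ℝ ℂ) (h : BoundedContinuousFunction ℝ E), Continuous (fun θ : ℝ => g θ • h θ) :=
    fun g h => g.continuous.smul h.continuous
  let L0 : (BoundedContinuousFunction ℝ ℂ) →ₗ[ℂ] (BoundedContinuousFunction ℝ E) →ₗ[ℂ] E :=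
    LinearMap.mk₂ ℂ (fun g h => ∫ θ in (0:ℝ)..2 * Real.pi, g θ • h θ)
      (by
        intro g g' h
        rw [← intervalIntegral.integral_add ((hcont g h).intervalIntegrable _ _) ((hcont g' h).intervalIntegrable _ _)]
        congr 1
        funext θ
        rw [BoundedContinuousFunction.add_apply, add_smul])
      (by
        intro c g h
        rw [← intervalIntegral.integral_smul]
        congr 1
        funext θ
        rw [BoundedContinuousFunction.smul_apply, smul_assoc])
      (by
        intro g h h'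
        rw [← intervalIntegral.integral_add ((hcont g h).intervalIntegrable _ _) ((hcont g h').intervalIntegrable _ _)]
        congr 1
        funext θ
        rw [BoundedContinuousFunction.add_apply, smul_add])
      (by
        intro c g h
        rw [← intervalIntegral.integral_smul]
        congr 1
        funext θ
        rw [BoundedContinuousFunction.smul_apply, smul_comm])
  have hpi : (0:ℝ) ≤ 2 * Real.pi := by positivity
  refine ⟨L0.mkContinuous₂ (2 * Real.pi) ?_, fun g h => rfl⟩
  intro g h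
  show ‖∫ θ in (0:ℝ)..2 * Real.pi, g θ • h θ‖ ≤ _
  refine (intervalIntegral.norm_integral_le_of_norm_le_const (C := ‖g‖ * ‖h‖) ?_).trans (le_of_eq ?_)
  · intro θ _
    rw [norm_smul]
    exact mul_le_mul (g.norm_coe_le_norm _) (h.norm_coe_le_norm _) (norm_nonneg _) (norm_nonneg _)
  · rw [sub_zero, abs_of_nonneg hpi]
    ring

/-- inversion in the algebra of bounded continuous functions -/
private theorem osg_inv {u : BoundedContinuousFunction ℝ ℂ} (hu : IsUnit u) (p : ℝ) : (Ring.inverse u) p = (u p)⁻¹ := by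
  have h := Ring.mul_inverse_cancel u hu
  have h2 : u p * (Ring.inverse u) p = 1 := by
    rw [← BoundedContinuousFunction.mul_apply, h]; rfl
  exact (inv_eq_of_mul_eq_one_right h2).symm

private theorem osg_unit {c : ℂ} {ρ : ℝ} (hρ : 0 < ρ) :
    ∃ u : BoundedContinuousFunction ℝ ℂ, IsUnit u ∧ ∀ p, u p = circleMap c ρ p - c := by
  have hn : ∀ θ : ℝ, ‖circleMap c ρ θ - c‖ = ρ := by
    intro θ
    rw [← dist_eq_norm]
    have := circleMap_mem_sphere c hρ.le θ
    exact this
  have hne : ∀ θ : ℝ, circleMap c ρ θ - c ≠ 0 := by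
    intro θ h0
    have := hn θ
    rw [h0, norm_zero] at this
    exact hρ.ne this
  have hct : Continuous (fun p : ℝ => circleMap c ρ p - c) := (continuous_circleMap c ρ).sub continuous_const
  let u : BoundedContinuousFunction ℝ ℂ := BoundedContinuousFunction.ofNormedAddCommGroup (fun p => circleMap c ρ p - c) hct ρ
    (fun p => (hn _).le)
  let v : BoundedContinuousFunction ℝ ℂ := BoundedContinuousFunction.ofNormedAddCommGroup (fun p => (circleMap c ρ p - c)⁻¹)
    (hct.inv₀ fun p => hne _) ρ⁻¹ (fun p => by rw [norm_inv, hn])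
  refine ⟨u, ?_, fun p => rfl⟩
  refine IsUnit.of_mul_eq_one v ?_
  ext p
  show (circleMap c ρ p - c) * (circleMap c ρ p - c)⁻¹ = 1
  exact mul_inv_cancel₀ (hne _)

/-- the step of the induction -/
private theorem osg_step {k : ℕ} {E : Type*} [NormedAddCommGroup E] [NormedSpace ℂ E] [CompleteSpace E]
    (IH : ∀ {f : (Fin k → ℂ) → BoundedContinuousFunction ℝ E} {w : Fin k → ℂ} {r M : ℝ}, 0 < r →
      (∀ y ∈ ball w r, ‖f y‖ ≤ M) → (∀ y ∈ ball w r, ∀ l : Fin k, DifferentiableAt ℂ (fun t : ℂ => f (y + t • Pi.single l 1)) 0) →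
      AnalyticAt ℂ f w)
    {f : ℂ × (Fin k → ℂ) → E} {w : ℂ × (Fin k → ℂ)} {r M : ℝ} (hr : 0 < r)
    (hM : ∀ y ∈ ball w r, ‖f y‖ ≤ M) (h1 : ∀ y ∈ ball w r, DifferentiableAt ℂ (fun t : ℂ => f (y.1 + t, y.2)) 0)
    (h2 : ∀ y ∈ ball w r, ∀ l : Fin k, DifferentiableAt ℂ (fun t : ℂ => f (y.1, y.2 + t • Pi.single l 1)) 0) : AnalyticAt ℂ f w := by
  obtain ⟨a, b⟩ := w
  have hmem : ∀ z ∈ ball a r, ∀ y ∈ ball b r, (z, y) ∈ ball (a, b) r := by
    intro z hz y hy
    rw [mem_ball, Prod.dist_eq]
    exact max_lt hz hy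
  have hM' : ∀ z ∈ ball a r, ∀ y ∈ ball b r, ‖f (z, y)‖ ≤ M := fun z hz y hy => hM _ (hmem z hz y hy)
  have h1' : ∀ y ∈ ball b r, DifferentiableOn ℂ (fun z => f (z, y)) (ball a r) := by
    intro y hy z hz
    refine DifferentiableAt.differentiableWithinAt ?_
    have h0 := h1 _ (hmem z hz y hy)
    have e : (fun z' : ℂ => f (z', y)) = (fun t : ℂ => f (z + t, y)) ∘ (fun z' => z' - z) := by
      funext z'
      show f (z', y) = f (z + (z' - z), y)
      rw [add_sub_cancel]
    rw [e]
    refine DifferentiableAt.comp z ?_ (differentiableAt_id.sub_const z)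
    simpa using h0
  set ρ : ℝ := r / 2 with hρd
  have hρ : 0 < ρ := by positivity
  have hρr : ρ < r := by rw [hρd]; linarith
  have ha : ∀ θ, circleMap a ρ θ ∈ ball a r := fun θ => by
    have h := circleMap_mem_sphere a hρ.le θ
    rw [mem_ball, mem_sphere.1 h]; exact hρr
  have hHc : ∀ y ∈ ball b r, Continuous (fun θ : ℝ => f (circleMap a ρ θ, y)) := by
    intro y hy
    exact (h1' y hy).continuousOn.comp_continuous (continuous_circleMap a ρ) ha
  classical
  let G : (Fin k → ℂ) → BoundedContinuousFunction ℝ E := fun y =>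
    if hy : y ∈ ball b r then
      BoundedContinuousFunction.ofNormedAddCommGroup (fun θ => f (circleMap a ρ θ, y)) (hHc y hy) M (fun θ => hM' _ (ha θ) y hy)
    else 0
  have hG : ∀ y ∈ ball b r, ∀ θ, G y θ = f (circleMap a ρ θ, y) := by
    intro y hy θ
    show (if hy : y ∈ ball b r then
      BoundedContinuousFunction.ofNormedAddCommGroup (fun θ => f (circleMap a ρ θ, y)) (hHc y hy) M (fun θ => hM' _ (ha θ) y hy)
      else 0) θ = _
    rw [dif_pos hy]
    rfl
  have hM0 : 0 ≤ M := (norm_nonneg _).trans (hM (a, b) (mem_ball_self hr))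
  have hGM : ∀ y ∈ ball b r, ‖G y‖ ≤ M := by
    intro y hy
    rw [BoundedContinuousFunction.norm_le hM0]
    intro θ
    rw [hG y hy]
    exact hM' _ (ha θ) y hy
  have hGa : AnalyticAt ℂ G b := by
    refine IH hr hGM ?_
    intro y hy l
    have hy' : dist y b < r := hy
    have hsub : ∀ t ∈ ball (0:ℂ) (r - dist y b), y + t • (Pi.single l 1 : Fin k → ℂ) ∈ ball b r := by
      intro t ht
      have ht' : ‖t‖ < r - dist y b := by simpa using ht
      rw [mem_ball]
      have hd : dist (y + t • (Pi.single l 1 : Fin k → ℂ)) y ≤ ‖t‖ := by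
        rw [dist_eq_norm, add_sub_cancel_left, norm_smul]
        have : ‖(Pi.single l 1 : Fin k → ℂ)‖ ≤ 1 := by
          rw [pi_norm_le_iff_of_nonneg zero_le_one]
          intro i
          by_cases hi : i = l
          · subst hi; simp
          · simp [Pi.single_eq_of_ne hi]
        calc ‖t‖ * ‖(Pi.single l 1 : Fin k → ℂ)‖ ≤ ‖t‖ * 1 := mul_le_mul_of_nonneg_left this (norm_nonneg _)
          _ = ‖t‖ := mul_one _
      have := dist_triangle (y + t • (Pi.single l 1 : Fin k → ℂ)) y b
      linarith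
    refine osg_unif (s := r - dist y b) (M := M) (by linarith) (fun t ht => hGM _ (hsub t ht)) ?_
    intro θ t ht
    have h0 := h2 (circleMap a ρ θ, y + t • (Pi.single l 1 : Fin k → ℂ)) (hmem _ (ha θ) _ (hsub t ht)) l
    have e : (fun t' : ℂ => G (y + t' • (Pi.single l 1 : Fin k → ℂ)) θ) =ᶠ[𝓝 t]
        (fun s : ℂ => f (circleMap a ρ θ, y + t • (Pi.single l 1 : Fin k → ℂ) + s • (Pi.single l 1 : Fin k → ℂ))) ∘ (fun t' => t' - t) := by
      filter_upwards [isOpen_ball.mem_nhds ht] with t' ht'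
      rw [hG _ (hsub t' ht')]
      show f _ = f _
      congr 2
      rw [add_assoc, ← add_smul, add_sub_cancel]
    refine DifferentiableAt.congr_of_eventuallyEq ?_ e
    refine DifferentiableAt.comp t ?_ (differentiableAt_id.sub_const t)
    simpa using h0
  obtain ⟨B, hB⟩ := osg_bil E
  obtain ⟨u, hu, hu'⟩ := osg_unit (c := a) hρ
  have hder : Continuous (deriv (circleMap a ρ)) := by
    have : deriv (circleMap a ρ) = fun θ => circleMap 0 ρ θ * Complex.I := by
      funext θ; exact deriv_circleMap a ρ θ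
    rw [this]
    exact (continuous_circleMap 0 ρ).mul continuous_const
  have hdn : ∀ θ : ℝ, ‖deriv (circleMap a ρ) θ‖ ≤ ρ := by
    intro θ
    rw [deriv_circleMap, norm_mul, Complex.norm_I, mul_one, norm_circleMap_zero, abs_of_pos hρ]
  let D : BoundedContinuousFunction ℝ ℂ := BoundedContinuousFunction.ofNormedAddCommGroup (deriv (circleMap a ρ)) hder ρ hdn
  let U : ℂ × (Fin k → ℂ) → BoundedContinuousFunction ℝ ℂ := fun p => u - (p.1 - a) • (1 : BoundedContinuousFunction ℝ ℂ)
  have hU0 : U (a, b) = u := by show u - (a - a) • _ = u; rw [sub_self, zero_smul, sub_zero]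
  have hUa : AnalyticAt ℂ U (a, b) := analyticAt_const.sub ((analyticAt_fst.sub analyticAt_const).smul analyticAt_const)
  have hUi : AnalyticAt ℂ (fun p => Ring.inverse (U p)) (a, b) := by
    have h := analyticAt_inverse (𝕜 := ℂ) hu.unit
    rw [IsUnit.unit_spec, ← hU0] at h
    exact h.comp hUa
  have hGb : AnalyticAt ℂ (fun p : ℂ × (Fin k → ℂ) => G p.2) (a, b) :=
    AnalyticAt.comp (show AnalyticAt ℂ G ((a, b) : ℂ × (Fin k → ℂ)).2 from hGa) analyticAt_snd
  have hW : AnalyticAt ℂ (fun p : ℂ × (Fin k → ℂ) => B (D * Ring.inverse (U p)) (G p.2)) (a, b) := by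
    have hD : AnalyticAt ℂ (fun p : ℂ × (Fin k → ℂ) => D * Ring.inverse (U p)) (a, b) := analyticAt_const.mul hUi
    have hBa : AnalyticAt ℂ (fun q : BoundedContinuousFunction ℝ ℂ × BoundedContinuousFunction ℝ E => B q.1 q.2)
        ((fun p : ℂ × (Fin k → ℂ) => (D * Ring.inverse (U p), G p.2)) (a, b)) := B.analyticAt_bilinear _
    exact AnalyticAt.comp (f := fun p : ℂ × (Fin k → ℂ) => (D * Ring.inverse (U p), G p.2)) hBa (hD.prod hGb)
  have hWc : AnalyticAt ℂ (fun p : ℂ × (Fin k → ℂ) => (2 * Real.pi * Complex.I : ℂ)⁻¹ • B (D * Ring.inverse (U p)) (G p.2)) (a, b) :=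
    analyticAt_const.smul hW
  refine hWc.congr ?_
  have evU : ∀ᶠ p in 𝓝 (a, b), IsUnit (U p) := by
    have h := hUa.continuousAt.eventually (Units.isOpen.mem_nhds (show U (a, b) ∈ {x | IsUnit x} by rw [hU0]; exact hu))
    exact h
  have evB : ∀ᶠ p : ℂ × (Fin k → ℂ) in 𝓝 (a, b), p.1 ∈ ball a ρ ∧ p.2 ∈ ball b r :=
    ((continuous_fst.tendsto (a, b)).eventually (ball_mem_nhds a hρ)).and ((continuous_snd.tendsto (a, b)).eventually (ball_mem_nhds b hr))
  filter_upwards [evU, evB] with p hpU hpB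
  obtain ⟨z, y⟩ := p
  obtain ⟨hz, hy⟩ := hpB
  simp only at hz hy
  have c1 : (∮ ζ in C(a, ρ), (ζ - z)⁻¹ • f (ζ, y)) = (2 * Real.pi * Complex.I : ℂ) • f (z, y) :=
    DifferentiableOn.circleIntegral_sub_inv_smul (f := fun ζ => f (ζ, y)) ((h1' y hy).mono (closedBall_subset_ball hρr)) hz
  have hBv : B (D * Ring.inverse (U (z, y))) (G y) = (2 * Real.pi * Complex.I : ℂ) • f (z, y) := by
    rw [hB, ← c1, circleIntegral]
    congr 1
    funext θ
    rw [BoundedContinuousFunction.mul_apply, osg_inv hpU, hG y hy]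
    have eU : (U (z, y)) θ = circleMap a ρ θ - z := by
      show u θ - (z - a) * 1 = _
      rw [hu' θ]; ring
    rw [eU]
    show (deriv (circleMap a ρ) θ * (circleMap a ρ θ - z)⁻¹) • f (circleMap a ρ θ, y) = _
    rw [mul_smul]
  show _ • B (D * Ring.inverse (U (z, y))) (G y) = f (z, y)
  rw [hBv, smul_smul, inv_mul_cancel₀ Complex.two_pi_I_ne_zero, one_smul]

theorem osgood_pi {n : ℕ} {E : Type*} [NormedAddCommGroup E] [NormedSpace ℂ E] [CompleteSpace E] {f : (Fin n → ℂ) → E} {w : Fin n → ℂ} {r M : ℝ} (hr : 0 < r)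
    (hM : ∀ y ∈ ball w r, ‖f y‖ ≤ M) (h : ∀ y ∈ ball w r, ∀ l : Fin n, DifferentiableAt ℂ (fun t : ℂ => f (y + t • Pi.single l 1)) 0) : AnalyticAt ℂ f w := by
  induction n generalizing E r M with
  | zero =>
    have e : f = fun _ => f w := by
      funext y
      congr 1
      funext i
      exact i.elim0
    rw [e]
    exact analyticAt_const
  | succ k ih =>
    have hmem : ∀ z ∈ ball (w 0) r, ∀ y ∈ ball (fun i : Fin k => w i.succ) r, (Fin.cons z y : Fin (k + 1) → ℂ) ∈ ball w r := by
      intro z hz y hy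
      rw [mem_ball, dist_pi_lt_iff hr]
      rw [mem_ball, dist_pi_lt_iff hr] at hy
      intro i
      refine Fin.cases ?_ ?_ i
      · exact hz
      · intro j
        exact hy j
    have hmem2 : ∀ p ∈ ball ((w 0, fun i : Fin k => w i.succ) : ℂ × (Fin k → ℂ)) r, (Fin.cons p.1 p.2 : Fin (k + 1) → ℂ) ∈ ball w r := by
      intro p hp
      rw [mem_ball, Prod.dist_eq, max_lt_iff] at hp
      exact hmem p.1 hp.1 p.2 hp.2
    have hg : AnalyticAt ℂ (fun p : ℂ × (Fin k → ℂ) => f (Fin.cons p.1 p.2 : Fin (k + 1) → ℂ)) (w 0, fun i : Fin k => w i.succ) := by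
      refine osg_step (fun {_ _ _ _} hr hM h => ih hr hM h) (M := M) hr (fun p hp => hM _ (hmem2 p hp)) ?_ ?_
      · intro p hp
        have h0 := h _ (hmem2 p hp) 0
        have e : (fun t : ℂ => f (Fin.cons (p.1 + t) p.2 : Fin (k + 1) → ℂ)) =
            (fun t : ℂ => f ((Fin.cons p.1 p.2 : Fin (k + 1) → ℂ) + t • Pi.single 0 1)) := by
          funext t
          congr 1
          funext i
          refine Fin.cases ?_ ?_ i
          · simp
          · intro j
            simp
        show DifferentiableAt ℂ (fun t : ℂ => f (Fin.cons (p.1 + t) p.2 : Fin (k + 1) → ℂ)) 0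
        rw [e]
        exact h0
      · intro p hp l
        have h0 := h _ (hmem2 p hp) l.succ
        have e : (fun t : ℂ => f (Fin.cons p.1 (p.2 + t • (Pi.single l 1 : Fin k → ℂ)) : Fin (k + 1) → ℂ)) =
            (fun t : ℂ => f ((Fin.cons p.1 p.2 : Fin (k + 1) → ℂ) + t • Pi.single l.succ 1)) := by
          funext t
          congr 1
          funext i
          refine Fin.cases ?_ ?_ i
          · simp
          · intro j
            simp [Pi.single_apply]
        show DifferentiableAt ℂ (fun t : ℂ => f (Fin.cons p.1 (p.2 + t • (Pi.single l 1 : Fin k → ℂ)) : Fin (k + 1) → ℂ)) 0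
        rw [e]
        exact h0
    let π : (Fin (k + 1) → ℂ) →L[ℂ] ℂ × (Fin k → ℂ) :=
      (ContinuousLinearMap.proj 0).prod (ContinuousLinearMap.pi fun i : Fin k => ContinuousLinearMap.proj i.succ)
    have e : f = (fun p : ℂ × (Fin k → ℂ) => f (Fin.cons p.1 p.2 : Fin (k + 1) → ℂ)) ∘ π := by
      funext y
      show f y = f (Fin.cons (y 0) (fun i : Fin k => y i.succ) : Fin (k + 1) → ℂ)
      congr 1
      funext i
      refine Fin.cases ?_ ?_ i
      · rfl
      · intro j
        rfl
    rw [e]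
    exact AnalyticAt.comp (show AnalyticAt ℂ (fun p : ℂ × (Fin k → ℂ) => f (Fin.cons p.1 p.2 : Fin (k + 1) → ℂ)) (π w) from hg) (π.analyticAt w)

end Pool.Agent.TN

end
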