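import Pool.Agent.H94.G5T.AD.Defs
import Pool.Agent.H94.G5T.M02
import Pool.Agent.H94.G5T.M04
import Pool.Agent.H94.G5T.M06

/-! The parts of this file: H14.PP.ChartBasic_3, H62.EL.Kq, TG.Prm. -/

section

/-!
# BPm ChartBasic: charts, basic facts

* `Chart.fderiv_q_smul`: `q (c • y) = q y` for `y` near `x ∈ U` (`U` open); differentiate:
  `Dq(c x) (c v) = Dq(x) v`; and `Dq(x) x = 0` (differentiate `q ((1 + h) • x) = q x` at `h = 0`).
* `Chart.fderiv_sigma`: derivative of `q ∘ σ = id` on the bidisc: `Dq(σ p) (Dσ(p) w) = w`.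
* `Chart.tan`: the curve `z ↦ σ (p + z • w)`; if `σ p ∈ K` it stays in `K` (`rel_open`).
* `Chart.curve`: `q ∘ F` is analytic at `z₀` (composition), its derivative is given by the chain
  rule. For `z` near `z₀`, `F z ∈ X ∩ U`, so `q (F z) ∈ ball 0 2` and `F z = c z • σ (q (F z))` with
  `c z ≠ 0` (`surj`). With `y = σ (q (F z₀)) ≠ 0`: `c z = ⟪y, F z⟫ / ⟪y, σ (q (F z))⟫` near `z₀`:
  analytic.
* `Chart.sigma_mem_iff`: for `x ∈ X ∩ U`, `x = c • σ (q x)`, so `x ∈ K ↔ σ (q x) ∈ K`.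
-/

open Topology Filter Metric

namespace Pool.Agent.H14.PP

open Pool.Agent.H36.BP

variable {N : ℕ} {X K T : Set (EN N)}

theorem Chart.curve (hX : IsCone X) (χ : Chart X) {F : ℂ → EN N} {z₀ : ℂ} (hF : CurveAt X F z₀)
    (hU : F z₀ ∈ χ.U) :
    AnalyticAt ℂ (fun z => χ.q (F z)) z₀ ∧
    deriv (fun z => χ.q (F z)) z₀ = fderiv ℂ χ.q (F z₀) (deriv F z₀) ∧
    ∃ c : ℂ → ℂ, AnalyticAt ℂ c z₀ ∧ c z₀ ≠ 0 ∧
      ∀ᶠ z in 𝓝 z₀, χ.q (F z) ∈ ball (0 : ℂ × ℂ) 2 ∧ F z = c z • χ.σ (χ.q (F z)) := by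
  have hq : AnalyticAt ℂ χ.q (F z₀) := χ.q_an _ hU
  have hqF : AnalyticAt ℂ (fun z => χ.q (F z)) z₀ := AnalyticAt.comp hq hF.1
  refine ⟨hqF, ?_, ?_⟩
  · have h1 : HasFDerivAt χ.q (fderiv ℂ χ.q (F z₀)) (F z₀) := hq.differentiableAt.hasFDerivAt
    have h2 : HasDerivAt F (deriv F z₀) z₀ := hF.1.differentiableAt.hasDerivAt
    exact (h1.comp_hasDerivAt z₀ h2).deriv
  · have hX0 : F z₀ ∈ X := hF.mem
    obtain ⟨hb, c0, hc0, hF0⟩ := χ.surj _ hX0 hU
    have hσ : AnalyticAt ℂ (fun z => χ.σ (χ.q (F z))) z₀ :=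
      AnalyticAt.comp (g := χ.σ) (f := fun z => χ.q (F z)) (χ.σ_an _ hb) hqF
    set y : EN N := χ.σ (χ.q (F z₀)) with hy
    have hy0 : y ≠ 0 := Chart.sigma_ne_zero hX χ hb
    have hn : AnalyticAt ℂ (fun z => inner ℂ y (F z)) z₀ :=
      AnalyticAt.comp (g := fun x : EN N => (innerSL ℂ y) x) (f := F)
        ((innerSL ℂ y).analyticAt _) hF.1
    have hd : AnalyticAt ℂ (fun z => inner ℂ y (χ.σ (χ.q (F z)))) z₀ :=
      AnalyticAt.comp (g := fun x : EN N => (innerSL ℂ y) x) (f := fun z => χ.σ (χ.q (F z)))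
        ((innerSL ℂ y).analyticAt _) hσ
    have hd0 : (fun z => inner ℂ y (χ.σ (χ.q (F z)))) z₀ ≠ (0 : ℂ) := by
      show inner ℂ y y ≠ (0 : ℂ)
      exact inner_self_ne_zero.2 hy0
    refine ⟨fun z => inner ℂ y (F z) / inner ℂ y (χ.σ (χ.q (F z))), hn.div hd hd0, ?_, ?_⟩
    · refine div_ne_zero ?_ hd0
      rw [hF0, inner_smul_right]
      exact mul_ne_zero hc0 (inner_self_ne_zero.2 hy0)
    · have hev : ∀ᶠ z in 𝓝 z₀, (fun z => inner ℂ y (χ.σ (χ.q (F z)))) z ≠ (0 : ℂ) :=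
        hd.continuousAt.eventually_ne hd0
      have hevU : ∀ᶠ z in 𝓝 z₀, F z ∈ χ.U :=
        hF.1.continuousAt.eventually_mem (χ.isOpen_U.mem_nhds hU)
      filter_upwards [hev, hevU, hF.2] with z h1 h2 h3
      obtain ⟨h4, c, hc, h5⟩ := χ.surj _ h3 h2
      refine ⟨h4, ?_⟩
      have h6 : inner ℂ y (F z) / inner ℂ y (χ.σ (χ.q (F z))) = c := by
        rw [div_eq_iff h1]
        conv_lhs => rw [h5]
        rw [inner_smul_right]
      rw [h6]
      exact h5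

end Pool.Agent.H14.PP

end

section

/-!
# EL Kq: the primitive of `β` along the fibres, in a straight chart

`χ` is a chart of the tube (with `u = b + ρ s^i t^j`, primitive `A`), `χ₀` a straight chart (`u = c₀ + ρ₀ s`, primitive `A₀`) inside `χ`; `b₁ = bc χ A χ₀ (1, 0)`, `b₂ = bc χ A χ₀ (0, 1)`; `Q` is the primitive of `b₂`
in the direction of the second variable with `Q (s, 0) = 0`.

`q_fderiv`: fix `p`; for all `t` with `|t| < 2` and `q = (p.1, t)`: `mo c₀ ρ₀ 1 0 q = mo c₀ ρ₀ 1 0 p` is within `η` of `b`, and `mo b ρ i j (τ q)` too (`τ = χ.q ∘ χ₀.σ`), both are `u (χ₀.σ q)` modulo `Λ`, so they are equal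
(`hinj`); so `bc_closed`: `∂₁ b₂ - ∂₂ b₁ = tc α χ₀ (mo c₀ ρ₀ 1 0) = ∂₂ A₀` at `q`.  Hence the functions `t ↦ ∂₁ Q (p.1, t)` and `t ↦ A₀ (p.1, t) + b₁ (p.1, t) - b₁ (p.1, 0)` have the same derivative on the disc
(`∂₂ ∂₁ Q = ∂₁ ∂₂ Q = ∂₁ b₂`) and the same value `0` at `t = 0` (`Q (·, 0) = 0`, `A₀ (·, 0) = 0`).

`q_curve`: near `z`, `c₀ + ρ₀ (χ₀.q (F w)).1 = w`: the difference is in `Λ` (`Mon.lift`, `F w = a • χ₀.σ (χ₀.q (F w))`), continuous and `0` at `w = z`.  So `(χ₀.q ∘ F)' = (1 / ρ₀, f₂')`, and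
`(Q ∘ χ₀.q ∘ F)' = ∂₁ Q / ρ₀ + b₂ f₂' = (A₀ + b₁ - b₁ (·, 0)) / ρ₀ + b₂ f₂' = bt χ A F z + (A₀ - b₁ (·, 0)) / ρ₀` (`bt_eq`).

`q_fibre`: `(Q ∘ χ₀.q ∘ γ)' = b₂ (χ₀.q ∘ γ)'.2 = bt χ A γ ζ` (`bt_eq`; the first coordinate of the derivative is `0`).
-/

set_option autoImplicit false

open Topology Filter Metric

namespace Pool.Agent.H62.EL

open Pool.Agent.H36.BP (EN wd IsGermChart)
open Pool.Agent.H14.PP (Chart Tan CurveAt)
open Pool.Agent.H62.EF (Lat MN pr TorusMap Sec)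

variable {N : ℕ} {X : Set (EN N)} {Λ : AddSubgroup ℂ} {u : EN N → ℂ}

variable {α : TForm X Λ u} {χ χ₀ : Chart X} {b c₀ : ℂ} {ρ ρ₀ η : ℝ} {i j : ℕ} {A A₀ Q : ℂ × ℂ → ℂ}

theorem Kq_pair (L : (ℂ × ℂ) →L[ℂ] ℂ) (w : ℂ × ℂ) : L w = w.1 * L (1, 0) + w.2 * L (0, 1) := by
  rw [← smul_eq_mul, ← smul_eq_mul, ← map_smul, ← map_smul, ← map_add]
  congr 1
  ext
  · simp
  · simp

theorem Kq_snd {g : ℂ × ℂ → ℂ} {s t : ℂ} (hg : DifferentiableAt ℂ g (s, t)) :
    HasDerivAt (fun t' => g (s, t')) (fderiv ℂ g (s, t) (0, 1)) t := by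
  have h1 : HasDerivAt (fun t' : ℂ => (s, t')) ((0 : ℂ), (1 : ℂ)) t :=
    (hasDerivAt_const t s).prodMk (hasDerivAt_id t)
  exact HasFDerivAt.comp_hasDerivAt (f := fun t' : ℂ => (s, t')) t hg.hasFDerivAt h1

theorem Kq_fst {g : ℂ × ℂ → ℂ} {s t : ℂ} (hg : DifferentiableAt ℂ g (s, t)) :
    HasDerivAt (fun s' => g (s', t)) (fderiv ℂ g (s, t) (1, 0)) s := by
  have h1 : HasDerivAt (fun s' : ℂ => (s', t)) ((1 : ℂ), (0 : ℂ)) s :=
    (hasDerivAt_id s).prodMk (hasDerivAt_const s t)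
  exact HasFDerivAt.comp_hasDerivAt (f := fun s' : ℂ => (s', t)) s hg.hasFDerivAt h1

theorem Kq_mo (c : ℂ) (ρ : ℝ) (p : ℂ × ℂ) : mo c ρ 1 0 p = c + ρ * p.1 := by
  simp [mo]

theorem Kq_lift (hu : TorusMap X Λ u) (hinj : ∀ l ∈ Λ, ‖l‖ < 2 * η → l = 0) (hm : Mon Λ u χ b ρ i j)
    (hr : ∀ p ∈ ball (0 : ℂ × ℂ) 2, ‖mo b ρ i j p - b‖ < η) (hm₀ : Mon Λ u χ₀ c₀ ρ₀ 1 0)
    (hsub : ∀ p ∈ ball (0 : ℂ × ℂ) 2, χ₀.σ p ∈ χ.U) {q : ℂ × ℂ} (hq : q ∈ ball (0 : ℂ × ℂ) 2)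
    (hqb : ‖mo c₀ ρ₀ 1 0 q - b‖ < η) : mo b ρ i j (χ.q (χ₀.σ q)) = mo c₀ ρ₀ 1 0 q := by
  obtain ⟨hτ, c, hc, hx⟩ := χ.surj _ (χ₀.σ_mem q hq).1 (hsub q hq)
  have h1 := hm₀.lift q hq
  have h2 := hm.lift _ hτ
  have h3 := hu.smul _ (χ.σ_mem _ hτ).1 c hc
  rw [← hx] at h3
  have h4 : mo b ρ i j (χ.q (χ₀.σ q)) - mo c₀ ρ₀ 1 0 q ∈ Λ := by
    have := Λ.sub_mem (Λ.sub_mem h1 h3) h2
    convert this using 1
    ring
  have h5 : ‖mo b ρ i j (χ.q (χ₀.σ q)) - mo c₀ ρ₀ 1 0 q‖ < 2 * η := by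
    have h6 := hr _ hτ
    calc ‖mo b ρ i j (χ.q (χ₀.σ q)) - mo c₀ ρ₀ 1 0 q‖
        = ‖(mo b ρ i j (χ.q (χ₀.σ q)) - b) - (mo c₀ ρ₀ 1 0 q - b)‖ := by congr 1; ring
      _ ≤ ‖mo b ρ i j (χ.q (χ₀.σ q)) - b‖ + ‖mo c₀ ρ₀ 1 0 q - b‖ := norm_sub_le _ _
      _ < 2 * η := by linarith
  exact sub_eq_zero.1 (hinj _ h4 h5)

end Pool.Agent.H62.EL

end

section

/-!
# TG Prm: primitives in the direction of the coordinate `0`

Port of `Pool/Agent/H62/EL/Prm.lean` (`exists_prim_snd`; there the variable of integration is the second one): for `a` analytic on `ball 0 R` (a polydisc) put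
`A p = ∫ θ in 0..1, p 0 * a (Function.update p 0 (θ p 0))`.  For the analyticity in several variables one may use `Pool.Agent.TN.osgood_pi`
(`Pool/Agent/TN/Osg.lean`: bounded and separately holomorphic functions are analytic) or the method of `EL/Prm`.
`exists_prim`: `exists_prim_zero` with `R = 2`, `a = tc α χ (ms c ρ)` (`tc_an`, `Str.lift` holds on the open ball).
-/

set_option autoImplicit false

open Topology Filter Metric

namespace Pool.Agent.TG

open Pool.Agent.H36.BP (EN wd)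
open Pool.Agent.H14.PP (CurveAt Tan)
open Pool.Agent.AD (Vd Chart Charts)

variable {N k : ℕ}

variable {X : Set (EN N)} {Λ : AddSubgroup (Vd (k + 1))} {u : EN N → Vd (k + 1)}

/-- the point with the coordinate `0` multiplied by `θ` -/
noncomputable def pP {m : ℕ} (θ : ℝ) (p : Vd (m + 1)) : Vd (m + 1) :=
  Fin.cons (α := fun _ => ℂ) ((θ : ℂ) * p 0) fun i : Fin m => p i.succ

theorem pP_zero {m : ℕ} (θ : ℝ) (p : Vd (m + 1)) : pP θ p 0 = (θ : ℂ) * p 0 := rfl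

theorem pP_succ {m : ℕ} (θ : ℝ) (p : Vd (m + 1)) (i : Fin m) : pP θ p i.succ = p i.succ := rfl

theorem pP_add {m : ℕ} (θ : ℝ) (p v : Vd (m + 1)) (t : ℂ) : pP θ (p + t • v) = pP θ p + t • pP θ v := by
  funext i
  refine Fin.cases ?_ ?_ i
  · rw [Pi.add_apply, Pi.smul_apply, pP_zero, pP_zero, pP_zero, Pi.add_apply, Pi.smul_apply, smul_eq_mul, smul_eq_mul]
    ring
  · intro j
    rfl

theorem pP_norm {m : ℕ} {θ : ℝ} (h0 : 0 ≤ θ) (h1 : θ ≤ 1) (p : Vd (m + 1)) : ‖pP θ p‖ ≤ ‖p‖ := by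
  rw [pi_norm_le_iff_of_nonneg (norm_nonneg _)]
  intro i
  refine Fin.cases ?_ ?_ i
  · rw [pP_zero, norm_mul, Complex.norm_real, Real.norm_of_nonneg h0]
    calc θ * ‖p 0‖ ≤ 1 * ‖p 0‖ := mul_le_mul_of_nonneg_right h1 (norm_nonneg _)
      _ = ‖p 0‖ := one_mul _
      _ ≤ ‖p‖ := norm_le_pi_norm p 0
  · intro j
    rw [pP_succ]
    exact norm_le_pi_norm p j.succ

theorem pP_cont {m : ℕ} (p : Vd (m + 1)) : Continuous fun θ : ℝ => pP θ p := by
  refine continuous_pi fun i => ?_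
  refine Fin.cases ?_ ?_ i
  · show Continuous fun θ : ℝ => (θ : ℂ) * p 0
    exact Complex.continuous_ofReal.mul continuous_const
  · intro j
    show Continuous fun _ : ℝ => p j.succ
    exact continuous_const

theorem prm_I {m : ℕ} {R : ℝ} {a : Vd (m + 1) → ℂ} (ha : ∀ p ∈ ball (0 : Vd (m + 1)) R, AnalyticAt ℂ a p) {p : Vd (m + 1)}
    (hp : p ∈ ball (0 : Vd (m + 1)) R) : AnalyticAt ℂ (fun p => ∫ θ in (0 : ℝ)..1, a (pP θ p)) p := by
  have hpR : ‖p‖ < R := by simpa using hp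
  obtain ⟨r, hr1, hr2⟩ := exists_between hpR
  have hsub : closedBall (0 : Vd (m + 1)) r ⊆ ball 0 R := closedBall_subset_ball hr2
  have hac : ContinuousOn a (closedBall (0 : Vd (m + 1)) r) := fun q hq => (ha q (hsub hq)).continuousAt.continuousWithinAt
  have hac' : ContinuousOn (fderiv ℂ a) (closedBall (0 : Vd (m + 1)) r) := fun q hq =>
    (ha q (hsub hq)).fderiv.continuousAt.continuousWithinAt
  obtain ⟨M, hM⟩ := (isCompact_closedBall (0 : Vd (m + 1)) r).exists_bound_of_continuousOn hac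
  obtain ⟨M', hM'⟩ := (isCompact_closedBall (0 : Vd (m + 1)) r).exists_bound_of_continuousOn hac'
  have hin : ∀ y ∈ ball p (r - ‖p‖), ‖y‖ < r := by
    intro y hy
    rw [mem_ball, dist_eq_norm] at hy
    have h1 : y = p + (y - p) := by abel
    rw [h1]
    linarith [norm_add_le p (y - p)]
  have hu : Set.uIcc (0 : ℝ) 1 = Set.Icc 0 1 := Set.uIcc_of_le zero_le_one
  have hmem : ∀ y : Vd (m + 1), ‖y‖ < r → ∀ θ ∈ Set.Icc (0 : ℝ) 1, pP θ y ∈ closedBall (0 : Vd (m + 1)) r := by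
    intro y hy θ hθ
    rw [mem_closedBall_zero_iff]
    exact (pP_norm hθ.1 hθ.2 y).trans hy.le
  have hcont : ∀ y : Vd (m + 1), ‖y‖ < r → ContinuousOn (fun θ : ℝ => a (pP θ y)) (Set.uIcc 0 1) := by
    intro y hy
    rw [hu]
    exact hac.comp (pP_cont y).continuousOn fun θ hθ => hmem y hy θ hθ
  have hioc : Set.uIoc (0 : ℝ) 1 ⊆ Set.Icc 0 1 := by
    rw [Set.uIoc_of_le zero_le_one]
    exact Set.Ioc_subset_Icc_self
  refine Pool.Agent.TN.osgood_pi (w := p) (r := r - ‖p‖) (M := M) (by linarith) ?_ ?_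
  · intro y hy
    have h1 := intervalIntegral.norm_integral_le_of_norm_le_const (a := 0) (b := 1) (C := M) (f := fun θ => a (pP θ y))
      (fun θ hθ => hM _ (hmem y (hin y hy) θ (hioc hθ)))
    rwa [sub_zero, abs_one, mul_one] at h1
  · intro y hy l
    have hyn := hin y hy
    set v : Vd (m + 1) := Pi.single l 1 with hv
    have hvn : ‖v‖ ≤ 1 := by
      rw [pi_norm_le_iff_of_nonneg zero_le_one]
      intro i
      by_cases hi : i = l
      · subst hi; simp [hv]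
      · simp [hv, Pi.single_eq_of_ne hi]
    set s : ℝ := r - ‖y‖ with hs
    have hs0 : 0 < s := by linarith
    have hin2 : ∀ t ∈ ball (0 : ℂ) s, ‖y + t • v‖ < r := by
      intro t ht
      have ht' : ‖t‖ < s := by simpa using ht
      have h1 : ‖t • v‖ ≤ ‖t‖ := by
        rw [norm_smul]
        calc ‖t‖ * ‖v‖ ≤ ‖t‖ * 1 := mul_le_mul_of_nonneg_left hvn (norm_nonneg _)
          _ = ‖t‖ := mul_one _
      linarith [norm_add_le y (t • v)]
    have hM'0 : 0 ≤ M' := (norm_nonneg _).trans (hM' 0 (mem_closedBall_self ((norm_nonneg y).trans hyn.le)))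
    have hmain := intervalIntegral.hasDerivAt_integral_of_dominated_loc_of_deriv_le (μ := MeasureTheory.volume) (a := 0) (b := 1)
      (F := fun t θ => a (pP θ (y + t • v))) (F' := fun t θ => fderiv ℂ a (pP θ (y + t • v)) (pP θ v)) (x₀ := (0 : ℂ))
      (s := ball (0 : ℂ) s) (bound := fun _ => M') (ball_mem_nhds 0 hs0)
      (by
        filter_upwards [ball_mem_nhds (0 : ℂ) hs0] with t ht
        exact ((hcont _ (hin2 t ht)).mono (by rw [hu]; exact hioc)).aestronglyMeasurable measurableSet_uIoc)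
      ((hcont _ (hin2 0 (mem_ball_self hs0))).intervalIntegrable)
      (by
        have h1 : ContinuousOn (fun θ : ℝ => fderiv ℂ a (pP θ (y + (0 : ℂ) • v)) (pP θ v)) (Set.Icc 0 1) :=
          (hac'.comp (pP_cont _).continuousOn fun θ hθ => hmem _ (hin2 0 (mem_ball_self hs0)) θ hθ).clm_apply (pP_cont v).continuousOn
        exact (h1.mono hioc).aestronglyMeasurable measurableSet_uIoc)
      (Eventually.of_forall fun θ hθ t ht => by
        have h1 := hM' _ (hmem _ (hin2 t ht) θ (hioc hθ))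
        calc ‖fderiv ℂ a (pP θ (y + t • v)) (pP θ v)‖ ≤ ‖fderiv ℂ a (pP θ (y + t • v))‖ * ‖pP θ v‖ := ContinuousLinearMap.le_opNorm _ _
          _ ≤ M' * 1 := mul_le_mul h1 ((pP_norm (hioc hθ).1 (hioc hθ).2 v).trans hvn) (norm_nonneg _) hM'0
          _ = M' := mul_one _)
      (continuous_const.intervalIntegrable _ _)
      (Eventually.of_forall fun θ hθ t ht => by
        have h1 : HasFDerivAt a (fderiv ℂ a (pP θ (y + t • v))) (pP θ (y + t • v)) :=
          (ha _ (hsub (hmem _ (hin2 t ht) θ (hioc hθ)))).differentiableAt.hasFDerivAt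
        have h2 : HasDerivAt (fun t : ℂ => pP θ (y + t • v)) (pP θ v) t := by
          have h3 : HasDerivAt (fun t : ℂ => pP θ y + t • pP θ v) (pP θ v) t := by
            have h4 := ((hasDerivAt_id t).smul_const (pP θ v)).const_add (pP θ y)
            rw [one_smul] at h4
            exact h4
          have h4 : (fun t : ℂ => pP θ (y + t • v)) = fun t : ℂ => pP θ y + t • pP θ v := funext fun t => pP_add θ y v t
          rw [h4]
          exact h3
        exact h1.comp_hasDerivAt t h2)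
    exact hmain.2.differentiableAt

theorem exists_prim_zero {m : ℕ} {R : ℝ} {a : Vd (m + 1) → ℂ} (ha : ∀ p ∈ ball (0 : Vd (m + 1)) R, AnalyticAt ℂ a p) :
    ∃ A : Vd (m + 1) → ℂ, (∀ p ∈ ball (0 : Vd (m + 1)) R, AnalyticAt ℂ A p ∧ fderiv ℂ A p (Pi.single 0 1) = a p) ∧
      ∀ p ∈ ball (0 : Vd (m + 1)) R, p 0 = 0 → A p = 0 := by
  have han : ∀ p ∈ ball (0 : Vd (m + 1)) R, AnalyticAt ℂ (fun p : Vd (m + 1) => p 0 * ∫ θ in (0 : ℝ)..1, a (pP θ p)) p := by
    intro p hp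
    exact ((ContinuousLinearMap.proj (R := ℂ) (φ := fun _ : Fin (m + 1) => ℂ) 0).analyticAt p).mul (prm_I ha hp)
  refine ⟨fun p => p 0 * ∫ θ in (0 : ℝ)..1, a (pP θ p), fun p hp => ⟨han p hp, ?_⟩, fun p _ hp0 => ?_⟩
  · -- the line through `p`
    set L : ℂ → Vd (m + 1) := fun z => p + (z - p 0) • (Pi.single 0 1 : Vd (m + 1)) with hL
    have hL0 : ∀ z, L z 0 = z := by
      intro z
      rw [hL]
      simp
    have hLs : ∀ z (i : Fin m), L z i.succ = p i.succ := by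
      intro z i
      rw [hL]
      simp
    have hLp : L (p 0) = p := by
      rw [hL]
      simp
    have hpR : ‖p‖ < R := by simpa using hp
    have hR : 0 < R := (norm_nonneg p).trans_lt hpR
    have hLb : ∀ z ∈ ball (0 : ℂ) R, L z ∈ ball (0 : Vd (m + 1)) R := by
      intro z hz
      rw [mem_ball_zero_iff, pi_norm_lt_iff hR]
      intro i
      refine Fin.cases ?_ ?_ i
      · rw [hL0]
        simpa using hz
      · intro j
        rw [hLs]
        exact (norm_le_pi_norm p j.succ).trans_lt hpR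
    have hLd : ∀ z, HasDerivAt L (Pi.single 0 1) z := by
      intro z
      have h1 := (((hasDerivAt_id z).sub_const (p 0)).smul_const (Pi.single 0 1 : Vd (m + 1))).const_add p
      rw [one_smul] at h1
      exact h1
    have hPL : ∀ (θ : ℝ) z, pP θ (L z) = L ((θ : ℂ) * z) := by
      intro θ z
      funext i
      refine Fin.cases ?_ ?_ i
      · rw [pP_zero, hL0, hL0]
      · intro j
        rw [pP_succ, hLs, hLs]
    have h1 : DifferentiableOn ℂ (fun z => a (L z)) (ball 0 R) := by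
      intro z hz
      exact ((ha _ (hLb z hz)).differentiableAt.comp z (hLd z).differentiableAt).differentiableWithinAt
    obtain ⟨g, -, hg⟩ := h1.isExactOn_ball.with_val_at 0 0
    have hAg : ∀ z ∈ ball (0 : ℂ) R, L z 0 * ∫ θ in (0 : ℝ)..1, a (pP θ (L z)) = g z - g 0 := by
      intro z hz
      rw [hL0, ← intervalIntegral.integral_const_mul]
      have hzn : ‖z‖ < R := by simpa using hz
      have hθz : ∀ θ ∈ Set.uIcc (0 : ℝ) 1, (θ : ℂ) * z ∈ ball (0 : ℂ) R := by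
        intro θ hθ
        rw [Set.uIcc_of_le zero_le_one] at hθ
        rw [mem_ball_zero_iff, norm_mul, Complex.norm_real, Real.norm_of_nonneg hθ.1]
        calc θ * ‖z‖ ≤ 1 * ‖z‖ := mul_le_mul_of_nonneg_right hθ.2 (norm_nonneg _)
          _ < R := by rw [one_mul]; exact hzn
      have h2 : ∀ θ ∈ Set.uIcc (0 : ℝ) 1, HasDerivAt (fun θ : ℝ => g ((θ : ℂ) * z)) (z * a (pP θ (L z))) θ := by
        intro θ hθ
        rw [hPL]
        have h3 := hg _ (hθz θ hθ)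
        have h4 : HasDerivAt (fun t : ℂ => t * z) z (θ : ℂ) := by
          have h5 := (hasDerivAt_id (θ : ℂ)).mul_const z
          rwa [one_mul] at h5
        have h5 : HasDerivAt (fun t : ℂ => g (t * z)) (a (L ((θ : ℂ) * z)) * z) (θ : ℂ) := h3.comp (θ : ℂ) h4
        have h6 := h5.comp_ofReal
        rw [mul_comm] at h6
        exact h6
      have h3 := intervalIntegral.integral_eq_sub_of_hasDerivAt h2 (by
        refine ContinuousOn.intervalIntegrable ?_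
        refine continuousOn_const.mul ?_
        intro θ hθ
        have h4 : ContinuousAt a (pP θ (L z)) := by
          rw [hPL]
          exact (ha _ (hLb _ (hθz θ hθ))).continuousAt
        exact (ContinuousAt.comp (f := fun θ : ℝ => pP θ (L z)) h4 (pP_cont _).continuousAt).continuousWithinAt)
      rw [h3]
      simp
    have hp0 : p 0 ∈ ball (0 : ℂ) R := by
      rw [mem_ball_zero_iff]
      exact (norm_le_pi_norm p 0).trans_lt hpR
    have h2 : HasDerivAt (fun z => L z 0 * ∫ θ in (0 : ℝ)..1, a (pP θ (L z))) (a p) (p 0) := by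
      have h3 := (hg _ hp0).sub_const (g 0)
      simp only [hLp] at h3
      refine h3.congr_of_eventuallyEq ?_
      filter_upwards [isOpen_ball.mem_nhds hp0] with z hz
      exact hAg z hz
    have h3 : HasFDerivAt (fun p : Vd (m + 1) => p 0 * ∫ θ in (0 : ℝ)..1, a (pP θ p))
        (fderiv ℂ (fun p : Vd (m + 1) => p 0 * ∫ θ in (0 : ℝ)..1, a (pP θ p)) p) (L (p 0)) := by
      rw [hLp]
      exact (han p hp).differentiableAt.hasFDerivAt
    exact (h3.comp_hasDerivAt (p 0) (hLd (p 0))).unique h2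
  · show p 0 * _ = 0
    rw [hp0, zero_mul]

end Pool.Agent.TG

end
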