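import Pool.Agent.H94.G5T.M01
import Pool.Agent.H94.G5T.M15

/-! The parts of this file: H17BP.Germ, H17BP.ChLem, H17BP.Model, H17BP.ResS, H22.HF.Par, TG.Rm. -/

section

/-!
# Germs of analytic functions in two variables: definitions for the resolution theorem

Germs at `0` of analytic functions on `ℂ × ℂ`; local biholomorphic maps, point blow-ups.
-/

open Topology Filter

noncomputable section

namespace Pool.Agent.H17BP

/-- The germ of `θ` at `0` is biholomorphic and fixes `0`. -/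
structure Bihol (θ : ℂ × ℂ → ℂ × ℂ) : Prop where
  an : AnalyticAt ℂ θ 0
  zero : θ 0 = 0
  inv : ∃ θ' : ℂ × ℂ → ℂ × ℂ, AnalyticAt ℂ θ' 0 ∧ θ' 0 = 0 ∧ (∀ᶠ x in 𝓝 0, θ' (θ x) = x) ∧
    ∀ᶠ x in 𝓝 0, θ (θ' x) = x

/-- `S, T` are local coordinates at `0`. -/
def Coord (S T : ℂ × ℂ → ℂ) : Prop := Bihol fun x => (S x, T x)

/-- The germ `g` is a monomial in local coordinates times a unit. -/
def Mono (g : ℂ × ℂ → ℂ) : Prop :=
  ∃ (S T : ℂ × ℂ → ℂ) (a b : ℕ) (u : ℂ × ℂ → ℂ), Coord S T ∧ AnalyticAt ℂ u 0 ∧ u 0 ≠ 0 ∧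
    ∀ᶠ x in 𝓝 0, g x = S x ^ a * T x ^ b * u x

/-- The chart of the blow-up of `0` at the point `c` of the exceptional curve. -/
def bl (c : ℂ) (x : ℂ × ℂ) : ℂ × ℂ := (x.1, x.1 * (c + x.2))

/-- The germs of charts of the blow-up of `0`. -/
def BChart (β : ℂ × ℂ → ℂ × ℂ) : Prop :=
  ∃ θ θ' : ℂ × ℂ → ℂ × ℂ, Bihol θ ∧ Bihol θ' ∧ ∀ᶠ x in 𝓝 0, β x = θ (bl 0 (θ' x))

/-- After at most `n` point blow-ups over every point the germ `g` is a monomial times a unit. -/
def ResN : ℕ → (ℂ × ℂ → ℂ) → Prop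
  | 0 => Mono
  | n + 1 => fun g => Mono g ∨ ∀ β, BChart β → ResN n (g ∘ β)

/-! ### simple facts -/

end Pool.Agent.H17BP

end
end

section

/-!
# Charts of a surface: nearby points, scaling, coordinate changes

* `IsChart.near`: all conditions hold for `p` near `0`: `AnalyticAt.eventually_analyticAt`, `eventually_eventually_nhds`, and
  `p ↦ σ p`, `p ↦ (σ p, 1)` are continuous at `0`.  (`τ (σ (p + x)) - p = x`; `σ (p + (τ y - p)) = σ (τ y)`.)
* `IsChart.scale`: `y ↦ a⁻¹ • y` is continuous; `a⁻¹ • (c • y) = c • (a⁻¹ • y)`.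
* `IsChart.comp`: `σ₁ = σ ∘ θ`, `τ₁ = θ' ∘ τ`; `σ₁ 0 = σ 0`, `τ (σ 0) = 0` (`left.self_of_nhds`), so `τ y → 0` for `y → σ 0`.
  `right`: `y = c • σ (τ y) = c • σ (θ (θ' (τ y)))`.
* `IsChart.trans`: `σ' 0 = a • σ 0`, `θ p = τ (a⁻¹ • σ' p)`, `θ' p = τ' (a • σ p)`.  `Pr (σ' p) (σ (θ p))`: `h.right` at
  `y = a⁻¹ • σ' p`.  `θ (θ' p) = p`: by `h'.right` at `y = a • σ p`: `a • σ p = c • σ' (θ' p)` with `c → 1` for `p → 0`: choose
  a continuous linear form `Λ` with `Λ (σ 0) ≠ 0` (`exists_dual_vector`), `c = Λ (a • σ p) / Λ (σ' (θ' p))`; so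
  `a⁻¹ • σ' (θ' p) = c⁻¹ • σ p` and `τ (c⁻¹ • σ p) = τ (σ p) = p` by `h.inv` and `h.left`.  `θ' (θ p) = p` by symmetry (it is
  the same statement with the roles of the two charts exchanged: prove it as an auxiliary lemma).
-/

open Topology Filter

noncomputable section

namespace Pool.Agent.H17BP

variable {V : Type} [NormedAddCommGroup V] [NormedSpace ℂ V] {X : Set V} {σ σ' : ℂ × ℂ → V} {τ τ' : V → ℂ × ℂ}

theorem IsChart.scale (h : IsChart X σ τ) (hX : ∀ x ∈ X, ∀ c : ℂ, c ≠ 0 → c • x ∈ X) {a : ℂ} (ha : a ≠ 0) :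
    IsChart X (fun p => a • σ p) (fun y => τ (a⁻¹ • y)) := by
  have e1 : a⁻¹ • (a • σ 0) = σ 0 := by rw [smul_smul, inv_mul_cancel₀ ha, one_smul]
  have e2 : Tendsto (fun y : V => a⁻¹ • y) (𝓝 (a • σ 0)) (𝓝 (σ 0)) := by
    have := (continuous_const_smul a⁻¹).tendsto (a • σ 0)
    rwa [e1] at this
  refine ⟨h.σ_an.const_smul (c := a), ?_, smul_ne_zero ha h.ne, ?_, ?_, ?_, ?_⟩
  · filter_upwards [h.σ_mem] with p hp
    exact hX _ hp _ ha
  · refine AnalyticAt.comp (g := τ) (f := fun y : V => a⁻¹ • y) ?_ (analyticAt_id.const_smul (c := a⁻¹))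
    rw [e1]
    exact h.τ_an
  · filter_upwards [h.left] with p hp
    rw [smul_smul, inv_mul_cancel₀ ha, one_smul, hp]
  · filter_upwards [e2.eventually h.right] with y hy hyX
    obtain ⟨c, hc, hy2⟩ := hy (hX _ hyX _ (inv_ne_zero ha))
    refine ⟨c, hc, ?_⟩
    rw [smul_comm, ← hy2, smul_smul, mul_inv_cancel₀ ha, one_smul]
  · have e3 : Tendsto (fun p : V × ℂ => (a⁻¹ • p.1, p.2)) (𝓝 (a • σ 0, (1 : ℂ))) (𝓝 (σ 0, (1 : ℂ))) := by
      have e4 : Continuous fun p : V × ℂ => (a⁻¹ • p.1, p.2) := (continuous_fst.const_smul a⁻¹).prodMk continuous_snd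
      have := e4.tendsto (a • σ 0, (1 : ℂ))
      simpa only [e1] using this
    filter_upwards [e3.eventually h.inv] with p hp
    rw [smul_comm]
    exact hp

end Pool.Agent.H17BP

end
end

section

/-!
# Holomorphic curves in a closed surface, the induction hypothesis

Holomorphic maps into `ℙ(V)` are given by functions with values in `V ∖ {0}`, which are not required to be
continuous, see `HolP`.
-/

open Topology Filter

noncomputable section

namespace Pool.Agent.H17BP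

variable {V : Type} [NormedAddCommGroup V] [NormedSpace ℂ V]

/-- The two vectors are proportional. -/
def Pr (x y : V) : Prop := ∃ c : ℂ, c ≠ 0 ∧ x = c • y

/-- At the point `x` the curve `B` has a local equation which becomes a monomial after at most `n` blow-ups over
every point. -/
def ResAt (X B : Set V) (x : V) (n : ℕ) : Prop :=
  ∃ σ τ g, IsChart X σ τ ∧ σ 0 = x ∧ LocalEq B σ g ∧ ResN n g

end Pool.Agent.H17BP

end
end

section

/-!
# The resolution number at a point of the surface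

* `ResAt.chart`: let `σ, τ, g` be as in `ResAt`; `σ' p = c • σ (θ p)`, `c ≠ 0` near `0` (`IsChart.trans`).  As `B` is a cone,
  `σ' p ∈ B ↔ σ (θ p) ∈ B ↔ g (θ p) = 0`: `g ∘ θ` is a local equation, `ResN.comp`.
* `ResAt.pr`: `IsChart.scale` of the chart (the value at `0` is `a • x = y`) and `ResAt.chart`.
* `ResAt.near`: for `y ∈ X` near `x`: `y = c • σ (τ y)`, `p = τ y` near `0` (`τ x = 0`); `p ≠ 0` because `y` is not proportional
  to `x = σ 0`.  `IsChart.near`: `x ↦ σ (p + x)` is a chart at `σ p`, `g (p + ·)` a local equation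
  (`eventually_eventually_nhds`), `Mono` by `ResN.near`.  So `ResAt X B (σ p) 0`, then `ResAt.pr`.
* `exists_resAt`: choose a chart `σ` at `x` (`Surface.chart`) and `i` (`Eqs.gen`); `g p = Q i (σ p)` is analytic at `0`, and for
  `p` near `0`: `σ p ∈ B ↔ g p = 0` (`mem_iff`, `gen`); `g` does not vanish identically near `0` by `thin`; `exists_resN`.
* `ResAt.of_notMem`: `x ∉ B`: with `i` and `g` as before, `g 0 = Q i x ≠ 0` (otherwise `x ∈ B` by `gen`,
  `self_of_nhds`), so `Mono g` with `a = b = 0`.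
* `ResAt.nodal`: `g = S^a T^b u`.  Let `θ = (S, T)`, `θ'` the inverse germ; the chart `σ ∘ θ'` (`IsChart.comp`), in
  which `B` is given by `g (θ' x) = x.1^a x.2^b u(θ' x) = 0`.  If `a = b = 0`: not in `B` near `0`; `b = 0`, `a ≠ 0`: `x.1 = 0`;
  `a ≠ 0`, `b ≠ 0`: `x.1 x.2 = 0`; `a = 0`, `b ≠ 0`: exchange `S`, `T` (`Coord.symm`).
-/

open Topology Filter

noncomputable section

namespace Pool.Agent.H17BP

variable {V : Type} [NormedAddCommGroup V] [NormedSpace ℂ V] {X B : Set V} {σ' : ℂ × ℂ → V} {τ' : V → ℂ × ℂ}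
  {x y : V} {n k : ℕ}

private theorem ResS_pr_mem (hB : ∀ x ∈ B, ∀ c : ℂ, c ≠ 0 → c • x ∈ B) (h : Pr x y) : x ∈ B ↔ y ∈ B := by
  obtain ⟨c, hc, rfl⟩ := h
  refine ⟨fun h1 => ?_, fun h1 => hB _ h1 c hc⟩
  have h2 := hB _ h1 c⁻¹ (inv_ne_zero hc)
  rwa [smul_smul, inv_mul_cancel₀ hc, one_smul] at h2

theorem ResAt.pr (hX : ∀ x ∈ X, ∀ c : ℂ, c ≠ 0 → c • x ∈ X) (hB : ∀ x ∈ B, ∀ c : ℂ, c ≠ 0 → c • x ∈ B)
    (h : ResAt X B x n) (hy : Pr y x) : ResAt X B y n := by
  obtain ⟨σ, τ, g, hc, hx, hg, hr⟩ := h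
  obtain ⟨a, ha, rfl⟩ := hy
  refine ⟨fun p => a • σ p, fun y => τ (a⁻¹ • y), g, hc.scale hX ha, ?_, ⟨hg.1, ?_⟩, hr⟩
  · show a • σ 0 = a • x
    rw [hx]
  · filter_upwards [hg.2] with p hp
    rw [ResS_pr_mem hB (⟨a, ha, rfl⟩ : Pr (a • σ p) (σ p))]
    exact hp

end Pool.Agent.H17BP

end
end

section

/-!
# HF Par: circle integrals which depend on parameters

`F : E × ℂ → ℂ` (`E` a complex normed space), analytic at the points `(p₀, t)`, `t` in the circle: then `p ↦ ∮ F (p, t) dt` is analytic at `p₀`.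

Proof.  (1) Near `(p₀, t₀)` the function `F` has the power series `P` on a ball; for `t` near `t₀` the series `P.changeOrigin (0, t - t₀)`
represents `F` at `(p₀, t)`, its terms depend continuously on `t` and are bounded uniformly, so one can integrate termwise over a small arc.
(2) By compactness the circle is a union of finitely many small arcs.
-/

set_option autoImplicit false

open Metric Set Filter Topology
open scoped NNReal ENNReal Interval

namespace Pool.Agent.H22.HF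

private theorem par_local {E : Type} [NormedAddCommGroup E] [NormedSpace ℂ E] {F : E × ℂ → ℂ} {p₀ : E} {γ g : ℝ → ℂ}
    (hγ : Continuous γ) (hg : Continuous g) {θ₀ : ℝ} (hF : AnalyticAt ℂ F (p₀, γ θ₀)) :
    ∃ ε > 0, ∀ α ∈ ball θ₀ ε, ∀ β ∈ ball θ₀ ε, AnalyticAt ℂ (fun p => ∫ θ in α..β, g θ * F (p, γ θ)) p₀ := by
  obtain ⟨P, R, hP⟩ := hF
  obtain ⟨r, hr0, hrR⟩ := ENNReal.lt_iff_exists_nnreal_btwn.1 hP.r_pos
  set s : ℝ≥0 := r / 2 with hs
  have hr0' : 0 < r := by exact_mod_cast hr0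
  have hs0 : 0 < s := by rw [hs]; positivity
  have hss : ((s : ℝ≥0∞) + s) < P.radius := by
    have h1 : s + s = r := by rw [hs]; exact add_halves r
    have h2 : ((s : ℝ≥0∞) + s) = (r : ℝ≥0∞) := by rw [← h1]; push_cast; rfl
    rw [h2]
    exact hrR.trans_le hP.r_le
  have hsR : ((s : ℝ≥0∞) + s) < R := by
    have h1 : s + s = r := by rw [hs]; exact add_halves r
    have h2 : ((s : ℝ≥0∞) + s) = (r : ℝ≥0∞) := by rw [← h1]; push_cast; rfl
    rw [h2]
    exact hrR
  have hsP : (s : ℝ≥0∞) < P.radius := (le_add_right le_rfl).trans_lt hss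
  let x : ℝ → E × ℂ := fun θ => (0, γ θ - γ θ₀)
  have hxc : Continuous x := continuous_const.prodMk (hγ.sub continuous_const)
  have hx0 : x θ₀ = 0 := by simp [x]
  obtain ⟨ε, hε, hxε⟩ : ∃ ε > 0, ∀ θ ∈ ball θ₀ ε, ‖x θ‖₊ < s := by
    have h1 : ∀ᶠ θ in 𝓝 θ₀, ‖x θ‖₊ < s := by
      have h2 : Tendsto (fun θ => ‖x θ‖₊) (𝓝 θ₀) (𝓝 ‖x θ₀‖₊) := hxc.nnnorm.tendsto θ₀
      rw [hx0, nnnorm_zero] at h2
      exact h2.eventually (gt_mem_nhds hs0)
    obtain ⟨ε, hε, h3⟩ := Metric.eventually_nhds_iff_ball.1 h1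
    exact ⟨ε, hε, h3⟩
  refine ⟨ε, hε, ?_⟩
  intro α hα β hβ
  have hsub : uIcc α β ⊆ ball θ₀ ε := by
    rw [Real.ball_eq_Ioo] at hα hβ ⊢
    exact (ordConnected_Ioo.uIcc_subset hα hβ)
  have hsub' : Ι α β ⊆ ball θ₀ ε := uIoc_subset_uIcc.trans hsub
  have hpos : 0 < P.radius := hP.r_pos.trans_le hP.r_le
  -- the coefficients
  let L : E →L[ℂ] E × ℂ := ContinuousLinearMap.inl ℂ E ℂ
  have hL : ‖L‖ ≤ 1 := ContinuousLinearMap.norm_inl_le_one ℂ E ℂ
  let Q : ∀ k : ℕ, ℝ → ContinuousMultilinearMap ℂ (fun _ : Fin k => E) ℂ :=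
    fun k θ => (P.changeOrigin (x θ) k).compContinuousLinearMap (fun _ => L)
  let B : ℕ → ℝ≥0 := fun k =>
    ∑' t : Σ l : ℕ, { t : Finset (Fin (k + l)) // t.card = l }, ‖P (k + t.1)‖₊ * s ^ t.1
  have hQB : ∀ k, ∀ θ ∈ ball θ₀ ε, ‖Q k θ‖ ≤ B k := by
    intro k θ hθ
    have h1 : ‖Q k θ‖ ≤ ‖P.changeOrigin (x θ) k‖ := by
      refine (ContinuousMultilinearMap.norm_compContinuousLinearMap_le _ _).trans ?_
      refine mul_le_of_le_one_right (norm_nonneg _) ?_
      exact Finset.prod_le_one (fun _ _ => norm_nonneg _) (fun _ _ => hL)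
    have hxs : ‖x θ‖₊ < s := hxε θ hθ
    have hxP : (‖x θ‖₊ : ℝ≥0∞) < P.radius := lt_trans (by exact_mod_cast hxs) hsP
    have h2 : ‖P.changeOrigin (x θ) k‖₊ ≤ B k := by
      refine (P.nnnorm_changeOrigin_le k hxP).trans ?_
      refine Summable.tsum_le_tsum ?_ (P.changeOriginSeries_summable_aux₂ hxP k)
        (P.changeOriginSeries_summable_aux₂ hsP k)
      intro t
      gcongr
    exact h1.trans (by exact_mod_cast h2)
  have hBs : Summable (fun k => B k * s ^ k) := by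
    have h := P.changeOriginSeries_summable_aux₁ hss
    have h1 := (NNReal.summable_sigma.1 h).2
    simpa only [B, ← NNReal.tsum_mul_right] using h1
  have hBs' : Summable (fun k => (B k : ℝ) * (s : ℝ) ^ k) := by
    have h := NNReal.summable_coe.2 hBs
    simpa using h
  have hQc : ∀ k, ContinuousOn (Q k) (ball θ₀ ε) := by
    intro k
    have h1 : ContinuousOn (fun y => P.changeOrigin y k) (Metric.eball (0 : E × ℂ) P.radius) :=
      (P.hasFPowerSeriesOnBall_changeOrigin k hpos).continuousOn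
    have h2 : ContinuousOn (fun θ => P.changeOrigin (x θ) k) (ball θ₀ ε) := by
      refine h1.comp hxc.continuousOn ?_
      intro θ hθ
      rw [mem_eball_zero_iff]
      have h3 : ‖x θ‖₊ < s := hxε θ hθ
      exact lt_trans (by exact_mod_cast h3) hsP
    exact (ContinuousMultilinearMap.compContinuousLinearMapL
      (fun _ : Fin k => L)).continuous.comp_continuousOn h2
  obtain ⟨M, hM⟩ : ∃ M : ℝ, ∀ θ ∈ uIcc α β, ‖g θ‖ ≤ M := by
    obtain ⟨M, hM⟩ := (isCompact_uIcc (a := α) (b := β)).exists_bound_of_continuousOn hg.continuousOn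
    exact ⟨M, hM⟩
  have hM0 : 0 ≤ M := (norm_nonneg _).trans (hM α left_mem_uIcc)
  let G : FormalMultilinearSeries ℂ E ℂ := fun k => ∫ θ in α..β, g θ • Q k θ
  have hGi : ∀ k, IntervalIntegrable (fun θ => g θ • Q k θ) MeasureTheory.volume α β := by
    intro k
    exact (hg.continuousOn.smul ((hQc k).mono hsub)).intervalIntegrable
  have hGn : ∀ k, ‖G k‖ ≤ M * B k * |β - α| := by
    intro k
    refine intervalIntegral.norm_integral_le_of_norm_le_const ?_
    intro θ hθ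
    rw [norm_smul]
    have h1 := hM θ (uIoc_subset_uIcc hθ)
    have h2 := hQB k θ (hsub' hθ)
    exact mul_le_mul h1 h2 (norm_nonneg _) hM0
  refine HasFPowerSeriesOnBall.analyticAt (p := G) (r := (s : ℝ≥0∞)) ⟨?_, by exact_mod_cast hs0, ?_⟩
  · refine G.le_radius_of_summable_norm ?_
    refine Summable.of_nonneg_of_le (fun k => by positivity) (fun k => ?_)
      (hBs'.mul_left (M * |β - α|))
    calc ‖G k‖ * (s : ℝ) ^ k ≤ (M * B k * |β - α|) * (s : ℝ) ^ k := by
          gcongr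
          exact hGn k
      _ = M * |β - α| * ((B k : ℝ) * (s : ℝ) ^ k) := by ring
  · intro y hy
    have hys : ‖y‖₊ < s := by
      rw [mem_eball_zero_iff] at hy
      exact_mod_cast hy
    have hGy : ∀ k, G k (fun _ => y) = ∫ θ in α..β, g θ * Q k θ (fun _ => y) := by
      intro k
      have h1 := ((ContinuousMultilinearMap.apply ℂ (fun _ : Fin k => E) ℂ
        (fun _ => y))).intervalIntegral_comp_comm (hGi k)
      exact h1.symm
    simp only [hGy]
    refine intervalIntegral.hasSum_integral_of_dominated_convergence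
      (fun k _ => M * ((B k : ℝ) * (s : ℝ) ^ k)) ?_ ?_ ?_ ?_ ?_
    · intro k
      have h1 : ContinuousOn (fun θ => g θ * Q k θ (fun _ => y)) (uIcc α β) := by
        refine hg.continuousOn.mul ?_
        exact ((ContinuousMultilinearMap.apply ℂ (fun _ : Fin k => E) ℂ
          (fun _ => y))).continuous.comp_continuousOn ((hQc k).mono hsub)
      exact (h1.mono uIoc_subset_uIcc).aestronglyMeasurable measurableSet_uIoc
    · intro k
      refine Eventually.of_forall (fun θ hθ => ?_)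
      rw [norm_mul]
      have h1 := hM θ (uIoc_subset_uIcc hθ)
      have h2 := hQB k θ (hsub' hθ)
      have h3 : ‖Q k θ (fun _ => y)‖ ≤ (B k : ℝ) * (s : ℝ) ^ k := by
        refine ((Q k θ).le_opNorm _).trans ?_
        have h4 : ∏ _i : Fin k, ‖y‖ ≤ (s : ℝ) ^ k := by
          rw [Finset.prod_const, Finset.card_univ, Fintype.card_fin]
          exact pow_le_pow_left₀ (norm_nonneg _) (by exact_mod_cast hys.le) k
        exact mul_le_mul h2 h4 (by positivity) (by positivity)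
      exact mul_le_mul h1 h3 (norm_nonneg _) hM0
    · exact Eventually.of_forall (fun θ _ => hBs'.mul_left M)
    · exact intervalIntegrable_const
    · refine Eventually.of_forall (fun θ hθ => ?_)
      have hxs : ‖x θ‖₊ < s := hxε θ (hsub' hθ)
      have hxR : (‖x θ‖₊ : ℝ≥0∞) < R := by
        refine lt_trans ?_ ((le_add_right le_rfl).trans_lt hsR : (s : ℝ≥0∞) < R)
        exact_mod_cast hxs
      have h1 := (hP.changeOrigin (y := x θ) hxR)
      have hmem : (y, (0 : ℂ)) ∈ Metric.eball (0 : E × ℂ) (R - ‖x θ‖₊) := by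
        rw [mem_eball_zero_iff, lt_tsub_iff_right]
        have h2 : ‖((y, (0 : ℂ)) : E × ℂ)‖₊ = ‖y‖₊ := by
          rw [Prod.nnnorm_def]
          simp
        have h3 : ‖((y, (0 : ℂ)) : E × ℂ)‖ₑ = (‖y‖₊ : ℝ≥0∞) := by
          rw [enorm_eq_nnnorm, h2]
        rw [h3]
        refine lt_trans ?_ hsR
        have h4 : ‖y‖₊ + ‖x θ‖₊ < s + s := add_lt_add hys hxs
        exact_mod_cast h4
      have h2 := h1.hasSum hmem
      have h3 : (p₀, γ θ₀) + x θ + (y, (0 : ℂ)) = (p₀ + y, γ θ) := by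
        simp [x]
      rw [h3] at h2
      have h4 := h2.mul_left (g θ)
      exact h4

theorem analyticAt_circleIntegral {E : Type} [NormedAddCommGroup E] [NormedSpace ℂ E] [FiniteDimensional ℂ E] {F : E × ℂ → ℂ} {p₀ : E} {c : ℂ} {ρ : ℝ}
    (hρ : 0 < ρ) (hF : ∀ t ∈ sphere c ρ, AnalyticAt ℂ F (p₀, t)) : AnalyticAt ℂ (fun p => ∮ t in C(c, ρ), F (p, t)) p₀ := by
  have hmem : ∀ θ : ℝ, circleMap c ρ θ ∈ sphere c ρ := fun θ => circleMap_mem_sphere c hρ.le θ
  have hγ : Continuous (circleMap c ρ) := continuous_circleMap c ρ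
  have hg : Continuous (deriv (circleMap c ρ)) := by
    have h1 : deriv (circleMap c ρ) = fun θ => circleMap 0 ρ θ * Complex.I := by
      funext θ
      exact deriv_circleMap c ρ θ
    rw [h1]
    exact (continuous_circleMap 0 ρ).mul continuous_const
  have hloc : ∀ θ₀ : ℝ, ∃ ε > 0, ∀ α ∈ ball θ₀ ε, ∀ β ∈ ball θ₀ ε,
      AnalyticAt ℂ (fun p => ∫ θ in α..β, deriv (circleMap c ρ) θ * F (p, circleMap c ρ θ)) p₀ :=
    fun θ₀ => par_local hγ hg (hF _ (hmem θ₀))
  choose ε hε hεa using hloc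
  obtain ⟨δ, hδ, hδc⟩ := lebesgue_number_lemma_of_metric (isCompact_Icc (a := (0 : ℝ)) (b := 2 * Real.pi))
    (c := fun θ₀ : ℝ => ball θ₀ (ε θ₀)) (fun _ => isOpen_ball)
    (fun θ _ => mem_iUnion.2 ⟨θ, mem_ball_self (hε θ)⟩)
  have hloc2 : ∀ θ ∈ Icc (0 : ℝ) (2 * Real.pi), ∀ α ∈ ball θ δ, ∀ β ∈ ball θ δ,
      AnalyticAt ℂ (fun p => ∫ θ in α..β, deriv (circleMap c ρ) θ * F (p, circleMap c ρ θ)) p₀ := by
    intro θ hθ α hα β hβ
    obtain ⟨θ₀, h0⟩ := hδc θ hθ
    exact hεa θ₀ α (h0 hα) β (h0 hβ)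
  have hpi : 0 < 2 * Real.pi := by positivity
  obtain ⟨N, hN⟩ := exists_nat_gt (2 * Real.pi / δ)
  have hN0 : (0 : ℝ) < N := lt_trans (by positivity) hN
  have hNδ : 2 * Real.pi / N < δ := by
    rw [div_lt_iff₀ hδ] at hN
    rw [div_lt_iff₀ hN0]
    linarith
  let a : ℕ → ℝ := fun k => 2 * Real.pi * k / N
  have ha0 : a 0 = 0 := by simp [a]
  have haN : a N = 2 * Real.pi := by
    simp only [a]
    field_simp
  have hstep : ∀ k, a (k + 1) = a k + 2 * Real.pi / N := by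
    intro k
    simp only [a]
    push_cast
    ring
  have hsum : AnalyticAt ℂ (fun p => ∑ k ∈ Finset.range N,
      ∫ θ in a k..a (k + 1), deriv (circleMap c ρ) θ * F (p, circleMap c ρ θ)) p₀ := by
    refine Finset.analyticAt_fun_sum _ ?_
    intro k hk
    have hk' : k < N := Finset.mem_range.1 hk
    have hkI : a k ∈ Icc (0 : ℝ) (2 * Real.pi) := by
      constructor
      · simp only [a]
        positivity
      · simp only [a]
        rw [div_le_iff₀ hN0]
        have : (k : ℝ) ≤ N := by exact_mod_cast hk'.le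
        nlinarith
    refine hloc2 (a k) hkI (a k) (mem_ball_self hδ) (a (k + 1)) ?_
    rw [hstep, mem_ball, Real.dist_eq]
    have : a k + 2 * Real.pi / N - a k = 2 * Real.pi / N := by ring
    rw [this, abs_of_pos (by positivity)]
    exact hNδ
  refine hsum.congr ?_
  obtain ⟨u, v, hu, _, hpu, htv, huv⟩ := generalized_tube_lemma (isCompact_singleton (x := p₀))
    (isCompact_sphere c ρ) (isOpen_analyticAt ℂ F) (by
      rintro ⟨p, t⟩ ⟨hp, ht⟩
      simp only [mem_singleton_iff] at hp ht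
      subst hp
      exact hF t ht)
  have hev : ∀ᶠ p in 𝓝 p₀, p ∈ u := hu.mem_nhds (hpu rfl)
  filter_upwards [hev] with p hp
  have hcont : Continuous (fun θ => deriv (circleMap c ρ) θ * F (p, circleMap c ρ θ)) := by
    refine hg.mul ?_
    rw [continuous_iff_continuousAt]
    intro θ
    have h1 : AnalyticAt ℂ F (p, circleMap c ρ θ) := huv ⟨hp, htv (hmem θ)⟩
    exact h1.continuousAt.comp (f := fun θ => (p, circleMap c ρ θ))
      (continuous_const.prodMk hγ).continuousAt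
  rw [intervalIntegral.sum_integral_adjacent_intervals
    (fun k _ => hcont.intervalIntegrable _ _), ha0, haN]
  rfl

end Pool.Agent.H22.HF

end

section

/-!
# TG Rm: Riemann's extension theorem

`riemann_ext`: `h` analytic at `y₀`, not locally zero, `f` analytic and bounded off `{h = 0}` near `y₀`: `f` extends holomorphically to `y₀` (values in `EN N`).
Proof: choose `e` with `h (y₀ + t e) ≠ 0` on a circle; the extension is the mean value of `f (y + t e)` on the circle (in one variable the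
singularities are removable).
-/

set_option autoImplicit false

open Topology Filter Metric

namespace Pool.Agent.TG

open Pool.Agent.H36.BP (EN)

variable {N : ℕ} {E : Type} [NormedAddCommGroup E] [NormedSpace ℂ E]

theorem an_of_coord {F : E → EN N} {x : E} (h : ∀ i, AnalyticAt ℂ (fun y => F y i) x) : AnalyticAt ℂ F x := by
  have h1 : AnalyticAt ℂ (fun y => (fun i => F y i : Fin (N + 1) → ℂ)) x := by
    rw [analyticAt_pi_iff]
    exact h
  have h2 : F = fun y => (PiLp.continuousLinearEquiv 2 ℂ (fun _ : Fin (N + 1) => ℂ)).symm (fun i => F y i : Fin (N + 1) → ℂ) := by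
    funext y
    rfl
  rw [h2]
  exact ((PiLp.continuousLinearEquiv 2 ℂ (fun _ : Fin (N + 1) => ℂ)).symm.toContinuousLinearMap.analyticAt _).fun_comp h1

theorem coord_an {F : E → EN N} {x : E} (h : AnalyticAt ℂ F x) (i : Fin (N + 1)) : AnalyticAt ℂ (fun y => F y i) x :=
  ((EuclideanSpace.proj (𝕜 := ℂ) i).analyticAt _).fun_comp h

theorem rem_disc {U : Set ℂ} (hU : IsOpen U) (hUc : IsPreconnected U) {h f : ℂ → ℂ} (hh : ∀ z ∈ U, AnalyticAt ℂ h z) {z₁ : ℂ} (hz₁ : z₁ ∈ U)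
    (hne : h z₁ ≠ 0) (hf : ∀ z ∈ U, h z ≠ 0 → DifferentiableAt ℂ f z) {M : ℝ} (hM : ∀ z ∈ U, h z ≠ 0 → ‖f z‖ ≤ M) :
    ∃ g : ℂ → ℂ, DifferentiableOn ℂ g U ∧ ∀ z ∈ U, h z ≠ 0 → g z = f z := by
  classical
  refine ⟨fun z => if h z = 0 then limUnder (𝓝[≠] z) f else f z, fun z₀ hz₀ => ?_, fun z hz h0 => by simp [h0]⟩
  refine DifferentiableAt.differentiableWithinAt ?_
  by_cases h0 : h z₀ = 0
  · have hiso : ∀ᶠ z in 𝓝[≠] z₀, h z ≠ 0 := by
      rcases (hh z₀ hz₀).eventually_eq_zero_or_eventually_ne_zero with h1 | h1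
      · exact absurd (AnalyticOnNhd.eqOn_zero_of_preconnected_of_eventuallyEq_zero (fun z hz => hh z hz) hUc hz₀ h1 hz₁) hne
      · exact h1
    rw [eventually_nhdsWithin_iff] at hiso
    obtain ⟨r, hr, hb⟩ := Metric.eventually_nhds_iff_ball.mp (hiso.and (hU.mem_nhds hz₀))
    have hd : DifferentiableOn ℂ f (ball z₀ r \ {z₀}) := fun z hz =>
      (hf z (hb z hz.1).2 ((hb z hz.1).1 hz.2)).differentiableWithinAt
    have hbd : BddAbove (norm ∘ f '' (ball z₀ r \ {z₀})) := by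
      refine ⟨M, ?_⟩
      rintro _ ⟨z, hz, rfl⟩
      exact hM z (hb z hz.1).2 ((hb z hz.1).1 hz.2)
    have h2 := Complex.differentiableOn_update_limUnder_of_bddAbove (ball_mem_nhds z₀ hr) hd hbd
    have h3 := h2.differentiableAt (ball_mem_nhds z₀ hr)
    refine h3.congr_of_eventuallyEq ?_
    filter_upwards [ball_mem_nhds z₀ hr] with z hz
    by_cases e : z = z₀
    · subst e
      simp [h0]
    · rw [Function.update_of_ne e]
      simp [(hb z hz).1 e]
  · refine (hf z₀ hz₀ h0).congr_of_eventuallyEq ?_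
    filter_upwards [(hh z₀ hz₀).continuousAt.eventually_ne h0] with z hz
    simp [hz]

theorem riemann_one [FiniteDimensional ℂ E] {h f : E → ℂ} {y₀ : E} (hh : AnalyticAt ℂ h y₀) (hne : ¬ ∀ᶠ y in 𝓝 y₀, h y = 0)
    (hf : ∀ᶠ y in 𝓝 y₀, h y ≠ 0 → AnalyticAt ℂ f y) {M : ℝ} (hM : ∀ᶠ y in 𝓝 y₀, h y ≠ 0 → ‖f y‖ ≤ M) :
    ∃ φ : E → ℂ, AnalyticAt ℂ φ y₀ ∧ ∀ᶠ y in 𝓝 y₀, h y ≠ 0 → φ y = f y := by
  obtain ⟨r, hr, hb⟩ := Metric.eventually_nhds_iff_ball.mp ((hh.eventually_analyticAt.and hf).and hM)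
  obtain ⟨y₁, hy₁, hne₁⟩ : ∃ y₁ ∈ ball y₀ (r / 4), h y₁ ≠ 0 := by
    by_contra hcon
    push Not at hcon
    exact hne (Filter.eventually_of_mem (ball_mem_nhds y₀ (by positivity)) hcon)
  set e : E := y₁ - y₀ with he
  have hen : ‖e‖ < r / 4 := by
    rw [he, ← dist_eq_norm]
    exact hy₁
  have hmem : ∀ y ∈ ball y₀ (r / 4), ∀ z ∈ ball (0 : ℂ) 2, y + z • e ∈ ball y₀ r := by
    intro y hy z hz
    rw [mem_ball, dist_eq_norm] at hy ⊢
    rw [mem_ball_zero_iff] at hz
    have h1 : y + z • e - y₀ = (y - y₀) + z • e := by abel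
    rw [h1]
    have h2 : ‖z • e‖ ≤ 2 * (r / 4) := by
      rw [norm_smul]
      exact mul_le_mul hz.le hen.le (norm_nonneg _) (by norm_num)
    linarith [norm_add_le (y - y₀) (z • e)]
  have hline : ∀ y ∈ ball y₀ (r / 4), ∀ z ∈ ball (0 : ℂ) 2, AnalyticAt ℂ (fun z : ℂ => h (y + z • e)) z := by
    intro y hy z hz
    refine AnalyticAt.fun_comp (hb _ (hmem y hy z hz)).1.1 ?_
    exact analyticAt_const.add (analyticAt_id.smul analyticAt_const)
  have h0m : y₀ ∈ ball y₀ (r / 4) := mem_ball_self (by positivity)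
  have hiso : ∀ᶠ z in 𝓝[≠] (0 : ℂ), h (y₀ + z • e) ≠ 0 := by
    rcases (hline y₀ h0m 0 (mem_ball_self (by norm_num))).eventually_eq_zero_or_eventually_ne_zero with h1 | h1
    · exfalso
      have h2 := AnalyticOnNhd.eqOn_zero_of_preconnected_of_eventuallyEq_zero (U := ball (0 : ℂ) 2) (fun z hz => hline y₀ h0m z hz)
        (convex_ball _ _).isPreconnected (mem_ball_self (by norm_num)) h1 (show (1 : ℂ) ∈ ball (0 : ℂ) 2 by simp)
      refine hne₁ ?_
      have h3 : y₀ + (1 : ℂ) • e = y₁ := by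
        rw [one_smul, he]
        abel
      rw [← h3]
      exact h2
    · exact h1
  rw [eventually_nhdsWithin_iff] at hiso
  obtain ⟨s₀, hs₀, hs₀b⟩ := Metric.eventually_nhds_iff_ball.mp hiso
  set s : ℝ := min (s₀ / 2) 1 with hs
  have hs0 : 0 < s := lt_min (by positivity) one_pos
  have hs1 : s ≤ 1 := min_le_right _ _
  have hss : s < s₀ := lt_of_le_of_lt (min_le_left _ _) (by linarith)
  have hsph : ∀ t ∈ sphere (0 : ℂ) s, t ≠ 0 ∧ t ∈ ball (0 : ℂ) 2 ∧ h (y₀ + t • e) ≠ 0 := by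
    intro t ht
    rw [mem_sphere_zero_iff_norm] at ht
    have ht0 : t ≠ 0 := by
      rw [← norm_pos_iff, ht]
      exact hs0
    refine ⟨ht0, ?_, ?_⟩
    · rw [mem_ball_zero_iff, ht]
      linarith
    · refine hs₀b t ?_ ht0
      rw [mem_ball_zero_iff, ht]
      exact hss
  have hcirc : ∀ᶠ y in 𝓝 y₀, ∀ t ∈ sphere (0 : ℂ) s, h (y + t • e) ≠ 0 := by
    refine (isCompact_sphere (0 : ℂ) s).eventually_forall_of_forall_eventually fun t ht => ?_
    have hc : ContinuousAt (fun p : E × ℂ => h (p.1 + p.2 • e)) (y₀, t) := by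
      have h1 : ContinuousAt h (y₀ + t • e) := (hb _ (hmem y₀ h0m t (hsph t ht).2.1)).1.1.continuousAt
      have h2 : ContinuousAt (fun p : E × ℂ => p.1 + p.2 • e) (y₀, t) := by fun_prop
      exact ContinuousAt.comp (f := fun p : E × ℂ => p.1 + p.2 • e) (g := h) h1 h2
    exact hc.eventually_ne (hsph t ht).2.2
  refine ⟨fun y => (2 * Real.pi * Complex.I : ℂ)⁻¹ * ∮ t in C(0, s), t⁻¹ * f (y + t • e), ?_, ?_⟩
  · refine analyticAt_const.mul ?_
    refine Pool.Agent.H22.HF.analyticAt_circleIntegral (F := fun p : E × ℂ => p.2⁻¹ * f (p.1 + p.2 • e)) hs0 fun t ht => ?_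
    obtain ⟨ht0, ht2, htn⟩ := hsph t ht
    refine AnalyticAt.mul ?_ ?_
    · exact (analyticAt_snd (𝕜 := ℂ) (p := (y₀, t))).inv ht0
    · refine AnalyticAt.fun_comp (g := f) (f := fun p : E × ℂ => p.1 + p.2 • e) ((hb _ (hmem y₀ h0m t ht2)).1.2 htn) ?_
      exact analyticAt_fst.add (analyticAt_snd.smul analyticAt_const)
  · filter_upwards [hcirc, ball_mem_nhds y₀ (show 0 < r / 4 by positivity)] with y hy hyb hy0
    have hs2 : (s : ℂ) ∈ sphere (0 : ℂ) s := by
      rw [mem_sphere_zero_iff_norm, Complex.norm_real, Real.norm_of_nonneg hs0.le]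
    obtain ⟨g, hg1, hg2⟩ := rem_disc (U := ball (0 : ℂ) 2) (h := fun z : ℂ => h (y + z • e)) (f := fun z : ℂ => f (y + z • e)) isOpen_ball
      (convex_ball _ _).isPreconnected (fun z hz => hline y hyb z hz) (hsph s hs2).2.1 (hy s hs2)
      (fun z hz hn => by
        have h1 := ((hb _ (hmem y hyb z hz)).1.2 hn).differentiableAt
        have h2 : DifferentiableAt ℂ (fun z : ℂ => y + z • e) z := by fun_prop
        exact DifferentiableAt.comp (g := f) (f := fun z : ℂ => y + z • e) z h1 h2)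
      (fun z hz hn => (hb _ (hmem y hyb z hz)).2 hn)
    have h3 : (∮ t in C(0, s), t⁻¹ * f (y + t • e)) = ∮ t in C(0, s), (t - 0)⁻¹ • g t := by
      refine circleIntegral.integral_congr hs0.le fun t ht => ?_
      simp only [sub_zero, smul_eq_mul]
      rw [hg2 t (hsph t ht).2.1 (hy t ht)]
    have h4 := DifferentiableOn.circleIntegral_sub_inv_smul (f := g) (c := (0 : ℂ)) (R := s)
      (hg1.mono (closedBall_subset_ball (by linarith))) (mem_ball_self hs0)
    have h5 : g 0 = f y := by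
      have := hg2 0 (mem_ball_self (by norm_num)) (by simpa using hy0)
      simpa using this
    show (2 * Real.pi * Complex.I : ℂ)⁻¹ * (∮ t in C(0, s), t⁻¹ * f (y + t • e)) = f y
    rw [h3, h4, h5, smul_eq_mul, ← mul_assoc, inv_mul_cancel₀ Complex.two_pi_I_ne_zero, one_mul]

/-- Riemann's extension theorem -/
theorem riemann_ext [FiniteDimensional ℂ E] {h : E → ℂ} {f : E → EN N} {y₀ : E} (hh : AnalyticAt ℂ h y₀) (hne : ¬ ∀ᶠ y in 𝓝 y₀, h y = 0)
    (hf : ∀ᶠ y in 𝓝 y₀, h y ≠ 0 → AnalyticAt ℂ f y) {M : ℝ} (hM : ∀ᶠ y in 𝓝 y₀, h y ≠ 0 → ‖f y‖ ≤ M) :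
    ∃ φ : E → EN N, AnalyticAt ℂ φ y₀ ∧ ∀ᶠ y in 𝓝 y₀, h y ≠ 0 → φ y = f y := by
  have h1 : ∀ i : Fin (N + 1), ∃ φ : E → ℂ, AnalyticAt ℂ φ y₀ ∧ ∀ᶠ y in 𝓝 y₀, h y ≠ 0 → φ y = f y i := by
    intro i
    refine riemann_one (f := fun y => f y i) (M := M) hh hne ?_ ?_
    · filter_upwards [hf] with y hy h0
      exact coord_an (hy h0) i
    · filter_upwards [hM] with y hy h0
      exact (PiLp.norm_apply_le (f y) i).trans (hy h0)
  choose φ hφ1 hφ2 using h1
  refine ⟨fun y => WithLp.toLp 2 fun i => φ i y, an_of_coord fun i => ?_, ?_⟩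
  · exact hφ1 i
  · filter_upwards [Filter.eventually_all.mpr hφ2] with y hy h0
    ext i
    exact hy i h0

end Pool.Agent.TG

end
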