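import Pool.Agent.H94.G5T.H62.EF.PrA
import Pool.Agent.H94.G5T.M07
import Pool.Agent.H94.G5T.M08
import Pool.Agent.H94.G5T.M16
import Pool.Agent.H94.G5T.M17

/-! The parts of this file: H22.W.Tan, G3.A.Wdg, H62.EL.ChN, TG.Jan, TG.SmA, TG.Y.TbA. -/

section

/-!
# W Tan: tangent vectors of a cone
-/

set_option autoImplicit false

open Topology Filter Metric

namespace Pool.Agent.H22.W

open Pool.Agent.H36.BP (EN wd)
open Pool.Agent.H14.PP (IsCone Chart Tan CurveAt IsOpenPart)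

variable {N : ℕ} {X : Set (EN N)}

theorem isOpenPart_self (hX : IsCone X) : IsOpenPart X X :=
  ⟨subset_rfl, hX.smul_mem, fun _ _ => Eventually.of_forall fun _ h => h⟩

/-- scaling of tangent vectors -/
theorem tan_smul (hX : IsCone X) {x v : EN N} (h : Tan X x v) {c : ℂ} (hc : c ≠ 0) :
    Tan X (c • x) (c • v) := by
  obtain ⟨F, ⟨hF, hFX⟩, h0, h1⟩ := h
  have hFc : AnalyticAt ℂ (fun z => c • F z) 0 := analyticAt_const.fun_smul hF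
  refine ⟨fun z => c • F z, ⟨hFc, ?_⟩, by simp [h0], ?_⟩
  · filter_upwards [hFX] with z hz
    exact hX.smul_mem _ hz c hc
  · rw [deriv_fun_const_smul c hF.differentiableAt, h1]

theorem tan_mem {x v : EN N} (h : Tan X x v) : x ∈ X := by
  obtain ⟨F, hF, h0, -⟩ := h
  rw [← h0]
  exact hF.2.self_of_nhds

/-- the tangent vectors of a curve -/
theorem tan_curve {F : ℂ → EN N} {z₀ : ℂ} (hF : CurveAt X F z₀) : Tan X (F z₀) (deriv F z₀) := by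
  obtain ⟨hF1, hF2⟩ := hF
  have hl : AnalyticAt ℂ (fun z : ℂ => z₀ + z) 0 := by fun_prop
  have h0 : z₀ + (0 : ℂ) = z₀ := add_zero _
  refine ⟨fun z => F (z₀ + z), ⟨?_, ?_⟩, by simp, ?_⟩
  · have h1 : AnalyticAt ℂ F (z₀ + 0) := by rw [h0]; exact hF1
    exact h1.fun_comp hl
  · have h2 : Tendsto (fun z : ℂ => z₀ + z) (𝓝 0) (𝓝 z₀) := by
      have := hl.continuousAt.tendsto
      simpa using this
    exact h2.eventually hF2
  · have h3 : deriv (fun z => F (z₀ + z)) 0 = deriv F (z₀ + 0) := deriv_comp_const_add _ _ _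
    rw [h3, h0]

/-- the tangent vectors in a chart -/
theorem tan_chart (hX : IsCone X) (χ : Chart X) {x v : EN N} (h : Tan X x v) (hU : x ∈ χ.U) :
    χ.q x ∈ ball (0 : ℂ × ℂ) 2 ∧ ∃ c a : ℂ, c ≠ 0 ∧ x = c • χ.σ (χ.q x) ∧
      v = c • fderiv ℂ χ.σ (χ.q x) (fderiv ℂ χ.q x v) + a • x := by
  obtain ⟨F, hF, h0, h1⟩ := h
  subst h0
  obtain ⟨hq, hq', c, hc, hc0, hev⟩ := χ.curve hX hF hU
  obtain ⟨hball, heq⟩ := hev.self_of_nhds
  refine ⟨hball, c 0, deriv c 0 / c 0, hc0, heq, ?_⟩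
  have hs : AnalyticAt ℂ χ.σ (χ.q (F 0)) := χ.σ_an _ hball
  have h2 : HasDerivAt (fun z => χ.σ (χ.q (F z))) (fderiv ℂ χ.σ (χ.q (F 0)) (deriv (fun z => χ.q (F z)) 0)) 0 :=
    hs.differentiableAt.hasFDerivAt.comp_hasDerivAt (0 : ℂ) hq.differentiableAt.hasDerivAt
  have h3 : HasDerivAt (fun z => c z • χ.σ (χ.q (F z))) (c 0 • fderiv ℂ χ.σ (χ.q (F 0)) (deriv (fun z => χ.q (F z)) 0) +
      deriv c 0 • χ.σ (χ.q (F 0))) 0 := hc.differentiableAt.hasDerivAt.smul h2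
  have h4 : deriv F 0 = c 0 • fderiv ℂ χ.σ (χ.q (F 0)) (deriv (fun z => χ.q (F z)) 0) +
      deriv c 0 • χ.σ (χ.q (F 0)) := by
    have h5 : F =ᶠ[𝓝 0] fun z => c z • χ.σ (χ.q (F z)) := hev.mono fun z hz => hz.2
    rw [h5.deriv_eq]
    exact h3.deriv
  rw [h1] at h4 hq'
  rw [← hq']
  have h6 : (deriv c 0 / c 0) • F 0 = deriv c 0 • χ.σ (χ.q (F 0)) := by
    conv_lhs => rw [heq]
    rw [smul_smul, div_mul_cancel₀ _ hc0]
  rw [h6]
  exact h4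

end Pool.Agent.H22.W

end

section

/-!
# G3 A Wdg: the distance of two points of the projective space and the `2 × 2` minors

`wg x y = x ∧ y` (the vector of all minors).  For unit vectors `‖pr x - pr y‖² = 2 (1 - |⟨x, y⟩|²) = ∑ |minors|²` up to a constant.
-/

set_option autoImplicit false

open Topology Filter Metric

namespace Pool.Agent.G3.A

open Pool.Agent.H36.BP (EN wd)
open Pool.Agent.H14.PP (IsCone CurveAt Tan)
open Pool.Agent.H62.EF (MN pr)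
open Pool.Agent.AD (Vd Chart Charts)

variable {N k : ℕ} {X : Set (EN N)} {Λ : AddSubgroup (Vd (k + 1))} {u : EN N → Vd (k + 1)} {D B Bad : Set (Vd (k + 1))} {a : Vd (k + 1)}

/-- the minors -/
noncomputable def wg (x y : EN N) : EuclideanSpace ℂ (Fin (N + 1) × Fin (N + 1)) := WithLp.toLp 2 fun p => x p.1 * y p.2 - x p.2 * y p.1

private theorem wg_norm_sq (x y : EN N) : ‖wg x y‖ ^ 2 = 2 * wd x y ^ 2 := by
  rw [Pool.Agent.H62.EF.wd_sq]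
  have hs : ∀ c : ℂ, ((‖c‖ ^ 2 : ℝ) : ℂ) = c * (starRingEnd ℂ) c := by
    intro c
    rw [Complex.mul_conj']
    push_cast
    rfl
  have hn : ∀ v : EN N, ((‖v‖ ^ 2 : ℝ) : ℂ) = ∑ i, v i * (starRingEnd ℂ) (v i) := by
    intro v
    rw [EuclideanSpace.norm_sq_eq, Complex.ofReal_sum]
    exact Finset.sum_congr rfl fun i _ => hs _
  have hi : (inner ℂ x y : ℂ) = ∑ i, (starRingEnd ℂ) (x i) * y i := by
    rw [PiLp.inner_apply]
    refine Finset.sum_congr rfl fun i _ => ?_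
    rw [RCLike.inner_apply]
    ring
  have hS : ((‖x‖ ^ 2 * ‖y‖ ^ 2 - ‖(inner ℂ x y : ℂ)‖ ^ 2 : ℝ) : ℂ) = ∑ i : Fin (N + 1), ∑ j : Fin (N + 1),
      (x i * (starRingEnd ℂ) (x i) * (y j * (starRingEnd ℂ) (y j)) - (starRingEnd ℂ) (x i) * y i * (x j * (starRingEnd ℂ) (y j))) := by
    rw [Complex.ofReal_sub, Complex.ofReal_mul, hn x, hn y, hs, hi, map_sum, Finset.sum_mul_sum, Finset.sum_mul_sum,
      ← Finset.sum_sub_distrib]
    refine Finset.sum_congr rfl fun i _ => ?_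
    rw [← Finset.sum_sub_distrib]
    refine Finset.sum_congr rfl fun j _ => ?_
    rw [map_mul, Complex.conj_conj]
  have hS' : ((‖x‖ ^ 2 * ‖y‖ ^ 2 - ‖(inner ℂ x y : ℂ)‖ ^ 2 : ℝ) : ℂ) = ∑ i : Fin (N + 1), ∑ j : Fin (N + 1),
      (x j * (starRingEnd ℂ) (x j) * (y i * (starRingEnd ℂ) (y i)) - (starRingEnd ℂ) (x j) * y j * (x i * (starRingEnd ℂ) (y i))) := by
    rw [hS, Finset.sum_comm]
  have h1 : ((‖wg x y‖ ^ 2 : ℝ) : ℂ) = ((2 * (‖x‖ ^ 2 * ‖y‖ ^ 2 - ‖(inner ℂ x y : ℂ)‖ ^ 2) : ℝ) : ℂ) := by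
    rw [two_mul, Complex.ofReal_add]
    nth_rewrite 1 [hS]
    rw [hS', EuclideanSpace.norm_sq_eq, Complex.ofReal_sum, Fintype.sum_prod_type, ← Finset.sum_add_distrib]
    refine Finset.sum_congr rfl fun i _ => ?_
    rw [← Finset.sum_add_distrib]
    refine Finset.sum_congr rfl fun j _ => ?_
    rw [hs]
    simp only [wg, map_sub, map_mul]
    ring
  exact_mod_cast h1

private theorem wg_norm {x y : EN N} (hx : x ≠ 0) (hy : y ≠ 0) : dist (pr x) (pr y) * ‖x‖ * ‖y‖ = ‖wg x y‖ := by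
  have h0 : ‖x‖ ≠ 0 := norm_ne_zero_iff.mpr hx
  have h0' : ‖y‖ ≠ 0 := norm_ne_zero_iff.mpr hy
  have h1 : (0 : ℝ) ≤ wd x y := Real.sqrt_nonneg _
  have h2 : dist (pr x) (pr y) * ‖x‖ * ‖y‖ = Real.sqrt 2 * wd x y := by
    rw [Pool.Agent.H62.EF.dist_pr hx hy]
    field_simp
  rw [h2]
  refine (pow_left_inj₀ (by positivity) (norm_nonneg _) two_ne_zero).mp ?_
  rw [wg_norm_sq, mul_pow, Real.sq_sqrt (by norm_num)]

theorem wg_dist (N : ℕ) : ∃ C : ℝ, 0 < C ∧ ∀ x y : EN N, x ≠ 0 → y ≠ 0 → ‖wg x y‖ ≤ C * dist (pr x) (pr y) * ‖x‖ * ‖y‖ ∧ dist (pr x) (pr y) * ‖x‖ * ‖y‖ ≤ C * ‖wg x y‖ := by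
  refine ⟨1, one_pos, fun x y hx hy => ?_⟩
  rw [one_mul, one_mul, wg_norm hx hy]
  exact ⟨le_rfl, le_rfl⟩

theorem wg_diff {U : Set ℂ} {F G : ℂ → EN N} (hF : DifferentiableOn ℂ F U) (hG : DifferentiableOn ℂ G U) : DifferentiableOn ℂ (fun z => wg (F z) (G z)) U := by
  have h1 : ∀ i, DifferentiableOn ℂ (fun z => F z i) U := fun i => by
    have := (EuclideanSpace.proj (𝕜 := ℂ) i).differentiable.comp_differentiableOn hF
    exact this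
  have h2 : ∀ i, DifferentiableOn ℂ (fun z => G z i) U := fun i => by
    have := (EuclideanSpace.proj (𝕜 := ℂ) i).differentiable.comp_differentiableOn hG
    exact this
  rw [differentiableOn_euclidean]
  intro p
  exact ((h1 p.1).mul (h2 p.2)).sub ((h1 p.2).mul (h2 p.1))

end Pool.Agent.G3.A

end

section

/-!
# EL ChN: small charts

`exists_small_chart`: the proof of `Pool.Agent.H62.EF.exists_chart_of_germ` (`H62/EF/ChEx.lean`; copy it): there `χ.σ p` is a multiple of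
`σ (r • p)` for `‖p‖ < 2`, where `r = R / 2` and `R` is any small radius: take `R < η`.

`exists_small_chart'`: moreover all points of the chart are near `σ 0` in the projective space: `p ↦ pr (σ p)` is continuous at `0`
(`continuousAt_pr`, `σ 0 ≠ 0`), `pr (a • σ (r • p)) = pr (σ (r • p))` (`pr_smul`).

`exists_nc_chart`: `σ, τ, i, j` from `IsNC`; `u (χ.σ p) = u (a • σ (r p))`, which is `u (σ (r p))` modulo `Λ` (`TorusMap.smul`), which is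
`b + (r s)^i (r t)^j = b + r^(i+j) s^i t^j`: `ρ = r^(i+j)`; `‖ρ s^i t^j‖ = ‖(r s)^i (r t)^j‖ < η` for `r` small (continuity at `0`, `i + j > 0`).
-/

set_option autoImplicit false

open Topology Filter Metric

namespace Pool.Agent.H62.EL

open Pool.Agent.H36.BP (EN wd IsGermChart)
open Pool.Agent.H14.PP (IsCone Chart Tan CurveAt)
open Pool.Agent.H62.EF (Lat MN pr TorusMap Sec)

variable {N : ℕ} {X : Set (EN N)} {Λ : AddSubgroup ℂ} {u : EN N → ℂ}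

theorem exists_small_chart (hX : IsCone X) {σ : ℂ × ℂ → EN N} {τ : EN N → ℂ × ℂ} (h : IsGermChart X σ τ) {η : ℝ} (hη : 0 < η) :
    ∃ (χ : Chart X) (r : ℝ), 0 < r ∧ σ 0 ∈ χ.U ∧ χ.q (σ 0) = 0 ∧ ∀ p ∈ ball (0 : ℂ × ℂ) 2, ‖(r : ℂ) • p‖ < η ∧
      dist (pr (χ.σ p)) (pr (σ 0)) < η ∧ ∃ a : ℂ, a ≠ 0 ∧ χ.σ p = a • σ ((r : ℂ) • p) := by
  have hσ0 : σ 0 ≠ 0 := by
    intro h0
    have h1 := h.σ_mem.self_of_nhds
    rw [h0] at h1
    exact hX.zero_notMem h1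
  -- the linear form
  obtain ⟨ℓ, hℓ⟩ : ∃ ℓ : EN N →L[ℂ] ℂ, ℓ (σ 0) = 1 := by
    have hne : inner ℂ (σ 0) (σ 0) ≠ (0 : ℂ) := inner_self_ne_zero.mpr hσ0
    refine ⟨(inner ℂ (σ 0) (σ 0) : ℂ)⁻¹ • innerSL ℂ (σ 0), ?_⟩
    simp only [_root_.smul_apply, innerSL_apply_apply, smul_eq_mul]
    exact inv_mul_cancel₀ hne
  -- the normalised parametrisation
  have hℓσ : ContinuousAt (fun p => ℓ (σ p)) 0 := ℓ.continuous.continuousAt.comp h.σ_an.continuousAt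
  have hℓne : ∀ᶠ p in 𝓝 (0 : ℂ × ℂ), ℓ (σ p) ≠ 0 := hℓσ.eventually_ne (by rw [hℓ]; exact one_ne_zero)
  have hinvσ : ∀ᶠ p in 𝓝 (0 : ℂ × ℂ), τ ((ℓ (σ p))⁻¹ • σ p) = τ (σ p) := by
    have hc : Tendsto (fun p => (σ p, (ℓ (σ p))⁻¹)) (𝓝 (0 : ℂ × ℂ)) (𝓝 (σ 0, (1 : ℂ))) := by
      have h1 : Tendsto (fun p => (ℓ (σ p))⁻¹) (𝓝 (0 : ℂ × ℂ)) (𝓝 (ℓ (σ 0))⁻¹) := hℓσ.inv₀ (by rw [hℓ]; exact one_ne_zero)
      rw [hℓ, inv_one] at h1
      exact h.σ_an.continuousAt.prodMk_nhds h1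
    exact hc.eventually h.inv
  -- the neighbourhood W₀
  have hW : ∀ᶠ y in 𝓝 (σ 0), AnalyticAt ℂ τ y ∧ (y ∈ X → ∃ c : ℂ, c ≠ 0 ∧ y = c • σ (τ y)) := h.τ_an.eventually_analyticAt.and h.right
  obtain ⟨W₀, hW₀s, hW₀o, hW₀m⟩ := _root_.eventually_nhds_iff.mp hW
  have hσ₁ : Tendsto (fun p => (ℓ (σ p))⁻¹ • σ p) (𝓝 (0 : ℂ × ℂ)) (𝓝 (σ 0)) := by
    have h1 : Tendsto (fun p => (ℓ (σ p))⁻¹) (𝓝 (0 : ℂ × ℂ)) (𝓝 (ℓ (σ 0))⁻¹) := hℓσ.inv₀ (by rw [hℓ]; exact one_ne_zero)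
    have h2 := h1.smul h.σ_an.continuousAt
    rwa [hℓ, inv_one, one_smul] at h2
  have hσ₁W : ∀ᶠ p in 𝓝 (0 : ℂ × ℂ), (ℓ (σ p))⁻¹ • σ p ∈ W₀ := hσ₁.eventually (hW₀o.mem_nhds hW₀m)
  have hprσ : ∀ᶠ p in 𝓝 (0 : ℂ × ℂ), dist (pr (σ p)) (pr (σ 0)) < η := by
    have h1 : ContinuousAt (fun p => pr (σ p)) 0 :=
      ContinuousAt.comp (f := σ) (Pool.Agent.H62.EF.continuousAt_pr hσ0) h.σ_an.continuousAt
    exact h1.eventually (Metric.ball_mem_nhds _ hη)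
  obtain ⟨R₀, hR₀, hall₀⟩ := Metric.eventually_nhds_iff_ball.mp
    ((((((h.σ_an.eventually_analyticAt.and h.σ_mem).and h.left).and hℓne).and hinvσ).and hσ₁W).and hprσ)
  obtain ⟨R, hR, hRη, hall, hprb⟩ : ∃ R : ℝ, 0 < R ∧ R ≤ η ∧ (∀ p ∈ ball (0 : ℂ × ℂ) R,
      (((((AnalyticAt ℂ σ p ∧ σ p ∈ X) ∧ τ (σ p) = p) ∧ ℓ (σ p) ≠ 0) ∧ τ ((ℓ (σ p))⁻¹ • σ p) = τ (σ p)) ∧
        (ℓ (σ p))⁻¹ • σ p ∈ W₀)) ∧ ∀ p ∈ ball (0 : ℂ × ℂ) R, dist (pr (σ p)) (pr (σ 0)) < η :=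
    ⟨min R₀ η, lt_min hR₀ hη, min_le_right _ _, fun p hp => (hall₀ p (ball_subset_ball (min_le_left _ _) hp)).1,
      fun p hp => (hall₀ p (ball_subset_ball (min_le_left _ _) hp)).2⟩
  set r : ℝ := R / 2 with hr
  have hr0 : 0 < r := by rw [hr]; positivity
  have hrC : (r : ℂ) ≠ 0 := by exact_mod_cast hr0.ne'
  have hball : ∀ p ∈ ball (0 : ℂ × ℂ) 2, (r : ℂ) • p ∈ ball (0 : ℂ × ℂ) R := by
    intro p hp
    rw [mem_ball_zero_iff] at hp ⊢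
    rw [norm_smul, Complex.norm_real, Real.norm_of_nonneg hr0.le, hr]
    nlinarith
  have hτσ : ∀ p ∈ ball (0 : ℂ × ℂ) R, τ ((ℓ (σ p))⁻¹ • σ p) = p := by
    intro p hp
    rw [(hall p hp).1.2, (hall p hp).1.1.1.2]
  set U : Set (EN N) := {x | ℓ x ≠ 0 ∧ (ℓ x)⁻¹ • x ∈ W₀ ∧ ‖τ ((ℓ x)⁻¹ • x)‖ < R} with hU
  have hmaps : ∀ x : EN N, ℓ x ≠ 0 → ∀ c : ℂ, c ≠ 0 → (ℓ (c • x))⁻¹ • (c • x) = (ℓ x)⁻¹ • x := by
    intro x hx c hc
    rw [map_smul, smul_eq_mul, smul_smul, mul_inv, mul_comm c⁻¹, mul_assoc, inv_mul_cancel₀ hc, mul_one]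
  have han1 : ∀ x : EN N, ℓ x ≠ 0 → AnalyticAt ℂ (fun y : EN N => (ℓ y)⁻¹ • y) x := by
    intro x hx
    exact ((ℓ.analyticAt x).inv hx).smul analyticAt_id
  have hanq : ∀ x ∈ U, AnalyticAt ℂ (fun y : EN N => τ ((ℓ y)⁻¹ • y)) x := by
    intro x hx
    exact AnalyticAt.fun_comp (hW₀s _ hx.2.1).1 (han1 x hx.1)
  have hUopen : IsOpen U := by
    rw [isOpen_iff_mem_nhds]
    intro x hx
    have h1 : ∀ᶠ y in 𝓝 x, ℓ y ≠ 0 := ℓ.continuous.continuousAt.eventually_ne hx.1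
    have h2 : ∀ᶠ y in 𝓝 x, (ℓ y)⁻¹ • y ∈ W₀ := (han1 x hx.1).continuousAt.eventually (hW₀o.mem_nhds hx.2.1)
    have h3 : ∀ᶠ y in 𝓝 x, ‖τ ((ℓ y)⁻¹ • y)‖ < R := (hanq x hx).continuousAt.norm.eventually_lt_const hx.2.2
    filter_upwards [h1, h2, h3] with y h4 h5 h6
    exact ⟨h4, h5, h6⟩
  let χ : Chart X :=
    { σ := fun p => (ℓ (σ ((r : ℂ) • p)))⁻¹ • σ ((r : ℂ) • p)
      U := U
      q := fun x => (r : ℂ)⁻¹ • τ ((ℓ x)⁻¹ • x)
      isOpen_U := hUopen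
      smul_U := by
        rintro x ⟨h1, h2, h3⟩ c hc
        refine ⟨?_, ?_, ?_⟩
        · rw [map_smul, smul_eq_mul]
          exact mul_ne_zero hc h1
        · rw [hmaps x h1 c hc]; exact h2
        · rw [hmaps x h1 c hc]; exact h3
      σ_an := by
        intro p hp
        have h1 := (hall _ (hball p hp)).1.1.1.1.1
        have h2 : AnalyticAt ℂ (fun p : ℂ × ℂ => σ ((r : ℂ) • p)) p :=
          AnalyticAt.fun_comp h1 (analyticAt_const.fun_smul analyticAt_id)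
        have h3 : AnalyticAt ℂ (fun p : ℂ × ℂ => ℓ (σ ((r : ℂ) • p))) p := (ℓ.analyticAt _).fun_comp h2
        exact (h3.inv (hall _ (hball p hp)).1.1.2).smul h2
      q_an := by
        intro x hx
        exact analyticAt_const.fun_smul (hanq x hx)
      q_smul := by
        rintro x ⟨h1, h2, h3⟩ c hc
        show (r : ℂ)⁻¹ • τ ((ℓ (c • x))⁻¹ • (c • x)) = _
        rw [hmaps x h1 c hc]
      σ_mem := by
        intro p hp
        have hb := hball p hp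
        have hh := hall _ hb
        have hne := hh.1.1.2
        have h1 : ℓ ((ℓ (σ ((r : ℂ) • p)))⁻¹ • σ ((r : ℂ) • p)) = 1 := by
          rw [map_smul, smul_eq_mul, inv_mul_cancel₀ hne]
        have h2 : τ ((ℓ (σ ((r : ℂ) • p)))⁻¹ • σ ((r : ℂ) • p)) = (r : ℂ) • p := hτσ _ hb
        refine ⟨hX.smul_mem _ hh.1.1.1.1.2 _ (inv_ne_zero hne), ⟨?_, ?_, ?_⟩, ?_⟩
        · rw [h1]; exact one_ne_zero
        · rw [h1, inv_one, one_smul]; exact hh.2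
        · rw [h1, inv_one, one_smul, h2]
          exact mem_ball_zero_iff.mp hb
        · show (r : ℂ)⁻¹ • τ ((ℓ ((ℓ (σ ((r : ℂ) • p)))⁻¹ • σ ((r : ℂ) • p)))⁻¹ • ((ℓ (σ ((r : ℂ) • p)))⁻¹ • σ ((r : ℂ) • p))) = p
          rw [h1, inv_one, one_smul, h2, smul_smul, inv_mul_cancel₀ hrC, one_smul]
      surj := by
        rintro x hxX ⟨h1, h2, h3⟩
        have hyX : (ℓ x)⁻¹ • x ∈ X := hX.smul_mem _ hxX _ (inv_ne_zero h1)
        obtain ⟨c, hc0, hc⟩ := (hW₀s _ h2).2 hyX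
        have hτb : τ ((ℓ x)⁻¹ • x) ∈ ball (0 : ℂ × ℂ) R := mem_ball_zero_iff.mpr h3
        have hrq : (r : ℂ) • ((r : ℂ)⁻¹ • τ ((ℓ x)⁻¹ • x)) = τ ((ℓ x)⁻¹ • x) := by
          rw [smul_smul, mul_inv_cancel₀ hrC, one_smul]
        refine ⟨?_, ?_⟩
        · show (r : ℂ)⁻¹ • τ ((ℓ x)⁻¹ • x) ∈ ball (0 : ℂ × ℂ) 2
          rw [mem_ball_zero_iff, norm_smul, norm_inv, Complex.norm_real, Real.norm_of_nonneg hr0.le, inv_mul_lt_iff₀ hr0, hr]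
          linarith
        · refine ⟨ℓ x * c * ℓ (σ (τ ((ℓ x)⁻¹ • x))), ?_, ?_⟩
          · exact mul_ne_zero (mul_ne_zero h1 hc0) (hall _ hτb).1.1.2
          · show x = (ℓ x * c * ℓ (σ (τ ((ℓ x)⁻¹ • x)))) •
              ((ℓ (σ ((r : ℂ) • ((r : ℂ)⁻¹ • τ ((ℓ x)⁻¹ • x)))))⁻¹ • σ ((r : ℂ) • ((r : ℂ)⁻¹ • τ ((ℓ x)⁻¹ • x))))
            rw [hrq, smul_smul, mul_assoc, mul_inv_cancel₀ (hall _ hτb).1.1.2, mul_one, mul_smul, ← hc, smul_smul, mul_inv_cancel₀ h1, one_smul] }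
  have h0b : (0 : ℂ × ℂ) ∈ ball (0 : ℂ × ℂ) R := mem_ball_self hR
  have hτ0 : τ (σ 0) = 0 := (hall 0 h0b).1.1.1.2
  refine ⟨χ, r, hr0, ⟨?_, ?_, ?_⟩, ?_, ?_⟩
  · rw [hℓ]; exact one_ne_zero
  · rw [hℓ, inv_one, one_smul]; exact hW₀m
  · rw [hℓ, inv_one, one_smul, hτ0, norm_zero]; exact hR
  · show (r : ℂ)⁻¹ • τ ((ℓ (σ 0))⁻¹ • σ 0) = 0
    rw [hℓ, inv_one, one_smul, hτ0, smul_zero]
  · intro p hp
    have hb := hball p hp
    have hne := (hall _ hb).1.1.2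
    refine ⟨(mem_ball_zero_iff.mp hb).trans_le hRη, ?_, (ℓ (σ ((r : ℂ) • p)))⁻¹, inv_ne_zero hne, rfl⟩
    show dist (pr ((ℓ (σ ((r : ℂ) • p)))⁻¹ • σ ((r : ℂ) • p))) (pr (σ 0)) < η
    rw [Pool.Agent.H62.EF.pr_smul _ (inv_ne_zero hne)]
    exact hprb _ hb

theorem exists_nc_chart (hX : IsCone X) (hu : TorusMap X Λ u) {x : EN N} {b : ℂ} (h : IsNC X Λ u x b) {η : ℝ} (hη : 0 < η) :
    ∃ (χ : Chart X) (ρ : ℝ) (i j : ℕ), x ∈ χ.U ∧ χ.q x = 0 ∧ Mon Λ u χ b ρ i j ∧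
      ∀ p ∈ ball (0 : ℂ × ℂ) 2, dist (pr (χ.σ p)) (pr x) < η ∧ ‖mo b ρ i j p - b‖ < η := by
  obtain ⟨σ, τ, i, j, hg, hσ0, hij, hev⟩ := h
  have hmono : ∀ᶠ p in 𝓝 (0 : ℂ × ℂ), ‖p.1 ^ i * p.2 ^ j‖ < η := by
    have hc : Continuous fun p : ℂ × ℂ => p.1 ^ i * p.2 ^ j := (continuous_fst.pow i).mul (continuous_snd.pow j)
    have h1 : Tendsto (fun p : ℂ × ℂ => ‖p.1 ^ i * p.2 ^ j‖) (𝓝 0) (𝓝 ‖(0 : ℂ × ℂ).1 ^ i * (0 : ℂ × ℂ).2 ^ j‖) :=
      hc.norm.continuousAt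
    have h0 : ‖(0 : ℂ × ℂ).1 ^ i * (0 : ℂ × ℂ).2 ^ j‖ = 0 := by
      rw [norm_eq_zero]
      show (0 : ℂ) ^ i * (0 : ℂ) ^ j = 0
      rw [← pow_add, zero_pow (by omega)]
    rw [h0] at h1
    exact h1.eventually_lt_const hη
  obtain ⟨η', hη', hall⟩ := Metric.eventually_nhds_iff_ball.mp ((hev.and hmono).and hg.σ_mem)
  obtain ⟨χ, r, hr, hU, hq, hch⟩ := exists_small_chart hX hg (lt_min hη' hη)
  have hrij : (0 : ℝ) < r ^ (i + j) := pow_pos hr _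
  have hkey : ∀ p : ℂ × ℂ, ((r ^ (i + j) : ℝ) : ℂ) * (p.1 ^ i * p.2 ^ j) = ((r : ℂ) • p).1 ^ i * ((r : ℂ) • p).2 ^ j := by
    intro p
    have h1 : ((r : ℂ) • p).1 = (r : ℂ) * p.1 := rfl
    have h2 : ((r : ℂ) • p).2 = (r : ℂ) * p.2 := rfl
    rw [h1, h2]
    push_cast
    ring
  have hb : ∀ p ∈ ball (0 : ℂ × ℂ) 2, (r : ℂ) • p ∈ ball (0 : ℂ × ℂ) η' := fun p hp =>
    mem_ball_zero_iff.mpr ((hch p hp).1.trans_le (min_le_left _ _))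
  refine ⟨χ, r ^ (i + j), i, j, hσ0 ▸ hU, hσ0 ▸ hq, ⟨hrij, hij, ?_⟩, ?_⟩
  · intro p hp
    obtain ⟨-, -, a, ha, hap⟩ := hch p hp
    have h1 := hall _ (hb p hp)
    have h2 := hu.smul _ h1.2 a ha
    rw [hap]
    unfold mo
    rw [hkey p]
    have h3 := Λ.add_mem h2 h1.1.1
    convert h3 using 1
    ring
  · intro p hp
    obtain ⟨-, h1, -⟩ := hch p hp
    refine ⟨?_, ?_⟩
    · rw [← hσ0]
      exact h1.trans_le (min_le_right _ _)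
    · unfold mo
      rw [hkey p, add_sub_cancel_left]
      exact (hall _ (hb p hp)).1.2

end Pool.Agent.H62.EL

end

section

/-!
# TG Jan: properties of the integral

Compare `Pool/Agent/H62/EL/Jan.lean` (there for members of `Sb`, here for local lifts and for points of the fibres).

`II_analytic`: for `y` near `y₀`: `y ∈ closedBall y₀ r`, `dist (pr (φ y)) (pr (φ y₀)) + ε ≤ r` (continuity), so `II_eq` (`A` from `exists_prim`): `II = (A (χ.q (ψ y)) - A (χ.q (φ y))) / ρ ^ (k + 1)`;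
`φ y₀, ψ y₀ ∈ χ.U` and `χ.q _ ∈ closedBall 0 1` (`Cap`; `dist (pr (ψ y₀)) (pr (φ y₀)) ≤ ε` by `IRel.mem`).

`II_bdd`: suppose not: `y_n ∈ Gd D δ`, `m_n`, `m'_n` with `‖II α ε y_n m_n m'_n‖ > n`; then `II ≠ 0`, so there is `v` with `IRel`, `m_n, m'_n ∈ Fb .. y_n` (`IRel.mem`).  Translate by `Γ` (`II_per`, `Geo.gd_add`, `fb_add`, `Lat.cpt`):
`y_n` bounded; along an ultrafilter `y_n → y ∈ Gd D δ`, `m_n → m ∈ Fb .. y` (`fb_lim`).  `Cap χ c ρ y m r` with `r > ε`; for large `n` `y_n ∈ closedBall y r`, `dist m_n m + ε ≤ r`: `II_eq`: `‖II‖ ≤ 2 M / ρ ^ (k + 1)`, `M` the maximum of `‖A‖` on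
`closedBall 0 1`: contradiction.

`II_lim`: `II_eq` for `(y n, m n, m' n)` and for the limit; lifts of `m n`, `m' n` converge to lifts of `m₀`, `m₀'` in the sense of `fb_lim`, so `χ.q _` converges; `A` is continuous.
-/

set_option autoImplicit false

open Topology Filter Metric

namespace Pool.Agent.TG

open Pool.Agent.H36.BP (EN wd)
open Pool.Agent.H14.PP (IsCone CurveAt Tan)
open Pool.Agent.H62.EF (MN pr)
open Pool.Agent.AD (Vd Chart Charts)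

variable {N k : ℕ}

variable {X : Set (EN N)} {Λ : AddSubgroup (Vd (k + 1))} {u : EN N → Vd (k + 1)} {D B : Set (Vd (k + 1))}

theorem tendsto_q (χ : Chart (k + 2) X) {x : EN N} (hx : x ∈ χ.U) (hx0 : x ≠ 0) {ι : Type*} {l : Filter ι} {y : ι → EN N}
    (hy : ∀ᶠ n in l, y n ≠ 0) (h : Tendsto (fun n => pr (y n)) l (𝓝 (pr x))) :
    Tendsto (fun n => χ.q (y n)) l (𝓝 (χ.q x)) := by
  intro V hV
  have hU : χ.U ∩ χ.q ⁻¹' V ∈ 𝓝 x := inter_mem (χ.isOpen_U.mem_nhds hx) ((χ.q_an x hx).continuousAt hV)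
  obtain ⟨δ, hδ, hn⟩ := Pool.Agent.H62.EF.near_of_pr hx0 hU
  have h1 : ∀ᶠ n in l, dist (pr (y n)) (pr x) < δ := h.eventually (ball_mem_nhds _ hδ)
  rw [mem_map]
  filter_upwards [hy, h1] with n h2 h3
  obtain ⟨c, hc, h4, h5⟩ := hn (y n) h2 h3
  have h6 : y n ∈ χ.U := by
    have := χ.smul_U _ h4 c⁻¹ (inv_ne_zero hc)
    rwa [smul_smul, inv_mul_cancel₀ hc, one_smul] at this
  have h7 : χ.q (c • y n) ∈ V := h5
  rw [χ.q_smul _ h6 c hc] at h7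
  exact h7

end Pool.Agent.TG

end

section

/-!
# TG SmA: closing up, and a holomorphic vector near a point where its projection is Lipschitz

`close_lift`: `φ` analytic with `φ y ≠ 0`, `φ y ∈ X` and `u (φ y) = υ y` modulo `Λ` on a dense set: this holds everywhere.
`lip_lift`: `pr ∘ F` Lipschitz where `F ≠ 0` near `y₀`: `[F]` is holomorphic at `y₀`.
-/

set_option autoImplicit false

open Topology Filter Metric

namespace Pool.Agent.TG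

open Pool.Agent.H36.BP (EN fs wd)
open Pool.Agent.H14.PP (IsCone)
open Pool.Agent.H62.EF (MN pr pr_smul pr_eq_iff continuousAt_pr isCompact_pr nm_close)
open Pool.Agent.AD (Vd)

variable {N k : ℕ} {X : Set (EN N)} {Λ : AddSubgroup (Vd (k + 1))} {u : EN N → Vd (k + 1)}

theorem lat_isClosed (h : Lat Λ) : IsClosed (Λ : Set (Vd (k + 1))) := by
  obtain ⟨δ, hδ, hd⟩ := h.disc
  rw [← isSeqClosed_iff_isClosed]
  intro x w hx hw
  have h1 := hw.cauchySeq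
  rw [Metric.cauchySeq_iff'] at h1
  obtain ⟨n, hn⟩ := h1 δ hδ
  have h2 : ∀ m ≥ n, x m = x n := by
    intro m hm
    have h3 := hd (x m - x n) (Λ.sub_mem (hx m) (hx n)) (by rw [← dist_eq_norm]; exact hn m hm)
    exact sub_eq_zero.mp h3
  have h4 : Tendsto x atTop (𝓝 (x n)) := by
    refine tendsto_const_nhds.congr' ?_
    filter_upwards [eventually_ge_atTop n] with m hm
    exact (h2 m hm).symm
  rw [tendsto_nhds_unique hw h4]
  exact hx n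

/-- a nonzero limit of points of the cone is a point of the cone -/
theorem mem_of_frequently {E : Type*} [TopologicalSpace E] (hX : IsCone X) {φ : E → EN N} {y : E} (hφ : ContinuousAt φ y) (h0 : φ y ≠ 0)
    (hfr : ∃ᶠ z in 𝓝 y, φ z ∈ X) : φ y ∈ X := by
  have h1 : φ y ∈ insert 0 X := by
    have h2 : φ y ∈ closure (insert 0 X) := by
      rw [mem_closure_iff_frequently]
      exact hφ.tendsto.frequently (hfr.mono fun z hz => Set.mem_insert_of_mem _ hz)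
    rwa [hX.closed.closure_eq] at h2
  exact h1.resolve_left h0

/-- closing up -/
theorem close_lift {E : Type*} [TopologicalSpace E] (hX : IsCone X) (ht : TMap X Λ u) (hl : Lat Λ) {φ : E → EN N} {υ : E → Vd (k + 1)} {y : E}
    (hφ : ContinuousAt φ y) (h0 : φ y ≠ 0) (hυ : ContinuousAt υ y) (hfr : ∃ᶠ z in 𝓝 y, φ z ∈ X ∧ u (φ z) - υ z ∈ Λ) :
    φ y ∈ X ∧ u (φ y) - υ y ∈ Λ := by
  have h1 : φ y ∈ X := mem_of_frequently hX hφ h0 (hfr.mono fun z hz => hz.1)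
  refine ⟨h1, ?_⟩
  obtain ⟨v, hv, hvu⟩ := ht.loc _ h1
  have h2 : ∃ᶠ z in 𝓝 y, v (φ z) - υ z ∈ (Λ : Set (Vd (k + 1))) := by
    refine (hfr.and_eventually (hφ.eventually hvu)).mono fun z hz => ?_
    have h3 := Λ.sub_mem hz.1.2 (hz.2 hz.1.1)
    have e : u (φ z) - υ z - (u (φ z) - v (φ z)) = v (φ z) - υ z := by abel
    rw [e] at h3
    exact h3
  have h3 : v (φ y) - υ y ∈ (Λ : Set (Vd (k + 1))) := by
    have hc : ContinuousAt (fun z => v (φ z) - υ z) y := (hv.continuousAt.comp hφ).sub hυ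
    have h4 : v (φ y) - υ y ∈ closure (Λ : Set (Vd (k + 1))) := by
      rw [mem_closure_iff_frequently]
      exact hc.tendsto.frequently h2
    rwa [(lat_isClosed hl).closure_eq] at h4
  have h4 := hvu.self_of_nhds h1
  have e : u (φ y) - υ y = (u (φ y) - v (φ y)) + (v (φ y) - υ y) := by abel
  rw [e]
  exact Λ.add_mem h4 h3

/-- another representative of a point of `X` -/
theorem mem_of_pr (hX : IsCone X) (ht : TMap X Λ u) {x y : EN N} {w : Vd (k + 1)} (hx : x ∈ X) (hu : u x - w ∈ Λ) (hy : y ≠ 0) (h : pr y = pr x) :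
    y ∈ X ∧ u y - w ∈ Λ := by
  have hx0 : x ≠ 0 := fun e => hX.zero_notMem (e ▸ hx)
  obtain ⟨c, hc, rfl⟩ := (pr_eq_iff hy hx0).mp h
  refine ⟨hX.smul_mem x hx c hc, ?_⟩
  have e : u (c • x) - w = (u (c • x) - u x) + (u x - w) := by abel
  rw [e]
  exact Λ.add_mem (ht.smul x hx c hc) hu

theorem isCone_ne : IsCone {x : EN N | x ≠ 0} where
  zero_notMem := fun h => h rfl
  smul_mem := fun _ hx _ hc => smul_ne_zero hc hx
  closed := by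
    have : insert (0 : EN N) {x : EN N | x ≠ 0} = Set.univ := by
      ext x
      simp only [Set.mem_insert_iff, Set.mem_ofPred_eq, Set.mem_univ, iff_true]
      exact em _
    rw [this]
    exact isClosed_univ

/-- a vector whose projection is Lipschitz defines a holomorphic map -/
theorem lip_lift {E : Type} [NormedAddCommGroup E] [NormedSpace ℂ E] [FiniteDimensional ℂ E] {F : E → EN N} {y₀ : E} (hF : AnalyticAt ℂ F y₀)
    (hne : ¬ ∀ᶠ y in 𝓝 y₀, F y = 0) {ρ C : ℝ} (hρ : 0 < ρ)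
    (hlip : ∀ y ∈ ball y₀ ρ, ∀ z ∈ ball y₀ ρ, F y ≠ 0 → F z ≠ 0 → dist (pr (F y)) (pr (F z)) ≤ C * ‖y - z‖) :
    ∃ φ : E → EN N, AnalyticAt ℂ φ y₀ ∧ φ y₀ ≠ 0 ∧ ∀ᶠ y in 𝓝 y₀, F y ≠ 0 → pr (φ y) = pr (F y) := by
  have hfr : ∃ᶠ y in 𝓝 y₀, F y ≠ 0 := Filter.not_eventually.mp hne
  obtain ⟨s, hs, hsF⟩ := exists_seq_forall_of_frequently hfr
  have hcpt := isCompact_pr (isCone_ne (N := N))
  obtain ⟨m₀, ⟨x₀, hx₀, rfl⟩, θ, hθ, hlim⟩ := hcpt.tendsto_subseq (x := fun n => pr (F (s n))) (fun n => ⟨F (s n), hsF n, rfl⟩)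
  have hx₀ : x₀ ≠ 0 := hx₀
  have hd : ∀ y ∈ ball y₀ ρ, F y ≠ 0 → dist (pr (F y)) (pr x₀) ≤ C * ‖y - y₀‖ := by
    intro y hy h0
    have h1 : Tendsto (fun n => dist (pr (F y)) (pr (F (s (θ n))))) atTop (𝓝 (dist (pr (F y)) (pr x₀))) := tendsto_const_nhds.dist hlim
    have h2 : Tendsto (fun n => C * ‖y - s (θ n)‖) atTop (𝓝 (C * ‖y - y₀‖)) :=
      ((tendsto_const_nhds.sub (hs.comp hθ.tendsto_atTop)).norm).const_mul C
    refine le_of_tendsto_of_tendsto h1 h2 ?_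
    have h3 : ∀ᶠ n in atTop, s (θ n) ∈ ball y₀ ρ := (hs.comp hθ.tendsto_atTop).eventually (ball_mem_nhds y₀ hρ)
    filter_upwards [h3] with n hn
    exact hlip y hy _ hn h0 (hsF _)
  have hx₀n : 0 < ‖x₀‖ := norm_pos_iff.mpr hx₀
  obtain ⟨δ, hδ, hδb⟩ := nm_close hx₀ (show 0 < ‖x₀‖ / 2 by positivity)
  have hnear : ∀ᶠ y in 𝓝 y₀, F y ≠ 0 → dist (pr (F y)) (pr x₀) < δ := by
    have h1 : Tendsto (fun y => C * ‖y - y₀‖) (𝓝 y₀) (𝓝 (C * ‖y₀ - y₀‖)) := by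
      refine Continuous.tendsto ?_ y₀
      fun_prop
    rw [sub_self, norm_zero, mul_zero] at h1
    filter_upwards [h1.eventually (gt_mem_nhds hδ), ball_mem_nhds y₀ hρ] with y hy hyb h0
    exact (hd y hyb h0).trans_lt hy
  set h : E → ℂ := fun y => inner ℂ x₀ (F y) with hh
  have hℓ : ∀ y, h y = (innerSL ℂ x₀) (F y) := fun y => by simp [hh]
  have han : ∀ y, AnalyticAt ℂ F y → AnalyticAt ℂ h y := by
    intro y hy
    have : h = fun y => (innerSL ℂ x₀) (F y) := by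
      funext y
      exact hℓ y
    rw [this]
    exact ((innerSL ℂ x₀).analyticAt _).fun_comp hy
  have hiff : ∀ᶠ y in 𝓝 y₀, (F y ≠ 0 → h y ≠ 0 ∧ ‖H62.EF.nm x₀ (F y) - x₀‖ < ‖x₀‖ / 2) ∧ (h y ≠ 0 → F y ≠ 0) := by
    filter_upwards [hnear] with y hy
    refine ⟨fun h0 => hδb _ h0 (hy h0), fun h0 e => h0 ?_⟩
    rw [hh]
    simp [e]
  have hhne : ¬ ∀ᶠ y in 𝓝 y₀, h y = 0 := by
    intro hc
    obtain ⟨y, hy1, hy2, hy3⟩ := (hfr.and_eventually (hc.and hiff)).exists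
    exact (hy3.1 hy1).1 hy2
  obtain ⟨φ, hφ1, hφ2⟩ := riemann_ext (h := h) (f := fun y => H62.EF.nm x₀ (F y)) (M := ‖x₀‖ + ‖x₀‖ / 2) (han y₀ hF) hhne
    (by
      filter_upwards [hF.eventually_analyticAt] with y hy h0
      have h1 : AnalyticAt ℂ (fun y => (((‖x₀‖ ^ 2 : ℝ) : ℂ) / h y) • F y) y := (analyticAt_const.div (han y hy) h0).smul hy
      exact h1)
    (by
      filter_upwards [hiff] with y hy h0
      have h1 := (hy.1 (hy.2 h0)).2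
      have h2 : H62.EF.nm x₀ (F y) = x₀ + (H62.EF.nm x₀ (F y) - x₀) := by abel
      calc ‖H62.EF.nm x₀ (F y)‖ = ‖x₀ + (H62.EF.nm x₀ (F y) - x₀)‖ := by rw [← h2]
        _ ≤ ‖x₀‖ + ‖H62.EF.nm x₀ (F y) - x₀‖ := norm_add_le _ _
        _ ≤ _ := by linarith)
  refine ⟨φ, hφ1, ?_, ?_⟩
  · have h1 : ‖φ y₀ - x₀‖ ≤ ‖x₀‖ / 2 := by
      have hc : ContinuousAt (fun y => ‖φ y - x₀‖) y₀ := (hφ1.continuousAt.sub continuousAt_const).norm
      have hmem : ‖φ y₀ - x₀‖ ∈ closure (Set.Iic (‖x₀‖ / 2)) := by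
        rw [mem_closure_iff_frequently]
        refine hc.tendsto.frequently ?_
        refine (hfr.and_eventually (hiff.and hφ2)).mono fun y hy => ?_
        obtain ⟨hy1, hy2, hy3⟩ := hy
        show ‖φ y - x₀‖ ≤ ‖x₀‖ / 2
        rw [hy3 (hy2.1 hy1).1]
        exact (hy2.1 hy1).2.le
      rw [isClosed_Iic.closure_eq] at hmem
      exact hmem
    intro h2
    rw [h2, zero_sub, norm_neg] at h1
    linarith
  · filter_upwards [hiff, hφ2] with y hy1 hy2 h0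
    rw [hy2 (hy1.1 h0).1]
    have h3 : (((‖x₀‖ ^ 2 : ℝ) : ℂ) / inner ℂ x₀ (F y)) ≠ 0 := by
      refine div_ne_zero ?_ (hy1.1 h0).1
      exact_mod_cast (pow_pos hx₀n 2).ne'
    exact pr_smul _ h3

end Pool.Agent.TG

end

section

/-!
# TG Y TbA: `EL/TbA` with weaker hypotheses
-/

set_option autoImplicit false

open Topology Filter Metric

namespace Pool.Agent.TGY

open Pool.Agent.H36.BP (EN wd IsGermChart)
open Pool.Agent.H14.PP (IsCone Chart Tan CurveAt)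
open Pool.Agent.H62.EF (Lat MN pr TorusMap Charts)
open Pool.Agent.H62.EL

variable {N : ℕ} {X : Set (EN N)} {Λ : AddSubgroup ℂ} {u : EN N → ℂ}

private theorem isClosed_lat (hΛ : Lat Λ) : IsClosed (Λ : Set ℂ) := by
  obtain ⟨δ, hδ, h⟩ := hΛ.discrete
  refine Metric.isClosed_of_pairwise_le_dist hδ ?_
  intro x hx y hy hxy
  by_contra hlt
  push Not at hlt
  rw [dist_eq_norm] at hlt
  exact hxy (sub_eq_zero.mp (h _ (Λ.sub_mem hx hy) hlt))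

private theorem lim_mem (hΛ : Lat Λ) (hu : TorusMap X Λ u) {l : Filter ℕ} [l.NeBot] {y : ℕ → EN N} {z : ℕ → ℂ} {x : EN N} {b : ℂ}
    (hx : x ∈ X) (hy : Tendsto y l (𝓝 x)) (hz : Tendsto z l (𝓝 b)) (h : ∀ᶠ i in l, y i ∈ X ∧ u (y i) - z i ∈ Λ) : u x - b ∈ Λ := by
  obtain ⟨v, hv, hv'⟩ := hu.loc x hx
  have h1 : Tendsto (fun i => v (y i) - z i) l (𝓝 (v x - b)) := (hv.continuousAt.tendsto.comp hy).sub hz
  have h2 : ∀ᶠ i in l, v (y i) - z i ∈ (Λ : Set ℂ) := by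
    filter_upwards [h, hy.eventually hv'] with i hi hi'
    have h3 : v (y i) - z i = u (y i) - z i - (u (y i) - v (y i)) := by ring
    rw [h3]
    exact Λ.sub_mem hi.2 (hi' hi.1)
  have h4 : v x - b ∈ Λ := (isClosed_lat hΛ).mem_of_tendsto h1 h2
  have h5 := hv'.self_of_nhds hx
  have h6 : u x - b = (u x - v x) + (v x - b) := by ring
  rw [h6]
  exact Λ.add_mem h5 h4

private theorem compact_unit (hX : IsCone X) : IsCompact (X ∩ sphere (0 : EN N) 1) := by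
  have h1 : X ∩ sphere (0 : EN N) 1 = (insert 0 X) ∩ sphere (0 : EN N) 1 := by
    ext x
    constructor
    · rintro ⟨hx, hs⟩
      exact ⟨Set.mem_insert_of_mem _ hx, hs⟩
    · rintro ⟨hx, hs⟩
      refine ⟨?_, hs⟩
      rcases hx with rfl | hx
      · simp at hs
      · exact hx
  rw [h1]
  exact (isCompact_sphere (0 : EN N) 1).inter_left hX.closed

private theorem ne_zero (hX : IsCone X) {x : EN N} (hx : x ∈ X) : x ≠ 0 := fun h => hX.zero_notMem (h ▸ hx)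

private theorem exists_unit (hX : IsCone X) {x : EN N} (hx : x ∈ X) : ∃ c : ℂ, c ≠ 0 ∧ c • x ∈ X ∩ sphere (0 : EN N) 1 := by
  have hn : ‖x‖ ≠ 0 := norm_ne_zero_iff.mpr (ne_zero hX hx)
  have hc : (((‖x‖⁻¹ : ℝ)) : ℂ) ≠ 0 := by
    exact_mod_cast inv_ne_zero hn
  refine ⟨(((‖x‖⁻¹ : ℝ)) : ℂ), hc, hX.smul_mem x hx _ hc, ?_⟩
  rw [mem_sphere_zero_iff_norm, norm_smul, Complex.norm_real, norm_inv, norm_norm]
  exact inv_mul_cancel₀ hn

private theorem smul_mem_lat (hu : TorusMap X Λ u) {x : EN N} (hx : x ∈ X) {z : ℂ} (h : u x - z ∈ Λ) {c : ℂ} (hc : c ≠ 0) :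
    u (c • x) - z ∈ Λ := by
  have h3 : u (c • x) - z = u (c • x) - u x + (u x - z) := by ring
  rw [h3]
  exact Λ.add_mem (hu.smul x hx c hc) h

/-- a property which holds near the fibre over `b` holds over a ball -/
private theorem exists_rad (hX : IsCone X) (hΛ : Lat Λ) (hu : TorusMap X Λ u) {b : ℂ} (P : EN N → Prop)
    (hP : ∀ x ∈ X, P x → ∀ c : ℂ, c ≠ 0 → P (c • x))
    (h : ∀ x ∈ X, u x - b ∈ Λ → ∀ᶠ y in 𝓝 x, y ∈ X → P y) : ∃ s : ℝ, 0 < s ∧ ∀ z ∈ ball b s, ∀ x ∈ X, u x - z ∈ Λ → P x := by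
  by_contra hcon
  push Not at hcon
  have h1 : ∀ n : ℕ, ∃ (y : EN N) (z : ℂ), y ∈ X ∩ sphere (0 : EN N) 1 ∧ z ∈ ball b (1 / ((n : ℝ) + 1)) ∧ u y - z ∈ Λ ∧ ¬ P y := by
    intro n
    obtain ⟨z, hz, x, hx, hxz, hPx⟩ := hcon (1 / ((n : ℝ) + 1)) (by positivity)
    obtain ⟨c, hc, hcx⟩ := exists_unit hX hx
    refine ⟨c • x, z, hcx, hz, smul_mem_lat hu hx hxz hc, ?_⟩
    intro hP'
    have := hP _ hcx.1 hP' c⁻¹ (inv_ne_zero hc)
    rw [smul_smul, inv_mul_cancel₀ hc, one_smul] at this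
    exact hPx this
  choose y z hy hz hyz hPy using h1
  obtain ⟨x, hx, φ, hφ, hlim⟩ := (compact_unit hX).tendsto_subseq hy
  have hzl : Tendsto z atTop (𝓝 b) := by
    rw [tendsto_iff_dist_tendsto_zero]
    exact squeeze_zero (fun _ => dist_nonneg) (fun n => (mem_ball.mp (hz n)).le) tendsto_one_div_add_atTop_nhds_zero_nat
  have hxb : u x - b ∈ Λ := lim_mem hΛ hu hx.1 hlim (hzl.comp hφ.tendsto_atTop) (Eventually.of_forall fun n => ⟨(hy _).1, hyz _⟩)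
  obtain ⟨n, hn⟩ := (hlim.eventually (h x hx.1 hxb)).exists
  exact hPy _ (hn (hy _).1)

private theorem compact_fib (hX : IsCone X) (hΛ : Lat Λ) (hu : TorusMap X Λ u) (b : ℂ) :
    IsCompact {x : EN N | x ∈ X ∩ sphere (0 : EN N) 1 ∧ u x - b ∈ Λ} := by
  refine IsSeqCompact.isCompact ?_
  intro y hy
  obtain ⟨x, hx, φ, hφ, hlim⟩ := (compact_unit hX).tendsto_subseq (fun n => (hy n).1)
  exact ⟨x, ⟨hx, lim_mem hΛ hu hx.1 hlim tendsto_const_nhds (Eventually.of_forall fun n => ⟨(hy _).1.1, (hy _).2⟩)⟩, φ, hφ, hlim⟩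

private theorem exists_R (hX : IsCone X) (χ : Chart X) {x : EN N} (hx : x ∈ X) (hxU : x ∈ χ.U) :
    ∃ R : ℝ, 0 < R ∧ ∀ w ∈ X, dist (pr w) (pr x) < R → w ∈ χ.U := by
  obtain ⟨R, hR, h⟩ := Pool.Agent.H62.EF.near_of_pr (ne_zero hX hx) (χ.isOpen_U.mem_nhds hxU)
  refine ⟨R, hR, fun w hw hd => ?_⟩
  obtain ⟨c, hc, hcw⟩ := h w (ne_zero hX hw) hd
  have := χ.smul_U _ hcw c⁻¹ (inv_ne_zero hc)
  rwa [smul_smul, inv_mul_cancel₀ hc, one_smul] at this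

private theorem exists_r (hX : IsCone X) (χ : Chart X) {x : EN N} (hx : x ∈ X) (hxU : x ∈ χ.U) (hq : χ.q x = 0) {ε : ℝ} (hε : 0 < ε) :
    ∃ r : ℝ, 0 < r ∧ r ≤ 2 ∧ ∀ p ∈ ball (0 : ℂ × ℂ) r, dist (pr (χ.σ p)) (pr x) < ε := by
  have h0 : (0 : ℂ × ℂ) ∈ ball (0 : ℂ × ℂ) 2 := mem_ball_self two_pos
  obtain ⟨c, hc, hxc⟩ := (χ.surj x hx hxU).2
  rw [hq] at hxc
  have h1 : pr x = pr (χ.σ 0) := by
    conv_lhs => rw [hxc]
    exact Pool.Agent.H62.EF.pr_smul _ hc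
  have hc1 : ContinuousAt (fun p => pr (χ.σ p)) 0 :=
    (Pool.Agent.H62.EF.continuousAt_pr (ne_zero hX (χ.σ_mem 0 h0).1)).comp (χ.σ_an 0 h0).continuousAt
  have h2 : ∀ᶠ p in 𝓝 (0 : ℂ × ℂ), dist (pr (χ.σ p)) (pr x) < ε := by
    rw [h1]
    exact Metric.tendsto_nhds.mp hc1.tendsto ε hε
  obtain ⟨r, hr, h⟩ := Metric.eventually_nhds_iff_ball.mp h2
  exact ⟨min r 2, lt_min hr two_pos, min_le_right _ _, fun p hp => h p (ball_subset_ball (min_le_left _ _) hp)⟩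

theorem exists_tube_geo (hX : IsCone X) (hu : TorusMap X Λ u) (hΛ : Lat Λ) {b : ℂ} (hnc : ∀ x ∈ X, u x - b ∈ Λ → IsNC X Λ u x b) :
    ∃ (T : TubeData X) (s η : ℝ) (𝒲 : Set (Wit X)), TubeG Λ u b s η T ∧ WitG Λ u b s η T 𝒲 := by
  obtain ⟨d, hd, hdΛ⟩ := hΛ.discrete
  set η : ℝ := d / 2 with hη
  have hη0 : 0 < η := by rw [hη]; positivity
  -- the covering charts
  have h1 : ∀ x : {x : EN N // x ∈ X ∧ u x - b ∈ Λ}, ∃ (χ : Chart X) (ρ : ℝ) (i j : ℕ) (R : ℝ), x.1 ∈ χ.U ∧ Mon Λ u χ b ρ i j ∧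
      (∀ p ∈ ball (0 : ℂ × ℂ) 2, ‖mo b ρ i j p - b‖ < η) ∧ 0 < R ∧ ∀ w ∈ X, dist (pr w) (pr x.1) < R → w ∈ χ.U := by
    rintro ⟨x, hx, hxb⟩
    obtain ⟨χ, ρ, i, j, hxU, -, hm, hs⟩ := exists_nc_chart hX hu (hnc x hx hxb) hη0
    obtain ⟨R, hR, hRU⟩ := exists_R hX χ hx hxU
    exact ⟨χ, ρ, i, j, R, hxU, hm, fun p hp => (hs p hp).2, hR, hRU⟩
  choose χ ρ i j R hxU hmon hrange hR hRU using h1
  -- the open cones
  set O : {x : EN N // x ∈ X ∧ u x - b ∈ Λ} → Set (EN N) := fun x => {w | w ≠ 0 ∧ w ∈ (χ x).U ∧ dist (pr w) (pr x.1) < R x / 2} with hO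
  have hOopen : ∀ x, IsOpen (O x) := by
    intro x
    rw [isOpen_iff_mem_nhds]
    rintro w ⟨hw0, hwU, hwd⟩
    have e1 : ∀ᶠ y in 𝓝 w, y ≠ 0 := isOpen_ne.mem_nhds hw0
    have e2 : ∀ᶠ y in 𝓝 w, y ∈ (χ x).U := (χ x).isOpen_U.mem_nhds hwU
    have e3 : ∀ᶠ y in 𝓝 w, dist (pr y) (pr x.1) < R x / 2 :=
      ((Pool.Agent.H62.EF.continuousAt_pr hw0).dist continuousAt_const).eventually (gt_mem_nhds hwd)
    filter_upwards [e1, e2, e3] with y h1 h2 h3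
    exact ⟨h1, h2, h3⟩
  have hOsmul : ∀ x, ∀ w ∈ O x, ∀ c : ℂ, c ≠ 0 → c • w ∈ O x := by
    rintro x w ⟨hw0, hwU, hwd⟩ c hc
    refine ⟨smul_ne_zero hc hw0, (χ x).smul_U w hwU c hc, ?_⟩
    rw [Pool.Agent.H62.EF.pr_smul w hc]
    exact hwd
  obtain ⟨t, ht⟩ := (compact_fib hX hΛ hu b).elim_finite_subcover O hOopen (by
    rintro x ⟨⟨hx, -⟩, hxb⟩
    refine Set.mem_iUnion.mpr ⟨⟨x, hx, hxb⟩, ne_zero hX hx, hxU _, ?_⟩
    rw [dist_self]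
    exact half_pos (hR _))
  have hcov : ∀ x ∈ X, u x - b ∈ Λ → ∃ y ∈ t, x ∈ O y := by
    intro x hx hxb
    obtain ⟨c, hc, hcx⟩ := exists_unit hX hx
    obtain ⟨y, hyt, hy⟩ := Set.mem_iUnion₂.mp (ht ⟨hcx, smul_mem_lat hu hx hxb hc⟩)
    refine ⟨y, hyt, ?_⟩
    have := hOsmul y _ hy c⁻¹ (inv_ne_zero hc)
    rwa [smul_smul, inv_mul_cancel₀ hc, one_smul] at this
  obtain ⟨R₀, hR₀, hR₀t⟩ : ∃ R₀ : ℝ, 0 < R₀ ∧ ∀ x ∈ t, R₀ ≤ R x := by
    have e1 : ∀ᶠ r in 𝓝[>] (0 : ℝ), ∀ x ∈ t, r ≤ R x :=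
      (Finset.eventually_all t).mpr fun x _ => mem_nhdsWithin_of_mem_nhds (ge_mem_nhds (hR x))
    obtain ⟨r, hr, hr'⟩ := (e1.and self_mem_nhdsWithin).exists
    exact ⟨r, hr', hr⟩
  -- the witnesses
  have h2 : ∀ x : {x : EN N // x ∈ X ∧ u x - b ∈ Λ}, ∃ (χ' : Chart X) (ρ' : ℝ) (i' j' : ℕ) (R' r' : ℝ), x.1 ∈ χ'.U ∧ χ'.q x.1 = 0 ∧
      Mon Λ u χ' b ρ' i' j' ∧ (∀ p ∈ ball (0 : ℂ × ℂ) 2, dist (pr (χ'.σ p)) (pr x.1) < R₀ / 8) ∧
      (∀ p ∈ ball (0 : ℂ × ℂ) 2, ‖mo b ρ' i' j' p - b‖ < η) ∧ 0 < R' ∧ (∀ w ∈ X, dist (pr w) (pr x.1) < R' → w ∈ χ'.U) ∧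
      0 < r' ∧ r' ≤ 2 ∧ ∀ p ∈ ball (0 : ℂ × ℂ) r', dist (pr (χ'.σ p)) (pr x.1) < R' / 4 := by
    rintro ⟨x, hx, hxb⟩
    obtain ⟨χ', ρ', i', j', hxU', hq, hm, hs⟩ := exists_nc_chart hX hu (hnc x hx hxb) (lt_min hη0 (by positivity : 0 < R₀ / 8))
    obtain ⟨R', hR', hRU'⟩ := exists_R hX χ' hx hxU'
    obtain ⟨r', hr', hr2, hrr⟩ := exists_r hX χ' hx hxU' hq (by positivity : 0 < R' / 4)
    exact ⟨χ', ρ', i', j', R', r', hxU', hq, hm, fun p hp => lt_of_lt_of_le (hs p hp).1 (min_le_right _ _),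
      fun p hp => lt_of_lt_of_le (hs p hp).2 (min_le_left _ _), hR', hRU', hr', hr2, hrr⟩
  choose χ' ρ' i' j' R' r' hxU' hq' hmon' hsm' hrange' hR' hRU' hr' hr2' hrr' using h2
  -- the radius
  obtain ⟨s₀, hs₀, hs₀P⟩ := exists_rad hX hΛ hu (b := b)
    (fun y => (∃ x ∈ t, y ∈ O x) ∧ ∃ x, y ∈ (χ' x).U ∧ (χ' x).q y ∈ ball (0 : ℂ × ℂ) (r' x))
    (by
      rintro y - ⟨⟨x, hx, hyx⟩, x', hy1, hy2⟩ c hc
      refine ⟨⟨x, hx, hOsmul x y hyx c hc⟩, x', (χ' x').smul_U y hy1 c hc, ?_⟩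
      rw [(χ' x').q_smul y hy1 c hc]
      exact hy2)
    (by
      intro x hx hxb
      obtain ⟨x₁, hx₁, hxO⟩ := hcov x hx hxb
      have e1 : ∀ᶠ y in 𝓝 x, y ∈ O x₁ := (hOopen x₁).mem_nhds hxO
      have e2 : ∀ᶠ y in 𝓝 x, y ∈ (χ' ⟨x, hx, hxb⟩).U := (χ' ⟨x, hx, hxb⟩).isOpen_U.mem_nhds (hxU' ⟨x, hx, hxb⟩)
      have e3 : ∀ᶠ y in 𝓝 x, (χ' ⟨x, hx, hxb⟩).q y ∈ ball (0 : ℂ × ℂ) (r' ⟨x, hx, hxb⟩) := by
        refine ((χ' ⟨x, hx, hxb⟩).q_an x (hxU' ⟨x, hx, hxb⟩)).continuousAt.eventually (isOpen_ball.mem_nhds ?_)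
        rw [hq' ⟨x, hx, hxb⟩]
        exact mem_ball_self (hr' _)
      filter_upwards [e1, e2, e3] with y h1 h2 h3 _
      exact ⟨⟨x₁, hx₁, h1⟩, ⟨x, hx, hxb⟩, h2, h3⟩)
  refine ⟨⟨t.card, fun k => χ (t.equivFin.symm k).1, fun k => ρ (t.equivFin.symm k).1, fun k => i (t.equivFin.symm k).1,
    fun k => j (t.equivFin.symm k).1, fun k => O (t.equivFin.symm k).1⟩, min s₀ η, η,
    Set.range fun x => ⟨χ' x, ρ' x, i' x, j' x, r' x⟩, ?_, ?_⟩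
  · refine ⟨lt_min hs₀ hη0, min_le_right _ _, ?_, fun k => hmon _, fun k => hrange _, fun k => hOopen _, ?_, fun k => hOsmul _, ?_⟩
    · intro l hl hn
      exact hdΛ l hl (by rw [hη] at hn; linarith)
    · rintro k w ⟨-, hw, -⟩
      exact hw
    · intro z hz x hx hxz
      obtain ⟨⟨y, hy, hxy⟩, -⟩ := hs₀P z (ball_subset_ball (min_le_left _ _) hz) x hx hxz
      refine ⟨t.equivFin ⟨y, hy⟩, ?_⟩
      simp only [Equiv.symm_apply_apply]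
      exact hxy
  · refine ⟨?_, ?_, ?_, ?_, ?_, ?_⟩
    · rintro w ⟨x, rfl⟩
      exact ⟨hr' x, hr2' x⟩
    · rintro w ⟨x, rfl⟩
      exact hmon' x
    · rintro w ⟨x, rfl⟩
      exact hrange' x
    · rintro w ⟨x, rfl⟩ k ⟨p, hp, -, -, hpd⟩ p' hp'
      have hk := hR₀t _ (t.equivFin.symm k).2
      have a1 := hsm' x p (ball_subset_ball (hr2' x) hp)
      have a2 := hsm' x p' hp'
      refine hRU _ _ ((χ' x).σ_mem p' hp').1 ?_
      have a3 := dist_triangle (pr ((χ' x).σ p')) (pr x.1) (pr (t.equivFin.symm k).1.1)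
      have a4 := dist_triangle (pr x.1) (pr ((χ' x).σ p)) (pr (t.equivFin.symm k).1.1)
      rw [dist_comm (pr x.1) (pr ((χ' x).σ p))] at a4
      have a5 : dist (pr ((χ' x).σ p)) (pr (t.equivFin.symm k).1.1) < R (t.equivFin.symm k).1 / 2 := hpd
      have a6 : 0 < R (t.equivFin.symm k).1 := hR _
      linarith
    · rintro w ⟨x, rfl⟩ w' ⟨x', rfl⟩ ⟨p, hp, p', hp', hpp⟩
      have a1 : dist (pr ((χ' x).σ p)) (pr x.1) < R' x / 4 := hrr' x p hp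
      have a2 : dist (pr ((χ' x').σ p')) (pr x'.1) < R' x' / 4 := hrr' x' p' hp'
      have hpp' : pr ((χ' x).σ p) = pr ((χ' x').σ p') := hpp
      rw [hpp'] at a1
      have a3 := dist_triangle (pr x.1) (pr ((χ' x').σ p')) (pr x'.1)
      rw [dist_comm (pr x.1) (pr ((χ' x').σ p'))] at a3
      have b1 := hR' x
      have b2 := hR' x'
      rcases le_total (R' x) (R' x') with hle | hle
      · left
        intro q hq
        refine hRU' x' _ ((χ' x).σ_mem q (ball_subset_ball (hr2' x) hq)).1 ?_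
        have a4 := hrr' x q hq
        have a5 := dist_triangle (pr ((χ' x).σ q)) (pr x.1) (pr x'.1)
        linarith
      · right
        intro q hq
        refine hRU' x _ ((χ' x').σ_mem q (ball_subset_ball (hr2' x') hq)).1 ?_
        have a4 := hrr' x' q hq
        have a5 := dist_triangle (pr ((χ' x').σ q)) (pr x'.1) (pr x.1)
        rw [dist_comm (pr x'.1) (pr x.1)] at a5
        linarith
    · intro z hz x hx hxz
      obtain ⟨-, y, hy1, hy2⟩ := hs₀P z (ball_subset_ball (min_le_left _ _) hz) x hx hxz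
      exact ⟨_, ⟨y, rfl⟩, hy1, hy2⟩

end Pool.Agent.TGY

end
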