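import Pool.Agent.H94.G5T.M15
import Pool.Agent.H94.G5T.M22
import Pool.Agent.H94.G5T.M23

/-! The parts of this file: G4.A.Defs, G4.A.Idn, G3.R.SDefs, G4.A.CmDefs, G4.A.Fch, G3.R.PrmU. -/

section

/-!
# G4 A Defs: curves over the lines of one direction, any dimension

As `G3/A/Defs`; unchanged and used from there: `Ba`, `Hc`, `Dec`, `Sepa`, `Tht`, `Frm`, `NL`, `Lm`, `CRL`, `Tb`, `ToE`, `CE`, `Sht` (and `Shs`, `Prm`, `DDb` of `G3/R/SDefs`).  New: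

* `LG`: the geometry of the lines of direction `a`: no finiteness of the bad points modulo `Λ`; instead `few`: `o (R²)` exact bad hits in the discs of radius `R` of the lines, uniformly (with `R = 2`: a uniform bound in the small discs).
* `Co`: the core is `Gd D (2 δ)`; `LC`: the constants `ρ`, `δ`, circles at every scale; no separation of the bad points, no strips.
* `DecW`: the bound of a form with the weight `wt W`; `DA`: with the data `Γ`, `W` of the theta factors (`Frm`).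
-/

set_option autoImplicit false

open Topology Filter Metric

namespace Pool.Agent.G4.A

open Pool.Agent.H36.BP (EN fs wd)
open Pool.Agent.H14.PP (IsCone CurveAt Tan)
open Pool.Agent.H62.EF (MN pr)
open Pool.Agent.AD (Vd Chart Charts IsGerm)
open Pool.Agent.TG
open Pool.Agent.G3 (wt)
open Pool.Agent.G3.A (Ba Hc Dec Sepa Tht Frm NL Lm CRL Tb ToE CE Sht)

variable {N k : ℕ}

/-- the bound of the form `α` with the weight `wt W` -/
def DecW {X : Set (EN N)} {Λ : AddSubgroup (Vd (k + 1))} {u : EN N → Vd (k + 1)} {r : ℕ} (W : Fin r → Vd (k + 1) →L[ℂ] ℂ) (α : VForm X Λ u) (C₀ : ℝ) : Prop :=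
  ∀ y, ∀ x ∈ X, u x - y ∈ Λ → ∀ v : Fin (k + 2) → EN N, (∀ i, Tan X x (v i)) → (∀ i, ‖v i‖ ≤ ‖x‖) → ‖α.toFun y x v‖ ≤ C₀ * Real.exp (-wt W y)

/-- the geometry of the lines of direction `a` -/
structure LG (Λ : AddSubgroup (Vd (k + 1))) (D Bad : Set (Vd (k + 1))) (a : Vd (k + 1)) : Prop where
  norm : ‖a‖ = 1
  lat : Lat Λ
  D_closed : IsClosed D
  D_inv : ∀ y ∈ D, ∀ l ∈ Λ, y + l ∈ D
  bad_sub : Bad ⊆ D
  bad_inv : ∀ β ∈ Bad, ∀ l ∈ Λ, β + l ∈ Bad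
  iso : ∀ y : Vd (k + 1), ∀ᶠ z in 𝓝[≠] (0 : ℂ), y + z • a ∉ D
  /-- few exact bad hits in large discs -/
  few : ∀ ε : ℝ, 0 < ε → ∃ C : ℝ, ∀ (y : Vd (k + 1)) (R : ℝ), 0 ≤ R → ∀ S : Finset ℂ, (∀ z ∈ S, ‖z‖ ≤ R ∧ y + z • a ∈ Bad) → (S.card : ℝ) ≤ ε * R ^ 2 + C

/-- the core: points of distance at least `2 δ` from `D` -/
def Co (D _Bad : Set (Vd (k + 1))) (δ _ρ : ℝ) : Set (Vd (k + 1)) := Gd D (2 * δ)

/-- the constants of the geometry of the lines of direction `a` -/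
structure LC (D Bad : Set (Vd (k + 1))) (a : Vd (k + 1)) (ρ δ : ℝ) : Prop where
  norm : ‖a‖ = 1
  D_closed : IsClosed D
  bad_sub : Bad ⊆ D
  ρ_pos : 0 < ρ
  ρ_le : ρ ≤ 1 / 8
  δ_pos : 0 < δ
  δ_le : 8 * δ ≤ ρ
  iso : ∀ y : Vd (k + 1), ∀ᶠ z in 𝓝[≠] (0 : ℂ), y + z • a ∉ D
  /-- small circles -/
  circ : ∀ η : ℝ, 0 < η → ∃ δ' : ℝ, 0 < δ' ∧ ∀ y : Vd (k + 1), ∃ r : ℝ, 0 < r ∧ r < η ∧ ∀ z : ℂ, ‖z‖ = r → y + z • a ∈ Gd D δ'
  /-- circles in the core -/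
  circC : ∀ y : Vd (k + 1), ∃ r : ℝ, 0 < r ∧ r ≤ 2 * ρ ∧ ∀ z : ℂ, ‖z‖ = r → y + z • a ∈ Gd D (4 * δ)
  few : ∀ ε : ℝ, 0 < ε → ∃ C : ℝ, ∀ (y : Vd (k + 1)) (R : ℝ), 0 ≤ R → ∀ S : Finset ℂ, (∀ z ∈ S, ‖z‖ ≤ R ∧ y + z • a ∈ Bad) → (S.card : ℝ) ≤ ε * R ^ 2 + C

/-- the data of block (A) for the direction `a` -/
structure DA (X : Set (EN N)) (Λ : AddSubgroup (Vd (k + 1))) (u : EN N → Vd (k + 1)) (D B Bad : Set (Vd (k + 1))) (a : Vd (k + 1)) (Γ : AddSubgroup (Vd (k + 1))) {J r : ℕ}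
    (W : Fin r → Vd (k + 1) →L[ℂ] ℂ) (α : Fin J → VForm X Λ u) (c₀ C₀ ρ δ : ℝ) : Prop where
  geo : Geo X Λ u D B
  lg : LG Λ D Bad a
  lc : LC D Bad a ρ δ
  nl : NL X Λ u D a
  c_pos : 0 < c₀
  C_pos : 0 < C₀
  wtc : ∀ y : Vd (k + 1), c₀ * ‖y‖ ^ 2 ≤ wt W y
  dec : ∀ j, DecW W (α j) C₀
  frm : Frm X Λ u D Γ W α
  cr : ∀ p ∈ D, p ∉ Bad → CRL X Λ u D a p
  good : ∀ p ∈ D, p ∉ Bad → p ∉ B ∧ TransAt D p a

end Pool.Agent.G4.A

end

section

/-!
# G4 A Idn: elementary facts on the curves over lines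

`hc_eq`: `F z ∧ G z = 0` (all `2 × 2` minors) near `z₀`, so everywhere (identity theorem for entire functions), `pr (F z) = pr (G z)` (`F z, G z ≠ 0`: `X` is a cone without `0`).
`Lm.unif`: otherwise there are `ε > 0` and for `𝒰`-most `n` a point `w n ∈ K` with `dist > ε`; `w n → z ∈ K` along `𝒰`, contradiction to `Lm` at `z` and continuity of `g`.
-/

set_option autoImplicit false

open Topology Filter Metric

namespace Pool.Agent.G4.A

open Pool.Agent.H36.BP (EN fs wd)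
open Pool.Agent.H14.PP (IsCone CurveAt Tan)
open Pool.Agent.H62.EF (MN pr)
open Pool.Agent.AD (Vd Chart Charts IsGerm)
open Pool.Agent.TG
open Pool.Agent.G3
open Pool.Agent.G3.A
open Pool.Agent.G3.C (Gc)

variable {N k : ℕ} {X : Set (EN N)} {Λ : AddSubgroup (Vd (k + 1))} {u : EN N → Vd (k + 1)} {D B Bad : Set (Vd (k + 1))} {a : Vd (k + 1)}

theorem hc_mem {f : ℂ → MN N} {y : Vd (k + 1)} (hf : f ∈ Hc X Λ u a y) (z : ℂ) : f z ∈ Fb X Λ u (y + z • a) := by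
  obtain ⟨F, ⟨-, hFX, hFu⟩, rfl⟩ := hf
  exact ⟨F z, hFX z, rfl, hFu z⟩

theorem hc_cont (hX : IsCone X) {f : ℂ → MN N} {y : Vd (k + 1)} (hf : f ∈ Hc X Λ u a y) : Continuous f := by
  obtain ⟨F, ⟨hFd, hFX, -⟩, rfl⟩ := hf
  rw [continuous_iff_continuousAt]
  intro z
  exact ContinuousAt.comp (g := pr) (f := F) (Pool.Agent.H62.EF.continuousAt_pr (ne_zero hX (hFX z))) hFd.continuous.continuousAt

theorem hc_add {f : ℂ → MN N} {y : Vd (k + 1)} (hf : f ∈ Hc X Λ u a y) (z₁ : ℂ) : (fun z => f (z₁ + z)) ∈ Hc X Λ u a (y + z₁ • a) := by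
  obtain ⟨F, ⟨hFd, hFX, hFu⟩, rfl⟩ := hf
  refine ⟨fun z => F (z₁ + z), ⟨hFd.comp (differentiable_id.const_add z₁), fun z => hFX _, fun z => ?_⟩, rfl⟩
  have h := hFu (z₁ + z)
  rw [add_smul, ← add_assoc] at h
  exact h

theorem hc_per {y l : Vd (k + 1)} (hl : l ∈ Λ) : Hc X Λ u a (y + l) = Hc X Λ u a y := by
  ext f
  constructor
  · rintro ⟨F, ⟨hFd, hFX, hFu⟩, rfl⟩
    refine ⟨F, ⟨hFd, hFX, fun z => ?_⟩, rfl⟩
    have h := Λ.add_mem (hFu z) hl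
    have e : u (F z) - (y + l + z • a) + l = u (F z) - (y + z • a) := by abel
    rwa [e] at h
  · rintro ⟨F, ⟨hFd, hFX, hFu⟩, rfl⟩
    refine ⟨F, ⟨hFd, hFX, fun z => ?_⟩, rfl⟩
    have h := Λ.sub_mem (hFu z) hl
    have e : u (F z) - (y + z • a) - l = u (F z) - (y + l + z • a) := by abel
    rwa [e] at h

/-- identity theorem -/
theorem hc_eq (hX : IsCone X) {f g : ℂ → MN N} {y y' : Vd (k + 1)} (hf : f ∈ Hc X Λ u a y) (hg : g ∈ Hc X Λ u a y') {z₀ : ℂ}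
    (h : ∃ᶠ z in 𝓝[≠] z₀, f z = g z) : f = g := by
  obtain ⟨F, ⟨hFd, hFX, -⟩, rfl⟩ := hf
  obtain ⟨G, ⟨hGd, hGX, -⟩, rfl⟩ := hg
  have hco : ∀ (H : ℂ → EN N), Differentiable ℂ H → ∀ i, Differentiable ℂ fun z => H z i := by
    intro H hH i
    exact (EuclideanSpace.proj (𝕜 := ℂ) i : EN N →L[ℂ] ℂ).differentiable.comp hH
  have hmin : ∀ i j z, F z i * G z j - F z j * G z i = 0 := by
    intro i j
    have hd : Differentiable ℂ fun z => F z i * G z j - F z j * G z i :=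
      ((hco F hFd i).mul (hco G hGd j)).sub ((hco F hFd j).mul (hco G hGd i))
    have ha : AnalyticOnNhd ℂ (fun z => F z i * G z j - F z j * G z i) Set.univ := fun z _ => hd.analyticAt z
    have hfr : ∃ᶠ z in 𝓝[≠] z₀, F z i * G z j - F z j * G z i = 0 := by
      refine h.mono fun z hz => ?_
      obtain ⟨c, -, hc⟩ := (Pool.Agent.H62.EF.pr_eq_iff (ne_zero hX (hFX z)) (ne_zero hX (hGX z))).1 hz
      rw [hc]
      simp only [PiLp.smul_apply, smul_eq_mul]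
      ring
    intro z
    exact ha.eqOn_zero_of_preconnected_of_frequently_eq_zero isPreconnected_univ (Set.mem_univ z₀) hfr (Set.mem_univ z)
  funext z
  obtain ⟨j, hj⟩ : ∃ j, G z j ≠ 0 := by
    by_contra hn
    push Not at hn
    apply ne_zero hX (hGX z)
    ext j
    exact hn j
  have he : F z = (F z j / G z j) • G z := by
    ext i
    simp only [PiLp.smul_apply, smul_eq_mul]
    rw [div_mul_eq_mul_div, eq_div_iff hj]
    linear_combination hmin i j z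
  have hc : F z j / G z j ≠ 0 := by
    intro h0
    rw [h0, zero_smul] at he
    exact ne_zero hX (hFX z) he
  exact (Pool.Agent.H62.EF.pr_eq_iff (ne_zero hX (hFX z)) (ne_zero hX (hGX z))).2 ⟨_, hc, he⟩

/-- locally uniform convergence -/
theorem _root_.Pool.Agent.G3.A.Lm.unif4 {ι : Type*} {𝒰 : Ultrafilter ι} {y₀ : Vd (k + 1)} {f : ι → ℂ → MN N} {g : ℂ → MN N} (h : Lm D a 𝒰 y₀ f g) (hg : Continuous g) {K : Set ℂ}
    (hK : IsCompact K) (hKD : ∀ z ∈ K, y₀ + z • a ∉ D) {ε : ℝ} (hε : 0 < ε) : ∀ᶠ n in (𝒰 : Filter ι), ∀ z ∈ K, dist (f n z) (g z) ≤ ε := by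
  classical
  by_contra hcon
  rw [← Ultrafilter.eventually_not] at hcon
  have hcon' : ∀ᶠ n in (𝒰 : Filter ι), ∃ z ∈ K, ε < dist (f n z) (g z) := by
    filter_upwards [hcon] with n hn
    push Not at hn
    exact hn
  obtain ⟨n₀, z₀, hz₀, -⟩ := hcon'.exists
  obtain ⟨w, hw⟩ : ∃ w : ι → ℂ, ∀ n, w n ∈ K ∧ ((∃ z ∈ K, ε < dist (f n z) (g z)) → ε < dist (f n (w n)) (g (w n))) := by
    refine ⟨fun n => if hn : ∃ z ∈ K, ε < dist (f n z) (g z) then hn.choose else z₀, fun n => ?_⟩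
    by_cases hn : ∃ z ∈ K, ε < dist (f n z) (g z)
    · simp only [dif_pos hn]
      exact ⟨hn.choose_spec.1, fun _ => hn.choose_spec.2⟩
    · simp only [dif_neg hn]
      exact ⟨hz₀, fun h' => absurd h' hn⟩
  have hle : ((𝒰.map w : Ultrafilter ℂ) : Filter ℂ) ≤ 𝓟 K := by
    rw [le_principal_iff, Ultrafilter.mem_coe, Ultrafilter.mem_map]
    exact Filter.Eventually.of_forall fun n => (hw n).1
  obtain ⟨z, hzK, hz⟩ := hK.ultrafilter_le_nhds (𝒰.map w) hle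
  have hwz : Tendsto w 𝒰 (𝓝 z) := hz
  have h1 : Tendsto (fun n => f n (w n)) 𝒰 (𝓝 (g z)) := h z (hKD z hzK) w hwz
  have h2 : Tendsto (fun n => g (w n)) 𝒰 (𝓝 (g z)) := (hg.tendsto z).comp hwz
  have h3 : Tendsto (fun n => dist (f n (w n)) (g (w n))) 𝒰 (𝓝 0) := by
    have h4 := h1.dist h2
    rwa [dist_self] at h4
  obtain ⟨n, h5, h6⟩ := ((h3.eventually_lt_const hε).and hcon').exists
  exact absurd ((hw n).2 h6) (not_lt.2 h5.le)

theorem _root_.Pool.Agent.G3.A.Lm.unique4 {ι : Type*} {𝒰 : Ultrafilter ι} (hX : IsCone X) (hL : LG Λ D Bad a) {y₀ : Vd (k + 1)} {f : ι → ℂ → MN N} {g g' : ℂ → MN N}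
    (h : Lm D a 𝒰 y₀ f g) (h' : Lm D a 𝒰 y₀ f g') (hg : g ∈ Hc X Λ u a y₀) (hg' : g' ∈ Hc X Λ u a y₀) : g = g' := by
  refine hc_eq hX hg hg' (z₀ := 0) ?_
  refine Filter.Eventually.frequently ?_
  filter_upwards [hL.iso y₀] with z hz
  exact tendsto_nhds_unique (h z hz (fun _ => z) tendsto_const_nhds) (h' z hz (fun _ => z) tendsto_const_nhds)

end Pool.Agent.G4.A

end

section

/-!
# G3 R SDefs: sheets over a real torus, local primitives, the statement on divided differences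

`Shs`: a finite set of sheets (`A.Sht`) over `Tb b E`, permuted by the translations of `Λ ∩ E` (from `CE`, `sht_finite`, `sht_add`).
`Prm α y₀ v R Ψ`: `Ψ` is a primitive of the form `α` along the fibres, on the ball of radius `R` around the unit vector `v ∈ X` over `y₀`.
`DDb m`: the divided differences of order `m` of the sheets in the direction `w` are bounded on `T ∩ Gd D δ` for every `δ > 0`; at the point `y` the sheets are considered in the affine chart `nv v`, `pr v = φ y`.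
-/

set_option autoImplicit false

open Topology Filter Metric

namespace Pool.Agent.G3.R

open Pool.Agent.H36.BP (EN fs wd)
open Pool.Agent.H14.PP (IsCone CurveAt Tan)
open Pool.Agent.H62.EF (MN pr)
open Pool.Agent.AD (Vd Chart Charts IsGerm)
open Pool.Agent.TG
open Pool.Agent.G3.C (Gc nv nd nv_pr)
open Pool.Agent.G3.A

variable {N k : ℕ}

/-- the sheets over the real torus `b + E` -/
structure Shs (X : Set (EN N)) (Λ : AddSubgroup (Vd (k + 1))) (u : EN N → Vd (k + 1)) (D : Set (Vd (k + 1))) (a b : Vd (k + 1)) (E : Submodule ℝ (Vd (k + 1)))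
    (SS : Set (Vd (k + 1) → MN N)) : Prop where
  mem : ∀ z : ℂ, z • a ∈ E
  cpt : ∃ R : ℝ, 0 < R ∧ ∀ v ∈ E, ∃ l ∈ Λ, l ∈ E ∧ ‖v - l‖ ≤ R
  fin : SS.Finite
  sht : ∀ φ ∈ SS, Sht X Λ u D a (Tb b E) φ
  tr : ∀ φ ∈ SS, ∀ l ∈ Λ, l ∈ E → ∃ φ' ∈ SS, ∀ y ∈ Tb b E, φ' y = φ (y + l)

/-- `Ψ` is a primitive of the form `α` along the fibres near the point `v` over `y₀` -/
structure Prm {X : Set (EN N)} {Λ : AddSubgroup (Vd (k + 1))} {u : EN N → Vd (k + 1)} (α : VForm X Λ u) (y₀ : Vd (k + 1)) (v : EN N) (R : ℝ) (Ψ : EN N → ℂ) : Prop where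
  pos : 0 < R
  unit : ‖v‖ = 1
  mem : v ∈ X
  lift : u v - y₀ ∈ Λ
  diff : DifferentiableOn ℂ Ψ (ball v R)
  jj : ∀ y ∈ ball y₀ R, ∀ x ∈ X, x ∈ ball v R → u x - y ∈ Λ → ∀ x' ∈ X, x' ∈ ball v R → u x' - y ∈ Λ → JJ α y (pr x) (pr x') = Ψ x' - Ψ x

/-- the divided differences of order `m` of the sheets are bounded on `T ∩ Gd D δ`, for every `δ > 0` -/
def DDb (D : Set (Vd (k + 1))) (T : Set (Vd (k + 1))) (SS : Set (Vd (k + 1) → MN N)) (w : Vd (k + 1)) (m : ℕ) : Prop :=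
  ∀ δ : ℝ, 0 < δ → ∃ r C : ℝ, 0 < r ∧ 0 ≤ C ∧ ∀ φ ∈ SS, ∀ y ∈ T, y ∈ Gd D δ → ∀ v : EN N, ‖v‖ = 1 → pr v = φ y → ∀ σ : ℕ → ℝ, Nod m σ r →
    ‖dd m σ fun s : ℝ => nv v (φ (y + (s : ℂ) • w))‖ ≤ C

end Pool.Agent.G3.R

end

section

/-!
# G4 A CmDefs: linear combinations of values on nearly equal curves

Curves `f i n` over the lines `y i n + ℂ a` (`i < M`), `y i n → y₀`, all converging to the curve `g` over `y₀ + ℂ a`; coefficients `c n i z`, entire in `z`, which may tend to infinity.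

* `cX c f v n x = ∑ i, c n i x • nv v (f i n x)`: the combination in the affine chart of the unit vector `v` (`pr v = g x`).
* `Cmb`: it is bounded (`bdd`) and, in the limit, linear (`lin`): for every analytic `F` near `(v, y₀ + x a)` the combination of the values `F (nv v (f i n x), y i n + x a)` is
  `fderiv ℂ F (v, y₀ + x a) (cX c f v n x, 0)` up to an error which tends to `0`.  So functions of `y` are killed.  Cases: two curves, coefficients `± e n z / d n`; divided differences of a sheet, divided by `Nb n → ∞`;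
  differences of difference quotients of a sheet.
* `MdX`: the maximum principle for `cX` in the limit, with an arbitrary holomorphic factor, from the circle in the core (of radius `≤ 3 / 8`) to the centre over `Gd D δ'`, with uniform constants.
* `Fch`: a chart of the fibre over `y₁` near `v`, with uniform constants: coordinate `h` along the fibres, inverse `Θ (h, y)`, primitives `Ψ j = Bj (h, y)` of the forms.
-/

set_option autoImplicit false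

open Topology Filter Metric

namespace Pool.Agent.G4.A

open Pool.Agent.H36.BP (EN fs wd)
open Pool.Agent.H14.PP (IsCone CurveAt Tan)
open Pool.Agent.H62.EF (MN pr)
open Pool.Agent.AD (Vd Chart Charts IsGerm)
open Pool.Agent.TG
open Pool.Agent.G3
open Pool.Agent.G3.A
open Pool.Agent.G3.R (Prm)
open Pool.Agent.G3.C (Gc nv nd nv_pr)

variable {N k : ℕ}

/-- the combination of the points `f i n x` in the chart `nv v` -/
noncomputable def cX {ι : Type*} {M : ℕ} (c : ι → Fin M → ℂ → ℂ) (f : Fin M → ι → ℂ → MN N) (v : EN N) (n : ι) (x : ℂ) : EN N := ∑ i, c n i x • nv v (f i n x)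

/-- linear combinations of nearly equal curves, bounded and linear in the limit -/
structure Cmb (X : Set (EN N)) (Λ : AddSubgroup (Vd (k + 1))) (u : EN N → Vd (k + 1)) (D : Set (Vd (k + 1))) (a : Vd (k + 1)) {ι : Type*} (𝒰 : Ultrafilter ι) {M : ℕ}
    (y : Fin M → ι → Vd (k + 1)) (y₀ : Vd (k + 1)) (f : Fin M → ι → ℂ → MN N) (g : ℂ → MN N) (c : ι → Fin M → ℂ → ℂ) : Prop where
  y_lim : ∀ i, Tendsto (y i) 𝒰 (𝓝 y₀)
  f_mem : ∀ i, ∀ᶠ n in (𝒰 : Filter ι), f i n ∈ Hc X Λ u a (y i n)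
  g_mem : g ∈ Hc X Λ u a y₀
  lm : ∀ i, Lm D a 𝒰 y₀ (f i) g
  c_diff : ∀ᶠ n in (𝒰 : Filter ι), ∀ i, Differentiable ℂ (c n i)
  bdd : ∀ x : ℂ, y₀ + x • a ∉ D → ∀ v : EN N, ‖v‖ = 1 → pr v = g x → ∃ t C : ℝ, 0 < t ∧ ∀ᶠ n in (𝒰 : Filter ι), ∀ x' ∈ ball x t, ‖cX c f v n x'‖ ≤ C
  lin : ∀ x : ℂ, y₀ + x • a ∉ D → ∀ v : EN N, ‖v‖ = 1 → pr v = g x → ∀ F : EN N × Vd (k + 1) → ℂ, AnalyticAt ℂ F (v, y₀ + x • a) → ∀ ε : ℝ, 0 < ε → ∃ t : ℝ, 0 < t ∧
    ∀ᶠ n in (𝒰 : Filter ι), ∀ x' ∈ ball x t, ‖(∑ i, c n i x' * F (nv v (f i n x'), y i n + x' • a)) - fderiv ℂ F (v, y₀ + x • a) (cX c f v n x', 0)‖ ≤ ε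

/-- the maximum principle for the combinations, in the limit -/
def MdX (D : Set (Vd (k + 1))) (a : Vd (k + 1)) {ι : Type*} (𝒰 : Ultrafilter ι) {M : ℕ} (y₀ : Vd (k + 1)) (f : Fin M → ι → ℂ → MN N) (g : ℂ → MN N)
    (c : ι → Fin M → ℂ → ℂ) (δ : ℝ) : Prop :=
  ∀ δ' : ℝ, 0 < δ' → ∃ C : ℝ, 0 < C ∧ ∀ z : ℂ, y₀ + z • a ∈ Gd D δ' → ∀ g₁ : ℂ → ℂ, DifferentiableOn ℂ g₁ (ball z (1 / 2)) → ∀ b : ℝ, 0 < b →
    (∀ z' : ℂ, ‖z' - z‖ ≤ 3 / 8 → y₀ + z' • a ∈ Gd D (2 * δ) → ∀ v : EN N, ‖v‖ = 1 → pr v = g z' → ∀ w : ι → ℂ, Tendsto w 𝒰 (𝓝 z') →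
      ∀ᶠ n in (𝒰 : Filter ι), ‖cX c f v n (w n)‖ * ‖g₁ z'‖ ≤ b) →
    ∀ v : EN N, ‖v‖ = 1 → pr v = g z → ∀ᶠ n in (𝒰 : Filter ι), ‖cX c f v n z‖ * ‖g₁ z‖ ≤ C * b

/-- a chart of the fibre over `y₁` near the unit vector `v`, with the constants `K`, `c₁` -/
structure Fch {X : Set (EN N)} {Λ : AddSubgroup (Vd (k + 1))} {u : EN N → Vd (k + 1)} {J r : ℕ} (W : Fin r → Vd (k + 1) →L[ℂ] ℂ) (α : Fin J → VForm X Λ u) (y₁ : Vd (k + 1)) (v : EN N)
    (K c₁ R : ℝ) (h : EN N → ℂ) (Θ : ℂ × Vd (k + 1) → EN N) (Ψ : Fin J → EN N → ℂ) (Bj : Fin J → ℂ × Vd (k + 1) → ℂ) : Prop where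
  h_an : AnalyticAt ℂ h v
  h_bd : ‖fderiv ℂ h v‖ ≤ K
  Θ_an : AnalyticAt ℂ Θ (h v, y₁)
  Θ_bd : ‖fderiv ℂ Θ (h v, y₁) (1, 0)‖ ≤ K
  R_pos : 0 < R
  prm : ∀ j, Prm (α j) y₁ v R (Ψ j)
  B_an : ∀ j, AnalyticAt ℂ (Bj j) (h v, y₁)
  B_ub : ∀ j, ‖fderiv ℂ (Bj j) (h v, y₁) (1, 0)‖ ≤ K * Real.exp (-wt W y₁)
  B_lb : ∃ j, c₁ * Real.exp (-wt W y₁) ≤ ‖fderiv ℂ (Bj j) (h v, y₁) (1, 0)‖
  eq : ∀ y ∈ ball y₁ R, ∀ x ∈ X, x ∈ ball v R → u x - y ∈ Λ → (inner ℂ v x = (1 : ℂ) → Θ (h x, y) = x) ∧ ∀ j, Bj j (h x, y) = Ψ j x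

end Pool.Agent.G4.A

end

section

/-!
# G4 A Fch: charts of the fibres with uniform constants

`exists_fch`: for every `y₁ ∈ Gd D δ'` and every unit vector `v` over `y₁` a chart `Fch` of the fibres near `v`: a coordinate `h`, its inverse `Θ (h, y)`, primitives `Ψ j = Bj j (h, y)` of the forms `α j`; the constants `K`, `c₁` depend on `δ'` only.

Proof: `uc_base` (`G3/R/PrmU`) gives straight charts `χ` with uniform constants; `h = χ.q · 0` (or the `0`-th coordinate), `Θ (s, y) = χ.σ (cy c ρ s y)` multiplied by the scalar which makes `⟨v, ·⟩ = 1`, `Ψ j` from `UC.prm`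
(as in `exists_prm_unif`, `prim_bd`, `tc_dec`, with `DecW` in place of `Dec`), `B_lb` from `Sepa` (as in `exists_prm_inv` of `G3/R/PrmI` and `jn` of `G3/A/JN`), uniform in `y₁` by the theta factors
(`Tht Γ W (α j)`, the weight `wt W`; `Γ` is a lattice, so `y₁` may be moved to a compact set).
-/

set_option autoImplicit false

open Topology Filter Metric

namespace Pool.Agent.G4.A

open Pool.Agent.H36.BP (EN fs wd)
open Pool.Agent.H14.PP (IsCone CurveAt Tan)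
open Pool.Agent.H62.EF (MN pr)
open Pool.Agent.AD (Vd Chart Charts IsGerm)
open Pool.Agent.TG
open Pool.Agent.G3
open Pool.Agent.G3.A
open Pool.Agent.G3.C (Gc nv nd nv_pr)

variable {N k : ℕ} {X : Set (EN N)} {Λ : AddSubgroup (Vd (k + 1))} {u : EN N → Vd (k + 1)} {D B Bad : Set (Vd (k + 1))} {a : Vd (k + 1)}
  {Γ : AddSubgroup (Vd (k + 1))} {J rW : ℕ} {W : Fin rW → Vd (k + 1) →L[ℂ] ℂ} {α : Fin J → VForm X Λ u} {c₀ C₀ ρ δ : ℝ}

private theorem fch_cons_an {E : Type} [NormedAddCommGroup E] [NormedSpace ℂ E] {f : E → ℂ} {g : E → Vd (k + 1)} {x : E} (hf : AnalyticAt ℂ f x) (hg : AnalyticAt ℂ g x) :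
    AnalyticAt ℂ (fun x => (Fin.cons (f x) (g x) : Vd (k + 2))) x := by
  rw [analyticAt_pi_iff]
  intro i
  refine Fin.cases ?_ (fun j => ?_) i
  · simpa using hf
  · simpa using (analyticAt_pi_iff.1 hg) j

/-- the point of the chart with the coordinate `s` along the fibre over `y` -/
noncomputable def fcy (c : Vd (k + 1)) (ρ : ℝ) (p : ℂ × Vd (k + 1)) : Vd (k + 2) := Fin.cons p.1 ((ρ : ℂ)⁻¹ • (p.2 - c))

theorem fcy_an (c : Vd (k + 1)) (ρ : ℝ) (p : ℂ × Vd (k + 1)) : AnalyticAt ℂ (fcy c ρ) p := by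
  refine fch_cons_an analyticAt_fst ?_
  exact AnalyticAt.fun_smul analyticAt_const (analyticAt_snd.sub analyticAt_const)

theorem fcy_fd (c : Vd (k + 1)) (ρ : ℝ) (p : ℂ × Vd (k + 1)) : fderiv ℂ (fcy c ρ) p (1, 0) = Pi.single 0 1 := by
  have h1 : HasFDerivAt (fcy c ρ) (fderiv ℂ (fcy c ρ) p) p := (fcy_an c ρ p).differentiableAt.hasFDerivAt
  have hpi := hasFDerivAt_pi'.1 h1
  funext i
  refine Fin.cases ?_ (fun l => ?_) i
  · have h2 := (hpi 0).fderiv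
    have h3 : (fun x : ℂ × Vd (k + 1) => fcy c ρ x 0) = fun x => x.1 := by
      funext x
      simp [fcy]
    rw [h3] at h2
    have h4 : fderiv ℂ (fun x : ℂ × Vd (k + 1) => x.1) p = ContinuousLinearMap.fst ℂ ℂ (Vd (k + 1)) := fderiv_fst
    rw [h4] at h2
    have h5 := congrArg (fun L => L (1, 0)) h2
    simp at h5
    rw [← h5]
    simp
  · have h2 := (hpi l.succ).fderiv
    have h3 : (fun x : ℂ × Vd (k + 1) => fcy c ρ x l.succ) = fun x => (ρ : ℂ)⁻¹ * (x.2 l - c l) := by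
      funext x
      simp [fcy]
    rw [h3] at h2
    have h4 : HasFDerivAt (fun x : ℂ × Vd (k + 1) => (ρ : ℂ)⁻¹ * (x.2 l - c l))
        ((ρ : ℂ)⁻¹ • ((ContinuousLinearMap.proj (R := ℂ) (φ := fun _ : Fin (k + 1) => ℂ) l).comp (ContinuousLinearMap.snd ℂ ℂ (Vd (k + 1))))) p := by
      have h5 : HasFDerivAt (fun x : ℂ × Vd (k + 1) => x.2 l)
          ((ContinuousLinearMap.proj (R := ℂ) (φ := fun _ : Fin (k + 1) => ℂ) l).comp (ContinuousLinearMap.snd ℂ ℂ (Vd (k + 1)))) p :=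
        ((ContinuousLinearMap.proj (R := ℂ) (φ := fun _ : Fin (k + 1) => ℂ) l).comp (ContinuousLinearMap.snd ℂ ℂ (Vd (k + 1)))).hasFDerivAt
      exact (h5.sub_const (c l)).const_mul ((ρ : ℂ)⁻¹)
    rw [h4.fderiv] at h2
    have h5 := congrArg (fun L => L (1, 0)) h2
    simp at h5
    rw [← h5]
    simp

theorem fcy_q {c : Vd (k + 1)} {ρ : ℝ} (hρ : 0 < ρ) {p : Vd (k + 2)} {y : Vd (k + 1)} (h : ms c ρ p = y) : fcy c ρ (p 0, y) = p := by
  have hρ1 : (ρ : ℂ) ≠ 0 := by exact_mod_cast hρ.ne'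
  funext i
  refine Fin.cases ?_ (fun l => ?_) i
  · simp [fcy]
  · have h1 : (ρ : ℂ)⁻¹ * (y l - c l) = p l.succ := by
      rw [← h]
      simp [ms, tl]
      field_simp
    simpa [fcy] using h1

/-- the bound of the coefficient -/
theorem fch_tc {α : VForm X Λ u} {C₀ : ℝ} (hα : DecW W α C₀) {χ : Chart (k + 2) X} {υ : Vd (k + 2) → Vd (k + 1)} {p : Vd (k + 2)}
    (hp : p ∈ ball (0 : Vd (k + 2)) 2) (hl : u (χ.σ p) - υ p ∈ Λ) {K : ℝ} (hK : 0 < K) (hb : ∀ i, ‖fderiv ℂ χ.σ p (Pi.single i 1)‖ ≤ K * ‖χ.σ p‖) :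
    ‖tc α χ υ p‖ ≤ K ^ (k + 2) * (C₀ * Real.exp (-wt W (υ p))) := by
  have hKC : (K : ℂ) ≠ 0 := by exact_mod_cast hK.ne'
  set t : Fin (k + 2) → EN N := fun i => fderiv ℂ χ.σ p (Pi.single i ((K : ℂ)⁻¹)) with ht
  have hts : ∀ i, t i = (K : ℂ)⁻¹ • fderiv ℂ χ.σ p (Pi.single i 1) := fun i => by
    rw [ht]
    show fderiv ℂ χ.σ p (Pi.single i ((K : ℂ)⁻¹)) = _
    rw [← map_smul]
    congr 1
    rw [← Pi.single_smul, smul_eq_mul, mul_one]
  have htan : ∀ i, Tan X (χ.σ p) (t i) := fun i => tan_sigma χ hp _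
  have h1 := hα (υ p) (χ.σ p) (χ.σ_mem p hp).1 hl t htan (fun i => by
    rw [hts, norm_smul, norm_inv, Complex.norm_real, Real.norm_of_nonneg hK.le, inv_mul_le_iff₀ hK]
    exact hb i)
  have h2 := α.det (υ p) (χ.σ p) (χ.σ_mem p hp).1 hl t htan ((K : ℂ) • (1 : Matrix (Fin (k + 2)) (Fin (k + 2)) ℂ))
  have h3 : (fun i => ∑ j, ((K : ℂ) • (1 : Matrix (Fin (k + 2)) (Fin (k + 2)) ℂ)) i j • t j) = fun i => fderiv ℂ χ.σ p (Pi.single i 1) := by
    funext i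
    rw [Finset.sum_eq_single i]
    · rw [Matrix.smul_apply, Matrix.one_apply_eq, smul_eq_mul, mul_one, hts, smul_smul, mul_inv_cancel₀ hKC, one_smul]
    · intro j _ hj
      rw [Matrix.smul_apply, Matrix.one_apply_ne hj.symm, smul_zero, zero_smul]
    · intro hi
      exact absurd (Finset.mem_univ i) hi
  rw [h3, Matrix.det_smul, Matrix.det_one, mul_one, Fintype.card_fin] at h2
  have h4 : tc α χ υ p = (K : ℂ) ^ (k + 2) * α.toFun (υ p) (χ.σ p) t := h2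
  rw [h4, norm_mul, norm_pow, Complex.norm_real, Real.norm_of_nonneg hK.le]
  exact mul_le_mul_of_nonneg_left h1 (pow_nonneg hK.le _)

end Pool.Agent.G4.A

end

section

/-!
# G3 R PrmU: local primitives with uniform constants

As `PrmA`, with a uniform radius and `‖Ψ x‖ ≤ C exp (-c |y₀|²)`, for `y₀ ∈ Gd D δ`.  `UC`: a straight chart with constants `R`, `K` for the point `v` over `y₀`; `uc_base`: the straight chart at `(w, v₀)` works for all near points;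
`uc_unif`: uniform constants by compactness (bounded `y₀`, ultrafilter) and translation.  Bound: `‖A p‖ ≤ sup ‖tc α χ (ms c ρ)‖` (mean value inequality from `IsPrim.der`, `IsPrim.zero`) and
`‖tc α χ (ms c ρ) p‖ ≤ C₀ K ^ (k + 2) exp (-c₀ ‖ms c ρ p‖²)` by `Dec` and `VForm.det`, `‖ms c ρ p‖ ≥ ‖y₀‖ - K`.
-/

set_option autoImplicit false

open Topology Filter Metric

namespace Pool.Agent.G3.R

open Pool.Agent.H36.BP (EN wd)
open Pool.Agent.H14.PP (IsCone CurveAt Tan)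
open Pool.Agent.H62.EF (MN pr)
open Pool.Agent.AD (Vd Chart Charts)
open Pool.Agent.TG

variable {N k : ℕ} {X : Set (EN N)} {Λ : AddSubgroup (Vd (k + 1))} {u : EN N → Vd (k + 1)} {D B Bad : Set (Vd (k + 1))} {a : Vd (k + 1)}

/-- a straight chart with uniform constants for the point `v` over `y₀` -/
structure UC (Λ : AddSubgroup (Vd (k + 1))) (u : EN N → Vd (k + 1)) (χ : Chart (k + 2) X) (c : Vd (k + 1)) (ρ : ℝ) (y₀ : Vd (k + 1)) (v : EN N)
    (R K : ℝ) : Prop where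
  str : Str Λ u χ c ρ
  mem : ∀ x ∈ ball v R, x ∈ χ.U ∧ χ.q x ∈ closedBall (0 : Vd (k + 2)) 1
  cap : ∀ y ∈ ball y₀ R, ∀ x ∈ X, x ∈ ball v R → u x - y ∈ Λ → ms c ρ (χ.q x) = y
  path : ∀ y ∈ ball y₀ R, ∀ x ∈ X, x ∈ ball v R → ∃ ε : ℝ, 0 < ε ∧ Cap Λ u χ c ρ y (pr x) (3 * ε) ∧
    ∀ x' ∈ X, x' ∈ ball v R → ∀ θ ∈ Set.Icc (0 : ℝ) 1, dist (pr (χ.σ (χ.q x + (θ : ℂ) • (χ.q x' - χ.q x)))) (pr x) ≤ ε
  bd : ∀ p ∈ closedBall (0 : Vd (k + 2)) 1, ∀ i, ‖fderiv ℂ χ.σ p (Pi.single i 1)‖ ≤ K * ‖χ.σ p‖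
  rho : 1 ≤ K * ρ
  near : ∀ p ∈ closedBall (0 : Vd (k + 2)) 1, ‖ms c ρ p - y₀‖ ≤ K

theorem UC.mono {χ : Chart (k + 2) X} {c : Vd (k + 1)} {ρ : ℝ} {y₀ : Vd (k + 1)} {v : EN N} {R K R' K' : ℝ} (h : UC Λ u χ c ρ y₀ v R K)
    (hR : R' ≤ R) (hK : K ≤ K') : UC Λ u χ c ρ y₀ v R' K' where
  str := h.str
  mem := fun x hx => h.mem x (ball_subset_ball hR hx)
  cap := fun y hy x hX hx => h.cap y (ball_subset_ball hR hy) x hX (ball_subset_ball hR hx)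
  path := fun y hy x hX hx => by
    obtain ⟨ε, h1, h2, h3⟩ := h.path y (ball_subset_ball hR hy) x hX (ball_subset_ball hR hx)
    exact ⟨ε, h1, h2, fun x' hX' hx' => h3 x' hX' (ball_subset_ball hR hx')⟩
  bd := fun p hp i => (h.bd p hp i).trans (mul_le_mul_of_nonneg_right hK (norm_nonneg _))
  rho := h.rho.trans (mul_le_mul_of_nonneg_right hK h.str.pos.le)
  near := fun p hp => (h.near p hp).trans hK

theorem UC.add {χ : Chart (k + 2) X} {c : Vd (k + 1)} {ρ : ℝ} {y₀ : Vd (k + 1)} {v : EN N} {R K : ℝ} (h : UC Λ u χ c ρ y₀ v R K)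
    {l : Vd (k + 1)} (hl : l ∈ Λ) : UC Λ u χ (c + l) ρ (y₀ + l) v R K := by
  have hb : ∀ y ∈ ball (y₀ + l) R, y - l ∈ ball y₀ R := by
    intro y hy
    rw [mem_ball, dist_eq_norm] at hy ⊢
    have e : y - l - y₀ = y - (y₀ + l) := by abel
    rwa [e]
  have hms : ∀ p, ms (c + l) ρ p = ms c ρ p + l := fun p => by
    unfold ms
    abel
  refine ⟨h.str.add hl, h.mem, fun y hy x hX hx hxy => ?_, fun y hy x hX hx => ?_, h.bd, h.rho, fun p hp => ?_⟩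
  · have h1 : u x - (y - l) ∈ Λ := by
      have e : u x - (y - l) = u x - y + l := by abel
      rw [e]
      exact Λ.add_mem hxy hl
    rw [hms, h.cap _ (hb y hy) x hX hx h1]
    abel
  · obtain ⟨ε, h1, h2, h3⟩ := h.path _ (hb y hy) x hX hx
    refine ⟨ε, h1, ?_, h3⟩
    have h4 := h2.add hl
    rwa [sub_add_cancel] at h4
  · have h1 := h.near p hp
    have e : ms (c + l) ρ p - (y₀ + l) = ms c ρ p - y₀ := by
      rw [hms]
      abel
    rwa [e]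

theorem prmu_pr_q {χ : Chart (k + 2) X} {x : EN N} (hx : x ∈ X) (hU : x ∈ χ.U) : pr (χ.σ (χ.q x)) = pr x := by
  obtain ⟨hb, c, hc, e⟩ := χ.surj x hx hU
  conv_rhs => rw [e]
  exact (Pool.Agent.H62.EF.pr_smul _ hc).symm

end Pool.Agent.G3.R

end
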