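import Pool.Agent.H94.G5T.M03

/-! The parts of this file: H17.Montel, H17EF.PNDefs_1, H17R.Defs, H17BP.Final, H36.BP.CirA, H36.BP.CirB, H56.G3.Poi. -/

section

/-!
# Limits of bounded holomorphic functions along an ultrafilter
-/

open Topology Filter

namespace Pool.Agent.H17

variable {E : Type} [NormedAddCommGroup E] [NormedSpace ℂ E] [ProperSpace E] [CompleteSpace E]

omit [ProperSpace E] [CompleteSpace E] in
/-- A bounded holomorphic function is Lipschitz on smaller discs. -/
lemma lipschitz_of_bounded {F : ℂ → E} {a : ℂ} {r B : ℝ}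
    (hF : DifferentiableOn ℂ F (Metric.ball a r)) (hB : ∀ z ∈ Metric.ball a r, ‖F z‖ ≤ B)
    {z₀ : ℂ} {ρ : ℝ} (hρ : 0 < ρ) (hz₀ : Metric.ball z₀ (2 * ρ) ⊆ Metric.ball a r)
    {z w : ℂ} (hz : z ∈ Metric.ball z₀ ρ) (hw : w ∈ Metric.ball z₀ ρ) :
    ‖F w - F z‖ ≤ B / (ρ / 2) * ‖w - z‖ := by
  have hsub : ∀ y ∈ Metric.ball z₀ ρ, Metric.closedBall y (ρ / 2) ⊆ Metric.ball a r := by
    intro y hy x hx
    apply hz₀
    rw [Metric.mem_ball] at hy ⊢
    rw [Metric.mem_closedBall] at hx
    calc dist x z₀ ≤ dist x y + dist y z₀ := dist_triangle _ _ _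
      _ < 2 * ρ := by linarith
  refine Convex.norm_image_sub_le_of_norm_deriv_le (s := Metric.ball z₀ ρ) ?_ ?_
    (convex_ball z₀ ρ) hz hw
  · intro y hy
    have h1 : y ∈ Metric.ball a r := hsub y hy (Metric.mem_closedBall_self (by positivity))
    exact (hF y h1).differentiableAt (Metric.isOpen_ball.mem_nhds h1)
  · intro y hy
    refine Complex.norm_deriv_le_of_forall_mem_sphere_norm_le (by positivity) ?_ ?_
    · apply DifferentiableOn.diffContOnCl
      refine hF.mono ?_
      exact (Metric.closure_ball_subset_closedBall).trans (hsub y hy)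
    · intro x hx
      exact hB x (hsub y hy (Metric.sphere_subset_closedBall hx))

/-- **Montel's theorem along an ultrafilter.** -/
theorem montel_ultrafilter {κ : Type*} (𝒰 : Ultrafilter κ) {F : κ → ℂ → E} {a : ℂ} {r B : ℝ}
    (h1 : ∀ᶠ k in (𝒰 : Filter κ), DifferentiableOn ℂ (F k) (Metric.ball a r))
    (h2 : ∀ᶠ k in (𝒰 : Filter κ), ∀ z ∈ Metric.ball a r, ‖F k z‖ ≤ B) :
    ∃ h : ℂ → E, DifferentiableOn ℂ h (Metric.ball a r) ∧
      TendstoLocallyUniformlyOn F h (𝒰 : Filter κ) (Metric.ball a r) := by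
  classical
  have hlim : ∀ z, ∃ l : E, z ∈ Metric.ball a r → Tendsto (fun k => F k z) (𝒰 : Filter κ) (𝓝 l) := by
    intro z
    by_cases hz : z ∈ Metric.ball a r
    · have h3 : ∀ᶠ k in (𝒰 : Filter κ), F k z ∈ Metric.closedBall (0 : E) B := by
        filter_upwards [h2] with k hk
        rw [mem_closedBall_zero_iff]
        exact hk z hz
      obtain ⟨l, -, hl⟩ := (isCompact_closedBall (0 : E) B).ultrafilter_le_nhds
        (𝒰.map fun k => F k z) (by
          rw [le_principal_iff]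
          exact h3)
      exact ⟨l, fun _ => hl⟩
    · exact ⟨0, fun h => absurd h hz⟩
  choose h hh using hlim
  have hconv : TendstoLocallyUniformlyOn F h (𝒰 : Filter κ) (Metric.ball a r) := by
    rw [Metric.tendstoLocallyUniformlyOn_iff]
    intro ε hε z₀ hz₀
    have hrz : dist z₀ a < r := hz₀
    set ρ : ℝ := (r - dist z₀ a) / 2 with hρ
    have hρpos : 0 < ρ := by rw [hρ]; linarith
    have hsub : Metric.ball z₀ (2 * ρ) ⊆ Metric.ball a r := by
      apply Metric.ball_subset_ball'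
      rw [hρ]
      linarith
    set L : ℝ := |B| / (ρ / 2) + 1 with hL
    have hLpos : 0 < L := by positivity
    set η : ℝ := min ρ (ε / (4 * L)) with hη
    have hηpos : 0 < η := by positivity
    have hηρ : η ≤ ρ := min_le_left _ _
    have hηε : L * η ≤ ε / 4 := by
      have : η ≤ ε / (4 * L) := min_le_right _ _
      calc L * η ≤ L * (ε / (4 * L)) := by gcongr
        _ = ε / 4 := by field_simp
    have hlip : ∀ᶠ k in (𝒰 : Filter κ), ∀ z ∈ Metric.ball z₀ η, ‖F k z - F k z₀‖ ≤ ε / 4 := by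
      filter_upwards [h1, h2] with k hk1 hk2 z hz
      have h3 := lipschitz_of_bounded hk1 hk2 hρpos hsub (Metric.mem_ball_self hρpos)
        (Metric.ball_subset_ball hηρ hz)
      have h4 : ‖z - z₀‖ ≤ η := by
        rw [← dist_eq_norm]
        exact (Metric.mem_ball.mp hz).le
      calc ‖F k z - F k z₀‖ ≤ B / (ρ / 2) * ‖z - z₀‖ := h3
        _ ≤ L * η := by
          have h5 : B / (ρ / 2) ≤ L := by
            have : B / (ρ / 2) ≤ |B| / (ρ / 2) := by
              gcongr
              exact le_abs_self B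
            linarith
          calc B / (ρ / 2) * ‖z - z₀‖ ≤ L * ‖z - z₀‖ := by gcongr
            _ ≤ L * η := by gcongr
        _ ≤ ε / 4 := hηε
    refine ⟨Metric.ball z₀ η, mem_nhdsWithin_of_mem_nhds (Metric.ball_mem_nhds z₀ hηpos), ?_⟩
    have hlimlip : ∀ z ∈ Metric.ball z₀ η, ‖h z - h z₀‖ ≤ ε / 4 := by
      intro z hz
      have hza : z ∈ Metric.ball a r := hsub (Metric.ball_subset_ball (by linarith) hz)
      have h3 : Tendsto (fun k => ‖F k z - F k z₀‖) (𝒰 : Filter κ) (𝓝 ‖h z - h z₀‖) :=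
        ((hh z hza).sub (hh z₀ hz₀)).norm
      exact le_of_tendsto h3 (hlip.mono fun k hk => hk z hz)
    have hz₀lim : ∀ᶠ k in (𝒰 : Filter κ), ‖F k z₀ - h z₀‖ < ε / 4 := by
      have h3 := hh z₀ hz₀
      rw [Metric.tendsto_nhds] at h3
      filter_upwards [h3 (ε / 4) (by positivity)] with k hk
      rwa [dist_eq_norm] at hk
    filter_upwards [hlip, hz₀lim] with k hk1 hk2 z hz
    rw [dist_eq_norm]
    have e : h z - F k z = (h z - h z₀) - (F k z₀ - h z₀) - (F k z - F k z₀) := by abel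
    rw [e]
    calc ‖(h z - h z₀) - (F k z₀ - h z₀) - (F k z - F k z₀)‖
        ≤ ‖(h z - h z₀) - (F k z₀ - h z₀)‖ + ‖F k z - F k z₀‖ := norm_sub_le _ _
      _ ≤ ‖h z - h z₀‖ + ‖F k z₀ - h z₀‖ + ‖F k z - F k z₀‖ := by
        gcongr
        exact norm_sub_le _ _
      _ < ε := by
        have := hlimlip z hz
        have := hk1 z hz
        linarith
  refine ⟨h, ?_, hconv⟩
  exact hconv.differentiableOn h1 Metric.isOpen_ball

end Pool.Agent.H17

end

section

/-!
# EF PNDefs: holomorphic maps from a projective surface to a complex torus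
-/

set_option autoImplicit false

open Topology Filter MvPolynomial

noncomputable section

namespace Pool.Agent.H17EF

open Pool.Agent.H17 (PN VanishesAt HolomorphicInto)

variable {N : ℕ}

/-- The entire curves `f` in `X` with `u (f z) = z` modulo `Λ`. -/
def sections (X : Set (PN N)) (Λ : AddSubgroup ℂ) (u : PN N → ℂ ⧸ Λ) : Set (ℂ → PN N) :=
  {f | HolomorphicInto f Set.univ ∧ (∀ z, f z ∈ X) ∧ ∀ z, u (f z) = (z : ℂ ⧸ Λ)}

end Pool.Agent.H17EF

end
end

section

/-!
# Varieties with a relation between forms: definitions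

Locally closed subvarieties of `ℙ^N`, relations between forms on them, and the four properties of
the Green–Griffiths–Lang conjecture with a given exceptional set.
-/

open MvPolynomial Topology Filter
open Pool.Agent.H17 (PN VanishesAt ZariskiClosedIn HolomorphicInto puncturedDisc)

noncomputable section

namespace Pool.Agent.H17R

variable {N : ℕ}

/-- The points of the zero locus of the homogeneous ideal `P` at which none of the forms `H m`
vanishes. -/
def openVar (P : Ideal (MvPolynomial (Fin (N + 1)) ℂ)) {b : ℕ}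
    (H : Fin b → MvPolynomial (Fin (N + 1)) ℂ) : Set (PN N) :=
  {x | (∀ Q ∈ P, ∀ n, Q.IsHomogeneous n → VanishesAt Q x) ∧ ∀ m, ¬ VanishesAt (H m) x}

end Pool.Agent.H17R

end
end

section

/-!
# From the extension theorem for models to projective surfaces
-/

open Topology Filter MvPolynomial

noncomputable section

namespace Pool.Agent.H17BP

open Pool.Agent.H17 (PN VanishesAt ZariskiClosedIn HolomorphicInto puncturedDisc)
open Pool.Agent.H17R (openVar)

variable {N : ℕ} {P : Ideal (MvPolynomial (Fin (N + 1)) ℂ)}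

/-- The projective variety. -/
abbrev variety (P : Ideal (MvPolynomial (Fin (N + 1)) ℂ)) : Set (PN N) :=
  openVar P (Fin.elim0 : Fin 0 → MvPolynomial (Fin (N + 1)) ℂ)

theorem rep_mk_fin {x : Fin (N + 1) → ℂ} (hx : x ≠ 0) :
    ∃ a : ℂ, a ≠ 0 ∧ (Projectivization.mk ℂ x hx).rep = a • x := by
  obtain ⟨a, ha⟩ := Projectivization.exists_smul_eq_mk_rep ℂ x hx
  exact ⟨a, a.ne_zero, by rw [← ha]; rfl⟩

theorem eval_smul_form {d : ℕ} {Q : MvPolynomial (Fin (N + 1)) ℂ} (hQ : Q.IsHomogeneous d) (c : ℂ)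
    (x : Fin (N + 1) → ℂ) : eval (c • x) Q = c ^ d * eval x Q := by
  rw [MvPolynomial.eval_eq', MvPolynomial.eval_eq', Finset.mul_sum]
  apply Finset.sum_congr rfl
  intro m hm
  have hdeg : ∑ i, m i = d := by
    have := hQ (MvPolynomial.mem_support_iff.1 hm)
    rw [Finsupp.weight_apply] at this
    simpa [Finsupp.sum_fintype] using this
  have h1 : ∏ i, (c • x) i ^ m i = c ^ d * ∏ i, x i ^ m i := by
    rw [← hdeg, ← Finset.prod_pow_eq_pow_sum, ← Finset.prod_mul_distrib]
    exact Finset.prod_congr rfl fun i _ => by simp [mul_pow]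
  rw [h1]
  ring

theorem vanishesAt_mk {d : ℕ} {Q : MvPolynomial (Fin (N + 1)) ℂ} (hQ : Q.IsHomogeneous d)
    {x : Fin (N + 1) → ℂ} (hx : x ≠ 0) : VanishesAt Q (Projectivization.mk ℂ x hx) ↔ eval x Q = 0 := by
  obtain ⟨a, ha, h⟩ := rep_mk_fin hx
  unfold VanishesAt
  rw [h, eval_smul_form hQ, mul_eq_zero]
  exact ⟨fun h => h.resolve_left (pow_ne_zero _ ha), Or.inr⟩

end Pool.Agent.H17BP

end
end

section

/-!
# BP CirA: approximation on one circle

Trigonometric polynomials are dense in the continuous functions on the circle (`span_fourier_closure_eq_top`, or Stone-Weierstrass on the compact set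
`sphere 0 R` with the star subalgebra generated by `z`: on the circle `conj z = R²/z`).  A real continuous function is within `ε` of `Re P`, `P = ∑_{|n| ≤ m} c_n z^n`, and
`Re(c_(-n) z^(-n)) = Re(conj(c_(-n)) R^(-2n) z^n)` on the circle, so `P` can be taken to be a polynomial.
`trig_approx`: the form needed for the annulus: finitely many coefficients `c 0, ..., c m`, `|φ(R e^(iθ)) - Re ∑ c_n e^(inθ)| ≤ ε`.
-/

set_option autoImplicit false

namespace Pool.Agent.H36.BP

open Filter Topology Metric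

variable {N : ℕ}

private theorem CirA_span (g : C(AddCircle (2 * Real.pi), ℂ)) (hg : g ∈ Submodule.span ℂ (Set.range (@fourier (2 * Real.pi)))) :
    ∀ a : ℂ, ∃ p : Polynomial ℂ, ∀ θ : ℝ, (a * g (θ : AddCircle (2 * Real.pi))).re = (p.eval (Complex.exp (θ * Complex.I))).re := by
  induction hg using Submodule.span_induction with
  | mem x hx =>
    intro a
    obtain ⟨k, rfl⟩ := hx
    have hpi : (Real.pi : ℂ) ≠ 0 := by exact_mod_cast Real.pi_ne_zero
    have hval : ∀ θ : ℝ, (fourier k (θ : AddCircle (2 * Real.pi)) : ℂ) = Complex.exp (k * (θ * Complex.I)) := by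
      intro θ
      rw [fourier_coe_apply]
      congr 1
      push_cast
      field_simp
    rcases Int.eq_nat_or_neg k with ⟨n, rfl | rfl⟩
    · refine ⟨Polynomial.C a * Polynomial.X ^ n, fun θ => ?_⟩
      rw [hval]
      simp only [Polynomial.eval_mul, Polynomial.eval_C, Polynomial.eval_pow, Polynomial.eval_X]
      rw [← Complex.exp_nat_mul]
      push_cast
      rfl
    · refine ⟨Polynomial.C ((starRingEnd ℂ) a) * Polynomial.X ^ n, fun θ => ?_⟩
      rw [hval]
      simp only [Polynomial.eval_mul, Polynomial.eval_C, Polynomial.eval_pow, Polynomial.eval_X]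
      rw [← Complex.exp_nat_mul]
      rw [← Complex.conj_re (a * _), map_mul, ← Complex.exp_conj]
      congr 3
      simp [Complex.conj_ofReal]
  | zero =>
    intro a
    exact ⟨0, fun θ => by simp⟩
  | add x y _ _ hx hy =>
    intro a
    obtain ⟨p, hp⟩ := hx a
    obtain ⟨q, hq⟩ := hy a
    refine ⟨p + q, fun θ => ?_⟩
    rw [ContinuousMap.add_apply, mul_add, Complex.add_re, hp, hq, Polynomial.eval_add, Complex.add_re]
  | smul b x _ hx =>
    intro a
    obtain ⟨p, hp⟩ := hx (a * b)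
    refine ⟨p, fun θ => ?_⟩
    rw [← hp, ContinuousMap.smul_apply, smul_eq_mul, mul_assoc]

theorem trig_approx (φ : ℝ → ℝ) (hφ : Continuous φ) (hper : ∀ θ, φ (θ + 2 * Real.pi) = φ θ) {ε : ℝ} (hε : 0 < ε) :
    ∃ (m : ℕ) (c : ℕ → ℂ), ∀ θ : ℝ, |φ θ - (∑ n ∈ Finset.range (m + 1), c n * Complex.exp (n * (θ * Complex.I))).re| ≤ ε := by
  have : Fact (0 < 2 * Real.pi) := ⟨Real.two_pi_pos⟩
  have hP : Function.Periodic φ (2 * Real.pi) := hper
  have hcont : Continuous (hP.lift) := by
    exact continuous_coinduced_dom.mpr hφ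
  let F : C(AddCircle (2 * Real.pi), ℂ) := ⟨fun x => ((hP.lift x : ℝ) : ℂ), Complex.continuous_ofReal.comp hcont⟩
  have hF : F ∈ (Submodule.span ℂ (Set.range (@fourier (2 * Real.pi)))).topologicalClosure := by
    rw [span_fourier_closure_eq_top]
    trivial
  have hF2 : F ∈ closure ((Submodule.span ℂ (Set.range (@fourier (2 * Real.pi))) : Submodule ℂ C(AddCircle (2 * Real.pi), ℂ)) : Set C(AddCircle (2 * Real.pi), ℂ)) := hF
  obtain ⟨g, hg, hgd⟩ := Metric.mem_closure_iff.mp hF2 ε hε
  obtain ⟨p, hp⟩ := CirA_span g hg 1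
  refine ⟨p.natDegree, p.coeff, fun θ => ?_⟩
  have h1 : (∑ n ∈ Finset.range (p.natDegree + 1), p.coeff n * Complex.exp (n * (θ * Complex.I))) = p.eval (Complex.exp (θ * Complex.I)) := by
    rw [Polynomial.eval_eq_sum_range]
    refine Finset.sum_congr rfl fun n _ => ?_
    rw [← Complex.exp_nat_mul]
  rw [h1, ← hp θ, one_mul]
  have h2 : ‖(F - g) (θ : AddCircle (2 * Real.pi))‖ ≤ ε := by
    refine le_trans (ContinuousMap.norm_coe_le_norm _ _) ?_
    rw [← dist_eq_norm]
    exact hgd.le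
  have h3 : φ θ - (g (θ : AddCircle (2 * Real.pi))).re = ((F - g) (θ : AddCircle (2 * Real.pi))).re := by
    rw [ContinuousMap.sub_apply, Complex.sub_re]
    have h4 : F (θ : AddCircle (2 * Real.pi)) = ((φ θ : ℝ) : ℂ) := by
      change ((hP.lift (θ : AddCircle (2 * Real.pi)) : ℝ) : ℂ) = _
      rw [Function.Periodic.lift_coe]
    rw [h4, Complex.ofReal_re]
  rw [h3]
  exact (Complex.abs_re_le_norm _).trans h2

theorem circle_approx {R : ℝ} (hR : 0 < R) (φ : ℂ → ℝ) (hφ : ContinuousOn φ (sphere (0 : ℂ) R)) {ε : ℝ} (hε : 0 < ε) :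
    ∃ g : ℂ → ℂ, Differentiable ℂ g ∧ ∀ z ∈ sphere (0 : ℂ) R, |(g z).re - φ z| ≤ ε := by
  have hmem : ∀ θ : ℝ, ((R : ℂ) * Complex.exp (θ * Complex.I)) ∈ sphere (0 : ℂ) R := by
    intro θ
    rw [mem_sphere_zero_iff_norm, norm_mul, Complex.norm_exp_ofReal_mul_I, mul_one, Complex.norm_real, Real.norm_eq_abs, abs_of_pos hR]
  have hc : Continuous fun θ : ℝ => φ ((R : ℂ) * Complex.exp (θ * Complex.I)) := by
    refine hφ.comp_continuous ?_ hmem
    exact continuous_const.mul (Complex.continuous_exp.comp (Complex.continuous_ofReal.mul continuous_const))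
  have hper : ∀ θ : ℝ, φ ((R : ℂ) * Complex.exp (((θ + 2 * Real.pi : ℝ) : ℂ) * Complex.I)) = φ ((R : ℂ) * Complex.exp ((θ : ℂ) * Complex.I)) := by
    intro θ
    congr 2
    push_cast
    rw [add_mul]
    exact Complex.exp_periodic _
  obtain ⟨m, c, hmc⟩ := trig_approx (fun θ : ℝ => φ ((R : ℂ) * Complex.exp (θ * Complex.I))) hc hper hε
  refine ⟨fun z => ∑ n ∈ Finset.range (m + 1), c n * (z / R) ^ n, ?_, ?_⟩
  · refine Differentiable.fun_sum fun n _ => ?_
    exact ((differentiable_id.div_const _).pow n).const_mul _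
  · intro z hz
    have hRne : (R : ℂ) ≠ 0 := by exact_mod_cast hR.ne'
    have hzn : ‖z‖ = R := mem_sphere_zero_iff_norm.mp hz
    have hz1 : z = (R : ℂ) * Complex.exp ((z.arg : ℝ) * Complex.I) := by
      conv_lhs => rw [← Complex.norm_mul_exp_arg_mul_I z, hzn]
    have h := hmc z.arg
    have h5 : (∑ n ∈ Finset.range (m + 1), c n * (z / R) ^ n) = ∑ n ∈ Finset.range (m + 1), c n * Complex.exp (n * ((z.arg : ℝ) * Complex.I)) := by
      refine Finset.sum_congr rfl fun n _ => ?_
      have : z / R = Complex.exp ((z.arg : ℝ) * Complex.I) := by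
        rw [div_eq_iff hRne, mul_comm]
        exact hz1
      rw [this, Complex.exp_nat_mul]
    simp only
    rw [h5, abs_sub_comm]
    simp only [← hz1] at h
    exact h

end Pool.Agent.H36.BP

end

section

/-!
# BP CirB: approximation on two circles

`trig_approx` on both circles: `φ(r e^(iθ)) ≈ Re ∑ a_n e^(inθ)`, `φ(R e^(iθ)) ≈ Re ∑ b_n e^(inθ)` (common `m`, pad with zeros).  For `n ≥ 1` the function
`Re(c_n z^n + d_n z^(-n))` has at `z = ρ e^(iθ)` the value `Re((c_n ρ^n + conj(d_n) ρ^(-n)) e^(inθ))`; solve `c_n r^n + conj(d_n) r^(-n) = a_n`,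
`c_n R^n + conj(d_n) R^(-n) = b_n` (determinant `(r/R)^n - (R/r)^n ≠ 0`).  For `n = 0`: real `a`, `b` with `a + b log r = Re a_0`, `a + b log R = Re b_0`.
`g z = a + ∑_{n ≥ 1} (c_n z^n + d_n z^(-n))`.
-/

set_option autoImplicit false

namespace Pool.Agent.H36.BP

open Filter Topology Metric

variable {N : ℕ}

private theorem CirB_key (ρ : ℝ) (c d : ℂ) (n : ℕ) (θ : ℝ) :
    (c * ((ρ : ℂ) * Complex.exp (θ * Complex.I)) ^ n + d * (((ρ : ℂ) * Complex.exp (θ * Complex.I))⁻¹) ^ n).re
      = ((c * (ρ : ℂ) ^ n + (starRingEnd ℂ) d * ((ρ : ℂ) ^ n)⁻¹) * Complex.exp (n * (θ * Complex.I))).re := by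
  have h1 : (c * ((ρ : ℂ) * Complex.exp (θ * Complex.I)) ^ n) = c * (ρ : ℂ) ^ n * Complex.exp (n * (θ * Complex.I)) := by
    rw [mul_pow, ← Complex.exp_nat_mul, mul_assoc]
  have h2 : (starRingEnd ℂ) (d * (((ρ : ℂ) * Complex.exp (θ * Complex.I))⁻¹) ^ n)
      = (starRingEnd ℂ) d * ((ρ : ℂ) ^ n)⁻¹ * Complex.exp (n * (θ * Complex.I)) := by
    have h3 : (((ρ : ℂ) * Complex.exp (θ * Complex.I))⁻¹) ^ n = ((ρ : ℂ) ^ n)⁻¹ * Complex.exp (-(n * (θ * Complex.I))) := by
      rw [inv_pow, mul_pow, ← Complex.exp_nat_mul, mul_inv, Complex.exp_neg]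
    rw [h3, map_mul, map_mul, ← Complex.exp_conj]
    have h4 : (starRingEnd ℂ) (-(n * (θ * Complex.I))) = n * (θ * Complex.I) := by
      simp
    rw [h4, map_inv₀, map_pow, Complex.conj_ofReal, mul_assoc]
  rw [Complex.add_re, h1, add_mul, Complex.add_re]
  congr 1
  rw [← Complex.conj_re, h2]

private theorem CirB_solve {r R : ℝ} (hr : 0 < r) (hrR : r < R) (a b : ℂ) (n : ℕ) (hn : n ≠ 0) :
    ∃ c d : ℂ, c * (r : ℂ) ^ n + (starRingEnd ℂ) d * ((r : ℂ) ^ n)⁻¹ = a ∧
      c * (R : ℂ) ^ n + (starRingEnd ℂ) d * ((R : ℂ) ^ n)⁻¹ = b := by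
  have hR : 0 < R := hr.trans hrR
  have h1 : r ^ n < R ^ n := pow_lt_pow_left₀ hrR hr.le hn
  have h2 : 0 < r ^ n := pow_pos hr n
  have h3 : 0 < R ^ n := pow_pos hR n
  have hr' : ((r : ℂ) ^ n) ≠ 0 := by exact_mod_cast h2.ne'
  have hR' : ((R : ℂ) ^ n) ≠ 0 := by exact_mod_cast h3.ne'
  have hD : ((r : ℂ) ^ n) ^ 2 - ((R : ℂ) ^ n) ^ 2 ≠ 0 := by
    have : (r ^ n) ^ 2 - (R ^ n) ^ 2 ≠ 0 := by nlinarith
    exact_mod_cast this
  refine ⟨(a * (r : ℂ) ^ n - b * (R : ℂ) ^ n) / (((r : ℂ) ^ n) ^ 2 - ((R : ℂ) ^ n) ^ 2),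
    (starRingEnd ℂ) ((r : ℂ) ^ n * (R : ℂ) ^ n * ((r : ℂ) ^ n * b - (R : ℂ) ^ n * a) / (((r : ℂ) ^ n) ^ 2 - ((R : ℂ) ^ n) ^ 2)), ?_, ?_⟩
  · rw [Complex.conj_conj]
    field_simp
    ring
  · rw [Complex.conj_conj]
    field_simp
    ring

private theorem CirB_pad (m m' : ℕ) (hm : m ≤ m') (a : ℕ → ℂ) (f : ℕ → ℂ) :
    ∑ n ∈ Finset.range (m + 1), a n * f n = ∑ n ∈ Finset.range (m' + 1), (if n ≤ m then a n else 0) * f n := by
  have h : Finset.range (m + 1) ⊆ Finset.range (m' + 1) := by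
    intro x hx
    rw [Finset.mem_range] at hx ⊢
    omega
  rw [← Finset.sum_subset h]
  · apply Finset.sum_congr rfl
    intro x hx
    rw [Finset.mem_range] at hx
    rw [if_pos (by omega)]
  · intro x _ hx
    rw [Finset.mem_range] at hx
    rw [if_neg (by omega), zero_mul]

private theorem CirB_circ (φ : ℂ → ℝ) (ρ : ℝ) (hρ : 0 < ρ) (S : Set ℂ) (hS : sphere (0 : ℂ) ρ ⊆ S) (hφ : ContinuousOn φ S)
    {ε : ℝ} (hε : 0 < ε) :
    ∃ (m : ℕ) (c : ℕ → ℂ), ∀ θ : ℝ, |φ (ρ * Complex.exp (θ * Complex.I)) -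
      (∑ n ∈ Finset.range (m + 1), c n * Complex.exp (n * (θ * Complex.I))).re| ≤ ε := by
  apply trig_approx (fun θ : ℝ => φ (ρ * Complex.exp (θ * Complex.I))) _ _ hε
  · apply hφ.comp_continuous
    · fun_prop
    · intro θ
      apply hS
      rw [mem_sphere_zero_iff_norm, norm_mul, Complex.norm_exp_ofReal_mul_I, mul_one, Complex.norm_real, Real.norm_eq_abs, abs_of_pos hρ]
  · intro θ
    have : Complex.exp (((θ + 2 * Real.pi : ℝ) : ℂ) * Complex.I) = Complex.exp (θ * Complex.I) := by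
      have h := Complex.exp_periodic (θ * Complex.I)
      rw [← h]
      congr 1
      push_cast
      ring
    show φ (ρ * Complex.exp (((θ + 2 * Real.pi : ℝ) : ℂ) * Complex.I)) = _
    rw [this]

theorem annulus_approx {r R : ℝ} (hr : 0 < r) (hrR : r < R) (φ : ℂ → ℝ) (hφ : ContinuousOn φ (sphere (0 : ℂ) r ∪ sphere (0 : ℂ) R))
    {ε : ℝ} (hε : 0 < ε) : ∃ (g : ℂ → ℂ) (b : ℝ), DifferentiableOn ℂ g {0}ᶜ ∧
      ∀ z ∈ sphere (0 : ℂ) r ∪ sphere (0 : ℂ) R, |(g z).re + b * Real.log ‖z‖ - φ z| ≤ ε := by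
  have hR : 0 < R := hr.trans hrR
  obtain ⟨m₁, a₁, h₁⟩ := CirB_circ φ r hr _ Set.subset_union_left hφ hε
  obtain ⟨m₂, a₂, h₂⟩ := CirB_circ φ R hR _ Set.subset_union_right hφ hε
  set m := max m₁ m₂ with hm
  set A : ℕ → ℂ := fun n => if n ≤ m₁ then a₁ n else 0 with hA
  set B : ℕ → ℂ := fun n => if n ≤ m₂ then a₂ n else 0 with hB
  have h₁' : ∀ θ : ℝ, |φ (r * Complex.exp (θ * Complex.I)) -
      (∑ n ∈ Finset.range (m + 1), A n * Complex.exp (n * (θ * Complex.I))).re| ≤ ε := by
    intro θ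
    have := h₁ θ
    rw [CirB_pad m₁ m (le_max_left _ _) a₁ (fun n => Complex.exp (n * (θ * Complex.I)))] at this
    exact this
  have h₂' : ∀ θ : ℝ, |φ (R * Complex.exp (θ * Complex.I)) -
      (∑ n ∈ Finset.range (m + 1), B n * Complex.exp (n * (θ * Complex.I))).re| ≤ ε := by
    intro θ
    have := h₂ θ
    rw [CirB_pad m₂ m (le_max_right _ _) a₂ (fun n => Complex.exp (n * (θ * Complex.I)))] at this
    exact this
  have hex : ∀ n : ℕ, ∃ c d : ℂ, c * (r : ℂ) ^ (n + 1) + (starRingEnd ℂ) d * ((r : ℂ) ^ (n + 1))⁻¹ = A (n + 1) ∧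
      c * (R : ℂ) ^ (n + 1) + (starRingEnd ℂ) d * ((R : ℂ) ^ (n + 1))⁻¹ = B (n + 1) :=
    fun n => CirB_solve hr hrR _ _ (n + 1) (Nat.succ_ne_zero n)
  choose c d hc hd using hex
  have hlog : Real.log r < Real.log R := Real.log_lt_log hr hrR
  obtain ⟨a, b, hab1, hab2⟩ : ∃ a b : ℝ, a + b * Real.log r = (A 0).re ∧ a + b * Real.log R = (B 0).re := by
    refine ⟨(A 0).re - ((B 0).re - (A 0).re) / (Real.log R - Real.log r) * Real.log r,
      ((B 0).re - (A 0).re) / (Real.log R - Real.log r), by ring, ?_⟩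
    have : Real.log R - Real.log r ≠ 0 := by linarith
    field_simp
    ring
  set g : ℂ → ℂ := fun z => (a : ℂ) + ∑ n ∈ Finset.range m, (c n * z ^ (n + 1) + d n * (z⁻¹) ^ (n + 1)) with hg
  have hval : ∀ (ρ : ℝ) (C : ℕ → ℂ), 0 < ρ → a + b * Real.log ρ = (C 0).re →
      (∀ n, c n * (ρ : ℂ) ^ (n + 1) + (starRingEnd ℂ) (d n) * ((ρ : ℂ) ^ (n + 1))⁻¹ = C (n + 1)) →
      ∀ θ : ℝ, (g (ρ * Complex.exp (θ * Complex.I))).re + b * Real.log ρ
        = (∑ n ∈ Finset.range (m + 1), C n * Complex.exp (n * (θ * Complex.I))).re := by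
    intro ρ C hρ h0 hC θ
    rw [Finset.sum_range_succ']
    simp only [hg, Complex.add_re, Complex.re_sum, Complex.ofReal_re]
    have e1 : ∀ n ∈ Finset.range m, (c n * ((ρ : ℂ) * Complex.exp (θ * Complex.I)) ^ (n + 1)).re +
        (d n * (((ρ : ℂ) * Complex.exp (θ * Complex.I))⁻¹) ^ (n + 1)).re
        = (C (n + 1) * Complex.exp (((n + 1 : ℕ) : ℂ) * (θ * Complex.I))).re := by
      intro n _
      rw [← Complex.add_re, CirB_key, hC n]
    rw [Finset.sum_congr rfl e1]
    have e2 : (C 0 * Complex.exp (((0 : ℕ) : ℂ) * (θ * Complex.I))).re = a + b * Real.log ρ := by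
      rw [h0]; simp
    rw [e2]
    ring
  refine ⟨g, b, ?_, ?_⟩
  · intro z hz
    have hz0 : z ≠ 0 := hz
    apply DifferentiableAt.differentiableWithinAt
    rw [hg]
    apply DifferentiableAt.const_add
    apply DifferentiableAt.fun_sum
    intro n _
    exact ((differentiableAt_id.pow _).const_mul _).add (((differentiableAt_inv hz0).pow _).const_mul _)
  · have harg : ∀ (z : ℂ), z = (‖z‖ : ℂ) * Complex.exp (Complex.arg z * Complex.I) := fun z => (Complex.norm_mul_exp_arg_mul_I z).symm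
    rintro z (hz | hz)
    · rw [mem_sphere_zero_iff_norm] at hz
      have h3 := h₁' (Complex.arg z)
      have h4 := hval r A hr hab1 hc (Complex.arg z)
      have h5 := harg z
      rw [hz] at h5
      rw [← h5] at h3 h4
      rw [hz, h4, abs_sub_comm]
      exact h3
    · rw [mem_sphere_zero_iff_norm] at hz
      have h3 := h₂' (Complex.arg z)
      have h4 := hval R B hR hab2 hd (Complex.arg z)
      have h5 := harg z
      rw [hz] at h5
      rw [← h5] at h3 h4
      rw [hz, h4, abs_sub_comm]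
      exact h3

end Pool.Agent.H36.BP

end

section

/-!
# G3 Poi: the Poisson integral majorises `log ‖F‖`
-/

set_option autoImplicit false

open Set Metric Filter Topology Real

namespace Pool.Agent.H56.G3

/-- continuous real functions on a circle are approximated by real parts of entire functions -/
theorem approx_re {f : ℂ → ℝ} {c : ℂ} {R : ℝ} (hR : 0 < R) (hf : ContinuousOn f (sphere c R)) {ε : ℝ} (hε : 0 < ε) :
    ∃ ψ : ℂ → ℂ, Differentiable ℂ ψ ∧ ∀ z ∈ sphere c R, |(ψ z).re - f z| ≤ ε := by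
  have : Fact (0 < 2 * π) := ⟨by positivity⟩
  -- the function on the circle
  have hmem : ∀ x : AddCircle (2 * π), c + R * (AddCircle.toCircle x : ℂ) ∈ sphere c R := by
    intro x
    rw [mem_sphere_iff_norm, add_sub_cancel_left, norm_mul, Circle.norm_coe, mul_one, Complex.norm_real, Real.norm_eq_abs, abs_of_pos hR]
  have hcont : Continuous fun x : AddCircle (2 * π) => (f (c + R * (AddCircle.toCircle x : ℂ)) : ℂ) := by
    refine Complex.continuous_ofReal.comp ?_
    refine hf.comp_continuous ?_ hmem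
    have := AddCircle.continuous_toCircle (T := 2 * π)
    fun_prop
  obtain ⟨F, hF⟩ : ∃ F : C(AddCircle (2 * π), ℂ), ∀ x, F x = (f (c + R * (AddCircle.toCircle x : ℂ)) : ℂ) := ⟨⟨_, hcont⟩, fun _ => rfl⟩
  have hcl : F ∈ (Submodule.span ℂ (range <| @fourier (2 * π))).topologicalClosure := by
    rw [span_fourier_closure_eq_top]
    exact Submodule.mem_top
  have hcl' : F ∈ closure ((Submodule.span ℂ (range <| @fourier (2 * π)) : Submodule ℂ C(AddCircle (2 * π), ℂ)) : Set C(AddCircle (2 * π), ℂ)) := hcl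
  obtain ⟨g, hg, hgF⟩ := Metric.mem_closure_iff.1 hcl' ε hε
  have key : ∀ g ∈ Submodule.span ℂ (range <| @fourier (2 * π)), ∃ ψ₁ ψ₂ : ℂ → ℂ, Differentiable ℂ ψ₁ ∧ Differentiable ℂ ψ₂ ∧
      ∀ x, g x = ψ₁ (c + R * (AddCircle.toCircle x : ℂ)) + starRingEnd ℂ (ψ₂ (c + R * (AddCircle.toCircle x : ℂ))) := by
    intro g hg
    have hRc : (R : ℂ) ≠ 0 := by exact_mod_cast hR.ne'
    have hzz : ∀ t : ℂ, (c + R * t - c) / R = t := by
      intro t
      rw [add_sub_cancel_left, mul_div_cancel_left₀ _ hRc]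
    induction hg using Submodule.span_induction with
    | mem g hg =>
      obtain ⟨n, rfl⟩ := hg
      rcases Int.eq_nat_or_neg n with ⟨k, hk | hk⟩
      · refine ⟨fun z => ((z - c) / R) ^ k, fun _ => 0, by fun_prop, by fun_prop, fun x => ?_⟩
        simp only [hzz, map_zero, add_zero]
        rw [fourier_apply, AddCircle.toCircle_zsmul, hk]
        simp
      · refine ⟨fun _ => 0, fun z => ((z - c) / R) ^ k, by fun_prop, by fun_prop, fun x => ?_⟩
        simp only [hzz, zero_add]
        rw [hk, fourier_neg, fourier_apply, AddCircle.toCircle_zsmul]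
        simp
    | zero => exact ⟨fun _ => 0, fun _ => 0, by fun_prop, by fun_prop, fun x => by simp⟩
    | add g₁ g₂ _ _ h₁ h₂ =>
      obtain ⟨a, b, ha, hb, h⟩ := h₁
      obtain ⟨a', b', ha', hb', h'⟩ := h₂
      refine ⟨fun z => a z + a' z, fun z => b z + b' z, ha.add ha', hb.add hb', fun x => ?_⟩
      rw [ContinuousMap.add_apply, h, h', map_add]
      ring
    | smul t g _ h =>
      obtain ⟨a, b, ha, hb, h⟩ := h
      refine ⟨fun z => t * a z, fun z => starRingEnd ℂ t * b z, ha.const_mul _, hb.const_mul _, fun x => ?_⟩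
      rw [ContinuousMap.smul_apply, h, map_mul, Complex.conj_conj, smul_eq_mul]
      ring
  obtain ⟨ψ₁, ψ₂, h₁, h₂, h⟩ := key g hg
  refine ⟨fun z => ψ₁ z + ψ₂ z, h₁.add h₂, fun z hz => ?_⟩
  -- every point of the circle is of this form
  obtain ⟨x, hx⟩ : ∃ x : AddCircle (2 * π), z = c + R * (AddCircle.toCircle x : ℂ) := by
    have hz' : ‖(z - c) / R‖ = 1 := by
      rw [norm_div, mem_sphere_iff_norm.1 hz, Complex.norm_real, Real.norm_eq_abs, abs_of_pos hR, div_self hR.ne']
    refine ⟨((Complex.arg ((z - c) / R) : ℝ) : AddCircle (2 * π)), ?_⟩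
    rw [AddCircle.toCircle_apply_mk, Circle.coe_exp, div_self (by positivity), one_mul]
    have h3 := Complex.norm_mul_exp_arg_mul_I ((z - c) / R)
    rw [hz', Complex.ofReal_one, one_mul] at h3
    rw [h3]
    have hRc : (R : ℂ) ≠ 0 := by exact_mod_cast hR.ne'
    field_simp
    ring
  have h4 : ‖F x - g x‖ ≤ ε := by
    have h5 := ContinuousMap.norm_coe_le_norm (F - g) x
    rw [ContinuousMap.sub_apply] at h5
    rw [dist_eq_norm] at hgF
    exact h5.trans hgF.le
  rw [hF, h, ← hx] at h4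
  have h6 : ((f z : ℂ) - (ψ₁ z + starRingEnd ℂ (ψ₂ z))).re = -((ψ₁ z + ψ₂ z).re - f z) := by
    simp only [Complex.sub_re, Complex.add_re, Complex.conj_re, Complex.ofReal_re]
    ring
  have h7 := (Complex.abs_re_le_norm _).trans h4
  rw [h6, abs_neg] at h7
  exact h7

/-- the Poisson kernel of the circle of centre `c` through `z` -/
noncomputable def pk (c w z : ℂ) : ℝ := ((z - c + (w - c)) / ((z - c) - (w - c))).re

theorem pk_cont {c w : ℂ} {R : ℝ} (hw : w ∈ ball c R) : ContinuousOn (pk c w) (sphere c R) := by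
  unfold pk
  refine Complex.continuous_re.comp_continuousOn (ContinuousOn.div (by fun_prop) (by fun_prop) ?_)
  intro z hz h
  have h1 : z = w := by linear_combination h
  rw [h1] at hz
  rw [mem_sphere] at hz
  rw [mem_ball] at hw
  linarith

theorem pk_pos {c w z : ℂ} {R : ℝ} (hw : w ∈ ball c R) (hz : z ∈ sphere c R) : 0 < pk c w z := by
  have h1 := le_re_herglotzRieszKernel hz hw
  refine lt_of_lt_of_le ?_ h1
  have h2 : ‖w - c‖ < R := mem_ball_iff_norm.1 hw
  have h3 := norm_nonneg (w - c)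
  exact div_pos (by linarith) (by linarith)

variable {E : Type*} [NormedAddCommGroup E] [NormedSpace ℂ E]

/-- **The Poisson integral majorises `log ‖F‖`.** -/
theorem poisson_jensen {F : ℂ → E} {c : ℂ} {R : ℝ} (hR : 0 < R) (hF : DiffContOnCl ℂ F (ball c R)) (h0 : ∀ z ∈ sphere c R, F z ≠ 0)
    {w : ℂ} (hw : w ∈ ball c R) (hFw : F w ≠ 0) :
    Real.log ‖F w‖ ≤ circleAverage (fun z => pk c w z * Real.log ‖F z‖) c R := by
  have hcl : closure (ball c R) = closedBall c R := closure_ball c hR.ne'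
  have hfr : frontier (ball c R) = sphere c R := frontier_ball c hR.ne'
  have hRabs : |R| = R := abs_of_pos hR
  have hFc : ContinuousOn F (sphere c R) := hF.continuousOn.mono (by rw [hcl]; exact sphere_subset_closedBall)
  have huc : ContinuousOn (fun z => Real.log ‖F z‖) (sphere c R) := ContinuousOn.log hFc.norm fun z hz => norm_ne_zero_iff.2 (h0 z hz)
  have hpk := pk_cont hw
  refine le_of_forall_pos_le_add fun δ hδ => ?_
  -- the total mass of the kernel
  have hone : circleAverage (fun z => pk c w z * (1 : ℝ)) c R = 1 := by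
    have h1 := (diffContOnCl_const (c := (1 : ℂ))).circleAverage_re_herglotzRieszKernel_smul' (E := ℂ) (c := c) (R := R) hw
    have h2 : CircleIntegrable (fun z => ((z - c + (w - c)) / ((z - c) - (w - c))).re • (1 : ℂ)) c R := by
      refine ContinuousOn.circleIntegrable' ?_
      rw [hRabs]
      exact (Complex.continuous_ofReal.comp_continuousOn hpk).congr fun z _ => by simp [pk]
    have h3 := Complex.reCLM.circleAverage_comp_comm h2
    rw [h1] at h3
    simp only [Complex.reCLM_apply, Complex.one_re] at h3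
    refine Eq.trans ?_ h3
    congr 1
    funext z
    simp [pk]
  obtain ⟨ψ, hψ, hψu⟩ := approx_re hR huc (half_pos hδ)
  -- the maximum principle
  have hmax : ‖Complex.exp (-ψ w) • F w‖ ≤ Real.exp (δ / 2) := by
    have hd : DiffContOnCl ℂ (fun z => Complex.exp (-ψ z) • F z) (ball c R) := by
      have h1 : Differentiable ℂ fun z => Complex.exp (-ψ z) := by fun_prop
      exact h1.diffContOnCl.smul hF
    refine Complex.norm_le_of_forall_mem_frontier_norm_le isBounded_ball hd ?_ (subset_closure hw)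
    intro z hz
    rw [hfr] at hz
    have h1 := abs_le.1 (hψu z hz)
    have h2 : 0 < ‖F z‖ := norm_pos_iff.2 (h0 z hz)
    rw [norm_smul, Complex.norm_exp, Complex.neg_re]
    calc Real.exp (-(ψ z).re) * ‖F z‖ = Real.exp (-(ψ z).re) * Real.exp (Real.log ‖F z‖) := by rw [Real.exp_log h2]
      _ = Real.exp (-(ψ z).re + Real.log ‖F z‖) := by rw [← Real.exp_add]
      _ ≤ Real.exp (δ / 2) := Real.exp_le_exp.2 (by linarith [h1.1])
  have hle : Real.log ‖F w‖ ≤ (ψ w).re + δ / 2 := by
    have h2 : 0 < ‖F w‖ := norm_pos_iff.2 hFw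
    rw [norm_smul, Complex.norm_exp, Complex.neg_re] at hmax
    have h3 := Real.log_le_log (by positivity) hmax
    rw [Real.log_mul (by positivity) h2.ne', Real.log_exp, Real.log_exp] at h3
    linarith
  -- the Poisson formula for `ψ`
  have hpois : (ψ w).re = circleAverage (fun z => pk c w z * (ψ z).re) c R := by
    have h1 := hψ.diffContOnCl.circleAverage_re_herglotzRieszKernel_smul' (c := c) (R := R) hw
    have h2 : CircleIntegrable (fun z => ((z - c + (w - c)) / ((z - c) - (w - c))).re • ψ z) c R := by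
      refine ContinuousOn.circleIntegrable' ?_
      rw [hRabs]
      exact hpk.smul hψ.continuous.continuousOn
    have h3 := Complex.reCLM.circleAverage_comp_comm h2
    rw [h1] at h3
    simp only [Complex.reCLM_apply] at h3
    rw [← h3]
    congr 1
    funext z
    simp [pk]
  have hmono : circleAverage (fun z => pk c w z * (ψ z).re) c R ≤ circleAverage (fun z => pk c w z * Real.log ‖F z‖ + δ / 2 * (pk c w z * 1)) c R := by
    refine circleAverage_mono ?_ ?_ ?_
    · refine ContinuousOn.circleIntegrable' ?_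
      rw [hRabs]
      exact hpk.mul (Complex.continuous_re.comp_continuousOn hψ.continuous.continuousOn)
    · refine ContinuousOn.circleIntegrable' ?_
      rw [hRabs]
      exact (hpk.mul huc).add ((hpk.mul continuousOn_const).const_mul _)
    · intro z hz
      rw [hRabs] at hz
      have h1 := abs_le.1 (hψu z hz)
      have h2 := pk_pos hw hz
      nlinarith [h1.2]
  have hadd : circleAverage (fun z => pk c w z * Real.log ‖F z‖ + δ / 2 * (pk c w z * 1)) c R =
      circleAverage (fun z => pk c w z * Real.log ‖F z‖) c R + δ / 2 * 1 := by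
    have h1 : CircleIntegrable (fun z => pk c w z * Real.log ‖F z‖) c R := by
      refine ContinuousOn.circleIntegrable' ?_
      rw [hRabs]
      exact hpk.mul huc
    have h2 : CircleIntegrable (fun z => δ / 2 * (pk c w z * 1)) c R := by
      refine ContinuousOn.circleIntegrable' ?_
      rw [hRabs]
      exact (hpk.mul continuousOn_const).const_mul _
    have h3 := circleAverage_add h1 h2
    have h4 : circleAverage (fun z => δ / 2 * (pk c w z * 1)) c R = δ / 2 * 1 := by
      have h5 := circleAverage_smul (a := δ / 2) (f := fun z => pk c w z * (1 : ℝ)) (c := c) (R := R)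
      rw [hone] at h5
      exact h5
    rw [← h4]
    exact h3
  rw [hpois] at hle
  linarith

end Pool.Agent.H56.G3

end
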