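import Pool.Agent.H94.G5T.M13
import Pool.Agent.H94.G5T.M18
import Pool.Agent.H94.G5T.M24
import Pool.Agent.H94.G5T.M26
import Pool.Agent.H94.G5T.M28

/-! The parts of this file: G3.A.MD, H56.G3.Pc1a, G4.A.GeoC, G3.Z.CDefs, G3.Z.Sit, G3.X.Defs. -/

section

/-!
# G3 A MD: the maximum principle for the distance of two curves

Normalised lifts `F`, `G` on `ball z₀ 2` (`NL` for `δ`).  `E z • wg (F z) (G z)` is holomorphic on `ball z₀ 2`; on the circle its norm is `≤ C dist ‖F‖ ‖G‖ ‖E‖ ≤ C M`; maximum principle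
(`Complex.norm_le_of_forall_mem_frontier_norm_le`); at `z` we have `‖F z‖, ‖G z‖ ≥ c`.
-/

set_option autoImplicit false

open Topology Filter Metric

namespace Pool.Agent.G3.A

open Pool.Agent.H36.BP (EN fs wd)
open Pool.Agent.H14.PP (IsCone CurveAt Tan)
open Pool.Agent.H62.EF (MN pr)
open Pool.Agent.AD (Vd Chart Charts IsGerm)
open Pool.Agent.TG
open Pool.Agent.G3.C (Gc)

variable {N k : ℕ} {X : Set (EN N)} {Λ : AddSubgroup (Vd (k + 1))} {u : EN N → Vd (k + 1)} {D B Bad : Set (Vd (k + 1))} {a : Vd (k + 1)}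

theorem md (hX : IsCone X) (hN : NL X Λ u D a) {δ : ℝ} (hδ : 0 < δ) : ∃ C : ℝ, 0 < C ∧ ∀ y y' : Vd (k + 1), ∀ f ∈ Hc X Λ u a y, ∀ g ∈ Hc X Λ u a y', ∀ (z₀ : ℂ) (r : ℝ),
    0 < r → r ≤ 1 → ∀ E : ℂ → ℂ, DifferentiableOn ℂ E (ball z₀ 2) → ∀ M : ℝ, (∀ z : ℂ, ‖z - z₀‖ = r → dist (f z) (g z) * ‖E z‖ ≤ M) →
    ∀ z ∈ closedBall z₀ r, y + z • a ∈ Gd D δ → y' + z • a ∈ Gd D δ → dist (f z) (g z) * ‖E z‖ ≤ C * M := by
  obtain ⟨c, hc, hcN⟩ := hN δ hδ
  obtain ⟨C, hC, hw⟩ := wg_dist N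
  refine ⟨C * C / (c * c), by positivity, ?_⟩
  intro y y' f hf g hg z₀ r hr hr1 E hE M hM z hz hy hy'
  obtain ⟨F, hF, hFX, hFc⟩ := hcN y f hf z₀
  obtain ⟨G, hG, hGX, hGc⟩ := hcN y' g hg z₀
  have hne : ∀ x ∈ X, x ≠ 0 := fun x hx h => hX.zero_notMem (h ▸ hx)
  have hsub : closedBall z₀ r ⊆ ball z₀ 2 := fun w hw' => by
    rw [mem_closedBall] at hw'
    rw [mem_ball]
    linarith
  have hφ : DifferentiableOn ℂ (fun w => E w • wg (F w) (G w)) (ball z₀ 2) := hE.smul (wg_diff hF hG)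
  have hbd : ∀ w ∈ frontier (ball z₀ r), ‖E w • wg (F w) (G w)‖ ≤ C * M := by
    intro w hw'
    rw [frontier_ball z₀ hr.ne'] at hw'
    have hwr : ‖w - z₀‖ = r := by
      rw [← dist_eq_norm]
      exact hw'
    have hwb : w ∈ ball z₀ 2 := hsub (sphere_subset_closedBall hw')
    obtain ⟨h1, h2, h3⟩ := hFX w hwb
    obtain ⟨h4, h5, h6⟩ := hGX w hwb
    have h7 := (hw (F w) (G w) (hne _ h1) (hne _ h4)).1
    have h8 := hM w hwr
    rw [h2, h5] at h8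
    have h9 : 0 ≤ dist (pr (F w)) (pr (G w)) := dist_nonneg
    have h10 : ‖F w‖ * ‖G w‖ ≤ 1 := mul_le_one₀ h3 (norm_nonneg _) h6
    rw [norm_smul]
    calc ‖E w‖ * ‖wg (F w) (G w)‖ ≤ ‖E w‖ * (C * dist (pr (F w)) (pr (G w)) * ‖F w‖ * ‖G w‖) :=
          mul_le_mul_of_nonneg_left h7 (norm_nonneg _)
      _ = C * (dist (pr (F w)) (pr (G w)) * ‖E w‖) * (‖F w‖ * ‖G w‖) := by ring
      _ ≤ C * (dist (pr (F w)) (pr (G w)) * ‖E w‖) * 1 := mul_le_mul_of_nonneg_left h10 (by positivity)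
      _ ≤ C * M := by
          rw [mul_one]
          exact mul_le_mul_of_nonneg_left h8 hC.le
  have hcl : DiffContOnCl ℂ (fun w => E w • wg (F w) (G w)) (ball z₀ r) := by
    refine DifferentiableOn.diffContOnCl ?_
    rw [closure_ball z₀ hr.ne']
    exact hφ.mono hsub
  have hmax : ‖E z • wg (F z) (G z)‖ ≤ C * M := by
    refine Complex.norm_le_of_forall_mem_frontier_norm_le isBounded_ball hcl hbd ?_
    rw [closure_ball z₀ hr.ne']
    exact hz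
  have hz1 : z ∈ closedBall z₀ 1 := by
    rw [mem_closedBall] at hz ⊢
    linarith
  have hz2 : z ∈ ball z₀ 2 := hsub hz
  obtain ⟨h1, h2, -⟩ := hFX z hz2
  obtain ⟨h4, h5, -⟩ := hGX z hz2
  have h7 := (hw (F z) (G z) (hne _ h1) (hne _ h4)).2
  have h8 := hFc z hz1 hy
  have h9 := hGc z hz1 hy'
  rw [norm_smul] at hmax
  rw [h2, h5]
  have h10 : 0 ≤ dist (pr (F z)) (pr (G z)) * ‖E z‖ := by positivity
  have h11 : c * c ≤ ‖F z‖ * ‖G z‖ := mul_le_mul h8 h9 hc.le (norm_nonneg _)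
  rw [div_mul_eq_mul_div, le_div_iff₀ (by positivity)]
  calc dist (pr (F z)) (pr (G z)) * ‖E z‖ * (c * c) ≤ dist (pr (F z)) (pr (G z)) * ‖E z‖ * (‖F z‖ * ‖G z‖) :=
        mul_le_mul_of_nonneg_left h11 h10
    _ = dist (pr (F z)) (pr (G z)) * ‖F z‖ * ‖G z‖ * ‖E z‖ := by ring
    _ ≤ C * ‖wg (F z) (G z)‖ * ‖E z‖ := mul_le_mul_of_nonneg_right h7 (norm_nonneg _)
    _ = C * (‖E z‖ * ‖wg (F z) (G z)‖) := by ring
    _ ≤ C * (C * M) := mul_le_mul_of_nonneg_left hmax hC.le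
    _ = C * C * M := by ring

end Pool.Agent.G3.A

end

section

/-!
# G3 Pc1a: almost all points of circles are not degenerate, averages
-/

set_option autoImplicit false

open Topology Filter Metric MeasureTheory

namespace Pool.Agent.H56.G3

open Pool.Agent.H36.BP (EN fs wd Sub)
open Pool.Agent.H14.PP (IsCone CurveAt Tan)
open Pool.Agent.AD (Vd)
open Pool.Agent.TG (TMap Lat Gd)
open Pool.Agent.G3 (Cv PS QD Ok Lam Lq Np pf TT)

theorem countable_bad {U : Set ℂ} {P : ℂ → Prop} (h : ∀ z ∈ U, ∀ᶠ w in 𝓝[≠] z, P w) : {z | z ∈ U ∧ ¬ P z}.Countable := by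
  have hs : {z | P z} ∈ codiscreteWithin U := by
    rw [mem_codiscreteWithin]
    intro x hx
    rw [disjoint_principal_right]
    filter_upwards [h x hx] with w hw hw2
    exact hw2.2 hw
  have : DiscreteTopology ↑(({z | P z})ᶜ ∩ U) := isDiscrete_iff_discreteTopology.mp
    <| isDiscrete_of_codiscreteWithin ((compl_compl {z | P z}).symm ▸ hs)
  have h1 : (({z | P z})ᶜ ∩ U).Countable := TopologicalSpace.separableSpace_iff_countable.1 inferInstance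
  refine h1.mono ?_
  rintro z ⟨h2, h3⟩
  exact ⟨h3, h2⟩

theorem ae_circle {U : Set ℂ} {P : ℂ → Prop} (h : ∀ z ∈ U, ∀ᶠ w in 𝓝[≠] z, P w) {c : ℂ} {r : ℝ} (hr : 0 < r) (hs : sphere c r ⊆ U) :
    ∀ᵐ θ : ℝ, P (circleMap c r θ) := by
  have h1 : (circleMap c r ⁻¹' {z | z ∈ U ∧ ¬ P z}).Countable := (countable_bad h).preimage_circleMap c hr.ne'
  rw [ae_iff]
  refine measure_mono_null ?_ (h1.measure_zero volume)
  intro θ hθ
  exact ⟨hs (circleMap_mem_sphere c hr.le θ), hθ⟩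

theorem avg_congr_ae {f g : ℂ → ℝ} {c : ℂ} {r : ℝ} (h : ∀ᵐ θ : ℝ, f (circleMap c r θ) = g (circleMap c r θ)) :
    Real.circleAverage f c r = Real.circleAverage g c r := by
  unfold Real.circleAverage
  congr 1
  refine intervalIntegral.integral_congr_ae ?_
  filter_upwards [h] with θ hθ _
  exact hθ

theorem ci_congr_ae {f g : ℂ → ℝ} {c : ℂ} {r : ℝ} (hf : CircleIntegrable f c r) (h : ∀ᵐ θ : ℝ, f (circleMap c r θ) = g (circleMap c r θ)) :
    CircleIntegrable g c r := by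
  unfold CircleIntegrable at hf ⊢
  refine hf.congr_ae ?_
  exact ae_restrict_of_ae h

/-- change of variables -/
theorem avg_scale (f : ℂ → ℝ) (w : ℂ) (r ρ : ℝ) : Real.circleAverage (fun z => f (w + r * z)) 0 ρ = Real.circleAverage f w (r * ρ) := by
  unfold Real.circleAverage
  congr 1
  refine intervalIntegral.integral_congr fun θ _ => ?_
  simp only [circleMap]
  congr 1
  push_cast
  ring

/-- the mean value inequality for `log ‖F‖` -/
theorem log_norm_le_avg {E : Type*} [NormedAddCommGroup E] [NormedSpace ℂ E] {F : ℂ → E} {c : ℂ} {R : ℝ} (hR : 0 < R) (hF : DiffContOnCl ℂ F (ball c R))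
    (h0 : ∀ z ∈ sphere c R, F z ≠ 0) (hFc : F c ≠ 0) : Real.log ‖F c‖ ≤ Real.circleAverage (fun z => Real.log ‖F z‖) c R := by
  have h1 := poisson_jensen hR hF h0 (mem_ball_self hR) hFc
  refine h1.trans_eq ?_
  refine Real.circleAverage_congr_sphere ?_
  intro w hw
  have hw' : w ≠ c := by
    rintro rfl
    rw [abs_of_pos hR, mem_sphere_iff_norm, sub_self, norm_zero] at hw
    exact hR.ne hw
  have h2 : w - c ≠ 0 := sub_ne_zero.2 hw'
  simp only [pk]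
  rw [sub_self, add_zero, sub_zero, div_self h2, Complex.one_re, one_mul]

/-- Jensen's inequality -/
theorem log_norm_le_avg' {P : ℂ → ℂ} {c : ℂ} {r : ℝ} (hr : 0 < r) (hP : AnalyticOnNhd ℂ P (closedBall c r)) (hc : P c ≠ 0) :
    Real.log ‖P c‖ ≤ Real.circleAverage (fun z => Real.log ‖P z‖) c r := by
  have har : |r| = r := abs_of_pos hr
  have hana : AnalyticOnNhd ℂ P (closedBall c |r|) := by rwa [har]
  rw [AnalyticOnNhd.circleAverage_log_norm hr.ne' hana hc]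
  have h1 : 0 ≤ ∑ᶠ u, (MeromorphicOn.divisor P (closedBall c |r|) u : ℝ) * Real.log (r * ‖c - u‖⁻¹) := by
    apply finsum_nonneg
    intro u
    by_cases hu : u ∈ closedBall c |r|
    · apply mul_nonneg
      · have := MeromorphicOn.AnalyticOnNhd.divisor_nonneg hana u
        exact_mod_cast this
      · by_cases huc : u = c
        · simp [huc]
        · apply Real.log_nonneg
          have h2 : 0 < ‖c - u‖ := by
            rw [norm_pos_iff, sub_ne_zero]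
            exact fun h => huc h.symm
          have h3 : ‖c - u‖ ≤ r := by
            rw [mem_closedBall, dist_eq_norm, abs_of_pos hr, norm_sub_rev] at hu
            exact hu
          rw [← div_eq_mul_inv, le_div_iff₀ h2]
          linarith
    · have : MeromorphicOn.divisor P (closedBall c |r|) u = 0 := Function.locallyFinsuppWithin.apply_eq_zero_of_notMem _ hu
      simp [this]
  linarith

variable {N k : ℕ} {X : Set (EN N)} {Λ : AddSubgroup (Vd (k + 1))} {u : EN N → Vd (k + 1)} {D : Set (Vd (k + 1))} {Q : EN N → ℂ} {d : ℕ}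
  {p : EN N → EN N → ℝ} {m : ℕ} {C : ℝ} {F : ℂ → EN N} {h : ℂ → Vd (k + 1)}

/-- **Jensen's inequality for `Lq`.** -/
theorem Lq_jensen (hX : IsCone X) (hqd : QD X Λ u D Q d) {U : Set ℂ} (hU : IsOpen U) (hc : Cv X Λ u U F h) {z : ℂ} {r : ℝ} (hr : 0 < r)
    (hcb : closedBall z r ⊆ U) (hQ : Q (F z) ≠ 0) :
    CircleIntegrable (fun w => Lq Q d (F w)) z r ∧ Real.circleAverage (fun w => Lq Q d (F w)) z r ≤ Lq Q d (F z) + d * TT F z r := by
  have hq : DifferentiableOn ℂ (fun z => Q (F z)) U := hqd.diff.comp_differentiableOn hc.F_diff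
  have ha : AnalyticOnNhd ℂ (fun z => Q (F z)) U := hq.analyticOnNhd hU
  have hne : ∀ w ∈ U, F w ≠ 0 := fun w hw h0 => hX.zero_notMem (h0 ▸ hc.mem w hw)
  have i1 : CircleIntegrable (fun w => Real.log ‖F w‖) z r := by
    refine ContinuousOn.circleIntegrable hr.le ?_
    refine ContinuousOn.log (hc.F_diff.continuousOn.norm.mono (sphere_subset_closedBall.trans hcb)) fun w hw => ?_
    exact norm_ne_zero_iff.2 (hne w (hcb (sphere_subset_closedBall hw)))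
  have i2 : CircleIntegrable (fun w => Real.log ‖Q (F w)‖) z r := by
    have h1 : MeromorphicOn (fun z => Q (F z)) (sphere z r) := fun w hw => (ha w (hcb (sphere_subset_closedBall hw))).meromorphicAt
    exact MeromorphicOn.circleIntegrable_log_norm_of_nonneg h1 hr.le
  have i3 : CircleIntegrable (fun w => (d : ℝ) * Real.log ‖F w‖) z r := i1.const_smul (a := (d : ℝ))
  refine ⟨i3.sub i2, ?_⟩
  have h1 : Real.circleAverage (fun w => Lq Q d (F w)) z r =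
      Real.circleAverage (fun w => (d : ℝ) * Real.log ‖F w‖) z r - Real.circleAverage (fun w => Real.log ‖Q (F w)‖) z r :=
    Real.circleAverage_fun_sub i3 i2
  have h2 : Real.circleAverage (fun w => (d : ℝ) * Real.log ‖F w‖) z r = d * Real.circleAverage (fun w => Real.log ‖F w‖) z r :=
    Real.circleAverage_fun_smul (a := (d : ℝ))
  have h3 := log_norm_le_avg' hr (ha.mono hcb) hQ
  rw [h1, h2]
  unfold Lq TT
  have h4 : (d : ℝ) * (Real.circleAverage (fun w => Real.log ‖F w‖) z r - Real.log ‖F z‖) =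
      d * Real.circleAverage (fun w => Real.log ‖F w‖) z r - d * Real.log ‖F z‖ := by ring
  linarith

theorem TT_nonneg (hX : IsCone X) {U : Set ℂ} (hc : Cv X Λ u U F h) {z : ℂ} {r : ℝ} (hr : 0 < r)
    (hcb : closedBall z r ⊆ U) : 0 ≤ TT F z r := by
  have hne : ∀ w ∈ U, F w ≠ 0 := fun w hw h0 => hX.zero_notMem (h0 ▸ hc.mem w hw)
  have h1 := log_norm_le_avg hr (hc.F_diff.mono (by rw [closure_ball z hr.ne']; exact hcb)).diffContOnCl
    (fun w hw => hne w (hcb (sphere_subset_closedBall hw))) (hne z (hcb (mem_closedBall_self hr.le)))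
  unfold TT
  linarith

end Pool.Agent.H56.G3

end

section

/-!
# G4 A GeoC: the constants of the geometry of the lines of one direction

`circ`: for `y₀` only finitely many hits in a disc, so there is a radius `r < η` such that no hit is on the circle; distance `> 0` from `D`; it works for all `y` near `y₀`; compactness modulo `Λ`.
`circC`: the same with `η = 2 ρ`.  `LC.thick`: from `circC` and `‖a‖ = 1` (move `z` radially to the circle).
-/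

set_option autoImplicit false

open Topology Filter Metric

namespace Pool.Agent.G4.A

open Pool.Agent.H36.BP (EN fs wd)
open Pool.Agent.H14.PP (IsCone CurveAt Tan)
open Pool.Agent.H62.EF (MN pr)
open Pool.Agent.AD (Vd Chart Charts IsGerm)
open Pool.Agent.TG
open Pool.Agent.G3
open Pool.Agent.G3.A
open Pool.Agent.G3.C (Gc)

variable {N k : ℕ} {X : Set (EN N)} {Λ : AddSubgroup (Vd (k + 1))} {u : EN N → Vd (k + 1)} {D B Bad : Set (Vd (k + 1))} {a : Vd (k + 1)}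

private theorem GeoC_smul (ha : ‖a‖ = 1) (z : ℂ) : ‖z • a‖ = ‖z‖ := by rw [norm_smul, ha, mul_one]

/-- the hits of a line are isolated -/
private theorem GeoC_iso (hi : ∀ y : Vd (k + 1), ∀ᶠ z in 𝓝[≠] (0 : ℂ), y + z • a ∉ D) (y : Vd (k + 1)) (z₀ : ℂ) :
    ∃ ε : ℝ, 0 < ε ∧ ∀ z : ℂ, z ≠ z₀ → ‖z - z₀‖ < ε → y + z • a ∉ D := by
  have h1 := hi (y + z₀ • a)
  rw [eventually_nhdsWithin_iff, Metric.eventually_nhds_iff] at h1
  obtain ⟨ε, hε, h2⟩ := h1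
  refine ⟨ε, hε, fun z hz hlt => ?_⟩
  have h3 := h2 (y := z - z₀) (by rw [dist_zero_right]; exact hlt) (by
    simp only [Set.mem_compl_iff, Set.mem_singleton_iff]
    exact sub_ne_zero.2 hz)
  have e : y + z₀ • a + (z - z₀) • a = y + z • a := by rw [sub_smul]; abel
  rwa [e] at h3

private theorem GeoC_countable (hi : ∀ y : Vd (k + 1), ∀ᶠ z in 𝓝[≠] (0 : ℂ), y + z • a ∉ D) (y : Vd (k + 1)) : {z : ℂ | y + z • a ∈ D}.Countable := by
  set S : Set ℂ := {z : ℂ | y + z • a ∈ D} with hS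
  have hd : DiscreteTopology S := by
    rw [discreteTopology_subtype_iff]
    intro z hz
    obtain ⟨ε, hε, h⟩ := GeoC_iso hi y z
    rw [← disjoint_iff, Filter.disjoint_principal_right, mem_nhdsWithin]
    refine ⟨ball z ε, isOpen_ball, mem_ball_self hε, ?_⟩
    rintro w ⟨hw1, hw2⟩ hwS
    exact h w hw2 (by rw [← dist_eq_norm]; exact hw1) hwS
  have : Countable S := by
    have := hd
    exact countable_of_Lindelof_of_discrete
  exact this

/-- a compact set of parameters without hits -/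
private theorem GeoC_dist (hD : IsClosed D) {K : Set ℂ} (hK : IsCompact K) (y : Vd (k + 1)) (h : ∀ z ∈ K, y + z • a ∉ D) :
    ∃ d : ℝ, 0 < d ∧ ∀ z ∈ K, y + z • a ∈ Gd D d := by
  have hc : IsCompact ((fun z : ℂ => y + z • a) '' K) := hK.image (by fun_prop)
  have hdis : Disjoint ((fun z : ℂ => y + z • a) '' K) D := by
    rw [Set.disjoint_left]
    rintro _ ⟨z, hz, rfl⟩
    exact h z hz
  obtain ⟨d, hd, hd2⟩ := hdis.exists_thickenings hc hD
  refine ⟨d, hd, fun z hz b hb => ?_⟩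
  by_contra hlt
  push Not at hlt
  refine (Set.disjoint_left.1 hd2) (a := b) ?_ ?_
  · rw [mem_thickening_iff]
    exact ⟨y + z • a, ⟨z, hz, rfl⟩, by rw [dist_comm, dist_eq_norm]; exact hlt⟩
  · rw [mem_thickening_iff]
    exact ⟨b, hb, by rw [dist_self]; exact hd⟩

/-- a circle without hits, of radius in a given interval -/
private theorem GeoC_circle (hD : IsClosed D) (hi : ∀ y : Vd (k + 1), ∀ᶠ z in 𝓝[≠] (0 : ℂ), y + z • a ∉ D) (y : Vd (k + 1)) {r₁ r₂ : ℝ} (h12 : r₁ < r₂) :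
    ∃ r : ℝ, r₁ < r ∧ r < r₂ ∧ ∃ d : ℝ, 0 < d ∧ ∀ z : ℂ, ‖z‖ = r → y + z • a ∈ Gd D d := by
  have h1 : ((fun z : ℂ => ‖z‖) '' {z : ℂ | y + z • a ∈ D}).Countable := (GeoC_countable hi y).image _
  have h2 : ¬ (Set.Ioo r₁ r₂).Countable := by
    intro h
    have h3 : Set.Ioo r₁ r₂ = ∅ ∨ r₂ ≤ r₁ := by
      by_contra hcon
      push Not at hcon
      have := Cardinal.mk_Ioo_real hcon.2
      have h4 := Cardinal.le_aleph0_iff_set_countable.2 h
      rw [this] at h4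
      exact absurd h4 (not_le.2 Cardinal.aleph0_lt_continuum)
    rcases h3 with h3 | h3
    · exact (Set.nonempty_Ioo.2 h12).ne_empty h3
    · linarith
  have h3 : ∃ r ∈ Set.Ioo r₁ r₂, r ∉ (fun z : ℂ => ‖z‖) '' {z : ℂ | y + z • a ∈ D} := by
    by_contra hcon
    push Not at hcon
    exact h2 (h1.mono fun r hr => hcon r hr)
  obtain ⟨r, hr, hr2⟩ := h3
  have hK : IsCompact (sphere (0 : ℂ) r) := isCompact_sphere 0 r
  obtain ⟨d, hd, hd2⟩ := GeoC_dist (a := a) hD hK y (fun z hz hzD => hr2 ⟨z, hzD, by rwa [mem_sphere_zero_iff_norm] at hz⟩)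
  exact ⟨r, hr.1, hr.2, d, hd, fun z hz => hd2 z (by rwa [mem_sphere_zero_iff_norm])⟩

private theorem GeoC_gd_add (h : LG Λ D Bad a) (δ : ℝ) {y l : Vd (k + 1)} (hl : l ∈ Λ) (hy : y ∈ Gd D δ) : y + l ∈ Gd D δ := by
  intro b hb
  have h1 := hy _ (h.D_inv b hb (-l) (Λ.neg_mem hl))
  have h2 : y - (b + -l) = y + l - b := by abel
  rwa [h2] at h1

/-- compactness modulo the lattice -/
private theorem GeoC_cpt (h : LG Λ D Bad a) (Q : Vd (k + 1) → ℝ → Prop) (hm : ∀ y d d', Q y d → 0 < d' → d' ≤ d → Q y d')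
    (hinv : ∀ y d, ∀ l ∈ Λ, Q (y - l) d → Q y d) (hloc : ∀ y₀, ∃ d : ℝ, 0 < d ∧ ∀ᶠ y in 𝓝 y₀, Q y d) : ∃ d : ℝ, 0 < d ∧ ∀ y, Q y d := by
  obtain ⟨R, hR, hcov⟩ := h.lat.cpt
  have h1 : ∃ d : ℝ, 0 < d ∧ ∀ y ∈ closedBall (0 : Vd (k + 1)) R, Q y d := by
    refine (isCompact_closedBall (0 : Vd (k + 1)) R).induction_on (p := fun S : Set (Vd (k + 1)) => ∃ d : ℝ, 0 < d ∧ ∀ y ∈ S, Q y d) ?_ ?_ ?_ ?_
    · exact ⟨1, one_pos, fun y hy => absurd hy (Set.notMem_empty y)⟩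
    · rintro S T hST ⟨d, hd, hQ⟩
      exact ⟨d, hd, fun y hy => hQ y (hST hy)⟩
    · rintro S T ⟨d, hd, hQ⟩ ⟨d', hd', hQ'⟩
      refine ⟨min d d', lt_min hd hd', fun y hy => ?_⟩
      rcases hy with hy | hy
      · exact hm _ _ _ (hQ y hy) (lt_min hd hd') (min_le_left _ _)
      · exact hm _ _ _ (hQ' y hy) (lt_min hd hd') (min_le_right _ _)
    · intro y₀ _
      obtain ⟨d, hd, hQ⟩ := hloc y₀
      exact ⟨{y | Q y d}, mem_nhdsWithin_of_mem_nhds hQ, d, hd, fun y hy => hy⟩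
  obtain ⟨d, hd, hQ⟩ := h1
  refine ⟨d, hd, fun y => ?_⟩
  obtain ⟨l, hl, hlR⟩ := hcov y
  exact hinv y d l hl (hQ (y - l) (by rw [mem_closedBall, dist_zero_right]; exact hlR))

private theorem GeoC_near {δ r : ℝ} {y y₀ : Vd (k + 1)} {z : ℂ} (hy : y₀ + z • a ∈ Gd D δ) (h : ‖y - y₀‖ ≤ r) : y + z • a ∈ Gd D (δ - r) := by
  refine gd_near hy ?_
  have e : y + z • a - (y₀ + z • a) = y - y₀ := by abel
  rwa [e]

private theorem GeoC_circ (h : LG Λ D Bad a) {ρ : ℝ} (hρ : 0 < ρ) :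
    ∃ d : ℝ, 0 < d ∧ ∀ y : Vd (k + 1), ∃ r : ℝ, 0 < r ∧ r < ρ ∧ ∀ z : ℂ, ‖z‖ = r → y + z • a ∈ Gd D d := by
  refine GeoC_cpt h (fun y d => ∃ r : ℝ, 0 < r ∧ r < ρ ∧ ∀ z : ℂ, ‖z‖ = r → y + z • a ∈ Gd D d) ?_ ?_ ?_
  · rintro y d d' ⟨r, h1, h2, h3⟩ _ hle
    exact ⟨r, h1, h2, fun z hz => gd_mono hle (h3 z hz)⟩
  · rintro y d l hl ⟨r, h1, h2, h3⟩
    refine ⟨r, h1, h2, fun z hz => ?_⟩
    have h4 := GeoC_gd_add h d hl (h3 z hz)
    have e : y - l + z • a + l = y + z • a := by abel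
    rwa [e] at h4
  · intro y₀
    obtain ⟨r, h1, h2, d, hd, h3⟩ := GeoC_circle (a := a) h.D_closed h.iso y₀ (show (0 : ℝ) < ρ by linarith)
    refine ⟨d / 2, by linarith, ?_⟩
    filter_upwards [closedBall_mem_nhds y₀ (show 0 < d / 2 by linarith)] with y hy
    refine ⟨r, h1, h2, fun z hz => ?_⟩
    rw [mem_closedBall, dist_eq_norm] at hy
    have h4 := GeoC_near (h3 z hz) hy
    have e : d - d / 2 = d / 2 := by ring
    rwa [e] at h4

theorem exists_lc (h : LG Λ D Bad a) {ρ : ℝ} (hρ : 0 < ρ) (hρ8 : ρ ≤ 1 / 8) : ∃ δ₀ : ℝ, 0 < δ₀ ∧ ∀ δ : ℝ, 0 < δ → δ ≤ δ₀ → LC D Bad a ρ δ := by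
  obtain ⟨d, hd, hcirc⟩ := GeoC_circ h (show 0 < 2 * ρ by linarith)
  refine ⟨min (ρ / 8) (d / 4), lt_min (by linarith) (by linarith), fun δ hδ hδ₀ => ?_⟩
  have hδ1 : δ ≤ ρ / 8 := hδ₀.trans (min_le_left _ _)
  have hδ2 : δ ≤ d / 4 := hδ₀.trans (min_le_right _ _)
  exact
    { norm := h.norm
      D_closed := h.D_closed
      bad_sub := h.bad_sub
      ρ_pos := hρ
      ρ_le := hρ8
      δ_pos := hδ
      δ_le := by linarith
      iso := h.iso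
      circ := fun η hη => GeoC_circ h hη
      circC := fun y => by
        obtain ⟨r, h1, h2, h3⟩ := hcirc y
        exact ⟨r, h1, h2.le, fun z hz => gd_mono (by linarith) (h3 z hz)⟩
      few := h.few }

/-- thick circles in the core, for all base points near `y` -/
theorem LC.thick {ρ δ : ℝ} (h : LC D Bad a ρ δ) (y : Vd (k + 1)) : ∃ r : ℝ, 0 < r ∧ r ≤ 2 * ρ ∧
    ∀ y' : Vd (k + 1), ‖y' - y‖ ≤ δ → ∀ z : ℂ, |‖z‖ - r| ≤ δ → y' + z • a ∈ Co D Bad δ ρ := by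
  obtain ⟨r, h1, h2, h3⟩ := h.circC y
  refine ⟨r, h1, h2, fun y' hy' z hz => ?_⟩
  have h4 : ∃ z' : ℂ, ‖z'‖ = r ∧ ‖z - z'‖ ≤ δ := by
    by_cases hz0 : z = 0
    · refine ⟨(r : ℂ), ?_, ?_⟩
      · rw [Complex.norm_real, Real.norm_of_nonneg h1.le]
      · rw [hz0, norm_zero, zero_sub, abs_neg, abs_of_pos h1] at hz
        rw [hz0, zero_sub, norm_neg, Complex.norm_real, Real.norm_of_nonneg h1.le]
        exact hz
    · have hn : ‖z‖ ≠ 0 := norm_ne_zero_iff.2 hz0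
      refine ⟨((r / ‖z‖ : ℝ) : ℂ) * z, ?_, ?_⟩
      · rw [norm_mul, Complex.norm_real, Real.norm_of_nonneg (by positivity)]
        field_simp
      · have e : z - ((r / ‖z‖ : ℝ) : ℂ) * z = (((1 - r / ‖z‖ : ℝ)) : ℂ) * z := by
          push_cast
          ring
        rw [e, norm_mul, Complex.norm_real, Real.norm_eq_abs]
        have e2 : |1 - r / ‖z‖| * ‖z‖ = |‖z‖ - r| := by
          have h5 : ‖z‖ - r = (1 - r / ‖z‖) * ‖z‖ := by field_simp
          rw [h5, abs_mul, abs_of_nonneg (norm_nonneg z)]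
        rw [e2]
        exact hz
  obtain ⟨z', hz', hzz⟩ := h4
  have h5 := h3 z' hz'
  have h7 : ‖y' + z • a - (y + z' • a)‖ ≤ 2 * δ := by
    have e : y' + z • a - (y + z' • a) = (y' - y) + (z - z') • a := by rw [sub_smul]; abel
    rw [e]
    refine (norm_add_le _ _).trans ?_
    rw [GeoC_smul h.norm]
    linarith
  have h8 := gd_near h5 h7
  have e : 4 * δ - 2 * δ = 2 * δ := by ring
  rw [e] at h8
  exact h8

/-- subsets of the hits of a line are closed -/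
theorem hits_closed (hi : ∀ y : Vd (k + 1), ∀ᶠ z in 𝓝[≠] (0 : ℂ), y + z • a ∉ D) {S : Set (Vd (k + 1))} (hS : S ⊆ D) (y : Vd (k + 1)) : IsClosed {z : ℂ | y + z • a ∈ S} := by
  rw [← isOpen_compl_iff, isOpen_iff_mem_nhds]
  intro z hz
  obtain ⟨ε, hε, h⟩ := GeoC_iso hi y z
  filter_upwards [ball_mem_nhds z hε] with w hw hwS
  by_cases hwz : w = z
  · rw [hwz] at hwS
    exact hz hwS
  · exact h w hwz (by rw [← dist_eq_norm]; exact hw) (hS hwS)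

/-- the hits of a line are countable -/
theorem LC.countable {ρ δ : ℝ} (h : LC D Bad a ρ δ) (y : Vd (k + 1)) : {z : ℂ | y + z • a ∈ D}.Countable :=
  GeoC_countable h.iso y

end Pool.Agent.G4.A

end

section

/-!
# G3 Z CDefs: the finite set of the global sections, simple tori, the interface to the blocks (A) and (C)

`Csf X Λ u D S`: `S` is a finite set of sections of `u`, holomorphic outside `D`, meromorphic everywhere, and every entire curve over a line is one of them on this line.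
`mer` is stated for every direction `a`: at every `y` there is an analytic lift `φ` which is not identically `0` on the line through `y` in the direction `a`.
`Simp Λ`: the torus `ℂ² / Λ` contains no elliptic curve.
`JBd`: bounds for the integrals `JJ (α j)` of finitely many forms along short paths in the fibres.
`HPl`: every line has a half plane in which all hits of `D` are good: not in `B`, and transversal.
-/

set_option autoImplicit false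

open Topology Filter Metric

namespace Pool.Agent.G3

open Pool.Agent.H36.BP (EN fs wd Sub)
open Pool.Agent.H14.PP (IsCone CurveAt Tan)
open Pool.Agent.H62.EF (MN pr)
open Pool.Agent.AD (Vd Chart Charts)
open Pool.Agent.TG (TMap Lat Geo Gd)

open Pool.Agent.TG (VForm JJ Fb TransAt)
open Pool.Agent.G3.C (HP)

variable {N k : ℕ}

/-- the finite set of the global sections -/
structure Csf (X : Set (EN N)) (Λ : AddSubgroup (Vd (k + 1))) (u : EN N → Vd (k + 1)) (D : Set (Vd (k + 1))) (S : Set (Vd (k + 1) → MN N)) : Prop where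
  fin : S.Finite
  hol : ∀ Φ ∈ S, ∀ y ∉ D, ∃ φ : Vd (k + 1) → EN N, AnalyticAt ℂ φ y ∧ ∀ᶠ z in 𝓝 y, φ z ∈ X ∧ Φ z = pr (φ z) ∧ u (φ z) - z ∈ Λ
  mer : ∀ Φ ∈ S, ∀ a : Vd (k + 1), a ≠ 0 → ∀ y, ∃ φ : Vd (k + 1) → EN N, AnalyticAt ℂ φ y ∧ (∃ᶠ w in 𝓝 (0 : ℂ), φ (y + w • a) ≠ 0) ∧
    ∀ᶠ z in 𝓝 y, z ∉ D → φ z ≠ 0 → Φ z = pr (φ z)
  tr : ∀ Φ ∈ S, ∀ l ∈ Λ, ∃ Φ' ∈ S, ∀ y ∉ D, Φ' y = Φ (y + l)
  cls : ∀ a : Vd (k + 1), a ≠ 0 → ∀ (b : Vd (k + 1)) (G : ℂ → EN N), Cv X Λ u Set.univ G (fun z => z • a + b) →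
    ∃ Φ ∈ S, ∀ z : ℂ, z • a + b ∉ D → pr (G z) = Φ (z • a + b)

/-- the torus contains no elliptic curve -/
def Simp (Λ : AddSubgroup (Vd (k + 1))) : Prop :=
  ∀ a : Vd (k + 1), a ≠ 0 → ∀ ω₁ ω₂ : ℂ, ω₁ • a ∈ Λ → ω₂ • a ∈ Λ → ¬ LinearIndependent ℝ ![ω₁, ω₂]

/-- bounds for the integrals along short paths -/
structure JBd (X : Set (EN N)) (Λ : AddSubgroup (Vd (k + 1))) (u : EN N → Vd (k + 1)) (D : Set (Vd (k + 1))) {J : ℕ} (α : Fin J → VForm X Λ u) (c₀ : ℝ) : Prop where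
  pos : 0 < c₀
  ub : ∀ δ : ℝ, 0 < δ → ∃ ε₀ C : ℝ, 0 < ε₀ ∧ 0 < C ∧ ∀ j, ∀ y ∈ Gd D δ, ∀ n ∈ Fb X Λ u y, ∀ n' ∈ Fb X Λ u y, dist n n' ≤ ε₀ →
    ‖JJ (α j) y n n'‖ ≤ C * Real.exp (-c₀ * ‖y‖ ^ 2) * dist n n'
  lb : ∀ δ R : ℝ, 0 < δ → ∃ ε₀ c : ℝ, 0 < ε₀ ∧ 0 < c ∧ ∀ y ∈ Gd D δ, ‖y‖ ≤ R → ∀ n ∈ Fb X Λ u y, ∀ n' ∈ Fb X Λ u y, dist n n' ≤ ε₀ →
    ∃ j, c * dist n n' ≤ ‖JJ (α j) y n n'‖

/-- every line has a half plane in which all hits of `D` are good -/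
def HPl (D B : Set (Vd (k + 1))) : Prop :=
  ∀ a : Vd (k + 1), a ≠ 0 → ∀ b : Vd (k + 1), ∃ (ω : ℂ) (η : ℝ), ‖ω‖ = 1 ∧ ∀ z ∈ HP ω η, z • a + b ∈ D → z • a + b ∉ B ∧ TransAt D (z • a + b) a

/-- the points of `D` on a line are isolated -/
def LDi (D : Set (Vd (k + 1))) : Prop := ∀ a : Vd (k + 1), a ≠ 0 → ∀ (b : Vd (k + 1)) (z : ℂ), ∀ᶠ w in 𝓝[≠] z, w • a + b ∉ D

/-- the limit situation: the curves `F n` over `h n` converge to the section `Φ` on the line `b + ℂ a` -/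
structure Lim (X : Set (EN N)) (Λ : AddSubgroup (Vd (k + 1))) (u : EN N → Vd (k + 1)) (D : Set (Vd (k + 1))) (𝒰 : Ultrafilter ℕ) (F : ℕ → ℂ → EN N)
    (h : ℕ → ℂ → Vd (k + 1)) (a b : Vd (k + 1)) (Φ : Vd (k + 1) → MN N) : Prop where
  cv : ∀ r : ℝ, ∀ᶠ n in (𝒰 : Filter ℕ), Cv X Λ u (ball 0 r) (F n) (h n)
  a_ne : a ≠ 0
  hlim : ∀ r ε : ℝ, 0 < ε → ∀ᶠ n in (𝒰 : Filter ℕ), ∀ z ∈ closedBall (0 : ℂ) r, ‖h n z - (z • a + b)‖ < ε
  flim : ∀ K : Set ℂ, IsCompact K → (∀ z ∈ K, z • a + b ∉ D) → ∀ ε : ℝ, 0 < ε → ∀ᶠ n in (𝒰 : Filter ℕ), ∀ z ∈ K, dist (pr (F n z)) (Φ (z • a + b)) < ε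

/-- Theorem LCT: there are no curves over nearly affine arcs such that `Lam (z) ≥ Lam (0) + log |E z|` approximately, with `E` holomorphic without zeros -/
def LCT (X : Set (EN N)) (Λ : AddSubgroup (Vd (k + 1))) (u : EN N → Vd (k + 1)) (Q : EN N → ℂ) (d : ℕ) (p : EN N → EN N → ℝ) (m : ℕ) : Prop :=
  ∀ (𝒰 : Ultrafilter ℕ) (a : Vd (k + 1)) (F : ℕ → ℂ → EN N) (h : ℕ → ℂ → Vd (k + 1)) (E : ℕ → ℂ → ℂ), a ≠ 0 →
    (∀ r : ℝ, ∀ᶠ n in (𝒰 : Filter ℕ), Cv X Λ u (ball 0 r) (F n) (h n)) → (∀ᶠ n in (𝒰 : Filter ℕ), Ok Q p (F n) 0) →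
    (∀ r ε : ℝ, 0 < ε → ∀ᶠ n in (𝒰 : Filter ℕ), ∀ z ∈ ball (0 : ℂ) r, ‖deriv (h n) z - a‖ ≤ ε) →
    (∀ r : ℝ, ∀ᶠ n in (𝒰 : Filter ℕ), DifferentiableOn ℂ (E n) (ball 0 r) ∧ (∀ z ∈ ball (0 : ℂ) r, E n z ≠ 0) ∧ E n 0 = 1) →
    (∀ r ε : ℝ, 0 < ε → ∀ᶠ n in (𝒰 : Filter ℕ), ∀ z ∈ ball (0 : ℂ) r, Ok Q p (F n) z →
      Lam Q d p m (F n) (h n) 0 + Real.log ‖E n z‖ - ε ≤ Lam Q d p m (F n) (h n) z) → False

end Pool.Agent.G3

end

section

/-!
# G3 Z Sit: the data of Theorem LCT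

`Crs`: the crossing statement at good hits, for arcs near a line.  `Sit`: all data.  `Arr`: the curves of Theorem LCT after translations by the lattice, with their limit.
-/

set_option autoImplicit false

open Topology Filter Metric

namespace Pool.Agent.G3

open Pool.Agent.H36.BP (EN fs wd Sub)
open Pool.Agent.H14.PP (IsCone CurveAt Tan)
open Pool.Agent.H62.EF (MN pr)
open Pool.Agent.AD (Vd Chart Charts)
open Pool.Agent.TG (TMap Lat Geo Gd)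

open Pool.Agent.TG (VForm JJ II Cst Fb TransAt)
open Pool.Agent.G3.C (HP)

variable {N k : ℕ}

/-- the crossing statement: at a transversal hit of `D` outside `B` the integral of a form along short paths from `F` to `G` extends holomorphically over the hit, for all arcs near the line -/
def Crs (X : Set (EN N)) (Λ : AddSubgroup (Vd (k + 1))) (u : EN N → Vd (k + 1)) (D B : Set (Vd (k + 1))) : Prop :=
  ∀ q e : Vd (k + 1), q ∈ D → q ∉ B → TransAt D q e → ∃ s₁ : ℝ, 0 < s₁ ∧ ∀ η : ℝ, 0 < η → ∃ s₀ ρ₀ : ℝ, 0 < s₀ ∧ s₀ < η ∧ 2 * s₀ < s₁ ∧ 0 < ρ₀ ∧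
    (∀ γ : ℂ → Vd (k + 1), DifferentiableOn ℂ γ (ball 0 s₁) → (∀ z ∈ ball (0 : ℂ) s₁, ‖γ z - (q + z • e)‖ ≤ ρ₀) →
      ∀ z ∈ ball (0 : ℂ) (2 * s₀), γ z ∈ D → ‖z‖ < s₀ / 4) ∧
    ∀ δ ε ε₀ : ℝ, Cst X Λ u D δ ε ε₀ → ∃ ε₁ : ℝ, 0 < ε₁ ∧ ε₁ ≤ ε₀ ∧ ∀ γ : ℂ → Vd (k + 1), DifferentiableOn ℂ γ (ball 0 s₁) →
      (∀ z ∈ ball (0 : ℂ) s₁, ‖γ z - (q + z • e)‖ ≤ ρ₀) → (∀ z : ℂ, s₀ / 4 ≤ ‖z‖ → ‖z‖ ≤ s₀ → γ z ∈ Gd D δ) →
      ∀ (α : VForm X Λ u) (F G : ℂ → EN N), Cv X Λ u (ball 0 (2 * s₀)) F γ → Cv X Λ u (ball 0 (2 * s₀)) G γ →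
        (∀ z : ℂ, s₀ / 4 ≤ ‖z‖ → ‖z‖ ≤ s₀ → dist (pr (F z)) (pr (G z)) ≤ ε₁) →
        ∃ K : ℂ → ℂ, DifferentiableOn ℂ K (ball 0 s₀) ∧ ∀ z : ℂ, s₀ / 4 < ‖z‖ → ‖z‖ < s₀ → K z = II α ε (γ z) (pr (F z)) (pr (G z))

/-- the data of Theorem LCT -/
structure Sit (X : Set (EN N)) (Λ : AddSubgroup (Vd (1 + 1))) (u : EN N → Vd (1 + 1)) (D B : Set (Vd (1 + 1))) (p : EN N → EN N → ℝ) (m : ℕ) (C : ℝ) (Q : EN N → ℂ) (d : ℕ)
    (S : Set (Vd (1 + 1) → MN N)) {J : ℕ} (α : Fin J → VForm X Λ u) (c₀ : ℝ) : Prop where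
  geo : Geo X Λ u D B
  simp : Simp Λ
  ldi : LDi D
  ps : PS X Λ u D p m C
  qd : QD X Λ u D Q d
  q_ne : ∀ x ∈ X, ∃ᶠ x' in 𝓝 x, x' ∈ X ∧ Q x' ≠ 0
  csf : Csf X Λ u D S
  q_sec : ∀ Φ ∈ S, ∀ y ∉ D, ∀ x ∈ X, pr x = Φ y → Q x = 0
  jbd : JBd X Λ u D α c₀
  hpl : HPl D B
  crs : Crs X Λ u D B

/-- the curves of Theorem LCT with their limit, the section `Φ` over the line `b + ℂ a` -/
structure Arr (X : Set (EN N)) (Λ : AddSubgroup (Vd (k + 1))) (u : EN N → Vd (k + 1)) (D : Set (Vd (k + 1))) (Q : EN N → ℂ) (d : ℕ) (p : EN N → EN N → ℝ) (m : ℕ)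
    (𝒰 : Ultrafilter ℕ) (F : ℕ → ℂ → EN N) (h : ℕ → ℂ → Vd (k + 1)) (E : ℕ → ℂ → ℂ) (a b : Vd (k + 1)) (Φ : Vd (k + 1) → MN N) : Prop where
  lim : Lim X Λ u D 𝒰 F h a b Φ
  ok : ∀ᶠ n in (𝒰 : Filter ℕ), Ok Q p (F n) 0
  dh : ∀ r ε : ℝ, 0 < ε → ∀ᶠ n in (𝒰 : Filter ℕ), ∀ z ∈ ball (0 : ℂ) r, ‖deriv (h n) z - a‖ ≤ ε
  ex : ∀ r : ℝ, ∀ᶠ n in (𝒰 : Filter ℕ), DifferentiableOn ℂ (E n) (ball 0 r) ∧ (∀ z ∈ ball (0 : ℂ) r, E n z ≠ 0) ∧ E n 0 = 1
  star : ∀ r ε : ℝ, 0 < ε → ∀ᶠ n in (𝒰 : Filter ℕ), ∀ z ∈ ball (0 : ℂ) r, Ok Q p (F n) z →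
    Lam Q d p m (F n) (h n) 0 + Real.log ‖E n z‖ - ε ≤ Lam Q d p m (F n) (h n) z

/-- the integral of the form from the section to the curve -/
noncomputable def gg {X : Set (EN N)} {Λ : AddSubgroup (Vd (k + 1))} {u : EN N → Vd (k + 1)} (α : VForm X Λ u) (Φ : Vd (k + 1) → MN N) (F : ℂ → EN N) (h : ℂ → Vd (k + 1))
    (z : ℂ) : ℂ := JJ α (h z) (Φ (h z)) (pr (F z))

end Pool.Agent.G3

end

section

/-!
# G3 X Defs: uniform crossing for arcs, definitions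

Plan of the block `G3/X` (helper19).  Near a point `p ∈ D \ B` choose coordinates `κ` of the base in which `D` is `{q 0 = 0}` and the given line `p + z e` is `{q_1 = .. = q_k = 0}` (`LnC`).  An
arc near the line is `ar κ g`, the graph of a small function `g` (`Inv`).  `X` is covered near the fibre over `p` by finitely many normal crossing charts (`NCh`: `u = κ (x ^ a y ^ b, s)` in suitable
coordinates) and finitely many witness charts (`Fam`, `FamG`); cut with the graph of `g` (`emb`) they give a tube (in the sense of `H62/EL`) for the surface `Ya`, the part of `X` over the arc,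
with constants which do not depend on `g`.
-/

set_option autoImplicit false

open Topology Filter Metric

namespace Pool.Agent.GX

open Pool.Agent.H36.BP (EN fs wd)
open Pool.Agent.H14.PP (IsCone CurveAt Tan)
open Pool.Agent.H62.EF (MN pr)
open Pool.Agent.AD (Vd Chart Charts IsGerm)
open Pool.Agent.TG (TMap Lat tl nm IsStr IsNC IsCoord Geo VForm ms Str IsPrim Cap IRel II TransAt Gd Cst DV fr)

variable {N k : ℕ}

/-- the graph of `g` -/
def cg (g : ℂ → Fin k → ℂ) (z : ℂ) : Vd (k + 1) := Fin.cons (α := fun _ => ℂ) z (g z)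

/-- the arc with the coordinates `cg g` -/
def ar (κ : Vd (k + 1) → Vd (k + 1)) (g : ℂ → Fin k → ℂ) (z : ℂ) : Vd (k + 1) := κ (cg g z)

variable (X : Set (EN N)) (Λ : AddSubgroup (Vd (k + 1))) (u : EN N → Vd (k + 1))

/-- the part of `X` over the closed disc of radius `s` in the arc -/
def Ya (κ : Vd (k + 1) → Vd (k + 1)) (g : ℂ → Fin k → ℂ) (s : ℝ) : Set (EN N) := {x | x ∈ X ∧ ∃ z : ℂ, ‖z‖ ≤ s ∧ u x - ar κ g z ∈ Λ}

open Classical in
/-- the coordinate `z` -/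
noncomputable def wa (κ : Vd (k + 1) → Vd (k + 1)) (g : ℂ → Fin k → ℂ) (s : ℝ) (x : EN N) : ℂ :=
  if h : ∃ z : ℂ, ‖z‖ ≤ s ∧ u x - ar κ g z ∈ Λ then h.choose else 0

/-- the determinant of the tangent vector of the arc and the vectors `fr` -/
noncomputable def dta (κ : Vd (k + 1) → Vd (k + 1)) (g : ℂ → Fin k → ℂ) (z : ℂ) : ℂ :=
  (Matrix.of fun i j => (Fin.cons (deriv (ar κ g) z) (fr κ (cg g) z) : Fin (k + 1) → Vd (k + 1)) i j).det

/-- the geometric data and the coordinates `κ` on the polydisc of radius `R`, with the inverse `ψ` -/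
structure Kp (D : Set (Vd (k + 1))) (κ ψ : Vd (k + 1) → Vd (k + 1)) (R : ℝ) : Prop where
  cone : IsCone X
  charts : Charts (k + 2) X
  tor : TMap X Λ u
  lat : Lat Λ
  sub : ∀ y ∉ D, ∀ x ∈ X, u x - y ∈ Λ → IsStr X Λ u x y
  pos : 0 < R
  κ_an : ∀ q ∈ ball (0 : Vd (k + 1)) R, AnalyticAt ℂ κ q
  ψ_an : ∀ q ∈ ball (0 : Vd (k + 1)) R, AnalyticAt ℂ ψ (κ q)
  ψ_κ : ∀ q ∈ ball (0 : Vd (k + 1)) R, ψ (κ q) = q
  κ_ψ : ∀ q ∈ ball (0 : Vd (k + 1)) R, ∀ᶠ y in 𝓝 (κ q), κ (ψ y) = y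
  inj : ∀ q ∈ ball (0 : Vd (k + 1)) R, ∀ q' ∈ ball (0 : Vd (k + 1)) R, κ q - κ q' ∈ Λ → q = q'
  mem_iff : ∀ q ∈ ball (0 : Vd (k + 1)) R, (κ q ∈ D ↔ q 0 = 0)

variable {X}

variable (X)

variable {X}

end Pool.Agent.GX

end
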