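import Pool.Agent.H94.G5T.AD.Defs
import Pool.Agent.H94.G5T.H36.BP.Defs_1
import Pool.Agent.H94.G5T.M02

/-! The parts of this file: G4.K.Defs, H36.BP.MaxP, H36.BP.MtA, G3.LLift. -/

section

/-!
# G4 K Defs: local complete intersections of codimension `2`, the Schwarz property; definitions

`RSys U r σ β`: for `x ∈ U` the numbers `β x i` are the zeros of `σ (x, ·)` in the disc of radius `r`, with multiplicities.  `Lc`: adapted coordinates `((z, v), w)` for the set `σ = 0 = ρ`: `w` is a zero of `σ ((z, v), ·)`, and `v` is a zero of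
the norm `∏ j, ρ ((z, v), β (z, v) j)`.  `Sw d Z`: near each point of `Z` there are, for every `T`, `s * T ^ d` linear conditions on holomorphic functions `G` under which `‖G‖` is on `Z` at most `C (3/4) ^ T` times its supremum on `Z`.
`CI Z`: near each of its points `Z` is `{σ = 0 = ρ}`, nowhere dense in `{σ = 0}`.
-/

set_option autoImplicit false

open Topology Filter Metric

namespace Pool.Agent.G4.K

open Pool.Agent.AD (Vd)

/-- the zeros `β x i` of `σ (x, ·)` in the disc of radius `r` -/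
structure RSys {E : Type} [NormedAddCommGroup E] [NormedSpace ℂ E] (U : Set E) (r : ℝ) (σ : E × ℂ → ℂ) {n : ℕ} (β : E → Fin n → ℂ) : Prop where
  op : IsOpen U
  pos : 0 < r
  an : ∀ x ∈ U, ∀ w : ℂ, ‖w‖ ≤ r → AnalyticAt ℂ σ (x, w)
  ne : ∀ x ∈ U, ∀ w : ℂ, ‖w‖ = r → σ (x, w) ≠ 0
  lt : ∀ x ∈ U, ∀ i, ‖β x i‖ < r
  fac : ∀ x ∈ U, ∃ h : ℂ → ℂ, (∀ w : ℂ, ‖w‖ ≤ r → AnalyticAt ℂ h w ∧ h w ≠ 0) ∧ ∀ w : ℂ, ‖w‖ ≤ r → σ (x, w) = (∏ i, (w - β x i)) * h w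

theorem RSys.iff {E : Type} [NormedAddCommGroup E] [NormedSpace ℂ E] {U : Set E} {r : ℝ} {σ : E × ℂ → ℂ} {n : ℕ} {β : E → Fin n → ℂ} (R : RSys U r σ β) {x : E} (hx : x ∈ U)
    {w : ℂ} (hw : ‖w‖ ≤ r) : σ (x, w) = 0 ↔ ∃ i, w = β x i := by
  obtain ⟨h, h1, h2⟩ := R.fac x hx
  rw [h2 w hw, mul_eq_zero, or_iff_left (h1 w hw).2, Finset.prod_eq_zero_iff]
  simp [sub_eq_zero]

/-- adapted coordinates -/
structure Lc {d : ℕ} (σ ρ : (Vd d × ℂ) × ℂ → ℂ) (δ r₁ r₂ : ℝ) (U : Set (Vd d × ℂ)) {n₁ n₂ : ℕ} (α : Vd d → Fin n₁ → ℂ) (β : Vd d × ℂ → Fin n₂ → ℂ) : Prop where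
  pos : 0 < δ
  sub : ∀ z ∈ ball (0 : Vd d) δ, ∀ v : ℂ, ‖v‖ ≤ r₁ → (z, v) ∈ U
  R2 : RSys U r₂ σ β
  an : ∀ x ∈ U, ∀ w : ℂ, ‖w‖ ≤ r₂ → AnalyticAt ℂ ρ (x, w)
  R1 : RSys (ball (0 : Vd d) δ) r₁ (fun x : Vd d × ℂ => ∏ j, ρ (x, β x j)) α

/-- the Schwarz property -/
def Sw {k : ℕ} (d : ℕ) (Z : Set (Vd (k + 1))) : Prop :=
  ∀ y ∈ Z, ∃ (s : ℕ) (C : ℝ), 0 < C ∧ ∃ U ∈ 𝓝 y, ∀ T : ℕ, ∃ Φ : Fin s → (Fin d → Fin T) → (Vd (k + 1) → ℂ) → ℂ,
    (∀ i j (G G' : Vd (k + 1) → ℂ) (c : ℂ), (∀ z, AnalyticAt ℂ G z) → (∀ z, AnalyticAt ℂ G' z) → Φ i j (fun z => G z + c * G' z) = Φ i j G + c * Φ i j G') ∧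
    ∀ (G : Vd (k + 1) → ℂ) (S : ℝ), (∀ z, AnalyticAt ℂ G z) → (∀ z ∈ Z, ‖z - y‖ ≤ 1 → ‖G z‖ ≤ S) → (∀ i j, Φ i j G = 0) → ∀ z ∈ Z, z ∈ U → ‖G z‖ ≤ S * (C * (3 / 4) ^ T)

/-- local complete intersections of codimension `2` -/
def CI {k : ℕ} (Z : Set (Vd (k + 1))) : Prop :=
  ∀ y ∈ Z, ∃ σ ρ : Vd (k + 1) → ℂ, AnalyticAt ℂ σ y ∧ AnalyticAt ℂ ρ y ∧ (∃ᶠ z in 𝓝 y, σ z ≠ 0) ∧ (∀ᶠ z in 𝓝 y, (z ∈ Z ↔ σ z = 0 ∧ ρ z = 0)) ∧
    ∀ᶠ z in 𝓝 y, σ z = 0 → ∃ᶠ z' in 𝓝 z, σ z' = 0 ∧ ρ z' ≠ 0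

end Pool.Agent.G4.K

end

section

/-!
# BP MaxP: the maximum principle

* `not_isLocalMax`: with `0 < c' < c`: `|h z| exp(c'|z - z₀|²) ≤ u z ≤ u z₀ = |h z₀|` near `z₀`, so `|h|` has a local maximum at `z₀`, hence `h` is constant near
  `z₀` (`Complex.eventually_eq_of_isLocalMax_norm`), and `|h z₀| exp(c'|z - z₀|²) ≤ |h z₀|` for `z ≠ z₀` near `z₀`: contradiction.
* `max_principle`: otherwise the maximum of `u` over the compact set (`UpperSemicontinuousOn.exists_isMaxOn`) is `> A ≥ 0` and is attained in `U`.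
-/

set_option autoImplicit false

namespace Pool.Agent.H36.BP

open Filter Topology Metric

variable {N : ℕ}

theorem Sub.not_isLocalMax {u : ℂ → ℝ} {z₀ : ℂ} {c : ℝ} (h : Sub u z₀ c) (hc : 0 < c) : ¬ IsLocalMax u z₀ := by
  intro hmax
  obtain ⟨hpos, hsup⟩ := h
  obtain ⟨f, hf, hf0, hfu⟩ := hsup (c / 2) (by linarith)
  have hmax' : ∀ᶠ z in 𝓝 z₀, u z ≤ u z₀ := hmax
  have h1 : IsLocalMax (norm ∘ f) z₀ := by
    filter_upwards [hfu, hmax'] with z hz1 hz2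
    simp only [Function.comp_apply]
    rw [hf0]
    refine le_trans ?_ (hz1.trans hz2)
    refine le_mul_of_one_le_right (norm_nonneg _) ?_
    exact Real.one_le_exp (by positivity)
  have h2 : ∀ᶠ z in 𝓝 z₀, DifferentiableAt ℂ f z :=
    hf.eventually_analyticAt.mono fun z hz => hz.differentiableAt
  have h3 := Complex.eventually_eq_of_isLocalMax_norm h2 h1
  have h4 : ∀ᶠ z in 𝓝 z₀, z = z₀ := by
    filter_upwards [hfu, hmax', h3] with z hz1 hz2 hz3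
    by_contra hne
    rw [hz3, hf0] at hz1
    have h5 : u z₀ * Real.exp (c / 2 * ‖z - z₀‖ ^ 2) ≤ u z₀ * 1 := by
      rw [mul_one]
      exact hz1.trans hz2
    have h6 := le_of_mul_le_mul_left h5 hpos
    rw [Real.exp_le_one_iff] at h6
    have h7 : 0 < ‖z - z₀‖ := norm_pos_iff.2 (sub_ne_zero.2 hne)
    have h8 : 0 < c / 2 * ‖z - z₀‖ ^ 2 := by positivity
    linarith
  have h9 : ∀ᶠ z in 𝓝[≠] z₀, z = z₀ := h4.filter_mono nhdsWithin_le_nhds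
  have h10 : ∀ᶠ z in 𝓝[≠] z₀, z ≠ z₀ := eventually_mem_nhdsWithin
  obtain ⟨z, hz1, hz2⟩ := (h9.and h10).exists
  exact hz2 hz1

theorem max_principle {S U : Set ℂ} (hS : IsCompact S) (hU : IsOpen U) (hUS : U ⊆ S) {u : ℂ → ℝ}
    (husc : UpperSemicontinuousOn u S) (hsub : ∀ z ∈ U, 0 < u z → ∃ c, 0 < c ∧ Sub u z c) {A : ℝ} (hA : 0 ≤ A)
    (hbd : ∀ z ∈ S \ U, u z ≤ A) : ∀ z ∈ S, u z ≤ A := by
  intro z hz
  by_contra hlt
  push Not at hlt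
  obtain ⟨a, haS, hmax⟩ := UpperSemicontinuousOn.exists_isMaxOn ⟨z, hz⟩ hS husc
  have h1 : u z ≤ u a := hmax hz
  have haU : a ∈ U := by
    by_contra haU
    have := hbd a ⟨haS, haU⟩
    linarith
  obtain ⟨c, hc, hs⟩ := hsub a haU (by linarith)
  refine hs.not_isLocalMax hc ?_
  filter_upwards [hU.mem_nhds haU] with w hw
  exact hmax (hUS hw)

end Pool.Agent.H36.BP

end

section

/-!
# BP MtA: the metric along a curve

* `mt_usc`: `F` and `deriv F` are continuous near `z`, `usc`.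
* `mt_smul`: for `k` holomorphic without zeros at `z`: `(k F)' = k F' + k' F`, `inv`.
* `mt_comp`: `(F ∘ φ)' = φ' F' ∘ φ`, `hom`.
* `mt_limit`: `F n → H` locally uniformly on a neighbourhood of `0`, then `F n 0 → H 0`, `(F n)' 0 → H' 0` (`TendstoLocallyUniformlyOn.deriv`), `usc` at `(H 0, H' 0)`.
-/

set_option autoImplicit false

namespace Pool.Agent.H36.BP

open Filter Topology Metric

variable {N : ℕ}

variable {K B : Set (EN N)} {G : EN N → EN N → ℝ} {ρ : EN N → ℝ} {M : ℕ} {c₀ C : ℝ}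

theorem mt_usc (hM : MetricData K B G ρ M c₀ C) {U : Set ℂ} (hU : IsOpen U) {F : ℂ → EN N} (hF : Curve K U F) :
    UpperSemicontinuousOn (mt G F) U := by
  intro z hz y hy
  have hA : AnalyticAt ℂ F z := hF.1.analyticAt (hU.mem_nhds hz)
  have hc : ContinuousAt (fun w => (F w, deriv F w)) z := hA.continuousAt.prodMk hA.deriv.continuousAt
  have h1 := hM.usc (F z) (hF.2 z hz) (deriv F z) y hy
  have h2 := hc.eventually h1
  filter_upwards [nhdsWithin_le_nhds h2, self_mem_nhdsWithin] with w hw hwU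
  exact hw (hF.2 w hwU)

theorem mt_nonneg (hM : MetricData K B G ρ M c₀ C) {F : ℂ → EN N} {z : ℂ} (hz : F z ∈ K) : 0 ≤ mt G F z := by
  exact hM.nonneg _ hz _

theorem mt_smul (hM : MetricData K B G ρ M c₀ C) {F : ℂ → EN N} {k : ℂ → ℂ} {z : ℂ} (hF : DifferentiableAt ℂ F z)
    (hk : DifferentiableAt ℂ k z) (hz : F z ∈ K) (h0 : k z ≠ 0) : mt G (fun z => k z • F z) z = mt G F z := by
  have h : deriv (fun z => k z • F z) z = k z • deriv F z + deriv k z • F z := by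
    have := (hk.hasDerivAt.smul hF.hasDerivAt).deriv
    exact this
  unfold mt
  rw [h]
  exact hM.inv (F z) hz (deriv F z) (k z) (deriv k z) h0

theorem mt_comp (hM : MetricData K B G ρ M c₀ C) {F : ℂ → EN N} {φ : ℂ → ℂ} {z : ℂ} (hF : DifferentiableAt ℂ F (φ z))
    (hφ : DifferentiableAt ℂ φ z) (hz : F (φ z) ∈ K) : mt G (fun z => F (φ z)) z = ‖deriv φ z‖ * mt G F (φ z) := by
  have h : deriv (fun z => F (φ z)) z = deriv φ z • deriv F (φ z) := by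
    have := (HasDerivAt.scomp z hF.hasDerivAt hφ.hasDerivAt).deriv
    exact this
  unfold mt
  rw [h]
  exact hM.hom (F (φ z)) hz (deriv F (φ z)) (deriv φ z)

theorem mt_limit (hM : MetricData K B G ρ M c₀ C) {κ : Type} {l : Filter κ} [l.NeBot] {F : κ → ℂ → EN N} {H : ℂ → EN N} {s : ℝ} (hs : 0 < s)
    (hF : ∀ᶠ n in l, Curve K (ball 0 s) (F n)) (hH : TendstoLocallyUniformlyOn F H l (ball 0 s)) (h0 : H 0 ∈ K) {a : ℝ}
    (ha : ∀ᶠ n in l, a ≤ mt G (F n) 0) : a ≤ mt G H 0 := by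
  by_contra hlt
  rw [not_le] at hlt
  have hmem : (0 : ℂ) ∈ ball (0 : ℂ) s := mem_ball_self hs
  have h1 : Tendsto (fun n => F n 0) l (𝓝 (H 0)) := hH.tendsto_at hmem
  have hd : TendstoLocallyUniformlyOn (deriv ∘ F) (deriv H) l (ball 0 s) :=
    hH.deriv (hF.mono fun n hn => hn.1) isOpen_ball
  have h2 : Tendsto (fun n => deriv (F n) 0) l (𝓝 (deriv H 0)) := hd.tendsto_at hmem
  have h3 : Tendsto (fun n => (F n 0, deriv (F n) 0)) l (𝓝 (H 0, deriv H 0)) := h1.prodMk_nhds h2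
  have h4 := h3.eventually (hM.usc (H 0) h0 (deriv H 0) a hlt)
  obtain ⟨n, hn1, hn2, hn3⟩ := (h4.and (hF.and ha)).exists
  have h5 : G (F n 0) (deriv (F n) 0) < a := hn1 (hn2.2 0 hmem)
  exact absurd hn3 (not_le.mpr h5)

theorem mt_const (hM : MetricData K B G ρ M c₀ C) {F : ℂ → EN N} {z : ℂ} (hz : F z ∈ K) {a : ℂ} (h : deriv F z = a • F z) : mt G F z = 0 := by
  have h1 : G (F z) 0 = 0 := by
    have := hM.hom (F z) hz 0 0
    simpa using this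
  have h2 := hM.inv (F z) hz 0 1 a one_ne_zero
  rw [smul_zero, zero_add, one_smul, h1] at h2
  unfold mt
  rw [h, h2]

end Pool.Agent.H36.BP

end

section

/-!
# G3 LLift: local lifts of maps to the projective space
-/

set_option autoImplicit false

open Topology Filter Metric

namespace Pool.Agent.G3

open Pool.Agent.H36.BP (EN wd)
open Pool.Agent.H62.EF (MN pr)

/-- `f` has a holomorphic lift near `z` -/
def LLift {N : ℕ} (f : ℂ → MN N) (z : ℂ) : Prop := ∃ Φ : ℂ → EN N, AnalyticAt ℂ Φ z ∧ ∀ᶠ w in 𝓝 z, Φ w ≠ 0 ∧ f w = pr (Φ w)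

end Pool.Agent.G3

end
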