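import Pool.Agent.H94.G5T.AD.Defs
import Pool.Agent.H94.G5T.M02
import Pool.Agent.H94.G5T.M03
import Pool.Agent.H94.G5T.M06
import Pool.Agent.H94.G5T.M15
import Pool.Agent.H94.G5T.M26

/-! The parts of this file: H17.Projective, H17.BrodyLimit, G4.K.Tay, H36.BP.MainA, H36.BP.Nodal, H36.BP.OrdDefs, AD.T.Defs_1, H62.EF.DUl, H62.FC.Defs_1. -/

section

/-!
# Separation of points and charts of projective space
-/

open Topology Filter

namespace Pool.Agent.H17

variable {N : ℕ}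

/-- The vector of the `2 × 2` minors. -/
def minors (v w : Fin (N + 1) → ℂ) : Fin (N + 1) × Fin (N + 1) → ℂ :=
  fun p => v p.1 * w p.2 - v p.2 * w p.1

/-- The separation of two vectors. -/
noncomputable def sepv (v w : Fin (N + 1) → ℂ) : ℝ := ‖minors v w‖ / (‖v‖ * ‖w‖)

/-- The separation of two points of projective space. -/
noncomputable def sep (p q : PN N) : ℝ := sepv p.rep q.rep

lemma minors_smul (a b : ℂ) (v w : Fin (N + 1) → ℂ) :
    minors (a • v) (b • w) = (a * b) • minors v w := by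
  funext p
  simp only [minors, Pi.smul_apply, smul_eq_mul]
  ring

lemma sepv_smul {a b : ℂ} (ha : a ≠ 0) (hb : b ≠ 0) (v w : Fin (N + 1) → ℂ) :
    sepv (a • v) (b • w) = sepv v w := by
  unfold sepv
  rw [minors_smul, norm_smul, norm_smul, norm_smul, norm_mul]
  have h1 := norm_pos_iff.mpr ha
  have h2 := norm_pos_iff.mpr hb
  rw [show ‖a‖ * ‖v‖ * (‖b‖ * ‖w‖) = (‖a‖ * ‖b‖) * (‖v‖ * ‖w‖) by ring]
  rw [mul_div_mul_left _ _ (by positivity)]

lemma exists_smul_rep (v : Fin (N + 1) → ℂ) (hv : v ≠ 0) :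
    ∃ a : ℂ, a ≠ 0 ∧ (Projectivization.mk ℂ v hv).rep = a • v := by
  obtain ⟨a, ha⟩ := Projectivization.exists_smul_eq_mk_rep ℂ v hv
  exact ⟨a, a.ne_zero, by rw [← ha]; rfl⟩

lemma sep_mk (v w : Fin (N + 1) → ℂ) (hv : v ≠ 0) (hw : w ≠ 0) :
    sep (Projectivization.mk ℂ v hv) (Projectivization.mk ℂ w hw) = sepv v w := by
  obtain ⟨a, ha, h1⟩ := exists_smul_rep v hv
  obtain ⟨b, hb, h2⟩ := exists_smul_rep w hw
  unfold sep
  rw [h1, h2, sepv_smul ha hb]

lemma minors_self (v : Fin (N + 1) → ℂ) : minors v v = 0 := by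
  funext p
  simp only [minors, Pi.zero_apply]
  ring

/-- Vectors with vanishing minors are proportional. -/
lemma mk_eq_of_minors {v w : Fin (N + 1) → ℂ} (hv : v ≠ 0) (hw : w ≠ 0) (h : minors v w = 0) :
    Projectivization.mk ℂ v hv = Projectivization.mk ℂ w hw := by
  obtain ⟨i, hi⟩ : ∃ i, w i ≠ 0 := by
    by_contra hcon
    push Not at hcon
    exact hw (funext hcon)
  have hcross : ∀ j, v i * w j = v j * w i := fun j => by
    have := congrFun h (i, j)
    simp only [minors, Pi.zero_apply] at this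
    exact sub_eq_zero.mp this
  have hvi : v i ≠ 0 := by
    intro h0
    apply hv
    funext j
    have h1 := hcross j
    rw [h0, zero_mul] at h1
    exact (mul_eq_zero.mp h1.symm).resolve_right hi
  rw [Projectivization.mk_eq_mk_iff]
  refine ⟨Units.mk0 (v i / w i) (div_ne_zero hvi hi), ?_⟩
  funext j
  change v i / w i * w j = v j
  have h1 := hcross j
  field_simp
  linear_combination h1

lemma eq_of_sepv_eq_zero {v w : Fin (N + 1) → ℂ} (hv : v ≠ 0) (hw : w ≠ 0) (h : sepv v w = 0) :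
    Projectivization.mk ℂ v hv = Projectivization.mk ℂ w hw := by
  apply mk_eq_of_minors hv hw
  unfold sepv at h
  have h1 : ‖v‖ * ‖w‖ ≠ 0 := mul_ne_zero (norm_ne_zero_iff.mpr hv) (norm_ne_zero_iff.mpr hw)
  rcases div_eq_zero_iff.mp h with h2 | h2
  · exact norm_eq_zero.mp h2
  · exact absurd h2 h1

/-- Continuity of the separation. -/
lemma continuousAt_sepv {v w : Fin (N + 1) → ℂ} (hv : v ≠ 0) (hw : w ≠ 0) :
    ContinuousAt (fun p : (Fin (N + 1) → ℂ) × (Fin (N + 1) → ℂ) => sepv p.1 p.2) (v, w) := by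
  unfold sepv
  refine ContinuousAt.div ?_ ?_ ?_
  · apply Continuous.continuousAt
    refine Continuous.norm ?_
    refine continuous_pi fun q => ?_
    unfold minors
    fun_prop
  · fun_prop
  · exact mul_ne_zero (norm_ne_zero_iff.mpr hv) (norm_ne_zero_iff.mpr hw)

/-- Holomorphic maps into projective space are continuous for the separation. -/
lemma tendsto_sep {f : ℂ → PN N} {U : Set ℂ} (hf : HolomorphicInto f U) {z₀ : ℂ} (hz₀ : z₀ ∈ U) :
    Tendsto (fun p : ℂ × ℂ => sep (f p.1) (f p.2)) (𝓝 (z₀, z₀)) (𝓝 0) := by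
  obtain ⟨φ, hφ, he⟩ := hf z₀ hz₀
  obtain ⟨h0, -⟩ := he.self_of_nhds
  have h1 := continuousAt_sepv h0 h0
  have h2 : Tendsto (fun p : ℂ × ℂ => (φ p.1, φ p.2)) (𝓝 (z₀, z₀)) (𝓝 (φ z₀, φ z₀)) := by
    have h3 := hφ.continuousAt
    exact (h3.tendsto.comp (continuous_fst.tendsto' (z₀, z₀) z₀ rfl)).prodMk_nhds
      (h3.tendsto.comp (continuous_snd.tendsto' (z₀, z₀) z₀ rfl))
  have h3 := h1.tendsto.comp h2
  have h4 : sepv (φ z₀) (φ z₀) = 0 := by
    unfold sepv
    rw [minors_self]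
    simp
  simp only [h4] at h3
  refine h3.congr' ?_
  have h5 : ∀ᶠ p : ℂ × ℂ in 𝓝 (z₀, z₀), (∃ h : φ p.1 ≠ 0, f p.1 = Projectivization.mk ℂ (φ p.1) h) ∧
      (∃ h : φ p.2 ≠ 0, f p.2 = Projectivization.mk ℂ (φ p.2) h) := by
    rw [nhds_prod_eq]
    exact (he.prod_mk he)
  filter_upwards [h5] with p hp
  obtain ⟨⟨h6, h7⟩, h8, h9⟩ := hp
  rw [h7, h9, sep_mk]
  rfl

end Pool.Agent.H17

end

section

/-!
# Limits of holomorphic curves in families of projective algebraic sets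
-/

open Topology Filter

namespace Pool.Agent.H17

variable {N : ℕ}

/-- The common zero locus of a family of forms. -/
def zeroLocus {κ : Type} (G : κ → MvPolynomial (Fin (N + 1)) ℂ) : Set (PN N) :=
  {x | ∀ l, VanishesAt (G l) x}

lemma vanishesAt_mk_iff {P : MvPolynomial (Fin (N + 1)) ℂ} {d : ℕ} (hP : P.IsHomogeneous d)
    (v : Fin (N + 1) → ℂ) (hv : v ≠ 0) :
    VanishesAt P (Projectivization.mk ℂ v hv) ↔ MvPolynomial.eval v P = 0 := by
  obtain ⟨a, ha, h1⟩ := exists_smul_rep v hv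
  unfold VanishesAt
  have h2 : (a • v) = fun k => a * v k := by
    funext k
    simp
  rw [h1, h2, eval_smul_of_isHomogeneous hP]
  constructor
  · intro h
    exact (mul_eq_zero.mp h).resolve_left (pow_ne_zero _ ha)
  · intro h
    rw [h, mul_zero]

end Pool.Agent.H17

end

section

/-!
# G4 K Tay: `T ^ d` linear conditions under which a holomorphic function of `d` variables has a zero of order `T` at `0`

The Taylor coefficients of exponents `< T` in each variable: for `n < T` the value of `iteratedFDeriv ℂ n G 0` at `(z, …, z)` is a combination of the sums `tco α G` of its values at the families of basis vectors of type `α`, `∑ j, α j = n`.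
-/

set_option autoImplicit false

open Topology Filter Metric

namespace Pool.Agent.G4.K

open Pool.Agent.AD (Vd)

/-- the type of a sequence of indices -/
private def tty {n d : ℕ} (s : Fin n → Fin d) (j : Fin d) : ℕ := (Finset.univ.filter fun i => s i = j).card

private theorem tty_le {n d : ℕ} (s : Fin n → Fin d) (j : Fin d) : tty s j ≤ n := by
  have h := Finset.card_filter_le (Finset.univ : Finset (Fin n)) (fun i => s i = j)
  rw [Finset.card_univ, Fintype.card_fin] at h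
  exact h

private theorem tty_sum {n d : ℕ} (s : Fin n → Fin d) : ∑ j, tty s j = n := by
  have h := Finset.card_eq_sum_card_fiberwise (s := (Finset.univ : Finset (Fin n))) (t := (Finset.univ : Finset (Fin d))) (f := s) (fun _ _ => Finset.mem_coe.2 (Finset.mem_univ _))
  rw [Finset.card_univ, Fintype.card_fin] at h
  exact h.symm

/-- the value of the `n`-th derivative at a family of basis vectors -/
private noncomputable def tde {n d : ℕ} (s : Fin n → Fin d) (G : Vd d → ℂ) : ℂ :=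
  iteratedFDeriv ℂ n G 0 fun i => (Pi.single (s i) (1 : ℂ) : Vd d)

/-- the sum of these values over the families of type `α` -/
private noncomputable def tco {d : ℕ} (n : ℕ) (α : Fin d → ℕ) (G : Vd d → ℂ) : ℂ :=
  ∑ s : Fin n → Fin d, if tty s = α then tde s G else 0

private theorem tde_add {n d : ℕ} (s : Fin n → Fin d) {G G' : Vd d → ℂ} (c : ℂ) (hG : AnalyticAt ℂ G 0) (hG' : AnalyticAt ℂ G' 0) :
    tde s (fun z => G z + c * G' z) = tde s G + c * tde s G' := by
  have h1 : (fun z => G z + c * G' z) = G + c • G' := by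
    funext z
    simp
  have h3 : ContDiffAt ℂ (n : ℕ) (c • G') (0 : Vd d) := hG'.contDiffAt.const_smul c
  rw [tde, h1, iteratedFDeriv_add_apply hG.contDiffAt h3, iteratedFDeriv_const_smul_apply hG'.contDiffAt]
  rfl

private theorem tco_add {n d : ℕ} (α : Fin d → ℕ) {G G' : Vd d → ℂ} (c : ℂ) (hG : AnalyticAt ℂ G 0) (hG' : AnalyticAt ℂ G' 0) :
    tco n α (fun z => G z + c * G' z) = tco n α G + c * tco n α G' := by
  rw [tco, tco, tco, Finset.mul_sum, ← Finset.sum_add_distrib]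
  refine Finset.sum_congr rfl fun s _ => ?_
  by_cases h : tty s = α
  · rw [if_pos h, if_pos h, if_pos h, tde_add s c hG hG']
  · rw [if_neg h, if_neg h, if_neg h]
    simp

private theorem tco_congr {n d : ℕ} (α : Fin d → ℕ) {G G' : Vd d → ℂ} (h : G =ᶠ[𝓝 0] G') : tco n α G = tco n α G' := by
  rw [tco, tco]
  refine Finset.sum_congr rfl fun s _ => ?_
  rw [tde, tde, (h.iteratedFDeriv ℂ n).eq_of_nhds]

private theorem tit {n d T : ℕ} (hn : n < T) {G : Vd d → ℂ} (h : ∀ α : Fin d → Fin T, tco (∑ j, (α j : ℕ)) (fun j => (α j : ℕ)) G = 0) (z : Vd d) :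
    (iteratedFDeriv ℂ n G 0 fun _ => z) = 0 := by
  classical
  have h1 : (iteratedFDeriv ℂ n G 0 fun _ => z) = ∑ s : Fin n → Fin d, (∏ i, z (s i)) * tde s G := by
    have h2 : (fun _ : Fin n => z) = fun _ : Fin n => ∑ j, z j • (Pi.single j (1 : ℂ) : Vd d) := by
      funext _
      exact pi_eq_sum_univ' z
    rw [h2, ContinuousMultilinearMap.map_sum]
    refine Finset.sum_congr rfl fun s _ => ?_
    rw [ContinuousMultilinearMap.map_smul_univ]
    rfl
  rw [h1]
  have h3 : ∀ s : Fin n → Fin d, ∏ i, z (s i) = ∏ j, z j ^ tty s j := by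
    intro s
    rw [← Finset.prod_fiberwise (Finset.univ : Finset (Fin n)) s (fun i => z (s i))]
    refine Finset.prod_congr rfl fun j _ => ?_
    rw [tty, ← Finset.prod_const]
    refine Finset.prod_congr rfl fun i hi => ?_
    rw [(Finset.mem_filter.1 hi).2]
  have h4 : ∑ s : Fin n → Fin d, (∏ i, z (s i)) * tde s G =
      ∑ α ∈ (Finset.univ : Finset (Fin n → Fin d)).image tty, (∏ j, z j ^ α j) * tco n α G := by
    rw [← Finset.sum_fiberwise_of_maps_to (s := (Finset.univ : Finset (Fin n → Fin d))) (t := (Finset.univ : Finset (Fin n → Fin d)).image tty) (g := tty)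
      (fun s hs => Finset.mem_image_of_mem tty hs)]
    refine Finset.sum_congr rfl fun α _ => ?_
    rw [tco, Finset.mul_sum, Finset.sum_filter]
    refine Finset.sum_congr rfl fun s _ => ?_
    by_cases hs : tty s = α
    · rw [if_pos hs, if_pos hs, h3, hs]
    · rw [if_neg hs, if_neg hs, mul_zero]
  rw [h4]
  refine Finset.sum_eq_zero fun α hα => ?_
  obtain ⟨s, _, rfl⟩ := Finset.mem_image.1 hα
  have h5 := h fun j => ⟨tty s j, (tty_le s j).trans_lt hn⟩
  have h6 : (∑ j, ((⟨tty s j, (tty_le s j).trans_lt hn⟩ : Fin T) : ℕ)) = n := tty_sum s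
  rw [h6] at h5
  have h7 : tco n (tty s) G = 0 := h5
  rw [h7, mul_zero]

theorem tay (d T : ℕ) : ∃ Φ : (Fin d → Fin T) → (Vd d → ℂ) → ℂ,
    (∀ i (G G' : Vd d → ℂ) (c : ℂ), AnalyticAt ℂ G 0 → AnalyticAt ℂ G' 0 → Φ i (fun z => G z + c * G' z) = Φ i G + c * Φ i G') ∧
    (∀ i (G G' : Vd d → ℂ), G =ᶠ[𝓝 0] G' → Φ i G = Φ i G') ∧
    ∀ G : Vd d → ℂ, AnalyticAt ℂ G 0 → (∀ i, Φ i G = 0) → ∃ C : ℝ, 0 ≤ C ∧ ∀ᶠ z in 𝓝 (0 : Vd d), ‖G z‖ ≤ C * ‖z‖ ^ T := by
  refine ⟨fun α G => tco (∑ j, (α j : ℕ)) (fun j => (α j : ℕ)) G, fun α G G' c hG hG' => tco_add _ c hG hG',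
    fun α G G' h => tco_congr _ h, fun G hG h => ?_⟩
  obtain ⟨p, r, hp⟩ := hG
  have h1 : ∀ z : Vd d, p.partialSum T z = 0 := by
    intro z
    rw [FormalMultilinearSeries.partialSum]
    refine Finset.sum_eq_zero fun n hn => ?_
    have h2 := hp.factorial_smul z n
    rw [tit (Finset.mem_range.1 hn) h z] at h2
    rw [nsmul_eq_mul] at h2
    exact (mul_eq_zero.1 h2).resolve_left (Nat.cast_ne_zero.2 (Nat.factorial_ne_zero n))
  have h3 := (hp.hasFPowerSeriesAt).isBigO_sub_partialSum_pow T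
  obtain ⟨C, hC, h4⟩ := h3.exists_nonneg
  refine ⟨C, hC, ?_⟩
  filter_upwards [h4.bound] with z hz
  rw [h1 z, sub_zero, zero_add, norm_pow, norm_norm] at hz
  exact hz

end Pool.Agent.G4.K

end

section

/-!
# BP MainA: identity theorems for maps into projective space
-/

set_option autoImplicit false

namespace Pool.Agent.H36.BP

open Filter Topology Metric

variable {N : ℕ}

open Pool.Agent.H17 (PN HolomorphicInto puncturedDisc VanishesAt vanishesAt_mk_iff)

/-- the cone over a subset of projective space -/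
def coneOf (X : Set (PN N)) : Set (EN N) := {x | ∃ h : x.ofLp ≠ 0, Projectivization.mk ℂ _ h ∈ X}

theorem analyticAt_toLp {φ : ℂ → Fin (N + 1) → ℂ} {z : ℂ} (h : AnalyticAt ℂ φ z) :
    AnalyticAt ℂ (fun w => (WithLp.toLp 2 (φ w) : EN N)) z :=
  ((EuclideanSpace.equiv (Fin (N + 1)) ℂ).symm : (Fin (N + 1) → ℂ) →L[ℂ] EN N).analyticAt (φ z) |>.comp h

theorem analyticAt_ofLp {F : ℂ → EN N} {z : ℂ} (h : AnalyticAt ℂ F z) : AnalyticAt ℂ (fun w => (F w).ofLp) z :=
  ((EuclideanSpace.equiv (Fin (N + 1)) ℂ) : EN N →L[ℂ] (Fin (N + 1) → ℂ)).analyticAt (F z) |>.comp h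

theorem mk_smul_eq {x : EN N} (hx : x.ofLp ≠ 0) {c : ℂ} (h : (c • x).ofLp ≠ 0) :
    Projectivization.mk ℂ (c • x).ofLp h = Projectivization.mk ℂ x.ofLp hx := by
  rw [Projectivization.mk_eq_mk_iff']
  exact ⟨c, rfl⟩

theorem coneOf_smul {X : Set (PN N)} {x : EN N} (hx : x ∈ coneOf X) {c : ℂ} (hc : c ≠ 0) : c • x ∈ coneOf X := by
  obtain ⟨h, hX⟩ := hx
  have h2 : (c • x).ofLp ≠ 0 := by
    intro h0
    apply h
    have h3 : c • x.ofLp = 0 := h0
    exact (smul_eq_zero.mp h3).resolve_left hc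
  exact ⟨h2, by rw [mk_smul_eq h]; exact hX⟩

theorem ofLp_ne_zero {x : EN N} (h : x ≠ 0) : x.ofLp ≠ 0 := by
  intro h0
  exact h (by ext i; exact congrFun h0 i)

/-- identity theorem for the vanishing of forms -/
theorem vanish_identity {f : ℂ → PN N} {U : Set ℂ} (hUc : IsPreconnected U) (hf : HolomorphicInto f U)
    {S : Set (MvPolynomial (Fin (N + 1)) ℂ)} (hS : ∀ P ∈ S, ∃ n, P.IsHomogeneous n) {z₀ : ℂ} (hz₀ : z₀ ∈ U)
    (h : ∀ᶠ w in 𝓝 z₀, ∀ P ∈ S, VanishesAt P (f w)) : ∀ z ∈ U, ∀ P ∈ S, VanishesAt P (f z) := by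
  set A : Set ℂ := {z | ∀ᶠ w in 𝓝 z, ∀ P ∈ S, VanishesAt P (f w)} with hA
  have hAo : IsOpen A := by
    rw [isOpen_iff_mem_nhds]
    intro z hz
    exact hz.eventually_nhds
  have hcl : closure A ∩ U ⊆ A := by
    rintro z ⟨hz1, hz2⟩
    obtain ⟨φ, hφ, he⟩ := hf z hz2
    obtain ⟨r, hr, hr1⟩ := Metric.eventually_nhds_iff_ball.mp (hφ.eventually_analyticAt.and he)
    obtain ⟨z', hz'1, hz'2⟩ := mem_closure_iff_nhds.mp hz1 (ball z r) (ball_mem_nhds z hr)
    have hvan : ∀ P ∈ S, ∀ w ∈ ball z r, MvPolynomial.eval (φ w) P = 0 := by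
      intro P hP
      obtain ⟨n, hn⟩ := hS P hP
      have han : AnalyticOnNhd ℂ (fun w => MvPolynomial.aeval (φ w) P) (ball z r) :=
        AnalyticOnNhd.aeval_mvPolynomial (fun i w hw => analyticAt_pi_iff.mp (hr1 w hw).1 i) P
      have h0 : (fun w => MvPolynomial.aeval (φ w) P) =ᶠ[𝓝 z'] 0 := by
        have hz'A : ∀ᶠ w in 𝓝 z', ∀ P ∈ S, VanishesAt P (f w) := hz'2
        filter_upwards [hz'A, isOpen_ball.mem_nhds hz'1] with w hw1 hw2
        obtain ⟨h1, h2⟩ := (hr1 w hw2).2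
        have h3 := hw1 P hP
        rw [h2, vanishesAt_mk_iff hn] at h3
        exact h3
      intro w hw
      exact han.eqOn_zero_of_preconnected_of_eventuallyEq_zero (convex_ball z r).isPreconnected hz'1 h0 hw
    show ∀ᶠ w in 𝓝 z, ∀ P ∈ S, VanishesAt P (f w)
    filter_upwards [ball_mem_nhds z hr] with w hw P hP
    obtain ⟨n, hn⟩ := hS P hP
    obtain ⟨h1, h2⟩ := (hr1 w hw).2
    rw [h2, vanishesAt_mk_iff hn]
    exact hvan P hP w hw
  have hsub : U ⊆ A := hUc.subset_of_closure_inter_subset hAo ⟨z₀, hz₀, h⟩ hcl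
  intro z hz
  have h1 : ∀ᶠ w in 𝓝 z, ∀ P ∈ S, VanishesAt P (f w) := hsub hz
  exact h1.self_of_nhds

/-- the linear forms vanishing at a vector -/
theorem const_identity {f : ℂ → PN N} {U : Set ℂ} (hUc : IsPreconnected U) (hf : HolomorphicInto f U)
    {z₀ : ℂ} (hz₀ : z₀ ∈ U) (h : ∀ᶠ w in 𝓝 z₀, f w = f z₀) : ∀ z ∈ U, f z = f z₀ := by
  set v := (f z₀).rep with hv
  have hv0 : v ≠ 0 := (f z₀).rep_nonzero
  have hfz : f z₀ = Projectivization.mk ℂ v hv0 := (Projectivization.mk_rep _).symm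
  obtain ⟨j, hj⟩ : ∃ j, v j ≠ 0 := by
    by_contra hcon
    push Not at hcon
    exact hv0 (funext hcon)
  set S : Set (MvPolynomial (Fin (N + 1)) ℂ) :=
    {P | ∃ i, P = MvPolynomial.C (v j) * MvPolynomial.X i - MvPolynomial.C (v i) * MvPolynomial.X j} with hSdef
  have hS : ∀ P ∈ S, ∃ n, P.IsHomogeneous n := by
    rintro P ⟨i, rfl⟩
    refine ⟨1, ?_⟩
    have h1 : ∀ (a : ℂ) (i : Fin (N + 1)), (MvPolynomial.C a * MvPolynomial.X i : MvPolynomial (Fin (N + 1)) ℂ).IsHomogeneous 1 := by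
      intro a i
      have := (MvPolynomial.isHomogeneous_C (Fin (N + 1)) a).mul (MvPolynomial.isHomogeneous_X ℂ i)
      simpa using this
    exact (h1 _ _).sub (h1 _ _)
  have hkey : ∀ p : PN N, (∀ P ∈ S, VanishesAt P p) → p = f z₀ := by
    intro p hp
    have hp' : ∀ i, v j * p.rep i = v i * p.rep j := by
      intro i
      have h2 := hp _ ⟨i, rfl⟩
      unfold VanishesAt at h2
      simp only [map_sub, map_mul, MvPolynomial.eval_C, MvPolynomial.eval_X] at h2
      exact sub_eq_zero.mp h2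
    rw [← Projectivization.mk_rep p, hfz, Projectivization.mk_eq_mk_iff']
    refine ⟨p.rep j / v j, ?_⟩
    funext i
    simp only [Pi.smul_apply, smul_eq_mul]
    field_simp
    rw [mul_comm (p.rep j), ← hp' i]
  have hvan : ∀ P ∈ S, VanishesAt P (f z₀) := by
    rintro P ⟨i, rfl⟩
    unfold VanishesAt
    simp only [map_sub, map_mul, MvPolynomial.eval_C, MvPolynomial.eval_X]
    rw [← hv]
    ring
  have hmain := vanish_identity hUc hf hS hz₀ (by
    filter_upwards [h] with w hw P hP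
    rw [hw]
    exact hvan P hP)
  intro z hz
  exact hkey _ (hmain z hz)

theorem preconnected_puncturedDisc : IsPreconnected puncturedDisc := by
  have h : puncturedDisc = Complex.exp '' {z : ℂ | z.re < 0} := by
    ext z
    constructor
    · rintro ⟨h1, h2⟩
      have h3 : z ≠ 0 := h2
      refine ⟨Complex.log z, ?_, Complex.exp_log h3⟩
      rw [mem_ball_zero_iff] at h1
      change (Complex.log z).re < 0
      rw [Complex.log_re]
      exact Real.log_neg (norm_pos_iff.mpr h3) h1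
    · rintro ⟨w, hw, rfl⟩
      refine ⟨?_, Complex.exp_ne_zero w⟩
      rw [mem_ball_zero_iff, Complex.norm_exp]
      have h1 := Real.exp_lt_exp.mpr hw
      rwa [Real.exp_zero] at h1
  rw [h]
  exact (convex_halfSpace_re_lt 0).isPreconnected.image _ Complex.continuous_exp.continuousOn

theorem isOpen_puncturedDisc : IsOpen puncturedDisc :=
  Metric.isOpen_ball.sdiff isClosed_singleton

end Pool.Agent.H36.BP

end

section

/-!
# BP Nodal: the nodal theorem for surfaces in `ℙ(V)`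

Transport of the metric theorem and of `picard_cone` along a linear isomorphism `V ≃ EN N`.
-/

set_option autoImplicit false

namespace Pool.Agent.H36.BP

open Filter Topology Metric

open Pool.Agent.H17 (PN HolomorphicInto puncturedDisc)
open Pool.Agent.H17BP (Surface IsChart)

variable {V : Type} [NormedAddCommGroup V] [NormedSpace ℂ V] {N : ℕ}

/-- the point of `ℙ^N` of a point of `ℙ(V)` -/
noncomputable def toPN (L : V ≃L[ℂ] EN N) (p : Projectivization ℂ V) : PN N :=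
  Projectivization.mk ℂ (L p.rep).ofLp (ofLp_ne_zero fun h => p.rep_nonzero (L.map_eq_zero_iff.mp h))

theorem rep_mk {x : V} (hx : x ≠ 0) : ∃ a : ℂ, a ≠ 0 ∧ (Projectivization.mk ℂ x hx).rep = a • x := by
  obtain ⟨a, ha⟩ := Projectivization.exists_smul_eq_mk_rep ℂ x hx
  exact ⟨a, a.ne_zero, by rw [← ha]; rfl⟩

/-! ### transport of the surface -/

theorem isCone_transport (L : V ≃L[ℂ] EN N) {X : Set V} (hX : Surface X) : Pool.Agent.H14.PP.IsCone (L.symm ⁻¹' X : Set (EN N)) := by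
  refine ⟨?_, ?_, ?_⟩
  · show L.symm 0 ∉ X
    rw [map_zero]
    exact hX.zero
  · intro x hx c hc
    show L.symm (c • x) ∈ X
    rw [map_smul]
    exact hX.smul _ hx c hc
  · rw [← closure_subset_iff_isClosed]
    intro y hy
    rw [Set.insert_eq, closure_union, closure_singleton] at hy
    rcases hy with hy | hy
    · exact Or.inl hy
    · by_cases h0 : y = 0
      · exact Or.inl h0
      · right
        have h1 : L.symm y ∈ closure X := by
          have h2 : closure (L.symm ⁻¹' X : Set (EN N)) = L.symm ⁻¹' (closure X) := by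
            exact (L.symm.toHomeomorph.preimage_closure X).symm
          rw [h2] at hy
          exact hy
        exact hX.closed _ h1 fun h => h0 (L.symm.map_eq_zero_iff.mp h)

theorem germ_transport (L : V ≃L[ℂ] EN N) {X : Set V} {σ : ℂ × ℂ → V} {τ : V → ℂ × ℂ} (h : IsChart X σ τ) :
    IsGermChart (L.symm ⁻¹' X : Set (EN N)) (fun p => L (σ p)) (fun y => τ (L.symm y)) := by
  have hL : ∀ᶠ y in 𝓝 (L (σ 0)), (fun y => L.symm y) y = L.symm y := Filter.Eventually.of_forall fun _ => rfl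
  have ht : Tendsto (fun y => L.symm y) (𝓝 (L (σ 0))) (𝓝 (σ 0)) := by
    have := L.symm.continuous.tendsto (L (σ 0))
    rwa [L.symm_apply_apply] at this
  refine ⟨((L : V →L[ℂ] EN N).analyticAt _).comp h.σ_an, ?_, ?_, ?_, ?_, ?_⟩
  · filter_upwards [h.σ_mem] with p hp
    show L.symm (L (σ p)) ∈ X
    rwa [L.symm_apply_apply]
  · have h1 : AnalyticAt ℂ τ ((fun y => L.symm y) (L (σ 0))) := by
      show AnalyticAt ℂ τ (L.symm (L (σ 0)))
      rw [L.symm_apply_apply]; exact h.τ_an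
    exact h1.comp ((L.symm : EN N →L[ℂ] V).analyticAt _)
  · filter_upwards [h.left] with p hp
    rw [L.symm_apply_apply, hp]
  · filter_upwards [ht.eventually h.right] with y hy hyX
    obtain ⟨c, hc, h1⟩ := hy hyX
    refine ⟨c, hc, ?_⟩
    have h2 : L (L.symm y) = L (c • σ (τ (L.symm y))) := congrArg L h1
    rwa [L.apply_symm_apply, map_smul] at h2
  · have ht2 : Tendsto (fun z : EN N × ℂ => (L.symm z.1, z.2)) (𝓝 (L (σ 0), (1 : ℂ))) (𝓝 (σ 0, (1 : ℂ))) := by
      have h1 : Continuous (fun z : EN N × ℂ => (L.symm z.1, z.2)) := (L.symm.continuous.comp continuous_fst).prodMk continuous_snd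
      have h2 := h1.tendsto (L (σ 0), (1 : ℂ))
      simpa using h2
    filter_upwards [ht2.eventually h.inv] with z hz
    rw [map_smul]
    exact hz

end Pool.Agent.H36.BP

end

section

/-!
# BP OrdDefs: entire curves of order at most two

The characteristic function of an entire curve `f` in `ℙ(V)` is `T_f(r) = inf (-log |F 0|)` over the holomorphic lifts `F` of `f` to the disc of radius `r` (zeros allowed) with
`|F| ≤ 1`.  `OrdTwo f`: `T_f(r) ≤ C (1 + r²)` for all `r > 0`.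
-/

set_option autoImplicit false

namespace Pool.Agent.H36.BP

open Metric

/-- `f` is an entire curve in `ℙ(V)` of order at most two and of finite type: `T_f(r) ≤ C₀ (1 + r²)` -/
def OrdTwo {V : Type} [NormedAddCommGroup V] [NormedSpace ℂ V] (f : ℂ → V) : Prop :=
  ∃ C₀ : ℝ, ∀ r : ℝ, 0 < r → ∃ F : ℂ → V, DifferentiableOn ℂ F (ball 0 r) ∧ (∀ z ∈ ball (0 : ℂ) r, ‖F z‖ ≤ 1) ∧
    Real.exp (-(C₀ * (1 + r ^ 2))) ≤ ‖F 0‖ ∧ ∀ z ∈ ball (0 : ℂ) r, F z = 0 ∨ ∃ c : ℂ, c ≠ 0 ∧ f z = c • F z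

/-- every entire curve of order at most two in `K` which is not constant as a map into projective space lies in `B` -/
def BrodyMod2 {N : ℕ} (K B : Set (EN N)) : Prop :=
  ∀ F : ℂ → EN N, Differentiable ℂ F → (∀ z, F z ∈ K) → (∃ z w, ∀ c : ℂ, F z ≠ c • F w) → OrdTwo F → ∀ z, F z ∈ B

end Pool.Agent.H36.BP

end

section

/-!
# AD T Defs: symmetric differentials and holomorphic maps to complex tori, in any dimension
-/

set_option autoImplicit false

open Topology Filter

namespace Pool.Agent.AD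

open Pool.Agent.H36.BP (EN)
open Pool.Agent.H14.PP (Tan)

variable {N : ℕ}

/-- A symmetric differential of degree `m` on the projective manifold whose cone is `X`: a function on the tangent bundle (in the language
of the cone), homogeneous of degree `m` on the tangent spaces, which is holomorphic on the tangent bundle of `ℂ^k` for every holomorphic
map from an open subset of `ℂ^k` to the manifold, for all `k`. -/
structure SymDiff (X : Set (EN N)) (m : ℕ) where
  /-- the differential -/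
  toFun : EN N → EN N → ℂ
  add_smul : ∀ x v, Tan X x v → ∀ a : ℂ, toFun x (v + a • x) = toFun x v
  smul : ∀ x v, Tan X x v → ∀ a : ℂ, toFun x (a • v) = a ^ m * toFun x v
  scale : ∀ x v, Tan X x v → ∀ c : ℂ, c ≠ 0 → toFun (c • x) (c • v) = toFun x v
  analytic : ∀ (k : ℕ) (φ : (Fin k → ℂ) → EN N) (p w : Fin k → ℂ), AnalyticAt ℂ φ p → (∀ᶠ y in 𝓝 p, φ y ∈ X) →
    AnalyticAt ℂ (fun y : (Fin k → ℂ) × (Fin k → ℂ) => toFun (φ y.1) (fderiv ℂ φ y.1 y.2)) (p, w)

end Pool.Agent.AD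

end

section

/-!
# EF DUl: the derivative of `u`

* `chart_imm`: let `x = χ.σ p`, `v = dσ_p e`, `wd x v = 0`, so `v = a • x` (`x ≠ 0` because `0 ∉ X`).  `χ.q (χ.σ p') = p'` near `p` gives
  `dq_x (dσ_p e) = e`; `χ.q (c • x) = χ.q x` for `c ≠ 0` gives `dq_x x = 0`.  So `e = dq_x v = a dq_x x = 0`.
* `key`: let `v` be a local lift of `u` at `x` (`TorusMap.loc`), `γ`, `D` as in `DU`: `D - v ∘ γ` is continuous near `0` with values in `Λ`
  (`u (γ z) - v (γ z) ∈ Λ`), so constant near `0`, `D' 0 = dv_x (γ' 0)`.  `DU.unique` follows.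
* `DU.of_chart`: `γ z = χ.σ (p + z e)`, `D z = υ (p + z e)`.
* `DU.chart`: near `0`, `γ z ∈ X ∩ χ.U`, `π z = χ.q (γ z)` is analytic with `π 0 = p`, and `γ z = a z • χ.σ (π z)` with
  `a z ≠ 0` (`surj`); `a` is analytic (e.g. `a z = ⟨χ.σ p, γ z⟩ / ⟨χ.σ p, χ.σ (π z)⟩`, near `0`), `a 0 = 1` (`γ 0 = χ.σ p ≠ 0`); so
  `v = γ' 0 = dσ_p (π' 0) + a' 0 • χ.σ p`, and `u (γ z) - υ (π z) ∈ Λ` near `0` (`smul`, `lift`), so `D - υ ∘ π` is constant near `0` and
  `c = dυ_p (π' 0)`.
* `DU.smul`: `c • γ`.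
* `DU.of_sec`: `γ z = F (z₀ + z)`, `D z = z₀ + z`.
* `exists_adm`: take the chart `χ` at `x` (`χ.q x = 0`, `x = a • χ.σ 0` with `a ≠ 0`), `v` a local lift of `u` at `χ.σ 0 ∈ X`, `υ = v ∘ χ.σ`, analytic at `0`, and
  `u (χ.σ p) - υ p ∈ Λ` near `0`.  `DU (χ.σ 0) (a⁻¹ • w) c` (`DU.smul`); as in `DU.chart` `c = dυ_0 (π' 0)`, so `dυ_0 ≠ 0` and
  `dυ_p ≠ 0` near `0`.  Choose `s < 2` small.
-/

set_option autoImplicit false

open Topology Filter Metric

namespace Pool.Agent.H62.EF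

open Pool.Agent.H36.BP (EN wd)

variable {N : ℕ} {X : Set (EN N)} {Λ : AddSubgroup ℂ} {u : EN N → ℂ}

private lemma near_const (hΛ : Lat Λ) {E : ℂ → ℂ} (hE : ContinuousAt E 0) (h : ∀ᶠ z in 𝓝 (0 : ℂ), E z ∈ Λ) :
    ∀ᶠ z in 𝓝 (0 : ℂ), E z = E 0 := by
  obtain ⟨δ, hδ, hd⟩ := hΛ.discrete
  have h0 : E 0 ∈ Λ := h.self_of_nhds
  have h1 : ∀ᶠ z in 𝓝 (0 : ℂ), ‖E z - E 0‖ < δ := by
    have h2 : Tendsto (fun z => ‖E z - E 0‖) (𝓝 (0 : ℂ)) (𝓝 ‖E 0 - E 0‖) :=
      ((hE.sub continuousAt_const).norm).tendsto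
    rw [sub_self, norm_zero] at h2
    exact h2.eventually_lt_const hδ
  filter_upwards [h, h1] with z hz hz1
  exact sub_eq_zero.1 (hd _ (Λ.sub_mem hz h0) hz1)

private lemma near_deriv (hΛ : Lat Λ) {D B : ℂ → ℂ} (hD : AnalyticAt ℂ D 0) (hB : AnalyticAt ℂ B 0)
    (h : ∀ᶠ z in 𝓝 (0 : ℂ), D z - B z ∈ Λ) : deriv D 0 = deriv B 0 := by
  have h1 := near_const hΛ (E := fun z => D z - B z) (hD.continuousAt.sub hB.continuousAt) h
  have h2 : deriv (fun z => D z - B z) 0 = 0 := by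
    have h3 : (fun z => D z - B z) =ᶠ[𝓝 (0 : ℂ)] fun _ => D 0 - B 0 := h1
    rw [h3.deriv_eq, deriv_const]
  have h4 : deriv (fun z => D z - B z) 0 = deriv D 0 - deriv B 0 :=
    deriv_fun_sub hD.differentiableAt hB.differentiableAt
  rw [h4] at h2
  exact sub_eq_zero.1 h2

private lemma key (hΛ : Lat Λ) {γ : ℂ → EN N} {D : ℂ → ℂ} {x : EN N} {w : EN N → ℂ}
    (hw : AnalyticAt ℂ w x) (hwl : ∀ᶠ y in 𝓝 x, y ∈ X → u y - w y ∈ Λ) (h1 : AnalyticAt ℂ γ 0)
    (h2 : ∀ᶠ z in 𝓝 (0 : ℂ), γ z ∈ X) (h3 : γ 0 = x) (h4 : AnalyticAt ℂ D 0)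
    (h5 : ∀ᶠ z in 𝓝 (0 : ℂ), u (γ z) - D z ∈ Λ) : deriv D 0 = fderiv ℂ w x (deriv γ 0) := by
  subst h3
  have hc : Tendsto γ (𝓝 (0 : ℂ)) (𝓝 (γ 0)) := h1.continuousAt.tendsto
  have hB : AnalyticAt ℂ (fun z => w (γ z)) 0 := AnalyticAt.fun_comp hw h1
  have h6 : ∀ᶠ z in 𝓝 (0 : ℂ), D z - w (γ z) ∈ Λ := by
    filter_upwards [h2, h5, hc.eventually hwl] with z hz hz1 hz2
    have h7 := Λ.sub_mem (hz2 hz) hz1
    have h8 : u (γ z) - w (γ z) - (u (γ z) - D z) = D z - w (γ z) := by ring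
    rwa [h8] at h7
  rw [near_deriv hΛ h4 hB h6]
  exact (hw.differentiableAt.hasFDerivAt.comp_hasDerivAt 0 h1.differentiableAt.hasDerivAt).deriv

end Pool.Agent.H62.EF

end

section

/-!
# Fermat covers: definitions

Locally closed subsets of `ℙ^N` given by forms and by the condition that some homogeneous
coordinates are not zero, and the monomial curves `t ↦ (a_i t ^ (n_i))` contained in them.
-/

open MvPolynomial
open Pool.Agent.H17 (PN VanishesAt zeroLocus ZariskiClosedIn)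

noncomputable section

namespace Pool.Agent.H62.FC

variable {N : ℕ}

/-- The points of the common zero locus of the forms `A l` with `x i ≠ 0` for `i ∈ O`. -/
def openLocus {κ : Type} (A : κ → MvPolynomial (Fin (N + 1)) ℂ) (O : Finset (Fin (N + 1))) :
    Set (PN N) :=
  {x | x ∈ zeroLocus A ∧ ∀ i ∈ O, x.rep i ≠ 0}

/-- The points of the zero locus of the homogeneous ideal `P` with `x i ≠ 0` for `i ∈ O`. -/
def primeLocus (P : Ideal (MvPolynomial (Fin (N + 1)) ℂ)) (O : Finset (Fin (N + 1))) :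
    Set (PN N) :=
  {x | (∀ Q ∈ P, ∀ n, Q.IsHomogeneous n → VanishesAt Q x) ∧ ∀ i ∈ O, x.rep i ≠ 0}

/-- The union of the images of the non-constant maps `t ↦ (a_i t ^ (n_i))`, `t ≠ 0`, into `X`. -/
def monomialCurves (X : Set (PN N)) : Set (PN N) :=
  {x | ∃ (a : Fin (N + 1) → ℂ) (ha : a ≠ 0) (n : Fin (N + 1) → ℤ),
    x = Projectivization.mk ℂ a ha ∧ (∃ i j, a i ≠ 0 ∧ a j ≠ 0 ∧ n i ≠ n j) ∧
    ∀ (t : ℂ) (h : (fun i => a i * t ^ n i) ≠ 0), t ≠ 0 →
      Projectivization.mk ℂ (fun i => a i * t ^ n i) h ∈ X}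

/-- The Zariski closure of `S` in `X`. -/
def closureIn (X S : Set (PN N)) : Set (PN N) :=
  {x | x ∈ X ∧ ∀ (k : ℕ) (Q : MvPolynomial (Fin (N + 1)) ℂ), Q.IsHomogeneous k →
    (∀ y ∈ S, VanishesAt Q y) → VanishesAt Q x}

/-- The exceptional set of `X`. -/
def excSet (X : Set (PN N)) : Set (PN N) := closureIn X (monomialCurves X)

end Pool.Agent.H62.FC

end
end
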