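import Mathlib

/-! The parts of this file: H13.SM.Pts, H13.SM.Noether, H13.SM.Surf, H23.Omega, H62.FC.Lattice, H92.GT.Homogenize, H92.GT.Index, H99.Cover.Basic, TG.XBl. -/

section

/-!
# The complex points of an affine variety with generic point `a`

`a : ι → K` generates the field `K` over `ℂ`.  The affine variety is the spectrum of
`A = Algebra.adjoin ℂ (Set.range a)`; its points are the `w : ι → ℂ` at which all polynomials which
vanish at `a` vanish.

PROOF of `isClosed_pts`.  Intersection of the closed sets `eval w Q = 0`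
(`MvPolynomial.continuous_eval`).

PROOF of `pts_of_algHom`.  `eval (fun i => φ ⟨a i, _⟩) Q = φ ⟨aeval a Q, _⟩` (both sides are algebra
homs of `Q`, or induction on `Q`), and `φ 0 = 0`.

PROOF of `root_at`.  Let `M : Polynomial (MvPolynomial (Fin n) ℂ) →+* MvPolynomial ι ℂ` be
`Polynomial.eval₂RingHom (aeval B).toRingHom Z`.  Then `aeval a (M p) = (p.map (aeval b)).eval (aeval a
Z)` since `aeval a (B j) = b j`, and `eval w (M p) = (p.map (eval (fun j => eval w (B j)))).eval
(eval w Z)` (both by `Polynomial.hom_eval₂` and `MvPolynomial.comp_aeval` / `ringHom_ext`).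
-/

open MvPolynomial

noncomputable section

namespace Pool.Agent.H13.SM

variable {ι K : Type} [Field K] [Algebra ℂ K]

/-- The complex points of the affine variety with generic point `a`. -/
def pts (a : ι → K) : Set (ι → ℂ) :=
  {w | ∀ Q : MvPolynomial ι ℂ, aeval a Q = 0 → eval w Q = 0}

theorem isClosed_pts [Finite ι] (a : ι → K) : IsClosed (pts a) := by
  have h : pts a = ⋂ Q ∈ {Q : MvPolynomial ι ℂ | aeval a Q = 0}, {w : ι → ℂ | eval w Q = 0} := by
    ext w
    simp only [pts, Set.mem_ofPred_eq, Set.mem_iInter]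
  rw [h]
  exact isClosed_biInter fun Q _ => isClosed_eq (MvPolynomial.continuous_eval Q) continuous_const

theorem aeval_mem_adjoin (a : ι → K) (Q : MvPolynomial ι ℂ) :
    aeval a Q ∈ Algebra.adjoin ℂ (Set.range a) := by
  rw [Algebra.adjoin_range_eq_range_aeval]
  exact ⟨Q, rfl⟩

/-- An algebra hom from the ring of functions to `ℂ` is the evaluation at a point. -/
theorem exists_pt_of_algHom (a : ι → K) (φ : Algebra.adjoin ℂ (Set.range a) →ₐ[ℂ] ℂ) :
    ∃ w ∈ pts a, ∀ Q : MvPolynomial ι ℂ, eval w Q = φ ⟨aeval a Q, aeval_mem_adjoin a Q⟩ := by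
  have key : ∀ Q : MvPolynomial ι ℂ,
      eval (fun i => φ ⟨a i, Algebra.subset_adjoin (Set.mem_range_self i)⟩) Q =
        φ ⟨aeval a Q, aeval_mem_adjoin a Q⟩ := by
    intro Q
    have h1 := MvPolynomial.comp_aeval_apply
      (fun i => (⟨a i, Algebra.subset_adjoin (Set.mem_range_self i)⟩ : Algebra.adjoin ℂ (Set.range a)))
      φ Q
    have h2 := MvPolynomial.comp_aeval_apply
      (fun i => (⟨a i, Algebra.subset_adjoin (Set.mem_range_self i)⟩ : Algebra.adjoin ℂ (Set.range a)))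
      (Algebra.adjoin ℂ (Set.range a)).val Q
    have h3 : aeval (fun i => (⟨a i, Algebra.subset_adjoin (Set.mem_range_self i)⟩ :
        Algebra.adjoin ℂ (Set.range a))) Q = ⟨aeval a Q, aeval_mem_adjoin a Q⟩ := by
      apply Subtype.ext
      exact h2
    rw [← h3, h1, MvPolynomial.aeval_eq_eval]
  refine ⟨fun i => φ ⟨a i, Algebra.subset_adjoin (Set.mem_range_self i)⟩, ?_, key⟩
  intro Q hQ
  rw [key Q]
  have h4 : (⟨aeval a Q, aeval_mem_adjoin a Q⟩ : Algebra.adjoin ℂ (Set.range a)) = 0 :=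
    Subtype.ext hQ
  rw [h4, map_zero]

/-- If `Z` is a root of `p` on the variety, with coefficients functions of the `b j = aeval a (B j)`,
then this holds at each point. -/
theorem root_at {n : ℕ} {a : ι → K} {b : Fin n → K} {B : Fin n → MvPolynomial ι ℂ}
    (hB : ∀ j, aeval a (B j) = b j) {Z : MvPolynomial ι ℂ}
    {p : Polynomial (MvPolynomial (Fin n) ℂ)}
    (hp : (p.map (aeval b : MvPolynomial (Fin n) ℂ →ₐ[ℂ] K).toRingHom).eval (aeval a Z) = 0)
    {w : ι → ℂ} (hw : w ∈ pts a) :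
    (p.map (eval fun j => eval w (B j))).eval (eval w Z) = 0 := by
  have h1 : aeval a (p.eval₂ (aeval B : MvPolynomial (Fin n) ℂ →ₐ[ℂ] MvPolynomial ι ℂ).toRingHom Z)
      = 0 := by
    have e1 := Polynomial.hom_eval₂ p
      (aeval B : MvPolynomial (Fin n) ℂ →ₐ[ℂ] MvPolynomial ι ℂ).toRingHom
      (aeval a : MvPolynomial ι ℂ →ₐ[ℂ] K).toRingHom Z
    have e2 : (aeval a : MvPolynomial ι ℂ →ₐ[ℂ] K).toRingHom.comp
        (aeval B : MvPolynomial (Fin n) ℂ →ₐ[ℂ] MvPolynomial ι ℂ).toRingHom =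
        (aeval b : MvPolynomial (Fin n) ℂ →ₐ[ℂ] K).toRingHom := by
      have e3 : (aeval a : MvPolynomial ι ℂ →ₐ[ℂ] K).comp
          (aeval B : MvPolynomial (Fin n) ℂ →ₐ[ℂ] MvPolynomial ι ℂ) = aeval b := by
        apply MvPolynomial.algHom_ext
        intro j
        rw [AlgHom.comp_apply, aeval_X, aeval_X]
        exact hB j
      rw [← e3]
      rfl
    rw [e2] at e1
    rw [Polynomial.eval_map] at hp
    exact e1.trans hp
  have h2 := hw _ h1
  have e4 := Polynomial.hom_eval₂ p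
    (aeval B : MvPolynomial (Fin n) ℂ →ₐ[ℂ] MvPolynomial ι ℂ).toRingHom (eval w) Z
  have e5 : (eval w).comp (aeval B : MvPolynomial (Fin n) ℂ →ₐ[ℂ] MvPolynomial ι ℂ).toRingHom =
      eval fun j => eval w (B j) := by
    apply MvPolynomial.ringHom_ext
    · intro r
      simp
    · intro j
      simp
  rw [e5] at e4
  rw [Polynomial.eval_map, ← e4]
  exact h2

end Pool.Agent.H13.SM

end
end

section

/-!
# Noether normalisation

PROOF.  `A = Algebra.adjoin ℂ (Set.range a)` is an algebra of finite type (`Subalgebra.fg_adjoin_...`,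
`Subalgebra.fg_iff_finiteType`) and is nontrivial, so by `exists_finite_inj_algHom_of_fg` there are
`s` and `g : MvPolynomial (Fin s) ℂ →ₐ[ℂ] A` injective and finite.  Let `b' j = g (X j)`, an
algebraically independent family of `K` (`g` and the inclusion are injective).  Each element of `A` is
integral over the range of `g`, the algebra generated by the `b' j` (`RingHom.Finite.to_isIntegral`).
`K = IntermediateField.adjoin ℂ (Set.range a)` is algebraic over `IntermediateField.adjoin ℂ (Set.range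
b')`, since all `a i` are.  So `b'` is a transcendence basis of `K` and `s = n` by
`IsTranscendenceBasis.cardinalMk_eq` (or `lift_cardinalMk_eq_trdeg`).  Write `b' j = aeval a (B j)`.
-/

open MvPolynomial

noncomputable section

namespace Pool.Agent.H13.SM

variable {ι K : Type} [Field K] [Algebra ℂ K]

/-- The surjection from polynomials to the adjoined algebra. -/
private def Noether_phi {n : ℕ} (b : Fin n → K) :
    MvPolynomial (Fin n) ℂ →ₐ[ℂ] Algebra.adjoin ℂ (Set.range b) :=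
  (aeval b : MvPolynomial (Fin n) ℂ →ₐ[ℂ] K).codRestrict (Algebra.adjoin ℂ (Set.range b)) (by
    intro x
    rw [Algebra.adjoin_range_eq_range_aeval]
    exact ⟨x, rfl⟩)

private theorem Noether_phi_coe {n : ℕ} (b : Fin n → K) (x : MvPolynomial (Fin n) ℂ) :
    (Noether_phi b x : K) = aeval b x := rfl

private theorem Noether_phi_surj {n : ℕ} (b : Fin n → K) : Function.Surjective (Noether_phi b) := by
  rintro ⟨y, hy⟩
  have h := hy
  rw [Algebra.adjoin_range_eq_range_aeval] at h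
  obtain ⟨x, hx⟩ := h
  exact ⟨x, Subtype.ext hx⟩

private theorem Noether_algebraic [Finite ι] {a : ι → K}
    (ha : IntermediateField.adjoin ℂ (Set.range a) = ⊤) {s : ℕ} (b : Fin s → K)
    (hb : ∀ i, IsIntegral (Algebra.adjoin ℂ (Set.range b)) (a i)) :
    Algebra.IsAlgebraic (Algebra.adjoin ℂ (Set.range b)) K := by
  constructor
  intro x
  have hx : x ∈ IntermediateField.adjoin ℂ (Set.range a) := by
    rw [ha]; exact IntermediateField.mem_top
  induction hx using IntermediateField.adjoin_induction with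
  | mem y hy =>
    obtain ⟨i, rfl⟩ := hy
    exact (hb i).isAlgebraic
  | algebraMap y =>
    have h1 : algebraMap ℂ K y =
        algebraMap (Algebra.adjoin ℂ (Set.range b)) K (algebraMap ℂ (Algebra.adjoin ℂ (Set.range b)) y) := rfl
    rw [h1]
    exact isAlgebraic_algebraMap _
  | add y z _ _ hy hz => exact hy.add hz
  | inv y _ hy => exact hy.inv
  | mul y z _ _ hy hz => exact hy.mul hz

theorem exists_noether [Finite ι] {a : ι → K}
    (ha : IntermediateField.adjoin ℂ (Set.range a) = ⊤) {n : ℕ} {z : Fin n → K}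
    (hz : IsTranscendenceBasis ℂ z) :
    ∃ (b : Fin n → K) (B : Fin n → MvPolynomial ι ℂ), AlgebraicIndependent ℂ b ∧
      (∀ j, aeval a (B j) = b j) ∧ ∀ i, IsIntegral (Algebra.adjoin ℂ (Set.range b)) (a i) := by
  set A := Algebra.adjoin ℂ (Set.range a) with hA
  have : Algebra.FiniteType ℂ A := by
    refine (Subalgebra.fg_iff_finiteType _).1 ?_
    have h := Subalgebra.fg_adjoin_finset (R := ℂ) (Set.finite_range a).toFinset
    rwa [Set.Finite.coe_toFinset] at h
  obtain ⟨s, g, ginj, gint⟩ := exists_integral_inj_algHom_of_fg ℂ A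
  set b' : Fin s → K := fun j => (g (X j) : K) with hb'
  have haev : (aeval b' : MvPolynomial (Fin s) ℂ →ₐ[ℂ] K) = A.val.comp g := by
    refine MvPolynomial.algHom_ext fun j => ?_
    rw [aeval_X]; rfl
  have hind : AlgebraicIndependent ℂ b' := by
    show Function.Injective (aeval b' : MvPolynomial (Fin s) ℂ →ₐ[ℂ] K)
    rw [haev]
    exact Subtype.val_injective.comp ginj
  have hint : ∀ i, IsIntegral (Algebra.adjoin ℂ (Set.range b')) (a i) := by
    intro i
    have hai : a i ∈ A := Algebra.subset_adjoin ⟨i, rfl⟩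
    obtain ⟨p, hp1, hp2⟩ := gint ⟨a i, hai⟩
    refine ⟨p.map (Noether_phi b').toRingHom, hp1.map _, ?_⟩
    rw [Polynomial.eval₂_map]
    have h1 := congrArg (fun x : A => (x : K)) hp2
    have h2 : A.val.toRingHom (Polynomial.eval₂ g.toRingHom ⟨a i, hai⟩ p) = 0 := h1
    rw [Polynomial.hom_eval₂] at h2
    have h3 : A.val.toRingHom.comp g.toRingHom =
        (algebraMap (Algebra.adjoin ℂ (Set.range b')) K).comp (Noether_phi b').toRingHom := by
      refine RingHom.ext fun x => ?_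
      have h4 : (aeval b' x : K) = A.val (g x) := by rw [haev]; rfl
      show A.val (g x) = (Noether_phi b' x : K)
      rw [Noether_phi_coe, h4]
    rw [← h3]
    exact h2
  have hbas : IsTranscendenceBasis ℂ b' :=
    hind.isTranscendenceBasis_iff_isAlgebraic.2 (Noether_algebraic ha b' hint)
  have hsn : s = n := by
    have h1 := hbas.cardinalMk_eq hz
    simpa using h1
  subst hsn
  have hB : ∀ j, ∃ Q : MvPolynomial ι ℂ, aeval a Q = b' j := by
    intro j
    have h1 : b' j ∈ A := (g (X j)).2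
    rw [hA, Algebra.adjoin_range_eq_range_aeval] at h1
    exact h1
  choose B hB using hB
  exact ⟨b', B, hind, hB, hint⟩

/-- The polynomial form of integrality: `aeval a Z` is a root of a monic polynomial whose
coefficients are polynomials in `b`. -/
theorem exists_monic {a : ι → K} {n : ℕ} {b : Fin n → K}
    (hint : ∀ i, IsIntegral (Algebra.adjoin ℂ (Set.range b)) (a i)) (Z : MvPolynomial ι ℂ) :
    ∃ p : Polynomial (MvPolynomial (Fin n) ℂ), p.Monic ∧
      (p.map (aeval b : MvPolynomial (Fin n) ℂ →ₐ[ℂ] K).toRingHom).eval (aeval a Z) = 0 := by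
  set C₀ := Algebra.adjoin ℂ (Set.range b) with hC₀
  have hZ : IsIntegral C₀ (aeval a Z) := by
    have h1 : aeval a Z ∈ Algebra.adjoin ℂ (Set.range a) := aeval_mem_adjoin a Z
    have h2 : Algebra.adjoin ℂ (Set.range a) ≤ (integralClosure C₀ K).restrictScalars ℂ := by
      refine Algebra.adjoin_le ?_
      rintro _ ⟨i, rfl⟩
      exact hint i
    exact h2 h1
  obtain ⟨p, hp1, hp2⟩ := hZ
  have hlift : p ∈ Polynomial.lifts (Noether_phi b).toRingHom := by
    rw [Polynomial.lifts_iff_coeff_lifts]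
    intro k
    exact Noether_phi_surj b (p.coeff k)
  obtain ⟨P, hP1, -, hP2⟩ := Polynomial.lifts_and_natDegree_eq_and_monic hlift hp1
  refine ⟨P, hP2, ?_⟩
  have h3 : (aeval b : MvPolynomial (Fin n) ℂ →ₐ[ℂ] K).toRingHom =
      (algebraMap C₀ K).comp (Noether_phi b).toRingHom := rfl
  rw [h3, ← Polynomial.map_map, hP1, Polynomial.eval_map]
  exact hp2

end Pool.Agent.H13.SM

end
end

section

/-!
# The cone of a smooth projective surface is a `Surface`

`IsChart` and `Surface` are the definitions of `Pool.Agent.H17BP.Surf`.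
-/

open MvPolynomial Topology Filter

noncomputable section

namespace Pool.Agent.H13.SM

variable {N : ℕ} {P : Ideal (MvPolynomial (Fin (N + 1)) ℂ)}

/-- The affine cone of `P` without its vertex. -/
def cone (P : Ideal (MvPolynomial (Fin (N + 1)) ℂ)) : Set (Fin (N + 1) → ℂ) :=
  {x | x ≠ 0 ∧ ∀ Q ∈ P, eval x Q = 0}

end Pool.Agent.H13.SM

end
end

section

set_option linter.style.haveILetI false

noncomputable section

namespace Pool.Agent.H23

open scoped TensorProduct

variable {K : Type*} [Field K] [Algebra ℂ K]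

lemma exists_poly_of_basis {σ : Type*} {g : σ → K} (hg : IsTranscendenceBasis ℂ g) (a : K) :
    ∃ F : Polynomial (MvPolynomial σ ℂ), F ≠ 0 ∧
      F.eval₂ (MvPolynomial.aeval g).toRingHom a = 0 := by
  have h1 := hg.isAlgebraic
  obtain ⟨p, hp, hpa⟩ := h1.isAlgebraic a
  let e : Algebra.adjoin ℂ (Set.range g) →+* MvPolynomial σ ℂ :=
    (hg.1.aevalEquiv.symm : Algebra.adjoin ℂ (Set.range g) →+* MvPolynomial σ ℂ)
  have he : (MvPolynomial.aeval g).toRingHom.comp e =
      algebraMap (Algebra.adjoin ℂ (Set.range g)) K := by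
    ext x
    have h2 := hg.1.algebraMap_aevalEquiv (hg.1.aevalEquiv.symm x)
    rw [AlgEquiv.apply_symm_apply] at h2
    exact h2.symm
  refine ⟨p.map e, ?_, ?_⟩
  · rwa [Ne, Polynomial.map_eq_zero_iff]
    exact hg.1.aevalEquiv.symm.injective
  · rw [Polynomial.eval₂_map, he]
    exact hpa

/-- For a transcendence basis `g` of `K/ℂ`, the differentials `dg i` form a basis of `Ω_{K/ℂ}`. -/
theorem exists_basis_kaehler {σ : Type*} {g : σ → K} (hg : IsTranscendenceBasis ℂ g) :
    ∃ b : Module.Basis σ K Ω[K⁄ℂ], ∀ i, b i = KaehlerDifferential.D ℂ K (g i) := by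
  classical
  letI alg1 : Algebra (MvPolynomial σ ℂ) K := (MvPolynomial.aeval g).toRingHom.toAlgebra
  have hmap : ∀ r, algebraMap (MvPolynomial σ ℂ) K r = MvPolynomial.aeval g r := fun _ => rfl
  haveI : FaithfulSMul (MvPolynomial σ ℂ) K := by
    rw [faithfulSMul_iff_algebraMap_injective]
    exact hg.1
  haveI : IsScalarTower ℂ (MvPolynomial σ ℂ) K := by
    apply IsScalarTower.of_algebraMap_eq
    intro c
    rw [hmap, MvPolynomial.algebraMap_eq, MvPolynomial.aeval_C]
  letI alg2 : Algebra (FractionRing (MvPolynomial σ ℂ)) K := FractionRing.liftAlgebra _ K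
  haveI : IsScalarTower (MvPolynomial σ ℂ) (FractionRing (MvPolynomial σ ℂ)) K :=
    inferInstance
  haveI : Algebra.IsAlgebraic (MvPolynomial σ ℂ) K := by
    refine ⟨fun a => ?_⟩
    obtain ⟨F, h1, h2⟩ := exists_poly_of_basis hg a
    exact ⟨F, h1, h2⟩
  haveI : Algebra.IsAlgebraic (FractionRing (MvPolynomial σ ℂ)) K :=
    (IsFractionRing.comap_isAlgebraic_iff (A := (MvPolynomial σ ℂ))).1 this
  haveI : CharZero (FractionRing (MvPolynomial σ ℂ)) :=
    algebraRat.charZero _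
  haveI : Algebra.IsSeparable (FractionRing (MvPolynomial σ ℂ)) K := inferInstance
  haveI : Algebra.FormallyEtale (MvPolynomial σ ℂ) (FractionRing (MvPolynomial σ ℂ)) :=
    Algebra.FormallyEtale.of_isLocalization (nonZeroDivisors _)
  haveI : Algebra.FormallyEtale (FractionRing (MvPolynomial σ ℂ)) K :=
    Algebra.FormallyEtale.of_isSeparable _ K
  haveI : Algebra.FormallyEtale (MvPolynomial σ ℂ) K :=
    Algebra.FormallyEtale.comp _ (FractionRing (MvPolynomial σ ℂ)) _
  let e := KaehlerDifferential.tensorKaehlerEquivOfFormallyEtale ℂ (MvPolynomial σ ℂ) K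
  let b := ((KaehlerDifferential.mvPolynomialBasis ℂ σ).baseChange K).map e
  refine ⟨b, fun i => ?_⟩
  simp only [b, Module.Basis.map_apply, Module.Basis.baseChange_apply,
    KaehlerDifferential.mvPolynomialBasis_apply]
  rw [KaehlerDifferential.tensorKaehlerEquivOfFormallyEtale_apply]
  rw [KaehlerDifferential.mapBaseChange_tmul, one_smul, KaehlerDifferential.map_D, hmap,
    MvPolynomial.aeval_X]

end Pool.Agent.H23

end
end

section

/-! # Fermat covers: integer relations -/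

noncomputable section

namespace Pool.Agent.H62.FC

private lemma Lattice_span {I : Type*} {Γ : Set (I → ℤ)} {x : I → ℚ}
    (hx : x ∈ Submodule.span ℚ ((fun (y : I → ℤ) (l : I) => (y l : ℚ)) '' Γ)) :
    ∃ M : ℕ, 0 < M ∧ ∃ z ∈ AddSubgroup.closure Γ, ∀ l, (M : ℚ) * x l = (z l : ℚ) := by
  induction hx using Submodule.span_induction with
  | mem x hx =>
    obtain ⟨γ, hγ, rfl⟩ := hx
    exact ⟨1, one_pos, γ, AddSubgroup.subset_closure hγ, fun l => by simp⟩
  | zero => exact ⟨1, one_pos, 0, zero_mem _, fun l => by simp⟩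
  | add x y _ _ h1 h2 =>
    obtain ⟨M₁, hM₁, z₁, hz₁, e₁⟩ := h1
    obtain ⟨M₂, hM₂, z₂, hz₂, e₂⟩ := h2
    refine ⟨M₁ * M₂, Nat.mul_pos hM₁ hM₂, M₂ • z₁ + M₁ • z₂,
      add_mem (nsmul_mem hz₁ _) (nsmul_mem hz₂ _), fun l => ?_⟩
    have h1 := e₁ l
    have h2 := e₂ l
    rw [Pi.add_apply, Pi.add_apply, Pi.smul_apply, Pi.smul_apply, nsmul_eq_mul, nsmul_eq_mul]
    push_cast
    rw [← h1, ← h2]
    ring
  | smul q x _ h1 =>
    obtain ⟨M, hM, z, hz, e⟩ := h1
    refine ⟨M * q.den, Nat.mul_pos hM q.den_pos, q.num • z, zsmul_mem hz _, fun l => ?_⟩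
    have h1 := e l
    have h2 : (q.den : ℚ) * q = q.num := Rat.den_mul_eq_num q
    simp only [Pi.smul_apply, smul_eq_mul, Nat.cast_mul, Int.cast_mul]
    rw [← h1, ← h2]
    ring

theorem exists_combination {I : Type*} [Fintype I] [DecidableEq I] {Γ : Set (I → ℤ)} {i j : I}
    (h : ∀ n : I → ℤ, (∀ γ ∈ Γ, ∑ l, n l * γ l = 0) → n i = n j) :
    ∃ M : ℕ, 0 < M ∧
      (M : ℤ) • (Pi.single i 1 - Pi.single j 1 : I → ℤ) ∈ AddSubgroup.closure Γ := by
  classical
  have key : (fun l => (((Pi.single i 1 - Pi.single j 1 : I → ℤ) l : ℤ) : ℚ)) ∈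
      Submodule.span ℚ ((fun (y : I → ℤ) (l : I) => (y l : ℚ)) '' Γ) := by
    by_contra hcon
    obtain ⟨f, hf, hle⟩ := Submodule.exists_le_ker_of_notMem hcon
    -- the coefficients of the functional
    have hsum : ∀ x : I → ℚ, f x = ∑ l, f (Pi.single l 1) * x l := by
      intro x
      conv_lhs => rw [pi_eq_sum_univ' x]
      rw [map_sum]
      refine Finset.sum_congr rfl fun l _ => ?_
      rw [map_smul, smul_eq_mul, mul_comm]
    -- a common denominator
    obtain ⟨b, hb⟩ := IsLocalization.exist_integer_multiples_of_finite (nonZeroDivisors ℤ)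
      (fun l : I => f (Pi.single l 1))
    choose n hn using hb
    have hn' : ∀ l, (n l : ℚ) = (b : ℤ) * f (Pi.single l 1) := by
      intro l
      have h1 := hn l
      rw [Algebra.smul_def] at h1
      simpa using h1
    have hb0 : ((b : ℤ) : ℚ) ≠ 0 := by
      have := nonZeroDivisors.ne_zero b.2
      exact_mod_cast this
    have h1 : ∀ γ ∈ Γ, ∑ l, n l * γ l = 0 := by
      intro γ hγ
      have h2 : f (fun l => (γ l : ℚ)) = 0 := by
        have := hle (Submodule.subset_span ⟨γ, hγ, rfl⟩)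
        simpa using this
      rw [hsum] at h2
      have h3 : ((∑ l, n l * γ l : ℤ) : ℚ) = 0 := by
        push_cast
        simp_rw [hn', mul_assoc]
        rw [← Finset.mul_sum, h2, mul_zero]
      exact_mod_cast h3
    have h2 := h n h1
    apply hf
    rw [hsum]
    have h3 : f (Pi.single i 1) = f (Pi.single j 1) := by
      have h4 := hn' i
      have h5 := hn' j
      rw [h2, h5] at h4
      exact (mul_left_cancel₀ hb0 h4).symm
    simp only [Pi.sub_apply, Int.cast_sub, mul_sub, Finset.sum_sub_distrib, Pi.single_apply,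
      Int.cast_ite, Int.cast_one, Int.cast_zero, mul_ite, mul_one, mul_zero, Finset.sum_ite_eq',
      Finset.mem_univ, if_true]
    rw [h3, sub_self]
  obtain ⟨M, hM, z, hz, hzM⟩ := Lattice_span key
  refine ⟨M, hM, ?_⟩
  have : (M : ℤ) • (Pi.single i 1 - Pi.single j 1 : I → ℤ) = z := by
    funext l
    have h1 := hzM l
    rw [Pi.smul_apply, smul_eq_mul]
    exact_mod_cast h1
  rw [this]
  exact hz

end Pool.Agent.H62.FC

end
end

section

/-!
# Homogenisation
-/

open MvPolynomial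

noncomputable section

namespace Pool.Agent.H92.GT

variable {r : ℕ}

/-- The homogenised polynomial. -/
def hmg {B : Type} [CommRing B] [Algebra ℂ B] (p : MvPolynomial (Fin r) ℂ) (A : Fin (r + 1) → B) :
    B :=
  ∑ m ∈ p.support, algebraMap ℂ B (p.coeff m) *
    (A 0 ^ (p.totalDegree - ∑ i, m i) * ∏ i : Fin r, A (Fin.succ i) ^ m i)

lemma map_hmg {B B' : Type} [CommRing B] [Algebra ℂ B] [CommRing B'] [Algebra ℂ B']
    (f : B →ₐ[ℂ] B') (p : MvPolynomial (Fin r) ℂ) (A : Fin (r + 1) → B) :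
    f (hmg p A) = hmg p fun i => f (A i) := by
  unfold hmg
  rw [map_sum]
  refine Finset.sum_congr rfl fun m _ => ?_
  rw [map_mul, map_mul, map_pow, map_prod, AlgHom.commutes]
  congr 2
  exact Finset.prod_congr rfl fun i _ => map_pow _ _ _

lemma hmg_eq {K : Type} [Field K] [Algebra ℂ K] (p : MvPolynomial (Fin r) ℂ)
    {A : Fin (r + 1) → K} (h : A 0 ≠ 0) :
    hmg p A = A 0 ^ p.totalDegree * aeval (fun i : Fin r => A (Fin.succ i) / A 0) p := by
  unfold hmg
  rw [aeval_def, eval₂_eq', Finset.mul_sum]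
  refine Finset.sum_congr rfl fun m hm => ?_
  have h1 : ∑ i, m i ≤ p.totalDegree := by
    have h2 := le_totalDegree hm
    rwa [Finsupp.sum_fintype _ _ (fun _ => rfl)] at h2
  have h3 : A 0 ^ p.totalDegree = A 0 ^ (p.totalDegree - ∑ i, m i) * A 0 ^ (∑ i, m i) := by
    rw [← pow_add, Nat.sub_add_cancel h1]
  have h4 : ∏ i : Fin r, (A (Fin.succ i) / A 0) ^ m i =
      (∏ i : Fin r, A (Fin.succ i) ^ m i) / A 0 ^ (∑ i, m i) := by
    rw [Finset.prod_congr rfl fun i _ => div_pow (A (Fin.succ i)) (A 0) (m i),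
      Finset.prod_div_distrib, Finset.prod_pow_eq_pow_sum]
  rw [h3, h4]
  field_simp

lemma hmg_isWeightedHomogeneous {σ : Type} {w : σ → ℕ} {d : ℕ} (p : MvPolynomial (Fin r) ℂ)
    {A : Fin (r + 1) → MvPolynomial σ ℂ} (hA : ∀ i, IsWeightedHomogeneous w (A i) d) :
    IsWeightedHomogeneous w (hmg p A) (p.totalDegree * d) := by
  unfold hmg
  refine IsWeightedHomogeneous.sum _ _ _ fun m hm => ?_
  have h1 : ∑ i, m i ≤ p.totalDegree := by
    have h2 := le_totalDegree hm
    rwa [Finsupp.sum_fintype _ _ (fun _ => rfl)] at h2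
  have h2 := (isWeightedHomogeneous_C w (p.coeff m)).mul
    (((hA 0).pow (p.totalDegree - ∑ i, m i)).mul
      (IsWeightedHomogeneous.prod Finset.univ (fun i : Fin r => A (Fin.succ i) ^ m i)
        (fun i => m i * d) fun i _ => by
          have h3 := (hA (Fin.succ i)).pow (m i)
          rwa [smul_eq_mul] at h3))
  have h3 : 0 + ((p.totalDegree - ∑ i, m i) • d + ∑ i : Fin r, m i * d) = p.totalDegree * d := by
    rw [zero_add, smul_eq_mul, ← Finset.sum_mul, ← add_mul, Nat.sub_add_cancel h1]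
  rw [h3] at h2
  exact h2

end Pool.Agent.H92.GT

end
end

section

/-!
# Transcendence bases among the coordinates
-/

noncomputable section

namespace Pool.Agent.H92.GT

open scoped IntermediateField.algebraAdjoinAdjoin in
/-- If `K` is algebraic over `ℂ(x)` there is a transcendence basis among the coordinates. -/
theorem exists_index {K : Type} [Field K] [Algebra ℂ K] {k n : ℕ} {x : Fin n → K}
    (halg : Algebra.IsAlgebraic (IntermediateField.adjoin ℂ (Set.range x)) K) {z : Fin k → K}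
    (hz : IsTranscendenceBasis ℂ z) :
    ∃ J : Fin k → Fin n, IsTranscendenceBasis ℂ fun i => x (J i) := by
  have h1 : Algebra.IsAlgebraic (Algebra.adjoin ℂ (Set.range x)) K :=
    (IsFractionRing.comap_isAlgebraic_iff (A := Algebra.adjoin ℂ (Set.range x))
      (K := IntermediateField.adjoin ℂ (Set.range x)) (C := K)).mpr halg
  obtain ⟨u, hu, hub⟩ := exists_isTranscendenceBasis_subset (R := ℂ) (Set.range x)
  have h2 := hub.cardinalMk_eq hz
  rw [Cardinal.mk_fin] at h2
  have h3 : Finite u := by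
    rw [← Cardinal.lt_aleph0_iff_finite, h2]
    exact Cardinal.natCast_lt_aleph0
  have h4 : Nat.card u = k := by
    rw [Nat.card, h2]
    simp
  let eqv : Fin k ≃ u := (finCongr h4.symm).trans (Finite.equivFin u).symm
  choose J hJ using fun i : Fin k => hu (eqv i).2
  refine ⟨J, ?_⟩
  have h5 : (fun i => x (J i)) = (Subtype.val : u → K) ∘ eqv := funext hJ
  rw [h5, isTranscendenceBasis_equiv]
  exact hub

end Pool.Agent.H92.GT

end
end

section

set_option autoImplicit false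

/-!
# Basic facts on the total space, and a criterion for non-hyperbolicity
-/

open MvPolynomial Topology Filter

namespace Pool.Agent.H99.Cover

variable {N : ℕ} {ι : Type}

/-- The exponential of the inverse takes every non-zero value near zero. -/
lemma exists_seq_exp_inv (σ : ℂ) (hσ : σ ≠ 0) :
    ∃ zs : ℕ → ℂ, Tendsto zs atTop (𝓝 0) ∧ ∀ᶠ n in atTop, zs n ≠ 0 ∧ Complex.exp (zs n)⁻¹ = σ := by
  have h : Tendsto (fun n : ℕ => Complex.log σ + n * (2 * Real.pi * Complex.I)) atTop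
      (Bornology.cobounded ℂ) := by
    rw [← tendsto_norm_atTop_iff_cobounded]
    have h1 : Tendsto (fun n : ℕ => (n : ℝ) * (2 * Real.pi) - ‖Complex.log σ‖) atTop atTop := by
      refine tendsto_atTop_add_const_right _ _ ?_
      exact (tendsto_natCast_atTop_atTop).atTop_mul_const (by positivity)
    refine tendsto_atTop_mono ?_ h1
    intro n
    have h2 : ‖(n : ℂ) * (2 * Real.pi * Complex.I)‖ = n * (2 * Real.pi) := by
      rw [norm_mul, norm_mul, norm_mul]
      simp [Real.pi_pos.le, abs_of_nonneg]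
    have h3 : ‖(n : ℂ) * (2 * Real.pi * Complex.I)‖ ≤
        ‖Complex.log σ + n * (2 * Real.pi * Complex.I)‖ + ‖Complex.log σ‖ := by
      have := norm_sub_le (Complex.log σ + n * (2 * Real.pi * Complex.I)) (Complex.log σ)
      simpa using this
    linarith
  refine ⟨fun n => (Complex.log σ + n * (2 * Real.pi * Complex.I))⁻¹,
    Filter.tendsto_inv₀_cobounded.comp h, ?_⟩
  have hne : ∀ᶠ n : ℕ in atTop, Complex.log σ + n * (2 * Real.pi * Complex.I) ≠ 0 := by
    have h5 := h.eventually (Bornology.eventually_ne_cobounded (0 : ℂ))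
    exact h5
  filter_upwards [hne] with n hn
  refine ⟨inv_ne_zero hn, ?_⟩
  rw [inv_inv, Complex.exp_add, Complex.exp_log hσ, Complex.exp_nat_mul_two_pi_mul_I, mul_one]

end Pool.Agent.H99.Cover

end

section

/-!
# TG XBl: a bounded holomorphic function which vanishes on a relatively dense subgroup decays on large discs (copy of EL Bl, without discreteness)

Let `R₀ > 0` be the covering radius of `Γ` (`Lat.cocompact`): every disc of radius `R₀` contains a point of `Γ`.  `r₀ = 4 R₀`.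
(1) Local inequality: `J` holomorphic on a neighbourhood of `closedBall z₀ r₀` (or continuous there and holomorphic inside), `|J| ≤ m` on the circle
`sphere z₀ r₀`, `J l = 0` for a point `l` with `‖l - z₀‖ ≤ R₀`: then `|J z₀| ≤ m / 4`.  [The function `J z (r₀² - conj (l - z₀) (z - z₀)) / (r₀ (z - l))`
is holomorphic (removable singularity: `dslope J l`), has modulus `|J z|` on the circle; at `z₀` it is `J z₀ r₀² / (r₀ (z₀ - l))`, modulus
`|J z₀| r₀ / ‖z₀ - l‖ ≥ 4 |J z₀|`.  If `l = z₀`, `J z₀ = 0`.]  Simpler variant without the Blaschke factor: `G z = dslope J l z`, on the circle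
`|G| ≤ m / (r₀ - R₀)`, so `|J z₀| = |G z₀| ‖z₀ - l‖ ≤ m R₀ / (r₀ - R₀) = m / 3` by the maximum principle (`J l = 0`): enough.
(2) With `κ = 1 / (32 R₀²)`... : let `κ r₀² ≤ 1/2`, so `exp (κ r₀²) ≤ 2`, `θ = 2/3`.  For every `c` and `z₀` as in (1):
`|J z₀| exp (-κ ‖z₀ - c‖²) ≤ θ sup_{z ∈ sphere z₀ r₀} |J z| exp (-κ ‖z - c‖²)`: apply (1) to the function `J z * exp (-2 κ (z - z₀) conj (z₀ - c))`
and use `‖z - c‖² = ‖z₀ - c‖² + 2 re ((z - z₀) conj (z₀ - c)) + r₀²` on the circle.
(3) Let `z₁ ∈ ball c R`, `R ≥ r₀`, `‖z₁ - c‖ < R' < R`.  The continuous function `Φ z = |J z| exp (-κ ‖z - c‖²)` has a maximum on `closedBall c R'` at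
a point `z₀`.  If `‖z₀ - c‖ ≤ R' - r₀` then `Φ z₀ ≤ θ Φ z₀` by (2), so `Φ z₀ = 0` and `J z₁ = 0`.  Otherwise `Φ z₁ ≤ Φ z₀ ≤ C exp (-κ (R' - r₀)²)`
(for `R' ≥ r₀`), so `|J z₁| ≤ C exp (-κ ((R' - r₀)² - ‖z₁ - c‖²))`; let `R' → R`.
-/

set_option autoImplicit false

open Topology Filter Metric

namespace Pool.Agent.TG

/-- step (1): a holomorphic function which vanishes at a point close to the centre is small at the centre -/
private theorem xbl_local {U : Set ℂ} (hU : IsOpen U) {G : ℂ → ℂ} (hG : DifferentiableOn ℂ G U) {z₀ l : ℂ} {R₀ m : ℝ} (hR₀ : 0 < R₀)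
    (hsub : closedBall z₀ (4 * R₀) ⊆ U) (hl : ‖z₀ - l‖ ≤ R₀) (hGl : G l = 0)
    (hm : ∀ z ∈ sphere z₀ (4 * R₀), ‖G z‖ ≤ m) : ‖G z₀‖ ≤ m / 3 := by
  have hlball : l ∈ ball z₀ (4 * R₀) := by
    rw [mem_ball, dist_comm, dist_eq_norm]
    linarith
  have hlU : l ∈ U := hsub (ball_subset_closedBall hlball)
  have hlN : U ∈ 𝓝 l := hU.mem_nhds hlU
  have hD : DifferentiableOn ℂ (dslope G l) U := (Complex.differentiableOn_dslope hlN).2 hG
  have hDC : DiffContOnCl ℂ (dslope G l) (ball z₀ (4 * R₀)) := by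
    apply DifferentiableOn.diffContOnCl
    exact hD.mono (closure_ball_subset_closedBall.trans hsub)
  have hfac : ∀ z, G z = (z - l) * dslope G l z := by
    intro z
    have := sub_smul_dslope G l z
    rw [hGl, sub_zero, smul_eq_mul] at this
    exact this.symm
  have hbound : ∀ z ∈ frontier (ball z₀ (4 * R₀)), ‖dslope G l z‖ ≤ m / (3 * R₀) := by
    intro z hz
    have hz' : z ∈ sphere z₀ (4 * R₀) := frontier_ball_subset_sphere hz
    have hzn : ‖z - z₀‖ = 4 * R₀ := by
      rw [mem_sphere, dist_eq_norm] at hz'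
      exact hz'
    have hzl : 3 * R₀ ≤ ‖z - l‖ := by
      have h1 : ‖z - z₀‖ ≤ ‖z - l‖ + ‖z₀ - l‖ := by
        have : z - z₀ = (z - l) - (z₀ - l) := by ring
        rw [this]
        exact norm_sub_le _ _
      linarith
    have h2 := hm z hz'
    rw [hfac z, norm_mul] at h2
    rw [le_div_iff₀ (by positivity)]
    calc ‖dslope G l z‖ * (3 * R₀) ≤ ‖dslope G l z‖ * ‖z - l‖ := by gcongr
      _ = ‖z - l‖ * ‖dslope G l z‖ := mul_comm _ _
      _ ≤ m := h2
  have hmax : ‖dslope G l z₀‖ ≤ m / (3 * R₀) := by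
    apply Complex.norm_le_of_forall_mem_frontier_norm_le (isBounded_ball) hDC hbound
    exact subset_closure (mem_ball_self (by positivity))
  rw [hfac z₀, norm_mul]
  have h0 : 0 ≤ m / (3 * R₀) := (norm_nonneg _).trans hmax
  calc ‖z₀ - l‖ * ‖dslope G l z₀‖ ≤ R₀ * (m / (3 * R₀)) := by gcongr
    _ = m / 3 := by field_simp

/-- step (2): the weighted modulus cannot have a positive maximum at a point far from the boundary -/
private theorem xbl_weight {Γ : AddSubgroup ℂ} {R₀ : ℝ} (hR₀ : 0 < R₀) (hcov : ∀ z : ℂ, ∃ l ∈ Γ, ‖z - l‖ ≤ R₀) {J : ℂ → ℂ} {c z₀ : ℂ} {R R' : ℝ}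
    (hR' : R' < R) (hJ : DifferentiableOn ℂ J (ball c R)) (hΓ : ∀ l ∈ Γ, l ∈ ball c R → J l = 0)
    (hz₀ : ‖z₀ - c‖ ≤ R' - 4 * R₀)
    (hmax : ∀ z ∈ closedBall c R', ‖J z‖ * Real.exp (-(1 / (32 * R₀ ^ 2)) * ‖z - c‖ ^ 2) ≤
      ‖J z₀‖ * Real.exp (-(1 / (32 * R₀ ^ 2)) * ‖z₀ - c‖ ^ 2)) : ‖J z₀‖ = 0 := by
  set κ : ℝ := 1 / (32 * R₀ ^ 2) with hκ
  have hκ0 : 0 < κ := by positivity
  have hκr : κ * (4 * R₀) ^ 2 = 1 / 2 := by
    rw [hκ]
    field_simp
    norm_num
  have hsub' : closedBall z₀ (4 * R₀) ⊆ closedBall c R' := by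
    apply closedBall_subset_closedBall'
    rw [dist_eq_norm]
    linarith
  have hsub : closedBall z₀ (4 * R₀) ⊆ ball c R := hsub'.trans (closedBall_subset_ball hR')
  obtain ⟨l, hlΓ, hl⟩ := hcov z₀
  have hlball : l ∈ ball c R := by
    apply hsub
    rw [mem_closedBall, dist_comm, dist_eq_norm]
    linarith
  set w : ℂ := (starRingEnd ℂ) (z₀ - c) with hw
  set G : ℂ → ℂ := fun z => J z * Complex.exp (((-2 * κ : ℝ) : ℂ) * ((z - z₀) * w)) with hGdef
  have hGd : DifferentiableOn ℂ G (ball c R) := by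
    apply hJ.mul
    apply Differentiable.differentiableOn
    fun_prop
  have hGl : G l = 0 := by
    simp only [hGdef, hΓ l hlΓ hlball, zero_mul]
  have hG0 : ‖G z₀‖ = ‖J z₀‖ := by
    simp [hGdef]
  have hnG : ∀ z, ‖G z‖ = ‖J z‖ * Real.exp (-2 * κ * ((z - z₀) * w).re) := by
    intro z
    simp only [hGdef, norm_mul, Complex.norm_exp, Complex.re_ofReal_mul]
  have hexp : ∀ z, ‖z - c‖ ^ 2 = ‖z₀ - c‖ ^ 2 + 2 * ((z - z₀) * w).re + ‖z - z₀‖ ^ 2 := by
    intro z
    rw [hw, ← Complex.normSq_eq_norm_sq, ← Complex.normSq_eq_norm_sq, ← Complex.normSq_eq_norm_sq]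
    simp only [Complex.normSq_apply, Complex.mul_re, Complex.sub_re, Complex.sub_im, Complex.conj_re, Complex.conj_im, map_sub]
    ring
  set M : ℝ := ‖J z₀‖ * Real.exp (-κ * ‖z₀ - c‖ ^ 2) with hM
  have hM0 : 0 ≤ M := by positivity
  have hmb : ∀ z ∈ sphere z₀ (4 * R₀), ‖G z‖ ≤ M * (Real.exp (κ * ‖z₀ - c‖ ^ 2) * Real.exp (1 / 2)) := by
    intro z hz
    have h1 := hmax z (hsub' (sphere_subset_closedBall hz))
    have hzn : ‖z - z₀‖ = 4 * R₀ := by
      rw [mem_sphere, dist_eq_norm] at hz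
      exact hz
    rw [hnG z]
    have h2 : Real.exp (-2 * κ * ((z - z₀) * w).re) =
        Real.exp (-κ * ‖z - c‖ ^ 2) * (Real.exp (κ * ‖z₀ - c‖ ^ 2) * Real.exp (1 / 2)) := by
      rw [← Real.exp_add, ← Real.exp_add]
      congr 1
      rw [hexp z, hzn, ← hκr]
      ring
    rw [h2, ← mul_assoc]
    gcongr
  have h3 := xbl_local isOpen_ball hGd hR₀ hsub hl hGl hmb
  rw [hG0] at h3
  have h4 : M * Real.exp (κ * ‖z₀ - c‖ ^ 2) = ‖J z₀‖ := by
    rw [hM, mul_assoc, ← Real.exp_add]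
    have : -κ * ‖z₀ - c‖ ^ 2 + κ * ‖z₀ - c‖ ^ 2 = 0 := by ring
    rw [this, Real.exp_zero, mul_one]
  rw [← mul_assoc, h4] at h3
  have h5 : Real.exp (1 / 2) ≤ 2 := by
    have h := Real.log_two_gt_d9
    calc Real.exp (1 / 2) ≤ Real.exp (Real.log 2) := by
          apply Real.exp_le_exp.2
          linarith
      _ = 2 := Real.exp_log (by norm_num)
  have h6 : ‖J z₀‖ * Real.exp (1 / 2) ≤ ‖J z₀‖ * 2 := by gcongr
  have h7 := norm_nonneg (J z₀)
  linarith

theorem dense_decay {R₀ : ℝ} (hR₀ : 0 < R₀) : ∃ κ r₀ : ℝ, 0 < κ ∧ 0 < r₀ ∧ ∀ Γ : AddSubgroup ℂ, (∀ z : ℂ, ∃ l ∈ Γ, ‖z - l‖ ≤ R₀) →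
    ∀ (J : ℂ → ℂ) (c : ℂ) (R C : ℝ), r₀ ≤ R → DifferentiableOn ℂ J (ball c R) → (∀ z ∈ ball c R, ‖J z‖ ≤ C) → (∀ l ∈ Γ, l ∈ ball c R → J l = 0) →
    ∀ z ∈ ball c R, ‖J z‖ ≤ C * Real.exp (-κ * ((R - r₀) ^ 2 - ‖z - c‖ ^ 2)) := by
  refine ⟨1 / (32 * R₀ ^ 2), 4 * R₀, by positivity, by positivity, ?_⟩
  intro Γ hcov
  intro J c R C hR hJ hC hJl z₁ hz₁
  set κ : ℝ := 1 / (32 * R₀ ^ 2) with hκ
  have hκ0 : 0 < κ := by positivity
  have hRpos : 0 < R := by linarith
  have hC0 : 0 ≤ C := (norm_nonneg _).trans (hC z₁ hz₁)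
  have hz₁' : ‖z₁ - c‖ < R := by
    rw [mem_ball, dist_eq_norm] at hz₁
    exact hz₁
  -- the estimate on the smaller disc
  have key : ∀ R', ‖z₁ - c‖ < R' → R' < R → ‖J z₁‖ ≤ C * Real.exp (-κ * ((max 0 (R' - 4 * R₀)) ^ 2 - ‖z₁ - c‖ ^ 2)) := by
    intro R' h1 h2
    have hsub : closedBall c R' ⊆ ball c R := closedBall_subset_ball h2
    have hcont : ContinuousOn (fun z => ‖J z‖ * Real.exp (-κ * ‖z - c‖ ^ 2)) (closedBall c R') := by
      apply ContinuousOn.mul
      · exact (hJ.continuousOn.mono hsub).norm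
      · fun_prop
    have hne : (closedBall c R').Nonempty := ⟨z₁, by rw [mem_closedBall, dist_eq_norm]; exact h1.le⟩
    obtain ⟨z₀, hz₀, hmax⟩ := (isCompact_closedBall c R').exists_isMaxOn hne hcont
    have hmax' : ∀ z ∈ closedBall c R', ‖J z‖ * Real.exp (-κ * ‖z - c‖ ^ 2) ≤ ‖J z₀‖ * Real.exp (-κ * ‖z₀ - c‖ ^ 2) := fun z hz => hmax hz
    have hz₁m := hmax' z₁ (by rw [mem_closedBall, dist_eq_norm]; exact h1.le)
    have hfin : ∀ B : ℝ, ‖J z₁‖ * Real.exp (-κ * ‖z₁ - c‖ ^ 2) ≤ B → ‖J z₁‖ ≤ B * Real.exp (κ * ‖z₁ - c‖ ^ 2) := by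
      intro B hB
      have : ‖J z₁‖ = ‖J z₁‖ * Real.exp (-κ * ‖z₁ - c‖ ^ 2) * Real.exp (κ * ‖z₁ - c‖ ^ 2) := by
        rw [mul_assoc, ← Real.exp_add]
        have : -κ * ‖z₁ - c‖ ^ 2 + κ * ‖z₁ - c‖ ^ 2 = 0 := by ring
        rw [this, Real.exp_zero, mul_one]
      rw [this]
      gcongr
    by_cases hfar : ‖z₀ - c‖ ≤ R' - 4 * R₀
    · have h0 := xbl_weight hR₀ hcov h2 hJ hJl hfar hmax'
      rw [h0, zero_mul] at hz₁m
      have := hfin 0 hz₁m
      rw [zero_mul] at this
      exact this.trans (by positivity)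
    · push Not at hfar
      have h3 : (max 0 (R' - 4 * R₀)) ^ 2 ≤ ‖z₀ - c‖ ^ 2 := by
        have : max 0 (R' - 4 * R₀) ≤ ‖z₀ - c‖ := max_le (norm_nonneg _) hfar.le
        have h0 : 0 ≤ max 0 (R' - 4 * R₀) := le_max_left _ _
        gcongr
      have h4 : ‖J z₀‖ * Real.exp (-κ * ‖z₀ - c‖ ^ 2) ≤ C * Real.exp (-κ * (max 0 (R' - 4 * R₀)) ^ 2) := by
        have h5 : ‖J z₀‖ ≤ C := hC z₀ (hsub hz₀)
        have h6 : Real.exp (-κ * ‖z₀ - c‖ ^ 2) ≤ Real.exp (-κ * (max 0 (R' - 4 * R₀)) ^ 2) := by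
          apply Real.exp_le_exp.2
          nlinarith
        gcongr
      have h7 := hfin _ (hz₁m.trans h4)
      refine h7.trans (le_of_eq ?_)
      rw [mul_assoc, ← Real.exp_add]
      congr 2
      ring
  -- the limit
  have hlim : Tendsto (fun R' : ℝ => C * Real.exp (-κ * ((max 0 (R' - 4 * R₀)) ^ 2 - ‖z₁ - c‖ ^ 2))) (𝓝[<] R)
      (𝓝 (C * Real.exp (-κ * ((max 0 (R - 4 * R₀)) ^ 2 - ‖z₁ - c‖ ^ 2)))) := by
    apply tendsto_nhdsWithin_of_tendsto_nhds
    apply Continuous.tendsto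
    fun_prop
  have hmaxR : max 0 (R - 4 * R₀) = R - 4 * R₀ := max_eq_right (by linarith)
  rw [hmaxR] at hlim
  refine ge_of_tendsto hlim ?_
  have : ∀ᶠ R' in 𝓝[<] R, ‖z₁ - c‖ < R' := by
    apply mem_nhdsWithin_of_mem_nhds
    exact lt_mem_nhds hz₁'
  filter_upwards [this, self_mem_nhdsWithin] with R' h1 h2
  exact key R' h1 h2

end Pool.Agent.TG

end
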