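import Mathlib

/-! The parts of this file: G3.A.Ul, H62.BU.Inv, H62.EL.Gl. -/

section

/-!
# G3 A Ul: limits of bounded holomorphic functions along a filter

* `ul_lip` (helper80), `ul_lipc`: uniformly bounded holomorphic functions on a disc are uniformly Lipschitz near every point.
* `ul_hol`: a pointwise limit (along any filter) of uniformly bounded holomorphic functions on a disc is holomorphic.
* `ul_diff`: along an ultrafilter the limit exists, is holomorphic, has the same bound, and `g n (w n) → K z` if `w n → z`.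
-/

set_option autoImplicit false

namespace Pool.Agent.G3.A

open Complex Filter Topology Metric Set

/-- Lipschitz bound -/
theorem ul_lipc {E : Type*} [NormedAddCommGroup E] [NormedSpace ℂ E] {f : ℂ → E} {c x : ℂ} {r M δ : ℝ} (hδ : 0 < δ)
    (hd : DifferentiableOn ℂ f (ball c r)) (hb : ∀ z ∈ ball c r, ‖f z‖ ≤ M) (hs : closedBall x (2 * δ) ⊆ ball c r) :
    ∀ y ∈ closedBall x δ, ∀ w ∈ closedBall x δ, ‖f y - f w‖ ≤ (M / δ + 1) * ‖y - w‖ := by
  intro y hy w hw
  have hder : ∀ v ∈ closedBall x δ, ‖deriv f v‖ ≤ M / δ + 1 := by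
    intro v hv
    have hsub : closedBall v δ ⊆ ball c r := by
      refine (closedBall_subset_closedBall' ?_).trans hs
      rw [mem_closedBall] at hv
      linarith
    have h1 : ‖deriv f v‖ ≤ M / δ := by
      refine Complex.norm_deriv_le_of_forall_mem_sphere_norm_le hδ ?_ fun t ht => hb t (hsub (sphere_subset_closedBall ht))
      exact (hd.mono hsub).diffContOnCl_ball (le_refl _)
    linarith
  have hdiff : ∀ v ∈ closedBall x δ, DifferentiableAt ℂ f v := fun v hv =>
    hd.differentiableAt (isOpen_ball.mem_nhds (hs (closedBall_subset_closedBall (by linarith) hv)))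
  exact (convex_closedBall x δ).norm_image_sub_le_of_norm_deriv_le hdiff hder hw hy

theorem exists_two_ball {c x : ℂ} {r : ℝ} (hx : x ∈ ball c r) : ∃ δ : ℝ, 0 < δ ∧ closedBall x (2 * δ) ⊆ ball c r := by
  obtain ⟨δ, hδ, h⟩ := Metric.isOpen_iff.1 isOpen_ball x hx
  exact ⟨δ / 4, by positivity, (closedBall_subset_ball (by linarith)).trans h⟩

/-- a pointwise limit of uniformly bounded holomorphic functions is holomorphic (any filter) -/
theorem ul_hol {E : Type*} [NormedAddCommGroup E] [NormedSpace ℂ E] [CompleteSpace E] {ι : Type*} {U : Filter ι} [U.NeBot] {f : ι → ℂ → E}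
    {K : ℂ → E} {c : ℂ} {r M : ℝ} (hf : ∀ᶠ n in U, DifferentiableOn ℂ (f n) (ball c r) ∧ ∀ z ∈ ball c r, ‖f n z‖ ≤ M)
    (hK : ∀ z ∈ ball c r, Tendsto (fun n => f n z) U (𝓝 (K z))) : DifferentiableOn ℂ K (ball c r) := by
  have hloc : TendstoLocallyUniformlyOn f K U (ball c r) := by
    rw [Metric.tendstoLocallyUniformlyOn_iff]
    intro ε hε x hx
    obtain ⟨δ, hδ, hδs⟩ := exists_two_ball hx
    have hM : 0 ≤ M := by
      obtain ⟨n, hn⟩ := hf.exists
      exact (norm_nonneg _).trans (hn.2 x hx)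
    set L : ℝ := M / δ + 1 with hL
    have hLpos : 0 < L := by positivity
    have hlip : ∀ᶠ n in U, ∀ y ∈ closedBall x δ, ∀ w ∈ closedBall x δ, ‖f n y - f n w‖ ≤ L * ‖y - w‖ := by
      filter_upwards [hf] with n hn
      exact ul_lipc hδ hn.1 hn.2 hδs
    have hlipK : ∀ y ∈ closedBall x δ, ∀ w ∈ closedBall x δ, ‖K y - K w‖ ≤ L * ‖y - w‖ := by
      intro y hy w hw
      have h1 : Tendsto (fun n => ‖f n y - f n w‖) U (𝓝 ‖K y - K w‖) :=
        ((hK y (hδs (closedBall_subset_closedBall (by linarith) hy))).sub (hK w (hδs (closedBall_subset_closedBall (by linarith) hw)))).norm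
      exact le_of_tendsto h1 (hlip.mono fun n hn => hn y hy w hw)
    obtain ⟨t, htsub, htf, htc⟩ := (isCompact_closedBall x δ).finite_cover_balls (e := ε / (3 * L)) (by positivity)
    have hnet : ∀ᶠ n in U, ∀ p ∈ t, ‖K p - f n p‖ < ε / 3 := by
      rw [eventually_all_finite htf]
      intro p hp
      have h1 := hK p (hδs (closedBall_subset_closedBall (by linarith) (htsub hp)))
      have h2 := Metric.tendsto_nhds.1 h1 (ε / 3) (by positivity)
      filter_upwards [h2] with n hn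
      rw [← dist_eq_norm, dist_comm]
      exact hn
    refine ⟨closedBall x δ, mem_nhdsWithin_of_mem_nhds (closedBall_mem_nhds x hδ), ?_⟩
    filter_upwards [hlip, hnet] with n h1 h2 y hy
    obtain ⟨p, hp, hyp⟩ := mem_iUnion₂.1 (htc hy)
    have hpc := htsub hp
    rw [dist_eq_norm]
    have h3 : ‖y - p‖ < ε / (3 * L) := by rwa [← dist_eq_norm]
    have h4 : L * ‖y - p‖ < ε / 3 := by
      calc L * ‖y - p‖ < L * (ε / (3 * L)) := by gcongr
        _ = ε / 3 := by field_simp
    have h5 := hlipK y hy p hpc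
    have h6 := h1 p hpc y hy
    rw [norm_sub_rev p y] at h6
    have h7 := h2 p hp
    calc ‖K y - f n y‖ = ‖(K y - K p) + (K p - f n p) + (f n p - f n y)‖ := by congr 1; abel
      _ ≤ ‖(K y - K p) + (K p - f n p)‖ + ‖f n p - f n y‖ := norm_add_le _ _
      _ ≤ ‖K y - K p‖ + ‖K p - f n p‖ + ‖f n p - f n y‖ := by gcongr; exact norm_add_le _ _
      _ < ε := by linarith
  exact hloc.differentiableOn (hf.mono fun n hn => hn.1) isOpen_ball

/-- limits along an ultrafilter -/
theorem ul_diff {E : Type*} [NormedAddCommGroup E] [NormedSpace ℂ E] [FiniteDimensional ℂ E] {ι : Type*} {𝒰 : Ultrafilter ι} {g : ι → ℂ → E}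
    {z₀ : ℂ} {r C : ℝ} (h : ∀ᶠ n in (𝒰 : Filter ι), DifferentiableOn ℂ (g n) (ball z₀ r) ∧ ∀ z ∈ ball z₀ r, ‖g n z‖ ≤ C) :
    ∃ K : ℂ → E, DifferentiableOn ℂ K (ball z₀ r) ∧ (∀ z ∈ ball z₀ r, ‖K z‖ ≤ C) ∧
      ∀ z ∈ ball z₀ r, ∀ w : ι → ℂ, Tendsto w (𝒰 : Filter ι) (𝓝 z) → Tendsto (fun n => g n (w n)) (𝒰 : Filter ι) (𝓝 (K z)) := by
  classical
  have : ProperSpace E := FiniteDimensional.proper_rclike ℂ E
  have : CompleteSpace E := FiniteDimensional.complete ℂ E
  have hlim : ∀ z ∈ ball z₀ r, ∃ v : E, Tendsto (fun n => g n z) (𝒰 : Filter ι) (𝓝 v) := by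
    intro z hz
    have h5 : ∀ᶠ n in (𝒰 : Filter ι), g n z ∈ closedBall (0 : E) C := by
      filter_upwards [h] with n hn
      rw [mem_closedBall_zero_iff]
      exact hn.2 z hz
    obtain ⟨v, -, hv⟩ := (isCompact_closedBall (0 : E) C).ultrafilter_le_nhds (𝒰.map fun n => g n z) (by
      rw [Ultrafilter.coe_map, le_principal_iff]
      exact h5)
    exact ⟨v, hv⟩
  choose! K hK using hlim
  refine ⟨K, ul_hol h hK, fun z hz => le_of_tendsto (hK z hz).norm (h.mono fun n hn => hn.2 z hz), ?_⟩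
  intro z hz w hw
  obtain ⟨δ, hδ, hδs⟩ := exists_two_ball hz
  have h1 : Tendsto (fun n => g n (w n) - g n z) (𝒰 : Filter ι) (𝓝 0) := by
    rw [tendsto_zero_iff_norm_tendsto_zero]
    have h2 : Tendsto (fun n => (C / δ + 1) * ‖w n - z‖) (𝒰 : Filter ι) (𝓝 0) := by
      have h3 : Tendsto (fun n => ‖w n - z‖) (𝒰 : Filter ι) (𝓝 0) := by
        rw [← tendsto_iff_norm_sub_tendsto_zero]
        exact hw
      simpa using h3.const_mul (C / δ + 1)
    refine squeeze_zero' (Eventually.of_forall fun n => norm_nonneg _) ?_ h2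
    filter_upwards [h, hw.eventually (closedBall_mem_nhds z hδ)] with n hn hwn
    exact ul_lipc hδ hn.1 hn.2 hδs (w n) hwn z (mem_closedBall_self hδ.le)
  have h3 := h1.add (hK z hz)
  simpa using h3

end Pool.Agent.G3.A

end

section

/-!
# BU Inv: local inverse of an analytic map
-/

set_option autoImplicit false

namespace Pool.Agent.H62.BU

open Filter Topology

/-- the analytic inverse function theorem -/
theorem local_inverse {E : Type*} [NormedAddCommGroup E] [NormedSpace ℂ E] [FiniteDimensional ℂ E] {f : E → E} {x₀ : E}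
    (hf : AnalyticAt ℂ f x₀) (hi : ∀ v, fderiv ℂ f x₀ v = 0 → v = 0) :
    ∃ ψ : E → E, AnalyticAt ℂ ψ (f x₀) ∧ (∀ᶠ x in 𝓝 x₀, ψ (f x) = x) ∧ (∀ᶠ y in 𝓝 (f x₀), f (ψ y) = y) ∧ ψ (f x₀) = x₀ := by
  have : CompleteSpace E := FiniteDimensional.complete ℂ E
  have hinj : Function.Injective (fderiv ℂ f x₀ : E →ₗ[ℂ] E) := by
    rw [injective_iff_map_eq_zero]
    exact hi
  let e : E ≃L[ℂ] E := (LinearEquiv.ofInjectiveEndo (fderiv ℂ f x₀ : E →ₗ[ℂ] E) hinj).toContinuousLinearEquiv
  have he : (e : E →L[ℂ] E) = fderiv ℂ f x₀ := by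
    ext v
    rfl
  have hs : HasStrictFDerivAt f (e : E →L[ℂ] E) x₀ := by
    rw [he]
    exact hf.hasStrictFDerivAt
  let P := hs.toOpenPartialHomeomorph f
  have hP : x₀ ∈ P.source := hs.mem_toOpenPartialHomeomorph_source
  have hcoe : (P : E → E) = f := hs.toOpenPartialHomeomorph_coe
  have h1 : AnalyticAt ℂ P.symm (P x₀) := by
    refine P.analyticAt_symm' hP ?_ (i := e) ?_
    · rw [hcoe]
      exact hf
    · rw [hcoe]
      exact he.symm
  rw [hcoe] at h1
  refine ⟨P.symm, h1, ?_, ?_, ?_⟩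
  · filter_upwards [P.open_source.mem_nhds hP] with x hx
    have := P.left_inv hx
    rwa [hcoe] at this
  · have h2 : f x₀ ∈ P.target := by
      have := P.map_source hP
      rwa [hcoe] at this
    filter_upwards [P.open_target.mem_nhds h2] with y hy
    have := P.right_inv hy
    rwa [hcoe] at this
  · have := P.left_inv hP
    rwa [hcoe] at this

end Pool.Agent.H62.BU

end

section

/-!
# EL Gl: local solutions on a disc which are unique up to constants give a global solution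

`Sol H z` is a property of the function `H` near `z`.  By `hdiff` two solutions on a ball (inside `ball b s`) differ by a constant on it (derivative
`0` on a convex open set).  Let `K = closedBall b s'`, compact, `s' < s` (if `s' < 0` nothing to prove).  Lebesgue number: there is `ε > 0` such that for every
`z ∈ K` there is `H_z` with `Sol H_z w` for all `w ∈ ball z (4 ε)`, `4 ε < s - s'` (so these balls are in `ball b s`).  For `z, z' ∈ K` with
`‖z - z'‖ < 2ε` put `c (z, z') = H_z z' - H_z z`.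
(1) if `z, z', z''` have mutual distances `< 2 ε`: `c (z, z') + c (z', z'') = c (z, z'')`: `H_z - H_z'` is constant on the convex open set
`ball z (4ε) ∩ ball z' (4ε)`, which contains `z, z', z''`; so `c (z', z'') = H_z z'' - H_z z'`.
(2) Let `n ≥ 1` with `s' / n < ε`; for `z ∈ K` put `z_k = b + (k / n) (z - b)`, `k = 0, ..., n`, (in `K`, `‖z_{k+1} - z_k‖ < ε`) and
`H z = Σ_{k<n} c (z_k, z_{k+1})`.
(3) Let `z, z' ∈ K`, `‖z - z'‖ < ε`.  Then `‖z_k - z'_k‖ ≤ ‖z - z'‖ < ε`, and `c (z_k, z_{k+1}) + c (z_{k+1}, z'_{k+1}) = c (z_k, z'_{k+1}) =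
c (z_k, z'_k) + c (z'_k, z'_{k+1})` (mutual distances `< 2ε`).  Sum over `k`: `H z + c (z, z') = H z' + c (b, b) = H z'`.
So near a point `z ∈ ball b s'`: `H w = H z + H_z w - H_z z = H_z w + const`; `Sol H z` by `hcongr`.
-/

set_option autoImplicit false

open Topology Filter Metric

namespace Pool.Agent.H62.EL

/-- Lebesgue number: solutions on balls of a uniform radius around the points of the closed disc. -/
private lemma gl_cover {b : ℂ} {s s' : ℝ} (hs : s' < s) (Sol : (ℂ → ℂ) → ℂ → Prop)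
    (hloc : ∀ z ∈ ball b s, ∃ (r : ℝ) (H : ℂ → ℂ), 0 < r ∧ ∀ w ∈ ball z r, Sol H w) :
    ∃ (ε : ℝ) (HH : ℂ → ℂ → ℂ), 0 < ε ∧ (∀ z ∈ closedBall b s', ∀ w ∈ ball z (4 * ε), Sol (HH z) w) ∧
      ∀ z ∈ closedBall b s', ∀ w ∈ ball z (4 * ε), w ∈ ball b s := by
  choose! r H hr hsol using hloc
  have hcov : closedBall b s' ⊆ ⋃ i : ball b s, ball (i : ℂ) (r i) := by
    intro z hz
    have hz' : z ∈ ball b s := closedBall_subset_ball hs hz
    exact Set.mem_iUnion.2 ⟨⟨z, hz'⟩, mem_ball_self (hr z hz')⟩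
  obtain ⟨δ, hδ, hL⟩ := lebesgue_number_lemma_of_metric (isCompact_closedBall b s')
    (fun i : ball b s => (isOpen_ball : IsOpen (ball (i : ℂ) (r i)))) hcov
  have hL' : ∀ x ∈ closedBall b s', ∃ i : ℂ, i ∈ ball b s ∧ ball x δ ⊆ ball i (r i) :=
    fun x hx => let ⟨i, hi⟩ := hL x hx; ⟨i, i.2, hi⟩
  choose! j hjm hj using hL'
  have hm : 0 < min δ (s - s') := lt_min hδ (by linarith)
  refine ⟨min δ (s - s') / 4, fun z => H (j z), by linarith, ?_, ?_⟩
  · intro z hz w hw
    have h4 : 4 * (min δ (s - s') / 4) ≤ δ := by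
      have := min_le_left δ (s - s'); linarith
    exact hsol _ (hjm z hz) w (hj z hz (ball_subset_ball h4 hw))
  · intro z hz w hw
    rw [mem_closedBall] at hz
    rw [mem_ball] at hw ⊢
    have h4 : 4 * (min δ (s - s') / 4) ≤ s - s' := by
      have := min_le_right δ (s - s'); linarith
    have := dist_triangle w z b
    linarith

theorem glue {b : ℂ} {s s' : ℝ} (hs : s' < s) (Sol : (ℂ → ℂ) → ℂ → Prop)
    (hloc : ∀ z ∈ ball b s, ∃ (r : ℝ) (H : ℂ → ℂ), 0 < r ∧ ∀ w ∈ ball z r, Sol H w)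
    (hdiff : ∀ (H H' : ℂ → ℂ), ∀ z ∈ ball b s, Sol H z → Sol H' z → HasDerivAt (fun w => H w - H' w) 0 z)
    (hcongr : ∀ (H H' : ℂ → ℂ) (z c : ℂ), Sol H z → (∀ᶠ w in 𝓝 z, H' w = H w + c) → Sol H' z) :
    ∃ H : ℂ → ℂ, ∀ z ∈ ball b s', Sol H z := by
  rcases le_or_gt s' 0 with h0 | h0
  · refine ⟨fun _ => 0, fun z hz => ?_⟩
    rw [ball_eq_empty.2 h0] at hz
    exact absurd hz (Set.notMem_empty z)
  obtain ⟨ε, HH, hε, hHH, hsub⟩ := gl_cover hs Sol hloc
  -- the constant difference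
  have hconst : ∀ z ∈ closedBall b s', ∀ z' ∈ closedBall b s', ∀ u ∈ ball z (4 * ε) ∩ ball z' (4 * ε),
      ∀ v ∈ ball z (4 * ε) ∩ ball z' (4 * ε), HH z u - HH z' u = HH z v - HH z' v := by
    intro z hz z' hz' u hu v hv
    have hder : ∀ w ∈ ball z (4 * ε) ∩ ball z' (4 * ε), HasDerivAt (fun w => HH z w - HH z' w) 0 w :=
      fun w hw => hdiff _ _ w (hsub z hz w hw.1) (hHH z hz w hw.1) (hHH z' hz' w hw.2)
    exact (isOpen_ball.inter isOpen_ball).is_const_of_deriv_eq_zero
      ((convex_ball z (4 * ε)).inter (convex_ball z' (4 * ε))).isPreconnected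
      (fun w hw => (hder w hw).differentiableAt.differentiableWithinAt)
      (fun w hw => by simpa using (hder w hw).deriv) hu hv
  -- the cocycle
  have hcoc : ∀ z ∈ closedBall b s', ∀ z' ∈ closedBall b s', ∀ z'' ∈ closedBall b s', ‖z' - z‖ < 2 * ε →
      ‖z'' - z‖ < 2 * ε → ‖z'' - z'‖ < 2 * ε →
      (HH z z' - HH z z) + (HH z' z'' - HH z' z') = HH z z'' - HH z z := by
    intro z hz z' hz' z'' hz'' h1 h2 h3
    have hu : z' ∈ ball z (4 * ε) ∩ ball z' (4 * ε) :=
      ⟨by rw [mem_ball, dist_eq_norm]; linarith, by rw [mem_ball, dist_self]; linarith⟩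
    have hv : z'' ∈ ball z (4 * ε) ∩ ball z' (4 * ε) :=
      ⟨by rw [mem_ball, dist_eq_norm]; linarith, by rw [mem_ball, dist_eq_norm]; linarith⟩
    have := hconst z hz z' hz' z' hu z'' hv
    linear_combination this
  obtain ⟨n, hn⟩ := exists_nat_gt (s' / ε)
  have hn0 : (0 : ℝ) < n := lt_trans (div_pos h0 hε) hn
  have hnC : (n : ℂ) ≠ 0 := by
    have : (n : ℝ) ≠ 0 := hn0.ne'
    exact_mod_cast this
  have hsn : s' / n < ε := by
    rw [div_lt_iff₀ hn0, mul_comm]
    exact (div_lt_iff₀ hε).1 hn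
  set p : ℂ → ℕ → ℂ := fun z k => b + ((k : ℂ) / (n : ℂ)) * (z - b) with hp
  have hfrac : ∀ k : ℕ, k ≤ n → ‖((k : ℂ) / (n : ℂ))‖ ≤ 1 := by
    intro k hk
    rw [norm_div, Complex.norm_natCast, Complex.norm_natCast, div_le_one hn0]
    exact_mod_cast hk
  have hpK : ∀ z ∈ closedBall b s', ∀ k : ℕ, k ≤ n → p z k ∈ closedBall b s' := by
    intro z hz k hk
    rw [mem_closedBall, dist_eq_norm] at hz ⊢
    have : p z k - b = ((k : ℂ) / (n : ℂ)) * (z - b) := by rw [hp]; ring
    rw [this, norm_mul]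
    calc _ ≤ 1 * ‖z - b‖ := mul_le_mul_of_nonneg_right (hfrac k hk) (norm_nonneg _)
      _ ≤ s' := by rw [one_mul]; exact hz
  have hstep : ∀ z ∈ closedBall b s', ∀ k : ℕ, ‖p z (k + 1) - p z k‖ < ε := by
    intro z hz k
    rw [mem_closedBall, dist_eq_norm] at hz
    have : p z (k + 1) - p z k = (z - b) / (n : ℂ) := by
      rw [hp]; push_cast; field_simp; ring
    rw [this, norm_div, Complex.norm_natCast]
    exact lt_of_le_of_lt (div_le_div_of_nonneg_right hz hn0.le) hsn
  have hside : ∀ z z' : ℂ, ∀ k : ℕ, k ≤ n → ‖p z' k - p z k‖ ≤ ‖z' - z‖ := by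
    intro z z' k hk
    have : p z' k - p z k = ((k : ℂ) / (n : ℂ)) * (z' - z) := by rw [hp]; ring
    rw [this, norm_mul]
    calc _ ≤ 1 * ‖z' - z‖ := mul_le_mul_of_nonneg_right (hfrac k hk) (norm_nonneg _)
      _ = ‖z' - z‖ := one_mul _
  have hpn : ∀ z : ℂ, p z n = z := by
    intro z
    rw [hp]; simp only
    rw [div_self hnC]; ring
  have hp0 : ∀ z : ℂ, p z 0 = b := by
    intro z
    rw [hp]; simp
  set H : ℂ → ℂ := fun z => ∑ k ∈ Finset.range n, (HH (p z k) (p z (k + 1)) - HH (p z k) (p z k)) with hH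
  have hlad : ∀ z ∈ closedBall b s', ∀ z' ∈ closedBall b s', ‖z' - z‖ < ε → ∀ m : ℕ, m ≤ n →
      (∑ k ∈ Finset.range m, (HH (p z k) (p z (k + 1)) - HH (p z k) (p z k))) +
        (HH (p z m) (p z' m) - HH (p z m) (p z m)) =
      ∑ k ∈ Finset.range m, (HH (p z' k) (p z' (k + 1)) - HH (p z' k) (p z' k)) := by
    intro z hz z' hz' hzz m
    induction m with
    | zero =>
      intro _
      simp [hp0]
    | succ m ih =>
      intro hm
      have hm' : m ≤ n := Nat.le_of_succ_le hm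
      have e := ih hm'
      rw [Finset.sum_range_succ, Finset.sum_range_succ]
      have a1 := hstep z hz m
      have a2 := hstep z' hz' m
      have a3 := lt_of_le_of_lt (hside z z' m hm') hzz
      have a4 := lt_of_le_of_lt (hside z z' (m + 1) hm) hzz
      have a5 : ‖p z' (m + 1) - p z m‖ < 2 * ε := by
        have : p z' (m + 1) - p z m = (p z' (m + 1) - p z (m + 1)) + (p z (m + 1) - p z m) := by ring
        rw [this]
        exact lt_of_le_of_lt (norm_add_le _ _) (by linarith)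
      have c1 := hcoc (p z m) (hpK z hz m hm') (p z (m + 1)) (hpK z hz (m + 1) hm) (p z' (m + 1))
        (hpK z' hz' (m + 1) hm) (by linarith) a5 (by linarith)
      have c2 := hcoc (p z m) (hpK z hz m hm') (p z' m) (hpK z' hz' m hm') (p z' (m + 1))
        (hpK z' hz' (m + 1) hm) (by linarith) a5 (by linarith)
      linear_combination e + c1 - c2
  refine ⟨H, fun z hz => ?_⟩
  have hzK : z ∈ closedBall b s' := ball_subset_closedBall hz
  refine hcongr (HH z) H z (H z - HH z z) (hHH z hzK z (mem_ball_self (by linarith))) ?_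
  have h1 : ∀ᶠ w in 𝓝 z, w ∈ ball b s' := isOpen_ball.mem_nhds hz
  have h2 : ∀ᶠ w in 𝓝 z, w ∈ ball z ε := isOpen_ball.mem_nhds (mem_ball_self hε)
  filter_upwards [h1, h2] with w hw1 hw2
  rw [mem_ball, dist_eq_norm] at hw2
  have e := hlad z hzK w (ball_subset_closedBall hw1) hw2 n le_rfl
  rw [hpn, hpn] at e
  have e' : H z + (HH z w - HH z z) = H w := e
  rw [← e']; ring

end Pool.Agent.H62.EL

end
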