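import Pool.Agent.H94.G5T.H62.EF.PrA
import Pool.Agent.H94.G5T.M08
import Pool.Agent.H94.G5T.M11
import Pool.Agent.H94.G5T.M16
import Pool.Agent.H94.G5T.M17
import Pool.Agent.H94.G5T.M28

/-! The parts of this file: H22.HF.Div, H36.BP.ExtE, H62.EF.ChEx, H62.EL.Hf, H62.EL.Kq_2, H62.EL.Kz. -/

section

/-!
# HF Div: division by powers of the first variable

`g : ℂ × E → ℂ` analytic at `0`, not zero near `0`: `g (s, x) = s ^ a * g' (s, x)` with `g' (0, ·)` not zero near `0`.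

Proof.  Choose `ρ > 0` such that `g` is analytic at `(σ, x)` for `‖σ‖ ≤ ρ`, `‖x‖ < ρ`.  For `a : ℕ`, `‖s‖ < ρ`, `‖x‖ < ρ` put
`G a (s, x) = (2 π i)⁻¹ ∮_{‖σ‖ = ρ} g (σ, x) / (σ ^ a (σ - s)) dσ`: analytic (`analyticAt_circleIntegral`), `G 0 = g` (Cauchy's formula), and
`G a (s, x) = G a (0, x) + s * G (a + 1) (s, x)` because `1 / (σ ^ a (σ - s)) = 1 / σ ^ (a + 1) + s / (σ ^ (a + 1) (σ - s))`.
If for all `a` `G a (0, ·) = 0` near `0`, then on `ball 0 ρ` (identity theorem `AnalyticOnNhd.eqOn_zero_of_preconnected_of_eventuallyEq_zero`), so for `‖x‖ < ρ`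
`g (s, x) = s ^ a * G a (s, x)` for all `a`, and `‖G a (s, x)‖ ≤ C_x ρ ^ (- a) ρ / (ρ - ‖s‖)`, so `g (s, x) = 0` for `‖s‖ < ρ` (or: all the derivatives of `g (·, x)` at `0` are zero):
contradiction.  Let `a` be minimal with `G a (0, ·)` not zero near `0`, `g' = G a`.
-/

set_option autoImplicit false

open Metric Set Filter Topology

namespace Pool.Agent.H22.HF

theorem exists_div {E : Type} [NormedAddCommGroup E] [NormedSpace ℂ E] [FiniteDimensional ℂ E] {g : ℂ × E → ℂ} (hg : AnalyticAt ℂ g 0)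
    (hne : ¬ ∀ᶠ y in 𝓝 (0 : ℂ × E), g y = 0) :
    ∃ (a : ℕ) (g' : ℂ × E → ℂ), AnalyticAt ℂ g' 0 ∧ (∀ᶠ y in 𝓝 (0 : ℂ × E), g y = y.1 ^ a * g' y) ∧ ¬ ∀ᶠ x in 𝓝 (0 : E), g' (0, x) = 0 := by
  classical
  obtain ⟨r, hr, hball⟩ := Metric.eventually_nhds_iff_ball.mp hg.eventually_analyticAt
  obtain ⟨ρ, hρ, hρr⟩ : ∃ ρ : ℝ, 0 < ρ ∧ ρ < r := ⟨r / 2, by linarith, by linarith⟩
  have hmem : ∀ (σ : ℂ) (x : E), ‖σ‖ ≤ ρ → ‖x‖ < r → AnalyticAt ℂ g (σ, x) := by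
    intro σ x h1 h2
    refine hball _ ?_
    rw [mem_ball_zero_iff, Prod.norm_mk]
    exact max_lt (lt_of_le_of_lt h1 hρr) h2
  let G : ℕ → ℂ × E → ℂ := fun a y => (2 * Real.pi * Complex.I : ℂ)⁻¹ * ∮ σ in C(0, ρ), g (σ, y.2) / (σ ^ a * (σ - y.1))
  have hne0 : ∀ σ ∈ sphere (0 : ℂ) ρ, ∀ s : ℂ, ‖s‖ < ρ → σ ≠ 0 ∧ σ - s ≠ 0 := by
    intro σ hσ s hs
    have hn : ‖σ‖ = ρ := by simpa using hσ
    constructor
    · rintro rfl
      rw [norm_zero] at hn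
      linarith
    · intro h
      rw [sub_eq_zero] at h
      rw [h] at hn
      linarith
  have hGan : ∀ a (y : ℂ × E), ‖y.1‖ < ρ → ‖y.2‖ < r → AnalyticAt ℂ (G a) y := by
    intro a y h1 h2
    have h3 : AnalyticAt ℂ (fun p : ℂ × E => ∮ σ in C(0, ρ), (fun q : (ℂ × E) × ℂ => g (q.2, q.1.2) / (q.2 ^ a * (q.2 - q.1.1))) (p, σ)) y := by
      refine analyticAt_circleIntegral (E := ℂ × E)
        (F := fun q : (ℂ × E) × ℂ => g (q.2, q.1.2) / (q.2 ^ a * (q.2 - q.1.1))) hρ ?_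
      intro σ hσ
      have hn : ‖σ‖ = ρ := by simpa using hσ
      obtain ⟨e1, e2⟩ := hne0 σ hσ y.1 h1
      have a1 : AnalyticAt ℂ (fun q : (ℂ × E) × ℂ => g (q.2, q.1.2)) (y, σ) := by
        have h4 : AnalyticAt ℂ g ((fun q : (ℂ × E) × ℂ => (q.2, q.1.2)) (y, σ)) := hmem σ y.2 hn.le h2
        have h5 : AnalyticAt ℂ (fun q : (ℂ × E) × ℂ => (q.2, q.1.2)) (y, σ) :=
          analyticAt_snd.prod (AnalyticAt.comp (g := Prod.snd) (f := Prod.fst) analyticAt_snd analyticAt_fst)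
        exact AnalyticAt.comp (g := g) (f := fun q : (ℂ × E) × ℂ => (q.2, q.1.2)) h4 h5
      have a2 : AnalyticAt ℂ (fun q : (ℂ × E) × ℂ => q.2 ^ a * (q.2 - q.1.1)) (y, σ) :=
        (analyticAt_snd.pow a).mul (analyticAt_snd.sub (analyticAt_fst.comp analyticAt_fst))
      exact a1.div a2 (mul_ne_zero (pow_ne_zero _ e1) e2)
    exact analyticAt_const.mul h3
  have hcont : ∀ x : E, ‖x‖ < r → ContinuousOn (fun σ : ℂ => g (σ, x)) (sphere (0 : ℂ) ρ) := by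
    intro x hx σ hσ
    have hn : ‖σ‖ = ρ := by simpa using hσ
    have h4 : ContinuousAt g ((fun σ : ℂ => (σ, x)) σ) := (hmem σ x hn.le hx).continuousAt
    exact (ContinuousAt.comp (f := fun σ : ℂ => (σ, x)) h4 (Continuous.prodMk_left x).continuousAt).continuousWithinAt
  have hG0 : ∀ (s : ℂ) (x : E), ‖s‖ < ρ → ‖x‖ < r → G 0 (s, x) = g (s, x) := by
    intro s x h1 h2
    have hd : DiffContOnCl ℂ (fun σ : ℂ => g (σ, x)) (ball (0 : ℂ) ρ) := by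
      refine DifferentiableOn.diffContOnCl ?_
      rw [closure_ball _ hρ.ne']
      intro σ hσ
      have hn : ‖σ‖ ≤ ρ := by simpa using hσ
      have h4 : DifferentiableAt ℂ g ((fun σ : ℂ => (σ, x)) σ) := (hmem σ x hn h2).differentiableAt
      exact (DifferentiableAt.comp σ h4 (differentiableAt_id.prodMk (differentiableAt_const x))).differentiableWithinAt
    have h5 := hd.two_pi_i_inv_smul_circleIntegral_sub_inv_smul (w := s) (by simpa using h1)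
    rw [smul_eq_mul] at h5
    rw [← h5]
    change (2 * Real.pi * Complex.I : ℂ)⁻¹ * _ = _
    congr 1
    refine circleIntegral.integral_congr hρ.le ?_
    intro σ _
    simp only [pow_zero, one_mul, smul_eq_mul]
    rw [div_eq_mul_inv, mul_comm]
  have hrec : ∀ a (s : ℂ) (x : E), ‖s‖ < ρ → ‖x‖ < r → G a (s, x) = G a (0, x) + s * G (a + 1) (s, x) := by
    intro a s x h1 h2
    have i1 : CircleIntegrable (fun σ : ℂ => g (σ, x) / (σ ^ a * (σ - 0))) 0 ρ := by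
      refine ContinuousOn.circleIntegrable hρ.le ((hcont x h2).div ?_ ?_)
      · fun_prop
      · intro σ hσ
        obtain ⟨e1, e2⟩ := hne0 σ hσ 0 (by simpa using hρ)
        exact mul_ne_zero (pow_ne_zero _ e1) e2
    have i2 : CircleIntegrable (fun σ : ℂ => s * (g (σ, x) / (σ ^ (a + 1) * (σ - s)))) 0 ρ := by
      refine ContinuousOn.circleIntegrable hρ.le (continuousOn_const.mul ((hcont x h2).div ?_ ?_))
      · fun_prop
      · intro σ hσ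
        obtain ⟨e1, e2⟩ := hne0 σ hσ s h1
        exact mul_ne_zero (pow_ne_zero _ e1) e2
    have h3 : (∮ σ in C(0, ρ), g (σ, x) / (σ ^ a * (σ - s)))
        = (∮ σ in C(0, ρ), g (σ, x) / (σ ^ a * (σ - 0))) + s * ∮ σ in C(0, ρ), g (σ, x) / (σ ^ (a + 1) * (σ - s)) := by
      rw [← circleIntegral.integral_const_mul, ← circleIntegral.integral_add i1 i2]
      refine circleIntegral.integral_congr hρ.le ?_
      intro σ hσ
      obtain ⟨e1, e2⟩ := hne0 σ hσ s h1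
      simp only [sub_zero]
      field_simp
      ring
    change (2 * Real.pi * Complex.I : ℂ)⁻¹ * _ = (2 * Real.pi * Complex.I : ℂ)⁻¹ * _ + s * ((2 * Real.pi * Complex.I : ℂ)⁻¹ * _)
    simp only
    rw [h3]
    ring
  have hid : ∀ a, (∀ᶠ x in 𝓝 (0 : E), G a (0, x) = 0) → ∀ x : E, ‖x‖ < r → G a (0, x) = 0 := by
    intro a ha x hx
    have h1 : AnalyticOnNhd ℂ (fun x : E => G a (0, x)) (ball (0 : E) r) := by
      intro z hz
      have h4 : AnalyticAt ℂ (G a) ((fun x : E => ((0 : ℂ), x)) z) := hGan a (0, z) (by simpa using hρ) (by simpa using hz)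
      exact AnalyticAt.comp (g := G a) (f := fun x : E => ((0 : ℂ), x)) h4 (analyticAt_const.prod analyticAt_id)
    exact h1.eqOn_zero_of_preconnected_of_eventuallyEq_zero (convex_ball _ _).isPreconnected (mem_ball_self hr) ha (by simpa using hx)
  have hpow : ∀ a, (∀ b < a, ∀ᶠ x in 𝓝 (0 : E), G b (0, x) = 0) → ∀ (s : ℂ) (x : E), ‖s‖ < ρ → ‖x‖ < r → g (s, x) = s ^ a * G a (s, x) := by
    intro a
    induction a with
    | zero =>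
      intro _ s x h1 h2
      rw [pow_zero, one_mul, hG0 s x h1 h2]
    | succ a ih =>
      intro hb s x h1 h2
      rw [ih (fun b hb' => hb b (Nat.lt_succ_of_lt hb')) s x h1 h2, hrec a s x h1 h2, hid a (hb a (Nat.lt_succ_self a)) x h2, zero_add, pow_succ]
      ring
  have hex : ∃ a, ¬ ∀ᶠ x in 𝓝 (0 : E), G a (0, x) = 0 := by
    by_contra hcon
    push Not at hcon
    have hall : ∀ b, ∀ᶠ x in 𝓝 (0 : E), G b (0, x) = 0 := hcon
    apply hne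
    have hz : ∀ (s : ℂ) (x : E), ‖s‖ < ρ → ‖x‖ < r → g (s, x) = 0 := by
      intro s x hs hx
      have hf : AnalyticOnNhd ℂ (fun σ : ℂ => g (σ, x)) (ball (0 : ℂ) ρ) := by
        intro σ hσ
        have h4 : AnalyticAt ℂ g ((fun σ : ℂ => (σ, x)) σ) := hmem σ x (by simpa using (mem_ball_zero_iff.mp hσ).le) hx
        exact AnalyticAt.comp h4 (analyticAt_id.prod analyticAt_const)
      have htop : analyticOrderAt (fun σ : ℂ => g (σ, x)) 0 = ⊤ := by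
        refine ENat.eq_top_iff_forall_ge.mpr ?_
        intro a
        rw [natCast_le_analyticOrderAt (hf 0 (mem_ball_self hρ))]
        refine ⟨fun σ => G a (σ, x), ?_, ?_⟩
        · have h4 : AnalyticAt ℂ (G a) ((fun σ : ℂ => (σ, x)) 0) := hGan a (0, x) (by simpa using hρ) hx
          exact AnalyticAt.comp (g := G a) (f := fun σ : ℂ => (σ, x)) h4 (analyticAt_id.prod analyticAt_const)
        · filter_upwards [ball_mem_nhds (0 : ℂ) hρ] with σ hσ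
          rw [sub_zero, smul_eq_mul]
          exact hpow a (fun b _ => hall b) σ x (by simpa using hσ) hx
      rw [analyticOrderAt_eq_top] at htop
      exact hf.eqOn_zero_of_preconnected_of_eventuallyEq_zero (convex_ball _ _).isPreconnected (mem_ball_self hρ) htop (by simpa using hs)
    filter_upwards [ball_mem_nhds (0 : ℂ × E) hρ] with y hy
    rw [mem_ball_zero_iff, Prod.norm_def] at hy
    exact hz y.1 y.2 (lt_of_le_of_lt (le_max_left _ _) hy) (lt_trans (lt_of_le_of_lt (le_max_right _ _) hy) hρr)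
  refine ⟨Nat.find hex, G (Nat.find hex), hGan _ 0 (by simpa using hρ) (by simpa using hr), ?_, Nat.find_spec hex⟩
  filter_upwards [ball_mem_nhds (0 : ℂ × E) hρ] with y hy
  rw [mem_ball_zero_iff, Prod.norm_def] at hy
  refine hpow (Nat.find hex) ?_ y.1 y.2 (lt_of_le_of_lt (le_max_left _ _) hy) (lt_trans (lt_of_le_of_lt (le_max_right _ _) hy) hρr)
  intro b hb
  by_contra h
  exact Nat.find_min hex hb h

end Pool.Agent.H22.HF

end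

section

/-!
# BP ExtE: the limit at the puncture

For `r = |z₁|/(n+2)` take `θ_n`; `F_n = θ_n F` is bounded by `A` for `|z₁|/(n+2) ≤ |z| ≤ r₁`, `|F_n z₁| ≥ c`.  Along `hyperfilter ℕ` the pointwise limits `H z` exist for `0 < |z| < r₁` (bounded in a finite dimensional space), and by
`montel_ultrafilter` on small discs (`TendstoLocallyUniformlyOn` implies pointwise convergence, so the local limits are `H`) `H` is holomorphic on `0 < |z| < r₁`, `|H z| ≤ A`, `|H z₁| ≥ c`, and `H z` is a multiple of `F z` (closed line).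
`H` is bounded, so it extends to a holomorphic `P` on `|z| < r₁` (`Complex.differentiableOn_update_limUnder_of_bddAbove`, for vector valued functions), `P z₁ ≠ 0`, so `P` does not vanish identically near `0` (identity theorem on the disc),
`P z = z^k Q z`, `Q 0 ≠ 0` (`AnalyticAt.exists_eventuallyEq_pow_smul_nonzero_iff`), `Q z ≠ 0` near `0` and `Q z` is a multiple of `F z`.
-/

set_option autoImplicit false

namespace Pool.Agent.H36.BP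

open Filter Topology Metric

variable {N : ℕ}

theorem puncture_limit {F : ℂ → EN N} (hF : DifferentiableOn ℂ F (ball 0 1 \ {0})) (hF0 : ∀ z ∈ ball (0 : ℂ) 1 \ {0}, F z ≠ 0) {r₁ c A : ℝ} {z₁ : ℂ}
    (hc : 0 < c) (hz1 : 0 < ‖z₁‖) (hz2 : ‖z₁‖ < r₁) (hr1 : r₁ < 1)
    (h : ∀ r : ℝ, 0 < r → r < ‖z₁‖ → ∃ θ : ℂ → ℂ, DifferentiableOn ℂ θ {0}ᶜ ∧
      (∀ z : ℂ, r ≤ ‖z‖ → ‖z‖ ≤ r₁ → ‖θ z • F z‖ ≤ A) ∧ c ≤ ‖θ z₁ • F z₁‖) :
    ∃ Q : ℂ → EN N, AnalyticAt ℂ Q 0 ∧ Q 0 ≠ 0 ∧ ∀ᶠ z in 𝓝[≠] (0 : ℂ), ∃ k : ℂ, k ≠ 0 ∧ Q z = k • F z := by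
  classical
  have hr : ∀ n : ℕ, 0 < ‖z₁‖ / ((n : ℝ) + 2) ∧ ‖z₁‖ / ((n : ℝ) + 2) < ‖z₁‖ := by
    intro n
    have hn : (0 : ℝ) ≤ n := Nat.cast_nonneg n
    refine ⟨by positivity, ?_⟩
    rw [div_lt_iff₀ (by positivity)]
    nlinarith
  choose θ hθd hθb hθc using fun n : ℕ => h (‖z₁‖ / ((n : ℝ) + 2)) (hr n).1 (hr n).2
  set 𝒰 : Ultrafilter ℕ := hyperfilter ℕ with h𝒰
  have h𝒰l : (𝒰 : Filter ℕ) ≤ atTop := by
    rw [← Nat.cofinite_eq_atTop]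
    exact hyperfilter_le_cofinite
  have hsmall : ∀ δ : ℝ, 0 < δ → ∀ᶠ n : ℕ in (𝒰 : Filter ℕ), ‖z₁‖ / ((n : ℝ) + 2) ≤ δ := by
    intro δ hδ
    apply h𝒰l
    have ht : Tendsto (fun n : ℕ => ‖z₁‖ / ((n : ℝ) + 2)) atTop (𝓝 0) :=
      Tendsto.div_atTop tendsto_const_nhds (tendsto_natCast_atTop_atTop.atTop_add tendsto_const_nhds)
    exact (ht.eventually_lt_const hδ).mono fun _ h => h.le
  set Fn : ℕ → ℂ → EN N := fun n z => θ n z • F z with hFn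
  -- local discs
  have hloc : ∀ z : ℂ, z ≠ 0 → ‖z‖ < r₁ → ∃ (s : ℝ) (g : ℂ → EN N), 0 < s ∧ ball z s ⊆ ball 0 r₁ \ {0} ∧
      DifferentiableOn ℂ g (ball z s) ∧ ∀ w ∈ ball z s, Tendsto (fun n => Fn n w) (𝒰 : Filter ℕ) (𝓝 (g w)) := by
    intro z hz hzr
    have hzp : 0 < ‖z‖ := norm_pos_iff.mpr hz
    set s : ℝ := min (‖z‖ / 2) (r₁ - ‖z‖) with hs
    have hs0 : 0 < s := lt_min (by positivity) (by linarith)
    have hw1 : ∀ w ∈ ball z s, ‖z‖ / 2 ≤ ‖w‖ ∧ ‖w‖ < r₁ := by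
      intro w hw
      have h1 : ‖w - z‖ < s := by rwa [mem_ball, dist_eq_norm] at hw
      have h2 : s ≤ ‖z‖ / 2 := min_le_left _ _
      have h3 : s ≤ r₁ - ‖z‖ := min_le_right _ _
      have h4 : ‖z‖ ≤ ‖w‖ + ‖w - z‖ := by
        have := norm_sub_le w (w - z)
        simpa using this
      have h5 : ‖w‖ ≤ ‖z‖ + ‖w - z‖ := by
        have := norm_add_le z (w - z)
        simpa using this
      constructor <;> linarith
    have hsub : ball z s ⊆ ball 0 r₁ \ {0} := by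
      intro w hw
      have := hw1 w hw
      refine ⟨by simpa using this.2, ?_⟩
      rintro rfl
      have h1 := this.1
      rw [norm_zero] at h1
      linarith
    have hsub1 : ball z s ⊆ ball 0 1 \ {0} := fun w hw =>
      ⟨ball_subset_ball hr1.le (hsub hw).1, (hsub hw).2⟩
    obtain ⟨g, hg1, hg2⟩ := Pool.Agent.H17.montel_ultrafilter (E := EN N) 𝒰 (F := Fn) (a := z) (r := s) (B := A)
      (by
        refine Eventually.of_forall fun n => ?_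
        refine DifferentiableOn.smul ((hθd n).mono ?_) (hF.mono hsub1)
        intro w hw
        exact (hsub hw).2)
      (by
        filter_upwards [hsmall (‖z‖ / 2) (by positivity)] with n hn w hw
        exact hθb n w (hn.trans (hw1 w hw).1) (hw1 w hw).2.le)
    exact ⟨s, g, hs0, hsub, hg1, fun w hw => hg2.tendsto_at hw⟩
  -- the limit
  have hlim : ∀ z : ℂ, ∃ l : EN N, z ≠ 0 → ‖z‖ < r₁ → Tendsto (fun n => Fn n z) (𝒰 : Filter ℕ) (𝓝 l) := by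
    intro z
    by_cases hz : z ≠ 0 ∧ ‖z‖ < r₁
    · obtain ⟨s, g, hs, -, -, hg⟩ := hloc z hz.1 hz.2
      exact ⟨g z, fun _ _ => hg z (mem_ball_self hs)⟩
    · exact ⟨0, fun h1 h2 => absurd ⟨h1, h2⟩ hz⟩
  choose H hH using hlim
  have hHd : DifferentiableOn ℂ H (ball 0 r₁ \ {0}) := by
    intro z hz
    have hz0 : z ≠ 0 := hz.2
    have hzr : ‖z‖ < r₁ := by simpa using hz.1
    obtain ⟨s, g, hs, hsub, hgd, hg⟩ := hloc z hz0 hzr
    have heq : H =ᶠ[𝓝 z] g := by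
      filter_upwards [ball_mem_nhds z hs] with w hw
      have hw' := hsub hw
      exact tendsto_nhds_unique (hH w hw'.2 (by simpa using hw'.1)) (hg w hw)
    have : DifferentiableAt ℂ g z := (hgd z (mem_ball_self hs)).differentiableAt (ball_mem_nhds z hs)
    exact (this.congr_of_eventuallyEq heq).differentiableWithinAt
  have hHb : ∀ z ∈ ball (0 : ℂ) r₁ \ {0}, ‖H z‖ ≤ A := by
    intro z hz
    have hz0 : z ≠ 0 := hz.2
    have hzr : ‖z‖ < r₁ := by simpa using hz.1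
    refine le_of_tendsto (hH z hz0 hzr).norm ?_
    filter_upwards [hsmall ‖z‖ (norm_pos_iff.mpr hz0)] with n hn
    exact hθb n z hn hzr.le
  have hz10 : z₁ ≠ 0 := norm_pos_iff.mp hz1
  have hHc : c ≤ ‖H z₁‖ := ge_of_tendsto (hH z₁ hz10 hz2).norm (Eventually.of_forall fun n => hθc n)
  have hHs : ∀ z ∈ ball (0 : ℂ) r₁ \ {0}, ∃ a : ℂ, H z = a • F z := by
    intro z hz
    have hz0 : z ≠ 0 := hz.2
    have hzr : ‖z‖ < r₁ := by simpa using hz.1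
    have hcl : IsClosed ((Submodule.span ℂ {F z} : Submodule ℂ (EN N)) : Set (EN N)) :=
      Submodule.closed_of_finiteDimensional _
    have hmem : H z ∈ (Submodule.span ℂ {F z} : Submodule ℂ (EN N)) :=
      hcl.mem_of_tendsto (hH z hz0 hzr) (Eventually.of_forall fun n =>
        Submodule.smul_mem _ _ (Submodule.mem_span_singleton_self _))
    obtain ⟨a, ha⟩ := Submodule.mem_span_singleton.mp hmem
    exact ⟨a, ha.symm⟩
  have hr0 : 0 < r₁ := hz1.trans hz2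
  -- the extension
  set P : ℂ → EN N := Function.update H 0 (limUnder (𝓝[≠] 0) H) with hP
  have hPd : DifferentiableOn ℂ P (ball 0 r₁) := by
    refine Complex.differentiableOn_update_limUnder_of_bddAbove (ball_mem_nhds 0 hr0) hHd ?_
    refine ⟨A, ?_⟩
    rintro _ ⟨z, hz, rfl⟩
    exact hHb z hz
  have hPH : ∀ z : ℂ, z ≠ 0 → P z = H z := fun z hz => Function.update_of_ne hz _ _
  have hPa : AnalyticOnNhd ℂ P (ball 0 r₁) := hPd.analyticOnNhd isOpen_ball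
  have hP0 : ¬ ∀ᶠ z in 𝓝 (0 : ℂ), P z = 0 := by
    intro hev
    have h1 := hPa.eqOn_zero_of_preconnected_of_eventuallyEq_zero (convex_ball (0 : ℂ) r₁).isPreconnected
      (mem_ball_self hr0) hev
    have h2 : P z₁ = 0 := h1 (by simpa using hz2)
    rw [hPH z₁ hz10] at h2
    rw [h2, norm_zero] at hHc
    linarith
  obtain ⟨k, Q, hQa, hQ0, hQ⟩ := (hPa 0 (mem_ball_self hr0)).exists_eventuallyEq_pow_smul_nonzero_iff.mpr hP0
  refine ⟨Q, hQa, hQ0, ?_⟩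
  have hQne : ∀ᶠ z in 𝓝 (0 : ℂ), Q z ≠ 0 := hQa.continuousAt.eventually_ne hQ0
  rw [eventually_nhdsWithin_iff]
  filter_upwards [hQ, hQne, ball_mem_nhds (0 : ℂ) hr0] with z hz1 hz2 hz3 hz4
  have hz0 : z ≠ 0 := hz4
  obtain ⟨a, ha⟩ := hHs z ⟨hz3, hz4⟩
  rw [hPH z hz0, sub_zero] at hz1
  have hzk : z ^ k ≠ 0 := pow_ne_zero _ hz0
  have he : Q z = ((z ^ k)⁻¹ * a) • F z := by
    rw [mul_smul, ← ha, hz1, smul_smul, inv_mul_cancel₀ hzk, one_smul]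
  refine ⟨(z ^ k)⁻¹ * a, ?_, he⟩
  intro h0
  rw [h0, zero_smul] at he
  exact hz2 he

end Pool.Agent.H36.BP

end

section

/-!
# EF ChEx: charts from germ-level charts

The proof of `Pool.Agent.H36.BP.exists_chart` (`H36/BP/GermChart.lean`) without the sets `T` and `K` (copy it and leave out everything about `T`, `K`).
-/

set_option autoImplicit false

open Topology Filter Metric

namespace Pool.Agent.H62.EF

open Pool.Agent.H36.BP (EN IsGermChart)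
open Pool.Agent.H14.PP (IsCone Chart)

variable {N : ℕ}

theorem exists_chart_of_germ {X : Set (EN N)} (hX : IsCone X) {σ : ℂ × ℂ → EN N} {τ : EN N → ℂ × ℂ} (h : IsGermChart X σ τ) :
    ∃ χ : Chart X, σ 0 ∈ χ.U ∧ χ.q (σ 0) = 0 := by
  have hσ0 : σ 0 ≠ 0 := by
    intro h0
    have h1 := h.σ_mem.self_of_nhds
    rw [h0] at h1
    exact hX.zero_notMem h1
  -- the linear form
  obtain ⟨ℓ, hℓ⟩ : ∃ ℓ : EN N →L[ℂ] ℂ, ℓ (σ 0) = 1 := by
    have hne : inner ℂ (σ 0) (σ 0) ≠ (0 : ℂ) := inner_self_ne_zero.mpr hσ0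
    refine ⟨(inner ℂ (σ 0) (σ 0) : ℂ)⁻¹ • innerSL ℂ (σ 0), ?_⟩
    simp only [_root_.smul_apply, innerSL_apply_apply, smul_eq_mul]
    exact inv_mul_cancel₀ hne
  -- the normalised parametrisation
  have hℓσ : ContinuousAt (fun p => ℓ (σ p)) 0 := ℓ.continuous.continuousAt.comp h.σ_an.continuousAt
  have hℓne : ∀ᶠ p in 𝓝 (0 : ℂ × ℂ), ℓ (σ p) ≠ 0 := hℓσ.eventually_ne (by rw [hℓ]; exact one_ne_zero)
  have hinvσ : ∀ᶠ p in 𝓝 (0 : ℂ × ℂ), τ ((ℓ (σ p))⁻¹ • σ p) = τ (σ p) := by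
    have hc : Tendsto (fun p => (σ p, (ℓ (σ p))⁻¹)) (𝓝 (0 : ℂ × ℂ)) (𝓝 (σ 0, (1 : ℂ))) := by
      have h1 : Tendsto (fun p => (ℓ (σ p))⁻¹) (𝓝 (0 : ℂ × ℂ)) (𝓝 (ℓ (σ 0))⁻¹) := hℓσ.inv₀ (by rw [hℓ]; exact one_ne_zero)
      rw [hℓ, inv_one] at h1
      exact h.σ_an.continuousAt.prodMk_nhds h1
    exact hc.eventually h.inv
  -- the neighbourhood W₀
  have hW : ∀ᶠ y in 𝓝 (σ 0), AnalyticAt ℂ τ y ∧ (y ∈ X → ∃ c : ℂ, c ≠ 0 ∧ y = c • σ (τ y)) := h.τ_an.eventually_analyticAt.and h.right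
  obtain ⟨W₀, hW₀s, hW₀o, hW₀m⟩ := _root_.eventually_nhds_iff.mp hW
  have hσ₁ : Tendsto (fun p => (ℓ (σ p))⁻¹ • σ p) (𝓝 (0 : ℂ × ℂ)) (𝓝 (σ 0)) := by
    have h1 : Tendsto (fun p => (ℓ (σ p))⁻¹) (𝓝 (0 : ℂ × ℂ)) (𝓝 (ℓ (σ 0))⁻¹) := hℓσ.inv₀ (by rw [hℓ]; exact one_ne_zero)
    have h2 := h1.smul h.σ_an.continuousAt
    rwa [hℓ, inv_one, one_smul] at h2
  have hσ₁W : ∀ᶠ p in 𝓝 (0 : ℂ × ℂ), (ℓ (σ p))⁻¹ • σ p ∈ W₀ := hσ₁.eventually (hW₀o.mem_nhds hW₀m)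
  obtain ⟨R, hR, hall⟩ := Metric.eventually_nhds_iff_ball.mp
    (((((h.σ_an.eventually_analyticAt.and h.σ_mem).and h.left).and hℓne).and hinvσ).and hσ₁W)
  set r : ℝ := R / 2 with hr
  have hr0 : 0 < r := by rw [hr]; positivity
  have hrC : (r : ℂ) ≠ 0 := by exact_mod_cast hr0.ne'
  have hball : ∀ p ∈ ball (0 : ℂ × ℂ) 2, (r : ℂ) • p ∈ ball (0 : ℂ × ℂ) R := by
    intro p hp
    rw [mem_ball_zero_iff] at hp ⊢
    rw [norm_smul, Complex.norm_real, Real.norm_of_nonneg hr0.le, hr]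
    nlinarith
  have hτσ : ∀ p ∈ ball (0 : ℂ × ℂ) R, τ ((ℓ (σ p))⁻¹ • σ p) = p := by
    intro p hp
    rw [(hall p hp).1.2, (hall p hp).1.1.1.2]
  set U : Set (EN N) := {x | ℓ x ≠ 0 ∧ (ℓ x)⁻¹ • x ∈ W₀ ∧ ‖τ ((ℓ x)⁻¹ • x)‖ < R} with hU
  have hmaps : ∀ x : EN N, ℓ x ≠ 0 → ∀ c : ℂ, c ≠ 0 → (ℓ (c • x))⁻¹ • (c • x) = (ℓ x)⁻¹ • x := by
    intro x hx c hc
    rw [map_smul, smul_eq_mul, smul_smul, mul_inv, mul_comm c⁻¹, mul_assoc, inv_mul_cancel₀ hc, mul_one]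
  have han1 : ∀ x : EN N, ℓ x ≠ 0 → AnalyticAt ℂ (fun y : EN N => (ℓ y)⁻¹ • y) x := by
    intro x hx
    exact ((ℓ.analyticAt x).inv hx).smul analyticAt_id
  have hanq : ∀ x ∈ U, AnalyticAt ℂ (fun y : EN N => τ ((ℓ y)⁻¹ • y)) x := by
    intro x hx
    exact AnalyticAt.fun_comp (hW₀s _ hx.2.1).1 (han1 x hx.1)
  have hUopen : IsOpen U := by
    rw [isOpen_iff_mem_nhds]
    intro x hx
    have h1 : ∀ᶠ y in 𝓝 x, ℓ y ≠ 0 := ℓ.continuous.continuousAt.eventually_ne hx.1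
    have h2 : ∀ᶠ y in 𝓝 x, (ℓ y)⁻¹ • y ∈ W₀ := (han1 x hx.1).continuousAt.eventually (hW₀o.mem_nhds hx.2.1)
    have h3 : ∀ᶠ y in 𝓝 x, ‖τ ((ℓ y)⁻¹ • y)‖ < R := (hanq x hx).continuousAt.norm.eventually_lt_const hx.2.2
    filter_upwards [h1, h2, h3] with y h4 h5 h6
    exact ⟨h4, h5, h6⟩
  let χ : Chart X :=
    { σ := fun p => (ℓ (σ ((r : ℂ) • p)))⁻¹ • σ ((r : ℂ) • p)
      U := U
      q := fun x => (r : ℂ)⁻¹ • τ ((ℓ x)⁻¹ • x)
      isOpen_U := hUopen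
      smul_U := by
        rintro x ⟨h1, h2, h3⟩ c hc
        refine ⟨?_, ?_, ?_⟩
        · rw [map_smul, smul_eq_mul]
          exact mul_ne_zero hc h1
        · rw [hmaps x h1 c hc]; exact h2
        · rw [hmaps x h1 c hc]; exact h3
      σ_an := by
        intro p hp
        have h1 := (hall _ (hball p hp)).1.1.1.1.1
        have h2 : AnalyticAt ℂ (fun p : ℂ × ℂ => σ ((r : ℂ) • p)) p :=
          AnalyticAt.fun_comp h1 (analyticAt_const.fun_smul analyticAt_id)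
        have h3 : AnalyticAt ℂ (fun p : ℂ × ℂ => ℓ (σ ((r : ℂ) • p))) p := (ℓ.analyticAt _).fun_comp h2
        exact (h3.inv (hall _ (hball p hp)).1.1.2).smul h2
      q_an := by
        intro x hx
        exact analyticAt_const.fun_smul (hanq x hx)
      q_smul := by
        rintro x ⟨h1, h2, h3⟩ c hc
        show (r : ℂ)⁻¹ • τ ((ℓ (c • x))⁻¹ • (c • x)) = _
        rw [hmaps x h1 c hc]
      σ_mem := by
        intro p hp
        have hb := hball p hp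
        have hh := hall _ hb
        have hne := hh.1.1.2
        have h1 : ℓ ((ℓ (σ ((r : ℂ) • p)))⁻¹ • σ ((r : ℂ) • p)) = 1 := by
          rw [map_smul, smul_eq_mul, inv_mul_cancel₀ hne]
        have h2 : τ ((ℓ (σ ((r : ℂ) • p)))⁻¹ • σ ((r : ℂ) • p)) = (r : ℂ) • p := hτσ _ hb
        refine ⟨hX.smul_mem _ hh.1.1.1.1.2 _ (inv_ne_zero hne), ⟨?_, ?_, ?_⟩, ?_⟩
        · rw [h1]; exact one_ne_zero
        · rw [h1, inv_one, one_smul]; exact hh.2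
        · rw [h1, inv_one, one_smul, h2]
          exact mem_ball_zero_iff.mp hb
        · show (r : ℂ)⁻¹ • τ ((ℓ ((ℓ (σ ((r : ℂ) • p)))⁻¹ • σ ((r : ℂ) • p)))⁻¹ • ((ℓ (σ ((r : ℂ) • p)))⁻¹ • σ ((r : ℂ) • p))) = p
          rw [h1, inv_one, one_smul, h2, smul_smul, inv_mul_cancel₀ hrC, one_smul]
      surj := by
        rintro x hxX ⟨h1, h2, h3⟩
        have hyX : (ℓ x)⁻¹ • x ∈ X := hX.smul_mem _ hxX _ (inv_ne_zero h1)
        obtain ⟨c, hc0, hc⟩ := (hW₀s _ h2).2 hyX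
        have hτb : τ ((ℓ x)⁻¹ • x) ∈ ball (0 : ℂ × ℂ) R := mem_ball_zero_iff.mpr h3
        have hrq : (r : ℂ) • ((r : ℂ)⁻¹ • τ ((ℓ x)⁻¹ • x)) = τ ((ℓ x)⁻¹ • x) := by
          rw [smul_smul, mul_inv_cancel₀ hrC, one_smul]
        refine ⟨?_, ?_⟩
        · show (r : ℂ)⁻¹ • τ ((ℓ x)⁻¹ • x) ∈ ball (0 : ℂ × ℂ) 2
          rw [mem_ball_zero_iff, norm_smul, norm_inv, Complex.norm_real, Real.norm_of_nonneg hr0.le, inv_mul_lt_iff₀ hr0, hr]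
          linarith
        · refine ⟨ℓ x * c * ℓ (σ (τ ((ℓ x)⁻¹ • x))), ?_, ?_⟩
          · exact mul_ne_zero (mul_ne_zero h1 hc0) (hall _ hτb).1.1.2
          · show x = (ℓ x * c * ℓ (σ (τ ((ℓ x)⁻¹ • x)))) •
              ((ℓ (σ ((r : ℂ) • ((r : ℂ)⁻¹ • τ ((ℓ x)⁻¹ • x)))))⁻¹ • σ ((r : ℂ) • ((r : ℂ)⁻¹ • τ ((ℓ x)⁻¹ • x))))
            rw [hrq, smul_smul, mul_assoc, mul_inv_cancel₀ (hall _ hτb).1.1.2, mul_one, mul_smul, ← hc, smul_smul, mul_inv_cancel₀ h1, one_smul] }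
  have h0b : (0 : ℂ × ℂ) ∈ ball (0 : ℂ × ℂ) R := mem_ball_self hR
  have hτ0 : τ (σ 0) = 0 := (hall 0 h0b).1.1.1.2
  refine ⟨χ, ⟨?_, ?_, ?_⟩, ?_⟩
  · rw [hℓ]; exact one_ne_zero
  · rw [hℓ, inv_one, one_smul]; exact hW₀m
  · rw [hℓ, inv_one, one_smul, hτ0, norm_zero]; exact hR
  · show (r : ℂ)⁻¹ • τ ((ℓ (σ 0))⁻¹ • σ 0) = 0
    rw [hℓ, inv_one, one_smul, hτ0, smul_zero]

end Pool.Agent.H62.EF

end

section

/-!
# EL Hf: the function `H` of a section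

`Sol H z` := for all `k` with `F z ∈ T.W k`: `HasDerivAt (fun w => H w + lam k (F w)) (bt (T.χ k) (A k) F z) z`.  Apply `glue`.
`hloc`: let `z ∈ ball b s`, `k` with `F z ∈ T.W k` (`TubeG.cover`), `r > 0` with `ball z r ⊆ ball b s` and `F w ∈ T.W k` for `w ∈ ball z r`.  The function
`w ↦ bt (T.χ k) (A k) F w` is analytic on `ball z r` (`T.W k ⊆ U`, `q` and `A k` are analytic, `F` is entire, `q (F w) ∈ ball 0 2` by `Chart.surj`), so it has a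
primitive `P` there (`DifferentiableOn.isExactOn_ball`); `H w = P w - lam k (F w)`.  For `w ∈ ball z r` and `l` with `F w ∈ T.W l`:
`H + lam l ∘ F = P - (lam k ∘ F - lam l ∘ F)` has the derivative `bt k - (bt k - bt l) = bt l` (`Split`, with `CurveAt X F w`, `u (F w) - w ∈ Λ`).
`hdiff`: choose `k` with `F z ∈ T.W k`: `H - H' = (H + lam k ∘ F) - (H' + lam k ∘ F)` has the derivative `bt k - bt k = 0`.  `hcongr`: clear.
-/

set_option autoImplicit false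

open Topology Filter Metric

namespace Pool.Agent.H62.EL

open Pool.Agent.H36.BP (EN wd IsGermChart)
open Pool.Agent.H14.PP (IsCone Chart Tan CurveAt)
open Pool.Agent.H62.EF (Lat MN pr TorusMap Sec Charts)

variable {N : ℕ} {X : Set (EN N)} {Λ : AddSubgroup ℂ} {u : EN N → ℂ}

theorem exists_H {b : ℂ} {s η : ℝ} {T : TubeData X} (hT : TubeG Λ u b s η T) {A : Fin T.m → ℂ × ℂ → ℂ}
    (hA : ∀ k, ∀ p ∈ ball (0 : ℂ × ℂ) 2, AnalyticAt ℂ (A k) p) {lam : Fin T.m → EN N → ℂ} (hs : Split Λ u b s T A lam)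
    {F : ℂ → EN N} (hF : F ∈ Sec X Λ u) {s' : ℝ} (hs' : s' < s) : ∃ H : ℂ → ℂ, ∀ z ∈ ball b s', ∀ k, F z ∈ T.W k →
      HasDerivAt (fun w => H w + lam k (F w)) (bt (T.χ k) (A k) F z) z := by
  obtain ⟨hFd, hFX, hFu⟩ := hF
  have hcv : ∀ z, CurveAt X F z := fun z => ⟨hFd.analyticAt z, Eventually.of_forall hFX⟩
  have hbt : ∀ k z, F z ∈ T.W k → AnalyticAt ℂ (fun w => bt (T.χ k) (A k) F w) z := by
    intro k z hz
    have hU : F z ∈ (T.χ k).U := hT.W_sub k hz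
    have hq : AnalyticAt ℂ (fun ξ => (T.χ k).q (F ξ)) z :=
      AnalyticAt.comp (g := (T.χ k).q) (f := F) ((T.χ k).q_an _ hU) (hFd.analyticAt z)
    have hA' : AnalyticAt ℂ (fun ξ => A k ((T.χ k).q (F ξ))) z :=
      AnalyticAt.comp (g := A k) (f := fun ξ => (T.χ k).q (F ξ)) (hA k _ ((T.χ k).surj _ (hFX z) hU).1) hq
    have hd : AnalyticAt ℂ (fun ζ => (deriv (fun ξ => (T.χ k).q (F ξ)) ζ).1) z :=
      AnalyticAt.comp (g := Prod.fst) (f := deriv (fun ξ => (T.χ k).q (F ξ))) analyticAt_fst hq.deriv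
    unfold bt
    exact (hA'.mul hd).neg
  apply glue hs' (fun H z => ∀ k, F z ∈ T.W k →
    HasDerivAt (fun w => H w + lam k (F w)) (bt (T.χ k) (A k) F z) z)
  · intro z hz
    obtain ⟨k, hk⟩ := hT.cover z hz (F z) (hFX z) (hFu z)
    have ho : IsOpen (ball b s ∩ F ⁻¹' T.W k) :=
      isOpen_ball.inter ((hT.W_open k).preimage hFd.continuous)
    obtain ⟨r, hr, hsub⟩ := Metric.isOpen_iff.1 ho z ⟨hz, hk⟩
    have hex : DifferentiableOn ℂ (fun w => bt (T.χ k) (A k) F w) (ball z r) := fun w hw =>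
      (hbt k w (hsub hw).2).differentiableAt.differentiableWithinAt
    obtain ⟨P, hP⟩ := hex.isExactOn_ball
    refine ⟨r, fun w => P w - lam k (F w), hr, ?_⟩
    intro w hw l hl
    have h1 := hP w hw
    have h2 := hs.2 k l F w (hcv w) ⟨w, (hsub hw).1, hFu w⟩ (hsub hw).2 hl
    have h3 := h1.sub h2
    have e1 : bt (T.χ k) (A k) F w - (bt (T.χ k) (A k) F w - bt (T.χ l) (A l) F w) = bt (T.χ l) (A l) F w := by
      ring
    rw [e1] at h3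
    refine h3.congr_of_eventuallyEq (Eventually.of_forall fun ξ => ?_)
    simp only [Pi.sub_apply]
    ring
  · intro H H' z hz h h'
    obtain ⟨k, hk⟩ := hT.cover z hz (F z) (hFX z) (hFu z)
    have h1 := (h k hk).sub (h' k hk)
    rw [sub_self] at h1
    refine h1.congr_of_eventuallyEq (Eventually.of_forall fun ξ => ?_)
    simp only [Pi.sub_apply]
    ring
  · intro H H' z c h hc k hk
    have h1 := (h k hk).add_const c
    refine h1.congr_of_eventuallyEq ?_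
    filter_upwards [hc] with ξ hξ
    rw [hξ]
    ring

end Pool.Agent.H62.EL

end

section

/-!
# EL Kq: the primitive of `β` along the fibres, in a straight chart

`χ` is a chart of the tube (with `u = b + ρ s^i t^j`, primitive `A`), `χ₀` a straight chart (`u = c₀ + ρ₀ s`, primitive `A₀`) inside `χ`; `b₁ = bc χ A χ₀ (1, 0)`, `b₂ = bc χ A χ₀ (0, 1)`; `Q` is the primitive of `b₂`
in the direction of the second variable with `Q (s, 0) = 0`.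

`q_fderiv`: fix `p`; for all `t` with `|t| < 2` and `q = (p.1, t)`: `mo c₀ ρ₀ 1 0 q = mo c₀ ρ₀ 1 0 p` is within `η` of `b`, and `mo b ρ i j (τ q)` too (`τ = χ.q ∘ χ₀.σ`), both are `u (χ₀.σ q)` modulo `Λ`, so they are equal
(`hinj`); so `bc_closed`: `∂₁ b₂ - ∂₂ b₁ = tc α χ₀ (mo c₀ ρ₀ 1 0) = ∂₂ A₀` at `q`.  Hence the functions `t ↦ ∂₁ Q (p.1, t)` and `t ↦ A₀ (p.1, t) + b₁ (p.1, t) - b₁ (p.1, 0)` have the same derivative on the disc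
(`∂₂ ∂₁ Q = ∂₁ ∂₂ Q = ∂₁ b₂`) and the same value `0` at `t = 0` (`Q (·, 0) = 0`, `A₀ (·, 0) = 0`).

`q_curve`: near `z`, `c₀ + ρ₀ (χ₀.q (F w)).1 = w`: the difference is in `Λ` (`Mon.lift`, `F w = a • χ₀.σ (χ₀.q (F w))`), continuous and `0` at `w = z`.  So `(χ₀.q ∘ F)' = (1 / ρ₀, f₂')`, and
`(Q ∘ χ₀.q ∘ F)' = ∂₁ Q / ρ₀ + b₂ f₂' = (A₀ + b₁ - b₁ (·, 0)) / ρ₀ + b₂ f₂' = bt χ A F z + (A₀ - b₁ (·, 0)) / ρ₀` (`bt_eq`).

`q_fibre`: `(Q ∘ χ₀.q ∘ γ)' = b₂ (χ₀.q ∘ γ)'.2 = bt χ A γ ζ` (`bt_eq`; the first coordinate of the derivative is `0`).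
-/

set_option autoImplicit false

open Topology Filter Metric

namespace Pool.Agent.H62.EL

open Pool.Agent.H36.BP (EN wd IsGermChart)
open Pool.Agent.H14.PP (IsCone Chart Tan CurveAt)
open Pool.Agent.H62.EF (Lat MN pr TorusMap Sec Charts)

variable {N : ℕ} {X : Set (EN N)} {Λ : AddSubgroup ℂ} {u : EN N → ℂ}

variable {α : TForm X Λ u} {χ χ₀ : Chart X} {b c₀ : ℂ} {ρ ρ₀ η : ℝ} {i j : ℕ} {A A₀ Q : ℂ × ℂ → ℂ}

theorem q_fibre (hsub : ∀ p ∈ ball (0 : ℂ × ℂ) 2, χ₀.σ p ∈ χ.U)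
    (hQ : ∀ p ∈ ball (0 : ℂ × ℂ) 2, AnalyticAt ℂ Q p ∧ fderiv ℂ Q p (0, 1) = bc χ A χ₀ (0, 1) p) {γ : ℂ → EN N} {ζ : ℂ}
    (hγ : CurveAt X γ ζ) (hU : γ ζ ∈ χ₀.U) (h1 : (deriv (fun ξ => χ₀.q (γ ξ)) ζ).1 = 0) :
    HasDerivAt (fun ξ => Q (χ₀.q (γ ξ))) (bt χ A γ ζ) ζ := by
  obtain ⟨hfb, c, hc, hx⟩ := χ₀.surj _ hγ.2.self_of_nhds hU
  have hUχ : γ ζ ∈ χ.U := by
    rw [hx]
    exact χ.smul_U _ (hsub _ hfb) c hc
  have hfan : AnalyticAt ℂ (fun w => χ₀.q (γ w)) ζ := (χ₀.q_an _ hU).comp hγ.1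
  have hd := hfan.differentiableAt.hasDerivAt
  have h2 := (hQ _ hfb).2
  have h3 : HasDerivAt (fun w => Q (χ₀.q (γ w))) (fderiv ℂ Q (χ₀.q (γ ζ)) (deriv (fun w => χ₀.q (γ w)) ζ)) ζ :=
    HasFDerivAt.comp_hasDerivAt (f := fun w => χ₀.q (γ w)) ζ (hQ _ hfb).1.differentiableAt.hasFDerivAt hd
  rw [Kq_pair, h2, h1] at h3
  rw [bt_eq χ χ₀ A hγ hU hUχ, h1]
  convert h3 using 1
  ring

end Pool.Agent.H62.EL

end

section

/-!
# EL Kz: the integral `II` has a primitive on the annulus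

Let `𝒜 = {z : r₁ < ‖z - b‖ < r₂}`; `H_F`, `H_G` from `exists_H` (with `s' = r₂ < s`) for `F` and `G`.  For every `z₀ ∈ 𝒜` choose by `hcap` a chart `χ₀` (with `c₀, ρ₀`), an index `k`, and by `exists_prim` a primitive
`A₀` of the form in `χ₀`, and by `exists_prim_snd` a primitive `Q` of `bc (T.χ k) (A k) χ₀ (0, 1)` in the second variable (`χ₀.σ p ∈ T.W k ⊆ (T.χ k).U`, `bc_an`).  Let
`Φ x = Q (χ₀.q x) - lam k x` and `K_{z₀} z = Φ (G z) - Φ (F z) - H_G z + H_F z`.  Define `K z := K_z z`.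
(1) For `z` near `z₀` (`z ∈ 𝒜`, `‖z - z₀‖ ≤ 3ε`, `dist (pr (F z)) (pr (F z₀)) ≤ ε`): `K z = K_{z₀} z`.  Let `Φ₀` (chart `χ₀`, index `k₀`) belong to `z₀` and `Φ₁` (`χ₁`, `k₁`) to `z`.  Let `χ', c', ρ', p, p'` be from `IRel α ε z (pr (F z))
(pr (G z)) v`; for `θ ∈ [0, 1]` let `γ θ = χ'.σ (p + θ (p' - p))` (a complex curve for complex `θ` near `[0, 1]`).  Its points are over `z` and within `ε` of `pr (F z)`, so within `2ε` of `pr (F z₀)`: by `Cap` of radius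
`3ε` they are in `χ₀.U` and `χ₁.U`, with `c₀ + ρ₀ (χ₀.q (γ θ)).1 = z`, and similarly for `χ₁`.  The first coordinates of `χ₀.q ∘ γ` and `χ₁.q ∘ γ` have derivative `0` at `θ` [for complex `θ'` near `θ`, `u (γ θ') - z ∈ Λ`
because `mo c' ρ' 1 0` is constant along the line, so `c₀ + ρ₀ (χ₀.q (γ θ')).1 - z ∈ Λ`, continuous and `0` at `θ`].  `γ θ ∈ T.W k₀ ∩ T.W k₁` (multiples of `χ₀.σ _`, `χ₁.σ _`).  By `q_fibre` and `Split` the derivative of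
`θ ↦ Φ₀ (γ θ) - Φ₁ (γ θ) = Q₀ - Q₁ - (lam k₀ - lam k₁)` is `bt k₀ - bt k₁ - (bt k₀ - bt k₁) = 0`.  So `Φ₀ (γ 1) - Φ₀ (γ 0) = Φ₁ (γ 1) - Φ₁ (γ 0)`; `γ 0`, `γ 1` are multiples of `F z`, `G z` (`pr_eq_iff`) and `Φ` is invariant
under scaling (`Split`, `q_smul`).
(2) `K_{z₀}` has at `z₀` the derivative `II α ε z₀ (pr (F z₀)) (pr (G z₀))`: `K_{z₀} = (Q (χ₀.q (G z)) - Q (χ₀.q (F z))) - (H_G z + lam k (G z)) + (H_F z + lam k (F z))`; by `q_curve` and `exists_H` the derivative is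
`bt(G) + (A₀ (q G) - b₁) / ρ₀ - bt(F) - (A₀ (q F) - b₁) / ρ₀ - bt(G) + bt(F) = (A₀ (χ₀.q (G z₀)) - A₀ (χ₀.q (F z₀))) / ρ₀`, which is `II` by `II_eq`.  (`G z₀ ∈ χ₀.U`: `dist (pr (G z₀)) (pr (F z₀)) ≤ ε` by `IRel` with `θ = 1`.)
-/

set_option autoImplicit false

open Topology Filter Metric

namespace Pool.Agent.H62.EL

open Pool.Agent.H36.BP (EN wd IsGermChart)
open Pool.Agent.H14.PP (IsCone Chart Tan CurveAt)
open Pool.Agent.H62.EF (Lat MN pr TorusMap Sec Charts)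

variable {N : ℕ} {X : Set (EN N)} {Λ : AddSubgroup ℂ} {u : EN N → ℂ}

/-- the complex line through `p` and `p'` -/
private noncomputable def kz_line (p p' : ℂ × ℂ) (θ : ℂ) : ℂ × ℂ := p + θ • (p' - p)

private theorem kz_line_an (p p' : ℂ × ℂ) (θ : ℂ) : AnalyticAt ℂ (kz_line p p') θ := by
  unfold kz_line
  exact analyticAt_const.add (analyticAt_id.smul analyticAt_const)

private theorem kz_line_mem {p p' : ℂ × ℂ} (hp : p ∈ ball (0 : ℂ × ℂ) 2) (hp' : p' ∈ ball (0 : ℂ × ℂ) 2) {θ : ℝ}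
    (hθ : θ ∈ Set.Icc (0 : ℝ) 1) : kz_line p p' (θ : ℂ) ∈ ball (0 : ℂ × ℂ) 2 := by
  have h1 := (convex_ball (0 : ℂ × ℂ) 2).add_smul_sub_mem hp hp' hθ
  unfold kz_line
  rwa [Complex.coe_smul]

private theorem kz_line_fst {p p' : ℂ × ℂ} (h : p.1 = p'.1) (θ : ℂ) : (kz_line p p' θ).1 = p.1 := by
  unfold kz_line
  simp [h]

private theorem kz_mo (c : ℂ) (ρ : ℝ) (p : ℂ × ℂ) : mo c ρ 1 0 p = c + ρ * p.1 := by
  unfold mo
  simp

/-- the situation at a point of the path -/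
private theorem kz_point (hu : TorusMap X Λ u) (hΛ : Lat Λ) {b : ℂ} {s η : ℝ} {T : TubeData X} (hT : TubeG Λ u b s η T)
    {A : Fin T.m → ℂ × ℂ → ℂ} {χ : Chart X} {c : ℂ} {ρ : ℝ} {k : Fin T.m} {z₀ : ℂ} {y₀ : MN N} {r : ℝ}
    (hc : Cap Λ u χ c ρ z₀ y₀ r) (hW : ∀ p ∈ ball (0 : ℂ × ℂ) 2, χ.σ p ∈ T.W k) {Q : ℂ × ℂ → ℂ}
    (hQ : ∀ p ∈ ball (0 : ℂ × ℂ) 2, AnalyticAt ℂ Q p ∧ fderiv ℂ Q p (0, 1) = bc (T.χ k) (A k) χ (0, 1) p)
    {χ' : Chart X} {c' : ℂ} {ρ' : ℝ} (hm' : Mon Λ u χ' c' ρ' 1 0) {p p' : ℂ × ℂ} (hp : p ∈ ball (0 : ℂ × ℂ) 2)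
    (hp' : p' ∈ ball (0 : ℂ × ℂ) 2) {z : ℂ} (hz : z ∈ closedBall z₀ r) (hpz : c' + ρ' * p.1 = z) (hpp : p.1 = p'.1)
    {θ : ℝ} (hθ : θ ∈ Set.Icc (0 : ℝ) 1) (hd : dist (pr (χ'.σ (kz_line p p' θ))) y₀ ≤ r) :
    CurveAt X (fun ξ => χ'.σ (kz_line p p' ξ)) (θ : ℂ) ∧ u (χ'.σ (kz_line p p' θ)) - z ∈ Λ ∧
      χ'.σ (kz_line p p' θ) ∈ χ.U ∧ χ'.σ (kz_line p p' θ) ∈ T.W k ∧
      HasDerivAt (fun ξ => Q (χ.q (χ'.σ (kz_line p p' ξ)))) (bt (T.χ k) (A k) (fun ξ => χ'.σ (kz_line p p' ξ)) (θ : ℂ)) (θ : ℂ) := by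
  have hmem := kz_line_mem hp hp' hθ
  have hlc : ContinuousAt (kz_line p p') (θ : ℂ) := (kz_line_an p p' θ).continuousAt
  have hevb : ∀ᶠ ξ in 𝓝 (θ : ℂ), kz_line p p' ξ ∈ ball (0 : ℂ × ℂ) 2 := hlc.eventually (isOpen_ball.mem_nhds hmem)
  have hγan : AnalyticAt ℂ (fun ξ => χ'.σ (kz_line p p' ξ)) (θ : ℂ) := AnalyticAt.fun_comp (χ'.σ_an _ hmem) (kz_line_an p p' θ)
  have hcurve : CurveAt X (fun ξ => χ'.σ (kz_line p p' ξ)) (θ : ℂ) := by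
    refine ⟨hγan, ?_⟩
    filter_upwards [hevb] with ξ hξ
    exact (χ'.σ_mem _ hξ).1
  have hlift : ∀ ξ : ℂ, kz_line p p' ξ ∈ ball (0 : ℂ × ℂ) 2 → u (χ'.σ (kz_line p p' ξ)) - z ∈ Λ := by
    intro ξ hξ
    have h1 := hm'.lift _ hξ
    rwa [kz_mo, kz_line_fst hpp, hpz] at h1
  have hX1 : χ'.σ (kz_line p p' θ) ∈ X := (χ'.σ_mem _ hmem).1
  obtain ⟨hU, hq1, hqz⟩ := hc.cap z hz _ hX1 (hlift _ hmem) hd
  obtain ⟨hq2, a, ha, hqa⟩ := χ.surj _ hX1 hU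
  have hρ : (ρ : ℂ) ≠ 0 := by exact_mod_cast hc.mon.pos.ne'
  refine ⟨hcurve, hlift _ hmem, hU, ?_, ?_⟩
  · rw [hqa]
    exact hT.W_smul k _ (hW _ hq2) a ha
  · have hevU : ∀ᶠ ξ in 𝓝 (θ : ℂ), χ'.σ (kz_line p p' ξ) ∈ χ.U := hγan.continuousAt.eventually (χ.isOpen_U.mem_nhds hU)
    have hqan : AnalyticAt ℂ (fun ξ => χ.q (χ'.σ (kz_line p p' ξ))) (θ : ℂ) := AnalyticAt.fun_comp (χ.q_an _ hU) hγan
    have hzero : ∀ᶠ ξ in 𝓝 (θ : ℂ), c + ρ * (χ.q (χ'.σ (kz_line p p' ξ))).1 - z = 0 := by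
      obtain ⟨δ, hδ, hdisc⟩ := hΛ.discrete
      have hcont : ContinuousAt (fun ξ => c + ρ * (χ.q (χ'.σ (kz_line p p' ξ))).1 - z) (θ : ℂ) :=
        ((continuousAt_const.mul (continuousAt_fst.comp (f := fun ξ => χ.q (χ'.σ (kz_line p p' ξ))) hqan.continuousAt)).const_add _).sub
          continuousAt_const
      have h0 : (fun ξ => c + ρ * (χ.q (χ'.σ (kz_line p p' ξ))).1 - z) (θ : ℂ) = 0 := by
        show c + ρ * (χ.q (χ'.σ (kz_line p p' (θ : ℂ)))).1 - z = 0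
        rw [hqz, sub_self]
      have hsmall : ∀ᶠ ξ in 𝓝 (θ : ℂ), ‖c + ρ * (χ.q (χ'.σ (kz_line p p' ξ))).1 - z‖ < δ := by
        have h1 := hcont.norm
        have h2 : ‖(fun ξ => c + ρ * (χ.q (χ'.σ (kz_line p p' ξ))).1 - z) (θ : ℂ)‖ < δ := by rw [h0, norm_zero]; exact hδ
        exact h1.eventually_lt_const h2
      filter_upwards [hsmall, hevb, hevU] with ξ h1 h2 h3
      refine hdisc _ ?_ h1
      obtain ⟨h4, a', ha', h5⟩ := χ.surj _ (χ'.σ_mem _ h2).1 h3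
      have h6 := hc.mon.lift _ h4
      have h7 := hu.smul _ (χ.σ_mem _ h4).1 a' ha'
      rw [← h5] at h7
      rw [kz_mo] at h6
      have h8 := Λ.sub_mem (hlift ξ h2) (Λ.add_mem h7 h6)
      convert h8 using 1
      ring
    refine q_fibre (fun y hy => hT.W_sub k (hW y hy)) hQ hcurve hU ?_
    have hd1 : HasDerivAt (fun ξ => χ.q (χ'.σ (kz_line p p' ξ))) (deriv (fun ξ => χ.q (χ'.σ (kz_line p p' ξ))) (θ : ℂ)) (θ : ℂ) :=
      hqan.differentiableAt.hasDerivAt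
    have hd2 : HasDerivAt (fun ξ => (χ.q (χ'.σ (kz_line p p' ξ))).1) (deriv (fun ξ => χ.q (χ'.σ (kz_line p p' ξ))) (θ : ℂ)).1 (θ : ℂ) :=
      (hasFDerivAt_fst (𝕜 := ℂ) (E := ℂ) (F := ℂ)).comp_hasDerivAt (θ : ℂ) hd1
    have hd3 : HasDerivAt (fun ξ => (χ.q (χ'.σ (kz_line p p' ξ))).1) 0 (θ : ℂ) := by
      refine (hasDerivAt_const (θ : ℂ) ((z - c) / ρ)).congr_of_eventuallyEq ?_
      filter_upwards [hzero] with ξ hξ
      rw [eq_div_iff hρ]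
      linear_combination hξ
    exact hd2.unique hd3

/-- two local primitives have the same increment along the path -/
theorem kz_cons (hX : IsCone X) (hu : TorusMap X Λ u) (hΛ : Lat Λ) {b : ℂ} {s η : ℝ} {T : TubeData X} (hT : TubeG Λ u b s η T)
    {α : TForm X Λ u} {A : Fin T.m → ℂ × ℂ → ℂ} {lam : Fin T.m → EN N → ℂ} (hs : Split Λ u b s T A lam) {x x' : EN N}
    (hx : x ∈ X) (hx' : x' ∈ X) {ε r : ℝ} {z v : ℂ} (hzb : z ∈ ball b s) (hrel : IRel α ε z (pr x) (pr x') v)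
    {χ₀ : Chart X} {c₀ : ℂ} {ρ₀ : ℝ} {k₀ : Fin T.m} {z₀ : ℂ} {y₀ : MN N} (hc₀ : Cap Λ u χ₀ c₀ ρ₀ z₀ y₀ r)
    (hW₀ : ∀ p ∈ ball (0 : ℂ × ℂ) 2, χ₀.σ p ∈ T.W k₀) {Q₀ : ℂ × ℂ → ℂ}
    (hQ₀ : ∀ p ∈ ball (0 : ℂ × ℂ) 2, AnalyticAt ℂ Q₀ p ∧ fderiv ℂ Q₀ p (0, 1) = bc (T.χ k₀) (A k₀) χ₀ (0, 1) p)
    (hz₀ : z ∈ closedBall z₀ r) (hy₀ : dist (pr x) y₀ + ε ≤ r)
    {χ₁ : Chart X} {c₁ : ℂ} {ρ₁ : ℝ} {k₁ : Fin T.m} {z₁ : ℂ} {y₁ : MN N} (hc₁ : Cap Λ u χ₁ c₁ ρ₁ z₁ y₁ r)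
    (hW₁ : ∀ p ∈ ball (0 : ℂ × ℂ) 2, χ₁.σ p ∈ T.W k₁) {Q₁ : ℂ × ℂ → ℂ}
    (hQ₁ : ∀ p ∈ ball (0 : ℂ × ℂ) 2, AnalyticAt ℂ Q₁ p ∧ fderiv ℂ Q₁ p (0, 1) = bc (T.χ k₁) (A k₁) χ₁ (0, 1) p)
    (hz₁ : z ∈ closedBall z₁ r) (hy₁ : dist (pr x) y₁ + ε ≤ r) :
    (Q₀ (χ₀.q x') - lam k₀ x') - (Q₀ (χ₀.q x) - lam k₀ x) = (Q₁ (χ₁.q x') - lam k₁ x') - (Q₁ (χ₁.q x) - lam k₁ x) := by
  obtain ⟨χ', c', ρ', A', p, p', hm', -, hp, hp', hpz, hpz', hpx, hpx', hdist, -⟩ := hrel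
  have hρ' : (ρ' : ℂ) ≠ 0 := by exact_mod_cast hm'.pos.ne'
  have hpp : p.1 = p'.1 := by
    have h1 : (ρ' : ℂ) * p.1 = ρ' * p'.1 := by linear_combination hpz - hpz'
    exact mul_left_cancel₀ hρ' h1
  have hdl : ∀ θ ∈ Set.Icc (0 : ℝ) 1, dist (pr (χ'.σ (kz_line p p' (θ : ℂ)))) (pr x) ≤ ε := hdist
  have hP₀ := fun (θ : ℝ) (hθ : θ ∈ Set.Icc (0 : ℝ) 1) => kz_point hu hΛ hT (A := A) hc₀ hW₀ hQ₀ hm' hp hp' hz₀ hpz hpp hθ
    ((dist_triangle _ (pr x) _).trans (by linarith [hdl θ hθ]))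
  have hP₁ := fun (θ : ℝ) (hθ : θ ∈ Set.Icc (0 : ℝ) 1) => kz_point hu hΛ hT (A := A) hc₁ hW₁ hQ₁ hm' hp hp' hz₁ hpz hpp hθ
    ((dist_triangle _ (pr x) _).trans (by linarith [hdl θ hθ]))
  set h : ℂ → ℂ := fun ξ => Q₀ (χ₀.q (χ'.σ (kz_line p p' ξ))) - Q₁ (χ₁.q (χ'.σ (kz_line p p' ξ))) -
    (lam k₀ (χ'.σ (kz_line p p' ξ)) - lam k₁ (χ'.σ (kz_line p p' ξ))) with hh
  have hder : ∀ θ ∈ Set.Icc (0 : ℝ) 1, HasDerivAt h 0 (θ : ℂ) := by
    intro θ hθ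
    obtain ⟨h1, h2, h3, h4, h5⟩ := hP₀ θ hθ
    obtain ⟨-, -, h6, h7, h8⟩ := hP₁ θ hθ
    have h9 := hs.2 k₀ k₁ _ _ h1 ⟨z, hzb, h2⟩ h4 h7
    have h10 := (h5.sub h8).sub h9
    rw [sub_self] at h10
    exact h10
  have hconst : h ((1 : ℝ) : ℂ) = h ((0 : ℝ) : ℂ) := by
    refine constant_of_has_deriv_right_zero (f := fun t : ℝ => h (t : ℂ)) (a := 0) (b := 1) ?_ ?_ 1 (by simp)
    · intro t ht
      exact ((hder t ht).comp_ofReal).continuousAt.continuousWithinAt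
    · intro t ht
      exact ((hder t ⟨ht.1, ht.2.le⟩).comp_ofReal).hasDerivWithinAt
  have hx0 : x ≠ 0 := fun h0 => hX.zero_notMem (h0 ▸ hx)
  have hx0' : x' ≠ 0 := fun h0 => hX.zero_notMem (h0 ▸ hx')
  have hl0 : kz_line p p' ((0 : ℝ) : ℂ) = p := by unfold kz_line; simp
  have hl1 : kz_line p p' ((1 : ℝ) : ℂ) = p' := by unfold kz_line; simp
  have hσ0 : χ'.σ p ≠ 0 := fun h0 => hX.zero_notMem (h0 ▸ (χ'.σ_mem p hp).1)
  have hσ1 : χ'.σ p' ≠ 0 := fun h0 => hX.zero_notMem (h0 ▸ (χ'.σ_mem p' hp').1)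
  obtain ⟨a, ha, hax⟩ := (Pool.Agent.H62.EF.pr_eq_iff hσ0 hx0).1 hpx
  obtain ⟨a', ha', hax'⟩ := (Pool.Agent.H62.EF.pr_eq_iff hσ1 hx0').1 hpx'
  have hU₀ := (hP₀ 0 (by simp)).2.2.1
  have hU₀' := (hP₀ 1 (by simp)).2.2.1
  have hU₁ := (hP₁ 0 (by simp)).2.2.1
  have hU₁' := (hP₁ 1 (by simp)).2.2.1
  rw [hl0, hax] at hU₀ hU₁
  rw [hl1, hax'] at hU₀' hU₁'
  have hback : ∀ (χ : Chart X) (y : EN N) (d : ℂ), d ≠ 0 → d • y ∈ χ.U → y ∈ χ.U := by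
    intro χ y d hd hy
    have h1 := χ.smul_U _ hy d⁻¹ (inv_ne_zero hd)
    rwa [smul_smul, inv_mul_cancel₀ hd, one_smul] at h1
  simp only [hh, hl0, hl1, hax, hax'] at hconst
  rw [χ₀.q_smul _ (hback χ₀ x a ha hU₀) a ha, χ₀.q_smul _ (hback χ₀ x' a' ha' hU₀') a' ha', χ₁.q_smul _ (hback χ₁ x a ha hU₁) a ha,
    χ₁.q_smul _ (hback χ₁ x' a' ha' hU₁') a' ha', hs.1 k₀ _ hx a ha, hs.1 k₀ _ hx' a' ha', hs.1 k₁ _ hx a ha, hs.1 k₁ _ hx' a' ha'] at hconst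
  linear_combination hconst

end Pool.Agent.H62.EL

end
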