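import Pool.Agent.H94.G5T.M05
import Pool.Agent.H94.G5T.M12
import Pool.Agent.H94.G5T.M13
import Pool.Agent.H94.G5T.M24
import Pool.Agent.H94.G5T.M30
import Pool.Agent.H94.G5T.M33
import Pool.Agent.H94.G5T.M40
import Pool.Agent.H94.G5T.M68

/-! The parts of this file: G3.P.Ult, H17EF.Bridge, H62.Et.Defs, G3.R.RDefs, G4.A.CmZ, G3.P.LimM. -/

section

/-!
# G3 P Ult: ultralimits of curves in projective space

`ult`: a sequence of holomorphic curves (eventually defined on compact subsets of the open set `U`) which is equicontinuous at each point of `U` has, along an ultrafilter, a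
limit `f : ℂ → MN N`; the convergence is uniform on compact subsets of `U` and `f` has local holomorphic lifts in `U`.
Plan: the projection matrices `pr x`, `x ≠ 0`, lie in the compact set `{m : ‖m‖ ≤ 1}` (`MN N` is finite dimensional), so `f z` := the limit along `𝒰` exists; equicontinuity gives
local uniform convergence (finite covers).  Local lifts at `z₀`: `f z₀ = pr v` for a unit vector `v` (take `x_n = F n z₀ / ‖F n z₀‖`, ultralimit `v` on the compact sphere);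
near `z₀` and for `𝒰`-many `n` the functions `⟨v, F n z⟩⁻¹ F n z = nv v (pr (F n z))` (`nv`, `nv_pr`, `nv_continuousAt` in `G3/C/EDefs`) are holomorphic, and they converge uniformly near
`z₀` to `nv v (f z)`, so the limit is holomorphic (`TendstoLocallyUniformlyOn.differentiableOn`) and `pr (nv v (f z)) = f z`.
-/

set_option autoImplicit false

open Topology Filter Metric

namespace Pool.Agent.G3

open Pool.Agent.H36.BP (EN wd)
open Pool.Agent.H14.PP (IsCone CurveAt Tan)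
open Pool.Agent.H62.EF (MN pr)
open Pool.Agent.AD (Vd)

variable {N k : ℕ} {X : Set (EN N)} {Λ : AddSubgroup (Vd (k + 1))} {u : EN N → Vd (k + 1)} {D : Set (Vd (k + 1))} {p : EN N → EN N → ℝ} {m : ℕ} {C : ℝ}

/-- the set of the projection matrices of lines is compact -/
private theorem ult_compact : IsCompact ((pr : EN N → MN N) '' sphere (0 : EN N) 1) := by
  refine (isCompact_sphere (0 : EN N) 1).image_of_continuousOn fun x hx => ?_
  have hx0 : x ≠ 0 := by
    rintro rfl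
    simp at hx
  exact (Pool.Agent.H62.EF.continuousAt_pr hx0).continuousWithinAt

private theorem ult_mem {x : EN N} (hx : x ≠ 0) : pr x ∈ (pr : EN N → MN N) '' sphere (0 : EN N) 1 := by
  have hn : ‖x‖ ≠ 0 := norm_ne_zero_iff.mpr hx
  have hc : (((‖x‖⁻¹ : ℝ)) : ℂ) ≠ 0 := by
    exact_mod_cast inv_ne_zero hn
  refine ⟨(((‖x‖⁻¹ : ℝ)) : ℂ) • x, ?_, Pool.Agent.H62.EF.pr_smul x hc⟩
  rw [mem_sphere_zero_iff_norm, norm_smul, Complex.norm_real, norm_inv, norm_norm]
  exact inv_mul_cancel₀ hn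

/-- the limit at one point -/
private theorem ult_point (𝒰 : Ultrafilter ℕ) (x : ℕ → EN N) (hx : ∀ᶠ n in (𝒰 : Filter ℕ), x n ≠ 0) :
    ∃ y : EN N, y ≠ 0 ∧ Tendsto (fun n => pr (x n)) (𝒰 : Filter ℕ) (𝓝 (pr y)) := by
  have h1 : ((𝒰.map fun n => pr (x n) : Ultrafilter (MN N)) : Filter (MN N)) ≤
      𝓟 ((pr : EN N → MN N) '' sphere (0 : EN N) 1) := by
    rw [Ultrafilter.coe_map, le_principal_iff, mem_map]
    filter_upwards [hx] with n hn
    exact ult_mem hn
  obtain ⟨m, ⟨y, hy, rfl⟩, hm⟩ := ult_compact.ultrafilter_le_nhds _ h1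
  refine ⟨y, ?_, hm⟩
  rintro rfl
  simp at hy

theorem ult (𝒰 : Ultrafilter ℕ) {U : Set ℂ} (hU : IsOpen U) (F : ℕ → ℂ → EN N)
    (hF : ∀ z ∈ U, ∃ s : ℝ, 0 < s ∧ ∀ᶠ n in (𝒰 : Filter ℕ), DifferentiableOn ℂ (F n) (ball z s) ∧ ∀ w ∈ ball z s, F n w ≠ 0)
    (hq : ∀ z ∈ U, ∀ ε : ℝ, 0 < ε → ∃ s : ℝ, 0 < s ∧ ∀ᶠ n in (𝒰 : Filter ℕ), ∀ w ∈ ball z s, dist (pr (F n w)) (pr (F n z)) ≤ ε) :
    ∃ f : ℂ → MN N, (∀ z ∈ U, LLift f z) ∧
      ∀ K ⊆ U, IsCompact K → ∀ ε : ℝ, 0 < ε → ∀ᶠ n in (𝒰 : Filter ℕ), ∀ z ∈ K, dist (pr (F n z)) (f z) < ε := by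
  classical
  have hne : ∀ z ∈ U, ∀ᶠ n in (𝒰 : Filter ℕ), F n z ≠ 0 := by
    intro z hz
    obtain ⟨s, hs, h⟩ := hF z hz
    filter_upwards [h] with n hn
    exact hn.2 z (mem_ball_self hs)
  have hpt : ∀ z, ∃ y : EN N, z ∈ U → y ≠ 0 ∧
      Tendsto (fun n => pr (F n z)) (𝒰 : Filter ℕ) (𝓝 (pr y)) := by
    intro z
    by_cases hz : z ∈ U
    · obtain ⟨y, h1, h2⟩ := ult_point 𝒰 (fun n => F n z) (hne z hz)
      exact ⟨y, fun _ => ⟨h1, h2⟩⟩
    · exact ⟨0, fun h => absurd h hz⟩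
  choose g hg using hpt
  -- local uniform convergence
  have hloc : ∀ z₀ ∈ U, ∀ ε : ℝ, 0 < ε → ∃ s : ℝ, 0 < s ∧ ball z₀ s ⊆ U ∧
      (∀ w ∈ ball z₀ s, dist (pr (g w)) (pr (g z₀)) ≤ ε) ∧
      ∀ᶠ n in (𝒰 : Filter ℕ), ∀ w ∈ ball z₀ s, dist (pr (g w)) (pr (F n w)) < 4 * ε := by
    intro z₀ hz₀ ε hε
    obtain ⟨s₁, hs₁, h1⟩ := hq z₀ hz₀ ε hε
    obtain ⟨s₂, hs₂, h2⟩ := Metric.isOpen_iff.1 hU z₀ hz₀
    have hU' : ball z₀ (min s₁ s₂) ⊆ U := (ball_subset_ball (min_le_right _ _)).trans h2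
    have hd : ∀ w ∈ ball z₀ (min s₁ s₂), dist (pr (g w)) (pr (g z₀)) ≤ ε := by
      intro w hw
      have h3 := (hg w (hU' hw)).2
      have h4 := (hg z₀ hz₀).2
      refine le_of_tendsto (h3.dist h4) ?_
      filter_upwards [h1] with n hn
      exact hn w (ball_subset_ball (min_le_left _ _) hw)
    refine ⟨min s₁ s₂, lt_min hs₁ hs₂, hU', hd, ?_⟩
    have h4 := (Metric.tendsto_nhds.1 (hg z₀ hz₀).2) ε hε
    filter_upwards [h1, h4] with n hn1 hn4 w hw
    have h5 := hd w hw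
    have h6 := hn1 w (ball_subset_ball (min_le_left _ _) hw)
    calc dist (pr (g w)) (pr (F n w)) ≤ dist (pr (g w)) (pr (g z₀)) + dist (pr (g z₀)) (pr (F n w)) :=
          dist_triangle _ _ _
      _ ≤ dist (pr (g w)) (pr (g z₀)) + (dist (pr (g z₀)) (pr (F n z₀)) + dist (pr (F n z₀)) (pr (F n w))) := by
          gcongr
          exact dist_triangle _ _ _
      _ < 4 * ε := by
          rw [dist_comm (pr (g z₀)) (pr (F n z₀)), dist_comm (pr (F n z₀)) (pr (F n w))]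
          linarith
  refine ⟨fun z => pr (g z), ?_, ?_⟩
  · intro z₀ hz₀
    set v := g z₀ with hv
    have hv0 : v ≠ 0 := (hg z₀ hz₀).1
    have hnd : C.nd v (pr v) ≠ 0 := (C.nd_pr_ne hv0).2 (inner_self_ne_zero.2 hv0)
    obtain ⟨δ, hδ, hδO⟩ := Metric.isOpen_iff.1 (isOpen_ne.preimage (C.nd_cont v)) (pr v) hnd
    have hcomp : IsCompact (closedBall (pr v) (δ / 2)) := isCompact_closedBall _ _
    have hO : ∀ m ∈ closedBall (pr v) (δ / 2), C.nd v m ≠ 0 := by
      intro m hm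
      exact hδO (closedBall_subset_ball (by linarith) hm)
    have huc : UniformContinuousOn (C.nv v) (closedBall (pr v) (δ / 2)) :=
      hcomp.uniformContinuousOn_of_continuous fun m hm => (C.nv_continuousAt (hO m hm)).continuousWithinAt
    rw [Metric.uniformContinuousOn_iff] at huc
    obtain ⟨s₁, hs₁, hsU, hd1, hd2⟩ := hloc z₀ hz₀ (δ / 16) (by linarith)
    obtain ⟨s₂, hs₂, hd3⟩ := hF z₀ hz₀
    have hmemg : ∀ w ∈ ball z₀ s₁, pr (g w) ∈ closedBall (pr v) (δ / 2) := by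
      intro w hw
      rw [mem_closedBall]
      have := hd1 w hw
      linarith
    have hmemF : ∀ᶠ n in (𝒰 : Filter ℕ), ∀ w ∈ ball z₀ s₁, pr (F n w) ∈ closedBall (pr v) (δ / 2) := by
      filter_upwards [hd2] with n hn w hw
      rw [mem_closedBall]
      have h1 := hd1 w hw
      have h2 := hn w hw
      calc dist (pr (F n w)) (pr v) ≤ dist (pr (F n w)) (pr (g w)) + dist (pr (g w)) (pr v) := dist_triangle _ _ _
        _ ≤ δ / 2 := by
            rw [dist_comm (pr (F n w)) (pr (g w))]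
            linarith
    set s := min s₁ s₂ with hs
    have hs0 : 0 < s := lt_min hs₁ hs₂
    have hb1 : ball z₀ s ⊆ ball z₀ s₁ := ball_subset_ball (min_le_left _ _)
    have hb2 : ball z₀ s ⊆ ball z₀ s₂ := ball_subset_ball (min_le_right _ _)
    have hdiff : ∀ᶠ n in (𝒰 : Filter ℕ), DifferentiableOn ℂ (fun w => C.nv v (pr (F n w))) (ball z₀ s) := by
      filter_upwards [hmemF, hd3] with n hn1 hn2
      have h1 : ∀ w ∈ ball z₀ s, inner ℂ v (F n w) ≠ (0 : ℂ) := fun w hw =>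
        (C.nd_pr_ne (hn2.2 w (hb2 hw))).1 (hO _ (hn1 w (hb1 hw)))
      have h2 : DifferentiableOn ℂ (fun w => (inner ℂ v (F n w) : ℂ)⁻¹ • F n w) (ball z₀ s) := by
        have h3 : DifferentiableOn ℂ (F n) (ball z₀ s) := hn2.1.mono hb2
        have h4 : DifferentiableOn ℂ (fun w => (inner ℂ v (F n w) : ℂ)) (ball z₀ s) :=
          ((innerSL ℂ v).differentiable.comp_differentiableOn h3)
        exact (h4.inv h1).smul h3
      exact h2.congr fun w hw => C.nv_pr (h1 w hw)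
    have hlu : TendstoLocallyUniformlyOn (fun n w => C.nv v (pr (F n w))) (fun w => C.nv v (pr (g w)))
        (𝒰 : Filter ℕ) (ball z₀ s) := by
      rw [Metric.tendstoLocallyUniformlyOn_iff]
      intro ε hε w₀ hw₀
      obtain ⟨η, hη, huc'⟩ := huc ε hε
      obtain ⟨s₃, hs₃, -, -, h3⟩ := hloc w₀ (hsU (hb1 hw₀)) (η / 4) (by linarith)
      refine ⟨ball z₀ s ∩ ball w₀ s₃, ?_, ?_⟩
      · exact inter_mem self_mem_nhdsWithin (mem_nhdsWithin_of_mem_nhds (ball_mem_nhds w₀ hs₃))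
      · filter_upwards [h3, hmemF] with n hn1 hn2 w hw
        refine huc' _ (hmemg w (hb1 hw.1)) _ (hn2 w (hb1 hw.1)) ?_
        have := hn1 w hw.2
        linarith
    have hΦ : DifferentiableOn ℂ (fun w => C.nv v (pr (g w))) (ball z₀ s) :=
      hlu.differentiableOn hdiff isOpen_ball
    refine ⟨fun w => C.nv v (pr (g w)), hΦ.analyticAt (ball_mem_nhds z₀ hs0), ?_⟩
    filter_upwards [ball_mem_nhds z₀ hs0] with w hw
    have hw0 : g w ≠ 0 := (hg w (hsU (hb1 hw))).1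
    have hi : inner ℂ v (g w) ≠ (0 : ℂ) := (C.nd_pr_ne hw0).1 (hO _ (hmemg w (hb1 hw)))
    refine ⟨?_, (C.pr_nv hi).symm⟩
    rw [C.nv_pr hi]
    exact smul_ne_zero (inv_ne_zero hi) hw0
  · have hlu : TendstoLocallyUniformlyOn (fun n w => pr (F n w)) (fun w => pr (g w)) (𝒰 : Filter ℕ) U := by
      rw [Metric.tendstoLocallyUniformlyOn_iff]
      intro ε hε w₀ hw₀
      obtain ⟨s₃, hs₃, -, -, h3⟩ := hloc w₀ hw₀ (ε / 4) (by linarith)
      refine ⟨ball w₀ s₃, mem_nhdsWithin_of_mem_nhds (ball_mem_nhds w₀ hs₃), ?_⟩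
      filter_upwards [h3] with n hn w hw
      have := hn w hw
      linarith
    intro K hK hKc ε hε
    have h1 := (tendstoLocallyUniformlyOn_iff_forall_isCompact hU).1 hlu K hK hKc
    rw [Metric.tendstoUniformlyOn_iff] at h1
    filter_upwards [h1 ε hε] with n hn z hz
    rw [dist_comm]
    exact hn z hz

end Pool.Agent.G3

end

section

/-!
# EF Bridge: from the projective space to the cone
-/

set_option autoImplicit false

open Topology Filter MvPolynomial Metric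

noncomputable section

namespace Pool.Agent.H17EF

open Pool.Agent.H17 (PN VanishesAt HolomorphicInto ZariskiClosedIn)
open Pool.Agent.H62.FC (Homog)
open Pool.Agent.H62.EF
open Pool.Agent.H17BP (Surface IsChart)
open Pool.Agent.H13.SM (cone)
open Pool.Agent.H36.BP (EN wd isCone_transport germ_transport)
open Pool.Agent.H14.PP (IsCone Chart)

variable {N : ℕ}

/-- homogeneous coordinates as a Euclidean vector -/
def LE (N : ℕ) : (Fin (N + 1) → ℂ) ≃L[ℂ] EN N := (EuclideanSpace.equiv (Fin (N + 1)) ℂ).symm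

/-- the cone in the Euclidean space -/
def coneE (P : Ideal (MvPolynomial (Fin (N + 1)) ℂ)) : Set (EN N) := (LE N).symm ⁻¹' cone P

theorem mk_mem_projVar {P : Ideal (MvPolynomial (Fin (N + 1)) ℂ)} (hP : Homog P) {x : Fin (N + 1) → ℂ} (hx : x ≠ 0) :
    Projectivization.mk ℂ x hx ∈ projVar P ↔ x ∈ cone P := by
  obtain ⟨a, ha, hrep⟩ := Pool.Agent.H36.BP.rep_mk hx
  constructor
  · intro h
    refine ⟨hx, fun Q hQ => ?_⟩
    rw [← MvPolynomial.sum_homogeneousComponent Q, map_sum]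
    refine Finset.sum_eq_zero fun i _ => ?_
    have h1 := h _ (hP Q hQ i) i (homogeneousComponent_isHomogeneous i Q)
    unfold VanishesAt at h1
    rw [hrep, eval_smul_form' (homogeneousComponent_isHomogeneous i Q)] at h1
    exact (mul_eq_zero.1 h1).resolve_left (pow_ne_zero i ha)
  · intro h Q hQ n hn
    unfold VanishesAt
    rw [hrep, eval_smul_form' hn, h.2 Q hQ, mul_zero]
where
  eval_smul_form' {d : ℕ} {Q : MvPolynomial (Fin (N + 1)) ℂ} (hQ : Q.IsHomogeneous d) (c : ℂ)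
      (x : Fin (N + 1) → ℂ) : eval (c • x) Q = c ^ d * eval x Q := by
    rw [MvPolynomial.eval_eq', MvPolynomial.eval_eq', Finset.mul_sum]
    apply Finset.sum_congr rfl
    intro m hm
    have hdeg : ∑ i, m i = d := by
      have := hQ (MvPolynomial.mem_support_iff.1 hm)
      rw [Finsupp.weight_apply] at this
      simpa [Finsupp.sum_fintype] using this
    have h1 : ∏ i, (c • x) i ^ m i = c ^ d * ∏ i, x i ^ m i := by
      rw [← hdeg, ← Finset.prod_pow_eq_pow_sum, ← Finset.prod_mul_distrib]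
      exact Finset.prod_congr rfl fun i _ => by simp [mul_pow]
    rw [h1]
    ring

theorem mem_coneE {P : Ideal (MvPolynomial (Fin (N + 1)) ℂ)} (hP : Homog P) {y : EN N} :
    y ∈ coneE P ↔ ∃ h : (LE N).symm y ≠ 0, Projectivization.mk ℂ ((LE N).symm y) h ∈ projVar P := by
  constructor
  · intro h
    exact ⟨h.1, (mk_mem_projVar hP h.1).2 h⟩
  · rintro ⟨h, h'⟩
    exact (mk_mem_projVar hP h).1 h'

open Classical in
/-- the map to the torus as a complex valued function on the cone -/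
def uE (Λ : AddSubgroup ℂ) (u : PN N → ℂ ⧸ Λ) (y : EN N) : ℂ :=
  if h : (LE N).symm y ≠ 0 then Quotient.out (u (Projectivization.mk ℂ ((LE N).symm y) h)) else 0

theorem uE_eq (Λ : AddSubgroup ℂ) (u : PN N → ℂ ⧸ Λ) {y : EN N} (h : (LE N).symm y ≠ 0) :
    ((uE Λ u y : ℂ) : ℂ ⧸ Λ) = u (Projectivization.mk ℂ ((LE N).symm y) h) := by
  unfold uE
  rw [dif_pos h]
  exact Quotient.out_eq _

theorem sub_mem_iff {Λ : AddSubgroup ℂ} {a b : ℂ} : a - b ∈ Λ ↔ ((a : ℂ) : ℂ ⧸ Λ) = (b : ℂ ⧸ Λ) := by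
  rw [QuotientAddGroup.eq, ← neg_mem_iff]
  constructor
  · intro h
    convert h using 1
    ring
  · intro h
    convert h using 1
    ring

theorem charts {P : Ideal (MvPolynomial (Fin (N + 1)) ℂ)} (hS : Surface (cone P)) : Charts (coneE P) := by
  intro x hx
  obtain ⟨σ, τ, hc, h0⟩ := hS.chart ((LE N).symm x) hx
  have hg := germ_transport (LE N) hc
  obtain ⟨χ, h1, h2⟩ := exists_chart_of_germ (isCone_transport (LE N) hS) hg
  have h3 : (LE N) (σ 0) = x := by rw [h0, ContinuousLinearEquiv.apply_symm_apply]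
  rw [h3] at h1 h2
  exact ⟨χ, h1, h2⟩

/-- a lift -/
theorem exists_lift {f : ℂ → PN N} (hf : HolomorphicInto f Set.univ) :
    ∃ F : ℂ → EN N, Differentiable ℂ F ∧ ∀ z, ∃ h : (LE N).symm (F z) ≠ 0, f z = Projectivization.mk ℂ ((LE N).symm (F z)) h := by
  obtain ⟨x, hx⟩ := Pool.Agent.H17.exists_global_lift hf
  refine ⟨fun z => (LE N) (fun j => (x j : ℂ → ℂ) z), ?_, fun z => ?_⟩
  · have h1 : Differentiable ℂ fun z => fun j => (x j : ℂ → ℂ) z := differentiable_pi.2 fun j => (x j).2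
    exact (LE N).differentiable.comp h1
  · obtain ⟨h, h'⟩ := hx z
    have h2 : (LE N).symm ((LE N) (fun j => (x j : ℂ → ℂ) z)) = fun j => (x j : ℂ → ℂ) z := ContinuousLinearEquiv.symm_apply_apply _ _
    refine ⟨by rw [h2]; exact h, ?_⟩
    rw [h']
    congr 1

end Pool.Agent.H17EF

end
end

section

/-!
# Et Defs: finite etale coverings of projective varieties
-/

set_option autoImplicit false

open Topology Filter MvPolynomial

noncomputable section

namespace Pool.Agent.H62.Et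

open Pool.Agent.H17 (PN VanishesAt HolomorphicInto)
open Pool.Agent.H17EF (projVar LE)
open Pool.Agent.H62.EF (MN pr)

variable {N M : ℕ}

/-- the embedding of the projective space in the space of matrices -/
def pn (x : PN N) : MN N := pr ((LE N) x.rep)

end Pool.Agent.H62.Et

end
end

section

/-!
# G3 R Defs: Theorem ROOT and normalised curves

`RootLog`: the statement of Theorem ROOT.  `Nrm`: a curve on the disc of radius `R` with `Mf 0 = 1` for which the function `(1 - |z|²/R²)² Mf² / (A + Lam)` is maximal at the centre.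
`RT`: the curve is in the situation of all theorems of this block.
-/

set_option autoImplicit false

open Topology Filter Metric

namespace Pool.Agent.G3

open Pool.Agent.H36.BP (EN fs wd Sub)
open Pool.Agent.H14.PP (IsCone CurveAt Tan)
open Pool.Agent.H62.EF (MN pr)
open Pool.Agent.AD (Vd Chart Charts)
open Pool.Agent.TG (TMap Lat Geo Gd)

variable {N k : ℕ}

/-- Theorem ROOT: `|h'|²` and `p ^ (2/m)` are bounded by the functional -/
def RootLog (X : Set (EN N)) (Λ : AddSubgroup (Vd (k + 1))) (u : EN N → Vd (k + 1)) (Q : EN N → ℂ) (d : ℕ) (p : EN N → EN N → ℝ) (m : ℕ) (C : ℝ) : Prop :=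
  ∀ (w : ℂ) (r : ℝ) (F : ℂ → EN N) (h : ℂ → Vd (k + 1)), 0 < r → Cv X Λ u (ball w r) F h → Ok Q p F w →
    r ^ 2 * ‖deriv h w‖ ^ 2 ≤ C * (1 + Lam Q d p m F h w) ∧ r ^ 2 * (pf p F w) ^ (2 / (m : ℝ)) ≤ C * (1 + Lam Q d p m F h w)

/-- a normalised curve -/
structure Nrm (X : Set (EN N)) (Λ : AddSubgroup (Vd (k + 1))) (u : EN N → Vd (k + 1)) (Q : EN N → ℂ) (d : ℕ) (p : EN N → EN N → ℝ) (m : ℕ) (ε A R : ℝ) (F : ℂ → EN N)
    (h : ℂ → Vd (k + 1)) : Prop where
  R_pos : 0 < R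
  A_pos : 0 < A
  cv : Cv X Λ u (ball 0 R) F h
  ok : Ok Q p F 0
  one : Mf p m ε F h 0 = 1
  le : ∀ z ∈ ball (0 : ℂ) R, Ok Q p F z → Mf p m ε F h z ^ 2 * (1 - ‖z‖ ^ 2 / R ^ 2) ^ 2 * (A + Lam Q d p m F h 0) ≤ A + Lam Q d p m F h z

end Pool.Agent.G3

end

section

/-!
# G4 A CmZ: the combinations tend to zero

`kap W K y₀ a κ x = max_j ‖K j x‖ exp (wt W (y₀ + x a) - κ ‖x‖²)` for the limits `K j` of the integrals (`cmb_K`).  The exponent is a quadratic polynomial with the positive leading form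
`(wt W a - κ) ‖h‖²`, so `kap` satisfies a strict maximum principle on small circles without exact bad hits (`kmax`).  With `fch_lim` and `MdX` the hypotheses of `ustar` hold, so `kap = 0`, and `cX` tends to `0` (`cmb_zero`).
-/

set_option autoImplicit false

open Topology Filter Metric

namespace Pool.Agent.G4.A

open Pool.Agent.H36.BP (EN fs wd)
open Pool.Agent.H14.PP (IsCone CurveAt Tan)
open Pool.Agent.H62.EF (MN pr)
open Pool.Agent.AD (Vd Chart Charts IsGerm)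
open Pool.Agent.TG
open Pool.Agent.G3
open Pool.Agent.G3.A
open Pool.Agent.G3.C (Gc nv nd nv_pr)

variable {N k : ℕ} {X : Set (EN N)} {Λ : AddSubgroup (Vd (k + 1))} {u : EN N → Vd (k + 1)} {D B Bad : Set (Vd (k + 1))} {a : Vd (k + 1)}
  {Γ : AddSubgroup (Vd (k + 1))} {J rW : ℕ} {W : Fin rW → Vd (k + 1) →L[ℂ] ℂ} {α : Fin J → VForm X Λ u} {c₀ C₀ ρ δ : ℝ}

/-- the weighted norm of the limits of the integrals -/
noncomputable def kap (W : Fin rW → Vd (k + 1) →L[ℂ] ℂ) (K : Fin J → ℂ → ℂ) (y₀ a : Vd (k + 1)) (κ : ℝ) (x : ℂ) : ℝ :=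
  ‖(fun j => K j x : Fin J → ℂ)‖ * Real.exp (wt W (y₀ + x • a) - κ * ‖x‖ ^ 2)

theorem kap_nonneg (K : Fin J → ℂ → ℂ) (y₀ a : Vd (k + 1)) (κ : ℝ) (x : ℂ) : 0 ≤ kap W K y₀ a κ x := mul_nonneg (norm_nonneg _) (Real.exp_pos _).le

theorem nsq_add (A h : ℂ) : ‖A + h‖ ^ 2 = ‖A‖ ^ 2 + (2 * (starRingEnd ℂ) A * h).re + ‖h‖ ^ 2 := by
  rw [Complex.sq_norm, Complex.sq_norm, Complex.sq_norm, Complex.normSq_apply, Complex.normSq_apply, Complex.normSq_apply]
  simp only [Complex.add_re, Complex.add_im, Complex.mul_re, Complex.mul_im, Complex.conj_re, Complex.conj_im, Complex.re_ofNat, Complex.im_ofNat]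
  ring

/-- the exponent of `kap` as a quadratic polynomial -/
private theorem qexp (W : Fin rW → Vd (k + 1) →L[ℂ] ℂ) (y₀ a : Vd (k + 1)) (κ : ℝ) (z : ℂ) :
    ∃ L : ℂ, ∀ h : ℂ, wt W (y₀ + (z + h) • a) - κ * ‖z + h‖ ^ 2 = (wt W (y₀ + z • a) - κ * ‖z‖ ^ 2) + (L * h).re + (wt W a - κ) * ‖h‖ ^ 2 := by
  refine ⟨(∑ i, 2 * (starRingEnd ℂ) (W i (y₀ + z • a)) * W i a) - (κ : ℂ) * (2 * (starRingEnd ℂ) z), fun h => ?_⟩
  have h1 : wt W (y₀ + (z + h) • a) = wt W (y₀ + z • a) + ((∑ i, 2 * (starRingEnd ℂ) (W i (y₀ + z • a)) * W i a) * h).re + wt W a * ‖h‖ ^ 2 := by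
    simp only [wt]
    rw [Finset.sum_mul, Complex.re_sum, Finset.sum_mul, ← Finset.sum_add_distrib, ← Finset.sum_add_distrib]
    refine Finset.sum_congr rfl fun i _ => ?_
    have e : W i (y₀ + (z + h) • a) = W i (y₀ + z • a) + h * W i a := by
      rw [add_smul, ← add_assoc, map_add, map_smul, smul_eq_mul]
    rw [e, nsq_add, norm_mul, mul_pow]
    have e2 : 2 * (starRingEnd ℂ) (W i (y₀ + z • a)) * (h * W i a) = 2 * (starRingEnd ℂ) (W i (y₀ + z • a)) * W i a * h := by ring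
    rw [e2]
    ring
  rw [h1, nsq_add, sub_mul, Complex.sub_re]
  have e3 : ((κ : ℂ) * (2 * (starRingEnd ℂ) z) * h).re = κ * (2 * (starRingEnd ℂ) z * h).re := by
    rw [mul_assoc, Complex.re_ofReal_mul]
  rw [e3]
  ring

/-- the maximum principle for `kap` -/
theorem kmax {K : Fin J → ℂ → ℂ} {y₀ a : Vd (k + 1)} {κ : ℝ} {z : ℂ} {r r' : ℝ} (hr : 0 < r) (hr' : r < r') (hK : ∀ j, ∀ x ∈ closedBall z r, DifferentiableAt ℂ (K j) x)
    {g : ℂ → ℂ} (hg : DifferentiableOn ℂ g (ball z r')) {S : ℝ} (hS : ∀ w : ℂ, dist w z = r → kap W K y₀ a κ w * ‖g w‖ ≤ S) :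
    kap W K y₀ a κ z * ‖g z‖ ≤ Real.exp (-((wt W a - κ) * r ^ 2)) * S := by
  obtain ⟨L, hL⟩ := qexp W y₀ a κ z
  set Q : ℂ → ℝ := fun x => wt W (y₀ + x • a) - κ * ‖x‖ ^ 2 with hQ
  have hQL : ∀ x : ℂ, dist x z = r → Q x = Q z + (L * (x - z)).re + (wt W a - κ) * r ^ 2 := by
    intro x hx
    have h1 := hL (x - z)
    rw [add_sub_cancel] at h1
    rw [← dist_eq_norm, hx] at h1
    exact h1
  have hS0 : 0 ≤ S := by
    have h1 := hS (z + r) (by rw [dist_eq_norm, add_sub_cancel_left, Complex.norm_real, Real.norm_eq_abs, abs_of_pos hr])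
    exact (mul_nonneg (kap_nonneg K y₀ a κ _) (norm_nonneg _)).trans h1
  have hj : ∀ j, ‖K j z‖ * ‖g z‖ ≤ Real.exp (-Q z - (wt W a - κ) * r ^ 2) * S := by
    intro j
    set F : ℂ → ℂ := fun x => K j x * g x * Complex.exp (L * (x - z)) with hF
    have hFd : DiffContOnCl ℂ F (ball z r) := by
      have h1 : ∀ x ∈ closedBall z r, DifferentiableAt ℂ F x := by
        intro x hx
        have h2 : DifferentiableAt ℂ g x := hg.differentiableAt (isOpen_ball.mem_nhds (closedBall_subset_ball hr' hx))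
        have h3 : DifferentiableAt ℂ (fun x : ℂ => Complex.exp (L * (x - z))) x := by fun_prop
        exact ((hK j x hx).mul h2).mul h3
      refine ⟨fun x hx => (h1 x (ball_subset_closedBall hx)).differentiableWithinAt, ?_⟩
      rw [closure_ball z hr.ne']
      exact fun x hx => (h1 x hx).continuousAt.continuousWithinAt
    have h4 : ‖F z‖ ≤ Real.exp (-Q z - (wt W a - κ) * r ^ 2) * S := by
      refine Complex.norm_le_of_forall_mem_frontier_norm_le isBounded_ball hFd (fun x hx => ?_) (subset_closure (mem_ball_self hr))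
      rw [frontier_ball z hr.ne'] at hx
      have hxr : dist x z = r := mem_sphere.1 hx
      have h5 := hS x hxr
      have h6 : ‖F x‖ = ‖K j x‖ * ‖g x‖ * Real.exp (L * (x - z)).re := by
        rw [hF]
        simp only
        rw [norm_mul, norm_mul, Complex.norm_exp]
      have h7 : (L * (x - z)).re = Q x + (-Q z - (wt W a - κ) * r ^ 2) := by
        rw [hQL x hxr]
        ring
      rw [h6, h7, Real.exp_add]
      have h8 : ‖K j x‖ ≤ ‖(fun j => K j x : Fin J → ℂ)‖ := norm_le_pi_norm (fun j => K j x : Fin J → ℂ) j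
      calc ‖K j x‖ * ‖g x‖ * (Real.exp (Q x) * Real.exp (-Q z - (wt W a - κ) * r ^ 2))
          ≤ ‖(fun j => K j x : Fin J → ℂ)‖ * ‖g x‖ * (Real.exp (Q x) * Real.exp (-Q z - (wt W a - κ) * r ^ 2)) := by gcongr
        _ = Real.exp (-Q z - (wt W a - κ) * r ^ 2) * (kap W K y₀ a κ x * ‖g x‖) := by
            rw [kap, hQ]
            ring
        _ ≤ Real.exp (-Q z - (wt W a - κ) * r ^ 2) * S := mul_le_mul_of_nonneg_left h5 (Real.exp_pos _).le
    have h5 : ‖F z‖ = ‖K j z‖ * ‖g z‖ := by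
      rw [hF]
      simp only
      rw [sub_self, mul_zero, Complex.exp_zero, mul_one, norm_mul]
    rwa [h5] at h4
  have hall : ‖(fun j => K j z : Fin J → ℂ)‖ * ‖g z‖ ≤ Real.exp (-Q z - (wt W a - κ) * r ^ 2) * S := by
    rcases eq_or_ne (g z) 0 with h0 | h0
    · rw [h0, norm_zero, mul_zero]
      positivity
    · have hg0 : 0 < ‖g z‖ := norm_pos_iff.2 h0
      rw [← le_div_iff₀ hg0, pi_norm_le_iff_of_nonneg (by positivity)]
      intro j
      rw [le_div_iff₀ hg0]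
      exact hj j
  have e : Real.exp (-Q z - (wt W a - κ) * r ^ 2) = Real.exp (-((wt W a - κ) * r ^ 2)) * (Real.exp (Q z))⁻¹ := by
    rw [← Real.exp_neg, ← Real.exp_add]
    congr 1
    ring
  calc kap W K y₀ a κ z * ‖g z‖ = (‖(fun j => K j z : Fin J → ℂ)‖ * ‖g z‖) * Real.exp (Q z) := by
        rw [kap, hQ]
        ring
    _ ≤ (Real.exp (-Q z - (wt W a - κ) * r ^ 2) * S) * Real.exp (Q z) := mul_le_mul_of_nonneg_right hall (Real.exp_pos _).le
    _ = Real.exp (-((wt W a - κ) * r ^ 2)) * S := by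
        rw [e]
        have := (Real.exp_pos (Q z)).ne'
        field_simp

private theorem fin_of_card {T : Set ℂ} {b : ℝ} (h : ∀ S : Finset ℂ, (∀ z ∈ S, z ∈ T) → (S.card : ℝ) ≤ b) : T.Finite ∧ (T.ncard : ℝ) ≤ b := by
  have hf : T.Finite := by
    by_contra hinf
    obtain ⟨S, hST, hSc⟩ := Set.Infinite.exists_subset_card_eq hinf (⌊b⌋₊ + 1)
    have h1 := h S (fun z hz => hST hz)
    rw [hSc] at h1
    push_cast at h1
    have := Nat.lt_floor_add_one b
    linarith only [h1, this]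
  refine ⟨hf, ?_⟩
  have h1 := h hf.toFinset (fun z hz => hf.mem_toFinset.1 hz)
  rwa [← Set.ncard_eq_toFinset_card T hf] at h1

theorem few_ncard (hL : LC D Bad a ρ δ) (y₀ : Vd (k + 1)) {ε : ℝ} (hε : 0 < ε) : ∃ C : ℝ, ∀ (z : ℂ) (R : ℝ), 0 ≤ R → ({x : ℂ | y₀ + x • a ∈ Bad} ∩ closedBall z R).Finite ∧
    ((({x : ℂ | y₀ + x • a ∈ Bad} ∩ closedBall z R).ncard : ℕ) : ℝ) ≤ ε * R ^ 2 + C := by
  obtain ⟨C, hC⟩ := hL.few ε hε
  refine ⟨C, fun z R hR => fin_of_card fun S hS => ?_⟩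
  have h1 := hC (y₀ + z • a) R hR (S.image fun x => x - z) (fun x hx => by
    obtain ⟨x', hx', rfl⟩ := Finset.mem_image.1 hx
    obtain ⟨h2, h3⟩ := hS x' hx'
    rw [mem_closedBall, dist_eq_norm] at h3
    have e : y₀ + z • a + (x' - z) • a = y₀ + x' • a := by rw [sub_smul]; abel
    exact ⟨h3, by rw [e]; exact h2⟩)
  rwa [Finset.card_image_of_injective S (fun x x' h => by simpa using h)] at h1

end Pool.Agent.G4.A

end

section

/-!
# G3 P LimM: limits of points of `X` over points which converge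

Normalise `x i` to unit vectors; see the private lemma `lim_mem` in `TG/Y/TbA` (one-dimensional torus) and the lemmas of `TG/Gd`, `TG/SbA` (`sb_mem`).
-/

set_option autoImplicit false

open Topology Filter Metric

namespace Pool.Agent.G3

open Pool.Agent.H36.BP (EN fs wd Sub)
open Pool.Agent.H14.PP (IsCone CurveAt Tan)
open Pool.Agent.H62.EF (MN pr)
open Pool.Agent.AD (Vd)
open Pool.Agent.TG (TMap Lat Geo Gd)

variable {N k : ℕ} {X : Set (EN N)} {Λ : AddSubgroup (Vd (k + 1))} {u : EN N → Vd (k + 1)} {D : Set (Vd (k + 1))} {p : EN N → EN N → ℝ} {m : ℕ} {C : ℝ}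

theorem lim_mem (hX : IsCone X) (hu : TMap X Λ u) (hΛ : Lat Λ) {ι : Type} {l : Filter ι} [l.NeBot] {x : ι → EN N} {y : ι → Vd (k + 1)} {x₀ : EN N} {y₀ : Vd (k + 1)}
    (hx : ∀ᶠ i in l, x i ∈ X ∧ u (x i) - y i ∈ Λ) (h0 : x₀ ≠ 0) (hlx : Tendsto (fun i => pr (x i)) l (𝓝 (pr x₀))) (hly : Tendsto y l (𝓝 y₀)) :
    x₀ ∈ X ∧ u x₀ - y₀ ∈ Λ := by
  have h1 : pr x₀ ∈ Pool.Agent.TG.Fb X Λ u y₀ :=
    (Pool.Agent.TG.fb_lim hX hΛ hu hlx hly (by
      filter_upwards [hx] with i hi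
      exact Pool.Agent.TG.mem_fb hi.1 hi.2)).1
  obtain ⟨x', hx', hm', -⟩ := id h1
  obtain ⟨c, hc, hcx⟩ := (Pool.Agent.H62.EF.pr_eq_iff h0 (Pool.Agent.TG.ne_zero hX hx')).1 hm'.symm
  have hxX : x₀ ∈ X := by
    rw [hcx]
    exact hX.smul_mem x' hx' c hc
  exact ⟨hxX, Pool.Agent.TG.fb_lift hX hu h1 hxX rfl⟩

end Pool.Agent.G3

end
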