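import Pool.Agent.H94.G5T.M47
import Pool.Agent.H94.G5T.M63
import Pool.Agent.H94.G5T.M67
import Pool.Agent.H94.G5T.M71
import Pool.Agent.H94.G5T.M97

/-! The parts of this file: G3.X.TbG, H17EF.Closed, H19OL.Norm, H7.Qup.Rel, G3.X.KpE, G3.X.IIa. -/

section

/-!
# G3 X TbG: a tube from its geometric data

`tube_of_geo`: the proof of `Pool.Agent.TGY.exists_tube` (`TG/Y/TbB.lean`) after its first line (`obtain ⟨T, s, η, 𝒲, hT, hW⟩`); copy the private lemmas.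
-/

set_option autoImplicit false

open Topology Filter Metric

namespace Pool.Agent.GXE

open Pool.Agent.H36.BP (EN wd IsGermChart)
open Pool.Agent.H14.PP (IsCone Chart Tan CurveAt jac)
open Pool.Agent.H62.EF (Lat MN pr TorusMap Charts)
open Pool.Agent.H62.EL

variable {N : ℕ} {X : Set (EN N)} {Λ : AddSubgroup ℂ} {u : EN N → ℂ}

open Classical in
/-- choice of a witness with the property `P` -/
private noncomputable def pickW (P : Wit X → Prop) (f : Wit X → ℂ) : ℂ := if h : ∃ w, P w then f h.choose else 0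

private theorem pickW_congr {P P' : Wit X → Prop} {f f' : Wit X → ℂ} (hP : ∀ w, P w ↔ P' w) (hf : ∀ w, P w → f w = f' w) :
    pickW P f = pickW P' f' := by
  have hPP : P = P' := funext fun w => propext (hP w)
  subst hPP
  unfold pickW
  by_cases h : ∃ w, P w
  · rw [dif_pos h, dif_pos h]
    exact hf _ h.choose_spec
  · rw [dif_neg h, dif_neg h]

private theorem pickW_eq {P : Wit X → Prop} (h : ∃ w, P w) : ∃ w, P w ∧ ∀ f : Wit X → ℂ, pickW P f = f w :=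
  ⟨h.choose, h.choose_spec, fun f => by unfold pickW; rw [dif_pos h]⟩

private theorem pr_chart (χ : Chart X) {x : EN N} (hx : x ∈ X) (hU : x ∈ χ.U) : pr (χ.σ (χ.q x)) = pr x := by
  obtain ⟨-, c, hc, hxc⟩ := χ.surj x hx hU
  conv_rhs => rw [hxc]
  exact (Pool.Agent.H62.EF.pr_smul _ hc).symm

private theorem q_chart {χ χ' : Chart X} {x : EN N} (hx : x ∈ X) (hU : x ∈ χ.U) (hs : χ.σ (χ.q x) ∈ χ'.U) :
    χ'.q (χ.σ (χ.q x)) = χ'.q x := by
  obtain ⟨-, c, hc, hxc⟩ := χ.surj x hx hU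
  conv_rhs => rw [hxc]
  exact (χ'.q_smul _ hs c hc).symm

private theorem mem_W_chart {χ : Chart X} {W : Set (EN N)} (hW : ∀ x ∈ W, ∀ c : ℂ, c ≠ 0 → c • x ∈ W) {x : EN N} (hx : x ∈ X)
    (hU : x ∈ χ.U) (hxW : x ∈ W) : χ.σ (χ.q x) ∈ W := by
  obtain ⟨-, c, hc, hxc⟩ := χ.surj x hx hU
  have h1 : χ.σ (χ.q x) = c⁻¹ • x := by
    conv_rhs => rw [hxc]
    rw [smul_smul, inv_mul_cancel₀ hc, one_smul]
  rw [h1]
  exact hW x hxW _ (inv_ne_zero hc)

theorem tube_of_geo (hX : IsCone X) (hu : TorusMap X Λ u) {b : ℂ} {s η : ℝ} {T : TubeData X} {𝒲 : Set (Wit X)} (hT : TubeG Λ u b s η T)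
    (hW : WitG Λ u b s η T 𝒲) : Tube Λ u b s η T := by
  classical
  refine ⟨hT, ?_⟩
  intro α A hA
  have hprim : ∀ w : Wit X, ∃ A' : ℂ × ℂ → ℂ, w ∈ 𝒲 → IsPrim α w.χ (mo b w.ρ w.i w.j) A' := by
    intro w
    by_cases hw : w ∈ 𝒲
    · obtain ⟨A', hA'⟩ := exists_prim α w.χ (hW.mon w hw)
      exact ⟨A', fun _ => hA'⟩
    · exact ⟨fun _ => 0, fun h => absurd h hw⟩
  choose A' hA' using hprim
  have hpsi : ∀ (w : Wit X) (k : Fin T.m), ∃ ψ : ℂ × ℂ → ℂ, w ∈ 𝒲 → (∀ p ∈ ball (0 : ℂ × ℂ) 2, w.χ.σ p ∈ (T.χ k).U) →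
      PsiP (T.χ k) (A k) w.χ (A' w) w.i w.j ψ := by
    intro w k
    by_cases hw : w ∈ 𝒲 ∧ ∀ p ∈ ball (0 : ℂ × ℂ) 2, w.χ.σ p ∈ (T.χ k).U
    · obtain ⟨ψ, hψ⟩ := exists_psi hX hu α hT.inj (hT.mon k) (hW.mon w hw.1) (hT.range k) (hW.range w hw.1) (hA k)
        (hA' w hw.1) hw.2
      exact ⟨ψ, fun _ _ => hψ⟩
    · exact ⟨fun _ => 0, fun h1 h2 => absurd ⟨h1, h2⟩ hw⟩
  choose ψ hψ using hpsi
  set Good : EN N → Wit X → Prop := fun x w => w ∈ 𝒲 ∧ x ∈ w.χ.U ∧ w.χ.q x ∈ ball (0 : ℂ × ℂ) w.r with hGood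
  set lam : Fin T.m → EN N → ℂ := fun k x => pickW (Good x) fun w => ψ w k (w.χ.q x) with hlam
  -- the functions are defined at the points of `W k`
  have hdef : ∀ (w : Wit X) (x : EN N) (k : Fin T.m), x ∈ X → Good x w → x ∈ T.W k →
      PsiP (T.χ k) (A k) w.χ (A' w) w.i w.j (ψ w k) := by
    intro w x k hx hg hk
    refine hψ w k hg.1 (hW.sub w hg.1 k ⟨w.χ.q x, hg.2.2, ?_⟩)
    exact mem_W_chart (hT.W_smul k) hx hg.2.1 hk
  refine ⟨lam, ?_, ?_⟩
  · intro k x hx c hc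
    simp only [hlam]
    refine pickW_congr (fun w => ?_) fun w hw => ?_
    · simp only [hGood]
      constructor
      · rintro ⟨h1, h2, h3⟩
        have h4 : x ∈ w.χ.U := by
          have := w.χ.smul_U _ h2 c⁻¹ (inv_ne_zero hc)
          rwa [smul_smul, inv_mul_cancel₀ hc, one_smul] at this
        refine ⟨h1, h4, ?_⟩
        rwa [w.χ.q_smul x h4 c hc] at h3
      · rintro ⟨h1, h2, h3⟩
        refine ⟨h1, w.χ.smul_U x h2 c hc, ?_⟩
        rwa [w.χ.q_smul x h2 c hc]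
    · have h4 : x ∈ w.χ.U := by
        have := w.χ.smul_U _ hw.2.1 c⁻¹ (inv_ne_zero hc)
        rwa [smul_smul, inv_mul_cancel₀ hc, one_smul] at this
      rw [w.χ.q_smul x h4 c hc]
  · intro k l γ ζ hγ hz hk hl
    obtain ⟨z₀, hz₀, hzu⟩ := hz
    have hx₀ : γ ζ ∈ X := hγ.2.self_of_nhds
    obtain ⟨w₀, hw₀, hU₀, hq₀⟩ := hW.cover z₀ hz₀ (γ ζ) hx₀ hzu
    have hg₀ : Good (γ ζ) w₀ := ⟨hw₀, hU₀, hq₀⟩
    have hk₀ := hdef w₀ (γ ζ) k hx₀ hg₀ hk
    have hl₀ := hdef w₀ (γ ζ) l hx₀ hg₀ hl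
    have hd := (hk₀.der γ ζ hγ hU₀).sub (hl₀.der γ ζ hγ hU₀)
    have hval : bt (T.χ k) (A k) γ ζ - bt w₀.χ (A' w₀) γ ζ - (bt (T.χ l) (A l) γ ζ - bt w₀.χ (A' w₀) γ ζ) =
        bt (T.χ k) (A k) γ ζ - bt (T.χ l) (A l) γ ζ := by ring
    rw [hval] at hd
    refine hd.congr_of_eventuallyEq ?_
    -- neighbourhoods
    have hγc : ContinuousAt γ ζ := hγ.1.continuousAt
    have e1 : ∀ᶠ ξ in 𝓝 ζ, γ ξ ∈ T.W k := hγc.eventually_mem ((hT.W_open k).mem_nhds hk)
    have e2 : ∀ᶠ ξ in 𝓝 ζ, γ ξ ∈ T.W l := hγc.eventually_mem ((hT.W_open l).mem_nhds hl)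
    have e3 : ∀ᶠ ξ in 𝓝 ζ, γ ξ ∈ w₀.χ.U := hγc.eventually_mem (w₀.χ.isOpen_U.mem_nhds hU₀)
    have e4 : ∀ᶠ ξ in 𝓝 ζ, w₀.χ.q (γ ξ) ∈ ball (0 : ℂ × ℂ) w₀.r := by
      have h1 : ContinuousAt (fun ξ => w₀.χ.q (γ ξ)) ζ :=
        ContinuousAt.comp (f := γ) (g := w₀.χ.q) (w₀.χ.q_an _ hU₀).continuousAt hγc
      exact h1.eventually_mem (isOpen_ball.mem_nhds hq₀)
    have e5 : ∀ᶠ ξ in 𝓝 ζ, γ ξ ∈ X → ∃ z ∈ ball b s, u (γ ξ) - z ∈ Λ := by
      obtain ⟨v, hv, hvu⟩ := hu.loc (γ ζ) hx₀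
      have h1 : v (γ ζ) - z₀ ∈ Λ := by
        have h2 := hvu.self_of_nhds hx₀
        have h3 := Λ.sub_mem hzu h2
        have h4 : u (γ ζ) - z₀ - (u (γ ζ) - v (γ ζ)) = v (γ ζ) - z₀ := by ring
        rwa [h4] at h3
      have h5 : ContinuousAt (fun ξ => v (γ ξ) - (v (γ ζ) - z₀)) ζ :=
        (ContinuousAt.comp (f := γ) (g := v) hv.continuousAt hγc).sub continuousAt_const
      have h6 : ∀ᶠ ξ in 𝓝 ζ, v (γ ξ) - (v (γ ζ) - z₀) ∈ ball b s := by
        apply h5.eventually_mem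
        apply isOpen_ball.mem_nhds
        simpa using hz₀
      filter_upwards [h6, hγc.eventually hvu] with ξ h7 h8 h9
      refine ⟨_, h7, ?_⟩
      have h10 := Λ.add_mem (h8 h9) h1
      have h11 : u (γ ξ) - v (γ ξ) + (v (γ ζ) - z₀) = u (γ ξ) - (v (γ ξ) - (v (γ ζ) - z₀)) := by ring
      rwa [h11] at h10
    filter_upwards [e1, e2, e3, e4, e5, hγ.2] with ξ f1 f2 f3 f4 f5 f6
    obtain ⟨z, hz, hzx⟩ := f5 f6
    obtain ⟨w', hw', hU', hq'⟩ := hW.cover z hz (γ ξ) f6 hzx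
    obtain ⟨w₁, hg₁, hpick⟩ := pickW_eq (P := Good (γ ξ)) ⟨w', hw', hU', hq'⟩
    have hk₁ := hdef w₁ (γ ξ) k f6 hg₁ f1
    have hl₁ := hdef w₁ (γ ξ) l f6 hg₁ f2
    simp only [hlam, hpick, Pi.sub_apply]
    obtain ⟨hw₁, hU₁, hq₁⟩ := hg₁
    have hpr : pr (w₀.χ.σ (w₀.χ.q (γ ξ))) = pr (w₁.χ.σ (w₁.χ.q (γ ξ))) := by
      rw [pr_chart w₀.χ f6 f3, pr_chart w₁.χ f6 hU₁]
    rcases hW.nest w₀ hw₀ w₁ hw₁ ⟨_, f4, _, hq₁, hpr⟩ with hn | hn
    · have h1 := two_witness hX hu hT.inj (hW.mon w₁ hw₁) (hW.mon w₀ hw₀) (hW.range w₁ hw₁) hk₁ hl₁ hk₀ hl₀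
        (hW.pos w₀ hw₀).1 (hW.pos w₀ hw₀).2 hn (w₀.χ.q (γ ξ)) f4
      rw [q_chart f6 f3 (hn _ f4)] at h1
      exact h1
    · have h1 := two_witness hX hu hT.inj (hW.mon w₀ hw₀) (hW.mon w₁ hw₁) (hW.range w₀ hw₀) hk₀ hl₀ hk₁ hl₁
        (hW.pos w₁ hw₁).1 (hW.pos w₁ hw₁).2 hn (w₁.χ.q (γ ξ)) hq₁
      rw [q_chart f6 hU₁ (hn _ hq₁)] at h1
      exact h1.symm

end Pool.Agent.GXE

end

section

/-!
# EF Closed: unions of closed subsets of a projective variety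
-/

set_option autoImplicit false

open Topology Filter MvPolynomial

noncomputable section

namespace Pool.Agent.H17EF

open Pool.Agent.H17 (PN VanishesAt HolomorphicInto ZariskiClosedIn)
open Pool.Agent.H62.FC (Homog)

variable {N : ℕ} {P : Ideal (MvPolynomial (Fin (N + 1)) ℂ)}

/-- A form which is not in the homogeneous prime ideal `P` does not vanish at some point of the variety of `P`. -/
theorem exists_point [hPp : P.IsPrime] (hP : Homog P) (hX : ∃ i, (X i : MvPolynomial (Fin (N + 1)) ℂ) ∉ P)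
    {Q : MvPolynomial (Fin (N + 1)) ℂ} (hQP : Q ∉ P) {n : ℕ} (hQ : Q.IsHomogeneous n) : ∃ x ∈ projVar P, ¬ VanishesAt Q x := by
  obtain ⟨i, hi⟩ := hX
  have h1 : Q * X i ∉ P := fun h => (hPp.mem_or_mem h).elim hQP hi
  obtain ⟨x, hx, hx'⟩ : ∃ x : Fin (N + 1) → ℂ, (∀ R ∈ P, eval x R = 0) ∧ eval x (Q * X i) ≠ 0 := by
    by_contra hcon
    push Not at hcon
    apply h1
    rw [← hPp.radical, ← MvPolynomial.vanishingIdeal_zeroLocus_eq_radical (K := ℂ) P, MvPolynomial.mem_vanishingIdeal_iff]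
    intro x hx
    rw [MvPolynomial.mem_zeroLocus_iff] at hx
    rw [MvPolynomial.aeval_eq_eval]
    exact hcon x fun R hR => by
      have := hx R hR
      rwa [MvPolynomial.aeval_eq_eval] at this
  rw [map_mul, eval_X] at hx'
  have hx0 : x ≠ 0 := by
    rintro rfl
    simp at hx'
  refine ⟨Projectivization.mk ℂ x hx0, (mk_mem_projVar hP hx0).2 ⟨hx0, hx⟩, ?_⟩
  unfold VanishesAt
  obtain ⟨a, ha, hrep⟩ := Pool.Agent.H36.BP.rep_mk hx0
  rw [hrep, mk_mem_projVar.eval_smul_form' hQ]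
  exact mul_ne_zero (pow_ne_zero n ha) (left_ne_zero_of_mul hx')

/-- if the variety of `P` is not empty, some coordinate is not in `P` -/
theorem exists_coord {x : PN N} (hx : x ∈ projVar P) : ∃ i, (X i : MvPolynomial (Fin (N + 1)) ℂ) ∉ P := by
  by_contra hcon
  push Not at hcon
  apply x.rep_nonzero
  funext i
  have := hx _ (hcon i) 1 (isHomogeneous_X ℂ i)
  unfold VanishesAt at this
  simpa using this

end Pool.Agent.H17EF

end
end

section

/-!
# OL Norm: the norm of a form under a generically finite rational map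

`exists_norm_form`: let `X'` and `X` be the varieties of the prime ideals `P'` and `P`, of the same dimension, and let forms `γ i` define a dominant
rational map from `X'` to `X`.  For each form `R'` which does not vanish on `X'` there is a form `R` which does not vanish on `X`, with
`R (γ y) = 0` for all points `y` of `X'` with `R' y = 0`.
-/

set_option autoImplicit false

open MvPolynomial

noncomputable section

namespace Pool.Agent.H19OL

open Pool.Agent.H17GT (coordFun functionField)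
open Pool.Agent.H17LG.Variety (FunField ratio)
open Pool.Agent.H17R (gen gen_eq_zero_iff ratio_self adjoin_ratio coordFun_ne_zero_iff)
open Pool.Agent.H7.Bir (aeval_comp aeval_div funIso exists_quot vals)

/-- An extension of fields with the same finite transcendence degree is algebraic. -/
theorem alg_of_trdeg {K L : Type} [Field K] [Field L] [Algebra ℂ K] [Algebra ℂ L] [Algebra K L] [IsScalarTower ℂ K L] {k : ℕ}
    {z : Fin k → K} (hz : IsTranscendenceBasis ℂ z) {z' : Fin k → L} (hz' : IsTranscendenceBasis ℂ z') :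
    Algebra.IsAlgebraic K L := by
  have h1 := trdeg_add_eq ℂ K (A := L)
  rw [← hz.cardinalMk_eq_trdeg, ← hz'.cardinalMk_eq_trdeg] at h1
  rw [← trdeg_eq_zero_iff]
  have h2 : Cardinal.mk (Fin k) < Cardinal.aleph0 := Cardinal.mk_lt_aleph0
  have h3 : Cardinal.mk (Fin k) + Algebra.trdeg K L = Cardinal.mk (Fin k) + 0 := by rw [h1, add_zero]
  exact Cardinal.eq_of_add_eq_add_left h3 h2

variable {N M : ℕ}

/-- The field generated by the coordinates. -/
theorem adjoin_self {L : Type} [Field L] [Algebra ℂ L] (x : Fin (N + 1) → L) :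
    IntermediateField.adjoin ℂ (Set.range fun i => (⟨x i, IntermediateField.subset_adjoin ℂ _ ⟨i, rfl⟩⟩ :
      IntermediateField.adjoin ℂ (Set.range x))) = ⊤ := by
  apply IntermediateField.lift_injective
  rw [IntermediateField.lift_adjoin, IntermediateField.lift_top]
  congr 1
  ext y
  constructor
  · rintro ⟨_, ⟨i, rfl⟩, rfl⟩
    exact ⟨i, rfl⟩
  · rintro ⟨i, rfl⟩
    exact ⟨_, ⟨i, rfl⟩, rfl⟩

/-- The norm of a form, for the points with `y j ≠ 0`. -/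
theorem exists_norm_aux {P : Ideal (MvPolynomial (Fin (N + 1)) ℂ)} [P.IsPrime] {P' : Ideal (MvPolynomial (Fin (M + 1)) ℂ)}
    [P'.IsPrime] {k : ℕ} {z : Fin k → FunField P} (hz : IsTranscendenceBasis ℂ z) {z' : Fin k → FunField P'}
    (hz' : IsTranscendenceBasis ℂ z') {D : ℕ} {γ : Fin (N + 1) → MvPolynomial (Fin (M + 1)) ℂ} (hγ : ∀ i, (γ i).IsHomogeneous D)
    (hmaps : ∀ n Q, Q.IsHomogeneous n → (aeval γ Q ∈ P' ↔ Q ∈ P)) {i₀ : Fin (N + 1)} (hi₀ : X i₀ ∉ P)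
    {n : ℕ} {R' : MvPolynomial (Fin (M + 1)) ℂ} (hR' : R'.IsHomogeneous n) (hR'P : R' ∉ P') {j : Fin (M + 1)} (hj : X j ∉ P') :
    ∃ (R : MvPolynomial (Fin (N + 1)) ℂ) (d : ℕ), R.IsHomogeneous d ∧ R ∉ P ∧
      ∀ y : Fin (M + 1) → ℂ, y j ≠ 0 → (∀ Q ∈ P', eval y Q = 0) → eval y R' = 0 → eval (vals γ y) R = 0 := by
  have hcj : coordFun P' j ≠ 0 := coordFun_ne_zero_iff.2 hj
  set η : Fin (M + 1) → FunField P' := fun i => ratio P' i j with hη
  have hη1 : η j = 1 := ratio_self hcj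
  have hγ₀ : γ i₀ ∉ P' := by
    intro h
    apply hi₀
    rw [← hmaps 1 _ (isHomogeneous_X ℂ i₀), aeval_X]
    exact h
  have hc : aeval η (γ i₀) ≠ 0 := fun h0 => hγ₀ ((gen_eq_zero_iff hcj (hγ i₀)).1 h0)
  set x : Fin (N + 1) → FunField P' := fun i => aeval η (γ i) / aeval η (γ i₀) with hx
  have hx1 : x i₀ = 1 := div_self hc
  have hcomp : ∀ (n : ℕ) (R : MvPolynomial (Fin (N + 1)) ℂ), R.IsHomogeneous n →
      aeval η (aeval γ R) = aeval η (γ i₀) ^ n * aeval x R := by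
    intro n R hR
    rw [aeval_comp, aeval_div hR hc]
  have hker : ∀ (n : ℕ) (G : MvPolynomial (Fin (N + 1)) ℂ), G.IsHomogeneous n → (aeval x G = 0 ↔ G ∈ P) := by
    intro n G hG
    rw [← hmaps n G hG, ← gen_eq_zero_iff hcj (hG.aeval γ hγ)]
    change _ ↔ aeval η (aeval γ G) = 0
    rw [hcomp n G hG, mul_eq_zero]
    exact ⟨Or.inr, fun h => h.resolve_left (pow_ne_zero _ hc)⟩
  -- the subfield generated by the coordinates of the image
  set F : IntermediateField ℂ (FunField P') := IntermediateField.adjoin ℂ (Set.range x) with hF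
  set x' : Fin (N + 1) → F := fun i => ⟨x i, IntermediateField.subset_adjoin ℂ _ ⟨i, rfl⟩⟩ with hx'
  have hadj : IntermediateField.adjoin ℂ (Set.range x') = ⊤ := adjoin_self x
  have hval : ∀ G : MvPolynomial (Fin (N + 1)) ℂ, ((aeval x' G : F) : FunField P') = aeval x G := by
    intro G
    have h1 := DFunLike.congr_fun (MvPolynomial.comp_aeval x' F.val) G
    exact h1
  have hx'1 : x' i₀ = 1 := Subtype.ext hx1
  obtain ⟨e⟩ := funIso (coordFun_ne_zero_iff.2 hi₀) hx'1 hadj fun n G hG => by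
    rw [← hker n G hG, ← hval G]
    exact Subtype.ext_iff
  have halg : Algebra.IsAlgebraic F (FunField P') := alg_of_trdeg (e.isTranscendenceBasis hz) hz'
  -- the equation of `R'`
  set s : FunField P' := aeval η R' with hs
  have hs0 : s ≠ 0 := fun h0 => hR'P ((gen_eq_zero_iff hcj hR').1 h0)
  have hint : IsIntegral F s := (halg.isAlgebraic s).isIntegral
  set p := minpoly F s with hp
  set m := p.natDegree with hm
  obtain ⟨D₁, α, hα, hα0, hα1⟩ := exists_quot hx'1 hadj (fun i : Fin (m + 1) => p.coeff (i : ℕ)) (j' := Fin.last m) (by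
    have h1 := minpoly.monic hint
    exact h1)
  have hα0' : aeval x (α (Fin.last m)) ≠ 0 := by
    rw [← hval]
    exact fun h => hα0 (Subtype.ext h)
  have hrel : ∑ i : Fin (m + 1), aeval x (α i) * s ^ (i : ℕ) = 0 := by
    have h1 := minpoly.aeval F s
    rw [Polynomial.aeval_eq_sum_range, ← Fin.sum_univ_eq_sum_range (fun i => p.coeff i • s ^ i)] at h1
    have h2 : ∀ i : Fin (m + 1), aeval x (α i) * s ^ (i : ℕ) = aeval x (α (Fin.last m)) * (p.coeff (i : ℕ) • s ^ (i : ℕ)) := by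
      intro i
      have h3 := congrArg (fun t : F => (t : FunField P')) (hα1 i)
      simp only [MulMemClass.coe_mul, hval] at h3
      rw [← h3, Algebra.smul_def]
      change _ = _ * (((p.coeff (i : ℕ) : F) : FunField P') * _)
      ring
    have h4 : ∑ i : Fin (m + 1), aeval x (α (Fin.last m)) * (p.coeff (i : ℕ) • s ^ (i : ℕ)) =
        aeval x (α (Fin.last m)) * ∑ i : Fin (m + 1), p.coeff (i : ℕ) • s ^ (i : ℕ) := (Finset.mul_sum _ _ _).symm
    rw [Finset.sum_congr rfl fun i _ => h2 i, h4, h1, mul_zero]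
  have hα00 : aeval x (α 0) ≠ 0 := by
    have h3 := congrArg (fun t : F => (t : FunField P')) (hα1 0)
    simp only [MulMemClass.coe_mul, hval] at h3
    rw [← h3]
    refine mul_ne_zero ?_ hα0'
    have h4 : p.coeff 0 ≠ 0 := minpoly.coeff_zero_ne_zero hint hs0
    intro h5
    exact h4 (Subtype.ext h5)
  -- the form
  set G : MvPolynomial (Fin (M + 1)) ℂ := ∑ i : Fin (m + 1), aeval γ (α i) * R' ^ (i : ℕ) * X j ^ (n * (m - i)) with hG
  have hGhom : G.IsHomogeneous (D * D₁ + n * m) := by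
    refine IsHomogeneous.sum _ _ _ fun i _ => ?_
    have h1 := ((((hα i).aeval γ hγ).mul (hR'.pow (i : ℕ))).mul ((isHomogeneous_X ℂ j).pow (n * (m - i))))
    have h2 : D * D₁ + n * (i : ℕ) + 1 * (n * (m - i)) = D * D₁ + n * m := by
      have h3 : (i : ℕ) ≤ m := Nat.lt_succ_iff.1 i.2
      rw [one_mul, add_assoc, ← mul_add, Nat.add_sub_cancel' h3]
    rw [h2] at h1
    exact h1
  have hGP : G ∈ P' := by
    rw [← gen_eq_zero_iff hcj hGhom]
    change aeval η G = 0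
    rw [hG, map_sum]
    have h1 : ∀ i : Fin (m + 1), aeval η (aeval γ (α i) * R' ^ (i : ℕ) * X j ^ (n * (m - i))) =
        aeval η (γ i₀) ^ D₁ * (aeval x (α i) * s ^ (i : ℕ)) := by
      intro i
      rw [map_mul, map_mul, map_pow, map_pow, aeval_X, hη1, one_pow, mul_one, hcomp D₁ _ (hα i)]
      ring
    have h2 : ∑ i : Fin (m + 1), aeval η (γ i₀) ^ D₁ * (aeval x (α i) * s ^ (i : ℕ)) =
        aeval η (γ i₀) ^ D₁ * ∑ i : Fin (m + 1), aeval x (α i) * s ^ (i : ℕ) := (Finset.mul_sum _ _ _).symm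
    rw [Finset.sum_congr rfl fun i _ => h1 i, h2, hrel, mul_zero]
  refine ⟨α 0, D₁, hα 0, fun h => hα00 ((hker D₁ _ (hα 0)).2 h), fun y hyj hy hyR => ?_⟩
  have h1 := hy G hGP
  rw [hG, map_sum, Fin.sum_univ_succ] at h1
  have h2 : ∀ i : Fin m, eval y (aeval γ (α i.succ) * R' ^ ((i.succ : Fin (m + 1)) : ℕ) * X j ^ (n * (m - (i.succ : Fin (m + 1))))) = 0 := by
    intro i
    rw [map_mul, map_mul, map_pow, hyR, Fin.val_succ, zero_pow (Nat.succ_ne_zero _), mul_zero, zero_mul]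
  rw [Finset.sum_eq_zero fun i _ => h2 i, add_zero, map_mul, map_mul, map_pow, map_pow, eval_X, Fin.val_zero, pow_zero,
    mul_one, mul_eq_zero] at h1
  have h3 : eval y (aeval γ (α 0)) = 0 := h1.resolve_right (pow_ne_zero _ hyj)
  have h4 : eval y (aeval γ (α 0)) = eval (vals γ y) (α 0) := aeval_comp (K := ℂ) y γ (α 0)
  rw [← h4]
  exact h3

/-- **The norm of a form.** -/
theorem exists_norm_form {P : Ideal (MvPolynomial (Fin (N + 1)) ℂ)} [P.IsPrime] {P' : Ideal (MvPolynomial (Fin (M + 1)) ℂ)}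
    [P'.IsPrime] {k : ℕ} (hz : ∃ z : Fin (k + 1) → FunField P, IsTranscendenceBasis ℂ z)
    (hz' : ∃ z : Fin (k + 1) → FunField P', IsTranscendenceBasis ℂ z) {D : ℕ}
    {γ : Fin (N + 1) → MvPolynomial (Fin (M + 1)) ℂ} (hγ : ∀ i, (γ i).IsHomogeneous D)
    (hmaps : ∀ n Q, Q.IsHomogeneous n → (aeval γ Q ∈ P' ↔ Q ∈ P))
    {n : ℕ} {R' : MvPolynomial (Fin (M + 1)) ℂ} (hR' : R'.IsHomogeneous n) (hR'P : R' ∉ P') :
    ∃ (R : MvPolynomial (Fin (N + 1)) ℂ) (d : ℕ), R.IsHomogeneous d ∧ R ∉ P ∧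
      ∀ y : Fin (M + 1) → ℂ, y ≠ 0 → (∀ Q ∈ P', eval y Q = 0) → eval y R' = 0 → eval (vals γ y) R = 0 := by
  classical
  obtain ⟨z, hz⟩ := hz
  obtain ⟨z', hz'⟩ := hz'
  obtain ⟨i₀, hi₀⟩ := Pool.Agent.H92.GT.Proj.exists_coordFun_ne_zero P z hz
  have hi₀' : X i₀ ∉ P := coordFun_ne_zero_iff.1 hi₀
  have h1 : ∀ j : Fin (M + 1), ∃ (R : MvPolynomial (Fin (N + 1)) ℂ) (d : ℕ), R.IsHomogeneous d ∧ R ∉ P ∧
      ∀ y : Fin (M + 1) → ℂ, y j ≠ 0 → (∀ Q ∈ P', eval y Q = 0) → eval y R' = 0 → eval (vals γ y) R = 0 := by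
    intro j
    by_cases hj : X j ∈ P'
    · refine ⟨1, 0, isHomogeneous_one _ _, fun h => (Ideal.ne_top_iff_one P).1 (Ideal.IsPrime.ne_top inferInstance) h, fun y hyj hy => ?_⟩
      have h2 := hy _ hj
      rw [eval_X] at h2
      exact absurd h2 hyj
    · exact exists_norm_aux hz hz' hγ hmaps hi₀' hR' hR'P hj
  choose R d hR hRP hRy using h1
  refine ⟨∏ j, R j, ∑ j, d j, IsHomogeneous.prod _ _ _ fun j _ => hR j, ?_, fun y hy hyP hyR => ?_⟩
  · intro h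
    obtain ⟨j, -, hj⟩ := (Ideal.IsPrime.prod_mem_iff (p := P)).1 h
    exact hRP j hj
  · obtain ⟨j, hj⟩ := Function.ne_iff.1 hy
    rw [map_prod]
    exact Finset.prod_eq_zero (Finset.mem_univ j) (hRy j y hj hyP hyR)

end Pool.Agent.H19OL

end
end

section

/-!
# Qup Rel: the equations of the coordinates of a point over its image
-/

set_option autoImplicit false

open MvPolynomial

noncomputable section

namespace Pool.Agent.H7.Qup

open Pool.Agent.H17 (PN VanishesAt)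
open Pool.Agent.H17GT (coordFun functionField)
open Pool.Agent.H17LG.Variety (FunField ratio)
open Pool.Agent.H17R (gen gen_eq_zero_iff ratio_self coordFun_ne_zero_iff)
open Pool.Agent.H7.Bir (aeval_comp aeval_div funIso exists_quot vals rmap)
open Pool.Agent.H19OL (alg_of_trdeg adjoin_self)

variable {N M : ℕ}

/-- The equation of the ratio `X i / X j` over the function field of the image. -/
theorem exists_eq_aux {P : Ideal (MvPolynomial (Fin (N + 1)) ℂ)} [P.IsPrime] {P' : Ideal (MvPolynomial (Fin (M + 1)) ℂ)}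
    [P'.IsPrime] {k : ℕ} {z : Fin k → FunField P} (hz : IsTranscendenceBasis ℂ z) {z' : Fin k → FunField P'}
    (hz' : IsTranscendenceBasis ℂ z') {D : ℕ} {γ : Fin (N + 1) → MvPolynomial (Fin (M + 1)) ℂ} (hγ : ∀ i, (γ i).IsHomogeneous D)
    (hmaps : ∀ n Q, Q.IsHomogeneous n → (aeval γ Q ∈ P' ↔ Q ∈ P)) {i₀ : Fin (N + 1)} (hi₀ : X i₀ ∉ P)
    {j : Fin (M + 1)} (hj : X j ∉ P') (i : Fin (M + 1)) :
    ∃ (m D₁ : ℕ) (α : Fin (m + 1) → MvPolynomial (Fin (N + 1)) ℂ), (∀ l, (α l).IsHomogeneous D₁) ∧ α (Fin.last m) ∉ P ∧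
      ∑ l : Fin (m + 1), aeval γ (α l) * X i ^ (l : ℕ) * X j ^ (m - (l : ℕ)) ∈ P' := by
  have hcj : coordFun P' j ≠ 0 := coordFun_ne_zero_iff.2 hj
  set η : Fin (M + 1) → FunField P' := fun i => ratio P' i j with hη
  have hη1 : η j = 1 := ratio_self hcj
  have hγ₀ : γ i₀ ∉ P' := by
    intro h
    apply hi₀
    rw [← hmaps 1 _ (isHomogeneous_X ℂ i₀), aeval_X]
    exact h
  have hc : aeval η (γ i₀) ≠ 0 := fun h0 => hγ₀ ((gen_eq_zero_iff hcj (hγ i₀)).1 h0)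
  set x : Fin (N + 1) → FunField P' := fun i => aeval η (γ i) / aeval η (γ i₀) with hx
  have hx1 : x i₀ = 1 := div_self hc
  have hcomp : ∀ (n : ℕ) (R : MvPolynomial (Fin (N + 1)) ℂ), R.IsHomogeneous n →
      aeval η (aeval γ R) = aeval η (γ i₀) ^ n * aeval x R := by
    intro n R hR
    rw [aeval_comp, aeval_div hR hc]
  have hker : ∀ (n : ℕ) (G : MvPolynomial (Fin (N + 1)) ℂ), G.IsHomogeneous n → (aeval x G = 0 ↔ G ∈ P) := by
    intro n G hG
    rw [← hmaps n G hG, ← gen_eq_zero_iff hcj (hG.aeval γ hγ)]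
    change _ ↔ aeval η (aeval γ G) = 0
    rw [hcomp n G hG, mul_eq_zero]
    exact ⟨Or.inr, fun h => h.resolve_left (pow_ne_zero _ hc)⟩
  -- the subfield generated by the coordinates of the image
  set F : IntermediateField ℂ (FunField P') := IntermediateField.adjoin ℂ (Set.range x) with hF
  set x' : Fin (N + 1) → F := fun i => ⟨x i, IntermediateField.subset_adjoin ℂ _ ⟨i, rfl⟩⟩ with hx'
  have hadj : IntermediateField.adjoin ℂ (Set.range x') = ⊤ := adjoin_self x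
  have hval : ∀ G : MvPolynomial (Fin (N + 1)) ℂ, ((aeval x' G : F) : FunField P') = aeval x G := by
    intro G
    have h1 := DFunLike.congr_fun (MvPolynomial.comp_aeval x' F.val) G
    exact h1
  have hx'1 : x' i₀ = 1 := Subtype.ext hx1
  obtain ⟨e⟩ := funIso (coordFun_ne_zero_iff.2 hi₀) hx'1 hadj fun n G hG => by
    rw [← hker n G hG, ← hval G]
    exact Subtype.ext_iff
  have halg : Algebra.IsAlgebraic F (FunField P') := alg_of_trdeg (e.isTranscendenceBasis hz) hz'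
  -- the equation
  set s : FunField P' := η i with hs
  have hint : IsIntegral F s := (halg.isAlgebraic s).isIntegral
  set p := minpoly F s with hp
  set m := p.natDegree with hm
  obtain ⟨D₁, α, hα, hα0, hα1⟩ := exists_quot hx'1 hadj (fun i : Fin (m + 1) => p.coeff (i : ℕ)) (j' := Fin.last m) (by
    have h1 := minpoly.monic hint
    exact h1)
  have hα0' : aeval x (α (Fin.last m)) ≠ 0 := by
    rw [← hval]
    exact fun h => hα0 (Subtype.ext h)
  have hrel : ∑ i : Fin (m + 1), aeval x (α i) * s ^ (i : ℕ) = 0 := by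
    have h1 := minpoly.aeval F s
    rw [Polynomial.aeval_eq_sum_range, ← Fin.sum_univ_eq_sum_range (fun i => p.coeff i • s ^ i)] at h1
    have h2 : ∀ i : Fin (m + 1), aeval x (α i) * s ^ (i : ℕ) = aeval x (α (Fin.last m)) * (p.coeff (i : ℕ) • s ^ (i : ℕ)) := by
      intro i
      have h3 := congrArg (fun t : F => (t : FunField P')) (hα1 i)
      simp only [MulMemClass.coe_mul, hval] at h3
      rw [← h3, Algebra.smul_def]
      change _ = _ * (((p.coeff (i : ℕ) : F) : FunField P') * _)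
      ring
    have h4 : ∑ i : Fin (m + 1), aeval x (α (Fin.last m)) * (p.coeff (i : ℕ) • s ^ (i : ℕ)) =
        aeval x (α (Fin.last m)) * ∑ i : Fin (m + 1), p.coeff (i : ℕ) • s ^ (i : ℕ) := (Finset.mul_sum _ _ _).symm
    rw [Finset.sum_congr rfl fun i _ => h2 i, h4, h1, mul_zero]
  refine ⟨m, D₁, α, hα, fun h => hα0' ((hker D₁ _ (hα _)).2 h), ?_⟩
  -- the form
  set G : MvPolynomial (Fin (M + 1)) ℂ := ∑ l : Fin (m + 1), aeval γ (α l) * X i ^ (l : ℕ) * X j ^ (m - (l : ℕ)) with hG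
  have hGhom : G.IsHomogeneous (D * D₁ + m) := by
    refine IsHomogeneous.sum _ _ _ fun l _ => ?_
    have h1 := ((((hα l).aeval γ hγ).mul ((isHomogeneous_X ℂ i).pow (l : ℕ))).mul ((isHomogeneous_X ℂ j).pow (m - l)))
    have h2 : D * D₁ + 1 * (l : ℕ) + 1 * (m - l) = D * D₁ + m := by
      have h3 : (l : ℕ) ≤ m := Nat.lt_succ_iff.1 l.2
      omega
    rw [h2] at h1
    exact h1
  rw [← gen_eq_zero_iff hcj hGhom]
  change aeval η G = 0
  rw [hG, map_sum]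
  have h1 : ∀ l : Fin (m + 1), aeval η (aeval γ (α l) * X i ^ (l : ℕ) * X j ^ (m - (l : ℕ))) =
      aeval η (γ i₀) ^ D₁ * (aeval x (α l) * s ^ (l : ℕ)) := by
    intro l
    rw [map_mul, map_mul, map_pow, map_pow, aeval_X, aeval_X, hη1, one_pow, mul_one, hcomp D₁ _ (hα l)]
    ring
  have h2 : ∑ l : Fin (m + 1), aeval η (γ i₀) ^ D₁ * (aeval x (α l) * s ^ (l : ℕ)) =
      aeval η (γ i₀) ^ D₁ * ∑ l : Fin (m + 1), aeval x (α l) * s ^ (l : ℕ) := (Finset.mul_sum _ _ _).symm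
  rw [Finset.sum_congr rfl fun l _ => h1 l, h2, hrel, mul_zero]

variable {P : Ideal (MvPolynomial (Fin (N + 1)) ℂ)} {P' : Ideal (MvPolynomial (Fin (M + 1)) ℂ)} {s s' : ℕ}
  {G : Fin s → MvPolynomial (Fin (N + 1)) ℂ} {G' : Fin s' → MvPolynomial (Fin (M + 1)) ℂ} {p : PN M → PN N}

end Pool.Agent.H7.Qup

end
end

section

/-!
# G3 X KpE: the coordinates exist

`ψ` from `Pool.Agent.H62.BU.local_inverse` for `κ` at `0` (`IsCoord.an`, `inj`).  Choose `r₁ > 0` such that `ψ` is analytic and `κ (ψ y) = y` for `y ∈ ball p r₁`; then `R > 0` such that for `q ∈ ball 0 R`: `κ` is analytic at `q`, `ψ (κ q) = q`, `IsCoord.mem_iff`, `κ q ∈ ball p (min r₁ (δ / 2))` (`δ` from `Lat.disc`):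
then `κ q - κ q' ∈ Λ` has norm `< δ`, so it is `0` and `q = ψ (κ q) = q'`.  `r₀`: `ψ y ∈ ball 0 R` for `y ∈ ball p r₀`, `r₀ ≤ r₁` (continuity of `ψ` at `p`, `ψ p = 0`).
-/

set_option autoImplicit false

open Topology Filter Metric

namespace Pool.Agent.GX

open Pool.Agent.H36.BP (EN fs wd)
open Pool.Agent.H14.PP (IsCone CurveAt Tan)
open Pool.Agent.H62.EF (MN pr)
open Pool.Agent.AD (Vd Chart Charts IsGerm)
open Pool.Agent.TG (TMap Lat tl nm IsStr IsNC IsCoord Geo VForm ms Str IsPrim Cap IRel II TransAt Gd Cst DV fr tc)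

variable {N k : ℕ}

variable {X : Set (EN N)} {Λ : AddSubgroup (Vd (k + 1))} {u : EN N → Vd (k + 1)} {D B : Set (Vd (k + 1))}
  {κ ψ : Vd (k + 1) → Vd (k + 1)} {R : ℝ} {g : ℂ → Fin k → ℂ} {Γ₀ : AddSubgroup ℂ} {s : ℝ}

theorem exists_kp (G : Geo X Λ u D B) {p : Vd (k + 1)} (hκ : IsCoord D κ p) :
    ∃ (ψ : Vd (k + 1) → Vd (k + 1)) (R r₀ : ℝ), Kp X Λ u D κ ψ R ∧ 0 < r₀ ∧
      ∀ y ∈ ball p r₀, AnalyticAt ℂ ψ y ∧ ψ y ∈ ball (0 : Vd (k + 1)) R ∧ κ (ψ y) = y := by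
  have hκ0 : κ 0 = p := hκ.zero
  obtain ⟨ψ, hψ, hψκ, hκψ, hψ0⟩ := Pool.Agent.H62.BU.local_inverse hκ.an fun v hv => hκ.inj (by rw [hv, map_zero])
  rw [hκ0] at hψ hκψ hψ0
  obtain ⟨δ, hδ, hΛ⟩ := G.lat.disc
  -- a ball around `p`
  have hS : ∀ᶠ y in 𝓝 p, AnalyticAt ℂ ψ y ∧ ∀ᶠ y' in 𝓝 y, κ (ψ y') = y' := hψ.eventually_analyticAt.and (eventually_eventually_nhds.mpr hκψ)
  obtain ⟨r₁, hr₁, hb₁⟩ := Metric.mem_nhds_iff.mp hS
  -- a ball around `0`
  have hκc : Tendsto κ (𝓝 0) (𝓝 p) := by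
    have := hκ.an.continuousAt.tendsto
    rwa [hκ0] at this
  have hQ : ∀ᶠ q in 𝓝 (0 : Vd (k + 1)), AnalyticAt ℂ κ q ∧ ψ (κ q) = q ∧ (κ q ∈ D ↔ q 0 = 0) ∧ κ q ∈ ball p (min r₁ (δ / 2)) := by
    filter_upwards [hκ.an.eventually_analyticAt, hψκ, hκ.mem_iff, hκc.eventually (ball_mem_nhds p (lt_min hr₁ (half_pos hδ)))] with q h1 h2 h3 h4
    exact ⟨h1, h2, h3, h4⟩
  obtain ⟨R, hR, hbR⟩ := Metric.mem_nhds_iff.mp hQ
  -- the radius `r₀`
  have hψc : Tendsto ψ (𝓝 p) (𝓝 0) := by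
    have := hψ.continuousAt.tendsto
    rwa [hψ0] at this
  obtain ⟨r₂, hr₂, hb₂⟩ := Metric.mem_nhds_iff.mp (hψc.eventually (ball_mem_nhds (0 : Vd (k + 1)) hR))
  refine ⟨ψ, R, min r₁ r₂, ?_, lt_min hr₁ hr₂, ?_⟩
  · have hbd : ∀ q ∈ ball (0 : Vd (k + 1)) R, κ q ∈ ball p r₁ := fun q hq => ball_subset_ball (min_le_left _ _) (hbR hq).2.2.2
    exact
      { cone := G.cone
        charts := G.charts
        tor := G.tor
        lat := G.lat
        sub := G.sub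
        pos := hR
        κ_an := fun q hq => (hbR hq).1
        ψ_an := fun q hq => (hb₁ (hbd q hq)).1
        ψ_κ := fun q hq => (hbR hq).2.1
        κ_ψ := fun q hq => (hb₁ (hbd q hq)).2
        inj := by
          intro q hq q' hq' hqq
          have h1 : ‖κ q - p‖ < δ / 2 := by
            have := (mem_ball.mp (hbR hq).2.2.2).trans_le (min_le_right _ _)
            rwa [dist_eq_norm] at this
          have h2 : ‖κ q' - p‖ < δ / 2 := by
            have := (mem_ball.mp (hbR hq').2.2.2).trans_le (min_le_right _ _)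
            rwa [dist_eq_norm] at this
          have h3 : ‖κ q - κ q'‖ < δ := by
            have h4 : κ q - κ q' = (κ q - p) - (κ q' - p) := by abel
            rw [h4]
            have := norm_sub_le (κ q - p) (κ q' - p)
            linarith
          have h4 : κ q = κ q' := sub_eq_zero.mp (hΛ _ hqq h3)
          rw [← (hbR hq).2.1, ← (hbR hq').2.1, h4]
        mem_iff := fun q hq => (hbR hq).2.2.1 }
  · intro y hy
    have h1 := hb₁ (ball_subset_ball (min_le_left _ _) hy)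
    exact ⟨h1.1, hb₂ (ball_subset_ball (min_le_right _ _) hy), h1.2.self_of_nhds⟩

end Pool.Agent.GX

end

section

/-!
# G3 X IIa: the integral is holomorphic along an arc

Port of `Pool.Agent.TGY.II_analytic_on` (`TG/Y/Jan.lean`): `A` a primitive of the coefficient in `χ` (`TG.exists_prim` in `TG/Prm.lean`), near `z₀` the function is `(A (χ.q (H z)) - A (χ.q (F z))) / ρ ^ (k + 1)` by `TG.II_eq` (`γ z ∈ closedBall (γ z₀) r`, `dist (pr (F z)) (pr (F z₀)) + ε ≤ r`).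
-/

set_option autoImplicit false

open Topology Filter Metric

namespace Pool.Agent.GX

open Pool.Agent.H36.BP (EN fs wd)
open Pool.Agent.H14.PP (IsCone CurveAt Tan)
open Pool.Agent.H62.EF (MN pr)
open Pool.Agent.AD (Vd Chart Charts IsGerm)
open Pool.Agent.TG (TMap Lat tl nm IsStr IsNC IsCoord Geo VForm ms Str IsPrim Cap IRel II TransAt Gd Cst DV tc)

variable {N k : ℕ}

variable {X : Set (EN N)} {Λ : AddSubgroup (Vd (k + 1))} {u : EN N → Vd (k + 1)} {D B : Set (Vd (k + 1))}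
  {κ ψ : Vd (k + 1) → Vd (k + 1)} {R : ℝ} {g : ℂ → Fin k → ℂ} {Γ₀ : AddSubgroup ℂ} {s : ℝ}

theorem II_arc (hX : IsCone X) (hu : TMap X Λ u) (hΛ : Lat Λ) {α : VForm X Λ u} {ε r : ℝ} {γ : ℂ → Vd (k + 1)} {F H : ℂ → EN N} {z₀ : ℂ}
    (hγ : ContinuousAt γ z₀) (hF : AnalyticAt ℂ F z₀) (hH : AnalyticAt ℂ H z₀) (hF' : ∀ᶠ z in 𝓝 z₀, F z ∈ X ∧ u (F z) - γ z ∈ Λ)
    (hH' : ∀ᶠ z in 𝓝 z₀, H z ∈ X ∧ u (H z) - γ z ∈ Λ) {χ : Chart (k + 2) X} {c : Vd (k + 1)} {ρ : ℝ} (hc : Cap Λ u χ c ρ (γ z₀) (pr (F z₀)) r)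
    (hr : ε < r) (hrel : ∀ᶠ z in 𝓝 z₀, ∃ v, IRel α ε (γ z) (pr (F z)) (pr (H z)) v) :
    AnalyticAt ℂ (fun z => II α ε (γ z) (pr (F z)) (pr (H z))) z₀ := by
  obtain ⟨A, hA⟩ := Pool.Agent.TG.exists_prim α χ hc.str
  obtain ⟨v₀, hv₀⟩ := hrel.self_of_nhds
  obtain ⟨-, -, hfg⟩ := hv₀.mem
  have hε : 0 ≤ ε := dist_nonneg.trans hfg
  have hr0 : 0 < r := lt_of_le_of_lt hε hr
  obtain ⟨hFX, hFu⟩ := hF'.self_of_nhds
  obtain ⟨hHX, hHu⟩ := hH'.self_of_nhds
  have hF0 : F z₀ ≠ 0 := fun h => hX.zero_notMem (h ▸ hFX)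
  have hsub : closedBall (0 : Vd (k + 2)) 1 ⊆ ball (0 : Vd (k + 2)) 2 := closedBall_subset_ball (by norm_num)
  have hy₀r : γ z₀ ∈ closedBall (γ z₀) r := mem_closedBall_self hr0.le
  obtain ⟨hFU, hFq, -⟩ := hc.cap (γ z₀) hy₀r (F z₀) hFX hFu (by rw [dist_self]; exact hr0.le)
  obtain ⟨hHU, hHq, -⟩ := hc.cap (γ z₀) hy₀r (H z₀) hHX hHu (hfg.trans hr.le)
  have a1 : AnalyticAt ℂ (fun z => A (χ.q (F z))) z₀ :=
    AnalyticAt.comp (f := fun z => χ.q (F z)) (g := A) (hA.an _ (hsub hFq))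
      (AnalyticAt.comp (f := F) (g := χ.q) (χ.q_an _ hFU) hF)
  have a2 : AnalyticAt ℂ (fun z => A (χ.q (H z))) z₀ :=
    AnalyticAt.comp (f := fun z => χ.q (H z)) (g := A) (hA.an _ (hsub hHq))
      (AnalyticAt.comp (f := H) (g := χ.q) (χ.q_an _ hHU) hH)
  have hρ : (ρ : ℂ) ^ (k + 1) ≠ 0 := by
    have := hc.str.pos
    exact pow_ne_zero _ (by exact_mod_cast this.ne')
  have a3 : AnalyticAt ℂ (fun z => (A (χ.q (H z)) - A (χ.q (F z))) / (ρ : ℂ) ^ (k + 1)) z₀ := (a2.sub a1).div analyticAt_const hρ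
  refine a3.congr ?_
  have e3 : ∀ᶠ z in 𝓝 z₀, γ z ∈ closedBall (γ z₀) r := hγ.eventually (closedBall_mem_nhds _ hr0)
  have e4 : ∀ᶠ z in 𝓝 z₀, dist (pr (F z)) (pr (F z₀)) < r - ε := by
    have h1 : ContinuousAt (fun z => pr (F z)) z₀ := ContinuousAt.comp (f := F) (g := pr)
      (Pool.Agent.H62.EF.continuousAt_pr hF0) hF.continuousAt
    exact h1.eventually (ball_mem_nhds _ (by linarith))
  filter_upwards [e3, e4, hrel, hF', hH'] with z h3 h4 h5 h6 h7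
  exact (Pool.Agent.TG.II_eq hX hu hΛ h5 hc hA h3 (by linarith) h6.1 h7.1 rfl rfl).symm

end Pool.Agent.GX

end
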