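import Pool.Agent.H94.G5T.M09
import Pool.Agent.H94.G5T.M12
import Pool.Agent.H94.G5T.M30
import Pool.Agent.H94.G5T.M38
import Pool.Agent.H94.G5T.M39
import Pool.Agent.H94.G5T.M40

/-! The parts of this file: H13.CV.Lgt, H13.CV.Dx, AD.F.Max, H36.BP.SubD, H17R.Point, H13.SM.Homog, H13.SM.Grad_1, H7.Bir.Alg. -/

section

/-!
# CV Lgt: pluricanonical forms

`pole_mul_pow`: `ω = g • η`, `0 ≤ ord (h * g ^ 1)`; the same `g`, `η`: `f * h ^ m * g ^ m = f * (h * g) ^ m`.
`lgt_of_forms`: in the definition of `IsLogGeneralType` take `r = 1`, `f = ![f₀, f₁]`.  `K` is finite over `ℂ(f₁ / f₀)` (`hK.fin`), so it is algebraic over `ℂ(f₀ / f₀, f₁ / f₀)`.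
-/

set_option autoImplicit false

open Pool.Agent.H23.Fano (PrimeDivisorOver Form regularForms)
open Pool.Agent.H17LG.Variety (PoleAtMost IsLogGeneralType)

noncomputable section

namespace Pool.Agent.H13.CV

variable {K : Type} [Field K] [Algebra ℂ K]

theorem pole_mul_pow {E : Place K} {h f : K} {ω : Form K 1} {m p : ℕ} (hh : PoleAtMost 0 E 1 h ω) (hf : 0 ≤ E.ord f + p) : PoleAtMost p E m (f * h ^ m) ω := by
  obtain ⟨g, η, hη, hω, h0⟩ := hh
  refine ⟨g, η, hη, hω, ?_⟩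
  have h1 : (0 : WithTop ℤ) ≤ E.ord (h * g) := by
    simpa using h0
  have h2 : f * h ^ m * g ^ m = f * (h * g) ^ m := by
    rw [mul_pow, mul_assoc]
  have h3 : (0 : WithTop ℤ) ≤ E.ord ((h * g) ^ m) := by
    rw [E.ord.map_pow]
    exact nsmul_nonneg h1 m
  rw [h2, E.ord.map_mul]
  calc (0 : WithTop ℤ) ≤ E.ord f + p := hf
    _ = E.ord f + 0 + p := by rw [add_zero]
    _ ≤ E.ord f + E.ord ((h * g) ^ m) + p := by
      gcongr

/-- two pluricanonical forms with a non-constant ratio -/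
theorem lgt_of_forms (hK : CurveField K) {B : Place K → Prop} {ω : Form K 1} (hω : ω ≠ 0) {m : ℕ} (hm : 1 ≤ m) {f₀ f₁ : K} (hf₀ : f₀ ≠ 0)
    (htr : Transcendental ℂ (f₁ / f₀)) (h₀ : ∀ E, (¬ B E → PoleAtMost 0 E m f₀ ω) ∧ (B E → PoleAtMost m E m f₀ ω))
    (h₁ : ∀ E, (¬ B E → PoleAtMost 0 E m f₁ ω) ∧ (B E → PoleAtMost m E m f₁ ω)) : IsLogGeneralType B := by
  refine ⟨m, hm, ω, hω, 1, ![f₀, f₁], by simpa using hf₀, ?_, ?_⟩
  · intro i E
    fin_cases i
    · exact h₀ E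
    · exact h₁ E
  · have he : IntermediateField.adjoin ℂ (Set.range fun i : Fin (1 + 1) => (![f₀, f₁] : Fin 2 → K) i / (![f₀, f₁] : Fin 2 → K) 0)
        = IntermediateField.adjoin ℂ {f₁ / f₀} := by
      apply le_antisymm
      · rw [IntermediateField.adjoin_le_iff]
        rintro _ ⟨i, rfl⟩
        fin_cases i
        · have : (f₀ / f₀ : K) ∈ IntermediateField.adjoin ℂ {f₁ / f₀} := by
            rw [div_self hf₀]
            exact one_mem _
          simpa using this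
        · have : (f₁ / f₀ : K) ∈ IntermediateField.adjoin ℂ {f₁ / f₀} :=
            IntermediateField.subset_adjoin _ _ rfl
          simpa using this
      · apply IntermediateField.adjoin.mono
        rintro _ rfl
        exact ⟨1, by simp⟩
    rw [he]
    have := hK.fin _ htr
    exact Algebra.IsAlgebraic.of_finite _ _

end Pool.Agent.H13.CV

end
end

section

/-!
# CV Dx: the order of the differential of a function

`Form K 1` is the exterior power `⋀¹ Ω_{K/ℂ}`, `Form.mk c a = c • ιMulti (d (a 0))` (`Pool/Agent/H23/Fano.lean`); `Form.mk c a` is additive in `d (a 0)` and `K`-linear in it.  (`Form K 1 ≃ Ω_{K/ℂ}`: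
`exteriorPower.oneEquiv`; `exteriorPower.ιMulti` is multilinear: `AlternatingMap.map_update_smul`, `map_update_add` for `Fin 1`.)
`mk_ne_zero`: see e.g. `Pool/Agent/H62/FC/NotLGT.lean`, `Pool/Agent/H23/Forms.lean`: `d x ≠ 0` for a transcendental element in characteristic `0`: there is a derivation `D` of `K` over `ℂ` with `D x = 1`
(Mathlib: `Differential`... or the library: look for `exists_derivation`, `IsTranscendenceBasis` basis of `Ω`, `Pool.Agent.H23` `mem_regularForms_iff`, `dualDer`).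
`mk_inv`: `d x = - x² d (x⁻¹)` (`Derivation.leibniz_inv`).
`exists_eta`: let `oz E t = 1`, `e = oz E x` (may be negative), `u = x * t ^ (-e)` of order `0`: `x = t ^ e * u`, `d x = t ^ (e - 1) • (e u d t + t d u)`, and `η = e u d t + t d u` is a sum of two
generators of `regularForms`.
`pole_mk`: with `g = t ^ (e - 1)`: `0 ≤ oz E h + m * (e - 1) + p`.
-/

set_option autoImplicit false

open Pool.Agent.H23.Fano (PrimeDivisorOver Form regularForms)
open Pool.Agent.H17LG.Variety (PoleAtMost IsLogGeneralType)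

noncomputable section

namespace Pool.Agent.H13.CV

variable {K : Type} [Field K] [Algebra ℂ K]

/-- the form `dx` -/
def dx (x : K) : Form K 1 := Form.mk 1 fun _ => x

/-- a differential as a form -/
private def tf : Ω[K⁄ℂ] →ₗ[K] Form K 1 :=
  ((exteriorPower.oneEquiv K Ω[K⁄ℂ]).symm : Ω[K⁄ℂ] →ₗ[K] ⋀[K]^1 Ω[K⁄ℂ])

private lemma tf_inj : Function.Injective (tf : Ω[K⁄ℂ] →ₗ[K] Form K 1) :=
  (exteriorPower.oneEquiv K Ω[K⁄ℂ]).symm.injective

private lemma mk_eq (c x : K) :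
    Form.mk c (fun _ : Fin 1 => x) = tf (c • KaehlerDifferential.D ℂ K x) := by
  rw [map_smul]
  have h : (exteriorPower.ιMulti K 1 (fun _ : Fin 1 => KaehlerDifferential.D ℂ K x) :
      ⋀[K]^1 Ω[K⁄ℂ]) =
      (exteriorPower.oneEquiv K Ω[K⁄ℂ]).symm (KaehlerDifferential.D ℂ K x) := by
    rw [LinearEquiv.eq_symm_apply, exteriorPower.oneEquiv_ιMulti]
  exact congrArg (fun w : ⋀[K]^1 Ω[K⁄ℂ] => c • w) h

private lemma dx_eq (x : K) : dx x = tf (KaehlerDifferential.D ℂ K x) := by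
  rw [dx, mk_eq, one_smul]

theorem dx_sub_const (x : K) (c : ℂ) : dx (x - algebraMap ℂ K c) = dx x := by
  rw [dx_eq, dx_eq, map_sub, Derivation.map_algebraMap, sub_zero]

theorem dx_ne_zero {x : K} (hx : Transcendental ℂ x) : dx x ≠ 0 := by
  obtain ⟨t, hst, ht⟩ := exists_isTranscendenceBasis_superset (R := ℂ) (s := ({x} : Set K))
    (algebraicIndependent_unique_type_iff.mpr hx)
  obtain ⟨b, hb⟩ := Pool.Agent.H23.exists_basis_kaehler ht
  have h1 := hb ⟨x, hst rfl⟩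
  rw [dx_eq]
  intro h
  have h2 : KaehlerDifferential.D ℂ K x = 0 := tf_inj (h.trans (map_zero _).symm)
  exact b.ne_zero ⟨x, hst rfl⟩ (h1.trans h2)

theorem exists_eta (E : Place K) {x : K} (hx : x ≠ 0) :
    ∃ (t : K) (η : Form K 1), t ≠ 0 ∧ oz E t = 1 ∧ η ∈ regularForms 1 E.localRing ∧ dx x = t ^ (oz E x - 1) • η := by
  obtain ⟨t, ht, h1⟩ := exists_uni E
  set e : ℤ := oz E x with he
  set u : K := x * t ^ (-e) with hu
  have hte : t ^ (-e) ≠ 0 := zpow_ne_zero _ ht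
  have hu0 : u ≠ 0 := mul_ne_zero hx hte
  have hou : oz E u = 0 := by
    rw [hu, oz_mul E hx hte, oz_zpow, h1]
    omega
  have hxu : x = t ^ e * u := by
    rw [hu, mul_left_comm, ← zpow_add₀ ht, add_neg_cancel, zpow_zero, mul_one]
  have hru : 0 ≤ E.ord u := nonneg_iff.2 (Or.inr hou.ge)
  have hrt : 0 ≤ E.ord t := nonneg_iff.2 (Or.inr (by omega))
  have hre : 0 ≤ E.ord (((e : ℂ) • u : K)) := by
    rw [Algebra.smul_def]
    exact nonneg_mul (const_nonneg E _) hru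
  refine ⟨t, Form.mk t (fun _ => u) + Form.mk ((e : ℂ) • u) (fun _ => t), ht, h1, ?_, ?_⟩
  · refine AddSubgroup.add_mem _ (AddSubgroup.subset_closure ?_) (AddSubgroup.subset_closure ?_)
    · exact ⟨t, fun _ => u, hrt, fun _ => hru, rfl⟩
    · exact ⟨(e : ℂ) • u, fun _ => t, hre, fun _ => hrt, rfl⟩
  · rw [mk_eq, mk_eq, ← map_add, ← map_smul, dx_eq]
    congr 1
    conv_lhs => rw [hxu]
    rw [Derivation.leibniz, Derivation.leibniz_zpow, smul_add, smul_smul, smul_smul]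
    have h2 : t ^ (e - 1) * t = t ^ e := by
      rw [← zpow_add_one₀ ht, sub_add_cancel]
    rw [h2]
    congr 1
    rw [← Int.cast_smul_eq_zsmul K, smul_smul, smul_smul]
    congr 1
    rw [Algebra.smul_def, map_intCast]
    ring

/-- a sufficient condition for `h dx ^ m` to have a pole of order at most `p` at `E` -/
theorem pole_mk (E : Place K) {x h : K} (hx : x ≠ 0) {m p : ℕ} (hh : h = 0 ∨ 0 ≤ oz E h + m * (oz E x - 1) + p) : PoleAtMost p E m h (dx x) := by
  obtain ⟨t, η, ht, h1, hη, hd⟩ := exists_eta E hx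
  refine ⟨t ^ (oz E x - 1), η, hη, hd, ?_⟩
  rcases hh with hh | hh
  · rw [hh, zero_mul, E.ord.map_zero]
    exact le_of_le_of_eq le_top (WithTop.top_add _).symm
  · by_cases h0 : h = 0
    · rw [h0, zero_mul, E.ord.map_zero]
      exact le_of_le_of_eq le_top (WithTop.top_add _).symm
    have hg : (t ^ (oz E x - 1)) ^ m ≠ 0 := pow_ne_zero _ (zpow_ne_zero _ ht)
    rw [← coe_oz E (mul_ne_zero h0 hg), oz_mul E h0 hg, oz_pow, oz_zpow, h1, mul_one]
    have h2 : ((p : ℕ) : WithTop ℤ) = (((p : ℤ)) : WithTop ℤ) := by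
      push_cast
      rfl
    rw [h2, ← WithTop.coe_add]
    exact WithTop.coe_le_coe.2 hh

end Pool.Agent.H13.CV

end
end

section

/-!
# AD F Max: maximum principles

* `vel_mul_not_isLocalMax`: let `h` be analytic at `z₀`, `|h z₀| = u z₀` and `|h z| exp(c'|z - z₀|²) ≤ u z` near `z₀`, with `c' = c / 2`.  Let `Φ` be a
  primitive of `1 / h` near `z₀` with `Φ z₀ = 0` and `φ` its inverse near `0` (`φ' = h ∘ φ`).  Then
  `vel (F ∘ φ) w = |h (φ w)| vel F (φ w)` (`vel_comp`).  If `vel F * u` had a local maximum at `z₀`, then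
  `vel (F ∘ φ) w ≤ vel (F ∘ φ) 0 * exp(-c'|φ w - z₀|²)` near `0`, which is `< vel (F ∘ φ) 0` for `w ≠ 0`: this contradicts
  `PseudoLength.curved` (sub-mean value property of the square) on a small circle around `0`.
* `vel_mul_le`: multiply `u` by `exp(δ|z|²)` (`Sub.mul`, `Sub.exp_sq`), use the first item at a maximum on the compact set `S`, let `δ → 0`.
* `sub_le`: the same without `vel` (`H36.BP.max_principle`).
-/

set_option autoImplicit false

open Topology Filter Metric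

namespace Pool.Agent.AD.F

open Pool.Agent.H36.BP (EN fs wd Sub Curve)

variable {N : ℕ} {X : Set (EN N)}

private theorem Max_exp_sub {u : ℂ → ℝ} {z₀ : ℂ} (h : Sub u z₀ 0) (δ : ℝ) : Sub (fun z => u z * Real.exp (δ * ‖z‖ ^ 2)) z₀ δ := by
  have h1 := h.mul (Sub.exp_sq (t := fun z : ℂ => z) (z₀ := z₀) analyticAt_id δ)
  have h2 : deriv (fun z : ℂ => z) z₀ = 1 := deriv_id z₀
  rw [h2, norm_one, one_pow, mul_one, zero_add] at h1
  exact h1

private theorem Max_small {A B R : ℝ} (hAB : A < B) : ∃ δ : ℝ, 0 < δ ∧ A * Real.exp (δ * R ^ 2) < B := by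
  have h1 : Tendsto (fun δ : ℝ => A * Real.exp (δ * R ^ 2)) (𝓝 0) (𝓝 (A * Real.exp (0 * R ^ 2))) := by
    have : Continuous fun δ : ℝ => A * Real.exp (δ * R ^ 2) := by fun_prop
    exact this.continuousAt.tendsto
  rw [zero_mul, Real.exp_zero, mul_one] at h1
  have h2 : ∀ᶠ δ in 𝓝[>] (0 : ℝ), A * Real.exp (δ * R ^ 2) < B :=
    (h1.eventually (gt_mem_nhds hAB)).filter_mono nhdsWithin_le_nhds
  obtain ⟨δ, h3, h4⟩ := (h2.and eventually_mem_nhdsWithin).exists
  exact ⟨δ, h4, h3⟩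

/-- weak maximum principle for `u` -/
theorem sub_le {S U : Set ℂ} (hS : IsCompact S) (hU : IsOpen U) (hUS : U ⊆ S) {u : ℂ → ℝ} (hu : ContinuousOn u S)
    (hsub : ∀ z ∈ U, 0 < u z → Sub u z 0) {A : ℝ} (hA : 0 ≤ A) (hbd : ∀ z ∈ S \ U, u z ≤ A) : ∀ z ∈ S, u z ≤ A := by
  intro z₁ hz₁
  by_contra hlt
  push Not at hlt
  obtain ⟨R, hR⟩ := hS.isBounded.exists_norm_le
  obtain ⟨δ, hδ, hδ1⟩ := Max_small (R := R) hlt
  have hcont : ContinuousOn (fun z => u z * Real.exp (δ * ‖z‖ ^ 2)) S := by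
    refine hu.mul ?_
    exact Continuous.continuousOn (by fun_prop)
  have h1 := Pool.Agent.H36.BP.max_principle hS hU hUS (u := fun z => u z * Real.exp (δ * ‖z‖ ^ 2)) hcont.upperSemicontinuousOn
    (fun z hz h => ⟨δ, hδ, Max_exp_sub (hsub z hz (by
      by_contra h2
      push Not at h2
      have h3 : u z * Real.exp (δ * ‖z‖ ^ 2) ≤ 0 := mul_nonpos_of_nonpos_of_nonneg h2 (Real.exp_pos _).le
      have h' : 0 < u z * Real.exp (δ * ‖z‖ ^ 2) := h
      linarith)) δ⟩) (A := A * Real.exp (δ * R ^ 2)) (by positivity) (fun z hz => by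
      show u z * Real.exp (δ * ‖z‖ ^ 2) ≤ A * Real.exp (δ * R ^ 2)
      have h2 := hbd z hz
      calc u z * Real.exp (δ * ‖z‖ ^ 2) ≤ A * Real.exp (δ * ‖z‖ ^ 2) := mul_le_mul_of_nonneg_right h2 (Real.exp_pos _).le
        _ ≤ A * Real.exp (δ * R ^ 2) := by
          refine mul_le_mul_of_nonneg_left (Real.exp_le_exp.2 ?_) hA
          have := hR z hz.1
          gcongr) z₁ hz₁
  have h2 : u z₁ ≤ u z₁ * Real.exp (δ * ‖z₁‖ ^ 2) :=
    le_mul_of_one_le_right (hA.trans hlt.le) (Real.one_le_exp (by positivity))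
  have h1' : u z₁ * Real.exp (δ * ‖z₁‖ ^ 2) ≤ A * Real.exp (δ * R ^ 2) := h1
  linarith

end Pool.Agent.AD.F

end

section

/-!
# BP SubD: functions of the real part of a holomorphic function

* `of_re`: `w = w₀ + (w - w₀)`, `ψ(x) ≥ ψ(x₀) + ψ₁ (x - x₀) + (ψ₂/2 - δ)(x - x₀)²` near `x₀ = Re w₀`, `(Re ζ)² = |ζ|²/2 + Re(ζ²)/2`; support
  `exp(ψ(x₀) + ψ₁ (w - w₀) + (ψ₂/4 - δ/2)(w - w₀)²)`, exponent `(ψ₂/4 - δ/2)|w'|²` up to `o(1)`.
* `log_rpow`: `w = log z` (a branch near `z₀`), `ψ(x) = -r log(-x)`, `ψ'' = r/x²`.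
* `gain`: `s z₀ ≠ 0`: `w = log s`, `ψ(x) = e log(1 + M exp(2kx))`, `ψ'' = e 4k² M exp(2kx)/(1 + M exp(2kx))²`.
* `gain_zero`: `s z₀ = 0`, `s'(z₀) ≠ 0`, `0 < k < 1/2`.. every exponent: `(1 + M|s|^(2k))^e ≥ 1 + e' |z - z₀|^(2k) ≥ exp(c'|z - z₀|²)` near `z₀` (`k < 1`).
-/

set_option autoImplicit false

namespace Pool.Agent.H36.BP

open Filter Topology Metric

variable {N : ℕ}

private theorem SubD_slope {w : ℂ → ℂ} {z₀ : ℂ} (hw : AnalyticAt ℂ w z₀) {κ c' : ℝ}
    (h : c' < κ * ‖deriv w z₀‖ ^ 2) :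
    ∀ᶠ z in 𝓝 z₀, c' * ‖z - z₀‖ ^ 2 ≤ κ * ‖w z - w z₀‖ ^ 2 := by
  have h1 := (hasDerivAt_iff_tendsto_slope.1 hw.differentiableAt.hasDerivAt)
  have h2 : Tendsto (fun z => κ * ‖slope w z₀ z‖ ^ 2) (𝓝[≠] z₀) (𝓝 (κ * ‖deriv w z₀‖ ^ 2)) :=
    (h1.norm.pow 2).const_mul κ
  have h3 := eventually_nhdsWithin_iff.1 (h2.eventually_const_lt h)
  filter_upwards [h3] with z hz
  by_cases hzz : z = z₀
  · rw [hzz, sub_self, sub_self, norm_zero]
    simp
  · have h4 := hz hzz
    have h5 : 0 < ‖z - z₀‖ := norm_pos_iff.2 (sub_ne_zero.2 hzz)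
    have h6 : ‖slope w z₀ z‖ = ‖z - z₀‖⁻¹ * ‖w z - w z₀‖ := by
      rw [slope_def_module, norm_smul, norm_inv]
    rw [h6] at h4
    have h7 : κ * (‖z - z₀‖⁻¹ * ‖w z - w z₀‖) ^ 2 * ‖z - z₀‖ ^ 2 = κ * ‖w z - w z₀‖ ^ 2 := by
      field_simp
    rw [← h7]
    exact mul_le_mul_of_nonneg_right h4.le (by positivity)

theorem Sub.of_re {w : ℂ → ℂ} {z₀ : ℂ} (hw : AnalyticAt ℂ w z₀) {ψ : ℝ → ℝ} {ψ₁ ψ₂ : ℝ}
    (h : ∀ δ : ℝ, 0 < δ → ∀ᶠ x in 𝓝 (w z₀).re, ψ (w z₀).re + ψ₁ * (x - (w z₀).re) + (ψ₂ / 2 - δ) * (x - (w z₀).re) ^ 2 ≤ ψ x) :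
    Sub (fun z => Real.exp (ψ (w z).re)) z₀ (ψ₂ / 4 * ‖deriv w z₀‖ ^ 2) := by
  refine ⟨Real.exp_pos _, fun c' hc' => ?_⟩
  obtain ⟨δ, hδ, hδc⟩ : ∃ δ : ℝ, 0 < δ ∧ c' < (ψ₂ / 4 - δ / 2) * ‖deriv w z₀‖ ^ 2 := by
    refine ⟨(ψ₂ / 4 * ‖deriv w z₀‖ ^ 2 - c') / (‖deriv w z₀‖ ^ 2 + 1),
      div_pos (by linarith) (by positivity), ?_⟩
    have h1 : 0 < ‖deriv w z₀‖ ^ 2 + 1 := by positivity
    have h2 : (ψ₂ / 4 * ‖deriv w z₀‖ ^ 2 - c') / (‖deriv w z₀‖ ^ 2 + 1) * ‖deriv w z₀‖ ^ 2 ≤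
        ψ₂ / 4 * ‖deriv w z₀‖ ^ 2 - c' := by
      rw [div_mul_eq_mul_div, div_le_iff₀ h1]
      have h3 : 0 < ψ₂ / 4 * ‖deriv w z₀‖ ^ 2 - c' := by linarith
      nlinarith
    linarith
  have hsl := SubD_slope hw hδc
  have hcont : Tendsto (fun z => (w z).re) (𝓝 z₀) (𝓝 (w z₀).re) :=
    (Complex.continuous_re.continuousAt.comp hw.continuousAt).tendsto
  refine ⟨fun z => Complex.exp ((ψ (w z₀).re : ℂ) + (ψ₁ : ℂ) * (w z - w z₀) +
    ((ψ₂ / 4 - δ / 2 : ℝ) : ℂ) * (w z - w z₀) ^ 2), ?_, ?_, ?_⟩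
  · have h1 : AnalyticAt ℂ (fun z => w z - w z₀) z₀ := hw.sub analyticAt_const
    exact ((analyticAt_const.add (analyticAt_const.mul h1)).add
      (analyticAt_const.mul (h1.pow 2))).cexp
  · show ‖Complex.exp ((ψ (w z₀).re : ℂ) + (ψ₁ : ℂ) * (w z₀ - w z₀) +
      ((ψ₂ / 4 - δ / 2 : ℝ) : ℂ) * (w z₀ - w z₀) ^ 2)‖ = Real.exp (ψ (w z₀).re)
    rw [Complex.norm_exp, sub_self, mul_zero, add_zero, zero_pow two_ne_zero, mul_zero, add_zero,
      Complex.ofReal_re]
  · filter_upwards [hsl, hcont.eventually (h δ hδ)] with z hz1 hz2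
    rw [Complex.norm_exp, ← Real.exp_add, Real.exp_le_exp]
    refine le_trans ?_ hz2
    obtain ⟨ζ, hζ⟩ : ∃ ζ : ℂ, w z - w z₀ = ζ := ⟨_, rfl⟩
    have h1 : (w z).re - (w z₀).re = ζ.re := by rw [← hζ, Complex.sub_re]
    have h2 : ((ψ (w z₀).re : ℂ) + (ψ₁ : ℂ) * ζ + ((ψ₂ / 4 - δ / 2 : ℝ) : ℂ) * ζ ^ 2).re =
        ψ (w z₀).re + ψ₁ * ζ.re + (ψ₂ / 4 - δ / 2) * (ζ.re ^ 2 - ζ.im ^ 2) := by
      rw [Complex.add_re, Complex.add_re, Complex.re_ofReal_mul, Complex.re_ofReal_mul,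
        Complex.ofReal_re, sq ζ, Complex.mul_re]
      ring
    have h3 : ‖ζ‖ ^ 2 = ζ.re ^ 2 + ζ.im ^ 2 := by
      rw [Complex.sq_norm, Complex.normSq_apply]
      ring
    rw [hζ] at hz1 ⊢
    rw [h1, h2]
    rw [h3] at hz1
    nlinarith

/-- Peano form of Taylor's theorem for `Sub.of_re` -/
theorem peano {ψ ψ' : ℝ → ℝ} {x₀ ψ₂ : ℝ} (h : ∀ᶠ x in 𝓝 x₀, HasDerivAt ψ (ψ' x) x) (h2 : HasDerivAt ψ' ψ₂ x₀) :
    ∀ δ : ℝ, 0 < δ → ∀ᶠ x in 𝓝 x₀, ψ x₀ + ψ' x₀ * (x - x₀) + (ψ₂ / 2 - δ) * (x - x₀) ^ 2 ≤ ψ x := by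
  intro δ hδ
  have h3 : ∀ᶠ x in 𝓝 x₀, ‖ψ' x - ψ' x₀ - (x - x₀) • ψ₂‖ ≤ 2 * δ * ‖x - x₀‖ :=
    (hasDerivAt_iff_isLittleO.1 h2).def (by linarith)
  obtain ⟨ε, hε, hball⟩ := Metric.eventually_nhds_iff_ball.1 (h.and h3)
  have hF : ∀ x ∈ Metric.ball x₀ ε, HasDerivAt (fun x => ψ x - ψ' x₀ * (x - x₀) -
      (ψ₂ / 2 - δ) * (x - x₀) ^ 2) (ψ' x - ψ' x₀ - (ψ₂ - 2 * δ) * (x - x₀)) x := by
    intro x hx
    have e1 := (hball x hx).1
    have e2 : HasDerivAt (fun x : ℝ => x - x₀) 1 x := (hasDerivAt_id x).sub_const x₀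
    have e3 := (e1.sub (e2.const_mul (ψ' x₀))).sub ((e2.pow 2).const_mul (ψ₂ / 2 - δ))
    refine e3.congr_deriv ?_
    simp only [Nat.cast_ofNat]
    ring
  have hF0 : (fun x => ψ x - ψ' x₀ * (x - x₀) - (ψ₂ / 2 - δ) * (x - x₀) ^ 2) x₀ = ψ x₀ := by
    simp
  filter_upwards [Metric.ball_mem_nhds x₀ hε] with x hx
  have hx' : |x - x₀| < ε := by rwa [Metric.mem_ball, Real.dist_eq] at hx
  rcases lt_trichotomy x x₀ with hlt | heq | hgt
  · have hsub : ∀ y ∈ Set.Icc x x₀, y ∈ Metric.ball x₀ ε := by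
      intro y hy
      rw [Metric.mem_ball, Real.dist_eq, abs_lt]
      rw [abs_lt] at hx'
      constructor <;> linarith [hy.1, hy.2]
    obtain ⟨c, hc, hceq⟩ := exists_hasDerivAt_eq_slope (fun x => ψ x - ψ' x₀ * (x - x₀) -
      (ψ₂ / 2 - δ) * (x - x₀) ^ 2) (fun x => ψ' x - ψ' x₀ - (ψ₂ - 2 * δ) * (x - x₀)) hlt
      (fun y hy => (hF y (hsub y hy)).continuousAt.continuousWithinAt)
      (fun y hy => hF y (hsub y ⟨hy.1.le, hy.2.le⟩))
    have hb := (hball c (hsub c ⟨hc.1.le, hc.2.le⟩)).2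
    rw [Real.norm_eq_abs, Real.norm_eq_abs, abs_of_neg (by linarith [hc.2] : c - x₀ < 0),
      abs_le, smul_eq_mul] at hb
    have hneg : ψ' c - ψ' x₀ - (ψ₂ - 2 * δ) * (c - x₀) ≤ 0 := by linarith [hb.2]
    rw [eq_div_iff (by linarith : x₀ - x ≠ 0)] at hceq
    have hprod := mul_nonpos_of_nonpos_of_nonneg hneg (by linarith : (0 : ℝ) ≤ x₀ - x)
    rw [hceq] at hprod
    nlinarith
  · rw [heq]
    simp
  · have hsub : ∀ y ∈ Set.Icc x₀ x, y ∈ Metric.ball x₀ ε := by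
      intro y hy
      rw [Metric.mem_ball, Real.dist_eq, abs_lt]
      rw [abs_lt] at hx'
      constructor <;> linarith [hy.1, hy.2]
    obtain ⟨c, hc, hceq⟩ := exists_hasDerivAt_eq_slope (fun x => ψ x - ψ' x₀ * (x - x₀) -
      (ψ₂ / 2 - δ) * (x - x₀) ^ 2) (fun x => ψ' x - ψ' x₀ - (ψ₂ - 2 * δ) * (x - x₀)) hgt
      (fun y hy => (hF y (hsub y hy)).continuousAt.continuousWithinAt)
      (fun y hy => hF y (hsub y ⟨hy.1.le, hy.2.le⟩))
    have hb := (hball c (hsub c ⟨hc.1.le, hc.2.le⟩)).2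
    rw [Real.norm_eq_abs, Real.norm_eq_abs, abs_of_pos (by linarith [hc.1] : 0 < c - x₀),
      abs_le, smul_eq_mul] at hb
    have hpos : 0 ≤ ψ' c - ψ' x₀ - (ψ₂ - 2 * δ) * (c - x₀) := by linarith [hb.1]
    rw [eq_div_iff (by linarith : x - x₀ ≠ 0)] at hceq
    have hprod := mul_nonneg hpos (by linarith : (0 : ℝ) ≤ x - x₀)
    rw [hceq] at hprod
    nlinarith

/-- a branch of the logarithm of `s` near a point where `s` does not vanish -/
private theorem SubD_log {s : ℂ → ℂ} {z₀ : ℂ} (hs : AnalyticAt ℂ s z₀) (h0 : s z₀ ≠ 0) :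
    ∃ w : ℂ → ℂ, AnalyticAt ℂ w z₀ ∧ (∀ᶠ z in 𝓝 z₀, (w z).re = Real.log ‖s z‖ ∧ s z ≠ 0) ∧
      (w z₀).re = Real.log ‖s z₀‖ ∧ deriv w z₀ = deriv s z₀ / s z₀ := by
  have hdiv : AnalyticAt ℂ (fun z => s z / s z₀) z₀ := hs.div analyticAt_const h0
  have hsl : s z₀ / s z₀ ∈ Complex.slitPlane := by
    rw [div_self h0]
    exact Complex.one_mem_slitPlane
  have hre : ∀ z, s z ≠ 0 → (Complex.log (s z / s z₀) + (Real.log ‖s z₀‖ : ℂ)).re =
      Real.log ‖s z‖ := by
    intro z hz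
    rw [Complex.add_re, Complex.log_re, Complex.ofReal_re, norm_div,
      Real.log_div (norm_ne_zero_iff.2 hz) (norm_ne_zero_iff.2 h0)]
    ring
  have hne : ∀ᶠ z in 𝓝 z₀, s z ≠ 0 := hs.continuousAt.eventually_ne h0
  refine ⟨fun z => Complex.log (s z / s z₀) + (Real.log ‖s z₀‖ : ℂ),
    (hdiv.clog hsl).add analyticAt_const, ?_, hre z₀ h0, ?_⟩
  · filter_upwards [hne] with z hz
    exact ⟨hre z hz, hz⟩
  · have h1 : HasDerivAt (fun z => s z / s z₀) (deriv s z₀ / s z₀) z₀ :=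
      hs.differentiableAt.hasDerivAt.div_const _
    have h2 := (h1.clog hsl).add_const (Real.log ‖s z₀‖ : ℂ)
    rw [h2.deriv, div_self h0, div_one]

theorem Sub.log_rpow {z₀ : ℂ} (h0 : z₀ ≠ 0) (h1 : ‖z₀‖ < 1) {r : ℝ} (hr : 0 ≤ r) :
    Sub (fun z => Real.log (1 / ‖z‖) ^ (-r)) z₀ (r / (4 * ‖z₀‖ ^ 2 * Real.log (1 / ‖z₀‖) ^ 2)) := by
  obtain ⟨w, hw, hw1, hw2, hw3⟩ := SubD_log (s := fun z => z) analyticAt_id h0
  have hpos : 0 < ‖z₀‖ := norm_pos_iff.2 h0
  have hx0 : Real.log ‖z₀‖ < 0 := Real.log_neg hpos h1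
  have hψ : ∀ᶠ x in 𝓝 (Real.log ‖z₀‖), HasDerivAt (fun x : ℝ => -r * Real.log (-x)) (-r / x) x := by
    filter_upwards [eventually_lt_nhds hx0] with x hx
    have e1 : HasDerivAt (fun x : ℝ => -x) (-1) x := hasDerivAt_neg x
    have e2 := (e1.log (by linarith : -x ≠ 0)).const_mul (-r)
    refine e2.congr_deriv ?_
    have hxne : x ≠ 0 := hx.ne
    field_simp
  have hψ2 : HasDerivAt (fun x : ℝ => -r / x) (r / Real.log ‖z₀‖ ^ 2) (Real.log ‖z₀‖) := by
    have e1 := (hasDerivAt_inv hx0.ne).const_mul (-r)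
    refine e1.congr_deriv ?_
    field_simp
  have hp := peano hψ hψ2
  have hre := Sub.of_re (ψ := fun x : ℝ => -r * Real.log (-x)) (ψ₁ := -r / Real.log ‖z₀‖)
    (ψ₂ := r / Real.log ‖z₀‖ ^ 2) hw (by
      intro δ hδ
      rw [hw2]
      exact hp δ hδ)
  have hval : r / Real.log ‖z₀‖ ^ 2 / 4 * ‖deriv w z₀‖ ^ 2 =
      r / (4 * ‖z₀‖ ^ 2 * Real.log (1 / ‖z₀‖) ^ 2) := by
    rw [hw3, deriv_id'', norm_div, norm_one, one_div ‖z₀‖, Real.log_inv, neg_sq]
    have := hx0.ne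
    field_simp
  rw [hval] at hre
  refine hre.congr ?_
  have hcont : ∀ᶠ z in 𝓝 z₀, ‖z‖ < 1 := (continuous_norm.tendsto z₀).eventually_lt_const h1
  filter_upwards [hw1, hcont] with z hz1 hz2
  have hz3 : 0 < ‖z‖ := norm_pos_iff.2 hz1.2
  have hz4 : 0 < Real.log (1 / ‖z‖) := Real.log_pos (by rw [lt_div_iff₀ hz3, one_mul]; exact hz2)
  rw [hz1.1, Real.rpow_def_of_pos hz4, one_div, Real.log_inv]
  congr 1
  ring

end Pool.Agent.H36.BP

end

section

/-!
# The generic point and the centre of a prime divisor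

The generic point of the variety given by `P` in the affine coordinates `x i / x i₀` is
`fun i => ratio P i i₀`.

PROOFS.  `ratio_point`: as `Pool.Agent.H92.GT.Proj.proj_point` (the point constructed there is
`fun i => ratio P i i₀`).
`ratio_change`: `ratio P i i₀ = ratio P i₁ i₀ * ratio P i i₁`, then `aeval_scale`.
`exists_center`: among the `i` with `ratio P i i₀ ≠ 0` choose `i₁` with `E.ord (ratio P i i₀)`
minimal.
`ord_forms`: `X i₁ ^ n ≡ ∑ j, c j * A j` modulo `P` (`exists_degree_bound`), evaluate at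
`ratio P · i₁` (`ratio P i₁ i₁ = 1`): `1 = ∑ j, c j (..) * A j (..)`; if all `A j (..)` had positive
order then `0 = ord 1 > 0`.
-/

open MvPolynomial
open Pool.Agent.H17GT (coordFun functionField)
open Pool.Agent.H17LG.Variety (FunField ratio)
open Pool.Agent.H23.Fano (PrimeDivisorOver)

noncomputable section

namespace Pool.Agent.H17R

variable {N : ℕ} {P : Ideal (MvPolynomial (Fin (N + 1)) ℂ)}

/-- The value of `Q` at the generic point, in the affine coordinates `x i / x i₀`. -/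
def gen (P : Ideal (MvPolynomial (Fin (N + 1)) ℂ)) [P.IsPrime] (i₀ : Fin (N + 1))
    (Q : MvPolynomial (Fin (N + 1)) ℂ) : FunField P :=
  aeval (fun i => ratio P i i₀) Q

theorem ratio_self [P.IsPrime] {i₀ : Fin (N + 1)} (h : coordFun P i₀ ≠ 0) : ratio P i₀ i₀ = 1 := by
  apply Subtype.ext
  exact div_self h

theorem adjoin_ratio [P.IsPrime] {i₀ : Fin (N + 1)} (h : coordFun P i₀ ≠ 0) :
    IntermediateField.adjoin ℂ (Set.range fun i => ratio P i i₀) = ⊤ := by
  classical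
  set x : Fin (N + 1) → functionField P := fun i => ratio P i i₀ with hx
  have hratio : ∀ i j, ((x i / x j : functionField P) :
      FractionRing (MvPolynomial (Fin (N + 1)) ℂ ⧸ P)) = coordFun P i / coordFun P j := by
    intro i j
    have h1 : ((x i / x j : functionField P) :
      FractionRing (MvPolynomial (Fin (N + 1)) ℂ ⧸ P)) =
        (coordFun P i / coordFun P i₀) / (coordFun P j / coordFun P i₀) := by
      rw [hx]
      rfl
    rw [h1, div_div_div_cancel_right₀ h]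
  have hgen : IntermediateField.adjoin ℂ {y | ∃ i j, y = x i / x j} = ⊤ := by
    rw [← IntermediateField.lift_inj, IntermediateField.lift_adjoin, IntermediateField.lift_top]
    conv_rhs => rw [functionField]
    congr 1
    ext y
    constructor
    · rintro ⟨y', ⟨i, j, rfl⟩, rfl⟩
      exact ⟨i, j, hratio i j⟩
    · rintro ⟨i, j, rfl⟩
      exact ⟨x i / x j, ⟨i, j, rfl⟩, hratio i j⟩
  change IntermediateField.adjoin ℂ (Set.range x) = ⊤
  rw [eq_top_iff, ← hgen, IntermediateField.adjoin_le_iff]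
  rintro y ⟨i, j, rfl⟩
  exact div_mem (IntermediateField.subset_adjoin _ _ ⟨i, rfl⟩)
    (IntermediateField.subset_adjoin _ _ ⟨j, rfl⟩)

theorem gen_eq_zero_iff [P.IsPrime] {i₀ : Fin (N + 1)} (h : coordFun P i₀ ≠ 0) {n : ℕ}
    {Q : MvPolynomial (Fin (N + 1)) ℂ} (hQ : Q.IsHomogeneous n) : gen P i₀ Q = 0 ↔ Q ∈ P := by
  set x : Fin (N + 1) → functionField P := fun i => ratio P i i₀ with hx
  have h0 : gen P i₀ Q = (aeval x Q : functionField P) := rfl
  have h1 : ((aeval x Q : functionField P) : FractionRing (MvPolynomial (Fin (N + 1)) ℂ ⧸ P)) =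
      aeval (fun i => (coordFun P i₀)⁻¹ * coordFun P i) Q := by
    have h3 : ((functionField P).val (aeval x Q)) =
        aeval (fun i => (functionField P).val (x i)) Q := by
      rw [← MvPolynomial.comp_aeval]
      rfl
    change (functionField P).val (aeval x Q) = _
    rw [h3]
    congr 2
    funext i
    change coordFun P i / coordFun P i₀ = _
    rw [div_eq_inv_mul]
  rw [Pool.Agent.H92.GT.Proj.aeval_scale hQ] at h1
  rw [← Pool.Agent.H92.GT.Proj.aeval_coordFun_eq_zero_iff, h0]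
  constructor
  · intro h2
    have h3 : ((aeval x Q : functionField P) :
        FractionRing (MvPolynomial (Fin (N + 1)) ℂ ⧸ P)) = 0 := by
      rw [show (aeval x Q : functionField P) = 0 from h2]
      rfl
    rw [h3] at h1
    exact (mul_eq_zero.1 h1.symm).resolve_left (pow_ne_zero _ (inv_ne_zero h))
  · intro h2
    apply Subtype.ext
    rw [h1, h2, mul_zero]
    rfl

theorem coordFun_ne_zero_iff [P.IsPrime] {i : Fin (N + 1)} : coordFun P i ≠ 0 ↔ X i ∉ P := by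
  rw [Ne, not_iff_not, ← Pool.Agent.H92.GT.Proj.aeval_coordFun_eq_zero_iff, aeval_X]

end Pool.Agent.H17R

end
end

section

/-!
# The affine part of the cone of a homogeneous prime ideal

PROOF of `mem_pts_iff`.  Write `a i = ratio P i l`, so `aeval a Q = gen P l Q` and `a l = 1`
(`ratio_self`).
(→) `aeval a (X l - 1) = 0` gives `w l = 1`.  For `Q ∈ P` its components `Q_d` are in `P` (`Homog P`), so
`gen P l Q_d = 0` (`gen_eq_zero_iff`) and `aeval a Q = ∑ aeval a Q_d = 0`; hence `eval w Q = 0`.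
(←) Let `aeval a R = 0`, `D = R.totalDegree` and `R' = ∑ d ∈ range (D + 1), X l ^ (D - d) * R_d`
(`R_d = homogeneousComponent d R`), homogeneous of degree `D`.  Since `a l = 1`,
`gen P l R' = ∑ aeval a R_d = aeval a R = 0`, so `R' ∈ P` (`gen_eq_zero_iff`), and
`0 = eval w R' = ∑ w l ^ (D - d) * eval w R_d = eval w R` since `w l = 1`
(`MvPolynomial.sum_homogeneousComponent`).

PROOF of `euler`.  For the component `Q_d ∈ P`: `∑ x i * eval x (pderiv i Q_d) = d * eval x Q_d = 0`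
(`IsHomogeneous.sum_X_mul_pderiv`); sum over `d`.
-/

open MvPolynomial
open Pool.Agent.H17GT (coordFun functionField)
open Pool.Agent.H17LG.Variety (FunField ratio)
open Pool.Agent.H62.FC (Homog)

noncomputable section

namespace Pool.Agent.H13.SM

variable {N : ℕ} {P : Ideal (MvPolynomial (Fin (N + 1)) ℂ)}

private theorem hg_smul {d : ℕ} {Q : MvPolynomial (Fin (N + 1)) ℂ} (hQ : Q.IsHomogeneous d) (c : ℂ)
    (x : Fin (N + 1) → ℂ) : eval (c • x) Q = c ^ d * eval x Q := by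
  rw [eval_eq', eval_eq', Finset.mul_sum]
  refine Finset.sum_congr rfl fun m hm => ?_
  have h1 : ∏ i, (c • x) i ^ m i = c ^ d * ∏ i, x i ^ m i := by
    simp only [Pi.smul_apply, smul_eq_mul, mul_pow, Finset.prod_mul_distrib]
    rw [Finset.prod_pow_eq_pow_sum]
    have h2 := hQ (mem_support_iff.1 hm)
    rw [Finsupp.weight_apply, Finsupp.sum_fintype _ _ (by simp)] at h2
    simp only [Pi.one_apply, smul_eq_mul, mul_one] at h2
    rw [h2]
  rw [h1]
  ring

theorem mem_pts_iff [P.IsPrime] (hP : Homog P) {l : Fin (N + 1)} (h : coordFun P l ≠ 0)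
    {w : Fin (N + 1) → ℂ} :
    w ∈ pts (fun i => ratio P i l) ↔ w l = 1 ∧ ∀ Q ∈ P, eval w Q = 0 := by
  have hll := Pool.Agent.H17R.ratio_self h
  constructor
  · intro hw
    refine ⟨?_, fun Q hQ => hw Q ?_⟩
    · have h1 := hw (X l - 1) (by rw [map_sub, aeval_X, map_one, hll, sub_self])
      rw [map_sub, eval_X, map_one, sub_eq_zero] at h1
      exact h1
    · rw [← sum_homogeneousComponent Q, map_sum]
      exact Finset.sum_eq_zero fun d _ =>
        (Pool.Agent.H17R.gen_eq_zero_iff h (homogeneousComponent_isHomogeneous d Q)).2 (hP Q hQ d)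
  · rintro ⟨hl, hw⟩ R hR
    have h1 : ∀ {B : Type} [CommRing B] [Algebra ℂ B] (φ : MvPolynomial (Fin (N + 1)) ℂ →ₐ[ℂ] B)
        (_ : φ (X l) = 1), φ (∑ d ∈ Finset.range (R.totalDegree + 1),
          X l ^ (R.totalDegree - d) * homogeneousComponent d R) = φ R := by
      intro B _ _ φ hφ
      conv_rhs => rw [← sum_homogeneousComponent R]
      rw [map_sum, map_sum]
      refine Finset.sum_congr rfl fun d _ => ?_
      rw [map_mul, map_pow, hφ, one_pow, one_mul]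
    have h2 : (∑ d ∈ Finset.range (R.totalDegree + 1),
        X l ^ (R.totalDegree - d) * homogeneousComponent d R).IsHomogeneous R.totalDegree := by
      refine IsHomogeneous.sum _ _ _ fun d hd => ?_
      have h3 := ((isHomogeneous_X ℂ l).pow (R.totalDegree - d)).mul
        (homogeneousComponent_isHomogeneous d R)
      have h4 := Finset.mem_range.1 hd
      rwa [one_mul, Nat.sub_add_cancel (by omega)] at h3
    have h3 := h1 (aeval fun i => ratio P i l) (by rw [aeval_X, hll])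
    have h4 := hw _ ((Pool.Agent.H17R.gen_eq_zero_iff h h2).1 (by
      unfold Pool.Agent.H17R.gen
      rw [h3, hR]))
    have h5 := h1 (aeval w : MvPolynomial (Fin (N + 1)) ℂ →ₐ[ℂ] ℂ) (by rw [aeval_X, hl])
    rw [← coe_aeval_eq_eval] at h4
    rw [← coe_aeval_eq_eval]
    exact h5.symm.trans h4

theorem euler (hP : Homog P) {x : Fin (N + 1) → ℂ} (hx : ∀ Q ∈ P, eval x Q = 0)
    {Q : MvPolynomial (Fin (N + 1)) ℂ} (hQ : Q ∈ P) : ∑ i, x i * eval x (pderiv i Q) = 0 := by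
  have h1 : ∀ d, ∑ i, x i * eval x (pderiv i (homogeneousComponent d Q)) = 0 := by
    intro d
    have h2 := congrArg (eval x) (homogeneousComponent_isHomogeneous d Q).sum_X_mul_pderiv
    rw [map_sum, map_nsmul, hx _ (hP Q hQ d), smul_zero] at h2
    simpa only [map_mul, eval_X] using h2
  rw [← sum_homogeneousComponent Q]
  simp only [map_sum, Finset.mul_sum]
  rw [Finset.sum_comm]
  exact Finset.sum_eq_zero fun d _ => h1 d

/-- The affine cone of `P` is a cone. -/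
theorem cone_smul (hP : Homog P) {x : Fin (N + 1) → ℂ} (hx : ∀ Q ∈ P, eval x Q = 0) (c : ℂ) :
    ∀ Q ∈ P, eval (c • x) Q = 0 := by
  intro Q hQ
  rw [← sum_homogeneousComponent Q, map_sum]
  refine Finset.sum_eq_zero fun d _ => ?_
  rw [hg_smul (homogeneousComponent_isHomogeneous d Q), hx _ (hP Q hQ d), mul_zero]

end Pool.Agent.H13.SM

end
end

section

/-!
# Gradients

`conTan P x` is the tangent space at `x` of the affine cone of `P`.

PROOF of `exists_indep`.  Let `G = span {∇Q(x) | Q ∈ P}` in `Fin (N + 1) → ℂ`.  `conTan P x` is its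
annihilator for the pairing `∑ i, v i * u i`, so `finrank G + finrank (conTan P x) = N + 1`
(`Submodule.finrank_add_finrank_dualAnnihilator_eq`, or rank-nullity: let `u_1, .., u_r` be a basis of
`G` among the `∇Q(x)`; `conTan P x` is the kernel of `v ↦ (∑ i, v i * u_k i)_k`, so
`N + 1 - r ≤ finrank (conTan P x) ≤ n + 1`, `N - n ≤ r`).  The gradients form a spanning set of `G`, so
it contains a basis (`exists_linearIndependent'` or `exists_linearIndependent_extension`); take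
`N - n` of its elements.

PROOF of `indep_snoc`.  Let `∑ j, c j • ∇(f j)(w) + e • single l 1 = 0`.  Apply the pairing with `w`:
`∑ i, w i * ∂_i (f j)(w) = 0` (`euler`) and `w l = 1`, so `e = 0`; then all `c j = 0`.  (Gradient of
`X l - 1` at `w` is `Pi.single l 1`.)
-/

open MvPolynomial
open Pool.Agent.H62.FC (Homog)

noncomputable section

namespace Pool.Agent.H13.SM

variable {N : ℕ} {P : Ideal (MvPolynomial (Fin (N + 1)) ℂ)}

theorem exists_indep {n : ℕ} {x : Fin (N + 1) → ℂ}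
    (h : Module.finrank ℂ (conTan P x) ≤ n + 1) :
    ∃ f : Fin (N - n) → MvPolynomial (Fin (N + 1)) ℂ, (∀ j, f j ∈ P) ∧
      LinearIndependent ℂ fun (j : Fin (N - n)) (i : Fin (N + 1)) => eval x (pderiv i (f j)) := by
  classical
  obtain ⟨b, hbS, hspan, hli⟩ := exists_linearIndependent ℂ
    {u : Fin (N + 1) → ℂ | ∃ Q ∈ P, (fun i => eval x (pderiv i Q)) = u}
  have hfin : Finite b := hli.finite
  have : Fintype b := Fintype.ofFinite b
  let φ : (Fin (N + 1) → ℂ) →ₗ[ℂ] (b → ℂ) :=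
    LinearMap.pi fun u => ∑ i, (u : Fin (N + 1) → ℂ) i • (LinearMap.proj i)
  have hφ : ∀ v (u : b), φ v u = ∑ i, (u : Fin (N + 1) → ℂ) i * v i := by
    intro v u
    simp [φ, LinearMap.sum_apply]
  have hker : LinearMap.ker φ ≤ conTan P x := by
    intro v hv Q hQ
    have hv' : ∀ u : b, ∑ i, (u : Fin (N + 1) → ℂ) i * v i = 0 := fun u => by
      rw [← hφ, LinearMap.mem_ker.mp hv, Pi.zero_apply]
    let ψ : (Fin (N + 1) → ℂ) →ₗ[ℂ] ℂ := ∑ i, v i • (LinearMap.proj i)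
    have hψ : ∀ u, ψ u = ∑ i, v i * u i := by
      intro u
      simp [ψ, LinearMap.sum_apply]
    have h1 : Submodule.span ℂ b ≤ LinearMap.ker ψ := by
      rw [Submodule.span_le]
      intro u hu
      rw [SetLike.mem_coe, LinearMap.mem_ker, hψ, ← hv' ⟨u, hu⟩]
      exact Finset.sum_congr rfl fun i _ => mul_comm _ _
    have h2 : (fun i => eval x (pderiv i Q)) ∈ Submodule.span ℂ b := by
      rw [hspan]
      exact Submodule.subset_span ⟨Q, hQ, rfl⟩
    have h3 := LinearMap.mem_ker.mp (h1 h2)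
    rwa [hψ] at h3
  have hrk := LinearMap.finrank_range_add_finrank_ker φ
  have h1 : Module.finrank ℂ (LinearMap.range φ) ≤ Fintype.card b := by
    have := Submodule.finrank_le (LinearMap.range φ)
    rwa [Module.finrank_fintype_fun_eq_card] at this
  have h2 := Submodule.finrank_mono hker
  rw [Module.finrank_fintype_fun_eq_card, Fintype.card_fin] at hrk
  have hcard : Fintype.card (Fin (N - n)) ≤ Fintype.card b := by
    rw [Fintype.card_fin]
    omega
  obtain ⟨e⟩ := Function.Embedding.nonempty_of_card_le hcard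
  choose g hg using fun u : b => hbS u.2
  refine ⟨fun j => g (e j), fun j => (hg (e j)).1, ?_⟩
  have h3 := hli.comp e e.injective
  have h4 : (fun (j : Fin (N - n)) (i : Fin (N + 1)) => eval x (pderiv i (g (e j)))) =
      (Subtype.val : b → Fin (N + 1) → ℂ) ∘ e := by
    funext j
    exact (hg (e j)).2
  rw [h4]
  exact h3

theorem indep_snoc (hP : Homog P) {w : Fin (N + 1) → ℂ} (hw : ∀ Q ∈ P, eval w Q = 0)
    {l : Fin (N + 1)} (hl : w l = 1) {c : ℕ} {f : Fin c → MvPolynomial (Fin (N + 1)) ℂ}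
    (hf : ∀ j, f j ∈ P)
    (hli : LinearIndependent ℂ fun (j : Fin c) (i : Fin (N + 1)) => eval w (pderiv i (f j))) :
    LinearIndependent ℂ fun (j : Fin (c + 1)) (i : Fin (N + 1)) =>
      eval w (pderiv i ((Fin.snoc f (X l - 1) : Fin (c + 1) → MvPolynomial (Fin (N + 1)) ℂ) j)) := by
  classical
  have h1 : (fun (j : Fin (c + 1)) (i : Fin (N + 1)) =>
      eval w (pderiv i ((Fin.snoc f (X l - 1) : Fin (c + 1) → MvPolynomial (Fin (N + 1)) ℂ) j))) =
      (Fin.snoc (fun (j : Fin c) (i : Fin (N + 1)) => eval w (pderiv i (f j)))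
        (Pi.single l 1 : Fin (N + 1) → ℂ) : Fin (c + 1) → Fin (N + 1) → ℂ) := by
    funext j
    refine Fin.lastCases ?_ (fun k => ?_) j
    · funext i
      rw [Fin.snoc_last, Fin.snoc_last, map_sub, pderiv_X, Pi.single_apply, Pi.single_apply]
      simp only [pderiv_one, sub_zero]
      by_cases h : i = l
      · rw [if_pos h.symm, if_pos h, map_one]
      · rw [if_neg fun h' => h h'.symm, if_neg h, map_zero]
    · funext i
      rw [Fin.snoc_castSucc, Fin.snoc_castSucc]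
  rw [h1, linearIndependent_finSnoc]
  refine ⟨hli, fun hmem => ?_⟩
  let ψ : (Fin (N + 1) → ℂ) →ₗ[ℂ] ℂ := ∑ i, w i • (LinearMap.proj i)
  have hψ : ∀ u, ψ u = ∑ i, w i * u i := by
    intro u
    simp [ψ, LinearMap.sum_apply]
  have h2 : Submodule.span ℂ (Set.range fun (j : Fin c) (i : Fin (N + 1)) =>
      eval w (pderiv i (f j))) ≤ LinearMap.ker ψ := by
    rw [Submodule.span_le]
    rintro _ ⟨j, rfl⟩
    rw [SetLike.mem_coe, LinearMap.mem_ker, hψ]
    exact euler hP hw (hf j)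
  have h3 := LinearMap.mem_ker.mp (h2 hmem)
  rw [hψ, Finset.sum_eq_single l] at h3
  · rw [Pi.single_eq_same, mul_one, hl] at h3
    exact one_ne_zero h3
  · intro i _ hi
    rw [Pi.single_eq_of_ne hi, mul_zero]
  · intro h
    exact absurd (Finset.mem_univ l) h

end Pool.Agent.H13.SM

end
end

section

/-!
# Bir Alg: birational maps and function fields

* `exists_form`: homogenisation.
* `funIso`: a generic point `x` of the variety of `Q`, with coordinates which generate the field `L`, gives `FunField Q ≃ L`.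
* `IsBir`: a birational map between the varieties of `P` and `P'`, given by forms.
* `exists_isBir`: it exists if the function fields are isomorphic.
* `exists_sub`: images of subvarieties.
-/

set_option autoImplicit false

open MvPolynomial

noncomputable section

namespace Pool.Agent.H7.Bir

open Pool.Agent.H17GT (coordFun functionField)
open Pool.Agent.H17LG.Variety (FunField ratio)
open Pool.Agent.H17R (gen gen_eq_zero_iff ratio_self adjoin_ratio coordFun_ne_zero_iff)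
open Pool.Agent.H92.GT.Proj (aeval_scale)

variable {N M : ℕ}

theorem exists_form (j : Fin (N + 1)) (p : MvPolynomial (Fin (N + 1)) ℂ) : ∃ D₀ : ℕ, ∀ D ≥ D₀,
    ∃ R : MvPolynomial (Fin (N + 1)) ℂ, R.IsHomogeneous D ∧
      ∀ (K : Type) [Field K] [Algebra ℂ K] (x : Fin (N + 1) → K), x j = 1 → aeval x R = aeval x p := by
  induction p using MvPolynomial.induction_on with
  | C c =>
    refine ⟨0, fun D _ => ⟨MvPolynomial.C c * X j ^ D, ?_, ?_⟩⟩
    · have h1 := (isHomogeneous_C (Fin (N + 1)) c).mul ((isHomogeneous_X ℂ j).pow D)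
      simpa using h1
    · intro K _ _ x hx
      simp [hx]
  | add p q hp hq =>
    obtain ⟨D₁, h1⟩ := hp
    obtain ⟨D₂, h2⟩ := hq
    refine ⟨max D₁ D₂, fun D hD => ?_⟩
    obtain ⟨R₁, h3, h4⟩ := h1 D ((le_max_left _ _).trans hD)
    obtain ⟨R₂, h5, h6⟩ := h2 D ((le_max_right _ _).trans hD)
    refine ⟨R₁ + R₂, h3.add h5, ?_⟩
    intro K _ _ x hx
    rw [map_add, map_add, h4 K x hx, h6 K x hx]
  | mul_X p i hp =>
    obtain ⟨D₁, h1⟩ := hp
    refine ⟨D₁ + 1, fun D hD => ?_⟩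
    obtain ⟨D', rfl⟩ : ∃ D', D = D' + 1 := ⟨D - 1, by omega⟩
    obtain ⟨R₁, h3, h4⟩ := h1 D' (by omega)
    refine ⟨R₁ * X i, h3.mul (isHomogeneous_X ℂ i), ?_⟩
    intro K _ _ x hx
    rw [map_mul, map_mul, h4 K x hx]

/-- Homogenisation of finitely many polynomials. -/
theorem exists_forms (j : Fin (N + 1)) {ι : Type} [Fintype ι] (p : ι → MvPolynomial (Fin (N + 1)) ℂ) : ∃ (D : ℕ)
    (R : ι → MvPolynomial (Fin (N + 1)) ℂ), (∀ i, (R i).IsHomogeneous D) ∧
      ∀ (K : Type) [Field K] [Algebra ℂ K] (x : Fin (N + 1) → K), x j = 1 → ∀ i, aeval x (R i) = aeval x (p i) := by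
  choose D₀ h using fun i => exists_form j (p i)
  choose R hR hR' using fun i => h i (∑ i, D₀ i) (Finset.single_le_sum (f := D₀) (fun i _ => Nat.zero_le _) (Finset.mem_univ i))
  exact ⟨∑ i, D₀ i, R, hR, fun K _ _ x hx i => hR' i K x hx⟩

open scoped IntermediateField.algebraAdjoinAdjoin in
/-- Finitely many elements of a field generated by `x` are quotients of forms in `x` with the same denominator. -/
theorem exists_quot {L : Type} [Field L] [Algebra ℂ L] {x : Fin (N + 1) → L} {j : Fin (N + 1)} (hx : x j = 1)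
    (hadj : IntermediateField.adjoin ℂ (Set.range x) = ⊤) (y : Fin (M + 1) → L) {j' : Fin (M + 1)} (hy : y j' = 1) :
    ∃ (D : ℕ) (α : Fin (M + 1) → MvPolynomial (Fin (N + 1)) ℂ), (∀ i, (α i).IsHomogeneous D) ∧ aeval x (α j') ≠ 0 ∧
      ∀ i, y i * aeval x (α j') = aeval x (α i) := by
  classical
  have hmem : ∀ i, y i ∈ IntermediateField.adjoin ℂ (Set.range x) := fun i => by
    rw [hadj]
    trivial
  obtain ⟨b, hb⟩ := IsLocalization.exist_integer_multiples_of_finset (nonZeroDivisors (Algebra.adjoin ℂ (Set.range x)))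
    (Finset.univ.image fun i => (⟨y i, hmem i⟩ : IntermediateField.adjoin ℂ (Set.range x)))
  have hpol : ∀ c : Algebra.adjoin ℂ (Set.range x), ∃ g : MvPolynomial (Fin (N + 1)) ℂ, aeval x g = (c : L) := by
    intro c
    obtain ⟨g, hg⟩ := (SetLike.ext_iff.1 (Algebra.adjoin_range_eq_range_aeval ℂ x) (c : L)).1 c.2
    exact ⟨g, hg⟩
  obtain ⟨q, hq⟩ := hpol b
  have hp : ∀ i, ∃ g : MvPolynomial (Fin (N + 1)) ℂ, aeval x g = y i * aeval x q := by
    intro i
    obtain ⟨c, hc⟩ := hb ⟨y i, hmem i⟩ (Finset.mem_image_of_mem _ (Finset.mem_univ i))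
    obtain ⟨g, hg⟩ := hpol c
    refine ⟨g, ?_⟩
    have h1 := congrArg Subtype.val hc
    rw [hg, hq, mul_comm]
    exact h1
  choose p hp using hp
  obtain ⟨D, α, hα, hα'⟩ := exists_forms j p
  have h1 : ∀ i, aeval x (α i) = y i * aeval x q := fun i => by rw [hα' L x hx i, hp]
  have h2 : aeval x q ≠ 0 := by
    rw [hq]
    intro h0
    exact nonZeroDivisors.ne_zero b.2 (Subtype.ext h0)
  refine ⟨D, α, hα, ?_, fun i => ?_⟩
  · rw [h1, hy, one_mul]
    exact h2
  · rw [h1, h1, hy, one_mul]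

open scoped IntermediateField.algebraAdjoinAdjoin in
theorem funIso {Q : Ideal (MvPolynomial (Fin (N + 1)) ℂ)} [Q.IsPrime] {j : Fin (N + 1)} (hj : coordFun Q j ≠ 0)
    {L : Type} [Field L] [Algebra ℂ L] {x : Fin (N + 1) → L} (hx : x j = 1)
    (hadj : IntermediateField.adjoin ℂ (Set.range x) = ⊤)
    (h : ∀ (n : ℕ) (G : MvPolynomial (Fin (N + 1)) ℂ), G.IsHomogeneous n → (aeval x G = 0 ↔ G ∈ Q)) :
    Nonempty (FunField Q ≃ₐ[ℂ] L) := by
  set ξ : Fin (N + 1) → FunField Q := fun i => ratio Q i j with hξ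
  have hker : RingHom.ker (aeval ξ : MvPolynomial (Fin (N + 1)) ℂ →ₐ[ℂ] FunField Q) =
      RingHom.ker (aeval x : MvPolynomial (Fin (N + 1)) ℂ →ₐ[ℂ] L) := by
    ext G
    rw [RingHom.mem_ker, RingHom.mem_ker]
    obtain ⟨D, h1⟩ := exists_form j G
    obtain ⟨R, h2, h3⟩ := h1 D le_rfl
    rw [← h3 _ ξ (ratio_self hj), ← h3 _ x hx, h D R h2]
    exact gen_eq_zero_iff hj h2
  have e1 : Algebra.adjoin ℂ (Set.range ξ) ≃ₐ[ℂ] Algebra.adjoin ℂ (Set.range x) :=
    (Subalgebra.equivOfEq _ _ (Algebra.adjoin_range_eq_range_aeval ℂ ξ)).trans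
      ((Ideal.quotientKerEquivRange (aeval ξ : MvPolynomial (Fin (N + 1)) ℂ →ₐ[ℂ] FunField Q)).symm.trans
        ((Ideal.quotientEquivAlgOfEq ℂ hker).trans
          ((Ideal.quotientKerEquivRange (aeval x : MvPolynomial (Fin (N + 1)) ℂ →ₐ[ℂ] L)).trans
            (Subalgebra.equivOfEq _ _ (Algebra.adjoin_range_eq_range_aeval ℂ x)).symm)))
  have e2 : IntermediateField.adjoin ℂ (Set.range ξ) ≃ₐ[ℂ] IntermediateField.adjoin ℂ (Set.range x) :=
    IsFractionRing.algEquivOfAlgEquiv e1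
  have e3 : IntermediateField.adjoin ℂ (Set.range ξ) ≃ₐ[ℂ] FunField Q :=
    (IntermediateField.equivOfEq (adjoin_ratio hj)).trans IntermediateField.topEquiv
  have e4 : IntermediateField.adjoin ℂ (Set.range x) ≃ₐ[ℂ] L :=
    (IntermediateField.equivOfEq hadj).trans IntermediateField.topEquiv
  exact ⟨e3.symm.trans (e2.trans e4)⟩

theorem aeval_comp {K : Type} [Field K] [Algebra ℂ K] (x : Fin (M + 1) → K) (γ : Fin (N + 1) → MvPolynomial (Fin (M + 1)) ℂ)
    (R : MvPolynomial (Fin (N + 1)) ℂ) : aeval x (aeval γ R) = aeval (fun i => aeval x (γ i)) R := by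
  rw [← AlgHom.comp_apply, MvPolynomial.comp_aeval]

theorem aeval_div {K : Type} [Field K] [Algebra ℂ K] {n : ℕ} {R : MvPolynomial (Fin (N + 1)) ℂ} (hR : R.IsHomogeneous n)
    {c : K} (hc : c ≠ 0) (y : Fin (N + 1) → K) : aeval y R = c ^ n * aeval (fun i => y i / c) R := by
  rw [← aeval_scale hR]
  congr 2
  funext i
  rw [mul_div_cancel₀ _ hc]

end Pool.Agent.H7.Bir

end
end
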