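import Pool.Agent.H94.G5T.M18
import Pool.Agent.H94.G5T.M22
import Pool.Agent.H94.G5T.M44
import Pool.Agent.H94.G5T.M47

/-! The parts of this file: H13.CV.RatB, G3.E.Defs, G4.E.EDefs, G3.C.XU. -/

section

/-!
# CV RatB: rational function fields

Let `K = ℂ(t)`; `t` is transcendental (`hK.exists_tr`: if `t` were algebraic then all elements of `K` would be algebraic).
(1) `mob`: `IntermediateField.adjoin ℂ {t'} = ⊤` for `t' = t - c`, `t⁻¹`, `c t` (`c ≠ 0`): `t` is in `adjoin ℂ {t'}`.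
(2) `oz_eq`: if `adjoin ℂ {s} = ⊤` then there is at most one place with `0 < ord s`, and `oz E s = 1` there (`sum_le` with `L = ⊤ = ℂ(s)`, `finrank ⊤ K = 1`, or with `T = {E}` and `T = {E, E'}`).  The same
for `ord s < 0` and `oz E s = -1` (`s⁻¹`).
(3) Given places `E₁ ≠ E₂` there is `s` with `adjoin ℂ {s} = ⊤`, `0 < ord_{E₁} s`, `ord_{E₂} s < 0`: replacing `t` by `t⁻¹` if necessary we may assume that `t` has a value `c₂` at `E₂` (`exists_value`), replacing it by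
`(t - c₂)⁻¹` we may assume that `ord_{E₂} t < 0`; by (2) `t` has no pole at `E₁`, so it has a value `c₁`: `s = t - c₁`.
(4) If all places in `B` are among two places `E₁, E₂`: if `E₁ ≠ E₂` take `t' = s` as in (3); if `E₁ = E₂` choose `t' = t - c` or `t` with `oz E₁ t' ≠ 0`.  If `B` is empty: `t' = t`.
(5) Otherwise there are three different places `E₁, E₂, E₃` in `B`.  `s` as in (3); at `E₃` it has no pole and no zero (2), so it has a value `c ≠ 0`; replace `s` by `s / c`, so that the value at `E₃` is `1`.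
`lgt_of_forms` with `m = 1`, `ω = dx s`, `f₀ = s⁻¹`, `f₁ = (s - 1)⁻¹`; `f₁ / f₀ = s / (s - 1)` is not a constant.  Check at a place `E` with `pole_mk` (`p = 1` in `B`, `p = 0` otherwise):
* `0 < ord s`: `E = E₁`, `oz E s = 1`, `oz E f₀ = -1`, `oz E f₁ = 0`: `-1 + (1 - 1) + 1 ≥ 0`.
* `ord s < 0`: `E = E₂`, `oz E s = -1`, `oz E f₀ = oz E f₁ = 1`: `1 + (-1 - 1) + 1 ≥ 0`.
* otherwise `s` has a value `c ≠ 0` at `E`; `dx s = dx (s - c)` (`dx_sub_const`) and `oz E (s - c) = 1` by (2).  If `c = 1` then `E = E₃` by (2) for `s - 1`: `oz E f₁ = -1`, `oz E f₀ = 0`: `-1 + 0 + 1 ≥ 0`.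
If `c ≠ 1`: `oz E f₀ = oz E f₁ = 0`.
-/

set_option autoImplicit false

open Pool.Agent.H23.Fano (PrimeDivisorOver Form regularForms)
open Pool.Agent.H17LG.Variety (PoleAtMost IsLogGeneralType)

noncomputable section

namespace Pool.Agent.H13.CV

variable {K : Type} [Field K] [Algebra ℂ K]

private lemma tr_of_top (hK : CurveField K) {t : K} (ht : IntermediateField.adjoin ℂ {t} = ⊤) : Transcendental ℂ t := by
  by_contra hal
  obtain ⟨c, hc⟩ : ∃ c : ℂ, t = algebraMap ℂ K c := by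
    by_contra h
    push Not at h
    exact hal (transcendental_of_not_const h)
  obtain ⟨x, hx⟩ := hK.exists_tr
  have h1 : IntermediateField.adjoin ℂ {t} = (⊥ : IntermediateField ℂ K) := by
    rw [IntermediateField.adjoin_simple_eq_bot_iff, IntermediateField.mem_bot]
    exact ⟨c, hc.symm⟩
  have h2 : x ∈ (⊥ : IntermediateField ℂ K) := by
    rw [← h1, ht]
    exact IntermediateField.mem_top
  rw [IntermediateField.mem_bot] at h2
  obtain ⟨d, hd⟩ := h2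
  exact hx (hd ▸ isAlgebraic_algebraMap d)

private lemma gen_top (hK : CurveField K) {t : K} (ht : IntermediateField.adjoin ℂ {t} = ⊤) : Gen (⊤ : IntermediateField ℂ K) t :=
  ⟨tr_of_top hK ht, ht.symm⟩

private lemma fin_top : FiniteDimensional (⊤ : IntermediateField ℂ K) K :=
  Module.finite_of_finrank_pos (by rw [IntermediateField.finrank_top]; norm_num)

private lemma one_le_oz {s : K} (hs : Gen (⊤ : IntermediateField ℂ K) s) {E : Place K} (hE : 0 < E.ord s) : 1 ≤ oz E s :=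
  (pos_iff.1 hE).resolve_left hs.ne_zero

private lemma oz_zero_eq {s : K} (hs : Gen (⊤ : IntermediateField ℂ K) s) {E : Place K} (hE : 0 < E.ord s) : oz E s = 1 := by
  have := fin_top (K := K)
  have h1 := sum_le hs {E} (by
    intro E' hE'
    rw [Finset.mem_singleton] at hE'
    rwa [hE'])
  rw [Finset.sum_singleton, IntermediateField.finrank_top] at h1
  have h2 := one_le_oz hs hE
  push_cast at h1
  omega

private lemma zero_uniq {s : K} (hs : Gen (⊤ : IntermediateField ℂ K) s) {E E' : Place K} (hE : 0 < E.ord s) (hE' : 0 < E'.ord s) : E = E' := by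
  classical
  by_contra hne
  have := fin_top (K := K)
  have h1 := sum_le hs {E, E'} (by
    intro E'' hE''
    rw [Finset.mem_insert, Finset.mem_singleton] at hE''
    rcases hE'' with h | h
    · rwa [h]
    · rwa [h])
  rw [Finset.sum_pair hne, IntermediateField.finrank_top] at h1
  have h2 := one_le_oz hs hE
  have h3 := one_le_oz hs hE'
  push_cast at h1
  omega

private lemma oz_pole_eq {s : K} (hs : Gen (⊤ : IntermediateField ℂ K) s) {E : Place K} (hE : E.ord s < 0) : oz E s = -1 := by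
  have h1 := oz_zero_eq hs.inv ((inv_pos_iff hs.ne_zero).2 hE)
  rw [oz_inv] at h1
  omega

private lemma pole_uniq {s : K} (hs : Gen (⊤ : IntermediateField ℂ K) s) {E E' : Place K} (hE : E.ord s < 0) (hE' : E'.ord s < 0) : E = E' :=
  zero_uniq hs.inv ((inv_pos_iff hs.ne_zero).2 hE) ((inv_pos_iff hs.ne_zero).2 hE')

private lemma pole_sub {s : K} {E : Place K} (hE : E.ord s < 0) (c : ℂ) : E.ord (s - algebraMap ℂ K c) < 0 := by
  by_contra h
  push Not at h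
  have h1 := nonneg_add h (const_nonneg E c)
  rw [sub_add_cancel] at h1
  exact absurd hE (not_lt.2 h1)

private lemma oz_sub {s : K} (hs : Gen (⊤ : IntermediateField ℂ K) s) {E : Place K} {a b : ℂ} (h : 0 < E.ord (s - algebraMap ℂ K a)) (hab : a ≠ b) :
    oz E (s - algebraMap ℂ K b) = 0 := by
  have h1 : oz E (s - algebraMap ℂ K a) = 1 := oz_zero_eq (hs.sub_const a) h
  have h2 : (algebraMap ℂ K (a - b)) ≠ 0 := by
    rw [Ne, map_eq_zero, sub_eq_zero]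
    exact hab
  have h3 := (oz_add_of_lt E h2 (hs.sub_const a).ne_zero (by rw [oz_const, h1]; norm_num)).2
  rw [oz_const] at h3
  rw [← h3]
  congr 1
  rw [map_sub]
  ring

private lemma exists_two (hK : CurveField K) {t : K} (ht : Gen (⊤ : IntermediateField ℂ K) t) {E₁ E₂ : Place K} (hne : E₁ ≠ E₂) :
    ∃ s : K, Gen (⊤ : IntermediateField ℂ K) s ∧ 0 < E₁.ord s ∧ E₂.ord s < 0 := by
  obtain ⟨t', ht', hp⟩ : ∃ t' : K, Gen (⊤ : IntermediateField ℂ K) t' ∧ E₂.ord t' < 0 := by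
    by_cases h : E₂.ord t < 0
    · exact ⟨t, ht, h⟩
    · push Not at h
      obtain ⟨c, hc⟩ := exists_value hK h
      refine ⟨(t - algebraMap ℂ K c)⁻¹, (ht.sub_const c).inv, ?_⟩
      rw [neg_iff, oz_inv, oz_zero_eq (ht.sub_const c) hc]
      norm_num
  have h1 : 0 ≤ E₁.ord t' := by
    by_contra h
    push Not at h
    exact hne (pole_uniq ht' h hp)
  obtain ⟨c, hc⟩ := exists_value hK h1
  exact ⟨t' - algebraMap ℂ K c, ht'.sub_const c, hc, pole_sub hp c⟩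

private lemma lgt_three (hK : CurveField K) {B : Place K → Prop} {s : K} (hs : Gen (⊤ : IntermediateField ℂ K) s) {E₁ E₂ E₃ : Place K}
    (hB₁ : B E₁) (hB₂ : B E₂) (hB₃ : B E₃) (h13 : E₁ ≠ E₃) (h23 : E₂ ≠ E₃) (h1 : 0 < E₁.ord s) (h2 : E₂.ord s < 0) : IsLogGeneralType B := by
  have h3 : 0 ≤ E₃.ord s := by
    by_contra h
    push Not at h
    exact h23 (pole_uniq hs h2 h)
  obtain ⟨c, hc⟩ := exists_value hK h3
  have hc0 : c ≠ 0 := by
    rintro rfl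
    rw [map_zero, sub_zero] at hc
    exact h13 (zero_uniq hs h1 hc)
  have h1' : 0 < E₁.ord (s - algebraMap ℂ K 0) := by rwa [map_zero, sub_zero]
  have hs0 : s ≠ 0 := hs.ne_zero
  have hsc : s - algebraMap ℂ K c ≠ 0 := (hs.sub_const c).ne_zero
  -- the orders of the two forms
  have key : ∀ E : Place K, (¬ B E → PoleAtMost 0 E 1 s⁻¹ (dx s) ∧ PoleAtMost 0 E 1 (s - algebraMap ℂ K c)⁻¹ (dx s)) ∧
      (B E → PoleAtMost 1 E 1 s⁻¹ (dx s) ∧ PoleAtMost 1 E 1 (s - algebraMap ℂ K c)⁻¹ (dx s)) := by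
    intro E
    by_cases hpos : 0 < E.ord s
    · obtain rfl := zero_uniq hs h1 hpos
      have e1 := oz_zero_eq hs h1
      have e2 := oz_sub hs h1' hc0.symm
      refine ⟨fun h => absurd hB₁ h, fun _ => ⟨pole_mk _ hs0 (Or.inr ?_), pole_mk _ hs0 (Or.inr ?_)⟩⟩
      · rw [oz_inv, e1]; norm_num
      · rw [oz_inv, e2, e1]; norm_num
    by_cases hneg : E.ord s < 0
    · obtain rfl := pole_uniq hs h2 hneg
      have e1 := oz_pole_eq hs h2
      have e2 := oz_pole_eq (hs.sub_const c) (pole_sub h2 c)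
      refine ⟨fun h => absurd hB₂ h, fun _ => ⟨pole_mk _ hs0 (Or.inr ?_), pole_mk _ hs0 (Or.inr ?_)⟩⟩
      · rw [oz_inv, e1]; norm_num
      · rw [oz_inv, e2, e1]; norm_num
    push Not at hneg
    obtain ⟨c', hc'⟩ := exists_value hK hneg
    have hc'0 : c' ≠ 0 := by
      rintro rfl
      rw [map_zero, sub_zero] at hc'
      exact hpos hc'
    have e0 : oz E s = 0 := by
      have := oz_sub hs hc' hc'0
      rwa [map_zero, sub_zero] at this
    have e1 : oz E (s - algebraMap ℂ K c') = 1 := oz_zero_eq (hs.sub_const c') hc'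
    have hsc' : s - algebraMap ℂ K c' ≠ 0 := (hs.sub_const c').ne_zero
    rw [← dx_sub_const s c']
    by_cases hcc : c' = c
    · subst hcc
      obtain rfl := zero_uniq (hs.sub_const c') hc hc'
      refine ⟨fun h => absurd hB₃ h, fun _ => ⟨pole_mk _ hsc' (Or.inr ?_), pole_mk _ hsc' (Or.inr ?_)⟩⟩
      · rw [oz_inv, e0, e1]; norm_num
      · rw [oz_inv, e1]; norm_num
    · have e2 : oz E (s - algebraMap ℂ K c) = 0 := oz_sub hs hc' hcc
      refine ⟨fun _ => ⟨pole_mk _ hsc' (Or.inr ?_), pole_mk _ hsc' (Or.inr ?_)⟩, fun _ => ⟨pole_mk _ hsc' (Or.inr ?_), pole_mk _ hsc' (Or.inr ?_)⟩⟩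
      · rw [oz_inv, e0, e1]; norm_num
      · rw [oz_inv, e2, e1]; norm_num
      · rw [oz_inv, e0, e1]; norm_num
      · rw [oz_inv, e2, e1]; norm_num
  refine lgt_of_forms hK (dx_ne_zero hs.tr) le_rfl (inv_ne_zero hs0) (f₁ := (s - algebraMap ℂ K c)⁻¹) ?_
    (fun E => ⟨fun h => ((key E).1 h).1, fun h => ((key E).2 h).1⟩) (fun E => ⟨fun h => ((key E).1 h).2, fun h => ((key E).2 h).2⟩)
  apply tr_of_oz_ne (E := E₁)
  rw [oz_div E₁ (inv_ne_zero hsc) (inv_ne_zero hs0), oz_inv, oz_inv, oz_sub hs h1' hc0.symm, oz_zero_eq hs h1]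
  norm_num

theorem rat_cases (hK : CurveField K) {t : K} (ht : IntermediateField.adjoin ℂ {t} = ⊤) (B : Place K → Prop) :
    IsLogGeneralType B ∨ ∃ t' : K, IntermediateField.adjoin ℂ {t'} = ⊤ ∧ ∀ E, B E → oz E t' ≠ 0 := by
  have hg := gen_top hK ht
  by_cases h3 : ∃ E₁ E₂ E₃ : Place K, B E₁ ∧ B E₂ ∧ B E₃ ∧ E₁ ≠ E₂ ∧ E₁ ≠ E₃ ∧ E₂ ≠ E₃
  · left
    obtain ⟨E₁, E₂, E₃, hB₁, hB₂, hB₃, h12, h13, h23⟩ := h3
    obtain ⟨s, hs, h1, h2⟩ := exists_two hK hg h12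
    exact lgt_three hK hs hB₁ hB₂ hB₃ h13 h23 h1 h2
  right
  by_cases h2 : ∃ E₁ E₂ : Place K, B E₁ ∧ B E₂ ∧ E₁ ≠ E₂
  · obtain ⟨E₁, E₂, hB₁, hB₂, h12⟩ := h2
    obtain ⟨s, hs, h1, h2⟩ := exists_two hK hg h12
    refine ⟨s, hs.eq.symm, fun E hE => ?_⟩
    by_cases hE1 : E = E₁
    · rw [hE1, oz_zero_eq hs h1]
      norm_num
    by_cases hE2 : E = E₂
    · rw [hE2, oz_pole_eq hs h2]
      norm_num
    exact absurd ⟨E₁, E₂, E, hB₁, hB₂, hE, h12, fun h => hE1 h.symm, fun h => hE2 h.symm⟩ h3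
  by_cases h1 : ∃ E₁ : Place K, B E₁
  · obtain ⟨E₁, hB₁⟩ := h1
    have hall : ∀ E, B E → E = E₁ := fun E hE => by
      by_contra hne
      exact h2 ⟨E, E₁, hE, hB₁, hne⟩
    by_cases hneg : E₁.ord t < 0
    · refine ⟨t, ht, fun E hE => ?_⟩
      rw [hall E hE, oz_pole_eq hg hneg]
      norm_num
    · push Not at hneg
      obtain ⟨c, hc⟩ := exists_value hK hneg
      refine ⟨t - algebraMap ℂ K c, (hg.sub_const c).eq.symm, fun E hE => ?_⟩
      rw [hall E hE, oz_zero_eq (hg.sub_const c) hc]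
      norm_num
  · exact ⟨t, ht, fun E hE => absurd ⟨E, hE⟩ h1⟩

end Pool.Agent.H13.CV

end
end

section

/-!
# G3 E Defs: the global sections

`a` is a direction (sup norm `1`).

* `Hol X Λ u D φ`: `φ` has holomorphic lifts outside `D`.
* `GD X Λ u D a S`: `S` is the finite set of the global sheets for the direction `a`: holomorphic outside `D`, honest on all lines of direction `a`, and every entire curve over a line of
  direction `a` is one of them.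
* `MG D φ a y`: near `y` there is a holomorphic lift which is not identically `0` on the line through `y` in the direction `a`.
* `BC X Λ u a ν b`: the conclusion of block (C) at `b`: all curves over `b + ℂ a` extend to families over `b + ζ ν + ℂ a`, `|Im ζ| < ε`.
-/

set_option autoImplicit false

open Topology Filter Metric

namespace Pool.Agent.G3.E

open Pool.Agent.H36.BP (EN fs wd)
open Pool.Agent.H14.PP (IsCone CurveAt Tan)
open Pool.Agent.H62.EF (MN pr)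
open Pool.Agent.AD (Vd Chart Charts IsGerm)
open Pool.Agent.TG
open Pool.Agent.G3.A
open Pool.Agent.G3.C (Gc)

variable {N k : ℕ}

/-- holomorphic outside `D` -/
def Hol (X : Set (EN N)) (Λ : AddSubgroup (Vd (k + 1))) (u : EN N → Vd (k + 1)) (D : Set (Vd (k + 1))) (φ : Vd (k + 1) → MN N) : Prop :=
  ∀ y ∉ D, ∃ F : Vd (k + 1) → EN N, AnalyticAt ℂ F y ∧ ∀ᶠ z in 𝓝 y, F z ∈ X ∧ φ z = pr (F z) ∧ u (F z) - z ∈ Λ

/-- the global sheets for the direction `a` -/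
structure GD (X : Set (EN N)) (Λ : AddSubgroup (Vd (k + 1))) (u : EN N → Vd (k + 1)) (D : Set (Vd (k + 1))) (a : Vd (k + 1)) (S : Set (Vd (k + 1) → MN N)) : Prop where
  fin : S.Finite
  hol : ∀ φ ∈ S, Hol X Λ u D φ
  line : ∀ φ ∈ S, ∀ y, (fun z : ℂ => φ (y + z • a)) ∈ Hc X Λ u a y
  ex : ∀ y, ∀ f ∈ Hc X Λ u a y, ∃ φ ∈ S, ∀ z : ℂ, φ (y + z • a) = f z
  tr : ∀ φ ∈ S, ∀ l ∈ Λ, (fun y => φ (y + l)) ∈ S

/-- the conclusion of block (C) at `b` -/
def BC (X : Set (EN N)) (Λ : AddSubgroup (Vd (k + 1))) (u : EN N → Vd (k + 1)) (a ν b : Vd (k + 1)) : Prop :=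
  ∃ ε : ℝ, 0 < ε ∧ ∀ f ∈ Hc X Λ u a b, ∃ Ψ : ℂ → ℂ → MN N, (∀ z, Ψ 0 z = f z) ∧ (∀ ζ : ℂ, |ζ.im| < ε → Ψ ζ ∈ Hc X Λ u a (b + ζ • ν)) ∧
    ∀ ζ z : ℂ, |ζ.im| < ε → ∃ G : ℂ × ℂ → EN N, AnalyticAt ℂ G (ζ, z) ∧ (¬ ∀ᶠ w in 𝓝 z, G (ζ, w) = 0) ∧
      ∀ᶠ p in 𝓝 (ζ, z), G p ≠ 0 → Ψ p.1 p.2 = pr (G p)

end Pool.Agent.G3.E

end

section

/-!
# G4 E EDefs: maps with holomorphic and meromorphic lifts

`Y` is a finite dimensional complex space, `h : Y → ℂ^(k+1)`, `Φ : Y → ℙ^N` (values on `D'` do not matter).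

* `HolY X Λ u D' h Φ`: off `D'` the map `Φ` is holomorphic, with values in `X`, over `h`.
* `MerY D' Φ`: `Φ` has analytic lifts which are not identically `0`, at every point.
-/

set_option autoImplicit false

open Topology Filter Metric

namespace Pool.Agent.G4.E

open Pool.Agent.H36.BP (EN fs wd)
open Pool.Agent.H14.PP (IsCone CurveAt Tan)
open Pool.Agent.H62.EF (MN pr)
open Pool.Agent.AD (Vd Chart Charts IsGerm)
open Pool.Agent.TG

variable {N k : ℕ}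

/-- holomorphic off `D'`, with values in `X`, over `h` -/
def HolY {Y : Type} [NormedAddCommGroup Y] [NormedSpace ℂ Y] (X : Set (EN N)) (Λ : AddSubgroup (Vd (k + 1))) (u : EN N → Vd (k + 1)) (D' : Set Y) (h : Y → Vd (k + 1)) (Φ : Y → MN N) : Prop :=
  ∀ y ∉ D', ∃ φ : Y → EN N, AnalyticAt ℂ φ y ∧ ∀ᶠ z in 𝓝 y, φ z ∈ X ∧ Φ z = pr (φ z) ∧ u (φ z) - h z ∈ Λ

/-- meromorphic lifts -/
def MerY {Y : Type} [NormedAddCommGroup Y] [NormedSpace ℂ Y] (D' : Set Y) (Φ : Y → MN N) : Prop :=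
  ∀ y, ∃ φ : Y → EN N, AnalyticAt ℂ φ y ∧ (∃ᶠ z in 𝓝 y, φ z ≠ 0) ∧ ∀ᶠ z in 𝓝 y, z ∉ D' → φ z ≠ 0 → Φ z = pr (φ z)

/-- the family of curves over the plane `b + ζ ν + z a`, with the lifts of `BC` -/
structure Pln (X : Set (EN N)) (Λ : AddSubgroup (Vd (k + 1))) (u : EN N → Vd (k + 1)) (a ν b : Vd (k + 1)) (Ψ : ℂ → ℂ → MN N) : Prop where
  line : ∀ ζ : ℂ, Ψ ζ ∈ Pool.Agent.G3.A.Hc X Λ u a (b + ζ • ν)
  lift : ∀ ζ z : ℂ, ∃ G : ℂ × ℂ → EN N, AnalyticAt ℂ G (ζ, z) ∧ (¬ ∀ᶠ w in 𝓝 z, G (ζ, w) = 0) ∧ ∀ᶠ p in 𝓝 (ζ, z), G p ≠ 0 → Ψ p.1 p.2 = pr (G p)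

end Pool.Agent.G4.E

end

section

/-!
# G3 C XU: a holomorphic curve with infinitely many points in `X` (over the right points of the torus) is a curve in `X`
-/

set_option autoImplicit false

open Topology Filter Metric Set

namespace Pool.Agent.G3.C

open Pool.Agent.H36.BP (EN fs wd)
open Pool.Agent.H14.PP (IsCone)
open Pool.Agent.H62.EF (MN pr pr_smul pr_eq_iff continuousAt_pr)
open Pool.Agent.AD (Vd Chart Charts)
open Pool.Agent.TG (TMap Lat close_lift mem_of_pr)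

variable {N k : ℕ} {X : Set (EN N)} {Λ : AddSubgroup (Vd (k + 1))} {u : EN N → Vd (k + 1)}

private theorem xu_coord {E : Type*} [NormedAddCommGroup E] [NormedSpace ℂ E] {f : E → EN N} {z : E} (hf : AnalyticAt ℂ f z) (i : Fin (N + 1)) :
    AnalyticAt ℂ (fun w => f w i) z :=
  ((EuclideanSpace.proj (𝕜 := ℂ) i : EN N →L[ℂ] ℂ).analyticAt _).comp hf

private theorem xu_prop {x y : EN N} (hx : x ≠ 0) (hy : y ≠ 0) (h : ∀ i j, x i * y j - x j * y i = 0) : ∃ c : ℂ, c ≠ 0 ∧ x = c • y := by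
  obtain ⟨j, hj⟩ : ∃ j, y j ≠ 0 := by
    by_contra hcon
    push Not at hcon
    exact hy (by ext j; exact hcon j)
  have e : x = (x j / y j) • y := by
    ext i
    simp only [PiLp.smul_apply, smul_eq_mul]
    rw [div_mul_eq_mul_div, eq_div_iff hj]
    exact sub_eq_zero.1 (h i j)
  refine ⟨x j / y j, fun h0 => ?_, e⟩
  rw [h0, zero_smul] at e
  exact hx e

/-- the local statement -/
theorem xu_local {d : ℕ} (hX : IsCone X) (hch : Charts d X) (ht : TMap X Λ u) (hl : Lat Λ) {γ : ℂ → EN N} {υ : ℂ → Vd (k + 1)} {ζ : ℂ}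
    (hγ : AnalyticAt ℂ γ ζ) (h0 : γ ζ ≠ 0) (hυ : AnalyticAt ℂ υ ζ) (hfr : ∃ᶠ w in 𝓝[≠] ζ, γ w ∈ X ∧ u (γ w) - υ w ∈ Λ) :
    ∀ᶠ w in 𝓝 ζ, γ w ∈ X ∧ u (γ w) - υ w ∈ Λ := by
  obtain ⟨hxX, hxu⟩ := close_lift hX ht hl hγ.continuousAt h0 hυ.continuousAt (hfr.filter_mono nhdsWithin_le_nhds)
  obtain ⟨χ, hxU, hq0⟩ := hch _ hxX
  have hqγ : AnalyticAt ℂ (fun w => χ.q (γ w)) ζ := (χ.q_an _ hxU).comp hγ
  have hq0' : χ.q (γ ζ) ∈ ball (0 : Vd d) 2 := by rw [hq0]; exact mem_ball_self two_pos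
  have hσ : AnalyticAt ℂ (fun w => χ.σ (χ.q (γ w))) ζ := AnalyticAt.fun_comp (χ.σ_an _ hq0') hqγ
  have hev : ∀ᶠ w in 𝓝 ζ, γ w ∈ χ.U ∧ χ.q (γ w) ∈ ball (0 : Vd d) 2 ∧ γ w ≠ 0 :=
    (hγ.continuousAt.eventually_mem (χ.isOpen_U.mem_nhds hxU)).and
      ((hqγ.continuousAt.eventually_mem (isOpen_ball.mem_nhds hq0')).and (hγ.continuousAt.eventually_ne h0))
  -- in `X`
  have hm : ∀ i j, ∀ᶠ w in 𝓝 ζ, γ w i * χ.σ (χ.q (γ w)) j - γ w j * χ.σ (χ.q (γ w)) i = 0 := by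
    intro i j
    have han : AnalyticAt ℂ (fun w => γ w i * χ.σ (χ.q (γ w)) j - γ w j * χ.σ (χ.q (γ w)) i) ζ :=
      ((xu_coord hγ i).mul (xu_coord hσ j)).sub ((xu_coord hγ j).mul (xu_coord hσ i))
    refine han.frequently_zero_iff_eventually_zero.1 ?_
    refine (hfr.and_eventually (hev.filter_mono nhdsWithin_le_nhds)).mono fun w hw => ?_
    obtain ⟨⟨hwX, -⟩, hwU, hwq, hw0⟩ := hw
    obtain ⟨-, c, hc, he⟩ := χ.surj _ hwX hwU
    have h1 : ∀ l, γ w l = c * χ.σ (χ.q (γ w)) l := fun l => by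
      have := congrArg (fun v : EN N => v l) he
      simpa [PiLp.smul_apply, smul_eq_mul] using this
    rw [h1 i, h1 j]
    ring
  have hX' : ∀ᶠ w in 𝓝 ζ, γ w ∈ X := by
    have h2 : ∀ᶠ w in 𝓝 ζ, ∀ i j, γ w i * χ.σ (χ.q (γ w)) j - γ w j * χ.σ (χ.q (γ w)) i = 0 := eventually_all.2 fun i => eventually_all.2 fun j => hm i j
    filter_upwards [h2, hev] with w h3 h4
    obtain ⟨hwU, hwq, hw0⟩ := h4
    have h5 := (χ.σ_mem _ hwq).1
    obtain ⟨c, hc, he⟩ := xu_prop hw0 (fun h => hX.zero_notMem (h ▸ h5)) h3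
    rw [he]
    exact hX.smul_mem _ h5 c hc
  -- over the right points
  obtain ⟨v, hv, hvu⟩ := ht.loc _ hxX
  have hD : AnalyticAt ℂ (fun w => v (γ w) - υ w) ζ := (hv.comp hγ).sub hυ
  have hvu' : ∀ᶠ w in 𝓝 ζ, γ w ∈ X → u (γ w) - v (γ w) ∈ Λ := hγ.continuousAt.eventually hvu
  have hDζ : v (γ ζ) - υ ζ ∈ Λ := by
    have h1 := Λ.sub_mem hxu (hvu'.self_of_nhds hxX)
    have e : u (γ ζ) - υ ζ - (u (γ ζ) - v (γ ζ)) = v (γ ζ) - υ ζ := by abel
    rwa [e] at h1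
  obtain ⟨δ, hδ, hdisc⟩ := hl.disc
  have hclose : ∀ᶠ w in 𝓝 ζ, ‖(v (γ w) - υ w) - (v (γ ζ) - υ ζ)‖ < δ := by
    have h1 := Metric.tendsto_nhds.1 hD.continuousAt δ hδ
    filter_upwards [h1] with w hw
    rwa [dist_eq_norm] at hw
  have hz : ∀ᶠ w in 𝓝 ζ, (v (γ w) - υ w) - (v (γ ζ) - υ ζ) = 0 := by
    have han : AnalyticAt ℂ (fun w => (v (γ w) - υ w) - (v (γ ζ) - υ ζ)) ζ := hD.sub analyticAt_const
    refine han.frequently_zero_iff_eventually_zero.1 ?_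
    refine (hfr.and_eventually ((hvu'.and hclose).filter_mono nhdsWithin_le_nhds)).mono fun w hw => ?_
    obtain ⟨⟨hwX, hwu⟩, h1, h2⟩ := hw
    have h3 := Λ.sub_mem (Λ.sub_mem hwu (h1 hwX)) hDζ
    have e : u (γ w) - υ w - (u (γ w) - v (γ w)) - (v (γ ζ) - υ ζ) = (v (γ w) - υ w) - (v (γ ζ) - υ ζ) := by abel
    rw [e] at h3
    exact hdisc _ h3 h2
  filter_upwards [hX', hvu', hz] with w h1 h2 h3
  refine ⟨h1, ?_⟩
  have h4 := Λ.add_mem (h2 h1) hDζ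
  have e : u (γ w) - υ w = (u (γ w) - v (γ w)) + (v (γ ζ) - υ ζ) := by
    rw [← sub_eq_zero.1 h3]
    abel
  rw [e]
  exact h4

/-- the global statement -/
theorem xu_global {d : ℕ} (hX : IsCone X) (hch : Charts d X) (ht : TMap X Λ u) (hl : Lat Λ) {γ : ℂ → EN N} {υ : ℂ → Vd (k + 1)} {W : Set ℂ}
    (hWo : IsOpen W) (hWc : IsPreconnected W) (hγ : DifferentiableOn ℂ γ W) (h0 : ∀ ζ ∈ W, γ ζ ≠ 0) (hυ : DifferentiableOn ℂ υ W) {ζ₀ : ℂ} (hζ₀ : ζ₀ ∈ W)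
    (hfr : ∃ᶠ w in 𝓝[≠] ζ₀, γ w ∈ X ∧ u (γ w) - υ w ∈ Λ) : ∀ ζ ∈ W, γ ζ ∈ X ∧ u (γ ζ) - υ ζ ∈ Λ := by
  obtain ⟨A, hA⟩ : ∃ A : Set ℂ, ∀ ζ, ζ ∈ A ↔ ∀ᶠ w in 𝓝 ζ, γ w ∈ X ∧ u (γ w) - υ w ∈ Λ := ⟨{ζ | ∀ᶠ w in 𝓝 ζ, γ w ∈ X ∧ u (γ w) - υ w ∈ Λ}, fun _ => Iff.rfl⟩
  have hloc : ∀ ζ ∈ W, (∃ᶠ w in 𝓝[≠] ζ, γ w ∈ X ∧ u (γ w) - υ w ∈ Λ) → ζ ∈ A := fun ζ hζ h =>
    (hA ζ).2 (xu_local hX hch ht hl (hγ.analyticAt (hWo.mem_nhds hζ)) (h0 ζ hζ) (hυ.analyticAt (hWo.mem_nhds hζ)) h)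
  have hAo : IsOpen A := by
    rw [isOpen_iff_mem_nhds]
    intro ζ hζ
    filter_upwards [((hA ζ).1 hζ).eventually_nhds] with w hw
    exact (hA w).2 hw
  have hcl : closure A ∩ W ⊆ A := by
    rintro ζ ⟨hζ, hζW⟩
    refine hloc ζ hζW ?_
    have h1 : ∃ᶠ w in 𝓝 ζ, w ∈ A := mem_closure_iff_frequently.1 hζ
    rw [Filter.frequently_iff] at h1 ⊢
    intro U hU
    rw [mem_nhdsWithin] at hU
    obtain ⟨V, hVo, hζV, hVU⟩ := hU
    obtain ⟨w, hwV, hwA⟩ := h1 (hVo.mem_nhds hζV)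
    -- a point of `V` near `w`, not equal to `ζ`
    have h2 : ∀ᶠ x in 𝓝 w, x ∈ V ∧ γ x ∈ X ∧ u (γ x) - υ x ∈ Λ := Filter.Eventually.and (hVo.mem_nhds hwV) ((hA w).1 hwA)
    have h3 : ∃ᶠ x in 𝓝 w, x ≠ ζ := by
      have hd : Dense ({ζ}ᶜ : Set ℂ) := dense_compl_singleton ζ
      exact mem_closure_iff_frequently.1 (hd w)
    obtain ⟨x, hx1, hx2⟩ := (h3.and_eventually h2).exists
    exact ⟨x, hVU ⟨hx2.1, hx1⟩, hx2.2⟩
  have h := hWc.subset_of_closure_inter_subset hAo ⟨ζ₀, hζ₀, hloc ζ₀ hζ₀ hfr⟩ hcl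
  exact fun ζ hζ => ((hA ζ).1 (h hζ)).self_of_nhds

/-- real points accumulate -/
theorem real_freq {s : ℝ} {P : ℂ → Prop} (h : ∀ᶠ t : ℝ in 𝓝 s, P t) : ∃ᶠ w in 𝓝[≠] (s : ℂ), P w := by
  have h1 : Tendsto (fun t : ℝ => (t : ℂ)) (𝓝[≠] s) (𝓝[≠] (s : ℂ)) := by
    refine tendsto_nhdsWithin_iff.2 ⟨(Complex.continuous_ofReal.tendsto s).mono_left nhdsWithin_le_nhds, ?_⟩
    filter_upwards [self_mem_nhdsWithin] with t ht
    intro hc
    exact ht (Complex.ofReal_injective hc)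
  have h2 : ∃ᶠ t : ℝ in 𝓝[≠] s, P t := (h.filter_mono nhdsWithin_le_nhds).frequently
  exact h1.frequently h2

end Pool.Agent.G3.C

end
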