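import Pool.Agent.H94.G5T.G4.Simp
import Pool.Agent.H94.G5T.M48
import Pool.Agent.H94.G5T.M97

/-! The parts of this file: AD.P.Conv, H19T.FPic, G4.E.IdY, G4.E.Dir. -/

section

/-!
# AD P Conv: from the cone to the projective space

* `extends_of_setup`: maps of the punctured disc extend, if they are not contained in a hypersurface which contains the curves of the setup.
* `kobayashi_of_setup`: the estimate of the derivative of discs.
* `brody_of_setup`: the entire curves.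
-/

set_option autoImplicit false

open MvPolynomial Topology Filter Metric

namespace Pool.Agent.AD.P

open Pool.Agent.H17 (PN VanishesAt HolomorphicInto ZariskiClosedIn puncturedDisc vanishesAt_mk_iff)
open Pool.Agent.H62.FC (Homog)
open Pool.Agent.H36.BP (EN wd ofLp_ne_zero analyticAt_ofLp isOpen_puncturedDisc preconnected_puncturedDisc vanish_identity)
open Pool.Agent.H14.PP (IsCone)
open Pool.Agent.H17EF (projVar coneE LE mk_mem_projVar)

variable {N : ℕ} {P : Ideal (MvPolynomial (Fin (N + 1)) ℂ)}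

/-- the form as a function on the Euclidean space -/
noncomputable def fQ (Q : MvPolynomial (Fin (N + 1)) ℂ) (x : EN N) : ℂ := eval ((LE N).symm x) Q

theorem fQ_analytic (Q : MvPolynomial (Fin (N + 1)) ℂ) (x : EN N) : AnalyticAt ℂ (fQ Q) x := by
  have h1 : ∀ i, AnalyticAt ℂ (fun y : EN N => (LE N).symm y i) x := fun i =>
    ((ContinuousLinearMap.proj (R := ℂ) (φ := fun _ : Fin (N + 1) => ℂ) i).comp ((LE N).symm : EN N →L[ℂ] (Fin (N + 1) → ℂ))).analyticAt x
  refine (AnalyticAt.aeval_mvPolynomial h1 Q).congr (Eventually.of_forall fun y => ?_)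
  exact congrArg (fun f : MvPolynomial (Fin (N + 1)) ℂ →+* ℂ => f Q) (MvPolynomial.coe_aeval_eq_eval ((LE N).symm y))

theorem vanishes_iff {Q : MvPolynomial (Fin (N + 1)) ℂ} {D : ℕ} (hQ : Q.IsHomogeneous D) {x : EN N} (h : x.ofLp ≠ 0) :
    VanishesAt Q (Projectivization.mk ℂ x.ofLp h) ↔ fQ Q x = 0 := vanishesAt_mk_iff hQ _ h

end Pool.Agent.AD.P

end

section

/-!
# H19T FPic: extension across the puncture, in the projective space
-/

set_option autoImplicit false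

open Topology Filter Metric MvPolynomial

noncomputable section

namespace Pool.Agent.H19T

open Pool.Agent.H36.BP (EN fs wd Curve lift_punct ofLp_ne_zero analyticAt_ofLp isOpen_puncturedDisc preconnected_puncturedDisc)
open Pool.Agent.H14.PP (IsCone CurveAt Tan)
open Pool.Agent.H62.FC (Homog)
open Pool.Agent.H17 (PN HolomorphicInto puncturedDisc)
open Pool.Agent.H17EF (projVar coneE LE mk_mem_projVar mem_coneE)

variable {N n : ℕ}

variable {P : Ideal (MvPolynomial (Fin (N + 1)) ℂ)}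

theorem extends_of_cone (hP : Homog P) {D : Set (EN N)} {Ξ : Set (PN N)}
    (hΞ : ∀ (y : EN N) (h : y.ofLp ≠ 0), y ∈ coneE P → (Projectivization.mk ℂ y.ofLp h ∈ Ξ ↔ y ∈ D))
    (hid : ∀ (F : ℂ → EN N) (z : ℂ), CurveAt (coneE P) F z → (∃ᶠ w in 𝓝[≠] z, F w ∈ D) → ∀ᶠ w in 𝓝 z, F w ∈ D)
    (hpic : ∀ F : ℂ → EN N, Curve (coneE P) (ball 0 1 \ {0}) F → (∃ z ∈ ball (0 : ℂ) 1 \ {0}, F z ∉ D) →
      ∃ Q : ℂ → EN N, AnalyticAt ℂ Q 0 ∧ Q 0 ≠ 0 ∧ ∀ᶠ z in 𝓝[≠] (0 : ℂ), ∃ k : ℂ, k ≠ 0 ∧ Q z = k • F z)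
    (f : ℂ → PN N) (hf : HolomorphicInto f puncturedDisc) (hfX : ∀ z ∈ puncturedDisc, f z ∈ projVar P) (hfD : ∃ z ∈ puncturedDisc, f z ∉ Ξ) :
    ∃ g : ℂ → PN N, HolomorphicInto g (ball 0 1) ∧ ∀ z ∈ puncturedDisc, g z = f z := by
  classical
  obtain ⟨F, hFd, hFf⟩ := lift_punct hf (r := 1 / 2) (by norm_num) (by norm_num)
  have hhalf : ∀ z ∈ ball (0 : ℂ) 1 \ {0}, z / 2 ∈ ball (0 : ℂ) (1 / 2) \ {0} := by
    rintro z ⟨hz1, hz2⟩
    rw [mem_ball_zero_iff] at hz1
    refine ⟨?_, ?_⟩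
    · rw [mem_ball_zero_iff, norm_div]
      simp only [Complex.norm_ofNat]
      linarith
    · simpa using hz2
  have hsubp : ball (0 : ℂ) (1 / 2) \ {0} ⊆ puncturedDisc := by
    rintro z ⟨hz1, hz2⟩
    exact ⟨ball_subset_ball (by norm_num) hz1, hz2⟩
  have hopen : IsOpen (ball (0 : ℂ) (1 / 2) \ {0}) := isOpen_ball.sdiff isClosed_singleton
  have hopen1 : IsOpen (ball (0 : ℂ) 1 \ {0}) := isOpen_ball.sdiff isClosed_singleton
  obtain ⟨F₁, hF₁⟩ : ∃ F₁ : ℂ → EN N, F₁ = fun z => F (z / 2) := ⟨_, rfl⟩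
  have hF₁2 : ∀ w : ℂ, F₁ (2 * w) = F w := by
    intro w
    rw [hF₁]
    simp only
    rw [mul_div_cancel_left₀ w (two_ne_zero)]
  have hF1c : Curve (coneE P) (ball 0 1 \ {0}) F₁ := by
    rw [hF₁]
    refine ⟨?_, ?_⟩
    · intro z hz
      have h1 : DifferentiableAt ℂ F (z / 2) := hFd.differentiableAt (hopen.mem_nhds (hhalf z hz))
      exact (h1.comp z (differentiableAt_id.div_const 2)).differentiableWithinAt
    · intro z hz
      obtain ⟨h1, h2⟩ := hFf _ (hhalf z hz)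
      have h3 := hfX _ (hsubp (hhalf z hz))
      rw [h2] at h3
      exact (mk_mem_projVar hP h1).1 h3
  -- the curve is not a map into `D`
  have hne : ∃ z ∈ ball (0 : ℂ) 1 \ {0}, F₁ z ∉ D := by
    by_contra hcon
    push Not at hcon
    obtain ⟨z₁, hz₁, hz₁D⟩ := hfD
    apply hz₁D
    obtain ⟨A, hA⟩ : ∃ A : Set ℂ, A = {z | ∀ᶠ w in 𝓝 z, f w ∈ Ξ} := ⟨_, rfl⟩
    have hAo : IsOpen A := by
      rw [hA, isOpen_iff_mem_nhds]
      intro z hz
      exact eventually_eventually_nhds.2 hz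
    have hlocal : ∀ y ∈ puncturedDisc, ∃ φ : ℂ → EN N, CurveAt (coneE P) φ y ∧ ∀ᶠ w in 𝓝 y, (f w ∈ Ξ ↔ φ w ∈ D) := by
      intro y hy
      obtain ⟨φ, hφ, he⟩ := hf y hy
      have hmem : ∀ᶠ w in 𝓝 y, (WithLp.toLp 2 (φ w) : EN N) ∈ coneE P := by
        filter_upwards [he, isOpen_puncturedDisc.mem_nhds hy] with w hw hw2
        obtain ⟨h1, h2⟩ := hw
        have h3 := hfX w hw2
        rw [h2] at h3
        exact (mk_mem_projVar hP h1).1 h3
      refine ⟨fun w => WithLp.toLp 2 (φ w), ⟨Pool.Agent.H36.BP.analyticAt_toLp hφ, hmem⟩, ?_⟩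
      filter_upwards [he, hmem] with w hw hw2
      obtain ⟨h1, h2⟩ := hw
      rw [h2]
      exact hΞ (WithLp.toLp 2 (φ w)) h1 hw2
    have hcl : closure A ∩ puncturedDisc ⊆ A := by
      rintro y ⟨hy1, hy2⟩
      by_cases hyA : y ∈ A
      · exact hyA
      obtain ⟨φ, hφ, he⟩ := hlocal y hy2
      have hfreq : ∃ᶠ w in 𝓝[≠] y, φ w ∈ D := by
        have h1 : ∃ᶠ w in 𝓝 y, w ∈ A := mem_closure_iff_frequently.mp hy1
        have h3 : ∃ᶠ w in 𝓝[≠] y, w ∈ A := by
          rw [frequently_nhdsWithin_iff]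
          refine h1.mono fun w hw => ⟨hw, ?_⟩
          rintro rfl
          exact hyA hw
        refine (h3.and_eventually (he.filter_mono nhdsWithin_le_nhds)).mono ?_
        rintro w ⟨hw1, hw2⟩
        rw [hA] at hw1
        have h7 : ∀ᶠ v in 𝓝 w, f v ∈ Ξ := hw1
        exact hw2.1 h7.self_of_nhds
      have h8 := hid φ y hφ hfreq
      rw [hA]
      show ∀ᶠ w in 𝓝 y, f w ∈ Ξ
      filter_upwards [h8, he] with w hw hw2
      exact hw2.2 hw
    have h4 : (1 / 4 : ℂ) ∈ ball (0 : ℂ) (1 / 2) \ {0} := by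
      refine ⟨?_, by simp⟩
      rw [mem_ball_zero_iff]
      norm_num
    have h4A : (1 / 4 : ℂ) ∈ A := by
      rw [hA]
      show ∀ᶠ w in 𝓝 (1 / 4 : ℂ), f w ∈ Ξ
      filter_upwards [hopen.mem_nhds h4] with w hw
      obtain ⟨h5, h6⟩ := hFf w hw
      have h8 : F w ∈ coneE P := by
        have h9 := hfX w (hsubp hw)
        rw [h6] at h9
        exact (mk_mem_projVar hP h5).1 h9
      rw [h6, hΞ (F w) h5 h8, ← hF₁2]
      apply hcon
      refine ⟨?_, ?_⟩
      · have := hw.1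
        rw [mem_ball_zero_iff] at this ⊢
        rw [norm_mul, Complex.norm_ofNat]
        linarith
      · have h7 : w ≠ 0 := hw.2
        show 2 * w ≠ 0
        exact mul_ne_zero two_ne_zero h7
    have hsub : puncturedDisc ⊆ A := preconnected_puncturedDisc.subset_of_closure_inter_subset hAo ⟨_, hsubp h4, h4A⟩ hcl
    have h9 := hsub hz₁
    rw [hA] at h9
    have h10 : ∀ᶠ w in 𝓝 z₁, f w ∈ Ξ := h9
    exact h10.self_of_nhds
  obtain ⟨G, hGa, hG0, hG⟩ := hpic F₁ hF1c hne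
  -- gluing
  obtain ⟨q₀, hq₀⟩ : ∃ q₀ : PN N, q₀ = Projectivization.mk ℂ (G 0).ofLp (ofLp_ne_zero hG0) := ⟨_, rfl⟩
  refine ⟨fun z => if z = 0 then q₀ else f z, ?_, ?_⟩
  · intro z hz
    by_cases hz0 : z = 0
    · subst hz0
      refine ⟨fun w => (G (2 * w)).ofLp, ?_, ?_⟩
      · apply analyticAt_ofLp
        have h1 : AnalyticAt ℂ G ((fun w : ℂ => 2 * w) 0) := by simpa using hGa
        exact h1.comp (analyticAt_const.mul analyticAt_id)
      · have h2 : Tendsto (fun w : ℂ => 2 * w) (𝓝 0) (𝓝 0) := by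
          have : Tendsto (fun w : ℂ => 2 * w) (𝓝 0) (𝓝 (2 * 0)) := (continuous_const.mul continuous_id).tendsto _
          rwa [mul_zero] at this
        have h3 : ∀ᶠ w in 𝓝 (0 : ℂ), w ≠ 0 → ∃ k : ℂ, k ≠ 0 ∧ G (2 * w) = k • F₁ (2 * w) := by
          filter_upwards [h2.eventually (eventually_nhdsWithin_iff.mp hG)] with w hw hw0
          exact hw (by simpa using hw0)
        have h4 : ∀ᶠ w in 𝓝 (0 : ℂ), G (2 * w) ≠ 0 := by
          have h5 : ∀ᶠ y in 𝓝 (0 : ℂ), G y ≠ 0 := hGa.continuousAt.eventually_ne hG0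
          exact h2.eventually h5
        filter_upwards [h3, h4, ball_mem_nhds (0 : ℂ) (show (0 : ℝ) < 1 / 2 by norm_num)] with w hw1 hw2 hw3
        refine ⟨ofLp_ne_zero hw2, ?_⟩
        by_cases hw0 : w = 0
        · subst hw0
          simp only [if_true, hq₀, mul_zero]
        · rw [if_neg hw0]
          obtain ⟨k, hk0, hk⟩ := hw1 hw0
          rw [hF₁2] at hk
          obtain ⟨h5, h6⟩ := hFf w ⟨hw3, hw0⟩
          rw [h6, Projectivization.mk_eq_mk_iff']
          refine ⟨k⁻¹, ?_⟩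
          rw [hk]
          show k⁻¹ • (k • (F w).ofLp) = _
          rw [smul_smul, inv_mul_cancel₀ hk0, one_smul]
    · obtain ⟨φ, hφ, he⟩ := hf z ⟨hz, hz0⟩
      refine ⟨φ, hφ, ?_⟩
      filter_upwards [he, isOpen_ne.mem_nhds hz0] with w hw1 hw2
      rw [if_neg hw2]
      exact hw1
  · intro z hz
    have hz0 : z ≠ 0 := hz.2
    simp only
    rw [if_neg hz0]

end Pool.Agent.H19T

end
end

section

/-!
# G4 E IdY: two maps which agree, pointwise, with one of finitely many maps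

`fin_ident`: `Y` a finite dimensional complex space, `D'` closed, such that every `y` and every complex line through `y` ... `Y \ D'` is preconnected and nonempty (hypotheses).  `Φ` is holomorphic off `D'`, and at every point off `D'` it is equal
to one of the finitely many maps `Ψ ∈ S`, which are holomorphic off `D'`, too.  Then it is equal to one of them everywhere off `D'`.

Proof.  The sets `{y ∉ D' | Φ y = Ψ y}` are closed in `D'ᶜ`, finitely many cover it: one has an interior point (`D'ᶜ` is open and nonempty; for finitely many closed sets: induction, or Baire).  The set of the points of `D'ᶜ` near which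
`Φ = Ψ` is open, and closed in `D'ᶜ` (minors of the lifts, as in `G3/E/Idt.hol_ident`).
`compl_conn'`: the complement of `D'` is preconnected if every complex line of `Y` meets `D'` in isolated points: two points off `D'` are on a complex line, on which the complement of a closed discrete set is preconnected.
-/

set_option autoImplicit false

open Topology Filter Metric

namespace Pool.Agent.G4.E

open Pool.Agent.H36.BP (EN fs wd)
open Pool.Agent.H14.PP (IsCone CurveAt Tan)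
open Pool.Agent.H62.EF (MN pr)
open Pool.Agent.AD (Vd Chart Charts IsGerm)
open Pool.Agent.TG

variable {N k : ℕ} {X : Set (EN N)} {Λ : AddSubgroup (Vd (k + 1))} {u : EN N → Vd (k + 1)}

theorem compl_conn' {Y : Type} [NormedAddCommGroup Y] [NormedSpace ℂ Y] [FiniteDimensional ℂ Y] {D' : Set Y} (hD' : IsClosed D')
    (hiso : ∀ y e : Y, e ≠ 0 → ∀ t : ℂ, ∀ᶠ w in 𝓝[≠] t, y + w • e ∉ D') : IsPreconnected (D'ᶜ : Set Y) := by
  refine isPreconnected_of_forall_pair fun x hx y hy => ?_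
  by_cases hxy : x = y
  · exact ⟨{x}, Set.singleton_subset_iff.2 hx, rfl, hxy.symm, isPreconnected_singleton⟩
  have he : y - x ≠ 0 := sub_ne_zero.2 (Ne.symm hxy)
  obtain ⟨S, hS⟩ : ∃ S : Set ℂ, S = {w | x + w • (y - x) ∈ D'} := ⟨_, rfl⟩
  have hd : DiscreteTopology S := by
    rw [discreteTopology_subtype_iff]
    intro t _
    have h1 : ∀ᶠ w in 𝓝[≠] t, w ∉ S := by
      filter_upwards [hiso x (y - x) he t] with w hw
      rw [hS]
      exact hw
    have h2 : Sᶜ ∈ 𝓝[≠] t := h1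
    rwa [Filter.mem_iff_inf_principal_compl, compl_compl] at h2
  have hc : S.Countable := by
    have : Countable S := (TopologicalSpace.separableSpace_iff_countable (α := S)).1 inferInstance
    exact Set.countable_coe_iff.1 this
  have hp : IsPreconnected (Sᶜ : Set ℂ) := (hc.isPathConnected_compl_of_one_lt_rank (by rw [Complex.rank_real_complex]; exact Cardinal.one_lt_two)).isConnected.isPreconnected
  refine ⟨(fun w : ℂ => x + w • (y - x)) '' Sᶜ, ?_, ⟨0, ?_, by simp⟩, ⟨1, ?_, by simp⟩, hp.image _ (by fun_prop)⟩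
  · rintro _ ⟨w, hw, rfl⟩
    rw [hS] at hw
    exact hw
  · rw [hS]
    show ¬ x + (0 : ℂ) • (y - x) ∈ D'
    rw [zero_smul, add_zero]
    exact hx
  · rw [hS]
    show ¬ x + (1 : ℂ) • (y - x) ∈ D'
    rw [one_smul, add_sub_cancel]
    exact hy

private theorem iy_ne (hX : IsCone X) {x : EN N} (hx : x ∈ X) : x ≠ 0 := fun h => hX.zero_notMem (h ▸ hx)

private theorem iy_pr_eq {x y : EN N} (hx : x ≠ 0) (hy : y ≠ 0) (h : ∀ i j, x i * y j = x j * y i) : pr x = pr y := by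
  obtain ⟨j, hj⟩ : ∃ j, y j ≠ 0 := by
    by_contra h
    push Not at h
    apply hy
    ext i
    exact h i
  have h1 : x = (x j / y j) • y := by
    ext i
    show x i = x j / y j * y i
    rw [div_mul_eq_mul_div, ← h i j, mul_div_assoc, div_self hj, mul_one]
  have h2 : x j / y j ≠ 0 := by
    intro h0
    rw [h0, zero_smul] at h1
    exact hx h1
  rw [Pool.Agent.H62.EF.pr_eq_iff hx hy]
  exact ⟨_, h2, h1⟩

private theorem iy_minor (hX : IsCone X) {x y : EN N} (hx : x ∈ X) (hy : y ∈ X) (h : pr x = pr y) (i j : Fin (N + 1)) : x i * y j - x j * y i = 0 := by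
  obtain ⟨c, -, hc⟩ := (Pool.Agent.H62.EF.pr_eq_iff (iy_ne hX hx) (iy_ne hX hy)).1 h
  rw [hc]
  show c * y i * y j - c * y j * y i = 0
  ring

private theorem iy_cont {Y : Type} [NormedAddCommGroup Y] [NormedSpace ℂ Y] (hX : IsCone X) {D' : Set Y} {h : Y → Vd (k + 1)} {Φ : Y → MN N} (hΦ : HolY X Λ u D' h Φ) {y : Y}
    (hy : y ∉ D') : ContinuousAt Φ y := by
  obtain ⟨φ, hφ, hφ'⟩ := hΦ y hy
  have h1 : φ y ≠ 0 := iy_ne hX hφ'.self_of_nhds.1
  have h2 : ContinuousAt (fun z => pr (φ z)) y := ContinuousAt.comp (g := (pr : EN N → MN N)) (f := φ) (Pool.Agent.H62.EF.continuousAt_pr h1) hφ.continuousAt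
  exact h2.congr (hφ'.mono fun z hz => hz.2.1.symm)

/-- the identity theorem -/
private theorem iy_ident {Y : Type} [NormedAddCommGroup Y] [NormedSpace ℂ Y] (hX : IsCone X) {D' : Set Y} (hc : IsPreconnected (D'ᶜ : Set Y)) {h : Y → Vd (k + 1)} {Φ Ψ : Y → MN N}
    (hΦ : HolY X Λ u D' h Φ) (hΨ : HolY X Λ u D' h Ψ) {y₀ : Y} (hy₀ : y₀ ∉ D') (h0 : ∀ᶠ y in 𝓝 y₀, Φ y = Ψ y) : ∀ y ∉ D', Φ y = Ψ y := by
  set U : Set Y := {z | ∀ᶠ w in 𝓝 z, Φ w = Ψ w} with hU
  have hUo : IsOpen U := by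
    rw [isOpen_iff_mem_nhds]
    intro z hz
    exact hz.eventually_nhds
  have hsub : (D'ᶜ : Set Y) ⊆ U := by
    refine hc.subset_of_closure_inter_subset hUo ⟨y₀, hy₀, h0⟩ ?_
    rintro y ⟨hyc, hyD⟩
    obtain ⟨F, hF, hF'⟩ := hΦ y hyD
    obtain ⟨G, hG, hG'⟩ := hΨ y hyD
    have h1 := hF.eventually_analyticAt.and (hG.eventually_analyticAt.and (hF'.and hG'))
    obtain ⟨r, hr, hb⟩ := Metric.eventually_nhds_iff_ball.1 h1
    obtain ⟨w, hwb, hwU⟩ := _root_.mem_closure_iff.1 hyc (ball y r) isOpen_ball (mem_ball_self hr)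
    have hco : ∀ {η : Y → EN N} {v : Y}, AnalyticAt ℂ η v → ∀ l : Fin (N + 1), AnalyticAt ℂ (fun z => η z l) v := fun hη l =>
      ((EuclideanSpace.proj (𝕜 := ℂ) l : EN N →L[ℂ] ℂ).analyticAt _).comp hη
    have h2 : ∀ i j : Fin (N + 1), ∀ z ∈ ball y r, F z i * G z j = F z j * G z i := by
      intro i j z hz
      have h3 : AnalyticOnNhd ℂ (fun z => F z i * G z j - F z j * G z i) (ball y r) := fun v hv => by
        have h4 := hb v hv
        exact ((hco h4.1 i).mul (hco h4.2.1 j)).sub ((hco h4.1 j).mul (hco h4.2.1 i))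
      have h4 : ∀ᶠ v in 𝓝 w, F v i * G v j - F v j * G v i = 0 := by
        filter_upwards [hwU, isOpen_ball.mem_nhds hwb] with v hv hvb
        obtain ⟨-, -, ⟨h5, h6, -⟩, h8, h9, -⟩ := hb v hvb
        exact iy_minor hX h5 h8 (by rw [← h6, ← h9, hv]) i j
      exact sub_eq_zero.1 (h3.eqOn_zero_of_preconnected_of_eventuallyEq_zero (convex_ball y r).isPreconnected hwb h4 hz)
    show ∀ᶠ w in 𝓝 y, Φ w = Ψ w
    filter_upwards [isOpen_ball.mem_nhds (mem_ball_self hr : y ∈ ball y r)] with z hz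
    obtain ⟨-, -, ⟨h5, h6, -⟩, h8, h9, -⟩ := hb z hz
    rw [h6, h9]
    exact iy_pr_eq (iy_ne hX h5) (iy_ne hX h8) fun i j => h2 i j z hz
  intro z hz
  exact (hsub hz : z ∈ U).self_of_nhds

theorem fin_ident {Y : Type} [NormedAddCommGroup Y] [NormedSpace ℂ Y] [FiniteDimensional ℂ Y] (hX : IsCone X) {D' : Set Y} (hD' : IsClosed D') (hc : IsPreconnected (D'ᶜ : Set Y))
    (hne : (D'ᶜ : Set Y).Nonempty) {h : Y → Vd (k + 1)} {Φ : Y → MN N} (hΦ : HolY X Λ u D' h Φ) {S : Set (Y → MN N)} (hS : S.Finite) (hSh : ∀ Ψ ∈ S, HolY X Λ u D' h Ψ)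
    (hcov : ∀ y ∉ D', ∃ Ψ ∈ S, Φ y = Ψ y) : ∃ Ψ ∈ S, ∀ y ∉ D', Φ y = Ψ y := by
  have key : ∀ T : Set (Y → MN N), T.Finite → T ⊆ S → ∀ U : Set Y, IsOpen U → U.Nonempty → U ⊆ D'ᶜ → (∀ y ∈ U, ∃ Ψ ∈ T, Φ y = Ψ y) → ∃ Ψ ∈ T, ∃ y₀ ∉ D', ∀ᶠ y in 𝓝 y₀, Φ y = Ψ y := by
    intro T hT
    induction T, hT using Set.Finite.induction_on with
    | empty =>
      rintro - U - ⟨y, hy⟩ - hU
      obtain ⟨Ψ, hΨ, -⟩ := hU y hy
      exact absurd hΨ (Set.notMem_empty Ψ)
    | insert hnot hfin ih =>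
      rename_i Ψ T'
      intro hTS U hUo hUne hUD hU
      by_cases hall : ∀ y ∈ U, Φ y = Ψ y
      · obtain ⟨y₀, hy₀⟩ := hUne
        exact ⟨Ψ, Set.mem_insert _ _, y₀, hUD hy₀, by filter_upwards [hUo.mem_nhds hy₀] with y hy using hall y hy⟩
      · push Not at hall
        obtain ⟨y₁, hy₁, hne₁⟩ := hall
        have h1 := iy_cont hX hΦ (hUD hy₁)
        have h2 := iy_cont hX (hSh Ψ (hTS (Set.mem_insert _ _))) (hUD hy₁)
        have h3 : ∀ᶠ y in 𝓝 y₁, Φ y ≠ Ψ y ∧ y ∈ U := ((h1.prodMk h2).eventually (isClosed_diagonal.isOpen_compl.mem_nhds (show (Φ y₁, Ψ y₁) ∉ Set.diagonal (MN N) from hne₁))).and (hUo.mem_nhds hy₁)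
        obtain ⟨V, hV, hVo, hyV⟩ := _root_.eventually_nhds_iff.1 h3
        obtain ⟨Ψ', hΨ', h4⟩ := ih (fun x hx => hTS (Set.mem_insert_of_mem _ hx)) V hVo ⟨y₁, hyV⟩ (fun y hy => hUD (hV y hy).2) (fun y hy => by
          obtain ⟨Ψ', hΨ', h5⟩ := hU y (hV y hy).2
          rcases hΨ' with rfl | hΨ'
          · exact absurd h5 (hV y hy).1
          · exact ⟨Ψ', hΨ', h5⟩)
        exact ⟨Ψ', Set.mem_insert_of_mem _ hΨ', h4⟩
  obtain ⟨Ψ, hΨ, y₀, hy₀, h1⟩ := key S hS subset_rfl _ hD'.isOpen_compl hne subset_rfl hcov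
  exact ⟨Ψ, hΨ, iy_ident hX hc hΦ (hSh Ψ hΨ) hy₀ h1⟩

end Pool.Agent.G4.E

end

section

/-!
# G4 E Dir: directions

`exists_dir`: in every complex subspace `S ≠ 0` there is a direction `a'` whose real closure contains `S`.
Proof.  If `ToE Λ a' E` then `E` is spanned over `ℝ` by a finite subset `t` of `Λ` (`E / (Λ ∩ E)` is compact: `Λ ∩ E` spans `E`).  For the countably many finite `t ⊆ Λ` with `S ⊄ span_ℝ t` the set `S ∩ span_ℝ t` is a proper real
subspace of `S`; countably many proper subspaces do not cover `S` (Baire).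
`toE_le`: the real closure `E` of `ℂ a` is contained in every real closure `E'` which contains `ℂ a`: a vector `v ∈ E` is a limit of vectors `l + s` with `l ∈ Λ`, `s ∈ E'` bounded, so `v - l ∈ E'` for some `l ∈ Λ` (`Λ` is discrete);
for two of the uncountably many multiples `t v` the vector `l` is the same.
`toE_top_or`: simple torus: `E = ⊤` or there is `ν ∈ E` with `i ν ∉ E` (otherwise `E` is a complex subspace, spanned by `Λ ∩ E`: `Simp`).
-/

set_option autoImplicit false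

open Topology Filter Metric

namespace Pool.Agent.G4.E

open Pool.Agent.AD (Vd Chart Charts IsGerm)
open Pool.Agent.TG
open Pool.Agent.G3.A (ToE)

variable {k : ℕ} {Λ : AddSubgroup (Vd (k + 1))}

private theorem Dir_countable (h : Lat Λ) : Countable Λ := by
  obtain ⟨δ, hδ, h1⟩ := h.disc
  have hdisc : DiscreteTopology Λ := by
    refine DiscreteTopology.of_forall_le_dist hδ ?_
    intro x y hxy
    by_contra hlt
    push Not at hlt
    apply hxy
    apply Subtype.ext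
    have h2 := h1 ((x : Vd (k + 1)) - y) (Λ.sub_mem x.2 y.2) (by
      rw [← dist_eq_norm]; exact hlt)
    exact sub_eq_zero.1 h2
  exact TopologicalSpace.separableSpace_iff_countable.1 inferInstance

/-- a cocompact set of vectors spans -/
private theorem Dir_span {E : Submodule ℝ (Vd (k + 1))} {R : ℝ} (h : ∀ v ∈ E, ∃ l ∈ Λ, l ∈ E ∧ ‖v - l‖ ≤ R) :
    Submodule.span ℝ ((Λ : Set (Vd (k + 1))) ∩ E) = E := by
  refine le_antisymm ?_ ?_
  · rw [Submodule.span_le]
    rintro l ⟨-, hl⟩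
    exact hl
  · intro v hv
    by_contra hcon
    obtain ⟨φ, hφv, hφ⟩ := Submodule.exists_le_ker_of_notMem (K := ℝ) hcon
    set φ' : Vd (k + 1) →L[ℝ] ℝ := LinearMap.toContinuousLinearMap φ with hφ'
    have hR : 0 ≤ R := by
      obtain ⟨l, -, -, hl⟩ := h 0 E.zero_mem
      exact (norm_nonneg _).trans hl
    set t : ℝ := (‖φ'‖ * R + 1) / φ v with ht
    have htv : t • v ∈ E := E.smul_mem t hv
    obtain ⟨l, hl, hlV, hlR⟩ := h _ htv
    have h1 : φ l = 0 := hφ (Submodule.subset_span ⟨hl, hlV⟩)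
    have h2 : φ' (t • v - l) = ‖φ'‖ * R + 1 := by
      have h3 : φ' (t • v - l) = t * φ v - φ l := by
        show φ (t • v - l) = _
        rw [map_sub, map_smul, smul_eq_mul]
      rw [h3, h1, sub_zero, ht, div_mul_cancel₀ _ hφv]
    have h3 := φ'.le_opNorm (t • v - l)
    rw [h2, Real.norm_of_nonneg (by positivity)] at h3
    have h4 : ‖φ'‖ * ‖t • v - l‖ ≤ ‖φ'‖ * R := mul_le_mul_of_nonneg_left hlR (norm_nonneg _)
    linarith

/-- a real closure is spanned by finitely many vectors of the lattice -/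
private theorem Dir_fin {a : Vd (k + 1)} {E : Submodule ℝ (Vd (k + 1))} (hE : ToE Λ a E) : ∃ t : Finset Λ, E = Submodule.span ℝ ((fun l : Λ => (l : Vd (k + 1))) '' (t : Set Λ)) := by
  classical
  obtain ⟨R, -, hR⟩ := hE.cpt
  have h1 := Dir_span hR
  obtain ⟨s, hs, h2⟩ := (Submodule.fg_span_iff_fg_span_finset_subset (R := ℝ) ((Λ : Set (Vd (k + 1))) ∩ E)).1 (IsNoetherian.noetherian _)
  refine ⟨s.subtype (fun x => x ∈ Λ), ?_⟩
  have h3 : (fun l : Λ => (l : Vd (k + 1))) '' ((s.subtype (fun x => x ∈ Λ) : Finset Λ) : Set Λ) = (s : Set (Vd (k + 1))) := by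
    ext x
    simp only [Set.mem_image, Finset.mem_coe, Finset.mem_subtype]
    constructor
    · rintro ⟨l, hl, rfl⟩
      exact hl
    · intro hx
      exact ⟨⟨x, (hs hx).1⟩, hx, rfl⟩
  rw [h3, ← h2, h1]

theorem exists_dir (hΛ : Lat Λ) (S : Submodule ℂ (Vd (k + 1))) (hS : S ≠ ⊥) : ∃ a' ∈ S, ‖a'‖ = 1 ∧ ∀ E, ToE Λ a' E → ∀ v ∈ S, v ∈ E := by
  classical
  have hc : Countable Λ := Dir_countable hΛ
  set SR : Submodule ℝ (Vd (k + 1)) := S.restrictScalars ℝ with hSR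
  set sp : Finset Λ → Submodule ℝ (Vd (k + 1)) := fun t => Submodule.span ℝ ((fun l : Λ => (l : Vd (k + 1))) '' (t : Set Λ)) with hsp
  -- a vector outside all proper subspaces
  obtain ⟨x, hx⟩ : ∃ x : SR, ∀ t : Finset Λ, (x : Vd (k + 1)) ∈ sp t → ∀ v ∈ S, v ∈ sp t := by
    by_contra hcon
    push Not at hcon
    have hU : ⋃ t : {t : Finset Λ // ∃ v ∈ S, v ∉ sp t}, (((sp t.1).comap SR.subtype : Submodule ℝ SR) : Set SR) = Set.univ := by
      rw [Set.eq_univ_iff_forall]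
      intro x
      obtain ⟨t, ht, v, hv, hvt⟩ := hcon x
      exact Set.mem_iUnion.2 ⟨⟨t, v, hv, hvt⟩, ht⟩
    obtain ⟨⟨t, v, hv, hvt⟩, hi⟩ := nonempty_interior_of_iUnion_of_closed (fun t => Submodule.closed_of_finiteDimensional _) hU
    have h1 := Submodule.eq_top_of_nonempty_interior' _ hi
    have h2 : (⟨v, hv⟩ : SR) ∈ (sp t).comap SR.subtype := by
      rw [h1]
      exact Submodule.mem_top
    exact hvt h2
  have hx0 : (x : Vd (k + 1)) ≠ 0 := by
    intro h0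
    apply hS
    rw [Submodule.eq_bot_iff]
    intro v hv
    have h1 := hx ∅ (by rw [h0]; exact Submodule.zero_mem _) v hv
    rw [hsp] at h1
    simpa using h1
  have hn : 0 < ‖(x : Vd (k + 1))‖ := norm_pos_iff.2 hx0
  refine ⟨(‖(x : Vd (k + 1))‖⁻¹ : ℝ) • (x : Vd (k + 1)), SR.smul_mem _ x.2, ?_, ?_⟩
  · rw [norm_smul, norm_inv, norm_norm, inv_mul_cancel₀ hn.ne']
  · intro E hE v hv
    obtain ⟨t, ht⟩ := Dir_fin hE
    have h1 : (‖(x : Vd (k + 1))‖⁻¹ : ℝ) • (x : Vd (k + 1)) ∈ E := by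
      have h2 := hE.mem 1
      rwa [one_smul] at h2
    have h2 : (x : Vd (k + 1)) ∈ E := by
      have h3 := E.smul_mem ‖(x : Vd (k + 1))‖ h1
      rwa [smul_smul, mul_inv_cancel₀ hn.ne', one_smul] at h3
    rw [ht] at h2 ⊢
    exact hx t h2 v hv

/-- `E` is contained in `Λ + E'` -/
private theorem Dir_mod (hΛ : Lat Λ) {a a' : Vd (k + 1)} {E E' : Submodule ℝ (Vd (k + 1))} (hE : ToE Λ a E) (hE' : ToE Λ a' E') (h : ∀ z : ℂ, z • a ∈ E') {v : Vd (k + 1)} (hv : v ∈ E) :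
    ∃ l ∈ Λ, v - l ∈ E' := by
  obtain ⟨δ, hδ, hdisc⟩ := hΛ.disc
  obtain ⟨R, hR, hcpt⟩ := hE'.cpt
  have h1 : ∀ n : ℕ, ∃ l ∈ Λ, ∃ s ∈ E', ‖s‖ ≤ R ∧ ‖v - l - s‖ ≤ 1 / ((n : ℝ) + 1) := by
    intro n
    obtain ⟨l, hl, -, z, hz⟩ := hE.dns v hv (1 / ((n : ℝ) + 1)) (by positivity)
    obtain ⟨l', hl', hlE, hl'R⟩ := hcpt _ (h z)
    refine ⟨l + l', Λ.add_mem hl hl', z • a - l', E'.sub_mem (h z) hlE, hl'R, ?_⟩
    have e : v - (l + l') - (z • a - l') = v - (l + z • a) := by abel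
    rw [e]
    exact hz
  choose l hl s hs hsR hls using h1
  have hbd : ∀ n, l n ∈ closedBall (0 : Vd (k + 1)) (‖v‖ + R + 1) := by
    intro n
    rw [mem_closedBall_zero_iff]
    have h2 : l n = v - s n - (v - l n - s n) := by abel
    have h3 : (1 : ℝ) / ((n : ℝ) + 1) ≤ 1 := by
      rw [div_le_one (by positivity)]
      have : (0 : ℝ) ≤ n := Nat.cast_nonneg n
      linarith
    rw [h2]
    refine (norm_sub_le _ _).trans (add_le_add ((norm_sub_le _ _).trans (add_le_add le_rfl (hsR n))) ((hls n).trans h3))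
  obtain ⟨w, -, φ, hφ, hlim⟩ := (isCompact_closedBall (0 : Vd (k + 1)) (‖v‖ + R + 1)).tendsto_subseq hbd
  obtain ⟨n₀, hn₀⟩ := eventually_atTop.1 (hlim.eventually (ball_mem_nhds w (half_pos hδ)))
  have hconst : ∀ n ≥ n₀, l (φ n) = l (φ n₀) := by
    intro n hn
    have h2 : dist (l (φ n)) w < δ / 2 := hn₀ n hn
    have h3 : dist (l (φ n₀)) w < δ / 2 := hn₀ n₀ le_rfl
    have h4 : ‖l (φ n) - l (φ n₀)‖ < δ := by
      rw [← dist_eq_norm]
      have h5 := dist_triangle_right (l (φ n)) (l (φ n₀)) w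
      linarith
    exact sub_eq_zero.1 (hdisc _ (Λ.sub_mem (hl _) (hl _)) h4)
  refine ⟨l (φ n₀), hl _, ?_⟩
  have hcl : IsClosed (E' : Set (Vd (k + 1))) := Submodule.closed_of_finiteDimensional E'
  have hst : Tendsto (fun n => s (φ n)) atTop (𝓝 (v - l (φ n₀))) := by
    have h2 : Tendsto (fun n => (1 : ℝ) / (((φ n : ℕ) : ℝ) + 1)) atTop (𝓝 0) := (tendsto_one_div_add_atTop_nhds_zero_nat (𝕜 := ℝ)).comp hφ.tendsto_atTop
    have h3 : Tendsto (fun n => v - l (φ n) - s (φ n)) atTop (𝓝 0) := squeeze_zero_norm (fun n => hls _) h2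
    have h4 : Tendsto (fun n => v - l (φ n₀) - (v - l (φ n) - s (φ n))) atTop (𝓝 (v - l (φ n₀) - 0)) := tendsto_const_nhds.sub h3
    rw [sub_zero] at h4
    refine h4.congr' ?_
    filter_upwards [eventually_ge_atTop n₀] with n hn
    rw [hconst n hn]
    abel
  exact hcl.mem_of_tendsto hst (Eventually.of_forall fun n => hs _)

theorem toE_le (hΛ : Lat Λ) {a a' : Vd (k + 1)} {E E' : Submodule ℝ (Vd (k + 1))} (hE : ToE Λ a E) (hE' : ToE Λ a' E') (h : ∀ z : ℂ, z • a ∈ E') : E ≤ E' := by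
  intro v hv
  have h1 : ∀ t : ℝ, ∃ l : Λ, t • v - l ∈ E' := fun t => by
    obtain ⟨l, hl, h2⟩ := Dir_mod hΛ hE hE' h (E.smul_mem t hv)
    exact ⟨⟨l, hl⟩, h2⟩
  choose f hf using h1
  have hc : Countable Λ := Dir_countable hΛ
  have hni : ¬ Function.Injective f := fun hi => not_countable (α := ℝ) hi.countable
  unfold Function.Injective at hni
  push Not at hni
  obtain ⟨t, t', htt, hne⟩ := hni
  have h2 := E'.sub_mem (hf t) (hf t')
  rw [htt, sub_sub_sub_cancel_right, ← sub_smul] at h2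
  have h3 := E'.smul_mem (t - t')⁻¹ h2
  rwa [smul_smul, inv_mul_cancel₀ (sub_ne_zero.2 hne), one_smul] at h3

theorem toE_top_or (hΛ : Lat Λ) (hs : Simp Λ) {a : Vd (k + 1)} (ha : a ≠ 0) {E : Submodule ℝ (Vd (k + 1))} (hE : ToE Λ a E) : E = ⊤ ∨ ∃ ν ∈ E, Complex.I • ν ∉ E := by
  have _ := hΛ
  by_cases hI : ∃ ν ∈ E, Complex.I • ν ∉ E
  · exact Or.inr hI
  refine Or.inl ?_
  push Not at hI
  obtain ⟨V, hV⟩ : ∃ V : Submodule ℂ (Vd (k + 1)), ∀ v, v ∈ V ↔ v ∈ E := by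
    refine ⟨{ carrier := {v | v ∈ E}, add_mem' := fun hv hw => E.add_mem hv hw, zero_mem' := E.zero_mem, smul_mem' := fun c v hv => ?_ }, fun v => Iff.rfl⟩
    have h1 : c • v = c.re • v + c.im • (Complex.I • v) := by
      have h2 : (c.im : ℝ) • (Complex.I • v) = ((c.im : ℂ) * Complex.I) • v := by
        rw [← smul_smul, Complex.coe_smul]
      rw [h2, ← Complex.coe_smul, ← add_smul, Complex.re_add_im]
    show c • v ∈ E
    rw [h1]
    exact E.add_mem (E.smul_mem _ hv) (E.smul_mem _ (hI v hv))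
  obtain ⟨R, -, hR⟩ := hE.cpt
  have h1 := Dir_span hR
  have haV : a ∈ V := (hV a).2 (by have := hE.mem 1; rwa [one_smul] at this)
  have hVE : V.restrictScalars ℝ = E := by
    ext v
    exact hV v
  by_contra hne
  refine hs V ?_ ?_ ?_
  · intro h0
    rw [h0] at haV
    exact ha ((Submodule.mem_bot ℂ).1 haV)
  · intro h0
    apply hne
    rw [← hVE, h0]
    rfl
  · have h2 : (V : Set (Vd (k + 1))) = E := Set.ext fun v => hV v
    rw [h2, hVE]
    exact h1

end Pool.Agent.G4.E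

end
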