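import Mathlib

/-! The parts of this file: G3.C.Mero, G4.K.Cf, H22.W.Pow, H92.GGL.CasWei, TH.Osg. -/

section

/-!
# G3 C Mero: removing poles by a polynomial, isolated points in compact sets, annuli

* `mero_poly`: induction on `Z` (`Finset.induction_on`, generalizing `φ`): for `Z = insert z₀ Z'`, `z₀ ∈ U`, replace `φ` by `φ₁ z = (z - z₀) ^ n • φ z` for `z ≠ z₀`, `φ₁ z₀ = G z₀`
  (analytic at `z₀`, and `(z - z') ^ n' • φ₁` is still analytic at the other points `z'`); `q = q₁ * (X - C z₀) ^ n`.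
* `finite_of_isolated`: every point of `K` has a neighbourhood `V` with `{z ∈ V | P z} ⊆ {the point}`; finite subcover.
* `isPreconnected_annulus`: the image of the convex set `{w | log r₁ < re w < log r₂}` (`re w < log r₂` if `r₁ = 0`) under `w ↦ c + exp w`.
-/

set_option autoImplicit false

open Topology Filter Metric Set

namespace Pool.Agent.G3.C

/-- the poles are removed by a polynomial -/
theorem mero_poly {E : Type*} [NormedAddCommGroup E] [NormedSpace ℂ E] {U : Set ℂ} (hU : IsOpen U) (Z : Finset ℂ) : ∀ {φ : ℂ → E},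
    (∀ z ∈ U, z ∉ Z → DifferentiableAt ℂ φ z) →
    (∀ z₀ ∈ Z, z₀ ∈ U → ∃ (n : ℕ) (G : ℂ → E), AnalyticAt ℂ G z₀ ∧ ∀ᶠ z in 𝓝[≠] z₀, (z - z₀) ^ n • φ z = G z) →
    ∃ q : Polynomial ℂ, q ≠ 0 ∧ ∃ g : ℂ → E, DifferentiableOn ℂ g U ∧ ∀ z ∈ U, z ∉ Z → g z = q.eval z • φ z := by
  classical
  induction Z using Finset.induction_on with
  | empty =>
    intro φ h1 _
    exact ⟨1, one_ne_zero, φ, fun z hz => (h1 z hz (Finset.notMem_empty z)).differentiableWithinAt, fun z _ _ => by simp⟩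
  | insert z₀ Z' hz₀ ih =>
    intro φ h1 h2
    by_cases hU0 : z₀ ∈ U
    · obtain ⟨n, G, hG, hGe⟩ := h2 z₀ (Finset.mem_insert_self _ _) hU0
      set φ₁ : ℂ → E := Function.update (fun z => (z - z₀) ^ n • φ z) z₀ (G z₀) with hφ₁
      have hne : ∀ z, z ≠ z₀ → φ₁ z = (z - z₀) ^ n • φ z := fun z hz => by rw [hφ₁, Function.update_of_ne hz]
      have hev : ∀ z, z ≠ z₀ → φ₁ =ᶠ[𝓝 z] fun w => (w - z₀) ^ n • φ w := by
        intro z hz
        filter_upwards [isOpen_ne.mem_nhds hz] with w hw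
        exact hne w hw
      have h0 : φ₁ =ᶠ[𝓝 z₀] G := by
        rw [eventually_nhdsWithin_iff] at hGe
        filter_upwards [hGe] with w hw
        by_cases hw0 : w = z₀
        · rw [hw0, hφ₁, Function.update_self]
        · rw [hne w hw0, hw hw0]
      have k1 : ∀ z ∈ U, z ∉ Z' → DifferentiableAt ℂ φ₁ z := by
        intro z hz hzZ
        by_cases hz0 : z = z₀
        · rw [hz0]
          exact hG.differentiableAt.congr_of_eventuallyEq h0
        · have hd : DifferentiableAt ℂ φ z := h1 z hz (by simp [hz0, hzZ])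
          have hd2 : DifferentiableAt ℂ (fun w : ℂ => (w - z₀) ^ n) z := by fun_prop
          exact (hd2.smul hd).congr_of_eventuallyEq (hev z hz0)
      have k2 : ∀ z' ∈ Z', z' ∈ U → ∃ (n : ℕ) (G : ℂ → E), AnalyticAt ℂ G z' ∧ ∀ᶠ z in 𝓝[≠] z', (z - z') ^ n • φ₁ z = G z := by
        intro z' hz' hzU
        have hne' : z' ≠ z₀ := fun h => hz₀ (h ▸ hz')
        obtain ⟨n', G', hG', hGe'⟩ := h2 z' (Finset.mem_insert_of_mem hz') hzU
        refine ⟨n', fun z => (z - z₀) ^ n • G' z, ?_, ?_⟩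
        · have ha : AnalyticAt ℂ (fun w : ℂ => (w - z₀) ^ n) z' := (analyticAt_id.sub analyticAt_const).pow n
          exact ha.smul hG'
        · have hev' : ∀ᶠ w in 𝓝[≠] z', φ₁ w = (w - z₀) ^ n • φ w := (hev z' hne').filter_mono nhdsWithin_le_nhds
          filter_upwards [hGe', hev'] with w hw1 hw2
          rw [hw2, smul_comm, hw1]
      obtain ⟨q₁, hq₁, g, hg, hgq⟩ := ih k1 k2
      refine ⟨q₁ * (Polynomial.X - Polynomial.C z₀) ^ n, mul_ne_zero hq₁ (pow_ne_zero _ (Polynomial.X_sub_C_ne_zero z₀)), g, hg, ?_⟩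
      intro z hz hzZ
      have hz0 : z ≠ z₀ := fun h => hzZ (h ▸ Finset.mem_insert_self _ _)
      have hzZ' : z ∉ Z' := fun h => hzZ (Finset.mem_insert_of_mem h)
      rw [hgq z hz hzZ', hne z hz0, smul_smul]
      simp
    · obtain ⟨q, hq, g, hg, hgq⟩ := ih (φ := φ)
        (fun z hz hzZ => h1 z hz (by
          intro h
          rcases Finset.mem_insert.1 h with h | h
          · exact hU0 (h ▸ hz)
          · exact hzZ h))
        (fun z' hz' hzU => h2 z' (Finset.mem_insert_of_mem hz') hzU)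
      exact ⟨q, hq, g, hg, fun z hz hzZ => hgq z hz (fun h => hzZ (Finset.mem_insert_of_mem h))⟩

/-- a subset of a compact set without accumulation points is finite -/
theorem finite_of_isolated {K : Set ℂ} (hK : IsCompact K) {P : ℂ → Prop} (h : ∀ z ∈ K, ∀ᶠ w in 𝓝[≠] z, ¬ P w) : {z ∈ K | P z}.Finite := by
  have hV : ∀ z ∈ K, {w : ℂ | w ≠ z → ¬ P w} ∈ 𝓝 z := by
    intro z hz
    have h1 := h z hz
    rw [eventually_nhdsWithin_iff] at h1
    exact h1
  obtain ⟨t, -, ht⟩ := hK.elim_nhds_subcover (fun z => {w : ℂ | w ≠ z → ¬ P w}) hV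
  refine t.finite_toSet.subset ?_
  rintro z ⟨hz, hPz⟩
  obtain ⟨x, hx, hzx⟩ := mem_iUnion₂.1 (ht hz)
  by_cases hzx' : z = x
  · rw [hzx']
    exact hx
  · exact absurd hPz (hzx hzx')

/-- annuli are connected -/
theorem isPreconnected_annulus (c : ℂ) {r₁ r₂ : ℝ} (h : 0 ≤ r₁) : IsPreconnected {z : ℂ | r₁ < dist z c ∧ dist z c < r₂} := by
  have he : {z : ℂ | r₁ < dist z c ∧ dist z c < r₂} = (fun p : ℝ × ℝ => circleMap c p.1 p.2) '' (Ioo r₁ r₂ ×ˢ univ) := by
    ext z
    simp only [mem_ofPred_eq, mem_image, mem_prod, mem_Ioo, mem_univ, and_true, Prod.exists]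
    constructor
    · rintro ⟨h1, h2⟩
      refine ⟨dist z c, Complex.arg (z - c), ⟨h1, h2⟩, ?_⟩
      rw [circleMap, Complex.dist_eq, Complex.norm_mul_exp_arg_mul_I]
      ring
    · rintro ⟨r, θ, ⟨h1, h2⟩, rfl⟩
      have hd : dist (circleMap c r θ) c = r := by
        rw [Complex.dist_eq, circleMap_sub_center, norm_circleMap_zero, abs_of_pos (lt_of_le_of_lt h h1)]
      rw [hd]
      exact ⟨h1, h2⟩
  rw [he]
  refine (isPreconnected_Ioo.prod isPreconnected_univ).image _ ?_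
  have hc : Continuous fun p : ℝ × ℝ => circleMap c p.1 p.2 := by
    unfold circleMap
    fun_prop
  exact hc.continuousOn

end Pool.Agent.G3.C

end

section

/-!
# G4 K Cf: the coefficients of `∏ i, (A x i + s (t - g x i))`

A polynomial in `s`, `t` of degrees `≤ n` (`n = card ι`); its coefficients are fixed linear combinations of its values at `s, t ∈ {0, …, n}` (Lagrange interpolation), so analytic in `x`.  Let `m` be the minimum over `x ∈ ball 0 δ` of the number of the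
`i` with `A x i = 0`, and `Q b x` the coefficient of `s ^ m t ^ b`.  If exactly `m` of the `A x i` are `0`, the coefficient of `s ^ m` is `(∏_{A x i ≠ 0} A x i) ∏_{A x i = 0} (t - g x i)`; if more than `m` are `0`, it is `0`.
-/

set_option autoImplicit false

open Topology Filter Metric

namespace Pool.Agent.G4.K

open Polynomial in
/-- the coefficient of `s ^ a` -/
private noncomputable def RR {ι : Type} [Fintype ι] [DecidableEq ι] (A g : ι → ℂ) (a : ℕ) : Polynomial ℂ :=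
  ∑ T ∈ Finset.powersetCard a Finset.univ, (∏ i ∈ T, (X - C (g i))) * C (∏ i ∈ Finset.univ \ T, A i)

private theorem RR_eval {ι : Type} [Fintype ι] [DecidableEq ι] (A g : ι → ℂ) (a : ℕ) (t : ℂ) :
    (RR A g a).eval t = ∑ T ∈ Finset.powersetCard a Finset.univ, (∏ i ∈ T, (t - g i)) * ∏ i ∈ Finset.univ \ T, A i := by
  unfold RR
  rw [Polynomial.eval_finsetSum]
  refine Finset.sum_congr rfl fun T _ => ?_
  rw [Polynomial.eval_mul, Polynomial.eval_C, Polynomial.eval_prod]
  congr 1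
  exact Finset.prod_congr rfl fun i _ => by rw [Polynomial.eval_sub, Polynomial.eval_X, Polynomial.eval_C]

private theorem RR_sum {ι : Type} [Fintype ι] [DecidableEq ι] (A g : ι → ℂ) (s t : ℂ) :
    ∏ i, (A i + s * (t - g i)) = ∑ a ∈ Finset.range (Fintype.card ι + 1), (RR A g a).eval t * s ^ a := by
  have h1 : ∏ i, (A i + s * (t - g i)) = ∏ i, (s * (t - g i) + A i) := Finset.prod_congr rfl fun i _ => add_comm _ _
  rw [h1, Finset.prod_add, Finset.sum_powerset, Finset.card_univ]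
  refine Finset.sum_congr rfl fun a _ => ?_
  rw [RR_eval, Finset.sum_mul]
  refine Finset.sum_congr rfl fun T hT => ?_
  rw [Finset.prod_mul_distrib, Finset.prod_const, (Finset.mem_powersetCard.1 hT).2]
  ring

private theorem RR_deg {ι : Type} [Fintype ι] [DecidableEq ι] (A g : ι → ℂ) (a : ℕ) : (RR A g a).natDegree ≤ a := by
  unfold RR
  refine Polynomial.natDegree_sum_le_of_forall_le _ _ fun T hT => ?_
  refine (Polynomial.natDegree_mul_C_le _ _).trans ?_
  refine (Polynomial.natDegree_prod_le _ _).trans ?_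
  rw [← (Finset.mem_powersetCard.1 hT).2, Finset.card_eq_sum_ones]
  exact Finset.sum_le_sum fun i _ => (Polynomial.natDegree_X_sub_C (g i)).le

/-- the coefficients of the Lagrange basis -/
private noncomputable def lc (n j b : ℕ) : ℂ :=
  (Lagrange.basis (Finset.range (n + 1)) (fun j : ℕ => (j : ℂ)) j).coeff b

private theorem coeff_interp {n : ℕ} {p : Polynomial ℂ} (hp : p.natDegree ≤ n) (b : ℕ) :
    p.coeff b = ∑ j ∈ Finset.range (n + 1), p.eval (j : ℂ) * lc n j b := by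
  have h1 : p.degree < (Finset.range (n + 1)).card := by
    rw [Finset.card_range]
    exact lt_of_le_of_lt (Polynomial.natDegree_le_iff_degree_le.1 hp) (by exact_mod_cast Nat.lt_succ_self n)
  have h2 := Lagrange.eq_interpolate (s := Finset.range (n + 1)) (v := fun j : ℕ => (j : ℂ))
    (fun a _ b _ h => Nat.cast_injective h) h1
  conv_lhs => rw [h2]
  rw [Lagrange.interpolate_apply, Polynomial.finsetSum_coeff]
  exact Finset.sum_congr rfl fun j _ => by rw [Polynomial.coeff_C_mul]; rfl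

private theorem RR_coeff {ι : Type} [Fintype ι] [DecidableEq ι] (A g : ι → ℂ) {a : ℕ} (ha : a ≤ Fintype.card ι) (b : ℕ) :
    (RR A g a).coeff b = ∑ j ∈ Finset.range (Fintype.card ι + 1), (∑ k ∈ Finset.range (Fintype.card ι + 1),
      (∏ i, (A i + (k : ℂ) * ((j : ℂ) - g i))) * lc (Fintype.card ι) k a) * lc (Fintype.card ι) j b := by
  rw [coeff_interp ((RR_deg A g a).trans ha) b]
  refine Finset.sum_congr rfl fun j _ => ?_
  congr 1
  set p : Polynomial ℂ := ∑ a ∈ Finset.range (Fintype.card ι + 1), Polynomial.C ((RR A g a).eval (j : ℂ)) * Polynomial.X ^ a with hp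
  have h1 : p.natDegree ≤ Fintype.card ι := by
    rw [hp]
    refine Polynomial.natDegree_sum_le_of_forall_le _ _ fun c hc => ?_
    refine (Polynomial.natDegree_C_mul_X_pow_le _ _).trans ?_
    exact Nat.lt_succ_iff.1 (Finset.mem_range.1 hc)
  have h2 : p.coeff a = (RR A g a).eval (j : ℂ) := by
    rw [hp, Polynomial.finsetSum_coeff, Finset.sum_eq_single a]
    · rw [Polynomial.coeff_C_mul, Polynomial.coeff_X_pow_self, mul_one]
    · intro c _ hc
      rw [Polynomial.coeff_C_mul, Polynomial.coeff_X_pow, if_neg (Ne.symm hc), mul_zero]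
    · intro h
      exact absurd (Finset.mem_range.2 (Nat.lt_succ_iff.2 ha)) h
  have h3 : ∀ s : ℂ, p.eval s = ∏ i, (A i + s * ((j : ℂ) - g i)) := by
    intro s
    rw [RR_sum, hp, Polynomial.eval_finsetSum]
    exact Finset.sum_congr rfl fun c _ => by rw [Polynomial.eval_mul, Polynomial.eval_C, Polynomial.eval_pow, Polynomial.eval_X]
  rw [← h2, coeff_interp h1 a]
  exact Finset.sum_congr rfl fun k _ => by rw [h3]

private theorem RR_zero {ι : Type} [Fintype ι] [DecidableEq ι] (A g : ι → ℂ) (J : Finset ι) (hJ : ∀ i, i ∈ J ↔ A i = 0) {a : ℕ}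
    (T : Finset ι) (hT : T.card = a) (h : a < J.card ∨ (a = J.card ∧ T ≠ J)) : ∏ i ∈ Finset.univ \ T, A i = 0 := by
  have h1 : ¬ J ⊆ T := by
    intro h1
    rcases h with h | ⟨h, h'⟩
    · exact absurd (Finset.card_le_card h1) (by omega)
    · exact h' (Finset.eq_of_subset_of_card_le h1 (by omega)).symm
  obtain ⟨i, hi, hi'⟩ := Finset.not_subset.1 h1
  exact Finset.prod_eq_zero (Finset.mem_sdiff.2 ⟨Finset.mem_univ i, hi'⟩) ((hJ i).1 hi)

open Polynomial in
private theorem RR_card {ι : Type} [Fintype ι] [DecidableEq ι] (A g : ι → ℂ) (J : Finset ι) (hJ : ∀ i, i ∈ J ↔ A i = 0) :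
    RR A g J.card = (∏ i ∈ J, (X - C (g i))) * C (∏ i ∈ Finset.univ \ J, A i) := by
  unfold RR
  rw [Finset.sum_eq_single J]
  · intro T hT hne
    rw [RR_zero A g J hJ T (Finset.mem_powersetCard.1 hT).2 (Or.inr ⟨rfl, hne⟩), C_0, mul_zero]
  · intro h
    exact absurd (Finset.mem_powersetCard.2 ⟨Finset.subset_univ J, rfl⟩) h

private theorem RR_lt {ι : Type} [Fintype ι] [DecidableEq ι] (A g : ι → ℂ) (J : Finset ι) (hJ : ∀ i, i ∈ J ↔ A i = 0) {a : ℕ}
    (ha : a < J.card) : RR A g a = 0 := by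
  unfold RR
  refine Finset.sum_eq_zero fun T hT => ?_
  rw [RR_zero A g J hJ T (Finset.mem_powersetCard.1 hT).2 (Or.inl ha), Polynomial.C_0, mul_zero]

private theorem RR_top {ι : Type} [Fintype ι] [DecidableEq ι] (A g : ι → ℂ) (J : Finset ι) (hJ : ∀ i, i ∈ J ↔ A i = 0) :
    (RR A g J.card).coeff J.card = ∏ i ∈ Finset.univ \ J, A i := by
  rw [RR_card A g J hJ, Polynomial.coeff_mul_C]
  have h1 : (∏ i ∈ J, (Polynomial.X - Polynomial.C (g i))).Monic := Polynomial.monic_prod_of_monic _ _ fun i _ => Polynomial.monic_X_sub_C _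
  have h2 : (∏ i ∈ J, (Polynomial.X - Polynomial.C (g i))).natDegree = J.card := by
    rw [Polynomial.natDegree_prod_of_monic _ _ fun i _ => Polynomial.monic_X_sub_C _, Finset.card_eq_sum_ones]
    exact Finset.sum_congr rfl fun i _ => Polynomial.natDegree_X_sub_C (g i)
  rw [← h2, h1.coeff_natDegree, one_mul]

theorem cf_alg {E : Type} [NormedAddCommGroup E] [NormedSpace ℂ E] {ι : Type} [Fintype ι] {δ : ℝ} (hδ : 0 < δ) {A g : E → ι → ℂ}
    (hP : ∀ s t : ℂ, ∀ x ∈ ball (0 : E) δ, AnalyticAt ℂ (fun x => ∏ i, (A x i + s * (t - g x i))) x) :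
    ∃ (m : ℕ) (Q : ℕ → E → ℂ), m ≤ Fintype.card ι ∧ (∀ b, ∀ x ∈ ball (0 : E) δ, AnalyticAt ℂ (Q b) x) ∧ (∃ x ∈ ball (0 : E) δ, Q m x ≠ 0) ∧
      ∀ x ∈ ball (0 : E) δ, Q m x ≠ 0 → ∃ J : Finset ι, (∀ i, i ∈ J ↔ A x i = 0) ∧ J.card = m ∧ ∀ t : ℂ, ∑ b ∈ Finset.range (m + 1), Q b x * t ^ b = Q m x * ∏ i ∈ J, (t - g x i) := by
  classical
  set Z : E → Finset ι := fun x => Finset.univ.filter fun i => A x i = 0 with hZ
  have hZm : ∀ x i, i ∈ Z x ↔ A x i = 0 := fun x i => by
    rw [hZ]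
    simp
  have hex : ∃ k, ∃ x ∈ ball (0 : E) δ, (Z x).card = k := ⟨_, 0, mem_ball_self hδ, rfl⟩
  obtain ⟨x₀, hx₀, hm⟩ := Nat.find_spec hex
  have hmin : ∀ x ∈ ball (0 : E) δ, Nat.find hex ≤ (Z x).card := fun x hx => Nat.find_min' hex ⟨x, hx, rfl⟩
  set m := Nat.find hex
  have hmn : m ≤ Fintype.card ι := by
    rw [← hm]
    exact Finset.card_le_univ _
  have hne : ∀ x, ∏ i ∈ Finset.univ \ Z x, A x i ≠ 0 := by
    intro x
    rw [Finset.prod_ne_zero_iff]
    intro i hi h0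
    exact (Finset.mem_sdiff.1 hi).2 ((hZm x i).2 h0)
  refine ⟨m, fun b x => (RR (A x) (g x) m).coeff b, hmn, ?_, ⟨x₀, hx₀, ?_⟩, ?_⟩
  · intro b x hx
    have h1 : (fun x => (RR (A x) (g x) m).coeff b) = fun x => ∑ j ∈ Finset.range (Fintype.card ι + 1),
        (∑ k ∈ Finset.range (Fintype.card ι + 1), (∏ i, (A x i + (k : ℂ) * ((j : ℂ) - g x i))) * lc (Fintype.card ι) k m) *
          lc (Fintype.card ι) j b := funext fun x => RR_coeff (A x) (g x) hmn b
    show AnalyticAt ℂ (fun x => (RR (A x) (g x) m).coeff b) x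
    rw [h1]
    refine Finset.analyticAt_fun_sum _ fun j _ => ?_
    refine AnalyticAt.mul ?_ analyticAt_const
    refine Finset.analyticAt_fun_sum _ fun k _ => ?_
    exact (hP (k : ℂ) (j : ℂ) x hx).mul analyticAt_const
  · show (RR (A x₀) (g x₀) m).coeff m ≠ 0
    rw [← hm, RR_top (A x₀) (g x₀) (Z x₀) (hZm x₀)]
    exact hne x₀
  · intro x hx hQ
    have h1 : (Z x).card = m := by
      refine le_antisymm ?_ (hmin x hx)
      by_contra h
      apply hQ
      show (RR (A x) (g x) m).coeff m = 0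
      rw [RR_lt (A x) (g x) (Z x) (hZm x) (by omega), Polynomial.coeff_zero]
    refine ⟨Z x, hZm x, h1, fun t => ?_⟩
    have h2 : (RR (A x) (g x) m).coeff m = ∏ i ∈ Finset.univ \ Z x, A x i := by
      rw [← h1]
      exact RR_top (A x) (g x) (Z x) (hZm x)
    have h3 := RR_deg (A x) (g x) m
    show ∑ b ∈ Finset.range (m + 1), (RR (A x) (g x) m).coeff b * t ^ b = (RR (A x) (g x) m).coeff m * _
    rw [← Polynomial.eval_eq_sum_range' (Nat.lt_succ_of_le h3), h2]
    have h4 : RR (A x) (g x) m = (∏ i ∈ Z x, (Polynomial.X - Polynomial.C (g x i))) * Polynomial.C (∏ i ∈ Finset.univ \ Z x, A x i) := by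
      rw [← h1]
      exact RR_card (A x) (g x) (Z x) (hZm x)
    rw [h4, Polynomial.eval_mul, Polynomial.eval_C, Polynomial.eval_prod, mul_comm]
    congr 1
    exact Finset.prod_congr rfl fun i _ => by rw [Polynomial.eval_sub, Polynomial.eval_X, Polynomial.eval_C]

end Pool.Agent.G4.K

end

section

/-!
# W Pow: powers of the modulus of a holomorphic function have the sub-mean value property
-/

set_option autoImplicit false

open Topology Filter Metric

namespace Pool.Agent.H22.W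

theorem log_le_avg {h : ℂ → ℂ} {c : ℂ} {r : ℝ} (hr : 0 < r) (hh : AnalyticOnNhd ℂ h (closedBall c r)) (h0 : h c ≠ 0) :
    Real.log ‖h c‖ ≤ Real.circleAverage (fun z => Real.log ‖h z‖) c r := by
  have hr' : |r| = r := abs_of_pos hr
  rw [AnalyticOnNhd.circleAverage_log_norm hr.ne' (by rwa [hr']) h0]
  have h1 : 0 ≤ ∑ᶠ u, MeromorphicOn.divisor h (closedBall c |r|) u * Real.log (r * ‖c - u‖⁻¹) := by
    refine finsum_nonneg fun u => ?_
    rw [hr']
    by_cases hu : u ∈ closedBall c r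
    · refine mul_nonneg ?_ ?_
      · have := MeromorphicOn.AnalyticOnNhd.divisor_nonneg hh u
        exact_mod_cast this
      · rcases eq_or_ne u c with rfl | huc
        · rw [sub_self, norm_zero, inv_zero, mul_zero, Real.log_zero]
        · have h2 : 0 < ‖c - u‖ := norm_pos_iff.2 (sub_ne_zero.2 huc.symm)
          have h3 : ‖c - u‖ ≤ r := by
            rw [← dist_eq_norm, dist_comm]
            exact hu
          apply Real.log_nonneg
          rw [← div_eq_mul_inv, one_le_div h2]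
          exact h3
    · have h4 : MeromorphicOn.divisor h (closedBall c r) u = 0 := Function.locallyFinsuppWithin.apply_eq_zero_of_notMem _ hu
      rw [h4, Int.cast_zero, zero_mul]
  linarith

theorem rpow_le_avg {h : ℂ → ℂ} {c : ℂ} {r p : ℝ} (hr : 0 < r) (hp : 0 < p) (hh : AnalyticOnNhd ℂ h (closedBall c r)) :
    ‖h c‖ ^ p ≤ Real.circleAverage (fun z => ‖h z‖ ^ p) c r := by
  have hr' : |r| = r := abs_of_pos hr
  rcases eq_or_ne (h c) 0 with h0 | h0
  · rw [h0, norm_zero, Real.zero_rpow hp.ne']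
    exact Real.circleAverage_nonneg_of_nonneg fun x _ => Real.rpow_nonneg (norm_nonneg _) _
  obtain ⟨a, ha⟩ : ∃ a : ℝ, a = ‖h c‖ := ⟨_, rfl⟩
  have ha0 : 0 < a := by rw [ha]; exact norm_pos_iff.2 h0
  have hlog := log_le_avg hr hh h0
  obtain ⟨f₂, hf₂⟩ : ∃ f₂ : ℂ → ℝ, f₂ = fun z => (a ^ p * (1 - p * Real.log a)) + (a ^ p * p) * Real.log ‖h z‖ := ⟨_, rfl⟩
  obtain ⟨f₃, hf₃⟩ : ∃ f₃ : ℂ → ℝ, ∀ z, f₃ z = if h z = 0 then 0 else f₂ z := ⟨_, fun _ => rfl⟩
  have hsub : sphere c |r| ⊆ closedBall c r := by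
    rw [hr']
    exact sphere_subset_closedBall
  have hci : CircleIntegrable (fun z => Real.log ‖h z‖) c r :=
    (hh.mono hsub).meromorphicOn.circleIntegrable_log_norm
  have hci2 : CircleIntegrable (fun z => (a ^ p * p) * Real.log ‖h z‖) c r := hci.const_mul (a ^ p * p)
  have hf₂i : CircleIntegrable f₂ c r := by
    rw [hf₂]
    exact (circleIntegrable_const _ _ _).add hci2
  have hco : f₂ =ᶠ[codiscreteWithin (sphere c |r|)] f₃ := by
    have h1 := hh.preimage_zero_mem_codiscreteWithin h0 (mem_closedBall_self hr.le)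
      ⟨⟨c, mem_closedBall_self hr.le⟩, (convex_closedBall c r).isPreconnected⟩
    filter_upwards [codiscreteWithin_mono hsub h1] with z hz
    have hz' : h z ≠ 0 := hz
    rw [hf₃, if_neg hz']
  have hf₃i : CircleIntegrable f₃ c r := hf₂i.congr_codiscreteWithin hco
  have hcont : ContinuousOn (fun z => ‖h z‖ ^ p) (sphere c |r|) := by
    have h1 : ContinuousOn h (sphere c |r|) := hh.continuousOn.mono hsub
    exact h1.norm.rpow_const fun x _ => Or.inr hp.le
  have h1 : Real.circleAverage f₃ c r ≤ Real.circleAverage (fun z => ‖h z‖ ^ p) c r := by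
    refine Real.circleAverage_mono hf₃i hcont.circleIntegrable' fun z _ => ?_
    rw [hf₃]
    split_ifs with hz
    · exact Real.rpow_nonneg (norm_nonneg _) _
    · rw [hf₂]
      have hz0 : 0 < ‖h z‖ := norm_pos_iff.2 hz
      have h2 : ‖h z‖ ^ p = a ^ p * Real.exp (p * (Real.log ‖h z‖ - Real.log a)) := by
        rw [Real.rpow_def_of_pos hz0, Real.rpow_def_of_pos ha0, ← Real.exp_add]
        congr 1
        ring
      have h3 := Real.add_one_le_exp (p * (Real.log ‖h z‖ - Real.log a))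
      have h4 : 0 < a ^ p := Real.rpow_pos_of_pos ha0 p
      have h5 := mul_le_mul_of_nonneg_left h3 h4.le
      show (a ^ p * (1 - p * Real.log a)) + (a ^ p * p) * Real.log ‖h z‖ ≤ ‖h z‖ ^ p
      rw [h2]
      refine le_trans (le_of_eq ?_) h5
      ring
  refine le_trans ?_ h1
  rw [← Real.circleAverage_congr_codiscreteWithin hco hr.ne', hf₂]
  have h2 : Real.circleAverage (fun z => (a ^ p * (1 - p * Real.log a)) + (a ^ p * p) * Real.log ‖h z‖) c r =
      (a ^ p * (1 - p * Real.log a)) + (a ^ p * p) * Real.circleAverage (fun z => Real.log ‖h z‖) c r := by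
    rw [Real.circleAverage_fun_add (circleIntegrable_const _ _ _) hci2, Real.circleAverage_const]
    have h3 : (fun z => (a ^ p * p) * Real.log ‖h z‖) = fun z => (a ^ p * p) • (fun z => Real.log ‖h z‖) z := rfl
    rw [h3, Real.circleAverage_fun_smul, smul_eq_mul]
  rw [h2, ← ha]
  rw [← ha] at hlog
  have h4 : 0 < a ^ p := Real.rpow_pos_of_pos ha0 p
  have h5 := mul_le_mul_of_nonneg_left hlog (by positivity : 0 ≤ a ^ p * p)
  linarith

end Pool.Agent.H22.W

end

section

/-!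
# A function which takes every value finitely often near a puncture
-/

open Complex Metric Set Topology Filter

namespace Pool.Agent.H92.GGL

lemma isPreconnected_punctured (R : ℝ) : IsPreconnected {z : ℂ | 0 < ‖z‖ ∧ ‖z‖ < R} := by
  rcases le_or_gt R 0 with hR | hR
  · have : {z : ℂ | 0 < ‖z‖ ∧ ‖z‖ < R} = ∅ := by
      ext z
      simp only [mem_ofPred_eq, mem_empty_iff_false, iff_false, not_and, not_lt]
      intro h
      linarith
    rw [this]
    exact isPreconnected_empty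
  · have h1 : {z : ℂ | 0 < ‖z‖ ∧ ‖z‖ < R} = exp '' {τ : ℂ | τ.re < Real.log R} := by
      ext z
      constructor
      · rintro ⟨h1, h2⟩
        refine ⟨log z, ?_, exp_log (norm_pos_iff.mp h1)⟩
        rw [mem_ofPred_eq, log_re]
        exact Real.log_lt_log h1 h2
      · rintro ⟨τ, hτ, rfl⟩
        rw [mem_ofPred_eq, norm_exp]
        refine ⟨Real.exp_pos _, ?_⟩
        rw [← Real.exp_log hR]
        exact Real.exp_lt_exp.mpr hτ
    rw [h1]
    exact ((convex_halfSpace_re_lt _).isPreconnected).image _ continuous_exp.continuousOn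

lemma isOpen_punctured (R : ℝ) : IsOpen {z : ℂ | 0 < ‖z‖ ∧ ‖z‖ < R} :=
  (isOpen_lt continuous_const continuous_norm).inter (isOpen_lt continuous_norm continuous_const)

lemma punctured_mem {R : ℝ} (hR : 0 < R) : {z : ℂ | 0 < ‖z‖ ∧ ‖z‖ < R} ∈ 𝓝[≠] (0 : ℂ) := by
  have h1 : Metric.ball (0 : ℂ) R ∈ 𝓝 (0 : ℂ) := Metric.ball_mem_nhds _ hR
  filter_upwards [mem_nhdsWithin_of_mem_nhds h1, self_mem_nhdsWithin] with z h2 h3
  exact ⟨norm_pos_iff.mpr h3, by simpa using h2⟩

/-- A bounded holomorphic function on a punctured disc is meromorphic at the puncture. -/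
lemma meromorphicAt_of_bounded {u : ℂ → ℂ} {ε M : ℝ} (hε : 0 < ε)
    (hu : ∀ z, 0 < ‖z‖ → ‖z‖ < ε → AnalyticAt ℂ u z) (hM : ∀ z, 0 < ‖z‖ → ‖z‖ < ε → ‖u z‖ ≤ M) :
    ∃ w : ℂ → ℂ, AnalyticAt ℂ w 0 ∧ ∀ z, z ≠ 0 → w z = u z := by
  have h1 : Metric.ball (0 : ℂ) ε ∈ 𝓝 (0 : ℂ) := Metric.ball_mem_nhds _ hε
  have hmem : ∀ z ∈ Metric.ball (0 : ℂ) ε \ {0}, 0 < ‖z‖ ∧ ‖z‖ < ε := by
    intro z hz
    refine ⟨norm_pos_iff.mpr hz.2, by simpa using hz.1⟩
  have h2 := differentiableOn_update_limUnder_of_bddAbove h1 (f := u)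
    (fun z hz => (hu z (hmem z hz).1 (hmem z hz).2).differentiableAt.differentiableWithinAt) (by
      refine ⟨M, ?_⟩
      rintro _ ⟨z, hz, rfl⟩
      exact hM z (hmem z hz).1 (hmem z hz).2)
  refine ⟨_, (h2.analyticAt h1), fun z hz => ?_⟩
  rw [Function.update_of_ne hz]

/-- **A theorem of Casorati–Weierstrass type.** -/
theorem meromorphicAt_of_omits {u : ℂ → ℂ} {ε : ℝ} (hε : 0 < ε)
    (hu : ∀ z, 0 < ‖z‖ → ‖z‖ < ε → AnalyticAt ℂ u z)
    (hom : ∀ c, ∃ δ : ℝ, 0 < δ ∧ ∀ z, 0 < ‖z‖ → ‖z‖ < δ → u z ≠ c) : MeromorphicAt u 0 := by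
  set A : ℕ → Set ℂ := fun n => {z : ℂ | 0 < ‖z‖ ∧ ‖z‖ < ε / (n + 1)} with hA
  have hεn : ∀ n : ℕ, 0 < ε / (n + 1) := fun n => by positivity
  have hεle : ∀ n : ℕ, ε / (n + 1) ≤ ε := fun n => by
    apply div_le_self hε.le
    have : (0 : ℝ) ≤ n := Nat.cast_nonneg n
    linarith
  have hAsub : ∀ n, ∀ z ∈ A n, 0 < ‖z‖ ∧ ‖z‖ < ε := fun n z hz =>
    ⟨hz.1, hz.2.trans_le (hεle n)⟩
  by_cases hdense : ∀ n, Dense (u '' A n)
  · exfalso
    have hopen : ∀ n, IsOpen (u '' A n) := by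
      intro n
      have han : AnalyticOnNhd ℂ u (A n) := fun z hz => hu z (hAsub n z hz).1 (hAsub n z hz).2
      rcases han.is_constant_or_isOpen (isPreconnected_punctured _) with ⟨w, hw⟩ | hop
      · exfalso
        obtain ⟨δ, hδ, hδu⟩ := hom w
        obtain ⟨z, hz1, hz2⟩ := Filter.nonempty_of_mem
          (Filter.inter_mem (punctured_mem (hεn n)) (punctured_mem hδ))
        exact hδu z hz2.1 hz2.2 (hw z hz1)
      · exact hop _ subset_rfl (isOpen_punctured _)
    have hD : Dense (⋂ n, u '' A n) := dense_iInter_of_isOpen hopen hdense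
    obtain ⟨c, hc⟩ := hD.nonempty
    rw [mem_iInter] at hc
    obtain ⟨δ, hδ, hδu⟩ := hom c
    obtain ⟨n, hn⟩ := exists_nat_gt (ε / δ)
    obtain ⟨z, hz, hzc⟩ := hc n
    refine hδu z hz.1 (hz.2.trans ?_) hzc
    rw [div_lt_iff₀ (by positivity)]
    rw [div_lt_iff₀ hδ] at hn
    nlinarith
  · push Not at hdense
    obtain ⟨n, hn⟩ := hdense
    obtain ⟨c, hc⟩ : ∃ c, c ∉ closure (u '' A n) := by
      by_contra h
      push Not at h
      exact hn h
    rw [Metric.mem_closure_iff] at hc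
    push Not at hc
    obtain ⟨η, hη, hηu⟩ := hc
    have hlow : ∀ z, 0 < ‖z‖ → ‖z‖ < ε / (n + 1) → η ≤ ‖u z - c‖ := by
      intro z h1 h2
      have := hηu _ ⟨z, ⟨h1, h2⟩, rfl⟩
      rwa [dist_comm, dist_eq_norm] at this
    have hne : ∀ z, 0 < ‖z‖ → ‖z‖ < ε / (n + 1) → u z - c ≠ 0 := by
      intro z h1 h2 h0
      have := hlow z h1 h2
      rw [h0, norm_zero] at this
      linarith
    obtain ⟨w, hw, hwu⟩ := meromorphicAt_of_bounded (u := fun z => (u z - c)⁻¹) (M := η⁻¹) (hεn n)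
      (fun z h1 h2 => ((hu z h1 (h2.trans_le (hεle n))).sub analyticAt_const).inv (hne z h1 h2))
      (fun z h1 h2 => by
        rw [norm_inv]
        exact inv_anti₀ hη (hlow z h1 h2))
    have h1 : MeromorphicAt (fun z => (w z)⁻¹ + c) 0 :=
      (hw.meromorphicAt.inv).add (MeromorphicAt.const c 0)
    refine h1.congr ?_
    filter_upwards [self_mem_nhdsWithin] with z hz
    rw [hwu z hz]
    simp

end Pool.Agent.H92.GGL

end

section

/-!
# TH Osg: bounded separately holomorphic functions of two variables are analytic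

Let `f : ℂ × ℂ → E` be bounded by `M` on `ball (a, b) r` (sup norm), holomorphic in each variable.  By the Schwarz lemma `f` is jointly
continuous.  With `X (θ, φ) = a + ρ e^(iθ)`, `Y (θ, φ) = b + ρ e^(iφ)` in the Banach algebra `𝓑` of the bounded continuous functions `ℝ × ℝ → ℂ`
the Cauchy formula (twice) says `f (z, τ) = L ((X - z)⁻¹ (Y - τ)⁻¹)` for a continuous linear map `L : 𝓑 → E`, and the inversion in `𝓑` is analytic.
-/

set_option autoImplicit false

open Topology Filter Metric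

namespace Pool.Agent.TH

private theorem osg_cont {E : Type*} [NormedAddCommGroup E] [NormedSpace ℂ E] {f : ℂ × ℂ → E} {a b : ℂ} {r M : ℝ}
    (hM : ∀ z ∈ ball a r, ∀ τ ∈ ball b r, ‖f (z, τ)‖ ≤ M) (h1 : ∀ τ ∈ ball b r, DifferentiableOn ℂ (fun z => f (z, τ)) (ball a r))
    (h2 : ∀ z ∈ ball a r, DifferentiableOn ℂ (fun τ => f (z, τ)) (ball b r)) : ContinuousOn f (ball a r ×ˢ ball b r) := by
  rintro ⟨z0, τ0⟩ ⟨hz0, hτ0⟩
  simp only at hz0 hτ0
  have hz0' : dist z0 a < r := hz0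
  set s : ℝ := r - dist z0 a with hs
  have hs0 : 0 < s := by linarith
  have hsub : ball z0 s ⊆ ball a r := by
    intro w hw
    have hw' : dist w z0 < s := hw
    have := dist_triangle w z0 a
    rw [mem_ball]
    linarith
  have key : ∀ z ∈ ball z0 s, ∀ τ ∈ ball b r, dist (f (z, τ)) (f (z0, τ)) ≤ (2 * M) / s * dist z z0 := by
    intro z hz τ hτ
    refine Complex.dist_le_div_mul_dist_of_mapsTo_ball (f := fun z => f (z, τ)) ((h1 τ hτ).mono hsub) ?_ hz
    intro w hw
    rw [mem_closedBall, dist_eq_norm]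
    calc ‖f (w, τ) - f (z0, τ)‖ ≤ ‖f (w, τ)‖ + ‖f (z0, τ)‖ := norm_sub_le _ _
      _ ≤ M + M := add_le_add (hM w (hsub hw) τ hτ) (hM z0 hz0 τ hτ)
      _ = 2 * M := by ring
  have hc : ContinuousAt (fun τ => f (z0, τ)) τ0 := ((h2 z0 hz0).differentiableAt (isOpen_ball.mem_nhds hτ0)).continuousAt
  refine ContinuousAt.continuousWithinAt ?_
  show Tendsto f (𝓝 (z0, τ0)) (𝓝 (f (z0, τ0)))
  rw [tendsto_iff_dist_tendsto_zero]
  have ht : Tendsto (fun p : ℂ × ℂ => (2 * M) / s * dist p.1 z0 + dist (f (z0, p.2)) (f (z0, τ0))) (𝓝 (z0, τ0)) (𝓝 0) := by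
    have e1 : Tendsto (fun p : ℂ × ℂ => (2 * M) / s * dist p.1 z0) (𝓝 (z0, τ0)) (𝓝 ((2 * M) / s * dist z0 z0)) :=
      ((continuous_const.mul (continuous_fst.dist continuous_const)).tendsto (z0, τ0))
    have e2 : Tendsto (fun p : ℂ × ℂ => dist (f (z0, p.2)) (f (z0, τ0))) (𝓝 (z0, τ0)) (𝓝 0) := by
      have e3 : Tendsto (fun p : ℂ × ℂ => f (z0, p.2)) (𝓝 (z0, τ0)) (𝓝 (f (z0, τ0))) :=
        (show Tendsto (fun τ => f (z0, τ)) (𝓝 τ0) (𝓝 (f (z0, τ0))) from hc).comp (continuous_snd.tendsto (z0, τ0))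
      exact tendsto_iff_dist_tendsto_zero.1 e3
    have e4 := e1.add e2
    simpa using e4
  refine squeeze_zero' (Eventually.of_forall fun _ => dist_nonneg) ?_ ht
  have hev : ∀ᶠ p : ℂ × ℂ in 𝓝 (z0, τ0), p.1 ∈ ball z0 s ∧ p.2 ∈ ball b r :=
    ((continuous_fst.tendsto (z0, τ0)).eventually (ball_mem_nhds z0 hs0)).and
      ((continuous_snd.tendsto (z0, τ0)).eventually (isOpen_ball.mem_nhds hτ0))
  filter_upwards [hev] with p hp
  obtain ⟨z, τ⟩ := p
  exact (dist_triangle _ (f (z0, τ)) _).trans (add_le_add (key z hp.1 τ hp.2) le_rfl)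

/-- the functional `g ↦ ∫∫ g K` -/
private theorem osg_fun {E : Type*} [NormedAddCommGroup E] [NormedSpace ℂ E] {K : ℝ × ℝ → E} (hK : Continuous K) {B : ℝ} (hB : ∀ p, ‖K p‖ ≤ B) :
    ∃ L : (BoundedContinuousFunction (ℝ × ℝ) ℂ) →L[ℂ] E, ∀ g, L g = ∫ θ in (0:ℝ)..2 * Real.pi, ∫ φ in (0:ℝ)..2 * Real.pi, g (θ, φ) • K (θ, φ) := by
  have hcont : ∀ g : BoundedContinuousFunction (ℝ × ℝ) ℂ, Continuous (fun p : ℝ × ℝ => g p • K p) := fun g => g.continuous.smul hK
  have hc1 : ∀ (g : BoundedContinuousFunction (ℝ × ℝ) ℂ) (θ : ℝ), Continuous (fun φ : ℝ => g (θ, φ) • K (θ, φ)) := fun g θ =>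
    (hcont g).comp (by fun_prop : Continuous fun φ : ℝ => ((θ, φ) : ℝ × ℝ))
  have hc2 : ∀ g : BoundedContinuousFunction (ℝ × ℝ) ℂ, Continuous (fun θ : ℝ => ∫ φ in (0:ℝ)..2 * Real.pi, g (θ, φ) • K (θ, φ)) := by
    intro g
    refine intervalIntegral.continuous_parametric_intervalIntegral_of_continuous' ?_ 0 (2 * Real.pi)
    exact hcont g
  let L0 : (BoundedContinuousFunction (ℝ × ℝ) ℂ) →ₗ[ℂ] E :=
    { toFun := fun g => ∫ θ in (0:ℝ)..2 * Real.pi, ∫ φ in (0:ℝ)..2 * Real.pi, g (θ, φ) • K (θ, φ)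
      map_add' := by
        intro g h
        rw [← intervalIntegral.integral_add ((hc2 g).intervalIntegrable _ _) ((hc2 h).intervalIntegrable _ _)]
        congr 1
        funext θ
        rw [← intervalIntegral.integral_add ((hc1 g θ).intervalIntegrable _ _) ((hc1 h θ).intervalIntegrable _ _)]
        congr 1
        funext φ
        rw [BoundedContinuousFunction.add_apply, add_smul]
      map_smul' := by
        intro c g
        simp only [RingHom.id_apply]
        rw [← intervalIntegral.integral_smul]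
        congr 1
        funext θ
        rw [← intervalIntegral.integral_smul]
        congr 1
        funext φ
        rw [BoundedContinuousFunction.smul_apply, smul_assoc] }
  have hpi : (0:ℝ) ≤ 2 * Real.pi := by positivity
  refine ⟨L0.mkContinuous ((2 * Real.pi) * (2 * Real.pi) * B) ?_, fun g => rfl⟩
  intro g
  show ‖∫ θ in (0:ℝ)..2 * Real.pi, ∫ φ in (0:ℝ)..2 * Real.pi, g (θ, φ) • K (θ, φ)‖ ≤ _
  have hin : ∀ θ : ℝ, ‖∫ φ in (0:ℝ)..2 * Real.pi, g (θ, φ) • K (θ, φ)‖ ≤ (‖g‖ * B) * |2 * Real.pi - 0| := by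
    intro θ
    refine intervalIntegral.norm_integral_le_of_norm_le_const ?_
    intro φ _
    rw [norm_smul]
    exact mul_le_mul (g.norm_coe_le_norm _) (hB _) (norm_nonneg _) (norm_nonneg _)
  have hout := intervalIntegral.norm_integral_le_of_norm_le_const (a := (0:ℝ)) (b := 2 * Real.pi)
    (f := fun θ => ∫ φ in (0:ℝ)..2 * Real.pi, g (θ, φ) • K (θ, φ)) (C := (‖g‖ * B) * |2 * Real.pi - 0|) (fun θ _ => hin θ)
  refine hout.trans (le_of_eq ?_)
  rw [sub_zero, abs_of_nonneg hpi]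
  ring

/-- inversion in the algebra of bounded continuous functions -/
private theorem osg_inv {u : BoundedContinuousFunction (ℝ × ℝ) ℂ} (hu : IsUnit u) (p : ℝ × ℝ) : (Ring.inverse u) p = (u p)⁻¹ := by
  have h := Ring.mul_inverse_cancel u hu
  have h2 : u p * (Ring.inverse u) p = 1 := by
    rw [← BoundedContinuousFunction.mul_apply, h]; rfl
  exact (inv_eq_of_mul_eq_one_right h2).symm

private theorem osg_unit {c : ℂ} {ρ : ℝ} (hρ : 0 < ρ) (π : ℝ × ℝ → ℝ) (hπ : Continuous π) :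
    ∃ u : BoundedContinuousFunction (ℝ × ℝ) ℂ, IsUnit u ∧ ∀ p, u p = circleMap c ρ (π p) - c := by
  have hn : ∀ θ : ℝ, ‖circleMap c ρ θ - c‖ = ρ := by
    intro θ
    rw [← dist_eq_norm]
    have := circleMap_mem_sphere c hρ.le θ
    exact this
  have hne : ∀ θ : ℝ, circleMap c ρ θ - c ≠ 0 := by
    intro θ h0
    have := hn θ
    rw [h0, norm_zero] at this
    exact hρ.ne this
  have hct : Continuous (fun p : ℝ × ℝ => circleMap c ρ (π p) - c) := ((continuous_circleMap c ρ).comp hπ).sub continuous_const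
  let u : BoundedContinuousFunction (ℝ × ℝ) ℂ := BoundedContinuousFunction.ofNormedAddCommGroup (fun p => circleMap c ρ (π p) - c) hct ρ
    (fun p => (hn _).le)
  let v : BoundedContinuousFunction (ℝ × ℝ) ℂ := BoundedContinuousFunction.ofNormedAddCommGroup (fun p => (circleMap c ρ (π p) - c)⁻¹)
    (hct.inv₀ fun p => hne _) ρ⁻¹ (fun p => by rw [norm_inv, hn])
  refine ⟨u, ?_, fun p => rfl⟩
  refine IsUnit.of_mul_eq_one v ?_
  ext p
  show (circleMap c ρ (π p) - c) * (circleMap c ρ (π p) - c)⁻¹ = 1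
  exact mul_inv_cancel₀ (hne _)

theorem osgood {E : Type*} [NormedAddCommGroup E] [NormedSpace ℂ E] [CompleteSpace E] {f : ℂ × ℂ → E} {a b : ℂ} {r M : ℝ} (hr : 0 < r)
    (hM : ∀ z ∈ ball a r, ∀ τ ∈ ball b r, ‖f (z, τ)‖ ≤ M) (h1 : ∀ τ ∈ ball b r, DifferentiableOn ℂ (fun z => f (z, τ)) (ball a r))
    (h2 : ∀ z ∈ ball a r, DifferentiableOn ℂ (fun τ => f (z, τ)) (ball b r)) : AnalyticAt ℂ f (a, b) := by
  have hfc := osg_cont hM h1 h2
  set ρ : ℝ := r / 2 with hρd
  have hρ : 0 < ρ := by positivity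
  have hρr : ρ < r := by rw [hρd]; linarith
  have ha : ∀ θ, circleMap a ρ θ ∈ ball a r := fun θ => by
    have h := circleMap_mem_sphere a hρ.le θ
    rw [mem_ball, mem_sphere.1 h]; exact hρr
  have hb : ∀ θ, circleMap b ρ θ ∈ ball b r := fun θ => by
    have h := circleMap_mem_sphere b hρ.le θ
    rw [mem_ball, mem_sphere.1 h]; exact hρr
  have hHc : Continuous (fun p : ℝ × ℝ => f (circleMap a ρ p.1, circleMap b ρ p.2)) := by
    have hg : Continuous (fun p : ℝ × ℝ => ((circleMap a ρ p.1, circleMap b ρ p.2) : ℂ × ℂ)) :=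
      ((continuous_circleMap a ρ).comp continuous_fst).prodMk ((continuous_circleMap b ρ).comp continuous_snd)
    exact hfc.comp_continuous hg (fun p => ⟨ha _, hb _⟩)
  let K : ℝ × ℝ → E := fun p => (deriv (circleMap a ρ) p.1 * deriv (circleMap b ρ) p.2) • f (circleMap a ρ p.1, circleMap b ρ p.2)
  have hder : ∀ c : ℂ, Continuous (deriv (circleMap c ρ)) := by
    intro c
    have : deriv (circleMap c ρ) = fun θ => circleMap 0 ρ θ * Complex.I := by
      funext θ; exact deriv_circleMap c ρ θ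
    rw [this]
    exact (continuous_circleMap 0 ρ).mul continuous_const
  have hdn : ∀ (c : ℂ) (θ : ℝ), ‖deriv (circleMap c ρ) θ‖ = ρ := by
    intro c θ
    rw [deriv_circleMap, norm_mul, Complex.norm_I, mul_one, norm_circleMap_zero, abs_of_pos hρ]
  have hK : Continuous K := (((hder a).comp continuous_fst).mul ((hder b).comp continuous_snd)).smul hHc
  have hKB : ∀ p, ‖K p‖ ≤ ρ * ρ * M := by
    intro p
    show ‖(deriv (circleMap a ρ) p.1 * deriv (circleMap b ρ) p.2) • f (circleMap a ρ p.1, circleMap b ρ p.2)‖ ≤ _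
    rw [norm_smul, norm_mul, hdn, hdn]
    exact mul_le_mul_of_nonneg_left (hM _ (ha _) _ (hb _)) (by positivity)
  obtain ⟨L, hL⟩ := osg_fun hK hKB
  obtain ⟨u, hu, hu'⟩ := osg_unit (c := a) hρ Prod.fst continuous_fst
  obtain ⟨v, hv, hv'⟩ := osg_unit (c := b) hρ Prod.snd continuous_snd
  let U : ℂ × ℂ → BoundedContinuousFunction (ℝ × ℝ) ℂ := fun p => u - (p.1 - a) • (1 : BoundedContinuousFunction (ℝ × ℝ) ℂ)
  let V : ℂ × ℂ → BoundedContinuousFunction (ℝ × ℝ) ℂ := fun p => v - (p.2 - b) • (1 : BoundedContinuousFunction (ℝ × ℝ) ℂ)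
  have hU0 : U (a, b) = u := by show u - (a - a) • _ = u; rw [sub_self, zero_smul, sub_zero]
  have hV0 : V (a, b) = v := by show v - (b - b) • _ = v; rw [sub_self, zero_smul, sub_zero]
  have hUa : AnalyticAt ℂ U (a, b) := analyticAt_const.sub ((analyticAt_fst.sub analyticAt_const).smul analyticAt_const)
  have hVa : AnalyticAt ℂ V (a, b) := analyticAt_const.sub ((analyticAt_snd.sub analyticAt_const).smul analyticAt_const)
  have hUi : AnalyticAt ℂ (fun p => Ring.inverse (U p)) (a, b) := by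
    have h := analyticAt_inverse (𝕜 := ℂ) hu.unit
    rw [IsUnit.unit_spec, ← hU0] at h
    exact h.comp hUa
  have hVi : AnalyticAt ℂ (fun p => Ring.inverse (V p)) (a, b) := by
    have h := analyticAt_inverse (𝕜 := ℂ) hv.unit
    rw [IsUnit.unit_spec, ← hV0] at h
    exact h.comp hVa
  have hW : AnalyticAt ℂ (fun p => L (Ring.inverse (U p) * Ring.inverse (V p))) (a, b) :=
    (L.analyticAt _).comp (hUi.mul hVi)
  have hWc : AnalyticAt ℂ (fun p => ((2 * Real.pi * Complex.I : ℂ)⁻¹ * (2 * Real.pi * Complex.I : ℂ)⁻¹) •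
      L (Ring.inverse (U p) * Ring.inverse (V p))) (a, b) := analyticAt_const.smul hW
  refine hWc.congr ?_
  have evU : ∀ᶠ p in 𝓝 (a, b), IsUnit (U p) := by
    have h := hUa.continuousAt.eventually (Units.isOpen.mem_nhds (show U (a, b) ∈ {x | IsUnit x} by rw [hU0]; exact hu))
    exact h
  have evV : ∀ᶠ p in 𝓝 (a, b), IsUnit (V p) := by
    have h := hVa.continuousAt.eventually (Units.isOpen.mem_nhds (show V (a, b) ∈ {x | IsUnit x} by rw [hV0]; exact hv))
    exact h
  have evB : ∀ᶠ p : ℂ × ℂ in 𝓝 (a, b), p.1 ∈ ball a ρ ∧ p.2 ∈ ball b ρ :=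
    ((continuous_fst.tendsto (a, b)).eventually (ball_mem_nhds a hρ)).and ((continuous_snd.tendsto (a, b)).eventually (ball_mem_nhds b hρ))
  filter_upwards [evU, evV, evB] with p hpU hpV hpB
  obtain ⟨z, τ⟩ := p
  obtain ⟨hz, hτ⟩ := hpB
  simp only at hz hτ
  have hpi0 : (2 * Real.pi * Complex.I : ℂ) ≠ 0 := Complex.two_pi_I_ne_zero
  -- the Cauchy formulas
  have hzr : τ ∈ ball b r := ball_subset_ball hρr.le hτ
  have c1 : (∮ ζ in C(a, ρ), (ζ - z)⁻¹ • f (ζ, τ)) = (2 * Real.pi * Complex.I : ℂ) • f (z, τ) :=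
    DifferentiableOn.circleIntegral_sub_inv_smul (f := fun ζ => f (ζ, τ)) ((h1 τ hzr).mono (closedBall_subset_ball hρr)) hz
  have c2 : ∀ θ, (∮ σ in C(b, ρ), (σ - τ)⁻¹ • f (circleMap a ρ θ, σ)) = (2 * Real.pi * Complex.I : ℂ) • f (circleMap a ρ θ, τ) := fun θ =>
    DifferentiableOn.circleIntegral_sub_inv_smul (f := fun σ => f (circleMap a ρ θ, σ)) ((h2 _ (ha θ)).mono (closedBall_subset_ball hρr)) hτ
  have hLv : L (Ring.inverse (U (z, τ)) * Ring.inverse (V (z, τ))) =
      (2 * Real.pi * Complex.I : ℂ) • (2 * Real.pi * Complex.I : ℂ) • f (z, τ) := by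
    rw [hL, ← c1, circleIntegral, ← intervalIntegral.integral_smul]
    congr 1
    funext θ
    rw [smul_comm (2 * Real.pi * Complex.I : ℂ), smul_comm (2 * Real.pi * Complex.I : ℂ), ← c2 θ, circleIntegral, ← smul_assoc,
      ← intervalIntegral.integral_smul]
    congr 1
    funext φ
    rw [BoundedContinuousFunction.mul_apply, osg_inv hpU, osg_inv hpV]
    have eU : (U (z, τ)) (θ, φ) = circleMap a ρ θ - z := by
      show u (θ, φ) - (z - a) * 1 = _
      rw [hu' (θ, φ)]; ring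
    have eV : (V (z, τ)) (θ, φ) = circleMap b ρ φ - τ := by
      show v (θ, φ) - (τ - b) * 1 = _
      rw [hv' (θ, φ)]; ring
    rw [eU, eV]
    show _ • ((deriv (circleMap a ρ) θ * deriv (circleMap b ρ) φ) • f (circleMap a ρ θ, circleMap b ρ φ)) = _
    simp only [smul_smul, smul_eq_mul]
    congr 1
    ring
  show _ • L (Ring.inverse (U (z, τ)) * Ring.inverse (V (z, τ))) = f (z, τ)
  rw [hLv, smul_smul, smul_smul]
  have : (2 * Real.pi * Complex.I : ℂ)⁻¹ * (2 * Real.pi * Complex.I : ℂ)⁻¹ * (2 * Real.pi * Complex.I : ℂ) * (2 * Real.pi * Complex.I : ℂ) = 1 := by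
    field_simp
  rw [this, one_smul]

end Pool.Agent.TH

end
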