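import Pool.Agent.H94.G5T.AD.Defs
import Pool.Agent.H94.G5T.H36.BP.Defs_1
import Pool.Agent.H94.G5T.M02
import Pool.Agent.H94.G5T.M06
import Pool.Agent.H94.G5T.M17
import Pool.Agent.H94.G5T.M34
import Pool.Agent.H94.G5T.M40

/-! The parts of this file: H13.SM.Bdd, AD.BD.Defs, H5.BD.CDef, G3.X.CapZ, TG.Cn, G4.K.Cb, TG.SmDefs. -/

section

/-!
# The projection is proper with finite fibres

PROOF.  For every `i` let `p i` be the monic polynomial of `exists_monic hint (X i)`.  By `root_at` (with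
`Z = X i`), for every point `w` of the variety `w i` is a root of `(p i).map (eval y)`, `y j = eval w (B
j)`, a monic polynomial.

`finite_fiber`: for fixed `y` there are finitely many roots for each `i` (`Set.Finite.pi`,
`Polynomial.finite_setOf_isRoot` or `Multiset`/`rootSet`).

`bdd_near`: a root `t` of a monic polynomial `t^d + c_{d-1} t^{d-1} + ... + c_0` satisfies `‖t‖ ≤ 1 +
∑ ‖c_k‖` (if `‖t‖ > 1` divide `t^d = -∑ c_k t^k` by `t^{d-1}`; or `Polynomial.IsRoot.norm_lt_cauchyBound`),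
and the `c_k` are continuous functions of `y`, so they are bounded near `y₀`; take the maximum over `i`.
-/

open MvPolynomial Topology

noncomputable section

namespace Pool.Agent.H13.SM

variable {ι K : Type} [Field K] [Algebra ℂ K]

private theorem Bdd_root {q : Polynomial ℂ} (hq : q.Monic) {t : ℂ} (ht : q.eval t = 0) :
    ‖t‖ ≤ ∑ k ∈ Finset.range q.natDegree, ‖q.coeff k‖ + 1 := by
  have h1 := Polynomial.IsRoot.norm_lt_cauchyBound hq.ne_zero ht
  have h2 : Polynomial.cauchyBound q ≤ ∑ k ∈ Finset.range q.natDegree, ‖q.coeff k‖₊ + 1 := by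
    unfold Polynomial.cauchyBound
    rw [hq.leadingCoeff, nnnorm_one, div_one]
    gcongr
    exact Finset.sup_le fun k hk => Finset.single_le_sum (f := fun k => ‖q.coeff k‖₊) (fun _ _ => zero_le) hk
  have h3 : ‖t‖₊ ≤ ∑ k ∈ Finset.range q.natDegree, ‖q.coeff k‖₊ + 1 := h1.le.trans h2
  have h4 : (‖t‖₊ : ℝ) ≤ ((∑ k ∈ Finset.range q.natDegree, ‖q.coeff k‖₊ + 1 : NNReal) : ℝ) := by
    exact_mod_cast h3
  rw [NNReal.coe_add, NNReal.coe_sum, NNReal.coe_one] at h4
  exact h4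

theorem finite_fiber [Finite ι] {a : ι → K} {n : ℕ} {b : Fin n → K}
    {B : Fin n → MvPolynomial ι ℂ} (hB : ∀ j, aeval a (B j) = b j)
    (hint : ∀ i, IsIntegral (Algebra.adjoin ℂ (Set.range b)) (a i)) (y₀ : Fin n → ℂ) :
    {w | w ∈ pts a ∧ ∀ j, eval w (B j) = y₀ j}.Finite := by
  choose p hpm hp using fun i => exists_monic hint (X i : MvPolynomial ι ℂ)
  have hfin : {w : ι → ℂ | ∀ i, w i ∈ {t : ℂ | ((p i).map (eval y₀)).IsRoot t}}.Finite :=
    Set.Finite.pi' fun i => Polynomial.finite_setOfPred_isRoot ((hpm i).map _).ne_zero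
  refine hfin.subset ?_
  rintro w ⟨hw, hwy⟩ i
  have h1 := root_at hB (hp i) hw
  rw [eval_X] at h1
  have h2 : (fun j => eval w (B j)) = y₀ := funext hwy
  rw [h2] at h1
  exact h1

theorem bdd_near [Finite ι] {a : ι → K} {n : ℕ} {b : Fin n → K}
    {B : Fin n → MvPolynomial ι ℂ} (hB : ∀ j, aeval a (B j) = b j)
    (hint : ∀ i, IsIntegral (Algebra.adjoin ℂ (Set.range b)) (a i)) (y₀ : Fin n → ℂ) :
    ∃ C : ℝ, ∀ᶠ y in 𝓝 y₀, ∀ w ∈ pts a, (∀ j, eval w (B j) = y j) → ∀ i, ‖w i‖ ≤ C := by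
  choose p hpm hp using fun i => exists_monic hint (X i : MvPolynomial ι ℂ)
  cases nonempty_fintype ι
  have hcont : ∀ i, Continuous fun y : Fin n → ℂ =>
      ∑ k ∈ Finset.range (p i).natDegree, ‖eval y ((p i).coeff k)‖ + 1 := by
    intro i
    exact (continuous_finsetSum _ fun k _ => (MvPolynomial.continuous_eval _).norm).add continuous_const
  have hS : ∀ i, 0 ≤ ∑ k ∈ Finset.range (p i).natDegree, ‖eval y₀ ((p i).coeff k)‖ + 1 := by
    intro i
    positivity
  refine ⟨∑ i, (∑ k ∈ Finset.range (p i).natDegree, ‖eval y₀ ((p i).coeff k)‖ + 1 + 1), ?_⟩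
  have hev : ∀ᶠ y in 𝓝 y₀, ∀ i, ∑ k ∈ Finset.range (p i).natDegree, ‖eval y ((p i).coeff k)‖ + 1 <
      ∑ k ∈ Finset.range (p i).natDegree, ‖eval y₀ ((p i).coeff k)‖ + 1 + 1 := by
    rw [Filter.eventually_all]
    intro i
    exact (hcont i).continuousAt.eventually_lt continuousAt_const (by simp)
  filter_upwards [hev] with y hy w hw hwy i
  have h1 := root_at hB (hp i) hw
  rw [eval_X] at h1
  have h2 : (fun j => eval w (B j)) = y := funext hwy
  rw [h2] at h1
  have h3 := Bdd_root ((hpm i).map (eval y)) h1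
  rw [(hpm i).natDegree_map] at h3
  simp only [Polynomial.coeff_map] at h3
  refine (h3.trans (hy i).le).trans ?_
  exact Finset.single_le_sum (f := fun i => ∑ k ∈ Finset.range (p i).natDegree, ‖eval y₀ ((p i).coeff k)‖ + 1 + 1)
    (fun i _ => by have := hS i; positivity) (Finset.mem_univ i)

end Pool.Agent.H13.SM

end
end

section

/-!
# AD BD Defs: curves with bounded distortion in dimension `d`, local analysis: definitions

The family `BC X c L` (`H5.BD.BC`), `evp` and the abstract part `H5.BD.BFlow` are dimension free.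
-/

set_option autoImplicit false

open Topology Filter Metric

namespace Pool.Agent.AD.BD

open Pool.Agent.H36.BP (EN wd)
open Pool.Agent.H14.PP (CurveAt Tan)
open Pool.Agent.H62.EF (MN pr)

variable {N d : ℕ}

/-- `x` is in the middle of the chart -/
def Good {X : Set (EN N)} (χ : Chart d X) (x : EN N) : Prop := x ∈ X ∧ x ∈ χ.U ∧ ‖χ.q x‖ ≤ 1 / 2

/-- a finite atlas with a Lebesgue number `δ`, and a bound `C` for the charts and the changes of charts -/
structure Atlas (d : ℕ) (X : Set (EN N)) where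
  n : ℕ
  χ : Fin n → Chart d X
  idx : MN N → Fin n
  δ : ℝ
  C : ℝ
  δ_pos : 0 < δ
  one_le : 1 ≤ C
  good : ∀ x ∈ X, ∀ y ∈ X, dist (pr x) (pr y) ≤ δ → Good (χ (idx (pr x))) y
  dist_le : ∀ i x y, Good (χ i) x → Good (χ i) y → dist (pr x) (pr y) ≤ C * ‖(χ i).q x - (χ i).q y‖
  le_dist : ∀ i x y, Good (χ i) x → Good (χ i) y → ‖(χ i).q x - (χ i).q y‖ ≤ C * dist (pr x) (pr y)
  fd_le : ∀ i j x, Good (χ i) x → Good (χ j) x → ‖fderiv ℂ (fun p => (χ j).q ((χ i).σ p)) ((χ i).q x)‖ ≤ C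
  fd_inv : ∀ i j x u, Good (χ i) x → Good (χ j) x →
    fderiv ℂ (fun p => (χ j).q ((χ i).σ p)) ((χ i).q x) (fderiv ℂ (fun p => (χ i).q ((χ j).σ p)) ((χ j).q x) u) = u
  trans : ∀ i j x y, Good (χ i) x → Good (χ j) x → Good (χ i) y → Good (χ j) y →
    ‖(χ j).q y - (χ j).q x - fderiv ℂ (fun p => (χ j).q ((χ i).σ p)) ((χ i).q x) ((χ i).q y - (χ i).q x)‖ ≤
      C * ‖(χ i).q y - (χ i).q x‖ ^ 2

end Pool.Agent.AD.BD

end

section

/-!
# Project BD, local analysis: definitions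

`X` is the cone of a smooth projective surface.  `BC X c L` is the family of the entire curves whose Fubini-Study derivative is between `c` and `L`.
-/

set_option autoImplicit false

open Topology Filter Metric

namespace Pool.Agent.H5.BD

open Pool.Agent.H36.BP (EN fs wd)
open Pool.Agent.H14.PP (Chart Form Tan aCoef jac)
open Pool.Agent.H62.EF (MN pr det2)

variable {N : ℕ}

/-- the entire curves (lifts to the cone) with bounded distortion -/
def BC (X : Set (EN N)) (c L : ℝ) : Set (ℂ → EN N) :=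
  {F | Differentiable ℂ F ∧ (∀ z, F z ∈ X) ∧ ∀ z, c ≤ fs (F z) (deriv F z) ∧ fs (F z) (deriv F z) ≤ L}

/-- `x` is in the middle of the chart -/
def Good {X : Set (EN N)} (χ : Chart X) (x : EN N) : Prop := x ∈ X ∧ x ∈ χ.U ∧ ‖χ.q x‖ ≤ 1 / 2

/-- a finite atlas with a Lebesgue number `δ`, and a bound `C` for the charts and the changes of charts -/
structure Atlas (X : Set (EN N)) where
  n : ℕ
  χ : Fin n → Chart X
  idx : MN N → Fin n
  δ : ℝ
  C : ℝ
  δ_pos : 0 < δ
  one_le : 1 ≤ C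
  good : ∀ x ∈ X, ∀ y ∈ X, dist (pr x) (pr y) ≤ δ → Good (χ (idx (pr x))) y
  dist_le : ∀ i x y, Good (χ i) x → Good (χ i) y → dist (pr x) (pr y) ≤ C * ‖(χ i).q x - (χ i).q y‖
  le_dist : ∀ i x y, Good (χ i) x → Good (χ i) y → ‖(χ i).q x - (χ i).q y‖ ≤ C * dist (pr x) (pr y)
  fd_le : ∀ i j x, Good (χ i) x → Good (χ j) x → ‖fderiv ℂ (fun p => (χ j).q ((χ i).σ p)) ((χ i).q x)‖ ≤ C
  jac_ge : ∀ i j x, Good (χ i) x → Good (χ j) x → 1 ≤ C * ‖jac (fun p => (χ j).q ((χ i).σ p)) ((χ i).q x)‖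
  trans : ∀ i j x y, Good (χ i) x → Good (χ j) x → Good (χ i) y → Good (χ j) y →
    ‖(χ j).q y - (χ j).q x - fderiv ℂ (fun p => (χ j).q ((χ i).σ p)) ((χ i).q x) ((χ i).q y - (χ i).q x)‖ ≤
      C * ‖(χ i).q y - (χ i).q x‖ ^ 2

/-- one of the two coordinates -/
def co (e : Bool) (p : ℂ × ℂ) : ℂ := if e = true then p.1 else p.2

end Pool.Agent.H5.BD

end

section

/-!
# G3 X CapZ: straight charts which contain the points near `y₀` of one fibre

`EL.Cap` asks the same radius in the base and in the fibre.  `Capz` is the condition for one fibre: it is used as `∀ᶠ z in 𝓝 z₀, Capz Λ u χ c ρ z y₀ r`.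
-/

set_option autoImplicit false

open Topology Filter Metric

namespace Pool.Agent.GXE

open Pool.Agent.H36.BP (EN wd IsGermChart)
open Pool.Agent.H14.PP (Chart Tan CurveAt)
open Pool.Agent.H62.EF (Lat MN pr TorusMap)
open Pool.Agent.H62.EL

variable {N : ℕ} {X : Set (EN N)}

/-- the straight chart contains all points near `y₀` of the fibre over `z` -/
structure Capz (Λ : AddSubgroup ℂ) (u : EN N → ℂ) (χ : Chart X) (c : ℂ) (ρ : ℝ) (z : ℂ) (y₀ : MN N) (r : ℝ) : Prop where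
  mon : Mon Λ u χ c ρ 1 0
  cap : ∀ x ∈ X, u x - z ∈ Λ → dist (pr x) y₀ ≤ r → x ∈ χ.U ∧ χ.q x ∈ closedBall (0 : ℂ × ℂ) 1 ∧ c + ρ * (χ.q x).1 = z

end Pool.Agent.GXE

end

section

/-!
# TG Cn: the complement of `D` is dense and connected

`compl_dense`: by `D_thin` `D` has empty interior (an open subset `W` of `D`, `y ∈ W`: `h = 0` near `y`).
`compl_conn`: for `y` and `h` analytic on the ball `β = ball y r` with `D ∩ β ⊆ {h = 0}`, `h` not identically `0` near `y` (hence near no point of `β`, identity theorem), the set `β \ {h = 0}` is preconnected: for `a, b` in it the function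
`t ↦ h (a + t (b - a))` is analytic on the convex open set `{t : ℂ | a + t (b - a) ∈ β}` and not `0` at `0` and `1`, so its zeros are isolated (countable, closed), and the complement of a countable set in a convex open subset of `ℂ` is path connected
(`IsOpen.isConnected_compl_of_one_lt_rank`, `Set.Countable.isPathConnected_compl_of_one_lt_rank`, or `IsConnected.isPreconnected`; look in Mathlib for `isConnected_compl`/`IsOpen ... Countable` or work with real segments avoiding finitely many points).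
Let `Dᶜ ⊆ A ∪ C` with `A, C` open, `Dᶜ ∩ A`, `Dᶜ ∩ C` nonempty, and suppose `Dᶜ ∩ A ∩ C = ∅`.  The closures of `A ∩ Dᶜ` and `C ∩ Dᶜ` cover `V` (`compl_dense`) and `V` is connected, so there is `y` in both closures; if `y ∉ D` it is in `A` or in `C`, say in `A`, and then
points of `C ∩ Dᶜ` near `y` are in `A`; if `y ∈ D` take `β`: `A` and `C` both meet `β \ {h = 0}` (`{h = 0}` has empty interior in `β`, `A ∩ Dᶜ ∩ β` is open and not empty), which is preconnected and contained in `Dᶜ`: contradiction.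
-/

set_option autoImplicit false

open Topology Filter Metric

namespace Pool.Agent.TG

open Pool.Agent.H36.BP (EN wd)
open Pool.Agent.H14.PP (CurveAt Tan)
open Pool.Agent.AD (Vd Chart Charts)

variable {N k : ℕ}

theorem compl_dense {D : Set (Vd (k + 1))}
    (hD : ∀ y : Vd (k + 1), ∃ h : Vd (k + 1) → ℂ, AnalyticAt ℂ h y ∧ (∀ᶠ z in 𝓝 y, z ∈ D → h z = 0) ∧ ¬ ∀ᶠ z in 𝓝 y, h z = 0) :
    Dense Dᶜ := by
  intro y
  obtain ⟨h, -, h2, h3⟩ := hD y
  rw [mem_closure_iff_frequently]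
  exact ((Filter.not_eventually.mp h3).and_eventually h2).mono fun z hz hzD => hz.1 (hz.2 hzD)

/-- in the plane: two points of a convex open set can be joined off the zeros of an analytic function -/
private theorem Cn_plane {U : Set ℂ} (hU : IsOpen U) (hc : Convex ℝ U) {g : ℂ → ℂ} (hg : AnalyticOnNhd ℂ g U) (h0 : (0 : ℂ) ∈ U) (h1 : (1 : ℂ) ∈ U)
    (g0 : g 0 ≠ 0) (g1 : g 1 ≠ 0) : ∃ T : Set ℂ, IsPreconnected T ∧ (0 : ℂ) ∈ T ∧ (1 : ℂ) ∈ T ∧ T ⊆ U ∧ ∀ t ∈ T, g t ≠ 0 := by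
  -- the middle point
  have hm : ((1 / 2 : ℝ) : ℂ) ∈ U := by
    have h2 := hc h0 h1 (a := 1 / 2) (b := 1 / 2) (by norm_num) (by norm_num) (by norm_num)
    have e : ((1 / 2 : ℝ)) • (0 : ℂ) + ((1 / 2 : ℝ)) • (1 : ℂ) = ((1 / 2 : ℝ) : ℂ) := by
      rw [smul_zero, zero_add, Complex.real_smul, mul_one]
    rwa [e] at h2
  have hcont : Continuous fun s : ℝ => (⟨1 / 2, s⟩ : ℂ) := by
    have e : (fun s : ℝ => (⟨1 / 2, s⟩ : ℂ)) = fun s : ℝ => ((1 / 2 : ℝ) : ℂ) + (s : ℂ) * Complex.I := by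
      funext s
      apply Complex.ext <;> simp
    rw [e]
    fun_prop
  have hev : ∀ᶠ s : ℝ in 𝓝 0, (⟨1 / 2, s⟩ : ℂ) ∈ U := by
    refine hcont.continuousAt.eventually_mem (hU.mem_nhds ?_)
    have e : (⟨1 / 2, 0⟩ : ℂ) = ((1 / 2 : ℝ) : ℂ) := by apply Complex.ext <;> simp
    rw [e]
    exact hm
  obtain ⟨η, hη, hηU⟩ := Metric.eventually_nhds_iff.1 hev
  set K : Set ℂ := convexHull ℝ {(0 : ℂ), 1, ⟨1 / 2, η / 2⟩} with hK
  have hKU : K ⊆ U := by
    refine convexHull_min ?_ hc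
    intro z hz
    rcases hz with rfl | rfl | rfl
    · exact h0
    · exact h1
    · refine hηU ?_
      rw [Real.dist_eq, sub_zero, abs_of_pos (half_pos hη)]
      linarith
  have hfin3 : ({(0 : ℂ), 1, ⟨1 / 2, η / 2⟩} : Set ℂ).Finite := Set.toFinite _
  have hKc : IsCompact K := Set.Finite.isCompact_convexHull (𝕜 := ℝ) hfin3
  have hKconv : Convex ℝ K := convex_convexHull ℝ _
  have hK0 : (0 : ℂ) ∈ K := subset_convexHull ℝ _ (by simp)
  have hK1 : (1 : ℂ) ∈ K := subset_convexHull ℝ _ (by simp)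
  have hKη : (⟨1 / 2, η / 2⟩ : ℂ) ∈ K := subset_convexHull ℝ _ (by simp)
  have hKm : (⟨1 / 2, 0⟩ : ℂ) ∈ K := by
    have h2 := hKconv hK0 hK1 (a := 1 / 2) (b := 1 / 2) (by norm_num) (by norm_num) (by norm_num)
    have e : ((1 / 2 : ℝ)) • (0 : ℂ) + ((1 / 2 : ℝ)) • (1 : ℂ) = (⟨1 / 2, 0⟩ : ℂ) := by
      apply Complex.ext <;> simp
    rwa [e] at h2
  have hKs : ∀ s : ℝ, 0 < s → s < η / 2 → (⟨1 / 2, s⟩ : ℂ) ∈ K := by
    intro s hs hs2
    have h2 := hKconv hKm hKη (a := 1 - s / (η / 2)) (b := s / (η / 2)) (by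
      rw [sub_nonneg, div_le_one (half_pos hη)]
      exact hs2.le) (by positivity) (by ring)
    have e : (1 - s / (η / 2)) • (⟨1 / 2, 0⟩ : ℂ) + (s / (η / 2)) • (⟨1 / 2, η / 2⟩ : ℂ) = (⟨1 / 2, s⟩ : ℂ) := by
      apply Complex.ext
      · simp only [Complex.add_re, Complex.real_smul, Complex.mul_re, Complex.ofReal_re, Complex.ofReal_im, zero_mul, sub_zero]
        ring
      · simp only [Complex.add_im, Complex.real_smul, Complex.mul_im, Complex.ofReal_re, Complex.ofReal_im, zero_mul, add_zero, mul_zero]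
        field_simp
        ring
    rwa [e] at h2
  -- finitely many zeros
  set Z : Set ℂ := {t : ℂ | t ∈ K ∧ g t = 0} with hZ
  have hZfin : Z.Finite := by
    by_contra hinf
    obtain ⟨x, hxK, hx⟩ := Set.Infinite.exists_accPt_of_subset_isCompact hinf hKc fun t ht => ht.1
    have h2 : ∃ᶠ z in 𝓝[≠] x, g z = 0 := by
      rw [accPt_iff_frequently_nhdsNE] at hx
      exact hx.mono fun z hz => hz.2
    have h3 := hg.eqOn_zero_of_preconnected_of_frequently_eq_zero hc.isPreconnected (hKU hxK) h2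
    exact g0 (h3 h0)
  -- a good middle point
  obtain ⟨s, hs, hsb⟩ : ∃ s ∈ Set.Ioo (0 : ℝ) (η / 2), s ∉ ((fun z : ℂ => z.im / (2 * z.re)) '' Z ∪ (fun z : ℂ => z.im / (2 * (1 - z.re))) '' Z) :=
    ((Set.Ioo_infinite (half_pos hη)).sdiff ((hZfin.image _).union (hZfin.image _))).nonempty
  have hsK := hKs s hs.1 hs.2
  have hseg1 : segment ℝ (0 : ℂ) ⟨1 / 2, s⟩ ⊆ K := hKconv.segment_subset hK0 hsK
  have hseg2 : segment ℝ (⟨1 / 2, s⟩ : ℂ) 1 ⊆ K := hKconv.segment_subset hsK hK1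
  refine ⟨segment ℝ (0 : ℂ) ⟨1 / 2, s⟩ ∪ segment ℝ (⟨1 / 2, s⟩ : ℂ) 1, ?_, Or.inl (left_mem_segment ℝ _ _), Or.inr (right_mem_segment ℝ _ _),
    fun t ht => hKU (ht.elim (fun h => hseg1 h) fun h => hseg2 h), fun t ht htz => ?_⟩
  · exact IsPreconnected.union (⟨1 / 2, s⟩ : ℂ) (right_mem_segment ℝ _ _) (left_mem_segment ℝ _ _) (convex_segment _ _).isPreconnected
      (convex_segment _ _).isPreconnected
  · rcases ht with ht | ht
    · have htK := hseg1 ht
      obtain ⟨a, b, ha, hb, hab, rfl⟩ := ht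
      have hb0 : b ≠ 0 := by
        rintro rfl
        rw [smul_zero, zero_smul, add_zero] at htz
        exact g0 htz
      refine hsb (Or.inl ⟨_, ⟨htK, htz⟩, ?_⟩)
      simp only [Complex.add_re, Complex.add_im, Complex.real_smul, Complex.mul_re, Complex.mul_im, Complex.ofReal_re, Complex.ofReal_im, zero_mul, sub_zero,
        add_zero, mul_zero, zero_add, Complex.zero_re, Complex.zero_im]
      field_simp
    · have htK := hseg2 ht
      obtain ⟨a, b, ha, hb, hab, rfl⟩ := ht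
      have ha0 : a ≠ 0 := by
        rintro rfl
        rw [zero_add] at hab
        rw [hab, zero_smul, zero_add, one_smul] at htz
        exact g1 htz
      refine hsb (Or.inr ⟨_, ⟨htK, htz⟩, ?_⟩)
      simp only [Complex.add_re, Complex.add_im, Complex.real_smul, Complex.mul_re, Complex.mul_im, Complex.ofReal_re, Complex.ofReal_im, zero_mul, sub_zero,
        add_zero, mul_zero, zero_add, Complex.one_re, Complex.one_im, mul_one]
      have hb' : b = 1 - a := by linarith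
      rw [hb']
      have e : 2 * (1 - (a * (1 / 2) + (1 - a))) = a := by ring
      rw [e]
      field_simp

/-- the complement of the zeros of an analytic function in a ball -/
private theorem Cn_ball {n : ℕ} {y : Vd n} {r : ℝ} {h : Vd n → ℂ} (hh : AnalyticOnNhd ℂ h (ball y r)) : IsPreconnected (ball y r \ {z | h z = 0}) := by
  refine isPreconnected_of_forall_pair fun a ha b hb => ?_
  have hφ : Continuous fun t : ℂ => a + t • (b - a) := by fun_prop
  set U : Set ℂ := {t : ℂ | a + t • (b - a) ∈ ball y r} with hU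
  have hUo : IsOpen U := isOpen_ball.preimage hφ
  have hUc : Convex ℝ U := by
    intro t ht t' ht' p q hp hq hpq
    show a + (p • t + q • t') • (b - a) ∈ ball y r
    have e : a + (p • t + q • t') • (b - a) = p • (a + t • (b - a)) + q • (a + t' • (b - a)) := by
      have e1 : a = p • a + q • a := by rw [← add_smul, hpq, one_smul]
      calc a + (p • t + q • t') • (b - a) = (p • a + q • a) + (p • t + q • t') • (b - a) := by rw [← e1]
        _ = p • (a + t • (b - a)) + q • (a + t' • (b - a)) := by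
          rw [add_smul, smul_assoc, smul_assoc, smul_add, smul_add]
          abel
    rw [e]
    exact convex_ball y r ht ht' hp hq hpq
  have e0 : a + (0 : ℂ) • (b - a) = a := by rw [zero_smul, add_zero]
  have e1 : a + (1 : ℂ) • (b - a) = b := by rw [one_smul, add_sub_cancel]
  have hg : AnalyticOnNhd ℂ (fun t : ℂ => h (a + t • (b - a))) U := fun t ht =>
    AnalyticAt.fun_comp (g := h) (f := fun t : ℂ => a + t • (b - a)) (hh _ ht) (by fun_prop)
  obtain ⟨T, hT, h0T, h1T, hTU, hTg⟩ := Cn_plane hUo hUc hg (by show a + (0 : ℂ) • (b - a) ∈ ball y r; rw [e0]; exact ha.1)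
    (by show a + (1 : ℂ) • (b - a) ∈ ball y r; rw [e1]; exact hb.1) (by show h (a + (0 : ℂ) • (b - a)) ≠ 0; rw [e0]; exact ha.2)
    (by show h (a + (1 : ℂ) • (b - a)) ≠ 0; rw [e1]; exact hb.2)
  refine ⟨(fun t : ℂ => a + t • (b - a)) '' T, ?_, ⟨0, h0T, e0⟩, ⟨1, h1T, e1⟩, hT.image _ hφ.continuousOn⟩
  rintro _ ⟨t, ht, rfl⟩
  exact ⟨hTU ht, hTg t ht⟩

theorem compl_conn {D : Set (Vd (k + 1))} (hc : IsClosed D)
    (hD : ∀ y : Vd (k + 1), ∃ h : Vd (k + 1) → ℂ, AnalyticAt ℂ h y ∧ (∀ᶠ z in 𝓝 y, z ∈ D → h z = 0) ∧ ¬ ∀ᶠ z in 𝓝 y, h z = 0) :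
    IsPreconnected Dᶜ := by
  rw [isPreconnected_iff_subset_of_disjoint]
  intro u v hu hv huv hdis
  by_contra hcon
  push Not at hcon
  obtain ⟨h1, h2⟩ := hcon
  rw [Set.not_subset] at h1 h2
  obtain ⟨a, ha, hau⟩ := h1
  obtain ⟨b, hb, hbv⟩ := h2
  have hav : a ∈ v := (huv ha).resolve_left hau
  have hbu : b ∈ u := (huv hb).resolve_right hbv
  have hcov : (Set.univ : Set (Vd (k + 1))) ⊆ closure (Dᶜ ∩ u) ∪ closure (Dᶜ ∩ v) := by
    rw [← closure_union, ← Set.inter_union_distrib_left, Set.inter_eq_left.2 huv]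
    exact fun y _ => compl_dense hD y
  obtain ⟨y, -, hyu, hyv⟩ := (isPreconnected_closed_iff.1 isPreconnected_univ) _ _ isClosed_closure isClosed_closure hcov
    ⟨b, Set.mem_univ _, subset_closure ⟨hb, hbu⟩⟩ ⟨a, Set.mem_univ _, subset_closure ⟨ha, hav⟩⟩
  obtain ⟨h, hh, hhD, hh0⟩ := hD y
  obtain ⟨r, hr, hball⟩ := Metric.eventually_nhds_iff_ball.1 (hh.eventually_analyticAt.and hhD)
  set S : Set (Vd (k + 1)) := ball y r \ {z | h z = 0} with hS
  have hSc : IsPreconnected S := Cn_ball fun z hz => (hball z hz).1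
  have hSD : S ⊆ Dᶜ := fun z hz hzD => hz.2 ((hball z hz.1).2 hzD)
  -- `S` is dense in the ball
  have hdense : ∀ W : Set (Vd (k + 1)), IsOpen W → (W ∩ ball y r).Nonempty → (W ∩ S).Nonempty := by
    rintro W hW ⟨w, hwW, hwb⟩
    by_contra hne
    rw [Set.not_nonempty_iff_eq_empty] at hne
    have hz : ∀ᶠ z in 𝓝 w, h z = 0 := by
      filter_upwards [hW.mem_nhds hwW, isOpen_ball.mem_nhds hwb] with z hzW hzb
      by_contra hz
      have : z ∈ W ∩ S := ⟨hzW, hzb, hz⟩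
      rw [hne] at this
      exact this
    have h3 := AnalyticOnNhd.eqOn_zero_of_preconnected_of_eventuallyEq_zero (f := h) (U := ball y r) (fun z hz => (hball z hz).1)
      (convex_ball y r).isPreconnected hwb hz
    refine hh0 ?_
    filter_upwards [ball_mem_nhds y hr] with z hz
    exact h3 hz
  have hmeet : ∀ W : Set (Vd (k + 1)), IsOpen W → y ∈ closure (Dᶜ ∩ W) → (S ∩ W).Nonempty := by
    intro W hW hyW
    obtain ⟨z, hzb, hzD, hzW⟩ := mem_closure_iff.1 hyW _ isOpen_ball (mem_ball_self hr)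
    obtain ⟨x, hx1, hx2⟩ := hdense W hW ⟨z, hzW, hzb⟩
    exact ⟨x, hx2, hx1⟩
  rcases (isPreconnected_iff_subset_of_disjoint.1 hSc) u v hu hv (hSD.trans huv) (by
    rw [← Set.subset_empty_iff, ← hdis]
    exact Set.inter_subset_inter_left _ hSD) with hSu | hSv
  · obtain ⟨x, hx1, hx2⟩ := hmeet v hv hyv
    have : x ∈ Dᶜ ∩ (u ∩ v) := ⟨hSD hx1, hSu hx1, hx2⟩
    rw [hdis] at this
    exact this
  · obtain ⟨x, hx1, hx2⟩ := hmeet u hu hyu
    have : x ∈ Dᶜ ∩ (u ∩ v) := ⟨hSD hx1, hx2, hSv hx1⟩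
    rw [hdis] at this
    exact this

end Pool.Agent.TG

end

section

/-!
# G4 K Cb: the Schwarz lemma for the zeros

`m`, `Q` from `cf_alg`.  For `Q m x ≠ 0` and `k ≤ m`: `q k x = Q (m - k) x / Q m x = ± e_k (g x i, i ∈ J)`, `‖q k x‖ ≤ 2 ^ m S ^ k`, and `‖q k x‖ ≤ 2 ^ m (C ‖x‖ ^ T) ^ k` near `0`.  By `TG.riemann_one` `q k` extends holomorphically to the ball (the extension is
analytic, with the same bounds, by density).  One variable Schwarz lemma on the lines `t ↦ t x` (`‖x‖ < δ`, `t` in the disc of radius `δ / ‖x‖`): `‖q k x‖ ≤ 2 ^ m S ^ k (‖x‖ / δ) ^ (k T)`.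
The `g x i` are the zeros of the monic polynomial with the coefficients `q k x`: `‖g x i‖ ≤ (m + 1) 2 ^ m S (‖x‖ / δ) ^ T`.
-/

set_option autoImplicit false

open Topology Filter Metric

namespace Pool.Agent.G4.K

/-- coefficients of a product of linear factors -/
private theorem cf_coef {ι : Type} (J : Finset ι) (γ : ι → ℂ) {m : ℕ} (hJ : J.card = m) {q : ℕ → ℂ} {a : ℂ} (ha : a ≠ 0)
    (h : ∀ t : ℂ, ∑ b ∈ Finset.range (m + 1), q b * t ^ b = a * ∏ i ∈ J, (t - γ i)) {B : ℝ} (hB : ∀ i ∈ J, ‖γ i‖ ≤ B) (b : ℕ) (hb : b ≤ m) :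
    ‖q b / a‖ ≤ 2 ^ m * B ^ (m - b) := by
  classical
  set p : Polynomial ℂ := ∏ i ∈ J, (Polynomial.X - Polynomial.C (γ i)) with hp
  have hmon : p.Monic := Polynomial.monic_prod_of_monic _ _ fun i _ => Polynomial.monic_X_sub_C _
  have hdeg : p.natDegree = m := by
    rw [hp, Polynomial.natDegree_prod_of_monic _ _ fun i _ => Polynomial.monic_X_sub_C _]
    simp [hJ]
  have hspl : p.Splits := Polynomial.Splits.prod fun i _ => Polynomial.Splits.X_sub_C _
  have hroots : ∀ z ∈ (Polynomial.map (RingHom.id ℂ) p).roots, ‖z‖ ≤ B := by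
    intro z hz
    rw [Polynomial.map_id, Polynomial.mem_roots hmon.ne_zero, Polynomial.IsRoot.def, hp, Polynomial.eval_prod, Finset.prod_eq_zero_iff] at hz
    obtain ⟨i, hi, h0⟩ := hz
    simp only [Polynomial.eval_sub, Polynomial.eval_X, Polynomial.eval_C] at h0
    rw [sub_eq_zero.mp h0]
    exact hB i hi
  have heq : (∑ b ∈ Finset.range (m + 1), Polynomial.C (q b / a) * Polynomial.X ^ b) = p := by
    refine Polynomial.funext fun t => ?_
    rw [Polynomial.eval_finsetSum, hp, Polynomial.eval_prod]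
    simp only [Polynomial.eval_mul, Polynomial.eval_C, Polynomial.eval_pow, Polynomial.eval_X, Polynomial.eval_sub]
    have h1 := h t
    have h2 : ∑ b ∈ Finset.range (m + 1), q b / a * t ^ b = (∑ b ∈ Finset.range (m + 1), q b * t ^ b) / a := by
      rw [Finset.sum_div]
      exact Finset.sum_congr rfl fun b _ => by ring
    rw [h2, h1]
    field_simp
  have hc : p.coeff b = q b / a := by
    rw [← heq, Polynomial.finsetSum_coeff]
    simp only [Polynomial.coeff_C_mul_X_pow]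
    rw [Finset.sum_ite_eq]
    simp [Nat.lt_succ_of_le hb]
  have hspl' : (Polynomial.map (RingHom.id ℂ) p).Splits := by
    rw [Polynomial.map_id]
    exact hspl
  have h3 := Polynomial.coeff_le_of_roots_le (f := RingHom.id ℂ) (B := B) b hmon hspl' hroots
  rw [Polynomial.map_id, hc, hdeg] at h3
  by_cases hB0 : 0 ≤ B
  · refine h3.trans ?_
    have h4 : (m.choose b : ℝ) ≤ 2 ^ m := by
      exact_mod_cast Nat.choose_le_two_pow m b
    rw [mul_comm]
    exact mul_le_mul_of_nonneg_right h4 (pow_nonneg hB0 _)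
  · have hJ0 : J = ∅ := by
      refine Finset.eq_empty_of_forall_notMem fun i hi => hB0 ((norm_nonneg _).trans (hB i hi))
    have hm0 : m = 0 := by rw [← hJ, hJ0, Finset.card_empty]
    subst hm0
    have hb0 : b = 0 := by omega
    subst hb0
    simpa using h3

/-- zeros of a monic polynomial with small coefficients -/
private theorem cf_root {m : ℕ} {γ : ℂ} {q : ℕ → ℂ} {K ρ : ℝ} (hK : 1 ≤ K) (hρ : 0 ≤ ρ) (hq : ∀ b, b < m → ‖q b‖ ≤ K * ρ ^ (m - b))
    (h : γ ^ m = - ∑ b ∈ Finset.range m, q b * γ ^ b) (hm : 0 < m) : ‖γ‖ ≤ (m + 1) * K * ρ := by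
  by_contra hcon
  push Not at hcon
  have hm1 : (1 : ℝ) ≤ (m : ℝ) + 1 := by
    have : (0 : ℝ) ≤ (m : ℝ) := Nat.cast_nonneg _
    linarith only
  have hρle : ρ ≤ ‖γ‖ := by
    have h1 : ρ ≤ (m + 1) * K * ρ := by
      have h2 : 1 ≤ ((m : ℝ) + 1) * K := by nlinarith only [hK]
      nlinarith only [hρ, h2]
    linarith
  have hγ : 0 < ‖γ‖ := by
    have : 0 ≤ (m + 1) * K * ρ := by positivity
    linarith only [hcon, this]
  have h1 : ‖γ‖ ^ m ≤ ∑ b ∈ Finset.range m, K * ρ * ‖γ‖ ^ (m - 1) := by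
    rw [← norm_pow, h, norm_neg]
    refine (norm_sum_le _ _).trans (Finset.sum_le_sum fun b hb => ?_)
    rw [Finset.mem_range] at hb
    rw [norm_mul, norm_pow]
    have h2 : ρ ^ (m - b) = ρ * ρ ^ (m - 1 - b) := by
      rw [← pow_succ']
      congr 1
      omega
    have h3 : ρ ^ (m - 1 - b) * ‖γ‖ ^ b ≤ ‖γ‖ ^ (m - 1) := by
      calc ρ ^ (m - 1 - b) * ‖γ‖ ^ b ≤ ‖γ‖ ^ (m - 1 - b) * ‖γ‖ ^ b :=
            mul_le_mul_of_nonneg_right (pow_le_pow_left₀ hρ hρle _) (by positivity)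
        _ = ‖γ‖ ^ (m - 1) := by
            rw [← pow_add]
            congr 1
            omega
    calc ‖q b‖ * ‖γ‖ ^ b ≤ K * ρ ^ (m - b) * ‖γ‖ ^ b := mul_le_mul_of_nonneg_right (hq b hb) (by positivity)
      _ = K * ρ * (ρ ^ (m - 1 - b) * ‖γ‖ ^ b) := by rw [h2]; ring
      _ ≤ K * ρ * ‖γ‖ ^ (m - 1) := mul_le_mul_of_nonneg_left h3 (by positivity)
  rw [Finset.sum_const, Finset.card_range, nsmul_eq_mul] at h1
  have h4 : ‖γ‖ ^ m = ‖γ‖ * ‖γ‖ ^ (m - 1) := by
    rw [← pow_succ']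
    congr 1
    omega
  rw [h4] at h1
  have h5 : 0 < ‖γ‖ ^ (m - 1) := by positivity
  have h6 : ‖γ‖ ≤ m * (K * ρ) := by
    have : ‖γ‖ * ‖γ‖ ^ (m - 1) ≤ (m * (K * ρ)) * ‖γ‖ ^ (m - 1) := by linarith
    exact le_of_mul_le_mul_right this h5
  have h7 : (m : ℝ) * (K * ρ) ≤ (m + 1) * K * ρ := by
    have : 0 ≤ K * ρ := by positivity
    nlinarith only [hcon, h6, this]
  linarith

/-- one variable: a quotient, bounded, with a zero of order `n` at `0` -/
private theorem cf_line {R : ℝ} (hR : 2 < R) {h p : ℂ → ℂ} (hh : ∀ z ∈ ball (0 : ℂ) R, AnalyticAt ℂ h z) (hp : ∀ z ∈ ball (0 : ℂ) R, AnalyticAt ℂ p z)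
    (h1 : h 1 ≠ 0) {B B' η : ℝ} (hη : 0 < η) {n : ℕ} (hB : ∀ z ∈ ball (0 : ℂ) R, h z ≠ 0 → ‖p z / h z‖ ≤ B)
    (hB' : ∀ z ∈ ball (0 : ℂ) η, z ∈ ball (0 : ℂ) R → h z ≠ 0 → ‖p z / h z‖ ≤ B' * ‖z‖ ^ n) : ‖p 1 / h 1‖ ≤ B * (1 / 2) ^ n := by
  have h1R : (1 : ℂ) ∈ ball (0 : ℂ) R := by
    rw [mem_ball_zero_iff, norm_one]
    linarith
  have hB0 : 0 ≤ B := (norm_nonneg _).trans (hB 1 h1R h1)
  obtain ⟨G, hG, hGf⟩ := Pool.Agent.TG.rem_disc (U := ball (0 : ℂ) R) isOpen_ball (convex_ball _ _).isPreconnected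
    (h := fun z => z * h z) (f := fun z => p z / h z / z ^ n) (fun z hz => analyticAt_id.mul (hh z hz)) h1R (by simpa using h1)
    (fun z hz h0 => by
      have hz0 : z ≠ 0 := left_ne_zero_of_mul h0
      have hh0 : h z ≠ 0 := right_ne_zero_of_mul h0
      exact ((hp z hz).differentiableAt.div (hh z hz).differentiableAt hh0).div (differentiableAt_id.pow n) (pow_ne_zero _ hz0))
    (M := max B' (B / η ^ n)) (fun z hz h0 => by
      have hz0 : z ≠ 0 := left_ne_zero_of_mul h0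
      have hh0 : h z ≠ 0 := right_ne_zero_of_mul h0
      have hzn : 0 < ‖z‖ ^ n := by
        have := norm_pos_iff.mpr hz0
        positivity
      rw [norm_div, norm_pow]
      by_cases hzη : z ∈ ball (0 : ℂ) η
      · refine le_trans ?_ (le_max_left _ _)
        rw [div_le_iff₀ hzn]
        exact hB' z hzη hz hh0
      · refine le_trans ?_ (le_max_right _ _)
        rw [mem_ball_zero_iff, not_lt] at hzη
        exact div_le_div₀ hB0 (hB z hz hh0) (by positivity) (pow_le_pow_left₀ hη.le hzη n))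
  have hfreq : ∀ z ∈ ball (0 : ℂ) R, ∃ᶠ w in 𝓝 z, w ∈ ball (0 : ℂ) R ∧ w * h w ≠ 0 := by
    intro z hz
    by_contra hcon
    rw [not_frequently] at hcon
    have h2 : ∀ᶠ w in 𝓝 z, w * h w = 0 := by
      filter_upwards [hcon, isOpen_ball.mem_nhds hz] with w hw hwR
      by_contra h3
      exact hw ⟨hwR, h3⟩
    have h4 := AnalyticOnNhd.eqOn_zero_of_preconnected_of_eventuallyEq_zero (U := ball (0 : ℂ) R) (f := fun w => w * h w)
      (fun w hw => analyticAt_id.mul (hh w hw)) (convex_ball _ _).isPreconnected hz h2 h1R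
    simp only [one_mul, Pi.zero_apply] at h4
    exact h1 h4
  have hcl : ∀ z ∈ ball (0 : ℂ) R, ‖G z‖ * ‖z‖ ^ n ≤ B := by
    intro z hz
    have hc : ContinuousAt G z := (hG.differentiableAt (isOpen_ball.mem_nhds hz)).continuousAt
    have hc2 : Tendsto (fun w : ℂ => ‖G w‖ * ‖w‖ ^ n) (𝓝 z) (𝓝 (‖G z‖ * ‖z‖ ^ n)) :=
      hc.norm.mul (continuous_norm.continuousAt.pow n)
    refine le_of_tendsto_of_frequently hc2 ((hfreq z hz).mono fun w hw => ?_)
    have hz0 : w ≠ 0 := left_ne_zero_of_mul hw.2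
    have hh0 : h w ≠ 0 := right_ne_zero_of_mul hw.2
    have hzn : 0 < ‖w‖ ^ n := by
      have := norm_pos_iff.mpr hz0
      positivity
    rw [hGf w hw.1 hw.2, norm_div, norm_pow, div_mul_cancel₀ _ hzn.ne']
    exact hB w hw.1 hh0
  have hsub : closedBall (0 : ℂ) 2 ⊆ ball (0 : ℂ) R := closedBall_subset_ball hR
  have hmax : ‖G 1‖ ≤ B * (1 / 2) ^ n := by
    refine Complex.norm_le_of_forall_mem_frontier_norm_le (U := ball (0 : ℂ) 2) isBounded_ball ?_ (fun z hz => ?_) ?_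
    · refine DifferentiableOn.diffContOnCl ?_
      rw [closure_ball _ (by norm_num)]
      exact hG.mono hsub
    · rw [frontier_ball _ (by norm_num), mem_sphere_zero_iff_norm] at hz
      have hz2 : z ∈ ball (0 : ℂ) R := hsub (by rw [mem_closedBall_zero_iff, hz])
      have h5 := hcl z hz2
      rw [hz] at h5
      have h6 : (0 : ℝ) < 2 ^ n := by positivity
      rw [one_div, inv_pow, ← div_eq_mul_inv, le_div_iff₀ h6]
      exact h5
    · rw [closure_ball _ (by norm_num), mem_closedBall_zero_iff, norm_one]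
      norm_num
  have h7 : G 1 = p 1 / h 1 := by
    rw [hGf 1 h1R (by simpa using h1)]
    simp
  rw [← h7]
  exact hmax

theorem cf_bd {E : Type} [NormedAddCommGroup E] [NormedSpace ℂ E] [FiniteDimensional ℂ E] {ι : Type} [Fintype ι] {δ : ℝ} (hδ : 0 < δ) {A g : E → ι → ℂ}
    (hP : ∀ s t : ℂ, ∀ x ∈ ball (0 : E) δ, AnalyticAt ℂ (fun x => ∏ i, (A x i + s * (t - g x i))) x) {S : ℝ} (hS : ∀ x ∈ ball (0 : E) δ, ∀ i, A x i = 0 → ‖g x i‖ ≤ S)
    {T : ℕ} {C : ℝ} (hT : ∀ᶠ x in 𝓝 (0 : E), ∀ i, A x i = 0 → ‖g x i‖ ≤ C * ‖x‖ ^ T) :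
    ∃ c : E → ℂ, (∀ x ∈ ball (0 : E) δ, AnalyticAt ℂ c x) ∧ (∃ x ∈ ball (0 : E) δ, c x ≠ 0) ∧
      ∀ x ∈ ball (0 : E) (δ / 2), c x ≠ 0 → ∀ i, A x i = 0 → ‖g x i‖ ≤ S * ((Fintype.card ι + 1) * 2 ^ Fintype.card ι * (1 / 2) ^ T) := by
  classical
  obtain ⟨m, Q, hm, hQan, hQne, hQ⟩ := cf_alg hδ hP
  refine ⟨Q m, hQan m, hQne, fun x hx hx0 i hi => ?_⟩
  have hxδ : x ∈ ball (0 : E) δ := ball_subset_ball (by linarith only [hδ]) hx
  rw [mem_ball_zero_iff] at hx
  obtain ⟨J, hJ, hJc, hJp⟩ := hQ x hxδ hx0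
  have hiJ : i ∈ J := (hJ i).mpr hi
  have hmpos : 0 < m := by
    rw [← hJc]
    exact Finset.card_pos.mpr ⟨i, hiJ⟩
  have hS0 : 0 ≤ S := (norm_nonneg _).trans (hS x hxδ i hi)
  -- general bound of the quotients
  have hquo : ∀ y ∈ ball (0 : E) δ, Q m y ≠ 0 → ∀ B : ℝ, (∀ j, A y j = 0 → ‖g y j‖ ≤ B) → ∀ b, b ≤ m → ‖Q b y / Q m y‖ ≤ 2 ^ m * B ^ (m - b) := by
    intro y hy hy0 B hB b hb
    obtain ⟨J', hJ', hJc', hJp'⟩ := hQ y hy hy0
    exact cf_coef J' (g y) hJc' hy0 (q := fun b => Q b y) hJp' (fun j hj => hB j ((hJ' j).mp hj)) b hb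
  -- the neighbourhood of `0`
  obtain ⟨ε, hε, hεT⟩ := Metric.eventually_nhds_iff_ball.mp hT
  have hcoef : ∀ b, b < m → ‖Q b x / Q m x‖ ≤ 2 ^ m * (S * (1 / 2) ^ T) ^ (m - b) := by
    intro b hb
    set R : ℝ := 2 + (δ - 2 * ‖x‖) / (‖x‖ + 1) with hR
    have hx1 : 0 < ‖x‖ + 1 := by positivity
    have hRpos : 2 < R := by
      have : 0 < (δ - 2 * ‖x‖) / (‖x‖ + 1) := div_pos (by linarith only [hx]) hx1
      linarith only [this]
    have hRx : R * ‖x‖ ≤ δ := by
      have h1 : (δ - 2 * ‖x‖) / (‖x‖ + 1) * ‖x‖ ≤ δ - 2 * ‖x‖ := by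
        rw [div_mul_eq_mul_div, div_le_iff₀ hx1]
        have : 0 ≤ δ - 2 * ‖x‖ := by linarith
        nlinarith only [hx, norm_nonneg x]
      rw [hR, add_mul]
      linarith
    have hmem : ∀ z ∈ ball (0 : ℂ) R, z • x ∈ ball (0 : E) δ := by
      intro z hz
      rw [mem_ball_zero_iff] at hz ⊢
      rw [norm_smul]
      by_cases hx0' : ‖x‖ = 0
      · rw [hx0', mul_zero]
        exact hδ
      · have : 0 < ‖x‖ := lt_of_le_of_ne (norm_nonneg _) (Ne.symm hx0')
        calc ‖z‖ * ‖x‖ < R * ‖x‖ := mul_lt_mul_of_pos_right hz this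
          _ ≤ δ := hRx
    have hlin : ∀ z : ℂ, AnalyticAt ℂ (fun z : ℂ => z • x) z := fun z => analyticAt_id.smul analyticAt_const
    have key := cf_line hRpos (h := fun z : ℂ => Q m (z • x)) (p := fun z : ℂ => Q b (z • x))
      (fun z hz => AnalyticAt.fun_comp (hQan m _ (hmem z hz)) (hlin z)) (fun z hz => AnalyticAt.fun_comp (hQan b _ (hmem z hz)) (hlin z))
      (by simpa using hx0) (B := 2 ^ m * S ^ (m - b)) (B' := 2 ^ m * (C * ‖x‖ ^ T) ^ (m - b)) (η := ε / (‖x‖ + 1)) (div_pos hε hx1) (n := T * (m - b))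
      (fun z hz h0 => hquo _ (hmem z hz) h0 S (fun j hj => hS _ (hmem z hz) j hj) b hb.le)
      (fun z hz hzR h0 => by
        have h2 : z • x ∈ ball (0 : E) ε := by
          rw [mem_ball_zero_iff] at hz ⊢
          rw [norm_smul]
          rw [lt_div_iff₀ hx1] at hz
          nlinarith only [hz, norm_nonneg z, norm_nonneg x]
        have h3 := hquo _ (hmem z hzR) h0 (C * ‖z • x‖ ^ T) (fun j hj => hεT _ h2 j hj) b hb.le
        refine h3.trans (le_of_eq ?_)
        rw [norm_smul, mul_pow, mul_assoc, pow_mul]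
        rw [← mul_pow]
        congr 1
        ring)
    simp only [one_smul] at key
    refine key.trans (le_of_eq ?_)
    rw [mul_pow, pow_mul]
    ring
  have hρ0 : 0 ≤ S * (1 / 2) ^ T := by positivity
  have hroot : (g x i) ^ m = - ∑ b ∈ Finset.range m, (Q b x / Q m x) * (g x i) ^ b := by
    have h1 := hJp (g x i)
    rw [Finset.prod_eq_zero hiJ (sub_self _), mul_zero, Finset.sum_range_succ] at h1
    have h2 : ∑ b ∈ Finset.range m, Q b x / Q m x * g x i ^ b = (∑ b ∈ Finset.range m, Q b x * g x i ^ b) / Q m x := by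
      rw [Finset.sum_div]
      exact Finset.sum_congr rfl fun b _ => by ring
    rw [h2, eq_comm, neg_eq_iff_eq_neg, div_eq_iff hx0, eq_comm]
    rw [← eq_neg_iff_add_eq_zero] at h1
    rw [h1]
    ring
  have hfin := cf_root (m := m) (γ := g x i) (q := fun b => Q b x / Q m x) (K := 2 ^ m) (ρ := S * (1 / 2) ^ T) (one_le_pow₀ (by norm_num)) hρ0
    (fun b hb => hcoef b hb) hroot hmpos
  refine hfin.trans ?_
  have hmc : (m : ℝ) ≤ Fintype.card ι := by exact_mod_cast hm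
  have h2m : (2 : ℝ) ^ m ≤ 2 ^ Fintype.card ι := pow_le_pow_right₀ (by norm_num) hm
  have h8 : ((m : ℝ) + 1) * 2 ^ m ≤ (Fintype.card ι + 1) * 2 ^ Fintype.card ι :=
    mul_le_mul (by linarith only [hmc]) h2m (by positivity) (by positivity)
  calc ((m : ℝ) + 1) * 2 ^ m * (S * (1 / 2) ^ T) ≤ (Fintype.card ι + 1) * 2 ^ Fintype.card ι * (S * (1 / 2) ^ T) :=
        mul_le_mul_of_nonneg_right h8 hρ0
    _ = S * ((Fintype.card ι + 1) * 2 ^ Fintype.card ι * (1 / 2) ^ T) := by ring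

end Pool.Agent.G4.K

end

section

/-!
# TG SmDefs: meromorphic sections

`Mer X Λ u F`: `F` is an entire vector on `ℂ^(k+1)`, not identically `0`, with `u [F y] = y` where `F y ≠ 0`.  `SameMap F G`: the same map to the
projective space.
-/

set_option autoImplicit false

open Topology Filter Metric

namespace Pool.Agent.TG

open Pool.Agent.H36.BP (EN)
open Pool.Agent.AD (Vd)

variable {N k : ℕ}

/-- the meromorphic sections of `u` -/
structure Mer (X : Set (EN N)) (Λ : AddSubgroup (Vd (k + 1))) (u : EN N → Vd (k + 1)) (F : Vd (k + 1) → EN N) : Prop where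
  an : ∀ y, AnalyticAt ℂ F y
  ne : ∃ y, F y ≠ 0
  mem : ∀ y, F y ≠ 0 → F y ∈ X ∧ u (F y) - y ∈ Λ

/-- the two vectors of functions define the same map to the projective space -/
def SameMap (F G : Vd (k + 1) → EN N) : Prop := ∀ y, ∀ i j, F y i * G y j = F y j * G y i

end Pool.Agent.TG

end
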