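import Pool.Agent.H94.G5T.M08
import Pool.Agent.H94.G5T.M13
import Pool.Agent.H94.G5T.M43

/-! The parts of this file: H13.CV.Step, G3.R.Max, TG.XCcl, TG.IsoA. -/

section

/-!
# CV Step: one more condition at a place lowers the dimension by at most one

`finrank_le_step`: let `oz E t = 1` (`exists_uni`).  The map `W → ℂ`, `f ↦ res E (f * t ^ (-d))` is linear (`res_add`, `res_smul`: `0 ≤ ord (f * t ^ (-d))` for `f ∈ W`), and its kernel is
`W ⊓ ordGe E (d + 1)` (`res_eq_zero_iff`).  Rank-nullity: `LinearMap.finrank_range_add_finrank_ker`, and the range has dimension `≤ 1`.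
`finrank_le_steps`: induction on `T`, and on `e E` for the new place.
-/

set_option autoImplicit false

open Pool.Agent.H23.Fano (PrimeDivisorOver Form regularForms)

noncomputable section

namespace Pool.Agent.H13.CV

variable {K : Type} [Field K] [Algebra ℂ K]

theorem mem_ordGe {E : Place K} {d : ℤ} {f : K} : f ∈ ordGe E d ↔ (d : WithTop ℤ) ≤ E.ord f := Iff.rfl

theorem mem_LD {D : Place K → ℤ} {f : K} : f ∈ LD D ↔ ∀ E, ((-D E : ℤ) : WithTop ℤ) ≤ E.ord f := by
  rw [LD, Submodule.mem_iInf]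
  exact Iff.rfl

theorem ordGe_anti (E : Place K) {d d' : ℤ} (h : d ≤ d') : ordGe E d' ≤ ordGe E d := by
  intro f hf
  rw [mem_ordGe] at hf ⊢
  exact le_trans (WithTop.coe_le_coe.mpr h) hf

/-- the twisted function is regular -/
private theorem Step_nonneg {E : Place K} {u f : K} {d : ℤ} (hu : u ≠ 0) (hou : oz E u = -d) (hf : f ∈ ordGe E d) :
    0 ≤ E.ord (f * u) := by
  rw [nonneg_iff]
  rw [mem_ordGe, le_ord_iff] at hf
  by_cases h0 : f = 0
  · left
    rw [h0, zero_mul]
  · right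
    rw [oz_mul E h0 hu, hou]
    rcases hf with h | h
    · exact absurd h h0
    · omega

/-- the twisted function vanishes at the place iff the order is one larger -/
private theorem Step_pos {E : Place K} {u f : K} {d : ℤ} (hu : u ≠ 0) (hou : oz E u = -d) (h : 0 < E.ord (f * u)) :
    f ∈ ordGe E (d + 1) := by
  rw [mem_ordGe, le_ord_iff]
  by_cases h0 : f = 0
  · left
    exact h0
  · right
    rw [pos_iff, oz_mul E h0 hu, hou] at h
    rcases h with h | h
    · exact absurd h (mul_ne_zero h0 hu)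
    · omega

/-- the linear map: the leading coefficient -/
private def Step_map (hK : CurveField K) (W : Submodule ℂ K) (E : Place K) (d : ℤ) (hW : W ≤ ordGe E d) (u : K)
    (hu : u ≠ 0) (hou : oz E u = -d) : W →ₗ[ℂ] ℂ where
  toFun f := res E ((f : K) * u)
  map_add' f g := by
    show res E (((f + g : W) : K) * u) = _
    rw [Submodule.coe_add, add_mul]
    exact res_add hK (Step_nonneg hu hou (hW f.2)) (Step_nonneg hu hou (hW g.2))
  map_smul' c f := by
    show res E (((c • f : W) : K) * u) = _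
    rw [Submodule.coe_smul, smul_mul_assoc]
    exact res_smul hK c (Step_nonneg hu hou (hW f.2))

theorem finrank_le_step (hK : CurveField K) (W : Submodule ℂ K) [FiniteDimensional ℂ W] (E : Place K) (d : ℤ) (hW : W ≤ ordGe E d) :
    Module.finrank ℂ W ≤ Module.finrank ℂ (W ⊓ ordGe E (d + 1) : Submodule ℂ K) + 1 := by
  obtain ⟨t, ht, hot⟩ := exists_uni E
  have hu : t ^ (-d) ≠ 0 := zpow_ne_zero _ ht
  have hou : oz E (t ^ (-d)) = -d := by
    rw [oz_zpow, hot, mul_one]
  have hrk := LinearMap.finrank_range_add_finrank_ker (Step_map hK W E d hW (t ^ (-d)) hu hou)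
  have hr : Module.finrank ℂ (LinearMap.range (Step_map hK W E d hW (t ^ (-d)) hu hou)) ≤ 1 := by
    have h := Submodule.finrank_le (LinearMap.range (Step_map hK W E d hW (t ^ (-d)) hu hou))
    rwa [Module.finrank_self] at h
  have hk : Module.finrank ℂ (LinearMap.ker (Step_map hK W E d hW (t ^ (-d)) hu hou)) ≤
      Module.finrank ℂ (W ⊓ ordGe E (d + 1) : Submodule ℂ K) := by
    rw [← Submodule.finrank_map_subtype_eq W (LinearMap.ker (Step_map hK W E d hW (t ^ (-d)) hu hou))]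
    refine Submodule.finrank_mono ?_
    rintro f hf
    obtain ⟨g, hg, rfl⟩ := Submodule.mem_map.mp hf
    refine Submodule.mem_inf.mpr ⟨g.2, ?_⟩
    have h1 : res E ((g : K) * t ^ (-d)) = 0 := hg
    have h2 := (res_eq_zero_iff hK (Step_nonneg hu hou (hW g.2))).mp h1
    exact Step_pos hu hou h2
  omega

private theorem Step_iter (hK : CurveField K) (W : Submodule ℂ K) [FiniteDimensional ℂ W] (E : Place K) (d : ℤ)
    (hW : W ≤ ordGe E d) (k : ℕ) :
    Module.finrank ℂ W ≤ Module.finrank ℂ (W ⊓ ordGe E (d + k) : Submodule ℂ K) + k := by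
  induction k with
  | zero =>
    have h : W ⊓ ordGe E (d + (0 : ℕ)) = W := by
      rw [Nat.cast_zero, add_zero]
      exact inf_eq_left.mpr hW
    rw [h, add_zero]
  | succ k ih =>
    have h1 := finrank_le_step hK (W ⊓ ordGe E (d + k)) E (d + k) inf_le_right
    have h2 : (W ⊓ ordGe E (d + k)) ⊓ ordGe E (d + k + 1) = W ⊓ ordGe E (d + ((k + 1 : ℕ) : ℤ)) := by
      have h3 : d + (k : ℤ) + 1 = d + ((k + 1 : ℕ) : ℤ) := by
        push_cast
        ring
      rw [inf_assoc, inf_eq_right.mpr (ordGe_anti E (by omega : d + (k : ℤ) ≤ d + (k : ℤ) + 1)), h3]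
    rw [h2] at h1
    omega

theorem finrank_le_steps (hK : CurveField K) (W : Submodule ℂ K) [FiniteDimensional ℂ W] (T : Finset (Place K)) (d : Place K → ℤ) (e : Place K → ℕ)
    (hW : ∀ E ∈ T, W ≤ ordGe E (d E)) :
    Module.finrank ℂ W ≤ Module.finrank ℂ (W ⊓ ⨅ E ∈ T, ordGe E (d E + e E) : Submodule ℂ K) + ∑ E ∈ T, e E := by
  classical
  induction T using Finset.induction_on with
  | empty =>
    have h : W ⊓ ⨅ E ∈ (∅ : Finset (Place K)), ordGe E (d E + e E) = W :=
      inf_eq_left.mpr (le_iInf fun E => le_iInf fun hE => absurd hE (Finset.notMem_empty E))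
    rw [h]
    exact Nat.le_add_right _ _
  | insert E T hE ih =>
    have ih' := ih fun E' hE' => hW E' (Finset.mem_insert_of_mem hE')
    have hle : W ⊓ ⨅ E' ∈ T, ordGe E' (d E' + e E') ≤ ordGe E (d E) :=
      le_trans inf_le_left (hW E (Finset.mem_insert_self E T))
    have h1 := Step_iter hK (W ⊓ ⨅ E' ∈ T, ordGe E' (d E' + e E')) E (d E) hle (e E)
    have h2 : (W ⊓ ⨅ E' ∈ T, ordGe E' (d E' + e E')) ⊓ ordGe E (d E + e E) =
        W ⊓ ⨅ E' ∈ insert E T, ordGe E' (d E' + e E') := by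
      rw [Finset.iInf_insert, inf_assoc, inf_comm (ordGe E (d E + e E))]
    rw [h2] at h1
    rw [Finset.sum_insert hE]
    omega

end Pool.Agent.H13.CV

end
end

section

/-!
# G3 R Max: the maximum

`mf_cont`: from `hP.cont` and the continuity of `deriv h`.
`exists_max`: the function `φ z = (r² - |z|²)² Mf z ² / (A + Lam z)` at the `Ok` points, `φ = 0` at the other points, is upper semicontinuous on `closedBall 0 r` (`closedBall 0 r ⊆ ball 0 1`) and `≥ 0`:
it is continuous at `Ok` points (at an `Ok` point with `deriv h = 0` we have `Np = 0` also near it); near a point with `Q (F z) = 0` we have `Lam → ∞` on `Ok` points and `Mf` is bounded; near a point with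
`Q (F z) ≠ 0`, `p = 0`, `deriv h ≠ 0`: `Np → ∞`; near a point with `p = 0`, `deriv h = 0`: `Mf → 0` (and `Lam ≥ 0`).  So `φ` has a maximum on the compact disc; if it is `0` take `w = 0`
(then `Mf z = 0` at all `Ok` points of the ball), otherwise the maximum point is `Ok` and in the open ball.
-/

set_option autoImplicit false

open Topology Filter Metric

namespace Pool.Agent.G3

open Pool.Agent.H36.BP (EN fs wd Sub)
open Pool.Agent.H14.PP (IsCone CurveAt Tan)
open Pool.Agent.H62.EF (MN pr)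
open Pool.Agent.AD (Vd Chart Charts)
open Pool.Agent.TG (TMap Lat Geo Gd)

variable {N k : ℕ} {X : Set (EN N)} {Λ : AddSubgroup (Vd (k + 1))} {u : EN N → Vd (k + 1)} {D : Set (Vd (k + 1))} {p : EN N → EN N → ℝ} {m d : ℕ} {C : ℝ} {Q : EN N → ℂ}

theorem mf_cont (hP : PS X Λ u D p m C) {U : Set ℂ} (hU : IsOpen U) {F : ℂ → EN N} {h : ℂ → Vd (k + 1)} (hF : Cv X Λ u U F h) (ε : ℝ) :
    ContinuousOn (Mf p m ε F h) U := by
  have h1 : ContinuousOn (fun z => ‖deriv h z‖) U := (hF.h_diff.deriv hU).continuousOn.norm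
  have h2 : ContinuousOn (fun z => pf p F z ^ (1 / (m : ℝ))) U :=
    (hP.cont U F h hU hF).rpow_const fun z _ => Or.inr (by positivity)
  exact h1.sup (continuousOn_const.mul h2)

theorem lam_nonneg (hX : IsCone X) (hQ : QD X Λ u D Q d) {F : ℂ → EN N} {h : ℂ → Vd (k + 1)} {z : ℂ} (hz : F z ∈ X) (h0 : Q (F z) ≠ 0) :
    0 ≤ Lq Q d (F z) ∧ 0 ≤ Np p m F h z ∧ 0 ≤ Lam Q d p m F h z := by
  have h1 : 0 ≤ Lq Q d (F z) := by
    unfold Lq
    have h2 : Real.log ‖Q (F z)‖ ≤ Real.log (‖F z‖ ^ d) := Real.log_le_log (norm_pos_iff.2 h0) (hQ.bound _ hz)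
    rw [Real.log_pow] at h2
    linarith
  have h3 : 0 ≤ Np p m F h z := le_max_left _ _
  refine ⟨h1, h3, ?_⟩
  unfold Lam
  positivity

private theorem Max_np (z : ℂ) (F : ℂ → EN N) (h : ℂ → Vd (k + 1)) :
    Np p m F h z = Real.posLog (‖deriv h z‖ ^ m / pf p F z) := by
  unfold Np
  rw [Real.posLog_apply, ← Real.log_inv, inv_div]

private theorem Max_cont (hX : IsCone X) (hP : PS X Λ u D p m C) (hQ : QD X Λ u D Q d) {F : ℂ → EN N} {h : ℂ → Vd (k + 1)}
    (hF : Cv X Λ u (ball 0 1) F h) {z : ℂ} (hz : z ∈ ball (0 : ℂ) 1) (h0 : Ok Q p F z) :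
    (∀ᶠ w in 𝓝 z, Ok Q p F w) ∧ ContinuousAt (Lam Q d p m F h) z := by
  have hb : ball (0 : ℂ) 1 ∈ 𝓝 z := isOpen_ball.mem_nhds hz
  have hFc : ContinuousAt F z := hF.F_diff.continuousOn.continuousAt hb
  have hQc : ContinuousAt (fun w => Q (F w)) z := ContinuousAt.comp (g := Q) hQ.diff.continuous.continuousAt hFc
  have hpc : ContinuousAt (pf p F) z := (hP.cont _ F h isOpen_ball hF).continuousAt hb
  have hdc : ContinuousAt (fun w => ‖deriv h w‖) z := (hF.h_diff.deriv isOpen_ball).continuousOn.norm.continuousAt hb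
  have hF0 : F z ≠ 0 := fun h => hX.zero_notMem (h ▸ hF.mem z hz)
  refine ⟨?_, ?_⟩
  · filter_upwards [hQc.eventually_ne h0.1, hpc.eventually (lt_mem_nhds h0.2)] with w h1 h2
    exact ⟨h1, h2⟩
  · have h1 : ContinuousAt (fun w => Np p m F h w) z := by
      have h2 : (fun w => Np p m F h w) = fun w => Real.posLog (‖deriv h w‖ ^ m / pf p F w) := funext fun w => Max_np w F h
      rw [h2]
      exact ContinuousAt.comp (g := Real.posLog) Real.continuous_posLog.continuousAt ((hdc.pow m).div hpc h0.2.ne')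
    have h3 : ContinuousAt (fun w => Lq Q d (F w)) z := by
      unfold Lq
      exact (continuousAt_const.mul (hFc.norm.log (norm_ne_zero_iff.2 hF0))).sub (hQc.norm.log (norm_ne_zero_iff.2 h0.1))
    exact h3.add (continuousAt_const.mul h1)

/-- at a point which is not `Ok` the functional tends to infinity or `Mf` to `0` -/
private theorem Max_deg (hX : IsCone X) (hP : PS X Λ u D p m C) (hQ : QD X Λ u D Q d) {F : ℂ → EN N} {h : ℂ → Vd (k + 1)}
    (hF : Cv X Λ u (ball 0 1) F h) {z : ℂ} (hz : z ∈ ball (0 : ℂ) 1) (h0 : ¬ Ok Q p F z) (h1 : ¬ (pf p F z = 0 ∧ deriv h z = 0)) (B : ℝ) :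
    ∀ᶠ w in 𝓝 z, Ok Q p F w → B < Lam Q d p m F h w := by
  have hb : ball (0 : ℂ) 1 ∈ 𝓝 z := isOpen_ball.mem_nhds hz
  have hFc : ContinuousAt F z := hF.F_diff.continuousOn.continuousAt hb
  have hQc : ContinuousAt (fun w => Q (F w)) z := ContinuousAt.comp (g := Q) hQ.diff.continuous.continuousAt hFc
  have hpc : ContinuousAt (pf p F) z := (hP.cont _ F h isOpen_ball hF).continuousAt hb
  have hdc : ContinuousAt (fun w => ‖deriv h w‖) z := (hF.h_diff.deriv isOpen_ball).continuousOn.norm.continuousAt hb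
  have hF0 : F z ≠ 0 := fun h => hX.zero_notMem (h ▸ hF.mem z hz)
  have hd1 : (1 : ℝ) ≤ d := by exact_mod_cast hQ.d_pos
  by_cases hq : Q (F z) = 0
  · have h2 : ContinuousAt (fun w => Real.exp B * ‖Q (F w)‖) z := continuousAt_const.mul hQc.norm
    have h3 : ContinuousAt (fun w => ‖F w‖ ^ d) z := hFc.norm.pow d
    have h4 : Real.exp B * ‖Q (F z)‖ < ‖F z‖ ^ d := by
      rw [hq, norm_zero, mul_zero]
      exact pow_pos (norm_pos_iff.2 hF0) d
    filter_upwards [h2.eventually_lt h3 h4, hb] with w h5 hw hok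
    have h6 : Real.log (Real.exp B * ‖Q (F w)‖) < Real.log (‖F w‖ ^ d) :=
      Real.log_lt_log (mul_pos (Real.exp_pos B) (norm_pos_iff.2 hok.1)) h5
    rw [Real.log_mul (Real.exp_pos B).ne' (norm_ne_zero_iff.2 hok.1), Real.log_exp, Real.log_pow] at h6
    have h7 := (lam_nonneg (p := p) (m := m) (h := h) hX hQ (hF.mem w hw) hok.1).2.1
    unfold Lam Lq
    have h8 : 0 ≤ (d : ℝ) * Np p m F h w := by positivity
    linarith
  · have hp0 : pf p F z = 0 := by
      by_contra hne
      exact h0 ⟨hq, lt_of_le_of_ne (hP.nonneg _ _) (Ne.symm hne)⟩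
    have hd0 : deriv h z ≠ 0 := fun hd => h1 ⟨hp0, hd⟩
    have h2 : ContinuousAt (fun w => Real.exp B * pf p F w) z := continuousAt_const.mul hpc
    have h3 : ContinuousAt (fun w => ‖deriv h w‖ ^ m) z := hdc.pow m
    have h4 : Real.exp B * pf p F z < ‖deriv h z‖ ^ m := by
      rw [hp0, mul_zero]
      exact pow_pos (norm_pos_iff.2 hd0) m
    filter_upwards [h2.eventually_lt h3 h4, hb] with w h5 hw hok
    have h6 : Real.exp B < ‖deriv h w‖ ^ m / pf p F w := by
      rw [lt_div_iff₀ hok.2]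
      exact h5
    have h7 := Real.log_lt_log (Real.exp_pos B) h6
    rw [Real.log_exp] at h7
    have h8 : B < Np p m F h w := by
      rw [Max_np, Real.posLog_apply]
      exact lt_of_lt_of_le h7 (le_max_right _ _)
    have h9 := lam_nonneg (p := p) (m := m) (h := h) hX hQ (hF.mem w hw) hok.1
    unfold Lam
    nlinarith [h9.1, h9.2.1]

theorem exists_max (hX : IsCone X) (hP : PS X Λ u D p m C) (hQ : QD X Λ u D Q d) {ε A : ℝ} (hε : 0 < ε) (hA : 0 < A) {F : ℂ → EN N} {h : ℂ → Vd (k + 1)}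
    (hF : Cv X Λ u (ball 0 1) F h) (h0 : Ok Q p F 0) {r : ℝ} (hr : 0 < r) (hr1 : r < 1) :
    ∃ w ∈ ball (0 : ℂ) r, Ok Q p F w ∧ ∀ z ∈ ball (0 : ℂ) r, Ok Q p F z →
      (r ^ 2 - ‖z‖ ^ 2) ^ 2 * Mf p m ε F h z ^ 2 * (A + Lam Q d p m F h w) ≤ (r ^ 2 - ‖w‖ ^ 2) ^ 2 * Mf p m ε F h w ^ 2 * (A + Lam Q d p m F h z) := by
  classical
  have hsub : closedBall (0 : ℂ) r ⊆ ball 0 1 := closedBall_subset_ball hr1
  have hbs : ball (0 : ℂ) r ⊆ ball 0 1 := ball_subset_closedBall.trans hsub
  set g : ℂ → ℝ := fun z => (r ^ 2 - ‖z‖ ^ 2) ^ 2 * Mf p m ε F h z ^ 2 with hg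
  set φ : ℂ → ℝ := fun z => if Ok Q p F z then g z / (A + Lam Q d p m F h z) else 0 with hφ
  have hgc : ContinuousOn g (ball 0 1) :=
    ((continuousOn_const.sub (continuous_norm.pow 2).continuousOn).pow 2).mul ((mf_cont hP isOpen_ball hF ε).pow 2)
  have hg0 : ∀ z, 0 ≤ g z := fun z => by positivity
  have hpos : ∀ z ∈ ball (0 : ℂ) 1, Ok Q p F z → 0 < A + Lam Q d p m F h z := fun z hz hok => by
    have := (lam_nonneg (p := p) (m := m) (h := h) hX hQ (hF.mem z hz) hok.1).2.2
    linarith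
  have husc : UpperSemicontinuousOn φ (closedBall (0 : ℂ) r) := by
    intro z hz y hy
    have hz1 := hsub hz
    have hb : ball (0 : ℂ) 1 ∈ 𝓝 z := isOpen_ball.mem_nhds hz1
    have hgz : ContinuousAt g z := hgc.continuousAt hb
    refine Filter.Eventually.filter_mono nhdsWithin_le_nhds ?_
    by_cases hok : Ok Q p F z
    · obtain ⟨h1, h2⟩ := Max_cont hX hP hQ hF hz1 hok
      have h3 : ContinuousAt (fun w => g w / (A + Lam Q d p m F h w)) z :=
        hgz.div (continuousAt_const.add h2) (hpos z hz1 hok).ne'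
      have h4 : g z / (A + Lam Q d p m F h z) < y := by
        simpa [hφ, hok] using hy
      filter_upwards [h1, h3.eventually (gt_mem_nhds h4)] with w h5 h6
      simpa [hφ, h5] using h6
    · have hy0 : 0 < y := by simpa [hφ, hok] using hy
      by_cases hd : pf p F z = 0 ∧ deriv h z = 0
      · have h1 : g z < y * A := by
          have h2 : Mf p m ε F h z = 0 := by
            unfold Mf
            have h3 : (0 : ℝ) ^ (1 / (m : ℝ)) = 0 := Real.zero_rpow (by
              have := hP.m_pos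
              positivity)
            rw [hd.1, hd.2, h3]
            simp
          simp only [hg, h2]
          have := mul_pos hy0 hA
          simpa using this
        filter_upwards [hgz.eventually (gt_mem_nhds h1), hb] with w h5 hw
        simp only [hφ]
        split_ifs with hokw
        · rw [div_lt_iff₀ (hpos w hw hokw)]
          have h6 := (lam_nonneg (p := p) (m := m) (h := h) hX hQ (hF.mem w hw) hokw.1).2.2
          nlinarith [mul_nonneg hy0.le h6]
        · exact hy0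
      · have h1 := Max_deg hX hP hQ hF hz1 hok hd ((g z + 1) / y)
        filter_upwards [h1, hgz.eventually (gt_mem_nhds (lt_add_one (g z))), hb] with w h5 h6 hw
        simp only [hφ]
        split_ifs with hokw
        · rw [div_lt_iff₀ (hpos w hw hokw)]
          have h7 := h5 hokw
          rw [div_lt_iff₀ hy0] at h7
          nlinarith [mul_pos hy0 hA]
        · exact hy0
  obtain ⟨w, hw, hmax⟩ := UpperSemicontinuousOn.exists_isMaxOn ⟨0, mem_closedBall_self hr.le⟩ (isCompact_closedBall (0 : ℂ) r) husc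
  have hle : ∀ z ∈ closedBall (0 : ℂ) r, φ z ≤ φ w := fun z hz => hmax hz
  have hφ0 : 0 ≤ φ w := by
    simp only [hφ]
    split_ifs with hok
    · exact div_nonneg (hg0 w) (hpos w (hsub hw) hok).le
    · exact le_rfl
  rcases hφ0.eq_or_lt with he | hlt
  · refine ⟨0, mem_ball_self hr, h0, fun z hz hok => ?_⟩
    have h1 := hle z (ball_subset_closedBall hz)
    rw [← he] at h1
    have h2 : g z / (A + Lam Q d p m F h z) ≤ 0 := by simpa [hφ, hok] using h1
    have h3 := hpos z (hbs hz) hok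
    have h4 : g z ≤ 0 := by
      rw [div_le_iff₀ h3, zero_mul] at h2
      exact h2
    have h5 : g z = 0 := le_antisymm h4 (hg0 z)
    have h6 : 0 ≤ g 0 * (A + Lam Q d p m F h z) := mul_nonneg (hg0 0) h3.le
    simp only [hg] at h5 h6
    rw [h5, zero_mul]
    exact h6
  · have hokw : Ok Q p F w := by
      by_contra hn
      simp [hφ, hn] at hlt
    have hφw : φ w = g w / (A + Lam Q d p m F h w) := by simp [hφ, hokw]
    have hpw := hpos w (hsub hw) hokw
    have hgw : 0 < g w := by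
      rw [hφw] at hlt
      by_contra hn
      have : g w = 0 := le_antisymm (not_lt.1 hn) (hg0 w)
      rw [this, zero_div] at hlt
      exact lt_irrefl _ hlt
    have hwb : w ∈ ball (0 : ℂ) r := by
      rw [mem_ball_zero_iff]
      rw [mem_closedBall_zero_iff] at hw
      refine lt_of_le_of_ne hw fun he => ?_
      simp only [hg, he] at hgw
      simp at hgw
    refine ⟨w, hwb, hokw, fun z hz hok => ?_⟩
    have h1 := hle z (ball_subset_closedBall hz)
    have hφz : φ z = g z / (A + Lam Q d p m F h z) := by simp [hφ, hok]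
    rw [hφw, hφz, div_le_div_iff₀ (hpos z (hbs hz) hok) hpw] at h1
    exact h1

end Pool.Agent.G3

end

section

/-!
# TG XCcl: circles off `D`

`exists_circle`.  Let `h` be from `thin y₀`.  There is `v` with `h (y₀ + v) ≠ 0`, `‖v‖` so small that `h` is analytic on the ball of radius `2 ‖v‖` and `D ⊆ {h = 0}` there, and `v ≠ 0` can be chosen (if only `v = 0` is
possible then `h` is `0` near `y₀` except at `y₀`, so `h y₀ = 0` by continuity, as `k + 1 ≥ 1`).  `e = v / ‖v‖`; the function `z ↦ h (y₀ + z • e)` is analytic near `0` and not `0` on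
`‖z‖ ≤ ‖v‖` (preconnected), so its zero at `0` is isolated or it is not a zero: there is `r ∈ (0, 1)`, `r < ‖v‖`, with `h (y₀ + z • e) ≠ 0` for `‖z‖ = r`.  So the compact circle `{y₀ + z • e}` is disjoint from the closed
set `D`; the distance is `≥ 2 c` for some `c > 0`, and `ρ = min (c / 4) (1/2)`.
-/

set_option autoImplicit false

open Topology Filter Metric MeasureTheory

namespace Pool.Agent.TG

open Pool.Agent.AD (Vd)

variable {k : ℕ} {D : Set (Vd (k + 1))}

theorem exists_circle (hD : IsClosed D) (hthin : ∀ y : Vd (k + 1), ∃ h : Vd (k + 1) → ℂ, AnalyticAt ℂ h y ∧ (∀ᶠ z in 𝓝 y, z ∈ D → h z = 0) ∧ ¬ ∀ᶠ z in 𝓝 y, h z = 0)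
    (y₀ : Vd (k + 1)) : ∃ (e : Vd (k + 1)) (r c ρ : ℝ), e ≠ 0 ∧ ‖e‖ ≤ 1 ∧ 0 < r ∧ r < 1 ∧ 0 < c ∧ 0 < ρ ∧ ρ < 1 ∧
      ∀ y ∈ ball y₀ (4 * ρ), ∀ z : ℂ, ‖z‖ = r → y + z • e ∈ Gd D c := by
  obtain ⟨h, han, hDh, hne⟩ := hthin y₀
  obtain ⟨R₀, hR₀, hball⟩ := Metric.eventually_nhds_iff_ball.1 (han.eventually_analyticAt.and hDh)
  set R : ℝ := min R₀ 1 with hRdef
  have hR : 0 < R := lt_min hR₀ one_pos
  have hRR : R ≤ R₀ := min_le_left _ _
  have hR1 : R ≤ 1 := min_le_right _ _
  have hline : ∀ v : Vd (k + 1), ∀ z : ℂ, AnalyticAt ℂ h (y₀ + z • v) → AnalyticAt ℂ (fun z : ℂ => h (y₀ + z • v)) z := by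
    intro v z hz
    have h1 : AnalyticAt ℂ (fun z : ℂ => y₀ + z • v) z := analyticAt_const.add (analyticAt_id.smul analyticAt_const)
    exact AnalyticAt.fun_comp (g := h) hz h1
  -- the direction
  have hv : ∃ v : Vd (k + 1), v ≠ 0 ∧ ‖v‖ ≤ 1 ∧ ∀ᶠ z in 𝓝[≠] (0 : ℂ), h (y₀ + z • v) ≠ 0 := by
    by_cases h0 : h y₀ = 0
    · have hfr : ∃ᶠ z in 𝓝 y₀, h z ≠ 0 := by
        intro hh
        exact hne (hh.mono fun z hz => not_not.1 hz)
      obtain ⟨z₀, hz₀, hz₀b⟩ := (hfr.and_eventually (Metric.ball_mem_nhds y₀ (half_pos hR))).exists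
      have hvR : ‖z₀ - y₀‖ < R / 2 := by simpa [mem_ball, dist_eq_norm] using hz₀b
      refine ⟨z₀ - y₀, ?_, by linarith, ?_⟩
      · intro hz
        rw [sub_eq_zero.1 hz] at hz₀
        exact hz₀ h0
      · have hanR : AnalyticOnNhd ℂ (fun z : ℂ => h (y₀ + z • (z₀ - y₀))) (ball (0 : ℂ) 2) := by
          intro z hz
          refine hline _ _ (hball _ ?_).1
          rw [mem_ball, dist_eq_norm] at hz ⊢
          rw [add_sub_cancel_left, norm_smul]
          rw [sub_zero] at hz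
          have := norm_nonneg z
          have := norm_nonneg (z₀ - y₀)
          nlinarith
        rcases (hanR 0 (mem_ball_self two_pos)).eventually_eq_zero_or_eventually_ne_zero with h1 | h1
        · exfalso
          have h2 := hanR.eqOn_zero_of_preconnected_of_eventuallyEq_zero (convex_ball (0 : ℂ) 2).isPreconnected (mem_ball_self two_pos) h1
          have h3 := h2 (show (1 : ℂ) ∈ ball (0 : ℂ) 2 by simp [mem_ball])
          simp only [one_smul, add_sub_cancel, Pi.zero_apply] at h3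
          exact hz₀ h3
        · exact h1
    · refine ⟨fun _ => 1, ?_, ?_, ?_⟩
      · intro hz
        exact one_ne_zero (congrFun hz 0)
      · refine (pi_norm_le_iff_of_nonneg zero_le_one).2 fun i => ?_
        simp
      · have h1 : ContinuousAt (fun z : ℂ => h (y₀ + z • (fun _ => (1 : ℂ) : Vd (k + 1)))) 0 := by
          refine (hline _ _ ?_).continuousAt
          simpa using han
        have h2 : ∀ᶠ z in 𝓝 (0 : ℂ), h (y₀ + z • (fun _ => (1 : ℂ) : Vd (k + 1))) ≠ 0 := by
          refine h1.eventually_ne ?_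
          simpa using h0
        exact h2.filter_mono nhdsWithin_le_nhds
  obtain ⟨v, hv0, hv1, hvz⟩ := hv
  obtain ⟨r₀, hr₀, hr⟩ := Metric.eventually_nhds_iff_ball.1 (eventually_nhdsWithin_iff.1 hvz)
  set r : ℝ := min (min r₀ 1) R / 2 with hrdef
  have hm : 0 < min (min r₀ 1) R := lt_min (lt_min hr₀ one_pos) hR
  have hr0 : 0 < r := half_pos hm
  have hrr₀ : r < r₀ := lt_of_lt_of_le (half_lt_self hm) ((min_le_left _ _).trans (min_le_left _ _))
  have hr1 : r < 1 := lt_of_lt_of_le (half_lt_self hm) ((min_le_left _ _).trans (min_le_right _ _))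
  have hrR : r < R := lt_of_lt_of_le (half_lt_self hm) (min_le_right _ _)
  have hcirc : ∀ z : ℂ, ‖z‖ = r → y₀ + z • v ∉ D := by
    intro z hz hzD
    have h1 : h (y₀ + z • v) ≠ 0 := by
      refine hr z ?_ ?_
      · rw [mem_ball, dist_eq_norm, sub_zero, hz]
        exact hrr₀
      · rw [Set.mem_compl_iff, Set.mem_singleton_iff]
        intro h0
        rw [h0, norm_zero] at hz
        exact hr0.ne hz
    refine h1 ((hball _ ?_).2 hzD)
    rw [mem_ball, dist_eq_norm, add_sub_cancel_left, norm_smul, hz]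
    have := norm_nonneg v
    nlinarith
  have hK : IsCompact ((fun z : ℂ => y₀ + z • v) '' sphere (0 : ℂ) r) :=
    (isCompact_sphere (0 : ℂ) r).image (by fun_prop)
  have hKD : (fun z : ℂ => y₀ + z • v) '' sphere (0 : ℂ) r ⊆ Dᶜ := by
    rintro _ ⟨z, hz, rfl⟩
    exact hcirc z (by simpa using hz)
  obtain ⟨δ, hδ, hth⟩ := hK.exists_thickening_subset_open hD.isOpen_compl hKD
  refine ⟨v, r, δ / 2, min (δ / 8) (1 / 2), hv0, hv1, hr0, hr1, half_pos hδ, lt_min (by linarith) (by norm_num),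
    lt_of_le_of_lt (min_le_right _ _) (by norm_num), ?_⟩
  intro y hy z hz b hb
  by_contra hcon
  rw [not_le] at hcon
  have h1 : ‖y - y₀‖ < δ / 2 := by
    rw [mem_ball, dist_eq_norm] at hy
    have := min_le_left (δ / 8) (1 / 2 : ℝ)
    linarith
  have h2 : b ∈ thickening δ ((fun z : ℂ => y₀ + z • v) '' sphere (0 : ℂ) r) := by
    rw [mem_thickening_iff]
    refine ⟨y₀ + z • v, ⟨z, by simpa using hz, rfl⟩, ?_⟩
    rw [dist_comm, dist_eq_norm]
    have h3 : y₀ + z • v - b = (y + z • v - b) - (y - y₀) := by abel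
    rw [h3]
    exact (norm_sub_le _ _).trans_lt (by linarith)
  exact hth h2 hb

end Pool.Agent.TG

end

section

/-!
# TG IsoA: a zero set near a graph

`exists_isolated`: let `G (t, s)` be analytic at `(0, s₀)`, not `0` near it.  On a polydisc `|t| < 2 r`, `‖s - s₀‖ < 2 r` `G` is analytic and bounded by `M`.  Let `a_j s` be the Taylor coefficients of `t ↦ G (t, s)` at `t = 0`, `‖s - s₀‖ < r`
(analytic in `s`; e.g. `a_j s = (2πi)⁻¹ ∮ G (t, s) t^(-j-1) dt` over `|t| = r`, `|a_j| ≤ M r^(-j)`).  If `a_j = 0` near `s₀` for all `j`, then by the identity theorem (`a_j` is analytic on the ball, which is connected) all `a_j` vanish on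
`ball s₀ r`, so `G = 0` near `(0, s₀)`: contradiction.  So there is a minimal `j` such that `a_j` is not `0` near `s₀`; then `a_i = 0` on `ball s₀ r` for `i < j`, and there is `s₁ ∈ W` with `a_j s₁ ≠ 0`.  For `s` near `s₁` and `|t| < r / 2`
`‖G (t, s) - a_j s t^j‖ ≤ Σ_{i > j} M r^(-i) |t|^i ≤ C |t|^(j+1)`, so `G (t, s) ≠ 0` if `t ≠ 0` is small, uniformly for `s` near `s₁` (`‖a_j s‖ ≥ ‖a_j s₁‖ / 2`).
(Another way: divide `G` by `t` as long as `G (0, s) = 0` near `s₀`: `G = t ^ j * H` with `H` analytic and `H (0, ·)` not `0` near `s₀`.)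
-/

set_option autoImplicit false

open Topology Filter Metric

namespace Pool.Agent.TG

open Pool.Agent.H36.BP (EN wd)
open Pool.Agent.H14.PP (CurveAt Tan)
open Pool.Agent.AD (Vd Chart Charts)

variable {N k : ℕ}

/-- division by the coordinate `0` -/
theorem exists_div_zero {m : ℕ} {R : ℝ} {K : Vd (m + 1) → ℂ} (hK : ∀ p ∈ ball (0 : Vd (m + 1)) R, AnalyticAt ℂ K p)
    (h0 : ∀ p ∈ ball (0 : Vd (m + 1)) R, p 0 = 0 → K p = 0) :
    ∃ H : Vd (m + 1) → ℂ, (∀ p ∈ ball (0 : Vd (m + 1)) R, AnalyticAt ℂ H p) ∧ ∀ p ∈ ball (0 : Vd (m + 1)) R, K p = p 0 * H p := by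
  have ha : ∀ p ∈ ball (0 : Vd (m + 1)) R, AnalyticAt ℂ (fun p => fderiv ℂ K p (Pi.single 0 1)) p := by
    intro p hp
    exact ((ContinuousLinearMap.apply ℂ ℂ (Pi.single 0 1 : Vd (m + 1))).analyticAt _).comp (hK p hp).fderiv
  refine ⟨fun p => ∫ θ in (0 : ℝ)..1, fderiv ℂ K (pP θ p) (Pi.single 0 1), fun p hp => prm_I ha hp, fun p hp => ?_⟩
  have hpR : ‖p‖ < R := by simpa using hp
  have hin : ∀ θ ∈ Set.uIcc (0 : ℝ) 1, pP θ p ∈ ball (0 : Vd (m + 1)) R := by
    intro θ hθ
    rw [Set.uIcc_of_le zero_le_one] at hθ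
    rw [mem_ball_zero_iff]
    exact (pP_norm hθ.1 hθ.2 p).trans_lt hpR
  -- the derivative in `θ`
  have hline : ∀ θ : ℂ, HasDerivAt (fun t : ℂ => (Fin.cons (α := fun _ => ℂ) (t * p 0) fun i : Fin m => p i.succ : Vd (m + 1)))
      (p 0 • (Pi.single 0 1 : Vd (m + 1))) θ := by
    intro θ
    rw [hasDerivAt_pi]
    intro i
    refine Fin.cases ?_ ?_ i
    · have h1 := (hasDerivAt_id θ).mul_const (p 0)
      rw [one_mul] at h1
      simpa using h1
    · intro j
      have h1 := hasDerivAt_const θ (p j.succ)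
      simpa using h1
  have hder : ∀ θ ∈ Set.uIcc (0 : ℝ) 1, HasDerivAt (fun θ : ℝ => K (pP θ p)) (p 0 * fderiv ℂ K (pP θ p) (Pi.single 0 1)) θ := by
    intro θ hθ
    have h1 : HasFDerivAt K (fderiv ℂ K (pP θ p)) (pP θ p) := (hK _ (hin θ hθ)).differentiableAt.hasFDerivAt
    have h2 := (h1.comp_hasDerivAt (θ : ℂ) (hline θ)).comp_ofReal
    rw [map_smul, smul_eq_mul] at h2
    exact h2
  have h3 := intervalIntegral.integral_eq_sub_of_hasDerivAt hder (by
    refine ContinuousOn.intervalIntegrable ?_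
    refine continuousOn_const.mul ?_
    intro θ hθ
    have h4 : ContinuousAt (fun p => fderiv ℂ K p (Pi.single 0 1)) (pP θ p) := (ha _ (hin θ hθ)).continuousAt
    exact (ContinuousAt.comp (f := fun θ : ℝ => pP θ p) h4 (pP_cont _).continuousAt).continuousWithinAt)
  rw [intervalIntegral.integral_const_mul] at h3
  have h5 : pP 1 p = p := by
    funext i
    refine Fin.cases ?_ ?_ i
    · rw [pP_zero]
      simp
    · intro j
      rfl
  have h6 : K (pP 0 p) = 0 := by
    refine h0 _ (hin 0 Set.left_mem_uIcc) ?_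
    rw [pP_zero]
    simp
  rw [h5, h6, sub_zero] at h3
  exact h3.symm

/-- the case `s₀ = 0` -/
private theorem iso_zero {m : ℕ} {R : ℝ} (hR : 0 < R) {G : Vd (m + 1) → ℂ} (hG : ∀ p ∈ ball (0 : Vd (m + 1)) R, AnalyticAt ℂ G p)
    {p₁ : Vd (m + 1)} (hp₁ : p₁ ∈ ball (0 : Vd (m + 1)) R) (hne : G p₁ ≠ 0) :
    ∃ s₁ ∈ ball (0 : Vd m) R, ∃ d : ℝ, 0 < d ∧ ∀ p : Vd (m + 1), ‖p 0‖ < d → ‖(fun i => p i.succ) - s₁‖ < d → G p = 0 → p 0 = 0 := by
  by_contra hcon
  push Not at hcon
  have hcons : ∀ s ∈ ball (0 : Vd m) R, (Fin.cons (α := fun _ => ℂ) 0 s : Vd (m + 1)) ∈ ball (0 : Vd (m + 1)) R := by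
    intro s hs
    rw [mem_ball_zero_iff] at hs ⊢
    rw [pi_norm_lt_iff hR]
    intro i
    refine Fin.cases ?_ ?_ i
    · simpa using hR
    · intro j
      exact (norm_le_pi_norm s j).trans_lt hs
  -- divisibility by all powers
  have hdiv : ∀ j : ℕ, ∃ H : Vd (m + 1) → ℂ, (∀ p ∈ ball (0 : Vd (m + 1)) R, AnalyticAt ℂ H p) ∧
      ∀ p ∈ ball (0 : Vd (m + 1)) R, G p = p 0 ^ j * H p := by
    intro j
    induction j with
    | zero => exact ⟨G, hG, fun p _ => by rw [pow_zero, one_mul]⟩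
    | succ j ih =>
      obtain ⟨H, hH, hGH⟩ := ih
      have h0 : ∀ p ∈ ball (0 : Vd (m + 1)) R, p 0 = 0 → H p = 0 := by
        intro p hp hp0
        by_contra hne0
        -- then the conclusion holds at the tail of `p`
        have hpR : ‖p‖ < R := by simpa using hp
        have h1 : ∀ᶠ q in 𝓝 p, H q ≠ 0 ∧ q ∈ ball (0 : Vd (m + 1)) R :=
          ((hH p hp).continuousAt.eventually_ne hne0).and (isOpen_ball.mem_nhds hp)
        obtain ⟨d, hd, hb⟩ := Metric.eventually_nhds_iff_ball.1 h1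
        have hs : (fun i : Fin m => p i.succ) ∈ ball (0 : Vd m) R := by
          rw [mem_ball_zero_iff, pi_norm_lt_iff hR]
          intro i
          exact (norm_le_pi_norm p i.succ).trans_lt hpR
        obtain ⟨q, hq0, hqs, hGq, hq⟩ := hcon _ hs d hd
        have hqb : q ∈ ball p d := by
          rw [mem_ball, dist_eq_norm, pi_norm_lt_iff hd]
          intro i
          refine Fin.cases ?_ ?_ i
          · rw [Pi.sub_apply, hp0, sub_zero]
            exact hq0
          · intro l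
            exact (norm_le_pi_norm ((fun i : Fin m => q i.succ) - fun i : Fin m => p i.succ) l).trans_lt hqs
        obtain ⟨h2, h3⟩ := hb q hqb
        rw [hGH q h3] at hGq
        rcases mul_eq_zero.1 hGq with h4 | h4
        · exact hq (eq_zero_of_pow_eq_zero h4)
        · exact h2 h4
      obtain ⟨H', hH', hHH⟩ := exists_div_zero hH h0
      refine ⟨H', hH', fun p hp => ?_⟩
      rw [hGH p hp, hHH p hp]
      ring
  -- the function on the line through `p₁`
  set L : ℂ → Vd (m + 1) := fun t => Fin.cons (α := fun _ => ℂ) t fun i : Fin m => p₁ i.succ with hL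
  have hp₁R : ‖p₁‖ < R := by simpa using hp₁
  have hLb : ∀ t ∈ ball (0 : ℂ) R, L t ∈ ball (0 : Vd (m + 1)) R := by
    intro t ht
    rw [mem_ball_zero_iff, pi_norm_lt_iff hR]
    intro i
    refine Fin.cases ?_ ?_ i
    · show ‖t‖ < R
      simpa using ht
    · intro j
      exact (norm_le_pi_norm p₁ j.succ).trans_lt hp₁R
  have hLa : ∀ t, AnalyticAt ℂ L t := by
    intro t
    rw [analyticAt_pi_iff]
    intro i
    refine Fin.cases ?_ ?_ i
    · exact analyticAt_id
    · intro j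
      exact analyticAt_const
  have hga : ∀ t ∈ ball (0 : ℂ) R, AnalyticAt ℂ (fun t => G (L t)) t := fun t ht => AnalyticAt.fun_comp (hG _ (hLb t ht)) (hLa t)
  have h0b : (0 : ℂ) ∈ ball (0 : ℂ) R := mem_ball_self hR
  have htop : analyticOrderAt (fun t => G (L t)) 0 = ⊤ := by
    rw [ENat.eq_top_iff_forall_ge]
    intro j
    obtain ⟨H, hH, hGH⟩ := hdiv j
    rw [natCast_le_analyticOrderAt (hga 0 h0b)]
    refine ⟨fun t => H (L t), AnalyticAt.fun_comp (hH _ (hLb 0 h0b)) (hLa 0), ?_⟩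
    filter_upwards [isOpen_ball.mem_nhds h0b] with t ht
    rw [hGH _ (hLb t ht), sub_zero, smul_eq_mul]
    rfl
  rw [analyticOrderAt_eq_top] at htop
  have h1 : AnalyticOnNhd ℂ (fun t => G (L t)) (ball 0 R) := hga
  have ht₁ : p₁ 0 ∈ ball (0 : ℂ) R := by
    rw [mem_ball_zero_iff]
    exact (norm_le_pi_norm p₁ 0).trans_lt hp₁R
  have h2 := h1.eqOn_zero_of_preconnected_of_eventuallyEq_zero (convex_ball 0 R).isPreconnected h0b htop ht₁
  have h3 : L (p₁ 0) = p₁ := by
    funext i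
    refine Fin.cases ?_ ?_ i
    · rfl
    · intro j
      rfl
  simp only [h3] at h2
  exact hne h2

theorem exists_isolated {m : ℕ} {G : Vd (m + 1) → ℂ} {s₀ : Vd m} (hG : AnalyticAt ℂ G (Fin.cons 0 s₀ : Vd (m + 1)))
    (hne : ¬ ∀ᶠ p in 𝓝 (Fin.cons 0 s₀ : Vd (m + 1)), G p = 0) {W : Set (Vd m)} (hW : W ∈ 𝓝 s₀) :
    ∃ s₁ ∈ W, ∃ d : ℝ, 0 < d ∧ ∀ p : Vd (m + 1), ‖p 0‖ < d → ‖(fun i => p i.succ) - s₁‖ < d → G p = 0 → p 0 = 0 := by
  set c : Vd (m + 1) := Fin.cons (α := fun _ => ℂ) 0 s₀ with hc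
  obtain ⟨R₁, hR₁, hb⟩ := Metric.eventually_nhds_iff_ball.1 hG.eventually_analyticAt
  obtain ⟨R₂, hR₂, hW2⟩ := Metric.mem_nhds_iff.1 hW
  set R : ℝ := min R₁ R₂ with hRdef
  have hR : 0 < R := lt_min hR₁ hR₂
  have htr : ∀ p ∈ ball (0 : Vd (m + 1)) R, p + c ∈ ball c R₁ := by
    intro p hp
    rw [mem_ball_zero_iff] at hp
    rw [mem_ball, dist_eq_norm, add_sub_cancel_right]
    exact hp.trans_le (min_le_left _ _)
  have hGa : ∀ p ∈ ball (0 : Vd (m + 1)) R, AnalyticAt ℂ (fun p => G (p + c)) p := by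
    intro p hp
    have h1 : AnalyticAt ℂ (fun p : Vd (m + 1) => p + c) p := analyticAt_id.add analyticAt_const
    exact AnalyticAt.fun_comp (g := G) (f := fun p : Vd (m + 1) => p + c) (hb _ (htr p hp)) h1
  obtain ⟨q, hq, hqb⟩ : ∃ q, G q ≠ 0 ∧ q ∈ ball c R := by
    obtain ⟨q, hq, hqb⟩ := ((Filter.not_eventually.1 hne).and_eventually (isOpen_ball.mem_nhds (mem_ball_self hR : c ∈ ball c R))).exists
    exact ⟨q, hq, hqb⟩
  obtain ⟨s₁, hs₁, d, hd, h⟩ := iso_zero hR hGa (p₁ := q - c) (by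
    rw [mem_ball_zero_iff, ← dist_eq_norm]
    exact hqb) (by
    show G (q - c + c) ≠ 0
    rw [sub_add_cancel]
    exact hq)
  refine ⟨s₁ + s₀, ?_, d, hd, fun p hp0 hps hGp => ?_⟩
  · apply hW2
    rw [mem_ball, dist_eq_norm, add_sub_cancel_right]
    rw [mem_ball_zero_iff] at hs₁
    exact hs₁.trans_le (min_le_right _ _)
  · have h1 := h (p - c) ?_ ?_ ?_
    · rw [Pi.sub_apply, hc, Fin.cons_zero, sub_zero] at h1
      exact h1
    · rw [Pi.sub_apply, hc, Fin.cons_zero, sub_zero]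
      exact hp0
    · have h2 : (fun i : Fin m => (p - c) i.succ) - s₁ = (fun i : Fin m => p i.succ) - (s₁ + s₀) := by
        funext i
        show (p i.succ - c i.succ) - s₁ i = p i.succ - (s₁ i + s₀ i)
        have h3 : c i.succ = s₀ i := rfl
        rw [h3]
        ring
      rw [h2]
      exact hps
    · show G (p - c + c) = 0
      rw [sub_add_cancel]
      exact hGp

end Pool.Agent.TG

end
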