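import Pool.Agent.H94.G5T.H36.BP.WdA_1
import Pool.Agent.H94.G5T.M18
import Pool.Agent.H94.G5T.M68
import Pool.Agent.H94.G5T.M81
import Pool.Agent.H94.G5T.M84

/-! The parts of this file: H13.CV.EllR, H22.WL.Proj, G3.F.LiftH, G3.Z.Circ, G3.Z.Mk, TG.SmC, TG.SmE. -/

section

/-!
# CV EllR: the relation between the generators

`ell_rel`: elimination: `v² / u³` has order `0`, value `c ≠ 0` at `E` (`exists_value`, `res_eq_zero_iff`): `v² - c u³` has order `≥ -5` (or is `0`); `uv` has order `-5`: subtract `a u v` with `a` the value of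
`(v² - c u³) / (u v)`: the order is `≥ -4`; subtract `d u²`, `b v`, `e u` in the same way: the rest has order `≥ -1` at `E`, no other poles, so it is a constant.
-/

set_option autoImplicit false

open Pool.Agent.H23.Fano (PrimeDivisorOver Form regularForms)

noncomputable section

namespace Pool.Agent.H13.CV

variable {K : Type} [Field K] [Algebra ℂ K]

private theorem step (hK : CurveField K) {E : Place K} {n : ℤ} {r g : K} (hr : (n : WithTop ℤ) ≤ E.ord r)
    (hg0 : g ≠ 0) (hg : oz E g = n) : ∃ a : ℂ, ((n + 1 : ℤ) : WithTop ℤ) ≤ E.ord (r - algebraMap ℂ K a * g) := by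
  have hq : 0 ≤ E.ord (r / g) := by
    rw [nonneg_iff]
    rcases le_ord_iff.1 hr with h | h
    · left
      rw [h, zero_div]
    · by_cases hr0 : r = 0
      · left
        rw [hr0, zero_div]
      · right
        rw [oz_div E hr0 hg0, hg]
        linarith
  obtain ⟨a, ha⟩ := exists_value hK hq
  refine ⟨a, ?_⟩
  have e : r - algebraMap ℂ K a * g = (r / g - algebraMap ℂ K a) * g := by
    rw [sub_mul, div_mul_cancel₀ _ hg0]
  rw [e, le_ord_iff]
  by_cases h0 : r / g - algebraMap ℂ K a = 0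
  · left
    rw [h0, zero_mul]
  · right
    rcases pos_iff.1 ha with h | h
    · exact absurd h h0
    · rw [oz_mul E h0 hg0, hg]
      linarith

theorem ell_rel (hK : CurveField K) {E : Place K} (h1 : ∀ f ∈ LD (dv E 1), ∃ c : ℂ, f = algebraMap ℂ K c) {u v : K} (hu : oz E u = -2) (hv : oz E v = -3)
    (hu' : ∀ E', E' ≠ E → 0 ≤ E'.ord u) (hv' : ∀ E', E' ≠ E → 0 ≤ E'.ord v) :
    ∃ c a d b e f : ℂ, c ≠ 0 ∧ v ^ 2 = algebraMap ℂ K c * u ^ 3 + algebraMap ℂ K a * (u * v) + algebraMap ℂ K d * u ^ 2 + algebraMap ℂ K b * v +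
      algebraMap ℂ K e * u + algebraMap ℂ K f := by
  have hu0 : u ≠ 0 := by
    rintro rfl
    rw [oz_zero] at hu
    norm_num at hu
  have hv0 : v ≠ 0 := by
    rintro rfl
    rw [oz_zero] at hv
    norm_num at hv
  have ozv2 : oz E (v ^ 2) = -6 := by
    rw [oz_pow, hv]
    norm_num
  have ozu3 : oz E (u ^ 3) = -6 := by
    rw [oz_pow, hu]
    norm_num
  have ozu2 : oz E (u ^ 2) = -4 := by
    rw [oz_pow, hu]
    norm_num
  have ozuv : oz E (u * v) = -5 := by
    rw [oz_mul E hu0 hv0, hu, hv]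
    norm_num
  obtain ⟨c, hc⟩ := step hK (E := E) (n := -6) (r := v ^ 2) (g := u ^ 3)
    (le_ord_iff.2 (Or.inr (le_of_eq ozv2.symm))) (pow_ne_zero 3 hu0) ozu3
  have hc0 : c ≠ 0 := by
    rintro rfl
    rw [map_zero, zero_mul, sub_zero] at hc
    rcases le_ord_iff.1 hc with h | h
    · exact pow_ne_zero 2 hv0 h
    · rw [ozv2] at h
      norm_num at h
  obtain ⟨a, ha⟩ := step hK (E := E) (n := -5) (r := v ^ 2 - algebraMap ℂ K c * u ^ 3) (g := u * v)
    (by simpa using hc) (mul_ne_zero hu0 hv0) ozuv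
  obtain ⟨d, hd⟩ := step hK (E := E) (n := -4) (r := v ^ 2 - algebraMap ℂ K c * u ^ 3 - algebraMap ℂ K a * (u * v)) (g := u ^ 2)
    (by simpa using ha) (pow_ne_zero 2 hu0) ozu2
  obtain ⟨b, hb⟩ := step hK (E := E) (n := -3)
    (r := v ^ 2 - algebraMap ℂ K c * u ^ 3 - algebraMap ℂ K a * (u * v) - algebraMap ℂ K d * u ^ 2) (g := v)
    (by simpa using hd) hv0 hv
  obtain ⟨e, he⟩ := step hK (E := E) (n := -2)
    (r := v ^ 2 - algebraMap ℂ K c * u ^ 3 - algebraMap ℂ K a * (u * v) - algebraMap ℂ K d * u ^ 2 - algebraMap ℂ K b * v) (g := u)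
    (by simpa using hb) hu0 hu
  obtain ⟨f, hf⟩ := h1 (v ^ 2 - algebraMap ℂ K c * u ^ 3 - algebraMap ℂ K a * (u * v) - algebraMap ℂ K d * u ^ 2 -
    algebraMap ℂ K b * v - algebraMap ℂ K e * u) (by
      rw [mem_LD]
      intro E'
      by_cases hE : E' = E
      · subst hE
        have : dv E' 1 E' = 1 := by simp [dv]
        rw [this]
        simpa using he
      · have : dv E 1 E' = 0 := by simp [dv, hE]
        rw [this]
        have hu1 := hu' E' hE
        have hv1 := hv' E' hE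
        have := nonneg_sub (nonneg_sub (nonneg_sub (nonneg_sub (nonneg_sub (nonneg_pow hv1 2)
          (nonneg_mul (const_nonneg E' c) (nonneg_pow hu1 3)))
          (nonneg_mul (const_nonneg E' a) (nonneg_mul hu1 hv1)))
          (nonneg_mul (const_nonneg E' d) (nonneg_pow hu1 2)))
          (nonneg_mul (const_nonneg E' b) hv1))
          (nonneg_mul (const_nonneg E' e) hu1)
        simpa using this)
  exact ⟨c, a, d, b, e, f, hc0, by linear_combination hf⟩

end Pool.Agent.H13.CV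

end
end

section

/-!
# WL Proj: complements in surfaces with nonpositively curved pseudo-lengths, in the projective space
-/

set_option autoImplicit false

open Topology Filter MvPolynomial Metric

noncomputable section

namespace Pool.Agent.H22.WL

open Pool.Agent.H36.BP (EN fs wd wd_sq wd_nonneg)

variable {N : ℕ} {P : Ideal (MvPolynomial (Fin (N + 1)) ℂ)} {s : ℕ} {G : Fin s → MvPolynomial (Fin (N + 1)) ℂ} {d : Fin s → ℕ}

/-- the Fubini-Study length bounds the distance to the line -/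
theorem dist_line {x v : EN N} (hx : x ≠ 0) : ∃ a : ℂ, ‖v - a • x‖ = fs x v * ‖x‖ := by
  have hn : ‖x‖ ≠ 0 := norm_ne_zero_iff.2 hx
  obtain ⟨a, ha⟩ : ∃ a : ℂ, a = inner ℂ x v / inner ℂ x x := ⟨_, rfl⟩
  have hxx : (inner ℂ x x : ℂ) ≠ 0 := inner_self_ne_zero.2 hx
  have horth : inner ℂ x (v - a • x) = (0 : ℂ) := by
    rw [inner_sub_right, inner_smul_right, ha, div_mul_cancel₀ _ hxx, sub_self]
  refine ⟨a, ?_⟩
  have h1 : wd x v = ‖x‖ * ‖v - a • x‖ := by
    have h2 : wd x v = wd x (v - a • x) := by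
      have h3 := Pool.Agent.H36.BP.wd_inv x (v - a • x) 1 a
      rw [one_smul, one_smul, sub_add_cancel, norm_one, one_pow, one_mul] at h3
      exact h3
    rw [h2]
    have h4 := wd_sq x (v - a • x)
    rw [horth, norm_zero, zero_pow two_ne_zero, sub_zero, ← mul_pow] at h4
    exact (pow_left_inj₀ (wd_nonneg _ _) (by positivity) two_ne_zero).1 h4
  unfold fs
  rw [h1]
  field_simp

theorem norm_ofLp_le (x : EN N) : ‖x.ofLp‖ ≤ ‖x‖ := by
  refine (pi_norm_le_iff_of_nonneg (norm_nonneg _)).2 fun i => ?_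
  exact PiLp.norm_apply_le x i


end Pool.Agent.H22.WL

end
end

section

/-!
# G3 F LiftH: lifts of curves on discs to `ℂ^(k+1)`

As `H19T.exists_lift_torus` (`H19T/FCur`), on discs: locally `u (F z) - v (F z) ∈ Λ` with `v` analytic (`TMap.loc`), `Λ` discrete; the derivatives of the local functions `v (F z)` agree and have a primitive on the disc.
-/

set_option autoImplicit false

open Topology Filter Metric MvPolynomial

namespace Pool.Agent.G3

open Pool.Agent.H36.BP (EN fs wd Sub Curve)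
open Pool.Agent.H14.PP (IsCone CurveAt Tan)
open Pool.Agent.H62.EF (MN pr)
open Pool.Agent.AD (Vd Chart Charts)
open Pool.Agent.TG (TMap Lat Geo Gd VForm Fb)

variable {N k : ℕ} {X : Set (EN N)} {Λ : AddSubgroup (Vd (k + 1))} {u : EN N → Vd (k + 1)} {D : Set (Vd (k + 1))} {p : EN N → EN N → ℝ} {m d : ℕ} {C C₁ : ℝ}
  {Q : EN N → ℂ}

/-- local lifts with values in a vector space modulo a discrete subgroup glue on a disc -/
private theorem glue_disc {E : Type*} [NormedAddCommGroup E] [NormedSpace ℂ E] [CompleteSpace E] {Λ : AddSubgroup E} {δ : ℝ} (hδ : 0 < δ)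
    (hΛ : ∀ l ∈ Λ, ‖l‖ < δ → l = 0) {w : ℂ → E} {c : ℂ} {r : ℝ}
    (hloc : ∀ z₀ ∈ ball c r, ∃ h : ℂ → E, AnalyticAt ℂ h z₀ ∧ ∀ᶠ z in 𝓝 z₀, w z - h z ∈ Λ) :
    ∃ h : ℂ → E, DifferentiableOn ℂ h (ball c r) ∧ ∀ z ∈ ball c r, w z - h z ∈ Λ := by
  classical
  rcases le_or_gt r 0 with hr | hr
  · refine ⟨fun _ => 0, differentiableOn_const _, fun z hz => ?_⟩
    rw [ball_eq_empty.mpr hr] at hz
    exact hz.elim
  have hcc : c ∈ ball c r := mem_ball_self hr
  choose! H hHan hHmem using hloc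
  obtain ⟨ψ, hψ⟩ : ∃ ψ : ℂ → E, ψ = fun z => deriv (H z) z := ⟨_, rfl⟩
  -- the local derivatives agree
  have hagree : ∀ z₀ ∈ ball c r, ψ =ᶠ[𝓝 z₀] deriv (H z₀) := by
    intro z₀ hz₀
    filter_upwards [isOpen_ball.mem_nhds hz₀, (hHan z₀ hz₀).eventually_analyticAt, (hHmem z₀ hz₀).eventually_nhds] with z h1 h2 h3
    rw [hψ]
    have h4 : ContinuousAt (fun y => H z y - H z₀ y) z := (hHan z h1).continuousAt.sub h2.continuousAt
    have h5 : ∀ᶠ y in 𝓝 z, ‖(H z y - H z₀ y) - (H z z - H z₀ z)‖ < δ := by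
      have h6 : Tendsto (fun y => (H z y - H z₀ y) - (H z z - H z₀ z)) (𝓝 z) (𝓝 ((H z z - H z₀ z) - (H z z - H z₀ z))) := h4.tendsto.sub_const _
      rw [sub_self] at h6
      have h7 := h6.norm
      rw [norm_zero] at h7
      exact h7.eventually (gt_mem_nhds hδ)
    have h8 : H z =ᶠ[𝓝 z] fun y => H z₀ y + (H z z - H z₀ z) := by
      have h9 := (hHmem z h1).self_of_nhds
      have h10 := h3.self_of_nhds
      filter_upwards [h5, hHmem z h1, h3] with y h11 h12 h13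
      have h14 : (H z y - H z₀ y) - (H z z - H z₀ z) ∈ Λ := by
        have h15 := Λ.sub_mem (Λ.sub_mem h13 h12) (Λ.sub_mem h10 h9)
        have h16 : w y - H z₀ y - (w y - H z y) - (w z - H z₀ z - (w z - H z z)) = (H z y - H z₀ y) - (H z z - H z₀ z) := by abel
        rwa [h16] at h15
      have h17 := hΛ _ h14 h11
      rw [sub_eq_zero, sub_eq_iff_eq_add] at h17
      rw [h17]
      abel
    change deriv (H z) z = deriv (H z₀) z
    rw [h8.deriv_eq, deriv_add_const]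
  have hψd : DifferentiableOn ℂ ψ (ball c r) := by
    intro z₀ hz₀
    have h1 : DifferentiableAt ℂ (deriv (H z₀)) z₀ := (hHan z₀ hz₀).deriv.differentiableAt
    exact (h1.congr_of_eventuallyEq (hagree z₀ hz₀)).differentiableWithinAt
  obtain ⟨g, hg⟩ := hψd.isExactOn_ball
  refine ⟨fun z => g z + (w c - g c), fun z hz => ((hg z hz).differentiableAt.add_const _).differentiableWithinAt, ?_⟩
  -- the difference is locally constant modulo the subgroup
  have hind : ∀ x ∈ ball c r, ∀ y ∈ ball c r, (w x - g x) - (w y - g y) ∈ Λ := by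
    intro x hx y hy
    refine (convex_ball c r).isPreconnected.induction₂ (fun x y => (w x - g x) - (w y - g y) ∈ Λ) ?_ ?_ ?_ hx hy
    · intro z₀ hz₀
      apply mem_nhdsWithin_of_mem_nhds
      have hder : ∀ᶠ z in 𝓝 z₀, HasDerivAt (fun z => H z₀ z - g z) 0 z := by
        filter_upwards [isOpen_ball.mem_nhds hz₀, (hHan z₀ hz₀).eventually_analyticAt, hagree z₀ hz₀] with z h1 h2 h3
        have h4 := h2.differentiableAt.hasDerivAt.sub (hg z h1)
        rwa [h3, sub_self] at h4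
      obtain ⟨ε, hε, hball⟩ := Metric.eventually_nhds_iff_ball.1 hder
      have hconst : ∀ z ∈ ball z₀ ε, H z₀ z - g z = H z₀ z₀ - g z₀ := by
        intro z hz
        exact (convex_ball z₀ ε).is_const_of_fderivWithin_eq_zero (𝕜 := ℂ) (f := fun z => H z₀ z - g z)
          (fun y hy => (hball y hy).differentiableAt.differentiableWithinAt)
          (fun y hy => by
            rw [fderivWithin_of_isOpen isOpen_ball hy]
            ext1
            exact (hball y hy).deriv) hz (mem_ball_self hε)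
      have h0 := (hHmem z₀ hz₀).self_of_nhds
      filter_upwards [hHmem z₀ hz₀, isOpen_ball.mem_nhds (mem_ball_self hε)] with z h1 h2
      have h3 := hconst z h2
      have h4 := Λ.sub_mem h0 h1
      have h5 : (w z₀ - g z₀) - (w z - g z) = (w z₀ - H z₀ z₀ - (w z - H z₀ z)) + ((H z₀ z₀ - g z₀) - (H z₀ z - g z)) := by abel
      change (w z₀ - g z₀) - (w z - g z) ∈ Λ
      rw [h5, h3, sub_self, add_zero]
      exact h4
    · intro x y z _ _ _ h1 h2
      have h3 := Λ.add_mem h1 h2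
      have h4 : (w x - g x) - (w z - g z) = ((w x - g x) - (w y - g y)) + ((w y - g y) - (w z - g z)) := by abel
      rw [h4]
      exact h3
    · intro x y _ _ h1
      have h2 := Λ.neg_mem h1
      rwa [neg_sub] at h2
  intro z hz
  have h1 := hind z hz c hcc
  have h2 : w z - (g z + (w c - g c)) = (w z - g z) - (w c - g c) := by abel
  rw [h2]
  exact h1

theorem exists_cv (hX : IsCone X) (hu : TMap X Λ u) (hΛ : Lat Λ) {F : ℂ → EN N} {c : ℂ} {r : ℝ} (hF : DifferentiableOn ℂ F (ball c r)) (hFX : ∀ z ∈ ball c r, F z ∈ X) :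
    ∃ h : ℂ → Vd (k + 1), Cv X Λ u (ball c r) F h := by
  obtain ⟨δ, hδ, hd⟩ := hΛ.disc
  obtain ⟨h, h1, h2⟩ := glue_disc (Λ := Λ) hδ hd (w := fun z => u (F z)) (c := c) (r := r) (by
    intro z₀ hz₀
    obtain ⟨v, hv, hm⟩ := hu.loc (F z₀) (hFX z₀ hz₀)
    have hFa : AnalyticAt ℂ F z₀ := hF.analyticAt (isOpen_ball.mem_nhds hz₀)
    refine ⟨fun z => v (F z), AnalyticAt.comp (g := v) (f := F) hv hFa, ?_⟩
    filter_upwards [hFa.continuousAt.tendsto.eventually hm, isOpen_ball.mem_nhds hz₀] with z h1 h2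
    exact h1 (hFX z h2))
  exact ⟨h, hF, h1, hFX, h2⟩

end Pool.Agent.G3

end

section

/-!
# G3 Z Circ: circles on lines which avoid a periodic closed set

Plan.  For fixed `b` the set `{z : z • a + b ∈ S}` is closed and countable, so the set of its norms is countable and some radius `ρ ∈ (r₂/2, r₂)` is not in it; the circle is compact and `S` closed, so its
distance from `S` is positive, also for nearby `b'` (half of it).  Compactness modulo the lattice `Γ` (`Lat.cpt`; `S` is `Γ`-invariant): finitely many `b` suffice.  `r₁ = r₂ / 2`.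
-/

set_option autoImplicit false

open Topology Filter Metric

namespace Pool.Agent.G3

open Pool.Agent.H36.BP (EN fs wd Sub)
open Pool.Agent.H14.PP (IsCone CurveAt Tan)
open Pool.Agent.H62.EF (MN pr)
open Pool.Agent.AD (Vd Chart Charts)
open Pool.Agent.TG (TMap Lat Geo Gd)

variable {k : ℕ}

/-- the local statement: a uniform distance for all `b'` near `b` -/
private theorem circ_loc {A : Set (Vd (k + 1))} (hA : IsClosed A) {a : Vd (k + 1)} (b : Vd (k + 1))
    (hc : Set.Countable {z : ℂ | z • a + b ∈ A}) {r₂ : ℝ} (hr₂ : 0 < r₂) :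
    ∃ δ r : ℝ, 0 < δ ∧ r ∈ Set.Icc (r₂ / 2) r₂ ∧ ∀ b' ∈ ball b δ, ∀ z : ℂ, ‖z‖ = r → ∀ w ∈ A, δ ≤ ‖z • a + b' - w‖ := by
  have h1 : ((fun z : ℂ => ‖z‖) '' {z : ℂ | z • a + b ∈ A}).Countable := hc.image _
  have h2 : Dense ((fun z : ℂ => ‖z‖) '' {z : ℂ | z • a + b ∈ A})ᶜ := h1.dense_compl ℝ
  obtain ⟨r, hrI, hrn⟩ := h2.inter_open_nonempty (Set.Ioo (r₂ / 2) r₂) isOpen_Ioo (Set.nonempty_Ioo.2 (by linarith))
  set K : Set (Vd (k + 1)) := (fun z : ℂ => z • a + b) '' sphere (0 : ℂ) r with hKd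
  have hK : IsCompact K := (isCompact_sphere (0 : ℂ) r).image (by fun_prop)
  have hd : Disjoint K A := by
    rw [Set.disjoint_left]
    rintro x ⟨z, hz, rfl⟩ hx
    exact hrn ⟨z, hx, mem_sphere_zero_iff_norm.1 hz⟩
  obtain ⟨δ, hδ, hdis⟩ := hd.exists_thickenings hK hA
  refine ⟨δ / 2, r, by positivity, ⟨hrI.1.le, hrI.2.le⟩, ?_⟩
  intro b' hb' z hz w hw
  have hzK : z • a + b ∈ K := ⟨z, mem_sphere_zero_iff_norm.2 hz, rfl⟩
  have h3 : δ ≤ ‖z • a + b - w‖ := by
    by_contra hlt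
    rw [not_le] at hlt
    have h4 : w ∈ thickening δ K := by
      rw [mem_thickening_iff]
      exact ⟨z • a + b, hzK, by rw [dist_comm, dist_eq_norm]; exact hlt⟩
    exact Set.disjoint_left.1 hdis h4 (self_subset_thickening hδ A hw)
  have h5 : ‖b - b'‖ < δ / 2 := by
    rw [← dist_eq_norm, dist_comm]
    exact hb'
  have h6 : ‖z • a + b - w‖ ≤ ‖z • a + b' - w‖ + ‖b - b'‖ := by
    have h7 : z • a + b - w = (z • a + b' - w) + (b - b') := by abel
    rw [h7]
    exact norm_add_le _ _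
  linarith

theorem circ {A : Set (Vd (k + 1))} (hA : IsClosed A) {Γ : AddSubgroup (Vd (k + 1))} (hΓ : Lat Γ) (hinv : ∀ y ∈ A, ∀ l ∈ Γ, y + l ∈ A) {a : Vd (k + 1)}
    (hc : ∀ b : Vd (k + 1), Set.Countable {z : ℂ | z • a + b ∈ A}) {r₂ : ℝ} (hr₂ : 0 < r₂) :
    ∃ δ r₁ : ℝ, 0 < δ ∧ 0 < r₁ ∧ r₁ ≤ r₂ ∧ ∀ b : Vd (k + 1), ∃ r ∈ Set.Icc r₁ r₂, ∀ z : ℂ, ‖z‖ = r → ∀ w ∈ A, δ ≤ ‖z • a + b - w‖ := by
  obtain ⟨R, -, hR⟩ := hΓ.cpt
  have key : ∃ δ : ℝ, 0 < δ ∧ ∀ b ∈ closedBall (0 : Vd (k + 1)) R, ∃ r ∈ Set.Icc (r₂ / 2) r₂, ∀ z : ℂ, ‖z‖ = r → ∀ w ∈ A, δ ≤ ‖z • a + b - w‖ := by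
    refine (isCompact_closedBall (0 : Vd (k + 1)) R).induction_on
      (p := fun S => ∃ δ : ℝ, 0 < δ ∧ ∀ b ∈ S, ∃ r ∈ Set.Icc (r₂ / 2) r₂, ∀ z : ℂ, ‖z‖ = r → ∀ w ∈ A, δ ≤ ‖z • a + b - w‖) ?_ ?_ ?_ ?_
    · exact ⟨1, one_pos, fun b hb => absurd hb (Set.notMem_empty b)⟩
    · rintro s t hst ⟨δ, hδ, h⟩
      exact ⟨δ, hδ, fun b hb => h b (hst hb)⟩
    · rintro s t ⟨δ, hδ, h⟩ ⟨δ', hδ', h'⟩
      refine ⟨min δ δ', lt_min hδ hδ', fun b hb => ?_⟩
      rcases hb with hb | hb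
      · obtain ⟨r, hr, hz⟩ := h b hb
        exact ⟨r, hr, fun z hzr w hw => (min_le_left _ _).trans (hz z hzr w hw)⟩
      · obtain ⟨r, hr, hz⟩ := h' b hb
        exact ⟨r, hr, fun z hzr w hw => (min_le_right _ _).trans (hz z hzr w hw)⟩
    · intro b _
      obtain ⟨δ, r, hδ, hr, h⟩ := circ_loc hA b (hc b) hr₂
      exact ⟨ball b δ, mem_nhdsWithin_of_mem_nhds (ball_mem_nhds b hδ), δ, hδ, fun b' hb' => ⟨r, hr, h b' hb'⟩⟩
  obtain ⟨δ, hδ, h⟩ := key
  refine ⟨δ, r₂ / 2, hδ, by linarith, by linarith, fun b => ?_⟩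
  obtain ⟨l, hl, hbl⟩ := hR b
  obtain ⟨r, hr, hz⟩ := h (b - l) (mem_closedBall_zero_iff.2 hbl)
  refine ⟨r, hr, fun z hzr w hw => ?_⟩
  have h1 := hz z hzr (w + -l) (hinv w hw (-l) (Γ.neg_mem hl))
  have h2 : z • a + (b - l) - (w + -l) = z • a + b - w := by abel
  rwa [h2] at h1

end Pool.Agent.G3

end

section

/-!
# G3 Z Mk: good points on a circle

Let `V = Lam - Lam (0) - log |E|` on the circle `‖z‖ = r` (`E` holomorphic without zeros on `ball 0 R`, `E 0 = 1`, so `circleAverage (log |E|) 0 r = 0`).  If `V ≥ -1` at the `Ok` points of the circle (all but finitely many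
points: `Q ∘ F` and `p` have isolated zeros, `hP.isol`) and `circleAverage Lam ≤ Lam (0) + K`, then on every arc `A` (given by a nonempty open set `O` which meets the circle) there is an `Ok` point
with `V ≤ K'`, where `K'` depends only on `K`, `r`, `O`.
Plan: `circleAverage V ≤ K`, `V + 1 ≥ 0` almost everywhere; the set of angles `θ ∈ [0, 2π]` with `r e^{iθ} ∈ O` has measure `κ > 0`; if `V > K'` on all `Ok` points of it then
`2π (K + 1) ≥ κ (K' + 1)`.
-/

set_option autoImplicit false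

open Topology Filter Metric

namespace Pool.Agent.G3

open Pool.Agent.H36.BP (EN fs wd Sub)
open Pool.Agent.H14.PP (IsCone CurveAt Tan)
open Pool.Agent.H62.EF (MN pr)
open Pool.Agent.AD (Vd Chart Charts)
open Pool.Agent.TG (TMap Lat Geo Gd)

variable {N k : ℕ} {X : Set (EN N)} {Λ : AddSubgroup (Vd (k + 1))} {u : EN N → Vd (k + 1)} {D B : Set (Vd (k + 1))} {p : EN N → EN N → ℝ} {m d : ℕ} {C : ℝ}
  {Q : EN N → ℂ} {S : Set (Vd (k + 1) → MN N)}

/-- the mean of a continuous bump function near a point of the circle is positive -/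
private theorem ZMk_bump {r : ℝ} (hr : 0 < r) {O : Set ℂ} (hO : IsOpen O) (hOr : ∃ z ∈ O, ‖z‖ = r) :
    ∃ φ : ℂ → ℝ, Continuous φ ∧ (∀ z, 0 ≤ φ z) ∧ (∀ z, φ z ≤ 1) ∧ (∀ z, z ∉ O → φ z = 0) ∧ 0 < Real.circleAverage φ 0 r := by
  obtain ⟨z₀, hz₀, hn⟩ := hOr
  obtain ⟨ε, hε, hb⟩ := Metric.isOpen_iff.1 hO z₀ hz₀
  set φ : ℂ → ℝ := fun z => max 0 (1 - dist z z₀ / ε) with hφ
  have hφc : Continuous φ := by
    simp only [hφ]
    fun_prop
  have hφ0 : ∀ z, 0 ≤ φ z := fun z => le_max_left _ _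
  refine ⟨φ, hφc, hφ0, ?_, ?_, ?_⟩
  · intro z
    simp only [hφ]
    apply max_le zero_le_one
    have : 0 ≤ dist z z₀ / ε := by positivity
    linarith
  · intro z hz
    simp only [hφ]
    apply max_eq_left
    have h1 : ε ≤ dist z z₀ := by
      by_contra h2
      exact hz (hb (mem_ball.2 (not_le.1 h2)))
    have h2 : 1 ≤ dist z z₀ / ε := (one_le_div hε).2 h1
    linarith
  · rw [Real.circleAverage_def, smul_eq_mul]
    apply mul_pos (by positivity)
    apply intervalIntegral.integral_pos (by positivity)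
    · exact (hφc.comp (continuous_circleMap 0 r)).continuousOn
    · intro θ _
      exact hφ0 _
    · have h1 : z₀ ∈ sphere (0 : ℂ) |r| := by
        rw [abs_of_pos hr]
        simpa using hn
      rw [← image_circleMap_Ioc] at h1
      obtain ⟨θ, hθ, hθz⟩ := h1
      refine ⟨θ, Set.Ioc_subset_Icc_self hθ, ?_⟩
      rw [hθz]
      simp [hφ]

/-- the mean of `log |E|` for a function without zeros -/
private theorem ZMk_mean {r R : ℝ} (hr : 0 < r) (hR : r < R) {E : ℂ → ℂ} (hE : DifferentiableOn ℂ E (ball 0 R)) (hE0 : ∀ z ∈ ball (0 : ℂ) R, E z ≠ 0)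
    (h1 : E 0 = 1) : CircleIntegrable (fun z => Real.log ‖E z‖) 0 r ∧ Real.circleAverage (fun z => Real.log ‖E z‖) 0 r = 0 := by
  have hs : sphere (0 : ℂ) r ⊆ ball 0 R := sphere_subset_closedBall.trans (closedBall_subset_ball hR)
  refine ⟨?_, ?_⟩
  · apply ContinuousOn.circleIntegrable hr.le
    exact ((hE.continuousOn.mono hs).norm).log fun z hz => norm_ne_zero_iff.2 (hE0 z (hs hz))
  · rw [InnerProductSpace.HarmonicOnNhd.circleAverage_eq]
    · simp [h1]
    · intro z hz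
      rw [abs_of_pos hr] at hz
      have hzb : z ∈ ball (0 : ℂ) R := closedBall_subset_ball hR hz
      exact AnalyticAt.harmonicAt_log_norm (hE.analyticAt (isOpen_ball.mem_nhds hzb)) (hE0 z hzb)

/-- all points of a circle but finitely many are `Ok` -/
private theorem ZMk_ok (hP : PS X Λ u D p m C) (hQ : QD X Λ u D Q d) {r R : ℝ} (hr : 0 < r) (hR : r < R) {F : ℂ → EN N} {h : ℂ → Vd (k + 1)}
    (hF : Cv X Λ u (ball 0 R) F h) (hOk : Ok Q p F 0) : {w | Ok Q p F w} ∈ codiscreteWithin (sphere (0 : ℂ) |r|) := by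
  have h0m : (0 : ℂ) ∈ ball (0 : ℂ) R := mem_ball_self (hr.trans hR)
  have hs : sphere (0 : ℂ) r ⊆ ball 0 R := sphere_subset_closedBall.trans (closedBall_subset_ball hR)
  obtain ⟨hQ0, hp0⟩ := hOk
  have hana : AnalyticOnNhd ℂ (fun z => Q (F z)) (ball 0 R) := by
    intro z hz
    have h1 : DifferentiableOn ℂ (fun z => Q (F z)) (ball 0 R) := hQ.diff.comp_differentiableOn hF.F_diff
    exact h1.analyticAt (isOpen_ball.mem_nhds hz)
  rw [mem_codiscreteWithin_iff_forall_mem_nhdsNE]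
  intro z hz
  rw [abs_of_pos hr] at hz
  have h1 := hP.isol _ F h isOpen_ball hF (convex_ball 0 R).isPreconnected ⟨0, h0m, hp0⟩ z (hs hz)
  have h2 : ∀ᶠ w in 𝓝[≠] z, Q (F w) ≠ 0 := by
    rcases (hana z (hs hz)).eventually_eq_zero_or_eventually_ne_zero with h3 | h3
    · exfalso
      apply hQ0
      exact hana.eqOn_zero_of_preconnected_of_eventuallyEq_zero (convex_ball 0 R).isPreconnected (hs hz) h3 h0m
    · exact h3
  filter_upwards [h1, h2] with w hw hw2
  exact Or.inl ⟨hw2, hw⟩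

theorem exists_good (hX : IsCone X) (hP : PS X Λ u D p m C) (hQ : QD X Λ u D Q d) {r R K : ℝ} (hr : 0 < r) (hR : r < R) {O : Set ℂ} (hO : IsOpen O) (hOr : ∃ z ∈ O, ‖z‖ = r) :
    ∃ K' : ℝ, ∀ (F : ℂ → EN N) (h : ℂ → Vd (k + 1)) (E : ℂ → ℂ), Cv X Λ u (ball 0 R) F h → Ok Q p F 0 → DifferentiableOn ℂ E (ball 0 R) → (∀ z ∈ ball (0 : ℂ) R, E z ≠ 0) → E 0 = 1 →
      CircleIntegrable (Lam Q d p m F h) 0 r → Real.circleAverage (Lam Q d p m F h) 0 r ≤ Lam Q d p m F h 0 + K →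
      (∀ z, ‖z‖ = r → Ok Q p F z → Lam Q d p m F h 0 + Real.log ‖E z‖ - 1 ≤ Lam Q d p m F h z) →
      ∃ z ∈ O, ‖z‖ = r ∧ Ok Q p F z ∧ Lam Q d p m F h z ≤ Lam Q d p m F h 0 + Real.log ‖E z‖ + K' := by
  classical
  obtain ⟨φ, hφc, hφ0, hφ1, hφO, hφa⟩ := ZMk_bump hr hO hOr
  set κ : ℝ := Real.circleAverage φ 0 r with hκ
  refine ⟨(|K| + 2) / κ, ?_⟩
  intro F h E hF hOk hE hE0 hE1 hint hav hlow
  by_contra hcon
  push Not at hcon
  have hr' : |r| = r := abs_of_pos hr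
  set K' : ℝ := (|K| + 2) / κ with hK'
  have hK'0 : 0 ≤ K' := by positivity
  obtain ⟨hEi, hEa⟩ := ZMk_mean hr hR hE hE0 hE1
  set L : ℝ := Lam Q d p m F h 0 with hL
  -- the function `V`
  set V : ℂ → ℝ := fun z => Lam Q d p m F h z - Real.log ‖E z‖ with hV
  have hVi : CircleIntegrable V 0 r := hint.sub hEi
  have hVa : Real.circleAverage V 0 r ≤ L + K := by
    rw [hV, Real.circleAverage_fun_sub hint hEi, hEa]
    linarith
  have hφi : CircleIntegrable φ 0 r := hφc.continuousOn.circleIntegrable hr.le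
  set W : ℂ → ℝ := fun z => (L - 1) + (K' + 1) • φ z with hW
  have hWi : CircleIntegrable W 0 r := (circleIntegrable_const _ 0 r).add hφi.const_smul
  have hWa : Real.circleAverage W 0 r = (L - 1) + (K' + 1) * κ := by
    have hφs : CircleIntegrable (fun z => (K' + 1) • φ z) 0 r := hφi.const_smul
    rw [hW, Real.circleAverage_fun_add (circleIntegrable_const _ 0 r) hφs, Real.circleAverage_const, Real.circleAverage_fun_smul, smul_eq_mul]
  have hae := ZMk_ok hP hQ hr hR hF hOk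
  have hle : Real.circleAverage W 0 r ≤ Real.circleAverage V 0 r := by
    set V' : ℂ → ℝ := fun z => if Ok Q p F z then V z else W z with hV'
    have hEq : V =ᶠ[codiscreteWithin (sphere (0 : ℂ) |r|)] V' := by
      filter_upwards [hae] with w hw
      simp only [hV']
      rw [if_pos hw]
    rw [Real.circleAverage_congr_codiscreteWithin hEq hr.ne']
    refine Real.circleAverage_mono hWi (hVi.congr_codiscreteWithin hEq) ?_
    intro w hw
    rw [hr'] at hw
    have hwn : ‖w‖ = r := by simpa using hw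
    simp only [hV']
    split_ifs with hok
    · have h1 := hlow w hwn hok
      by_cases hwO : w ∈ O
      · have h2 := hcon w hwO hwn hok
        have h3 : (K' + 1) * φ w ≤ (K' + 1) * 1 := mul_le_mul_of_nonneg_left (hφ1 w) (by linarith)
        simp only [hW, hV, smul_eq_mul]
        linarith
      · simp only [hW, hV, smul_eq_mul, hφO w hwO, mul_zero]
        linarith
    · exact le_rfl
  rw [hWa] at hle
  have h5 : K' * κ = |K| + 2 := div_mul_cancel₀ _ hφa.ne'
  have h6 : K ≤ |K| := le_abs_self K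
  nlinarith [hφa]

end Pool.Agent.G3

end

section

/-!
# TG SmC: meromorphic sections are sections

`CLip y₀`: the holomorphic curves in `X` over the lines near `y₀` are uniformly Lipschitz.  `mer_lip`: so are the meromorphic sections.  `mer_sec`: if
`CLip` holds at the points off `D`, a meromorphic section gives an element of `Sec`.
-/

set_option autoImplicit false

open Topology Filter Metric

namespace Pool.Agent.TG

open Pool.Agent.H36.BP (EN fs wd)
open Pool.Agent.H14.PP (IsCone)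
open Pool.Agent.H62.EF (MN pr pr_smul pr_eq_iff continuousAt_pr isCompact_pr nm_close)
open Pool.Agent.AD (Vd)

variable {N k : ℕ} {X : Set (EN N)} {Λ : AddSubgroup (Vd (k + 1))} {u : EN N → Vd (k + 1)} {D : Set (Vd (k + 1))}

/-- the holomorphic curves in `X` over the lines near `y₀` are uniformly Lipschitz -/
def CLip (X : Set (EN N)) (Λ : AddSubgroup (Vd (k + 1))) (u : EN N → Vd (k + 1)) (y₀ : Vd (k + 1)) : Prop :=
  ∃ ρ C : ℝ, 0 < ρ ∧ 0 ≤ C ∧ ∀ y ∈ ball y₀ ρ, ∀ e : Vd (k + 1), ‖e‖ ≤ 1 → ∀ g : ℂ → MN N, (∀ z ∈ ball (0 : ℂ) ρ, LiftAt X Λ u y e g z) →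
    ∀ z ∈ ball (0 : ℂ) (ρ / 2), ∀ w ∈ ball (0 : ℂ) (ρ / 2), dist (g z) (g w) ≤ C * ‖z - w‖

theorem Mer.not_ev {F : Vd (k + 1) → EN N} (hF : Mer X Λ u F) (y : Vd (k + 1)) : ¬ ∀ᶠ z in 𝓝 y, F z = 0 := by
  intro h
  obtain ⟨y₁, h1⟩ := hF.ne
  exact h1 (AnalyticOnNhd.eqOn_zero_of_preconnected_of_eventuallyEq_zero (U := Set.univ) (fun z _ => hF.an z) isPreconnected_univ
    (Set.mem_univ y) h (Set.mem_univ y₁))

theorem Mer.freq {F : Vd (k + 1) → EN N} (hF : Mer X Λ u F) (y : Vd (k + 1)) : ∃ᶠ z in 𝓝 y, F z ≠ 0 := Filter.not_eventually.mp (hF.not_ev y)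

/-- a meromorphic section on a line where it is not identically `0` -/
theorem line_ext (hX : IsCone X) (ht : TMap X Λ u) (hl : Lat Λ) {F : Vd (k + 1) → EN N} (hF : Mer X Λ u F) {y e : Vd (k + 1)}
    (hne : ∃ t : ℂ, F (y + t • e) ≠ 0) :
    ∃ g : ℂ → MN N, (∀ t, LiftAt X Λ u y e g t) ∧ ∀ t, F (y + t • e) ≠ 0 → g t = pr (F (y + t • e)) := by
  set f : ℂ → EN N := fun t => F (y + t • e) with hf
  have han : ∀ t, AnalyticAt ℂ f t := by
    intro t
    refine AnalyticAt.fun_comp (hF.an _) ?_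
    exact analyticAt_const.add (analyticAt_id.smul analyticAt_const)
  have hnl : ∀ t, ¬ ∀ᶠ z in 𝓝 t, f z = 0 := by
    intro t h
    obtain ⟨t₁, h1⟩ := hne
    exact h1 (AnalyticOnNhd.eqOn_zero_of_preconnected_of_eventuallyEq_zero (U := Set.univ) (fun z _ => han z) isPreconnected_univ
      (Set.mem_univ t) h (Set.mem_univ t₁))
  have hch : ∀ t, ∃ (n : ℕ) (H : ℂ → EN N), AnalyticAt ℂ H t ∧ H t ≠ 0 ∧ ∀ᶠ z in 𝓝 t, f z = (z - t) ^ n • H z := fun t =>
    (han t).exists_eventuallyEq_pow_smul_nonzero_iff.mpr (hnl t)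
  choose n H hHan hHne hHev using hch
  have hval : ∀ t, f t ≠ 0 → H t t = f t := by
    intro t h0
    have h1 := (hHev t).self_of_nhds
    rw [sub_self] at h1
    rcases Nat.eq_zero_or_pos (n t) with h2 | h2
    · rw [h2, pow_zero, one_smul] at h1
      exact h1.symm
    · rw [zero_pow h2.ne', zero_smul] at h1
      exact absurd h1 h0
  refine ⟨fun t => pr (H t t), fun t => ⟨H t, hHan t, ?_⟩, fun t h0 => by
    show pr (H t t) = pr (f t)
    rw [hval t h0]⟩
  have hE : ∀ᶠ z in 𝓝 t, H t z ≠ 0 ∧ AnalyticAt ℂ (H t) z ∧ f z = (z - t) ^ n t • H t z :=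
    ((hHan t).continuousAt.eventually_ne (hHne t)).and ((hHan t).eventually_analyticAt.and (hHev t))
  have hgood : ∀ z, H t z ≠ 0 → f z = (z - t) ^ n t • H t z → z ≠ t → H t z ∈ X ∧ u (H t z) - (y + z • e) ∈ Λ ∧ pr (H t z) = pr (f z) ∧ f z ≠ 0 := by
    intro z h1 h2 h3
    have h4 : (z - t) ^ n t ≠ 0 := pow_ne_zero _ (sub_ne_zero.mpr h3)
    have h5 : f z ≠ 0 := by
      rw [h2]
      exact smul_ne_zero h4 h1
    have h6 : pr (H t z) = pr (f z) := by
      rw [h2, pr_smul _ h4]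
    obtain ⟨h7, h8⟩ := hF.mem _ h5
    obtain ⟨h9, h10⟩ := mem_of_pr hX ht h7 h8 h1 h6
    exact ⟨h9, h10, h6, h5⟩
  filter_upwards [hE.eventually_nhds] with w hw
  obtain ⟨hw1, hw2, hw3⟩ := hw.self_of_nhds
  have hcl : H t w ∈ X ∧ u (H t w) - (y + w • e) ∈ Λ := by
    refine close_lift (υ := fun w : ℂ => y + w • e) hX ht hl hw2.continuousAt hw1 (by fun_prop) ?_
    have hfr : ∃ᶠ z in 𝓝 w, z ≠ t := by
      have hd : Dense ({t}ᶜ : Set ℂ) := dense_compl_singleton t
      exact mem_closure_iff_frequently.mp (hd w)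
    refine (hfr.and_eventually hw).mono fun z hz => ?_
    obtain ⟨h1, h2, h3, h4⟩ := hz
    have h5 := hgood z h2 h4 h1
    exact ⟨h5.1, h5.2.1⟩
  refine ⟨hcl.1, ?_, hcl.2⟩
  by_cases e1 : w = t
  · rw [e1]
  · have h5 := hgood w hw1 hw3 e1
    show pr (H w w) = pr (H t w)
    rw [h5.2.2.1, hval w h5.2.2.2]

/-- the meromorphic sections are uniformly Lipschitz near `y₀` -/
theorem mer_lip (hX : IsCone X) (ht : TMap X Λ u) (hl : Lat Λ) {y₀ : Vd (k + 1)} (h : CLip X Λ u y₀) :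
    ∃ ρ C : ℝ, 0 < ρ ∧ 0 ≤ C ∧ ∀ F, Mer X Λ u F → ∀ y ∈ ball y₀ ρ, ∀ z ∈ ball y₀ ρ, F y ≠ 0 → F z ≠ 0 → dist (pr (F y)) (pr (F z)) ≤ C * ‖y - z‖ := by
  obtain ⟨ρ, C, hρ, hC, h⟩ := h
  refine ⟨ρ / 4, C, by positivity, hC, fun F hF y hy z hz hy0 hz0 => ?_⟩
  by_cases hyz : y = z
  · rw [hyz]
    simp
  · have hp : 0 < ‖z - y‖ := norm_pos_iff.mpr (sub_ne_zero.mpr (Ne.symm hyz))
    have hlt : ‖z - y‖ < ρ / 2 := by
      rw [mem_ball, dist_eq_norm] at hy hz
      have h1 : z - y = (z - y₀) - (y - y₀) := by abel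
      rw [h1]
      linarith [norm_sub_le (z - y₀) (y - y₀)]
    set e : Vd (k + 1) := ((‖z - y‖⁻¹ : ℝ) : ℂ) • (z - y) with he
    have hen : ‖e‖ ≤ 1 := by
      rw [he, norm_smul, Complex.norm_real, norm_inv, norm_norm, inv_mul_cancel₀ hp.ne']
    have hze : y + ((‖z - y‖ : ℝ) : ℂ) • e = z := by
      rw [he, smul_smul, ← Complex.ofReal_mul, mul_inv_cancel₀ hp.ne', Complex.ofReal_one, one_smul]
      abel
    have hye : y + (0 : ℂ) • e = y := by simp
    obtain ⟨g, hg1, hg2⟩ := line_ext hX ht hl hF (y := y) (e := e) ⟨0, by rw [hye]; exact hy0⟩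
    have h1 := h y (ball_subset_ball (by linarith) hy) e hen g (fun z _ => hg1 z) 0 (mem_ball_self (by positivity)) ((‖z - y‖ : ℝ) : ℂ) (by
      rw [mem_ball_zero_iff, Complex.norm_real, norm_norm]
      exact hlt)
    rw [hg2 0 (by rw [hye]; exact hy0), hg2 _ (by rw [hze]; exact hz0), hye, hze, zero_sub, norm_neg, Complex.norm_real, norm_norm] at h1
    rw [norm_sub_rev y z]
    exact h1

/-- a meromorphic section is holomorphic off `D` -/
theorem mer_germ (hX : IsCone X) (ht : TMap X Λ u) (hl : Lat Λ) {y₀ : Vd (k + 1)} (h : CLip X Λ u y₀) {F : Vd (k + 1) → EN N} (hF : Mer X Λ u F) :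
    ∃ φ : Vd (k + 1) → EN N, AnalyticAt ℂ φ y₀ ∧ (∀ᶠ y in 𝓝 y₀, φ y ∈ X ∧ u (φ y) - y ∈ Λ) ∧ ∀ᶠ y in 𝓝 y₀, F y ≠ 0 → pr (φ y) = pr (F y) := by
  obtain ⟨ρ, C, hρ, -, hlip⟩ := mer_lip hX ht hl h
  obtain ⟨φ, h1, h2, h3⟩ := lip_lift (hF.an y₀) (hF.not_ev y₀) hρ (hlip F hF)
  refine ⟨φ, h1, ?_, h3⟩
  have hE : ∀ᶠ y in 𝓝 y₀, φ y ≠ 0 ∧ AnalyticAt ℂ φ y ∧ (F y ≠ 0 → pr (φ y) = pr (F y)) :=
    (h1.continuousAt.eventually_ne h2).and (h1.eventually_analyticAt.and h3)
  filter_upwards [hE.eventually_nhds] with y hy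
  obtain ⟨hy1, hy2, hy3⟩ := hy.self_of_nhds
  refine close_lift (υ := fun y => y) hX ht hl hy2.continuousAt hy1 continuousAt_id ?_
  refine ((hF.freq y).and_eventually hy).mono fun z hz => ?_
  obtain ⟨h4, h5, h6, h7⟩ := hz
  exact mem_of_pr hX ht (hF.mem z h4).1 (hF.mem z h4).2 h5 (h7 h4)

/-- two limits of the same map agree -/
theorem pr_lim {E : Type*} [TopologicalSpace E] {F φ ψ : E → EN N} {y : E} (hφ : ContinuousAt φ y) (hφ0 : φ y ≠ 0) (hψ : ContinuousAt ψ y) (hψ0 : ψ y ≠ 0)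
    (hF : ∃ᶠ z in 𝓝 y, F z ≠ 0) (h1 : ∀ᶠ z in 𝓝 y, F z ≠ 0 → pr (φ z) = pr (F z)) (h2 : ∀ᶠ z in 𝓝 y, F z ≠ 0 → pr (ψ z) = pr (F z)) :
    pr (φ y) = pr (ψ y) := by
  have hc1 : ContinuousAt (fun z => dist (pr (φ z)) (pr (ψ z))) y :=
    ((continuousAt_pr hφ0).comp hφ).dist ((continuousAt_pr hψ0).comp hψ)
  have hm : dist (pr (φ y)) (pr (ψ y)) ∈ closure ({0} : Set ℝ) := by
    rw [mem_closure_iff_frequently]
    refine hc1.tendsto.frequently ((hF.and_eventually (h1.and h2)).mono fun z hz => ?_)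
    show dist (pr (φ z)) (pr (ψ z)) = 0
    rw [hz.2.1 hz.1, hz.2.2 hz.1, dist_self]
  rw [closure_singleton, Set.mem_singleton_iff] at hm
  exact dist_eq_zero.mp hm

/-- division by a power of the first variable, for vectors -/
theorem exists_div_vec {E : Type} [NormedAddCommGroup E] [NormedSpace ℂ E] [FiniteDimensional ℂ E] {g : ℂ × E → EN N} (hg : AnalyticAt ℂ g 0)
    (hne : ¬ ∀ᶠ y in 𝓝 (0 : ℂ × E), g y = 0) :
    ∃ (a : ℕ) (g' : ℂ × E → EN N), AnalyticAt ℂ g' 0 ∧ (∀ᶠ y in 𝓝 (0 : ℂ × E), g y = y.1 ^ a • g' y) ∧ ¬ ∀ᶠ x in 𝓝 (0 : E), g' (0, x) = 0 := by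
  classical
  have hch : ∀ i : Fin (N + 1), ∃ (a : ℕ) (g' : ℂ × E → ℂ), (¬ ∀ᶠ y in 𝓝 (0 : ℂ × E), g y i = 0) → AnalyticAt ℂ g' 0 ∧
      (∀ᶠ y in 𝓝 (0 : ℂ × E), g y i = y.1 ^ a * g' y) ∧ ¬ ∀ᶠ x in 𝓝 (0 : E), g' (0, x) = 0 := by
    intro i
    by_cases h : ∀ᶠ y in 𝓝 (0 : ℂ × E), g y i = 0
    · exact ⟨0, fun _ => 0, fun h' => absurd h h'⟩
    · obtain ⟨a, g', h1, h2, h3⟩ := Pool.Agent.H22.HF.exists_div (coord_an hg i) h
      exact ⟨a, g', fun _ => ⟨h1, h2, h3⟩⟩
  choose a g' hprop using hch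
  set S : Finset (Fin (N + 1)) := Finset.univ.filter fun i => ¬ ∀ᶠ y in 𝓝 (0 : ℂ × E), g y i = 0 with hS
  have hmemS : ∀ i, i ∈ S ↔ ¬ ∀ᶠ y in 𝓝 (0 : ℂ × E), g y i = 0 := by
    intro i
    simp [hS]
  have hSne : S.Nonempty := by
    by_contra hcon
    rw [Finset.not_nonempty_iff_eq_empty] at hcon
    refine hne ?_
    have h1 : ∀ i, ∀ᶠ y in 𝓝 (0 : ℂ × E), g y i = 0 := by
      intro i
      by_contra hi
      have := (hmemS i).mpr hi
      rw [hcon] at this
      simp at this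
    filter_upwards [Filter.eventually_all.mpr h1] with y hy
    ext i
    exact hy i
  obtain ⟨i₀, hi₀, hmin⟩ := S.exists_min_image a hSne
  refine ⟨a i₀, fun y => WithLp.toLp 2 fun i => if i ∈ S then y.1 ^ (a i - a i₀) * g' i y else 0, an_of_coord fun i => ?_, ?_, ?_⟩
  · show AnalyticAt ℂ (fun y : ℂ × E => if i ∈ S then y.1 ^ (a i - a i₀) * g' i y else 0) 0
    by_cases hi : i ∈ S
    · simp only [hi, if_true]
      exact ((analyticAt_fst (𝕜 := ℂ)).pow _).mul (hprop i ((hmemS i).mp hi)).1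
    · simp only [hi, if_false]
      exact analyticAt_const
  · have h1 : ∀ i, ∀ᶠ y in 𝓝 (0 : ℂ × E), g y i = y.1 ^ a i₀ * (if i ∈ S then y.1 ^ (a i - a i₀) * g' i y else 0) := by
      intro i
      by_cases hi : i ∈ S
      · simp only [hi, if_true]
        filter_upwards [(hprop i ((hmemS i).mp hi)).2.1] with y hy
        rw [hy, ← mul_assoc, ← pow_add, Nat.add_sub_cancel' (hmin i hi)]
      · simp only [hi, if_false, mul_zero]
        by_contra hcon
        exact hi ((hmemS i).mpr hcon)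
    filter_upwards [Filter.eventually_all.mpr h1] with y hy
    ext i
    exact hy i
  · intro hcon
    refine (hprop i₀ ((hmemS i₀).mp hi₀)).2.2 ?_
    filter_upwards [hcon] with x hx
    have h1 := congrArg (fun v : EN N => v i₀) hx
    simpa [hi₀] using h1

/-- a meromorphic section gives an element of `Sec` -/
theorem mer_sec (hX : IsCone X) (ht : TMap X Λ u) (hl : Lat Λ) (hD : IsClosed D) (hlip : ∀ y ∉ D, CLip X Λ u y) {F : Vd (k + 1) → EN N}
    (hF : Mer X Λ u F) : ∃ f ∈ Sec X Λ u D, ∀ y ∉ D, F y ≠ 0 → f y = pr (F y) := by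
  classical
  have hch : ∀ y : Vd (k + 1), ∃ φ : Vd (k + 1) → EN N, y ∉ D → AnalyticAt ℂ φ y ∧ (∀ᶠ z in 𝓝 y, φ z ∈ X ∧ u (φ z) - z ∈ Λ) ∧
      ∀ᶠ z in 𝓝 y, F z ≠ 0 → pr (φ z) = pr (F z) := by
    intro y
    by_cases hy : y ∈ D
    · exact ⟨fun _ => 0, fun h => absurd hy h⟩
    · obtain ⟨φ, h⟩ := mer_germ hX ht hl (hlip y hy) hF
      exact ⟨φ, fun _ => h⟩
  choose φ hφ using hch
  have hX0 : ∀ x ∈ X, x ≠ 0 := fun x hx e => hX.zero_notMem (e ▸ hx)
  have hloc : ∀ y ∉ D, ∀ᶠ z in 𝓝 y, pr (φ z z) = pr (φ y z) := by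
    intro y hy
    obtain ⟨h1, h2, h3⟩ := hφ y hy
    filter_upwards [hD.isOpen_compl.mem_nhds hy, h1.eventually_analyticAt, h2, h3.eventually_nhds] with z hz hz1 hz2 hz3
    obtain ⟨h4, h5, h6⟩ := hφ z hz
    exact pr_lim h4.continuousAt (hX0 _ h5.self_of_nhds.1) hz1.continuousAt (hX0 _ hz2.1) (hF.freq z) h6 hz3
  refine ⟨fun y => pr (φ y y), ⟨fun y hy => ?_, fun y e hye => ?_⟩, fun y hy h0 => (hφ y hy).2.2.self_of_nhds h0⟩
  · obtain ⟨h1, h2, h3⟩ := hφ y hy
    refine ⟨φ y, h1, ?_⟩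
    filter_upwards [h2, hloc y hy] with z hz1 hz2
    exact ⟨hz1.1, hz2, hz1.2⟩
  · obtain ⟨p, hp⟩ := hF.ne
    set w : Vd (k + 1) := p - y with hw
    set P : ℂ × ℂ → EN N := fun q => F (y + q.2 • e + q.1 • w) with hP
    have hPan : ∀ q, AnalyticAt ℂ P q := by
      intro q
      refine AnalyticAt.fun_comp (hF.an _) ?_
      exact (analyticAt_const.add (analyticAt_snd.smul analyticAt_const)).add (analyticAt_fst.smul analyticAt_const)
    have hPne : ¬ ∀ᶠ q in 𝓝 (0 : ℂ × ℂ), P q = 0 := by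
      intro h
      have h1 := AnalyticOnNhd.eqOn_zero_of_preconnected_of_eventuallyEq_zero (U := Set.univ) (fun z _ => hPan z) isPreconnected_univ
        (Set.mem_univ (0 : ℂ × ℂ)) h (Set.mem_univ ((1, 0) : ℂ × ℂ))
      have h2 : P (1, 0) = F p := by
        rw [hP]
        simp [hw]
      exact hp (h2 ▸ h1)
    obtain ⟨a, G, hG1, hG2, hG3⟩ := exists_div_vec (hPan 0) hPne
    have hG0 : AnalyticAt ℂ (fun z : ℂ => G (0, z)) 0 := by
      refine AnalyticAt.fun_comp (g := G) (f := fun z : ℂ => ((0 : ℂ), z)) hG1 ?_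
      exact AnalyticAt.prod analyticAt_const analyticAt_id
    obtain ⟨n, H, hH1, hH2, hH3⟩ := hG0.exists_eventuallyEq_pow_smul_nonzero_iff.mpr hG3
    have hHn : ∀ᶠ z in 𝓝 (0 : ℂ), H z ≠ 0 := hH1.continuousAt.eventually_ne hH2
    have hinj : Tendsto (fun z : ℂ => ((0 : ℂ), z)) (𝓝 0) (𝓝 (0 : ℂ × ℂ)) := by
      have : Continuous (fun z : ℂ => ((0 : ℂ), z)) := by fun_prop
      exact this.tendsto 0
    have hkey : ∀ᶠ z in 𝓝[≠] (0 : ℂ), pr (φ (y + z • e) (y + z • e)) = pr (H z) ∧ y + z • e ∉ D ∧ H z ≠ 0 := by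
      have hev1 : ∀ᶠ z in 𝓝 (0 : ℂ), AnalyticAt ℂ G (0, z) ∧ ∀ᶠ q in 𝓝 ((0, z) : ℂ × ℂ), P q = q.1 ^ a • G q :=
        hinj.eventually (hG1.eventually_analyticAt.and hG2.eventually_nhds)
      filter_upwards [hye, hev1.filter_mono nhdsWithin_le_nhds, hH3.filter_mono nhdsWithin_le_nhds, hHn.filter_mono nhdsWithin_le_nhds,
        self_mem_nhdsWithin] with z hz1 hz2 hz3 hz4 hz5
      refine ⟨?_, hz1, hz4⟩
      have hz5 : z ≠ 0 := hz5
      rw [sub_zero] at hz3
      have hzn : z ^ n ≠ 0 := pow_ne_zero _ hz5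
      have hGne : G (0, z) ≠ 0 := by
        rw [hz3]
        exact smul_ne_zero hzn hz4
      have hpr : pr (H z) = pr (G (0, z)) := by
        rw [hz3, pr_smul _ hzn]
      rw [hpr]
      obtain ⟨h4, h5, h6⟩ := hφ _ hz1
      -- the two curves in `c`
      have hc1 : ContinuousAt (fun c : ℂ => y + z • e + c • w) 0 := by fun_prop
      have e0 : y + z • e + (0 : ℂ) • w = y + z • e := by simp
      have hA : ContinuousAt (fun c : ℂ => φ (y + z • e) (y + z • e + c • w)) 0 := by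
        have h7 : ContinuousAt (φ (y + z • e)) (y + z • e + (0 : ℂ) • w) := by
          rw [e0]
          exact h4.continuousAt
        exact ContinuousAt.comp (f := fun c : ℂ => y + z • e + c • w) h7 hc1
      have hc2 : ContinuousAt (fun c : ℂ => ((c, z) : ℂ × ℂ)) 0 := by fun_prop
      have hB : ContinuousAt (fun c : ℂ => G (c, z)) 0 := ContinuousAt.comp (f := fun c : ℂ => ((c, z) : ℂ × ℂ)) hz2.1.continuousAt hc2
      have hBn : ∀ᶠ c in 𝓝 (0 : ℂ), G (c, z) ≠ 0 := hB.eventually_ne hGne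
      have hPG : ∀ᶠ c in 𝓝 (0 : ℂ), P (c, z) = c ^ a • G (c, z) := hc2.eventually hz2.2
      have hF6 : ∀ᶠ c in 𝓝 (0 : ℂ), F (y + z • e + c • w) ≠ 0 → pr (φ (y + z • e) (y + z • e + c • w)) = pr (F (y + z • e + c • w)) := by
        refine hc1.tendsto.eventually (p := fun x => F x ≠ 0 → pr (φ (y + z • e) x) = pr (F x)) ?_
        rw [e0]
        exact h6
      have hfin := pr_lim (F := fun c : ℂ => c • G (c, z)) (φ := fun c : ℂ => φ (y + z • e) (y + z • e + c • w)) (ψ := fun c : ℂ => G (c, z)) hA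
        (by
          show φ (y + z • e) (y + z • e + (0 : ℂ) • w) ≠ 0
          rw [e0]
          exact hX0 _ h5.self_of_nhds.1) hB hGne
        (by
          have hfr : ∃ᶠ c in 𝓝 (0 : ℂ), c ≠ 0 := by
            have hd : Dense ({0}ᶜ : Set ℂ) := dense_compl_singleton 0
            exact mem_closure_iff_frequently.mp (hd 0)
          exact (hfr.and_eventually hBn).mono fun c hc => smul_ne_zero hc.1 hc.2)
        (by
          filter_upwards [hPG, hF6] with c hc1 hc2 hc3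
          have hc0 : c ≠ 0 := fun h => hc3 (by simp [h])
          have hcG : G (c, z) ≠ 0 := fun h => hc3 (by simp [h])
          have hca : c ^ a ≠ 0 := pow_ne_zero _ hc0
          have hFP : F (y + z • e + c • w) = c ^ a • G (c, z) := hc1
          have hF0 : F (y + z • e + c • w) ≠ 0 := by
            rw [hFP]
            exact smul_ne_zero hca hcG
          rw [hc2 hF0, hFP, pr_smul _ hca, pr_smul _ hc0])
        (by
          filter_upwards [] with c hc3
          have hc0 : c ≠ 0 := fun h => hc3 (by simp [h])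
          rw [pr_smul _ hc0])
      simp only [e0] at hfin
      exact hfin
    refine ⟨fun z => pr (H z), ⟨H, hH1, ?_⟩, hkey.mono fun z hz => hz.1.symm⟩
    have hgood : ∀ᶠ z in 𝓝[≠] (0 : ℂ), H z ∈ X ∧ u (H z) - (y + z • e) ∈ Λ := by
      filter_upwards [hkey] with z hz
      obtain ⟨hz1, hz2, hz3⟩ := hz
      obtain ⟨h4, h5, h6⟩ := hφ _ hz2
      have h7 := h5.self_of_nhds
      exact mem_of_pr hX ht h7.1 h7.2 hz3 hz1.symm
    have h0 : H 0 ∈ X ∧ u (H 0) - (y + (0 : ℂ) • e) ∈ Λ := by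
      refine close_lift (υ := fun z : ℂ => y + z • e) hX ht hl hH1.continuousAt hH2 (by fun_prop) ?_
      exact hgood.frequently.filter_mono nhdsWithin_le_nhds
    rw [eventually_nhdsWithin_iff] at hgood
    filter_upwards [hgood] with z hz
    by_cases hz0 : z = 0
    · subst hz0
      exact ⟨h0.1, rfl, h0.2⟩
    · have := hz hz0
      exact ⟨this.1, rfl, this.2⟩

end Pool.Agent.TG

end

section

/-!
# TG SmE: finiteness and periodicity of the meromorphic sections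

If `Sec` is finite modulo equality off `D`, the meromorphic sections are finite modulo `SameMap` and `M Λ`-periodic for some `M ≥ 1`.
-/

set_option autoImplicit false

open Topology Filter Metric

namespace Pool.Agent.TG

open Pool.Agent.H36.BP (EN fs wd)
open Pool.Agent.H14.PP (IsCone)
open Pool.Agent.H62.EF (MN pr pr_smul pr_eq_iff continuousAt_pr isCompact_pr nm_close)
open Pool.Agent.AD (Vd)

variable {N k : ℕ} {X : Set (EN N)} {Λ : AddSubgroup (Vd (k + 1))} {u : EN N → Vd (k + 1)} {D : Set (Vd (k + 1))}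

theorem freq_freq {E : Type*} [TopologicalSpace E] {y : E} {R : E → Prop} (h : ∃ᶠ z in 𝓝 y, ∃ᶠ w in 𝓝 z, R w) : ∃ᶠ w in 𝓝 y, R w := by
  intro hc
  refine h (hc.eventually_nhds.mono fun z hz hz' => hz' hz)

theorem eq_zero_of_freq {E : Type*} [TopologicalSpace E] {f : E → ℂ} {y : E} (hf : ContinuousAt f y) (h : ∃ᶠ z in 𝓝 y, f z = 0) : f y = 0 := by
  have hm : f y ∈ closure ({0} : Set ℂ) := by
    rw [mem_closure_iff_frequently]
    exact hf.tendsto.frequently h
  rwa [closure_singleton, Set.mem_singleton_iff] at hm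

theorem SameMap.refl (F : Vd (k + 1) → EN N) : SameMap F F := fun _ _ _ => mul_comm _ _

theorem SameMap.symm {F G : Vd (k + 1) → EN N} (h : SameMap F G) : SameMap G F := by
  intro y i j
  have := h y i j
  rw [mul_comm (F y i), mul_comm (F y j)] at this
  rw [this]

/-- proportional vectors -/
theorem cross_iff {x y : EN N} (hx : x ≠ 0) (hy : y ≠ 0) : (∀ i j, x i * y j = x j * y i) ↔ pr x = pr y := by
  rw [pr_eq_iff hx hy]
  constructor
  · intro h
    obtain ⟨j, hj⟩ : ∃ j, y j ≠ 0 := by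
      by_contra hcon
      push Not at hcon
      exact hy (by ext i; exact hcon i)
    have h1 : x = (x j / y j) • y := by
      ext i
      have := h i j
      rw [PiLp.smul_apply, smul_eq_mul, div_mul_eq_mul_div, eq_div_iff hj]
      exact this
    refine ⟨x j / y j, fun h0 => hx ?_, h1⟩
    rw [h1, h0, zero_smul]
  · rintro ⟨c, -, rfl⟩ i j
    simp only [PiLp.smul_apply, smul_eq_mul]
    ring

theorem sameMap_of_freq {F G : Vd (k + 1) → EN N} (hF : ∀ y, AnalyticAt ℂ F y) (hG : ∀ y, AnalyticAt ℂ G y)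
    (h : ∀ y, ∃ᶠ z in 𝓝 y, ∀ i j, F z i * G z j = F z j * G z i) : SameMap F G := by
  intro y i j
  have hc : ContinuousAt (fun z => F z i * G z j - F z j * G z i) y :=
    (((coord_an (hF y) i).continuousAt).mul ((coord_an (hG y) j).continuousAt)).sub (((coord_an (hF y) j).continuousAt).mul ((coord_an (hG y) i).continuousAt))
  have := eq_zero_of_freq hc ((h y).mono fun z hz => by rw [hz i j, sub_self])
  exact sub_eq_zero.mp this

theorem SameMap.trans {F G H : Vd (k + 1) → EN N} (hF : Mer X Λ u F) (hG : Mer X Λ u G) (hH : Mer X Λ u H) (h1 : SameMap F G) (h2 : SameMap G H) :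
    SameMap F H := by
  refine sameMap_of_freq hF.an hH.an fun y => ?_
  have hfr : ∃ᶠ z in 𝓝 y, F z ≠ 0 ∧ G z ≠ 0 ∧ H z ≠ 0 := by
    refine freq_freq ((hF.freq y).mono fun z hz => ?_)
    have hz' := (hF.an z).continuousAt.eventually_ne hz
    refine freq_freq (((hG.freq z).and_eventually hz'.eventually_nhds).mono fun w hw => ?_)
    have hw' := (hG.an w).continuousAt.eventually_ne hw.1
    exact ((hH.freq w).and_eventually (hw'.and hw.2)).mono fun v hv => ⟨hv.2.2, hv.2.1, hv.1⟩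
  refine hfr.mono fun z hz => ?_
  obtain ⟨hf, hg, hh⟩ := hz
  rw [cross_iff hf hh]
  rw [(cross_iff hf hg).mp (h1 z), (cross_iff hg hh).mp (h2 z)]

theorem SameMap.shift {F G : Vd (k + 1) → EN N} (h : SameMap F G) (l : Vd (k + 1)) : SameMap (fun y => F (y + l)) (fun y => G (y + l)) :=
  fun y => h (y + l)

theorem Mer.shift {F : Vd (k + 1) → EN N} (hF : Mer X Λ u F) {l : Vd (k + 1)} (hl : l ∈ Λ) : Mer X Λ u fun y => F (y + l) where
  an := fun y => by
    refine AnalyticAt.fun_comp (hF.an _) ?_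
    exact analyticAt_id.add analyticAt_const
  ne := by
    obtain ⟨y, hy⟩ := hF.ne
    exact ⟨y - l, by rwa [sub_add_cancel]⟩
  mem := fun y hy => by
    obtain ⟨h1, h2⟩ := hF.mem _ hy
    refine ⟨h1, ?_⟩
    have e : u (F (y + l)) - y = (u (F (y + l)) - (y + l)) + l := by abel
    rw [e]
    exact Λ.add_mem h2 hl

/-- `Sec` is finite modulo equality off `D` -/
def FinSec (X : Set (EN N)) (Λ : AddSubgroup (Vd (k + 1))) (u : EN N → Vd (k + 1)) (D : Set (Vd (k + 1))) : Prop :=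
  ∃ T : Set (Vd (k + 1) → MN N), T.Finite ∧ ∀ f ∈ Sec X Λ u D, ∃ g ∈ T, ∀ y ∉ D, f y = g y

/-- `D` contains no ball -/
def DThin (D : Set (Vd (k + 1))) : Prop :=
  ∀ y : Vd (k + 1), ∃ h : Vd (k + 1) → ℂ, AnalyticAt ℂ h y ∧ (∀ᶠ z in 𝓝 y, z ∈ D → h z = 0) ∧ ¬ ∀ᶠ z in 𝓝 y, h z = 0

theorem DThin.freq (h : DThin D) (y : Vd (k + 1)) : ∃ᶠ z in 𝓝 y, z ∉ D := by
  obtain ⟨h, h1, h2, h3⟩ := h y
  exact ((Filter.not_eventually.mp h3).and_eventually h2).mono fun z hz hzD => hz.1 (hz.2 hzD)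

theorem same_of_sec (hDc : IsClosed D) (hD : DThin D) {F G : Vd (k + 1) → EN N} (hF : Mer X Λ u F) (hG : Mer X Λ u G) {f g : Vd (k + 1) → MN N}
    (hf : ∀ y ∉ D, F y ≠ 0 → f y = pr (F y)) (hg : ∀ y ∉ D, G y ≠ 0 → g y = pr (G y)) (hfg : ∀ y ∉ D, f y = g y) : SameMap F G := by
  refine sameMap_of_freq hF.an hG.an fun y => ?_
  have hfr : ∃ᶠ z in 𝓝 y, z ∉ D ∧ F z ≠ 0 ∧ G z ≠ 0 := by
    refine freq_freq ((hD.freq y).mono fun z hz => ?_)
    have hz' : ∀ᶠ w in 𝓝 z, w ∉ D := hDc.isOpen_compl.mem_nhds hz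
    refine freq_freq (((hF.freq z).and_eventually hz'.eventually_nhds).mono fun w hw => ?_)
    have hw' := (hF.an w).continuousAt.eventually_ne hw.1
    exact ((hG.freq w).and_eventually (hw'.and hw.2)).mono fun v hv => ⟨hv.2.2, hv.2.1, hv.1⟩
  refine hfr.mono fun z hz => ?_
  obtain ⟨h1, h2, h3⟩ := hz
  rw [cross_iff h2 h3, ← hf z h1 h2, ← hg z h1 h3]
  exact hfg z h1

/-- the meromorphic sections are finite in number -/
theorem mer_finite (hX : IsCone X) (ht : TMap X Λ u) (hl : Lat Λ) (hDc : IsClosed D) (hD : DThin D) (hlip : ∀ y ∉ D, CLip X Λ u y)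
    (hfin : FinSec X Λ u D) :
    ∃ T : Set (Vd (k + 1) → EN N), T.Finite ∧ (∀ F ∈ T, Mer X Λ u F) ∧ ∀ F, Mer X Λ u F → ∃ G ∈ T, SameMap F G := by
  classical
  obtain ⟨T₀, hT₀, hT₀s⟩ := hfin
  let P : (Vd (k + 1) → MN N) → (Vd (k + 1) → EN N) → Prop := fun g F => Mer X Λ u F ∧ ∃ f : Vd (k + 1) → MN N,
    (∀ y ∉ D, F y ≠ 0 → f y = pr (F y)) ∧ ∀ y ∉ D, f y = g y
  have hch : ∀ g : Vd (k + 1) → MN N, ∃ F : Vd (k + 1) → EN N, (∃ F, P g F) → P g F := by
    intro g
    by_cases h : ∃ F, P g F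
    · obtain ⟨F, hF⟩ := h
      exact ⟨F, fun _ => hF⟩
    · exact ⟨fun _ => 0, fun h' => absurd h' h⟩
  choose c hc using hch
  refine ⟨c '' {g | g ∈ T₀ ∧ ∃ F, P g F}, (hT₀.subset fun g hg => hg.1).image c, ?_, fun F hF => ?_⟩
  · rintro _ ⟨g, ⟨-, hg⟩, rfl⟩
    exact (hc g hg).1
  · obtain ⟨f, hf, hfF⟩ := mer_sec hX ht hl hDc hlip hF
    obtain ⟨g, hg, hfg⟩ := hT₀s f hf
    have hPg : ∃ F, P g F := ⟨F, hF, f, hfF, hfg⟩
    obtain ⟨h1, f', h2, h3⟩ := hc g hPg
    refine ⟨c g, ⟨g, ⟨hg, hPg⟩, rfl⟩, ?_⟩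
    exact same_of_sec hDc hD hF h1 hfF h2 fun y hy => (hfg y hy).trans (h3 y hy).symm

/-- the meromorphic sections are periodic -/
theorem mer_periodic {T : Set (Vd (k + 1) → EN N)} (hT : T.Finite) (hTm : ∀ F ∈ T, Mer X Λ u F) (hTs : ∀ F, Mer X Λ u F → ∃ G ∈ T, SameMap F G) :
    ∃ M : ℕ, 0 < M ∧ ∀ F, Mer X Λ u F → ∀ l ∈ Λ, SameMap F fun y => F (y + M • l) := by
  classical
  refine ⟨(hT.toFinset.card).factorial, Nat.factorial_pos _, fun F hF l hl => ?_⟩
  have hml : ∀ n : ℕ, n • l ∈ Λ := fun n => Λ.nsmul_mem hl n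
  have hmer : ∀ n : ℕ, Mer X Λ u fun y => F (y + n • l) := fun n => hF.shift (hml n)
  choose G hG1 hG2 using fun n : ℕ => hTs _ (hmer n)
  obtain ⟨a, ha, b, hb, hab, hGab⟩ : ∃ a ∈ Finset.range (hT.toFinset.card + 1), ∃ b ∈ Finset.range (hT.toFinset.card + 1), a ≠ b ∧ G a = G b := by
    refine Finset.exists_ne_map_eq_of_card_lt_of_maps_to (t := hT.toFinset) ?_ ?_
    · rw [Finset.card_range]
      exact Nat.lt_succ_self _
    · intro n _
      simpa using hG1 n
  rw [Finset.mem_range] at ha hb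
  have key : ∃ d : ℕ, 0 < d ∧ d ≤ hT.toFinset.card ∧ SameMap F fun y => F (y + d • l) := by
    have hgen : ∀ a b : ℕ, a < b → b < hT.toFinset.card + 1 → G a = G b →
        ∃ d : ℕ, 0 < d ∧ d ≤ hT.toFinset.card ∧ SameMap F fun y => F (y + d • l) := by
      intro a b hab hb he
      refine ⟨b - a, by omega, by omega, ?_⟩
      have h1 : SameMap (fun y => F (y + a • l)) (fun y => F (y + b • l)) :=
        SameMap.trans (hmer a) (hTm _ (hG1 a)) (hmer b) (hG2 a) (by rw [he]; exact (hG2 b).symm)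
      have h2 := h1.shift (-(a • l))
      have e1 : (fun y => F (y + -(a • l) + a • l)) = F := by
        funext y
        congr 1
        abel
      have e2 : (fun y => F (y + -(a • l) + b • l)) = fun y => F (y + (b - a) • l) := by
        funext y
        congr 1
        have e3 : b • l = (b - a) • l + a • l := by
          rw [← add_nsmul, Nat.sub_add_cancel hab.le]
        rw [e3]
        abel
      rw [e1, e2] at h2
      exact h2
    rcases lt_or_gt_of_ne hab with h | h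
    · exact hgen a b h hb hGab
    · exact hgen b a h ha hGab.symm
  obtain ⟨d, hd0, hdn, hd⟩ := key
  have hq : ∀ q : ℕ, SameMap F fun y => F (y + (q * d) • l) := by
    intro q
    induction q with
    | zero =>
      have : (fun y => F (y + (0 * d) • l)) = F := by
        funext y
        simp
      rw [this]
      exact SameMap.refl F
    | succ q ih =>
      have h1 := ih.shift (d • l)
      have e1 : (fun y => F (y + d • l + (q * d) • l)) = fun y => F (y + ((q + 1) * d) • l) := by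
        funext y
        congr 1
        rw [add_assoc, ← add_nsmul]
        congr 2
        ring
      rw [e1] at h1
      exact SameMap.trans hF (hmer d) (hmer _) hd h1
  obtain ⟨q, hq'⟩ := Nat.dvd_factorial hd0 hdn
  have := hq q
  rw [mul_comm q d, ← hq'] at this
  exact this

end Pool.Agent.TG

end
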