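import Pool.Agent.H94.G5T.AD.Defs
import Pool.Agent.H94.G5T.H36.BP.Defs_1
import Pool.Agent.H94.G5T.M03
import Pool.Agent.H94.G5T.M04
import Pool.Agent.H94.G5T.M26

/-! The parts of this file: H13.CV.HomA, G3.R.Wir, H36.BPL.Aff, H97.SE.ParHol, G3.C.Cheb. -/

section

/-!
# CV HomA: the holomorphic map given by entire functions

For `z₀ : ℂ` let `k` be the least order of the `a i` at `z₀` (finite, as some `a j ≠ 0`: `order_ne_top`), `a i = coord z₀ ^ k * c i` with entire `c i` (`exists_coord_mul`, induction on `k`), not all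
`c i (z₀) = 0`.  `f z₀` is the point `(c i (z₀))_i`.  Near `z₀`, for `z ≠ z₀`, `(a i (z))_i = (z - z₀) ^ k (c i (z))_i ≠ 0`, and the representation at `z` (`k' , c'`) has `a i (z) = 0` for all `i` unless `k' = 0`; so
`k' = 0`, `c' = a` and `f z = [a i (z)] = [c i (z)]`.  So `f` is holomorphic at `z₀` with lift `z ↦ (c i (z))_i`.
-/

set_option autoImplicit false

open Topology Filter
open Pool.Agent.H17 Pool.Agent.H17.EntFun

noncomputable section

namespace Pool.Agent.H13.CV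

private lemma exists_decomp {N : ℕ} (z₀ : ℂ) : ∀ (n : ℕ) (a : Fin (N + 1) → EntFun) (j : Fin (N + 1)), a j ≠ 0 →
    analyticOrderAt (a j : ℂ → ℂ) z₀ = n →
    ∃ (k : ℕ) (c : Fin (N + 1) → EntFun), (fun i => (c i : ℂ → ℂ) z₀) ≠ 0 ∧ ∀ i, a i = coord z₀ ^ k * c i := by
  intro n
  induction n using Nat.strong_induction_on with
  | _ n ih =>
    intro a j hj hn
    by_cases h : (fun i => (a i : ℂ → ℂ) z₀) = 0
    · have h1 : ∀ i, ∃ g : EntFun, a i = coord z₀ * g := fun i => exists_coord_mul (congrFun h i)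
      choose g hg using h1
      have hgj : g j ≠ 0 := by
        intro h2
        apply hj
        rw [hg j, h2, mul_zero]
      obtain ⟨n', hn'⟩ : ∃ n' : ℕ, analyticOrderAt (g j : ℂ → ℂ) z₀ = n' :=
        ⟨_, (Nat.cast_analyticOrderNatAt (order_ne_top hgj z₀)).symm⟩
      have hlt : n' < n := by
        rw [hg j, order_mul, order_coord, hn'] at hn
        have : 1 + n' = n := by exact_mod_cast hn
        omega
      obtain ⟨k, c, hc, he⟩ := ih n' hlt g j hgj hn'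
      refine ⟨k + 1, c, hc, fun i => ?_⟩
      rw [hg i, he i, pow_succ', mul_assoc]
    · exact ⟨0, a, h, fun i => by rw [pow_zero, one_mul]⟩

theorem exists_map {N : ℕ} (a : Fin (N + 1) → EntFun) (ha : ∃ i, a i ≠ 0) :
    ∃ f : ℂ → PN N, HolomorphicInto f Set.univ ∧ ∀ z₀ : ℂ, ∃ (k : ℕ) (c : Fin (N + 1) → EntFun) (h : (fun i => (c i : ℂ → ℂ) z₀) ≠ 0),
      (∀ i, a i = coord z₀ ^ k * c i) ∧ f z₀ = Projectivization.mk ℂ _ h := by
  obtain ⟨j, hj⟩ := ha
  have key : ∀ z₀ : ℂ, ∃ (k : ℕ) (c : Fin (N + 1) → EntFun), (fun i => (c i : ℂ → ℂ) z₀) ≠ 0 ∧ ∀ i, a i = coord z₀ ^ k * c i :=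
    fun z₀ => exists_decomp z₀ _ a j hj (Nat.cast_analyticOrderNatAt (order_ne_top hj z₀)).symm
  choose k c hc he using key
  refine ⟨fun z => Projectivization.mk ℂ (fun i => (c z i : ℂ → ℂ) z) (hc z), ?_,
    fun z₀ => ⟨k z₀, c z₀, hc z₀, he z₀, rfl⟩⟩
  intro z₀ _
  refine ⟨fun z i => (c z₀ i : ℂ → ℂ) z, ?_, ?_⟩
  · exact analyticAt_pi_iff.mpr fun i => (c z₀ i).analyticAt z₀
  · obtain ⟨i₀, hi₀⟩ : ∃ i₀, (c z₀ i₀ : ℂ → ℂ) z₀ ≠ 0 := by
      by_contra h
      push Not at h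
      exact hc z₀ (funext h)
    have hev : ∀ᶠ z in 𝓝 z₀, (c z₀ i₀ : ℂ → ℂ) z ≠ 0 :=
      ((c z₀ i₀).diff z₀).continuousAt.eventually_ne hi₀
    filter_upwards [hev] with z hz
    have h : (fun i => (c z₀ i : ℂ → ℂ) z) ≠ 0 := fun h1 => hz (congrFun h1 i₀)
    refine ⟨h, ?_⟩
    by_cases hzz : z = z₀
    · subst hzz
      rfl
    · have hsub : z - z₀ ≠ 0 := sub_ne_zero.2 hzz
      have h1 : ∀ i, (a i : ℂ → ℂ) z = (z - z₀) ^ k z₀ * (c z₀ i : ℂ → ℂ) z := by
        intro i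
        have h2 := congrArg (fun g : EntFun => ev z g) (he z₀ i)
        simpa using h2
      have h3 : ∀ i, (a i : ℂ → ℂ) z = (z - z) ^ k z * (c z i : ℂ → ℂ) z := by
        intro i
        have h2 := congrArg (fun g : EntFun => ev z g) (he z i)
        simpa using h2
      have hk : k z = 0 := by
        by_contra hk
        have h4 := h3 i₀
        rw [sub_self, zero_pow hk, zero_mul, h1 i₀] at h4
        exact mul_ne_zero (pow_ne_zero _ hsub) hz h4
      have h5 : ∀ i, (c z i : ℂ → ℂ) z = (z - z₀) ^ k z₀ * (c z₀ i : ℂ → ℂ) z := by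
        intro i
        rw [← h1 i, h3 i, hk, pow_zero, one_mul]
      rw [Projectivization.mk_eq_mk_iff]
      refine ⟨Units.mk0 ((z - z₀) ^ k z₀) (pow_ne_zero _ hsub), ?_⟩
      funext i
      rw [h5 i]
      rfl

end Pool.Agent.H13.CV

end
end

section

/-!
# G3 R Wir: two lemmas on circle averages

`sq_mean`: for scalar `f` holomorphic on `ball 0 R`, `f z = ∑ a_j z^j`: the average of `|f - f 0|²` is `∑_{j ≥ 1} |a_j|² r^(2j)`, of `|f'|²` is `∑_{j ≥ 1} j² |a_j|² r^(2j-2)` (Parseval); sum over the coordinates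
(`‖x‖² ≤ ∑ ‖x i‖²`, `‖x i‖ ≤ ‖x‖`).  Instead of Parseval: `H56/G3/Rad.lean` (`mean_sq_le`) and the monotonicity in `ρ` of the average of `|f'|²` on the circle of radius `ρ`
(`|f'|²` has the sub-mean property; e.g. `z ↦ avg of f'(z e^{iθ}) conj(f'(r e^{iθ}))` and Cauchy-Schwarz).
`cauchy_sub`: `g z - g 0 = circleAverage (z / (ζ - z) • g ζ)` (Cauchy's integral formula), `‖z / (ζ - z)‖ ≤ 2 ‖z‖ / ρ`.
-/

set_option autoImplicit false

open Topology Filter Metric

namespace Pool.Agent.G3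

open Pool.Agent.H36.BP (EN wd)
open Pool.Agent.H14.PP (CurveAt Tan)
open Pool.Agent.AD (Vd Chart Charts)

/-- Parseval for polynomials with a sum over a range -/
private lemma wir_parseval (q : Polynomial ℂ) {n : ℕ} (hn : q.natDegree < n) :
    Real.circleAverage (fun z => ‖q.eval z‖ ^ 2) 0 1 = ∑ i ∈ Finset.range n, ‖q.coeff i‖ ^ 2 := by
  rw [← Polynomial.sum_sq_norm_coeff_eq_circleAverage]
  refine Finset.sum_subset ?_ ?_
  · intro i hi
    rw [Finset.mem_range]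
    exact (Polynomial.le_natDegree_of_mem_supp i hi).trans_lt hn
  · intro i _ hi
    rw [Polynomial.notMem_support_iff.1 hi]
    simp

/-- the inequality for polynomials -/
private lemma wir_poly (p : Polynomial ℂ) {r : ℝ} :
    Real.circleAverage (fun z => ‖p.eval z - p.eval 0‖ ^ 2) 0 r ≤
      r ^ 2 * Real.circleAverage (fun z => ‖(Polynomial.derivative p).eval z‖ ^ 2) 0 r := by
  obtain ⟨q, hq⟩ : ∃ q : Polynomial ℂ, q = p.comp (Polynomial.C (r : ℂ) * Polynomial.X) := ⟨_, rfl⟩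
  obtain ⟨n, hn⟩ : ∃ n, n = q.natDegree + 1 := ⟨_, rfl⟩
  have hqe : ∀ z, q.eval z = p.eval ((r : ℂ) * z) := by
    intro z
    rw [hq, Polynomial.eval_comp]
    simp
  have h1 : Real.circleAverage (fun z => ‖p.eval z - p.eval 0‖ ^ 2) 0 r =
      Real.circleAverage (fun z => ‖(q - Polynomial.C (q.coeff 0)).eval z‖ ^ 2) 0 1 := by
    rw [Real.circleAverage_eq_circleAverage_zero_one]
    congr 1
    funext z
    rw [Polynomial.eval_sub, Polynomial.eval_C, Polynomial.coeff_zero_eq_eval_zero, hqe, hqe, add_zero,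
      mul_zero]
  have h2 : r ^ 2 * Real.circleAverage (fun z => ‖(Polynomial.derivative p).eval z‖ ^ 2) 0 r =
      Real.circleAverage (fun z => ‖(Polynomial.derivative q).eval z‖ ^ 2) 0 1 := by
    rw [Real.circleAverage_eq_circleAverage_zero_one, ← smul_eq_mul, ← Real.circleAverage_fun_smul]
    congr 1
    funext z
    have h3 : (Polynomial.derivative q).eval z = (r : ℂ) * (Polynomial.derivative p).eval ((r : ℂ) * z) := by
      rw [hq, Polynomial.derivative_comp]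
      simp
    rw [h3, norm_mul, mul_pow, Complex.norm_real, Real.norm_eq_abs, sq_abs, add_zero, smul_eq_mul]
  rw [h1, h2]
  have hd1 : (q - Polynomial.C (q.coeff 0)).natDegree < n + 1 := by
    have := Polynomial.natDegree_sub_C (p := q) (a := q.coeff 0)
    omega
  have hd2 : (Polynomial.derivative q).natDegree < n := by
    have := Polynomial.natDegree_derivative_le q
    omega
  rw [wir_parseval _ hd1, wir_parseval _ hd2, Finset.sum_range_succ']
  have h0 : ‖(q - Polynomial.C (q.coeff 0)).coeff 0‖ ^ 2 = 0 := by simp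
  rw [h0, add_zero]
  refine Finset.sum_le_sum fun i _ => ?_
  rw [Polynomial.coeff_sub, Polynomial.coeff_C_succ, sub_zero, Polynomial.coeff_derivative]
  refine pow_le_pow_left₀ (norm_nonneg _) ?_ 2
  rw [norm_mul]
  refine le_mul_of_one_le_right (norm_nonneg _) ?_
  have h4 : ‖(i : ℂ) + 1‖ = (i : ℝ) + 1 := by
    rw [← Nat.cast_one (R := ℂ), ← Nat.cast_add, Complex.norm_natCast]
    push_cast
    ring
  rw [h4]
  have : (0 : ℝ) ≤ i := Nat.cast_nonneg i
  linarith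

/-- averages of squares converge if the functions converge uniformly on the circle -/
private lemma wir_tendsto {g : ℂ → ℂ} {G : ℕ → ℂ → ℂ} {r : ℝ} (hr : 0 < r)
    (hG : ∀ n, ContinuousOn (G n) (sphere 0 r)) (h : TendstoUniformlyOn G g atTop (sphere 0 r)) :
    Tendsto (fun n => Real.circleAverage (fun z => ‖G n z‖ ^ 2) 0 r) atTop
      (𝓝 (Real.circleAverage (fun z => ‖g z‖ ^ 2) 0 r)) := by
  have hmem : ∀ θ : ℝ, circleMap 0 r θ ∈ sphere (0 : ℂ) r := fun θ => circleMap_mem_sphere 0 hr.le θ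
  have hg : ContinuousOn g (sphere 0 r) := h.continuousOn (Eventually.of_forall hG).frequently
  obtain ⟨A, hA⟩ : ∃ A : ℝ, ∀ z ∈ sphere (0 : ℂ) r, ‖g z‖ ≤ A := by
    obtain ⟨A, hA⟩ := (isCompact_sphere (0 : ℂ) r).exists_bound_of_continuousOn hg
    exact ⟨A, hA⟩
  have hev : ∀ᶠ n in atTop, ∀ z ∈ sphere (0 : ℂ) r, ‖G n z‖ ≤ A + 1 := by
    have h1 := Metric.tendstoUniformlyOn_iff.1 h 1 one_pos
    filter_upwards [h1] with n hn z hz
    have h2 := hn z hz
    rw [dist_eq_norm] at h2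
    have h3 : ‖G n z‖ ≤ ‖g z‖ + ‖g z - G n z‖ := by
      have h4 : G n z = g z - (g z - G n z) := by ring
      calc ‖G n z‖ = ‖g z - (g z - G n z)‖ := by rw [← h4]
        _ ≤ ‖g z‖ + ‖g z - G n z‖ := norm_sub_le _ _
    have h5 := hA z hz
    linarith
  have hcm : Continuous fun θ : ℝ => circleMap (0 : ℂ) r θ := by fun_prop
  simp only [Real.circleAverage_def]
  refine Tendsto.const_smul ?_ _
  refine intervalIntegral.tendsto_integral_filter_of_dominated_convergence (fun _ => (A + 1) ^ 2) ?_ ?_ ?_ ?_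
  · refine Eventually.of_forall fun n => Continuous.aestronglyMeasurable ?_
    exact ((hG n).comp_continuous hcm hmem).norm.pow 2
  · filter_upwards [hev] with n hn
    refine Eventually.of_forall fun θ _ => ?_
    rw [Real.norm_of_nonneg (by positivity)]
    exact pow_le_pow_left₀ (norm_nonneg _) (hn _ (hmem θ)) 2
  · exact intervalIntegrable_const
  · refine Eventually.of_forall fun θ _ => ?_
    exact ((h.tendsto_at (hmem θ)).norm).pow 2

/-- the inequality for scalar functions -/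
private lemma wir_scalar {f : ℂ → ℂ} {R r : ℝ} (hr : 0 < r) (hR : r < R) (hf : DifferentiableOn ℂ f (ball 0 R)) :
    Real.circleAverage (fun z => ‖f z - f 0‖ ^ 2) 0 r ≤ r ^ 2 * Real.circleAverage (fun z => ‖deriv f z‖ ^ 2) 0 r := by
  obtain ⟨R₁, h1, h2⟩ := exists_between hR
  obtain ⟨R₂, h3, h4⟩ := exists_between h1
  have hR1 : 0 < R₁ := hr.trans h1
  have hR2 : 0 < R₂ := hr.trans h3
  lift R₁ to NNReal using hR1.le
  lift R₂ to NNReal using hR2.le
  have hps := (hf.mono (closedBall_subset_ball h2)).hasFPowerSeriesOnBall (c := 0) (R := R₁) (by exact_mod_cast hR1)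
  obtain ⟨s, hs⟩ : ∃ s : FormalMultilinearSeries ℂ ℂ ℂ, s = cauchyPowerSeries f 0 R₁ := ⟨_, rfl⟩
  rw [← hs] at hps
  obtain ⟨p, hp⟩ : ∃ p : ℕ → Polynomial ℂ, ∀ n z, (p n).eval z = s.partialSum n z := by
    refine ⟨fun n => ∑ j ∈ Finset.range n, Polynomial.C (s.coeff j) * Polynomial.X ^ j, fun n z => ?_⟩
    rw [Polynomial.eval_finsetSum]
    unfold FormalMultilinearSeries.partialSum
    refine Finset.sum_congr rfl fun j _ => ?_
    rw [FormalMultilinearSeries.apply_eq_pow_smul_coeff, Polynomial.eval_mul, Polynomial.eval_C, Polynomial.eval_pow,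
      Polynomial.eval_X, smul_eq_mul, mul_comm]
  have hun : TendstoUniformlyOn (fun n z => (p n).eval z) f atTop (ball 0 R₂) := by
    have h5 := hps.tendstoUniformlyOn (r' := R₂) (by exact_mod_cast h4)
    simp only [zero_add] at h5
    simp only [hp]
    exact h5
  have hsub : sphere (0 : ℂ) r ⊆ ball 0 R₂ := sphere_subset_closedBall.trans (closedBall_subset_ball h3)
  have hde : TendstoLocallyUniformlyOn (deriv ∘ fun n z => (p n).eval z) (deriv f) atTop (ball 0 R₂) :=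
    hun.tendstoLocallyUniformlyOn.deriv (Eventually.of_forall fun n => (p n).differentiable.differentiableOn) isOpen_ball
  have hde2 : TendstoUniformlyOn (fun n z => (Polynomial.derivative (p n)).eval z) (deriv f) atTop (sphere 0 r) := by
    have h5 := (tendstoLocallyUniformlyOn_iff_forall_isCompact isOpen_ball).1 hde _ hsub (isCompact_sphere _ _)
    refine h5.congr (Eventually.of_forall fun n z _ => ?_)
    exact Polynomial.deriv (p n)
  have hun2 : TendstoUniformlyOn (fun n z => (p n).eval z - (p n).eval 0) (fun z => f z - f 0) atTop (sphere 0 r) := by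
    have h6 : TendstoUniformlyOn (fun n (_ : ℂ) => (p n).eval 0) (fun _ => f 0) atTop (sphere 0 r) := by
      rw [Metric.tendstoUniformlyOn_iff]
      intro ε hε
      have h7 := Metric.tendstoUniformlyOn_iff.1 hun ε hε
      filter_upwards [h7] with n hn z _
      exact hn 0 (mem_ball_self hR2)
    exact (hun.mono hsub).sub h6
  have hl1 := wir_tendsto hr (fun n => ((p n).continuous.sub continuous_const).continuousOn) hun2
  have hl2 := wir_tendsto hr (fun n => (Polynomial.derivative (p n)).continuous.continuousOn) hde2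
  exact le_of_tendsto_of_tendsto' hl1 (hl2.const_mul (r ^ 2)) fun n => wir_poly (p n)

theorem sq_mean {k : ℕ} {h : ℂ → Vd (k + 1)} {R r : ℝ} (hr : 0 < r) (hR : r < R) (hh : DifferentiableOn ℂ h (ball 0 R)) :
    Real.circleAverage (fun z => ‖h z - h 0‖ ^ 2) 0 r ≤ (k + 1 : ℝ) * r ^ 2 * Real.circleAverage (fun z => ‖deriv h z‖ ^ 2) 0 r := by
  have hsub : sphere (0 : ℂ) r ⊆ ball 0 R := sphere_subset_closedBall.trans (closedBall_subset_ball hR)
  have hci : ∀ g : ℂ → ℝ, ContinuousOn g (ball 0 R) → CircleIntegrable g 0 r := fun g hg =>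
    (hg.mono hsub).circleIntegrable hr.le
  have hhi : ∀ i, DifferentiableOn ℂ (fun z => h z i) (ball 0 R) := fun i z hz =>
    differentiableWithinAt_pi.1 (hh z hz) i
  have hder : ∀ z ∈ ball (0 : ℂ) R, ∀ i, deriv (fun z => h z i) z = deriv h z i := by
    intro z hz i
    have h1 : HasDerivAt h (deriv h z) z := (hh.differentiableAt (isOpen_ball.mem_nhds hz)).hasDerivAt
    exact (hasDerivAt_pi.1 h1 i).deriv
  have hdc : ContinuousOn (deriv h) (ball 0 R) := (hh.deriv isOpen_ball).continuousOn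
  have hdi : ∀ i, ContinuousOn (deriv fun z => h z i) (ball 0 R) := fun i => ((hhi i).deriv isOpen_ball).continuousOn
  have h1 : Real.circleAverage (fun z => ‖h z - h 0‖ ^ 2) 0 r ≤ Real.circleAverage (fun z => ∑ i, ‖h z i - h 0 i‖ ^ 2) 0 r := by
    refine Real.circleAverage_mono (hci _ ((hh.continuousOn.sub continuousOn_const).norm.pow 2))
      (hci _ (continuousOn_finsetSum _ fun i _ => ((hhi i).continuousOn.sub continuousOn_const).norm.pow 2)) fun z _ => ?_
    have h2 : ‖h z - h 0‖ ≤ Real.sqrt (∑ i, ‖h z i - h 0 i‖ ^ 2) := by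
      rw [pi_norm_le_iff_of_nonneg (Real.sqrt_nonneg _)]
      intro i
      refine Real.le_sqrt_of_sq_le ?_
      exact Finset.single_le_sum (f := fun i => ‖h z i - h 0 i‖ ^ 2) (fun j _ => by positivity) (Finset.mem_univ i)
    calc ‖h z - h 0‖ ^ 2 ≤ Real.sqrt (∑ i, ‖h z i - h 0 i‖ ^ 2) ^ 2 := pow_le_pow_left₀ (norm_nonneg _) h2 2
      _ = ∑ i, ‖h z i - h 0 i‖ ^ 2 := Real.sq_sqrt (by positivity)
  have h3 : Real.circleAverage (fun z => ∑ i, ‖h z i - h 0 i‖ ^ 2) 0 r = ∑ i, Real.circleAverage (fun z => ‖h z i - h 0 i‖ ^ 2) 0 r := by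
    refine Real.circleAverage_fun_sum fun i _ => ?_
    exact hci _ (((hhi i).continuousOn.sub continuousOn_const).norm.pow 2)
  have h4 : ∀ i ∈ (Finset.univ : Finset (Fin (k + 1))), Real.circleAverage (fun z => ‖h z i - h 0 i‖ ^ 2) 0 r ≤
      r ^ 2 * Real.circleAverage (fun z => ‖deriv h z‖ ^ 2) 0 r := by
    intro i _
    refine (wir_scalar hr hR (hhi i)).trans ?_
    refine mul_le_mul_of_nonneg_left ?_ (by positivity)
    refine Real.circleAverage_mono (hci _ ((hdi i).norm.pow 2)) (hci _ (hdc.norm.pow 2)) fun z hz => ?_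
    rw [abs_of_pos hr] at hz
    rw [hder z (hsub hz) i]
    exact pow_le_pow_left₀ (norm_nonneg _) (norm_le_pi_norm _ i) 2
  have h5 := Finset.sum_le_card_nsmul _ _ _ h4
  rw [nsmul_eq_mul, Finset.card_univ, Fintype.card_fin] at h5
  push_cast at h5
  rw [h3] at h1
  linarith

theorem cauchy_sub {E : Type*} [NormedAddCommGroup E] [NormedSpace ℂ E] [CompleteSpace E] {g : ℂ → E} {R ρ : ℝ} (hρ : 0 < ρ) (hR : ρ < R)
    (hg : DifferentiableOn ℂ g (ball 0 R)) {z : ℂ} (hz : ‖z‖ ≤ ρ / 2) : ‖g z - g 0‖ ≤ 2 * ‖z‖ / ρ * Real.circleAverage (fun w => ‖g w‖) 0 ρ := by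
  have hsub : sphere (0 : ℂ) ρ ⊆ ball 0 R := sphere_subset_closedBall.trans (closedBall_subset_ball hR)
  have hmem : ∀ θ : ℝ, circleMap 0 ρ θ ∈ sphere (0 : ℂ) ρ := fun θ => circleMap_mem_sphere 0 hρ.le θ
  have hdcl : DiffContOnCl ℂ g (ball 0 |ρ|) := by
    rw [abs_of_pos hρ]
    refine (hg.mono ?_).diffContOnCl
    rw [closure_ball _ hρ.ne']
    exact closedBall_subset_ball hR
  have hzρ : z ∈ ball (0 : ℂ) |ρ| := by
    rw [abs_of_pos hρ, mem_ball_zero_iff]
    linarith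
  have h1 := hdcl.circleAverage_smul_div hzρ
  have h2 := hdcl.circleAverage
  have hne : ∀ w ∈ sphere (0 : ℂ) ρ, w - z ≠ 0 := by
    intro w hw h
    rw [mem_sphere_zero_iff_norm] at hw
    have h3 : w = z := sub_eq_zero.1 h
    rw [h3] at hw
    linarith
  have hgc : ContinuousOn g (sphere 0 ρ) := hg.continuousOn.mono hsub
  have hkc : ContinuousOn (fun w : ℂ => (w - 0) / (w - z)) (sphere 0 ρ) :=
    (continuousOn_id.sub continuousOn_const).div (continuousOn_id.sub continuousOn_const) hne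
  have h3 : g z - g 0 = Real.circleAverage (fun w => (z / (w - z)) • g w) 0 ρ := by
    have hc1 : CircleIntegrable (fun w : ℂ => ((w - 0) / (w - z)) • g w) 0 ρ := ContinuousOn.circleIntegrable hρ.le (hkc.smul hgc)
    have hc2 : CircleIntegrable (fun w : ℂ => g w) 0 ρ := hgc.circleIntegrable hρ.le
    rw [← h1, ← h2, ← Real.circleAverage_fun_sub hc1 hc2]
    refine Real.circleAverage_congr_sphere fun w hw => ?_
    rw [abs_of_pos hρ] at hw
    have h4 := hne w hw
    have h5 : (w - 0) / (w - z) = z / (w - z) + 1 := by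
      field_simp
      ring
    show ((w - 0) / (w - z)) • g w - g w = (z / (w - z)) • g w
    rw [h5, add_smul, one_smul, add_sub_cancel_right]
  have hkc2 : ContinuousOn (fun w : ℂ => (z / (w - z)) • g w) (sphere 0 ρ) :=
    (continuousOn_const.div (continuousOn_id.sub continuousOn_const) hne).smul hgc
  have h6 : ‖Real.circleAverage (fun w => (z / (w - z)) • g w) 0 ρ‖ ≤ Real.circleAverage (fun w => ‖(z / (w - z)) • g w‖) 0 ρ := by
    rw [Real.circleAverage_def, Real.circleAverage_def, norm_smul, smul_eq_mul, Real.norm_of_nonneg (by positivity)]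
    refine mul_le_mul_of_nonneg_left ?_ (by positivity)
    exact intervalIntegral.norm_integral_le_integral_norm (by positivity)
  rw [h3]
  refine h6.trans ?_
  rw [← smul_eq_mul, ← Real.circleAverage_fun_smul]
  have hc3 : ContinuousOn (fun w : ℂ => (2 * ‖z‖ / ρ) • ‖g w‖) (sphere 0 ρ) := hgc.norm.const_smul (2 * ‖z‖ / ρ)
  refine Real.circleAverage_mono (ContinuousOn.circleIntegrable hρ.le hkc2.norm)
    (ContinuousOn.circleIntegrable hρ.le hc3) fun w hw => ?_
  rw [abs_of_pos hρ, mem_sphere_zero_iff_norm] at hw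
  rw [norm_smul, norm_div, smul_eq_mul]
  refine mul_le_mul_of_nonneg_right ?_ (norm_nonneg _)
  have h7 : ρ / 2 ≤ ‖w - z‖ := by
    have h8 := norm_sub_norm_le w z
    rw [hw] at h8
    linarith
  rw [div_le_div_iff₀ (by linarith) hρ]
  have h9 := norm_nonneg z
  nlinarith

end Pool.Agent.G3

end

section

/-!
# BPL Aff: open parts which are proper over an affine variety

`AffProper X K Φ`: the functions `Φ : K → ℂ^M` (of degree `0`) are holomorphic along curves and tend to infinity at the points of `X \ K`.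
-/

set_option autoImplicit false

namespace Pool.Agent.H36.BPL

open Filter Topology Metric
open Pool.Agent.H36.BP (EN Curve)

/-- `Φ` is a proper map on the open part `K` of the closed cone `X` -/
structure AffProper {V : Type} [NormedAddCommGroup V] [NormedSpace ℂ V] {M : ℕ} (X K : Set V) (Φ : V → Fin M → ℂ) : Prop where
  smul : ∀ x ∈ K, ∀ c : ℂ, c ≠ 0 → Φ (c • x) = Φ x
  cont : ContinuousOn Φ K
  hol : ∀ (F : ℂ → V) (z₀ : ℂ), AnalyticAt ℂ F z₀ → (∀ᶠ z in 𝓝 z₀, F z ∈ K) → AnalyticAt ℂ (fun z => Φ (F z)) z₀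
  proper : ∀ x ∈ X, x ∉ K → ∀ R : ℝ, ∀ᶠ y in 𝓝 x, y ∈ K → R < ‖Φ y‖
  iso : ∀ (F : ℂ → V) (z₀ : ℂ), AnalyticAt ℂ F z₀ → (∀ᶠ z in 𝓝 z₀, F z ∈ X) → (∀ᶠ z in 𝓝 z₀, F z ∉ K) ∨ ∀ᶠ z in 𝓝[≠] z₀, F z ∈ K

variable {N : ℕ}

theorem hur_of_affProper {X K : Set (EN N)} {M : ℕ} {Φ : EN N → Fin M → ℂ} (hX : ∀ x ∈ closure K, x ≠ 0 → x ∈ X)
    (hsm : ∀ x ∈ K, ∀ c : ℂ, c ≠ 0 → c • x ∈ K) (h : AffProper X K Φ) :
    ∀ (l : Filter ℕ), l.NeBot → ∀ (F : ℕ → ℂ → EN N) (H : ℂ → EN N) (k : ℕ) (z₀ : ℂ) (s : ℝ), 0 < s →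
    (∀ᶠ n in l, Curve K (Metric.ball z₀ s) (F n)) → DifferentiableOn ℂ H (Metric.ball z₀ s) →
    TendstoLocallyUniformlyOn F (fun z => (z - z₀) ^ k • H z) l (Metric.ball z₀ s) → H z₀ ≠ 0 → H z₀ ∉ K → ∀ᶠ z in 𝓝 z₀, H z ∉ K := by
  intro l hl F H k z₀ s hs hF hH hlim h0 hK
  have hHa : AnalyticAt ℂ H z₀ := hH.analyticAt (isOpen_ball.mem_nhds (mem_ball_self hs))
  have hsmK : ∀ (x : EN N) (c : ℂ), c ≠ 0 → (c • x ∈ K ↔ x ∈ K) := by
    intro x c hc
    constructor
    · intro h1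
      have h2 := hsm _ h1 c⁻¹ (inv_ne_zero hc)
      rwa [smul_smul, inv_mul_cancel₀ hc, one_smul] at h2
    · intro h1
      exact hsm _ h1 c hc
  -- near `z₀` the curve `H` is in `X`
  have hcl : ∀ z ∈ ball z₀ s, z ≠ z₀ → (z - z₀) ^ k • H z ∈ closure K := by
    intro z hz _
    have h1 : Tendsto (fun n => F n z) l (𝓝 ((z - z₀) ^ k • H z)) := hlim.tendsto_at hz
    refine mem_closure_of_tendsto h1 ?_
    filter_upwards [hF] with n hn
    exact hn.2 z hz
  have hne : ∀ᶠ z in 𝓝 z₀, H z ≠ 0 := hHa.continuousAt.eventually_ne h0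
  have hclK : ∀ (x : EN N) (c : ℂ), c ≠ 0 → c • x ∈ closure K → x ∈ closure K := by
    intro x c hc hx
    have h1 : Continuous (fun y : EN N => c⁻¹ • y) := continuous_const_smul _
    have h2 := map_mem_closure h1 hx (fun y hy => hsm y hy c⁻¹ (inv_ne_zero hc))
    simpa [smul_smul, inv_mul_cancel₀ hc] using h2
  have hclH : ∀ᶠ z in 𝓝 z₀, H z ∈ closure K := by
    have h1 : ∀ᶠ z in 𝓝[≠] z₀, H z ∈ closure K := by
      rw [eventually_nhdsWithin_iff]
      filter_upwards [isOpen_ball.mem_nhds (mem_ball_self hs)] with z hz hzne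
      exact hclK _ _ (pow_ne_zero k (sub_ne_zero.mpr hzne)) (hcl z hz hzne)
    have h2 : H z₀ ∈ closure K := by
      have h3 : Tendsto H (𝓝[≠] z₀) (𝓝 (H z₀)) := hHa.continuousAt.tendsto.mono_left nhdsWithin_le_nhds
      exact isClosed_closure.mem_of_tendsto h3 h1
    have h4 := eventually_nhdsWithin_iff.mp h1
    filter_upwards [h4] with z hz
    by_cases hz0 : z = z₀
    · rw [hz0]; exact h2
    · exact hz hz0
  have hHX : ∀ᶠ z in 𝓝 z₀, H z ∈ X := by
    filter_upwards [hclH, hne] with z h1 h2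
    exact hX _ h1 h2
  rcases h.iso H z₀ hHa hHX with h1 | h1
  · exact h1
  exfalso
  -- a small closed disc
  have hball : ∀ᶠ z in 𝓝 z₀, z ∈ ball z₀ s := isOpen_ball.mem_nhds (mem_ball_self hs)
  obtain ⟨r₀, hr₀, hr₀K⟩ := Metric.eventually_nhds_iff_ball.mp ((eventually_nhdsWithin_iff.mp h1).and hball)
  set r : ℝ := r₀ / 2 with hr
  have hr0 : 0 < r := by rw [hr]; positivity
  have hrlt : r < r₀ := by rw [hr]; linarith
  have hcb : closedBall z₀ r ⊆ ball z₀ r₀ := closedBall_subset_ball hrlt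
  have hKr : ∀ z ∈ closedBall z₀ r, z ≠ z₀ → H z ∈ K := fun z hz hne => (hr₀K z (hcb hz)).1 hne
  have hsr : closedBall z₀ r ⊆ ball z₀ s := fun z hz => (hr₀K z (hcb hz)).2
  -- a uniform bound on the circle
  have hpt : ∀ w ∈ sphere z₀ r, ∃ t ∈ 𝓝 w, ∃ C : ℝ, ∀ᶠ n in l, ∀ z ∈ t, ‖Φ (F n z)‖ ≤ C := by
    intro w hw
    have hwcb : w ∈ closedBall z₀ r := sphere_subset_closedBall hw
    have hwne : w ≠ z₀ := by
      rintro rfl
      rw [mem_sphere, dist_self] at hw
      linarith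
    have hws : w ∈ ball z₀ s := hsr hwcb
    have hxK : (w - z₀) ^ k • H w ∈ K := hsm _ (hKr w hwcb hwne) _ (pow_ne_zero k (sub_ne_zero.mpr hwne))
    have hc : ∀ᶠ y in 𝓝 ((w - z₀) ^ k • H w), y ∈ K → ‖Φ y‖ < ‖Φ ((w - z₀) ^ k • H w)‖ + 1 := by
      have h2 := (h.cont _ hxK).norm.eventually_lt_const (show ‖Φ ((w - z₀) ^ k • H w)‖ < ‖Φ ((w - z₀) ^ k • H w)‖ + 1 by linarith)
      exact eventually_nhdsWithin_iff.mp h2
    obtain ⟨δ, hδ, hδc⟩ := Metric.eventually_nhds_iff.mp hc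
    have hGc : ContinuousAt (fun z => (z - z₀) ^ k • H z) w :=
      (((continuous_id.sub continuous_const).pow k).continuousAt).smul
        ((hH.differentiableAt (isOpen_ball.mem_nhds hws)).continuousAt)
    have hG : ∀ᶠ z in 𝓝 w, dist ((z - z₀) ^ k • H z) ((w - z₀) ^ k • H w) < δ / 2 :=
      Metric.tendsto_nhds.mp hGc (δ / 2) (by positivity)
    obtain ⟨t, ht, htn⟩ := (Metric.tendstoLocallyUniformlyOn_iff.mp hlim) (δ / 2) (by positivity) w hws
    rw [isOpen_ball.nhdsWithin_eq hws] at ht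
    refine ⟨t ∩ ({z | dist ((z - z₀) ^ k • H z) ((w - z₀) ^ k • H w) < δ / 2} ∩ ball z₀ s),
      inter_mem ht (inter_mem hG (isOpen_ball.mem_nhds hws)), ‖Φ ((w - z₀) ^ k • H w)‖ + 1, ?_⟩
    filter_upwards [htn, hF] with n hn1 hn2
    rintro z ⟨hz1, hz2, hz3⟩
    have h3 : dist (F n z) ((w - z₀) ^ k • H w) < δ := by
      have h4 := hn1 z hz1
      rw [dist_comm] at h4
      have h5 : dist ((z - z₀) ^ k • H z) ((w - z₀) ^ k • H w) < δ / 2 := hz2
      calc dist (F n z) ((w - z₀) ^ k • H w) ≤ dist (F n z) ((z - z₀) ^ k • H z) + dist ((z - z₀) ^ k • H z) ((w - z₀) ^ k • H w) :=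
            dist_triangle _ _ _
        _ < δ := by linarith
    exact (hδc h3 (hn2.2 z hz3)).le
  obtain ⟨C, hC⟩ : ∃ C : ℝ, ∀ᶠ n in l, ∀ z ∈ sphere z₀ r, ‖Φ (F n z)‖ ≤ C := by
    refine (isCompact_sphere z₀ r).induction_on (p := fun S => ∃ C : ℝ, ∀ᶠ n in l, ∀ z ∈ S, ‖Φ (F n z)‖ ≤ C) ?_ ?_ ?_ ?_
    · exact ⟨0, Filter.Eventually.of_forall fun n z hz => absurd hz (Set.notMem_empty z)⟩
    · rintro S T hST ⟨C, hC⟩
      exact ⟨C, hC.mono fun n hn z hz => hn z (hST hz)⟩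
    · rintro S T ⟨C, hC⟩ ⟨C', hC'⟩
      refine ⟨max C C', ?_⟩
      filter_upwards [hC, hC'] with n h1 h2
      rintro z (hz | hz)
      · exact (h1 z hz).trans (le_max_left _ _)
      · exact (h2 z hz).trans (le_max_right _ _)
    · intro w hw
      obtain ⟨t, ht, C, hC⟩ := hpt w hw
      exact ⟨t, mem_nhdsWithin_of_mem_nhds ht, C, hC⟩
  -- the bound inside
  have hin : ∀ᶠ n in l, ∀ z ∈ ball z₀ r, ‖Φ (F n z)‖ ≤ C := by
    filter_upwards [hC, hF] with n h1 h2
    intro z hz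
    have hd : DifferentiableOn ℂ (fun z => Φ (F n z)) (ball z₀ s) := by
      intro w hw
      have hFa : AnalyticAt ℂ (F n) w := h2.1.analyticAt (isOpen_ball.mem_nhds hw)
      have hFK : ∀ᶠ z in 𝓝 w, F n z ∈ K := by
        filter_upwards [isOpen_ball.mem_nhds hw] with z hz
        exact h2.2 z hz
      exact (h.hol _ w hFa hFK).differentiableAt.differentiableWithinAt
    have hdc : DiffContOnCl ℂ (fun z => Φ (F n z)) (ball z₀ r) := by
      refine DifferentiableOn.diffContOnCl ?_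
      rw [closure_ball z₀ hr0.ne']
      exact hd.mono hsr
    refine Complex.norm_le_of_forall_mem_frontier_norm_le isBounded_ball hdc (fun w hw => ?_) (subset_closure hz)
    rw [frontier_ball z₀ hr0.ne'] at hw
    exact h1 w hw
  -- the bound for the limit
  have hlimC : ∀ z ∈ ball z₀ r, z ≠ z₀ → ‖Φ (H z)‖ ≤ C := by
    intro z hz hzne
    have hzs : z ∈ ball z₀ s := hsr (ball_subset_closedBall hz)
    have hzK : H z ∈ K := hKr z (ball_subset_closedBall hz) hzne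
    have hcne : (z - z₀) ^ k ≠ 0 := pow_ne_zero k (sub_ne_zero.mpr hzne)
    have hxK : (z - z₀) ^ k • H z ∈ K := hsm _ hzK _ hcne
    have h2 : Tendsto (fun n => F n z) l (𝓝[K] ((z - z₀) ^ k • H z)) := by
      refine tendsto_nhdsWithin_iff.mpr ⟨hlim.tendsto_at hzs, ?_⟩
      filter_upwards [hF] with n hn
      exact hn.2 z hzs
    have h3 : Tendsto (fun n => ‖Φ (F n z)‖) l (𝓝 ‖Φ ((z - z₀) ^ k • H z)‖) := ((h.cont _ hxK).tendsto.comp h2).norm
    rw [h.smul _ hzK _ hcne] at h3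
    refine le_of_tendsto h3 ?_
    filter_upwards [hin] with n hn
    exact hn z hz
  have hprop := h.proper (H z₀) (hHX.self_of_nhds) hK C
  have h4 : ∀ᶠ z in 𝓝[≠] z₀, H z ∈ K → C < ‖Φ (H z)‖ := (hHa.continuousAt.eventually hprop).filter_mono nhdsWithin_le_nhds
  have h5 : ∀ᶠ z in 𝓝[≠] z₀, z ∈ ball z₀ r := (show ∀ᶠ z in 𝓝 z₀, z ∈ ball z₀ r from ball_mem_nhds z₀ hr0).filter_mono nhdsWithin_le_nhds
  obtain ⟨z, hz1, hz2, hz3, hz4⟩ := ((h4.and (h1.and h5)).and self_mem_nhdsWithin).exists.imp fun z hz => (⟨hz.1.1, hz.1.2.1, hz.1.2.2, hz.2⟩ : (H z ∈ K → C < ‖Φ (H z)‖) ∧ H z ∈ K ∧ z ∈ ball z₀ r ∧ z ∈ ({z₀} : Set ℂ)ᶜ)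
  have h6 := hz1 hz2
  have h7 := hlimC z hz3 hz4
  linarith

end Pool.Agent.H36.BPL

end

section

/-!
# Project SE, module `ParHol` : holomorphy of parameter integrals

`z0 ∈ U`, choose `r > 0` with `closedBall z0 (2r) ⊆ U` and the majorant `g` valid there.  Cauchy's
estimate (`Complex.norm_deriv_le_of_forall_mem_sphere_norm_le`) gives `|∂_z F(z,s)| ≤ g(s)/r` for
`|z - z0| < r`, `s ∈ S`; `hasDerivAt_integral_of_dominated_loc_of_deriv_le` (measurability of
`s ↦ ∂_z F(z0, s)`: limit of difference quotients, e.g. `n (F(z0+1/n, s) - F(z0, s))`, a.e. strongly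
measurable as a limit, `aestronglyMeasurable_of_tendsto_ae`).
-/

set_option autoImplicit false
open MeasureTheory Set

namespace Pool.Agent.H97.SE

theorem par_hol {U : Set ℂ} (hU : IsOpen U) {S : Set ℝ} (hS : MeasurableSet S)
    {F : ℂ → ℝ → ℂ} (hF : ∀ s ∈ S, DifferentiableOn ℂ (fun z => F z s) U)
    (hm : ∀ z ∈ U, AEStronglyMeasurable (F z) (volume.restrict S))
    (hb : ∀ z0 ∈ U, ∃ r : ℝ, 0 < r ∧ ∃ g : ℝ → ℝ, IntegrableOn g S ∧
      ∀ z ∈ U, ‖z - z0‖ < r → ∀ s ∈ S, ‖F z s‖ ≤ g s) :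
    DifferentiableOn ℂ (fun z => ∫ s in S, F z s) U := by
  intro z0 hz0
  obtain ⟨r, hr, g, hg, hgb⟩ := hb z0 hz0
  obtain ⟨ε, hε, hεU⟩ := Metric.isOpen_iff.1 hU z0 hz0
  obtain ⟨δ, hδ⟩ : ∃ δ, δ = min r ε / 2 := ⟨_, rfl⟩
  have hδ0 : 0 < δ := by rw [hδ]; have := lt_min hr hε; linarith
  have hδr : 2 * δ ≤ r := by rw [hδ]; linarith [min_le_left r ε]
  have hδε : 2 * δ ≤ ε := by rw [hδ]; linarith [min_le_right r ε]
  -- points near `z0`
  have hnear : ∀ w : ℂ, ‖w - z0‖ < 2 * δ → w ∈ U ∧ ‖w - z0‖ < r := by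
    intro w hw
    exact ⟨hεU (by rw [Metric.mem_ball, dist_eq_norm]; linarith), by linarith⟩
  have hder : ∀ s ∈ S, ∀ z ∈ Metric.ball z0 δ, ‖deriv (fun z => F z s) z‖ ≤ g s / δ := by
    intro s hs z hz
    rw [Metric.mem_ball, dist_eq_norm] at hz
    have hball : Metric.closedBall z δ ⊆ U := by
      intro w hw
      rw [Metric.mem_closedBall, dist_eq_norm] at hw
      refine (hnear w ?_).1
      calc ‖w - z0‖ = ‖(w - z) + (z - z0)‖ := by ring_nf
        _ ≤ ‖w - z‖ + ‖z - z0‖ := norm_add_le _ _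
        _ < 2 * δ := by linarith
    apply Complex.norm_deriv_le_of_forall_mem_sphere_norm_le hδ0
    · exact ((hF s hs).mono hball).diffContOnCl_ball le_rfl
    · intro w hw
      have hw' := Metric.sphere_subset_closedBall hw
      have hwU := hball hw'
      rw [Metric.mem_sphere, dist_eq_norm] at hw
      refine hgb w hwU ?_ s hs
      refine (hnear w ?_).2
      calc ‖w - z0‖ = ‖(w - z) + (z - z0)‖ := by ring_nf
        _ ≤ ‖w - z‖ + ‖z - z0‖ := norm_add_le _ _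
        _ < 2 * δ := by linarith
  have hdiff : ∀ s ∈ S, ∀ z ∈ Metric.ball z0 δ,
      HasDerivAt (fun z => F z s) (deriv (fun z => F z s) z) z := by
    intro s hs z hz
    rw [Metric.mem_ball, dist_eq_norm] at hz
    have hzU : z ∈ U := (hnear z (by linarith)).1
    exact ((hF s hs).differentiableAt (hU.mem_nhds hzU)).hasDerivAt
  have hmeas' : AEStronglyMeasurable (fun s => deriv (fun z => F z s) z0)
      (volume.restrict S) := by
    obtain ⟨t, ht⟩ : ∃ t : ℕ → ℂ, t = fun n : ℕ => (((δ / ((n : ℝ) + 1)) : ℝ) : ℂ) := ⟨_, rfl⟩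
    have ht0 : ∀ n, t n ≠ 0 := by
      intro n
      rw [ht]
      have : (0 : ℝ) < δ / ((n : ℝ) + 1) := by positivity
      exact Complex.ofReal_ne_zero.2 this.ne'
    have htn : ∀ n, ‖t n‖ ≤ δ := by
      intro n
      rw [ht]
      have h0 : (0 : ℝ) < δ / ((n : ℝ) + 1) := by positivity
      simp only
      rw [Complex.norm_of_nonneg h0.le]
      exact div_le_self hδ0.le (by have : (0 : ℝ) ≤ n := Nat.cast_nonneg n; linarith)
    have htlim : Filter.Tendsto t Filter.atTop (nhdsWithin 0 {0}ᶜ) := by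
      apply tendsto_nhdsWithin_of_tendsto_nhds_of_eventually_within
      · have h1 : Filter.Tendsto (fun n : ℕ => δ * (1 / ((n : ℝ) + 1))) Filter.atTop
            (nhds (δ * 0)) := tendsto_one_div_add_atTop_nhds_zero_nat.const_mul δ
        rw [mul_zero] at h1
        have h2 := (Complex.continuous_ofReal.tendsto 0).comp h1
        rw [Complex.ofReal_zero] at h2
        rw [ht]
        refine h2.congr fun n => ?_
        simp only [Function.comp]
        rw [mul_one_div]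
      · exact Filter.Eventually.of_forall fun n => ht0 n
    apply aestronglyMeasurable_of_tendsto_ae Filter.atTop
      (f := fun n s => (t n)⁻¹ • (F (z0 + t n) s - F z0 s))
    · intro n
      have hU' : z0 + t n ∈ U := by
        refine (hnear _ ?_).1
        rw [add_sub_cancel_left]
        linarith [htn n]
      exact ((hm _ hU').sub (hm z0 hz0)).const_smul ((t n)⁻¹)
    · refine (ae_restrict_iff' hS).2 (Filter.Eventually.of_forall fun s hs => ?_)
      have h1 := hdiff s hs z0 (Metric.mem_ball_self hδ0)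
      rw [hasDerivAt_iff_tendsto_slope_zero] at h1
      exact h1.comp htlim
  have hint : Integrable (F z0) (volume.restrict S) := by
    refine Integrable.mono' hg (hm z0 hz0) ?_
    refine (ae_restrict_iff' hS).2 (Filter.Eventually.of_forall fun s hs => ?_)
    exact hgb z0 hz0 (by rw [sub_self, norm_zero]; exact hr) s hs
  have key := hasDerivAt_integral_of_dominated_loc_of_deriv_le (μ := volume.restrict S)
    (F := F) (F' := fun z s => deriv (fun z => F z s) z) (x₀ := z0) (s := Metric.ball z0 δ)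
    (bound := fun s => g s / δ) (Metric.ball_mem_nhds z0 hδ0)
    (Filter.eventually_of_mem (hU.mem_nhds hz0) fun z hz => hm z hz) hint hmeas'
    ((ae_restrict_iff' hS).2 (Filter.Eventually.of_forall fun s hs => hder s hs))
    (Integrable.div_const hg δ)
    ((ae_restrict_iff' hS).2 (Filter.Eventually.of_forall fun s hs => hdiff s hs))
  exact key.2.differentiableAt.differentiableWithinAt

end Pool.Agent.H97.SE

end

section

/-!
# G3 C Cheb: extension in a real parameter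

`f s z` is continuous for `s` in a real interval and `z` in a ball, holomorphic in `z`.  If for `z` in a small ball it extends holomorphically to complex
`s`, then this holds in the whole ball.  The Fourier coefficients `cf n z` of `θ ↦ f (s₀ + δ cos θ) z` are holomorphic in `z`, bounded, and `O(2^(-n))`
in the small ball, so `O(q^n)` for some `q < 1` in the larger ball (three circles); the Chebyshev series converges for complex `s` near `s₀`.
-/

set_option autoImplicit false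

open Topology Filter Metric Set MeasureTheory

namespace Pool.Agent.G3.C

/-- the Fourier coefficients of `θ ↦ f (s₀ + δ cos θ) z` -/
noncomputable def cf (f : ℝ → ℂ → ℂ) (s₀ δ : ℝ) (n : ℤ) (z : ℂ) : ℂ :=
  (1 / (2 * Real.pi) : ℝ) • ∫ θ in (0 : ℝ)..2 * Real.pi, Complex.exp (-(n * θ * Complex.I)) * f (s₀ + δ * Real.cos θ) z

private theorem cs_mem {s₀ δ : ℝ} (hδ : 0 ≤ δ) (θ : ℝ) : s₀ + δ * Real.cos θ ∈ Icc (s₀ - δ) (s₀ + δ) := by
  have h1 := Real.neg_one_le_cos θ
  have h2 := Real.cos_le_one θ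
  constructor <;> nlinarith only [hδ, h1, h2]

private theorem cf_neg (f : ℝ → ℂ → ℂ) (s₀ δ : ℝ) (n : ℤ) (z : ℂ) : cf f s₀ δ (-n) z = cf f s₀ δ n z := by
  unfold cf
  congr 1
  have h := intervalIntegral.integral_comp_sub_left (a := 0) (b := 2 * Real.pi)
    (fun θ : ℝ => Complex.exp (-((n : ℂ) * θ * Complex.I)) * f (s₀ + δ * Real.cos θ) z) (2 * Real.pi)
  rw [sub_self, sub_zero] at h
  rw [← h]
  refine intervalIntegral.integral_congr fun θ _ => ?_
  rw [Real.cos_two_pi_sub]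
  congr 1
  rw [show -((n : ℂ) * ((2 * Real.pi - θ : ℝ) : ℂ) * Complex.I) = -((((-n : ℤ)) : ℂ) * θ * Complex.I) + ((-n : ℤ) : ℂ) * (2 * Real.pi * Complex.I) by
    push_cast; ring, Complex.exp_add, Complex.exp_int_mul_two_pi_mul_I, mul_one]

private theorem cf_cont {f : ℝ → ℂ → ℂ} {s₀ δ : ℝ} (hδ : 0 ≤ δ) {U : Set ℂ}
    (hc : ContinuousOn (fun p : ℝ × ℂ => f p.1 p.2) (Icc (s₀ - δ) (s₀ + δ) ×ˢ U)) {z : ℂ} (hz : z ∈ U) :
    Continuous fun θ : ℝ => f (s₀ + δ * Real.cos θ) z := by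
  have h1 : Continuous fun θ : ℝ => ((s₀ + δ * Real.cos θ, z) : ℝ × ℂ) := by fun_prop
  exact hc.comp_continuous h1 fun θ => ⟨cs_mem hδ θ, hz⟩

private theorem cf_le {f : ℝ → ℂ → ℂ} {s₀ δ : ℝ} (hδ : 0 ≤ δ) {z : ℂ} {M : ℝ} (hM : ∀ s ∈ Icc (s₀ - δ) (s₀ + δ), ‖f s z‖ ≤ M) (n : ℤ) :
    ‖cf f s₀ δ n z‖ ≤ M := by
  unfold cf
  have hpi := Real.pi_pos
  rw [norm_smul, Real.norm_of_nonneg (by positivity)]
  have h1 : ‖∫ θ in (0 : ℝ)..2 * Real.pi, Complex.exp (-(n * θ * Complex.I)) * f (s₀ + δ * Real.cos θ) z‖ ≤ M * |2 * Real.pi - 0| := by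
    refine intervalIntegral.norm_integral_le_of_norm_le_const fun θ _ => ?_
    rw [norm_mul]
    have h2 : ‖Complex.exp (-((n : ℂ) * θ * Complex.I))‖ = 1 := by
      rw [show -((n : ℂ) * θ * Complex.I) = ((-(n * θ) : ℝ) : ℂ) * Complex.I by push_cast; ring, Complex.norm_exp_ofReal_mul_I]
    rw [h2, one_mul]
    exact hM _ (cs_mem hδ θ)
  rw [sub_zero, abs_of_pos (by positivity)] at h1
  calc 1 / (2 * Real.pi) * ‖∫ θ in (0 : ℝ)..2 * Real.pi, Complex.exp (-(n * θ * Complex.I)) * f (s₀ + δ * Real.cos θ) z‖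
      ≤ 1 / (2 * Real.pi) * (M * (2 * Real.pi)) := by gcongr
    _ = M := by field_simp

private theorem cf_hol {f : ℝ → ℂ → ℂ} {s₀ δ : ℝ} (hδ : 0 ≤ δ) {U : Set ℂ} (hU : IsOpen U)
    (hc : ContinuousOn (fun p : ℝ × ℂ => f p.1 p.2) (Icc (s₀ - δ) (s₀ + δ) ×ˢ U))
    (hh : ∀ s ∈ Icc (s₀ - δ) (s₀ + δ), DifferentiableOn ℂ (f s) U) (n : ℤ) : DifferentiableOn ℂ (cf f s₀ δ n) U := by
  have hpi := Real.pi_pos
  suffices hm : DifferentiableOn ℂ (fun z => ∫ θ in (0 : ℝ)..2 * Real.pi, Complex.exp (-(n * θ * Complex.I)) * f (s₀ + δ * Real.cos θ) z) U from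
    hm.const_smul (1 / (2 * Real.pi) : ℝ)
  have e : (fun z => ∫ θ in (0 : ℝ)..2 * Real.pi, Complex.exp (-(n * θ * Complex.I)) * f (s₀ + δ * Real.cos θ) z) =
      fun z => ∫ θ in Ioc (0 : ℝ) (2 * Real.pi), Complex.exp (-(n * θ * Complex.I)) * f (s₀ + δ * Real.cos θ) z := by
    funext z
    rw [intervalIntegral.integral_of_le (by positivity)]
  rw [e]
  have hcz : ∀ z ∈ U, Continuous fun θ : ℝ => Complex.exp (-((n : ℂ) * θ * Complex.I)) * f (s₀ + δ * Real.cos θ) z := fun z hz =>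
    Continuous.mul (by fun_prop) (cf_cont hδ hc hz)
  refine Pool.Agent.H97.SE.par_hol hU measurableSet_Ioc (F := fun z θ => Complex.exp (-((n : ℂ) * θ * Complex.I)) * f (s₀ + δ * Real.cos θ) z)
    (fun θ _ => (hh _ (cs_mem hδ θ)).const_mul _) (fun z hz => (hcz z hz).aestronglyMeasurable) fun z₀ hz₀ => ?_
  obtain ⟨r, hr, hrU⟩ := Metric.nhds_basis_closedBall.mem_iff.1 (hU.mem_nhds hz₀)
  have hK : IsCompact (Icc (s₀ - δ) (s₀ + δ) ×ˢ closedBall z₀ r) := isCompact_Icc.prod (isCompact_closedBall z₀ r)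
  obtain ⟨C, hC⟩ := hK.exists_bound_of_continuousOn (hc.mono (prod_mono le_rfl hrU))
  refine ⟨r, hr, fun _ => C, integrableOn_const measure_Ioc_lt_top.ne , fun z _ hz θ _ => ?_⟩
  rw [norm_mul]
  have h2 : ‖Complex.exp (-((n : ℂ) * θ * Complex.I))‖ = 1 := by
    rw [show -((n : ℂ) * θ * Complex.I) = ((-(n * θ) : ℝ) : ℂ) * Complex.I by push_cast; ring, Complex.norm_exp_ofReal_mul_I]
  rw [h2, one_mul]
  exact hC (s₀ + δ * Real.cos θ, z) ⟨cs_mem hδ θ, by rw [mem_closedBall, dist_eq_norm]; exact hz.le⟩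

/-- the bound of the coefficients where `f` extends -/
private theorem cf_geo {f : ℝ → ℂ → ℂ} {s₀ δ : ℝ} (hδ : 0 < δ) {z : ℂ} {g : ℂ → ℂ} {C : ℝ}
    (hg : DifferentiableOn ℂ g (ball (s₀ : ℂ) (2 * δ))) (hgC : ∀ ζ ∈ closedBall (s₀ : ℂ) (3 / 2 * δ), ‖g ζ‖ ≤ C)
    (hgf : ∀ s ∈ Icc (s₀ - δ) (s₀ + δ), g s = f s z) (n : ℕ) : ‖cf f s₀ δ n z‖ ≤ C * (1 / 2) ^ n := by
  have hpi := Real.pi_pos
  -- the Joukowski map
  obtain ⟨J, hJ⟩ : ∃ J : ℂ → ℂ, ∀ w, J w = s₀ + δ * ((w + w⁻¹) / 2) := ⟨_, fun w => rfl⟩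
  have hJn : ∀ w : ℂ, 1 ≤ ‖w‖ → ‖w‖ ≤ 2 → J w ∈ closedBall (s₀ : ℂ) (3 / 2 * δ) := by
    intro w h1 h2
    rw [mem_closedBall, dist_eq_norm, hJ, add_sub_cancel_left, norm_mul, Complex.norm_real, Real.norm_of_nonneg hδ.le, norm_div]
    have h3 : ‖w + w⁻¹‖ ≤ 2 + 1 := by
      refine (norm_add_le _ _).trans (add_le_add h2 ?_)
      rw [norm_inv]
      exact inv_le_one_of_one_le₀ h1
    have h4 : ‖(2 : ℂ)‖ = 2 := by simp
    rw [h4]
    nlinarith only [hδ, h3]
  have hsub : closedBall (s₀ : ℂ) (3 / 2 * δ) ⊆ ball (s₀ : ℂ) (2 * δ) := closedBall_subset_ball (by linarith only [hδ])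
  have hJd : ∀ w : ℂ, w ≠ 0 → DifferentiableAt ℂ J w := by
    intro w hw
    have : J = fun w => (s₀ : ℂ) + δ * ((w + w⁻¹) / 2) := funext hJ
    rw [this]
    fun_prop (disch := exact hw)
  obtain ⟨H, hH⟩ : ∃ H : ℂ → ℂ, ∀ w, H w = (w ^ (n + 1))⁻¹ * g (J w) := ⟨_, fun w => rfl⟩
  have hHd : ∀ w : ℂ, 1 ≤ ‖w‖ → ‖w‖ ≤ 2 → DifferentiableAt ℂ H w := by
    intro w h1 h2
    have hw : w ≠ 0 := by
      intro h
      rw [h, norm_zero] at h1
      linarith
    have e : H = fun w => (w ^ (n + 1))⁻¹ * g (J w) := funext hH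
    rw [e]
    have h3 : DifferentiableAt ℂ g (J w) := hg.differentiableAt (isOpen_ball.mem_nhds (hsub (hJn w h1 h2)))
    exact ((differentiableAt_id.pow _).inv (pow_ne_zero _ hw)).mul (h3.comp w (hJd w hw))
  have hann : (∮ w in C(0, 2), H w) = ∮ w in C(0, 1), H w := by
    refine Complex.circleIntegral_eq_of_differentiable_on_annulus_off_countable one_pos one_le_two countable_empty ?_ ?_
    · intro w hw
      have h2 : ‖w‖ ≤ 2 := by simpa using hw.1
      have h1 : 1 ≤ ‖w‖ := by simpa using hw.2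
      exact (hHd w h1 h2).continuousAt.continuousWithinAt
    · rintro w ⟨⟨h2, h1⟩, -⟩
      have h2' : ‖w‖ ≤ 2 := by
        have : ‖w‖ < 2 := by simpa using h2
        exact this.le
      have h1' : 1 ≤ ‖w‖ := by
        have : 1 < ‖w‖ := by simpa using h1
        exact this.le
      exact hHd w h1' h2'
  have h1 : (∮ w in C(0, 1), H w) = Complex.I * ∫ θ in (0 : ℝ)..2 * Real.pi, Complex.exp (-(((n : ℤ) : ℂ) * θ * Complex.I)) * f (s₀ + δ * Real.cos θ) z := by
    rw [circleIntegral, ← intervalIntegral.integral_const_mul]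
    refine intervalIntegral.integral_congr fun θ _ => ?_
    simp only [deriv_circleMap, smul_eq_mul]
    have e1 : circleMap 0 1 θ = Complex.exp (θ * Complex.I) := by simp [circleMap]
    rw [e1, hH]
    have e2 : J (Complex.exp (θ * Complex.I)) = ((s₀ + δ * Real.cos θ : ℝ) : ℂ) := by
      rw [hJ, ← Complex.exp_neg]
      push_cast
      rw [Complex.cos]
      ring_nf
    rw [e2, hgf _ (cs_mem hδ.le θ), ← Complex.exp_nat_mul, ← Complex.exp_neg]
    have e3 : Complex.exp (θ * Complex.I) * Complex.exp (-(((n + 1 : ℕ) : ℂ) * (θ * Complex.I))) = Complex.exp (-(((n : ℤ) : ℂ) * θ * Complex.I)) := by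
      rw [← Complex.exp_add]
      congr 1
      push_cast
      ring
    calc Complex.exp (θ * Complex.I) * Complex.I * (Complex.exp (-(((n + 1 : ℕ) : ℂ) * (θ * Complex.I))) * f (s₀ + δ * Real.cos θ) z)
        = Complex.I * ((Complex.exp (θ * Complex.I) * Complex.exp (-(((n + 1 : ℕ) : ℂ) * (θ * Complex.I)))) * f (s₀ + δ * Real.cos θ) z) := by ring
      _ = _ := by rw [e3]
  have h2 : ‖∮ w in C(0, 2), H w‖ ≤ 2 * Real.pi * 2 * (((2 : ℝ) ^ (n + 1))⁻¹ * C) := by
    refine circleIntegral.norm_integral_le_of_norm_le_const (by norm_num) fun w hw => ?_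
    have hw2 : ‖w‖ = 2 := by simpa using hw
    rw [hH, norm_mul, norm_inv, norm_pow, hw2]
    gcongr
    exact hgC _ (hJn w (by rw [hw2]; norm_num) hw2.le)
  rw [hann, h1, norm_mul, Complex.norm_I, one_mul] at h2
  unfold cf
  rw [norm_smul, Real.norm_of_nonneg (by positivity)]
  calc 1 / (2 * Real.pi) * ‖∫ θ in (0 : ℝ)..2 * Real.pi, Complex.exp (-(((n : ℤ) : ℂ) * θ * Complex.I)) * f (s₀ + δ * Real.cos θ) z‖
      ≤ 1 / (2 * Real.pi) * (2 * Real.pi * 2 * (((2 : ℝ) ^ (n + 1))⁻¹ * C)) := by gcongr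
    _ = C * (1 / 2) ^ n := by
      rw [pow_succ, one_div, one_div, inv_pow]
      field_simp

/-- Fourier inversion -/
private theorem cf_sum {f : ℝ → ℂ → ℂ} {s₀ δ : ℝ} {z : ℂ} (hc : Continuous fun θ : ℝ => f (s₀ + δ * Real.cos θ) z)
    (hs : Summable fun n : ℕ => cf f s₀ δ n z) (θ : ℝ) :
    HasSum (fun n : ℕ => 2 * cf f s₀ δ n z * Complex.cos (n * θ)) (f (s₀ + δ * Real.cos θ) z + cf f s₀ δ 0 z) := by
  have : Fact (0 < 2 * Real.pi) := ⟨Real.two_pi_pos⟩
  have hper : Function.Periodic (fun θ : ℝ => f (s₀ + δ * Real.cos θ) z) (2 * Real.pi) := fun θ => by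
    simp only [Real.cos_add_two_pi]
  obtain ⟨h, hh⟩ : ∃ h : C(AddCircle (2 * Real.pi), ℂ), ∀ θ : ℝ, h θ = f (s₀ + δ * Real.cos θ) z := by
    refine ⟨⟨hper.lift, ?_⟩, fun θ => hper.lift_coe θ⟩
    exact continuous_coinduced_dom.2 hc
  have hcoef : ∀ n : ℤ, fourierCoeff h n = cf f s₀ δ n z := by
    intro n
    rw [fourierCoeff_eq_intervalIntegral _ n 0, zero_add]
    unfold cf
    congr 1
    refine intervalIntegral.integral_congr fun θ _ => ?_
    rw [fourier_coe_apply, hh, smul_eq_mul]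
    congr 2
    have hpi : (Real.pi : ℂ) ≠ 0 := by exact_mod_cast Real.pi_ne_zero
    push_cast
    field_simp
  have hsum : Summable (fourierCoeff h) := by
    have e : fourierCoeff h = fun n : ℤ => cf f s₀ δ n z := funext hcoef
    rw [e]
    refine Summable.of_nat_of_neg hs ?_
    simp only [cf_neg]
    exact hs
  have h1 := (has_pointwise_sum_fourier_series_of_summable hsum (θ : AddCircle (2 * Real.pi))).nat_add_neg
  rw [hh] at h1
  simp only [hcoef, smul_eq_mul] at h1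
  have h2 : (fourier (0 : ℤ)) ((θ : ℝ) : AddCircle (2 * Real.pi)) = 1 := by simp
  rw [h2, mul_one] at h1
  have e : (fun n : ℕ => 2 * cf f s₀ δ n z * Complex.cos (n * θ)) = fun n : ℕ => cf f s₀ δ n z * (fourier (n : ℤ)) ((θ : ℝ) : AddCircle (2 * Real.pi)) +
      cf f s₀ δ (-(n : ℤ)) z * (fourier (-(n : ℤ))) ((θ : ℝ) : AddCircle (2 * Real.pi)) := by
    funext n
    rw [cf_neg, fourier_coe_apply, fourier_coe_apply, Complex.cos]
    have hpi : (Real.pi : ℂ) ≠ 0 := by exact_mod_cast Real.pi_ne_zero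
    have e1 : (2 * Real.pi * Complex.I * ((n : ℤ) : ℂ) * θ / ((2 * Real.pi : ℝ) : ℂ) : ℂ) = n * θ * Complex.I := by
      push_cast
      field_simp
    have e2 : (2 * Real.pi * Complex.I * ((-(n : ℤ) : ℤ) : ℂ) * θ / ((2 * Real.pi : ℝ) : ℂ) : ℂ) = -(n * θ) * Complex.I := by
      push_cast
      field_simp
    rw [e1, e2]
    ring
  rw [e]
  exact h1

/-- the growth of the Chebyshev polynomials near `0` -/
private theorem cb_le {ρ : ℝ} (hρ : 1 ≤ ρ) {x : ℂ} (hx : 2 * ‖x‖ ≤ ρ - ρ⁻¹) (n : ℕ) : ‖(Polynomial.Chebyshev.T ℂ n).eval x‖ ≤ ρ ^ n := by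
  have hρ0 : 0 < ρ := by linarith
  have hinv : 0 < ρ⁻¹ := inv_pos.2 hρ0
  induction n using Nat.twoStepInduction with
  | zero => simp
  | one =>
    simp only [Nat.cast_one, Polynomial.Chebyshev.T_one, Polynomial.eval_X, pow_one]
    linarith only [hρ, hx, hinv]
  | more n h1 h2 =>
    have e : Polynomial.Chebyshev.T ℂ ((n + 2 : ℕ) : ℤ) = 2 * Polynomial.X * Polynomial.Chebyshev.T ℂ ((n + 1 : ℕ) : ℤ) - Polynomial.Chebyshev.T ℂ (n : ℤ) := by
      have := Polynomial.Chebyshev.T_add_two ℂ (n : ℤ)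
      push_cast
      exact this
    rw [e]
    simp only [Polynomial.eval_sub, Polynomial.eval_mul, Polynomial.eval_X, Polynomial.eval_ofNat]
    refine (norm_sub_le _ _).trans ?_
    rw [norm_mul, norm_mul]
    have h3 : ‖(2 : ℂ)‖ = 2 := by simp
    rw [h3]
    have h4 : 2 * ‖x‖ * ‖(Polynomial.Chebyshev.T ℂ ((n + 1 : ℕ) : ℤ)).eval x‖ ≤ (ρ - ρ⁻¹) * ρ ^ (n + 1) := by
      gcongr
      linarith [norm_nonneg x]
    have h5 : (ρ - ρ⁻¹) * ρ ^ (n + 1) + ρ ^ n = ρ ^ (n + 2) := by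
      have : ρ⁻¹ * ρ ^ (n + 1) = ρ ^ n := by rw [pow_succ']; field_simp
      rw [sub_mul, this]
      ring
    linarith only [h1, h4, h5]

/-- the coefficients are small on the large ball -/
private theorem cf_small {f : ℝ → ℂ → ℂ} {s₀ δ : ℝ} (hδ : 0 < δ) {z₁ : ℂ} {R r₁ R' : ℝ} (hr₁ : 0 < r₁) (h₁ : r₁ < R') (hR' : R' < R)
    (hc : ContinuousOn (fun p : ℝ × ℂ => f p.1 p.2) (Icc (s₀ - δ) (s₀ + δ) ×ˢ ball z₁ R))
    (hh : ∀ s ∈ Icc (s₀ - δ) (s₀ + δ), DifferentiableOn ℂ (f s) (ball z₁ R)) {C : ℝ}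
    (hC : ∀ z ∈ closedBall z₁ r₁, ∀ n : ℕ, ‖cf f s₀ δ n z‖ ≤ C * (1 / 2) ^ n) :
    ∃ K q : ℝ, 0 < K ∧ 0 < q ∧ q < 1 ∧ ∀ z ∈ ball z₁ R', ∀ n : ℕ, ‖cf f s₀ δ n z‖ ≤ K * q ^ n := by
  obtain ⟨R₃, hR₃⟩ : ∃ R₃, R₃ = (R' + R) / 2 := ⟨_, rfl⟩
  have h3 : R' < R₃ := by rw [hR₃]; linarith
  have h4 : R₃ < R := by rw [hR₃]; linarith
  have hR'0 : 0 < R' := hr₁.trans h₁
  have hK : IsCompact (Icc (s₀ - δ) (s₀ + δ) ×ˢ closedBall z₁ R₃) := isCompact_Icc.prod (isCompact_closedBall z₁ R₃)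
  obtain ⟨M, hM⟩ := hK.exists_bound_of_continuousOn (hc.mono (prod_mono le_rfl (closedBall_subset_ball h4)))
  obtain ⟨K, hKd⟩ : ∃ K, K = max 1 (max C M) := ⟨_, rfl⟩
  have hK1 : 1 ≤ K := by rw [hKd]; exact le_max_left _ _
  have hKC : C ≤ K := by rw [hKd]; exact (le_max_left _ _).trans (le_max_right _ _)
  have hKM : M ≤ K := by rw [hKd]; exact (le_max_right _ _).trans (le_max_right _ _)
  have hK0 : 0 < K := by linarith
  have hlog : 0 < Real.log (R₃ / r₁) := Real.log_pos (by rw [one_lt_div hr₁]; linarith)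
  obtain ⟨α, hα⟩ : ∃ α, α = Real.log (R₃ / R') / Real.log (R₃ / r₁) := ⟨_, rfl⟩
  obtain ⟨β, hβ⟩ : ∃ β, β = Real.log (R' / r₁) / Real.log (R₃ / r₁) := ⟨_, rfl⟩
  have hα0 : 0 < α := by
    rw [hα]
    exact div_pos (Real.log_pos (by rw [one_lt_div hR'0]; exact h3)) hlog
  have hαβ : α + β = 1 := by
    have hR₃0 : 0 < R₃ := by linarith
    rw [hα, hβ, ← add_div, ← Real.log_mul (by positivity) (by positivity), div_mul_div_cancel₀ hR'0.ne', div_self hlog.ne']
  refine ⟨K, (1 / 2) ^ α, hK0, by positivity, Real.rpow_lt_one (by norm_num) (by norm_num) hα0, fun z hz n => ?_⟩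
  have hd := cf_hol hδ.le isOpen_ball hc hh n
  have hsph : ∀ w ∈ sphere z₁ R', ‖cf f s₀ δ n w‖ ≤ K * ((1 / 2) ^ α) ^ n := by
    intro w hw
    have h5 := Pool.Agent.H95.GC.three_circles (cf f s₀ δ n) z₁ r₁ R' R₃ R (K * (1 / 2) ^ n) K hr₁ h₁ h3 h4 hd (by positivity) hK0
      (fun w hw => (hC w (by rw [mem_closedBall, hw]) n).trans (by gcongr))
      (fun w hw => (cf_le hδ.le (fun s hs => hM (s, w) ⟨hs, by rw [mem_closedBall, hw]⟩) n).trans hKM) w hw
    refine h5.trans (le_of_eq ?_)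
    rw [← hα, ← hβ, Real.mul_rpow hK0.le (by positivity), mul_assoc, mul_comm (((1 / 2 : ℝ) ^ n) ^ α), ← mul_assoc, ← Real.rpow_add hK0, hαβ,
      Real.rpow_one, ← Real.rpow_natCast, ← Real.rpow_natCast, ← Real.rpow_mul (by norm_num), ← Real.rpow_mul (by norm_num), mul_comm α]
  refine Complex.norm_le_of_forall_mem_frontier_norm_le (isBounded_ball (x := z₁) (r := R')) ?_ ?_ (subset_closure hz)
  · refine DifferentiableOn.diffContOnCl ?_
    rw [closure_ball _ hR'0.ne']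
    exact hd.mono (closedBall_subset_ball hR')
  · intro w hw
    rw [frontier_ball _ hR'0.ne'] at hw
    exact hsph w hw

end Pool.Agent.G3.C

end
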