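import Mathlib

/-! The parts of this file: H13.SM.Null, H56.G3.Rad, H56.G3.HL, H62.EL.Ext, TG.XDisc. -/

section

/-!
# The zero set of an analytic function is a null set

PROOF.  `h` is analytic on a ball of radius `r` around `0` (`AnalyticAt.eventually_analyticAt`; sup norm,
the ball is convex), and since it is not eventually `0` there is `v` with `‖v‖ < r / 2`, `h v ≠ 0`;
`v ≠ 0` since `h 0 = 0`.  By continuity there is `0 < δ ≤ r / 2` with `h (p + v) ≠ 0` for `‖p‖ < δ`.  Take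
`W = Metric.ball 0 δ`, `Z' = {x ∈ W | h x = 0}`, measurable since `W \ Z' = {x ∈ W | h x ≠ 0}` is open.
By `MeasureTheory.ae_mem_of_ae_add_linearMap_mem` for `L : ℂ →ₗ[ℝ] (Fin n → ℂ)`, `t ↦ t • v`, and
`s = Z'ᶜ`, it is enough that for every `y` the set `{t : ℂ | y + t • v ∈ Z'}` is null.  If it is not
empty, let `p = y + t₀ • v ∈ Z'`; the set is the translate by `t₀` of a subset of
`{s ∈ D | h (p + s • v) = 0}`, `D = {s : ℂ | ‖p + s • v‖ < r}`.  `D` is open and convex, contains `0` and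
`1`, and `g s = h (p + s • v)` is analytic on `D` with `g 1 ≠ 0`.  So the zeros of `g` in `D` are
isolated (`AnalyticOnNhd.eqOn_zero_of_preconnected_of_frequently_eq_zero`,
`AnalyticAt.eventually_eq_zero_or_eventually_ne_zero`) and the zero set is null: it is codiscrete in `D`
(`AnalyticOnNhd.preimage_zero_mem_codiscreteWithin` or similar) and
`MeasureTheory.ae_restrict_le_codiscreteWithin`; or it is countable.
-/

open Topology MeasureTheory

noncomputable section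

namespace Pool.Agent.H13.SM

private theorem Null_line {n : ℕ} {h : (Fin n → ℂ) → ℂ} {r : ℝ} {v p : Fin n → ℂ}
    (hball : ∀ y ∈ Metric.ball (0 : Fin n → ℂ) r, AnalyticAt ℂ h y)
    (hpv : p + v ∈ Metric.ball (0 : Fin n → ℂ) r) (hv : h (p + v) ≠ 0) :
    ∀ᵐ s : ℂ, p + s • v ∈ Metric.ball (0 : Fin n → ℂ) r → h (p + s • v) ≠ 0 := by
  have hline : Continuous fun s : ℂ => p + s • v :=
    continuous_const.add (continuous_id.smul continuous_const)
  have hDo : IsOpen {s : ℂ | p + s • v ∈ Metric.ball (0 : Fin n → ℂ) r} :=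
    Metric.isOpen_ball.preimage hline
  have hDc : Convex ℝ {s : ℂ | p + s • v ∈ Metric.ball (0 : Fin n → ℂ) r} := by
    intro x hx y hy a b ha hb hab
    have h1 := (convex_ball (0 : Fin n → ℂ) r) hx hy ha hb hab
    have h2 : a • (p + x • v) + b • (p + y • v) = p + (a • x + b • y) • v := by
      have h3 : (a + b) • p = p := by rw [hab, one_smul]
      calc a • (p + x • v) + b • (p + y • v) = (a + b) • p + (a • x + b • y) • v := by
            rw [smul_add, smul_add, add_smul, add_smul, smul_assoc, smul_assoc]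
            abel
        _ = _ := by rw [h3]
    rw [h2] at h1
    exact h1
  have hg : AnalyticOnNhd ℂ (fun s : ℂ => h (p + s • v))
      {s : ℂ | p + s • v ∈ Metric.ball (0 : Fin n → ℂ) r} := by
    intro s hs
    have h1 : AnalyticAt ℂ (fun s : ℂ => p + s • v) s :=
      analyticAt_const.add (analyticAt_id.smul analyticAt_const)
    exact AnalyticAt.comp (g := h) (f := fun s : ℂ => p + s • v) (hball _ hs) h1
  have h1D : (1 : ℂ) ∈ {s : ℂ | p + s • v ∈ Metric.ball (0 : Fin n → ℂ) r} := by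
    show p + (1 : ℂ) • v ∈ Metric.ball (0 : Fin n → ℂ) r
    rw [one_smul]
    exact hpv
  rcases hg.eqOn_zero_or_eventually_ne_zero_of_preconnected hDc.isPreconnected with h2 | h2
  · exfalso
    have h3 := h2 h1D
    apply hv
    simpa using h3
  · have h3 := ae_restrict_le_codiscreteWithin (μ := (volume : Measure ℂ)) hDo.measurableSet h2
    exact (ae_restrict_iff' hDo.measurableSet).1 h3

theorem exists_null {n : ℕ} {h : (Fin n → ℂ) → ℂ} (hh : AnalyticAt ℂ h 0) (h0 : h 0 = 0)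
    (hne : ¬ ∀ᶠ u in 𝓝 0, h u = 0) :
    ∃ W ∈ 𝓝 (0 : Fin n → ℂ), volume {u | u ∈ W ∧ h u = 0} = 0 := by
  obtain ⟨r, hr, hball⟩ := Metric.eventually_nhds_iff_ball.1 hh.eventually_analyticAt
  have hex : ∃ v ∈ Metric.ball (0 : Fin n → ℂ) (r / 2), h v ≠ 0 := by
    by_contra hcon
    push Not at hcon
    exact hne (Filter.mem_of_superset (Metric.ball_mem_nhds 0 (half_pos hr)) fun u hu => hcon u hu)
  obtain ⟨v, hvr, hv⟩ := hex
  have hvr' : v ∈ Metric.ball (0 : Fin n → ℂ) r := Metric.ball_subset_ball (by linarith) hvr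
  have hcont : ContinuousAt (fun p : Fin n → ℂ => h (p + v)) 0 := by
    have h1 : ContinuousAt h ((0 : Fin n → ℂ) + v) := by
      rw [zero_add]
      exact (hball v hvr').continuousAt
    exact ContinuousAt.comp (g := h) (f := fun p : Fin n → ℂ => p + v) h1
      (continuousAt_id.add continuousAt_const)
  have hev : ∀ᶠ p in 𝓝 (0 : Fin n → ℂ), h (p + v) ≠ 0 := hcont.eventually_ne (by rwa [zero_add])
  obtain ⟨δ0, hδ0, hδ⟩ := Metric.eventually_nhds_iff_ball.1 hev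
  have hδpos : 0 < min δ0 (r / 2) := lt_min hδ0 (half_pos hr)
  have hsub : Metric.ball (0 : Fin n → ℂ) (min δ0 (r / 2)) ⊆ Metric.ball 0 r :=
    Metric.ball_subset_ball ((min_le_right _ _).trans (by linarith))
  refine ⟨Metric.ball 0 (min δ0 (r / 2)), Metric.ball_mem_nhds 0 hδpos, ?_⟩
  have hZm : MeasurableSet {u : Fin n → ℂ | u ∈ Metric.ball (0 : Fin n → ℂ) (min δ0 (r / 2)) ∧ h u = 0} := by
    have hc : ContinuousOn h (Metric.ball (0 : Fin n → ℂ) (min δ0 (r / 2))) :=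
      fun u hu => (hball u (hsub hu)).continuousAt.continuousWithinAt
    have ho : IsOpen (Metric.ball (0 : Fin n → ℂ) (min δ0 (r / 2)) ∩ h ⁻¹' {0}ᶜ) :=
      hc.isOpen_inter_preimage Metric.isOpen_ball isOpen_compl_singleton
    have he : {u : Fin n → ℂ | u ∈ Metric.ball (0 : Fin n → ℂ) (min δ0 (r / 2)) ∧ h u = 0} =
        Metric.ball (0 : Fin n → ℂ) (min δ0 (r / 2)) \
          (Metric.ball (0 : Fin n → ℂ) (min δ0 (r / 2)) ∩ h ⁻¹' {0}ᶜ) := by
      ext u
      constructor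
      · rintro ⟨h1, h2⟩
        exact ⟨h1, fun h3 => h3.2 h2⟩
      · rintro ⟨h1, h2⟩
        refine ⟨h1, ?_⟩
        by_contra h3
        exact h2 ⟨h1, h3⟩
    rw [he]
    exact Metric.isOpen_ball.measurableSet.diff ho.measurableSet
  have key : ∀ᵐ y : Fin n → ℂ, y ∈ {u : Fin n → ℂ | u ∈ Metric.ball (0 : Fin n → ℂ) (min δ0 (r / 2)) ∧ h u = 0}ᶜ := by
    refine ae_mem_of_ae_add_linearMap_mem (LinearMap.toSpanSingleton ℂ (Fin n → ℂ) v) volume volume
      hZm.compl fun y => ?_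
    by_cases hy : ∃ t0 : ℂ, y + t0 • v ∈ {u : Fin n → ℂ | u ∈ Metric.ball (0 : Fin n → ℂ) (min δ0 (r / 2)) ∧ h u = 0}
    · obtain ⟨t0, hp1, -⟩ := hy
      have hp2 : ‖y + t0 • v‖ < min δ0 (r / 2) := by simpa using hp1
      have hpv : (y + t0 • v) + v ∈ Metric.ball (0 : Fin n → ℂ) r := by
        rw [mem_ball_zero_iff]
        have h1 := norm_add_le (y + t0 • v) v
        have h2 : ‖v‖ < r / 2 := by simpa using hvr
        have h3 : min δ0 (r / 2) ≤ r / 2 := min_le_right _ _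
        linarith
      have hne1 : h ((y + t0 • v) + v) ≠ 0 :=
        hδ _ (Metric.ball_subset_ball (min_le_left _ _) hp1)
      have h1 := Null_line hball hpv hne1
      have h2 := (measurePreserving_sub_right (volume : Measure ℂ) t0).quasiMeasurePreserving.ae h1
      filter_upwards [h2] with t ht hZ
      have h3 : y + t0 • v + (t - t0) • v = y + t • v := by
        rw [sub_smul]
        abel
      rw [h3] at ht
      have h4 : y + (LinearMap.toSpanSingleton ℂ (Fin n → ℂ) v) t = y + t • v := by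
        rw [LinearMap.toSpanSingleton_apply]
      rw [h4] at hZ
      exact ht (hsub hZ.1) hZ.2
    · refine Filter.Eventually.of_forall fun t hZ => hy ⟨t, ?_⟩
      have h4 : y + (LinearMap.toSpanSingleton ℂ (Fin n → ℂ) v) t = y + t • v := by
        rw [LinearMap.toSpanSingleton_apply]
      rw [h4] at hZ
      exact hZ
  have h5 := mem_ae_iff.1 key
  have h6 : {y : Fin n → ℂ | y ∈ {u : Fin n → ℂ | u ∈ Metric.ball (0 : Fin n → ℂ) (min δ0 (r / 2)) ∧ h u = 0}ᶜ}ᶜ =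
      {u : Fin n → ℂ | u ∈ Metric.ball (0 : Fin n → ℂ) (min δ0 (r / 2)) ∧ h u = 0} :=
    compl_compl _
  rw [h6] at h5
  exact h5

end Pool.Agent.H13.SM

end
end

section

/-!
# G3 Rad: the mean of `‖h - h 0‖ ^ 2` over a circle and the means of `‖h'‖ ^ 2`
-/

set_option autoImplicit false

open Set MeasureTheory Metric Real

namespace Pool.Agent.H56.G3

/-- Cauchy-Schwarz -/
theorem sq_integral_le {f : ℝ → ℝ} {r : ℝ} (hr : 0 ≤ r) (hf : ContinuousOn f (Icc 0 r)) :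
    (∫ x in (0 : ℝ)..r, f x) ^ 2 ≤ r * ∫ x in (0 : ℝ)..r, f x ^ 2 := by
  rcases hr.eq_or_lt with rfl | hr0
  · simp
  obtain ⟨m, hm⟩ : ∃ m : ℝ, m = (∫ x in (0 : ℝ)..r, f x) / r := ⟨_, rfl⟩
  have hu : uIcc 0 r = Icc 0 r := uIcc_of_le hr
  have hfi : IntervalIntegrable f volume 0 r := ContinuousOn.intervalIntegrable (by rwa [hu])
  have hf2 : IntervalIntegrable (fun x => f x ^ 2) volume 0 r := ContinuousOn.intervalIntegrable (by rw [hu]; exact hf.pow 2)
  have h1 : 0 ≤ ∫ x in (0 : ℝ)..r, (f x - m) ^ 2 := intervalIntegral.integral_nonneg hr fun x _ => sq_nonneg _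
  have h2 : (fun x => (f x - m) ^ 2) = fun x => f x ^ 2 - 2 * m * f x + m ^ 2 := by
    funext x
    ring
  rw [h2, intervalIntegral.integral_add (hf2.sub (hfi.const_mul _)) intervalIntegrable_const,
    intervalIntegral.integral_sub hf2 (hfi.const_mul _), intervalIntegral.integral_const_mul, intervalIntegral.integral_const,
    smul_eq_mul, sub_zero] at h1
  have h3 : ∫ x in (0 : ℝ)..r, f x = m * r := by
    rw [hm]
    field_simp
  rw [h3] at h1 ⊢
  have h4 : m ^ 2 * r ≤ ∫ x in (0 : ℝ)..r, f x ^ 2 := by nlinarith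
  nlinarith

variable {E : Type*} [NormedAddCommGroup E] [NormedSpace ℂ E] [CompleteSpace E]

private lemma norm_cm (ρ θ : ℝ) : ‖circleMap 0 ρ θ‖ = |ρ| := by simp [circleMap]

private lemma cm_mem {R r ρ θ : ℝ} (hrR : r < R) (hρ : ρ ∈ Icc 0 r) : circleMap 0 ρ θ ∈ ball (0 : ℂ) R := by
  rw [mem_ball_zero_iff, norm_cm, abs_of_nonneg hρ.1]
  exact hρ.2.trans_lt hrR

private lemma rad_point {h : ℂ → E} {R : ℝ} (hh : DifferentiableOn ℂ h (ball 0 R)) {r : ℝ} (hr : 0 ≤ r) (hrR : r < R) (θ : ℝ) :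
    ‖h (circleMap 0 r θ) - h 0‖ ^ 2 ≤ r * ∫ ρ in (0 : ℝ)..r, ‖deriv h (circleMap 0 ρ θ)‖ ^ 2 := by
  have hdc : ContinuousOn (deriv h) (ball 0 R) := (hh.deriv isOpen_ball).continuousOn
  have hcm : Continuous fun ρ : ℝ => circleMap 0 ρ θ := by
    unfold circleMap
    fun_prop
  have hc1 : ContinuousOn (fun ρ : ℝ => deriv h (circleMap 0 ρ θ)) (Icc 0 r) :=
    hdc.comp hcm.continuousOn fun ρ hρ => cm_mem hrR hρ
  have hder : ∀ ρ ∈ uIcc 0 r, HasDerivAt (fun ρ : ℝ => h (circleMap 0 ρ θ)) (Complex.exp (θ * Complex.I) • deriv h (circleMap 0 ρ θ)) ρ := by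
    intro ρ hρ
    rw [uIcc_of_le hr] at hρ
    have h1 : HasDerivAt h (deriv h (circleMap 0 ρ θ)) (circleMap 0 ρ θ) :=
      (hh.differentiableAt (isOpen_ball.mem_nhds (cm_mem hrR hρ))).hasDerivAt
    have h2 : HasDerivAt (fun ρ : ℝ => circleMap 0 ρ θ) (Complex.exp (θ * Complex.I)) ρ := by
      have h3 : HasDerivAt (fun ρ : ℝ => (ρ : ℂ) * Complex.exp (θ * Complex.I)) (1 * Complex.exp (θ * Complex.I)) ρ :=
        (Complex.ofRealCLM.hasDerivAt (x := ρ)).mul_const _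
      rw [one_mul] at h3
      refine h3.congr_of_eventuallyEq (Filter.Eventually.of_forall fun x => ?_)
      simp [circleMap]
    exact h1.scomp ρ h2
  have hint : IntervalIntegrable (fun ρ : ℝ => Complex.exp (θ * Complex.I) • deriv h (circleMap 0 ρ θ)) volume 0 r := by
    apply ContinuousOn.intervalIntegrable
    rw [uIcc_of_le hr]
    exact hc1.const_smul _
  have h1 := intervalIntegral.integral_eq_sub_of_hasDerivAt hder hint
  have h0 : circleMap 0 0 θ = 0 := by simp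
  rw [h0] at h1
  rw [← h1]
  have h2 : ‖∫ ρ in (0 : ℝ)..r, Complex.exp (θ * Complex.I) • deriv h (circleMap 0 ρ θ)‖ ≤
      ∫ ρ in (0 : ℝ)..r, ‖deriv h (circleMap 0 ρ θ)‖ := by
    refine (intervalIntegral.norm_integral_le_integral_norm hr).trans (le_of_eq ?_)
    refine intervalIntegral.integral_congr fun ρ _ => ?_
    rw [norm_smul, Complex.norm_exp_ofReal_mul_I, one_mul]
  exact (pow_le_pow_left₀ (norm_nonneg _) h2 2).trans (sq_integral_le hr hc1.norm)

/-- The mean of `‖h - h 0‖ ^ 2` over the circle of radius `r` is at most `r` times the integral over `[0, r]` of the means of `‖h'‖ ^ 2`. -/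
theorem mean_sq_le {h : ℂ → E} {R : ℝ} (hh : DifferentiableOn ℂ h (ball 0 R)) {r : ℝ} (hr : 0 ≤ r) (hrR : r < R) :
    circleAverage (fun z => ‖h z - h 0‖ ^ 2) 0 r ≤ r * ∫ ρ in (0 : ℝ)..r, circleAverage (fun z => ‖deriv h z‖ ^ 2) 0 ρ := by
  have hdc : ContinuousOn (deriv h) (ball 0 R) := (hh.deriv isOpen_ball).continuousOn
  have hcm : Continuous fun p : ℝ × ℝ => circleMap 0 p.1 p.2 := by
    unfold circleMap
    fun_prop
  have hF : ContinuousOn (Function.uncurry fun ρ θ : ℝ => ‖deriv h (circleMap 0 ρ θ)‖ ^ 2) (Icc 0 r ×ˢ Icc 0 (2 * π)) := by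
    refine (ContinuousOn.norm ?_).pow 2
    exact hdc.comp hcm.continuousOn fun p hp => cm_mem hrR hp.1
  have hpi : (0 : ℝ) ≤ 2 * π := by positivity
  have hFi : IntegrableOn (Function.uncurry fun ρ θ : ℝ => ‖deriv h (circleMap 0 ρ θ)‖ ^ 2) (uIoc 0 r ×ˢ uIoc 0 (2 * π)) := by
    refine (hF.integrableOn_compact (isCompact_Icc.prod isCompact_Icc)).mono_set ?_
    rw [uIoc_of_le hr, uIoc_of_le hpi]
    exact prod_mono Ioc_subset_Icc_self Ioc_subset_Icc_self
  have hswap := intervalIntegral_intervalIntegral_swap hFi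
  have hR : r * ∫ ρ in (0 : ℝ)..r, circleAverage (fun z => ‖deriv h z‖ ^ 2) 0 ρ =
      (2 * π)⁻¹ * ∫ θ in (0 : ℝ)..2 * π, r * ∫ ρ in (0 : ℝ)..r, ‖deriv h (circleMap 0 ρ θ)‖ ^ 2 := by
    rw [intervalIntegral.integral_const_mul, ← hswap]
    simp only [circleAverage_def, smul_eq_mul, intervalIntegral.integral_const_mul]
    ring
  rw [hR, circleAverage_def, smul_eq_mul]
  refine mul_le_mul_of_nonneg_left ?_ (by positivity)
  have hsph : ContinuousOn (fun θ : ℝ => ‖h (circleMap 0 r θ) - h 0‖ ^ 2) (uIcc 0 (2 * π)) := by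
    refine ((ContinuousOn.sub ?_ continuousOn_const).norm).pow 2
    refine hh.continuousOn.comp (by fun_prop) fun θ _ => cm_mem hrR ⟨hr, le_rfl⟩
  refine intervalIntegral.integral_mono_on hpi hsph.intervalIntegrable ?_ fun θ _ => rad_point hh hr hrR θ
  -- the right side is integrable
  have h1 : IntegrableOn (Function.uncurry fun θ ρ : ℝ => ‖deriv h (circleMap 0 ρ θ)‖ ^ 2) (Ioc 0 (2 * π) ×ˢ Ioc 0 r) := by
    have h2 := hFi
    rw [uIoc_of_le hr, uIoc_of_le hpi] at h2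
    have h3 := h2.swap
    exact h3
  rw [intervalIntegrable_iff_integrableOn_Ioc_of_le hpi]
  have h4 : IntegrableOn (fun θ : ℝ => ∫ ρ in Ioc 0 r, ‖deriv h (circleMap 0 ρ θ)‖ ^ 2) (Ioc 0 (2 * π)) := by
    have h5 : Integrable (Function.uncurry fun θ ρ : ℝ => ‖deriv h (circleMap 0 ρ θ)‖ ^ 2)
        ((volume.restrict (Ioc 0 (2 * π))).prod (volume.restrict (Ioc 0 r))) := by
      rw [Measure.prod_restrict, ← Measure.volume_eq_prod]
      exact h1
    exact h5.integral_prod_left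
  refine (h4.const_mul r).congr (Filter.Eventually.of_forall fun θ => ?_)
  simp only
  rw [intervalIntegral.integral_of_le hr]

end Pool.Agent.H56.G3

end

section

/-!
# G3 HL: a Harnack inequality from a root-log estimate and two Jensen inequalities (linear Gronwall)
-/

set_option autoImplicit false

open Set MeasureTheory Metric Real

namespace Pool.Agent.H56.G3

/-- Gronwall -/
private lemma gron {a : ℝ → ℝ} {E K r₀ : ℝ} (ha : ContinuousOn a (Icc 0 r₀)) (hK : 0 ≤ K) (hE : 0 ≤ E)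
    (h : ∀ r ∈ Icc 0 r₀, a r ≤ K * (E + ∫ ρ in (0 : ℝ)..r, a ρ)) {r : ℝ} (hr : r ∈ Icc 0 r₀) :
    E + ∫ ρ in (0 : ℝ)..r, a ρ ≤ E * Real.exp (K * r) := by
  have hr₀ : 0 ≤ r₀ := hr.1.trans hr.2
  have hAc : ContinuousOn (fun r => ∫ ρ in (0 : ℝ)..r, a ρ) (Icc 0 r₀) := by
    have h1 := intervalIntegral.continuousOn_primitive_interval (a := 0) (b := r₀) (f := a) (μ := volume)
      (by rw [uIcc_of_le hr₀]; exact ha.integrableOn_compact isCompact_Icc)
    rwa [uIcc_of_le hr₀] at h1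
  have hAd : ∀ x ∈ Ioo 0 r₀, HasDerivAt (fun r => ∫ ρ in (0 : ℝ)..r, a ρ) (a x) x := by
    intro x hx
    refine intervalIntegral.integral_hasDerivAt_right ?_ ?_ ?_
    · apply ContinuousOn.intervalIntegrable
      rw [uIcc_of_le hx.1.le]
      exact ha.mono (Icc_subset_Icc le_rfl hx.2.le)
    · exact ContinuousOn.stronglyMeasurableAtFilter_nhdsWithin (ha.mono Ioo_subset_Icc_self) measurableSet_Ioo x |>.filter_mono
        (by rw [isOpen_Ioo.nhdsWithin_eq hx])
    · exact ha.continuousAt (Icc_mem_nhds hx.1 hx.2)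
  obtain ⟨g, hg⟩ : ∃ g : ℝ → ℝ, g = fun r => (E + ∫ ρ in (0 : ℝ)..r, a ρ) * Real.exp (-(K * r)) := ⟨_, rfl⟩
  have hgd : ∀ x ∈ Ioo 0 r₀, HasDerivAt g (a x * Real.exp (-(K * x)) + (E + ∫ ρ in (0 : ℝ)..x, a ρ) * (Real.exp (-(K * x)) * -K)) x := by
    intro x hx
    rw [hg]
    have h1 : HasDerivAt (fun r => Real.exp (-(K * r))) (Real.exp (-(K * x)) * -K) x := by
      have h2 : HasDerivAt (fun r => -(K * r)) (-K) x := by
        have h3 : HasDerivAt (fun r : ℝ => -K * r) (-K) x := by simpa using (hasDerivAt_id x).const_mul (-K)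
        refine h3.congr_of_eventuallyEq (Filter.Eventually.of_forall fun y => ?_)
        simp only
        ring
      exact h2.exp
    exact ((hAd x hx).const_add E).mul h1
  have hanti : AntitoneOn g (Icc 0 r₀) := by
    refine antitoneOn_of_deriv_nonpos (convex_Icc 0 r₀) ?_ ?_ ?_
    · rw [hg]
      exact (continuousOn_const.add hAc).mul (by fun_prop)
    · rw [interior_Icc]
      exact fun x hx => (hgd x hx).differentiableAt.differentiableWithinAt
    · rw [interior_Icc]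
      intro x hx
      rw [(hgd x hx).deriv]
      have h1 := h x ⟨hx.1.le, hx.2.le⟩
      have h2 := Real.exp_pos (-(K * x))
      nlinarith only [h1, h2]
  have h1 := hanti ⟨le_rfl, hr₀⟩ hr hr.1
  rw [hg] at h1
  simp only [intervalIntegral.integral_same, mul_zero, neg_zero, Real.exp_zero, mul_one, add_zero] at h1
  have h2 := Real.exp_pos (K * r)
  have h3 : Real.exp (-(K * r)) * Real.exp (K * r) = 1 := by rw [← Real.exp_add, neg_add_cancel, Real.exp_zero]
  calc E + ∫ ρ in (0 : ℝ)..r, a ρ = ((E + ∫ ρ in (0 : ℝ)..r, a ρ) * Real.exp (-(K * r))) * Real.exp (K * r) := by rw [mul_assoc, h3, mul_one]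
    _ ≤ E * Real.exp (K * r) := mul_le_mul_of_nonneg_right h1 h2.le

/-- the positive part of `P` -/
private lemma pos_le {P v C m ε : ℝ} (hm : 0 < m) (hC : 0 < C) (hε : 0 < ε) (hv : 1 ≤ v) (h : Real.exp (2 * P / m) ≤ C * v) :
    max P 0 ≤ m / 2 * (ε * (C * v)) + m / 2 * |Real.log ε| := by
  have h0 : 0 < C * v := by positivity
  refine max_le ?_ (by positivity)
  have h1 : 2 * P / m ≤ Real.log (C * v) := by rwa [Real.le_log_iff_exp_le h0]
  have h2 : Real.log (ε * (C * v)) ≤ ε * (C * v) - 1 := Real.log_le_sub_one_of_pos (by positivity)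
  rw [Real.log_mul hε.ne' h0.ne'] at h2
  have h3 := neg_abs_le (Real.log ε)
  have h4 : 2 * P / m ≤ ε * (C * v) + |Real.log ε| := by linarith only [h1, h2, h3]
  rw [div_le_iff₀ hm] at h4
  linarith only [h4]

private lemma ca_mono_ae {f g : ℂ → ℝ} {r : ℝ} (hf : CircleIntegrable f 0 r) (hg : CircleIntegrable g 0 r)
    (h : ∀ᵐ θ : ℝ, f (circleMap 0 r θ) ≤ g (circleMap 0 r θ)) : circleAverage f 0 r ≤ circleAverage g 0 r := by
  rw [circleAverage_def, circleAverage_def, smul_eq_mul, smul_eq_mul]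
  refine mul_le_mul_of_nonneg_left ?_ (by positivity)
  exact intervalIntegral.integral_mono_ae (by positivity) hf hg h

/-- **Harnack inequality.**  `L ≥ 0` and `P` are functions on the unit disc, `T ≥ 0` and `h` is holomorphic.  If `‖h'‖ ^ 2` and `exp (2 P / m)` are
at most `C (1 + L + P⁻)` on the disc of radius `1/2`, and if `L`, `P` satisfy the Jensen inequalities with the characteristic `T`, then the means of `‖h'‖ ^ 2`, `L`, `P⁻` over the
circles of radius at most `1/2` are bounded by a constant times `1 + L 0 + P⁻ 0`. -/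
theorem harnack (m c C : ℝ) (hm : 0 < m) (hc : 0 < c) (hC : 0 < C) : ∃ C' : ℝ, 0 < C' ∧
    ∀ (W : Type) [NormedAddCommGroup W] [NormedSpace ℂ W] [CompleteSpace W] (h : ℂ → W) (L P : ℂ → ℝ) (T : ℝ → ℝ),
      DifferentiableOn ℂ h (ball 0 1) → (∀ z, 0 ≤ L z) → (∀ r, 0 < r → r ≤ 1 / 2 → CircleIntegrable L 0 r) →
      (∀ r, 0 < r → r ≤ 1 / 2 → CircleIntegrable P 0 r) → (∀ r, 0 < r → r ≤ 1 / 2 → 0 ≤ T r) →
      (∀ r, 0 < r → r ≤ 1 / 2 → ∀ᵐ θ : ℝ, ‖deriv h (circleMap 0 r θ)‖ ^ 2 ≤ C * (1 + L (circleMap 0 r θ) + max (-P (circleMap 0 r θ)) 0) ∧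
        Real.exp (2 * P (circleMap 0 r θ) / m) ≤ C * (1 + L (circleMap 0 r θ) + max (-P (circleMap 0 r θ)) 0)) →
      (∀ r, 0 < r → r ≤ 1 / 2 → circleAverage L 0 r ≤ L 0 + C * T r) →
      (∀ r, 0 < r → r ≤ 1 / 2 → P 0 + c * T r - C * circleAverage (fun z => ‖h z - h 0‖ ^ 2) 0 r ≤ circleAverage P 0 r) →
      ∀ r, 0 < r → r ≤ 1 / 2 → circleAverage (fun z => ‖deriv h z‖ ^ 2) 0 r ≤ C' * (1 + L 0 + max (-P 0) 0) ∧
        circleAverage L 0 r ≤ C' * (1 + L 0 + max (-P 0) 0) ∧ circleAverage (fun z => max (-P z) 0) 0 r ≤ C' * (1 + L 0 + max (-P 0) 0) := by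
  -- constants
  obtain ⟨D, hD⟩ : ∃ D : ℝ, D = 1 + C / c := ⟨_, rfl⟩
  have hD1 : 1 ≤ D := by
    rw [hD]
    have : 0 < C / c := by positivity
    linarith only [this]
  have hD0 : 0 < D := by linarith only [hD1]
  obtain ⟨ε, hε⟩ : ∃ ε : ℝ, ε = 1 / (m * C * D) := ⟨_, rfl⟩
  have hε0 : 0 < ε := by rw [hε]; positivity
  obtain ⟨K₀, hK₀⟩ : ∃ K₀ : ℝ, K₀ = m / 2 * |Real.log ε| := ⟨_, rfl⟩
  have hK₀0 : 0 ≤ K₀ := by rw [hK₀]; positivity
  obtain ⟨K₁, hK₁⟩ : ∃ K₁ : ℝ, K₁ = 2 * (1 + D * (K₀ + 1 + C)) := ⟨_, rfl⟩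
  have hK₁0 : 0 < K₁ := by rw [hK₁]; positivity
  obtain ⟨K₂, hK₂⟩ : ∃ K₂ : ℝ, K₂ = C * K₁ := ⟨_, rfl⟩
  have hK₂0 : 0 < K₂ := by rw [hK₂]; positivity
  refine ⟨(K₁ + K₂) * Real.exp K₂, by positivity, ?_⟩
  intro W _ _ _ h L P T hh hL0 hLi hPi hT0 hroot hJL hJP
  obtain ⟨E, hE⟩ : ∃ E : ℝ, E = 1 + L 0 + max (-P 0) 0 := ⟨_, rfl⟩
  have hP0 : 0 ≤ max (-P 0) 0 := le_max_right _ _
  have hE1 : 1 ≤ E := by
    rw [hE]
    have := hL0 0
    linarith only [hP0, this]
  rw [← hE]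
  obtain ⟨a, ha⟩ : ∃ a : ℝ → ℝ, a = circleAverage (fun z => ‖deriv h z‖ ^ 2) 0 := ⟨_, rfl⟩
  have hdc : ContinuousOn (deriv h) (ball 0 1) := (hh.deriv isOpen_ball).continuousOn
  have hac : ContinuousOn a (Icc 0 (1 / 2)) := by
    rw [ha]
    refine ContinuousOn.circleAverage ((hdc.norm.pow 2).mono ?_) fun t ht => ht.1
    intro z hz
    simp only [mem_ofPred_eq, sub_zero, mem_Icc] at hz
    rw [mem_ball_zero_iff]
    linarith only [hz, hz.2]
  have ha0 : ∀ r, 0 ≤ a r := by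
    intro r
    rw [ha]
    exact circleAverage_nonneg_of_nonneg fun z _ => sq_nonneg _
  -- the main estimate
  have hmain : ∀ r, 0 < r → r ≤ 1 / 2 → circleAverage L 0 r ≤ K₁ * (E + ∫ ρ in (0 : ℝ)..r, a ρ) ∧
      circleAverage (fun z => max (-P z) 0) 0 r ≤ K₁ * (E + ∫ ρ in (0 : ℝ)..r, a ρ) ∧ a r ≤ K₂ * (E + ∫ ρ in (0 : ℝ)..r, a ρ) := by
    intro r hr hr1
    have hLr := hLi r hr hr1
    have hPr := hPi r hr hr1
    have hPn : CircleIntegrable (fun z => max (-P z) 0) 0 r := by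
      have h1 : CircleIntegrable (fun z => -P z) 0 r := hPr.neg
      have h2 : IntervalIntegrable (fun θ => -P (circleMap 0 r θ)) volume 0 (2 * π) := h1
      have h3 : IntegrableOn (fun θ => -P (circleMap 0 r θ)) (Ioc 0 (2 * π)) := by
        rwa [intervalIntegrable_iff_integrableOn_Ioc_of_le (by positivity)] at h2
      show IntervalIntegrable (fun θ => max (-P (circleMap 0 r θ)) 0) volume 0 (2 * π)
      rw [intervalIntegrable_iff_integrableOn_Ioc_of_le (by positivity)]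
      exact Integrable.pos_part h3
    have hPp : CircleIntegrable (fun z => max (P z) 0) 0 r := by
      have h2 : IntervalIntegrable (fun θ => P (circleMap 0 r θ)) volume 0 (2 * π) := hPr
      have h3 : IntegrableOn (fun θ => P (circleMap 0 r θ)) (Ioc 0 (2 * π)) := by
        rwa [intervalIntegrable_iff_integrableOn_Ioc_of_le (by positivity)] at h2
      show IntervalIntegrable (fun θ => max (P (circleMap 0 r θ)) 0) volume 0 (2 * π)
      rw [intervalIntegrable_iff_integrableOn_Ioc_of_le (by positivity)]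
      exact Integrable.pos_part h3
    have h1i : CircleIntegrable (fun _ : ℂ => (1 : ℝ)) 0 r := circleIntegrable_const _ _ _
    obtain ⟨ℓ, hℓ⟩ : ∃ ℓ : ℝ, ℓ = circleAverage L 0 r := ⟨_, rfl⟩
    obtain ⟨q, hq⟩ : ∃ q : ℝ, q = circleAverage (fun z => max (-P z) 0) 0 r := ⟨_, rfl⟩
    obtain ⟨p, hp⟩ : ∃ p : ℝ, p = circleAverage (fun z => max (P z) 0) 0 r := ⟨_, rfl⟩
    have hℓ0 : 0 ≤ ℓ := by rw [hℓ]; exact circleAverage_nonneg_of_nonneg fun z _ => hL0 z
    have hq0 : 0 ≤ q := by rw [hq]; exact circleAverage_nonneg_of_nonneg fun z _ => le_max_right _ _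
    have hpq : circleAverage P 0 r = p - q := by
      rw [hp, hq, ← circleAverage_fun_sub hPp hPn]
      congr 1
      funext z
      rcases le_total (P z) 0 with h3 | h3
      · rw [max_eq_right h3, max_eq_left (by linarith only [h3])]
        ring
      · rw [max_eq_left h3, max_eq_right (by linarith only [h3])]
        ring
    have hvi : CircleIntegrable (fun z => 1 + L z + max (-P z) 0) 0 r := (h1i.add hLr).add hPn
    have hv : circleAverage (fun z => 1 + L z + max (-P z) 0) 0 r = 1 + ℓ + q := by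
      rw [circleAverage_fun_add (f₁ := fun z => 1 + L z) (h1i.add hLr) hPn, circleAverage_fun_add h1i hLr, circleAverage_const, hℓ, hq]
    -- the three comparisons
    have hsm : ContinuousOn (fun z => ‖deriv h z‖ ^ 2) (sphere 0 r) := by
      refine (hdc.norm.pow 2).mono fun z hz => ?_
      rw [mem_sphere_zero_iff_norm] at hz
      rw [mem_ball_zero_iff]
      linarith only [hr, hr1, hz]
    have hai : CircleIntegrable (fun z => ‖deriv h z‖ ^ 2) 0 r := hsm.circleIntegrable hr.le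
    have hcv : ∀ b : ℝ, CircleIntegrable (fun z => b * (1 + L z + max (-P z) 0)) 0 r := fun b => by
      have := hvi.const_mul b
      exact this
    have hca : ∀ b : ℝ, circleAverage (fun z => b * (1 + L z + max (-P z) 0)) 0 r = b * (1 + ℓ + q) := fun b => by
      rw [← hv]
      exact circleAverage_fun_smul (a := b) (f := fun z => 1 + L z + max (-P z) 0)
    have har : a r ≤ C * (1 + ℓ + q) := by
      rw [ha, ← hca C]
      refine ca_mono_ae hai (hcv C) ?_
      filter_upwards [hroot r hr hr1] with θ hθ using hθ.1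
    have hpr : p ≤ 1 / (2 * D) * (1 + ℓ + q) + K₀ := by
      have h2 : circleAverage (fun z => 1 / (2 * D) * (1 + L z + max (-P z) 0) + K₀) 0 r = 1 / (2 * D) * (1 + ℓ + q) + K₀ := by
        rw [circleAverage_fun_add (f₁ := fun z => 1 / (2 * D) * (1 + L z + max (-P z) 0)) (hcv _) (circleIntegrable_const _ _ _), hca, circleAverage_const]
      rw [hp, ← h2]
      refine ca_mono_ae hPp ((hcv _).add (circleIntegrable_const _ _ _)) ?_
      filter_upwards [hroot r hr hr1] with θ hθ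
      have h3 : 1 ≤ 1 + L (circleMap 0 r θ) + max (-P (circleMap 0 r θ)) 0 := by
        have h4 := hL0 (circleMap 0 r θ)
        have h5 : 0 ≤ max (-P (circleMap 0 r θ)) 0 := le_max_right _ _
        linarith only [h4, h5]
      have h4 := pos_le hm hC hε0 h3 hθ.2
      rw [← hK₀] at h4
      refine h4.trans (le_of_eq ?_)
      rw [hε]
      field_simp
    -- the Jensen inequalities
    have hH : circleAverage (fun z => ‖h z - h 0‖ ^ 2) 0 r ≤ ∫ ρ in (0 : ℝ)..r, a ρ := by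
      have h2 := mean_sq_le hh hr.le (by linarith only [hr, hr1] : r < 1)
      rw [← ha] at h2
      have h3 : 0 ≤ ∫ ρ in (0 : ℝ)..r, a ρ := intervalIntegral.integral_nonneg hr.le fun ρ _ => ha0 ρ
      nlinarith only [h2, h3, hr1]
    have hj1 := hJL r hr hr1
    have hj2 := hJP r hr hr1
    have hT := hT0 r hr hr1
    obtain ⟨I, hI⟩ : ∃ I : ℝ, I = ∫ ρ in (0 : ℝ)..r, a ρ := ⟨_, rfl⟩
    have hI0 : 0 ≤ I := by rw [hI]; exact intervalIntegral.integral_nonneg hr.le fun ρ _ => ha0 ρ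
    rw [← hI] at hH ⊢
    rw [← hℓ] at hj1 ⊢
    rw [← hq]
    rw [hpq] at hj2
    have hnP : -P 0 ≤ max (-P 0) 0 := le_max_left _ _
    have hCH : C * circleAverage (fun z => ‖h z - h 0‖ ^ 2) 0 r ≤ C * I := mul_le_mul_of_nonneg_left hH hC.le
    have h5 : c * T r + q ≤ p + max (-P 0) 0 + C * I := by linarith only [hj2, hnP, hCH]
    have h6 : ℓ + q ≤ L 0 + D * (p + max (-P 0) 0 + C * I) := by
      have h7 : C * T r ≤ C / c * (p + max (-P 0) 0 + C * I - q) := by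
        have h8 : T r ≤ (p + max (-P 0) 0 + C * I - q) / c := by
          rw [le_div_iff₀ hc]
          linarith only [hj2, hnP, hCH]
        have h9 := mul_le_mul_of_nonneg_left h8 hC.le
        calc C * T r ≤ _ := h9
          _ = _ := by ring
      have h10 : q ≤ p + max (-P 0) 0 + C * I := by
        have : 0 ≤ c * T r := by positivity
        linarith only [hj2, hnP, hCH, this]
      have h11 : 0 ≤ C / c * q := by positivity
      rw [hD]
      linarith only [hj1, h7, h10, h11]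
    have h7 : D * p ≤ 1 / 2 * (1 + ℓ + q) + D * K₀ := by
      have h8 := mul_le_mul_of_nonneg_left hpr hD0.le
      have h9 : D * (1 / (2 * D) * (1 + ℓ + q) + K₀) = 1 / 2 * (1 + ℓ + q) + D * K₀ := by
        field_simp
      linarith only [h8, h9]
    have hyE : 1 + ℓ + q ≤ K₁ * (E + I) := by
      have h8 : 1 / 2 * (1 + ℓ + q) ≤ 1 + L 0 + D * (K₀ + max (-P 0) 0 + C * I) := by linarith only [h6, h7]
      have h9 : L 0 ≤ E := by rw [hE]; linarith only [hP0, hr, hr1]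
      have h10 : max (-P 0) 0 ≤ E := by rw [hE]; linarith only [hr, hr1, hL0, hL0 0]
      have h11 : K₀ + max (-P 0) 0 + C * I ≤ (K₀ + 1 + C) * (E + I) := by
        have e1 : K₀ ≤ K₀ * (E + I) := le_mul_of_one_le_right hK₀0 (by linarith only [hE1, hI0])
        have e2 : C * I ≤ C * (E + I) := mul_le_mul_of_nonneg_left (by linarith only [hE1, hr, hr1]) hC.le
        linarith only [hI0, h10, e1, e2]
      have h12 := mul_le_mul_of_nonneg_left h11 hD0.le
      have h13 : 1 + L 0 ≤ E + I := by rw [hE]; linarith only [hP0, hI0]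
      rw [hK₁]
      linarith only [hE, hP0, hI0, h6, h7, h12]
    refine ⟨by linarith only [hr, hr1, hq0, hyE], by linarith only [hr, hr1, hℓ0, hyE], ?_⟩
    rw [hK₂, mul_assoc]
    exact har.trans (mul_le_mul_of_nonneg_left hyE hC.le)
  -- Gronwall
  have ha00 : a 0 ≤ K₂ * (E + ∫ ρ in (0 : ℝ)..0, a ρ) := by
    have h1 : Filter.Tendsto a (nhdsWithin 0 (Ioi 0)) (nhds (a 0)) := by
      refine (hac 0 ⟨le_rfl, by norm_num⟩).mono_left (nhdsWithin_le_of_mem ?_)
      exact Filter.mem_of_superset (Ioo_mem_nhdsGT (show (0 : ℝ) < 1 / 2 by norm_num)) fun x hx => ⟨hx.1.le, hx.2.le⟩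
    have h2 : Filter.Tendsto (fun r => K₂ * (E + ∫ ρ in (0 : ℝ)..r, a ρ)) (nhdsWithin 0 (Ioi 0)) (nhds (K₂ * (E + ∫ ρ in (0 : ℝ)..0, a ρ))) := by
      have h3 := intervalIntegral.continuousOn_primitive_interval (a := 0) (b := 1 / 2) (f := a) (μ := volume)
        (by rw [uIcc_of_le (by norm_num : (0 : ℝ) ≤ 1 / 2)]; exact hac.integrableOn_compact isCompact_Icc)
      rw [uIcc_of_le (by norm_num : (0 : ℝ) ≤ 1 / 2)] at h3
      have h4 : Filter.Tendsto (fun r => ∫ ρ in (0 : ℝ)..r, a ρ) (nhdsWithin 0 (Ioi 0)) (nhds (∫ ρ in (0 : ℝ)..0, a ρ)) := by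
        refine (h3 0 ⟨le_rfl, by norm_num⟩).mono_left (nhdsWithin_le_of_mem ?_)
        exact Filter.mem_of_superset (Ioo_mem_nhdsGT (show (0 : ℝ) < 1 / 2 by norm_num)) fun x hx => ⟨hx.1.le, hx.2.le⟩
      exact (h4.const_add E).const_mul K₂
    refine le_of_tendsto_of_tendsto h1 h2 ?_
    filter_upwards [Ioo_mem_nhdsGT (show (0 : ℝ) < 1 / 2 by norm_num)] with x hx
    exact (hmain x hx.1 hx.2.le).2.2
  have hgr : ∀ r, 0 < r → r ≤ 1 / 2 → E + ∫ ρ in (0 : ℝ)..r, a ρ ≤ E * Real.exp K₂ := by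
    intro r hr hr1
    have h1 := gron hac hK₂0.le (by linarith only [hE1, hr, hr1] : 0 ≤ E) (fun s hs => by
      rcases hs.1.eq_or_lt with h2 | h2
      · rw [← h2]
        exact ha00
      · exact (hmain s h2 hs.2).2.2) (⟨hr.le, hr1⟩ : r ∈ Icc 0 (1 / 2))
    refine h1.trans (mul_le_mul_of_nonneg_left (Real.exp_le_exp.2 ?_) (by linarith only [hE1, hr, hr1]))
    nlinarith only [hK₂0, hr1]
  intro r hr hr1
  obtain ⟨h1, h2, h3⟩ := hmain r hr hr1
  have h4 := hgr r hr hr1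
  have hex : 0 < Real.exp K₂ := Real.exp_pos _
  have h5 : K₁ * (E + ∫ ρ in (0 : ℝ)..r, a ρ) ≤ (K₁ + K₂) * Real.exp K₂ * E := by
    have h6 := mul_le_mul_of_nonneg_left h4 hK₁0.le
    have h7 : 0 ≤ K₂ * (E * Real.exp K₂) := by positivity
    nlinarith only [h6, h7]
  have h6 : K₂ * (E + ∫ ρ in (0 : ℝ)..r, a ρ) ≤ (K₁ + K₂) * Real.exp K₂ * E := by
    have h6 := mul_le_mul_of_nonneg_left h4 hK₂0.le
    have h7 : 0 ≤ K₁ * (E * Real.exp K₂) := by positivity
    nlinarith only [h6, h7]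
  have har : circleAverage (fun z => ‖deriv h z‖ ^ 2) 0 r = a r := by rw [ha]
  rw [har]
  exact ⟨h3.trans h6, h1.trans h5, h2.trans h5⟩

end Pool.Agent.H56.G3

end

section

/-!
# EL Ext: extension of a holomorphic function from an annulus to the disc

Let `z` be in the annulus, `r₁ < r < ‖z - b‖ < r' < r₂`.
(1) `∮ ζ in C(b, r), J ζ / (ζ - z) = 0`: on the circle `1 / (ζ - z) = - Σ_n (ζ - b)^n / (z - b)^(n+1)` (geometric series,
`|ζ - b| / |z - b| = q < 1`), the partial sums `P_n` satisfy `|1 / (ζ - z) - P_n ζ| ≤ q^n / (‖z - b‖ - r)` on the circle, and `∮ J P_n = 0`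
by `h0`; so `|∮ J ζ / (ζ - z)| ≤ 2 π r (sup |J|) q^n / (‖z - b‖ - r)` for all `n`.
(2) Cauchy's formula for the annulus: `g ζ = dslope J z ζ` (`= (J ζ - J z) / (ζ - z)` for `ζ ≠ z`) is holomorphic on the annulus, so
`∮_{C(b,r')} g = ∮_{C(b,r)} g` (`Complex.circleIntegral_eq_of_differentiable_on_annulus_off_countable`), and `∮_{C(b,r')} 1 / (ζ - z) = 2 π i`
(`circleIntegral.integral_sub_inv_of_mem_ball`), `∮_{C(b,r)} 1 / (ζ - z) = 0` (holomorphic on the closed disc, as `‖z - b‖ > r`).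
So `2 π i J z = ∮_{C(b,r')} J ζ / (ζ - z)`.
(3) The function `J'_{r'} z = (2 π i)⁻¹ ∮_{C(b,r')} J ζ / (ζ - z)` is holomorphic on `ball b r'` (Cauchy transform of a continuous function:
`hasFPowerSeriesOn_cauchy_integral`, `DifferentiableOn`), and equal to `J` for `r₁ < ‖z - b‖ < r'`.  For different `r'` these functions agree on a
common annulus, so (identity theorem, the disc is connected) everywhere on the smaller disc: they define a holomorphic function on `ball b r₂`.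
(Or: `J' z := J z` if `‖z - b‖ > (r₁ + r₂)/2` and `J' z := J'_{r'} z` otherwise, with one fixed `r' ∈ ((r₁ + r₂)/2, r₂)`.)
-/

set_option autoImplicit false

open Topology Filter Metric

namespace Pool.Agent.H62.EL

private theorem ext_open {b : ℂ} {r₁ r₂ : ℝ} : IsOpen {z : ℂ | r₁ < ‖z - b‖ ∧ ‖z - b‖ < r₂} := by
  have h1 : IsOpen {z : ℂ | r₁ < ‖z - b‖} := isOpen_lt continuous_const (by fun_prop)
  have h2 : IsOpen {z : ℂ | ‖z - b‖ < r₂} := isOpen_lt (by fun_prop) continuous_const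
  exact h1.inter h2

/-- The moments of `J / (ζ - z)` on a small circle vanish if the moments of `J` vanish and `z` is outside. -/
private theorem ext_inner {b z : ℂ} {r : ℝ} (hr : 0 < r) (hz : r < ‖z - b‖) {J : ℂ → ℂ}
    (hJ : ContinuousOn J (sphere b r))
    (h0 : ∀ n : ℕ, (∮ ζ in C(b, r), (ζ - b) ^ n * J ζ) = 0) :
    (∮ ζ in C(b, r), (ζ - z)⁻¹ * J ζ) = 0 := by
  have hne : ∀ ζ ∈ sphere b r, ζ - z ≠ 0 := by
    intro ζ hζ h
    rw [sub_eq_zero] at h
    rw [mem_sphere, dist_eq_norm, h] at hζ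
    linarith
  have hcI : ContinuousOn (fun ζ : ℂ => (ζ - z)⁻¹) (sphere b r) :=
    ContinuousOn.inv₀ (by fun_prop) hne
  have hcn : ∀ n : ℕ, ContinuousOn (fun ζ : ℂ => (ζ - b) ^ n * ((ζ - z)⁻¹ * J ζ)) (sphere b r) := by
    intro n
    exact ContinuousOn.mul (by fun_prop) (hcI.mul hJ)
  have hcJ : ∀ n : ℕ, ContinuousOn (fun ζ : ℂ => (ζ - b) ^ n * J ζ) (sphere b r) := by
    intro n
    exact ContinuousOn.mul (by fun_prop) hJ
  have hcz : ∀ n : ℕ, CircleIntegrable (fun ζ : ℂ => (z - b) * ((ζ - b) ^ n * ((ζ - z)⁻¹ * J ζ))) b r := by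
    intro n
    exact ContinuousOn.circleIntegrable hr.le (ContinuousOn.mul continuousOn_const (hcn n))
  have hstep : ∀ n : ℕ, (∮ ζ in C(b, r), (ζ - b) ^ n * ((ζ - z)⁻¹ * J ζ)) =
      (z - b) ^ n * ∮ ζ in C(b, r), (ζ - z)⁻¹ * J ζ := by
    intro n
    induction n with
    | zero => simp
    | succ n ih =>
      have h1 : (∮ ζ in C(b, r), (ζ - b) ^ (n + 1) * ((ζ - z)⁻¹ * J ζ)) =
          ∮ ζ in C(b, r), ((ζ - b) ^ n * J ζ + (z - b) * ((ζ - b) ^ n * ((ζ - z)⁻¹ * J ζ))) := by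
        refine circleIntegral.integral_congr hr.le ?_
        intro ζ hζ
        have h2 := hne ζ hζ
        simp only
        field_simp
        ring
      rw [h1, circleIntegral.integral_add ((hcJ n).circleIntegrable hr.le)
        (hcz n), h0 n, zero_add,
        circleIntegral.integral_const_mul, ih]
      ring
  obtain ⟨M, hM⟩ := (isCompact_sphere b r).exists_bound_of_continuousOn (hcI.mul hJ)
  have hbd : ∀ n : ℕ, ‖∮ ζ in C(b, r), (ζ - z)⁻¹ * J ζ‖ ≤ 2 * Real.pi * r * M * (r / ‖z - b‖) ^ n := by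
    intro n
    have h1 : ‖∮ ζ in C(b, r), (ζ - b) ^ n * ((ζ - z)⁻¹ * J ζ)‖ ≤ 2 * Real.pi * r * (r ^ n * M) := by
      refine circleIntegral.norm_integral_le_of_norm_le_const hr.le ?_
      intro ζ hζ
      rw [norm_mul, norm_pow]
      have h3 : ‖ζ - b‖ = r := by rwa [mem_sphere, dist_eq_norm] at hζ
      rw [h3]
      exact mul_le_mul_of_nonneg_left (hM ζ hζ) (by positivity)
    rw [hstep n, norm_mul, norm_pow] at h1
    have hp : 0 < ‖z - b‖ ^ n := pow_pos (hr.trans hz) n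
    rw [div_pow]
    have h2 : ‖∮ ζ in C(b, r), (ζ - z)⁻¹ * J ζ‖ ≤ 2 * Real.pi * r * (r ^ n * M) / ‖z - b‖ ^ n := by
      rw [le_div_iff₀ hp]
      linarith
    refine h2.trans (le_of_eq ?_)
    field_simp
  have hlim : Tendsto (fun n : ℕ => 2 * Real.pi * r * M * (r / ‖z - b‖) ^ n) atTop (𝓝 0) := by
    have := (tendsto_pow_atTop_nhds_zero_of_lt_one (r := r / ‖z - b‖) (by positivity)
      ((div_lt_one (hr.trans hz)).2 hz)).const_mul (2 * Real.pi * r * M)
    simpa using this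
  have := ge_of_tendsto' hlim hbd
  exact norm_le_zero_iff.1 this

/-- The Cauchy transform is holomorphic on the disc. -/
private theorem ext_transform {b : ℂ} {r : ℝ} (hr : 0 < r) {J : ℂ → ℂ} (hcJ : ContinuousOn J (sphere b r)) :
    DifferentiableOn ℂ (fun w => (2 * Real.pi * Complex.I : ℂ)⁻¹ • ∮ ζ in C(b, r), (ζ - w)⁻¹ • J ζ)
      (ball b r) := by
  lift r to NNReal using hr.le
  have h1 := hasFPowerSeriesOn_cauchy_integral (f := J) (c := b) (R := r)
    (hcJ.circleIntegrable hr.le) (by exact_mod_cast hr)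
  have h2 := h1.differentiableOn
  rw [eball_coe] at h2
  exact h2

/-- Cauchy's formula for the annulus. -/
private theorem ext_outer {b : ℂ} {r₁ r₂ : ℝ} (hr₁ : 0 < r₁) {J : ℂ → ℂ}
    (hJ : DifferentiableOn ℂ J {z | r₁ < ‖z - b‖ ∧ ‖z - b‖ < r₂})
    (h0 : ∀ (n : ℕ) (r : ℝ), r₁ < r → r < r₂ → (∮ z in C(b, r), (z - b) ^ n * J z) = 0)
    {r' : ℝ} (hr' : r' < r₂) {z : ℂ} (hz₁ : r₁ < ‖z - b‖) (hz₂ : ‖z - b‖ < r') :
    (2 * Real.pi * Complex.I : ℂ)⁻¹ • (∮ ζ in C(b, r'), (ζ - z)⁻¹ • J ζ) = J z := by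
  have hopen : IsOpen {z : ℂ | r₁ < ‖z - b‖ ∧ ‖z - b‖ < r₂} :=
    ext_open
  obtain ⟨r, hrr₁, hrz⟩ := exists_between hz₁
  have hr0 : 0 < r := hr₁.trans hrr₁
  have hr'0 : 0 < r' := hr0.trans (hrz.trans hz₂)
  have hsub : closedBall b r' \ ball b r ⊆ {z : ℂ | r₁ < ‖z - b‖ ∧ ‖z - b‖ < r₂} := by
    intro ζ hζ
    rw [Set.mem_sdiff, mem_closedBall, mem_ball, dist_eq_norm, not_lt] at hζ
    exact ⟨hrr₁.trans_le hζ.2, hζ.1.trans_lt hr'⟩
  have hzU : z ∈ {z : ℂ | r₁ < ‖z - b‖ ∧ ‖z - b‖ < r₂} := ⟨hz₁, hz₂.trans hr'⟩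
  have hzd : DifferentiableAt ℂ J z := hJ.differentiableAt (hopen.mem_nhds hzU)
  have hcd : ContinuousOn (dslope J z) {z : ℂ | r₁ < ‖z - b‖ ∧ ‖z - b‖ < r₂} :=
    (continuousOn_dslope (hopen.mem_nhds hzU)).2 ⟨hJ.continuousOn, hzd⟩
  have hsph : ∀ ρ : ℝ, r ≤ ρ → ρ ≤ r' → sphere b ρ ⊆ {z : ℂ | r₁ < ‖z - b‖ ∧ ‖z - b‖ < r₂} := by
    intro ρ h1 h2 ζ hζ
    rw [mem_sphere, dist_eq_norm] at hζ
    refine ⟨?_, ?_⟩
    · rw [hζ]; linarith
    · rw [hζ]; linarith
  have hkey : (∮ ζ in C(b, r'), dslope J z ζ) = ∮ ζ in C(b, r), dslope J z ζ := by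
    refine Complex.circleIntegral_eq_of_differentiable_on_annulus_off_countable hr0
      (hrz.trans hz₂).le (Set.countable_singleton z) (hcd.mono hsub) ?_
    rintro ζ ⟨⟨hζ1, hζ2⟩, hζ3⟩
    have hζU : ζ ∈ {z : ℂ | r₁ < ‖z - b‖ ∧ ‖z - b‖ < r₂} := by
      rw [mem_ball, dist_eq_norm] at hζ1
      rw [mem_closedBall, dist_eq_norm, not_le] at hζ2
      exact ⟨hrr₁.trans hζ2, hζ1.trans hr'⟩
    exact (differentiableAt_dslope_of_ne (by simpa using hζ3)).2
      (hJ.differentiableAt (hopen.mem_nhds hζU))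
  have hexp : ∀ ρ : ℝ, r ≤ ρ → ρ ≤ r' → ρ ≠ ‖z - b‖ →
      (∮ ζ in C(b, ρ), dslope J z ζ) =
        (∮ ζ in C(b, ρ), (ζ - z)⁻¹ * J ζ) - J z * ∮ ζ in C(b, ρ), (ζ - z)⁻¹ := by
    intro ρ h1 h2 h3
    have hρ : 0 ≤ ρ := hr0.le.trans h1
    have hne : ∀ ζ ∈ sphere b ρ, ζ ≠ z := by
      intro ζ hζ h
      rw [mem_sphere, dist_eq_norm, h] at hζ
      exact h3 hζ.symm
    have hcI : ContinuousOn (fun ζ : ℂ => (ζ - z)⁻¹) (sphere b ρ) :=
      ContinuousOn.inv₀ (by fun_prop) (fun ζ hζ => sub_ne_zero.2 (hne ζ hζ))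
    have hcJ : ContinuousOn J (sphere b ρ) := hJ.continuousOn.mono (hsph ρ h1 h2)
    have hi1 : CircleIntegrable (fun ζ : ℂ => (ζ - z)⁻¹ * J ζ) b ρ :=
      ContinuousOn.circleIntegrable hρ (ContinuousOn.mul hcI hcJ)
    have hi2 : CircleIntegrable (fun ζ : ℂ => J z * (ζ - z)⁻¹) b ρ :=
      ContinuousOn.circleIntegrable hρ (ContinuousOn.mul continuousOn_const hcI)
    rw [← circleIntegral.integral_const_mul, ← circleIntegral.integral_sub hi1 hi2]
    refine circleIntegral.integral_congr hρ ?_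
    intro ζ hζ
    simp only
    rw [dslope_of_ne _ (hne ζ hζ), slope_def_field]
    have h4 : ζ - z ≠ 0 := sub_ne_zero.2 (hne ζ hζ)
    field_simp
  have h1 := hexp r' (hrz.trans hz₂).le le_rfl hz₂.ne'
  have h2 := hexp r le_rfl (hrz.trans hz₂).le hrz.ne
  have h3 : (∮ ζ in C(b, r'), (ζ - z)⁻¹) = 2 * Real.pi * Complex.I :=
    circleIntegral.integral_sub_inv_of_mem_ball (by rwa [mem_ball, dist_eq_norm])
  have h4 : (∮ ζ in C(b, r), (ζ - z)⁻¹) = 0 := by
    have := ext_inner (b := b) (z := z) (r := r) hr0 hrz (J := fun _ => 1) continuousOn_const ?_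
    · simpa using this
    · intro n
      simp only [mul_one]
      have := circleIntegral.integral_sub_zpow_of_ne (n := (n : ℤ)) (by omega) b b r
      simpa using this
  have h5 : (∮ ζ in C(b, r), (ζ - z)⁻¹ * J ζ) = 0 :=
    ext_inner hr0 hrz (hJ.continuousOn.mono (hsph r le_rfl (hrz.trans hz₂).le))
      (fun n => h0 n r hrr₁ (by linarith))
  rw [h1, h2, h3, h4, h5] at hkey
  simp only [smul_eq_mul]
  have h6 : (∮ ζ in C(b, r'), (ζ - z)⁻¹ * J ζ) = J z * (2 * Real.pi * Complex.I) := by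
    linear_combination hkey
  rw [h6]
  have h7 : (2 * Real.pi * Complex.I : ℂ) ≠ 0 := Complex.two_pi_I_ne_zero
  field_simp

theorem ext_annulus {b : ℂ} {r₁ r₂ : ℝ} (hr₁ : 0 < r₁) (hr : r₁ < r₂) {J : ℂ → ℂ}
    (hJ : DifferentiableOn ℂ J {z | r₁ < ‖z - b‖ ∧ ‖z - b‖ < r₂})
    (h0 : ∀ (n : ℕ) (r : ℝ), r₁ < r → r < r₂ → (∮ z in C(b, r), (z - b) ^ n * J z) = 0) :
    ∃ J' : ℂ → ℂ, DifferentiableOn ℂ J' (ball b r₂) ∧ ∀ z, r₁ < ‖z - b‖ → ‖z - b‖ < r₂ → J' z = J z := by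
  have hopen : IsOpen {z : ℂ | r₁ < ‖z - b‖ ∧ ‖z - b‖ < r₂} :=
    ext_open
  obtain ⟨m, hm₁, hm₂⟩ := exists_between hr
  obtain ⟨r', hr'₁, hr'₂⟩ := exists_between hm₂
  have hr'0 : 0 < r' := hr₁.trans (hm₁.trans hr'₁)
  have hcJ : ContinuousOn J (sphere b r') := by
    refine hJ.continuousOn.mono ?_
    intro ζ hζ
    rw [mem_sphere, dist_eq_norm] at hζ
    exact ⟨by rw [hζ]; linarith, by rw [hζ]; linarith⟩
  let Φ : ℂ → ℂ := fun w => (2 * Real.pi * Complex.I : ℂ)⁻¹ • ∮ ζ in C(b, r'), (ζ - w)⁻¹ • J ζ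
  have hΦd : DifferentiableOn ℂ Φ (ball b r') := ext_transform hr'0 hcJ
  have hΦJ : ∀ z, r₁ < ‖z - b‖ → ‖z - b‖ < r' → Φ z = J z := fun z h1 h2 =>
    ext_outer hr₁ hJ h0 hr'₂ h1 h2
  classical
  let J' : ℂ → ℂ := fun z => if m < ‖z - b‖ then J z else Φ z
  have hJ'Φ : ∀ z ∈ ball b r', J' z = Φ z := by
    intro z hz
    rw [mem_ball, dist_eq_norm] at hz
    by_cases h : m < ‖z - b‖
    · simp only [J', if_pos h]
      exact (hΦJ z (hm₁.trans h) hz).symm
    · simp only [J', if_neg h]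
  have hJ'J : ∀ z, r₁ < ‖z - b‖ → J' z = J z := by
    intro z hz
    by_cases h : m < ‖z - b‖
    · simp only [J', if_pos h]
    · simp only [J', if_neg h]
      exact hΦJ z hz (by linarith)
  refine ⟨J', ?_, fun z hz _ => hJ'J z hz⟩
  intro z hz
  refine DifferentiableAt.differentiableWithinAt ?_
  rw [mem_ball, dist_eq_norm] at hz
  by_cases h : ‖z - b‖ < r'
  · have hzb : z ∈ ball b r' := by rwa [mem_ball, dist_eq_norm]
    exact (hΦd.differentiableAt (isOpen_ball.mem_nhds hzb)).congr_of_eventuallyEq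
      (eventuallyEq_of_mem (isOpen_ball.mem_nhds hzb) hJ'Φ)
  · have hzU : z ∈ {z : ℂ | r₁ < ‖z - b‖ ∧ ‖z - b‖ < r₂} := ⟨by linarith, hz⟩
    exact (hJ.differentiableAt (hopen.mem_nhds hzU)).congr_of_eventuallyEq
      (eventuallyEq_of_mem (hopen.mem_nhds hzU) (fun w hw => hJ'J w hw.1))

end Pool.Agent.H62.EL

end

section

/-!
# TG XDisc: the mean value property for a function which extends over finitely many small discs
-/

set_option autoImplicit false

open Topology Filter Metric MeasureTheory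

namespace Pool.Agent.TG

theorem disc_mean {j : ℂ → ℂ} {r s : ℝ} (hr : 0 < r) (hs : 0 < s) (Z : Finset ℂ) (hZ : ∀ ζ ∈ Z, s < ‖ζ‖ ∧ ‖ζ‖ + s < r)
    (hsep : ∀ ζ ∈ Z, ∀ ζ' ∈ Z, ζ ≠ ζ' → 2 * s ≤ ‖ζ - ζ'‖)
    (hj : ∀ z : ℂ, ‖z‖ ≤ r → (∀ ζ ∈ Z, s / 3 < ‖z - ζ‖) → DifferentiableAt ℂ j z)
    (hJ : ∀ ζ ∈ Z, ∃ J' : ℂ → ℂ, DifferentiableOn ℂ J' (ball 0 (2 * s / 3)) ∧ ∀ z : ℂ, s / 3 < ‖z‖ → ‖z‖ < 2 * s / 3 → J' z = j (ζ + z)) :
    (2 * Real.pi * Complex.I : ℂ)⁻¹ • (∮ z in C(0, r), (z - 0)⁻¹ • j z) = j 0 := by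
  classical
  choose! J' hJ'1 hJ'2 using hJ
  let g : ℂ → ℂ := fun z => if h : ∃ ζ ∈ Z, ‖z - ζ‖ < s / 2 then J' h.choose (z - h.choose) else j z
  have hone : ∀ ζ ∈ Z, ∀ ζ' ∈ Z, ∀ z : ℂ, ‖z - ζ‖ < 2 * s / 3 → ‖z - ζ'‖ < 2 * s / 3 → ζ = ζ' := by
    intro ζ hζ ζ' hζ' z h1 h2
    by_contra hne
    have h3 := hsep ζ hζ ζ' hζ' hne
    have h4 : ‖ζ - ζ'‖ ≤ ‖z - ζ‖ + ‖z - ζ'‖ := by
      have e : ζ - ζ' = (z - ζ') - (z - ζ) := by ring
      rw [e]
      refine (norm_sub_le _ _).trans (le_of_eq ?_)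
      ring
    linarith
  have hg1 : ∀ ζ ∈ Z, ∀ z ∈ ball ζ (2 * s / 3), g z = J' ζ (z - ζ) := by
    intro ζ hζ z hz
    rw [mem_ball, dist_eq_norm] at hz
    by_cases h : ∃ ζ ∈ Z, ‖z - ζ‖ < s / 2
    · have h1 : g z = J' h.choose (z - h.choose) := dif_pos h
      have h2 := h.choose_spec
      have h3 : h.choose = ζ := hone _ h2.1 _ hζ z (by linarith [h2.2]) hz
      rw [h1, h3]
    · have h1 : g z = j z := dif_neg h
      push Not at h
      rw [h1, hJ'2 ζ hζ (z - ζ) (by linarith [h ζ hζ]) hz]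
      congr 1
      ring
  have hg2 : ∀ z : ℂ, (∀ ζ ∈ Z, s / 3 < ‖z - ζ‖) → g z = j z := by
    intro z hz
    by_cases h : ∃ ζ ∈ Z, ‖z - ζ‖ < s / 2
    · have h1 : g z = J' h.choose (z - h.choose) := dif_pos h
      have h2 := h.choose_spec
      rw [h1, hJ'2 _ h2.1 (z - h.choose) (hz _ h2.1) (by linarith [h2.2])]
      congr 1
      ring
    · exact dif_neg h
  have hopen : IsOpen {z : ℂ | ∀ ζ ∈ Z, s / 3 < ‖z - ζ‖} := by
    have e : {z : ℂ | ∀ ζ ∈ Z, s / 3 < ‖z - ζ‖} = ⋂ ζ ∈ Z, {z : ℂ | s / 3 < ‖z - ζ‖} := by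
      ext z
      simp
    rw [e]
    exact isOpen_biInter_finset fun ζ _ => isOpen_lt continuous_const (by fun_prop)
  have hgd : ∀ z ∈ closedBall (0 : ℂ) r, DifferentiableAt ℂ g z := by
    intro z hz
    rw [mem_closedBall, dist_zero_right] at hz
    by_cases h : ∀ ζ ∈ Z, s / 3 < ‖z - ζ‖
    · refine (hj z hz h).congr_of_eventuallyEq ?_
      filter_upwards [hopen.mem_nhds h] with w hw
      exact hg2 w hw
    · push Not at h
      obtain ⟨ζ, hζ, h1⟩ := h
      have h2 : z ∈ ball ζ (2 * s / 3) := by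
        rw [mem_ball, dist_eq_norm]
        linarith
      have h3 : DifferentiableAt ℂ (fun w : ℂ => J' ζ (w - ζ)) z := by
        have h4 : DifferentiableAt ℂ (J' ζ) (z - ζ) := by
          refine (hJ'1 ζ hζ).differentiableAt (isOpen_ball.mem_nhds ?_)
          rw [mem_ball, dist_zero_right]
          linarith
        exact h4.comp z (differentiableAt_id.sub_const ζ)
      refine h3.congr_of_eventuallyEq ?_
      filter_upwards [isOpen_ball.mem_nhds h2] with w hw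
      exact hg1 ζ hζ w hw
  have hdc : DiffContOnCl ℂ g (ball 0 r) := by
    apply DifferentiableOn.diffContOnCl
    intro z hz
    exact (hgd z (closure_ball_subset_closedBall hz)).differentiableWithinAt
  have hc := hdc.circleIntegral_sub_inv_smul (mem_ball_self hr)
  have h0 : g 0 = j 0 := hg2 0 fun ζ hζ => by
    rw [zero_sub, norm_neg]
    linarith [(hZ ζ hζ).1]
  have hcirc : (∮ z in C(0, r), (z - 0)⁻¹ • g z) = ∮ z in C(0, r), (z - 0)⁻¹ • j z := by
    refine circleIntegral.integral_congr hr.le fun z hz => ?_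
    have hzr : ‖z‖ = r := by rwa [mem_sphere, dist_zero_right] at hz
    have h1 : g z = j z := hg2 z fun ζ hζ => by
      have h2 := (hZ ζ hζ).2
      have h3 : ‖z‖ ≤ ‖z - ζ‖ + ‖ζ‖ := by
        have := norm_add_le (z - ζ) ζ
        rwa [sub_add_cancel] at this
      linarith
    simp only [h1]
  rw [← hcirc, hc, h0, smul_smul, inv_mul_cancel₀ Complex.two_pi_I_ne_zero, one_smul]

end Pool.Agent.TG

end
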