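import Pool.Agent.H94.G5T.M12
import Pool.Agent.H94.G5T.M17
import Pool.Agent.H94.G5T.M29
import Pool.Agent.H94.G5T.M39
import Pool.Agent.H94.G5T.M70

/-! The parts of this file: H13.CV.BirkA, G4.K.Rs, G4.K.Sy, H36.BP.Resc, TG.XNull. -/

section

/-!
# CV BirkA: replacing an element of a basis over `ℂ[x]`

`w' i₀ = ∑ c i * w i`, `w' i = w i` for `i ≠ i₀`: a basis over `L` because `c i₀ = γ ≠ 0` (e.g. `Module.Basis.mk` with linear independence and span; or the change of basis by an invertible matrix / linear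
equivalence; or `basisOfLinearIndependentOfCardEqFinrank`).  Let `f = ∑ r i * w i = ∑ r' i * w' i`: `r i₀ = γ r' i₀`, `r i = r' i + r' i₀ * c i` for `i ≠ i₀`.  So the `r i` are in `ℂ[x]` if and only if the
`r' i` are (`γ⁻¹ ∈ ℂ[x]`).
-/

set_option autoImplicit false

open Pool.Agent.H23.Fano (PrimeDivisorOver Form regularForms)

noncomputable section

namespace Pool.Agent.H13.CV

variable {K : Type} [Field K] [Algebra ℂ K] {L : IntermediateField ℂ K} {x : K} {n : ℕ}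

theorem AffB.replace (hL : Gen L x) {w : Module.Basis (Fin n) L K} (hw : AffB x w) (i₀ : Fin n) (c : Fin n → K)
    (hc : ∀ i, c i ∈ Algebra.adjoin ℂ {x}) {γ : ℂ} (hγ : γ ≠ 0) (hi₀ : c i₀ = algebraMap ℂ K γ) :
    ∃ w' : Module.Basis (Fin n) L K, AffB x w' ∧ w' i₀ = ∑ i, c i * w i ∧ ∀ i, i ≠ i₀ → w' i = w i := by
  classical
  have hcL : ∀ i, c i ∈ L := by
    intro i
    rw [hL.eq]
    exact IntermediateField.algebra_adjoin_le_adjoin ℂ {x} (hc i)
  obtain ⟨c', hc'⟩ : ∃ c' : Fin n → L, ∀ i, ((c' i : L) : K) = c i := ⟨fun i => ⟨c i, hcL i⟩, fun i => rfl⟩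
  obtain ⟨g, hg⟩ : ∃ g : L, g = algebraMap ℂ L γ := ⟨_, rfl⟩
  have hgK : (g : K) = algebraMap ℂ K γ := by rw [hg]; rfl
  have hg0 : g ≠ 0 := by
    rw [hg]
    exact (map_ne_zero_iff _ (algebraMap ℂ L).injective).2 hγ
  have hcg : c' i₀ = g := by
    apply Subtype.ext
    rw [hc' i₀, hi₀, hgK]
  obtain ⟨u, hu⟩ : ∃ u : K, u = (∑ i, c' i • w i) - w i₀ := ⟨_, rfl⟩
  have hur : ∀ i, w.repr u i = c' i - if i = i₀ then 1 else 0 := by
    intro i
    rw [hu, map_sub, Finsupp.sub_apply, Module.Basis.repr_sum_self, Module.Basis.repr_self,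
      Finsupp.single_apply]
    congr 1
    by_cases h : i = i₀
    · simp [h]
    · simp [h, Ne.symm h]
  have hur0 : w.repr u i₀ = g - 1 := by rw [hur, if_pos rfl, hcg]
  have hT : ∀ f : K, (LinearMap.id + (LinearMap.toSpanSingleton L K u) ∘ₗ (w.coord i₀) : K →ₗ[L] K) f =
      f + w.repr f i₀ • u := by
    intro f
    simp
  have hS : ∀ f : K, (LinearMap.id - (LinearMap.toSpanSingleton L K u) ∘ₗ (g⁻¹ • w.coord i₀) : K →ₗ[L] K) f =
      f - (g⁻¹ * w.repr f i₀) • u := by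
    intro f
    simp
  obtain ⟨T, hTd⟩ : ∃ T : K →ₗ[L] K, ∀ f, T f = f + w.repr f i₀ • u := ⟨_, hT⟩
  obtain ⟨S, hSd⟩ : ∃ S : K →ₗ[L] K, ∀ f, S f = f - (g⁻¹ * w.repr f i₀) • u := ⟨_, hS⟩
  have hTS : ∀ f, T (S f) = f := by
    intro f
    rw [hTd, hSd, map_sub, map_smul, Finsupp.sub_apply, Finsupp.smul_apply, hur0, smul_eq_mul]
    have e : w.repr f i₀ - g⁻¹ * w.repr f i₀ * (g - 1) = g⁻¹ * w.repr f i₀ := by
      field_simp
      ring
    rw [e]
    abel
  have hST : ∀ f, S (T f) = f := by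
    intro f
    rw [hSd, hTd, map_add, map_smul, Finsupp.add_apply, Finsupp.smul_apply, hur0, smul_eq_mul]
    have e : g⁻¹ * (w.repr f i₀ + w.repr f i₀ * (g - 1)) = w.repr f i₀ := by
      field_simp
      ring
    rw [e]
    abel
  let e : K ≃ₗ[L] K := LinearEquiv.ofLinearMap T S (LinearMap.ext hTS) (LinearMap.ext hST)
  have he : ∀ f, e f = T f := fun f => rfl
  have hes : ∀ f, e.symm f = S f := fun f => rfl
  have hrepr : ∀ f i, (w.map e).repr f i = w.repr f i - g⁻¹ * w.repr f i₀ * (c' i - if i = i₀ then 1 else 0) := by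
    intro f i
    rw [Module.Basis.map_repr, LinearEquiv.trans_apply, hes, hSd, map_sub, map_smul, Finsupp.sub_apply,
      Finsupp.smul_apply, hur, smul_eq_mul]
  have hgi : algebraMap ℂ K γ⁻¹ ∈ Algebra.adjoin ℂ {x} := Subalgebra.algebraMap_mem _ _
  have hgg : algebraMap ℂ K γ ∈ Algebra.adjoin ℂ {x} := Subalgebra.algebraMap_mem _ _
  have hginv : ((g⁻¹ : L) : K) = algebraMap ℂ K γ⁻¹ := by
    rw [map_inv₀, ← hgK]
    rfl
  have hd : ∀ i, (((c' i - if i = i₀ then 1 else 0 : L)) : K) ∈ Algebra.adjoin ℂ {x} := by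
    intro i
    have e1 : (((c' i - if i = i₀ then 1 else 0 : L)) : K) = c i - if i = i₀ then 1 else 0 := by
      split_ifs
      · rw [← hc' i]; rfl
      · rw [← hc' i]; rfl
    rw [e1]
    refine Subalgebra.sub_mem _ (hc i) ?_
    split_ifs
    · exact Subalgebra.one_mem _
    · exact Subalgebra.zero_mem _
  refine ⟨w.map e, ?_, ?_, ?_⟩
  · intro f
    rw [hw f]
    constructor
    · intro h i
      rw [hrepr]
      have e1 : ((w.repr f i - g⁻¹ * w.repr f i₀ * (c' i - if i = i₀ then 1 else 0) : L) : K) =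
          ((w.repr f i : L) : K) - ((g⁻¹ : L) : K) * ((w.repr f i₀ : L) : K) *
            (((c' i - if i = i₀ then 1 else 0 : L)) : K) := rfl
      rw [e1, hginv]
      exact Subalgebra.sub_mem _ (h i) (Subalgebra.mul_mem _ (Subalgebra.mul_mem _ hgi (h i₀)) (hd i))
    · intro h
      have h0 : ((w.repr f i₀ : L) : K) ∈ Algebra.adjoin ℂ {x} := by
        have h1 := h i₀
        rw [hrepr, if_pos rfl, hcg] at h1
        have e1 : w.repr f i₀ - g⁻¹ * w.repr f i₀ * (g - 1) = g⁻¹ * w.repr f i₀ := by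
          field_simp
          ring
        rw [e1] at h1
        have e2 : ((w.repr f i₀ : L) : K) = algebraMap ℂ K γ * (((g⁻¹ * w.repr f i₀ : L)) : K) := by
          have e3 : w.repr f i₀ = g * (g⁻¹ * w.repr f i₀) := by
            field_simp
          rw [← hgK]
          conv_lhs => rw [e3]
          rfl
        rw [e2]
        exact Subalgebra.mul_mem _ hgg h1
      intro i
      have h1 := h i
      rw [hrepr] at h1
      have e1 : ((w.repr f i : L) : K) =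
          ((w.repr f i - g⁻¹ * w.repr f i₀ * (c' i - if i = i₀ then 1 else 0) : L) : K) +
            ((g⁻¹ : L) : K) * ((w.repr f i₀ : L) : K) * (((c' i - if i = i₀ then 1 else 0 : L)) : K) := by
        have e2 : w.repr f i = (w.repr f i - g⁻¹ * w.repr f i₀ * (c' i - if i = i₀ then 1 else 0)) +
            g⁻¹ * w.repr f i₀ * (c' i - if i = i₀ then 1 else 0) := by ring
        conv_lhs => rw [e2]
        rfl
      rw [e1, hginv]
      exact Subalgebra.add_mem _ h1 (Subalgebra.mul_mem _ (Subalgebra.mul_mem _ hgi h0) (hd i))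
  · rw [Module.Basis.map_apply, he, hTd, Module.Basis.repr_self, Finsupp.single_eq_same, one_smul, hu]
    have e1 : ∑ i, c' i • w i = ∑ i, c i * w i := by
      refine Finset.sum_congr rfl fun i _ => ?_
      rw [← hc' i]
      rfl
    rw [e1]
    ring
  · intro i hi
    rw [Module.Basis.map_apply, he, hTd, Module.Basis.repr_self, Finsupp.single_apply, if_neg hi, zero_smul,
      add_zero]

end Pool.Agent.H13.CV

end
end

section

/-!
# G4 K Rs: existence of root systems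

One variable: `f` analytic at the points of the closed disc, not `0` on the circle: `f w = ∏ (w - b i) * h w`, `h` analytic and not `0` on the closed disc (finitely many zeros; divide them out one after the other).
The number of the zeros of `σ (x, ·)` is `(2 π i)⁻¹ ∮ deriv (σ (x, ·)) w / σ (x, w)`, continuous in `x` near `x₀` (`H22.HF.analyticAt_circleIntegral`) and an integer, so constant on a small ball.
-/

set_option autoImplicit false

open Topology Filter Metric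

namespace Pool.Agent.G4.K

open Pool.Agent.AD (Vd)

variable {E : Type} [NormedAddCommGroup E] [NormedSpace ℂ E] [FiniteDimensional ℂ E]

omit [FiniteDimensional ℂ E] in
/-- the partial derivative with respect to the last variable -/
private theorem rs_deriv {σ : E × ℂ → ℂ} {x : E} {w : ℂ} (h : AnalyticAt ℂ σ (x, w)) : deriv (fun t : ℂ => σ (x, t)) w = fderiv ℂ σ (x, w) (0, 1) := by
  have h1 : HasFDerivAt σ (fderiv ℂ σ (x, w)) (x, w) := h.differentiableAt.hasFDerivAt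
  have h2 : HasDerivAt (fun t : ℂ => (x, t)) ((0 : E), (1 : ℂ)) w := (hasDerivAt_const w x).prodMk (hasDerivAt_id w)
  exact (h1.comp_hasDerivAt w h2).deriv

omit [FiniteDimensional ℂ E] in
/-- one parameter value: the factorisation, and the number of the factors -/
private theorem rs_one {σ : E × ℂ → ℂ} {x : E} {r : ℝ} (hr : 0 < r) (han : ∀ w : ℂ, ‖w‖ ≤ r → AnalyticAt ℂ σ (x, w)) (hne : ∀ w : ℂ, ‖w‖ = r → σ (x, w) ≠ 0) :
    ∃ (n : ℕ) (b : Fin n → ℂ), (∀ i, ‖b i‖ < r) ∧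
      (∃ h : ℂ → ℂ, (∀ w : ℂ, ‖w‖ ≤ r → AnalyticAt ℂ h w ∧ h w ≠ 0) ∧ ∀ w : ℂ, ‖w‖ ≤ r → σ (x, w) = (∏ i, (w - b i)) * h w) ∧
      (∮ t in C(0, r), fderiv ℂ σ (x, t) (0, 1) / σ (x, t)) = 2 * Real.pi * Complex.I * n := by
  have hφ : ∀ t ∈ closedBall (0 : ℂ) r, AnalyticAt ℂ (fun w : ℂ => σ (x, w)) t := fun t ht =>
    (han t (mem_closedBall_zero_iff.1 ht)).comp_of_eq (analyticAt_const.prod analyticAt_id) rfl
  obtain ⟨n, b, h, hb, hh, hf⟩ := Pool.Agent.H22.HF.exists_fac hr hφ fun t ht => hne t (mem_sphere_zero_iff_norm.1 ht)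
  refine ⟨n, b, hb, ⟨h, fun w hw => hh w (mem_closedBall_zero_iff.2 hw), fun w hw => (hf w (mem_closedBall_zero_iff.2 hw)).self_of_nhds⟩, ?_⟩
  have h1 := Pool.Agent.H22.HF.power_sum hr hb hh hf (H := fun _ => 1) fun _ _ => analyticAt_const
  have h2 : (∮ t in C(0, r), fderiv ℂ σ (x, t) (0, 1) / σ (x, t)) = ∮ t in C(0, r), (1 : ℂ) * deriv (fun w : ℂ => σ (x, w)) t / σ (x, t) := by
    refine circleIntegral.integral_congr hr.le fun t ht => ?_
    rw [one_mul, rs_deriv (han t (mem_sphere_zero_iff_norm.1 ht).le)]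
  rw [h2, h1]
  simp

theorem exists_rsys {σ : E × ℂ → ℂ} {x₀ : E} {r : ℝ} (hr : 0 < r) (han : ∀ w : ℂ, ‖w‖ ≤ r → AnalyticAt ℂ σ (x₀, w)) (hne : ∀ w : ℂ, ‖w‖ = r → σ (x₀, w) ≠ 0) :
    ∃ (δ : ℝ) (n : ℕ) (β : E → Fin n → ℂ), 0 < δ ∧ RSys (ball x₀ δ) r σ β := by
  classical
  obtain ⟨u₁, v₁, hu₁, _, hpu₁, htv₁, huv₁⟩ := generalized_tube_lemma (isCompact_singleton (x := x₀)) (isCompact_closedBall (0 : ℂ) r) (isOpen_analyticAt ℂ σ) (by
    rintro ⟨p, t⟩ ⟨hp, ht⟩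
    simp only [Set.mem_singleton_iff] at hp
    subst hp
    exact han t (mem_closedBall_zero_iff.1 ht))
  have hWo : IsOpen {q : E × ℂ | AnalyticAt ℂ σ q ∧ σ q ≠ 0} := by
    rw [isOpen_iff_mem_nhds]
    rintro q ⟨h1, h2⟩
    exact h1.eventually_analyticAt.and (h1.continuousAt.eventually_ne h2)
  obtain ⟨u₂, v₂, hu₂, _, hpu₂, htv₂, huv₂⟩ := generalized_tube_lemma (isCompact_singleton (x := x₀)) (isCompact_sphere (0 : ℂ) r) hWo (by
    rintro ⟨p, t⟩ ⟨hp, ht⟩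
    simp only [Set.mem_singleton_iff] at hp
    subst hp
    have ht' : ‖t‖ = r := mem_sphere_zero_iff_norm.1 ht
    exact ⟨han t ht'.le, hne t ht'⟩)
  have hA : ∀ x ∈ u₁, ∀ w : ℂ, ‖w‖ ≤ r → AnalyticAt ℂ σ (x, w) := fun x hx w hw => huv₁ ⟨hx, htv₁ (mem_closedBall_zero_iff.2 hw)⟩
  have hN : ∀ x ∈ u₂, ∀ w : ℂ, ‖w‖ = r → σ (x, w) ≠ 0 := fun x hx w hw => (huv₂ ⟨hx, htv₂ (mem_sphere_zero_iff_norm.2 hw)⟩).2
  obtain ⟨n, b₀, _, _, hn⟩ := rs_one (x := x₀) hr han hne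
  have hI : AnalyticAt ℂ (fun x : E => ∮ t in C(0, r), (fun q : E × ℂ => fderiv ℂ σ q (0, 1) / σ q) (x, t)) x₀ := by
    refine Pool.Agent.H22.HF.analyticAt_circleIntegral (E := E) (F := fun q : E × ℂ => fderiv ℂ σ q (0, 1) / σ q) hr fun t ht => ?_
    have ht' : ‖t‖ = r := mem_sphere_zero_iff_norm.1 ht
    have h1 : AnalyticAt ℂ (fun q : E × ℂ => fderiv ℂ σ q ((0 : E), (1 : ℂ))) (x₀, t) :=
      ((ContinuousLinearMap.apply ℂ ℂ ((0 : E), (1 : ℂ))).analyticAt _).comp (han t ht'.le).fderiv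
    exact h1.div (han t ht'.le) (hne t ht')
  have hpi : 0 < 2 * Real.pi := by positivity
  have hev : ∀ᶠ x in 𝓝 x₀, x ∈ u₁ ∧ x ∈ u₂ ∧ ‖(∮ t in C(0, r), fderiv ℂ σ (x, t) (0, 1) / σ (x, t)) - 2 * Real.pi * Complex.I * n‖ < 2 * Real.pi := by
    have h1 := hI.continuousAt
    rw [Metric.continuousAt_iff] at h1
    obtain ⟨ε, hε, h2⟩ := h1 (2 * Real.pi) hpi
    filter_upwards [hu₁.mem_nhds (hpu₁ rfl), hu₂.mem_nhds (hpu₂ rfl), ball_mem_nhds x₀ hε] with x e1 e2 e3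
    refine ⟨e1, e2, ?_⟩
    have h3 := h2 e3
    rw [dist_eq_norm] at h3
    simp only [hn] at h3
    exact h3
  obtain ⟨δ, hδ, hball⟩ := Metric.eventually_nhds_iff_ball.1 hev
  have hx : ∀ x ∈ ball x₀ δ, ∃ b : Fin n → ℂ, (∀ i, ‖b i‖ < r) ∧
      ∃ h : ℂ → ℂ, (∀ w : ℂ, ‖w‖ ≤ r → AnalyticAt ℂ h w ∧ h w ≠ 0) ∧ ∀ w : ℂ, ‖w‖ ≤ r → σ (x, w) = (∏ i, (w - b i)) * h w := by
    intro x hx
    obtain ⟨e1, e2, e3⟩ := hball x hx
    obtain ⟨m, b, f1, f2, f3⟩ := rs_one hr (hA x e1) (hN x e2)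
    have hmn : m = n := by
      rw [f3, ← mul_sub, norm_mul] at e3
      have h4 : ‖(2 * Real.pi * Complex.I : ℂ)‖ = 2 * Real.pi := by
        simp [abs_of_pos Real.pi_pos]
      have h5 : ‖(m : ℂ) - n‖ < 1 := by
        rw [h4] at e3
        by_contra h6
        nlinarith [not_lt.1 h6]
      have h6 : ((m : ℂ) - n) = (((m : ℤ) - (n : ℤ) : ℤ) : ℂ) := by push_cast; ring
      rw [h6, Complex.norm_intCast] at h5
      have h7 : |((m : ℤ) - (n : ℤ) : ℤ)| < 1 := by exact_mod_cast h5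
      rw [Int.abs_lt_one_iff] at h7
      omega
    subst hmn
    exact ⟨b, f1, f2⟩
  choose! β hβ using hx
  exact ⟨δ, n, β, hδ, isOpen_ball, hr, fun x hx => hA x (hball x hx).1, fun x hx => hN x (hball x hx).2.1, fun x hx => (hβ x hx).1, fun x hx => (hβ x hx).2⟩

end Pool.Agent.G4.K

end

section

/-!
# G4 K Sy: the norm is holomorphic

For `x ∈ U` and `F` analytic on the closed disc: `∑ i, F (x, β x i) = (2 π i)⁻¹ ∮ F (x, w) (deriv (σ (x, ·)) w / σ (x, w))` (logarithmic derivative of the factorisation, Cauchy), analytic in `x` (`H22.HF.analyticAt_circleIntegral`).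
With `F ^ p`: the power sums of the `F (x, β x i)` are analytic; by Newton's identities (`MvPolynomial.mul_esymm_eq_sum`) the elementary symmetric functions are analytic; the norm is the last one.
-/

set_option autoImplicit false

open Topology Filter Metric

namespace Pool.Agent.G4.K

open Pool.Agent.AD (Vd)

/-- the normalised contour integral -/
private noncomputable def syA {E : Type} [NormedAddCommGroup E] [NormedSpace ℂ E] (g : E × ℂ → ℂ) (ρ : ℝ) (H : E × ℂ → ℂ) (p : E) : ℂ :=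
  (2 * Real.pi * Complex.I)⁻¹ * ∮ t in C(0, ρ), H (p, t) * fderiv ℂ g (p, t) (0, 1) / g (p, t)

private theorem syA_analytic {E : Type} [NormedAddCommGroup E] [NormedSpace ℂ E] [FiniteDimensional ℂ E] {g H : E × ℂ → ℂ} {ρ : ℝ} (hρ : 0 < ρ) {p : E}
    (hg : ∀ t ∈ sphere (0 : ℂ) ρ, AnalyticAt ℂ g (p, t)) (hH : ∀ t ∈ sphere (0 : ℂ) ρ, AnalyticAt ℂ H (p, t)) (hn : ∀ t ∈ sphere (0 : ℂ) ρ, g (p, t) ≠ 0) :
    AnalyticAt ℂ (syA g ρ H) p := by
  unfold syA
  refine analyticAt_const.mul (H22.HF.analyticAt_circleIntegral (F := fun z => H z * fderiv ℂ g z (0, 1) / g z) hρ ?_)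
  intro t ht
  refine ((hH t ht).mul ?_).div (hg t ht) (hn t ht)
  exact (ContinuousLinearMap.analyticAt (ContinuousLinearMap.apply ℂ ℂ ((0, 1) : E × ℂ)) _).comp (hg t ht).fderiv

private theorem syA_eq {E : Type} [NormedAddCommGroup E] [NormedSpace ℂ E] [FiniteDimensional ℂ E] {g H : E × ℂ → ℂ} {ρ : ℝ} (hρ : 0 < ρ) {p : E}
    (hg : ∀ t ∈ closedBall (0 : ℂ) ρ, AnalyticAt ℂ g (p, t)) (hH : ∀ t ∈ closedBall (0 : ℂ) ρ, AnalyticAt ℂ H (p, t))
    {w : ℂ → ℂ} {ν : ℕ} {r : Fin ν → ℂ} (hr : ∀ i, ‖r i‖ < ρ) (hw : ∀ t ∈ closedBall (0 : ℂ) ρ, AnalyticAt ℂ w t ∧ w t ≠ 0)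
    (hφ : ∀ t ∈ closedBall (0 : ℂ) ρ, (fun t => g (p, t)) =ᶠ[𝓝 t] fun t => (∏ i, (t - r i)) * w t) :
    syA g ρ H p = ∑ i, H (p, r i) := by
  have hin : ∀ t : ℂ, AnalyticAt ℂ (fun t : ℂ => ((p, t) : E × ℂ)) t := fun t => analyticAt_const.prod analyticAt_id
  have hps := H22.HF.power_sum (H := fun t => H (p, t)) hρ hr hw hφ (fun t ht => (hH t ht).comp (hin t))
  have hint : (∮ t in C(0, ρ), H (p, t) * fderiv ℂ g (p, t) (0, 1) / g (p, t)) = ∮ t in C(0, ρ), H (p, t) * deriv (fun t => g (p, t)) t / g (p, t) := by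
    refine circleIntegral.integral_congr hρ.le (fun t ht => ?_)
    have h1 : HasFDerivAt g (fderiv ℂ g (p, t)) (p, t) := (hg t (sphere_subset_closedBall ht)).differentiableAt.hasFDerivAt
    have h2 : HasDerivAt (fun t : ℂ => ((p, t) : E × ℂ)) ((0, 1) : E × ℂ) t := (hasDerivAt_const t p).prodMk (hasDerivAt_id t)
    have h3 : HasDerivAt (fun t => g (p, t)) (fderiv ℂ g (p, t) (0, 1)) t := h1.comp_hasDerivAt t h2
    simp only [h3.deriv]
  unfold syA
  rw [hint, hps, ← mul_assoc, inv_mul_cancel₀, one_mul]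
  exact Complex.two_pi_I_ne_zero

/-- two functions which are analytic at the points of a closed disc and equal on it are equal near its points -/
private theorem eventuallyEq_closedBall {f g : ℂ → ℂ} {ρ : ℝ} (hρ : 0 < ρ) (hf : ∀ t ∈ closedBall (0 : ℂ) ρ, AnalyticAt ℂ f t) (hg : ∀ t ∈ closedBall (0 : ℂ) ρ, AnalyticAt ℂ g t)
    (h : ∀ t ∈ closedBall (0 : ℂ) ρ, f t = g t) {t : ℂ} (ht : t ∈ closedBall (0 : ℂ) ρ) : f =ᶠ[𝓝 t] g := by
  refine ((hf t ht).frequently_eq_iff_eventually_eq (hg t ht)).1 ?_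
  have hcl : t ∈ closure (ball (0 : ℂ) ρ \ {t}) := by
    have h1 : closedBall (0 : ℂ) ρ ⊆ closure (ball (0 : ℂ) ρ) := by
      rw [closure_ball (0 : ℂ) hρ.ne']
    have h2 : Dense ({t}ᶜ : Set ℂ) := dense_compl_singleton t
    have h3 : ball (0 : ℂ) ρ ⊆ closure (ball (0 : ℂ) ρ ∩ {t}ᶜ) := h2.open_subset_closure_inter isOpen_ball
    have h4 : ball (0 : ℂ) ρ \ {t} = ball (0 : ℂ) ρ ∩ {t}ᶜ := rfl
    rw [h4]
    exact closure_minimal h3 isClosed_closure (h1 ht)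
  rw [mem_closure_iff_frequently] at hcl
  rw [frequently_nhdsWithin_iff]
  refine hcl.mono fun z hz => ⟨h z (ball_subset_closedBall hz.1), hz.2⟩

variable {E : Type} [NormedAddCommGroup E] [NormedSpace ℂ E] [FiniteDimensional ℂ E] {U : Set E} {r : ℝ} {σ : E × ℂ → ℂ} {n : ℕ} {β : E → Fin n → ℂ}

theorem RSys.norm_an (R : RSys U r σ β) {F : E × ℂ → ℂ} (hF : ∀ x ∈ U, ∀ w : ℂ, ‖w‖ ≤ r → AnalyticAt ℂ F (x, w)) : ∀ x ∈ U, AnalyticAt ℂ (fun x => ∏ i, F (x, β x i)) x := by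
  intro x₀ hx₀
  obtain ⟨P, hP⟩ := H22.HF.esymm_newton n
  have key : ∀ x ∈ U, ∀ k : ℕ, syA σ r (fun z => F z ^ (k + 1)) x = ∑ i, F (x, β x i) ^ (k + 1) := by
    intro x hx k
    obtain ⟨h, h1, h2⟩ := R.fac x hx
    have hin : ∀ t : ℂ, AnalyticAt ℂ (fun t : ℂ => ((x, t) : E × ℂ)) t := fun t => analyticAt_const.prod analyticAt_id
    refine syA_eq R.pos (fun t ht => R.an x hx t (mem_closedBall_zero_iff.1 ht)) (fun t ht => (hF x hx t (mem_closedBall_zero_iff.1 ht)).pow _) (R.lt x hx)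
      (fun t ht => h1 t (mem_closedBall_zero_iff.1 ht)) (fun t ht => ?_)
    refine eventuallyEq_closedBall R.pos ?_ ?_ ?_ ht
    · intro t ht
      exact AnalyticAt.comp (g := σ) (f := fun t : ℂ => ((x, t) : E × ℂ)) (R.an x hx t (mem_closedBall_zero_iff.1 ht)) (hin t)
    · intro t ht
      refine AnalyticAt.mul ?_ (h1 t (mem_closedBall_zero_iff.1 ht)).1
      exact Finset.analyticAt_fun_prod _ (fun i _ => analyticAt_id.sub analyticAt_const)
    · intro t ht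
      exact h2 t (mem_closedBall_zero_iff.1 ht)
  have han : ∀ k : ℕ, AnalyticAt ℂ (syA σ r (fun z => F z ^ (k + 1))) x₀ := by
    intro k
    refine syA_analytic R.pos (fun t ht => R.an x₀ hx₀ t ?_) (fun t ht => (hF x₀ hx₀ t ?_).pow _) (fun t ht => R.ne x₀ hx₀ t (mem_sphere_zero_iff_norm.1 ht))
    · exact (mem_sphere_zero_iff_norm.1 ht).le
    · exact (mem_sphere_zero_iff_norm.1 ht).le
  have hev : (fun x => ∏ i, F (x, β x i)) =ᶠ[𝓝 x₀] fun x => MvPolynomial.aeval (fun k : Fin n => syA σ r (fun z => F z ^ ((k : ℕ) + 1)) x) P := by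
    filter_upwards [R.op.mem_nhds hx₀] with x hx
    rw [hP (fun i => F (x, β x i)), MvPolynomial.aeval_eq_eval]
    congr 1
    simp only [key x hx]
  refine AnalyticAt.congr (AnalyticAt.aeval_mvPolynomial (fun k : Fin n => han (k : ℕ)) P) hev.symm

end Pool.Agent.G4.K

end

section

/-!
# BP Resc: rescaling

Given `L = 4 (n + 1)` take `F` with `mt G F 0 > L`.  On `closedBall 0 (1/2)` the function `mt G F z (1/2 - |z|)` is upper semicontinuous, so it has a maximum `m ≥ mt G F 0/2 > 0`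
at some `z₀`, `|z₀| < 1/2`.  `λ = 1/mt G F z₀`, `F_n ζ = F (z₀ + λ ζ)`.  For `|ζ| ≤ m/2`: `|z| ≤ |z₀| + (1/2 - |z₀|)/2`, so `1/2 - |z| ≥ (1/2 - |z₀|)/2 > 0` and
`mt G F z ≤ m/(1/2 - |z|) ≤ 2 mt G F z₀`; `mt_comp`.  `m/2 ≥ L/4 = n + 1`.
-/

set_option autoImplicit false

namespace Pool.Agent.H36.BP

open Filter Topology Metric

variable {N : ℕ}

variable {K B : Set (EN N)} {G : EN N → EN N → ℝ} {ρ : EN N → ℝ} {M : ℕ} {c₀ C : ℝ}

/-- product of a nonnegative upper semicontinuous function and a nonnegative continuous function -/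
private theorem resc_usc_mul {α : Type*} [TopologicalSpace α] {S : Set α} {u k : α → ℝ} (hu : UpperSemicontinuousOn u S)
    (hk : ContinuousOn k S) (hu0 : ∀ x ∈ S, 0 ≤ u x) (hk0 : ∀ x ∈ S, 0 ≤ k x) :
    UpperSemicontinuousOn (fun x => u x * k x) S := by
  intro x hx y hy
  have ht : Tendsto (fun ε : ℝ => (u x + ε) * (k x + ε)) (𝓝[>] 0) (𝓝 ((u x + 0) * (k x + 0))) := by
    apply tendsto_nhdsWithin_of_tendsto_nhds
    have hc : Continuous (fun ε : ℝ => (u x + ε) * (k x + ε)) := by fun_prop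
    exact hc.tendsto 0
  have hy' : (u x + 0) * (k x + 0) < y := by simpa using hy
  obtain ⟨ε, hε1, hε2⟩ := ((ht.eventually_lt_const hy').and self_mem_nhdsWithin).exists
  have hε : (0 : ℝ) < ε := hε2
  have h1 : ∀ᶠ x' in 𝓝[S] x, u x' < u x + ε := hu x hx _ (by linarith)
  have h2 : ∀ᶠ x' in 𝓝[S] x, k x' < k x + ε := (hk x hx).eventually_lt_const (by linarith)
  filter_upwards [h1, h2, self_mem_nhdsWithin] with x' h1' h2' hx'
  refine lt_of_le_of_lt ?_ hε1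
  exact mul_le_mul h1'.le h2'.le (hk0 x' hx') (by linarith [hu0 x hx])

theorem rescale (hM : MetricData K B G ρ M c₀ C) (hunb : ∀ L : ℝ, ∃ F, Curve K (ball 0 1) F ∧ L < mt G F 0) (n : ℕ) :
    ∃ F, Curve K (ball 0 (n + 1)) F ∧ mt G F 0 = 1 ∧ ∀ z ∈ ball (0 : ℂ) (n + 1), mt G F z ≤ 2 := by
  obtain ⟨F, hF, hL⟩ := hunb (4 * ((n : ℝ) + 1))
  have hn : (0 : ℝ) ≤ n := Nat.cast_nonneg n
  set u : ℂ → ℝ := fun z => mt G F z * (1 / 2 - ‖z‖) with hu
  have hsub : closedBall (0 : ℂ) (1 / 2) ⊆ ball 0 1 := closedBall_subset_ball (by norm_num)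
  have husc : UpperSemicontinuousOn u (closedBall (0 : ℂ) (1 / 2)) := by
    refine resc_usc_mul ((mt_usc hM isOpen_ball hF).mono hsub) (by fun_prop) ?_ ?_
    · intro x hx
      exact mt_nonneg hM (hF.2 x (hsub hx))
    · intro x hx
      have : ‖x‖ ≤ 1 / 2 := by simpa using hx
      linarith
  obtain ⟨z₀, hz₀, hmax⟩ := husc.exists_isMaxOn ⟨0, by simp⟩ (isCompact_closedBall _ _)
  have hz₀n : ‖z₀‖ ≤ 1 / 2 := by simpa using hz₀
  have h0 : u 0 ≤ u z₀ := hmax (by simp : (0 : ℂ) ∈ closedBall (0 : ℂ) (1 / 2))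
  have hu0 : u 0 = mt G F 0 / 2 := by simp only [hu, norm_zero]; ring
  have hm : 2 * ((n : ℝ) + 1) < u z₀ := by rw [hu0] at h0; linarith
  have hz₀K : F z₀ ∈ K := hF.2 z₀ (hsub hz₀)
  have hmt0 : 0 ≤ mt G F z₀ := mt_nonneg hM hz₀K
  set d : ℝ := 1 / 2 - ‖z₀‖ with hd
  have hd0 : 0 ≤ d := by rw [hd]; linarith
  have huz : u z₀ = mt G F z₀ * d := rfl
  have hpos : 0 < mt G F z₀ * d := by rw [← huz]; linarith
  have hmtpos : 0 < mt G F z₀ := by
    rcases hmt0.lt_or_eq with h | h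
    · exact h
    · rw [← h] at hpos; simp at hpos
  have hdpos : 0 < d := by
    rcases hd0.lt_or_eq with h | h
    · exact h
    · rw [← h] at hpos; simp at hpos
  set a : ℝ := mt G F z₀ with ha
  set φ : ℂ → ℂ := fun ζ => z₀ + ((a⁻¹ : ℝ) : ℂ) * ζ with hφ
  have hφd : ∀ ζ, HasDerivAt φ ((a⁻¹ : ℝ) : ℂ) ζ := by
    intro ζ
    have := ((hasDerivAt_id ζ).const_mul ((a⁻¹ : ℝ) : ℂ)).const_add z₀
    simpa [hφ] using this
  have hkey : ∀ ζ ∈ ball (0 : ℂ) (n + 1), ‖φ ζ‖ ≤ 1 / 2 - d / 2 := by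
    intro ζ hζ
    have hζn : ‖ζ‖ < n + 1 := by simpa using hζ
    have h1 : ‖φ ζ‖ ≤ ‖z₀‖ + a⁻¹ * ‖ζ‖ := by
      calc ‖φ ζ‖ ≤ ‖z₀‖ + ‖((a⁻¹ : ℝ) : ℂ) * ζ‖ := norm_add_le _ _
        _ = ‖z₀‖ + a⁻¹ * ‖ζ‖ := by
          rw [norm_mul, Complex.norm_real, Real.norm_of_nonneg (by positivity)]
    have h2 : a⁻¹ * ‖ζ‖ ≤ d / 2 := by
      rw [inv_mul_le_iff₀ hmtpos]
      rw [huz] at hm
      linarith
    have h3 : ‖z₀‖ = 1 / 2 - d := by rw [hd]; ring
    linarith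
  have hball : ∀ ζ ∈ ball (0 : ℂ) (n + 1), φ ζ ∈ closedBall (0 : ℂ) (1 / 2) := by
    intro ζ hζ
    have := hkey ζ hζ
    rw [mem_closedBall_zero_iff]
    linarith
  have hdiff : ∀ ζ ∈ ball (0 : ℂ) (n + 1), DifferentiableAt ℂ F (φ ζ) := fun ζ hζ =>
    (hF.1 _ (hsub (hball ζ hζ))).differentiableAt (isOpen_ball.mem_nhds (hsub (hball ζ hζ)))
  have hmt : ∀ ζ ∈ ball (0 : ℂ) (n + 1), mt G (fun ζ => F (φ ζ)) ζ = a⁻¹ * mt G F (φ ζ) := by
    intro ζ hζ
    rw [mt_comp hM (hdiff ζ hζ) (hφd ζ).differentiableAt (hF.2 _ (hsub (hball ζ hζ))), (hφd ζ).deriv,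
      Complex.norm_real, Real.norm_of_nonneg (by positivity)]
  refine ⟨fun ζ => F (φ ζ), ⟨?_, ?_⟩, ?_, ?_⟩
  · intro ζ hζ
    exact ((hdiff ζ hζ).comp ζ (hφd ζ).differentiableAt).differentiableWithinAt
  · intro ζ hζ
    exact hF.2 _ (hsub (hball ζ hζ))
  · rw [hmt 0 (mem_ball_self (by positivity))]
    have : φ 0 = z₀ := by simp [hφ]
    rw [this, ← ha]
    exact inv_mul_cancel₀ hmtpos.ne'
  · intro ζ hζ
    rw [hmt ζ hζ]
    have h1 : u (φ ζ) ≤ u z₀ := hmax (hball ζ hζ)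
    have h2 := hkey ζ hζ
    have h3 : mt G F (φ ζ) * (1 / 2 - ‖φ ζ‖) ≤ a * d := h1
    have h4 : 0 ≤ mt G F (φ ζ) := mt_nonneg hM (hF.2 _ (hsub (hball ζ hζ)))
    have h5 : mt G F (φ ζ) * (d / 2) ≤ a * d :=
      le_trans (mul_le_mul_of_nonneg_left (by linarith) h4) h3
    have h6 : mt G F (φ ζ) ≤ 2 * a := by
      by_contra hc
      push Not at hc
      have : 2 * a * (d / 2) < mt G F (φ ζ) * (d / 2) := mul_lt_mul_of_pos_right hc (by linarith)
      linarith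
    rw [inv_mul_le_iff₀ hmtpos]
    linarith

end Pool.Agent.H36.BP

end

section

/-!
# TG XNull: an analytic function which vanishes on a set of positive measure is `0`

If `f` is eventually `0` at a point of `U`, use `AnalyticOnNhd.eqOn_zero_of_preconnected_of_eventuallyEq_zero`.  Otherwise every point `y ∈ U` has a neighbourhood `W` with
`volume (W ∩ {f = 0}) = 0` (`H13.SM.exists_null` for `fun x => f (y + x)`, translation; trivial if `f y ≠ 0`), so the set `{y | y ∈ U ∧ f y = 0}` is a null set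
(`MeasureTheory.measure_null_of_locally_null`): contradiction.
-/

set_option autoImplicit false

open Topology Filter Metric MeasureTheory

namespace Pool.Agent.TG

open Pool.Agent.AD (Vd)

theorem zero_of_volume {n : ℕ} {f : Vd n → ℂ} {U : Set (Vd n)} (hU : IsOpen U) (hc : IsPreconnected U) (hf : AnalyticOnNhd ℂ f U)
    (hv : volume {y | y ∈ U ∧ f y = 0} ≠ 0) : ∀ y ∈ U, f y = 0 := by
  by_contra hcon
  push Not at hcon
  obtain ⟨y₁, hy₁, hf₁⟩ := hcon
  apply hv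
  refine measure_null_of_locally_null _ fun y hy => ?_
  obtain ⟨hyU, hfy⟩ := hy
  have hne : ¬ ∀ᶠ u in 𝓝 (0 : Vd n), f (y + u) = 0 := by
    intro h
    have ht : Tendsto (fun z : Vd n => z - y) (𝓝 y) (𝓝 0) := by
      have h0 : Continuous fun z : Vd n => z - y := by fun_prop
      have h1 := h0.tendsto y
      rwa [sub_self] at h1
    have h2 : f =ᶠ[𝓝 y] 0 := by
      filter_upwards [ht.eventually h] with z hz
      simpa using hz
    exact hf₁ (hf.eqOn_zero_of_preconnected_of_eventuallyEq_zero hc hyU h2 hy₁)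
  have han : AnalyticAt ℂ (fun u : Vd n => f (y + u)) 0 := by
    have h1 : AnalyticAt ℂ (fun u : Vd n => y + u) 0 := analyticAt_const.add analyticAt_id
    have h2 : AnalyticAt ℂ f (y + 0) := by
      rw [add_zero]
      exact hf y hyU
    exact AnalyticAt.comp (g := f) (f := fun u : Vd n => y + u) h2 h1
  obtain ⟨W, hW, hWv⟩ := Pool.Agent.H13.SM.exists_null han (by simpa using hfy) hne
  refine ⟨(fun z : Vd n => z + -y) ⁻¹' {u | u ∈ W ∧ f (y + u) = 0}, ?_, ?_⟩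
  · have ht : Tendsto (fun z : Vd n => z + -y) (𝓝 y) (𝓝 0) := by
      have h0 : Continuous fun z : Vd n => z + -y := by fun_prop
      have h1 := h0.tendsto y
      rwa [add_neg_cancel] at h1
    have h3 : ∀ᶠ z in 𝓝[{y | y ∈ U ∧ f y = 0}] y, z ∈ {y | y ∈ U ∧ f y = 0} := self_mem_nhdsWithin
    have h4 : ∀ᶠ z in 𝓝[{y | y ∈ U ∧ f y = 0}] y, z + -y ∈ W :=
      nhdsWithin_le_nhds (ht.eventually hW)
    filter_upwards [h3, h4] with z hz hzW
    refine ⟨hzW, ?_⟩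
    have h5 : y + (z + -y) = z := by abel
    rw [h5]
    exact hz.2
  · rw [measure_preimage_add_right]
    exact hWv

end Pool.Agent.TG

end
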