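import Pool.Agent.H94.G5T.M115
import Pool.Agent.H94.G5T.M27
import Pool.Agent.H94.G5T.M31
import Pool.Agent.H94.G5T.M38
import Pool.Agent.H94.G5T.M40
import Pool.Agent.H94.G5T.M83
import Pool.Agent.H94.G5T.M84

/-! The parts of this file: H13.CV.MerP, H13.CV.HomM, TG.XDefs, TG.XPt, TG.XCirc, TG.XLoc, TG.XExt, TG.XHs, TG.XHi. -/

section

/-!
# CV MerP: the place under a point of `ℂ`, homomorphisms into the field of meromorphic functions

`exists_placeM`: `v g = ordM z₀ (φ g)` is a valuation of `K` (`φ` is injective), trivial on the constants.  It is not trivial: let `x` be transcendental (`hK.exists_tr`), or its inverse, with `0 ≤ v x`; `c` with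
`0 < ordM z₀ (φ x - c)` (`exists_valueM`), so `0 < v (x - c)`, finite as `x ≠ c`.  So the values of `v` on `K ∖ {0}` form a non-zero subgroup of `ℤ`, equal to `e ℤ` with `e ≥ 1`
(`Int.subgroup_cyclic`, or the least positive value).  `E.ord g = v g / e` (an integer or `⊤`), `AddValuation.of`.  `residue_trdeg`: `Fin 0`: polynomials in no variables are constants.
-/

set_option autoImplicit false

open Topology Filter
open Pool.Agent.H17 Pool.Agent.H17.EntFun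

noncomputable section

namespace Pool.Agent.H13.CV

variable {K : Type} [Field K] [Algebra ℂ K]

private theorem merp_nsmul_top {e : ℕ} (he : 1 ≤ e) : e • (⊤ : WithTop ℤ) = ⊤ := by
  obtain ⟨k, rfl⟩ : ∃ k, e = k + 1 := ⟨e - 1, by omega⟩
  rw [succ_nsmul, add_top]

private theorem merp_mono {e : ℕ} (he : 1 ≤ e) {x y : WithTop ℤ} (h : x ≤ y) :
    WithTop.map (fun a : ℤ => a / (e : ℤ)) x ≤ WithTop.map (fun a : ℤ => a / (e : ℤ)) y := by
  have he' : (0 : ℤ) < e := by exact_mod_cast he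
  induction y with
  | top => exact le_top
  | coe b =>
    induction x with
    | top => exact absurd h (not_le.2 (WithTop.coe_lt_top b))
    | coe a =>
      rw [WithTop.map_coe, WithTop.map_coe, WithTop.coe_le_coe]
      exact Int.ediv_le_ediv he' (WithTop.coe_le_coe.1 h)

private theorem merp_add {e : ℕ} {x y : WithTop ℤ} (hx : x = ⊤ ∨ ∃ k : ℤ, x = ((e * k : ℤ) : WithTop ℤ)) :
    WithTop.map (fun a : ℤ => a / (e : ℤ)) (x + y) =
      WithTop.map (fun a : ℤ => a / (e : ℤ)) x + WithTop.map (fun a : ℤ => a / (e : ℤ)) y := by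
  rcases hx with rfl | ⟨k, rfl⟩
  · rw [top_add, WithTop.map_top, top_add]
  · induction y with
    | top => rw [add_top, WithTop.map_top, add_top]
    | coe b =>
      rw [← WithTop.coe_add, WithTop.map_coe, WithTop.map_coe, WithTop.map_coe, ← WithTop.coe_add,
        WithTop.coe_inj]
      exact Int.add_ediv_of_dvd_left (Dvd.intro k rfl)

theorem exists_placeM (hK : CurveField K) (φ : K →ₐ[ℂ] Mer) (z₀ : ℂ) : ∃ (E : Place K) (e : ℕ), 1 ≤ e ∧ ∀ g : K, ordM z₀ (φ g) = e • E.ord g := by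
  have hinj : Function.Injective φ := φ.toRingHom.injective
  have htop : ∀ g : K, ordM z₀ (φ g) = ⊤ ↔ g = 0 := by
    intro g
    rw [ordM_eq_top, map_eq_zero_iff φ hinj]
  have hcst : ∀ c : ℂ, c ≠ 0 → ordM z₀ (φ (algebraMap ℂ K c)) = 0 := by
    intro c hc
    rw [AlgHom.commutes]
    exact ordM_const z₀ hc
  have hfin : ∀ g : K, g ≠ 0 → ∃ n : ℤ, ordM z₀ (φ g) = (n : WithTop ℤ) := by
    intro g hg
    have h : ordM z₀ (φ g) ≠ ⊤ := fun h => hg ((htop g).1 h)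
    exact ⟨_, (WithTop.coe_untop _ h).symm⟩
  -- the group of the values
  let H : AddSubgroup ℤ :=
    { carrier := {n | ∃ g : K, g ≠ 0 ∧ ordM z₀ (φ g) = (n : WithTop ℤ)}
      add_mem' := by
        rintro a b ⟨g, hg, h1⟩ ⟨g', hg', h2⟩
        refine ⟨g * g', mul_ne_zero hg hg', ?_⟩
        rw [map_mul, AddValuation.map_mul, h1, h2, WithTop.coe_add]
      zero_mem' := ⟨1, one_ne_zero, by rw [map_one, AddValuation.map_one]; rfl⟩
      neg_mem' := by
        rintro a ⟨g, hg, h1⟩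
        refine ⟨g⁻¹, inv_ne_zero hg, ?_⟩
        obtain ⟨n, hn⟩ := hfin g⁻¹ (inv_ne_zero hg)
        have h2 : ordM z₀ (φ g) + ordM z₀ (φ g⁻¹) = 0 := by
          rw [← AddValuation.map_mul, ← map_mul, mul_inv_cancel₀ hg, map_one, AddValuation.map_one]
        rw [h1, hn, ← WithTop.coe_add] at h2
        have h3 : a + n = 0 := WithTop.coe_eq_zero.1 h2
        rw [hn, WithTop.coe_inj]
        omega }
  have hmem : ∀ (n : ℤ), n ∈ H ↔ ∃ g : K, g ≠ 0 ∧ ordM z₀ (φ g) = (n : WithTop ℤ) := fun n => Iff.rfl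
  -- a non-zero value
  have hne : ∃ n ∈ H, n ≠ 0 := by
    obtain ⟨x, hx⟩ := hK.exists_tr
    have hx0 : x ≠ 0 := by
      rintro rfl
      exact hx isAlgebraic_zero
    obtain ⟨n, hn⟩ := hfin x hx0
    by_cases h0 : n = 0
    · have h1 : 0 ≤ ordM z₀ (φ x) := by rw [hn, h0]; exact le_refl _
      obtain ⟨c, hc⟩ := exists_valueM z₀ h1
      have h2 : φ x - algebraMap ℂ Mer c = φ (x - algebraMap ℂ K c) := by
        rw [map_sub, AlgHom.commutes]
      have h3 : x - algebraMap ℂ K c ≠ 0 := by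
        intro h
        rw [sub_eq_zero] at h
        rw [h] at hx
        exact hx (isAlgebraic_algebraMap c)
      obtain ⟨m, hm⟩ := hfin _ h3
      refine ⟨m, ⟨_, h3, hm⟩, ?_⟩
      rintro rfl
      rw [h2, hm] at hc
      exact lt_irrefl _ hc
    · exact ⟨n, ⟨x, hx0, hn⟩, h0⟩
  obtain ⟨a, ha⟩ := Int.subgroup_cyclic H
  have hdvd : ∀ n ∈ H, a ∣ n := by
    intro n hn
    rw [ha, ← AddSubgroup.zmultiples_eq_closure, Int.mem_zmultiples_iff] at hn
    exact hn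
  have haH : a ∈ H := by
    rw [ha]
    exact AddSubgroup.subset_closure rfl
  have ha0 : a ≠ 0 := by
    rintro rfl
    obtain ⟨n, hn, hn0⟩ := hne
    exact hn0 (zero_dvd_iff.1 (hdvd n hn))
  obtain ⟨e, he⟩ : ∃ e : ℕ, e = a.natAbs := ⟨_, rfl⟩
  have he1 : 1 ≤ e := by
    rw [he]
    exact Int.natAbs_pos.2 ha0
  have heH : (e : ℤ) ∈ H := by
    rcases Int.natAbs_eq a with h | h
    · rw [he, ← h]
      exact haH
    · have h2 : (e : ℤ) = -a := by
        rw [he]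
        omega
      rw [h2]
      exact H.neg_mem haH
  have hval : ∀ g : K, ordM z₀ (φ g) = ⊤ ∨ ∃ k : ℤ, ordM z₀ (φ g) = ((e * k : ℤ) : WithTop ℤ) := by
    intro g
    by_cases hg : g = 0
    · exact Or.inl ((htop g).2 hg)
    · obtain ⟨n, hn⟩ := hfin g hg
      have h1 : (e : ℤ) ∣ n := by
        rw [he, Int.natAbs_dvd]
        exact hdvd n ⟨g, hg, hn⟩
      obtain ⟨k, hk⟩ := h1
      exact Or.inr ⟨k, by rw [hn, hk]⟩
  have he0 : (e : ℤ) ≠ 0 := by
    have : 0 < e := he1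
    omega
  -- the normalised valuation
  let v : AddValuation K (WithTop ℤ) := AddValuation.of
    (fun g => WithTop.map (fun a : ℤ => a / (e : ℤ)) (ordM z₀ (φ g)))
    (by
      change WithTop.map (fun a : ℤ => a / (e : ℤ)) (ordM z₀ (φ 0)) = ⊤
      rw [(htop 0).2 rfl, WithTop.map_top])
    (by
      change WithTop.map (fun a : ℤ => a / (e : ℤ)) (ordM z₀ (φ 1)) = 0
      rw [map_one, AddValuation.map_one]
      change (((0 : ℤ) / (e : ℤ) : ℤ) : WithTop ℤ) = 0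
      rw [Int.zero_ediv]
      rfl)
    (by
      intro f g
      have h := (ordM z₀).map_add (φ f) (φ g)
      rw [← map_add] at h
      rcases le_total (ordM z₀ (φ f)) (ordM z₀ (φ g)) with h1 | h1
      · rw [min_eq_left h1] at h
        exact (min_le_left _ _).trans (merp_mono he1 h)
      · rw [min_eq_right h1] at h
        exact (min_le_right _ _).trans (merp_mono he1 h))
    (by
      intro f g
      rw [map_mul, AddValuation.map_mul]
      exact merp_add (hval f))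
  have hv : ∀ g, v g = WithTop.map (fun a : ℤ => a / (e : ℤ)) (ordM z₀ (φ g)) := fun g => rfl
  have hvc : ∀ c : ℂ, c ≠ 0 → v (algebraMap ℂ K c) = 0 := by
    intro c hc
    rw [hv, hcst c hc]
    change (((0 : ℤ) / (e : ℤ) : ℤ) : WithTop ℤ) = 0
    rw [Int.zero_ediv]
    rfl
  refine ⟨{ ord := v
            ord_const := ?_
            exists_uniformizer := ?_
            residue_trdeg := ?_ }, e, he1, ?_⟩
  · intro c
    by_cases hc : c = 0
    · rw [hc, map_zero, AddValuation.map_zero]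
      exact le_top
    · rw [hvc c hc]
  · obtain ⟨t, ht, h1⟩ := (hmem e).1 heH
    refine ⟨t, ?_⟩
    rw [hv, h1]
    change ((((e : ℤ) / (e : ℤ) : ℤ)) : WithTop ℤ) = 1
    rw [Int.ediv_self he0]
    rfl
  · have : IsEmpty (Fin (1 - 1)) := inferInstanceAs (IsEmpty (Fin 0))
    refine ⟨fun i => isEmptyElim i, fun i => isEmptyElim i, ?_⟩
    intro p hp
    rw [MvPolynomial.eq_C_of_isEmpty p, MvPolynomial.aeval_C]
    apply hvc
    intro h
    apply hp
    rw [MvPolynomial.eq_C_of_isEmpty p, h, map_zero]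
  · intro g
    change ordM z₀ (φ g) = e • v g
    rw [hv]
    rcases hval g with h | ⟨k, h⟩
    · rw [h, WithTop.map_top, merp_nsmul_top he1]
    · rw [h, WithTop.map_coe, ← WithTop.coe_nsmul, WithTop.coe_inj, Int.mul_ediv_cancel_left _ he0,
        nsmul_eq_mul]

end Pool.Agent.H13.CV

end
end

section

/-!
# CV HomM: the entire curve given by a homomorphism of the function field into the meromorphic functions

`homMap0`: let `X j ∉ Q`, so `coordFun Q j ≠ 0` (`Pool.Agent.H92.GT.Proj.aeval_coordFun_eq_zero_iff Q (X j)`).  `y i = φ (ratio Q i j) ∈ Mer`, `y j = 1`.  There are `a i, b ∈ EntFun`, `b ≠ 0`, with `y i = a i / b`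
(`IsLocalization.exist_integer_multiples_of_finset`), `a j = b`.
`exists_map` (HomA) gives `f` and, for every `z₀`, `k` and `c i` with `a i = coord z₀ ^ k * c i`, `f z₀ = [c i (z₀)]`.
Forms in `Q`: for a form `R ∈ Q`: `aeval (ratio Q · j) R = 0` in `FunField Q`, so `aeval y R = 0`, `aeval (toM ∘ a) R = 0` (homogeneous), so `aeval c R = 0` in `EntFun` (`coord ≠ 0`, domain), evaluate at `z₀`.
The index `l`: with `c l (z₀) ≠ 0`; then `a l ≠ 0`, `y l ≠ 0`, so `coordFun Q l ≠ 0`, and `φ (ratio Q i l) = y i / y l = c i / c l` has order `≥ 0` at `z₀`.  If the form `R` vanishes at `f z₀`, then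
`φ (aeval (ratio Q · l) R) = aeval (c / c l) R = (aeval c R) / c l ^ d` has positive order at `z₀`.
Non-constant: if `f` is constant then the `a i` are proportional to constants (near a point where `k = 0`, then everywhere), so the `y i` are constants, so `φ` of all `ratio Q i l = ratio Q i j / ratio Q l j` are constants,
and these generate `FunField Q` over `ℂ`; so `φ` maps `K` into `ℂ`: impossible as `φ` is injective and `K` contains a transcendental element (`hK.exists_tr`).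
Facts on `coordFun`, `ratio`, `aeval`: `Pool/Agent/H92/GT/Proj*.lean`, `Pool/Agent/H17BP/TrdegLt.lean`, `Pool/Agent/H62/FC/`.
-/

set_option autoImplicit false

open Topology Filter MvPolynomial
open Pool.Agent.H17 (PN VanishesAt ZariskiClosedIn HolomorphicInto puncturedDisc)
open Pool.Agent.H17GT (coordFun)
open Pool.Agent.H17LG.Variety (FunField IsLogGeneralType ratio)
open Pool.Agent.H62.SA (locVar OnBd)

noncomputable section

namespace Pool.Agent.H13.CV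

variable {N : ℕ}

open Pool.Agent.H17 in
open Pool.Agent.H17.EntFun in
private lemma HomM_vanishes_mk {G : MvPolynomial (Fin (N + 1)) ℂ} {n : ℕ} (hG : G.IsHomogeneous n) {v : Fin (N + 1) → ℂ} (hv : v ≠ 0) :
    VanishesAt G (Projectivization.mk ℂ v hv) ↔ eval v G = 0 := by
  obtain ⟨u, hu⟩ := Projectivization.exists_smul_eq_mk_rep ℂ v hv
  have h1 : eval (Projectivization.mk ℂ v hv).rep G = (u : ℂ) ^ n * eval v G := by
    rw [← hu]
    have h2 := Pool.Agent.H92.GT.Proj.aeval_scale (K := ℂ) hG (u : ℂ) v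
    have h3 : ∀ w : Fin (N + 1) → ℂ, eval w G = aeval w G := fun w => rfl
    rw [h3, h3]
    exact h2
  unfold Pool.Agent.H17.VanishesAt
  rw [h1, mul_eq_zero]
  constructor
  · rintro (h | h)
    · exact absurd h (pow_ne_zero _ u.ne_zero)
    · exact h
  · exact fun h => Or.inr h

private def HomM_val (P : Ideal (MvPolynomial (Fin (N + 1)) ℂ)) [P.IsPrime] :
    FunField P →ₐ[ℂ] FractionRing (MvPolynomial (Fin (N + 1)) ℂ ⧸ P) :=
  (Pool.Agent.H17GT.functionField P).val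

open Pool.Agent.H17GT (functionField)

private lemma HomM_val_ratio (P : Ideal (MvPolynomial (Fin (N + 1)) ℂ)) [P.IsPrime] (i j : Fin (N + 1)) :
    HomM_val P (ratio P i j) = coordFun P i / coordFun P j := rfl

private lemma HomM_val_injective (P : Ideal (MvPolynomial (Fin (N + 1)) ℂ)) [P.IsPrime] : Function.Injective (HomM_val P) :=
  (HomM_val P).injective

private lemma HomM_generate (P : Ideal (MvPolynomial (Fin (N + 1)) ℂ)) [P.IsPrime] :
    IntermediateField.adjoin ℂ {y : FunField P | ∃ i j, y = ratio P i j} = ⊤ := by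
  have h : IntermediateField.adjoin ℂ {y : functionField P | ∃ i j, y = ratio P i j} = ⊤ := by
    rw [← IntermediateField.lift_inj, IntermediateField.lift_adjoin, IntermediateField.lift_top]
    conv_rhs => rw [functionField]
    congr 1
    ext y
    constructor
    · rintro ⟨y', ⟨i, j, rfl⟩, rfl⟩
      exact ⟨i, j, rfl⟩
    · rintro ⟨i, j, rfl⟩
      exact ⟨ratio P i j, ⟨i, j, rfl⟩, rfl⟩
  exact h

private lemma HomM_ratio_div (P : Ideal (MvPolynomial (Fin (N + 1)) ℂ)) [P.IsPrime] {j : Fin (N + 1)} (hj : coordFun P j ≠ 0) (i l : Fin (N + 1)) :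
    ratio P i l = ratio P i j / ratio P l j := by
  apply HomM_val_injective
  rw [map_div₀, HomM_val_ratio, HomM_val_ratio, HomM_val_ratio, div_div_div_cancel_right₀ hj]

private lemma HomM_aeval_ratio (P : Ideal (MvPolynomial (Fin (N + 1)) ℂ)) [P.IsPrime] {G : MvPolynomial (Fin (N + 1)) ℂ} {n : ℕ} (hG : G.IsHomogeneous n)
    (hGP : G ∈ P) (j : Fin (N + 1)) : aeval (fun i => ratio P i j) G = 0 := by
  apply HomM_val_injective
  have h3 : HomM_val P (aeval (fun i => ratio P i j) G) = aeval (fun i => HomM_val P (ratio P i j)) G := by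
    rw [← MvPolynomial.comp_aeval]
    rfl
  have h4 : (fun i => HomM_val P (ratio P i j)) = fun i => (coordFun P j)⁻¹ * coordFun P i := by
    funext i
    rw [HomM_val_ratio, div_eq_inv_mul]
  rw [h3, h4, Pool.Agent.H92.GT.Proj.aeval_scale hG, (Pool.Agent.H92.GT.Proj.aeval_coordFun_eq_zero_iff P G).2 hGP, mul_zero, map_zero]

private lemma HomM_toM_aeval (c : Fin (N + 1) → Pool.Agent.H17.EntFun) (G : MvPolynomial (Fin (N + 1)) ℂ) : aeval (fun i => toM (c i)) G = toM (aeval c G) := by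
  have h := MvPolynomial.aeval_algebraMap_apply (R := ℂ) (A := Pool.Agent.H17.EntFun) Mer c G
  exact h

private lemma HomM_ev_aeval (z : ℂ) (c : Fin (N + 1) → Pool.Agent.H17.EntFun) (G : MvPolynomial (Fin (N + 1)) ℂ) :
    ((aeval c G : Pool.Agent.H17.EntFun) : ℂ → ℂ) z = eval (fun i => (c i : ℂ → ℂ) z) G := by
  have h1 : Pool.Agent.H17.EntFun.ev z (aeval c G) = eval₂ ((Pool.Agent.H17.EntFun.ev z).comp (algebraMap ℂ _)) (fun i => Pool.Agent.H17.EntFun.ev z (c i)) G := by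
    rw [aeval_def]
    exact (MvPolynomial.hom_eval₂ G _ _ _)
  exact h1

theorem homMap0 (Q : Ideal (MvPolynomial (Fin (N + 1)) ℂ)) [Q.IsPrime] (hX : ∃ i, (X i : MvPolynomial (Fin (N + 1)) ℂ) ∉ Q)
    (hK : CurveField (FunField Q)) (φ : FunField Q →ₐ[ℂ] Mer) :
    ∃ f : ℂ → PN N, HolomorphicInto f Set.univ ∧ (∀ z, ∀ R ∈ Q, ∀ n, R.IsHomogeneous n → VanishesAt R (f z)) ∧ (∃ z w, f z ≠ f w) ∧
      ∀ z₀ : ℂ, ∃ l, coordFun Q l ≠ 0 ∧ (∀ i, 0 ≤ ordM z₀ (φ (ratio Q i l))) ∧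
        ∀ (R : MvPolynomial (Fin (N + 1)) ℂ) (d : ℕ), R.IsHomogeneous d → VanishesAt R (f z₀) → 0 < ordM z₀ (φ (aeval (fun i => ratio Q i l) R)) := by
  classical
  obtain ⟨j, hjX⟩ := hX
  have hj : coordFun Q j ≠ 0 := by
    intro h0
    apply hjX
    rw [← Pool.Agent.H92.GT.Proj.aeval_coordFun_eq_zero_iff, aeval_X]
    exact h0
  have hrj : ratio Q j j = 1 := by
    apply HomM_val_injective
    rw [HomM_val_ratio, map_one, div_self hj]
  -- the common denominator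
  obtain ⟨b', hb'⟩ := IsLocalization.exist_integer_multiples_of_finite (nonZeroDivisors Pool.Agent.H17.EntFun) (fun i : Fin (N + 1) => φ (ratio Q i j))
  have hb'0 : (b' : Pool.Agent.H17.EntFun) ≠ 0 := nonZeroDivisors.ne_zero b'.2
  have hinj : Function.Injective (algebraMap Pool.Agent.H17.EntFun Mer) := IsFractionRing.injective _ _
  have htb : toM (b' : Pool.Agent.H17.EntFun) ≠ 0 := fun h => hb'0 (hinj (h.trans (map_zero _).symm))
  choose a ha using hb'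
  have ha' : ∀ i, toM (a i) = toM (b' : Pool.Agent.H17.EntFun) * φ (ratio Q i j) := by
    intro i
    have h1 := ha i
    rw [Algebra.smul_def] at h1
    exact h1
  have haj : a j ≠ 0 := by
    intro h0
    have h1 := ha' j
    rw [h0, hrj, map_one, mul_one] at h1
    exact htb (h1.symm.trans (map_zero _))
  obtain ⟨f, hf, hfz⟩ := exists_map a ⟨j, haj⟩
  -- the coordinates
  have key : ∀ (z₀ : ℂ) (k : ℕ) (c : Fin (N + 1) → Pool.Agent.H17.EntFun), (∀ i, a i = Pool.Agent.H17.EntFun.coord z₀ ^ k * c i) →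
      ∃ s : Mer, s ≠ 0 ∧ ∀ i, φ (ratio Q i j) = s * toM (c i) := by
    intro z₀ k c hc
    refine ⟨toM (Pool.Agent.H17.EntFun.coord z₀ ^ k) / toM (b' : Pool.Agent.H17.EntFun), ?_, ?_⟩
    · refine div_ne_zero ?_ htb
      intro h0
      exact pow_ne_zero k (Pool.Agent.H17.EntFun.coord_ne_zero z₀) (hinj (h0.trans (map_zero _).symm))
    · intro i
      have h1 := ha' i
      rw [hc i] at h1
      have h2 : toM (Pool.Agent.H17.EntFun.coord z₀ ^ k * c i) = toM (Pool.Agent.H17.EntFun.coord z₀ ^ k) * toM (c i) := map_mul _ _ _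
      rw [h2] at h1
      rw [div_mul_eq_mul_div, h1, mul_div_cancel_left₀ _ htb]
  refine ⟨f, hf, ?_, ?_, ?_⟩
  · -- the map is into the closed subvariety
    intro z₀ G hGQ n hG
    obtain ⟨k, c, h, hc, hfc⟩ := hfz z₀
    obtain ⟨s, hs, hsc⟩ := key z₀ k c hc
    rw [hfc, HomM_vanishes_mk hG]
    have h1 := congrArg φ (HomM_aeval_ratio Q hG hGQ j)
    rw [map_zero] at h1
    have h2 : φ (aeval (fun i => ratio Q i j) G) = aeval (fun i => φ (ratio Q i j)) G := by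
      rw [← MvPolynomial.comp_aeval]
      rfl
    have h3 : (fun i => φ (ratio Q i j)) = fun i => s * toM (c i) := funext hsc
    rw [h2, h3, Pool.Agent.H92.GT.Proj.aeval_scale hG, HomM_toM_aeval] at h1
    have h4 : toM (aeval c G) = 0 := (mul_eq_zero.1 h1).resolve_left (pow_ne_zero _ hs)
    have h5 : aeval c G = 0 := hinj (h4.trans (map_zero _).symm)
    rw [← HomM_ev_aeval, h5]
    rfl
  · -- the map is not constant
    by_contra hcon
    push Not at hcon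
    obtain ⟨k, c, h, hc, hfc⟩ := hfz 0
    obtain ⟨l, hl⟩ := Function.ne_iff.1 h
    set v : Fin (N + 1) → ℂ := fun i => (c i : ℂ → ℂ) 0 with hv
    have hl' : v l ≠ 0 := hl
    have hprop : ∀ i, a i * algebraMap ℂ Pool.Agent.H17.EntFun (v l) = a l * algebraMap ℂ Pool.Agent.H17.EntFun (v i) := by
      intro i
      ext z
      obtain ⟨k', c', h', hc', hfc'⟩ := hfz z
      have h1 : Projectivization.mk ℂ (fun i => (c' i : ℂ → ℂ) z) h' = Projectivization.mk ℂ v h := by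
        rw [← hfc', ← hfc]
        exact hcon z 0
      rw [Projectivization.mk_eq_mk_iff'] at h1
      obtain ⟨u, hu⟩ := h1
      have h2 : ∀ i, (c' i : ℂ → ℂ) z = u * v i := fun i => (congrFun hu i).symm
      have h3 : ∀ i, (a i : ℂ → ℂ) z = (z - z) ^ k' * (u * v i) := by
        intro i
        rw [hc' i, ← h2 i]
        rfl
      change (a i : ℂ → ℂ) z * v l = (a l : ℂ → ℂ) z * v i
      rw [h3 i, h3 l]
      ring
    have hprop' : ∀ i, φ (ratio Q i j) * algebraMap ℂ Mer (v l) = φ (ratio Q l j) * algebraMap ℂ Mer (v i) := by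
      intro i
      have h1 := congrArg (algebraMap Pool.Agent.H17.EntFun Mer) (hprop i)
      rw [map_mul, map_mul] at h1
      have h2 := ha' i
      have h3 := ha' l
      have h4 : toM (b' : Pool.Agent.H17.EntFun) * (φ (ratio Q i j) * algebraMap ℂ Mer (v l)) =
          toM (b' : Pool.Agent.H17.EntFun) * (φ (ratio Q l j) * algebraMap ℂ Mer (v i)) := by
        rw [← mul_assoc, ← mul_assoc, ← h2, ← h3, algebraMap_eq, algebraMap_eq]
        exact h1
      exact mul_left_cancel₀ htb h4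
    have hpropK : ∀ i, ratio Q i j * algebraMap ℂ (FunField Q) (v l) = ratio Q l j * algebraMap ℂ (FunField Q) (v i) := by
      intro i
      have hφ : Function.Injective φ := φ.toRingHom.injective
      apply hφ
      have h1 := hprop' i
      rw [map_mul, map_mul, AlgHom.commutes, AlgHom.commutes]
      exact h1
    have hvl : algebraMap ℂ (FunField Q) (v l) ≠ 0 := by
      intro h0
      exact hl' ((algebraMap ℂ (FunField Q)).injective (h0.trans (map_zero _).symm))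
    have hrl : ratio Q l j ≠ 0 := by
      intro h0
      have h1 := hpropK j
      rw [h0, zero_mul, hrj, one_mul] at h1
      exact hvl h1
    have hrc : ∀ i, ratio Q i j / ratio Q l j = algebraMap ℂ (FunField Q) (v i / v l) := by
      intro i
      rw [map_div₀, div_eq_div_iff hrl hvl, mul_comm (algebraMap ℂ (FunField Q) (v i))]
      exact hpropK i
    have hbot : IntermediateField.adjoin ℂ {y : FunField Q | ∃ i j, y = ratio Q i j} = ⊥ := by
      rw [IntermediateField.adjoin_eq_bot_iff]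
      rintro y ⟨i, i', rfl⟩
      have h1 : ratio Q i i' = (ratio Q i j / ratio Q l j) / (ratio Q i' j / ratio Q l j) := by
        rw [div_div_div_cancel_right₀ hrl, ← HomM_ratio_div Q hj]
      rw [h1, hrc, hrc, ← map_div₀]
      exact IntermediateField.algebraMap_mem _ _
    obtain ⟨x, hx⟩ := hK.exists_tr
    apply hx
    have hx1 : x ∈ (⊥ : IntermediateField ℂ (FunField Q)) := by
      rw [← hbot, HomM_generate]
      exact IntermediateField.mem_top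
    obtain ⟨t, ht⟩ := IntermediateField.mem_bot.1 hx1
    rw [← ht]
    exact isAlgebraic_algebraMap t
  · -- the forms which vanish at a point
    intro z₀
    obtain ⟨k, c, h, hc, hfc⟩ := hfz z₀
    obtain ⟨s, hs, hsc⟩ := key z₀ k c hc
    obtain ⟨l, hl⟩ := Function.ne_iff.1 h
    have hl' : (c l : ℂ → ℂ) z₀ ≠ 0 := hl
    have hcl : toM (c l) ≠ 0 := by
      intro h0
      have h1 : c l = 0 := hinj (h0.trans (map_zero _).symm)
      rw [h1] at hl'
      exact hl' rfl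
    have hrl : ratio Q l j ≠ 0 := by
      intro h0
      have h1 := hsc l
      rw [h0, map_zero] at h1
      exact mul_ne_zero hs hcl h1.symm
    have hcfl : coordFun Q l ≠ 0 := by
      intro h0
      apply hrl
      apply HomM_val_injective
      rw [HomM_val_ratio, h0, zero_div, map_zero]
    have hordl : ordM z₀ (toM (c l)) = 0 := by
      apply le_antisymm
      · rw [← not_lt, ordM_toM_pos]
        exact hl'
      · exact ordM_toM_nonneg _ _
    have hrat : ∀ i, φ (ratio Q i l) * toM (c l) = toM (c i) := by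
      intro i
      rw [HomM_ratio_div Q hj i l, map_div₀, hsc i, hsc l, mul_div_mul_left _ _ hs, div_mul_cancel₀ _ hcl]
    refine ⟨l, hcfl, fun i => ?_, fun R d hd hR => ?_⟩
    · have h1 := congrArg (ordM z₀) (hrat i)
      rw [AddValuation.map_mul, hordl, add_zero] at h1
      rw [h1]
      exact ordM_toM_nonneg _ _
    · rw [hfc, HomM_vanishes_mk hd] at hR
      have h2 : φ (aeval (fun i => ratio Q i l) R) = aeval (fun i => φ (ratio Q i l)) R := by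
        rw [← MvPolynomial.comp_aeval]
        rfl
      have h3 : toM (c l) ^ d * φ (aeval (fun i => ratio Q i l) R) = toM (aeval c R) := by
        rw [h2, ← Pool.Agent.H92.GT.Proj.aeval_scale hd, ← HomM_toM_aeval]
        congr 2
        funext i
        rw [mul_comm]
        exact hrat i
      have h4 := congrArg (ordM z₀) h3
      rw [AddValuation.map_mul, AddValuation.map_pow, hordl, smul_zero, zero_add] at h4
      rw [h4, ordM_toM_pos, HomM_ev_aeval]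
      exact hR

theorem nonneg_of_smul {e : ℕ} (he : 1 ≤ e) {a b : WithTop ℤ} (h : a = e • b) (ha : 0 ≤ a) : 0 ≤ b := by
  by_contra hcon
  push Not at hcon
  have hb : b ≠ ⊤ := ne_top_of_lt hcon
  obtain ⟨n, rfl⟩ := WithTop.ne_top_iff_exists.mp hb
  have h1 : n < 0 := by exact_mod_cast hcon
  rw [h, ← WithTop.coe_nsmul] at ha
  have h2 : (0 : ℤ) ≤ e • n := by exact_mod_cast ha
  rw [nsmul_eq_mul] at h2
  have h3 : (1 : ℤ) ≤ e := by exact_mod_cast he
  nlinarith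

theorem pos_of_smul {e : ℕ} {a b : WithTop ℤ} (h : a = e • b) (ha : 0 < a) : 0 < b := by
  by_contra hcon
  push Not at hcon
  have h1 : e • b ≤ e • (0 : WithTop ℤ) := nsmul_le_nsmul_right hcon e
  rw [smul_zero, ← h] at h1
  exact absurd ha (not_lt.mpr h1)

theorem homMapL (Q : Ideal (MvPolynomial (Fin (N + 1)) ℂ)) [Q.IsPrime] (hX : ∃ i, (X i : MvPolynomial (Fin (N + 1)) ℂ) ∉ Q) (hK : CurveField (FunField Q))
    {s : ℕ} {G : Fin s → MvPolynomial (Fin (N + 1)) ℂ} (hG : ∀ m, ∃ d, (G m).IsHomogeneous d) (φ : FunField Q →ₐ[ℂ] Mer)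
    (hB : ∀ (z₀ : ℂ) (E : Place (FunField Q)) (e : ℕ), 1 ≤ e → (∀ g, ordM z₀ (φ g) = e • E.ord g) → ¬ OnBd Q G E) :
    ∃ f : ℂ → PN N, HolomorphicInto f Set.univ ∧ (∀ z, f z ∈ locVar Q G) ∧ ∃ z w, f z ≠ f w := by
  obtain ⟨f, hf, hfQ, hne, hz⟩ := homMap0 Q hX hK φ
  refine ⟨f, hf, fun z₀ => ⟨hfQ z₀, ?_⟩, hne⟩
  by_contra hcon
  push Not at hcon
  obtain ⟨E, e, he, hE⟩ := exists_placeM hK φ z₀
  obtain ⟨l, hl, hreg, hR⟩ := hz z₀
  refine hB z₀ E e he hE ⟨l, hl, fun i => nonneg_of_smul he (hE _) (hreg i), fun m => ?_⟩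
  obtain ⟨d, hd⟩ := hG m
  exact pos_of_smul (hE _) (hR _ d hd (hcon m))

end Pool.Agent.H13.CV

end
end

section

/-!
# TG XDefs: the extension theorem in abstract form, definitions

`P` is a set of pairs of maps, `dd p y` the distance of the members of the pair `p` over `y`, `J p` a function on `ℂ^(k+1) \ D` (the integral), `Tr q e` means that the line
`q + ℂ e` is transversal to `D` at the point `q ∈ D`.
-/

set_option autoImplicit false

open Topology Filter Metric MeasureTheory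

namespace Pool.Agent.TG

open Pool.Agent.AD (Vd)

/-- the hypotheses of the extension theorem -/
structure PairData {k : ℕ} (Γ : AddSubgroup (Vd (k + 1))) (D : Set (Vd (k + 1))) (Tr : Vd (k + 1) → Vd (k + 1) → Prop) {P : Type} (dd : P → Vd (k + 1) → ℝ)
    (J : P → Vd (k + 1) → ℂ) : Prop where
  cpt : ∃ R : ℝ, 0 < R ∧ ∀ y : Vd (k + 1), ∃ l ∈ Γ, ‖y - l‖ ≤ R
  D_closed : IsClosed D
  D_inv : ∀ y ∈ D, ∀ l ∈ Γ, y + l ∈ D
  thin : ∀ y : Vd (k + 1), ∃ h : Vd (k + 1) → ℂ, AnalyticAt ℂ h y ∧ (∀ᶠ z in 𝓝 y, z ∈ D → h z = 0) ∧ ¬ ∀ᶠ z in 𝓝 y, h z = 0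
  ae_tr : ∀ e : Vd (k + 1), e ≠ 0 → ∀ᵐ y : Vd (k + 1), ∀ z : ℂ, y + z • e ∈ D → Tr (y + z • e) e
  tr_iso : ∀ q ∈ D, ∀ e : Vd (k + 1), Tr q e → ∀ᶠ z in 𝓝[≠] (0 : ℂ), q + z • e ∉ D
  shift : ∀ p, ∀ l ∈ Γ, ∃ p', (∀ y, dd p' y = dd p (y + l)) ∧ ∀ y, J p' y = J p (y + l)
  hol : ∀ d : ℝ, 0 < d → ∃ ε C : ℝ, 0 < ε ∧ ∀ p, ∀ y ∈ Gd D d, dd p y ≤ ε → AnalyticAt ℂ (J p) y ∧ ‖J p y‖ ≤ C
  cross : ∀ q ∈ D, ∀ e : Vd (k + 1), Tr q e → ∃ s₀ : ℝ, 0 < s₀ ∧ ∀ r₁ r₂ : ℝ, 0 < r₁ → r₁ < r₂ → r₂ < s₀ → ∃ ε : ℝ, 0 < ε ∧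
    ∀ p, (∀ z : ℂ, r₁ < ‖z‖ → ‖z‖ < r₂ → dd p (q + z • e) ≤ ε) →
      ∃ J' : ℂ → ℂ, DifferentiableOn ℂ J' (ball 0 r₂) ∧ ∀ z : ℂ, r₁ < ‖z‖ → ‖z‖ < r₂ → J' z = J p (q + z • e)

/-- the mean of `F` on the circle `y + r e^{it} e` -/
noncomputable def cm {n : ℕ} (F : Vd n → ℂ) (e : Vd n) (r : ℝ) (y : Vd n) : ℂ :=
  (2 * Real.pi * Complex.I : ℂ)⁻¹ • ∮ z in C(0, r), (z - 0)⁻¹ • F (y + z • e)

end Pool.Agent.TG

end

section

/-!
# TG XPt: the mean value property of the integral on a transversal disc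
-/

set_option autoImplicit false

open Topology Filter Metric MeasureTheory

namespace Pool.Agent.TG

open Pool.Agent.AD (Vd)

variable {k : ℕ} {Γ : AddSubgroup (Vd (k + 1))} {D : Set (Vd (k + 1))} {Tr : Vd (k + 1) → Vd (k + 1) → Prop} {P : Type} {dd : P → Vd (k + 1) → ℝ}
  {J : P → Vd (k + 1) → ℂ}

theorem gdx_mono {δ₁ δ₂ : ℝ} (h : δ₁ ≤ δ₂) : Gd D δ₂ ⊆ Gd D δ₁ := fun _ hz b hb => h.trans (hz b hb)

theorem gdx_notMem {δ' : ℝ} (h : 0 < δ') {z : Vd (k + 1)} (hz : z ∈ Gd D δ') : z ∉ D := by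
  intro hzB
  have h1 := hz z hzB
  rw [sub_self, norm_zero] at h1
  linarith

theorem gdx_closed (δ' : ℝ) : IsClosed (Gd D δ') := by
  have h1 : Gd D δ' = ⋂ b ∈ D, {z : Vd (k + 1) | δ' ≤ ‖z - b‖} := by
    ext z
    simp only [Set.mem_iInter]
    exact Iff.rfl
  rw [h1]
  refine isClosed_biInter fun b _ => ?_
  exact isClosed_le continuous_const (continuous_id.sub continuous_const).norm

theorem gdx_add (hD : ∀ y ∈ D, ∀ l ∈ Γ, y + l ∈ D) {δ' : ℝ} {z l : Vd (k + 1)} (hl : l ∈ Γ) : z + l ∈ Gd D δ' ↔ z ∈ Gd D δ' := by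
  constructor
  · intro hz b hb
    have h1 := hz (b + l) (hD b hb l hl)
    rwa [add_sub_add_right_eq_sub] at h1
  · intro hz b hb
    have h1 := hz (b + -l) (hD b hb (-l) (Γ.neg_mem hl))
    have h2 : z - (b + -l) = z + l - b := by abel
    rwa [h2] at h1

/-- a compact set off `D` is at a positive distance -/
theorem gdx_compact (hD : IsClosed D) {K : Set (Vd (k + 1))} (hK : IsCompact K) (h : ∀ y ∈ K, y ∉ D) : ∃ d : ℝ, 0 < d ∧ K ⊆ Gd D d := by
  obtain ⟨d, hd, hsub⟩ := hK.exists_thickening_subset_open hD.isOpen_compl h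
  refine ⟨d, hd, fun y hy b hb => ?_⟩
  by_contra hcon
  push Not at hcon
  have h1 : b ∈ thickening d K := by
    rw [mem_thickening_iff]
    exact ⟨y, hy, by rwa [dist_comm, dist_eq_norm]⟩
  exact hsub h1 hb

theorem line_norm {e : Vd (k + 1)} (he : ‖e‖ ≤ 1) (z : ℂ) : ‖z • e‖ ≤ ‖z‖ := by
  rw [norm_smul]
  calc ‖z‖ * ‖e‖ ≤ ‖z‖ * 1 := mul_le_mul_of_nonneg_left he (norm_nonneg _)
    _ = ‖z‖ := mul_one _

/-- the points of `D` on a transversal disc are finitely many -/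
private theorem pt_finite (h : PairData Γ D Tr dd J) {e w : Vd (k + 1)} {r : ℝ} (hgood : ∀ z : ℂ, w + z • e ∈ D → Tr (w + z • e) e) :
    {z : ℂ | z ∈ closedBall (0 : ℂ) r ∧ w + z • e ∈ D}.Finite := by
  by_contra hinf
  have hcl : IsClosed {z : ℂ | w + z • e ∈ D} := h.D_closed.preimage (by fun_prop)
  obtain ⟨z, hz, hacc⟩ := Set.Infinite.exists_accPt_of_subset_isCompact hinf (isCompact_closedBall (0 : ℂ) r) fun z hz => hz.1
  rw [accPt_iff_frequently] at hacc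
  have hzD : w + z • e ∈ D := by
    have h1 : z ∈ closure {z : ℂ | w + z • e ∈ D} := by
      rw [mem_closure_iff_frequently]
      exact hacc.mono fun y hy => hy.2.2
    rwa [hcl.closure_eq] at h1
  have h1 := h.tr_iso _ hzD e (hgood z hzD)
  have h2 : Tendsto (fun y : ℂ => y - z) (𝓝[≠] z) (𝓝[≠] 0) := by
    refine tendsto_nhdsWithin_iff.2 ⟨?_, ?_⟩
    · have h3 : Tendsto (fun y : ℂ => y - z) (𝓝 z) (𝓝 (z - z)) := (continuous_id.sub continuous_const).tendsto z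
      rw [sub_self] at h3
      exact h3.mono_left nhdsWithin_le_nhds
    · filter_upwards [self_mem_nhdsWithin] with y hy
      exact sub_ne_zero.2 hy
  have h3 := h2.eventually h1
  have h4 : ∃ᶠ y in 𝓝[≠] z, w + y • e ∈ D := by
    rw [frequently_nhdsWithin_iff]
    exact hacc.mono fun y hy => ⟨hy.2.2, hy.1⟩
  obtain ⟨y, hy1, hy2⟩ := (h4.and_eventually h3).exists
  apply hy2
  have e1 : w + z • e + (y - z) • e = w + y • e := by
    rw [sub_smul]
    abel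
  rw [e1]
  exact hy1

theorem PairData.point (h : PairData Γ D Tr dd J) {e w : Vd (k + 1)} {r : ℝ} (hr : 0 < r) (hr1 : r < 1) (he : ‖e‖ ≤ 1) (hw : w ∉ D)
    (hcirc : ∀ z : ℂ, ‖z‖ = r → w + z • e ∉ D) (hgood : ∀ z : ℂ, w + z • e ∈ D → Tr (w + z • e) e) :
    ∃ d ε : ℝ, 0 < d ∧ 0 < ε ∧ ∀ p, (∀ x ∈ Gd D d, ‖x - w‖ < 1 → dd p x ≤ ε) → cm (J p) e r w = J p w := by
  classical
  obtain ⟨Z, hZ⟩ : ∃ Z : Finset ℂ, ∀ z, z ∈ Z ↔ ‖z‖ ≤ r ∧ w + z • e ∈ D := by
    refine ⟨(pt_finite h (e := e) (w := w) (r := r) hgood).toFinset, fun z => ?_⟩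
    rw [Set.Finite.mem_toFinset]
    show z ∈ closedBall (0 : ℂ) r ∧ _ ↔ _
    rw [mem_closedBall, dist_zero_right]
  have hZ0 : ∀ ζ ∈ Z, 0 < ‖ζ‖ := by
    intro ζ hζ
    rw [norm_pos_iff]
    rintro rfl
    have h1 := ((hZ 0).1 hζ).2
    rw [zero_smul, add_zero] at h1
    exact hw h1
  have hZr : ∀ ζ ∈ Z, ‖ζ‖ < r := by
    intro ζ hζ
    refine lt_of_le_of_ne ((hZ ζ).1 hζ).1 fun h1 => ?_
    exact hcirc ζ h1 ((hZ ζ).1 hζ).2
  have hcr : ∀ ζ ∈ Z, ∃ s₀ : ℝ, 0 < s₀ ∧ ∀ r₁ r₂ : ℝ, 0 < r₁ → r₁ < r₂ → r₂ < s₀ → ∃ ε : ℝ, 0 < ε ∧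
      ∀ p, (∀ z : ℂ, r₁ < ‖z‖ → ‖z‖ < r₂ → dd p (w + ζ • e + z • e) ≤ ε) →
        ∃ J' : ℂ → ℂ, DifferentiableOn ℂ J' (ball 0 r₂) ∧ ∀ z : ℂ, r₁ < ‖z‖ → ‖z‖ < r₂ → J' z = J p (w + ζ • e + z • e) := by
    intro ζ hζ
    have h1 := ((hZ ζ).1 hζ).2
    exact h.cross _ h1 e (hgood ζ h1)
  choose! s₀ hs₀ hcross using hcr
  -- the radius
  obtain ⟨s, hs, hs1⟩ : ∃ s : ℝ, 0 < s ∧ ∀ ζ ∈ Z, s < s₀ ζ ∧ s < ‖ζ‖ ∧ ‖ζ‖ + s < r ∧ ∀ ζ' ∈ Z, ζ ≠ ζ' → 2 * s ≤ ‖ζ - ζ'‖ := by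
    have hev : ∀ᶠ s : ℝ in 𝓝[>] 0, ∀ ζ ∈ Z, s < s₀ ζ ∧ s < ‖ζ‖ ∧ ‖ζ‖ + s < r ∧ ∀ ζ' ∈ Z, ζ ≠ ζ' → 2 * s ≤ ‖ζ - ζ'‖ := by
      rw [Filter.eventually_all_finset]
      intro ζ hζ
      have a1 : ∀ c : ℝ, 0 < c → ∀ᶠ s : ℝ in 𝓝[>] 0, s < c := fun c hc => nhdsWithin_le_nhds (Iio_mem_nhds hc)
      have a2 : ∀ᶠ s : ℝ in 𝓝[>] 0, ∀ ζ' ∈ Z, ζ ≠ ζ' → 2 * s ≤ ‖ζ - ζ'‖ := by
        rw [Filter.eventually_all_finset]
        intro ζ' _
        by_cases hne : ζ = ζ'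
        · exact Eventually.of_forall fun s h1 => absurd hne h1
        · have hp : 0 < ‖ζ - ζ'‖ := norm_pos_iff.2 (sub_ne_zero.2 hne)
          filter_upwards [a1 (‖ζ - ζ'‖ / 2) (by positivity)] with s hs _
          linarith
      filter_upwards [a1 _ (hs₀ ζ hζ), a1 _ (hZ0 ζ hζ), a1 (r - ‖ζ‖) (by linarith [hZr ζ hζ]), a2] with s h1 h2 h3 h4
      exact ⟨h1, h2, by linarith, h4⟩
    obtain ⟨s, h1, h2⟩ := (hev.and self_mem_nhdsWithin).exists
    exact ⟨s, h2, h1⟩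
  -- the compact set
  have hKc : IsCompact {z : ℂ | z ∈ closedBall (0 : ℂ) r ∧ ∀ ζ ∈ Z, s / 3 ≤ ‖z - ζ‖} := by
    have e1 : {z : ℂ | ∀ ζ ∈ Z, s / 3 ≤ ‖z - ζ‖} = ⋂ ζ ∈ Z, {z : ℂ | s / 3 ≤ ‖z - ζ‖} := by
      ext z
      simp
    have e2 : IsClosed {z : ℂ | ∀ ζ ∈ Z, s / 3 ≤ ‖z - ζ‖} := by
      rw [e1]
      exact isClosed_biInter fun ζ _ => isClosed_le continuous_const (by fun_prop)
    exact (isCompact_closedBall (0 : ℂ) r).inter_right e2
  obtain ⟨d, hd, hdK⟩ := gdx_compact h.D_closed (hKc.image (show Continuous fun z : ℂ => w + z • e by fun_prop)) (by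
    rintro _ ⟨z, ⟨hz1, hz2⟩, rfl⟩ hzD
    rw [mem_closedBall, dist_zero_right] at hz1
    have h1 := hz2 z ((hZ z).2 ⟨hz1, hzD⟩)
    rw [sub_self, norm_zero] at h1
    linarith)
  have hmem : ∀ z : ℂ, ‖z‖ ≤ r → (∀ ζ ∈ Z, s / 3 ≤ ‖z - ζ‖) → w + z • e ∈ Gd D d := fun z hz1 hz2 =>
    hdK ⟨z, ⟨by rwa [mem_closedBall, dist_zero_right], hz2⟩, rfl⟩
  obtain ⟨ε₁, C, hε₁, hhol⟩ := h.hol d hd
  have hc2 : ∀ ζ ∈ Z, ∃ ε : ℝ, 0 < ε ∧ ∀ p, (∀ z : ℂ, s / 3 < ‖z‖ → ‖z‖ < 2 * s / 3 → dd p (w + ζ • e + z • e) ≤ ε) →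
      ∃ J' : ℂ → ℂ, DifferentiableOn ℂ J' (ball 0 (2 * s / 3)) ∧ ∀ z : ℂ, s / 3 < ‖z‖ → ‖z‖ < 2 * s / 3 → J' z = J p (w + ζ • e + z • e) :=
    fun ζ hζ => hcross ζ hζ (s / 3) (2 * s / 3) (by linarith) (by linarith) (by linarith [(hs1 ζ hζ).1])
  choose! ε₂ hε₂ hcr2 using hc2
  obtain ⟨ε, hε, hεle⟩ : ∃ ε : ℝ, 0 < ε ∧ (∀ ζ ∈ Z, ε ≤ ε₂ ζ) ∧ ε ≤ ε₁ := by
    have hev : ∀ᶠ ε : ℝ in 𝓝[>] 0, (∀ ζ ∈ Z, ε ≤ ε₂ ζ) ∧ ε ≤ ε₁ := by
      refine Eventually.and ?_ (nhdsWithin_le_nhds (Iic_mem_nhds hε₁))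
      rw [Filter.eventually_all_finset]
      intro ζ hζ
      exact nhdsWithin_le_nhds (Iic_mem_nhds (hε₂ ζ hζ))
    obtain ⟨ε, h1, h2⟩ := (hev.and self_mem_nhdsWithin).exists
    exact ⟨ε, h2, h1⟩
  refine ⟨d, ε, hd, hε, fun p hp => ?_⟩
  have hclose : ∀ z : ℂ, ‖z‖ ≤ r → (∀ ζ ∈ Z, s / 3 ≤ ‖z - ζ‖) → dd p (w + z • e) ≤ ε := by
    intro z hz1 hz2
    refine hp _ (hmem z hz1 hz2) ?_
    rw [add_sub_cancel_left]
    exact (line_norm he z).trans_lt (by linarith)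
  have hkey := disc_mean (j := fun z : ℂ => J p (w + z • e)) hr hs Z (fun ζ hζ => ⟨(hs1 ζ hζ).2.1, (hs1 ζ hζ).2.2.1⟩)
    (fun ζ hζ ζ' hζ' hne => (hs1 ζ hζ).2.2.2 ζ' hζ' hne) ?_ ?_
  · have h1 : cm (J p) e r w = (2 * Real.pi * Complex.I : ℂ)⁻¹ • ∮ z in C(0, r), (z - 0)⁻¹ • J p (w + z • e) := rfl
    rw [h1, hkey]
    simp only [zero_smul, add_zero]
  · intro z hz1 hz2
    have h1 : AnalyticAt ℂ (J p) (w + z • e) :=
      (hhol p _ (hmem z hz1 fun ζ hζ => (hz2 ζ hζ).le) ((hclose z hz1 fun ζ hζ => (hz2 ζ hζ).le).trans hεle.2)).1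
    have h2 : DifferentiableAt ℂ (fun z : ℂ => w + z • e) z := by fun_prop
    exact h1.differentiableAt.comp z h2
  · intro ζ hζ
    obtain ⟨J', hJ1, hJ2⟩ := hcr2 ζ hζ p (fun z hz1 hz2 => by
      have e1 : w + ζ • e + z • e = w + (ζ + z) • e := by
        rw [add_smul]
        abel
      rw [e1]
      refine (hclose (ζ + z) ?_ ?_).trans (hεle.1 ζ hζ)
      · have h1 := norm_add_le ζ z
        have h2 := (hs1 ζ hζ).2.2.1
        linarith
      · intro ζ' hζ'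
        by_cases hne : ζ = ζ'
        · rw [← hne, add_sub_cancel_left]
          exact hz1.le
        · have h1 := (hs1 ζ hζ).2.2.2 ζ' hζ' hne
          have h2 : ‖ζ - ζ'‖ ≤ ‖ζ + z - ζ'‖ + ‖z‖ := by
            have e2 : ζ - ζ' = (ζ + z - ζ') - z := by ring
            rw [e2]
            exact norm_sub_le _ _
          linarith)
    refine ⟨J', hJ1, fun z hz1 hz2 => ?_⟩
    rw [hJ2 z hz1 hz2]
    congr 1
    rw [add_smul]
    abel

end Pool.Agent.TG

end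

section

/-!
# TG XCirc: the circle mean of an analytic function is analytic

`cm_analytic`.  PROOF.  By compactness of the circle there are `ρ > 0` and `M` such that `F` is analytic and `‖F‖ ≤ M` at the points `y + z • e`, `y ∈ ball y₀ (2 ρ)`, `‖z‖ = r` (the set where `F` is
analytic is open: `isOpen_analyticAt`; `generalized_tube_lemma` or `IsCompact.exists_cthickening_subset_open` for the compact set `{y₀ + z • e}`; `F` is bounded on a compact
neighbourhood).  So `‖cm F e r y‖ ≤ M` on `ball y₀ ρ` (`circleIntegral.norm_integral_le_of_norm_le_const`), and by `TN.osgood_pi` it is enough that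
`t ↦ cm F e r (y + t • Pi.single l 1)` is differentiable at `0` for `y ∈ ball y₀ ρ`: the circle integral is an interval integral over `θ`
(`circleIntegral`), use `hasDerivAt_integral_of_dominated_loc_of_deriv_le` (the derivative in `t` is `fderiv ℂ F (y + t • v + z • e) v`, continuous in `(t, θ)` and bounded on a
smaller ball since `F` is analytic near the compact set).
-/

set_option autoImplicit false

open Topology Filter Metric MeasureTheory

namespace Pool.Agent.TG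

open Pool.Agent.AD (Vd)

theorem cm_bound {n : ℕ} {F : Vd n → ℂ} {e y : Vd n} {r C : ℝ} (hr : 0 < r) (h : ∀ z : ℂ, ‖z‖ = r → ‖F (y + z • e)‖ ≤ C) : ‖cm F e r y‖ ≤ C := by
  have h1 : ‖(2 * Real.pi * Complex.I : ℂ)⁻¹ • ∮ z in C(0, r), (z - 0)⁻¹ • F (y + z • e)‖ ≤ r * (r⁻¹ * C) := by
    refine circleIntegral.norm_two_pi_i_inv_smul_integral_le_of_norm_le_const hr.le ?_
    intro z hz
    have hz' : ‖z‖ = r := by simpa using hz
    rw [norm_smul, sub_zero, norm_inv, hz']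
    exact mul_le_mul_of_nonneg_left (h z hz') (inv_nonneg.2 hr.le)
  rw [← mul_assoc, mul_inv_cancel₀ hr.ne', one_mul] at h1
  exact h1

/-- the compact neighbourhood of the circle -/
private theorem xcirc_cpt {n : ℕ} {F : Vd n → ℂ} {e y₀ : Vd n} {r : ℝ} (h : ∀ z : ℂ, ‖z‖ = r → AnalyticAt ℂ F (y₀ + z • e)) :
    ∃ δ M M' : ℝ, 0 < δ ∧ ∀ y ∈ ball y₀ δ, ∀ z : ℂ, ‖z‖ = r →
      AnalyticAt ℂ F (y + z • e) ∧ ‖F (y + z • e)‖ ≤ M ∧ ‖fderiv ℂ F (y + z • e)‖ ≤ M' := by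
  set K : Set (Vd n) := (fun z : ℂ => y₀ + z • e) '' sphere (0 : ℂ) r with hK
  have hKc : IsCompact K := (isCompact_sphere (0 : ℂ) r).image (by fun_prop)
  have hU : IsOpen {x : Vd n | AnalyticAt ℂ F x} := isOpen_analyticAt ℂ F
  have hKU : K ⊆ {x : Vd n | AnalyticAt ℂ F x} := by
    rintro _ ⟨z, hz, rfl⟩
    exact h z (by simpa using hz)
  obtain ⟨δ, hδ, hsub⟩ := hKc.exists_cthickening_subset_open hU hKU
  have hTc : IsCompact (cthickening δ K) := hKc.cthickening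
  have hc1 : ContinuousOn F (cthickening δ K) := fun x hx => ((hsub hx : AnalyticAt ℂ F x).continuousAt).continuousWithinAt
  have hc2 : ContinuousOn (fderiv ℂ F) (cthickening δ K) := fun x hx => ((hsub hx : AnalyticAt ℂ F x).fderiv.continuousAt).continuousWithinAt
  obtain ⟨M, hM⟩ := hTc.exists_bound_of_continuousOn hc1
  obtain ⟨M', hM'⟩ := hTc.exists_bound_of_continuousOn hc2
  refine ⟨δ, M, M', hδ, ?_⟩
  intro y hy z hz
  have hmem : y + z • e ∈ cthickening δ K := by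
    refine mem_cthickening_of_dist_le (y + z • e) (y₀ + z • e) δ K ⟨z, by simpa using hz, rfl⟩ ?_
    rw [dist_add_right]
    exact (mem_ball.1 hy).le
  exact ⟨hsub hmem, hM _ hmem, hM' _ hmem⟩

theorem cm_analytic {n : ℕ} {F : Vd n → ℂ} {e y₀ : Vd n} {r : ℝ} (hr : 0 < r) (h : ∀ z : ℂ, ‖z‖ = r → AnalyticAt ℂ F (y₀ + z • e)) :
    AnalyticAt ℂ (cm F e r) y₀ := by
  obtain ⟨δ, M, M', hδ, hb⟩ := xcirc_cpt h
  refine Pool.Agent.TN.osgood_pi hδ (M := M) (fun y hy => cm_bound hr fun z hz => (hb y hy z hz).2.1) ?_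
  intro y hy l
  have hy' : dist y y₀ < δ := hy
  set v : Vd n := Pi.single l 1 with hv
  have hvn : ‖v‖ ≤ 1 := by
    rw [pi_norm_le_iff_of_nonneg zero_le_one]
    intro i
    by_cases hi : i = l
    · subst hi; simp [hv]
    · simp [hv, Pi.single_eq_of_ne hi]
  set s : ℝ := δ - dist y y₀ with hs
  have hs0 : 0 < s := by linarith
  have hin : ∀ t ∈ ball (0 : ℂ) s, y + t • v ∈ ball y₀ δ := by
    intro t ht
    have ht' : ‖t‖ < s := by simpa using ht
    rw [mem_ball]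
    have h1 : dist (y + t • v) y ≤ ‖t‖ := by
      rw [dist_eq_norm, add_sub_cancel_left, norm_smul]
      calc ‖t‖ * ‖v‖ ≤ ‖t‖ * 1 := mul_le_mul_of_nonneg_left hvn (norm_nonneg _)
        _ = ‖t‖ := mul_one _
    have h2 := dist_triangle (y + t • v) y y₀
    linarith
  have hcn : ∀ θ : ℝ, ‖circleMap 0 r θ‖ = r := fun θ => by rw [norm_circleMap_zero, abs_of_pos hr]
  have hcc : Continuous (fun θ : ℝ => circleMap (0 : ℂ) r θ) := continuous_circleMap 0 r
  have hdc : Continuous (deriv (circleMap (0 : ℂ) r)) := by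
    have e1 : deriv (circleMap (0 : ℂ) r) = fun θ => circleMap 0 r θ * Complex.I := by
      funext θ; exact deriv_circleMap 0 r θ
    rw [e1]
    exact (continuous_circleMap 0 r).mul continuous_const
  have hdn : ∀ θ : ℝ, ‖deriv (circleMap (0 : ℂ) r) θ‖ = r := by
    intro θ
    rw [deriv_circleMap, norm_mul, Complex.norm_I, mul_one, hcn]
  have hic : Continuous (fun θ : ℝ => (circleMap (0 : ℂ) r θ - 0)⁻¹) := by
    refine Continuous.inv₀ (hcc.sub continuous_const) ?_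
    intro θ h0
    have := hcn θ
    rw [sub_zero] at h0
    rw [h0, norm_zero] at this
    exact hr.ne this
  set g : ℂ → ℝ → ℂ := fun t θ => deriv (circleMap (0 : ℂ) r) θ • ((circleMap (0 : ℂ) r θ - 0)⁻¹ • F (y + t • v + circleMap (0 : ℂ) r θ • e)) with hg
  set g' : ℂ → ℝ → ℂ := fun t θ => deriv (circleMap (0 : ℂ) r) θ • ((circleMap (0 : ℂ) r θ - 0)⁻¹ • fderiv ℂ F (y + t • v + circleMap (0 : ℂ) r θ • e) v) with hg'
  have hgc : ∀ t ∈ ball (0 : ℂ) s, Continuous (g t) := by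
    intro t ht
    refine hdc.smul (hic.smul ?_)
    rw [continuous_iff_continuousAt]
    intro θ
    have h1 : ContinuousAt F (y + t • v + circleMap (0 : ℂ) r θ • e) := (hb _ (hin t ht) _ (hcn θ)).1.continuousAt
    exact ContinuousAt.comp (f := fun θ : ℝ => y + t • v + circleMap (0 : ℂ) r θ • e) h1 (continuous_const.add (hcc.smul continuous_const)).continuousAt
  have hgc' : ∀ t ∈ ball (0 : ℂ) s, Continuous (g' t) := by
    intro t ht
    refine hdc.smul (hic.smul ?_)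
    rw [continuous_iff_continuousAt]
    intro θ
    have h1 : ContinuousAt (fderiv ℂ F) (y + t • v + circleMap (0 : ℂ) r θ • e) := (hb _ (hin t ht) _ (hcn θ)).1.fderiv.continuousAt
    have h2 : ContinuousAt (fun θ : ℝ => fderiv ℂ F (y + t • v + circleMap (0 : ℂ) r θ • e)) θ :=
      ContinuousAt.comp (f := fun θ : ℝ => y + t • v + circleMap (0 : ℂ) r θ • e) h1 (continuous_const.add (hcc.smul continuous_const)).continuousAt
    exact h2.clm_apply continuousAt_const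
  have hb0 : ∀ θ : ℝ, ∀ t ∈ ball (0 : ℂ) s, ‖g' t θ‖ ≤ M' := by
    intro θ t ht
    have h1 : ‖fderiv ℂ F (y + t • v + circleMap (0 : ℂ) r θ • e) v‖ ≤ M' := by
      have h2 := (hb _ (hin t ht) _ (hcn θ)).2.2
      calc ‖fderiv ℂ F (y + t • v + circleMap (0 : ℂ) r θ • e) v‖ ≤ ‖fderiv ℂ F (y + t • v + circleMap (0 : ℂ) r θ • e)‖ * ‖v‖ := ContinuousLinearMap.le_opNorm _ _
        _ ≤ ‖fderiv ℂ F (y + t • v + circleMap (0 : ℂ) r θ • e)‖ * 1 := mul_le_mul_of_nonneg_left hvn (norm_nonneg _)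
        _ ≤ M' := by rw [mul_one]; exact h2
    rw [hg']
    show ‖deriv (circleMap (0 : ℂ) r) θ • ((circleMap (0 : ℂ) r θ - 0)⁻¹ • fderiv ℂ F (y + t • v + circleMap (0 : ℂ) r θ • e) v)‖ ≤ M'
    rw [norm_smul, norm_smul, hdn, norm_inv, sub_zero, hcn, ← mul_assoc, mul_inv_cancel₀ hr.ne', one_mul]
    exact h1
  have hdiff : ∀ θ : ℝ, ∀ t ∈ ball (0 : ℂ) s, HasDerivAt (fun t => g t θ) (g' t θ) t := by
    intro θ t ht
    have h1 : HasFDerivAt F (fderiv ℂ F (y + t • v + circleMap (0 : ℂ) r θ • e)) (y + t • v + circleMap (0 : ℂ) r θ • e) :=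
      (hb _ (hin t ht) _ (hcn θ)).1.differentiableAt.hasFDerivAt
    have h2 : HasDerivAt (fun t : ℂ => y + t • v + circleMap (0 : ℂ) r θ • e) v t := by
      have h3 : HasDerivAt (fun t : ℂ => t • v) ((1 : ℂ) • v) t := (hasDerivAt_id t).smul_const v
      rw [one_smul] at h3
      exact (h3.const_add y).add_const _
    have h4 : HasDerivAt (fun t : ℂ => F (y + t • v + circleMap (0 : ℂ) r θ • e)) (fderiv ℂ F (y + t • v + circleMap (0 : ℂ) r θ • e) v) t :=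
      HasFDerivAt.comp_hasDerivAt t h1 h2
    have h5 := (h4.const_smul ((circleMap (0 : ℂ) r θ - 0)⁻¹ : ℂ)).const_smul (deriv (circleMap (0 : ℂ) r) θ : ℂ)
    exact h5
  have hmain := intervalIntegral.hasDerivAt_integral_of_dominated_loc_of_deriv_le (μ := volume) (a := 0) (b := 2 * Real.pi) (F := g) (F' := g') (x₀ := (0 : ℂ))
    (s := ball (0 : ℂ) s) (bound := fun _ => M') (ball_mem_nhds 0 hs0)
    (by filter_upwards [ball_mem_nhds (0 : ℂ) hs0] with t ht; exact (hgc t ht).aestronglyMeasurable)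
    ((hgc 0 (mem_ball_self hs0)).intervalIntegrable _ _)
    (hgc' 0 (mem_ball_self hs0)).aestronglyMeasurable
    (Eventually.of_forall fun θ _ t ht => hb0 θ t ht)
    (continuous_const.intervalIntegrable _ _)
    (Eventually.of_forall fun θ _ t ht => hdiff θ t ht)
  have hfin := (hmain.2.const_smul ((2 * Real.pi * Complex.I : ℂ)⁻¹)).differentiableAt
  exact hfin

end Pool.Agent.TG

end

section

/-!
# TG XLoc: the integral is equal to its circle means near a point, with uniform constants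
-/

set_option autoImplicit false

open Topology Filter Metric MeasureTheory

namespace Pool.Agent.TG

open Pool.Agent.AD (Vd)

variable {k : ℕ} {Γ : AddSubgroup (Vd (k + 1))} {D : Set (Vd (k + 1))} {Tr : Vd (k + 1) → Vd (k + 1) → Prop} {P : Type} {dd : P → Vd (k + 1) → ℝ}
  {J : P → Vd (k + 1) → ℂ}

/-- on one small ball -/
private theorem loc_ball (h : PairData Γ D Tr dd J) {e y₀ y₁ : Vd (k + 1)} {r c ρ d₂ : ℝ} (he0 : e ≠ 0) (he : ‖e‖ ≤ 1) (hr : 0 < r) (hr1 : r < 1) (hc : 0 < c)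
    (hρ : 0 < ρ) (hρ1 : ρ < 1) (hcirc : ∀ y ∈ ball y₀ (4 * ρ), ∀ z : ℂ, ‖z‖ = r → y + z • e ∈ Gd D c) (hd₂ : 0 < d₂) (hy₁ : ‖y₁ - y₀‖ ≤ ρ)
    (hy₁D : y₁ ∈ Gd D d₂) : ∃ d ε : ℝ, 0 < d ∧ 0 < ε ∧ ∀ p, (∀ x ∈ Gd D d, ‖x - y₀‖ < 4 → dd p x ≤ ε) →
      ∀ y ∈ ball y₁ (min (d₂ / 2) ρ), cm (J p) e r y = J p y := by
  obtain ⟨β, hβ⟩ : ∃ β : Set (Vd (k + 1)), β = ball y₁ (min (d₂ / 2) ρ) := ⟨_, rfl⟩
  have hβG : ∀ y ∈ β, y ∈ Gd D (d₂ / 2) := by
    intro y hy b hb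
    rw [hβ, mem_ball, dist_eq_norm] at hy
    have h1 := hy₁D b hb
    have h2 : ‖y₁ - b‖ ≤ ‖y - b‖ + ‖y - y₁‖ := by
      have e1 : y₁ - b = (y - b) - (y - y₁) := by abel
      rw [e1]
      exact norm_sub_le _ _
    have h3 := hy.trans_le (min_le_left _ _)
    linarith
  have hβ0 : ∀ y ∈ β, ‖y - y₀‖ < 2 * ρ := by
    intro y hy
    rw [hβ, mem_ball, dist_eq_norm] at hy
    have h2 : ‖y - y₀‖ ≤ ‖y - y₁‖ + ‖y₁ - y₀‖ := by
      have e1 : y - y₀ = (y - y₁) + (y₁ - y₀) := by abel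
      rw [e1]
      exact norm_add_le _ _
    have h3 := hy.trans_le (min_le_right _ _)
    linarith
  have hβc : ∀ y ∈ β, ∀ z : ℂ, ‖z‖ = r → y + z • e ∈ Gd D c := by
    intro y hy z hz
    refine hcirc y ?_ z hz
    rw [mem_ball, dist_eq_norm]
    linarith [hβ0 y hy]
  obtain ⟨G, hG⟩ : ∃ G : ℕ → Set (Vd (k + 1)), ∀ m y, y ∈ G m ↔ y ∈ β ∧ ∀ p, (∀ x ∈ Gd D (1 / ((m : ℝ) + 1)), ‖x - y₀‖ < 4 → dd p x ≤ 1 / ((m : ℝ) + 1)) →
      cm (J p) e r y = J p y := ⟨fun m => {y | y ∈ β ∧ ∀ p, (∀ x ∈ Gd D (1 / ((m : ℝ) + 1)), ‖x - y₀‖ < 4 → dd p x ≤ 1 / ((m : ℝ) + 1)) →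
        cm (J p) e r y = J p y}, fun m y => Iff.rfl⟩
  obtain ⟨m, hm⟩ : ∃ m, volume (G m) ≠ 0 := by
    by_contra hcon
    push Not at hcon
    have h1 : volume (⋃ m, G m) = 0 := measure_iUnion_null hcon
    have h2 := h.ae_tr e he0
    have h3 : volume β = 0 := by
      refine measure_mono_null (t := (⋃ m, G m) ∪ {y | ¬ ∀ z : ℂ, y + z • e ∈ D → Tr (y + z • e) e}) ?_ (measure_union_null h1 h2)
      intro y hy
      by_cases hgood : ∀ z : ℂ, y + z • e ∈ D → Tr (y + z • e) e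
      · left
        obtain ⟨d', ε', hd', hε', hpt⟩ := h.point hr hr1 he (gdx_notMem (half_pos hd₂) (hβG y hy)) (fun z hz => gdx_notMem hc (hβc y hy z hz)) hgood
        obtain ⟨m, hm⟩ := exists_nat_one_div_lt (lt_min hd' hε')
        rw [Set.mem_iUnion]
        refine ⟨m, (hG m y).2 ⟨hy, fun p hp => hpt p fun x hx hxy => ?_⟩⟩
        refine (hp x (gdx_mono (hm.le.trans (min_le_left _ _)) hx) ?_).trans (hm.le.trans (min_le_right _ _))
        have e1 : x - y₀ = (x - y) + (y - y₀) := by abel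
        rw [e1]
        refine (norm_add_le _ _).trans_lt ?_
        linarith [hβ0 y hy]
      · right
        exact hgood
    have h4 : 0 < volume β := by
      rw [hβ]
      exact measure_ball_pos volume y₁ (lt_min (half_pos hd₂) hρ)
    rw [h3] at h4
    exact lt_irrefl _ h4
  obtain ⟨ε₁, C₁, hε₁, hhol₁⟩ := h.hol (d₂ / 2) (half_pos hd₂)
  obtain ⟨ε₂, C₂, hε₂, hhol₂⟩ := h.hol c hc
  have hm0 : (0 : ℝ) < 1 / ((m : ℝ) + 1) := by positivity
  obtain ⟨d, hd⟩ : ∃ d : ℝ, d = min (1 / ((m : ℝ) + 1)) (min (d₂ / 2) c) := ⟨_, rfl⟩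
  obtain ⟨ε, hε⟩ : ∃ ε : ℝ, ε = min (1 / ((m : ℝ) + 1)) (min ε₁ ε₂) := ⟨_, rfl⟩
  have hd1 : d ≤ 1 / ((m : ℝ) + 1) := by rw [hd]; exact min_le_left _ _
  have hd2 : d ≤ d₂ / 2 := by rw [hd]; exact (min_le_right _ _).trans (min_le_left _ _)
  have hd3 : d ≤ c := by rw [hd]; exact (min_le_right _ _).trans (min_le_right _ _)
  have he1 : ε ≤ 1 / ((m : ℝ) + 1) := by rw [hε]; exact min_le_left _ _
  have he2 : ε ≤ ε₁ := by rw [hε]; exact (min_le_right _ _).trans (min_le_left _ _)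
  have he3 : ε ≤ ε₂ := by rw [hε]; exact (min_le_right _ _).trans (min_le_right _ _)
  refine ⟨d, ε, ?_, ?_, fun p hp => ?_⟩
  · rw [hd]
    exact lt_min hm0 (lt_min (half_pos hd₂) hc)
  · rw [hε]
    exact lt_min hm0 (lt_min hε₁ hε₂)
  have hJ : ∀ y ∈ β, AnalyticAt ℂ (J p) y := by
    intro y hy
    refine (hhol₁ p y (hβG y hy) ((hp y (gdx_mono hd2 (hβG y hy)) ?_).trans he2)).1
    linarith [hβ0 y hy]
  have hK : ∀ y ∈ β, AnalyticAt ℂ (cm (J p) e r) y := by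
    intro y hy
    refine cm_analytic hr fun z hz => ?_
    have h1 := hβc y hy z hz
    refine (hhol₂ p _ h1 ((hp _ (gdx_mono hd3 h1) ?_).trans he3)).1
    have e1 : y + z • e - y₀ = (y - y₀) + z • e := by abel
    rw [e1]
    refine (norm_add_le _ _).trans_lt ?_
    have h2 := line_norm he z
    linarith [hβ0 y hy]
  have hzero := zero_of_volume (f := fun y => cm (J p) e r y - J p y) (U := β) (by rw [hβ]; exact isOpen_ball)
    (by rw [hβ]; exact (convex_ball y₁ _).isPreconnected) (fun y hy => (hK y hy).sub (hJ y hy)) (by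
      intro hcon
      apply hm
      refine measure_mono_null ?_ hcon
      intro y hy
      have h1 := (hG m y).1 hy
      refine ⟨h1.1, sub_eq_zero.2 (h1.2 p fun x hx hxy => (hp x (gdx_mono hd1 hx) hxy).trans he1)⟩)
  intro y hy
  rw [← hβ] at hy
  exact sub_eq_zero.1 (hzero y hy)

theorem PairData.loc (h : PairData Γ D Tr dd J) {e y₀ : Vd (k + 1)} {r c ρ d₂ : ℝ} (he0 : e ≠ 0) (he : ‖e‖ ≤ 1) (hr : 0 < r) (hr1 : r < 1) (hc : 0 < c)
    (hρ : 0 < ρ) (hρ1 : ρ < 1) (hcirc : ∀ y ∈ ball y₀ (4 * ρ), ∀ z : ℂ, ‖z‖ = r → y + z • e ∈ Gd D c) (hd₂ : 0 < d₂) :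
    ∃ d ε : ℝ, 0 < d ∧ 0 < ε ∧ ∀ p, (∀ x ∈ Gd D d, ‖x - y₀‖ < 4 → dd p x ≤ ε) → ∀ y ∈ Gd D d₂, ‖y - y₀‖ ≤ ρ → cm (J p) e r y = J p y := by
  have hcpt : IsCompact (Gd D d₂ ∩ closedBall y₀ ρ) := (isCompact_closedBall y₀ ρ).inter_left (gdx_closed d₂)
  have key : ∀ y₁ ∈ Gd D d₂ ∩ closedBall y₀ ρ, ∃ d ε : ℝ, 0 < d ∧ 0 < ε ∧ ∀ p, (∀ x ∈ Gd D d, ‖x - y₀‖ < 4 → dd p x ≤ ε) →
      ∀ y ∈ ball y₁ (min (d₂ / 2) ρ), cm (J p) e r y = J p y := by
    rintro y₁ ⟨h1, h2⟩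
    rw [mem_closedBall, dist_eq_norm] at h2
    exact loc_ball h he0 he hr hr1 hc hρ hρ1 hcirc hd₂ h2 h1
  choose! d ε hd hε hcl using key
  obtain ⟨t, htC, hcov⟩ := hcpt.elim_nhds_subcover (fun y₁ => ball y₁ (min (d₂ / 2) ρ)) (fun y₁ _ => ball_mem_nhds y₁ (lt_min (half_pos hd₂) hρ))
  obtain ⟨δ, hδ, hδ1⟩ : ∃ δ : ℝ, 0 < δ ∧ ∀ y ∈ t, δ ≤ d y ∧ δ ≤ ε y := by
    have hev : ∀ᶠ δ : ℝ in 𝓝[>] 0, ∀ y ∈ t, δ ≤ d y ∧ δ ≤ ε y := by
      rw [Filter.eventually_all_finset]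
      intro y hy
      filter_upwards [nhdsWithin_le_nhds (Iic_mem_nhds (hd y (htC y hy))), nhdsWithin_le_nhds (Iic_mem_nhds (hε y (htC y hy)))] with δ h1 h2
      exact ⟨h1, h2⟩
    obtain ⟨δ, h1, h2⟩ := (hev.and self_mem_nhdsWithin).exists
    exact ⟨δ, h2, h1⟩
  refine ⟨δ, δ, hδ, hδ, fun p hp y hy hyρ => ?_⟩
  obtain ⟨y₁, hy₁, hy₁'⟩ := Set.mem_iUnion₂.mp (hcov ⟨hy, by rwa [mem_closedBall, dist_eq_norm]⟩)
  exact hcl y₁ (htC y₁ hy₁) p (fun x hx hxy => (hp x (gdx_mono (hδ1 y₁ hy₁).1 hx) hxy).trans (hδ1 y₁ hy₁).2) y hy₁'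

end Pool.Agent.TG

end

section

/-!
# TG XExt: the extension theorem
-/

set_option autoImplicit false

open Topology Filter Metric MeasureTheory

namespace Pool.Agent.TG

open Pool.Agent.AD (Vd)

variable {k : ℕ} {Γ : AddSubgroup (Vd (k + 1))} {D : Set (Vd (k + 1))} {Tr : Vd (k + 1) → Vd (k + 1) → Prop} {P : Type} {dd : P → Vd (k + 1) → ℝ}
  {J : P → Vd (k + 1) → ℂ}

/-- `D` has no interior, uniformly -/
theorem PairData.thick (h : PairData Γ D Tr dd J) {η : ℝ} (hη : 0 < η) : ∃ d : ℝ, 0 < d ∧ ∀ y : Vd (k + 1), ∃ y' : Vd (k + 1), ‖y' - y‖ < η ∧ y' ∈ Gd D d := by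
  obtain ⟨R, hR, hcpt⟩ := h.cpt
  have key : ∀ y : Vd (k + 1), ∃ (y' : Vd (k + 1)) (d : ℝ), ‖y' - y‖ < η / 2 ∧ 0 < d ∧ y' ∈ Gd D d := by
    intro y
    obtain ⟨y', hy', hyD⟩ : ∃ y' : Vd (k + 1), ‖y' - y‖ < η / 2 ∧ y' ∉ D := by
      by_contra hcon
      push Not at hcon
      obtain ⟨g, _, hg1, hg2⟩ := h.thin y
      apply hg2
      filter_upwards [hg1, ball_mem_nhds y (half_pos hη)] with z hz1 hz2
      exact hz1 (hcon z (by rwa [mem_ball, dist_eq_norm] at hz2))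
    obtain ⟨d, hd, hsub⟩ := gdx_compact h.D_closed (isCompact_singleton (x := y')) (fun x hx => by rw [Set.mem_singleton_iff.1 hx]; exact hyD)
    exact ⟨y', d, hy', hd, hsub rfl⟩
  choose f d hf hd hfd using key
  obtain ⟨t, -, hcov⟩ := (isCompact_closedBall (0 : Vd (k + 1)) R).elim_nhds_subcover (fun y => ball y (η / 2)) (fun y _ => ball_mem_nhds y (half_pos hη))
  obtain ⟨δ, hδ, hδ1⟩ : ∃ δ : ℝ, 0 < δ ∧ ∀ y ∈ t, δ ≤ d y := by
    have hev : ∀ᶠ δ : ℝ in 𝓝[>] 0, ∀ y ∈ t, δ ≤ d y := by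
      rw [Filter.eventually_all_finset]
      intro y _
      exact nhdsWithin_le_nhds (Iic_mem_nhds (hd y))
    obtain ⟨δ, h1, h2⟩ := (hev.and self_mem_nhdsWithin).exists
    exact ⟨δ, h2, h1⟩
  refine ⟨δ, hδ, fun y => ?_⟩
  obtain ⟨l, hl, hyl⟩ := hcpt y
  obtain ⟨y₁, hy₁, hy₁'⟩ := Set.mem_iUnion₂.mp (hcov (show y - l ∈ closedBall (0 : Vd (k + 1)) R by rwa [mem_closedBall, dist_zero_right]))
  rw [mem_ball, dist_eq_norm] at hy₁'
  refine ⟨f y₁ + l, ?_, (gdx_add h.D_inv hl).2 (gdx_mono (hδ1 y₁ hy₁) (hfd y₁))⟩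
  have e1 : f y₁ + l - y = (f y₁ - y₁) - (y - l - y₁) := by abel
  rw [e1]
  refine (norm_sub_le _ _).trans_lt ?_
  linarith [hf y₁]

/-- two analytic functions which are equal near a point of a convex set are equal on it -/
private theorem ext_unique {f g : Vd (k + 1) → ℂ} {U : Set (Vd (k + 1))} (hc : Convex ℝ U) (hf : ∀ y ∈ U, AnalyticAt ℂ f y)
    (hg : ∀ y ∈ U, AnalyticAt ℂ g y) {y₀ : Vd (k + 1)} (hy₀ : y₀ ∈ U) (h : ∀ᶠ y in 𝓝 y₀, f y = g y) : ∀ y ∈ U, f y = g y := by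
  have h1 : AnalyticOnNhd ℂ f U := hf
  exact h1.eqOn_of_preconnected_of_eventuallyEq hg hc.isPreconnected hy₀ h

theorem PairData.ext (h : PairData Γ D Tr dd J) : ∃ r₁ : ℝ, 0 < r₁ ∧ ∀ d₂ : ℝ, 0 < d₂ → ∃ d ε C : ℝ, 0 < d ∧ 0 < ε ∧ ∀ p, ∃ Jt : Vd (k + 1) → ℂ,
    ∀ y : Vd (k + 1), (∀ x ∈ Gd D d, ‖x - y‖ < r₁ → dd p x ≤ ε) → AnalyticAt ℂ Jt y ∧ ‖Jt y‖ ≤ C ∧ (y ∈ Gd D d₂ → Jt y = J p y) := by
  obtain ⟨R, hR, hcpt⟩ := h.cpt
  choose e r c ρ he0 he hr hr1 hc hρ hρ1 hcirc using exists_circle h.D_closed h.thin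
  obtain ⟨t, -, hcov⟩ := (isCompact_closedBall (0 : Vd (k + 1)) R).elim_nhds_subcover (fun y => ball y (ρ y / 2))
    (fun y _ => ball_mem_nhds y (half_pos (hρ y)))
  obtain ⟨ρ₀, hρ₀, hρ₀1⟩ : ∃ ρ₀ : ℝ, 0 < ρ₀ ∧ ∀ y ∈ t, ρ₀ ≤ ρ y / 2 := by
    have hev : ∀ᶠ δ : ℝ in 𝓝[>] 0, ∀ y ∈ t, δ ≤ ρ y / 2 := by
      rw [Filter.eventually_all_finset]
      intro y _
      exact nhdsWithin_le_nhds (Iic_mem_nhds (half_pos (hρ y)))
    obtain ⟨δ, h1, h2⟩ := (hev.and self_mem_nhdsWithin).exists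
    exact ⟨δ, h2, h1⟩
  -- the centre of a point
  have hcen : ∀ y : Vd (k + 1), ∃ y₀ ∈ t, ∃ l ∈ Γ, ‖y - l - y₀‖ < ρ y₀ / 2 := by
    intro y
    obtain ⟨l, hl, hyl⟩ := hcpt y
    obtain ⟨y₁, hy₁, hy₁'⟩ := Set.mem_iUnion₂.mp (hcov (show y - l ∈ closedBall (0 : Vd (k + 1)) R by rwa [mem_closedBall, dist_zero_right]))
    rw [mem_ball, dist_eq_norm] at hy₁'
    exact ⟨y₁, hy₁, l, hl, hy₁'⟩
  choose cen hcent L hL hcenL using hcen
  obtain ⟨d₃, hd₃, hthick⟩ := h.thick (half_pos hρ₀)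
  refine ⟨6, by norm_num, fun d₂ hd₂ => ?_⟩
  obtain ⟨d₄, hd₄, hd₄2, hd₄3⟩ : ∃ d₄ : ℝ, 0 < d₄ ∧ d₄ ≤ d₂ ∧ d₄ ≤ d₃ / 2 := ⟨min d₂ (d₃ / 2), lt_min hd₂ (half_pos hd₃), min_le_left _ _, min_le_right _ _⟩
  choose dl εl hdl hεl hloc using fun y₀ : Vd (k + 1) => h.loc (he0 y₀) (he y₀) (hr y₀) (hr1 y₀) (hc y₀) (hρ y₀) (hρ1 y₀) (hcirc y₀) hd₄
  choose εc Cc hεc hhol using fun y₀ : Vd (k + 1) => h.hol (c y₀) (hc y₀)
  obtain ⟨δ, hδ, hδ1⟩ : ∃ δ : ℝ, 0 < δ ∧ ∀ y ∈ t, δ ≤ dl y ∧ δ ≤ εl y ∧ δ ≤ c y ∧ δ ≤ εc y := by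
    have hev : ∀ᶠ δ : ℝ in 𝓝[>] 0, ∀ y ∈ t, δ ≤ dl y ∧ δ ≤ εl y ∧ δ ≤ c y ∧ δ ≤ εc y := by
      rw [Filter.eventually_all_finset]
      intro y _
      filter_upwards [nhdsWithin_le_nhds (Iic_mem_nhds (hdl y)), nhdsWithin_le_nhds (Iic_mem_nhds (hεl y)), nhdsWithin_le_nhds (Iic_mem_nhds (hc y)),
        nhdsWithin_le_nhds (Iic_mem_nhds (hεc y))] with δ h1 h2 h3 h4
      exact ⟨h1, h2, h3, h4⟩
    obtain ⟨δ, h1, h2⟩ := (hev.and self_mem_nhdsWithin).exists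
    exact ⟨δ, h2, h1⟩
  refine ⟨δ, δ, ∑ y ∈ t, |Cc y|, hδ, hδ, fun p => ?_⟩
  -- the function near `y`
  have hK : ∀ y : Vd (k + 1), (∀ x ∈ Gd D δ, ‖x - y‖ < 5 → dd p x ≤ δ) → ∀ w : Vd (k + 1), ‖w - y‖ < ρ₀ →
      AnalyticAt ℂ (cm (J p) (e (cen y)) (r (cen y))) w ∧ ‖cm (J p) (e (cen y)) (r (cen y)) w‖ ≤ ∑ y ∈ t, |Cc y| ∧
        (w ∈ Gd D d₄ → cm (J p) (e (cen y)) (r (cen y)) w = J p w) := by
    intro y hcl w hw
    have hct := hcent y
    obtain ⟨hδa, hδb, hδc, hδd⟩ := hδ1 _ hct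
    obtain ⟨p', hp'1, hp'2⟩ := h.shift p (L y) (hL y)
    have hnw : ‖w - L y - cen y‖ < ρ (cen y) := by
      have e1 : w - L y - cen y = (w - y) + (y - L y - cen y) := by abel
      rw [e1]
      refine (norm_add_le _ _).trans_lt ?_
      linarith [hcenL y, hρ₀1 _ hct]
    have hcl' : ∀ x ∈ Gd D δ, ‖x - cen y‖ < 4 → dd p' x ≤ δ := by
      intro x hx hxy
      rw [hp'1]
      refine hcl _ ((gdx_add h.D_inv (hL y)).2 hx) ?_
      have e1 : x + L y - y = (x - cen y) - (y - L y - cen y) := by abel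
      rw [e1]
      refine (norm_sub_le _ _).trans_lt ?_
      linarith [hcenL y, hρ1 (cen y)]
    have hcmeq : cm (J p') (e (cen y)) (r (cen y)) (w - L y) = cm (J p) (e (cen y)) (r (cen y)) w := by
      unfold cm
      congr 1
      refine circleIntegral.integral_congr (hr (cen y)).le fun z _ => ?_
      show (z - 0)⁻¹ • J p' (w - L y + z • e (cen y)) = (z - 0)⁻¹ • J p (w + z • e (cen y))
      rw [hp'2]
      congr 2
      abel
    have hpts : ∀ z : ℂ, ‖z‖ = r (cen y) → w + z • e (cen y) ∈ Gd D (c (cen y)) ∧ dd p (w + z • e (cen y)) ≤ εc (cen y) := by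
      intro z hz
      have h1 : w - L y + z • e (cen y) ∈ Gd D (c (cen y)) := by
        refine hcirc (cen y) _ ?_ z hz
        rw [mem_ball, dist_eq_norm]
        linarith [hρ (cen y)]
      have h2 : w + z • e (cen y) ∈ Gd D (c (cen y)) := by
        have h3 := (gdx_add h.D_inv (hL y)).2 h1
        have e1 : w - L y + z • e (cen y) + L y = w + z • e (cen y) := by abel
        rwa [e1] at h3
      refine ⟨h2, (hcl _ (gdx_mono hδc h2) ?_).trans hδd⟩
      have e1 : w + z • e (cen y) - y = (w - y) + z • e (cen y) := by abel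
      rw [e1]
      refine (norm_add_le _ _).trans_lt ?_
      have h3 := line_norm (he (cen y)) z
      have h4 := hρ₀1 _ hct
      linarith [hr1 (cen y), hρ1 (cen y)]
    refine ⟨cm_analytic (hr _) fun z hz => (hhol _ p _ (hpts z hz).1 (hpts z hz).2).1, ?_, fun hwD => ?_⟩
    · refine (cm_bound (hr _) fun z hz => (hhol _ p _ (hpts z hz).1 (hpts z hz).2).2).trans ?_
      refine (le_abs_self _).trans ?_
      exact Finset.single_le_sum (f := fun y => |Cc y|) (fun y _ => abs_nonneg _) hct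
    · rw [← hcmeq]
      have h1 := hloc (cen y) p' (fun x hx hxy => (hcl' x (gdx_mono hδa hx) hxy).trans hδb) (w - L y) (by
        have h2 := gdx_add h.D_inv (δ' := d₄) (z := w - L y) (hL y)
        rw [sub_add_cancel] at h2
        exact h2.1 hwD) hnw.le
      rw [h1, hp'2, sub_add_cancel]
  refine ⟨fun y => cm (J p) (e (cen y)) (r (cen y)) y, fun y hcl => ?_⟩
  have hcl5 : ∀ y' : Vd (k + 1), ‖y' - y‖ < 1 → ∀ x ∈ Gd D δ, ‖x - y'‖ < 5 → dd p x ≤ δ := by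
    intro y' hy' x hx hxy
    refine hcl x hx ?_
    have e1 : x - y = (x - y') + (y' - y) := by abel
    rw [e1]
    refine (norm_add_le _ _).trans_lt ?_
    linarith
  have hKy := hK y (hcl5 y (by rw [sub_self, norm_zero]; exact one_pos))
  have hyy : ‖y - y‖ < ρ₀ := by
    rw [sub_self, norm_zero]
    exact hρ₀
  have heq : ∀ᶠ y' in 𝓝 y, cm (J p) (e (cen y')) (r (cen y')) y' = cm (J p) (e (cen y)) (r (cen y)) y' := by
    filter_upwards [ball_mem_nhds y (half_pos hρ₀)] with y' hy'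
    rw [mem_ball, dist_eq_norm] at hy'
    have hρ01 : ρ₀ < 1 := by
      have := hρ₀1 _ (hcent y)
      linarith [hρ1 (cen y)]
    have hKy' := hK y' (hcl5 y' (by linarith))
    obtain ⟨y₂, hy₂1, hy₂2⟩ := hthick y'
    have hU : ∀ w ∈ ball y ρ₀ ∩ ball y' ρ₀, ‖w - y‖ < ρ₀ ∧ ‖w - y'‖ < ρ₀ := by
      rintro w ⟨h1, h2⟩
      rw [mem_ball, dist_eq_norm] at h1 h2
      exact ⟨h1, h2⟩
    have hy₂U : y₂ ∈ ball y ρ₀ ∩ ball y' ρ₀ := by
      refine ⟨?_, ?_⟩
      · rw [mem_ball, dist_eq_norm]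
        have e1 : y₂ - y = (y₂ - y') + (y' - y) := by abel
        rw [e1]
        refine (norm_add_le _ _).trans_lt ?_
        linarith
      · rw [mem_ball, dist_eq_norm]
        linarith
    refine ext_unique (U := ball y ρ₀ ∩ ball y' ρ₀) ((convex_ball y ρ₀).inter (convex_ball y' ρ₀)) (fun w hw => (hKy' w (hU w hw).2).1)
      (fun w hw => (hKy w (hU w hw).1).1) hy₂U ?_ y' ⟨?_, mem_ball_self hρ₀⟩
    · filter_upwards [(isOpen_ball.inter isOpen_ball).mem_nhds hy₂U, ball_mem_nhds y₂ (half_pos hd₃)] with w hw hw2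
      have hwD : w ∈ Gd D d₄ := by
        intro b hb
        rw [mem_ball, dist_eq_norm] at hw2
        have h1 := hy₂2 b hb
        have h2 : ‖y₂ - b‖ ≤ ‖w - b‖ + ‖w - y₂‖ := by
          have e1 : y₂ - b = (w - b) - (w - y₂) := by abel
          rw [e1]
          exact norm_sub_le _ _
        linarith
      rw [(hKy' w (hU w hw).2).2.2 hwD, (hKy w (hU w hw).1).2.2 hwD]
    · rw [mem_ball, dist_eq_norm]
      linarith
  refine ⟨?_, (hKy y hyy).2.1, fun hyD => (hKy y hyy).2.2 (gdx_mono hd₄2 hyD)⟩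
  exact (hKy y hyy).1.congr (heq.mono fun y' hy' => hy'.symm)

end Pool.Agent.TG

end

section

/-!
# TG XHs: the integral is `0` on a half space

`PairData.half_space`: a pair which is close on a half space has integral `0` on a smaller half space.  By `PairData.ext` the integral extends to a bounded analytic function `Jt` on the half space `Re w < t - c r₁`; by Liouville's
theorem it is constant on the hyperplanes `w = const`, so it is `α (w y)` with `α` a bounded holomorphic function on a half plane, with zeros at `w l`, `l ∈ Γ`.  These are relatively dense in `ℂ`, so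
`α = 0` (`dense_decay` on large discs).
-/

set_option autoImplicit false

open Topology Filter Metric MeasureTheory

namespace Pool.Agent.TG

open Pool.Agent.AD (Vd)

variable {k : ℕ} {Γ : AddSubgroup (Vd (k + 1))} {D : Set (Vd (k + 1))} {Tr : Vd (k + 1) → Vd (k + 1) → Prop} {P : Type} {dd : P → Vd (k + 1) → ℝ}
  {J : P → Vd (k + 1) → ℂ}

/-- a bounded holomorphic function on a half plane which vanishes on a relatively dense subgroup is `0` -/
private theorem hs_plane {R₀ : ℝ} (hR₀ : 0 < R₀) : ∃ r₃ : ℝ, 0 < r₃ ∧ ∀ Γ : AddSubgroup ℂ, (∀ z : ℂ, ∃ l ∈ Γ, ‖z - l‖ ≤ R₀) →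
    ∀ (α : ℂ → ℂ) (T C : ℝ), (∀ z : ℂ, z.re < T → DifferentiableAt ℂ α z ∧ ‖α z‖ ≤ C) → (∀ l ∈ Γ, l.re < T → α l = 0) → ∀ z : ℂ, z.re ≤ T - r₃ → α z = 0 := by
  obtain ⟨κ, r₀, hκ, hr₀, hdec⟩ := dense_decay hR₀
  refine ⟨r₀ + 1, by linarith, fun Γ hΓ α T C hα hl z hz => ?_⟩
  have key : ∀ s : ℕ, ‖α z‖ ≤ C * Real.exp (-κ * (2 * (s : ℝ) + 1)) := by
    intro s
    have hs : (0 : ℝ) ≤ s := Nat.cast_nonneg s
    have hball : ∀ w ∈ ball (z - (s : ℂ)) ((s : ℝ) + r₀ + 1), w.re < T := by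
      intro w hw
      rw [mem_ball, dist_eq_norm] at hw
      have h1 := (Complex.re_le_norm (w - (z - (s : ℂ)))).trans_lt hw
      simp only [Complex.sub_re, Complex.natCast_re] at h1
      linarith
    have hz' : z ∈ ball (z - (s : ℂ)) ((s : ℝ) + r₀ + 1) := by
      rw [mem_ball, dist_eq_norm, sub_sub_cancel, Complex.norm_natCast]
      linarith
    have h1 := hdec Γ hΓ α (z - (s : ℂ)) ((s : ℝ) + r₀ + 1) C (by linarith) (fun w hw => (hα w (hball w hw)).1.differentiableWithinAt)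
      (fun w hw => (hα w (hball w hw)).2) (fun l hlΓ hlb => hl l hlΓ (hball l hlb)) z hz'
    rw [sub_sub_cancel, Complex.norm_natCast] at h1
    have h2 : ((s : ℝ) + r₀ + 1 - r₀) ^ 2 - (s : ℝ) ^ 2 = 2 * (s : ℝ) + 1 := by ring
    rwa [h2] at h1
  have hlim : Tendsto (fun s : ℕ => C * Real.exp (-κ * (2 * (s : ℝ) + 1))) atTop (𝓝 (C * 0)) := by
    refine Tendsto.const_mul C ?_
    refine Real.tendsto_exp_atBot.comp ?_
    have h1 : Tendsto (fun s : ℕ => 2 * (s : ℝ) + 1) atTop atTop :=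
      tendsto_atTop_add_const_right _ _ (tendsto_natCast_atTop_atTop.const_mul_atTop two_pos)
    exact h1.const_mul_atTop_of_neg (by linarith)
  rw [mul_zero] at hlim
  exact norm_le_zero_iff.1 (ge_of_tendsto' hlim key)

theorem PairData.half_space (h : PairData Γ D Tr dd J) (h0 : (0 : Vd (k + 1)) ∉ D) (hz : ∀ p, ∀ l ∈ Γ, J p l = 0) {c : ℝ} (hc : 0 < c) {d₂ : ℝ} (hd₂ : 0 < d₂) :
    ∃ d ε r₂ : ℝ, 0 < d ∧ 0 < ε ∧ 0 < r₂ ∧ ∀ (p : P) (w : Vd (k + 1) →ₗ[ℂ] ℂ) (v₀ : Vd (k + 1)) (t : ℝ), w v₀ = 1 → ‖v₀‖ ≤ 1 → (∀ y, ‖w y‖ ≤ c * ‖y‖) →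
      (∀ x ∈ Gd D d, (w x).re ≤ t → dd p x ≤ ε) → ∀ y ∈ Gd D d₂, (w y).re ≤ t - r₂ → J p y = 0 := by
  obtain ⟨R, hR, hcpt⟩ := h.cpt
  obtain ⟨r₁, hr₁, hext⟩ := h.ext
  obtain ⟨d₀, hd₀, h0D⟩ := gdx_compact h.D_closed (isCompact_singleton (x := (0 : Vd (k + 1)))) (fun x hx => by rw [Set.mem_singleton_iff.1 hx]; exact h0)
  have hΓD : ∀ l ∈ Γ, l ∈ Gd D d₀ := by
    intro l hl
    have h1 := (gdx_add h.D_inv (δ' := d₀) (z := (0 : Vd (k + 1))) hl).2 (h0D rfl)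
    rwa [zero_add] at h1
  obtain ⟨d, ε, C, hd, hε, hJt⟩ := hext (min d₂ d₀) (lt_min hd₂ hd₀)
  obtain ⟨r₃, hr₃, hplane⟩ := hs_plane (R₀ := c * R) (by positivity)
  refine ⟨d, ε, c * r₁ + r₃ + 1, hd, hε, by positivity, fun p w v₀ t hwv hv₀ hwc hcl y hyD hyt => ?_⟩
  obtain ⟨Jt, hJ⟩ := hJt p
  have hH : ∀ y : Vd (k + 1), (w y).re < t - c * r₁ → AnalyticAt ℂ Jt y ∧ ‖Jt y‖ ≤ C ∧ (y ∈ Gd D (min d₂ d₀) → Jt y = J p y) := by
    intro y hy
    refine hJ y fun x hx hxy => hcl x hx ?_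
    have h1 : (w x).re = (w y).re + (w (x - y)).re := by
      rw [map_sub, Complex.sub_re]
      ring
    have h2 : (w (x - y)).re ≤ c * r₁ := (Complex.re_le_norm _).trans ((hwc _).trans (mul_le_mul_of_nonneg_left hxy.le hc.le))
    rw [h1]
    linarith
  -- the function on the line
  have hconst : ∀ y : Vd (k + 1), (w y).re < t - c * r₁ → Jt y = Jt (w y • v₀) := by
    intro y hy
    have hw : ∀ z : ℂ, w (y + z • (w y • v₀ - y)) = w y := by
      intro z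
      rw [map_add, map_smul, map_sub, map_smul, hwv, smul_eq_mul, smul_eq_mul, mul_one, sub_self, mul_zero, add_zero]
    have hd : Differentiable ℂ fun z : ℂ => Jt (y + z • (w y • v₀ - y)) := by
      intro z
      have h1 := (hH (y + z • (w y • v₀ - y)) (by rw [hw z]; exact hy)).1.differentiableAt
      have h2 : DifferentiableAt ℂ (fun z : ℂ => y + z • (w y • v₀ - y)) z := by fun_prop
      exact h1.comp z h2
    have hb : Bornology.IsBounded (Set.range fun z : ℂ => Jt (y + z • (w y • v₀ - y))) := by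
      refine (isBounded_iff_forall_norm_le).2 ⟨C, ?_⟩
      rintro _ ⟨z, rfl⟩
      exact (hH (y + z • (w y • v₀ - y)) (by rw [hw z]; exact hy)).2.1
    have h1 := hd.apply_eq_apply_of_bounded hb 0 1
    simp only [zero_smul, add_zero, one_smul, add_sub_cancel] at h1
    exact h1
  have hdense : ∀ z : ℂ, ∃ l ∈ Γ.map w.toAddMonoidHom, ‖z - l‖ ≤ c * R := by
    intro z
    obtain ⟨l, hl, hzl⟩ := hcpt (z • v₀)
    refine ⟨w l, ⟨l, hl, rfl⟩, ?_⟩
    have h1 : z - w l = w (z • v₀ - l) := by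
      rw [map_sub, map_smul, hwv, smul_eq_mul, mul_one]
    rw [h1]
    exact (hwc _).trans (mul_le_mul_of_nonneg_left hzl hc.le)
  have hvw : ∀ z : ℂ, w (z • v₀) = z := fun z => by rw [map_smul, hwv, smul_eq_mul, mul_one]
  have hα := hplane (Γ.map w.toAddMonoidHom) hdense (fun z => Jt (z • v₀)) (t - c * r₁) C (fun z hz => by
    have h1 := hH (z • v₀) (by rw [hvw]; exact hz)
    refine ⟨?_, h1.2.1⟩
    have h2 : DifferentiableAt ℂ (fun z : ℂ => z • v₀) z := by fun_prop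
    exact h1.1.differentiableAt.comp z h2) (by
    rintro _ ⟨l, hl, rfl⟩ hlt
    have hlt' : (w l).re < t - c * r₁ := hlt
    have h1 := hconst l hlt'
    have h2 := (hH l hlt').2.2 (gdx_mono (min_le_right _ _) (hΓD l hl))
    show Jt (w l • v₀) = 0
    rw [← h1, h2, hz p l hl]) (w y) (by linarith)
  have h1 : (w y).re < t - c * r₁ := by linarith
  rw [← (hH y h1).2.2 (gdx_mono (min_le_left _ _) hyD), hconst y h1]
  exact hα

end Pool.Agent.TG

end

section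

/-!
# TG XHi: the half spaces `Re ⟪ζ, y⟫ ≤ t`
-/

set_option autoImplicit false

open Topology Filter Metric MeasureTheory

namespace Pool.Agent.TG

open Pool.Agent.H36.BP (EN)
open Pool.Agent.AD (Vd)

variable {k : ℕ} {Γ : AddSubgroup (Vd (k + 1))} {D : Set (Vd (k + 1))} {Tr : Vd (k + 1) → Vd (k + 1) → Prop} {P : Type} {dd : P → Vd (k + 1) → ℝ}
  {J : P → Vd (k + 1) → ℂ}

/-- the linear form `⟪ζ, y⟫` on `Vd (k + 1)` -/
noncomputable def iw (ζ : EN k) : Vd (k + 1) →ₗ[ℂ] ℂ where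
  toFun := fun y => ∑ i, y i * (starRingEnd ℂ) (ζ i)
  map_add' := fun x y => by
    rw [← Finset.sum_add_distrib]
    exact Finset.sum_congr rfl fun i _ => by rw [Pi.add_apply]; ring
  map_smul' := fun c y => by
    rw [RingHom.id_apply, smul_eq_mul, Finset.mul_sum]
    exact Finset.sum_congr rfl fun i _ => by rw [Pi.smul_apply, smul_eq_mul]; ring

theorem iw_eq (ζ : EN k) (y : EN k) : iw ζ (fun i => y i) = inner ℂ ζ y := by
  rw [PiLp.inner_apply]
  show ∑ i, y i * (starRingEnd ℂ) (ζ i) = ∑ i, inner ℂ (ζ i) (y i)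
  exact Finset.sum_congr rfl fun i _ => by rw [RCLike.inner_apply]

theorem PairData.half_inner (h : PairData Γ D Tr dd J) (h0 : (0 : Vd (k + 1)) ∉ D) (hz : ∀ p, ∀ l ∈ Γ, J p l = 0) {d₂ : ℝ} (hd₂ : 0 < d₂) :
    ∃ d ε r₂ : ℝ, 0 < d ∧ 0 < ε ∧ 0 < r₂ ∧ ∀ (p : P) (ζ : EN k) (t : ℝ), ‖ζ‖ = 1 →
      (∀ x ∈ Gd D d, (iw ζ x).re ≤ t → dd p x ≤ ε) → ∀ y ∈ Gd D d₂, (iw ζ y).re ≤ t - r₂ → J p y = 0 := by
  obtain ⟨d, ε, r₂, hd, hε, hr₂, hh⟩ := h.half_space h0 hz (c := (k : ℝ) + 1) (by positivity) hd₂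
  refine ⟨d, ε, r₂, hd, hε, hr₂, fun p ζ t hζ hcl y hy hyt => ?_⟩
  have hζi : ∀ i, ‖ζ i‖ ≤ 1 := by
    intro i
    rw [← hζ]
    exact PiLp.norm_apply_le ζ i
  refine hh p (iw ζ) (fun i => ζ i) t ?_ ?_ ?_ hcl y hy hyt
  · rw [iw_eq, inner_self_eq_norm_sq_to_K, hζ]
    norm_num
  · exact (pi_norm_le_iff_of_nonneg zero_le_one).2 hζi
  · intro y
    show ‖∑ i, y i * (starRingEnd ℂ) (ζ i)‖ ≤ _
    refine (norm_sum_le _ _).trans ?_
    have h1 : ∀ i ∈ Finset.univ, ‖y i * (starRingEnd ℂ) (ζ i)‖ ≤ ‖y‖ := by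
      intro i _
      rw [norm_mul, RCLike.norm_conj]
      calc ‖y i‖ * ‖ζ i‖ ≤ ‖y‖ * 1 := mul_le_mul (norm_le_pi_norm y i) (hζi i) (norm_nonneg _) (norm_nonneg _)
        _ = ‖y‖ := mul_one _
    refine (Finset.sum_le_card_nsmul _ _ _ h1).trans (le_of_eq ?_)
    rw [Finset.card_univ, Fintype.card_fin, nsmul_eq_mul]
    push_cast
    ring

end Pool.Agent.TG

end
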