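import Pool.Agent.H94.G5T.M03
import Pool.Agent.H94.G5T.M04
import Pool.Agent.H94.G5T.M11

/-! The parts of this file: G4.A.Lls, H13.CV.MerO, H17.Modulus, H62.FC.CircuitDefs, H62.FC.Circuit. -/

section

/-!
# G4 A Lls: limits of families of locally defined holomorphic functions

`E ⊆ H` are closed discrete sets; `g z₀ n` is holomorphic on `ball z₀ (r z₀)`, the functions agree in the limit on the overlaps, and they are bounded near the points off `H`.  Then they converge along the ultrafilter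
to a function `K`, holomorphic off `E`.

Proof.  `lls_loc`: for `z ∈ ball z₀ (r z₀)` choose a small circle around `z` which does not meet `H` (finitely many points in a closed disc); the compact circle has a uniform bound, by the maximum principle
also the disc; `ul_diff`.  `K z` is the limit of `g z n z`.
-/

set_option autoImplicit false

open Topology Filter Metric

namespace Pool.Agent.G4.A

private theorem lls_fin {H : Set ℂ} (hH : ∀ z : ℂ, ∀ᶠ x in 𝓝[≠] z, x ∉ H) {K : Set ℂ} (hK : IsCompact K) : (H ∩ K).Finite := by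
  by_contra h
  obtain ⟨x, -, hx⟩ := Set.Infinite.exists_accPt_of_subset_isCompact h hK Set.inter_subset_right
  rw [accPt_iff_frequently] at hx
  have h1 := hH x
  rw [eventually_nhdsWithin_iff] at h1
  obtain ⟨w, ⟨hw1, hw2⟩, hw3⟩ := (hx.and_eventually h1).exists
  exact hw3 hw1 hw2.1

/-- a circle which avoids `H` -/
private theorem lls_circle {H : Set ℂ} (hH : ∀ z : ℂ, ∀ᶠ x in 𝓝[≠] z, x ∉ H) (z : ℂ) {s : ℝ} (hs : 0 < s) :
    ∃ t : ℝ, 0 < t ∧ t < s ∧ ∀ x, dist x z = t → x ∉ H := by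
  have hfin := lls_fin hH (isCompact_closedBall z s)
  have h1 : ((fun x : ℂ => dist x z) '' (H ∩ closedBall z s)).Countable := (hfin.image _).countable
  obtain ⟨t, htI, htn⟩ := (h1.dense_compl ℝ).inter_open_nonempty (Set.Ioo 0 s) isOpen_Ioo (Set.nonempty_Ioo.2 hs)
  refine ⟨t, htI.1, htI.2, fun x hx hxH => htn ⟨x, ⟨hxH, ?_⟩, hx⟩⟩
  rw [mem_closedBall, hx]
  exact htI.2.le

private theorem lls_loc {ι : Type*} {𝒰 : Ultrafilter ι} {H : Set ℂ} (hH : ∀ z : ℂ, ∀ᶠ x in 𝓝[≠] z, x ∉ H) {z₀ : ℂ} {r : ℝ} {g : ι → ℂ → ℂ}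
    (h1 : ∀ᶠ n in (𝒰 : Filter ι), DifferentiableOn ℂ (g n) (ball z₀ r))
    (h3 : ∀ x ∈ ball z₀ r, x ∉ H → ∃ t C : ℝ, 0 < t ∧ ∀ᶠ n in (𝒰 : Filter ι), ∀ x' ∈ ball x t, ‖g n x'‖ ≤ C) {z : ℂ} (hz : z ∈ ball z₀ r) :
    ∃ (δ : ℝ) (K : ℂ → ℂ), 0 < δ ∧ ball z δ ⊆ ball z₀ r ∧ DifferentiableOn ℂ K (ball z δ) ∧
      ∀ x ∈ ball z δ, ∀ w : ι → ℂ, Tendsto w (𝒰 : Filter ι) (𝓝 x) → Tendsto (fun n => g n (w n)) (𝒰 : Filter ι) (𝓝 (K x)) := by
  obtain ⟨s, hs, hsub⟩ := Metric.isOpen_iff.1 isOpen_ball z hz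
  obtain ⟨t, ht, hts, htH⟩ := lls_circle hH z hs
  have hcb : closedBall z t ⊆ ball z₀ r := (closedBall_subset_ball hts).trans hsub
  -- the bound on the circle
  have hbd : ∃ C : ℝ, ∀ᶠ n in (𝒰 : Filter ι), ∀ x ∈ sphere z t, ‖g n x‖ ≤ C := by
    refine (isCompact_sphere z t).induction_on (p := fun T => ∃ C : ℝ, ∀ᶠ n in (𝒰 : Filter ι), ∀ x ∈ T, ‖g n x‖ ≤ C) ?_ ?_ ?_ ?_
    · exact ⟨0, Eventually.of_forall fun n x hx => absurd hx (Set.notMem_empty x)⟩
    · rintro T T' hTT ⟨C, hC⟩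
      exact ⟨C, hC.mono fun n hn x hx => hn x (hTT hx)⟩
    · rintro T T' ⟨C, hC⟩ ⟨C', hC'⟩
      refine ⟨max C C', ?_⟩
      filter_upwards [hC, hC'] with n h4 h5 x hx
      rcases hx with hx | hx
      · exact (h4 x hx).trans (le_max_left _ _)
      · exact (h5 x hx).trans (le_max_right _ _)
    · intro x hx
      obtain ⟨t', C, ht', hC⟩ := h3 x (hcb (sphere_subset_closedBall hx)) (htH x (mem_sphere.1 hx))
      exact ⟨ball x t', mem_nhdsWithin_of_mem_nhds (ball_mem_nhds x ht'), C, hC⟩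
  obtain ⟨C, hC⟩ := hbd
  have hall : ∀ᶠ n in (𝒰 : Filter ι), DifferentiableOn ℂ (g n) (ball z t) ∧ ∀ x ∈ ball z t, ‖g n x‖ ≤ C := by
    filter_upwards [h1, hC] with n hn1 hn2
    refine ⟨hn1.mono (ball_subset_closedBall.trans hcb), fun x hx => ?_⟩
    have hcl : DiffContOnCl ℂ (g n) (ball z t) := by
      refine DifferentiableOn.diffContOnCl ?_
      rw [closure_ball z ht.ne']
      exact hn1.mono hcb
    refine Complex.norm_le_of_forall_mem_frontier_norm_le isBounded_ball hcl (fun w hw => ?_) (subset_closure hx)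
    rw [frontier_ball z ht.ne'] at hw
    exact hn2 w hw
  obtain ⟨K, hK1, -, hK3⟩ := Pool.Agent.G3.A.ul_diff hall
  exact ⟨t, K, ht, ball_subset_closedBall.trans hcb, hK1, hK3⟩

theorem lls {ι : Type*} {𝒰 : Ultrafilter ι} {E H : Set ℂ} (hEH : E ⊆ H) (hE : IsClosed E) (hH : ∀ z : ℂ, ∀ᶠ x in 𝓝[≠] z, x ∉ H) {r : ℂ → ℝ} {g : ℂ → ι → ℂ → ℂ}
    (h1 : ∀ z₀ ∉ E, 0 < r z₀ ∧ ∀ᶠ n in (𝒰 : Filter ι), DifferentiableOn ℂ (g z₀ n) (ball z₀ (r z₀)))
    (h2 : ∀ z₀ ∉ E, ∀ z₁ ∉ E, ∀ ε : ℝ, 0 < ε → ∀ᶠ n in (𝒰 : Filter ι), ∀ x ∈ ball z₀ (r z₀) ∩ ball z₁ (r z₁), ‖g z₀ n x - g z₁ n x‖ ≤ ε)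
    (h3 : ∀ z₀ ∉ E, ∀ x ∈ ball z₀ (r z₀), x ∉ H → ∃ t C : ℝ, 0 < t ∧ ∀ᶠ n in (𝒰 : Filter ι), ∀ x' ∈ ball x t, ‖g z₀ n x'‖ ≤ C) :
    ∃ K : ℂ → ℂ, (∀ z ∉ E, DifferentiableAt ℂ K z) ∧ ∀ z₀ ∉ E, ∀ z ∈ ball z₀ (r z₀), z ∉ E → ∀ w : ι → ℂ, Tendsto w 𝒰 (𝓝 z) → Tendsto (fun n => g z₀ n (w n)) 𝒰 (𝓝 (K z)) := by
  have hloc : ∀ z₀, z₀ ∉ E → ∀ z, z ∈ ball z₀ (r z₀) → ∃ (δ : ℝ) (K : ℂ → ℂ), 0 < δ ∧ ball z δ ⊆ ball z₀ (r z₀) ∧ DifferentiableOn ℂ K (ball z δ) ∧
      ∀ x ∈ ball z δ, ∀ w : ι → ℂ, Tendsto w (𝒰 : Filter ι) (𝓝 x) → Tendsto (fun n => g z₀ n (w n)) (𝒰 : Filter ι) (𝓝 (K x)) := fun z₀ hz₀ z hz =>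
    lls_loc hH (h1 z₀ hz₀).2 (h3 z₀ hz₀) hz
  choose! δ K hδ hsub hKd hKt using hloc
  have hself : ∀ z, z ∉ E → z ∈ ball z (r z) := fun z hz => mem_ball_self (h1 z hz).1
  -- the limits agree
  have hag : ∀ z₀, z₀ ∉ E → ∀ z, z ∈ ball z₀ (r z₀) → z ∉ E → K z₀ z z = K z z z := by
    intro z₀ hz₀ z hz hzE
    have t1 := hKt z₀ hz₀ z hz z (mem_ball_self (hδ z₀ hz₀ z hz)) (fun _ => z) tendsto_const_nhds
    have t2 := hKt z hzE z (hself z hzE) z (mem_ball_self (hδ z hzE z (hself z hzE))) (fun _ => z) tendsto_const_nhds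
    have t3 : Tendsto (fun n => g z₀ n z - g z n z) (𝒰 : Filter ι) (𝓝 0) := by
      rw [Metric.tendsto_nhds]
      intro ε hε
      filter_upwards [h2 z₀ hz₀ z hzE (ε / 2) (half_pos hε)] with n hn
      rw [dist_zero_right]
      have := hn z ⟨hz, hself z hzE⟩
      linarith
    have t4 := tendsto_nhds_unique t3 (t1.sub t2)
    exact (sub_eq_zero.1 t4.symm)
  refine ⟨fun z => K z z z, fun z hz => ?_, fun z₀ hz₀ z hz hzE w hw => ?_⟩
  · have hzz := hself z hz
    have hd : DifferentiableAt ℂ (K z z) z := (hKd z hz z hzz).differentiableAt (ball_mem_nhds z (hδ z hz z hzz))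
    refine hd.congr_of_eventuallyEq ?_
    filter_upwards [ball_mem_nhds z (hδ z hz z hzz), hE.isOpen_compl.mem_nhds hz] with x hx hxE
    have hxz : x ∈ ball z (r z) := hsub z hz z hzz hx
    have t1 := hKt z hz z hzz x hx (fun _ => x) tendsto_const_nhds
    have t2 := hKt z hz x hxz x (mem_ball_self (hδ z hz x hxz)) (fun _ => x) tendsto_const_nhds
    rw [tendsto_nhds_unique t1 t2]
    exact (hag z hz x hxz hxE).symm
  · have h4 := hKt z₀ hz₀ z hz z (mem_ball_self (hδ z₀ hz₀ z hz)) w hw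
    rw [hag z₀ hz₀ z hz hzE] at h4
    exact h4

end Pool.Agent.G4.A

end

section

/-!
# CV MerO: the field of meromorphic functions, as the fraction field of the ring of entire functions

`ofn z₀ f` is the order at `z₀` of `f`; it is defined with the chosen representation `f = a / b` (`IsLocalization.sec`), `ofn_div` says that it does not depend on the representation: if `a / b = a' / b'` then
`a b' = a' b` as entire functions, so the meromorphic functions `a / b`, `a' / b'` agree outside the zeros of `b b'` (isolated), so their orders are the same (`meromorphicOrderAt_congr`).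
The other lemmas: `meromorphicOrderAt_mul`, `meromorphicOrderAt_add` (`min ≤`), for functions `a / b`.  `ofn z₀ f = ⊤ ↔ f = 0`.
`tr_or_const`: `ℂ` is algebraically closed.
-/

set_option autoImplicit false

open Topology Filter
open Pool.Agent.H17 Pool.Agent.H17.EntFun

noncomputable section

namespace Pool.Agent.H13.CV

attribute [-instance] Subalgebra.instFaithfulSMulSubtypeMem

/-- the field of meromorphic functions on `ℂ` -/
abbrev Mer : Type := FractionRing EntFun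

/-- entire functions as meromorphic functions -/
abbrev toM (a : EntFun) : Mer := algebraMap EntFun Mer a

/-- the order at `z₀` -/
def ofn (z₀ : ℂ) (f : Mer) : WithTop ℤ :=
  meromorphicOrderAt (fun z => ((IsLocalization.sec (nonZeroDivisors EntFun) f).1 : ℂ → ℂ) z / (((IsLocalization.sec (nonZeroDivisors EntFun) f).2 : EntFun) : ℂ → ℂ) z) z₀

/-- the function `z ↦ a z / b z` -/
private def qf (a b : EntFun) : ℂ → ℂ := fun z => (a : ℂ → ℂ) z / (b : ℂ → ℂ) z

private lemma qf_mero (z₀ : ℂ) (a b : EntFun) : MeromorphicAt (qf a b) z₀ :=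
  (a.analyticAt z₀).meromorphicAt.fun_div (b.analyticAt z₀).meromorphicAt

private lemma ev_ne (z₀ : ℂ) {b : EntFun} (hb : b ≠ 0) : ∀ᶠ z in 𝓝[≠] z₀, (b : ℂ → ℂ) z ≠ 0 :=
  eventually_ne_zero_of_entire b.2 ((ne_zero_iff b).mp hb) z₀

private lemma toM_inj : Function.Injective toM := IsFractionRing.injective EntFun Mer

private lemma toM_ne {b : EntFun} (hb : b ≠ 0) : toM b ≠ 0 := by
  intro h
  exact hb (toM_inj (by rw [h]; exact (map_zero (algebraMap EntFun Mer)).symm))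

private lemma mul_val (a b : EntFun) (z : ℂ) : ((a * b : EntFun) : ℂ → ℂ) z = (a : ℂ → ℂ) z * (b : ℂ → ℂ) z := rfl

private lemma add_val (a b : EntFun) (z : ℂ) : ((a + b : EntFun) : ℂ → ℂ) z = (a : ℂ → ℂ) z + (b : ℂ → ℂ) z := rfl

private lemma exists_rep (f : Mer) : ∃ a b : EntFun, b ≠ 0 ∧ f = toM a / toM b := by
  obtain ⟨a, b, hb, h⟩ := IsFractionRing.div_surjective (A := EntFun) f
  exact ⟨a, b, nonZeroDivisors.ne_zero hb, h.symm⟩

theorem ofn_div (z₀ : ℂ) (a : EntFun) {b : EntFun} (hb : b ≠ 0) : ofn z₀ (toM a / toM b) = meromorphicOrderAt (fun z => (a : ℂ → ℂ) z / (b : ℂ → ℂ) z) z₀ := by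
  unfold ofn
  set f : Mer := toM a / toM b with hf
  set a' : EntFun := (IsLocalization.sec (nonZeroDivisors EntFun) f).1 with ha'
  set b' : EntFun := ((IsLocalization.sec (nonZeroDivisors EntFun) f).2 : EntFun) with hb'
  have hb'0 : b' ≠ 0 := nonZeroDivisors.ne_zero (IsLocalization.sec (nonZeroDivisors EntFun) f).2.2
  have h1 : f * toM b' = toM a' := IsLocalization.sec_spec (nonZeroDivisors EntFun) f
  have h2 : a * b' = a' * b := by
    apply toM_inj
    have hbM := toM_ne hb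
    have e1 : toM (a * b') = toM a * toM b' := map_mul _ _ _
    have e2 : toM (a' * b) = toM a' * toM b := map_mul _ _ _
    rw [e1, e2, ← h1, hf, mul_right_comm, div_mul_cancel₀ _ hbM]
  apply meromorphicOrderAt_congr
  filter_upwards [ev_ne z₀ hb, ev_ne z₀ hb'0] with z hz hz'
  have h3 : (a : ℂ → ℂ) z * (b' : ℂ → ℂ) z = (a' : ℂ → ℂ) z * (b : ℂ → ℂ) z := by
    rw [← mul_val, ← mul_val, h2]
  rw [div_eq_div_iff hz' hz]
  exact h3.symm

private lemma ofn_rep (z₀ : ℂ) (a : EntFun) {b : EntFun} (hb : b ≠ 0) : ofn z₀ (toM a / toM b) = meromorphicOrderAt (qf a b) z₀ :=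
  ofn_div z₀ a hb

private lemma toM_one : toM 1 = 1 := map_one (algebraMap EntFun Mer)

private lemma toM_zero : toM 0 = 0 := map_zero (algebraMap EntFun Mer)

private lemma one_ne : (1 : EntFun) ≠ 0 := one_ne_zero

private lemma ofn_toM (z₀ : ℂ) (a : EntFun) : ofn z₀ (toM a) = meromorphicOrderAt (a : ℂ → ℂ) z₀ := by
  have h := ofn_div z₀ a one_ne
  rw [toM_one, div_one] at h
  rw [h]
  congr 1
  funext z
  have : ((1 : EntFun) : ℂ → ℂ) z = 1 := rfl
  rw [this, div_one]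

theorem ofn_zero (z₀ : ℂ) : ofn z₀ 0 = ⊤ := by
  rw [← toM_zero, ofn_toM, meromorphicOrderAt_eq_top_iff]
  exact Filter.Eventually.of_forall fun z => rfl

theorem ofn_one (z₀ : ℂ) : ofn z₀ 1 = 0 := by
  classical
  rw [← toM_one, ofn_toM]
  have h := meromorphicOrderAt_const z₀ (1 : ℂ)
  rw [if_neg one_ne_zero] at h
  exact h

theorem ofn_add (z₀ : ℂ) (f g : Mer) : min (ofn z₀ f) (ofn z₀ g) ≤ ofn z₀ (f + g) := by
  obtain ⟨a, b, hb, rfl⟩ := exists_rep f
  obtain ⟨c, d, hd, rfl⟩ := exists_rep g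
  have h1 : toM a / toM b + toM c / toM d = toM (a * d + b * c) / toM (b * d) := by
    have e1 : toM (a * d + b * c) = toM a * toM d + toM b * toM c := by
      rw [← map_mul, ← map_mul, ← map_add]
    have e2 : toM (b * d) = toM b * toM d := map_mul _ _ _
    rw [e1, e2, div_add_div _ _ (toM_ne hb) (toM_ne hd)]
  rw [h1, ofn_rep z₀ a hb, ofn_rep z₀ c hd, ofn_rep z₀ _ (mul_ne_zero hb hd)]
  refine (meromorphicOrderAt_add (qf_mero z₀ a b) (qf_mero z₀ c d)).trans (le_of_eq ?_)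
  apply meromorphicOrderAt_congr
  filter_upwards [ev_ne z₀ hb, ev_ne z₀ hd] with z hz hz'
  rw [Pi.add_apply]
  unfold qf
  rw [add_val, mul_val, mul_val, mul_val, div_add_div _ _ hz hz']

theorem ofn_mul (z₀ : ℂ) (f g : Mer) : ofn z₀ (f * g) = ofn z₀ f + ofn z₀ g := by
  obtain ⟨a, b, hb, rfl⟩ := exists_rep f
  obtain ⟨c, d, hd, rfl⟩ := exists_rep g
  have h1 : toM a / toM b * (toM c / toM d) = toM (a * c) / toM (b * d) := by
    have e1 : toM (a * c) = toM a * toM c := map_mul _ _ _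
    have e2 : toM (b * d) = toM b * toM d := map_mul _ _ _
    rw [e1, e2, div_mul_div_comm]
  rw [h1, ofn_rep z₀ a hb, ofn_rep z₀ c hd, ofn_rep z₀ _ (mul_ne_zero hb hd),
    ← meromorphicOrderAt_mul (qf_mero z₀ a b) (qf_mero z₀ c d)]
  congr 1
  funext z
  rw [Pi.mul_apply]
  unfold qf
  rw [mul_val, mul_val, div_mul_div_comm]

/-- the order at `z₀` as a valuation -/
def ordM (z₀ : ℂ) : AddValuation Mer (WithTop ℤ) := AddValuation.of (ofn z₀) (ofn_zero z₀) (ofn_one z₀) (ofn_add z₀) (ofn_mul z₀)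

theorem ordM_div (z₀ : ℂ) (a : EntFun) {b : EntFun} (hb : b ≠ 0) : ordM z₀ (toM a / toM b) = meromorphicOrderAt (fun z => (a : ℂ → ℂ) z / (b : ℂ → ℂ) z) z₀ := by
  exact ofn_div z₀ a hb

theorem ordM_toM (z₀ : ℂ) (a : EntFun) : ordM z₀ (toM a) = meromorphicOrderAt (a : ℂ → ℂ) z₀ := by
  exact ofn_toM z₀ a

theorem ordM_toM_nonneg (z₀ : ℂ) (a : EntFun) : 0 ≤ ordM z₀ (toM a) := by
  rw [ordM_toM]
  exact (a.analyticAt z₀).meromorphicOrderAt_nonneg

theorem ordM_toM_pos (z₀ : ℂ) (a : EntFun) : 0 < ordM z₀ (toM a) ↔ (a : ℂ → ℂ) z₀ = 0 := by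
  rw [ordM_toM, ← tendsto_zero_iff_meromorphicOrderAt_pos (a.analyticAt z₀).meromorphicAt]
  have hc : Tendsto (a : ℂ → ℂ) (𝓝[≠] z₀) (𝓝 ((a : ℂ → ℂ) z₀)) :=
    (a.analyticAt z₀).continuousAt.tendsto.mono_left nhdsWithin_le_nhds
  constructor
  · intro h
    exact tendsto_nhds_unique hc h
  · intro h
    rw [h] at hc
    exact hc

theorem ordM_eq_top (z₀ : ℂ) {f : Mer} : ordM z₀ f = ⊤ ↔ f = 0 := by
  constructor
  · intro h
    obtain ⟨a, b, hb, rfl⟩ := exists_rep f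
    rw [ordM_div z₀ a hb, meromorphicOrderAt_eq_top_iff] at h
    by_contra h0
    have ha : a ≠ 0 := by
      rintro rfl
      apply h0
      rw [toM_zero, zero_div]
    obtain ⟨z, ⟨hz1, hz2⟩, hz3⟩ := ((ev_ne z₀ ha).and (ev_ne z₀ hb)).and h |>.exists
    exact div_ne_zero hz1 hz2 hz3
  · rintro rfl
    exact ofn_zero z₀

theorem algebraMap_eq (c : ℂ) : algebraMap ℂ Mer c = toM (algebraMap ℂ EntFun c) := by
  exact IsScalarTower.algebraMap_apply ℂ EntFun Mer c

theorem ordM_const (z₀ : ℂ) {c : ℂ} (hc : c ≠ 0) : ordM z₀ (algebraMap ℂ Mer c) = 0 := by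
  classical
  rw [algebraMap_eq, ordM_toM]
  have h := meromorphicOrderAt_const z₀ c
  rw [if_neg hc] at h
  exact h

/-- a meromorphic function without pole at `z₀` has a value at `z₀` -/
theorem exists_valueM (z₀ : ℂ) {f : Mer} (hf : 0 ≤ ordM z₀ f) : ∃ c : ℂ, 0 < ordM z₀ (f - algebraMap ℂ Mer c) := by
  obtain ⟨a, b, hb, rfl⟩ := exists_rep f
  have h1 : ordM z₀ (toM a / toM b) = meromorphicOrderAt (qf a b) z₀ := ordM_div z₀ a hb
  rw [h1] at hf
  obtain ⟨c, hc⟩ := tendsto_nhds_of_meromorphicOrderAt_nonneg (qf_mero z₀ a b) hf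
  refine ⟨c, ?_⟩
  have h2 : toM a / toM b - algebraMap ℂ Mer c = toM (a - algebraMap ℂ EntFun c * b) / toM b := by
    have e1 : toM (a - algebraMap ℂ EntFun c * b) = toM a - toM (algebraMap ℂ EntFun c) * toM b := by
      rw [← map_mul, ← map_sub]
    rw [e1, algebraMap_eq, sub_div, mul_div_cancel_right₀ _ (toM_ne hb)]
  have h3 : ordM z₀ (toM (a - algebraMap ℂ EntFun c * b) / toM b) = meromorphicOrderAt (qf (a - algebraMap ℂ EntFun c * b) b) z₀ :=
    ordM_div z₀ _ hb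
  rw [h2, h3, ← tendsto_zero_iff_meromorphicOrderAt_pos (qf_mero z₀ _ b)]
  have h4 : Tendsto (fun z => qf a b z - c) (𝓝[≠] z₀) (𝓝 (c - c)) := hc.sub_const c
  rw [sub_self] at h4
  refine h4.congr' ?_
  filter_upwards [ev_ne z₀ hb] with z hz
  unfold qf
  have e2 : ((a - algebraMap ℂ EntFun c * b : EntFun) : ℂ → ℂ) z = (a : ℂ → ℂ) z - c * (b : ℂ → ℂ) z := rfl
  rw [e2, sub_div, mul_div_cancel_right₀ _ hz]

theorem tr_or_const (f : Mer) : (∃ c : ℂ, f = algebraMap ℂ Mer c) ∨ Transcendental ℂ f := by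
  by_cases h : Transcendental ℂ f
  · exact Or.inr h
  · left
    have halg : IsAlgebraic ℂ f := not_not.mp h
    have hint : IsIntegral ℂ f := halg.isIntegral
    have hdeg : (minpoly ℂ f).degree = 1 :=
      IsAlgClosed.degree_eq_one_of_irreducible ℂ (minpoly.irreducible hint)
    obtain ⟨c, hc⟩ := minpoly.mem_range_of_degree_eq_one ℂ f hdeg
    exact ⟨c, hc.symm⟩

end Pool.Agent.H13.CV

end
end

section

/-!
# The uniform modulus of continuity of holomorphic discs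
-/

open Topology Filter

namespace Pool.Agent.H17

variable {N : ℕ}

/-- Composition with a holomorphic function. -/
lemma HolomorphicInto.comp {f : ℂ → PN N} {V U : Set ℂ} (hf : HolomorphicInto f V) {u : ℂ → ℂ}
    (hu : ∀ z ∈ U, AnalyticAt ℂ u z) (hUV : ∀ z ∈ U, u z ∈ V) :
    HolomorphicInto (fun z => f (u z)) U := by
  intro z₀ hz₀
  obtain ⟨φ, hφ, he⟩ := hf (u z₀) (hUV z₀ hz₀)
  exact ⟨fun z => φ (u z), hφ.comp (hu z₀ hz₀), (hu z₀ hz₀).continuousAt.eventually he⟩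

end Pool.Agent.H17

end

section

/-!
# Circuits of a family of vectors
-/

namespace Pool.Agent.H62.FC

/-- A minimal linearly dependent finite set of indices. -/
def IsCircuit (F : Type*) {V ι : Type*} [Field F] [AddCommGroup V] [Module F V] (y : ι → V)
    (ρ : Finset ι) : Prop :=
  ¬ LinearIndepOn F y (ρ : Set ι) ∧ ∀ τ ⊂ ρ, LinearIndepOn F y (τ : Set ι)

end Pool.Agent.H62.FC

end

section

/-!
# Circuits: level sums and the normal form
-/

noncomputable section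

namespace Pool.Agent.H62.FC

private theorem Circuit_rel {F V ι : Type*} [Field F] [AddCommGroup V] [Module F V] {y : ι → V}
    {ρ : Finset ι} (hρ : IsCircuit F y ρ) :
    ∃ b : ι → F, (∀ i ∈ ρ, b i ≠ 0) ∧ ∑ i ∈ ρ, b i • y i = 0 := by
  classical
  have h := hρ.1
  rw [linearIndepOn_finset_iff] at h
  push Not at h
  obtain ⟨b, hb, i, hi, hbi⟩ := h
  refine ⟨b, fun j hj hbj => ?_, hb⟩
  have h2 := hρ.2 (ρ.erase j) (Finset.erase_ssubset hj)
  rw [linearIndepOn_finset_iff] at h2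
  have h3 : ∑ i ∈ ρ.erase j, b i • y i = 0 := by
    have := Finset.add_sum_erase ρ (fun i => b i • y i) hj
    simp only [hbj, zero_smul, zero_add] at this
    rw [this, hb]
  have hij : i ≠ j := fun e => hbi (e ▸ hbj)
  exact hbi (h2 b h3 i (Finset.mem_erase.2 ⟨hij, hi⟩))

private theorem Circuit_exists {F V ι : Type*} [Field F] [AddCommGroup V] [Module F V]
    {y : ι → V} {S : Finset ι} (hS : ¬ LinearIndepOn F y (S : Set ι)) :
    ∃ ρ ⊆ S, IsCircuit F y ρ := by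
  classical
  induction S using Finset.strongInduction with
  | H S ih =>
    by_cases h : ∃ τ ⊂ S, ¬ LinearIndepOn F y (τ : Set ι)
    · obtain ⟨τ, hτ, hd⟩ := h
      obtain ⟨ρ, h1, h2⟩ := ih τ hτ hd
      exact ⟨ρ, h1.trans hτ.1, h2⟩
    · push Not at h
      exact ⟨S, subset_rfl, hS, h⟩

theorem sum_level_eq_zero {F V ι : Type*} [Field F] [AddCommGroup V] [Module F V] {y : ι → V}
    {α : Type*} [DecidableEq α] {ν : ι → α}
    {S : Finset ι} (hν : ∀ ρ ⊆ S, IsCircuit F y ρ → ∀ i ∈ ρ, ∀ j ∈ ρ, ν i = ν j) {c : ι → F}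
    (h : ∑ i ∈ S, c i • y i = 0) (v : α) : ∑ i ∈ S with ν i = v, c i • y i = 0 := by
  classical
  obtain ⟨N, hN⟩ : ∃ N, N = (S.filter fun i => c i ≠ 0).card := ⟨_, rfl⟩
  induction N using Nat.strong_induction_on generalizing c with
  | _ N ih =>
    by_cases h0 : ∀ i ∈ S, c i = 0
    · refine Finset.sum_eq_zero fun i hi => ?_
      rw [h0 i (Finset.mem_filter.1 hi).1, zero_smul]
    · push Not at h0
      obtain ⟨i0, hi0, hci0⟩ := h0
      have hdep : ¬ LinearIndepOn F y ((S.filter fun i => c i ≠ 0 : Finset ι) : Set ι) := by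
        rw [linearIndepOn_finset_iff]
        intro hli
        refine hci0 (hli c ?_ i0 (Finset.mem_filter.2 ⟨hi0, hci0⟩))
        rw [← h, Finset.sum_filter]
        refine Finset.sum_congr rfl fun i _ => ?_
        by_cases hc : c i = 0
        · simp [hc]
        · rw [if_pos hc]
      obtain ⟨ρ, hρS', hρ⟩ := Circuit_exists hdep
      obtain ⟨b, hb, hb0⟩ := Circuit_rel hρ
      have hρS : ρ ⊆ S := hρS'.trans (Finset.filter_subset _ _)
      have hne : ρ.Nonempty := by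
        rw [Finset.nonempty_iff_ne_empty]
        rintro rfl
        exact hρ.1 (by rw [Finset.coe_empty]; exact linearIndepOn_empty F y)
      obtain ⟨i, hi⟩ := hne
      have hbi := hb i hi
      have key : ∀ T : Finset ι, T ⊆ S → ∑ j ∈ T, (c j - c i / b i * (if j ∈ ρ then b j else 0)) • y j =
          ∑ j ∈ T, c j • y j - (c i / b i) • ∑ j ∈ T ∩ ρ, b j • y j := by
        intro T _
        rw [Finset.smul_sum, ← Finset.sum_ite_mem T ρ, ← Finset.sum_sub_distrib]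
        refine Finset.sum_congr rfl fun j _ => ?_
        by_cases hj : j ∈ ρ
        · rw [if_pos hj, if_pos hj, sub_smul, mul_smul]
        · rw [if_neg hj, if_neg hj, mul_zero, sub_zero, sub_zero]
      have hc' : ∑ j ∈ S, (c j - c i / b i * (if j ∈ ρ then b j else 0)) • y j = 0 := by
        rw [key S subset_rfl, h, Finset.inter_eq_right.2 hρS, hb0, smul_zero, sub_zero]
      have hlt : (S.filter fun j => c j - c i / b i * (if j ∈ ρ then b j else 0) ≠ 0).card < N := by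
        rw [hN]
        refine Finset.card_lt_card ⟨?_, ?_⟩
        · intro j hj
          rw [Finset.mem_filter] at hj ⊢
          refine ⟨hj.1, fun hcj => hj.2 ?_⟩
          have hjρ : j ∉ ρ := fun hjρ => (Finset.mem_filter.1 (hρS' hjρ)).2 hcj
          rw [if_neg hjρ, hcj, mul_zero, sub_zero]
        · intro hsub
          have := hsub (hρS' hi)
          rw [Finset.mem_filter] at this
          refine this.2 ?_
          rw [if_pos hi, div_mul_cancel₀ _ hbi, sub_self]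
      have h1 := ih _ hlt hc' rfl
      rw [key (S.filter fun i => ν i = v) (Finset.filter_subset _ _)] at h1
      have h2 : ∑ j ∈ (S.filter fun i => ν i = v) ∩ ρ, b j • y j = 0 := by
        by_cases hvi : ν i = v
        · have : (S.filter fun i => ν i = v) ∩ ρ = ρ := by
            refine Finset.inter_eq_right.2 fun j hj => Finset.mem_filter.2 ⟨hρS hj, ?_⟩
            rw [hν ρ hρS hρ j hj i hi, hvi]
          rw [this, hb0]
        · refine Finset.sum_eq_zero fun j hj => ?_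
          rw [Finset.mem_inter, Finset.mem_filter] at hj
          exact absurd (by rw [← hj.1.2, hν ρ hρS hρ i hi j hj.2]) hvi
      rwa [h2, smul_zero, sub_zero] at h1

end Pool.Agent.H62.FC

end
end
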