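import Pool.Agent.H94.G5T.M10
import Pool.Agent.H94.G5T.M115
import Pool.Agent.H94.G5T.M22

/-! The parts of this file: H13.CV.HomR, G3.X.Nc3, G3.X.Tb3. -/

section

/-!
# CV HomR: homomorphisms into the field of meromorphic functions

`hom_rat`: `K = ℂ(t)`: the elements of `K` are the quotients `p (t) / q (t)`; `IsFractionRing` / `RatFunc.algEquivOfTranscendental` (see `Place_rat` in `Pool/Agent/H62/FC/Place.lean` for the base field `L = ⊥`),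
or `IntermediateField.adjoin` of a transcendental element: `Polynomial ℂ → Mer`, `X ↦ T` is injective, lift it to the fraction field.
`hom_cubic`: `K = ℂ(u)(v)`, `L = ℂ(u)`.  First `φ₀ : L →ₐ[ℂ] Mer` with `φ₀ u = U`.  `1, v` is a basis of `K` over `L`: every element is uniquely `a + b v` (`v² ∈ L`, `v ∉ L`, `K = L(v)`).  Define
`φ (a + b v) = φ₀ a + φ₀ b * V`; or: `IntermediateField.algHomAdjoinIntegralEquiv` / `AdjoinRoot` for the minimal polynomial `X² - (4 u³ - α u - β)` of `v` over `L`, with `Mer` as an `L`-algebra via `φ₀`.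
-/

set_option autoImplicit false

open Topology Filter
open Pool.Agent.H17 Pool.Agent.H17.EntFun

noncomputable section

namespace Pool.Agent.H13.CV

variable {K : Type} [Field K] [Algebra ℂ K]

private theorem hom_rat0 {t : K} (htr : Transcendental ℂ t) {M : Type} [Field M] [Algebra ℂ M] {T : M} (hT : Transcendental ℂ T) :
    ∃ φ : IntermediateField.adjoin ℂ {t} →ₐ[ℂ] M, φ ⟨t, IntermediateField.mem_adjoin_simple_self ℂ t⟩ = T := by
  refine ⟨((IntermediateField.adjoin ℂ {T}).val.comp (RatFunc.algEquivOfTranscendental T hT).toAlgHom).comp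
    (RatFunc.algEquivOfTranscendental t htr).symm.toAlgHom, ?_⟩
  have h1 : (RatFunc.algEquivOfTranscendental t htr).symm ⟨t, IntermediateField.mem_adjoin_simple_self ℂ t⟩ = RatFunc.X := by
    rw [AlgEquiv.symm_apply_eq]
    apply Subtype.ext
    simp
  have h2 : ((RatFunc.algEquivOfTranscendental T hT) RatFunc.X : M) = T := by
    simp
  show ((RatFunc.algEquivOfTranscendental T hT) ((RatFunc.algEquivOfTranscendental t htr).symm
    ⟨t, IntermediateField.mem_adjoin_simple_self ℂ t⟩) : M) = T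
  rw [h1, h2]

theorem hom_rat {t : K} (ht : IntermediateField.adjoin ℂ {t} = ⊤) (htr : Transcendental ℂ t) {T : Mer} (hT : Transcendental ℂ T) :
    ∃ φ : K →ₐ[ℂ] Mer, φ t = T := by
  obtain ⟨φ, hφ⟩ := hom_rat0 htr hT
  refine ⟨(φ.comp (IntermediateField.equivOfEq ht.symm).toAlgHom).comp IntermediateField.topEquiv.symm.toAlgHom, ?_⟩
  rw [← hφ]
  rfl

theorem hom_cubic {u v : K} {α β : ℂ} (h : v ^ 2 = 4 * u ^ 3 - algebraMap ℂ K α * u - algebraMap ℂ K β) (hu : Transcendental ℂ u)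
    (huv : IntermediateField.adjoin ℂ {u, v} = ⊤) (hvu : v ∉ IntermediateField.adjoin ℂ {u}) {U V : Mer} (hU : Transcendental ℂ U)
    (hUV : V ^ 2 = 4 * U ^ 3 - algebraMap ℂ Mer α * U - algebraMap ℂ Mer β) : ∃ φ : K →ₐ[ℂ] Mer, φ u = U ∧ φ v = V := by
  classical
  obtain ⟨L, hL⟩ : ∃ L : IntermediateField ℂ K, L = IntermediateField.adjoin ℂ {u} := ⟨_, rfl⟩
  have huL : u ∈ L := by
    rw [hL]
    exact IntermediateField.mem_adjoin_simple_self ℂ u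
  rw [← hL] at hvu
  obtain ⟨u₀, hu₀⟩ : ∃ u₀ : L, u₀ = ⟨u, huL⟩ := ⟨_, rfl⟩
  obtain ⟨φ₀, h₀⟩ : ∃ φ₀ : L →ₐ[ℂ] Mer, φ₀ u₀ = U := by
    subst hu₀
    subst hL
    exact hom_rat0 hu hU
  letI : Algebra L Mer := φ₀.toRingHom.toAlgebra
  haveI : IsScalarTower ℂ L Mer := IsScalarTower.of_algebraMap_eq' φ₀.comp_algebraMap.symm
  have halg : ∀ a : L, algebraMap L Mer a = φ₀ a := fun a => rfl
  let c : L := 4 * u₀ ^ 3 - algebraMap ℂ L α * u₀ - algebraMap ℂ L β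
  have hc : algebraMap L K c = v ^ 2 := by
    rw [h]
    simp only [c, map_sub, map_mul, map_pow, map_ofNat, ← IsScalarTower.algebraMap_apply]
    rw [hu₀]
    rfl
  have hv : Polynomial.aeval v (Polynomial.X ^ 2 - Polynomial.C c) = 0 := by
    simp [hc]
  have hmon : (Polynomial.X ^ 2 - Polynomial.C c : Polynomial L).Monic := Polynomial.monic_X_pow_sub_C c two_ne_zero
  have hint : IsIntegral L v := ⟨_, hmon, hv⟩
  have hmin : minpoly L v = Polynomial.X ^ 2 - Polynomial.C c := by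
    have h1 : minpoly L v ∣ Polynomial.X ^ 2 - Polynomial.C c := minpoly.dvd L v hv
    have h2 : 2 ≤ (minpoly L v).natDegree := by
      rw [minpoly.two_le_natDegree_iff hint]
      rintro ⟨a, ha⟩
      apply hvu
      rw [← ha]
      exact a.2
    refine (Polynomial.eq_of_monic_of_dvd_of_natDegree_le (minpoly.monic hint) hmon h1 ?_).symm
    rw [Polynomial.natDegree_X_pow_sub_C]
    exact h2
  have htop : IntermediateField.adjoin L {v} = ⊤ := by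
    apply IntermediateField.restrictScalars_injective ℂ
    rw [IntermediateField.restrictScalars_top, hL, IntermediateField.adjoin_adjoin_left, ← huv]
    congr 1
  have hroot : Polynomial.aeval V (minpoly L (IntermediateField.adjoin.powerBasis hint).gen) = 0 := by
    rw [IntermediateField.adjoin.powerBasis_gen, IntermediateField.minpoly_gen, hmin]
    simp only [map_sub, map_pow, Polynomial.aeval_X, Polynomial.aeval_C, halg, c, map_mul, map_ofNat]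
    rw [h₀, hUV, φ₀.commutes, φ₀.commutes]
    ring
  let ψ : IntermediateField.adjoin L {v} →ₐ[L] Mer := (IntermediateField.adjoin.powerBasis hint).lift V hroot
  have hψ : ψ (IntermediateField.AdjoinSimple.gen L v) = V := by
    have := (IntermediateField.adjoin.powerBasis hint).lift_gen V hroot
    rwa [IntermediateField.adjoin.powerBasis_gen] at this
  let e : K →ₐ[L] IntermediateField.adjoin L {v} :=
    (IntermediateField.equivOfEq htop.symm).toAlgHom.comp IntermediateField.topEquiv.symm.toAlgHom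
  refine ⟨(ψ.comp e).restrictScalars ℂ, ?_, ?_⟩
  · have h1 : (ψ.comp e) (algebraMap L K u₀) = algebraMap L Mer u₀ := AlgHom.commutes _ _
    rw [halg, h₀, hu₀] at h1
    exact h1
  · exact hψ

end Pool.Agent.H13.CV

end
end

section

/-!
# G3 X Nc3: small charts in which `u` is `κ (x ^ a * y ^ b, s)`

`NCC Λ u κ χ r a b`: in the chart `χ` (polydisc of radius `2`) the map `u` is `κ (nm a b (r q))`.
-/

set_option autoImplicit false

open Topology Filter Metric Set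

namespace Pool.Agent.G3.X

open Pool.Agent.TG (TMap IsNC nm exists_small_chart)
open Pool.Agent.H36.BP (EN)
open Pool.Agent.H14.PP (IsCone)
open Pool.Agent.H62.EF (pr)
open Pool.Agent.AD (Vd Chart)

variable {N k : ℕ} {X : Set (EN N)} {Λ : AddSubgroup (Vd (k + 1))} {u : EN N → Vd (k + 1)} {κ : Vd (k + 1) → Vd (k + 1)}

/-- in the chart `χ` the map `u` is `κ (nm a b (r q))` -/
structure NCC (Λ : AddSubgroup (Vd (k + 1))) (u : EN N → Vd (k + 1)) (κ : Vd (k + 1) → Vd (k + 1)) (χ : Chart (k + 2) X) (r : ℝ) (a b : ℕ) : Prop where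
  pos : 0 < r
  ab : 0 < a + b
  lift : ∀ q ∈ ball (0 : Vd (k + 2)) 2, u (χ.σ q) - κ (nm a b ((r : ℂ) • q)) ∈ Λ

theorem exists_ncc (hX : IsCone X) (hu : TMap X Λ u) {x : EN N} (h : IsNC X Λ u κ x) {η : ℝ} (hη : 0 < η) :
    ∃ (χ : Chart (k + 2) X) (r : ℝ) (a b : ℕ), x ∈ χ.U ∧ χ.q x = 0 ∧ NCC Λ u κ χ r a b ∧ 2 * r ≤ η ∧
      ∀ q ∈ ball (0 : Vd (k + 2)) 2, dist (pr (χ.σ q)) (pr x) < η := by
  obtain ⟨σ, τ, a, b, hG, hσ0, hab, hσl⟩ := h
  obtain ⟨η', hη', hall⟩ := Metric.eventually_nhds_iff_ball.1 (hG.σ_mem.and hσl)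
  obtain ⟨χ, r, hr, hσU, hq0, hχ⟩ := exists_small_chart hX hG (lt_min hη hη')
  rw [hσ0] at hσU hq0
  refine ⟨χ, r, a, b, hσU, hq0, ⟨hr, hab, fun p hp => ?_⟩, ?_, fun p hp => ?_⟩
  · obtain ⟨h1, -, c, hc, h3⟩ := hχ p hp
    have h4 := hall ((r : ℂ) • p) (mem_ball_zero_iff.2 (h1.trans_le (min_le_right _ _)))
    have h5 := Λ.add_mem (hu.smul _ h4.1 c hc) h4.2
    have h6 : u (c • σ ((r : ℂ) • p)) - u (σ ((r : ℂ) • p)) + (u (σ ((r : ℂ) • p)) - κ (nm a b ((r : ℂ) • p))) =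
        u (χ.σ p) - κ (nm a b ((r : ℂ) • p)) := by
      rw [h3]
      abel
    rwa [h6] at h5
  · -- `2 r ≤ η` from the bound on `‖r p‖`
    refine le_of_forall_lt fun t ht => ?_
    by_cases ht0 : 0 ≤ t
    · set w : ℂ := ((t / r : ℝ) : ℂ) with hw
      have hwn : ‖w‖ = t / r := by
        rw [hw, Complex.norm_real, Real.norm_of_nonneg (by positivity)]
      set p : Vd (k + 2) := fun _ => w with hp
      have hpn : ‖p‖ = t / r := by
        rw [hp, pi_norm_const, hwn]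
      have hpb : p ∈ ball (0 : Vd (k + 2)) 2 := by
        rw [mem_ball_zero_iff, hpn, div_lt_iff₀ hr]
        exact ht
      have h1 := (hχ p hpb).1
      rw [norm_smul, Complex.norm_real, Real.norm_of_nonneg hr.le, hpn, mul_div_cancel₀ _ hr.ne'] at h1
      exact h1.trans_le (min_le_left _ _)
    · exact (not_le.1 ht0).trans hη
  · have h2 := (hχ p hp).2.1
    rw [hσ0] at h2
    exact h2.trans_le (min_le_left _ _)

end Pool.Agent.G3.X

end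

section

/-!
# G3 X Tb3: the tube round the fibre over `p` in the total space

Finitely many charts of `X` in which `u` is `κ (x ^ a * y ^ b, s)`, with open cones `W i` covering a neighbourhood of the fibre, and finitely many witness charts: the family version of
`TG/Y/TbA`.  No arcs yet; the tubes of the slabs over arcs are sliced out of these charts.
-/

set_option autoImplicit false

open Topology Filter Metric Set

namespace Pool.Agent.G3.X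

open Pool.Agent.TG (TMap Lat IsNC nm ne_zero compact_unit exists_unit lim_mem smul_mem_lat)
open Pool.Agent.H36.BP (EN)
open Pool.Agent.H14.PP (IsCone)
open Pool.Agent.H62.EF (pr)
open Pool.Agent.AD (Vd Chart)

variable {N k : ℕ}

/-- a chart with its constants; `R` is the radius of the part which is used -/
structure C3 (X : Set (EN N)) (k : ℕ) where
  /-- the chart -/
  χ : Chart (k + 2) X
  /-- the scale -/
  r : ℝ
  /-- exponents -/
  a : ℕ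
  /-- exponents -/
  b : ℕ
  /-- the radius of the part which is used -/
  R : ℝ

/-- the data of the tube -/
structure T3 (X : Set (EN N)) (k : ℕ) where
  /-- the number of charts -/
  m : ℕ
  /-- the charts -/
  c : Fin m → C3 X k
  /-- the open cones -/
  W : Fin m → Set (EN N)
  /-- the number of witness charts -/
  n : ℕ
  /-- the witness charts -/
  w : Fin n → C3 X k

variable {X : Set (EN N)} {Λ : AddSubgroup (Vd (k + 1))} {u : EN N → Vd (k + 1)} {κ : Vd (k + 1) → Vd (k + 1)} {p : Vd (k + 1)}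

/-- the tube round the fibre over `p`, over `ball p s` -/
structure Tb3 (Λ : AddSubgroup (Vd (k + 1))) (u : EN N → Vd (k + 1)) (κ : Vd (k + 1) → Vd (k + 1)) (p : Vd (k + 1)) (η s : ℝ) (T : T3 X k) : Prop where
  pos : 0 < s
  ncc : ∀ i, NCC Λ u κ (T.c i).χ (T.c i).r (T.c i).a (T.c i).b
  le : ∀ i, 2 * (T.c i).r ≤ η
  W_open : ∀ i, IsOpen (T.W i)
  W_sub : ∀ i, T.W i ⊆ (T.c i).χ.U
  W_smul : ∀ i, ∀ x ∈ T.W i, ∀ c : ℂ, c ≠ 0 → c • x ∈ T.W i
  cover : ∀ y ∈ ball p s, ∀ x ∈ X, u x - y ∈ Λ → ∃ i, x ∈ T.W i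
  wncc : ∀ j, NCC Λ u κ (T.w j).χ (T.w j).r (T.w j).a (T.w j).b
  wle : ∀ j, 2 * (T.w j).r ≤ η
  wR : ∀ j, 0 < (T.w j).R ∧ (T.w j).R ≤ 2
  wsub : ∀ j i, (∃ q ∈ ball (0 : Vd (k + 2)) (T.w j).R, (T.w j).χ.σ q ∈ T.W i) → ∀ q ∈ ball (0 : Vd (k + 2)) 2, (T.w j).χ.σ q ∈ (T.c i).χ.U
  wnest : ∀ j j', (∃ q ∈ ball (0 : Vd (k + 2)) (T.w j).R, ∃ q' ∈ ball (0 : Vd (k + 2)) (T.w j').R, pr ((T.w j).χ.σ q) = pr ((T.w j').χ.σ q')) →
    (∀ q ∈ ball (0 : Vd (k + 2)) (T.w j).R, (T.w j).χ.σ q ∈ (T.w j').χ.U) ∨ (∀ q' ∈ ball (0 : Vd (k + 2)) (T.w j').R, (T.w j').χ.σ q' ∈ (T.w j).χ.U)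
  wcover : ∀ y ∈ ball p s, ∀ x ∈ X, u x - y ∈ Λ → ∃ j, x ∈ (T.w j).χ.U ∧ (T.w j).χ.q x ∈ ball (0 : Vd (k + 2)) (T.w j).R

/-- a property which holds near the fibre over `p` holds over a ball -/
private theorem exists_rad (hX : IsCone X) (hΛ : Lat Λ) (hu : TMap X Λ u) {p : Vd (k + 1)} (P : EN N → Prop)
    (hP : ∀ x ∈ X, P x → ∀ c : ℂ, c ≠ 0 → P (c • x))
    (h : ∀ x ∈ X, u x - p ∈ Λ → ∀ᶠ y in 𝓝 x, y ∈ X → P y) : ∃ s : ℝ, 0 < s ∧ ∀ y ∈ ball p s, ∀ x ∈ X, u x - y ∈ Λ → P x := by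
  by_contra hcon
  push Not at hcon
  have h1 : ∀ n : ℕ, ∃ (y : EN N) (z : Vd (k + 1)), y ∈ X ∩ sphere (0 : EN N) 1 ∧ z ∈ ball p (1 / ((n : ℝ) + 1)) ∧ u y - z ∈ Λ ∧ ¬ P y := by
    intro n
    obtain ⟨z, hz, x, hx, hxz, hPx⟩ := hcon (1 / ((n : ℝ) + 1)) (by positivity)
    obtain ⟨c, hc, hcx⟩ := exists_unit hX hx
    refine ⟨c • x, z, hcx, hz, smul_mem_lat hu hx hxz hc, ?_⟩
    intro hP'
    have := hP _ hcx.1 hP' c⁻¹ (inv_ne_zero hc)
    rw [smul_smul, inv_mul_cancel₀ hc, one_smul] at this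
    exact hPx this
  choose y z hy hz hyz hPy using h1
  obtain ⟨x, hx, φ, hφ, hlim⟩ := (compact_unit hX).tendsto_subseq hy
  have hzl : Tendsto z atTop (𝓝 p) := by
    rw [tendsto_iff_dist_tendsto_zero]
    exact squeeze_zero (fun _ => dist_nonneg) (fun n => (mem_ball.mp (hz n)).le) tendsto_one_div_add_atTop_nhds_zero_nat
  have hxb : u x - p ∈ Λ := lim_mem hΛ hu hx.1 hlim (hzl.comp hφ.tendsto_atTop) (Eventually.of_forall fun n => ⟨(hy _).1, hyz _⟩)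
  obtain ⟨n, hn⟩ := (hlim.eventually (h x hx.1 hxb)).exists
  exact hPy _ (hn (hy _).1)

private theorem compact_fib (hX : IsCone X) (hΛ : Lat Λ) (hu : TMap X Λ u) (p : Vd (k + 1)) :
    IsCompact {x : EN N | x ∈ X ∩ sphere (0 : EN N) 1 ∧ u x - p ∈ Λ} := by
  refine IsSeqCompact.isCompact ?_
  intro y hy
  obtain ⟨x, hx, φ, hφ, hlim⟩ := (compact_unit hX).tendsto_subseq (fun n => (hy n).1)
  exact ⟨x, ⟨hx, lim_mem hΛ hu hx.1 hlim tendsto_const_nhds (Eventually.of_forall fun n => ⟨(hy _).1.1, (hy _).2⟩)⟩, φ, hφ, hlim⟩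

private theorem exists_R (hX : IsCone X) (χ : Chart (k + 2) X) {x : EN N} (hx : x ∈ X) (hxU : x ∈ χ.U) :
    ∃ R : ℝ, 0 < R ∧ ∀ w ∈ X, dist (pr w) (pr x) < R → w ∈ χ.U := by
  obtain ⟨R, hR, h⟩ := Pool.Agent.H62.EF.near_of_pr (ne_zero hX hx) (χ.isOpen_U.mem_nhds hxU)
  refine ⟨R, hR, fun w hw hd => ?_⟩
  obtain ⟨c, hc, hcw⟩ := h w (ne_zero hX hw) hd
  have := χ.smul_U _ hcw c⁻¹ (inv_ne_zero hc)
  rwa [smul_smul, inv_mul_cancel₀ hc, one_smul] at this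

private theorem exists_r (hX : IsCone X) (χ : Chart (k + 2) X) {x : EN N} (hx : x ∈ X) (hxU : x ∈ χ.U) (hq : χ.q x = 0) {ε : ℝ} (hε : 0 < ε) :
    ∃ r : ℝ, 0 < r ∧ r ≤ 2 ∧ ∀ q ∈ ball (0 : Vd (k + 2)) r, dist (pr (χ.σ q)) (pr x) < ε := by
  have h0 : (0 : Vd (k + 2)) ∈ ball (0 : Vd (k + 2)) 2 := mem_ball_self two_pos
  obtain ⟨c, hc, hxc⟩ := (χ.surj x hx hxU).2
  rw [hq] at hxc
  have h1 : pr x = pr (χ.σ 0) := by
    conv_lhs => rw [hxc]
    exact Pool.Agent.H62.EF.pr_smul _ hc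
  have hc1 : ContinuousAt (fun q => pr (χ.σ q)) 0 :=
    ContinuousAt.comp (f := χ.σ) (Pool.Agent.H62.EF.continuousAt_pr (ne_zero hX (χ.σ_mem 0 h0).1)) (χ.σ_an 0 h0).continuousAt
  have h2 : ∀ᶠ q in 𝓝 (0 : Vd (k + 2)), dist (pr (χ.σ q)) (pr x) < ε := by
    rw [h1]
    exact Metric.tendsto_nhds.mp hc1.tendsto ε hε
  obtain ⟨r, hr, h⟩ := Metric.eventually_nhds_iff_ball.mp h2
  exact ⟨min r 2, lt_min hr two_pos, min_le_right _ _, fun q hq => h q (ball_subset_ball (min_le_left _ _) hq)⟩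

theorem exists_tb3 (hX : IsCone X) (hu : TMap X Λ u) (hΛ : Lat Λ) {p : Vd (k + 1)} (hnc : ∀ x ∈ X, u x - p ∈ Λ → IsNC X Λ u κ x) {η : ℝ} (hη0 : 0 < η) :
    ∃ (T : T3 X k) (s : ℝ), Tb3 Λ u κ p η s T := by
  -- the covering charts
  have h1 : ∀ x : {x : EN N // x ∈ X ∧ u x - p ∈ Λ}, ∃ (χ : Chart (k + 2) X) (ρ : ℝ) (i j : ℕ) (R : ℝ), x.1 ∈ χ.U ∧ NCC Λ u κ χ ρ i j ∧
      2 * ρ ≤ η ∧ 0 < R ∧ ∀ w ∈ X, dist (pr w) (pr x.1) < R → w ∈ χ.U := by
    rintro ⟨x, hx, hxb⟩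
    obtain ⟨χ, ρ, i, j, hxU, -, hm, hle, hs⟩ := exists_ncc hX hu (hnc x hx hxb) hη0
    obtain ⟨R, hR, hRU⟩ := exists_R hX χ hx hxU
    exact ⟨χ, ρ, i, j, R, hxU, hm, hle, hR, hRU⟩
  choose χ ρ i j R hxU hmon hrange hR hRU using h1
  -- the open cones
  set O : {x : EN N // x ∈ X ∧ u x - p ∈ Λ} → Set (EN N) := fun x => {w | w ≠ 0 ∧ w ∈ (χ x).U ∧ dist (pr w) (pr x.1) < R x / 2} with hO
  have hOopen : ∀ x, IsOpen (O x) := by
    intro x
    rw [isOpen_iff_mem_nhds]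
    rintro w ⟨hw0, hwU, hwd⟩
    have e1 : ∀ᶠ y in 𝓝 w, y ≠ 0 := isOpen_ne.mem_nhds hw0
    have e2 : ∀ᶠ y in 𝓝 w, y ∈ (χ x).U := (χ x).isOpen_U.mem_nhds hwU
    have e3 : ∀ᶠ y in 𝓝 w, dist (pr y) (pr x.1) < R x / 2 :=
      ((Pool.Agent.H62.EF.continuousAt_pr hw0).dist continuousAt_const).eventually (gt_mem_nhds hwd)
    filter_upwards [e1, e2, e3] with y h1 h2 h3
    exact ⟨h1, h2, h3⟩
  have hOsmul : ∀ x, ∀ w ∈ O x, ∀ c : ℂ, c ≠ 0 → c • w ∈ O x := by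
    rintro x w ⟨hw0, hwU, hwd⟩ c hc
    refine ⟨smul_ne_zero hc hw0, (χ x).smul_U w hwU c hc, ?_⟩
    rw [Pool.Agent.H62.EF.pr_smul w hc]
    exact hwd
  obtain ⟨t, ht⟩ := (compact_fib hX hΛ hu p).elim_finite_subcover O hOopen (by
    rintro x ⟨⟨hx, -⟩, hxb⟩
    refine Set.mem_iUnion.mpr ⟨⟨x, hx, hxb⟩, ne_zero hX hx, hxU _, ?_⟩
    rw [dist_self]
    exact half_pos (hR _))
  have hcov : ∀ x ∈ X, u x - p ∈ Λ → ∃ y ∈ t, x ∈ O y := by
    intro x hx hxb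
    obtain ⟨c, hc, hcx⟩ := exists_unit hX hx
    obtain ⟨y, hyt, hy⟩ := Set.mem_iUnion₂.mp (ht ⟨hcx, smul_mem_lat hu hx hxb hc⟩)
    refine ⟨y, hyt, ?_⟩
    have := hOsmul y _ hy c⁻¹ (inv_ne_zero hc)
    rwa [smul_smul, inv_mul_cancel₀ hc, one_smul] at this
  obtain ⟨R₀, hR₀, hR₀t⟩ : ∃ R₀ : ℝ, 0 < R₀ ∧ ∀ x ∈ t, R₀ ≤ R x := by
    have e1 : ∀ᶠ r in 𝓝[>] (0 : ℝ), ∀ x ∈ t, r ≤ R x :=
      (Finset.eventually_all t).mpr fun x _ => mem_nhdsWithin_of_mem_nhds (ge_mem_nhds (hR x))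
    obtain ⟨r, hr, hr'⟩ := (e1.and self_mem_nhdsWithin).exists
    exact ⟨r, hr', hr⟩
  -- the witnesses
  have h2 : ∀ x : {x : EN N // x ∈ X ∧ u x - p ∈ Λ}, ∃ (χ' : Chart (k + 2) X) (ρ' : ℝ) (i' j' : ℕ) (R' r' : ℝ), x.1 ∈ χ'.U ∧ χ'.q x.1 = 0 ∧
      NCC Λ u κ χ' ρ' i' j' ∧ (∀ q ∈ ball (0 : Vd (k + 2)) 2, dist (pr (χ'.σ q)) (pr x.1) < R₀ / 8) ∧
      2 * ρ' ≤ η ∧ 0 < R' ∧ (∀ w ∈ X, dist (pr w) (pr x.1) < R' → w ∈ χ'.U) ∧
      0 < r' ∧ r' ≤ 2 ∧ ∀ q ∈ ball (0 : Vd (k + 2)) r', dist (pr (χ'.σ q)) (pr x.1) < R' / 4 := by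
    rintro ⟨x, hx, hxb⟩
    obtain ⟨χ', ρ', i', j', hxU', hq, hm, hle, hs⟩ := exists_ncc hX hu (hnc x hx hxb) (lt_min hη0 (by positivity : 0 < R₀ / 8))
    obtain ⟨R', hR', hRU'⟩ := exists_R hX χ' hx hxU'
    obtain ⟨r', hr', hr2, hrr⟩ := exists_r hX χ' hx hxU' hq (by positivity : 0 < R' / 4)
    exact ⟨χ', ρ', i', j', R', r', hxU', hq, hm, fun q hq => lt_of_lt_of_le (hs q hq) (min_le_right _ _),
      hle.trans (min_le_left _ _), hR', hRU', hr', hr2, hrr⟩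
  choose χ' ρ' i' j' R' r' hxU' hq' hmon' hsm' hrange' hR' hRU' hr' hr2' hrr' using h2
  -- the open cones of the witnesses
  set O' : {x : EN N // x ∈ X ∧ u x - p ∈ Λ} → Set (EN N) := fun x => {y | y ∈ (χ' x).U ∧ (χ' x).q y ∈ ball (0 : Vd (k + 2)) (r' x)} with hO'
  have hO'open : ∀ x, IsOpen (O' x) := by
    intro x
    rw [isOpen_iff_mem_nhds]
    rintro w ⟨hwU, hwq⟩
    have e2 : ∀ᶠ y in 𝓝 w, y ∈ (χ' x).U := (χ' x).isOpen_U.mem_nhds hwU
    have e3 : ∀ᶠ y in 𝓝 w, (χ' x).q y ∈ ball (0 : Vd (k + 2)) (r' x) := ((χ' x).q_an w hwU).continuousAt.eventually (isOpen_ball.mem_nhds hwq)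
    filter_upwards [e2, e3] with y h2 h3
    exact ⟨h2, h3⟩
  have hO'smul : ∀ x, ∀ w ∈ O' x, ∀ c : ℂ, c ≠ 0 → c • w ∈ O' x := by
    rintro x w ⟨hwU, hwq⟩ c hc
    refine ⟨(χ' x).smul_U w hwU c hc, ?_⟩
    rw [(χ' x).q_smul w hwU c hc]
    exact hwq
  obtain ⟨t', ht'⟩ := (compact_fib hX hΛ hu p).elim_finite_subcover O' hO'open (by
    rintro x ⟨⟨hx, -⟩, hxb⟩
    refine Set.mem_iUnion.mpr ⟨⟨x, hx, hxb⟩, hxU' _, ?_⟩
    rw [hq' ⟨x, hx, hxb⟩]
    exact mem_ball_self (hr' _))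
  have hcov' : ∀ x ∈ X, u x - p ∈ Λ → ∃ y ∈ t', x ∈ O' y := by
    intro x hx hxb
    obtain ⟨c, hc, hcx⟩ := exists_unit hX hx
    obtain ⟨y, hyt, hy⟩ := Set.mem_iUnion₂.mp (ht' ⟨hcx, smul_mem_lat hu hx hxb hc⟩)
    refine ⟨y, hyt, ?_⟩
    have := hO'smul y _ hy c⁻¹ (inv_ne_zero hc)
    rwa [smul_smul, inv_mul_cancel₀ hc, one_smul] at this
  -- the radius
  obtain ⟨s₀, hs₀, hs₀P⟩ := exists_rad hX hΛ hu (p := p)
    (fun y => (∃ x ∈ t, y ∈ O x) ∧ ∃ x ∈ t', y ∈ O' x)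
    (by
      rintro y - ⟨⟨x, hx, hyx⟩, x', hx', hyx'⟩ c hc
      exact ⟨⟨x, hx, hOsmul x y hyx c hc⟩, x', hx', hO'smul x' y hyx' c hc⟩)
    (by
      intro x hx hxb
      obtain ⟨x₁, hx₁, hxO⟩ := hcov x hx hxb
      obtain ⟨x₂, hx₂, hxO'⟩ := hcov' x hx hxb
      have e1 : ∀ᶠ y in 𝓝 x, y ∈ O x₁ := (hOopen x₁).mem_nhds hxO
      have e2 : ∀ᶠ y in 𝓝 x, y ∈ O' x₂ := (hO'open x₂).mem_nhds hxO'
      filter_upwards [e1, e2] with y h1 h2 _
      exact ⟨⟨x₁, hx₁, h1⟩, x₂, hx₂, h2⟩)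
  refine ⟨⟨t.card, fun l => ⟨χ (t.equivFin.symm l).1, ρ (t.equivFin.symm l).1, i (t.equivFin.symm l).1, j (t.equivFin.symm l).1, 1⟩,
    fun l => O (t.equivFin.symm l).1, t'.card,
    fun l => ⟨χ' (t'.equivFin.symm l).1, ρ' (t'.equivFin.symm l).1, i' (t'.equivFin.symm l).1, j' (t'.equivFin.symm l).1, r' (t'.equivFin.symm l).1⟩⟩, s₀,
    ⟨hs₀, fun l => hmon _, fun l => hrange _, fun l => hOopen _, ?_, fun l => hOsmul _, ?_, fun l => hmon' _, fun l => hrange' _, fun l => ⟨hr' _, hr2' _⟩,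
      ?_, ?_, ?_⟩⟩
  · rintro l w ⟨-, hw, -⟩
    exact hw
  · intro y hy x hx hxy
    obtain ⟨⟨z, hz, hxz⟩, -⟩ := hs₀P y hy x hx hxy
    refine ⟨t.equivFin ⟨z, hz⟩, ?_⟩
    simp only [Equiv.symm_apply_apply]
    exact hxz
  · rintro l l₁ ⟨q, hq, -, -, hqd⟩ q' hq₂
    dsimp only at hq hqd hq₂ ⊢
    set x := (t'.equivFin.symm l).1 with hx
    have hk := hR₀t _ (t.equivFin.symm l₁).2
    have a1 := hsm' x q (ball_subset_ball (hr2' x) hq)
    have a2 := hsm' x q' hq₂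
    refine hRU _ _ ((χ' x).σ_mem q' hq₂).1 ?_
    have a3 := dist_triangle (pr ((χ' x).σ q')) (pr x.1) (pr (t.equivFin.symm l₁).1.1)
    have a4 := dist_triangle (pr x.1) (pr ((χ' x).σ q)) (pr (t.equivFin.symm l₁).1.1)
    rw [dist_comm (pr x.1) (pr ((χ' x).σ q))] at a4
    have a5 : dist (pr ((χ' x).σ q)) (pr (t.equivFin.symm l₁).1.1) < R (t.equivFin.symm l₁).1 / 2 := hqd
    have a6 : 0 < R (t.equivFin.symm l₁).1 := hR _
    linarith
  · rintro l l' ⟨q, hq, q', hq₂, hpp⟩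
    dsimp only at hq hq₂ hpp ⊢
    set x := (t'.equivFin.symm l).1 with hx
    set x' := (t'.equivFin.symm l').1 with hx'
    have a1 : dist (pr ((χ' x).σ q)) (pr x.1) < R' x / 4 := hrr' x q hq
    have a2 : dist (pr ((χ' x').σ q')) (pr x'.1) < R' x' / 4 := hrr' x' q' hq₂
    have hpp' : pr ((χ' x).σ q) = pr ((χ' x').σ q') := hpp
    rw [hpp'] at a1
    have a3 := dist_triangle (pr x.1) (pr ((χ' x').σ q')) (pr x'.1)
    rw [dist_comm (pr x.1) (pr ((χ' x').σ q'))] at a3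
    have b1 := hR' x
    have b2 := hR' x'
    rcases le_total (R' x) (R' x') with hle | hle
    · left
      intro q₁ hq₁
      refine hRU' x' _ ((χ' x).σ_mem q₁ (ball_subset_ball (hr2' x) hq₁)).1 ?_
      have a4 := hrr' x q₁ hq₁
      have a5 := dist_triangle (pr ((χ' x).σ q₁)) (pr x.1) (pr x'.1)
      linarith
    · right
      intro q₁ hq₁
      refine hRU' x _ ((χ' x').σ_mem q₁ (ball_subset_ball (hr2' x') hq₁)).1 ?_
      have a4 := hrr' x' q₁ hq₁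
      have a5 := dist_triangle (pr ((χ' x').σ q₁)) (pr x'.1) (pr x.1)
      rw [dist_comm (pr x'.1) (pr x.1)] at a5
      linarith
  · intro y hy x hx hxy
    obtain ⟨-, z, hz, hxz⟩ := hs₀P y hy x hx hxy
    refine ⟨t'.equivFin ⟨z, hz⟩, ?_⟩
    simp only [Equiv.symm_apply_apply]
    exact hxz

end Pool.Agent.G3.X

end
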