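import Pool.Agent.H94.G5T.M22

/-! The parts of this file: G3.A.Idn, G3.A.Shts. -/

section

/-!
# G3 A Idn: elementary facts on the curves over lines

`hc_eq`: `F z ∧ G z = 0` (all `2 × 2` minors) near `z₀`, so everywhere (identity theorem for entire functions), `pr (F z) = pr (G z)` (`F z, G z ≠ 0`: `X` is a cone without `0`).
`Lm.unif`: otherwise there are `ε > 0` and for `𝒰`-most `n` a point `w n ∈ K` with `dist > ε`; `w n → z ∈ K` along `𝒰`, contradiction to `Lm` at `z` and continuity of `g`.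
-/

set_option autoImplicit false

open Topology Filter Metric

namespace Pool.Agent.G3.A

open Pool.Agent.H36.BP (EN fs wd)
open Pool.Agent.H14.PP (IsCone CurveAt Tan)
open Pool.Agent.H62.EF (MN pr)
open Pool.Agent.AD (Vd Chart Charts IsGerm)
open Pool.Agent.TG
open Pool.Agent.G3.C (Gc)

variable {N k : ℕ} {X : Set (EN N)} {Λ : AddSubgroup (Vd (k + 1))} {u : EN N → Vd (k + 1)} {D B Bad : Set (Vd (k + 1))} {a : Vd (k + 1)}

theorem hc_mem {f : ℂ → MN N} {y : Vd (k + 1)} (hf : f ∈ Hc X Λ u a y) (z : ℂ) : f z ∈ Fb X Λ u (y + z • a) := by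
  obtain ⟨F, ⟨-, hFX, hFu⟩, rfl⟩ := hf
  exact ⟨F z, hFX z, rfl, hFu z⟩

theorem hc_cont (hX : IsCone X) {f : ℂ → MN N} {y : Vd (k + 1)} (hf : f ∈ Hc X Λ u a y) : Continuous f := by
  obtain ⟨F, ⟨hFd, hFX, -⟩, rfl⟩ := hf
  rw [continuous_iff_continuousAt]
  intro z
  exact ContinuousAt.comp (g := pr) (f := F) (Pool.Agent.H62.EF.continuousAt_pr (ne_zero hX (hFX z))) hFd.continuous.continuousAt

theorem hc_add {f : ℂ → MN N} {y : Vd (k + 1)} (hf : f ∈ Hc X Λ u a y) (z₁ : ℂ) : (fun z => f (z₁ + z)) ∈ Hc X Λ u a (y + z₁ • a) := by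
  obtain ⟨F, ⟨hFd, hFX, hFu⟩, rfl⟩ := hf
  refine ⟨fun z => F (z₁ + z), ⟨hFd.comp (differentiable_id.const_add z₁), fun z => hFX _, fun z => ?_⟩, rfl⟩
  have h := hFu (z₁ + z)
  rw [add_smul, ← add_assoc] at h
  exact h

theorem hc_per {y l : Vd (k + 1)} (hl : l ∈ Λ) : Hc X Λ u a (y + l) = Hc X Λ u a y := by
  ext f
  constructor
  · rintro ⟨F, ⟨hFd, hFX, hFu⟩, rfl⟩
    refine ⟨F, ⟨hFd, hFX, fun z => ?_⟩, rfl⟩
    have h := Λ.add_mem (hFu z) hl
    have e : u (F z) - (y + l + z • a) + l = u (F z) - (y + z • a) := by abel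
    rwa [e] at h
  · rintro ⟨F, ⟨hFd, hFX, hFu⟩, rfl⟩
    refine ⟨F, ⟨hFd, hFX, fun z => ?_⟩, rfl⟩
    have h := Λ.sub_mem (hFu z) hl
    have e : u (F z) - (y + z • a) - l = u (F z) - (y + l + z • a) := by abel
    rwa [e] at h

/-- identity theorem -/
theorem hc_eq (hX : IsCone X) {f g : ℂ → MN N} {y y' : Vd (k + 1)} (hf : f ∈ Hc X Λ u a y) (hg : g ∈ Hc X Λ u a y') {z₀ : ℂ}
    (h : ∃ᶠ z in 𝓝[≠] z₀, f z = g z) : f = g := by
  obtain ⟨F, ⟨hFd, hFX, -⟩, rfl⟩ := hf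
  obtain ⟨G, ⟨hGd, hGX, -⟩, rfl⟩ := hg
  have hco : ∀ (H : ℂ → EN N), Differentiable ℂ H → ∀ i, Differentiable ℂ fun z => H z i := by
    intro H hH i
    exact (EuclideanSpace.proj (𝕜 := ℂ) i : EN N →L[ℂ] ℂ).differentiable.comp hH
  have hmin : ∀ i j z, F z i * G z j - F z j * G z i = 0 := by
    intro i j
    have hd : Differentiable ℂ fun z => F z i * G z j - F z j * G z i :=
      ((hco F hFd i).mul (hco G hGd j)).sub ((hco F hFd j).mul (hco G hGd i))
    have ha : AnalyticOnNhd ℂ (fun z => F z i * G z j - F z j * G z i) Set.univ := fun z _ => hd.analyticAt z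
    have hfr : ∃ᶠ z in 𝓝[≠] z₀, F z i * G z j - F z j * G z i = 0 := by
      refine h.mono fun z hz => ?_
      obtain ⟨c, -, hc⟩ := (Pool.Agent.H62.EF.pr_eq_iff (ne_zero hX (hFX z)) (ne_zero hX (hGX z))).1 hz
      rw [hc]
      simp only [PiLp.smul_apply, smul_eq_mul]
      ring
    intro z
    exact ha.eqOn_zero_of_preconnected_of_frequently_eq_zero isPreconnected_univ (Set.mem_univ z₀) hfr (Set.mem_univ z)
  funext z
  obtain ⟨j, hj⟩ : ∃ j, G z j ≠ 0 := by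
    by_contra hn
    push Not at hn
    apply ne_zero hX (hGX z)
    ext j
    exact hn j
  have he : F z = (F z j / G z j) • G z := by
    ext i
    simp only [PiLp.smul_apply, smul_eq_mul]
    rw [div_mul_eq_mul_div, eq_div_iff hj]
    linear_combination hmin i j z
  have hc : F z j / G z j ≠ 0 := by
    intro h0
    rw [h0, zero_smul] at he
    exact ne_zero hX (hFX z) he
  exact (Pool.Agent.H62.EF.pr_eq_iff (ne_zero hX (hFX z)) (ne_zero hX (hGX z))).2 ⟨_, hc, he⟩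

/-- locally uniform convergence -/
theorem Lm.unif {ι : Type*} {𝒰 : Ultrafilter ι} {y₀ : Vd (k + 1)} {f : ι → ℂ → MN N} {g : ℂ → MN N} (h : Lm D a 𝒰 y₀ f g) (hg : Continuous g) {K : Set ℂ}
    (hK : IsCompact K) (hKD : ∀ z ∈ K, y₀ + z • a ∉ D) {ε : ℝ} (hε : 0 < ε) : ∀ᶠ n in (𝒰 : Filter ι), ∀ z ∈ K, dist (f n z) (g z) ≤ ε := by
  classical
  by_contra hcon
  rw [← Ultrafilter.eventually_not] at hcon
  have hcon' : ∀ᶠ n in (𝒰 : Filter ι), ∃ z ∈ K, ε < dist (f n z) (g z) := by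
    filter_upwards [hcon] with n hn
    push Not at hn
    exact hn
  obtain ⟨n₀, z₀, hz₀, -⟩ := hcon'.exists
  obtain ⟨w, hw⟩ : ∃ w : ι → ℂ, ∀ n, w n ∈ K ∧ ((∃ z ∈ K, ε < dist (f n z) (g z)) → ε < dist (f n (w n)) (g (w n))) := by
    refine ⟨fun n => if hn : ∃ z ∈ K, ε < dist (f n z) (g z) then hn.choose else z₀, fun n => ?_⟩
    by_cases hn : ∃ z ∈ K, ε < dist (f n z) (g z)
    · simp only [dif_pos hn]
      exact ⟨hn.choose_spec.1, fun _ => hn.choose_spec.2⟩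
    · simp only [dif_neg hn]
      exact ⟨hz₀, fun h' => absurd h' hn⟩
  have hle : ((𝒰.map w : Ultrafilter ℂ) : Filter ℂ) ≤ 𝓟 K := by
    rw [le_principal_iff, Ultrafilter.mem_coe, Ultrafilter.mem_map]
    exact Filter.Eventually.of_forall fun n => (hw n).1
  obtain ⟨z, hzK, hz⟩ := hK.ultrafilter_le_nhds (𝒰.map w) hle
  have hwz : Tendsto w 𝒰 (𝓝 z) := hz
  have h1 : Tendsto (fun n => f n (w n)) 𝒰 (𝓝 (g z)) := h z (hKD z hzK) w hwz
  have h2 : Tendsto (fun n => g (w n)) 𝒰 (𝓝 (g z)) := (hg.tendsto z).comp hwz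
  have h3 : Tendsto (fun n => dist (f n (w n)) (g (w n))) 𝒰 (𝓝 0) := by
    have h4 := h1.dist h2
    rwa [dist_self] at h4
  obtain ⟨n, h5, h6⟩ := ((h3.eventually_lt_const hε).and hcon').exists
  exact absurd ((hw n).2 h6) (not_lt.2 h5.le)

theorem Lm.unique {ι : Type*} {𝒰 : Ultrafilter ι} (hX : IsCone X) (hL : LG Λ D Bad a) {y₀ : Vd (k + 1)} {f : ι → ℂ → MN N} {g g' : ℂ → MN N}
    (h : Lm D a 𝒰 y₀ f g) (h' : Lm D a 𝒰 y₀ f g') (hg : g ∈ Hc X Λ u a y₀) (hg' : g' ∈ Hc X Λ u a y₀) : g = g' := by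
  refine hc_eq hX hg hg' (z₀ := 0) ?_
  refine Filter.Eventually.frequently ?_
  filter_upwards [hL.iso y₀] with z hz
  exact tendsto_nhds_unique (h z hz (fun _ => z) tendsto_const_nhds) (h' z hz (fun _ => z) tendsto_const_nhds)

end Pool.Agent.G3.A

end

section

/-!
# G3 A Shts: the sheets over `b + E`

`chain_ext`: abstract lemma (no topology): `E` a real normed space, `H : E → Set β`, `η > 0` and maps `τ v w : β → β` (for `‖v - w‖ ≤ η`: `H v → H w`, `τ v v = id`, `τ v w ∘ τ u v = τ u w` if all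
three distances are `≤ η`): for every `f ∈ H 0` there is a section `φ`, `φ 0 = f`, `φ w = τ v w (φ v)` for `‖v - w‖ ≤ η / 3`.  Proof: subdivide the segment `[0, v]` into `n` equal steps (`‖v‖ / n ≤ η / 3`); the
result does not depend on `n` (compare `n` and `n m`), and it is compatible for near `v`, `w` (compare step by step).
`exists_sht`: `H v = Hc (b + v)`, `τ` from `near_exists`; `φ (b + v) = F_v 0` for `v ∈ E`; `F_{v + z a} = F_v (z + ·)`: both are continuous in `z` and near (uniqueness).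
-/

set_option autoImplicit false

open Topology Filter Metric

namespace Pool.Agent.G3.A

open Pool.Agent.H36.BP (EN fs wd)
open Pool.Agent.H14.PP (IsCone CurveAt Tan)
open Pool.Agent.H62.EF (MN pr)
open Pool.Agent.AD (Vd Chart Charts IsGerm)
open Pool.Agent.TG
open Pool.Agent.G3.C (Gc)

section chain

variable {V β : Type*} [NormedAddCommGroup V] [NormedSpace ℝ V]

/-- the values along the subdivided segment from `0` to `v` -/
private noncomputable def chP (τ : V → V → β → β) (f : β) (n : ℕ) (v : V) : ℕ → β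
  | 0 => f
  | i + 1 => τ (((i : ℝ) / n) • v) ((((i + 1 : ℕ) : ℝ) / n) • v) (chP τ f n v i)

private theorem ch_step {n : ℕ} (hn : 0 < n) (v : V) (i : ℕ) : ‖((i : ℝ) / n) • v - (((i + 1 : ℕ) : ℝ) / n) • v‖ = ‖v‖ / n := by
  have hn0 : (0 : ℝ) < n := by exact_mod_cast hn
  rw [← sub_smul, norm_smul]
  have h : (i : ℝ) / n - ((i + 1 : ℕ) : ℝ) / n = -(1 / n) := by
    push_cast
    field_simp
    ring
  rw [h, norm_neg, Real.norm_of_nonneg (by positivity)]
  ring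

variable {H : V → Set β} {η : ℝ} {τ : V → V → β → β}

private theorem ch_mem (h1 : ∀ v w, ‖v - w‖ ≤ η → ∀ f ∈ H v, τ v w f ∈ H w) {f : β} (hf : f ∈ H 0) {n : ℕ} (hn : 0 < n) {v : V} (hv : ‖v‖ / n ≤ η) (i : ℕ) :
    chP τ f n v i ∈ H (((i : ℝ) / n) • v) := by
  induction i with
  | zero => simpa [chP] using hf
  | succ i ih =>
    refine h1 _ _ ?_ _ ih
    rw [ch_step hn]
    exact hv

/-- compatibility of two segments -/
private theorem ch_comp (hη : 0 < η) (h1 : ∀ v w, ‖v - w‖ ≤ η → ∀ f ∈ H v, τ v w f ∈ H w) (h2 : ∀ v, ∀ f ∈ H v, τ v v f = f)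
    (h3 : ∀ u v w, ‖u - v‖ ≤ η → ‖v - w‖ ≤ η → ‖u - w‖ ≤ η → ∀ f ∈ H u, τ v w (τ u v f) = τ u w f) {f : β} (hf : f ∈ H 0)
    {n : ℕ} (hn : 0 < n) {v w : V} (hv : ‖v‖ / n ≤ η / 3) (hw : ‖w‖ / n ≤ η / 3) (hvw : ‖v - w‖ ≤ η / 3) {i : ℕ} (hi : i ≤ n) :
    chP τ f n w i = τ (((i : ℝ) / n) • v) (((i : ℝ) / n) • w) (chP τ f n v i) := by
  have hn0 : (0 : ℝ) < n := by exact_mod_cast hn
  have hd : ∀ j : ℕ, j ≤ n → ‖((j : ℝ) / n) • v - ((j : ℝ) / n) • w‖ ≤ η / 3 := by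
    intro j hj
    rw [← smul_sub, norm_smul, Real.norm_of_nonneg (by positivity)]
    have h4 : (j : ℝ) / n ≤ 1 := by
      rw [div_le_one hn0]
      exact_mod_cast hj
    have h5 := mul_le_mul h4 hvw (norm_nonneg _) zero_le_one
    linarith only [h5]
  induction i with
  | zero =>
    have h4 := h2 0 f hf
    simpa [chP] using h4.symm
  | succ i ih =>
    have hi' : i ≤ n := by omega
    have hm := ch_mem h1 hf hn (v := v) (by linarith only [hη, hv]) i
    have s1 := ch_step hn v i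
    have s2 := ch_step hn w i
    have d1 := hd i hi'
    have d2 := hd (i + 1) hi
    have d3 : ‖((i : ℝ) / n) • v - (((i + 1 : ℕ) : ℝ) / n) • w‖ ≤ η := by
      have h4 : ((i : ℝ) / n) • v - (((i + 1 : ℕ) : ℝ) / n) • w
          = (((i : ℝ) / n) • v - ((i : ℝ) / n) • w) + (((i : ℝ) / n) • w - (((i + 1 : ℕ) : ℝ) / n) • w) := by abel
      rw [h4]
      refine (norm_add_le _ _).trans ?_
      rw [s2]
      linarith only [hη, hw, d1]
    rw [chP, ih hi', chP]
    rw [h3 _ _ _ (by linarith only [hη, d1]) (by rw [s2]; linarith only [hη, hw]) d3 _ hm, h3 _ _ _ (by rw [s1]; linarith only [hη, hv]) (by linarith only [hη, d2]) d3 _ hm]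

/-- refinement of the subdivision -/
private theorem ch_ref (h1 : ∀ v w, ‖v - w‖ ≤ η → ∀ f ∈ H v, τ v w f ∈ H w) (h2 : ∀ v, ∀ f ∈ H v, τ v v f = f)
    (h3 : ∀ u v w, ‖u - v‖ ≤ η → ‖v - w‖ ≤ η → ‖u - w‖ ≤ η → ∀ f ∈ H u, τ v w (τ u v f) = τ u w f) {f : β} (hf : f ∈ H 0)
    {n m : ℕ} (hn : 0 < n) (hm : 0 < m) {v : V} (hv : ‖v‖ / n ≤ η) (i : ℕ) : chP τ f (n * m) v (i * m) = chP τ f n v i := by
  have hn0 : (0 : ℝ) < n := by exact_mod_cast hn
  have hm0 : (0 : ℝ) < m := by exact_mod_cast hm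
  have hnm : 0 < n * m := Nat.mul_pos hn hm
  have hv' : ‖v‖ / ((n * m : ℕ) : ℝ) ≤ η := by
    have h4 : ‖v‖ / ((n * m : ℕ) : ℝ) ≤ ‖v‖ / n := by
      refine div_le_div_of_nonneg_left (norm_nonneg _) hn0 ?_
      push_cast
      have h5 : (1 : ℝ) ≤ m := by exact_mod_cast hm
      nlinarith only [h5]
    exact h4.trans hv
  have hpt : ∀ j : ℕ, (((j * m : ℕ) : ℝ) / ((n * m : ℕ) : ℝ)) = (j : ℝ) / n := by
    intro j
    push_cast
    field_simp
  have key : ∀ i j : ℕ, j ≤ m → chP τ f (n * m) v (i * m + j)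
      = τ (((i : ℝ) / n) • v) ((((i * m + j : ℕ) : ℝ) / ((n * m : ℕ) : ℝ)) • v) (chP τ f (n * m) v (i * m)) := by
    intro i j
    have hmem := ch_mem h1 hf hnm hv' (i * m)
    rw [hpt] at hmem
    have hdist : ∀ j : ℕ, j ≤ m → ‖((i : ℝ) / n) • v - (((i * m + j : ℕ) : ℝ) / ((n * m : ℕ) : ℝ)) • v‖ ≤ η := by
      intro j hj
      rw [← sub_smul, norm_smul]
      have h4 : (i : ℝ) / n - ((i * m + j : ℕ) : ℝ) / ((n * m : ℕ) : ℝ) = -((j : ℝ) / (n * m)) := by
        push_cast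
        field_simp
        ring
      rw [h4, norm_neg, Real.norm_of_nonneg (by positivity)]
      have h5 : (j : ℝ) / (n * m) ≤ 1 / n := by
        rw [div_le_div_iff₀ (by positivity) hn0]
        have h6 : (j : ℝ) ≤ m := by exact_mod_cast hj
        nlinarith only [h6]
      calc (j : ℝ) / (n * m) * ‖v‖ ≤ 1 / n * ‖v‖ := mul_le_mul_of_nonneg_right h5 (norm_nonneg _)
        _ = ‖v‖ / n := by ring
        _ ≤ η := hv
    induction j with
    | zero =>
      intro _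
      have h4 := h2 _ _ hmem
      rw [add_zero, hpt]
      exact h4.symm
    | succ j ih =>
      intro hj
      have ih' := ih (by omega)
      have e1 : i * m + (j + 1) = (i * m + j) + 1 := by ring
      rw [e1, chP, ih']
      refine h3 _ _ _ (hdist j (by omega)) ?_ ?_ _ hmem
      · rw [ch_step hnm]
        exact hv'
      · have h4 := hdist (j + 1) hj
        rwa [e1] at h4
  induction i with
  | zero => simp [chP]
  | succ i ih =>
    have h4 := key i m le_rfl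
    have e1 : (i + 1) * m = i * m + m := by ring
    rw [e1, h4, ih, ← e1, hpt (i + 1), chP]

end chain

theorem chain_ext {V β : Type*} [NormedAddCommGroup V] [NormedSpace ℝ V] {H : V → Set β} {η : ℝ} (hη : 0 < η) {τ : V → V → β → β}
    (h1 : ∀ v w, ‖v - w‖ ≤ η → ∀ f ∈ H v, τ v w f ∈ H w) (h2 : ∀ v, ∀ f ∈ H v, τ v v f = f)
    (h3 : ∀ u v w, ‖u - v‖ ≤ η → ‖v - w‖ ≤ η → ‖u - w‖ ≤ η → ∀ f ∈ H u, τ v w (τ u v f) = τ u w f) {f : β} (hf : f ∈ H 0) :
    ∃ φ : V → β, φ 0 = f ∧ (∀ v, φ v ∈ H v) ∧ ∀ v w, ‖v - w‖ ≤ η / 3 → φ w = τ v w (φ v) := by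
  have hN : ∀ v : V, ∃ n : ℕ, 0 < n ∧ ‖v‖ / n ≤ η / 3 := by
    intro v
    obtain ⟨n, hn⟩ := exists_nat_gt (‖v‖ / (η / 3))
    have hn0 : (0 : ℝ) < n := lt_of_le_of_lt (by positivity) hn
    refine ⟨n, by exact_mod_cast hn0, ?_⟩
    rw [div_lt_iff₀ (by positivity)] at hn
    rw [div_le_iff₀ hn0]
    linarith only [hn]
  choose n hn hnv using hN
  have hQ : ∀ v : V, ∀ m : ℕ, 0 < m → ‖v‖ / m ≤ η / 3 → chP τ f m v m = chP τ f (n v) v (n v) := by
    intro v m hm hmv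
    have e1 := ch_ref h1 h2 h3 hf hm (hn v) (v := v) (by linarith only [hη, hmv]) m
    have e2 := ch_ref h1 h2 h3 hf (hn v) hm (v := v) (by linarith only [hη, hnv, hnv v]) (n v)
    rw [← e1, ← e2, mul_comm m (n v)]
  refine ⟨fun v => chP τ f (n v) v (n v), ?_, fun v => ?_, fun v w hvw => ?_⟩
  · have h4 : ∀ i, chP τ f (n 0) (0 : V) i = f := by
      intro i
      induction i with
      | zero => rfl
      | succ i ih =>
        rw [chP, ih, smul_zero, smul_zero]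
        exact h2 0 f hf
    exact h4 _
  · have h4 := ch_mem h1 hf (hn v) (v := v) (by linarith only [hη, hnv, hnv v]) (n v)
    have h5 : ((n v : ℝ) / n v) • v = v := by
      rw [div_self (by exact_mod_cast (hn v).ne'), one_smul]
    rwa [h5] at h4
  · have hnn : 0 < n v * n w := Nat.mul_pos (hn v) (hn w)
    have hv0 : (0 : ℝ) < n v := by exact_mod_cast hn v
    have hw0 : (0 : ℝ) < n w := by exact_mod_cast hn w
    have hv1 : (1 : ℝ) ≤ n v := by exact_mod_cast hn v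
    have hw1 : (1 : ℝ) ≤ n w := by exact_mod_cast hn w
    have hv : ‖v‖ / ((n v * n w : ℕ) : ℝ) ≤ η / 3 := by
      refine le_trans (div_le_div_of_nonneg_left (norm_nonneg _) hv0 ?_) (hnv v)
      push_cast
      nlinarith only [hw1]
    have hw : ‖w‖ / ((n v * n w : ℕ) : ℝ) ≤ η / 3 := by
      refine le_trans (div_le_div_of_nonneg_left (norm_nonneg _) hw0 ?_) (hnv w)
      push_cast
      nlinarith only [hv1]
    have h4 := ch_comp hη h1 h2 h3 hf hnn hv hw hvw (i := n v * n w) le_rfl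
    have h5 : (((n v * n w : ℕ) : ℝ) / ((n v * n w : ℕ) : ℝ)) = 1 := div_self (by exact_mod_cast hnn.ne')
    rw [h5, one_smul, one_smul, hQ w _ hnn hw, hQ v _ hnn hv] at h4
    exact h4

variable {N k : ℕ} {X : Set (EN N)} {Λ : AddSubgroup (Vd (k + 1))} {u : EN N → Vd (k + 1)} {D B Bad : Set (Vd (k + 1))} {a : Vd (k + 1)}

variable {J : ℕ} {α : Fin J → VForm X Λ u} {c₀ C₀ ρ δ : ℝ} {E : Submodule ℝ (Vd (k + 1))} {b : Vd (k + 1)}

theorem mem_tb (v : E) : b + (v : Vd (k + 1)) ∈ Tb b E := by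
  show b + (v : Vd (k + 1)) - b ∈ E
  rw [add_sub_cancel_left]
  exact v.2

theorem tb_add {y v : Vd (k + 1)} (hy : y ∈ Tb b E) (hv : v ∈ E) : y + v ∈ Tb b E := by
  show y + v - b ∈ E
  have h : y + v - b = (y - b) + v := by abel
  rw [h]
  exact E.add_mem hy hv

/-- the shift along the line -/
theorem sh_shift (hX : IsCone X) (ha : ‖a‖ = 1) (hE : ∀ z : ℂ, z • a ∈ E) {R θ η : ℝ} {τ : E → E → (ℂ → MN N) → ℂ → MN N} (hθ : 0 < θ)
    (hη : 0 < η)
    (t3 : ∀ v w : E, ‖v - w‖ ≤ η → ∀ f ∈ Hc X Λ u a (b + v), ∀ f' ∈ Hc X Λ u a (b + w),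
        (∀ z ∈ closedBall (0 : ℂ) R, b + v + z • a ∈ Gd D (3 / 4 * δ) → dist (f' z) (f z) ≤ 2 * θ) → f' = τ v w f)
    {ψ : E → ℂ → MN N} (p1 : ∀ v : E, ψ v ∈ Hc X Λ u a (b + v)) (p2 : ∀ v w : E, ‖v - w‖ ≤ η / 3 → ψ w = τ v w (ψ v)) (v : E) (z : ℂ) :
    ψ (v + ⟨z • a, hE z⟩) = fun w => ψ v (z + w) := by
  have hcont : Continuous (ψ v) := hc_cont hX (p1 v)
  have huc : UniformContinuousOn (ψ v) (closedBall (0 : ℂ) (R + ‖z‖)) :=
    (isCompact_closedBall _ _).uniformContinuousOn_of_continuous hcont.continuousOn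
  obtain ⟨ε, hε, hu⟩ := Metric.uniformContinuousOn_iff.1 huc θ hθ
  obtain ⟨n, hn⟩ := exists_nat_gt (max (‖z‖ / ε) (‖z‖ / (η / 3)))
  have hn1 : ‖z‖ / ε < n := (le_max_left _ _).trans_lt hn
  have hn2 : ‖z‖ / (η / 3) < n := (le_max_right _ _).trans_lt hn
  have hn0 : (0 : ℝ) < n := lt_of_le_of_lt (by positivity) hn1
  have hn0' : (n : ℂ) ≠ 0 := by
    have : (n : ℝ) ≠ 0 := hn0.ne'
    exact_mod_cast this
  rw [div_lt_iff₀ hε] at hn1
  rw [div_lt_iff₀ (by positivity)] at hn2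
  have hstep1 : ‖z‖ / n < ε := by
    rw [div_lt_iff₀ hn0]
    linarith only [hn1]
  have hstep2 : ‖z‖ / n ≤ η / 3 := by
    rw [div_le_iff₀ hn0]
    linarith only [hn2]
  -- the points of the subdivision
  have hz : ∀ i : ℕ, ‖((i : ℂ) / n * z) - (((i + 1 : ℕ) : ℂ) / n * z)‖ = ‖z‖ / n := by
    intro i
    have e : ((i : ℂ) / n * z) - (((i + 1 : ℕ) : ℂ) / n * z) = -(z / n) := by
      push_cast
      field_simp
      ring
    rw [e, norm_neg, norm_div, Complex.norm_natCast]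
  have hzi : ∀ i : ℕ, i ≤ n → ‖(i : ℂ) / n * z‖ ≤ ‖z‖ := by
    intro i hi
    rw [norm_mul, norm_div, Complex.norm_natCast, Complex.norm_natCast]
    have h4 : (i : ℝ) / n ≤ 1 := by
      rw [div_le_one hn0]
      exact_mod_cast hi
    exact mul_le_of_le_one_left (norm_nonneg _) h4
  have hG : ∀ z' : ℂ, (fun w => ψ v (z' + w)) ∈ Hc X Λ u a (b + ((v + ⟨z' • a, hE z'⟩ : E) : Vd (k + 1))) := by
    intro z'
    have h4 := hc_add (p1 v) z'
    rwa [add_assoc] at h4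
  have key : ∀ i : ℕ, i ≤ n → ψ (v + ⟨((i : ℂ) / n * z) • a, hE _⟩) = fun w => ψ v ((i : ℂ) / n * z + w) := by
    intro i
    induction i with
    | zero =>
      intro _
      have e : (⟨(((0 : ℕ) : ℂ) / n * z) • a, hE _⟩ : E) = 0 := by
        ext1
        simp
      rw [e, add_zero]
      funext w
      congr 1
      simp
    | succ i ih =>
      intro hi
      have ih' := ih (by omega)
      have hd : ‖(v + ⟨((i : ℂ) / n * z) • a, hE _⟩ : E) - (v + ⟨(((i + 1 : ℕ) : ℂ) / n * z) • a, hE _⟩)‖ = ‖z‖ / n := by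
        rw [add_sub_add_left_eq_sub, Submodule.coe_norm, Submodule.coe_sub]
        show ‖((i : ℂ) / n * z) • a - (((i + 1 : ℕ) : ℂ) / n * z) • a‖ = ‖z‖ / n
        rw [← sub_smul, norm_smul, ha, mul_one]
        exact hz i
      rw [p2 _ _ (by rw [hd]; exact hstep2), ih']
      symm
      refine t3 _ _ (by rw [hd]; linarith only [hη, hstep2]) _ (hG _) _ (hG _) fun w hw _ => ?_
      have hw' : ‖w‖ ≤ R := by
        rwa [mem_closedBall_zero_iff] at hw
      have h5 : dist (ψ v (((i + 1 : ℕ) : ℂ) / n * z + w)) (ψ v ((i : ℂ) / n * z + w)) < θ := by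
        refine hu _ ?_ _ ?_ ?_
        · rw [mem_closedBall_zero_iff]
          refine (norm_add_le _ _).trans ?_
          have := hzi (i + 1) hi
          linarith only [hw', this]
        · rw [mem_closedBall_zero_iff]
          refine (norm_add_le _ _).trans ?_
          have := hzi i (by omega)
          linarith only [hw', this]
        · rw [dist_comm, dist_eq_norm, add_sub_add_right_eq_sub, hz i]
          exact hstep1
      linarith only [hθ, h5]
  have h6 := key n le_rfl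
  have e : (n : ℂ) / n * z = z := by
    rw [div_self hn0', one_mul]
  rw [e] at h6
  exact h6

theorem sht_lm (S : DA X Λ u D B Bad a α c₀ C₀ ρ δ) (hE : CE X Λ u a b E) {φ : Vd (k + 1) → MN N} (hφ : Sht X Λ u D a (Tb b E) φ) {ι : Type*} {𝒰 : Ultrafilter ι} {y : ι → Vd (k + 1)}
    {y₀ : Vd (k + 1)} (hy : Tendsto y 𝒰 (𝓝 y₀)) (hyT : ∀ᶠ n in (𝒰 : Filter ι), y n ∈ Tb b E) (hy₀ : y₀ ∈ Tb b E) :
    Lm D a 𝒰 y₀ (fun n z => φ (y n + z • a)) fun z => φ (y₀ + z • a) := by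
  intro z hz w hw
  have h1 := hφ.cont (y₀ + z • a) (tb_add hy₀ (hE.mem z)) hz
  exact h1.tendsto.comp (tendsto_nhdsWithin_iff.2 ⟨hy.add (hw.smul_const a), hyT.mono fun n hn => tb_add hn (hE.mem (w n))⟩)

theorem sht_add {φ : Vd (k + 1) → MN N} (hφ : Sht X Λ u D a (Tb b E) φ) (hL : LG Λ D Bad a) {l : Vd (k + 1)} (hl : l ∈ Λ) (hlE : l ∈ E) :
    Sht X Λ u D a (Tb b E) fun y => φ (y + l) := by
  refine ⟨fun y hy => ?_, fun y hy hyD => ?_⟩
  · have h1 := hφ.line (y + l) (tb_add hy hlE)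
    rw [hc_per hl] at h1
    have h2 : (fun z : ℂ => φ (y + z • a + l)) = fun z => φ (y + l + z • a) := by
      funext z
      rw [add_right_comm]
    rw [h2]
    exact h1
  · have h1 : y + l ∉ D := by
      intro h2
      have h3 := hL.D_inv _ h2 (-l) (Λ.neg_mem hl)
      rw [add_neg_cancel_right] at h3
      exact hyD h3
    have h2 := hφ.cont (y + l) (tb_add hy hlE) h1
    have h3 : Tendsto (fun x : Vd (k + 1) => x + l) (𝓝 y) (𝓝 (y + l)) := (continuous_id.add continuous_const).tendsto y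
    exact h2.tendsto.comp (tendsto_nhdsWithin_iff.2 ⟨h3.mono_left nhdsWithin_le_nhds, eventually_mem_nhdsWithin.mono fun x hx => tb_add hx hlE⟩)

end Pool.Agent.G3.A

end
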