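import Pool.Agent.H94.G5T.M42

/-! The parts of this file: H13.CV.DedeB, H13.CV.NoPole. -/

section

/-!
# CV DedeB: a basis over `ℂ[x]`

By `regAff_iff_isIntegral` the functions `f` with `RegAff x f` form the integral closure `C` of `A = ℂ[x]` in `K`.  `A` is a principal ideal domain with fraction field `L`, `K` is a finite separable
extension of `L` (characteristic `0`), so `C` is a free `A`-module of rank `n = finrank L K` (`IsIntegralClosure.module_free A L K C`, `IsIntegralClosure.rank`), and a basis of `C` over `A` is a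
basis of `K` over `L` (`Module.Basis.localizationLocalization`, `Module.Basis.localizationLocalization_span` or a direct argument: denominators).  The coordinates of `f ∈ K` with respect to this
basis are in `A` if and only if `f ∈ C`.
Instances: `Algebra (Algebra.adjoin ℂ {x}) K` (subalgebra), `IsFractionRing (Algebra.adjoin ℂ {x}) (IntermediateField.adjoin ℂ {x})` is an instance in Mathlib
(`Mathlib/FieldTheory/IntermediateField/Adjoin/Algebra.lean`); start with `obtain rfl := hL.eq` (`subst`).
-/

set_option autoImplicit false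

open Pool.Agent.H23.Fano (PrimeDivisorOver Form regularForms)

noncomputable section

namespace Pool.Agent.H13.CV

attribute [-instance] Subalgebra.isScalarTower_left

variable {K : Type} [Field K] [Algebra ℂ K] {L : IntermediateField ℂ K} {x : K}

private theorem dedeB_pir (x : K) : IsPrincipalIdealRing (Algebra.adjoin ℂ {x}) := by
  let f : Polynomial ℂ →ₐ[ℂ] Algebra.adjoin ℂ {x} :=
    (Polynomial.aeval x).codRestrict (Algebra.adjoin ℂ {x}) (fun p => Polynomial.aeval_mem_adjoin_singleton ℂ x)
  have hf : Function.Surjective f := by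
    rintro ⟨c, hc⟩
    rw [Algebra.adjoin_singleton_eq_range_aeval] at hc
    obtain ⟨p, hp⟩ := hc
    exact ⟨p, Subtype.ext hp⟩
  exact IsPrincipalIdealRing.of_surjective f.toRingHom hf

open scoped IntermediateField.algebraAdjoinAdjoin nonZeroDivisors in
private theorem dedeB_aux (hL : Gen (IntermediateField.adjoin ℂ {x}) x) [FiniteDimensional (IntermediateField.adjoin ℂ {x}) K] :
    ∃ w : Module.Basis (Fin (Module.finrank (IntermediateField.adjoin ℂ {x}) K)) (IntermediateField.adjoin ℂ {x}) K, AffB x w := by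
  haveI hpir : IsPrincipalIdealRing (Algebra.adjoin ℂ {x}) := dedeB_pir x
  haveI hfree : Module.Free (Algebra.adjoin ℂ {x}) (integralClosure (Algebra.adjoin ℂ {x}) K) :=
    IsIntegralClosure.module_free (Algebra.adjoin ℂ {x}) (IntermediateField.adjoin ℂ {x}) K (integralClosure (Algebra.adjoin ℂ {x}) K)
  haveI hnoe : IsNoetherian (Algebra.adjoin ℂ {x}) (integralClosure (Algebra.adjoin ℂ {x}) K) :=
    IsIntegralClosure.isNoetherian (Algebra.adjoin ℂ {x}) (IntermediateField.adjoin ℂ {x}) K (integralClosure (Algebra.adjoin ℂ {x}) K)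
  have hrank := IsIntegralClosure.rank (Algebra.adjoin ℂ {x}) (IntermediateField.adjoin ℂ {x}) K (integralClosure (Algebra.adjoin ℂ {x}) K)
  haveI hloc : IsLocalization (Algebra.algebraMapSubmonoid (integralClosure (Algebra.adjoin ℂ {x}) K) (Algebra.adjoin ℂ {x})⁰) K :=
    IsIntegralClosure.isLocalization (Algebra.adjoin ℂ {x}) (IntermediateField.adjoin ℂ {x}) K (integralClosure (Algebra.adjoin ℂ {x}) K)
  let b : Module.Basis (Fin (Module.finrank (IntermediateField.adjoin ℂ {x}) K)) (Algebra.adjoin ℂ {x}) (integralClosure (Algebra.adjoin ℂ {x}) K) :=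
    Module.finBasisOfFinrankEq _ _ hrank
  refine ⟨b.localizationLocalization (IntermediateField.adjoin ℂ {x}) (Algebra.adjoin ℂ {x})⁰ K, fun f => ?_⟩
  rw [regAff_iff_isIntegral hL]
  constructor
  · intro hf i
    have h1 := b.localizationLocalization_repr_algebraMap (IntermediateField.adjoin ℂ {x}) (Algebra.adjoin ℂ {x})⁰ K
      (⟨f, hf⟩ : integralClosure (Algebra.adjoin ℂ {x}) K) i
    have h2 : algebraMap (integralClosure (Algebra.adjoin ℂ {x}) K) K ⟨f, hf⟩ = f := rfl
    rw [h2] at h1
    rw [h1]
    exact (b.repr ⟨f, hf⟩ i).2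
  · intro hf
    rw [← (b.localizationLocalization (IntermediateField.adjoin ℂ {x}) (Algebra.adjoin ℂ {x})⁰ K).sum_repr f]
    refine IsIntegral.sum _ fun i _ => ?_
    rw [Module.Basis.localizationLocalization_apply]
    have h3 : ((b.localizationLocalization (IntermediateField.adjoin ℂ {x}) (Algebra.adjoin ℂ {x})⁰ K).repr f i) •
        algebraMap (integralClosure (Algebra.adjoin ℂ {x}) K) K (b i) =
        algebraMap (Algebra.adjoin ℂ {x}) K ⟨_, hf i⟩ * algebraMap (integralClosure (Algebra.adjoin ℂ {x}) K) K (b i) := by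
      rw [Algebra.smul_def]
      rfl
    rw [h3]
    exact isIntegral_algebraMap.mul (b i).2

theorem exists_affB (hL : Gen L x) [FiniteDimensional L K] : ∃ w : Module.Basis (Fin (Module.finrank L K)) L K, AffB x w := by
  obtain rfl := hL.eq
  exact dedeB_aux hL

end Pool.Agent.H13.CV

end
end

section

/-!
# CV NoPole: existence of places, functions without poles

`exists_place_over`: let `L = ℂ(x)` (`Gen L x`), finite-dimensional by `hK.fin`, and `w` a basis as in `exists_affB`.  Suppose that `0 < E.ord x` for no place.  Then `RegAff x (x⁻¹)`, as `0 ≤ ord x` implies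
`ord x = 0`, and `ord x⁻¹ = 0`.  `K ≠ 0` so `n = finrank L K > 0`; take `i : Fin n`.  `w i` has coordinates `0, 1` in `ℂ[x]`, so `RegAff x (w i)`; so `RegAff x (x⁻¹ * w i)`.  Its `i`-th
coordinate is `x⁻¹` (as an element of `L`), so `x⁻¹ = p (x)` with a polynomial `p`, `x * p (x) - 1 = 0`: contradiction to the transcendence of `x` (`X * p - 1 ≠ 0`: evaluate at `0`).
`const_of_no_pole`: if `f` is not a constant then it is transcendental, so `f⁻¹` is transcendental, and there is a place with `0 < ord f⁻¹`.
-/

set_option autoImplicit false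

open Pool.Agent.H23.Fano (PrimeDivisorOver Form regularForms)

noncomputable section

namespace Pool.Agent.H13.CV

variable {K : Type} [Field K] [Algebra ℂ K]

theorem exists_place_over (hK : CurveField K) {x : K} (hx : Transcendental ℂ x) : ∃ E : Place K, 0 < E.ord x := by
  by_contra hcon
  have hcon' : ∀ E : Place K, ¬ 0 < E.ord x := fun E hE => hcon ⟨E, hE⟩
  have hx0 : x ≠ 0 := by
    rintro rfl
    exact hx isAlgebraic_zero
  have hL : Gen (IntermediateField.adjoin ℂ {x}) x := ⟨hx, rfl⟩
  have := hK.fin x hx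
  obtain ⟨w, hw⟩ := exists_affB hL
  have hn : 0 < Module.finrank (IntermediateField.adjoin ℂ {x}) K := Module.finrank_pos
  obtain ⟨i⟩ : Nonempty (Fin (Module.finrank (IntermediateField.adjoin ℂ {x}) K)) := ⟨⟨0, hn⟩⟩
  have h1 : RegAff x x⁻¹ := by
    intro E hE
    have h0 : E.ord x = 0 := le_antisymm (not_lt.1 (hcon' E)) hE
    have h2 : oz E x = 0 := by
      rw [oz, h0]
      rfl
    rw [ord_inv E hx0, h2, neg_zero]
    exact le_refl _
  have h2 : RegAff x (w i) := by
    rw [hw]
    intro j
    rw [w.repr_self]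
    by_cases hij : i = j
    · subst hij
      rw [Finsupp.single_eq_same]
      exact one_mem _
    · rw [Finsupp.single_eq_of_ne (Ne.symm hij)]
      exact zero_mem _
  have h3 : RegAff x (x⁻¹ * w i) := fun E hE => nonneg_mul (h1 E hE) (h2 E hE)
  have hxm : x⁻¹ ∈ IntermediateField.adjoin ℂ {x} := inv_mem hL.mem
  have h4 := (hw _).1 h3 i
  have h5 : x⁻¹ * w i = (⟨x⁻¹, hxm⟩ : IntermediateField.adjoin ℂ {x}) • w i := rfl
  rw [h5, map_smul, w.repr_self, Finsupp.smul_single, smul_eq_mul, mul_one, Finsupp.single_eq_same] at h4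
  rw [Algebra.adjoin_singleton_eq_range_aeval] at h4
  obtain ⟨p, hp⟩ := h4
  have h6 : Polynomial.aeval x (Polynomial.X * p - 1) = 0 := by
    have hp' : Polynomial.aeval x p = x⁻¹ := hp
    rw [map_sub, map_mul, Polynomial.aeval_X, hp', mul_inv_cancel₀ hx0, map_one, sub_self]
  have h7 : Polynomial.X * p - 1 = 0 := by
    by_contra h
    exact hx ⟨_, h, h6⟩
  have h8 := congrArg (Polynomial.eval 0) h7
  simp at h8

theorem exists_place_inf (hK : CurveField K) {x : K} (hx : Transcendental ℂ x) : ∃ E : Place K, E.ord x < 0 := by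
  have hx0 : x ≠ 0 := by
    rintro rfl
    exact hx isAlgebraic_zero
  have hi : Transcendental ℂ x⁻¹ := fun h => hx (by simpa using h.inv)
  obtain ⟨E, hE⟩ := exists_place_over hK hi
  exact ⟨E, (inv_pos_iff hx0).1 hE⟩

theorem const_of_no_pole (hK : CurveField K) {f : K} (h : ∀ E : Place K, 0 ≤ E.ord f) : ∃ c : ℂ, f = algebraMap ℂ K c := by
  by_contra hcon
  obtain ⟨E, hE⟩ := exists_place_inf hK (transcendental_of_not_const fun c hc => hcon ⟨c, hc⟩)
  exact absurd (h E) (not_le.2 hE)

/-- a function without poles with a zero is zero -/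
theorem zero_of_no_pole (hK : CurveField K) {f : K} (h : ∀ E : Place K, 0 ≤ E.ord f) (hz : ∃ E : Place K, 0 < E.ord f) : f = 0 := by
  obtain ⟨c, rfl⟩ := const_of_no_pole hK h
  obtain ⟨E, hE⟩ := hz
  by_cases hc : c = 0
  · rw [hc, map_zero]
  · rw [ord_const E hc] at hE
    exact absurd hE (lt_irrefl _)

end Pool.Agent.H13.CV

end
end
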