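import Pool.Agent.H94.G5T.M14
import Pool.Agent.H94.G5T.M18
import Pool.Agent.H94.G5T.M44
import Pool.Agent.H94.G5T.M56
import Pool.Agent.H94.G5T.M82

/-! The parts of this file: H13.CV.Loc, G3.A.P1. -/

section

/-!
# CV Loc: bases over the local ring

`AffB.sub_const`: `0 ≤ ord (x - a) ↔ 0 ≤ ord x` and `Algebra.adjoin ℂ {x - a} = Algebra.adjoin ℂ {x}`.
`AffB.locB`: (⇐) `w i` is `RegAff x` (its coordinates are `0` and `1`), so `RegLoc x`; `f = ∑ (w.repr f i) * w i`.  (⇒) Let `RegLoc x f`.  The places with `0 ≤ ord x`, `ord f < 0` are finitely many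
(`finite_poles`), say `E₁, …, E_k`; the value `a_j` of `x` at `E_j` (`exists_value`) is not `0` (otherwise `0 < ord x` and `f` is regular).  Let `q = ∏ (X - a_j) ^ m` with `m ≥ - oz E_j f` for all
`j`; `q.eval 0 ≠ 0`, and `q (x) * f` is `RegAff x` (at `E_j` the factor `(x - a_j) ^ m` has order `≥ m`, the other factors are regular).  So its coordinates `q (x) * (w.repr f i)` are
in `ℂ[x]`, and `w.repr f i = p_i (x) / q (x)` is `RegLoc x` (`regLoc_div`).
-/

set_option autoImplicit false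

open Pool.Agent.H23.Fano (PrimeDivisorOver Form regularForms)

noncomputable section

namespace Pool.Agent.H13.CV

variable {K : Type} [Field K] [Algebra ℂ K] {L : IntermediateField ℂ K} {x : K} {n : ℕ}

theorem loc_repr (w : Module.Basis (Fin n) L K) (i j : Fin n) : (w.repr (w i) j : L) = 0 ∨ (w.repr (w i) j : L) = 1 := by
  classical
  rw [w.repr_self, Finsupp.single_apply]
  split_ifs
  · exact Or.inr rfl
  · exact Or.inl rfl

theorem AffB.basis_regAff {w : Module.Basis (Fin n) L K} (hw : AffB x w) (i : Fin n) : RegAff x (w i) := by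
  refine (hw (w i)).2 fun j => ?_
  rcases loc_repr w i j with h | h
  · rw [h]
    exact zero_mem _
  · rw [h]
    exact one_mem _

theorem AffB.sub_const (hL : Gen L x) {w : Module.Basis (Fin n) L K} (hw : AffB x w) (a : ℂ) : AffB (x - algebraMap ℂ K a) w := by
  have h1 : Algebra.adjoin ℂ {x - algebraMap ℂ K a} = Algebra.adjoin ℂ {x} := by
    apply le_antisymm
    · rw [Algebra.adjoin_le_iff, Set.singleton_subset_iff]
      exact sub_mem (Algebra.self_mem_adjoin_singleton ℂ x) (Subalgebra.algebraMap_mem _ a)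
    · rw [Algebra.adjoin_le_iff, Set.singleton_subset_iff]
      have h2 : x - algebraMap ℂ K a + algebraMap ℂ K a ∈ Algebra.adjoin ℂ {x - algebraMap ℂ K a} :=
        add_mem (Algebra.self_mem_adjoin_singleton ℂ _) (Subalgebra.algebraMap_mem _ a)
      rw [sub_add_cancel] at h2
      exact h2
  have h3 : ∀ E : Place K, 0 ≤ E.ord (x - algebraMap ℂ K a) ↔ 0 ≤ E.ord x := by
    intro E
    constructor
    · intro h
      have h4 := nonneg_add h (const_nonneg E a)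
      rw [sub_add_cancel] at h4
      exact h4
    · exact fun h => nonneg_sub h (const_nonneg E a)
  intro f
  rw [h1, ← hw f]
  unfold RegAff
  simp only [h3]

theorem AffB.locB (hK : CurveField K) (hL : Gen L x) {w : Module.Basis (Fin n) L K} (hw : AffB x w) : LocB x w := by
  classical
  intro f
  constructor
  · intro hf i
    have hfin := finite_poles hK f
    set T : Finset (Place K) := hfin.toFinset.filter (fun E => 0 ≤ E.ord x) with hT
    have hTm : ∀ E : Place K, E ∈ T ↔ E.ord f < 0 ∧ 0 ≤ E.ord x := by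
      intro E
      rw [hT, Finset.mem_filter, Set.Finite.mem_toFinset, Set.mem_ofPred_eq]
    have hne : ∀ E ∈ T, res E x ≠ 0 := by
      intro E hE h0
      obtain ⟨h1, h2⟩ := (hTm E).1 hE
      have h3 := res_spec hK h2
      rw [h0, map_zero, sub_zero] at h3
      exact absurd (hf E h3) (not_le.mpr h1)
    set m : ℕ := ∑ E ∈ T, (-oz E f).toNat with hm
    have hmE : ∀ E ∈ T, 0 ≤ (m : ℤ) + oz E f := by
      intro E hE
      have h1 : (-oz E f).toNat ≤ m := Finset.single_le_sum (f := fun E => (-oz E f).toNat) (fun _ _ => Nat.zero_le _) hE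
      have h2 : -oz E f ≤ ((-oz E f).toNat : ℤ) := Int.self_le_toNat _
      have h3 : ((-oz E f).toNat : ℤ) ≤ m := by exact_mod_cast h1
      linarith
    set q : Polynomial ℂ := ∏ E ∈ T, (Polynomial.X - Polynomial.C (res E x)) ^ m with hq
    have hq0 : q.eval 0 ≠ 0 := by
      rw [hq, Polynomial.eval_prod]
      refine Finset.prod_ne_zero_iff.2 fun E hE => ?_
      rw [Polynomial.eval_pow, Polynomial.eval_sub, Polynomial.eval_X, Polynomial.eval_C, zero_sub]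
      exact pow_ne_zero _ (neg_ne_zero.2 (hne E hE))
    have hqne : q ≠ 0 := by
      intro h
      rw [h, Polynomial.eval_zero] at hq0
      exact hq0 rfl
    have hqx : Polynomial.aeval x q ≠ 0 := by
      intro h
      exact hL.tr ⟨q, hqne, h⟩
    have hreg : RegAff x (Polynomial.aeval x q * f) := by
      intro E hE
      by_cases hfE : 0 ≤ E.ord f
      · exact nonneg_mul (nonneg_aeval hE q) hfE
      · rw [not_le] at hfE
        have hET : E ∈ T := (hTm E).2 ⟨hfE, hE⟩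
        have h1 : q = (Polynomial.X - Polynomial.C (res E x)) ^ m *
            ∏ E' ∈ T.erase E, (Polynomial.X - Polynomial.C (res E' x)) ^ m := by
          rw [hq]
          exact (Finset.mul_prod_erase T (fun E' => (Polynomial.X - Polynomial.C (res E' x)) ^ m) hET).symm
        have h2 : Polynomial.aeval x q * f =
            Polynomial.aeval x (∏ E' ∈ T.erase E, (Polynomial.X - Polynomial.C (res E' x)) ^ m) *
              ((x - algebraMap ℂ K (res E x)) ^ m * f) := by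
          rw [h1, map_mul, map_pow, map_sub, Polynomial.aeval_X, Polynomial.aeval_C]
          ring
        rw [h2]
        refine nonneg_mul (nonneg_aeval hE _) ?_
        have hf0 : f ≠ 0 := by
          rintro rfl
          rw [E.ord.map_zero] at hfE
          exact absurd hfE not_top_lt
        have hx0 : x - algebraMap ℂ K (res E x) ≠ 0 := by
          intro h
          refine hL.tr ⟨Polynomial.X - Polynomial.C (res E x), Polynomial.X_sub_C_ne_zero _, ?_⟩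
          rw [map_sub, Polynomial.aeval_X, Polynomial.aeval_C]
          exact h
        have h3 : 1 ≤ oz E (x - algebraMap ℂ K (res E x)) := by
          rcases pos_iff.1 (res_spec hK hE) with h4 | h4
          · exact absurd h4 hx0
          · omega
        refine nonneg_iff.2 (Or.inr ?_)
        rw [oz_mul E (pow_ne_zero _ hx0) hf0, oz_pow]
        have h5 := hmE E hET
        nlinarith
    have hmem := (hw _).1 hreg i
    have hqL : Polynomial.aeval x q ∈ L := poly_le_L hL (mem_poly_iff.2 ⟨q, rfl⟩)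
    have h6 : Polynomial.aeval x q * f = (⟨Polynomial.aeval x q, hqL⟩ : L) • f := rfl
    rw [h6, map_smul, Finsupp.smul_apply, smul_eq_mul] at hmem
    obtain ⟨p, hp⟩ := mem_poly_iff.1 hmem
    have h7 : (((⟨Polynomial.aeval x q, hqL⟩ : L) * w.repr f i : L) : K) = Polynomial.aeval x q * ((w.repr f i : L) : K) := rfl
    rw [h7] at hp
    have h8 : ((w.repr f i : L) : K) = Polynomial.aeval x p / Polynomial.aeval x q := by
      rw [eq_div_iff hqx, mul_comm]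
      exact hp
    rw [h8]
    exact regLoc_div hq0
  · intro h E hE
    have h1 : f = ∑ i, ((w.repr f i : L) : K) * w i := by
      conv_lhs => rw [← w.sum_repr f]
      exact Finset.sum_congr rfl fun i _ => rfl
    rw [h1]
    exact nonneg_sum fun i _ => nonneg_mul (h i E hE) (hw.basis_regAff i E hE.le)

theorem exists_locB (hK : CurveField K) (hL : Gen L x) [FiniteDimensional L K] :
    ∃ w : Module.Basis (Fin (Module.finrank L K)) L K, LocB x w := by
  obtain ⟨w, hw⟩ := exists_affB hL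
  exact ⟨w, hw.locB hK hL⟩

theorem LocB.basis_regLoc {w : Module.Basis (Fin n) L K} (hw : LocB x w) (i : Fin n) : RegLoc x (w i) := by
  refine (hw (w i)).2 fun j E _ => ?_
  rcases loc_repr w i j with h | h
  · rw [h]
    have h1 := E.ord.map_zero
    show 0 ≤ E.ord ((0 : L) : K)
    rw [ZeroMemClass.coe_zero, h1]
    exact le_top
  · rw [h]
    show 0 ≤ E.ord ((1 : L) : K)
    rw [OneMemClass.coe_one, E.ord.map_one]

end Pool.Agent.H13.CV

end
end

section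

/-!
# G3 A P1: limits of curves over lines

Lifts `F n` of `f n` on `ball z₀ 2`, `‖F n‖ ≤ 1` (`NL`).  Ultrafilter limits `F` (`A/Ul.ul_diff`), holomorphic, `‖F z‖ ≥ c` at the points `z` with `‖z - z₀‖ < 1`, `y₀ + z a ∈ interior` of `Gd D δ`,
so `F` is not identically `0` (`LG.iso`), `F z ∈ X` and `u (F z) - (y₀ + z a) ∈ Λ` where `F z ≠ 0` (`TG.lim_mem`).  Divide by the power of `z - z₁` at a zero: a curve with values `≠ 0`, in `X`
(`X ∪ {0}` closed), over the right line (closedness of `X`, `TG.lim_mem` again or `G3/C/XU.xu_local`).  So there is `g` with local lifts everywhere (`g z` is determined off `D` as the limit of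
`f n (w n)`, and at the other points by the local lifts, which agree up to scalars); an entire lift: as in `TG/Lf` (`disc_lift`) or from `G3/P/Ext`, `G3/P/Ent` (glue of local lifts on `ℂ`).
-/

set_option autoImplicit false

open Topology Filter Metric

namespace Pool.Agent.G3.A

open Pool.Agent.H36.BP (EN fs wd)
open Pool.Agent.H14.PP (IsCone CurveAt Tan)
open Pool.Agent.H62.EF (MN pr pr_smul continuousAt_pr)
open Pool.Agent.AD (Vd Chart Charts IsGerm)
open Pool.Agent.TG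
open Pool.Agent.G3.C (Gc)

variable {N k : ℕ} {X : Set (EN N)} {Λ : AddSubgroup (Vd (k + 1))} {u : EN N → Vd (k + 1)} {D B Bad : Set (Vd (k + 1))} {a : Vd (k + 1)}

/-- the limit of the normalised lifts -/
private theorem p1_a (G : Geo X Λ u D B) (hN : NL X Λ u D a) {ι : Type*} {𝒰 : Ultrafilter ι} {y : ι → Vd (k + 1)} {y₀ : Vd (k + 1)}
    (hy : Tendsto y 𝒰 (𝓝 y₀)) {f : ι → ℂ → MN N} (hf : ∀ᶠ n in (𝒰 : Filter ι), f n ∈ Hc X Λ u a (y n)) (z₀ z₁ : ℂ) (hz₁ : z₁ ∈ closedBall z₀ 1)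
    (hD : y₀ + z₁ • a ∉ D) :
    ∃ K : ℂ → EN N, DifferentiableOn ℂ K (ball z₀ 2) ∧ K z₁ ≠ 0 ∧ ∀ z ∈ ball z₀ 2, K z ≠ 0 → K z ∈ X ∧ u (K z) - (y₀ + z • a) ∈ Λ ∧
      ∀ w : ι → ℂ, Tendsto w 𝒰 (𝓝 z) → Tendsto (fun n => f n (w n)) 𝒰 (𝓝 (pr (K z))) := by
  classical
  have hX := G.cone
  obtain ⟨δ, hδ, hgd⟩ := G.exists_gd hD
  obtain ⟨c, hc, hNc⟩ := hN (δ / 2) (by positivity)
  have hex : ∀ n, ∃ F : ℂ → EN N, f n ∈ Hc X Λ u a (y n) → DifferentiableOn ℂ F (ball z₀ 2) ∧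
      (∀ z ∈ ball z₀ 2, F z ∈ X ∧ f n z = pr (F z) ∧ ‖F z‖ ≤ 1) ∧ ∀ z ∈ closedBall z₀ 1, y n + z • a ∈ Gd D (δ / 2) → c ≤ ‖F z‖ := by
    intro n
    by_cases h : f n ∈ Hc X Λ u a (y n)
    · obtain ⟨F, hF⟩ := hNc _ _ h z₀
      exact ⟨F, fun _ => hF⟩
    · exact ⟨0, fun h' => absurd h' h⟩
  choose F hF using hex
  obtain ⟨K, hKd, -, hK⟩ := ul_diff (𝒰 := 𝒰) (g := F) (z₀ := z₀) (r := 2) (C := 1) (by
    filter_upwards [hf] with n hn
    exact ⟨(hF n hn).1, fun z hz => ((hF n hn).2.1 z hz).2.2⟩)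
  have hz₁b : z₁ ∈ ball z₀ 2 := closedBall_subset_ball (by norm_num) hz₁
  refine ⟨K, hKd, ?_, ?_⟩
  · have h1 := (hK z₁ hz₁b (fun _ => z₁) tendsto_const_nhds).norm
    have h2 : c ≤ ‖K z₁‖ := by
      refine ge_of_tendsto h1 ?_
      have h3 : ∀ᶠ n in (𝒰 : Filter ι), y n ∈ closedBall y₀ (δ / 2) := hy.eventually (closedBall_mem_nhds y₀ (by positivity))
      filter_upwards [hf, h3] with n hn hn'
      refine (hF n hn).2.2 z₁ hz₁ ?_
      have h4 : ‖y n + z₁ • a - (y₀ + z₁ • a)‖ ≤ δ / 2 := by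
        rw [add_sub_add_right_eq_sub, ← dist_eq_norm]
        exact hn'
      have h5 := gd_near hgd h4
      have h6 : δ - δ / 2 = δ / 2 := by ring
      rwa [h6] at h5
    exact norm_pos_iff.1 (lt_of_lt_of_le hc h2)
  · intro z hz hKz
    have hin : ∀ w : ι → ℂ, Tendsto w 𝒰 (𝓝 z) → ∀ᶠ n in (𝒰 : Filter ι), w n ∈ ball z₀ 2 := fun w hw =>
      hw.eventually (isOpen_ball.mem_nhds hz)
    have h0 := hK z hz (fun _ => z) tendsto_const_nhds
    have hXu : ∀ᶠ n in (𝒰 : Filter ι), F n z ∈ X ∧ u (F n z) - (y n + z • a) ∈ Λ := by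
      filter_upwards [hf] with n hn
      have h1 := (hF n hn).2.1 z hz
      exact ⟨h1.1, fb_lift hX G.tor (hc_mem hn z) h1.1 h1.2.1.symm⟩
    have hKX : K z ∈ X := by
      have h1 : K z ∈ insert (0 : EN N) X := by
        refine hX.closed.mem_of_tendsto h0 ?_
        filter_upwards [hXu] with n hn
        exact Set.mem_insert_of_mem _ hn.1
      exact h1.resolve_left hKz
    refine ⟨hKX, lim_mem G.lat G.tor hKX h0 (hy.add tendsto_const_nhds) hXu, fun w hw => ?_⟩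
    have h1 : Tendsto (fun n => pr (F n (w n))) 𝒰 (𝓝 (pr (K z))) := (continuousAt_pr hKz).tendsto.comp (hK z hz w hw)
    refine h1.congr' ?_
    filter_upwards [hf, hin w hw] with n hn hn'
    exact (((hF n hn).2.1 _ hn').2.1).symm

/-- the local lifts of the limit -/
private theorem p1_b (G : Geo X Λ u D B) (hL : LG Λ D Bad a) (hN : NL X Λ u D a) {ι : Type*} {𝒰 : Ultrafilter ι} {y : ι → Vd (k + 1)} {y₀ : Vd (k + 1)}
    (hy : Tendsto y 𝒰 (𝓝 y₀)) {f : ι → ℂ → MN N} (hf : ∀ᶠ n in (𝒰 : Filter ι), f n ∈ Hc X Λ u a (y n)) (z₀ : ℂ) :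
    ∃ Φ : ℂ → EN N, AnalyticAt ℂ Φ z₀ ∧ Φ z₀ ∈ X ∧ u (Φ z₀) - (y₀ + z₀ • a) ∈ Λ ∧ ∀ᶠ v in 𝓝[≠] z₀, Tendsto (fun n => f n v) 𝒰 (𝓝 (pr (Φ v))) := by
  have hX := G.cone
  obtain ⟨z₁, hz₁, hD⟩ : ∃ z₁ ∈ closedBall z₀ 1, y₀ + z₁ • a ∉ D := by
    have h1 := hL.iso (y₀ + z₀ • a)
    have h2 : ∀ᶠ z : ℂ in 𝓝[≠] (0 : ℂ), z ∈ closedBall (0 : ℂ) 1 := nhdsWithin_le_nhds (closedBall_mem_nhds 0 one_pos)
    obtain ⟨z, h3, h4⟩ := (h1.and h2).exists
    refine ⟨z₀ + z, ?_, ?_⟩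
    · rw [mem_closedBall, dist_eq_norm, add_sub_cancel_left]
      rwa [mem_closedBall_zero_iff] at h4
    · rwa [add_smul, ← add_assoc]
  obtain ⟨K, hKd, hK1, hK⟩ := p1_a G hN hy hf z₀ z₁ hz₁ hD
  have hb : z₀ ∈ ball z₀ (2 : ℝ) := mem_ball_self two_pos
  have hKa : AnalyticOnNhd ℂ K (ball z₀ 2) := hKd.analyticOnNhd isOpen_ball
  have hne : ¬ ∀ᶠ z in 𝓝 z₀, K z = 0 := fun h =>
    hK1 (hKa.eqOn_zero_of_preconnected_of_eventuallyEq_zero (convex_ball z₀ 2).isPreconnected hb h (closedBall_subset_ball (by norm_num) hz₁))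
  obtain ⟨m, Φ, hΦ, hΦ0, hKΦ⟩ := (hKa z₀ hb).exists_eventuallyEq_pow_smul_nonzero_iff.2 hne
  have hev : ∀ᶠ v in 𝓝[≠] z₀, Φ v ≠ 0 ∧ K v ≠ 0 ∧ v ∈ ball z₀ 2 ∧ pr (Φ v) = pr (K v) := by
    have h1 : ∀ᶠ v in 𝓝[≠] z₀, Φ v ≠ 0 := (hΦ.continuousAt.eventually_ne hΦ0).filter_mono nhdsWithin_le_nhds
    have h2 : ∀ᶠ v in 𝓝[≠] z₀, v ∈ ball z₀ (2 : ℝ) := nhdsWithin_le_nhds (isOpen_ball.mem_nhds hb)
    filter_upwards [h1, h2, hKΦ.filter_mono nhdsWithin_le_nhds, self_mem_nhdsWithin] with v h3 h4 h5 h6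
    have h7 : (v - z₀) ^ m ≠ 0 := pow_ne_zero _ (sub_ne_zero.2 h6)
    refine ⟨h3, ?_, h4, ?_⟩
    · rw [h5]
      exact smul_ne_zero h7 h3
    · rw [h5, pr_smul _ h7]
  have hev2 : ∀ᶠ v in 𝓝[≠] z₀, (Φ v ∈ X ∧ u (Φ v) - (y₀ + v • a) ∈ Λ) ∧ Tendsto (fun n => f n v) 𝒰 (𝓝 (pr (Φ v))) := by
    filter_upwards [hev] with v hv
    obtain ⟨h1, h2, h3, h4⟩ := hv
    obtain ⟨h5, h6, h7⟩ := hK v h3 h2
    refine ⟨mem_of_pr hX G.tor h5 h6 h1 h4, ?_⟩
    rw [h4]
    exact h7 (fun _ => v) tendsto_const_nhds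
  have hcl := close_lift (υ := fun v : ℂ => y₀ + v • a) hX G.tor G.lat hΦ.continuousAt hΦ0 (by fun_prop)
    ((hev2.mono fun v hv => hv.1).frequently.filter_mono nhdsWithin_le_nhds)
  exact ⟨Φ, hΦ, hcl.1, hcl.2, hev2.mono fun v hv => hv.2⟩

private theorem p1_eq {Φ Ψ : ℂ → EN N} {w : ℂ} (hΦ : AnalyticAt ℂ Φ w) (hΨ : AnalyticAt ℂ Ψ w) (hΦ0 : Φ w ≠ 0) (hΨ0 : Ψ w ≠ 0)
    (h : ∀ᶠ v in 𝓝[≠] w, pr (Φ v) = pr (Ψ v)) : pr (Φ w) = pr (Ψ w) := by
  have t1 : Tendsto (fun v => pr (Φ v)) (𝓝[≠] w) (𝓝 (pr (Φ w))) :=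
    ((continuousAt_pr hΦ0).tendsto.comp hΦ.continuousAt.tendsto).mono_left nhdsWithin_le_nhds
  have t2 : Tendsto (fun v => pr (Ψ v)) (𝓝[≠] w) (𝓝 (pr (Ψ w))) :=
    ((continuousAt_pr hΨ0).tendsto.comp hΨ.continuousAt.tendsto).mono_left nhdsWithin_le_nhds
  exact tendsto_nhds_unique (t1.congr' h) t2

theorem hc_closed (G : Geo X Λ u D B) (hL : LG Λ D Bad a) (hN : NL X Λ u D a) {ι : Type*} {𝒰 : Ultrafilter ι} {y : ι → Vd (k + 1)} {y₀ : Vd (k + 1)}
    (hy : Tendsto y 𝒰 (𝓝 y₀)) {f : ι → ℂ → MN N} (hf : ∀ᶠ n in (𝒰 : Filter ι), f n ∈ Hc X Λ u a (y n)) : ∃ g ∈ Hc X Λ u a y₀, Lm D a 𝒰 y₀ f g := by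
  have hX := G.cone
  choose Φ hΦ hΦX hΦu hΦl using fun z₀ => p1_b G hL hN hy hf z₀
  have hΦ0 : ∀ z, Φ z z ≠ 0 := fun z => ne_zero hX (hΦX z)
  obtain ⟨g, hg⟩ : ∃ g : ℂ → MN N, ∀ z, g z = pr (Φ z z) := ⟨_, fun _ => rfl⟩
  have hloc : ∀ z, LLift g z := by
    intro z₀
    refine ⟨Φ z₀, hΦ z₀, ?_⟩
    have h1 : ∀ᶠ w in 𝓝[≠] z₀, g w = pr (Φ z₀ w) := by
      have h2 := eventually_nhdsNE_eventually_nhds_iff.2 (hΦl z₀)
      have h3 : ∀ᶠ w in 𝓝[≠] z₀, AnalyticAt ℂ (Φ z₀) w ∧ Φ z₀ w ≠ 0 :=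
        ((hΦ z₀).eventually_analyticAt.and ((hΦ z₀).continuousAt.eventually_ne (hΦ0 z₀))).filter_mono nhdsWithin_le_nhds
      filter_upwards [h2, h3] with w hw hw'
      rw [hg]
      refine p1_eq (hΦ w) hw'.1 (hΦ0 w) hw'.2 ?_
      filter_upwards [hΦl w, hw.filter_mono nhdsWithin_le_nhds] with v h4 h5
      exact tendsto_nhds_unique h4 h5
    have h2 : ∀ᶠ w in 𝓝 z₀, w ≠ z₀ → g w = pr (Φ z₀ w) := eventually_nhdsWithin_iff.1 h1
    filter_upwards [h2, (hΦ z₀).continuousAt.eventually_ne (hΦ0 z₀)] with w h3 h4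
    refine ⟨h4, ?_⟩
    rcases eq_or_ne w z₀ with rfl | h5
    · exact hg w
    · exact h3 h5
  obtain ⟨F, hF, hFg⟩ := entire_lift hloc
  have hFX : ∀ z, F z ∈ X ∧ u (F z) - (y₀ + z • a) ∈ Λ := fun z =>
    mem_of_pr hX G.tor (hΦX z) (hΦu z) (hFg z).1 ((hFg z).2.symm.trans (hg z))
  refine ⟨g, ⟨F, ⟨hF, fun z => (hFX z).1, fun z => (hFX z).2⟩, funext fun z => (hFg z).2⟩, ?_⟩
  intro z hzD w hw
  obtain ⟨K, hKd, hK1, hK⟩ := p1_a G hN hy hf z z (mem_closedBall_self zero_le_one) hzD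
  have hb : z ∈ ball z (2 : ℝ) := mem_ball_self two_pos
  have hKa : AnalyticAt ℂ K z := hKd.analyticAt (isOpen_ball.mem_nhds hb)
  have h1 : pr (K z) = g z := by
    rw [hg]
    refine p1_eq hKa (hΦ z) hK1 (hΦ0 z) ?_
    have h2 : ∀ᶠ v in 𝓝[≠] z, v ∈ ball z (2 : ℝ) ∧ K v ≠ 0 :=
      (Filter.Eventually.and (isOpen_ball.mem_nhds hb) (hKa.continuousAt.eventually_ne hK1)).filter_mono nhdsWithin_le_nhds
    filter_upwards [h2, hΦl z] with v h3 h4
    exact tendsto_nhds_unique ((hK v h3.1 h3.2).2.2 (fun _ => v) tendsto_const_nhds) h4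
  rw [← h1]
  exact (hK z hb hK1).2.2 w hw

end Pool.Agent.G3.A

end
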