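import Pool.Agent.H94.G5T.M83
import Pool.Agent.H94.G5T.M84
import Pool.Agent.H94.G5T.M85

/-! The parts of this file: H13.CV.BirkB, H13.CV.BirkC, H13.CV.Deg, H13.CV.CaseA. -/

section

/-!
# CV BirkB: a basis with minimal pole orders at infinity

`exists_bound`: the places with `ord x < 0` are finitely many (`finite_over` for `x⁻¹`, `Gen.inv`); `a ≥ - oz E f` for all of them.
`exists_min`: for every basis `w` with `AffB x w` (one exists: `exists_affB`) let `a i` be the least `a : ℕ` with `RegLoc x⁻¹ ((x⁻¹) ^ a * w i)` (`Nat.find`, `exists_bound`); choose `w` with `∑ a i`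
minimal (`Nat.find` or well-foundedness).  Claim: if `∑ i, γ i • ((x⁻¹) ^ a i * w i) = x⁻¹ * g` with `RegLoc x⁻¹ g`, `γ i : ℂ`, then all `γ i = 0`.  Suppose not; let `i₀` with `γ i₀ ≠ 0` and `a i₀`
maximal among the `a i` with `γ i ≠ 0`.  Let `c i = γ i • x ^ (a i₀ - a i)` if `γ i ≠ 0`, and `0` otherwise; `c i₀ = γ i₀`.  Multiplying by `x ^ a i₀`: `w₀' = ∑ c i * w i = x ^ (a i₀) * x⁻¹ * g`.
`AffB.replace` gives a basis `w'` with `w' i₀ = w₀'`.  If `1 ≤ a i₀` then `(x⁻¹) ^ (a i₀ - 1) * w₀' = g` is `RegLoc x⁻¹`, so the sum for `w'` is smaller: contradiction.  If `a i₀ = 0`, then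
`w₀' = x⁻¹ * g` is regular over `x = ∞`, with positive order there, and it is `RegAff x` (`AffB.basis_regAff` for `w'`); so it has no poles, and it has a zero at a place over `x = ∞` (`exists_place_inf`), so
`w₀' = 0` (`zero_of_no_pole`): contradiction, as it is an element of a basis.
-/

set_option autoImplicit false

open Pool.Agent.H23.Fano (PrimeDivisorOver Form regularForms)

noncomputable section

namespace Pool.Agent.H13.CV

variable {K : Type} [Field K] [Algebra ℂ K] {L : IntermediateField ℂ K} {x : K} {n : ℕ}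

theorem exists_bound (hL : Gen L x) [FiniteDimensional L K] (f : K) : ∃ a : ℕ, RegLoc x⁻¹ ((x⁻¹) ^ a * f) := by
  classical
  have hx := hL.ne_zero
  have hfin := finite_over (Gen.inv hL)
  rcases eq_or_ne f 0 with rfl | hf
  · refine ⟨0, fun E _ => ?_⟩
    rw [mul_zero, E.ord.map_zero]
    exact le_top
  refine ⟨∑ E ∈ hfin.toFinset, (-oz E f).toNat, fun E hE => ?_⟩
  rw [nonneg_iff]
  right
  rw [oz_mul E (pow_ne_zero _ (inv_ne_zero hx)) hf, oz_pow]
  have h1 : 0 < oz E x⁻¹ := by
    rcases pos_iff.mp hE with h | h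
    · exact absurd h (inv_ne_zero hx)
    · exact h
  have h2 : (-oz E f).toNat ≤ ∑ E ∈ hfin.toFinset, (-oz E f).toNat :=
    Finset.single_le_sum (f := fun E => (-oz E f).toNat) (fun _ _ => Nat.zero_le _) (hfin.mem_toFinset.mpr hE)
  have h3 : -oz E f ≤ ((∑ E ∈ hfin.toFinset, (-oz E f).toNat : ℕ) : ℤ) :=
    (Int.self_le_toNat _).trans (by exact_mod_cast h2)
  have h4 : (0 : ℤ) ≤ ((∑ E ∈ hfin.toFinset, (-oz E f).toNat : ℕ) : ℤ) := Int.natCast_nonneg _
  generalize ((∑ E ∈ hfin.toFinset, (-oz E f).toNat : ℕ) : ℤ) = s at h3 h4 ⊢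
  nlinarith

theorem exists_min (hK : CurveField K) (hL : Gen L x) [FiniteDimensional L K] :
    ∃ (w : Module.Basis (Fin (Module.finrank L K)) L K) (a : Fin (Module.finrank L K) → ℕ), AffB x w ∧ (∀ i, RegLoc x⁻¹ ((x⁻¹) ^ a i * w i)) ∧
      ∀ (γ : Fin (Module.finrank L K) → ℂ) (g : K), RegLoc x⁻¹ g → ∑ i, γ i • ((x⁻¹) ^ a i * w i) = x⁻¹ * g → ∀ i, γ i = 0 := by
  classical
  have hx := hL.ne_zero
  have hP : ∃ s : ℕ, ∃ (w : Module.Basis (Fin (Module.finrank L K)) L K) (a : Fin (Module.finrank L K) → ℕ),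
      AffB x w ∧ (∀ i, RegLoc x⁻¹ ((x⁻¹) ^ a i * w i)) ∧ ∑ i, a i = s := by
    obtain ⟨w, hw⟩ := exists_affB hL
    choose a ha using fun i => exists_bound hL (w i)
    exact ⟨_, w, a, hw, ha, rfl⟩
  obtain ⟨w, a, hw, ha, hs⟩ := Nat.find_spec hP
  have hmin : ∀ (w' : Module.Basis (Fin (Module.finrank L K)) L K) (a' : Fin (Module.finrank L K) → ℕ), AffB x w' →
      (∀ i, RegLoc x⁻¹ ((x⁻¹) ^ a' i * w' i)) → ∑ i, a i ≤ ∑ i, a' i := by
    intro w' a' h1 h2
    rw [hs]
    exact Nat.find_min' hP ⟨w', a', h1, h2, rfl⟩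
  refine ⟨w, a, hw, ha, fun γ g hg hsum => ?_⟩
  by_contra hcon
  push Not at hcon
  obtain ⟨i₁, hi₁⟩ := hcon
  obtain ⟨i₀, hi₀, hmax⟩ := Finset.exists_max_image (Finset.univ.filter fun i => γ i ≠ 0) a
    ⟨i₁, Finset.mem_filter.mpr ⟨Finset.mem_univ _, hi₁⟩⟩
  have hγ : γ i₀ ≠ 0 := (Finset.mem_filter.mp hi₀).2
  have hmax' : ∀ i, γ i ≠ 0 → a i ≤ a i₀ := fun i hi => hmax i (Finset.mem_filter.mpr ⟨Finset.mem_univ _, hi⟩)
  have hxm : x ∈ Algebra.adjoin ℂ {x} := Algebra.subset_adjoin rfl
  obtain ⟨w', hw', hw0, hwi⟩ := AffB.replace hL hw i₀ (fun i => γ i • x ^ (a i₀ - a i))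
    (fun i => Subalgebra.smul_mem _ (Subalgebra.pow_mem _ hxm _) _) hγ
    (by simp [Algebra.smul_def])
  have hkey : w' i₀ = x ^ (a i₀) * (x⁻¹ * g) := by
    rw [hw0, ← hsum, Finset.mul_sum]
    refine Finset.sum_congr rfl fun i _ => ?_
    rcases eq_or_ne (γ i) 0 with h | h
    · simp [h]
    · have h1 : x ^ (a i₀ - a i) = x ^ a i₀ * (x⁻¹) ^ a i := by
        rw [inv_pow, pow_sub₀ x hx (hmax' i h)]
      rw [h1]
      simp only [Algebra.smul_def]
      ring
  rcases Nat.eq_zero_or_pos (a i₀) with h0 | h0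
  · -- no poles and a zero
    rw [h0, pow_zero, one_mul] at hkey
    have h1 : ∀ E : Place K, 0 ≤ E.ord (w' i₀) := by
      intro E
      rcases le_or_gt 0 (E.ord x) with h | h
      · exact hw'.basis_regAff i₀ E h
      · rw [hkey]
        have h2 : 0 < E.ord x⁻¹ := (inv_pos_iff hx).mpr h
        exact (pos_mul h2 (hg E h2)).le
    obtain ⟨E, hE⟩ := exists_place_inf hK hL.tr
    have h2 : 0 < E.ord x⁻¹ := (inv_pos_iff hx).mpr hE
    have h3 : w' i₀ = 0 := zero_of_no_pole hK h1 ⟨E, by rw [hkey]; exact pos_mul h2 (hg E h2)⟩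
    exact w'.ne_zero i₀ h3
  · have h1 := hmin w' (Function.update a i₀ (a i₀ - 1)) hw' (fun i => by
      rcases eq_or_ne i i₀ with rfl | hi
      · rw [Function.update_self, hkey]
        have h2 : (x⁻¹) ^ (a i - 1) * (x ^ a i * (x⁻¹ * g)) = g := by
          obtain ⟨k, hk⟩ : ∃ k, a i = k + 1 := ⟨a i - 1, by omega⟩
          rw [hk, Nat.add_sub_cancel, pow_succ]
          have h3 : (x⁻¹) ^ k * x ^ k = 1 := by rw [inv_pow]; exact inv_mul_cancel₀ (pow_ne_zero _ hx)
          calc (x⁻¹) ^ k * (x ^ k * x * (x⁻¹ * g)) = ((x⁻¹) ^ k * x ^ k) * (x * x⁻¹) * g := by ring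
            _ = g := by rw [h3, mul_inv_cancel₀ hx, one_mul, one_mul]
        rw [h2]
        exact hg
      · rw [Function.update_of_ne hi, hwi i hi]
        exact ha i)
    have h2 : ∑ i, Function.update a i₀ (a i₀ - 1) i < ∑ i, a i := by
      refine Finset.sum_lt_sum (fun i _ => ?_) ⟨i₀, Finset.mem_univ _, ?_⟩
      · rcases eq_or_ne i i₀ with rfl | hi
        · rw [Function.update_self]
          omega
        · rw [Function.update_of_ne hi]
      · rw [Function.update_self]
        omega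
    omega

end Pool.Agent.H13.CV

end
end

section

/-!
# CV BirkC: Birkhoff bases

`exists_birk`: `w, a` as in `exists_min`; claim: `Birk x w a`.  Let `y = x⁻¹` (`Gen L y`, there is a place over `y = 0`).  (⇐ of `inf`) `f = ∑ (x ^ a i * r i) * (y ^ a i * w i)`, `r i = w.repr f i`.
(⇒ of `inf`) Let `RegLoc y f`, `s i = x ^ a i * r i ∈ L`, `f = ∑ s i * (y ^ a i * w i)`.  By `exists_zpow` (for `y`): for the `s i ≠ 0`: `oz E (s i) = k i * oz E y` for all `E` over `y = 0`.
Suppose that not all `s i` are `RegLoc y`; so some `k i < 0`; let `k₀ < 0` be the least of the `k i` (`s i ≠ 0`).  `s' i = y ^ (-k₀) * s i` is `RegLoc y` for all `i`, in `L`, and for an `i₁` with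
`k i₁ = k₀` it has order `0` at the places over `y = 0`.  `∑ s' i * (y ^ a i * w i) = y ^ (-k₀) * f = y * (y ^ (-k₀ - 1) * f)`.  By `exists_residue`: `s' i = γ i + y * s'' i`, with `RegLoc y (s'' i)`; so
`∑ γ i • (y ^ a i * w i) = y * g` with `g = y ^ (-k₀ - 1) * f - ∑ s'' i * (y ^ a i * w i)`, `RegLoc y g`.  So all `γ i = 0` by `exists_min`; but `s' i₁ = y * s'' i₁` has positive order at a place over `y = 0`:
contradiction.

`Birk.exists_zero`: `1 = ∑ r i * w i` is `RegAff x` and `RegLoc x⁻¹`, so `r i ∈ ℂ[x]` and `RegLoc x⁻¹ (x ^ a i * r i)`; by `poly_inf`, `r i = 0` if `1 ≤ a i`; as `1 ≠ 0` there is `i₀` with `a i₀ = 0`.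
If `a i = 0` then `w i` is `RegAff x` and (its coordinates are `0` and `1`) `RegLoc x⁻¹`; so it has no poles and is a constant.  Two different elements of the basis are not both constants (linearly
independent over `L ∋` constants).
`Birk.pole`: `(x⁻¹) ^ a i * w i` is `RegLoc x⁻¹`: its `i`-th coordinate times `x ^ a i` is `1`.
-/

set_option autoImplicit false

open Pool.Agent.H23.Fano (PrimeDivisorOver Form regularForms)

noncomputable section

namespace Pool.Agent.H13.CV

variable {K : Type} [Field K] [Algebra ℂ K] {L : IntermediateField ℂ K} {x : K} {n : ℕ}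

private theorem BC_sum (w : Module.Basis (Fin n) L K) (f : K) : f = ∑ i, ((w.repr f i : L) : K) * w i := by
  conv_lhs => rw [← w.sum_repr f]
  rfl

private theorem BC_zero (y : K) : RegLoc y (0 : K) := fun E _ => by
  rw [E.ord.map_zero]
  exact le_top

private theorem BC_one (y : K) : RegLoc y (1 : K) := fun E _ => by
  rw [E.ord.map_one]

private theorem BC_mul {y f g : K} (hf : RegLoc y f) (hg : RegLoc y g) : RegLoc y (f * g) :=
  fun E hE => nonneg_mul (hf E hE) (hg E hE)

private theorem BC_pow (y : K) (k : ℕ) : RegLoc y (y ^ k) := fun _ hE => nonneg_pow hE.le k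

private theorem BC_step (hL : Gen L x) (hex : ∃ E : Place K, 0 < E.ord x⁻¹) {b : Fin n → K}
    (hb : ∀ i, RegLoc x⁻¹ (b i))
    (hmin : ∀ (γ : Fin n → ℂ) (g : K), RegLoc x⁻¹ g → ∑ i, γ i • b i = x⁻¹ * g → ∀ i, γ i = 0) (m : ℕ) :
    ∀ s : Fin n → K, (∀ i, s i ∈ L) → (∀ i, RegLoc x⁻¹ ((x⁻¹) ^ m * s i)) → RegLoc x⁻¹ (∑ i, s i * b i) →
      ∀ i, RegLoc x⁻¹ (s i) := by
  have hx : x⁻¹ ≠ 0 := inv_ne_zero hL.ne_zero
  have hxL : x⁻¹ ∈ L := L.inv_mem hL.mem
  induction m with
  | zero =>
    intro s _ h _ i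
    simpa using h i
  | succ m ih =>
    intro s hsL hs hF
    refine ih s hsL (fun i => ?_) hF
    have hres := fun i => exists_residue hL.inv hex (L.mul_mem (pow_mem hxL (m + 1)) (hsL i)) (hs i)
    choose γ s' hs'L hs' heq using hres
    have h1 : ∑ i, γ i • b i = x⁻¹ * ((x⁻¹) ^ m * (∑ i, s i * b i) - ∑ i, s' i * b i) := by
      have h2 : ∑ i, γ i • b i = ∑ i, ((x⁻¹) ^ (m + 1) * s i - x⁻¹ * s' i) * b i := by
        refine Finset.sum_congr rfl fun i _ => ?_
        rw [heq i, Algebra.smul_def]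
        ring
      rw [h2, mul_sub, Finset.mul_sum, Finset.mul_sum, Finset.mul_sum, ← Finset.sum_sub_distrib]
      refine Finset.sum_congr rfl fun i _ => ?_
      ring
    have h3 := hmin γ _ (fun E hE => nonneg_sub (nonneg_mul (nonneg_pow hE.le m) (hF E hE))
      (nonneg_sum fun i _ => nonneg_mul (hs' i E hE) (hb i E hE))) h1 i
    have h4 : (x⁻¹) ^ m * s i = s' i := by
      have h5 := heq i
      rw [h3, map_zero, zero_add] at h5
      refine mul_left_cancel₀ hx ?_
      rw [← h5]
      ring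
    rw [h4]
    exact hs' i

theorem exists_birk (hK : CurveField K) (hL : Gen L x) [FiniteDimensional L K] :
    ∃ (w : Module.Basis (Fin (Module.finrank L K)) L K) (a : Fin (Module.finrank L K) → ℕ), Birk x w a := by
  obtain ⟨w, a, hA, hreg, hmin⟩ := exists_min hK hL
  refine ⟨w, a, hA, fun f => ?_⟩
  have hx0 : x ≠ 0 := hL.ne_zero
  have hsum : f = ∑ i, (x ^ a i * ((w.repr f i : L) : K)) * ((x⁻¹) ^ a i * w i) := by
    conv_lhs => rw [BC_sum w f]
    refine Finset.sum_congr rfl fun i _ => ?_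
    have h1 : x ^ a i * (x⁻¹) ^ a i = 1 := by rw [← mul_pow, mul_inv_cancel₀ hx0, one_pow]
    calc ((w.repr f i : L) : K) * w i = (x ^ a i * (x⁻¹) ^ a i) * (((w.repr f i : L) : K) * w i) := by
          rw [h1, one_mul]
      _ = _ := by ring
  constructor
  · intro hf
    have hL' : ∀ i, x ^ a i * ((w.repr f i : L) : K) ∈ L := fun i =>
      L.mul_mem (pow_mem hL.mem _) (w.repr f i).2
    have hb := fun i => exists_bound hL (x ^ a i * ((w.repr f i : L) : K))
    choose m hm using hb
    refine BC_step hL (exists_place_over hK hL.inv.tr) hreg hmin (Finset.univ.sup m) _ hL' (fun i => ?_) ?_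
    · have h1 : m i ≤ Finset.univ.sup m := Finset.le_sup (Finset.mem_univ i)
      have h2 := BC_mul (BC_pow x⁻¹ (Finset.univ.sup m - m i)) (hm i)
      rwa [← mul_assoc, ← pow_add, Nat.sub_add_cancel h1] at h2
    · rw [← hsum]
      exact hf
  · intro h E hE
    rw [hsum]
    exact nonneg_sum fun i _ => nonneg_mul (h i E hE) (hreg i E hE)

private theorem BC_pole (hL : Gen L x) {w : Module.Basis (Fin n) L K} {a : Fin n → ℕ} (hw : Birk x w a)
    (i : Fin n) : RegLoc x⁻¹ ((x⁻¹) ^ a i * w i) := by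
  have hx0 : x ≠ 0 := hL.ne_zero
  have hxL : x⁻¹ ∈ L := L.inv_mem hL.mem
  refine (hw.inf _).2 fun j => ?_
  have h1 : (x⁻¹) ^ a i * w i = (⟨x⁻¹, hxL⟩ ^ a i : L) • w i := rfl
  rw [h1, map_smul, w.repr_self, Finsupp.smul_apply, Finsupp.single_apply]
  by_cases hij : i = j
  · subst hij
    rw [if_pos rfl, smul_eq_mul, mul_one]
    have h2 : x ^ a i * (((⟨x⁻¹, hxL⟩ ^ a i : L)) : K) = 1 := by
      show x ^ a i * (x⁻¹) ^ a i = 1
      rw [← mul_pow, mul_inv_cancel₀ hx0, one_pow]
    rw [h2]
    exact BC_one _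
  · rw [if_neg hij, smul_zero]
    have h2 : x ^ a j * ((0 : L) : K) = 0 := by
      rw [ZeroMemClass.coe_zero, mul_zero]
    rw [h2]
    exact BC_zero _

theorem Birk.exists_zero (hK : CurveField K) (hL : Gen L x) {w : Module.Basis (Fin n) L K} {a : Fin n → ℕ} (hw : Birk x w a) :
    ∃ i₀, a i₀ = 0 ∧ ∀ i, i ≠ i₀ → 1 ≤ a i := by
  have hinf := exists_place_inf hK hL.tr
  have h1 : ∃ i₀, a i₀ = 0 := by
    by_contra hcon
    push Not at hcon
    have haff := (hw.aff 1).1 fun E _ => by rw [E.ord.map_one]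
    have hloc := (hw.inf 1).1 (BC_one _)
    have h2 : (1 : K) = 0 := by
      rw [BC_sum w 1]
      refine Finset.sum_eq_zero fun i _ => ?_
      rw [(poly_inf hL hinf (haff i) (hloc i)).1 (Nat.one_le_iff_ne_zero.2 (hcon i)), zero_mul]
    exact one_ne_zero h2
  obtain ⟨i₀, hi₀⟩ := h1
  have hconst : ∀ j, a j = 0 → ∃ c : ℂ, w j = algebraMap ℂ K c := by
    intro j hj
    refine const_of_no_pole hK fun E => ?_
    rcases lt_or_ge (E.ord x) 0 with h | h
    · have h2 := BC_pole hL hw j E ((inv_pos_iff hL.ne_zero).2 h)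
      rwa [hj, pow_zero, one_mul] at h2
    · exact hw.aff.basis_regAff j E h
  refine ⟨i₀, hi₀, fun i hi => ?_⟩
  rw [Nat.one_le_iff_ne_zero]
  intro hai
  obtain ⟨c₀, hc₀⟩ := hconst i₀ hi₀
  obtain ⟨c, hc⟩ := hconst i hai
  have h3 : (algebraMap ℂ L c₀) • w i = (algebraMap ℂ L c) • w i₀ := by
    rw [hc, hc₀]
    show algebraMap ℂ K c₀ * algebraMap ℂ K c = algebraMap ℂ K c * algebraMap ℂ K c₀
    ring
  have h4 := congrArg (fun v => w.repr v i) h3
  simp only [map_smul, w.repr_self, Finsupp.smul_apply, Finsupp.single_apply, if_neg hi.symm,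
    if_true, smul_eq_mul, mul_one, mul_zero] at h4
  have h5 : c₀ = 0 := by
    by_contra hne
    exact hne ((algebraMap ℂ L).injective (by rw [h4, map_zero]))
  rw [h5, map_zero] at hc₀
  exact w.ne_zero i₀ hc₀

theorem Birk.pole (hL : Gen L x) {w : Module.Basis (Fin n) L K} {a : Fin n → ℕ} (hw : Birk x w a) (i : Fin n) : RegLoc x⁻¹ ((x⁻¹) ^ a i * w i) :=
  BC_pole hL hw i

end Pool.Agent.H13.CV

end
end

section

/-!
# CV Deg: the degree of the divisor `x = 0`

`≤`: `sum_le`.  `≥`: let `w` be a basis as in `exists_locB`, `W` the span of the `w i` over `ℂ`: it has dimension `n = finrank L K` (the `w i` are linearly independent over `L`, so over `ℂ`: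
`LinearIndependent.restrict_scalars`), and `W ≤ ordGe E 0` for the places over `x = 0`.  `finrank_le_steps` with `d = 0`, `e E = (oz E x).toNat`: it suffices that `W ⊓ ⨅ E ∈ T, ordGe E (oz E x)` is zero.  Let
`f = ∑ γ i • w i` be in it.  Then `RegLoc x (f / x)`, and its coordinates are `γ i / x`; so `0 ≤ ord (γ i / x)` at the places over `x = 0`; there is one (`exists_place_over`), and if `γ i ≠ 0` then
`ord (γ i / x) = - ord x < 0`.  So all `γ i = 0`.
`degree_inf`: `degree_eq` for `x⁻¹` (`Gen.inv`).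
`adjoin_eq_top_of_simple_pole`: `f` is transcendental (`tr_of_oz_ne`); `degree_inf` for `x = f`, `L = ℂ(f)`, `T = {E}`: `finrank L K = 1`, so `L = ⊤`.
`adjoin_eq_top_of_double_pole`: `finrank ℂ(u) K = 2` (`degree_inf`).  The elements `c ≠ 0` of `ℂ(u)` have even order at `E` (`exists_zpow` for `x = u⁻¹`: `oz E c = k * 2`), so `v ∉ ℂ(u)`.
`ℂ(u) < ℂ(u, v) ≤ K` and `finrank ℂ(u) K = 2`, so `ℂ(u, v) = K` (`1, v` are linearly independent over `ℂ(u)`, so they are a basis of `K` over `ℂ(u)`; or multiplicativity of degrees).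
-/

set_option autoImplicit false

open Pool.Agent.H23.Fano (PrimeDivisorOver Form regularForms)

noncomputable section

namespace Pool.Agent.H13.CV

variable {K : Type} [Field K] [Algebra ℂ K] {L : IntermediateField ℂ K} {x : K}

theorem degree_eq (hK : CurveField K) (hL : Gen L x) [FiniteDimensional L K] (T : Finset (Place K)) (hT : ∀ E, E ∈ T ↔ 0 < E.ord x) :
    ∑ E ∈ T, oz E x = (Module.finrank L K : ℤ) := by
  classical
  have hx0 : x ≠ 0 := hL.ne_zero
  apply le_antisymm (sum_le hL T (fun E hE => (hT E).1 hE))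
  obtain ⟨w, hw⟩ := exists_locB hK hL
  have hinj : Function.Injective (fun r : ℂ => r • (1 : L)) := by
    intro a b hab
    have h1 : algebraMap ℂ L a = algebraMap ℂ L b := by
      simpa [Algebra.algebraMap_eq_smul_one] using hab
    exact (algebraMap ℂ L).injective h1
  have hli : LinearIndependent ℂ (w : Fin (Module.finrank L K) → K) := w.linearIndependent.restrict_scalars hinj
  have hWdim : Module.finrank ℂ (Submodule.span ℂ (Set.range w)) = Module.finrank L K := by
    rw [finrank_span_eq_card hli, Fintype.card_fin]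
  have : FiniteDimensional ℂ (Submodule.span ℂ (Set.range w)) := FiniteDimensional.span_of_finite ℂ (Set.finite_range w)
  have hW0 : ∀ E ∈ T, Submodule.span ℂ (Set.range w) ≤ ordGe E 0 := by
    intro E hE
    rw [Submodule.span_le]
    rintro _ ⟨i, rfl⟩
    exact hw.basis_regLoc i E ((hT E).1 hE)
  have hpos : ∀ E ∈ T, 0 < oz E x := by
    intro E hE
    rcases pos_iff.1 ((hT E).1 hE) with h | h
    · exact absurd h hx0
    · exact h
  have h1 := finrank_le_steps hK (Submodule.span ℂ (Set.range w)) T (fun _ => 0) (fun E => (oz E x).toNat) hW0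
  have hbot : (Submodule.span ℂ (Set.range w) ⊓ ⨅ E ∈ T, ordGe E ((0 : ℤ) + ((oz E x).toNat : ℤ)) : Submodule ℂ K) = ⊥ := by
    rw [eq_bot_iff]
    intro f hf
    obtain ⟨hf1, hf2⟩ := Submodule.mem_inf.1 hf
    obtain ⟨γ, hγ⟩ := (Submodule.mem_span_range_iff_exists_fun ℂ).1 hf1
    have hf3 : ∀ E ∈ T, ((oz E x : ℤ) : WithTop ℤ) ≤ E.ord f := by
      intro E hE
      have h2 := (Submodule.mem_iInf _).1 hf2 E
      have h3 := (Submodule.mem_iInf _).1 h2 hE
      rw [mem_ordGe, zero_add, Int.toNat_of_nonneg (hpos E hE).le] at h3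
      exact h3
    have hreg : RegLoc x (f / x) := by
      intro E hE
      by_cases hf0 : f = 0
      · rw [hf0, zero_div, E.ord.map_zero]
        exact le_top
      · have h4 := hf3 E ((hT E).2 hE)
        rw [le_ord_iff] at h4
        rcases h4 with h4 | h4
        · exact absurd h4 hf0
        · rw [nonneg_iff]
          right
          rw [oz_div E hf0 hx0]
          omega
    let xi : L := ⟨x, hL.mem⟩
    have hcoord : w.repr (f / x) = Finsupp.equivFunOnFinite.symm (fun i => xi⁻¹ * algebraMap ℂ L (γ i)) := by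
      have h5 : f / x = ∑ i, (xi⁻¹ * algebraMap ℂ L (γ i)) • w i := by
        rw [← hγ, Finset.sum_div]
        refine Finset.sum_congr rfl fun i _ => ?_
        rw [Algebra.smul_def, Algebra.smul_def]
        have h6 : algebraMap L K (xi⁻¹ * algebraMap ℂ L (γ i)) = x⁻¹ * algebraMap ℂ K (γ i) := by
          rw [map_mul, map_inv₀]
          rfl
        rw [h6]
        field_simp
      rw [h5]
      ext i
      rw [w.repr_sum_self]
      rfl
    have hall : ∀ i, γ i = 0 := by
      intro i
      by_contra hne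
      obtain ⟨E, hE⟩ := exists_place_over hK hL.tr
      have h7 := (hw (f / x)).1 hreg i E hE
      rw [hcoord] at h7
      have h8 : ((Finsupp.equivFunOnFinite.symm (fun i => xi⁻¹ * algebraMap ℂ L (γ i)) i : L) : K) = algebraMap ℂ K (γ i) / x := by
        show (((xi⁻¹ * algebraMap ℂ L (γ i) : L)) : K) = _
        have h9 : (((xi⁻¹ * algebraMap ℂ L (γ i) : L)) : K) = x⁻¹ * algebraMap ℂ K (γ i) := rfl
        rw [h9]
        field_simp
      rw [h8] at h7
      have hc0 : algebraMap ℂ K (γ i) ≠ 0 := by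
        intro h
        exact hne ((map_eq_zero _).1 h)
      have hp := hpos E ((hT E).2 hE)
      rcases nonneg_iff.1 h7 with h10 | h10
      · rw [div_eq_zero_iff] at h10
        rcases h10 with h10 | h10
        · exact hc0 h10
        · exact hx0 h10
      · rw [oz_div E hc0 hx0, oz_const] at h10
        omega
    rw [Submodule.mem_bot, ← hγ]
    refine Finset.sum_eq_zero fun i _ => ?_
    rw [hall i, zero_smul]
  have h11 : Module.finrank L K ≤ ∑ E ∈ T, (oz E x).toNat := by
    rw [hbot, finrank_bot, zero_add, hWdim] at h1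
    exact h1
  have h13 : ∑ E ∈ T, oz E x = ((∑ E ∈ T, (oz E x).toNat : ℕ) : ℤ) := by
    rw [Nat.cast_sum]
    refine Finset.sum_congr rfl fun E hE => ?_
    rw [Int.toNat_of_nonneg (hpos E hE).le]
  rw [h13]
  exact_mod_cast h11

theorem degree_inf (hK : CurveField K) (hL : Gen L x) [FiniteDimensional L K] (T : Finset (Place K)) (hT : ∀ E, E ∈ T ↔ E.ord x < 0) :
    ∑ E ∈ T, -oz E x = (Module.finrank L K : ℤ) := by
  have h := degree_eq hK hL.inv T (fun E => by rw [hT, inv_pos_iff hL.ne_zero])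
  rw [← h]
  exact Finset.sum_congr rfl fun E _ => (oz_inv E x).symm

/-- a function whose only pole is a simple pole generates the field -/
theorem adjoin_eq_top_of_simple_pole (hK : CurveField K) {f : K} {E : Place K} (hE : oz E f = -1) (h : ∀ E' : Place K, E' ≠ E → 0 ≤ E'.ord f) :
    IntermediateField.adjoin ℂ {f} = ⊤ := by
  classical
  have htr : Transcendental ℂ f := tr_of_oz_ne (E := E) (by omega)
  have := hK.fin f htr
  have hG : Gen (IntermediateField.adjoin ℂ {f}) f := ⟨htr, rfl⟩
  have h1 := degree_inf hK hG {E} (fun E' => by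
    rw [Finset.mem_singleton]
    constructor
    · rintro rfl
      rw [neg_iff]
      omega
    · intro h2
      by_contra hne
      exact absurd (h E' hne) (not_le.2 h2))
  rw [Finset.sum_singleton, hE] at h1
  rw [← IntermediateField.finrank_eq_one_iff_eq_top]
  omega

/-- a function `u` with a double pole at `E` and no other poles, and a function `v` with odd order at `E`, generate the field -/
theorem adjoin_eq_top_of_double_pole (hK : CurveField K) {u v : K} {E : Place K} (hE : oz E u = -2) (h : ∀ E' : Place K, E' ≠ E → 0 ≤ E'.ord u) (hv : Odd (oz E v)) :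
    v ∉ IntermediateField.adjoin ℂ {u} ∧ IntermediateField.adjoin ℂ {u, v} = ⊤ := by
  classical
  have htr : Transcendental ℂ u := tr_of_oz_ne (E := E) (by omega)
  have := hK.fin u htr
  have hG : Gen (IntermediateField.adjoin ℂ {u}) u := ⟨htr, rfl⟩
  have hneg : E.ord u < 0 := by
    rw [neg_iff]
    omega
  have h1 := degree_inf hK hG {E} (fun E' => by
    rw [Finset.mem_singleton]
    constructor
    · rintro rfl
      exact hneg
    · intro h2
      by_contra hne
      exact absurd (h E' hne) (not_le.2 h2))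
  rw [Finset.sum_singleton, hE] at h1
  have hv0 : v ≠ 0 := by
    rintro rfl
    rw [oz_zero] at hv
    exact absurd hv (by decide)
  have hvL : v ∉ IntermediateField.adjoin ℂ {u} := by
    intro hmem
    obtain ⟨k, hk⟩ := exists_zpow hG.inv hmem hv0
    have h2 := hk E ((inv_pos_iff hG.ne_zero).2 hneg)
    rw [oz_inv, hE] at h2
    rw [h2] at hv
    obtain ⟨m, hm⟩ := hv
    omega
  refine ⟨hvL, ?_⟩
  have hli : LinearIndependent (IntermediateField.adjoin ℂ {u}) ![(1 : K), v] := by
    rw [LinearIndependent.pair_iff]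
    intro s t hst
    have ht : t = 0 := by
      by_contra ht
      apply hvL
      have h3 : v = ((-s / t : IntermediateField.adjoin ℂ {u}) : K) := by
        have ht' : (t : K) ≠ 0 := by
          intro h4
          exact ht (Subtype.ext h4)
        have h5 : (s : K) + (t : K) * v = 0 := by
          have h6 := hst
          rw [Algebra.smul_def, Algebra.smul_def, mul_one] at h6
          exact h6
        have h7 : ((-s / t : IntermediateField.adjoin ℂ {u}) : K) = -(s : K) / (t : K) := rfl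
        rw [h7, eq_div_iff ht']
        linear_combination h5
      rw [h3]
      exact Subtype.mem _
    refine ⟨?_, ht⟩
    rw [ht, zero_smul, add_zero, Algebra.smul_def, mul_one] at hst
    exact Subtype.ext hst
  have hspan := hli.span_eq_top_of_card_eq_finrank' (by
    rw [Fintype.card_fin]
    omega)
  rw [eq_top_iff]
  intro y _
  have hy : y ∈ Submodule.span (IntermediateField.adjoin ℂ {u}) (Set.range ![(1 : K), v]) := by
    rw [hspan]
    exact Submodule.mem_top
  rw [Matrix.range_cons, Matrix.range_cons, Matrix.range_empty, Set.union_empty, ← Set.insert_eq, Submodule.mem_span_pair] at hy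
  obtain ⟨a, b, hab⟩ := hy
  have hle : IntermediateField.adjoin ℂ {u} ≤ IntermediateField.adjoin ℂ {u, v} :=
    IntermediateField.adjoin.mono ℂ _ _ (by simp)
  have hvm : v ∈ IntermediateField.adjoin ℂ {u, v} := IntermediateField.subset_adjoin ℂ _ (by simp)
  rw [← hab, Algebra.smul_def, Algebra.smul_def, mul_one]
  exact add_mem (hle a.2) (mul_mem (hle b.2) hvm)

end Pool.Agent.H13.CV

end
end

section

/-!
# CV CaseA: functions with a simple pole

`top_of_dv_one`: `f` has a pole (`const_of_no_pole`), so `oz E f = - 1` and there are no other poles: `adjoin_eq_top_of_simple_pole`.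
`exists_not_const`: the constants form a subspace of dimension `1`, it does not contain `W`.
-/

set_option autoImplicit false

open Pool.Agent.H23.Fano (PrimeDivisorOver Form regularForms)

noncomputable section

namespace Pool.Agent.H13.CV

variable {K : Type} [Field K] [Algebra ℂ K]

/-- a non-constant function with at most a simple pole at `E` generates the field -/
theorem top_of_dv_one (hK : CurveField K) {E : Place K} {f : K} (hf : f ∈ LD (dv E 1)) (hc : ∀ c : ℂ, f ≠ algebraMap ℂ K c) :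
    IntermediateField.adjoin ℂ {f} = ⊤ := by
  have hf' : ∀ E' : Place K, ((-(dv E 1 E') : ℤ) : WithTop ℤ) ≤ E'.ord f := by
    intro E'
    have h1 := (Submodule.mem_iInf _).mp hf E'
    exact h1
  have hoth : ∀ E' : Place K, E' ≠ E → 0 ≤ E'.ord f := by
    intro E' hE'
    have h1 := hf' E'
    unfold dv at h1
    rw [if_neg hE', neg_zero] at h1
    exact h1
  have hE1 : ((-1 : ℤ) : WithTop ℤ) ≤ E.ord f := by
    have h1 := hf' E
    unfold dv at h1
    rw [if_pos rfl] at h1
    exact h1
  have hneg : E.ord f < 0 := by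
    by_contra h
    rw [not_lt] at h
    obtain ⟨c, hc'⟩ := const_of_no_pole hK (f := f) (fun E' => by
      by_cases hE' : E' = E
      · rw [hE']
        exact h
      · exact hoth E' hE')
    exact hc c hc'
  refine adjoin_eq_top_of_simple_pole hK (E := E) ?_ hoth
  unfold oz
  have hne : E.ord f ≠ ⊤ := by
    intro h
    rw [h] at hneg
    exact absurd hneg (not_lt.mpr le_top)
  obtain ⟨a, ha⟩ := WithTop.ne_top_iff_exists.mp hne
  rw [← ha] at hneg hE1 ⊢
  have h1 : a < 0 := by exact_mod_cast hneg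
  have h2 : -1 ≤ a := by exact_mod_cast hE1
  have h3 : a = -1 := by omega
  rw [h3]
  rfl

theorem exists_not_const {W : Submodule ℂ K} [FiniteDimensional ℂ W] (h : 2 ≤ Module.finrank ℂ W) : ∃ f ∈ W, ∀ c : ℂ, f ≠ algebraMap ℂ K c := by
  by_contra hcon
  push Not at hcon
  have hle : W ≤ Submodule.span ℂ {(1 : K)} := by
    intro f hf
    obtain ⟨c, hc⟩ := hcon f hf
    rw [Submodule.mem_span_singleton]
    exact ⟨c, by rw [hc, Algebra.smul_def, mul_one]⟩
  have h1 := Submodule.finrank_mono hle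
  have h2 : Module.finrank ℂ (Submodule.span ℂ {(1 : K)}) ≤ 1 := by
    have := finrank_span_le_card (R := ℂ) ({(1 : K)} : Set K)
    simpa using this
  omega

end Pool.Agent.H13.CV

end
end
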