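import Pool.Agent.H94.G5T.G3.C.TDefs
import Pool.Agent.H94.G5T.M05
import Pool.Agent.H94.G5T.M59
import Pool.Agent.H94.G5T.M63

/-! The parts of this file: G3.C.Tay, TG.Lf, TG.Cross. -/

section

/-!
# G3 C Tay: Taylor expansions

`taylor_bound`: induction on `m` for all families (the derivative in `t` of the remainder of `f 0` of order `m + 1` is the remainder of `f 1` of order `m`; mean value
inequality on `[0, t]`, `image_norm_le_of_norm_deriv_right_le_deriv_boundary` or `Convex.norm_image_sub_le_of_norm_hasDerivWithin_le`).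
`iteratedDeriv_pol`.  `jt_eq_of_bound`: the function `φ - ψ` is analytic at `0`; if it is not locally `0`, it is `t^n h t` with `h 0 ≠ 0` (`AnalyticAt.exists_eventuallyEq_pow_smul_nonzero_iff`),
and the bound gives `n > m`; so all derivatives of order `≤ m` are `0` (Mathlib: order and `iteratedDeriv`, for instance `natCast_le_analyticOrderAt_iff_iteratedDeriv_eq_zero`).
`hol_taylor`: apply `taylor_bound` to `f j t = iteratedDeriv j g t`.
-/

set_option autoImplicit false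

open Topology Filter Metric

namespace Pool.Agent.G3.C

open Pool.Agent.H36.BP (EN fs wd)
open Pool.Agent.AD (Vd Chart Charts)

variable {N : ℕ}

private theorem hasDeriv_sum (c : ℕ → ℂ) (k : ℕ) (z : ℂ) :
    HasDerivAt (fun z : ℂ => ∑ i ∈ Finset.range (k + 1), c i / (i.factorial : ℂ) * z ^ i)
      (∑ i ∈ Finset.range k, c (i + 1) / (i.factorial : ℂ) * z ^ i) z := by
  have h1 : (fun z : ℂ => ∑ i ∈ Finset.range (k + 1), c i / (i.factorial : ℂ) * z ^ i) =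
      fun z : ℂ => ∑ i ∈ Finset.range k, c (i + 1) / ((i + 1).factorial : ℂ) * z ^ (i + 1) + c 0 := by
    funext z
    rw [Finset.sum_range_succ']
    simp
  rw [h1]
  refine HasDerivAt.add_const _ ?_
  refine HasDerivAt.fun_sum fun i _ => ?_
  have h2 := (hasDerivAt_pow (i + 1) z).const_mul (c (i + 1) / ((i + 1).factorial : ℂ))
  refine h2.congr_deriv ?_
  have h3 : ((i + 1 : ℕ) : ℂ) ≠ 0 := by exact_mod_cast Nat.succ_ne_zero i
  have h4 : (i.factorial : ℂ) ≠ 0 := by exact_mod_cast i.factorial_ne_zero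
  rw [Nat.factorial_succ, Nat.add_sub_cancel]
  push_cast
  push_cast at h3
  field_simp

private theorem rem_bound {s r : ℝ} (hr : 0 < r) (k : ℕ) : ∀ f : ℕ → ℝ → ℂ,
    (∀ j, ∀ t ∈ Set.Ioo (s - r) (s + r), HasDerivAt (f j) (f (j + 1) t) t) →
    ∃ C : ℝ, 0 ≤ C ∧ ∀ t ∈ Set.Icc (0 : ℝ) (r / 2),
      ‖f 0 (s + t) - ∑ i ∈ Finset.range k, f i s / (i.factorial : ℂ) * (t : ℂ) ^ i‖ ≤ C * t ^ k := by
  induction k with
  | zero =>
    intro f hf
    have hc : ContinuousOn (fun t : ℝ => f 0 (s + t)) (Set.Icc (0 : ℝ) (r / 2)) := by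
      intro t ht
      have h1 : s + t ∈ Set.Ioo (s - r) (s + r) := ⟨by linarith [ht.1], by linarith [ht.2]⟩
      have h2 : ContinuousAt (fun t : ℝ => f 0 (s + t)) t :=
        ContinuousAt.comp (g := f 0) (f := fun t : ℝ => s + t) (hf 0 _ h1).continuousAt (by fun_prop)
      exact h2.continuousWithinAt
    obtain ⟨C, hC⟩ := isCompact_Icc.exists_bound_of_continuousOn hc
    refine ⟨max C 0, le_max_right _ _, fun t ht => ?_⟩
    simp only [Finset.range_zero, Finset.sum_empty, sub_zero, pow_zero, mul_one]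
    exact (hC t ht).trans (le_max_left _ _)
  | succ k ih =>
    intro f hf
    obtain ⟨C, hC0, hC⟩ := ih (fun j => f (j + 1)) (fun j t ht => hf (j + 1) t ht)
    refine ⟨C, hC0, fun t ht => ?_⟩
    have hder : ∀ x ∈ Set.Icc (0 : ℝ) t, HasDerivWithinAt
        (fun x : ℝ => f 0 (s + x) - ∑ i ∈ Finset.range (k + 1), f i s / (i.factorial : ℂ) * (x : ℂ) ^ i)
        (f 1 (s + x) - ∑ i ∈ Finset.range k, f (i + 1) s / (i.factorial : ℂ) * (x : ℂ) ^ i) (Set.Icc (0 : ℝ) t) x := by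
      intro x hx
      have h1 : s + x ∈ Set.Ioo (s - r) (s + r) := ⟨by linarith [hx.1], by linarith [hx.2, ht.2]⟩
      have h2 : HasDerivAt (fun x : ℝ => f 0 (s + x)) (f 1 (s + x)) x := by
        have h3 := HasDerivAt.scomp x (hf 0 _ h1) ((hasDerivAt_id x).const_add s)
        rw [one_smul] at h3
        exact h3
      have h4 := (hasDeriv_sum (fun i => f i s) k (x : ℂ)).comp_ofReal
      exact (h2.sub h4).hasDerivWithinAt
    have hbd : ∀ x ∈ Set.Icc (0 : ℝ) t,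
        ‖f 1 (s + x) - ∑ i ∈ Finset.range k, f (i + 1) s / (i.factorial : ℂ) * (x : ℂ) ^ i‖ ≤ C * t ^ k := by
      intro x hx
      have h1 := hC x ⟨hx.1, hx.2.trans ht.2⟩
      exact h1.trans (mul_le_mul_of_nonneg_left (pow_le_pow_left₀ hx.1 hx.2 k) hC0)
    have h5 := Convex.norm_image_sub_le_of_norm_hasDerivWithin_le hder hbd (convex_Icc 0 t)
      (Set.left_mem_Icc.2 ht.1) (Set.right_mem_Icc.2 ht.1)
    have h6 : f 0 (s + 0) - ∑ i ∈ Finset.range (k + 1), f i s / (i.factorial : ℂ) * (((0 : ℝ) : ℂ)) ^ i = 0 := by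
      rw [Finset.sum_range_succ']
      simp
    rw [h6, sub_zero, sub_zero, Real.norm_of_nonneg ht.1] at h5
    calc _ ≤ C * t ^ k * t := h5
      _ = C * t ^ (k + 1) := by ring

/-- the remainder is `O(t^(m+1))`, on the right of `s` -/
theorem taylor_bound {f : ℕ → ℝ → ℂ} {s r : ℝ} (hr : 0 < r) (hf : ∀ j, ∀ t ∈ Set.Ioo (s - r) (s + r), HasDerivAt (f j) (f (j + 1) t) t) (m : ℕ) :
    ∃ C δ : ℝ, 0 < δ ∧ ∀ t ∈ Set.Ioo (0 : ℝ) δ, ‖f 0 (s + t) - pol (fun j : Fin (m + 1) => f j s) (t : ℂ)‖ ≤ C * t ^ (m + 1) := by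
  obtain ⟨C, _, hC⟩ := rem_bound hr (m + 1) f hf
  refine ⟨C, r / 2, by linarith, fun t ht => ?_⟩
  have h1 := hC t ⟨ht.1.le, ht.2.le⟩
  have h2 : pol (fun j : Fin (m + 1) => f j s) (t : ℂ) =
      ∑ i ∈ Finset.range (m + 1), f i s / (i.factorial : ℂ) * (t : ℂ) ^ i := by
    unfold pol
    exact Fin.sum_univ_eq_sum_range (fun i => f i s / (i.factorial : ℂ) * (t : ℂ) ^ i) (m + 1)
  rw [h2]
  exact h1

private theorem iter_sum (j : ℕ) : ∀ (c : ℕ → ℂ) (k : ℕ), j < k →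
    iteratedDeriv j (fun z : ℂ => ∑ i ∈ Finset.range k, c i / (i.factorial : ℂ) * z ^ i) 0 = c j := by
  induction j with
  | zero =>
    intro c k hk
    obtain ⟨k', rfl⟩ : ∃ k', k = k' + 1 := ⟨k - 1, by omega⟩
    rw [iteratedDeriv_zero, Finset.sum_range_succ']
    simp
  | succ j ih =>
    intro c k hk
    obtain ⟨k', rfl⟩ : ∃ k', k = k' + 1 := ⟨k - 1, by omega⟩
    rw [iteratedDeriv_succ']
    have h1 : deriv (fun z : ℂ => ∑ i ∈ Finset.range (k' + 1), c i / (i.factorial : ℂ) * z ^ i) =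
        fun z : ℂ => ∑ i ∈ Finset.range k', c (i + 1) / (i.factorial : ℂ) * z ^ i := by
      funext z
      exact (hasDeriv_sum c k' z).deriv
    rw [h1]
    exact ih (fun i => c (i + 1)) k' (by omega)

theorem iteratedDeriv_pol {m : ℕ} (v : Fin (m + 1) → ℂ) (j : Fin (m + 1)) : iteratedDeriv j (pol v) 0 = v j := by
  have h1 : pol v = fun z : ℂ => ∑ i ∈ Finset.range (m + 1), (if h : i < m + 1 then v ⟨i, h⟩ else 0) / (i.factorial : ℂ) * z ^ i := by
    funext z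
    unfold pol
    rw [← Fin.sum_univ_eq_sum_range (fun i => (if h : i < m + 1 then v ⟨i, h⟩ else 0) / (i.factorial : ℂ) * z ^ i) (m + 1)]
    refine Finset.sum_congr rfl fun i _ => ?_
    rw [dif_pos i.2]
  rw [h1, iter_sum (j : ℕ) _ (m + 1) j.2, dif_pos j.2]

theorem pol_zero {m : ℕ} (v : Fin (m + 1) → ℂ) : pol v 0 = v 0 := by
  have h := iteratedDeriv_pol v 0
  rwa [Fin.val_zero, iteratedDeriv_zero] at h

/-- curves which agree to the order `m` along the positive real axis have the same `m`-jet -/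
theorem jt_eq_of_bound {m : ℕ} {φ ψ : ℂ → EN N} (hφ : AnalyticAt ℂ φ 0) (hψ : AnalyticAt ℂ ψ 0) {C δ : ℝ} (hδ : 0 < δ)
    (h : ∀ t : ℝ, t ∈ Set.Ioo (0 : ℝ) δ → ‖φ (t : ℂ) - ψ (t : ℂ)‖ ≤ C * t ^ (m + 1)) : jt m φ = jt m ψ := by
  have hg : AnalyticAt ℂ (φ - ψ) 0 := hφ.sub hψ
  have hord : ((m + 1 : ℕ) : ℕ∞) ≤ analyticOrderAt (φ - ψ) 0 := by
    by_contra hcon
    rw [not_le] at hcon
    have hne : analyticOrderAt (φ - ψ) 0 ≠ ⊤ := ne_top_of_lt hcon
    obtain ⟨n, hn⟩ := ENat.ne_top_iff_exists.1 hne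
    rw [← hn] at hcon
    have hnm : n < m + 1 := by exact_mod_cast hcon
    obtain ⟨q, hq1, hq2, hq3⟩ := (hg.analyticOrderAt_eq_natCast (n := n)).1 hn.symm
    have hcast : Tendsto (fun t : ℝ => (t : ℂ)) (𝓝[>] (0 : ℝ)) (𝓝 (0 : ℂ)) := by
      have h1 : Tendsto (fun t : ℝ => (t : ℂ)) (𝓝 (0 : ℝ)) (𝓝 ((0 : ℝ) : ℂ)) := Complex.continuous_ofReal.tendsto 0
      rw [Complex.ofReal_zero] at h1
      exact h1.mono_left nhdsWithin_le_nhds
    have hlim : Tendsto (fun t : ℝ => ‖q (t : ℂ)‖) (𝓝[>] (0 : ℝ)) (𝓝 ‖q 0‖) :=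
      (hq1.continuousAt.tendsto.comp hcast).norm
    have hlim0 : Tendsto (fun t : ℝ => C * t ^ (m + 1 - n)) (𝓝[>] (0 : ℝ)) (𝓝 0) := by
      have h1 : Tendsto (fun t : ℝ => C * t ^ (m + 1 - n)) (𝓝 (0 : ℝ)) (𝓝 (C * 0 ^ (m + 1 - n))) :=
        Continuous.tendsto (by fun_prop) 0
      rw [zero_pow (by omega), mul_zero] at h1
      exact h1.mono_left nhdsWithin_le_nhds
    have hle : ∀ᶠ t : ℝ in 𝓝[>] (0 : ℝ), ‖q (t : ℂ)‖ ≤ C * t ^ (m + 1 - n) := by
      have e1 : ∀ᶠ t : ℝ in 𝓝[>] (0 : ℝ), t ∈ Set.Ioo (0 : ℝ) δ := Ioo_mem_nhdsGT hδ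
      filter_upwards [e1, hcast.eventually hq3] with t ht hqt
      have h1 := h t ht
      have h2 : φ (t : ℂ) - ψ (t : ℂ) = (t : ℂ) ^ n • q (t : ℂ) := by
        have h3 : (φ - ψ) (t : ℂ) = ((t : ℂ) - 0) ^ n • q (t : ℂ) := hqt
        rw [sub_zero] at h3
        exact h3
      rw [h2, norm_smul, norm_pow, Complex.norm_real, Real.norm_of_nonneg ht.1.le] at h1
      have h4 : t ^ (m + 1) = t ^ n * t ^ (m + 1 - n) := by rw [← pow_add]; congr 1; omega
      have h5 : (0 : ℝ) < t ^ n := pow_pos ht.1 n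
      rw [h4] at h1
      refine le_of_mul_le_mul_left ?_ h5
      calc t ^ n * ‖q (t : ℂ)‖ ≤ C * (t ^ n * t ^ (m + 1 - n)) := h1
        _ = t ^ n * (C * t ^ (m + 1 - n)) := by ring
    have h0 : ‖q 0‖ ≤ 0 := le_of_tendsto_of_tendsto hlim hlim0 hle
    exact hq2 (norm_le_zero_iff.1 h0)
  funext j
  unfold jt
  have h1 := (natCast_le_analyticOrderAt_iff_iteratedDeriv_eq_zero hg).1 hord j j.2
  rw [iteratedDeriv_sub hφ.contDiffAt hψ.contDiffAt] at h1
  exact sub_eq_zero.1 h1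

/-- Taylor's formula for a holomorphic function, along the positive real axis -/
theorem hol_taylor {g : ℂ → ℂ} (hg : AnalyticAt ℂ g 0) (m : ℕ) :
    ∃ C δ : ℝ, 0 < δ ∧ ∀ t ∈ Set.Ioo (0 : ℝ) δ, ‖g (t : ℂ) - pol (fun j : Fin (m + 1) => iteratedDeriv j g 0) (t : ℂ)‖ ≤ C * t ^ (m + 1) := by
  obtain ⟨r, hr, hgr⟩ := hg.exists_ball_analyticOnNhd
  have hf : ∀ j, ∀ t ∈ Set.Ioo ((0 : ℝ) - r) (0 + r), HasDerivAt (fun t : ℝ => iteratedDeriv j g (t : ℂ)) (iteratedDeriv (j + 1) g (t : ℂ)) t := by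
    intro j t ht
    have h1 : (t : ℂ) ∈ ball (0 : ℂ) r := by
      rw [mem_ball_zero_iff, Complex.norm_real, Real.norm_eq_abs, abs_lt]
      exact ⟨by linarith [ht.1], by linarith [ht.2]⟩
    have h2 : AnalyticAt ℂ (iteratedDeriv j g) (t : ℂ) := by
      rw [iteratedDeriv_eq_iterate]
      exact hgr.iterated_deriv j _ h1
    have h3 := h2.differentiableAt.hasDerivAt
    rw [← iteratedDeriv_succ] at h3
    exact h3.comp_ofReal
  obtain ⟨C, δ, hδ, hC⟩ := taylor_bound hr hf m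
  refine ⟨C, δ, hδ, fun t ht => ?_⟩
  have h1 := hC t ht
  rw [zero_add, iteratedDeriv_zero, Complex.ofReal_zero] at h1
  exact h1

end Pool.Agent.G3.C

end

section

/-!
# TG Lf: lifts over discs

`disc_lift`: `r ≤ 0`: trivial.  Otherwise apply `Pool.Agent.H36.BP.lift_disc` (`H36/BP/Lift.lean`) to `z ↦ Projectivization.mk ℂ (Φ_z z).ofLp _` for the rescaled map `z ↦ f (R z)` on the unit disc (`Φ_z` the local lift at `z`; two nonzero vectors
`x, y` with `pr x = pr y` are proportional, `pr_eq_iff`, so near `z₀` this map is the class of `Φ_{z₀}`).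

`sec_line`: define `g z = f (y + z • e)` if `y + z • e ∉ D`, and `g z = g_z 0` otherwise, where `g_z` is from the second condition of `Sec` at the point `y + z • e`.  Local lifts: at a point off `D` compose `φ` from the first condition with the line
(`D` is closed, so nearby points are off `D` too); at a point `z₀` with `y + z₀ • e ∈ D` use `Φ` from `LiftAt` (translated by `z₀`); there `g z = f (y + z • e)` for `z ≠ z₀` near `z₀`.  Apply `disc_lift`; the lift `F` is proportional to the local lifts,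
so `F z ∈ X` and `u (F z) - (y + z • e) ∈ Λ` (`smul_mem_lat`).
-/

set_option autoImplicit false

open Topology Filter Metric

namespace Pool.Agent.TG

open Pool.Agent.H36.BP (EN fs wd)
open Pool.Agent.H14.PP (IsCone CurveAt Tan)
open Pool.Agent.H62.EF (MN pr)
open Pool.Agent.AD (Vd Chart Charts IsGerm)

variable {N k : ℕ}

theorem disc_lift {f : ℂ → MN N} {R : ℝ}
    (hf : ∀ z ∈ ball (0 : ℂ) R, ∃ Φ : ℂ → EN N, AnalyticAt ℂ Φ z ∧ ∀ᶠ w in 𝓝 z, Φ w ≠ 0 ∧ f w = pr (Φ w)) {r : ℝ} (hr : r < R) :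
    ∃ F : ℂ → EN N, DifferentiableOn ℂ F (ball 0 r) ∧ ∀ z ∈ ball (0 : ℂ) r, F z ≠ 0 ∧ f z = pr (F z) := by
  classical
  rcases le_or_gt r 0 with hr0 | hr0
  · refine ⟨fun _ => 0, differentiableOn_const _, fun z hz => ?_⟩
    rw [ball_eq_empty.mpr hr0] at hz
    exact absurd hz (Set.notMem_empty z)
  have hR : 0 < R := hr0.trans hr
  obtain ⟨Φ₀, -, h0⟩ := hf 0 (mem_ball_self hR)
  have hV : ∀ z : ℂ, ∃ v : EN N, v ≠ 0 ∧ (z ∈ ball (0 : ℂ) R → f z = pr v) := by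
    intro z
    by_cases hz : z ∈ ball (0 : ℂ) R
    · obtain ⟨Φ, -, h⟩ := hf z hz
      exact ⟨Φ z, h.self_of_nhds.1, fun _ => h.self_of_nhds.2⟩
    · exact ⟨Φ₀ 0, h0.self_of_nhds.1, fun h => absurd h hz⟩
  choose V hV0 hVf using hV
  have hofne : ∀ v : EN N, v ≠ 0 → v.ofLp ≠ 0 := by
    intro v hv h
    apply hv
    ext j
    exact congrFun h j
  set g : ℂ → Pool.Agent.H17.PN N := fun z => Projectivization.mk ℂ (V ((R : ℂ) * z)).ofLp (hofne _ (hV0 _)) with hg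
  have hmul : ∀ z : ℂ, z ∈ ball (0 : ℂ) 1 → (R : ℂ) * z ∈ ball (0 : ℂ) R := by
    intro z hz
    rw [mem_ball_zero_iff] at hz ⊢
    rw [norm_mul, Complex.norm_real, Real.norm_of_nonneg hR.le]
    calc R * ‖z‖ < R * 1 := mul_lt_mul_of_pos_left hz hR
      _ = R := mul_one R
  have hgh : Pool.Agent.H17.HolomorphicInto g (ball 0 1) := by
    intro z₀ hz₀
    obtain ⟨Φ, hΦ, h⟩ := hf _ (hmul z₀ hz₀)
    have hc : AnalyticAt ℂ (fun w : ℂ => (R : ℂ) * w) z₀ := analyticAt_const.mul analyticAt_id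
    have hΦc : AnalyticAt ℂ (fun w : ℂ => Φ ((R : ℂ) * w)) z₀ := AnalyticAt.fun_comp hΦ hc
    refine ⟨fun w => (Φ ((R : ℂ) * w)).ofLp, ?_, ?_⟩
    · rw [analyticAt_pi_iff]
      intro j
      exact ((EuclideanSpace.proj (𝕜 := ℂ) j : EN N →L[ℂ] ℂ).analyticAt _).comp hΦc
    · filter_upwards [hc.continuousAt.eventually h, isOpen_ball.mem_nhds hz₀] with w hw hwb
      refine ⟨hofne _ hw.1, ?_⟩
      have h1 : pr (V ((R : ℂ) * w)) = pr (Φ ((R : ℂ) * w)) := by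
        rw [← hVf _ (hmul w hwb), hw.2]
      obtain ⟨c, -, h2⟩ := (Pool.Agent.H62.EF.pr_eq_iff (hV0 _) hw.1).mp h1
      rw [hg, Projectivization.mk_eq_mk_iff']
      exact ⟨c, by rw [h2]; rfl⟩
  obtain ⟨F, hF, hFg⟩ := Pool.Agent.H36.BP.lift_disc hgh (r := r / R) (div_pos hr0 hR) ((div_lt_one hR).mpr hr)
  have hdiv : ∀ z : ℂ, z ∈ ball (0 : ℂ) r → (R : ℂ)⁻¹ * z ∈ ball (0 : ℂ) (r / R) := by
    intro z hz
    rw [mem_ball_zero_iff] at hz ⊢
    rw [norm_mul, norm_inv, Complex.norm_real, Real.norm_of_nonneg hR.le, inv_mul_eq_div]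
    exact div_lt_div_of_pos_right hz hR
  refine ⟨fun z => F ((R : ℂ)⁻¹ * z), ?_, fun z hz => ?_⟩
  · exact hF.comp (differentiable_id.const_mul _).differentiableOn hdiv
  · obtain ⟨h1, h2⟩ := hFg _ (hdiv z hz)
    have hRC : (R : ℂ) ≠ 0 := by exact_mod_cast hR.ne'
    have h3 : (R : ℂ) * ((R : ℂ)⁻¹ * z) = z := by
      rw [← mul_assoc, mul_inv_cancel₀ hRC, one_mul]
    have h4 : F ((R : ℂ)⁻¹ * z) ≠ 0 := by
      intro h
      apply h1
      rw [h]
      rfl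
    refine ⟨h4, ?_⟩
    have h5 : z ∈ ball (0 : ℂ) R := ball_subset_ball hr.le hz
    rw [hg] at h2
    simp only [h3] at h2
    obtain ⟨c, hc, h6⟩ := Pool.Agent.H17.mk_eq_mk_cross h2
    have h7 : V z = c • F ((R : ℂ)⁻¹ * z) := by
      ext j
      exact h6 j
    rw [hVf z h5, h7, Pool.Agent.H62.EF.pr_smul _ hc]

variable {X : Set (EN N)} {Λ : AddSubgroup (Vd (k + 1))} {u : EN N → Vd (k + 1)} {D B : Set (Vd (k + 1))}

/-- the lift of a curve over a line -/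
theorem disc_lift_mem (hX : IsCone X) (hu : TMap X Λ u) {g : ℂ → MN N} {y e : Vd (k + 1)} {R : ℝ}
    (hg : ∀ z ∈ ball (0 : ℂ) R, LiftAt X Λ u y e g z) {r : ℝ} (hr : r < R) :
    ∃ F : ℂ → EN N, DifferentiableOn ℂ F (ball 0 r) ∧ (∀ z ∈ ball (0 : ℂ) r, F z ∈ X ∧ u (F z) - (y + z • e) ∈ Λ) ∧
      ∀ z ∈ ball (0 : ℂ) r, g z = pr (F z) := by
  obtain ⟨F, hF, hFg⟩ := disc_lift (f := g) (R := R) (fun z hz => by
    obtain ⟨Φ, hΦ, h⟩ := hg z hz
    exact ⟨Φ, hΦ, by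
      filter_upwards [h] with w hw
      exact ⟨ne_zero hX hw.1, hw.2.1⟩⟩) hr
  refine ⟨F, hF, fun z hz => ?_, fun z hz => (hFg z hz).2⟩
  obtain ⟨Φ, -, h⟩ := hg z (ball_subset_ball hr.le hz)
  obtain ⟨h1, h2, h3⟩ := h.self_of_nhds
  obtain ⟨h4, h5⟩ := hFg z hz
  obtain ⟨c, hc, h6⟩ := (Pool.Agent.H62.EF.pr_eq_iff h4 (ne_zero hX h1)).mp (h5.symm.trans h2)
  rw [h6]
  exact ⟨hX.smul_mem _ h1 c hc, smul_mem_lat hu h1 h3 hc⟩

theorem sec_line (hX : IsCone X) (hu : TMap X Λ u) (hD : IsClosed D) {f : Vd (k + 1) → MN N} (hf : f ∈ Sec X Λ u D) {y e : Vd (k + 1)} {R : ℝ}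
    (hiso : ∀ z ∈ ball (0 : ℂ) R, ∀ᶠ w in 𝓝[≠] z, y + w • e ∉ D) {r : ℝ} (hr : r < R) :
    ∃ F : ℂ → EN N, DifferentiableOn ℂ F (ball 0 r) ∧ (∀ z ∈ ball (0 : ℂ) r, F z ∈ X ∧ u (F z) - (y + z • e) ∈ Λ) ∧
      ∀ z ∈ ball (0 : ℂ) r, y + z • e ∉ D → pr (F z) = f (y + z • e) := by
  classical
  obtain ⟨hf1, hf2⟩ := hf
  -- the local curve at a point of the disc
  have hloc : ∀ z : ℂ, ∃ G : ℂ → MN N, z ∈ ball (0 : ℂ) R → LiftAt X Λ u (y + z • e) e G 0 ∧ ∀ᶠ w in 𝓝[≠] (0 : ℂ), G w = f (y + z • e + w • e) := by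
    intro z
    by_cases hz : z ∈ ball (0 : ℂ) R
    · have h1 : ∀ᶠ w in 𝓝[≠] (0 : ℂ), y + z • e + w • e ∉ D := by
        have h2 : Tendsto (fun w : ℂ => z + w) (𝓝[≠] 0) (𝓝[≠] z) := by
          refine tendsto_nhdsWithin_iff.mpr ⟨?_, ?_⟩
          · have h3 : Tendsto (fun w : ℂ => z + w) (𝓝 0) (𝓝 (z + 0)) := (continuous_const.add continuous_id).tendsto 0
            rw [add_zero] at h3
            exact h3.mono_left nhdsWithin_le_nhds
          · filter_upwards [self_mem_nhdsWithin] with w hw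
            intro h3
            apply hw
            simpa using h3
        filter_upwards [h2.eventually (hiso z hz)] with w hw
        rwa [add_assoc, ← add_smul]
      obtain ⟨G, h3, h4⟩ := hf2 _ _ h1
      exact ⟨G, fun _ => ⟨h3, h4⟩⟩
    · exact ⟨fun _ => 0, fun h => absurd h hz⟩
  choose G hG using hloc
  set g : ℂ → MN N := fun z => if y + z • e ∈ D then G z 0 else f (y + z • e) with hg
  have hgl : ∀ z ∈ ball (0 : ℂ) R, LiftAt X Λ u y e g z := by
    intro z hz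
    obtain ⟨⟨Φ, hΦ, hΦe⟩, hGe⟩ := hG z hz
    have hsub : AnalyticAt ℂ (fun w : ℂ => w - z) z := analyticAt_id.sub analyticAt_const
    have hΦc : AnalyticAt ℂ (fun w : ℂ => Φ (w - z)) z := by
      refine AnalyticAt.fun_comp (f := fun w : ℂ => w - z) ?_ hsub
      rw [sub_self]
      exact hΦ
    have ht : Tendsto (fun w : ℂ => w - z) (𝓝 z) (𝓝 0) := by
      have h1 := hsub.continuousAt.tendsto
      rwa [sub_self] at h1
    have htn : Tendsto (fun w : ℂ => w - z) (𝓝[≠] z) (𝓝[≠] 0) := by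
      refine tendsto_nhdsWithin_iff.mpr ⟨ht.mono_left nhdsWithin_le_nhds, ?_⟩
      filter_upwards [self_mem_nhdsWithin] with w hw
      exact sub_ne_zero.mpr hw
    have hpt : ∀ w : ℂ, y + z • e + (w - z) • e = y + w • e := by
      intro w
      rw [sub_smul]
      abel
    refine ⟨fun w => Φ (w - z), hΦc, ?_⟩
    have h1 := eventually_nhdsWithin_iff.mp (htn.eventually hGe)
    have h2 := eventually_nhdsWithin_iff.mp (hiso z hz)
    filter_upwards [ht.eventually hΦe, h1, h2] with w hw hw1 hw2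
    obtain ⟨hw3, hw4, hw5⟩ := hw
    rw [hpt] at hw5
    refine ⟨hw3, ?_, hw5⟩
    rw [← hw4]
    by_cases hwz : w = z
    · by_cases hzD : y + w • e ∈ D
      · rw [hg]
        simp only [hzD, if_true]
        rw [hwz, sub_self]
      · -- both sides are continuous at `z`
        rw [hg]
        simp only [hzD, if_false]
        rw [hwz] at hzD ⊢
        obtain ⟨φ, hφ, hφe⟩ := hf1 _ hzD
        have hpc : Continuous fun v : ℂ => y + z • e + v • e := by fun_prop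
        have hφc : ContinuousAt (fun v : ℂ => pr (φ (y + z • e + v • e))) 0 := by
          have e1 : y + z • e + (0 : ℂ) • e = y + z • e := by rw [zero_smul, add_zero]
          refine ContinuousAt.comp (g := pr) (f := fun v : ℂ => φ (y + z • e + v • e)) ?_ ?_
          · rw [e1]
            exact Pool.Agent.H62.EF.continuousAt_pr (ne_zero hX hφe.self_of_nhds.1)
          · refine ContinuousAt.comp (g := φ) (f := fun v : ℂ => y + z • e + v • e) ?_ hpc.continuousAt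
            rw [e1]
            exact hφ.continuousAt
        have hΦc2 : ContinuousAt (fun v : ℂ => pr (Φ v)) 0 :=
          ContinuousAt.comp (g := pr) (f := Φ) (Pool.Agent.H62.EF.continuousAt_pr (ne_zero hX hΦe.self_of_nhds.1)) hΦ.continuousAt
        have hev : (fun v : ℂ => pr (Φ v)) =ᶠ[𝓝[≠] (0 : ℂ)] fun v : ℂ => pr (φ (y + z • e + v • e)) := by
          have h5 : ∀ᶠ v in 𝓝[≠] (0 : ℂ), f (y + z • e + v • e) = pr (φ (y + z • e + v • e)) := by
            have h6 : Tendsto (fun v : ℂ => y + z • e + v • e) (𝓝 0) (𝓝 (y + z • e)) := by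
              have h7 := hpc.tendsto 0
              rwa [zero_smul, add_zero] at h7
            exact ((h6.eventually hφe).mono fun v hv => hv.2.1).filter_mono nhdsWithin_le_nhds
          filter_upwards [hGe, hΦe.filter_mono nhdsWithin_le_nhds, h5] with v hv1 hv2 hv3
          rw [← hv2.2.1, hv1, hv3]
        have h6 : Tendsto (fun v : ℂ => pr (Φ v)) (𝓝[≠] (0 : ℂ)) (𝓝 (pr (Φ 0))) := hΦc2.tendsto.mono_left nhdsWithin_le_nhds
        have h7 : Tendsto (fun v : ℂ => pr (φ (y + z • e + v • e))) (𝓝[≠] (0 : ℂ)) (𝓝 (pr (φ (y + z • e + (0 : ℂ) • e)))) :=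
          hφc.tendsto.mono_left nhdsWithin_le_nhds
        have h8 := tendsto_nhds_unique (h6.congr' hev) h7
        rw [zero_smul, add_zero] at h8
        rw [sub_self, hΦe.self_of_nhds.2.1, h8]
        exact hφe.self_of_nhds.2.1
    · rw [hw1 hwz, hpt, hg]
      simp only [hw2 hwz, if_false]
  obtain ⟨F, hF, hF1, hF2⟩ := disc_lift_mem hX hu hgl hr
  refine ⟨F, hF, hF1, fun z hz hzD => ?_⟩
  rw [← hF2 z hz, hg]
  simp only [hzD, if_false]

end Pool.Agent.TG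

end

section

/-!
# TG Cross: crossing `D`

`κ, c, Γ₀, s` from `exists_ln`; `T, s', η` from `Pool.Agent.TGY.exists_tube` for `Y = Yl X Λ u p e s`, `w = wl`, `b = 0` (`Ln.isCone`, `Ln.torusMap`, `L.lat₀`, `Ln.isNC`).  `s₀ = min s s'`.  Let `r₁ < r₂ < s₀`, `r` from `Ln.ycap`, `ε₁ = r / 3`.
For `f ∈ Sec`: `sec_line` with `y = p`, `R = s` (all points `p + z • e`, `0 < ‖z‖ ≤ s`, are off `D`) gives `F` on `ball 0 t` with `r₂ < t < s₀`: `Pool.Agent.TGY.SecOn Y Γ₀ wl 0 t F` (`wl (F z) = z` by `Ln.wl_eq`), `pr (F z) = f (p + z • e)` for `z ≠ 0`.  Same for `g`: `G`.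
`crossing_on` (`TG/Y/Cr`) for the form `L.form α`: `hcap` from `Ln.ycap` (`wl (F z₀) = z₀`; `EL.Cap` is monotone in `r`: `3 ε ≤ r`), `hrel` from `Ln.irel_bridge`.  It gives `J'` holomorphic on `ball 0 r₂` with `J' z = EL.II (L.form α) ε z (pr (F z)) (pr (G z))` on the annulus; the latter is
`- dt κ e c z * II α ε (p + z • e) (f ..) (g ..)`: `II` satisfies `IRel` (`Exists.choose_spec`), `irel_bridge`, and `EL.II_eq`, `EL.IRel.eq_cap` (uniqueness, chart from `ycap`, `EL.exists_prim`).  `J z = - J' z / dt κ e c z` (`L.dt_ne`; `dt κ e c` is differentiable on `ball 0 s`: `L.κ_an`, `L.c_an`).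
-/

set_option autoImplicit false

open Topology Filter Metric

namespace Pool.Agent.TG

open Pool.Agent.H36.BP (EN fs wd)
open Pool.Agent.H14.PP (IsCone CurveAt Tan)
open Pool.Agent.H62.EF (MN pr)
open Pool.Agent.AD (Vd Chart Charts IsGerm)

variable {N k : ℕ}

variable {X : Set (EN N)} {Λ : AddSubgroup (Vd (k + 1))} {u : EN N → Vd (k + 1)} {D B : Set (Vd (k + 1))}
  {κ : Vd (k + 1) → Vd (k + 1)} {p e : Vd (k + 1)} {c : ℂ → Vd (k + 1)} {Γ₀ : AddSubgroup ℂ} {s : ℝ}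

/-- the lift of a section over the line is a section of the slab -/
theorem cross_lift (L : Ln X Λ u D κ p e c Γ₀ s) (hD : IsClosed D) {f : Vd (k + 1) → MN N} (hf : f ∈ Sec X Λ u D) {R t : ℝ} (hR : R ≤ s) (ht : t < R) :
    ∃ F : ℂ → EN N, Pool.Agent.TGY.SecOn (Yl X Λ u p e s) Γ₀ (wl Λ u p e s) 0 t F ∧ (∀ z : ℂ, ‖z‖ < t → wl Λ u p e s (F z) = z) ∧
      ∀ z : ℂ, z ≠ 0 → ‖z‖ < t → pr (F z) = f (p + z • e) := by
  have hiso : ∀ z ∈ ball (0 : ℂ) R, ∀ᶠ w in 𝓝[≠] z, p + w • e ∉ D := by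
    intro z hz
    have hzR : ‖z‖ < R := mem_ball_zero_iff.1 hz
    have h1 : ∀ᶠ w in 𝓝 z, ‖w‖ < R := continuous_norm.continuousAt.eventually (gt_mem_nhds hzR)
    by_cases h0 : z = 0
    · subst h0
      filter_upwards [nhdsWithin_le_nhds h1, self_mem_nhdsWithin] with w hw hne
      exact L.off w hne (hw.le.trans hR)
    · have h2 : ∀ᶠ w in 𝓝 z, w ≠ 0 := eventually_ne_nhds h0
      filter_upwards [nhdsWithin_le_nhds h1, nhdsWithin_le_nhds h2] with w hw hne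
      exact L.off w hne (hw.le.trans hR)
  obtain ⟨F, h1, h2, h3⟩ := sec_line L.cone L.tor hD hf (y := p) (e := e) hiso ht
  have hle : ∀ z : ℂ, ‖z‖ < t → ‖z‖ ≤ s := fun z hz => hz.le.trans (ht.le.trans hR)
  refine ⟨F, ⟨h1, fun z hz => ?_, fun z hz => ?_⟩, fun z hz => ?_, fun z h0 hz => ?_⟩
  · have hz' := mem_ball_zero_iff.1 hz
    exact ⟨(h2 z hz).1, z, hle z hz', (h2 z hz).2⟩
  · have hz' := mem_ball_zero_iff.1 hz
    rw [L.wl_eq (hle z hz') (h2 z hz).2, sub_self]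
    exact Γ₀.zero_mem
  · exact L.wl_eq (hle z hz) (h2 z (mem_ball_zero_iff.2 hz)).2
  · exact h3 z (mem_ball_zero_iff.2 hz) (L.off z h0 (hle z hz))

end Pool.Agent.TG

end
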