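import Pool.Agent.H94.G5T.M10
import Pool.Agent.H94.G5T.M22

/-! The parts of this file: G3.R.Nv, TG.Cp. -/

section

/-!
# G3 R Nv: the affine charts `nv v`, `nv v (pr x) = x / ⟨v, x⟩`

`nv v m = (nd v m)⁻¹ • (m v)`, `nd v (pr v) = 1`, `pr v` fixes `v` for unit vectors `v` (`nv_pr`, `nd_pr_ne` in `G3/C/EDefs`).
`dd_nv`: the change of the chart is the composition with `x ↦ x / ⟨v, x⟩`, holomorphic and bounded by `4 / κ` on `ball v' (κ / 2)`, if `κ ≤ |⟨v, v'⟩|`: `dd_comp`, `dd_comp_le`.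
-/

set_option autoImplicit false

open Topology Filter Metric

namespace Pool.Agent.G3.R

open Pool.Agent.H36.BP (EN)
open Pool.Agent.H62.EF (MN pr)
open Pool.Agent.G3.C (nv nd nv_pr)

variable {N : ℕ}

theorem inner_self_unit {v : EN N} (hv : ‖v‖ = 1) : (inner ℂ v v : ℂ) = 1 := by
  rw [inner_self_eq_norm_sq_to_K, hv]
  norm_num

private theorem inner_eq (x y : EN N) : (inner ℂ x y : ℂ) = ∑ j, (starRingEnd ℂ) (x j) * y j := by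
  rw [PiLp.inner_apply]
  refine Finset.sum_congr rfl fun j _ => ?_
  rw [RCLike.inner_apply]
  ring

/-- the vector `m v` -/
private noncomputable def mvec (v : EN N) (m : MN N) : EN N := WithLp.toLp 2 fun i => ∑ j, m (i, j) * v j

private theorem nv_eq (v : EN N) (m : MN N) : nv v m = (inner ℂ v (mvec v m) : ℂ)⁻¹ • mvec v m := by
  unfold nv mvec
  congr 2
  rw [inner_eq]
  refine Finset.sum_congr rfl fun i _ => ?_
  rw [Finset.mul_sum]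
  exact Finset.sum_congr rfl fun j _ => by ring

private theorem norm_mvec_le (v : EN N) (m : MN N) : ‖mvec v m‖ ≤ ‖m‖ * ‖v‖ := by
  have h0 : 0 ≤ ‖m‖ * ‖v‖ := by positivity
  refine le_of_sq_le_sq ?_ h0
  rw [mul_pow, EuclideanSpace.norm_sq_eq, EuclideanSpace.norm_sq_eq, EuclideanSpace.norm_sq_eq, Fintype.sum_prod_type, Finset.sum_mul]
  refine Finset.sum_le_sum fun i _ => ?_
  have h1 : ‖mvec v m i‖ ≤ ∑ j, ‖m (i, j)‖ * ‖v j‖ := by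
    have h2 : mvec v m i = ∑ j, m (i, j) * v j := rfl
    rw [h2]
    refine (norm_sum_le Finset.univ fun j => m (i, j) * v j).trans (Finset.sum_le_sum fun j _ => ?_)
    rw [norm_mul]
  calc ‖mvec v m i‖ ^ 2 ≤ (∑ j, ‖m (i, j)‖ * ‖v j‖) ^ 2 := pow_le_pow_left₀ (norm_nonneg _) h1 2
    _ ≤ (∑ j, ‖m (i, j)‖ ^ 2) * ∑ j, ‖v j‖ ^ 2 := Finset.sum_mul_sq_le_sq_mul_sq _ _ _

private theorem mvec_sub (v : EN N) (m m' : MN N) : mvec v m - mvec v m' = mvec v (m - m') := by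
  ext i
  simp only [mvec, PiLp.sub_apply, sub_mul, Finset.sum_sub_distrib]

private theorem mvec_pr {v : EN N} (hv : ‖v‖ = 1) : mvec v (pr v) = v := by
  ext i
  have h1 := inner_self_unit hv
  rw [inner_eq] at h1
  simp only [mvec, pr, hv]
  calc ∑ j, v i * (starRingEnd ℂ) (v j) / ((1 ^ 2 : ℝ) : ℂ) * v j = v i * ∑ j, (starRingEnd ℂ) (v j) * v j := by
        rw [Finset.mul_sum]
        refine Finset.sum_congr rfl fun j _ => ?_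
        norm_num
        ring
    _ = v i := by rw [h1, mul_one]

/-- `nv v m` is near `v` if `m` is near `pr v`, uniformly in `v` -/
theorem nv_near {η : ℝ} (hη : 0 < η) : ∃ ε : ℝ, 0 < ε ∧ ∀ v : EN N, ‖v‖ = 1 → ∀ m : MN N, dist m (pr v) ≤ ε → ‖nv v m - v‖ < η := by
  refine ⟨min (1 / 2) (η / 8), by positivity, ?_⟩
  intro v hv m hm
  have hm1 : dist m (pr v) ≤ 1 / 2 := hm.trans (min_le_left _ _)
  have hm2 : dist m (pr v) ≤ η / 8 := hm.trans (min_le_right _ _)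
  rw [dist_eq_norm] at hm1 hm2
  have h1 : ‖mvec v m - v‖ ≤ ‖m - pr v‖ := by
    have h2 := norm_mvec_le v (m - pr v)
    rw [← mvec_sub, mvec_pr hv, hv, mul_one] at h2
    exact h2
  have h3 : ‖(inner ℂ v (mvec v m) : ℂ) - 1‖ ≤ ‖m - pr v‖ := by
    have h4 : (inner ℂ v (mvec v m) : ℂ) - 1 = inner ℂ v (mvec v m - v) := by
      rw [inner_sub_right, inner_self_unit hv]
    rw [h4]
    refine (norm_inner_le_norm _ _).trans ?_
    rw [hv, one_mul]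
    exact h1
  have h5 : 1 / 2 ≤ ‖(inner ℂ v (mvec v m) : ℂ)‖ := by
    have h6 := norm_sub_norm_le (1 : ℂ) (inner ℂ v (mvec v m))
    rw [norm_one, norm_sub_rev] at h6
    linarith
  have h7 : (inner ℂ v (mvec v m) : ℂ) ≠ 0 := by
    intro h8
    rw [h8, norm_zero] at h5
    norm_num at h5
  have h9 : nv v m - v = (inner ℂ v (mvec v m) : ℂ)⁻¹ • ((mvec v m - v) - ((inner ℂ v (mvec v m) : ℂ) - 1) • v) := by
    rw [nv_eq, sub_smul, one_smul, sub_sub_sub_cancel_right, smul_sub, inv_smul_smul₀ h7]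
  rw [h9, norm_smul, norm_inv]
  have h10 : ‖(mvec v m - v) - ((inner ℂ v (mvec v m) : ℂ) - 1) • v‖ ≤ η / 8 + η / 8 := by
    refine (norm_sub_le _ _).trans (add_le_add (h1.trans hm2) ?_)
    rw [norm_smul, hv, mul_one]
    exact h3.trans hm2
  have h11 : ‖(inner ℂ v (mvec v m) : ℂ)‖⁻¹ ≤ 2 := by
    rw [inv_le_comm₀ (by linarith) (by norm_num)]
    linarith
  calc ‖(inner ℂ v (mvec v m) : ℂ)‖⁻¹ * ‖(mvec v m - v) - ((inner ℂ v (mvec v m) : ℂ) - 1) • v‖ ≤ 2 * (η / 8 + η / 8) :=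
        mul_le_mul h11 h10 (norm_nonneg _) (by norm_num)
    _ < η := by linarith

/-- the chart for `pr x` near `pr v` -/
theorem inner_near {η : ℝ} (hη : 0 < η) : ∃ ε : ℝ, 0 < ε ∧ ∀ v : EN N, ‖v‖ = 1 → ∀ x : EN N, x ≠ 0 → dist (pr x) (pr v) ≤ ε →
    inner ℂ v x ≠ (0 : ℂ) ∧ (1 - η) * ‖x‖ ≤ ‖(inner ℂ v x : ℂ)‖ ∧ ‖(inner ℂ v x : ℂ)‖ ≤ ‖x‖ := by
  refine ⟨min 1 η, by positivity, ?_⟩
  intro v hv x hx hd
  have hv0 : v ≠ 0 := by
    rintro rfl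
    rw [norm_zero] at hv
    exact zero_ne_one hv
  have hd1 : dist (pr x) (pr v) ≤ 1 := hd.trans (min_le_left _ _)
  have hd2 : dist (pr x) (pr v) ≤ η := hd.trans (min_le_right _ _)
  have hd0 : 0 ≤ dist (pr x) (pr v) := dist_nonneg
  have hx0 : 0 < ‖x‖ := norm_pos_iff.mpr hx
  have h1 := Pool.Agent.H62.EF.norm_inner_sq hv0 hx
  rw [hv, one_pow, one_mul, dist_comm] at h1
  set t : ℝ := 1 - dist (pr x) (pr v) ^ 2 / 2 with ht
  have ht1 : t ≤ 1 := by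
    have : 0 ≤ dist (pr x) (pr v) ^ 2 := by positivity
    linarith
  have ht2 : 1 / 2 ≤ t := by nlinarith
  have ht3 : 1 - η ≤ t := by nlinarith
  have h2 : t * ‖x‖ ≤ ‖(inner ℂ v x : ℂ)‖ := by
    refine le_of_sq_le_sq ?_ (norm_nonneg _)
    rw [h1]
    nlinarith [mul_nonneg (sub_nonneg.mpr ht1) (by positivity : 0 ≤ ‖x‖ ^ 2 * t)]
  have h3 : 0 < ‖(inner ℂ v x : ℂ)‖ := lt_of_lt_of_le (by positivity) h2
  refine ⟨norm_pos_iff.mp h3, (mul_le_mul_of_nonneg_right ht3 hx0.le).trans h2, ?_⟩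
  have h4 := norm_inner_le_norm (𝕜 := ℂ) v x
  rwa [hv, one_mul] at h4

end Pool.Agent.G3.R

end

section

/-!
# TG Cp: uniform charts, the constants

Compare `Pool/Agent/H62/EL/Cp.lean`; here everything is about points of the fibres over `Gd D δ` (all fibres over `y ∉ D` are smooth: `Geo.sub`).

`cap_of_small`: as in `EL/Cp`: by `near_of_pr` (the cone `{x ∈ χ.U : ‖χ.q x‖ < 1}` is a neighbourhood of `x₀`) there is `r < η` such that `x ∈ X`, `dist (pr x) (pr x₀) ≤ r` implies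
`x ∈ χ.U`, `‖χ.q x‖ ≤ 1`; for `y ∈ closedBall y₀ r`, `u x - y ∈ Λ`: `ms y₀ ρ (χ.q x) - y ∈ Λ` has norm `< η + r ≤ 2η`, so it is `0`.

`exists_cap`: suppose not: for every `n` there are `y_n ∈ Gd D δ`, `m_n ∈ Fb X Λ u y_n` without such a chart for `r = 1/(n+1)`.  Translate by `Λ` (`Lat.cpt`, `Geo.gd_add`, `fb_add`; the chart for
`y_n - l` with `c + l` instead of `c` is a chart for `y_n`: `Str`, `Cap` are invariant): `y_n` is bounded.  Along `𝒰 = hyperfilter ℕ` (or a subsequence) `y_n → y ∈ Gd D δ`, `m_n → m` (`isCompact_pr`), `m ∈ Fb X Λ u y`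
(`fb_lim`): `m = pr x`; `y ∉ D` (`gd_notMem`), `exists_str_chart` (`Geo.sub`; `2η` smaller than the norms of the nonzero elements of `Λ`) and `cap_of_small`: `Cap .. y (pr x) r`; so `Cap .. y_n m_n (r/2)` as soon as
`‖y_n - y‖ ≤ r/2`, `dist m_n m ≤ r/2` and then also with `1/(n+1) ≤ r/2` (`Cap.mono`): contradiction.

`exists_irel`: suppose not: `y_n ∈ Gd D δ`, `m_n, m'_n ∈ Fb .. y_n`, `dist m_n m'_n ≤ 1/(n+1)`, and a form `α_n` without `v`.  Prove first the statement for the relation without `α` (charts, points, distances; it is invariant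
under translation of `y` by `Λ`) and add the primitive at the end by `exists_prim`.  Limits as above: `m_n, m'_n → m = pr x`, a straight chart `χ` at `x` with `Cap` of radius `r`: for large `n` lifts `x_n, x'_n` of `m_n`, `m'_n` are in `χ.U`,
`p_n = χ.q x_n`, `p'_n = χ.q x'_n` tend to `χ.q x = 0` (`fb_lim`), `ms c ρ p_n = y_n = ms c ρ p'_n`, and `dist (pr (χ.σ (p_n + θ (p'_n - p_n)))) m_n ≤ ε` for large `n` by continuity at `0`.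

`exists_cst`: `δ > 0`: `r` from `exists_cap`, `ε = min η (r / 3)`, `ε₀` from `exists_irel`, replaced by `min ε₀ η`.
-/

set_option autoImplicit false

open Topology Filter Metric

namespace Pool.Agent.TG

open Pool.Agent.H36.BP (EN fs wd)
open Pool.Agent.H14.PP (IsCone CurveAt Tan)
open Pool.Agent.H62.EF (MN pr)
open Pool.Agent.AD (Vd Chart Charts IsGerm)

variable {N k : ℕ}

variable {X : Set (EN N)} {Λ : AddSubgroup (Vd (k + 1))} {u : EN N → Vd (k + 1)} {D B : Set (Vd (k + 1))}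

private theorem cp_q_small (hX : IsCone X) {χ : Chart (k + 2) X} {x₀ : EN N} (hx₀ : x₀ ∈ X) (hU : x₀ ∈ χ.U) (hq : χ.q x₀ = 0)
    {s : ℝ} (hs : 0 < s) : ∃ d : ℝ, 0 < d ∧ ∀ x ∈ X, dist (pr x) (pr x₀) < d → x ∈ χ.U ∧ ‖χ.q x‖ < s := by
  have hx0 : x₀ ≠ 0 := ne_zero hX hx₀
  have hV : {x | x ∈ χ.U ∧ ‖χ.q x‖ < s} ∈ 𝓝 x₀ := by
    have h1 : ∀ᶠ x in 𝓝 x₀, x ∈ χ.U := χ.isOpen_U.mem_nhds hU
    have h2 : ∀ᶠ x in 𝓝 x₀, ‖χ.q x‖ < s := by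
      have hc : ContinuousAt (fun x => ‖χ.q x‖) x₀ := (χ.q_an x₀ hU).continuousAt.norm
      have h3 : (fun x => ‖χ.q x‖) x₀ < s := by simpa [hq] using hs
      exact hc.tendsto.eventually_lt_const h3
    exact h1.and h2
  obtain ⟨d, hd, h⟩ := Pool.Agent.H62.EF.near_of_pr hx0 hV
  refine ⟨d, hd, fun x hx hxd => ?_⟩
  obtain ⟨c, hc, hcU, hcq⟩ := h x (ne_zero hX hx) hxd
  have e : x = c⁻¹ • (c • x) := by rw [smul_smul, inv_mul_cancel₀ hc, one_smul]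
  have hxU : x ∈ χ.U := by rw [e]; exact χ.smul_U _ hcU _ (inv_ne_zero hc)
  refine ⟨hxU, ?_⟩
  rw [← χ.q_smul x hxU c hc]
  exact hcq

private theorem cp_pr_q {χ : Chart (k + 2) X} {x : EN N} (hx : x ∈ X) (hU : x ∈ χ.U) : pr (χ.σ (χ.q x)) = pr x := by
  obtain ⟨hb, c, hc, e⟩ := χ.surj x hx hU
  conv_rhs => rw [e]
  exact (Pool.Agent.H62.EF.pr_smul _ hc).symm

private theorem cp_ms_add (c l : Vd (k + 1)) (ρ : ℝ) (p : Vd (k + 2)) : ms (c + l) ρ p = ms c ρ p + l := by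
  unfold ms
  abel

/-- translation of the value of `u` -/
private theorem cp_str_add {χ : Chart (k + 2) X} {c : Vd (k + 1)} {ρ : ℝ} (h : Str Λ u χ c ρ) {l : Vd (k + 1)} (hl : l ∈ Λ) :
    Str Λ u χ (c + l) ρ where
  pos := h.pos
  lift := fun p hp => by
    have h1 := Λ.sub_mem (h.lift p hp) hl
    rw [cp_ms_add, ← sub_sub]
    exact h1

private theorem cp_cap_move {χ : Chart (k + 2) X} {c : Vd (k + 1)} {ρ : ℝ} {y₀ : Vd (k + 1)} {m₀ : MN N} {r : ℝ} (h : Cap Λ u χ c ρ y₀ m₀ r)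
    {y₁ : Vd (k + 1)} {m₁ : MN N} {r₁ : ℝ} (hr : r₁ ≤ r / 2) (hz : dist y₁ y₀ ≤ r / 2) (hy : dist m₁ m₀ ≤ r / 2) : Cap Λ u χ c ρ y₁ m₁ r₁ where
  str := h.str
  cap := fun y hy' x hx hxz hd => by
    refine h.cap y ?_ x hx hxz ?_
    · rw [mem_closedBall] at hy' ⊢
      have := dist_triangle y y₁ y₀
      linarith
    · have := dist_triangle (pr x) m₁ m₀
      linarith

theorem cap_of_small (hX : IsCone X) (hu : TMap X Λ u) {x₀ : EN N} (hx₀ : x₀ ∈ X) {y₀ : Vd (k + 1)} (hy₀ : u x₀ - y₀ ∈ Λ)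
    {χ : Chart (k + 2) X} {ρ η : ℝ} (hm : Str Λ u χ y₀ ρ) (hU : x₀ ∈ χ.U) (hq : χ.q x₀ = 0) (hinj : ∀ l ∈ Λ, ‖l‖ < 2 * η → l = 0)
    (hr : ∀ p ∈ ball (0 : Vd (k + 2)) 2, ‖ms y₀ ρ p - y₀‖ < η) : ∃ r : ℝ, 0 < r ∧ Cap Λ u χ y₀ ρ y₀ (pr x₀) r := by
  obtain ⟨d, hd, h⟩ := cp_q_small hX hx₀ hU hq (zero_lt_one' ℝ)
  have hη : 0 < η := lt_of_le_of_lt (norm_nonneg _) (hr 0 (mem_ball_self two_pos))
  have hr0 : 0 < min (d / 2) (η / 2) := lt_min (by linarith) (by linarith)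
  refine ⟨min (d / 2) (η / 2), hr0, hm, fun y hy x hx hxy hxd => ?_⟩
  have h1 : min (d / 2) (η / 2) ≤ d / 2 := min_le_left _ _
  have h2 : min (d / 2) (η / 2) ≤ η / 2 := min_le_right _ _
  obtain ⟨hxU, hxq⟩ := h x hx (by linarith)
  refine ⟨hxU, ?_, ?_⟩
  · rw [mem_closedBall, dist_zero_right]
    exact hxq.le
  · obtain ⟨hb, c, hc, e⟩ := χ.surj x hx hxU
    have h3 : u x - u (χ.σ (χ.q x)) ∈ Λ := by
      have h3' := hu.smul _ (χ.σ_mem _ hb).1 c hc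
      rw [← e] at h3'
      exact h3'
    have h4 := hm.lift _ hb
    have h5 : ms y₀ ρ (χ.q x) - y ∈ Λ := by
      have h6 := Λ.sub_mem (Λ.sub_mem hxy h3) h4
      have e2 : ms y₀ ρ (χ.q x) - y =
          u x - y - (u x - u (χ.σ (χ.q x))) - (u (χ.σ (χ.q x)) - ms y₀ ρ (χ.q x)) := by abel
      rw [e2]
      exact h6
    have h7 : ‖ms y₀ ρ (χ.q x) - y‖ < 2 * η := by
      have e3 : ms y₀ ρ (χ.q x) - y = (ms y₀ ρ (χ.q x) - y₀) - (y - y₀) := by abel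
      have h8 := norm_sub_le (ms y₀ ρ (χ.q x) - y₀) (y - y₀)
      have h9 := hr _ hb
      rw [mem_closedBall, dist_eq_norm] at hy
      rw [e3]
      linarith
    exact sub_eq_zero.1 (hinj _ h5 h7)

/-- a straight chart at a point of a smooth fibre -/
private theorem cp_chart (G : Geo X Λ u D B) {y₀ : Vd (k + 1)} (hy₀ : y₀ ∉ D) {m₀ : MN N} (hm₀ : m₀ ∈ Fb X Λ u y₀) :
    ∃ (x₀ : EN N) (χ : Chart (k + 2) X) (ρ r : ℝ), x₀ ∈ X ∧ pr x₀ = m₀ ∧ x₀ ∈ χ.U ∧ χ.q x₀ = 0 ∧ 0 < r ∧ Cap Λ u χ y₀ ρ y₀ m₀ r := by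
  obtain ⟨x₀, hx₀, hpr, hux⟩ := hm₀
  obtain ⟨d, hd, hdis⟩ := G.lat.disc
  obtain ⟨χ, ρ, hU, hq, hm, hr⟩ := exists_str_chart G.cone G.tor (G.sub y₀ hy₀ x₀ hx₀ hux) (η := d / 2) (by positivity)
  obtain ⟨r, hr1, hcap⟩ := cap_of_small G.cone G.tor hx₀ hux hm hU hq
    (fun l hl hl' => hdis l hl (by linarith)) (fun p hp => (hr p hp).2)
  rw [hpr] at hcap
  exact ⟨x₀, χ, ρ, r, hx₀, hpr, hU, hq, hr1, hcap⟩

/-- every point of a smooth fibre has a chart -/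
theorem exists_cap_at (G : Geo X Λ u D B) {y₀ : Vd (k + 1)} (hy₀ : y₀ ∉ D) {m₀ : MN N} (hm₀ : m₀ ∈ Fb X Λ u y₀) :
    ∃ (χ : Chart (k + 2) X) (ρ r : ℝ), 0 < r ∧ Cap Λ u χ y₀ ρ y₀ m₀ r := by
  obtain ⟨x₀, χ, ρ, r, -, -, -, -, hr, hc⟩ := cp_chart G hy₀ hm₀
  exact ⟨χ, ρ, r, hr, hc⟩

/-- limits along an ultrafilter -/
private theorem cp_limit (G : Geo X Λ u D B) {δ R : ℝ} (𝒰 : Ultrafilter ℕ) (y : ℕ → Vd (k + 1))
    (hy : ∀ n, y n ∈ Gd D δ) (hR : ∀ n, ‖y n‖ ≤ R) (m : ℕ → MN N) (hm : ∀ n, m n ∈ Fb X Λ u (y n)) :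
    ∃ (w : Vd (k + 1)) (m₀ : MN N), w ∈ Gd D δ ∧ m₀ ∈ Fb X Λ u w ∧ Tendsto y 𝒰 (𝓝 w) ∧ Tendsto m 𝒰 (𝓝 m₀) := by
  have hK : IsCompact (closedBall (0 : Vd (k + 1)) R ∩ Gd D δ) := (isCompact_closedBall 0 R).inter_right (gd_closed D δ)
  have hle : ((𝒰.map y : Ultrafilter (Vd (k + 1))) : Filter (Vd (k + 1))) ≤ 𝓟 (closedBall (0 : Vd (k + 1)) R ∩ Gd D δ) := by
    rw [le_principal_iff]
    exact Filter.mem_map.2 (Filter.univ_mem' fun n => ⟨by rw [mem_closedBall, dist_zero_right]; exact hR n, hy n⟩)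
  obtain ⟨w, hw, hlim⟩ := hK.ultrafilter_le_nhds (𝒰.map y) hle
  have hle2 : ((𝒰.map m : Ultrafilter (MN N)) : Filter (MN N)) ≤ 𝓟 (pr '' X) := by
    rw [le_principal_iff]
    refine Filter.mem_map.2 (Filter.univ_mem' fun n => ?_)
    obtain ⟨x, hx, hxm, -⟩ := hm n
    exact ⟨x, hx, hxm⟩
  obtain ⟨m₀, -, hlim2⟩ := (Pool.Agent.H62.EF.isCompact_pr G.cone).ultrafilter_le_nhds (𝒰.map m) hle2
  have hyw : Tendsto y 𝒰 (𝓝 w) := hlim
  have hmw : Tendsto m 𝒰 (𝓝 m₀) := hlim2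
  exact ⟨w, m₀, hw.2, (fb_lim G.cone G.lat G.tor hmw hyw (Filter.Eventually.of_forall hm)).1, hyw, hmw⟩

private theorem cp_eps (𝒰 : Ultrafilter ℕ) (h𝒰 : (𝒰 : Filter ℕ) ≤ atTop) {s : ℝ} (hs : 0 < s) :
    ∀ᶠ n : ℕ in (𝒰 : Filter ℕ), 1 / ((n : ℝ) + 1) ≤ s := by
  have h := tendsto_one_div_add_atTop_nhds_zero_nat (𝕜 := ℝ)
  exact h𝒰 (h.eventually_le_const hs)

private theorem cp_cap_bdd (G : Geo X Λ u D B) {δ : ℝ} (R : ℝ) (hδ : 0 < δ) : ∃ r : ℝ, 0 < r ∧ ∀ y₀ ∈ Gd D δ, ‖y₀‖ ≤ R → ∀ m ∈ Fb X Λ u y₀,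
    ∃ (χ : Chart (k + 2) X) (c : Vd (k + 1)) (ρ : ℝ), Cap Λ u χ c ρ y₀ m r := by
  by_contra hcon
  push Not at hcon
  choose y hy hR m hm hno using fun n : ℕ => hcon (1 / ((n : ℝ) + 1)) (by positivity)
  have h𝒰 : ((hyperfilter ℕ : Ultrafilter ℕ) : Filter ℕ) ≤ atTop := Nat.hyperfilter_le_atTop
  obtain ⟨w, m₀, hw, hm₀, hyw, hmw⟩ := cp_limit G (hyperfilter ℕ) y hy hR m hm
  obtain ⟨x₀, χ, ρ, r, -, -, -, -, hr, hcap⟩ := cp_chart G (gd_notMem hδ hw) hm₀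
  have h1 : ∀ᶠ n in ((hyperfilter ℕ : Ultrafilter ℕ) : Filter ℕ), dist (y n) w < r / 2 :=
    hyw.eventually (ball_mem_nhds w (half_pos hr))
  have h2 : ∀ᶠ n in ((hyperfilter ℕ : Ultrafilter ℕ) : Filter ℕ), dist (m n) m₀ < r / 2 :=
    hmw.eventually (ball_mem_nhds m₀ (half_pos hr))
  have h3 := cp_eps (hyperfilter ℕ) h𝒰 (half_pos hr)
  obtain ⟨n, hn1, hn2, hn3⟩ := (h1.and (h2.and h3)).exists
  exact hno n χ w ρ (cp_cap_move hcap hn3 hn1.le hn2.le)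

theorem exists_cap (G : Geo X Λ u D B) {δ : ℝ} (hδ : 0 < δ) : ∃ r : ℝ, 0 < r ∧ ∀ y₀ ∈ Gd D δ, ∀ m ∈ Fb X Λ u y₀,
    ∃ (χ : Chart (k + 2) X) (c : Vd (k + 1)) (ρ : ℝ), Cap Λ u χ c ρ y₀ m r := by
  obtain ⟨R, -, hR⟩ := G.lat.cpt
  obtain ⟨r, hr, h⟩ := cp_cap_bdd G R hδ
  refine ⟨r, hr, fun y₀ hy₀ m hm => ?_⟩
  obtain ⟨l, hl, hyl⟩ := hR y₀
  have h1 : y₀ - l ∈ Gd D δ := by
    rw [sub_eq_add_neg]
    exact (G.gd_add δ (Λ.neg_mem hl)).2 hy₀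
  have h2 : m ∈ Fb X Λ u (y₀ - l) := by
    rw [sub_eq_add_neg, fb_add (Λ.neg_mem hl)]
    exact hm
  obtain ⟨χ, c, ρ, hc⟩ := h (y₀ - l) h1 hyl m h2
  refine ⟨χ, c + l, ρ, cp_str_add hc.str hl, fun y hy x hx hxy hd => ?_⟩
  have h3 := hc.cap (y - l) ?_ x hx ?_ hd
  · refine ⟨h3.1, h3.2.1, ?_⟩
    rw [cp_ms_add, h3.2.2]
    abel
  · rw [mem_closedBall, dist_eq_norm] at hy ⊢
    have e : y - l - (y₀ - l) = y - y₀ := by abel
    rw [e]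
    exact hy
  · have e : u x - (y - l) = (u x - y) + l := by abel
    rw [e]
    exact Λ.add_mem hxy hl

/-- the relation without the form -/
private def cpRel (X : Set (EN N)) (Λ : AddSubgroup (Vd (k + 1))) (u : EN N → Vd (k + 1)) (ε : ℝ) (y : Vd (k + 1)) (m m' : MN N) : Prop :=
  ∃ (χ : Chart (k + 2) X) (c : Vd (k + 1)) (ρ : ℝ) (p p' : Vd (k + 2)), Str Λ u χ c ρ ∧
    p ∈ ball (0 : Vd (k + 2)) 2 ∧ p' ∈ ball (0 : Vd (k + 2)) 2 ∧ ms c ρ p = y ∧ ms c ρ p' = y ∧ pr (χ.σ p) = m ∧ pr (χ.σ p') = m' ∧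
    (∀ θ ∈ Set.Icc (0 : ℝ) 1, dist (pr (χ.σ (p + (θ : ℂ) • (p' - p)))) m ≤ ε)

private theorem cp_rel_bdd (G : Geo X Λ u D B) {δ ε : ℝ} (R : ℝ) (hδ : 0 < δ) (hε : 0 < ε) : ∃ ε₀ : ℝ, 0 < ε₀ ∧
    ∀ y ∈ Gd D δ, ‖y‖ ≤ R → ∀ m ∈ Fb X Λ u y, ∀ m' ∈ Fb X Λ u y, dist m m' ≤ ε₀ → cpRel X Λ u ε y m m' := by
  by_contra hcon
  push Not at hcon
  choose y hy hR m hm m' hm' hmm hno using fun n : ℕ => hcon (1 / ((n : ℝ) + 1)) (by positivity)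
  have h𝒰 : ((hyperfilter ℕ : Ultrafilter ℕ) : Filter ℕ) ≤ atTop := Nat.hyperfilter_le_atTop
  obtain ⟨w, m₀, hw, hm₀, hyw, hmw⟩ := cp_limit G (hyperfilter ℕ) y hy hR m hm
  obtain ⟨x₀, χ, ρ, r, hx₀, hpr, hU, hq, hr, hcap⟩ := cp_chart G (gd_notMem hδ hw) hm₀
  -- continuity of the chart at `0`
  have hσ0 : pr (χ.σ 0) = m₀ := by
    rw [← hpr, ← cp_pr_q hx₀ hU, hq]
  have h0 : (0 : Vd (k + 2)) ∈ ball (0 : Vd (k + 2)) 2 := mem_ball_self two_pos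
  have hcont : ContinuousAt (fun p => pr (χ.σ p)) (0 : Vd (k + 2)) := by
    have h1 : ContinuousAt pr (χ.σ 0) := Pool.Agent.H62.EF.continuousAt_pr (ne_zero G.cone (χ.σ_mem 0 h0).1)
    exact ContinuousAt.comp (f := χ.σ) h1 (χ.σ_an 0 h0).continuousAt
  obtain ⟨s₀, hs₀, hs⟩ := Metric.continuousAt_iff.1 hcont (ε / 2) (half_pos hε)
  rw [hσ0] at hs
  have hs2 : 0 < min s₀ 2 := lt_min hs₀ two_pos
  obtain ⟨d, hd, hqs⟩ := cp_q_small G.cone hx₀ hU hq hs2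
  rw [hpr] at hqs
  set e₀ : ℝ := min (min r d) ε / 4 with he₀
  have hm0 : 0 < e₀ := by
    have : 0 < min (min r d) ε := lt_min (lt_min hr hd) hε
    linarith
  have hmr : 4 * e₀ ≤ r := by
    have := (min_le_left (min r d) ε).trans (min_le_left r d)
    linarith
  have hmd : 4 * e₀ ≤ d := by
    have := (min_le_left (min r d) ε).trans (min_le_right r d)
    linarith
  have hmε : 4 * e₀ ≤ ε := by
    have := min_le_right (min r d) ε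
    linarith
  have h1 : ∀ᶠ n in ((hyperfilter ℕ : Ultrafilter ℕ) : Filter ℕ), dist (y n) w < e₀ := hyw.eventually (ball_mem_nhds w hm0)
  have h2 : ∀ᶠ n in ((hyperfilter ℕ : Ultrafilter ℕ) : Filter ℕ), dist (m n) m₀ < e₀ := hmw.eventually (ball_mem_nhds m₀ hm0)
  have h3 := cp_eps (hyperfilter ℕ) h𝒰 hm0
  obtain ⟨n, hn1, hn2, hn3⟩ := (h1.and (h2.and h3)).exists
  refine hno n ?_
  obtain ⟨x, hx, hprx, hux⟩ := hm n
  obtain ⟨x', hx', hprx', hux'⟩ := hm' n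
  have hd1 : dist (pr x) m₀ < e₀ := by rw [hprx]; exact hn2
  have hd2 : dist (pr x') m₀ < 2 * e₀ := by
    rw [hprx']
    have h4 := dist_triangle (m' n) (m n) m₀
    have h5 : dist (m' n) (m n) ≤ 1 / ((n : ℝ) + 1) := by rw [dist_comm]; exact hmm n
    linarith
  have hzc : y n ∈ closedBall w r := by rw [mem_closedBall]; linarith
  obtain ⟨hU1, hq1, hc1⟩ := hcap.cap (y n) hzc _ hx hux (by linarith)
  obtain ⟨hU2, hq2, hc2⟩ := hcap.cap (y n) hzc _ hx' hux' (by linarith)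
  have hs1 := (hqs _ hx (by linarith)).2
  have hs2' := (hqs _ hx' (by linarith)).2
  refine ⟨χ, w, ρ, χ.q x, χ.q x', hcap.str, (χ.surj _ hx hU1).1, (χ.surj _ hx' hU2).1, hc1, hc2, ?_, ?_, ?_⟩
  · rw [cp_pr_q hx hU1, hprx]
  · rw [cp_pr_q hx' hU2, hprx']
  · intro θ hθ
    have hmem : χ.q x + (θ : ℂ) • (χ.q x' - χ.q x) ∈ ball (0 : Vd (k + 2)) (min s₀ 2) := by
      have e : χ.q x + (θ : ℂ) • (χ.q x' - χ.q x) = (1 - θ) • χ.q x + θ • χ.q x' := by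
        have e1 : ∀ v : Vd (k + 2), (θ : ℂ) • v = θ • v := fun v => by
          ext i
          simp
        rw [e1, smul_sub, sub_smul, one_smul]
        abel
      rw [e]
      exact (convex_ball (0 : Vd (k + 2)) (min s₀ 2)) (by rw [mem_ball, dist_zero_right]; exact hs1)
        (by rw [mem_ball, dist_zero_right]; exact hs2') (by linarith [hθ.2]) hθ.1 (by ring)
    have h6 := hs (lt_of_lt_of_le (mem_ball.1 hmem) (min_le_left _ _))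
    have h7 := dist_triangle (pr (χ.σ (χ.q x + (θ : ℂ) • (χ.q x' - χ.q x)))) m₀ (m n)
    rw [dist_comm m₀] at h7
    linarith

theorem exists_irel (G : Geo X Λ u D B) {δ ε : ℝ} (hδ : 0 < δ) (hε : 0 < ε) : ∃ ε₀ : ℝ, 0 < ε₀ ∧
    ∀ y ∈ Gd D δ, ∀ m ∈ Fb X Λ u y, ∀ m' ∈ Fb X Λ u y, dist m m' ≤ ε₀ → ∀ α : VForm X Λ u, ∃ v, IRel α ε y m m' v := by
  obtain ⟨R, -, hR⟩ := G.lat.cpt
  obtain ⟨ε₀, hε₀, h⟩ := cp_rel_bdd G R hδ hε
  refine ⟨ε₀, hε₀, fun y hy m hm m' hm' hd α => ?_⟩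
  obtain ⟨l, hl, hyl⟩ := hR y
  have h1 : y - l ∈ Gd D δ := by
    rw [sub_eq_add_neg]
    exact (G.gd_add δ (Λ.neg_mem hl)).2 hy
  have h2 : ∀ m ∈ Fb X Λ u y, m ∈ Fb X Λ u (y - l) := by
    intro m hm
    rw [sub_eq_add_neg, fb_add (Λ.neg_mem hl)]
    exact hm
  obtain ⟨χ, c, ρ, p, p', hst, hp, hp', hc, hc', hpr, hpr', hθ⟩ := h (y - l) h1 hyl m (h2 m hm) m' (h2 m' hm') hd
  obtain ⟨A, hA⟩ := exists_prim α χ (cp_str_add hst hl)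
  exact ⟨_, χ, c + l, ρ, A, p, p', cp_str_add hst hl, hA, hp, hp', by rw [cp_ms_add, hc]; abel, by rw [cp_ms_add, hc']; abel, hpr, hpr', hθ, rfl⟩

theorem exists_cst (G : Geo X Λ u D B) {δ η : ℝ} (hδ : 0 < δ) (hη : 0 < η) : ∃ ε ε₀ : ℝ, ε ≤ η ∧ ε₀ ≤ η ∧ Cst X Λ u D δ ε ε₀ := by
  obtain ⟨r, hr, hcap⟩ := exists_cap G hδ
  have hε : 0 < min η (r / 3) := lt_min hη (by positivity)
  obtain ⟨ε₀, hε₀, hrel⟩ := exists_irel G hδ hε
  refine ⟨min η (r / 3), min ε₀ η, min_le_left _ _, min_le_right _ _, hδ, hε, lt_min hε₀ hη, ?_, ?_⟩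
  · intro y₀ hy₀ m hm
    obtain ⟨χ, c, ρ, hc⟩ := hcap y₀ hy₀ m hm
    exact ⟨χ, c, ρ, hc.mono (by have := min_le_right η (r / 3); linarith)⟩
  · intro y hy m hm m' hm' hd α
    exact hrel y hy m hm m' hm' (hd.trans (min_le_left _ _)) α

end Pool.Agent.TG

end
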