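import Pool.Agent.H94.G5T.M24
import Pool.Agent.H94.G5T.M55
import Pool.Agent.H94.G5T.M63

/-! The parts of this file: G3.R.PrmU_2, G4.A.Fch_1. -/

section

/-!
# G3 R PrmU: local primitives with uniform constants

As `PrmA`, with a uniform radius and `‖Ψ x‖ ≤ C exp (-c |y₀|²)`, for `y₀ ∈ Gd D δ`.  `UC`: a straight chart with constants `R`, `K` for the point `v` over `y₀`; `uc_base`: the straight chart at `(w, v₀)` works for all near points;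
`uc_unif`: uniform constants by compactness (bounded `y₀`, ultrafilter) and translation.  Bound: `‖A p‖ ≤ sup ‖tc α χ (ms c ρ)‖` (mean value inequality from `IsPrim.der`, `IsPrim.zero`) and
`‖tc α χ (ms c ρ) p‖ ≤ C₀ K ^ (k + 2) exp (-c₀ ‖ms c ρ p‖²)` by `Dec` and `VForm.det`, `‖ms c ρ p‖ ≥ ‖y₀‖ - K`.
-/

set_option autoImplicit false

open Topology Filter Metric

namespace Pool.Agent.G3.R

open Pool.Agent.H36.BP (EN fs wd)
open Pool.Agent.H14.PP (IsCone CurveAt Tan)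
open Pool.Agent.H62.EF (MN pr)
open Pool.Agent.AD (Vd Chart Charts IsGerm)
open Pool.Agent.TG
open Pool.Agent.G3.C (Gc nv nd nv_pr)
open Pool.Agent.G3.A

variable {N k : ℕ} {X : Set (EN N)} {Λ : AddSubgroup (Vd (k + 1))} {u : EN N → Vd (k + 1)} {D B Bad : Set (Vd (k + 1))} {a : Vd (k + 1)}

/-- the straight chart at a point of a smooth fibre works for the near points -/
theorem uc_base (G : Geo X Λ u D B) {w : Vd (k + 1)} (hw : w ∉ D) {v₀ : EN N} (hv₀ : v₀ ∈ X) (hu : u v₀ - w ∈ Λ) :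
    ∃ (χ : Chart (k + 2) X) (ρ R₀ K : ℝ), v₀ ∈ χ.U ∧ χ.q v₀ = 0 ∧ 0 < R₀ ∧ ∀ y₀ : Vd (k + 1), ‖y₀ - w‖ < R₀ → ∀ v : EN N, ‖v - v₀‖ < R₀ →
      UC Λ u χ w ρ y₀ v R₀ K := by
  obtain ⟨d, hd, hdis⟩ := G.lat.disc
  obtain ⟨χ, ρ, hU, hq, hm, hr⟩ := exists_str_chart G.cone G.tor (G.sub w hw v₀ hv₀ hu) (η := d / 2) (by positivity)
  obtain ⟨r, hr0, hcap⟩ := cap_of_small G.cone G.tor hv₀ hu hm hU hq
    (fun l hl hl' => hdis l hl (by linarith)) (fun p hp => (hr p hp).2)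
  -- continuity of the chart at `0`
  have hσ0 : pr (χ.σ 0) = pr v₀ := by
    rw [← prmu_pr_q hv₀ hU, hq]
  have h0 : (0 : Vd (k + 2)) ∈ ball (0 : Vd (k + 2)) 2 := mem_ball_self two_pos
  have hcont : ContinuousAt (fun p => pr (χ.σ p)) (0 : Vd (k + 2)) := by
    have h1 : ContinuousAt pr (χ.σ 0) := Pool.Agent.H62.EF.continuousAt_pr (ne_zero G.cone (χ.σ_mem 0 h0).1)
    exact ContinuousAt.comp (f := χ.σ) h1 (χ.σ_an 0 h0).continuousAt
  obtain ⟨s₀, hs₀, hs⟩ := Metric.continuousAt_iff.1 hcont (r / 16) (by positivity)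
  rw [hσ0] at hs
  set s : ℝ := min s₀ 1 with hsdef
  have hs1 : 0 < s := lt_min hs₀ one_pos
  have hss : s ≤ s₀ := min_le_left _ _
  have hs2 : s ≤ 1 := min_le_right _ _
  have hO : {x : EN N | x ∈ χ.U ∧ ‖χ.q x‖ < s ∧ dist (pr x) (pr v₀) < r / 16} ∈ 𝓝 v₀ := by
    have h1 : ∀ᶠ x in 𝓝 v₀, x ∈ χ.U := χ.isOpen_U.mem_nhds hU
    have h2 : ∀ᶠ x in 𝓝 v₀, ‖χ.q x‖ < s := by
      have hc : ContinuousAt (fun x => ‖χ.q x‖) v₀ := (χ.q_an v₀ hU).continuousAt.norm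
      have h3 : (fun x => ‖χ.q x‖) v₀ < s := by simpa [hq] using hs1
      exact hc.tendsto.eventually_lt_const h3
    have h3 : ∀ᶠ x in 𝓝 v₀, dist (pr x) (pr v₀) < r / 16 :=
      (Pool.Agent.H62.EF.continuousAt_pr (ne_zero G.cone hv₀)).eventually (ball_mem_nhds _ (by positivity))
    exact h1.and (h2.and h3)
  obtain ⟨R₁, hR₁, hball⟩ := Metric.mem_nhds_iff.1 hO
  set R₀ : ℝ := min (R₁ / 2) (r / 4) with hR₀def
  have hR₀ : 0 < R₀ := lt_min (by positivity) (by positivity)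
  have hR₀1 : R₀ ≤ R₁ / 2 := min_le_left _ _
  have hR₀2 : R₀ ≤ r / 4 := min_le_right _ _
  -- the bounds on the closed ball
  have hsub : closedBall (0 : Vd (k + 2)) 1 ⊆ ball 0 2 := closedBall_subset_ball one_lt_two
  have hbd : ∀ i : Fin (k + 2), ∃ C : ℝ, ∀ p ∈ closedBall (0 : Vd (k + 2)) 1, ‖fderiv ℂ χ.σ p (Pi.single i 1)‖ / ‖χ.σ p‖ ≤ C := by
    intro i
    have hc1 : ContinuousOn (fun p => ‖fderiv ℂ χ.σ p (Pi.single i 1)‖ / ‖χ.σ p‖) (closedBall (0 : Vd (k + 2)) 1) := by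
      refine ContinuousOn.div ?_ ?_ ?_
      · exact fun p hp => (((χ.σ_an p (hsub hp)).fderiv.continuousAt.clm_apply continuousAt_const).norm).continuousWithinAt
      · exact fun p hp => ((χ.σ_an p (hsub hp)).continuousAt.norm).continuousWithinAt
      · exact fun p hp => norm_ne_zero_iff.2 (χ.sigma_ne_zero G.cone (hsub hp))
    obtain ⟨C, hC⟩ := (isCompact_closedBall (0 : Vd (k + 2)) 1).exists_bound_of_continuousOn hc1
    exact ⟨C, fun p hp => (le_abs_self _).trans (hC p hp)⟩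
  choose C hC using hbd
  have hCs : ∀ i, C i ≤ ∑ j, |C j| := fun i => (le_abs_self _).trans (Finset.single_le_sum (f := fun j => |C j|) (fun j _ => abs_nonneg _) (Finset.mem_univ i))
  set K : ℝ := max (max (∑ j, |C j|) ρ⁻¹) (d / 2 + R₀) with hKdef
  have hK1 : ∑ j, |C j| ≤ K := (le_max_left _ _).trans (le_max_left _ _)
  have hK2 : ρ⁻¹ ≤ K := (le_max_right _ _).trans (le_max_left _ _)
  have hK3 : d / 2 + R₀ ≤ K := le_max_right _ _
  refine ⟨χ, ρ, R₀, K, hU, hq, hR₀, fun y₀ hy₀ v hv => ?_⟩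
  have hx2 : ∀ x ∈ ball v R₀, x ∈ χ.U ∧ ‖χ.q x‖ < s ∧ dist (pr x) (pr v₀) < r / 16 := by
    intro x hx
    refine hball ?_
    rw [mem_ball] at hx ⊢
    have h1 := dist_triangle x v v₀
    rw [dist_eq_norm v v₀] at h1
    linarith
  have hy2 : ∀ y ∈ ball y₀ R₀, dist y w < r / 2 := by
    intro y hy
    rw [mem_ball] at hy
    have h1 := dist_triangle y y₀ w
    rw [dist_eq_norm y₀ w] at h1
    linarith
  refine ⟨hm, fun x hx => ?_, fun y hy x hX hx hxy => ?_, fun y hy x hX hx => ?_, fun p hp i => ?_, ?_, fun p hp => ?_⟩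
  · obtain ⟨h1, h2, -⟩ := hx2 x hx
    exact ⟨h1, by rw [mem_closedBall_zero_iff]; linarith⟩
  · obtain ⟨-, -, h3⟩ := hx2 x hx
    exact (hcap.cap y (by rw [mem_closedBall]; linarith [hy2 y hy]) x hX hxy (by linarith)).2.2
  · obtain ⟨h1, h2, h3⟩ := hx2 x hx
    refine ⟨r / 8, by positivity, ⟨hm, fun y' hy' x' hx' hxy' hd' => ?_⟩, fun x' hX' hx' θ hθ => ?_⟩
    · refine hcap.cap y' ?_ x' hx' hxy' ?_
      · rw [mem_closedBall] at hy' ⊢
        have := dist_triangle y' y w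
        linarith [hy2 y hy]
      · have := dist_triangle (pr x') (pr x) (pr v₀)
        linarith
    · obtain ⟨-, h2', -⟩ := hx2 x' hx'
      have hmem : χ.q x + (θ : ℂ) • (χ.q x' - χ.q x) ∈ ball (0 : Vd (k + 2)) s := by
        have e : χ.q x + (θ : ℂ) • (χ.q x' - χ.q x) = (1 - θ) • χ.q x + θ • χ.q x' := by
          have e1 : ∀ v : Vd (k + 2), (θ : ℂ) • v = θ • v := fun v => by
            ext i
            simp
          rw [e1, smul_sub, sub_smul, one_smul]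
          abel
        rw [e]
        exact (convex_ball (0 : Vd (k + 2)) s) (by rw [mem_ball, dist_zero_right]; exact h2)
          (by rw [mem_ball, dist_zero_right]; exact h2') (by linarith [hθ.2]) hθ.1 (by ring)
      have h6 := hs (lt_of_lt_of_le (mem_ball.1 hmem) hss)
      have h7 := dist_triangle (pr (χ.σ (χ.q x + (θ : ℂ) • (χ.q x' - χ.q x)))) (pr v₀) (pr x)
      rw [dist_comm (pr v₀)] at h7
      linarith
  · have h1 := hC i p hp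
    have h2 : 0 < ‖χ.σ p‖ := norm_pos_iff.2 (χ.sigma_ne_zero G.cone (hsub hp))
    rw [div_le_iff₀ h2] at h1
    exact h1.trans (mul_le_mul_of_nonneg_right ((hCs i).trans hK1) h2.le)
  · calc (1 : ℝ) = ρ⁻¹ * ρ := (inv_mul_cancel₀ hm.pos.ne').symm
      _ ≤ K * ρ := mul_le_mul_of_nonneg_right hK2 hm.pos.le
  · have h1 := (hr p (hsub hp)).2
    have e : ms w ρ p - y₀ = (ms w ρ p - w) - (y₀ - w) := by abel
    rw [e]
    have h2 := norm_sub_le (ms w ρ p - w) (y₀ - w)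
    linarith

/-- the primitive in a chart -/
theorem UC.prm (G : Geo X Λ u D B) {χ : Chart (k + 2) X} {c : Vd (k + 1)} {ρ : ℝ} {y₀ : Vd (k + 1)} {v : EN N} {R K : ℝ} (h : UC Λ u χ c ρ y₀ v R K)
    (hR : 0 < R) (hv : v ∈ X) (hv1 : ‖v‖ = 1) (huv : u v - y₀ ∈ Λ) {α : VForm X Λ u} {A : Vd (k + 2) → ℂ} (hA : IsPrim α χ (ms c ρ) A) :
    Prm α y₀ v R fun x => A (χ.q x) / (ρ : ℂ) ^ (k + 1) where
  pos := hR
  unit := hv1
  mem := hv
  lift := huv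
  diff := fun x hx => by
    obtain ⟨h1, h2⟩ := h.mem x hx
    have h3 : AnalyticAt ℂ A (χ.q x) := hA.an _ (closedBall_subset_ball one_lt_two h2)
    have h4 : DifferentiableAt ℂ (fun x => A (χ.q x)) x := h3.differentiableAt.comp x (χ.q_an x h1).differentiableAt
    simp only [div_eq_mul_inv]
    exact (h4.mul_const _).differentiableWithinAt
  jj := fun y hy x hX hx hxy x' hX' hx' hxy' => by
    obtain ⟨h1, h2⟩ := h.mem x hx
    obtain ⟨h1', h2'⟩ := h.mem x' hx'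
    obtain ⟨ε, hε, hcap, hpath⟩ := h.path y hy x hX hx
    refine jj_eq G.cone G.tor G.lat ⟨ε, hε, ⟨χ, c, ρ, hcap⟩, χ, c, ρ, A, χ.q x, χ.q x', h.str, hA, closedBall_subset_ball one_lt_two h2,
      closedBall_subset_ball one_lt_two h2', h.cap y hy x hX hx hxy, h.cap y hy x' hX' hx' hxy', prmu_pr_q hX h1, prmu_pr_q hX' h1', hpath x' hX' hx', ?_⟩
    show A (χ.q x') / _ - A (χ.q x) / _ = _
    rw [sub_div]

end Pool.Agent.G3.R

end

section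

/-!
# G4 A Fch: charts of the fibres with uniform constants

`exists_fch`: for every `y₁ ∈ Gd D δ'` and every unit vector `v` over `y₁` a chart `Fch` of the fibres near `v`: a coordinate `h`, its inverse `Θ (h, y)`, primitives `Ψ j = Bj j (h, y)` of the forms `α j`; the constants `K`, `c₁` depend on `δ'` only.

Proof: `uc_base` (`G3/R/PrmU`) gives straight charts `χ` with uniform constants; `h = χ.q · 0` (or the `0`-th coordinate), `Θ (s, y) = χ.σ (cy c ρ s y)` multiplied by the scalar which makes `⟨v, ·⟩ = 1`, `Ψ j` from `UC.prm`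
(as in `exists_prm_unif`, `prim_bd`, `tc_dec`, with `DecW` in place of `Dec`), `B_lb` from `Sepa` (as in `exists_prm_inv` of `G3/R/PrmI` and `jn` of `G3/A/JN`), uniform in `y₁` by the theta factors
(`Tht Γ W (α j)`, the weight `wt W`; `Γ` is a lattice, so `y₁` may be moved to a compact set).
-/

set_option autoImplicit false

open Topology Filter Metric

namespace Pool.Agent.G4.A

open Pool.Agent.H36.BP (EN fs wd)
open Pool.Agent.H14.PP (IsCone CurveAt Tan)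
open Pool.Agent.H62.EF (MN pr)
open Pool.Agent.AD (Vd Chart Charts IsGerm)
open Pool.Agent.TG
open Pool.Agent.G3
open Pool.Agent.G3.A
open Pool.Agent.G3.R (Prm Shs DDb Nod dd dw UC uc_base)
open Pool.Agent.G3.C (Gc nv nd nv_pr)

variable {N k : ℕ} {X : Set (EN N)} {Λ : AddSubgroup (Vd (k + 1))} {u : EN N → Vd (k + 1)} {D B Bad : Set (Vd (k + 1))} {a : Vd (k + 1)}
  {Γ : AddSubgroup (Vd (k + 1))} {J rW : ℕ} {W : Fin rW → Vd (k + 1) →L[ℂ] ℂ} {α : Fin J → VForm X Λ u} {c₀ C₀ ρ δ : ℝ}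

/-- uniform charts, with the lower bound of the coefficients -/
private theorem fch_unif (G : Geo X Λ u D B) (F : Frm X Λ u D Γ W α) {δ : ℝ} (hδ : 0 < δ) : ∃ R K c₁ : ℝ, 0 < R ∧ 0 < c₁ ∧ ∀ y₀ ∈ Gd D δ, ∀ v ∈ X, ‖v‖ = 1 → u v - y₀ ∈ Λ →
    ∃ (χ : Chart (k + 2) X) (c : Vd (k + 1)) (ρ : ℝ), UC Λ u χ c ρ y₀ v R K ∧ ‖fderiv ℂ χ.q v‖ ≤ K ∧ ∃ j, c₁ * Real.exp (-wt W y₀) ≤ ‖tc (α j) χ (ms c ρ) (χ.q v)‖ := by
  obtain ⟨R₂, -, hR₂⟩ := F.lat.cpt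
  have key : ∃ n : ℕ, ∀ y₀ ∈ Gd D δ, ‖y₀‖ ≤ R₂ → ∀ v ∈ X, ‖v‖ = 1 → u v - y₀ ∈ Λ →
      ∃ (χ : Chart (k + 2) X) (c : Vd (k + 1)) (ρ : ℝ), UC Λ u χ c ρ y₀ v (1 / ((n : ℝ) + 1)) n ∧ ‖fderiv ℂ χ.q v‖ ≤ n ∧
        ∃ j, 1 / ((n : ℝ) + 1) * Real.exp (-wt W y₀) ≤ ‖tc (α j) χ (ms c ρ) (χ.q v)‖ := by
    by_contra hcon
    push Not at hcon
    choose y hy hyR v hv hv1 huv hno using hcon
    have h𝒰 : ((hyperfilter ℕ : Ultrafilter ℕ) : Filter ℕ) ≤ atTop := Nat.hyperfilter_le_atTop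
    have hKc : IsCompact (closedBall (0 : Vd (k + 1)) R₂ ∩ Gd D δ) := (isCompact_closedBall 0 R₂).inter_right (gd_closed D δ)
    have hle : (((hyperfilter ℕ : Ultrafilter ℕ).map y : Ultrafilter (Vd (k + 1))) : Filter (Vd (k + 1))) ≤ 𝓟 (closedBall (0 : Vd (k + 1)) R₂ ∩ Gd D δ) := by
      rw [le_principal_iff]
      exact Filter.mem_map.2 (Filter.univ_mem' fun n => ⟨by rw [mem_closedBall, dist_zero_right]; exact hyR n, hy n⟩)
    obtain ⟨w, hw, hlim⟩ := hKc.ultrafilter_le_nhds _ hle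
    have hle2 : (((hyperfilter ℕ : Ultrafilter ℕ).map v : Ultrafilter (EN N)) : Filter (EN N)) ≤ 𝓟 (X ∩ sphere (0 : EN N) 1) := by
      rw [le_principal_iff]
      exact Filter.mem_map.2 (Filter.univ_mem' fun n => ⟨hv n, by rw [mem_sphere_zero_iff_norm]; exact hv1 n⟩)
    obtain ⟨v₀, hv₀, hlim2⟩ := (compact_unit G.cone).ultrafilter_le_nhds _ hle2
    have hyw : Tendsto y (hyperfilter ℕ : Ultrafilter ℕ) (𝓝 w) := hlim
    have hvw : Tendsto v (hyperfilter ℕ : Ultrafilter ℕ) (𝓝 v₀) := hlim2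
    have huw : u v₀ - w ∈ Λ := lim_mem G.lat G.tor hv₀.1 hvw hyw (Filter.Eventually.of_forall fun n => ⟨hv n, huv n⟩)
    have hwD : w ∉ D := gd_notMem hδ hw.2
    obtain ⟨χ, ρ, R₀, K, hU, hq, hR₀, hUC⟩ := uc_base G hwD hv₀.1 huw
    obtain ⟨j, vv, hvt, hne⟩ := F.sep w hwD v₀ hv₀.1 huw
    have hUC0 := hUC w (by simpa using hR₀) v₀ (by simpa using hR₀)
    have h0 : (0 : Vd (k + 2)) ∈ ball (0 : Vd (k + 2)) 2 := mem_ball_self two_pos
    have hms0 : ms w ρ (0 : Vd (k + 2)) = w := by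
      unfold ms
      have : tl (0 : Vd (k + 2)) = 0 := rfl
      rw [this, smul_zero, add_zero]
    have htc : tc (α j) χ (ms w ρ) 0 ≠ 0 := by
      intro h
      apply hne
      rw [toFun_eq G.cone G.tor (α j) χ hv₀.1 hU huw (υ := ms w ρ) (by rw [hq, hms0]) vv hvt, hq, h, mul_zero]
    have htcan : AnalyticAt ℂ (tc (α j) χ (ms w ρ)) 0 := tc_an (α j) χ h0 (ms_an w ρ 0) (by
      filter_upwards [isOpen_ball.mem_nhds h0] with q hq
      exact hUC0.str.lift q hq)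
    have hqc : Tendsto (fun n => χ.q (v n)) (hyperfilter ℕ : Ultrafilter ℕ) (𝓝 0) := by
      have h1 : Tendsto χ.q (𝓝 v₀) (𝓝 (χ.q v₀)) := (χ.q_an v₀ hU).continuousAt
      rw [hq] at h1
      exact h1.comp hvw
    have htl : Tendsto (fun n => ‖tc (α j) χ (ms w ρ) (χ.q (v n))‖) (hyperfilter ℕ : Ultrafilter ℕ) (𝓝 ‖tc (α j) χ (ms w ρ) 0‖) :=
      (htcan.continuousAt.norm.tendsto).comp hqc
    have hfd : Tendsto (fun n => ‖fderiv ℂ χ.q (v n)‖) (hyperfilter ℕ : Ultrafilter ℕ) (𝓝 ‖fderiv ℂ χ.q v₀‖) :=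
      ((χ.q_an v₀ hU).fderiv.continuousAt.norm.tendsto).comp hvw
    have hpos : 0 < ‖tc (α j) χ (ms w ρ) 0‖ := norm_pos_iff.2 htc
    have h1 : ∀ᶠ n in ((hyperfilter ℕ : Ultrafilter ℕ) : Filter ℕ), y n ∈ ball w R₀ := hyw.eventually (ball_mem_nhds w hR₀)
    have h2 : ∀ᶠ n in ((hyperfilter ℕ : Ultrafilter ℕ) : Filter ℕ), v n ∈ ball v₀ R₀ := hvw.eventually (ball_mem_nhds v₀ hR₀)
    have hone : Tendsto (fun n : ℕ => 1 / ((n : ℝ) + 1)) ((hyperfilter ℕ : Ultrafilter ℕ) : Filter ℕ) (𝓝 0) :=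
      (tendsto_one_div_add_atTop_nhds_zero_nat (𝕜 := ℝ)).mono_left h𝒰
    have h3 : ∀ᶠ n : ℕ in ((hyperfilter ℕ : Ultrafilter ℕ) : Filter ℕ), 1 / ((n : ℝ) + 1) ≤ R₀ := hone.eventually_le_const hR₀
    have h4 : ∀ᶠ n : ℕ in ((hyperfilter ℕ : Ultrafilter ℕ) : Filter ℕ), max K (‖fderiv ℂ χ.q v₀‖ + 1) ≤ (n : ℝ) :=
      h𝒰 (tendsto_natCast_atTop_atTop.eventually_ge_atTop _)
    have h5 : ∀ᶠ n : ℕ in ((hyperfilter ℕ : Ultrafilter ℕ) : Filter ℕ), 1 / ((n : ℝ) + 1) ≤ ‖tc (α j) χ (ms w ρ) 0‖ / 2 :=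
      hone.eventually_le_const (half_pos hpos)
    have h6 : ∀ᶠ n : ℕ in ((hyperfilter ℕ : Ultrafilter ℕ) : Filter ℕ), ‖tc (α j) χ (ms w ρ) 0‖ / 2 < ‖tc (α j) χ (ms w ρ) (χ.q (v n))‖ :=
      htl.eventually_const_lt (half_lt_self hpos)
    have h7 : ∀ᶠ n : ℕ in ((hyperfilter ℕ : Ultrafilter ℕ) : Filter ℕ), ‖fderiv ℂ χ.q (v n)‖ < ‖fderiv ℂ χ.q v₀‖ + 1 :=
      hfd.eventually_lt_const (lt_add_one _)
    obtain ⟨n, hn1, hn2, hn3, hn4, hn5, hn6, hn7⟩ := (h1.and (h2.and (h3.and (h4.and (h5.and (h6.and h7)))))).exists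
    have hUCn := (hUC (y n) (by rwa [mem_ball, dist_eq_norm] at hn1) (v n) (by rwa [mem_ball, dist_eq_norm] at hn2)).mono hn3 ((le_max_left _ _).trans hn4)
    have h8 := hno n χ w ρ hUCn (hn7.le.trans ((le_max_right _ _).trans hn4)) j
    have h9 : Real.exp (-wt W (y n)) ≤ 1 := by
      rw [Real.exp_le_one_iff, neg_nonpos]
      exact Finset.sum_nonneg fun i _ => by positivity
    have h10 : 1 / ((n : ℝ) + 1) * Real.exp (-wt W (y n)) ≤ 1 / ((n : ℝ) + 1) := mul_le_of_le_one_right (by positivity) h9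
    linarith
  obtain ⟨n, hn⟩ := key
  refine ⟨1 / ((n : ℝ) + 1), n, 1 / ((n : ℝ) + 1), by positivity, by positivity, fun y₀ hy₀ v hv hv1 huv => ?_⟩
  obtain ⟨l, hlΓ, hyl⟩ := hR₂ y₀
  have hl : l ∈ Λ := F.le hlΓ
  have h1 : y₀ - l ∈ Gd D δ := by
    rw [sub_eq_add_neg]
    exact (G.gd_add δ (Λ.neg_mem hl)).2 hy₀
  have h2 : u v - (y₀ - l) ∈ Λ := by
    have e : u v - (y₀ - l) = u v - y₀ + l := by abel
    rw [e]
    exact Λ.add_mem huv hl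
  obtain ⟨χ, c, ρ, h, hqd, j, hj⟩ := hn (y₀ - l) h1 hyl v hv hv1 h2
  have hR : (0 : ℝ) < 1 / ((n : ℝ) + 1) := by positivity
  have h3 := h.add hl
  rw [sub_add_cancel] at h3
  refine ⟨χ, c + l, ρ, h3, hqd, j, ?_⟩
  have hvb : v ∈ ball v (1 / ((n : ℝ) + 1)) := mem_ball_self hR
  have hcap : ms c ρ (χ.q v) = y₀ - l := h.cap (y₀ - l) (mem_ball_self hR) v hv hvb h2
  have hqb : χ.q v ∈ ball (0 : Vd (k + 2)) 2 := closedBall_subset_ball one_lt_two (h.mem v hvb).2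
  obtain ⟨L, c', hno, hth⟩ := F.per j l hlΓ
  have e1 : tc (α j) χ (ms (c + l) ρ) (χ.q v) = Complex.exp (L (y₀ - l) + c') * tc (α j) χ (ms c ρ) (χ.q v) := by
    have e2 : ms (c + l) ρ (χ.q v) = (y₀ - l) + l := by
      rw [← hcap]
      unfold ms
      abel
    have e3 := hth (y₀ - l) (χ.σ (χ.q v)) (χ.σ_mem _ hqb).1 (by rw [← hcap]; exact h.str.lift _ hqb) (fun i => fderiv ℂ χ.σ (χ.q v) (Pi.single i 1)) (fun i => tan_sigma χ hqb _)
    unfold tc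
    rw [e2, e3, hcap]
  rw [e1, norm_mul, hno, sub_add_cancel]
  have e4 : Real.exp (wt W (y₀ - l) - wt W y₀) * (1 / ((n : ℝ) + 1) * Real.exp (-wt W (y₀ - l))) = 1 / ((n : ℝ) + 1) * Real.exp (-wt W y₀) := by
    have e5 : Real.exp (-wt W y₀) = Real.exp (wt W (y₀ - l) - wt W y₀) * Real.exp (-wt W (y₀ - l)) := by
      rw [← Real.exp_add]
      congr 1
      ring
    rw [e5]
    ring
  rw [← e4]
  exact mul_le_mul_of_nonneg_left hj (Real.exp_pos _).le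

/-- (F) -/
theorem exists_fch (G : Geo X Λ u D B) (F : Frm X Λ u D Γ W α) (hd : ∀ j, DecW W (α j) C₀) (hC : 0 < C₀) {δ' : ℝ} (hδ : 0 < δ') : ∃ K c₁ : ℝ, 0 < K ∧ 0 < c₁ ∧
    ∀ y₁ ∈ Gd D δ', ∀ v ∈ X, ‖v‖ = 1 → u v - y₁ ∈ Λ → ∃ (R : ℝ) (h : EN N → ℂ) (Θ : ℂ × Vd (k + 1) → EN N) (Ψ : Fin J → EN N → ℂ) (Bj : Fin J → ℂ × Vd (k + 1) → ℂ),
      Fch W α y₁ v K c₁ R h Θ Ψ Bj := by
  obtain ⟨R, K₀, c₁, hR, hc₁, hun⟩ := fch_unif G F hδ
  set K : ℝ := max K₀ 1 with hKdef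
  have hK : 0 < K := lt_max_of_lt_right one_pos
  have hKk : 0 < K ^ (k + 1) := pow_pos hK _
  refine ⟨max (2 * K) (K ^ (k + 1) * (K ^ (k + 2) * C₀)), c₁ / K ^ (k + 1), lt_max_of_lt_left (by positivity), by positivity, fun y₁ hy₁ v hv hv1 huv => ?_⟩
  obtain ⟨χ, c, ρ, h', hqd, j₀, hj₀⟩ := hun y₁ hy₁ v hv hv1 huv
  have h := h'.mono le_rfl (le_max_left K₀ 1)
  rw [← hKdef] at h
  have hqd' : ‖fderiv ℂ χ.q v‖ ≤ K := hqd.trans (le_max_left K₀ 1)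
  choose A hA using fun j => exists_prim (α j) χ h.str
  have hρ := h.str.pos
  have hρ1 : (ρ : ℂ) ≠ 0 := by exact_mod_cast hρ.ne'
  have hvb : v ∈ ball v R := mem_ball_self hR
  obtain ⟨hU, hq1⟩ := h.mem v hvb
  have hqb : χ.q v ∈ ball (0 : Vd (k + 2)) 2 := closedBall_subset_ball one_lt_two hq1
  have hcapv : ms c ρ (χ.q v) = y₁ := h.cap y₁ (mem_ball_self hR) v hv hvb huv
  have hcy : fcy c ρ (χ.q v 0, y₁) = χ.q v := fcy_q hρ hcapv
  obtain ⟨c', hc', hcv⟩ := (χ.surj v hv hU).2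
  have hin : ∀ x : EN N, inner ℂ v x = innerSL ℂ v x := fun x => rfl
  have hvv : (inner ℂ v v : ℂ) = 1 := by
    rw [inner_self_eq_norm_sq_to_K, hv1]
    simp
  have hcs : c' * inner ℂ v (χ.σ (χ.q v)) = 1 := by
    rw [← inner_smul_right, ← hcv, hvv]
  have hi0 : (inner ℂ v (χ.σ (χ.q v)) : ℂ) ≠ 0 := right_ne_zero_of_mul_eq_one hcs
  have hinv : (inner ℂ v (χ.σ (χ.q v)) : ℂ)⁻¹ = c' := by
    field_simp
    linear_combination -hcs
  -- derivatives of functions of `fcy`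
  have hder : ∀ {E : Type} [NormedAddCommGroup E] [NormedSpace ℂ E] (g : Vd (k + 2) → E), AnalyticAt ℂ g (χ.q v) → AnalyticAt ℂ (fun p => g (fcy c ρ p)) (χ.q v 0, y₁) ∧
      fderiv ℂ (fun p => g (fcy c ρ p)) (χ.q v 0, y₁) (1, 0) = fderiv ℂ g (χ.q v) (Pi.single 0 1) := by
    intro E _ _ g hg
    have hg' : AnalyticAt ℂ g (fcy c ρ (χ.q v 0, y₁)) := by rwa [hcy]
    refine ⟨AnalyticAt.fun_comp (g := g) (f := fcy c ρ) hg' (fcy_an c ρ _), ?_⟩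
    have h1 : HasFDerivAt (fun p => g (fcy c ρ p)) ((fderiv ℂ g (fcy c ρ (χ.q v 0, y₁))).comp (fderiv ℂ (fcy c ρ) (χ.q v 0, y₁))) (χ.q v 0, y₁) :=
      HasFDerivAt.comp (g := g) (f := fcy c ρ) (χ.q v 0, y₁) hg'.differentiableAt.hasFDerivAt (fcy_an c ρ _).differentiableAt.hasFDerivAt
    rw [h1.fderiv, ContinuousLinearMap.comp_apply, fcy_fd, hcy]
  have hρk : 0 < ρ ^ (k + 1) := pow_pos hρ _
  have hnρ : ‖((ρ : ℂ) ^ (k + 1))‖ = ρ ^ (k + 1) := by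
    rw [norm_pow, Complex.norm_real, Real.norm_of_nonneg hρ.le]
  have hρinv : (ρ ^ (k + 1))⁻¹ ≤ K ^ (k + 1) := by
    rw [← inv_pow]
    refine pow_le_pow_left₀ (inv_nonneg.2 hρ.le) ?_ _
    rw [inv_le_iff_one_le_mul₀ hρ]
    exact h.rho
  have hρK : ρ ≤ K := by
    have e1 : (Pi.single 1 1 : Vd (k + 2)) ∈ closedBall (0 : Vd (k + 2)) 1 := by
      rw [mem_closedBall_zero_iff, Pi.norm_single]
      simp
    have e2 : (-(Pi.single 1 1) : Vd (k + 2)) ∈ closedBall (0 : Vd (k + 2)) 1 := by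
      rw [mem_closedBall_zero_iff, norm_neg, Pi.norm_single]
      simp
    have e3 := h.near _ e1
    have e4 := h.near _ e2
    have e5 : ‖ms c ρ (Pi.single 1 1 : Vd (k + 2)) - ms c ρ (-(Pi.single 1 1) : Vd (k + 2))‖ ≤ 2 * K := by
      have e6 : ms c ρ (Pi.single 1 1 : Vd (k + 2)) - ms c ρ (-(Pi.single 1 1) : Vd (k + 2)) =
          (ms c ρ (Pi.single 1 1 : Vd (k + 2)) - y₁) - (ms c ρ (-(Pi.single 1 1) : Vd (k + 2)) - y₁) := by abel
      rw [e6]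
      have := norm_sub_le (ms c ρ (Pi.single 1 1 : Vd (k + 2)) - y₁) (ms c ρ (-(Pi.single 1 1) : Vd (k + 2)) - y₁)
      linarith
    have e7 : (ms c ρ (Pi.single 1 1 : Vd (k + 2)) - ms c ρ (-(Pi.single 1 1) : Vd (k + 2))) 0 = 2 * (ρ : ℂ) := by
      simp [ms, tl]
      ring
    have e8 := norm_le_pi_norm (ms c ρ (Pi.single 1 1 : Vd (k + 2)) - ms c ρ (-(Pi.single 1 1) : Vd (k + 2))) 0
    rw [e7, norm_mul, Complex.norm_real, Real.norm_of_nonneg hρ.le] at e8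
    have e9 : ‖(2 : ℂ)‖ = 2 := by norm_num
    rw [e9] at e8
    linarith
  refine ⟨R, fun x => χ.q x 0, fun p => (inner ℂ v (χ.σ (fcy c ρ p)) : ℂ)⁻¹ • χ.σ (fcy c ρ p), fun j x => A j (χ.q x) / (ρ : ℂ) ^ (k + 1),
    fun j p => A j (fcy c ρ p) / (ρ : ℂ) ^ (k + 1), ?_⟩
  have hBan : ∀ j, AnalyticAt ℂ (fun p => A j p / (ρ : ℂ) ^ (k + 1)) (χ.q v) := fun j => by
    simp only [div_eq_mul_inv]
    exact ((hA j).an _ hqb).mul analyticAt_const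
  have hBfd : ∀ j, fderiv ℂ (fun p => A j p / (ρ : ℂ) ^ (k + 1)) (χ.q v) (Pi.single 0 1) = tc (α j) χ (ms c ρ) (χ.q v) / (ρ : ℂ) ^ (k + 1) := fun j => by
    have h6 : HasFDerivAt (fun p => A j p / (ρ : ℂ) ^ (k + 1)) (((ρ : ℂ) ^ (k + 1))⁻¹ • fderiv ℂ (A j) (χ.q v)) (χ.q v) := by
      have h7 := (((hA j).an _ hqb).differentiableAt.hasFDerivAt).const_mul (((ρ : ℂ) ^ (k + 1))⁻¹)
      refine h7.congr_of_eventuallyEq (Eventually.of_forall fun p => ?_)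
      simp only [div_eq_inv_mul]
    rw [h6.fderiv]
    show ((ρ : ℂ) ^ (k + 1))⁻¹ • fderiv ℂ (A j) (χ.q v) (Pi.single 0 1) = _
    rw [(hA j).der _ hqb, smul_eq_mul, div_eq_inv_mul]
  have hsan : AnalyticAt ℂ χ.σ (χ.q v) := χ.σ_an _ hqb
  refine ⟨?_, ?_, ?_, ?_, hR, fun j => h.prm G hR hv hv1 huv (hA j), fun j => (hder _ (hBan j)).1, fun j => ?_, ⟨j₀, ?_⟩, fun y hy x hx hxb hux => ⟨fun hix => ?_, fun j => ?_⟩⟩
  · exact (analyticAt_pi_iff.1 (χ.q_an v hU)) 0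
  · refine ContinuousLinearMap.opNorm_le_bound _ (by positivity) fun x => ?_
    have e1 : HasFDerivAt (fun x => χ.q x 0) ((ContinuousLinearMap.proj (R := ℂ) (φ := fun _ : Fin (k + 2) => ℂ) 0).comp (fderiv ℂ χ.q v)) v :=
      hasFDerivAt_pi'.1 (χ.q_an v hU).differentiableAt.hasFDerivAt 0
    rw [e1.fderiv, ContinuousLinearMap.comp_apply]
    have e2 : ‖(ContinuousLinearMap.proj (R := ℂ) (φ := fun _ : Fin (k + 2) => ℂ) 0) (fderiv ℂ χ.q v x)‖ ≤ ‖fderiv ℂ χ.q v x‖ := norm_le_pi_norm (fderiv ℂ χ.q v x) 0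
    refine e2.trans (((fderiv ℂ χ.q v).le_opNorm x).trans (mul_le_mul_of_nonneg_right (hqd'.trans ?_) (norm_nonneg _)))
    exact (by linarith : K ≤ 2 * K).trans (le_max_left _ _)
  · have e1 : AnalyticAt ℂ (fun p => (inner ℂ v (χ.σ p) : ℂ)) (χ.q v) := by
      simp only [hin]
      exact ((innerSL ℂ v).analyticAt _).fun_comp hsan
    exact (hder (fun p => (inner ℂ v (χ.σ p) : ℂ)⁻¹ • χ.σ p) ((e1.inv hi0).smul hsan)).1
  · have e1 : AnalyticAt ℂ (fun p => (inner ℂ v (χ.σ p) : ℂ)) (χ.q v) := by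
      simp only [hin]
      exact ((innerSL ℂ v).analyticAt _).fun_comp hsan
    rw [(hder (fun p => (inner ℂ v (χ.σ p) : ℂ)⁻¹ • χ.σ p) ((e1.inv hi0).smul hsan)).2]
    have e2 : HasFDerivAt χ.σ (fderiv ℂ χ.σ (χ.q v)) (χ.q v) := hsan.differentiableAt.hasFDerivAt
    have e3 : HasFDerivAt (fun p => (inner ℂ v (χ.σ p) : ℂ)) ((innerSL ℂ v).comp (fderiv ℂ χ.σ (χ.q v))) (χ.q v) :=
      (innerSL ℂ v).hasFDerivAt.comp (χ.q v) e2
    have e4 : HasFDerivAt (fun p => (inner ℂ v (χ.σ p) : ℂ)⁻¹) (-((inner ℂ v (χ.σ (χ.q v)) : ℂ) ^ 2)⁻¹ • ((innerSL ℂ v).comp (fderiv ℂ χ.σ (χ.q v)))) (χ.q v) :=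
      (hasDerivAt_inv hi0).comp_hasFDerivAt (χ.q v) e3
    have e5 : HasFDerivAt (fun p => (inner ℂ v (χ.σ p) : ℂ)⁻¹ • χ.σ p) _ (χ.q v) := e4.smul e2
    set d : EN N := fderiv ℂ χ.σ (χ.q v) (Pi.single 0 1) with hd0
    have e6 : fderiv ℂ (fun p => (inner ℂ v (χ.σ p) : ℂ)⁻¹ • χ.σ p) (χ.q v) (Pi.single 0 1) = c' • d - (c' * inner ℂ v d) • v := by
      rw [e5.fderiv]
      simp only [ContinuousLinearMap.add_apply, ContinuousLinearMap.smul_apply, ContinuousLinearMap.smulRight_apply, ContinuousLinearMap.comp_apply]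
      rw [← hd0, hinv]
      have e7 : -((inner ℂ v (χ.σ (χ.q v)) : ℂ) ^ 2)⁻¹ = -(c' * c') := by
        rw [← inv_pow, hinv, sq]
      rw [e7]
      have e8 : ((-(c' * c')) • (innerSL ℂ v d)) • χ.σ (χ.q v) = -((c' * inner ℂ v d) • v) := by
        conv_rhs => rw [hcv]
        rw [smul_smul, ← neg_smul]
        congr 1
        show -(c' * c') * inner ℂ v d = _
        rw [← hcv]
        ring
      rw [e8]
      abel
    rw [e6]
    have e9 : ‖c'‖ * ‖d‖ ≤ K := by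
      have e10 := h.bd _ hq1 0
      have e11 : ‖c'‖ * ‖χ.σ (χ.q v)‖ = 1 := by
        rw [← norm_smul, ← hcv, hv1]
      calc ‖c'‖ * ‖d‖ ≤ ‖c'‖ * (K * ‖χ.σ (χ.q v)‖) := mul_le_mul_of_nonneg_left e10 (norm_nonneg _)
        _ = K * (‖c'‖ * ‖χ.σ (χ.q v)‖) := by ring
        _ = K := by rw [e11, mul_one]
    have e12 : ‖(c' * inner ℂ v d) • v‖ ≤ ‖c'‖ * ‖d‖ := by
      rw [norm_smul, norm_mul, hv1, mul_one]
      refine mul_le_mul_of_nonneg_left ?_ (norm_nonneg _)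
      have := norm_inner_le_norm (𝕜 := ℂ) v d
      rwa [hv1, one_mul] at this
    have e13 := norm_sub_le (c' • d) ((c' * inner ℂ v d) • v)
    rw [norm_smul] at e13
    exact (by linarith : ‖c' • d - (c' * inner ℂ v d) • v‖ ≤ 2 * K).trans (le_max_left _ _)
  · rw [(hder _ (hBan j)).2, hBfd, norm_div, hnρ]
    have e1 := fch_tc (hd j) hqb (h.str.lift _ hqb) hK (h.bd _ hq1)
    rw [hcapv] at e1
    calc ‖tc (α j) χ (ms c ρ) (χ.q v)‖ / ρ ^ (k + 1) = (ρ ^ (k + 1))⁻¹ * ‖tc (α j) χ (ms c ρ) (χ.q v)‖ := by rw [div_eq_mul_inv, mul_comm]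
      _ ≤ K ^ (k + 1) * (K ^ (k + 2) * (C₀ * Real.exp (-wt W y₁))) := mul_le_mul hρinv e1 (norm_nonneg _) hKk.le
      _ = K ^ (k + 1) * (K ^ (k + 2) * C₀) * Real.exp (-wt W y₁) := by ring
      _ ≤ _ := mul_le_mul_of_nonneg_right (le_max_right _ _) (Real.exp_pos _).le
  · rw [(hder _ (hBan j₀)).2, hBfd, norm_div, hnρ]
    have e1 : ρ ^ (k + 1) ≤ K ^ (k + 1) := pow_le_pow_left₀ hρ.le hρK _
    calc c₁ / K ^ (k + 1) * Real.exp (-wt W y₁) = (c₁ * Real.exp (-wt W y₁)) / K ^ (k + 1) := by ring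
      _ ≤ ‖tc (α j₀) χ (ms c ρ) (χ.q v)‖ / ρ ^ (k + 1) := div_le_div₀ (norm_nonneg _) hj₀ hρk e1
  · have e0 := h.cap y hy x hx hxb hux
    have e1 : fcy c ρ (χ.q x 0, y) = χ.q x := fcy_q hρ e0
    obtain ⟨c'', hc'', hx'⟩ := (χ.surj x hx (h.mem x hxb).1).2
    simp only [e1]
    have h2 : c'' * inner ℂ v (χ.σ (χ.q x)) = 1 := by
      rw [← inner_smul_right, ← hx', hix]
    have h3 : (inner ℂ v (χ.σ (χ.q x)) : ℂ)⁻¹ = c'' := by
      have h4 : (inner ℂ v (χ.σ (χ.q x)) : ℂ) ≠ 0 := right_ne_zero_of_mul_eq_one h2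
      field_simp
      linear_combination -h2
    rw [h3, ← hx']
  · have e0 := h.cap y hy x hx hxb hux
    have e1 : fcy c ρ (χ.q x 0, y) = χ.q x := fcy_q hρ e0
    simp only [e1]

end Pool.Agent.G4.A

end
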