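import Pool.Agent.H94.G5T.G3.C.TDefs
import Pool.Agent.H94.G5T.M11

/-! The parts of this file: G4.C.JNv, G4.C.PoA. -/

section

/-!
# G4 C JNv: the jets of a smooth family in the affine chart `nv v`

`jet_nv`: the `m`-jet of the curve `crv / ⟨v, crv⟩` is the jet of `t ↦ nv v (Φ (s + t) z)`.
-/

set_option autoImplicit false

open Topology Filter Metric

namespace Pool.Agent.G4.C

open Pool.Agent.H36.BP (EN fs wd)
open Pool.Agent.H14.PP (IsCone)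
open Pool.Agent.H62.EF (MN pr)
open Pool.Agent.AD (Vd Chart Charts)
open Pool.Agent.TG (TMap Lat Str ms tl Gd)
open Pool.Agent.G3.C

variable {N k : ℕ} {X : Set (EN N)} {Λ : AddSubgroup (Vd (k + 1))} {u : EN N → Vd (k + 1)} {ν a b c : Vd (k + 1)} {m : ℕ} {ρ : ℝ}

/-- iterated derivatives from a chain of derivatives -/
theorem iter_chain {𝕜 G : Type*} [NontriviallyNormedField 𝕜] [NormedAddCommGroup G] [NormedSpace 𝕜 G] {I : Set 𝕜} (hI : IsOpen I) {H : ℕ → 𝕜 → G}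
    (h : ∀ j, ∀ t ∈ I, HasDerivAt (H j) (H (j + 1) t) t) {g : 𝕜 → G} (h0 : ∀ t ∈ I, g t = H 0 t) : ∀ j, ∀ t ∈ I, iteratedDeriv j g t = H j t := by
  intro j
  induction j with
  | zero =>
    intro t ht
    rw [iteratedDeriv_zero]
    exact h0 t ht
  | succ j ih =>
    intro t ht
    rw [iteratedDeriv_succ]
    have h1 : iteratedDeriv j g =ᶠ[𝓝 t] H j := by
      filter_upwards [hI.mem_nhds ht] with s hs using ih s hs
    rw [h1.deriv_eq]
    exact (h j t ht).deriv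

theorem iter_coord {φ : ℂ → EN N} (hφ : AnalyticAt ℂ φ 0) (i : Fin (N + 1)) (j : ℕ) : iteratedDeriv j (fun t => φ t i) 0 = iteratedDeriv j φ 0 i := by
  obtain ⟨r, hr, hball⟩ := Metric.eventually_nhds_iff_ball.1 hφ.eventually_analyticAt
  have han : AnalyticOnNhd ℂ φ (ball 0 r) := hball
  have h1 : ∀ j, AnalyticOnNhd ℂ (iteratedDeriv j φ) (ball 0 r) := by
    intro j
    rw [iteratedDeriv_eq_iterate]
    exact han.iterated_deriv j
  refine iter_chain (I := ball (0 : ℂ) r) isOpen_ball (H := fun j t => iteratedDeriv j φ t i) (fun j t ht => ?_) (fun t _ => by rw [iteratedDeriv_zero]) j 0 (mem_ball_self hr)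
  have h2 : HasDerivAt (iteratedDeriv j φ) (iteratedDeriv (j + 1) φ t) t := by
    rw [iteratedDeriv_succ]
    exact (h1 j t ht).differentiableAt.hasDerivAt
  exact (EuclideanSpace.proj (𝕜 := ℂ) i : EN N →L[ℂ] ℂ).hasFDerivAt.comp_hasDerivAt t h2

theorem norm_le_coord (x : EN N) : ‖x‖ ≤ ∑ i, ‖x i‖ := by
  rw [EuclideanSpace.norm_eq]
  refine Real.sqrt_le_iff.2 ⟨Finset.sum_nonneg fun i _ => norm_nonneg _, ?_⟩
  exact Finset.sum_sq_le_sq_sum_of_nonneg fun i _ => norm_nonneg _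

/-- the vector valued polynomial with the derivatives `v i` at `0` -/
noncomputable def vpol (v : Fin (N + 1) → Fin (m + 1) → ℂ) (t : ℂ) : EN N := WithLp.toLp 2 fun i => pol (v i) t

theorem vpol_analytic (v : Fin (N + 1) → Fin (m + 1) → ℂ) : AnalyticAt ℂ (vpol v) 0 := by
  have h1 : Differentiable ℂ (vpol v) := by
    rw [differentiable_piLp]
    intro i
    show Differentiable ℂ (pol (v i))
    unfold pol
    fun_prop
  exact h1.analyticAt 0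

theorem quot_close {v x y : EN N} {κ M : ℝ} (hκ : 0 < κ) (hx : κ ≤ ‖(inner ℂ v x : ℂ)‖) (hy : κ ≤ ‖(inner ℂ v y : ℂ)‖) (hyM : ‖y‖ ≤ M) :
    ‖(inner ℂ v x : ℂ)⁻¹ • x - (inner ℂ v y : ℂ)⁻¹ • y‖ ≤ (κ⁻¹ + κ⁻¹ * κ⁻¹ * ‖v‖ * M) * ‖x - y‖ := by
  have hx0 : (inner ℂ v x : ℂ) ≠ 0 := fun h => by
    rw [h, norm_zero] at hx
    linarith
  have hy0 : (inner ℂ v y : ℂ) ≠ 0 := fun h => by
    rw [h, norm_zero] at hy
    linarith
  have e : (inner ℂ v x : ℂ)⁻¹ • x - (inner ℂ v y : ℂ)⁻¹ • y = (inner ℂ v x : ℂ)⁻¹ • (x - y) - ((inner ℂ v x : ℂ)⁻¹ * (inner ℂ v y : ℂ)⁻¹ * inner ℂ v (x - y)) • y := by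
    rw [inner_sub_right, smul_sub]
    have h1 : (inner ℂ v x : ℂ)⁻¹ * (inner ℂ v y : ℂ)⁻¹ * (inner ℂ v x - inner ℂ v y) = (inner ℂ v y : ℂ)⁻¹ - (inner ℂ v x : ℂ)⁻¹ := by
      field_simp
    rw [h1, sub_smul]
    abel
  rw [e]
  have h2 : ‖(inner ℂ v x : ℂ)⁻¹‖ ≤ κ⁻¹ := by
    rw [norm_inv]
    exact inv_anti₀ hκ hx
  have h3 : ‖(inner ℂ v y : ℂ)⁻¹‖ ≤ κ⁻¹ := by
    rw [norm_inv]
    exact inv_anti₀ hκ hy
  have hκi : 0 ≤ κ⁻¹ := (inv_pos.2 hκ).le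
  refine (norm_sub_le _ _).trans ?_
  rw [add_mul]
  refine add_le_add ?_ ?_
  · rw [norm_smul]
    exact mul_le_mul_of_nonneg_right h2 (norm_nonneg _)
  · rw [norm_smul, norm_mul, norm_mul]
    have h4 : ‖(inner ℂ v (x - y) : ℂ)‖ ≤ ‖v‖ * ‖x - y‖ := norm_inner_le_norm v (x - y)
    calc ‖(inner ℂ v x : ℂ)⁻¹‖ * ‖(inner ℂ v y : ℂ)⁻¹‖ * ‖(inner ℂ v (x - y) : ℂ)‖ * ‖y‖ ≤ κ⁻¹ * κ⁻¹ * (‖v‖ * ‖x - y‖) * M := by gcongr
      _ = κ⁻¹ * κ⁻¹ * ‖v‖ * M * ‖x - y‖ := by ring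

end Pool.Agent.G4.C

end

section

/-!
# G4 C PoA: the order of the poles of the jets at a point of `D`, one line

`ord_lb`: `f` holomorphic, `‖f‖ ≤ B` on `ball z₀ 2`, `c ≤ ‖f z₁‖`, `‖z₁ - z₀‖ ≤ 1/8`: the order of the zero of `f` at `z₀` is at most `M`, if `B < c * 16 ^ (M + 1)` (Schwarz: if `f = (z - z₀)^n g` then
`‖f z₁‖ ≤ B (‖z₁ - z₀‖ / 2)^n`, by the maximum principle for `g` on the balls of radius `< 2`).

`jet_pole`: let `Φ s` have lifts `F s` on `ball z₀ 2`, `‖F s‖ ≤ 1`, `c ≤ ‖F s z₁‖`, let `x (s, z) = nv v (Φ s z)` be smooth in `s` near `(0, z)` for `z ∉ S`, `nd v (Φ 0 z) ≠ 0`.  Then the derivative of order `j` of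
`x` at `s = 0` has a pole of order at most `(j + 1) M` at `z₀`.
Proof.  `h = 1 / (n + 1)`, `F n i`, `i ≤ j`, the lifts of `Φ (i h)` (`hF`), `V n = h^(-j) ∑ i, (-1)^(j - i) (j.choose i) (∏ l ≠ i, ⟨v, F n l⟩) • F n i`, holomorphic on `ball z₀ 2`; where the factors are not `0`,
`V n z = (∏ l, ⟨v, F n l z⟩) • h^(-j) Δ_[h]^[j] (x (·, z)) 0` (`fwdDiff_iter_eq_sum_shift`).
(1) If `‖f^(j) - c‖ ≤ ε` on `[t, t + j h]` then `‖Δ_[h]^[j] f t - h^j c‖ ≤ h^j ε` (induction on `j` with `g t = f (t + h) - f t`, mean value inequality).  So `h^(-j) Δ_[h]^[j] x 0 → x^(j)(0)`, and it is bounded by the maximum of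
`‖x^(j)‖`.
(2) Choose `r < 1` such that `z ∉ S`, `⟨v, F z⟩ ≠ 0` (`F` of `hv`) for `0 < dist z z₀ ≤ r`; on the circle `dist z z₀ = r` the `h^(-j) Δ_[h]^[j] x 0` are bounded for large `n` (compactness, `SmN`, (1)), so `‖V n‖ ≤ B'` on the closed disc
for large `n` (`‖⟨v, F n l z⟩‖ ≤ ‖v‖`, maximum principle).
(3) Along an ultrafilter `𝒰 ≤ atTop` the bounded holomorphic maps `F n i` converge pointwise on `ball z₀ 2` to holomorphic maps `G i` (equicontinuity; see `G3/P/Ult`, `G3/P/LimM`, `G3/A/Ul`, `G3/A/LLim` for such limits), `‖G i‖ ≤ 1`, `c ≤ ‖G i z₁‖`, so a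
coordinate of `G i` is `≥ c / (N + 1)` at `z₁` and by `ord_lb` `c' ‖z - z₀‖ ^ M ≤ ‖G i z‖` near `z₀`.
(4) For fixed `z`, `0 < dist z z₀ < r`: `F n i z = ⟨v, F n i z⟩ • nv v (Φ (i h) z)` for large `n` (`SmN`: `nd v (Φ s z) ≠ 0` for small `s`; `nv_pr`), in the limit `G i z = ⟨v, G i z⟩ • nv v (Φ 0 z)`, and `nv v (Φ 0 z) = ⟨v, F z⟩⁻¹ • F z` is bounded
near `z₀`: `‖G i z‖ ≤ C ‖⟨v, G i z⟩‖`.  From `‖V n z‖ ≤ B'` in the limit (1): `(∏ i, ‖⟨v, G i z⟩‖) * ‖x^(j)(0)‖ ≤ B'`.  Together with (3): the claim.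
-/

set_option autoImplicit false

open Topology Filter Metric

namespace Pool.Agent.G4.C

open Pool.Agent.H36.BP (EN fs wd)
open Pool.Agent.H62.EF (MN pr)
open Pool.Agent.G3.C (nv nd)

variable {N : ℕ}

theorem ord_lb {f : ℂ → ℂ} {z₀ z₁ : ℂ} {B c : ℝ} {M : ℕ} (hf : DifferentiableOn ℂ f (ball z₀ 2)) (hB : ∀ z ∈ ball z₀ 2, ‖f z‖ ≤ B) (hz : ‖z₁ - z₀‖ ≤ 1 / 8) (hc : 0 < c) (h1 : c ≤ ‖f z₁‖)
    (hM : B < c * 16 ^ (M + 1)) : ∃ c' : ℝ, 0 < c' ∧ ∀ᶠ z in 𝓝[≠] z₀, c' * ‖z - z₀‖ ^ M ≤ ‖f z‖ := by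
  have hz₀ : z₀ ∈ ball z₀ 2 := mem_ball_self two_pos
  have hz₁ : z₁ ∈ ball z₀ 2 := by
    rw [mem_ball, dist_eq_norm]
    linarith
  have han : AnalyticOnNhd ℂ f (ball z₀ 2) := hf.analyticOnNhd isOpen_ball
  have hfz : ¬ ∀ᶠ z in 𝓝 z₀, f z = 0 := by
    intro h
    have h3 := han.eqOn_zero_of_preconnected_of_eventuallyEq_zero (convex_ball z₀ 2).isPreconnected hz₀ h
    have h4 : f z₁ = 0 := h3 hz₁
    rw [h4, norm_zero] at h1
    linarith
  obtain ⟨n, g, hg, hg0, hfg⟩ := (han z₀ hz₀).exists_eventuallyEq_pow_smul_nonzero_iff.2 hfz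
  have hn : n ≤ M := by
    by_contra hn
    have hn' : M + 1 ≤ n := by omega
    have hne : z₁ ≠ z₀ := by
      rintro rfl
      have h3 := hfg.self_of_nhds
      rw [sub_self, zero_pow (by omega), zero_smul] at h3
      rw [h3, norm_zero] at h1
      linarith
    obtain ⟨q, hq⟩ : ∃ q : ℂ → ℂ, q = Function.update (fun z => f z / (z - z₀) ^ (M + 1)) z₀ ((z₀ - z₀) ^ (n - (M + 1)) * g z₀) := ⟨_, rfl⟩
    have hq1 : ∀ z, z ≠ z₀ → q z = f z / (z - z₀) ^ (M + 1) := fun z hz => by rw [hq, Function.update_of_ne hz]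
    have hqd : DifferentiableOn ℂ q (ball z₀ 2) := by
      intro z hz
      refine DifferentiableAt.differentiableWithinAt ?_
      by_cases hzz : z = z₀
      · rw [hzz]
        have h3 : q =ᶠ[𝓝 z₀] fun z => (z - z₀) ^ (n - (M + 1)) * g z := by
          filter_upwards [hfg] with w hw
          by_cases hww : w = z₀
          · rw [hww, hq, Function.update_self]
          · rw [hq1 w hww, hw, smul_eq_mul]
            have h4 : (w - z₀) ^ (M + 1) ≠ 0 := pow_ne_zero _ (sub_ne_zero.2 hww)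
            have h5 : (w - z₀) ^ n = (w - z₀) ^ (M + 1) * (w - z₀) ^ (n - (M + 1)) := by
              rw [← pow_add]
              congr 1
              omega
            rw [h5]
            field_simp
        refine DifferentiableAt.congr_of_eventuallyEq ?_ h3
        exact ((differentiableAt_id.sub_const z₀).pow _).mul hg.differentiableAt
      · have h3 : q =ᶠ[𝓝 z] fun z => f z / (z - z₀) ^ (M + 1) := by
          filter_upwards [isOpen_ne.mem_nhds hzz] with w hw using hq1 w hw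
        refine DifferentiableAt.congr_of_eventuallyEq ?_ h3
        exact (hf.differentiableAt (isOpen_ball.mem_nhds hz)).div ((differentiableAt_id.sub_const z₀).pow _) (pow_ne_zero _ (sub_ne_zero.2 hzz))
    have h3 : ∀ᶠ ρ in 𝓝[<] (2 : ℝ), B < c * (8 * ρ) ^ (M + 1) := by
      have h4 : ContinuousAt (fun ρ : ℝ => c * (8 * ρ) ^ (M + 1)) 2 := by fun_prop
      refine nhdsWithin_le_nhds (h4.eventually_const_lt ?_)
      show B < c * (8 * 2) ^ (M + 1)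
      norm_num
      exact hM
    obtain ⟨ρ, h4, h5⟩ := (h3.and (Ioo_mem_nhdsLT (show (1 : ℝ) < 2 by norm_num))).exists
    have hρ : 0 < ρ := by linarith [h5.1]
    have h6 : ‖q z₁‖ ≤ B / ρ ^ (M + 1) := by
      have hcl : closedBall z₀ ρ ⊆ ball z₀ 2 := closedBall_subset_ball h5.2
      refine Complex.norm_le_of_forall_mem_frontier_norm_le (U := ball z₀ ρ) isBounded_ball ((hqd.mono hcl).diffContOnCl_ball (le_refl _)) (fun z hz => ?_) ?_
      · rw [frontier_ball _ hρ.ne', mem_sphere, dist_eq_norm] at hz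
        have hzz : z ≠ z₀ := by
          rintro rfl
          rw [sub_self, norm_zero] at hz
          linarith
        rw [hq1 z hzz, norm_div, norm_pow, hz]
        refine div_le_div_of_nonneg_right (hB z ?_) (pow_nonneg hρ.le _)
        rw [mem_ball, dist_eq_norm, hz]
        exact h5.2
      · refine subset_closure ?_
        rw [mem_ball, dist_eq_norm]
        linarith [h5.1]
    have h7 : ‖f z₁‖ = ‖q z₁‖ * ‖z₁ - z₀‖ ^ (M + 1) := by
      rw [hq1 z₁ hne, norm_div, norm_pow]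
      have h8 : ‖z₁ - z₀‖ ^ (M + 1) ≠ 0 := pow_ne_zero _ (norm_ne_zero_iff.2 (sub_ne_zero.2 hne))
      field_simp
    have h8 : ‖f z₁‖ ≤ B / ρ ^ (M + 1) * (1 / 8) ^ (M + 1) := by
      rw [h7]
      exact mul_le_mul h6 (pow_le_pow_left₀ (norm_nonneg _) hz _) (by positivity) ((norm_nonneg _).trans h6)
    have h9 : c * (8 * ρ) ^ (M + 1) ≤ B := by
      have h10 := h1.trans h8
      have h11 : B / ρ ^ (M + 1) * (1 / 8) ^ (M + 1) = B / (8 * ρ) ^ (M + 1) := by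
        rw [mul_pow, div_pow, one_pow]
        field_simp
      rw [h11, le_div_iff₀ (by positivity)] at h10
      exact h10
    linarith
  have hgn : 0 < ‖g z₀‖ := norm_pos_iff.2 hg0
  refine ⟨‖g z₀‖ / 2, half_pos hgn, ?_⟩
  have h3 : ∀ᶠ z in 𝓝 z₀, ‖g z₀‖ / 2 < ‖g z‖ := hg.continuousAt.norm.eventually_const_lt (half_lt_self hgn)
  have h4 : ∀ᶠ z in 𝓝 z₀, z ∈ ball z₀ 1 := ball_mem_nhds z₀ one_pos
  refine nhdsWithin_le_nhds ?_
  filter_upwards [h3, h4, hfg] with z h5 h6 h7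
  rw [h7, norm_smul, norm_pow]
  rw [mem_ball, dist_eq_norm] at h6
  have h8 : ‖z - z₀‖ ^ M ≤ ‖z - z₀‖ ^ n := pow_le_pow_of_le_one (norm_nonneg _) h6.le hn
  calc ‖g z₀‖ / 2 * ‖z - z₀‖ ^ M ≤ ‖g z‖ * ‖z - z₀‖ ^ n := mul_le_mul h5.le h8 (by positivity) (norm_nonneg _)
    _ = ‖z - z₀‖ ^ n * ‖g z‖ := mul_comm _ _

/-- the curves `Φ s z` in the affine chart `nv v` are smooth in `s` near `(0, z)` -/
def SmN (v : EN N) (Φ : ℝ → ℂ → MN N) (z : ℂ) : Prop :=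
  ∃ (V : ℕ → ℝ → ℂ → EN N) (r : ℝ), 0 < r ∧ (∀ j, ∀ s ∈ Set.Ioo (-r) r, ∀ z' ∈ ball z r, HasDerivAt (fun t => V j t z') (V (j + 1) s z') s) ∧
    (∀ j, ContinuousOn (fun q : ℝ × ℂ => V j q.1 q.2) (Set.Ioo (-r) r ×ˢ ball z r)) ∧ ∀ s ∈ Set.Ioo (-r) r, ∀ z' ∈ ball z r, nd v (Φ s z') ≠ 0 ∧ nv v (Φ s z') = V 0 s z'

/-- the iterated differences of a chain of derivatives -/
private theorem fd_bound {E : Type*} [NormedAddCommGroup E] [NormedSpace ℝ E] {h t : ℝ} (hh : 0 ≤ h) : ∀ (j : ℕ) (W : ℕ → ℝ → E) (a : E) (ε : ℝ),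
    (∀ i, ∀ s ∈ Set.Icc t (t + j * h), HasDerivAt (W i) (W (i + 1) s) s) → (∀ s ∈ Set.Icc t (t + j * h), ‖W j s - a‖ ≤ ε) →
    ‖(fwdDiff h)^[j] (W 0) t - h ^ j • a‖ ≤ h ^ j * ε := by
  intro j
  induction j with
  | zero =>
    intro W a ε _ hb
    have := hb t (by simp)
    simpa using this
  | succ j ih =>
    intro W a ε hW hb
    have hsub : ∀ s ∈ Set.Icc t (t + j * h), s ∈ Set.Icc t (t + (j + 1 : ℕ) * h) ∧ s + h ∈ Set.Icc t (t + (j + 1 : ℕ) * h) := by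
      intro s hs
      push_cast
      refine ⟨⟨hs.1, ?_⟩, ⟨?_, ?_⟩⟩ <;> nlinarith [hs.1, hs.2]
    have h1 := ih (fun i s => W i (s + h) - W i s) (h • a) (h * ε) (fun i s hs => ?_) (fun s hs => ?_)
    · rw [Function.iterate_succ_apply]
      have e : fwdDiff h (W 0) = fun s => W 0 (s + h) - W 0 s := rfl
      rw [e, pow_succ, mul_smul, mul_assoc]
      exact h1
    · obtain ⟨h2, h3⟩ := hsub s hs
      exact ((hW i (s + h) h3).comp_add_const s h).sub (hW i s h2)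
    · obtain ⟨h2, h3⟩ := hsub s hs
      have h4 := norm_image_sub_le_of_norm_deriv_le_segment' (f := fun x => W j x - (x - s) • a) (f' := fun x => W (j + 1) x - (1 : ℝ) • a) (a := s) (b := s + h) (C := ε)
        (fun x hx => ?_) (fun x hx => ?_) (s + h) ⟨by linarith, le_refl _⟩
      · simp only [sub_self, zero_smul, sub_zero, add_sub_cancel_left] at h4
        have h5 : W j (s + h) - W j s - h • a = W j (s + h) - h • a - W j s := by abel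
        rw [h5, mul_comm h ε]
        exact h4
      · have h5 : x ∈ Set.Icc t (t + (j + 1 : ℕ) * h) := ⟨h2.1.trans hx.1, hx.2.trans h3.2⟩
        exact ((hW j x h5).sub (((hasDerivAt_id x).sub_const s).smul_const a)).hasDerivWithinAt
      · rw [one_smul]
        exact hb x ⟨h2.1.trans hx.1, hx.2.le.trans h3.2⟩

private theorem fd_congr {E : Type*} [AddCommGroup E] {h : ℝ} {j : ℕ} {f g : ℝ → E} (hfg : ∀ i ∈ Finset.range (j + 1), f (i * h) = g (i * h)) :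
    (fwdDiff h)^[j] f 0 = (fwdDiff h)^[j] g 0 := by
  rw [fwdDiff_iter_eq_sum_shift, fwdDiff_iter_eq_sum_shift]
  refine Finset.sum_congr rfl fun i hi => ?_
  rw [zero_add, nsmul_eq_mul, hfg i hi]

theorem jet_pole {Φ : ℝ → ℂ → MN N} {z₀ z₁ : ℂ} {S : Set ℂ} {v : EN N} {c : ℝ} {M : ℕ} (hc : 0 < c) (hM : (N + 1 : ℝ) < c * 16 ^ (M + 1)) (hz : ‖z₁ - z₀‖ ≤ 1 / 8)
    (hS : ∀ᶠ z in 𝓝[≠] z₀, z ∉ S)
    (hF : ∀ᶠ s : ℝ in 𝓝 0, ∃ F : ℂ → EN N, DifferentiableOn ℂ F (ball z₀ 2) ∧ (∀ z ∈ ball z₀ 2, F z ≠ 0 ∧ Φ s z = pr (F z) ∧ ‖F z‖ ≤ 1) ∧ c ≤ ‖F z₁‖)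
    (hv : ∃ F : ℂ → EN N, ContinuousAt F z₀ ∧ inner ℂ v (F z₀) ≠ (0 : ℂ) ∧ ∀ᶠ z in 𝓝 z₀, Φ 0 z = pr (F z))
    (hs : ∀ z, z ∉ S → nd v (Φ 0 z) ≠ 0 → SmN v Φ z) (j : ℕ) :
    ∃ C : ℝ, ∀ᶠ z in 𝓝[≠] z₀, ‖iteratedDeriv j (fun s : ℝ => nv v (Φ s z)) 0‖ * ‖z - z₀‖ ^ ((j + 1) * M) ≤ C := by
  classical
  have hz₁ : z₁ ∈ ball z₀ 2 := by
    rw [mem_ball, dist_eq_norm]
    linarith
  obtain ⟨s₀, hs₀, hF'⟩ := Metric.eventually_nhds_iff_ball.1 hF
  choose! Fs hFs using hF'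
  obtain ⟨Fv, hFc, hF0, hFe⟩ := hv
  obtain ⟨κ, hκd⟩ : ∃ κ, κ = ‖(inner ℂ v (Fv z₀) : ℂ)‖ / 2 := ⟨_, rfl⟩
  have hκ : 0 < κ := by
    rw [hκd]
    exact half_pos (norm_pos_iff.2 hF0)
  have e1 : ∀ᶠ z in 𝓝 z₀, κ < ‖(inner ℂ v (Fv z) : ℂ)‖ := by
    have h1 : ContinuousAt (fun z => (inner ℂ v (Fv z) : ℂ)) z₀ :=
      ContinuousAt.comp (g := fun x : EN N => (inner ℂ v x : ℂ)) (f := Fv) (innerSL ℂ v).continuous.continuousAt hFc
    refine h1.norm.eventually_const_lt ?_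
    rw [hκd]
    exact half_lt_self (norm_pos_iff.2 hF0)
  have e2 : ∀ᶠ z in 𝓝 z₀, ‖Fv z‖ < ‖Fv z₀‖ + 1 := hFc.norm.eventually_lt_const (lt_add_one _)
  have e3 : ∀ᶠ z in 𝓝 z₀, z ∈ ({z₀}ᶜ : Set ℂ) → z ∉ S := eventually_nhdsWithin_iff.1 hS
  obtain ⟨r₀, hr₀, hr⟩ := Metric.eventually_nhds_iff_ball.1 (e1.and (e2.and (e3.and hFe)))
  obtain ⟨C₁, hC₁d⟩ : ∃ C₁, C₁ = κ⁻¹ * (‖Fv z₀‖ + 1) := ⟨_, rfl⟩
  have hC₁ : 0 < C₁ := by
    rw [hC₁d]
    positivity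
  have hnd0 : ∀ z ∈ ball z₀ r₀, nd v (Φ 0 z) ≠ 0 ∧ ‖nv v (Φ 0 z)‖ ≤ C₁ := by
    intro z hz
    obtain ⟨h1, h2, -, h4⟩ := hr z hz
    have h5 : (inner ℂ v (Fv z) : ℂ) ≠ 0 := norm_pos_iff.1 (hκ.trans h1)
    have h6 : Fv z ≠ 0 := by
      intro h
      rw [h, inner_zero_right] at h5
      exact h5 rfl
    rw [h4]
    refine ⟨(Pool.Agent.G3.C.nd_pr_ne h6).2 h5, ?_⟩
    rw [Pool.Agent.G3.C.nv_pr h5, norm_smul, norm_inv, hC₁d]
    exact mul_le_mul (inv_anti₀ hκ h1.le) h2.le (norm_nonneg _) (inv_nonneg.2 hκ.le)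
  have hSm : ∀ z ∈ ball z₀ r₀, z ≠ z₀ → SmN v Φ z := fun z hz hne => hs z ((hr z hz).2.2.1 hne) (hnd0 z hz).1
  obtain ⟨r, hrd⟩ : ∃ r, r = min (r₀ / 2) 1 := ⟨_, rfl⟩
  have hr1 : 0 < r := by
    rw [hrd]
    exact lt_min (half_pos hr₀) one_pos
  have hr2 : closedBall z₀ r ⊆ ball z₀ r₀ := by
    refine closedBall_subset_ball ?_
    have h1 : r ≤ r₀ / 2 := by
      rw [hrd]
      exact min_le_left _ _
    linarith
  have hr3 : closedBall z₀ r ⊆ ball z₀ 2 := by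
    refine closedBall_subset_ball ?_
    have h1 : r ≤ 1 := by
      rw [hrd]
      exact min_le_right _ _
    linarith
  -- the steps
  obtain ⟨h, hhd⟩ : ∃ h : ℕ → ℝ, h = fun n : ℕ => 1 / ((n : ℝ) + 1) := ⟨_, rfl⟩
  have hh : ∀ n, 0 < h n := fun n => by
    rw [hhd]
    positivity
  have htend : Tendsto h atTop (𝓝 0) := by
    rw [hhd]
    exact tendsto_one_div_add_atTop_nhds_zero_nat
  have hsm : ∀ δ : ℝ, 0 < δ → ∀ᶠ n in atTop, (j : ℝ) * h n < δ := by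
    intro δ hδ
    have h1 := htend.const_mul (j : ℝ)
    rw [mul_zero] at h1
    exact h1.eventually_lt_const hδ
  have hin : ∀ n, ∀ i ∈ Finset.range (j + 1), 0 ≤ (i : ℝ) * h n ∧ (i : ℝ) * h n ≤ j * h n := by
    intro n i hi
    refine ⟨mul_nonneg (Nat.cast_nonneg i) (hh n).le, mul_le_mul_of_nonneg_right ?_ (hh n).le⟩
    exact_mod_cast Finset.mem_range_succ_iff.1 hi
  have hit : ∀ i : ℕ, Tendsto (fun n => (i : ℝ) * h n) atTop (𝓝 0) := by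
    intro i
    have h1 := htend.const_mul (i : ℝ)
    rwa [mul_zero] at h1
  obtain ⟨P, hP⟩ : ∃ P : ℕ → ℕ → ℂ → ℂ, P = fun (n i : ℕ) (z : ℂ) => inner ℂ v (Fs (i * h n) z) := ⟨_, rfl⟩
  obtain ⟨V, hV⟩ : ∃ V : ℕ → ℂ → EN N, V = fun n z => ((h n) ^ j)⁻¹ •
      ∑ i ∈ Finset.range (j + 1), ((-1 : ℤ) ^ (j - i) * j.choose i) • ((∏ l ∈ (Finset.range (j + 1)).erase i, P n l z) • Fs (i * h n) z) := ⟨_, rfl⟩
  obtain ⟨D, hD⟩ : ∃ D : ℕ → ℂ → EN N, D = fun n z => ((h n) ^ j)⁻¹ • (fwdDiff (h n))^[j] (fun s => nv v (Φ s z)) 0 := ⟨_, rfl⟩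
  have hlift : ∀ᶠ n in atTop, ∀ i ∈ Finset.range (j + 1), (i : ℝ) * h n ∈ ball (0 : ℝ) s₀ := by
    filter_upwards [hsm s₀ hs₀] with n hn i hi
    obtain ⟨h1, h2⟩ := hin n i hi
    rw [mem_ball, Real.dist_eq, sub_zero, abs_of_nonneg h1]
    exact h2.trans_lt hn
  have hVD : ∀ n z, z ∈ ball z₀ 2 → (∀ i ∈ Finset.range (j + 1), (i : ℝ) * h n ∈ ball (0 : ℝ) s₀) → (∀ i ∈ Finset.range (j + 1), nd v (Φ (i * h n) z) ≠ 0) →
      V n z = (∏ l ∈ Finset.range (j + 1), P n l z) • D n z := by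
    intro n z hz h1 h2
    rw [hV, hD]
    show ((h n) ^ j)⁻¹ • ∑ i ∈ Finset.range (j + 1), ((-1 : ℤ) ^ (j - i) * j.choose i) • ((∏ l ∈ (Finset.range (j + 1)).erase i, P n l z) • Fs (i * h n) z) =
      (∏ l ∈ Finset.range (j + 1), P n l z) • (((h n) ^ j)⁻¹ • (fwdDiff (h n))^[j] (fun s => nv v (Φ s z)) 0)
    rw [fwdDiff_iter_eq_sum_shift, smul_comm (∏ l ∈ Finset.range (j + 1), P n l z) ((h n ^ j)⁻¹)]
    congr 1
    rw [Finset.smul_sum]
    refine Finset.sum_congr rfl fun i hi => ?_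
    rw [zero_add, nsmul_eq_mul]
    obtain ⟨-, h3, -⟩ := hFs _ (h1 i hi)
    obtain ⟨h4, h5, -⟩ := h3 z hz
    have h6 : P n i z ≠ 0 := by
      have h7 := h2 i hi
      rw [h5] at h7
      rw [hP]
      exact (Pool.Agent.G3.C.nd_pr_ne h4).1 h7
    have h7 : nv v (Φ (i * h n) z) = (P n i z)⁻¹ • Fs (i * h n) z := by
      rw [h5]
      rw [hP] at h6 ⊢
      exact Pool.Agent.G3.C.nv_pr h6
    rw [h7, ← Finset.mul_prod_erase _ _ hi, smul_comm (P n i z * ∏ x ∈ (Finset.range (j + 1)).erase i, P n x z)]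
    congr 1
    rw [smul_smul]
    congr 1
    field_simp
  -- the bound on the circle
  have hcirc : ∃ B : ℝ, ∀ᶠ n in atTop, ∀ z ∈ sphere z₀ r, (∀ i ∈ Finset.range (j + 1), nd v (Φ (i * h n) z) ≠ 0) ∧ ‖D n z‖ ≤ B := by
    refine (isCompact_sphere z₀ r).induction_on (p := fun T : Set ℂ => ∃ B : ℝ, ∀ᶠ n in atTop, ∀ z ∈ T, (∀ i ∈ Finset.range (j + 1), nd v (Φ (i * h n) z) ≠ 0) ∧ ‖D n z‖ ≤ B) ?_ ?_ ?_ ?_
    · exact ⟨0, Eventually.of_forall fun n z hz => absurd hz (Set.notMem_empty z)⟩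
    · rintro T T' hTT ⟨B, hB⟩
      exact ⟨B, hB.mono fun n hn z hz => hn z (hTT hz)⟩
    · rintro T T' ⟨B, hB⟩ ⟨B', hB'⟩
      refine ⟨max B B', ?_⟩
      filter_upwards [hB, hB'] with n h1 h2 z hz
      rcases hz with hz | hz
      · exact ⟨(h1 z hz).1, (h1 z hz).2.trans (le_max_left _ _)⟩
      · exact ⟨(h2 z hz).1, (h2 z hz).2.trans (le_max_right _ _)⟩
    · intro x hx
      have hxx : x ≠ z₀ := by
        rintro rfl
        rw [mem_sphere, dist_self] at hx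
        linarith
      obtain ⟨W, ρ, hρ, hW1, hW2, hW3⟩ := hSm x (hr2 (sphere_subset_closedBall hx)) hxx
      have h0 : ((0, x) : ℝ × ℂ) ∈ Set.Ioo (-ρ) ρ ×ˢ ball x ρ := ⟨⟨by linarith, hρ⟩, mem_ball_self hρ⟩
      have hc0 : ContinuousAt (fun q : ℝ × ℂ => W j q.1 q.2) (0, x) := (hW2 j).continuousAt ((isOpen_Ioo.prod isOpen_ball).mem_nhds h0)
      have hc1 : ∀ᶠ q in 𝓝 ((0, x) : ℝ × ℂ), ‖W j q.1 q.2‖ < ‖W j 0 x‖ + 1 := hc0.norm.eventually_lt_const (lt_add_one _)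
      obtain ⟨δ, hδ, hδW⟩ := Metric.eventually_nhds_iff_ball.1 hc1
      refine ⟨ball x (min δ ρ), mem_nhdsWithin_of_mem_nhds (ball_mem_nhds x (lt_min hδ hρ)), ‖W j 0 x‖ + 1, ?_⟩
      filter_upwards [hsm _ (lt_min hδ hρ)] with n hn z hz
      have hzρ : z ∈ ball x ρ := ball_subset_ball (min_le_right _ _) hz
      have hI : ∀ s ∈ Set.Icc (0 : ℝ) (0 + j * h n), s ∈ Set.Ioo (-ρ) ρ := by
        intro s hs
        rw [zero_add] at hs
        exact ⟨by linarith [hs.1], (hs.2.trans_lt hn).trans_le (min_le_right _ _)⟩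
      have hII : ∀ i ∈ Finset.range (j + 1), (i : ℝ) * h n ∈ Set.Ioo (-ρ) ρ := fun i hi => hI _ (by
        rw [zero_add]
        exact hin n i hi)
      refine ⟨fun i hi => (hW3 _ (hII i hi) z hzρ).1, ?_⟩
      have h1 := fd_bound (hh n).le j (fun i s => W i s z) 0 (‖W j 0 x‖ + 1) (t := 0) (fun i s hs => hW1 i s (hI s hs) z hzρ) (fun s hs => ?_)
      · have h2 : (fwdDiff (h n))^[j] (fun s => nv v (Φ s z)) 0 = (fwdDiff (h n))^[j] (fun s => W 0 s z) 0 := fd_congr fun i hi => (hW3 _ (hII i hi) z hzρ).2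
        rw [hD]
        show ‖((h n) ^ j)⁻¹ • (fwdDiff (h n))^[j] (fun s => nv v (Φ s z)) 0‖ ≤ _
        rw [h2, norm_smul, norm_inv, norm_pow, Real.norm_of_nonneg (hh n).le]
        rw [smul_zero, sub_zero] at h1
        have h3 : 0 < h n ^ j := pow_pos (hh n) j
        rw [inv_mul_le_iff₀ h3]
        exact h1
      · rw [sub_zero]
        refine (hδW (s, z) ?_).le
        rw [mem_ball, Prod.dist_eq]
        rw [zero_add] at hs
        refine max_lt ?_ ((mem_ball.1 hz).trans_le (min_le_left _ _))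
        show dist s 0 < δ
        rw [Real.dist_eq, sub_zero, abs_of_nonneg hs.1]
        exact (hs.2.trans_lt hn).trans_le (min_le_left _ _)
  obtain ⟨B, hB⟩ := hcirc
  have hPb : ∀ n, (∀ i ∈ Finset.range (j + 1), (i : ℝ) * h n ∈ ball (0 : ℝ) s₀) → ∀ z ∈ ball z₀ 2, ∀ i ∈ Finset.range (j + 1), ‖P n i z‖ ≤ ‖v‖ := by
    intro n hn z hz i hi
    obtain ⟨-, h3, -⟩ := hFs _ (hn i hi)
    obtain ⟨-, -, h5⟩ := h3 z hz
    rw [hP]
    calc ‖(inner ℂ v (Fs (i * h n) z) : ℂ)‖ ≤ ‖v‖ * ‖Fs (i * h n) z‖ := norm_inner_le_norm _ _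
      _ ≤ ‖v‖ * 1 := mul_le_mul_of_nonneg_left h5 (norm_nonneg _)
      _ = ‖v‖ := mul_one _
  have hVd : ∀ n, (∀ i ∈ Finset.range (j + 1), (i : ℝ) * h n ∈ ball (0 : ℝ) s₀) → DifferentiableOn ℂ (V n) (ball z₀ 2) := by
    intro n hn
    have h1 : ∀ i ∈ Finset.range (j + 1), DifferentiableOn ℂ (Fs (i * h n)) (ball z₀ 2) := fun i hi => (hFs _ (hn i hi)).1
    have h2 : ∀ i ∈ Finset.range (j + 1), DifferentiableOn ℂ (P n i) (ball z₀ 2) := by
      intro i hi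
      rw [hP]
      exact (innerSL ℂ v).differentiable.comp_differentiableOn (h1 i hi)
    rw [hV]
    refine DifferentiableOn.fun_const_smul ?_ _
    refine DifferentiableOn.fun_sum fun i hi => ?_
    refine DifferentiableOn.fun_const_smul ?_ _
    exact (DifferentiableOn.fun_finsetProd fun l hl => h2 l (Finset.mem_of_mem_erase hl)).smul (h1 i hi)
  obtain ⟨B', hB'd⟩ : ∃ B', B' = ‖v‖ ^ (j + 1) * B := ⟨_, rfl⟩
  have hVb : ∀ᶠ n in atTop, ∀ z ∈ closedBall z₀ r, ‖V n z‖ ≤ B' := by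
    filter_upwards [hB, hlift] with n h1 h2 z hz
    rw [← closure_ball z₀ hr1.ne'] at hz
    refine Complex.norm_le_of_forall_mem_frontier_norm_le (U := ball z₀ r) isBounded_ball (((hVd n h2).mono hr3).diffContOnCl_ball (le_refl _)) (fun z hz => ?_) hz
    rw [frontier_ball _ hr1.ne'] at hz
    obtain ⟨h3, h4⟩ := h1 z hz
    have hz2 : z ∈ ball z₀ 2 := hr3 (sphere_subset_closedBall hz)
    rw [hVD n z hz2 h2 h3, norm_smul, norm_prod, hB'd]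
    refine mul_le_mul ?_ h4 (norm_nonneg _) (by positivity)
    calc ∏ i ∈ Finset.range (j + 1), ‖P n i z‖ ≤ ∏ i ∈ Finset.range (j + 1), ‖v‖ := Finset.prod_le_prod (fun i _ => norm_nonneg _) (hPb n h2 z hz2)
      _ = ‖v‖ ^ (j + 1) := by rw [Finset.prod_const, Finset.card_range]
  -- the limits
  have h𝒰 : ((hyperfilter ℕ : Ultrafilter ℕ) : Filter ℕ) ≤ atTop := Nat.hyperfilter_le_atTop
  have hG : ∀ i ∈ Finset.range (j + 1), ∃ K : ℂ → EN N, DifferentiableOn ℂ K (ball z₀ 2) ∧ (∀ z ∈ ball z₀ 2, ‖K z‖ ≤ 1) ∧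
      ∀ z ∈ ball z₀ 2, Tendsto (fun n => Fs (i * h n) z) (hyperfilter ℕ : Ultrafilter ℕ) (𝓝 (K z)) := by
    intro i hi
    obtain ⟨K, h1, h2, h3⟩ := Pool.Agent.G3.A.ul_diff (𝒰 := hyperfilter ℕ) (g := fun n => Fs (i * h n)) (z₀ := z₀) (r := 2) (C := 1) (by
      filter_upwards [h𝒰 hlift] with n hn
      obtain ⟨h3, h4, -⟩ := hFs _ (hn i hi)
      exact ⟨h3, fun z hz => (h4 z hz).2.2⟩)
    exact ⟨K, h1, h2, fun z hz => h3 z hz (fun _ => z) tendsto_const_nhds⟩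
  choose! G hGd hGb hGt using hG
  -- the limit of the relations
  have hrel : ∀ z ∈ ball z₀ r, z ≠ z₀ → (∀ i ∈ Finset.range (j + 1), ‖G i z‖ ≤ C₁ * ‖(inner ℂ v (G i z) : ℂ)‖) ∧
      (∏ i ∈ Finset.range (j + 1), ‖(inner ℂ v (G i z) : ℂ)‖) * ‖iteratedDeriv j (fun s : ℝ => nv v (Φ s z)) 0‖ ≤ B' := by
    intro z hz hzz
    have hz1 : z ∈ closedBall z₀ r := ball_subset_closedBall hz
    have hz2 : z ∈ ball z₀ 2 := hr3 hz1
    obtain ⟨W, ρ, hρ, hW1, hW2, hW3⟩ := hSm z (hr2 hz1) hzz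
    have hzρ : z ∈ ball z ρ := mem_ball_self hρ
    have h0I : (0 : ℝ) ∈ Set.Ioo (-ρ) ρ := ⟨by linarith, hρ⟩
    have hII : ∀ᶠ n in atTop, ∀ i ∈ Finset.range (j + 1), (i : ℝ) * h n ∈ Set.Ioo (-ρ) ρ := by
      filter_upwards [hsm ρ hρ] with n hn i hi
      obtain ⟨h1, h2⟩ := hin n i hi
      exact ⟨by linarith, h2.trans_lt hn⟩
    have hinner : ∀ i ∈ Finset.range (j + 1), Tendsto (fun n => P n i z) (hyperfilter ℕ : Ultrafilter ℕ) (𝓝 (inner ℂ v (G i z))) := by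
      intro i hi
      rw [hP]
      exact ((innerSL ℂ v).continuous.tendsto (G i z)).comp (hGt i hi z hz2)
    refine ⟨fun i hi => ?_, ?_⟩
    · have h1 : Tendsto (fun n => W 0 (i * h n) z) (hyperfilter ℕ : Ultrafilter ℕ) (𝓝 (W 0 0 z)) := by
        have h2 : ContinuousAt (fun s => W 0 s z) 0 := (hW1 0 0 h0I z hzρ).continuousAt
        exact (h2.tendsto.comp (hit i)).mono_left h𝒰
      have h2 := (hinner i hi).smul h1
      have h3 : Tendsto (fun n => Fs (i * h n) z) (hyperfilter ℕ : Ultrafilter ℕ) (𝓝 ((inner ℂ v (G i z) : ℂ) • W 0 0 z)) := by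
        refine h2.congr' ?_
        filter_upwards [h𝒰 hII, h𝒰 hlift] with n h4 h5
        obtain ⟨h6, h7⟩ := hW3 _ (h4 i hi) z hzρ
        obtain ⟨-, h8, -⟩ := hFs _ (h5 i hi)
        obtain ⟨h9, h10, -⟩ := h8 z hz2
        rw [h10] at h6 h7
        have h11 := (Pool.Agent.G3.C.nd_pr_ne h9).1 h6
        rw [Pool.Agent.G3.C.nv_pr h11] at h7
        rw [← h7, hP]
        show (inner ℂ v (Fs (i * h n) z) : ℂ) • (inner ℂ v (Fs (i * h n) z) : ℂ)⁻¹ • Fs (i * h n) z = Fs (i * h n) z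
        rw [smul_smul, mul_inv_cancel₀ h11, one_smul]
      have h4 := tendsto_nhds_unique (hGt i hi z hz2) h3
      have h5 : ‖W 0 0 z‖ ≤ C₁ := by
        rw [← (hW3 0 h0I z hzρ).2]
        exact (hnd0 z (hr2 hz1)).2
      calc ‖G i z‖ = ‖(inner ℂ v (G i z) : ℂ)‖ * ‖W 0 0 z‖ := by
            conv_lhs => rw [h4]
            rw [norm_smul]
        _ ≤ ‖(inner ℂ v (G i z) : ℂ)‖ * C₁ := mul_le_mul_of_nonneg_left h5 (norm_nonneg _)
        _ = _ := mul_comm _ _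
    · have hit' : iteratedDeriv j (fun s : ℝ => nv v (Φ s z)) 0 = W j 0 z :=
        iter_chain (I := Set.Ioo (-ρ) ρ) isOpen_Ioo (H := fun i s => W i s z) (fun i s hs => hW1 i s hs z hzρ) (fun s hs => (hW3 s hs z hzρ).2) j 0 h0I
      rw [hit']
      have hDt : Tendsto (fun n => D n z) atTop (𝓝 (W j 0 z)) := by
        rw [Metric.tendsto_nhds]
        intro ε hε
        have h1 : ContinuousAt (fun s => W j s z) 0 := (hW1 j 0 h0I z hzρ).continuousAt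
        obtain ⟨δ, hδ, h2⟩ := Metric.continuousAt_iff.1 h1 (ε / 2) (half_pos hε)
        filter_upwards [hsm _ (lt_min hδ hρ), hII] with n hn hnI
        have h3 := fd_bound (hh n).le j (fun i s => W i s z) (W j 0 z) (ε / 2) (t := 0) (fun i s hs => hW1 i s (by
          rw [zero_add] at hs
          exact ⟨by linarith [hs.1], (hs.2.trans_lt hn).trans_le (min_le_right _ _)⟩) z hzρ) (fun s hs => by
          rw [zero_add] at hs
          have h4 := h2 (x := s) (by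
            rw [Real.dist_eq, sub_zero, abs_of_nonneg hs.1]
            exact (hs.2.trans_lt hn).trans_le (min_le_left _ _))
          rw [dist_eq_norm] at h4
          exact h4.le)
        have h4 : (fwdDiff (h n))^[j] (fun s => nv v (Φ s z)) 0 = (fwdDiff (h n))^[j] (fun s => W 0 s z) 0 := fd_congr fun i hi => (hW3 _ (hnI i hi) z hzρ).2
        have h5 : 0 < h n ^ j := pow_pos (hh n) j
        rw [hD]
        show dist (((h n) ^ j)⁻¹ • (fwdDiff (h n))^[j] (fun s => nv v (Φ s z)) 0) (W j 0 z) < ε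
        rw [h4, dist_eq_norm]
        have h6 : ((h n) ^ j)⁻¹ • (fwdDiff (h n))^[j] (fun s => W 0 s z) 0 - W j 0 z =
            ((h n) ^ j)⁻¹ • ((fwdDiff (h n))^[j] (fun s => W 0 s z) 0 - h n ^ j • W j 0 z) := by
          rw [smul_sub, smul_smul, inv_mul_cancel₀ h5.ne', one_smul]
        rw [h6, norm_smul, norm_inv, norm_pow, Real.norm_of_nonneg (hh n).le]
        refine lt_of_le_of_lt ?_ (half_lt_self hε)
        rw [inv_mul_le_iff₀ h5]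
        exact h3
      have h1 : Tendsto (fun n => (∏ i ∈ Finset.range (j + 1), ‖P n i z‖) * ‖D n z‖) (hyperfilter ℕ : Ultrafilter ℕ)
          (𝓝 ((∏ i ∈ Finset.range (j + 1), ‖(inner ℂ v (G i z) : ℂ)‖) * ‖W j 0 z‖)) :=
        (tendsto_finsetProd _ fun i hi => (hinner i hi).norm).mul ((hDt.mono_left h𝒰).norm)
      refine le_of_tendsto h1 ?_
      filter_upwards [h𝒰 hII, h𝒰 hlift, h𝒰 hVb] with n h2 h3 h4
      have h5 := h4 z hz1
      rw [hVD n z hz2 h3 (fun i hi => (hW3 _ (h2 i hi) z hzρ).1), norm_smul, norm_prod] at h5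
      exact h5
  -- the lower bounds
  have hlow : ∀ i ∈ Finset.range (j + 1), ∃ c' : ℝ, 0 < c' ∧ ∀ᶠ z in 𝓝[≠] z₀, c' * ‖z - z₀‖ ^ M ≤ ‖(inner ℂ v (G i z) : ℂ)‖ := by
    intro i hi
    have h1 : c ≤ ‖G i z₁‖ := by
      refine ge_of_tendsto (hGt i hi z₁ hz₁).norm ?_
      filter_upwards [h𝒰 hlift] with n hn
      exact (hFs _ (hn i hi)).2.2
    have h2 : ∃ l, c / (N + 1) ≤ ‖G i z₁ l‖ := by
      by_contra hcon
      push Not at hcon
      have h3 : ∑ l, ‖G i z₁ l‖ < ∑ _l : Fin (N + 1), c / (N + 1) := Finset.sum_lt_sum_of_nonempty Finset.univ_nonempty fun l _ => hcon l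
      rw [Finset.sum_const, Finset.card_univ, Fintype.card_fin, nsmul_eq_mul] at h3
      have h4 : ((N + 1 : ℕ) : ℝ) * (c / (N + 1)) = c := by
        push_cast
        field_simp
      rw [h4] at h3
      exact absurd (h1.trans (norm_le_coord _)) (not_le.2 h3)
    obtain ⟨l, hl⟩ := h2
    have hN : (0 : ℝ) < N + 1 := by positivity
    obtain ⟨c', hc', h3⟩ := ord_lb (f := fun z => G i z l) (z₀ := z₀) (z₁ := z₁) (B := 1) (c := c / (N + 1)) (M := M)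
      ((EuclideanSpace.proj (𝕜 := ℂ) l : EN N →L[ℂ] ℂ).differentiable.comp_differentiableOn (hGd i hi))
      (fun z hz => (PiLp.norm_apply_le (G i z) l).trans (hGb i hi z hz)) hz (by positivity) hl (by
        rw [div_mul_eq_mul_div, lt_div_iff₀ hN, one_mul]
        exact hM)
    refine ⟨c' / C₁, by positivity, ?_⟩
    filter_upwards [h3, self_mem_nhdsWithin, mem_nhdsWithin_of_mem_nhds (ball_mem_nhds z₀ hr1)] with z h4 h5 h6
    have h7 := (hrel z h6 h5).1 i hi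
    have h8 : c' * ‖z - z₀‖ ^ M ≤ C₁ * ‖(inner ℂ v (G i z) : ℂ)‖ := h4.trans ((PiLp.norm_apply_le (G i z) l).trans h7)
    rw [div_mul_eq_mul_div, div_le_iff₀ hC₁, mul_comm _ C₁]
    exact h8
  choose! c' hc' hlow' using hlow
  have hall : ∀ᶠ z in 𝓝[≠] z₀, ∀ i ∈ Finset.range (j + 1), c' i * ‖z - z₀‖ ^ M ≤ ‖(inner ℂ v (G i z) : ℂ)‖ := by
    rw [Filter.eventually_all_finset]
    exact hlow'
  have hcp : 0 < ∏ i ∈ Finset.range (j + 1), c' i := Finset.prod_pos hc'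
  refine ⟨B' / ∏ i ∈ Finset.range (j + 1), c' i, ?_⟩
  filter_upwards [hall, self_mem_nhdsWithin, mem_nhdsWithin_of_mem_nhds (ball_mem_nhds z₀ hr1)] with z h4 h5 h6
  have h7 := (hrel z h6 h5).2
  have h8 : (∏ i ∈ Finset.range (j + 1), c' i) * ‖z - z₀‖ ^ ((j + 1) * M) ≤ ∏ i ∈ Finset.range (j + 1), ‖(inner ℂ v (G i z) : ℂ)‖ := by
    have h9 : (∏ i ∈ Finset.range (j + 1), c' i) * ‖z - z₀‖ ^ ((j + 1) * M) = ∏ i ∈ Finset.range (j + 1), (c' i * ‖z - z₀‖ ^ M) := by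
      rw [Finset.prod_mul_distrib, Finset.prod_const, Finset.card_range, ← pow_mul, mul_comm M]
    rw [h9]
    exact Finset.prod_le_prod (fun i hi => mul_nonneg (hc' i hi).le (by positivity)) h4
  rw [le_div_iff₀ hcp]
  calc ‖iteratedDeriv j (fun s : ℝ => nv v (Φ s z)) 0‖ * ‖z - z₀‖ ^ ((j + 1) * M) * ∏ i ∈ Finset.range (j + 1), c' i =
        ((∏ i ∈ Finset.range (j + 1), c' i) * ‖z - z₀‖ ^ ((j + 1) * M)) * ‖iteratedDeriv j (fun s : ℝ => nv v (Φ s z)) 0‖ := by ring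
    _ ≤ (∏ i ∈ Finset.range (j + 1), ‖(inner ℂ v (G i z) : ℂ)‖) * ‖iteratedDeriv j (fun s : ℝ => nv v (Φ s z)) 0‖ := mul_le_mul_of_nonneg_right h8 (norm_nonneg _)
    _ ≤ B' := h7

end Pool.Agent.G4.C

end
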