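import Pool.Agent.H94.G5T.M45
import Pool.Agent.H94.G5T.M54
import Pool.Agent.H94.G5T.M65
import Pool.Agent.H94.G5T.M71
import Pool.Agent.H94.G5T.M78
import Pool.Agent.H94.G5T.M79

/-! The parts of this file: G4.C.QFt, G4.C.PoB, G3.R.PrmI. -/

section

/-!
# G4 C QFt: the jet form in a straight chart is not identically `0`

As in `G3/C/QFt`, with the curve of `ThP.thin` near the point `χ.σ (cz b ν a c ρ x s₁ z₁)` over `b + s₁ ν + z₁ a ∉ Nν`: its base point is exactly this point (`Lat.disc`).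
-/

set_option autoImplicit false

open Topology Filter Metric

namespace Pool.Agent.G4.C

open Pool.Agent.H36.BP (EN fs wd)
open Pool.Agent.H14.PP (IsCone)
open Pool.Agent.H62.EF (MN pr)
open Pool.Agent.AD (Vd Chart Charts)
open Pool.Agent.TG (TMap Lat Str ms tl)
open Pool.Agent.G3.C

variable {N k : ℕ} {X : Set (EN N)} {Λ : AddSubgroup (Vd (k + 1))} {u : EN N → Vd (k + 1)} {ν a b c : Vd (k + 1)} {m : ℕ} {ρ : ℝ}

private theorem eq_cz (hρ : 0 < ρ) {p : Vd (k + 2)} {s z : ℂ} (h : ms c ρ p = b + s • ν + z • a) : p = cz b ν a c ρ (p 0) s z := by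
  have h0 : (ρ : ℂ) ≠ 0 := by exact_mod_cast hρ.ne'
  funext i
  refine Fin.cases rfl (fun j => ?_) i
  have h1 : c j + (ρ : ℂ) * p j.succ = b j + s * ν j + z * a j := congrFun h j
  change p j.succ = (ρ : ℂ)⁻¹ * (b j + s * ν j + z * a j - c j)
  rw [← h1]
  field_simp
  ring

private theorem cz_sub_le (x x' s z : ℂ) : ‖cz b ν a c ρ x s z - cz b ν a c ρ x' s z‖ ≤ ‖x - x'‖ := by
  rw [pi_norm_le_iff_of_nonneg (norm_nonneg _)]
  intro i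
  refine Fin.cases le_rfl (fun j => ?_) i
  change ‖tz b ν a c ρ s z j - tz b ν a c ρ s z j‖ ≤ ‖x - x'‖
  rw [sub_self, norm_zero]
  exact norm_nonneg _

theorem QF_ne (hX : IsCone X) (hu : TMap X Λ u) (hΛ : Lat Λ) {P : JForm X Λ u ν m} {Nν : Set (Vd (k + 1))} (hP : ThP P a Nν)
    {χ : Chart (k + 2) X} (hs : Str Λ u χ c ρ) {x s₁ z₁ : ℂ} (hx : cz b ν a c ρ x s₁ z₁ ∈ ball (0 : Vd (k + 2)) 2) (hy : b + s₁ • ν + z₁ • a ∉ Nν) :
    ∃ q ∈ OD b ν a c ρ m, QF P b a χ c ρ q ≠ 0 := by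
  set p₁ := cz b ν a c ρ x s₁ z₁ with hp₁
  obtain ⟨hxX, hxU, hxq⟩ := χ.σ_mem p₁ hx
  have hms1 : ms c ρ p₁ = b + s₁ • ν + z₁ • a := ms_cz hs.pos x s₁ z₁
  have hu1 : u (χ.σ p₁) - (b + s₁ • ν + z₁ • a) ∈ Λ := by
    rw [← hms1]
    exact hs.lift p₁ hx
  obtain ⟨δ₀, hδ₀, hdisc₀⟩ := hΛ.disc
  -- the neighbourhood
  have hnb : {x' : EN N | x' ∈ χ.U ∧ ‖ms c ρ (χ.q x') - ms c ρ p₁‖ < δ₀} ∈ 𝓝 (χ.σ p₁) := by
    have h1 : Continuous (fun p : Vd (k + 2) => ms c ρ p) := by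
      unfold ms tl
      fun_prop
    have h2 : ContinuousAt (fun x' : EN N => ‖ms c ρ (χ.q x') - ms c ρ p₁‖) (χ.σ p₁) :=
      ((ContinuousAt.comp (g := fun p : Vd (k + 2) => ms c ρ p) (f := χ.q) h1.continuousAt (χ.q_an _ hxU).continuousAt).sub continuousAt_const).norm
    have h3 : ∀ᶠ x' in 𝓝 (χ.σ p₁), ‖ms c ρ (χ.q x') - ms c ρ p₁‖ < δ₀ := by
      refine h2.eventually_lt_const ?_
      show ‖ms c ρ (χ.q (χ.σ p₁)) - ms c ρ p₁‖ < δ₀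
      rw [hxq, sub_self, norm_zero]
      exact hδ₀
    filter_upwards [χ.isOpen_U.mem_nhds hxU, h3] with x' h4 h5
    exact ⟨h4, h5⟩
  obtain ⟨φ, hφ, ⟨hφU, hφδ⟩, hφu, hne⟩ := hP.thin _ hy (χ.σ p₁) hxX hu1 _ hnb
  obtain ⟨hφan, hφev⟩ := hφ
  -- the coordinates of the curve
  set p : ℂ → Vd (k + 2) := fun t => χ.q (φ t) with hp
  have hpan : AnalyticAt ℂ p 0 := AnalyticAt.fun_comp (g := χ.q) (f := φ) (χ.q_an (φ 0) hφU) hφan
  have hφX : φ 0 ∈ X := hφev.self_of_nhds.1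
  have hUev : ∀ᶠ t in 𝓝 (0 : ℂ), φ t ∈ χ.U := hφan.continuousAt.eventually (χ.isOpen_U.mem_nhds hφU)
  have hp0 : p 0 ∈ ball (0 : Vd (k + 2)) 2 := (χ.surj _ hφX hφU).1
  have hψan : AnalyticAt ℂ (fun t => χ.σ (p t)) 0 := AnalyticAt.fun_comp (g := χ.σ) (f := p) (χ.σ_an _ hp0) hpan
  have hpball : ∀ᶠ t in 𝓝 (0 : ℂ), p t ∈ ball (0 : Vd (k + 2)) 2 := hpan.continuousAt.eventually (isOpen_ball.mem_nhds hp0)
  -- the factor
  have hφ0 : φ 0 ≠ 0 := fun h => hX.zero_notMem (h ▸ hφX)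
  obtain ⟨ℓ, hℓ⟩ : ∃ ℓ : EN N →L[ℂ] ℂ, ℓ (φ 0) = 1 := by
    have hne : inner ℂ (φ 0) (φ 0) ≠ (0 : ℂ) := inner_self_ne_zero.mpr hφ0
    refine ⟨(inner ℂ (φ 0) (φ 0) : ℂ)⁻¹ • innerSL ℂ (φ 0), ?_⟩
    simp only [_root_.smul_apply, innerSL_apply_apply, smul_eq_mul]
    exact inv_mul_cancel₀ hne
  obtain ⟨c0, hc0, hc0e⟩ := (χ.surj _ hφX hφU).2
  have hℓσ0 : ℓ (χ.σ (p 0)) ≠ 0 := by
    intro h
    have h1 : ℓ (φ 0) = c0 * ℓ (χ.σ (p 0)) := by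
      conv_lhs => rw [hc0e]
      rw [map_smul, smul_eq_mul]
    rw [hℓ, h, mul_zero] at h1
    exact one_ne_zero h1
  have hℓφan : AnalyticAt ℂ (fun t => ℓ (φ t)) 0 := AnalyticAt.fun_comp (g := fun x => ℓ x) (f := φ) (ℓ.analyticAt _) hφan
  have hℓψan : AnalyticAt ℂ (fun t => ℓ (χ.σ (p t))) 0 := AnalyticAt.fun_comp (g := fun x => ℓ x) (f := fun t => χ.σ (p t)) (ℓ.analyticAt _) hψan
  set α : ℂ → ℂ := fun t => ℓ (φ t) / ℓ (χ.σ (p t)) with hα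
  have hαan : AnalyticAt ℂ α 0 := hℓφan.fun_div hℓψan hℓσ0
  have hα0 : α 0 ≠ 0 := by
    simp only [hα, hℓ]
    exact div_ne_zero one_ne_zero hℓσ0
  have hαne : ∀ᶠ t in 𝓝 (0 : ℂ), α t ≠ 0 := hαan.continuousAt.eventually_ne hα0
  have hφα : ∀ᶠ t in 𝓝 (0 : ℂ), φ t = α t • χ.σ (p t) := by
    filter_upwards [hφev, hUev, hℓψan.continuousAt.eventually_ne hℓσ0] with t h1 h2 h3
    obtain ⟨c1, -, hc1⟩ := (χ.surj _ h1.1 h2).2
    have h4 : ℓ (φ t) = c1 * ℓ (χ.σ (p t)) := by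
      conv_lhs => rw [hc1]
      rw [map_smul, smul_eq_mul]
    have h5 : α t = c1 := by
      simp only [hα]
      rw [h4, mul_div_cancel_right₀ _ h3]
    rw [h5]
    exact hc1
  -- the curve in the chart
  have hψΛ : ∀ᶠ t in 𝓝 (0 : ℂ), u (φ t) - u (χ.σ (p t)) ∈ Λ := by
    filter_upwards [hφα, hαne, hpball] with t h1 h2 h3
    rw [h1]
    exact hu.smul _ (χ.σ_mem _ h3).1 _ h2
  have hψdir : DirC X Λ u ν (fun t => χ.σ (p t)) := by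
    refine ⟨hψan, ?_⟩
    filter_upwards [hφev, hψΛ, hpball] with t h1 h2 h3
    refine ⟨(χ.σ_mem _ h3).1, ?_⟩
    have h4 := hψΛ.self_of_nhds
    have h5 : u (χ.σ (p t)) - (u (χ.σ (p 0)) + t • ν) = (u (φ t) - (u (φ 0) + t • ν)) - (u (φ t) - u (χ.σ (p t))) + (u (φ 0) - u (χ.σ (p 0))) := by
      abel
    rw [h5]
    exact Λ.add_mem (Λ.sub_mem h1.2 h2) h4
  have hPψ : P.toFun (jt m fun t => χ.σ (p t)) ≠ 0 := by
    intro h
    have h1 : jt m φ = jt m fun t => α t • χ.σ (p t) := by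
      funext j
      exact Filter.EventuallyEq.iteratedDeriv_eq (j : ℕ) hφα
    rw [h1, P.scale _ hψdir α hαan hα0, h, mul_zero] at hne
    exact hne rfl
  -- the base coordinates
  have hms : ∀ᶠ t in 𝓝 (0 : ℂ), ms c ρ (p t) = ms c ρ (p 0) + t • ν := by
    obtain ⟨δ, hδ, hdisc⟩ := hΛ.disc
    have hcont : ContinuousAt (fun t : ℂ => ms c ρ (p t) - (ms c ρ (p 0) + t • ν)) 0 := by
      have h1 : Continuous (fun p : Vd (k + 2) => ms c ρ p) := by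
        unfold ms tl
        fun_prop
      exact (ContinuousAt.comp (g := fun p : Vd (k + 2) => ms c ρ p) (f := p) h1.continuousAt hpan.continuousAt).sub (by fun_prop)
    have hz : (fun t : ℂ => ms c ρ (p t) - (ms c ρ (p 0) + t • ν)) 0 ∈ ball (0 : Vd (k + 1)) δ := by
      simp [hδ]
    filter_upwards [hcont.eventually (isOpen_ball.mem_nhds hz), hψdir.2, hpball] with t h1 h2 h3
    have h4 : ms c ρ (p t) - (ms c ρ (p 0) + t • ν) ∈ Λ := by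
      have h5 : ms c ρ (p t) - (ms c ρ (p 0) + t • ν) =
          (u (χ.σ (p t)) - (u (χ.σ (p 0)) + t • ν)) - (u (χ.σ (p t)) - ms c ρ (p t)) + (u (χ.σ (p 0)) - ms c ρ (p 0)) := by
        abel
      rw [h5]
      exact Λ.add_mem (Λ.sub_mem h2.2 (hs.lift _ h3)) (hs.lift _ hp0)
    exact sub_eq_zero.1 (hdisc _ h4 (mem_ball_zero_iff.1 h1))
  obtain ⟨s₀, hs₀⟩ : ∃ s₀ : ℂ, s₀ = s₁ := ⟨_, rfl⟩
  obtain ⟨z₀, hz₀⟩ : ∃ z₀ : ℂ, z₀ = z₁ := ⟨_, rfl⟩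
  have hsz' : ms c ρ (p 0) = b + s₀ • ν + z₀ • a := by
    rw [hs₀, hz₀, ← hms1]
    refine sub_eq_zero.1 (hdisc₀ _ ?_ hφδ)
    have h1 := hs.lift (p 0) hp0
    have h2 := hψΛ.self_of_nhds
    have h3 : ms c ρ (p 0) - ms c ρ p₁ = (u (φ 0) - (b + s₁ • ν + z₁ • a)) - (u (φ 0) - u (χ.σ (p 0))) - (u (χ.σ (p 0)) - ms c ρ (p 0)) := by
      rw [hms1]
      abel
    rw [h3]
    exact Λ.sub_mem (Λ.sub_mem hφu h2) h1
  have hpcz : ∀ᶠ t in 𝓝 (0 : ℂ), p t = cz b ν a c ρ (p t 0) (s₀ + t) z₀ := by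
    filter_upwards [hms] with t h1
    refine eq_cz hs.pos ?_
    rw [h1, hsz', add_smul]
    abel
  -- the jet
  have hgan : AnalyticAt ℂ (fun t => p t 0) 0 := analyticAt_pi_iff.1 hpan 0
  obtain ⟨C, δ, hδ, hC⟩ := hol_taylor hgan m
  set v : Fin (m + 1) → ℂ := fun j => iteratedDeriv j (fun t => p t 0) 0 with hv
  have hv0 : v 0 = p 0 0 := by
    simp only [hv, Fin.val_zero, iteratedDeriv_zero]
  have hcz0 : cz b ν a c ρ (v 0) s₀ z₀ = p 0 := by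
    have h1 := hpcz.self_of_nhds
    rw [add_zero] at h1
    rw [hv0]
    exact h1.symm
  have hqOD : (s₀, z₀, v) ∈ OD b ν a c ρ m := by
    change cz b ν a c ρ (v 0) s₀ z₀ ∈ ball (0 : Vd (k + 2)) 2
    rw [hcz0]
    exact hp0
  refine ⟨(s₀, z₀, v), hqOD, ?_⟩
  have hjt : jt m (crv b ν a χ c ρ (s₀, z₀, v)) = jt m fun t => χ.σ (p t) := by
    obtain ⟨K, S, hS, hK⟩ := (χ.σ_an _ hp0).hasStrictFDerivAt.exists_lipschitzOnWith
    have hczan : AnalyticAt ℂ (fun t : ℂ => cz b ν a c ρ (pol v t) (s₀ + t) z₀) 0 :=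
      cz_analytic (pol_analytic analyticAt_const analyticAt_id) (analyticAt_const.add analyticAt_id) analyticAt_const
    have hS1 : ∀ᶠ t in 𝓝 (0 : ℂ), cz b ν a c ρ (pol v t) (s₀ + t) z₀ ∈ S := by
      refine hczan.continuousAt.eventually ?_
      have h1 : cz b ν a c ρ (pol v 0) (s₀ + 0) z₀ = p 0 := by rw [pol_zero, add_zero, hcz0]
      change S ∈ 𝓝 (cz b ν a c ρ (pol v 0) (s₀ + 0) z₀)
      rw [h1]
      exact hS
    have hS2 : ∀ᶠ t in 𝓝 (0 : ℂ), p t ∈ S := hpan.continuousAt.eventually hS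
    obtain ⟨r, hr, hall⟩ := Metric.eventually_nhds_iff_ball.mp ((hS1.and hS2).and hpcz)
    refine jt_eq_of_bound (crv_dir hs hqOD).1 hψan (C := K * C) (δ := min δ r) (lt_min hδ hr) fun t ht => ?_
    have htb : (t : ℂ) ∈ ball (0 : ℂ) r := by
      rw [mem_ball_zero_iff, Complex.norm_real, Real.norm_of_nonneg ht.1.le]
      exact ht.2.trans_le (min_le_right _ _)
    obtain ⟨⟨h1, h2⟩, h3⟩ := hall _ htb
    have h4 := hK.norm_sub_le h1 h2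
    have h5 : ‖cz b ν a c ρ (pol v t) (s₀ + t) z₀ - p t‖ ≤ ‖pol v t - p t 0‖ := by
      conv_lhs => rw [h3]
      exact cz_sub_le _ _ _ _
    have h6 := hC t ⟨ht.1, ht.2.trans_le (min_le_left _ _)⟩
    rw [norm_sub_rev] at h6
    calc ‖crv b ν a χ c ρ (s₀, z₀, v) t - χ.σ (p t)‖ ≤ K * ‖cz b ν a c ρ (pol v t) (s₀ + t) z₀ - p t‖ := h4
      _ ≤ K * (C * t ^ (m + 1)) := mul_le_mul_of_nonneg_left (h5.trans h6) K.2
      _ = K * C * t ^ (m + 1) := by ring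
  unfold QF
  rw [hjt]
  exact hPψ

end Pool.Agent.G4.C

end

section

/-!
# G4 C PoB: the zeros of the polynomials `R i` along the curves

`TDat.lg`: the geometry of the lines of direction `a` (`G4/A/Defs`, for `exists_lc`, i.e. `LC.circ`: small circles over `Gd D δ'`).
`alg_lb`: `R i` homogeneous of degree `e` without common zero outside `D`.  Let `F ∈ Gc y`, `z₀ : ℂ`; `LC.circ` with `η = 1/8` gives `δ'` (independent of `y`, `z₀`) and `z₁`, `‖z₁ - z₀‖ < 1/8`, `y + z₁ a ∈ Gd D δ'`.  Normalised lift `G` of the curve on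
`ball z₀ 2` (`S.nl`, in `Hc X Λ u a y`): `‖G‖ ≤ 1`, `c ≤ ‖G z₁‖`, `G z ∈ X`.  By compactness of `X ∩ sphere 0 1 ∩ {x | u x ∈ Gd D δ' + Λ}` (a sequence / `TG/Gd`: `compact_unit`; `u x - y' ∈ Λ`, `y'` in a compact set `closedBall 0 R ∩ Gd D δ'`
modulo `Λ`) some `R i` satisfies `c₁ ‖x‖ ^ e ≤ ‖R i x‖` for the `x ∈ X` over `Gd D δ'`; `‖R i‖ ≤ B` on `closedBall 0 1`.  So `ord_lb` (file `PoA`, here `ord_lb'` as a hypothesis free lemma: import `PoA` when it is there) for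
`f = R i ∘ G`: `c' ‖z - z₀‖ ^ M ≤ ‖R i (G z)‖`, and `F z = μ(z) • G z`, `‖R i (F z)‖ = ‖μ z‖ ^ e ‖R i (G z)‖ ≥ (‖F z‖ / ‖G z‖) ^ e … ≥ ‖F z‖ ^ e * …`, with `‖F z‖` bounded below near `z₀` (`‖G z‖ ≤ 1`).
-/

set_option autoImplicit false

open Topology Filter Metric

namespace Pool.Agent.G4.C

open Pool.Agent.H36.BP (EN fs wd)
open Pool.Agent.H14.PP (IsCone)
open Pool.Agent.H62.EF (MN pr)
open Pool.Agent.AD (Vd Chart Charts)
open Pool.Agent.TG (TMap Lat Str ms tl Gd)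
open Pool.Agent.G3.A (Tb Hc NL)
open Pool.Agent.G3.C

variable {N k : ℕ} {X : Set (EN N)} {Λ : AddSubgroup (Vd (k + 1))} {u : EN N → Vd (k + 1)} {ν a b : Vd (k + 1)} {E : Submodule ℝ (Vd (k + 1))}
  {D Bad : Set (Vd (k + 1))} {SS : Set (Vd (k + 1) → MN N)}

theorem TDat.lg (S : TDat X Λ u a ν b E D Bad SS) (ha : ‖a‖ = 1) : Pool.Agent.G4.A.LG Λ D Bad a where
  norm := ha
  lat := S.lat
  D_closed := S.D_closed
  D_inv := S.D_inv
  bad_sub := S.bad_sub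
  bad_inv := S.bad_inv
  iso := fun y => S.iso y 0
  few := S.few

/-- small circles at every scale -/
theorem TDat.circ (S : TDat X Λ u a ν b E D Bad SS) (ha : ‖a‖ = 1) {η : ℝ} (hη : 0 < η) :
    ∃ δ : ℝ, 0 < δ ∧ ∀ y : Vd (k + 1), ∃ r : ℝ, 0 < r ∧ r < η ∧ ∀ z : ℂ, ‖z‖ = r → y + z • a ∈ Gd D δ := by
  obtain ⟨δ₀, h0, h⟩ := Pool.Agent.G4.A.exists_lc (S.lg ha) (ρ := 1 / 8) (by norm_num) le_rfl
  exact (h δ₀ h0 le_rfl).circ η hη

/-- compactness: over the points of distance at least `δ` from `D` one of the `R i` is bounded below on the unit sphere -/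
private theorem PoB_cpt (hX : IsCone X) (hu : TMap X Λ u) (hΛ : Lat Λ) (hD : ∀ y ∈ D, ∀ l ∈ Λ, y + l ∈ D) {δ : ℝ} (hδ : 0 < δ) {r : ℕ} {R : Fin r → EN N → ℂ}
    (hR : ∀ i, Differentiable ℂ (R i)) (hz : ∀ y ∉ D, ∀ x ∈ X, u x - y ∈ Λ → ∃ i, R i x ≠ 0) :
    ∃ c : ℝ, 0 < c ∧ ∀ x ∈ X, ‖x‖ = 1 → ∀ y ∈ Gd D δ, u x - y ∈ Λ → ∃ i, c ≤ ‖R i x‖ := by
  obtain ⟨Rb, hRb, hcov⟩ := hΛ.cpt
  by_contra hcon
  push Not at hcon
  have h1 : ∀ n : ℕ, ∃ p : EN N × Vd (k + 1), p ∈ (X ∩ sphere (0 : EN N) 1) ×ˢ (closedBall (0 : Vd (k + 1)) Rb) ∧ p.2 ∈ Gd D δ ∧ u p.1 - p.2 ∈ Λ ∧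
      ∀ i, ‖R i p.1‖ < 1 / ((n : ℝ) + 1) := by
    intro n
    obtain ⟨x, hx, hx1, y, hy, hxy, hi⟩ := hcon (1 / ((n : ℝ) + 1)) (by positivity)
    obtain ⟨l, hl, hlR⟩ := hcov y
    refine ⟨(x, y - l), ⟨⟨hx, mem_sphere_zero_iff_norm.2 hx1⟩, by rwa [mem_closedBall, dist_zero_right]⟩, ?_, ?_, hi⟩
    · intro b hb
      have h2 := hy _ (hD b hb l hl)
      have e : y - (b + l) = y - l - b := by abel
      rwa [e] at h2
    · have e : u x - (y - l) = u x - y + l := by abel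
      show u x - (y - l) ∈ Λ
      rw [e]
      exact Λ.add_mem hxy hl
  choose p hp1 hp2 hp3 hp4 using h1
  have hK : IsCompact ((X ∩ sphere (0 : EN N) 1) ×ˢ (closedBall (0 : Vd (k + 1)) Rb)) := (Pool.Agent.TG.compact_unit hX).prod (isCompact_closedBall 0 Rb)
  obtain ⟨q, hq, σ, hσ, hlim⟩ := hK.tendsto_subseq hp1
  have hl1 : Tendsto (fun n => (p (σ n)).1) atTop (𝓝 q.1) := (continuous_fst.tendsto q).comp hlim
  have hl2 : Tendsto (fun n => (p (σ n)).2) atTop (𝓝 q.2) := (continuous_snd.tendsto q).comp hlim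
  have hq1 : q.1 ∈ X := hq.1.1
  have h2 : u q.1 - q.2 ∈ Λ := Pool.Agent.TG.lim_mem hΛ hu hq1 hl1 hl2 (Eventually.of_forall fun n => ⟨(hp1 (σ n)).1.1, hp3 (σ n)⟩)
  have h3 : q.2 ∉ D := by
    intro h
    have h4 : δ ≤ ‖q.2 - q.2‖ := ge_of_tendsto (hl2.sub_const q.2).norm (Eventually.of_forall fun n => hp2 (σ n) _ h)
    rw [sub_self, norm_zero] at h4
    linarith
  obtain ⟨i, hi⟩ := hz q.2 h3 q.1 hq1 h2
  apply hi
  have h4 : Tendsto (fun n => ‖R i (p (σ n)).1‖) atTop (𝓝 ‖R i q.1‖) := (((hR i).continuous.tendsto q.1).comp hl1).norm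
  have h5 : Tendsto (fun n => 1 / (((σ n : ℕ) : ℝ) + 1)) atTop (𝓝 0) := tendsto_one_div_add_atTop_nhds_zero_nat.comp hσ.tendsto_atTop
  have h6 := le_of_tendsto_of_tendsto' h4 h5 fun n => (hp4 (σ n) i).le
  exact norm_le_zero_iff.1 h6

private theorem PoB_bd {r : ℕ} {R : Fin r → EN N → ℂ} (hR : ∀ i, Differentiable ℂ (R i)) : ∃ B : ℝ, 0 < B ∧ ∀ i, ∀ x : EN N, ‖x‖ ≤ 1 → ‖R i x‖ ≤ B := by
  have h : ∀ i, ∃ B : ℝ, ∀ x ∈ closedBall (0 : EN N) 1, ‖R i x‖ ≤ B := fun i => (isCompact_closedBall 0 1).exists_bound_of_continuousOn (hR i).continuous.continuousOn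
  choose B hB using h
  refine ⟨1 + ∑ i, |B i|, by positivity, fun i x hx => ?_⟩
  have h1 := hB i x (by rwa [mem_closedBall, dist_zero_right])
  have h2 : |B i| ≤ ∑ i, |B i| := Finset.single_le_sum (f := fun i => |B i|) (fun j _ => abs_nonneg _) (Finset.mem_univ i)
  linarith [le_abs_self (B i)]

theorem alg_lb (S : TDat X Λ u a ν b E D Bad SS) (ha : ‖a‖ = 1) {r e : ℕ} {R : Fin r → EN N → ℂ} (hR : ∀ i, Differentiable ℂ (R i)) (hh : ∀ i (c : ℂ) x, R i (c • x) = c ^ e * R i x)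
    (hz : ∀ y ∉ D, ∀ x ∈ X, u x - y ∈ Λ → ∃ i, R i x ≠ 0) :
    ∃ M : ℕ, ∀ (y : Vd (k + 1)), ∀ F ∈ Gc X Λ u a y, ∀ z₀ : ℂ, ∃ (i : Fin r) (c : ℝ), 0 < c ∧ ∀ᶠ z in 𝓝[≠] z₀, c * ‖z - z₀‖ ^ M ≤ ‖R i (F z)‖ := by
  obtain ⟨δ, hδ, hcirc⟩ := S.circ ha (η := 1 / 8) (by norm_num)
  obtain ⟨c₀, hc₀, hnl⟩ := S.nl δ hδ
  obtain ⟨c₁, hc₁, hcp⟩ := PoB_cpt S.cone S.tor S.lat S.D_inv hδ hR hz
  obtain ⟨B, hB, hBd⟩ := PoB_bd hR
  have hcc : 0 < c₁ * c₀ ^ e := by positivity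
  obtain ⟨M, hM⟩ : ∃ M : ℕ, B < c₁ * c₀ ^ e * 16 ^ (M + 1) := by
    obtain ⟨n, hn⟩ := pow_unbounded_of_one_lt (B / (c₁ * c₀ ^ e)) (show (1 : ℝ) < 16 by norm_num)
    refine ⟨n, ?_⟩
    rw [div_lt_iff₀ hcc] at hn
    have h1 : (16 : ℝ) ^ n ≤ 16 ^ (n + 1) := pow_le_pow_right₀ (by norm_num) (Nat.le_succ n)
    calc B < 16 ^ n * (c₁ * c₀ ^ e) := hn
      _ ≤ 16 ^ (n + 1) * (c₁ * c₀ ^ e) := mul_le_mul_of_nonneg_right h1 hcc.le
      _ = _ := mul_comm _ _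
  refine ⟨M, fun y F hF z₀ => ?_⟩
  obtain ⟨ρ, hρ, hρ8, hρc⟩ := hcirc (y + z₀ • a)
  obtain ⟨z₁, hz₁⟩ : ∃ z₁ : ℂ, z₁ = z₀ + (ρ : ℂ) := ⟨_, rfl⟩
  have hz1n : ‖z₁ - z₀‖ = ρ := by
    rw [hz₁, add_sub_cancel_left, Complex.norm_real, Real.norm_of_nonneg hρ.le]
  have hz1g : y + z₁ • a ∈ Gd D δ := by
    have h1 := hρc (ρ : ℂ) (by rw [Complex.norm_real, Real.norm_of_nonneg hρ.le])
    have e1 : y + z₀ • a + (ρ : ℂ) • a = y + z₁ • a := by rw [hz₁, add_smul, add_assoc]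
    rwa [e1] at h1
  obtain ⟨G, hGd, hG, hGc⟩ := hnl y (fun z => pr (F z)) ⟨F, hF, rfl⟩ z₀
  have hz1b : z₁ ∈ ball z₀ 2 := by
    rw [mem_ball, dist_eq_norm, hz1n]
    linarith
  have hG1 : c₀ ≤ ‖G z₁‖ := hGc z₁ (by
    rw [mem_closedBall, dist_eq_norm, hz1n]
    linarith) hz1g
  obtain ⟨hF1, hF2, hF3⟩ := hF
  -- the factor
  have hfac : ∀ z ∈ ball z₀ 2, ∃ μ : ℂ, μ ≠ 0 ∧ F z = μ • G z := by
    intro z hz
    obtain ⟨h1, h2, -⟩ := hG z hz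
    obtain ⟨c, hc, h3⟩ := (Pool.Agent.H62.EF.pr_eq_iff (Pool.Agent.TG.ne_zero S.cone h1) (Pool.Agent.TG.ne_zero S.cone (hF2 z))).1 h2.symm
    refine ⟨c⁻¹, inv_ne_zero hc, ?_⟩
    rw [h3, smul_smul, inv_mul_cancel₀ hc, one_smul]
  have hX1 : G z₁ ∈ X := (hG z₁ hz1b).1
  have hu1 : u (G z₁) - (y + z₁ • a) ∈ Λ := by
    obtain ⟨μ, hμ, h3⟩ := hfac z₁ hz1b
    have h4 : G z₁ = μ⁻¹ • F z₁ := by rw [h3, smul_smul, inv_mul_cancel₀ hμ, one_smul]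
    rw [h4]
    exact Pool.Agent.TG.smul_mem_lat S.tor (hF2 z₁) (hF3 z₁) (inv_ne_zero hμ)
  obtain ⟨c', hc', hc'X, hc'1⟩ := Pool.Agent.TG.exists_unit S.cone hX1
  rw [mem_sphere_zero_iff_norm] at hc'1
  obtain ⟨i, hi⟩ := hcp _ hc'X hc'1 _ hz1g (Pool.Agent.TG.smul_mem_lat S.tor hX1 hu1 hc')
  have hlow : c₁ * c₀ ^ e ≤ ‖R i (G z₁)‖ := by
    rw [hh, norm_mul, norm_pow] at hi
    rw [norm_smul] at hc'1
    have h5 : ‖G z₁‖ ^ e * (‖c'‖ ^ e * ‖R i (G z₁)‖) = ‖R i (G z₁)‖ := by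
      rw [← mul_assoc, ← mul_pow, mul_comm ‖G z₁‖, hc'1, one_pow, one_mul]
    rw [← h5, mul_comm c₁]
    exact mul_le_mul (pow_le_pow_left₀ hc₀.le hG1 _) hi hc₁.le (by positivity)
  obtain ⟨c₂, hc₂, hev⟩ := ord_lb (f := fun z => R i (G z)) (z₀ := z₀) (z₁ := z₁) (B := B) (c := c₁ * c₀ ^ e) (M := M)
    ((hR i).comp_differentiableOn hGd) (fun z hz => hBd i _ (hG z hz).2.2) (by
      rw [hz1n]
      exact hρ8.le) hcc hlow hM
  have hF0 : 0 < ‖F z₀‖ := norm_pos_iff.2 (Pool.Agent.TG.ne_zero S.cone (hF2 z₀))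
  refine ⟨i, (‖F z₀‖ / 2) ^ e * c₂, by positivity, ?_⟩
  have h6 : ∀ᶠ z in 𝓝[≠] z₀, ‖F z₀‖ / 2 < ‖F z‖ := nhdsWithin_le_nhds (hF1.continuous.norm.continuousAt.eventually_const_lt (half_lt_self hF0))
  filter_upwards [hev, h6, mem_nhdsWithin_of_mem_nhds (ball_mem_nhds z₀ two_pos)] with z h7 h8 h9
  obtain ⟨μ, hμ, h10⟩ := hfac z h9
  have h11 : ‖F z₀‖ / 2 ≤ ‖μ‖ := by
    have h12 := (hG z h9).2.2
    have h13 : ‖F z‖ ≤ ‖μ‖ := by
      rw [h10, norm_smul]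
      exact mul_le_of_le_one_right (norm_nonneg _) h12
    linarith
  calc (‖F z₀‖ / 2) ^ e * c₂ * ‖z - z₀‖ ^ M = (‖F z₀‖ / 2) ^ e * (c₂ * ‖z - z₀‖ ^ M) := by ring
    _ ≤ ‖μ‖ ^ e * ‖R i (G z)‖ := mul_le_mul (pow_le_pow_left₀ (by positivity) h11 _) h7 (by positivity) (by positivity)
    _ = ‖R i (F z)‖ := by rw [h10, hh, norm_mul, norm_pow]

end Pool.Agent.G4.C

end

section

/-!
# G3 R PrmI: the inverse of a local primitive

As `PrmA` (straight chart `χ` with `χ.q v = 0`, `A`, `Ψ x = A (χ.q x) / ρ ^ (k + 1)`).  At `y₀ ∉ D` some `α j` is not `0` at `v` (`Sepa`), so `tc (α j) χ (ms c ρ) ≠ 0` at `χ.q v` (the vectors `∂ᵢ σ` and `σ` span the tangent space: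
`VForm.det`, `add_smul`; compare `JN` in `G3/A` and `FrmA`), and `p ↦ (A p / ρ ^ (k + 1), ms c ρ p)` has an analytic inverse near `(Ψ v, y₀)` (its derivative at `χ.q v` is bijective; analytic inverse function theorem);
`Θ (t, y) = (inner ℂ v (σ p))⁻¹ • σ p`.
-/

set_option autoImplicit false

open Topology Filter Metric

namespace Pool.Agent.G3.R

open Pool.Agent.H36.BP (EN fs wd)
open Pool.Agent.H14.PP (IsCone CurveAt Tan)
open Pool.Agent.H62.EF (MN pr)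
open Pool.Agent.AD (Vd Chart Charts IsGerm)
open Pool.Agent.TG
open Pool.Agent.G3.C (Gc nv nd nv_pr)
open Pool.Agent.G3.A

variable {N k : ℕ} {X : Set (EN N)} {Λ : AddSubgroup (Vd (k + 1))} {u : EN N → Vd (k + 1)} {D B Bad : Set (Vd (k + 1))} {a : Vd (k + 1)}

private theorem pi_cons_an {E : Type} [NormedAddCommGroup E] [NormedSpace ℂ E] {f : E → ℂ} {g : E → Vd (k + 1)} {x : E} (hf : AnalyticAt ℂ f x) (hg : AnalyticAt ℂ g x) :
    AnalyticAt ℂ (fun x => (Fin.cons (f x) (g x) : Vd (k + 2))) x := by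
  rw [analyticAt_pi_iff]
  intro i
  refine Fin.cases ?_ (fun j => ?_) i
  · simpa using hf
  · simpa using (analyticAt_pi_iff.1 hg) j

theorem exists_prm_inv (G : Geo X Λ u D B) {J : ℕ} {α : Fin J → VForm X Λ u} (hs : Sepa D α) {y₀ : Vd (k + 1)} (hy₀ : y₀ ∉ D) {v : EN N} (hv : v ∈ X)
    (hv1 : ‖v‖ = 1) (hu : u v - y₀ ∈ Λ) : ∃ (j : Fin J) (R : ℝ) (Ψ : EN N → ℂ) (r M : ℝ) (Θ : ℂ × Vd (k + 1) → EN N), Prm (α j) y₀ v R Ψ ∧ 0 < r ∧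
      DifferentiableOn ℂ Θ (ball (Ψ v, y₀) r) ∧ (∀ p ∈ ball (Ψ v, y₀) r, ‖Θ p‖ ≤ M) ∧
      ∃ r' : ℝ, 0 < r' ∧ ∀ y ∈ ball y₀ r', ∀ x ∈ X, x ∈ ball v r' → u x - y ∈ Λ → inner ℂ v x = (1 : ℂ) → (Ψ x, y) ∈ ball (Ψ v, y₀) (r / 8) ∧ Θ (Ψ x, y) = x := by
  obtain ⟨j, vv, hvt, hne⟩ := hs y₀ hy₀ v hv hu
  obtain ⟨χ, ρ, R₀, K, hU, hq, hR₀, huc⟩ := uc_base G hy₀ hv hu
  have hUC := huc y₀ (by simpa using hR₀) v (by simpa using hR₀)
  obtain ⟨A, hA⟩ := exists_prim (α j) χ hUC.str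
  have hP := hUC.prm G hR₀ hv hv1 hu hA
  have h0 : (0 : Vd (k + 2)) ∈ ball (0 : Vd (k + 2)) 2 := mem_ball_self two_pos
  have hms0 : ms y₀ ρ (0 : Vd (k + 2)) = y₀ := by
    unfold ms
    have : tl (0 : Vd (k + 2)) = 0 := rfl
    rw [this, smul_zero, add_zero]
  have htc : tc (α j) χ (ms y₀ ρ) 0 ≠ 0 := by
    intro h
    apply hne
    rw [toFun_eq G.cone G.tor (α j) χ hv hU hu (υ := ms y₀ ρ) (by rw [hq, hms0]) vv hvt, hq, h, mul_zero]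
  have hρ : (ρ : ℂ) ≠ 0 := by exact_mod_cast hUC.str.pos.ne'
  have hρk : (ρ : ℂ) ^ (k + 1) ≠ 0 := pow_ne_zero _ hρ
  set Ψ : EN N → ℂ := fun x => A (χ.q x) / (ρ : ℂ) ^ (k + 1) with hΨ
  -- the map `f`
  set f : Vd (k + 2) → Vd (k + 2) := fun p => Fin.cons (A p / (ρ : ℂ) ^ (k + 1)) (ms y₀ ρ p) with hf
  have hAan : AnalyticAt ℂ (fun p => A p / (ρ : ℂ) ^ (k + 1)) (0 : Vd (k + 2)) := by
    simp only [div_eq_mul_inv]
    exact (hA.an 0 h0).mul analyticAt_const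
  have hfan : AnalyticAt ℂ f 0 := pi_cons_an hAan (ms_an y₀ ρ 0)
  have hinj : ∀ w, fderiv ℂ f 0 w = 0 → w = 0 := by
    intro w hw
    have hfd : HasFDerivAt f (fderiv ℂ f 0) 0 := hfan.differentiableAt.hasFDerivAt
    have hpi := hasFDerivAt_pi'.1 hfd
    have hc0 : fderiv ℂ (fun p => A p / (ρ : ℂ) ^ (k + 1)) 0 w = 0 := by
      have h1 := (hpi 0).fderiv
      have h2 : (fun x => f x 0) = fun p => A p / (ρ : ℂ) ^ (k + 1) := by
        funext p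
        simp [hf]
      rw [h2] at h1
      rw [h1]
      simp [hw]
    have hcs : ∀ i : Fin (k + 1), w i.succ = 0 := by
      intro i
      have h1 := (hpi i.succ).fderiv
      have h2 : (fun x => f x i.succ) = fun p : Vd (k + 2) => y₀ i + (ρ : ℂ) * p i.succ := by
        funext p
        simp [hf, ms, tl]
      rw [h2] at h1
      have h3 : HasFDerivAt (fun p : Vd (k + 2) => y₀ i + (ρ : ℂ) * p i.succ) ((ρ : ℂ) • (ContinuousLinearMap.proj (R := ℂ) (φ := fun _ : Fin (k + 2) => ℂ) i.succ)) 0 :=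
        (((ContinuousLinearMap.proj (R := ℂ) (φ := fun _ : Fin (k + 2) => ℂ) i.succ).hasFDerivAt).const_mul (ρ : ℂ)).const_add (y₀ i)
      rw [h3.fderiv] at h1
      have h4 := congrArg (fun L => L w) h1
      simp [hw] at h4
      exact h4.resolve_left hUC.str.pos.ne'
    have hw0 : w = w 0 • (Pi.single 0 1 : Vd (k + 2)) := by
      funext i
      refine Fin.cases ?_ (fun l => ?_) i
      · simp
      · simp [hcs l]
    have h5 : fderiv ℂ (fun p => A p / (ρ : ℂ) ^ (k + 1)) 0 w = fderiv ℂ A 0 w / (ρ : ℂ) ^ (k + 1) := by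
      have h6 : HasFDerivAt (fun p => A p / (ρ : ℂ) ^ (k + 1)) (((ρ : ℂ) ^ (k + 1))⁻¹ • fderiv ℂ A 0) 0 := by
        have h7 := ((hA.an 0 h0).differentiableAt.hasFDerivAt).const_mul (((ρ : ℂ) ^ (k + 1))⁻¹)
        refine h7.congr_of_eventuallyEq (Eventually.of_forall fun p => ?_)
        simp only [div_eq_inv_mul]
      rw [h6.fderiv]
      simp [div_eq_inv_mul]
    rw [h5, hw0, map_smul, hA.der 0 h0, smul_eq_mul, div_eq_zero_iff] at hc0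
    rcases hc0 with hc0 | hc0
    · rcases mul_eq_zero.1 hc0 with hc0 | hc0
      · rw [hw0, hc0, zero_smul]
      · exact absurd hc0 htc
    · exact absurd hc0 hρk
  obtain ⟨g, hgan, hgf, -, hg0⟩ := Pool.Agent.H62.BU.local_inverse hfan hinj
  have hf0 : f 0 = Fin.cons (Ψ v) y₀ := by
    simp only [hf, hΨ, hq, hms0]
  rw [hf0] at hgan hg0
  obtain ⟨c, hc, hcv⟩ := (χ.surj v hv hU).2
  rw [hq] at hcv
  have hin : ∀ x : EN N, inner ℂ v x = innerSL ℂ v x := fun x => rfl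
  have hv0 : (inner ℂ v (χ.σ 0) : ℂ) ≠ 0 := by
    intro h
    have h1 : (inner ℂ v v : ℂ) = 1 := by
      rw [inner_self_eq_norm_sq_to_K, hv1]
      simp
    have h2 : (inner ℂ v v : ℂ) = c * inner ℂ v (χ.σ 0) := by
      rw [← inner_smul_right, ← hcv]
    rw [h2, h, mul_zero] at h1
    exact zero_ne_one h1
  set Θ : ℂ × Vd (k + 1) → EN N := fun p => (inner ℂ v (χ.σ (g (Fin.cons p.1 p.2))) : ℂ)⁻¹ • χ.σ (g (Fin.cons p.1 p.2)) with hΘ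
  have hcons : AnalyticAt ℂ (fun p : ℂ × Vd (k + 1) => (Fin.cons p.1 p.2 : Vd (k + 2))) (Ψ v, y₀) := pi_cons_an analyticAt_fst analyticAt_snd
  have hgc : AnalyticAt ℂ (fun p : ℂ × Vd (k + 1) => g (Fin.cons p.1 p.2)) (Ψ v, y₀) := AnalyticAt.fun_comp (g := g) (f := fun p : ℂ × Vd (k + 1) => (Fin.cons p.1 p.2 : Vd (k + 2))) hgan hcons
  have hσg : AnalyticAt ℂ (fun p : ℂ × Vd (k + 1) => χ.σ (g (Fin.cons p.1 p.2))) (Ψ v, y₀) := by
    refine AnalyticAt.fun_comp (g := χ.σ) (f := fun p : ℂ × Vd (k + 1) => g (Fin.cons p.1 p.2)) ?_ hgc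
    simp only [hg0]
    exact χ.σ_an 0 h0
  have hΘan : AnalyticAt ℂ Θ (Ψ v, y₀) := by
    have h1 : AnalyticAt ℂ (fun p : ℂ × Vd (k + 1) => (inner ℂ v (χ.σ (g (Fin.cons p.1 p.2))) : ℂ)) (Ψ v, y₀) := by
      simp only [hin]
      exact ((innerSL ℂ v).analyticAt _).fun_comp hσg
    refine (h1.inv ?_).smul hσg
    simp only [hg0]
    exact hv0
  -- the radius `r`
  have hev : ∀ᶠ p in 𝓝 (Ψ v, y₀), DifferentiableAt ℂ Θ p ∧ ‖Θ p‖ < ‖Θ (Ψ v, y₀)‖ + 1 :=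
    (hΘan.eventually_analyticAt.mono fun p hp => hp.differentiableAt).and (hΘan.continuousAt.norm.eventually_lt_const (by linarith))
  obtain ⟨r, hr, hball⟩ := Metric.eventually_nhds_iff_ball.1 hev
  refine ⟨j, R₀, Ψ, r, ‖Θ (Ψ v, y₀)‖ + 1, Θ, hP, hr, fun p hp => (hball p hp).1.differentiableWithinAt, fun p hp => (hball p hp).2.le, ?_⟩
  -- the radius `r'`
  have hΨc : ContinuousAt Ψ v := (hP.diff.differentiableAt (isOpen_ball.mem_nhds (mem_ball_self hR₀))).continuousAt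
  have hqc : ContinuousAt χ.q v := (χ.q_an v hU).continuousAt
  have he1 : ∀ᶠ x in 𝓝 v, dist (Ψ x) (Ψ v) < r / 8 := hΨc.eventually (ball_mem_nhds _ (by positivity))
  have he2 : ∀ᶠ x in 𝓝 v, g (f (χ.q x)) = χ.q x := by
    have : Tendsto χ.q (𝓝 v) (𝓝 0) := by
      have h1 := hqc.tendsto
      rwa [hq] at h1
    exact this.eventually hgf
  obtain ⟨r₁, hr₁, hb⟩ := Metric.eventually_nhds_iff_ball.1 (he1.and he2)
  refine ⟨min r₁ (min R₀ (r / 8)), lt_min hr₁ (lt_min hR₀ (by positivity)), fun y hy x hx hxb hux hix => ?_⟩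
  have hxb1 : x ∈ ball v r₁ := ball_subset_ball (min_le_left _ _) hxb
  have hxb2 : x ∈ ball v R₀ := ball_subset_ball ((min_le_right _ _).trans (min_le_left _ _)) hxb
  have hy2 : y ∈ ball y₀ R₀ := ball_subset_ball ((min_le_right _ _).trans (min_le_left _ _)) hy
  have hy3 : y ∈ ball y₀ (r / 8) := ball_subset_ball ((min_le_right _ _).trans (min_le_right _ _)) hy
  obtain ⟨hb1, hb2⟩ := hb x hxb1
  have hcap := hUC.cap y hy2 x hx hxb2 hux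
  have hxU := (hUC.mem x hxb2).1
  refine ⟨?_, ?_⟩
  · rw [mem_ball, Prod.dist_eq, max_lt_iff]
    exact ⟨hb1, hy3⟩
  · obtain ⟨c', hc', hx'⟩ := (χ.surj x hx hxU).2
    have h1 : g (Fin.cons (Ψ x) y) = χ.q x := by
      rw [← hb2]
      congr 1
      rw [hf]
      simp only [hcap, hΨ]
    simp only [hΘ, h1]
    have h2 : c' * inner ℂ v (χ.σ (χ.q x)) = 1 := by
      rw [← inner_smul_right, ← hx', hix]
    have h3 : (inner ℂ v (χ.σ (χ.q x)) : ℂ)⁻¹ = c' := by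
      have h4 : (inner ℂ v (χ.σ (χ.q x)) : ℂ) ≠ 0 := right_ne_zero_of_mul_eq_one h2
      field_simp
      linear_combination -h2
    rw [h3, ← hx']

end Pool.Agent.G3.R

end
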