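import Pool.Agent.H94.G5T.H36.BP.WdA_1
import Pool.Agent.H94.G5T.M07
import Pool.Agent.H94.G5T.M11
import Pool.Agent.H94.G5T.M29

/-! The parts of this file: G3.C.GenB, H36.BP.ExtC, G3.A.TanA, G3.X.LnC, TG.XTan, TG.XSard, TG.XGeo. -/

section

/-!
# G3 C GenB: generic analyticity

`gen_analytic`: if the jets of a family satisfy an analytic relation `Q (s, z, w_0, …, w_k) = 0` with `Q ≠ 0`, then `w` is analytic in `s` near some point.  Induction on `k`:
either some derivative of `Q` in the last variable is not identically `0` on the jets (`gen_step` for the first one), or `Q (s, z, w_0, …, w_{k-1}, v) = 0` for all `v`.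
-/

set_option autoImplicit false

open Topology Filter Metric

namespace Pool.Agent.G3.C

/-- all derivatives are `0`: the function is `0` -/
theorem eventually_zero_of_iteratedDeriv {f : ℂ → ℂ} {x : ℂ} (hf : AnalyticAt ℂ f x) (h : ∀ i, iteratedDeriv i f x = 0) : ∀ᶠ y in 𝓝 x, f y = 0 := by
  have h1 := hf.hasFPowerSeriesAt
  have h2 : FormalMultilinearSeries.ofScalars ℂ (fun n => iteratedDeriv n f x / (n.factorial : ℂ)) = 0 := by
    ext n
    simp [FormalMultilinearSeries.ofScalars, h]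
  rw [h2] at h1
  exact h1.eventually_eq_zero

theorem dk_iterate_analytic {k : ℕ} {O : Set (ℂ × ℂ × (Fin (k + 1) → ℂ))} {Q : ℂ × ℂ × (Fin (k + 1) → ℂ) → ℂ} (hQ : AnalyticOnNhd ℂ Q O) (i : ℕ) :
    AnalyticOnNhd ℂ (dk^[i] Q) O := by
  induction i with
  | zero => exact hQ
  | succ i ih =>
    rw [Function.iterate_succ_apply']
    exact fun q hq => dk_analytic (ih q hq)

/-- the slice in the last variable -/
noncomputable def slc {k : ℕ} (q : ℂ × ℂ × (Fin (k + 1) → ℂ)) (ω : ℂ) : ℂ × ℂ × (Fin (k + 1) → ℂ) :=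
  (q.1, q.2.1, Function.update q.2.2 (Fin.last k) ω)

theorem slc_hasDerivAt {k : ℕ} (q : ℂ × ℂ × (Fin (k + 1) → ℂ)) (ω : ℂ) : HasDerivAt (slc q) (0, 0, Pi.single (Fin.last k) 1) ω := by
  apply (hasDerivAt_const ω q.1).prodMk
  apply (hasDerivAt_const ω q.2.1).prodMk
  exact hasDerivAt_update q.2.2 (Fin.last k) ω

theorem slc_analytic {k : ℕ} (q : ℂ × ℂ × (Fin (k + 1) → ℂ)) (ω : ℂ) : AnalyticAt ℂ (slc q) ω := by
  have : Differentiable ℂ (slc q) := fun ω => (slc_hasDerivAt q ω).differentiableAt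
  exact this.analyticAt ω

theorem iteratedDeriv_slc {k : ℕ} {O : Set (ℂ × ℂ × (Fin (k + 1) → ℂ))} (hO : IsOpen O) {Q : ℂ × ℂ × (Fin (k + 1) → ℂ) → ℂ} (hQ : AnalyticOnNhd ℂ Q O)
    (q : ℂ × ℂ × (Fin (k + 1) → ℂ)) (i : ℕ) : ∀ ω : ℂ, slc q ω ∈ O → iteratedDeriv i (fun ω => Q (slc q ω)) ω = (dk^[i] Q) (slc q ω) := by
  induction i with
  | zero => intro ω _; simp
  | succ i ih =>
    intro ω hω
    rw [iteratedDeriv_succ, Function.iterate_succ_apply']
    have hev : iteratedDeriv i (fun ω => Q (slc q ω)) =ᶠ[𝓝 ω] fun ω => (dk^[i] Q) (slc q ω) := by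
      filter_upwards [(slc_analytic q ω).continuousAt.eventually_mem (hO.mem_nhds hω)] with ω' hω'
      exact ih ω' hω'
    rw [hev.deriv_eq]
    have h1 := ((dk_iterate_analytic hQ i) _ hω).differentiableAt.hasFDerivAt.comp_hasDerivAt ω (slc_hasDerivAt q ω)
    exact h1.deriv

theorem slc_combo {k : ℕ} (q : ℂ × ℂ × (Fin (k + 1) → ℂ)) (x y : ℂ) {a b : ℝ} (hab : a + b = 1) : slc q (a • x + b • y) = a • slc q x + b • slc q y := by
  have hab' : (a : ℂ) + (b : ℂ) = 1 := by rw [← Complex.ofReal_add, hab, Complex.ofReal_one]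
  simp only [slc, Prod.smul_mk, Prod.mk_add_mk, Complex.real_smul]
  refine Prod.ext ?_ (Prod.ext ?_ ?_)
  · show q.1 = a * q.1 + b * q.1
    rw [← add_mul, hab', one_mul]
  · show q.2.1 = a * q.2.1 + b * q.2.1
    rw [← add_mul, hab', one_mul]
  · ext i
    by_cases hi : i = Fin.last k
    · subst hi
      simp
    · simp only [Function.update_of_ne hi, Pi.add_apply, Pi.smul_apply, Complex.real_smul]
      rw [← add_mul, hab', one_mul]

theorem slc_preconnected {k : ℕ} {O : Set (ℂ × ℂ × (Fin (k + 1) → ℂ))} (hconv : Convex ℝ O) (q : ℂ × ℂ × (Fin (k + 1) → ℂ)) :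
    IsPreconnected {ω : ℂ | slc q ω ∈ O} := by
  apply Convex.isPreconnected
  intro x hx y hy a b ha hb hab
  show slc q (a • x + b • y) ∈ O
  rw [slc_combo q x y hab]
  exact hconv hx hy ha hb hab

/-- if all derivatives vanish at a point of the slice, `Q` vanishes on the slice -/
theorem slice_zero {k : ℕ} {O : Set (ℂ × ℂ × (Fin (k + 1) → ℂ))} (hO : IsOpen O) (hconv : Convex ℝ O) {Q : ℂ × ℂ × (Fin (k + 1) → ℂ) → ℂ}
    (hQ : AnalyticOnNhd ℂ Q O) {q : ℂ × ℂ × (Fin (k + 1) → ℂ)} (hq : q ∈ O) (h : ∀ i, (dk^[i] Q) q = 0) : ∀ ω : ℂ, slc q ω ∈ O → Q (slc q ω) = 0 := by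
  have hq0 : slc q (q.2.2 (Fin.last k)) = q := by simp [slc]
  have hin : slc q (q.2.2 (Fin.last k)) ∈ O := by rwa [hq0]
  have han : AnalyticOnNhd ℂ (fun ω => Q (slc q ω)) {ω : ℂ | slc q ω ∈ O} := by
    intro ω hω
    exact (hQ _ hω).comp_of_eq (slc_analytic q ω) rfl
  have hev : ∀ᶠ ω in 𝓝 (q.2.2 (Fin.last k)), Q (slc q ω) = 0 := by
    apply eventually_zero_of_iteratedDeriv (han _ hin)
    intro i
    rw [iteratedDeriv_slc hO hQ q i _ hin, hq0]
    exact h i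
  intro ω hω
  exact han.eqOn_zero_of_preconnected_of_eventuallyEq_zero (slc_preconnected hconv q) hin hev hω

theorem caseA {k : ℕ} {O : Set (ℂ × ℂ × (Fin (k + 1) → ℂ))} (hO : IsOpen O) {Q : ℂ × ℂ × (Fin (k + 1) → ℂ) → ℂ} (hQ : AnalyticOnNhd ℂ Q O)
    {w : ℕ → ℝ → ℂ → ℂ} {I : Set ℝ} {D : Set ℂ} (hI : IsOpen I) (hD : IsOpen D) (hw : JetFam w I D) (hmem : ∀ s ∈ I, ∀ z ∈ D, Jt k w s z ∈ O)
    (hrel : ∀ s ∈ I, ∀ z ∈ D, Q (Jt k w s z) = 0) (hA : ∃ i : ℕ, ∃ s ∈ I, ∃ z ∈ D, (dk^[i] Q) (Jt k w s z) ≠ 0) :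
    ∃ s₁ ∈ I, ∃ z₁ ∈ D, Ext (w 0) I D s₁ z₁ := by
  classical
  obtain ⟨s₁, hs₁, z₁, hz₁, hne⟩ := Nat.find_spec hA
  have hmin := fun m hm => Nat.find_min hA (m := m) hm
  set i := Nat.find hA with hi
  rcases Nat.eq_zero_or_pos i with h0 | h0
  · rw [h0] at hne
    exact absurd (hrel s₁ hs₁ z₁ hz₁) hne
  · obtain ⟨j, hj⟩ : ∃ j, i = j + 1 := ⟨i - 1, by omega⟩
    have hjm := hmin j (by omega)
    push Not at hjm
    rw [hj, Function.iterate_succ_apply'] at hne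
    exact ⟨s₁, hs₁, z₁, hz₁, gen_step hO (dk_iterate_analytic hQ j) hI hD hw hmem hjm hs₁ hz₁ hne⟩

theorem gen_analytic : ∀ (k : ℕ) {O : Set (ℂ × ℂ × (Fin (k + 1) → ℂ))}, IsOpen O → Convex ℝ O →
    (∀ (s z : ℂ) (v v' : Fin (k + 1) → ℂ), v 0 = v' 0 → (s, z, v) ∈ O → (s, z, v') ∈ O) →
    ∀ {Q : ℂ × ℂ × (Fin (k + 1) → ℂ) → ℂ}, AnalyticOnNhd ℂ Q O → (∃ q ∈ O, Q q ≠ 0) →
    ∀ {w : ℕ → ℝ → ℂ → ℂ} {I : Set ℝ} {D : Set ℂ}, IsOpen I → IsOpen D → I.Nonempty → D.Nonempty → JetFam w I D →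
    (∀ s ∈ I, ∀ z ∈ D, Jt k w s z ∈ O) → (∀ s ∈ I, ∀ z ∈ D, Q (Jt k w s z) = 0) → ∃ s₁ ∈ I, ∃ z₁ ∈ D, Ext (w 0) I D s₁ z₁ := by
  intro k
  induction k with
  | zero =>
    intro O hO hconv _ Q hQ hne w I D hI hD hIn hDn hw hmem hrel
    by_cases hA : ∃ i : ℕ, ∃ s ∈ I, ∃ z ∈ D, (dk^[i] Q) (Jt 0 w s z) ≠ 0
    · exact caseA hO hQ hI hD hw hmem hrel hA
    · push Not at hA
      exfalso
      have hz : ∀ s ∈ I, ∀ z ∈ D, ∀ v : Fin 1 → ℂ, ((s : ℂ), z, v) ∈ O → Q ((s : ℂ), z, v) = 0 := by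
        intro s hs z hz v hv
        have e : slc (Jt 0 w s z) (v 0) = ((s : ℂ), z, v) := by
          simp only [slc, Jt]
          refine Prod.ext rfl (Prod.ext rfl ?_)
          ext i
          have hi : i = Fin.last 0 := Fin.ext (by omega)
          rw [hi]
          simp
        have := slice_zero hO hconv hQ (hmem s hs z hz) (fun i => hA i s hs z hz) (v 0) (by rwa [e])
        rwa [e] at this
      obtain ⟨s₀, hs₀⟩ := hIn
      obtain ⟨z₀, hz₀⟩ := hDn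
      have hq₀ := hmem s₀ hs₀ z₀ hz₀
      obtain ⟨r, hr, hrb⟩ := Metric.isOpen_iff.mp hO _ hq₀
      obtain ⟨r₁, hr₁, hr₁b⟩ := Metric.isOpen_iff.mp hD _ hz₀
      set r₂ := min r r₁ with hr₂
      have hr₂0 : 0 < r₂ := lt_min hr hr₁
      have hev : ∀ᶠ q in 𝓝 (Jt 0 w s₀ z₀), Q q = 0 := by
        filter_upwards [ball_mem_nhds _ hr₂0] with q hq
        rw [Jt, ← ball_prod_same, ← ball_prod_same] at hq
        obtain ⟨h1, h2, h3⟩ := hq
        have han : AnalyticOnNhd ℂ (fun t : ℂ => Q (t, q.2.1, q.2.2)) (ball (s₀ : ℂ) r₂) := by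
          intro t ht
          have hin : ((t, q.2.1, q.2.2) : ℂ × ℂ × (Fin 1 → ℂ)) ∈ O := by
            apply hrb
            rw [Jt, ← ball_prod_same, ← ball_prod_same]
            exact ⟨ball_subset_ball (min_le_left _ _) ht, ball_subset_ball (min_le_left _ _) h2, ball_subset_ball (min_le_left _ _) h3⟩
          exact (hQ _ hin).comp_of_eq (analyticAt_id.prod (analyticAt_const.prod analyticAt_const)) rfl
        have hfr : ∃ᶠ t in 𝓝[≠] (s₀ : ℂ), Q (t, q.2.1, q.2.2) = 0 := by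
          have hm : Tendsto (fun x : ℝ => (x : ℂ)) (𝓝[≠] s₀) (𝓝[≠] (s₀ : ℂ)) := by
            apply tendsto_nhdsWithin_of_tendsto_nhds_of_eventually_within
            · exact (Complex.continuous_ofReal.tendsto s₀).mono_left nhdsWithin_le_nhds
            · filter_upwards [self_mem_nhdsWithin] with x hx
              exact fun h => hx (Complex.ofReal_injective h)
          apply hm.frequently
          apply Filter.Eventually.frequently
          apply Filter.Eventually.filter_mono nhdsWithin_le_nhds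
          filter_upwards [hI.mem_nhds hs₀, ball_mem_nhds s₀ hr₂0] with x hx hxr
          apply hz x hx q.2.1 (hr₁b (ball_subset_ball (min_le_right _ _) h2)) q.2.2
          apply hrb
          rw [Jt, ← ball_prod_same, ← ball_prod_same]
          refine ⟨?_, ball_subset_ball (min_le_left _ _) h2, ball_subset_ball (min_le_left _ _) h3⟩
          rw [mem_ball, dist_eq_norm, ← Complex.ofReal_sub, Complex.norm_real, ← dist_eq_norm]
          exact ball_subset_ball (min_le_left _ _) hxr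
        have := han.eqOn_zero_of_preconnected_of_frequently_eq_zero (convex_ball _ _).isPreconnected (mem_ball_self hr₂0) hfr h1
        exact this
      obtain ⟨q, hq, hne'⟩ := hne
      exact hne' (hQ.eqOn_zero_of_preconnected_of_eventuallyEq_zero hconv.isPreconnected hq₀ hev hq)
  | succ k ih =>
    intro O hO hconv hdep Q hQ hne w I D hI hD hIn hDn hw hmem hrel
    by_cases hA : ∃ i : ℕ, ∃ s ∈ I, ∃ z ∈ D, (dk^[i] Q) (Jt (k + 1) w s z) ≠ 0
    · exact caseA hO hQ hI hD hw hmem hrel hA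
    · push Not at hA
      obtain ⟨q₀, hq₀, hne⟩ := hne
      set ω := q₀.2.2 (Fin.last (k + 1)) with hω
      set ι : ℂ × ℂ × (Fin (k + 1) → ℂ) → ℂ × ℂ × (Fin (k + 2) → ℂ) := fun q => (q.1, q.2.1, Fin.snoc (α := fun _ => ℂ) q.2.2 ω) with hι
      have hιc : ∀ (x y : ℂ × ℂ × (Fin (k + 1) → ℂ)) (a b : ℝ), a + b = 1 → ι (a • x + b • y) = a • ι x + b • ι y := by
        intro x y a b hab
        have hab' : (a : ℂ) + (b : ℂ) = 1 := by rw [← Complex.ofReal_add, hab, Complex.ofReal_one]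
        refine Prod.ext rfl (Prod.ext rfl ?_)
        ext i
        refine Fin.lastCases ?_ (fun j => ?_) i
        · simp only [hι, Fin.snoc_last, Prod.smul_mk, Prod.mk_add_mk, Pi.add_apply, Pi.smul_apply, Complex.real_smul]
          rw [← add_mul, hab', one_mul]
        · simp [hι]
      have hιa : ∀ q, AnalyticAt ℂ ι q := by
        intro q
        apply analyticAt_fst.prod
        apply (analyticAt_fst.comp analyticAt_snd).prod
        rw [analyticAt_pi_iff]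
        intro i
        refine Fin.lastCases ?_ (fun j => ?_) i
        · simp only [Fin.snoc_last]
          exact analyticAt_const
        · simp only [Fin.snoc_castSucc]
          exact ((ContinuousLinearMap.proj (R := ℂ) (φ := fun _ : Fin (k + 1) => ℂ) j).comp
            ((ContinuousLinearMap.snd ℂ ℂ (Fin (k + 1) → ℂ)).comp (ContinuousLinearMap.snd ℂ ℂ (ℂ × (Fin (k + 1) → ℂ))))).analyticAt q
      have hJ : ∀ s z, ι (Jt k w s z) = slc (Jt (k + 1) w s z) ω := by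
        intro s z
        refine Prod.ext rfl (Prod.ext rfl ?_)
        ext i
        refine Fin.lastCases ?_ (fun j => ?_) i
        · simp [hι, slc]
        · simp [hι, slc, Jt]
      have hJO : ∀ s ∈ I, ∀ z ∈ D, slc (Jt (k + 1) w s z) ω ∈ O := by
        intro s hs z hz
        apply hdep _ _ _ _ _ (hmem s hs z hz)
        simp [Jt]
      apply ih (O := ι ⁻¹' O) (Q := fun q => Q (ι q))
      · exact hO.preimage (continuous_iff_continuousAt.mpr fun q => (hιa q).continuousAt)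
      · intro x hx y hy a b ha hb hab
        show ι (a • x + b • y) ∈ O
        rw [hιc x y a b hab]
        exact hconv hx hy ha hb hab
      · intro s z v v' hv hO'
        apply hdep s z _ _ _ hO'
        have : (0 : Fin (k + 2)) = Fin.castSucc 0 := rfl
        rw [this]
        simp only [Fin.snoc_castSucc]
        exact hv
      · intro q hq
        exact (hQ _ hq).comp_of_eq (hιa q) rfl
      · have e : ι (q₀.1, q₀.2.1, fun j => q₀.2.2 j.castSucc) = q₀ := by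
          refine Prod.ext rfl (Prod.ext rfl ?_)
          ext i
          refine Fin.lastCases ?_ (fun j => ?_) i
          · simp [hι, hω]
          · simp [hι]
        refine ⟨(q₀.1, q₀.2.1, fun j => q₀.2.2 j.castSucc), ?_, ?_⟩
        · show ι (q₀.1, q₀.2.1, fun j => q₀.2.2 j.castSucc) ∈ O
          rwa [e]
        · show Q (ι (q₀.1, q₀.2.1, fun j => q₀.2.2 j.castSucc)) ≠ 0
          rwa [e]
      · exact hI
      · exact hD
      · exact hIn
      · exact hDn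
      · exact hw
      · intro s hs z hz
        show ι (Jt k w s z) ∈ O
        rw [hJ]
        exact hJO s hs z hz
      · intro s hs z hz
        show Q (ι (Jt k w s z)) = 0
        rw [hJ]
        exact slice_zero hO hconv hQ (hmem s hs z hz) (fun i => hA i s hs z hz) ω (hJO s hs z hz)

end Pool.Agent.G3.C

end

section

/-!
# BP ExtC: points where the metric is positive

Near `z`: `ρ(F w) ≠ 0` for `w ≠ z` (`ρ_zero`, `hB`), and `wd (F w) (deriv F w) ≠ 0` for `w ≠ z`: otherwise (frequently `0`) all minors `F_i F_j' - F_j F_i'` (holomorphic; they vanish where `F' = a F`, `wd_eq_zero`) vanish frequently, hence near `z`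
(`AnalyticAt.frequently_zero_iff_eventually_zero`), and then `wd = 0` near `z` (if all minors of `(x, v)` vanish and `x ≠ 0` then `v` is a multiple of `x`), against `hc`.  Now `lower`: `mt G F w ≥ ρ^M fs > 0`.
-/

set_option autoImplicit false

namespace Pool.Agent.H36.BP

open Filter Topology Metric

variable {N : ℕ}

variable {K B : Set (EN N)} {G : EN N → EN N → ℝ} {ρ : EN N → ℝ} {M : ℕ} {c₀ C : ℝ}

private theorem ExtC_proj {F : ℂ → EN N} {z : ℂ} (hF : AnalyticAt ℂ F z) (i : Fin (N + 1)) :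
    AnalyticAt ℂ (fun w => F w i) z :=
  (ContinuousLinearMap.analyticAt (EuclideanSpace.proj i : EN N →L[ℂ] ℂ) (F z)).comp hF

theorem exists_pos (hM : MetricData K B G ρ M c₀ C) {F : ℂ → EN N} {z : ℂ} (hF : AnalyticAt ℂ F z) (hK : ∀ᶠ w in 𝓝 z, F w ∈ K)
    (hB : ¬ ∀ᶠ w in 𝓝 z, F w ∈ B) (hc : ¬ ∀ᶠ w in 𝓝 z, wd (F w) (deriv F w) = 0) : ∀ᶠ w in 𝓝[≠] z, 0 < mt G F w := by
  have h1 : ∀ᶠ w in 𝓝[≠] z, ρ (F w) ≠ 0 := by
    by_contra h
    exact hB (hM.ρ_zero F z hF hK (by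
      rw [Filter.not_eventually] at h
      simpa using h))
  have h2 : ∀ᶠ w in 𝓝[≠] z, wd (F w) (deriv F w) ≠ 0 := by
    by_contra h
    rw [Filter.not_eventually] at h
    refine hc ?_
    have h3 : ∀ i j : Fin (N + 1),
        ∀ᶠ w in 𝓝 z, F w i * deriv F w j - F w j * deriv F w i = 0 := by
      intro i j
      have han : AnalyticAt ℂ (fun w => F w i * deriv F w j - F w j * deriv F w i) z :=
        ((ExtC_proj hF i).mul (ExtC_proj hF.deriv j)).sub
          ((ExtC_proj hF j).mul (ExtC_proj hF.deriv i))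
      refine (han.frequently_zero_iff_eventually_zero).1 ?_
      refine (h.and_eventually (hK.filter_mono nhdsWithin_le_nhds)).mono ?_
      rintro w ⟨hw1, hw2⟩
      rw [not_not, wd_eq_zero (hM.ne _ hw2)] at hw1
      obtain ⟨a, ha⟩ := hw1
      rw [ha]
      simp only [PiLp.smul_apply, smul_eq_mul]
      ring
    have h4 : ∀ᶠ w in 𝓝 z, ∀ i j : Fin (N + 1),
        F w i * deriv F w j - F w j * deriv F w i = 0 :=
      Filter.eventually_all.2 fun i => Filter.eventually_all.2 fun j => h3 i j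
    filter_upwards [h4, hK] with w hw1 hw2
    rw [wd_eq_zero (hM.ne _ hw2)]
    have h5 : ∃ i, F w i ≠ 0 := by
      by_contra h6
      rw [not_exists] at h6
      refine hM.ne _ hw2 (PiLp.ext fun i => ?_)
      exact not_not.1 (h6 i)
    obtain ⟨i, hi⟩ := h5
    refine ⟨deriv F w i / F w i, PiLp.ext fun j => ?_⟩
    rw [PiLp.smul_apply, smul_eq_mul]
    have h6 := hw1 i j
    field_simp
    linear_combination h6
  filter_upwards [h1, h2, hK.filter_mono nhdsWithin_le_nhds] with w hw1 hw2 hw3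
  have h3 : 0 < ρ (F w) := lt_of_le_of_ne (hM.ρ_nonneg _ hw3) (Ne.symm hw1)
  have h4 : 0 < wd (F w) (deriv F w) := lt_of_le_of_ne (wd_nonneg _ _) (Ne.symm hw2)
  have h5 : 0 < ‖F w‖ := norm_pos_iff.2 (hM.ne _ hw3)
  have h6 : 0 < fs (F w) (deriv F w) := div_pos h4 (pow_pos h5 2)
  exact (mul_pos (pow_pos h3 M) h6).trans_le (hM.lower _ hw3 _)

end Pool.Agent.H36.BP

end

section

/-!
# G3 A TanA: the points of an analytic curve at which it is tangent to a direction are isolated (local theorem)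

`tan_local`.  Linear coordinates `(ξ, ω)` with `ξ a = 0`, `ω a = 1`.  `local_trans`, `local_tan`: at a transversal point `D` is the graph `ω = g (ξ)`, at a tangency point the graph `ξ = φ (ω)` with
`φ' = 0` there, and `φ` is not constant (identity theorem on the line).  `Loc`: these data in a neighbourhood `ball x₀ r × closedBall w₀ R`, `2 R ≤ 1`, with no points on `|ω - w₀| = R`.
`Om`: the `x` over which all points are transversal; `del x`: the product of the differences of the points of the fibre over `x ∈ Om`, `0` for `x ∉ Om`; `|del| ≤ 1` since all differences are at most `1`.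
`del` is analytic at the points of `Om` (`del_an`), not zero there (`dlt_ne`), and analytic at the other points `x₁ ≠ x₀` (`del_an'`), since it tends to `0` there: every value near a critical value is taken
twice (`two_preimages`).  So `(x - x₀) del x` is analytic at `x₀`, and not identically zero: `iso_of_loc`.
-/

set_option autoImplicit false

open Topology Filter Metric

namespace Pool.Agent.G3.A

open Pool.Agent.AD (Vd)
open Pool.Agent.TG

/-- coordinates adapted to the direction `a` -/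
private theorem exists_coords {a : Vd (1 + 1)} (ha : a ≠ 0) : ∃ (ξ ω : Vd (1 + 1) →L[ℂ] ℂ) (e : Vd (1 + 1)), ξ a = 0 ∧ ω a = 1 ∧ ξ e = 1 ∧ ω e = 0 ∧
    ∀ q : Vd (1 + 1), ξ q • e + ω q • a = q := by
  by_cases h0 : a 0 = 0
  · have h1 : a 1 ≠ 0 := fun h1 => ha (by
      ext i
      fin_cases i
      · exact h0
      · exact h1)
    refine ⟨ContinuousLinearMap.proj 0, (a 1)⁻¹ • ContinuousLinearMap.proj 1, Pi.single 0 1, by simpa using h0, by simp [h1], by simp, by simp, fun q => ?_⟩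
    ext i
    fin_cases i
    · simp [h0]
    · simp
      field_simp
  · refine ⟨ContinuousLinearMap.proj 1 - (a 1 / a 0) • ContinuousLinearMap.proj 0, (a 0)⁻¹ • ContinuousLinearMap.proj 0, Pi.single 1 1, ?_, by simp [h0], by simp, by simp,
      fun q => ?_⟩
    · simp
      field_simp
      ring
    · ext i
      fin_cases i
      · simp
        field_simp
      · simp
        field_simp
        ring

/-- the set `D` is a graph over the coordinate `ξ`, if its tangent line is transversal to `ξ = 0` -/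
private theorem graph_of_coord {D : Set (Vd (1 + 1))} {κ : Vd (1 + 1) → Vd (1 + 1)} {q₁ : Vd (1 + 1)} (hκ : IsCoord D κ q₁) (ξ ω : Vd (1 + 1) →L[ℂ] ℂ)
    (hinj : ∀ v, ξ v = 0 → ω v = 0 → v = 0) (hξ : ξ (fderiv ℂ κ 0 (Pi.single 1 1)) ≠ 0) :
    ∃ g : ℂ → ℂ, AnalyticAt ℂ g (ξ q₁) ∧ g (ξ q₁) = ω q₁ ∧ ∀ᶠ q in 𝓝 q₁, (q ∈ D ↔ ω q = g (ξ q)) := by
  obtain ⟨ψ, hψ, hψκ, hκψ, hψ0⟩ := Pool.Agent.H62.BU.local_inverse hκ.an (fun v hv => hκ.inj (by rw [hv, map_zero]))
  rw [hκ.zero] at hψ hκψ hψ0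
  have hκd : HasFDerivAt κ (fderiv ℂ κ 0) 0 := hκ.an.differentiableAt.hasFDerivAt
  have hΘ : AnalyticAt ℂ (fun p : Vd (1 + 1) => (![ξ (κ p), p 0] : Vd (1 + 1))) 0 := by
    rw [analyticAt_pi_iff]
    intro i
    fin_cases i
    · exact (ξ.analyticAt _).comp hκ.an
    · exact (ContinuousLinearMap.proj (R := ℂ) (φ := fun _ : Fin (1 + 1) => ℂ) 0).analyticAt 0
  have hΘd : HasFDerivAt (fun p : Vd (1 + 1) => (![ξ (κ p), p 0] : Vd (1 + 1)))
      (ContinuousLinearMap.pi ![ξ.comp (fderiv ℂ κ 0), ContinuousLinearMap.proj 0]) 0 := by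
    rw [hasFDerivAt_pi']
    intro i
    fin_cases i
    · exact ξ.hasFDerivAt.comp 0 hκd
    · exact (ContinuousLinearMap.proj (R := ℂ) (φ := fun _ : Fin (1 + 1) => ℂ) 0).hasFDerivAt
  obtain ⟨Sg, hS, hST, hTS, hS0⟩ := Pool.Agent.H62.BU.local_inverse hΘ (fun v hv => by
    rw [hΘd.fderiv] at hv
    have h1 := congrFun hv 0
    have h2 := congrFun hv 1
    simp only [ContinuousLinearMap.coe_pi', Matrix.cons_val_zero, Matrix.cons_val_one, ContinuousLinearMap.comp_apply, ContinuousLinearMap.proj_apply, Pi.zero_apply] at h1 h2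
    have h3 : v = v 1 • Pi.single 1 1 := by
      ext i
      fin_cases i
      · simpa using h2
      · simp
    rw [h3, map_smul, map_smul, smul_eq_mul] at h1
    rcases mul_eq_zero.mp h1 with h4 | h4
    · rw [h3, h4, zero_smul]
    · exact absurd h4 hξ)
  rw [hκ.zero] at hS hTS hS0
  have hcons : AnalyticAt ℂ (fun x : ℂ => (![x, 0] : Vd (1 + 1))) (ξ q₁) := by
    rw [analyticAt_pi_iff]
    intro i
    fin_cases i
    · exact analyticAt_id
    · exact analyticAt_const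
  have hz : (![ξ q₁, (0 : Vd (1 + 1)) 0] : Vd (1 + 1)) = ![ξ q₁, 0] := rfl
  rw [hz] at hS hTS hS0
  have hg1 : AnalyticAt ℂ (fun x : ℂ => Sg ![x, 0]) (ξ q₁) := AnalyticAt.fun_comp hS hcons
  have hg2 : AnalyticAt ℂ (fun x : ℂ => κ (Sg ![x, 0])) (ξ q₁) := by
    have h1 : AnalyticAt ℂ κ (Sg ![ξ q₁, 0]) := by
      rw [hS0]
      exact hκ.an
    exact AnalyticAt.fun_comp h1 hg1
  refine ⟨fun x => ω (κ (Sg ![x, 0])), AnalyticAt.fun_comp (ω.analyticAt _) hg2, ?_, ?_⟩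
  · show ω (κ (Sg ![ξ q₁, 0])) = ω q₁
    rw [hS0, hκ.zero]
  · have t1 : Tendsto ψ (𝓝 q₁) (𝓝 0) := by
      have := hψ.continuousAt.tendsto
      rwa [hψ0] at this
    have t2 : Tendsto (fun q : Vd (1 + 1) => ξ q) (𝓝 q₁) (𝓝 (ξ q₁)) := ξ.continuous.continuousAt
    have t3 : Tendsto (fun q : Vd (1 + 1) => Sg ![ξ q, 0]) (𝓝 q₁) (𝓝 0) := by
      have := hg1.continuousAt.tendsto.comp t2
      rw [hS0] at this
      exact this
    have t4 : Tendsto (fun q : Vd (1 + 1) => (![ξ q, 0] : Vd (1 + 1))) (𝓝 q₁) (𝓝 ![ξ q₁, 0]) := hcons.continuousAt.tendsto.comp t2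
    filter_upwards [hκψ, t1.eventually hκ.mem_iff, t1.eventually hST, t3.eventually hψκ, t4.eventually hTS, hκψ] with q h1 h2 h3 h4 h5 h6
    rw [h1] at h2 h3
    have h51 := congrFun h5 0
    have h52 := congrFun h5 1
    simp only [Matrix.cons_val_zero, Matrix.cons_val_one] at h51 h52
    constructor
    · intro hq
      rw [h2.mp hq] at h3
      rw [h3, h1]
    · intro hq
      have h7 : κ (Sg ![ξ q, 0]) = q := by
        have h8 := hinj (κ (Sg ![ξ q, 0]) - q) (by rw [map_sub, h51, sub_self]) (by rw [map_sub, ← hq, sub_self])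
        exact sub_eq_zero.mp h8
      rw [h7] at h4
      rw [← h4] at h52
      exact h2.mpr h52

/-- if `D` is near `q'` contained in the zero set of `F`, and the derivative of `F` in the direction `a` is not zero, then `a` is transversal to `D` -/
private theorem trans_of {D : Set (Vd (1 + 1))} {q' a : Vd (1 + 1)} (ha : a ≠ 0) {F : Vd (1 + 1) → ℂ} {F' : Vd (1 + 1) →L[ℂ] ℂ} (hF : HasFDerivAt F F' q')
    (h : ∀ᶠ q in 𝓝 q', q ∈ D → F q = 0) (hne : F' a ≠ 0) : TransAt D q' a := by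
  refine ⟨ha, fun κ hκ p hp hpa => hne ?_⟩
  have h1 : HasDerivAt (fun s : ℂ => s • p) p 0 := by
    have := (hasDerivAt_id (0 : ℂ)).smul_const p
    simpa using this
  have h2 : HasDerivAt (fun s : ℂ => κ (s • p)) a 0 := by
    have h3 : HasFDerivAt κ (fderiv ℂ κ 0) ((0 : ℂ) • p) := by
      rw [zero_smul]
      exact hκ.an.differentiableAt.hasFDerivAt
    have h4 := h3.comp_hasDerivAt (0 : ℂ) h1
    rwa [hpa] at h4
  have h5 : κ ((0 : ℂ) • p) = q' := by rw [zero_smul, hκ.zero]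
  have h6 : HasDerivAt (fun s : ℂ => F (κ (s • p))) (F' a) 0 := by
    have h7 : HasFDerivAt F F' (κ ((0 : ℂ) • p)) := by rwa [h5]
    exact h7.comp_hasDerivAt (0 : ℂ) h2
  have t1 : Tendsto (fun s : ℂ => s • p) (𝓝 0) (𝓝 0) := by
    have := h1.continuousAt.tendsto
    rwa [zero_smul] at this
  have t2 : Tendsto (fun s : ℂ => κ (s • p)) (𝓝 0) (𝓝 q') := by
    have := h2.continuousAt.tendsto
    rwa [h5] at this
  have h8 : HasDerivAt (fun s : ℂ => F (κ (s • p))) 0 0 := by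
    refine (hasDerivAt_const (0 : ℂ) (0 : ℂ)).congr_of_eventuallyEq ?_
    filter_upwards [t1.eventually hκ.mem_iff, t2.eventually h] with s hs1 hs2
    refine hs2 (hs1.mpr ?_)
    show s • p 0 = 0
    rw [hp, smul_zero]
  exact h6.unique h8

/-- near a critical point a nonconstant function takes every value at least twice -/
private theorem two_preimages {φ : ℂ → ℂ} {w₁ x₁ : ℂ} (hφ : AnalyticAt ℂ φ w₁) (h0 : φ w₁ = x₁) (hd : deriv φ w₁ = 0) (hnc : ¬ ∀ᶠ w in 𝓝 w₁, φ w = x₁) {ε : ℝ}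
    (hε : 0 < ε) : ∀ᶠ x in 𝓝[≠] x₁, ∃ w w' : ℂ, w ≠ w' ∧ w ∈ ball w₁ ε ∧ w' ∈ ball w₁ ε ∧ φ w = x ∧ φ w' = x := by
  have hf : AnalyticAt ℂ (fun w => φ w - x₁) w₁ := hφ.sub analyticAt_const
  have hf0 : ¬ ∀ᶠ w in 𝓝 w₁, φ w - x₁ = 0 := fun h => hnc (h.mono fun w hw => sub_eq_zero.mp hw)
  obtain ⟨n, g, hg, hg0, hgf⟩ := hf.exists_eventuallyEq_pow_smul_nonzero_iff.mpr hf0
  have hn0 : n ≠ 0 := by
    rintro rfl
    have h1 := hgf.self_of_nhds
    rw [h0, sub_self, pow_zero, one_smul] at h1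
    exact hg0 h1.symm
  have hn1 : n ≠ 1 := by
    rintro rfl
    have h1 : HasDerivAt (fun w => (w - w₁) * g w) (1 * g w₁ + (w₁ - w₁) * deriv g w₁) w₁ :=
      ((hasDerivAt_id w₁).sub_const w₁).mul hg.differentiableAt.hasDerivAt
    have h2 : HasDerivAt (fun w => φ w - x₁) (1 * g w₁ + (w₁ - w₁) * deriv g w₁) w₁ := by
      refine h1.congr_of_eventuallyEq ?_
      filter_upwards [hgf] with w hw
      rw [hw, pow_one, smul_eq_mul]
    have h3 : HasDerivAt (fun w => φ w - x₁) (deriv φ w₁) w₁ := hφ.differentiableAt.hasDerivAt.sub_const x₁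
    have h4 := h2.unique h3
    rw [hd, sub_self, zero_mul, add_zero, one_mul] at h4
    exact hg0 h4
  have hn : 1 < n := by omega
  obtain ⟨c, hc⟩ := IsAlgClosed.exists_pow_nat_eq (g w₁) (n := n) (by omega)
  have hc0 : c ≠ 0 := by
    rintro rfl
    rw [zero_pow hn0] at hc
    exact hg0 hc.symm
  have hv : AnalyticAt ℂ (fun w => c * Complex.exp (Complex.log (g w / g w₁) / n)) w₁ := by
    refine analyticAt_const.mul (AnalyticAt.cexp (AnalyticAt.div ?_ analyticAt_const (by exact_mod_cast hn0)))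
    refine AnalyticAt.clog (hg.div analyticAt_const hg0) ?_
    rw [div_self hg0]
    exact Complex.one_mem_slitPlane
  have hvn : ∀ᶠ w in 𝓝 w₁, (c * Complex.exp (Complex.log (g w / g w₁) / n)) ^ n = g w := by
    filter_upwards [hg.continuousAt.eventually_ne hg0] with w hw
    rw [mul_pow, hc, ← Complex.exp_nat_mul, mul_div_cancel₀ _ (by exact_mod_cast hn0 : (n : ℂ) ≠ 0), Complex.exp_log (div_ne_zero hw hg0)]
    field_simp
  set v : ℂ → ℂ := fun w => c * Complex.exp (Complex.log (g w / g w₁) / n) with hvdef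
  have hv0 : v w₁ ≠ 0 := mul_ne_zero hc0 (Complex.exp_ne_zero _)
  have hψ : AnalyticAt ℂ (fun w => (w - w₁) * v w) w₁ := (analyticAt_id.sub analyticAt_const).mul hv
  have hψd : HasDerivAt (fun w => (w - w₁) * v w) (1 * v w₁ + (w₁ - w₁) * deriv v w₁) w₁ :=
    ((hasDerivAt_id w₁).sub_const w₁).mul hv.differentiableAt.hasDerivAt
  obtain ⟨χ, hχ, hχψ, hψχ, hχ0⟩ := Pool.Agent.H62.BU.local_inverse hψ (fun t ht => by
    rw [hψd.hasFDerivAt.fderiv] at ht
    simp only [sub_self, zero_mul, add_zero, one_mul, ContinuousLinearMap.toSpanSingleton_apply, smul_eq_mul] at ht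
    rcases mul_eq_zero.mp ht with h | h
    · exact h
    · exact absurd h hv0)
  have hz : (w₁ - w₁) * v w₁ = 0 := by rw [sub_self, zero_mul]
  rw [hz] at hχ hψχ hχ0
  have t1 : Tendsto χ (𝓝 0) (𝓝 w₁) := by
    have := hχ.continuousAt.tendsto
    rwa [hχ0] at this
  have hgood : ∀ᶠ t in 𝓝 (0 : ℂ), (χ t - w₁) * v (χ t) = t ∧ χ t ∈ ball w₁ ε ∧ φ (χ t) = x₁ + t ^ n := by
    filter_upwards [hψχ, t1.eventually (ball_mem_nhds w₁ hε), t1.eventually hgf, t1.eventually hvn] with t h1 h2 h3 h4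
    refine ⟨h1, h2, ?_⟩
    rw [smul_eq_mul, ← h4, ← mul_pow, h1] at h3
    rw [← h3]
    ring
  obtain ⟨δ, hδ, hgood'⟩ := Metric.eventually_nhds_iff_ball.mp hgood
  have hx : ∀ᶠ x in 𝓝[≠] x₁, x ∈ ball x₁ (δ ^ n) := nhdsWithin_le_nhds (ball_mem_nhds x₁ (pow_pos hδ n))
  filter_upwards [hx, self_mem_nhdsWithin] with x hx1 hx2
  obtain ⟨t, ht⟩ := IsAlgClosed.exists_pow_nat_eq (x - x₁) (n := n) (by omega)
  have ht0 : t ≠ 0 := by
    rintro rfl
    rw [zero_pow hn0] at ht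
    exact hx2 (sub_eq_zero.mp ht.symm)
  have htδ : ‖t‖ < δ := by
    refine lt_of_pow_lt_pow_left₀ n hδ.le ?_
    rw [← norm_pow, ht, ← dist_eq_norm]
    exact hx1
  have hζ := Complex.isPrimitiveRoot_exp n hn0
  set ζ := Complex.exp (2 * Real.pi * Complex.I / n) with hζdef
  have hζn : ζ ^ n = 1 := hζ.pow_eq_one
  have hζ1 : ζ ≠ 1 := hζ.ne_one hn
  have hζnorm : ‖ζ‖ = 1 := Complex.norm_eq_one_of_pow_eq_one hζn hn0
  have g1 := hgood' t (by rwa [mem_ball_zero_iff])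
  have g2 := hgood' (ζ * t) (by rwa [mem_ball_zero_iff, norm_mul, hζnorm, one_mul])
  refine ⟨χ t, χ (ζ * t), fun h => ?_, g1.2.1, g2.2.1, ?_, ?_⟩
  · have h1 : t = ζ * t := by
      rw [← g1.1]
      conv_rhs => rw [g1.1, ← g2.1]
      rw [h]
    have h2 : (ζ - 1) * t = 0 := by
      rw [sub_mul, one_mul, ← h1, sub_self]
    rcases mul_eq_zero.mp h2 with h3 | h3
    · exact hζ1 (sub_eq_zero.mp h3)
    · exact ht0 h3
  · rw [g1.2.2, ht]
    ring
  · rw [g2.2.2, mul_pow, hζn, one_mul, ht]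
    ring

/-- the first case: the direction `a` is not tangent -/
private theorem local_trans {D : Set (Vd (1 + 1))} {q₁ a : Vd (1 + 1)} {ξ ω : Vd (1 + 1) →L[ℂ] ℂ} {e : Vd (1 + 1)} (hq : ∀ q : Vd (1 + 1), ξ q • e + ω q • a = q)
    (hco : ∃ κ : Vd (1 + 1) → Vd (1 + 1), IsCoord D κ q₁) (ht : TransAt D q₁ a) :
    ∃ g : ℂ → ℂ, AnalyticAt ℂ g (ξ q₁) ∧ g (ξ q₁) = ω q₁ ∧ ∀ᶠ q in 𝓝 q₁, (q ∈ D ↔ ω q = g (ξ q)) := by
  obtain ⟨κ, hκ⟩ := hco
  refine graph_of_coord hκ ξ ω (fun v h1 h2 => by rw [← hq v, h1, h2, zero_smul, zero_smul, add_zero]) fun h0 => ?_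
  set v := fderiv ℂ κ 0 (Pi.single 1 1) with hv
  have h1 : v = ω v • a := by
    have := hq v
    rw [h0, zero_smul, zero_add] at this
    exact this.symm
  have h2 : ω v ≠ 0 := by
    intro h2
    rw [h2, zero_smul] at h1
    have h3 : (Pi.single 1 1 : Vd (1 + 1)) = 0 := hκ.inj (by rw [← hv, h1, map_zero])
    have h4 := congrFun h3 1
    simp at h4
  refine ht.2 κ hκ ((ω v)⁻¹ • Pi.single 1 1) (by simp) ?_
  rw [map_smul, ← hv]
  calc (ω v)⁻¹ • v = (ω v)⁻¹ • (ω v • a) := congrArg (fun y => (ω v)⁻¹ • y) h1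
    _ = a := by rw [smul_smul, inv_mul_cancel₀ h2, one_smul]

/-- the second case: the direction `a` is tangent -/
private theorem local_tan {D : Set (Vd (1 + 1))} {q₁ a : Vd (1 + 1)} {ξ ω : Vd (1 + 1) →L[ℂ] ℂ} {e : Vd (1 + 1)} (ha : a ≠ 0) (hξa : ξ a = 0) (hωa : ω a = 1)
    (hq : ∀ q : Vd (1 + 1), ξ q • e + ω q • a = q) (ht : ¬ TransAt D q₁ a) :
    ∃ φ : ℂ → ℂ, AnalyticAt ℂ φ (ω q₁) ∧ φ (ω q₁) = ξ q₁ ∧ deriv φ (ω q₁) = 0 ∧ ∀ᶠ q in 𝓝 q₁, (q ∈ D ↔ ξ q = φ (ω q)) := by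
  have h1 : ∃ κ : Vd (1 + 1) → Vd (1 + 1), IsCoord D κ q₁ ∧ ∃ p : Vd (1 + 1), p 0 = 0 ∧ fderiv ℂ κ 0 p = a := by
    by_contra hcon
    push Not at hcon
    exact ht ⟨ha, fun κ hκ p hp => hcon κ hκ p hp⟩
  obtain ⟨κ, hκ, p, hp0, hpa⟩ := h1
  have h2 : p = p 1 • Pi.single 1 1 := by
    ext i
    fin_cases i
    · simpa using hp0
    · simp
  have h3 : p 1 * ω (fderiv ℂ κ 0 (Pi.single 1 1)) = 1 := by
    calc p 1 * ω (fderiv ℂ κ 0 (Pi.single 1 1)) = ω (fderiv ℂ κ 0 (p 1 • Pi.single 1 1)) := by rw [map_smul, map_smul, smul_eq_mul]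
      _ = 1 := by rw [← h2, hpa, hωa]
  obtain ⟨φ, hφ, hφ1, hφD⟩ := graph_of_coord hκ ω ξ (fun v h4 h5 => by rw [← hq v, h4, h5, zero_smul, zero_smul, add_zero]) (right_ne_zero_of_mul (by rw [h3]; exact one_ne_zero))
  refine ⟨φ, hφ, hφ1, ?_, hφD⟩
  by_contra hne
  refine ht (trans_of (F := fun q => ξ q - φ (ω q)) (F' := ξ - deriv φ (ω q₁) • ω) ha ?_ ?_ ?_)
  · exact ξ.hasFDerivAt.sub (HasDerivAt.comp_hasFDerivAt q₁ hφ.differentiableAt.hasDerivAt ω.hasFDerivAt)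
  · filter_upwards [hφD] with q h4 h5
    rw [h4.mp h5, sub_self]
  · simpa [hξa, hωa] using hne

open Classical in
/-- the product of the differences of the elements of a finite set -/
private noncomputable def dlt (s : Set ℂ) : ℂ := if h : s.Finite then ∏ p ∈ h.toFinset.offDiag, (p.1 - p.2) else 0

private theorem dlt_eq {s : Set ℂ} {F : Finset ℂ} (h : s = F) : dlt s = ∏ p ∈ F.offDiag, (p.1 - p.2) := by
  classical
  subst h
  unfold dlt
  rw [dif_pos F.finite_toSet, Finset.finite_toSet_toFinset]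

private theorem dlt_ne {s : Set ℂ} (h : s.Finite) : dlt s ≠ 0 := by
  classical
  unfold dlt
  rw [dif_pos h]
  refine Finset.prod_ne_zero_iff.mpr fun p hp => ?_
  rw [Finset.mem_offDiag] at hp
  exact sub_ne_zero.mpr hp.2.2

private theorem dlt_fac {s : Set ℂ} {w₀ : ℂ} {R : ℝ} (hR : 2 * R ≤ 1) (hs : ∀ w ∈ s, w ∈ closedBall w₀ R) {w w' : ℂ} (h1 : w ∈ s) (h2 : w' ∈ s) : ‖w - w'‖ ≤ 1 := by
  have h3 := hs w h1
  have h4 := hs w' h2
  rw [mem_closedBall] at h3 h4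
  rw [← dist_eq_norm]
  calc dist w w' ≤ dist w w₀ + dist w' w₀ := dist_triangle_right _ _ _
    _ ≤ 1 := by linarith

private theorem dlt_le_one {s : Set ℂ} {w₀ : ℂ} {R : ℝ} (hR : 2 * R ≤ 1) (hs : ∀ w ∈ s, w ∈ closedBall w₀ R) : ‖dlt s‖ ≤ 1 := by
  classical
  unfold dlt
  split_ifs with h
  · rw [norm_prod]
    refine Finset.prod_le_one (fun _ _ => norm_nonneg _) fun p hp => ?_
    rw [Finset.mem_offDiag, Set.Finite.mem_toFinset, Set.Finite.mem_toFinset] at hp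
    exact dlt_fac hR hs hp.1 hp.2.1
  · simp

private theorem dlt_le {s : Set ℂ} {w₀ : ℂ} {R : ℝ} (hR : 2 * R ≤ 1) (hs : ∀ w ∈ s, w ∈ closedBall w₀ R) {w w' : ℂ} (h1 : w ∈ s) (h2 : w' ∈ s) (hne : w ≠ w') :
    ‖dlt s‖ ≤ ‖w - w'‖ := by
  classical
  unfold dlt
  split_ifs with h
  · have hm : (w, w') ∈ h.toFinset.offDiag := by
      rw [Finset.mem_offDiag, Set.Finite.mem_toFinset, Set.Finite.mem_toFinset]
      exact ⟨h1, h2, hne⟩
    rw [norm_prod, ← Finset.mul_prod_erase _ _ hm]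
    refine mul_le_of_le_one_right (norm_nonneg _) (Finset.prod_le_one (fun _ _ => norm_nonneg _) fun p hp => ?_)
    rw [Finset.mem_erase, Finset.mem_offDiag, Set.Finite.mem_toFinset, Set.Finite.mem_toFinset] at hp
    exact dlt_fac hR hs hp.2.1 hp.2.2.1
  · simp

private theorem dlt_image {F : Finset ℂ} {f : ℂ → ℂ} (hf : Set.InjOn f F) : dlt (f '' F) = ∏ p ∈ F.offDiag, (f p.1 - f p.2) := by
  classical
  rw [dlt_eq (F := F.image f) (by simp)]
  symm
  refine Finset.prod_bij (fun p _ => (f p.1, f p.2)) ?_ ?_ ?_ fun _ _ => rfl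
  · intro p hp
    rw [Finset.mem_offDiag] at hp ⊢
    exact ⟨Finset.mem_image_of_mem f hp.1, Finset.mem_image_of_mem f hp.2.1, fun h => hp.2.2 (hf hp.1 hp.2.1 h)⟩
  · intro p hp p' hp' h
    rw [Finset.mem_offDiag] at hp hp'
    rw [Prod.mk.injEq] at h
    exact Prod.ext (hf hp.1 hp'.1 h.1) (hf hp.2.1 hp'.2.1 h.2)
  · intro p hp
    rw [Finset.mem_offDiag, Finset.mem_image, Finset.mem_image] at hp
    obtain ⟨⟨x, hx, hx1⟩, ⟨y, hy, hy1⟩, hne⟩ := hp
    exact ⟨(x, y), Finset.mem_offDiag.mpr ⟨hx, hy, fun h => hne (by rw [← hx1, ← hy1, show x = y from h])⟩, Prod.ext hx1 hy1⟩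

/-- the local data of the set `S` at the points over the punctured disc -/
private structure Loc (S : Set (ℂ × ℂ)) (Tr : ℂ × ℂ → Prop) (x₀ w₀ : ℂ) (r R : ℝ) : Prop where
  R_pos : 0 < R
  R_le : 2 * R ≤ 1
  r_pos : 0 < r
  circ : ∀ x ∈ ball x₀ r, ∀ w ∈ sphere w₀ R, (x, w) ∉ S
  out : ∀ x ∈ ball x₀ r, x ≠ x₀ → ∀ w ∈ closedBall w₀ R, (x, w) ∉ S → ∀ᶠ z in 𝓝 (x, w), z ∉ S
  tr : ∀ x ∈ ball x₀ r, x ≠ x₀ → ∀ w ∈ closedBall w₀ R, (x, w) ∈ S → Tr (x, w) →
    ∃ g : ℂ → ℂ, AnalyticAt ℂ g x ∧ g x = w ∧ (∀ᶠ z in 𝓝 (x, w), (z ∈ S ↔ z.2 = g z.1)) ∧ ∀ᶠ z in 𝓝 (x, w), z ∈ S → Tr z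
  tan : ∀ x ∈ ball x₀ r, x ≠ x₀ → ∀ w ∈ closedBall w₀ R, (x, w) ∈ S → ¬ Tr (x, w) →
    ∃ φ : ℂ → ℂ, AnalyticAt ℂ φ w ∧ φ w = x ∧ deriv φ w = 0 ∧ (¬ ∀ᶠ w' in 𝓝 w, φ w' = x) ∧ (∀ᶠ z in 𝓝 (x, w), (z ∈ S ↔ z.1 = φ z.2)) ∧
      ∀ᶠ z in 𝓝 (x, w), z.1 ≠ x → z ∈ S → Tr z

variable {S : Set (ℂ × ℂ)} {Tr : ℂ × ℂ → Prop} {x₀ w₀ : ℂ} {r R : ℝ}

/-- the `x` over which all points are transversal -/
private def Om (S : Set (ℂ × ℂ)) (Tr : ℂ × ℂ → Prop) (x₀ w₀ : ℂ) (r R : ℝ) : Set ℂ :=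
  {x | x ∈ ball x₀ r ∧ x ≠ x₀ ∧ ∀ w ∈ closedBall w₀ R, (x, w) ∈ S → Tr (x, w)}

/-- the fibre of `S` -/
private def fbr (S : Set (ℂ × ℂ)) (w₀ : ℂ) (R : ℝ) (x : ℂ) : Set ℂ := {w | w ∈ closedBall w₀ R ∧ (x, w) ∈ S}

private theorem om_iso (L : Loc S Tr x₀ w₀ r R) {x₁ : ℂ} (hx : x₁ ∈ ball x₀ r) (hx0 : x₁ ≠ x₀) : ∀ᶠ x in 𝓝[≠] x₁, x ∈ Om S Tr x₀ w₀ r R := by
  have h1 : ∀ᶠ x in 𝓝 x₁, ∀ w ∈ closedBall w₀ R, x ≠ x₁ → (x, w) ∈ S → Tr (x, w) := by
    refine (isCompact_closedBall w₀ R).eventually_forall_of_forall_eventually (P := fun x w => x ≠ x₁ → (x, w) ∈ S → Tr (x, w)) fun w hw => ?_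
    by_cases hS : (x₁, w) ∈ S
    · by_cases hT : Tr (x₁, w)
      · obtain ⟨g, -, -, -, h⟩ := L.tr x₁ hx hx0 w hw hS hT
        filter_upwards [h] with z hz _
        exact hz
      · obtain ⟨φ, -, -, -, -, -, h⟩ := L.tan x₁ hx hx0 w hw hS hT
        filter_upwards [h] with z hz
        exact hz
    · filter_upwards [L.out x₁ hx hx0 w hw hS] with z hz _ hz'
      exact absurd hz' hz
  have h2 : ∀ᶠ x in 𝓝[≠] x₁, x ∈ ball x₀ r ∧ x ≠ x₀ :=
    nhdsWithin_le_nhds ((show ∀ᶠ x in 𝓝 x₁, x ∈ ball x₀ r from isOpen_ball.mem_nhds hx).and (show ∀ᶠ x in 𝓝 x₁, x ≠ x₀ from isOpen_ne.mem_nhds hx0))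
  filter_upwards [nhdsWithin_le_nhds h1, h2, self_mem_nhdsWithin] with x h3 h4 h5
  exact ⟨h4.1, h4.2, fun w hw => h3 w hw h5⟩

private theorem om_open (L : Loc S Tr x₀ w₀ r R) {x₁ : ℂ} (hx : x₁ ∈ Om S Tr x₀ w₀ r R) : ∀ᶠ x in 𝓝 x₁, x ∈ Om S Tr x₀ w₀ r R := by
  have h1 : ∀ᶠ x in 𝓝[≠] x₁, x ∈ Om S Tr x₀ w₀ r R := om_iso L hx.1 hx.2.1
  rw [eventually_nhdsWithin_iff] at h1
  filter_upwards [h1] with x h2
  by_cases h3 : x = x₁
  · rwa [h3]
  · exact h2 h3

private theorem fbr_finite (L : Loc S Tr x₀ w₀ r R) {x₁ : ℂ} (hx : x₁ ∈ Om S Tr x₀ w₀ r R) : (fbr S w₀ R x₁).Finite := by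
  by_contra hinf
  obtain ⟨w, hw, hacc⟩ := Set.Infinite.exists_accPt_of_subset_isCompact hinf (isCompact_closedBall w₀ R) (fun w hw => hw.1)
  rw [accPt_iff_frequently_nhdsNE] at hacc
  have ht : Tendsto (fun w' : ℂ => (x₁, w')) (𝓝 w) (𝓝 (x₁, w)) := by
    have : Continuous fun w' : ℂ => (x₁, w') := by fun_prop
    exact this.continuousAt
  refine hacc ?_
  by_cases hS : (x₁, w) ∈ S
  · obtain ⟨g, -, hg, h, -⟩ := L.tr x₁ hx.1 hx.2.1 w hw hS (hx.2.2 w hw hS)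
    filter_upwards [nhdsWithin_le_nhds (ht.eventually h), self_mem_nhdsWithin] with w' h1 h2 h3
    exact h2 ((h1.mp h3.2).trans hg)
  · filter_upwards [nhdsWithin_le_nhds (ht.eventually (L.out x₁ hx.1 hx.2.1 w hw hS))] with w' h1 h3
    exact h1 h3.2

open Classical in
/-- the discriminant, extended by `0` -/
private noncomputable def del (S : Set (ℂ × ℂ)) (Tr : ℂ × ℂ → Prop) (x₀ w₀ : ℂ) (r R : ℝ) (x : ℂ) : ℂ := if x ∈ Om S Tr x₀ w₀ r R then dlt (fbr S w₀ R x) else 0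

private theorem del_an (L : Loc S Tr x₀ w₀ r R) {x₁ : ℂ} (hx : x₁ ∈ Om S Tr x₀ w₀ r R) : AnalyticAt ℂ (del S Tr x₀ w₀ r R) x₁ := by
  classical
  set F := (fbr_finite L hx).toFinset with hF
  have hFm : ∀ w, w ∈ F ↔ w ∈ closedBall w₀ R ∧ (x₁, w) ∈ S := fun w => by
    rw [hF, Set.Finite.mem_toFinset]
    rfl
  have hex : ∀ w, w ∈ F → ∃ g : ℂ → ℂ, AnalyticAt ℂ g x₁ ∧ g x₁ = w ∧ (∀ᶠ z in 𝓝 (x₁, w), (z ∈ S ↔ z.2 = g z.1)) ∧ ∀ᶠ z in 𝓝 (x₁, w), z ∈ S → Tr z := fun w hw =>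
    L.tr x₁ hx.1 hx.2.1 w ((hFm w).mp hw).1 ((hFm w).mp hw).2 (hx.2.2 w ((hFm w).mp hw).1 ((hFm w).mp hw).2)
  choose! G hG using hex
  have e1 : ∀ᶠ x in 𝓝 x₁, ∀ w ∈ closedBall w₀ R, (x, w) ∈ S → ∃ w' ∈ F, w = G w' x := by
    refine (isCompact_closedBall w₀ R).eventually_forall_of_forall_eventually (P := fun x w => (x, w) ∈ S → ∃ w' ∈ F, w = G w' x) fun w hw => ?_
    by_cases hS : (x₁, w) ∈ S
    · have hwF := (hFm w).mpr ⟨hw, hS⟩
      filter_upwards [(hG w hwF).2.2.1] with z h1 h2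
      exact ⟨w, hwF, h1.mp h2⟩
    · filter_upwards [L.out x₁ hx.1 hx.2.1 w hw hS] with z hz hz'
      exact absurd hz' hz
  have e2 : ∀ᶠ x in 𝓝 x₁, ∀ w ∈ F, G w x ∈ closedBall w₀ R ∧ (x, G w x) ∈ S := by
    rw [Filter.eventually_all_finset]
    intro w hw
    have h1 := hG w hw
    have h2 : w ∈ ball w₀ R := by
      have h3 := ((hFm w).mp hw).1
      rw [mem_closedBall] at h3
      rw [mem_ball]
      refine lt_of_le_of_ne h3 fun h4 => L.circ x₁ hx.1 w (mem_sphere.mpr h4) ((hFm w).mp hw).2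
    have t1 : Tendsto (G w) (𝓝 x₁) (𝓝 w) := by
      have := h1.1.continuousAt.tendsto
      rwa [h1.2.1] at this
    have t2 : Tendsto (fun x => (x, G w x)) (𝓝 x₁) (𝓝 (x₁, w)) := by
      rw [nhds_prod_eq]
      exact tendsto_id.prodMk t1
    filter_upwards [t1.eventually (isOpen_ball.mem_nhds h2), t2.eventually h1.2.2.1] with x h3 h4
    exact ⟨ball_subset_closedBall h3, h4.mpr rfl⟩
  have e3 : ∀ᶠ x in 𝓝 x₁, ∀ w ∈ F, ∀ w' ∈ F, w ≠ w' → G w x ≠ G w' x := by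
    rw [Filter.eventually_all_finset]
    intro w hw
    rw [Filter.eventually_all_finset]
    intro w' hw'
    by_cases hne : w = w'
    · exact Filter.Eventually.of_forall fun x h => absurd hne h
    · have h1 : ContinuousAt (fun x => G w x - G w' x) x₁ := (hG w hw).1.continuousAt.sub (hG w' hw').1.continuousAt
      have h2 : G w x₁ - G w' x₁ ≠ 0 := by
        rw [(hG w hw).2.1, (hG w' hw').2.1]
        exact sub_ne_zero.mpr hne
      filter_upwards [h1.eventually_ne h2] with x h3 _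
      exact sub_ne_zero.mp h3
  have key : del S Tr x₀ w₀ r R =ᶠ[𝓝 x₁] fun x => ∏ p ∈ F.offDiag, (G p.1 x - G p.2 x) := by
    filter_upwards [e1, e2, e3, om_open L hx] with x h1 h2 h3 h4
    unfold del
    rw [if_pos h4]
    have h5 : fbr S w₀ R x = (fun w => G w x) '' F := by
      ext w
      constructor
      · rintro ⟨h6, h7⟩
        obtain ⟨w', h8, h9⟩ := h1 w h6 h7
        exact ⟨w', h8, h9.symm⟩
      · rintro ⟨w', h8, rfl⟩
        exact h2 w' h8
    rw [h5]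
    exact dlt_image (f := fun w => G w x) fun w hw w' hw' h => by
      by_contra hne
      exact h3 w hw w' hw' hne h
  refine AnalyticAt.congr ?_ key.symm
  refine Finset.analyticAt_fun_prod _ fun p hp => ?_
  rw [Finset.mem_offDiag] at hp
  exact (hG p.1 hp.1).1.sub (hG p.2 hp.2.1).1

private theorem fbr_sub {x : ℂ} : ∀ w ∈ fbr S w₀ R x, w ∈ closedBall w₀ R := fun _ hw => hw.1

private theorem del_le (L : Loc S Tr x₀ w₀ r R) (x : ℂ) : ‖del S Tr x₀ w₀ r R x‖ ≤ 1 := by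
  unfold del
  split_ifs
  · exact dlt_le_one L.R_le fbr_sub
  · simp

private theorem del_an' (L : Loc S Tr x₀ w₀ r R) {x₁ : ℂ} (hx : x₁ ∈ ball x₀ r) (hx0 : x₁ ≠ x₀) : AnalyticAt ℂ (del S Tr x₀ w₀ r R) x₁ := by
  classical
  by_cases hO : x₁ ∈ Om S Tr x₀ w₀ r R
  · exact del_an L hO
  · have h0 : del S Tr x₀ w₀ r R x₁ = 0 := by
      unfold del
      rw [if_neg hO]
    have h1 : ∃ w ∈ closedBall w₀ R, (x₁, w) ∈ S ∧ ¬ Tr (x₁, w) := by
      by_contra hcon
      push Not at hcon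
      exact hO ⟨hx, hx0, hcon⟩
    obtain ⟨w₁, hw₁, hS, hT⟩ := h1
    obtain ⟨φ, hφ, hφ1, hφd, hφc, hφS, -⟩ := L.tan x₁ hx hx0 w₁ hw₁ hS hT
    refine Complex.analyticAt_of_differentiable_on_punctured_nhds_of_continuousAt ?_ ?_
    · filter_upwards [om_iso L hx hx0] with x h2
      exact (del_an L h2).differentiableAt
    · rw [Metric.continuousAt_iff]
      intro ε hε
      have hwb : w₁ ∈ ball w₀ R := by
        rw [mem_closedBall] at hw₁
        rw [mem_ball]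
        exact lt_of_le_of_ne hw₁ fun h4 => L.circ x₁ hx w₁ (mem_sphere.mpr h4) hS
      obtain ⟨ρ, hρ, hρS⟩ := Metric.eventually_nhds_iff_ball.mp hφS
      obtain ⟨ρ', hρ', hρb⟩ := Metric.isOpen_iff.mp isOpen_ball w₁ hwb
      have hm : 0 < min (min ρ ρ') (ε / 2) := lt_min (lt_min hρ hρ') (by positivity)
      have h2 : ∀ᶠ x in 𝓝[≠] x₁, dist (del S Tr x₀ w₀ r R x) 0 < ε := by
        filter_upwards [two_preimages hφ hφ1 hφd hφc hm, nhdsWithin_le_nhds (ball_mem_nhds x₁ hρ)] with x ⟨w, w', hne, hw, hw', hφw, hφw'⟩ hxρ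
        rw [dist_zero_right]
        unfold del
        split_ifs with h3
        · have h4 : ∀ v : ℂ, v ∈ ball w₁ (min (min ρ ρ') (ε / 2)) → φ v = x → v ∈ fbr S w₀ R x := by
            intro v hv hv1
            refine ⟨ball_subset_closedBall (hρb (ball_subset_ball ((min_le_left _ _).trans (min_le_right _ _)) hv)), ?_⟩
            refine (hρS (x, v) ?_).mpr hv1.symm
            rw [← ball_prod_same]
            exact ⟨hxρ, ball_subset_ball ((min_le_left _ _).trans (min_le_left _ _)) hv⟩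
          refine (dlt_le L.R_le fbr_sub (h4 w hw hφw) (h4 w' hw' hφw') hne).trans_lt ?_
          have h5 : dist w w₁ < ε / 2 := (mem_ball.mp hw).trans_le (min_le_right _ _)
          have h6 : dist w' w₁ < ε / 2 := (mem_ball.mp hw').trans_le (min_le_right _ _)
          rw [← dist_eq_norm]
          calc dist w w' ≤ dist w w₁ + dist w' w₁ := dist_triangle_right _ _ _
            _ < ε := by linarith
        · simpa using hε
      rw [eventually_nhdsWithin_iff, Metric.eventually_nhds_iff] at h2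
      obtain ⟨δ, hδ, h3⟩ := h2
      refine ⟨δ, hδ, fun {x} hx1 => ?_⟩
      rw [h0]
      by_cases hxx : x = x₁
      · rw [hxx, h0, dist_self]
        exact hε
      · exact h3 hx1 hxx

private theorem iso_of_loc (L : Loc S Tr x₀ w₀ r R) : ∀ᶠ x in 𝓝[≠] x₀, x ∈ Om S Tr x₀ w₀ r R := by
  classical
  have hF : AnalyticAt ℂ (fun x => (x - x₀) * del S Tr x₀ w₀ r R x) x₀ := by
    refine Complex.analyticAt_of_differentiable_on_punctured_nhds_of_continuousAt ?_ ?_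
    · filter_upwards [nhdsWithin_le_nhds (ball_mem_nhds x₀ L.r_pos), self_mem_nhdsWithin] with x h1 h2
      exact (differentiableAt_id.sub_const x₀).mul (del_an' L h1 h2).differentiableAt
    · rw [Metric.continuousAt_iff]
      intro ε hε
      refine ⟨ε, hε, fun {x} hx => ?_⟩
      rw [sub_self, zero_mul, dist_zero_right, norm_mul]
      calc ‖x - x₀‖ * ‖del S Tr x₀ w₀ r R x‖ ≤ ‖x - x₀‖ * 1 := mul_le_mul_of_nonneg_left (del_le L x) (norm_nonneg _)
        _ < ε := by rwa [mul_one, ← dist_eq_norm]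
  rcases hF.eventually_eq_zero_or_eventually_ne_zero with h | h
  · exfalso
    obtain ⟨δ, hδ, h1⟩ := Metric.eventually_nhds_iff_ball.mp (h.and (ball_mem_nhds x₀ L.r_pos))
    have h2 : x₀ + ((δ / 2 : ℝ) : ℂ) ∈ ball x₀ δ := by
      rw [mem_ball, dist_eq_norm, add_sub_cancel_left, Complex.norm_real, Real.norm_eq_abs, abs_of_pos (by positivity)]
      linarith
    have h3 : x₀ + ((δ / 2 : ℝ) : ℂ) ≠ x₀ := by
      intro h4
      have h5 : ((δ / 2 : ℝ) : ℂ) = 0 := by simpa using h4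
      have h6 : (δ / 2 : ℝ) = 0 := by exact_mod_cast h5
      linarith
    set x₁ := x₀ + ((δ / 2 : ℝ) : ℂ)
    have h4 : ∀ᶠ x in 𝓝[≠] x₁, x ∈ Om S Tr x₀ w₀ r R ∧ x ∈ ball x₀ δ :=
      (om_iso L (h1 x₁ h2).2 h3).and (nhdsWithin_le_nhds (isOpen_ball.mem_nhds h2))
    obtain ⟨x, hx1, hx2⟩ := h4.exists
    have h5 := (h1 x hx2).1
    have h6 : del S Tr x₀ w₀ r R x ≠ 0 := by
      unfold del
      rw [if_pos hx1]
      exact dlt_ne (fbr_finite L hx1)
    exact (mul_ne_zero (sub_ne_zero.mpr hx1.2.1) h6) h5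
  · filter_upwards [h] with x hx
    by_contra hO
    refine hx ?_
    unfold del
    rw [if_neg hO, mul_zero]

/-- a function whose derivative is zero near a point is constant near this point -/
private theorem const_of_deriv {φ : ℂ → ℂ} {w : ℂ} (hφ : AnalyticAt ℂ φ w) (h : ∀ᶠ w' in 𝓝 w, deriv φ w' = 0) : ∀ᶠ w' in 𝓝 w, φ w' = φ w := by
  obtain ⟨δ, hδ, h1⟩ := Metric.eventually_nhds_iff_ball.mp (h.and hφ.eventually_analyticAt)
  filter_upwards [ball_mem_nhds w hδ] with w' hw'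
  exact isOpen_ball.is_const_of_deriv_eq_zero (convex_ball w δ).isPreconnected (fun y hy => (h1 y hy).2.differentiableAt.differentiableWithinAt) (fun y hy => (h1 y hy).1)
    hw' (mem_ball_self hδ)

theorem tan_local {D : Set (Vd (1 + 1))} {q₀ a : Vd (1 + 1)} (ha : a ≠ 0) (hD : ∃ (m : ℕ) (h : Vd (1 + 1) → Fin m → ℂ), AnalyticAt ℂ h q₀ ∧ ∀ᶠ z in 𝓝 q₀, (z ∈ D ↔ h z = 0))
    (hco : ∀ᶠ q in 𝓝[≠] q₀, q ∈ D → ∃ κ : Vd (1 + 1) → Vd (1 + 1), IsCoord D κ q) (hline : ∀ᶠ z in 𝓝[≠] (0 : ℂ), q₀ + z • a ∉ D) :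
    ∀ᶠ q in 𝓝[≠] q₀, q ∈ D → TransAt D q a := by
  obtain ⟨ξ, ω, e, hξa, hωa, hξe, hωe, hq⟩ := exists_coords ha
  obtain ⟨m, h, hh, hDh⟩ := hD
  rw [eventually_nhdsWithin_iff] at hco
  obtain ⟨ρ, hρ, hb⟩ := Metric.eventually_nhds_iff_ball.mp (hh.eventually_analyticAt.and (hDh.and hco))
  rw [eventually_nhdsWithin_iff] at hline
  obtain ⟨ρ₁, hρ₁, hb₁⟩ := Metric.eventually_nhds_iff_ball.mp hline
  set P : ℂ × ℂ → Vd (1 + 1) := fun z => z.1 • e + z.2 • a with hPdef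
  have hPc : Continuous P := by
    rw [hPdef]
    fun_prop
  have hPξ : ∀ z, ξ (P z) = z.1 := fun z => by
    show ξ (z.1 • e + z.2 • a) = z.1
    rw [map_add, map_smul, map_smul, hξe, hξa, smul_eq_mul, smul_eq_mul, mul_one, mul_zero, add_zero]
  have hPω : ∀ z, ω (P z) = z.2 := fun z => by
    show ω (z.1 • e + z.2 • a) = z.2
    rw [map_add, map_smul, map_smul, hωe, hωa, smul_eq_mul, smul_eq_mul, mul_one, mul_zero, zero_add]
  have hPq : ∀ q, P (ξ q, ω q) = q := hq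
  set x₀ := ξ q₀ with hx₀
  set w₀ := ω q₀ with hw₀
  obtain ⟨ρ₂, hρ₂, hb₂⟩ : ∃ ρ₂ > 0, ∀ z : ℂ × ℂ, dist z.1 x₀ < ρ₂ → dist z.2 w₀ < ρ₂ → P z ∈ ball q₀ ρ := by
    have h1 : ∀ᶠ z in 𝓝 (x₀, w₀), P z ∈ ball q₀ ρ := by
      refine hPc.continuousAt.eventually (isOpen_ball.mem_nhds ?_)
      rw [hPq]
      exact mem_ball_self hρ
    obtain ⟨ρ₂, hρ₂, h2⟩ := Metric.eventually_nhds_iff_ball.mp h1
    refine ⟨ρ₂, hρ₂, fun z h3 h4 => h2 z ?_⟩
    rw [← ball_prod_same]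
    exact ⟨h3, h4⟩
  obtain ⟨R, hR0, hR1, hR2, hR3⟩ : ∃ R : ℝ, 0 < R ∧ 2 * R ≤ 1 ∧ R < ρ₁ ∧ 2 * R < ρ₂ := by
    refine ⟨min (1 / 2) (min (ρ₁ / 2) (ρ₂ / 4)), by positivity, ?_, ?_, ?_⟩
    · have := min_le_left (1 / 2 : ℝ) (min (ρ₁ / 2) (ρ₂ / 4))
      linarith
    · have := (min_le_right (1 / 2 : ℝ) (min (ρ₁ / 2) (ρ₂ / 4))).trans (min_le_left _ _)
      linarith
    · have := (min_le_right (1 / 2 : ℝ) (min (ρ₁ / 2) (ρ₂ / 4))).trans (min_le_right _ _)
      linarith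
  -- `D` is closed near `q₀`
  have hcl : ∀ z : ℂ × ℂ, P z ∈ ball q₀ ρ → P z ∉ D → ∀ᶠ z' in 𝓝 z, P z' ∉ D := by
    intro z h1 h2
    have h3 : h (P z) ≠ 0 := fun h3 => h2 ((hb _ h1).2.1.mpr h3)
    have h4 : ContinuousAt (fun z' => h (P z')) z := ContinuousAt.comp' (hb _ h1).1.continuousAt hPc.continuousAt
    filter_upwards [h4.eventually_ne h3, hPc.continuousAt.eventually (isOpen_ball.mem_nhds h1)] with z' h5 h6 h7
    exact h5 ((hb _ h6).2.1.mp h7)
  have hcirc : ∀ᶠ x in 𝓝 x₀, ∀ w ∈ sphere w₀ R, P (x, w) ∉ D := by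
    refine (isCompact_sphere w₀ R).eventually_forall_of_forall_eventually (P := fun x w => P (x, w) ∉ D) fun w hw => ?_
    refine hcl (x₀, w) (hb₂ _ (by rw [dist_self]; exact hρ₂) (by rw [mem_sphere.mp hw]; linarith)) ?_
    have h1 : P (x₀, w) = q₀ + (w - w₀) • a := by
      have h2 := hPq q₀
      show x₀ • e + w • a = q₀ + (w - w₀) • a
      rw [← h2]
      show x₀ • e + w • a = (x₀ • e + w₀ • a) + (w - w₀) • a
      rw [sub_smul]
      abel
    rw [h1]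
    refine hb₁ (w - w₀) ?_ ?_
    · rw [mem_ball_zero_iff, ← dist_eq_norm, mem_sphere.mp hw]
      exact hR2
    · intro h2
      have h3 : w = w₀ := sub_eq_zero.mp h2
      rw [mem_sphere, h3, dist_self] at hw
      linarith
  obtain ⟨r', hr', hcirc'⟩ := Metric.eventually_nhds_iff_ball.mp hcirc
  have L : Loc {z | P z ∈ D} (fun z => TransAt D (P z) a) x₀ w₀ (min r' ρ₂) R := by
    have hin : ∀ x ∈ ball x₀ (min r' ρ₂), ∀ w ∈ closedBall w₀ R, P (x, w) ∈ ball q₀ ρ := fun x hx w hw =>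
      hb₂ _ ((mem_ball.mp hx).trans_le (min_le_right _ _)) ((mem_closedBall.mp hw).trans_lt (by linarith))
    have hne : ∀ x, x ≠ x₀ → ∀ w, P (x, w) ≠ q₀ := fun x hx w h1 => hx (by
      have h2 := hPξ (x, w)
      rw [h1] at h2
      exact h2.symm)
    refine ⟨hR0, hR1, lt_min hr' hρ₂, fun x hx w hw => hcirc' x (ball_subset_ball (min_le_left _ _) hx) w hw, ?_, ?_, ?_⟩
    · intro x hx hx0 w hw hS
      exact hcl (x, w) (hin x hx w hw) hS
    · intro x hx hx0 w hw hS hT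
      obtain ⟨g, hg, hg1, hgD⟩ := local_trans (ξ := ξ) (ω := ω) hq ((hb _ (hin x hx w hw)).2.2 (hne x hx0 w) hS) hT
      rw [hPξ] at hg hg1
      rw [hPω] at hg1
      refine ⟨g, hg, hg1, ?_, ?_⟩
      · filter_upwards [hPc.continuousAt.eventually hgD] with z hz
        rw [hPξ, hPω] at hz
        exact hz
      · have t1 : Tendsto Prod.fst (𝓝 (x, w)) (𝓝 x) := continuous_fst.continuousAt
        filter_upwards [hPc.continuousAt.eventually hgD.eventually_nhds, t1.eventually hg.eventually_analyticAt] with z h1 h2 _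
        refine trans_of (F := fun q => ω q - g (ξ q)) (F' := ω - deriv g z.1 • ξ) ha ?_ ?_ ?_
        · refine ω.hasFDerivAt.sub (HasDerivAt.comp_hasFDerivAt (P z) ?_ ξ.hasFDerivAt)
          rw [hPξ]
          exact h2.differentiableAt.hasDerivAt
        · filter_upwards [h1] with q h3 h4
          rw [h3.mp h4, sub_self]
        · simp [hξa, hωa]
    · intro x hx hx0 w hw hS hT
      obtain ⟨φ, hφ, hφ1, hφd, hφD⟩ := local_tan (ξ := ξ) (ω := ω) ha hξa hωa hq hT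
      rw [hPω] at hφ hφ1 hφd
      rw [hPξ] at hφ1
      have hiff : ∀ᶠ z in 𝓝 (x, w), (z ∈ {z | P z ∈ D} ↔ z.1 = φ z.2) := by
        filter_upwards [hPc.continuousAt.eventually hφD] with z hz
        rw [hPξ, hPω] at hz
        exact hz
      have hnc : ¬ ∀ᶠ w' in 𝓝 w, φ w' = x := by
        intro hcon
        have t1 : Tendsto (fun w' : ℂ => (x, w')) (𝓝 w) (𝓝 (x, w)) := by
          have : Continuous fun w' : ℂ => (x, w') := by fun_prop
          exact this.continuousAt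
        have hH : AnalyticOnNhd ℂ (fun w' => h (P (x, w'))) (ball w₀ (2 * R)) := by
          intro w' hw'
          have h1 : P (x, w') ∈ ball q₀ ρ := hb₂ _ ((mem_ball.mp hx).trans_le (min_le_right _ _)) ((mem_ball.mp hw').trans hR3)
          have h2 : AnalyticAt ℂ (fun w' : ℂ => P (x, w')) w' := by
            show AnalyticAt ℂ (fun w' : ℂ => x • e + w' • a) w'
            exact analyticAt_const.add (analyticAt_id.smul analyticAt_const)
          exact AnalyticAt.fun_comp (hb _ h1).1 h2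
        have h3 : (fun w' => h (P (x, w'))) =ᶠ[𝓝 w] 0 := by
          have t2 : Tendsto (fun w' : ℂ => P (x, w')) (𝓝 w) (𝓝 (P (x, w))) := hPc.continuousAt.tendsto.comp t1
          filter_upwards [t1.eventually hiff, hcon, t2.eventually (isOpen_ball.mem_nhds (hin x hx w hw))] with w' h4 h5 h6
          exact (hb _ h6).2.1.mp (h4.mpr h5.symm)
        have h4 := hH.eqOn_zero_of_preconnected_of_eventuallyEq_zero (convex_ball w₀ (2 * R)).isPreconnected
          (mem_ball.mpr ((mem_closedBall.mp hw).trans_lt (by linarith))) h3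
        have h5 : w₀ + (R : ℂ) ∈ sphere w₀ R := by
          rw [mem_sphere, dist_eq_norm, add_sub_cancel_left, Complex.norm_real, Real.norm_eq_abs, abs_of_pos hR0]
        refine hcirc' x (ball_subset_ball (min_le_left _ _) hx) _ h5 ((hb _ (hin x hx _ (sphere_subset_closedBall h5))).2.1.mpr ?_)
        refine h4 (mem_ball.mpr ?_)
        rw [mem_sphere.mp h5]
        linarith
      refine ⟨φ, hφ, hφ1, hφd, hnc, hiff, ?_⟩
      have hd : ∀ᶠ w' in 𝓝[≠] w, deriv φ w' ≠ 0 := by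
        rcases hφ.deriv.eventually_eq_zero_or_eventually_ne_zero with h1 | h1
        · refine absurd ?_ hnc
          filter_upwards [const_of_deriv hφ h1] with w' h2
          rw [h2, hφ1]
        · exact h1
      rw [eventually_nhdsWithin_iff] at hd
      have t1 : Tendsto Prod.snd (𝓝 (x, w)) (𝓝 w) := continuous_snd.continuousAt
      filter_upwards [hPc.continuousAt.eventually hφD.eventually_nhds, t1.eventually hφ.eventually_analyticAt, t1.eventually hd, hiff] with z h1 h2 h3 h4 h5 h6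
      have h7 : deriv φ z.2 ≠ 0 := h3 fun h8 => h5 (by
        have h9 : z.2 = w := h8
        rw [h4.mp h6, h9, hφ1])
      refine trans_of (F := fun q => ξ q - φ (ω q)) (F' := ξ - deriv φ z.2 • ω) ha ?_ ?_ ?_
      · refine ξ.hasFDerivAt.sub (HasDerivAt.comp_hasFDerivAt (P z) ?_ ω.hasFDerivAt)
        rw [hPω]
        exact h2.differentiableAt.hasDerivAt
      · filter_upwards [h1] with q h8 h9
        rw [h8.mp h9, sub_self]
      · simpa [hξa, hωa] using h7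
  have hfin := iso_of_loc L
  rw [eventually_nhdsWithin_iff] at hfin ⊢
  have t1 : Tendsto (fun q : Vd (1 + 1) => ξ q) (𝓝 q₀) (𝓝 x₀) := ξ.continuous.continuousAt
  have t2 : Tendsto (fun q : Vd (1 + 1) => ω q) (𝓝 q₀) (𝓝 w₀) := ω.continuous.continuousAt
  filter_upwards [t1.eventually hfin, t2.eventually (ball_mem_nhds w₀ hR0)] with q h1 h2 h3 h4
  by_cases h5 : ξ q = x₀
  · exfalso
    have h6 : q = q₀ + (ω q - w₀) • a := by
      calc q = ξ q • e + ω q • a := (hq q).symm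
        _ = (x₀ • e + w₀ • a) + (ω q - w₀) • a := by
          rw [h5, sub_smul]
          abel
        _ = q₀ + (ω q - w₀) • a := by rw [hq q₀]
    refine hb₁ (ω q - w₀) ?_ ?_ (by rwa [← h6])
    · rw [mem_ball_zero_iff, ← dist_eq_norm]
      exact (mem_ball.mp h2).trans hR2
    · intro h7
      refine h3 ?_
      rw [h6, show ω q - w₀ = 0 from h7, zero_smul, add_zero]
      rfl
  · have h6 := (h1 h5).2.2 (ω q) (ball_subset_closedBall h2)
    have h7 : P (ξ q, ω q) = q := hPq q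
    have h8 : P (ξ q, ω q) ∈ D → TransAt D (P (ξ q, ω q)) a := h6
    rw [h7] at h8
    exact h8 h4

end Pool.Agent.G3.A

end

section

/-!
# G3 X LnC: coordinates in which the line is `{q_1 = .. = q_k = 0}`

`κ₀` from `G.nc p`.  `ψ₀` a local inverse of `κ₀` at `p`, `c z = ψ₀ (p + z • e)`, `ξ₀ z = c z 0`: `deriv ξ₀ 0 ≠ 0` by `TransAt` (see `hcne` in `TG/Y/LnE.lean`), `θ₀` a local inverse of `ξ₀` at `0`, `h w j = c (θ₀ w) j.succ` (analytic at `0`, `h 0 = 0`; outside of the region where it is analytic its values do not matter).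
`shear h q = cons (q 0) (fun j => q j.succ + h (q 0) j)`, `κ = κ₀ ∘ shear h`: near `0` `κ (cons (ξ₀ z) 0) = κ₀ (cons (ξ₀ z) (h (ξ₀ z))) = κ₀ (c z) = p + z • e`.
`isCoord_shear`: `shear h` is analytic at `0`, `shear h 0 = 0`, its derivative at `0` is injective (`v 0` and then the rest), `(shear h q) 0 = q 0`.
`isNC_shear`: let `σ, τ, a, b` be from `IsNC X Λ u κ₀ x`; `sh q = cons (q 0) (cons (q 1) (fun j => q j.succ.succ + h (q 0 ^ a * q 1 ^ b) j))`, inverse `sh'` with `- h`: `σ' = σ ∘ sh`, `τ' = sh' ∘ τ`: `u (σ' q) - κ₀ (nm a b (sh q)) ∈ Λ` and `nm a b (sh q) = shear h (nm a b q)`.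
-/

set_option autoImplicit false

open Topology Filter Metric

namespace Pool.Agent.GX

open Pool.Agent.H36.BP (EN fs wd)
open Pool.Agent.H14.PP (IsCone CurveAt Tan)
open Pool.Agent.H62.EF (MN pr)
open Pool.Agent.AD (Vd Chart Charts IsGerm)
open Pool.Agent.TG (TMap Lat tl nm IsStr IsNC IsCoord Geo VForm ms Str IsPrim Cap IRel II TransAt Gd Cst DV tc)

variable {N k : ℕ}

variable {X : Set (EN N)} {Λ : AddSubgroup (Vd (k + 1))} {u : EN N → Vd (k + 1)} {D B : Set (Vd (k + 1))}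
  {κ ψ : Vd (k + 1) → Vd (k + 1)} {R : ℝ} {g : ℂ → Fin k → ℂ} {Γ₀ : AddSubgroup ℂ} {s : ℝ}

/-- the shear with the graph of `h` -/
def shear (h : ℂ → Fin k → ℂ) (q : Vd (k + 1)) : Vd (k + 1) := Fin.cons (α := fun _ => ℂ) (q 0) fun j => q j.succ + h (q 0) j

private theorem an_proj {d : ℕ} (i : Fin d) (x : Vd d) : AnalyticAt ℂ (fun q : Vd d => q i) x :=
  (ContinuousLinearMap.proj (R := ℂ) (φ := fun _ : Fin d => ℂ) i).analyticAt x

private theorem an_cons {d : ℕ} {E : Type*} [NormedAddCommGroup E] [NormedSpace ℂ E] {f : E → ℂ} {g : E → Fin d → ℂ} {x : E} (hf : AnalyticAt ℂ f x)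
    (hg : ∀ j, AnalyticAt ℂ (fun q => g q j) x) : AnalyticAt ℂ (fun q => (Fin.cons (α := fun _ => ℂ) (f q) (g q) : Vd (d + 1))) x := by
  refine analyticAt_pi_iff.2 fun i => ?_
  refine Fin.cases ?_ (fun j => ?_) i
  · exact hf
  · exact hg j

private theorem fderiv_inj {d : ℕ} {S S' : Vd d → Vd d} (hS : AnalyticAt ℂ S 0) (hS' : AnalyticAt ℂ S' 0) (S0 : S 0 = 0)
    (h2 : ∀ q, S' (S q) = q) : Function.Injective (fderiv ℂ S 0) := by
  have h3 : HasFDerivAt (fun q => S' (S q)) ((fderiv ℂ S' 0).comp (fderiv ℂ S 0)) 0 := by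
    have h4 : HasFDerivAt S' (fderiv ℂ S' 0) (S 0) := by
      rw [S0]
      exact hS'.differentiableAt.hasFDerivAt
    exact h4.comp 0 hS.differentiableAt.hasFDerivAt
  have h5 : HasFDerivAt (fun q => S' (S q)) (ContinuousLinearMap.id ℂ (Vd d)) 0 := by
    have h6 : (fun q => S' (S q)) = fun q => q := funext h2
    rw [h6]
    exact hasFDerivAt_id (𝕜 := ℂ) (0 : Vd d)
  have h7 := h3.unique h5
  intro v w hvw
  have h8 := congrArg (fun L : Vd d →L[ℂ] Vd d => L v) h7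
  have h9 := congrArg (fun L : Vd d →L[ℂ] Vd d => L w) h7
  simp only [ContinuousLinearMap.comp_apply, ContinuousLinearMap.id_apply] at h8 h9
  rw [← h8, ← h9, hvw]

private theorem germ_comp {d : ℕ} {σ : Vd d → EN N} {τ : EN N → Vd d} (h : IsGerm X σ τ) {S S' : Vd d → Vd d} (hS : AnalyticAt ℂ S 0)
    (hS' : AnalyticAt ℂ S' 0) (S0 : S 0 = 0) (h1 : ∀ q, S (S' q) = q) (h2 : ∀ q, S' (S q) = q) :
    IsGerm X (fun q => σ (S q)) (fun y => S' (τ y)) := by
  have t : Tendsto S (𝓝 0) (𝓝 0) := by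
    have := hS.continuousAt.tendsto
    rwa [S0] at this
  have hτ : τ (σ 0) = 0 := h.left.self_of_nhds
  refine ⟨?_, t.eventually h.σ_mem, ?_, ?_, ?_, ?_⟩
  · refine AnalyticAt.fun_comp (g := σ) (f := S) ?_ hS
    rw [S0]
    exact h.σ_an
  · rw [S0]
    refine AnalyticAt.fun_comp (g := S') (f := τ) ?_ h.τ_an
    rw [hτ]
    exact hS'
  · filter_upwards [t.eventually h.left] with q hq
    rw [hq, h2]
  · rw [S0]
    filter_upwards [h.right] with y hy hyX
    rw [h1]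
    exact hy hyX
  · rw [S0]
    filter_upwards [h.inv] with z hz
    rw [hz]

private theorem shear_shear (h : ℂ → Fin k → ℂ) (q : Vd (k + 1)) : shear (fun w => -h w) (shear h q) = q := by
  funext i
  refine Fin.cases rfl (fun j => ?_) i
  show q j.succ + h (q 0) j + -h (q 0) j = q j.succ
  ring

private theorem shear_zero {h : ℂ → Fin k → ℂ} (h0 : h 0 = 0) : shear h 0 = 0 := by
  funext i
  refine Fin.cases rfl (fun j => ?_) i
  show (0 : ℂ) + h 0 j = 0
  rw [h0, zero_add, Pi.zero_apply]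

private theorem shear_an {h : ℂ → Fin k → ℂ} (hh : AnalyticAt ℂ h 0) : AnalyticAt ℂ (shear h) 0 := by
  refine an_cons (an_proj 0 0) fun j => ?_
  refine (an_proj j.succ 0).add ?_
  exact AnalyticAt.fun_comp (g := fun w => h w j) (f := fun q : Vd (k + 1) => q 0) (analyticAt_pi_iff.1 hh j) (an_proj 0 0)

theorem isCoord_shear {p : Vd (k + 1)} (hκ : IsCoord D κ p) {h : ℂ → Fin k → ℂ} (hh : AnalyticAt ℂ h 0) (h0 : h 0 = 0) :
    IsCoord D (fun q => κ (shear h q)) p := by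
  have t : Tendsto (shear h) (𝓝 0) (𝓝 0) := by
    have := (shear_an hh).continuousAt.tendsto
    rwa [shear_zero h0] at this
  refine ⟨?_, ?_, ?_, ?_⟩
  · refine AnalyticAt.fun_comp (g := κ) (f := shear h) ?_ (shear_an hh)
    rw [shear_zero h0]
    exact hκ.an
  · rw [shear_zero h0, hκ.zero]
  · have h1 : HasFDerivAt (fun q => κ (shear h q)) ((fderiv ℂ κ 0).comp (fderiv ℂ (shear h) 0)) 0 := by
      have h2 : HasFDerivAt κ (fderiv ℂ κ 0) (shear h 0) := by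
        rw [shear_zero h0]
        exact hκ.an.differentiableAt.hasFDerivAt
      exact h2.comp 0 (shear_an hh).differentiableAt.hasFDerivAt
    rw [h1.fderiv]
    intro v w hvw
    exact fderiv_inj (shear_an hh) (shear_an hh.neg) (shear_zero h0) (shear_shear h) (hκ.inj hvw)
  · filter_upwards [t.eventually hκ.mem_iff] with q hq
    exact hq

/-- the shear upstairs -/
private def shN (h : ℂ → Fin k → ℂ) (a b : ℕ) (q : Vd (k + 2)) : Vd (k + 2) :=
  Fin.cons (α := fun _ => ℂ) (q 0) (Fin.cons (α := fun _ => ℂ) (q 1) fun j => q j.succ.succ + h (q 0 ^ a * q 1 ^ b) j)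

private theorem shN_shN (h : ℂ → Fin k → ℂ) (a b : ℕ) (q : Vd (k + 2)) : shN (fun w => -h w) a b (shN h a b q) = q := by
  funext i
  refine Fin.cases rfl (fun i => ?_) i
  refine Fin.cases rfl (fun j => ?_) i
  show q j.succ.succ + h (q 0 ^ a * q 1 ^ b) j + -h (q 0 ^ a * q 1 ^ b) j = q j.succ.succ
  ring

private theorem pow_ab {a b : ℕ} (hab : 0 < a + b) : (0 : ℂ) ^ a * 0 ^ b = 0 := by
  rw [← pow_add, zero_pow hab.ne']

private theorem shN_zero {h : ℂ → Fin k → ℂ} {a b : ℕ} (hab : 0 < a + b) (h0 : h 0 = 0) : shN h a b 0 = 0 := by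
  funext i
  refine Fin.cases rfl (fun i => ?_) i
  refine Fin.cases rfl (fun j => ?_) i
  show (0 : ℂ) + h ((0 : ℂ) ^ a * 0 ^ b) j = 0
  rw [pow_ab hab, h0, zero_add, Pi.zero_apply]

private theorem shN_an {h : ℂ → Fin k → ℂ} {a b : ℕ} (hab : 0 < a + b) (hh : AnalyticAt ℂ h 0) : AnalyticAt ℂ (shN h a b) 0 := by
  refine an_cons (an_proj 0 0) fun i => ?_
  refine Fin.cases ?_ (fun j => ?_) i
  · exact an_proj 1 0
  · refine (an_proj j.succ.succ 0).add ?_
    refine AnalyticAt.fun_comp (g := fun w => h w j) (f := fun q : Vd (k + 2) => q 0 ^ a * q 1 ^ b) ?_ (((an_proj 0 0).pow a).mul ((an_proj 1 0).pow b))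
    have e : (0 : Vd (k + 2)) 0 ^ a * (0 : Vd (k + 2)) 1 ^ b = 0 := pow_ab hab
    rw [e]
    exact analyticAt_pi_iff.1 hh j

theorem isNC_shear {x : EN N} (hx : IsNC X Λ u κ x) {h : ℂ → Fin k → ℂ} (hh : AnalyticAt ℂ h 0) (h0 : h 0 = 0) :
    IsNC X Λ u (fun q => κ (shear h q)) x := by
  obtain ⟨σ, τ, a, b, hg, hσ, hab, hl⟩ := hx
  have h0' : (fun w => -h w) 0 = 0 := by
    show -h 0 = 0
    rw [h0, neg_zero]
  have n1 : ∀ q, shN (fun w => -h w) a b (shN h a b q) = q := shN_shN h a b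
  have n2 : ∀ q, shN h a b (shN (fun w => -h w) a b q) = q := fun q => by
    have := shN_shN (fun w => -h w) a b q
    simpa only [neg_neg] using this
  have hS := shN_an (a := a) (b := b) hab hh
  have hS' := shN_an (a := a) (b := b) (h := fun w => -h w) hab hh.neg
  have t : Tendsto (shN h a b) (𝓝 0) (𝓝 0) := by
    have := hS.continuousAt.tendsto
    rwa [shN_zero hab h0] at this
  refine ⟨fun q => σ (shN h a b q), fun y => shN (fun w => -h w) a b (τ y), a, b, germ_comp hg hS hS' (shN_zero hab h0) n2 n1, ?_, hab, ?_⟩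
  · show σ (shN h a b 0) = x
    rw [shN_zero hab h0, hσ]
  · filter_upwards [t.eventually hl] with q hq
    exact hq

theorem exists_line_coord (G : Geo X Λ u D B) {p e : Vd (k + 1)} (hp : p ∈ D) (hpB : p ∉ B) (ht : TransAt D p e) :
    ∃ (κ : Vd (k + 1) → Vd (k + 1)) (ξ₀ : ℂ → ℂ), IsCoord D κ p ∧ (∀ x ∈ X, u x - p ∈ Λ → IsNC X Λ u κ x) ∧ AnalyticAt ℂ ξ₀ 0 ∧ ξ₀ 0 = 0 ∧
      deriv ξ₀ 0 ≠ 0 ∧ ∀ᶠ z in 𝓝 (0 : ℂ), κ (Fin.cons (α := fun _ => ℂ) (ξ₀ z) 0) = p + z • e := by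
  obtain ⟨κ, hκ, hnc⟩ := G.nc p hp hpB
  obtain ⟨he, htr⟩ := ht
  obtain ⟨ψ, hψ, hψκ, hκψ, hψ0⟩ := Pool.Agent.H62.BU.local_inverse hκ.an (fun v hv => hκ.inj (by rw [hv, map_zero]))
  rw [hκ.zero] at hψ hκψ hψ0
  set c : ℂ → Vd (k + 1) := fun z => ψ (p + z • e) with hcdef
  have hline : ∀ z : ℂ, HasDerivAt (fun z : ℂ => p + z • e) e z := by
    intro z
    have h4 : HasDerivAt (fun z : ℂ => z • e) ((1 : ℂ) • e) z := (hasDerivAt_id z).smul_const e
    rw [one_smul] at h4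
    exact h4.const_add p
  have hlan : ∀ z : ℂ, AnalyticAt ℂ (fun z : ℂ => p + z • e) z := fun z =>
    analyticAt_const.add (AnalyticAt.fun_smul analyticAt_id analyticAt_const)
  have hl0 : p + (0 : ℂ) • e = p := by simp
  have hlt : Tendsto (fun z : ℂ => p + z • e) (𝓝 0) (𝓝 p) := by
    have h1 := (hlan 0).continuousAt.tendsto
    rwa [hl0] at h1
  have hc0 : c 0 = 0 := by
    show ψ (p + (0 : ℂ) • e) = 0
    rw [hl0, hψ0]
  have hcan : AnalyticAt ℂ c 0 := AnalyticAt.fun_comp (g := ψ) (f := fun z : ℂ => p + z • e) (by rw [hl0]; exact hψ) (hlan 0)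
  have hκc : ∀ᶠ z in 𝓝 (0 : ℂ), κ (c z) = p + z • e := hlt.eventually hκψ
  have hκan0 : AnalyticAt ℂ κ (c 0) := by rw [hc0]; exact hκ.an
  have hcd : fderiv ℂ κ 0 (deriv c 0) = e := by
    have h1 : HasDerivAt (fun z => κ (c z)) (fderiv ℂ κ (c 0) (deriv c 0)) 0 :=
      hκan0.differentiableAt.hasFDerivAt.comp_hasDerivAt (0 : ℂ) hcan.differentiableAt.hasDerivAt
    rw [hc0] at h1
    exact h1.unique ((hline 0).congr_of_eventuallyEq hκc)
  have hcne : (deriv c 0) 0 ≠ 0 := fun h => htr κ hκ _ h hcd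
  -- the first coordinate
  have hξan : AnalyticAt ℂ (fun z => c z 0) 0 := analyticAt_pi_iff.1 hcan 0
  have hξd : HasDerivAt (fun z => c z 0) (deriv c 0 0) 0 := hasDerivAt_pi.1 hcan.differentiableAt.hasDerivAt 0
  have hξ0 : (fun z => c z 0) 0 = (0 : ℂ) := by
    show c 0 0 = 0
    rw [hc0, Pi.zero_apply]
  obtain ⟨θ, hθ, hθξ, -, hθ0⟩ := Pool.Agent.H62.BU.local_inverse (f := fun z => c z 0) hξan (fun v hv => by
    rw [hξd.hasFDerivAt.fderiv] at hv
    have h1 : v * deriv c 0 0 = 0 := by simpa using hv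
    exact (mul_eq_zero.1 h1).resolve_right hcne)
  have hξ0' : c 0 0 = 0 := hξ0
  rw [hξ0'] at hθ hθ0
  have hhan : AnalyticAt ℂ (fun (w : ℂ) (j : Fin k) => c (θ w) j.succ) 0 := by
    refine analyticAt_pi_iff.2 fun j => ?_
    refine AnalyticAt.fun_comp (g := fun z => c z j.succ) (f := θ) ?_ hθ
    rw [hθ0]
    exact analyticAt_pi_iff.1 hcan j.succ
  have hh0 : (fun (w : ℂ) (j : Fin k) => c (θ w) j.succ) 0 = 0 := by
    funext j
    show c (θ 0) j.succ = 0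
    rw [hθ0, hc0, Pi.zero_apply]
  refine ⟨fun q => κ (shear (fun (w : ℂ) (j : Fin k) => c (θ w) j.succ) q), fun z => c z 0, isCoord_shear hκ hhan hh0, fun x hx hxp => isNC_shear (hnc x hx hxp) hhan hh0,
    hξan, hξ0, ?_, ?_⟩
  · rw [hξd.deriv]
    exact hcne
  · filter_upwards [hθξ, hκc] with z h1 h2
    rw [← h2]
    congr 1
    funext i
    refine Fin.cases rfl (fun j => ?_) i
    show (0 : ℂ) + c (θ (c z 0)) j.succ = c z j.succ
    rw [h1, zero_add]

end Pool.Agent.GX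

end

section

/-!
# TG XTan: the tangent space of `D` at a point with a coordinate system

`coord_tangent` (two coordinate systems have the same tangent space of `D`): let `fderiv ℂ κ 0 q = v`, `q 0 = 0`.  The curve `γ z = κ (z • q)` is in `D` (`mem_iff`), `γ 0 = p`, `γ' 0 = v`.  Let `ψ` be the local
inverse of `κ'` (`H62.BU.local_inverse`, `κ'` is analytic at `0` with injective derivative, `κ' 0 = p`); `q' = fderiv ℂ ψ p v`: `κ' (ψ (γ z)) = γ z ∈ D` near `0`, so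
`(ψ (γ z)) 0 = 0` near `z = 0` (`mem_iff` for `κ'`), so `q' 0 = 0` (the derivative of `z ↦ (ψ (γ z)) 0`), and `fderiv ℂ κ' 0 q' = v` (derivative of `κ' ∘ ψ = id`).

`coord_move`: if `IsCoord D κ p` then for all small `q₀` with `q₀ 0 = 0`, `fun q => κ (q₀ + q)` is a coordinate system at `κ q₀`.  [Analytic near, `mem_iff` is an eventual statement
(`eventually_eventually_nhds`), `(q₀ + q) 0 = q 0`; injectivity of `fderiv ℂ κ q₀` for small `q₀`: an open condition, by continuity of `q₀ ↦ (fderiv ℂ κ q₀).det` or as in `TN/SardR` `sardR_open`.]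

`trans_iso`: let `κ` be a coordinate system at `q` and `ψ` its local inverse.  If `q + z • e ∈ D` for `z ≠ 0` arbitrarily small: `h z = (ψ (q + z • e)) 0` is analytic at `0` with `h z = 0` iff `q + z • e ∈ D`
for small `z` (`κ (ψ x) = x`), so (isolated zeros) either `q + z • e ∉ D` for `z ≠ 0` small or `h = 0` near `0`; in the second case `q' = fderiv ℂ ψ q e` has `q' 0 = 0` and `fderiv ℂ κ 0 q' = e`:
contradiction to `TransAt`.
-/

set_option autoImplicit false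

open Topology Filter Metric MeasureTheory

namespace Pool.Agent.TG

open Pool.Agent.AD (Vd)

variable {k : ℕ} {D : Set (Vd (k + 1))}

/-- the local inverse of a coordinate system -/
private theorem xtan_inv {κ : Vd (k + 1) → Vd (k + 1)} {p : Vd (k + 1)} (h : IsCoord D κ p) :
    ∃ ψ : Vd (k + 1) → Vd (k + 1), AnalyticAt ℂ ψ p ∧ ψ p = 0 ∧ (∀ᶠ x in 𝓝 p, (x ∈ D ↔ (ψ x) 0 = 0)) ∧
      ∀ v : Vd (k + 1), fderiv ℂ κ 0 (fderiv ℂ ψ p v) = v := by
  obtain ⟨ψ, h1, -, h3, h4⟩ := H62.BU.local_inverse h.an fun v hv => h.inj (by rw [hv, map_zero])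
  rw [h.zero] at h1 h3 h4
  refine ⟨ψ, h1, h4, ?_, ?_⟩
  · have h5 : Tendsto ψ (𝓝 p) (𝓝 0) := by
      have := h1.continuousAt.tendsto
      rwa [h4] at this
    filter_upwards [h5.eventually h.mem_iff, h3] with x hx hx3
    rw [hx3] at hx
    exact hx
  · intro v
    have h5 : HasFDerivAt κ (fderiv ℂ κ 0) (ψ p) := by
      rw [h4]
      exact h.an.differentiableAt.hasFDerivAt
    have h6 : HasFDerivAt (fun x => κ (ψ x)) ((fderiv ℂ κ 0).comp (fderiv ℂ ψ p)) p := h5.comp p h1.differentiableAt.hasFDerivAt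
    have h7 : HasFDerivAt (fun x => κ (ψ x)) (ContinuousLinearMap.id ℂ (Vd (k + 1))) p := by
      refine (hasFDerivAt_id p).congr_of_eventuallyEq ?_
      filter_upwards [h3] with x hx
      exact hx
    have h8 := h6.unique h7
    have h9 := DFunLike.congr_fun h8 v
    exact h9

/-- the derivative of a curve which is in the hyperplane -/
private theorem xtan_der {g : ℂ → Vd (k + 1)} {v : Vd (k + 1)} (hg : HasDerivAt g v 0) (h : ∀ᶠ z in 𝓝 (0 : ℂ), (g z) 0 = 0) : v 0 = 0 := by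
  have h1 : HasDerivAt (fun z => (g z) 0) (v 0) 0 := (hasDerivAt_pi.1 hg) 0
  have h2 : HasDerivAt (fun z => (g z) 0) 0 0 := by
    refine (hasDerivAt_const (0 : ℂ) (0 : ℂ)).congr_of_eventuallyEq ?_
    filter_upwards [h] with z hz
    exact hz
  exact h1.unique h2

private theorem xtan_open {f : Vd (k + 1) → Vd (k + 1)} {x₀ : Vd (k + 1)} (hf : AnalyticAt ℂ f x₀) (h : Function.Injective (fderiv ℂ f x₀)) :
    ∀ᶠ x in 𝓝 x₀, Function.Injective (fderiv ℂ f x) := by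
  obtain ⟨e, he⟩ : ∃ e : Vd (k + 1) ≃L[ℂ] Vd (k + 1), (e : Vd (k + 1) →L[ℂ] Vd (k + 1)) = fderiv ℂ f x₀ := by
    refine ⟨(LinearEquiv.ofInjectiveEndo (fderiv ℂ f x₀ : Vd (k + 1) →ₗ[ℂ] Vd (k + 1)) h).toContinuousLinearEquiv, ?_⟩
    ext v
    rfl
  have h1 : ContinuousAt (fderiv ℂ f) x₀ := hf.fderiv.continuousAt
  have h2 : {T : Vd (k + 1) →L[ℂ] Vd (k + 1) | IsUnit T} ∈ 𝓝 (fderiv ℂ f x₀) := by
    refine Units.isOpen.mem_nhds ?_
    show IsUnit (fderiv ℂ f x₀)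
    rw [← he]
    exact ⟨ContinuousLinearEquiv.toUnit e, rfl⟩
  filter_upwards [h1.eventually h2] with x hx
  obtain ⟨T, hT⟩ := hx
  intro a b hab
  have h3 : ∀ v : Vd (k + 1), (T⁻¹).val (fderiv ℂ f x v) = v := by
    intro v
    have h6 : ((T⁻¹).val * T.val) v = v := by
      rw [Units.inv_mul]
      rfl
    rw [hT] at h6
    exact h6
  rw [← h3 a, hab, h3 b]

theorem coord_tangent {κ κ' : Vd (k + 1) → Vd (k + 1)} {p : Vd (k + 1)} (h : IsCoord D κ p) (h' : IsCoord D κ' p) {q : Vd (k + 1)} (hq : q 0 = 0) :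
    ∃ q' : Vd (k + 1), q' 0 = 0 ∧ fderiv ℂ κ' 0 q' = fderiv ℂ κ 0 q := by
  obtain ⟨ψ, h1, h2, h3, h4⟩ := xtan_inv h'
  refine ⟨fderiv ℂ ψ p (fderiv ℂ κ 0 q), ?_, h4 _⟩
  have h5 : HasDerivAt (fun z : ℂ => z • q) q 0 := by
    have := (hasDerivAt_id (0 : ℂ)).smul_const q
    simpa using this
  have h6 : HasDerivAt (fun z : ℂ => κ (z • q)) (fderiv ℂ κ 0 q) 0 := by
    have h7 : HasFDerivAt κ (fderiv ℂ κ 0) ((0 : ℂ) • q) := by
      rw [zero_smul]
      exact h.an.differentiableAt.hasFDerivAt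
    exact h7.comp_hasDerivAt (0 : ℂ) h5
  have h8 : κ ((0 : ℂ) • q) = p := by
    rw [zero_smul]
    exact h.zero
  have h9 : HasDerivAt (fun z : ℂ => ψ (κ (z • q))) (fderiv ℂ ψ p (fderiv ℂ κ 0 q)) 0 := by
    have h10 : HasFDerivAt ψ (fderiv ℂ ψ p) (κ ((0 : ℂ) • q)) := by
      rw [h8]
      exact h1.differentiableAt.hasFDerivAt
    exact h10.comp_hasDerivAt (0 : ℂ) h6
  refine xtan_der h9 ?_
  have h11 : Tendsto (fun z : ℂ => z • q) (𝓝 0) (𝓝 0) := by
    have := h5.continuousAt.tendsto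
    rwa [zero_smul] at this
  have h12 : Tendsto (fun z : ℂ => κ (z • q)) (𝓝 0) (𝓝 p) := by
    have := h6.continuousAt.tendsto
    rwa [h8] at this
  filter_upwards [h11.eventually h.mem_iff, h12.eventually h3] with z hz1 hz2
  refine hz2.1 (hz1.2 ?_)
  show z • q 0 = 0
  rw [hq, smul_zero]

theorem coord_move {κ : Vd (k + 1) → Vd (k + 1)} {p : Vd (k + 1)} (h : IsCoord D κ p) :
    ∀ᶠ q₀ in 𝓝 (0 : Vd (k + 1)), q₀ 0 = 0 → IsCoord D (fun q => κ (q₀ + q)) (κ q₀) := by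
  filter_upwards [h.an.eventually_analyticAt, xtan_open h.an h.inj, h.mem_iff.eventually_nhds] with q₀ h1 h2 h3 h0
  have h4 : Tendsto (fun q : Vd (k + 1) => q₀ + q) (𝓝 0) (𝓝 q₀) := by
    have : ContinuousAt (fun q : Vd (k + 1) => q₀ + q) 0 := by fun_prop
    have h5 := this.tendsto
    rwa [add_zero] at h5
  refine ⟨?_, by rw [add_zero], ?_, ?_⟩
  · have h5 : AnalyticAt ℂ κ (q₀ + 0) := by
      rw [add_zero]
      exact h1
    exact h5.comp (f := fun q : Vd (k + 1) => q₀ + q) (analyticAt_const.add analyticAt_id)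
  · have h5 : fderiv ℂ (fun q => κ (q₀ + q)) 0 = fderiv ℂ κ q₀ := by
      rw [fderiv_comp_add_left, add_zero]
    rw [h5]
    exact h2
  · filter_upwards [h4.eventually h3] with q hq
    rw [hq]
    show q₀ 0 + q 0 = 0 ↔ q 0 = 0
    rw [h0, zero_add]

theorem trans_iso {κ : Vd (k + 1) → Vd (k + 1)} {q e : Vd (k + 1)} (h : IsCoord D κ q) (he : TransAt D q e) : ∀ᶠ z in 𝓝[≠] (0 : ℂ), q + z • e ∉ D := by
  obtain ⟨ψ, h1, h2, h3, h4⟩ := xtan_inv h
  have h5 : HasDerivAt (fun z : ℂ => q + z • e) e 0 := by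
    have := ((hasDerivAt_id (0 : ℂ)).smul_const e).const_add q
    simpa using this
  have h8 : q + (0 : ℂ) • e = q := by rw [zero_smul, add_zero]
  have h9 : HasDerivAt (fun z : ℂ => ψ (q + z • e)) (fderiv ℂ ψ q e) 0 := by
    have h10 : HasFDerivAt ψ (fderiv ℂ ψ q) (q + (0 : ℂ) • e) := by
      rw [h8]
      exact h1.differentiableAt.hasFDerivAt
    exact h10.comp_hasDerivAt (0 : ℂ) h5
  have h6 : Tendsto (fun z : ℂ => q + z • e) (𝓝 0) (𝓝 q) := by
    have := h5.continuousAt.tendsto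
    rwa [h8] at this
  have h7 : AnalyticAt ℂ (fun z : ℂ => (ψ (q + z • e)) 0) 0 := by
    have h10 : AnalyticAt ℂ ψ (q + (0 : ℂ) • e) := by
      rw [h8]
      exact h1
    have h11 : AnalyticAt ℂ (fun z : ℂ => ψ (q + z • e)) 0 :=
      h10.comp (f := fun z : ℂ => q + z • e) (analyticAt_const.add (analyticAt_id.smul analyticAt_const))
    exact analyticAt_pi_iff.1 h11 0
  rcases h7.eventually_eq_zero_or_eventually_ne_zero with h10 | h10
  · exact absurd (h4 e) (he.2 κ h _ (xtan_der h9 h10))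
  · filter_upwards [h10, (h6.eventually h3).filter_mono nhdsWithin_le_nhds] with z hz1 hz2 hz3
    exact hz1 (hz2.1 hz3)

end Pool.Agent.TG

end

section

/-!
# TG XSard: almost all lines of a given direction are transversal to `D`

`ae_trans`.  For `p ∈ D` with a coordinate system `κ_p` at `p` there is an open neighbourhood `W_p` of `p` and `ρ_p > 0` such that `κ_p` is analytic on `ball 0 ρ_p` with injective derivative, every point of `W_p ∩ D` is
`κ_p q` with `q ∈ ball 0 ρ_p`, `q 0 = 0` (`local_inverse`), and `fun q' => κ_p (q + q')` is a coordinate system at this point (`coord_move`).  By Lindelöf countably many `W_p` cover the set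
`{p ∈ D | ∃ κ, IsCoord D κ p}`.  Let `Ψ w = κ_p (w - w 0 • e₀) - w 0 • e`.  The critical points of `Ψ : Vd (k+1) → Vd (k+1)` have a null image (Sard in equal dimensions).
If `y + z • e = κ_p q ∈ D`, and `TransAt D (y + z • e) e` fails, then (`coord_tangent`, `coord_move`) `e = fderiv ℂ κ_p q q'` with
`q' 0 = 0`, so the derivative of `Ψ` at `w = q + z • e₀` kills `q' + e₀`, `w` is a critical point and `y = Ψ w`.  So the set of the bad `y` is a countable union of null sets.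
-/

set_option autoImplicit false

open Topology Filter Metric MeasureTheory

namespace Pool.Agent.TG

open Pool.Agent.AD (Vd)

variable {k : ℕ} {D : Set (Vd (k + 1))}

/-- good neighbourhoods -/
private theorem sard_nhd {κ : Vd (k + 1) → Vd (k + 1)} {p : Vd (k + 1)} (h : IsCoord D κ p) :
    ∃ W ∈ 𝓝 p, ∃ S : Set (Vd (k + 1)), (∀ q ∈ S, AnalyticAt ℂ κ q ∧ (q 0 = 0 → IsCoord D (fun q' => κ (q + q')) (κ q))) ∧
      ∀ y ∈ W, y ∈ D → ∃ q ∈ S, q 0 = 0 ∧ κ q = y := by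
  obtain ⟨ψ, h1, -, h3, h4⟩ := H62.BU.local_inverse h.an fun v hv => h.inj (by rw [hv, map_zero])
  rw [h.zero] at h1 h3 h4
  obtain ⟨S, hS, hS1⟩ : ∃ S ∈ 𝓝 (0 : Vd (k + 1)), ∀ q ∈ S, AnalyticAt ℂ κ q ∧ (q 0 = 0 → IsCoord D (fun q' => κ (q + q')) (κ q)) :=
    ⟨_, h.an.eventually_analyticAt.and (coord_move h), fun q hq => hq⟩
  have h5 : Tendsto ψ (𝓝 p) (𝓝 0) := by
    have := h1.continuousAt.tendsto
    rwa [h4] at this
  refine ⟨{y | ψ y ∈ S ∧ (κ (ψ y) ∈ D ↔ (ψ y) 0 = 0) ∧ κ (ψ y) = y}, ?_, S, hS1, ?_⟩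
  · filter_upwards [h5.eventually hS, h5.eventually h.mem_iff, h3] with y a b c
    exact ⟨a, b, c⟩
  · rintro y ⟨a, b, c⟩ hy
    exact ⟨ψ y, a, b.1 (by rwa [c]), c⟩

/-- the bad lines through one neighbourhood -/
private theorem sard_one {κ : Vd (k + 1) → Vd (k + 1)} {e : Vd (k + 1)} (he : e ≠ 0) {W S : Set (Vd (k + 1))}
    (hS : ∀ q ∈ S, AnalyticAt ℂ κ q ∧ (q 0 = 0 → IsCoord D (fun q' => κ (q + q')) (κ q)))
    (hW : ∀ y ∈ W, y ∈ D → ∃ q ∈ S, q 0 = 0 ∧ κ q = y) :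
    volume {y : Vd (k + 1) | ∃ z : ℂ, y + z • e ∈ W ∧ y + z • e ∈ D ∧ ¬ TransAt D (y + z • e) e} = 0 := by
  obtain ⟨π, hπ⟩ : ∃ π : Vd (k + 1) →L[ℂ] Vd (k + 1), ∀ w, π w = w - w 0 • (Pi.single 0 1 : Vd (k + 1)) :=
    ⟨ContinuousLinearMap.id ℂ _ - (ContinuousLinearMap.proj (R := ℂ) (φ := fun _ : Fin (k + 1) => ℂ) 0).smulRight (Pi.single 0 1 : Vd (k + 1)), fun w => rfl⟩
  obtain ⟨π₀, hπ₀⟩ : ∃ π₀ : Vd (k + 1) →L[ℂ] Vd (k + 1), ∀ w, π₀ w = w 0 • e :=
    ⟨(ContinuousLinearMap.proj (R := ℂ) (φ := fun _ : Fin (k + 1) => ℂ) 0).smulRight e, fun w => rfl⟩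
  have hder : ∀ w : Vd (k + 1), π w ∈ S → HasFDerivAt (fun w : Vd (k + 1) => κ (π w) - π₀ w) ((fderiv ℂ κ (π w)).comp π - π₀) w := by
    intro w hw
    exact ((hS _ hw).1.differentiableAt.hasFDerivAt.comp w π.hasFDerivAt).sub π₀.hasFDerivAt
  have hnull := addHaar_image_eq_zero_of_det_fderivWithin_eq_zero (volume : Measure (Vd (k + 1))) (f := fun w : Vd (k + 1) => κ (π w) - π₀ w)
    (f' := fun w => ((fderiv ℂ κ (π w)).comp π - π₀).restrictScalars ℝ)
    (s := {w | π w ∈ S ∧ ∃ v : Vd (k + 1), v ≠ 0 ∧ ((fderiv ℂ κ (π w)).comp π - π₀) v = 0})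
    (fun w hw => ((hder w hw.1).restrictScalars ℝ).hasFDerivWithinAt) (by
      rintro w ⟨hw, v, hv, hv0⟩
      by_contra hdet
      have hu : IsUnit (LinearMap.det ((((fderiv ℂ κ (π w)).comp π - π₀).restrictScalars ℝ : Vd (k + 1) →L[ℝ] Vd (k + 1)) : Vd (k + 1) →ₗ[ℝ] Vd (k + 1))) :=
        isUnit_iff_ne_zero.2 hdet
      have hinj := (LinearMap.isUnit_iff_ker_eq_bot _).1 ((LinearMap.isUnit_iff_isUnit_det _).2 hu)
      rw [LinearMap.ker_eq_bot] at hinj
      exact hv (hinj (by rw [map_zero]; exact hv0)))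
  refine measure_mono_null ?_ hnull
  rintro y ⟨z, hyW, hyD, hT⟩
  obtain ⟨q, hqS, hq0, hqy⟩ := hW _ hyW hyD
  have hcoord := (hS q hqS).2 hq0
  rw [hqy] at hcoord
  obtain ⟨κ', hκ', q₁, hq₁, hq₁e⟩ : ∃ κ', IsCoord D κ' (y + z • e) ∧ ∃ q : Vd (k + 1), q 0 = 0 ∧ fderiv ℂ κ' 0 q = e := by
    by_contra hcon
    apply hT
    refine ⟨he, fun κ' hκ' q hq hqe => hcon ⟨κ', hκ', q, hq, hqe⟩⟩
  obtain ⟨q', hq', hq'e⟩ := coord_tangent hκ' hcoord hq₁
  rw [hq₁e] at hq'e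
  have hfd : fderiv ℂ (fun q' => κ (q + q')) 0 = fderiv ℂ κ q := by
    have h1 : HasFDerivAt κ (fderiv ℂ κ q) (q + 0) := by
      rw [add_zero]
      exact (hS q hqS).1.differentiableAt.hasFDerivAt
    have h2 : HasFDerivAt (fun q' : Vd (k + 1) => q + q') (ContinuousLinearMap.id ℂ _) 0 := (hasFDerivAt_id _).const_add q
    have h3 := HasFDerivAt.comp (g := κ) (f := fun q' : Vd (k + 1) => q + q') (0 : Vd (k + 1)) h1 h2
    rw [ContinuousLinearMap.comp_id] at h3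
    exact h3.fderiv
  rw [hfd] at hq'e
  have h0 : (q + z • (Pi.single 0 1 : Vd (k + 1))) 0 = z := by
    rw [Pi.add_apply, hq0, zero_add, Pi.smul_apply, Pi.single_eq_same, smul_eq_mul, mul_one]
  have hπw : π (q + z • (Pi.single 0 1 : Vd (k + 1))) = q := by
    rw [hπ, h0, add_sub_cancel_right]
  have hπ₀w : π₀ (q + z • (Pi.single 0 1 : Vd (k + 1))) = z • e := by
    rw [hπ₀, h0]
  refine ⟨q + z • (Pi.single 0 1 : Vd (k + 1)), ⟨by rw [hπw]; exact hqS, q' + Pi.single 0 1, ?_, ?_⟩, ?_⟩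
  · intro hz
    have h1 := congrFun hz 0
    rw [Pi.add_apply, hq', zero_add, Pi.single_eq_same, Pi.zero_apply] at h1
    exact one_ne_zero h1
  · have h1 : (q' + (Pi.single 0 1 : Vd (k + 1))) 0 = 1 := by
      rw [Pi.add_apply, hq', zero_add, Pi.single_eq_same]
    have h2 : π (q' + (Pi.single 0 1 : Vd (k + 1))) = q' := by
      rw [hπ, h1, one_smul, add_sub_cancel_right]
    have h3 : π₀ (q' + (Pi.single 0 1 : Vd (k + 1))) = e := by
      rw [hπ₀, h1, one_smul]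
    rw [_root_.sub_apply, ContinuousLinearMap.comp_apply, h2, h3, hπw, hq'e, sub_self]
  · show κ (π (q + z • (Pi.single 0 1 : Vd (k + 1)))) - π₀ (q + z • (Pi.single 0 1 : Vd (k + 1))) = y
    rw [hπw, hπ₀w, hqy, add_sub_cancel_right]

theorem ae_trans {e : Vd (k + 1)} (he : e ≠ 0) :
    ∀ᵐ y : Vd (k + 1), ∀ z : ℂ, y + z • e ∈ D → (∃ κ, IsCoord D κ (y + z • e)) → TransAt D (y + z • e) e := by
  have key : ∀ p : Vd (k + 1), ∃ W : Set (Vd (k + 1)), (p ∈ D → (∃ κ, IsCoord D κ p) → W ∈ 𝓝 p) ∧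
      volume {y : Vd (k + 1) | ∃ z : ℂ, y + z • e ∈ W ∧ y + z • e ∈ D ∧ ¬ TransAt D (y + z • e) e} = 0 := by
    intro p
    by_cases h : ∃ κ, IsCoord D κ p
    · obtain ⟨κ, hκ⟩ := h
      obtain ⟨W, hW, S, hS, hWS⟩ := sard_nhd hκ
      exact ⟨W, fun _ _ => hW, sard_one he hS hWS⟩
    · refine ⟨∅, fun _ h' => absurd h' h, ?_⟩
      have h1 : {y : Vd (k + 1) | ∃ z : ℂ, y + z • e ∈ (∅ : Set (Vd (k + 1))) ∧ y + z • e ∈ D ∧ ¬ TransAt D (y + z • e) e} = ∅ := by
        ext y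
        simp
      rw [h1]
      exact measure_empty
  choose W hW hnull using key
  obtain ⟨t, -, htc, hcov⟩ := TopologicalSpace.countable_cover_nhdsWithin (f := W) (s := {p : Vd (k + 1) | p ∈ D ∧ ∃ κ, IsCoord D κ p})
    (fun p hp => nhdsWithin_le_nhds (hW p hp.1 hp.2))
  have h1 : volume (⋃ p ∈ t, {y : Vd (k + 1) | ∃ z : ℂ, y + z • e ∈ W p ∧ y + z • e ∈ D ∧ ¬ TransAt D (y + z • e) e}) = 0 :=
    (measure_biUnion_null_iff htc).2 fun p _ => hnull p
  rw [ae_iff]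
  refine measure_mono_null ?_ h1
  intro y hy
  simp only [Set.mem_ofPred_eq] at hy
  push Not at hy
  obtain ⟨z, hz, hκ, hT⟩ := hy
  obtain ⟨p, hp, hpW⟩ := Set.mem_iUnion₂.1 (hcov (show y + z • e ∈ {p : Vd (k + 1) | p ∈ D ∧ ∃ κ, IsCoord D κ p} from ⟨hz, hκ⟩))
  exact Set.mem_iUnion₂.2 ⟨p, hp, z, hpW, hz, hT⟩

end Pool.Agent.TG

end

section

/-!
# TG XGeo: the transversal points
-/

set_option autoImplicit false

open Topology Filter Metric MeasureTheory

namespace Pool.Agent.TG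

open Pool.Agent.H36.BP (EN)
open Pool.Agent.AD (Vd)

variable {N k : ℕ} {X : Set (EN N)} {Λ : AddSubgroup (Vd (k + 1))} {u : EN N → Vd (k + 1)} {D B : Set (Vd (k + 1))}

/-- `q ∈ D \ B` and the line `q + ℂ e` is transversal to `D` at `q` -/
def TrB (D B : Set (Vd (k + 1))) (q e : Vd (k + 1)) : Prop := q ∈ D ∧ q ∉ B ∧ (∃ κ, IsCoord D κ q) ∧ TransAt D q e

theorem Geo.ae_trB (G : Geo X Λ u D B) {e : Vd (k + 1)} (he : e ≠ 0) : ∀ᵐ y : Vd (k + 1), ∀ z : ℂ, y + z • e ∈ D → TrB D B (y + z • e) e := by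
  filter_upwards [G.B_lines e he, ae_trans (D := D) he] with y h1 h2 z hz
  obtain ⟨κ, hκ, -⟩ := G.nc _ hz (h1 z)
  exact ⟨hz, h1 z, ⟨κ, hκ⟩, h2 z hz ⟨κ, hκ⟩⟩

theorem trB_iso {q e : Vd (k + 1)} (h : TrB D B q e) : ∀ᶠ z in 𝓝[≠] (0 : ℂ), q + z • e ∉ D := by
  obtain ⟨κ, hκ⟩ := h.2.2.1
  exact trans_iso hκ h.2.2.2

end Pool.Agent.TG

end
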