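import Pool.Agent.H94.G5T.M74
import Pool.Agent.H94.G5T.M80
import Pool.Agent.H94.G5T.M86
import Pool.Agent.H94.G5T.M87
import Pool.Agent.H94.G5T.M88

/-! The parts of this file: H13.CV.EllA, G4.C.Near. -/

section

/-!
# CV EllA: generators with poles of order two and three

`ell_gens`: if some `f ∈ LD (dv E 1)` is not a constant then `ℂ(f) = K` (`top_of_dv_one`).  So assume that all `f ∈ LD (dv E 1)` are constants.  `W` for `k = 2` contains a non-constant `u` (`exists_not_const`),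
`oz E u ≥ -2`, and `oz E u ≠ -1, 0, …` (otherwise `u ∈ LD (dv E 1)`), so `oz E u = -2`.  `LD (dv E 2)` contains no `3`-dimensional subspace: for `W ≤ LD (dv E 2)` finite-dimensional,
`finrank W ≤ finrank (W ⊓ ordGe E (-1)) + 1` (`finrank_le_step`), and `W ⊓ ordGe E (-1) ≤ LD (dv E 1)` consists of constants, so it has dimension `≤ 1`.  So `W` for `k = 3` contains `v ∉ LD (dv E 2)`: `oz E v = -3`.
-/

set_option autoImplicit false

open Pool.Agent.H23.Fano (PrimeDivisorOver Form regularForms)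

noncomputable section

namespace Pool.Agent.H13.CV

variable {K : Type} [Field K] [Algebra ℂ K]

private theorem ella_mem_iff {E : Place K} {k : ℤ} {f : K} :
    f ∈ LD (dv E k) ↔ ((-k : ℤ) : WithTop ℤ) ≤ E.ord f ∧ ∀ E' : Place K, E' ≠ E → 0 ≤ E'.ord f := by
  rw [mem_LD]
  constructor
  · intro h
    refine ⟨?_, fun E' hE' => ?_⟩
    · have := h E
      simpa [dv] using this
    · have := h E'
      simpa [dv, hE'] using this
  · rintro ⟨h1, h2⟩ E'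
    by_cases hE' : E' = E
    · subst hE'
      simpa [dv] using h1
    · simpa [dv, hE'] using h2 E' hE'

private theorem ella_oz_eq {E : Place K} {k : ℤ} {f : K} (hf0 : f ≠ 0) (hf : f ∈ LD (dv E (k + 1)))
    (hf' : f ∉ LD (dv E k)) : oz E f = -(k + 1) := by
  rw [ella_mem_iff] at hf hf'
  have h1 : -(k + 1) ≤ oz E f := (le_ord_iff.1 hf.1).resolve_left hf0
  have h2 : ¬ (-k ≤ oz E f) := fun h => hf' ⟨le_ord_iff.2 (Or.inr h), hf.2⟩
  omega

theorem ell_gens (hK : CurveField K) {E : Place K}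
    (hW : ∀ k : ℕ, 1 ≤ k → ∃ W : Submodule ℂ K, FiniteDimensional ℂ W ∧ W ≤ LD (dv E k) ∧ k ≤ Module.finrank ℂ W) :
    (∃ t : K, IntermediateField.adjoin ℂ {t} = ⊤) ∨
    ((∀ f ∈ LD (dv E 1), ∃ c : ℂ, f = algebraMap ℂ K c) ∧ ∃ u v : K, oz E u = -2 ∧ oz E v = -3 ∧ (∀ E', E' ≠ E → 0 ≤ E'.ord u) ∧ (∀ E', E' ≠ E → 0 ≤ E'.ord v)) := by
  by_cases h1 : ∀ f ∈ LD (dv E 1), ∃ c : ℂ, f = algebraMap ℂ K c
  · right
    refine ⟨h1, ?_⟩
    obtain ⟨W2, hfin2, hle2, hdim2⟩ := hW 2 (by norm_num)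
    obtain ⟨W3, hfin3, hle3, hdim3⟩ := hW 3 (by norm_num)
    obtain ⟨u, huW, huc⟩ := exists_not_const (W := W2) hdim2
    have hu := hle2 huW
    have hu0 : u ≠ 0 := by
      have := huc 0
      simpa using this
    have hu' : u ∉ LD (dv E 1) := fun h => by
      obtain ⟨c, hc⟩ := h1 u h
      exact huc c hc
    have hnot : ¬ W3 ≤ LD (dv E 2) := by
      intro hle
      have hs := finrank_le_step hK W3 E (-2) (fun f hf => by
        have := (ella_mem_iff.1 (hle hf)).1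
        exact this)
      have hI : Module.finrank ℂ (W3 ⊓ ordGe E (-2 + 1) : Submodule ℂ K) ≤ 1 := by
        by_contra hcon
        push Not at hcon
        have : FiniteDimensional ℂ (W3 ⊓ ordGe E (-2 + 1) : Submodule ℂ K) :=
          Submodule.finiteDimensional_of_le inf_le_left
        obtain ⟨f, hf, hfc⟩ := exists_not_const (W := W3 ⊓ ordGe E (-2 + 1)) hcon
        rw [Submodule.mem_inf] at hf
        have hf1 : f ∈ LD (dv E 1) := by
          rw [ella_mem_iff]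
          exact ⟨hf.2, (ella_mem_iff.1 (hle hf.1)).2⟩
        obtain ⟨c, hc⟩ := h1 f hf1
        exact hfc c hc
      omega
    obtain ⟨v, hvW, hv'⟩ : ∃ v ∈ W3, v ∉ LD (dv E 2) := by
      by_contra hcon
      push Not at hcon
      exact hnot hcon
    have hv := hle3 hvW
    have hv0 : v ≠ 0 := by
      rintro rfl
      exact hv' (Submodule.zero_mem _)
    refine ⟨u, v, ?_, ?_, (ella_mem_iff.1 hu).2, (ella_mem_iff.1 hv).2⟩
    · exact ella_oz_eq (k := 1) hu0 (by exact_mod_cast hu) hu'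
    · exact ella_oz_eq (k := 2) hv0 (by exact_mod_cast hv) hv'
  · left
    push Not at h1
    obtain ⟨f, hf, hfc⟩ := h1
    exact ⟨f, top_of_dv_one hK hf hfc⟩

end Pool.Agent.H13.CV

end
end

section

/-!
# G4 C Near: in every open set of a slice there is a point where the family extends to complex parameters

`near_EAt` as in `G3/C/Leaf`, for one slice (`SDat`), if the jet form vanishes on the family (`PZs`) and the point is not over `Nν`.
-/

set_option autoImplicit false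

open Topology Filter Metric

namespace Pool.Agent.G4.C

open Pool.Agent.H36.BP (EN fs wd)
open Pool.Agent.H14.PP (IsCone)
open Pool.Agent.H62.EF (MN pr)
open Pool.Agent.AD (Vd Chart Charts)
open Pool.Agent.TG (TMap Lat Str ms tl)
open Pool.Agent.G3.C

variable {N k : ℕ} {X : Set (EN N)} {Λ : AddSubgroup (Vd (k + 1))} {u : EN N → Vd (k + 1)} {ν a b c : Vd (k + 1)} {m : ℕ} {ρ : ℝ}
  {Dt Bd : Set (ℂ × ℂ)} {Φ : ℝ → ℂ → MN N} {Nν : Set (Vd (k + 1))}

/-- the jet form vanishes on the family -/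
def PZs (P : JForm X Λ u ν m) (a b : Vd (k + 1)) (Dt : Set (ℂ × ℂ)) (Φ : ℝ → ℂ → MN N) : Prop :=
  ∀ (s : ℝ) (z : ℂ), ((s : ℂ), z) ∉ Dt → ∀ x : EN N, x ≠ 0 → Φ s z = pr x → pval P a b Φ s z x = 0

private theorem Near_QF (D : SDat X Λ u a ν b Dt Bd Φ) {P : JForm X Λ u ν m} (hZ : PZs P a b Dt Φ) {χ : Chart (k + 2) X} {ρ' : ℝ}
    {w : ℕ → ℝ → ℂ → ℂ} {s : ℝ} {z : ℂ} {r : ℝ} (B : Box X Λ u a ν b Φ χ c ρ' w s z r) (h : ((s : ℂ), z) ∉ Dt) : QF P b a χ c ρ' (Jt m w s z) = 0 := by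
  have hs : s ∈ Set.Ioo (s - r) (s + r) := ⟨by linarith [B.pos], by linarith [B.pos]⟩
  have hz : z ∈ ball z r := mem_ball_self B.pos
  have h1 := pval_eq D.cone B P (x := χ.σ (cz b ν a c ρ' (w 0 s z) s z)) (α := 1) (one_smul _ _).symm one_ne_zero
  rw [mul_one] at h1
  rw [← h1]
  exact hZ s z h _ (fun h0 => D.cone.zero_notMem (h0 ▸ (χ.σ_mem _ (B.mem s hs z hz)).1)) (B.eq s hs z hz)

/-- no point over `D` in a small ball with a good centre -/
private theorem Leaf_good (D : SDat X Λ u a ν b Dt Bd Φ) {p : ℂ × ℂ} (hp : p ∉ Dt) : ∃ r : ℝ, 0 < r ∧ ∀ q ∈ ball p r, q ∉ Dt := by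
  obtain ⟨r, hr, h⟩ := Metric.isOpen_iff.1 D.dt_closed.isOpen_compl p hp
  exact ⟨r, hr, fun q hq => h hq⟩

private theorem Leaf_ball {s s₀ r : ℝ} {z z₀ : ℂ} (hr : 0 < r) (hs : |s - s₀| < r) (hz : dist z z₀ < r) :
    ((s : ℂ), z) ∈ ball ((s₀ : ℂ), z₀) r := by
  rw [mem_ball, Prod.dist_eq]
  refine max_lt ?_ hz
  rwa [dist_eq_norm, ← Complex.ofReal_sub, Complex.norm_real, Real.norm_eq_abs]

private theorem Leaf_cz {ρ' : ℝ} {W : ℂ × ℂ → ℂ} {p : ℂ × ℂ} (hW : DifferentiableAt ℂ W p) :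
    DifferentiableAt ℂ (fun p : ℂ × ℂ => cz b ν a c ρ' (W p) p.1 p.2) p := by
  rw [differentiableAt_pi]
  intro i
  refine Fin.cases ?_ (fun j => ?_) i
  · simpa [cz] using hW
  · have h1 : DifferentiableAt ℂ (fun p : ℂ × ℂ => (ρ' : ℂ)⁻¹ * (b j + p.1 * ν j + p.2 * a j - c j)) p := by
      fun_prop
    simpa [cz, tz] using h1

theorem near_EAt (D : SDat X Λ u a ν b Dt Bd Φ) {P : JForm X Λ u ν m} (hP : ThP P a Nν) (hZ : PZs P a b Dt Φ) {s₀ : ℝ} {z₀ : ℂ}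
    (h : ((s₀ : ℂ), z₀) ∉ Dt) (hN : b + (s₀ : ℂ) • ν + z₀ • a ∉ Nν) {δ : ℝ} (hδ : 0 < δ) : ∃ (s₁ : ℝ) (z₁ : ℂ) (ε : ℝ), |s₁ - s₀| < δ ∧ ‖z₁ - z₀‖ < δ ∧ 0 < ε ∧ EAt Φ s₁ z₁ ε := by
  obtain ⟨χ, c, ρ', w, r, B⟩ := D.smo s₀ z₀ h
  obtain ⟨r₀, hr₀, hgood⟩ := Leaf_good D h
  obtain ⟨r', hr'⟩ : ∃ r' : ℝ, r' = min (min r δ) r₀ := ⟨_, rfl⟩
  have hr'0 : 0 < r' := by
    rw [hr']
    exact lt_min (lt_min B.pos hδ) hr₀
  have hr'r : r' ≤ r := by
    rw [hr']
    exact (min_le_left _ _).trans (min_le_left _ _)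
  have hr'δ : r' ≤ δ := by
    rw [hr']
    exact (min_le_left _ _).trans (min_le_right _ _)
  have hr'r₀ : r' ≤ r₀ := by
    rw [hr']
    exact min_le_right _ _
  have hI : ∀ s ∈ Set.Ioo (s₀ - r') (s₀ + r'), s ∈ Set.Ioo (s₀ - r) (s₀ + r) := fun s hs =>
    ⟨by linarith [hs.1], by linarith [hs.2]⟩
  have hD : ball z₀ r' ⊆ ball z₀ r := ball_subset_ball hr'r
  have hJ : JetFam w (Set.Ioo (s₀ - r') (s₀ + r')) (ball z₀ r') :=
    ⟨fun j s hs z hz => B.jet.der j s (hI s hs) z (hD hz),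
      fun j => (B.jet.cont j).mono (Set.prod_mono (fun s hs => hI s hs) hD),
      fun j s hs => (B.jet.hol j s (hI s hs)).mono hD⟩
  have hnot : ∀ s ∈ Set.Ioo (s₀ - r') (s₀ + r'), ∀ z ∈ ball z₀ r', ((s : ℂ), z) ∉ Dt := by
    intro s hs z hz
    apply hgood
    refine ball_subset_ball hr'r₀ (Leaf_ball hr'0 ?_ (mem_ball.1 hz))
    rw [abs_lt]
    exact ⟨by linarith [hs.1], by linarith [hs.2]⟩
  obtain ⟨s₁, hs₁, z₁, hz₁, hE⟩ := gen_analytic m (O := OD b ν a c ρ' m) OD_open OD_convex OD_dep (Q := QF P b a χ c ρ')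
    (QF_analytic P B.str) (QF_ne D.cone D.tor D.lat hP B.str (B.mem s₀ ⟨by linarith [B.pos], by linarith [B.pos]⟩ z₀ (mem_ball_self B.pos)) hN) (w := w) (I := Set.Ioo (s₀ - r') (s₀ + r')) (D := ball z₀ r')
    isOpen_Ioo isOpen_ball ⟨s₀, by linarith, by linarith⟩ ⟨z₀, mem_ball_self hr'0⟩ hJ
    (fun s hs z hz => B.mem s (hI s hs) z (hD hz))
    (fun s hs z hz => by
      obtain ⟨r'', B'⟩ := B.move (hI s hs) (hD hz)
      exact Near_QF D hZ B' (hnot s hs z hz))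
  obtain ⟨ε, W, hε, hW, hsI, hzD, hWw⟩ := Ext.joint hJ hE
  have hself : ((s₁ : ℂ), z₁) ∈ ball ((s₁ : ℂ), z₁) ε := mem_ball_self hε
  have hWat : ∀ p ∈ ball ((s₁ : ℂ), z₁) ε, DifferentiableAt ℂ W p := fun p hp => hW.differentiableAt (isOpen_ball.mem_nhds hp)
  have hcz : ∀ p ∈ ball ((s₁ : ℂ), z₁) ε, DifferentiableAt ℂ (fun p : ℂ × ℂ => cz b ν a c ρ' (W p) p.1 p.2) p := fun p hp =>
    Leaf_cz (hWat p hp)
  have hm : cz b ν a c ρ' (W ((s₁ : ℂ), z₁)) (s₁ : ℂ) z₁ ∈ ball (0 : Vd (k + 2)) 2 := by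
    rw [hWw s₁ z₁ hself]
    exact B.mem s₁ (hI s₁ hs₁) z₁ (hD hz₁)
  have hev : ∀ᶠ p in 𝓝 ((s₁ : ℂ), z₁), cz b ν a c ρ' (W p) p.1 p.2 ∈ ball (0 : Vd (k + 2)) 2 :=
    (hcz _ hself).continuousAt.eventually_mem (isOpen_ball.mem_nhds hm)
  obtain ⟨ε₁, hε₁, hin⟩ := Metric.eventually_nhds_iff_ball.mp hev
  refine ⟨s₁, z₁, min ε ε₁, ?_, ?_, lt_min hε hε₁, fun p => χ.σ (cz b ν a c ρ' (W p) p.1 p.2), ?_, ?_, ?_⟩
  · rw [abs_lt]
    exact ⟨by linarith [hs₁.1], by linarith [hs₁.2]⟩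
  · rw [← dist_eq_norm]
    exact lt_of_lt_of_le (mem_ball.1 hz₁) hr'δ
  · intro p hp
    have h1 := χ.σ_an _ (hin p (ball_subset_ball (min_le_right _ _) hp))
    exact (h1.differentiableAt.comp p (hcz p (ball_subset_ball (min_le_left _ _) hp))).differentiableWithinAt
  · intro p hp h0
    have h1 := (χ.σ_mem _ (hin p (ball_subset_ball (min_le_right _ _) hp))).1
    have h0' : χ.σ (cz b ν a c ρ' (W p) p.1 p.2) = 0 := h0
    rw [h0'] at h1
    exact D.cone.zero_notMem h1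
  · intro s z hp
    have hp' := ball_subset_ball (min_le_left ε ε₁) hp
    have h1 : s ∈ Set.Ioo (s₀ - r') (s₀ + r') := by
      apply hsI
      rw [mem_ball, Prod.dist_eq] at hp'
      have h2 := (le_max_left _ _).trans_lt hp'
      simp only at h2
      rwa [dist_eq_norm, ← Complex.ofReal_sub, Complex.norm_real, Real.norm_eq_abs] at h2
    have h2 : z ∈ ball z₀ r' := by
      apply hzD
      rw [mem_ball, Prod.dist_eq] at hp'
      exact (le_max_right _ _).trans_lt hp'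
    rw [B.eq s (hI s h1) z (hD h2)]
    simp only
    rw [hWw s z hp']

end Pool.Agent.G4.C

end
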