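import Pool.Agent.H94.G5T.M106
import Pool.Agent.H94.G5T.M111
import Pool.Agent.H94.G5T.M121
import Pool.Agent.H94.G5T.M143
import Pool.Agent.H94.G5T.M164
import Pool.Agent.H94.G5T.M48
import Pool.Agent.H94.G5T.M89

/-! The parts of this file: H13.CV.Tri, H13.CV.ThmC, AD.P.Main. -/

section

/-!
# CV Tri: the trichotomy

`genus_cases`.  First case: `lgt_of_forms` with `m = 1`.  Second case: if `B E₀` for some `E₀`: `lgt_of_boundary`.  Otherwise `ell_gens`: `K = ℂ(t)` (`rat_cases`), or `u, v`; `ell_rel`,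
`adjoin_eq_top_of_double_pole` (`-3` is odd), `normal_form`; if `α³ = 27 β²`: `singular_rational` and `rat_cases`.  Third case: `rat_cases`.
-/

set_option autoImplicit false

open Pool.Agent.H23.Fano (PrimeDivisorOver Form regularForms)
open Pool.Agent.H17LG.Variety (PoleAtMost IsLogGeneralType)

noncomputable section

namespace Pool.Agent.H13.CV

variable {K : Type} [Field K] [Algebra ℂ K]

theorem trichotomy (hK : CurveField K) (B : Place K → Prop) :
    IsLogGeneralType B ∨ (∃ t : K, IntermediateField.adjoin ℂ {t} = ⊤ ∧ ∀ E, B E → oz E t ≠ 0) ∨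
    ((∀ E, ¬ B E) ∧ ∃ (u v : K) (α β : ℂ), v ^ 2 = 4 * u ^ 3 - algebraMap ℂ K α * u - algebraMap ℂ K β ∧ Transcendental ℂ u ∧
      IntermediateField.adjoin ℂ {u, v} = ⊤ ∧ v ∉ IntermediateField.adjoin ℂ {u} ∧ α ^ 3 ≠ 27 * β ^ 2) := by
  have hmono : ∀ (E : Place K) (h : K) (ω : Form K 1), PoleAtMost 0 E 1 h ω → PoleAtMost 1 E 1 h ω := by
    rintro E h ω ⟨g, η, hη, hω, hg⟩
    refine ⟨g, η, hη, hω, ?_⟩
    have h0 : (0 : WithTop ℤ) ≤ E.ord (h * g ^ 1) := by simpa using hg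
    refine add_nonneg h0 ?_
    simp
  have hrat : ∀ t : K, IntermediateField.adjoin ℂ {t} = ⊤ →
      IsLogGeneralType B ∨ (∃ t : K, IntermediateField.adjoin ℂ {t} = ⊤ ∧ ∀ E, B E → oz E t ≠ 0) ∨
      ((∀ E, ¬ B E) ∧ ∃ (u v : K) (α β : ℂ), v ^ 2 = 4 * u ^ 3 - algebraMap ℂ K α * u - algebraMap ℂ K β ∧ Transcendental ℂ u ∧
        IntermediateField.adjoin ℂ {u, v} = ⊤ ∧ v ∉ IntermediateField.adjoin ℂ {u} ∧ α ^ 3 ≠ 27 * β ^ 2) := by
    intro t ht
    rcases rat_cases hK ht B with h | h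
    · exact Or.inl h
    · exact Or.inr (Or.inl h)
  rcases genus_cases hK with ⟨ω, h₁, h₂, hω, h10, htr, hP⟩ | ⟨⟨ω, h, hω, h0, hP⟩, E, hE⟩ | ⟨t, ht⟩
  · exact Or.inl (lgt_of_forms hK hω le_rfl h10 htr (fun E => ⟨fun _ => (hP E).1, fun _ => hmono E _ _ (hP E).1⟩)
      (fun E => ⟨fun _ => (hP E).2, fun _ => hmono E _ _ (hP E).2⟩))
  · by_cases hB : ∃ E₀, B E₀
    · obtain ⟨E₀, hE₀⟩ := hB
      exact Or.inl (lgt_of_boundary hK hω h0 hP hE₀)
    · have hB' : ∀ E, ¬ B E := fun E hE' => hB ⟨E, hE'⟩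
      rcases ell_gens hK hE with ⟨t, ht⟩ | ⟨h1, u, v, hu, hv, hu', hv'⟩
      · exact hrat t ht
      · obtain ⟨c, a, d, b, e, f, hc, hrel⟩ := ell_rel hK h1 hu hv hu' hv'
        obtain ⟨hvu, huv⟩ := adjoin_eq_top_of_double_pole hK (v := v) hu hu' (by rw [hv]; decide)
        obtain ⟨u', v', α, β, h', htr', hadj', hv''⟩ :=
          normal_form hc hrel (tr_of_oz_ne (E := E) (by rw [hu]; norm_num)) huv hvu
        by_cases hαβ : α ^ 3 = 27 * β ^ 2
        · obtain ⟨t, ht⟩ := singular_rational h' htr' hadj' hαβ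
          exact hrat t ht
        · exact Or.inr (Or.inr ⟨hB', u', v', α, β, h', htr', hadj', hv'', hαβ⟩)
  · exact hrat t ht

end Pool.Agent.H13.CV

end
end

section

/-!
# CV ThmC: a curve which is not of log general type contains a non-constant entire curve

`exists_hom`: `trichotomy` for `B`.
Case `K = ℂ(t)`, `B E → oz E t ≠ 0`: `t` is transcendental (`K` has transcendental elements).  `T = toM (exp)` is transcendental (`tr_or_const`: it is not a constant).  `hom_rat`: `φ`; `ordM z₀ T = 0`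
(`exp z₀ ≠ 0`), so `e • E.ord t = 0` and `E.ord t = 0`, `oz E t = 0`, so `¬ B E`.
Case of the cubic: `exists_entire_cubic`: `F`; its coordinates are entire functions `a₀, a₁, a₂` (`EntFun`).  `a₂ ≠ 0` (if `a₂ = 0` then `a₀ = 0` by the equation and `F z = (0, a₁ z, 0)`, so the `F z` are
proportional).  `U = a₀ / a₂`, `V = a₁ / a₂`.  `V² = 4 U³ - α U - β`.  `U` is transcendental: otherwise it is a constant (`tr_or_const`), then `V` satisfies a polynomial equation and is a constant too, so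
the `F z` with `a₂ z ≠ 0` are proportional to a fixed vector, so all `F z` are (if `a₀ = γ a₂`, `a₁ = δ a₂` as entire functions then `a₂ z = 0` implies `F z = 0`): contradiction.
`hom_cubic`: `φ` (there are no places in `B`).
The two theorems: `exists_hom` for `curveField_funField Q hz`, `homMap`, `homMapL`.
-/

set_option autoImplicit false

open Topology Filter MvPolynomial
open Pool.Agent.H17 (PN VanishesAt ZariskiClosedIn HolomorphicInto puncturedDisc EntFun)
open Pool.Agent.H17LG.Variety (FunField IsLogGeneralType)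
open Pool.Agent.H62.SA (locVar OnBd)

noncomputable section

namespace Pool.Agent.H13.CV

attribute [-instance] OreLocalization.instAddGroupOreLocalization OreLocalization.instAddCommGroup

private lemma tr_of_top {K : Type} [Field K] [Algebra ℂ K] (hK : CurveField K) {t : K} (ht : IntermediateField.adjoin ℂ {t} = ⊤) :
    Transcendental ℂ t := by
  by_contra hal
  obtain ⟨c, hc⟩ : ∃ c : ℂ, t = algebraMap ℂ K c := by
    by_contra h
    push Not at h
    exact hal (transcendental_of_not_const h)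
  obtain ⟨x, hx⟩ := hK.exists_tr
  have h1 : IntermediateField.adjoin ℂ {t} = (⊥ : IntermediateField ℂ K) := by
    rw [IntermediateField.adjoin_simple_eq_bot_iff, IntermediateField.mem_bot]
    exact ⟨c, hc.symm⟩
  have h2 : x ∈ (⊥ : IntermediateField ℂ K) := by
    rw [← h1, ht]
    exact IntermediateField.mem_top
  rw [IntermediateField.mem_bot] at h2
  obtain ⟨d, hd⟩ := h2
  exact hx (hd ▸ isAlgebraic_algebraMap d)

private def expE : EntFun := ⟨Complex.exp, Complex.differentiable_exp⟩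

private lemma toM_inj {a b : EntFun} (h : toM a = toM b) : a = b := IsFractionRing.injective EntFun Mer h

private lemma expE_tr : Transcendental ℂ (toM expE) := by
  rcases tr_or_const (toM expE) with ⟨c, hc⟩ | h
  · exfalso
    rw [algebraMap_eq] at hc
    have h1 := toM_inj hc
    have h2 : Complex.exp 0 = c := congrArg (fun f : EntFun => (f : ℂ → ℂ) 0) h1
    have h3 : Complex.exp (Real.pi * Complex.I) = c := congrArg (fun f : EntFun => (f : ℂ → ℂ) (Real.pi * Complex.I)) h1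
    rw [← h2, Complex.exp_pi_mul_I, Complex.exp_zero] at h3
    norm_num at h3
  · exact h

private lemma ordM_expE (z₀ : ℂ) : ordM z₀ (toM expE) = 0 := by
  refine le_antisymm (not_lt.1 fun h => ?_) (ordM_toM_nonneg z₀ expE)
  rw [ordM_toM_pos] at h
  exact Complex.exp_ne_zero z₀ h

private lemma ThmC_rel_map {A B : Type} [CommRing A] [CommRing B] (f : A →+* B) {x y z p q : A}
    (h : y ^ 2 * z - 4 * x ^ 3 + p * x * z ^ 2 + q * z ^ 3 = 0) :
    f y ^ 2 * f z - 4 * f x ^ 3 + f p * f x * f z ^ 2 + f q * f z ^ 3 = 0 := by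
  have h1 := congrArg f h
  simpa only [map_add, map_sub, map_mul, map_pow, map_zero, map_ofNat] using h1

private lemma ThmC_rel_div {A : Type} [Field A] {x y z p q : A} (hz : z ≠ 0)
    (h : y ^ 2 * z - 4 * x ^ 3 + p * x * z ^ 2 + q * z ^ 3 = 0) :
    (y / z) ^ 2 = 4 * (x / z) ^ 3 - p * (x / z) - q := by
  field_simp
  linear_combination h

private lemma ThmC_cub {A B : Type} [CommRing A] [CommRing B] (f : A →+* B) (g p q : A) :
    4 * f g ^ 3 - f p * f g - f q = f (4 * g ^ 3 - p * g - q) := by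
  simp only [map_sub, map_mul, map_pow, map_ofNat]

private lemma exists_cubic_mer {α β : ℂ} (hd : α ^ 3 ≠ 27 * β ^ 2) :
    ∃ U V : Mer, V ^ 2 = 4 * U ^ 3 - algebraMap ℂ Mer α * U - algebraMap ℂ Mer β ∧ Transcendental ℂ U := by
  obtain ⟨F, hF, hcub, z, w, hzw⟩ := exists_entire_cubic hd
  have hFi : ∀ i : Fin 3, Differentiable ℂ fun z => F z i := fun i =>
    ((EuclideanSpace.proj i : EuclideanSpace ℂ (Fin 3) →L[ℂ] ℂ).differentiable).comp hF
  obtain ⟨a, ha⟩ : ∃ a : Fin 3 → EntFun, ∀ i x, (a i : ℂ → ℂ) x = F x i := ⟨fun i => ⟨_, hFi i⟩, fun i x => rfl⟩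
  have hne : ∀ x, F x ≠ 0 := fun x => (hcub x).1
  have heq : ∀ x, F x 1 ^ 2 * F x 2 - 4 * F x 0 ^ 3 + α * F x 0 * F x 2 ^ 2 + β * F x 2 ^ 3 = 0 := fun x => (hcub x).2
  have h2 : a 2 ≠ 0 := by
    intro h
    have h0 : ∀ x, F x 2 = 0 := fun x => by
      rw [← ha 2 x, h]
      rfl
    have h1 : ∀ x, F x 0 = 0 := fun x => by
      have h3 := heq x
      rw [h0 x] at h3
      have h4 : F x 0 ^ 3 = 0 := by linear_combination (-1 / 4) * h3
      exact pow_eq_zero_iff (by norm_num) |>.1 h4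
    have hw1 : F w 1 ≠ 0 := fun h3 => hne w (by
      ext i
      fin_cases i
      · exact h1 w
      · exact h3
      · exact h0 w)
    refine hzw (F z 1 / F w 1) ?_
    ext i
    fin_cases i
    · simp [h1]
    · simp [hw1]
    · simp [h0]
  have hA2 : toM (a 2) ≠ 0 := fun h => h2 (toM_inj (by rw [h, toM, map_zero]))
  have hent : a 1 ^ 2 * a 2 - 4 * a 0 ^ 3 + algebraMap ℂ EntFun α * a 0 * a 2 ^ 2 + algebraMap ℂ EntFun β * a 2 ^ 3 = 0 := by
    apply EntFun.ext'
    intro x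
    have := heq x
    rw [← ha 0 x, ← ha 1 x, ← ha 2 x] at this
    exact this
  have hmer : toM (a 1) ^ 2 * toM (a 2) - 4 * toM (a 0) ^ 3 + algebraMap ℂ Mer α * toM (a 0) * toM (a 2) ^ 2 +
      algebraMap ℂ Mer β * toM (a 2) ^ 3 = 0 := by
    have := ThmC_rel_map (algebraMap EntFun Mer) hent
    rw [algebraMap_eq, algebraMap_eq]
    exact this
  have hrel : (toM (a 1) / toM (a 2)) ^ 2 = 4 * (toM (a 0) / toM (a 2)) ^ 3 - algebraMap ℂ Mer α * (toM (a 0) / toM (a 2)) -
      algebraMap ℂ Mer β := ThmC_rel_div hA2 hmer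
  refine ⟨_, _, hrel, ?_⟩
  rcases tr_or_const (toM (a 0) / toM (a 2)) with ⟨γ, hγ⟩ | h
  · exfalso
    obtain ⟨ε, hε⟩ := IsAlgClosed.exists_pow_nat_eq (4 * γ ^ 3 - α * γ - β) (n := 2) (by norm_num)
    have h3 : (toM (a 1) / toM (a 2)) ^ 2 = (algebraMap ℂ Mer ε) ^ 2 := by
      rw [hrel, hγ, ← map_pow (algebraMap ℂ Mer) ε, hε]
      exact ThmC_cub (algebraMap ℂ Mer) γ α β
    obtain ⟨ε', hε'⟩ : ∃ ε' : ℂ, toM (a 1) / toM (a 2) = algebraMap ℂ Mer ε' := by
      rcases sq_eq_sq_iff_eq_or_eq_neg.1 h3 with h | h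
      · exact ⟨ε, h⟩
      · exact ⟨-ε, by rw [h, map_neg]⟩
    rw [div_eq_iff hA2, algebraMap_eq] at hγ hε'
    have h4 : a 0 = algebraMap ℂ EntFun γ * a 2 := toM_inj (hγ.trans (map_mul (algebraMap EntFun Mer) _ _).symm)
    have h5 : a 1 = algebraMap ℂ EntFun ε' * a 2 := toM_inj (hε'.trans (map_mul (algebraMap EntFun Mer) _ _).symm)
    have h6 : ∀ x, F x 0 = γ * F x 2 := fun x => by
      rw [← ha 0 x, ← ha 2 x, h4]
      rfl
    have h7 : ∀ x, F x 1 = ε' * F x 2 := fun x => by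
      rw [← ha 1 x, ← ha 2 x, h5]
      rfl
    have hw2 : F w 2 ≠ 0 := fun h8 => hne w (by
      ext i
      fin_cases i
      · simpa [h8] using h6 w
      · simpa [h8] using h7 w
      · exact h8)
    refine hzw (F z 2 / F w 2) ?_
    ext i
    fin_cases i
    · show F z 0 = F z 2 / F w 2 * F w 0
      rw [h6 z, h6 w]
      field_simp
    · show F z 1 = F z 2 / F w 2 * F w 1
      rw [h7 z, h7 w]
      field_simp
    · show F z 2 = F z 2 / F w 2 * F w 2
      field_simp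
  · exact h

theorem exists_hom {K : Type} [Field K] [Algebra ℂ K] (hK : CurveField K) {B : Place K → Prop} (hB : ¬ IsLogGeneralType B) :
    ∃ φ : K →ₐ[ℂ] Mer, ∀ (z₀ : ℂ) (E : Place K) (e : ℕ), 1 ≤ e → (∀ g, ordM z₀ (φ g) = e • E.ord g) → ¬ B E := by
  rcases trichotomy hK B with h | ⟨t, ht, hBt⟩ | ⟨hBe, u, v, α, β, huv, hu, htop, hv, hd⟩
  · exact absurd h hB
  · obtain ⟨φ, hφ⟩ := hom_rat ht (tr_of_top hK ht) expE_tr
    refine ⟨φ, fun z₀ E e he hE hBE => hBt E hBE ?_⟩
    have h1 := hE t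
    rw [hφ, ordM_expE] at h1
    have ht0 : t ≠ 0 := by
      rintro rfl
      rw [map_zero] at hφ
      have h2 := expE_tr
      rw [← hφ] at h2
      exact h2 (isAlgebraic_zero)
    rw [← coe_oz E ht0, ← WithTop.coe_nsmul] at h1
    have h2 : (0 : ℤ) = e • oz E t := by exact_mod_cast h1
    rw [nsmul_eq_mul] at h2
    have h3 : (e : ℤ) ≠ 0 := by
      have : e ≠ 0 := by omega
      exact_mod_cast this
    exact (mul_eq_zero.1 h2.symm).resolve_left h3
  · obtain ⟨U, V, hUV, hU⟩ := exists_cubic_mer hd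
    obtain ⟨φ, -⟩ := hom_cubic huv hu htop hv hU hUV
    exact ⟨φ, fun z₀ E e he hE => hBe E⟩

variable {N : ℕ}

/-- the version for the complement of the common zeros of forms -/
theorem exists_entire_of_not_lgtL (Q : Ideal (MvPolynomial (Fin (N + 1)) ℂ)) [Q.IsPrime] (hX : ∃ i, (X i : MvPolynomial (Fin (N + 1)) ℂ) ∉ Q)
    (hz : ∃ z : Fin 1 → FunField Q, IsTranscendenceBasis ℂ z) {s : ℕ} {G : Fin s → MvPolynomial (Fin (N + 1)) ℂ} (hG : ∀ m, ∃ d, (G m).IsHomogeneous d)
    (hlgt : ¬ IsLogGeneralType (OnBd Q G (k := 1))) :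
    ∃ f : ℂ → PN N, HolomorphicInto f Set.univ ∧ (∀ z, f z ∈ locVar Q G) ∧ ∃ z w, f z ≠ f w := by
  have hK := curveField_funField Q hz
  obtain ⟨φ, hφ⟩ := exists_hom hK hlgt
  exact homMapL Q hX hK hG φ hφ

end Pool.Agent.H13.CV

end
end

section

/-!
# AD P Main: the theorem in all dimensions

The finite set of curves, the exceptional set, entire curves, maps of the punctured disc, discs, subvarieties.
-/

set_option autoImplicit false

open MvPolynomial Topology Filter Metric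

namespace Pool.Agent.AD.P

open Pool.Agent.H17 (PN VanishesAt HolomorphicInto ZariskiClosedIn puncturedDisc vanishesAt_mk_iff)
open Pool.Agent.H62.FC (Homog)
open Pool.Agent.H17LG.Variety (FunField IsLogGeneralType)
open Pool.Agent.H13.SM (cone)
open Pool.Agent.H36.BP (EN fs wd Curve)
open Pool.Agent.H14.PP (IsCone)
open Pool.Agent.H17EF (projVar coneE LE GT prP prP_injective)
open Pool.Agent.H62.EF (pr)

variable {N : ℕ} {P : Ideal (MvPolynomial (Fin (N + 1)) ℂ)}

/-- subvarieties of dimension one which are not contained in the exceptional set are of general type -/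
theorem strongly_one {Ξ : Set (PN N)} (hΞ : ZariskiClosedIn (projVar P) Ξ)
    (hbr : ∀ f : ℂ → PN N, HolomorphicInto f Set.univ → (∀ z, f z ∈ projVar P) → (∃ z w, f z ≠ f w) → ∀ z, f z ∈ Ξ)
    (Q : Ideal (MvPolynomial (Fin (N + 1)) ℂ)) [Q.IsPrime] (hQ : Homog Q) (hPQ : P ≤ Q) (hQΞ : ¬ projVar Q ⊆ Ξ)
    (hz' : ∃ z : Fin 1 → FunField Q, IsTranscendenceBasis ℂ z) : GT Q 1 := by
  have hsub : projVar Q ⊆ projVar P := fun x hx R hR n hn => hx R (hPQ hR) n hn
  have hX : ∃ i, (X i : MvPolynomial (Fin (N + 1)) ℂ) ∉ Q := by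
    obtain ⟨x, hx, _⟩ := Set.not_subset.1 hQΞ
    by_contra hcon
    push Not at hcon
    apply x.rep_nonzero
    funext i
    have h1 : VanishesAt (X i : MvPolynomial (Fin (N + 1)) ℂ) x := hx _ (hcon i) 1 (isHomogeneous_X ℂ i)
    have h2 : eval x.rep (X i : MvPolynomial (Fin (N + 1)) ℂ) = 0 := h1
    rw [eval_X] at h2
    exact h2
  have hl : IsLogGeneralType (Pool.Agent.H62.SA.OnBd Q (fun _ : Fin 1 => (1 : MvPolynomial (Fin (N + 1)) ℂ)) (k := 1)) := by
    by_contra hl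
    obtain ⟨f, hf, hfQ, hne⟩ := Pool.Agent.H13.CV.exists_entire_of_not_lgtL Q hX hz' (G := fun _ : Fin 1 => (1 : MvPolynomial (Fin (N + 1)) ℂ))
      (fun _ => ⟨0, isHomogeneous_one _ _⟩) hl
    rw [Pool.Agent.H17EF.locVar_one] at hfQ
    have hΞf : ∀ z, f z ∈ Ξ := hbr f hf (fun z => hsub (hfQ z)) hne
    obtain ⟨S, hS, hSΞ⟩ := hΞ
    apply hQΞ
    intro x hx
    rw [hSΞ]
    refine ⟨hsub hx, fun R hR => ?_⟩
    obtain ⟨n, hn⟩ := hS R hR
    have hRf : ∀ z, VanishesAt R (f z) := by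
      intro z
      have h3 := hΞf z
      rw [hSΞ] at h3
      exact h3.2 R hR
    exact hx R (Pool.Agent.H13.CV.form_of_curve0 Q hQ hz' hf hfQ hne hn hRf) n hn
  rw [Pool.Agent.H17EF.onBd_one] at hl
  exact hl

end Pool.Agent.AD.P

end
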