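import Pool.Agent.H94.G5T.H36.BP.WdA_1
import Pool.Agent.H94.G5T.M18
import Pool.Agent.H94.G5T.M32
import Pool.Agent.H94.G5T.M55
import Pool.Agent.H94.G5T.M63

/-! The parts of this file: G3.R.Nv_1, G3.A.JN. -/

section

/-!
# G3 R Nv: the affine charts `nv v`, `nv v (pr x) = x / ⟨v, x⟩`

`nv v m = (nd v m)⁻¹ • (m v)`, `nd v (pr v) = 1`, `pr v` fixes `v` for unit vectors `v` (`nv_pr`, `nd_pr_ne` in `G3/C/EDefs`).
`dd_nv`: the change of the chart is the composition with `x ↦ x / ⟨v, x⟩`, holomorphic and bounded by `4 / κ` on `ball v' (κ / 2)`, if `κ ≤ |⟨v, v'⟩|`: `dd_comp`, `dd_comp_le`.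
-/

set_option autoImplicit false

open Topology Filter Metric

namespace Pool.Agent.G3.R

open Pool.Agent.H36.BP (EN)
open Pool.Agent.H62.EF (MN pr)
open Pool.Agent.G3.C (nv nd nv_pr)

variable {N : ℕ}

theorem nv_self {v : EN N} (hv : ‖v‖ = 1) : nv v (pr v) = v := by
  have h1 := inner_self_unit hv
  rw [nv_pr (by rw [h1]; exact one_ne_zero), h1, inv_one, one_smul]

/-- a unit vector near `v` -/
theorem exists_unit_near {η : ℝ} (hη : 0 < η) : ∃ ε : ℝ, 0 < ε ∧ ∀ v : EN N, ‖v‖ = 1 → ∀ x : EN N, x ≠ 0 → dist (pr x) (pr v) ≤ ε →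
    ∃ c : ℂ, c ≠ 0 ∧ ‖c • x‖ = 1 ∧ ‖c • x - v‖ < η := by
  obtain ⟨ε, hε, h⟩ := inner_near (N := N) (η := η ^ 2 / 4) (by positivity)
  refine ⟨ε, hε, ?_⟩
  intro v hv x hx hd
  obtain ⟨h1, h2, h3⟩ := h v hv x hx hd
  have hx0 : 0 < ‖x‖ := norm_pos_iff.mpr hx
  have hi0 : 0 < ‖(inner ℂ v x : ℂ)‖ := norm_pos_iff.mpr h1
  have hi1 : ((‖(inner ℂ v x : ℂ)‖ : ℝ) : ℂ) ≠ 0 := by exact_mod_cast hi0.ne'
  have hx1 : ((‖x‖ : ℝ) : ℂ) ≠ 0 := by exact_mod_cast hx0.ne'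
  have hc : (starRingEnd ℂ) (inner ℂ v x) / (((‖(inner ℂ v x : ℂ)‖ : ℝ) : ℂ) * ((‖x‖ : ℝ) : ℂ)) ≠ 0 :=
    div_ne_zero (by rw [Ne, map_eq_zero]; exact h1) (mul_ne_zero hi1 hx1)
  have hn : ‖((starRingEnd ℂ) (inner ℂ v x) / (((‖(inner ℂ v x : ℂ)‖ : ℝ) : ℂ) * ((‖x‖ : ℝ) : ℂ))) • x‖ = 1 := by
    rw [norm_smul, norm_div, norm_mul, RCLike.norm_conj, Complex.norm_real, Complex.norm_real, norm_norm, norm_norm]
    field_simp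
  refine ⟨_, hc, hn, ?_⟩
  have hin : (inner ℂ v (((starRingEnd ℂ) (inner ℂ v x) / (((‖(inner ℂ v x : ℂ)‖ : ℝ) : ℂ) * ((‖x‖ : ℝ) : ℂ))) • x) : ℂ) =
      ((‖(inner ℂ v x : ℂ)‖ / ‖x‖ : ℝ) : ℂ) := by
    rw [inner_smul_right]
    have h4 : (starRingEnd ℂ) (inner ℂ v x) * (inner ℂ v x : ℂ) = ((‖(inner ℂ v x : ℂ)‖ : ℝ) : ℂ) ^ 2 := by
      rw [mul_comm, Complex.mul_conj']
    calc (starRingEnd ℂ) (inner ℂ v x) / (((‖(inner ℂ v x : ℂ)‖ : ℝ) : ℂ) * ((‖x‖ : ℝ) : ℂ)) * (inner ℂ v x : ℂ) =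
        ((starRingEnd ℂ) (inner ℂ v x) * (inner ℂ v x : ℂ)) / (((‖(inner ℂ v x : ℂ)‖ : ℝ) : ℂ) * ((‖x‖ : ℝ) : ℂ)) := by ring
      _ = ((‖(inner ℂ v x : ℂ)‖ / ‖x‖ : ℝ) : ℂ) := by
        rw [h4]
        push_cast
        field_simp
  have h5 : ‖((starRingEnd ℂ) (inner ℂ v x) / (((‖(inner ℂ v x : ℂ)‖ : ℝ) : ℂ) * ((‖x‖ : ℝ) : ℂ))) • x - v‖ ^ 2 =
      2 - 2 * (‖(inner ℂ v x : ℂ)‖ / ‖x‖) := by
    rw [norm_sub_rev, norm_sub_sq (𝕜 := ℂ), hin, hn, hv, RCLike.re_to_complex, Complex.ofReal_re]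
    ring
  have h6 : 1 - η ^ 2 / 4 ≤ ‖(inner ℂ v x : ℂ)‖ / ‖x‖ := by
    rw [le_div_iff₀ hx0]
    exact h2
  refine lt_of_pow_lt_pow_left₀ 2 hη.le ?_
  rw [h5]
  nlinarith [sq_pos_of_pos hη]

theorem nv_nv {v v' x : EN N} (h : inner ℂ v x ≠ (0 : ℂ)) (h' : inner ℂ v' x ≠ (0 : ℂ)) :
    nv v (pr x) = (inner ℂ v (nv v' (pr x)) : ℂ)⁻¹ • nv v' (pr x) := by
  rw [nv_pr h, nv_pr h', inner_smul_right, smul_smul, mul_inv, inv_inv]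
  congr 1
  field_simp

/-- the change of the affine chart -/
theorem dd_nv (m : ℕ) {κ C : ℝ} (hκ : 0 < κ) (hC : 0 ≤ C) : ∃ r K ε : ℝ, 0 < r ∧ 0 < K ∧ 0 < ε ∧ ∀ v v' : EN N, ‖v‖ = 1 → ‖v'‖ = 1 → κ ≤ ‖(inner ℂ v v' : ℂ)‖ →
    ∀ (σ : ℕ → ℝ) (f : ℝ → MN N), Nod (m + 1) σ r → (∀ i ≤ m + 1, ∃ x : EN N, x ≠ 0 ∧ f (σ i) = pr x ∧ dist (pr x) (pr v') ≤ ε) →
      (∀ j ≤ m, ‖dd j σ fun s => nv v' (f s)‖ ≤ C) →
      (∀ j ≤ m, ‖dd j σ fun s => nv v (f s)‖ ≤ K) ∧ ‖dd (m + 1) σ fun s => nv v (f s)‖ ≤ K * (‖dd (m + 1) σ fun s => nv v' (f s)‖ + 1) := by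
  have hR : 0 < κ / 2 := by positivity
  obtain ⟨ε₁, hε₁, hne⟩ := nv_near (N := N) (η := κ / 2 / 4) (by positivity)
  obtain ⟨ε₂, hε₂, hin⟩ := inner_near (N := N) (η := 1 / 2) (by norm_num)
  obtain ⟨r₁, K₁, hr₁, hK₁, h₁⟩ := dd_comp m hR hC
  obtain ⟨r₂, K₂, hr₂, hK₂, h₂⟩ := dd_comp_le m hR hC
  refine ⟨min r₁ r₂, max (K₁ * (4 / κ)) (K₂ * (4 / κ)), min ε₁ ε₂, lt_min hr₁ hr₂, lt_max_of_lt_left (by positivity), lt_min hε₁ hε₂, ?_⟩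
  intro v v' hv hv' hκv σ f hσ hf hdd
  have hM : (0 : ℝ) ≤ 4 / κ := by positivity
  have hκ1 : κ ≤ 1 := by
    have h3 := norm_inner_le_norm (𝕜 := ℂ) v v'
    rw [hv, hv', one_mul] at h3
    exact hκv.trans h3
  have hlow : ∀ x ∈ ball v' (κ / 2), κ / 2 ≤ ‖(inner ℂ v x : ℂ)‖ := by
    intro x hx
    rw [mem_ball, dist_eq_norm] at hx
    have h3 : (inner ℂ v v' : ℂ) - inner ℂ v x = inner ℂ v (v' - x) := by rw [inner_sub_right]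
    have h4 : ‖(inner ℂ v v' : ℂ) - inner ℂ v x‖ ≤ κ / 2 := by
      rw [h3]
      refine (norm_inner_le_norm _ _).trans ?_
      rw [hv, one_mul, norm_sub_rev]
      exact hx.le
    have h5 := norm_sub_norm_le (inner ℂ v v' : ℂ) (inner ℂ v x)
    linarith
  have hne0 : ∀ x ∈ ball v' (κ / 2), (inner ℂ v x : ℂ) ≠ 0 := by
    intro x hx h3
    have h4 := hlow x hx
    rw [h3, norm_zero] at h4
    linarith
  have hΨd : DifferentiableOn ℂ (fun p : EN N × ℂ => (inner ℂ v p.1 : ℂ)⁻¹ • p.1) (ball v' (κ / 2) ×ˢ ball (0 : ℂ) (κ / 2)) := by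
    have h3 : DifferentiableOn ℂ (fun p : EN N × ℂ => (inner ℂ v p.1 : ℂ)) (ball v' (κ / 2) ×ˢ ball (0 : ℂ) (κ / 2)) :=
      (innerSL ℂ v).differentiable.comp_differentiableOn differentiable_fst.differentiableOn
    exact (h3.inv fun p hp => hne0 p.1 hp.1).smul differentiable_fst.differentiableOn
  have hΨM : ∀ p ∈ ball v' (κ / 2) ×ˢ ball (0 : ℂ) (κ / 2), ‖(fun p : EN N × ℂ => (inner ℂ v p.1 : ℂ)⁻¹ • p.1) p‖ ≤ 4 / κ := by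
    intro p hp
    have h3 := hlow p.1 hp.1
    have h4 : ‖p.1‖ ≤ 2 := by
      have h5 := hp.1
      rw [mem_ball, dist_eq_norm] at h5
      have h6 : ‖p.1‖ ≤ ‖p.1 - v'‖ + ‖v'‖ := by
        have := norm_add_le (p.1 - v') v'
        rwa [sub_add_cancel] at this
      rw [hv'] at h6
      linarith
    have h5 : ‖(inner ℂ v p.1 : ℂ)‖⁻¹ ≤ 2 / κ := by
      rw [inv_le_comm₀ (by linarith) (by positivity), inv_div]
      exact h3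
    simp only [norm_smul, norm_inv]
    calc ‖(inner ℂ v p.1 : ℂ)‖⁻¹ * ‖p.1‖ ≤ 2 / κ * 2 := mul_le_mul h5 h4 (norm_nonneg _) (by positivity)
      _ = 4 / κ := by ring
  have hball : ∀ i ≤ m + 1, nv v' (f (σ i)) ∈ ball v' (κ / 2 / 4) := by
    intro i hi
    obtain ⟨x, hx, hfx, hd⟩ := hf i hi
    rw [mem_ball, dist_eq_norm, hfx]
    exact hne v' hv' (pr x) (hd.trans (min_le_left _ _))
  have heq : ∀ i ≤ m + 1, nv v (f (σ i)) = (inner ℂ v (nv v' (f (σ i))) : ℂ)⁻¹ • nv v' (f (σ i)) := by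
    intro i hi
    have hb := hball i hi
    obtain ⟨x, hx, hfx, hd⟩ := hf i hi
    obtain ⟨h3, -, -⟩ := hin v' hv' x hx (hd.trans (min_le_right _ _))
    rw [hfx] at hb ⊢
    refine nv_nv ?_ h3
    have h4 := hne0 _ (ball_subset_ball (by linarith) hb)
    rw [nv_pr h3, inner_smul_right] at h4
    exact right_ne_zero_of_mul h4
  constructor
  · intro j hj
    have h3 := h₂ (EN N) (EN N) (fun p : EN N × ℂ => (inner ℂ v p.1 : ℂ)⁻¹ • p.1) v' (4 / κ) hM hΨd hΨM σ (fun s => nv v' (f s))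
      (hσ.mono (Nat.le_succ m) (min_le_right _ _)) (fun i hi => hball i (hi.trans (Nat.le_succ m))) hdd j hj
    rw [dd_congr (g := fun s : ℝ => (inner ℂ v (nv v' (f s)) : ℂ)⁻¹ • nv v' (f s)) fun i hi => heq i (hi.trans (hj.trans (Nat.le_succ m)))]
    exact h3.trans (le_max_right _ _)
  · have h3 := h₁ (EN N) (EN N) (fun p : EN N × ℂ => (inner ℂ v p.1 : ℂ)⁻¹ • p.1) v' (4 / κ) hM hΨd hΨM σ (fun s => nv v' (f s))
      (hσ.mono le_rfl (min_le_left _ _)) hball hdd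
    rw [dd_congr (g := fun s : ℝ => (inner ℂ v (nv v' (f s)) : ℂ)⁻¹ • nv v' (f s)) fun i hi => heq i hi]
    exact h3.trans (mul_le_mul_of_nonneg_right (le_max_left _ _) (by positivity))

end Pool.Agent.G3.R

end

section

/-!
# G3 A JN: the integrals separate the points

Sequences: otherwise `y n → y₀` in `Gd D δ`, `m n, m' n → m₀`, `m n ≠ m' n`, `‖II (α j)‖ / dist → 0` for all `j`.  In the chart `χ` of `Cst.cap` at `(y₀, m₀)`: some `α j` is not `0` at the point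
`p₀ = χ.q x₀` (`Sepa`, `det`: the value on arbitrary tangent vectors is a multiple of the value `tc` on the coordinate vectors), so `‖A p' - A p‖ ≥ c ‖p' - p‖` for `p, p'` near `p₀` in the same fibre
(mean value: `fderiv A · (Pi.single 0 1) = tc` is near `tc p₀ ≠ 0`), `‖p' - p‖ ≥ c dist m m'`.
-/

set_option autoImplicit false

open Topology Filter Metric

namespace Pool.Agent.G3.A

open Pool.Agent.H36.BP (EN fs wd)
open Pool.Agent.H14.PP (IsCone CurveAt Tan)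
open Pool.Agent.H62.EF (MN pr)
open Pool.Agent.AD (Vd Chart Charts IsGerm)
open Pool.Agent.TG
open Pool.Agent.G3.C (Gc)

variable {N k : ℕ} {X : Set (EN N)} {Λ : AddSubgroup (Vd (k + 1))} {u : EN N → Vd (k + 1)} {D B Bad : Set (Vd (k + 1))} {a : Vd (k + 1)}

/-- the distance of two lines -/
private theorem jn_wd {x y : EN N} : wd x y ≤ ‖x‖ * ‖y - x‖ := by
  have h1 := Pool.Agent.H36.BP.wd_inv x (y - x) 1 1
  rw [one_smul, one_smul, sub_add_cancel, norm_one, one_pow, one_mul] at h1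
  rw [h1]
  exact Pool.Agent.H36.BP.wd_le x (y - x)

private theorem jn_dist {x y : EN N} (hx : x ≠ 0) (hy : y ≠ 0) : dist (pr x) (pr y) ≤ 2 * (‖y - x‖ / ‖y‖) := by
  have hx0 : 0 < ‖x‖ := norm_pos_iff.2 hx
  have hy0 : 0 < ‖y‖ := norm_pos_iff.2 hy
  rw [Pool.Agent.H62.EF.dist_pr hx hy]
  have h1 : wd x y / (‖x‖ * ‖y‖) ≤ ‖y - x‖ / ‖y‖ := by
    rw [div_le_div_iff₀ (by positivity) hy0]
    have h2 := mul_le_mul_of_nonneg_right (jn_wd (x := x) (y := y)) hy0.le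
    linarith
  have hs2 : Real.sqrt 2 ≤ 2 := by
    rw [Real.sqrt_le_left (by norm_num)]
    norm_num
  have h0 : 0 ≤ wd x y / (‖x‖ * ‖y‖) := div_nonneg (Pool.Agent.H36.BP.wd_nonneg x y) (by positivity)
  calc Real.sqrt 2 * (wd x y / (‖x‖ * ‖y‖)) ≤ 2 * (wd x y / (‖x‖ * ‖y‖)) := mul_le_mul_of_nonneg_right hs2 h0
    _ ≤ 2 * (‖y - x‖ / ‖y‖) := by linarith

/-- the map from the chart to the projective space is Lipschitz near every point -/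
private theorem jn_lip (hX : IsCone X) (χ : Chart (k + 2) X) {p : Vd (k + 2)} (hp : p ∈ ball (0 : Vd (k + 2)) 2) :
    ∃ L : ℝ, 0 < L ∧ ∀ᶠ q : Vd (k + 2) × Vd (k + 2) in 𝓝 (p, p), dist (pr (χ.σ q.2)) (pr (χ.σ q.1)) ≤ L * ‖q.1 - q.2‖ := by
  have hX0 : ∀ w ∈ X, w ≠ 0 := fun w hw => ne_zero hX hw
  have hσ0 : 0 < ‖χ.σ p‖ := norm_pos_iff.2 (hX0 _ (χ.σ_mem p hp).1)
  have hstr := (χ.σ_an p hp).hasStrictFDerivAt
  have hlo := hstr.isLittleO.def (zero_lt_one' ℝ)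
  set T := fderiv ℂ χ.σ p with hT
  have hn : ∀ᶠ q in 𝓝 p, ‖χ.σ p‖ / 2 < ‖χ.σ q‖ := (χ.σ_an p hp).continuousAt.norm.eventually_const_lt (by linarith)
  have hb : ∀ᶠ q in 𝓝 p, q ∈ ball (0 : Vd (k + 2)) 2 := isOpen_ball.mem_nhds hp
  have e1 : ∀ᶠ q : Vd (k + 2) × Vd (k + 2) in 𝓝 (p, p), (‖χ.σ p‖ / 2 < ‖χ.σ q.1‖ ∧ q.1 ∈ ball (0 : Vd (k + 2)) 2) ∧ q.2 ∈ ball (0 : Vd (k + 2)) 2 := by
    rw [nhds_prod_eq]
    exact (hn.and hb).prod_mk hb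
  refine ⟨4 * (‖T‖ + 1) / ‖χ.σ p‖, by positivity, ?_⟩
  filter_upwards [hlo, e1] with q h1 h2
  obtain ⟨⟨h3, h4⟩, h5⟩ := h2
  have h6 : ‖χ.σ q.1 - χ.σ q.2‖ ≤ (‖T‖ + 1) * ‖q.1 - q.2‖ := by
    have h7 : χ.σ q.1 - χ.σ q.2 = (χ.σ q.1 - χ.σ q.2 - T (q.1 - q.2)) + T (q.1 - q.2) := by abel
    rw [h7]
    have h8 := norm_add_le (χ.σ q.1 - χ.σ q.2 - T (q.1 - q.2)) (T (q.1 - q.2))
    have h9 := T.le_opNorm (q.1 - q.2)
    linarith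
  have h7 := jn_dist (hX0 _ (χ.σ_mem _ h5).1) (hX0 _ (χ.σ_mem _ h4).1)
  refine h7.trans ?_
  have h8 : ‖χ.σ q.1 - χ.σ q.2‖ / ‖χ.σ q.1‖ ≤ (‖T‖ + 1) * ‖q.1 - q.2‖ / (‖χ.σ p‖ / 2) :=
    div_le_div₀ (by positivity) h6 (by positivity) h3.le
  calc 2 * (‖χ.σ q.1 - χ.σ q.2‖ / ‖χ.σ q.1‖) ≤ 2 * ((‖T‖ + 1) * ‖q.1 - q.2‖ / (‖χ.σ p‖ / 2)) := by linarith
    _ = 4 * (‖T‖ + 1) / ‖χ.σ p‖ * ‖q.1 - q.2‖ := by
      field_simp
      ring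

/-- limits along an ultrafilter -/
private theorem jn_limit (G : Geo X Λ u D B) {δ R : ℝ} (𝒰 : Ultrafilter ℕ) (y : ℕ → Vd (k + 1))
    (hy : ∀ n, y n ∈ Gd D δ) (hR : ∀ n, ‖y n‖ ≤ R) (m : ℕ → MN N) (hm : ∀ n, m n ∈ Fb X Λ u (y n)) :
    ∃ (w : Vd (k + 1)) (m₀ : MN N), w ∈ Gd D δ ∧ m₀ ∈ Fb X Λ u w ∧ Tendsto y 𝒰 (𝓝 w) ∧ Tendsto m 𝒰 (𝓝 m₀) := by
  have hK : IsCompact (closedBall (0 : Vd (k + 1)) R ∩ Gd D δ) := (isCompact_closedBall 0 R).inter_right (gd_closed D δ)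
  have hle : ((𝒰.map y : Ultrafilter (Vd (k + 1))) : Filter (Vd (k + 1))) ≤ 𝓟 (closedBall (0 : Vd (k + 1)) R ∩ Gd D δ) := by
    rw [le_principal_iff]
    exact Filter.mem_map.2 (Filter.univ_mem' fun n => ⟨by rw [mem_closedBall, dist_zero_right]; exact hR n, hy n⟩)
  obtain ⟨w, hw, hlim⟩ := hK.ultrafilter_le_nhds (𝒰.map y) hle
  have hle2 : ((𝒰.map m : Ultrafilter (MN N)) : Filter (MN N)) ≤ 𝓟 (pr '' X) := by
    rw [le_principal_iff]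
    refine Filter.mem_map.2 (Filter.univ_mem' fun n => ?_)
    obtain ⟨x, hx, hxm, -⟩ := hm n
    exact ⟨x, hx, hxm⟩
  obtain ⟨m₀, -, hlim2⟩ := (Pool.Agent.H62.EF.isCompact_pr G.cone).ultrafilter_le_nhds (𝒰.map m) hle2
  have hyw : Tendsto y 𝒰 (𝓝 w) := hlim
  have hmw : Tendsto m 𝒰 (𝓝 m₀) := hlim2
  exact ⟨w, m₀, hw.2, (fb_lim G.cone G.lat G.tor hmw hyw (Filter.Eventually.of_forall hm)).1, hyw, hmw⟩

private theorem jn_pr_sigma_q (χ : Chart (k + 2) X) {x : EN N} (hx : x ∈ X) (hU : x ∈ χ.U) : pr (χ.σ (χ.q x)) = pr x := by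
  obtain ⟨-, b, hb, h⟩ := χ.surj x hx hU
  conv_rhs => rw [h]
  rw [Pool.Agent.H62.EF.pr_smul _ hb]

theorem jn (G : Geo X Λ u D B) {J : ℕ} {α : Fin J → VForm X Λ u} (hs : Sepa D α) {δ ε ε₀ : ℝ} (hc : Cst X Λ u D δ ε ε₀) (R : ℝ) : ∃ ε₁ c : ℝ, 0 < ε₁ ∧ ε₁ ≤ ε₀ ∧ 0 < c ∧
    ∀ y ∈ Gd D δ, ‖y‖ ≤ R → ∀ m ∈ Fb X Λ u y, ∀ m' ∈ Fb X Λ u y, dist m m' ≤ ε₁ → ∃ j, c * dist m m' ≤ ‖II (α j) ε y m m'‖ := by
  by_contra hcon
  push Not at hcon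
  have hX := G.cone
  have hε := hc.ε_pos
  have hε₀ := hc.ε₀_pos
  have hr0 : 0 < 3 * ε := by linarith
  have hseq : ∀ n : ℕ, ∃ y ∈ Gd D δ, ‖y‖ ≤ R ∧ ∃ m ∈ Fb X Λ u y, ∃ m' ∈ Fb X Λ u y, dist m m' ≤ min ε₀ (1 / ((n : ℝ) + 1)) ∧
      ∀ j, ‖II (α j) ε y m m'‖ < 1 / ((n : ℝ) + 1) * dist m m' := fun n =>
    hcon (min ε₀ (1 / ((n : ℝ) + 1))) (1 / ((n : ℝ) + 1)) (lt_min hε₀ (by positivity)) (min_le_left _ _) (by positivity)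
  choose y hy hyR m hm m' hm' hd hII using hseq
  set 𝒰 : Ultrafilter ℕ := hyperfilter ℕ with h𝒰
  have hle : (𝒰 : Filter ℕ) ≤ atTop := Nat.hyperfilter_le_atTop
  obtain ⟨y₀, m₀, hy₀, hm₀, hyt, hmt⟩ := jn_limit G 𝒰 y hy hyR m hm
  have hsmall : ∀ s : ℝ, 0 < s → ∀ᶠ n : ℕ in (𝒰 : Filter ℕ), 1 / ((n : ℝ) + 1) < s := fun s hs =>
    hle (tendsto_one_div_add_atTop_nhds_zero_nat (𝕜 := ℝ) |>.eventually_lt_const hs)
  have hmt' : Tendsto m' 𝒰 (𝓝 m₀) := by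
    rw [tendsto_iff_dist_tendsto_zero] at hmt ⊢
    have h1 : Tendsto (fun n : ℕ => 1 / ((n : ℝ) + 1)) 𝒰 (𝓝 0) := (tendsto_one_div_add_atTop_nhds_zero_nat (𝕜 := ℝ)).mono_left hle
    have h2 : Tendsto (fun n : ℕ => 1 / ((n : ℝ) + 1) + dist (m n) m₀) 𝒰 (𝓝 0) := by simpa using h1.add hmt
    refine squeeze_zero (fun _ => dist_nonneg) (fun n => ?_) h2
    have h3 := dist_triangle (m' n) (m n) m₀
    have h4 := (hd n).trans (min_le_right _ _)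
    rw [dist_comm] at h4
    linarith
  obtain ⟨x₀, hx₀, hx₀m, hx₀u⟩ := hm₀
  obtain ⟨χ, c, ρ, hcap⟩ := hc.cap y₀ hy₀ m₀ ⟨x₀, hx₀, hx₀m, hx₀u⟩
  obtain ⟨hU, hq, hms⟩ := hcap.cap y₀ (mem_closedBall_self hr0.le) x₀ hx₀ hx₀u (by rw [hx₀m, dist_self]; exact hr0.le)
  set p := χ.q x₀ with hp
  have hp2 : p ∈ ball (0 : Vd (k + 2)) 2 := closedBall_subset_ball (by norm_num) hq
  obtain ⟨j, v, hv, hne⟩ := hs y₀ (gd_notMem hc.δ_pos hy₀) x₀ hx₀ hx₀u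
  have htc : tc (α j) χ (ms c ρ) p ≠ 0 := by
    intro h0
    apply hne
    rw [toFun_eq hX G.tor (α j) χ hx₀ hU hx₀u (υ := ms c ρ) hms v hv, ← hp, h0, mul_zero]
  obtain ⟨A, hA⟩ := exists_prim (α j) χ hcap.str
  have hD : fderiv ℂ A p (Pi.single 0 1) ≠ 0 := by rw [hA.der p hp2]; exact htc
  have hDpos : 0 < ‖fderiv ℂ A p (Pi.single 0 1)‖ := norm_pos_iff.2 hD
  have hstr := (hA.an p hp2).hasStrictFDerivAt
  have hlo := hstr.isLittleO.def (half_pos hDpos)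
  obtain ⟨L, hL, hlip⟩ := jn_lip hX χ hp2
  choose z hz using hm
  choose z' hz' using hm'
  have t1 : Tendsto (fun n => χ.q (z n)) 𝒰 (𝓝 p) := by
    refine tendsto_q χ hU (ne_zero hX hx₀) (Eventually.of_forall fun n => ne_zero hX (hz n).1) ?_
    rw [hx₀m]
    exact hmt.congr fun n => (hz n).2.1.symm
  have t2 : Tendsto (fun n => χ.q (z' n)) 𝒰 (𝓝 p) := by
    refine tendsto_q χ hU (ne_zero hX hx₀) (Eventually.of_forall fun n => ne_zero hX (hz' n).1) ?_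
    rw [hx₀m]
    exact hmt'.congr fun n => (hz' n).2.1.symm
  have t3 : Tendsto (fun n => (χ.q (z' n), χ.q (z n))) 𝒰 (𝓝 (p, p)) := t2.prodMk_nhds t1
  have hρ0 : 0 < ρ := hcap.str.pos
  have hρk : 0 < ρ ^ (k + 1) := pow_pos hρ0 _
  have hκ : 0 < ‖fderiv ℂ A p (Pi.single 0 1)‖ / 2 / (L * ρ ^ (k + 1)) := by positivity
  have e1 := t3.eventually hlo
  have e1' := t3.eventually hlip
  have e2 : ∀ᶠ n in (𝒰 : Filter ℕ), dist (m n) m₀ < ε := hmt.eventually (ball_mem_nhds _ hε)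
  have e3 : ∀ᶠ n in (𝒰 : Filter ℕ), dist (m' n) m₀ < ε := hmt'.eventually (ball_mem_nhds _ hε)
  have e4 : ∀ᶠ n in (𝒰 : Filter ℕ), y n ∈ closedBall y₀ (3 * ε) := hyt.eventually (closedBall_mem_nhds _ hr0)
  obtain ⟨n, h0, hbd, hlb, h2, h3, h4⟩ := ((hsmall _ hκ).and (e1.and (e1'.and (e2.and (e3.and e4))))).exists
  obtain ⟨hz1, hz2, hz3⟩ := hz n
  obtain ⟨hz4, hz5, hz6⟩ := hz' n
  have hd3 : dist (m n) (m' n) ≤ ε₀ := (hd n).trans (min_le_left _ _)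
  have hvr := hc.rel (y n) (hy n) _ ⟨z n, hz n⟩ _ ⟨z' n, hz' n⟩ hd3 (α j)
  have hIe := II_eq hX G.tor G.lat hvr hcap hA h4 (by linarith : dist (m n) m₀ + ε ≤ 3 * ε) hz1 hz4 hz2 hz5
  obtain ⟨hU1, -, hms1⟩ := hcap.cap (y n) h4 (z n) hz1 hz3 (by rw [hz2]; linarith)
  obtain ⟨hU2, -, hms2⟩ := hcap.cap (y n) h4 (z' n) hz4 hz6 (by rw [hz5]; linarith)
  have htl : tl (χ.q (z' n) - χ.q (z n)) = 0 := by
    have h5 : (ρ : ℂ) • tl (χ.q (z' n)) = (ρ : ℂ) • tl (χ.q (z n)) := by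
      have h6 := hms2.trans hms1.symm
      unfold ms at h6
      exact add_left_cancel h6
    have hρ1 : (ρ : ℂ) ≠ 0 := by exact_mod_cast hρ0.ne'
    rw [tl_sub, smul_right_injective _ hρ1 h5, sub_self]
  have hLin : fderiv ℂ A p (χ.q (z' n) - χ.q (z n)) = (χ.q (z' n) - χ.q (z n)) 0 • fderiv ℂ A p (Pi.single 0 1) := lin_vert _ htl
  have hve := vert_eq htl
  have hnorm : ‖χ.q (z' n) - χ.q (z n)‖ = ‖(χ.q (z' n) - χ.q (z n)) 0‖ := by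
    conv_lhs => rw [hve]
    rw [norm_smul]
    have h5 : ‖(Pi.single 0 1 : Vd (k + 2))‖ = 1 := by
      rw [Pi.norm_single]
      exact norm_one
    rw [h5, mul_one]
  simp only at hbd hlb
  rw [jn_pr_sigma_q χ hz1 hU1, jn_pr_sigma_q χ hz4 hU2, hz2, hz5] at hlb
  -- the lower bound for the difference of the values of `A`
  have hlow : ‖fderiv ℂ A p (Pi.single 0 1)‖ / 2 * ‖χ.q (z' n) - χ.q (z n)‖ ≤ ‖A (χ.q (z' n)) - A (χ.q (z n))‖ := by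
    have h5 : fderiv ℂ A p (χ.q (z' n) - χ.q (z n)) =
        (A (χ.q (z' n)) - A (χ.q (z n))) - (A (χ.q (z' n)) - A (χ.q (z n)) - fderiv ℂ A p (χ.q (z' n) - χ.q (z n))) := by abel
    have h6 : ‖fderiv ℂ A p (χ.q (z' n) - χ.q (z n))‖ = ‖χ.q (z' n) - χ.q (z n)‖ * ‖fderiv ℂ A p (Pi.single 0 1)‖ := by
      rw [hLin, norm_smul, hnorm]
    have h7 := norm_sub_le (A (χ.q (z' n)) - A (χ.q (z n))) (A (χ.q (z' n)) - A (χ.q (z n)) - fderiv ℂ A p (χ.q (z' n) - χ.q (z n)))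
    rw [← h5, h6] at h7
    linarith
  have hI := hII n j
  rw [hIe, norm_div, norm_pow, Complex.norm_real, Real.norm_of_nonneg hρ0.le, div_lt_iff₀ hρk] at hI
  have hdpos : 0 < dist (m n) (m' n) := by
    rcases (dist_nonneg (x := m n) (y := m' n)).lt_or_eq with h | h
    · exact h
    · rw [← h, mul_zero, zero_mul] at hI
      exact absurd hI (not_lt.2 (norm_nonneg _))
  have h8 : ‖fderiv ℂ A p (Pi.single 0 1)‖ / 2 * (dist (m n) (m' n) / L) ≤ ‖A (χ.q (z' n)) - A (χ.q (z n))‖ := by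
    refine le_trans (mul_le_mul_of_nonneg_left ?_ (by positivity)) hlow
    rw [div_le_iff₀ hL, mul_comm]
    exact hlb
  have h9 : ‖fderiv ℂ A p (Pi.single 0 1)‖ / 2 * (dist (m n) (m' n) / L) =
      ‖fderiv ℂ A p (Pi.single 0 1)‖ / 2 / (L * ρ ^ (k + 1)) * dist (m n) (m' n) * ρ ^ (k + 1) := by
    field_simp
  rw [h9] at h8
  have h10 := lt_of_le_of_lt h8 hI
  have h11 : ‖fderiv ℂ A p (Pi.single 0 1)‖ / 2 / (L * ρ ^ (k + 1)) < 1 / ((n : ℝ) + 1) := by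
    have h12 := lt_of_mul_lt_mul_right h10 hρk.le
    exact lt_of_mul_lt_mul_right h12 hdpos.le
  linarith

end Pool.Agent.G3.A

end
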