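import Pool.Agent.H94.G5T.H62.EF.PrA
import Pool.Agent.H94.G5T.M07
import Pool.Agent.H94.G5T.M08
import Pool.Agent.H94.G5T.M09

/-! The parts of this file: TG.ChN, TG.Tc_1, TG.Prm_1. -/

section

/-!
# TG ChN: small charts

`exists_small_chart`: `EL/ChN` with `Vd d`.  `exists_str_chart`: from `IsStr` as `exists_nc_chart` there.
-/

set_option autoImplicit false

open Topology Filter Metric

namespace Pool.Agent.TG

open Pool.Agent.H36.BP (EN fs wd)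
open Pool.Agent.H14.PP (IsCone CurveAt Tan)
open Pool.Agent.H62.EF (MN pr)
open Pool.Agent.AD (Vd Chart Charts IsGerm)

variable {N k d : ℕ}

section
variable {X : Set (EN N)}

theorem exists_small_chart (hX : IsCone X) {σ : Vd d → EN N} {τ : EN N → Vd d} (h : IsGerm X σ τ) {η : ℝ} (hη : 0 < η) :
    ∃ (χ : Chart d X) (r : ℝ), 0 < r ∧ σ 0 ∈ χ.U ∧ χ.q (σ 0) = 0 ∧ ∀ p ∈ ball (0 : Vd d) 2, ‖(r : ℂ) • p‖ < η ∧
      dist (pr (χ.σ p)) (pr (σ 0)) < η ∧ ∃ a : ℂ, a ≠ 0 ∧ χ.σ p = a • σ ((r : ℂ) • p) := by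
  have hσ0 : σ 0 ≠ 0 := by
    intro h0
    have h1 := h.σ_mem.self_of_nhds
    rw [h0] at h1
    exact hX.zero_notMem h1
  -- the linear form
  obtain ⟨ℓ, hℓ⟩ : ∃ ℓ : EN N →L[ℂ] ℂ, ℓ (σ 0) = 1 := by
    have hne : inner ℂ (σ 0) (σ 0) ≠ (0 : ℂ) := inner_self_ne_zero.mpr hσ0
    refine ⟨(inner ℂ (σ 0) (σ 0) : ℂ)⁻¹ • innerSL ℂ (σ 0), ?_⟩
    simp only [_root_.smul_apply, innerSL_apply_apply, smul_eq_mul]
    exact inv_mul_cancel₀ hne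
  -- the normalised parametrisation
  have hℓσ : ContinuousAt (fun p => ℓ (σ p)) 0 := ℓ.continuous.continuousAt.comp h.σ_an.continuousAt
  have hℓne : ∀ᶠ p in 𝓝 (0 : Vd d), ℓ (σ p) ≠ 0 := hℓσ.eventually_ne (by rw [hℓ]; exact one_ne_zero)
  have hinvσ : ∀ᶠ p in 𝓝 (0 : Vd d), τ ((ℓ (σ p))⁻¹ • σ p) = τ (σ p) := by
    have hc : Tendsto (fun p => (σ p, (ℓ (σ p))⁻¹)) (𝓝 (0 : Vd d)) (𝓝 (σ 0, (1 : ℂ))) := by
      have h1 : Tendsto (fun p => (ℓ (σ p))⁻¹) (𝓝 (0 : Vd d)) (𝓝 (ℓ (σ 0))⁻¹) := hℓσ.inv₀ (by rw [hℓ]; exact one_ne_zero)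
      rw [hℓ, inv_one] at h1
      exact h.σ_an.continuousAt.prodMk_nhds h1
    exact hc.eventually h.inv
  -- the neighbourhood W₀
  have hW : ∀ᶠ y in 𝓝 (σ 0), AnalyticAt ℂ τ y ∧ (y ∈ X → ∃ c : ℂ, c ≠ 0 ∧ y = c • σ (τ y)) := h.τ_an.eventually_analyticAt.and h.right
  obtain ⟨W₀, hW₀s, hW₀o, hW₀m⟩ := _root_.eventually_nhds_iff.mp hW
  have hσ₁ : Tendsto (fun p => (ℓ (σ p))⁻¹ • σ p) (𝓝 (0 : Vd d)) (𝓝 (σ 0)) := by
    have h1 : Tendsto (fun p => (ℓ (σ p))⁻¹) (𝓝 (0 : Vd d)) (𝓝 (ℓ (σ 0))⁻¹) := hℓσ.inv₀ (by rw [hℓ]; exact one_ne_zero)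
    have h2 := h1.smul h.σ_an.continuousAt
    rwa [hℓ, inv_one, one_smul] at h2
  have hσ₁W : ∀ᶠ p in 𝓝 (0 : Vd d), (ℓ (σ p))⁻¹ • σ p ∈ W₀ := hσ₁.eventually (hW₀o.mem_nhds hW₀m)
  have hprσ : ∀ᶠ p in 𝓝 (0 : Vd d), dist (pr (σ p)) (pr (σ 0)) < η := by
    have h1 : ContinuousAt (fun p => pr (σ p)) 0 :=
      ContinuousAt.comp (f := σ) (Pool.Agent.H62.EF.continuousAt_pr hσ0) h.σ_an.continuousAt
    exact h1.eventually (Metric.ball_mem_nhds _ hη)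
  obtain ⟨R₀, hR₀, hall₀⟩ := Metric.eventually_nhds_iff_ball.mp
    ((((((h.σ_an.eventually_analyticAt.and h.σ_mem).and h.left).and hℓne).and hinvσ).and hσ₁W).and hprσ)
  obtain ⟨R, hR, hRη, hall, hprb⟩ : ∃ R : ℝ, 0 < R ∧ R ≤ η ∧ (∀ p ∈ ball (0 : Vd d) R,
      (((((AnalyticAt ℂ σ p ∧ σ p ∈ X) ∧ τ (σ p) = p) ∧ ℓ (σ p) ≠ 0) ∧ τ ((ℓ (σ p))⁻¹ • σ p) = τ (σ p)) ∧
        (ℓ (σ p))⁻¹ • σ p ∈ W₀)) ∧ ∀ p ∈ ball (0 : Vd d) R, dist (pr (σ p)) (pr (σ 0)) < η :=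
    ⟨min R₀ η, lt_min hR₀ hη, min_le_right _ _, fun p hp => (hall₀ p (ball_subset_ball (min_le_left _ _) hp)).1,
      fun p hp => (hall₀ p (ball_subset_ball (min_le_left _ _) hp)).2⟩
  set r : ℝ := R / 2 with hr
  have hr0 : 0 < r := by rw [hr]; positivity
  have hrC : (r : ℂ) ≠ 0 := by exact_mod_cast hr0.ne'
  have hball : ∀ p ∈ ball (0 : Vd d) 2, (r : ℂ) • p ∈ ball (0 : Vd d) R := by
    intro p hp
    rw [mem_ball_zero_iff] at hp ⊢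
    rw [norm_smul, Complex.norm_real, Real.norm_of_nonneg hr0.le, hr]
    nlinarith
  have hτσ : ∀ p ∈ ball (0 : Vd d) R, τ ((ℓ (σ p))⁻¹ • σ p) = p := by
    intro p hp
    rw [(hall p hp).1.2, (hall p hp).1.1.1.2]
  set U : Set (EN N) := {x | ℓ x ≠ 0 ∧ (ℓ x)⁻¹ • x ∈ W₀ ∧ ‖τ ((ℓ x)⁻¹ • x)‖ < R} with hU
  have hmaps : ∀ x : EN N, ℓ x ≠ 0 → ∀ c : ℂ, c ≠ 0 → (ℓ (c • x))⁻¹ • (c • x) = (ℓ x)⁻¹ • x := by
    intro x hx c hc
    rw [map_smul, smul_eq_mul, smul_smul, mul_inv, mul_comm c⁻¹, mul_assoc, inv_mul_cancel₀ hc, mul_one]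
  have han1 : ∀ x : EN N, ℓ x ≠ 0 → AnalyticAt ℂ (fun y : EN N => (ℓ y)⁻¹ • y) x := by
    intro x hx
    exact ((ℓ.analyticAt x).inv hx).smul analyticAt_id
  have hanq : ∀ x ∈ U, AnalyticAt ℂ (fun y : EN N => τ ((ℓ y)⁻¹ • y)) x := by
    intro x hx
    exact AnalyticAt.fun_comp (hW₀s _ hx.2.1).1 (han1 x hx.1)
  have hUopen : IsOpen U := by
    rw [isOpen_iff_mem_nhds]
    intro x hx
    have h1 : ∀ᶠ y in 𝓝 x, ℓ y ≠ 0 := ℓ.continuous.continuousAt.eventually_ne hx.1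
    have h2 : ∀ᶠ y in 𝓝 x, (ℓ y)⁻¹ • y ∈ W₀ := (han1 x hx.1).continuousAt.eventually (hW₀o.mem_nhds hx.2.1)
    have h3 : ∀ᶠ y in 𝓝 x, ‖τ ((ℓ y)⁻¹ • y)‖ < R := (hanq x hx).continuousAt.norm.eventually_lt_const hx.2.2
    filter_upwards [h1, h2, h3] with y h4 h5 h6
    exact ⟨h4, h5, h6⟩
  let χ : Chart d X :=
    { σ := fun p => (ℓ (σ ((r : ℂ) • p)))⁻¹ • σ ((r : ℂ) • p)
      U := U
      q := fun x => (r : ℂ)⁻¹ • τ ((ℓ x)⁻¹ • x)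
      isOpen_U := hUopen
      smul_U := by
        rintro x ⟨h1, h2, h3⟩ c hc
        refine ⟨?_, ?_, ?_⟩
        · rw [map_smul, smul_eq_mul]
          exact mul_ne_zero hc h1
        · rw [hmaps x h1 c hc]; exact h2
        · rw [hmaps x h1 c hc]; exact h3
      σ_an := by
        intro p hp
        have h1 := (hall _ (hball p hp)).1.1.1.1.1
        have h2 : AnalyticAt ℂ (fun p : Vd d => σ ((r : ℂ) • p)) p :=
          AnalyticAt.fun_comp h1 (analyticAt_const.fun_smul analyticAt_id)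
        have h3 : AnalyticAt ℂ (fun p : Vd d => ℓ (σ ((r : ℂ) • p))) p := (ℓ.analyticAt _).fun_comp h2
        exact (h3.inv (hall _ (hball p hp)).1.1.2).smul h2
      q_an := by
        intro x hx
        exact analyticAt_const.fun_smul (hanq x hx)
      q_smul := by
        rintro x ⟨h1, h2, h3⟩ c hc
        show (r : ℂ)⁻¹ • τ ((ℓ (c • x))⁻¹ • (c • x)) = _
        rw [hmaps x h1 c hc]
      σ_mem := by
        intro p hp
        have hb := hball p hp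
        have hh := hall _ hb
        have hne := hh.1.1.2
        have h1 : ℓ ((ℓ (σ ((r : ℂ) • p)))⁻¹ • σ ((r : ℂ) • p)) = 1 := by
          rw [map_smul, smul_eq_mul, inv_mul_cancel₀ hne]
        have h2 : τ ((ℓ (σ ((r : ℂ) • p)))⁻¹ • σ ((r : ℂ) • p)) = (r : ℂ) • p := hτσ _ hb
        refine ⟨hX.smul_mem _ hh.1.1.1.1.2 _ (inv_ne_zero hne), ⟨?_, ?_, ?_⟩, ?_⟩
        · rw [h1]; exact one_ne_zero
        · rw [h1, inv_one, one_smul]; exact hh.2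
        · rw [h1, inv_one, one_smul, h2]
          exact mem_ball_zero_iff.mp hb
        · show (r : ℂ)⁻¹ • τ ((ℓ ((ℓ (σ ((r : ℂ) • p)))⁻¹ • σ ((r : ℂ) • p)))⁻¹ • ((ℓ (σ ((r : ℂ) • p)))⁻¹ • σ ((r : ℂ) • p))) = p
          rw [h1, inv_one, one_smul, h2, smul_smul, inv_mul_cancel₀ hrC, one_smul]
      surj := by
        rintro x hxX ⟨h1, h2, h3⟩
        have hyX : (ℓ x)⁻¹ • x ∈ X := hX.smul_mem _ hxX _ (inv_ne_zero h1)
        obtain ⟨c, hc0, hc⟩ := (hW₀s _ h2).2 hyX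
        have hτb : τ ((ℓ x)⁻¹ • x) ∈ ball (0 : Vd d) R := mem_ball_zero_iff.mpr h3
        have hrq : (r : ℂ) • ((r : ℂ)⁻¹ • τ ((ℓ x)⁻¹ • x)) = τ ((ℓ x)⁻¹ • x) := by
          rw [smul_smul, mul_inv_cancel₀ hrC, one_smul]
        refine ⟨?_, ?_⟩
        · show (r : ℂ)⁻¹ • τ ((ℓ x)⁻¹ • x) ∈ ball (0 : Vd d) 2
          rw [mem_ball_zero_iff, norm_smul, norm_inv, Complex.norm_real, Real.norm_of_nonneg hr0.le, inv_mul_lt_iff₀ hr0, hr]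
          linarith
        · refine ⟨ℓ x * c * ℓ (σ (τ ((ℓ x)⁻¹ • x))), ?_, ?_⟩
          · exact mul_ne_zero (mul_ne_zero h1 hc0) (hall _ hτb).1.1.2
          · show x = (ℓ x * c * ℓ (σ (τ ((ℓ x)⁻¹ • x)))) •
              ((ℓ (σ ((r : ℂ) • ((r : ℂ)⁻¹ • τ ((ℓ x)⁻¹ • x)))))⁻¹ • σ ((r : ℂ) • ((r : ℂ)⁻¹ • τ ((ℓ x)⁻¹ • x))))
            rw [hrq, smul_smul, mul_assoc, mul_inv_cancel₀ (hall _ hτb).1.1.2, mul_one, mul_smul, ← hc, smul_smul, mul_inv_cancel₀ h1, one_smul] }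
  have h0b : (0 : Vd d) ∈ ball (0 : Vd d) R := mem_ball_self hR
  have hτ0 : τ (σ 0) = 0 := (hall 0 h0b).1.1.1.2
  refine ⟨χ, r, hr0, ⟨?_, ?_, ?_⟩, ?_, ?_⟩
  · rw [hℓ]; exact one_ne_zero
  · rw [hℓ, inv_one, one_smul]; exact hW₀m
  · rw [hℓ, inv_one, one_smul, hτ0, norm_zero]; exact hR
  · show (r : ℂ)⁻¹ • τ ((ℓ (σ 0))⁻¹ • σ 0) = 0
    rw [hℓ, inv_one, one_smul, hτ0, smul_zero]
  · intro p hp
    have hb := hball p hp
    have hne := (hall _ hb).1.1.2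
    refine ⟨(mem_ball_zero_iff.mp hb).trans_le hRη, ?_, (ℓ (σ ((r : ℂ) • p)))⁻¹, inv_ne_zero hne, rfl⟩
    show dist (pr ((ℓ (σ ((r : ℂ) • p)))⁻¹ • σ ((r : ℂ) • p))) (pr (σ 0)) < η
    rw [Pool.Agent.H62.EF.pr_smul _ (inv_ne_zero hne)]
    exact hprb _ hb

end

variable {X : Set (EN N)} {Λ : AddSubgroup (Vd (k + 1))} {u : EN N → Vd (k + 1)}

theorem norm_tl_le (p : Vd (k + 2)) : ‖tl p‖ ≤ ‖p‖ := by
  rw [pi_norm_le_iff_of_nonneg (norm_nonneg p)]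
  intro i
  exact norm_le_pi_norm p i.succ

theorem exists_str_chart (hX : IsCone X) (hu : TMap X Λ u) {x : EN N} {y : Vd (k + 1)} (h : IsStr X Λ u x y) {η : ℝ} (hη : 0 < η) :
    ∃ (χ : Chart (k + 2) X) (ρ : ℝ), x ∈ χ.U ∧ χ.q x = 0 ∧ Str Λ u χ y ρ ∧
      ∀ p ∈ ball (0 : Vd (k + 2)) 2, dist (pr (χ.σ p)) (pr x) < η ∧ ‖ms y ρ p - y‖ < η := by
  obtain ⟨σ, τ, hG, hσ0, hσl⟩ := h
  obtain ⟨η', hη', hall⟩ := Metric.eventually_nhds_iff_ball.1 (hG.σ_mem.and hσl)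
  obtain ⟨χ, r, hr, hσU, hq0, hχ⟩ := exists_small_chart hX hG (lt_min hη hη')
  rw [hσ0] at hσU hq0
  have htl : ∀ p : Vd (k + 2), tl ((r : ℂ) • p) = (r : ℂ) • tl p := fun p => rfl
  refine ⟨χ, r, hσU, hq0, ⟨hr, fun p hp => ?_⟩, fun p hp => ⟨?_, ?_⟩⟩
  · obtain ⟨h1, -, b, hb, h3⟩ := hχ p hp
    have h4 := hall ((r : ℂ) • p) (mem_ball_zero_iff.2 (h1.trans_le (min_le_right _ _)))
    have h5 := Λ.add_mem (hu.smul _ h4.1 b hb) h4.2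
    have h6 : u (b • σ ((r : ℂ) • p)) - u (σ ((r : ℂ) • p)) + (u (σ ((r : ℂ) • p)) - (y + tl ((r : ℂ) • p))) =
        u (χ.σ p) - ms y r p := by
      rw [h3, ms, htl]
      abel
    rwa [h6] at h5
  · have h2 := (hχ p hp).2.1
    rw [hσ0] at h2
    exact h2.trans_le (min_le_left _ _)
  · rw [ms, add_sub_cancel_left, ← htl]
    exact (norm_tl_le _).trans_lt ((hχ p hp).1.trans_le (min_le_left _ _))

end Pool.Agent.TG

end

section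

/-!
# TG Tc: coefficients of forms in charts

Port of `Pool/Agent/H62/EL/Tc.lean` (copy it and change `ℂ × ℂ` to `Vd (k + 2)`).  `tc_an`: `VForm.analytic` with `φ = χ.σ`.

`tan_decomp`: a curve `γ` in `X` near `x ∈ X ∩ χ.U` is `c ξ • χ.σ (χ.q (γ ξ))` with `c` analytic (`AD.Chart.curve`); differentiate at `0`.

`toFun_eq`: by `tan_decomp` `x = c • χ.σ p`, `p = χ.q x`, `v i = c • (Σ_j (fderiv χ.q x (v i)) j • ∂_j χ.σ p) + a_i • x`.  `add_smul`, `scale`, `det`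
(the vectors `∂_j χ.σ p = fderiv ℂ χ.σ p (Pi.single j 1)` are tangent: `tan_sigma`), and
`α.toFun y (c • x') (fun i => c • v' i) = α.toFun y x' v'` with `u x' - y ∈ Λ` (`TMap.smul`).
`tc_trans`: `toFun_eq` for `x = χ'.σ p`, `v i = fderiv ℂ χ'.σ p (Pi.single i 1)`; `fderiv χ.q x (v i) = fderiv (χ.q ∘ χ'.σ) p (Pi.single i 1)` (chain rule);
`ContinuousLinearMap.det` of a map of `Fin n → ℂ` is the determinant of its matrix (`LinearMap.det_toLin'`, `LinearMap.toMatrix'_apply`; transpose: `Matrix.det_transpose`).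
`zr_iff`: `→`: if `x ∈ X`, `pr x = pr (χ.σ p)`, then `x = a • χ.σ p` (`pr_eq_iff`); use `scale`.  `←`: `x = χ.σ p` and `toFun_eq`.
-/

set_option autoImplicit false

open Topology Filter Metric

namespace Pool.Agent.TG

open Pool.Agent.H36.BP (EN fs wd)
open Pool.Agent.H14.PP (IsCone CurveAt Tan)
open Pool.Agent.H62.EF (MN pr)
open Pool.Agent.AD (Vd Chart Charts IsGerm)

variable {N k : ℕ}

variable {X : Set (EN N)} {Λ : AddSubgroup (Vd (k + 1))} {u : EN N → Vd (k + 1)}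

theorem tan_decomp {d : ℕ} (hX : IsCone X) (χ : Chart d X) {x v : EN N} (hx : x ∈ X) (hU : x ∈ χ.U) (hv : Tan X x v) :
    ∃ c a : ℂ, c ≠ 0 ∧ x = c • χ.σ (χ.q x) ∧ v = c • fderiv ℂ χ.σ (χ.q x) (fderiv ℂ χ.q x v) + a • x := by
  obtain ⟨F, hF, hF0, hFd⟩ := hv
  have hU' : F 0 ∈ χ.U := by rw [hF0]; exact hU
  obtain ⟨h1, h1d, c, hc, hc0, hev⟩ := χ.curve hX hF hU'
  have hx0 : x = c 0 • χ.σ (χ.q x) := by
    have h2 := hev.self_of_nhds.2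
    rwa [hF0] at h2
  have hb : χ.q (F 0) ∈ ball (0 : Vd d) 2 := hev.self_of_nhds.1
  refine ⟨c 0, deriv c 0 * (c 0)⁻¹, hc0, hx0, ?_⟩
  have hσ : HasFDerivAt χ.σ (fderiv ℂ χ.σ (χ.q (F 0))) (χ.q (F 0)) := (χ.σ_an _ hb).differentiableAt.hasFDerivAt
  have hD1 : HasDerivAt (fun z => χ.σ (χ.q (F z))) (fderiv ℂ χ.σ (χ.q (F 0)) (deriv (fun z => χ.q (F z)) 0)) 0 :=
    hσ.comp_hasDerivAt (0 : ℂ) h1.differentiableAt.hasDerivAt
  have hD2 : HasDerivAt (fun z => c z • χ.σ (χ.q (F z)))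
      (c 0 • fderiv ℂ χ.σ (χ.q (F 0)) (deriv (fun z => χ.q (F z)) 0) + deriv c 0 • χ.σ (χ.q (F 0))) 0 :=
    hc.differentiableAt.hasDerivAt.smul hD1
  have hD3 : HasDerivAt F (c 0 • fderiv ℂ χ.σ (χ.q (F 0)) (deriv (fun z => χ.q (F z)) 0) + deriv c 0 • χ.σ (χ.q (F 0))) 0 :=
    hD2.congr_of_eventuallyEq (hev.mono fun z hz => hz.2)
  have h5 : v = c 0 • fderiv ℂ χ.σ (χ.q x) (fderiv ℂ χ.q x v) + deriv c 0 • χ.σ (χ.q x) := by
    rw [h1d, hF0, hFd] at hD3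
    rw [← hFd]
    exact hD3.deriv.trans (by rw [hFd])
  have h6 : deriv c 0 • χ.σ (χ.q x) = (deriv c 0 * (c 0)⁻¹) • x := by
    conv_rhs => rw [hx0]
    rw [smul_smul, mul_assoc, inv_mul_cancel₀ hc0, mul_one]
  rw [h6] at h5
  exact h5

theorem toFun_eq (hX : IsCone X) (hu : TMap X Λ u) (α : VForm X Λ u) (χ : Chart (k + 2) X) {x : EN N} (hx : x ∈ X) (hU : x ∈ χ.U)
    {y : Vd (k + 1)} (hy : u x - y ∈ Λ) {υ : Vd (k + 2) → Vd (k + 1)} (he : υ (χ.q x) = y) (v : Fin (k + 2) → EN N)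
    (hv : ∀ i, Tan X x (v i)) :
    α.toFun y x v = (Matrix.of fun i j => fderiv ℂ χ.q x (v i) j).det * tc α χ υ (χ.q x) := by
  obtain ⟨hb, c, hc, hcx⟩ := χ.surj x hx hU
  have hσ0 : χ.σ (χ.q x) ≠ 0 := χ.sigma_ne_zero hX hb
  have hσX : χ.σ (χ.q x) ∈ X := (χ.σ_mem _ hb).1
  have key : ∀ i, ∃ a : ℂ, v i = c • fderiv ℂ χ.σ (χ.q x) (fderiv ℂ χ.q x (v i)) + a • x := by
    intro i
    obtain ⟨c', a, hc', hx', hvi⟩ := tan_decomp hX χ hx hU (hv i)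
    have h1 : (c' - c) • χ.σ (χ.q x) = 0 := by
      rw [sub_smul, ← hx', ← hcx, sub_self]
    have h2 : c' = c := sub_eq_zero.1 ((smul_eq_zero.1 h1).resolve_right hσ0)
    rw [h2] at hvi
    exact ⟨a, hvi⟩
  choose a ha using key
  set A : Fin (k + 2) → Vd (k + 2) := fun i => fderiv ℂ χ.q x (v i) with hA
  have htA : ∀ i, Tan X (χ.σ (χ.q x)) (fderiv ℂ χ.σ (χ.q x) (A i)) := fun i => tan_sigma χ hb (A i)
  have hl2 : u (χ.σ (χ.q x)) - y ∈ Λ := by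
    have h1 : u (c • χ.σ (χ.q x)) - u (χ.σ (χ.q x)) ∈ Λ := hu.smul _ hσX c hc
    rw [← hcx] at h1
    have h2 := Λ.sub_mem hy h1
    have e : u x - y - (u x - u (χ.σ (χ.q x))) = u (χ.σ (χ.q x)) - y := by abel
    rwa [e] at h2
  have hcX : c • χ.σ (χ.q x) ∈ X := hX.smul_mem _ hσX c hc
  have hl1 : u (c • χ.σ (χ.q x)) - y ∈ Λ := smul_mem_lat hu hσX hl2 hc
  have h1 := α.add_smul y (c • χ.σ (χ.q x)) hcX hl1 (fun i => c • fderiv ℂ χ.σ (χ.q x) (A i)) (fun i => Tc_tan_smul hX (htA i) hc) a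
  have h2 := α.scale y (χ.σ (χ.q x)) hσX hl2 (fun i => fderiv ℂ χ.σ (χ.q x) (A i)) htA c hc
  have h3 := Tc_val α χ hb (y := y) hl2 A
  have h4 : α.toFun y x v = α.toFun y (c • χ.σ (χ.q x)) (fun i => c • fderiv ℂ χ.σ (χ.q x) (A i)) := by
    rw [← h1]
    rw [show v = fun i => c • fderiv ℂ χ.σ (χ.q x) (A i) + a i • x from funext ha]
    exact congrArg (fun z => α.toFun y z fun i => c • fderiv ℂ χ.σ (χ.q x) (A i) + a i • z) hcx
  rw [h4, h2, h3]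
  congr 1
  show α.toFun y _ _ = α.toFun (υ (χ.q x)) _ _
  rw [he]

theorem tc_trans (hX : IsCone X) (hu : TMap X Λ u) (α : VForm X Λ u) (χ χ' : Chart (k + 2) X) {υ υ' : Vd (k + 2) → Vd (k + 1)} {p : Vd (k + 2)}
    (hp : p ∈ ball (0 : Vd (k + 2)) 2) (hU : χ'.σ p ∈ χ.U) (hl : u (χ'.σ p) - υ' p ∈ Λ) (he : υ (χ.q (χ'.σ p)) = υ' p) :
    tc α χ' υ' p = tc α χ υ (χ.q (χ'.σ p)) * (fderiv ℂ (fun y => χ.q (χ'.σ y)) p).det := by
  have h1 := toFun_eq hX hu α χ (χ'.σ_mem p hp).1 hU hl he (fun i => fderiv ℂ χ'.σ p (Pi.single i 1)) (fun i => tan_sigma χ' hp _)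
  have h2 : ∀ w : Vd (k + 2), fderiv ℂ χ.q (χ'.σ p) (fderiv ℂ χ'.σ p w) = fderiv ℂ (fun y => χ.q (χ'.σ y)) p w := by
    intro w
    have h3 : HasFDerivAt (fun y => χ.q (χ'.σ y)) ((fderiv ℂ χ.q (χ'.σ p)).comp (fderiv ℂ χ'.σ p)) p :=
      (χ.q_an _ hU).differentiableAt.hasFDerivAt.comp p (χ'.σ_an p hp).differentiableAt.hasFDerivAt
    rw [h3.fderiv]
    rfl
  simp only [h2] at h1
  rw [Tc_det] at h1
  rw [mul_comm]
  exact h1

theorem zr_iff (hX : IsCone X) (hu : TMap X Λ u) (α : VForm X Λ u) (χ : Chart (k + 2) X) {υ : Vd (k + 2) → Vd (k + 1)} {p : Vd (k + 2)}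
    (hp : p ∈ ball (0 : Vd (k + 2)) 2) (hl : u (χ.σ p) - υ p ∈ Λ) : Zr α (υ p) (pr (χ.σ p)) ↔ tc α χ υ p = 0 := by
  have hm := χ.σ_mem p hp
  constructor
  · rintro ⟨x, hx, hpr, hz, h0⟩
    obtain ⟨c, hc, rfl⟩ := (Pool.Agent.H62.EF.pr_eq_iff
      (Pool.Agent.H14.PP.IsCone.ne_zero hX hx) (χ.sigma_ne_zero hX hp)).1 hpr
    have ht : ∀ i : Fin (k + 2), Tan X (χ.σ p) (fderiv ℂ χ.σ p (Pi.single i 1)) := fun i => tan_sigma χ hp _
    have h1 := h0 (fun i => c • fderiv ℂ χ.σ p (Pi.single i 1)) fun i => Tc_tan_smul hX (ht i) hc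
    rw [α.scale (υ p) (χ.σ p) hm.1 hl _ ht c hc] at h1
    exact h1
  · intro h0
    refine ⟨χ.σ p, hm.1, rfl, hl, ?_⟩
    intro v hv
    rw [toFun_eq hX hu α χ hm.1 hm.2.1 hl (υ := υ) (by rw [hm.2.2]) v hv, hm.2.2, h0, mul_zero]

end Pool.Agent.TG

end

section

/-!
# TG Prm: primitives in the direction of the coordinate `0`

Port of `Pool/Agent/H62/EL/Prm.lean` (`exists_prim_snd`; there the variable of integration is the second one): for `a` analytic on `ball 0 R` (a polydisc) put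
`A p = ∫ θ in 0..1, p 0 * a (Function.update p 0 (θ p 0))`.  For the analyticity in several variables one may use `Pool.Agent.TN.osgood_pi`
(`Pool/Agent/TN/Osg.lean`: bounded and separately holomorphic functions are analytic) or the method of `EL/Prm`.
`exists_prim`: `exists_prim_zero` with `R = 2`, `a = tc α χ (ms c ρ)` (`tc_an`, `Str.lift` holds on the open ball).
-/

set_option autoImplicit false

open Topology Filter Metric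

namespace Pool.Agent.TG

open Pool.Agent.H36.BP (EN wd)
open Pool.Agent.H14.PP (IsCone CurveAt Tan)
open Pool.Agent.H62.EF (MN pr)
open Pool.Agent.AD (Vd Chart Charts)

variable {N k : ℕ}

variable {X : Set (EN N)} {Λ : AddSubgroup (Vd (k + 1))} {u : EN N → Vd (k + 1)}

theorem ms_an (c : Vd (k + 1)) (ρ : ℝ) (p : Vd (k + 2)) : AnalyticAt ℂ (ms c ρ) p := by
  have h1 : AnalyticAt ℂ (fun p : Vd (k + 2) => tl p) p := by
    rw [analyticAt_pi_iff]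
    intro i
    exact (ContinuousLinearMap.proj (R := ℂ) (φ := fun _ : Fin (k + 2) => ℂ) i.succ).analyticAt p
  exact analyticAt_const.add (AnalyticAt.fun_smul analyticAt_const h1)

theorem exists_prim (α : VForm X Λ u) (χ : Chart (k + 2) X) {c : Vd (k + 1)} {ρ : ℝ} (h : Str Λ u χ c ρ) :
    ∃ A : Vd (k + 2) → ℂ, IsPrim α χ (ms c ρ) A := by
  obtain ⟨A, hA, hA0⟩ := exists_prim_zero (R := 2) (a := tc α χ (ms c ρ)) (fun p hp => tc_an α χ hp (ms_an c ρ p) (by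
    filter_upwards [isOpen_ball.mem_nhds hp] with q hq
    exact h.lift q hq))
  exact ⟨A, fun p hp => (hA p hp).1, fun p hp => (hA p hp).2, hA0⟩

end Pool.Agent.TG

end
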