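import Pool.Agent.H94.G5T.M05
import Pool.Agent.H94.G5T.M10
import Pool.Agent.H94.G5T.M11
import Pool.Agent.H94.G5T.M12
import Pool.Agent.H94.G5T.M13

/-! The parts of this file: G3.P.Ent, G3.R.Sec, TG.Y.LnE. -/

section

/-!
# G3 P Ent: from local to global lifts

`Pool.Agent.H17.exists_global_lift` is the statement for maps `ℂ → PN N`; see the proof of `TG.disc_lift` (`TG/Lf`) for the passage between `MN N` and `PN N`.
-/

set_option autoImplicit false

open Topology Filter Metric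

namespace Pool.Agent.G3

open Pool.Agent.H36.BP (EN wd)
open Pool.Agent.H14.PP (IsCone CurveAt Tan)
open Pool.Agent.H62.EF (MN pr)
open Pool.Agent.AD (Vd)

variable {N k : ℕ} {X : Set (EN N)} {Λ : AddSubgroup (Vd (k + 1))} {u : EN N → Vd (k + 1)} {D : Set (Vd (k + 1))} {p : EN N → EN N → ℝ} {m : ℕ} {C : ℝ}

theorem entire_lift {f : ℂ → MN N} (hf : ∀ z, LLift f z) : ∃ F : ℂ → EN N, Differentiable ℂ F ∧ ∀ z, F z ≠ 0 ∧ f z = pr (F z) := by
  classical
  have hV : ∀ z : ℂ, ∃ v : EN N, v ≠ 0 ∧ f z = pr v := by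
    intro z
    obtain ⟨Φ, -, h⟩ := hf z
    exact ⟨Φ z, h.self_of_nhds.1, h.self_of_nhds.2⟩
  choose V hV0 hVf using hV
  have hofne : ∀ v : EN N, v ≠ 0 → v.ofLp ≠ 0 := by
    intro v hv h
    apply hv
    ext j
    exact congrFun h j
  obtain ⟨g, hg⟩ : ∃ g : ℂ → Pool.Agent.H17.PN N,
      ∀ z, g z = Projectivization.mk ℂ (V z).ofLp (hofne _ (hV0 z)) := ⟨_, fun _ => rfl⟩
  have hgh : Pool.Agent.H17.HolomorphicInto g Set.univ := by
    intro z₀ _
    obtain ⟨Φ, hΦ, h⟩ := hf z₀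
    refine ⟨fun w => (Φ w).ofLp, ?_, ?_⟩
    · rw [analyticAt_pi_iff]
      intro j
      exact ((EuclideanSpace.proj (𝕜 := ℂ) j : EN N →L[ℂ] ℂ).analyticAt _).comp hΦ
    · filter_upwards [h] with w hw
      refine ⟨hofne _ hw.1, ?_⟩
      have h1 : pr (V w) = pr (Φ w) := by
        rw [← hVf w, hw.2]
      obtain ⟨c, -, h2⟩ := (Pool.Agent.H62.EF.pr_eq_iff (hV0 _) hw.1).mp h1
      rw [hg, Projectivization.mk_eq_mk_iff']
      exact ⟨c, by rw [h2]; rfl⟩
  obtain ⟨x, hx⟩ := Pool.Agent.H17.exists_global_lift hgh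
  refine ⟨fun z => WithLp.toLp 2 fun j => (x j : ℂ → ℂ) z, ?_, fun z => ?_⟩
  · rw [differentiable_euclidean]
    intro j
    exact (x j).diff
  · obtain ⟨h1, h2⟩ := hx z
    have h4 : (WithLp.toLp 2 fun j => (x j : ℂ → ℂ) z : EN N) ≠ 0 := by
      intro h
      apply h1
      have h3 : (WithLp.toLp 2 fun j => (x j : ℂ → ℂ) z : EN N).ofLp = 0 := by
        rw [h]
        rfl
      exact h3
    refine ⟨h4, ?_⟩
    rw [hg] at h2
    obtain ⟨c, hc, h6⟩ := Pool.Agent.H17.mk_eq_mk_cross h2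
    have h7 : V z = c • (WithLp.toLp 2 fun j => (x j : ℂ → ℂ) z : EN N) := by
      ext j
      exact h6 j
    rw [hVf z, h7, Pool.Agent.H62.EF.pr_smul _ hc]

end Pool.Agent.G3

end

section

/-!
# G3 R Sec: straight charts and local sections at the points of honest curves

`isStr_curve`: `F` a holomorphic curve in `X` over the line `y₀ + ℂ a` near `z₀`, `p = y₀ + z₀ a`: `u` is a submersion at `F z₀`.  If `p ∉ D` this is `G.sub`.  If `p ∈ D`: `p ∉ B`, `TransAt D p a`;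
`G.nc` gives `κ` and `IsNC`: `u (σ q) = κ (q 0 ^ m * q 1 ^ n, q'')` near `0`, `σ 0 = F z₀`.  Let `q z = τ (F z)`: `κ (nm m n (q z)) = p + (z - z₀) a` near `z₀` (the difference is in `Λ` and continuous), the coordinate `0` of
`κ⁻¹ (p + (z - z₀) a)` has a simple zero at `z₀` (`TransAt`), so `q 0 ^ m * q 1 ^ n` has a simple zero; `q 0 = q 1 = 0` at `z₀`, so `m = 1, n = 0` or `m = 0, n = 1`.  Then `u ∘ σ = κ ∘ (linear projection)`, with the local
inverse of `κ` one gets `IsStr` (`IsGerm` with other coordinates).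
`exists_sec`: a straight chart `χ` at `F z₀` (`exists_str_chart`), `x z = χ.q (F z) 0`, `ℓ y = z₀ + (y - p) i / a i` for a coordinate `i` with `a i ≠ 0`; `S y = χ.σ (x (ℓ y), (y - p) / ρ)`.
-/

set_option autoImplicit false

open Topology Filter Metric

namespace Pool.Agent.G3.R

open Pool.Agent.H36.BP (EN fs wd)
open Pool.Agent.H14.PP (IsCone CurveAt Tan)
open Pool.Agent.H62.EF (MN pr)
open Pool.Agent.AD (Vd Chart Charts IsGerm)
open Pool.Agent.TG

variable {N k d : ℕ} {X : Set (EN N)} {Λ : AddSubgroup (Vd (k + 1))} {u : EN N → Vd (k + 1)} {D B Bad : Set (Vd (k + 1))} {a : Vd (k + 1)}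

/-- change of the coordinates of a germ -/
private theorem sec_germ {σ : Vd d → EN N} {τ : EN N → Vd d} (h : IsGerm X σ τ) {P R : Vd d → Vd d} (hP : AnalyticAt ℂ P 0) (hP0 : P 0 = 0)
    (hR : AnalyticAt ℂ R 0) (hRP : ∀ᶠ p in 𝓝 (0 : Vd d), R (P p) = p) (hPR : ∀ᶠ q in 𝓝 (0 : Vd d), P (R q) = q) :
    IsGerm X (fun p => σ (P p)) (fun x => R (τ x)) := by
  have hτ0 : τ (σ 0) = 0 := h.left.self_of_nhds
  have hPt : Tendsto P (𝓝 0) (𝓝 0) := by
    have := hP.continuousAt.tendsto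
    rwa [hP0] at this
  have hτt : Tendsto τ (𝓝 (σ 0)) (𝓝 0) := by
    have := h.τ_an.continuousAt.tendsto
    rwa [hτ0] at this
  refine ⟨?_, ?_, ?_, ?_, ?_, ?_⟩
  · have h1 : AnalyticAt ℂ σ (P 0) := by
      rw [hP0]
      exact h.σ_an
    exact h1.fun_comp hP
  · exact hPt.eventually h.σ_mem
  · show AnalyticAt ℂ (fun x => R (τ x)) (σ (P 0))
    rw [hP0]
    have h1 : AnalyticAt ℂ R (τ (σ 0)) := by
      rw [hτ0]
      exact hR
    exact h1.fun_comp h.τ_an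
  · filter_upwards [hPt.eventually h.left, hRP] with p h1 h2
    show R (τ (σ (P p))) = p
    rw [h1, h2]
  · show ∀ᶠ y in 𝓝 (σ (P 0)), y ∈ X → ∃ c : ℂ, c ≠ 0 ∧ y = c • σ (P (R (τ y)))
    rw [hP0]
    filter_upwards [h.right, hτt.eventually hPR] with y h1 h2 hy
    rw [h2]
    exact h1 hy
  · show ∀ᶠ z in 𝓝 (σ (P 0), (1 : ℂ)), R (τ (z.2 • z.1)) = R (τ z.1)
    rw [hP0]
    filter_upwards [h.inv] with z hz
    rw [hz]

private theorem sec_nm0 {m n : ℕ} (h : 0 < m + n) : nm m n (0 : Vd (k + 2)) = 0 := by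
  funext i
  refine Fin.cases ?_ (fun i => rfl) i
  show (0 : ℂ) ^ m * (0 : ℂ) ^ n = 0
  rw [← pow_add, zero_pow h.ne']

private theorem sec_nm_an (m n : ℕ) : AnalyticAt ℂ (nm (k := k) m n) 0 := by
  refine analyticAt_pi_iff.2 fun i => ?_
  refine Fin.cases ?_ (fun i => ?_) i
  · exact (((ContinuousLinearMap.proj (R := ℂ) (φ := fun _ : Fin (k + 2) => ℂ) 0).analyticAt _).pow m).mul
      (((ContinuousLinearMap.proj (R := ℂ) (φ := fun _ : Fin (k + 2) => ℂ) 1).analyticAt _).pow n)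
  · exact (ContinuousLinearMap.proj (R := ℂ) (φ := fun _ : Fin (k + 2) => ℂ) i.succ.succ).analyticAt _

/-- the splitting of the coordinates for `m + n = 1` -/
private theorem sec_split {m n : ℕ} (h : m + n = 1) :
    ∃ (Q : ℂ → Vd (k + 1) → Vd (k + 2)) (s : Fin (k + 2)), (∀ t w, nm m n (Q t w) = w) ∧ (∀ t w, Q t w s = t) ∧
      (∀ q, Q (q s) (nm m n q) = q) ∧ ∀ i, (∀ t w, Q t w i = t) ∨ ∃ j, ∀ t w, Q t w i = w j := by
  have h1 : (m = 1 ∧ n = 0) ∨ (m = 0 ∧ n = 1) := by omega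
  rcases h1 with ⟨rfl, rfl⟩ | ⟨rfl, rfl⟩
  · refine ⟨fun t w => Fin.cons (α := fun _ => ℂ) (w 0) (Fin.cons (α := fun _ => ℂ) t fun i : Fin k => w i.succ), 1, ?_, fun t w => rfl, ?_, ?_⟩
    · intro t w
      funext i
      refine Fin.cases ?_ (fun i => rfl) i
      show w 0 ^ 1 * t ^ 0 = w 0
      rw [pow_one, pow_zero, mul_one]
    · intro q
      funext i
      refine Fin.cases ?_ (fun i => ?_) i
      · show q 0 ^ 1 * q 1 ^ 0 = q 0
        rw [pow_one, pow_zero, mul_one]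
      · refine Fin.cases rfl (fun i => rfl) i
    · intro i
      refine Fin.cases ?_ (fun i => ?_) i
      · exact Or.inr ⟨0, fun t w => rfl⟩
      · refine Fin.cases ?_ (fun i => ?_) i
        · exact Or.inl fun t w => rfl
        · exact Or.inr ⟨i.succ, fun t w => rfl⟩
  · refine ⟨fun t w => Fin.cons (α := fun _ => ℂ) t w, 0, ?_, fun t w => rfl, ?_, ?_⟩
    · intro t w
      funext i
      refine Fin.cases ?_ (fun i => rfl) i
      show t ^ 0 * w 0 ^ 1 = w 0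
      rw [pow_one, pow_zero, one_mul]
    · intro q
      funext i
      refine Fin.cases rfl (fun i => ?_) i
      refine Fin.cases ?_ (fun i => rfl) i
      show q 0 ^ 0 * q 1 ^ 1 = q 1
      rw [pow_one, pow_zero, one_mul]
    · intro i
      refine Fin.cases ?_ (fun i => ?_) i
      · exact Or.inl fun t w => rfl
      · exact Or.inr ⟨i, fun t w => rfl⟩

/-- the case `m + n = 1` -/
private theorem sec_one {κ : Vd (k + 1) → Vd (k + 1)} {v : Vd (k + 1)} (hκ : IsCoord D κ v) {x : EN N} {σ : Vd (k + 2) → EN N} {τ : EN N → Vd (k + 2)}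
    {m n : ℕ} (hG : IsGerm X σ τ) (hσ0 : σ 0 = x) (hmn : m + n = 1) (hnm : ∀ᶠ p in 𝓝 (0 : Vd (k + 2)), u (σ p) - κ (nm m n p) ∈ Λ) :
    IsStr X Λ u x v := by
  obtain ⟨Q, s, hQ1, hQ2, hQ3, hQ4⟩ := sec_split (k := k) hmn
  obtain ⟨ψ, hψ, hψκ, hκψ, hψ0⟩ := Pool.Agent.H62.BU.local_inverse hκ.an fun w hw => hκ.inj (by rw [hw, map_zero])
  rw [hκ.zero] at hψ hκψ hψ0
  have hm0 : nm m n (0 : Vd (k + 2)) = 0 := sec_nm0 (by omega)
  have htl : AnalyticAt ℂ (fun p : Vd (k + 2) => v + tl p) 0 := by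
    refine analyticAt_const.add (analyticAt_pi_iff.2 fun i => ?_)
    exact (ContinuousLinearMap.proj (R := ℂ) (φ := fun _ : Fin (k + 2) => ℂ) i.succ).analyticAt _
  have htl0 : v + tl (0 : Vd (k + 2)) = v := by
    have h1 : tl (0 : Vd (k + 2)) = 0 := rfl
    rw [h1, add_zero]
  have hψt : AnalyticAt ℂ (fun p : Vd (k + 2) => ψ (v + tl p)) 0 := by
    have h1 : AnalyticAt ℂ ψ (v + tl (0 : Vd (k + 2))) := by
      rw [htl0]
      exact hψ
    exact AnalyticAt.fun_comp (f := fun p : Vd (k + 2) => v + tl p) h1 htl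
  have htt : Tendsto (fun p : Vd (k + 2) => v + tl p) (𝓝 0) (𝓝 v) := by
    have h1 := htl.continuousAt.tendsto
    rwa [htl0] at h1
  set P : Vd (k + 2) → Vd (k + 2) := fun p => Q (p 0) (ψ (v + tl p)) with hPd
  set R : Vd (k + 2) → Vd (k + 2) := fun q => Fin.cons (α := fun _ => ℂ) (q s) (κ (nm m n q) - v) with hRd
  have hP : AnalyticAt ℂ P 0 := by
    refine analyticAt_pi_iff.2 fun i => ?_
    rcases hQ4 i with h1 | ⟨j, h1⟩
    · have h2 : (fun p => P p i) = fun p : Vd (k + 2) => p 0 := funext fun p => h1 _ _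
      rw [h2]
      exact (ContinuousLinearMap.proj (R := ℂ) (φ := fun _ : Fin (k + 2) => ℂ) 0).analyticAt _
    · have h2 : (fun p => P p i) = fun p : Vd (k + 2) => ψ (v + tl p) j := funext fun p => h1 _ _
      rw [h2]
      exact analyticAt_pi_iff.1 hψt j
  have hP0 : P 0 = 0 := by
    have h1 := hQ3 0
    rw [hm0] at h1
    show Q 0 (ψ (v + tl 0)) = 0
    rw [htl0, hψ0]
    exact h1
  have hκn : AnalyticAt ℂ (fun q : Vd (k + 2) => κ (nm m n q)) 0 := by
    have h1 : AnalyticAt ℂ κ (nm m n (0 : Vd (k + 2))) := by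
      rw [hm0]
      exact hκ.an
    exact h1.fun_comp (sec_nm_an m n)
  have hR : AnalyticAt ℂ R 0 := by
    refine analyticAt_pi_iff.2 fun i => ?_
    refine Fin.cases ?_ (fun i => ?_) i
    · exact (ContinuousLinearMap.proj (R := ℂ) (φ := fun _ : Fin (k + 2) => ℂ) s).analyticAt _
    · exact analyticAt_pi_iff.1 (hκn.sub analyticAt_const) i
  have hnt : Tendsto (nm (k := k) m n) (𝓝 0) (𝓝 0) := by
    have h1 := (sec_nm_an (k := k) m n).continuousAt.tendsto
    rwa [hm0] at h1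
  have hRP : ∀ᶠ p in 𝓝 (0 : Vd (k + 2)), R (P p) = p := by
    filter_upwards [htt.eventually hκψ] with p hp
    funext i
    refine Fin.cases ?_ (fun i => ?_) i
    · exact hQ2 _ _
    · show (κ (nm m n (Q (p 0) (ψ (v + tl p)))) - v) i = p i.succ
      rw [hQ1, hp, add_sub_cancel_left]
      rfl
  have hPR : ∀ᶠ q in 𝓝 (0 : Vd (k + 2)), P (R q) = q := by
    filter_upwards [hnt.eventually hψκ] with q hq
    have h1 : tl (R q) = κ (nm m n q) - v := rfl
    show Q (q s) (ψ (v + tl (R q))) = q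
    rw [h1, add_sub_cancel, hq, hQ3]
  have hPt : Tendsto P (𝓝 0) (𝓝 0) := by
    have h1 := hP.continuousAt.tendsto
    rwa [hP0] at h1
  refine ⟨fun p => σ (P p), fun x => R (τ x), sec_germ hG hP hP0 hR hRP hPR, ?_, ?_⟩
  · show σ (P 0) = x
    rw [hP0, hσ0]
  · filter_upwards [hPt.eventually hnm, htt.eventually hκψ] with p h1 h2
    have h3 : nm m n (P p) = ψ (v + tl p) := hQ1 _ _
    rw [h3, h2] at h1
    exact h1

/-- the derivative of `x ^ m * y ^ n` along a curve -/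
private theorem sec_der {f g : ℂ → ℂ} {z f' g' : ℂ} (hf : HasDerivAt f f' z) (hg : HasDerivAt g g' z) (hf0 : f z = 0) (hg0 : g z = 0) {m n : ℕ}
    (h : 2 ≤ m + n) : HasDerivAt (fun w => f w ^ m * g w ^ n) 0 z := by
  have h1 := (hf.fun_pow m).fun_mul (hg.fun_pow n)
  have h2 : (m : ℂ) * f z ^ (m - 1) * f' * g z ^ n + f z ^ m * ((n : ℂ) * g z ^ (n - 1) * g') = 0 := by
    rw [hf0, hg0]
    rcases Nat.lt_or_ge m 2 with hm | hm
    · interval_cases m
      · have h3 : n - 1 ≠ 0 := by omega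
        rw [zero_pow h3]
        simp
      · have h3 : n ≠ 0 := by omega
        rw [zero_pow h3]
        simp
    · have h3 : m - 1 ≠ 0 := by omega
      have h4 : m ≠ 0 := by omega
      rw [zero_pow h3, zero_pow h4]
      simp
  rwa [h2] at h1

/-- `u` is a submersion at the points of a curve over the points which are not bad -/
private theorem sec_nc (G : Geo X Λ u D B) {v y : Vd (k + 1)} (ht : TransAt D v a) {κ : Vd (k + 1) → Vd (k + 1)} (hκ : IsCoord D κ v) {F : ℂ → EN N}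
    {z : ℂ} (hnc : IsNC X Λ u κ (F z)) (hF : AnalyticAt ℂ F z) (hv : y + z • a = v) (hFX : ∀ᶠ w in 𝓝 z, F w ∈ X ∧ u (F w) - (y + w • a) ∈ Λ) :
    IsStr X Λ u (F z) v := by
  obtain ⟨σ, τ, m, n, hG, hσ0, hmn, hnm⟩ := hnc
  rcases Nat.lt_or_ge (m + n) 2 with hlt | hge
  · exact sec_one hκ hG hσ0 (by omega) hnm
  exfalso
  have hτ0 : τ (σ 0) = 0 := hG.left.self_of_nhds
  have hm0 : nm m n (0 : Vd (k + 2)) = 0 := sec_nm0 hmn
  -- the coordinates of the curve
  set q : ℂ → Vd (k + 2) := fun w => τ (F w) with hqd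
  have hq : AnalyticAt ℂ q z := by
    have h1 : AnalyticAt ℂ τ (F z) := by
      rw [← hσ0]
      exact hG.τ_an
    exact h1.fun_comp hF
  have hq0 : q z = 0 := by
    show τ (F z) = 0
    rw [← hσ0, hτ0]
  have hFt : Tendsto F (𝓝 z) (𝓝 (σ 0)) := by
    rw [hσ0]
    exact hF.continuousAt.tendsto
  have hqt : Tendsto q (𝓝 z) (𝓝 0) := by
    have h1 := hq.continuousAt.tendsto
    rwa [hq0] at h1
  have hmem : ∀ᶠ w in 𝓝 z, κ (nm m n (q w)) - (y + w • a) ∈ Λ := by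
    filter_upwards [hFt.eventually hG.right, hqt.eventually hG.σ_mem, hqt.eventually hnm, hFX] with w h1 h2 h3 h0
    obtain ⟨c, hc, h4⟩ := h1 h0.1
    have h5 := G.tor.smul _ h2 c hc
    have h6 : c • σ (q w) = F w := h4.symm
    rw [h6] at h5
    have h7 := Λ.sub_mem (Λ.sub_mem h0.2 h5) h3
    have h8 : u (F w) - (y + w • a) - (u (F w) - u (σ (q w))) - (u (σ (q w)) - κ (nm m n (q w))) = κ (nm m n (q w)) - (y + w • a) := by abel
    rwa [h8] at h7
  obtain ⟨δ, hδ, hdisc⟩ := G.lat.disc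
  have hκn : AnalyticAt ℂ (fun w => κ (nm m n (q w))) z := by
    have h1 : AnalyticAt ℂ (nm (k := k) m n) (q z) := by
      rw [hq0]
      exact sec_nm_an m n
    have h2 : AnalyticAt ℂ κ (nm m n (q z)) := by
      rw [hq0, hm0]
      exact hκ.an
    exact AnalyticAt.fun_comp (f := fun w => nm m n (q w)) h2 (h1.fun_comp hq)
  have hlin : HasDerivAt (fun w : ℂ => y + w • a) a z := by
    have h1 := ((hasDerivAt_id z).smul_const a).const_add y
    simpa using h1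
  have heq : ∀ᶠ w in 𝓝 z, κ (nm m n (q w)) = y + w • a := by
    have h1 : ContinuousAt (fun w => κ (nm m n (q w)) - (y + w • a)) z := hκn.continuousAt.sub hlin.continuousAt
    have h2 : Tendsto (fun w => κ (nm m n (q w)) - (y + w • a)) (𝓝 z) (𝓝 0) := by
      have h3 := h1.tendsto
      rwa [hq0, hm0, hκ.zero, hv, sub_self] at h3
    filter_upwards [hmem, h2.eventually (ball_mem_nhds 0 hδ)] with w h3 h4
    exact sub_eq_zero.1 (hdisc _ h3 (mem_ball_zero_iff.1 h4))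
  -- the derivative
  have hnq : AnalyticAt ℂ (fun w => nm m n (q w)) z := by
    have h1 : AnalyticAt ℂ (nm (k := k) m n) (q z) := by
      rw [hq0]
      exact sec_nm_an m n
    exact h1.fun_comp hq
  have hd1 : HasDerivAt (fun w => κ (nm m n (q w))) (fderiv ℂ κ 0 (deriv (fun w => nm m n (q w)) z)) z := by
    have h1 : HasFDerivAt κ (fderiv ℂ κ 0) (nm m n (q z)) := by
      rw [hq0, hm0]
      exact hκ.an.differentiableAt.hasFDerivAt
    exact h1.comp_hasDerivAt z hnq.differentiableAt.hasDerivAt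
  have hd2 : fderiv ℂ κ 0 (deriv (fun w => nm m n (q w)) z) = a := by
    refine hd1.unique (hlin.congr_of_eventuallyEq ?_)
    filter_upwards [heq] with w hw
    exact hw
  refine ht.2 κ hκ _ ?_ hd2
  have h1 : HasDerivAt (fun w => nm m n (q w) 0) (deriv (fun w => nm m n (q w)) z 0) z := hasDerivAt_pi.1 hnq.differentiableAt.hasDerivAt 0
  have hqd : HasDerivAt q (deriv q z) z := hq.differentiableAt.hasDerivAt
  have h2 : HasDerivAt (fun w => q w 0 ^ m * q w 1 ^ n) 0 z :=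
    sec_der (hasDerivAt_pi.1 hqd 0) (hasDerivAt_pi.1 hqd 1) (by rw [hq0]; rfl) (by rw [hq0]; rfl) hge
  exact h1.unique h2

theorem isStr_curve (G : Geo X Λ u D B) {y₀ : Vd (k + 1)} {z₀ : ℂ} (h : y₀ + z₀ • a ∈ D → y₀ + z₀ • a ∉ B ∧ TransAt D (y₀ + z₀ • a) a) {F : ℂ → EN N} (hF : AnalyticAt ℂ F z₀)
    (hFX : ∀ᶠ z in 𝓝 z₀, F z ∈ X ∧ u (F z) - (y₀ + z • a) ∈ Λ) : IsStr X Λ u (F z₀) (y₀ + z₀ • a) := by
  have h0 := hFX.self_of_nhds
  by_cases hD : y₀ + z₀ • a ∈ D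
  · obtain ⟨hB, ht⟩ := h hD
    obtain ⟨κ, hκ, hnc⟩ := G.nc _ hD hB
    exact sec_nc G ht hκ (hnc _ h0.1 h0.2) hF rfl hFX
  · exact G.sub _ hD _ h0.1 h0.2

theorem exists_sec (G : Geo X Λ u D B) {y₀ : Vd (k + 1)} (ha : a ≠ 0) {z₀ : ℂ} (h : y₀ + z₀ • a ∈ D → y₀ + z₀ • a ∉ B ∧ TransAt D (y₀ + z₀ • a) a) {F : ℂ → EN N} (hF : AnalyticAt ℂ F z₀)
    (hFX : ∀ᶠ z in 𝓝 z₀, F z ∈ X ∧ u (F z) - (y₀ + z • a) ∈ Λ) : ∃ (r : ℝ) (S : Vd (k + 1) → EN N), 0 < r ∧
      (∀ y ∈ ball (y₀ + z₀ • a) r, AnalyticAt ℂ S y ∧ S y ∈ X ∧ u (S y) - y ∈ Λ) ∧ ∀ z ∈ ball z₀ r, pr (S (y₀ + z • a)) = pr (F z) := by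
  have hstr := isStr_curve G h hF hFX
  obtain ⟨χ, ρ, hU, hq0, hs, -⟩ := exists_str_chart G.cone G.tor hstr one_pos
  set v : Vd (k + 1) := y₀ + z₀ • a with hv
  have hρ0 : (ρ : ℂ) ≠ 0 := by
    exact_mod_cast hs.pos.ne'
  obtain ⟨i, hi⟩ : ∃ i, a i ≠ 0 := by
    by_contra hcon
    push Not at hcon
    exact ha (funext hcon)
  -- the coordinates of the curve
  have hqa : AnalyticAt ℂ (fun z => χ.q (F z)) z₀ := (χ.q_an _ hU).fun_comp hF
  have hFU : ∀ᶠ z in 𝓝 z₀, F z ∈ χ.U := hF.continuousAt.tendsto.eventually (χ.isOpen_U.mem_nhds hU)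
  obtain ⟨δ, hδ, hdisc⟩ := G.lat.disc
  have hmsa : AnalyticAt ℂ (fun z => ms v ρ (χ.q (F z)) - (y₀ + z • a)) z₀ := by
    have h1 : AnalyticAt ℂ (fun z => tl (χ.q (F z))) z₀ := analyticAt_pi_iff.2 fun j => analyticAt_pi_iff.1 hqa j.succ
    have h2 : AnalyticAt ℂ (fun z : ℂ => (ρ : ℂ) • tl (χ.q (F z))) z₀ := h1.fun_const_smul
    have h3 : AnalyticAt ℂ (fun z : ℂ => y₀ + z • a) z₀ := by fun_prop
    have h4 : AnalyticAt ℂ (fun _ : ℂ => v) z₀ := analyticAt_const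
    exact (h4.fun_add h2).fun_sub h3
  have htl0 : tl (0 : Vd (k + 2)) = 0 := rfl
  have hms0 : ms v ρ (χ.q (F z₀)) - (y₀ + z₀ • a) = 0 := by
    rw [hq0, ms, htl0, smul_zero, add_zero, ← hv, sub_self]
  have hlift : ∀ᶠ z in 𝓝 z₀, (∃ c : ℂ, c ≠ 0 ∧ F z = c • χ.σ (χ.q (F z))) ∧ ms v ρ (χ.q (F z)) = y₀ + z • a := by
    have h2 : Tendsto (fun z => ms v ρ (χ.q (F z)) - (y₀ + z • a)) (𝓝 z₀) (𝓝 0) := by
      have h3 := hmsa.continuousAt.tendsto
      rwa [hms0] at h3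
    filter_upwards [hFX, hFU, h2.eventually (ball_mem_nhds 0 hδ)] with z h3 h4 h5
    obtain ⟨hq2, c, hc, h6⟩ := χ.surj _ h3.1 h4
    refine ⟨⟨c, hc, h6⟩, ?_⟩
    have h7 := G.tor.smul _ (χ.σ_mem _ hq2).1 c hc
    rw [← h6] at h7
    have h8 := hs.lift _ hq2
    have h9 := Λ.sub_mem (Λ.sub_mem h3.2 h7) h8
    have e : u (F z) - (y₀ + z • a) - (u (F z) - u (χ.σ (χ.q (F z)))) - (u (χ.σ (χ.q (F z))) - ms v ρ (χ.q (F z))) = ms v ρ (χ.q (F z)) - (y₀ + z • a) := by abel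
    rw [e] at h9
    exact sub_eq_zero.1 (hdisc _ h9 (mem_ball_zero_iff.1 h5))
  -- the section
  set ℓ : Vd (k + 1) → ℂ := fun y => z₀ + (y i - v i) / a i with hℓ
  have hℓa : ∀ y, AnalyticAt ℂ ℓ y := fun y => by
    refine analyticAt_const.add (AnalyticAt.div_const (AnalyticAt.sub ?_ analyticAt_const))
    exact (ContinuousLinearMap.proj (R := ℂ) (φ := fun _ : Fin (k + 1) => ℂ) i).analyticAt _
  have hℓ0 : ℓ v = z₀ := by
    rw [hℓ]
    simp
  set A : Vd (k + 1) → Vd (k + 2) := fun y => Fin.cons (α := fun _ => ℂ) (χ.q (F (ℓ y)) 0) ((ρ : ℂ)⁻¹ • (y - v)) with hA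
  have hA0 : A v = 0 := by
    funext j
    refine Fin.cases ?_ (fun j => ?_) j
    · show χ.q (F (ℓ v)) 0 = 0
      rw [hℓ0, hq0]
      rfl
    · show ((ρ : ℂ)⁻¹ • (v - v)) j = 0
      rw [sub_self, smul_zero]
      rfl
  have hAan : AnalyticAt ℂ A v := by
    refine analyticAt_pi_iff.2 fun j => ?_
    refine Fin.cases ?_ (fun j => ?_) j
    · have h1 : AnalyticAt ℂ (fun z => χ.q (F z) 0) (ℓ v) := by
        rw [hℓ0]
        exact analyticAt_pi_iff.1 hqa 0
      exact AnalyticAt.fun_comp (f := ℓ) h1 (hℓa v)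
    · have h1 : AnalyticAt ℂ (fun y : Vd (k + 1) => (ρ : ℂ)⁻¹ • (y - v)) v := by fun_prop
      exact analyticAt_pi_iff.1 h1 j
  have hSan : AnalyticAt ℂ (fun y => χ.σ (A y)) v := by
    have h1 : AnalyticAt ℂ χ.σ (A v) := by
      rw [hA0]
      exact χ.σ_an 0 (mem_ball_self two_pos)
    exact h1.fun_comp hAan
  have hAb : ∀ᶠ y in 𝓝 v, A y ∈ ball (0 : Vd (k + 2)) 2 := by
    have h1 := hAan.continuousAt.tendsto
    rw [hA0] at h1
    exact h1.eventually (ball_mem_nhds 0 two_pos)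
  obtain ⟨r₁, hr₁, hb₁⟩ := Metric.eventually_nhds_iff_ball.1 (hSan.eventually_analyticAt.and hAb)
  obtain ⟨r₂, hr₂, hb₂⟩ := Metric.eventually_nhds_iff_ball.1 hlift
  refine ⟨min r₁ r₂, fun y => χ.σ (A y), lt_min hr₁ hr₂, fun y hy => ?_, fun z hz => ?_⟩
  · obtain ⟨h1, h2⟩ := hb₁ y (ball_subset_ball (min_le_left _ _) hy)
    refine ⟨h1, (χ.σ_mem _ h2).1, ?_⟩
    have h3 := hs.lift _ h2
    have h4 : ms v ρ (A y) = y := by
      have h5 : tl (A y) = (ρ : ℂ)⁻¹ • (y - v) := rfl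
      rw [ms, h5, smul_smul, mul_inv_cancel₀ hρ0, one_smul, add_sub_cancel]
    rwa [h4] at h3
  · obtain ⟨⟨c, hc, h1⟩, h2⟩ := hb₂ z (ball_subset_ball (min_le_right _ _) hz)
    have h3 : y₀ + z • a - v = (z - z₀) • a := by
      rw [hv, sub_smul]
      abel
    have h4 : ℓ (y₀ + z • a) = z := by
      have h5 : (y₀ + z • a) i - v i = (z - z₀) * a i := by
        have := congrFun h3 i
        simpa using this
      show z₀ + ((y₀ + z • a) i - v i) / a i = z
      rw [h5, mul_div_cancel_right₀ _ hi]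
      ring
    have h5 : A (y₀ + z • a) = χ.q (F z) := by
      funext j
      refine Fin.cases ?_ (fun j => ?_) j
      · show χ.q (F (ℓ (y₀ + z • a))) 0 = _
        rw [h4]
      · show ((ρ : ℂ)⁻¹ • (y₀ + z • a - v)) j = χ.q (F z) j.succ
        have h6 : (ρ : ℂ) • tl (χ.q (F z)) = y₀ + z • a - v := by
          rw [ms] at h2
          rw [← h2]
          abel
        rw [← h6, smul_smul, inv_mul_cancel₀ hρ0, one_smul]
        rfl
    show pr (χ.σ (A (y₀ + z • a))) = pr (F z)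
    rw [h5]
    conv_rhs => rw [h1]
    exact (Pool.Agent.H62.EF.pr_smul _ hc).symm

end Pool.Agent.G3.R

end

section

/-!
# TG Y LnE: the data exist

`exists_lat₀`: `Γ₀ = {a + b i : a, b ∈ M ℤ}` (e.g. the additive subgroup of the `z` with `z.re / M`, `z.im / M` integers), `M > R`; a nonzero element has norm `≥ M`; covering radius `≤ M`.

`exists_ln`: `κ` from `G.nc p` (`IsCoord D κ p`, all points of the fibre over `p` are `IsNC`), `κ'` a local inverse of `κ` at `p` (`Pool.Agent.H62.BU.local_inverse`), `c z = κ' (p + z • e)`, analytic near `0`, `c 0 = 0`, `κ (c z) = p + z • e` for `z` near `0`, so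
`fderiv κ 0 (deriv c 0) = e`.  If `(deriv c 0) 0 = 0` this contradicts `TransAt` (for `IsCoord D κ p`): `c_ne`.  `dt κ e c 0 ≠ 0`: a relation `a e + Σ b_j fr_j = 0` at `z = 0` gives `fderiv κ 0 (a deriv c 0 + Σ b_j e_{j+1}) = 0`, so (`IsCoord.inj`) `a (deriv c 0) 0 = 0`, `a = 0`,
`b_j = 0` (`Matrix.det_ne_zero` via linear independence of the rows, or `Matrix.exists_vecMul_eq_zero_iff`); `dt κ e c` is continuous at `0` (`fderiv` of an analytic function is analytic), so `dt ≠ 0` near `0`.  For `z ≠ 0` small `(c z) 0 ≠ 0` (`(c ·) 0` has a simple zero at `0`) and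
`c z` is near `0`, so `κ (c z) ∉ D` (`IsCoord.mem_iff`): `off`.  Choose `s > 0` small for all this and `4 s ‖e‖ < δ_Λ` (`Lat.disc`), and `Γ₀` from `exists_lat₀` with `R = 8 s`.
-/

set_option autoImplicit false

open Topology Filter Metric

namespace Pool.Agent.TG

open Pool.Agent.H36.BP (EN fs wd)
open Pool.Agent.H14.PP (IsCone CurveAt Tan)
open Pool.Agent.H62.EF (MN pr)
open Pool.Agent.AD (Vd Chart Charts IsGerm)

variable {N k : ℕ}

variable {X : Set (EN N)} {Λ : AddSubgroup (Vd (k + 1))} {u : EN N → Vd (k + 1)} {D B : Set (Vd (k + 1))}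
  {κ : Vd (k + 1) → Vd (k + 1)} {p e : Vd (k + 1)} {c : ℂ → Vd (k + 1)} {Γ₀ : AddSubgroup ℂ} {s : ℝ}

/-- the square lattice -/
private def sqLat (M : ℝ) : AddSubgroup ℂ where
  carrier := {z | ∃ a b : ℤ, z = (M : ℂ) * ((a : ℂ) + (b : ℂ) * Complex.I)}
  zero_mem' := ⟨0, 0, by simp⟩
  add_mem' := by
    rintro _ _ ⟨a, b, rfl⟩ ⟨a', b', rfl⟩
    exact ⟨a + a', b + b', by push_cast; ring⟩
  neg_mem' := by
    rintro _ ⟨a, b, rfl⟩
    exact ⟨-a, -b, by push_cast; ring⟩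

private theorem sqLat_small {M : ℝ} (hM : 0 < M) {l : ℂ} (hl : l ∈ sqLat M) (h : ‖l‖ < M) : l = 0 := by
  obtain ⟨a, b, rfl⟩ := hl
  rw [norm_mul, Complex.norm_real, Real.norm_of_nonneg hM.le] at h
  have h1 : ‖(a : ℂ) + (b : ℂ) * Complex.I‖ < 1 := by
    by_contra hcon
    push Not at hcon
    have : M * 1 ≤ M * ‖(a : ℂ) + (b : ℂ) * Complex.I‖ := mul_le_mul_of_nonneg_left hcon hM.le
    linarith
  have hre : ((a : ℂ) + (b : ℂ) * Complex.I).re = (a : ℝ) := by simp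
  have him : ((a : ℂ) + (b : ℂ) * Complex.I).im = (b : ℝ) := by simp
  have h2 : |(a : ℝ)| < 1 := by
    rw [← hre]
    exact (Complex.abs_re_le_norm _).trans_lt h1
  have h3 : |(b : ℝ)| < 1 := by
    rw [← him]
    exact (Complex.abs_im_le_norm _).trans_lt h1
  have h4 : a = 0 := by
    have h5 : |a| < 1 := by exact_mod_cast h2
    exact Int.abs_lt_one_iff.1 h5
  have h5 : b = 0 := by
    have h5 : |b| < 1 := by exact_mod_cast h3
    exact Int.abs_lt_one_iff.1 h5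
  rw [h4, h5]
  simp

theorem exists_lat₀ (R : ℝ) : ∃ Γ₀ : AddSubgroup ℂ, Pool.Agent.H62.EF.Lat Γ₀ ∧ ∀ l ∈ Γ₀, ‖l‖ ≤ R → l = 0 := by
  set M : ℝ := |R| + 1 with hMdef
  have hM : 0 < M := by positivity
  refine ⟨sqLat M, ⟨⟨M, hM, fun l hl h => sqLat_small hM hl h⟩, ⟨M * 2, by positivity, fun z => ?_⟩⟩, fun l hl h => sqLat_small hM hl ?_⟩
  · refine ⟨(M : ℂ) * (((round (z.re / M) : ℤ) : ℂ) + ((round (z.im / M) : ℤ) : ℂ) * Complex.I), ⟨_, _, rfl⟩, ?_⟩
    have hMC : (M : ℂ) ≠ 0 := by exact_mod_cast hM.ne'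
    have h1 : z - (M : ℂ) * (((round (z.re / M) : ℤ) : ℂ) + ((round (z.im / M) : ℤ) : ℂ) * Complex.I) =
        (M : ℂ) * (((z.re / M - round (z.re / M) : ℝ) : ℂ) + ((z.im / M - round (z.im / M) : ℝ) : ℂ) * Complex.I) := by
      generalize round (z.re / M) = a
      generalize round (z.im / M) = b
      push_cast
      field_simp
      conv_lhs => rw [← Complex.re_add_im z]
      ring
    rw [h1, norm_mul, Complex.norm_real, Real.norm_of_nonneg hM.le]
    refine mul_le_mul_of_nonneg_left ?_ hM.le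
    refine (norm_add_le _ _).trans ?_
    rw [norm_mul, Complex.norm_I, mul_one, Complex.norm_real, Complex.norm_real, Real.norm_eq_abs, Real.norm_eq_abs]
    have h2 := abs_sub_round (z.re / M)
    have h3 := abs_sub_round (z.im / M)
    linarith
  · have := le_abs_self R
    linarith

theorem exists_ln (G : Geo X Λ u D B) (hp : p ∈ D) (hpB : p ∉ B) (ht : TransAt D p e) :
    ∃ (κ : Vd (k + 1) → Vd (k + 1)) (c : ℂ → Vd (k + 1)) (Γ₀ : AddSubgroup ℂ) (s : ℝ), Ln X Λ u D κ p e c Γ₀ s := by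
  obtain ⟨κ, hκ, hnc⟩ := G.nc p hp hpB
  obtain ⟨he, htr⟩ := ht
  obtain ⟨ψ, hψ, hψκ, hκψ, hψ0⟩ := Pool.Agent.H62.BU.local_inverse hκ.an (fun v hv => hκ.inj (by rw [hv, map_zero]))
  rw [hκ.zero] at hψ hκψ hψ0
  set c : ℂ → Vd (k + 1) := fun z => ψ (p + z • e) with hcdef
  have hline : ∀ z : ℂ, HasDerivAt (fun z : ℂ => p + z • e) e z := by
    intro z
    have h4 : HasDerivAt (fun z : ℂ => z • e) ((1 : ℂ) • e) z := (hasDerivAt_id z).smul_const e
    rw [one_smul] at h4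
    exact h4.const_add p
  have hlan : ∀ z : ℂ, AnalyticAt ℂ (fun z : ℂ => p + z • e) z := fun z =>
    analyticAt_const.add (AnalyticAt.fun_smul analyticAt_id analyticAt_const)
  have hl0 : p + (0 : ℂ) • e = p := by simp
  have hlt : Tendsto (fun z : ℂ => p + z • e) (𝓝 0) (𝓝 p) := by
    have h1 := (hlan 0).continuousAt.tendsto
    rwa [hl0] at h1
  have hc0 : c 0 = 0 := by
    show ψ (p + (0 : ℂ) • e) = 0
    rw [hl0, hψ0]
  have hcan : AnalyticAt ℂ c 0 := AnalyticAt.fun_comp (g := ψ) (f := fun z : ℂ => p + z • e) (by rw [hl0]; exact hψ) (hlan 0)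
  have hκc : ∀ᶠ z in 𝓝 (0 : ℂ), κ (c z) = p + z • e := hlt.eventually hκψ
  have hκan0 : AnalyticAt ℂ κ (c 0) := by rw [hc0]; exact hκ.an
  have hcd : fderiv ℂ κ 0 (deriv c 0) = e := by
    have h1 : HasDerivAt (fun z => κ (c z)) (fderiv ℂ κ (c 0) (deriv c 0)) 0 :=
      hκan0.differentiableAt.hasFDerivAt.comp_hasDerivAt (0 : ℂ) hcan.differentiableAt.hasDerivAt
    rw [hc0] at h1
    exact h1.unique ((hline 0).congr_of_eventuallyEq hκc)
  have hcne : (deriv c 0) 0 ≠ 0 := fun h => htr κ hκ _ h hcd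
  -- the determinant
  have hdt0 : dt κ e c 0 ≠ 0 := by
    intro h0
    obtain ⟨v, hv, hv0⟩ := Matrix.exists_vecMul_eq_zero_iff.2 h0
    apply hv
    have h1 : v 0 • e + ∑ j : Fin k, v j.succ • fr κ c 0 j = 0 := by
      funext i
      have h2 := congrFun hv0 i
      rw [Matrix.vecMul, dotProduct, Fin.sum_univ_succ] at h2
      rw [Pi.add_apply, Finset.sum_apply]
      exact h2
    have h2 : fderiv ℂ κ 0 (v 0 • deriv c 0 + ∑ j : Fin k, v j.succ • (Pi.single j.succ 1 : Vd (k + 1))) = 0 := by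
      rw [map_add, map_smul, hcd, map_sum]
      refine Eq.trans ?_ h1
      congr 1
      refine Finset.sum_congr rfl fun j _ => ?_
      rw [map_smul, fr, hc0]
    have h3 : v 0 • deriv c 0 + ∑ j : Fin k, v j.succ • (Pi.single j.succ 1 : Vd (k + 1)) = 0 := hκ.inj (by rw [h2, map_zero])
    have h4 : v 0 = 0 := by
      have h5 := congrFun h3 0
      rw [Pi.add_apply, Finset.sum_apply, Finset.sum_eq_zero (fun j _ => by simp), add_zero, Pi.smul_apply, Pi.zero_apply, smul_eq_mul] at h5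
      exact (mul_eq_zero.1 h5).resolve_right hcne
    funext i
    refine Fin.cases h4 (fun j => ?_) i
    have h5 := congrFun h3 j.succ
    rw [h4, zero_smul, zero_add, Finset.sum_apply, Finset.sum_eq_single j] at h5
    · simpa using h5
    · intro b _ hb
      have h6 : (Pi.single b.succ 1 : Vd (k + 1)) j.succ = 0 := by
        rw [Pi.single_apply, if_neg]
        intro h7
        exact hb (Fin.succ_injective _ h7).symm
      rw [Pi.smul_apply, h6, smul_zero]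
    · intro h
      exact absurd (Finset.mem_univ _) h
  have hdtc : ContinuousAt (dt κ e c) 0 := by
    have h1 : ContinuousAt (fun z : ℂ => (Matrix.of fun i j => (Fin.cons e (fr κ c z) : Fin (k + 1) → Vd (k + 1)) i j :
        Matrix (Fin (k + 1)) (Fin (k + 1)) ℂ)) 0 := by
      refine continuousAt_pi.2 fun i => ?_
      refine Fin.cases ?_ (fun l => ?_) i
      · exact continuousAt_const
      · have h2 : ContinuousAt (fun z => fderiv ℂ κ (c z)) 0 :=
          ContinuousAt.comp (g := fderiv ℂ κ) (f := c) hκan0.fderiv.continuousAt hcan.continuousAt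
        exact h2.clm_apply continuousAt_const
    have h2 : Continuous fun M : Matrix (Fin (k + 1)) (Fin (k + 1)) ℂ => M.det := continuous_id.matrix_det
    exact ContinuousAt.comp (g := fun M : Matrix (Fin (k + 1)) (Fin (k + 1)) ℂ => M.det) h2.continuousAt h1
  -- points off `D`
  have hoff : ∀ᶠ z in 𝓝 (0 : ℂ), z ≠ 0 → p + z • e ∉ D := by
    have h1 : HasDerivAt (fun z => c z 0) (deriv c 0 0) 0 := hasDerivAt_pi.1 hcan.differentiableAt.hasDerivAt 0
    have h2 : ∀ᶠ z in 𝓝[≠] (0 : ℂ), c z 0 ≠ 0 := h1.eventually_ne hcne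
    rw [eventually_nhdsWithin_iff] at h2
    have h3 : ∀ᶠ z in 𝓝 (0 : ℂ), (κ (c z) ∈ D ↔ c z 0 = 0) := by
      have h4 := hcan.continuousAt.tendsto
      rw [hc0] at h4
      exact h4.eventually hκ.mem_iff
    filter_upwards [h2, h3, hκc] with z a1 a2 a3 hz
    rw [← a3, a2]
    exact a1 hz
  have hκan : ∀ᶠ z in 𝓝 (0 : ℂ), AnalyticAt ℂ κ (c z) := hcan.continuousAt.eventually hκan0.eventually_analyticAt
  obtain ⟨t, ht, hb⟩ := Metric.eventually_nhds_iff_ball.1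
    (hcan.eventually_analyticAt.and (hκan.and (hκc.and ((hdtc.eventually_ne hdt0).and hoff))))
  obtain ⟨δ, hδ, hdisc⟩ := G.lat.disc
  set s : ℝ := min (t / 2) (δ / (8 * (‖e‖ + 1))) with hsdef
  have hs : 0 < s := lt_min (by positivity) (by positivity)
  have hst : s < t := (min_le_left _ _).trans_lt (by linarith)
  have hmem : ∀ z : ℂ, ‖z‖ ≤ s → z ∈ ball (0 : ℂ) t := fun z hz => by
    rw [mem_ball_zero_iff]
    linarith
  obtain ⟨Γ₀, hΓ₀, hbig⟩ := exists_lat₀ (8 * s)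
  refine ⟨κ, c, Γ₀, s, ⟨G.cone, G.charts, G.tor, G.lat, hΓ₀, hs, he, fun l hl hln => ?_, hbig, fun z hz hzs => (hb z (hmem z hzs)).2.2.2.2 hz,
    G.sub, hnc, hc0, hcne, fun z hz => (hb z (hmem z (mem_closedBall_zero_iff.1 hz))).1, fun z hz => (hb z (hmem z (mem_closedBall_zero_iff.1 hz))).2.1,
    fun z hz => (hb z (hmem z (mem_closedBall_zero_iff.1 hz))).2.2.1, fun z hz => (hb z (hmem z (mem_closedBall_zero_iff.1 hz))).2.2.2.1⟩⟩
  refine hdisc l hl (hln.trans_lt ?_)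
  have h1 : s ≤ δ / (8 * (‖e‖ + 1)) := min_le_right _ _
  have h2 : 0 ≤ ‖e‖ := norm_nonneg e
  calc 4 * s * ‖e‖ ≤ 4 * (δ / (8 * (‖e‖ + 1))) * (‖e‖ + 1) := by gcongr; linarith
    _ = δ / 2 := by field_simp; ring
    _ < δ := by linarith

end Pool.Agent.TG

end
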