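import Pool.Agent.H94.G5T.M101
import Pool.Agent.H94.G5T.M124
import Pool.Agent.H94.G5T.M14
import Pool.Agent.H94.G5T.M53
import Pool.Agent.H94.G5T.M56

/-! The parts of this file: G3.R.Scal, G3.R.Comb. -/

section

/-!
# G3 R Scal: the integral of a form from a local section to curves which converge to a curve through the section

`p = y₀ + z₀ a ∉ Bad`, `g` an honest curve over `y₀ + ℂ a`, `S` a local section of `u` through `g` (`exists_sec`, `LG.iso`, `hgood`).  For curves `f n` over `y n + ℂ a`, `y n → y₀`, `f n → g`,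
the functions `z ↦ JJ α (y n + z a) (S (y n + z a)) (f n z)` extend to holomorphic functions `Tf n` on `ball z₀ r` (for most `n`).
* `p ∉ D`: `r` small, no hits in `closedBall z₀ r`; `Cst X Λ u D δ ε ε₀` (`exists_cst`) with `y₀ + z a ∈ Gd D (2 δ)` for `z ∈ closedBall z₀ r`; `II_curve` (A/JA; or `jj_an` in Z/JAn), `jj_eq_II`, with the lift of `f n` and
  `z ↦ S (y n + z a)`: both converge to `g` uniformly on `closedBall z₀ r` (`Lm.unif`).
* `p ∈ D`: `CRL` at `p` with `η` small: `s₀, ρ₀`; a `Cst` for the compact annulus `s₀ / 4 ≤ |z - z₀| ≤ s₀` (no hits there, `η` small); `Tf n z = J (z - z₀)` for `p' = y n + z₀ a`, `F` the lift of `S` on the line, `H` the lift of `f n`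
  (note the order of the arguments: the integral from the section to `f n`), `II = JJ` on the annulus by `jj_eq_II`.  Let `K` be compact without hits: `K ⊆ {t ≤ |z - z₀|}`; for most `n` the function `JJ ..` is holomorphic on
  `t / 2 < |z - z₀| < s₀` (a `Cst` for a smaller `δ`), and equal to `Tf n` on the annulus, so on all of it (identity theorem; annuli are preconnected: `A.isPreconnected_ann`).
-/

set_option autoImplicit false

open Topology Filter Metric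

namespace Pool.Agent.G3.R

open Pool.Agent.H36.BP (EN fs wd)
open Pool.Agent.H14.PP (IsCone CurveAt Tan)
open Pool.Agent.H62.EF (MN pr)
open Pool.Agent.AD (Vd Chart Charts IsGerm)
open Pool.Agent.TG
open Pool.Agent.G3.C (Gc HP nv nd nv_pr)
open Pool.Agent.G3.A

variable {N k : ℕ} {X : Set (EN N)} {Λ : AddSubgroup (Vd (k + 1))} {u : EN N → Vd (k + 1)} {D B Bad : Set (Vd (k + 1))} {a : Vd (k + 1)}

/-- a compact set of parameters without hits -/
private theorem sc_dist (hD : IsClosed D) {K : Set ℂ} (hK : IsCompact K) (y : Vd (k + 1)) (h : ∀ z ∈ K, y + z • a ∉ D) :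
    ∃ d : ℝ, 0 < d ∧ ∀ z ∈ K, y + z • a ∈ Gd D d := by
  have hc : IsCompact ((fun z : ℂ => y + z • a) '' K) := hK.image (by fun_prop)
  have hdis : Disjoint ((fun z : ℂ => y + z • a) '' K) D := by
    rw [Set.disjoint_left]
    rintro _ ⟨z, hz, rfl⟩
    exact h z hz
  obtain ⟨d, hd, hd2⟩ := hdis.exists_thickenings hc hD
  refine ⟨d, hd, fun z hz b hb => ?_⟩
  by_contra hlt
  push Not at hlt
  refine (Set.disjoint_left.1 hd2) (a := b) ?_ ?_
  · rw [mem_thickening_iff]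
    exact ⟨y + z • a, ⟨z, hz, rfl⟩, by rw [dist_comm, dist_eq_norm]; exact hlt⟩
  · rw [mem_thickening_iff]
    exact ⟨b, hb, by rw [dist_self]; exact hd⟩

/-- pointwise convergence along all sequences is uniform on compact sets -/
private theorem sc_unif {ι : Type*} {𝒰 : Ultrafilter ι} {f : ι → ℂ → MN N} {g : ℂ → MN N} (hg : Continuous g) {K : Set ℂ} (hK : IsCompact K)
    (h : ∀ z ∈ K, ∀ w : ι → ℂ, Tendsto w 𝒰 (𝓝 z) → Tendsto (fun n => f n (w n)) 𝒰 (𝓝 (g z))) {ε : ℝ} (hε : 0 < ε) :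
    ∀ᶠ n in (𝒰 : Filter ι), ∀ z ∈ K, dist (f n z) (g z) ≤ ε := by
  classical
  by_contra hcon
  rw [← Ultrafilter.eventually_not] at hcon
  have hcon' : ∀ᶠ n in (𝒰 : Filter ι), ∃ z ∈ K, ε < dist (f n z) (g z) := by
    filter_upwards [hcon] with n hn
    push Not at hn
    exact hn
  obtain ⟨n₀, z₀, hz₀, -⟩ := hcon'.exists
  obtain ⟨w, hw⟩ : ∃ w : ι → ℂ, ∀ n, w n ∈ K ∧ ((∃ z ∈ K, ε < dist (f n z) (g z)) → ε < dist (f n (w n)) (g (w n))) := by
    refine ⟨fun n => if hn : ∃ z ∈ K, ε < dist (f n z) (g z) then hn.choose else z₀, fun n => ?_⟩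
    by_cases hn : ∃ z ∈ K, ε < dist (f n z) (g z)
    · simp only [dif_pos hn]
      exact ⟨hn.choose_spec.1, fun _ => hn.choose_spec.2⟩
    · simp only [dif_neg hn]
      exact ⟨hz₀, fun h' => absurd h' hn⟩
  have hle : ((𝒰.map w : Ultrafilter ℂ) : Filter ℂ) ≤ 𝓟 K := by
    rw [le_principal_iff, Ultrafilter.mem_coe, Ultrafilter.mem_map]
    exact Filter.Eventually.of_forall fun n => (hw n).1
  obtain ⟨z, hzK, hz⟩ := hK.ultrafilter_le_nhds (𝒰.map w) hle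
  have hwz : Tendsto w 𝒰 (𝓝 z) := hz
  have h1 : Tendsto (fun n => f n (w n)) 𝒰 (𝓝 (g z)) := h z hzK w hwz
  have h2 : Tendsto (fun n => g (w n)) 𝒰 (𝓝 (g z)) := (hg.tendsto z).comp hwz
  have h3 : Tendsto (fun n => dist (f n (w n)) (g (w n))) 𝒰 (𝓝 0) := by
    have h4 := h1.dist h2
    rwa [dist_self] at h4
  obtain ⟨n, h5, h6⟩ := ((h3.eventually_lt_const hε).and hcon').exists
  exact absurd ((hw n).2 h6) (not_lt.2 h5.le)

/-- the points of the lines near the line through the centre -/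
private theorem sc_ball (ha : ‖a‖ = 1) {y₀ y : Vd (k + 1)} {z₀ z : ℂ} {s t : ℝ} (hz : dist z z₀ ≤ s) (hy : dist y y₀ < t - s) : y + z • a ∈ ball (y₀ + z₀ • a) t := by
  rw [mem_ball, dist_eq_norm]
  have e : y + z • a - (y₀ + z₀ • a) = (y - y₀) + (z - z₀) • a := by
    rw [sub_smul]
    abel
  rw [e]
  refine (norm_add_le _ _).trans_lt ?_
  rw [norm_smul, ha, mul_one, ← dist_eq_norm, ← dist_eq_norm]
  linarith

/-- over a compact set without hits most lines are far from `D`, and the curves are close to the section -/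
private theorem sc_K (G : Geo X Λ u D B) (ha : ‖a‖ = 1) {ι : Type*} {𝒰 : Ultrafilter ι} {y : ι → Vd (k + 1)} {y₀ : Vd (k + 1)}
    (hy : Tendsto y 𝒰 (𝓝 y₀)) {f : ι → ℂ → MN N} {g : ℂ → MN N} (hg : Continuous g) (hfg : Lm D a 𝒰 y₀ f g) {z₀ : ℂ} {S : Vd (k + 1) → EN N} {r₁ s : ℝ} (hs : s < r₁)
    (hS : ∀ y ∈ ball (y₀ + z₀ • a) r₁, AnalyticAt ℂ S y ∧ S y ∈ X ∧ u (S y) - y ∈ Λ) (hSg : ∀ z ∈ ball z₀ r₁, pr (S (y₀ + z • a)) = g z)
    {K : Set ℂ} (hK : IsCompact K) (hKs : ∀ z ∈ K, dist z z₀ ≤ s) (hKD : ∀ z ∈ K, y₀ + z • a ∉ D) :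
    ∃ δ : ℝ, 0 < δ ∧ (∀ᶠ n in (𝒰 : Filter ι), ∀ z ∈ K, y n + z • a ∈ Gd D δ) ∧
      ∀ ε : ℝ, 0 < ε → ∀ᶠ n in (𝒰 : Filter ι), ∀ z ∈ K, dist (pr (S (y n + z • a))) (f n z) ≤ ε := by
  obtain ⟨d, hd, hdK⟩ := sc_dist G.D_closed hK y₀ hKD
  refine ⟨d / 2, half_pos hd, ?_, fun ε hε => ?_⟩
  · filter_upwards [hy.eventually (ball_mem_nhds y₀ (half_pos hd))] with n hn z hz
    have h1 := gd_near (hdK z hz) (w := y n + z • a) (r := d / 2) (by
      rw [add_sub_add_right_eq_sub, ← dist_eq_norm]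
      exact (mem_ball.1 hn).le)
    exact gd_mono (by linarith) h1
  · have h0 : ∀ z ∈ K, ∀ w : ι → ℂ, Tendsto w 𝒰 (𝓝 z) → Tendsto (fun n => pr (S (y n + w n • a))) 𝒰 (𝓝 (g z)) := by
      intro z hz w hw
      have h1 : y₀ + z • a ∈ ball (y₀ + z₀ • a) r₁ := sc_ball ha (hKs z hz) (by rw [dist_self]; linarith)
      have h2 : z ∈ ball z₀ r₁ := mem_ball.2 (lt_of_le_of_lt (hKs z hz) hs)
      obtain ⟨h3, h4, -⟩ := hS _ h1
      have h5 : ContinuousAt (fun q => pr (S q)) (y₀ + z • a) :=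
        ContinuousAt.comp (g := pr) (f := S) (Pool.Agent.H62.EF.continuousAt_pr (ne_zero G.cone h4)) h3.continuousAt
      have h6 : Tendsto (fun n => y n + w n • a) 𝒰 (𝓝 (y₀ + z • a)) := hy.add (hw.smul_const a)
      have h7 := h5.tendsto.comp h6
      rwa [hSg z h2] at h7
    filter_upwards [hfg.unif hg hK hKD (half_pos hε), sc_unif (f := fun n z => pr (S (y n + z • a))) hg hK h0 (half_pos hε)] with n h1 h2 z hz
    have h3 := dist_triangle_right (pr (S (y n + z • a))) (f n z) (g z)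
    have h4 := h1 z hz
    have h5 := h2 z hz
    linarith

/-- the integral is holomorphic off the hits -/
private theorem sc_an (G : Geo X Λ u D B) (ha : ‖a‖ = 1) {ι : Type*} {𝒰 : Ultrafilter ι} {y : ι → Vd (k + 1)} {y₀ : Vd (k + 1)}
    (hy : Tendsto y 𝒰 (𝓝 y₀)) {f : ι → ℂ → MN N} (hf : ∀ᶠ n in (𝒰 : Filter ι), f n ∈ Hc X Λ u a (y n)) {g : ℂ → MN N} (hg : Continuous g) (hfg : Lm D a 𝒰 y₀ f g)
    {z₀ : ℂ} {S : Vd (k + 1) → EN N} {r₁ s : ℝ} (hs : s < r₁)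
    (hS : ∀ y ∈ ball (y₀ + z₀ • a) r₁, AnalyticAt ℂ S y ∧ S y ∈ X ∧ u (S y) - y ∈ Λ) (hSg : ∀ z ∈ ball z₀ r₁, pr (S (y₀ + z • a)) = g z) (α : VForm X Λ u)
    {K U : Set ℂ} (hK : IsCompact K) (hKs : ∀ z ∈ K, dist z z₀ ≤ s) (hKD : ∀ z ∈ K, y₀ + z • a ∉ D) (hU : IsOpen U) (hUK : U ⊆ K) :
    ∀ᶠ n in (𝒰 : Filter ι), DifferentiableOn ℂ (fun x => JJ α (y n + x • a) (pr (S (y n + x • a))) (f n x)) U := by
  obtain ⟨δ, hδ, h1, h2⟩ := sc_K G ha hy hg hfg hs hS hSg hK hKs hKD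
  obtain ⟨ε, ε₀, -, -, hc⟩ := exists_cst G hδ one_pos
  filter_upwards [hf, h1, h2 ε₀ hc.ε₀_pos, hy.eventually (ball_mem_nhds y₀ (sub_pos.2 hs))] with n hfn h3 h4 h5
  have hfm := hc_mem hfn
  obtain ⟨H, ⟨hHd, hHX, hHu⟩, hHe⟩ := hfn
  have hSn : ∀ z ∈ K, AnalyticAt ℂ S (y n + z • a) ∧ S (y n + z • a) ∈ X ∧ u (S (y n + z • a)) - (y n + z • a) ∈ Λ :=
    fun z hz => hS _ (sc_ball ha (hKs z hz) (mem_ball.1 h5))
  have hSm : ∀ z ∈ K, pr (S (y n + z • a)) ∈ Fb X Λ u (y n + z • a) := fun z hz => ⟨_, (hSn z hz).2.1, rfl, (hSn z hz).2.2⟩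
  intro x₀ hx₀
  have hx₀K := hUK hx₀
  have hla : AnalyticAt ℂ (fun x : ℂ => y n + x • a) x₀ := by fun_prop
  have hFa : AnalyticAt ℂ (fun x : ℂ => S (y n + x • a)) x₀ := AnalyticAt.comp (g := S) (f := fun x : ℂ => y n + x • a) (hSn x₀ hx₀K).1 hla
  obtain ⟨χ, c, ρ, hcap⟩ := hc.cap (y n + x₀ • a) (h3 x₀ hx₀K) (pr (S (y n + x₀ • a))) (hSm x₀ hx₀K)
  have hrel : ∀ᶠ z in 𝓝 x₀, ∃ v, IRel α ε (y n + z • a) (pr (S (y n + z • a))) (pr (H z)) v := by
    filter_upwards [hU.mem_nhds hx₀] with z hz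
    have h5 := hc.rel (y n + z • a) (h3 z (hUK hz)) (pr (S (y n + z • a))) (hSm z (hUK hz)) (f n z) (hfm z) (h4 z (hUK hz)) α
    rw [hHe] at h5
    exact h5
  have h6 := II_curve G.cone G.tor G.lat (F := fun x => S (y n + x • a)) hFa (hHd.analyticAt x₀) hla
    (by filter_upwards [hU.mem_nhds hx₀] with z hz using (hSn z (hUK hz)).2) (Eventually.of_forall fun z => ⟨hHX z, hHu z⟩) hcap (by linarith [hc.ε_pos]) hrel
  have h7 : (fun z => II α ε (y n + z • a) (pr (S (y n + z • a))) (pr (H z))) =ᶠ[𝓝 x₀] fun x => JJ α (y n + x • a) (pr (S (y n + x • a))) (f n x) := by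
    filter_upwards [hU.mem_nhds hx₀] with z hz
    have h8 := jj_eq_II G.cone G.tor G.lat (α := α) hc (h3 z (hUK hz)) (hSm z (hUK hz)) (hfm z) (h4 z (hUK hz))
    rw [h8, hHe]
  exact (h6.congr h7).differentiableAt.differentiableWithinAt

theorem exists_scal (G : Geo X Λ u D B) (hL : LG Λ D Bad a) (hCR : ∀ p ∈ D, p ∉ Bad → CRL X Λ u D a p) (hgood : ∀ p ∈ D, p ∉ Bad → p ∉ B ∧ TransAt D p a) {y₀ : Vd (k + 1)}
    {g : ℂ → MN N} (hg : g ∈ Hc X Λ u a y₀) {z₀ : ℂ} (h : y₀ + z₀ • a ∉ Bad) (α : VForm X Λ u) : ∃ (r : ℝ) (S : Vd (k + 1) → EN N), 0 < r ∧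
      (∀ y ∈ ball (y₀ + z₀ • a) r, AnalyticAt ℂ S y ∧ S y ∈ X ∧ u (S y) - y ∈ Λ) ∧ (∀ z ∈ ball z₀ r, pr (S (y₀ + z • a)) = g z) ∧
      (∀ z ∈ ball z₀ r, z ≠ z₀ → y₀ + z • a ∉ D) ∧
      ∀ {ι : Type} (𝒰 : Ultrafilter ι) (y : ι → Vd (k + 1)) (f : ι → ℂ → MN N), Tendsto y 𝒰 (𝓝 y₀) → (∀ᶠ n in (𝒰 : Filter ι), f n ∈ Hc X Λ u a (y n)) → Lm D a 𝒰 y₀ f g →
        ∃ Tf : ι → ℂ → ℂ, (∀ᶠ n in (𝒰 : Filter ι), DifferentiableOn ℂ (Tf n) (ball z₀ r)) ∧
          ∀ K : Set ℂ, IsCompact K → K ⊆ ball z₀ r → (∀ z ∈ K, y₀ + z • a ∉ D) → ∀ᶠ n in (𝒰 : Filter ι), ∀ z ∈ K, Tf n z = JJ α (y n + z • a) (pr (S (y n + z • a))) (f n z) := by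
  classical
  have ha : ‖a‖ = 1 := hL.norm
  have ha0 : a ≠ 0 := by
    rintro rfl
    rw [norm_zero] at ha
    exact zero_ne_one ha
  have hgc := hc_cont G.cone hg
  obtain ⟨r₁, S, hr₁, hS, hSg⟩ : ∃ (r : ℝ) (S : Vd (k + 1) → EN N), 0 < r ∧
      (∀ y ∈ ball (y₀ + z₀ • a) r, AnalyticAt ℂ S y ∧ S y ∈ X ∧ u (S y) - y ∈ Λ) ∧ ∀ z ∈ ball z₀ r, pr (S (y₀ + z • a)) = g z := by
    obtain ⟨F₀, ⟨hFd, hFX, hFu⟩, hFe⟩ := hg
    obtain ⟨r, S, h1, h2, h3⟩ := exists_sec G ha0 (fun hD => hgood _ hD h) (hFd.analyticAt z₀) (Eventually.of_forall fun z => ⟨hFX z, hFu z⟩)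
    exact ⟨r, S, h1, h2, fun z hz => by rw [h3 z hz, hFe]⟩
  by_cases hD : y₀ + z₀ • a ∈ D
  · -- a good hit
    set p : Vd (k + 1) := y₀ + z₀ • a with hp
    obtain ⟨η, hη, hηD⟩ : ∃ η : ℝ, 0 < η ∧ ∀ z : ℂ, z ≠ 0 → ‖z‖ ≤ η → p + z • a ∉ D := by
      have h1 := hL.iso p
      rw [eventually_nhdsWithin_iff, Metric.eventually_nhds_iff] at h1
      obtain ⟨η, hη, h2⟩ := h1
      refine ⟨η / 2, half_pos hη, fun z hz hzη => h2 ?_ hz⟩
      rw [dist_zero_right]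
      linarith
    obtain ⟨s₀, ρ₀, hs₀, hsη, hρ₀, hcr⟩ := hCR p hD h (min η (r₁ / 4)) (lt_min hη (by linarith))
    have hsη' : s₀ ≤ η := hsη.trans (min_le_left _ _)
    have hsr : s₀ ≤ r₁ / 4 := hsη.trans (min_le_right _ _)
    have hoff : ∀ x : ℂ, x ≠ z₀ → dist x z₀ ≤ s₀ → y₀ + x • a ∉ D := by
      intro x hx hxd
      have h1 := hηD (x - z₀) (sub_ne_zero.2 hx) (by rw [← dist_eq_norm]; linarith)
      have e : p + (x - z₀) • a = y₀ + x • a := by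
        rw [hp, sub_smul]
        abel
      rwa [e] at h1
    refine ⟨s₀, S, hs₀, fun y hy => hS y (ball_subset_ball (by linarith) hy), fun z hz => hSg z (ball_subset_ball (by linarith) hz),
      fun z hz hzz => hoff z hzz (mem_ball.1 hz).le, ?_⟩
    intro ι 𝒰 y f hy hf hfg
    have hs1 : s₀ < r₁ := by linarith
    have hKc : ∀ d : ℝ, IsCompact {x : ℂ | d ≤ dist x z₀ ∧ dist x z₀ ≤ s₀} := by
      intro d
      have h1 : {x : ℂ | d ≤ dist x z₀ ∧ dist x z₀ ≤ s₀} = closedBall z₀ s₀ ∩ {x : ℂ | d ≤ dist x z₀} := by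
        ext x
        simp only [Set.mem_ofPred_eq, Set.mem_inter_iff, mem_closedBall]
        exact and_comm
      rw [h1]
      exact (isCompact_closedBall z₀ s₀).inter_right (isClosed_le continuous_const (continuous_id.dist continuous_const))
    have hKs : ∀ d : ℝ, ∀ x ∈ {x : ℂ | d ≤ dist x z₀ ∧ dist x z₀ ≤ s₀}, dist x z₀ ≤ s₀ := fun d x hx => hx.2
    have hKD : ∀ d : ℝ, 0 < d → ∀ x ∈ {x : ℂ | d ≤ dist x z₀ ∧ dist x z₀ ≤ s₀}, y₀ + x • a ∉ D := by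
      intro d hd x hx
      refine hoff x ?_ hx.2
      rintro rfl
      have := hx.1
      rw [dist_self] at this
      linarith
    obtain ⟨δ₁, hδ₁, hgd, hcl⟩ := sc_K G ha hy hgc hfg hs1 hS hSg (hKc (s₀ / 4)) (hKs (s₀ / 4)) (hKD (s₀ / 4) (by linarith))
    obtain ⟨ε, ε₀, -, -, hc⟩ := exists_cst G hδ₁ one_pos
    obtain ⟨ε₁, hε₁, hε₁₀, hcr1⟩ := hcr δ₁ ε ε₀ hc
    have hpn : Tendsto (fun n => y n + z₀ • a) 𝒰 (𝓝 p) := hy.add_const _
    have hJ : ∀ᶠ n in (𝒰 : Filter ι), ∃ J' : ℂ → ℂ, DifferentiableOn ℂ J' (ball z₀ s₀) ∧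
        ∀ x : ℂ, s₀ / 4 < dist x z₀ → dist x z₀ < s₀ → J' x = JJ α (y n + x • a) (pr (S (y n + x • a))) (f n x) := by
      filter_upwards [hf, hgd, hcl ε₁ hε₁, hpn.eventually (ball_mem_nhds p hρ₀), hy.eventually (ball_mem_nhds y₀ (half_pos hr₁))] with n hfn h3 h4 h5 hyn
      have hfm := hc_mem hfn
      obtain ⟨H, ⟨hHd, hHX, hHu⟩, hHe⟩ := hfn
      have hSn : ∀ z : ℂ, dist z z₀ ≤ 2 * s₀ → AnalyticAt ℂ S (y n + z • a) ∧ S (y n + z • a) ∈ X ∧ u (S (y n + z • a)) - (y n + z • a) ∈ Λ :=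
        fun z hz => hS _ (sc_ball ha hz (by have := mem_ball.1 hyn; linarith))
      have e0 : ∀ z : ℂ, y n + z₀ • a + z • a = y n + (z₀ + z) • a := by
        intro z
        rw [add_smul]
        abel
      have hdz : ∀ z ∈ ball (0 : ℂ) (2 * s₀), dist (z₀ + z) z₀ ≤ 2 * s₀ := by
        intro z hz
        rw [dist_eq_norm, add_sub_cancel_left]
        exact (mem_ball_zero_iff.1 hz).le
      have hmem : ∀ z : ℂ, s₀ / 4 ≤ ‖z‖ → ‖z‖ ≤ s₀ → z₀ + z ∈ {x : ℂ | s₀ / 4 ≤ dist x z₀ ∧ dist x z₀ ≤ s₀} := by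
        intro z h6 h7
        simp only [Set.mem_ofPred_eq, dist_eq_norm, add_sub_cancel_left]
        exact ⟨h6, h7⟩
      obtain ⟨J', hJ', hJe⟩ := hcr1 (y n + z₀ • a) h5 (fun z h6 h7 => by rw [e0]; exact h3 _ (hmem z h6 h7)) α (fun z => S (y n + (z₀ + z) • a)) (fun z => H (z₀ + z))
        (fun z hz => by
          have h8 : AnalyticAt ℂ (fun z : ℂ => y n + (z₀ + z) • a) z := by fun_prop
          exact (AnalyticAt.comp (g := S) (f := fun z : ℂ => y n + (z₀ + z) • a) (hSn _ (hdz z hz)).1 h8).differentiableAt.differentiableWithinAt)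
        (fun z hz => by rw [e0]; exact (hSn _ (hdz z hz)).2)
        (hHd.comp (differentiable_id.const_add z₀)).differentiableOn (fun z _ => ⟨hHX _, by rw [e0]; exact hHu _⟩)
        (fun z h6 h7 => by
          have h8 := h4 _ (hmem z h6 h7)
          rw [hHe] at h8
          exact h8)
      refine ⟨fun x => J' (x - z₀), ?_, fun x h6 h7 => ?_⟩
      · refine hJ'.comp (differentiable_id.sub_const z₀).differentiableOn fun x hx => ?_
        rw [mem_ball, dist_eq_norm] at hx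
        rw [mem_ball, dist_zero_right]
        exact hx
      · have hSx := hSn x (by linarith)
        rw [dist_eq_norm] at h6 h7
        have h8 := hJe (x - z₀) h6 h7
        have h9 := hmem (x - z₀) h6.le h7.le
        rw [add_sub_cancel] at h9
        show J' (x - z₀) = _
        rw [h8, e0, jj_eq_II G.cone G.tor G.lat (α := α) hc (h3 x h9) ⟨_, hSx.2.1, rfl, hSx.2.2⟩ (hfm x) ((h4 x h9).trans hε₁₀), hHe, add_sub_cancel]
    obtain ⟨J, hJs⟩ : ∃ J : ι → ℂ → ℂ, ∀ n, (∃ J' : ℂ → ℂ, DifferentiableOn ℂ J' (ball z₀ s₀) ∧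
        ∀ x : ℂ, s₀ / 4 < dist x z₀ → dist x z₀ < s₀ → J' x = JJ α (y n + x • a) (pr (S (y n + x • a))) (f n x)) →
        DifferentiableOn ℂ (J n) (ball z₀ s₀) ∧ ∀ x : ℂ, s₀ / 4 < dist x z₀ → dist x z₀ < s₀ → J n x = JJ α (y n + x • a) (pr (S (y n + x • a))) (f n x) := by
      refine ⟨fun n => if hn : ∃ J' : ℂ → ℂ, DifferentiableOn ℂ J' (ball z₀ s₀) ∧
        ∀ x : ℂ, s₀ / 4 < dist x z₀ → dist x z₀ < s₀ → J' x = JJ α (y n + x • a) (pr (S (y n + x • a))) (f n x) then hn.choose else 0, fun n hn => ?_⟩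
      simp only [dif_pos hn]
      exact hn.choose_spec
    have hJn := hJ.mono fun n hn => hJs n hn
    refine ⟨J, hJn.mono fun n hn => hn.1, fun K hK hKb hKD' => ?_⟩
    -- the distance of `K` from the centre
    obtain ⟨d, hd, hdK⟩ : ∃ d : ℝ, 0 < d ∧ ∀ z ∈ K, d < dist z z₀ := by
      rcases K.eq_empty_or_nonempty with rfl | hne
      · exact ⟨1, one_pos, fun z hz => absurd hz (Set.notMem_empty z)⟩
      · obtain ⟨w, hw, hwm⟩ := hK.exists_isMinOn hne (f := fun z => dist z z₀) (by fun_prop)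
        have hw0 : 0 < dist w z₀ := by
          rw [dist_pos]
          rintro rfl
          exact hKD' w hw hD
        exact ⟨dist w z₀ / 2, half_pos hw0, fun z hz => by have : dist w z₀ ≤ dist z z₀ := hwm hz; linarith⟩
    have hU : IsOpen {x : ℂ | d < dist x z₀ ∧ dist x z₀ < s₀} :=
      (isOpen_lt continuous_const (continuous_id.dist continuous_const)).inter (isOpen_lt (continuous_id.dist continuous_const) continuous_const)
    filter_upwards [hJn, sc_an G ha hy hf hgc hfg hs1 hS hSg α (hKc d) (hKs d) (hKD d hd) hU (fun x hx => ⟨hx.1.le, hx.2.le⟩)] with n hn hdn x hxK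
    have hx1 : d < dist x z₀ := hdK x hxK
    have hx2 : dist x z₀ < s₀ := mem_ball.1 (hKb hxK)
    have hds : d < s₀ := hx1.trans hx2
    -- the point `q`
    set t : ℝ := (max (s₀ / 4) d + s₀) / 2 with ht
    have hm : max (s₀ / 4) d < s₀ := max_lt (by linarith) hds
    have ht1 : max (s₀ / 4) d < t := by linarith
    have ht2 : t < s₀ := by linarith
    have ht0 : 0 < t := lt_trans (lt_of_lt_of_le (by linarith) (le_max_left (s₀ / 4) d)) ht1
    have hqd : dist (z₀ + (t : ℂ)) z₀ = t := by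
      rw [dist_eq_norm, add_sub_cancel_left, Complex.norm_real, Real.norm_of_nonneg ht0.le]
    have hqU : z₀ + (t : ℂ) ∈ {x : ℂ | d < dist x z₀ ∧ dist x z₀ < s₀} := by
      rw [Set.mem_ofPred_eq, hqd]
      exact ⟨lt_of_le_of_lt (le_max_right _ _) ht1, ht2⟩
    have hsub : {x : ℂ | d < dist x z₀ ∧ dist x z₀ < s₀} ⊆ ball z₀ s₀ := fun x hx => hx.2
    have hA1 : AnalyticOnNhd ℂ (J n) {x : ℂ | d < dist x z₀ ∧ dist x z₀ < s₀} := (hn.1.mono hsub).analyticOnNhd hU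
    have hA2 := hdn.analyticOnNhd hU
    have heq : J n =ᶠ[𝓝 (z₀ + (t : ℂ))] fun x => JJ α (y n + x • a) (pr (S (y n + x • a))) (f n x) := by
      have h1 : IsOpen {x : ℂ | s₀ / 4 < dist x z₀ ∧ dist x z₀ < s₀} :=
        (isOpen_lt continuous_const (continuous_id.dist continuous_const)).inter (isOpen_lt (continuous_id.dist continuous_const) continuous_const)
      have h2 : z₀ + (t : ℂ) ∈ {x : ℂ | s₀ / 4 < dist x z₀ ∧ dist x z₀ < s₀} := by
        rw [Set.mem_ofPred_eq, hqd]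
        exact ⟨lt_of_le_of_lt (le_max_left _ _) ht1, ht2⟩
      filter_upwards [h1.mem_nhds h2] with x hx
      exact hn.2 x hx.1 hx.2
    exact hA1.eqOn_of_preconnected_of_eventuallyEq hA2 (isPreconnected_ann z₀ hd.le) hqU heq ⟨hx1, hx2⟩
  · -- not a hit
    have hop : IsOpen {x : ℂ | y₀ + x • a ∉ D} := by
      have hc : Continuous fun x : ℂ => y₀ + x • a := by fun_prop
      exact G.D_closed.isOpen_compl.preimage hc
    obtain ⟨r, hr, hrs⟩ := Metric.isOpen_iff.1 hop z₀ hD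
    have hr2 : 0 < min r r₁ / 2 := half_pos (lt_min hr hr₁)
    have hrr : min r r₁ ≤ r := min_le_left _ _
    have hrr1 : min r r₁ ≤ r₁ := min_le_right _ _
    have hK : ∀ x ∈ closedBall z₀ (min r r₁ / 2), y₀ + x • a ∉ D := fun x hx => hrs (closedBall_subset_ball (by linarith) hx)
    refine ⟨min r r₁ / 2, S, hr2, fun y hy => hS y (ball_subset_ball (by linarith) hy), fun z hz => hSg z (ball_subset_ball (by linarith) hz),
      fun z hz _ => hK z (ball_subset_closedBall hz), ?_⟩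
    intro ι 𝒰 y f hy hf hfg
    refine ⟨fun n x => JJ α (y n + x • a) (pr (S (y n + x • a))) (f n x), ?_, fun K _ _ _ => Eventually.of_forall fun n x _ => rfl⟩
    exact sc_an G ha hy hf hgc hfg (s := min r r₁ / 2) (by linarith) hS hSg α (isCompact_closedBall z₀ (min r r₁ / 2)) (fun z hz => mem_closedBall.1 hz) hK isOpen_ball
      ball_subset_closedBall

end Pool.Agent.G3.R

end

section

/-!
# G3 R Comb: the limit lemma for linear combinations of values on honest curves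

Curves `f i n` over `y i n + ℂ a`, `y i n → y₀`, all converging to `g` over `y₀ + ℂ a`, coefficients `c n i`.  `hb1`: the combination kills holomorphic functions of `y` in the limit.  `hb2`: it is bounded by
`C exp (-c |x|²)` over `Gd D (δ / 2)`, in terms of suitable local primitives.  Then its value at a point of the core tends to `0`.
PROOF: `A.LL` with `E = {z | y₀ + z a ∈ Bad}`, `ν = 1`, `ω` from `LC.strip`, `Rg n = {x | y₀ + x a ∈ Gd D δ}`, and for `z₀ ∉ E` `g z₀ n x = ∑ i, c n i * Tf i n x` with `Tf i` from `exists_scal` (the section `S` and the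
radius do not depend on `i`).  The radius `r z₀` is so small that `closedBall z₀ (2 r)` is in the ball of `exists_scal` (so it contains no hit except possibly `z₀`), `r ≤ δ / 4`, and, if `y₀ + z₀ a ∈ Gd D (δ / 2)`, that `hb2` and `hb1`
(for `h` of `jj_prm` at `z₀`) hold on `ball z₀ (2 r)`; if `z₀` is not a hit, `closedBall z₀ (2 r)` contains no hit.
* h2: `closedBall z₀ (r z₀) ∩ closedBall z₁ (r z₁)`, `z₀ ≠ z₁`, is compact without hits; near each of its points `x` take a `Prm` (`exists_prm` at a unit vector `v ∈ X` with `pr v = g x`) and `jj_prm` twice: the difference is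
  `∑ i, c n i * (h₁ - h₀) (y i n + x' a)`, `hb1`.
* h3: if `x ∈ ball z₀ (r z₀)`, `y₀ + x a ∈ Gd D δ` then `y₀ + z₀ a ∈ Gd D (δ / 2)`; `jj_prm` for the `Prm` of `hb2`; the additional term is `≤ ε = exp (-c' (‖z₀‖ + 1)²)` for most `n`.
* h4: `LC.circ` at `y₀ + z₀ a`, or `LC.ann` if there is `e ∈ E` with `‖z₀ - e‖ < ρ / 2`.
-/

set_option autoImplicit false

open Topology Filter Metric

namespace Pool.Agent.G3.R

open Pool.Agent.H36.BP (EN fs wd)
open Pool.Agent.H14.PP (IsCone CurveAt Tan)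
open Pool.Agent.H62.EF (MN pr)
open Pool.Agent.AD (Vd Chart Charts IsGerm)
open Pool.Agent.TG
open Pool.Agent.G3.C (Gc HP nv nd nv_pr)
open Pool.Agent.G3.A

variable {N k : ℕ} {X : Set (EN N)} {Λ : AddSubgroup (Vd (k + 1))} {u : EN N → Vd (k + 1)} {D B Bad : Set (Vd (k + 1))} {a : Vd (k + 1)}

/-- the combination with the coefficients `c n i` at the points `y i n` kills holomorphic functions, at the point `y₀ + x a` -/
def Kil {ι : Type} (l : Filter ι) (a : Vd (k + 1)) {M : ℕ} (y : Fin M → ι → Vd (k + 1)) (c : ι → Fin M → ℂ) (y₀ : Vd (k + 1)) (x : ℂ) : Prop :=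
  ∀ h : Vd (k + 1) → ℂ, AnalyticAt ℂ h (y₀ + x • a) → ∃ t : ℝ, 0 < t ∧ ∀ ε : ℝ, 0 < ε → ∀ᶠ n in l, ∀ x' ∈ ball x t, ‖∑ i, c n i * h (y i n + x' • a)‖ ≤ ε

/-- the integrals from a local section in terms of a local primitive, up to an error which tends to `0` -/
private theorem comb_prm (G : Geo X Λ u D B) {α : VForm X Λ u} {ι : Type} {𝒰 : Ultrafilter ι} {M : ℕ} {y : Fin M → ι → Vd (k + 1)} {y₀ : Vd (k + 1)}
    (hy : ∀ i, Tendsto (y i) 𝒰 (𝓝 y₀)) {f : Fin M → ι → ℂ → MN N} (hf : ∀ i, ∀ᶠ n in (𝒰 : Filter ι), f i n ∈ Hc X Λ u a (y i n)) {g : ℂ → MN N} (hgc : Continuous g)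
    (hlim : ∀ i, Lm D a 𝒰 y₀ (f i) g) {c : ι → Fin M → ℂ} {x₀ : ℂ} (hx₀ : ∀ᶠ x in 𝓝 x₀, y₀ + x • a ∉ D) (hb1 : Kil (𝒰 : Filter ι) a y c y₀ x₀)
    {S : Vd (k + 1) → EN N} (hS : AnalyticAt ℂ S (y₀ + x₀ • a)) (hSX : ∀ᶠ y in 𝓝 (y₀ + x₀ • a), S y ∈ X ∧ u (S y) - y ∈ Λ) (hSg : pr (S (y₀ + x₀ • a)) = g x₀)
    {Ψ : EN N → ℂ} {v : EN N} {R : ℝ} (hΨ : Prm α (y₀ + x₀ • a) v R Ψ) (hv : pr v = g x₀) :
    ∃ t : ℝ, 0 < t ∧ ∀ ε : ℝ, 0 < ε → ∀ᶠ n in (𝒰 : Filter ι), ∀ x ∈ ball x₀ t,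
      ‖(∑ i, c n i * JJ α (y i n + x • a) (pr (S (y i n + x • a))) (f i n x)) - ∑ i, c n i * Ψ (nv v (f i n x))‖ ≤ ε := by
  obtain ⟨han, ε₀, hε₀, hJ⟩ := jj_prm G hΨ hS hSX (hSg.trans hv.symm)
  obtain ⟨t₁, ht₁, hk⟩ := hb1 _ han
  have e1 : ∀ᶠ x in 𝓝 x₀, dist (g x) (g x₀) < ε₀ / 2 := Metric.tendsto_nhds.1 (hgc.tendsto x₀) _ (by linarith)
  have e2 : ∀ᶠ x in 𝓝 x₀, ‖(x - x₀) • a‖ < ε₀ / 2 := by
    have h1 : Continuous fun x : ℂ => ‖(x - x₀) • a‖ := by fun_prop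
    have h2 : (fun x : ℂ => ‖(x - x₀) • a‖) x₀ < ε₀ / 2 := by
      simp only [sub_self, zero_smul, norm_zero]
      linarith
    exact h1.continuousAt.eventually (isOpen_Iio.mem_nhds h2)
  obtain ⟨t₂, ht₂, h2⟩ := Metric.eventually_nhds_iff_ball.1 (hx₀.and (e1.and e2))
  have hKD : ∀ x ∈ closedBall x₀ (t₂ / 2), y₀ + x • a ∉ D := fun x hx => (h2 x (closedBall_subset_ball (by linarith) hx)).1
  have hun : ∀ᶠ n in (𝒰 : Filter ι), ∀ i, ∀ x ∈ closedBall x₀ (t₂ / 2), dist (f i n x) (g x) ≤ ε₀ / 4 :=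
    Filter.eventually_all.2 fun i => (hlim i).unif hgc (isCompact_closedBall _ _) hKD (by linarith)
  have hyn : ∀ᶠ n in (𝒰 : Filter ι), ∀ i, dist (y i n) y₀ < ε₀ / 2 := Filter.eventually_all.2 fun i => Metric.tendsto_nhds.1 (hy i) _ (by linarith)
  have hfn : ∀ᶠ n in (𝒰 : Filter ι), ∀ i, f i n ∈ Hc X Λ u a (y i n) := Filter.eventually_all.2 hf
  refine ⟨min t₁ (t₂ / 2), lt_min ht₁ (by linarith), fun ε hε => ?_⟩
  filter_upwards [hk ε hε, hun, hyn, hfn] with n h3 h4 h5 h6 x hx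
  have hx1 : x ∈ ball x₀ t₁ := ball_subset_ball (min_le_left _ _) hx
  have hx2 : x ∈ closedBall x₀ (t₂ / 2) := ball_subset_closedBall (ball_subset_ball (min_le_right _ _) hx)
  have hx3 := h2 x (closedBall_subset_ball (by linarith) hx2)
  have h7 : ∀ i, JJ α (y i n + x • a) (pr (S (y i n + x • a))) (f i n x) = Ψ (nv v (f i n x)) - Ψ (nv v (pr (S (y i n + x • a)))) := by
    intro i
    refine (hJ _ ?_ _ (hc_mem (h6 i) x) ?_).2
    · rw [mem_ball, dist_eq_norm]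
      have h8 : y i n + x • a - (y₀ + x₀ • a) = (y i n - y₀) + (x - x₀) • a := by rw [sub_smul]; abel
      rw [h8]
      have h9 := h5 i
      rw [dist_eq_norm] at h9
      exact (norm_add_le _ _).trans_lt (by linarith [hx3.2.2])
    · rw [hv]
      refine (dist_triangle _ (g x) _).trans_lt ?_
      linarith [h4 i x hx2, hx3.2.1]
  have h8 : (∑ i, c n i * JJ α (y i n + x • a) (pr (S (y i n + x • a))) (f i n x)) - ∑ i, c n i * Ψ (nv v (f i n x)) =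
      -∑ i, c n i * Ψ (nv v (pr (S (y i n + x • a)))) := by
    rw [← Finset.sum_sub_distrib, ← Finset.sum_neg_distrib]
    refine Finset.sum_congr rfl fun i _ => ?_
    rw [h7 i]
    ring
  rw [h8, norm_neg]
  exact h3 x hx1

/-- two local sections through the same point -/
private theorem comb_two (G : Geo X Λ u D B) {α : VForm X Λ u} {ι : Type} {𝒰 : Ultrafilter ι} {M : ℕ} {y : Fin M → ι → Vd (k + 1)} {y₀ : Vd (k + 1)}
    (hy : ∀ i, Tendsto (y i) 𝒰 (𝓝 y₀)) {f : Fin M → ι → ℂ → MN N} (hf : ∀ i, ∀ᶠ n in (𝒰 : Filter ι), f i n ∈ Hc X Λ u a (y i n)) {g : ℂ → MN N} (hgc : Continuous g)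
    (hlim : ∀ i, Lm D a 𝒰 y₀ (f i) g) {c : ι → Fin M → ℂ} {x₀ : ℂ} (hx₀ : ∀ᶠ x in 𝓝 x₀, y₀ + x • a ∉ D) (hb1 : Kil (𝒰 : Filter ι) a y c y₀ x₀)
    {S S' : Vd (k + 1) → EN N} (hS : AnalyticAt ℂ S (y₀ + x₀ • a)) (hSX : ∀ᶠ y in 𝓝 (y₀ + x₀ • a), S y ∈ X ∧ u (S y) - y ∈ Λ) (hSg : pr (S (y₀ + x₀ • a)) = g x₀)
    (hS' : AnalyticAt ℂ S' (y₀ + x₀ • a)) (hSX' : ∀ᶠ y in 𝓝 (y₀ + x₀ • a), S' y ∈ X ∧ u (S' y) - y ∈ Λ) (hSg' : pr (S' (y₀ + x₀ • a)) = g x₀) :
    ∃ t : ℝ, 0 < t ∧ ∀ ε : ℝ, 0 < ε → ∀ᶠ n in (𝒰 : Filter ι), ∀ x ∈ ball x₀ t,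
      ‖(∑ i, c n i * JJ α (y i n + x • a) (pr (S (y i n + x • a))) (f i n x)) - ∑ i, c n i * JJ α (y i n + x • a) (pr (S' (y i n + x • a))) (f i n x)‖ ≤ ε := by
  obtain ⟨hSX0, hSu0⟩ := hSX.self_of_nhds
  obtain ⟨e, he, hvX, hv1⟩ := Pool.Agent.TG.exists_unit G.cone hSX0
  have hv1 : ‖e • S (y₀ + x₀ • a)‖ = 1 := mem_sphere_zero_iff_norm.1 hv1
  have hvu := smul_mem_lat G.tor hSX0 hSu0 he
  have hvg : pr (e • S (y₀ + x₀ • a)) = g x₀ := by rw [Pool.Agent.H62.EF.pr_smul _ he, hSg]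
  generalize e • S (y₀ + x₀ • a) = v at hvX hv1 hvu hvg
  obtain ⟨R, Ψ, hΨ⟩ := exists_prm G hx₀.self_of_nhds hvX hv1 hvu α
  obtain ⟨t₁, ht₁, h1⟩ := comb_prm G hy hf hgc hlim hx₀ hb1 hS hSX hSg hΨ hvg
  obtain ⟨t₂, ht₂, h2⟩ := comb_prm G hy hf hgc hlim hx₀ hb1 hS' hSX' hSg' hΨ hvg
  refine ⟨min t₁ t₂, lt_min ht₁ ht₂, fun ε hε => ?_⟩
  filter_upwards [h1 (ε / 2) (by linarith), h2 (ε / 2) (by linarith)] with n h3 h4 x hx
  have h5 := h3 x (ball_subset_ball (min_le_left _ _) hx)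
  have h6 := h4 x (ball_subset_ball (min_le_right _ _) hx)
  have h7 := norm_sub_le_norm_sub_add_norm_sub (∑ i, c n i * JJ α (y i n + x • a) (pr (S (y i n + x • a))) (f i n x)) (∑ i, c n i * Ψ (nv v (f i n x)))
    (∑ i, c n i * JJ α (y i n + x • a) (pr (S' (y i n + x • a))) (f i n x))
  rw [norm_sub_rev (∑ i, c n i * Ψ (nv v (f i n x)))] at h7
  linarith

theorem comb_lim (G : Geo X Λ u D B) (hL : LG Λ D Bad a) (hCR : ∀ p ∈ D, p ∉ Bad → CRL X Λ u D a p) (hgood : ∀ p ∈ D, p ∉ Bad → p ∉ B ∧ TransAt D p a) {ρ δ : ℝ}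
    (hlc : LC D Bad a ρ δ) {α : VForm X Λ u} {ι : Type} {𝒰 : Ultrafilter ι} {M : ℕ} {y : Fin M → ι → Vd (k + 1)} {y₀ : Vd (k + 1)} (hy : ∀ i, Tendsto (y i) 𝒰 (𝓝 y₀))
    {f : Fin M → ι → ℂ → MN N} (hf : ∀ i, ∀ᶠ n in (𝒰 : Filter ι), f i n ∈ Hc X Λ u a (y i n)) {g : ℂ → MN N} (hg : g ∈ Hc X Λ u a y₀) (hlim : ∀ i, Lm D a 𝒰 y₀ (f i) g)
    {c : ι → Fin M → ℂ} (hb1 : ∀ x : ℂ, y₀ + x • a ∉ D → Kil (𝒰 : Filter ι) a y c y₀ x) {C c' : ℝ} (hc' : 0 < c')
    (hb2 : ∀ z₀ : ℂ, y₀ + z₀ • a ∈ Gd D (δ / 2) → ∃ (Ψ : EN N → ℂ) (v : EN N) (R t : ℝ), Prm α (y₀ + z₀ • a) v R Ψ ∧ pr v = g z₀ ∧ 0 < t ∧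
      ∀ᶠ n in (𝒰 : Filter ι), ∀ x ∈ ball z₀ t, ‖∑ i, c n i * Ψ (nv v (f i n x))‖ ≤ C * Real.exp (-(c' * ‖x‖ ^ 2)))
    (h0 : y₀ ∉ D) (hcore : ∀ β ∈ Bad, ρ / 2 ≤ ‖y₀ - β‖) {Ψ : EN N → ℂ} {v : EN N} {R : ℝ} (hΨ : Prm α y₀ v R Ψ) (hv : pr v = g 0) :
    Tendsto (fun n => ∑ i, c n i * Ψ (nv v (f i n 0))) 𝒰 (𝓝 0) := by
  classical
  have hgc : Continuous g := hc_cont G.cone hg
  have hδ := hlc.δ_pos
  have hsm : ∀ z : ℂ, ‖z • a‖ = ‖z‖ := fun z => by rw [norm_smul, hlc.norm, mul_one]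
  have hcont : Continuous fun x : ℂ => y₀ + x • a := by fun_prop
  have hoff : ∀ x₀ : ℂ, y₀ + x₀ • a ∉ D → ∀ᶠ x in 𝓝 x₀, y₀ + x • a ∉ D := fun x₀ hx₀ => hcont.continuousAt.eventually (G.D_closed.isOpen_compl.mem_nhds hx₀)
  have hfn : ∀ᶠ n in (𝒰 : Filter ι), ∀ i, f i n ∈ Hc X Λ u a (y i n) := Filter.eventually_all.2 hf
  -- local data
  have hsc : ∀ z₀ : ℂ, ∃ (r : ℝ) (S : Vd (k + 1) → EN N) (T : Fin M → ι → ℂ → ℂ), y₀ + z₀ • a ∉ Bad → 0 < r ∧
      (∀ y' ∈ ball (y₀ + z₀ • a) r, AnalyticAt ℂ S y' ∧ S y' ∈ X ∧ u (S y') - y' ∈ Λ) ∧ (∀ z ∈ ball z₀ r, pr (S (y₀ + z • a)) = g z) ∧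
      (∀ z ∈ ball z₀ r, z ≠ z₀ → y₀ + z • a ∉ D) ∧ ∀ i, (∀ᶠ n in (𝒰 : Filter ι), DifferentiableOn ℂ (T i n) (ball z₀ r)) ∧
        ∀ K : Set ℂ, IsCompact K → K ⊆ ball z₀ r → (∀ z ∈ K, y₀ + z • a ∉ D) → ∀ᶠ n in (𝒰 : Filter ι), ∀ z ∈ K, T i n z = JJ α (y i n + z • a) (pr (S (y i n + z • a))) (f i n z) := by
    intro z₀
    by_cases h : y₀ + z₀ • a ∈ Bad
    · exact ⟨0, fun _ => 0, fun _ _ _ => 0, fun h' => absurd h h'⟩
    · obtain ⟨r, S, h1, h2, h3, h4, h5⟩ := exists_scal G hL hCR hgood hg h α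
      choose T hT using fun i => h5 𝒰 (y i) (f i) (hy i) (hf i) (hlim i)
      exact ⟨r, S, T, fun _ => ⟨h1, h2, h3, h4, hT⟩⟩
  choose r₀ S T hT using hsc
  -- facts at the points of the balls
  have hball : ∀ {z₀ x : ℂ} {t : ℝ}, x ∈ ball z₀ t → y₀ + x • a ∈ ball (y₀ + z₀ • a) t := by
    intro z₀ x t hx
    rw [mem_ball, dist_eq_norm] at hx ⊢
    have h1 : y₀ + x • a - (y₀ + z₀ • a) = (x - z₀) • a := by rw [sub_smul]; abel
    rwa [h1, hsm]
  have hSan : ∀ {z₀ x : ℂ}, y₀ + z₀ • a ∉ Bad → x ∈ ball z₀ (r₀ z₀) → AnalyticAt ℂ (S z₀) (y₀ + x • a) := fun h hx => ((hT _ h).2.1 _ (hball hx)).1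
  have hSX : ∀ {z₀ x : ℂ}, y₀ + z₀ • a ∉ Bad → x ∈ ball z₀ (r₀ z₀) → ∀ᶠ y' in 𝓝 (y₀ + x • a), S z₀ y' ∈ X ∧ u (S z₀ y') - y' ∈ Λ := by
    intro z₀ x h hx
    filter_upwards [isOpen_ball.mem_nhds (hball hx)] with y' hy'
    exact ((hT _ h).2.1 _ hy').2
  -- the radii
  have hr : ∀ z₀ : ℂ, ∃ r : ℝ, y₀ + z₀ • a ∉ Bad → 0 < r ∧ r < r₀ z₀ ∧ r ≤ δ / 2 ∧ (y₀ + z₀ • a ∈ Gd D (δ / 2) → ∀ᶠ n in (𝒰 : Filter ι), ∀ x ∈ ball z₀ r,
      ‖∑ i, c n i * JJ α (y i n + x • a) (pr (S z₀ (y i n + x • a))) (f i n x)‖ ≤ (C + 1) * Real.exp (-(c' * ‖x‖ ^ 2))) := by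
    intro z₀
    by_cases h : y₀ + z₀ • a ∈ Bad
    · exact ⟨0, fun h' => absurd h h'⟩
    · have hr₀ := (hT _ h).1
      by_cases hG : y₀ + z₀ • a ∈ Gd D (δ / 2)
      · obtain ⟨Ψ', v', R', t', hΨ', hv', ht', hbd⟩ := hb2 z₀ hG
        have hz₀ : y₀ + z₀ • a ∉ D := gd_notMem (by linarith) hG
        obtain ⟨t, ht, h1⟩ := comb_prm G hy hf hgc hlim (hoff z₀ hz₀) (hb1 z₀ hz₀) (hSan h (mem_ball_self hr₀)) (hSX h (mem_ball_self hr₀))
          ((hT _ h).2.2.1 _ (mem_ball_self hr₀)) hΨ' hv'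
        refine ⟨min (r₀ z₀ / 2) (min (δ / 2) (min t' (min t 1))), fun _ => ⟨by positivity, (min_le_left _ _).trans_lt (by linarith),
          (min_le_right _ _).trans (min_le_left _ _), fun _ => ?_⟩⟩
        filter_upwards [h1 _ (Real.exp_pos (-(c' * (‖z₀‖ + 1) ^ 2))), hbd] with n h2 h3 x hx
        have hxt' : x ∈ ball z₀ t' := ball_subset_ball ((min_le_right _ _).trans ((min_le_right _ _).trans (min_le_left _ _))) hx
        have hxt : x ∈ ball z₀ t := ball_subset_ball ((min_le_right _ _).trans ((min_le_right _ _).trans ((min_le_right _ _).trans (min_le_left _ _)))) hx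
        have hx1 : x ∈ ball z₀ 1 := ball_subset_ball ((min_le_right _ _).trans ((min_le_right _ _).trans ((min_le_right _ _).trans (min_le_right _ _)))) hx
        have h4 := h2 x hxt
        have h5 := h3 x hxt'
        have h6 : ‖x‖ ≤ ‖z₀‖ + 1 := by
          rw [mem_ball, dist_eq_norm] at hx1
          have h7 := norm_le_norm_add_norm_sub' x z₀
          linarith
        have h7 : Real.exp (-(c' * (‖z₀‖ + 1) ^ 2)) ≤ Real.exp (-(c' * ‖x‖ ^ 2)) := by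
          refine Real.exp_le_exp.2 ?_
          have h8 : ‖x‖ ^ 2 ≤ (‖z₀‖ + 1) ^ 2 := by gcongr
          have h9 := mul_le_mul_of_nonneg_left h8 hc'.le
          linarith
        have h8 := norm_le_norm_add_norm_sub' (∑ i, c n i * JJ α (y i n + x • a) (pr (S z₀ (y i n + x • a))) (f i n x)) (∑ i, c n i * Ψ' (nv v' (f i n x)))
        calc _ ≤ _ := h8
          _ ≤ (C + 1) * Real.exp (-(c' * ‖x‖ ^ 2)) := by linarith
      · exact ⟨min (r₀ z₀ / 2) (δ / 2), fun _ => ⟨by positivity, (min_le_left _ _).trans_lt (by linarith), min_le_right _ _, fun h' => absurd h' hG⟩⟩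
  choose r hr using hr
  obtain ⟨ω, W, hω, hW⟩ := hlc.strip y₀
  -- the values of the functions on compact sets without hits
  have hval : ∀ {z₀ : ℂ} {K : Set ℂ}, y₀ + z₀ • a ∉ Bad → IsCompact K → K ⊆ ball z₀ (r₀ z₀) → (∀ z ∈ K, y₀ + z • a ∉ D) → ∀ᶠ n in (𝒰 : Filter ι), ∀ x ∈ K,
      ∑ i, c n i * T z₀ i n x = ∑ i, c n i * JJ α (y i n + x • a) (pr (S z₀ (y i n + x • a))) (f i n x) := by
    intro z₀ K h hK hKb hKD
    have h1 : ∀ᶠ n in (𝒰 : Filter ι), ∀ i, ∀ z ∈ K, T z₀ i n z = JJ α (y i n + z • a) (pr (S z₀ (y i n + z • a))) (f i n z) :=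
      Filter.eventually_all.2 fun i => ((hT _ h).2.2.2.2 i).2 K hK hKb hKD
    filter_upwards [h1] with n h2 x hx
    exact Finset.sum_congr rfl fun i _ => by rw [h2 i x hx]
  have h0B : y₀ + (0 : ℂ) • a ∉ Bad := by
    rw [zero_smul, add_zero]
    exact fun h => h0 (hlc.bad_sub h)
  have hLL := LL (𝒰 := 𝒰) (ω := ω) (ν := 1) (E := {z : ℂ | y₀ + z • a ∈ Bad}) (W := W) (ρ := ρ) (C := C + 1) (c := c') hω norm_one hW hlc.ρ_pos hlc.ρ_le
    (fun e he e' he' hee => by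
      have h1 := hlc.sep _ he _ he' (fun h => hee (by
        have h2 : (e - e') • a = 0 := by
          have h3 := add_left_cancel h
          rw [sub_smul, h3, sub_self]
        have h3 : ‖(e - e') • a‖ = 0 := by rw [h2, norm_zero]
        rw [hsm, norm_eq_zero] at h3
        exact sub_eq_zero.1 h3))
      have h2 : y₀ + e • a - (y₀ + e' • a) = (e - e') • a := by rw [sub_smul]; abel
      rwa [h2, hsm] at h1)
    (fun e he => by
      have h1 := hcore _ he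
      have h2 : y₀ - (y₀ + e • a) = -(e • a) := by abel
      rwa [h2, norm_neg, hsm] at h1)
    hc' (g := fun z₀ n x => ∑ i, c n i * T z₀ i n x) (r := r) (Rg := fun _ => {x : ℂ | y₀ + x • a ∈ Gd D δ})
    (fun z₀ _ h => ⟨(hr z₀ h).1, ?_⟩) (fun z₀ _ h z₁ _ h' ε hε => ?_) (fun z₀ _ h => ?_) (fun z₀ _ h => ?_)
  · -- the conclusion
    have hz : y₀ + (0 : ℂ) • a ∉ D := by rwa [zero_smul, add_zero]
    have hr0 := (hT _ h0B).1
    have hΨ' : Prm α (y₀ + (0 : ℂ) • a) v R Ψ := by rwa [zero_smul, add_zero]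
    obtain ⟨t, ht, h1⟩ := comb_prm G hy hf hgc hlim (hoff 0 hz) (hb1 0 hz) (hSan h0B (mem_ball_self hr0)) (hSX h0B (mem_ball_self hr0))
      ((hT _ h0B).2.2.1 _ (mem_ball_self hr0)) hΨ' hv
    have h2 := hval h0B (K := {0}) isCompact_singleton (Set.singleton_subset_iff.2 (mem_ball_self hr0)) (fun z hz' => by
      rw [Set.mem_singleton_iff.1 hz']
      exact hz)
    rw [Metric.tendsto_nhds] at hLL ⊢
    intro ε hε
    filter_upwards [hLL (ε / 2) (by linarith), h1 (ε / 4) (by linarith), h2] with n h3 h4 h5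
    have h6 := h5 0 rfl
    have h7 := h4 0 (mem_ball_self ht)
    rw [dist_zero_right, h6] at h3
    rw [dist_zero_right]
    have h8 := norm_le_norm_add_norm_sub' (∑ i, c n i * Ψ (nv v (f i n 0))) (∑ i, c n i * JJ α (y i n + (0 : ℂ) • a) (pr (S 0 (y i n + (0 : ℂ) • a))) (f i n 0))
    rw [norm_sub_rev] at h7
    linarith
  · -- h1
    have h1 : ∀ᶠ n in (𝒰 : Filter ι), ∀ i, DifferentiableOn ℂ (T z₀ i n) (ball z₀ (r₀ z₀)) := Filter.eventually_all.2 fun i => ((hT _ h).2.2.2.2 i).1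
    filter_upwards [h1] with n h2
    exact DifferentiableOn.fun_sum fun i _ => ((h2 i).mono (ball_subset_ball (hr z₀ h).2.1.le)).const_mul _
  · -- h2
    have h : y₀ + z₀ • a ∉ Bad := h
    have h' : y₀ + z₁ • a ∉ Bad := h'
    by_cases hz : z₀ = z₁
    · subst hz
      refine Eventually.of_forall fun n x _ => ?_
      rw [sub_self, norm_zero]
      exact hε.le
    · set K : Set ℂ := closedBall z₀ (r z₀) ∩ closedBall z₁ (r z₁) with hKdef
      have hK : IsCompact K := (isCompact_closedBall _ _).inter_right isClosed_closedBall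
      have hK0 : K ⊆ ball z₀ (r₀ z₀) := Set.inter_subset_left.trans (closedBall_subset_ball (hr z₀ h).2.1)
      have hK1 : K ⊆ ball z₁ (r₀ z₁) := Set.inter_subset_right.trans (closedBall_subset_ball (hr z₁ h').2.1)
      have hKD : ∀ x ∈ K, y₀ + x • a ∉ D := by
        intro x hx
        by_cases hxz : x = z₀
        · exact (hT _ h').2.2.2.1 x (hK1 hx) (by rw [hxz]; exact hz)
        · exact (hT _ h).2.2.2.1 x (hK0 hx) hxz
      have hcov : ∀ᶠ n in (𝒰 : Filter ι), ∀ x ∈ K, ‖(∑ i, c n i * JJ α (y i n + x • a) (pr (S z₀ (y i n + x • a))) (f i n x)) -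
          ∑ i, c n i * JJ α (y i n + x • a) (pr (S z₁ (y i n + x • a))) (f i n x)‖ ≤ ε := by
        refine hK.induction_on (p := fun s : Set ℂ => ∀ᶠ n in (𝒰 : Filter ι), ∀ x ∈ s, ‖(∑ i, c n i * JJ α (y i n + x • a) (pr (S z₀ (y i n + x • a))) (f i n x)) -
          ∑ i, c n i * JJ α (y i n + x • a) (pr (S z₁ (y i n + x • a))) (f i n x)‖ ≤ ε) ?_ ?_ ?_ ?_
        · exact Eventually.of_forall fun n x hx => absurd hx (Set.notMem_empty x)
        · intro s s' hss h1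
          filter_upwards [h1] with n h2 x hx
          exact h2 x (hss hx)
        · intro s s' h1 h2
          filter_upwards [h1, h2] with n h3 h4 x hx
          rcases hx with hx | hx
          · exact h3 x hx
          · exact h4 x hx
        · intro x hx
          obtain ⟨t, ht, h1⟩ := comb_two G (α := α) hy hf hgc hlim (hoff x (hKD x hx)) (hb1 x (hKD x hx)) (hSan h (hK0 hx)) (hSX h (hK0 hx)) ((hT _ h).2.2.1 _ (hK0 hx))
            (hSan h' (hK1 hx)) (hSX h' (hK1 hx)) ((hT _ h').2.2.1 _ (hK1 hx))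
          exact ⟨ball x t, mem_nhdsWithin_of_mem_nhds (ball_mem_nhds x ht), h1 ε hε⟩
      filter_upwards [hcov, hval h hK hK0 hKD, hval h' hK hK1 hKD] with n h1 h2 h3 x hx
      have hxK : x ∈ K := ⟨ball_subset_closedBall hx.1, ball_subset_closedBall hx.2⟩
      rw [h2 x hxK, h3 x hxK]
      exact h1 x hxK
  · -- h3
    have h : y₀ + z₀ • a ∉ Bad := h
    by_cases hG : y₀ + z₀ • a ∈ Gd D (δ / 2)
    · have hz₀ : y₀ + z₀ • a ∉ D := gd_notMem (by linarith) hG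
      have h1 := hval h (K := closedBall z₀ (r z₀)) (isCompact_closedBall _ _) (closedBall_subset_ball (hr z₀ h).2.1) (fun x hx => by
        by_cases hxz : x = z₀
        · rw [hxz]
          exact hz₀
        · exact (hT _ h).2.2.2.1 x (closedBall_subset_ball (hr z₀ h).2.1 hx) hxz)
      filter_upwards [h1, (hr z₀ h).2.2.2 hG] with n h2 h3 x hx _
      rw [h2 x (ball_subset_closedBall hx)]
      exact h3 x hx
    · refine Eventually.of_forall fun n x hx hxR => absurd ?_ hG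
      intro b hb
      have h1 : δ ≤ ‖y₀ + x • a - b‖ := hxR b hb
      have h2 : ‖(x - z₀) • a‖ ≤ δ / 2 := by
        rw [hsm]
        rw [mem_ball, dist_eq_norm] at hx
        linarith [(hr z₀ h).2.2.1]
      have h3 : y₀ + x • a - b = (y₀ + z₀ • a - b) + (x - z₀) • a := by rw [sub_smul]; abel
      have h4 := norm_add_le (y₀ + z₀ • a - b) ((x - z₀) • a)
      rw [← h3] at h4
      linarith
  · -- h4
    have hnear : ∀ {w x : ℂ}, y₀ + w • a ∈ Gd D (2 * δ) → ‖x - w‖ ≤ δ → y₀ + x • a ∈ Gd D δ := by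
      intro w x hw hx b hb
      have h1 := hw b hb
      have h3 : y₀ + w • a - b = (y₀ + x • a - b) + (w - x) • a := by rw [sub_smul]; abel
      have h4 := norm_add_le (y₀ + x • a - b) ((w - x) • a)
      rw [← h3, hsm, norm_sub_rev w x] at h4
      linarith
    by_cases he : ∃ e : ℂ, y₀ + e • a ∈ Bad ∧ ‖z₀ - e‖ < ρ / 2
    · obtain ⟨e, heB, hez⟩ := he
      have h1 := hlc.ann _ heB (z₀ - e) (h e heB).le (by linarith [hlc.ρ_pos])
      have h2 : y₀ + e • a + (z₀ - e) • a = y₀ + z₀ • a := by rw [sub_smul]; abel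
      rw [h2] at h1
      refine ⟨δ, hδ, Or.inl (Eventually.of_forall fun n x hx => ?_)⟩
      rw [mem_ball, dist_eq_norm] at hx
      exact hnear h1 hx.le
    · push Not at he
      obtain ⟨s, hs, hsρ, hcirc⟩ := hlc.circ (y₀ + z₀ • a)
      refine ⟨min δ s, lt_min hδ hs, Or.inr ⟨s, hs, by linarith [hlc.ρ_le], fun e heB => by linarith [he e heB], Eventually.of_forall fun n x hx => ?_⟩⟩
      have hx1 : |‖x - z₀‖ - s| < δ := hx.trans_le (min_le_left _ _)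
      have hx2 : |‖x - z₀‖ - s| < s := hx.trans_le (min_le_right _ _)
      have hpos : 0 < ‖x - z₀‖ := by
        rw [abs_lt] at hx2
        linarith
      set w : ℂ := ((s / ‖x - z₀‖ : ℝ) : ℂ) * (x - z₀) with hw
      have hwn : ‖w‖ = s := by
        rw [hw, norm_mul, Complex.norm_real, Real.norm_of_nonneg (by positivity)]
        field_simp
      have h1 := hcirc w hwn
      have h2 : y₀ + z₀ • a + w • a = y₀ + (z₀ + w) • a := by rw [add_smul]; abel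
      rw [h2] at h1
      refine hnear h1 ?_
      have h3 : x - (z₀ + w) = ((1 - s / ‖x - z₀‖ : ℝ) : ℂ) * (x - z₀) := by
        rw [hw]
        push_cast
        ring
      rw [h3, norm_mul, Complex.norm_real, Real.norm_eq_abs]
      have h4 : |1 - s / ‖x - z₀‖| * ‖x - z₀‖ = |‖x - z₀‖ - s| := by
        conv_lhs => rw [← abs_of_pos hpos]
        rw [← abs_mul]
        congr 1
        rw [abs_of_pos hpos]
        field_simp
      rw [h4]
      exact hx1.le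

end Pool.Agent.G3.R

end
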