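import Pool.Agent.H94.G5T.G3.R.StepA_1
import Pool.Agent.H94.G5T.G3.R.StepC
import Pool.Agent.H94.G5T.M153
import Pool.Agent.H94.G5T.M154
import Pool.Agent.H94.G5T.M80

/-! The parts of this file: G3.R.StepB, G3.R.Step, G3.R.HolL. -/

section

/-!
# G3 R StepB: the limit of the sequences of the proof by contradiction
-/

set_option autoImplicit false

open Topology Filter Metric

namespace Pool.Agent.G3.R

open Pool.Agent.H36.BP (EN fs wd)
open Pool.Agent.H14.PP (IsCone CurveAt Tan)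
open Pool.Agent.H62.EF (MN pr)
open Pool.Agent.AD (Vd Chart Charts IsGerm)
open Pool.Agent.TG
open Pool.Agent.G3.C (Gc HP nv nd nv_pr)
open Pool.Agent.G3.A

variable {N k : ℕ} {X : Set (EN N)} {Λ : AddSubgroup (Vd (k + 1))} {u : EN N → Vd (k + 1)} {D B Bad : Set (Vd (k + 1))} {a b w : Vd (k + 1)} {E : Submodule ℝ (Vd (k + 1))}
  {SS : Set (Vd (k + 1) → MN N)} {J : ℕ} {α : Fin J → VForm X Λ u} {c₀ C₀ ρ δ : ℝ}

theorem co_closed (D Bad : Set (Vd (k + 1))) (δ ρ : ℝ) : IsClosed (Co D Bad δ ρ) := by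
  have h : Co D Bad δ ρ = Gd D (2 * δ) ∩ ⋂ β ∈ Bad, {y | ρ / 2 ≤ ‖y - β‖} := by
    ext y
    simp [Co]
  rw [h]
  refine (gd_closed D _).inter (isClosed_biInter fun β _ => isClosed_le continuous_const (by fun_prop))

theorem step_lim (S : DA X Λ u D B Bad a α c₀ C₀ ρ δ) (hS : Shs X Λ u D a b E SS) (𝒰 : Ultrafilter ℕ) {R : ℝ} {φ : ℕ → Vd (k + 1) → MN N} {y : ℕ → Vd (k + 1)} {v : ℕ → EN N}
    (hφ : ∀ n, φ n ∈ SS) (hyT : ∀ n, y n ∈ Tb b E) (hyC : ∀ n, y n ∈ Co D Bad δ ρ) (hyR : ∀ n, ‖y n‖ ≤ R) (hv : ∀ n, ‖v n‖ = 1) (hvφ : ∀ n, pr (v n) = φ n (y n)) :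
    ∃ (φ₀ : Vd (k + 1) → MN N) (y₀ : Vd (k + 1)) (v₀ : EN N), φ₀ ∈ SS ∧ (∀ᶠ n in (𝒰 : Filter ℕ), φ n = φ₀) ∧ Tendsto y 𝒰 (𝓝 y₀) ∧ y₀ ∈ Tb b E ∧ y₀ ∈ Co D Bad δ ρ ∧
      Tendsto v 𝒰 (𝓝 v₀) ∧ ‖v₀‖ = 1 ∧ pr v₀ = φ₀ y₀ := by
  obtain ⟨φ₀, hφ₀, hev⟩ : ∃ φ₀ ∈ SS, ∀ᶠ n in (𝒰 : Filter ℕ), φ n = φ₀ := by
    have h1 : (⋃ ψ ∈ SS, {n | φ n = ψ}) ∈ 𝒰 := by
      have h2 : (⋃ ψ ∈ SS, {n | φ n = ψ}) = Set.univ := by
        ext n
        simp [hφ n]
      rw [h2]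
      exact Filter.univ_mem
    obtain ⟨ψ, hψ, h2⟩ := (Ultrafilter.finite_biUnion_mem_iff hS.fin).1 h1
    exact ⟨ψ, hψ, h2⟩
  obtain ⟨y₀, -, hy₀⟩ := (isCompact_closedBall (0 : Vd (k + 1)) R).ultrafilter_le_nhds (𝒰.map y) (by
    rw [Ultrafilter.coe_map, le_principal_iff, mem_map]
    refine univ_mem' fun n => ?_
    simpa using hyR n)
  obtain ⟨v₀, hv₀, hv₀'⟩ := (isCompact_sphere (0 : EN N) 1).ultrafilter_le_nhds (𝒰.map v) (by
    rw [Ultrafilter.coe_map, le_principal_iff, mem_map]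
    refine univ_mem' fun n => ?_
    simpa using hv n)
  have hyt : Tendsto y 𝒰 (𝓝 y₀) := hy₀
  have hvt : Tendsto v 𝒰 (𝓝 v₀) := hv₀'
  have hv₀1 : ‖v₀‖ = 1 := by simpa using hv₀
  have hv₀0 : v₀ ≠ 0 := by
    rintro rfl
    rw [norm_zero] at hv₀1
    exact zero_ne_one hv₀1
  have hy₀T : y₀ ∈ Tb b E := (tb_closed b E).mem_of_tendsto hyt (Eventually.of_forall hyT)
  have hy₀C : y₀ ∈ Co D Bad δ ρ := (co_closed D Bad δ ρ).mem_of_tendsto hyt (Eventually.of_forall hyC)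
  refine ⟨φ₀, y₀, v₀, hφ₀, hev, hyt, hy₀T, hy₀C, hvt, hv₀1, ?_⟩
  have hy₀D : y₀ ∉ D := gd_notMem (by linarith [S.lc.δ_pos]) hy₀C.1
  have h1 : Tendsto (fun n => pr (v n)) 𝒰 (𝓝 (pr v₀)) := (Pool.Agent.H62.EF.continuousAt_pr hv₀0).tendsto.comp hvt
  have h2 : Tendsto (fun n => φ₀ (y n)) 𝒰 (𝓝 (φ₀ y₀)) :=
    ((hS.sht φ₀ hφ₀).cont y₀ hy₀T hy₀D).tendsto.comp (tendsto_nhdsWithin_iff.2 ⟨hyt, Eventually.of_forall hyT⟩)
  refine tendsto_nhds_unique h1 (h2.congr' ?_)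
  filter_upwards [hev] with n hn
  rw [hvφ n, hn]

theorem step_comb (S : DA X Λ u D B Bad a α c₀ C₀ ρ δ) (hS : Shs X Λ u D a b E SS) (hw : w ∈ E) {m : ℕ} (hm : ∀ j ≤ m, DDb D (Tb b E) SS w j) {𝒰 : Ultrafilter ℕ}
    (h𝒰 : (𝒰 : Filter ℕ) ≤ atTop) {φ : Vd (k + 1) → MN N} (hφ : φ ∈ SS) {σ : ℕ → ℕ → ℝ} {Nb : ℕ → ℝ} {y : ℕ → Vd (k + 1)} (hσ : ∀ n, Nod (m + 1) (σ n) (1 / ((n : ℝ) + 1)))
    (hNb : ∀ n : ℕ, (n : ℝ) ≤ Nb n) (hNb1 : ∀ n, 1 ≤ Nb n)
    (hcore : ∀ n, ∀ ψ ∈ SS, ∀ y' ∈ Tb b E, y' ∈ Co D Bad δ ρ → ∀ v' : EN N, ‖v'‖ = 1 → pr v' = ψ y' → sz w (m + 1) (σ n) ψ y' v' ≤ Nb n) (hyT : ∀ n, y n ∈ Tb b E)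
    {y₀ : Vd (k + 1)} (hy : Tendsto y 𝒰 (𝓝 y₀)) (hy₀T : y₀ ∈ Tb b E) (hy₀C : y₀ ∈ Co D Bad δ ρ) {j : Fin J} {v₀ : EN N} (hv₀φ : pr v₀ = φ y₀) {R' : ℝ} {Ψ : EN N → ℂ}
    (hΨ : Prm (α j) y₀ v₀ R' Ψ) :
    Tendsto (fun n => (Nb n : ℂ)⁻¹ * dd (m + 1) (σ n) fun s : ℝ => Ψ (nv v₀ (φ (y n + (s : ℂ) • w)))) 𝒰 (𝓝 0) := by
  have hδ := S.lc.δ_pos
  have hy₀D : y₀ ∉ D := gd_notMem (by linarith) hy₀C.1
  have hrn : Tendsto (fun n : ℕ => 1 / ((n : ℝ) + 1)) 𝒰 (𝓝 0) := tendsto_one_div_add_atTop_nhds_zero_nat.mono_left h𝒰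
  have hσ0 : ∀ i, i ≤ m + 1 → Tendsto (fun n => σ n i) 𝒰 (𝓝 0) := fun i hi => squeeze_zero_norm (fun n => (hσ n).le i hi) hrn
  have hNbt : Tendsto Nb 𝒰 atTop := tendsto_atTop_mono hNb (tendsto_natCast_atTop_atTop.mono_left h𝒰)
  -- the curves
  set yy : Fin (m + 2) → ℕ → Vd (k + 1) := fun i n => y n + (σ n i : ℂ) • w with hyy
  have hyyT : ∀ i n, yy i n ∈ Tb b E := fun i n => tb_add (hyT n) (smul_mem_E hw _)
  have hyyt : ∀ i, Tendsto (yy i) 𝒰 (𝓝 y₀) := by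
    intro i
    have h1 : Tendsto (fun n => ((σ n i : ℝ) : ℂ) • w) 𝒰 (𝓝 (((0 : ℝ) : ℂ) • w)) :=
      ((Complex.continuous_ofReal.tendsto 0).comp (hσ0 i (by have := i.isLt; omega))).smul_const w
    rw [Complex.ofReal_zero, zero_smul] at h1
    have h2 := hy.add h1
    rwa [add_zero] at h2
  -- the sum is the divided difference
  have hsum : ∀ (n : ℕ) (F : Vd (k + 1) → ℂ) (e : Vd (k + 1)), ∑ i : Fin (m + 2), ((dw (m + 1) (σ n) i : ℝ) : ℂ) / (Nb n : ℂ) * F (yy i n + e) =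
      (Nb n : ℂ)⁻¹ * dd (m + 1) (σ n) fun s : ℝ => F (y n + (s : ℂ) • w + e) := by
    intro n F e
    unfold dd
    rw [Finset.mul_sum, Finset.sum_range]
    refine Finset.sum_congr rfl fun i _ => ?_
    simp only [hyy, smul_eq_mul]
    ring
  obtain ⟨rs, Cs, cs, hrs, hCs, hcs, hsb⟩ := scal_bd S hS hw hm (‖y₀‖) j
  obtain ⟨rg, Kg, hrg, hKg, hcg⟩ := core_to_gd S hS hw hm (show 0 < δ / 4 by linarith)
  have hev1 : ∀ r : ℝ, 0 < r → ∀ᶠ n : ℕ in (𝒰 : Filter ℕ), 1 / ((n : ℝ) + 1) ≤ r := fun r hr => (hrn.eventually_lt_const hr).mono fun n hn => hn.le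
  have key := comb_lim S.geo S.lg S.cr S.good S.lc (α := α j) (𝒰 := 𝒰) (y := yy) (y₀ := y₀) hyyt (f := fun i n z => φ (yy i n + z • a)) (g := fun z => φ (y₀ + z • a))
    (c := fun n i => ((dw (m + 1) (σ n) i : ℝ) : ℂ) / (Nb n : ℂ)) (C := Cs * max Kg 1) (c' := cs)
    (fun i => Eventually.of_forall fun n => (hS.sht φ hφ).line _ (hyyT i n)) ((hS.sht φ hφ).line _ hy₀T)
    (fun i => hS.lm hφ (hyyT i) hy₀T (hyyt i)) ?_ hcs ?_ hy₀D hy₀C.2 hΨ (by simpa using hv₀φ)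
  · refine key.congr fun n => ?_
    have h1 := hsum n (fun y => Ψ (nv v₀ (φ y))) 0
    simp only [add_zero] at h1
    simp only [zero_smul, add_zero]
    exact h1
  · -- `hb1`
    intro x _ h hh
    have hyx : Tendsto (fun n => y n + x • a) 𝒰 (𝓝 (y₀ + x • a)) := hy.add_const _
    obtain ⟨t, ht, h1⟩ := kil_dd (m := m + 1) w hσ hrn hNbt hyx hh
    refine ⟨t, ht, fun ε hε => ?_⟩
    filter_upwards [h1 ε hε] with n hn x' hx'
    have h2 := hn ((x' - x) • a) (by rw [norm_smul, S.lg.norm, mul_one, ← dist_eq_norm]; exact hx')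
    rw [hsum n h (x' • a)]
    refine le_of_eq_of_le ?_ h2
    congr 2
    refine dd_congr fun i _ => ?_
    congr 1
    rw [sub_smul]
    abel
  · -- `hb2`
    intro z₀ hz₀
    obtain ⟨Ψ', v', R'', t, hP, hv', ht, hb⟩ := hsb y₀ hy₀T le_rfl φ hφ z₀ hz₀
    have ht' : 0 < min t (δ / 8) := lt_min ht (by linarith)
    refine ⟨Ψ', v', R'', min t (δ / 8), hP, hv', ht', ?_⟩
    have h1 : ∀ᶠ n in (𝒰 : Filter ℕ), ‖y n - y₀‖ < min t (δ / 8) := by
      have := hy.eventually (ball_mem_nhds y₀ ht')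
      filter_upwards [this] with n hn
      rwa [dist_eq_norm] at hn
    filter_upwards [h1, hev1 rs hrs, hev1 rg hrg] with n hn hn2 hn3 x hx
    rw [hsum n (fun y => Ψ' (nv v' (φ y))) (x • a)]
    have hxt : x ∈ ball z₀ t := ball_subset_ball (min_le_left _ _) hx
    have hxG : y n + x • a ∈ Gd D (δ / 4) := by
      have h2 : ‖(y n + x • a) - (y₀ + z₀ • a)‖ ≤ δ / 4 := by
        have e : (y n + x • a) - (y₀ + z₀ • a) = (y n - y₀) + (x - z₀) • a := by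
          rw [sub_smul]
          abel
        rw [e]
        refine (norm_add_le _ _).trans ?_
        rw [norm_smul, S.lg.norm, mul_one, ← dist_eq_norm x z₀]
        have h3 := (mem_ball.1 hx).trans_le (min_le_right t (δ / 8))
        have h4 := hn.trans_le (min_le_right t (δ / 8))
        linarith
      have h3 := gd_near hz₀ h2
      have e : δ / 2 - δ / 4 = δ / 4 := by ring
      rwa [e] at h3
    have hxT : y n + x • a ∈ Tb b E := tb_add (hyT n) (hS.mem x)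
    have hNK : 1 ≤ max Kg 1 * Nb n := by
      have h5 := le_max_right Kg 1
      have h6 := hNb1 n
      nlinarith
    have h7 := hb (σ n) (max Kg 1 * Nb n) ((hσ n).mono le_rfl hn2) hNK (y n) (hyT n) (hn.trans_le (min_le_left _ _)) x hxt fun v'' hv'' hvφ'' => by
      have h8 := hcg (σ n) (Nb n) ((hσ n).mono le_rfl hn3) (hNb1 n) (hcore n) φ hφ (y n + x • a) hxT hxG v'' hv'' hvφ''
      refine h8.trans (mul_le_mul_of_nonneg_right (le_max_left _ _) ?_)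
      linarith [hNb1 n]
    have hNpos : 0 < Nb n := lt_of_lt_of_le one_pos (hNb1 n)
    rw [norm_mul, norm_inv, Complex.norm_real, Real.norm_of_nonneg hNpos.le]
    have h9 : (dd (m + 1) (σ n) fun s : ℝ => Ψ' (nv v' (φ (y n + (s : ℂ) • w + x • a)))) = dd (m + 1) (σ n) fun s : ℝ => Ψ' (nv v' (φ (y n + x • a + (s : ℂ) • w))) :=
      dd_congr fun i _ => by rw [add_right_comm]
    rw [h9, inv_mul_le_iff₀ hNpos]
    refine h7.trans (le_of_eq ?_)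
    ring

end Pool.Agent.G3.R

end

section

/-!
# G3 R Step: all divided differences are bounded

`ddb_zero`: order `0` (`nv_near`, `Shs.unif`).
`ddb_step`: let `DDb j` hold for `j ≤ m` and fail for `m + 1`, at some `δ'`.  For every `n` there are nodes `σ n` of size `≤ 1 / (n + 1)`, `φ`, `y ∈ T ∩ Gd D δ'`, `v` with a divided difference `> n`.
`Nb n` = maximum of `1` and the supremum of all `‖dd (m + 1) (σ n) ..‖` over the core (finite: `Shs.unif`, `nv_near`: the values are `≤ 2`, the sum is at most `2 ∑ |dw|`).  `core_to_gd`: `n < K Nb n`, so `Nb n → ∞`.  Choose `φ n`, `y n ∈ T ∩ Co`,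
`v n` with a divided difference `≥ Nb n / 2`; translate (`Shs.red`, `co_add`); along an ultrafilter `y n → y₀`, `φ n = φ`, `v n → v₀` (unit sphere), `pr v₀ = φ y₀`; `Ψ, Θ, j` from `exists_prm_inv` at `y₀`, `v₀`.
`comb_lim` with `f i n z = φ (y n + σ n i w + z a)`, `c n i = dw (m + 1) (σ n) i / Nb n` (`kil_dd`, `scal_bd` with `core_to_gd` for `Gd D (δ / 4)`): `(Nb n)⁻¹ dd (m + 1) (σ n) (Ψ (nv v₀ (φ (y n + s w)))) → 0`.
`nv v₀ (φ y) = Θ (Ψ (nv v₀ (φ y)), y)`: `dd_comp` for `(t, ζ) ↦ Θ (t, y n + ζ w)` (the lower orders of `Ψ (nv v₀ φ)` are bounded: `dd_comp_le`), `dd_nv` to `v n`: `Nb n / 2 ≤ K (o (Nb n) + 1)`, contradiction.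
-/

set_option autoImplicit false

open Topology Filter Metric

namespace Pool.Agent.G3.R

open Pool.Agent.H36.BP (EN fs wd)
open Pool.Agent.H14.PP (IsCone CurveAt Tan)
open Pool.Agent.H62.EF (MN pr)
open Pool.Agent.AD (Vd Chart Charts IsGerm)
open Pool.Agent.TG
open Pool.Agent.G3.C (Gc HP nv nd nv_pr)
open Pool.Agent.G3.A

variable {N k : ℕ} {X : Set (EN N)} {Λ : AddSubgroup (Vd (k + 1))} {u : EN N → Vd (k + 1)} {D B Bad : Set (Vd (k + 1))} {a b w : Vd (k + 1)} {E : Submodule ℝ (Vd (k + 1))}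
  {SS : Set (Vd (k + 1) → MN N)} {J : ℕ} {α : Fin J → VForm X Λ u} {c₀ C₀ ρ δ : ℝ}

theorem ddb_zero (S : DA X Λ u D B Bad a α c₀ C₀ ρ δ) (hS : Shs X Λ u D a b E SS) (hw : w ∈ E) : DDb D (Tb b E) SS w 0 := ddb_zero' S hS hw

theorem ddb_step (S : DA X Λ u D B Bad a α c₀ C₀ ρ δ) (hS : Shs X Λ u D a b E SS) (hw : w ∈ E) {m : ℕ} (hm : ∀ j ≤ m, DDb D (Tb b E) SS w j) : DDb D (Tb b E) SS w (m + 1) := by
  by_contra hno
  obtain ⟨R, hseq⟩ := step_seq S hS hw hm hno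
  choose σ Nb φ y v hσ hNb hNb1 hcore hφ hyT hyC hyR hv hvφ hbig using hseq
  have hδ := S.lc.δ_pos
  have h𝒰 : ((hyperfilter ℕ : Ultrafilter ℕ) : Filter ℕ) ≤ atTop := by
    rw [← Nat.cofinite_eq_atTop]
    exact hyperfilter_le_cofinite
  obtain ⟨φ₀, y₀, v₀, hφ₀, hev, hyt, hy₀T, hy₀C, hvt, hv₀, hv₀φ⟩ := step_lim S hS (hyperfilter ℕ) hφ hyT hyC hyR hv hvφ
  have hy₀D : y₀ ∉ D := gd_notMem (by linarith) hy₀C.1
  have hX := S.geo.cone
  have hu := S.geo.tor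
  have hv₀0 : v₀ ≠ 0 := by
    rintro rfl
    rw [norm_zero] at hv₀
    exact zero_ne_one hv₀
  obtain ⟨hv₀X, hv₀u⟩ : v₀ ∈ X ∧ u v₀ - y₀ ∈ Λ := by
    obtain ⟨x, hx, hpx, hux⟩ := hS.fb hφ₀ hy₀T
    obtain ⟨c, hc, rfl⟩ := (Pool.Agent.H62.EF.pr_eq_iff hv₀0 (ne_zero hX hx)).1 (hv₀φ.trans hpx.symm)
    exact ⟨hX.smul_mem x hx c hc, smul_mem_lat hu hx hux hc⟩
  obtain ⟨j, R', Ψ, r, M, Θ, hΨ, hr, hΘ, hM, r', hr', hinv⟩ := exists_prm_inv S.geo S.sep hy₀D hv₀X hv₀ hv₀u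
  have h1 := step_comb S hS hw hm h𝒰 hφ₀ hσ hNb hNb1 hcore hyT hyt hy₀T hy₀C hv₀φ hΨ
  obtain ⟨K, hK, h2⟩ := step_low S hS hw hm h𝒰 hφ₀ hσ hyT hyt hy₀T (fun n => (hyC n).1) hy₀D hv (hev.mono fun n hn => by rw [hvφ n, hn]) hvt hv₀φ hΨ hr hΘ hM hr'
    fun y hy x hx hxb hux hin => (hinv y hy x hx hxb hux hin).2
  have hNbt : Tendsto Nb (hyperfilter ℕ : Ultrafilter ℕ) atTop := tendsto_atTop_mono hNb (tendsto_natCast_atTop_atTop.mono_left h𝒰)
  have h3 := h1.norm.eventually_lt_const (show ‖(0 : ℂ)‖ < 1 / (8 * K) by rw [norm_zero]; positivity)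
  have h4 := hNbt.eventually_gt_atTop (8 * K)
  obtain ⟨n, h2n, h3n, h4n, hn⟩ := (h2.and (h3.and (h4.and hev))).exists
  have hNpos : 0 < Nb n := lt_of_lt_of_le one_pos (hNb1 n)
  rw [norm_mul, norm_inv, Complex.norm_real, Real.norm_of_nonneg hNpos.le, inv_mul_lt_iff₀ hNpos] at h3n
  have h5 := hbig n
  rw [hn] at h5
  have h6 := h5.trans h2n
  set d : ℝ := ‖dd (m + 1) (σ n) fun s : ℝ => Ψ (nv v₀ (φ₀ (y n + (s : ℂ) • w)))‖ with hd
  have h7 : K * d ≤ Nb n / 8 := by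
    have h8 : K * d ≤ K * (Nb n * (1 / (8 * K))) := mul_le_mul_of_nonneg_left h3n.le hK.le
    refine h8.trans (le_of_eq ?_)
    field_simp
  have h9 : Nb n / 2 ≤ K * d + K := by linarith [h6, mul_add K d 1]
  linarith

theorem ddb (S : DA X Λ u D B Bad a α c₀ C₀ ρ δ) (hS : Shs X Λ u D a b E SS) (hw : w ∈ E) (m : ℕ) : DDb D (Tb b E) SS w m := by
  induction m using Nat.strong_induction_on with
  | _ m ih =>
    rcases m with _ | m
    · exact ddb_zero S hS hw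
    · exact ddb_step S hS hw fun j hj => ih j (by omega)

end Pool.Agent.G3.R

end

section

/-!
# G3 R HolL: sheets over the whole space are Lipschitz on small balls off `D`

Here `E = ⊤`.  `ddb` for `m = 1` and the real directions `e`, `i e`, `e` a basis vector.
`dist_pr_le`: `dist (pr x) (pr v) ≤ 2 ‖x / ⟨v, x⟩ - v‖`.  `step_lip`: one real direction, from `ddb` for the nodes `0, s`.  `sheet_lip`: change the coordinates one after the other, real part and imaginary part.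
-/

set_option autoImplicit false

open Topology Filter Metric

namespace Pool.Agent.G3.R

open Pool.Agent.H36.BP (EN fs wd)
open Pool.Agent.H14.PP (IsCone CurveAt Tan)
open Pool.Agent.H62.EF (MN pr)
open Pool.Agent.AD (Vd Chart Charts IsGerm)
open Pool.Agent.TG
open Pool.Agent.G3.C (Gc HP nv nd nv_pr pr_nv nd_pr_ne)
open Pool.Agent.G3.A

variable {N k : ℕ} {X : Set (EN N)} {Λ : AddSubgroup (Vd (k + 1))} {u : EN N → Vd (k + 1)} {D B Bad : Set (Vd (k + 1))} {a b : Vd (k + 1)}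
  {SS : Set (Vd (k + 1) → MN N)} {J : ℕ} {α : Fin J → VForm X Λ u} {c₀ C₀ ρ δ : ℝ}

/-- `pr x` is near `pr v` if `x / ⟨v, x⟩` is near `v` -/
theorem dist_pr_le {v x : EN N} (hv : ‖v‖ = 1) (h : inner ℂ v x ≠ (0 : ℂ)) : dist (pr x) (pr v) ≤ 2 * ‖nv v (pr x) - v‖ := by
  have hv0 : v ≠ 0 := by
    rintro rfl
    rw [norm_zero] at hv
    exact zero_ne_one hv
  set x₁ : EN N := nv v (pr x) with hx₁
  have h1 : inner ℂ v x₁ = (1 : ℂ) := by
    rw [hx₁, nv_pr h, inner_smul_right, inv_mul_cancel₀ h]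
  have hx0 : x₁ ≠ 0 := by
    intro h0
    rw [h0, inner_zero_right] at h1
    exact zero_ne_one h1
  have hp : pr x₁ = pr x := pr_nv h
  have h2 := Pool.Agent.H62.EF.norm_inner_sq hv0 hx0
  rw [h1, hv, norm_one, one_pow, one_mul, hp, dist_comm] at h2
  have h3 : ‖x₁ - v‖ ^ 2 = ‖x₁‖ ^ 2 - 1 := by
    rw [norm_sub_rev, norm_sub_sq (𝕜 := ℂ), h1, hv, RCLike.re_to_complex, Complex.one_re]
    ring
  set d : ℝ := dist (pr x) (pr v) with hd
  have hd0 : 0 ≤ d := dist_nonneg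
  have he0 : 0 ≤ ‖x₁ - v‖ ^ 2 := by positivity
  have h4 : d ^ 2 ≤ (2 * ‖x₁ - v‖) ^ 2 := by
    have h5 : 1 ≤ ‖x₁‖ ^ 2 := by linarith only [h3, he0]
    have h6 : d ^ 2 * ‖x₁‖ ^ 2 = 2 * ‖x₁ - v‖ ^ 2 := by
      rw [h3]
      nlinarith only [h2]
    have h7 : d ^ 2 ≤ d ^ 2 * ‖x₁‖ ^ 2 := le_mul_of_one_le_right (by positivity) h5
    nlinarith only [h3, h2, h7]
  exact le_of_sq_le_sq h4 (by positivity)

theorem mem_tb_top (b y : Vd (k + 1)) : y ∈ Tb b (⊤ : Submodule ℝ (Vd (k + 1))) := (Submodule.mem_top : y - b ∈ (⊤ : Submodule ℝ (Vd (k + 1))))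

/-- one real direction -/
theorem step_lip (S : DA X Λ u D B Bad a α c₀ C₀ ρ δ) (hS : Shs X Λ u D a b ⊤ SS) {δ' : ℝ} (hδ' : 0 < δ') (w : Vd (k + 1)) : ∃ r C : ℝ, 0 < r ∧ 0 < C ∧
    ∀ φ ∈ SS, ∀ y ∈ Gd D δ', ∀ s : ℝ, |s| ≤ r → dist (φ (y + (s : ℂ) • w)) (φ y) ≤ C * |s| := by
  obtain ⟨r, C, hr, hC, h⟩ := ddb S hS (w := w) Submodule.mem_top 1 δ' hδ'
  have hC1 : 0 < C + 1 := by linarith
  refine ⟨min r (1 / (2 * (C + 1))), 2 * (C + 1), lt_min hr (by positivity), by positivity, ?_⟩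
  intro φ hφ y hy s hs
  rcases eq_or_ne s 0 with rfl | hs0
  · simp
  obtain ⟨x, hx, hxm, -⟩ := hS.fb hφ (mem_tb_top b y)
  obtain ⟨c, hc, -, hcs⟩ := Pool.Agent.TG.exists_unit S.geo.cone hx
  have hv : ‖c • x‖ = 1 := mem_sphere_zero_iff_norm.1 hcs
  have hprv : pr (c • x) = φ y := by rw [Pool.Agent.H62.EF.pr_smul x hc, hxm]
  generalize c • x = v at hv hprv
  set σ : ℕ → ℝ := fun i => if i = 0 then 0 else s with hσd
  have hσ0 : σ 0 = 0 := by simp [hσd]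
  have hσ1 : σ 1 = s := by simp [hσd]
  have hσ : Nod (0 + 1) σ r := by
    refine ⟨fun i hi j hj hij => ?_, fun i hi => ?_⟩
    · interval_cases i <;> interval_cases j <;> first | rfl | (rw [hσ0, hσ1] at hij; exact absurd hij (Ne.symm hs0)) | (rw [hσ0, hσ1] at hij; exact absurd hij hs0)
    · interval_cases i
      · rw [hσ0, abs_zero]
        exact hr.le
      · rw [hσ1]
        exact hs.trans (min_le_left _ _)
  have h1 : ‖dd (0 + 1) σ fun s : ℝ => nv v (φ (y + (s : ℂ) • w))‖ ≤ C := h φ hφ y (mem_tb_top b y) hy v hv hprv σ hσ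
  have h2 : ‖nv v (φ (y + (s : ℂ) • w)) - v‖ ≤ C * |s| := by
    rw [dd_succ hσ, dd_zero, dd_zero, norm_smul] at h1
    simp only [zero_add, hσ0, hσ1, sub_zero, Complex.ofReal_zero, zero_smul, add_zero] at h1
    rw [← hprv, nv_self hv, Complex.norm_real, norm_inv, Real.norm_eq_abs, inv_mul_le_iff₀ (abs_pos.2 hs0)] at h1
    rwa [mul_comm] at h1
  have h3 : C * |s| ≤ 1 / 2 := by
    have h4 : |s| ≤ 1 / (2 * (C + 1)) := hs.trans (min_le_right _ _)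
    rw [le_div_iff₀ (by positivity)] at h4
    nlinarith [abs_nonneg s]
  obtain ⟨x', hx', hxm', -⟩ := hS.fb hφ (mem_tb_top b (y + (s : ℂ) • w))
  have hx0 : x' ≠ 0 := ne_zero S.geo.cone hx'
  have h5 : inner ℂ v x' ≠ (0 : ℂ) := by
    intro h6
    have h7 : nd v (pr x') = 0 := by
      by_contra h8
      exact (nd_pr_ne hx0).1 h8 h6
    have h9 : nv v (pr x') = 0 := by
      have h10 : nv v (pr x') = (nd v (pr x'))⁻¹ • WithLp.toLp 2 fun i => ∑ j, pr x' (i, j) * v j := rfl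
      rw [h10, h7, inv_zero, zero_smul]
    rw [← hxm', h9, zero_sub, norm_neg, hv] at h2
    linarith
  have h11 := dist_pr_le hv h5
  rw [hxm', hprv] at h11
  refine h11.trans ?_
  have h12 : 0 ≤ |s| := abs_nonneg s
  nlinarith

theorem sheet_lip (S : DA X Λ u D B Bad a α c₀ C₀ ρ δ) (hS : Shs X Λ u D a b ⊤ SS) {δ' : ℝ} (hδ' : 0 < δ') : ∃ r C : ℝ, 0 < r ∧ 0 < C ∧ ∀ φ ∈ SS, ∀ y ∈ Gd D δ', ∀ y', ‖y' - y‖ ≤ r →
    dist (φ y') (φ y) ≤ C * ‖y' - y‖ := by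
  have key : ∀ s : Finset (Fin (k + 1)), ∃ r C : ℝ, 0 < r ∧ 0 < C ∧ ∀ φ ∈ SS, ∀ y ∈ Gd D δ', ∀ h : Vd (k + 1), ‖h‖ ≤ r →
      dist (φ (y + fun i => if i ∈ s then h i else 0)) (φ y) ≤ C * ‖h‖ := by
    intro s
    induction s using Finset.induction_on with
    | empty =>
      refine ⟨1, 1, one_pos, one_pos, fun φ _ y _ h _ => ?_⟩
      have e : (y + fun i => if i ∈ (∅ : Finset (Fin (k + 1))) then h i else 0) = y := by
        funext i
        simp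
      rw [e, dist_self, one_mul]
      exact norm_nonneg _
    | insert i s his ih =>
      obtain ⟨r₀, K₀, hr₀, hK₀, h₀⟩ := ih
      obtain ⟨r₁, K₁, hr₁, hK₁, h₁⟩ := step_lip S hS (half_pos hδ') (Pi.single i 1)
      obtain ⟨r₂, K₂, hr₂, hK₂, h₂⟩ := step_lip S hS (half_pos hδ') (Pi.single i Complex.I)
      refine ⟨min (min r₀ r₁) (min r₂ (δ' / 4)), K₀ + K₁ + K₂, lt_min (lt_min hr₀ hr₁) (lt_min hr₂ (by positivity)), by positivity, ?_⟩
      intro φ hφ y hy h hh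
      have hh0 : ‖h‖ ≤ r₀ := hh.trans ((min_le_left _ _).trans (min_le_left _ _))
      have hh1 : ‖h‖ ≤ r₁ := hh.trans ((min_le_left _ _).trans (min_le_right _ _))
      have hh2 : ‖h‖ ≤ r₂ := hh.trans ((min_le_right _ _).trans (min_le_left _ _))
      have hh3 : ‖h‖ ≤ δ' / 4 := hh.trans ((min_le_right _ _).trans (min_le_right _ _))
      have a0 := h₀ φ hφ y hy h hh0
      set g : Vd (k + 1) := fun j => if j ∈ s then h j else 0 with hg
      have hgn : ‖g‖ ≤ ‖h‖ := by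
        refine (pi_norm_le_iff_of_nonneg (norm_nonneg _)).2 fun j => ?_
        rw [hg]
        dsimp only
        split_ifs
        · exact norm_le_pi_norm h j
        · rw [norm_zero]
          exact norm_nonneg _
      have hre : |(h i).re| ≤ ‖h‖ := (Complex.abs_re_le_norm _).trans (norm_le_pi_norm h i)
      have him : |(h i).im| ≤ ‖h‖ := (Complex.abs_im_le_norm _).trans (norm_le_pi_norm h i)
      have hy1 : y + g ∈ Gd D (δ' / 2) := by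
        refine gd_mono (δ₂ := δ' - ‖h‖) (by linarith) (gd_near hy ?_)
        rw [add_sub_cancel_left]
        exact hgn
      have hy2 : y + g + ((h i).re : ℂ) • (Pi.single i 1 : Vd (k + 1)) ∈ Gd D (δ' / 2) := by
        refine gd_mono (δ₂ := δ' - (‖h‖ + ‖h‖)) (by linarith) (gd_near hy ?_)
        rw [add_assoc, add_sub_cancel_left]
        refine (norm_add_le _ _).trans (add_le_add hgn ?_)
        rw [norm_smul, Complex.norm_real, Real.norm_eq_abs]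
        refine (mul_le_of_le_one_right (abs_nonneg _) ?_).trans hre
        rw [Pi.norm_single, norm_one]
      have a1 := h₁ φ hφ _ hy1 _ (hre.trans hh1)
      have a2 := h₂ φ hφ _ hy2 _ (him.trans hh2)
      have e : (y + fun j => if j ∈ insert i s then h j else 0) =
          y + g + ((h i).re : ℂ) • (Pi.single i 1 : Vd (k + 1)) + ((h i).im : ℂ) • (Pi.single i Complex.I : Vd (k + 1)) := by
        funext j
        rcases eq_or_ne j i with rfl | hji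
        · simp only [Pi.add_apply, Finset.mem_insert_self, if_true, hg, his, if_false, Pi.smul_apply, Pi.single_eq_same, smul_eq_mul, mul_one, add_zero]
          rw [add_assoc, Complex.re_add_im]
        · simp [hg, hji]
      rw [e]
      calc dist (φ (y + g + ((h i).re : ℂ) • (Pi.single i 1 : Vd (k + 1)) + ((h i).im : ℂ) • (Pi.single i Complex.I : Vd (k + 1)))) (φ y)
          ≤ dist (φ (y + g + ((h i).re : ℂ) • (Pi.single i 1 : Vd (k + 1)) + ((h i).im : ℂ) • (Pi.single i Complex.I : Vd (k + 1)))) (φ (y + g + ((h i).re : ℂ) • (Pi.single i 1 : Vd (k + 1)))) +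
              dist (φ (y + g + ((h i).re : ℂ) • (Pi.single i 1 : Vd (k + 1)))) (φ (y + g)) + dist (φ (y + g)) (φ y) := dist_triangle4 _ _ _ _
        _ ≤ K₂ * ‖h‖ + K₁ * ‖h‖ + K₀ * ‖h‖ :=
            add_le_add (add_le_add (a2.trans (mul_le_mul_of_nonneg_left him hK₂.le)) (a1.trans (mul_le_mul_of_nonneg_left hre hK₁.le))) a0
        _ = (K₀ + K₁ + K₂) * ‖h‖ := by ring
  obtain ⟨r, C, hr, hC, h⟩ := key Finset.univ
  refine ⟨r, C, hr, hC, fun φ hφ y hy y' hy' => ?_⟩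
  have h1 := h φ hφ y hy (y' - y) hy'
  have e : (y + fun i => if i ∈ (Finset.univ : Finset (Fin (k + 1))) then (y' - y) i else 0) = y' := by
    funext i
    simp
  rwa [e] at h1

end Pool.Agent.G3.R

end
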