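import Pool.Agent.H94.G5T.G3.R.ShtF
import Pool.Agent.H94.G5T.M32
import Pool.Agent.H94.G5T.M53
import Pool.Agent.H94.G5T.M54
import Pool.Agent.H94.G5T.M55

/-! The parts of this file: G3.C.GCs, G3.R.StepA. -/

section

/-!
# G3 C GCs: a family which is uniformly Lipschitz in `z` is smooth

`smo_of_lip`: if `Φ s` is `n`-Lipschitz on `closedBall z₀ r` for all `s` near `s₁`, the family is continuous at `(s₁, z₁)`, `z₁ ∈ ball z₀ r`.  `str` gives a straight chart `χ` at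
`Φ s₁ z₁`; `w s z = χ.q (nv v (Φ s z)) 0` (`nv` of EDefs, `v = χ.σ` of the point) is continuous near `(s₁, z₁)`, holomorphic in `z`, and `χ.q (nv v (Φ s z)) = cz b ν a c ρ' (w s z) s z`
(`lift`, `Str.lift`, `TMap.smul`, `Lat.disc`, continuity).  Off `Dt` it is locally the first coordinate of an analytic function of a `JetFam` (`smo`, `JetFam.comp`); `jet_fill` with a
small circle off `Dt` (`dt_iso`, `dt_closed`).
-/

set_option autoImplicit false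

open Topology Filter Metric

namespace Pool.Agent.G3.C

open Pool.Agent.H36.BP (EN fs wd)
open Pool.Agent.H14.PP (IsCone)
open Pool.Agent.H62.EF (MN pr)
open Pool.Agent.AD (Vd Chart Charts)
open Pool.Agent.TG (TMap Lat Str ms tl)

variable {N k : ℕ} {X : Set (EN N)} {Λ : AddSubgroup (Vd (k + 1))} {u : EN N → Vd (k + 1)} {ν a b c : Vd (k + 1)} {m : ℕ} {ρ : ℝ}
  {LT : AddSubgroup (ℝ × ℂ)} {Dt Bd : Set (ℂ × ℂ)} {FF : Set (ℝ → ℂ → MN N)}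

private theorem tz_cont (b ν a c : Vd (k + 1)) (ρ : ℝ) : Continuous fun p : ℂ × ℂ => tz b ν a c ρ p.1 p.2 := by
  unfold tz
  fun_prop

private theorem cz_cont (b ν a c : Vd (k + 1)) (ρ : ℝ) : Continuous fun p : ℂ × ℂ × ℂ => cz b ν a c ρ p.1 p.2.1 p.2.2 := by
  unfold cz
  refine continuous_pi fun i => ?_
  refine Fin.cases ?_ (fun i => ?_) i
  · simp only [Fin.cons_zero]
    exact continuous_fst
  · simp only [Fin.cons_succ]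
    exact (continuous_apply i).comp ((tz_cont b ν a c ρ).comp continuous_snd)

theorem smo_cont (hX : IsCone X) {Φ : ℝ → ℂ → MN N} {s : ℝ} {z : ℂ} (h : Smo X Λ u a ν b Φ s z) : ContinuousAt (fun q : ℝ × ℂ => Φ q.1 q.2) (s, z) := by
  obtain ⟨χ, c, ρ, w, r, B⟩ := h
  have hr := B.pos
  have hI : Set.Ioo (s - r) (s + r) ∈ 𝓝 s := isOpen_Ioo.mem_nhds ⟨by linarith, by linarith⟩
  have hD : ball z r ∈ 𝓝 z := ball_mem_nhds z hr
  have hN : Set.Ioo (s - r) (s + r) ×ˢ ball z r ∈ 𝓝 ((s, z) : ℝ × ℂ) := prod_mem_nhds hI hD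
  have hev : (fun q : ℝ × ℂ => pr (χ.σ (cz b ν a c ρ (w 0 q.1 q.2) q.1 q.2))) =ᶠ[𝓝 ((s, z) : ℝ × ℂ)] fun q : ℝ × ℂ => Φ q.1 q.2 := by
    filter_upwards [hN] with q hq
    exact (B.eq q.1 hq.1 q.2 hq.2).symm
  refine ContinuousAt.congr ?_ hev
  have hw : ContinuousAt (fun q : ℝ × ℂ => w 0 q.1 q.2) (s, z) := (B.jet.cont 0).continuousAt hN
  have h1 : ContinuousAt (fun q : ℝ × ℂ => ((w 0 q.1 q.2, (q.1 : ℂ), q.2) : ℂ × ℂ × ℂ)) (s, z) :=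
    hw.prodMk (((Complex.continuous_ofReal.comp continuous_fst).continuousAt).prodMk continuous_snd.continuousAt)
  have h2 : ContinuousAt (fun q : ℝ × ℂ => cz b ν a c ρ (w 0 q.1 q.2) q.1 q.2) (s, z) :=
    ContinuousAt.comp (g := fun p : ℂ × ℂ × ℂ => cz b ν a c ρ p.1 p.2.1 p.2.2) (f := fun q : ℝ × ℂ => ((w 0 q.1 q.2, (q.1 : ℂ), q.2) : ℂ × ℂ × ℂ))
      (cz_cont b ν a c ρ).continuousAt h1
  have hm : cz b ν a c ρ (w 0 s z) s z ∈ ball (0 : Vd (k + 2)) 2 := B.mem s ⟨by linarith, by linarith⟩ z (mem_ball_self hr)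
  have h3 : ContinuousAt χ.σ (cz b ν a c ρ (w 0 s z) s z) := (χ.σ_an _ hm).continuousAt
  have h4 : χ.σ (cz b ν a c ρ (w 0 s z) s z) ≠ 0 := fun h0 => hX.zero_notMem (h0 ▸ (χ.σ_mem _ hm).1)
  have h5 : ContinuousAt (fun q : ℝ × ℂ => χ.σ (cz b ν a c ρ (w 0 q.1 q.2) q.1 q.2)) (s, z) :=
    ContinuousAt.comp (g := χ.σ) (f := fun q : ℝ × ℂ => cz b ν a c ρ (w 0 q.1 q.2) q.1 q.2) h3 h2
  exact ContinuousAt.comp (g := pr) (f := fun q : ℝ × ℂ => χ.σ (cz b ν a c ρ (w 0 q.1 q.2) q.1 q.2)) (Pool.Agent.H62.EF.continuousAt_pr h4) h5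

private theorem jet_mono {w : ℕ → ℝ → ℂ → ℂ} {I I' : Set ℝ} {D D' : Set ℂ} (hw : JetFam w I D) (hI : I' ⊆ I) (hD : D' ⊆ D) : JetFam w I' D' :=
  ⟨fun j s hs z hz => hw.der j s (hI hs) z (hD hz), fun j => (hw.cont j).mono (Set.prod_mono hI hD), fun j s hs => (hw.hol j s (hI hs)).mono hD⟩

/-- a family which is uniformly Lipschitz in `z` is continuous -/
private theorem lip_cont (D : TDat X Λ u a ν b LT Dt Bd ρ FF) {Φ : ℝ → ℂ → MN N} (hΦ : Φ ∈ FF) {z₀ : ℂ} {r n : ℝ} {V : Set ℝ} (hV : IsOpen V)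
    (hl : ∀ s ∈ V, ∀ z ∈ closedBall z₀ r, ∀ z' ∈ closedBall z₀ r, dist (Φ s z) (Φ s z') ≤ n * ‖z - z'‖) {s₁ : ℝ} (hs₁ : s₁ ∈ V) {z₁ : ℂ} (hz₁ : z₁ ∈ ball z₀ r) :
    ContinuousAt (fun q : ℝ × ℂ => Φ q.1 q.2) (s₁, z₁) := by
  rw [Metric.continuousAt_iff]
  intro ε hε
  obtain ⟨n', hn', hnn⟩ : ∃ n' : ℝ, 0 < n' ∧ n ≤ n' := ⟨max n 1, lt_of_lt_of_le one_pos (le_max_right _ _), le_max_left _ _⟩
  have hd : 0 < ε / (8 * n') := by positivity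
  have hev : ∀ᶠ z' in 𝓝[≠] z₁, ((s₁ : ℂ), z') ∉ Dt ∧ z' ∈ ball z₀ r ∧ z' ∈ ball z₁ (ε / (8 * n')) := by
    refine (D.dt_iso s₁ z₁).and (Filter.Eventually.filter_mono nhdsWithin_le_nhds ?_)
    exact (isOpen_ball.eventually_mem hz₁).and (isOpen_ball.eventually_mem (mem_ball_self hd))
  obtain ⟨z', h1, h2, h3⟩ := hev.exists
  have hc := smo_cont D.cone (D.smo Φ hΦ s₁ z' h1)
  have hc' : ContinuousAt (fun s : ℝ => Φ s z') s₁ :=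
    ContinuousAt.comp_of_eq (g := fun q : ℝ × ℂ => Φ q.1 q.2) (f := fun s : ℝ => ((s, z') : ℝ × ℂ)) hc (by fun_prop) rfl
  obtain ⟨δ₁, hδ₁, h4⟩ := Metric.continuousAt_iff.1 hc' (ε / 4) (by positivity)
  obtain ⟨δ₂, hδ₂, h5⟩ := Metric.isOpen_iff.1 hV s₁ hs₁
  obtain ⟨δ₃, hδ₃, h6⟩ := Metric.isOpen_iff.1 isOpen_ball z₁ hz₁
  refine ⟨min (min δ₁ δ₂) (min δ₃ (ε / (8 * n'))), lt_min (lt_min hδ₁ hδ₂) (lt_min hδ₃ hd), fun {q} hq => ?_⟩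
  rw [Prod.dist_eq, max_lt_iff] at hq
  obtain ⟨hq1, hq2⟩ := hq
  have a1 : dist q.1 s₁ < δ₁ := hq1.trans_le ((min_le_left _ _).trans (min_le_left _ _))
  have a2 : dist q.1 s₁ < δ₂ := hq1.trans_le ((min_le_left _ _).trans (min_le_right _ _))
  have a3 : dist q.2 z₁ < δ₃ := hq2.trans_le ((min_le_right _ _).trans (min_le_left _ _))
  have a4 : dist q.2 z₁ < ε / (8 * n') := hq2.trans_le ((min_le_right _ _).trans (min_le_right _ _))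
  have b1 : q.1 ∈ V := h5 a2
  have b2 : q.2 ∈ closedBall z₀ r := ball_subset_closedBall (h6 a3)
  have b3 : z' ∈ closedBall z₀ r := ball_subset_closedBall h2
  have b4 : z₁ ∈ closedBall z₀ r := ball_subset_closedBall hz₁
  have c1 := hl q.1 b1 q.2 b2 z' b3
  have c2 := hl s₁ hs₁ z' b3 z₁ b4
  have c3 := h4 a1
  rw [mem_ball, dist_eq_norm] at h3
  have d1 : ‖q.2 - z'‖ ≤ ε / (8 * n') + ε / (8 * n') := by
    calc ‖q.2 - z'‖ = ‖(q.2 - z₁) - (z' - z₁)‖ := by congr 1; ring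
      _ ≤ ‖q.2 - z₁‖ + ‖z' - z₁‖ := norm_sub_le _ _
      _ ≤ _ := by
        rw [dist_eq_norm] at a4
        linarith
  have e1 : n * ‖q.2 - z'‖ ≤ n' * (ε / (8 * n') + ε / (8 * n')) := mul_le_mul hnn d1 (norm_nonneg _) hn'.le
  have e2 : n * ‖z' - z₁‖ ≤ n' * (ε / (8 * n')) := mul_le_mul hnn h3.le (norm_nonneg _) hn'.le
  have e3 : n' * (ε / (8 * n')) = ε / 8 := by field_simp
  rw [mul_add, e3] at e1
  rw [e3] at e2
  have t1 := dist_triangle4 (Φ q.1 q.2) (Φ q.1 z') (Φ s₁ z') (Φ s₁ z₁)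
  change dist (Φ q.1 q.2) (Φ s₁ z₁) < ε
  linarith

/-- the first coordinate in the straight chart near a point where the family is continuous -/
private theorem loc_eq (hX : IsCone X) (hT : TMap X Λ u) (hL : Lat Λ) {Φ : ℝ → ℂ → MN N}
    (hlift : ∀ s : ℝ, ∃ F ∈ Gc X Λ u a (b + (s : ℂ) • ν), ∀ z, Φ s z = pr (F z)) {s₁ : ℝ} {z₁ : ℂ}
    (hc : ContinuousAt (fun q : ℝ × ℂ => Φ q.1 q.2) (s₁, z₁)) {χ : Chart (k + 2) X} {ρ' : ℝ} {x : ℂ} (hS : Str Λ u χ c ρ')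
    (hx : cz b ν a c ρ' x s₁ z₁ ∈ ball (0 : Vd (k + 2)) 2) (hΦ : Φ s₁ z₁ = pr (χ.σ (cz b ν a c ρ' x s₁ z₁))) :
    ∃ (v : EN N) (η : ℝ), 0 < η ∧ ∀ s ∈ Set.Ioo (s₁ - η) (s₁ + η), ∀ z ∈ ball z₁ η, nd v (Φ s z) ≠ 0 ∧ nv v (Φ s z) ∈ χ.U ∧
      ContinuousAt (fun z => nv v (Φ s z)) z ∧
      cz b ν a c ρ' (χ.q (nv v (Φ s z)) 0) s z ∈ ball (0 : Vd (k + 2)) 2 ∧ Φ s z = pr (χ.σ (cz b ν a c ρ' (χ.q (nv v (Φ s z)) 0) s z)) := by
  obtain ⟨p₁, hp₁⟩ : ∃ p₁, p₁ = cz b ν a c ρ' x s₁ z₁ := ⟨_, rfl⟩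
  rw [← hp₁] at hx hΦ
  obtain ⟨v, hv⟩ : ∃ v, v = χ.σ p₁ := ⟨_, rfl⟩
  rw [← hv] at hΦ
  have hvX : v ∈ X := hv ▸ (χ.σ_mem _ hx).1
  have hvU : v ∈ χ.U := hv ▸ (χ.σ_mem _ hx).2.1
  have hv0 : v ≠ 0 := fun h => hX.zero_notMem (h ▸ hvX)
  have hvv : (inner ℂ v v : ℂ) ≠ 0 := inner_self_ne_zero.mpr hv0
  have hnd : nd v (Φ s₁ z₁) ≠ 0 := by
    rw [hΦ]
    exact (nd_pr_ne hv0).2 hvv
  have hnv : nv v (Φ s₁ z₁) = (inner ℂ v v : ℂ)⁻¹ • v := by rw [hΦ, nv_pr hvv]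
  have hU1 : nv v (Φ s₁ z₁) ∈ χ.U := by
    rw [hnv]
    exact χ.smul_U v hvU _ (inv_ne_zero hvv)
  have hq1 : χ.q (nv v (Φ s₁ z₁)) = p₁ := by
    rw [hnv, χ.q_smul v hvU _ (inv_ne_zero hvv), hv]
    exact (χ.σ_mem _ hx).2.2
  have hcn : ContinuousAt (fun q : ℝ × ℂ => nv v (Φ q.1 q.2)) (s₁, z₁) :=
    ContinuousAt.comp_of_eq (g := nv v) (f := fun q : ℝ × ℂ => Φ q.1 q.2) (nv_continuousAt hnd) hc rfl
  have hcq : ContinuousAt (fun q : ℝ × ℂ => χ.q (nv v (Φ q.1 q.2))) (s₁, z₁) :=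
    ContinuousAt.comp_of_eq (g := χ.q) (f := fun q : ℝ × ℂ => nv v (Φ q.1 q.2)) (χ.q_an _ hU1).continuousAt hcn rfl
  have hcd : ContinuousAt (fun q : ℝ × ℂ => nd v (Φ q.1 q.2)) (s₁, z₁) :=
    ContinuousAt.comp_of_eq (g := nd v) (f := fun q : ℝ × ℂ => Φ q.1 q.2) (nd_cont v).continuousAt hc rfl
  obtain ⟨δ, hδ, hdisc⟩ := hL.disc
  have hms : Continuous (ms (k := k) c ρ') := by
    unfold ms tl
    fun_prop
  have hcm : ContinuousAt (fun q : ℝ × ℂ => ‖ms c ρ' (χ.q (nv v (Φ q.1 q.2))) - (b + (q.1 : ℂ) • ν + q.2 • a)‖) (s₁, z₁) := by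
    refine ContinuousAt.norm (ContinuousAt.sub ?_ ?_)
    · exact ContinuousAt.comp_of_eq (g := ms c ρ') (f := fun q : ℝ × ℂ => χ.q (nv v (Φ q.1 q.2))) hms.continuousAt hcq rfl
    · have h1 : Continuous fun q : ℝ × ℂ => b + (q.1 : ℂ) • ν + q.2 • a :=
        (continuous_const.add ((Complex.continuous_ofReal.comp continuous_fst).smul continuous_const)).add (continuous_snd.smul continuous_const)
      exact h1.continuousAt
  have hm0 : ‖ms c ρ' (χ.q (nv v (Φ s₁ z₁))) - (b + (s₁ : ℂ) • ν + z₁ • a)‖ < δ := by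
    rw [hq1, hp₁, ms_cz hS.pos, sub_self, norm_zero]
    exact hδ
  have e1 : ∀ᶠ q in 𝓝 ((s₁, z₁) : ℝ × ℂ), nd v (Φ q.1 q.2) ≠ 0 := hcd.eventually_ne hnd
  have e2 : ∀ᶠ q in 𝓝 ((s₁, z₁) : ℝ × ℂ), nv v (Φ q.1 q.2) ∈ χ.U := hcn.eventually_mem (χ.isOpen_U.mem_nhds hU1)
  have e3 : ∀ᶠ q in 𝓝 ((s₁, z₁) : ℝ × ℂ), χ.q (nv v (Φ q.1 q.2)) ∈ ball (0 : Vd (k + 2)) 2 :=
    hcq.eventually_mem (isOpen_ball.mem_nhds (by rw [hq1]; exact hx))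
  have e4 : ∀ᶠ q in 𝓝 ((s₁, z₁) : ℝ × ℂ), ‖ms c ρ' (χ.q (nv v (Φ q.1 q.2))) - (b + (q.1 : ℂ) • ν + q.2 • a)‖ < δ :=
    hcm.eventually_lt continuousAt_const hm0
  obtain ⟨η, hη, he⟩ := Metric.eventually_nhds_iff.1 (e1.and (e2.and (e3.and e4)))
  refine ⟨v, η, hη, fun s hs z hz => ?_⟩
  have hd : dist ((s, z) : ℝ × ℂ) (s₁, z₁) < η := by
    rw [Prod.dist_eq]
    refine max_lt ?_ hz
    rw [Real.dist_eq, abs_lt]
    exact ⟨by linarith [hs.1], by linarith [hs.2]⟩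
  obtain ⟨h1, h2, h3, h4⟩ := he hd
  obtain ⟨F, ⟨hF1, hF2, hF3⟩, hF4⟩ := hlift s
  have hF0 : F z ≠ 0 := fun h => hX.zero_notMem (h ▸ hF2 z)
  dsimp only at h1 h2 h3 h4
  have h5 : (inner ℂ v (F z) : ℂ) ≠ 0 := by
    rw [← nd_pr_ne hF0, ← hF4 z]
    exact h1
  have h6 : nv v (Φ s z) = (inner ℂ v (F z) : ℂ)⁻¹ • F z := by rw [hF4 z, nv_pr h5]
  have h7 : nv v (Φ s z) ∈ X := by
    rw [h6]
    exact hX.smul_mem _ (hF2 z) _ (inv_ne_zero h5)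
  have h8 : pr (nv v (Φ s z)) = Φ s z := by
    rw [hF4 z]
    exact pr_nv h5
  obtain ⟨hin, c', hc', h9⟩ := χ.surj _ h7 h2
  have h10 : Φ s z = pr (χ.σ (χ.q (nv v (Φ s z)))) := by
    rw [← h8]
    conv_lhs => rw [h9]
    rw [h8]
    exact Pool.Agent.H62.EF.pr_smul _ hc'
  -- the base coordinates
  have h11 : ms c ρ' (χ.q (nv v (Φ s z))) - (b + (s : ℂ) • ν + z • a) ∈ Λ := by
    have g1 := hS.lift _ h3
    have g2 := hT.smul _ (χ.σ_mem _ h3).1 c' hc'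
    rw [← h9] at g2
    have g3 := hT.smul _ (hF2 z) _ (inv_ne_zero h5)
    rw [← h6] at g3
    have g4 := hF3 z
    have g5 : ms c ρ' (χ.q (nv v (Φ s z))) - (b + (s : ℂ) • ν + z • a) =
        -(u (χ.σ (χ.q (nv v (Φ s z)))) - ms c ρ' (χ.q (nv v (Φ s z)))) - (u (nv v (Φ s z)) - u (χ.σ (χ.q (nv v (Φ s z))))) +
          (u (nv v (Φ s z)) - u (F z)) + (u (F z) - (b + (s : ℂ) • ν + z • a)) := by
      abel
    rw [g5]
    exact Λ.add_mem (Λ.add_mem (Λ.sub_mem (Λ.neg_mem g1) g2) g3) g4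
  have h12 : ms c ρ' (χ.q (nv v (Φ s z))) = b + (s : ℂ) • ν + z • a := sub_eq_zero.1 (hdisc _ h11 h4)
  have h13 : χ.q (nv v (Φ s z)) = cz b ν a c ρ' (χ.q (nv v (Φ s z)) 0) s z := by
    have hρ : (ρ' : ℂ) ≠ 0 := by exact_mod_cast hS.pos.ne'
    funext i
    refine Fin.cases rfl (fun j => ?_) i
    have g1 := congrFun h12 j
    simp only [ms, tl, Pi.add_apply, Pi.smul_apply, smul_eq_mul] at g1
    change _ = (ρ' : ℂ)⁻¹ * (b j + (s : ℂ) * ν j + z * a j - c j)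
    rw [← g1]
    field_simp
    ring
  refine ⟨h1, h2, ?_, ?_, ?_⟩
  · have g0 : ContinuousAt (fun z => Φ s z) z := by
      have g1 : (fun z => Φ s z) = fun z => pr (F z) := funext hF4
      rw [g1]
      exact ContinuousAt.comp_of_eq (g := pr) (f := F) (Pool.Agent.H62.EF.continuousAt_pr hF0) hF1.continuous.continuousAt rfl
    exact ContinuousAt.comp_of_eq (g := nv v) (f := fun z => Φ s z) (nv_continuousAt h1) g0 rfl
  · rw [← h13]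
    exact h3
  · rw [← h13]
    exact h10

theorem smo_of_lip (D : TDat X Λ u a ν b LT Dt Bd ρ FF) {Φ : ℝ → ℂ → MN N} (hΦ : Φ ∈ FF) {z₀ : ℂ} {r n : ℝ} {V : Set ℝ} (hV : IsOpen V)
    (hl : ∀ s ∈ V, ∀ z ∈ closedBall z₀ r, ∀ z' ∈ closedBall z₀ r, dist (Φ s z) (Φ s z') ≤ n * ‖z - z'‖) {s₁ : ℝ} (hs₁ : s₁ ∈ V) {z₁ : ℂ} (hz₁ : z₁ ∈ ball z₀ r)
    (hb : ((s₁ : ℂ), z₁) ∉ Bd) : Smo X Λ u a ν b Φ s₁ z₁ := by
  have hcont : ContinuousAt (fun q : ℝ × ℂ => Φ q.1 q.2) (s₁, z₁) := lip_cont D hΦ hV hl hs₁ hz₁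
  obtain ⟨χ, c, ρ', x, hS, hx, hp⟩ := D.str Φ hΦ s₁ z₁ hb
  obtain ⟨v, η, hη, hloc⟩ := loc_eq D.cone D.tor D.lat (D.lift Φ hΦ) hcont hS hx hp
  -- local smoothness off `Dt`
  have hsm : ∀ s ∈ Set.Ioo (s₁ - η) (s₁ + η), ∀ z ∈ ball z₁ η, ((s : ℂ), z) ∉ Dt → ∃ (δ : ℝ) (w : ℕ → ℝ → ℂ → ℂ), 0 < δ ∧
      JetFam w (Set.Ioo (s - δ) (s + δ)) (ball z δ) ∧ ∀ s' ∈ Set.Ioo (s - δ) (s + δ), ∀ z' ∈ ball z δ, w 0 s' z' = χ.q (nv v (Φ s' z')) 0 := by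
    intro s hs z hz hD
    obtain ⟨χ', c', ρ'', w', r', B⟩ := D.smo Φ hΦ s z hD
    obtain ⟨ε₁, hε₁, h1⟩ := Metric.isOpen_iff.1 (isOpen_Ioo (a := s₁ - η) (b := s₁ + η)) s hs
    obtain ⟨ε₂, hε₂, h2⟩ := Metric.isOpen_iff.1 isOpen_ball z hz
    obtain ⟨δ, hδ⟩ : ∃ δ, δ = min r' (min ε₁ ε₂) := ⟨_, rfl⟩
    have hδ0 : 0 < δ := hδ ▸ lt_min B.pos (lt_min hε₁ hε₂)
    have hδ1 : δ ≤ r' := hδ ▸ min_le_left _ _
    have hδ2 : δ ≤ ε₁ := hδ ▸ (min_le_right _ _).trans (min_le_left _ _)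
    have hδ3 : δ ≤ ε₂ := hδ ▸ (min_le_right _ _).trans (min_le_right _ _)
    have hI1 : Set.Ioo (s - δ) (s + δ) ⊆ Set.Ioo (s - r') (s + r') := fun t ht => ⟨by linarith [ht.1], by linarith [ht.2]⟩
    have hI2 : Set.Ioo (s - δ) (s + δ) ⊆ Set.Ioo (s₁ - η) (s₁ + η) := by
      intro t ht
      refine h1 ?_
      rw [mem_ball, Real.dist_eq, abs_lt]
      exact ⟨by linarith [ht.1], by linarith [ht.2]⟩
    have hB1 : ball z δ ⊆ ball z r' := ball_subset_ball hδ1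
    have hB2 : ball z δ ⊆ ball z₁ η := (ball_subset_ball hδ3).trans h2
    have hjet : JetFam w' (Set.Ioo (s - δ) (s + δ)) (ball z δ) := jet_mono B.jet hI1 hB1
    have hval : ∀ s' ∈ Set.Ioo (s - δ) (s + δ), ∀ z' ∈ ball z δ, χ'.σ (cz b ν a c' ρ'' (w' 0 s' z') s' z') ∈ χ.U ∧
        χ.q (nv v (Φ s' z')) = χ.q (χ'.σ (cz b ν a c' ρ'' (w' 0 s' z') s' z')) := by
      intro s' hs' z' hz'
      obtain ⟨g1, g2, -, -, -⟩ := hloc s' (hI2 hs') z' (hB2 hz')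
      have g3 := B.mem s' (hI1 hs') z' (hB1 hz')
      have g4 := B.eq s' (hI1 hs') z' (hB1 hz')
      obtain ⟨y, hy⟩ : ∃ y, y = χ'.σ (cz b ν a c' ρ'' (w' 0 s' z') s' z') := ⟨_, rfl⟩
      rw [← hy] at g4 ⊢
      have hyX : y ∈ X := hy ▸ (χ'.σ_mem _ g3).1
      have hy0 : y ≠ 0 := fun h => D.cone.zero_notMem (h ▸ hyX)
      have g5 : (inner ℂ v y : ℂ) ≠ 0 := by
        rw [← nd_pr_ne hy0, ← g4]
        exact g1
      have g6 : nv v (Φ s' z') = (inner ℂ v y : ℂ)⁻¹ • y := by rw [g4, nv_pr g5]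
      have g7 : y = (inner ℂ v y : ℂ) • nv v (Φ s' z') := by
        rw [g6, smul_smul, mul_inv_cancel₀ g5, one_smul]
      have g8 : y ∈ χ.U := by
        rw [g7]
        exact χ.smul_U _ g2 _ g5
      refine ⟨g8, ?_⟩
      rw [g6]
      exact χ.q_smul y g8 _ (inv_ne_zero g5)
    -- the analytic function
    obtain ⟨Y, hY⟩ : ∃ Y : ℂ × ℂ × (Unit → ℂ) → Vd (k + 2), ∀ q, Y q = cz b ν a c' ρ'' (q.2.2 ()) q.1 q.2.1 := ⟨_, fun _ => rfl⟩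
    have hYa : ∀ q, AnalyticAt ℂ Y q := by
      intro q
      have g0 : Y = fun q => cz b ν a c' ρ'' (q.2.2 ()) q.1 q.2.1 := funext hY
      rw [g0]
      refine cz_analytic ?_ analyticAt_fst ?_
      · have g1 : AnalyticAt ℂ (fun q : ℂ × ℂ × (Unit → ℂ) => q.2.2) q := AnalyticAt.fun_comp (g := Prod.snd) analyticAt_snd analyticAt_snd
        exact analyticAt_pi_iff.1 g1 ()
      · exact AnalyticAt.fun_comp (g := Prod.fst) analyticAt_fst analyticAt_snd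
    have hQ : AnalyticOnNhd ℂ (fun q : ℂ × ℂ × (Unit → ℂ) => χ.q (χ'.σ (Y q)) 0) {q | Y q ∈ ball (0 : Vd (k + 2)) 2 ∧ χ'.σ (Y q) ∈ χ.U} := by
      rintro q ⟨hq1, hq2⟩
      have g1 : AnalyticAt ℂ (fun q => χ'.σ (Y q)) q := AnalyticAt.fun_comp (g := χ'.σ) (χ'.σ_an _ hq1) (hYa q)
      have g2 : AnalyticAt ℂ (fun q => χ.q (χ'.σ (Y q))) q := AnalyticAt.fun_comp (g := χ.q) (f := fun q => χ'.σ (Y q)) (χ.q_an _ hq2) g1
      exact analyticAt_pi_iff.1 g2 0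
    obtain ⟨w, hw1, hw2⟩ := JetFam.comp (ι := Unit) (f := fun _ => w') isOpen_Ioo isOpen_ball (fun _ => hjet) hQ (fun s' hs' z' hz' => by
      simp only [Set.mem_ofPred_eq, hY]
      exact ⟨B.mem s' (hI1 hs') z' (hB1 hz'), (hval s' hs' z' hz').1⟩)
    refine ⟨δ, w, hδ0, hw1, fun s' hs' z' hz' => ?_⟩
    rw [hw2 s' hs' z' hz', (hval s' hs' z' hz').2, hY]
  -- the circle
  obtain ⟨r₂, hr₂, hcirc⟩ := Metric.eventually_nhds_iff.1 (eventually_nhdsWithin_iff.1 (D.dt_iso s₁ z₁))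
  obtain ⟨r₁, hr₁⟩ : ∃ r₁, r₁ = min r₂ η / 2 := ⟨_, rfl⟩
  have hm : 0 < min r₂ η := lt_min hr₂ hη
  have hr0 : 0 < r₁ := by rw [hr₁]; linarith
  have hr2 : r₁ < r₂ := by
    have := min_le_left r₂ η
    rw [hr₁]; linarith
  have hrη : r₁ < η := by
    have := min_le_right r₂ η
    rw [hr₁]; linarith
  have hev : ∀ᶠ s : ℝ in 𝓝 s₁, ∀ z ∈ sphere z₁ r₁, ((s : ℂ), z) ∉ Dt := by
    refine (isCompact_sphere z₁ r₁).eventually_forall_of_forall_eventually fun z hz => ?_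
    have g1 : ((s₁ : ℂ), z) ∉ Dt := by
      rw [mem_sphere] at hz
      refine hcirc (by rw [hz]; exact hr2) ?_
      rintro rfl
      rw [dist_self] at hz
      exact hr0.ne hz
    have g2 : Continuous fun q : ℝ × ℂ => ((q.1 : ℂ), q.2) := (Complex.continuous_ofReal.comp continuous_fst).prodMk continuous_snd
    exact (g2.continuousAt (x := ((s₁, z) : ℝ × ℂ))).eventually_mem (D.dt_closed.isOpen_compl.mem_nhds g1)
  obtain ⟨δ, hδ, hδs⟩ := Metric.eventually_nhds_iff.1 hev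
  obtain ⟨R, hR⟩ : ∃ R, R = min (min δ η) r₁ := ⟨_, rfl⟩
  have hR0 : 0 < R := hR ▸ lt_min (lt_min hδ hη) hr0
  have hRδ : R ≤ δ := hR ▸ (min_le_left _ _).trans (min_le_left _ _)
  have hRη : R ≤ η := hR ▸ (min_le_left _ _).trans (min_le_right _ _)
  have hRr : R ≤ r₁ := hR ▸ min_le_right _ _
  have hIs : Set.Ioo (s₁ - R) (s₁ + R) ⊆ Set.Ioo (s₁ - η) (s₁ + η) := fun t ht => ⟨by linarith [ht.1], by linarith [ht.2]⟩
  have hBs : closedBall z₁ r₁ ⊆ ball z₁ η := closedBall_subset_ball hrη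
  have hhol : ∀ s ∈ Set.Ioo (s₁ - R) (s₁ + R), DifferentiableOn ℂ (fun z => χ.q (nv v (Φ s z)) 0) (ball z₁ η) := by
    intro s hs
    obtain ⟨F, ⟨hF1, hF2, hF3⟩, hF4⟩ := D.lift Φ hΦ s
    have key : ∀ z ∈ ball z₁ η, F z ∈ χ.U ∧ χ.q (nv v (Φ s z)) = χ.q (F z) := by
      intro z hz
      obtain ⟨g1, g2, -, -, -⟩ := hloc s (hIs hs) z hz
      have hF0 : F z ≠ 0 := fun h => D.cone.zero_notMem (h ▸ hF2 z)
      have g5 : (inner ℂ v (F z) : ℂ) ≠ 0 := by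
        rw [← nd_pr_ne hF0, ← hF4 z]
        exact g1
      have g6 : nv v (Φ s z) = (inner ℂ v (F z) : ℂ)⁻¹ • F z := by rw [hF4 z, nv_pr g5]
      have g7 : F z = (inner ℂ v (F z) : ℂ) • nv v (Φ s z) := by
        rw [g6, smul_smul, mul_inv_cancel₀ g5, one_smul]
      have g8 : F z ∈ χ.U := by
        rw [g7]
        exact χ.smul_U _ g2 _ g5
      refine ⟨g8, ?_⟩
      rw [g6]
      exact χ.q_smul _ g8 _ (inv_ne_zero g5)
    have h1 : DifferentiableOn ℂ (fun z => χ.q (F z) 0) (ball z₁ η) := by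
      intro z hz
      have g1 : DifferentiableAt ℂ (fun z => χ.q (F z)) z :=
        DifferentiableAt.comp (g := χ.q) (f := F) z (χ.q_an _ (key z hz).1).differentiableAt (hF1 z)
      exact (differentiableAt_pi.1 g1 0).differentiableWithinAt
    exact h1.congr fun z hz => by rw [(key z hz).2]
  obtain ⟨w, hw1, hw2⟩ := jet_fill (w := fun s z => χ.q (nv v (Φ s z)) 0) (I := Set.Ioo (s₁ - R) (s₁ + R)) isOpen_Ioo (z₁ := z₁) hr0
    (fun s hs => ⟨(hhol s hs).mono (ball_subset_closedBall.trans hBs), (hhol s hs).continuousOn.mono hBs⟩)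
    (fun s hs z hz => hsm s (hIs hs) z (hBs (sphere_subset_closedBall hz)) (hδs (by
      rw [Real.dist_eq, abs_lt]
      exact ⟨by linarith [hs.1], by linarith [hs.2]⟩) z hz))
  refine ⟨χ, c, ρ', w, R, hR0, hS, jet_mono hw1 subset_rfl (ball_subset_ball hRr), fun s hs z hz => ?_, fun s hs z hz => ?_⟩
  · rw [hw2 s hs z (ball_subset_ball hRr hz)]
    exact (hloc s (hIs hs) z (ball_subset_ball hRη hz)).2.2.2.1
  · rw [hw2 s hs z (ball_subset_ball hRr hz)]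
    exact (hloc s (hIs hs) z (ball_subset_ball hRη hz)).2.2.2.2

end Pool.Agent.G3.C

end

section

/-!
# G3 R StepA: order zero, and the sequences of the proof by contradiction
-/

set_option autoImplicit false

open Topology Filter Metric

namespace Pool.Agent.G3.R

open Pool.Agent.H36.BP (EN fs wd)
open Pool.Agent.H14.PP (IsCone CurveAt Tan)
open Pool.Agent.H62.EF (MN pr)
open Pool.Agent.AD (Vd Chart Charts IsGerm)
open Pool.Agent.TG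
open Pool.Agent.G3.C (Gc nv nd nv_pr)
open Pool.Agent.G3.A

variable {N k : ℕ} {X : Set (EN N)} {Λ : AddSubgroup (Vd (k + 1))} {u : EN N → Vd (k + 1)} {D B Bad : Set (Vd (k + 1))} {a b w : Vd (k + 1)} {E : Submodule ℝ (Vd (k + 1))}
  {SS : Set (Vd (k + 1) → MN N)} {J : ℕ} {α : Fin J → VForm X Λ u} {c₀ C₀ ρ δ : ℝ}

theorem norm_smul_w {s r : ℝ} (hr : |s| ≤ r) (w : Vd (k + 1)) : ‖(s : ℂ) • w‖ ≤ r * ‖w‖ := by
  rw [norm_smul, Complex.norm_real]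
  exact mul_le_mul_of_nonneg_right hr (norm_nonneg _)

/-- the values in the affine chart are bounded -/
theorem nv_le_two (hS : Shs X Λ u D a b E SS) (hL : LG Λ D Bad a) (hw : w ∈ E) {δ' : ℝ} (hδ' : 0 < δ') : ∃ r : ℝ, 0 < r ∧ ∀ φ ∈ SS, ∀ y ∈ Tb b E, y ∈ Gd D δ' → ∀ v : EN N, ‖v‖ = 1 →
    pr v = φ y → ∀ s : ℝ, |s| ≤ r → ‖nv v (φ (y + (s : ℂ) • w))‖ ≤ 2 := by
  obtain ⟨ε, hε, h1⟩ := nv_near (N := N) one_pos
  obtain ⟨r, hr, h2⟩ := hS.unif hL hδ' hε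
  have hw1 : 0 < ‖w‖ + 1 := by positivity
  refine ⟨r / (‖w‖ + 1), by positivity, fun φ hφ y hy hyG v hv hvφ s hs => ?_⟩
  have h3 : ‖y + (s : ℂ) • w - y‖ ≤ r := by
    rw [add_sub_cancel_left]
    refine (norm_smul_w hs w).trans ?_
    rw [div_mul_eq_mul_div, div_le_iff₀ hw1]
    nlinarith [norm_nonneg w]
  have h4 := h2 φ hφ y hy hyG (y + (s : ℂ) • w) (tb_add hy (smul_mem_E hw s)) h3
  rw [← hvφ] at h4
  have h5 := h1 v hv _ h4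
  have h6 := norm_sub_norm_le (nv v (φ (y + (s : ℂ) • w))) v
  rw [hv] at h6
  linarith

theorem ddb_zero' (S : DA X Λ u D B Bad a α c₀ C₀ ρ δ) (hS : Shs X Λ u D a b E SS) (hw : w ∈ E) : DDb D (Tb b E) SS w 0 := by
  intro δ' hδ'
  obtain ⟨r, hr, h1⟩ := nv_le_two hS S.lg hw hδ'
  refine ⟨r, 2, hr, by norm_num, fun φ hφ y hy hyG v hv hvφ σ hσ => ?_⟩
  rw [dd_zero]
  exact h1 φ hφ y hy hyG v hv hvφ (σ 0) (hσ.le 0 le_rfl)

/-- a near maximum -/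
theorem near_max {A : Set ℝ} (hA : BddAbove A) : ∃ M : ℝ, 1 ≤ M ∧ (∀ x ∈ A, x ≤ M) ∧ (1 < M → ∃ x ∈ A, M / 2 ≤ x) := by
  refine ⟨max 1 (sSup A), le_max_left _ _, fun x hx => (le_csSup hA hx).trans (le_max_right _ _), fun h => ?_⟩
  have h1 : max 1 (sSup A) = sSup A := by
    rcases max_choice 1 (sSup A) with h2 | h2
    · rw [h2] at h
      exact absurd h (lt_irrefl _)
    · exact h2
  have h3 : A.Nonempty := by
    by_contra hne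
    rw [Set.not_nonempty_iff_eq_empty] at hne
    rw [h1, hne, Real.sSup_empty] at h
    linarith
  rw [h1] at h ⊢
  obtain ⟨x, hx, hlt⟩ := exists_lt_of_lt_csSup h3 (show sSup A / 2 < sSup A by linarith)
  exact ⟨x, hx, hlt.le⟩

/-- the size of the divided difference of order `m` at `y` in the chart `nv v` -/
noncomputable def sz (w : Vd (k + 1)) (m : ℕ) (σ : ℕ → ℝ) (φ : Vd (k + 1) → MN N) (y : Vd (k + 1)) (v : EN N) : ℝ := ‖dd m σ fun s : ℝ => nv v (φ (y + (s : ℂ) • w))‖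

end Pool.Agent.G3.R

end
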