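import Pool.Agent.H94.G5T.H62.EF.PrA
import Pool.Agent.H94.G5T.M03
import Pool.Agent.H94.G5T.M07
import Pool.Agent.H94.G5T.M11
import Pool.Agent.H94.G5T.M34
import Pool.Agent.H94.G5T.M49

/-! The parts of this file: G3.C.Rem, G3.X.Inv, G4.E.Mnr, G4.Z.Abs, H17EF.Alg, G3.C.ZCount, H56.G3.PerExt, H62.FC.Extend, H62.FC.Wronsk, H62.FC.PunctMero, H92.GGL.NevMero, H62.FC.CharMero, G3.X.FrmA. -/

section

/-!
# G3 C Rem: removable singularities at isolated points

`g z = f z` for `z ∉ S`, `g z = limUnder (𝓝[≠] z) f` for `z ∈ S`; near every point of `U` this is `Complex.differentiableOn_update_limUnder_of_bddAbove`.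
-/

set_option autoImplicit false

open Topology Filter Metric

namespace Pool.Agent.G3.C

theorem removable_discrete {U S : Set ℂ} (hU : IsOpen U) (hS : ∀ z ∈ U, ∀ᶠ z' in 𝓝[≠] z, z' ∉ S) {f : ℂ → ℂ} (hf : ∀ z ∈ U, z ∉ S → AnalyticAt ℂ f z)
    (hb : ∀ z ∈ U, ∃ C : ℝ, ∀ᶠ z' in 𝓝[≠] z, ‖f z'‖ ≤ C) : ∃ g : ℂ → ℂ, DifferentiableOn ℂ g U ∧ ∀ z ∈ U, z ∉ S → g z = f z := by
  classical
  refine ⟨fun z => if z ∈ S then limUnder (𝓝[≠] z) f else f z, ?_, fun z _ hz => by simp [hz]⟩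
  intro z hz
  apply DifferentiableAt.differentiableWithinAt
  by_cases hzS : z ∈ S
  · obtain ⟨C, hC⟩ := hb z hz
    have h1 : ∀ᶠ z' in 𝓝[≠] z, z' ∉ S ∧ ‖f z'‖ ≤ C ∧ z' ∈ U :=
      (hS z hz).and (hC.and (mem_nhdsWithin_of_mem_nhds (hU.mem_nhds hz)))
    rw [eventually_nhdsWithin_iff, Metric.eventually_nhds_iff_ball] at h1
    obtain ⟨r, hr, h1⟩ := h1
    have hd : DifferentiableOn ℂ f (ball z r \ {z}) := by
      intro w hw
      have h2 := h1 w hw.1 hw.2
      exact (hf w h2.2.2 h2.1).differentiableAt.differentiableWithinAt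
    have hbd : BddAbove (norm ∘ f '' (ball z r \ {z})) := by
      refine ⟨C, ?_⟩
      rintro _ ⟨w, hw, rfl⟩
      exact (h1 w hw.1 hw.2).2.1
    have h3 := Complex.differentiableOn_update_limUnder_of_bddAbove (ball_mem_nhds z hr) hd hbd
    have h4 := h3.differentiableAt (ball_mem_nhds z hr)
    refine h4.congr_of_eventuallyEq ?_
    filter_upwards [ball_mem_nhds z hr] with w hw
    by_cases hwz : w = z
    · subst hwz
      simp [hzS]
    · have h2 := h1 w hw hwz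
      simp [h2.1, hwz]
  · refine (hf z hz hzS).differentiableAt.congr_of_eventuallyEq ?_
    have h1 := hS z hz
    rw [eventually_nhdsWithin_iff] at h1
    filter_upwards [h1] with w hw
    by_cases hwz : w = z
    · subst hwz
      simp [hzS]
    · simp [hw hwz]

end Pool.Agent.G3.C

end

section

/-!
# G3 X Inv: the inverse of a small perturbation of a function with `ξ₀ 0 = 0`, `ξ₀' 0 = a ≠ 0`

`S₁ ≤ S` such that `ξ₀` is differentiable on `ball 0 S₁` and `‖deriv ξ₀ z - a‖ ≤ ‖a‖ / 20` there.  For `ξ` as stated and `z ∈ ball 0 (S₁ / 2)`: `‖deriv ξ z - deriv ξ₀ z‖ ≤ δ / (S₁ / 2) ≤ ‖a‖ / 50` (Cauchy,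
`Complex.norm_deriv_le_of_forall_mem_sphere_norm_le`, on circles of radius `< S₁ / 2`), so `‖deriv ξ z - a‖ ≤ ‖a‖ / 10` and on the convex set `ball 0 (S₁ / 2)` the function `ξ z - a z` is Lipschitz with the constant `‖a‖ / 10`
(`Convex.norm_image_sub_le_of_norm_deriv_le`): the two inequalities.
`θ`: `ξ` is injective with nonvanishing derivative on `ball 0 (S₁ / 2)`, and its image contains `ball 0 (‖a‖ S₁ / 4)`: for `w` in it the map `z ↦ z - (ξ z - w) / a` maps `closedBall 0 (2 S₁ / 5)` into itself (`‖ξ 0‖ ≤ δ ≤ ‖a‖ S₁ / 100`) and is a contraction with the constant `1/10`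
(`ContractingWith`), or `ApproximatesLinearOn.surjOn_closedBall_of_nonlinearRightInverse`.  The inverse function is continuous (expansion) and differentiable (`HasDerivAt.of_local_left_inverse`).
-/

set_option autoImplicit false

open Topology Filter Metric

namespace Pool.Agent.GX

theorem exists_inv {ξ₀ : ℂ → ℂ} {a : ℂ} (ha : a ≠ 0) (h : AnalyticAt ℂ ξ₀ 0) (h0 : ξ₀ 0 = 0) (hd : deriv ξ₀ 0 = a) {S : ℝ} (hS : 0 < S) :
    ∃ S₁ : ℝ, 0 < S₁ ∧ S₁ ≤ S ∧ DifferentiableOn ℂ ξ₀ (ball 0 S₁) ∧ ∀ (δ : ℝ) (ξ : ℂ → ℂ), δ ≤ ‖a‖ * S₁ / 100 → DifferentiableOn ℂ ξ (ball 0 S₁) →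
      (∀ z ∈ ball (0 : ℂ) S₁, ‖ξ z - ξ₀ z‖ ≤ δ) →
      (∀ z ∈ ball (0 : ℂ) (S₁ / 2), ∀ w ∈ ball (0 : ℂ) (S₁ / 2), 9 / 10 * ‖a‖ * ‖z - w‖ ≤ ‖ξ z - ξ w‖ ∧ ‖ξ z - ξ w‖ ≤ 11 / 10 * ‖a‖ * ‖z - w‖) ∧
      ∃ θ : ℂ → ℂ, DifferentiableOn ℂ θ (ball 0 (‖a‖ * S₁ / 4)) ∧ (∀ w ∈ ball (0 : ℂ) (‖a‖ * S₁ / 4), θ w ∈ ball (0 : ℂ) (S₁ / 2) ∧ ξ (θ w) = w) ∧
        ∀ z ∈ ball (0 : ℂ) (S₁ / 2), ξ z ∈ ball (0 : ℂ) (‖a‖ * S₁ / 4) → θ (ξ z) = z := by
  have ha' : 0 < ‖a‖ := norm_pos_iff.2 ha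
  -- the radius
  have e1 : ∀ᶠ z in 𝓝 (0 : ℂ), AnalyticAt ℂ ξ₀ z ∧ ‖deriv ξ₀ z - a‖ < ‖a‖ / 20 := by
    have h1 : ContinuousAt (fun z => ‖deriv ξ₀ z - a‖) 0 := (h.deriv.continuousAt.sub continuousAt_const).norm
    have h2 : ∀ᶠ z in 𝓝 (0 : ℂ), ‖deriv ξ₀ z - a‖ < ‖a‖ / 20 := by
      refine h1.eventually_lt_const ?_
      show ‖deriv ξ₀ 0 - a‖ < ‖a‖ / 20
      rw [hd, sub_self, norm_zero]
      positivity
    exact h.eventually_analyticAt.and h2
  obtain ⟨S₂, hS₂, hb⟩ := Metric.eventually_nhds_iff_ball.1 e1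
  refine ⟨min S S₂, lt_min hS hS₂, min_le_left _ _, fun z hz => (hb z (ball_subset_ball (min_le_right _ _) hz)).1.differentiableAt.differentiableWithinAt, ?_⟩
  have hb' : ∀ z ∈ ball (0 : ℂ) (min S S₂), AnalyticAt ℂ ξ₀ z ∧ ‖deriv ξ₀ z - a‖ < ‖a‖ / 20 := fun z hz => hb z (ball_subset_ball (min_le_right _ _) hz)
  have hS₁ : 0 < min S S₂ := lt_min hS hS₂
  clear hb e1
  generalize min S S₂ = S₁ at hb' hS₁ ⊢
  intro δ ξ hδ hξ hξξ
  have hfd : DifferentiableOn ℂ (fun z => ξ z - ξ₀ z) (ball 0 S₁) := fun z hz => (hξ z hz).sub (hb' z hz).1.differentiableAt.differentiableWithinAt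
  have hsub : ∀ z ∈ ball (0 : ℂ) (S₁ / 2), z ∈ ball (0 : ℂ) S₁ := fun z hz => ball_subset_ball (by linarith) hz
  have hξa : ∀ z ∈ ball (0 : ℂ) (S₁ / 2), HasDerivAt ξ (deriv ξ z) z := fun z hz =>
    ((hξ z (hsub z hz)).differentiableAt (isOpen_ball.mem_nhds (hsub z hz))).hasDerivAt
  have hder : ∀ z ∈ ball (0 : ℂ) (S₁ / 2), ‖deriv ξ z - a‖ ≤ ‖a‖ / 10 := by
    intro z hz
    have hcl : closedBall z (S₁ / 2) ⊆ ball (0 : ℂ) S₁ := by
      intro w hw
      rw [mem_closedBall, dist_eq_norm] at hw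
      rw [mem_ball_zero_iff] at hz ⊢
      have := norm_add_le (w - z) z
      rw [sub_add_cancel] at this
      linarith
    have h1 : DiffContOnCl ℂ (fun z => ξ z - ξ₀ z) (ball z (S₁ / 2)) := by
      refine DifferentiableOn.diffContOnCl ?_
      rw [closure_ball z (by positivity : S₁ / 2 ≠ 0)]
      exact hfd.mono hcl
    have h2 := Complex.norm_deriv_le_of_forall_mem_sphere_norm_le (by positivity : 0 < S₁ / 2) h1 (C := δ) (fun w hw => hξξ w (hcl (sphere_subset_closedBall hw)))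
    have h3 : deriv (fun z => ξ z - ξ₀ z) z = deriv ξ z - deriv ξ₀ z := ((hξa z hz).sub (hb' z (hsub z hz)).1.differentiableAt.hasDerivAt).deriv
    rw [h3] at h2
    have h4 : δ / (S₁ / 2) ≤ ‖a‖ / 50 := by
      rw [div_le_iff₀ (by positivity)]
      linarith
    have h5 : deriv ξ z - a = (deriv ξ z - deriv ξ₀ z) + (deriv ξ₀ z - a) := by ring
    rw [h5]
    have h6 := norm_add_le (deriv ξ z - deriv ξ₀ z) (deriv ξ₀ z - a)
    have h7 := (hb' z (hsub z hz)).2
    linarith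
  have hne : ∀ z ∈ ball (0 : ℂ) (S₁ / 2), deriv ξ z ≠ 0 := by
    intro z hz h0'
    have h1 := hder z hz
    rw [h0', zero_sub, norm_neg] at h1
    linarith
  -- the function `ξ z - a z` is Lipschitz
  have hlip : ∀ z ∈ ball (0 : ℂ) (S₁ / 2), ∀ w ∈ ball (0 : ℂ) (S₁ / 2), ‖(ξ z - a * z) - (ξ w - a * w)‖ ≤ ‖a‖ / 10 * ‖z - w‖ := by
    intro z hz w hw
    have h1 : ∀ y ∈ ball (0 : ℂ) (S₁ / 2), HasDerivAt (fun z => ξ z - a * z) (deriv ξ y - a) y := by
      intro y hy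
      have h2 : HasDerivAt (fun z : ℂ => a * z) a y := by
        have := (hasDerivAt_id y).const_mul a
        rwa [mul_one] at this
      exact (hξa y hy).sub h2
    exact (convex_ball (0 : ℂ) (S₁ / 2)).norm_image_sub_le_of_norm_deriv_le (f := fun z => ξ z - a * z) (fun y hy => (h1 y hy).differentiableAt)
      (fun y hy => by rw [(h1 y hy).deriv]; exact hder y hy) hw hz
  have hexp : ∀ z ∈ ball (0 : ℂ) (S₁ / 2), ∀ w ∈ ball (0 : ℂ) (S₁ / 2), 9 / 10 * ‖a‖ * ‖z - w‖ ≤ ‖ξ z - ξ w‖ ∧ ‖ξ z - ξ w‖ ≤ 11 / 10 * ‖a‖ * ‖z - w‖ := by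
    intro z hz w hw
    have h1 := hlip z hz w hw
    have h2 : (ξ z - a * z) - (ξ w - a * w) = (ξ z - ξ w) - a * (z - w) := by ring
    rw [h2] at h1
    have h3 : ‖a * (z - w)‖ = ‖a‖ * ‖z - w‖ := norm_mul _ _
    have h4 : ‖a * (z - w)‖ ≤ ‖ξ z - ξ w‖ + ‖(ξ z - ξ w) - a * (z - w)‖ := by
      have := norm_sub_le (ξ z - ξ w) ((ξ z - ξ w) - a * (z - w))
      rwa [sub_sub_cancel] at this
    have h5 : ‖ξ z - ξ w‖ ≤ ‖(ξ z - ξ w) - a * (z - w)‖ + ‖a * (z - w)‖ := by
      have := norm_add_le ((ξ z - ξ w) - a * (z - w)) (a * (z - w))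
      rwa [sub_add_cancel] at this
    constructor
    · linarith
    · linarith
  refine ⟨hexp, ?_⟩
  have hinj : ∀ z ∈ ball (0 : ℂ) (S₁ / 2), ∀ w ∈ ball (0 : ℂ) (S₁ / 2), ξ z = ξ w → z = w := by
    intro z hz w hw hzw
    have h1 := (hexp z hz w hw).1
    rw [hzw, sub_self, norm_zero] at h1
    have h2 : ‖z - w‖ = 0 := by
      by_contra hcon
      have h3 : 0 < ‖z - w‖ := lt_of_le_of_ne (norm_nonneg _) (Ne.symm hcon)
      have : 0 < 9 / 10 * ‖a‖ * ‖z - w‖ := by positivity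
      linarith
    exact sub_eq_zero.1 (norm_eq_zero.1 h2)
  -- the inverse, by the contraction principle
  have hex : ∀ w ∈ ball (0 : ℂ) (‖a‖ * S₁ / 4), ∃ z : ℂ, z ∈ ball (0 : ℂ) (S₁ / 2) ∧ ξ z = w := by
    intro w hw
    rw [mem_ball_zero_iff] at hw
    set K : Set ℂ := closedBall 0 (2 * S₁ / 5) with hK
    have hKs : K ⊆ ball (0 : ℂ) (S₁ / 2) := closedBall_subset_ball (by linarith)
    have h0K : (0 : ℂ) ∈ K := mem_closedBall_self (by positivity)
    have hF0 : ‖ξ 0‖ ≤ ‖a‖ * S₁ / 100 := by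
      have h1 := hξξ 0 (mem_ball_self hS₁)
      rw [h0, sub_zero] at h1
      exact h1.trans hδ
    have hmaps : Set.MapsTo (fun z => (w - (ξ z - a * z)) / a) K K := by
      intro z hz
      have h1 := hlip z (hKs hz) 0 (hKs h0K)
      rw [mul_zero, sub_zero, sub_zero] at h1
      rw [hK, mem_closedBall_zero_iff] at hz
      rw [hK, mem_closedBall_zero_iff, norm_div, div_le_iff₀ ha']
      have h2 : ‖w - (ξ z - a * z)‖ ≤ ‖w‖ + ‖ξ z - a * z‖ := norm_sub_le _ _
      have h3 : ‖ξ z - a * z‖ ≤ ‖(ξ z - a * z) - ξ 0‖ + ‖ξ 0‖ := by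
        have := norm_add_le ((ξ z - a * z) - ξ 0) (ξ 0)
        rwa [sub_add_cancel] at this
      have h4 : ‖a‖ / 10 * ‖z‖ ≤ ‖a‖ / 10 * (2 * S₁ / 5) := mul_le_mul_of_nonneg_left hz (by positivity)
      have h5 : 0 < ‖a‖ * S₁ := by positivity
      nlinarith
    have hcon : ContractingWith (1 / 10 : NNReal) (hmaps.restrict (fun z => (w - (ξ z - a * z)) / a) K K) := by
      refine ⟨?_, ?_⟩
      · rw [← NNReal.coe_lt_coe]
        push_cast
        norm_num
      · refine LipschitzWith.of_dist_le_mul fun x y => ?_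
        rw [Subtype.dist_eq, Subtype.dist_eq, dist_eq_norm, dist_eq_norm]
        have h1 := hlip y.1 (hKs y.2) x.1 (hKs x.2)
        have h2 : ((hmaps.restrict (fun z => (w - (ξ z - a * z)) / a) K K) x : ℂ) - ((hmaps.restrict (fun z => (w - (ξ z - a * z)) / a) K K) y : ℂ) =
            ((ξ y.1 - a * y.1) - (ξ x.1 - a * x.1)) / a := by
          simp only [Set.MapsTo.val_restrict_apply]
          ring
        rw [h2, norm_div, div_le_iff₀ ha']
        push_cast
        rw [norm_sub_rev x.1 y.1]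
        linarith
    obtain ⟨z, hz, hfix, -⟩ := hcon.exists_fixedPoint' isClosed_closedBall.isComplete hmaps h0K (edist_ne_top _ _)
    have hfix' : (w - (ξ z - a * z)) / a = z := hfix
    refine ⟨z, hKs hz, ?_⟩
    rw [div_eq_iff ha] at hfix'
    linear_combination -hfix'
  choose! θ h1 h2 using hex
  have hinv : ∀ z ∈ ball (0 : ℂ) (S₁ / 2), ξ z ∈ ball (0 : ℂ) (‖a‖ * S₁ / 4) → θ (ξ z) = z := fun z hz hw => hinj _ (h1 _ hw) _ hz (h2 _ hw)
  have hcont : ContinuousOn θ (ball 0 (‖a‖ * S₁ / 4)) := by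
    refine (LipschitzOnWith.of_dist_le_mul (K := ⟨10 / 9 / ‖a‖, by positivity⟩) fun x hx y hy => ?_).continuousOn
    rw [dist_eq_norm, dist_eq_norm]
    have h3 := (hexp _ (h1 x hx) _ (h1 y hy)).1
    rw [h2 x hx, h2 y hy] at h3
    show ‖θ x - θ y‖ ≤ 10 / 9 / ‖a‖ * ‖x - y‖
    calc ‖θ x - θ y‖ = 10 / 9 / ‖a‖ * (9 / 10 * ‖a‖ * ‖θ x - θ y‖) := by field_simp
      _ ≤ _ := mul_le_mul_of_nonneg_left h3 (by positivity)
  refine ⟨θ, fun w hw => ?_, fun w hw => ⟨h1 w hw, h2 w hw⟩, hinv⟩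
  have h4 : ContinuousAt θ w := hcont.continuousAt (isOpen_ball.mem_nhds hw)
  have h5 : ∀ᶠ v in 𝓝 w, ξ (θ v) = v := by
    filter_upwards [isOpen_ball.mem_nhds hw] with v hv
    exact h2 v hv
  exact (HasDerivAt.of_local_left_inverse h4 (hξa _ (h1 w hw)) (hne _ (h1 w hw)) h5).differentiableAt.differentiableWithinAt

end Pool.Agent.GX

end

section

/-!
# G4 E Mnr: homogeneous linear systems with analytic coefficients

`minors`: the system `∑ s, q s * h i s x = 0` (`i : ι`, `M + 1` unknowns) has a solution `q ≠ 0` for every `x ∈ U`.  Then there is an analytic solution which is not identically `0`.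

Proof.  Let `r ≤ M` be the largest number such that some minor of size `r` is not identically `0` on `U`; `rows`, `cols` such a minor and `s₀ ∉ range cols`.  The solution is the vector of the cofactors of the first row in
the matrix with the columns `s₀, cols` and the rows `i, rows`; its determinant is identically `0`.
-/

set_option autoImplicit false

open Topology Filter

namespace Pool.Agent.G4.E

/-- the matrix with the given rows and columns -/
private def mt {E ι : Type*} {M : ℕ} (h : ι → Fin (M + 1) → E → ℂ) {r : ℕ} (rows : Fin r → ι) (cols : Fin r → Fin (M + 1)) (x : E) : Matrix (Fin r) (Fin r) ℂ :=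
  Matrix.of fun a b => h (rows a) (cols b) x

private theorem det_an {E : Type*} [NormedAddCommGroup E] [NormedSpace ℂ E] {U : Set E} {ι : Type*} {M : ℕ} {h : ι → Fin (M + 1) → E → ℂ}
    (hh : ∀ i s, AnalyticOnNhd ℂ (h i s) U) {r : ℕ} (rows : Fin r → ι) (cols : Fin r → Fin (M + 1)) : AnalyticOnNhd ℂ (fun x => (mt h rows cols x).det) U := by
  intro x hx
  simp only [Matrix.det_apply]
  refine Finset.analyticAt_fun_sum _ fun σ _ => ?_
  have h1 : AnalyticAt ℂ (fun x => ∏ i, mt h rows cols x (σ i) i) x := by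
    refine Finset.analyticAt_fun_prod _ fun i _ => ?_
    exact hh _ _ x hx
  have h2 : (fun x => Equiv.Perm.sign σ • ∏ i, mt h rows cols x (σ i) i) = fun x => ((Equiv.Perm.sign σ : ℤ) : ℂ) * ∏ i, mt h rows cols x (σ i) i := by
    funext x
    rw [Units.smul_def, zsmul_eq_mul]
  rw [h2]
  exact analyticAt_const.mul h1

theorem minors {E : Type*} [NormedAddCommGroup E] [NormedSpace ℂ E] {U : Set E} (hne : U.Nonempty) {ι : Type*} {M : ℕ} {h : ι → Fin (M + 1) → E → ℂ}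
    (hh : ∀ i s, AnalyticOnNhd ℂ (h i s) U) (hk : ∀ x ∈ U, ∃ q : Fin (M + 1) → ℂ, q ≠ 0 ∧ ∀ i, ∑ s, q s * h i s x = 0) :
    ∃ q : Fin (M + 1) → E → ℂ, (∀ s, AnalyticOnNhd ℂ (q s) U) ∧ (∀ x ∈ U, ∀ i, ∑ s, q s x * h i s x = 0) ∧ ∃ s, ∃ x ∈ U, q s x ≠ 0 := by
  classical
  set P : ℕ → Prop := fun r => ∃ (rows : Fin r → ι) (cols : Fin r → Fin (M + 1)), ∃ x ∈ U, (mt h rows cols x).det ≠ 0 with hP
  have h0 : P 0 := by
    obtain ⟨x, hx⟩ := hne
    exact ⟨Fin.elim0, Fin.elim0, x, hx, by simp⟩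
  have hM : ¬ P (M + 1) := by
    rintro ⟨rows, cols, x, hx, hdet⟩
    obtain ⟨q, hq, hqi⟩ := hk x hx
    -- `cols` is injective
    have hinj : Function.Injective cols := by
      intro a b hab
      by_contra hne
      apply hdet
      refine Matrix.det_zero_of_column_eq hne fun i => ?_
      show h (rows i) (cols a) x = h (rows i) (cols b) x
      rw [hab]
    have hbij : Function.Bijective cols := Finite.injective_iff_bijective.1 hinj
    apply hq
    have h1 : (mt h rows cols x).mulVec (fun b => q (cols b)) = 0 := by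
      funext a
      show ∑ b, h (rows a) (cols b) x * q (cols b) = 0
      rw [← hqi (rows a), ← hbij.sum_comp (fun s => q s * h (rows a) s x)]
      exact Finset.sum_congr rfl fun b _ => mul_comm _ _
    have h2 := Matrix.eq_zero_of_mulVec_eq_zero hdet h1
    funext s
    obtain ⟨b, rfl⟩ := hbij.2 s
    exact congrFun h2 b
  obtain ⟨r, hrM, hr, hr1⟩ : ∃ r, r ≤ M ∧ P r ∧ ¬ P (r + 1) := by
    by_contra hcon
    push Not at hcon
    apply hM
    have : ∀ n, n ≤ M + 1 → P n := by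
      intro n
      induction n with
      | zero => exact fun _ => h0
      | succ n ih => exact fun hn => hcon n (by omega) (ih (by omega))
    exact this _ le_rfl
  obtain ⟨rows, cols, x₁, hx₁, hdet⟩ := hr
  obtain ⟨s₀, hs₀⟩ : ∃ s₀ : Fin (M + 1), ∀ b, cols b ≠ s₀ := by
    by_contra hcon
    push Not at hcon
    have h1 : Function.Surjective cols := fun s => by
      obtain ⟨b, hb⟩ := hcon s
      exact ⟨b, hb⟩
    have h2 := Fintype.card_le_of_surjective cols h1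
    simp only [Fintype.card_fin] at h2
    omega
  set cols' : Fin (r + 1) → Fin (M + 1) := Fin.cons s₀ cols with hcols'
  -- the cofactors
  set c : Fin (r + 1) → E → ℂ := fun b x => (-1) ^ (b : ℕ) * (mt h rows (fun a => cols' (b.succAbove a)) x).det with hc
  have hca : ∀ b, AnalyticOnNhd ℂ (c b) U := fun b x hx => analyticAt_const.mul (det_an hh rows (fun a => cols' (b.succAbove a)) x hx)
  have hexp : ∀ x ∈ U, ∀ i, ∑ b, c b x * h i (cols' b) x = 0 := by
    intro x hx i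
    have h1 : (mt h (Fin.cons i rows : Fin (r + 1) → ι) cols' x).det = 0 := by
      by_contra hne
      exact hr1 ⟨_, _, x, hx, hne⟩
    rw [Matrix.det_succ_row_zero] at h1
    rw [← h1]
    refine Finset.sum_congr rfl fun b _ => ?_
    have h2 : (mt h (Fin.cons i rows : Fin (r + 1) → ι) cols' x).submatrix Fin.succ b.succAbove = mt h rows (fun a => cols' (b.succAbove a)) x := by
      ext a a'
      show h ((Fin.cons i rows : Fin (r + 1) → ι) a.succ) (cols' (b.succAbove a')) x = h (rows a) (cols' (b.succAbove a')) x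
      rw [Fin.cons_succ]
    rw [h2]
    show (-1) ^ (b : ℕ) * (mt h rows (fun a => cols' (b.succAbove a)) x).det * h i (cols' b) x = (-1) ^ (b : ℕ) * h ((Fin.cons i rows : Fin (r + 1) → ι) 0) (cols' b) x * _
    rw [Fin.cons_zero]
    ring
  refine ⟨fun s x => ∑ b ∈ Finset.univ.filter fun b => cols' b = s, c b x, fun s x hx => ?_, fun x hx i => ?_, s₀, x₁, hx₁, ?_⟩
  · exact Finset.analyticAt_fun_sum _ fun b _ => hca b x hx
  · rw [← hexp x hx i, ← Finset.sum_fiberwise_of_maps_to (s := Finset.univ) (t := Finset.univ) (g := cols') (fun _ _ => Finset.mem_univ _)]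
    refine Finset.sum_congr rfl fun s _ => ?_
    rw [Finset.sum_mul]
    refine Finset.sum_congr rfl fun b hb => ?_
    rw [(Finset.mem_filter.1 hb).2]
  · have h1 : (Finset.univ.filter fun b => cols' b = s₀) = {0} := by
      ext b
      simp only [Finset.mem_filter, Finset.mem_univ, true_and, Finset.mem_singleton]
      refine ⟨fun hb => ?_, fun hb => ?_⟩
      · refine Fin.cases (fun _ => rfl) (fun a ha => ?_) b hb
        rw [hcols', Fin.cons_succ] at ha
        exact absurd ha (hs₀ a)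
      · rw [hb, hcols', Fin.cons_zero]
    show ∑ b ∈ Finset.univ.filter fun b => cols' b = s₀, c b x₁ ≠ 0
    rw [h1, Finset.sum_singleton]
    show (-1) ^ ((0 : Fin (r + 1)) : ℕ) * (mt h rows (fun a => cols' ((0 : Fin (r + 1)).succAbove a)) x₁).det ≠ 0
    have h2 : (fun a => cols' ((0 : Fin (r + 1)).succAbove a)) = cols := by
      funext a
      rw [Fin.succAbove_zero, hcols', Fin.cons_succ]
    rw [h2]
    simpa using hdet

end Pool.Agent.G4.E

end

section

/-!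
# G4 Z Abs: limits of holomorphic functions off the hits

`V' ⊆ V` are sets, `V'` open, the discs of radius `r₂` around the points of `V'` are in `V`.  The functions `g n` are, for `𝒰`-many `n`, holomorphic near each point of `V` off the closed discrete set `Sg`; near
the points of `Sg` in `V` they agree on an annulus with a holomorphic function on the disc; on circles of radius between `r₁` and `r₂` around all points of `V'` they are bounded by `C exp (-c |z|²)`.
`abs_lim`: then they converge on the compact subsets of `V'` off `Sg` to a function `Q`, holomorphic on `V'`, with `‖Q z‖ exp ((c / 2) |z|²) ≤ |C| exp (c r₂²)`.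

Proof as in `G3/Z/Abs` (`abs_lb`: gluing at the hits in a disc, maximum principle; `ul_diff`; removable singularities).
-/

set_option autoImplicit false

open Topology Filter Metric

namespace Pool.Agent.G4

/-- gluing at finitely many discs -/
private theorem abs_glue {T : Finset ℂ} {ρ : ℂ → ℝ} (hd : ∀ s ∈ T, ∀ t ∈ T, s ≠ t → ρ s + ρ t ≤ dist s t) {J : ℂ → ℂ → ℂ} {G : ℂ → ℂ}
    (hJ : ∀ s ∈ T, DifferentiableOn ℂ (J s) (ball s (ρ s))) (hJG : ∀ s ∈ T, ∀ z, ρ s / 4 < dist z s → dist z s < ρ s → J s z = G z)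
    (hρ : ∀ s ∈ T, 0 < ρ s) {D : Set ℂ} (hG : ∀ z ∈ D, (∀ s ∈ T, ρ s ≤ dist z s) → DifferentiableAt ℂ G z) :
    ∃ W : ℂ → ℂ, (∀ z ∈ D, DifferentiableAt ℂ W z) ∧ ∀ z, (∀ s ∈ T, ρ s / 4 < dist z s) → W z = G z := by
  classical
  set W : ℂ → ℂ := fun z => if h : ∃ s ∈ T, dist z s < ρ s then J h.choose z else G z with hW
  have hWJ : ∀ s ∈ T, ∀ z ∈ ball s (ρ s), W z = J s z := by
    intro s hs z hz
    have h : ∃ s ∈ T, dist z s < ρ s := ⟨s, hs, hz⟩
    have h1 : h.choose = s := by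
      by_contra hne
      have h2 := hd _ h.choose_spec.1 s hs hne
      have h3 := h.choose_spec.2
      have h4 : dist z s < ρ s := hz
      have h5 := dist_triangle_left h.choose s z
      linarith
    simp only [hW]
    rw [dif_pos h, h1]
  have hWG : ∀ z, (∀ s ∈ T, ρ s / 4 < dist z s) → W z = G z := by
    intro z hz
    by_cases h : ∃ s ∈ T, dist z s < ρ s
    · obtain ⟨s, hs, hzs⟩ := h
      rw [hWJ s hs z hzs]
      exact hJG s hs z (hz s hs) hzs
    · simp only [hW]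
      rw [dif_neg h]
  refine ⟨W, ?_, hWG⟩
  intro z hz
  by_cases h : ∃ s ∈ T, dist z s < ρ s
  · obtain ⟨s, hs, hzs⟩ := h
    have h1 : DifferentiableAt ℂ (J s) z := (hJ s hs).differentiableAt (isOpen_ball.mem_nhds hzs)
    refine h1.congr_of_eventuallyEq ?_
    filter_upwards [isOpen_ball.mem_nhds hzs] with w hw
    exact hWJ s hs w hw
  · push Not at h
    refine (hG z hz h).congr_of_eventuallyEq ?_
    have h2 : ∀ᶠ w in 𝓝 z, ∀ s ∈ T, ρ s / 4 < dist w s := by
      rw [Filter.eventually_all_finset]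
      intro s hs
      have h3 : ρ s / 4 < dist z s := by linarith [h s hs, hρ s hs]
      exact (isOpen_lt continuous_const (continuous_id.dist continuous_const)).mem_nhds h3
    filter_upwards [h2] with w hw
    exact hWG w hw

private theorem abs_fin {Sg : Set ℂ} (hSd : ∀ z, ∀ᶠ w in 𝓝[≠] z, w ∉ Sg) {K : Set ℂ} (hK : IsCompact K) : (Sg ∩ K).Finite := by
  by_contra h
  obtain ⟨x, -, hx⟩ := Set.Infinite.exists_accPt_of_subset_isCompact h hK Set.inter_subset_right
  rw [accPt_iff_frequently] at hx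
  have h1 := hSd x
  rw [eventually_nhdsWithin_iff] at h1
  obtain ⟨w, ⟨hw1, hw2⟩, hw3⟩ := (hx.and_eventually h1).exists
  exact hw3 hw1 hw2.1

/-- the local bound -/
private theorem abs_lb (𝒰 : Ultrafilter ℕ) {V V' : Set ℂ} (hV'o : IsOpen V') {r₁ r₂ c C : ℝ} (hVV : ∀ z₀ ∈ V', closedBall z₀ r₂ ⊆ V) (hr₁ : 0 < r₁) (hc : 0 < c) {Sg : Set ℂ}
    (hSc : IsClosed Sg) (hSd : ∀ z, ∀ᶠ w in 𝓝[≠] z, w ∉ Sg) {g : ℕ → ℂ → ℂ}
    (h1 : ∀ z₀ ∈ V, z₀ ∉ Sg → ∃ r : ℝ, 0 < r ∧ ∀ᶠ n in (𝒰 : Filter ℕ), DifferentiableOn ℂ (g n) (ball z₀ r))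
    (h2 : ∀ z₀ ∈ V, z₀ ∈ Sg → ∀ ε : ℝ, 0 < ε → ∃ r : ℝ, 0 < r ∧ r < ε ∧
      ∀ᶠ n in (𝒰 : Filter ℕ), ∃ J : ℂ → ℂ, DifferentiableOn ℂ J (ball z₀ r) ∧ ∀ z, r / 4 < dist z z₀ → dist z z₀ < r → J z = g n z)
    (hb : ∀ z₀ ∈ V', ∃ r ∈ Set.Icc r₁ r₂, (∀ z, dist z z₀ = r → z ∉ Sg) ∧
      ∀ᶠ n in (𝒰 : Filter ℕ), ∀ z, dist z z₀ = r → ‖g n z‖ ≤ C * Real.exp (-c * ‖z‖ ^ 2)) {z₀ : ℂ} (hz₀ : z₀ ∈ V') (hz₀S : z₀ ∉ Sg) :
    ∃ δ : ℝ, 0 < δ ∧ ball z₀ δ ⊆ V' \ Sg ∧ ∀ᶠ n in (𝒰 : Filter ℕ), DifferentiableOn ℂ (g n) (ball z₀ δ) ∧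
      ∀ z ∈ ball z₀ δ, ‖g n z‖ ≤ |C| * Real.exp (-c * (max 0 (‖z₀‖ - r₂)) ^ 2) := by
  classical
  obtain ⟨r, ⟨hr1, hr2⟩, hcS, hcb⟩ := hb z₀ hz₀
  have hr0 : 0 < r := hr₁.trans_le hr1
  have hD : closedBall z₀ r ⊆ V := (closedBall_subset_closedBall hr2).trans (hVV z₀ hz₀)
  obtain ⟨r', hr', hdr'⟩ := h1 z₀ (hD (mem_closedBall_self hr0.le)) hz₀S
  have hopen : IsOpen (V' \ Sg) := hV'o.sdiff hSc
  obtain ⟨δ₀, hδ₀, hδ₀s⟩ := Metric.isOpen_iff.1 hopen z₀ ⟨hz₀, hz₀S⟩
  obtain ⟨δ, hδ, hδa, hδb, hδc⟩ : ∃ δ : ℝ, 0 < δ ∧ δ ≤ δ₀ / 2 ∧ δ ≤ r' ∧ δ ≤ r₁ :=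
    ⟨min (δ₀ / 2) (min r' r₁), lt_min (by linarith) (lt_min hr' hr₁), min_le_left _ _, (min_le_right _ _).trans (min_le_left _ _),
      (min_le_right _ _).trans (min_le_right _ _)⟩
  have hfin : (Sg ∩ closedBall z₀ r).Finite := abs_fin hSd (isCompact_closedBall z₀ r)
  obtain ⟨T, hTmem⟩ : ∃ T : Finset ℂ, ∀ s, s ∈ T ↔ s ∈ Sg ∧ s ∈ closedBall z₀ r := ⟨hfin.toFinset, fun s => by rw [hfin.mem_toFinset]; rfl⟩
  have hTr : ∀ s ∈ T, dist s z₀ < r := by
    intro s hs
    obtain ⟨hs1, hs2⟩ := (hTmem s).1 hs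
    rcases (mem_closedBall.1 hs2).lt_or_eq with h | h
    · exact h
    · exact absurd hs1 (hcS s h)
  have hTδ : ∀ s ∈ T, δ₀ ≤ dist s z₀ := by
    intro s hs
    by_contra hlt
    push Not at hlt
    exact (hδ₀s (mem_ball.2 hlt)).2 ((hTmem s).1 hs).1
  obtain ⟨ε, hε0, hεT, hεr, hεδ⟩ : ∃ ε : ℝ, 0 < ε ∧ (∀ s ∈ T, ∀ t ∈ T, s ≠ t → 2 * ε ≤ dist s t) ∧ (∀ s ∈ T, ε ≤ r - dist s z₀) ∧ ε ≤ δ := by
    have key : ∀ a : ℝ, 0 < a → ∀ᶠ ε in 𝓝[>] (0 : ℝ), ε ≤ a := fun a ha => by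
      filter_upwards [Ioo_mem_nhdsGT ha] with ε hε using hε.2.le
    have e1 : ∀ᶠ ε in 𝓝[>] (0 : ℝ), ∀ s ∈ T, ∀ t ∈ T, s ≠ t → 2 * ε ≤ dist s t := by
      rw [Filter.eventually_all_finset]
      intro s hs
      rw [Filter.eventually_all_finset]
      intro t ht
      by_cases hst : s = t
      · exact Eventually.of_forall fun ε h => absurd hst h
      · filter_upwards [key (dist s t / 2) (by have := dist_pos.2 hst; positivity)] with ε hε _
        linarith
    have e2 : ∀ᶠ ε in 𝓝[>] (0 : ℝ), ∀ s ∈ T, ε ≤ r - dist s z₀ := by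
      rw [Filter.eventually_all_finset]
      intro s hs
      exact key _ (by linarith [hTr s hs])
    have e4 : ∀ᶠ ε in 𝓝[>] (0 : ℝ), 0 < ε := self_mem_nhdsWithin
    obtain ⟨ε, hε1, hε2, hε3, hε4⟩ := (e1.and (e2.and ((key δ hδ).and e4))).exists
    exact ⟨ε, hε4, hε1, hε2, hε3⟩
  have h3 : ∀ s, ∃ ρ : ℝ, s ∈ T → 0 < ρ ∧ ρ < ε ∧ ∀ᶠ n in (𝒰 : Filter ℕ), ∃ J : ℂ → ℂ, DifferentiableOn ℂ J (ball s ρ) ∧
      ∀ z, ρ / 4 < dist z s → dist z s < ρ → J z = g n z := by
    intro s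
    by_cases hs : s ∈ T
    · obtain ⟨ρ, h3⟩ := h2 s (hD ((hTmem s).1 hs).2) ((hTmem s).1 hs).1 ε hε0
      exact ⟨ρ, fun _ => h3⟩
    · exact ⟨0, fun h => absurd h hs⟩
  choose ρ hρ using h3
  have hJ : ∀ᶠ n in (𝒰 : Filter ℕ), ∀ s ∈ T, ∃ J : ℂ → ℂ, DifferentiableOn ℂ J (ball s (ρ s)) ∧
      ∀ z, ρ s / 4 < dist z s → dist z s < ρ s → J z = g n z := by
    rw [Filter.eventually_all_finset]
    intro s hs
    exact (hρ s hs).2.2
  set Q : Set ℂ := closedBall z₀ r \ ⋃ s ∈ T, ball s (ρ s) with hQ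
  have hQc : IsCompact Q := (isCompact_closedBall z₀ r).diff (isOpen_biUnion fun s _ => isOpen_ball)
  have hQS : ∀ z ∈ Q, z ∉ Sg := by
    intro z hz hzS
    have h4 : z ∈ T := (hTmem z).2 ⟨hzS, hz.1⟩
    apply hz.2
    rw [Set.mem_iUnion₂]
    exact ⟨z, h4, mem_ball_self (hρ z h4).1⟩
  have hQd : ∀ᶠ n in (𝒰 : Filter ℕ), ∀ z ∈ Q, DifferentiableAt ℂ (g n) z := by
    refine hQc.induction_on (p := fun S => ∀ᶠ n in (𝒰 : Filter ℕ), ∀ z ∈ S, DifferentiableAt ℂ (g n) z) ?_ ?_ ?_ ?_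
    · exact Eventually.of_forall fun n z hz => absurd hz (Set.notMem_empty z)
    · intro s t hst ht
      filter_upwards [ht] with n hn z hz
      exact hn z (hst hz)
    · intro s t hs ht
      filter_upwards [hs, ht] with n hn1 hn2 z hz
      rcases hz with hz | hz
      · exact hn1 z hz
      · exact hn2 z hz
    · intro x hx
      obtain ⟨a, ha, h4⟩ := h1 x (hD hx.1) (hQS x hx)
      refine ⟨ball x a, mem_nhdsWithin_of_mem_nhds (ball_mem_nhds x ha), ?_⟩
      filter_upwards [h4] with n hn z hz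
      exact hn.differentiableAt (isOpen_ball.mem_nhds hz)
  refine ⟨δ, hδ, (ball_subset_ball (by linarith)).trans hδ₀s, ?_⟩
  filter_upwards [hJ, hQd, hcb, hdr'] with n hn1 hn2 hn3 hn4
  refine ⟨hn4.mono (ball_subset_ball hδb), ?_⟩
  intro z hz
  choose! J hJ1 using hn1
  obtain ⟨W, hW1, hW2⟩ := abs_glue (T := T) (ρ := ρ) (J := J) (G := g n) (D := closedBall z₀ r)
    (by
      intro s hs t ht hst
      have := hεT s hs t ht hst
      linarith [(hρ s hs).2.1, (hρ t ht).2.1])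
    (fun s hs => (hJ1 s hs).1) (fun s hs => (hJ1 s hs).2) (fun s hs => (hρ s hs).1)
    (by
      intro w hw hws
      refine hn2 w ⟨hw, ?_⟩
      rw [Set.mem_iUnion₂]
      rintro ⟨s, hs, hws'⟩
      exact absurd (hws s hs) (not_le.2 hws'))
  have hzr : z ∈ closedBall z₀ r := by
    rw [mem_ball] at hz
    rw [mem_closedBall]
    linarith
  have hWz : W z = g n z := by
    refine hW2 z fun s hs => ?_
    have h5 := hTδ s hs
    have h6 := dist_triangle_right s z₀ z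
    rw [mem_ball] at hz
    have h7 := (hρ s hs).2.1
    have h8 := (hρ s hs).1
    rw [dist_comm s z, dist_comm z₀ z] at h6
    linarith
  rw [← hWz]
  have hWd : DiffContOnCl ℂ W (ball z₀ r) := by
    refine ⟨fun w hw => (hW1 w (ball_subset_closedBall hw)).differentiableWithinAt, ?_⟩
    rw [closure_ball _ hr0.ne']
    exact fun w hw => (hW1 w hw).continuousAt.continuousWithinAt
  refine Complex.norm_le_of_forall_mem_frontier_norm_le isBounded_ball hWd ?_ (by rw [closure_ball _ hr0.ne']; exact hzr)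
  intro w hw
  rw [frontier_ball _ hr0.ne', mem_sphere] at hw
  have hWw : W w = g n w := by
    refine hW2 w fun s hs => ?_
    have h5 := hεr s hs
    have h6 := dist_triangle_right w z₀ s
    have h7 := (hρ s hs).2.1
    have h8 := (hρ s hs).1
    rw [hw, dist_comm z₀ s] at h6
    linarith
  rw [hWw]
  refine (hn3 w hw).trans ?_
  refine mul_le_mul (le_abs_self C) ?_ (Real.exp_pos _).le (abs_nonneg C)
  rw [Real.exp_le_exp]
  have h9 : max 0 (‖z₀‖ - r₂) ≤ ‖w‖ := by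
    refine max_le (norm_nonneg _) ?_
    have h10 := norm_sub_norm_le z₀ w
    rw [← dist_eq_norm, dist_comm, hw] at h10
    linarith
  have h11 : (max 0 (‖z₀‖ - r₂)) ^ 2 ≤ ‖w‖ ^ 2 := pow_le_pow_left₀ (le_max_left _ _) h9 2
  nlinarith

/-- the limit -/
theorem abs_lim (𝒰 : Ultrafilter ℕ) {V V' : Set ℂ} (hV'o : IsOpen V') {r₁ r₂ c C : ℝ} (hVV : ∀ z₀ ∈ V', closedBall z₀ r₂ ⊆ V) (hr₁ : 0 < r₁) (hr : r₁ ≤ r₂) (hc : 0 < c) {Sg : Set ℂ}
    (hSc : IsClosed Sg)
    (hSd : ∀ z, ∀ᶠ w in 𝓝[≠] z, w ∉ Sg) {g : ℕ → ℂ → ℂ}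
    (h1 : ∀ z₀ ∈ V, z₀ ∉ Sg → ∃ r : ℝ, 0 < r ∧ ∀ᶠ n in (𝒰 : Filter ℕ), DifferentiableOn ℂ (g n) (ball z₀ r))
    (h2 : ∀ z₀ ∈ V, z₀ ∈ Sg → ∀ ε : ℝ, 0 < ε → ∃ r : ℝ, 0 < r ∧ r < ε ∧
      ∀ᶠ n in (𝒰 : Filter ℕ), ∃ J : ℂ → ℂ, DifferentiableOn ℂ J (ball z₀ r) ∧ ∀ z, r / 4 < dist z z₀ → dist z z₀ < r → J z = g n z)
    (hb : ∀ z₀ ∈ V', ∃ r ∈ Set.Icc r₁ r₂, (∀ z, dist z z₀ = r → z ∉ Sg) ∧
      ∀ᶠ n in (𝒰 : Filter ℕ), ∀ z, dist z z₀ = r → ‖g n z‖ ≤ C * Real.exp (-c * ‖z‖ ^ 2)) :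
    ∃ Q : ℂ → ℂ, (∀ z ∈ V', DifferentiableAt ℂ Q z) ∧ (∀ z ∈ V', ‖Q z‖ * Real.exp (c / 2 * ‖z‖ ^ 2) ≤ |C| * Real.exp (c * r₂ ^ 2)) ∧
      ∀ K ⊆ V' \ Sg, IsCompact K → ∀ ε : ℝ, 0 < ε → ∀ᶠ n in (𝒰 : Filter ℕ), ∀ z ∈ K, ‖g n z - Q z‖ < ε := by
  classical
  have hVo : IsOpen (V' \ Sg) := hV'o.sdiff hSc
  have hlim : ∀ z₀, ∃ (δ : ℝ) (K : ℂ → ℂ), z₀ ∈ V' \ Sg → 0 < δ ∧ ball z₀ δ ⊆ V' \ Sg ∧ DifferentiableOn ℂ K (ball z₀ δ) ∧
      (∀ z ∈ ball z₀ δ, ‖K z‖ ≤ |C| * Real.exp (-c * (max 0 (‖z₀‖ - r₂)) ^ 2)) ∧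
      ∀ z ∈ ball z₀ δ, ∀ w : ℕ → ℂ, Tendsto w (𝒰 : Filter ℕ) (𝓝 z) → Tendsto (fun n => g n (w n)) (𝒰 : Filter ℕ) (𝓝 (K z)) := by
    intro z₀
    by_cases hz : z₀ ∈ V' \ Sg
    · obtain ⟨δ, hδ, hδs, h⟩ := abs_lb 𝒰 hV'o hVV hr₁ hc hSc hSd h1 h2 hb hz.1 hz.2
      obtain ⟨K, hK1, hK2, hK3⟩ := Pool.Agent.G3.A.ul_diff h
      exact ⟨δ, K, fun _ => ⟨hδ, hδs, hK1, hK2, hK3⟩⟩
    · exact ⟨0, fun _ => 0, fun h => absurd h hz⟩
  choose δ K hK using hlim
  obtain ⟨P, hP⟩ : ∃ P : ℂ → ℂ, ∀ z, P z = K z z := ⟨fun z => K z z, fun z => rfl⟩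
  have hPt : ∀ z ∈ V' \ Sg, ∀ w : ℕ → ℂ, Tendsto w (𝒰 : Filter ℕ) (𝓝 z) → Tendsto (fun n => g n (w n)) (𝒰 : Filter ℕ) (𝓝 (P z)) := by
    intro z hz w hw
    rw [hP]
    exact (hK z hz).2.2.2.2 z (mem_ball_self (hK z hz).1) w hw
  have hPK : ∀ z₀ ∈ V' \ Sg, ∀ z ∈ ball z₀ (δ z₀), P z = K z₀ z := by
    intro z₀ hz₀ z hz
    have hzV := (hK z₀ hz₀).2.1 hz
    exact tendsto_nhds_unique (hPt z hzV (fun _ => z) tendsto_const_nhds) ((hK z₀ hz₀).2.2.2.2 z hz (fun _ => z) tendsto_const_nhds)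
  have hPd : ∀ z ∈ V' \ Sg, DifferentiableAt ℂ P z := by
    intro z₀ hz₀
    have h3 : DifferentiableAt ℂ (K z₀) z₀ := (hK z₀ hz₀).2.2.1.differentiableAt (ball_mem_nhds _ (hK z₀ hz₀).1)
    refine h3.congr_of_eventuallyEq ?_
    filter_upwards [ball_mem_nhds z₀ (hK z₀ hz₀).1] with z hz
    exact hPK z₀ hz₀ z hz
  have hPb : ∀ z ∈ V' \ Sg, ‖P z‖ ≤ |C| * Real.exp (-c * (max 0 (‖z‖ - r₂)) ^ 2) := by
    intro z hz
    rw [hP]
    exact (hK z hz).2.2.2.1 z (mem_ball_self (hK z hz).1)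
  have hPb1 : ∀ z ∈ V' \ Sg, ‖P z‖ ≤ |C| := by
    intro z hz
    refine (hPb z hz).trans (mul_le_of_le_one_right (abs_nonneg C) ?_)
    rw [Real.exp_le_one_iff]
    nlinarith [sq_nonneg (max 0 (‖z‖ - r₂))]
  -- extension
  obtain ⟨Q, hQS, hQP⟩ : ∃ Q : ℂ → ℂ, (∀ z ∈ Sg, Q z = limUnder (𝓝[≠] z) P) ∧ ∀ z, z ∉ Sg → Q z = P z :=
    ⟨fun z => if z ∈ Sg then limUnder (𝓝[≠] z) P else P z, fun z hz => if_pos hz, fun z hz => if_neg hz⟩
  have hQd : ∀ z ∈ V', DifferentiableAt ℂ Q z := by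
    intro z hz
    by_cases hzS : z ∈ Sg
    · have h3 : ∀ᶠ w in 𝓝[≠] z, w ∉ Sg := hSd z
      rw [eventually_nhdsWithin_iff] at h3
      obtain ⟨a, ha, h4⟩ := Metric.eventually_nhds_iff_ball.1 (h3.and (hV'o.mem_nhds hz))
      have h5 : DifferentiableOn ℂ (Function.update P z (limUnder (𝓝[≠] z) P)) (ball z a) := by
        refine Complex.differentiableOn_update_limUnder_of_bddAbove (ball_mem_nhds z ha) ?_ ?_
        · intro w hw
          exact (hPd w ⟨(h4 w hw.1).2, (h4 w hw.1).1 hw.2⟩).differentiableWithinAt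
        · refine ⟨|C|, ?_⟩
          rintro _ ⟨w, hw, rfl⟩
          exact hPb1 w ⟨(h4 w hw.1).2, (h4 w hw.1).1 hw.2⟩
      refine (h5.differentiableAt (ball_mem_nhds z ha)).congr_of_eventuallyEq ?_
      filter_upwards [ball_mem_nhds z ha] with w hw
      by_cases hwz : w = z
      · rw [hwz, Function.update_self]
        exact hQS z hzS
      · rw [Function.update_of_ne hwz]
        exact hQP w ((h4 w hw).1 hwz)
    · refine (hPd z ⟨hz, hzS⟩).congr_of_eventuallyEq ?_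
      filter_upwards [hSc.isOpen_compl.mem_nhds hzS] with w hw
      exact hQP w hw
  have hexp : ∀ z : ℂ, Real.exp (-c * (max 0 (‖z‖ - r₂)) ^ 2) * Real.exp (c / 2 * ‖z‖ ^ 2) ≤ Real.exp (c * r₂ ^ 2) := by
    intro z
    rw [← Real.exp_add, Real.exp_le_exp]
    rcases le_total 0 (‖z‖ - r₂) with h | h
    · rw [max_eq_right h]
      nlinarith [mul_nonneg hc.le (sq_nonneg (‖z‖ - 2 * r₂))]
    · rw [max_eq_left h]
      have h3 := norm_nonneg z
      have h4 : ‖z‖ ^ 2 ≤ r₂ ^ 2 := pow_le_pow_left₀ h3 (by linarith) 2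
      nlinarith [sq_nonneg r₂]
  have hPe : ∀ z ∈ V' \ Sg, ‖P z‖ * Real.exp (c / 2 * ‖z‖ ^ 2) ≤ |C| * Real.exp (c * r₂ ^ 2) := by
    intro z hz
    calc ‖P z‖ * Real.exp (c / 2 * ‖z‖ ^ 2) ≤ |C| * Real.exp (-c * (max 0 (‖z‖ - r₂)) ^ 2) * Real.exp (c / 2 * ‖z‖ ^ 2) :=
          mul_le_mul_of_nonneg_right (hPb z hz) (Real.exp_pos _).le
      _ = |C| * (Real.exp (-c * (max 0 (‖z‖ - r₂)) ^ 2) * Real.exp (c / 2 * ‖z‖ ^ 2)) := by ring
      _ ≤ |C| * Real.exp (c * r₂ ^ 2) := mul_le_mul_of_nonneg_left (hexp z) (abs_nonneg C)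
  have hQe : ∀ z ∈ V', ‖Q z‖ * Real.exp (c / 2 * ‖z‖ ^ 2) ≤ |C| * Real.exp (c * r₂ ^ 2) := by
    intro z hz
    by_cases hzS : z ∈ Sg
    · have hcont : ContinuousAt (fun w : ℂ => ‖Q w‖ * Real.exp (c / 2 * ‖w‖ ^ 2)) z := by
        refine (hQd z hz).continuousAt.norm.mul ?_
        fun_prop
      have ht : Tendsto (fun w : ℂ => ‖Q w‖ * Real.exp (c / 2 * ‖w‖ ^ 2)) (𝓝[≠] z) (𝓝 (‖Q z‖ * Real.exp (c / 2 * ‖z‖ ^ 2))) :=
        hcont.tendsto.mono_left nhdsWithin_le_nhds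
      refine le_of_tendsto ht ?_
      filter_upwards [hSd z, mem_nhdsWithin_of_mem_nhds (hV'o.mem_nhds hz)] with w hw1 hw2
      rw [hQP w hw1]
      exact hPe w ⟨hw2, hw1⟩
    · rw [hQP z hzS]
      exact hPe z ⟨hz, hzS⟩
  refine ⟨Q, hQd, hQe, ?_⟩
  -- conclusion
  intro K' hK' hK'c ε hε
  by_contra hcon
  rw [← Ultrafilter.eventually_not] at hcon
  have h3 : ∀ n, ∃ z, (¬ ∀ z ∈ K', ‖g n z - Q z‖ < ε) → z ∈ K' ∧ ε ≤ ‖g n z - Q z‖ := by
    intro n
    by_cases h : ∀ z ∈ K', ‖g n z - Q z‖ < ε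
    · exact ⟨0, fun h' => absurd h h'⟩
    · push Not at h
      obtain ⟨z, hz1, hz2⟩ := h
      exact ⟨z, fun _ => ⟨hz1, hz2⟩⟩
  choose w hw using h3
  obtain ⟨z, hzK, hz⟩ := hK'c.ultrafilter_le_nhds (𝒰.map w) (by
    rw [Ultrafilter.coe_map, le_principal_iff, mem_map]
    filter_upwards [hcon] with n hn
    exact (hw n hn).1)
  have h5 := hPt z (hK' hzK) w hz
  have h6 : Tendsto (fun n => Q (w n)) (𝒰 : Filter ℕ) (𝓝 (P z)) := by
    rw [← hQP z (hK' hzK).2]
    exact (hQd z (hK' hzK).1).continuousAt.tendsto.comp hz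
  have h7 := (h5.sub h6).norm
  rw [sub_self, norm_zero] at h7
  obtain ⟨n, h9, h10⟩ := ((h7.eventually (gt_mem_nhds hε)).and hcon).exists
  exact absurd h9 (not_lt.2 (hw n h10).2)

end Pool.Agent.G4

end

section

/-!
# EF Alg: doubly periodic entire curves of order two on a surface are algebraically degenerate
-/

set_option autoImplicit false

open MvPolynomial

noncomputable section

namespace Pool.Agent.H17EF

open Metric Filter Topology

variable {N : ℕ}

/-- the quotient of two lifts is holomorphic -/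
theorem exists_quot {F G : ℂ → Fin (N + 1) → ℂ} {z₀ : ℂ} (hF : AnalyticAt ℂ F z₀) (hG : AnalyticAt ℂ G z₀) (h0 : F z₀ ≠ 0)
    (h : ∀ᶠ z in 𝓝 z₀, G z = 0 ∨ ∃ c : ℂ, c ≠ 0 ∧ F z = c • G z) :
    ∃ u : ℂ → ℂ, AnalyticAt ℂ u z₀ ∧ ∀ᶠ z in 𝓝 z₀, G z = u z • F z := by
  obtain ⟨i, hi⟩ : ∃ i, F z₀ i ≠ 0 := by
    by_contra hcon
    push Not at hcon
    exact h0 (_root_.funext hcon)
  have hFi : AnalyticAt ℂ (fun z => F z i) z₀ :=
    ((ContinuousLinearMap.proj (R := ℂ) (φ := fun _ : Fin (N + 1) => ℂ) i).analyticAt (F z₀)).comp hF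
  have hGi : AnalyticAt ℂ (fun z => G z i) z₀ :=
    ((ContinuousLinearMap.proj (R := ℂ) (φ := fun _ : Fin (N + 1) => ℂ) i).analyticAt (G z₀)).comp hG
  refine ⟨fun z => G z i / F z i, hGi.div hFi hi, ?_⟩
  filter_upwards [h, hFi.continuousAt.eventually_ne hi] with z hz hz'
  rcases hz with hz | ⟨c, hc, hz⟩
  · rw [hz]
    simp
  · have h1 : F z i = c * G z i := by rw [hz]; simp
    have h2 : G z i ≠ 0 := by
      intro h3
      rw [h3, mul_zero] at h1
      exact hz' h1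
    rw [hz]
    simp only [Pi.smul_apply, smul_eq_mul, smul_smul]
    have h3 : G z i / (c * G z i) * c = 1 := by field_simp
    rw [h3, one_smul]

end Pool.Agent.H17EF

end
end

section

/-!
# G3 C ZCount: the number of zeros of a linear form on a curve

Jensen's inequality: if the circle mean of `log ‖h‖` with centre `z₁` and radius `R` is at most `log ‖h z₁‖ + n log 2` then the entire function `h` has at most `n` zeros
in `closedBall z₁ (R / 2)`, in the form `h = q g` with a polynomial `q` of degree at most `n` and `g` without zeros there.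
-/

set_option autoImplicit false

open Topology Filter Metric Set

namespace Pool.Agent.G3.C

open Pool.Agent.H36.BP (EN wd)

variable {N : ℕ}

private theorem zc_int {h : ℂ → ℂ} (hh : Differentiable ℂ h) (z₁ : ℂ) (R : ℝ) : CircleIntegrable (fun z => Real.log ‖h z‖) z₁ R :=
  MeromorphicOn.circleIntegrable_log_norm fun z _ => (hh.analyticAt z).meromorphicAt

/-- Jensen: the excess is nonnegative -/
private theorem zc_nonneg {h : ℂ → ℂ} (hh : Differentiable ℂ h) {z₁ : ℂ} (h0 : h z₁ ≠ 0) {R : ℝ} (hR : 0 < R) :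
    Real.log ‖h z₁‖ ≤ Real.circleAverage (fun z => Real.log ‖h z‖) z₁ R := by
  have hana : AnalyticOnNhd ℂ h (closedBall z₁ |R|) := fun z _ => hh.analyticAt z
  rw [AnalyticOnNhd.circleAverage_log_norm hR.ne' hana h0]
  have h1 : 0 ≤ ∑ᶠ u, (MeromorphicOn.divisor h (closedBall z₁ |R|) u : ℝ) * Real.log (R * ‖z₁ - u‖⁻¹) := by
    apply finsum_nonneg
    intro u
    by_cases hu : u ∈ closedBall z₁ |R|
    · apply mul_nonneg
      · have := MeromorphicOn.AnalyticOnNhd.divisor_nonneg hana u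
        exact_mod_cast this
      · by_cases huc : u = z₁
        · simp [huc]
        · apply Real.log_nonneg
          have h2 : 0 < ‖z₁ - u‖ := by
            rw [norm_pos_iff, sub_ne_zero]
            exact fun h => huc h.symm
          have h3 : ‖z₁ - u‖ ≤ R := by
            rw [abs_of_pos hR, mem_closedBall, dist_comm, dist_eq_norm] at hu
            exact hu
          rw [← div_eq_mul_inv, one_le_div h2]
          exact h3
    · simp [hu]
  linarith

/-- one zero -/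
private theorem zc_step {h₁ : ℂ → ℂ} (hh : Differentiable ℂ h₁) {z₁ : ℂ} (h0 : h₁ z₁ ≠ 0) {R : ℝ} (hR : 0 < R) {a : ℂ} (ha : a ∈ closedBall z₁ (R / 2)) (haz : z₁ ≠ a) :
    Real.circleAverage (fun z => Real.log ‖h₁ z‖) z₁ R - Real.log ‖h₁ z₁‖ + Real.log 2 ≤
      Real.circleAverage (fun z => Real.log ‖(z - a) * h₁ z‖) z₁ R - Real.log ‖(z₁ - a) * h₁ z₁‖ := by
  have hana : AnalyticOnNhd ℂ h₁ univ := fun z _ => hh.analyticAt z
  have hcod : ∀ᶠ z in codiscreteWithin (univ : Set ℂ), h₁ z ≠ 0 := by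
    rcases hana.eqOn_zero_or_eventually_ne_zero_of_preconnected isPreconnected_univ with h | h
    · exact absurd (h (mem_univ z₁)) h0
    · exact h
  have hcod' : ∀ᶠ z in codiscreteWithin (univ : Set ℂ), z - a ≠ 0 := by
    have h2 : AnalyticOnNhd ℂ (fun z : ℂ => z - a) univ := fun z _ => analyticAt_id.sub analyticAt_const
    rcases h2.eqOn_zero_or_eventually_ne_zero_of_preconnected isPreconnected_univ with h | h
    · exact absurd (h (mem_univ z₁)) (sub_ne_zero.2 haz)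
    · exact h
  have e : Real.circleAverage (fun z => Real.log ‖(z - a) * h₁ z‖) z₁ R = Real.circleAverage (fun z => Real.log ‖z - a‖ + Real.log ‖h₁ z‖) z₁ R := by
    refine Real.circleAverage_congr_codiscreteWithin ?_ hR.ne'
    have h3 := (hcod.and hcod').filter_mono (codiscreteWithin_mono (subset_univ (sphere z₁ |R|)))
    filter_upwards [h3] with z hz
    rw [norm_mul, Real.log_mul (norm_ne_zero_iff.2 hz.2) (norm_ne_zero_iff.2 hz.1)]
  have ha' : a ∈ closedBall z₁ |R| := by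
    rw [abs_of_pos hR]
    exact closedBall_subset_closedBall (by linarith) ha
  rw [e, Real.circleAverage_fun_add (zc_int (by fun_prop) z₁ R) (zc_int hh z₁ R), circleAverage_log_norm_sub_const_of_mem_closedBall ha', norm_mul,
    Real.log_mul (norm_ne_zero_iff.2 (sub_ne_zero.2 haz)) (norm_ne_zero_iff.2 h0)]
  have h4 : Real.log ‖z₁ - a‖ ≤ Real.log (R / 2) := by
    refine Real.log_le_log (norm_pos_iff.2 (sub_ne_zero.2 haz)) ?_
    rw [mem_closedBall, dist_comm, dist_eq_norm] at ha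
    exact ha
  rw [Real.log_div hR.ne' two_ne_zero] at h4
  linarith

/-- **the zero count** -/
theorem zcount {z₁ zc : ℂ} {R r : ℝ} (hR : 0 < R) (hsub : closedBall zc r ⊆ closedBall z₁ (R / 2)) (n : ℕ) : ∀ {h : ℂ → ℂ}, Differentiable ℂ h → h z₁ ≠ 0 →
    Real.circleAverage (fun z => Real.log ‖h z‖) z₁ R < Real.log ‖h z₁‖ + (n + 1) * Real.log 2 →
    ∃ q : Polynomial ℂ, q ≠ 0 ∧ q.natDegree ≤ n ∧ ∃ g : ℂ → ℂ, Differentiable ℂ g ∧ (∀ z ∈ closedBall zc r, g z ≠ 0) ∧ ∀ z, h z = q.eval z * g z := by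
  -- dividing by a zero
  have hdiv : ∀ {h : ℂ → ℂ}, Differentiable ℂ h → h z₁ ≠ 0 → ∀ a ∈ closedBall zc r, h a = 0 → ∃ h₁ : ℂ → ℂ, Differentiable ℂ h₁ ∧ h₁ z₁ ≠ 0 ∧
      (∀ z, h z = (z - a) * h₁ z) ∧ Real.circleAverage (fun z => Real.log ‖h₁ z‖) z₁ R - Real.log ‖h₁ z₁‖ + Real.log 2 ≤
        Real.circleAverage (fun z => Real.log ‖h z‖) z₁ R - Real.log ‖h z₁‖ := by
    intro h hh h0 a ha h1
    have hd : Differentiable ℂ (dslope h a) := by
      rw [← differentiableOn_univ, Complex.differentiableOn_dslope Filter.univ_mem]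
      exact hh.differentiableOn
    have he : ∀ z, h z = (z - a) * dslope h a z := by
      intro z
      have h2 := sub_smul_dslope h a z
      rw [smul_eq_mul, h1, sub_zero] at h2
      exact h2.symm
    have haz : z₁ ≠ a := by
      rintro rfl
      exact h0 h1
    have h3 : dslope h a z₁ ≠ 0 := by
      intro h4
      apply h0
      rw [he z₁, h4, mul_zero]
    refine ⟨dslope h a, hd, h3, he, ?_⟩
    have h5 := zc_step hd h3 hR (hsub ha) haz
    have e1 : (fun z => Real.log ‖h z‖) = fun z => Real.log ‖(z - a) * dslope h a z‖ := by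
      funext z
      rw [← he z]
    rw [e1, he z₁]
    exact h5
  induction n with
  | zero =>
    intro h hh h0 hE
    refine ⟨1, one_ne_zero, by simp, h, hh, ?_, fun z => by simp⟩
    intro a ha h1
    obtain ⟨h₁, hd, h3, -, h4⟩ := hdiv hh h0 a ha h1
    have h5 := zc_nonneg hd h3 hR
    push_cast at hE
    linarith
  | succ n ih =>
    intro h hh h0 hE
    by_cases hz : ∀ z ∈ closedBall zc r, h z ≠ 0
    · exact ⟨1, one_ne_zero, by simp, h, hh, hz, fun z => by simp⟩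
    push Not at hz
    obtain ⟨a, ha, h1⟩ := hz
    obtain ⟨h₁, hd, h3, he, h4⟩ := hdiv hh h0 a ha h1
    obtain ⟨q, hq0, hqn, g, hg, hg0, hqg⟩ := ih hd h3 (by
      push_cast at hE
      linarith)
    refine ⟨(Polynomial.X - Polynomial.C a) * q, mul_ne_zero (Polynomial.X_sub_C_ne_zero a) hq0, ?_, g, hg, hg0, fun z => ?_⟩
    · refine Polynomial.natDegree_mul_le.trans ?_
      rw [Polynomial.natDegree_X_sub_C]
      omega
    · rw [he z, hqg z]
      simp only [Polynomial.eval_mul, Polynomial.eval_sub, Polynomial.eval_X, Polynomial.eval_C]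
      ring

/-- the zero count for a linear form on a curve, from the bound of the mean of `log ‖F‖` -/
theorem vcount {z₁ zc : ℂ} {R r C c : ℝ} (hR : 0 < R) (hsub : closedBall zc r ⊆ closedBall z₁ (R / 2)) (hc : 0 < c) :
    ∃ M : ℕ, ∀ (F : ℂ → EN N) (v : EN N), Differentiable ℂ F → (∀ z, F z ≠ 0) → ‖v‖ ≤ 1 →
      Real.circleAverage (fun z => Real.log ‖F z‖) z₁ R ≤ Real.log ‖F z₁‖ + C → c * ‖F z₁‖ ≤ ‖(inner ℂ v (F z₁) : ℂ)‖ →
      ∃ q : Polynomial ℂ, q ≠ 0 ∧ q.natDegree ≤ M ∧ ∃ g : ℂ → ℂ, Differentiable ℂ g ∧ (∀ z ∈ closedBall zc r, g z ≠ 0) ∧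
        ∀ z, inner ℂ v (F z) = q.eval z * g z := by
  have hl2 : 0 < Real.log 2 := Real.log_pos one_lt_two
  refine ⟨⌈(C - Real.log c) / Real.log 2⌉₊, fun F v hF hF0 hv hT hvF => ?_⟩
  have hF1 : 0 < ‖F z₁‖ := norm_pos_iff.2 (hF0 z₁)
  have hh : Differentiable ℂ fun z => (inner ℂ v (F z) : ℂ) := (innerSL ℂ v).differentiable.comp hF
  have h0 : (inner ℂ v (F z₁) : ℂ) ≠ 0 := by
    rw [← norm_pos_iff]
    exact lt_of_lt_of_le (by positivity) hvF
  refine zcount hR hsub _ (h := fun z => (inner ℂ v (F z) : ℂ)) hh h0 ?_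
  have hFi : CircleIntegrable (fun z => Real.log ‖F z‖) z₁ R := by
    refine ContinuousOn.circleIntegrable hR.le ?_
    exact (Real.continuousOn_log.comp hF.continuous.norm.continuousOn fun z _ => (norm_pos_iff.2 (hF0 z)).ne')
  have h1 : Real.circleAverage (fun z => Real.log ‖(inner ℂ v (F z) : ℂ)‖) z₁ R ≤ Real.circleAverage (fun z => Real.log ‖F z‖) z₁ R := by
    classical
    have hcod : ∀ᶠ z in codiscreteWithin (sphere z₁ |R|), (inner ℂ v (F z) : ℂ) ≠ 0 := by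
      have h2 : AnalyticOnNhd ℂ (fun z => (inner ℂ v (F z) : ℂ)) univ := fun z _ => hh.analyticAt z
      rcases h2.eqOn_zero_or_eventually_ne_zero_of_preconnected isPreconnected_univ with h | h
      · exact absurd (h (mem_univ z₁)) h0
      · exact h.filter_mono (codiscreteWithin_mono (subset_univ _))
    obtain ⟨f₁, hf₁⟩ : ∃ f₁ : ℂ → ℝ, ∀ z, f₁ z = if (inner ℂ v (F z) : ℂ) = 0 then Real.log ‖F z‖ else Real.log ‖(inner ℂ v (F z) : ℂ)‖ :=
      ⟨fun z => if (inner ℂ v (F z) : ℂ) = 0 then Real.log ‖F z‖ else Real.log ‖(inner ℂ v (F z) : ℂ)‖, fun _ => rfl⟩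
    have he : (fun z => Real.log ‖(inner ℂ v (F z) : ℂ)‖) =ᶠ[codiscreteWithin (sphere z₁ |R|)] f₁ := by
      filter_upwards [hcod] with z hz
      rw [hf₁, if_neg hz]
    rw [Real.circleAverage_congr_codiscreteWithin he hR.ne']
    refine Real.circleAverage_mono ((zc_int hh z₁ R).congr_codiscreteWithin he) hFi fun z _ => ?_
    rw [hf₁]
    split_ifs with h
    · exact le_rfl
    · refine Real.log_le_log (norm_pos_iff.2 h) ((norm_inner_le_norm v (F z)).trans ?_)
      calc ‖v‖ * ‖F z‖ ≤ 1 * ‖F z‖ := by gcongr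
        _ = ‖F z‖ := one_mul _
  have h2 : Real.log c + Real.log ‖F z₁‖ ≤ Real.log ‖(inner ℂ v (F z₁) : ℂ)‖ := by
    rw [← Real.log_mul hc.ne' hF1.ne']
    exact Real.log_le_log (by positivity) hvF
  have h3 : (C - Real.log c) / Real.log 2 ≤ ⌈(C - Real.log c) / Real.log 2⌉₊ := Nat.le_ceil _
  rw [div_le_iff₀ hl2] at h3
  nlinarith

end Pool.Agent.G3.C

end

section

/-!
# G3 PerExt: holomorphic functions with period `2 π i` and polynomial growth on a half plane extend to the puncture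
-/

set_option autoImplicit false

open Set Metric Filter Topology Real

namespace Pool.Agent.H56.G3

variable {E : Type*} [NormedAddCommGroup E] [NormedSpace ℂ E] [CompleteSpace E]

private lemma tend_log (K : ℝ) (p : ℕ) : Tendsto (fun z : ℂ => ‖z‖ * (K * (1 + |Real.log ‖z‖|) ^ p)) (𝓝[≠] 0) (𝓝 0) := by
  have hs : Tendsto (fun z : ℂ => - Real.log ‖z‖) (𝓝[≠] 0) atTop := by
    have h1 : Tendsto (fun z : ℂ => ‖z‖) (𝓝[≠] 0) (𝓝[>] 0) := by
      apply tendsto_nhdsWithin_of_tendsto_nhds_of_eventually_within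
      · have : Tendsto (fun z : ℂ => ‖z‖) (𝓝 0) (𝓝 ‖(0 : ℂ)‖) := continuous_norm.tendsto 0
        rw [norm_zero] at this
        exact this.mono_left nhdsWithin_le_nhds
      · filter_upwards [self_mem_nhdsWithin] with z hz
        exact norm_pos_iff.2 hz
    exact tendsto_neg_atBot_atTop.comp (Real.tendsto_log_nhdsGT_zero.comp h1)
  have hb : Tendsto (fun s : ℝ => (|K| * 2 ^ p) * (s ^ p * Real.exp (-s))) atTop (𝓝 0) := by
    have := (tendsto_pow_mul_exp_neg_atTop_nhds_zero p).const_mul (|K| * 2 ^ p)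
    rwa [mul_zero] at this
  have hc := hb.comp hs
  refine squeeze_zero_norm' ?_ hc
  filter_upwards [hs.eventually_ge_atTop 1, self_mem_nhdsWithin] with z hz hz0
  have hz0' : 0 < ‖z‖ := norm_pos_iff.2 hz0
  have hexp : Real.exp (-(-Real.log ‖z‖)) = ‖z‖ := by rw [neg_neg, Real.exp_log hz0']
  simp only [Function.comp]
  rw [hexp, norm_mul, norm_mul, norm_norm, Real.norm_eq_abs, norm_pow, Real.norm_eq_abs]
  have habs : |Real.log ‖z‖| = -Real.log ‖z‖ := abs_of_nonpos (by linarith)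
  rw [habs]
  have h1 : |1 + -Real.log ‖z‖| ≤ 2 * (-Real.log ‖z‖) := by
    rw [abs_of_nonneg (by linarith)]; linarith
  have h2 : |1 + -Real.log ‖z‖| ^ p ≤ (2 * (-Real.log ‖z‖)) ^ p := pow_le_pow_left₀ (abs_nonneg _) h1 p
  rw [mul_pow] at h2
  calc ‖z‖ * (|K| * |1 + -Real.log ‖z‖| ^ p) ≤ ‖z‖ * (|K| * (2 ^ p * (-Real.log ‖z‖) ^ p)) := by
        gcongr
    _ = |K| * 2 ^ p * ((-Real.log ‖z‖) ^ p * ‖z‖) := by ring

/-- A holomorphic function on a half plane with period `2 π i` and polynomial growth is a holomorphic function of `exp w`. -/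
theorem per_ext {g : ℂ → E} {T K : ℝ} {p : ℕ} (hg : DifferentiableOn ℂ g {w | w.re < T}) (hper : ∀ w : ℂ, w.re < T → g (w + 2 * π * Complex.I) = g w)
    (hb : ∀ w : ℂ, w.re < T → ‖g w‖ ≤ K * (1 + |w.re|) ^ p) :
    ∃ G : ℂ → E, DifferentiableOn ℂ G (ball 0 (Real.exp T)) ∧ ∀ w : ℂ, w.re < T → g w = G (Complex.exp w) := by
  have hre : ∀ (n : ℤ) (w : ℂ), (w + n * (2 * π * Complex.I)).re = w.re := by
    intro n w; simp
  have hpn : ∀ (n : ℕ) (w : ℂ), w.re < T → g (w + n * (2 * π * Complex.I)) = g w := by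
    intro n
    induction n with
    | zero => intro w _; simp
    | succ n ih =>
      intro w hw
      have h1 : w + ((n + 1 : ℕ) : ℂ) * (2 * π * Complex.I) = (w + n * (2 * π * Complex.I)) + 2 * π * Complex.I := by
        push_cast; ring
      have h2 : (w + n * (2 * π * Complex.I)).re < T := by
        have := hre n w
        push_cast at this
        rw [this]; exact hw
      rw [h1, hper _ h2, ih w hw]
  have hpz : ∀ (n : ℤ) (w : ℂ), w.re < T → g (w + n * (2 * π * Complex.I)) = g w := by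
    intro n w hw
    rcases Int.eq_nat_or_neg n with ⟨k, hk | hk⟩
    · rw [hk]; push_cast; exact hpn k w hw
    · have hw' : (w + n * (2 * π * Complex.I)).re < T := by rw [hre]; exact hw
      have h1 := hpn k _ hw'
      rw [hk] at h1 ⊢
      have h2 : w + ((-(k : ℤ) : ℤ) : ℂ) * (2 * π * Complex.I) + (k : ℂ) * (2 * π * Complex.I) = w := by
        push_cast; ring
      rw [h2] at h1
      exact h1.symm
  have heq : ∀ w w' : ℂ, w'.re < T → Complex.exp w = Complex.exp w' → g w = g w' := by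
    intro w w' hw h
    obtain ⟨n, hn⟩ := Complex.exp_eq_exp_iff_exists_int.1 h
    rw [hn]
    exact hpz n w' hw
  have hmem : ∀ z : ℂ, z ∈ ball (0 : ℂ) (Real.exp T) \ {0} → (Complex.log z).re < T := by
    intro z hz
    have hz0 : z ≠ 0 := hz.2
    rw [Complex.log_re, Real.log_lt_iff_lt_exp (norm_pos_iff.2 hz0)]
    simpa using hz.1
  have hd : DifferentiableOn ℂ (fun z => g (Complex.log z)) (ball 0 (Real.exp T) \ {0}) := by
    intro z₀ hz₀
    have hz0 : z₀ ≠ 0 := hz₀.2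
    have hopen : IsOpen {w : ℂ | w.re < T} := isOpen_lt Complex.continuous_re continuous_const
    have hat : DifferentiableAt ℂ (fun z => g (Complex.log z₀ + Complex.log (z / z₀))) z₀ := by
      have h1 : DifferentiableAt ℂ g (Complex.log z₀ + Complex.log (z₀ / z₀)) := by
        rw [div_self hz0, Complex.log_one, add_zero]
        exact (hg _ (hmem z₀ hz₀)).differentiableAt (hopen.mem_nhds (hmem z₀ hz₀))
      have h2 : DifferentiableAt ℂ (fun z : ℂ => Complex.log z₀ + Complex.log (z / z₀)) z₀ := by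
        apply DifferentiableAt.const_add
        apply DifferentiableAt.clog (by fun_prop)
        rw [div_self hz0]
        exact Complex.one_mem_slitPlane
      exact h1.comp z₀ h2
    have hev : (fun z => g (Complex.log z)) =ᶠ[𝓝 z₀] (fun z => g (Complex.log z₀ + Complex.log (z / z₀))) := by
      have ho : IsOpen (ball (0 : ℂ) (Real.exp T) \ {0}) := isOpen_ball.sdiff isClosed_singleton
      filter_upwards [ho.mem_nhds hz₀] with z hz
      refine (heq _ _ (hmem z hz) ?_).symm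
      have hzz : z ≠ 0 := hz.2
      rw [Complex.exp_add, Complex.exp_log hz0, Complex.exp_log (div_ne_zero hzz hz0), Complex.exp_log hzz]
      field_simp
    exact (hev.differentiableAt_iff.2 hat).differentiableWithinAt
  have hbd : ∀ z : ℂ, z ∈ ball (0 : ℂ) (Real.exp T) \ {0} → ‖g (Complex.log z)‖ ≤ K * (1 + |Real.log ‖z‖|) ^ p := by
    intro z hz
    have := hb _ (hmem z hz)
    rwa [Complex.log_re] at this
  have hnb : ball (0 : ℂ) (Real.exp T) ∈ 𝓝 (0 : ℂ) := ball_mem_nhds _ (Real.exp_pos T)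
  have ho : (fun z : ℂ => g (Complex.log z) - g (Complex.log 0)) =o[𝓝[≠] 0] fun z => (z - 0)⁻¹ := by
    have hn : ball (0 : ℂ) (Real.exp T) \ {0} ∈ 𝓝[≠] (0 : ℂ) := by
      rw [sdiff_eq, inter_comm]
      exact inter_mem self_mem_nhdsWithin (mem_nhdsWithin_of_mem_nhds hnb)
    have h1 : (fun z : ℂ => g (Complex.log z)) =o[𝓝[≠] 0] fun z => (z - 0)⁻¹ := by
      rw [Asymptotics.isLittleO_iff]
      intro c hc
      have ht := (tend_log K p).eventually (gt_mem_nhds hc)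
      filter_upwards [ht, hn] with z hz hzn
      have hz0 : 0 < ‖z‖ := norm_pos_iff.2 hzn.2
      rw [sub_zero, norm_inv, ← div_eq_mul_inv, le_div_iff₀ hz0, mul_comm]
      exact (mul_le_mul_of_nonneg_left (hbd z hzn) hz0.le).trans hz.le
    have h2 : (fun _ : ℂ => g (Complex.log 0)) =o[𝓝[≠] 0] fun z : ℂ => (z - 0)⁻¹ := by
      rw [Asymptotics.isLittleO_iff]
      intro c hc
      have ht : Tendsto (fun z : ℂ => ‖z‖ * ‖g (Complex.log 0)‖) (𝓝[≠] 0) (𝓝 0) := by
        have : Tendsto (fun z : ℂ => ‖z‖ * ‖g (Complex.log 0)‖) (𝓝 0) (𝓝 (‖(0 : ℂ)‖ * ‖g (Complex.log 0)‖)) := by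
          exact (Continuous.tendsto (by fun_prop) 0)
        rw [norm_zero, zero_mul] at this
        exact this.mono_left nhdsWithin_le_nhds
      filter_upwards [ht.eventually (gt_mem_nhds hc), hn] with z hz hzn
      have hz0 : 0 < ‖z‖ := norm_pos_iff.2 hzn.2
      rw [sub_zero, norm_inv, ← div_eq_mul_inv, le_div_iff₀ hz0, mul_comm]
      exact hz.le
    exact h1.sub h2
  have hG := Complex.differentiableOn_update_limUnder_of_isLittleO hnb hd ho
  refine ⟨_, hG, ?_⟩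
  intro w hw
  rw [Function.update_of_ne (Complex.exp_ne_zero w)]
  refine (heq _ _ hw ?_).symm
  rw [Complex.exp_log (Complex.exp_ne_zero w)]

end Pool.Agent.H56.G3

end

section

/-!
# Extension of a holomorphic map into projective space across a puncture
-/

noncomputable section

namespace Pool.Agent.H62.FC

open Pool.Agent.H62.FC
open MvPolynomial Topology Filter
open Pool.Agent.H17 (PN VanishesAt ZariskiClosedIn HolomorphicInto puncturedDisc)

variable {N : ℕ}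

/-- A meromorphic function of order at least `n` is `z ^ n` times an analytic function. -/
private theorem Extend_factor {v : ℂ → ℂ} (hv : MeromorphicAt v 0) {n : ℤ}
    (hn : (n : WithTop ℤ) ≤ meromorphicOrderAt v 0) :
    ∃ w : ℂ → ℂ, AnalyticAt ℂ w 0 ∧ (∀ᶠ z in 𝓝[≠] (0 : ℂ), v z = z ^ n * w z) ∧
      (meromorphicOrderAt v 0 = n → w 0 ≠ 0) := by
  by_cases h : meromorphicOrderAt v 0 = ⊤
  · refine ⟨fun _ => 0, analyticAt_const, ?_, ?_⟩
    · rw [meromorphicOrderAt_eq_top_iff] at h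
      filter_upwards [h] with z hz
      rw [hz, mul_zero]
    · intro h'
      rw [h] at h'
      exact absurd h' (by simp)
  · obtain ⟨k, hk⟩ := WithTop.ne_top_iff_exists.mp h
    rw [← hk] at hn
    have hnk : n ≤ k := by exact_mod_cast hn
    obtain ⟨g, hg, hg0, hge⟩ := (meromorphicOrderAt_eq_int_iff hv).mp hk.symm
    refine ⟨fun z => z ^ (k - n).toNat * g z, ?_, ?_, ?_⟩
    · exact (analyticAt_id.pow _).mul hg
    · filter_upwards [hge, self_mem_nhdsWithin] with z hz hz0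
      have hz0' : z ≠ 0 := hz0
      rw [hz, sub_zero, smul_eq_mul, ← mul_assoc, ← zpow_natCast z, ← zpow_add₀ hz0',
        Int.toNat_of_nonneg (by omega)]
      congr 2
      ring
    · intro h'
      rw [← hk] at h'
      have : k = n := by exact_mod_cast h'
      subst this
      simpa using hg0

/-- The representative of a point given by homogeneous coordinates. -/
private theorem Extend_rep {x : PN N} {u : Fin (N + 1) → ℂ} (hu : u ≠ 0)
    (hx : x = Projectivization.mk ℂ u hu) : ∃ c : ℂ, c ≠ 0 ∧ ∀ i, x.rep i = c * u i := by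
  have h1 : Projectivization.mk ℂ x.rep x.rep_nonzero = Projectivization.mk ℂ u hu := by
    rw [Projectivization.mk_rep, hx]
  rw [Projectivization.mk_eq_mk_iff'] at h1
  obtain ⟨a, ha⟩ := h1
  refine ⟨a, ?_, fun i => ?_⟩
  · rintro rfl
    exact x.rep_nonzero (by rw [← ha, zero_smul])
  · rw [← ha]
    rfl

/-- **Extension criterion.** -/
theorem exists_extension {f : ℂ → PN N} (hf : HolomorphicInto f puncturedDisc)
    {i₀ : Fin (N + 1)} (h0 : ∀ᶠ z in 𝓝[≠] (0 : ℂ), ∀ᶠ ζ in 𝓝[≠] z, (f ζ).rep i₀ ≠ 0)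
    (h : ∀ i, PunctMero (fun z => (f z).rep i / (f z).rep i₀)) :
    ∃ g : ℂ → PN N, HolomorphicInto g (Metric.ball 0 1) ∧ ∀ z ∈ puncturedDisc, g z = f z := by
  classical
  choose v hv hvf using h
  -- the minimal order
  obtain ⟨j₁, -, hj₁⟩ := (Finset.univ : Finset (Fin (N + 1))).exists_min_image
    (fun j => meromorphicOrderAt (v j) 0) ⟨i₀, Finset.mem_univ _⟩
  have hne : meromorphicOrderAt (v i₀) 0 ≠ ⊤ := by
    intro htop
    rw [meromorphicOrderAt_eq_top_iff] at htop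
    have h1 : ∀ᶠ z in 𝓝[≠] (0 : ℂ), ∀ᶠ ζ in 𝓝[≠] z, v i₀ ζ = 0 := by
      have h2 : ∀ᶠ z in 𝓝 (0 : ℂ), z ≠ 0 → v i₀ z = 0 := eventually_nhdsWithin_iff.mp htop
      have h3 := h2.eventually_nhds
      filter_upwards [h3.filter_mono nhdsWithin_le_nhds, self_mem_nhdsWithin] with z hz hz0
      have hz0' : z ≠ 0 := hz0
      have h4 : ∀ᶠ ζ in 𝓝 z, ζ ≠ 0 := isOpen_ne.mem_nhds hz0'
      have h5 : ∀ᶠ ζ in 𝓝 z, v i₀ ζ = 0 := by
        filter_upwards [hz, h4] with ζ ha hb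
        exact ha hb
      exact h5.filter_mono nhdsWithin_le_nhds
    obtain ⟨z, ha, hb, hc⟩ := (h1.and (h0.and (hvf i₀))).exists
    obtain ⟨ζ, hd, he, hg⟩ := (ha.and (hb.and hc)).exists
    have hg' : (f ζ).rep i₀ / (f ζ).rep i₀ = v i₀ ζ := hg
    rw [hd, div_self he] at hg'
    exact one_ne_zero hg'
  have hne1 : meromorphicOrderAt (v j₁) 0 ≠ ⊤ :=
    ne_top_of_le_ne_top hne (hj₁ i₀ (Finset.mem_univ _))
  obtain ⟨n, hn⟩ := WithTop.ne_top_iff_exists.mp hne1
  have hw : ∀ j, ∃ w : ℂ → ℂ, AnalyticAt ℂ w 0 ∧ (∀ᶠ z in 𝓝[≠] (0 : ℂ), v j z = z ^ n * w z) ∧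
      (meromorphicOrderAt (v j) 0 = n → w 0 ≠ 0) := fun j =>
    Extend_factor (hv j) (by rw [hn]; exact hj₁ j (Finset.mem_univ _))
  choose w hwan hwv hw0 using hw
  have hw1 : w j₁ 0 ≠ 0 := hw0 j₁ hn.symm
  -- the local statement near the puncture
  have hmain : ∀ᶠ z in 𝓝[≠] (0 : ℂ), ∃ hh : (fun j => w j z) ≠ 0,
      f z = Projectivization.mk ℂ (fun j => w j z) hh := by
    have a1 : ∀ᶠ z in 𝓝[≠] (0 : ℂ), ∀ j, ∀ᶠ ζ in 𝓝 z, v j ζ = ζ ^ n * w j ζ := by
      rw [eventually_all]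
      intro j
      have h2 : ∀ᶠ z in 𝓝 (0 : ℂ), z ≠ 0 → v j z = z ^ n * w j z :=
        eventually_nhdsWithin_iff.mp (hwv j)
      have h3 := h2.eventually_nhds
      filter_upwards [h3.filter_mono nhdsWithin_le_nhds, self_mem_nhdsWithin] with z hz hz0
      have hz0' : z ≠ 0 := hz0
      have h4 : ∀ᶠ ζ in 𝓝 z, ζ ≠ 0 := isOpen_ne.mem_nhds hz0'
      filter_upwards [hz, h4] with ζ ha hb
      exact ha hb
    have a2 : ∀ᶠ z in 𝓝[≠] (0 : ℂ), ∀ j,
        (fun ζ => (f ζ).rep j / (f ζ).rep i₀) =ᶠ[𝓝[≠] z] v j := by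
      rw [eventually_all]
      exact hvf
    have a3 : ∀ᶠ z in 𝓝[≠] (0 : ℂ), ∀ j, AnalyticAt ℂ (w j) z := by
      rw [eventually_all]
      exact fun j => (hwan j).eventually_analyticAt.filter_mono nhdsWithin_le_nhds
    have a4 : ∀ᶠ z in 𝓝[≠] (0 : ℂ), w j₁ z ≠ 0 :=
      ((hwan j₁).continuousAt.eventually_ne hw1).filter_mono nhdsWithin_le_nhds
    have a5 : ∀ᶠ z in 𝓝[≠] (0 : ℂ), z ∈ puncturedDisc := by
      filter_upwards [mem_nhdsWithin_of_mem_nhds (Metric.ball_mem_nhds (0 : ℂ) one_pos),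
        self_mem_nhdsWithin] with z h1 h2
      exact ⟨h1, h2⟩
    filter_upwards [a1, a2, a3, a4, a5, h0, self_mem_nhdsWithin] with z b1 b2 b3 b4 b5 b6 b7
    obtain ⟨φ, hφ, hφf⟩ := hf z b5
    have hφ1 : ∀ i, AnalyticAt ℂ (fun z => φ z i) z := fun i => (analyticAt_pi_iff.mp hφ) i
    have hcross : ∀ i j, φ z i * w j z = φ z j * w i z := by
      intro i j
      have hev : (fun ζ => φ ζ i * w j ζ - φ ζ j * w i ζ) =ᶠ[𝓝[≠] z] fun _ => (0 : ℂ) := by
        have b1' : ∀ᶠ ζ in 𝓝[≠] z, ∀ j, v j ζ = ζ ^ n * w j ζ := by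
          rw [eventually_all]
          exact fun j => (b1 j).filter_mono nhdsWithin_le_nhds
        have b2' : ∀ᶠ ζ in 𝓝[≠] z, ∀ j, (f ζ).rep j / (f ζ).rep i₀ = v j ζ := by
          rw [eventually_all]
          exact b2
        filter_upwards [b1', b2', b6, hφf.filter_mono nhdsWithin_le_nhds] with ζ c1 c2 c3 c4
        obtain ⟨hφ0, hfφ⟩ := c4
        obtain ⟨c, hc, hrep⟩ := Extend_rep hφ0 hfφ
        have key : ∀ j, φ ζ j = φ ζ i₀ * (ζ ^ n * w j ζ) := by
          intro j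
          have e1 := c2 j
          rw [c1 j, hrep j, hrep i₀, mul_div_mul_left _ _ hc] at e1
          have e2 : φ ζ i₀ ≠ 0 := by
            intro e3
            apply c3
            rw [hrep i₀, e3, mul_zero]
          rw [div_eq_iff e2] at e1
          rw [e1, mul_comm]
        rw [key i, key j]
        ring
      have hcont : ContinuousAt (fun ζ => φ ζ i * w j ζ - φ ζ j * w i ζ) z :=
        (((hφ1 i).mul (b3 j)).sub ((hφ1 j).mul (b3 i))).continuousAt
      have h1 : Tendsto (fun ζ => φ ζ i * w j ζ - φ ζ j * w i ζ) (𝓝[≠] z)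
          (𝓝 (φ z i * w j z - φ z j * w i z)) := hcont.tendsto.mono_left nhdsWithin_le_nhds
      have h2 : Tendsto (fun ζ => φ ζ i * w j ζ - φ ζ j * w i ζ) (𝓝[≠] z) (𝓝 0) :=
        tendsto_const_nhds.congr' hev.symm
      exact sub_eq_zero.mp (tendsto_nhds_unique h1 h2)
    have hwz : (fun j => w j z) ≠ 0 := fun hh => b4 (congrFun hh j₁)
    refine ⟨hwz, ?_⟩
    obtain ⟨hφ0, hfφ⟩ := hφf.self_of_nhds
    rw [hfφ, Projectivization.mk_eq_mk_iff']
    refine ⟨φ z j₁ / w j₁ z, ?_⟩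
    funext j
    simp only [Pi.smul_apply, smul_eq_mul]
    rw [div_mul_eq_mul_div, div_eq_iff b4]
    exact hcross j₁ j
  -- the extension
  have hv0 : (fun j => w j 0) ≠ 0 := fun h => hw1 (congrFun h j₁)
  set g : ℂ → PN N := Function.update f 0 (Projectivization.mk ℂ (fun j => w j 0) hv0) with hg
  have hgf : ∀ z, z ≠ 0 → g z = f z := fun z hz => by
    rw [hg, Function.update_of_ne hz]
  refine ⟨g, ?_, fun z hz => hgf z fun h => hz.2 (by simp [h])⟩
  intro z₀ hz₀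
  by_cases h00 : z₀ = 0
  · subst h00
    refine ⟨fun z => (fun j => w j z), analyticAt_pi_iff.mpr hwan, ?_⟩
    filter_upwards [eventually_nhdsWithin_iff.mp hmain] with z hz
    by_cases hz0 : z = 0
    · subst hz0
      exact ⟨hv0, by rw [hg, Function.update_self]⟩
    · obtain ⟨h1, h2⟩ := hz hz0
      exact ⟨h1, by rw [hgf z hz0, h2]⟩
  · obtain ⟨φ, hφ, hφf⟩ := hf z₀ ⟨hz₀, by simpa using h00⟩
    refine ⟨φ, hφ, ?_⟩
    have h1 : ∀ᶠ z in 𝓝 z₀, z ∈ ({0}ᶜ : Set ℂ) := isOpen_compl_singleton.mem_nhds h00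
    filter_upwards [hφf, h1] with z hz hz'
    rw [hgf z hz']
    exact hz

end Pool.Agent.H62.FC

end
end

section

/-!
# The Wronskian of linearly independent meromorphic functions does not vanish identically
-/

noncomputable section

namespace Pool.Agent.H62.FC

open Filter Topology MeasureTheory
open Pool.Agent.H92.GGL (ordZ)

private lemma Wronsk_det_analyticAt {n : ℕ} {M : ℂ → Matrix (Fin n) (Fin n) ℂ} {s : ℂ}
    (h : ∀ i j, AnalyticAt ℂ (fun z => M z i j) s) : AnalyticAt ℂ (fun z => (M z).det) s := by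
  simp only [Matrix.det_apply']
  refine Finset.analyticAt_fun_sum _ fun σ _ => ?_
  refine analyticAt_const.mul ?_
  exact Finset.analyticAt_fun_prod _ fun i _ => h _ _

private lemma Wronsk_det_meromorphicAt {n : ℕ} {M : ℂ → Matrix (Fin n) (Fin n) ℂ} {s : ℂ}
    (h : ∀ i j, MeromorphicAt (fun z => M z i j) s) : MeromorphicAt (fun z => (M z).det) s := by
  simp only [Matrix.det_apply']
  refine MeromorphicAt.fun_sum fun σ _ => ?_
  refine (MeromorphicAt.const _ s).mul ?_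
  exact MeromorphicAt.fun_prod fun i _ => h _ _

private lemma Wronsk_iterated {f : ℂ → ℂ} {z : ℂ} (hf : AnalyticAt ℂ f z) (n : ℕ) :
    AnalyticAt ℂ (iteratedDeriv n f) z := by
  rw [iteratedDeriv_eq_iterate]
  exact hf.iterated_deriv n

/-- the Wronskian of linearly independent holomorphic functions on a domain -/
private theorem Wronsk_exists {m : ℕ} (φ : Fin m → ℂ → ℂ) (D : Set ℂ) (hD : IsOpen D)
    (hDp : IsPreconnected D) (hDn : D.Nonempty) (hd : ∀ i, ∀ z ∈ D, AnalyticAt ℂ (φ i) z)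
    (hli : ∀ c : Fin m → ℂ, (∀ z ∈ D, ∑ j, c j * φ j z = 0) → c = 0) :
    ∃ z ∈ D, Matrix.det (Matrix.of fun i j : Fin m => iteratedDeriv (i : ℕ) (φ j) z) ≠ 0 := by
  induction m with
  | zero =>
    obtain ⟨z, hz⟩ := hDn
    exact ⟨z, hz, by simp⟩
  | succ m ih =>
    by_contra hcon
    push Not at hcon
    obtain ⟨z₀, hz₀D, hz₀⟩ := ih (fun j => φ j.castSucc) (fun j => hd _) (by
      intro c hc
      have h1 := hli (Fin.lastCases 0 c) (by
        intro z hz
        simp only [Fin.sum_univ_castSucc, Fin.lastCases_castSucc, Fin.lastCases_last, zero_mul,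
          add_zero]
        exact hc z hz)
      funext j
      have h2 := congrFun h1 j.castSucc
      simpa using h2)
    set A : ℂ → Matrix (Fin m) (Fin m) ℂ :=
      fun z => Matrix.of fun i j : Fin m => iteratedDeriv (i : ℕ) (φ j.castSucc) z with hA
    set b : ℂ → Fin m → ℂ := fun z i => iteratedDeriv (i : ℕ) (φ (Fin.last m)) z with hb
    have hAd : ∀ z ∈ D, AnalyticAt ℂ (fun z => (A z).det) z := fun z hz =>
      Wronsk_det_analyticAt fun i j => Wronsk_iterated (hd _ z hz) _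
    set c : Fin m → ℂ → ℂ := fun j z => ((A z).updateCol j (b z)).det / (A z).det with hc
    have hU : ∃ r > 0, ∀ z ∈ Metric.ball z₀ r, z ∈ D ∧ (A z).det ≠ 0 := by
      have h1 : ∀ᶠ z in 𝓝 z₀, z ∈ D ∧ (A z).det ≠ 0 :=
        (hD.eventually_mem hz₀D).and ((hAd z₀ hz₀D).continuousAt.eventually_ne hz₀)
      exact Metric.eventually_nhds_iff_ball.mp h1
    obtain ⟨r, hr, hball⟩ := hU
    have hcd : ∀ j, ∀ z ∈ D, (A z).det ≠ 0 → DifferentiableAt ℂ (c j) z := by
      intro j z hzD hz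
      refine DifferentiableAt.div ?_ (hAd z hzD).differentiableAt hz
      refine (Wronsk_det_analyticAt (M := fun z => (A z).updateCol j (b z))
        fun i k => ?_).differentiableAt
      by_cases hk : k = j
      · subst hk
        simp only [Matrix.updateCol_self]
        exact Wronsk_iterated (hd _ z hzD) _
      · simp only [Matrix.updateCol_ne hk]
        exact Wronsk_iterated (hd _ z hzD) _
    -- the coefficients solve the linear system
    have hsol : ∀ z, (A z).det ≠ 0 → (A z).mulVec (fun j => c j z) = b z := by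
      intro z hz
      have h1 := Matrix.mulVec_cramer (A z) (b z)
      have h2 : (fun j => c j z) = ((A z).det)⁻¹ • Matrix.cramer (A z) (b z) := by
        funext j
        simp only [hc, Pi.smul_apply, Matrix.cramer_apply, smul_eq_mul]
        rw [div_eq_inv_mul]
      rw [h2, Matrix.mulVec_smul, h1, smul_smul, inv_mul_cancel₀ hz, one_smul]
    have hlast : ∀ z ∈ D, (A z).det ≠ 0 →
        ∑ j, iteratedDeriv m (φ j.castSucc) z * c j z = iteratedDeriv m (φ (Fin.last m)) z := by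
      intro z hzD hz
      obtain ⟨v, hv0, hv⟩ := Matrix.exists_mulVec_eq_zero_iff.2 (hcon z hzD)
      have hrow : ∀ i : Fin (m + 1), ∑ j : Fin m, iteratedDeriv (i : ℕ) (φ j.castSucc) z *
          v j.castSucc + iteratedDeriv (i : ℕ) (φ (Fin.last m)) z * v (Fin.last m) = 0 := by
        intro i
        have := congrFun hv i
        simpa [Matrix.mulVec, dotProduct, Fin.sum_univ_castSucc] using this
      have hvl : v (Fin.last m) ≠ 0 := by
        intro h0
        apply hv0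
        have hz' : (fun j : Fin m => v j.castSucc) = 0 := by
          apply Matrix.eq_zero_of_mulVec_eq_zero hz
          funext i
          have := hrow i.castSucc
          rw [h0, mul_zero, add_zero] at this
          simpa [Matrix.mulVec, dotProduct, hA] using this
        funext i
        refine Fin.lastCases h0 (fun j => ?_) i
        exact congrFun hz' j
      have hcv : (fun j => c j z) = fun j : Fin m => - v j.castSucc / v (Fin.last m) := by
        have hdiff : (A z).mulVec ((fun j => c j z) -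
            fun j : Fin m => - v j.castSucc / v (Fin.last m)) = 0 := by
          rw [Matrix.mulVec_sub, hsol z hz, sub_eq_zero]
          funext i
          have h3 := hrow i.castSucc
          simp only [Fin.val_castSucc] at h3
          simp only [hb, hA, Matrix.mulVec, dotProduct, Matrix.of_apply]
          have h4 : ∑ j : Fin m, iteratedDeriv (i : ℕ) (φ j.castSucc) z *
              (-v j.castSucc / v (Fin.last m)) =
              -(∑ j : Fin m, iteratedDeriv (i : ℕ) (φ j.castSucc) z * v j.castSucc) /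
                v (Fin.last m) := by
            rw [← Finset.sum_neg_distrib, Finset.sum_div]
            refine Finset.sum_congr rfl fun j _ => by ring
          rw [h4, eq_div_iff hvl]
          linear_combination h3
        exact sub_eq_zero.1 (Matrix.eq_zero_of_mulVec_eq_zero hz hdiff)
      have h5 := hrow (Fin.last m)
      simp only [Fin.val_last] at h5
      have h6 : ∀ j, c j z = - v j.castSucc / v (Fin.last m) := fun j => congrFun hcv j
      have h7 : ∑ j, iteratedDeriv m (φ j.castSucc) z * c j z =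
          -(∑ j : Fin m, iteratedDeriv m (φ j.castSucc) z * v j.castSucc) / v (Fin.last m) := by
        rw [← Finset.sum_neg_distrib, Finset.sum_div]
        refine Finset.sum_congr rfl fun j _ => by rw [h6]; ring
      rw [h7, div_eq_iff hvl]
      linear_combination -h5
    have hall : ∀ i ≤ m, ∀ z ∈ D, (A z).det ≠ 0 →
        ∑ j, iteratedDeriv i (φ j.castSucc) z * c j z = iteratedDeriv i (φ (Fin.last m)) z := by
      intro i hi z hzD hz
      rcases hi.lt_or_eq with hi' | rfl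
      · have := congrFun (hsol z hz) ⟨i, hi'⟩
        simpa [Matrix.mulVec, dotProduct, hA, hb] using this
      · exact hlast z hzD hz
    have hderiv : ∀ j, ∀ z ∈ Metric.ball z₀ r, deriv (c j) z = 0 := by
      intro j₀ z hzb
      obtain ⟨hzD, hz⟩ := hball z hzb
      have hzero : (A z).mulVec (fun j => deriv (c j) z) = 0 := by
        funext i
        have hev : (fun w => ∑ j, iteratedDeriv (i : ℕ) (φ j.castSucc) w * c j w) =ᶠ[𝓝 z]
            iteratedDeriv (i : ℕ) (φ (Fin.last m)) := by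
          filter_upwards [Metric.isOpen_ball.mem_nhds hzb] with w hw
          exact hall i i.2.le w (hball w hw).1 (hball w hw).2
        have h1 := hev.deriv_eq
        have h2 : deriv (fun w => ∑ j, iteratedDeriv (i : ℕ) (φ j.castSucc) w * c j w) z =
            ∑ j, (iteratedDeriv ((i : ℕ) + 1) (φ j.castSucc) z * c j z +
              iteratedDeriv (i : ℕ) (φ j.castSucc) z * deriv (c j) z) := by
          rw [deriv_fun_sum]
          · refine Finset.sum_congr rfl fun j _ => ?_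
            rw [deriv_fun_mul (Wronsk_iterated (hd _ z hzD) _).differentiableAt (hcd j z hzD hz),
              iteratedDeriv_succ]
          · intro j _
            exact (Wronsk_iterated (hd _ z hzD) _).differentiableAt.mul (hcd j z hzD hz)
        have h3 := hall ((i : ℕ) + 1) i.2 z hzD hz
        rw [h2, Finset.sum_add_distrib, h3, ← iteratedDeriv_succ] at h1
        have h4 : ∑ j, iteratedDeriv (i : ℕ) (φ j.castSucc) z * deriv (c j) z = 0 := by
          linear_combination h1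
        simpa [Matrix.mulVec, dotProduct, hA] using h4
      exact congrFun (Matrix.eq_zero_of_mulVec_eq_zero hz hzero) j₀
    have hconst : ∀ j, ∀ z ∈ Metric.ball z₀ r, c j z = c j z₀ := by
      intro j z hz
      exact (Metric.isOpen_ball.is_const_of_deriv_eq_zero (convex_ball z₀ r).isPreconnected
        (fun w hw => (hcd j w (hball w hw).1 (hball w hw).2).differentiableWithinAt)
        (fun w hw => hderiv j w hw) hz (Metric.mem_ball_self hr))
    -- identity theorem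
    have hid : ∀ z ∈ D, ∑ j, φ j.castSucc z * c j z₀ = φ (Fin.last m) z := by
      have h1 : AnalyticOnNhd ℂ (fun z => ∑ j, φ j.castSucc z * c j z₀) D := by
        intro z hz
        exact Finset.analyticAt_fun_sum _ fun j _ => (hd _ z hz).mul analyticAt_const
      have h2 : AnalyticOnNhd ℂ (φ (Fin.last m)) D := fun z hz => hd _ z hz
      have h3 : (fun z => ∑ j, φ j.castSucc z * c j z₀) =ᶠ[𝓝 z₀] φ (Fin.last m) := by
        filter_upwards [Metric.ball_mem_nhds z₀ hr] with z hz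
        have h4 := hall 0 (Nat.zero_le _) z (hball z hz).1 (hball z hz).2
        simp only [iteratedDeriv_zero] at h4
        rw [← h4]
        exact Finset.sum_congr rfl fun j _ => by rw [hconst j z hz]
      intro z hz
      exact h1.eqOn_of_preconnected_of_eventuallyEq h2 hDp hz₀D h3 hz
    have hsum := congrFun (hli (Fin.lastCases (-1) fun j => c j z₀) (by
        intro z hz
        simp only [Fin.sum_univ_castSucc, Fin.lastCases_castSucc, Fin.lastCases_last]
        have := hid z hz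
        rw [← this]
        have h5 : ∑ j, c j z₀ * φ j.castSucc z = ∑ j, φ j.castSucc z * c j z₀ :=
          Finset.sum_congr rfl fun j _ => mul_comm _ _
        rw [h5]; ring)) (Fin.last m)
    simp at hsum

theorem wronsk_meroPunct {R₀ : ℝ} {n : ℕ} {u : Fin n → ℂ → ℂ} (hu : ∀ j, MeroPunct R₀ (u j))
    (hind : ∀ (c : Fin n → ℂ) (z : ℂ), 0 < ‖z‖ → ‖z‖ < R₀ →
      (∀ᶠ ζ in 𝓝[≠] z, ∑ j, c j * u j ζ = 0) → c = 0) : MeroPunct R₀ (wronsk u) where
  mero z h1 h2 := by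
    refine Wronsk_det_meromorphicAt fun i j => ?_
    have h3 : MeromorphicAt (iteratedDeriv (i : ℕ) (u j)) z := by
      rw [iteratedDeriv_eq_iterate]
      exact ((hu j).mero z h1 h2).iterated_deriv
    exact h3
  ord z h1 h2 := by
    intro htop
    rw [meromorphicOrderAt_eq_top_iff] at htop
    have han : ∀ᶠ ζ in 𝓝[≠] z, ∀ j, AnalyticAt ℂ (u j) ζ := by
      rw [eventually_all]
      exact fun j => ((hu j).mero z h1 h2).eventually_analyticAt
    have hR : ∀ᶠ ζ in 𝓝[≠] z, 0 < ‖ζ‖ ∧ ‖ζ‖ < R₀ := by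
      refine eventually_nhdsWithin_of_eventually_nhds ?_
      exact (continuous_norm.continuousAt.eventually_const_lt h1).and
        (continuous_norm.continuousAt.eventually_lt_const h2)
    have hall := (htop.and han).and hR
    rw [eventually_nhdsWithin_iff, Metric.eventually_nhds_iff_ball] at hall
    obtain ⟨ε, hε, hball⟩ := hall
    set z₁ : ℂ := z + ((ε / 2 : ℝ) : ℂ) with hz₁
    have hz₁n : ‖z₁ - z‖ = ε / 2 := by
      rw [hz₁, add_sub_cancel_left, Complex.norm_real, Real.norm_of_nonneg (by positivity)]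
    have hsub : ∀ ζ ∈ Metric.ball z₁ (ε / 2), ζ ∈ Metric.ball z ε ∧ ζ ∈ ({z}ᶜ : Set ℂ) := by
      intro ζ hζ
      rw [mem_ball_iff_norm] at hζ
      constructor
      · rw [mem_ball_iff_norm]
        calc ‖ζ - z‖ = ‖(ζ - z₁) + (z₁ - z)‖ := by ring_nf
          _ ≤ ‖ζ - z₁‖ + ‖z₁ - z‖ := norm_add_le _ _
          _ < ε / 2 + ε / 2 := by rw [hz₁n]; linarith
          _ = ε := by ring
      · intro h
        rw [Set.mem_singleton_iff] at h
        rw [h, norm_sub_rev, hz₁n] at hζ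
        exact lt_irrefl _ hζ
    have hmem : z₁ ∈ Metric.ball z₁ (ε / 2) := Metric.mem_ball_self (by positivity)
    obtain ⟨ζ, hζ, hne⟩ := Wronsk_exists u (Metric.ball z₁ (ε / 2)) Metric.isOpen_ball
      (convex_ball _ _).isPreconnected ⟨z₁, hmem⟩
      (fun j ζ hζ => (hball ζ (hsub ζ hζ).1 (hsub ζ hζ).2).1.2 j) (by
        intro c hc
        have h3 := hball z₁ (hsub z₁ hmem).1 (hsub z₁ hmem).2
        refine hind c z₁ h3.2.1 h3.2.2 ?_
        refine eventually_nhdsWithin_of_eventually_nhds ?_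
        filter_upwards [Metric.isOpen_ball.mem_nhds hmem] with ζ hζ
        exact hc ζ hζ)
    exact hne (hball ζ (hsub ζ hζ).1 (hsub ζ hζ).2).1.1

end Pool.Agent.H62.FC

end
end

section

/-!
# Functions meromorphic at the puncture: closure properties
-/

open Filter Topology MeasureTheory
open Pool.Agent.H92.GGL (ordZ)

noncomputable section

namespace Pool.Agent.H62.FC

theorem PunctMero.mul {f g : ℂ → ℂ} (hf : PunctMero f) (hg : PunctMero g) :
    PunctMero (fun z => f z * g z) := by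
  obtain ⟨v, hv, hfv⟩ := hf
  obtain ⟨w, hw, hgw⟩ := hg
  refine ⟨fun z => v z * w z, hv.mul hw, ?_⟩
  filter_upwards [hfv, hgw] with z h1 h2
  filter_upwards [h1, h2] with ζ h3 h4
  rw [h3, h4]

theorem PunctMero.inv {f : ℂ → ℂ} (hf : PunctMero f) : PunctMero (fun z => (f z)⁻¹) := by
  obtain ⟨v, hv, hfv⟩ := hf
  refine ⟨fun z => (v z)⁻¹, hv.inv, ?_⟩
  filter_upwards [hfv] with z h1
  filter_upwards [h1] with ζ h3
  rw [h3]

/-- a bound for a root -/
private lemma norm_le_of_pow_le {w : ℂ} {C : ℝ} {M : ℕ} (hM : 0 < M) (hC : 1 ≤ C)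
    (h : ‖w ^ M‖ ≤ C) : ‖w‖ ≤ C := by
  rw [norm_pow] at h
  by_contra hlt
  have hlt := not_le.1 hlt
  have h1 : (1 : ℝ) ≤ ‖w‖ := by linarith
  have h2 : ‖w‖ ≤ ‖w‖ ^ M := le_self_pow₀ h1 hM.ne'
  linarith

theorem PunctMero.root {R₀ : ℝ} (hR₀ : 0 < R₀) {f : ℂ → ℂ} (hf : MeroPunct R₀ f) {M : ℕ}
    (hM : 0 < M) (h : PunctMero (fun z => f z ^ M)) : PunctMero f := by
  obtain ⟨v, hv, hfv⟩ := h
  -- the punctured disc
  have hU0 : ∀ᶠ z in 𝓝[≠] (0 : ℂ), 0 < ‖z‖ ∧ ‖z‖ < R₀ := by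
    have h1 : ∀ᶠ z in 𝓝 (0 : ℂ), ‖z‖ < R₀ := by
      filter_upwards [Metric.ball_mem_nhds (0 : ℂ) hR₀] with z hz
      simpa using hz
    filter_upwards [h1.filter_mono nhdsWithin_le_nhds, self_mem_nhdsWithin] with z h2 h3
    exact ⟨norm_pos_iff.mpr h3, h2⟩
  -- `v` is not identically zero
  have hvtop : meromorphicOrderAt v 0 ≠ ⊤ := by
    intro htop
    have h0 : ∀ᶠ z in 𝓝[≠] (0 : ℂ), v z = 0 := meromorphicOrderAt_eq_top_iff.1 htop
    have h0' : ∀ᶠ z in 𝓝[≠] (0 : ℂ), ∀ᶠ ζ in 𝓝[≠] z, v ζ = 0 := by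
      have h2 := eventually_eventually_nhdsWithin.2 h0
      filter_upwards [h2, self_mem_nhdsWithin] with z hz hz0
      have h4 : ∀ᶠ ζ in 𝓝 z, v ζ = 0 := by
        have h5 : 𝓝[{(0 : ℂ)}ᶜ] z = 𝓝 z :=
          IsOpen.nhdsWithin_eq isOpen_compl_singleton hz0
        rwa [h5] at hz
      exact h4.filter_mono nhdsWithin_le_nhds
    obtain ⟨z, hz1, hz2, hz3⟩ := ((hU0.and (hfv.and h0'))).exists
    refine hf.ord z hz1.1 hz1.2 ?_
    rw [meromorphicOrderAt_eq_top_iff]
    filter_upwards [hz2, hz3] with ζ h1 h2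
    rw [h2] at h1
    exact (pow_eq_zero_iff hM.ne').1 h1
  have hvan : ∀ᶠ z in 𝓝[≠] (0 : ℂ), AnalyticAt ℂ v z := hv.eventually_analyticAt
  have hvne : ∀ᶠ z in 𝓝[≠] (0 : ℂ), v z ≠ 0 :=
    (meromorphicOrderAt_ne_top_iff_eventually_ne_zero hv).1 hvtop
  obtain ⟨k, hk, -, hvk⟩ := (meromorphicOrderAt_ne_top_iff hv).1 hvtop
  set n : ℤ := (meromorphicOrderAt v 0).untop₀ with hn
  have hkb : ∀ᶠ z in 𝓝 (0 : ℂ), ‖k z‖ ≤ ‖k 0‖ + 1 := by
    have h1 := hk.continuousAt.norm.tendsto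
    filter_upwards [h1.eventually_lt_const (lt_add_one ‖k 0‖)] with z hz using hz.le
  have h1b : ∀ᶠ z in 𝓝 (0 : ℂ), ‖z‖ < 1 := by
    filter_upwards [Metric.ball_mem_nhds (0 : ℂ) one_pos] with z hz
    simpa using hz
  -- everything in one punctured disc
  have hall : ∀ᶠ z in 𝓝[≠] (0 : ℂ), (0 < ‖z‖ ∧ ‖z‖ < R₀) ∧
      ((fun z => f z ^ M) =ᶠ[𝓝[≠] z] v) ∧ AnalyticAt ℂ v z ∧ v z ≠ 0 ∧
        v z = z ^ n * k z ∧ ‖k z‖ ≤ ‖k 0‖ + 1 ∧ ‖z‖ < 1 := by
    filter_upwards [hU0, hfv, hvan, hvne, hvk, hkb.filter_mono nhdsWithin_le_nhds,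
      h1b.filter_mono nhdsWithin_le_nhds] with z a1 a2 a3 a4 a5 a6 a7
    refine ⟨a1, a2, a3, a4, ?_, a6, a7⟩
    rw [a5, sub_zero, smul_eq_mul]
  obtain ⟨ε, hε, hε'⟩ := Metric.mem_nhdsWithin_iff.1 hall
  have hD : ∀ z : ℂ, 0 < ‖z‖ → ‖z‖ < ε → (0 < ‖z‖ ∧ ‖z‖ < R₀) ∧
      ((fun z => f z ^ M) =ᶠ[𝓝[≠] z] v) ∧ AnalyticAt ℂ v z ∧ v z ≠ 0 ∧
        v z = z ^ n * k z ∧ ‖k z‖ ≤ ‖k 0‖ + 1 ∧ ‖z‖ < 1 := by
    intro z hz1 hz2
    exact hε' ⟨by simpa using hz2, norm_pos_iff.1 hz1⟩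
  -- the normal form
  set U : Set ℂ := {z | 0 < ‖z‖ ∧ ‖z‖ < R₀} with hU
  have hfU : MeromorphicOn f U := fun z hz => hf.mero z hz.1 hz.2
  set g : ℂ → ℂ := toMeromorphicNFOn f U with hg
  have hgf : ∀ z : ℂ, 0 < ‖z‖ → ‖z‖ < ε → g =ᶠ[𝓝[≠] z] f := fun z h1 h2 =>
    hfU.toMeromorphicNFOn_eq_self_on_nhdsNE (hD z h1 h2).1
  have hgan : ∀ z : ℂ, 0 < ‖z‖ → ‖z‖ < ε → AnalyticAt ℂ g z := by
    intro z h1 h2
    obtain ⟨b1, b2, b3, b4, -, -, -⟩ := hD z h1 h2
    have hm := hf.mero z b1.1 b1.2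
    have e1 : meromorphicOrderAt (fun z => f z ^ M) z = M * meromorphicOrderAt f z :=
      meromorphicOrderAt_pow hm
    have e2 : meromorphicOrderAt (fun z => f z ^ M) z = 0 := by
      rw [meromorphicOrderAt_congr b2]
      exact b3.meromorphicNFAt.meromorphicOrderAt_eq_zero_iff.2 b4
    have e3 : meromorphicOrderAt f z = 0 := by
      rw [e2] at e1
      rcases mul_eq_zero.1 e1.symm with h3 | h3
      · exact absurd (by exact_mod_cast h3) hM.ne'
      · exact h3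
    have hnf : MeromorphicNFAt g z := meromorphicNFOn_toMeromorphicNFOn f U b1
    refine hnf.meromorphicOrderAt_nonneg_iff_analyticAt.1 ?_
    rw [meromorphicOrderAt_congr (hgf z h1 h2), e3]
  have hgM : ∀ z : ℂ, 0 < ‖z‖ → ‖z‖ < ε → g z ^ M = v z := by
    intro z h1 h2
    obtain ⟨-, b2, b3, -, -, -, -⟩ := hD z h1 h2
    have c1 : (fun ζ => g ζ ^ M) =ᶠ[𝓝[≠] z] v := by
      filter_upwards [hgf z h1 h2, b2] with ζ h3 h4
      rw [h3]; exact h4
    have c2 : ContinuousAt (fun ζ => g ζ ^ M) z := ((hgan z h1 h2).pow M).continuousAt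
    exact tendsto_nhds_unique_of_eventuallyEq (c2.tendsto.mono_left nhdsWithin_le_nhds)
      (b3.continuousAt.tendsto.mono_left nhdsWithin_le_nhds) c1
  -- multiply by a power of `z`
  set m : ℕ := n.natAbs with hm
  obtain ⟨w, hw, hwg⟩ := Pool.Agent.H92.GGL.meromorphicAt_of_bounded
    (u := fun z => z ^ m * g z) (ε := ε) (M := ‖k 0‖ + 1) hε
    (fun z h1 h2 => (analyticAt_id.pow m).mul (hgan z h1 h2)) (by
      intro z h1 h2
      obtain ⟨-, -, -, -, b5, b6, b7⟩ := hD z h1 h2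
      refine norm_le_of_pow_le hM (by linarith [norm_nonneg (k 0)]) ?_
      have hz : z ≠ 0 := norm_pos_iff.1 h1
      have e1 : (z ^ m * g z) ^ M = z ^ ((m * M : ℕ) + n : ℤ) * k z := by
        rw [mul_pow, hgM z h1 h2, b5, zpow_add₀ hz, zpow_natCast, pow_mul]
        ring
      have e2 : (0 : ℤ) ≤ ((m * M : ℕ) : ℤ) + n := by
        have h3 : m ≤ m * M := Nat.le_mul_of_pos_right m hM
        omega
      obtain ⟨q, hq⟩ := Int.eq_ofNat_of_zero_le e2
      rw [e1, hq, zpow_natCast, norm_mul, norm_pow]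
      have h4 : ‖z‖ ^ q ≤ 1 := pow_le_one₀ (norm_nonneg z) b7.le
      calc ‖z‖ ^ q * ‖k z‖ ≤ 1 * (‖k 0‖ + 1) :=
            mul_le_mul h4 b6 (norm_nonneg _) zero_le_one
        _ = ‖k 0‖ + 1 := one_mul _)
  refine ⟨fun z => (z ^ m)⁻¹ * w z, (((analyticAt_id.pow m).meromorphicAt).inv).mul
    hw.meromorphicAt, ?_⟩
  have hεe : ∀ᶠ z in 𝓝[≠] (0 : ℂ), 0 < ‖z‖ ∧ ‖z‖ < ε := by
    filter_upwards [(Metric.ball_mem_nhds (0 : ℂ) hε : _) |> mem_nhdsWithin_of_mem_nhds,
      self_mem_nhdsWithin] with z h1 h2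
    exact ⟨norm_pos_iff.mpr h2, by simpa using h1⟩
  filter_upwards [hεe] with z hz
  have hz0 : z ≠ 0 := norm_pos_iff.1 hz.1
  have h5 : ∀ᶠ ζ in 𝓝[≠] z, ζ ≠ 0 :=
    (isOpen_compl_singleton.mem_nhds hz0 : ({(0 : ℂ)}ᶜ : Set ℂ) ∈ 𝓝 z) |>
      mem_nhdsWithin_of_mem_nhds
  filter_upwards [hgf z hz.1 hz.2, h5] with ζ h6 h7
  rw [hwg ζ h7, ← h6, ← mul_assoc, inv_mul_cancel₀ (pow_ne_zero m h7), one_mul]

end Pool.Agent.H62.FC

end
end

section

/-!
# A meromorphic function on a punctured disc with characteristic `O (log (1 / r))`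
-/

open Complex MeasureTheory Metric Set Topology Filter

namespace Pool.Agent.H92.GGL

lemma exists_radius {P : Set ℂ} (hP : P.Finite) (h0 : ∀ s ∈ P, 0 < ‖s‖) :
    ∃ ε : ℝ, 0 < ε ∧ ∀ s ∈ P, ε ≤ ‖s‖ := by
  rcases hP.toFinset.eq_empty_or_nonempty with h | h
  · refine ⟨1, one_pos, fun s hs => ?_⟩
    have : s ∈ hP.toFinset := hP.mem_toFinset.mpr hs
    rw [h] at this
    exact absurd this (Finset.notMem_empty s)
  · obtain ⟨s₀, hs₀, hmin⟩ := hP.toFinset.exists_min_image (fun s => ‖s‖) h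
    exact ⟨‖s₀‖, h0 s₀ (hP.mem_toFinset.mp hs₀), fun s hs => hmin s (hP.mem_toFinset.mpr hs)⟩

/-- The order of the difference with a constant. -/
lemma neg_ordZ_sub_const_le {u : ℂ → ℂ} {s c : ℂ} (hu : MeromorphicAt u s)
    (ho : meromorphicOrderAt u s ≠ ⊤) (hc : meromorphicOrderAt (fun z => u z - c) s ≠ ⊤) :
    max (-(ordZ (fun z => u z - c) s : ℝ)) 0 ≤ max (-(ordZ u s : ℝ)) 0 := by
  have h1 : min (meromorphicOrderAt u s) (meromorphicOrderAt (fun _ : ℂ => -c) s) ≤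
      meromorphicOrderAt (fun z => u z - c) s := by
    have h2 := meromorphicOrderAt_add hu (MeromorphicAt.const (-c) s)
    have h3 : (u + fun _ : ℂ => -c) = fun z => u z - c := by
      funext z
      simp [sub_eq_add_neg]
    rwa [h3] at h2
  have h4 : (0 : WithTop ℤ) ≤ meromorphicOrderAt (fun _ : ℂ => -c) s :=
    (analyticAt_const).meromorphicOrderAt_nonneg
  have h5 : min (ordZ u s) 0 ≤ ordZ (fun z => u z - c) s := by
    have h6 : min (meromorphicOrderAt u s) 0 ≤ meromorphicOrderAt (fun z => u z - c) s :=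
      (min_le_min_left _ h4).trans h1
    rw [← ordZ_cast ho, ← ordZ_cast hc] at h6
    exact_mod_cast h6
  have h7 : (min (ordZ u s : ℝ) 0) ≤ ordZ (fun z => u z - c) s := by exact_mod_cast h5
  refine max_le ?_ (le_max_right _ _)
  rcases le_total (ordZ u s : ℝ) 0 with h8 | h8
  · rw [min_eq_left h8] at h7
    exact le_trans (by linarith) (le_max_left _ _)
  · rw [min_eq_right h8] at h7
    exact le_trans (by linarith) (le_max_right _ _)

end Pool.Agent.H92.GGL

end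

section

/-!
# FC, module CharMero: small characteristic implies meromorphic at the puncture
-/

open Complex MeasureTheory Metric Set Topology Filter
open Pool.Agent.H92.GGL

noncomputable section

namespace Pool.Agent.H62.FC

/-- A set of points of a punctured disc with small counting function for arbitrarily small
radii is finite. -/
private lemma CharMero_finite_of_count {P : Set ℂ} {C D : ℝ} (hP : ∀ s ∈ P, 0 < ‖s‖)
    (h : ∀ r₁, 0 < r₁ → ∃ r, 0 < r ∧ r < r₁ ∧ ∀ S : Finset ℂ, (∀ s ∈ S, s ∈ P) →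
      ∑ s ∈ S, Real.posLog (‖s‖ / r) ≤ C - D * Real.log r) : P.Finite := by
  by_contra hinf
  obtain ⟨n₀, hn₀⟩ := exists_nat_gt D
  obtain ⟨S, hSP, hScard⟩ := (Set.not_finite.mp hinf).exists_subset_card_eq (n₀ + 1)
  have hSne : S.Nonempty := by
    rw [← Finset.card_pos, hScard]
    omega
  obtain ⟨s₀, hs₀, hmin⟩ := S.exists_min_image (fun s => ‖s‖) hSne
  set δ := ‖s₀‖ with hδ
  have hδ0 : 0 < δ := hP s₀ (hSP hs₀)
  set n : ℝ := ((n₀ + 1 : ℕ) : ℝ) with hn
  have hnD : 1 < n - D := by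
    rw [hn]
    push_cast
    linarith
  have hnpos : 0 ≤ n := Nat.cast_nonneg _
  set t₀ : ℝ := max (1 + -Real.log δ) (|C - n * Real.log δ| + 1) with ht₀
  obtain ⟨r, hr0, hr1, hr⟩ := h (Real.exp (-t₀)) (Real.exp_pos _)
  set t : ℝ := -Real.log r with ht
  have hrt : r = Real.exp (-t) := by
    rw [ht, neg_neg, Real.exp_log hr0]
  have htt : t₀ < t := by
    have := Real.log_lt_log hr0 hr1
    rw [Real.log_exp] at this
    linarith
  have ht1 : -Real.log δ < t := by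
    have h1 := le_max_left (1 + -Real.log δ) (|C - n * Real.log δ| + 1)
    linarith
  have ht3 : |C - n * Real.log δ| + 1 ≤ t := (le_max_right _ _).trans htt.le
  have hr2 : Real.exp (-t) < δ := by
    rw [← Real.exp_log hδ0]
    exact Real.exp_lt_exp.mpr (by linarith)
  have h1 := hr S (fun s hs => hSP hs)
  rw [hrt, Real.log_exp] at h1
  have h2 : n * (Real.log δ + t) ≤ ∑ s ∈ S, Real.posLog (‖s‖ / Real.exp (-t)) := by
    have h3 : ∑ _s ∈ S, (Real.log δ + t) = n * (Real.log δ + t) := by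
      rw [Finset.sum_const, hScard, nsmul_eq_mul]
    rw [← h3]
    refine Finset.sum_le_sum fun s hs => ?_
    have h4 : δ ≤ ‖s‖ := hmin s hs
    have h5 : Real.log δ + t = Real.log (δ / Real.exp (-t)) := by
      rw [Real.log_div hδ0.ne' (Real.exp_pos _).ne', Real.log_exp]
      ring
    rw [h5]
    refine le_trans ?_ (le_max_right _ _)
    refine Real.log_le_log (by positivity) ?_
    gcongr
  have h6 : (n - D) * t ≤ C - n * Real.log δ := by linarith
  have h7 : t ≤ (n - D) * t := by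
    have : 0 ≤ t := by
      have := abs_nonneg (C - n * Real.log δ)
      linarith
    nlinarith
  have h8 := le_abs_self (C - n * Real.log δ)
  linarith

private theorem CharMero_core {u : ℂ → ℂ} {R₀ R₁ : ℝ} (hR₁0 : 0 < R₁) (hR₁ : R₁ < R₀)
    (hu : ∀ z, 0 < ‖z‖ → ‖z‖ < R₀ → MeromorphicAt u z) {C D : ℝ}
    (hT : ∀ r₁, 0 < r₁ → ∃ r, 0 < r ∧ r < r₁ ∧ r < R₁ ∧
      ∀ S : Finset ℂ, (∀ s ∈ S, 0 < ‖s‖ ∧ ‖s‖ < R₁) →
      Real.circleAverage (fun z => Real.posLog ‖u z‖) 0 r +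
        ∑ s ∈ S, max (-(ordZ u s : ℝ)) 0 * Real.posLog (‖s‖ / r) ≤ C - D * Real.log r) :
    PunctMero u := by
  classical
  set Ω : Set ℂ := {z : ℂ | 0 < ‖z‖ ∧ ‖z‖ < R₀} with hΩ
  have hΩo : IsOpen Ω := isOpen_punctured R₀
  have hm : MeromorphicOn u Ω := fun z hz => hu z hz.1 hz.2
  -- the constant case
  by_cases hconst : ∃ c, ∃ z ∈ Ω, meromorphicOrderAt (fun z => u z - c) z = ⊤
  · obtain ⟨c, z₀, hz₀, hc⟩ := hconst
    have hmc : MeromorphicOn (fun z => u z - c) Ω := fun z hz =>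
      (hm z hz).sub (MeromorphicAt.const c z)
    have hall : ∀ z ∈ Ω, meromorphicOrderAt (fun z => u z - c) z = ⊤ := by
      intro z hz
      by_contra h
      exact (hmc.meromorphicOrderAt_ne_top_of_isPreconnected (isPreconnected_punctured R₀) hz
        hz₀ h) hc
    refine ⟨fun _ => c, MeromorphicAt.const c 0, ?_⟩
    filter_upwards [punctured_mem (hR₁0.trans hR₁)] with z hz
    have h3 := hall z hz
    rw [meromorphicOrderAt_eq_top_iff] at h3
    filter_upwards [h3] with w hw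
    exact sub_eq_zero.mp hw
  push Not at hconst
  have hord : ∀ z ∈ Ω, meromorphicOrderAt u z ≠ ⊤ := by
    intro z hz
    have := hconst 0 z hz
    simpa using this
  have hsub : ∀ s : ℂ, 0 < ‖s‖ → ‖s‖ < R₁ → s ∈ Ω := fun s h1 h2 => ⟨h1, h2.trans hR₁⟩
  -- integrability
  have hsph : ∀ r, 0 < r → r < R₁ → MeromorphicOn u (sphere 0 |r|) := by
    intro r h1 h2 z hz
    rw [mem_sphere_zero_iff_norm, abs_of_pos h1] at hz
    exact hm z (hsub z (by rw [hz]; exact h1) (by rw [hz]; exact h2))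
  have hposnn : ∀ r, 0 < r → r < R₁ → 0 ≤ Real.circleAverage (fun z => Real.posLog ‖u z‖) 0 r := by
    intro r h1 h2
    exact Real.circleAverage_nonneg_of_nonneg fun z _ => Real.posLog_nonneg
  -- finitely many poles
  have hpoles : {s : ℂ | (0 < ‖s‖ ∧ ‖s‖ < R₁) ∧ ordZ u s < 0}.Finite := by
    refine CharMero_finite_of_count (C := C) (D := D) (fun s hs => hs.1.1) ?_
    intro r₁ hr₁
    obtain ⟨r, h1, h1', h2, hTr⟩ := hT r₁ hr₁
    refine ⟨r, h1, h1', fun S hS => ?_⟩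
    have h3 := hTr S (fun s hs => (hS s hs).1)
    have h4 := hposnn r h1 h2
    refine le_trans ?_ (le_trans (by linarith) h3) (b := ∑ s ∈ S, max (-(ordZ u s : ℝ)) 0 *
      Real.posLog (‖s‖ / r))
    refine Finset.sum_le_sum fun s hs => ?_
    have h5 : ordZ u s ≤ -1 := by
      have := (hS s hs).2
      omega
    have h6 : (ordZ u s : ℝ) ≤ -1 := by exact_mod_cast h5
    have h7 : (1 : ℝ) ≤ max (-(ordZ u s : ℝ)) 0 := le_max_of_le_left (by linarith)
    have h8 : 0 ≤ Real.posLog (‖s‖ / r) := Real.posLog_nonneg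
    nlinarith
  -- finitely many zeros of `u - c`
  have hzeros : ∀ c : ℂ, {s : ℂ | (0 < ‖s‖ ∧ ‖s‖ < R₁) ∧ 0 < ordZ (fun z => u z - c) s}.Finite := by
    intro c
    have hmc : ∀ z, 0 < ‖z‖ → ‖z‖ < R₀ → MeromorphicAt (fun z => u z - c) z := fun z h1 h2 =>
      (hu z h1 h2).sub (MeromorphicAt.const c z)
    obtain ⟨A, B, hJ⟩ := jensen_punctured hR₁ hmc (fun z h1 h2 => hconst c z ⟨h1, h2⟩)
    refine CharMero_finite_of_count (C := C + Real.posLog ‖c‖ + Real.log 2 - A) (D := D + B)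
      (fun s hs => hs.1.1) ?_
    intro r₁ hr₁
    obtain ⟨r, h1, h1', h2, hTr⟩ := hT r₁ hr₁
    refine ⟨r, h1, h1', fun S hS => ?_⟩
    have hfin := finite_ordZ (a := r) (b := R₁) h1 hR₁ hmc
    set S' : Finset ℂ := S ∪ hfin.toFinset.filter (fun s => ‖s‖ < R₁) with hS'
    have hS'1 : ∀ s ∈ S', 0 < ‖s‖ ∧ ‖s‖ < R₁ := by
      intro s hs
      rw [hS', Finset.mem_union, Finset.mem_filter, hfin.mem_toFinset] at hs
      rcases hs with hs | hs
      · exact (hS s hs).1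
      · exact ⟨h1.trans_le hs.1.1, hs.2⟩
    have hS'2 : ∀ s, r < ‖s‖ → ‖s‖ < R₁ → ordZ (fun z => u z - c) s ≠ 0 → s ∈ S' := by
      intro s h3 h4 h5
      rw [hS', Finset.mem_union, Finset.mem_filter, hfin.mem_toFinset]
      exact Or.inr ⟨⟨h3.le, h4.le, h5⟩, h4⟩
    have h3 := hJ r h1 h2 S' (fun s hs => (hS'1 s hs).2) hS'2
    have h4 := hTr S' hS'1
    -- comparison of the means
    have hsphc : MeromorphicOn (fun z => u z - c) (sphere 0 |r|) := fun z hz =>
      (hsph r h1 h2 z hz).sub (MeromorphicAt.const c z)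
    have h5 : Real.circleAverage (fun z => Real.log ‖u z - c‖) 0 r ≤
        Real.circleAverage (fun z => Real.posLog ‖u z‖) 0 r + (Real.posLog ‖c‖ + Real.log 2) := by
      have h6 : Real.circleAverage (fun z => Real.posLog ‖u z‖ + (Real.posLog ‖c‖ + Real.log 2)) 0 r =
          Real.circleAverage (fun z => Real.posLog ‖u z‖) 0 r +
            (Real.posLog ‖c‖ + Real.log 2) := by
        rw [Real.circleAverage_fun_add (MeromorphicOn.circleIntegrable_posLog_norm (hsph r h1 h2))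
          (circleIntegrable_const _ _ _), Real.circleAverage_const]
      rw [← h6]
      refine Real.circleAverage_mono (MeromorphicOn.circleIntegrable_log_norm hsphc) ?_ ?_
      · exact (MeromorphicOn.circleIntegrable_posLog_norm (hsph r h1 h2)).fun_add
          (circleIntegrable_const _ _ _)
      · intro z _
        have h7 : Real.log ‖u z - c‖ ≤ Real.posLog ‖u z - c‖ := le_max_right _ _
        have h8 := Real.posLog_norm_add_le (u z) (-c)
        rw [norm_neg, ← sub_eq_add_neg] at h8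
        linarith
    -- comparison of the sums
    have h6 : ∑ s ∈ S, Real.posLog (‖s‖ / r) ≤
        ∑ s ∈ S', (ordZ (fun z => u z - c) s : ℝ) * Real.posLog (‖s‖ / r) +
        ∑ s ∈ S', max (-(ordZ u s : ℝ)) 0 * Real.posLog (‖s‖ / r) := by
      rw [← Finset.sum_add_distrib]
      have h7 : ∑ s ∈ S, Real.posLog (‖s‖ / r) ≤
          ∑ s ∈ S', max (ordZ (fun z => u z - c) s : ℝ) 0 * Real.posLog (‖s‖ / r) := by
        refine le_trans (b := ∑ s ∈ S, max (ordZ (fun z => u z - c) s : ℝ) 0 *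
          Real.posLog (‖s‖ / r)) ?_ ?_
        · refine Finset.sum_le_sum fun s hs => ?_
          have h8 : 1 ≤ ordZ (fun z => u z - c) s := by
            have := (hS s hs).2
            omega
          have h9 : (1 : ℝ) ≤ ordZ (fun z => u z - c) s := by exact_mod_cast h8
          have h10 : (1 : ℝ) ≤ max (ordZ (fun z => u z - c) s : ℝ) 0 := le_max_of_le_left h9
          have h11 : 0 ≤ Real.posLog (‖s‖ / r) := Real.posLog_nonneg
          nlinarith
        · refine Finset.sum_le_sum_of_subset_of_nonneg Finset.subset_union_left ?_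
          intro s _ _
          exact mul_nonneg (le_max_right _ _) Real.posLog_nonneg
      refine h7.trans (Finset.sum_le_sum fun s hs => ?_)
      have hs' := hS'1 s hs
      have h8 := neg_ordZ_sub_const_le (hu s hs'.1 (hs'.2.trans hR₁)) (hord s (hsub s hs'.1 hs'.2))
        (hconst c s (hsub s hs'.1 hs'.2))
      rw [← add_mul]
      refine mul_le_mul_of_nonneg_right ?_ Real.posLog_nonneg
      have h9 : max (ordZ (fun z => u z - c) s : ℝ) 0 = ordZ (fun z => u z - c) s +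
          max (-(ordZ (fun z => u z - c) s : ℝ)) 0 := by
        rcases le_total (ordZ (fun z => u z - c) s : ℝ) 0 with h | h
        · rw [max_eq_right h, max_eq_left (by linarith)]
          ring
        · rw [max_eq_left h, max_eq_right (by linarith)]
          ring
      rw [h9]
      linarith
    linarith
  -- the normal form
  set v : ℂ → ℂ := toMeromorphicNFOn u Ω with hv
  have hvNF : MeromorphicNFOn v Ω := meromorphicNFOn_toMeromorphicNFOn u Ω
  have huv : ∀ z ∈ Ω, u =ᶠ[𝓝[≠] z] v := fun z hz =>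
    (hm.toMeromorphicNFOn_eq_self_on_nhdsNE hz).symm
  obtain ⟨ε₁, hε₁, hε₁P⟩ := exists_radius hpoles (fun s hs => hs.1.1)
  have hnonneg : ∀ z, 0 < ‖z‖ → ‖z‖ < min ε₁ R₁ → 0 ≤ meromorphicOrderAt u z := by
    intro z h1 h2
    have h3 : ‖z‖ < ε₁ := h2.trans_le (min_le_left _ _)
    have h4 : ‖z‖ < R₁ := h2.trans_le (min_le_right _ _)
    by_contra h
    push Not at h
    have h5 : ordZ u z < 0 := by
      rw [← ordZ_cast (hord z (hsub z h1 h4))] at h
      exact_mod_cast h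
    exact absurd (hε₁P z ⟨⟨h1, h4⟩, h5⟩) (not_le.mpr h3)
  have hvan : ∀ z, 0 < ‖z‖ → ‖z‖ < min ε₁ R₁ → AnalyticAt ℂ v z := by
    intro z h1 h2
    have hz : z ∈ Ω := hsub z h1 (h2.trans_le (min_le_right _ _))
    rw [← (hvNF hz).meromorphicOrderAt_nonneg_iff_analyticAt, ← meromorphicOrderAt_congr (huv z hz)]
    exact hnonneg z h1 h2
  have hmin : 0 < min ε₁ R₁ := lt_min hε₁ hR₁0
  have hmero : MeromorphicAt v 0 := by
    refine meromorphicAt_of_omits hmin hvan fun c => ?_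
    obtain ⟨δ, hδ, hδP⟩ := exists_radius (hzeros c) (fun s hs => hs.1.1)
    refine ⟨min δ (min ε₁ R₁), lt_min hδ hmin, fun z h1 h2 hzc => ?_⟩
    have h3 : ‖z‖ < δ := h2.trans_le (min_le_left _ _)
    have h4 : ‖z‖ < min ε₁ R₁ := h2.trans_le (min_le_right _ _)
    have h5 : ‖z‖ < R₁ := h4.trans_le (min_le_right _ _)
    have hz : z ∈ Ω := hsub z h1 h5
    have h6 : AnalyticAt ℂ (fun w => v w - c) z := (hvan z h1 h4).sub analyticAt_const
    have h7 : (fun w => u w - c) =ᶠ[𝓝[≠] z] fun w => v w - c := by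
      filter_upwards [huv z hz] with w hw
      rw [hw]
    have h8 : 0 < ordZ (fun w => u w - c) z := by
      have h9 : 0 < meromorphicOrderAt (fun w => u w - c) z := by
        rw [meromorphicOrderAt_congr h7, ← tendsto_zero_iff_meromorphicOrderAt_pos h6.meromorphicAt]
        have h10 := h6.continuousAt.tendsto
        simp only [hzc, sub_self] at h10
        exact h10.mono_left nhdsWithin_le_nhds
      rw [← ordZ_cast (hconst c z hz)] at h9
      exact_mod_cast h9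
    exact absurd (hδP z ⟨⟨h1, h5⟩, h8⟩) (not_le.mpr h3)
  refine ⟨v, hmero, ?_⟩
  filter_upwards [punctured_mem (hR₁0.trans hR₁)] with z hz
  exact huv z hz

theorem punctMero_of_nevT {R₀ R₁ : ℝ} (h1 : 0 < R₁) (h : R₁ < R₀) {u : ℂ → ℂ}
    (hu : MeroPunct R₀ u) {C : ℝ} {E : Set ℝ} (hE : volume E ≠ ⊤)
    (hT : ∀ x, Real.exp (-x) < R₁ → x ∉ E → nevT u R₁ x ≤ C * (1 + |x|)) : PunctMero u := by
  classical
  refine CharMero_core h1 h hu.mero (C := C) (D := C) ?_
  intro r₁ hr₁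
  -- a good radius
  set a : ℝ := max 0 (max (-Real.log r₁) (-Real.log R₁)) with ha
  obtain ⟨x, hxa, hxE⟩ : ∃ x, a < x ∧ x ∉ E := by
    by_contra hcon
    push Not at hcon
    have h2 : Set.Ioi a ⊆ E := fun x hx => hcon x hx
    have h3 := measure_mono (μ := volume) h2
    rw [Real.volume_Ioi] at h3
    exact hE (top_le_iff.mp h3)
  have hx0 : 0 < x := lt_of_le_of_lt (le_max_left _ _) hxa
  have hxr : -Real.log r₁ < x :=
    lt_of_le_of_lt ((le_max_left _ _).trans (le_max_right _ _)) hxa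
  have hxR : -Real.log R₁ < x :=
    lt_of_le_of_lt ((le_max_right _ _).trans (le_max_right _ _)) hxa
  have hr1 : Real.exp (-x) < r₁ := by
    rw [← Real.exp_log hr₁]
    exact Real.exp_lt_exp.mpr (by linarith)
  have hr2 : Real.exp (-x) < R₁ := by
    rw [← Real.exp_log h1]
    exact Real.exp_lt_exp.mpr (by linarith)
  refine ⟨Real.exp (-x), Real.exp_pos _, hr1, hr2, fun S hS => ?_⟩
  have h2 := hT x hr2 hxE
  rw [abs_of_pos hx0] at h2
  rw [Real.log_exp]
  set r : ℝ := Real.exp (-x) with hr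
  have hr0 : 0 < r := Real.exp_pos _
  -- the counting function as a finite sum
  have hfin := finite_ordZ (a := r) (b := R₁) hr0 h hu.mero
  set T : Finset ℂ := hfin.toFinset.filter (fun s => r < ‖s‖ ∧ ‖s‖ < R₁) with hTd
  have hcnt : cnt (fun s => max (-(ordZ u s : ℝ)) 0) R₁ r =
      ∑ s ∈ T, max (-(ordZ u s : ℝ)) 0 * Real.log (‖s‖ / r) := by
    unfold cnt
    refine finsum_mem_eq_sum_of_inter_support_eq _ ?_
    ext s
    simp only [Set.mem_inter_iff, Function.mem_support, Finset.mem_coe, hTd, Finset.mem_filter,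
      Set.Finite.mem_toFinset]
    constructor
    · rintro ⟨⟨h3, h4⟩, h5⟩
      refine ⟨⟨⟨h3.le, h4.le, ?_⟩, h3, h4⟩, h5⟩
      intro h6
      apply h5
      rw [h6]
      simp
    · rintro ⟨⟨_, h3, h4⟩, h5⟩
      exact ⟨⟨h3, h4⟩, h5⟩
  have hle : ∑ s ∈ S, max (-(ordZ u s : ℝ)) 0 * Real.posLog (‖s‖ / r) ≤
      ∑ s ∈ T, max (-(ordZ u s : ℝ)) 0 * Real.log (‖s‖ / r) := by
    have h3 : ∑ s ∈ T, max (-(ordZ u s : ℝ)) 0 * Real.log (‖s‖ / r) =
        ∑ s ∈ T, max (-(ordZ u s : ℝ)) 0 * Real.posLog (‖s‖ / r) := by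
      refine Finset.sum_congr rfl fun s hs => ?_
      have hs' : r < ‖s‖ := (Finset.mem_filter.mp hs).2.1
      have h4 : Real.posLog (‖s‖ / r) = Real.log (‖s‖ / r) := by
        refine max_eq_right (Real.log_nonneg ?_)
        rw [one_le_div hr0]
        exact hs'.le
      rw [h4]
    rw [h3]
    have h4 : ∑ s ∈ T, max (-(ordZ u s : ℝ)) 0 * Real.posLog (‖s‖ / r) =
        ∑ s ∈ S ∪ T, max (-(ordZ u s : ℝ)) 0 * Real.posLog (‖s‖ / r) := by
      refine Finset.sum_subset Finset.subset_union_right ?_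
      intro s hs hsT
      have hsS : s ∈ S := by
        rcases Finset.mem_union.mp hs with h5 | h5
        · exact h5
        · exact absurd h5 hsT
      have hsn := hS s hsS
      by_cases h5 : r < ‖s‖
      · have h6 : ordZ u s = 0 := by
          by_contra h6
          apply hsT
          rw [hTd, Finset.mem_filter, hfin.mem_toFinset]
          exact ⟨⟨h5.le, hsn.2.le, h6⟩, h5, hsn.2⟩
        rw [h6]
        simp
      · have h6 : Real.posLog (‖s‖ / r) = 0 := by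
          rw [Real.posLog_eq_zero_iff, abs_of_nonneg (by positivity), div_le_one hr0]
          exact not_lt.mp h5
        rw [h6, mul_zero]
    rw [h4]
    exact Finset.sum_le_sum_of_subset_of_nonneg Finset.subset_union_left
      fun s _ _ => mul_nonneg (le_max_right _ _) Real.posLog_nonneg
  have h3 : nevT u R₁ x = Real.circleAverage (fun z => Real.posLog ‖u z‖) 0 r +
      cnt (fun s => max (-(ordZ u s : ℝ)) 0) R₁ r := rfl
  rw [h3, hcnt] at h2
  linarith

end Pool.Agent.H62.FC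

end
end

section

/-!
# G3 X FrmA: frames along the slab

Port of `TG/Y/Frm.lean`: `p + z • e` becomes `ar κ g z`, `a • e` becomes `a • deriv (ar κ g) (wa x)`, `fr κ c z` becomes `fr κ (cg g) z`, `dt κ e c` becomes `dta κ g`.
`La.tan`: `υ z = ar κ g (W (γ z))`.
`La.frame_coord`: case `wa x₀ ≠ 0`: as there (`L.off`, `L.kp.sub`, straight chart).  Case `wa x₀ = 0`: the normal crossing chart `χ, r, a, b` from `L.nc x₀` (no centering: `χ.q x₀` is an arbitrary point of `ball 0 2`), `lam x j = r⁻¹ • Pi.single j.succ.succ 1`; for `x ∈ Ya` in `χ.U`: `κ (nm a b (r • χ.q x)) - κ (cg g (wa x)) ∈ Λ`,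
both arguments are in `ball 0 R`, so `nm a b (r • χ.q x) = cg g (wa x)` (`Kp.inj`); `Frm_nm_fderiv` etc. are private in `Frm.lean`: copy them.
-/

set_option autoImplicit false

open Topology Filter Metric

namespace Pool.Agent.GX

open Pool.Agent.H36.BP (EN fs wd)
open Pool.Agent.H14.PP (IsCone CurveAt Tan)
open Pool.Agent.H62.EF (MN pr)
open Pool.Agent.AD (Vd Chart Charts IsGerm)
open Pool.Agent.TG (TMap Lat tl nm IsStr IsNC IsCoord Geo VForm ms Str IsPrim Cap IRel II TransAt Gd Cst DV tc)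

variable {N k : ℕ}

variable {X : Set (EN N)} {Λ : AddSubgroup (Vd (k + 1))} {u : EN N → Vd (k + 1)} {D B : Set (Vd (k + 1))}
  {κ ψ : Vd (k + 1) → Vd (k + 1)} {R : ℝ} {g : ℂ → Fin k → ℂ} {Γ₀ : AddSubgroup ℂ} {s : ℝ}

/-- tail of a vector -/
theorem FrmA_tl_cons (a : ℂ) (v : Vd (k + 1)) : tl (Fin.cons a v : Vd (k + 2)) = v := rfl

theorem FrmA_ms_fderiv (y : Vd (k + 1)) (ρ : ℝ) (q w : Vd (k + 2)) : HasFDerivAt (ms y ρ) (fderiv ℂ (ms y ρ) q) q ∧ AnalyticAt ℂ (ms y ρ) q ∧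
    fderiv ℂ (ms y ρ) q w = (ρ : ℂ) • tl w := by
  have h1 : AnalyticAt ℂ (ms y ρ) q := by
    rw [show ms y ρ = fun p : Vd (k + 2) => fun i : Fin (k + 1) => y i + (ρ : ℂ) * p i.succ from rfl, analyticAt_pi_iff]
    intro i
    have h2 : AnalyticAt ℂ (fun p : Vd (k + 2) => p i.succ) q :=
      (ContinuousLinearMap.proj (R := ℂ) (φ := fun _ : Fin (k + 2) => ℂ) i.succ).analyticAt _
    exact analyticAt_const.add (analyticAt_const.mul h2)
  refine ⟨h1.differentiableAt.hasFDerivAt, h1, ?_⟩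
  have h2 : HasDerivAt (fun t : ℂ => ms y ρ (q + t • w)) (fderiv ℂ (ms y ρ) q w) 0 := by
    have h3 : HasDerivAt (fun t : ℂ => q + t • w) w 0 := by
      have h4 : HasDerivAt (fun z : ℂ => z • w) ((1 : ℂ) • w) 0 := (hasDerivAt_id (0 : ℂ)).smul_const w
      rw [one_smul] at h4
      exact h4.const_add q
    have h5 : HasFDerivAt (ms y ρ) (fderiv ℂ (ms y ρ) q) (q + (0 : ℂ) • w) := by
      rw [zero_smul, add_zero]; exact h1.differentiableAt.hasFDerivAt
    exact h5.comp_hasDerivAt (0 : ℂ) h3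
  have h3 : HasDerivAt (fun t : ℂ => ms y ρ (q + t • w)) ((ρ : ℂ) • tl w) 0 := by
    have h4 : (fun t : ℂ => ms y ρ (q + t • w)) = fun t : ℂ => ms y ρ q + t • ((ρ : ℂ) • tl w) := by
      funext t i
      simp only [ms, tl, Pi.add_apply, Pi.smul_apply, smul_eq_mul]
      ring
    rw [h4]
    have h5 : HasDerivAt (fun t : ℂ => t • ((ρ : ℂ) • tl w)) ((1 : ℂ) • ((ρ : ℂ) • tl w)) 0 := (hasDerivAt_id (0 : ℂ)).smul_const _
    rw [one_smul] at h5
    exact h5.const_add _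
  exact h2.unique h3

private theorem FrmA_nm (a b : ℕ) (q : Vd (k + 2)) (t : ℂ) (j : Fin k) :
    nm a b (q + t • (Pi.single j.succ.succ 1 : Vd (k + 2))) = nm a b q + t • (Pi.single j.succ 1 : Vd (k + 1)) := by
  funext i
  refine Fin.cases ?_ (fun i => ?_) i
  · have h0 : (Pi.single j.succ.succ 1 : Vd (k + 2)) 0 = 0 := Pi.single_eq_of_ne (Fin.succ_ne_zero _).symm _
    have h1 : (Pi.single j.succ.succ 1 : Vd (k + 2)) 1 = 0 := by
      apply Pi.single_eq_of_ne
      intro h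
      have h' := congrArg Fin.val h
      simp at h'
    have h2 : (Pi.single j.succ 1 : Vd (k + 1)) 0 = 0 := Pi.single_eq_of_ne (Fin.succ_ne_zero _).symm _
    simp only [nm, Fin.cons_zero, Pi.add_apply, Pi.smul_apply, h0, h1, h2, smul_zero, add_zero]
  · simp only [nm, Fin.cons_succ, Pi.add_apply, Pi.smul_apply, smul_eq_mul]
    congr 2
    by_cases h : i = j
    · subst h; simp
    · rw [Pi.single_eq_of_ne, Pi.single_eq_of_ne]
      · exact fun h' => h (Fin.succ_injective _ h')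
      · exact fun h' => h (Fin.succ_injective _ (Fin.succ_injective _ h'))

private theorem FrmA_nm_an (a b : ℕ) (q : Vd (k + 2)) : AnalyticAt ℂ (nm a b : Vd (k + 2) → Vd (k + 1)) q := by
  have h : ∀ i : Fin (k + 2), AnalyticAt ℂ (fun p : Vd (k + 2) => p i) q := fun i =>
    (ContinuousLinearMap.proj (R := ℂ) (φ := fun _ : Fin (k + 2) => ℂ) i).analyticAt _
  rw [show (nm a b : Vd (k + 2) → Vd (k + 1)) = fun p i => nm a b p i from rfl, analyticAt_pi_iff]
  intro i
  refine Fin.cases ?_ (fun i => ?_) i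
  · exact ((h 0).pow a).mul ((h 1).pow b)
  · exact h i.succ.succ

/-- the coordinates of `κ (nm a b (r • q))` -/
theorem FrmA_nm_fderiv {κ : Vd (k + 1) → Vd (k + 1)} {a b : ℕ} {r : ℂ} (hr : r ≠ 0) {q : Vd (k + 2)} (hκ : AnalyticAt ℂ κ (nm a b (r • q))) (j : Fin k) :
    AnalyticAt ℂ (fun q => κ (nm a b (r • q))) q ∧
    fderiv ℂ (fun q => κ (nm a b (r • q))) q (r⁻¹ • Pi.single j.succ.succ 1) = fderiv ℂ κ (nm a b (r • q)) (Pi.single j.succ 1) := by
  have h0 : AnalyticAt ℂ (fun q : Vd (k + 2) => r • q) q := analyticAt_const.fun_smul analyticAt_id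
  have h1 : AnalyticAt ℂ (fun q : Vd (k + 2) => nm a b (r • q)) q := AnalyticAt.comp (g := nm a b) (f := fun q : Vd (k + 2) => r • q) (FrmA_nm_an a b _) h0
  have h2 : AnalyticAt ℂ (fun q => κ (nm a b (r • q))) q := AnalyticAt.comp (g := κ) (f := fun q : Vd (k + 2) => nm a b (r • q)) hκ h1
  refine ⟨h2, ?_⟩
  set w : Vd (k + 2) := r⁻¹ • Pi.single j.succ.succ 1 with hw
  have h3 : HasDerivAt (fun t : ℂ => κ (nm a b (r • (q + t • w)))) (fderiv ℂ (fun q => κ (nm a b (r • q))) q w) 0 := by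
    have h3 : HasDerivAt (fun t : ℂ => q + t • w) w 0 := by
      have h4 : HasDerivAt (fun z : ℂ => z • w) ((1 : ℂ) • w) 0 := (hasDerivAt_id (0 : ℂ)).smul_const w
      rw [one_smul] at h4
      exact h4.const_add q
    have h5 : HasFDerivAt (fun q => κ (nm a b (r • q))) (fderiv ℂ (fun q => κ (nm a b (r • q))) q) (q + (0 : ℂ) • w) := by
      rw [zero_smul, add_zero]; exact h2.differentiableAt.hasFDerivAt
    exact h5.comp_hasDerivAt (0 : ℂ) h3
  have h4 : HasDerivAt (fun t : ℂ => κ (nm a b (r • (q + t • w)))) (fderiv ℂ κ (nm a b (r • q)) (Pi.single j.succ 1)) 0 := by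
    have e1 : (fun t : ℂ => κ (nm a b (r • (q + t • w)))) = fun t : ℂ => κ (nm a b (r • q) + t • (Pi.single j.succ 1 : Vd (k + 1))) := by
      funext t
      rw [← FrmA_nm, hw, smul_add, smul_comm r t, smul_smul r r⁻¹, mul_inv_cancel₀ hr, one_smul]
    rw [e1]
    have h6 : HasDerivAt (fun t : ℂ => nm a b (r • q) + t • (Pi.single j.succ 1 : Vd (k + 1))) (Pi.single j.succ 1) 0 := by
      have h4 : HasDerivAt (fun z : ℂ => z • (Pi.single j.succ 1 : Vd (k + 1))) ((1 : ℂ) • (Pi.single j.succ 1 : Vd (k + 1))) 0 := (hasDerivAt_id (0 : ℂ)).smul_const _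
      rw [one_smul] at h4
      exact h4.const_add _
    have h7 : HasFDerivAt κ (fderiv ℂ κ (nm a b (r • q))) (nm a b (r • q) + (0 : ℂ) • (Pi.single j.succ 1 : Vd (k + 1))) := by
      rw [zero_smul, add_zero]; exact hκ.differentiableAt.hasFDerivAt
    exact h7.comp_hasDerivAt (0 : ℂ) h6
  exact h3.unique h4

theorem FrmA_nm_mem {a b : ℕ} {r R : ℝ} (hr : 0 < r) (hlt : 2 * r < R) (hrng : (2 * r) ^ (a + b) < R) {q : Vd (k + 2)}
    (hq : q ∈ ball (0 : Vd (k + 2)) 2) : (nm a b ((r : ℂ) • q) : Vd (k + 1)) ∈ ball (0 : Vd (k + 1)) R := by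
  have hR : 0 < R := lt_trans (by positivity) hlt
  have hq' : ‖q‖ < 2 := mem_ball_zero_iff.1 hq
  have hc : ∀ i, ‖((r : ℂ) • q) i‖ < 2 * r := by
    intro i
    rw [Pi.smul_apply, norm_smul, Complex.norm_real, Real.norm_of_nonneg hr.le, mul_comm]
    exact mul_lt_mul_of_pos_right (lt_of_le_of_lt (norm_le_pi_norm q i) hq') hr
  rw [mem_ball_zero_iff, pi_norm_lt_iff hR]
  intro i
  refine Fin.cases ?_ (fun i => ?_) i
  · show ‖((r : ℂ) • q) 0 ^ a * ((r : ℂ) • q) 1 ^ b‖ < R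
    refine lt_of_le_of_lt ?_ hrng
    rw [norm_mul, norm_pow, norm_pow, pow_add]
    exact mul_le_mul (pow_le_pow_left₀ (norm_nonneg _) (hc 0).le a) (pow_le_pow_left₀ (norm_nonneg _) (hc 1).le b) (by positivity) (by positivity)
  · show ‖((r : ℂ) • q) i.succ.succ‖ < R
    exact (hc _).trans hlt

end Pool.Agent.GX

end
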