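import Pool.Agent.H94.G5T.M10
import Pool.Agent.H94.G5T.M11
import Pool.Agent.H94.G5T.M13

/-! The parts of this file: TG.Y.Dv, TG.Y.Frm. -/

section

/-!
# TG Y Dv: tangent vectors and derivatives of `u` in charts

`exists_lift_chart`: `x = a • χ.σ q₀`, `q₀ = χ.q x` (`Chart.surj`); `v` a local lift of `u` at `χ.σ q₀` (`TMap.loc`), `υ q = v (χ.σ q) + const` (`u (χ.σ q₀) - y ∈ Λ` by `TMap.smul`).
`exists_tan`: `w = a • fderiv χ.σ q₀ w'` (`tan_sigma`, homogeneity: `Tan X x v → Tan X (a • x) (a • v)`; `fderiv_q_smul`, `fderiv_sigma` of `AD/ChartBasic`).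
`dv_iff`: `→`: let `γ, υ'` be from `DV`: `q (γ z)` is analytic at `0`, `γ z = a z • χ.σ (q (γ z))` (`AD.Chart.curve`), `υ' z - υ (χ.q (γ z)) ∈ Λ` near `0`, continuous, so constant near `0` (`Lat.disc`); differentiate: `deriv υ' 0 = fderiv υ q₀ (fderiv χ.q x w)`.
`←`: `γ` from `Tan`, `υ' z = υ (χ.q (γ z))`.
`det_indep`: `K = {v : A v ∈ ℂ e}` has dimension `2`: `det (e, E) ≠ 0`, so `e, E_j` is a basis of `ℂ^(k+1)`, the `E_j` are in the range of `A`: the map `v ↦ A v mod ℂ e` is onto `ℂ^(k+1) / ℂ e` of dimension `k`, `K` is its kernel, of dimension `(k + 2) - k = 2` (rank-nullity).  If `v, w` are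
linearly dependent both determinants are `0` (`Matrix.det_zero_of_row_eq` or linear dependence of rows).  Otherwise `K = span (v, w)`, `ℓ' j - ℓ j ∈ K` (`A (ℓ' j - ℓ j) = 0`), `ℓ' j = ℓ j + a_j v + b_j w`: the matrix with rows `v, w, ℓ'` is `U` times the one with rows `v, w, ℓ`, `U` lower
triangular with diagonal `1` (`Matrix.det_of_lowerTriangular`) or use `Matrix.det_updateRow_add_smul_self` repeatedly.
-/

set_option autoImplicit false

open Topology Filter Metric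

namespace Pool.Agent.TG

open Pool.Agent.H36.BP (EN fs wd)
open Pool.Agent.H14.PP (IsCone CurveAt Tan)
open Pool.Agent.H62.EF (MN pr)
open Pool.Agent.AD (Vd Chart Charts IsGerm)

variable {N k : ℕ}

variable {X : Set (EN N)} {Λ : AddSubgroup (Vd (k + 1))} {u : EN N → Vd (k + 1)}

theorem DV.tan {x w : EN N} {E : Vd (k + 1)} (h : DV X Λ u x w E) : Tan X x w := by
  obtain ⟨γ, υ, h1, h2, h3, -⟩ := h
  exact ⟨γ, h1, h2, h3⟩

theorem DV.smul_pt (hX : IsCone X) (hu : TMap X Λ u) {x w : EN N} {E : Vd (k + 1)} (h : DV X Λ u x w E) {a : ℂ} (ha : a ≠ 0) :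
    DV X Λ u (a • x) (a • w) E := by
  obtain ⟨γ, υ, h1, h2, h3, h4, h5, h6⟩ := h
  refine ⟨fun z => a • γ z, υ, ⟨AnalyticAt.fun_smul analyticAt_const h1.1, ?_⟩, ?_, ?_, h4, ?_, h6⟩
  · filter_upwards [h1.2] with z hz
    exact hX.smul_mem _ hz a ha
  · show a • γ 0 = a • x
    rw [h2]
  · have h7 : HasDerivAt (fun z => a • γ z) (a • deriv γ 0) 0 := h1.1.differentiableAt.hasDerivAt.const_smul a
    rw [h7.deriv, h3]
  · filter_upwards [h1.2, h5] with z hz hz5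
    exact smul_mem_lat hu hz hz5 ha

theorem exists_lift_chart (hX : IsCone X) (hu : TMap X Λ u) (χ : Chart (k + 2) X) {x : EN N} (hx : x ∈ X) (hU : x ∈ χ.U) {y : Vd (k + 1)}
    (hy : u x - y ∈ Λ) : ∃ υ : Vd (k + 2) → Vd (k + 1), AnalyticAt ℂ υ (χ.q x) ∧ υ (χ.q x) = y ∧ ∀ᶠ q in 𝓝 (χ.q x), u (χ.σ q) - υ q ∈ Λ := by
  obtain ⟨hb, c, hc, hcx⟩ := χ.surj x hx hU
  have hσX : χ.σ (χ.q x) ∈ X := (χ.σ_mem _ hb).1
  have h1 : u (χ.σ (χ.q x)) - y ∈ Λ := by
    have h2 : u (c • χ.σ (χ.q x)) - u (χ.σ (χ.q x)) ∈ Λ := hu.smul _ hσX c hc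
    rw [← hcx] at h2
    have h3 := Λ.sub_mem hy h2
    have e : u x - y - (u x - u (χ.σ (χ.q x))) = u (χ.σ (χ.q x)) - y := by abel
    rwa [e] at h3
  obtain ⟨v, hv, hvl⟩ := hu.loc _ hσX
  have h4 : u (χ.σ (χ.q x)) - v (χ.σ (χ.q x)) ∈ Λ := hvl.self_of_nhds hσX
  have hσa : AnalyticAt ℂ χ.σ (χ.q x) := χ.σ_an _ hb
  refine ⟨fun q => v (χ.σ q) + (y - v (χ.σ (χ.q x))), ?_, ?_, ?_⟩
  · exact (AnalyticAt.fun_comp hv hσa).add analyticAt_const
  · show v (χ.σ (χ.q x)) + (y - v (χ.σ (χ.q x))) = y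
    abel
  · have h5 : Tendsto χ.σ (𝓝 (χ.q x)) (𝓝 (χ.σ (χ.q x))) := hσa.continuousAt
    filter_upwards [h5.eventually hvl, isOpen_ball.mem_nhds hb] with q hq hqb
    have h6 := hq (χ.σ_mem q hqb).1
    have h7 : y - v (χ.σ (χ.q x)) ∈ Λ := by
      have h8 := Λ.sub_mem h4 h1
      have e : u (χ.σ (χ.q x)) - v (χ.σ (χ.q x)) - (u (χ.σ (χ.q x)) - y) = y - v (χ.σ (χ.q x)) := by abel
      rwa [e] at h8
    have h9 := Λ.sub_mem h6 h7
    have e : u (χ.σ q) - v (χ.σ q) - (y - v (χ.σ (χ.q x))) = u (χ.σ q) - (v (χ.σ q) + (y - v (χ.σ (χ.q x)))) := by abel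
    rwa [e] at h9

theorem exists_tan (hX : IsCone X) (χ : Chart (k + 2) X) {x : EN N} (hx : x ∈ X) (hU : x ∈ χ.U) (w' : Vd (k + 2)) :
    ∃ w : EN N, Tan X x w ∧ fderiv ℂ χ.q x w = w' := by
  obtain ⟨hb, c, hc, hcx⟩ := χ.surj x hx hU
  obtain ⟨F, hF, hF0, hFd⟩ := tan_sigma χ hb w'
  have hm := χ.σ_mem _ hb
  refine ⟨c • fderiv ℂ χ.σ (χ.q x) w', ⟨fun z => c • F z, ⟨AnalyticAt.fun_smul analyticAt_const hF.1, ?_⟩, ?_, ?_⟩, ?_⟩
  · filter_upwards [hF.2] with z hz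
    exact hX.smul_mem _ hz c hc
  · show c • F 0 = x
    rw [hF0, ← hcx]
  · have h1 : HasDerivAt (fun z => c • F z) (c • deriv F 0) 0 :=
      hF.1.differentiableAt.hasDerivAt.const_smul c
    rw [h1.deriv, hFd]
  · have h1 := χ.fderiv_q_smul hm.2.1 (fderiv ℂ χ.σ (χ.q x) w') hc 0
    rw [zero_smul, add_zero, ← hcx] at h1
    rw [h1]
    exact χ.fderiv_sigma hb w'

/-- two analytic lifts which agree modulo a lattice differ by a constant -/
private theorem Dv_const (hΛ : Lat Λ) {f g : ℂ → Vd (k + 1)} (hf : ContinuousAt f 0) (hg : ContinuousAt g 0)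
    (h : ∀ᶠ z in 𝓝 (0 : ℂ), f z - g z ∈ Λ) : ∀ᶠ z in 𝓝 (0 : ℂ), f z - g z = f 0 - g 0 := by
  obtain ⟨δ, hδ, hd⟩ := hΛ.disc
  have h0 : f 0 - g 0 ∈ Λ := h.self_of_nhds
  have hc : ContinuousAt (fun z => (f z - g z) - (f 0 - g 0)) 0 := (hf.sub hg).sub continuousAt_const
  have h1 : ∀ᶠ z in 𝓝 (0 : ℂ), ‖(f z - g z) - (f 0 - g 0)‖ < δ := by
    apply hc.norm.eventually_lt_const
    simpa using hδ
  filter_upwards [h, h1] with z hz hz1
  exact sub_eq_zero.1 (hd _ (Λ.sub_mem hz h0) hz1)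

theorem dv_iff (hX : IsCone X) (hu : TMap X Λ u) (hΛ : Lat Λ) (χ : Chart (k + 2) X) {x : EN N} (hx : x ∈ X) (hU : x ∈ χ.U)
    {υ : Vd (k + 2) → Vd (k + 1)} (hυ : AnalyticAt ℂ υ (χ.q x)) (hl : ∀ᶠ q in 𝓝 (χ.q x), u (χ.σ q) - υ q ∈ Λ) {w : EN N} {E : Vd (k + 1)} :
    DV X Λ u x w E ↔ Tan X x w ∧ fderiv ℂ υ (χ.q x) (fderiv ℂ χ.q x w) = E := by
  -- along a curve
  have key : ∀ γ : ℂ → EN N, CurveAt X γ 0 → γ 0 = x → AnalyticAt ℂ (fun z => υ (χ.q (γ z))) 0 ∧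
      HasDerivAt (fun z => υ (χ.q (γ z))) (fderiv ℂ υ (χ.q x) (fderiv ℂ χ.q x (deriv γ 0))) 0 ∧
      ∀ᶠ z in 𝓝 (0 : ℂ), u (γ z) - υ (χ.q (γ z)) ∈ Λ := by
    intro γ hγ hγ0
    have hU' : γ 0 ∈ χ.U := by rw [hγ0]; exact hU
    obtain ⟨h1, h1d, c, hc, hc0, hev⟩ := χ.curve hX hγ hU'
    have hυ' : AnalyticAt ℂ υ (χ.q (γ 0)) := by rw [hγ0]; exact hυ
    refine ⟨AnalyticAt.fun_comp hυ' h1, ?_, ?_⟩
    · have h2 : HasDerivAt (fun z => χ.q (γ z)) (fderiv ℂ χ.q x (deriv γ 0)) 0 := by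
        have h3 := h1.differentiableAt.hasDerivAt
        rw [h1d, hγ0] at h3
        exact h3
      have h4 : HasFDerivAt υ (fderiv ℂ υ (χ.q x)) (χ.q (γ 0)) := by
        rw [hγ0]; exact hυ.differentiableAt.hasFDerivAt
      exact h4.comp_hasDerivAt (0 : ℂ) h2
    · have h5 : Tendsto (fun z => χ.q (γ z)) (𝓝 0) (𝓝 (χ.q x)) := by
        have h6 := h1.continuousAt.tendsto
        simpa only [hγ0] using h6
      have hcne : ∀ᶠ z in 𝓝 (0 : ℂ), c z ≠ 0 := hc.continuousAt.eventually_ne hc0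
      filter_upwards [h5.eventually hl, hev, hcne] with z hz hz2 hz3
      have h7 := smul_mem_lat hu (χ.σ_mem _ hz2.1).1 hz hz3
      rwa [← hz2.2] at h7
  constructor
  · rintro ⟨γ, υ', h1, h2, h3, h4, h5, h6⟩
    refine ⟨⟨γ, h1, h2, h3⟩, ?_⟩
    obtain ⟨k1, k2, k3⟩ := key γ h1 h2
    have h7 : ∀ᶠ z in 𝓝 (0 : ℂ), υ' z - υ (χ.q (γ z)) ∈ Λ := by
      filter_upwards [h5, k3] with z hz hz3
      have h8 := Λ.sub_mem hz3 hz
      have e : u (γ z) - υ (χ.q (γ z)) - (u (γ z) - υ' z) = υ' z - υ (χ.q (γ z)) := by abel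
      rwa [e] at h8
    have h9 := Dv_const hΛ h4.continuousAt k1.continuousAt h7
    have h10 : HasDerivAt υ' (fderiv ℂ υ (χ.q x) (fderiv ℂ χ.q x (deriv γ 0))) 0 := by
      have h11 := k2.add_const (υ' 0 - υ (χ.q (γ 0)))
      refine h11.congr_of_eventuallyEq ?_
      filter_upwards [h9] with z hz
      rw [← hz]
      abel
    rw [← h6, h10.deriv, h3]
  · rintro ⟨⟨γ, h1, h2, h3⟩, h4⟩
    obtain ⟨k1, k2, k3⟩ := key γ h1 h2
    refine ⟨γ, fun z => υ (χ.q (γ z)), h1, h2, h3, k1, k3, ?_⟩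
    rw [k2.deriv, h3, h4]

private theorem Dv_rows_ne {v w : Vd (k + 2)} {ℓ : Fin k → Vd (k + 2)}
    (h : (Matrix.of fun i j => (Fin.cons v (Fin.cons w ℓ) : Fin (k + 2) → Vd (k + 2)) i j).det ≠ 0) : LinearIndependent ℂ ![v, w] := by
  have h1 := Matrix.linearIndependent_rows_of_det_ne_zero h
  have h2 := h1.comp (![0, 1] : Fin 2 → Fin (k + 2)) (by
    intro i j hij
    fin_cases i <;> fin_cases j <;> simp_all)
  have e : ((fun i => Matrix.of (fun i j => (Fin.cons v (Fin.cons w ℓ) : Fin (k + 2) → Vd (k + 2)) i j) i) ∘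
      (![0, 1] : Fin 2 → Fin (k + 2))) = ![v, w] := by
    funext i
    fin_cases i <;> rfl
  exact e ▸ h2

private theorem Dv_span {A : Vd (k + 2) →ₗ[ℂ] Vd (k + 1)} {e : Vd (k + 1)} {E : Fin k → Vd (k + 1)}
    (hE : (Matrix.of fun i j => (Fin.cons e E : Fin (k + 1) → Vd (k + 1)) i j).det ≠ 0) {v w : Vd (k + 2)} {a b : ℂ} (hv : A v = a • e)
    (hw : A w = b • e) {ℓ : Fin k → Vd (k + 2)} (hℓ : ∀ j, A (ℓ j) = E j) (hvw : LinearIndependent ℂ ![v, w]) {x : Vd (k + 2)} (hx : A x = 0) :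
    ∃ c d : ℂ, x = c • v + d • w := by
  by_contra hne
  have h1 := Matrix.linearIndependent_rows_of_det_ne_zero hE
  rw [Fintype.linearIndependent_iff] at h1
  rw [LinearIndependent.pair_iff] at hvw
  have h2 : LinearIndependent ℂ (Sum.elim ![x, v, w] ℓ : Fin 3 ⊕ Fin k → Vd (k + 2)) := by
    rw [Fintype.linearIndependent_iff]
    intro g hg
    rw [Fintype.sum_sum_type] at hg
    simp only [Sum.elim_inl, Sum.elim_inr, Fin.sum_univ_three] at hg
    have hg' : g (Sum.inl 0) • x + g (Sum.inl 1) • v + g (Sum.inl 2) • w + ∑ j, g (Sum.inr j) • ℓ j = 0 := hg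
    have h3 := congrArg A hg'
    simp only [map_add, map_smul, map_sum, hx, hv, hw, hℓ, map_zero, smul_zero, zero_add] at h3
    have h4 := h1 (Fin.cons (g (Sum.inl 1) * a + g (Sum.inl 2) * b) fun j => g (Sum.inr j)) (by
      rw [Fin.sum_univ_succ]
      simp only [Fin.cons_zero, Fin.cons_succ]
      rw [← h3, add_smul, smul_smul, smul_smul]
      rfl)
    have h7 : ∀ j, g (Sum.inr j) = 0 := fun j => h4 j.succ
    simp only [h7, zero_smul, Finset.sum_const_zero, add_zero] at hg'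
    have h8 : g (Sum.inl 0) = 0 := by
      by_contra h9
      apply hne
      refine ⟨-(g (Sum.inl 0))⁻¹ * g (Sum.inl 1), -(g (Sum.inl 0))⁻¹ * g (Sum.inl 2), ?_⟩
      have h10 : g (Sum.inl 0) • x = -(g (Sum.inl 1) • v + g (Sum.inl 2) • w) := by
        rw [eq_neg_iff_add_eq_zero, ← add_assoc]; exact hg'
      have h11 : x = (g (Sum.inl 0))⁻¹ • (g (Sum.inl 0) • x) := by
        rw [smul_smul, inv_mul_cancel₀ h9, one_smul]
      rw [h11, h10, smul_neg, smul_add, smul_smul, smul_smul, neg_mul, neg_mul, neg_smul, neg_smul, neg_add]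
    rw [h8, zero_smul, zero_add] at hg'
    have h12 := hvw _ _ hg'
    rintro (i | j)
    · fin_cases i
      · exact h8
      · exact h12.1
      · exact h12.2
    · exact h7 j
  have h3 := h2.fintype_card_le_finrank
  simp at h3
  omega

theorem det_indep {A : Vd (k + 2) →ₗ[ℂ] Vd (k + 1)} {e : Vd (k + 1)} {E : Fin k → Vd (k + 1)}
    (hE : (Matrix.of fun i j => (Fin.cons e E : Fin (k + 1) → Vd (k + 1)) i j).det ≠ 0) {v w : Vd (k + 2)} {a b : ℂ} (hv : A v = a • e)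
    (hw : A w = b • e) {ℓ ℓ' : Fin k → Vd (k + 2)} (hℓ : ∀ j, A (ℓ j) = E j) (hℓ' : ∀ j, A (ℓ' j) = E j) :
    (Matrix.of fun i j => (Fin.cons v (Fin.cons w ℓ) : Fin (k + 2) → Vd (k + 2)) i j).det =
      (Matrix.of fun i j => (Fin.cons v (Fin.cons w ℓ') : Fin (k + 2) → Vd (k + 2)) i j).det := by
  by_cases hli : LinearIndependent ℂ ![v, w]
  · have h1 : ∀ j, ∃ c d : ℂ, ℓ j - ℓ' j = c • v + d • w := fun j =>
      Dv_span hE hv hw hℓ hli (by rw [map_sub, hℓ, hℓ', sub_self])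
    choose c d hcd using h1
    have h2 : ∀ j, ℓ j = ℓ' j + c j • v + d j • w := by
      intro j
      rw [add_assoc, ← hcd j]
      abel
    have e1 : (Matrix.of fun i j => (Fin.cons v (Fin.cons w fun j => ℓ' j + c j • v) : Fin (k + 2) → Vd (k + 2)) i j).det =
        (Matrix.of fun i j => (Fin.cons v (Fin.cons w ℓ') : Fin (k + 2) → Vd (k + 2)) i j).det := by
      refine Matrix.det_eq_of_forall_row_eq_smul_add_const (Fin.cons 0 (Fin.cons 0 c)) 0 rfl ?_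
      intro i j
      refine Fin.cases ?_ (fun i => ?_) i
      · simp
      · refine Fin.cases ?_ (fun i => ?_) i
        · simp
        · simp [Matrix.of_apply]
    have e2 : (Matrix.of fun i j => (Fin.cons v (Fin.cons w ℓ) : Fin (k + 2) → Vd (k + 2)) i j).det =
        (Matrix.of fun i j => (Fin.cons v (Fin.cons w fun j => ℓ' j + c j • v) : Fin (k + 2) → Vd (k + 2)) i j).det := by
      refine Matrix.det_eq_of_forall_row_eq_smul_add_const (Fin.cons 0 (Fin.cons 0 d)) 1 rfl ?_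
      intro i j
      refine Fin.cases ?_ (fun i => ?_) i
      · simp
      · refine Fin.cases ?_ (fun i => ?_) i
        · simp
        · have h3 := congrFun (h2 i) j
          have h4 : (Matrix.of fun i j => (Fin.cons v (Fin.cons w fun j => ℓ' j + c j • v) : Fin (k + 2) → Vd (k + 2)) i j) 1 j = w j := rfl
          rw [h4]
          simp only [Matrix.of_apply, Fin.cons_succ]
          rw [h3]
          simp
    rw [e2, e1]
  · have z : ∀ ℓ : Fin k → Vd (k + 2), (Matrix.of fun i j => (Fin.cons v (Fin.cons w ℓ) : Fin (k + 2) → Vd (k + 2)) i j).det = 0 := by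
      intro ℓ
      by_contra h
      exact hli (Dv_rows_ne h)
    rw [z, z]
end Pool.Agent.TG

end

section

/-!
# TG Y Frm: frames along the slab

`Ln.tan`: let `γ` be a curve in `Y` near `0` with `γ 0 = x`, `γ' 0 = v`; `wl ∘ γ` is analytic at `0` (`Ln.exists_loc`), `u (γ z) - (p + wl (γ z) • e) ∈ Λ` (`Ln.wl_spec`): `υ z = p + wl (γ z) • e`, `a = deriv (wl ∘ γ) 0`.

`Ln.frame_coord`: let `z₀ = wl x₀`.
Case `z₀ ≠ 0`: `y₀ = p + z₀ • e ∉ D` (`L.off`), `x₀` is `IsStr` (`L.sub`): a straight chart `χ` (`exists_str_chart`), `u (χ.σ q) - ms y₀ ρ q ∈ Λ`; `lam x j = cons 0 ((ρ : ℂ)⁻¹ • fr κ c (W x) j)` with `W` from `Ln.exists_loc` (`fr κ c z` is analytic in `z` near `z₀` if `‖z₀‖ ≤ s`: `L.κ_an`,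
`L.c_an`, `fderiv` of an analytic function).  `dv_iff` with `υ = ms y₀ ρ`, `fderiv υ q w' = ρ • tl w'`.
Case `z₀ = 0`: `L.nc x₀` gives a germ `σ, τ` with `u (σ q) - κ (nm a b q) ∈ Λ` near `0`; `χ` from `exists_small_chart` (`χ.σ q = a' • σ (r • q)`), `u (χ.σ q) - κ (nm a b (r • q)) ∈ Λ`.  `lam x j = (r : ℂ)⁻¹ • Pi.single j.succ.succ 1` (constant).  For `x ∈ Y` near `x₀`, `q = χ.q x` near `0`:
`υ q = κ (nm a b (r • q))` has `fderiv υ q (lam j) = fderiv κ (nm a b (r • q)) (Pi.single j.succ 1)`, and `nm a b (r • q) = c (wl x)`: `κ (nm a b (r • q)) - (p + wl x • e) ∈ Λ` is `0` (`L.small`: the norm is `≤ small + s ‖e‖`), so `wl x • e` is small, `wl x` is small,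
`κ (nm ..) = κ (c (wl x))` and `κ` is injective near `0` (`fderiv κ 0` is injective by `L.dt_ne 0`, `L.κ_c`, `L.c_ne`; `HasStrictFDerivAt` / `Pool.Agent.H62.BU.local_inverse`).

`Ln.exists_frame`: `Ln.frame_coord` at `x₀ = x`, and `exists_tan`.
`Ln.frame_indep`: a chart `χ` at `x` (`L.charts`), `υ` from `exists_lift_chart` with `y = p + wl x • e`; `toFun_eq` for both sides; by `dv_iff` the rows `fderiv χ.q x _` satisfy the hypotheses of `det_indep` with `A = fderiv υ (χ.q x)`, `E = fr κ c (wl x)`.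
-/

set_option autoImplicit false

open Topology Filter Metric

namespace Pool.Agent.TG

open Pool.Agent.H36.BP (EN fs wd)
open Pool.Agent.H14.PP (IsCone CurveAt Tan)
open Pool.Agent.H62.EF (MN pr)
open Pool.Agent.AD (Vd Chart Charts IsGerm)

variable {N k : ℕ}

variable {X : Set (EN N)} {Λ : AddSubgroup (Vd (k + 1))} {u : EN N → Vd (k + 1)} {D B : Set (Vd (k + 1))}
  {κ : Vd (k + 1) → Vd (k + 1)} {p e : Vd (k + 1)} {c : ℂ → Vd (k + 1)} {Γ₀ : AddSubgroup ℂ} {s : ℝ}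

theorem Ln.tan (L : Ln X Λ u D κ p e c Γ₀ s) {x v : EN N} (hx : x ∈ Yl X Λ u p e s) (hv : Tan (Yl X Λ u p e s) x v) :
    ∃ a : ℂ, DV X Λ u x v (a • e) := by
  obtain ⟨γ, hγ, hγ0, hγd⟩ := hv
  obtain ⟨W, hW, hWl⟩ := L.exists_loc hx
  have hW' : AnalyticAt ℂ W (γ 0) := by rw [hγ0]; exact hW
  have hWγ : AnalyticAt ℂ (fun z => W (γ z)) 0 := AnalyticAt.fun_comp hW' hγ.1
  refine ⟨deriv (fun z => W (γ z)) 0, γ, fun z => p + W (γ z) • e, ⟨hγ.1, ?_⟩, hγ0, hγd, ?_, ?_, ?_⟩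
  · filter_upwards [hγ.2] with z hz
    exact hz.1
  · exact analyticAt_const.add (hWγ.smul analyticAt_const)
  · have ht : Tendsto γ (𝓝 0) (𝓝 x) := by
      have h1 := hγ.1.continuousAt.tendsto
      rwa [hγ0] at h1
    filter_upwards [ht.eventually hWl, hγ.2] with z h1 h2
    rw [← h1 h2]
    exact (Ln.wl_spec h2).2
  · exact ((hWγ.differentiableAt.hasDerivAt.smul_const e).const_add p).deriv

/-- the frame depends analytically on the parameter -/
theorem Ln.fr_an_le (L : Ln X Λ u D κ p e c Γ₀ s) {z : ℂ} (hz : ‖z‖ ≤ s) (j : Fin k) : AnalyticAt ℂ (fun z => fr κ c z j) z := by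
  have hz' : z ∈ closedBall (0 : ℂ) s := mem_closedBall_zero_iff.2 hz
  have h1 : AnalyticAt ℂ (fun z => fderiv ℂ κ (c z)) z := AnalyticAt.fun_comp (L.κ_an z hz').fderiv (L.c_an z hz')
  have h2 : AnalyticAt ℂ (fun A : Vd (k + 1) →L[ℂ] Vd (k + 1) => A (Pi.single j.succ 1)) (fderiv ℂ κ (c z)) :=
    (ContinuousLinearMap.apply ℂ (Vd (k + 1)) (Pi.single j.succ 1 : Vd (k + 1))).analyticAt _
  exact AnalyticAt.comp (g := fun A : Vd (k + 1) →L[ℂ] Vd (k + 1) => A (Pi.single j.succ 1)) (f := fun z => fderiv ℂ κ (c z)) h2 h1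

/-- the derivative of `κ` at `0` is injective -/
theorem Ln.κ_inj0 (L : Ln X Λ u D κ p e c Γ₀ s) (v : Vd (k + 1)) (hv : fderiv ℂ κ 0 v = 0) : v = 0 := by
  have h0 : (0 : ℂ) ∈ closedBall (0 : ℂ) s := mem_closedBall_self L.pos.le
  have h1 := L.dt_ne 0 h0
  have h2 : HasDerivAt (fun z => κ (c z)) (fderiv ℂ κ 0 (deriv c 0)) 0 := by
    have h3 : HasFDerivAt κ (fderiv ℂ κ 0) (c 0) := by
      have h4 := (L.κ_an 0 h0).differentiableAt.hasFDerivAt
      rwa [L.c_zero] at h4 ⊢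
    exact h3.comp_hasDerivAt (0 : ℂ) (L.c_an 0 h0).differentiableAt.hasDerivAt
  have h3 : HasDerivAt (fun z => κ (c z)) e 0 := by
    have h4 : HasDerivAt (fun z : ℂ => p + z • e) ((1 : ℂ) • e) 0 := ((hasDerivAt_id (0 : ℂ)).smul_const e).const_add p
    rw [one_smul] at h4
    refine h4.congr_of_eventuallyEq ?_
    filter_upwards [Metric.closedBall_mem_nhds (0 : ℂ) L.pos] with z hz
    exact L.κ_c z hz
  have h4 : e = fderiv ℂ κ 0 (deriv c 0) := h3.unique h2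
  have h5 := Matrix.linearIndependent_rows_of_det_ne_zero h1
  have h6 : ⊤ ≤ LinearMap.range (fderiv ℂ κ 0 : Vd (k + 1) →ₗ[ℂ] Vd (k + 1)) := by
    have h7 : Submodule.span ℂ (Set.range (Matrix.of fun i j => (Fin.cons e (fr κ c 0) : Fin (k + 1) → Vd (k + 1)) i j).row) = ⊤ :=
      h5.span_eq_top_of_card_eq_finrank (by simp)
    rw [← h7, Submodule.span_le]
    rintro _ ⟨i, rfl⟩
    refine Fin.cases ?_ (fun i => ?_) i
    · exact ⟨deriv c 0, h4.symm⟩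
    · refine ⟨Pi.single i.succ 1, ?_⟩
      show fderiv ℂ κ 0 (Pi.single i.succ 1) = fderiv ℂ κ (c 0) (Pi.single i.succ 1)
      rw [L.c_zero]
  have h7 : Function.Injective (fderiv ℂ κ 0 : Vd (k + 1) →ₗ[ℂ] Vd (k + 1)) :=
    LinearMap.injective_iff_surjective.2 (LinearMap.range_eq_top.1 (top_le_iff.1 h6))
  apply h7
  rw [map_zero]
  exact hv

/-- tail of a vector -/
private theorem Frm_tl_cons (a : ℂ) (v : Vd (k + 1)) : tl (Fin.cons a v : Vd (k + 2)) = v := rfl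

private theorem Frm_ms_fderiv (y : Vd (k + 1)) (ρ : ℝ) (q w : Vd (k + 2)) : HasFDerivAt (ms y ρ) (fderiv ℂ (ms y ρ) q) q ∧ AnalyticAt ℂ (ms y ρ) q ∧
    fderiv ℂ (ms y ρ) q w = (ρ : ℂ) • tl w := by
  have h1 : AnalyticAt ℂ (ms y ρ) q := by
    rw [show ms y ρ = fun p : Vd (k + 2) => fun i : Fin (k + 1) => y i + (ρ : ℂ) * p i.succ from rfl, analyticAt_pi_iff]
    intro i
    have h2 : AnalyticAt ℂ (fun p : Vd (k + 2) => p i.succ) q :=
      (ContinuousLinearMap.proj (R := ℂ) (φ := fun _ : Fin (k + 2) => ℂ) i.succ).analyticAt _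
    exact analyticAt_const.add (analyticAt_const.mul h2)
  refine ⟨h1.differentiableAt.hasFDerivAt, h1, ?_⟩
  have h2 : HasDerivAt (fun t : ℂ => ms y ρ (q + t • w)) (fderiv ℂ (ms y ρ) q w) 0 := by
    have h3 : HasDerivAt (fun t : ℂ => q + t • w) w 0 := by
      have h4 : HasDerivAt (fun z : ℂ => z • w) ((1 : ℂ) • w) 0 := (hasDerivAt_id (0 : ℂ)).smul_const w
      rw [one_smul] at h4
      exact h4.const_add q
    have h5 : HasFDerivAt (ms y ρ) (fderiv ℂ (ms y ρ) q) (q + (0 : ℂ) • w) := by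
      rw [zero_smul, add_zero]; exact h1.differentiableAt.hasFDerivAt
    exact h5.comp_hasDerivAt (0 : ℂ) h3
  have h3 : HasDerivAt (fun t : ℂ => ms y ρ (q + t • w)) ((ρ : ℂ) • tl w) 0 := by
    have h4 : (fun t : ℂ => ms y ρ (q + t • w)) = fun t : ℂ => ms y ρ q + t • ((ρ : ℂ) • tl w) := by
      funext t i
      simp only [ms, tl, Pi.add_apply, Pi.smul_apply, smul_eq_mul]
      ring
    rw [h4]
    have h5 : HasDerivAt (fun t : ℂ => t • ((ρ : ℂ) • tl w)) ((1 : ℂ) • ((ρ : ℂ) • tl w)) 0 := (hasDerivAt_id (0 : ℂ)).smul_const _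
    rw [one_smul] at h5
    exact h5.const_add _
  exact h2.unique h3

private theorem Frm_nm (a b : ℕ) (q : Vd (k + 2)) (t : ℂ) (j : Fin k) :
    nm a b (q + t • (Pi.single j.succ.succ 1 : Vd (k + 2))) = nm a b q + t • (Pi.single j.succ 1 : Vd (k + 1)) := by
  funext i
  refine Fin.cases ?_ (fun i => ?_) i
  · have h0 : (Pi.single j.succ.succ 1 : Vd (k + 2)) 0 = 0 := Pi.single_eq_of_ne (Fin.succ_ne_zero _).symm _
    have h1 : (Pi.single j.succ.succ 1 : Vd (k + 2)) 1 = 0 := by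
      apply Pi.single_eq_of_ne
      intro h
      have h' := congrArg Fin.val h
      simp at h'
    have h2 : (Pi.single j.succ 1 : Vd (k + 1)) 0 = 0 := Pi.single_eq_of_ne (Fin.succ_ne_zero _).symm _
    simp only [nm, Fin.cons_zero, Pi.add_apply, Pi.smul_apply, h0, h1, h2, smul_zero, add_zero]
  · simp only [nm, Fin.cons_succ, Pi.add_apply, Pi.smul_apply, smul_eq_mul]
    congr 2
    by_cases h : i = j
    · subst h; simp
    · rw [Pi.single_eq_of_ne, Pi.single_eq_of_ne]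
      · exact fun h' => h (Fin.succ_injective _ h')
      · exact fun h' => h (Fin.succ_injective _ (Fin.succ_injective _ h'))

private theorem Frm_nm_an (a b : ℕ) (q : Vd (k + 2)) : AnalyticAt ℂ (nm a b : Vd (k + 2) → Vd (k + 1)) q := by
  have h : ∀ i : Fin (k + 2), AnalyticAt ℂ (fun p : Vd (k + 2) => p i) q := fun i =>
    (ContinuousLinearMap.proj (R := ℂ) (φ := fun _ : Fin (k + 2) => ℂ) i).analyticAt _
  rw [show (nm a b : Vd (k + 2) → Vd (k + 1)) = fun p i => nm a b p i from rfl, analyticAt_pi_iff]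
  intro i
  refine Fin.cases ?_ (fun i => ?_) i
  · exact ((h 0).pow a).mul ((h 1).pow b)
  · exact h i.succ.succ

/-- the coordinates of `κ (nm a b (r • q))` -/
private theorem Frm_nm_fderiv {κ : Vd (k + 1) → Vd (k + 1)} {a b : ℕ} {r : ℂ} (hr : r ≠ 0) {q : Vd (k + 2)} (hκ : AnalyticAt ℂ κ (nm a b (r • q))) (j : Fin k) :
    AnalyticAt ℂ (fun q => κ (nm a b (r • q))) q ∧
    fderiv ℂ (fun q => κ (nm a b (r • q))) q (r⁻¹ • Pi.single j.succ.succ 1) = fderiv ℂ κ (nm a b (r • q)) (Pi.single j.succ 1) := by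
  have h0 : AnalyticAt ℂ (fun q : Vd (k + 2) => r • q) q := analyticAt_const.fun_smul analyticAt_id
  have h1 : AnalyticAt ℂ (fun q : Vd (k + 2) => nm a b (r • q)) q := AnalyticAt.comp (g := nm a b) (f := fun q : Vd (k + 2) => r • q) (Frm_nm_an a b _) h0
  have h2 : AnalyticAt ℂ (fun q => κ (nm a b (r • q))) q := AnalyticAt.comp (g := κ) (f := fun q : Vd (k + 2) => nm a b (r • q)) hκ h1
  refine ⟨h2, ?_⟩
  set w : Vd (k + 2) := r⁻¹ • Pi.single j.succ.succ 1 with hw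
  have h3 : HasDerivAt (fun t : ℂ => κ (nm a b (r • (q + t • w)))) (fderiv ℂ (fun q => κ (nm a b (r • q))) q w) 0 := by
    have h3 : HasDerivAt (fun t : ℂ => q + t • w) w 0 := by
      have h4 : HasDerivAt (fun z : ℂ => z • w) ((1 : ℂ) • w) 0 := (hasDerivAt_id (0 : ℂ)).smul_const w
      rw [one_smul] at h4
      exact h4.const_add q
    have h5 : HasFDerivAt (fun q => κ (nm a b (r • q))) (fderiv ℂ (fun q => κ (nm a b (r • q))) q) (q + (0 : ℂ) • w) := by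
      rw [zero_smul, add_zero]; exact h2.differentiableAt.hasFDerivAt
    exact h5.comp_hasDerivAt (0 : ℂ) h3
  have h4 : HasDerivAt (fun t : ℂ => κ (nm a b (r • (q + t • w)))) (fderiv ℂ κ (nm a b (r • q)) (Pi.single j.succ 1)) 0 := by
    have e1 : (fun t : ℂ => κ (nm a b (r • (q + t • w)))) = fun t : ℂ => κ (nm a b (r • q) + t • (Pi.single j.succ 1 : Vd (k + 1))) := by
      funext t
      rw [← Frm_nm, hw, smul_add, smul_comm r t, smul_smul r r⁻¹, mul_inv_cancel₀ hr, one_smul]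
    rw [e1]
    have h6 : HasDerivAt (fun t : ℂ => nm a b (r • q) + t • (Pi.single j.succ 1 : Vd (k + 1))) (Pi.single j.succ 1) 0 := by
      have h4 : HasDerivAt (fun z : ℂ => z • (Pi.single j.succ 1 : Vd (k + 1))) ((1 : ℂ) • (Pi.single j.succ 1 : Vd (k + 1))) 0 := (hasDerivAt_id (0 : ℂ)).smul_const _
      rw [one_smul] at h4
      exact h4.const_add _
    have h7 : HasFDerivAt κ (fderiv ℂ κ (nm a b (r • q))) (nm a b (r • q) + (0 : ℂ) • (Pi.single j.succ 1 : Vd (k + 1))) := by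
      rw [zero_smul, add_zero]; exact hκ.differentiableAt.hasFDerivAt
    exact h7.comp_hasDerivAt (0 : ℂ) h6
  exact h3.unique h4

private theorem Frm_nm_zero {a b : ℕ} (h : 0 < a + b) : nm a b (0 : Vd (k + 2)) = 0 := by
  funext i
  refine Fin.cases ?_ (fun i => ?_) i
  · show (0 : ℂ) ^ a * (0 : ℂ) ^ b = 0
    rw [← pow_add, zero_pow h.ne']
  · rfl

theorem Ln.frame_coord (L : Ln X Λ u D κ p e c Γ₀ s) {x₀ : EN N} (hx₀ : x₀ ∈ Yl X Λ u p e s) :
    ∃ (χ : Chart (k + 2) X) (lam : EN N → Fin k → Vd (k + 2)), x₀ ∈ χ.U ∧ AnalyticAt ℂ lam x₀ ∧ ∀ᶠ x in 𝓝 x₀, x ∈ Yl X Λ u p e s →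
      ∀ (j : Fin k) (ℓ : EN N), Tan X x ℓ → fderiv ℂ χ.q x ℓ = lam x j → DV X Λ u x ℓ (fr κ c (wl Λ u p e s x) j) := by
  obtain ⟨W, hW, hWl⟩ := L.exists_loc hx₀
  have hW0 : wl Λ u p e s x₀ = W x₀ := hWl.self_of_nhds hx₀
  have hsp := Ln.wl_spec hx₀
  by_cases hz : wl Λ u p e s x₀ = 0
  · -- the centre
    have hW00 : W x₀ = 0 := by rw [← hW0, hz]
    have hup : u x₀ - p ∈ Λ := by
      have h1 := hsp.2
      rwa [hz, zero_smul, add_zero] at h1
    obtain ⟨σ, τ, a, b, hG, hσ0, hab, hσl⟩ := L.nc x₀ hx₀.1 hup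
    have h0m : (0 : ℂ) ∈ closedBall (0 : ℂ) s := mem_closedBall_self L.pos.le
    have hκ0 : AnalyticAt ℂ κ 0 := by
      have h1 := L.κ_an 0 h0m
      rwa [L.c_zero] at h1
    have hκp : κ 0 = p := by
      have h1 := L.κ_c 0 h0m
      rwa [L.c_zero, zero_smul, add_zero] at h1
    have hc0 : AnalyticAt ℂ c 0 := L.c_an 0 h0m
    obtain ⟨ψ, hψ, hψκ, -, -⟩ := Pool.Agent.H62.BU.local_inverse hκ0 L.κ_inj0
    have hnm : Tendsto (nm a b : Vd (k + 2) → Vd (k + 1)) (𝓝 0) (𝓝 0) := by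
      have h1 := (Frm_nm_an a b (0 : Vd (k + 2))).continuousAt.tendsto
      rwa [Frm_nm_zero hab] at h1
    obtain ⟨η', hη', hall⟩ := Metric.eventually_nhds_iff_ball.1 ((hG.σ_mem.and hσl).and (hnm.eventually hκ0.eventually_analyticAt))
    obtain ⟨χ, r, hr, hσU, hq0, hχ⟩ := exists_small_chart L.cone hG hη'
    rw [hσ0] at hσU hq0
    have hrC : (r : ℂ) ≠ 0 := by exact_mod_cast hr.ne'
    refine ⟨χ, fun _ j => (r : ℂ)⁻¹ • Pi.single j.succ.succ 1, hσU, analyticAt_const, ?_⟩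
    -- the coordinates
    have hqc : Tendsto χ.q (𝓝 x₀) (𝓝 0) := by
      have h1 := (χ.q_an x₀ hσU).continuousAt.tendsto
      rwa [hq0] at h1
    have hrq : Tendsto (fun x => (r : ℂ) • χ.q x) (𝓝 x₀) (𝓝 0) := by
      have h1 := hqc.const_smul (r : ℂ)
      rwa [smul_zero] at h1
    have hnq : Tendsto (fun x => (nm a b ((r : ℂ) • χ.q x) : Vd (k + 1))) (𝓝 x₀) (𝓝 0) := hnm.comp hrq
    have hWt : Tendsto W (𝓝 x₀) (𝓝 0) := by
      have h1 := hW.continuousAt.tendsto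
      rwa [hW00] at h1
    have hcW : Tendsto (fun x => c (W x)) (𝓝 x₀) (𝓝 0) := by
      have h1 := hc0.continuousAt.tendsto
      rw [L.c_zero] at h1
      exact h1.comp hWt
    have he : 0 < ‖e‖ := norm_pos_iff.2 L.e_ne
    have hdiff : Tendsto (fun x => κ (nm a b ((r : ℂ) • χ.q x)) - p) (𝓝 x₀) (𝓝 0) := by
      have h1 : Tendsto (fun x => κ (nm a b ((r : ℂ) • χ.q x))) (𝓝 x₀) (𝓝 (κ 0)) := hκ0.continuousAt.tendsto.comp hnq
      have h2 := h1.sub_const p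
      rwa [hκp, sub_self] at h2
    have hsm : ∀ᶠ x in 𝓝 x₀, ‖κ (nm a b ((r : ℂ) • χ.q x)) - p‖ < s * ‖e‖ := by
      apply hdiff.norm.eventually_lt_const
      rw [norm_zero]
      exact mul_pos L.pos he
    filter_upwards [hWl, χ.isOpen_U.mem_nhds hσU, hqc.eventually (isOpen_ball.mem_nhds (mem_ball_self (two_pos : (0 : ℝ) < 2))),
      hnq.eventually hψκ, hcW.eventually hψκ, hsm] with x h1 h2 h3 h4 h5 h6 hx j ℓ hℓ hq
    have hx1 := h1 hx
    have hs1 := Ln.wl_spec hx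
    obtain ⟨-, c', hc', hcx⟩ := χ.surj x hx.1 h2
    -- the lift
    have hlift : ∀ q ∈ ball (0 : Vd (k + 2)) 2, u (χ.σ q) - κ (nm a b ((r : ℂ) • q)) ∈ Λ := by
      intro q hq
      obtain ⟨k1, -, b', hb', k3⟩ := hχ q hq
      have k4 := hall ((r : ℂ) • q) (mem_ball_zero_iff.2 k1)
      have k5 := smul_mem_lat L.tor k4.1.1 k4.1.2 hb'
      rwa [← k3] at k5
    have hux : u x - κ (nm a b ((r : ℂ) • χ.q x)) ∈ Λ := by
      have k1 := smul_mem_lat L.tor (χ.σ_mem _ h3).1 (hlift _ h3) hc'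
      rwa [← hcx] at k1
    have heq : κ (nm a b ((r : ℂ) • χ.q x)) = p + wl Λ u p e s x • e := by
      have k1 := Λ.sub_mem hs1.2 hux
      have k2 : u x - (p + wl Λ u p e s x • e) - (u x - κ (nm a b ((r : ℂ) • χ.q x))) =
          κ (nm a b ((r : ℂ) • χ.q x)) - (p + wl Λ u p e s x • e) := by abel
      rw [k2] at k1
      refine sub_eq_zero.1 (L.small _ k1 ?_)
      have k3 : κ (nm a b ((r : ℂ) • χ.q x)) - (p + wl Λ u p e s x • e) = (κ (nm a b ((r : ℂ) • χ.q x)) - p) - wl Λ u p e s x • e := by abel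
      rw [k3]
      refine (norm_sub_le _ _).trans ?_
      rw [norm_smul]
      have k4 := mul_le_mul_of_nonneg_right hs1.1 (norm_nonneg e)
      have k5 := mul_nonneg L.pos.le (norm_nonneg e)
      linarith
    have hnc : nm a b ((r : ℂ) • χ.q x) = c (wl Λ u p e s x) := by
      have k1 := L.κ_c (wl Λ u p e s x) (mem_closedBall_zero_iff.2 hs1.1)
      rw [← h4, heq, ← k1, hx1, h5]
    have hκan : AnalyticAt ℂ κ (nm a b ((r : ℂ) • χ.q x)) := (hall _ (mem_ball_zero_iff.2 (hχ _ h3).1)).2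
    obtain ⟨m1, m2⟩ := Frm_nm_fderiv hrC hκan j
    refine (dv_iff L.cone L.tor L.lat χ hx.1 h2 m1 ?_).2 ⟨hℓ, ?_⟩
    · filter_upwards [isOpen_ball.mem_nhds h3] with q hq
      exact hlift q hq
    · rw [hq, m2, hnc]
      rfl
  · -- away from the centre
    have hoff := L.off _ hz hsp.1
    have hst := L.sub _ hoff x₀ hx₀.1 hsp.2
    obtain ⟨χ, ρ, hU, hq0, hstr, -⟩ := exists_str_chart L.cone L.tor hst one_pos
    have hρC : (ρ : ℂ) ≠ 0 := by exact_mod_cast hstr.pos.ne'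
    refine ⟨χ, fun x j => Fin.cons 0 ((ρ : ℂ)⁻¹ • fr κ c (W x) j), hU, ?_, ?_⟩
    · rw [analyticAt_pi_iff]
      intro j
      rw [analyticAt_pi_iff]
      have h1 : AnalyticAt ℂ (fun z => fr κ c z j) (W x₀) := by
        rw [← hW0]; exact L.fr_an_le hsp.1 j
      have h2 : AnalyticAt ℂ (fun x => fr κ c (W x) j) x₀ := AnalyticAt.comp (g := fun z => fr κ c z j) (f := W) h1 hW
      intro i
      refine Fin.cases ?_ (fun i => ?_) i
      · exact analyticAt_const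
      · have h3 : AnalyticAt ℂ (fun x => fr κ c (W x) j i) x₀ :=
          AnalyticAt.comp (g := fun v : Vd (k + 1) => v i) (f := fun x => fr κ c (W x) j)
            ((ContinuousLinearMap.proj (R := ℂ) (φ := fun _ : Fin (k + 1) => ℂ) i).analyticAt _) h2
        exact analyticAt_const.mul h3
    · have hqc : Tendsto χ.q (𝓝 x₀) (𝓝 0) := by
        have h1 := (χ.q_an x₀ hU).continuousAt.tendsto
        rwa [hq0] at h1
      filter_upwards [hWl, χ.isOpen_U.mem_nhds hU, hqc.eventually (isOpen_ball.mem_nhds (mem_ball_self (two_pos : (0 : ℝ) < 2)))]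
        with x h1 h2 h3 hx j ℓ hℓ hq
      obtain ⟨m1, m2, m3⟩ := Frm_ms_fderiv (p + wl Λ u p e s x₀ • e) ρ (χ.q x) (fderiv ℂ χ.q x ℓ)
      refine (dv_iff L.cone L.tor L.lat χ hx.1 h2 m2 ?_).2 ⟨hℓ, ?_⟩
      · filter_upwards [isOpen_ball.mem_nhds h3] with q hq
        exact hstr.lift q hq
      · rw [m3, hq, Frm_tl_cons, smul_smul, mul_inv_cancel₀ hρC, one_smul, h1 hx]

theorem Ln.exists_frame (L : Ln X Λ u D κ p e c Γ₀ s) {x : EN N} (hx : x ∈ Yl X Λ u p e s) :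
    ∃ ℓ : Fin k → EN N, ∀ j, DV X Λ u x (ℓ j) (fr κ c (wl Λ u p e s x) j) := by
  obtain ⟨χ, lam, hU, -, h⟩ := L.frame_coord hx
  have h1 : ∀ j, ∃ w : EN N, Tan X x w ∧ fderiv ℂ χ.q x w = lam x j := fun j => exists_tan L.cone χ hx.1 hU _
  choose ℓ h2 h3 using h1
  exact ⟨ℓ, fun j => h.self_of_nhds hx j (ℓ j) (h2 j) (h3 j)⟩

theorem Ln.frame_indep (L : Ln X Λ u D κ p e c Γ₀ s) (α : VForm X Λ u) {x : EN N} (hx : x ∈ Yl X Λ u p e s) {v w : EN N} {a b : ℂ}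
    (hv : DV X Λ u x v (a • e)) (hw : DV X Λ u x w (b • e)) {ℓ ℓ' : Fin k → EN N}
    (hℓ : ∀ j, DV X Λ u x (ℓ j) (fr κ c (wl Λ u p e s x) j)) (hℓ' : ∀ j, DV X Λ u x (ℓ' j) (fr κ c (wl Λ u p e s x) j)) :
    α.toFun (p + wl Λ u p e s x • e) x (Fin.cons v (Fin.cons w ℓ)) = α.toFun (p + wl Λ u p e s x • e) x (Fin.cons v (Fin.cons w ℓ')) := by
  obtain ⟨χ, hU, -⟩ := L.charts x hx.1
  have hsp := Ln.wl_spec hx
  obtain ⟨υ, hυ, hυe, hυl⟩ := exists_lift_chart L.cone L.tor χ hx.1 hU hsp.2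
  have key : ∀ {w : EN N} {E : Vd (k + 1)}, DV X Λ u x w E → Tan X x w ∧ fderiv ℂ υ (χ.q x) (fderiv ℂ χ.q x w) = E := fun h =>
    (dv_iff L.cone L.tor L.lat χ hx.1 hU hυ hυl).1 h
  have ht : ∀ ℓ : Fin k → EN N, (∀ j, DV X Λ u x (ℓ j) (fr κ c (wl Λ u p e s x) j)) →
      ∀ i, Tan X x ((Fin.cons v (Fin.cons w ℓ) : Fin (k + 2) → EN N) i) := by
    intro ℓ hℓ i
    refine Fin.cases ?_ (fun i => ?_) i
    · exact hv.tan
    · refine Fin.cases ?_ (fun i => ?_) i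
      · exact hw.tan
      · exact (hℓ i).tan
  have hm : ∀ ℓ : Fin k → EN N, (Matrix.of fun i j => fderiv ℂ χ.q x ((Fin.cons v (Fin.cons w ℓ) : Fin (k + 2) → EN N) i) j) =
      Matrix.of fun i j => (Fin.cons (fderiv ℂ χ.q x v) (Fin.cons (fderiv ℂ χ.q x w) fun j => fderiv ℂ χ.q x (ℓ j)) : Fin (k + 2) → Vd (k + 2)) i j := by
    intro ℓ
    ext i j
    refine Fin.cases ?_ (fun i => ?_) i
    · rfl
    · refine Fin.cases ?_ (fun i => ?_) i
      · rfl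
      · rfl
  rw [toFun_eq L.cone L.tor α χ hx.1 hU hsp.2 hυe _ (ht ℓ hℓ), toFun_eq L.cone L.tor α χ hx.1 hU hsp.2 hυe _ (ht ℓ' hℓ'), hm, hm]
  congr 1
  exact det_indep (A := (fderiv ℂ υ (χ.q x) : Vd (k + 2) →ₗ[ℂ] Vd (k + 1))) (E := fr κ c (wl Λ u p e s x))
    (L.dt_ne _ (mem_closedBall_zero_iff.2 hsp.1)) (key hv).2 (key hw).2 (fun j => (key (hℓ j)).2) fun j => (key (hℓ' j)).2

end Pool.Agent.TG

end
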