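import Pool.Agent.H94.G5T.M44
import Pool.Agent.H94.G5T.M62
import Pool.Agent.H94.G5T.M63

/-! The parts of this file: TG.Y.Rf, TG.Y.Br_1, TG.Y.YCap. -/

section

/-!
# TG Y Rf: the form restricted to the slab

`Ln.form`: all fields by `Ln.frame_indep` (tangent vectors of `Y`: `Ln.tan`) from the fields of `α`:
`add_smul`: `α.add_smul` (coefficients `a, b, 0, …`).  `det`: `α.det` with the block matrix `(a b; c d) ⊕ 1`, determinant `a d - b c`.  `scale`: `α.scale`, `Ln.wl_smul`, and `c • lf x` is a frame at `c • x` (`DV.smul_pt`).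
`analytic`: let `x₀ = φ q₀ ∈ Y`, `χ`, `lam` from `Ln.frame_coord`; `υ'` from `exists_lift_chart` with `υ' (χ.q x₀) = p + wl x₀ • e`; for `q` near `q₀` (`x = φ q ∈ Y` near `x₀`): `υ' (χ.q x) = p + wl x • e` (the difference is in `Λ`, continuous by `Ln.exists_loc` and `0` at `q₀`; `Lat.disc`),
and by `toFun_eq` and `frame_indep` (choose `ℓ j` with `fderiv χ.q x (ℓ j) = lam x j`, `exists_tan`) the value is `det (rows fderiv χ.q x (∂₁ φ), fderiv χ.q x (∂₂ φ), lam x j) * tc α χ υ' (χ.q x)`, analytic in `q` (`tc_an`; `fderiv χ.q (φ q) (∂ φ)` is analytic: `fderiv` of analytic functions,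
composition `ContinuousLinearMap` evaluation; the determinant is a polynomial: `Matrix.det_apply`, `Finset.analyticAt_sum`/`prod`).
`Ln.form_eq`: `frame_indep`.
-/

set_option autoImplicit false

open Topology Filter Metric

namespace Pool.Agent.TG

open Pool.Agent.H36.BP (EN fs wd)
open Pool.Agent.H14.PP (IsCone CurveAt Tan)
open Pool.Agent.H62.EF (MN pr)
open Pool.Agent.AD (Vd Chart Charts IsGerm)

variable {N k : ℕ}

variable {X : Set (EN N)} {Λ : AddSubgroup (Vd (k + 1))} {u : EN N → Vd (k + 1)} {D B : Set (Vd (k + 1))}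
  {κ : Vd (k + 1) → Vd (k + 1)} {p e : Vd (k + 1)} {c : ℂ → Vd (k + 1)} {Γ₀ : AddSubgroup ℂ} {s : ℝ}

open Classical in
/-- a frame at `x` -/
noncomputable def lf (X : Set (EN N)) (Λ : AddSubgroup (Vd (k + 1))) (u : EN N → Vd (k + 1)) (p e : Vd (k + 1)) (s : ℝ)
    (κ : Vd (k + 1) → Vd (k + 1)) (c : ℂ → Vd (k + 1)) (x : EN N) : Fin k → EN N :=
  if h : ∃ ℓ : Fin k → EN N, ∀ j, DV X Λ u x (ℓ j) (fr κ c (wl Λ u p e s x) j) then h.choose else 0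

theorem Ln.lf_spec (L : Ln X Λ u D κ p e c Γ₀ s) {x : EN N} (hx : x ∈ Yl X Λ u p e s) (j : Fin k) :
    DV X Λ u x (lf X Λ u p e s κ c x j) (fr κ c (wl Λ u p e s x) j) := by
  have h := L.exists_frame hx
  unfold lf
  rw [dif_pos h]
  exact h.choose_spec j

private theorem Rf_det (a b c d : ℂ) :
    (Matrix.of fun i j => (Fin.cons (Fin.cons a (Fin.cons b 0) : Fin (k + 2) → ℂ)
      (Fin.cons (Fin.cons c (Fin.cons d 0) : Fin (k + 2) → ℂ) fun i : Fin k => (Pi.single i.succ.succ 1 : Fin (k + 2) → ℂ)) :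
        Fin (k + 2) → Fin (k + 2) → ℂ) i j).det = a * d - b * c := by
  rw [Matrix.det_succ_row_zero, Fin.sum_univ_succ, Fin.sum_univ_succ]
  have h1 : ∀ i : Fin k, (Matrix.of fun i j => (Fin.cons (Fin.cons a (Fin.cons b 0) : Fin (k + 2) → ℂ)
      (Fin.cons (Fin.cons c (Fin.cons d 0) : Fin (k + 2) → ℂ) fun i : Fin k => (Pi.single i.succ.succ 1 : Fin (k + 2) → ℂ)) :
        Fin (k + 2) → Fin (k + 2) → ℂ) i j) 0 i.succ.succ = 0 := fun i => rfl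
  simp only [h1]
  simp only [mul_zero, zero_mul, Finset.sum_const_zero, add_zero]
  have e1 : ((Matrix.of fun i j => (Fin.cons (Fin.cons a (Fin.cons b 0) : Fin (k + 2) → ℂ)
      (Fin.cons (Fin.cons c (Fin.cons d 0) : Fin (k + 2) → ℂ) fun i : Fin k => (Pi.single i.succ.succ 1 : Fin (k + 2) → ℂ)) :
        Fin (k + 2) → Fin (k + 2) → ℂ) i j).submatrix Fin.succ (Fin.succAbove 0)) =
      Matrix.diagonal (Fin.cons d fun _ => 1 : Fin (k + 1) → ℂ) := by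
    ext i j
    rw [Fin.succAbove_zero]
    refine Fin.cases ?_ (fun i => ?_) i <;> refine Fin.cases ?_ (fun j => ?_) j
    · simp
    · rw [Matrix.diagonal_apply_ne _ (Fin.succ_ne_zero _).symm]
      rfl
    · rw [Matrix.diagonal_apply_ne _ (Fin.succ_ne_zero _)]
      show (Pi.single i.succ.succ 1 : Fin (k + 2) → ℂ) (Fin.succ 0) = 0
      apply Pi.single_eq_of_ne
      intro h
      have h' := congrArg Fin.val h
      simp at h'
    · show (Pi.single i.succ.succ 1 : Fin (k + 2) → ℂ) j.succ.succ = _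
      by_cases h : j = i
      · subst h; simp
      · rw [Pi.single_eq_of_ne, Matrix.diagonal_apply_ne]
        · exact fun h' => h (Fin.succ_injective _ h').symm
        · exact fun h' => h (Fin.succ_injective _ (Fin.succ_injective _ h'))
  have e2 : ((Matrix.of fun i j => (Fin.cons (Fin.cons a (Fin.cons b 0) : Fin (k + 2) → ℂ)
      (Fin.cons (Fin.cons c (Fin.cons d 0) : Fin (k + 2) → ℂ) fun i : Fin k => (Pi.single i.succ.succ 1 : Fin (k + 2) → ℂ)) :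
        Fin (k + 2) → Fin (k + 2) → ℂ) i j).submatrix Fin.succ (Fin.succAbove (Fin.succ 0))) =
      Matrix.diagonal (Fin.cons c fun _ => 1 : Fin (k + 1) → ℂ) := by
    ext i j
    have hj : ∀ j : Fin k, (Fin.succAbove (Fin.succ 0 : Fin (k + 2)) j.succ) = j.succ.succ := by
      intro j
      rw [Fin.succ_succAbove_succ, Fin.succAbove_zero]
    have hj0 : (Fin.succAbove (Fin.succ 0 : Fin (k + 2)) (0 : Fin (k + 1))) = 0 := Fin.succ_succAbove_zero _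
    rw [Matrix.submatrix_apply]
    refine Fin.cases ?_ (fun i => ?_) i <;> refine Fin.cases ?_ (fun j => ?_) j
    · rw [hj0]; simp
    · rw [hj, Matrix.diagonal_apply_ne _ (Fin.succ_ne_zero _).symm]
      rfl
    · rw [hj0, Matrix.diagonal_apply_ne _ (Fin.succ_ne_zero _)]
      show (Pi.single i.succ.succ 1 : Fin (k + 2) → ℂ) 0 = 0
      exact Pi.single_eq_of_ne (Fin.succ_ne_zero _).symm _
    · rw [hj]
      show (Pi.single i.succ.succ 1 : Fin (k + 2) → ℂ) j.succ.succ = _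
      by_cases h : j = i
      · subst h; simp
      · rw [Pi.single_eq_of_ne, Matrix.diagonal_apply_ne]
        · exact fun h' => h (Fin.succ_injective _ h').symm
        · exact fun h' => h (Fin.succ_injective _ (Fin.succ_injective _ h'))
  rw [e1, e2, Matrix.det_diagonal, Matrix.det_diagonal, Fin.prod_univ_succ, Fin.prod_univ_succ]
  simp
  ring

/-- tangent vectors of the slab with a frame -/
private theorem Rf_tan (L : Ln X Λ u D κ p e c Γ₀ s) {x v w : EN N} (hx : x ∈ Yl X Λ u p e s) (hv : Tan (Yl X Λ u p e s) x v)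
    (hw : Tan (Yl X Λ u p e s) x w) (i : Fin (k + 2)) : Tan X x ((Fin.cons v (Fin.cons w (lf X Λ u p e s κ c x)) : Fin (k + 2) → EN N) i) := by
  obtain ⟨a, ha⟩ := L.tan hx hv
  obtain ⟨b, hb⟩ := L.tan hx hw
  refine Fin.cases ?_ (fun i => ?_) i
  · exact ha.tan
  · refine Fin.cases ?_ (fun i => ?_) i
    · exact hb.tan
    · exact (L.lf_spec hx i).tan

private theorem Rf_det_an {E : Type*} [NormedAddCommGroup E] [NormedSpace ℂ E] {m : ℕ} {M : E → Matrix (Fin m) (Fin m) ℂ} {z : E}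
    (h : ∀ i j, AnalyticAt ℂ (fun y => M y i j) z) : AnalyticAt ℂ (fun y => (M y).det) z := by
  simp only [Matrix.det_apply']
  refine Finset.analyticAt_fun_sum _ fun σ _ => ?_
  exact analyticAt_const.mul (Finset.analyticAt_fun_prod _ fun i _ => h _ _)

/-- the lift of `u` along the slab -/
private theorem Rf_lift (L : Ln X Λ u D κ p e c Γ₀ s) (χ : Chart (k + 2) X) {x₀ : EN N} (hx₀ : x₀ ∈ Yl X Λ u p e s) (hU : x₀ ∈ χ.U)
    {υ : Vd (k + 2) → Vd (k + 1)} (hυ : AnalyticAt ℂ υ (χ.q x₀)) (hυe : υ (χ.q x₀) = p + wl Λ u p e s x₀ • e)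
    (hυl : ∀ᶠ q in 𝓝 (χ.q x₀), u (χ.σ q) - υ q ∈ Λ) :
    ∀ᶠ x in 𝓝 x₀, x ∈ Yl X Λ u p e s → υ (χ.q x) = p + wl Λ u p e s x • e := by
  obtain ⟨W, hW, hWl⟩ := L.exists_loc hx₀
  have hW0 : wl Λ u p e s x₀ = W x₀ := hWl.self_of_nhds hx₀
  obtain ⟨δ, hδ, hd⟩ := L.lat.disc
  have hqt : Tendsto χ.q (𝓝 x₀) (𝓝 (χ.q x₀)) := (χ.q_an x₀ hU).continuousAt
  have h1 : Tendsto (fun x => υ (χ.q x) - (p + W x • e)) (𝓝 x₀) (𝓝 (υ (χ.q x₀) - (p + W x₀ • e))) :=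
    (hυ.continuousAt.tendsto.comp hqt).sub (tendsto_const_nhds.add (hW.continuousAt.tendsto.smul_const e))
  rw [hυe, hW0, sub_self] at h1
  have h2 : ∀ᶠ x in 𝓝 x₀, ‖υ (χ.q x) - (p + W x • e)‖ < δ := by
    apply h1.norm.eventually_lt_const
    rwa [norm_zero]
  filter_upwards [hWl, h2, χ.isOpen_U.mem_nhds hU, hqt.eventually hυl] with x k1 k2 k3 k4 hx
  obtain ⟨hb, c', hc', hcx⟩ := χ.surj x hx.1 k3
  have k5 := smul_mem_lat L.tor (χ.σ_mem _ hb).1 k4 hc'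
  rw [← hcx] at k5
  have k6 := Λ.sub_mem (Ln.wl_spec hx).2 k5
  have k7 : u x - (p + wl Λ u p e s x • e) - (u x - υ (χ.q x)) = υ (χ.q x) - (p + wl Λ u p e s x • e) := by abel
  rw [k7] at k6
  rw [k1 hx] at k6 ⊢
  exact sub_eq_zero.1 (hd _ k6 k2)

/-- the restricted form -/
noncomputable def Ln.form (L : Ln X Λ u D κ p e c Γ₀ s) (α : VForm X Λ u) :
    Pool.Agent.H62.EL.TForm (Yl X Λ u p e s) Γ₀ (wl Λ u p e s) where
  toFun := fun _ x v w => α.toFun (p + wl Λ u p e s x • e) x (Fin.cons v (Fin.cons w (lf X Λ u p e s κ c x)))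
  add_smul := by
    intro z x hx _ v w hv hw a b
    have h1 := α.add_smul _ x hx.1 (Ln.wl_spec hx).2 _ (Rf_tan L hx hv hw) (Fin.cons a (Fin.cons b 0))
    rw [← h1]
    congr 1
    funext i
    refine Fin.cases ?_ (fun i => ?_) i
    · rfl
    · refine Fin.cases ?_ (fun i => ?_) i
      · rfl
      · simp
  det := by
    intro z x hx _ v w hv hw a b c' d
    have h1 := α.det _ x hx.1 (Ln.wl_spec hx).2 _ (Rf_tan L hx hv hw)
      (Matrix.of fun i j => (Fin.cons (Fin.cons a (Fin.cons b 0) : Fin (k + 2) → ℂ)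
      (Fin.cons (Fin.cons c' (Fin.cons d 0) : Fin (k + 2) → ℂ) fun i : Fin k => (Pi.single i.succ.succ 1 : Fin (k + 2) → ℂ)) :
        Fin (k + 2) → Fin (k + 2) → ℂ) i j)
    rw [Rf_det] at h1
    rw [← h1]
    congr 1
    funext i
    rw [Fin.sum_univ_succ, Fin.sum_univ_succ]
    refine Fin.cases ?_ (fun i => ?_) i
    · simp [Matrix.of_apply]
    · refine Fin.cases ?_ (fun i => ?_) i
      · simp [Matrix.of_apply]
      · simp only [Matrix.of_apply, Fin.cons_succ, Fin.cons_zero]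
        rw [Pi.single_eq_of_ne (Fin.succ_ne_zero _).symm, Pi.single_eq_of_ne (fun h => by have h' := congrArg Fin.val h; simp at h'),
          zero_smul, zero_smul, zero_add, zero_add, Finset.sum_eq_single i]
        · simp
        · intro j _ hj
          rw [Pi.single_eq_of_ne (fun h => hj (Fin.succ_injective _ (Fin.succ_injective _ h))), zero_smul]
        · intro h
          exact absurd (Finset.mem_univ i) h
  scale := by
    intro z x hx _ v w hv hw a ha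
    obtain ⟨b₁, hb₁⟩ := L.tan hx hv
    obtain ⟨b₂, hb₂⟩ := L.tan hx hw
    have hax : a • x ∈ Yl X Λ u p e s := L.isCone.smul_mem x hx a ha
    have h1 := L.frame_indep α hax (hb₁.smul_pt L.cone L.tor ha) (hb₂.smul_pt L.cone L.tor ha) (L.lf_spec hax)
      (ℓ' := fun j => a • lf X Λ u p e s κ c x j) (fun j => by
        rw [L.wl_smul hx ha]
        exact (L.lf_spec hx j).smul_pt L.cone L.tor ha)
    rw [h1, L.wl_smul hx ha]
    have h2 := α.scale _ x hx.1 (Ln.wl_spec hx).2 _ (Rf_tan L hx hv hw) a ha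
    rw [← h2]
    congr 1
    funext i
    refine Fin.cases ?_ (fun i => ?_) i
    · rfl
    · refine Fin.cases ?_ (fun i => ?_) i
      · rfl
      · rfl
  analytic := by
    intro φ υ₀ q₀ hφ _ hev
    have hx₀ : φ q₀ ∈ Yl X Λ u p e s := hev.self_of_nhds.1
    obtain ⟨χ, lam, hU, hlam, hfr⟩ := L.frame_coord hx₀
    obtain ⟨υ, hυ, hυe, hυl⟩ := exists_lift_chart L.cone L.tor χ hx₀.1 hU (Ln.wl_spec hx₀).2
    have hb₀ : χ.q (φ q₀) ∈ ball (0 : Vd (k + 2)) 2 := (χ.surj _ hx₀.1 hU).1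
    have hqφ : AnalyticAt ℂ (fun y => χ.q (φ y)) q₀ := AnalyticAt.fun_comp (χ.q_an _ hU) hφ
    have htc : AnalyticAt ℂ (fun y => tc α χ υ (χ.q (φ y))) q₀ := AnalyticAt.fun_comp (tc_an α χ hb₀ hυ hυl) hqφ
    have hrow : ∀ (v : ℂ × ℂ) (i : Fin (k + 2)), AnalyticAt ℂ (fun y => fderiv ℂ (fun y => χ.q (φ y)) y v i) q₀ := by
      intro v i
      have h2 : AnalyticAt ℂ (fun A : ℂ × ℂ →L[ℂ] Vd (k + 2) => A v) (fderiv ℂ (fun y => χ.q (φ y)) q₀) :=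
        (ContinuousLinearMap.apply ℂ (Vd (k + 2)) v).analyticAt _
      have h3 : AnalyticAt ℂ (fun y => fderiv ℂ (fun y => χ.q (φ y)) y v) q₀ :=
        AnalyticAt.comp (g := fun A : ℂ × ℂ →L[ℂ] Vd (k + 2) => A v) (f := fun y => fderiv ℂ (fun y => χ.q (φ y)) y) h2 hqφ.fderiv
      exact (analyticAt_pi_iff.1 h3) i
    have hlamφ : AnalyticAt ℂ (fun y => lam (φ y)) q₀ := AnalyticAt.fun_comp hlam hφ
    have hdet : AnalyticAt ℂ (fun y => (Matrix.of fun i j => (Fin.cons (fderiv ℂ (fun y => χ.q (φ y)) y (1, 0))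
        (Fin.cons (fderiv ℂ (fun y => χ.q (φ y)) y (0, 1)) (lam (φ y))) : Fin (k + 2) → Vd (k + 2)) i j).det) q₀ := by
      refine Rf_det_an fun i j => ?_
      refine Fin.cases ?_ (fun i => ?_) i
      · exact hrow _ j
      · refine Fin.cases ?_ (fun i => ?_) i
        · exact hrow _ j
        · exact (analyticAt_pi_iff.1 ((analyticAt_pi_iff.1 hlamφ) i)) j
    refine (hdet.mul htc).congr ?_
    have hφt : Tendsto φ (𝓝 q₀) (𝓝 (φ q₀)) := hφ.continuousAt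
    filter_upwards [hev.eventually_nhds, hφ.eventually_analyticAt, hφt.eventually hfr, hφt.eventually (Rf_lift L χ hx₀ hU hυ hυe hυl),
      hφt.eventually (χ.isOpen_U.mem_nhds hU)] with y h1 h2 h3 h4 h5
    have hy : φ y ∈ Yl X Λ u p e s := h1.self_of_nhds.1
    -- tangent vectors
    have htan : ∀ v : ℂ × ℂ, Tan (Yl X Λ u p e s) (φ y) (fderiv ℂ φ y v) := by
      intro v
      have hl : AnalyticAt ℂ (fun z : ℂ => y + z • v) 0 := by fun_prop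
      have h0 : y + (0 : ℂ) • v = y := by simp
      have hσ : AnalyticAt ℂ φ (y + (0 : ℂ) • v) := by rw [h0]; exact h2
      refine ⟨fun z => φ (y + z • v), ⟨AnalyticAt.comp (g := φ) (f := fun z : ℂ => y + z • v) hσ hl, ?_⟩, by simp, ?_⟩
      · have ht : Tendsto (fun z : ℂ => y + z • v) (𝓝 0) (𝓝 y) := by
          have h6 := hl.continuousAt.tendsto
          rwa [h0] at h6
        exact (ht.eventually h1).mono fun z hz => hz.1
      · have k1 : HasFDerivAt φ (fderiv ℂ φ y) (y + (0 : ℂ) • v) := by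
          rw [h0]; exact h2.differentiableAt.hasFDerivAt
        have k2 : HasDerivAt (fun z : ℂ => y + z • v) v 0 := by
          have k3 : HasDerivAt (fun z : ℂ => z • v) ((1 : ℂ) • v) 0 := (hasDerivAt_id (0 : ℂ)).smul_const v
          rw [one_smul] at k3
          exact k3.const_add y
        exact (k1.comp_hasDerivAt (0 : ℂ) k2).deriv
    have hchain : ∀ v : ℂ × ℂ, fderiv ℂ χ.q (φ y) (fderiv ℂ φ y v) = fderiv ℂ (fun y => χ.q (φ y)) y v := by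
      intro v
      have k3 : HasFDerivAt (fun y => χ.q (φ y)) ((fderiv ℂ χ.q (φ y)).comp (fderiv ℂ φ y)) y :=
        (χ.q_an _ h5).differentiableAt.hasFDerivAt.comp y h2.differentiableAt.hasFDerivAt
      rw [k3.fderiv]
      rfl
    have hℓ : ∀ j, ∃ w : EN N, Tan X (φ y) w ∧ fderiv ℂ χ.q (φ y) w = lam (φ y) j := fun j => exists_tan L.cone χ hy.1 h5 _
    choose ℓ hℓ1 hℓ2 using hℓ
    have hℓ3 : ∀ j, DV X Λ u (φ y) (ℓ j) (fr κ c (wl Λ u p e s (φ y)) j) := fun j => h3 hy j _ (hℓ1 j) (hℓ2 j)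
    obtain ⟨a, ha⟩ := L.tan hy (htan (1, 0))
    obtain ⟨b, hb⟩ := L.tan hy (htan (0, 1))
    show _ = α.toFun (p + wl Λ u p e s (φ y) • e) (φ y) (Fin.cons (fderiv ℂ φ y (1, 0)) (Fin.cons (fderiv ℂ φ y (0, 1)) (lf X Λ u p e s κ c (φ y))))
    rw [L.frame_indep α hy ha hb (L.lf_spec hy) hℓ3, toFun_eq L.cone L.tor α χ hy.1 h5 (Ln.wl_spec hy).2 (h4 hy) _ (by
      intro i
      refine Fin.cases ?_ (fun i => ?_) i
      · exact ha.tan
      · refine Fin.cases ?_ (fun i => ?_) i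
        · exact hb.tan
        · exact hℓ1 i)]
    refine congrArg (fun z : ℂ => z * tc α χ υ (χ.q (φ y))) (congrArg Matrix.det ?_)
    ext i j
    refine Fin.cases ?_ (fun i => ?_) i
    · exact (congrFun (hchain (1, 0)) j).symm
    · refine Fin.cases ?_ (fun i => ?_) i
      · exact (congrFun (hchain (0, 1)) j).symm
      · exact (congrFun (hℓ2 i) j).symm

theorem Ln.form_eq (L : Ln X Λ u D κ p e c Γ₀ s) (α : VForm X Λ u) (z : ℂ) {x v w : EN N} (hx : x ∈ Yl X Λ u p e s)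
    (hv : Tan (Yl X Λ u p e s) x v) (hw : Tan (Yl X Λ u p e s) x w) {ℓ : Fin k → EN N}
    (hℓ : ∀ j, DV X Λ u x (ℓ j) (fr κ c (wl Λ u p e s x) j)) :
    (L.form α).toFun z x v w = α.toFun (p + wl Λ u p e s x • e) x (Fin.cons v (Fin.cons w ℓ)) := by
  obtain ⟨a, ha⟩ := L.tan hx hv
  obtain ⟨b, hb⟩ := L.tan hx hw
  exact L.frame_indep α hx ha hb (L.lf_spec hx) hℓ

end Pool.Agent.TG

end

section

/-!
# TG Y Br: short paths in the slab

`sl y = cons y.2 (ρ⁻¹ (p + (z₀ + r y.1) e - c'))`: the slice of the straight chart `χ` over the line.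

`Ln.slice_chart`: `r > 0` small: for `‖y.1‖ < 2`: `‖z₀ + r y.1‖ < s` and the tail of `sl y` stays in the open ball of radius `2` (at `y.1 = 0` it is `tl q₀`).  `U' = {x ∈ χ.U : ‖tl (χ.q x) - tl q₀‖ < η', ‖q'₁ x‖ < 2}`, `q' x = ((ℓ (ms c' ρ (χ.q x) - p) - z₀) / r, (χ.q x) 0)` with a linear form
`ℓ`, `ℓ e = 1`; `η'` such that `ρ η' ≤ s ‖e‖` and `r` small w.r.t. `η'` (so that `sl y` satisfies the conditions).  `surj`: let `x ∈ Y ∩ U'`: `ms c' ρ (χ.q x) - (p + wl x • e) ∈ Λ` has norm `≤ ρ η' + ‖(z₀ - wl x) • e‖ ≤ s ‖e‖ + 2 s ‖e‖`, so it is `0` (`L.small`): `χ.q x = sl (q' x)`, and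
`x = a • χ.σ (χ.q x)`.  `σ_mem`: `χ.σ (sl y) ∈ X` is over `p + (z₀ + r y.1) • e` (`Str.lift`), `wl = z₀ + r y.1` (`Ln.wl_eq`).  `Mon`: `mo z₀ r 1 0 y = z₀ + r y.1`.

`Ln.slice_tc`: `form_eq` at `x = χ.σ (sl y)` with the vectors `∂₁ = fderiv χ'.σ y (1, 0) = fderiv χ.σ (sl y) (cons 0 ((r / ρ) e))`, `∂₂ = fderiv χ.σ (sl y) (Pi.single 0 1)` and the frame `ℓ j = fderiv χ.σ (sl y) (cons 0 (ρ⁻¹ fr_j))` (`dv_iff` with `υ = ms c' ρ`; `wl x = z₀ + r y.1`); `toFun_eq`: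
the matrix has the rows `(0, (r / ρ) e)`, `(1, 0)`, `(0, ρ⁻¹ fr_j)`; its determinant is `- (r / ρ) ρ⁻ᵏ dt` (expand along the row `1` or the column `0`: `Matrix.det_succ_column_zero`).

`Ln.irel_bridge`: let `χ, c', ρ, A, q, q'` be from `IRel`: `ms c' ρ q = p + z • e = ms c' ρ q'`, so `tl q = tl q'`.  `χ', r` from `slice_chart` with `z₀ = z`, `q₀ = q`; `A' y = - (r / ρ ^ (k + 1)) * dt κ e c (z + r y.1) * A (sl y)` is a primitive of the restricted form (`slice_tc`, `IsPrim` for `χ`;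
analytic: `dt` is analytic at points of norm `< s`: `L.κ_an`, `L.c_an`); the points `(0, q 0)`, `(0, q' 0)` have `sl = q, q'`.  `v' = (A' (0, q' 0) - A' (0, q 0)) / r = - dt κ e c z * v`.
-/

set_option autoImplicit false

open Topology Filter Metric

namespace Pool.Agent.TG

open Pool.Agent.H36.BP (EN fs wd)
open Pool.Agent.H14.PP (IsCone CurveAt Tan)
open Pool.Agent.H62.EF (MN pr)
open Pool.Agent.AD (Vd Chart Charts IsGerm)

variable {N k : ℕ}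

variable {X : Set (EN N)} {Λ : AddSubgroup (Vd (k + 1))} {u : EN N → Vd (k + 1)} {D B : Set (Vd (k + 1))}
  {κ : Vd (k + 1) → Vd (k + 1)} {p e : Vd (k + 1)} {c : ℂ → Vd (k + 1)} {Γ₀ : AddSubgroup ℂ} {s : ℝ}

theorem Ln.slice_tc (L : Ln X Λ u D κ p e c Γ₀ s) (α : VForm X Λ u) (χ : Chart (k + 2) X) {c' : Vd (k + 1)} {ρ : ℝ} (hs : Str Λ u χ c' ρ)
    {z₀ : ℂ} {r : ℝ} (hr : 0 < r) {χ' : Pool.Agent.H14.PP.Chart (Yl X Λ u p e s)}
    (hσ : ∀ y ∈ ball (0 : ℂ × ℂ) 2, ‖z₀ + r * y.1‖ < s ∧ slc p e c' ρ z₀ r y ∈ ball (0 : Vd (k + 2)) 2 ∧ χ'.σ y = χ.σ (slc p e c' ρ z₀ r y))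
    (υ : ℂ × ℂ → ℂ) {y : ℂ × ℂ} (hy : y ∈ ball (0 : ℂ × ℂ) 2) :
    Pool.Agent.H62.EL.tc (L.form α) χ' υ y =
      -((r : ℂ) / (ρ : ℂ) ^ (k + 1)) * dt κ e c (z₀ + r * y.1) * tc α χ (ms c' ρ) (slc p e c' ρ z₀ r y) := by
  obtain ⟨hz, hq, hσy⟩ := hσ y hy
  have hρ := hs.pos
  have hρ0 : (ρ : ℂ) ≠ 0 := by exact_mod_cast hρ.ne'
  have hmY := (χ'.σ_mem y hy).1
  have hmχ := χ.σ_mem _ hq
  have hlift := hs.lift _ hq
  rw [Br_slc_ms p e c' hρ] at hlift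
  have hwl : wl Λ u p e s (χ'.σ y) = z₀ + r * y.1 := by
    rw [hσy]
    exact L.wl_eq hz.le hlift
  have hder : fderiv ℂ χ'.σ y = (fderiv ℂ χ.σ (slc p e c' ρ z₀ r y)).comp (Br_slL e ρ r) := by
    have h1 : HasFDerivAt (fun y => χ.σ (slc p e c' ρ z₀ r y)) ((fderiv ℂ χ.σ (slc p e c' ρ z₀ r y)).comp (Br_slL e ρ r)) y :=
      (χ.σ_an _ hq).differentiableAt.hasFDerivAt.comp y (Br_slc_deriv p e c' ρ z₀ r y)
    refine (h1.congr_of_eventuallyEq ?_).fderiv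
    filter_upwards [isOpen_ball.mem_nhds hy] with y' hy'
    exact (hσ y' hy').2.2
  have hpart : Pool.Agent.H14.PP.IsOpenPart (Yl X Λ u p e s) (Yl X Λ u p e s) :=
    ⟨subset_rfl, (L.isCone).smul_mem, fun x hx => Eventually.of_forall fun _ h => h⟩
  have htan : ∀ w : ℂ × ℂ, Tan (Yl X Λ u p e s) (χ'.σ y) (fderiv ℂ χ'.σ y w) := fun w => χ'.tan hpart hy hmY w
  -- the frame
  have hframe : ∀ j, DV X Λ u (χ'.σ y) (fderiv ℂ χ.σ (slc p e c' ρ z₀ r y) (Fin.cons (α := fun _ => ℂ) 0 ((ρ : ℂ)⁻¹ • fr κ c (z₀ + r * y.1) j)))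
      (fr κ c (wl Λ u p e s (χ'.σ y)) j) := by
    intro j
    rw [hwl, hσy]
    refine (dv_iff L.cone L.tor L.lat χ hmχ.1 hmχ.2.1 (υ := ms c' ρ) ?_ ?_).2 ⟨tan_sigma χ hq _, ?_⟩
    · exact analyticAt_const.add (((ρ : ℂ) • tlL (k := k)).analyticAt _)
    · rw [hmχ.2.2]
      filter_upwards [isOpen_ball.mem_nhds hq] with q' hq'
      exact hs.lift q' hq'
    · rw [χ.fderiv_sigma hq]
      have h1 : HasFDerivAt (ms (k := k) c' ρ) ((ρ : ℂ) • tlL (k := k)) (χ.q (χ.σ (slc p e c' ρ z₀ r y))) :=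
        (((ρ : ℂ) • tlL (k := k)).hasFDerivAt).const_add c'
      rw [h1.fderiv]
      show (ρ : ℂ) • ((ρ : ℂ)⁻¹ • fr κ c (z₀ + r * y.1) j) = fr κ c (z₀ + r * y.1) j
      rw [smul_smul, mul_inv_cancel₀ hρ0, one_smul]
  unfold Pool.Agent.H62.EL.tc
  rw [L.form_eq α (υ y) hmY (htan _) (htan _) hframe, hwl]
  have hT : ∀ i : Fin (k + 2), Tan X (χ'.σ y) ((Fin.cons (fderiv ℂ χ'.σ y (1, 0)) (Fin.cons (fderiv ℂ χ'.σ y (0, 1))
      fun j => fderiv ℂ χ.σ (slc p e c' ρ z₀ r y) (Fin.cons (α := fun _ => ℂ) 0 ((ρ : ℂ)⁻¹ • fr κ c (z₀ + r * y.1) j))) : Fin (k + 2) → EN N) i) := by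
    intro i
    rw [hσy]
    refine Fin.cases ?_ (fun i' => Fin.cases ?_ (fun j => ?_) i') i
    · show Tan X _ (fderiv ℂ χ'.σ y (1, 0))
      rw [hder]
      exact tan_sigma χ hq _
    · show Tan X _ (fderiv ℂ χ'.σ y (0, 1))
      rw [hder]
      exact tan_sigma χ hq _
    · exact tan_sigma χ hq _
  have hms : ms c' ρ (χ.q (χ'.σ y)) = p + (z₀ + r * y.1) • e := by
    rw [hσy, hmχ.2.2]
    exact Br_slc_ms p e c' hρ z₀ r y
  have hxU : χ'.σ y ∈ χ.U := by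
    rw [hσy]
    exact hmχ.2.1
  have hlift' : u (χ'.σ y) - (p + (z₀ + r * y.1) • e) ∈ Λ := by
    rw [hσy]
    exact hlift
  rw [toFun_eq L.cone L.tor α χ hmY.1 hxU hlift' hms _ hT]
  have hqσ : χ.q (χ'.σ y) = slc p e c' ρ z₀ r y := by
    rw [hσy]
    exact hmχ.2.2
  have hM : (Matrix.of fun i j => fderiv ℂ χ.q (χ'.σ y) ((Fin.cons (fderiv ℂ χ'.σ y (1, 0)) (Fin.cons (fderiv ℂ χ'.σ y (0, 1))
      fun j => fderiv ℂ χ.σ (slc p e c' ρ z₀ r y) (Fin.cons (α := fun _ => ℂ) 0 ((ρ : ℂ)⁻¹ • fr κ c (z₀ + r * y.1) j))) : Fin (k + 2) → EN N) i) j) =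
      Matrix.of fun i j => (Fin.cons (Fin.cons (α := fun _ => ℂ) 0 (((r : ℂ) * (ρ : ℂ)⁻¹) • e)) (Fin.cons (Pi.single 0 1)
      fun l => Fin.cons (α := fun _ => ℂ) 0 ((ρ : ℂ)⁻¹ • fr κ c (z₀ + r * y.1) l)) : Fin (k + 2) → Vd (k + 2)) i j := by
    have h1 : ∀ w : Vd (k + 2), fderiv ℂ χ.q (χ'.σ y) (fderiv ℂ χ.σ (slc p e c' ρ z₀ r y) w) = w := by
      intro w
      rw [hσy]
      exact χ.fderiv_sigma hq w
    funext i
    refine Fin.cases ?_ (fun i' => Fin.cases ?_ (fun j => ?_) i') i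
    · show fderiv ℂ χ.q (χ'.σ y) (fderiv ℂ χ'.σ y (1, 0)) = Fin.cons (α := fun _ => ℂ) 0 (((r : ℂ) * (ρ : ℂ)⁻¹) • e)
      rw [hder, ContinuousLinearMap.comp_apply, h1, Br_slL_apply]
      congr 1
      rw [smul_smul]
      congr 1
      ring
    · show fderiv ℂ χ.q (χ'.σ y) (fderiv ℂ χ'.σ y (0, 1)) = Pi.single 0 1
      rw [hder, ContinuousLinearMap.comp_apply, h1, Br_slL_apply]
      funext m
      refine Fin.cases ?_ (fun m' => ?_) m
      · show (1 : ℂ) = (Pi.single 0 1 : Vd (k + 2)) 0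
        rw [Pi.single_eq_same]
      · show (ρ : ℂ)⁻¹ * ((r * 0) * e m') = (Pi.single 0 1 : Vd (k + 2)) m'.succ
        rw [Pi.single_eq_of_ne (Fin.succ_ne_zero m')]
        ring
    · show fderiv ℂ χ.q (χ'.σ y) (fderiv ℂ χ.σ (slc p e c' ρ z₀ r y) (Fin.cons (α := fun _ => ℂ) 0 ((ρ : ℂ)⁻¹ • fr κ c (z₀ + r * y.1) j))) =
        Fin.cons (α := fun _ => ℂ) 0 ((ρ : ℂ)⁻¹ • fr κ c (z₀ + r * y.1) j)
      exact h1 _
  rw [hM, Br_det, hqσ]
  unfold dt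
  rw [inv_pow]
  ring

theorem Ln.irel_bridge (L : Ln X Λ u D κ p e c Γ₀ s) {α : VForm X Λ u} {ε : ℝ} {z : ℂ} (hz : ‖z‖ < s) {m m' : MN N} {v : ℂ}
    (h : IRel α ε (p + z • e) m m' v) : Pool.Agent.H62.EL.IRel (L.form α) ε z m m' (-dt κ e c z * v) := by
  obtain ⟨χ, c', ρ, A, q, q', hs, hA, hq, hq', hms, hms', hm, hm', hpath, hv⟩ := h
  have hρ := hs.pos
  have hρ0 : (ρ : ℂ) ≠ 0 := by exact_mod_cast hρ.ne'
  obtain ⟨χ', r, hmon, hσ, -⟩ := L.slice_chart χ hs hq hz hms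
  have hr := hmon.pos
  have hr0 : (r : ℂ) ≠ 0 := by exact_mod_cast hr.ne'
  have hsl : ∀ (q : Vd (k + 2)), ms c' ρ q = p + z • e → slc p e c' ρ z r (0, q 0) = q := by
    intro q h
    refine Br_slc_eq p e c' hρ z r (y := (0, q 0)) rfl ?_
    rw [mul_zero, add_zero]
    exact h
  have hy : ∀ (q : Vd (k + 2)), q ∈ ball (0 : Vd (k + 2)) 2 → ((0 : ℂ), q 0) ∈ ball (0 : ℂ × ℂ) 2 := by
    intro q hq
    rw [Br_ball_iff]
    refine ⟨?_, ((Br_ball_iff' q).1 hq).1⟩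
    show ‖(0 : ℂ)‖ < 2
    rw [norm_zero]
    norm_num
  have hb : ∀ y ∈ ball (0 : ℂ × ℂ) 2, AnalyticAt ℂ (fun y : ℂ × ℂ => dt κ e c (z + r * y.1)) y := by
    intro y hy
    have h1 : AnalyticAt ℂ (fun y : ℂ × ℂ => z + (r : ℂ) * y.1) y :=
      analyticAt_const.add (analyticAt_const.mul ((ContinuousLinearMap.fst ℂ ℂ ℂ).analyticAt y))
    exact AnalyticAt.fun_comp (g := dt κ e c) (f := fun y : ℂ × ℂ => z + (r : ℂ) * y.1) (Br_dt_an L (hσ y hy).1.le) h1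
  have hAs : ∀ y ∈ ball (0 : ℂ × ℂ) 2, AnalyticAt ℂ (fun y => A (slc p e c' ρ z r y)) y :=
    fun y hy => (hA.an _ (hσ y hy).2.1).fun_comp (Br_slc_an p e c' ρ z r y)
  refine ⟨χ', z, r, fun y => -((r : ℂ) / (ρ : ℂ) ^ (k + 1)) * dt κ e c (z + r * y.1) * A (slc p e c' ρ z r y), (0, q 0), (0, q' 0), hmon,
    ⟨?_, ?_, ?_⟩, hy q hq, hy q' hq', ?_, ?_, ?_, ?_, ?_, ?_⟩
  · intro y hy
    exact (analyticAt_const.mul (hb y hy)).mul (hAs y hy)
  · intro y hy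
    rw [L.slice_tc α χ hs hr hσ _ hy]
    have h1 : HasFDerivAt (fun y => A (slc p e c' ρ z r y)) ((fderiv ℂ A (slc p e c' ρ z r y)).comp (Br_slL e ρ r)) y :=
      (hA.an _ (hσ y hy).2.1).differentiableAt.hasFDerivAt.comp y (Br_slc_deriv p e c' ρ z r y)
    have h2 : HasDerivAt (fun t : ℂ => A (slc p e c' ρ z r (y + t • ((0 : ℂ), (1 : ℂ))))) (tc α χ (ms c' ρ) (slc p e c' ρ z r y)) 0 := by
      have h3 : HasDerivAt (fun t : ℂ => y + t • ((0 : ℂ), (1 : ℂ))) ((0 : ℂ), (1 : ℂ)) 0 := by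
        have h4 := ((hasDerivAt_id (0 : ℂ)).smul_const ((0 : ℂ), (1 : ℂ))).const_add y
        rwa [one_smul] at h4
      have h5 : HasFDerivAt (fun y => A (slc p e c' ρ z r y)) ((fderiv ℂ A (slc p e c' ρ z r y)).comp (Br_slL e ρ r))
          (y + (0 : ℂ) • ((0 : ℂ), (1 : ℂ))) := by
        rw [zero_smul, add_zero]
        exact h1
      have h6 := h5.comp_hasDerivAt (0 : ℂ) h3
      have h7 : ((fderiv ℂ A (slc p e c' ρ z r y)).comp (Br_slL e ρ r)) ((0 : ℂ), (1 : ℂ)) = tc α χ (ms c' ρ) (slc p e c' ρ z r y) := by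
        rw [ContinuousLinearMap.comp_apply, Br_slL_apply, ← hA.der _ (hσ y hy).2.1]
        congr 1
        funext m
        refine Fin.cases ?_ (fun m' => ?_) m
        · show (1 : ℂ) = (Pi.single 0 1 : Vd (k + 2)) 0
          rw [Pi.single_eq_same]
        · show (ρ : ℂ)⁻¹ * ((r * 0) * e m') = (Pi.single 0 1 : Vd (k + 2)) m'.succ
          rw [Pi.single_eq_of_ne (Fin.succ_ne_zero m')]
          ring
      rw [h7] at h6
      exact h6
    have h8 : HasDerivAt (fun t : ℂ => (fun y : ℂ × ℂ => -((r : ℂ) / (ρ : ℂ) ^ (k + 1)) * dt κ e c (z + r * y.1) * A (slc p e c' ρ z r y))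
        (y + t • ((0 : ℂ), (1 : ℂ)))) (-((r : ℂ) / (ρ : ℂ) ^ (k + 1)) * dt κ e c (z + r * y.1) * tc α χ (ms c' ρ) (slc p e c' ρ z r y)) 0 := by
      have h9 := h2.const_mul (-((r : ℂ) / (ρ : ℂ) ^ (k + 1)) * dt κ e c (z + r * y.1))
      refine h9.congr_of_eventuallyEq (Eventually.of_forall fun t => ?_)
      show -((r : ℂ) / (ρ : ℂ) ^ (k + 1)) * dt κ e c (z + r * (y.1 + t * 0)) * A (slc p e c' ρ z r (y + t • ((0 : ℂ), (1 : ℂ)))) =
        -((r : ℂ) / (ρ : ℂ) ^ (k + 1)) * dt κ e c (z + r * y.1) * A (slc p e c' ρ z r (y + t • ((0 : ℂ), (1 : ℂ))))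
      rw [mul_zero, add_zero]
    have h10 : HasDerivAt (fun t : ℂ => (fun y : ℂ × ℂ => -((r : ℂ) / (ρ : ℂ) ^ (k + 1)) * dt κ e c (z + r * y.1) * A (slc p e c' ρ z r y))
        (y + t • ((0 : ℂ), (1 : ℂ)))) (fderiv ℂ (fun y : ℂ × ℂ => -((r : ℂ) / (ρ : ℂ) ^ (k + 1)) * dt κ e c (z + r * y.1) *
          A (slc p e c' ρ z r y)) y ((0 : ℂ), (1 : ℂ))) 0 := by
      have h3 : HasDerivAt (fun t : ℂ => y + t • ((0 : ℂ), (1 : ℂ))) ((0 : ℂ), (1 : ℂ)) 0 := by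
        have h4 := ((hasDerivAt_id (0 : ℂ)).smul_const ((0 : ℂ), (1 : ℂ))).const_add y
        rwa [one_smul] at h4
      have h11 := ((analyticAt_const.mul (hb y hy)).mul (hAs y hy) : AnalyticAt ℂ (fun y : ℂ × ℂ =>
        -((r : ℂ) / (ρ : ℂ) ^ (k + 1)) * dt κ e c (z + r * y.1) * A (slc p e c' ρ z r y)) y).differentiableAt.hasFDerivAt
      have h5 : HasFDerivAt (fun y : ℂ × ℂ => -((r : ℂ) / (ρ : ℂ) ^ (k + 1)) * dt κ e c (z + r * y.1) * A (slc p e c' ρ z r y))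
          (fderiv ℂ (fun y : ℂ × ℂ => -((r : ℂ) / (ρ : ℂ) ^ (k + 1)) * dt κ e c (z + r * y.1) * A (slc p e c' ρ z r y)) y)
          (y + (0 : ℂ) • ((0 : ℂ), (1 : ℂ))) := by
        rw [zero_smul, add_zero]
        exact h11
      exact h5.comp_hasDerivAt (0 : ℂ) h3
    exact h10.unique h8
  · intro t ht
    have h1 : ((t : ℂ), (0 : ℂ)) ∈ ball (0 : ℂ × ℂ) 2 := by
      rw [Br_ball_iff]
      refine ⟨ht, ?_⟩
      show ‖(0 : ℂ)‖ < 2
      rw [norm_zero]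
      norm_num
    show -((r : ℂ) / (ρ : ℂ) ^ (k + 1)) * dt κ e c (z + r * t) * A (slc p e c' ρ z r (t, 0)) = 0
    rw [hA.zero _ (hσ _ h1).2.1 rfl, mul_zero]
  · show z + r * (0 : ℂ) = z
    rw [mul_zero, add_zero]
  · show z + r * (0 : ℂ) = z
    rw [mul_zero, add_zero]
  · rw [(hσ _ (hy q hq)).2.2, hsl q hms]
    exact hm
  · rw [(hσ _ (hy q' hq')).2.2, hsl q' hms']
    exact hm'
  · intro θ hθ
    have h1 : ms c' ρ (q + (θ : ℂ) • (q' - q)) = p + z • e := by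
      have h2 : ms c' ρ (q + (θ : ℂ) • (q' - q)) = ms c' ρ q + (θ : ℂ) • (ms c' ρ q' - ms c' ρ q) := by
        unfold ms
        rw [tl_add, tl_smul, tl_sub, smul_add, smul_comm (ρ : ℂ) (θ : ℂ), add_sub_add_left_eq_sub, ← smul_sub]
        abel
      rw [h2, hms, hms', sub_self, smul_zero, add_zero]
    have hb2 : q + (θ : ℂ) • (q' - q) ∈ ball (0 : Vd (k + 2)) 2 := by
      have h3 := (convex_ball (0 : Vd (k + 2)) 2).add_smul_sub_mem hq hq' hθ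
      have h4 : (θ : ℂ) • (q' - q) = θ • (q' - q) := by
        funext i
        show (θ : ℂ) * (q' - q) i = θ • (q' - q) i
        rw [Complex.real_smul]
      rw [h4]
      exact h3
    have h5 : ((0 : ℂ), q 0) + (θ : ℂ) • (((0 : ℂ), q' 0) - ((0 : ℂ), q 0)) = ((0 : ℂ), (q + (θ : ℂ) • (q' - q)) 0) := by
      refine Prod.ext ?_ ?_
      · show (0 : ℂ) + (θ : ℂ) * (0 - 0) = 0
        ring
      · rfl
    rw [h5, (hσ _ (hy _ hb2)).2.2, hsl _ h1]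
    exact hpath θ hθ
  · show -dt κ e c z * v = (-((r : ℂ) / (ρ : ℂ) ^ (k + 1)) * dt κ e c (z + r * 0) * A (slc p e c' ρ z r (0, q' 0)) -
      -((r : ℂ) / (ρ : ℂ) ^ (k + 1)) * dt κ e c (z + r * 0) * A (slc p e c' ρ z r (0, q 0))) / r
    rw [hsl q hms, hsl q' hms', mul_zero, add_zero, hv]
    have hρk : (ρ : ℂ) ^ (k + 1) ≠ 0 := pow_ne_zero _ hρ0
    field_simp
    ring

end Pool.Agent.TG

end

section

/-!
# TG Y YCap: uniform charts of the slab over an annulus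

At `x₀ ∈ Y` with `z₀ = wl x₀`, `r₁ ≤ ‖z₀‖ ≤ r₂`: `p + z₀ • e ∉ D` (`L.off`), so `x₀` is `IsStr` (`L.sub`), and `x₀ ∈ T.W k'` for some `k'` (`TubeG.cover`, `z₀ ∈ ball 0 s'`, `wl x₀ - z₀ = 0`).  `T.W k'` is an open cone: there is `η > 0` such that `x ∈ X`, `dist (pr x) (pr x₀) < η` implies `x ∈ T.W k'`
(`near_of_pr`, `TubeG.W_smul`).  `exists_str_chart` with this `η`: `χ`, `c' = p + z₀ • e`, `χ.q x₀ = 0`; `slice_chart` (`q₀ = 0`): `χ'`, all points of which are points of `χ`, hence in `T.W k'`; `x₀ ∈ χ'.U`, `χ'.q x₀ = 0`.  `Pool.Agent.H62.EL.cap_of_small` for `Y` with `η = 2 s`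
(`‖mo z₀ r 1 0 y - z₀‖ = ‖r y.1‖ < 2 s` from `‖z₀ + r y.1‖ < s`, `‖z₀‖ < s`; `L.big`) gives `r_{x₀} > 0` with `EL.Cap .. z₀ (pr x₀) r_{x₀}`.
Compactness: the set `{x ∈ Y : ‖x‖ = 1, r₁ ≤ ‖wl x‖ ≤ r₂}` is compact (`Ln.isCone`, `compact_unit`; `wl` is continuous on `Y` by `Ln.exists_loc`); if the assertion fails there are `x_n` in it without a chart for `r = 1/(n+1)`, `x_n → x₀` along a subsequence, `wl x_n → wl x₀`, `pr x_n → pr x₀`, and the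
chart of `x₀` is `EL.Cap` at `(wl x_n, pr x_n)` with radius `r_{x₀} / 2` for large `n`: contradiction.  (An arbitrary `x₀ ∈ Y` is a multiple of a unit vector: `wl_smul`, `pr_smul`.)
-/

set_option autoImplicit false

open Topology Filter Metric

namespace Pool.Agent.TG

open Pool.Agent.H36.BP (EN fs wd)
open Pool.Agent.H14.PP (IsCone CurveAt Tan)
open Pool.Agent.H62.EF (MN pr)
open Pool.Agent.AD (Vd Chart Charts IsGerm)

variable {N k : ℕ}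

variable {X : Set (EN N)} {Λ : AddSubgroup (Vd (k + 1))} {u : EN N → Vd (k + 1)} {D B : Set (Vd (k + 1))}
  {κ : Vd (k + 1) → Vd (k + 1)} {p e : Vd (k + 1)} {c : ℂ → Vd (k + 1)} {Γ₀ : AddSubgroup ℂ} {s : ℝ}

/-- the chart at one point -/
private theorem ycap_at (L : Ln X Λ u D κ p e c Γ₀ s) {T : Pool.Agent.H62.EL.TubeData (Yl X Λ u p e s)} {s' η : ℝ}
    (hT : Pool.Agent.H62.EL.TubeG Γ₀ (wl Λ u p e s) 0 s' η T) {x₀ : EN N} (hx₀ : x₀ ∈ Yl X Λ u p e s) (h0 : wl Λ u p e s x₀ ≠ 0)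
    (hs : ‖wl Λ u p e s x₀‖ < s) (hs' : ‖wl Λ u p e s x₀‖ < s') :
    ∃ (r : ℝ) (χ : Pool.Agent.H14.PP.Chart (Yl X Λ u p e s)) (c' : ℂ) (ρ : ℝ) (k' : Fin T.m), 0 < r ∧
        Pool.Agent.H62.EL.Cap Γ₀ (wl Λ u p e s) χ c' ρ (wl Λ u p e s x₀) (pr x₀) r ∧ ∀ y ∈ ball (0 : ℂ × ℂ) 2, χ.σ y ∈ T.W k' := by
  set z₀ := wl Λ u p e s x₀ with hz₀
  have hspec := Ln.wl_spec hx₀
  have hoff := L.off z₀ h0 hs.le
  have hstr := L.sub _ hoff x₀ hx₀.1 hspec.2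
  have hz₀Γ : wl Λ u p e s x₀ - z₀ ∈ Γ₀ := by
    rw [hz₀, sub_self]
    exact Γ₀.zero_mem
  obtain ⟨k', hk'⟩ := hT.cover z₀ (mem_ball_zero_iff.2 hs') x₀ hx₀ hz₀Γ
  have hx₀0 : x₀ ≠ 0 := ne_zero L.cone hx₀.1
  obtain ⟨η₁, hη₁, hnear⟩ := Pool.Agent.H62.EF.near_of_pr hx₀0 ((hT.W_open k').mem_nhds hk')
  have hW : ∀ x : EN N, x ≠ 0 → dist (pr x) (pr x₀) < η₁ → x ∈ T.W k' := by
    intro x hx hd
    obtain ⟨a, ha, hax⟩ := hnear x hx hd
    have h1 := hT.W_smul k' _ hax a⁻¹ (inv_ne_zero ha)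
    rwa [smul_smul, inv_mul_cancel₀ ha, one_smul] at h1
  obtain ⟨χ, ρ, hU, hq0, hStr, hχ⟩ := exists_str_chart L.cone L.tor hstr hη₁
  have hms0 : ms (p + z₀ • e) ρ (0 : Vd (k + 2)) = p + z₀ • e := by
    have h1 : tl (0 : Vd (k + 2)) = 0 := rfl
    unfold ms
    rw [h1, smul_zero, add_zero]
  obtain ⟨χ', r, hMon, hσ, hsl⟩ := L.slice_chart χ hStr (q₀ := 0) (mem_ball_self two_pos) hs hms0
  obtain ⟨hU', hq'⟩ := hsl x₀ hx₀ hU rfl (by rw [hq0]; exact hms0)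
  have hq'0 : χ'.q x₀ = 0 := by
    rw [hq', hq0]
    rfl
  have hσW : ∀ y ∈ ball (0 : ℂ × ℂ) 2, χ'.σ y ∈ T.W k' := by
    intro y hy
    obtain ⟨-, h2, h3⟩ := hσ y hy
    rw [h3]
    exact hW _ (ne_zero L.cone (χ.σ_mem _ h2).1) (hχ _ h2).1
  obtain ⟨r', hr', hCap⟩ := Pool.Agent.H62.EL.cap_of_small L.isCone L.torusMap hx₀ hz₀Γ hMon hU' hq'0 (η := 2 * s)
    (fun l hl hln => L.big l hl (by linarith [L.pos])) (fun y hy => by
      obtain ⟨h1, -, -⟩ := hσ y hy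
      have h2 : Pool.Agent.H62.EL.mo z₀ r 1 0 y - z₀ = (z₀ + r * y.1) - z₀ := by
        unfold Pool.Agent.H62.EL.mo
        ring
      rw [h2]
      refine (norm_sub_le _ _).trans_lt ?_
      linarith)
  exact ⟨r', χ', z₀, r, k', hr', hCap, hσW⟩

theorem Ln.wl_cont (L : Ln X Λ u D κ p e c Γ₀ s) : ContinuousOn (wl Λ u p e s) (Yl X Λ u p e s) := by
  intro x hx
  obtain ⟨W, hW, hW'⟩ := L.exists_loc hx
  have h1 : ContinuousWithinAt W (Yl X Λ u p e s) x := hW.continuousAt.continuousWithinAt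
  refine h1.congr_of_eventuallyEq ?_ ?_
  · filter_upwards [nhdsWithin_le_nhds hW', self_mem_nhdsWithin] with y hy hyY
    exact hy hyY
  · exact hW'.self_of_nhds hx

theorem Ln.ycap (L : Ln X Λ u D κ p e c Γ₀ s) {T : Pool.Agent.H62.EL.TubeData (Yl X Λ u p e s)} {s' η : ℝ}
    (hT : Pool.Agent.H62.EL.TubeG Γ₀ (wl Λ u p e s) 0 s' η T) {r₁ r₂ : ℝ} (hr₁ : 0 < r₁) (hr₂ : r₂ < s) (hr₂' : r₂ < s') :
    ∃ r : ℝ, 0 < r ∧ ∀ x₀ ∈ Yl X Λ u p e s, r₁ ≤ ‖wl Λ u p e s x₀‖ → ‖wl Λ u p e s x₀‖ ≤ r₂ →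
      ∃ (χ : Pool.Agent.H14.PP.Chart (Yl X Λ u p e s)) (c' : ℂ) (ρ : ℝ) (k' : Fin T.m),
        Pool.Agent.H62.EL.Cap Γ₀ (wl Λ u p e s) χ c' ρ (wl Λ u p e s x₀) (pr x₀) r ∧ ∀ y ∈ ball (0 : ℂ × ℂ) 2, χ.σ y ∈ T.W k' := by
  set K : Set (EN N) := (Yl X Λ u p e s ∩ sphere (0 : EN N) 1) ∩ (fun x => ‖wl Λ u p e s x‖) ⁻¹' Set.Icc r₁ r₂ with hK
  have hK0 : IsCompact (Yl X Λ u p e s ∩ sphere (0 : EN N) 1) := compact_unit L.isCone
  have hcont : ContinuousOn (fun x => ‖wl Λ u p e s x‖) (Yl X Λ u p e s ∩ sphere (0 : EN N) 1) :=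
    (L.wl_cont.mono Set.inter_subset_left).norm
  have hKc : IsCompact K := hK0.of_isClosed_subset (hcont.preimage_isClosed_of_isClosed hK0.isClosed isClosed_Icc) Set.inter_subset_left
  have hmain : ∃ r : ℝ, 0 < r ∧ ∀ x₀ ∈ K, ∃ (χ : Pool.Agent.H14.PP.Chart (Yl X Λ u p e s)) (c' : ℂ) (ρ : ℝ) (k' : Fin T.m),
        Pool.Agent.H62.EL.Cap Γ₀ (wl Λ u p e s) χ c' ρ (wl Λ u p e s x₀) (pr x₀) r ∧ ∀ y ∈ ball (0 : ℂ × ℂ) 2, χ.σ y ∈ T.W k' := by
    refine hKc.induction_on (p := fun A => ∃ r : ℝ, 0 < r ∧ ∀ x₀ ∈ A, ∃ (χ : Pool.Agent.H14.PP.Chart (Yl X Λ u p e s)) (c' : ℂ) (ρ : ℝ) (k' : Fin T.m),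
        Pool.Agent.H62.EL.Cap Γ₀ (wl Λ u p e s) χ c' ρ (wl Λ u p e s x₀) (pr x₀) r ∧ ∀ y ∈ ball (0 : ℂ × ℂ) 2, χ.σ y ∈ T.W k')
      ⟨1, one_pos, fun x hx => absurd hx (Set.notMem_empty x)⟩ ?_ ?_ ?_
    · rintro A A' hAA ⟨r, hr, h⟩
      exact ⟨r, hr, fun x hx => h x (hAA hx)⟩
    · rintro A A' ⟨r, hr, h⟩ ⟨r', hr', h'⟩
      refine ⟨min r r', lt_min hr hr', ?_⟩
      rintro x (hx | hx)
      · obtain ⟨χ, c', ρ, k', hc, hW⟩ := h x hx
        exact ⟨χ, c', ρ, k', ⟨hc.mon, fun z hz y hy hyz hd =>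
          hc.cap z (closedBall_subset_closedBall (min_le_left _ _) hz) y hy hyz (hd.trans (min_le_left _ _))⟩, hW⟩
      · obtain ⟨χ, c', ρ, k', hc, hW⟩ := h' x hx
        exact ⟨χ, c', ρ, k', ⟨hc.mon, fun z hz y hy hyz hd =>
          hc.cap z (closedBall_subset_closedBall (min_le_right _ _) hz) y hy hyz (hd.trans (min_le_right _ _))⟩, hW⟩
    · intro x hx
      have hxY : x ∈ Yl X Λ u p e s := hx.1.1
      have hx1 : r₁ ≤ ‖wl Λ u p e s x‖ := hx.2.1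
      have hx2 : ‖wl Λ u p e s x‖ ≤ r₂ := hx.2.2
      obtain ⟨r, χ, c', ρ, k', hr, hc, hW⟩ := ycap_at L hT hxY (by
        intro h0
        rw [h0, norm_zero] at hx1
        linarith) (lt_of_le_of_lt hx2 hr₂) (lt_of_le_of_lt hx2 hr₂')
      have h1 : ∀ᶠ y in 𝓝[K] x, ‖wl Λ u p e s y - wl Λ u p e s x‖ < r / 2 := by
        have h2 : ContinuousWithinAt (wl Λ u p e s) K x := (L.wl_cont x hxY).mono fun y hy => hy.1.1
        have h3 := h2.eventually (Metric.ball_mem_nhds _ (half_pos hr))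
        filter_upwards [h3] with y hy
        rwa [dist_eq_norm] at hy
      have h2 : ∀ᶠ y in 𝓝[K] x, dist (pr y) (pr x) < r / 2 :=
        nhdsWithin_le_nhds ((Pool.Agent.H62.EF.continuousAt_pr (ne_zero L.cone hxY.1)).eventually (Metric.ball_mem_nhds _ (half_pos hr)))
      refine ⟨{y | ‖wl Λ u p e s y - wl Λ u p e s x‖ < r / 2 ∧ dist (pr y) (pr x) < r / 2}, h1.and h2, r / 2, half_pos hr, ?_⟩
      rintro y ⟨hy1, hy2⟩
      refine ⟨χ, c', ρ, k', ⟨hc.mon, fun z hz w hw hwz hd => hc.cap z ?_ w hw hwz ?_⟩, hW⟩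
      · rw [mem_closedBall, dist_eq_norm] at hz ⊢
        have e1 : z - wl Λ u p e s x = (z - wl Λ u p e s y) + (wl Λ u p e s y - wl Λ u p e s x) := by ring
        rw [e1]
        refine (norm_add_le _ _).trans ?_
        linarith
      · have := dist_triangle (pr w) (pr y) (pr x)
        linarith
  obtain ⟨r, hr, h⟩ := hmain
  refine ⟨r, hr, fun x₀ hx₀ h1 h2 => ?_⟩
  obtain ⟨a, ha, haY, haS⟩ := exists_unit L.isCone hx₀
  have hw := L.wl_smul hx₀ ha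
  obtain ⟨χ, c', ρ, k', hc, hW⟩ := h (a • x₀) ⟨⟨haY, haS⟩, by
    show ‖wl Λ u p e s (a • x₀)‖ ∈ Set.Icc r₁ r₂
    rw [hw]
    exact ⟨h1, h2⟩⟩
  rw [hw, Pool.Agent.H62.EF.pr_smul x₀ ha] at hc
  exact ⟨χ, c', ρ, k', hc, hW⟩

end Pool.Agent.TG

end
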