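import Pool.Agent.H94.G5T.M36
import Pool.Agent.H94.G5T.M59
import Pool.Agent.H94.G5T.M63
import Pool.Agent.H94.G5T.M66
import Pool.Agent.H94.G5T.M68

/-! The parts of this file: H62.EL.Kz_1, TG.Y.Kz, TG.Y.Kz_1, TG.Y.NcA, TG.Y.NcY. -/

section

/-!
# EL Kz: the integral `II` has a primitive on the annulus

Let `𝒜 = {z : r₁ < ‖z - b‖ < r₂}`; `H_F`, `H_G` from `exists_H` (with `s' = r₂ < s`) for `F` and `G`.  For every `z₀ ∈ 𝒜` choose by `hcap` a chart `χ₀` (with `c₀, ρ₀`), an index `k`, and by `exists_prim` a primitive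
`A₀` of the form in `χ₀`, and by `exists_prim_snd` a primitive `Q` of `bc (T.χ k) (A k) χ₀ (0, 1)` in the second variable (`χ₀.σ p ∈ T.W k ⊆ (T.χ k).U`, `bc_an`).  Let
`Φ x = Q (χ₀.q x) - lam k x` and `K_{z₀} z = Φ (G z) - Φ (F z) - H_G z + H_F z`.  Define `K z := K_z z`.
(1) For `z` near `z₀` (`z ∈ 𝒜`, `‖z - z₀‖ ≤ 3ε`, `dist (pr (F z)) (pr (F z₀)) ≤ ε`): `K z = K_{z₀} z`.  Let `Φ₀` (chart `χ₀`, index `k₀`) belong to `z₀` and `Φ₁` (`χ₁`, `k₁`) to `z`.  Let `χ', c', ρ', p, p'` be from `IRel α ε z (pr (F z))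
(pr (G z)) v`; for `θ ∈ [0, 1]` let `γ θ = χ'.σ (p + θ (p' - p))` (a complex curve for complex `θ` near `[0, 1]`).  Its points are over `z` and within `ε` of `pr (F z)`, so within `2ε` of `pr (F z₀)`: by `Cap` of radius
`3ε` they are in `χ₀.U` and `χ₁.U`, with `c₀ + ρ₀ (χ₀.q (γ θ)).1 = z`, and similarly for `χ₁`.  The first coordinates of `χ₀.q ∘ γ` and `χ₁.q ∘ γ` have derivative `0` at `θ` [for complex `θ'` near `θ`, `u (γ θ') - z ∈ Λ`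
because `mo c' ρ' 1 0` is constant along the line, so `c₀ + ρ₀ (χ₀.q (γ θ')).1 - z ∈ Λ`, continuous and `0` at `θ`].  `γ θ ∈ T.W k₀ ∩ T.W k₁` (multiples of `χ₀.σ _`, `χ₁.σ _`).  By `q_fibre` and `Split` the derivative of
`θ ↦ Φ₀ (γ θ) - Φ₁ (γ θ) = Q₀ - Q₁ - (lam k₀ - lam k₁)` is `bt k₀ - bt k₁ - (bt k₀ - bt k₁) = 0`.  So `Φ₀ (γ 1) - Φ₀ (γ 0) = Φ₁ (γ 1) - Φ₁ (γ 0)`; `γ 0`, `γ 1` are multiples of `F z`, `G z` (`pr_eq_iff`) and `Φ` is invariant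
under scaling (`Split`, `q_smul`).
(2) `K_{z₀}` has at `z₀` the derivative `II α ε z₀ (pr (F z₀)) (pr (G z₀))`: `K_{z₀} = (Q (χ₀.q (G z)) - Q (χ₀.q (F z))) - (H_G z + lam k (G z)) + (H_F z + lam k (F z))`; by `q_curve` and `exists_H` the derivative is
`bt(G) + (A₀ (q G) - b₁) / ρ₀ - bt(F) - (A₀ (q F) - b₁) / ρ₀ - bt(G) + bt(F) = (A₀ (χ₀.q (G z₀)) - A₀ (χ₀.q (F z₀))) / ρ₀`, which is `II` by `II_eq`.  (`G z₀ ∈ χ₀.U`: `dist (pr (G z₀)) (pr (F z₀)) ≤ ε` by `IRel` with `θ = 1`.)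
-/

set_option autoImplicit false

open Topology Filter Metric

namespace Pool.Agent.H62.EL

open Pool.Agent.H36.BP (EN wd IsGermChart)
open Pool.Agent.H14.PP (IsCone Chart Tan CurveAt jac)
open Pool.Agent.H62.EF (Lat MN pr TorusMap Sec Charts)

variable {N : ℕ} {X : Set (EN N)} {Λ : AddSubgroup ℂ} {u : EN N → ℂ}

theorem exists_K (hX : IsCone X) (hu : TorusMap X Λ u) (hΛ : Lat Λ) {b : ℂ} {s η : ℝ} {T : TubeData X} (hT : TubeG Λ u b s η T)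
    {α : TForm X Λ u} {A : Fin T.m → ℂ × ℂ → ℂ} (hA : ∀ k, IsPrim α (T.χ k) (mo b (T.ρ k) (T.i k) (T.j k)) (A k))
    {lam : Fin T.m → EN N → ℂ} (hs : Split Λ u b s T A lam) {F G : ℂ → EN N} (hF : F ∈ Sec X Λ u) (hG : G ∈ Sec X Λ u)
    {r₁ r₂ ε : ℝ} (hr₂ : r₂ < s) (hε : 0 < ε)
    (hcap : ∀ z₀, r₁ < ‖z₀ - b‖ → ‖z₀ - b‖ < r₂ → ∃ (χ : Chart X) (c : ℂ) (ρ : ℝ) (k : Fin T.m),
      Cap Λ u χ c ρ z₀ (pr (F z₀)) (3 * ε) ∧ ∀ p ∈ ball (0 : ℂ × ℂ) 2, χ.σ p ∈ T.W k)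
    (hrel : ∀ z₀, r₁ < ‖z₀ - b‖ → ‖z₀ - b‖ < r₂ → ∃ v, IRel α ε z₀ (pr (F z₀)) (pr (G z₀)) v) :
    ∃ K : ℂ → ℂ, ∀ z, r₁ < ‖z - b‖ → ‖z - b‖ < r₂ → HasDerivAt K (II α ε z (pr (F z)) (pr (G z))) z := by
  classical
  obtain ⟨HF, hHF⟩ := exists_H hT (fun k => (hA k).an) hs hF hr₂
  obtain ⟨HG, hHG⟩ := exists_H hT (fun k => (hA k).an) hs hG hr₂
  have hex : ∀ z, (r₁ < ‖z - b‖ ∧ ‖z - b‖ < r₂) → ∃ (χ : Chart X) (c : ℂ) (ρ : ℝ) (k : Fin T.m) (A₀ Q : ℂ × ℂ → ℂ),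
      Cap Λ u χ c ρ z (pr (F z)) (3 * ε) ∧ (∀ p ∈ ball (0 : ℂ × ℂ) 2, χ.σ p ∈ T.W k) ∧ IsPrim α χ (mo c ρ 1 0) A₀ ∧
      (∀ p ∈ ball (0 : ℂ × ℂ) 2, AnalyticAt ℂ Q p ∧ fderiv ℂ Q p (0, 1) = bc (T.χ k) (A k) χ (0, 1) p) ∧
      ∀ s : ℂ, ‖s‖ < 2 → Q (s, 0) = 0 := by
    rintro z ⟨hz1, hz2⟩
    obtain ⟨χ, c, ρ, k, hcap, hW⟩ := hcap z hz1 hz2
    obtain ⟨A₀, hA₀⟩ := exists_prim α χ hcap.mon
    obtain ⟨Q, hQ, hQ0⟩ := exists_prim_snd (R := 2) (a := bc (T.χ k) (A k) χ (0, 1))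
      (fun p hp => bc_an (T.χ k) χ (hA k).an hp (hT.W_sub k (hW p hp)) (0, 1))
    exact ⟨χ, c, ρ, k, A₀, Q, hcap, hW, hA₀, hQ, hQ0⟩
  choose χ c ρ k A₀ Q hC hW hA₀ hQ hQ0 using hex
  set KL : ∀ z₀, (r₁ < ‖z₀ - b‖ ∧ ‖z₀ - b‖ < r₂) → ℂ → ℂ := fun z₀ h₀ z =>
    ((Q z₀ h₀ ((χ z₀ h₀).q (G z)) - lam (k z₀ h₀) (G z)) - (Q z₀ h₀ ((χ z₀ h₀).q (F z)) - lam (k z₀ h₀) (F z))) - HG z + HF z with hKL
  refine ⟨fun z => if h : r₁ < ‖z - b‖ ∧ ‖z - b‖ < r₂ then KL z h z else 0, fun z₀ h1 h2 => ?_⟩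
  have h₀ : r₁ < ‖z₀ - b‖ ∧ ‖z₀ - b‖ < r₂ := ⟨h1, h2⟩
  have hX0 : ∀ x ∈ X, x ≠ 0 := fun x hx h => hX.zero_notMem (h ▸ hx)
  -- the function agrees with the local one
  have hev : (fun z => if h : r₁ < ‖z - b‖ ∧ ‖z - b‖ < r₂ then KL z h z else 0) =ᶠ[𝓝 z₀] KL z₀ h₀ := by
    have e1 : ∀ᶠ z in 𝓝 z₀, r₁ < ‖z - b‖ ∧ ‖z - b‖ < r₂ := by
      have hc : ContinuousAt (fun z : ℂ => ‖z - b‖) z₀ := (continuous_id.sub continuous_const).norm.continuousAt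
      exact (hc.eventually_const_lt h1).and (hc.eventually_lt_const h2)
    have e2 : ∀ᶠ z in 𝓝 z₀, z ∈ closedBall z₀ (3 * ε) := closedBall_mem_nhds _ (by positivity)
    have e3 : ∀ᶠ z in 𝓝 z₀, dist (pr (F z)) (pr (F z₀)) < ε := by
      have hc : ContinuousAt (fun z => pr (F z)) z₀ :=
        (Pool.Agent.H62.EF.continuousAt_pr (hX0 _ (hF.2.1 z₀))).comp (f := F) (hF.1 z₀).continuousAt
      exact hc.eventually (ball_mem_nhds _ hε)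
    filter_upwards [e1, e2, e3] with z g1 g2 g3
    rw [dif_pos g1]
    obtain ⟨v, hv⟩ := hrel z g1.1 g1.2
    have hcons := kz_cons hX hu hΛ hT hs (hF.2.1 z) (hG.2.1 z) (z := z) (by
      rw [mem_ball, dist_eq_norm]
      exact g1.2.trans hr₂) hv (hC z g1) (hW z g1) (hQ z g1) (mem_closedBall_self (by positivity)) (by rw [dist_self]; linarith)
      (hC z₀ h₀) (hW z₀ h₀) (hQ z₀ h₀) g2 (by linarith)
    simp only [hKL]
    rw [hcons]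
  refine HasDerivAt.congr_of_eventuallyEq ?_ hev
  -- the derivative of the local function
  obtain ⟨v, hv⟩ := hrel z₀ h1 h2
  have hself : z₀ ∈ closedBall z₀ (3 * ε) := mem_closedBall_self (by positivity)
  obtain ⟨hFU, hFq, hFz⟩ := (hC z₀ h₀).cap z₀ hself (F z₀) (hF.2.1 z₀) (hF.2.2 z₀) (by rw [dist_self]; positivity)
  have hdG : dist (pr (G z₀)) (pr (F z₀)) ≤ 3 * ε := by
    obtain ⟨χ', c', ρ', A', p, p', hm', -, hp, hp', hpz, hpz', hpx, hpx', hdist, -⟩ := hv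
    have h3 := hdist 1 (by simp)
    have h4 : p + ((1 : ℝ) : ℂ) • (p' - p) = p' := by simp
    rw [h4, hpx'] at h3
    linarith
  obtain ⟨hGU, hGq, hGz⟩ := (hC z₀ h₀).cap z₀ hself (G z₀) (hG.2.1 z₀) (hG.2.2 z₀) hdG
  have hη : ‖z₀ - b‖ < η := (h2.trans hr₂).trans_le hT.le
  have hsub : ∀ p ∈ ball (0 : ℂ × ℂ) 2, (χ z₀ h₀).σ p ∈ (T.χ (k z₀ h₀)).U := fun p hp => hT.W_sub _ (hW z₀ h₀ p hp)
  have dF := q_curve hX hu hΛ hT.inj (hT.mon (k z₀ h₀)) (hT.range (k z₀ h₀)) (hC z₀ h₀).mon (hA (k z₀ h₀)) (hA₀ z₀ h₀) hsub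
    (hQ z₀ h₀) (hQ0 z₀ h₀) hF hFU hFz hη
  have dG := q_curve hX hu hΛ hT.inj (hT.mon (k z₀ h₀)) (hT.range (k z₀ h₀)) (hC z₀ h₀).mon (hA (k z₀ h₀)) (hA₀ z₀ h₀) hsub
    (hQ z₀ h₀) (hQ0 z₀ h₀) hG hGU hGz hη
  have hWk : ∀ x ∈ X, x ∈ (χ z₀ h₀).U → x ∈ T.W (k z₀ h₀) := by
    intro x hx hxU
    obtain ⟨hq, a, ha, hxa⟩ := (χ z₀ h₀).surj x hx hxU
    rw [hxa]
    exact hT.W_smul _ _ (hW z₀ h₀ _ hq) a ha
  have hb₂ : z₀ ∈ ball b r₂ := by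
    rw [mem_ball, dist_eq_norm]
    exact h2
  have eF := hHF z₀ hb₂ (k z₀ h₀) (hWk _ (hF.2.1 z₀) hFU)
  have eG := hHG z₀ hb₂ (k z₀ h₀) (hWk _ (hG.2.1 z₀) hGU)
  have hII := II_eq hX hu hΛ ⟨v, hv⟩ (hC z₀ h₀) (hA₀ z₀ h₀) hself (by rw [dist_self]; linarith) (hF.2.1 z₀) (hG.2.1 z₀) rfl rfl
  rw [hII]
  have htot := ((dG.sub dF).sub eG).add eF
  refine (htot.congr_deriv ?_).congr_of_eventuallyEq (Eventually.of_forall fun z => ?_)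
  · ring
  · simp only [hKL, Pi.add_apply, Pi.sub_apply]
    ring

end Pool.Agent.H62.EL

end

section

/-!
# TG Y Kz: `EL/Kz` for sections over a disc
-/

set_option autoImplicit false

open Topology Filter Metric

namespace Pool.Agent.TGY

open Pool.Agent.H36.BP (EN wd IsGermChart)
open Pool.Agent.H14.PP (IsCone Chart Tan CurveAt)
open Pool.Agent.H62.EF (Lat MN pr TorusMap Charts)
open Pool.Agent.H62.EL

variable {N : ℕ} {X : Set (EN N)} {Λ : AddSubgroup ℂ} {u : EN N → ℂ}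

/-- the complex line through `p` and `p'` -/
private noncomputable def kz_line (p p' : ℂ × ℂ) (θ : ℂ) : ℂ × ℂ := p + θ • (p' - p)

private theorem kz_line_an (p p' : ℂ × ℂ) (θ : ℂ) : AnalyticAt ℂ (kz_line p p') θ := by
  unfold kz_line
  exact analyticAt_const.add (analyticAt_id.smul analyticAt_const)

private theorem kz_line_mem {p p' : ℂ × ℂ} (hp : p ∈ ball (0 : ℂ × ℂ) 2) (hp' : p' ∈ ball (0 : ℂ × ℂ) 2) {θ : ℝ}
    (hθ : θ ∈ Set.Icc (0 : ℝ) 1) : kz_line p p' (θ : ℂ) ∈ ball (0 : ℂ × ℂ) 2 := by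
  have h1 := (convex_ball (0 : ℂ × ℂ) 2).add_smul_sub_mem hp hp' hθ
  unfold kz_line
  rwa [Complex.coe_smul]

private theorem kz_line_fst {p p' : ℂ × ℂ} (h : p.1 = p'.1) (θ : ℂ) : (kz_line p p' θ).1 = p.1 := by
  unfold kz_line
  simp [h]

private theorem kz_mo (c : ℂ) (ρ : ℝ) (p : ℂ × ℂ) : mo c ρ 1 0 p = c + ρ * p.1 := by
  unfold mo
  simp

/-- the situation at a point of the path -/
private theorem kz_point (hu : TorusMap X Λ u) (hΛ : Lat Λ) {b : ℂ} {s η : ℝ} {T : TubeData X} (hT : TubeG Λ u b s η T)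
    {A : Fin T.m → ℂ × ℂ → ℂ} {χ : Chart X} {c : ℂ} {ρ : ℝ} {k : Fin T.m} {z₀ : ℂ} {y₀ : MN N} {r : ℝ}
    (hc : Cap Λ u χ c ρ z₀ y₀ r) (hW : ∀ p ∈ ball (0 : ℂ × ℂ) 2, χ.σ p ∈ T.W k) {Q : ℂ × ℂ → ℂ}
    (hQ : ∀ p ∈ ball (0 : ℂ × ℂ) 2, AnalyticAt ℂ Q p ∧ fderiv ℂ Q p (0, 1) = bc (T.χ k) (A k) χ (0, 1) p)
    {χ' : Chart X} {c' : ℂ} {ρ' : ℝ} (hm' : Mon Λ u χ' c' ρ' 1 0) {p p' : ℂ × ℂ} (hp : p ∈ ball (0 : ℂ × ℂ) 2)
    (hp' : p' ∈ ball (0 : ℂ × ℂ) 2) {z : ℂ} (hz : z ∈ closedBall z₀ r) (hpz : c' + ρ' * p.1 = z) (hpp : p.1 = p'.1)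
    {θ : ℝ} (hθ : θ ∈ Set.Icc (0 : ℝ) 1) (hd : dist (pr (χ'.σ (kz_line p p' θ))) y₀ ≤ r) :
    CurveAt X (fun ξ => χ'.σ (kz_line p p' ξ)) (θ : ℂ) ∧ u (χ'.σ (kz_line p p' θ)) - z ∈ Λ ∧
      χ'.σ (kz_line p p' θ) ∈ χ.U ∧ χ'.σ (kz_line p p' θ) ∈ T.W k ∧
      HasDerivAt (fun ξ => Q (χ.q (χ'.σ (kz_line p p' ξ)))) (bt (T.χ k) (A k) (fun ξ => χ'.σ (kz_line p p' ξ)) (θ : ℂ)) (θ : ℂ) := by
  have hmem := kz_line_mem hp hp' hθ
  have hlc : ContinuousAt (kz_line p p') (θ : ℂ) := (kz_line_an p p' θ).continuousAt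
  have hevb : ∀ᶠ ξ in 𝓝 (θ : ℂ), kz_line p p' ξ ∈ ball (0 : ℂ × ℂ) 2 := hlc.eventually (isOpen_ball.mem_nhds hmem)
  have hγan : AnalyticAt ℂ (fun ξ => χ'.σ (kz_line p p' ξ)) (θ : ℂ) := AnalyticAt.fun_comp (χ'.σ_an _ hmem) (kz_line_an p p' θ)
  have hcurve : CurveAt X (fun ξ => χ'.σ (kz_line p p' ξ)) (θ : ℂ) := by
    refine ⟨hγan, ?_⟩
    filter_upwards [hevb] with ξ hξ
    exact (χ'.σ_mem _ hξ).1
  have hlift : ∀ ξ : ℂ, kz_line p p' ξ ∈ ball (0 : ℂ × ℂ) 2 → u (χ'.σ (kz_line p p' ξ)) - z ∈ Λ := by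
    intro ξ hξ
    have h1 := hm'.lift _ hξ
    rwa [kz_mo, kz_line_fst hpp, hpz] at h1
  have hX1 : χ'.σ (kz_line p p' θ) ∈ X := (χ'.σ_mem _ hmem).1
  obtain ⟨hU, hq1, hqz⟩ := hc.cap z hz _ hX1 (hlift _ hmem) hd
  obtain ⟨hq2, a, ha, hqa⟩ := χ.surj _ hX1 hU
  have hρ : (ρ : ℂ) ≠ 0 := by exact_mod_cast hc.mon.pos.ne'
  refine ⟨hcurve, hlift _ hmem, hU, ?_, ?_⟩
  · rw [hqa]
    exact hT.W_smul k _ (hW _ hq2) a ha
  · have hevU : ∀ᶠ ξ in 𝓝 (θ : ℂ), χ'.σ (kz_line p p' ξ) ∈ χ.U := hγan.continuousAt.eventually (χ.isOpen_U.mem_nhds hU)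
    have hqan : AnalyticAt ℂ (fun ξ => χ.q (χ'.σ (kz_line p p' ξ))) (θ : ℂ) := AnalyticAt.fun_comp (χ.q_an _ hU) hγan
    have hzero : ∀ᶠ ξ in 𝓝 (θ : ℂ), c + ρ * (χ.q (χ'.σ (kz_line p p' ξ))).1 - z = 0 := by
      obtain ⟨δ, hδ, hdisc⟩ := hΛ.discrete
      have hcont : ContinuousAt (fun ξ => c + ρ * (χ.q (χ'.σ (kz_line p p' ξ))).1 - z) (θ : ℂ) :=
        ((continuousAt_const.mul (continuousAt_fst.comp (f := fun ξ => χ.q (χ'.σ (kz_line p p' ξ))) hqan.continuousAt)).const_add _).sub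
          continuousAt_const
      have h0 : (fun ξ => c + ρ * (χ.q (χ'.σ (kz_line p p' ξ))).1 - z) (θ : ℂ) = 0 := by
        show c + ρ * (χ.q (χ'.σ (kz_line p p' (θ : ℂ)))).1 - z = 0
        rw [hqz, sub_self]
      have hsmall : ∀ᶠ ξ in 𝓝 (θ : ℂ), ‖c + ρ * (χ.q (χ'.σ (kz_line p p' ξ))).1 - z‖ < δ := by
        have h1 := hcont.norm
        have h2 : ‖(fun ξ => c + ρ * (χ.q (χ'.σ (kz_line p p' ξ))).1 - z) (θ : ℂ)‖ < δ := by rw [h0, norm_zero]; exact hδ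
        exact h1.eventually_lt_const h2
      filter_upwards [hsmall, hevb, hevU] with ξ h1 h2 h3
      refine hdisc _ ?_ h1
      obtain ⟨h4, a', ha', h5⟩ := χ.surj _ (χ'.σ_mem _ h2).1 h3
      have h6 := hc.mon.lift _ h4
      have h7 := hu.smul _ (χ.σ_mem _ h4).1 a' ha'
      rw [← h5] at h7
      rw [kz_mo] at h6
      have h8 := Λ.sub_mem (hlift ξ h2) (Λ.add_mem h7 h6)
      convert h8 using 1
      ring
    refine q_fibre (fun y hy => hT.W_sub k (hW y hy)) hQ hcurve hU ?_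
    have hd1 : HasDerivAt (fun ξ => χ.q (χ'.σ (kz_line p p' ξ))) (deriv (fun ξ => χ.q (χ'.σ (kz_line p p' ξ))) (θ : ℂ)) (θ : ℂ) :=
      hqan.differentiableAt.hasDerivAt
    have hd2 : HasDerivAt (fun ξ => (χ.q (χ'.σ (kz_line p p' ξ))).1) (deriv (fun ξ => χ.q (χ'.σ (kz_line p p' ξ))) (θ : ℂ)).1 (θ : ℂ) :=
      (hasFDerivAt_fst (𝕜 := ℂ) (E := ℂ) (F := ℂ)).comp_hasDerivAt (θ : ℂ) hd1
    have hd3 : HasDerivAt (fun ξ => (χ.q (χ'.σ (kz_line p p' ξ))).1) 0 (θ : ℂ) := by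
      refine (hasDerivAt_const (θ : ℂ) ((z - c) / ρ)).congr_of_eventuallyEq ?_
      filter_upwards [hzero] with ξ hξ
      rw [eq_div_iff hρ]
      linear_combination hξ
    exact hd2.unique hd3

/-- two local primitives have the same increment along the path -/
theorem kz_cons (hX : IsCone X) (hu : TorusMap X Λ u) (hΛ : Lat Λ) {b : ℂ} {s η : ℝ} {T : TubeData X} (hT : TubeG Λ u b s η T)
    {α : TForm X Λ u} {A : Fin T.m → ℂ × ℂ → ℂ} {lam : Fin T.m → EN N → ℂ} (hs : Split Λ u b s T A lam) {x x' : EN N}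
    (hx : x ∈ X) (hx' : x' ∈ X) {ε r : ℝ} {z v : ℂ} (hzb : z ∈ ball b s) (hrel : IRel α ε z (pr x) (pr x') v)
    {χ₀ : Chart X} {c₀ : ℂ} {ρ₀ : ℝ} {k₀ : Fin T.m} {z₀ : ℂ} {y₀ : MN N} (hc₀ : Cap Λ u χ₀ c₀ ρ₀ z₀ y₀ r)
    (hW₀ : ∀ p ∈ ball (0 : ℂ × ℂ) 2, χ₀.σ p ∈ T.W k₀) {Q₀ : ℂ × ℂ → ℂ}
    (hQ₀ : ∀ p ∈ ball (0 : ℂ × ℂ) 2, AnalyticAt ℂ Q₀ p ∧ fderiv ℂ Q₀ p (0, 1) = bc (T.χ k₀) (A k₀) χ₀ (0, 1) p)
    (hz₀ : z ∈ closedBall z₀ r) (hy₀ : dist (pr x) y₀ + ε ≤ r)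
    {χ₁ : Chart X} {c₁ : ℂ} {ρ₁ : ℝ} {k₁ : Fin T.m} {z₁ : ℂ} {y₁ : MN N} (hc₁ : Cap Λ u χ₁ c₁ ρ₁ z₁ y₁ r)
    (hW₁ : ∀ p ∈ ball (0 : ℂ × ℂ) 2, χ₁.σ p ∈ T.W k₁) {Q₁ : ℂ × ℂ → ℂ}
    (hQ₁ : ∀ p ∈ ball (0 : ℂ × ℂ) 2, AnalyticAt ℂ Q₁ p ∧ fderiv ℂ Q₁ p (0, 1) = bc (T.χ k₁) (A k₁) χ₁ (0, 1) p)
    (hz₁ : z ∈ closedBall z₁ r) (hy₁ : dist (pr x) y₁ + ε ≤ r) :
    (Q₀ (χ₀.q x') - lam k₀ x') - (Q₀ (χ₀.q x) - lam k₀ x) = (Q₁ (χ₁.q x') - lam k₁ x') - (Q₁ (χ₁.q x) - lam k₁ x) := by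
  obtain ⟨χ', c', ρ', A', p, p', hm', -, hp, hp', hpz, hpz', hpx, hpx', hdist, -⟩ := hrel
  have hρ' : (ρ' : ℂ) ≠ 0 := by exact_mod_cast hm'.pos.ne'
  have hpp : p.1 = p'.1 := by
    have h1 : (ρ' : ℂ) * p.1 = ρ' * p'.1 := by linear_combination hpz - hpz'
    exact mul_left_cancel₀ hρ' h1
  have hdl : ∀ θ ∈ Set.Icc (0 : ℝ) 1, dist (pr (χ'.σ (kz_line p p' (θ : ℂ)))) (pr x) ≤ ε := hdist
  have hP₀ := fun (θ : ℝ) (hθ : θ ∈ Set.Icc (0 : ℝ) 1) => kz_point hu hΛ hT (A := A) hc₀ hW₀ hQ₀ hm' hp hp' hz₀ hpz hpp hθ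
    ((dist_triangle _ (pr x) _).trans (by linarith [hdl θ hθ]))
  have hP₁ := fun (θ : ℝ) (hθ : θ ∈ Set.Icc (0 : ℝ) 1) => kz_point hu hΛ hT (A := A) hc₁ hW₁ hQ₁ hm' hp hp' hz₁ hpz hpp hθ
    ((dist_triangle _ (pr x) _).trans (by linarith [hdl θ hθ]))
  set h : ℂ → ℂ := fun ξ => Q₀ (χ₀.q (χ'.σ (kz_line p p' ξ))) - Q₁ (χ₁.q (χ'.σ (kz_line p p' ξ))) -
    (lam k₀ (χ'.σ (kz_line p p' ξ)) - lam k₁ (χ'.σ (kz_line p p' ξ))) with hh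
  have hder : ∀ θ ∈ Set.Icc (0 : ℝ) 1, HasDerivAt h 0 (θ : ℂ) := by
    intro θ hθ
    obtain ⟨h1, h2, h3, h4, h5⟩ := hP₀ θ hθ
    obtain ⟨-, -, h6, h7, h8⟩ := hP₁ θ hθ
    have h9 := hs.2 k₀ k₁ _ _ h1 ⟨z, hzb, h2⟩ h4 h7
    have h10 := (h5.sub h8).sub h9
    rw [sub_self] at h10
    exact h10
  have hconst : h ((1 : ℝ) : ℂ) = h ((0 : ℝ) : ℂ) := by
    refine constant_of_has_deriv_right_zero (f := fun t : ℝ => h (t : ℂ)) (a := 0) (b := 1) ?_ ?_ 1 (by simp)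
    · intro t ht
      exact ((hder t ht).comp_ofReal).continuousAt.continuousWithinAt
    · intro t ht
      exact ((hder t ⟨ht.1, ht.2.le⟩).comp_ofReal).hasDerivWithinAt
  have hx0 : x ≠ 0 := fun h0 => hX.zero_notMem (h0 ▸ hx)
  have hx0' : x' ≠ 0 := fun h0 => hX.zero_notMem (h0 ▸ hx')
  have hl0 : kz_line p p' ((0 : ℝ) : ℂ) = p := by unfold kz_line; simp
  have hl1 : kz_line p p' ((1 : ℝ) : ℂ) = p' := by unfold kz_line; simp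
  have hσ0 : χ'.σ p ≠ 0 := fun h0 => hX.zero_notMem (h0 ▸ (χ'.σ_mem p hp).1)
  have hσ1 : χ'.σ p' ≠ 0 := fun h0 => hX.zero_notMem (h0 ▸ (χ'.σ_mem p' hp').1)
  obtain ⟨a, ha, hax⟩ := (Pool.Agent.H62.EF.pr_eq_iff hσ0 hx0).1 hpx
  obtain ⟨a', ha', hax'⟩ := (Pool.Agent.H62.EF.pr_eq_iff hσ1 hx0').1 hpx'
  have hU₀ := (hP₀ 0 (by simp)).2.2.1
  have hU₀' := (hP₀ 1 (by simp)).2.2.1
  have hU₁ := (hP₁ 0 (by simp)).2.2.1
  have hU₁' := (hP₁ 1 (by simp)).2.2.1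
  rw [hl0, hax] at hU₀ hU₁
  rw [hl1, hax'] at hU₀' hU₁'
  have hback : ∀ (χ : Chart X) (y : EN N) (d : ℂ), d ≠ 0 → d • y ∈ χ.U → y ∈ χ.U := by
    intro χ y d hd hy
    have h1 := χ.smul_U _ hy d⁻¹ (inv_ne_zero hd)
    rwa [smul_smul, inv_mul_cancel₀ hd, one_smul] at h1
  simp only [hh, hl0, hl1, hax, hax'] at hconst
  rw [χ₀.q_smul _ (hback χ₀ x a ha hU₀) a ha, χ₀.q_smul _ (hback χ₀ x' a' ha' hU₀') a' ha', χ₁.q_smul _ (hback χ₁ x a ha hU₁) a ha,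
    χ₁.q_smul _ (hback χ₁ x' a' ha' hU₁') a' ha', hs.1 k₀ _ hx a ha, hs.1 k₀ _ hx' a' ha', hs.1 k₁ _ hx a ha, hs.1 k₁ _ hx' a' ha'] at hconst
  linear_combination hconst

end Pool.Agent.TGY

end

section

/-!
# TG Y Kz: `EL/Kz` for sections over a disc
-/

set_option autoImplicit false

open Topology Filter Metric

namespace Pool.Agent.TGY

open Pool.Agent.H36.BP (EN wd IsGermChart)
open Pool.Agent.H14.PP (IsCone Chart Tan CurveAt jac)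
open Pool.Agent.H62.EF (Lat MN pr TorusMap Charts)
open Pool.Agent.H62.EL

variable {N : ℕ} {X : Set (EN N)} {Λ : AddSubgroup ℂ} {u : EN N → ℂ}

theorem exists_K (hX : IsCone X) (hu : TorusMap X Λ u) (hΛ : Lat Λ) {b : ℂ} {s η : ℝ} {T : TubeData X} (hT : TubeG Λ u b s η T)
    {α : TForm X Λ u} {A : Fin T.m → ℂ × ℂ → ℂ} (hA : ∀ k, IsPrim α (T.χ k) (mo b (T.ρ k) (T.i k) (T.j k)) (A k))
    {lam : Fin T.m → EN N → ℂ} (hs : Split Λ u b s T A lam) {F G : ℂ → EN N} {t : ℝ} (hts : t ≤ s) (hF : SecOn X Λ u b t F) (hG : SecOn X Λ u b t G)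
    {r₁ r₂ ε : ℝ} (hr₂ : r₂ < t) (hε : 0 < ε)
    (hcap : ∀ z₀, r₁ < ‖z₀ - b‖ → ‖z₀ - b‖ < r₂ → ∃ (χ : Chart X) (c : ℂ) (ρ : ℝ) (k : Fin T.m),
      Cap Λ u χ c ρ z₀ (pr (F z₀)) (3 * ε) ∧ ∀ p ∈ ball (0 : ℂ × ℂ) 2, χ.σ p ∈ T.W k)
    (hrel : ∀ z₀, r₁ < ‖z₀ - b‖ → ‖z₀ - b‖ < r₂ → ∃ v, IRel α ε z₀ (pr (F z₀)) (pr (G z₀)) v) :
    ∃ K : ℂ → ℂ, ∀ z, r₁ < ‖z - b‖ → ‖z - b‖ < r₂ → HasDerivAt K (II α ε z (pr (F z)) (pr (G z))) z := by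
  classical
  obtain ⟨HF, hHF⟩ := exists_H hT (fun k => (hA k).an) hs hF hts hr₂
  obtain ⟨HG, hHG⟩ := exists_H hT (fun k => (hA k).an) hs hG hts hr₂
  have hex : ∀ z, (r₁ < ‖z - b‖ ∧ ‖z - b‖ < r₂) → ∃ (χ : Chart X) (c : ℂ) (ρ : ℝ) (k : Fin T.m) (A₀ Q : ℂ × ℂ → ℂ),
      Cap Λ u χ c ρ z (pr (F z)) (3 * ε) ∧ (∀ p ∈ ball (0 : ℂ × ℂ) 2, χ.σ p ∈ T.W k) ∧ IsPrim α χ (mo c ρ 1 0) A₀ ∧
      (∀ p ∈ ball (0 : ℂ × ℂ) 2, AnalyticAt ℂ Q p ∧ fderiv ℂ Q p (0, 1) = bc (T.χ k) (A k) χ (0, 1) p) ∧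
      ∀ s : ℂ, ‖s‖ < 2 → Q (s, 0) = 0 := by
    rintro z ⟨hz1, hz2⟩
    obtain ⟨χ, c, ρ, k, hcap, hW⟩ := hcap z hz1 hz2
    obtain ⟨A₀, hA₀⟩ := exists_prim α χ hcap.mon
    obtain ⟨Q, hQ, hQ0⟩ := exists_prim_snd (R := 2) (a := bc (T.χ k) (A k) χ (0, 1))
      (fun p hp => bc_an (T.χ k) χ (hA k).an hp (hT.W_sub k (hW p hp)) (0, 1))
    exact ⟨χ, c, ρ, k, A₀, Q, hcap, hW, hA₀, hQ, hQ0⟩
  choose χ c ρ k A₀ Q hC hW hA₀ hQ hQ0 using hex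
  set KL : ∀ z₀, (r₁ < ‖z₀ - b‖ ∧ ‖z₀ - b‖ < r₂) → ℂ → ℂ := fun z₀ h₀ z =>
    ((Q z₀ h₀ ((χ z₀ h₀).q (G z)) - lam (k z₀ h₀) (G z)) - (Q z₀ h₀ ((χ z₀ h₀).q (F z)) - lam (k z₀ h₀) (F z))) - HG z + HF z with hKL
  refine ⟨fun z => if h : r₁ < ‖z - b‖ ∧ ‖z - b‖ < r₂ then KL z h z else 0, fun z₀ h1 h2 => ?_⟩
  have h₀ : r₁ < ‖z₀ - b‖ ∧ ‖z₀ - b‖ < r₂ := ⟨h1, h2⟩
  have hX0 : ∀ x ∈ X, x ≠ 0 := fun x hx h => hX.zero_notMem (h ▸ hx)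
  have hbt : ∀ z : ℂ, ‖z - b‖ < r₂ → z ∈ ball b t := fun z hz => by
    rw [mem_ball, dist_eq_norm]
    exact hz.trans hr₂
  have hcF : ∀ z : ℂ, z ∈ ball b t → CurveAt X F z ∧ ∀ᶠ w in 𝓝 z, u (F w) - w ∈ Λ := fun z hz =>
    ⟨⟨hF.1.analyticAt (isOpen_ball.mem_nhds hz), by
      filter_upwards [isOpen_ball.mem_nhds hz] with w hw
      exact hF.2.1 w hw⟩, by
      filter_upwards [isOpen_ball.mem_nhds hz] with w hw
      exact hF.2.2 w hw⟩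
  have hcG : ∀ z : ℂ, z ∈ ball b t → CurveAt X G z ∧ ∀ᶠ w in 𝓝 z, u (G w) - w ∈ Λ := fun z hz =>
    ⟨⟨hG.1.analyticAt (isOpen_ball.mem_nhds hz), by
      filter_upwards [isOpen_ball.mem_nhds hz] with w hw
      exact hG.2.1 w hw⟩, by
      filter_upwards [isOpen_ball.mem_nhds hz] with w hw
      exact hG.2.2 w hw⟩
  have hbz₀ : z₀ ∈ ball b t := hbt z₀ h2
  -- the function agrees with the local one
  have hev : (fun z => if h : r₁ < ‖z - b‖ ∧ ‖z - b‖ < r₂ then KL z h z else 0) =ᶠ[𝓝 z₀] KL z₀ h₀ := by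
    have e1 : ∀ᶠ z in 𝓝 z₀, r₁ < ‖z - b‖ ∧ ‖z - b‖ < r₂ := by
      have hc : ContinuousAt (fun z : ℂ => ‖z - b‖) z₀ := (continuous_id.sub continuous_const).norm.continuousAt
      exact (hc.eventually_const_lt h1).and (hc.eventually_lt_const h2)
    have e2 : ∀ᶠ z in 𝓝 z₀, z ∈ closedBall z₀ (3 * ε) := closedBall_mem_nhds _ (by positivity)
    have e3 : ∀ᶠ z in 𝓝 z₀, dist (pr (F z)) (pr (F z₀)) < ε := by
      have hc : ContinuousAt (fun z => pr (F z)) z₀ :=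
        (Pool.Agent.H62.EF.continuousAt_pr (hX0 _ (hF.2.1 z₀ hbz₀))).comp (f := F) (hcF z₀ hbz₀).1.1.continuousAt
      exact hc.eventually (ball_mem_nhds _ hε)
    filter_upwards [e1, e2, e3] with z g1 g2 g3
    rw [dif_pos g1]
    obtain ⟨v, hv⟩ := hrel z g1.1 g1.2
    have hcons := kz_cons hX hu hΛ hT hs (hF.2.1 z (hbt z g1.2)) (hG.2.1 z (hbt z g1.2)) (z := z) (by
      rw [mem_ball, dist_eq_norm]
      exact (g1.2.trans hr₂).trans_le hts) hv (hC z g1) (hW z g1) (hQ z g1) (mem_closedBall_self (by positivity)) (by rw [dist_self]; linarith)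
      (hC z₀ h₀) (hW z₀ h₀) (hQ z₀ h₀) g2 (by linarith)
    simp only [hKL]
    rw [hcons]
  refine HasDerivAt.congr_of_eventuallyEq ?_ hev
  -- the derivative of the local function
  obtain ⟨v, hv⟩ := hrel z₀ h1 h2
  have hself : z₀ ∈ closedBall z₀ (3 * ε) := mem_closedBall_self (by positivity)
  obtain ⟨hFU, hFq, hFz⟩ := (hC z₀ h₀).cap z₀ hself (F z₀) (hF.2.1 z₀ hbz₀) (hF.2.2 z₀ hbz₀) (by rw [dist_self]; positivity)
  have hdG : dist (pr (G z₀)) (pr (F z₀)) ≤ 3 * ε := by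
    obtain ⟨χ', c', ρ', A', p, p', hm', -, hp, hp', hpz, hpz', hpx, hpx', hdist, -⟩ := hv
    have h3 := hdist 1 (by simp)
    have h4 : p + ((1 : ℝ) : ℂ) • (p' - p) = p' := by simp
    rw [h4, hpx'] at h3
    linarith
  obtain ⟨hGU, hGq, hGz⟩ := (hC z₀ h₀).cap z₀ hself (G z₀) (hG.2.1 z₀ hbz₀) (hG.2.2 z₀ hbz₀) hdG
  have hη : ‖z₀ - b‖ < η := ((h2.trans hr₂).trans_le hts).trans_le hT.le
  have hsub : ∀ p ∈ ball (0 : ℂ × ℂ) 2, (χ z₀ h₀).σ p ∈ (T.χ (k z₀ h₀)).U := fun p hp => hT.W_sub _ (hW z₀ h₀ p hp)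
  have dF := q_curve_loc hX hu hΛ hT.inj (hT.mon (k z₀ h₀)) (hT.range (k z₀ h₀)) (hC z₀ h₀).mon (hA (k z₀ h₀)) (hA₀ z₀ h₀) hsub
    (hQ z₀ h₀) (hQ0 z₀ h₀) (hcF z₀ hbz₀).1 (hcF z₀ hbz₀).2 hFU hFz hη
  have dG := q_curve_loc hX hu hΛ hT.inj (hT.mon (k z₀ h₀)) (hT.range (k z₀ h₀)) (hC z₀ h₀).mon (hA (k z₀ h₀)) (hA₀ z₀ h₀) hsub
    (hQ z₀ h₀) (hQ0 z₀ h₀) (hcG z₀ hbz₀).1 (hcG z₀ hbz₀).2 hGU hGz hη
  have hWk : ∀ x ∈ X, x ∈ (χ z₀ h₀).U → x ∈ T.W (k z₀ h₀) := by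
    intro x hx hxU
    obtain ⟨hq, a, ha, hxa⟩ := (χ z₀ h₀).surj x hx hxU
    rw [hxa]
    exact hT.W_smul _ _ (hW z₀ h₀ _ hq) a ha
  have hb₂ : z₀ ∈ ball b r₂ := by
    rw [mem_ball, dist_eq_norm]
    exact h2
  have eF := hHF z₀ hb₂ (k z₀ h₀) (hWk _ (hF.2.1 z₀ hbz₀) hFU)
  have eG := hHG z₀ hb₂ (k z₀ h₀) (hWk _ (hG.2.1 z₀ hbz₀) hGU)
  have hII := II_eq hX hu hΛ ⟨v, hv⟩ (hC z₀ h₀) (hA₀ z₀ h₀) hself (by rw [dist_self]; linarith) (hF.2.1 z₀ hbz₀) (hG.2.1 z₀ hbz₀) rfl rfl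
  rw [hII]
  have htot := ((dG.sub dF).sub eG).add eF
  refine (htot.congr_deriv ?_).congr_of_eventuallyEq (Eventually.of_forall fun z => ?_)
  · ring
  · simp only [hKL, Pi.add_apply, Pi.sub_apply]
    ring

end Pool.Agent.TGY

end

section

/-!
# TG Y NcA: auxiliary lemmas for `NcY`: roots of germs, the coordinates `κ` are locally injective, the coordinate `t` on the line
-/

set_option autoImplicit false

open Topology Filter Metric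

namespace Pool.Agent.TG

open Pool.Agent.H36.BP (EN fs wd)
open Pool.Agent.H14.PP (IsCone CurveAt Tan)
open Pool.Agent.H62.EF (MN pr)
open Pool.Agent.AD (Vd Chart Charts IsGerm)

variable {N k : ℕ}

/-- roots of nonvanishing germs -/
theorem exists_germ_root {f : ℂ → ℂ} (hf : AnalyticAt ℂ f 0) (h0 : f 0 ≠ 0) {n : ℕ} (hn : 0 < n) :
    ∃ β : ℂ → ℂ, AnalyticAt ℂ β 0 ∧ β 0 ≠ 0 ∧ ∀ᶠ ξ in 𝓝 (0 : ℂ), β ξ ^ n = f ξ := by
  obtain ⟨c₀, hc₀⟩ := IsAlgClosed.exists_pow_nat_eq (f 0) hn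
  have hc₀0 : c₀ ≠ 0 := by
    rintro rfl
    rw [zero_pow hn.ne'] at hc₀
    exact h0 hc₀.symm
  have hn0 : (n : ℂ) ≠ 0 := by exact_mod_cast hn.ne'
  have h1 : AnalyticAt ℂ (fun ξ => f ξ / f 0) 0 := hf.div analyticAt_const h0
  have h2 : f 0 / f 0 = 1 := div_self h0
  have h3 : AnalyticAt ℂ (fun ξ => Complex.log (f ξ / f 0)) 0 := by
    refine h1.clog ?_
    rw [h2]
    exact Complex.one_mem_slitPlane
  have h4 : AnalyticAt ℂ (fun ξ => c₀ * Complex.exp (Complex.log (f ξ / f 0) / n)) 0 :=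
    analyticAt_const.mul (h3.div analyticAt_const hn0).cexp
  refine ⟨_, h4, ?_, ?_⟩
  · exact mul_ne_zero hc₀0 (Complex.exp_ne_zero _)
  · filter_upwards [hf.continuousAt.eventually_ne h0] with ξ hξ
    have h5 : f ξ / f 0 ≠ 0 := div_ne_zero hξ h0
    rw [mul_pow, ← Complex.exp_nat_mul, mul_div_cancel₀ _ hn0, Complex.exp_log h5, hc₀, mul_div_cancel₀ _ h0]

/-- the two factors -/
theorem exists_germ_roots {f : ℂ → ℂ} (hf : AnalyticAt ℂ f 0) (h0 : f 0 ≠ 0) {a b : ℕ} (hab : 0 < a + b) :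
    ∃ β₁ β₂ : ℂ → ℂ, AnalyticAt ℂ β₁ 0 ∧ AnalyticAt ℂ β₂ 0 ∧ β₁ 0 ≠ 0 ∧ β₂ 0 ≠ 0 ∧ ∀ᶠ ξ in 𝓝 (0 : ℂ), β₁ ξ ^ a * β₂ ξ ^ b = f ξ := by
  rcases Nat.eq_zero_or_pos a with rfl | ha
  · have hb : 0 < b := by omega
    obtain ⟨β, h1, h2, h3⟩ := exists_germ_root hf h0 hb
    refine ⟨fun _ => 1, β, analyticAt_const, h1, one_ne_zero, h2, ?_⟩
    filter_upwards [h3] with ξ hξ
    rw [pow_zero, one_mul, hξ]
  · obtain ⟨β, h1, h2, h3⟩ := exists_germ_root hf h0 ha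
    refine ⟨β, fun _ => 1, h1, analyticAt_const, h2, one_ne_zero, ?_⟩
    filter_upwards [h3] with ξ hξ
    rw [one_pow, mul_one, hξ]

variable {X : Set (EN N)} {Λ : AddSubgroup (Vd (k + 1))} {u : EN N → Vd (k + 1)} {D B : Set (Vd (k + 1))}
  {κ : Vd (k + 1) → Vd (k + 1)} {p e : Vd (k + 1)} {c : ℂ → Vd (k + 1)} {Γ₀ : AddSubgroup ℂ} {s : ℝ}

theorem Ln.κ_an0 (L : Ln X Λ u D κ p e c Γ₀ s) : AnalyticAt ℂ κ 0 := by
  have := L.κ_an 0 (mem_closedBall_self L.pos.le)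
  rwa [L.c_zero] at this

theorem Ln.c_an0 (L : Ln X Λ u D κ p e c Γ₀ s) : AnalyticAt ℂ c 0 := L.c_an 0 (mem_closedBall_self L.pos.le)

theorem Ln.κ_zero (L : Ln X Λ u D κ p e c Γ₀ s) : κ 0 = p := by
  have := L.κ_c 0 (mem_closedBall_self L.pos.le)
  rwa [L.c_zero, zero_smul, add_zero] at this

/-- `fderiv κ (c z) (c' z) = e` -/
theorem Ln.κ_deriv (L : Ln X Λ u D κ p e c Γ₀ s) {z : ℂ} (hz : ‖z‖ < s) : fderiv ℂ κ (c z) (deriv c z) = e := by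
  have hzm : z ∈ closedBall (0 : ℂ) s := mem_closedBall_zero_iff.2 hz.le
  have h1 : HasDerivAt (fun z => κ (c z)) (fderiv ℂ κ (c z) (deriv c z)) z := by
    have h2 : HasFDerivAt κ (fderiv ℂ κ (c z)) (c z) := (L.κ_an z hzm).differentiableAt.hasFDerivAt
    exact h2.comp_hasDerivAt z (L.c_an z hzm).differentiableAt.hasDerivAt
  have h3 : HasDerivAt (fun z : ℂ => p + z • e) e z := by
    have h4 : HasDerivAt (fun z : ℂ => z • e) ((1 : ℂ) • e) z := (hasDerivAt_id z).smul_const e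
    rw [one_smul] at h4
    exact h4.const_add p
  have h4 : (fun z => κ (c z)) =ᶠ[𝓝 z] fun z => p + z • e := by
    have h5 : ∀ᶠ w in 𝓝 z, w ∈ ball (0 : ℂ) s := isOpen_ball.mem_nhds (mem_ball_zero_iff.2 hz)
    filter_upwards [h5] with w hw
    exact L.κ_c w (ball_subset_closedBall hw)
  have h5 := h4.deriv_eq
  rw [h1.deriv, h3.deriv] at h5
  exact h5

/-- `κ` is a local biholomorphism at the points of the line -/
theorem Ln.κ_inj (L : Ln X Λ u D κ p e c Γ₀ s) {z : ℂ} (hz : ‖z‖ < s) : ∀ v, fderiv ℂ κ (c z) v = 0 → v = 0 := by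
  have hzm : z ∈ closedBall (0 : ℂ) s := mem_closedBall_zero_iff.2 hz.le
  have hli : LinearIndependent ℂ (Fin.cons e (fr κ c z) : Fin (k + 1) → Vd (k + 1)) := Matrix.linearIndependent_rows_of_det_ne_zero (L.dt_ne z hzm)
  have hspan := hli.span_eq_top_of_card_eq_finrank (by rw [Fintype.card_fin, Module.finrank_fin_fun])
  set A : Vd (k + 1) →ₗ[ℂ] Vd (k + 1) := (fderiv ℂ κ (c z) : Vd (k + 1) →ₗ[ℂ] Vd (k + 1)) with hA
  have hsurj : Function.Surjective A := by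
    rw [← LinearMap.range_eq_top, ← top_le_iff, ← hspan, Submodule.span_le]
    rintro _ ⟨i, rfl⟩
    refine Fin.cases ?_ (fun j => ?_) i
    · exact ⟨deriv c z, L.κ_deriv hz⟩
    · exact ⟨Pi.single j.succ 1, rfl⟩
  have hinj : Function.Injective A := LinearMap.injective_iff_surjective.2 hsurj
  intro v hv
  exact hinj (hv.trans (map_zero A).symm)

/-- the coordinate on the line and the graph -/
theorem Ln.exists_theta (L : Ln X Λ u D κ p e c Γ₀ s) : ∃ (θ θ₁ : ℂ → ℂ), AnalyticAt ℂ θ 0 ∧ θ 0 = 0 ∧ (∀ᶠ z in 𝓝 (0 : ℂ), θ (c z 0) = z) ∧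
    (∀ᶠ ξ in 𝓝 (0 : ℂ), c (θ ξ) 0 = ξ) ∧ AnalyticAt ℂ θ₁ 0 ∧ θ₁ 0 ≠ 0 ∧ ∀ ξ, θ ξ = ξ * θ₁ ξ := by
  have hc := L.c_an0
  have ht : AnalyticAt ℂ (fun z => c z 0) 0 := ((ContinuousLinearMap.proj (R := ℂ) (φ := fun _ : Fin (k + 1) => ℂ) 0).analyticAt _).fun_comp hc
  have hdt : HasDerivAt (fun z => c z 0) (deriv c 0 0) 0 := by
    have h1 := hasDerivAt_pi.1 hc.differentiableAt.hasDerivAt 0
    exact h1
  obtain ⟨θ, h1, h2, h3, h4⟩ := Pool.Agent.H62.BU.local_inverse ht (fun v hv => by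
    have h5 : fderiv ℂ (fun z => c z 0) 0 v = v * deriv c 0 0 := by
      rw [hdt.hasFDerivAt.fderiv]
      simp
    rw [h5] at hv
    exact (mul_eq_zero.1 hv).resolve_right L.c_ne)
  have hc00 : c 0 0 = 0 := by
    rw [L.c_zero]
    rfl
  simp only [hc00] at h1 h3 h4
  refine ⟨θ, dslope θ 0, h1, h4, h2, h3, ?_, ?_, fun ξ => ?_⟩
  · obtain ⟨P, hP⟩ := h1
    exact ⟨_, hP.has_fpower_series_dslope_fslope⟩
  · rw [dslope_same]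
    intro h0
    have h5 : HasDerivAt (fun z => θ (c z 0)) (deriv θ 0 * deriv c 0 0) 0 := by
      have h6 : HasDerivAt θ (deriv θ 0) (c 0 0) := by
        rw [hc00]
        exact h1.differentiableAt.hasDerivAt
      exact h6.comp (0 : ℂ) hdt
    have h6 : (fun z => θ (c z 0)) =ᶠ[𝓝 0] fun z => z := h2
    have h7 := h6.deriv_eq
    rw [h5.deriv, deriv_id'', h0, zero_mul] at h7
    exact zero_ne_one h7
  · have h5 := sub_smul_dslope θ 0 ξ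
    rw [sub_zero, smul_eq_mul, h4, sub_zero] at h5
    exact h5.symm

/-- the frame is analytic -/
theorem Ln.fr_an (L : Ln X Λ u D κ p e c Γ₀ s) {z : ℂ} (hz : z ∈ closedBall (0 : ℂ) s) (j : Fin k) : AnalyticAt ℂ (fun z => fr κ c z j) z := by
  have h1 : AnalyticAt ℂ (fderiv ℂ κ) (c z) := (L.κ_an z hz).fderiv
  have h2 : AnalyticAt ℂ (fun w => fderiv ℂ κ (c w)) z := h1.fun_comp (L.c_an z hz)
  exact ((ContinuousLinearMap.apply ℂ (Vd (k + 1)) (Pi.single j.succ 1 : Vd (k + 1))).analyticAt _).fun_comp h2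

theorem Ln.dt_an (L : Ln X Λ u D κ p e c Γ₀ s) {z : ℂ} (hz : z ∈ closedBall (0 : ℂ) s) : AnalyticAt ℂ (dt κ e c) z := by
  have h1 : ∀ i j : Fin (k + 1), AnalyticAt ℂ (fun w => (Fin.cons e (fr κ c w) : Fin (k + 1) → Vd (k + 1)) i j) z := by
    intro i j
    refine Fin.cases ?_ (fun i => ?_) i
    · exact analyticAt_const
    · exact ((ContinuousLinearMap.proj (R := ℂ) (φ := fun _ : Fin (k + 1) => ℂ) j).analyticAt _).fun_comp (L.fr_an hz i)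
  have h2 : dt κ e c = fun w => ∑ σ : Equiv.Perm (Fin (k + 1)), (Equiv.Perm.sign σ : ℂ) * ∏ i, (Fin.cons e (fr κ c w) : Fin (k + 1) → Vd (k + 1)) (σ i) i := by
    funext w
    unfold dt
    rw [Matrix.det_apply']
    rfl
  rw [h2]
  refine Finset.analyticAt_fun_sum _ fun σ _ => analyticAt_const.mul (Finset.analyticAt_fun_prod _ fun i _ => h1 _ _)

end Pool.Agent.TG

end

section

/-!
# TG Y NcY: the slab is smooth and has normal crossings over `p`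

Let `x₀ ∈ Y`, `wl x₀ ∈ Γ₀`; then `‖wl x₀‖ ≤ s` and `L.big` give `wl x₀ = 0`, `u x₀ - p ∈ Λ`.  Let `σ, τ, a, b` be from `L.nc x₀`: `u (σ q) - κ (nm a b q) ∈ Λ` for `q` near `0`.

The line in the coordinates `κ`: `t z = (c z) 0` has `t 0 = 0`, `t' 0 ≠ 0` (`L.c_ne`), so there is `θ` analytic at `0`, `θ 0 = 0`, `t (θ ξ) = ξ`, `θ (t z) = z` (`local_inverse` in `ℂ`, or `HasStrictDerivAt` inverse), `θ ξ = ξ * θ₁ ξ`, `θ₁` analytic at `0`, `θ₁ 0 ≠ 0`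
(`dslope`).  `g ξ = (fun j => (c (θ ξ)) j.succ)`, `g 0 = 0`; so `c (θ ξ) = cons ξ (g ξ)`.

Claim: for `q` near `0`: `σ q ∈ Y` iff `q_{j+2} = g (q 0 ^ a * q 1 ^ b) j` for all `j : Fin k`, and then `wl (σ q) = θ (q 0 ^ a * q 1 ^ b)`.  `→`: let `z = wl (σ q)`; `κ (nm a b q) - (p + z • e) ∈ Λ`; `κ (nm a b q)` is near `p` (`q` near `0`, `a + b > 0`), so this element of
`Λ` has norm `≤ small + s ‖e‖ ≤ 4 s ‖e‖` and is `0`: `κ (nm a b q) = p + z • e = κ (c z)`, so `z • e` is small, `z` is small, and as `κ` is injective near `0` (`fderiv κ 0` is injective: from `dt_ne 0` and `κ_c`; `local_inverse` for `κ` at `0`), `nm a b q = c z`, i.e. `q 0 ^ a * q 1 ^ b = t z`,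
`z = θ (q 0 ^ a * q 1 ^ b)`, `q_{j+2} = (c z) j.succ`.  `←`: `nm a b q = c (θ ξ)` with `ξ = q 0 ^ a * q 1 ^ b`, so `κ (nm a b q) = p + (θ ξ) • e`, `‖θ ξ‖ ≤ s`.

New coordinates: if `a > 0`: `x = q 0 * β (q 0 ^ a * q 1 ^ b)`, `y = q 1` with `β` analytic at `0`, `β ^ a = θ₁`, `β 0 ≠ 0` (an `a`-th root of a nonvanishing germ, e.g. `β = exp (log (θ₁ / θ₁ 0) / a) * const`); if `a = 0`, `b > 0`: `x = q 0`, `y = q 1 * β (q 0 ^ a * q 1 ^ b)`, `β ^ b = θ₁`.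
So `x ^ a * y ^ b = ξ θ₁ ξ = θ ξ = wl`.  The map `m : (q 0, q 1) ↦ (x, y)` has an injective derivative at `0` (case `a > 0`: `m = (q 0 * β(ξ), q 1)`; if `ξ = q 0 ^ a q 1 ^ b` its derivative at `0` is triangular with diagonal entries `β 0, 1`; note the case `a = 1`, `b = 0`:
`x = q 0 β (q 0)`), so it has a local inverse `ψ` (`local_inverse` in `ℂ × ℂ`).
`σ' (x, y) = σ (cons (ψ 1) (cons (ψ 2) (g (ψ 1 ^ a * ψ 2 ^ b))))`, `τ' w = m (τ w 0, τ w 1)`: `IsGermChart Y σ' τ'` (`σ' 0 = σ 0 = x₀`; `right`: for `w ∈ Y` near `x₀`: `w = c' • σ (τ w)`, so `σ (τ w) ∈ Y` and by the claim `τ w` is determined by `(τ w 0, τ w 1)`), and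
`wl (σ' (x, y)) - (0 + x ^ a * y ^ b) = 0 ∈ Γ₀`.
-/

set_option autoImplicit false

open Topology Filter Metric

namespace Pool.Agent.TG

open Pool.Agent.H36.BP (EN fs wd)
open Pool.Agent.H14.PP (IsCone CurveAt Tan)
open Pool.Agent.H62.EF (MN pr)
open Pool.Agent.AD (Vd Chart Charts IsGerm)

variable {N k : ℕ}

variable {X : Set (EN N)} {Λ : AddSubgroup (Vd (k + 1))} {u : EN N → Vd (k + 1)} {D B : Set (Vd (k + 1))}
  {κ : Vd (k + 1) → Vd (k + 1)} {p e : Vd (k + 1)} {c : ℂ → Vd (k + 1)} {Γ₀ : AddSubgroup ℂ} {s : ℝ}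

theorem Ln.isNC (L : Ln X Λ u D κ p e c Γ₀ s) : ∀ x ∈ Yl X Λ u p e s, wl Λ u p e s x - 0 ∈ Γ₀ →
    Pool.Agent.H62.EL.IsNC (Yl X Λ u p e s) Γ₀ (wl Λ u p e s) x 0 := by
  intro x₀ hx₀ hΓ
  have hwl := Ln.wl_spec hx₀
  have hw0 : wl Λ u p e s x₀ = 0 := by
    rw [sub_zero] at hΓ
    exact L.big _ hΓ (hwl.1.trans (by linarith [L.pos]))
  have hx₀p : u x₀ - p ∈ Λ := by
    have := hwl.2
    rwa [hw0, zero_smul, add_zero] at this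
  obtain ⟨σ, τ, a, b, hg, hσ0, hab, hnm⟩ := L.nc x₀ hx₀.1 hx₀p
  obtain ⟨θ, θ₁, hθ, hθ0, hθt, htθ, hθ₁, hθ₁0, hθm⟩ := L.exists_theta
  obtain ⟨β₁, β₂, hβ₁, hβ₂, hβ₁0, hβ₂0, hβ⟩ := exists_germ_roots hθ₁ hθ₁0 hab
  have hκi : ∀ v, fderiv ℂ κ 0 v = 0 → v = 0 := by
    have := L.κ_inj (z := 0) (by rw [norm_zero]; exact L.pos)
    rwa [L.c_zero] at this
  obtain ⟨κ', hκ', hκ'κ, -, hκ'0⟩ := Pool.Agent.H62.BU.local_inverse L.κ_an0 hκi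
  rw [L.κ_zero] at hκ' hκ'0
  have hepos : 0 < ‖e‖ := norm_pos_iff.2 L.e_ne
  have hspos := L.pos
  -- the function `ξ`
  set ξ : ℂ × ℂ → ℂ := fun w => w.1 ^ a * w.2 ^ b with hξ
  have hξan : AnalyticAt ℂ ξ 0 := by
    rw [hξ]
    exact (analyticAt_fst.pow a).mul (analyticAt_snd.pow b)
  have hpow0 : (0 : ℂ) ^ a * (0 : ℂ) ^ b = 0 := by rw [← pow_add, zero_pow hab.ne']
  have hξ0 : ξ 0 = 0 := hpow0
  -- the graph
  have hcθ : AnalyticAt ℂ (fun t => c (θ t)) 0 := by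
    have h1 : AnalyticAt ℂ c (θ 0) := by
      rw [hθ0]
      exact L.c_an0
    exact h1.fun_comp hθ
  set g : ℂ → Fin k → ℂ := fun t j => c (θ t) j.succ with hgd
  have hgan : ∀ j, AnalyticAt ℂ (fun w => g (ξ w) j) 0 := by
    intro j
    have h1 : AnalyticAt ℂ (fun t => c (θ t) j.succ) (ξ 0) := by
      rw [hξ0]
      exact ((ContinuousLinearMap.proj (R := ℂ) (φ := fun _ : Fin (k + 1) => ℂ) j.succ).analyticAt _).fun_comp hcθ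
    exact h1.fun_comp hξan
  set emb : ℂ × ℂ → Vd (k + 2) := fun w => Fin.cons (α := fun _ => ℂ) w.1 (Fin.cons (α := fun _ => ℂ) w.2 (g (ξ w))) with hembd
  have hemb : AnalyticAt ℂ emb 0 := by
    rw [hembd]
    refine analyticAt_pi_iff.2 fun i => ?_
    refine Fin.cases ?_ (fun i => ?_) i
    · exact analyticAt_fst
    · refine Fin.cases ?_ (fun j => ?_) i
      · exact analyticAt_snd
      · exact hgan j
  have hemb0 : emb 0 = 0 := by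
    funext i
    refine Fin.cases rfl (fun i => ?_) i
    refine Fin.cases rfl (fun j => ?_) i
    show c (θ (ξ 0)) j.succ = 0
    rw [hξ0, hθ0, L.c_zero]
    rfl
  have hnm0 : nm a b (0 : Vd (k + 2)) = 0 := by
    funext i
    refine Fin.cases ?_ (fun i => rfl) i
    exact hpow0
  have hnmc : ContinuousAt (nm (k := k) a b) 0 := by
    refine continuousAt_pi.2 fun i => ?_
    refine Fin.cases ?_ (fun i => ?_) i
    · show ContinuousAt (fun q : Vd (k + 2) => q 0 ^ a * q 1 ^ b) 0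
      fun_prop
    · exact (continuous_apply (i.succ.succ : Fin (k + 2))).continuousAt
  have hnme : ∀ w : ℂ × ℂ, c (θ (ξ w)) 0 = ξ w → nm a b (emb w) = c (θ (ξ w)) := by
    intro w hw
    funext i
    refine Fin.cases ?_ (fun i => rfl) i
    rw [hw]
    rfl
  -- Claim A
  have hA : ∀ᶠ w in 𝓝 (0 : ℂ × ℂ), σ (emb w) ∈ Yl X Λ u p e s ∧ wl Λ u p e s (σ (emb w)) = θ (ξ w) := by
    have t1 : Tendsto emb (𝓝 0) (𝓝 0) := by
      have := hemb.continuousAt.tendsto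
      rwa [hemb0] at this
    have t2 : Tendsto ξ (𝓝 0) (𝓝 0) := by
      have := hξan.continuousAt.tendsto
      rwa [hξ0] at this
    have t3 : Tendsto (fun w => θ (ξ w)) (𝓝 0) (𝓝 0) := by
      have h1 := hθ.continuousAt.tendsto
      rw [hθ0] at h1
      exact h1.comp t2
    filter_upwards [t1.eventually hg.σ_mem, t1.eventually hnm, t2.eventually htθ, t3.eventually (closedBall_mem_nhds (0 : ℂ) L.pos)] with w h1 h2 h3 h4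
    have h5 : ‖θ (ξ w)‖ ≤ s := mem_closedBall_zero_iff.1 h4
    rw [hnme w h3, L.κ_c _ h4] at h2
    exact ⟨⟨h1, θ (ξ w), h5, h2⟩, L.wl_eq h5 h2⟩
  -- Claim B
  have hB : ∀ᶠ q in 𝓝 (0 : Vd (k + 2)), σ q ∈ Yl X Λ u p e s → q = emb (q 0, q 1) := by
    have h1 : ∀ᶠ z in 𝓝 (0 : ℂ), κ' (p + z • e) = c z ∧ θ (c z 0) = z := by
      have t1 : Tendsto c (𝓝 0) (𝓝 0) := by
        have := L.c_an0.continuousAt.tendsto
        rwa [L.c_zero] at this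
      filter_upwards [t1.eventually hκ'κ, closedBall_mem_nhds (0 : ℂ) L.pos, hθt] with z h2 h3 h4
      rw [L.κ_c z h3] at h2
      exact ⟨h2, h4⟩
    obtain ⟨η, hη, h2⟩ := Metric.eventually_nhds_iff.1 h1
    have t2 : Tendsto (nm (k := k) a b) (𝓝 0) (𝓝 0) := by
      have := hnmc.tendsto
      rwa [hnm0] at this
    have t3 : Tendsto (fun q => κ (nm a b q)) (𝓝 (0 : Vd (k + 2))) (𝓝 p) := by
      have h3 := L.κ_an0.continuousAt.tendsto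
      rw [L.κ_zero] at h3
      exact h3.comp t2
    have hpos : 0 < min (s * ‖e‖) (η * ‖e‖) := lt_min (by positivity) (by positivity)
    filter_upwards [hnm, t3.eventually (ball_mem_nhds p hpos), t2.eventually hκ'κ] with q h3 h4 h5 hqY
    rw [dist_eq_norm] at h4
    have h6 := Ln.wl_spec hqY
    set z := wl Λ u p e s (σ q) with hz
    have h7 : κ (nm a b q) - (p + z • e) = 0 := by
      refine L.small _ ?_ ?_
      · have h8 : κ (nm a b q) - (p + z • e) = (u (σ q) - (p + z • e)) - (u (σ q) - κ (nm a b q)) := by abel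
        rw [h8]
        exact Λ.sub_mem h6.2 h3
      · have h8 : κ (nm a b q) - (p + z • e) = (κ (nm a b q) - p) - z • e := by abel
        rw [h8]
        refine (norm_sub_le _ _).trans ?_
        rw [norm_smul]
        have h9 := h4.trans_le (min_le_left _ _)
        have h10 := mul_le_mul_of_nonneg_right h6.1 (norm_nonneg e)
        have h11 := mul_nonneg L.pos.le (norm_nonneg e)
        linarith
    have h8 : κ (nm a b q) = p + z • e := sub_eq_zero.1 h7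
    have h9 : ‖z‖ < η := by
      have h10 := h4.trans_le (min_le_right _ _)
      rw [h8, add_sub_cancel_left, norm_smul] at h10
      exact lt_of_mul_lt_mul_right h10 (norm_nonneg e)
    obtain ⟨h10, h11⟩ := h2 (y := z) (by rwa [dist_zero_right])
    have h12 : nm a b q = c z := by
      rw [← h5, h8, h10]
    have h13 : ξ (q 0, q 1) = c z 0 := by
      rw [← h12]
      rfl
    funext i
    refine Fin.cases rfl (fun i => ?_) i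
    refine Fin.cases rfl (fun j => ?_) i
    show q j.succ.succ = c (θ (ξ (q 0, q 1))) j.succ
    rw [h13, h11, ← h12]
    rfl
  -- the new coordinates
  set m : ℂ × ℂ → ℂ × ℂ := fun w => (w.1 * β₁ (ξ w), w.2 * β₂ (ξ w)) with hm
  have hβ₁ξ : AnalyticAt ℂ (fun w => β₁ (ξ w)) 0 := by
    have h1 : AnalyticAt ℂ β₁ (ξ 0) := by rwa [hξ0]
    exact h1.fun_comp hξan
  have hβ₂ξ : AnalyticAt ℂ (fun w => β₂ (ξ w)) 0 := by
    have h1 : AnalyticAt ℂ β₂ (ξ 0) := by rwa [hξ0]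
    exact h1.fun_comp hξan
  have hman : AnalyticAt ℂ m 0 := (analyticAt_fst.mul hβ₁ξ).prod (analyticAt_snd.mul hβ₂ξ)
  have hm0 : m 0 = 0 := by
    show ((0 : ℂ) * _, (0 : ℂ) * _) = 0
    rw [zero_mul, zero_mul]
    rfl
  have hmd : ∀ v, fderiv ℂ m 0 v = (v.1 * β₁ 0, v.2 * β₂ 0) := by
    intro v
    have h1 : HasFDerivAt (fun w : ℂ × ℂ => w.1 * β₁ (ξ w)) ((0 : ℂ × ℂ).1 • fderiv ℂ (fun w => β₁ (ξ w)) 0 + β₁ (ξ 0) • ContinuousLinearMap.fst ℂ ℂ ℂ) 0 :=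
      hasFDerivAt_fst.mul hβ₁ξ.differentiableAt.hasFDerivAt
    have h2 : HasFDerivAt (fun w : ℂ × ℂ => w.2 * β₂ (ξ w)) ((0 : ℂ × ℂ).2 • fderiv ℂ (fun w => β₂ (ξ w)) 0 + β₂ (ξ 0) • ContinuousLinearMap.snd ℂ ℂ ℂ) 0 :=
      hasFDerivAt_snd.mul hβ₂ξ.differentiableAt.hasFDerivAt
    have h3 := h1.prodMk h2
    have h4 : fderiv ℂ m 0 = _ := h3.fderiv
    rw [h4]
    simp only [ContinuousLinearMap.prod_apply, _root_.add_apply, _root_.smul_apply, ContinuousLinearMap.coe_fst', ContinuousLinearMap.coe_snd', smul_eq_mul,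
      Prod.fst_zero, Prod.snd_zero, zero_mul, zero_add, hξ0]
    rw [mul_comm (β₁ 0), mul_comm (β₂ 0)]
  obtain ⟨ψ, hψ, hψm, hmψ, hψ0⟩ := Pool.Agent.H62.BU.local_inverse hman (fun v hv => by
    rw [hmd] at hv
    have h1 : v.1 * β₁ 0 = 0 := congrArg Prod.fst hv
    have h2 : v.2 * β₂ 0 = 0 := congrArg Prod.snd hv
    exact Prod.ext ((mul_eq_zero.1 h1).resolve_right hβ₁0) ((mul_eq_zero.1 h2).resolve_right hβ₂0))
  rw [hm0] at hψ hmψ hψ0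
  have tψ : Tendsto ψ (𝓝 0) (𝓝 0) := by
    have := hψ.continuousAt.tendsto
    rwa [hψ0] at this
  have tembψ : Tendsto (fun r => emb (ψ r)) (𝓝 0) (𝓝 0) := by
    have h1 := hemb.continuousAt.tendsto
    rw [hemb0] at h1
    exact h1.comp tψ
  have hembψ : AnalyticAt ℂ (fun r => emb (ψ r)) 0 := by
    have h1 : AnalyticAt ℂ emb (ψ 0) := by rwa [hψ0]
    exact h1.fun_comp hψ
  have hτ0 : τ (σ 0) = 0 := hg.left.self_of_nhds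
  have hσ'0 : σ (emb (ψ 0)) = σ 0 := by rw [hψ0, hemb0]
  have hpair : AnalyticAt ℂ (fun y => (τ y 0, τ y 1)) (σ 0) :=
    (((ContinuousLinearMap.proj (R := ℂ) (φ := fun _ : Fin (k + 2) => ℂ) 0).analyticAt _).fun_comp hg.τ_an).prod
      (((ContinuousLinearMap.proj (R := ℂ) (φ := fun _ : Fin (k + 2) => ℂ) 1).analyticAt _).fun_comp hg.τ_an)
  have hpair0 : ((τ (σ 0) 0, τ (σ 0) 1) : ℂ × ℂ) = 0 := by rw [hτ0]; rfl
  have tpair : Tendsto (fun y => ((τ y 0, τ y 1) : ℂ × ℂ)) (𝓝 (σ 0)) (𝓝 0) := by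
    have := hpair.continuousAt.tendsto
    rwa [hpair0] at this
  refine ⟨fun r => σ (emb (ψ r)), fun y => m (τ y 0, τ y 1), a, b, ?_, ?_, hab, ?_⟩
  · refine ⟨?_, ?_, ?_, ?_, ?_, ?_⟩
    · have h1 : AnalyticAt ℂ σ (emb (ψ 0)) := by rw [hψ0, hemb0]; exact hg.σ_an
      exact AnalyticAt.fun_comp (g := σ) (f := fun r => emb (ψ r)) h1 hembψ
    · filter_upwards [tψ.eventually hA] with r hr
      exact hr.1
    · show AnalyticAt ℂ (fun y => m (τ y 0, τ y 1)) (σ (emb (ψ 0)))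
      rw [hσ'0]
      have h1 : AnalyticAt ℂ m (τ (σ 0) 0, τ (σ 0) 1) := by rw [hpair0]; exact hman
      exact AnalyticAt.fun_comp (g := m) (f := fun y => ((τ y 0, τ y 1) : ℂ × ℂ)) h1 hpair
    · filter_upwards [tembψ.eventually hg.left, hmψ] with r h1 h2
      show m (τ (σ (emb (ψ r))) 0, τ (σ (emb (ψ r))) 1) = r
      rw [h1]
      exact h2
    · show ∀ᶠ y in 𝓝 (σ (emb (ψ 0))), _
      rw [hσ'0]
      have tτ : Tendsto τ (𝓝 (σ 0)) (𝓝 0) := by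
        have := hg.τ_an.continuousAt.tendsto
        rwa [hτ0] at this
      filter_upwards [hg.right, tτ.eventually hB, tpair.eventually hψm] with y h1 h2 h3 hyY
      obtain ⟨c', hc', hyc⟩ := h1 hyY.1
      have h4 : σ (τ y) ∈ Yl X Λ u p e s := by
        have h5 := L.isCone.smul_mem y hyY c'⁻¹ (inv_ne_zero hc')
        have h6 : c'⁻¹ • y = σ (τ y) := by
          conv_lhs => rw [hyc]
          rw [smul_smul, inv_mul_cancel₀ hc', one_smul]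
        rwa [h6] at h5
      refine ⟨c', hc', ?_⟩
      show y = c' • σ (emb (ψ (m (τ y 0, τ y 1))))
      rw [h3, ← h2 h4]
      exact hyc
    · show ∀ᶠ z in 𝓝 (σ (emb (ψ 0)), (1 : ℂ)), _
      rw [hσ'0]
      filter_upwards [hg.inv] with z hz
      show m (τ (z.2 • z.1) 0, τ (z.2 • z.1) 1) = m (τ z.1 0, τ z.1 1)
      rw [hz]
  · show σ (emb (ψ 0)) = x₀
    rw [hσ'0, hσ0]
  · have tξψ : Tendsto (fun r => ξ (ψ r)) (𝓝 0) (𝓝 0) := by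
      have h1 := hξan.continuousAt.tendsto
      rw [hξ0] at h1
      exact h1.comp tψ
    filter_upwards [tψ.eventually hA, hmψ, tξψ.eventually hβ] with r h1 h2 h3
    have h4 : r.1 ^ a * r.2 ^ b = θ (ξ (ψ r)) := by
      have h5 : r.1 = (ψ r).1 * β₁ (ξ (ψ r)) := (congrArg Prod.fst h2).symm
      have h6 : r.2 = (ψ r).2 * β₂ (ξ (ψ r)) := (congrArg Prod.snd h2).symm
      rw [h5, h6, hθm, ← h3, mul_pow, mul_pow]
      show _ = (ψ r).1 ^ a * (ψ r).2 ^ b * _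
      ring
    rw [h1.2, h4, zero_add, sub_self]
    exact Γ₀.zero_mem

end Pool.Agent.TG

end
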