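import Pool.Agent.H94.G5T.M14
import Pool.Agent.H94.G5T.M64
import Pool.Agent.H94.G5T.M65
import Pool.Agent.H94.G5T.M67
import Pool.Agent.H94.G5T.M69
import Pool.Agent.H94.G5T.M70
import Pool.Agent.H94.G5T.M71

/-! The parts of this file: TG.Y.Cr, TG.Cross_1, G3.X.Defs_2, G3.X.Sa. -/

section

/-!
# TG Y Cr: crossing a bad fibre, for sections over a disc
-/

set_option autoImplicit false

open Topology Filter Metric

namespace Pool.Agent.TGY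

open Pool.Agent.H36.BP (EN wd IsGermChart)
open Pool.Agent.H14.PP (IsCone Chart Tan CurveAt jac)
open Pool.Agent.H62.EF (Lat MN pr TorusMap Charts)
open Pool.Agent.H62.EL

variable {N : ℕ} {X : Set (EN N)} {Λ : AddSubgroup ℂ} {u : EN N → ℂ}

theorem crossing_on (hX : IsCone X) (hu : TorusMap X Λ u) (hΛ : Lat Λ) {b : ℂ} {s η : ℝ} {T : TubeData X} (hT : Tube Λ u b s η T)
    {α : TForm X Λ u} {r₁ r₂ ε t : ℝ} (hr₁ : 0 < r₁) (hr : r₁ < r₂) (hr₂ : r₂ < t) (hts : t ≤ s) (hε : 0 < ε)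
    {F G : ℂ → EN N} (hF : SecOn X Λ u b t F) (hG : SecOn X Λ u b t G)
    (hcap : ∀ z₀, r₁ < ‖z₀ - b‖ → ‖z₀ - b‖ < r₂ → ∃ (χ : Chart X) (c : ℂ) (ρ : ℝ) (k : Fin T.m),
      Cap Λ u χ c ρ z₀ (pr (F z₀)) (3 * ε) ∧ ∀ p ∈ ball (0 : ℂ × ℂ) 2, χ.σ p ∈ T.W k)
    (hrel : ∀ z₀, r₁ < ‖z₀ - b‖ → ‖z₀ - b‖ < r₂ → ∃ v, IRel α ε z₀ (pr (F z₀)) (pr (G z₀)) v) :
    ∃ J : ℂ → ℂ, DifferentiableOn ℂ J (ball b r₂) ∧ ∀ z, r₁ < ‖z - b‖ → ‖z - b‖ < r₂ → J z = II α ε z (pr (F z)) (pr (G z)) := by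
  have hopen : IsOpen {z : ℂ | r₁ < ‖z - b‖ ∧ ‖z - b‖ < r₂} := by
    have h1 : IsOpen {z : ℂ | r₁ < ‖z - b‖} := isOpen_lt continuous_const (by fun_prop)
    have h2 : IsOpen {z : ℂ | ‖z - b‖ < r₂} := isOpen_lt (by fun_prop) continuous_const
    exact h1.inter h2
  have hbt : ∀ z : ℂ, ‖z - b‖ < r₂ → z ∈ ball b t := fun z hz => by
    rw [mem_ball, dist_eq_norm]
    exact hz.trans hr₂
  refine ext_annulus hr₁ hr (J := fun z => II α ε z (pr (F z)) (pr (G z))) ?_ ?_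
  · intro z₀ hz₀
    obtain ⟨χ, c, ρ, k, hc, _⟩ := hcap z₀ hz₀.1 hz₀.2
    have hb := isOpen_ball.mem_nhds (hbt z₀ hz₀.2)
    have h := II_analytic_on hX hu hΛ (α := α) (ε := ε) (r := 3 * ε) (hF.1.analyticAt hb) (hG.1.analyticAt hb)
      (Filter.mem_of_superset hb fun z hz => ⟨hF.2.1 z hz, hF.2.2 z hz⟩) (Filter.mem_of_superset hb fun z hz => ⟨hG.2.1 z hz, hG.2.2 z hz⟩)
      hc (by linarith) (Filter.mem_of_superset (hopen.mem_nhds hz₀) fun z hz => hrel z hz.1 hz.2)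
    exact h.differentiableAt.differentiableWithinAt
  · intro n r hr₁r hrr₂
    choose A hA using fun k : Fin T.m => exists_prim (α.mulPow b n) (T.χ k) (hT.geo.mon k)
    obtain ⟨lam, hlam⟩ := hT.split (α.mulPow b n) A hA
    obtain ⟨K, hK⟩ := exists_K hX hu hΛ hT.geo hA hlam hts hF hG (r₁ := r₁) hr₂ hε hcap
      (fun z h₁ h₂ => by
        obtain ⟨v, hv⟩ := hrel z h₁ h₂
        exact ⟨_, hv.mulPow b n⟩)
    refine circleIntegral.integral_eq_zero_of_hasDerivWithinAt (f := K) (by linarith) fun z hz => ?_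
    have hz' : ‖z - b‖ = r := by rwa [mem_sphere, dist_eq_norm] at hz
    have h₁ : r₁ < ‖z - b‖ := by rw [hz']; exact hr₁r
    have h₂ : ‖z - b‖ < r₂ := by rw [hz']; exact hrr₂
    obtain ⟨χ, c, ρ, k, hc, _⟩ := hcap z h₁ h₂
    have h := II_mulPow hX hu hΛ (hrel z h₁ h₂) hc (mem_closedBall_self (by linarith))
      (by rw [dist_self]; linarith) b n
    have h3 := hK z h₁ h₂
    rw [h] at h3
    exact h3.hasDerivWithinAt

end Pool.Agent.TGY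

end

section

/-!
# TG Cross: crossing `D`

`κ, c, Γ₀, s` from `exists_ln`; `T, s', η` from `Pool.Agent.TGY.exists_tube` for `Y = Yl X Λ u p e s`, `w = wl`, `b = 0` (`Ln.isCone`, `Ln.torusMap`, `L.lat₀`, `Ln.isNC`).  `s₀ = min s s'`.  Let `r₁ < r₂ < s₀`, `r` from `Ln.ycap`, `ε₁ = r / 3`.
For `f ∈ Sec`: `sec_line` with `y = p`, `R = s` (all points `p + z • e`, `0 < ‖z‖ ≤ s`, are off `D`) gives `F` on `ball 0 t` with `r₂ < t < s₀`: `Pool.Agent.TGY.SecOn Y Γ₀ wl 0 t F` (`wl (F z) = z` by `Ln.wl_eq`), `pr (F z) = f (p + z • e)` for `z ≠ 0`.  Same for `g`: `G`.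
`crossing_on` (`TG/Y/Cr`) for the form `L.form α`: `hcap` from `Ln.ycap` (`wl (F z₀) = z₀`; `EL.Cap` is monotone in `r`: `3 ε ≤ r`), `hrel` from `Ln.irel_bridge`.  It gives `J'` holomorphic on `ball 0 r₂` with `J' z = EL.II (L.form α) ε z (pr (F z)) (pr (G z))` on the annulus; the latter is
`- dt κ e c z * II α ε (p + z • e) (f ..) (g ..)`: `II` satisfies `IRel` (`Exists.choose_spec`), `irel_bridge`, and `EL.II_eq`, `EL.IRel.eq_cap` (uniqueness, chart from `ycap`, `EL.exists_prim`).  `J z = - J' z / dt κ e c z` (`L.dt_ne`; `dt κ e c` is differentiable on `ball 0 s`: `L.κ_an`, `L.c_an`).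
-/

set_option autoImplicit false

open Topology Filter Metric

namespace Pool.Agent.TG

open Pool.Agent.H36.BP (EN fs wd)
open Pool.Agent.H14.PP (IsCone CurveAt Tan)
open Pool.Agent.H62.EF (MN pr)
open Pool.Agent.AD (Vd Chart Charts IsGerm)

variable {N k : ℕ}

variable {X : Set (EN N)} {Λ : AddSubgroup (Vd (k + 1))} {u : EN N → Vd (k + 1)} {D B : Set (Vd (k + 1))}
  {κ : Vd (k + 1) → Vd (k + 1)} {p e : Vd (k + 1)} {c : ℂ → Vd (k + 1)} {Γ₀ : AddSubgroup ℂ} {s : ℝ}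

theorem crossing (G : Geo X Λ u D B) (hp : p ∈ D) (hpB : p ∉ B) (ht : TransAt D p e) :
    ∃ s₀ : ℝ, 0 < s₀ ∧ (∀ z : ℂ, z ≠ 0 → ‖z‖ < s₀ → p + z • e ∉ D) ∧ ∀ r₁ r₂ : ℝ, 0 < r₁ → r₁ < r₂ → r₂ < s₀ →
      ∃ ε₁ : ℝ, 0 < ε₁ ∧ ∀ ε : ℝ, 0 < ε → ε ≤ ε₁ → ∀ α : VForm X Λ u, ∀ f ∈ Sec X Λ u D, ∀ g ∈ Sec X Λ u D,
        (∀ z : ℂ, r₁ ≤ ‖z‖ → ‖z‖ ≤ r₂ → ∃ v, IRel α ε (p + z • e) (f (p + z • e)) (g (p + z • e)) v) →
        ∃ J : ℂ → ℂ, DifferentiableOn ℂ J (ball 0 r₂) ∧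
          ∀ z : ℂ, r₁ < ‖z‖ → ‖z‖ < r₂ → J z = II α ε (p + z • e) (f (p + z • e)) (g (p + z • e)) := by
  obtain ⟨κ, c, Γ₀, s, L⟩ := exists_ln G hp hpB ht
  obtain ⟨T, s', η, hT⟩ := Pool.Agent.TGY.exists_tube L.isCone L.torusMap L.lat₀ (b := 0) (fun x hx h => L.isNC x hx h)
  refine ⟨min s s', lt_min L.pos hT.geo.pos, fun z hz hzs => L.off z hz (hzs.le.trans (min_le_left _ _)), fun r₁ r₂ hr₁ hr hr₂ => ?_⟩
  have hr₂s : r₂ < s := hr₂.trans_le (min_le_left _ _)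
  have hr₂s' : r₂ < s' := hr₂.trans_le (min_le_right _ _)
  obtain ⟨r, hr0, hcap⟩ := L.ycap hT.geo hr₁ hr₂s hr₂s'
  refine ⟨r / 3, by positivity, fun ε hε hεr α f hf g hg hrel => ?_⟩
  have h3ε : 3 * ε ≤ r := by linarith
  set t : ℝ := (r₂ + min s s') / 2 with htd
  have ht1 : r₂ < t := by rw [htd]; linarith
  have ht2 : t < min s s' := by rw [htd]; linarith
  obtain ⟨F, hF1, hF2, hF3⟩ := cross_lift L G.D_closed hf (min_le_left s s') ht2
  obtain ⟨H, hH1, hH2, hH3⟩ := cross_lift L G.D_closed hg (min_le_left s s') ht2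
  have hne : ∀ z : ℂ, r₁ < ‖z‖ → z ≠ 0 := by
    rintro z hz rfl
    rw [norm_zero] at hz
    linarith
  have hcapF : ∀ z₀ : ℂ, r₁ < ‖z₀‖ → ‖z₀‖ < r₂ → ∃ (χ : Pool.Agent.H14.PP.Chart (Yl X Λ u p e s)) (c' : ℂ) (ρ : ℝ) (k' : Fin T.m),
      Pool.Agent.H62.EL.Cap Γ₀ (wl Λ u p e s) χ c' ρ z₀ (pr (F z₀)) (3 * ε) ∧ ∀ y ∈ ball (0 : ℂ × ℂ) 2, χ.σ y ∈ T.W k' := by
    intro z₀ h1 h2
    have hw := hF2 z₀ (h2.trans ht1)
    obtain ⟨χ, c', ρ, k', hc, hW⟩ := hcap (F z₀) (hF1.2.1 z₀ (mem_ball_zero_iff.2 (h2.trans ht1))) (by rw [hw]; exact h1.le) (by rw [hw]; exact h2.le)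
    rw [hw] at hc
    refine ⟨χ, c', ρ, k', ⟨hc.mon, fun z hz x hx hxz hd => ?_⟩, hW⟩
    exact hc.cap z (closedBall_subset_closedBall h3ε hz) x hx hxz (hd.trans h3ε)
  have hrelY : ∀ z₀ : ℂ, r₁ < ‖z₀‖ → ‖z₀‖ < r₂ → Pool.Agent.H62.EL.IRel (L.form α) ε z₀ (pr (F z₀)) (pr (H z₀))
      (-dt κ e c z₀ * II α ε (p + z₀ • e) (f (p + z₀ • e)) (g (p + z₀ • e))) := by
    intro z₀ h1 h2
    rw [hF3 z₀ (hne z₀ h1) (h2.trans ht1), hH3 z₀ (hne z₀ h1) (h2.trans ht1)]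
    refine L.irel_bridge (h2.trans hr₂s) ?_
    have h4 := hrel z₀ h1.le h2.le
    have h5 : II α ε (p + z₀ • e) (f (p + z₀ • e)) (g (p + z₀ • e)) = h4.choose := by
      unfold II
      rw [dif_pos h4]
    rw [h5]
    exact h4.choose_spec
  obtain ⟨J', hJ'1, hJ'2⟩ := Pool.Agent.TGY.crossing_on (b := 0) L.isCone L.torusMap L.lat₀ hT (α := L.form α) hr₁ hr ht1
    (ht2.le.trans (min_le_right _ _)) hε hF1 hH1
    (fun z₀ h1 h2 => by
      rw [sub_zero] at h1 h2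
      exact hcapF z₀ h1 h2)
    (fun z₀ h1 h2 => by
      rw [sub_zero] at h1 h2
      exact ⟨_, hrelY z₀ h1 h2⟩)
  refine ⟨fun z => -(J' z / dt κ e c z), ?_, fun z h1 h2 => ?_⟩
  · intro z hz
    have hzs : z ∈ closedBall (0 : ℂ) s := by
      rw [mem_closedBall_zero_iff]
      exact (mem_ball_zero_iff.1 hz).le.trans hr₂s.le
    exact ((hJ'1 z hz).div (L.dt_an hzs).differentiableAt.differentiableWithinAt (L.dt_ne z hzs)).neg
  · have hzs : z ∈ closedBall (0 : ℂ) s := by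
      rw [mem_closedBall_zero_iff]
      exact h2.le.trans hr₂s.le
    have h3 := hJ'2 z (by rwa [sub_zero]) (by rwa [sub_zero])
    obtain ⟨χ, c', ρ, k', hc, -⟩ := hcapF z h1 h2
    obtain ⟨A, hA⟩ := Pool.Agent.H62.EL.exists_prim (L.form α) χ hc.mon
    have hv := hrelY z h1 h2
    have hFz := hF1.2.1 z (mem_ball_zero_iff.2 (h2.trans ht1))
    have hHz := hH1.2.1 z (mem_ball_zero_iff.2 (h2.trans ht1))
    have hzc : z ∈ closedBall z (3 * ε) := mem_closedBall_self (by linarith)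
    have hd0 : dist (pr (F z)) (pr (F z)) + ε ≤ 3 * ε := by
      rw [dist_self]
      linarith
    have e1 := Pool.Agent.H62.EL.IRel.eq_cap L.isCone L.torusMap L.lat₀ hv hc hA hzc hd0 hFz hHz rfl rfl
    have e2 := Pool.Agent.H62.EL.II_eq L.isCone L.torusMap L.lat₀ ⟨_, hv⟩ hc hA hzc hd0 hFz hHz rfl rfl
    have hdt := L.dt_ne z hzs
    show -(J' z / dt κ e c z) = _
    rw [h3, e2, ← e1]
    field_simp

end Pool.Agent.TG

end

section

/-!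
# G3 X Defs: uniform crossing for arcs, definitions

Plan of the block `G3/X` (helper19).  Near a point `p ∈ D \ B` choose coordinates `κ` of the base in which `D` is `{q 0 = 0}` and the given line `p + z e` is `{q_1 = .. = q_k = 0}` (`LnC`).  An
arc near the line is `ar κ g`, the graph of a small function `g` (`Inv`).  `X` is covered near the fibre over `p` by finitely many normal crossing charts (`NCh`: `u = κ (x ^ a y ^ b, s)` in suitable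
coordinates) and finitely many witness charts (`Fam`, `FamG`); cut with the graph of `g` (`emb`) they give a tube (in the sense of `H62/EL`) for the surface `Ya`, the part of `X` over the arc,
with constants which do not depend on `g`.
-/

set_option autoImplicit false

open Topology Filter Metric

namespace Pool.Agent.GX

open Pool.Agent.H36.BP (EN fs wd)
open Pool.Agent.H14.PP (IsCone CurveAt Tan)
open Pool.Agent.H62.EF (MN pr)
open Pool.Agent.AD (Vd Chart Charts IsGerm)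
open Pool.Agent.TG (TMap Lat tl nm IsStr IsNC IsCoord Geo VForm ms Str IsPrim Cap IRel II TransAt Gd Cst DV fr)

variable {N k : ℕ}

variable (X : Set (EN N)) (Λ : AddSubgroup (Vd (k + 1))) (u : EN N → Vd (k + 1))

variable {X}

/-- a normal crossing chart: `u` is `κ (r ^ (a + b) x ^ a y ^ b, r s)` -/
structure NCh (κ : Vd (k + 1) → Vd (k + 1)) (R : ℝ) (χ : Chart (k + 2) X) (r : ℝ) (a b : ℕ) : Prop where
  pos : 0 < r
  ab : 0 < a + b
  lt : 2 * r < R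
  rng : (2 * r) ^ (a + b) < R
  lift : ∀ q ∈ ball (0 : Vd (k + 2)) 2, u (χ.σ q) - κ (nm a b ((r : ℂ) • q)) ∈ Λ

variable (X)

/-- the data for one arc -/
structure La (D : Set (Vd (k + 1))) (κ ψ : Vd (k + 1) → Vd (k + 1)) (R : ℝ) (g : ℂ → Fin k → ℂ) (Γ₀ : AddSubgroup ℂ) (s : ℝ) : Prop where
  kp : Kp X Λ u D κ ψ R
  lat₀ : Pool.Agent.H62.EF.Lat Γ₀
  pos : 0 < s
  le : 2 * s ≤ R
  big : ∀ l ∈ Γ₀, ‖l‖ ≤ 8 * s → l = 0
  g_an : DifferentiableOn ℂ g (ball (0 : ℂ) (2 * s))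
  g_lt : ∀ z ∈ ball (0 : ℂ) (2 * s), ‖g z‖ < R
  nc : ∀ x ∈ X, u x - ar κ g 0 ∈ Λ → ∃ (χ : Chart (k + 2) X) (r : ℝ) (a b : ℕ), x ∈ χ.U ∧ NCh Λ u κ R χ r a b

variable {X}

end Pool.Agent.GX

end

section

/-!
# G3 X Sa: the part of `X` over an arc, basic facts

Port of `TG/Y/SlA.lean` (`p + z • e` becomes `ar κ g z`) and of the lemmas `fr_an`, `dt_an` of `TG/Y/NcA.lean`.
`cg_mem`: `‖z‖ < 2 s ≤ R`, `‖g z‖ < R` (`pi_norm_lt_iff`).  `ar_inj`: `Kp.inj`, first coordinate of `cg`.  `off`: `Kp.mem_iff`, `(cg g z) 0 = z`.  `deriv_ar`: chain rule.  `dta_ne`: `fderiv κ (cg g z)` is injective (`ψ_κ`: `ψ ∘ κ = id` near `cg g z`), and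
the rows are its values on `cons 1 (deriv g z)`, `Pi.single j.succ 1`: a relation between the rows gives one between these vectors, first coordinate `0`, ... (see `hdt0` in `TG/Y/LnE.lean`).
`wa_eq`: `ar_inj`.  `isCone`: as `Ln.isCone` (`ar κ g` is continuous on the compact disc `closedBall 0 s`).
`exists_loc`: let `v` be a local lift of `u` at `x`, `l₀ = v x - ar κ g (wa x) ∈ Λ`; `q' y = ψ (v y - l₀)` is analytic at `x`, `q' x = cg g (wa x) ∈ ball 0 R`, `κ (q' y) = v y - l₀` near `x` (`κ_ψ`); for `y ∈ Ya` near `x`: `κ (q' y) - κ (cg g (wa y)) ∈ Λ`, so by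
`Kp.inj` `q' y = cg g (wa y)`, `wa y = q' y 0`: `W y = ψ (v y - l₀) 0`.  `wa_cont`: `Ln.wl_cont` in `TG/Y/YCap.lean`.  `nb`: `Γ₀` has no small elements.
-/

set_option autoImplicit false

open Topology Filter Metric

namespace Pool.Agent.GX

open Pool.Agent.H36.BP (EN fs wd)
open Pool.Agent.H14.PP (IsCone CurveAt Tan)
open Pool.Agent.H62.EF (MN pr)
open Pool.Agent.AD (Vd Chart Charts IsGerm)
open Pool.Agent.TG (TMap Lat tl nm IsStr IsNC IsCoord Geo VForm ms Str IsPrim Cap IRel II TransAt Gd Cst DV fr tc)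

variable {N k : ℕ}

variable {X : Set (EN N)} {Λ : AddSubgroup (Vd (k + 1))} {u : EN N → Vd (k + 1)} {D B : Set (Vd (k + 1))}
  {κ ψ : Vd (k + 1) → Vd (k + 1)} {R : ℝ} {g : ℂ → Fin k → ℂ} {Γ₀ : AddSubgroup ℂ} {s : ℝ}

theorem La.cg_mem (L : La X Λ u D κ ψ R g Γ₀ s) {z : ℂ} (hz : z ∈ ball (0 : ℂ) (2 * s)) : cg g z ∈ ball (0 : Vd (k + 1)) R := by
  rw [mem_ball_zero_iff, pi_norm_lt_iff L.kp.pos]
  intro i
  refine Fin.cases ?_ (fun j => ?_) i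
  · show ‖z‖ < R
    exact (mem_ball_zero_iff.1 hz).trans_le L.le
  · show ‖g z j‖ < R
    exact (norm_le_pi_norm (g z) j).trans_lt (L.g_lt z hz)

private theorem La.g_an' (L : La X Λ u D κ ψ R g Γ₀ s) {z : ℂ} (hz : z ∈ ball (0 : ℂ) (2 * s)) : AnalyticAt ℂ g z :=
  L.g_an.analyticAt (isOpen_ball.mem_nhds hz)

theorem La.cg_an (L : La X Λ u D κ ψ R g Γ₀ s) {z : ℂ} (hz : z ∈ ball (0 : ℂ) (2 * s)) : AnalyticAt ℂ (cg g) z := by
  have h1 : ∀ i : Fin (k + 1), AnalyticAt ℂ (fun w => cg g w i) z := by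
    intro i
    refine Fin.cases ?_ (fun j => ?_) i
    · exact analyticAt_id
    · exact ((ContinuousLinearMap.proj (R := ℂ) (φ := fun _ : Fin k => ℂ) j).analyticAt _).fun_comp (L.g_an' hz)
  exact AnalyticAt.pi h1

theorem La.ar_an (L : La X Λ u D κ ψ R g Γ₀ s) {z : ℂ} (hz : z ∈ ball (0 : ℂ) (2 * s)) : AnalyticAt ℂ (ar κ g) z :=
  (L.kp.κ_an _ (L.cg_mem hz)).fun_comp (L.cg_an hz)

theorem La.mem2 (L : La X Λ u D κ ψ R g Γ₀ s) {z : ℂ} (hz : ‖z‖ ≤ s) : z ∈ ball (0 : ℂ) (2 * s) := by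
  rw [mem_ball_zero_iff]
  have := L.pos
  linarith

theorem La.off (L : La X Λ u D κ ψ R g Γ₀ s) {z : ℂ} (hz : z ∈ ball (0 : ℂ) (2 * s)) (h0 : z ≠ 0) : ar κ g z ∉ D := fun h =>
  h0 ((L.kp.mem_iff _ (L.cg_mem hz)).1 h)

private theorem La.cg_deriv (L : La X Λ u D κ ψ R g Γ₀ s) {z : ℂ} (hz : z ∈ ball (0 : ℂ) (2 * s)) :
    HasDerivAt (cg g) (Fin.cons (α := fun _ => ℂ) 1 (deriv g z)) z := by
  refine hasDerivAt_pi.2 fun i => ?_
  refine Fin.cases ?_ (fun j => ?_) i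
  · exact hasDerivAt_id z
  · exact hasDerivAt_pi.1 (L.g_an' hz).differentiableAt.hasDerivAt j

theorem La.deriv_ar (L : La X Λ u D κ ψ R g Γ₀ s) {z : ℂ} (hz : z ∈ ball (0 : ℂ) (2 * s)) :
    deriv (ar κ g) z = fderiv ℂ κ (cg g z) (Fin.cons (α := fun _ => ℂ) 1 (deriv g z)) := by
  have h2 : HasFDerivAt κ (fderiv ℂ κ (cg g z)) (cg g z) := (L.kp.κ_an _ (L.cg_mem hz)).differentiableAt.hasFDerivAt
  exact (h2.comp_hasDerivAt z (L.cg_deriv hz)).deriv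

theorem La.fr_an (L : La X Λ u D κ ψ R g Γ₀ s) {z : ℂ} (hz : z ∈ ball (0 : ℂ) (2 * s)) (j : Fin k) :
    AnalyticAt ℂ (fun z => fr κ (cg g) z j) z := by
  have h1 : AnalyticAt ℂ (fderiv ℂ κ) (cg g z) := (L.kp.κ_an _ (L.cg_mem hz)).fderiv
  have h2 : AnalyticAt ℂ (fun w => fderiv ℂ κ (cg g w)) z := h1.fun_comp (L.cg_an hz)
  exact ((ContinuousLinearMap.apply ℂ (Vd (k + 1)) (Pi.single j.succ 1 : Vd (k + 1))).analyticAt _).fun_comp h2

private theorem La.κ_inj (L : La X Λ u D κ ψ R g Γ₀ s) {z : ℂ} (hz : z ∈ ball (0 : ℂ) (2 * s)) {v : Vd (k + 1)}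
    (hv : fderiv ℂ κ (cg g z) v = 0) : v = 0 := by
  have h1 : HasFDerivAt κ (fderiv ℂ κ (cg g z)) (cg g z) := (L.kp.κ_an _ (L.cg_mem hz)).differentiableAt.hasFDerivAt
  have h2 : HasFDerivAt ψ (fderiv ℂ ψ (κ (cg g z))) (κ (cg g z)) := (L.kp.ψ_an _ (L.cg_mem hz)).differentiableAt.hasFDerivAt
  have h3 := h2.comp (cg g z) h1
  have h4 : HasFDerivAt (ψ ∘ κ) (ContinuousLinearMap.id ℂ (Vd (k + 1))) (cg g z) := by
    refine (hasFDerivAt_id (cg g z)).congr_of_eventuallyEq ?_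
    filter_upwards [isOpen_ball.mem_nhds (L.cg_mem hz)] with q hq
    exact L.kp.ψ_κ q hq
  have h5 := h3.unique h4
  have h6 := DFunLike.congr_fun h5 v
  rw [ContinuousLinearMap.comp_apply, hv, map_zero] at h6
  exact h6.symm

theorem La.dta_ne (L : La X Λ u D κ ψ R g Γ₀ s) {z : ℂ} (hz : z ∈ ball (0 : ℂ) (2 * s)) : dta κ g z ≠ 0 := by
  intro h0
  obtain ⟨v, hv, hv0⟩ := Matrix.exists_vecMul_eq_zero_iff.2 h0
  apply hv
  set w : Vd (k + 1) := Fin.cons (α := fun _ => ℂ) 1 (deriv g z) with hw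
  have h1 : v 0 • deriv (ar κ g) z + ∑ j : Fin k, v j.succ • fr κ (cg g) z j = 0 := by
    funext i
    have h2 := congrFun hv0 i
    rw [Matrix.vecMul, dotProduct, Fin.sum_univ_succ] at h2
    rw [Pi.add_apply, Finset.sum_apply]
    exact h2
  have h2 : fderiv ℂ κ (cg g z) (v 0 • w + ∑ j : Fin k, v j.succ • (Pi.single j.succ 1 : Vd (k + 1))) = 0 := by
    rw [map_add, map_smul, ← L.deriv_ar hz, map_sum]
    refine Eq.trans ?_ h1
    congr 1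
    refine Finset.sum_congr rfl fun j _ => ?_
    rw [map_smul]
    rfl
  have h3 : v 0 • w + ∑ j : Fin k, v j.succ • (Pi.single j.succ 1 : Vd (k + 1)) = 0 := L.κ_inj hz h2
  have h4 : v 0 = 0 := by
    have h5 := congrFun h3 0
    rw [Pi.add_apply, Finset.sum_apply, Finset.sum_eq_zero (fun j _ => by simp), add_zero, Pi.smul_apply, Pi.zero_apply, smul_eq_mul] at h5
    have h6 : w 0 = 1 := rfl
    rwa [h6, mul_one] at h5
  funext i
  refine Fin.cases h4 (fun j => ?_) i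
  have h5 := congrFun h3 j.succ
  rw [h4, zero_smul, zero_add, Finset.sum_apply, Finset.sum_eq_single j] at h5
  · simpa using h5
  · intro b _ hb
    have h6 : (Pi.single b.succ 1 : Vd (k + 1)) j.succ = 0 := by
      rw [Pi.single_apply, if_neg]
      intro h7
      exact hb (Fin.succ_injective _ h7).symm
    rw [Pi.smul_apply, h6, smul_zero]
  · intro h
    exact absurd (Finset.mem_univ _) h

theorem wa_spec {x : EN N} (hx : x ∈ Ya X Λ u κ g s) : ‖wa Λ u κ g s x‖ ≤ s ∧ u x - ar κ g (wa Λ u κ g s x) ∈ Λ := by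
  unfold wa
  rw [dif_pos hx.2]
  exact hx.2.choose_spec

theorem La.exists_loc (L : La X Λ u D κ ψ R g Γ₀ s) {x : EN N} (hx : x ∈ Ya X Λ u κ g s) :
    ∃ W : EN N → ℂ, AnalyticAt ℂ W x ∧ ∀ᶠ y in 𝓝 x, y ∈ Ya X Λ u κ g s → wa Λ u κ g s y = W y := by
  obtain ⟨v, hv, hv'⟩ := L.kp.tor.loc x hx.1
  have hsx := wa_spec hx
  set z₀ : ℂ := wa Λ u κ g s x with hz₀
  have hq : cg g z₀ ∈ ball (0 : Vd (k + 1)) R := L.cg_mem (L.mem2 hsx.1)
  set l₀ : Vd (k + 1) := v x - κ (cg g z₀) with hl₀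
  have hl₀Λ : l₀ ∈ Λ := by
    have h1 : l₀ = (u x - ar κ g z₀) - (u x - v x) := by
      rw [hl₀]
      unfold ar
      abel
    rw [h1]
    exact Λ.sub_mem hsx.2 (hv'.self_of_nhds hx.1)
  have hvx : v x - l₀ = κ (cg g z₀) := by
    rw [hl₀]
    abel
  have han : AnalyticAt ℂ (fun y : EN N => v y - l₀) x := hv.sub analyticAt_const
  have hψ : AnalyticAt ℂ (fun y : EN N => ψ (v y - l₀)) x := by
    have h1 : AnalyticAt ℂ ψ (v x - l₀) := by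
      rw [hvx]
      exact L.kp.ψ_an _ hq
    exact AnalyticAt.fun_comp (g := ψ) (f := fun y : EN N => v y - l₀) h1 han
  have hψx : ψ (v x - l₀) = cg g z₀ := by
    rw [hvx, L.kp.ψ_κ _ hq]
  have hW : AnalyticAt ℂ (fun y : EN N => ψ (v y - l₀) 0) x :=
    ((ContinuousLinearMap.proj (R := ℂ) (φ := fun _ : Fin (k + 1) => ℂ) 0).analyticAt _).fun_comp hψ
  refine ⟨fun y => ψ (v y - l₀) 0, hW, ?_⟩
  have h1 : ∀ᶠ y in 𝓝 x, ψ (v y - l₀) ∈ ball (0 : Vd (k + 1)) R := by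
    refine hψ.continuousAt.eventually (isOpen_ball.mem_nhds ?_)
    show ψ (v x - l₀) ∈ ball (0 : Vd (k + 1)) R
    rw [hψx]
    exact hq
  have h2 : ∀ᶠ y in 𝓝 x, κ (ψ (v y - l₀)) = v y - l₀ := by
    have h3 : Tendsto (fun y : EN N => v y - l₀) (𝓝 x) (𝓝 (κ (cg g z₀))) := by
      have h4 := han.continuousAt.tendsto
      rwa [hvx] at h4
    exact h3.eventually (L.kp.κ_ψ _ hq)
  filter_upwards [hv', h1, h2] with y hy1 hy2 hy3 hy
  have h3 := wa_spec hy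
  have h4 : κ (ψ (v y - l₀)) - κ (cg g (wa Λ u κ g s y)) ∈ Λ := by
    have h5 : κ (ψ (v y - l₀)) - κ (cg g (wa Λ u κ g s y)) = (u y - ar κ g (wa Λ u κ g s y)) - (u y - v y) - l₀ := by
      rw [hy3]
      unfold ar
      abel
    rw [h5]
    exact Λ.sub_mem (Λ.sub_mem h3.2 (hy1 hy.1)) hl₀Λ
  exact (congrFun (L.kp.inj _ hy2 _ (L.cg_mem (L.mem2 h3.1)) h4) 0).symm

end Pool.Agent.GX

end
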