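import Pool.Agent.H94.G5T.H36.BP.Defs_1
import Pool.Agent.H94.G5T.M30

/-! The parts of this file: H17G.PNG_1, H22.AlgD.Form, H22.AlgD.Taylor, H13.CV.CubD, H13.CV.CubA, H13.CV.CubX, H13.CV.CubB, H13.CV.CubI, TG.HyA, TG.HyB. -/

section

/-!
# G PNG: projective surfaces with a holomorphic map to an elliptic curve, definitions
-/

set_option autoImplicit false

open Topology Filter MvPolynomial

noncomputable section

namespace Pool.Agent.H17G

open Pool.Agent.H17 (PN VanishesAt HolomorphicInto)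

variable {N : ℕ}

/-- The point of `X` with the homogeneous coordinates `x` lies over `z`: the pair is a point of the covering `{(x, z) : u x = z mod Λ}` of `X`. -/
def Over (X : Set (PN N)) (Λ : AddSubgroup ℂ) (u : PN N → ℂ ⧸ Λ) (z : ℂ) (x : Fin (N + 1) → ℂ) : Prop :=
  ∃ h : x ≠ 0, Projectivization.mk ℂ x h ∈ X ∧ u (Projectivization.mk ℂ x h) = (z : ℂ ⧸ Λ)

/-- The form `Ω` is `0` at all points of the fibre over `z`. -/
def VanishesOver (X : Set (PN N)) (Λ : AddSubgroup ℂ) (u : PN N → ℂ ⧸ Λ)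
    (Ω : ℂ → (Fin (N + 1) → ℂ) → (Fin (N + 1) → ℂ) → (Fin (N + 1) → ℂ) → ℂ) (z : ℂ) : Prop :=
  ∀ x, Over X Λ u z x → ∀ v w, IsTangent X x v → IsTangent X x w → Ω z x v w = 0

/-- The form `Ω` is `0` on no nonempty open set. -/
def IsNowhereZero (X : Set (PN N)) (Λ : AddSubgroup ℂ) (u : PN N → ℂ ⧸ Λ)
    (Ω : ℂ → (Fin (N + 1) → ℂ) → (Fin (N + 1) → ℂ) → (Fin (N + 1) → ℂ) → ℂ) : Prop :=
  ∀ z x, Over X Λ u z x → ∃ᶠ q in 𝓝 (z, x), Over X Λ u q.1 q.2 ∧ ∃ v w, IsTangent X q.2 v ∧ IsTangent X q.2 w ∧ Ω q.1 q.2 v w ≠ 0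

end Pool.Agent.H17G

end
end

section

/-!
# AlgD Form: a subset of a projective variety which is covered by finitely many holomorphic pieces of smaller dimension
lies in a hypersurface
-/

set_option autoImplicit false

open MvPolynomial Metric Set
open scoped Topology

noncomputable section

namespace Pool.Agent.H22.AlgD

variable {N n q : ℕ} {P : Ideal (MvPolynomial (Fin (N + 1)) ℂ)}

theorem eval_smul_form {d : ℕ} {Q : MvPolynomial (Fin (N + 1)) ℂ} (hQ : Q.IsHomogeneous d) (c : ℂ)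
    (x : Fin (N + 1) → ℂ) : eval (c • x) Q = c ^ d * eval x Q := by
  rw [MvPolynomial.eval_eq', MvPolynomial.eval_eq', Finset.mul_sum]
  apply Finset.sum_congr rfl
  intro m hm
  have hdeg : ∑ i, m i = d := by
    have := hQ (MvPolynomial.mem_support_iff.1 hm)
    rw [Finsupp.weight_apply] at this
    simpa [Finsupp.sum_fintype] using this
  have h1 : ∏ i, (c • x) i ^ m i = c ^ d * ∏ i, x i ^ m i := by
    rw [← hdeg, ← Finset.prod_pow_eq_pow_sum, ← Finset.prod_mul_distrib]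
    exact Finset.prod_congr rfl fun i _ => by simp [mul_pow]
  rw [h1]
  ring

end Pool.Agent.H22.AlgD

end
end

section

/-!
# AlgD Taylor: the Taylor polynomials of order `< m` of forms along a map from `ℂ^q`, Schwarz lemma
-/

set_option autoImplicit false

open MvPolynomial Metric Set
open scoped Topology

noncomputable section

namespace Pool.Agent.H22.AlgD

variable {q N : ℕ}

/-- the span of the monomials in `q` variables all of whose exponents are `< m` -/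
def monSpace (q m : ℕ) : Submodule ℂ ((Fin q → ℂ) → ℂ) :=
  Submodule.span ℂ (Set.range fun (a : Fin q → Fin m) (w : Fin q → ℂ) => ∏ i, w i ^ (a i : ℕ))

instance finite_monSpace (q m : ℕ) : FiniteDimensional ℂ (monSpace q m) :=
  FiniteDimensional.span_of_finite ℂ (Set.finite_range _)

theorem finrank_monSpace_le (q m : ℕ) : Module.finrank ℂ (monSpace q m) ≤ m ^ q := by
  have h := finrank_range_le_card (R := ℂ) (M := (Fin q → ℂ) → ℂ)
    (b := fun (a : Fin q → Fin m) (w : Fin q → ℂ) => ∏ i, w i ^ (a i : ℕ))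
  rw [Fintype.card_fun, Fintype.card_fin, Fintype.card_fin] at h
  exact h

theorem prod_mem_monSpace {k m : ℕ} (hk : k < m) (f : Fin k → Fin q) :
    (fun w : Fin q → ℂ => ∏ j, w (f j)) ∈ monSpace q m := by
  classical
  have hcard : ∀ i : Fin q, (Finset.univ.filter fun j => f j = i).card < m := fun i =>
    lt_of_le_of_lt ((Finset.card_le_univ _).trans (by rw [Fintype.card_fin])) hk
  refine Submodule.subset_span ⟨fun i => ⟨(Finset.univ.filter fun j => f j = i).card, hcard i⟩, ?_⟩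
  funext w
  simp only
  rw [Finset.prod_comp w f]
  symm
  refine Finset.prod_subset (Finset.subset_univ _) fun i _ hi => ?_
  have h0 : (Finset.univ.filter fun j => f j = i) = ∅ := by
    rw [Finset.filter_eq_empty_iff]
    intro j _ hj
    exact hi (Finset.mem_image.2 ⟨j, Finset.mem_univ _, hj⟩)
  rw [h0, Finset.card_empty, pow_zero]

theorem diag_mem_monSpace {k m : ℕ} (hk : k < m) (μ : ContinuousMultilinearMap ℂ (fun _ : Fin k => Fin q → ℂ) ℂ) :
    (fun w : Fin q → ℂ => μ fun _ => w) ∈ monSpace q m := by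
  classical
  have h1 : (fun w : Fin q → ℂ => μ fun _ => w) =
      ∑ f : Fin k → Fin q, (μ fun j => (Pi.single (f j) 1 : Fin q → ℂ)) • fun w : Fin q → ℂ => ∏ j, w (f j) := by
    funext w
    have h2 : (fun _ : Fin k => w) = fun _ : Fin k => ∑ i, w i • (Pi.single i (1 : ℂ) : Fin q → ℂ) := by
      funext j
      exact pi_eq_sum_univ' w
    rw [h2, μ.map_sum, Finset.sum_apply]
    refine Finset.sum_congr rfl fun f _ => ?_
    have h3 := μ.map_smul_univ (fun j => w (f j)) (fun j => (Pi.single (f j) (1 : ℂ) : Fin q → ℂ))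
    rw [h3, Pi.smul_apply, smul_eq_mul, smul_eq_mul, mul_comm]
  rw [h1]
  exact Submodule.sum_mem _ fun f _ => Submodule.smul_mem _ _ (prod_mem_monSpace hk f)

/-- a form along a map which is analytic is analytic -/
theorem analyticAt_eval {E : Type*} [NormedAddCommGroup E] [NormedSpace ℂ E] {F : E → Fin (N + 1) → ℂ} {x : E}
    (hF : AnalyticAt ℂ F x) (Q : MvPolynomial (Fin (N + 1)) ℂ) : AnalyticAt ℂ (fun w => eval (F w) Q) x := by
  have hFi : ∀ i, AnalyticAt ℂ (fun w => F w i) x := fun i =>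
    ((ContinuousLinearMap.proj i : (Fin (N + 1) → ℂ) →L[ℂ] ℂ).analyticAt _).comp hF
  induction Q using MvPolynomial.induction_on with
  | C a => simpa using analyticAt_const
  | add p r hp hr =>
    simp only [map_add]
    exact hp.add hr
  | mul_X p i hp =>
    simp only [map_mul, eval_X]
    exact hp.mul (hFi i)

/-- the Taylor polynomial of order `< m` at `0` of a form along a map (without the factorials) -/
def taylor {F : (Fin q → ℂ) → Fin (N + 1) → ℂ} (hF : AnalyticAt ℂ F 0) (m : ℕ) :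
    MvPolynomial (Fin (N + 1)) ℂ →ₗ[ℂ] monSpace q m where
  toFun Q := ⟨∑ k ∈ Finset.range m, fun w => iteratedFDeriv ℂ k (fun w => eval (F w) Q) 0 fun _ => w,
    Submodule.sum_mem _ fun k hk => diag_mem_monSpace (Finset.mem_range.1 hk) _⟩
  map_add' p r := by
    refine Subtype.ext ?_
    simp only [Submodule.coe_add]
    rw [← Finset.sum_add_distrib]
    refine Finset.sum_congr rfl fun k _ => ?_
    funext w
    have hp := (analyticAt_eval hF p).contDiffAt (n := (k : WithTop ℕ∞))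
    have hr := (analyticAt_eval hF r).contDiffAt (n := (k : WithTop ℕ∞))
    have h1 : (fun w => eval (F w) (p + r)) = (fun w => eval (F w) p) + fun w => eval (F w) r := by
      funext w
      simp
    rw [h1, iteratedFDeriv_add_apply hp hr]
    simp
  map_smul' c p := by
    refine Subtype.ext ?_
    simp only [RingHom.id_apply, Submodule.coe_smul]
    rw [Finset.smul_sum]
    refine Finset.sum_congr rfl fun k _ => ?_
    funext w
    have hp := (analyticAt_eval hF p).contDiffAt (n := (k : WithTop ℕ∞))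
    have h1 : (fun w => eval (F w) (c • p)) = c • fun w => eval (F w) p := by
      funext w
      simp [smul_eval]
    rw [h1, iteratedFDeriv_const_smul_apply hp]
    simp

theorem eq_zero_of_taylor {F : (Fin q → ℂ) → Fin (N + 1) → ℂ} (hF : AnalyticAt ℂ F 0) {m : ℕ}
    {Q : MvPolynomial (Fin (N + 1)) ℂ} (h : taylor hF m Q = 0) {k : ℕ} (hk : k < m) (w : Fin q → ℂ) :
    iteratedFDeriv ℂ k (fun w => eval (F w) Q) 0 (fun _ => w) = 0 := by
  have h1 : ∀ w : Fin q → ℂ, ∑ k ∈ Finset.range m, iteratedFDeriv ℂ k (fun w => eval (F w) Q) 0 (fun _ => w) = 0 := by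
    intro w
    have h2 := congrFun (congrArg Subtype.val h) w
    simpa [taylor] using h2
  obtain ⟨p, hp⟩ : ∃ p : Polynomial ℂ, p = ∑ k ∈ Finset.range m,
      Polynomial.C (iteratedFDeriv ℂ k (fun w => eval (F w) Q) 0 (fun _ => w)) * Polynomial.X ^ k := ⟨_, rfl⟩
  have hp0 : p = 0 := by
    refine Polynomial.funext fun ζ => ?_
    rw [hp, Polynomial.eval_finsetSum, Polynomial.eval_zero, ← h1 (ζ • w)]
    refine Finset.sum_congr rfl fun k _ => ?_
    have h3 := (iteratedFDeriv ℂ k (fun w => eval (F w) Q) 0).map_smul_univ (fun _ => ζ) (fun _ => w)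
    rw [h3, Finset.prod_const, Finset.card_univ, Fintype.card_fin, Polynomial.eval_mul, Polynomial.eval_C,
      Polynomial.eval_pow, Polynomial.eval_X, smul_eq_mul, mul_comm]
  have h4 := congrArg (fun r => Polynomial.coeff r k) hp0
  rw [hp] at h4
  simp only [Polynomial.finsetSum_coeff, Polynomial.coeff_C_mul, Polynomial.coeff_X_pow, mul_ite, mul_one, mul_zero,
    Polynomial.coeff_zero] at h4
  rw [Finset.sum_ite_eq, if_pos (Finset.mem_range.2 hk)] at h4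
  exact h4

theorem schwarz_pow (m : ℕ) {g : ℂ → ℂ} {R M : ℝ} (hR : 0 < R) (hg : DifferentiableOn ℂ g (ball 0 R)) (hM : ∀ t ∈ ball (0 : ℂ) R, ‖g t‖ ≤ M)
    (hm : (m : ℕ∞) ≤ analyticOrderAt g 0) : ∀ t ∈ ball (0 : ℂ) R, ‖g t‖ ≤ M * (‖t‖ / R) ^ m := by
  induction m generalizing g M with
  | zero =>
    intro t ht
    simpa using hM t ht
  | succ m ih =>
    have h0b : (0 : ℂ) ∈ ball (0 : ℂ) R := mem_ball_self hR
    have hgan : AnalyticAt ℂ g 0 := hg.analyticAt (isOpen_ball.mem_nhds h0b)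
    have hg0 : g 0 = 0 := by
      by_contra hne
      have h1 : analyticOrderAt g 0 = 0 := analyticOrderAt_eq_zero.mpr (Or.inr hne)
      rw [h1] at hm
      simp at hm
    have hh : DifferentiableOn ℂ (dslope g 0) (ball 0 R) :=
      (Complex.differentiableOn_dslope (isOpen_ball.mem_nhds h0b)).2 hg
    have hhan : AnalyticAt ℂ (dslope g 0) 0 := hh.analyticAt (isOpen_ball.mem_nhds h0b)
    have hmul : g = id * dslope g 0 := by
      funext t
      have h1 := sub_smul_dslope g 0 t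
      rw [hg0, sub_zero, sub_zero, smul_eq_mul] at h1
      exact h1.symm
    have hord : ((m : ℕ) : ℕ∞) ≤ analyticOrderAt (dslope g 0) 0 := by
      have h1 : analyticOrderAt g 0 = 1 + analyticOrderAt (dslope g 0) 0 := by
        conv_lhs => rw [hmul]
        rw [analyticOrderAt_mul analyticAt_id hhan, analyticOrderAt_id]
      rw [h1] at hm
      push_cast at hm
      rw [add_comm] at hm
      exact (ENat.add_le_add_iff_left (by simp)).1 hm
    have hbd : ∀ t ∈ ball (0 : ℂ) R, ‖dslope g 0 t‖ ≤ M / R := by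
      intro t ht
      refine Complex.norm_dslope_le_div_of_mapsTo_ball hg ?_ ht
      intro t' ht'
      rw [hg0, mem_closedBall_zero_iff]
      exact hM t' ht'
    intro t ht
    have h2 := ih hh hbd hord t ht
    have h3 : g t = t * dslope g 0 t := congrFun hmul t
    rw [h3, norm_mul]
    calc ‖t‖ * ‖dslope g 0 t‖ ≤ ‖t‖ * (M / R * (‖t‖ / R) ^ m) := mul_le_mul_of_nonneg_left h2 (norm_nonneg t)
      _ = M * (‖t‖ / R) ^ (m + 1) := by
        rw [pow_succ]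
        ring

/-- **Schwarz lemma** in a ball of a normed space, for functions which vanish to order `m` at the centre. -/
theorem norm_le_of_iteratedFDeriv {E : Type*} [NormedAddCommGroup E] [NormedSpace ℂ E] {m : ℕ} {G : E → ℂ} {R M : ℝ}
    (hR : 0 < R) (hG : AnalyticOnNhd ℂ G (ball 0 R)) (hM : ∀ w ∈ ball (0 : E) R, ‖G w‖ ≤ M)
    (h0 : ∀ k < m, ∀ w, iteratedFDeriv ℂ k G 0 (fun _ => w) = 0) {w : E} (hw : w ∈ ball (0 : E) R) :
    ‖G w‖ ≤ M * (‖w‖ / R) ^ m := by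
  rcases eq_or_ne w 0 with rfl | hw0
  · rcases Nat.eq_zero_or_pos m with rfl | hm
    · simpa using hM 0 (mem_ball_self hR)
    · have h1 := h0 0 hm 0
      rw [iteratedFDeriv_zero_apply] at h1
      rw [h1, norm_zero, norm_zero, zero_div, zero_pow hm.ne', mul_zero]
  have hwn : 0 < ‖w‖ := norm_pos_iff.2 hw0
  obtain ⟨L, hL⟩ : ∃ L : ℂ →L[ℂ] E, L = (ContinuousLinearMap.id ℂ ℂ).smulRight w := ⟨_, rfl⟩
  have hLa : ∀ ζ, L ζ = ζ • w := fun ζ => by simp [hL]
  obtain ⟨g, hg⟩ : ∃ g : ℂ → ℂ, g = G ∘ L := ⟨_, rfl⟩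
  have hball : ∀ ζ : ℂ, ζ ∈ ball (0 : ℂ) (R / ‖w‖) ↔ L ζ ∈ ball (0 : E) R := by
    intro ζ
    rw [mem_ball_zero_iff, mem_ball_zero_iff, hLa, norm_smul, lt_div_iff₀ hwn]
  have hgd : AnalyticOnNhd ℂ g (ball 0 (R / ‖w‖)) := by
    intro ζ hζ
    rw [hg]
    exact (hG _ ((hball ζ).1 hζ)).comp (L.analyticAt ζ)
  have hR' : 0 < R / ‖w‖ := div_pos hR hwn
  have hord : (m : ℕ∞) ≤ analyticOrderAt g 0 := by
    rw [natCast_le_analyticOrderAt_iff_iteratedDeriv_eq_zero (hgd 0 (mem_ball_self hR'))]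
    intro k hk
    have hs : IsOpen (ball (0 : E) R) := isOpen_ball
    have hs' : IsOpen (L ⁻¹' ball (0 : E) R) := hs.preimage L.continuous
    have hx : L 0 ∈ ball (0 : E) R := by rw [map_zero]; exact mem_ball_self hR
    have h1 := L.iteratedFDerivWithin_comp_right (f := G) (s := ball (0 : E) R) (n := (k : WithTop ℕ∞)) (i := k)
      (fun y hy => ((hG y hy).contDiffAt).contDiffWithinAt) hs.uniqueDiffOn hs'.uniqueDiffOn (x := 0) hx le_rfl
    rw [iteratedFDerivWithin_of_isOpen k hs' hx, iteratedFDerivWithin_of_isOpen k hs hx] at h1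
    rw [iteratedDeriv_eq_iteratedFDeriv, hg, h1, ContinuousMultilinearMap.compContinuousLinearMap_apply, map_zero]
    have h2 := h0 k hk (L 1)
    exact h2
  have h3 := schwarz_pow m hR' hgd.differentiableOn (M := M) (fun ζ hζ => by rw [hg]; exact hM _ ((hball ζ).1 hζ)) hord 1
    ((hball 1).2 (by rw [hLa, one_smul]; exact hw))
  rw [hg, Function.comp_apply, hLa, one_smul, norm_one] at h3
  have h4 : 1 / (R / ‖w‖) = ‖w‖ / R := by rw [one_div_div]
  rw [h4] at h3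
  exact h3

end Pool.Agent.H22.AlgD

end
end

section

/-!
# CV CubD: the cone of a Weierstrass cubic

`cub α β x = x₁² x₂ - 4 x₀³ + α x₀ x₂² + β x₂³`, its gradient `gr`, the doubling map `dbl` (of degree `4`), the cone `Cub α β` (without `0`), the vector product `cr x v`.
-/

set_option autoImplicit false

open Topology Filter Metric
open Pool.Agent.H36.BP

noncomputable section

namespace Pool.Agent.H13.CV

/-- the form -/
def cub (α β : ℂ) (x : Fin 3 → ℂ) : ℂ := x 1 ^ 2 * x 2 - 4 * x 0 ^ 3 + α * x 0 * x 2 ^ 2 + β * x 2 ^ 3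

/-- its gradient -/
def gr (α β : ℂ) (x : Fin 3 → ℂ) : Fin 3 → ℂ :=
  ![-12 * x 0 ^ 2 + α * x 2 ^ 2, 2 * x 1 * x 2, x 1 ^ 2 + 2 * α * x 0 * x 2 + 3 * β * x 2 ^ 2]

/-- the vector product -/
def cr (x v : Fin 3 → ℂ) : Fin 3 → ℂ := ![x 1 * v 2 - x 2 * v 1, x 2 * v 0 - x 0 * v 2, x 0 * v 1 - x 1 * v 0]

/-- the doubling map -/
def dbl (α β : ℂ) (x : Fin 3 → ℂ) : Fin 3 → ℂ :=
  ![x 1 * (8 * x 0 * x 1 ^ 2 + 24 * α * x 0 ^ 2 * x 2 + 72 * β * x 0 * x 2 ^ 2 + 2 * α ^ 2 * x 2 ^ 3),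
    4 * x 1 ^ 4 - 12 * α * x 0 * x 1 ^ 2 * x 2 - 72 * β * x 1 ^ 2 * x 2 ^ 2 - 36 * α ^ 2 * x 0 ^ 2 * x 2 ^ 2 - 108 * α * β * x 0 * x 2 ^ 3 + (α ^ 3 - 108 * β ^ 2) * x 2 ^ 4,
    32 * x 1 ^ 3 * x 2]

/-- the cone of the cubic, without `0` -/
def Cub (α β : ℂ) : Set (EN 2) := {x | x ≠ 0 ∧ cub α β x.ofLp = 0}

end Pool.Agent.H13.CV

end
end

section

/-!
# CV CubA: algebra of the doubling map

`gr_ne`: let `cub x = 0`, `gr x = 0`, `x ≠ 0`.  If `x 2 = 0`: `x 0 = 0` (`cub`), `x 1 = 0` (`gr x 2`): contradiction.  If `x 2 ≠ 0`: `x 1 = 0` (`gr x 1`); `u = x 0 / x 2`: `12 u² = α` (`gr x 0`),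
`4 u³ - α u - β = 0` (`cub`), so `- 8 u³ = β` and `α³ = 1728 u⁶ = 27 β²`: contradiction.

`cub_dbl`: the polynomial `cub (dbl x)` (degree `12`) is a multiple of `cub x`: divide by `cub x` as a polynomial in `x 0` (leading coefficient `-4`) with a small program, and use
`linear_combination (quotient) * h`.  (In the affine coordinates `u = x 0 / x 2`, `v = x 1 / x 2`, `v² = 4 u³ - α u - β`: `U = -2 u + (12 u² - α)² / (16 v²) = (4 u v² + 12 α u² + 36 β u + α²) / (16 v²)`,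
`V = - v - (12 u² - α) (U - u) / (2 v)`, `V = (4 v⁴ - 12 α u v² - 72 β v² - 36 α² u² - 108 α β u + α³ - 108 β²) / (32 v³)`, so an alternative is: if `x 1 * x 2 ≠ 0` go to affine coordinates and use
`field_simp`; if `x 1 = 0` or `x 2 = 0` check directly.)

`dbl_ne`: let `dbl x = 0`, `cub x = 0`, `x ≠ 0`.  `x 1 ^ 3 * x 2 = 0`.  If `x 2 = 0` then `x 0 = 0` by `cub`, and `4 x₁⁴ = 0`, so `x = 0`.  If `x 2 ≠ 0`, `x 1 = 0`: with `u = x 0 / x 2`: `4 u³ = α u + β` and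
`- 36 α² u² - 108 α β u + α³ - 108 β² = 0`; but `(12 u² - α)³ = 36 α² u² + 108 α β u - α³ + 108 β²` when `4 u³ = α u + β`, so `12 u² = α`, and then `gr x = 0`: contradiction to `gr_ne`.
-/

set_option autoImplicit false

open Topology Filter Metric
open Pool.Agent.H36.BP

noncomputable section

namespace Pool.Agent.H13.CV

theorem gr_ne {α β : ℂ} (hd : α ^ 3 ≠ 27 * β ^ 2) {x : Fin 3 → ℂ} (hx : x ≠ 0) (hc : cub α β x = 0) : gr α β x ≠ 0 := by
  intro hg
  have h0 : -12 * x 0 ^ 2 + α * x 2 ^ 2 = 0 := by simpa [gr] using congrFun hg 0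
  have h1 : 2 * x 1 * x 2 = 0 := by simpa [gr] using congrFun hg 1
  have h2 : x 1 ^ 2 + 2 * α * x 0 * x 2 + 3 * β * x 2 ^ 2 = 0 := by simpa [gr] using congrFun hg 2
  unfold cub at hc
  by_cases hx2 : x 2 = 0
  · rw [hx2] at h0 h2 hc
    have h3 : x 0 = 0 := by
      have : x 0 ^ 2 = 0 := by linear_combination (-1 / 12 : ℂ) * h0
      exact pow_eq_zero_iff (by norm_num) |>.1 this
    have h4 : x 1 = 0 := by
      have : x 1 ^ 2 = 0 := by linear_combination h2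
      exact pow_eq_zero_iff (by norm_num) |>.1 this
    apply hx
    funext i
    fin_cases i
    · exact h3
    · exact h4
    · exact hx2
  · have hx1 : x 1 = 0 := by
      rcases mul_eq_zero.1 h1 with h | h
      · exact (mul_eq_zero.1 h).resolve_left two_ne_zero
      · exact absurd h hx2
    rw [hx1] at hc
    apply hd
    have h5 : -8 * x 0 ^ 3 = β * x 2 ^ 3 := by linear_combination -hc + x 0 * h0
    have h6 : 12 * x 0 ^ 2 = α * x 2 ^ 2 := by linear_combination -h0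
    have h7 : (α ^ 3 - 27 * β ^ 2) * x 2 ^ 6 = 0 := by
      have e1 : (12 * x 0 ^ 2) ^ 3 = (α * x 2 ^ 2) ^ 3 := by rw [h6]
      have e2 : (-8 * x 0 ^ 3) ^ 2 = (β * x 2 ^ 3) ^ 2 := by rw [h5]
      linear_combination -e1 + 27 * e2
    rcases mul_eq_zero.1 h7 with h | h
    · linear_combination h
    · exact absurd (pow_eq_zero_iff (by norm_num) |>.1 h) hx2

theorem cub_dbl {α β : ℂ} {x : Fin 3 → ℂ} (hc : cub α β x = 0) : cub α β (dbl α β x) = 0 := by
  unfold cub at hc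
  have e0 : dbl α β x 0 = x 1 * (8 * x 0 * x 1 ^ 2 + 24 * α * x 0 ^ 2 * x 2 + 72 * β * x 0 * x 2 ^ 2 + 2 * α ^ 2 * x 2 ^ 3) := rfl
  have e1 : dbl α β x 1 = 4 * x 1 ^ 4 - 12 * α * x 0 * x 1 ^ 2 * x 2 - 72 * β * x 1 ^ 2 * x 2 ^ 2 - 36 * α ^ 2 * x 0 ^ 2 * x 2 ^ 2 -
      108 * α * β * x 0 * x 2 ^ 3 + (α ^ 3 - 108 * β ^ 2) * x 2 ^ 4 := rfl
  have e2 : dbl α β x 2 = 32 * x 1 ^ 3 * x 2 := rfl
  unfold cub
  rw [e0, e1, e2]
  linear_combination ((13824) * x 0 ^ 3 * x 1 ^ 3 * x 2 ^ 3 * α ^ 3 + (13824) * x 0 ^ 2 * x 1 ^ 5 * x 2 ^ 2 * α ^ 2 +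
    (124416) * x 0 ^ 2 * x 1 ^ 3 * x 2 ^ 4 * α ^ 2 * β + (4608) * x 0 * x 1 ^ 7 * x 2 * α + (82944) * x 0 * x 1 ^ 5 * x 2 ^ 3 * α * β +
    (-3456) * x 0 * x 1 ^ 3 * x 2 ^ 5 * α ^ 4 + (373248) * x 0 * x 1 ^ 3 * x 2 ^ 5 * α * β ^ 2 + (512) * x 1 ^ 9 +
    (13824) * x 1 ^ 7 * x 2 ^ 2 * β + (2304) * x 1 ^ 5 * x 2 ^ 4 * α ^ 3 + (124416) * x 1 ^ 5 * x 2 ^ 4 * β ^ 2 +
    (-6912) * x 1 ^ 3 * x 2 ^ 6 * α ^ 3 * β + (373248) * x 1 ^ 3 * x 2 ^ 6 * β ^ 3) * hc

theorem dbl_ne {α β : ℂ} (hd : α ^ 3 ≠ 27 * β ^ 2) {x : Fin 3 → ℂ} (hx : x ≠ 0) (hc : cub α β x = 0) : dbl α β x ≠ 0 := by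
  intro h
  have e1 : 4 * x 1 ^ 4 - 12 * α * x 0 * x 1 ^ 2 * x 2 - 72 * β * x 1 ^ 2 * x 2 ^ 2 - 36 * α ^ 2 * x 0 ^ 2 * x 2 ^ 2 -
      108 * α * β * x 0 * x 2 ^ 3 + (α ^ 3 - 108 * β ^ 2) * x 2 ^ 4 = 0 := congrFun h 1
  have e2 : 32 * x 1 ^ 3 * x 2 = 0 := congrFun h 2
  have hg := gr_ne hd hx hc
  unfold cub at hc
  by_cases hx2 : x 2 = 0
  · rw [hx2] at e1 hc
    have h3 : x 0 = 0 := by
      have : x 0 ^ 3 = 0 := by linear_combination (-1 / 4 : ℂ) * hc
      exact pow_eq_zero_iff (by norm_num) |>.1 this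
    have h4 : x 1 = 0 := by
      have : x 1 ^ 4 = 0 := by linear_combination (1 / 4 : ℂ) * e1
      exact pow_eq_zero_iff (by norm_num) |>.1 this
    apply hx
    funext i
    fin_cases i
    · exact h3
    · exact h4
    · exact hx2
  · have hx1 : x 1 = 0 := by
      rcases mul_eq_zero.1 e2 with h | h
      · exact pow_eq_zero_iff (by norm_num) |>.1 ((mul_eq_zero.1 h).resolve_left (by norm_num))
      · exact absurd h hx2
    rw [hx1] at e1 hc
    have h5 : - 36 * α ^ 2 * x 0 ^ 2 - 108 * α * β * x 0 * x 2 + (α ^ 3 - 108 * β ^ 2) * x 2 ^ 2 = 0 := by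
      have : x 2 ^ 2 * (- 36 * α ^ 2 * x 0 ^ 2 - 108 * α * β * x 0 * x 2 + (α ^ 3 - 108 * β ^ 2) * x 2 ^ 2) = 0 := by
        linear_combination e1
      exact (mul_eq_zero.1 this).resolve_left (pow_ne_zero _ hx2)
    have h6 : (12 * x 0 ^ 2 - α * x 2 ^ 2) ^ 3 = 0 := by
      have hc' : 4 * x 0 ^ 3 = α * x 0 * x 2 ^ 2 + β * x 2 ^ 3 := by linear_combination -hc
      linear_combination (432 * x 0 ^ 3 + 108 * (α * x 0 * x 2 ^ 2 + β * x 2 ^ 3) - 108 * α * x 0 * x 2 ^ 2) * hc' - x 2 ^ 4 * h5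
    have h7 : 12 * x 0 ^ 2 - α * x 2 ^ 2 = 0 := pow_eq_zero_iff (by norm_num) |>.1 h6
    apply hg
    have h8 : 2 * α * x 0 * x 2 + 3 * β * x 2 ^ 2 = 0 := by
      have : x 2 * (2 * α * x 0 * x 2 + 3 * β * x 2 ^ 2) = 0 := by
        linear_combination 3 * hc + x 0 * h7
      exact (mul_eq_zero.1 this).resolve_left hx2
    funext i
    fin_cases i
    · change -12 * x 0 ^ 2 + α * x 2 ^ 2 = 0
      linear_combination -h7
    · change 2 * x 1 * x 2 = 0
      rw [hx1]; ring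
    · change x 1 ^ 2 + 2 * α * x 0 * x 2 + 3 * β * x 2 ^ 2 = 0
      rw [hx1]
      linear_combination h8

end Pool.Agent.H13.CV

end
end

section

/-!
# CV CubX: the derivative of the doubling map

`deriv_affine`: for complex numbers with `v² = 4 u³ - α u - β`, `v ≠ 0`, `u' = 2 l v`, `v' = l (12 u² - α)`: the derivatives of `U`, `V` in the direction `(u', v')` are `4 l V` and `2 l (12 U² - α)`.
Homogeneous version (`cross_dbl`): `x, v ∈ ℂ³`, `cub x = 0`, `x 1 * x 2 ≠ 0`, `cr x v = l • gr x`; `w` is the derivative of `dbl` at `x` in the direction `v`; then `cr (dbl x) w = (2 l) • gr (dbl x)`.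
Here `w` is given explicitly (`ddbl`).  Proof: by homogeneity (`cr (dbl x) (ddbl x x) = 0` as `ddbl x x = 4 dbl x`) one may change `v` by multiples of `x` and assume `v 2 = 0`; scale to `x 2 = 1`; `x = (u, v₁, 1)`,
`v = (u', v', 0)` with `u' = 2 l v₁`, `v' = l (12 u² - α)`.  Then the three identities are polynomial identities modulo `v₁² - 4 u³ + α u + β` (`linear_combination (…) * h`).
Any other proof is fine: e.g. all three components of `x₂ ^ k * (…)` by `linear_combination` with cofactors computed by a program.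
-/

set_option autoImplicit false

open Topology Filter Metric
open Pool.Agent.H36.BP

noncomputable section

namespace Pool.Agent.H13.CV

/-- the derivative of `dbl` at `x` in the direction `v` -/
def ddbl (α β : ℂ) (x v : Fin 3 → ℂ) : Fin 3 → ℂ :=
  ![v 1 * (8 * x 0 * x 1 ^ 2 + 24 * α * x 0 ^ 2 * x 2 + 72 * β * x 0 * x 2 ^ 2 + 2 * α ^ 2 * x 2 ^ 3) +
      x 1 * (8 * v 0 * x 1 ^ 2 + 16 * x 0 * x 1 * v 1 + 48 * α * x 0 * v 0 * x 2 + 24 * α * x 0 ^ 2 * v 2 + 72 * β * v 0 * x 2 ^ 2 + 144 * β * x 0 * x 2 * v 2 +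
        6 * α ^ 2 * x 2 ^ 2 * v 2),
    16 * x 1 ^ 3 * v 1 - 12 * α * (v 0 * x 1 ^ 2 * x 2 + 2 * x 0 * x 1 * v 1 * x 2 + x 0 * x 1 ^ 2 * v 2) - 72 * β * (2 * x 1 * v 1 * x 2 ^ 2 + 2 * x 1 ^ 2 * x 2 * v 2) -
      36 * α ^ 2 * (2 * x 0 * v 0 * x 2 ^ 2 + 2 * x 0 ^ 2 * x 2 * v 2) - 108 * α * β * (v 0 * x 2 ^ 3 + 3 * x 0 * x 2 ^ 2 * v 2) + (α ^ 3 - 108 * β ^ 2) * (4 * x 2 ^ 3 * v 2),
    32 * (3 * x 1 ^ 2 * v 1 * x 2 + x 1 ^ 3 * v 2)]

theorem cross_dbl {α β : ℂ} {x v : Fin 3 → ℂ} {l : ℂ} (hc : cub α β x = 0) (hx : x 1 * x 2 ≠ 0) (hv : cr x v = l • gr α β x) :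
    cr (dbl α β x) (ddbl α β x v) = (2 * l) • gr α β (dbl α β x) := by
  obtain ⟨a, ha⟩ : ∃ a, a = x 0 := ⟨_, rfl⟩
  obtain ⟨b, hb⟩ : ∃ b, b = x 1 := ⟨_, rfl⟩
  obtain ⟨c, hcc⟩ : ∃ c, c = x 2 := ⟨_, rfl⟩
  have hc0 : c ≠ 0 := by
    rw [hcc]
    exact right_ne_zero_of_mul hx
  -- the coordinates of `v`
  obtain ⟨s, hs⟩ : ∃ s, v 2 = s * c := ⟨v 2 / c, by field_simp⟩
  obtain ⟨m, hm⟩ : ∃ m, l = m * c := ⟨l / c, by field_simp⟩
  have h0 := congrFun hv 0
  have h1 := congrFun hv 1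
  simp only [cr, gr, Pi.smul_apply, smul_eq_mul, Matrix.cons_val_zero, Matrix.cons_val_one, ← ha, ← hb, ← hcc, hs, hm] at h0 h1
  have hq : v 1 = s * b + m * (12 * a ^ 2 - α * c ^ 2) := by
    apply mul_left_cancel₀ hc0
    linear_combination -h0
  have hp : v 0 = s * a + m * (2 * b * c) := by
    apply mul_left_cancel₀ hc0
    linear_combination h1
  have hcub : b ^ 2 * c - 4 * a ^ 3 + α * a * c ^ 2 + β * c ^ 3 = 0 := by
    rw [ha, hb, hcc]
    exact hc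
  have hcr : ∀ y w z : Fin 3 → ℂ, y 1 * w 2 - y 2 * w 1 = z 0 → y 2 * w 0 - y 0 * w 2 = z 1 → y 0 * w 1 - y 1 * w 0 = z 2 →
      cr y w = z := by
    intro y w z e0 e1 e2
    funext i
    fin_cases i
    · exact e0
    · exact e1
    · exact e2
  have hD0 : dbl α β x 0 = b * (8 * a * b ^ 2 + 24 * α * a ^ 2 * c + 72 * β * a * c ^ 2 + 2 * α ^ 2 * c ^ 3) := by
    rw [ha, hb, hcc]
    rfl
  have hD1 : dbl α β x 1 = 4 * b ^ 4 - 12 * α * a * b ^ 2 * c - 72 * β * b ^ 2 * c ^ 2 - 36 * α ^ 2 * a ^ 2 * c ^ 2 -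
      108 * α * β * a * c ^ 3 + (α ^ 3 - 108 * β ^ 2) * c ^ 4 := by
    rw [ha, hb, hcc]
    rfl
  have hD2 : dbl α β x 2 = 32 * b ^ 3 * c := by
    rw [hb, hcc]
    rfl
  have hW0 : ddbl α β x v 0 = v 1 * (8 * a * b ^ 2 + 24 * α * a ^ 2 * c + 72 * β * a * c ^ 2 + 2 * α ^ 2 * c ^ 3) +
      b * (8 * v 0 * b ^ 2 + 16 * a * b * v 1 + 48 * α * a * v 0 * c + 24 * α * a ^ 2 * v 2 + 72 * β * v 0 * c ^ 2 +
        144 * β * a * c * v 2 + 6 * α ^ 2 * c ^ 2 * v 2) := by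
    rw [ha, hb, hcc]
    rfl
  have hW1 : ddbl α β x v 1 = 16 * b ^ 3 * v 1 - 12 * α * (v 0 * b ^ 2 * c + 2 * a * b * v 1 * c + a * b ^ 2 * v 2) -
      72 * β * (2 * b * v 1 * c ^ 2 + 2 * b ^ 2 * c * v 2) - 36 * α ^ 2 * (2 * a * v 0 * c ^ 2 + 2 * a ^ 2 * c * v 2) -
      108 * α * β * (v 0 * c ^ 3 + 3 * a * c ^ 2 * v 2) + (α ^ 3 - 108 * β ^ 2) * (4 * c ^ 3 * v 2) := by
    rw [ha, hb, hcc]
    rfl
  have hW2 : ddbl α β x v 2 = 32 * (3 * b ^ 2 * v 1 * c + b ^ 3 * v 2) := by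
    rw [hb, hcc]
    rfl
  apply hcr
  · rw [hW1, hW2, hD1, hD2, hp, hq, hs, hm]
    change _ = 2 * (m * c) * (-12 * dbl α β x 0 ^ 2 + α * dbl α β x 2 ^ 2)
    rw [hD0, hD2]
    linear_combination (m * (6912*a*b^2*c^3*α^2 - 1152*b^4*c^2*α + 10368*b^2*c^4*α*β)) * hcub
  · rw [hW0, hW2, hD0, hD2, hp, hq, hs, hm]
    change _ = 2 * (m * c) * (2 * dbl α β x 1 * dbl α β x 2)
    rw [hD1, hD2]
    linear_combination (m * (4608*a*b^3*c^2*α + 13824*b^3*c^3*β)) * hcub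
  · rw [hW0, hW1, hD0, hD1, hp, hq, hs, hm]
    change _ = 2 * (m * c) * (dbl α β x 1 ^ 2 + 2 * α * dbl α β x 0 * dbl α β x 2 + 3 * β * dbl α β x 2 ^ 2)
    rw [hD0, hD1, hD2]
    linear_combination (m * (-2592*a^3*c^3*α^3 - 1728*a^2*b^2*c^2*α^2 - 15552*a^2*c^4*α^2*β - 1152*a*b^4*c*α + 72*a*c^5*α^4 - 31104*a*c^5*α*β^2 - 96*b^6 - 4320*b^4*c^2*β - 360*b^2*c^4*α^3 + 7776*b^2*c^4*β^2 + 216*c^6*α^3*β - 23328*c^6*β^3)) * hcub

end Pool.Agent.H13.CV

end
end

section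

/-!
# CV CubB: discs in a cubic

`Dsc α β l F`: `F` is a holomorphic disc in the cone, `l` is continuous and nowhere zero, and `F × F' = l • gr F`.
`Dsc.dbl`: `G z = dbl (F z)`, `G' = ddbl (F z) (F' z)` (chain rule, polynomial).  `G z ∈ Cub` by `cub_dbl`, `dbl_ne`.  The identity `cr (G z) (G' z) = 2 l z • gr (G z)` holds where `F₁ F₂ ≠ 0` (`cross_dbl`).  Both
sides are continuous in `z` (on the ball), so it suffices that the zeros of `F₁` and `F₂` are isolated.  If `F₂ = 0` near a point `z₀` then `F₀ = 0` near `z₀` (`cub = 0`), so `F × F' = 0`, contradiction to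
`l ≠ 0`, `gr_ne`.  If `F₁ = 0` near `z₀`, then `F₁' = 0` and the components `0` and `2` of `F × F'` are `F₁ F₂' - F₂ F₁' = 0` and `F₀ F₁' - F₁ F₀' = 0`, and component `1` of `gr F` is `2 F₁ F₂ = 0`; so
`l • gr F = 0`: contradiction.  (`AnalyticAt.eventually_eq_zero_or_eventually_ne_zero`.)
-/

set_option autoImplicit false

open Topology Filter Metric
open Pool.Agent.H36.BP

noncomputable section

namespace Pool.Agent.H13.CV

attribute [-instance] ProperSMul.toContinuousSMul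

/-- a holomorphic disc in the cone of the cubic with `F × F' = l • gr F`, `l` continuous without zeros -/
structure Dsc (α β : ℂ) (l : ℂ → ℂ) (F : ℂ → EN 2) : Prop where
  curve : Curve (Cub α β) (ball 0 1) F
  cont : ContinuousOn l (ball 0 1)
  ne : ∀ z ∈ ball (0 : ℂ) 1, l z ≠ 0
  eq : ∀ z ∈ ball (0 : ℂ) 1, cr (F z).ofLp (deriv F z : EN 2).ofLp = l z • gr α β (F z).ofLp

private theorem CubB_coord {F : ℂ → EN 2} {F' : EN 2} {z : ℂ} (h : HasDerivAt F F' z) (i : Fin 3) :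
    HasDerivAt (fun z => (F z).ofLp i) (F'.ofLp i) z := by
  have h1 := (PiLp.proj 2 (fun _ : Fin 3 => ℂ) i : EN 2 →L[ℂ] ℂ).hasFDerivAt (x := F z)
  exact h1.comp_hasDerivAt z h

private theorem CubB_toLp {G : ℂ → Fin 3 → ℂ} {G' : Fin 3 → ℂ} {z : ℂ} (h : ∀ i, HasDerivAt (fun z => G z i) (G' i) z) :
    HasDerivAt (fun z => (WithLp.toLp 2 (G z) : EN 2)) (WithLp.toLp 2 G') z := by
  have h1 : HasDerivAt G G' z := hasDerivAt_pi.2 h
  have h2 := ((PiLp.continuousLinearEquiv 2 ℂ (fun _ : Fin 3 => ℂ)).symm : (Fin 3 → ℂ) →L[ℂ] EN 2).hasFDerivAt (x := G z)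
  exact h2.comp_hasDerivAt z h1

theorem Dsc.dbl {α β : ℂ} (hd : α ^ 3 ≠ 27 * β ^ 2) {l : ℂ → ℂ} {F : ℂ → EN 2} (h : Dsc α β l F) :
    Dsc α β (fun z => 2 * l z) (fun z => WithLp.toLp 2 (CV.dbl α β (F z).ofLp)) := by
  have hop : IsOpen (ball (0 : ℂ) 1) := isOpen_ball
  obtain ⟨hFd, hFK⟩ := h.curve
  have hder : ∀ z ∈ ball (0 : ℂ) 1, ∀ i, HasDerivAt (fun z => (F z).ofLp i) ((deriv F z : EN 2).ofLp i) z :=
    fun z hz i => CubB_coord ((hFd.differentiableAt (hop.mem_nhds hz)).hasDerivAt) i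
  have hfd : ∀ i, DifferentiableOn ℂ (fun z => (F z).ofLp i) (ball 0 1) :=
    fun i z hz => (hder z hz i).differentiableAt.differentiableWithinAt
  have hfa : ∀ i, ∀ z ∈ ball (0 : ℂ) 1, AnalyticAt ℂ (fun z => (F z).ofLp i) z :=
    fun i z hz => (hfd i).analyticAt (hop.mem_nhds hz)
  have hG : ∀ z ∈ ball (0 : ℂ) 1, HasDerivAt (fun z => (WithLp.toLp 2 (CV.dbl α β (F z).ofLp) : EN 2))
      (WithLp.toLp 2 (ddbl α β (F z).ofLp (deriv F z : EN 2).ofLp)) z := by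
    intro z hz
    refine CubB_toLp fun i => ?_
    have h0 := hder z hz 0
    have h1 := hder z hz 1
    have h2 := hder z hz 2
    fin_cases i
    · have e := h1.mul ((((h0.mul (h1.pow 2)).const_mul 8).add (((h0.pow 2).mul h2).const_mul (24 * α))).add
        ((((h0.mul (h2.pow 2)).const_mul (72 * β))).add ((h2.pow 3).const_mul (2 * α ^ 2))))
      refine (e.congr_of_eventuallyEq (Filter.Eventually.of_forall fun w => ?_)).congr_deriv ?_
      · show (F w).ofLp 1 * (8 * (F w).ofLp 0 * (F w).ofLp 1 ^ 2 + 24 * α * (F w).ofLp 0 ^ 2 * (F w).ofLp 2 + 72 * β * (F w).ofLp 0 * (F w).ofLp 2 ^ 2 + 2 * α ^ 2 * (F w).ofLp 2 ^ 3) = _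
        simp only [Pi.mul_apply, Pi.add_apply, Pi.pow_apply]
        ring
      · simp only [ddbl, Pi.mul_apply, Pi.add_apply, Pi.pow_apply, Fin.zero_eta, Matrix.cons_val_zero]
        push_cast
        ring
    · have e := ((((h1.pow 4).const_mul 4).sub (((h0.mul (h1.pow 2)).mul h2).const_mul (12 * α))).sub
        (((h1.pow 2).mul (h2.pow 2)).const_mul (72 * β))).sub ((((h0.pow 2).mul (h2.pow 2)).const_mul (36 * α ^ 2)).add
          (((h0.mul (h2.pow 3)).const_mul (108 * α * β)).sub ((h2.pow 4).const_mul (α ^ 3 - 108 * β ^ 2))))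
      refine (e.congr_of_eventuallyEq (Filter.Eventually.of_forall fun w => ?_)).congr_deriv ?_
      · show 4 * (F w).ofLp 1 ^ 4 - 12 * α * (F w).ofLp 0 * (F w).ofLp 1 ^ 2 * (F w).ofLp 2 - 72 * β * (F w).ofLp 1 ^ 2 * (F w).ofLp 2 ^ 2 - 36 * α ^ 2 * (F w).ofLp 0 ^ 2 * (F w).ofLp 2 ^ 2
          - 108 * α * β * (F w).ofLp 0 * (F w).ofLp 2 ^ 3 + (α ^ 3 - 108 * β ^ 2) * (F w).ofLp 2 ^ 4 = _
        simp only [Pi.mul_apply, Pi.add_apply, Pi.sub_apply, Pi.pow_apply]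
        ring
      · simp only [ddbl, Pi.mul_apply, Pi.pow_apply, Fin.mk_one, Matrix.cons_val_one, Matrix.cons_val_zero]
        push_cast
        ring
    · have e := ((h1.pow 3).mul h2).const_mul 32
      refine (e.congr_of_eventuallyEq (Filter.Eventually.of_forall fun w => ?_)).congr_deriv ?_
      · show 32 * (F w).ofLp 1 ^ 3 * (F w).ofLp 2 = _
        simp only [Pi.mul_apply, Pi.pow_apply]
        ring
      · show _ = 32 * (3 * (F z).ofLp 1 ^ 2 * (deriv F z : EN 2).ofLp 1 * (F z).ofLp 2 + (F z).ofLp 1 ^ 3 * (deriv F z : EN 2).ofLp 2)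
        simp only [Pi.pow_apply]
        push_cast
        ring
  have hGd : ∀ z ∈ ball (0 : ℂ) 1, deriv (fun z => (WithLp.toLp 2 (CV.dbl α β (F z).ofLp) : EN 2)) z
      = WithLp.toLp 2 (ddbl α β (F z).ofLp (deriv F z : EN 2).ofLp) := fun z hz => (hG z hz).deriv
  have hF0 : ∀ z ∈ ball (0 : ℂ) 1, (F z).ofLp ≠ 0 ∧ cub α β (F z).ofLp = 0 := by
    intro z hz
    obtain ⟨h1, h2⟩ := hFK z hz
    refine ⟨fun h3 => h1 ?_, h2⟩
    ext i
    exact congrFun h3 i
  -- the first coordinate is not eventually zero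
  have hn1 : ∀ z ∈ ball (0 : ℂ) 1, ¬ ∀ᶠ w in 𝓝 z, (F w).ofLp 1 = 0 := by
    intro z hz he
    have e1 : (deriv F z : EN 2).ofLp 1 = 0 := by
      rw [← (hder z hz 1).deriv]
      have : (fun w => (F w).ofLp 1) =ᶠ[𝓝 z] fun _ => (0 : ℂ) := he
      rw [this.deriv_eq]
      simp
    have e2 : (F z).ofLp 1 = 0 := he.self_of_nhds
    have e3 := h.eq z hz
    apply gr_ne hd (hF0 z hz).1 (hF0 z hz).2
    have hl := h.ne z hz
    have e4 : l z • gr α β (F z).ofLp = 0 := by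
      rw [← e3]
      ext i
      have e5 := congrFun e3 1
      fin_cases i
      · show (F z).ofLp 1 * (deriv F z : EN 2).ofLp 2 - (F z).ofLp 2 * (deriv F z : EN 2).ofLp 1 = 0
        rw [e1, e2]; ring
      · have e6 : (gr α β (F z).ofLp) 1 = 2 * (F z).ofLp 1 * (F z).ofLp 2 := rfl
        show cr (F z).ofLp (deriv F z : EN 2).ofLp 1 = 0
        rw [e5]
        show l z * (gr α β (F z).ofLp) 1 = 0
        rw [e6, e2]; ring
      · show (F z).ofLp 0 * (deriv F z : EN 2).ofLp 1 - (F z).ofLp 1 * (deriv F z : EN 2).ofLp 0 = 0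
        rw [e1, e2]; ring
    exact (smul_eq_zero.1 e4).resolve_left hl
  have hn2 : ∀ z ∈ ball (0 : ℂ) 1, ¬ ∀ᶠ w in 𝓝 z, (F w).ofLp 2 = 0 := by
    intro z hz he
    have e1 : (deriv F z : EN 2).ofLp 2 = 0 := by
      rw [← (hder z hz 2).deriv]
      have : (fun w => (F w).ofLp 2) =ᶠ[𝓝 z] fun _ => (0 : ℂ) := he
      rw [this.deriv_eq]
      simp
    have he0 : ∀ᶠ w in 𝓝 z, (F w).ofLp 0 = 0 := by
      filter_upwards [he, hop.mem_nhds hz] with w hw hwb
      have e := (hF0 w hwb).2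
      simp only [cub, hw] at e
      have : (F w).ofLp 0 ^ 3 = 0 := by linear_combination (-1 / 4) * e
      exact pow_eq_zero_iff (by norm_num) |>.1 this
    have e1' : (deriv F z : EN 2).ofLp 0 = 0 := by
      rw [← (hder z hz 0).deriv]
      have : (fun w => (F w).ofLp 0) =ᶠ[𝓝 z] fun _ => (0 : ℂ) := he0
      rw [this.deriv_eq]
      simp
    have e2 : (F z).ofLp 2 = 0 := he.self_of_nhds
    have e2' : (F z).ofLp 0 = 0 := he0.self_of_nhds
    have e3 := h.eq z hz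
    apply gr_ne hd (hF0 z hz).1 (hF0 z hz).2
    have hl := h.ne z hz
    have e4 : l z • gr α β (F z).ofLp = 0 := by
      rw [← e3]
      ext i
      fin_cases i
      · show (F z).ofLp 1 * (deriv F z : EN 2).ofLp 2 - (F z).ofLp 2 * (deriv F z : EN 2).ofLp 1 = 0
        rw [e1, e2]; ring
      · show (F z).ofLp 2 * (deriv F z : EN 2).ofLp 0 - (F z).ofLp 0 * (deriv F z : EN 2).ofLp 2 = 0
        rw [e1, e2]; ring
      · show (F z).ofLp 0 * (deriv F z : EN 2).ofLp 1 - (F z).ofLp 1 * (deriv F z : EN 2).ofLp 0 = 0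
        rw [e1', e2']; ring
    exact (smul_eq_zero.1 e4).resolve_left hl
  have hK : ∀ z ∈ ball (0 : ℂ) 1, (WithLp.toLp 2 (CV.dbl α β (F z).ofLp) : EN 2) ∈ Cub α β := by
    intro z hz
    refine ⟨fun h0 => ?_, cub_dbl (hF0 z hz).2⟩
    apply dbl_ne hd (hF0 z hz).1 (hF0 z hz).2
    have := congrArg WithLp.ofLp h0
    simpa using this
  refine ⟨⟨fun z hz => (hG z hz).differentiableAt.differentiableWithinAt, hK⟩, continuousOn_const.mul h.cont, fun z hz => mul_ne_zero two_ne_zero (h.ne z hz), ?_⟩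
  -- continuity
  have hcF : ∀ i, ContinuousOn (fun z => (F z).ofLp i) (ball 0 1) := fun i => (hfd i).continuousOn
  have hcF' : ∀ i, ContinuousOn (fun z => (deriv F z : EN 2).ofLp i) (ball 0 1) := by
    intro i
    have h1 : ContinuousOn (deriv fun z => (F z).ofLp i) (ball 0 1) := ((hfd i).deriv hop).continuousOn
    refine h1.congr fun z hz => ?_
    exact (hder z hz i).deriv.symm
  intro z hz
  rw [hGd z hz]
  show cr (CV.dbl α β (F z).ofLp) (ddbl α β (F z).ofLp (deriv F z : EN 2).ofLp) = (2 * l z) • gr α β (CV.dbl α β (F z).ofLp)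
  have hev : ∀ᶠ w in 𝓝[≠] z, cr (CV.dbl α β (F w).ofLp) (ddbl α β (F w).ofLp (deriv F w : EN 2).ofLp) = (2 * l w) • gr α β (CV.dbl α β (F w).ofLp) := by
    have k1 := ((hfa 1 z hz).eventually_eq_zero_or_eventually_ne_zero).resolve_left (hn1 z hz)
    have k2 := ((hfa 2 z hz).eventually_eq_zero_or_eventually_ne_zero).resolve_left (hn2 z hz)
    filter_upwards [k1, k2, mem_nhdsWithin_of_mem_nhds (hop.mem_nhds hz)] with w h1 h2 hw
    exact cross_dbl (hF0 w hw).2 (mul_ne_zero h1 h2) (h.eq w hw)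
  have hc0 : ∀ i, ContinuousAt (fun z => (F z).ofLp i) z := fun i => (hcF i).continuousAt (hop.mem_nhds hz)
  have hc0' : ∀ i, ContinuousAt (fun z => (deriv F z : EN 2).ofLp i) z := fun i => (hcF' i).continuousAt (hop.mem_nhds hz)
  have hcl : ContinuousAt l z := h.cont.continuousAt (hop.mem_nhds hz)
  have a0 := hc0 0
  have a1 := hc0 1
  have a2 := hc0 2
  have b0 := hc0' 0
  have b1 := hc0' 1
  have b2 := hc0' 2
  have hL : ContinuousAt (fun w => cr (CV.dbl α β (F w).ofLp) (ddbl α β (F w).ofLp (deriv F w : EN 2).ofLp)) z := by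
    refine continuousAt_pi.2 fun i => ?_
    fin_cases i <;> simp only [cr, CV.dbl, ddbl, Fin.zero_eta, Fin.mk_one, Fin.reduceFinMk, Matrix.cons_val_zero, Matrix.cons_val_one, Matrix.cons_val] <;> fun_prop
  have hR : ContinuousAt (fun w => (2 * l w) • gr α β (CV.dbl α β (F w).ofLp)) z := by
    refine continuousAt_pi.2 fun i => ?_
    fin_cases i <;> simp only [gr, CV.dbl, Pi.smul_apply, smul_eq_mul, Fin.zero_eta, Fin.mk_one, Fin.reduceFinMk, Matrix.cons_val_zero, Matrix.cons_val_one, Matrix.cons_val] <;> fun_prop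
  have t1 := hL.tendsto.mono_left (nhdsWithin_le_nhds (s := {z}ᶜ))
  have t2 := hR.tendsto.mono_left (nhdsWithin_le_nhds (s := {z}ᶜ))
  exact tendsto_nhds_unique_of_eventuallyEq t1 t2 hev

end Pool.Agent.H13.CV

end
end

section

/-!
# CV CubI: a disc in the cubic

`exists_disc`: let `u₀` with `4 u₀³ - α u₀ - β = 1` (`IsAlgClosed`).  `s z = exp (log (4 (u₀ + z)³ - α (u₀ + z) - β) / 2)` (principal branch) is holomorphic for `|z| < r` (there the argument is in the slit plane), nowhere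
zero, `s² = 4 (u₀ + z)³ - …`.  `F z = (u₀ + r z, s (r z), 1)` on the unit disc (`r > 0` small), `F' = (r, r s', 0)`, `2 s s' = 12 (u₀ + r z)² - α`; `F × F' = (- r s', r, …)`, `gr F = (- (12 u² - α), 2 s, …)`, so
`l = r / (2 s)`; the third component: `u s' r - s r = l (s² + 2 α u + 3 β)`: use `s² = 4 u³ - α u - β`.
-/

set_option autoImplicit false

open Topology Filter Metric
open Pool.Agent.H36.BP

noncomputable section

namespace Pool.Agent.H13.CV

private theorem CubI_root (α β : ℂ) : ∃ u : ℂ, 4 * u ^ 3 - α * u - β = 1 := by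
  have h : ∃ z : ℂ, (Polynomial.C 4 * Polynomial.X ^ 3 - Polynomial.C α * Polynomial.X - Polynomial.C (β + 1) : Polynomial ℂ).IsRoot z := by
    apply Complex.exists_root
    have : (Polynomial.C 4 * Polynomial.X ^ 3 - Polynomial.C α * Polynomial.X - Polynomial.C (β + 1) : Polynomial ℂ).degree = 3 := by
      compute_degree!
    rw [this]
    norm_num
  obtain ⟨z, hz⟩ := h
  refine ⟨z, ?_⟩
  simp only [Polynomial.IsRoot.def, Polynomial.eval_sub, Polynomial.eval_mul, Polynomial.eval_C, Polynomial.eval_pow, Polynomial.eval_X] at hz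
  linear_combination hz

private theorem CubI_toLp {G : ℂ → Fin 3 → ℂ} {G' : Fin 3 → ℂ} {z : ℂ} (h : ∀ i, HasDerivAt (fun z => G z i) (G' i) z) :
    HasDerivAt (fun z => (WithLp.toLp 2 (G z) : EN 2)) (WithLp.toLp 2 G') z := by
  have h1 : HasDerivAt G G' z := hasDerivAt_pi.2 h
  have h2 := ((PiLp.continuousLinearEquiv 2 ℂ (fun _ : Fin 3 => ℂ)).symm : (Fin 3 → ℂ) →L[ℂ] EN 2).hasFDerivAt (x := G z)
  exact h2.comp_hasDerivAt z h1

theorem exists_disc (α β : ℂ) : ∃ (l : ℂ → ℂ) (F : ℂ → EN 2), Dsc α β l F := by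
  obtain ⟨u₀, hu₀⟩ := CubI_root α β
  set p : ℂ → ℂ := fun u => 4 * u ^ 3 - α * u - β with hp
  have hpc : Continuous p := by fun_prop
  -- a small radius
  have h1 : ∀ᶠ u in 𝓝 u₀, p u ∈ Complex.slitPlane := by
    have : p u₀ ∈ Complex.slitPlane := by
      show 4 * u₀ ^ 3 - α * u₀ - β ∈ Complex.slitPlane
      rw [hu₀]
      exact Complex.one_mem_slitPlane
    exact hpc.continuousAt.eventually (Complex.isOpen_slitPlane.mem_nhds this)
  obtain ⟨r, hr, hb⟩ := Metric.eventually_nhds_iff_ball.1 h1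
  set u : ℂ → ℂ := fun z => u₀ + r * z with hu
  set s : ℂ → ℂ := fun z => Complex.exp (Complex.log (p (u z)) / 2) with hs
  have hr0 : (r : ℂ) ≠ 0 := by exact_mod_cast hr.ne'
  have hus : ∀ z ∈ ball (0 : ℂ) 1, p (u z) ∈ Complex.slitPlane := by
    intro z hz
    apply hb
    rw [mem_ball_zero_iff] at hz
    rw [mem_ball, dist_eq_norm]
    simp only [hu, add_sub_cancel_left, norm_mul, Complex.norm_real, Real.norm_eq_abs, abs_of_pos hr]
    nlinarith
  have hs2 : ∀ z ∈ ball (0 : ℂ) 1, s z ^ 2 = p (u z) := by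
    intro z hz
    simp only [hs]
    rw [← Complex.exp_nat_mul]
    have : ((2 : ℕ) : ℂ) * (Complex.log (p (u z)) / 2) = Complex.log (p (u z)) := by push_cast; ring
    rw [this, Complex.exp_log (Complex.slitPlane_ne_zero (hus z hz))]
  have hsn : ∀ z, s z ≠ 0 := fun z => Complex.exp_ne_zero _
  have hud : ∀ z, HasDerivAt u r z := by
    intro z
    have := ((hasDerivAt_id z).const_mul (r : ℂ)).const_add u₀
    rw [mul_one] at this
    exact this
  have hsd : ∀ z ∈ ball (0 : ℂ) 1, HasDerivAt s ((12 * u z ^ 2 - α) * r / (2 * s z)) z := by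
    intro z hz
    have e1 : HasDerivAt (fun w => p (u w)) ((12 * u z ^ 2 - α) * r) z := by
      have := ((((hud z).pow 3).const_mul 4).sub ((hud z).const_mul α)).sub_const β
      refine this.congr_deriv ?_
      push_cast
      ring
    have e2 := ((e1.clog (hus z hz)).div_const 2).cexp
    refine e2.congr_deriv ?_
    have e3 : Complex.exp (Complex.log (p (u z)) / 2) = s z := rfl
    rw [e3]
    have e4 := hs2 z hz
    have e5 := hsn z
    rw [← e4]
    field_simp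
  refine ⟨fun z => r / (2 * s z), fun z => WithLp.toLp 2 ![u z, s z, 1], ?_⟩
  have hF : ∀ z ∈ ball (0 : ℂ) 1, HasDerivAt (fun z => (WithLp.toLp 2 ![u z, s z, 1] : EN 2))
      (WithLp.toLp 2 ![(r : ℂ), (12 * u z ^ 2 - α) * r / (2 * s z), 0]) z := by
    intro z hz
    refine CubI_toLp fun i => ?_
    fin_cases i
    · exact hud z
    · exact hsd z hz
    · exact hasDerivAt_const z (1 : ℂ)
  have hsc : ContinuousOn s (ball 0 1) := fun z hz => (hsd z hz).continuousAt.continuousWithinAt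
  refine ⟨⟨fun z hz => (hF z hz).differentiableAt.differentiableWithinAt, fun z hz => ⟨fun h0 => ?_, ?_⟩⟩, ?_, fun z hz => ?_, fun z hz => ?_⟩
  · have := congrFun (congrArg WithLp.ofLp h0) 2
    exact one_ne_zero (α := ℂ) this
  · show s z ^ 2 * 1 - 4 * u z ^ 3 + α * u z * 1 ^ 2 + β * 1 ^ 3 = 0
    rw [hs2 z hz]
    show (4 * u z ^ 3 - α * u z - β) * 1 - 4 * u z ^ 3 + α * u z * 1 ^ 2 + β * 1 ^ 3 = 0
    ring
  · exact continuousOn_const.div (continuousOn_const.mul hsc) fun z _ => mul_ne_zero two_ne_zero (hsn z)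
  · exact div_ne_zero hr0 (mul_ne_zero two_ne_zero (hsn z))
  · rw [(hF z hz).deriv]
    have e4 : s z ^ 2 = 4 * u z ^ 3 - α * u z - β := hs2 z hz
    have e5 := hsn z
    ext i
    fin_cases i
    · show s z * 0 - 1 * ((12 * u z ^ 2 - α) * r / (2 * s z)) = r / (2 * s z) * (-12 * u z ^ 2 + α * 1 ^ 2)
      field_simp
      ring
    · show 1 * (r : ℂ) - u z * 0 = r / (2 * s z) * (2 * s z * 1)
      field_simp
      ring
    · show u z * ((12 * u z ^ 2 - α) * r / (2 * s z)) - s z * r = r / (2 * s z) * (s z ^ 2 + 2 * α * u z * 1 + 3 * β * 1 ^ 2)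
      field_simp
      linear_combination (-3) * e4

end Pool.Agent.H13.CV

end
end

section

/-!
# TG HyA: entire maps `ℂ^n → ℂ^(N+1)` as maps to the projective space; circles which avoid a thin set
-/

set_option autoImplicit false

open Topology Filter Metric

namespace Pool.Agent.TG

variable {N n : ℕ}

/-- `x` and `w` are proportional -/
def Pl {ι : Type*} (x w : ι → ℂ) : Prop := ∀ i k, x i * w k = x k * w i

theorem Pl.symm {ι : Type*} {x w : ι → ℂ} (h : Pl x w) : Pl w x := fun i k => by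
  have := h k i
  rw [mul_comm (w i), mul_comm (w k)]
  exact this

theorem Pl.smul {ι : Type*} {x w : ι → ℂ} (h : Pl x w) (hw : w ≠ 0) : ∃ g : ℂ, x = g • w := by
  obtain ⟨k, hk⟩ := Function.ne_iff.1 hw
  have hk' : w k ≠ 0 := hk
  refine ⟨x k / w k, ?_⟩
  funext i
  rw [Pi.smul_apply, smul_eq_mul, div_mul_eq_mul_div, eq_div_iff hk']
  exact h i k

theorem Pl.trans {ι : Type*} {x v w : ι → ℂ} (h : Pl x v) (h' : Pl v w) (hv : v ≠ 0) : Pl x w := by
  obtain ⟨g, rfl⟩ := h.smul hv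
  intro i k
  simp only [Pi.smul_apply, smul_eq_mul]
  have := h' i k
  linear_combination g * this

/-- the values of a function which is zero off a thin set on small circles -/
theorem exists_dir {h : (Fin n → ℂ) → ℂ} {y₀ : Fin n → ℂ} (han : AnalyticAt ℂ h y₀) (hne : ¬ ∀ᶠ z in 𝓝 y₀, h z = 0) :
    ∃ e : Fin n → ℂ, ∀ᶠ t in 𝓝[≠] (0 : ℂ), h (y₀ + t • e) ≠ 0 := by
  obtain ⟨r, hr, hball⟩ := han.exists_ball_analyticOnNhd
  have h1 : ∃ᶠ z in 𝓝 y₀, h z ≠ 0 := fun hcon => hne (hcon.mono fun z hz => not_not.1 hz)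
  obtain ⟨y₁, hy₁, hy₁b⟩ := (h1.and_eventually (ball_mem_nhds y₀ hr)).exists
  obtain ⟨e, he⟩ : ∃ e, e = y₁ - y₀ := ⟨_, rfl⟩
  refine ⟨e, ?_⟩
  obtain ⟨A, hA⟩ : ∃ A : ℂ → (Fin n → ℂ), A = fun t => y₀ + t • e := ⟨_, rfl⟩
  have hAan : ∀ t, AnalyticAt ℂ A t := fun t => by
    rw [hA]
    exact analyticAt_const.add (analyticAt_id.smul analyticAt_const)
  have hAc : Continuous A := by
    rw [hA]
    fun_prop
  have hU : IsPreconnected (A ⁻¹' ball y₀ r) := by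
    apply Convex.isPreconnected
    have h2 : A ⁻¹' ball y₀ r = {t : ℂ | ‖t • e‖ < r} := by
      ext t
      simp [hA, mem_ball, dist_eq_norm]
    rw [h2]
    intro a ha b hb s t hs ht hst
    simp only [Set.mem_ofPred_eq] at ha hb ⊢
    have h3 : (s • a + t • b) • e = s • (a • e) + t • (b • e) := by
      rw [add_smul, smul_assoc, smul_assoc]
    rw [h3]
    calc ‖s • (a • e) + t • (b • e)‖ ≤ ‖s • (a • e)‖ + ‖t • (b • e)‖ := norm_add_le _ _
      _ = s * ‖a • e‖ + t * ‖b • e‖ := by rw [norm_smul s (a • e), norm_smul t (b • e), Real.norm_of_nonneg hs, Real.norm_of_nonneg ht]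
      _ < r := by
        rcases hs.eq_or_lt with h4 | h4
        · have h5 : t = 1 := by linarith
          rw [← h4, h5]
          linarith
        · nlinarith
  have hg : AnalyticOnNhd ℂ (fun t => h (A t)) (A ⁻¹' ball y₀ r) := fun t ht => (hball _ ht).comp (hAan t)
  have h0 : (0 : ℂ) ∈ A ⁻¹' ball y₀ r := by
    show A 0 ∈ ball y₀ r
    rw [hA]
    simpa using hr
  have h1' : (1 : ℂ) ∈ A ⁻¹' ball y₀ r := by
    show A 1 ∈ ball y₀ r
    rw [hA]
    simp only [one_smul]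
    rw [he, add_sub_cancel]
    exact hy₁b
  have hA1 : A 1 = y₁ := by
    rw [hA, he]
    simp
  rcases (hg 0 h0).eventually_eq_zero_or_eventually_ne_zero with h2 | h2
  · exfalso
    have h3 := hg.eqOn_zero_of_preconnected_of_eventuallyEq_zero hU h0 h2 h1'
    apply hy₁
    have h4 : h (A 1) = 0 := h3
    rwa [hA1] at h4
  · rw [hA] at h2
    exact h2

/-- an entire map which is not zero is not zero on small circles -/
theorem exists_dir_of_entire {F : (Fin n → ℂ) → Fin (N + 1) → ℂ} (hF : Differentiable ℂ F) (hne : ∃ y, F y ≠ 0) (y₀ : Fin n → ℂ) :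
    ∃ e : Fin n → ℂ, ∀ᶠ t in 𝓝[≠] (0 : ℂ), F (y₀ + t • e) ≠ 0 := by
  obtain ⟨y₁, hy₁⟩ := hne
  obtain ⟨i, hi⟩ := Function.ne_iff.1 hy₁
  refine ⟨y₁ - y₀, ?_⟩
  have hd : Differentiable ℂ fun t : ℂ => F (y₀ + t • (y₁ - y₀)) i := by
    have h1 : Differentiable ℂ fun t : ℂ => y₀ + t • (y₁ - y₀) := by fun_prop
    exact fun t => (differentiableAt_pi.1 ((hF _).comp t (h1 t))) i
  have hg : AnalyticOnNhd ℂ (fun t : ℂ => F (y₀ + t • (y₁ - y₀)) i) Set.univ := fun t _ => hd.analyticAt t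
  rcases (hg 0 (Set.mem_univ _)).eventually_eq_zero_or_eventually_ne_zero with h2 | h2
  · exfalso
    have h3 := hg.eqOn_zero_of_preconnected_of_eventuallyEq_zero isPreconnected_univ (Set.mem_univ _) h2 (Set.mem_univ (1 : ℂ))
    apply hi
    have h4 : F (y₀ + (1 : ℂ) • (y₁ - y₀)) i = 0 := h3
    rw [one_smul, add_sub_cancel] at h4
    exact h4
  · filter_upwards [h2] with t ht h0
    exact ht (by rw [h0]; rfl)

theorem frequently_ne {F : (Fin n → ℂ) → Fin (N + 1) → ℂ} (hF : Differentiable ℂ F) (hne : ∃ y, F y ≠ 0) (y₀ : Fin n → ℂ) :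
    ∃ᶠ y in 𝓝 y₀, F y ≠ 0 := by
  obtain ⟨e, he⟩ := exists_dir_of_entire hF hne y₀
  have ht : Tendsto (fun t : ℂ => y₀ + t • e) (𝓝[≠] (0 : ℂ)) (𝓝 y₀) := by
    have h1 : Continuous fun t : ℂ => y₀ + t • e := by fun_prop
    have h2 := (h1.tendsto 0).mono_left (nhdsWithin_le_nhds (s := {(0 : ℂ)}ᶜ))
    simpa using h2
  exact ht.frequently he.frequently

/-- a continuous function which vanishes where `F ≠ 0` is zero -/
theorem eq_zero_of_dense {F : (Fin n → ℂ) → Fin (N + 1) → ℂ} (hF : Differentiable ℂ F) (hne : ∃ y, F y ≠ 0) {y₀ : Fin n → ℂ}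
    {A : (Fin n → ℂ) → ℂ} (hA : ContinuousAt A y₀) (h : ∀ᶠ y in 𝓝 y₀, F y ≠ 0 → A y = 0) : A y₀ = 0 := by
  by_contra hcon
  have h1 : ∀ᶠ y in 𝓝 y₀, A y ≠ 0 := hA.eventually_ne hcon
  obtain ⟨y, hy, h2, h3⟩ := ((frequently_ne hF hne y₀).and_eventually (h.and h1)).exists
  exact h3 (h2 hy)

/-- small circles on which the points have a distance from `D` -/
theorem exists_circle_off {D : Set (Fin n → ℂ)} (hD : IsClosed D) {y₀ : Fin n → ℂ}
    (thin : ∃ h : (Fin n → ℂ) → ℂ, AnalyticAt ℂ h y₀ ∧ (∀ᶠ z in 𝓝 y₀, z ∈ D → h z = 0) ∧ ¬ ∀ᶠ z in 𝓝 y₀, h z = 0) :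
    ∃ (e : Fin n → ℂ) (r δ : ℝ), 0 < r ∧ r * ‖e‖ ≤ 1 ∧ 0 < δ ∧ ∀ y ∈ ball y₀ δ, ∀ t : ℂ, ‖t‖ = r → ∀ b ∈ D, δ ≤ ‖y + t • e - b‖ := by
  obtain ⟨h, h1, h2, h3⟩ := thin
  obtain ⟨e, he⟩ := exists_dir h1 h3
  have ht : Tendsto (fun t : ℂ => y₀ + t • e) (𝓝[≠] (0 : ℂ)) (𝓝 y₀) := by
    have h1 : Continuous fun t : ℂ => y₀ + t • e := by fun_prop
    have h2 := (h1.tendsto 0).mono_left (nhdsWithin_le_nhds (s := {(0 : ℂ)}ᶜ))
    simpa using h2
  have h4 : ∀ᶠ t in 𝓝[≠] (0 : ℂ), y₀ + t • e ∉ D := by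
    filter_upwards [he, ht.eventually h2] with t ht1 ht2 hmem
    exact ht1 (ht2 hmem)
  rw [eventually_nhdsWithin_iff, Metric.eventually_nhds_iff] at h4
  obtain ⟨ε, hε, h5⟩ := h4
  obtain ⟨r, hr⟩ : ∃ r : ℝ, r = min (ε / 2) (1 / (‖e‖ + 1)) := ⟨_, rfl⟩
  have hr0 : 0 < r := by
    rw [hr]
    exact lt_min (by linarith) (by positivity)
  have hrε : r < ε := lt_of_le_of_lt (hr ▸ min_le_left _ _) (by linarith)
  have hre : r * ‖e‖ ≤ 1 := by
    have h6 : r ≤ 1 / (‖e‖ + 1) := hr ▸ min_le_right _ _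
    have h7 : 0 < ‖e‖ + 1 := by positivity
    rw [le_div_iff₀ h7] at h6
    nlinarith [norm_nonneg e]
  have hK : IsCompact ((fun t : ℂ => y₀ + t • e) '' sphere 0 r) := (isCompact_sphere 0 r).image (by fun_prop)
  have hKD : (fun t : ℂ => y₀ + t • e) '' sphere 0 r ⊆ Dᶜ := by
    rintro _ ⟨t, ht1, rfl⟩
    rw [mem_sphere_zero_iff_norm] at ht1
    refine h5 ?_ ?_
    · rw [dist_zero_right, ht1]
      exact hrε
    · intro h0
      rw [Set.mem_singleton_iff] at h0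
      rw [h0, norm_zero] at ht1
      linarith
  obtain ⟨δ, hδ, hsub⟩ := hK.exists_thickening_subset_open hD.isOpen_compl hKD
  refine ⟨e, r, δ / 2, hr0, hre, by linarith, fun y hy t ht1 b hb => ?_⟩
  by_contra hcon
  push Not at hcon
  have h6 : b ∈ thickening δ ((fun t : ℂ => y₀ + t • e) '' sphere 0 r) := by
    rw [mem_thickening_iff]
    refine ⟨y₀ + t • e, ⟨t, by rwa [mem_sphere_zero_iff_norm], rfl⟩, ?_⟩
    rw [dist_comm, dist_eq_norm]
    rw [mem_ball, dist_eq_norm] at hy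
    calc ‖y₀ + t • e - b‖ = ‖(y₀ - y) + (y + t • e - b)‖ := by congr 1; abel
      _ ≤ ‖y₀ - y‖ + ‖y + t • e - b‖ := norm_add_le _ _
      _ < δ := by
        rw [norm_sub_rev] at hy
        linarith
  exact hsub h6 hb

/-- uniformly on compact sets -/
theorem exists_circle_unif {D : Set (Fin n → ℂ)} (hD : IsClosed D)
    (thin : ∀ y₀ : Fin n → ℂ, ∃ h : (Fin n → ℂ) → ℂ, AnalyticAt ℂ h y₀ ∧ (∀ᶠ z in 𝓝 y₀, z ∈ D → h z = 0) ∧ ¬ ∀ᶠ z in 𝓝 y₀, h z = 0)
    {K : Set (Fin n → ℂ)} (hK : IsCompact K) :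
    ∃ δ : ℝ, 0 < δ ∧ ∀ y ∈ K, ∃ (e : Fin n → ℂ) (r : ℝ), 0 < r ∧ r * ‖e‖ ≤ 1 ∧ ∀ t : ℂ, ‖t‖ = r → ∀ b ∈ D, δ ≤ ‖y + t • e - b‖ := by
  refine hK.induction_on (p := fun K => ∃ δ : ℝ, 0 < δ ∧ ∀ y ∈ K, ∃ (e : Fin n → ℂ) (r : ℝ), 0 < r ∧ r * ‖e‖ ≤ 1 ∧
    ∀ t : ℂ, ‖t‖ = r → ∀ b ∈ D, δ ≤ ‖y + t • e - b‖) ?_ ?_ ?_ ?_
  · exact ⟨1, one_pos, fun y hy => absurd hy (Set.notMem_empty y)⟩
  · rintro s t hst ⟨δ, hδ, h⟩
    exact ⟨δ, hδ, fun y hy => h y (hst hy)⟩
  · rintro s t ⟨δ, hδ, h⟩ ⟨δ', hδ', h'⟩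
    refine ⟨min δ δ', lt_min hδ hδ', fun y hy => ?_⟩
    rcases hy with hy | hy
    · obtain ⟨e, r, hr, hre, h1⟩ := h y hy
      exact ⟨e, r, hr, hre, fun t ht b hb => (min_le_left _ _).trans (h1 t ht b hb)⟩
    · obtain ⟨e, r, hr, hre, h1⟩ := h' y hy
      exact ⟨e, r, hr, hre, fun t ht b hb => (min_le_right _ _).trans (h1 t ht b hb)⟩
  · intro y₀ _
    obtain ⟨e, r, δ, hr, hre, hδ, h⟩ := exists_circle_off hD (thin y₀)
    exact ⟨ball y₀ δ, mem_nhdsWithin_of_mem_nhds (ball_mem_nhds y₀ hδ), δ, hδ, fun y hy => ⟨e, r, hr, hre, h y hy⟩⟩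

end Pool.Agent.TG

end

section

/-!
# TG HyB: the values of the extension of an entire map; comparison of a form at a point and on a small circle
-/

set_option autoImplicit false

open Topology Filter Metric MvPolynomial
open Pool.Agent.H22.AlgD (eval_smul_form analyticAt_eval)

namespace Pool.Agent.TG

variable {N n : ℕ}

/-- `v` represents the value at `y` of the holomorphic extension of `[F]` -/
def VAt (F : (Fin n → ℂ) → Fin (N + 1) → ℂ) (y : Fin n → ℂ) (v : Fin (N + 1) → ℂ) : Prop :=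
  ∃ φ : (Fin n → ℂ) → Fin (N + 1) → ℂ, AnalyticAt ℂ φ y ∧ φ y = v ∧ v ≠ 0 ∧ ∀ᶠ z in 𝓝 y, Pl (F z) (φ z)

variable {F : (Fin n → ℂ) → Fin (N + 1) → ℂ}

theorem VAt.unique (hF : Differentiable ℂ F) (hne : ∃ y, F y ≠ 0) {y : Fin n → ℂ} {v w : Fin (N + 1) → ℂ} (h : VAt F y v) (h' : VAt F y w) : Pl v w := by
  obtain ⟨φ, hφ, rfl, hv, h1⟩ := h
  obtain ⟨ψ, hψ, rfl, hw, h2⟩ := h'
  intro i k
  have hc : ∀ (χ : (Fin n → ℂ) → Fin (N + 1) → ℂ), AnalyticAt ℂ χ y → ∀ i, ContinuousAt (fun z => χ z i) y := fun χ hχ i =>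
    (continuousAt_pi.1 hχ.continuousAt) i
  have h3 := eq_zero_of_dense hF hne (y₀ := y) (A := fun z => φ z i * ψ z k - φ z k * ψ z i)
    (((hc φ hφ i).mul (hc ψ hψ k)).sub ((hc φ hφ k).mul (hc ψ hψ i))) (by
      filter_upwards [h1, h2] with z hz1 hz2 hz0
      rw [sub_eq_zero]
      exact (hz1.symm.trans hz2 hz0) i k)
  exact sub_eq_zero.1 h3

theorem VAt.shift (hF : Differentiable ℂ F) (hne : ∃ y, F y ≠ 0) {l : Fin n → ℂ} (hl : ∀ y, Pl (F (y + l)) (F y)) {y : Fin n → ℂ}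
    {v : Fin (N + 1) → ℂ} (h : VAt F y v) : VAt F (y + l) v := by
  obtain ⟨φ, hφ, hv, hv0, h1⟩ := h
  have ht : Tendsto (fun z : Fin n → ℂ => z - l) (𝓝 (y + l)) (𝓝 y) := by
    have h2 : Continuous fun z : Fin n → ℂ => z - l := by fun_prop
    have h3 := h2.tendsto (y + l)
    rwa [add_sub_cancel_right] at h3
  have hv' : φ (y + l - l) = v := by rw [add_sub_cancel_right]; exact hv
  refine ⟨fun z => φ (z - l), ?_, hv', hv0, ?_⟩
  · have h2 : AnalyticAt ℂ φ (y + l - l) := by rwa [add_sub_cancel_right]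
    exact AnalyticAt.comp (g := φ) (f := fun z : Fin n → ℂ => z - l) h2 (analyticAt_id.sub analyticAt_const)
  · filter_upwards [ht.eventually (h1.eventually_nhds.and hφ.eventually_analyticAt)] with z hz i k
    obtain ⟨hz1, hz2⟩ := hz
    have ht' : Tendsto (fun w : Fin n → ℂ => w - l) (𝓝 z) (𝓝 (z - l)) := by
      have h2 : Continuous fun w : Fin n → ℂ => w - l := by fun_prop
      exact h2.tendsto z
    have hc : ∀ i, ContinuousAt (fun w => φ (w - l) i) z := fun i =>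
      ContinuousAt.comp (g := fun w => φ w i) (f := fun w : Fin n → ℂ => w - l) ((continuousAt_pi.1 hz2.continuousAt) i) ht'
    have hcF : ∀ i, ContinuousAt (fun w => F w i) z := fun i => (continuousAt_pi.1 hF.continuous.continuousAt) i
    have h3 := eq_zero_of_dense (F := fun w => F (w - l)) (fun w => (hF _).comp w (differentiableAt_id.sub_const l))
      (by
        obtain ⟨y₁, hy₁⟩ := hne
        exact ⟨y₁ + l, by rwa [add_sub_cancel_right]⟩) (y₀ := z)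
      (A := fun w => F w i * φ (w - l) k - F w k * φ (w - l) i)
      (((hcF i).mul (hc k)).sub ((hcF k).mul (hc i))) (by
        filter_upwards [ht'.eventually hz1] with w hw1 hw0
        rw [sub_eq_zero]
        have h4 := hl (w - l)
        rw [sub_add_cancel] at h4
        exact (h4.trans hw1 hw0) i k)
    exact sub_eq_zero.1 h3

/-- the value of a form at a point is bounded by its values on small circles -/
theorem exists_cmp (hF : Differentiable ℂ F) (hne : ∃ y, F y ≠ 0) {y₀ : Fin n → ℂ} {v₀ : Fin (N + 1) → ℂ} (h : VAt F y₀ v₀) :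
    ∃ c : ℝ, 0 < c ∧ ∀ᶠ y in 𝓝 y₀, ∀ v, VAt F y v → ∀ (d : ℕ) (Q : MvPolynomial (Fin (N + 1)) ℂ), Q.IsHomogeneous d →
      ∃ y' : Fin n → ℂ, ‖y' - y‖ ≤ 1 ∧ c ^ d * ‖eval v Q‖ ≤ ‖v‖ ^ d * ‖eval (F y') Q‖ := by
  obtain ⟨φ, hφ, hv, hv0, h1⟩ := h
  have hn0 : 0 < ‖φ y₀‖ := by rw [hv]; exact norm_pos_iff.2 hv0
  have h2 : ∀ᶠ z in 𝓝 y₀, AnalyticAt ℂ φ z ∧ Pl (F z) (φ z) ∧ ‖φ y₀‖ / 2 < ‖φ z‖ ∧ ‖φ z‖ < 2 * ‖φ y₀‖ :=
    hφ.eventually_analyticAt.and (h1.and ((hφ.continuousAt.norm.eventually (lt_mem_nhds (by linarith))).and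
      (hφ.continuousAt.norm.eventually (gt_mem_nhds (by linarith)))))
  rw [Metric.eventually_nhds_iff] at h2
  obtain ⟨ρ, hρ, h3⟩ := h2
  obtain ⟨e, he⟩ := exists_dir_of_entire hF hne y₀
  rw [eventually_nhdsWithin_iff, Metric.eventually_nhds_iff] at he
  obtain ⟨ε, hε, h4⟩ := he
  obtain ⟨r, hr⟩ : ∃ r : ℝ, r = min (ε / 2) (min 1 (ρ / 2) / (‖e‖ + 1)) := ⟨_, rfl⟩
  have he1 : 0 < ‖e‖ + 1 := by positivity
  have hm : 0 < min 1 (ρ / 2) := lt_min one_pos (by linarith)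
  have hr0 : 0 < r := by
    rw [hr]
    exact lt_min (by linarith) (div_pos hm he1)
  have hrε : r < ε := lt_of_le_of_lt (hr ▸ min_le_left _ _) (by linarith)
  have hre : r * ‖e‖ ≤ min 1 (ρ / 2) := by
    have h6 : r ≤ min 1 (ρ / 2) / (‖e‖ + 1) := hr ▸ min_le_right _ _
    rw [le_div_iff₀ he1] at h6
    nlinarith [norm_nonneg e]
  have hre1 : r * ‖e‖ ≤ 1 := hre.trans (min_le_left _ _)
  have hreρ : r * ‖e‖ ≤ ρ / 2 := hre.trans (min_le_right _ _)
  have h5 : ∀ t ∈ sphere (0 : ℂ) r, F (y₀ + t • e) ≠ 0 := by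
    intro t ht
    rw [mem_sphere_zero_iff_norm] at ht
    refine h4 ?_ ?_
    · rw [dist_zero_right, ht]
      exact hrε
    · intro h0
      rw [Set.mem_singleton_iff] at h0
      rw [h0, norm_zero] at ht
      linarith
  have hcs : Continuous fun t : ℂ => ‖F (y₀ + t • e)‖ := by
    have := hF.continuous
    fun_prop
  obtain ⟨t₀, ht₀, hmin⟩ := (isCompact_sphere (0 : ℂ) r).exists_isMinOn (NormedSpace.sphere_nonempty.2 hr0.le) hcs.continuousOn
  obtain ⟨c₂, hc₂⟩ : ∃ c₂ : ℝ, c₂ = ‖F (y₀ + t₀ • e)‖ := ⟨_, rfl⟩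
  have hc₂0 : 0 < c₂ := by
    rw [hc₂]
    exact norm_pos_iff.2 (h5 t₀ ht₀)
  have h6 : ∀ᶠ y in 𝓝 y₀, ∀ t ∈ sphere (0 : ℂ) r, c₂ / 2 < ‖F (y + t • e)‖ := by
    refine (isCompact_sphere (0 : ℂ) r).eventually_forall_of_forall_eventually fun t ht => ?_
    have h7 : c₂ / 2 < ‖F (y₀ + t • e)‖ := by
      have h8 : c₂ ≤ ‖F (y₀ + t • e)‖ := by
        rw [hc₂]
        exact hmin ht
      linarith
    have h9 : Continuous fun z : (Fin n → ℂ) × ℂ => ‖F (z.1 + z.2 • e)‖ := by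
      have := hF.continuous
      fun_prop
    exact h9.continuousAt.eventually (lt_mem_nhds h7)
  have hb : ∀ᶠ y in 𝓝 y₀, dist y y₀ < ρ / 2 := Metric.eventually_nhds_iff.2 ⟨ρ / 2, by linarith, fun {y} hy => hy⟩
  refine ⟨c₂ / 2 * (‖φ y₀‖ / 2) / (2 * ‖φ y₀‖), by positivity, ?_⟩
  filter_upwards [h6, hb] with y hy1 hy2 v hvy d Q hQ
  have hdist : ∀ t ∈ closedBall (0 : ℂ) r, dist (y + t • e) y₀ < ρ := by
    intro t ht
    rw [mem_closedBall_zero_iff] at ht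
    calc dist (y + t • e) y₀ ≤ dist (y + t • e) y + dist y y₀ := dist_triangle _ _ _
      _ < ρ / 2 + ρ / 2 := by
        refine add_lt_add_of_le_of_lt ?_ hy2
        rw [dist_eq_norm, add_sub_cancel_left, norm_smul]
        exact (mul_le_mul_of_nonneg_right ht (norm_nonneg e)).trans hreρ
      _ = ρ := by ring
  -- the maximum of the form on the circle
  obtain ⟨G, hG⟩ : ∃ G : ℂ → ℂ, G = fun t => eval (φ (y + t • e)) Q := ⟨_, rfl⟩
  have hGan : ∀ t ∈ closedBall (0 : ℂ) r, AnalyticAt ℂ G t := by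
    intro t ht
    have h8 : AnalyticAt ℂ (fun w => eval (φ w) Q) (y + t • e) := analyticAt_eval (h3 (hdist t ht)).1 Q
    rw [hG]
    exact AnalyticAt.comp (g := fun w => eval (φ w) Q) (f := fun t : ℂ => y + t • e) h8
      (analyticAt_const.add (analyticAt_id.smul analyticAt_const))
  have hGd : DiffContOnCl ℂ G (ball 0 r) := by
    constructor
    · exact fun t ht => (hGan t (ball_subset_closedBall ht)).differentiableAt.differentiableWithinAt
    · rw [closure_ball _ hr0.ne']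
      exact fun t ht => (hGan t ht).continuousAt.continuousWithinAt
  obtain ⟨t, ht, hmax⟩ := Complex.exists_mem_frontier_isMaxOn_norm isBounded_ball (nonempty_ball.2 hr0) hGd
  rw [frontier_ball _ hr0.ne'] at ht
  have h7 : ‖G 0‖ ≤ ‖G t‖ := hmax (subset_closure (mem_ball_self hr0))
  rw [hG] at h7
  simp only [zero_smul, add_zero] at h7
  have htc : t ∈ closedBall (0 : ℂ) r := sphere_subset_closedBall ht
  obtain ⟨ha, hb1, hb2, hb3⟩ := h3 (hdist t htc)
  have h0c : (0 : ℂ) ∈ closedBall (0 : ℂ) r := mem_closedBall_self hr0.le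
  have hd0 := hdist 0 h0c
  rw [zero_smul, add_zero] at hd0
  obtain ⟨ha0, hp0, hb20, hb30⟩ := h3 hd0
  have hφ0 : φ y ≠ 0 := fun h => by
    rw [h, norm_zero] at hb20
    linarith
  have hφt : φ (y + t • e) ≠ 0 := fun h => by
    rw [h, norm_zero] at hb2
    linarith
  obtain ⟨g, hg⟩ := hb1.smul hφt
  have hev : ∀ᶠ z in 𝓝 y, Pl (F z) (φ z) := by
    have h8 : ∀ᶠ z in 𝓝 y, dist z y₀ < ρ := (isOpen_ball (x := y₀) (ε := ρ)).mem_nhds (by simpa using hd0)
    filter_upwards [h8] with z hz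
    exact (h3 hz).2.1
  obtain ⟨a, ha'⟩ := (hvy.unique hF hne ⟨φ, ha0, rfl, hφ0, hev⟩).smul hφ0
  refine ⟨y + t • e, ?_, ?_⟩
  · rw [add_sub_cancel_left, norm_smul]
    rw [mem_sphere_zero_iff_norm] at ht
    rw [ht]
    exact hre1
  · rw [hg, ha', eval_smul_form hQ, eval_smul_form hQ, norm_mul, norm_mul, norm_pow, norm_pow, norm_smul]
    -- the factor `g` is not small
    have hg1 : c₂ / 2 / (2 * ‖φ y₀‖) ≤ ‖g‖ := by
      rw [div_le_iff₀ (by positivity)]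
      have h8 := hy1 t ht
      rw [hg, norm_smul] at h8
      have h9 : ‖g‖ * ‖φ (y + t • e)‖ ≤ ‖g‖ * (2 * ‖φ y₀‖) := mul_le_mul_of_nonneg_left hb3.le (norm_nonneg g)
      linarith
    have h10 : c₂ / 2 * (‖φ y₀‖ / 2) / (2 * ‖φ y₀‖) ≤ ‖g‖ * ‖φ y‖ := by
      calc c₂ / 2 * (‖φ y₀‖ / 2) / (2 * ‖φ y₀‖) = c₂ / 2 / (2 * ‖φ y₀‖) * (‖φ y₀‖ / 2) := by ring
        _ ≤ ‖g‖ * ‖φ y‖ := mul_le_mul hg1 hb20.le (by positivity) (norm_nonneg g)
    have h11 : (c₂ / 2 * (‖φ y₀‖ / 2) / (2 * ‖φ y₀‖)) ^ d ≤ (‖g‖ * ‖φ y‖) ^ d := pow_le_pow_left₀ (by positivity) h10 d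
    calc (c₂ / 2 * (‖φ y₀‖ / 2) / (2 * ‖φ y₀‖)) ^ d * (‖a‖ ^ d * ‖eval (φ y) Q‖)
        ≤ (‖g‖ * ‖φ y‖) ^ d * (‖a‖ ^ d * ‖eval (φ (y + t • e)) Q‖) :=
          mul_le_mul h11 (mul_le_mul_of_nonneg_left h7 (by positivity)) (by positivity) (by positivity)
      _ = (‖a‖ * ‖φ y‖) ^ d * (‖g‖ ^ d * ‖eval (φ (y + t • e)) Q‖) := by ring

end Pool.Agent.TG

end
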