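import Pool.Agent.H94.G5T.H36.BP.WdA_1
import Pool.Agent.H94.G5T.M13
import Pool.Agent.H94.G5T.M26
import Pool.Agent.H94.G5T.M28
import Pool.Agent.H94.G5T.M30
import Pool.Agent.H94.G5T.M38
import Pool.Agent.H94.G5T.M39
import Pool.Agent.H94.G5T.M40

/-! The parts of this file: AD.F.Vel, AD.W.Resc, H62.EF.ZalA, H13.CV.FunF, H17BP.ConstV, H62.FC.CurveIdeal, H62.FC.Trdeg, H17BP.TrdegLt, G3.R.DT. -/

section

/-!
# AD F Vel: the speed of a curve
-/

set_option autoImplicit false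

open Topology Filter Metric

namespace Pool.Agent.AD.F

open Pool.Agent.H36.BP (EN fs wd Sub Curve)

variable {N : ℕ} {X : Set (EN N)}

/-- the chain rule for the Fubini-Study length -/
theorem fs_comp {U : Set ℂ} (hU : IsOpen U) {F : ℂ → EN N} (hF : DifferentiableOn ℂ F U) {φ : ℂ → ℂ} {z : ℂ}
    (hφ : DifferentiableAt ℂ φ z) (hz : φ z ∈ U) :
    fs (F (φ z)) (deriv (fun w => F (φ w)) z) = ‖deriv φ z‖ * fs (F (φ z)) (deriv F (φ z)) := by
  have h1 : HasDerivAt F (deriv F (φ z)) (φ z) := (hF.differentiableAt (hU.mem_nhds hz)).hasDerivAt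
  have h2 : HasDerivAt (fun w => F (φ w)) (deriv φ z • deriv F (φ z)) z := h1.scomp z hφ.hasDerivAt
  rw [h2.deriv, Pool.Agent.H36.BP.fs_smul_right]

end Pool.Agent.AD.F

end

section

/-!
# AD W Resc: rescaling of a curve on the unit disc

The proof of `Pool.Agent.H62.EF.rescale_fs` for curves on the open unit disc.
-/

set_option autoImplicit false

open Topology Filter Metric

namespace Pool.Agent.AD

open Pool.Agent.H36.BP (EN fs wd wd_cont fs_nonneg fs_smul_right)

variable {N : ℕ}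

theorem rescale_disc {F : ℂ → EN N} (hF : DifferentiableOn ℂ F (ball 0 1)) (h0 : ∀ z ∈ ball (0 : ℂ) 1, F z ≠ 0) (n : ℕ)
    (hbig : 4 * ((n : ℝ) + 1) < fs (F 0) (deriv F 0)) :
    ∃ (z₀ : ℂ) (a : ℝ), 4 * ((n : ℝ) + 1) < a ∧ (∀ ζ ∈ ball (0 : ℂ) (n + 1), ‖z₀ + ((a⁻¹ : ℝ) : ℂ) * ζ‖ ≤ 1 / 2) ∧
      fs (F z₀) (deriv (fun ζ => F (z₀ + ((a⁻¹ : ℝ) : ℂ) * ζ)) 0) = 1 ∧
      ∀ ζ ∈ ball (0 : ℂ) (n + 1), fs (F (z₀ + ((a⁻¹ : ℝ) : ℂ) * ζ)) (deriv (fun ζ => F (z₀ + ((a⁻¹ : ℝ) : ℂ) * ζ)) ζ) ≤ 2 := by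
  have hn : (0 : ℝ) ≤ n := Nat.cast_nonneg n
  have hsub : closedBall (0 : ℂ) (1 / 2) ⊆ ball 0 1 := closedBall_subset_ball (by norm_num)
  have hFc : ContinuousOn F (closedBall (0 : ℂ) (1 / 2)) := hF.continuousOn.mono hsub
  have hF'c : ContinuousOn (deriv F) (closedBall (0 : ℂ) (1 / 2)) := (hF.deriv isOpen_ball).continuousOn.mono hsub
  have hgc : ContinuousOn (fun z : ℂ => fs (F z) (deriv F z)) (closedBall (0 : ℂ) (1 / 2)) := by
    unfold fs
    refine (wd_cont.comp_continuousOn (hFc.prodMk hF'c)).div (hFc.norm.pow 2) ?_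
    intro z hz
    exact pow_ne_zero 2 (norm_ne_zero_iff.mpr (h0 z (hsub hz)))
  set u : ℂ → ℝ := fun z => fs (F z) (deriv F z) * (1 / 2 - ‖z‖) with hu
  have huc : ContinuousOn u (closedBall (0 : ℂ) (1 / 2)) := hgc.mul (continuous_const.sub continuous_norm).continuousOn
  obtain ⟨z₀, hz₀, hmax⟩ := (isCompact_closedBall (0 : ℂ) (1 / 2)).exists_isMaxOn ⟨0, by simp⟩ huc
  have hz₀n : ‖z₀‖ ≤ 1 / 2 := by simpa using hz₀
  have hu0z : u 0 ≤ u z₀ := hmax (by simp : (0 : ℂ) ∈ closedBall (0 : ℂ) (1 / 2))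
  have hu0 : u 0 = fs (F 0) (deriv F 0) / 2 := by simp only [hu, norm_zero]; ring
  have hm : 2 * ((n : ℝ) + 1) < u z₀ := by rw [hu0] at hu0z; linarith
  set d : ℝ := 1 / 2 - ‖z₀‖ with hd
  have hd0 : 0 ≤ d := by rw [hd]; linarith
  set a : ℝ := fs (F z₀) (deriv F z₀) with ha
  have ha0 : 0 ≤ a := fs_nonneg _ _
  have huz : u z₀ = a * d := rfl
  have hpos : 0 < a * d := by rw [← huz]; linarith
  have hapos : 0 < a := by
    rcases ha0.lt_or_eq with h | h
    · exact h
    · rw [← h] at hpos; simp at hpos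
  have hdpos : 0 < d := by
    rcases hd0.lt_or_eq with h | h
    · exact h
    · rw [← h] at hpos; simp at hpos
  have hd2 : d ≤ 1 / 2 := by rw [hd]; linarith [norm_nonneg z₀]
  have haL : 4 * ((n : ℝ) + 1) < a := by
    have h1 : a * d ≤ a * (1 / 2) := mul_le_mul_of_nonneg_left hd2 ha0
    rw [huz] at hm
    linarith
  set φ : ℂ → ℂ := fun ζ => z₀ + ((a⁻¹ : ℝ) : ℂ) * ζ with hφ
  have hφd : ∀ ζ, HasDerivAt φ ((a⁻¹ : ℝ) : ℂ) ζ := by
    intro ζ
    have := ((hasDerivAt_id ζ).const_mul ((a⁻¹ : ℝ) : ℂ)).const_add z₀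
    simpa [hφ] using this
  have hkey : ∀ ζ ∈ ball (0 : ℂ) (n + 1), ‖φ ζ‖ ≤ 1 / 2 - d / 2 := by
    intro ζ hζ
    have hζn : ‖ζ‖ < n + 1 := by simpa using hζ
    have h1 : ‖φ ζ‖ ≤ ‖z₀‖ + a⁻¹ * ‖ζ‖ := by
      calc ‖φ ζ‖ ≤ ‖z₀‖ + ‖((a⁻¹ : ℝ) : ℂ) * ζ‖ := norm_add_le _ _
        _ = ‖z₀‖ + a⁻¹ * ‖ζ‖ := by
          rw [norm_mul, Complex.norm_real, Real.norm_of_nonneg (by positivity)]
    have h2 : a⁻¹ * ‖ζ‖ ≤ d / 2 := by
      rw [inv_mul_le_iff₀ hapos]
      rw [huz] at hm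
      linarith
    have h3 : ‖z₀‖ = 1 / 2 - d := by rw [hd]; ring
    linarith
  have hball : ∀ ζ ∈ ball (0 : ℂ) (n + 1), φ ζ ∈ closedBall (0 : ℂ) (1 / 2) := by
    intro ζ hζ
    have := hkey ζ hζ
    rw [mem_closedBall_zero_iff]
    linarith
  have hder : ∀ ζ ∈ ball (0 : ℂ) (n + 1), deriv (fun ζ => F (φ ζ)) ζ = ((a⁻¹ : ℝ) : ℂ) • deriv F (φ ζ) := by
    intro ζ hζ
    have h1 : DifferentiableAt ℂ F (φ ζ) := hF.differentiableAt (isOpen_ball.mem_nhds (hsub (hball ζ hζ)))
    exact (h1.hasDerivAt.scomp ζ (hφd ζ)).deriv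
  have hfs : ∀ ζ ∈ ball (0 : ℂ) (n + 1), fs (F (φ ζ)) (deriv (fun ζ => F (φ ζ)) ζ) = a⁻¹ * fs (F (φ ζ)) (deriv F (φ ζ)) := by
    intro ζ hζ
    rw [hder ζ hζ, fs_smul_right, Complex.norm_real, Real.norm_of_nonneg (by positivity)]
  have hφ0 : φ 0 = z₀ := by simp [hφ]
  refine ⟨z₀, a, haL, fun ζ hζ => ?_, ?_, ?_⟩
  · have h1 := hkey ζ hζ
    have h2 : ‖z₀ + ((a⁻¹ : ℝ) : ℂ) * ζ‖ ≤ 1 / 2 - d / 2 := h1
    linarith
  · have h1 := hfs 0 (mem_ball_self (by positivity))
    rw [hφ0, ← ha, inv_mul_cancel₀ hapos.ne'] at h1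
    exact h1
  · intro ζ hζ
    change fs (F (φ ζ)) (deriv (fun ζ => F (φ ζ)) ζ) ≤ 2
    rw [hfs ζ hζ]
    have h1 : u (φ ζ) ≤ u z₀ := hmax (hball ζ hζ)
    have h2 := hkey ζ hζ
    have h3 : fs (F (φ ζ)) (deriv F (φ ζ)) * (1 / 2 - ‖φ ζ‖) ≤ a * d := h1
    have h4 : 0 ≤ fs (F (φ ζ)) (deriv F (φ ζ)) := fs_nonneg _ _
    have h5 : fs (F (φ ζ)) (deriv F (φ ζ)) * (d / 2) ≤ a * d :=
      le_trans (mul_le_mul_of_nonneg_left (by linarith) h4) h3
    have h6 : fs (F (φ ζ)) (deriv F (φ ζ)) ≤ 2 * a := by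
      by_contra hc
      push Not at hc
      have : 2 * a * (d / 2) < fs (F (φ ζ)) (deriv F (φ ζ)) * (d / 2) := mul_lt_mul_of_pos_right hc (by linarith)
      linarith
    rw [inv_mul_le_iff₀ hapos]
    linarith

end Pool.Agent.AD

end

section

/-!
# EF ZalA: rescaling of an entire curve

The proof of `Pool.Agent.H36.BP.rescale` (file `H36/BP/Resc.lean`) for `G = fs`: the function `fs (F z) (F' z) * (1 / 2 - ‖z‖)` is continuous on
`closedBall 0 (1 / 2)` (`F z ≠ 0`), it has a maximum `m` at a point `z₀`, `m ≥ fs (F 0) (F' 0) / 2 > 2 (n + 1)`; `a = fs (F z₀) (F' z₀)`.  (Here the point `z₀` and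
the number `a` are part of the conclusion.)
-/

set_option autoImplicit false

open Topology Filter Metric

namespace Pool.Agent.H62.EF

open Pool.Agent.H36.BP (EN fs wd wd_cont fs_nonneg fs_smul_right)

variable {N : ℕ}

theorem rescale_fs {F : ℂ → EN N} (hF : Differentiable ℂ F) (h0 : ∀ z, F z ≠ 0) (n : ℕ)
    (hbig : 4 * ((n : ℝ) + 1) < fs (F 0) (deriv F 0)) :
    ∃ (z₀ : ℂ) (a : ℝ), 4 * ((n : ℝ) + 1) < a ∧ fs (F z₀) (deriv (fun ζ => F (z₀ + ((a⁻¹ : ℝ) : ℂ) * ζ)) 0) = 1 ∧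
      ∀ ζ ∈ ball (0 : ℂ) (n + 1), fs (F (z₀ + ((a⁻¹ : ℝ) : ℂ) * ζ)) (deriv (fun ζ => F (z₀ + ((a⁻¹ : ℝ) : ℂ) * ζ)) ζ) ≤ 2 := by
  have hn : (0 : ℝ) ≤ n := Nat.cast_nonneg n
  have hFc : Continuous F := hF.continuous
  have hF'c : Continuous (deriv F) := (hF.contDiff (n := 1)).continuous_deriv le_rfl
  have hgc : Continuous fun z : ℂ => fs (F z) (deriv F z) := by
    unfold fs
    refine (wd_cont.comp (hFc.prodMk hF'c)).div (hFc.norm.pow 2) ?_
    intro z
    exact pow_ne_zero 2 (norm_ne_zero_iff.mpr (h0 z))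
  set u : ℂ → ℝ := fun z => fs (F z) (deriv F z) * (1 / 2 - ‖z‖) with hu
  have huc : Continuous u := hgc.mul (continuous_const.sub continuous_norm)
  obtain ⟨z₀, hz₀, hmax⟩ := (isCompact_closedBall (0 : ℂ) (1 / 2)).exists_isMaxOn ⟨0, by simp⟩ huc.continuousOn
  have hz₀n : ‖z₀‖ ≤ 1 / 2 := by simpa using hz₀
  have hu0z : u 0 ≤ u z₀ := hmax (by simp : (0 : ℂ) ∈ closedBall (0 : ℂ) (1 / 2))
  have hu0 : u 0 = fs (F 0) (deriv F 0) / 2 := by simp only [hu, norm_zero]; ring
  have hm : 2 * ((n : ℝ) + 1) < u z₀ := by rw [hu0] at hu0z; linarith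
  set d : ℝ := 1 / 2 - ‖z₀‖ with hd
  have hd0 : 0 ≤ d := by rw [hd]; linarith
  set a : ℝ := fs (F z₀) (deriv F z₀) with ha
  have ha0 : 0 ≤ a := fs_nonneg _ _
  have huz : u z₀ = a * d := rfl
  have hpos : 0 < a * d := by rw [← huz]; linarith
  have hapos : 0 < a := by
    rcases ha0.lt_or_eq with h | h
    · exact h
    · rw [← h] at hpos; simp at hpos
  have hdpos : 0 < d := by
    rcases hd0.lt_or_eq with h | h
    · exact h
    · rw [← h] at hpos; simp at hpos
  have hd2 : d ≤ 1 / 2 := by rw [hd]; linarith [norm_nonneg z₀]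
  have haL : 4 * ((n : ℝ) + 1) < a := by
    have h1 : a * d ≤ a * (1 / 2) := mul_le_mul_of_nonneg_left hd2 ha0
    rw [huz] at hm
    linarith
  set φ : ℂ → ℂ := fun ζ => z₀ + ((a⁻¹ : ℝ) : ℂ) * ζ with hφ
  have hφd : ∀ ζ, HasDerivAt φ ((a⁻¹ : ℝ) : ℂ) ζ := by
    intro ζ
    have := ((hasDerivAt_id ζ).const_mul ((a⁻¹ : ℝ) : ℂ)).const_add z₀
    simpa [hφ] using this
  have hkey : ∀ ζ ∈ ball (0 : ℂ) (n + 1), ‖φ ζ‖ ≤ 1 / 2 - d / 2 := by
    intro ζ hζ
    have hζn : ‖ζ‖ < n + 1 := by simpa using hζ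
    have h1 : ‖φ ζ‖ ≤ ‖z₀‖ + a⁻¹ * ‖ζ‖ := by
      calc ‖φ ζ‖ ≤ ‖z₀‖ + ‖((a⁻¹ : ℝ) : ℂ) * ζ‖ := norm_add_le _ _
        _ = ‖z₀‖ + a⁻¹ * ‖ζ‖ := by
          rw [norm_mul, Complex.norm_real, Real.norm_of_nonneg (by positivity)]
    have h2 : a⁻¹ * ‖ζ‖ ≤ d / 2 := by
      rw [inv_mul_le_iff₀ hapos]
      rw [huz] at hm
      linarith
    have h3 : ‖z₀‖ = 1 / 2 - d := by rw [hd]; ring
    linarith
  have hball : ∀ ζ ∈ ball (0 : ℂ) (n + 1), φ ζ ∈ closedBall (0 : ℂ) (1 / 2) := by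
    intro ζ hζ
    have := hkey ζ hζ
    rw [mem_closedBall_zero_iff]
    linarith
  have hder : ∀ ζ, deriv (fun ζ => F (φ ζ)) ζ = ((a⁻¹ : ℝ) : ℂ) • deriv F (φ ζ) := by
    intro ζ
    exact ((hF (φ ζ)).hasDerivAt.scomp ζ (hφd ζ)).deriv
  have hfs : ∀ ζ, fs (F (φ ζ)) (deriv (fun ζ => F (φ ζ)) ζ) = a⁻¹ * fs (F (φ ζ)) (deriv F (φ ζ)) := by
    intro ζ
    rw [hder, fs_smul_right, Complex.norm_real, Real.norm_of_nonneg (by positivity)]
  have hφ0 : φ 0 = z₀ := by simp [hφ]
  refine ⟨z₀, a, haL, ?_, ?_⟩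
  · have h1 := hfs 0
    rw [hφ0, ← ha, inv_mul_cancel₀ hapos.ne'] at h1
    exact h1
  · intro ζ hζ
    change fs (F (φ ζ)) (deriv (fun ζ => F (φ ζ)) ζ) ≤ 2
    rw [hfs ζ]
    have h1 : u (φ ζ) ≤ u z₀ := hmax (hball ζ hζ)
    have h2 := hkey ζ hζ
    have h3 : fs (F (φ ζ)) (deriv F (φ ζ)) * (1 / 2 - ‖φ ζ‖) ≤ a * d := h1
    have h4 : 0 ≤ fs (F (φ ζ)) (deriv F (φ ζ)) := fs_nonneg _ _
    have h5 : fs (F (φ ζ)) (deriv F (φ ζ)) * (d / 2) ≤ a * d :=
      le_trans (mul_le_mul_of_nonneg_left (by linarith) h4) h3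
    have h6 : fs (F (φ ζ)) (deriv F (φ ζ)) ≤ 2 * a := by
      by_contra hc
      push Not at hc
      have : 2 * a * (d / 2) < fs (F (φ ζ)) (deriv F (φ ζ)) * (d / 2) := mul_lt_mul_of_pos_right hc (by linarith)
      linarith
    rw [inv_mul_le_iff₀ hapos]
    linarith

end Pool.Agent.H62.EF

end

section

/-!
# CV FunF: the function field of a curve in projective space

`FunField Q` is generated over `ℂ` by the finitely many functions `ratio Q i j`.  `exists_tr`: the member of the transcendence basis.  `fin`: let `x` be transcendental.  The transcendence degree is `1`, so `x` is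
a transcendence basis (`AlgebraicIndependent.isTranscendenceBasis_of_trdeg_le_of_finite` or similar, see the proof of `trdeg_lt` in `Pool/Agent/H17BP/TrdegLt.lean`), and `K` is algebraic over
`ℂ(x)` and generated by finitely many elements, so it is finite over `ℂ(x)` (`IntermediateField.finiteDimensional_adjoin`, `IntermediateField.finiteDimensional_of_exists_…`,
`IntermediateField.essFiniteType`, `Algebra.IsAlgebraic` + `Algebra.EssFiniteType` → `Module.Finite`: `Algebra.finite_of_essFiniteType_of_isAlgebraic`-like; there is also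
`Pool.Agent.H23` material with `[Algebra.EssFiniteType ℂ K]`).
-/

set_option autoImplicit false

open MvPolynomial
open Pool.Agent.H17LG.Variety (FunField IsLogGeneralType)

noncomputable section

namespace Pool.Agent.H13.CV

variable {N : ℕ}

private lemma funF_core {K : Type} [Field K] [Algebra ℂ K] (y : Fin (N + 1) → K)
    (hy : IntermediateField.adjoin ℂ (Set.range y) = ⊤) {z : Fin 1 → K} (hz : IsTranscendenceBasis ℂ z) :
    CurveField K := by
  refine ⟨⟨z 0, hz.1.transcendental 0⟩, fun x hx => ?_⟩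
  have hind : AlgebraicIndependent ℂ (fun _ : Fin 1 => x) := algebraicIndependent_unique_type_iff.2 hx
  have h2 := IsTranscendenceBasis.cardinalMk_eq_trdeg (R := ℂ) (A := K) (x := z) hz
  have hbasis : IsTranscendenceBasis ℂ fun _ : Fin 1 => x :=
    hind.isTranscendenceBasis_of_trdeg_le_of_finite h2.ge
  have halg := hbasis.isAlgebraic_field
  have hr : Set.range (fun _ : Fin 1 => x) = {x} := Set.range_const
  rw [hr] at halg
  have hfin : FiniteDimensional (IntermediateField.adjoin ℂ {x})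
      (IntermediateField.adjoin (IntermediateField.adjoin ℂ {x}) (Set.range y)) :=
    IntermediateField.finiteDimensional_adjoin fun u _ => (halg.isAlgebraic u).isIntegral
  have htop : IntermediateField.adjoin (IntermediateField.adjoin ℂ {x}) (Set.range y) = ⊤ := by
    rw [eq_top_iff]
    intro u _
    have hu : u ∈ IntermediateField.adjoin ℂ (Set.range y) := by
      rw [hy]
      exact IntermediateField.mem_top
    have hle : IntermediateField.adjoin ℂ (Set.range y) ≤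
        (IntermediateField.adjoin (IntermediateField.adjoin ℂ {x}) (Set.range y)).restrictScalars ℂ := by
      rw [IntermediateField.adjoin_le_iff]
      exact IntermediateField.subset_adjoin (IntermediateField.adjoin ℂ {x}) (Set.range y)
    exact hle hu
  rw [htop] at hfin
  exact FiniteDimensional.of_surjective
    ((⊤ : IntermediateField (IntermediateField.adjoin ℂ {x}) K).val.toLinearMap)
    (fun u => ⟨⟨u, IntermediateField.mem_top⟩, rfl⟩)

theorem curveField_funField (Q : Ideal (MvPolynomial (Fin (N + 1)) ℂ)) [Q.IsPrime] (hz : ∃ z : Fin 1 → FunField Q, IsTranscendenceBasis ℂ z) :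
    CurveField (FunField Q) := by
  obtain ⟨z, hz⟩ := hz
  obtain ⟨j, hj⟩ := Pool.Agent.H92.GT.Proj.exists_coordFun_ne_zero Q (k := 0) z hz
  obtain ⟨y, -, hygen, -⟩ := Pool.Agent.H92.GT.Proj.proj_point Q hj
  exact funF_core (K := FunField Q) y hygen hz

end Pool.Agent.H13.CV

end
end

section

/-!
# A variety of dimension `0` is a point

`FunField Q` is algebraic over `ℂ` (`IsTranscendenceBasis` with the empty family: e.g.
`IsTranscendenceBasis.isAlgebraic`, the subalgebra adjoined by the empty range is `⊥`), so every element of it is in the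
range of `algebraMap` (`IsAlgClosed.algebraMap_bijective_of_isIntegral` or `IsAlgClosed.algebraMap_surjective_of_isAlgebraic`).
Let `X j ∉ Q`, so `coordFun Q j ≠ 0` (`Pool.Agent.H92.GT.Proj.aeval_coordFun_eq_zero_iff Q (X j)`).
`Pool.Agent.H92.GT.Proj.proj_point Q hj` gives `y` in `functionField Q` with `y j = 1` and `aeval y G = 0 ↔ G ∈ Q` for forms
`G`.  `y i = algebraMap c_i`; the form `X i - C c_i * X j` has `aeval y = y i - c_i y j = 0`, so it is in `Q`, and every point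
`x` of the variety satisfies `x i = c_i * x j`, so `x.rep = x.rep j • c`, `x.rep j ≠ 0`: `x` is the point given by `c`.
-/

open Topology Filter MvPolynomial

noncomputable section

namespace Pool.Agent.H17BP

open Pool.Agent.H17LG.Variety (FunField)
open Pool.Agent.H62.FC (Homog)

variable {N : ℕ} {Q : Ideal (MvPolynomial (Fin (N + 1)) ℂ)}

theorem eq_of_trdeg_zero [Q.IsPrime] (hQ : Homog Q) (hX : ∃ i, (X i : MvPolynomial (Fin (N + 1)) ℂ) ∉ Q)
    (hz : ∃ z : Fin 0 → FunField Q, IsTranscendenceBasis ℂ z) :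
    ∀ x ∈ variety Q, ∀ y ∈ variety Q, x = y := by
  have _ := hQ
  obtain ⟨j, hj⟩ := hX
  obtain ⟨z, hz⟩ := hz
  have hcj : Pool.Agent.H17GT.coordFun Q j ≠ 0 := by
    intro h
    apply hj
    rw [← Pool.Agent.H92.GT.Proj.aeval_coordFun_eq_zero_iff Q (X j), aeval_X]
    exact h
  obtain ⟨y, hy1, -, hker⟩ := Pool.Agent.H92.GT.Proj.proj_point Q hcj
  have halg : Algebra.IsAlgebraic ℂ (FunField Q) := hz.isEmpty_iff_isAlgebraic.1 inferInstance
  have halg' : Algebra.IsAlgebraic ℂ (Pool.Agent.H17GT.functionField Q) := halg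
  have hsurj : Function.Surjective (algebraMap ℂ (Pool.Agent.H17GT.functionField Q)) :=
    (IsAlgClosed.algebraMap_bijective_of_isIntegral (k := ℂ)
      (K := Pool.Agent.H17GT.functionField Q)).2
  choose c hc using fun i => hsurj (y i)
  have hform : ∀ i, (X i - C (c i) * X j : MvPolynomial (Fin (N + 1)) ℂ).IsHomogeneous 1 := by
    intro i
    refine (isHomogeneous_X ℂ i).sub ?_
    have h := (isHomogeneous_C (Fin (N + 1)) (c i)).mul (isHomogeneous_X ℂ j)
    simpa using h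
  have hmem : ∀ i, (X i - C (c i) * X j : MvPolynomial (Fin (N + 1)) ℂ) ∈ Q := by
    intro i
    rw [← hker 1 _ (hform i), map_sub, map_mul, aeval_X, aeval_X, hy1, mul_one, aeval_C, hc i,
      sub_self]
  have hrep : ∀ x ∈ variety Q, x.rep j ≠ 0 ∧ x.rep = x.rep j • c := by
    intro x hx
    have h1 : x.rep = x.rep j • c := by
      funext i
      have h2 : eval x.rep (X i - C (c i) * X j) = 0 := hx.1 _ (hmem i) 1 (hform i)
      rw [map_sub, map_mul, eval_X, eval_X, eval_C, sub_eq_zero] at h2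
      rw [Pi.smul_apply, smul_eq_mul, h2]
      ring
    refine ⟨fun h2 => x.rep_nonzero ?_, h1⟩
    rw [h1, h2, zero_smul]
  intro x hx x' hx'
  obtain ⟨h1, h2⟩ := hrep x hx
  obtain ⟨h3, h4⟩ := hrep x' hx'
  rw [← x.mk_rep, ← x'.mk_rep, Projectivization.mk_eq_mk_iff']
  refine ⟨x.rep j / x'.rep j, ?_⟩
  rw [h4, h2, smul_smul]
  congr 1
  simp only [Pi.smul_apply, smul_eq_mul]
  have h5 : c j ≠ 0 := by
    intro h6
    apply h1
    have := congrFun h2 j
    rw [Pi.smul_apply, smul_eq_mul, h6, mul_zero] at this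
    exact this
  have h6 : c j = 1 := by
    have h7 : algebraMap ℂ (Pool.Agent.H17GT.functionField Q) (c j) = algebraMap ℂ _ 1 := by
      rw [hc j, hy1, map_one]
    exact (algebraMap ℂ (Pool.Agent.H17GT.functionField Q)).injective h7
  rw [h6, mul_one, mul_one]
  exact div_mul_cancel₀ _ h3

end Pool.Agent.H17BP

end
end

section

/-!
# Fermat covers: subvarieties which are not of log general type

The closures of the monomial curves are rational curves stable under a one-parameter group, so they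
are not of log general type.
-/

open MvPolynomial Topology Filter
open Pool.Agent.H17GT (coordFun functionField)
open Pool.Agent.H17LG.Variety (FunField)

noncomputable section

namespace Pool.Agent.H62.FC

variable {N : ℕ} {κ : Type} {A : κ → MvPolynomial (Fin (N + 1)) ℂ} {e : κ → ℕ}
  {O : Finset (Fin (N + 1))} {P : Ideal (MvPolynomial (Fin (N + 1)) ℂ)}

variable {a : Fin (N + 1) → ℂ} {n : Fin (N + 1) → ℤ}

open scoped IntermediateField.algebraAdjoinAdjoin in
lemma exists_fin_basis_aux {K : Type} [Field K] [Algebra ℂ K] {m : ℕ} {x : Fin m → K}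
    (hgen : IntermediateField.adjoin ℂ (Set.range x) = ⊤) :
    ∃ (w : ℕ) (z : Fin w → K), IsTranscendenceBasis ℂ z := by
  have halg : Algebra.IsAlgebraic (IntermediateField.adjoin ℂ (Set.range x)) K := by
    rw [hgen]
    exact ⟨fun f => isAlgebraic_algebraMap (⟨f, IntermediateField.mem_top⟩ :
      (⊤ : IntermediateField ℂ K))⟩
  have h1 : Algebra.IsAlgebraic (Algebra.adjoin ℂ (Set.range x)) K :=
    (IsFractionRing.comap_isAlgebraic_iff (A := Algebra.adjoin ℂ (Set.range x))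
      (K := IntermediateField.adjoin ℂ (Set.range x)) (C := K)).mpr halg
  obtain ⟨u, hu, hub⟩ := exists_isTranscendenceBasis_subset (R := ℂ) (Set.range x)
  have h3 : Finite u := (Set.finite_range x).subset hu
  let eqv : Fin (Nat.card u) ≃ u := (Finite.equivFin u).symm
  refine ⟨Nat.card u, (Subtype.val : u → K) ∘ eqv, ?_⟩
  rw [isTranscendenceBasis_equiv]
  exact hub

/-- The function field of a projective variety has a finite transcendence basis. -/
lemma exists_fin_basis [P.IsPrime] (hne : ∃ i, X i ∉ P) :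
    ∃ (w : ℕ) (z : Fin w → FunField P), IsTranscendenceBasis ℂ z := by
  obtain ⟨j, hj⟩ := hne
  have hj' : coordFun P j ≠ 0 := by
    intro h0
    apply hj
    rw [← Pool.Agent.H92.GT.Proj.aeval_coordFun_eq_zero_iff P (X j), aeval_X]
    exact h0
  obtain ⟨x, -, hgen, -⟩ := Pool.Agent.H92.GT.Proj.proj_point P hj'
  exact exists_fin_basis_aux hgen

end Pool.Agent.H62.FC

end
end

section

/-!
# Fermat covers: the dimension is monotone

For homogeneous prime ideals `P ≤ Q` the transcendence degree of the function field of `Q` is at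
most the transcendence degree of the function field of `P`: coordinates whose ratios are
algebraically independent on the variety of `Q` have the same property on the variety of `P`.
-/

noncomputable section

namespace Pool.Agent.H62.FC

open MvPolynomial
open Pool.Agent.H17GT (coordFun)
open Pool.Agent.H17LG.Variety (FunField)

variable {N : ℕ} {P : Ideal (MvPolynomial (Fin (N + 1)) ℂ)}

/-- Coordinates which are algebraically independent on the smaller variety are so on the larger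
one. -/
private lemma Trdeg_indep {K L : Type} [Field K] [Algebra ℂ K] [Field L] [Algebra ℂ L] {k : ℕ}
    {j : Fin (N + 1)} {x : Fin (N + 1) → K} {y : Fin (N + 1) → L} (hx : x j = 1) (hy : y j = 1)
    (h : ∀ (n : ℕ) (G : MvPolynomial (Fin (N + 1)) ℂ), G.IsHomogeneous n → aeval x G = 0 →
      aeval y G = 0) {J : Fin k → Fin (N + 1)} (hJ : AlgebraicIndependent ℂ fun i => y (J i)) :
    AlgebraicIndependent ℂ fun i => x (J i) := by
  rw [algebraicIndependent_iff] at hJ ⊢
  intro p hp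
  apply hJ
  set Af : Fin (k + 1) → MvPolynomial (Fin (N + 1)) ℂ := Fin.cons (X j) fun i => X (J i) with hAf
  have hAfhom : ∀ i, IsWeightedHomogeneous (1 : Fin (N + 1) → ℕ) (Af i) 1 := by
    intro i
    refine Fin.cases ?_ (fun i => ?_) i
    · exact isHomogeneous_X ℂ j
    · exact isHomogeneous_X ℂ (J i)
  have key : ∀ {K : Type} [Field K] [Algebra ℂ K] {x : Fin (N + 1) → K}, x j = 1 →
      aeval x (Pool.Agent.H92.GT.hmg p Af) = aeval (fun i => x (J i)) p := by
    intro K _ _ x hx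
    rw [Pool.Agent.H92.GT.map_hmg]
    have h0 : aeval x (Af 0) = 1 := by
      change aeval x (X j) = 1
      rw [aeval_X, hx]
    rw [Pool.Agent.H92.GT.hmg_eq p (by rw [h0]; exact one_ne_zero), h0, one_pow, one_mul]
    congr 2
    funext i
    change aeval x (X (J i)) / 1 = x (J i)
    rw [aeval_X, div_one]
  rw [← key hy]
  exact h _ _ (Pool.Agent.H92.GT.hmg_isWeightedHomogeneous p hAfhom) (by rw [key hx, hp])

theorem trdeg_mono [P.IsPrime] {Q : Ideal (MvPolynomial (Fin (N + 1)) ℂ)} [Q.IsPrime]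
    (hP : Homog P) (hQ : Homog Q) (hPQ : P ≤ Q) {r w : ℕ} (hr : ∃ z : Fin r → FunField P,
      IsTranscendenceBasis ℂ z) (hw : ∃ z : Fin w → FunField Q, IsTranscendenceBasis ℂ z) :
    w ≤ r := by
  rcases w with - | w
  · exact Nat.zero_le _
  obtain ⟨z, hz⟩ := hw
  obtain ⟨z', hz'⟩ := hr
  obtain ⟨j, hj⟩ := Pool.Agent.H92.GT.Proj.exists_coordFun_ne_zero Q (k := w) z hz
  have hj' : coordFun P j ≠ 0 := by
    intro h0
    apply hj
    have h1 := (Pool.Agent.H92.GT.Proj.aeval_coordFun_eq_zero_iff P (X j)).1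
      (by rw [aeval_X]; exact h0)
    have h2 := (Pool.Agent.H92.GT.Proj.aeval_coordFun_eq_zero_iff Q (X j)).2 (hPQ h1)
    rwa [aeval_X] at h2
  obtain ⟨y, hy1, hygen, hyker⟩ := Pool.Agent.H92.GT.Proj.proj_point Q hj
  obtain ⟨x, hx1, -, hxker⟩ := Pool.Agent.H92.GT.Proj.proj_point P hj'
  have halg : Algebra.IsAlgebraic (IntermediateField.adjoin ℂ (Set.range y))
      (H17GT.functionField Q) := by
    rw [hygen]
    exact ⟨fun f => isAlgebraic_algebraMap (⟨f, IntermediateField.mem_top⟩ :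
      (⊤ : IntermediateField ℂ (H17GT.functionField Q)))⟩
  obtain ⟨J, hJ⟩ := Pool.Agent.H92.GT.exists_index halg (z := z) hz
  have hind : AlgebraicIndependent ℂ fun i => x (J i) :=
    Trdeg_indep hx1 hy1 (fun n G hG h => (hyker n G hG).2 (hPQ ((hxker n G hG).1 h))) hJ.1
  have h1 := hind.cardinalMk_le_trdeg
  have h2 := IsTranscendenceBasis.cardinalMk_eq_trdeg (R := ℂ) (A := H17GT.functionField P)
    (x := z') hz'
  rw [← h2, Cardinal.mk_fin, Cardinal.mk_fin, Nat.cast_le] at h1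
  exact h1

end Pool.Agent.H62.FC

end
end

section

/-!
# The dimension of a proper closed subvariety is smaller

Start as in the proof of `trdeg_mono` (`Pool/Agent/H62/FC/Trdeg.lean`): `j` with `coordFun Q j ≠ 0` (from `hX`:
`aeval_coordFun_eq_zero_iff Q (X j)`), so `coordFun P j ≠ 0`; `proj_point` gives `y` in `K_Q = functionField Q` and `x` in
`K_P = functionField P` with `y j = 1`, `x j = 1`, and `aeval y G = 0 ↔ G ∈ Q`, `aeval x G = 0 ↔ G ∈ P` for forms `G`;
`exists_index` (needs `halg`) gives `J : Fin w → Fin (N + 1)` such that `y ∘ J` is a transcendence basis of `K_Q`, and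
`x ∘ J` is algebraically independent (`Trdeg_indep` is private there: copy it).

(a) For ALL polynomials `H` (not only forms): `aeval x H = 0 → aeval y H = 0`: let `d` be the total degree of `H`; the form
`H' = ∑ k ≤ d, X j ^ (d - k) * homogeneousComponent k H` has degree `d` and `aeval x H' = aeval x H` as `x j = 1`, the same for
`y` (`sum_homogeneousComponent`).  So `H' ∈ P ≤ Q` and `aeval y H = 0`.

(b) By `trdeg_mono`, `w ≤ r`.  Suppose `w = r`.  There is `F ∈ Q`, `F ∉ P`, and by `Homog Q` one may take `F` a form (some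
homogeneous component of `F` is not in `P`, all are in `Q`).  `f = aeval x F ≠ 0` and `aeval y F = 0`.  `f` is algebraic
over `A = Algebra.adjoin ℂ (range (x ∘ J))`, because `x ∘ J` is algebraically independent with `w = r = trdeg` elements
(otherwise `f` together with `x ∘ J` would be algebraically independent with `r + 1` elements:
`AlgebraicIndependent.cardinalMk_le_trdeg`; or: a finite algebraically independent family with `trdeg` elements is a
transcendence basis).  As `f ≠ 0` and `A` is a domain: there is a polynomial `q` over `A` with `q.coeff 0 ≠ 0` and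
`aeval f q = 0` (`exists_nonzero_coeff_and_aeval_eq_zero`).  Every coefficient of `q` is `aeval (x ∘ J) (c i)` with
`c i : MvPolynomial (Fin w) ℂ`, `c 0 ≠ 0`.  Let `H = ∑ i, rename J (c i) * F ^ i`: `aeval x H = 0`, so by (a)
`aeval y H = 0`; but `aeval y F = 0`, so `aeval y H = aeval (y ∘ J) (c 0) ≠ 0` (independence of `y ∘ J`): contradiction.
-/

open MvPolynomial
open Pool.Agent.H17GT (coordFun)
open Pool.Agent.H17LG.Variety (FunField)
open Pool.Agent.H62.FC (Homog trdeg_mono)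

noncomputable section

namespace Pool.Agent.H17BP

variable {N : ℕ} {P Q : Ideal (MvPolynomial (Fin (N + 1)) ℂ)}

/-- Coordinates which are algebraically independent on the smaller variety are so on the larger
one. -/
private lemma TrdegLt_indep {K L : Type} [Field K] [Algebra ℂ K] [Field L] [Algebra ℂ L] {k : ℕ}
    {x : Fin (N + 1) → K} {y : Fin (N + 1) → L}
    (h : ∀ G : MvPolynomial (Fin (N + 1)) ℂ, aeval x G = 0 → aeval y G = 0)
    {J : Fin k → Fin (N + 1)} (hJ : AlgebraicIndependent ℂ fun i => y (J i)) :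
    AlgebraicIndependent ℂ fun i => x (J i) := by
  rw [algebraicIndependent_iff] at hJ ⊢
  intro p hp
  apply hJ
  have h1 : aeval y (rename J p) = 0 := by
    apply h
    rw [aeval_rename]
    exact hp
  rw [aeval_rename] at h1
  exact h1

private lemma TrdegLt_hom {K L : Type} [Field K] [Algebra ℂ K] [Field L] [Algebra ℂ L]
    {j : Fin (N + 1)} {x : Fin (N + 1) → K} {y : Fin (N + 1) → L} (hx : x j = 1) (hy : y j = 1)
    (h : ∀ (n : ℕ) (G : MvPolynomial (Fin (N + 1)) ℂ), G.IsHomogeneous n → aeval x G = 0 →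
      aeval y G = 0) (H : MvPolynomial (Fin (N + 1)) ℂ) (hH : aeval x H = 0) : aeval y H = 0 := by
  have key : ∀ {K : Type} [Field K] [Algebra ℂ K] {x : Fin (N + 1) → K}, x j = 1 →
      aeval x (∑ k ∈ Finset.range (H.totalDegree + 1),
        X j ^ (H.totalDegree - k) * homogeneousComponent k H) = aeval x H := by
    intro K _ _ x hx
    conv_rhs => rw [← MvPolynomial.sum_homogeneousComponent H]
    rw [map_sum, map_sum]
    refine Finset.sum_congr rfl fun k _ => ?_
    rw [map_mul, map_pow, aeval_X, hx, one_pow, one_mul]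
  rw [← key hy]
  refine h H.totalDegree _ ?_ (by rw [key hx, hH])
  apply MvPolynomial.IsHomogeneous.sum
  intro d hd
  have h1 : d ≤ H.totalDegree := Nat.lt_succ_iff.1 (Finset.mem_range.1 hd)
  have h2 := (MvPolynomial.isHomogeneous_X_pow (R := ℂ) j (H.totalDegree - d)).mul
    (MvPolynomial.homogeneousComponent_isHomogeneous d H)
  rwa [Nat.sub_add_cancel h1] at h2

private lemma TrdegLt_core {K L : Type} [Field K] [Algebra ℂ K] [Field L] [Algebra ℂ L] {w : ℕ}
    {x : Fin (N + 1) → K} {y : Fin (N + 1) → L} {J : Fin w → Fin (N + 1)}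
    (hxJ : IsTranscendenceBasis ℂ fun i => x (J i)) (hyJ : AlgebraicIndependent ℂ fun i => y (J i))
    (hxy : ∀ H : MvPolynomial (Fin (N + 1)) ℂ, aeval x H = 0 → aeval y H = 0)
    {F : MvPolynomial (Fin (N + 1)) ℂ} (hF : aeval x F ≠ 0) (hF' : aeval y F = 0) : False := by
  have halg := hxJ.isAlgebraic
  obtain ⟨q, hq0, hq⟩ := (halg.isAlgebraic (aeval x F)).exists_nonzero_coeff_and_aeval_eq_zero
    (mem_nonZeroDivisors_of_ne_zero hF)
  have hc : ∀ u : Algebra.adjoin ℂ (Set.range fun i => x (J i)),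
      ∃ c : MvPolynomial (Fin w) ℂ, aeval (fun i => x (J i)) c = (u : K) := by
    have h1 : ∀ u ∈ Algebra.adjoin ℂ (Set.range fun i => x (J i)),
        ∃ c : MvPolynomial (Fin w) ℂ, aeval (fun i => x (J i)) c = u := by
      intro u hu
      rw [Algebra.adjoin_range_eq_range_aeval] at hu
      exact hu
    exact fun u => h1 _ u.2
  choose c hc using hc
  have h1 : aeval x (∑ i ∈ Finset.range (q.natDegree + 1), rename J (c (q.coeff i)) * F ^ i) = 0 := by
    rw [map_sum, ← hq, Polynomial.aeval_eq_sum_range]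
    refine Finset.sum_congr rfl fun i _ => ?_
    rw [map_mul, map_pow, aeval_rename, Algebra.smul_def]
    congr 1
    exact hc _
  have h2 := hxy _ h1
  rw [map_sum, Finset.sum_range_succ', Finset.sum_eq_zero, zero_add, map_mul, map_pow, pow_zero,
    mul_one, aeval_rename] at h2
  · rw [algebraicIndependent_iff] at hyJ
    have h3 : c (q.coeff 0) = 0 := hyJ _ h2
    have h4 := hc (q.coeff 0)
    rw [h3, map_zero] at h4
    exact hq0 (Subtype.ext h4.symm)
  · intro i _
    rw [map_mul, map_pow, hF', zero_pow (Nat.succ_ne_zero i), mul_zero]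

theorem trdeg_lt [P.IsPrime] [Q.IsPrime] (hP : Homog P) (hQ : Homog Q) (hPQ : P ≤ Q) (hne : ¬ Q ≤ P)
    (hX : ∃ i, (X i : MvPolynomial (Fin (N + 1)) ℂ) ∉ Q) {r w : ℕ}
    (hr : ∃ z : Fin r → FunField P, IsTranscendenceBasis ℂ z)
    (hw : ∃ z : Fin w → FunField Q, IsTranscendenceBasis ℂ z) : w < r := by
  refine lt_of_le_of_ne (trdeg_mono hP hQ hPQ hr hw) ?_
  rintro rfl
  obtain ⟨z, hz⟩ := hw
  obtain ⟨z', hz'⟩ := hr
  obtain ⟨j, hj0⟩ := hX
  have hj : coordFun Q j ≠ 0 := by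
    intro h0
    exact hj0 ((Pool.Agent.H92.GT.Proj.aeval_coordFun_eq_zero_iff Q (X j)).1
      (by rw [aeval_X]; exact h0))
  have hj' : coordFun P j ≠ 0 := by
    intro h0
    apply hj
    have h1 := (Pool.Agent.H92.GT.Proj.aeval_coordFun_eq_zero_iff P (X j)).1
      (by rw [aeval_X]; exact h0)
    have h2 := (Pool.Agent.H92.GT.Proj.aeval_coordFun_eq_zero_iff Q (X j)).2 (hPQ h1)
    rwa [aeval_X] at h2
  obtain ⟨y, hy1, hygen, hyker⟩ := Pool.Agent.H92.GT.Proj.proj_point Q hj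
  obtain ⟨x, hx1, -, hxker⟩ := Pool.Agent.H92.GT.Proj.proj_point P hj'
  have halg : Algebra.IsAlgebraic (IntermediateField.adjoin ℂ (Set.range y))
      (H17GT.functionField Q) := by
    rw [hygen]
    exact ⟨fun f => isAlgebraic_algebraMap (⟨f, IntermediateField.mem_top⟩ :
      (⊤ : IntermediateField ℂ (H17GT.functionField Q)))⟩
  obtain ⟨J, hJ⟩ := Pool.Agent.H92.GT.exists_index halg (z := z) hz
  have hxy : ∀ H : MvPolynomial (Fin (N + 1)) ℂ, aeval x H = 0 → aeval y H = 0 :=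
    TrdegLt_hom hx1 hy1 fun n G hG h => (hyker n G hG).2 (hPQ ((hxker n G hG).1 h))
  have hind : AlgebraicIndependent ℂ fun i => x (J i) := TrdegLt_indep hxy hJ.1
  have h2 := IsTranscendenceBasis.cardinalMk_eq_trdeg (R := ℂ) (A := H17GT.functionField P)
    (x := z') hz'
  have hbasis : IsTranscendenceBasis ℂ fun i => x (J i) :=
    hind.isTranscendenceBasis_of_trdeg_le_of_finite h2.ge
  obtain ⟨F₀, hF₀Q, hF₀P⟩ := Set.not_subset.1 hne
  obtain ⟨n, hn⟩ : ∃ n, homogeneousComponent n F₀ ∉ P := by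
    by_contra hcon
    push Not at hcon
    apply hF₀P
    change F₀ ∈ P
    rw [← MvPolynomial.sum_homogeneousComponent F₀]
    exact Ideal.sum_mem _ fun i _ => hcon i
  have hFQ := hQ F₀ hF₀Q n
  exact TrdegLt_core hbasis hJ.1 hxy
    (fun h => hn ((hxker n _ (homogeneousComponent_isHomogeneous n F₀)).1 h))
    ((hyker n _ (homogeneousComponent_isHomogeneous n F₀)).2 hFQ)

end Pool.Agent.H17BP

end
end

section

/-!
# G3 R DT: the derivative is bounded by the characteristic function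

Plan.  Let `v` be the component of `F' 0` orthogonal to `F 0` (`v = F' 0 - (⟨F 0, F' 0⟩ / ‖F 0‖²) F 0`), `fs (F 0) (F' 0) = ‖v‖ / ‖F 0‖` (`wd`).  If `v = 0` trivial.  `g z = ⟨v, F z⟩ / ‖v‖` is holomorphic,
`g 0 = 0`, `g' 0 = ‖v‖`, `|g z| ≤ ‖F z‖`; `g z / z` (`dslope g 0`) is holomorphic with the value `‖v‖` at `0`, so `log ‖v‖ ≤ avg log |g z / z| ≤ avg log ‖F‖ - log r` (`log_norm_le_avg` of `G3/C/LemmaU` with
the continuous majorant `log ‖F‖ - log r`).
-/

set_option autoImplicit false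

open Topology Filter Metric

namespace Pool.Agent.G3

open Pool.Agent.H36.BP (EN fs wd Sub)
open Pool.Agent.H14.PP (IsCone CurveAt Tan)
open Pool.Agent.H62.EF (MN pr)
open Pool.Agent.AD (Vd Chart Charts)
open Pool.Agent.TG (TMap Lat Geo Gd)

theorem fs_le_TT {N : ℕ} {F : ℂ → EN N} {R r : ℝ} (hr : 0 < r) (hR : r < R) (hF : DifferentiableOn ℂ F (ball 0 R)) (h0 : ∀ z ∈ ball (0 : ℂ) R, F z ≠ 0) :
    fs (F 0) (deriv F 0) ≤ Real.exp (TT F 0 r) / r := by
  have hR0 : 0 < R := hr.trans hR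
  have h00 : (0 : ℂ) ∈ ball (0 : ℂ) R := mem_ball_self hR0
  have hx : F 0 ≠ 0 := h0 0 h00
  have hnx : 0 < ‖F 0‖ := norm_pos_iff.mpr hx
  set b : ℂ := inner ℂ (F 0) (deriv F 0) / ((‖F 0‖ : ℝ) : ℂ) ^ 2 with hb
  set v : EN N := deriv F 0 - b • F 0 with hv
  have hxx : (inner ℂ (F 0) (F 0) : ℂ) = ((‖F 0‖ : ℝ) : ℂ) ^ 2 := inner_self_eq_norm_sq_to_K (F 0)
  have hnxC : ((‖F 0‖ : ℝ) : ℂ) ^ 2 ≠ 0 := pow_ne_zero 2 (Complex.ofReal_ne_zero.mpr hnx.ne')
  have hxv : (inner ℂ (F 0) v : ℂ) = 0 := by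
    rw [hv, inner_sub_right, inner_smul_right, hxx, hb, div_mul_cancel₀ _ hnxC, sub_self]
  have hvx : (inner ℂ v (F 0) : ℂ) = 0 := by
    rw [← inner_conj_symm, hxv, map_zero]
  have hwd : wd (F 0) (deriv F 0) = ‖F 0‖ * ‖v‖ := by
    have h1 := Pool.Agent.H36.BP.wd_inv (F 0) v 1 b
    have h2 : (1 : ℂ) • v + b • F 0 = deriv F 0 := by rw [hv]; simp
    rw [h2, one_smul, norm_one, one_pow, one_mul] at h1
    rw [h1]
    have h3 := Pool.Agent.H36.BP.wd_sq (F 0) v
    rw [hxv, norm_zero] at h3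
    have h4 : wd (F 0) v ^ 2 = (‖F 0‖ * ‖v‖) ^ 2 := by rw [h3]; ring
    exact (pow_left_inj₀ (Pool.Agent.H36.BP.wd_nonneg _ _) (by positivity) two_ne_zero).mp h4
  have hfs : fs (F 0) (deriv F 0) = ‖v‖ / ‖F 0‖ := by
    rw [fs, hwd]
    field_simp
  rw [hfs]
  by_cases hv0 : v = 0
  · rw [hv0, norm_zero, zero_div]
    positivity
  have hnv : 0 < ‖v‖ := norm_pos_iff.mpr hv0
  set g : ℂ → ℂ := fun z => inner ℂ (((‖v‖⁻¹ : ℝ) : ℂ) • v) (F z) with hg
  have hunit : ‖((‖v‖⁻¹ : ℝ) : ℂ) • v‖ = 1 := by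
    rw [norm_smul, Complex.norm_real, Real.norm_eq_abs, abs_of_pos (inv_pos.mpr hnv), inv_mul_cancel₀ hnv.ne']
  have hgd : DifferentiableOn ℂ g (ball 0 R) := by
    have := (innerSL ℂ (((‖v‖⁻¹ : ℝ) : ℂ) • v)).differentiable.comp_differentiableOn hF
    exact this
  have hg0 : g 0 = 0 := by
    simp only [hg, inner_smul_left, hvx, mul_zero]
  have hg1 : deriv g 0 = (‖v‖ : ℂ) := by
    have hF0 : HasDerivAt F (deriv F 0) 0 := (hF.differentiableAt (isOpen_ball.mem_nhds h00)).hasDerivAt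
    have h1 : HasDerivAt g (innerSL ℂ (((‖v‖⁻¹ : ℝ) : ℂ) • v) (deriv F 0)) 0 :=
      (innerSL ℂ (((‖v‖⁻¹ : ℝ) : ℂ) • v)).hasFDerivAt.comp_hasDerivAt 0 hF0
    rw [h1.deriv, innerSL_apply_apply]
    have h2 : deriv F 0 = v + b • F 0 := by rw [hv]; simp
    rw [h2, inner_add_right, inner_smul_right, inner_smul_left, inner_smul_left, hvx, mul_zero, mul_zero, add_zero,
      inner_self_eq_norm_sq_to_K, Complex.conj_ofReal]
    have hvC : ((‖v‖ : ℝ) : ℂ) ≠ 0 := Complex.ofReal_ne_zero.mpr hnv.ne'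
    push_cast
    field_simp
    rfl
  have hgb : ∀ z, ‖g z‖ ≤ ‖F z‖ := by
    intro z
    have := norm_inner_le_norm (𝕜 := ℂ) (((‖v‖⁻¹ : ℝ) : ℂ) • v) (F z)
    rwa [hunit, one_mul] at this
  have hball : closedBall (0 : ℂ) r ⊆ ball 0 R := closedBall_subset_ball hR
  have hPd : DifferentiableOn ℂ (dslope g 0) (ball 0 R) :=
    (Complex.differentiableOn_dslope (isOpen_ball.mem_nhds h00)).mpr hgd
  have hPa : AnalyticOnNhd ℂ (dslope g 0) (closedBall 0 r) := (hPd.analyticOnNhd isOpen_ball).mono hball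
  have hP0 : dslope g 0 0 = (‖v‖ : ℂ) := by rw [dslope_same, hg1]
  have hPne : dslope g 0 0 ≠ 0 := by
    rw [hP0]
    exact Complex.ofReal_ne_zero.mpr hnv.ne'
  have hsph : sphere (0 : ℂ) r ⊆ ball 0 R := sphere_subset_closedBall.trans hball
  have hcF : ContinuousOn (fun z => Real.log ‖F z‖) (sphere 0 r) := by
    apply ContinuousOn.log ((hF.continuousOn.mono hsph).norm)
    intro z hz
    exact (norm_pos_iff.mpr (h0 z (hsph hz))).ne'
  have hcG : ContinuousOn (fun z => Real.log ‖F z‖ - Real.log r) (sphere 0 r) := hcF.sub continuousOn_const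
  have hle : ∀ z ∈ sphere (0 : ℂ) r, ‖dslope g 0 z‖ ≤ Real.exp (Real.log ‖F z‖ - Real.log r) := by
    intro z hz
    have hzr : ‖z‖ = r := by simpa using hz
    have hz0 : z ≠ 0 := by
      intro h
      rw [h, norm_zero] at hzr
      exact hr.ne hzr
    rw [dslope_of_ne _ hz0, slope_def_field, hg0, sub_zero, sub_zero, norm_div, hzr, Real.exp_sub, Real.exp_log hr,
      Real.exp_log (norm_pos_iff.mpr (h0 z (hsph hz)))]
    exact div_le_div_of_nonneg_right (hgb z) hr.le
  have hkey := Pool.Agent.G3.C.log_norm_le_avg hr hPa hPne hcG hle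
  have har : |r| = r := abs_of_pos hr
  have hci : CircleIntegrable (fun z => Real.log ‖F z‖) 0 r := by
    apply ContinuousOn.circleIntegrable hr.le hcF
  have hav : Real.circleAverage (fun z => Real.log ‖F z‖ - Real.log r) 0 r =
      Real.circleAverage (fun z => Real.log ‖F z‖) 0 r - Real.log r := by
    rw [Real.circleAverage_fun_sub hci (circleIntegrable_const _ _ _), Real.circleAverage_const]
  rw [hav, hP0, Complex.norm_real, Real.norm_eq_abs, abs_of_pos hnv] at hkey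
  have hTT : Real.log (‖v‖ / ‖F 0‖) ≤ TT F 0 r - Real.log r := by
    rw [Real.log_div hnv.ne' hnx.ne', TT]
    linarith
  calc ‖v‖ / ‖F 0‖ = Real.exp (Real.log (‖v‖ / ‖F 0‖)) := (Real.exp_log (by positivity)).symm
    _ ≤ Real.exp (TT F 0 r - Real.log r) := Real.exp_le_exp.mpr hTT
    _ = Real.exp (TT F 0 r) / r := by rw [Real.exp_sub, Real.exp_log hr]

end Pool.Agent.G3

end
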