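import Pool.Agent.H94.G5T.M17
import Pool.Agent.H94.G5T.M28
import Pool.Agent.H94.G5T.M34
import Pool.Agent.H94.G5T.M70

/-! The parts of this file: G4.RE.Riem, G3.C.HankelU, H17BP.MapIdeal, G3.C.HankelJ. -/

section

/-!
# G4 RE Riem: a quotient which is bounded is holomorphic

Let `x₁` near `x₀` with `c x₁ ≠ 0`, `v = x₁ - x₀`: `z ↦ c (x₀ + z v)` is not `0` near `z = 0` (identity theorem on a disc), so it is not `0` on a small circle `‖z‖ = ρ`, and then `c (x + z v) ≠ 0` there for all `x` near `x₀`.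
`s (x, t) = (2 π i)⁻¹ ∮ N (x + z v, t) / c (x + z v) dz / z`, analytic (`H22.HF.analyticAt_circleIntegral`).  If `c x ≠ 0`: `z ↦ N (x + z v, t) / c (x + z v)` is bounded and holomorphic on the disc off finitely many points `≠ 0`, so it extends
(`Complex.differentiableOn_update_limUnder_of_bddAbove`, near each of the points), and `s (x, t) = N (x, t) / c x` by Cauchy.  If `c x = 0` both sides are `0` (`hb`).
-/

set_option autoImplicit false

open Topology Filter Metric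

namespace Pool.Agent.G4.RE

/-- Cauchy's formula at the centre for a bounded quotient. -/
private theorem riem_disc {f g : ℂ → ℂ} {ρ K : ℝ} (hρ : 0 < ρ) (hf : ∀ z ∈ closedBall (0 : ℂ) ρ, AnalyticAt ℂ f z) (hg : ∀ z ∈ closedBall (0 : ℂ) ρ, AnalyticAt ℂ g z)
    (h0 : ∀ z ∈ sphere (0 : ℂ) ρ, g z ≠ 0) (hb : ∀ᶠ z in 𝓝ˢ (closedBall (0 : ℂ) ρ), ‖f z‖ ≤ K * ‖g z‖) (hg0 : g 0 ≠ 0) :
    (∮ z in C(0, ρ), (f z / g z) / z) = 2 * Real.pi * Complex.I * (f 0 / g 0) := by
  classical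
  have hne : ∀ z ∈ closedBall (0 : ℂ) ρ, ∀ᶠ w in 𝓝[≠] z, g w ≠ 0 := by
    intro z hz
    rcases (hg z hz).eventually_eq_zero_or_eventually_ne_zero with h | h
    · exfalso
      have h1 := AnalyticOnNhd.eqOn_zero_of_preconnected_of_eventuallyEq_zero (f := g) (U := closedBall (0 : ℂ) ρ) hg
        (convex_closedBall (0 : ℂ) ρ).isPreconnected hz h
      exact hg0 (h1 (mem_closedBall_self hρ.le))
    · exact h
  set q : ℂ → ℂ := fun z => f z / g z with hq
  set G : ℂ → ℂ := fun z => if g z = 0 then limUnder (𝓝[≠] z) q else q z with hG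
  have hGd : ∀ z ∈ closedBall (0 : ℂ) ρ, DifferentiableAt ℂ G z := by
    intro z hz
    have hfz : ∀ᶠ w in 𝓝 z, AnalyticAt ℂ f w := (hf z hz).eventually_analyticAt
    have hgz : ∀ᶠ w in 𝓝 z, AnalyticAt ℂ g w := (hg z hz).eventually_analyticAt
    by_cases hz0 : g z = 0
    · have hbz : ∀ᶠ w in 𝓝 z, ‖f w‖ ≤ K * ‖g w‖ := (eventually_nhdsSet_iff_forall.1 hb) z hz
      have h1 : ∀ᶠ w in 𝓝 z, w ≠ z → g w ≠ 0 := eventually_nhdsWithin_iff.1 (hne z hz)
      obtain ⟨ε, hε, h2⟩ := Metric.eventually_nhds_iff_ball.1 (((hfz.and hgz).and hbz).and h1)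
      have hd : DifferentiableOn ℂ q (ball z ε \ {z}) := by
        intro w hw
        have h3 := h2 w hw.1
        exact (h3.1.1.1.differentiableAt.div h3.1.1.2.differentiableAt (h3.2 hw.2)).differentiableWithinAt
      have hbd : BddAbove (norm ∘ q '' (ball z ε \ {z})) := by
        refine ⟨K, ?_⟩
        rintro _ ⟨w, hw, rfl⟩
        have h3 := h2 w hw.1
        have h4 : 0 < ‖g w‖ := norm_pos_iff.2 (h3.2 hw.2)
        simp only [Function.comp, hq, norm_div]
        rw [div_le_iff₀ h4]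
        exact h3.1.2
      have h5 := Complex.differentiableOn_update_limUnder_of_bddAbove (ball_mem_nhds z hε) hd hbd
      have h6 : DifferentiableAt ℂ (Function.update q z (limUnder (𝓝[≠] z) q)) z :=
        h5.differentiableAt (ball_mem_nhds z hε)
      refine h6.congr_of_eventuallyEq ?_
      filter_upwards [ball_mem_nhds z hε] with w hw
      by_cases hwz : w = z
      · subst hwz
        rw [Function.update_self]
        simp only [hG, if_pos hz0]
      · rw [Function.update_of_ne hwz]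
        simp only [hG, if_neg ((h2 w hw).2 hwz)]
    · have h1 : ∀ᶠ w in 𝓝 z, g w ≠ 0 := (hg z hz).continuousAt.eventually_ne hz0
      have h2 : DifferentiableAt ℂ q z := (hf z hz).differentiableAt.div (hg z hz).differentiableAt hz0
      refine h2.congr_of_eventuallyEq ?_
      filter_upwards [h1] with w hw
      simp only [hG, if_neg hw]
  have hdc : DiffContOnCl ℂ G (ball 0 ρ) := by
    refine DifferentiableOn.diffContOnCl ?_
    rw [closure_ball _ hρ.ne']
    exact fun z hz => (hGd z hz).differentiableWithinAt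
  have h1 := hdc.circleIntegral_sub_inv_smul (mem_ball_self hρ)
  have h2 : (∮ z in C(0, ρ), (f z / g z) / z) = ∮ z in C(0, ρ), (z - 0)⁻¹ • G z := by
    refine circleIntegral.integral_congr hρ.le ?_
    intro z hz
    have h3 := h0 z hz
    simp only [hG, if_neg h3, hq, sub_zero, smul_eq_mul]
    rw [div_eq_mul_inv (f z / g z) z, mul_comm]
  rw [h2, h1, smul_eq_mul]
  simp only [hG, if_neg hg0, hq]

variable {E : Type} [NormedAddCommGroup E] [NormedSpace ℂ E] [FiniteDimensional ℂ E]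

theorem riem {c : E → ℂ} {N : E × ℂ → ℂ} {U : Set E} (hU : IsOpen U) {x₀ : E} (hx : x₀ ∈ U) (hc : ∀ x ∈ U, AnalyticAt ℂ c x) (hN : ∀ x ∈ U, ∀ t : ℂ, AnalyticAt ℂ N (x, t)) (hne : ∃ᶠ x in 𝓝 x₀, c x ≠ 0) {C : ℂ → ℝ}
    (hb : ∀ x ∈ U, ∀ t : ℂ, ‖N (x, t)‖ ≤ C t * ‖c x‖) : ∃ δ : ℝ, 0 < δ ∧ ball x₀ δ ⊆ U ∧ ∃ s : E × ℂ → ℂ, ∀ x ∈ ball x₀ δ, ∀ t : ℂ, AnalyticAt ℂ s (x, t) ∧ s (x, t) * c x = N (x, t) := by
  classical
  obtain ⟨R, hR, hRU⟩ := Metric.isOpen_iff.1 hU x₀ hx
  obtain ⟨x₁, hx₁c, hx₁⟩ : ∃ x₁, c x₁ ≠ 0 ∧ x₁ ∈ ball x₀ (R / 2) :=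
    (hne.and_eventually (ball_mem_nhds x₀ (half_pos hR))).exists
  obtain ⟨v, hv⟩ : ∃ v : E, v = x₁ - x₀ := ⟨_, rfl⟩
  have hvn : ‖v‖ < R / 2 := by
    rw [hv, ← dist_eq_norm]
    exact hx₁
  have hmem : ∀ x ∈ ball x₀ (R / 2), ∀ z : ℂ, ‖z‖ ≤ 1 → x + z • v ∈ U := by
    intro x hx z hz
    refine hRU ?_
    rw [mem_ball, dist_eq_norm] at hx ⊢
    have h1 : x + z • v - x₀ = (x - x₀) + z • v := by abel
    rw [h1]
    have h2 : ‖z • v‖ ≤ ‖v‖ := by
      rw [norm_smul]
      exact mul_le_of_le_one_left (norm_nonneg _) hz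
    linarith [norm_add_le (x - x₀) (z • v)]
  have hx₀ : x₀ ∈ ball x₀ (R / 2) := mem_ball_self (half_pos hR)
  have hlin : ∀ x : E, ∀ z : ℂ, AnalyticAt ℂ (fun w : ℂ => x + w • v) z := by
    intro x z
    fun_prop
  have hline : ∀ x : E, ∀ z : ℂ, x + z • v ∈ U → AnalyticAt ℂ (fun w : ℂ => c (x + w • v)) z := by
    intro x z h
    exact (hc _ h).fun_comp_of_eq (hlin x z) rfl
  have h0 : ∀ᶠ z in 𝓝[≠] (0 : ℂ), c (x₀ + z • v) ≠ 0 := by
    have h00 : x₀ + (0 : ℂ) • v ∈ U := hmem x₀ hx₀ 0 (by simp)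
    rcases (hline x₀ 0 h00).eventually_eq_zero_or_eventually_ne_zero with h | h
    · exfalso
      have h1 := AnalyticOnNhd.eqOn_zero_of_preconnected_of_eventuallyEq_zero (f := fun w : ℂ => c (x₀ + w • v))
        (U := closedBall (0 : ℂ) 1) (fun z hz => hline x₀ z (hmem x₀ hx₀ z (by simpa using hz)))
        (convex_closedBall (0 : ℂ) 1).isPreconnected (mem_closedBall_self zero_le_one) h
      have h2 : (1 : ℂ) ∈ closedBall (0 : ℂ) 1 := by simp
      have h3 := h1 h2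
      simp only [one_smul, Pi.zero_apply] at h3
      refine hx₁c ?_
      rw [← h3, hv]
      congr 1
      abel
    · exact h
  obtain ⟨ρ, hρ0, hρ1, hρ⟩ : ∃ ρ : ℝ, 0 < ρ ∧ ρ ≤ 1 ∧ ∀ z ∈ sphere (0 : ℂ) ρ, c (x₀ + z • v) ≠ 0 := by
    have h1 : ∀ᶠ z in 𝓝 (0 : ℂ), z ≠ 0 → c (x₀ + z • v) ≠ 0 := eventually_nhdsWithin_iff.1 h0
    obtain ⟨ε, hε, h2⟩ := Metric.eventually_nhds_iff_ball.1 h1
    have h3 : 0 < min (ε / 2) 1 := lt_min (half_pos hε) one_pos
    refine ⟨min (ε / 2) 1, h3, min_le_right _ _, fun z hz => ?_⟩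
    have hz' : ‖z‖ = min (ε / 2) 1 := by simpa using hz
    refine h2 z ?_ ?_
    · rw [mem_ball_zero_iff, hz']
      exact lt_of_le_of_lt (min_le_left _ _) (half_lt_self hε)
    · intro h4
      rw [h4, norm_zero] at hz'
      linarith
  have hball : ∀ z ∈ closedBall (0 : ℂ) ρ, ‖z‖ ≤ 1 := by
    intro z hz
    have h1 : ‖z‖ ≤ ρ := by simpa using hz
    linarith
  obtain ⟨δ, hδ0, hδR, hδ⟩ : ∃ δ : ℝ, 0 < δ ∧ δ ≤ R / 2 ∧ ∀ x ∈ ball x₀ δ, ∀ z ∈ sphere (0 : ℂ) ρ, c (x + z • v) ≠ 0 := by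
    have h1 : ∀ᶠ x in 𝓝 x₀, ∀ z ∈ sphere (0 : ℂ) ρ, c (x + z • v) ≠ 0 := by
      refine IsCompact.eventually_forall_of_forall_eventually (isCompact_sphere (0 : ℂ) ρ) ?_
      intro z hz
      have h2 : ContinuousAt (fun p : E × ℂ => c (p.1 + p.2 • v)) (x₀, z) := by
        have h3 : ContinuousAt c (x₀ + z • v) := (hc _ (hmem x₀ hx₀ z (hball z (sphere_subset_closedBall hz)))).continuousAt
        have h4 : ContinuousAt (fun p : E × ℂ => p.1 + p.2 • v) (x₀, z) := by fun_prop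
        exact ContinuousAt.comp (f := fun p : E × ℂ => p.1 + p.2 • v) (g := c) h3 h4
      exact h2.eventually_ne (hρ z hz)
    obtain ⟨ε, hε, h2⟩ := Metric.eventually_nhds_iff_ball.1 h1
    refine ⟨min ε (R / 2), lt_min hε (half_pos hR), min_le_right _ _, fun x hx z hz => ?_⟩
    exact h2 x (ball_subset_ball (min_le_left _ _) hx) z hz
  have hsub : ball x₀ δ ⊆ ball x₀ (R / 2) := ball_subset_ball hδR
  refine ⟨δ, hδ0, hsub.trans ((ball_subset_ball (by linarith)).trans hRU),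
    fun p => (2 * Real.pi * Complex.I)⁻¹ * ∮ z in C(0, ρ), (N (p.1 + z • v, p.2) / c (p.1 + z • v)) / z, ?_⟩
  intro x hx t
  have hx' : x ∈ ball x₀ (R / 2) := hsub hx
  have hxU : x ∈ U := by
    have h1 := hmem x hx' 0 (by simp)
    simpa using h1
  constructor
  · refine analyticAt_const.mul ?_
    refine H22.HF.analyticAt_circleIntegral
      (F := fun p : (E × ℂ) × ℂ => (N (p.1.1 + p.2 • v, p.1.2) / c (p.1.1 + p.2 • v)) / p.2) hρ0 ?_
    intro z hz
    have hz1 : ‖z‖ ≤ 1 := hball z (sphere_subset_closedBall hz)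
    have hz0 : z ≠ 0 := by
      intro h
      have h1 : ‖z‖ = ρ := by simpa using hz
      rw [h, norm_zero] at h1
      linarith
    have h5 : AnalyticAt ℂ (fun p : (E × ℂ) × ℂ => p.2) ((x, t), z) := analyticAt_snd
    have h6 : AnalyticAt ℂ (fun p : (E × ℂ) × ℂ => p.1.1) ((x, t), z) :=
      analyticAt_fst.fun_comp_of_eq (g := fun p : E × ℂ => p.1) (y := (x, t)) analyticAt_fst rfl
    have h7 : AnalyticAt ℂ (fun p : (E × ℂ) × ℂ => p.1.2) ((x, t), z) :=
      analyticAt_snd.fun_comp_of_eq (g := fun p : E × ℂ => p.2) (y := (x, t)) analyticAt_fst rfl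
    have h1 : AnalyticAt ℂ (fun p : (E × ℂ) × ℂ => p.1.1 + p.2 • v) ((x, t), z) := h6.add (h5.smul analyticAt_const)
    have h2 : AnalyticAt ℂ (fun p : (E × ℂ) × ℂ => (p.1.1 + p.2 • v, p.1.2)) ((x, t), z) := h1.prod h7
    have h3 : AnalyticAt ℂ (fun p : (E × ℂ) × ℂ => N (p.1.1 + p.2 • v, p.1.2)) ((x, t), z) :=
      (hN _ (hmem x hx' z hz1) t).fun_comp_of_eq h2 rfl
    have h4 : AnalyticAt ℂ (fun p : (E × ℂ) × ℂ => c (p.1.1 + p.2 • v)) ((x, t), z) :=
      (hc _ (hmem x hx' z hz1)).fun_comp_of_eq h1 rfl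
    exact (h3.div h4 (hδ x hx z hz)).div h5 hz0
  · by_cases hcx : c x = 0
    · have h1 := hb x hxU t
      rw [hcx, norm_zero, mul_zero] at h1
      rw [hcx, mul_zero, eq_comm, ← norm_eq_zero]
      exact le_antisymm h1 (norm_nonneg _)
    · have hfz : ∀ z ∈ closedBall (0 : ℂ) ρ, AnalyticAt ℂ (fun z => N (x + z • v, t)) z := by
        intro z hz
        have h2 : AnalyticAt ℂ (fun w : ℂ => (x + w • v, t)) z := by fun_prop
        exact (hN _ (hmem x hx' z (hball z hz)) t).fun_comp_of_eq h2 rfl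
      have hgz : ∀ z ∈ closedBall (0 : ℂ) ρ, AnalyticAt ℂ (fun z => c (x + z • v)) z :=
        fun z hz => hline x z (hmem x hx' z (hball z hz))
      have h1 := riem_disc (f := fun z => N (x + z • v, t)) (g := fun z => c (x + z • v)) (K := C t) hρ0 hfz hgz
        (fun z hz => hδ x hx z hz) ?_ (by simpa using hcx)
      · simp only [zero_smul, add_zero] at h1
        show (2 * Real.pi * Complex.I)⁻¹ * (∮ z in C(0, ρ), (N (x + z • v, t) / c (x + z • v)) / z) * c x = N (x, t)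
        rw [h1]
        have hpi : (2 * Real.pi * Complex.I : ℂ) ≠ 0 := Complex.two_pi_I_ne_zero
        field_simp
      · rw [eventually_nhdsSet_iff_forall]
        intro z hz
        have h2 : ContinuousAt (fun w : ℂ => x + w • v) z := (hlin x z).continuousAt
        have h3 : ∀ᶠ w in 𝓝 z, x + w • v ∈ U := h2.eventually_mem (hU.mem_nhds (hmem x hx' z (hball z hz)))
        filter_upwards [h3] with w hw
        exact hb _ hw t

end Pool.Agent.G4.RE

end

section

/-!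
# G3 C8: Hankel determinants

A holomorphic family on an annulus which, for uncountably many parameters, becomes holomorphic on
the disc after multiplication by a nonzero polynomial, has this property for all parameters: for
some `M` uncountably many parameters have a polynomial of degree at most `M`; the moments
`∮ z ^ i f_j (ζ, z) dz` are holomorphic in `ζ`, and the maximal minors of the matrix with rows
`(j, i)` and columns `l ≤ M`, entries `∮ z ^ (i + l) f_j`, vanish for these parameters, so for all.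
-/

set_option autoImplicit false

open Topology Filter Metric Set

namespace Pool.Agent.G3.C

/-! ### linear algebra -/

/-- If all maximal minors of a matrix vanish, then it has a kernel vector. -/
lemma hankel_ker {ι : Type*} {n : ℕ} (A : ι → Fin n → ℂ)
    (h : ∀ r : Fin n → ι, (Matrix.of fun i => A (r i)).det = 0) :
    ∃ c : Fin n → ℂ, c ≠ 0 ∧ ∀ i, ∑ l, c l * A i l = 0 := by
  classical
  set W : Submodule ℂ (Fin n → ℂ) := Submodule.span ℂ (Set.range A) with hW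
  have hlt : W < ⊤ := by
    rw [lt_top_iff_ne_top]
    intro htop
    obtain ⟨b, hb, hspan, hli⟩ := exists_linearIndependent ℂ (Set.range A)
    have hfin : b.Finite := hli.setFinite
    have : Fintype b := hfin.fintype
    have hcard : Fintype.card b = n := by
      have h1 := finrank_span_eq_card hli
      rw [Subtype.range_val, hspan, ← hW, htop, finrank_top, Module.finrank_fin_fun] at h1
      exact h1.symm
    let e : Fin n ≃ b := (Fintype.equivFinOfCardEq hcard).symm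
    choose g hg using fun x : b => hb x.2
    have h1 := h (fun i => g (e i))
    have h2 : LinearIndependent ℂ (Matrix.of fun i => A (g (e i))).row := by
      have : (Matrix.of fun i => A (g (e i))).row = fun i => ((e i : b) : Fin n → ℂ) := by
        funext i
        exact hg (e i)
      rw [this]
      exact hli.comp _ e.injective
    rw [Matrix.linearIndependent_rows_iff_isUnit, Matrix.isUnit_iff_isUnit_det, h1] at h2
    exact not_isUnit_zero h2
  obtain ⟨φ, hφ, hker⟩ := Submodule.exists_le_ker_of_lt_top W hlt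
  have hφx : ∀ x : Fin n → ℂ, φ x = ∑ l, φ (Pi.single l 1) * x l := by
    intro x
    conv_lhs => rw [← Finset.univ_sum_single x]
    rw [map_sum]
    refine Finset.sum_congr rfl fun l _ => ?_
    have : (Pi.single l (x l) : Fin n → ℂ) = x l • (Pi.single l 1 : Fin n → ℂ) := by
      rw [← Pi.single_smul, smul_eq_mul, mul_one]
    rw [this, map_smul, smul_eq_mul, mul_comm]
  refine ⟨fun l => φ (Pi.single l 1), ?_, ?_⟩
  · intro h0
    apply hφ
    ext x
    have h1 : ∀ l, φ (Pi.single l 1) = 0 := fun l => congrFun h0 l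
    simp [h1]
  · intro i
    rw [← hφx]
    exact hker (Submodule.subset_span ⟨i, rfl⟩)

/-- If a matrix has a kernel vector, then all its maximal minors vanish. -/
lemma hankel_det {ι : Type*} {n : ℕ} (A : ι → Fin n → ℂ) {c : Fin n → ℂ} (hc : c ≠ 0)
    (h : ∀ i, ∑ l, c l * A i l = 0) (r : Fin n → ι) : (Matrix.of fun i => A (r i)).det = 0 := by
  rw [← Matrix.exists_mulVec_eq_zero_iff]
  refine ⟨c, hc, ?_⟩
  funext i
  rw [Matrix.mulVec, dotProduct]
  simp only [Matrix.of_apply, Pi.zero_apply]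
  rw [← h (r i)]
  exact Finset.sum_congr rfl fun l _ => mul_comm _ _

/-! ### circle integrals with parameters -/

lemma hankel_param {U : Set ℂ} (hU : IsOpen U) {c : ℂ} {ρ : ℝ} (hρ : 0 < ρ)
    {F : ℂ × ℂ → ℂ} (hF : ContinuousOn F (U ×ˢ sphere c ρ))
    (hd : ∀ z ∈ sphere c ρ, DifferentiableOn ℂ (fun ζ => F (ζ, z)) U) :
    DifferentiableOn ℂ (fun ζ => ∮ z in C(c, ρ), F (ζ, z)) U := by
  intro ζ₀ hζ₀
  refine DifferentiableAt.differentiableWithinAt ?_
  obtain ⟨δ₀, hδ₀, hball⟩ := Metric.isOpen_iff.1 hU ζ₀ hζ₀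
  set δ : ℝ := δ₀ / 3 with hδ
  have hδ0 : 0 < δ := by positivity
  have hcb : closedBall ζ₀ (2 * δ) ⊆ U := by
    intro x hx
    apply hball
    rw [mem_closedBall] at hx
    rw [mem_ball]
    linarith
  have hK : IsCompact (closedBall ζ₀ (2 * δ) ×ˢ sphere c ρ) :=
    (isCompact_closedBall _ _).prod (isCompact_sphere _ _)
  obtain ⟨M, hM⟩ := hK.exists_bound_of_continuousOn (hF.mono (Set.prod_mono hcb subset_rfl))
  have hmem : ∀ θ : ℝ, circleMap c ρ θ ∈ sphere c ρ := fun θ => circleMap_mem_sphere c hρ.le θ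
  set dc : ℝ → ℂ := fun θ => deriv (circleMap c ρ) θ with hdc
  have hdcc : Continuous dc := by
    rw [hdc]
    simp only [deriv_circleMap]
    fun_prop
  have hdcn : ∀ θ, ‖dc θ‖ = ρ := by
    intro θ
    rw [hdc]
    simp only [deriv_circleMap, norm_mul, Complex.norm_I, mul_one, norm_circleMap_zero,
      abs_of_pos hρ]
  have hFc : ∀ ζ ∈ U, Continuous fun θ : ℝ => F (ζ, circleMap c ρ θ) := by
    intro ζ hζ
    refine hF.comp_continuous (by fun_prop) fun θ => ⟨hζ, hmem θ⟩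
  have hder : ∀ ζ ∈ ball ζ₀ δ, ∀ θ : ℝ,
      HasDerivAt (fun ζ => F (ζ, circleMap c ρ θ)) (deriv (fun ζ => F (ζ, circleMap c ρ θ)) ζ) ζ ∧
        ‖deriv (fun ζ => F (ζ, circleMap c ρ θ)) ζ‖ ≤ M / δ := by
    intro ζ hζ θ
    have hsub : closedBall ζ δ ⊆ closedBall ζ₀ (2 * δ) := by
      intro x hx
      rw [mem_closedBall] at hx ⊢
      rw [mem_ball] at hζ
      have := dist_triangle x ζ ζ₀
      linarith
    have hζU : ζ ∈ U := hcb (hsub (mem_closedBall_self hδ0.le))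
    refine ⟨((hd _ (hmem θ)).differentiableAt (hU.mem_nhds hζU)).hasDerivAt, ?_⟩
    refine Complex.norm_deriv_le_of_forall_mem_sphere_norm_le hδ0 ?_ ?_
    · refine DifferentiableOn.diffContOnCl ?_
      rw [closure_ball _ hδ0.ne']
      exact (hd _ (hmem θ)).mono (hsub.trans hcb)
    · intro z hz
      exact hM _ ⟨hsub (sphere_subset_closedBall hz), hmem θ⟩
  have hev : ∀ᶠ ζ in 𝓝 ζ₀, ζ ∈ ball ζ₀ δ := isOpen_ball.mem_nhds (mem_ball_self hδ0)
  have hbU : ball ζ₀ δ ⊆ U := fun x hx => hcb (by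
    rw [mem_ball] at hx
    rw [mem_closedBall]
    linarith)
  have key := intervalIntegral.hasDerivAt_integral_of_dominated_loc_of_deriv_le
    (μ := MeasureTheory.volume) (a := 0) (b := 2 * Real.pi)
    (F := fun ζ θ => dc θ • F (ζ, circleMap c ρ θ))
    (F' := fun ζ θ => dc θ • deriv (fun ζ => F (ζ, circleMap c ρ θ)) ζ)
    (x₀ := ζ₀) (s := ball ζ₀ δ) (bound := fun _ => ρ * (M / δ))
    (isOpen_ball.mem_nhds (mem_ball_self hδ0)) ?_ ?_ ?_ ?_ ?_ ?_
  · exact key.2.differentiableAt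
  · filter_upwards [hev] with ζ hζ
    exact (hdcc.smul (hFc ζ (hbU hζ))).aestronglyMeasurable
  · exact (hdcc.smul (hFc ζ₀ hζ₀)).intervalIntegrable _ _
  · refine MeasureTheory.AEStronglyMeasurable.smul hdcc.aestronglyMeasurable ?_
    set hh : ℕ → ℂ := fun n => ((δ / (n + 2) : ℝ) : ℂ) with hhh
    have hpos : ∀ n : ℕ, 0 < δ / ((n : ℝ) + 2) := fun n => by positivity
    have hne : ∀ n, hh n ≠ 0 := fun n => by
      show ((δ / ((n : ℝ) + 2) : ℝ) : ℂ) ≠ 0
      exact Complex.ofReal_ne_zero.2 (hpos n).ne'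
    have hU' : ∀ n, ζ₀ + hh n ∈ U := by
      intro n
      apply hbU
      rw [mem_ball, dist_eq_norm, add_sub_cancel_left, hhh]
      simp only [Complex.norm_real, Real.norm_eq_abs, abs_of_pos (hpos n)]
      rw [div_lt_iff₀ (by positivity)]
      have : (0 : ℝ) ≤ n := Nat.cast_nonneg n
      nlinarith
    have hlim0 : Tendsto hh atTop (𝓝 0) := by
      have h1 : Tendsto (fun n : ℕ => δ / ((n : ℝ) + 2)) atTop (𝓝 0) := by
        refine Tendsto.div_atTop tendsto_const_nhds ?_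
        exact tendsto_atTop_add_const_right _ _ tendsto_natCast_atTop_atTop
      have h2 := (Complex.continuous_ofReal.tendsto 0).comp h1
      simpa [hhh, Function.comp_def] using h2
    have hlim : Tendsto hh atTop (𝓝[≠] 0) :=
      tendsto_nhdsWithin_iff.2 ⟨hlim0, Eventually.of_forall fun n => hne n⟩
    refine aestronglyMeasurable_of_tendsto_ae (u := atTop) (f := fun (n : ℕ) (θ : ℝ) =>
      (hh n)⁻¹ • (F (ζ₀ + hh n, circleMap c ρ θ) - F (ζ₀, circleMap c ρ θ))) ?_ ?_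
    · intro n
      have h1 : Continuous fun θ : ℝ =>
          (hh n)⁻¹ • (F (ζ₀ + hh n, circleMap c ρ θ) - F (ζ₀, circleMap c ρ θ)) :=
        ((hFc _ (hU' n)).sub (hFc _ hζ₀)).const_smul ((hh n)⁻¹)
      exact h1.aestronglyMeasurable
    · refine Eventually.of_forall fun θ => ?_
      exact ((hder ζ₀ (mem_ball_self hδ0) θ).1.tendsto_slope_zero).comp hlim
  · refine Eventually.of_forall fun θ _ ζ hζ => ?_
    rw [norm_smul, hdcn]
    exact mul_le_mul_of_nonneg_left (hder ζ hζ θ).2 hρ.le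
  · exact intervalIntegrable_const
  · refine Eventually.of_forall fun θ _ ζ hζ => ?_
    exact ((hder ζ hζ θ).1).const_smul (dc θ)

/-! ### moments -/

lemma hankel_ann_open {zc : ℂ} {r1 r2 : ℝ} :
    IsOpen {z : ℂ | r1 < dist z zc ∧ dist z zc < r2} := by
  have h1 : IsOpen {z : ℂ | r1 < dist z zc} := isOpen_lt continuous_const (by fun_prop)
  have h2 : IsOpen {z : ℂ | dist z zc < r2} := isOpen_lt (by fun_prop) continuous_const
  exact h1.inter h2

lemma hankel_sphere {zc : ℂ} {r1 r2 ρ : ℝ} (h1 : r1 < ρ) (h2 : ρ < r2) :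
    sphere zc ρ ⊆ {z : ℂ | r1 < dist z zc ∧ dist z zc < r2} := by
  intro z hz
  rw [mem_sphere] at hz
  exact ⟨by rw [hz]; exact h1, by rw [hz]; exact h2⟩

/-- circle integrals do not depend on the radius -/
lemma hankel_radius {zc : ℂ} {r1 r2 ρ ρ' : ℝ} (hr1 : 0 < r1) (h1 : r1 < ρ) (h2 : ρ < r2)
    (h1' : r1 < ρ') (h2' : ρ' < r2) {h : ℂ → ℂ}
    (hh : DifferentiableOn ℂ h {z | r1 < dist z zc ∧ dist z zc < r2}) :
    (∮ z in C(zc, ρ), h z) = ∮ z in C(zc, ρ'), h z := by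
  wlog hle : ρ' ≤ ρ generalizing ρ ρ'
  · exact (this h1' h2' h1 h2 (le_of_not_ge hle)).symm
  refine Complex.circleIntegral_eq_of_differentiable_on_annulus_off_countable (hr1.trans h1')
    hle Set.countable_empty (hh.continuousOn.mono ?_) ?_
  · rintro z ⟨hz1, hz2⟩
    rw [mem_closedBall] at hz1
    rw [mem_ball, not_lt] at hz2
    exact ⟨h1'.trans_le hz2, hz1.trans_lt h2⟩
  · rintro z ⟨⟨hz1, hz2⟩, -⟩
    rw [mem_ball] at hz1
    rw [mem_closedBall, not_le] at hz2
    exact hh.differentiableAt (hankel_ann_open.mem_nhds ⟨h1'.trans hz2, hz1.trans h2⟩)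

/-- the extension criterion with moments, polynomial form -/
lemma hankel_moment {zc : ℂ} {r1 r2 ρ : ℝ} (hr1 : 0 < r1) (h1 : r1 < ρ) (h2 : ρ < r2)
    {h : ℂ → ℂ} (hh : DifferentiableOn ℂ h {z | r1 < dist z zc ∧ dist z zc < r2})
    (h0 : ∀ n : ℕ, (∮ z in C(zc, ρ), z ^ n * h z) = 0) (p : Polynomial ℂ) {r : ℝ}
    (hr : r1 < r) (hr' : r < r2) : (∮ z in C(zc, r), p.eval z * h z) = 0 := by
  have hρ : 0 < ρ := hr1.trans h1
  have hd : DifferentiableOn ℂ (fun z => p.eval z * h z)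
      {z | r1 < dist z zc ∧ dist z zc < r2} :=
    (p.differentiable.differentiableOn).mul hh
  rw [← hankel_radius hr1 h1 h2 hr hr' hd]
  have hc : ContinuousOn h (sphere zc ρ) := hh.continuousOn.mono (hankel_sphere h1 h2)
  have he : ∀ z, p.eval z * h z =
      ∑ i ∈ Finset.range (p.natDegree + 1), p.coeff i * (z ^ i * h z) := by
    intro z
    rw [Polynomial.eval_eq_sum_range, Finset.sum_mul]
    exact Finset.sum_congr rfl fun i _ => by ring
  simp only [he]
  rw [circleIntegral.integral_fun_sum]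
  · refine Finset.sum_eq_zero fun i _ => ?_
    rw [circleIntegral.integral_const_mul, h0 i, mul_zero]
  · intro i _
    refine ContinuousOn.circleIntegrable hρ.le ?_
    exact continuousOn_const.mul ((by fun_prop : ContinuousOn (fun z : ℂ => z ^ i) _).mul hc)

/-- **Hankel determinants**, the parameters of a set with an accumulation point. -/
theorem hankel_fill_acc {N M : ℕ} {s0 : ℂ} {eps : ℝ} {zc : ℂ} {r1 r2 : ℝ}
    (hr1 : 0 < r1) (hr : r1 < r2) {f : ℂ × ℂ → Fin (N + 1) → ℂ}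
    (hf : DifferentiableOn ℂ f (ball s0 eps ×ˢ {z | r1 < dist z zc ∧ dist z zc < r2}))
    {S : Set ℂ} (hS : S ⊆ ball s0 eps) {x : ℂ} (hx : x ∈ ball s0 eps)
    (hacc : ∃ᶠ z in 𝓝[≠] x, z ∈ S)
    (hq : ∀ s ∈ S, ∃ q : Polynomial ℂ, q ≠ 0 ∧ q.natDegree ≤ M ∧
      ∃ g : ℂ → Fin (N + 1) → ℂ, DifferentiableOn ℂ g (ball zc r2) ∧
        ∀ z, r1 < dist z zc → dist z zc < r2 → g z = q.eval z • f (s, z)) :
    ∀ zeta ∈ ball s0 eps, ∃ q : Polynomial ℂ, q ≠ 0 ∧ q.natDegree ≤ M ∧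
      ∃ g : ℂ → Fin (N + 1) → ℂ, DifferentiableOn ℂ g (ball zc r2) ∧
        ∀ z, r1 < dist z zc → dist z zc < r2 → g z = q.eval z • f (zeta, z) := by
  classical
  obtain ⟨ρ, hρ1, hρ2⟩ := exists_between hr
  have hρ : 0 < ρ := hr1.trans hρ1
  set Ann : Set ℂ := {z | r1 < dist z zc ∧ dist z zc < r2} with hAnn
  have hAo : IsOpen Ann := hankel_ann_open
  have hsph : sphere zc ρ ⊆ Ann := hankel_sphere hρ1 hρ2
  have hfj : ∀ j : Fin (N + 1), DifferentiableOn ℂ (fun p => f p j) (ball s0 eps ×ˢ Ann) :=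
    fun j => differentiableOn_pi.1 hf j
  -- the slices
  have hfz : ∀ ζ ∈ ball s0 eps, ∀ j : Fin (N + 1),
      DifferentiableOn ℂ (fun z => f (ζ, z) j) Ann := by
    intro ζ hζ j
    refine (hfj j).comp (f := fun z : ℂ => (ζ, z)) ?_ fun z hz => ⟨hζ, hz⟩
    exact (differentiable_const ζ).prodMk differentiable_id |>.differentiableOn
  -- the moments
  set a : ℂ → Fin (N + 1) × ℕ → Fin (M + 1) → ℂ := fun ζ p l =>
    ∮ z in C(zc, ρ), z ^ (p.2 + (l : ℕ)) * f (ζ, z) p.1 with ha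
  have hint : ∀ ζ ∈ ball s0 eps, ∀ j : Fin (N + 1), ∀ n : ℕ,
      CircleIntegrable (fun z => z ^ n * f (ζ, z) j) zc ρ := by
    intro ζ hζ j n
    refine ContinuousOn.circleIntegrable hρ.le ?_
    exact (by fun_prop : ContinuousOn (fun z : ℂ => z ^ n) _).mul
      ((hfz ζ hζ j).continuousOn.mono hsph)
  have hkey : ∀ ζ ∈ ball s0 eps, ∀ c : Fin (M + 1) → ℂ, ∀ p : Fin (N + 1) × ℕ,
      ∑ l, c l * a ζ p l =
        ∮ z in C(zc, ρ), z ^ p.2 * ((∑ l : Fin (M + 1), c l * z ^ (l : ℕ)) * f (ζ, z) p.1) := by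
    intro ζ hζ c p
    have h1 : ∀ z : ℂ, z ^ p.2 * ((∑ l : Fin (M + 1), c l * z ^ (l : ℕ)) * f (ζ, z) p.1) =
        ∑ l : Fin (M + 1), c l * (z ^ (p.2 + (l : ℕ)) * f (ζ, z) p.1) := by
      intro z
      rw [Finset.sum_mul, Finset.mul_sum]
      exact Finset.sum_congr rfl fun l _ => by rw [pow_add]; ring
    simp only [h1]
    rw [circleIntegral.integral_fun_sum]
    · refine Finset.sum_congr rfl fun l _ => ?_
      rw [circleIntegral.integral_const_mul]
    · intro l _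
      exact (hint ζ hζ p.1 _).const_fun_smul (a := c l)
  have hadiff : ∀ p l, DifferentiableOn ℂ (fun ζ => a ζ p l) (ball s0 eps) := by
    intro p l
    refine hankel_param isOpen_ball hρ (F := fun q : ℂ × ℂ => q.2 ^ (p.2 + (l : ℕ)) * f q p.1)
      ?_ ?_
    · exact (by fun_prop : ContinuousOn (fun q : ℂ × ℂ => q.2 ^ (p.2 + (l : ℕ))) _).mul
        ((hfj p.1).continuousOn.mono (Set.prod_mono subset_rfl hsph))
    · intro z hz
      refine DifferentiableOn.const_mul (b := z ^ (p.2 + (l : ℕ))) ?_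
      refine (hfj p.1).comp (f := fun ζ : ℂ => (ζ, z)) ?_ fun ζ hζ => ⟨hζ, hsph hz⟩
      exact differentiable_id.prodMk (differentiable_const z) |>.differentiableOn
  -- the minors vanish for real parameters
  have hreal : ∀ s ∈ S, ∀ r : Fin (M + 1) → Fin (N + 1) × ℕ,
      (Matrix.of fun i => a s (r i)).det = 0 := by
    intro s hs r
    have hsb : s ∈ ball s0 eps := hS hs
    obtain ⟨q, hq0, hqM, g, hg, hgf⟩ := hq s hs
    have hqe : ∀ z : ℂ, (∑ l : Fin (M + 1), q.coeff l * z ^ (l : ℕ)) = q.eval z := by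
      intro z
      rw [Finset.sum_fin_eq_sum_range, Polynomial.eval_eq_sum_range' (n := M + 1) (by omega)]
      refine Finset.sum_congr rfl fun i hi => ?_
      rw [dif_pos (Finset.mem_range.1 hi)]
    refine hankel_det (fun p => a s p) (c := fun l : Fin (M + 1) => q.coeff l) ?_ ?_ r
    · intro h0
      apply hq0
      ext n
      by_cases hn : n < M + 1
      · exact congrFun h0 ⟨n, hn⟩
      · rw [Polynomial.coeff_zero]
        exact Polynomial.coeff_eq_zero_of_natDegree_lt (by omega)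
    · intro p
      rw [hkey s hsb]
      simp only [hqe]
      have h1 : (∮ z in C(zc, ρ), z ^ p.2 * (q.eval z * f (s, z) p.1)) =
          ∮ z in C(zc, ρ), z ^ p.2 * g z p.1 := by
        refine circleIntegral.integral_congr hρ.le fun z hz => ?_
        have hz' := hsph hz
        have := congrFun (hgf z hz'.1 hz'.2) p.1
        simp only [Pi.smul_apply, smul_eq_mul] at this
        simp only [this]
      rw [h1]
      refine DiffContOnCl.circleIntegral_eq_zero hρ.le ?_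
      refine DifferentiableOn.diffContOnCl ?_
      rw [closure_ball _ hρ.ne']
      have h2 : DifferentiableOn ℂ (fun z => g z p.1) (ball zc r2) := differentiableOn_pi.1 hg p.1
      exact (by fun_prop : DifferentiableOn ℂ (fun z : ℂ => z ^ p.2) _).mul
        (h2.mono (closedBall_subset_ball hρ2))
  -- the minors vanish for all parameters
  have hall : ∀ r : Fin (M + 1) → Fin (N + 1) × ℕ, ∀ ζ ∈ ball s0 eps,
      (Matrix.of fun i => a ζ (r i)).det = 0 := by
    intro r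
    have hdet : DifferentiableOn ℂ (fun ζ => (Matrix.of fun i => a ζ (r i)).det)
        (ball s0 eps) := by
      simp only [Matrix.det_apply']
      refine DifferentiableOn.fun_sum fun σ _ => ?_
      refine DifferentiableOn.const_mul ?_ _
      refine DifferentiableOn.fun_finsetProd fun i _ => ?_
      exact hadiff (r (σ i)) i
    have han : AnalyticOnNhd ℂ (fun ζ => (Matrix.of fun i => a ζ (r i)).det)
        (ball s0 eps) := hdet.analyticOnNhd isOpen_ball
    have hfreq : ∃ᶠ ζ in 𝓝[≠] x, (Matrix.of fun i => a ζ (r i)).det = 0 :=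
      hacc.mono fun s hs => hreal s hs r
    have := han.eqOn_zero_of_preconnected_of_frequently_eq_zero
      (convex_ball _ _).isPreconnected hx hfreq
    intro ζ hζ
    exact this hζ
  -- the conclusion
  intro ζ hζ
  obtain ⟨c, hc, hker⟩ := hankel_ker (a ζ) (fun r => hall r ζ hζ)
  set q : Polynomial ℂ := ∑ l : Fin (M + 1), Polynomial.C (c l) * Polynomial.X ^ (l : ℕ) with hqd
  have hqe : ∀ z : ℂ, q.eval z = ∑ l : Fin (M + 1), c l * z ^ (l : ℕ) := by
    intro z
    rw [hqd, Polynomial.eval_finsetSum]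
    exact Finset.sum_congr rfl fun l _ => by simp
  have hcoef : ∀ l : Fin (M + 1), q.coeff l = c l := by
    intro l
    rw [hqd, Polynomial.finsetSum_coeff]
    simp only [Polynomial.coeff_C_mul, Polynomial.coeff_X_pow]
    rw [Finset.sum_eq_single l]
    · simp
    · intro b _ hb
      have : ¬ ((l : ℕ) = (b : ℕ)) := fun h => hb (Fin.ext h.symm)
      simp [this]
    · simp
  have hq0 : q ≠ 0 := by
    intro h0
    apply hc
    funext l
    rw [← hcoef l, h0]
    simp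
  have hqM : q.natDegree ≤ M := by
    rw [hqd]
    refine Polynomial.natDegree_sum_le_of_forall_le _ _ fun l _ => ?_
    refine (Polynomial.natDegree_C_mul_X_pow_le _ _).trans ?_
    have := l.2
    omega
  have hext : ∀ j : Fin (N + 1), ∃ J' : ℂ → ℂ, DifferentiableOn ℂ J' (ball zc r2) ∧
      ∀ z, r1 < ‖z - zc‖ → ‖z - zc‖ < r2 → J' z = q.eval z * f (ζ, z) j := by
    intro j
    have hhd : DifferentiableOn ℂ (fun z => q.eval z * f (ζ, z) j) Ann :=
      (q.differentiable.differentiableOn).mul (hfz ζ hζ j)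
    have h0 : ∀ n : ℕ, (∮ z in C(zc, ρ), z ^ n * (q.eval z * f (ζ, z) j)) = 0 := by
      intro n
      have h1 := hkey ζ hζ c (j, n)
      rw [hker (j, n)] at h1
      simp only [hqe]
      exact h1.symm
    refine Pool.Agent.H62.EL.ext_annulus hr1 hr ?_ ?_
    · refine hhd.mono ?_
      rintro z ⟨hz1, hz2⟩
      rw [← dist_eq_norm] at hz1 hz2
      exact ⟨hz1, hz2⟩
    · intro n r hrr hrr'
      have := hankel_moment hr1 hρ1 hρ2 hhd h0 ((Polynomial.X - Polynomial.C zc) ^ n) hrr hrr'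
      simpa using this
  choose J hJd hJe using hext
  refine ⟨q, hq0, hqM, fun z j => J j z, ?_, ?_⟩
  · rw [differentiableOn_pi]
    exact hJd
  · intro z hz1 hz2
    rw [dist_eq_norm] at hz1 hz2
    funext j
    rw [Pi.smul_apply, smul_eq_mul]
    exact hJe j z hz1 hz2

/-- An uncountable set of complex numbers contains one of its accumulation points. -/
lemma hankel_acc {S : Set ℂ} (hS : ¬ S.Countable) : ∃ x ∈ S, ∃ᶠ z in 𝓝[≠] x, z ∈ S := by
  by_contra hcon
  push Not at hcon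
  have hd : DiscreteTopology S := by
    rw [discreteTopology_subtype_iff]
    intro x hx
    have h1 := hcon x hx
    have h2 : Sᶜ ∈ 𝓝[≠] x := h1
    rwa [Filter.mem_iff_inf_principal_compl, compl_compl] at h2
  apply hS
  have : Countable S := (TopologicalSpace.separableSpace_iff_countable (α := S)).1 inferInstance
  exact Set.countable_coe_iff.1 this

/-- **Hankel determinants**: a pole set for uncountably many parameters. -/
theorem hankel_fill_unc {N : ℕ} {ζ₀ : ℂ} {ε : ℝ} (hε : 0 < ε) {zc : ℂ} {r₁ r₂ : ℝ} (hr₁ : 0 < r₁)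
    (hr : r₁ < r₂) {f : ℂ × ℂ → Fin (N + 1) → ℂ}
    (hf : DifferentiableOn ℂ f (ball ζ₀ ε ×ˢ {z | r₁ < dist z zc ∧ dist z zc < r₂}))
    {T : Set ℂ} (hT : T ⊆ ball ζ₀ ε) (hTu : ¬ T.Countable)
    (hq : ∀ ζ ∈ T, ∃ q : Polynomial ℂ, q ≠ 0 ∧ ∃ g : ℂ → Fin (N + 1) → ℂ,
      DifferentiableOn ℂ g (ball zc r₂) ∧
        ∀ z, r₁ < dist z zc → dist z zc < r₂ → g z = q.eval z • f (ζ, z)) :
    ∀ ζ ∈ ball ζ₀ ε, ∃ q : Polynomial ℂ, q ≠ 0 ∧ ∃ g : ℂ → Fin (N + 1) → ℂ,
      DifferentiableOn ℂ g (ball zc r₂) ∧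
        ∀ z, r₁ < dist z zc → dist z zc < r₂ → g z = q.eval z • f (ζ, z) := by
  set TM : ℕ → Set ℂ := fun M => {ζ | ζ ∈ T ∧ ∃ q : Polynomial ℂ, q ≠ 0 ∧ q.natDegree ≤ M ∧
    ∃ g : ℂ → Fin (N + 1) → ℂ, DifferentiableOn ℂ g (ball zc r₂) ∧
      ∀ z, r₁ < dist z zc → dist z zc < r₂ → g z = q.eval z • f (ζ, z)} with hTM
  have hex : ∃ M, ¬ (TM M).Countable := by
    by_contra hcon
    push Not at hcon
    refine hTu ((Set.countable_iUnion hcon).mono ?_)
    intro ζ hζ
    obtain ⟨q, hq0, g, hg, hgf⟩ := hq ζ hζ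
    exact Set.mem_iUnion.2 ⟨q.natDegree, hζ, q, hq0, le_rfl, g, hg, hgf⟩
  obtain ⟨M, hM⟩ := hex
  obtain ⟨x, hx, hacc⟩ := hankel_acc hM
  intro ζ hζ
  obtain ⟨q, hq0, -, g, hg, hgf⟩ := hankel_fill_acc hr₁ hr hf (S := TM M)
    (fun s hs => hT hs.1) (hT hx.1) hacc (fun s hs => hs.2) ζ hζ
  exact ⟨q, hq0, g, hg, hgf⟩

alias hankel_unc := hankel_fill_unc

end Pool.Agent.G3.C

end

section

/-!
# The ideal of a holomorphic map

`mapIdeal f U`: the polynomials which vanish on the cone over `f U`.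

* `mem_mapIdeal_form`: `eval_smul_form`; `VanishesAt Q x` is `eval x.rep Q = 0`; take `c = 1` for one direction.
* `mapIdeal_homog`: for fixed `z ∈ U`: `eval (c • x) Q = ∑ k, c ^ k * eval x (homogeneousComponent k Q)` is a polynomial in `c`
  which vanishes for all `c`, so all coefficients vanish (e.g. `Polynomial.funext`, or the lemma
  `Pool.Agent.H62.FC.eval_homogeneousComponent_eq_zero` in `Pool/Agent/H62/FC/CurveIdeal.lean`).
* `mapIdeal_isPrime`: `1` is not in it (`U ≠ ∅`).  Let `A * B ∈ I`, `A ∉ I`, `B ∉ I`.  There are homogeneous components `A_k`,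
  `B_l` not in `I` (`sum_homogeneousComponent`, ideal), i.e. `VanishesAt A_k (f z)` fails for some `z ∈ U`.  For a form `R` the set
  of the `z₀ ∈ U` with `VanishesAt R (f z)` for all `z` near `z₀` is open, and so is the set of the `z₀ ∈ U` with
  `¬ VanishesAt R (f z)` for all `z ≠ z₀` near `z₀`; they cover `U` (local lift `φ` of `f`, `z ↦ eval (φ z) R` is analytic at
  `z₀`, `AnalyticAt.eventually_eq_zero_or_eventually_ne_zero`, `vanishesAt_mk`); `U` is preconnected, so one of them is `U`;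
  if `R ∉ I` it is the second one.  So near a point `z₀ ∈ U`, for `z ≠ z₀`, both `A_k` and `B_l` do not vanish at `f z`.  For
  such a `z ∈ U` the polynomials `c ↦ eval (c • x) A`, `c ↦ eval (c • x) B` (`x = (f z).rep`) are not zero (their coefficients at
  `c ^ k`, `c ^ l` are `eval x A_k ≠ 0`, `eval x B_l ≠ 0`), their product is zero for all `c`: contradiction.
-/

open Topology Filter MvPolynomial

noncomputable section

namespace Pool.Agent.H17BP

open Pool.Agent.H17 (PN VanishesAt ZariskiClosedIn HolomorphicInto puncturedDisc)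
open Pool.Agent.H62.FC (Homog)

variable {N : ℕ} {f : ℂ → PN N} {U : Set ℂ}

/-- The ideal of the polynomials which vanish on the cone over `f U`. -/
def mapIdeal (f : ℂ → PN N) (U : Set ℂ) : Ideal (MvPolynomial (Fin (N + 1)) ℂ) where
  carrier := {Q | ∀ z ∈ U, ∀ c : ℂ, eval (c • (f z).rep) Q = 0}
  add_mem' := by
    intro A B hA hB z hz c
    rw [map_add, hA z hz c, hB z hz c, add_zero]
  zero_mem' := by
    intro z _ c
    rw [map_zero]
  smul_mem' := by
    intro A B hB z hz c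
    rw [smul_eq_mul, map_mul, hB z hz c, mul_zero]

/-- The polynomial `c ↦ Q (c x)`. -/
private def MapIdeal_poly (x : Fin (N + 1) → ℂ) (Q : MvPolynomial (Fin (N + 1)) ℂ) : Polynomial ℂ :=
  ∑ k ∈ Finset.range (Q.totalDegree + 1), Polynomial.C (eval x (homogeneousComponent k Q)) * Polynomial.X ^ k

private lemma MapIdeal_poly_eval (x : Fin (N + 1) → ℂ) (Q : MvPolynomial (Fin (N + 1)) ℂ) (c : ℂ) :
    (MapIdeal_poly x Q).eval c = eval (c • x) Q := by
  conv_rhs => rw [← MvPolynomial.sum_homogeneousComponent Q]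
  rw [MapIdeal_poly, Polynomial.eval_finsetSum, map_sum]
  refine Finset.sum_congr rfl fun k _ => ?_
  rw [eval_smul_form (homogeneousComponent_isHomogeneous k Q)]
  rw [Polynomial.eval_mul, Polynomial.eval_C, Polynomial.eval_pow, Polynomial.eval_X, mul_comm]

private lemma MapIdeal_poly_coeff (x : Fin (N + 1) → ℂ) (Q : MvPolynomial (Fin (N + 1)) ℂ) (n : ℕ) :
    (MapIdeal_poly x Q).coeff n = eval x (homogeneousComponent n Q) := by
  rw [MapIdeal_poly, Polynomial.finsetSum_coeff]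
  simp only [Polynomial.coeff_C_mul, Polynomial.coeff_X_pow]
  by_cases hn : n ∈ Finset.range (Q.totalDegree + 1)
  · rw [Finset.sum_eq_single n]
    · simp
    · intro b _ hb
      rw [if_neg hb.symm, mul_zero]
    · intro h
      exact absurd hn h
  · rw [Finset.sum_eq_zero, homogeneousComponent_eq_zero, map_zero]
    · rw [Finset.mem_range] at hn
      omega
    · intro k hk
      rw [if_neg, mul_zero]
      rintro rfl
      exact hn hk

private lemma MapIdeal_comp {x : Fin (N + 1) → ℂ} {Q : MvPolynomial (Fin (N + 1)) ℂ}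
    (h : ∀ c : ℂ, eval (c • x) Q = 0) (n : ℕ) : eval x (homogeneousComponent n Q) = 0 := by
  have h1 : MapIdeal_poly x Q = 0 := by
    apply Polynomial.funext
    intro c
    rw [MapIdeal_poly_eval, h c, Polynomial.eval_zero]
  rw [← MapIdeal_poly_coeff, h1, Polynomial.coeff_zero]

theorem mem_mapIdeal_form {d : ℕ} {Q : MvPolynomial (Fin (N + 1)) ℂ} (hQ : Q.IsHomogeneous d) :
    Q ∈ mapIdeal f U ↔ ∀ z ∈ U, VanishesAt Q (f z) := by
  constructor
  · intro h z hz
    have h1 := h z hz 1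
    rw [one_smul] at h1
    exact h1
  · intro h z hz c
    have h1 : eval (f z).rep Q = 0 := h z hz
    rw [eval_smul_form hQ, h1, mul_zero]

theorem mapIdeal_homog : Homog (mapIdeal f U) := by
  intro Q hQ n z hz c
  rw [eval_smul_form (homogeneousComponent_isHomogeneous n Q), MapIdeal_comp (hQ z hz) n, mul_zero]

private lemma MapIdeal_analytic {φ : ℂ → Fin (N + 1) → ℂ} {z₀ : ℂ} (hφ : AnalyticAt ℂ φ z₀)
    (R : MvPolynomial (Fin (N + 1)) ℂ) : AnalyticAt ℂ (fun z => eval (φ z) R) z₀ := by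
  have hi : ∀ i, AnalyticAt ℂ (fun z => φ z i) z₀ := fun i =>
    (ContinuousLinearMap.proj (R := ℂ) (φ := fun _ : Fin (N + 1) => ℂ) i).analyticAt _ |>.comp hφ
  induction R using MvPolynomial.induction_on with
  | C a =>
    simp only [eval_C]
    exact analyticAt_const
  | add p q hp hq =>
    simp only [map_add]
    exact hp.add hq
  | mul_X p i hp =>
    simp only [map_mul, eval_X]
    exact hp.mul (hi i)

private lemma MapIdeal_notMem (hUc : IsPreconnected U) (hf : HolomorphicInto f U)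
    {d : ℕ} {R : MvPolynomial (Fin (N + 1)) ℂ} (hR : R.IsHomogeneous d) (hRI : R ∉ mapIdeal f U) {z₀ : ℂ}
    (hz₀ : z₀ ∈ U) : ∀ᶠ z in 𝓝[≠] z₀, ¬ VanishesAt R (f z) := by
  have hu : IsOpen {x : ℂ | ∀ᶠ z in 𝓝 x, VanishesAt R (f z)} := isOpen_setOfPred_eventually_nhds
  have hv : IsOpen {x : ℂ | ∀ᶠ z in 𝓝[≠] x, ¬ VanishesAt R (f z)} := isOpen_setOfPred_eventually_nhdsWithin
  have hcov : U ⊆ {x : ℂ | ∀ᶠ z in 𝓝 x, VanishesAt R (f z)} ∪
      {x : ℂ | ∀ᶠ z in 𝓝[≠] x, ¬ VanishesAt R (f z)} := by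
    intro z₁ hz₁
    obtain ⟨φ, hφ, he⟩ := hf z₁ hz₁
    rcases (MapIdeal_analytic hφ R).eventually_eq_zero_or_eventually_ne_zero with h | h
    · left
      change ∀ᶠ z in 𝓝 z₁, VanishesAt R (f z)
      filter_upwards [h, he] with z h1 h2
      obtain ⟨h3, h4⟩ := h2
      rw [h4, vanishesAt_mk hR]
      exact h1
    · right
      change ∀ᶠ z in 𝓝[≠] z₁, ¬ VanishesAt R (f z)
      filter_upwards [h, he.filter_mono nhdsWithin_le_nhds] with z h1 h2
      obtain ⟨h3, h4⟩ := h2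
      rw [h4, vanishesAt_mk hR]
      exact h1
  by_contra hcon
  have h1 : z₀ ∈ {x : ℂ | ∀ᶠ z in 𝓝 x, VanishesAt R (f z)} := (hcov hz₀).resolve_right hcon
  apply hRI
  rw [mem_mapIdeal_form hR]
  intro z hz
  rcases hcov hz with h2 | h2
  · have h3 : ∀ᶠ w in 𝓝 z, VanishesAt R (f w) := h2
    exact h3.self_of_nhds
  · exfalso
    obtain ⟨w, -, hw1, hw2⟩ := hUc _ _ hu hv hcov ⟨z₀, hz₀, h1⟩ ⟨z, hz, h2⟩
    have h3 : ∀ᶠ z in 𝓝 w, VanishesAt R (f z) := hw1
    have h4 : ∀ᶠ z in 𝓝[≠] w, ¬ VanishesAt R (f z) := hw2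
    obtain ⟨t, ht1, ht2⟩ := ((h3.filter_mono nhdsWithin_le_nhds).and h4).exists
    exact ht2 ht1

theorem mapIdeal_isPrime (hUo : IsOpen U) (hUc : IsPreconnected U) (hne : U.Nonempty) (hf : HolomorphicInto f U) :
    (mapIdeal f U).IsPrime := by
  obtain ⟨z₀, hz₀⟩ := hne
  have hcomp : ∀ A : MvPolynomial (Fin (N + 1)) ℂ, A ∉ mapIdeal f U →
      ∃ k, homogeneousComponent k A ∉ mapIdeal f U := by
    intro A hA
    by_contra hcon
    push Not at hcon
    apply hA
    rw [← MvPolynomial.sum_homogeneousComponent A]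
    exact Ideal.sum_mem _ fun i _ => hcon i
  refine ⟨?_, ?_⟩
  · intro htop
    have h1 : (1 : MvPolynomial (Fin (N + 1)) ℂ) ∈ mapIdeal f U := by
      rw [htop]
      trivial
    have h2 := h1 z₀ hz₀ 1
    rw [map_one] at h2
    exact one_ne_zero h2
  · intro A B hAB
    by_contra hcon
    push Not at hcon
    obtain ⟨k, hk⟩ := hcomp A hcon.1
    obtain ⟨l, hl⟩ := hcomp B hcon.2
    have h1 := MapIdeal_notMem hUc hf (homogeneousComponent_isHomogeneous k A) hk hz₀
    have h2 := MapIdeal_notMem hUc hf (homogeneousComponent_isHomogeneous l B) hl hz₀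
    have h3' : ∀ᶠ z in 𝓝 z₀, z ∈ U := hUo.mem_nhds hz₀
    have h3 : ∀ᶠ z in 𝓝[≠] z₀, z ∈ U := h3'.filter_mono nhdsWithin_le_nhds
    obtain ⟨z, ⟨h4, h5⟩, h6⟩ := ((h1.and h2).and h3).exists
    have h7 : MapIdeal_poly (f z).rep A * MapIdeal_poly (f z).rep B = 0 := by
      apply Polynomial.funext
      intro c
      rw [Polynomial.eval_mul, MapIdeal_poly_eval, MapIdeal_poly_eval, ← map_mul, Polynomial.eval_zero]
      exact hAB z h6 c
    rcases mul_eq_zero.1 h7 with h8 | h8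
    · apply h4
      change eval (f z).rep (homogeneousComponent k A) = 0
      rw [← MapIdeal_poly_coeff, h8, Polynomial.coeff_zero]
    · apply h5
      change eval (f z).rep (homogeneousComponent l B) = 0
      rw [← MapIdeal_poly_coeff, h8, Polynomial.coeff_zero]

theorem exists_X_notMem (hne : U.Nonempty) : ∃ i, (X i : MvPolynomial (Fin (N + 1)) ℂ) ∉ mapIdeal f U := by
  obtain ⟨z, hz⟩ := hne
  by_contra hcon
  push Not at hcon
  apply (f z).rep_nonzero
  funext i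
  have h1 := hcon i z hz 1
  rw [one_smul, eval_X] at h1
  exact h1

theorem mem_variety_mapIdeal {z : ℂ} (hz : z ∈ U) : f z ∈ variety (mapIdeal f U) := by
  refine ⟨fun Q hQ n hn => (mem_mapIdeal_form hn).1 hQ z hz, fun m => m.elim0⟩

theorem le_mapIdeal {P : Ideal (MvPolynomial (Fin (N + 1)) ℂ)} (hP : Homog P) (h : ∀ z ∈ U, f z ∈ variety P) :
    P ≤ mapIdeal f U := by
  intro Q hQ
  rw [← MvPolynomial.sum_homogeneousComponent Q]
  refine Ideal.sum_mem _ fun i _ => ?_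
  rw [mem_mapIdeal_form (homogeneousComponent_isHomogeneous i Q)]
  exact fun z hz => (h z hz).1 _ (hP Q hQ i) i (homogeneousComponent_isHomogeneous i Q)

end Pool.Agent.H17BP

end
end

section

/-!
# G3 C8: Hankel determinants, joint version

The kernel of the Hankel matrix is holomorphic in the parameter: take the least `M` such that all
minors with the columns `0, …, M` vanish identically, `M` rows `r` whose minor with the columns
`0, …, M - 1` does not vanish identically, and the cofactors of the matrices with the rows `p, r`;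
divide by a power of `ζ - ζ₀`.
-/

set_option autoImplicit false

open Topology Filter Metric Set

namespace Pool.Agent.G3.C

/-- the moments -/
noncomputable def hkm {N : ℕ} (f : ℂ × ℂ → Fin (N + 1) → ℂ) (zc : ℂ) (ρ : ℝ) (ζ : ℂ)
    (p : Fin (N + 1) × ℕ) (l : ℕ) : ℂ := ∮ z in C(zc, ρ), z ^ (p.2 + l) * f (ζ, z) p.1

section

variable {N : ℕ} {ζ₀ : ℂ} {ε : ℝ} {zc : ℂ} {r₁ r₂ ρ : ℝ} {f : ℂ × ℂ → Fin (N + 1) → ℂ}

private lemma hj_slice
    (hf : DifferentiableOn ℂ f (ball ζ₀ ε ×ˢ {z | r₁ < dist z zc ∧ dist z zc < r₂})) {ζ : ℂ}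
    (hζ : ζ ∈ ball ζ₀ ε) (j : Fin (N + 1)) :
    DifferentiableOn ℂ (fun z => f (ζ, z) j) {z | r₁ < dist z zc ∧ dist z zc < r₂} := by
  refine (differentiableOn_pi.1 hf j).comp (f := fun z : ℂ => (ζ, z)) ?_ fun z hz => ⟨hζ, hz⟩
  exact (differentiable_const ζ).prodMk differentiable_id |>.differentiableOn

private lemma hj_diff (hρ : 0 < ρ) (h1 : r₁ < ρ) (h2 : ρ < r₂)
    (hf : DifferentiableOn ℂ f (ball ζ₀ ε ×ˢ {z | r₁ < dist z zc ∧ dist z zc < r₂}))
    (p : Fin (N + 1) × ℕ) (l : ℕ) : DifferentiableOn ℂ (fun ζ => hkm f zc ρ ζ p l) (ball ζ₀ ε) := by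
  have hsph := hankel_sphere (zc := zc) h1 h2
  refine hankel_param isOpen_ball hρ (F := fun q : ℂ × ℂ => q.2 ^ (p.2 + l) * f q p.1) ?_ ?_
  · exact (by fun_prop : ContinuousOn (fun q : ℂ × ℂ => q.2 ^ (p.2 + l)) _).mul
      ((differentiableOn_pi.1 hf p.1).continuousOn.mono (Set.prod_mono subset_rfl hsph))
  · intro z hz
    refine DifferentiableOn.const_mul (b := z ^ (p.2 + l)) ?_
    refine (differentiableOn_pi.1 hf p.1).comp (f := fun ζ : ℂ => (ζ, z)) ?_
      fun ζ hζ => ⟨hζ, hsph hz⟩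
    exact differentiable_id.prodMk (differentiable_const z) |>.differentiableOn

private lemma hj_key (hρ : 0 < ρ) (h1 : r₁ < ρ) (h2 : ρ < r₂)
    (hf : DifferentiableOn ℂ f (ball ζ₀ ε ×ˢ {z | r₁ < dist z zc ∧ dist z zc < r₂})) {ζ : ℂ}
    (hζ : ζ ∈ ball ζ₀ ε) {n : ℕ} (c : Fin n → ℂ) (p : Fin (N + 1) × ℕ) :
    ∑ l : Fin n, c l * hkm f zc ρ ζ p l =
      ∮ z in C(zc, ρ), z ^ p.2 * ((∑ l : Fin n, c l * z ^ (l : ℕ)) * f (ζ, z) p.1) := by
  have hsph := hankel_sphere (zc := zc) h1 h2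
  have h3 : ∀ z : ℂ, z ^ p.2 * ((∑ l : Fin n, c l * z ^ (l : ℕ)) * f (ζ, z) p.1) =
      ∑ l : Fin n, c l * (z ^ (p.2 + (l : ℕ)) * f (ζ, z) p.1) := by
    intro z
    rw [Finset.sum_mul, Finset.mul_sum]
    exact Finset.sum_congr rfl fun l _ => by rw [pow_add]; ring
  simp only [h3]
  rw [circleIntegral.integral_fun_sum]
  · refine Finset.sum_congr rfl fun l _ => ?_
    rw [circleIntegral.integral_const_mul]
    rfl
  · intro l _
    refine CircleIntegrable.const_fun_smul (a := c l) ?_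
    refine ContinuousOn.circleIntegrable hρ.le ?_
    exact (by fun_prop : ContinuousOn (fun z : ℂ => z ^ (p.2 + (l : ℕ))) _).mul
      ((hj_slice hf hζ p.1).continuousOn.mono hsph)

/-- holomorphic determinants -/
private lemma hj_det (hρ : 0 < ρ) (h1 : r₁ < ρ) (h2 : ρ < r₂)
    (hf : DifferentiableOn ℂ f (ball ζ₀ ε ×ˢ {z | r₁ < dist z zc ∧ dist z zc < r₂})) {n : ℕ}
    (r : Fin n → Fin (N + 1) × ℕ) (k : Fin n → ℕ) :
    DifferentiableOn ℂ (fun ζ => (Matrix.of fun i l => hkm f zc ρ ζ (r i) (k l)).det)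
      (ball ζ₀ ε) := by
  simp only [Matrix.det_apply']
  refine DifferentiableOn.fun_sum fun σ _ => ?_
  refine DifferentiableOn.const_mul ?_ _
  refine DifferentiableOn.fun_finsetProd fun i _ => ?_
  exact hj_diff hρ h1 h2 hf (r (σ i)) (k i)

/-- some size of minors vanishes identically -/
private lemma hj_minors (hr₁ : 0 < r₁) (h1 : r₁ < ρ) (h2 : ρ < r₂)
    (hf : DifferentiableOn ℂ f (ball ζ₀ ε ×ˢ {z | r₁ < dist z zc ∧ dist z zc < r₂}))
    {T : Set ℂ} (hT : T ⊆ ball ζ₀ ε) (hTu : ¬ T.Countable)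
    (hq : ∀ ζ ∈ T, ∃ q : Polynomial ℂ, q ≠ 0 ∧ ∃ g : ℂ → Fin (N + 1) → ℂ,
      DifferentiableOn ℂ g (ball zc r₂) ∧
        ∀ z, r₁ < dist z zc → dist z zc < r₂ → g z = q.eval z • f (ζ, z)) :
    ∃ M : ℕ, ∀ r : Fin (M + 1) → Fin (N + 1) × ℕ, ∀ ζ ∈ ball ζ₀ ε,
      (Matrix.of fun i (l : Fin (M + 1)) => hkm f zc ρ ζ (r i) l).det = 0 := by
  have hρ : 0 < ρ := hr₁.trans h1
  have hsph := hankel_sphere (zc := zc) h1 h2
  set TM : ℕ → Set ℂ := fun M => {ζ | ζ ∈ T ∧ ∃ q : Polynomial ℂ, q ≠ 0 ∧ q.natDegree ≤ M ∧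
    ∃ g : ℂ → Fin (N + 1) → ℂ, DifferentiableOn ℂ g (ball zc r₂) ∧
      ∀ z, r₁ < dist z zc → dist z zc < r₂ → g z = q.eval z • f (ζ, z)} with hTM
  have hex : ∃ M, ¬ (TM M).Countable := by
    by_contra hcon
    push Not at hcon
    refine hTu ((Set.countable_iUnion hcon).mono ?_)
    intro ζ hζ
    obtain ⟨q, hq0, g, hg, hgf⟩ := hq ζ hζ
    exact Set.mem_iUnion.2 ⟨q.natDegree, hζ, q, hq0, le_rfl, g, hg, hgf⟩
  obtain ⟨M, hM⟩ := hex
  obtain ⟨x, hx, hacc⟩ := hankel_acc hM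
  refine ⟨M, fun r => ?_⟩
  have hdet := hj_det hρ h1 h2 hf r (fun l : Fin (M + 1) => (l : ℕ))
  have han := hdet.analyticOnNhd isOpen_ball
  have hfreq : ∃ᶠ ζ in 𝓝[≠] x,
      (Matrix.of fun i (l : Fin (M + 1)) => hkm f zc ρ ζ (r i) l).det = 0 := by
    refine hacc.mono fun s hs => ?_
    obtain ⟨hsT, q, hq0, hqM, g, hg, hgf⟩ := hs
    have hsb : s ∈ ball ζ₀ ε := hT hsT
    have hqe : ∀ z : ℂ, (∑ l : Fin (M + 1), q.coeff l * z ^ (l : ℕ)) = q.eval z := by
      intro z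
      rw [Finset.sum_fin_eq_sum_range, Polynomial.eval_eq_sum_range' (n := M + 1) (by omega)]
      refine Finset.sum_congr rfl fun i hi => ?_
      rw [dif_pos (Finset.mem_range.1 hi)]
    refine hankel_det (fun p (l : Fin (M + 1)) => hkm f zc ρ s p l)
      (c := fun l : Fin (M + 1) => q.coeff l) ?_ ?_ r
    · intro h0
      apply hq0
      ext n
      by_cases hn : n < M + 1
      · exact congrFun h0 ⟨n, hn⟩
      · rw [Polynomial.coeff_zero]
        exact Polynomial.coeff_eq_zero_of_natDegree_lt (by omega)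
    · intro p
      rw [hj_key hρ h1 h2 hf hsb]
      simp only [hqe]
      have h3 : (∮ z in C(zc, ρ), z ^ p.2 * (q.eval z * f (s, z) p.1)) =
          ∮ z in C(zc, ρ), z ^ p.2 * g z p.1 := by
        refine circleIntegral.integral_congr hρ.le fun z hz => ?_
        have hz' := hsph hz
        have := congrFun (hgf z hz'.1 hz'.2) p.1
        simp only [Pi.smul_apply, smul_eq_mul] at this
        simp only [this]
      rw [h3]
      refine DiffContOnCl.circleIntegral_eq_zero hρ.le ?_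
      refine DifferentiableOn.diffContOnCl ?_
      rw [closure_ball _ hρ.ne']
      have h4 : DifferentiableOn ℂ (fun z => g z p.1) (ball zc r₂) := differentiableOn_pi.1 hg p.1
      exact (by fun_prop : DifferentiableOn ℂ (fun z : ℂ => z ^ p.2) _).mul
        (h4.mono (closedBall_subset_ball h2))
  have := han.eqOn_zero_of_preconnected_of_frequently_eq_zero
    (convex_ball _ _).isPreconnected (hT hx.1) hfreq
  intro ζ hζ
  exact this hζ

/-- a holomorphic kernel vector, not identically zero -/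
private lemma hj_kernel (hρ : 0 < ρ) (h1 : r₁ < ρ) (h2 : ρ < r₂) (hε : 0 < ε)
    (hf : DifferentiableOn ℂ f (ball ζ₀ ε ×ˢ {z | r₁ < dist z zc ∧ dist z zc < r₂}))
    (hM : ∃ M : ℕ, ∀ r : Fin (M + 1) → Fin (N + 1) × ℕ, ∀ ζ ∈ ball ζ₀ ε,
      (Matrix.of fun i (l : Fin (M + 1)) => hkm f zc ρ ζ (r i) l).det = 0) :
    ∃ (M : ℕ) (c : ℂ → Fin (M + 1) → ℂ), DifferentiableOn ℂ c (ball ζ₀ ε) ∧
      (∃ ζ ∈ ball ζ₀ ε, c ζ ≠ 0) ∧
        ∀ ζ ∈ ball ζ₀ ε, ∀ p, ∑ l : Fin (M + 1), c ζ l * hkm f zc ρ ζ p l = 0 := by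
  classical
  have hmin : ∃ M : ℕ, (∀ r : Fin (M + 1) → Fin (N + 1) × ℕ, ∀ ζ ∈ ball ζ₀ ε,
      (Matrix.of fun i (l : Fin (M + 1)) => hkm f zc ρ ζ (r i) l).det = 0) ∧
      ∃ r : Fin M → Fin (N + 1) × ℕ, ∃ ζ ∈ ball ζ₀ ε,
        (Matrix.of fun i (l : Fin M) => hkm f zc ρ ζ (r i) l).det ≠ 0 := by
    refine ⟨Nat.find hM, Nat.find_spec hM, ?_⟩
    rcases hn : Nat.find hM with _ | n
    · refine ⟨fun i => i.elim0, ζ₀, mem_ball_self hε, ?_⟩
      rw [Matrix.det_isEmpty]
      exact one_ne_zero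
    · have := Nat.find_min hM (m := n) (by omega)
      push Not at this
      exact this
  obtain ⟨M, hM0, r, ζs, hζs, hne⟩ := hmin
  refine ⟨M, fun ζ l => (-1) ^ (l : ℕ) *
    (Matrix.of fun (i : Fin M) (k : Fin M) => hkm f zc ρ ζ (r i) ((l.succAbove k : Fin (M + 1)) : ℕ)).det,
    ?_, ⟨ζs, hζs, ?_⟩, ?_⟩
  · rw [differentiableOn_pi]
    intro l
    refine DifferentiableOn.const_mul ?_ _
    exact hj_det hρ h1 h2 hf r fun k => ((l.succAbove k : Fin (M + 1)) : ℕ)
  · intro h0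
    have h3 := congrFun h0 (Fin.last M)
    simp only [Pi.zero_apply, mul_eq_zero] at h3
    rcases h3 with h3 | h3
    · exact (pow_ne_zero _ (by norm_num : (-1 : ℂ) ≠ 0)) h3
    · apply hne
      rw [← h3]
      congr 1
      ext i k
      simp
  · intro ζ hζ p
    have h3 := hM0 (Fin.cons p r) ζ hζ
    rw [Matrix.det_succ_row_zero] at h3
    rw [← h3]
    refine Finset.sum_congr rfl fun l _ => ?_
    simp only [Matrix.of_apply, Fin.cons_zero]
    have h4 : (Matrix.of fun (i : Fin M) (k : Fin M) =>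
        hkm f zc ρ ζ (r i) ((l.succAbove k : Fin (M + 1)) : ℕ)) =
        (Matrix.of fun (i : Fin (M + 1)) (l : Fin (M + 1)) =>
          hkm f zc ρ ζ ((Fin.cons p r : Fin (M + 1) → Fin (N + 1) × ℕ) i) l).submatrix
            Fin.succ l.succAbove := by
      ext i k
      simp
    rw [h4]
    ring

end

/-- **Hankel determinants**, joint version. -/
theorem hankel_joint {N : ℕ} {ζ₀ : ℂ} {ε : ℝ} (hε : 0 < ε) {zc : ℂ} {r₁ r₂ : ℝ} (hr₁ : 0 < r₁)
    (hr : r₁ < r₂) {f : ℂ × ℂ → Fin (N + 1) → ℂ}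
    (hf : DifferentiableOn ℂ f (ball ζ₀ ε ×ˢ {z | r₁ < dist z zc ∧ dist z zc < r₂}))
    {T : Set ℂ} (hT : T ⊆ ball ζ₀ ε) (hTu : ¬ T.Countable)
    (hq : ∀ ζ ∈ T, ∃ q : Polynomial ℂ, q ≠ 0 ∧ ∃ g : ℂ → Fin (N + 1) → ℂ,
      DifferentiableOn ℂ g (ball zc r₂) ∧
        ∀ z, r₁ < dist z zc → dist z zc < r₂ → g z = q.eval z • f (ζ, z)) :
    ∃ ε' : ℝ, 0 < ε' ∧ ε' ≤ ε ∧ ∃ (Q : ℂ × ℂ → ℂ) (G : ℂ × ℂ → Fin (N + 1) → ℂ),
      DifferentiableOn ℂ Q (ball ζ₀ ε' ×ˢ univ) ∧
      (∀ ζ ∈ ball ζ₀ ε', ∃ q : Polynomial ℂ, q ≠ 0 ∧ ∀ z, Q (ζ, z) = q.eval z) ∧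
      DifferentiableOn ℂ G (ball ζ₀ ε' ×ˢ ball zc r₂) ∧
      ∀ ζ ∈ ball ζ₀ ε', ∀ z, r₁ < dist z zc → dist z zc < r₂ → G (ζ, z) = Q (ζ, z) • f (ζ, z) := by
  classical
  obtain ⟨ρ, hρ1, hρ2⟩ := exists_between hr
  have hρ : 0 < ρ := hr₁.trans hρ1
  obtain ⟨M, c, hcd, ⟨ζs, hζs, hcs⟩, hck⟩ :=
    hj_kernel hρ hρ1 hρ2 hε hf (hj_minors hr₁ hρ1 hρ2 hf hT hTu hq)
  have hζ₀ : ζ₀ ∈ ball ζ₀ ε := mem_ball_self hε
  have hca : AnalyticOnNhd ℂ c (ball ζ₀ ε) := hcd.analyticOnNhd isOpen_ball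
  have hnz : ¬ ∀ᶠ ζ in 𝓝 ζ₀, c ζ = 0 := fun h =>
    hcs (hca.eqOn_zero_of_preconnected_of_eventuallyEq_zero (convex_ball _ _).isPreconnected
      hζ₀ h hζs)
  obtain ⟨n, d, hda, hd0, hde⟩ :=
    ((hca ζ₀ hζ₀).exists_eventuallyEq_pow_smul_nonzero_iff).2 hnz
  have hev : ∀ᶠ ζ in 𝓝 ζ₀, AnalyticAt ℂ d ζ ∧ d ζ ≠ 0 ∧ c ζ = (ζ - ζ₀) ^ n • d ζ :=
    hda.eventually_analyticAt.and ((hda.continuousAt.eventually_ne hd0).and hde)
  obtain ⟨ε₁, hε₁, hball⟩ := Metric.eventually_nhds_iff_ball.1 hev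
  set ε' : ℝ := min ε₁ ε with hε'd
  have hε' : 0 < ε' := lt_min hε₁ hε
  have hsub : ball ζ₀ ε' ⊆ ball ζ₀ ε := ball_subset_ball (min_le_right _ _)
  have hsub₁ : ball ζ₀ ε' ⊆ ball ζ₀ ε₁ := ball_subset_ball (min_le_left _ _)
  have hda' : ∀ ζ ∈ ball ζ₀ ε', AnalyticAt ℂ d ζ := fun ζ hζ => (hball ζ (hsub₁ hζ)).1
  have hdl : ∀ ζ ∈ ball ζ₀ ε', ∀ l, DifferentiableAt ℂ (fun ζ => d ζ l) ζ := fun ζ hζ l =>
    (differentiableAt_pi.1 (hda' ζ hζ).differentiableAt) l
  have hdk : ∀ ζ ∈ ball ζ₀ ε', ∀ p, ∑ l : Fin (M + 1), d ζ l * hkm f zc ρ ζ p l = 0 := by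
    have h1 : ∀ ζ ∈ ball ζ₀ ε', ζ ≠ ζ₀ → ∀ p, ∑ l : Fin (M + 1), d ζ l * hkm f zc ρ ζ p l = 0 := by
      intro ζ hζ hne p
      have h2 := hck ζ (hsub hζ) p
      rw [(hball ζ (hsub₁ hζ)).2.2] at h2
      simp only [Pi.smul_apply, smul_eq_mul, mul_assoc] at h2
      rw [← Finset.mul_sum] at h2
      exact (mul_eq_zero.1 h2).resolve_left (pow_ne_zero _ (sub_ne_zero.2 hne))
    intro ζ hζ p
    by_cases hne : ζ = ζ₀
    · subst hne
      have hcont : ContinuousAt (fun ξ => ∑ l : Fin (M + 1), d ξ l * hkm f zc ρ ξ p l) ζ := by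
        refine DifferentiableAt.continuousAt (𝕜 := ℂ) ?_
        refine DifferentiableAt.fun_sum fun l _ => ?_
        refine (hdl ζ hζ l).mul ?_
        exact (hj_diff hρ hρ1 hρ2 hf p l).differentiableAt (isOpen_ball.mem_nhds (hsub hζ))
      have h2 : Tendsto (fun ξ => ∑ l : Fin (M + 1), d ξ l * hkm f zc ρ ξ p l) (𝓝[≠] ζ) (𝓝 0) := by
        refine tendsto_const_nhds.congr' ?_
        have h3 : ∀ᶠ ξ in 𝓝[≠] ζ, ξ ∈ ball ζ ε' :=
          eventually_nhdsWithin_of_eventually_nhds (isOpen_ball.mem_nhds hζ)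
        filter_upwards [h3, self_mem_nhdsWithin] with ξ h4 h5
        exact (h1 ξ h4 h5 p).symm
      exact tendsto_nhds_unique (hcont.tendsto.mono_left nhdsWithin_le_nhds) h2
    · exact h1 ζ hζ hne p
  -- the polynomials
  set Q : ℂ × ℂ → ℂ := fun q => ∑ l : Fin (M + 1), d q.1 l * q.2 ^ (l : ℕ) with hQ
  have hQd : DifferentiableOn ℂ Q (ball ζ₀ ε' ×ˢ univ) := by
    intro q hq'
    refine DifferentiableAt.differentiableWithinAt ?_
    refine DifferentiableAt.fun_sum fun l _ => ?_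
    refine DifferentiableAt.mul ?_ (by fun_prop)
    exact (hdl q.1 hq'.1 l).comp q differentiableAt_fst
  have hQe : ∀ ζ ∈ ball ζ₀ ε', ∃ q : Polynomial ℂ, q ≠ 0 ∧ ∀ z, Q (ζ, z) = q.eval z := by
    intro ζ hζ
    refine ⟨∑ l : Fin (M + 1), Polynomial.C (d ζ l) * Polynomial.X ^ (l : ℕ), ?_, ?_⟩
    · intro h0
      apply (hball ζ (hsub₁ hζ)).2.1
      funext l
      have h1 := congrArg (fun P : Polynomial ℂ => P.coeff l) h0
      simp only [Polynomial.finsetSum_coeff, Polynomial.coeff_C_mul, Polynomial.coeff_X_pow,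
        Polynomial.coeff_zero] at h1
      rw [Finset.sum_eq_single l] at h1
      · simpa using h1
      · intro b _ hb
        have : ¬ ((l : ℕ) = (b : ℕ)) := fun h => hb (Fin.ext h.symm)
        simp [this]
      · simp
    · intro z
      rw [Polynomial.eval_finsetSum]
      exact Finset.sum_congr rfl fun l _ => by simp
  -- the extensions
  have hext : ∀ (ζ : ℂ) (j : Fin (N + 1)), ∃ J : ℂ → ℂ, ζ ∈ ball ζ₀ ε' →
      DifferentiableOn ℂ J (ball zc r₂) ∧
        ∀ z, r₁ < dist z zc → dist z zc < r₂ → J z = Q (ζ, z) * f (ζ, z) j := by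
    intro ζ j
    by_cases hζ : ζ ∈ ball ζ₀ ε'
    · have hQz : DifferentiableOn ℂ (fun z => Q (ζ, z)) {z | r₁ < dist z zc ∧ dist z zc < r₂} := by
        refine hQd.comp (f := fun z : ℂ => (ζ, z)) ?_ fun z hz => ⟨hζ, mem_univ _⟩
        exact (differentiable_const ζ).prodMk differentiable_id |>.differentiableOn
      have hhd := hQz.mul (hj_slice hf (hsub hζ) j)
      have h0 : ∀ n : ℕ, (∮ z in C(zc, ρ), z ^ n * (Q (ζ, z) * f (ζ, z) j)) = 0 := by
        intro n
        have h1 := hj_key hρ hρ1 hρ2 hf (hsub hζ) (d ζ) (j, n)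
        rw [hdk ζ hζ (j, n)] at h1
        exact h1.symm
      obtain ⟨J, hJ1, hJ2⟩ := Pool.Agent.H62.EL.ext_annulus hr₁ hr
        (J := fun z => Q (ζ, z) * f (ζ, z) j) (b := zc) (by
          refine hhd.mono ?_
          rintro z ⟨hz1, hz2⟩
          rw [← dist_eq_norm] at hz1 hz2
          exact ⟨hz1, hz2⟩) (by
          intro n r hrr hrr'
          have := hankel_moment hr₁ hρ1 hρ2 hhd h0 ((Polynomial.X - Polynomial.C zc) ^ n) hrr hrr'
          simpa using this)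
      refine ⟨J, fun _ => ⟨hJ1, fun z hz1 hz2 => ?_⟩⟩
      rw [dist_eq_norm] at hz1 hz2
      exact hJ2 z hz1 hz2
    · exact ⟨0, fun h => absurd h hζ⟩
  choose J hJ using hext
  refine ⟨ε', hε', min_le_right _ _, Q, fun q j => J q.1 j q.2, hQd, hQe, ?_, ?_⟩
  · rw [differentiableOn_pi]
    rintro j ⟨ζ₁, z₁⟩ ⟨hζ₁, hz₁⟩
    rw [mem_ball] at hz₁
    refine DifferentiableAt.differentiableWithinAt (AnalyticAt.differentiableAt ?_)
    -- a circle around `z₁`
    obtain ⟨ρ', hρ'1, hρ'2⟩ := exists_between (max_lt hz₁ hr)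
    have hzρ : dist z₁ zc < ρ' := (le_max_left _ _).trans_lt hρ'1
    have hrρ : r₁ < ρ' := (le_max_right _ _).trans_lt hρ'1
    have hρ' : 0 < ρ' := hr₁.trans hrρ
    have hsph := hankel_sphere (zc := zc) hrρ hρ'2
    obtain ⟨δ₁, hδ₁, hδb⟩ := Metric.isOpen_iff.1 isOpen_ball ζ₁ hζ₁
    set δ : ℝ := min (δ₁ / 2) ((ρ' - dist z₁ zc) / 2) with hδd
    have hδ : 0 < δ := lt_min (by linarith) (by linarith)
    have hcb : closedBall ζ₁ δ ⊆ ball ζ₀ ε' := by
      refine Subset.trans ?_ hδb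
      refine closedBall_subset_ball ?_
      have : δ ≤ δ₁ / 2 := min_le_left _ _
      linarith
    have hzb : ball z₁ δ ⊆ ball zc ρ' := by
      intro z hz
      rw [mem_ball] at hz ⊢
      have h1 : δ ≤ (ρ' - dist z₁ zc) / 2 := min_le_right _ _
      have := dist_triangle z z₁ zc
      linarith
    have hQf : ContinuousOn (fun q : ℂ × ℂ => Q q * f q j)
        (ball ζ₀ ε' ×ˢ {z | r₁ < dist z zc ∧ dist z zc < r₂}) :=
      (hQd.continuousOn.mono (Set.prod_mono subset_rfl (subset_univ _))).mul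
        ((differentiableOn_pi.1 hf j).continuousOn.mono (Set.prod_mono hsub subset_rfl))
    have hK : IsCompact (closedBall ζ₁ δ ×ˢ sphere zc ρ') :=
      (isCompact_closedBall _ _).prod (isCompact_sphere _ _)
    obtain ⟨K, hKb⟩ := hK.exists_bound_of_continuousOn (hQf.mono (Set.prod_mono hcb hsph))
    have hcl : ∀ ζ ∈ ball ζ₀ ε', DiffContOnCl ℂ (J ζ j) (ball zc ρ') := by
      intro ζ hζ
      refine DifferentiableOn.diffContOnCl ?_
      rw [closure_ball _ hρ'.ne']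
      exact (hJ ζ j hζ).1.mono (closedBall_subset_ball hρ'2)
    refine Pool.Agent.TH.osgood (f := fun q : ℂ × ℂ => J q.1 j q.2) hδ (M := K) ?_ ?_ ?_
    · intro ζ hζ z hz
      have hζ' : ζ ∈ ball ζ₀ ε' := hcb (ball_subset_closedBall hζ)
      refine Complex.norm_le_of_forall_mem_frontier_norm_le isBounded_ball (hcl ζ hζ') ?_
        (subset_closure (hzb hz))
      intro w hw
      rw [frontier_ball _ hρ'.ne'] at hw
      rw [(hJ ζ j hζ').2 w (hsph hw).1 (hsph hw).2]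
      exact hKb (ζ, w) ⟨ball_subset_closedBall hζ, hw⟩
    · intro z hz
      have hzρ' : z ∈ ball zc ρ' := hzb hz
      have hwz : ∀ w ∈ sphere zc ρ', w - z ≠ 0 := by
        intro w hw h0
        rw [sub_eq_zero] at h0
        rw [mem_sphere, h0] at hw
        rw [mem_ball, hw] at hzρ'
        exact lt_irrefl _ hzρ'
      have hpar : DifferentiableOn ℂ
          (fun ζ => ∮ w in C(zc, ρ'), (w - z)⁻¹ * (Q (ζ, w) * f (ζ, w) j)) (ball ζ₀ ε') := by
        refine hankel_param isOpen_ball hρ'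
          (F := fun q : ℂ × ℂ => (q.2 - z)⁻¹ * (Q q * f q j)) ?_ ?_
        · refine ContinuousOn.mul ?_ (hQf.mono (Set.prod_mono subset_rfl hsph))
          exact ContinuousOn.inv₀ (by fun_prop) fun q hq' => hwz q.2 hq'.2
        · intro w hw
          refine DifferentiableOn.const_mul (b := (w - z)⁻¹) ?_
          refine DifferentiableOn.mul ?_ ?_
          · refine hQd.comp (f := fun ζ : ℂ => (ζ, w)) ?_ fun ζ hζ => ⟨hζ, mem_univ _⟩
            exact differentiable_id.prodMk (differentiable_const w) |>.differentiableOn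
          · refine (differentiableOn_pi.1 hf j).comp (f := fun ζ : ℂ => (ζ, w)) ?_
              fun ζ hζ => ⟨hsub hζ, hsph hw⟩
            exact differentiable_id.prodMk (differentiable_const w) |>.differentiableOn
      have hform : ∀ ζ ∈ ball ζ₁ δ, (2 * Real.pi * Complex.I : ℂ)⁻¹ *
          (∮ w in C(zc, ρ'), (w - z)⁻¹ * (Q (ζ, w) * f (ζ, w) j)) = J ζ j z := by
        intro ζ hζ
        have hζ' : ζ ∈ ball ζ₀ ε' := hcb (ball_subset_closedBall hζ)
        have h1 := (hcl ζ hζ').two_pi_i_inv_smul_circleIntegral_sub_inv_smul hzρ'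
        rw [← h1, smul_eq_mul]
        congr 1
        refine circleIntegral.integral_congr hρ'.le fun w hw => ?_
        simp only [smul_eq_mul]
        rw [(hJ ζ j hζ').2 w (hsph hw).1 (hsph hw).2]
      refine DifferentiableOn.congr (f := fun ζ => (2 * Real.pi * Complex.I : ℂ)⁻¹ *
          (∮ w in C(zc, ρ'), (w - z)⁻¹ * (Q (ζ, w) * f (ζ, w) j))) ?_
        fun ζ hζ => (hform ζ hζ).symm
      refine DifferentiableOn.const_mul ?_ _
      exact hpar.mono fun ζ hζ => hcb (ball_subset_closedBall hζ)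
    · intro ζ hζ
      have hζ' : ζ ∈ ball ζ₀ ε' := hcb (ball_subset_closedBall hζ)
      exact (hJ ζ j hζ').1.mono (hzb.trans (ball_subset_ball hρ'2.le))
  · intro ζ hζ z hz1 hz2
    funext j
    rw [Pi.smul_apply, smul_eq_mul]
    exact (hJ ζ j hζ).2 z hz1 hz2

end Pool.Agent.G3.C

end
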