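import Pool.Agent.H94.G5T.M18
import Pool.Agent.H94.G5T.M33
import Pool.Agent.H94.G5T.M49

/-! The parts of this file: AD.T.Torus, H62.EL.TbA, H62.FC.LocalEst. -/

section

/-!
# AD T Torus: holomorphic maps to complex tori

`u : X → ℂ^g / Λ` is holomorphic, `Λ` discrete.  The components of `du` are symmetric differentials of degree one; an entire curve `F` with
`du (F') = 0` lies in a fibre of `u`.
-/

set_option autoImplicit false

open Topology Filter Metric MvPolynomial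

namespace Pool.Agent.AD

attribute [-instance] ProperSMul.toContinuousSMul

open Pool.Agent.H36.BP (EN wd)
open Pool.Agent.H14.PP (IsCone Tan CurveAt IsOpenPart)
open Pool.Agent.H22.W (isOpenPart_self tan_smul tan_mem tan_curve)

variable {N g : ℕ}

/-- `u` is a holomorphic map from the variety with the cone `X` to `ℂ^g / Λ` -/
structure TorusMapV (X : Set (EN N)) (Λ : AddSubgroup (Fin g → ℂ)) (u : EN N → (Fin g → ℂ)) : Prop where
  smul : ∀ x ∈ X, ∀ c : ℂ, c ≠ 0 → u (c • x) - u x ∈ Λ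
  loc : ∀ x ∈ X, ∃ v : EN N → (Fin g → ℂ), AnalyticAt ℂ v x ∧ ∀ᶠ y in 𝓝 x, y ∈ X → u y - v y ∈ Λ

/-- a discrete subgroup -/
def DiscreteSub (Λ : AddSubgroup (Fin g → ℂ)) : Prop := ∃ δ : ℝ, 0 < δ ∧ ∀ l ∈ Λ, ‖l‖ < δ → l = 0

variable {X : Set (EN N)} {Λ : AddSubgroup (Fin g → ℂ)} {u : EN N → (Fin g → ℂ)}

open Classical in
/-- a local lift of `u` at `x` -/
noncomputable def TorusMapV.lift (hu : TorusMapV X Λ u) (x : EN N) : EN N → (Fin g → ℂ) :=
  if h : x ∈ X then (hu.loc x h).choose else fun _ => 0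

theorem TorusMapV.lift_an (hu : TorusMapV X Λ u) {x : EN N} (hx : x ∈ X) : AnalyticAt ℂ (hu.lift x) x := by
  unfold TorusMapV.lift
  rw [dif_pos hx]
  exact (hu.loc x hx).choose_spec.1

theorem TorusMapV.lift_mem (hu : TorusMapV X Λ u) {x : EN N} (hx : x ∈ X) : ∀ᶠ y in 𝓝 x, y ∈ X → u y - hu.lift x y ∈ Λ := by
  unfold TorusMapV.lift
  rw [dif_pos hx]
  exact (hu.loc x hx).choose_spec.2

/-- a continuous function with values in a discrete subgroup is locally constant -/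
theorem eventually_const_of_mem (hΛ : DiscreteSub Λ) {h : ℂ → (Fin g → ℂ)} {z₀ : ℂ} (hc : ContinuousAt h z₀)
    (hm : ∀ᶠ z in 𝓝 z₀, h z ∈ Λ) : ∀ᶠ z in 𝓝 z₀, h z = h z₀ := by
  obtain ⟨δ, hδ, hd⟩ := hΛ
  have h1 : ∀ᶠ z in 𝓝 z₀, ‖h z - h z₀‖ < δ := by
    have h2 := hc.eventually (ball_mem_nhds (h z₀) hδ)
    filter_upwards [h2] with z hz
    rw [← dist_eq_norm]
    exact hz
  filter_upwards [h1, hm] with z hz1 hz2
  exact sub_eq_zero.1 (hd _ (Λ.sub_mem hz2 hm.self_of_nhds) hz1)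

/-- two functions which differ locally by an element of a discrete subgroup have the same derivative -/
theorem deriv_eq_of_mem (hΛ : DiscreteSub Λ) {h k : ℂ → (Fin g → ℂ)} {z₀ : ℂ} (hh : AnalyticAt ℂ h z₀) (hk : AnalyticAt ℂ k z₀)
    (hm : ∀ᶠ z in 𝓝 z₀, h z - k z ∈ Λ) : deriv h z₀ = deriv k z₀ := by
  have h1 := eventually_const_of_mem hΛ (hh.sub hk).continuousAt hm
  have h2 : (fun z => h z) =ᶠ[𝓝 z₀] fun z => (h z₀ - k z₀) + k z := by
    filter_upwards [h1] with z hz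
    have hz' : h z - k z = h z₀ - k z₀ := hz
    rw [← hz']
    abel
  rw [show deriv h z₀ = deriv (fun z => (h z₀ - k z₀) + k z) z₀ from h2.deriv_eq, deriv_const_add]

theorem deriv_comp_lift {v : EN N → (Fin g → ℂ)} {F : ℂ → EN N} {z₀ : ℂ} (hF : AnalyticAt ℂ F z₀) (hv : AnalyticAt ℂ v (F z₀)) :
    deriv (fun z => v (F z)) z₀ = fderiv ℂ v (F z₀) (deriv F z₀) :=
  (hv.differentiableAt.hasFDerivAt.comp_hasDerivAt z₀ hF.differentiableAt.hasDerivAt).deriv

/-- the differential of `u` -/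
noncomputable def TorusMapV.du (hu : TorusMapV X Λ u) (x w : EN N) : Fin g → ℂ := fderiv ℂ (hu.lift x) x w

/-- the differential can be computed with every local lift -/
theorem TorusMapV.du_eq (hu : TorusMapV X Λ u) (hΛ : DiscreteSub Λ) {x w : EN N} (hw : Tan X x w) {v : EN N → (Fin g → ℂ)}
    (hv : AnalyticAt ℂ v x) (hvu : ∀ᶠ y in 𝓝 x, y ∈ X → u y - v y ∈ Λ) : hu.du x w = fderiv ℂ v x w := by
  have hx : x ∈ X := tan_mem hw
  obtain ⟨F, hF, h0, hd⟩ := hw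
  subst h0 hd
  have hl := hu.lift_an hx
  have h1 := deriv_eq_of_mem (Λ := Λ) hΛ (h := fun z => hu.lift (F 0) (F z)) (k := fun z => v (F z)) (z₀ := 0)
    (AnalyticAt.comp (g := hu.lift (F 0)) (f := F) hl hF.1) (AnalyticAt.comp (g := v) (f := F) hv hF.1) (by
      have hc : Tendsto F (𝓝 0) (𝓝 (F 0)) := hF.1.continuousAt.tendsto
      filter_upwards [hc.eventually hvu, hc.eventually (hu.lift_mem hx), hF.2] with z h2 h3 h4
      have h5 := Λ.sub_mem (h2 h4) (h3 h4)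
      have h6 : hu.lift (F 0) (F z) - v (F z) = (u (F z) - v (F z)) - (u (F z) - hu.lift (F 0) (F z)) := by abel
      rw [h6]
      exact h5)
  rw [deriv_comp_lift hF.1 hl, deriv_comp_lift hF.1 hv] at h1
  exact h1

/-- the differential along a holomorphic map -/
theorem tan_fderiv {k : ℕ} {φ : (Fin k → ℂ) → EN N} {y : Fin k → ℂ} (hφ : AnalyticAt ℂ φ y) (hX : ∀ᶠ x in 𝓝 y, φ x ∈ X) (w : Fin k → ℂ) :
    Tan X (φ y) (fderiv ℂ φ y w) := by
  have hl : AnalyticAt ℂ (fun z : ℂ => y + z • w) 0 := by fun_prop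
  have h0 : y + (0 : ℂ) • w = y := by simp
  have hφ' : AnalyticAt ℂ φ (y + (0 : ℂ) • w) := by rwa [h0]
  refine ⟨fun z => φ (y + z • w), ⟨AnalyticAt.comp (g := φ) (f := fun z : ℂ => y + z • w) hφ' hl, ?_⟩, by simp, ?_⟩
  · have h1 : Tendsto (fun z : ℂ => y + z • w) (𝓝 0) (𝓝 y) := by
      have := hl.continuousAt.tendsto
      rwa [h0] at this
    exact h1.eventually hX
  · have h1 : HasFDerivAt φ (fderiv ℂ φ y) (y + (0 : ℂ) • w) := by
      rw [h0]
      exact hφ.differentiableAt.hasFDerivAt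
    have h2 : HasDerivAt (fun z : ℂ => y + z • w) w 0 := by
      have h3 : HasDerivAt (fun z : ℂ => z • w) ((1 : ℂ) • w) 0 := (hasDerivAt_id (0 : ℂ)).smul_const w
      rw [one_smul] at h3
      exact h3.const_add y
    exact (h1.comp_hasDerivAt (0 : ℂ) h2).deriv

theorem TorusMapV.du_self (hu : TorusMapV X Λ u) (hΛ : DiscreteSub Λ) (hX : IsCone X) {x : EN N} (hx : x ∈ X) : hu.du x x = 0 := by
  have hl := hu.lift_an hx
  have h1 : AnalyticAt ℂ (fun z : ℂ => (1 + z) • x) 0 := by fun_prop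
  have h00 : (fun z : ℂ => (1 + z) • x) 0 = x := by simp
  have hl' : AnalyticAt ℂ (hu.lift x) ((fun z : ℂ => (1 + z) • x) 0) := by rwa [h00]
  have hne : ∀ᶠ z : ℂ in 𝓝 0, 1 + z ≠ 0 := by
    apply ContinuousAt.eventually_ne
    · fun_prop
    · simp
  have hc : Tendsto (fun z : ℂ => (1 + z) • x) (𝓝 0) (𝓝 x) := by
    have := h1.continuousAt.tendsto
    simpa using this
  have h2 := deriv_eq_of_mem (Λ := Λ) hΛ (h := fun z : ℂ => hu.lift x ((1 + z) • x)) (k := fun _ => u x) (z₀ := 0)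
    (AnalyticAt.comp (g := hu.lift x) (f := fun z : ℂ => (1 + z) • x) hl' h1) analyticAt_const (by
      filter_upwards [hc.eventually (hu.lift_mem hx), hne] with z h3 h4
      have h5 := h3 (hX.smul_mem x hx _ h4)
      have h6 := Λ.sub_mem (hu.smul x hx (1 + z) h4) h5
      have h7 : hu.lift x ((1 + z) • x) - u x = (u ((1 + z) • x) - u x) - (u ((1 + z) • x) - hu.lift x ((1 + z) • x)) := by abel
      rw [h7]
      exact h6)
  rw [deriv_const] at h2
  have h3 : HasDerivAt (fun z : ℂ => (1 + z) • x) x 0 := by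
    have h1 : HasDerivAt (fun h : ℂ => 1 + h) 1 0 := by
      simpa using (hasDerivAt_id (0 : ℂ)).const_add (1 : ℂ)
    have h2 : HasDerivAt (fun h : ℂ => (1 + h) • x) ((1 : ℂ) • x) 0 := h1.smul_const x
    rwa [one_smul] at h2
  have h4 : HasFDerivAt (hu.lift x) (fderiv ℂ (hu.lift x) x) ((fun z : ℂ => (1 + z) • x) 0) := by
    rw [h00]
    exact hl.differentiableAt.hasFDerivAt
  have h5 := (h4.comp_hasDerivAt (0 : ℂ) h3).deriv
  unfold TorusMapV.du
  rw [← h5]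
  exact h2

/-- **The components of the differential are symmetric differentials of degree one.** -/
noncomputable def TorusMapV.symDiff (hu : TorusMapV X Λ u) (hΛ : DiscreteSub Λ) (hX : IsCone X) (j : Fin g) : SymDiff X 1 where
  toFun x w := hu.du x w j
  add_smul x v h a := by
    have h1 : hu.du x (v + a • x) = hu.du x v + a • hu.du x x := by
      unfold TorusMapV.du
      rw [map_add, map_smul]
    rw [h1, hu.du_self hΛ hX (tan_mem h), smul_zero, add_zero]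
  smul x v _ a := by
    have h1 : hu.du x (a • v) = a • hu.du x v := by
      unfold TorusMapV.du
      rw [map_smul]
    rw [h1, pow_one]
    rfl
  scale x v h c hc := by
    have hx := tan_mem h
    have hl := hu.lift_an hx
    have h0 : c⁻¹ • (c • x) = x := by rw [smul_smul, inv_mul_cancel₀ hc, one_smul]
    have h1 : AnalyticAt ℂ (fun y : EN N => c⁻¹ • y) (c • x) := by fun_prop
    have hl' : AnalyticAt ℂ (hu.lift x) ((fun y : EN N => c⁻¹ • y) (c • x)) := by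
      show AnalyticAt ℂ (hu.lift x) (c⁻¹ • (c • x))
      rwa [h0]
    have ht : Tendsto (fun y : EN N => c⁻¹ • y) (𝓝 (c • x)) (𝓝 x) := by
      have := h1.continuousAt.tendsto
      rwa [h0] at this
    have h2 := hu.du_eq hΛ (tan_smul hX h hc) (v := fun y => hu.lift x (c⁻¹ • y))
      (AnalyticAt.comp (g := hu.lift x) (f := fun y : EN N => c⁻¹ • y) hl' h1) (by
        filter_upwards [ht.eventually (hu.lift_mem hx)] with y h3 hy
        have h4 := hX.smul_mem y hy c⁻¹ (inv_ne_zero hc)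
        have h5 := Λ.sub_mem (h3 h4) (hu.smul y hy c⁻¹ (inv_ne_zero hc))
        have h6 := Λ.add_mem (h3 h4) (Λ.neg_mem (hu.smul y hy c⁻¹ (inv_ne_zero hc)))
        have h7 : u y - hu.lift x (c⁻¹ • y) = (u (c⁻¹ • y) - hu.lift x (c⁻¹ • y)) + -(u (c⁻¹ • y) - u y) := by abel
        rw [h7]
        exact h6)
    rw [h2]
    have h8 : HasFDerivAt (fun y : EN N => hu.lift x (c⁻¹ • y)) ((fderiv ℂ (hu.lift x) x).comp (c⁻¹ • ContinuousLinearMap.id ℂ (EN N))) (c • x) := by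
      have h9 : HasFDerivAt (hu.lift x) (fderiv ℂ (hu.lift x) x) ((fun y : EN N => c⁻¹ • y) (c • x)) := by
        show HasFDerivAt (hu.lift x) (fderiv ℂ (hu.lift x) x) (c⁻¹ • (c • x))
        rw [h0]
        exact hl.differentiableAt.hasFDerivAt
      exact h9.comp (c • x) ((hasFDerivAt_id (c • x)).const_smul c⁻¹)
    rw [h8.fderiv]
    show (fderiv ℂ (hu.lift x) x (c⁻¹ • (c • v))) j = (fderiv ℂ (hu.lift x) x v) j
    rw [smul_smul, inv_mul_cancel₀ hc, one_smul]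
  analytic k φ p w hφ hφX := by
    have hx : φ p ∈ X := hφX.self_of_nhds
    have hl := hu.lift_an hx
    have hcomp : AnalyticAt ℂ (fun y => hu.lift (φ p) (φ y)) p := AnalyticAt.comp (g := hu.lift (φ p)) (f := φ) hl hφ
    have h1 : AnalyticAt ℂ (fun y : (Fin k → ℂ) × (Fin k → ℂ) => fderiv ℂ (fun y => hu.lift (φ p) (φ y)) y.1 y.2) (p, w) := by
      have h2 : AnalyticAt ℂ (fun y : (Fin k → ℂ) × (Fin k → ℂ) => fderiv ℂ (fun y => hu.lift (φ p) (φ y)) y.1) (p, w) :=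
        AnalyticAt.comp (g := fderiv ℂ (fun y => hu.lift (φ p) (φ y))) (f := fun y : (Fin k → ℂ) × (Fin k → ℂ) => y.1) hcomp.fderiv analyticAt_fst
      exact AnalyticAt.comp (g := fun q : ((Fin k → ℂ) →L[ℂ] (Fin g → ℂ)) × (Fin k → ℂ) => q.1 q.2)
        (f := fun y : (Fin k → ℂ) × (Fin k → ℂ) => (fderiv ℂ (fun y => hu.lift (φ p) (φ y)) y.1, y.2))
        ((ContinuousLinearMap.id ℂ ((Fin k → ℂ) →L[ℂ] (Fin g → ℂ))).analyticAt_bilinear _) (h2.prod analyticAt_snd)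
    have h3 : AnalyticAt ℂ (fun y : (Fin k → ℂ) × (Fin k → ℂ) => (fderiv ℂ (fun y => hu.lift (φ p) (φ y)) y.1 y.2) j) (p, w) :=
      AnalyticAt.comp (g := fun v : Fin g → ℂ => v j) (f := fun y : (Fin k → ℂ) × (Fin k → ℂ) => fderiv ℂ (fun y => hu.lift (φ p) (φ y)) y.1 y.2)
        ((ContinuousLinearMap.proj (R := ℂ) (φ := fun _ : Fin g => ℂ) j).analyticAt _) h1
    refine h3.congr ?_
    have hφc : Tendsto (fun y : (Fin k → ℂ) × (Fin k → ℂ) => φ y.1) (𝓝 (p, w)) (𝓝 (φ p)) :=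
      hφ.continuousAt.tendsto.comp continuousAt_fst.tendsto
    have e1 : ∀ᶠ y : (Fin k → ℂ) × (Fin k → ℂ) in 𝓝 (p, w), AnalyticAt ℂ (hu.lift (φ p)) (φ y.1) := hφc.eventually hl.eventually_analyticAt
    have e2 : ∀ᶠ y : (Fin k → ℂ) × (Fin k → ℂ) in 𝓝 (p, w), ∀ᶠ x in 𝓝 (φ y.1), x ∈ X → u x - hu.lift (φ p) x ∈ Λ :=
      hφc.eventually (hu.lift_mem hx).eventually_nhds
    have hfst : Tendsto (fun y : (Fin k → ℂ) × (Fin k → ℂ) => y.1) (𝓝 (p, w)) (𝓝 p) := continuousAt_fst.tendsto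
    have e3 : ∀ᶠ y : (Fin k → ℂ) × (Fin k → ℂ) in 𝓝 (p, w), AnalyticAt ℂ φ y.1 := hfst.eventually hφ.eventually_analyticAt
    have e4 : ∀ᶠ y : (Fin k → ℂ) × (Fin k → ℂ) in 𝓝 (p, w), ∀ᶠ x in 𝓝 y.1, φ x ∈ X := hfst.eventually hφX.eventually_nhds
    filter_upwards [e1, e2, e3, e4] with y h4 h5 h6 h7
    rw [hu.du_eq hΛ (tan_fderiv h6 h7 y.2) h4 h5]
    have h8 : HasFDerivAt (fun x => hu.lift (φ p) (φ x)) ((fderiv ℂ (hu.lift (φ p)) (φ y.1)).comp (fderiv ℂ φ y.1)) y.1 :=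
      HasFDerivAt.comp (g := hu.lift (φ p)) (f := φ) y.1 h4.differentiableAt.hasFDerivAt h6.differentiableAt.hasFDerivAt
    rw [h8.fderiv]
    rfl

end Pool.Agent.AD

end

section

/-!
# EL TbA: covering a bad fibre by charts

Let `F_b = {x ∈ X : u x - b ∈ Λ}`, `D = pr '' F_b`, a compact set: `pr '' X` is compact (`isCompact_pr`), and `D` is closed in it: if `x_n ∈ F_b`, `pr x_n → pr x`,
`x ∈ X`, rescale (`near_of_pr`): `c_n • x_n → x`, in `F_b` (`TorusMap.smul`); a local lift `v` of `u` at `x` (`TorusMap.loc`) has `v (c_n x_n) ∈ b + Λ` and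
converges to `v x`; `b + Λ` is closed (`Λ` is discrete), so `u x - b ∈ Λ`.
If `D` is empty: `T` with `m = 0`, `𝒲 = ∅`, and `s` small such that no point of `X` is over `ball b s` (same argument).
(1) `η > 0` with `2η` smaller than the norms of the nonzero elements of `Λ`.  For every `x ∈ F_b` take `χ_x, ρ, i, j` from `exists_nc_chart` (size `η`), and `R_x > 0` such
that every `w ∈ X` with `dist (pr w) (pr x) < R_x` is in `χ_x.U` (`near_of_pr`, `smul_U`).
(2) finitely many balls `dist (·) (pr x_k) < R_k / 2` cover `D`.  `T`: the charts `χ_{x_k}`, `W k = {w : w ≠ 0, w ∈ χ_k.U, dist (pr w) (pr x_k) < R_k / 2}`, open cones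
(`continuousAt_pr`, `pr_smul`).  `R = min R_k > 0`.
(3) witnesses: for every `y ∈ F_b` choose by `exists_nc_chart` with size `min η (R/8)` a chart `χ'_y` (all its points are within `R/8` of `pr y`), and `R'_y ≤ R`, `R'_y > 0`
such that every `w ∈ X` with `dist (pr w) (pr y) < R'_y` is in `χ'_y.U`.  `p ↦ pr (χ'_y.σ p)` is continuous: choose `0 < r_y ≤ 2` with
`dist (pr (χ'_y.σ p)) (pr y) < R'_y / 4` for `p ∈ ball 0 r_y` (`χ'_y.q y = 0`, so `pr (χ'_y.σ 0) = pr y`).  `𝒲` = the set of all these `(χ'_y, ρ', i', j', r_y)`, `y ∈ F_b`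
(one choice for each `y`).
(4) `sub`: if `χ'_y.σ p ∈ W k` for one `p ∈ ball 0 r_y`: `dist (pr y) (pr x_k) < R_k/2 + R/8`, so all points of `χ'_y` are within `R_k/2 + R/4 < R_k` of `pr x_k`
and in `X`, so in `χ_k.U`.
(5) `nest`: a common point: `dist (pr y) (pr y') < R'_y/4 + R'_{y'}/4`.  If `R'_y ≤ R'_{y'}`: the points of `χ'_y` with `p ∈ ball 0 r_y` are within `R'_y/4` of `pr y`, so within
`3 R'_{y'}/4` of `pr y'`: in `χ'_{y'}.U`.  Otherwise symmetric.
(6) `s`: there is `0 < s ≤ η` such that for `z ∈ ball b s`, `x ∈ X`, `u x - z ∈ Λ`, the point `pr x` is in the open set `O = ⋃_k {dist (·) (pr x_k) < R_k/2} ∩ ⋃_y pr(part of χ'_y)`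
in the following sense: there is `k` with `x ∈ W k`, and `y` with `x ∈ χ'_y.U`, `χ'_y.q x ∈ ball 0 r_y`.  Otherwise there are `x_n ∈ X`, `z_n → b`, `u x_n - z_n ∈ Λ` violating it;
along an ultrafilter `pr x_n → pr x`, `x ∈ X`, rescaled `x_n → x` (both conditions are invariant under scaling), `u x - b ∈ Λ` as above (`v x_n - z_n ∈ Λ`, closed), so
`x ∈ F_b`; `dist (pr x) (pr x_k) < R_k / 2` for some `k`, so eventually `x_n ∈ W k` (`x ∈ χ_k.U` open); and with `y = x`: `x ∈ χ'_x.U`, `χ'_x.q x = 0`, so eventually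
`x_n ∈ χ'_x.U` and `χ'_x.q x_n ∈ ball 0 r_x`: contradiction.
-/

set_option autoImplicit false

open Topology Filter Metric

namespace Pool.Agent.H62.EL

open Pool.Agent.H36.BP (EN wd IsGermChart)
open Pool.Agent.H14.PP (IsCone Chart Tan CurveAt)
open Pool.Agent.H62.EF (Lat MN pr TorusMap Sec Charts)

variable {N : ℕ} {X : Set (EN N)} {Λ : AddSubgroup ℂ} {u : EN N → ℂ}

private theorem isClosed_lat (hΛ : Lat Λ) : IsClosed (Λ : Set ℂ) := by
  obtain ⟨δ, hδ, h⟩ := hΛ.discrete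
  refine Metric.isClosed_of_pairwise_le_dist hδ ?_
  intro x hx y hy hxy
  by_contra hlt
  push Not at hlt
  rw [dist_eq_norm] at hlt
  exact hxy (sub_eq_zero.mp (h _ (Λ.sub_mem hx hy) hlt))

private theorem lim_mem (hΛ : Lat Λ) (hu : TorusMap X Λ u) {l : Filter ℕ} [l.NeBot] {y : ℕ → EN N} {z : ℕ → ℂ} {x : EN N} {b : ℂ}
    (hx : x ∈ X) (hy : Tendsto y l (𝓝 x)) (hz : Tendsto z l (𝓝 b)) (h : ∀ᶠ i in l, y i ∈ X ∧ u (y i) - z i ∈ Λ) : u x - b ∈ Λ := by
  obtain ⟨v, hv, hv'⟩ := hu.loc x hx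
  have h1 : Tendsto (fun i => v (y i) - z i) l (𝓝 (v x - b)) := (hv.continuousAt.tendsto.comp hy).sub hz
  have h2 : ∀ᶠ i in l, v (y i) - z i ∈ (Λ : Set ℂ) := by
    filter_upwards [h, hy.eventually hv'] with i hi hi'
    have h3 : v (y i) - z i = u (y i) - z i - (u (y i) - v (y i)) := by ring
    rw [h3]
    exact Λ.sub_mem hi.2 (hi' hi.1)
  have h4 : v x - b ∈ Λ := (isClosed_lat hΛ).mem_of_tendsto h1 h2
  have h5 := hv'.self_of_nhds hx
  have h6 : u x - b = (u x - v x) + (v x - b) := by ring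
  rw [h6]
  exact Λ.add_mem h5 h4

private theorem compact_unit (hX : IsCone X) : IsCompact (X ∩ sphere (0 : EN N) 1) := by
  have h1 : X ∩ sphere (0 : EN N) 1 = (insert 0 X) ∩ sphere (0 : EN N) 1 := by
    ext x
    constructor
    · rintro ⟨hx, hs⟩
      exact ⟨Set.mem_insert_of_mem _ hx, hs⟩
    · rintro ⟨hx, hs⟩
      refine ⟨?_, hs⟩
      rcases hx with rfl | hx
      · simp at hs
      · exact hx
  rw [h1]
  exact (isCompact_sphere (0 : EN N) 1).inter_left hX.closed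

private theorem ne_zero (hX : IsCone X) {x : EN N} (hx : x ∈ X) : x ≠ 0 := fun h => hX.zero_notMem (h ▸ hx)

private theorem exists_unit (hX : IsCone X) {x : EN N} (hx : x ∈ X) : ∃ c : ℂ, c ≠ 0 ∧ c • x ∈ X ∩ sphere (0 : EN N) 1 := by
  have hn : ‖x‖ ≠ 0 := norm_ne_zero_iff.mpr (ne_zero hX hx)
  have hc : (((‖x‖⁻¹ : ℝ)) : ℂ) ≠ 0 := by
    exact_mod_cast inv_ne_zero hn
  refine ⟨(((‖x‖⁻¹ : ℝ)) : ℂ), hc, hX.smul_mem x hx _ hc, ?_⟩
  rw [mem_sphere_zero_iff_norm, norm_smul, Complex.norm_real, norm_inv, norm_norm]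
  exact inv_mul_cancel₀ hn

private theorem smul_mem_lat (hu : TorusMap X Λ u) {x : EN N} (hx : x ∈ X) {z : ℂ} (h : u x - z ∈ Λ) {c : ℂ} (hc : c ≠ 0) :
    u (c • x) - z ∈ Λ := by
  have h3 : u (c • x) - z = u (c • x) - u x + (u x - z) := by ring
  rw [h3]
  exact Λ.add_mem (hu.smul x hx c hc) h

/-- a property which holds near the fibre over `b` holds over a ball -/
private theorem exists_rad (hX : IsCone X) (hΛ : Lat Λ) (hu : TorusMap X Λ u) {b : ℂ} (P : EN N → Prop)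
    (hP : ∀ x ∈ X, P x → ∀ c : ℂ, c ≠ 0 → P (c • x))
    (h : ∀ x ∈ X, u x - b ∈ Λ → ∀ᶠ y in 𝓝 x, y ∈ X → P y) : ∃ s : ℝ, 0 < s ∧ ∀ z ∈ ball b s, ∀ x ∈ X, u x - z ∈ Λ → P x := by
  by_contra hcon
  push Not at hcon
  have h1 : ∀ n : ℕ, ∃ (y : EN N) (z : ℂ), y ∈ X ∩ sphere (0 : EN N) 1 ∧ z ∈ ball b (1 / ((n : ℝ) + 1)) ∧ u y - z ∈ Λ ∧ ¬ P y := by
    intro n
    obtain ⟨z, hz, x, hx, hxz, hPx⟩ := hcon (1 / ((n : ℝ) + 1)) (by positivity)
    obtain ⟨c, hc, hcx⟩ := exists_unit hX hx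
    refine ⟨c • x, z, hcx, hz, smul_mem_lat hu hx hxz hc, ?_⟩
    intro hP'
    have := hP _ hcx.1 hP' c⁻¹ (inv_ne_zero hc)
    rw [smul_smul, inv_mul_cancel₀ hc, one_smul] at this
    exact hPx this
  choose y z hy hz hyz hPy using h1
  obtain ⟨x, hx, φ, hφ, hlim⟩ := (compact_unit hX).tendsto_subseq hy
  have hzl : Tendsto z atTop (𝓝 b) := by
    rw [tendsto_iff_dist_tendsto_zero]
    exact squeeze_zero (fun _ => dist_nonneg) (fun n => (mem_ball.mp (hz n)).le) tendsto_one_div_add_atTop_nhds_zero_nat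
  have hxb : u x - b ∈ Λ := lim_mem hΛ hu hx.1 hlim (hzl.comp hφ.tendsto_atTop) (Eventually.of_forall fun n => ⟨(hy _).1, hyz _⟩)
  obtain ⟨n, hn⟩ := (hlim.eventually (h x hx.1 hxb)).exists
  exact hPy _ (hn (hy _).1)

private theorem compact_fib (hX : IsCone X) (hΛ : Lat Λ) (hu : TorusMap X Λ u) (b : ℂ) :
    IsCompact {x : EN N | x ∈ X ∩ sphere (0 : EN N) 1 ∧ u x - b ∈ Λ} := by
  refine IsSeqCompact.isCompact ?_
  intro y hy
  obtain ⟨x, hx, φ, hφ, hlim⟩ := (compact_unit hX).tendsto_subseq (fun n => (hy n).1)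
  exact ⟨x, ⟨hx, lim_mem hΛ hu hx.1 hlim tendsto_const_nhds (Eventually.of_forall fun n => ⟨(hy _).1.1, (hy _).2⟩)⟩, φ, hφ, hlim⟩

private theorem exists_R (hX : IsCone X) (χ : Chart X) {x : EN N} (hx : x ∈ X) (hxU : x ∈ χ.U) :
    ∃ R : ℝ, 0 < R ∧ ∀ w ∈ X, dist (pr w) (pr x) < R → w ∈ χ.U := by
  obtain ⟨R, hR, h⟩ := Pool.Agent.H62.EF.near_of_pr (ne_zero hX hx) (χ.isOpen_U.mem_nhds hxU)
  refine ⟨R, hR, fun w hw hd => ?_⟩
  obtain ⟨c, hc, hcw⟩ := h w (ne_zero hX hw) hd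
  have := χ.smul_U _ hcw c⁻¹ (inv_ne_zero hc)
  rwa [smul_smul, inv_mul_cancel₀ hc, one_smul] at this

private theorem exists_r (hX : IsCone X) (χ : Chart X) {x : EN N} (hx : x ∈ X) (hxU : x ∈ χ.U) (hq : χ.q x = 0) {ε : ℝ} (hε : 0 < ε) :
    ∃ r : ℝ, 0 < r ∧ r ≤ 2 ∧ ∀ p ∈ ball (0 : ℂ × ℂ) r, dist (pr (χ.σ p)) (pr x) < ε := by
  have h0 : (0 : ℂ × ℂ) ∈ ball (0 : ℂ × ℂ) 2 := mem_ball_self two_pos
  obtain ⟨c, hc, hxc⟩ := (χ.surj x hx hxU).2
  rw [hq] at hxc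
  have h1 : pr x = pr (χ.σ 0) := by
    conv_lhs => rw [hxc]
    exact Pool.Agent.H62.EF.pr_smul _ hc
  have hc1 : ContinuousAt (fun p => pr (χ.σ p)) 0 :=
    (Pool.Agent.H62.EF.continuousAt_pr (ne_zero hX (χ.σ_mem 0 h0).1)).comp (χ.σ_an 0 h0).continuousAt
  have h2 : ∀ᶠ p in 𝓝 (0 : ℂ × ℂ), dist (pr (χ.σ p)) (pr x) < ε := by
    rw [h1]
    exact Metric.tendsto_nhds.mp hc1.tendsto ε hε
  obtain ⟨r, hr, h⟩ := Metric.eventually_nhds_iff_ball.mp h2
  exact ⟨min r 2, lt_min hr two_pos, min_le_right _ _, fun p hp => h p (ball_subset_ball (min_le_left _ _) hp)⟩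

theorem exists_tube_geo {Γ : AddSubgroup ℂ} {B : Set ℂ} {δ : ℝ} (E : EData X Λ u Γ B δ) {b : ℂ} (hb : b ∈ B) :
    ∃ (T : TubeData X) (s η : ℝ) (𝒲 : Set (Wit X)), TubeG Λ u b s η T ∧ WitG Λ u b s η T 𝒲 := by
  have hX := E.cone
  have hu := E.tor
  have hΛ := E.lat
  obtain ⟨d, hd, hdΛ⟩ := hΛ.discrete
  set η : ℝ := d / 2 with hη
  have hη0 : 0 < η := by rw [hη]; positivity
  -- the covering charts
  have h1 : ∀ x : {x : EN N // x ∈ X ∧ u x - b ∈ Λ}, ∃ (χ : Chart X) (ρ : ℝ) (i j : ℕ) (R : ℝ), x.1 ∈ χ.U ∧ Mon Λ u χ b ρ i j ∧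
      (∀ p ∈ ball (0 : ℂ × ℂ) 2, ‖mo b ρ i j p - b‖ < η) ∧ 0 < R ∧ ∀ w ∈ X, dist (pr w) (pr x.1) < R → w ∈ χ.U := by
    rintro ⟨x, hx, hxb⟩
    obtain ⟨χ, ρ, i, j, hxU, -, hm, hs⟩ := exists_nc_chart hX hu (E.nc b hb x hx hxb) hη0
    obtain ⟨R, hR, hRU⟩ := exists_R hX χ hx hxU
    exact ⟨χ, ρ, i, j, R, hxU, hm, fun p hp => (hs p hp).2, hR, hRU⟩
  choose χ ρ i j R hxU hmon hrange hR hRU using h1
  -- the open cones
  set O : {x : EN N // x ∈ X ∧ u x - b ∈ Λ} → Set (EN N) := fun x => {w | w ≠ 0 ∧ w ∈ (χ x).U ∧ dist (pr w) (pr x.1) < R x / 2} with hO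
  have hOopen : ∀ x, IsOpen (O x) := by
    intro x
    rw [isOpen_iff_mem_nhds]
    rintro w ⟨hw0, hwU, hwd⟩
    have e1 : ∀ᶠ y in 𝓝 w, y ≠ 0 := isOpen_ne.mem_nhds hw0
    have e2 : ∀ᶠ y in 𝓝 w, y ∈ (χ x).U := (χ x).isOpen_U.mem_nhds hwU
    have e3 : ∀ᶠ y in 𝓝 w, dist (pr y) (pr x.1) < R x / 2 :=
      ((Pool.Agent.H62.EF.continuousAt_pr hw0).dist continuousAt_const).eventually (gt_mem_nhds hwd)
    filter_upwards [e1, e2, e3] with y h1 h2 h3
    exact ⟨h1, h2, h3⟩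
  have hOsmul : ∀ x, ∀ w ∈ O x, ∀ c : ℂ, c ≠ 0 → c • w ∈ O x := by
    rintro x w ⟨hw0, hwU, hwd⟩ c hc
    refine ⟨smul_ne_zero hc hw0, (χ x).smul_U w hwU c hc, ?_⟩
    rw [Pool.Agent.H62.EF.pr_smul w hc]
    exact hwd
  obtain ⟨t, ht⟩ := (compact_fib hX hΛ hu b).elim_finite_subcover O hOopen (by
    rintro x ⟨⟨hx, -⟩, hxb⟩
    refine Set.mem_iUnion.mpr ⟨⟨x, hx, hxb⟩, ne_zero hX hx, hxU _, ?_⟩
    rw [dist_self]
    exact half_pos (hR _))
  have hcov : ∀ x ∈ X, u x - b ∈ Λ → ∃ y ∈ t, x ∈ O y := by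
    intro x hx hxb
    obtain ⟨c, hc, hcx⟩ := exists_unit hX hx
    obtain ⟨y, hyt, hy⟩ := Set.mem_iUnion₂.mp (ht ⟨hcx, smul_mem_lat hu hx hxb hc⟩)
    refine ⟨y, hyt, ?_⟩
    have := hOsmul y _ hy c⁻¹ (inv_ne_zero hc)
    rwa [smul_smul, inv_mul_cancel₀ hc, one_smul] at this
  obtain ⟨R₀, hR₀, hR₀t⟩ : ∃ R₀ : ℝ, 0 < R₀ ∧ ∀ x ∈ t, R₀ ≤ R x := by
    have e1 : ∀ᶠ r in 𝓝[>] (0 : ℝ), ∀ x ∈ t, r ≤ R x :=
      (Finset.eventually_all t).mpr fun x _ => mem_nhdsWithin_of_mem_nhds (ge_mem_nhds (hR x))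
    obtain ⟨r, hr, hr'⟩ := (e1.and self_mem_nhdsWithin).exists
    exact ⟨r, hr', hr⟩
  -- the witnesses
  have h2 : ∀ x : {x : EN N // x ∈ X ∧ u x - b ∈ Λ}, ∃ (χ' : Chart X) (ρ' : ℝ) (i' j' : ℕ) (R' r' : ℝ), x.1 ∈ χ'.U ∧ χ'.q x.1 = 0 ∧
      Mon Λ u χ' b ρ' i' j' ∧ (∀ p ∈ ball (0 : ℂ × ℂ) 2, dist (pr (χ'.σ p)) (pr x.1) < R₀ / 8) ∧
      (∀ p ∈ ball (0 : ℂ × ℂ) 2, ‖mo b ρ' i' j' p - b‖ < η) ∧ 0 < R' ∧ (∀ w ∈ X, dist (pr w) (pr x.1) < R' → w ∈ χ'.U) ∧
      0 < r' ∧ r' ≤ 2 ∧ ∀ p ∈ ball (0 : ℂ × ℂ) r', dist (pr (χ'.σ p)) (pr x.1) < R' / 4 := by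
    rintro ⟨x, hx, hxb⟩
    obtain ⟨χ', ρ', i', j', hxU', hq, hm, hs⟩ := exists_nc_chart hX hu (E.nc b hb x hx hxb) (lt_min hη0 (by positivity : 0 < R₀ / 8))
    obtain ⟨R', hR', hRU'⟩ := exists_R hX χ' hx hxU'
    obtain ⟨r', hr', hr2, hrr⟩ := exists_r hX χ' hx hxU' hq (by positivity : 0 < R' / 4)
    exact ⟨χ', ρ', i', j', R', r', hxU', hq, hm, fun p hp => lt_of_lt_of_le (hs p hp).1 (min_le_right _ _),
      fun p hp => lt_of_lt_of_le (hs p hp).2 (min_le_left _ _), hR', hRU', hr', hr2, hrr⟩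
  choose χ' ρ' i' j' R' r' hxU' hq' hmon' hsm' hrange' hR' hRU' hr' hr2' hrr' using h2
  -- the radius
  obtain ⟨s₀, hs₀, hs₀P⟩ := exists_rad hX hΛ hu (b := b)
    (fun y => (∃ x ∈ t, y ∈ O x) ∧ ∃ x, y ∈ (χ' x).U ∧ (χ' x).q y ∈ ball (0 : ℂ × ℂ) (r' x))
    (by
      rintro y - ⟨⟨x, hx, hyx⟩, x', hy1, hy2⟩ c hc
      refine ⟨⟨x, hx, hOsmul x y hyx c hc⟩, x', (χ' x').smul_U y hy1 c hc, ?_⟩
      rw [(χ' x').q_smul y hy1 c hc]
      exact hy2)
    (by
      intro x hx hxb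
      obtain ⟨x₁, hx₁, hxO⟩ := hcov x hx hxb
      have e1 : ∀ᶠ y in 𝓝 x, y ∈ O x₁ := (hOopen x₁).mem_nhds hxO
      have e2 : ∀ᶠ y in 𝓝 x, y ∈ (χ' ⟨x, hx, hxb⟩).U := (χ' ⟨x, hx, hxb⟩).isOpen_U.mem_nhds (hxU' ⟨x, hx, hxb⟩)
      have e3 : ∀ᶠ y in 𝓝 x, (χ' ⟨x, hx, hxb⟩).q y ∈ ball (0 : ℂ × ℂ) (r' ⟨x, hx, hxb⟩) := by
        refine ((χ' ⟨x, hx, hxb⟩).q_an x (hxU' ⟨x, hx, hxb⟩)).continuousAt.eventually (isOpen_ball.mem_nhds ?_)
        rw [hq' ⟨x, hx, hxb⟩]
        exact mem_ball_self (hr' _)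
      filter_upwards [e1, e2, e3] with y h1 h2 h3 _
      exact ⟨⟨x₁, hx₁, h1⟩, ⟨x, hx, hxb⟩, h2, h3⟩)
  refine ⟨⟨t.card, fun k => χ (t.equivFin.symm k).1, fun k => ρ (t.equivFin.symm k).1, fun k => i (t.equivFin.symm k).1,
    fun k => j (t.equivFin.symm k).1, fun k => O (t.equivFin.symm k).1⟩, min s₀ η, η,
    Set.range fun x => ⟨χ' x, ρ' x, i' x, j' x, r' x⟩, ?_, ?_⟩
  · refine ⟨lt_min hs₀ hη0, min_le_right _ _, ?_, fun k => hmon _, fun k => hrange _, fun k => hOopen _, ?_, fun k => hOsmul _, ?_⟩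
    · intro l hl hn
      exact hdΛ l hl (by rw [hη] at hn; linarith)
    · rintro k w ⟨-, hw, -⟩
      exact hw
    · intro z hz x hx hxz
      obtain ⟨⟨y, hy, hxy⟩, -⟩ := hs₀P z (ball_subset_ball (min_le_left _ _) hz) x hx hxz
      refine ⟨t.equivFin ⟨y, hy⟩, ?_⟩
      simp only [Equiv.symm_apply_apply]
      exact hxy
  · refine ⟨?_, ?_, ?_, ?_, ?_, ?_⟩
    · rintro w ⟨x, rfl⟩
      exact ⟨hr' x, hr2' x⟩
    · rintro w ⟨x, rfl⟩
      exact hmon' x
    · rintro w ⟨x, rfl⟩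
      exact hrange' x
    · rintro w ⟨x, rfl⟩ k ⟨p, hp, -, -, hpd⟩ p' hp'
      have hk := hR₀t _ (t.equivFin.symm k).2
      have a1 := hsm' x p (ball_subset_ball (hr2' x) hp)
      have a2 := hsm' x p' hp'
      refine hRU _ _ ((χ' x).σ_mem p' hp').1 ?_
      have a3 := dist_triangle (pr ((χ' x).σ p')) (pr x.1) (pr (t.equivFin.symm k).1.1)
      have a4 := dist_triangle (pr x.1) (pr ((χ' x).σ p)) (pr (t.equivFin.symm k).1.1)
      rw [dist_comm (pr x.1) (pr ((χ' x).σ p))] at a4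
      have a5 : dist (pr ((χ' x).σ p)) (pr (t.equivFin.symm k).1.1) < R (t.equivFin.symm k).1 / 2 := hpd
      have a6 : 0 < R (t.equivFin.symm k).1 := hR _
      linarith
    · rintro w ⟨x, rfl⟩ w' ⟨x', rfl⟩ ⟨p, hp, p', hp', hpp⟩
      have a1 : dist (pr ((χ' x).σ p)) (pr x.1) < R' x / 4 := hrr' x p hp
      have a2 : dist (pr ((χ' x').σ p')) (pr x'.1) < R' x' / 4 := hrr' x' p' hp'
      have hpp' : pr ((χ' x).σ p) = pr ((χ' x').σ p') := hpp
      rw [hpp'] at a1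
      have a3 := dist_triangle (pr x.1) (pr ((χ' x').σ p')) (pr x'.1)
      rw [dist_comm (pr x.1) (pr ((χ' x').σ p'))] at a3
      have b1 := hR' x
      have b2 := hR' x'
      rcases le_total (R' x) (R' x') with hle | hle
      · left
        intro q hq
        refine hRU' x' _ ((χ' x).σ_mem q (ball_subset_ball (hr2' x) hq)).1 ?_
        have a4 := hrr' x q hq
        have a5 := dist_triangle (pr ((χ' x).σ q)) (pr x.1) (pr x'.1)
        linarith
      · right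
        intro q hq
        refine hRU' x _ ((χ' x').σ_mem q (ball_subset_ball (hr2' x') hq)).1 ?_
        have a4 := hrr' x' q hq
        have a5 := dist_triangle (pr ((χ' x').σ q)) (pr x'.1) (pr x.1)
        rw [dist_comm (pr x'.1) (pr x.1)] at a5
        linarith
    · intro z hz x hx hxz
      obtain ⟨-, y, hy1, hy2⟩ := hs₀P z (ball_subset_ball (min_le_left _ _) hz) x hx hxz
      exact ⟨_, ⟨y, rfl⟩, hy1, hy2⟩

end Pool.Agent.H62.EL

end

section

/-!
# The local order of the Wronskian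
-/

open Filter Topology MeasureTheory
open Pool.Agent.H92.GGL (ordZ)

noncomputable section

namespace Pool.Agent.H62.FC

/-- `f` vanishes to order at least `b` at `s`, up to the value at `s` -/
def LocalEst_V (s : ℂ) (f : ℂ → ℂ) (b : ℕ) : Prop :=
  ∃ g : ℂ → ℂ, AnalyticAt ℂ g s ∧ f =ᶠ[𝓝[≠] s] fun z => (z - s) ^ b * g z

theorem LocalEst_congr {s : ℂ} {f f' : ℂ → ℂ} {b : ℕ} (h : LocalEst_V s f b)
    (hf : f' =ᶠ[𝓝[≠] s] f) : LocalEst_V s f' b := by
  obtain ⟨g, hg, hfg⟩ := h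
  exact ⟨g, hg, hf.trans hfg⟩

theorem LocalEst_anal_sub (s : ℂ) : AnalyticAt ℂ (fun z : ℂ => z - s) s :=
  analyticAt_id.sub analyticAt_const

theorem LocalEst_mono {s : ℂ} {f : ℂ → ℂ} {b b' : ℕ} (h : LocalEst_V s f b) (hb : b' ≤ b) :
    LocalEst_V s f b' := by
  obtain ⟨g, hg, hfg⟩ := h
  refine ⟨fun z => (z - s) ^ (b - b') * g z, ((LocalEst_anal_sub s).pow _).mul hg, ?_⟩
  filter_upwards [hfg] with z hz
  rw [hz, ← mul_assoc, ← pow_add]
  congr 2
  omega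

theorem LocalEst_mul {s : ℂ} {f f' : ℂ → ℂ} {b b' : ℕ} (h : LocalEst_V s f b)
    (h' : LocalEst_V s f' b') : LocalEst_V s (fun z => f z * f' z) (b + b') := by
  obtain ⟨g, hg, hfg⟩ := h
  obtain ⟨g', hg', hfg'⟩ := h'
  refine ⟨fun z => g z * g' z, hg.mul hg', ?_⟩
  filter_upwards [hfg, hfg'] with z hz hz'
  rw [hz, hz', pow_add]
  ring

theorem LocalEst_const (s c : ℂ) : LocalEst_V s (fun _ => c) 0 :=
  ⟨fun _ => c, analyticAt_const, by
    filter_upwards with z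
    rw [pow_zero, one_mul]⟩

theorem LocalEst_add {s : ℂ} {f f' : ℂ → ℂ} {b : ℕ} (h : LocalEst_V s f b)
    (h' : LocalEst_V s f' b) : LocalEst_V s (fun z => f z + f' z) b := by
  obtain ⟨g, hg, hfg⟩ := h
  obtain ⟨g', hg', hfg'⟩ := h'
  refine ⟨fun z => g z + g' z, hg.add hg', ?_⟩
  filter_upwards [hfg, hfg'] with z hz hz'
  rw [hz, hz']
  ring

theorem LocalEst_zero (s : ℂ) (b : ℕ) : LocalEst_V s (fun _ => 0) b :=
  ⟨fun _ => 0, analyticAt_const, by
    filter_upwards with z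
    rw [mul_zero]⟩

theorem LocalEst_sum {ι : Type*} {s : ℂ} (T : Finset ι) {f : ι → ℂ → ℂ} {b : ℕ}
    (h : ∀ i ∈ T, LocalEst_V s (f i) b) : LocalEst_V s (fun z => ∑ i ∈ T, f i z) b := by
  classical
  induction T using Finset.induction_on with
  | empty => simpa using LocalEst_zero s b
  | insert a T ha ih =>
    have h1 := LocalEst_add (h a (Finset.mem_insert_self a T))
      (ih fun i hi => h i (Finset.mem_insert_of_mem hi))
    refine LocalEst_congr h1 ?_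
    filter_upwards with z
    rw [Finset.sum_insert ha]

theorem LocalEst_prod {ι : Type*} {s : ℂ} (T : Finset ι) {f : ι → ℂ → ℂ} {b : ι → ℕ}
    (h : ∀ i ∈ T, LocalEst_V s (f i) (b i)) :
    LocalEst_V s (fun z => ∏ i ∈ T, f i z) (∑ i ∈ T, b i) := by
  classical
  induction T using Finset.induction_on with
  | empty => simpa using LocalEst_const s 1
  | insert a T ha ih =>
    have h1 := LocalEst_mul (h a (Finset.mem_insert_self a T))
      (ih fun i hi => h i (Finset.mem_insert_of_mem hi))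
    rw [Finset.sum_insert ha]
    refine LocalEst_congr h1 ?_
    filter_upwards with z
    rw [Finset.prod_insert ha]

theorem LocalEst_deriv {s : ℂ} {f : ℂ → ℂ} {b : ℕ} (h : LocalEst_V s f b) :
    LocalEst_V s (deriv f) (b - 1) := by
  obtain ⟨g, hg, hfg⟩ := h
  have h1 := hfg.nhdsNE_deriv
  have h2 : ∀ᶠ z in 𝓝[≠] s, AnalyticAt ℂ g z :=
    hg.eventually_analyticAt.filter_mono nhdsWithin_le_nhds
  rcases b with _ | b
  · refine ⟨deriv g, hg.deriv, ?_⟩
    filter_upwards [h1] with z hz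
    rw [hz]
    simp
  · refine ⟨fun z => ((b : ℂ) + 1) * g z + (z - s) * deriv g z,
      (analyticAt_const.mul hg).add ((LocalEst_anal_sub s).mul hg.deriv), ?_⟩
    filter_upwards [h1, h2] with z hz hgz
    rw [hz]
    have h3 : HasDerivAt (fun z : ℂ => (z - s) ^ (b + 1)) (((b + 1 : ℕ) : ℂ) * (z - s) ^ b) z := by
      have h0 := ((hasDerivAt_id z).sub_const s).fun_pow (b + 1)
      simp only [id_eq, Nat.add_sub_cancel, mul_one] at h0
      exact h0
    have h4 := h3.mul hgz.differentiableAt.hasDerivAt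
    have h5 : deriv (fun z => (z - s) ^ (b + 1) * g z) z =
        ((b + 1 : ℕ) : ℂ) * (z - s) ^ b * g z + (z - s) ^ (b + 1) * deriv g z := h4.deriv
    rw [h5]
    push_cast
    rw [pow_succ]
    ring

theorem LocalEst_iteratedDeriv {s : ℂ} {f : ℂ → ℂ} {b : ℕ} (h : LocalEst_V s f b) (i : ℕ) :
    LocalEst_V s (iteratedDeriv i f) (b - i) := by
  induction i with
  | zero => simpa using h
  | succ i ih =>
    rw [iteratedDeriv_succ]
    have := LocalEst_deriv ih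
    rwa [Nat.sub_sub] at this

theorem LocalEst_det {n : ℕ} {s : ℂ} {A : Fin n → Fin n → ℂ → ℂ} {K : Fin n → ℕ}
    (h : ∀ i j, LocalEst_V s (A i j) (K j)) :
    LocalEst_V s (fun z => (Matrix.of fun i j : Fin n => A i j z).det) (∑ j, K j) := by
  have h1 : LocalEst_V s (fun z => ∑ σ : Equiv.Perm (Fin n),
      ((Equiv.Perm.sign σ : ℤ) : ℂ) * ∏ i, A (σ i) i z) (∑ j, K j) := by
    refine LocalEst_sum _ ?_
    intro σ _
    have h2 := LocalEst_mul (LocalEst_const s ((Equiv.Perm.sign σ : ℤ) : ℂ))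
      (LocalEst_prod Finset.univ (f := fun i => A (σ i) i) (b := K) fun i _ => h (σ i) i)
    rwa [zero_add] at h2
  refine LocalEst_congr h1 ?_
  filter_upwards with z
  rw [Matrix.det_apply']
  rfl

theorem LocalEst_wronsk {n : ℕ} {s : ℂ} {φ : Fin n → ℂ → ℂ} {c : Fin n → ℕ}
    (h : ∀ j, LocalEst_V s (φ j) (c j)) :
    LocalEst_V s (wronsk φ) (∑ j, (c j - (n - 1))) := by
  refine LocalEst_det (A := fun i j => iteratedDeriv i (φ j)) ?_
  intro i j
  refine LocalEst_mono (LocalEst_iteratedDeriv (h j) i) ?_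
  have := i.2
  omega

/-- scaling of the Wronskian -/
theorem LocalEst_scale {n : ℕ} {z : ℂ} {h : ℂ → ℂ} {u : Fin n → ℂ → ℂ}
    (hh : ∀ k : ℕ, ContDiffAt ℂ k h z) (hu : ∀ j, ∀ k : ℕ, ContDiffAt ℂ k (u j) z) :
    wronsk (fun j w => h w * u j w) z = h z ^ n * wronsk u z := by
  have h1 : (Matrix.of fun i j : Fin n => iteratedDeriv i (fun w => h w * u j w) z) =
      (Matrix.of fun i k : Fin n => ((Nat.choose i k : ℕ) : ℂ) * iteratedDeriv (i - k) h z) *
        (Matrix.of fun i j : Fin n => iteratedDeriv i (u j) z) := by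
    ext i j
    rw [Matrix.mul_apply]
    simp only [Matrix.of_apply]
    have h2 : (fun w => h w * u j w) = fun w => u j w * h w := by
      funext w
      ring
    rw [h2, iteratedDeriv_fun_mul (hu j i) (hh i)]
    rw [Fin.sum_univ_eq_sum_range (fun k => ((Nat.choose i k : ℕ) : ℂ) *
      iteratedDeriv (i - k) h z * iteratedDeriv k (u j) z) n]
    have h3 : Finset.range ((i : ℕ) + 1) ⊆ Finset.range n := by
      rw [Finset.range_subset_range]
      exact i.2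
    rw [← Finset.sum_subset h3]
    · refine Finset.sum_congr rfl ?_
      intro k _
      ring
    · intro k _ hk
      rw [Finset.mem_range, not_lt] at hk
      rw [Nat.choose_eq_zero_of_lt (by omega)]
      simp
  unfold wronsk
  rw [h1, Matrix.det_mul]
  congr 1
  rw [Matrix.det_of_isLowerTriangular]
  · simp
  · intro i k hik
    have hik' : (i : ℕ) < k := hik
    simp only [Matrix.of_apply]
    rw [Nat.choose_eq_zero_of_lt hik']
    simp

/-- exchange of a column -/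
theorem LocalEst_exchange {n : ℕ} {z : ℂ} {f : Fin n → ℂ → ℂ} {q : ℂ → ℂ} (j₀ : Fin n)
    (hf : ∀ j, ∀ k : ℕ, ContDiffAt ℂ k (f j) z) (hq : q =ᶠ[𝓝 z] fun w => ∑ j, f j w) :
    wronsk (Function.update f j₀ q) z = wronsk f z := by
  have h1 : (Matrix.of fun i j : Fin n => iteratedDeriv i (Function.update f j₀ q j) z) =
      (Matrix.of fun i j : Fin n => iteratedDeriv i (f j) z).updateCol j₀
        (fun i => ∑ j, (1 : ℂ) • (Matrix.of fun i j : Fin n => iteratedDeriv i (f j) z) i j) := by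
    ext i j
    rw [Matrix.updateCol_apply]
    by_cases hj : j = j₀
    · subst hj
      rw [if_pos rfl]
      simp only [Matrix.of_apply, Function.update_self, one_smul]
      rw [hq.iteratedDeriv_eq, iteratedDeriv_fun_sum (fun j _ => hf j i)]
    · rw [if_neg hj]
      simp only [Matrix.of_apply]
      rw [Function.update_of_ne hj]
  unfold wronsk
  rw [h1, Matrix.det_updateCol_sum, one_smul]

theorem LocalEst_num {n d c : ℕ} (hn : 1 ≤ n) (hd : n ≤ d) (hc : (d : ℤ) ∣ (c : ℤ)) :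
    (d : ℤ) * ((c : ℤ) - ((c - (n - 1) : ℕ) : ℤ)) ≤ ((n : ℤ) - 1) * c := by
  rcases Nat.eq_zero_or_pos c with h0 | h0
  · subst h0
    simp
  · have h1 : (d : ℤ) ≤ c := Int.le_of_dvd (by exact_mod_cast h0) hc
    have h2 : n - 1 ≤ c := by omega
    have h3 : ((c - (n - 1) : ℕ) : ℤ) = (c : ℤ) - ((n : ℤ) - 1) := by
      push_cast [Nat.cast_sub h2, Nat.cast_sub hn]
      ring
    rw [h3]
    have h4 : (0 : ℤ) ≤ (n : ℤ) - 1 := by
      have : (1 : ℤ) ≤ n := by exact_mod_cast hn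
      linarith
    nlinarith [mul_le_mul_of_nonneg_right h1 h4]

theorem local_estimate {n d : ℕ} (hn : 1 ≤ n) (hd : n ≤ d) {s : ℂ} {u : Fin n → ℂ → ℂ}
    (hu : ∀ j, MeromorphicAt (u j) s) (huo : ∀ j, meromorphicOrderAt (u j) s ≠ ⊤)
    (hrel : ∀ᶠ z in 𝓝[≠] s, ∑ j, u j z = -1) (hW : meromorphicOrderAt (wronsk u) s ≠ ⊤)
    (hdiv : ∀ j, (d : ℤ) ∣ ordZ (u j) s) {μ : ℤ} (hμ0 : μ ≤ 0) (hμ : ∀ j, μ ≤ ordZ (u j) s)
    (hμ' : μ = 0 ∨ ∃ j, ordZ (u j) s = μ) :
    (d : ℤ) * ((∑ j, ordZ (u j) s) - ordZ (wronsk u) s - μ) ≤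
      (n - 1 : ℤ) * ((∑ j, (ordZ (u j) s - μ)) + (0 - μ)) := by
  obtain ⟨m, hm⟩ : ∃ m : ℕ, (m : ℤ) = -μ := ⟨(-μ).toNat, Int.toNat_of_nonneg (by linarith)⟩
  -- the orders of the scaled functions
  have hb : ∀ j, ∃ b : ℕ, (b : ℤ) = ordZ (u j) s - μ := fun j =>
    ⟨(ordZ (u j) s - μ).toNat, Int.toNat_of_nonneg (by linarith [hμ j])⟩
  choose b hb using hb
  set f : Fin n → ℂ → ℂ := fun j w => (w - s) ^ m * u j w with hf
  have hVf : ∀ j, LocalEst_V s (f j) (b j) := by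
    intro j
    have h1 : meromorphicOrderAt (u j) s = ((ordZ (u j) s : ℤ) : WithTop ℤ) := by
      unfold Pool.Agent.H92.GGL.ordZ
      rw [WithTop.coe_untop₀_of_ne_top (huo j)]
    obtain ⟨g, hg, _, hug⟩ := (meromorphicOrderAt_eq_int_iff (hu j)).1 h1
    refine ⟨g, hg, ?_⟩
    filter_upwards [hug, eventually_mem_nhdsWithin] with z hz hzs
    have hzs' : z - s ≠ 0 := sub_ne_zero.mpr hzs
    show (z - s) ^ m * u j z = _
    rw [hz, smul_eq_mul, ← mul_assoc, ← zpow_natCast, ← zpow_add₀ hzs', ← zpow_natCast]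
    congr 2
    rw [hb j, hm]
    ring
  -- the punctured neighbourhood where everything is analytic
  have han : ∀ᶠ z in 𝓝[≠] s, ∀ j, AnalyticAt ℂ (u j) z := by
    rw [Filter.eventually_all]
    exact fun j => (hu j).eventually_analyticAt
  have hscale : wronsk f =ᶠ[𝓝[≠] s] fun z => ((z - s) ^ m) ^ n * wronsk u z := by
    filter_upwards [han] with z hz
    refine LocalEst_scale (h := fun w => (w - s) ^ m) ?_ ?_
    · intro k
      exact ((contDiffAt_id.sub contDiffAt_const).pow m)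
    · intro j k
      exact (hz j).contDiffAt
  -- it is enough to bound the order of the scaled Wronskian
  have main : ∀ c : Fin n → ℕ, (∀ j, (d : ℤ) ∣ (c j : ℤ)) →
      (∑ j, (c j : ℤ)) = (∑ j, (ordZ (u j) s - μ)) + (0 - μ) →
      LocalEst_V s (wronsk f) (∑ j, (c j - (n - 1))) →
      (d : ℤ) * ((∑ j, ordZ (u j) s) - ordZ (wronsk u) s - μ) ≤
        (n - 1 : ℤ) * ((∑ j, (ordZ (u j) s - μ)) + (0 - μ)) := by
    intro c hc hcs hV
    obtain ⟨g, hg, hWg⟩ := hV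
    set C : ℕ := ∑ j, (c j - (n - 1)) with hC
    have h1 : wronsk u =ᶠ[𝓝[≠] s] fun z => (z - s) ^ ((C : ℤ) - m * n) * g z := by
      filter_upwards [hscale, hWg, eventually_mem_nhdsWithin] with z h1 h2 h3
      have hzs' : z - s ≠ 0 := sub_ne_zero.mpr h3
      rw [h1] at h2
      have h4 : ((z - s) ^ m) ^ n ≠ 0 := pow_ne_zero _ (pow_ne_zero _ hzs')
      have h5 : wronsk u z = (((z - s) ^ m) ^ n)⁻¹ * ((z - s) ^ C * g z) := by
        rw [← h2, ← mul_assoc, inv_mul_cancel₀ h4, one_mul]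
      rw [h5, zpow_sub₀ hzs', zpow_natCast, ← pow_mul]
      have h6 : (z - s) ^ ((m : ℤ) * (n : ℤ)) = (z - s) ^ (m * n) := by
        rw [← Nat.cast_mul, zpow_natCast]
      rw [h6]
      field_simp
    have h2 : MeromorphicAt (fun z => (z - s) ^ ((C : ℤ) - m * n)) s :=
      ((LocalEst_anal_sub s).meromorphicAt).zpow _
    have h3 : meromorphicOrderAt (fun z => (z - s) ^ ((C : ℤ) - m * n)) s =
        (((C : ℤ) - m * n : ℤ) : WithTop ℤ) := by
      rw [meromorphicOrderAt_eq_int_iff h2]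
      exact ⟨fun _ => 1, analyticAt_const, one_ne_zero, by
        filter_upwards with z
        rw [smul_eq_mul, mul_one]⟩
    have h4 : (((C : ℤ) - m * n : ℤ) : WithTop ℤ) ≤ meromorphicOrderAt (wronsk u) s := by
      rw [meromorphicOrderAt_congr h1]
      have h5 := meromorphicOrderAt_mul h2 hg.meromorphicAt
      have h6 : meromorphicOrderAt (fun z => (z - s) ^ ((C : ℤ) - m * n) * g z) s =
          meromorphicOrderAt (fun z => (z - s) ^ ((C : ℤ) - m * n)) s +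
            meromorphicOrderAt g s := h5
      rw [h6, h3]
      exact le_add_of_nonneg_right hg.meromorphicOrderAt_nonneg
    have h5 : ((C : ℤ) - m * n : ℤ) ≤ ordZ (wronsk u) s := by
      unfold Pool.Agent.H92.GGL.ordZ
      rw [← WithTop.coe_untop₀_of_ne_top hW] at h4
      exact_mod_cast h4
    have h6 : ∑ j, ((d : ℤ) * ((c j : ℤ) - ((c j - (n - 1) : ℕ) : ℤ))) ≤
        ∑ j, ((n : ℤ) - 1) * (c j : ℤ) :=
      Finset.sum_le_sum fun j _ => LocalEst_num hn hd (hc j)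
    rw [← Finset.mul_sum, ← Finset.mul_sum, Finset.sum_sub_distrib, hcs] at h6
    have h7 : ((C : ℕ) : ℤ) = ∑ j, ((c j - (n - 1) : ℕ) : ℤ) := by
      rw [hC, Nat.cast_sum]
    rw [← h7] at h6
    have h8 : (∑ j, (ordZ (u j) s - μ)) = (∑ j, ordZ (u j) s) - n * μ := by
      rw [Finset.sum_sub_distrib, Finset.sum_const, Finset.card_univ, Fintype.card_fin,
        nsmul_eq_mul]
    refine le_trans ?_ h6
    refine mul_le_mul_of_nonneg_left ?_ (Int.natCast_nonneg d)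
    rw [h8]
    rw [hm] at h5
    linarith
  have hdμ : (d : ℤ) ∣ μ := by
    rcases hμ' with h | ⟨j, hj⟩
    · rw [h]; exact dvd_zero _
    · rw [← hj]; exact hdiv j
  have hdb : ∀ j, (d : ℤ) ∣ (b j : ℤ) := by
    intro j
    rw [hb j]
    exact dvd_sub (hdiv j) hdμ
  rcases hμ' with h0 | ⟨j₀, hj₀⟩
  · refine main b hdb ?_ (LocalEst_wronsk hVf)
    rw [h0, sub_zero, add_zero]
    refine Finset.sum_congr rfl ?_
    intro j _
    rw [hb j, h0]
  · have hq : wronsk f =ᶠ[𝓝[≠] s]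
        wronsk (Function.update f j₀ (fun w => -(w - s) ^ m)) := by
      have hrel' := eventually_nhdsNE_eventually_nhds_iff.2 hrel
      filter_upwards [han, hrel'] with z hz hr
      symm
      refine LocalEst_exchange j₀ ?_ ?_
      · intro j k
        have h1 : ContDiffAt ℂ k (u j) z := (hz j).contDiffAt
        have h2 : ContDiffAt ℂ k (fun w : ℂ => (w - s) ^ m) z :=
          (contDiffAt_id.sub contDiffAt_const).pow m
        exact h2.mul h1
      · filter_upwards [hr] with w hw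
        show -(w - s) ^ m = ∑ j, (w - s) ^ m * u j w
        rw [← Finset.mul_sum, hw]
        ring
    have hV : ∀ j, LocalEst_V s (Function.update f j₀ (fun w => -(w - s) ^ m) j)
        (Function.update b j₀ m j) := by
      intro j
      by_cases hj : j = j₀
      · subst hj
        rw [Function.update_self, Function.update_self]
        refine ⟨fun _ => -1, analyticAt_const, ?_⟩
        filter_upwards with z
        ring
      · rw [Function.update_of_ne hj, Function.update_of_ne hj]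
        exact hVf j
    have hb0 : (b j₀ : ℤ) = 0 := by
      rw [hb j₀, hj₀, sub_self]
    refine main (Function.update b j₀ m) ?_ ?_ (LocalEst_congr (LocalEst_wronsk hV) hq)
    · intro j
      by_cases hj : j = j₀
      · subst hj
        rw [Function.update_self, hm]
        exact (dvd_neg).2 hdμ
      · rw [Function.update_of_ne hj]
        exact hdb j
    · have h1 : (∑ j, (ordZ (u j) s - μ)) = ∑ j, (b j : ℤ) :=
        Finset.sum_congr rfl fun j _ => (hb j).symm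
      rw [h1, ← Finset.add_sum_erase Finset.univ _ (Finset.mem_univ j₀),
        ← Finset.add_sum_erase Finset.univ (fun j => (b j : ℤ)) (Finset.mem_univ j₀), hb0,
        Function.update_self, hm]
      have h2 : ∑ j ∈ Finset.univ.erase j₀, ((Function.update b j₀ m j : ℕ) : ℤ) =
          ∑ j ∈ Finset.univ.erase j₀, (b j : ℤ) := by
        refine Finset.sum_congr rfl ?_
        intro j hj
        rw [Function.update_of_ne (Finset.ne_of_mem_erase hj)]
      rw [h2]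
      ring

end Pool.Agent.H62.FC

end
end
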