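import Pool.Agent.H94.G5T.M100
import Pool.Agent.H94.G5T.M103
import Pool.Agent.H94.G5T.M104
import Pool.Agent.H94.G5T.M105
import Pool.Agent.H94.G5T.M27
import Pool.Agent.H94.G5T.M41
import Pool.Agent.H94.G5T.M47
import Pool.Agent.H94.G5T.M59
import Pool.Agent.H94.G5T.M63
import Pool.Agent.H94.G5T.M91
import Pool.Agent.H94.G5T.M92
import Pool.Agent.H94.G5T.M97

/-! The parts of this file: H36.BPL.CurveK, H13.CV.Cub, AD.T.Proj, H17EF.MainE, H13.SM.Dim, H13.SM.Cone, AD.Cone, H13.CV.StrA, G3.Z.JAn. -/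

section

/-!
# BPL CurveK: curves

An open part `K` of a closed cone `X`, proper over an affine variety, whose complement `X ∖ K` contains no curves (for instance `X` is the cone of a curve).  If the entire curves
of order at most two in `K` are constant then all entire curves in `K` are constant and all holomorphic maps from the punctured disc to `K` extend.
The metric is the Fubini-Study metric.
-/

set_option autoImplicit false

open Topology Filter Metric

noncomputable section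

namespace Pool.Agent.H36.BPL

open Pool.Agent.H17 (PN HolomorphicInto puncturedDisc)
open Pool.Agent.H36.BP

variable {N : ℕ}

theorem continuousAt_fs {x : EN N} (hx : x ≠ 0) (v : EN N) : ContinuousAt (fun p : EN N × EN N => fs p.1 p.2) (x, v) := by
  unfold fs
  refine wd_cont.continuousAt.div ?_ ?_
  · exact (continuous_fst.norm.pow 2).continuousAt
  · exact pow_ne_zero 2 (norm_ne_zero_iff.mpr hx)

/-- the metric data of the Fubini-Study metric -/
theorem curve_metric {X K : Set (EN N)} {M : ℕ} {Φ : EN N → Fin M → ℂ} (h0 : (0 : EN N) ∉ X) (hcl : ∀ x ∈ closure X, x ≠ 0 → x ∈ X)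
    (hKX : K ⊆ X) (hKs : ∀ x ∈ K, ∀ c : ℂ, c ≠ 0 → c • x ∈ K) (hrel : ∀ x ∈ K, ∀ᶠ y in 𝓝 x, y ∈ X → y ∈ K) (hΦ : AffProper X K Φ)
    (hbd : ∀ (F : ℂ → EN N) (z₀ : ℂ), AnalyticAt ℂ F z₀ → (∀ᶠ z in 𝓝 z₀, F z ∈ X ∧ F z ∉ K) → ∀ᶠ z in 𝓝 z₀, ∃ c : ℂ, F z = c • F z₀) :
    MetricData K ∅ (fun x v => fs x v) (fun _ => 1) 1 1 (3 / 2) := by
  have hne : ∀ x ∈ K, x ≠ 0 := fun x hx e => h0 (e ▸ hKX hx)
  refine
  { ne := hne
    smul := hKs
    c₀_pos := one_pos
    C_nonneg := by norm_num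
    nonneg := fun x _ v => fs_nonneg x v
    usc := fun x hx v a ha => ((continuousAt_fs (hne x hx) v).eventually_lt continuousAt_const ha).mono fun p hp _ => hp
    inv := fun x hx v c a hc => fs_inv (hne x hx) v hc a
    hom := fun x _ v c => fs_smul_right x v c
    zero := fun F z₀ _ h => absurd h.self_of_nhds.2 (Set.notMem_empty _)
    sub := ?_
    ρ_nonneg := fun x _ => zero_le_one
    lower := fun x _ v => by simp
    ρ_zero := fun F z₀ _ _ h => ?_
    rel_open := ?_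
    hur := hur_of_affProper (fun x hx hx0 => hcl x (closure_mono hKX hx) hx0) hKs hΦ
    lim := ?_ }
  · intro F z₀ hF hFK hpos
    have h1 := (Sub.fs_curve hF hpos).mul (Sub.norm_rpow hF (hne _ hFK.self_of_nhds) (-1))
    have h2 : -(fs (F z₀) (deriv F z₀)) ^ 2 + -1 * fs (F z₀) (deriv F z₀) ^ 2 / 2 = -(3 / 2 * Pool.Agent.H36.BP.mt (fun x v => fs x v) F z₀ ^ 2) := by
      unfold Pool.Agent.H36.BP.mt
      ring
    rw [h2] at h1
    exact h1
  · exact absurd h.exists (by rintro ⟨z, hz⟩; exact one_ne_zero hz)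
  · intro x hx
    filter_upwards [hrel x hx, isOpen_ne.mem_nhds (hne x hx)] with y hy hy0 hyc
    exact hy (hcl y (closure_mono hKX hyc) hy0)
  · intro l hl F H z₀ s hs hF hlim hH0 hHK ε hε
    have hmem : z₀ ∈ ball z₀ s := mem_ball_self hs
    have hHd : DifferentiableOn ℂ H (ball z₀ s) := hlim.differentiableOn (hF.mono fun n hn => hn.1) isOpen_ball
    have hHa : AnalyticAt ℂ H z₀ := hHd.analyticAt (isOpen_ball.mem_nhds hmem)
    have hHX : ∀ᶠ z in 𝓝 z₀, H z ∈ X ∧ H z ∉ K := by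
      filter_upwards [isOpen_ball.mem_nhds hmem, hHa.continuousAt.eventually_ne hH0] with z hz hz0
      refine ⟨hcl _ ?_ hz0, hHK z hz⟩
      have h1 : Tendsto (fun n => F n z) l (𝓝 (H z)) := hlim.tendsto_at hz
      refine mem_closure_of_tendsto h1 ?_
      filter_upwards [hF] with n hn
      exact hKX (hn.2 z hz)
    have hconst := hbd H z₀ hHa hHX
    -- the derivative of the limit
    have hder : ∃ a : ℂ, deriv H z₀ = a • H z₀ := by
      obtain ⟨j, hj⟩ : ∃ j, (H z₀) j ≠ 0 := by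
        by_contra hcon
        push Not at hcon
        exact hH0 (by ext i; exact hcon i)
      have hcoord : AnalyticAt ℂ (fun w => H w j) z₀ := analyticAt_pi_iff.mp (analyticAt_ofLp hHa) j
      have he : H =ᶠ[𝓝 z₀] fun w => (H w j / H z₀ j) • H z₀ := by
        filter_upwards [hconst] with w hw
        obtain ⟨c, hc⟩ := hw
        have h3 : H w j = c * H z₀ j := by rw [hc]; rfl
        rw [h3, mul_div_cancel_right₀ _ hj]
        exact hc
      have hd : HasDerivAt (fun w => (H w j / H z₀ j) • H z₀) ((deriv (fun w => H w j) z₀ / H z₀ j) • H z₀) z₀ :=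
        (hcoord.differentiableAt.hasDerivAt.div_const _).smul_const _
      exact ⟨_, (he.deriv_eq).trans hd.deriv⟩
    obtain ⟨a, ha⟩ := hder
    have hz : fs (H z₀) (deriv H z₀) = 0 := by
      unfold fs
      rw [(wd_eq_zero hH0).mpr ⟨a, ha⟩, zero_div]
    have h1 : Tendsto (fun n => F n z₀) l (𝓝 (H z₀)) := hlim.tendsto_at hmem
    have hd : TendstoLocallyUniformlyOn (deriv ∘ F) (deriv H) l (ball z₀ s) :=
      hlim.deriv (hF.mono fun n hn => hn.1) isOpen_ball
    have h2 : Tendsto (fun n => deriv (F n) z₀) l (𝓝 (deriv H z₀)) := hd.tendsto_at hmem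
    have h3 : Tendsto (fun n => (F n z₀, deriv (F n) z₀)) l (𝓝 (H z₀, deriv H z₀)) := h1.prodMk_nhds h2
    have h4 := (continuousAt_fs hH0 (deriv H z₀)).tendsto.comp h3
    simp only [hz] at h4
    exact h4.eventually_lt_const hε

variable {V : Type} [NormedAddCommGroup V] [NormedSpace ℂ V]

end Pool.Agent.H36.BPL

end
end

section

/-!
# CV Cub: a smooth cubic contains an entire curve

`fs_ge`: for `x ∈ Cub`, `cr x v = l • gr x`: `wd x v = ‖cr x v‖` (Lagrange's identity, `wd_sq`; norm of the complex Euclidean space), so `fs x v = ‖l‖ ‖gr x‖ / ‖x‖²`.  The function `‖gr x‖ / ‖x‖²` is continuous,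
positive (`gr_ne`) and invariant under `x → c x` (`gr (c x) = c² gr x`), so it has a positive lower bound `c₀` (compactness of `{x | ‖x‖ = 1, cub x = 0}`, non-empty or trivial).
`exists_entire_cubic`: suppose there is no such `F`.  Then `BrodyMod (Cub α β) ∅` (vacuously), and `curve_metric` (`Pool/Agent/H36/BPL/CurveK.lean`, with `X = K = Cub α β`, `Φ = 0 : EN 2 → Fin 0 → ℂ`; the cone
is closed apart from `0`) and `brody_bound` (`Pool/Agent/H36/BP/Brody.lean`) give `C` with `fs (F 0) (F' 0) ≤ C` for all holomorphic discs `F` in `Cub α β` (`mt (fs) F 0 = fs (F 0) (deriv F 0)`).  By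
`exists_disc` and `Dsc.dbl` (induction on `k`) there are discs with `l` replaced by `2 ^ k l`; so `c₀ 2 ^ k ‖l 0‖ ≤ C` for all `k`: contradiction.
-/

set_option autoImplicit false

open Topology Filter Metric
open Pool.Agent.H36.BP

noncomputable section

namespace Pool.Agent.H13.CV

/-- Lagrange's identity -/
private theorem Cub_lagrange (a b c x y z : ℂ) :
    (‖a‖ ^ 2 + ‖b‖ ^ 2 + ‖c‖ ^ 2) * (‖x‖ ^ 2 + ‖y‖ ^ 2 + ‖z‖ ^ 2) -
      ‖x * (starRingEnd ℂ) a + y * (starRingEnd ℂ) b + z * (starRingEnd ℂ) c‖ ^ 2 =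
    ‖b * z - c * y‖ ^ 2 + ‖c * x - a * z‖ ^ 2 + ‖a * y - b * x‖ ^ 2 := by
  simp only [Complex.sq_norm, Complex.normSq_apply, Complex.add_re, Complex.add_im, Complex.sub_re, Complex.sub_im,
    Complex.mul_re, Complex.mul_im, Complex.conj_re, Complex.conj_im]
  ring

private theorem Cub_wd (x v : EN 2) : wd x v = ‖(WithLp.toLp 2 (cr x.ofLp v.ofLp) : EN 2)‖ := by
  have h : wd x v ^ 2 = ‖(WithLp.toLp 2 (cr x.ofLp v.ofLp) : EN 2)‖ ^ 2 := by
    rw [wd_sq, EuclideanSpace.norm_sq_eq, EuclideanSpace.norm_sq_eq, EuclideanSpace.norm_sq_eq, PiLp.inner_apply]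
    have hs : ∀ f : Fin (2 + 1) → ℝ, ∑ i, f i = f 0 + f 1 + f 2 := fun f => Fin.sum_univ_three f
    have hs' : ∀ f : Fin (2 + 1) → ℂ, ∑ i, f i = f 0 + f 1 + f 2 := fun f => Fin.sum_univ_three f
    simp only [hs, hs', RCLike.inner_apply]
    exact Cub_lagrange _ _ _ _ _ _
  exact (pow_left_inj₀ (wd_nonneg _ _) (norm_nonneg _) two_ne_zero).mp h

private theorem Cub_gr_smul (α β c : ℂ) (x : Fin 3 → ℂ) : gr α β (c • x) = c ^ 2 • gr α β x := by
  unfold gr
  ext i
  fin_cases i <;> simp only [Pi.smul_apply, smul_eq_mul] <;> simp <;> ring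

private theorem Cub_cub_smul (α β c : ℂ) (x : Fin 3 → ℂ) : cub α β (c • x) = c ^ 3 * cub α β x := by
  unfold cub
  simp only [Pi.smul_apply, smul_eq_mul]
  ring

private theorem Cub_cont_cub (α β : ℂ) : Continuous fun x : EN 2 => cub α β x.ofLp := by
  unfold cub
  fun_prop

private theorem Cub_cont_gr (α β : ℂ) : Continuous fun x : EN 2 => ‖(WithLp.toLp 2 (gr α β x.ofLp) : EN 2)‖ := by
  have h : Continuous fun x : EN 2 => gr α β x.ofLp := by
    refine continuous_pi fun i => ?_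
    unfold gr
    fin_cases i
    · show Continuous fun x : EN 2 => -12 * x.ofLp 0 ^ 2 + α * x.ofLp 2 ^ 2
      fun_prop
    · show Continuous fun x : EN 2 => 2 * x.ofLp 1 * x.ofLp 2
      fun_prop
    · show Continuous fun x : EN 2 => x.ofLp 1 ^ 2 + 2 * α * x.ofLp 0 * x.ofLp 2 + 3 * β * x.ofLp 2 ^ 2
      fun_prop
  fun_prop

theorem fs_ge {α β : ℂ} (hd : α ^ 3 ≠ 27 * β ^ 2) : ∃ c₀ : ℝ, 0 < c₀ ∧ ∀ (x v : EN 2) (l : ℂ), x ∈ Cub α β → cr x.ofLp v.ofLp = l • gr α β x.ofLp → c₀ * ‖l‖ ≤ fs x v := by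
  have hK : IsCompact (sphere (0 : EN 2) 1 ∩ {x | cub α β x.ofLp = 0}) :=
    (isCompact_sphere _ _).inter_right (isClosed_eq (Cub_cont_cub α β) continuous_const)
  obtain ⟨c₀, hc₀, hmin⟩ : ∃ c₀ : ℝ, 0 < c₀ ∧ ∀ x ∈ sphere (0 : EN 2) 1 ∩ {x | cub α β x.ofLp = 0},
      c₀ ≤ ‖(WithLp.toLp 2 (gr α β x.ofLp) : EN 2)‖ := by
    rcases Set.eq_empty_or_nonempty (sphere (0 : EN 2) 1 ∩ {x | cub α β x.ofLp = 0}) with h | h
    · exact ⟨1, one_pos, fun x hx => by rw [h] at hx; exact absurd hx (Set.notMem_empty x)⟩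
    · obtain ⟨x₀, hx₀, hm⟩ := hK.exists_isMinOn h (Cub_cont_gr α β).continuousOn
      refine ⟨‖(WithLp.toLp 2 (gr α β x₀.ofLp) : EN 2)‖, ?_, fun x hx => hm hx⟩
      rw [norm_pos_iff]
      intro h0
      have hne : x₀.ofLp ≠ 0 := by
        intro h1
        have h2 : x₀ = 0 := by
          ext i
          exact congrFun h1 i
        have h3 := hx₀.1
        rw [h2] at h3
        simp at h3
      refine gr_ne hd hne hx₀.2 ?_
      exact congrArg WithLp.ofLp h0
  refine ⟨c₀, hc₀, fun x v l hx hcr => ?_⟩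
  have hn : 0 < ‖x‖ := norm_pos_iff.2 hx.1
  have h1 := hmin (((‖x‖⁻¹ : ℝ) : ℂ) • x) ⟨?_, ?_⟩
  · have h2 : (WithLp.toLp 2 (gr α β (((‖x‖⁻¹ : ℝ) : ℂ) • x).ofLp) : EN 2) =
        (((‖x‖⁻¹ : ℝ) : ℂ) ^ 2) • (WithLp.toLp 2 (gr α β x.ofLp) : EN 2) := by
      have h3 := Cub_gr_smul α β ((‖x‖⁻¹ : ℝ) : ℂ) x.ofLp
      rw [WithLp.ofLp_smul, h3, WithLp.toLp_smul]
    rw [h2, norm_smul, norm_pow, Complex.norm_real, Real.norm_of_nonneg (by positivity)] at h1
    unfold fs
    rw [Cub_wd, hcr, WithLp.toLp_smul, norm_smul, mul_comm c₀, mul_div_assoc]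
    refine mul_le_mul_of_nonneg_left (h1.trans (le_of_eq ?_)) (norm_nonneg l)
    field_simp
  · rw [mem_sphere_zero_iff_norm, norm_smul, Complex.norm_real, Real.norm_of_nonneg (by positivity)]
    exact inv_mul_cancel₀ hn.ne'
  · show cub α β (((‖x‖⁻¹ : ℝ) : ℂ) • x).ofLp = 0
    rw [WithLp.ofLp_smul, Cub_cub_smul, hx.2, mul_zero]

theorem exists_entire_cubic {α β : ℂ} (hd : α ^ 3 ≠ 27 * β ^ 2) :
    ∃ F : ℂ → EN 2, Differentiable ℂ F ∧ (∀ z, F z ∈ Cub α β) ∧ ∃ z w, ∀ c : ℂ, F z ≠ c • F w := by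
  by_contra hcon
  have hB : BrodyMod (Cub α β) ∅ := fun F h1 h2 h3 => absurd ⟨F, h1, h2, h3⟩ hcon
  have h0 : (0 : EN 2) ∉ Cub α β := fun h => h.1 rfl
  have hΦ : Pool.Agent.H36.BPL.AffProper (Cub α β) (Cub α β) (fun _ : EN 2 => (0 : Fin 0 → ℂ)) :=
    { smul := fun _ _ _ _ => rfl
      cont := continuousOn_const
      hol := fun _ _ _ _ => analyticAt_const
      proper := fun x hx hx' => absurd hx hx'
      iso := fun F z₀ _ h => Or.inr (h.filter_mono nhdsWithin_le_nhds) }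
  have hM := Pool.Agent.H36.BPL.curve_metric (X := Cub α β) (K := Cub α β) h0 ?_ le_rfl ?_
    (fun x _ => Eventually.of_forall fun y hy => hy) hΦ
    (fun F z₀ _ h => absurd h.self_of_nhds.1 h.self_of_nhds.2)
  · obtain ⟨L, hL, hbd⟩ := brody_bound hM hB
    obtain ⟨c₀, hc₀, hfs⟩ := fs_ge hd
    obtain ⟨l, F, hF⟩ := exists_disc α β
    have hk : ∀ k : ℕ, ∃ G : ℂ → EN 2, Dsc α β (fun z => 2 ^ k * l z) G := by
      intro k
      induction k with
      | zero => exact ⟨F, by simpa using hF⟩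
      | succ k ih =>
        obtain ⟨G, hG⟩ := ih
        have h1 := hG.dbl hd
        have h2 : (fun z => 2 * (2 ^ k * l z)) = fun z => 2 ^ (k + 1) * l z := by
          funext z
          ring
        rw [h2] at h1
        exact ⟨_, h1⟩
    have hle : ∀ k : ℕ, c₀ * ‖l 0‖ * 2 ^ k ≤ L := by
      intro k
      obtain ⟨G, hG⟩ := hk k
      have hm : (0 : ℂ) ∈ ball (0 : ℂ) 1 := mem_ball_self one_pos
      have h1 := hfs (G 0) (deriv G 0) _ (hG.curve.2 0 hm) (hG.eq 0 hm)
      have h2 : fs (G 0) (deriv G 0) ≤ L := hbd G hG.curve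
      rw [norm_mul, norm_pow, Complex.norm_ofNat] at h1
      linarith
    have hl0 : 0 < ‖l 0‖ := norm_pos_iff.2 (hF.ne 0 (mem_ball_self one_pos))
    obtain ⟨k, hk2⟩ := pow_unbounded_of_one_lt (L / (c₀ * ‖l 0‖)) (one_lt_two : (1 : ℝ) < 2)
    rw [div_lt_iff₀ (by positivity)] at hk2
    have h3 := hle k
    linarith
  · intro x hx hx0
    refine ⟨hx0, ?_⟩
    have hcl : IsClosed {x : EN 2 | cub α β x.ofLp = 0} := isClosed_eq (Cub_cont_cub α β) continuous_const
    exact closure_minimal (fun y hy => hy.2) hcl hx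
  · intro x hx c hc
    refine ⟨smul_ne_zero hc hx.1, ?_⟩
    show cub α β (c • x).ofLp = 0
    rw [WithLp.ofLp_smul, Cub_cub_smul, hx.2, mul_zero]

end Pool.Agent.H13.CV

end
end

section

/-!
# AD T Proj: pseudo-lengths from holomorphic maps to tori and from symmetric differentials, on projective manifolds
-/

set_option autoImplicit false

open Topology Filter Metric MvPolynomial

noncomputable section

namespace Pool.Agent.AD

open Pool.Agent.H36.BP (EN wd)
open Pool.Agent.H14.PP (IsCone Tan CurveAt)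
open Pool.Agent.H17 (PN HolomorphicInto)
open Pool.Agent.H62.FC (Homog)
open Pool.Agent.H17EF (projVar coneE LE mk_mem_projVar mem_coneE)

variable {N g : ℕ} {P : Ideal (MvPolynomial (Fin (N + 1)) ℂ)}

open Classical in
/-- the map to the torus as a function on the cone -/
def uV (Λ : AddSubgroup (Fin g → ℂ)) (u : PN N → (Fin g → ℂ) ⧸ Λ) (y : EN N) : Fin g → ℂ :=
  if h : (LE N).symm y ≠ 0 then Quotient.out (u (Projectivization.mk ℂ ((LE N).symm y) h)) else 0

theorem uV_eq (Λ : AddSubgroup (Fin g → ℂ)) (u : PN N → (Fin g → ℂ) ⧸ Λ) {y : EN N} (h : (LE N).symm y ≠ 0) :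
    ((uV Λ u y : Fin g → ℂ) : (Fin g → ℂ) ⧸ Λ) = u (Projectivization.mk ℂ ((LE N).symm y) h) := by
  unfold uV
  rw [dif_pos h]
  exact Quotient.out_eq _

theorem sub_mem_iff {Λ : AddSubgroup (Fin g → ℂ)} {a b : Fin g → ℂ} :
    a - b ∈ Λ ↔ ((a : Fin g → ℂ) : (Fin g → ℂ) ⧸ Λ) = (b : (Fin g → ℂ) ⧸ Λ) := by
  rw [QuotientAddGroup.eq, ← neg_mem_iff]
  constructor
  · intro h
    convert h using 1
    abel
  · intro h
    convert h using 1
    abel

theorem torusMapV (hP : Homog P) {Λ : AddSubgroup (Fin g → ℂ)} {u : PN N → (Fin g → ℂ) ⧸ Λ}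
    (hu : IsHolomorphicTorusMap (projVar P) Λ u) : TorusMapV (coneE P) Λ (uV Λ u) := by
  constructor
  · intro x hx c hc
    have h1 : (LE N).symm x ≠ 0 := hx.1
    have h2 : (LE N).symm (c • x) ≠ 0 := by
      rw [map_smul]
      exact smul_ne_zero hc h1
    rw [sub_mem_iff, uV_eq Λ u h1, uV_eq Λ u h2]
    congr 1
    rw [Projectivization.mk_eq_mk_iff']
    exact ⟨c, (map_smul _ _ _).symm⟩
  · intro x hx
    obtain ⟨h1, h2⟩ := (mem_coneE hP).1 hx
    obtain ⟨v, hv, hv'⟩ := hu _ h1 h2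
    refine ⟨fun y => v ((LE N).symm y), ?_, ?_⟩
    · exact AnalyticAt.comp (g := v) (f := fun y : EN N => (LE N).symm y) hv (((LE N).symm : EN N →L[ℂ] (Fin (N + 1) → ℂ)).analyticAt x)
    · have h3 : Tendsto (fun y : EN N => (LE N).symm y) (𝓝 x) (𝓝 ((LE N).symm x)) := (LE N).symm.continuous.tendsto x
      filter_upwards [h3.eventually hv'] with y hy hyX
      obtain ⟨h4, h5⟩ := (mem_coneE hP).1 hyX
      rw [sub_mem_iff, uV_eq Λ u h4]
      exact hy h4 h5

theorem discreteSub_of (Λ : AddSubgroup (Fin g → ℂ)) [DiscreteTopology Λ] : DiscreteSub Λ := by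
  have h1 : ({0} : Set Λ) ∈ 𝓝 (0 : Λ) := by
    rw [nhds_discrete]
    exact Set.mem_singleton 0
  obtain ⟨δ, hδ, h⟩ := Metric.mem_nhds_iff.1 h1
  refine ⟨δ, hδ, fun l hl hn => ?_⟩
  have h2 : (⟨l, hl⟩ : Λ) ∈ ball (0 : Λ) δ := by
    rw [mem_ball, Subtype.dist_eq]
    simpa [dist_eq_norm] using hn
  have h3 := h h2
  rw [Set.mem_singleton_iff] at h3
  exact congrArg Subtype.val h3

end Pool.Agent.AD

end
end

section

/-!
# EF MainE: surfaces of general type with a map to an elliptic curve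
-/

set_option autoImplicit false

open Topology Filter MvPolynomial Metric

noncomputable section

namespace Pool.Agent.H17EF

attribute [-instance] ProperSMul.toContinuousSMul

open Pool.Agent.H17 (PN VanishesAt HolomorphicInto ZariskiClosedIn)
open Pool.Agent.H62.FC (Homog)
open Pool.Agent.H62.EF
open Pool.Agent.H17BP (Surface IsChart)
open Pool.Agent.H17LG.Variety (FunField IsLogGeneralType)
open Pool.Agent.H13.SM (cone)
open Pool.Agent.H36.BP (EN wd isCone_transport germ_transport)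
open Pool.Agent.H14.PP (IsCone Chart)

variable {N : ℕ}

section core

variable {P : Ideal (MvPolynomial (Fin (N + 1)) ℂ)} [P.IsPrime] {z : Fin 2 → FunField P}

/-- general type -/
def GT (P : Ideal (MvPolynomial (Fin (N + 1)) ℂ)) [P.IsPrime] (k : ℕ) : Prop :=
  IsLogGeneralType (K := FunField P) (k := k) (fun _ => False)

/-- the projection matrix of a point -/
def prP (x : PN N) : MN N := pr ((LE N) x.rep)

theorem prP_mk {x : Fin (N + 1) → ℂ} (hx : x ≠ 0) : prP (Projectivization.mk ℂ x hx) = pr ((LE N) x) := by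
  obtain ⟨a, ha, h⟩ := Pool.Agent.H36.BP.rep_mk hx
  unfold prP
  rw [h, map_smul, pr_smul _ ha]

theorem LE_ne_zero {x : Fin (N + 1) → ℂ} (hx : x ≠ 0) : (LE N) x ≠ 0 := fun h => hx ((LE N).map_eq_zero_iff.1 h)

theorem prP_injective : Function.Injective (prP (N := N)) := by
  intro x y h
  unfold prP at h
  obtain ⟨c, hc, h'⟩ := (pr_eq_iff (LE_ne_zero x.rep_nonzero) (LE_ne_zero y.rep_nonzero)).1 h
  rw [← map_smul] at h'
  have h1 := (LE N).injective h'
  rw [← x.mk_rep, ← y.mk_rep, Projectivization.mk_eq_mk_iff']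
  exact ⟨c, h1.symm⟩

theorem mk_symm {F : EN N} (h : (LE N).symm F ≠ 0) : prP (Projectivization.mk ℂ ((LE N).symm F) h) = pr F := by
  rw [prP_mk, ContinuousLinearEquiv.apply_symm_apply]

end core

end Pool.Agent.H17EF

end
end

section

/-!
# The dimension is at most `N`

PROOF.  Choose `l` with `coordFun P l ≠ 0` (if `coordFun P i = 0` for all `i` then the function field is
`ℂ` and `n = 0`; or use `h`).  By `adjoin_ratio` the field `FunField P` is generated over `ℂ` by the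
`ratio P i l`, `i ≠ l` (`ratio P l l = 1`), a set with at most `N` elements, so it contains a
transcendence basis indexed by a subset `s` of `{i | i ≠ l}` (`exists_isTranscendenceBasis_subset` /
`exists_isTranscendenceBasis_between` with the fact that `FunField P` is algebraic over the subalgebra
generated by the set), and `n = |s| ≤ N` (`IsTranscendenceBasis.cardinalMk_eq`).
-/

open MvPolynomial
open Pool.Agent.H17GT (coordFun functionField)
open Pool.Agent.H17LG.Variety (FunField ratio)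

noncomputable section

namespace Pool.Agent.H13.SM

variable {N : ℕ} {P : Ideal (MvPolynomial (Fin (N + 1)) ℂ)}

theorem trdeg_le [P.IsPrime] {l : Fin (N + 1)} (h : coordFun P l ≠ 0) {n : ℕ}
    {z : Fin n → FunField P} (hz : IsTranscendenceBasis ℂ z) : n ≤ N := by
  have htop : IntermediateField.adjoin ℂ
      (Set.range fun i : Fin N => ratio P (l.succAbove i) l) = ⊤ := by
    rw [eq_top_iff, ← Pool.Agent.H17R.adjoin_ratio h, IntermediateField.adjoin_le_iff]
    rintro y ⟨i, rfl⟩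
    dsimp only
    rcases Fin.eq_self_or_eq_succAbove l i with hi | ⟨j, hj⟩
    · rw [hi, Pool.Agent.H17R.ratio_self h]
      exact one_mem _
    · rw [hj]
      exact IntermediateField.subset_adjoin _ _ ⟨j, rfl⟩
  have halg : Algebra.IsAlgebraic (IntermediateField.adjoin ℂ
      (Set.range fun i : Fin N => ratio P (l.succAbove i) l)) (FunField P) := by
    rw [htop]
    refine ⟨fun a => ?_⟩
    exact isAlgebraic_algebraMap (⟨a, IntermediateField.mem_top⟩ :
      (⊤ : IntermediateField ℂ (FunField P)))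
  obtain ⟨J, hJ⟩ := Pool.Agent.H92.GT.exists_index halg hz
  have hinj : Function.Injective J := by
    intro a b hab
    apply hJ.1.injective
    dsimp only
    rw [hab]
  have := Fintype.card_le_of_injective J hinj
  simpa using this

end Pool.Agent.H13.SM

end
end

section

/-!
# Charts of the affine cone of a smooth projective variety

PROOF.  `X l ∉ P` as `x l ≠ 0`, so `coordFun P l ≠ 0` (`coordFun_ne_zero_iff`).  Let `w = (x l)⁻¹ • x`: a
point of the cone (`cone_smul`) with `w l = 1`, so `w ∈ pts a`, `a i = ratio P i l` (`mem_pts_iff`).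
`a` generates the field (`adjoin_ratio`).  By `exists_indep` (at `w`) there are `f : Fin (N - n) → _` in
`P`, by `indep_snoc` the family `f, X l - 1` has independent gradients at `w` and all of its members
vanish at `a` (`gen_eq_zero_iff` for homogeneous components; or: `aeval a (f j) = 0` because
of `Homog P`; prove it as in `mem_pts_iff`).  `(N - n + 1) + n = N + 1` by `trdeg_le`.  Let `I, τ` be the
chart of `exists_chart`, and `σ u = x l • τ u`.  Then `σ 0 = x l • w = x`; `σ u` is in the cone and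
`σ u l = x l * τ u l = x l` (`mem_pts_iff`); `σ u (I k) = x l * (w (I k) + u k) = x (I k) + x l * u k`.
For `y` near `x` in the cone: `y l ≠ 0`, `y' = (y l)⁻¹ • y` is in `pts a` and near `w`, so
`y' = τ (fun k => y' (I k) - w (I k))`, and `y = y l • y' = (y l / x l) • σ (...)`, where
`y' (I k) - w (I k) = y (I k) / y l - x (I k) / x l`.
Last clause: for a form `Q` of degree `d` not in `P`, `aeval a Q = gen P l Q ≠ 0` and
`eval (σ u) Q = x l ^ d * eval (τ u) Q`.
-/

open MvPolynomial Topology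
open Pool.Agent.H17GT (coordFun functionField)
open Pool.Agent.H17LG.Variety (FunField ratio)
open Pool.Agent.H62.FC (Homog)

noncomputable section

namespace Pool.Agent.H13.SM

variable {N : ℕ} {P : Ideal (MvPolynomial (Fin (N + 1)) ℂ)}

private theorem Cone_aeval_mem [P.IsPrime] (hP : Homog P) {l : Fin (N + 1)} (h : coordFun P l ≠ 0)
    {Q : MvPolynomial (Fin (N + 1)) ℂ} (hQ : Q ∈ P) : aeval (fun i => ratio P i l) Q = 0 := by
  rw [← MvPolynomial.sum_homogeneousComponent Q, map_sum]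
  refine Finset.sum_eq_zero fun d _ => ?_
  exact (Pool.Agent.H17R.gen_eq_zero_iff h (MvPolynomial.homogeneousComponent_isHomogeneous d Q)).2
    (hP Q hQ d)

private theorem Cone_eval_smul {Q : MvPolynomial (Fin (N + 1)) ℂ} {d : ℕ} (hQ : Q.IsHomogeneous d)
    (c : ℂ) (y : Fin (N + 1) → ℂ) : eval (c • y) Q = c ^ d * eval y Q := by
  have h1 := Pool.Agent.H92.GT.Proj.aeval_scale hQ (c := c) (x := y)
  have h2 : ∀ z : Fin (N + 1) → ℂ, aeval z Q = eval z Q := fun z => by
    rw [MvPolynomial.aeval_eq_eval]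
  rw [h2, h2] at h1
  exact h1

theorem exists_coneChart [P.IsPrime] (hP : Homog P) {n : ℕ} {z : Fin n → FunField P}
    (hz : IsTranscendenceBasis ℂ z)
    (hsm : ∀ y : Fin (N + 1) → ℂ, y ≠ 0 → (∀ Q ∈ P, eval y Q = 0) →
      Module.finrank ℂ (conTan P y) ≤ n + 1)
    {x : Fin (N + 1) → ℂ} (hx : ∀ Q ∈ P, eval x Q = 0) {l : Fin (N + 1)} (hl : x l ≠ 0) :
    ∃ (I : Fin n → Fin (N + 1)) (σ : (Fin n → ℂ) → Fin (N + 1) → ℂ),
      AnalyticAt ℂ σ 0 ∧ σ 0 = x ∧
      (∀ᶠ u in 𝓝 0, (∀ Q ∈ P, eval (σ u) Q = 0) ∧ σ u l = x l ∧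
        ∀ k, σ u (I k) = x (I k) + x l * u k) ∧
      (∀ᶠ y in 𝓝 x, (∀ Q ∈ P, eval y Q = 0) →
        y = (y l / x l) • σ (fun k => y (I k) / y l - x (I k) / x l)) ∧
      ∀ (d : ℕ) (Q : MvPolynomial (Fin (N + 1)) ℂ), Q.IsHomogeneous d → Q ∉ P →
        ¬ ∀ᶠ u in 𝓝 0, eval (σ u) Q = 0 := by
  have hXl : (X l : MvPolynomial (Fin (N + 1)) ℂ) ∉ P := by
    intro h
    have h1 := hx _ h
    rw [eval_X] at h1
    exact hl h1
  have hcf : coordFun P l ≠ 0 := Pool.Agent.H17R.coordFun_ne_zero_iff.2 hXl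
  obtain ⟨w, hw⟩ : ∃ w : Fin (N + 1) → ℂ, w = (x l)⁻¹ • x := ⟨_, rfl⟩
  have hwP : ∀ Q ∈ P, eval w Q = 0 := by
    rw [hw]
    exact cone_smul hP hx _
  have hwl : w l = 1 := by
    rw [hw, Pi.smul_apply, smul_eq_mul, inv_mul_cancel₀ hl]
  have hwk : ∀ i, x l * w i = x i := by
    intro i
    rw [hw, Pi.smul_apply, smul_eq_mul, mul_inv_cancel_left₀ hl]
  have hwx : x l • w = x := by
    rw [hw, smul_inv_smul₀ hl]
  have hw0 : w ≠ 0 := by
    intro h
    rw [h, Pi.zero_apply] at hwl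
    exact zero_ne_one hwl
  have hwp : w ∈ pts (fun i => ratio P i l) := (mem_pts_iff hP hcf).2 ⟨hwl, hwP⟩
  obtain ⟨f, hf, hli⟩ := exists_indep (hsm w hw0 hwP)
  have hli' := indep_snoc hP hwP hwl hf hli
  have hnN : n ≤ N := trdeg_le hcf hz
  have hf' : ∀ j, aeval (fun i => ratio P i l)
      ((Fin.snoc f (X l - 1) : Fin (N - n + 1) → MvPolynomial (Fin (N + 1)) ℂ) j) = 0 := by
    intro j
    refine Fin.lastCases ?_ (fun j => ?_) j
    · rw [Fin.snoc_last, map_sub, aeval_X, map_one, Pool.Agent.H17R.ratio_self hcf, sub_self]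
    · rw [Fin.snoc_castSucc]
      exact Cone_aeval_mem hP hcf (hf j)
  obtain ⟨I, τ, hτa, hτ0, hτ1, hτ2, hτ3⟩ := exists_chart
    (Pool.Agent.H17R.adjoin_ratio hcf) hz (c := N - n + 1) (by rw [Fintype.card_fin]; omega)
    hf' hwp hli'
  refine ⟨I, fun u => x l • τ u, ?_, ?_, ?_, ?_, ?_⟩
  · exact (analyticAt_const (v := x l)).smul hτa
  · simp only [hτ0]
    exact hwx
  · filter_upwards [hτ1] with u hu
    obtain ⟨h1, h2⟩ := hu
    obtain ⟨h3, h4⟩ := (mem_pts_iff hP hcf).1 h1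
    refine ⟨cone_smul hP h4 _, ?_, fun k => ?_⟩
    · rw [Pi.smul_apply, smul_eq_mul, h3, mul_one]
    · rw [Pi.smul_apply, smul_eq_mul, h2 k, mul_add, hwk]
  · have hc : ContinuousAt (fun y : Fin (N + 1) → ℂ => (y l)⁻¹ • y) x := by
      have h1 : ContinuousAt (fun y : Fin (N + 1) → ℂ => y l) x :=
        (continuous_apply l).continuousAt
      exact (h1.inv₀ hl).smul continuousAt_id
    have hc' : Filter.Tendsto (fun y : Fin (N + 1) → ℂ => (y l)⁻¹ • y) (𝓝 x) (𝓝 w) := by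
      rw [hw]
      exact hc
    have hne : ∀ᶠ y in 𝓝 x, (y : Fin (N + 1) → ℂ) l ≠ 0 :=
      (continuous_apply l).continuousAt.eventually_ne hl
    filter_upwards [hc'.eventually hτ2, hne] with y hy hyl hyP
    have h1 : (y l)⁻¹ • y ∈ pts (fun i => ratio P i l) := by
      rw [mem_pts_iff hP hcf]
      refine ⟨?_, cone_smul hP hyP _⟩
      rw [Pi.smul_apply, smul_eq_mul, inv_mul_cancel₀ hyl]
    have h2 := hy h1
    have h3 : (fun k => ((y l)⁻¹ • y) (I k) - w (I k)) =
        fun k => y (I k) / y l - x (I k) / x l := by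
      funext k
      rw [hw, Pi.smul_apply, Pi.smul_apply, smul_eq_mul, smul_eq_mul, div_eq_inv_mul,
        div_eq_inv_mul]
    rw [h3] at h2
    rw [← h2, smul_smul, smul_smul]
    have h4 : y l / x l * x l * (y l)⁻¹ = 1 := by
      field_simp
    rw [h4, one_smul]
  · intro d Q hQ hQP hev
    have h1 : aeval (fun i => ratio P i l) Q ≠ 0 := fun h =>
      hQP ((Pool.Agent.H17R.gen_eq_zero_iff hcf hQ).1 h)
    refine hτ3 Q h1 ?_
    filter_upwards [hev] with u hu
    rw [Cone_eval_smul hQ] at hu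
    exact (mul_eq_zero.1 hu).resolve_left (pow_ne_zero _ hl)

end Pool.Agent.H13.SM

end
end

section

/-!
# AD Cone: charts of the cone of a smooth projective variety of dimension `n`
-/

set_option autoImplicit false

open MvPolynomial Topology Filter Metric

namespace Pool.Agent.AD

open Pool.Agent.H36.BP (EN)
open Pool.Agent.H14.PP (IsCone)
open Pool.Agent.H62.FC (Homog)
open Pool.Agent.H17LG.Variety (FunField)
open Pool.Agent.H13.SM (conTan cone cone_smul exists_coneChart)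
open Pool.Agent.H17EF (LE coneE)

variable {N : ℕ} {P : Ideal (MvPolynomial (Fin (N + 1)) ℂ)}

theorem isCone_coneE (hP : Homog P) : IsCone (coneE P) := by
  refine ⟨?_, ?_, ?_⟩
  · intro h
    exact h.1 (map_zero _)
  · intro x hx c hc
    show (LE N).symm (c • x) ∈ cone P
    rw [map_smul]
    exact ⟨smul_ne_zero hc hx.1, cone_smul hP hx.2 c⟩
  · have h1 : insert (0 : EN N) (coneE P) = insert (0 : EN N) (⋂ Q ∈ P, {y : EN N | eval ((LE N).symm y) Q = 0}) := by
      ext y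
      by_cases h0 : y = 0
      · simp [h0]
      · have h2 : (LE N).symm y ≠ 0 := fun h => h0 ((LE N).symm.map_eq_zero_iff.1 h)
        constructor
        · rintro (h | h)
          · exact absurd h h0
          · right
            simp only [Set.mem_iInter]
            intro Q hQ
            exact h.2 Q hQ
        · rintro (h | h)
          · exact absurd h h0
          · right
            simp only [Set.mem_iInter] at h
            exact ⟨h2, fun Q hQ => h Q hQ⟩
    rw [h1, Set.insert_eq]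
    refine isClosed_singleton.union (isClosed_biInter fun Q _ => ?_)
    exact isClosed_eq ((MvPolynomial.continuous_eval Q).comp (LE N).symm.continuous) continuous_const

/-- The chart with the coordinate ratios `x (I k) / x l` as parameters. -/
theorem exists_ratioGerm [P.IsPrime] (hP : Homog P) {n : ℕ} {z : Fin n → FunField P} (hz : IsTranscendenceBasis ℂ z)
    (hsm : ∀ y : Fin (N + 1) → ℂ, y ≠ 0 → (∀ Q ∈ P, eval y Q = 0) → Module.finrank ℂ (conTan P y) ≤ n + 1)
    {x : EN N} (hx : x ∈ coneE P) {l : Fin (N + 1)} (hl : (LE N).symm x l ≠ 0) :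
    ∃ (I : Fin n → Fin (N + 1)) (σ : Vd n → EN N),
      IsGerm (coneE P) σ (fun y k => (LE N).symm y (I k) / (LE N).symm y l - (LE N).symm x (I k) / (LE N).symm x l) ∧ σ 0 = x := by
  obtain ⟨I, σ, h1, h2, h3, h4, -⟩ := exists_coneChart hP hz hsm hx.2 hl
  have hL : ∀ y : Fin (N + 1) → ℂ, (LE N).symm ((LE N) y) = y := (LE N).symm_apply_apply
  have hσ0 : (LE N) (σ 0) = x := by rw [h2, ContinuousLinearEquiv.apply_symm_apply]
  refine ⟨I, fun u => (LE N) (σ u), ⟨?_, ?_, ?_, ?_, ?_, ?_⟩, hσ0⟩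
  · exact (((LE N) : (Fin (N + 1) → ℂ) →L[ℂ] EN N).analyticAt _).comp h1
  · filter_upwards [h3] with u hu
    show (LE N).symm ((LE N) (σ u)) ∈ cone P
    rw [hL]
    refine ⟨?_, hu.1⟩
    intro h0
    apply hl
    rw [← hu.2.1, h0]
    rfl
  · show AnalyticAt ℂ _ ((LE N) (σ 0))
    rw [hσ0]
    have hpr : ∀ i : Fin (N + 1), AnalyticAt ℂ (fun y : EN N => (LE N).symm y i) x := fun i =>
      ((ContinuousLinearMap.proj (R := ℂ) (φ := fun _ : Fin (N + 1) => ℂ) i).comp ((LE N).symm : EN N →L[ℂ] (Fin (N + 1) → ℂ))).analyticAt x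
    exact AnalyticAt.pi fun k => ((hpr _).div (hpr l) hl).sub analyticAt_const
  · filter_upwards [h3] with u hu
    funext k
    simp only [hL]
    rw [hu.2.1, hu.2.2 k]
    field_simp
    ring
  · rw [hσ0]
    have ht : Tendsto (fun y : EN N => (LE N).symm y) (𝓝 x) (𝓝 ((LE N).symm x)) := (LE N).symm.continuous.tendsto x
    have hne : ∀ᶠ y in 𝓝 ((LE N).symm x), (y : Fin (N + 1) → ℂ) l ≠ 0 := (continuous_apply l).continuousAt.eventually_ne hl
    filter_upwards [ht.eventually h4, ht.eventually hne] with y hy hyl hyX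
    refine ⟨(LE N).symm y l / (LE N).symm x l, div_ne_zero hyl hl, ?_⟩
    have h5 := hy hyX.2
    rw [← map_smul, ← h5, ContinuousLinearEquiv.apply_symm_apply]
  · rw [hσ0]
    have h7 : ∀ᶠ p in 𝓝 (x, (1 : ℂ)), p.2 ≠ 0 := by
      have : ContinuousAt (fun p : EN N × ℂ => p.2) (x, (1 : ℂ)) := continuousAt_snd
      exact this.eventually_ne one_ne_zero
    filter_upwards [h7] with p hp
    funext k
    simp only [map_smul, Pi.smul_apply, smul_eq_mul]
    rw [mul_div_mul_left _ _ hp]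

theorem charts_coneE [P.IsPrime] (hP : Homog P) {n : ℕ} {z : Fin n → FunField P} (hz : IsTranscendenceBasis ℂ z)
    (hsm : ∀ y : Fin (N + 1) → ℂ, y ≠ 0 → (∀ Q ∈ P, eval y Q = 0) → Module.finrank ℂ (conTan P y) ≤ n + 1) :
    Charts n (coneE P) := by
  intro x hx
  obtain ⟨l, hl⟩ : ∃ l, (LE N).symm x l ≠ 0 := by
    by_contra h
    push Not at h
    exact hx.1 (funext h)
  obtain ⟨I, σ, hg, h0⟩ := exists_ratioGerm hP hz hsm hx hl
  obtain ⟨χ, h1, h2⟩ := exists_chart_of_germ (isCone_coneE hP) hg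
  rw [h0] at h1 h2
  exact ⟨χ, h1, h2⟩

end Pool.Agent.AD

end

section

/-!
# CV StrA: forms which vanish on an entire curve in a curve

`form_of_curve`: let `Q` define a curve, `f : ℂ → openVar Q H` a non-constant entire curve, `R` a form which vanishes at all `f z`.  Then `R ∈ Q`: let `J = mapIdeal f univ` (`Pool/Agent/H17BP/MapIdeal.lean`):
homogeneous, prime (`mapIdeal_isPrime`), `Q ≤ J` (`le_mapIdeal`), `R ∈ J`, `exists_X_notMem`.  If `R ∉ Q` then `trdeg_lt` (`Pool/Agent/H17BP/TrdegLt.lean`; `exists_fin_basis`) shows that `FunField J` has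
transcendence degree `0`, so `variety J` is one point (`eq_of_trdeg_zero`), and `f` is constant (`mem_variety_mapIdeal`): contradiction.  (See the end of the proof of `picard_of_form` in `Pool/Agent/H17BP/Same.lean`.)
-/

set_option autoImplicit false

open Topology Filter MvPolynomial
open Pool.Agent.H17 (PN VanishesAt ZariskiClosedIn HolomorphicInto puncturedDisc)
open Pool.Agent.H17LG.Variety (FunField IsLogGeneralType)
open Pool.Agent.H62.FC (Homog)
open Pool.Agent.H17R (openVar)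

noncomputable section

namespace Pool.Agent.H13.CV

variable {N : ℕ}

theorem form_of_curve0 (Q : Ideal (MvPolynomial (Fin (N + 1)) ℂ)) [Q.IsPrime] (hQ : Homog Q)
    (hz : ∃ z : Fin 1 → FunField Q, IsTranscendenceBasis ℂ z) {f : ℂ → PN N} (hf : HolomorphicInto f Set.univ)
    (hfQ : ∀ z, ∀ R ∈ Q, ∀ n, R.IsHomogeneous n → VanishesAt R (f z)) (hne : ∃ z w, f z ≠ f w) {d : ℕ} {R : MvPolynomial (Fin (N + 1)) ℂ} (hR : R.IsHomogeneous d)
    (hfR : ∀ z, VanishesAt R (f z)) : R ∈ Q := by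
  by_contra hRQ
  set J := Pool.Agent.H17BP.mapIdeal f Set.univ with hJ
  have hJp : J.IsPrime := Pool.Agent.H17BP.mapIdeal_isPrime isOpen_univ isPreconnected_univ Set.univ_nonempty hf
  have hJX : ∃ i, (X i : MvPolynomial (Fin (N + 1)) ℂ) ∉ J := Pool.Agent.H17BP.exists_X_notMem Set.univ_nonempty
  have hJh : Homog J := Pool.Agent.H17BP.mapIdeal_homog
  have hQJ : Q ≤ J := Pool.Agent.H17BP.le_mapIdeal hQ fun z _ => ⟨hfQ z, fun m => m.elim0⟩
  have hRJ : R ∈ J := (Pool.Agent.H17BP.mem_mapIdeal_form hR).2 fun z _ => hfR z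
  obtain ⟨w, hw⟩ := Pool.Agent.H62.FC.exists_fin_basis (P := J) hJX
  have hlt : w < 1 := Pool.Agent.H17BP.trdeg_lt hQ hJh hQJ (fun h => hRQ (h hRJ)) hJX hz hw
  have hw0 : w = 0 := by omega
  subst hw0
  obtain ⟨a, b, hab⟩ := hne
  exact hab (Pool.Agent.H17BP.eq_of_trdeg_zero hJh hJX hw _ (Pool.Agent.H17BP.mem_variety_mapIdeal (Set.mem_univ a)) _
    (Pool.Agent.H17BP.mem_variety_mapIdeal (Set.mem_univ b)))

end Pool.Agent.H13.CV

end
end

section

/-!
# G3 Z JAn: the integral along short paths is holomorphic on arcs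

Let `F`, `G` be curves in `X` over the arc `γ` near `z₀`, `γ z₀ ∈ Gd D δ` off `D` and the distance of `pr (F z)`, `pr (G z)` at most `ε₀` near `z₀`, where `Cst X Λ u D δ' ε ε₀` (`TG/Defs`, `TG/Cp`).  Then
`z ↦ JJ α (γ z) (pr (F z)) (pr (G z))` is analytic at `z₀`.  See `II_analytic` (`TG/Jan`, for sections over open subsets of `ℂ^(k+1)`) and `jj_eq_II` (`TG/JJ`): same proof with the curves
`q (F z)`, `q (G z)` in a straight chart with `Cap` around `pr (F z₀)`: `II = (A (q (G z)) - A (q (F z))) / ρ^(k+1)` (`IRel.eq_cap`, `II_eq` in `TG/Un`), `A` a primitive (`exists_prim`), analytic.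
-/

set_option autoImplicit false

open Topology Filter Metric

namespace Pool.Agent.G3

open Pool.Agent.H36.BP (EN fs wd Sub)
open Pool.Agent.H14.PP (IsCone CurveAt Tan)
open Pool.Agent.H62.EF (MN pr)
open Pool.Agent.AD (Vd Chart Charts)
open Pool.Agent.TG (TMap Lat Geo Gd)

open Pool.Agent.TG (VForm JJ Fb TransAt)

variable {N k : ℕ} {X : Set (EN N)} {Λ : AddSubgroup (Vd (k + 1))} {u : EN N → Vd (k + 1)} {D B : Set (Vd (k + 1))} {p : EN N → EN N → ℝ} {m d : ℕ} {C : ℝ}
  {Q : EN N → ℂ} {S : Set (Vd (k + 1) → MN N)}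

theorem jj_an (G₀ : Geo X Λ u D B) {δ ε ε₀ : ℝ} (hc : Pool.Agent.TG.Cst X Λ u D δ ε ε₀) (α : VForm X Λ u) {F G : ℂ → EN N} {γ : ℂ → Vd (k + 1)} {z₀ : ℂ} {r : ℝ} (hr : 0 < r)
    (hF : Cv X Λ u (ball z₀ r) F γ) (hG : Cv X Λ u (ball z₀ r) G γ) (hγ : ∀ z ∈ ball z₀ r, γ z ∈ Gd D δ) (hd : ∀ z ∈ ball z₀ r, dist (pr (F z)) (pr (G z)) ≤ ε₀) :
    DifferentiableOn ℂ (fun z => JJ α (γ z) (pr (F z)) (pr (G z))) (ball z₀ r) := by
  intro z₁ hz₁
  have hX := G₀.cone
  have hε := hc.ε_pos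
  have hfF : ∀ z ∈ ball z₀ r, pr (F z) ∈ Fb X Λ u (γ z) := fun z hz => Pool.Agent.TG.mem_fb (hF.mem z hz) (hF.lift z hz)
  have hfG : ∀ z ∈ ball z₀ r, pr (G z) ∈ Fb X Λ u (γ z) := fun z hz => Pool.Agent.TG.mem_fb (hG.mem z hz) (hG.lift z hz)
  have hrel : ∀ z ∈ ball z₀ r, ∃ v, Pool.Agent.TG.IRel α ε (γ z) (pr (F z)) (pr (G z)) v := fun z hz =>
    hc.rel (γ z) (hγ z hz) (pr (F z)) (hfF z hz) (pr (G z)) (hfG z hz) (hd z hz) α
  obtain ⟨χ, c, ρ, hcap⟩ := hc.cap (γ z₁) (hγ z₁ hz₁) (pr (F z₁)) (hfF z₁ hz₁)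
  obtain ⟨A, hA⟩ := Pool.Agent.TG.exists_prim α χ hcap.str
  have hUz : ball z₀ r ∈ 𝓝 z₁ := isOpen_ball.mem_nhds hz₁
  have hFa : AnalyticAt ℂ F z₁ := hF.F_diff.analyticAt hUz
  have hGa : AnalyticAt ℂ G z₁ := hG.F_diff.analyticAt hUz
  have hγa : AnalyticAt ℂ γ z₁ := hF.h_diff.analyticAt hUz
  have hsub : closedBall (0 : Vd (k + 2)) 1 ⊆ ball (0 : Vd (k + 2)) 2 := closedBall_subset_ball (by norm_num)
  have hy₁ : γ z₁ ∈ closedBall (γ z₁) (3 * ε) := mem_closedBall_self (by linarith)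
  obtain ⟨v₁, hv₁⟩ := hrel z₁ hz₁
  obtain ⟨-, -, hFG⟩ := hv₁.mem
  obtain ⟨hφU, hφq, -⟩ := hcap.cap (γ z₁) hy₁ (F z₁) (hF.mem z₁ hz₁) (hF.lift z₁ hz₁) (by rw [dist_self]; linarith)
  obtain ⟨hψU, hψq, -⟩ := hcap.cap (γ z₁) hy₁ (G z₁) (hG.mem z₁ hz₁) (hG.lift z₁ hz₁) (hFG.trans (by linarith))
  have a1 : AnalyticAt ℂ (fun z => A (χ.q (F z))) z₁ :=
    AnalyticAt.comp (f := fun z => χ.q (F z)) (g := A) (hA.an _ (hsub hφq)) (AnalyticAt.comp (f := F) (g := χ.q) (χ.q_an _ hφU) hFa)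
  have a2 : AnalyticAt ℂ (fun z => A (χ.q (G z))) z₁ :=
    AnalyticAt.comp (f := fun z => χ.q (G z)) (g := A) (hA.an _ (hsub hψq)) (AnalyticAt.comp (f := G) (g := χ.q) (χ.q_an _ hψU) hGa)
  have hρ : (ρ : ℂ) ^ (k + 1) ≠ 0 := by
    have h1 := hcap.str.pos
    exact pow_ne_zero _ (by exact_mod_cast h1.ne')
  have a3 : AnalyticAt ℂ (fun z => (A (χ.q (G z)) - A (χ.q (F z))) / (ρ : ℂ) ^ (k + 1)) z₁ := (a2.sub a1).div analyticAt_const hρ
  have e3 : ∀ᶠ z in 𝓝 z₁, γ z ∈ closedBall (γ z₁) (3 * ε) := hγa.continuousAt.eventually (closedBall_mem_nhds _ (by linarith))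
  have e4 : ∀ᶠ z in 𝓝 z₁, dist (pr (F z)) (pr (F z₁)) < ε := by
    have h1 : ContinuousAt (fun z => pr (F z)) z₁ := ContinuousAt.comp (f := F) (g := pr)
      (Pool.Agent.H62.EF.continuousAt_pr (Pool.Agent.TG.ne_zero hX (hF.mem z₁ hz₁))) hFa.continuousAt
    exact h1.eventually (ball_mem_nhds _ hε)
  have a4 : AnalyticAt ℂ (fun z => JJ α (γ z) (pr (F z)) (pr (G z))) z₁ := by
    refine a3.congr ?_
    filter_upwards [hUz, e3, e4] with z h1 h3 h4
    rw [Pool.Agent.TG.jj_eq_II hX G₀.tor G₀.lat hc (hγ z h1) (hfF z h1) (hfG z h1) (hd z h1)]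
    exact (Pool.Agent.TG.II_eq hX G₀.tor G₀.lat (hrel z h1) hcap hA h3 (by linarith) (hF.mem z h1) (hG.mem z h1) rfl rfl).symm
  exact a4.differentiableAt.differentiableWithinAt

end Pool.Agent.G3

end
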