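import Pool.Agent.H94.G5T.H36.BP.WdA_1
import Pool.Agent.H94.G5T.M05
import Pool.Agent.H94.G5T.M12
import Pool.Agent.H94.G5T.M13
import Pool.Agent.H94.G5T.M28
import Pool.Agent.H94.G5T.M36

/-! The parts of this file: H62.EF.PrLip, H62.EF.LimL, G3.P.Ext, G4.H.Dir. -/

section

/-!
# EF PrLip: curves with bounded Fubini-Study derivative are Lipschitz

Let `F` be holomorphic on the open convex set `U`, without zeros, `fs (F z) (F' z) ≤ L`.  The map `z ↦ pr (F z)` is real differentiable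
on `U`, with derivative of norm at most `√2 L`; conclude with the mean value inequality (`Convex.norm_image_sub_le_of_norm_hasFDerivWithin_le`).
The derivative at `z` in the direction `h ∈ ℂ`: by `pr_smul`, `pr (F w) = pr (G w)` with `G w = F w / a(w)` for any holomorphic `a`
without zero; take the constant `a = ‖F z‖`-normalisation and subtract: with `x = F z`, `v = F' z h`, `v' = v - (⟨x, v⟩ / ‖x‖²) x`
(orthogonal to `x`): the derivative of `pr` at `x` in the direction `v` is `(v' x^* + x v'^*) / ‖x‖²`, of norm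
`√2 ‖v'‖ ‖x‖ / ‖x‖² = √2 wd x v / ‖x‖² = √2 fs x v`.
Another way, without computing the derivative: by `dist_pr`, `dist (pr (F z)) (pr (F w)) = √2 wd (F z) (F w) / (‖F z‖ ‖F w‖)` and
`wd (F z) (F w) = wd (F z) (F w - F z)`, so `limsup_{w → z} dist (pr (F z)) (pr (F w)) / ‖w - z‖ ≤ √2 wd (F z) (F' z) / ‖F z‖² ≤ √2 L`;
a map on a segment with this property is Lipschitz with every constant `> √2 L`
(`image_le_of_liminf_slope_right_lt_deriv_boundary` and variants for the real function `t ↦ dist (f z) (f (z + t (w - z)))`, or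
`image_norm_le_of_liminf_right_slope_norm_lt_deriv_boundary`).
-/

set_option autoImplicit false

open Topology Filter Metric

namespace Pool.Agent.H62.EF

open Pool.Agent.H36.BP (EN fs wd wd_cont wd_inv wd_smul_right fs_nonneg)

variable {N : ℕ}

/-- `wd x y = (t - s) wd x (slope)` -/
private theorem wd_slope {G : ℝ → EN N} {s t : ℝ} (h : s < t) :
    wd (G s) (G t) = (t - s) * wd (G s) (slope G s t) := by
  have h1 : G t = (((t - s : ℝ)) : ℂ) • slope G s t + (1 : ℂ) • G s := by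
    have hne : t - s ≠ 0 := by linarith
    rw [slope_def_module, one_smul, Complex.coe_smul, smul_smul, mul_inv_cancel₀ hne, one_smul, sub_add_cancel]
  have h2 : wd (G s) (G t) = wd (G s) ((((t - s : ℝ)) : ℂ) • slope G s t) := by
    have h3 := wd_inv (G s) ((((t - s : ℝ)) : ℂ) • slope G s t) 1 1
    have h4 : (1 : ℂ) • ((((t - s : ℝ)) : ℂ) • slope G s t) + (1 : ℂ) • G s = G t := by
      rw [one_smul ℂ ((((t - s : ℝ)) : ℂ) • slope G s t), ← h1]
    rw [h4, one_smul, norm_one, one_pow, one_mul] at h3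
    exact h3
  rw [h2, wd_smul_right, Complex.norm_real, Real.norm_of_nonneg (by linarith)]

private theorem lim_aux {l : Filter ℝ} {S : ℝ → EN N} {x v : EN N} (h : Tendsto S l (𝓝 v)) :
    Tendsto (fun t => wd x (S t)) l (𝓝 (wd x v)) := by
  have h1 : Tendsto (fun t => (inner ℂ x (S t) : ℂ)) l (𝓝 (inner ℂ x v)) := tendsto_const_nhds.inner h
  have h2 : Tendsto (fun t => ‖x‖ ^ 2 * ‖S t‖ ^ 2 - ‖(inner ℂ x (S t) : ℂ)‖ ^ 2) l
      (𝓝 (‖x‖ ^ 2 * ‖v‖ ^ 2 - ‖(inner ℂ x v : ℂ)‖ ^ 2)) :=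
    ((h.norm.pow 2).const_mul _).sub (h1.norm.pow 2)
  exact h2.sqrt

private theorem lim_aux2 {l : Filter ℝ} {S G : ℝ → EN N} {x v : EN N} (h : Tendsto S l (𝓝 v)) (hG : Tendsto G l (𝓝 x))
    (hx : ‖x‖ ≠ 0) :
    Tendsto (fun t => Real.sqrt 2 * (wd x (S t) / (‖x‖ * ‖G t‖))) l (𝓝 (Real.sqrt 2 * (wd x v / (‖x‖ * ‖x‖)))) := by
  have h1 := lim_aux (x := x) h
  have h2 : Tendsto (fun t => ‖x‖ * ‖G t‖) l (𝓝 (‖x‖ * ‖x‖)) := hG.norm.const_mul _
  exact (h1.div h2 (mul_ne_zero hx hx)).const_mul _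

theorem pr_lipschitz {F : ℂ → EN N} {U : Set ℂ} (hU : IsOpen U) (hUc : Convex ℝ U) (hF : DifferentiableOn ℂ F U)
    (h0 : ∀ z ∈ U, F z ≠ 0) {L : ℝ} (hL : ∀ z ∈ U, fs (F z) (deriv F z) ≤ L) :
    ∀ z ∈ U, ∀ w ∈ U, dist (pr (F z)) (pr (F w)) ≤ 2 * L * ‖z - w‖ := by
  intro z hz w hw
  have hL0 : 0 ≤ L := le_trans (fs_nonneg _ _) (hL z hz)
  obtain ⟨γ, hγ⟩ : ∃ γ : ℝ → ℂ, γ = fun t : ℝ => z + (t : ℂ) * (w - z) := ⟨_, rfl⟩
  have hγU : ∀ t ∈ Set.Icc (0 : ℝ) 1, γ t ∈ U := by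
    intro t ht
    have h1 := hUc hz hw (show 0 ≤ 1 - t by linarith [ht.2]) ht.1 (by ring)
    have h2 : γ t = (1 - t) • z + t • w := by
      rw [hγ]
      simp only [Complex.real_smul]
      push_cast
      ring
    rw [h2]
    exact h1
  have hγ0 : γ 0 = z := by rw [hγ]; simp
  have hγ1 : γ 1 = w := by rw [hγ]; simp
  have hγd : ∀ t, HasDerivAt γ (w - z) t := by
    intro t
    have h1 : HasDerivAt (fun s : ℝ => (s : ℂ)) 1 t := Complex.ofRealCLM.hasDerivAt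
    have h2 := (h1.mul_const (w - z)).const_add z
    rw [one_mul] at h2
    rw [hγ]
    exact h2
  obtain ⟨G, hG⟩ : ∃ G : ℝ → EN N, G = fun t => F (γ t) := ⟨_, rfl⟩
  have hGd : ∀ t ∈ Set.Icc (0 : ℝ) 1, HasDerivAt G ((w - z) • deriv F (γ t)) t := by
    intro t ht
    have h1 : HasDerivAt F (deriv F (γ t)) (γ t) :=
      (hF.differentiableAt (hU.mem_nhds (hγU t ht))).hasDerivAt
    rw [hG]
    exact h1.scomp t (hγd t)
  have hG0 : ∀ t ∈ Set.Icc (0 : ℝ) 1, G t ≠ 0 := by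
    intro t ht
    rw [hG]
    exact h0 _ (hγU t ht)
  have hcont : ContinuousOn (fun t => pr (G t) - pr (G 0)) (Set.Icc 0 1) := by
    intro t ht
    have h1 : ContinuousAt (fun t => pr (G t)) t :=
      ContinuousAt.comp (f := G) (g := pr) (continuousAt_pr (hG0 t ht)) (hGd t ht).continuousAt
    exact (h1.sub continuousAt_const).continuousWithinAt
  have hslope : ∀ x ∈ Set.Ico (0 : ℝ) 1, ∀ r : ℝ, Real.sqrt 2 * (L * ‖w - z‖) < r →
      ∃ᶠ t in 𝓝[>] x, slope (norm ∘ fun t => pr (G t) - pr (G 0)) x t < r := by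
    intro x hx r hr
    have hx1 : x ∈ Set.Icc (0 : ℝ) 1 := ⟨hx.1, hx.2.le⟩
    have hd := hGd x hx1
    have hs : Tendsto (slope G x) (𝓝[>] x) (𝓝 ((w - z) • deriv F (γ x))) :=
      (hasDerivAt_iff_tendsto_slope.1 hd).mono_left (nhdsWithin_mono _ fun t ht => ne_of_gt ht)
    have hc : Tendsto G (𝓝[>] x) (𝓝 (G x)) := hd.continuousAt.tendsto.mono_left nhdsWithin_le_nhds
    have hxn : ‖G x‖ ≠ 0 := norm_ne_zero_iff.2 (hG0 x hx1)
    have hlim : Tendsto (fun t => Real.sqrt 2 * (wd (G x) (slope G x t) / (‖G x‖ * ‖G t‖))) (𝓝[>] x)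
        (𝓝 (Real.sqrt 2 * (wd (G x) ((w - z) • deriv F (γ x)) / (‖G x‖ * ‖G x‖)))) := by
      exact lim_aux2 hs hc hxn
    have hval : Real.sqrt 2 * (wd (G x) ((w - z) • deriv F (γ x)) / (‖G x‖ * ‖G x‖)) ≤
        Real.sqrt 2 * (L * ‖w - z‖) := by
      refine mul_le_mul_of_nonneg_left ?_ (Real.sqrt_nonneg _)
      have h1 := hL (γ x) (hγU x hx1)
      have h2 : G x = F (γ x) := by rw [hG]
      unfold fs at h1
      rw [wd_smul_right, h2, mul_div_assoc, ← pow_two, mul_comm L]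
      exact mul_le_mul_of_nonneg_left h1 (norm_nonneg _)
    have hev : ∀ᶠ t in 𝓝[>] x, Real.sqrt 2 * (wd (G x) (slope G x t) / (‖G x‖ * ‖G t‖)) < r :=
      hlim.eventually (gt_mem_nhds (lt_of_le_of_lt hval hr))
    have hmem : ∀ᶠ t in 𝓝[>] x, t ∈ Set.Ioc x 1 := Ioc_mem_nhdsGT hx.2
    refine Eventually.frequently ?_
    filter_upwards [hev, hmem] with t ht htm
    have hxt : x < t := htm.1
    have ht1 : t ∈ Set.Icc (0 : ℝ) 1 := ⟨le_trans hx.1 hxt.le, htm.2⟩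
    refine lt_of_le_of_lt ?_ ht
    have h1 : ‖pr (G t) - pr (G 0)‖ - ‖pr (G x) - pr (G 0)‖ ≤ dist (pr (G x)) (pr (G t)) := by
      have h2 := norm_sub_norm_le (pr (G t) - pr (G 0)) (pr (G x) - pr (G 0))
      rw [sub_sub_sub_cancel_right, norm_sub_rev (pr (G t)) (pr (G x)), ← dist_eq_norm (pr (G x)) (pr (G t))] at h2
      exact h2
    rw [dist_pr (hG0 x hx1) (hG0 t ht1), wd_slope hxt] at h1
    rw [slope_def_field]
    show (‖pr (G t) - pr (G 0)‖ - ‖pr (G x) - pr (G 0)‖) / (t - x) ≤ _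
    rw [div_le_iff₀ (by linarith)]
    calc ‖pr (G t) - pr (G 0)‖ - ‖pr (G x) - pr (G 0)‖
        ≤ Real.sqrt 2 * ((t - x) * wd (G x) (slope G x t) / (‖G x‖ * ‖G t‖)) := h1
      _ = Real.sqrt 2 * (wd (G x) (slope G x t) / (‖G x‖ * ‖G t‖)) * (t - x) := by ring
  have key : ∀ ε : ℝ, 0 < ε → ‖pr (G 1) - pr (G 0)‖ ≤ Real.sqrt 2 * (L * ‖w - z‖) + ε := by
    intro ε hε
    have h1 := image_norm_le_of_liminf_right_slope_norm_lt_deriv_boundary (a := 0) (b := 1)
      (f := fun t => pr (G t) - pr (G 0)) (f' := fun _ => Real.sqrt 2 * (L * ‖w - z‖)) hcont hslope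
      (B := fun t => (Real.sqrt 2 * (L * ‖w - z‖) + ε) * t) (B' := fun _ => Real.sqrt 2 * (L * ‖w - z‖) + ε)
      (by simp) (by fun_prop)
      (fun x _ => by
        have h2 := (hasDerivAt_id x).const_mul (Real.sqrt 2 * (L * ‖w - z‖) + ε)
        rw [mul_one] at h2
        exact h2.hasDerivWithinAt)
      (fun x _ _ => by linarith) (x := 1) ⟨zero_le_one, le_refl 1⟩
    rw [mul_one] at h1
    exact h1
  have hfin : ‖pr (G 1) - pr (G 0)‖ ≤ Real.sqrt 2 * (L * ‖w - z‖) := le_of_forall_pos_le_add key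
  have hG1 : G 1 = F w := by rw [hG]; show F (γ 1) = F w; rw [hγ1]
  have hG0' : G 0 = F z := by rw [hG]; show F (γ 0) = F z; rw [hγ0]
  rw [hG1, hG0', ← dist_eq_norm, dist_comm] at hfin
  refine hfin.trans ?_
  have hs2 : Real.sqrt 2 ≤ 2 := by
    rw [Real.sqrt_le_left (by norm_num)]
    norm_num
  rw [norm_sub_rev z w, mul_assoc]
  exact mul_le_mul_of_nonneg_right hs2 (mul_nonneg hL0 (norm_nonneg _))

end Pool.Agent.H62.EF

end

section

/-!
# EF LimL: limits of curves with bounded derivative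

`F n` is a holomorphic curve in `X` on `ball 0 (ρ n)`, `ρ n → ∞` along the ultrafilter `𝒰`, with `fs (F n z) ((F n)' z) ≤ L` (`L > 0`).

(a) Local: let `z₀ ∈ ℂ`, `r = 1 / (8 L)`.  For `𝒰`-almost all `n` we have `ball z₀ r ⊆ ball 0 (ρ n)`; let `e n = F n z₀ / ‖F n z₀‖`,
`φ n z = (⟨e n, F n z⟩)⁻¹ • F n z` on `ball z₀ r`.  `pr_lipschitz`: `dist (pr (F n z)) (pr (e n)) ≤ 2 L r = 1/4`, so by `norm_inner_sq`
`‖⟨e n, F n z⟩‖² ≥ ‖F n z‖² / 2`: `φ n` is holomorphic, `‖φ n z‖ ≤ 2`, `⟨e n, φ n z⟩ = 1`.  `e n → e` (compact sphere) and by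
`montel_ultrafilter` `φ n → ψ` locally uniformly on `ball z₀ r`, `ψ` holomorphic; `⟨e, ψ z⟩ = 1`, so `ψ z ≠ 0`, and `ψ z ∈ X` because
`insert 0 X` is closed.  `pr (F n z) = pr (φ n z) → pr (ψ z)` (`continuousAt_pr`), and
`fs (F n z) ((F n)' z) = fs (φ n z) ((φ n)' z) → fs (ψ z) (ψ' z)` (`fs (k x) (k v + a x) = fs x v`, see `H36/BP/MtA.lean` and `WdA.lean`;
`TendstoLocallyUniformlyOn.deriv`).

(b) Global: for every `z` let `y z` be the limit of `pr (F n z)`; by (a) for every `z₀` there is `ψ` holomorphic near `z₀`, without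
zeros, with `pr (ψ z) = y z`.  Define `f z : PN N` as the class of `ψ_z z` (the `ψ` chosen at the point `z`); near `z₀`
`f z = [ψ_{z₀} z]` by `pr_eq_iff`, so `f` is `HolomorphicInto` on `univ`; `exists_global_lift` gives an entire lift `G` without zeros,
`pr (G z) = y z`, `G z = c • ψ z` with `c ≠ 0` near `z₀`, so `G z ∈ X`; `fs (G z) (G' z) = fs (ψ z) (ψ' z)` because `G = a ψ` near `z₀` with `a`
holomorphic without zeros (`a = ⟨e, G⟩`).
-/

set_option autoImplicit false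

open Topology Filter Metric

namespace Pool.Agent.H62.EF

open Pool.Agent.H36.BP (EN fs wd)
open Pool.Agent.H14.PP (IsCone)

variable {N : ℕ}

private lemma LimL_ne_zero {X : Set (EN N)} (hX : IsCone X) {x : EN N} (hx : x ∈ X) : x ≠ 0 := by
  rintro rfl
  exact hX.zero_notMem hx

private lemma LimL_fs_cont {x v : EN N} (hx : x ≠ 0) : ContinuousAt (fun p : EN N × EN N => fs p.1 p.2) (x, v) := by
  unfold fs
  have h1 : ContinuousAt (fun p : EN N × EN N => wd p.1 p.2) (x, v) := Pool.Agent.H36.BP.wd_cont.continuousAt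
  have h2 : ContinuousAt (fun p : EN N × EN N => ‖p.1‖ ^ 2) (x, v) := (continuous_fst.norm.pow 2).continuousAt
  exact h1.div h2 (pow_ne_zero 2 (norm_ne_zero_iff.mpr hx))

private lemma LimL_exists_coord {w : EN N} (hw : w ≠ 0) : ∃ j, w j ≠ 0 := by
  by_contra h
  push Not at h
  apply hw
  ext j
  exact h j

private lemma LimL_coord_an {f : ℂ → EN N} {z : ℂ} (hf : AnalyticAt ℂ f z) (i : Fin (N + 1)) :
    AnalyticAt ℂ (fun w => f w i) z := by
  exact ((EuclideanSpace.proj (𝕜 := ℂ) i : EN N →L[ℂ] ℂ).analyticAt _).comp hf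

private lemma LimL_fs_tendsto {x v : EN N} (hx : x ≠ 0) {a b : ℕ → EN N} {l : Filter ℕ} (ha : Tendsto a l (𝓝 x))
    (hb : Tendsto b l (𝓝 v)) : Tendsto (fun n => fs (a n) (b n)) l (𝓝 (fs x v)) := by
  have h1 := ha.prodMk_nhds hb
  have h2 := (LimL_fs_cont (v := v) hx).tendsto.comp h1
  exact h2

private lemma LimL_fs_eq_aux {f g : ℂ → EN N} {k : ℂ → ℂ} {z : ℂ} (hg : AnalyticAt ℂ g z) (hf0 : f z ≠ 0)
    (hg0 : g z ≠ 0) (hk : AnalyticAt ℂ k z) (h : ∀ᶠ w in 𝓝 z, f w = k w • g w) :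
    fs (f z) (deriv f z) = fs (g z) (deriv g z) := by
  have hz : f z = k z • g z := h.self_of_nhds
  have h0 : k z ≠ 0 := by
    intro h1
    apply hf0
    rw [hz, h1, zero_smul]
  have hd : deriv f z = k z • deriv g z + deriv k z • g z := by
    have h1 : f =ᶠ[𝓝 z] fun w => k w • g w := h
    rw [h1.deriv_eq]
    exact (hk.differentiableAt.hasDerivAt.smul hg.differentiableAt.hasDerivAt).deriv
  rw [hd, hz]
  exact Pool.Agent.H36.BP.fs_inv hg0 _ h0 _

/-- the length of the derivative does not depend on the lift -/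
private lemma LimL_fs_eq {f g : ℂ → EN N} {z : ℂ} (hf : AnalyticAt ℂ f z) (hg : AnalyticAt ℂ g z) (hf0 : f z ≠ 0)
    (hg0 : g z ≠ 0) (h : ∀ᶠ w in 𝓝 z, ∃ c : ℂ, c ≠ 0 ∧ f w = c • g w) : fs (f z) (deriv f z) = fs (g z) (deriv g z) := by
  obtain ⟨l, hl⟩ := LimL_exists_coord hg0
  have hgl := LimL_coord_an hg l
  have hfl := LimL_coord_an hf l
  have ha : AnalyticAt ℂ (fun w => f w l / g w l) z := hfl.div hgl hl
  have he : ∀ᶠ w in 𝓝 z, f w = (f w l / g w l) • g w := by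
    filter_upwards [h, hgl.continuousAt.eventually_ne hl] with w h1 h2
    obtain ⟨c, hc, h3⟩ := h1
    have h4 : f w l = c * g w l := by rw [h3]; rfl
    have h2' : g w l ≠ 0 := h2
    rw [h4, mul_div_assoc, div_self h2', mul_one]
    exact h3
  exact LimL_fs_eq_aux hg hf0 hg0 ha he

private lemma LimL_local {X : Set (EN N)} (hX : IsCone X) {L : ℝ} (hL : 0 < L) (𝒰 : Ultrafilter ℕ) (F : ℕ → ℂ → EN N) (ρ : ℕ → ℝ)
    (hρ : Tendsto ρ 𝒰 atTop) (hF : ∀ᶠ n in (𝒰 : Filter ℕ), DifferentiableOn ℂ (F n) (ball 0 (ρ n)) ∧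
      ∀ z ∈ ball (0 : ℂ) (ρ n), F n z ∈ X ∧ fs (F n z) (deriv (F n) z) ≤ L) (z₀ : ℂ) :
    ∃ (r : ℝ) (φ : ℕ → ℂ → EN N) (ψ : ℂ → EN N), 0 < r ∧
        (∀ᶠ n in (𝒰 : Filter ℕ), DifferentiableOn ℂ (F n) (ball z₀ r) ∧ DifferentiableOn ℂ (φ n) (ball z₀ r) ∧
          ∀ z ∈ ball z₀ r, F n z ∈ X ∧ ∃ c : ℂ, c ≠ 0 ∧ φ n z = c • F n z) ∧
        DifferentiableOn ℂ ψ (ball z₀ r) ∧ (∀ z ∈ ball z₀ r, ψ z ∈ X) ∧
        TendstoLocallyUniformlyOn φ ψ 𝒰 (ball z₀ r) := by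
  set r : ℝ := 1 / (8 * L) with hr
  have hr0 : 0 < r := by positivity
  have hz₀ : z₀ ∈ ball z₀ r := mem_ball_self hr0
  have hev : ∀ᶠ n in (𝒰 : Filter ℕ), DifferentiableOn ℂ (F n) (ball z₀ r) ∧
      ∀ z ∈ ball z₀ r, F n z ∈ X ∧ ‖F n z₀‖ * ‖F n z‖ ≤ 2 * ‖inner ℂ (F n z₀) (F n z)‖ := by
    filter_upwards [hF, hρ.eventually_ge_atTop (‖z₀‖ + r)] with n h1 h2
    obtain ⟨h1, h3⟩ := h1
    have hsub : ball z₀ r ⊆ ball 0 (ρ n) := by
      apply ball_subset_ball'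
      rw [dist_zero_right]
      linarith
    refine ⟨h1.mono hsub, fun z hz => ⟨(h3 z (hsub hz)).1, ?_⟩⟩
    have hx0 : F n z₀ ≠ 0 := LimL_ne_zero hX (h3 z₀ (hsub hz₀)).1
    have hy0 : F n z ≠ 0 := LimL_ne_zero hX (h3 z (hsub hz)).1
    have hlip := pr_lipschitz isOpen_ball (convex_ball z₀ r) (h1.mono hsub)
      (fun w hw => LimL_ne_zero hX (h3 w (hsub hw)).1) (fun w hw => (h3 w (hsub hw)).2) z₀ hz₀ z hz
    have h4 : ‖z₀ - z‖ ≤ r := by
      rw [← dist_eq_norm, dist_comm]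
      exact (mem_ball.mp hz).le
    have h5 : dist (pr (F n z₀)) (pr (F n z)) ≤ 1 / 4 := by
      calc dist (pr (F n z₀)) (pr (F n z)) ≤ 2 * L * ‖z₀ - z‖ := hlip
        _ ≤ 2 * L * r := by gcongr
        _ = 1 / 4 := by rw [hr]; field_simp; norm_num
    have h6 := norm_inner_sq hx0 hy0
    have h7 : dist (pr (F n z₀)) (pr (F n z)) ^ 2 ≤ 1 := by
      have := dist_nonneg (x := pr (F n z₀)) (y := pr (F n z))
      nlinarith
    have h8 : (‖F n z₀‖ * ‖F n z‖) ^ 2 ≤ (2 * ‖inner ℂ (F n z₀) (F n z)‖) ^ 2 := by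
      rw [mul_pow, mul_pow, h6]
      have h9 : 0 ≤ ‖F n z₀‖ ^ 2 * ‖F n z‖ ^ 2 := by positivity
      nlinarith
    exact abs_le_of_sq_le_sq' h8 (by positivity) |>.2
  set φ : ℕ → ℂ → EN N := fun n z => (((‖F n z₀‖ : ℝ) : ℂ) / inner ℂ (F n z₀) (F n z)) • F n z with hφ
  have hev2 : ∀ᶠ n in (𝒰 : Filter ℕ), DifferentiableOn ℂ (F n) (ball z₀ r) ∧ DifferentiableOn ℂ (φ n) (ball z₀ r) ∧
      ∀ z ∈ ball z₀ r, F n z ∈ X ∧ (∃ c : ℂ, c ≠ 0 ∧ φ n z = c • F n z) ∧ ‖φ n z‖ ≤ 2 ∧ 1 ≤ ‖φ n z‖ := by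
    filter_upwards [hev] with n h1
    obtain ⟨h1, h2⟩ := h1
    have hx0 : F n z₀ ≠ 0 := LimL_ne_zero hX (h2 z₀ hz₀).1
    have hxn : 0 < ‖F n z₀‖ := norm_pos_iff.mpr hx0
    have hin : ∀ z ∈ ball z₀ r, (inner ℂ (F n z₀) (F n z) : ℂ) ≠ 0 := by
      intro z hz h
      have h3 := (h2 z hz).2
      have hyn : 0 < ‖F n z‖ := norm_pos_iff.mpr (LimL_ne_zero hX (h2 z hz).1)
      rw [h, norm_zero, mul_zero] at h3
      have : 0 < ‖F n z₀‖ * ‖F n z‖ := mul_pos hxn hyn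
      linarith
    refine ⟨h1, ?_, fun z hz => ⟨(h2 z hz).1, ⟨_, ?_, rfl⟩, ?_, ?_⟩⟩
    · have h3 : DifferentiableOn ℂ (fun z => (inner ℂ (F n z₀) (F n z) : ℂ)) (ball z₀ r) :=
        (innerSL ℂ (F n z₀)).differentiable.comp_differentiableOn h1
      have h4 : DifferentiableOn ℂ (fun z => ((‖F n z₀‖ : ℝ) : ℂ) / (inner ℂ (F n z₀) (F n z) : ℂ)) (ball z₀ r) :=
        (differentiableOn_const _).div h3 hin
      exact h4.smul h1
    · exact div_ne_zero (Complex.ofReal_ne_zero.mpr hxn.ne') (hin z hz)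
    · have h3 := (h2 z hz).2
      have h4 : 0 < ‖(inner ℂ (F n z₀) (F n z) : ℂ)‖ := norm_pos_iff.mpr (hin z hz)
      simp only [hφ]
      rw [norm_smul, norm_div, Complex.norm_real, norm_norm, div_mul_eq_mul_div, div_le_iff₀ h4]
      exact h3
    · have h4 : 0 < ‖(inner ℂ (F n z₀) (F n z) : ℂ)‖ := norm_pos_iff.mpr (hin z hz)
      simp only [hφ]
      rw [norm_smul, norm_div, Complex.norm_real, norm_norm, div_mul_eq_mul_div, le_div_iff₀ h4, one_mul]
      exact norm_inner_le_norm _ _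
  obtain ⟨ψ, hψ, hconv⟩ := Pool.Agent.H17.montel_ultrafilter 𝒰 (F := φ) (a := z₀) (r := r) (B := 2)
    (hev2.mono fun n h => h.2.1) (hev2.mono fun n h z hz => ((h.2.2 z hz).2.2.1))
  refine ⟨r, φ, ψ, hr0, hev2.mono fun n h => ⟨h.1, h.2.1, fun z hz => ⟨(h.2.2 z hz).1, (h.2.2 z hz).2.1⟩⟩, hψ, ?_, hconv⟩
  intro z hz
  have h1 : Tendsto (fun n => φ n z) 𝒰 (𝓝 (ψ z)) := hconv.tendsto_at hz
  have h2 : ψ z ∈ insert 0 X := by
    refine hX.closed.mem_of_tendsto h1 ?_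
    filter_upwards [hev2] with n h
    obtain ⟨h3, ⟨c, hc, h4⟩, -⟩ := h.2.2 z hz
    rw [h4]
    exact Or.inr (hX.smul_mem _ h3 c hc)
  have h3 : 1 ≤ ‖ψ z‖ := by
    refine ge_of_tendsto h1.norm ?_
    filter_upwards [hev2] with n h
    exact (h.2.2 z hz).2.2.2
  rcases h2 with h2 | h2
  · rw [h2, norm_zero] at h3
    linarith
  · exact h2

theorem limit_curves {X : Set (EN N)} (hX : IsCone X) {L : ℝ} (hL : 0 < L) (𝒰 : Ultrafilter ℕ) (F : ℕ → ℂ → EN N) (ρ : ℕ → ℝ)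
    (hρ : Tendsto ρ 𝒰 atTop) (hF : ∀ᶠ n in (𝒰 : Filter ℕ), DifferentiableOn ℂ (F n) (ball 0 (ρ n)) ∧
      ∀ z ∈ ball (0 : ℂ) (ρ n), F n z ∈ X ∧ fs (F n z) (deriv (F n) z) ≤ L) :
    ∃ G : ℂ → EN N, Differentiable ℂ G ∧ (∀ z, G z ∈ X) ∧ (∀ z, Tendsto (fun n => pr (F n z)) 𝒰 (𝓝 (pr (G z)))) ∧
      (∀ z, Tendsto (fun n => fs (F n z) (deriv (F n) z)) 𝒰 (𝓝 (fs (G z) (deriv G z)))) ∧
      ∀ z₀, ∃ (r : ℝ) (φ : ℕ → ℂ → EN N) (ψ : ℂ → EN N), 0 < r ∧
        (∀ᶠ n in (𝒰 : Filter ℕ), DifferentiableOn ℂ (φ n) (ball z₀ r) ∧ ∀ z ∈ ball z₀ r, ∃ c : ℂ, c ≠ 0 ∧ φ n z = c • F n z) ∧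
        DifferentiableOn ℂ ψ (ball z₀ r) ∧ (∀ z ∈ ball z₀ r, ∃ c : ℂ, c ≠ 0 ∧ ψ z = c • G z) ∧
        TendstoLocallyUniformlyOn φ ψ 𝒰 (ball z₀ r) := by
  classical
  choose r φ ψ hr hev hψd hψX hconv using LimL_local hX hL 𝒰 F ρ hρ hF
  have hψ0 : ∀ z₀, ∀ z ∈ ball z₀ (r z₀), ψ z₀ z ≠ 0 := fun z₀ z hz => LimL_ne_zero hX (hψX z₀ z hz)
  have hself : ∀ z, z ∈ ball z (r z) := fun z => mem_ball_self (hr z)
  have hprl : ∀ z₀, ∀ z ∈ ball z₀ (r z₀), Tendsto (fun n => pr (F n z)) 𝒰 (𝓝 (pr (ψ z₀ z))) := by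
    intro z₀ z hz
    have h1 : Tendsto (fun n => φ z₀ n z) 𝒰 (𝓝 (ψ z₀ z)) := (hconv z₀).tendsto_at hz
    have h2 : Tendsto (fun n => pr (φ z₀ n z)) 𝒰 (𝓝 (pr (ψ z₀ z))) :=
      (continuousAt_pr (hψ0 z₀ z hz)).tendsto.comp h1
    refine h2.congr' ?_
    filter_upwards [hev z₀] with n h
    obtain ⟨-, c, hc, h4⟩ := h.2.2 z hz
    rw [h4, pr_smul _ hc]
  have hψan : ∀ z₀, AnalyticAt ℂ (ψ z₀) z₀ := fun z₀ => (hψd z₀).analyticAt (isOpen_ball.mem_nhds (hself z₀))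
  have hofne : ∀ v : EN N, v ≠ 0 → v.ofLp ≠ 0 := by
    intro v hv h
    apply hv
    ext j
    exact congrFun h j
  set f : ℂ → Pool.Agent.H17.PN N := fun z => Projectivization.mk ℂ (ψ z z).ofLp
    (hofne _ (hψ0 z z (hself z))) with hf
  have hfhol : Pool.Agent.H17.HolomorphicInto f Set.univ := by
    intro z₀ _
    refine ⟨fun w => (ψ z₀ w).ofLp, ?_, ?_⟩
    · rw [analyticAt_pi_iff]
      intro j
      exact LimL_coord_an (hψan z₀) j
    · filter_upwards [isOpen_ball.mem_nhds (hself z₀)] with z hz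
      have h2 := hψ0 z₀ z hz
      refine ⟨hofne _ h2, ?_⟩
      have h3 : pr (ψ z z) = pr (ψ z₀ z) := tendsto_nhds_unique (hprl z z (hself z)) (hprl z₀ z hz)
      obtain ⟨c, hc, h4⟩ := (pr_eq_iff (hψ0 z z (hself z)) h2).mp h3
      rw [hf, Projectivization.mk_eq_mk_iff']
      exact ⟨c, by rw [h4]; rfl⟩
  obtain ⟨x, hx⟩ := Pool.Agent.H17.exists_global_lift hfhol
  set G : ℂ → EN N := fun z => WithLp.toLp 2 (fun j => (x j : ℂ → ℂ) z) with hG
  have hGd : Differentiable ℂ G := by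
    have h1 : Differentiable ℂ (fun z => (fun j => (x j : ℂ → ℂ) z)) :=
      differentiable_pi.2 fun j => (x j).diff
    exact (PiLp.continuousLinearEquiv 2 ℂ (fun _ : Fin (N + 1) => ℂ)).symm.differentiable.comp h1
  have hGc : ∀ z, ∃ c : ℂ, c ≠ 0 ∧ ψ z z = c • G z := by
    intro z
    obtain ⟨h1, h2⟩ := hx z
    obtain ⟨c, hc, h3⟩ := Pool.Agent.H17.mk_eq_mk_cross h2
    refine ⟨c, hc, ?_⟩
    ext j
    exact h3 j
  have hGX : ∀ z, G z ∈ X := by
    intro z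
    obtain ⟨c, hc, h1⟩ := hGc z
    have h2 := hX.smul_mem _ (hψX z z (hself z)) c⁻¹ (inv_ne_zero hc)
    rwa [h1, smul_smul, inv_mul_cancel₀ hc, one_smul] at h2
  have hG0 : ∀ z, G z ≠ 0 := fun z => LimL_ne_zero hX (hGX z)
  have hGpr : ∀ z, pr (ψ z z) = pr (G z) := by
    intro z
    obtain ⟨c, hc, h1⟩ := hGc z
    rw [h1, pr_smul _ hc]
  have hlim : ∀ z, Tendsto (fun n => pr (F n z)) 𝒰 (𝓝 (pr (G z))) := by
    intro z
    rw [← hGpr z]
    exact hprl z z (hself z)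
  have hprop : ∀ z₀, ∀ z ∈ ball z₀ (r z₀), ∃ c : ℂ, c ≠ 0 ∧ ψ z₀ z = c • G z := by
    intro z₀ z hz
    exact (pr_eq_iff (hψ0 z₀ z hz) (hG0 z)).mp (tendsto_nhds_unique (hprl z₀ z hz) (hlim z))
  refine ⟨G, hGd, hGX, hlim, ?_, ?_⟩
  · intro z
    have hzb := isOpen_ball.mem_nhds (hself z)
    have h1 : fs (ψ z z) (deriv (ψ z) z) = fs (G z) (deriv G z) := by
      refine LimL_fs_eq (hψan z) (hGd.analyticAt z) (hψ0 z z (hself z)) (hG0 z) ?_
      filter_upwards [hzb] with w hw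
      exact hprop z w hw
    rw [← h1]
    have h2 : Tendsto (fun n => φ z n z) 𝒰 (𝓝 (ψ z z)) := (hconv z).tendsto_at (hself z)
    have hd : TendstoLocallyUniformlyOn (deriv ∘ (φ z)) (deriv (ψ z)) 𝒰 (ball z (r z)) :=
      (hconv z).deriv ((hev z).mono fun n hn => hn.2.1) isOpen_ball
    have h3 : Tendsto (fun n => deriv (φ z n) z) 𝒰 (𝓝 (deriv (ψ z) z)) := hd.tendsto_at (hself z)
    have h4 : Tendsto (fun n => fs (φ z n z) (deriv (φ z n) z)) 𝒰 (𝓝 (fs (ψ z z) (deriv (ψ z) z))) :=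
      LimL_fs_tendsto (hψ0 z z (hself z)) h2 h3
    refine h4.congr' ?_
    filter_upwards [hev z] with n h
    obtain ⟨h5, h6, h7⟩ := h
    have hFX := (h7 z (hself z)).1
    obtain ⟨c, hc, h8⟩ := (h7 z (hself z)).2
    refine LimL_fs_eq (h6.analyticAt hzb) (h5.analyticAt hzb) ?_ (LimL_ne_zero hX hFX) ?_
    · rw [h8]
      exact smul_ne_zero hc (LimL_ne_zero hX hFX)
    · filter_upwards [hzb] with w hw
      exact (h7 w hw).2
  · intro z₀
    refine ⟨r z₀, φ z₀, ψ z₀, hr z₀, ?_, hψd z₀, hprop z₀, hconv z₀⟩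
    filter_upwards [hev z₀] with n h
    exact ⟨h.2.1, fun z hz => (h.2.2 z hz).2⟩

end Pool.Agent.H62.EF

end

section

/-!
# G3 P Ext: extension over isolated points with a bound for `TT`

Proof: let `g n` be an entire function with `log ‖F n‖ ≤ Re (g n) ≤ log ‖F n‖ + 2` on the circle of radius `r` around `c` (`circle_approx`, `H36/BP/CirA`).
By the maximum principle `φ n = exp (- g n) • F n` has norm at most `1` on the disc of radius `r`, and `‖φ n c‖ ≥ exp (-(K + 2))` by the mean value property of `Re (g n)` and the bound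
`TT (F n) c r ≤ K`.  Along `𝒰` the maps `φ n` converge locally uniformly to a holomorphic map `H` with `H c ≠ 0` (`montel_ultrafilter`), and `f = pr H` off `S` and off the zeros of `H`.
Divide `H` by its zeros in `closedBall c r'` (`MeromorphicOn.extract_zeros_poles`) to get `G`.
-/

set_option autoImplicit false

open Topology Filter Metric

namespace Pool.Agent.G3

open Pool.Agent.H36.BP (EN fs wd Sub)
open Pool.Agent.H14.PP (IsCone CurveAt Tan)
open Pool.Agent.H62.EF (MN pr)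
open Pool.Agent.AD (Vd)
open Pool.Agent.TG (TMap Lat Geo Gd)

variable {N k : ℕ} {X : Set (EN N)} {Λ : AddSubgroup (Vd (k + 1))} {u : EN N → Vd (k + 1)} {D : Set (Vd (k + 1))} {p : EN N → EN N → ℝ} {m : ℕ} {C : ℝ}

/-- the normalisation of one curve -/
private theorem ext_norm {F : ℂ → EN N} {c : ℂ} {r R K : ℝ} (hr : 0 < r) (hR : r < R) (hF : DifferentiableOn ℂ F (ball c R)) (h0 : ∀ z ∈ ball c R, F z ≠ 0)
    (hT : TT F c r ≤ K) : ∃ g : ℂ → ℂ, Differentiable ℂ g ∧ (∀ z ∈ closedBall c r, ‖Complex.exp (-g z) • F z‖ ≤ 1) ∧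
      Real.exp (-(K + 2)) ≤ ‖Complex.exp (-g c) • F c‖ := by
  have hsub : closedBall c r ⊆ ball c R := closedBall_subset_ball hR
  have hFc : ContinuousOn F (ball c R) := hF.continuousOn
  have hlog : ContinuousOn (fun z => Real.log ‖F z‖) (ball c R) := hFc.norm.log fun z hz => norm_ne_zero_iff.2 (h0 z hz)
  have hmaps : Set.MapsTo (fun ζ : ℂ => ζ + c) (sphere (0 : ℂ) r) (sphere c r) := by
    intro ζ hζ
    rw [mem_sphere_zero_iff_norm] at hζ
    rw [mem_sphere_iff_norm, add_sub_cancel_right, hζ]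
  have hφ : ContinuousOn (fun ζ : ℂ => Real.log ‖F (ζ + c)‖) (sphere (0 : ℂ) r) :=
    (hlog.mono (sphere_subset_closedBall.trans hsub)).comp (continuous_id.add continuous_const).continuousOn hmaps
  obtain ⟨g₀, hg₀, hb⟩ := Pool.Agent.H36.BP.circle_approx hr _ hφ one_pos
  have hgd : Differentiable ℂ fun z => g₀ (z - c) + 1 := (hg₀.comp (differentiable_id.sub_const c)).add_const 1
  have hb' : ∀ z ∈ sphere c r, Real.log ‖F z‖ ≤ (g₀ (z - c) + 1).re ∧ (g₀ (z - c) + 1).re ≤ Real.log ‖F z‖ + 2 := by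
    intro z hz
    have h1 : z - c ∈ sphere (0 : ℂ) r := by
      rw [mem_sphere_zero_iff_norm]
      rwa [mem_sphere_iff_norm] at hz
    have h2 := abs_le.1 (hb (z - c) h1)
    simp only [sub_add_cancel] at h2
    rw [Complex.add_re, Complex.one_re]
    constructor
    · linarith [h2.1]
    · linarith [h2.2]
  have hnorm : ∀ z ∈ ball c R, ‖Complex.exp (-(g₀ (z - c) + 1)) • F z‖ = Real.exp (Real.log ‖F z‖ - (g₀ (z - c) + 1).re) := by
    intro z hz
    rw [norm_smul, Complex.norm_exp, Real.exp_sub, Real.exp_log (norm_pos_iff.2 (h0 z hz)), Complex.neg_re, Real.exp_neg]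
    ring
  refine ⟨fun z => g₀ (z - c) + 1, hgd, ?_, ?_⟩
  · intro z hz
    have hdc : DiffContOnCl ℂ (fun z => Complex.exp (-(g₀ (z - c) + 1)) • F z) (ball c r) := by
      apply DifferentiableOn.diffContOnCl
      rw [closure_ball c hr.ne']
      exact (hgd.neg.cexp.differentiableOn).smul (hF.mono hsub)
    refine Complex.norm_le_of_forall_mem_frontier_norm_le isBounded_ball hdc (fun w hw => ?_) (by rwa [closure_ball c hr.ne'])
    rw [frontier_ball c hr.ne'] at hw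
    rw [hnorm w (hsub (sphere_subset_closedBall hw))]
    rw [Real.exp_le_one_iff]
    linarith [(hb' w hw).1]
  · have hcR : c ∈ ball c R := hsub (mem_closedBall_self hr.le)
    simp only
    rw [hnorm c hcR, Real.exp_le_exp]
    have hi1 : CircleIntegrable (fun z => (g₀ (z - c) + 1).re) c r := (Complex.continuous_re.comp hgd.continuous).continuousOn.circleIntegrable'
    have hi2 : CircleIntegrable (fun z => Real.log ‖F z‖ + 2) c r :=
      ((hlog.mono (sphere_subset_closedBall.trans hsub)).add continuousOn_const).circleIntegrable hr.le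
    have hi3 : CircleIntegrable (fun z => Real.log ‖F z‖) c r :=
      (hlog.mono (sphere_subset_closedBall.trans hsub)).circleIntegrable hr.le
    have hi4 : CircleIntegrable (fun _ : ℂ => (2 : ℝ)) c r := continuousOn_const.circleIntegrable hr.le
    have e1 : Real.circleAverage (fun z => (g₀ (z - c) + 1).re) c r = (g₀ (c - c) + 1).re := by
      have h1 : CircleIntegrable (fun z => g₀ (z - c) + 1) c r := hgd.continuous.continuousOn.circleIntegrable'
      have h2 := Complex.reCLM.circleAverage_comp_comm h1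
      have h3 : Real.circleAverage (fun z => g₀ (z - c) + 1) c r = g₀ (c - c) + 1 := hgd.diffContOnCl.circleAverage
      rw [h3] at h2
      exact h2
    have e2 : Real.circleAverage (fun z => Real.log ‖F z‖ + 2) c r = Real.circleAverage (fun z => Real.log ‖F z‖) c r + 2 := by
      rw [Real.circleAverage_fun_add hi3 hi4, Real.circleAverage_const]
    have h4 := Real.circleAverage_mono hi1 hi2 fun z hz => (hb' z (by rwa [abs_of_pos hr] at hz)).2
    rw [e1, e2] at h4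
    unfold TT at hT
    linarith

theorem ext_disc (𝒰 : Ultrafilter ℕ) {F : ℕ → ℂ → EN N} {f : ℂ → MN N} {S : Set ℂ} {c : ℂ} {r' r R K : ℝ} (hr' : 0 < r') (hr : r' < r) (hR : r < R)
    (hS : ∀ z, ∀ᶠ w in 𝓝[≠] z, w ∉ S) (hSc : IsClosed S) (hc : c ∉ S)
    (hF : ∀ᶠ n in (𝒰 : Filter ℕ), DifferentiableOn ℂ (F n) (ball c R) ∧ ∀ z ∈ ball c R, F n z ≠ 0)
    (hT : ∀ᶠ n in (𝒰 : Filter ℕ), TT (F n) c r ≤ K)
    (hlim : ∀ L ⊆ ball c R \ S, IsCompact L → ∀ ε : ℝ, 0 < ε → ∀ᶠ n in (𝒰 : Filter ℕ), ∀ z ∈ L, dist (pr (F n z)) (f z) < ε)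
    (hf : ∀ z ∈ ball c R, z ∉ S → LLift f z) :
    ∃ G : ℂ → EN N, DifferentiableOn ℂ G (ball c r') ∧ (∀ z ∈ ball c r', G z ≠ 0) ∧ ∀ z ∈ ball c r', z ∉ S → f z = pr (G z) := by
  have hr0 : 0 < r := hr'.trans hr
  -- the normalised curves
  have hex : ∀ n, ∃ g : ℂ → ℂ, (DifferentiableOn ℂ (F n) (ball c R) ∧ ∀ z ∈ ball c R, F n z ≠ 0) → TT (F n) c r ≤ K →
      Differentiable ℂ g ∧ (∀ z ∈ closedBall c r, ‖Complex.exp (-g z) • F n z‖ ≤ 1) ∧ Real.exp (-(K + 2)) ≤ ‖Complex.exp (-g c) • F n c‖ := by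
    intro n
    by_cases h1 : DifferentiableOn ℂ (F n) (ball c R) ∧ ∀ z ∈ ball c R, F n z ≠ 0
    · by_cases h2 : TT (F n) c r ≤ K
      · obtain ⟨g, hg⟩ := ext_norm hr0 hR h1.1 h1.2 h2
        exact ⟨g, fun _ _ => hg⟩
      · exact ⟨0, fun _ h => absurd h h2⟩
    · exact ⟨0, fun h => absurd h h1⟩
  choose g hg using hex
  have hsubR : ball c r ⊆ ball c R := ball_subset_ball hR.le
  have hdiff : ∀ᶠ n in (𝒰 : Filter ℕ), DifferentiableOn ℂ (fun z => Complex.exp (-g n z) • F n z) (ball c r) := by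
    filter_upwards [hF, hT] with n h1 h2
    exact ((hg n h1 h2).1.neg.cexp.differentiableOn).smul (h1.1.mono hsubR)
  have hbdd : ∀ᶠ n in (𝒰 : Filter ℕ), ∀ z ∈ ball c r, ‖Complex.exp (-g n z) • F n z‖ ≤ 1 := by
    filter_upwards [hF, hT] with n h1 h2 z hz
    exact (hg n h1 h2).2.1 z (ball_subset_closedBall hz)
  obtain ⟨H, hHd, hHl⟩ := Pool.Agent.H17.montel_ultrafilter 𝒰 (F := fun n z => Complex.exp (-g n z) • F n z) hdiff hbdd
  have hcr : c ∈ ball c r := mem_ball_self hr0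
  have hHc : H c ≠ 0 := by
    have h1 : Tendsto (fun n => ‖Complex.exp (-g n c) • F n c‖) 𝒰 (𝓝 ‖H c‖) := (hHl.tendsto_at hcr).norm
    have h2 : Real.exp (-(K + 2)) ≤ ‖H c‖ := by
      refine ge_of_tendsto h1 ?_
      filter_upwards [hF, hT] with n h3 h4
      exact (hg n h3 h4).2.2
    exact norm_pos_iff.1 (lt_of_lt_of_le (Real.exp_pos _) h2)
  -- `f = pr H` off `S` and off the zeros of `H`
  have hfH : ∀ z ∈ ball c r, z ∉ S → H z ≠ 0 → f z = pr (H z) := by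
    intro z hz hzS hHz
    have h1 : Tendsto (fun n => pr (Complex.exp (-g n z) • F n z)) 𝒰 (𝓝 (pr (H z))) :=
      (Pool.Agent.H62.EF.continuousAt_pr hHz).tendsto.comp (hHl.tendsto_at hz)
    have h2 : Tendsto (fun n => pr (F n z)) 𝒰 (𝓝 (f z)) := by
      rw [Metric.tendsto_nhds]
      intro ε hε
      have h3 : ({z} : Set ℂ) ⊆ ball c R \ S := by
        rw [Set.singleton_subset_iff]
        exact ⟨hsubR hz, hzS⟩
      filter_upwards [hlim {z} h3 isCompact_singleton ε hε] with n hn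
      exact hn z rfl
    have h4 : (fun n => pr (Complex.exp (-g n z) • F n z)) = fun n => pr (F n z) := by
      funext n
      exact Pool.Agent.H62.EF.pr_smul _ (Complex.exp_ne_zero _)
    rw [h4] at h1
    exact tendsto_nhds_unique h2 h1
  -- the zeros of `H` are isolated
  have hHa : AnalyticOnNhd ℂ H (ball c r) := hHd.analyticOnNhd isOpen_ball
  have hiso : ∀ z ∈ ball c r, ∀ᶠ w in 𝓝[≠] z, H w ≠ 0 := by
    intro z hz
    rcases (hHa z hz).eventually_eq_zero_or_eventually_ne_zero with h | h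
    · exfalso
      exact hHc (hHa.eqOn_zero_of_preconnected_of_eventuallyEq_zero (convex_ball c r).isPreconnected hz h hcr)
    · exact h
  have hsub : closedBall c r' ⊆ ball c r := closedBall_subset_ball hr
  have hHm : MeromorphicOn H (closedBall c r') := fun z hz => (hHa z (hsub hz)).meromorphicAt
  have hord : ∀ z : closedBall c r', meromorphicOrderAt H z ≠ ⊤ := by
    rintro ⟨z, hz⟩ h
    rw [meromorphicOrderAt_eq_top_iff] at h
    obtain ⟨w, h1, h2⟩ := (h.and (hiso z (hsub hz))).exists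
    exact h2 h1
  obtain ⟨G, hGa, hG0, hGe⟩ := hHm.extract_zeros_poles hord ((MeromorphicOn.divisor H (closedBall c r')).finiteSupport (isCompact_closedBall c r'))
  have hsub' : ball c r' ⊆ closedBall c r' := ball_subset_closedBall
  refine ⟨G, fun z hz => ((hGa z (hsub' hz)).differentiableAt).differentiableWithinAt, fun z hz => hG0 ⟨z, hsub' hz⟩, fun z hz hzS => ?_⟩
  have hzr : z ∈ ball c r := hsub (hsub' hz)
  obtain ⟨Φ, hΦ, hfΦ⟩ := hf z (hsubR hzr) hzS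
  have hev : ∀ᶠ w in 𝓝[≠] z, pr (Φ w) = pr (G w) := by
    have h1 : ∀ᶠ w in 𝓝[≠] z, w ∈ closedBall c r' := nhdsWithin_le_nhds (Filter.mem_of_superset (isOpen_ball.mem_nhds hz) hsub')
    have h2 : ∀ᶠ w in 𝓝[≠] z, w ∈ ball c r := nhdsWithin_le_nhds (isOpen_ball.mem_nhds hzr)
    have h3 : ∀ᶠ w in 𝓝[≠] z, w ∈ closedBall c r' → H w = ((∏ᶠ u, (· - u) ^ MeromorphicOn.divisor H (closedBall c r') u) • G) w := by
      have h4 := mem_codiscreteWithin.1 hGe z (hsub' hz)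
      rw [disjoint_principal_right] at h4
      filter_upwards [h4] with w hw hwm
      by_contra h5
      exact hw ⟨hwm, h5⟩
    filter_upwards [h1, h2, h3, hiso z hzr, hS z, hfΦ.filter_mono nhdsWithin_le_nhds] with w w1 w2 w3 w4 w5 w6
    rw [← w6.2, hfH w w2 w5 w4]
    have h6 := w3 w1
    rw [Pi.smul_apply'] at h6
    rw [h6]
    refine Pool.Agent.H62.EF.pr_smul _ fun h7 => ?_
    rw [h7, zero_smul] at h6
    exact w4 h6
  have hΦz : Φ z ≠ 0 := hfΦ.self_of_nhds.1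
  have t1 : Tendsto (fun w => pr (Φ w)) (𝓝[≠] z) (𝓝 (pr (Φ z))) :=
    ((Pool.Agent.H62.EF.continuousAt_pr hΦz).tendsto.comp hΦ.continuousAt.tendsto).mono_left nhdsWithin_le_nhds
  have t2 : Tendsto (fun w => pr (G w)) (𝓝[≠] z) (𝓝 (pr (G z))) :=
    ((Pool.Agent.H62.EF.continuousAt_pr (hG0 ⟨z, hsub' hz⟩)).tendsto.comp (hGa z (hsub' hz)).continuousAt.tendsto).mono_left nhdsWithin_le_nhds
  rw [hfΦ.self_of_nhds.2]
  exact tendsto_nhds_unique (t1.congr' hev) t2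

end Pool.Agent.G3

end

section

/-!
# G4 H Dir: the derivatives in the direction `a`

`dir_iter_per`: if the derivatives of `f` of the orders `< j` vanish at `y` and at `y + lv b c`, then those of order `j` transform with the factor (the functions `z ↦ f (y + z a)` and `z ↦ f (y + lv b c + z a)` have zeros of order `≥ j` at `0`).
`dir_zero`: the order of the zero of `z ↦ f (y + z a)`.
-/

set_option autoImplicit false

open Topology Filter Metric

namespace Pool.Agent.G4.H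

open Pool.Agent.AD (Vd)
open Pool.Agent.G3 (wt)

variable {k r : ℕ} {a : Vd (k + 1)} {f g : Vd (k + 1) → ℂ}

private lemma dir_an1 (hf : ∀ y, AnalyticAt ℂ f y) : ∀ y, AnalyticAt ℂ (dir a f) y := by
  intro y
  have h1 : AnalyticAt ℂ (fderiv ℂ f) y := (hf y).fderiv
  exact ((ContinuousLinearMap.apply ℂ ℂ a).analyticAt (fderiv ℂ f y)).comp h1

theorem dir_an (hf : ∀ y, AnalyticAt ℂ f y) (j : ℕ) : ∀ y, AnalyticAt ℂ ((dir a)^[j] f) y := by
  induction j with
  | zero => simpa using hf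
  | succ j ih =>
    rw [Function.iterate_succ_apply']
    exact dir_an1 ih

theorem dir_lin (hf : ∀ y, AnalyticAt ℂ f y) (hg : ∀ y, AnalyticAt ℂ g y) (c : ℂ) (j : ℕ) :
    (dir a)^[j] (fun y => f y + c * g y) = fun y => (dir a)^[j] f y + c * (dir a)^[j] g y := by
  induction j with
  | zero => simp
  | succ j ih =>
    rw [Function.iterate_succ_apply', ih, Function.iterate_succ_apply', Function.iterate_succ_apply']
    funext y
    have h1 : DifferentiableAt ℂ ((dir a)^[j] f) y := (dir_an hf j y).differentiableAt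
    have h2 : DifferentiableAt ℂ ((dir a)^[j] g) y := (dir_an hg j y).differentiableAt
    have h3 := (h1.hasFDerivAt.add (h2.hasFDerivAt.const_mul c)).fderiv
    have h4 : fderiv ℂ (fun y => (dir a)^[j] f y + c * (dir a)^[j] g y) y = fderiv ℂ ((dir a)^[j] f) y + c • fderiv ℂ ((dir a)^[j] g) y := h3
    simp only [dir, h4]
    rfl

private lemma hasDeriv_line {F : Vd (k + 1) → ℂ} (hF : ∀ y, AnalyticAt ℂ F y) (y : Vd (k + 1)) (z : ℂ) : HasDerivAt (fun w : ℂ => F (y + w • a)) (dir a F (y + z • a)) z := by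
  have h1 : HasFDerivAt F (fderiv ℂ F (y + z • a)) (y + z • a) := (hF _).differentiableAt.hasFDerivAt
  have h2 : HasDerivAt (fun w : ℂ => y + w • a) a z := by
    have h3 : HasDerivAt (fun w : ℂ => w • a) ((1 : ℂ) • a) z := (hasDerivAt_id z).smul_const a
    rw [one_smul] at h3
    exact h3.const_add y
  exact h1.comp_hasDerivAt z h2

private lemma diff_line {F : Vd (k + 1) → ℂ} (hF : ∀ y, AnalyticAt ℂ F y) (y : Vd (k + 1)) : Differentiable ℂ (fun w : ℂ => F (y + w • a)) :=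
  fun z => (hasDeriv_line hF y z).differentiableAt

theorem dir_line (hf : ∀ y, AnalyticAt ℂ f y) (j : ℕ) (y : Vd (k + 1)) (z : ℂ) : iteratedDeriv j (fun w : ℂ => f (y + w • a)) z = (dir a)^[j] f (y + z • a) := by
  induction j generalizing z with
  | zero => simp
  | succ j ih =>
    rw [iteratedDeriv_succ, Function.iterate_succ_apply']
    have h1 : iteratedDeriv j (fun w : ℂ => f (y + w • a)) = fun w : ℂ => (dir a)^[j] f (y + w • a) := funext ih
    rw [h1]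
    exact (hasDeriv_line (dir_an hf j) y z).deriv

private lemma iter_pow (z₀ : ℂ) (l : ℕ) : ∀ G : ℂ → ℂ, Differentiable ℂ G → iteratedDeriv l (fun z => (z - z₀) ^ l * G z) z₀ = (l.factorial : ℂ) * G z₀ := by
  induction l with
  | zero => intro G _; simp
  | succ l ih =>
    intro G hG
    rw [iteratedDeriv_succ']
    have h1 : deriv (fun z => (z - z₀) ^ (l + 1) * G z) = fun z => (z - z₀) ^ l * (((l : ℂ) + 1) * G z + (z - z₀) * deriv G z) := by
      funext z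
      have h2 : HasDerivAt (fun z : ℂ => (z - z₀) ^ (l + 1)) (((l + 1 : ℕ) : ℂ) * (z - z₀) ^ l * 1) z := by
        exact ((hasDerivAt_id z).sub_const z₀).pow (l + 1)
      have h3 := (h2.mul (hG z).hasDerivAt).deriv
      have h4 : deriv (fun z => (z - z₀) ^ (l + 1) * G z) z = ((l + 1 : ℕ) : ℂ) * (z - z₀) ^ l * 1 * G z + (z - z₀) ^ (l + 1) * deriv G z := h3
      rw [h4]
      push_cast
      ring
    rw [h1, ih (fun z => ((l : ℂ) + 1) * G z + (z - z₀) * deriv G z)]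
    · simp [Nat.factorial_succ]
      ring
    · have h5 : Differentiable ℂ (deriv G) := by
        intro z
        exact ((hG.analyticAt z).deriv).differentiableAt
      exact (hG.const_mul _).add (((differentiable_id).sub_const z₀).mul h5)

private lemma div_one {G : ℂ → ℂ} (hG : Differentiable ℂ G) {z₀ : ℂ} (h0 : G z₀ = 0) : ∃ g : ℂ → ℂ, Differentiable ℂ g ∧ ∀ z, G z = (z - z₀) * g z := by
  refine ⟨dslope G z₀, ?_, fun z => ?_⟩
  · have h1 : DifferentiableOn ℂ (dslope G z₀) Set.univ := (Complex.differentiableOn_dslope Filter.univ_mem).2 hG.differentiableOn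
    exact differentiableOn_univ.1 h1
  · have h2 := sub_smul_dslope G z₀ z
    rw [smul_eq_mul, h0, sub_zero] at h2
    exact h2.symm

private lemma div_pow {φ : ℂ → ℂ} (hφ : Differentiable ℂ φ) {z₀ : ℂ} (l : ℕ) (h : ∀ j < l, iteratedDeriv j φ z₀ = 0) : ∃ g : ℂ → ℂ, Differentiable ℂ g ∧ ∀ z, φ z = (z - z₀) ^ l * g z := by
  induction l with
  | zero => exact ⟨φ, hφ, fun z => by simp⟩
  | succ l ih =>
    obtain ⟨g, hg, h1⟩ := ih fun j hj => h j (by omega)
    have h2 : φ = fun z => (z - z₀) ^ l * g z := funext h1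
    have h3 := h l (by omega)
    rw [h2, iter_pow z₀ l g hg] at h3
    have h4 : g z₀ = 0 := by
      rcases mul_eq_zero.1 h3 with h5 | h5
      · exact absurd h5 (by exact_mod_cast Nat.factorial_ne_zero l)
      · exact h5
    obtain ⟨g', hg', h6⟩ := div_one hg h4
    refine ⟨g', hg', fun z => ?_⟩
    rw [h1 z, h6 z]
    ring

/-- if the derivatives of order `< l` vanish at `y + z₀ a` then `z ↦ f (y + z a)` is divisible by `(z - z₀) ^ l` -/
theorem dir_zero (hf : ∀ y, AnalyticAt ℂ f y) {l : ℕ} {y : Vd (k + 1)} {z₀ : ℂ} (h : ∀ j < l, (dir a)^[j] f (y + z₀ • a) = 0) :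
    ∃ g : ℂ → ℂ, Differentiable ℂ g ∧ ∀ z, f (y + z • a) = (z - z₀) ^ l * g z :=
  div_pow (diff_line hf y) l fun j hj => by rw [dir_line hf j y z₀]; exact h j hj

theorem dir_iter_per {h : Vd (k + 1) → ℂ} (hh : ∀ y, AnalyticAt ℂ h y) (hf : ∀ y, AnalyticAt ℂ f y) {v : Vd (k + 1)} (hper : ∀ y, h y * f (y + v) = f y) {j : ℕ} {y : Vd (k + 1)}
    (h0 : ∀ i < j, (dir a)^[i] f (y + v) = 0) : h y * (dir a)^[j] f (y + v) = (dir a)^[j] f y := by
  obtain ⟨G, hG, h1⟩ := dir_zero (a := a) hf (l := j) (y := y + v) (z₀ := 0) (by simpa using h0)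
  have h2 : (fun w : ℂ => f (y + v + w • a)) = fun w : ℂ => (w - 0) ^ j * G w := funext h1
  have h3 : (fun w : ℂ => f (y + w • a)) = fun w : ℂ => (w - 0) ^ j * (h (y + w • a) * G w) := by
    funext w
    rw [← hper (y + w • a)]
    have : y + w • a + v = y + v + w • a := by abel
    rw [this, h1 w]
    ring
  have h4 := dir_line (a := a) hf j (y + v) 0
  have h5 := dir_line (a := a) hf j y 0
  rw [h2, iter_pow 0 j G hG] at h4
  rw [h3, iter_pow 0 j (fun w : ℂ => h (y + w • a) * G w) ((diff_line hh y).mul hG)] at h5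
  simp only [zero_smul, add_zero] at h4 h5
  rw [← h4, ← h5]
  ring

end Pool.Agent.G4.H

end
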