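import Pool.Agent.H94.G5T.M13
import Pool.Agent.H94.G5T.M44
import Pool.Agent.H94.G5T.M59

/-! The parts of this file: G4.M.AhlK, G3.P.Ahl, G3.Z.Mean. -/

section

/-!
# G4 M AhlK: the key inequality of the Ahlfors lemma from the mean value inequalities

At a local maximum `ζ` of `q T ^ m` (`q` satisfies Jensen's inequality, `T` has a lower support with the exponent `- τ`): `fs^2/2 ≤ C ‖h'‖^2 + m τ`.  Take means over small circles: `avg_low` for `V = ‖F‖ T ^ m`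
(`Sub.norm_rpow`, `Sub.rpow`, `Sub.mul`).
-/

set_option autoImplicit false

open Topology Filter Metric

namespace Pool.Agent.G4.M

open Pool.Agent.H36.BP (EN fs wd Sub)
open Pool.Agent.AD (Vd)
open Pool.Agent.G3 (TT)

variable {N k : ℕ}

/-- the mean value inequality for `log ‖a‖` -/
theorem log_norm_le_cA {a : ℂ → ℂ} {z : ℂ} {s : ℝ} (hs : 0 < s) (ha : AnalyticOnNhd ℂ a (closedBall z s)) (ha0 : a z ≠ 0) :
    Real.log ‖a z‖ ≤ Real.circleAverage (fun w => Real.log ‖a w‖) z s := by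
  have har : |s| = s := abs_of_pos hs
  have hana : AnalyticOnNhd ℂ a (closedBall z |s|) := by rwa [har]
  rw [AnalyticOnNhd.circleAverage_log_norm hs.ne' hana ha0]
  have h1 : 0 ≤ ∑ᶠ u, (MeromorphicOn.divisor a (closedBall z |s|) u : ℝ) * Real.log (s * ‖z - u‖⁻¹) := by
    apply finsum_nonneg
    intro u
    by_cases hu : u ∈ closedBall z |s|
    · apply mul_nonneg
      · have := MeromorphicOn.AnalyticOnNhd.divisor_nonneg hana u
        exact_mod_cast this
      · by_cases huc : u = z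
        · simp [huc]
        · apply Real.log_nonneg
          have h2 : 0 < ‖z - u‖ := by
            rw [norm_pos_iff, sub_ne_zero]
            exact fun h => huc h.symm
          have h3 : ‖z - u‖ ≤ s := by
            rw [mem_closedBall, dist_eq_norm, abs_of_pos hs, norm_sub_rev] at hu
            exact hu
          rw [← div_eq_mul_inv, le_div_iff₀ h2]
          linarith
    · have : MeromorphicOn.divisor a (closedBall z |s|) u = 0 := Function.locallyFinsuppWithin.apply_eq_zero_of_notMem _ hu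
      simp [this]
  linarith

/-- the means of `log V` over small circles -/
theorem avg_low {V : ℂ → ℝ} {ζ : ℂ} {c c' : ℝ} (hV : Sub V ζ c) (hc : c' < c) (hVc : ∀ᶠ w in 𝓝 ζ, ContinuousAt V w) :
    ∀ᶠ s in 𝓝[>] (0 : ℝ), CircleIntegrable (fun w => Real.log (V w)) ζ s ∧ Real.log (V ζ) + c' * s ^ 2 ≤ Real.circleAverage (fun w => Real.log (V w)) ζ s := by
  obtain ⟨hV0, hV1⟩ := hV
  obtain ⟨g, hg, hg0, hge⟩ := hV1 c' hc
  have hgne : g ζ ≠ 0 := by
    intro h
    rw [h, norm_zero] at hg0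
    exact hV0.ne hg0
  have hVpos : ∀ᶠ w in 𝓝 ζ, 0 < V w := hVc.self_of_nhds.eventually_const_lt hV0
  obtain ⟨ρ, hρ, hball⟩ := Metric.eventually_nhds_iff_ball.1
    (((hg.eventually_analyticAt.and (hg.continuousAt.eventually_ne hgne)).and (hge.and hVc)).and hVpos)
  have hsm : ∀ᶠ s in 𝓝[>] (0 : ℝ), s < ρ := nhdsWithin_le_nhds (Iio_mem_nhds hρ)
  filter_upwards [hsm, self_mem_nhdsWithin] with s hs hs0
  have hs0 : 0 < s := hs0
  have har : |s| = s := abs_of_pos hs0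
  have hin : closedBall ζ s ⊆ ball ζ ρ := closedBall_subset_ball hs
  have hsp : sphere ζ s ⊆ ball ζ ρ := sphere_subset_closedBall.trans hin
  have hlV : ContinuousOn (fun w => Real.log (V w)) (sphere ζ s) := fun w hw =>
    (((hball w (hsp hw)).1.2.2).log (hball w (hsp hw)).2.ne').continuousWithinAt
  have hlg : ContinuousOn (fun w => Real.log ‖g w‖) (sphere ζ s) := fun w hw =>
    (((hball w (hsp hw)).1.1.1.continuousAt.norm).log (norm_ne_zero_iff.2 (hball w (hsp hw)).1.1.2)).continuousWithinAt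
  have hIV := hlV.circleIntegrable hs0.le
  have hIg := hlg.circleIntegrable hs0.le
  refine ⟨hIV, ?_⟩
  have h1 := log_norm_le_cA hs0 (fun w hw => (hball w (hin hw)).1.1.1) hgne
  have h2 : Real.circleAverage (fun w => Real.log ‖g w‖ + c' * s ^ 2) ζ s ≤ Real.circleAverage (fun w => Real.log (V w)) ζ s := by
    refine Real.circleAverage_mono (hIg.fun_add (circleIntegrable_const _ _ _)) hIV fun w hw => ?_
    rw [har] at hw
    have hw' := hball w (hsp hw)
    have hd : ‖w - ζ‖ = s := by rw [← dist_eq_norm]; exact hw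
    have h3 := hw'.1.2.1
    rw [hd] at h3
    have h4 : Real.log (‖g w‖ * Real.exp (c' * s ^ 2)) ≤ Real.log (V w) :=
      Real.log_le_log (mul_pos (norm_pos_iff.2 hw'.1.1.2) (Real.exp_pos _)) h3
    rwa [Real.log_mul (norm_ne_zero_iff.2 hw'.1.1.2) (Real.exp_pos _).ne', Real.log_exp] at h4
  rw [Real.circleAverage_fun_add hIg (circleIntegrable_const _ _ _), Real.circleAverage_const] at h2
  rw [hg0] at h1
  linarith

/-- the means of `‖h - h ζ‖ ^ 2` over small circles -/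
theorem avg_sq_le {h : ℂ → Vd (k + 1)} {ζ : ℂ} (hh : AnalyticAt ℂ h ζ) {η : ℝ} (hη : 0 < η) :
    ∀ᶠ s in 𝓝[>] (0 : ℝ), Real.circleAverage (fun w => ‖h w - h ζ‖ ^ 2) ζ s ≤ (‖deriv h ζ‖ + η) ^ 2 * s ^ 2 := by
  have h1 : ∀ᶠ w in 𝓝 ζ, ‖h w - h ζ - (w - ζ) • deriv h ζ‖ ≤ η * ‖w - ζ‖ := by
    have h2 := hh.differentiableAt.hasDerivAt.isLittleO
    exact h2.def hη
  obtain ⟨ρ, hρ, hball⟩ := Metric.eventually_nhds_iff_ball.1 (h1.and hh.eventually_analyticAt)
  have hsm : ∀ᶠ s in 𝓝[>] (0 : ℝ), s < ρ := nhdsWithin_le_nhds (Iio_mem_nhds hρ)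
  filter_upwards [hsm, self_mem_nhdsWithin] with s hs hs0
  have hs0 : 0 < s := hs0
  have har : |s| = s := abs_of_pos hs0
  have hsp : sphere ζ s ⊆ ball ζ ρ := sphere_subset_closedBall.trans (closedBall_subset_ball hs)
  have hI : CircleIntegrable (fun w => ‖h w - h ζ‖ ^ 2) ζ s := by
    refine ContinuousOn.circleIntegrable hs0.le fun w hw => ?_
    exact (((hball w (hsp hw)).2.continuousAt.sub continuousAt_const).norm.pow 2).continuousWithinAt
  refine Real.circleAverage_mono_on_of_le_circle hI fun w hw => ?_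
  rw [har] at hw
  have hd : ‖w - ζ‖ = s := by rw [← dist_eq_norm]; exact hw
  have h3 := (hball w (hsp hw)).1
  have h4 : ‖h w - h ζ‖ ≤ (‖deriv h ζ‖ + η) * s := by
    have h5 : h w - h ζ = (h w - h ζ - (w - ζ) • deriv h ζ) + (w - ζ) • deriv h ζ := by abel
    rw [h5]
    refine (norm_add_le _ _).trans ?_
    rw [norm_smul, hd]
    rw [hd] at h3
    linarith
  calc ‖h w - h ζ‖ ^ 2 ≤ ((‖deriv h ζ‖ + η) * s) ^ 2 := pow_le_pow_left₀ (norm_nonneg _) h4 2
    _ = (‖deriv h ζ‖ + η) ^ 2 * s ^ 2 := by ring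

/-- the key inequality -/
theorem key {q T : ℂ → ℝ} {F : ℂ → EN N} {h : ℂ → Vd (k + 1)} {ζ : ℂ} {m : ℕ} {C τ : ℝ} (hC : 0 ≤ C) (hF : AnalyticAt ℂ F ζ) (hF0 : F ζ ≠ 0) (hh : AnalyticAt ℂ h ζ)
    (hq0 : 0 < q ζ) (hqc : ∀ᶠ w in 𝓝 ζ, ContinuousAt q w) (hT : Sub T ζ (-τ)) (hTc : ∀ᶠ w in 𝓝 ζ, ContinuousAt T w)
    (hmax : ∀ᶠ w in 𝓝 ζ, q w * T w ^ m ≤ q ζ * T ζ ^ m)
    (hJ : ∀ᶠ s in 𝓝[>] (0 : ℝ), CircleIntegrable (fun w => Real.log (q w)) ζ s ∧
      Real.log (q ζ) + TT F ζ s ≤ Real.circleAverage (fun w => Real.log (q w)) ζ s + C * Real.circleAverage (fun w => ‖h w - h ζ‖ ^ 2) ζ s) :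
    fs (F ζ) (deriv F ζ) ^ 2 / 2 - C * ‖deriv h ζ‖ ^ 2 + (m : ℝ) * -τ ≤ 0 := by
  by_contra hcon
  push Not at hcon
  have hT0 : 0 < T ζ := hT.1
  have hFc : ∀ᶠ w in 𝓝 ζ, ContinuousAt F w ∧ F w ≠ 0 :=
    (hF.eventually_analyticAt.mono fun w hw => hw.continuousAt).and (hF.continuousAt.eventually_ne hF0)
  -- the function `V`
  have hVS : Sub (fun w => ‖F w‖ * T w ^ m) ζ (fs (F ζ) (deriv F ζ) ^ 2 / 2 + (m : ℝ) * -τ) := by
    have h1 := Sub.norm_rpow hF hF0 1
    have h2 := h1.mul (hT.rpow (r := (m : ℝ)) (by positivity))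
    refine (h2.anti (by linarith)).congr (Eventually.of_forall fun w => ?_)
    rw [Real.rpow_one, Real.rpow_natCast]
  have hVc : ∀ᶠ w in 𝓝 ζ, ContinuousAt (fun w => ‖F w‖ * T w ^ m) w := by
    filter_upwards [hFc, hTc] with w h1 h2
    exact h1.1.norm.mul (h2.pow m)
  obtain ⟨c', hc'1, hc'2⟩ := exists_between (show C * ‖deriv h ζ‖ ^ 2 < fs (F ζ) (deriv F ζ) ^ 2 / 2 + (m : ℝ) * -τ by linarith)
  obtain ⟨η, hη, hη'⟩ : ∃ η : ℝ, 0 < η ∧ C * (‖deriv h ζ‖ + η) ^ 2 < c' := by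
    have h1 : Tendsto (fun η : ℝ => C * (‖deriv h ζ‖ + η) ^ 2) (𝓝[>] 0) (𝓝 (C * (‖deriv h ζ‖ + 0) ^ 2)) := by
      have h2 : Continuous fun η : ℝ => C * (‖deriv h ζ‖ + η) ^ 2 := by fun_prop
      exact (h2.tendsto 0).mono_left nhdsWithin_le_nhds
    rw [add_zero] at h1
    obtain ⟨η, h3, h4⟩ := ((h1.eventually_lt_const hc'1).and self_mem_nhdsWithin).exists
    exact ⟨η, h4, h3⟩
  have hqpos : ∀ᶠ w in 𝓝 ζ, 0 < q w := hqc.self_of_nhds.eventually_const_lt hq0
  have hTpos : ∀ᶠ w in 𝓝 ζ, 0 < T w := hTc.self_of_nhds.eventually_const_lt hT0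
  obtain ⟨ρ, hρ, hball⟩ := Metric.eventually_nhds_iff_ball.1 (((hmax.and hqpos).and (hTpos.and hTc)).and hFc)
  have hsm : ∀ᶠ s in 𝓝[>] (0 : ℝ), s < ρ := nhdsWithin_le_nhds (Iio_mem_nhds hρ)
  obtain ⟨s, hs1, hs2, hs3, hs4, hs5⟩ := (avg_low hVS hc'2 hVc).and ((avg_sq_le hh hη).and (hJ.and (hsm.and self_mem_nhdsWithin))) |>.exists
  have hs0 : 0 < s := hs5
  have har : |s| = s := abs_of_pos hs0
  have hsp : sphere ζ s ⊆ ball ζ ρ := sphere_subset_closedBall.trans (closedBall_subset_ball hs4)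
  have hT1 : ContinuousOn (fun w => Real.log (T w)) (sphere ζ s) := fun w hw =>
    (((hball w (hsp hw)).1.2.2).log (hball w (hsp hw)).1.2.1.ne').continuousWithinAt
  have hF1 : ContinuousOn (fun w => Real.log ‖F w‖) (sphere ζ s) := fun w hw =>
    (((hball w (hsp hw)).2.1.norm).log (norm_ne_zero_iff.2 (hball w (hsp hw)).2.2)).continuousWithinAt
  have hIT := hT1.circleIntegrable hs0.le
  have hIF := hF1.circleIntegrable hs0.le
  have hImT : CircleIntegrable (fun w => (m : ℝ) • Real.log (T w)) ζ s := hIT.const_fun_smul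
  -- the mean of `log q`
  have h1 : Real.circleAverage (fun w => Real.log (q w)) ζ s ≤ Real.log (q ζ) + m * Real.log (T ζ) - m * Real.circleAverage (fun w => Real.log (T w)) ζ s := by
    have h2 : Real.circleAverage (fun w => Real.log (q w)) ζ s ≤
        Real.circleAverage (fun w => (Real.log (q ζ) + m * Real.log (T ζ)) - (m : ℝ) • Real.log (T w)) ζ s := by
      refine Real.circleAverage_mono hs3.1 ((circleIntegrable_const _ _ _).fun_sub hImT) fun w hw => ?_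
      rw [har] at hw
      have hw' := hball w (hsp hw)
      have h3 : Real.log (q w * T w ^ m) ≤ Real.log (q ζ * T ζ ^ m) :=
        Real.log_le_log (mul_pos hw'.1.1.2 (pow_pos hw'.1.2.1 m)) hw'.1.1.1
      rw [Real.log_mul hw'.1.1.2.ne' (pow_pos hw'.1.2.1 m).ne', Real.log_mul hq0.ne' (pow_pos hT0 m).ne', Real.log_pow, Real.log_pow] at h3
      rw [smul_eq_mul]
      linarith
    rw [Real.circleAverage_fun_sub (circleIntegrable_const _ _ _) hImT, Real.circleAverage_const, Real.circleAverage_fun_smul, smul_eq_mul] at h2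
    exact h2
  -- the mean of `log V`
  have h4 : Real.circleAverage (fun w => Real.log (‖F w‖ * T w ^ m)) ζ s =
      Real.circleAverage (fun w => Real.log ‖F w‖) ζ s + m * Real.circleAverage (fun w => Real.log (T w)) ζ s := by
    have h5 : Real.circleAverage (fun w => Real.log (‖F w‖ * T w ^ m)) ζ s = Real.circleAverage (fun w => Real.log ‖F w‖ + (m : ℝ) • Real.log (T w)) ζ s := by
      refine Real.circleAverage_congr_sphere fun w hw => ?_
      rw [har] at hw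
      have hw' := hball w (hsp hw)
      show Real.log (‖F w‖ * T w ^ m) = Real.log ‖F w‖ + (m : ℝ) • Real.log (T w)
      rw [Real.log_mul (norm_ne_zero_iff.2 hw'.2.2) (pow_pos hw'.1.2.1 m).ne', Real.log_pow, smul_eq_mul]
    rw [h5, Real.circleAverage_fun_add hIF hImT, Real.circleAverage_fun_smul, smul_eq_mul]
  have h6 := hs1.2
  rw [h4, Real.log_mul (norm_ne_zero_iff.2 hF0) (pow_pos hT0 m).ne', Real.log_pow] at h6
  have h7 := hs3.2
  rw [TT] at h7
  have h8 : C * Real.circleAverage (fun w => ‖h w - h ζ‖ ^ 2) ζ s ≤ C * ((‖deriv h ζ‖ + η) ^ 2 * s ^ 2) := mul_le_mul_of_nonneg_left hs2 hC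
  have h9 : c' * s ^ 2 ≤ C * (‖deriv h ζ‖ + η) ^ 2 * s ^ 2 := by
    have : C * ((‖deriv h ζ‖ + η) ^ 2 * s ^ 2) = C * (‖deriv h ζ‖ + η) ^ 2 * s ^ 2 := by ring
    linarith
  have h10 : 0 < s ^ 2 := by positivity
  have := le_of_mul_le_mul_right h9 h10
  linarith

end Pool.Agent.G4.M

end

section

/-!
# G3 P Ahl: the Ahlfors lemma for `p`

If `‖h'‖ ≤ H` on the disc of radius `r` then `p (F z) (F' z) ≤ (C₁ (1/r + H))^m` at the centre.

Plan.  Put `t = r / 2` and `w ζ = pf p F ζ * (t^2 - ‖ζ - z‖^2)^m`, continuous on `closedBall z t` (`hP.cont`), `0` on the boundary, `0 ≤ w`.  Let `ζ₀` be a maximum point on the compact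
disc.  If `w ζ₀ = 0` then `pf p F z = 0`.  Otherwise `ζ₀` is interior, `w` has a local maximum there, and
`c = fs^2/2 - C ‖h' ζ₀‖^2 - m t^2/(t^2 - ‖ζ₀ - z‖^2)^2` satisfies `c ≤ 0`: `G4.M.key` (means over small circles: `hP.jensen`; `AD.sub_sq` (`AD/F/PotA`) translated by `z`).
With `hP.le_fs` (tangent vector: `Cv.tan`): `fs^m ≥ p / C` at `ζ₀`, so with `P₀ = p(ζ₀)^(1/m)`, `C' = C^(1/m)`: `P₀^2 ≤ C'^2 (2 C H^2 + 2 m t^2/(t^2 - ‖ζ₀ - z‖^2)^2)` and
`(w ζ₀)^(2/m) ≤ C'^2 (2 C H^2 t^4 + 2 m t^2)`, `w ζ₀ ≥ w z = pf p F z * t^(2 m)`: `(pf p F z)^(2/m) ≤ C'^2 (2 C H^2 + 2 m / t^2)`.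
`C₁` depends only on `C` and `m`.
-/

set_option autoImplicit false

open Topology Filter Metric

namespace Pool.Agent.G3

open Pool.Agent.H36.BP (EN fs wd Sub)
open Pool.Agent.H14.PP (IsCone CurveAt Tan)
open Pool.Agent.H62.EF (MN pr)
open Pool.Agent.AD (Vd)
open Pool.Agent.TG (TMap Lat Geo Gd)

variable {N k : ℕ} {X : Set (EN N)} {Λ : AddSubgroup (Vd (k + 1))} {u : EN N → Vd (k + 1)} {D : Set (Vd (k + 1))} {p : EN N → EN N → ℝ} {m : ℕ} {C : ℝ}

private theorem ahl_shift {v : ℂ → ℝ} {z₀ a : ℂ} {c : ℝ} (h : Sub v (z₀ - a) c) : Sub (fun z => v (z - a)) z₀ c := by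
  refine ⟨h.1, fun c' hc' => ?_⟩
  obtain ⟨g, hg, hg0, hge⟩ := h.2 c' hc'
  have h1 : AnalyticAt ℂ (fun z : ℂ => z - a) z₀ := analyticAt_id.sub analyticAt_const
  refine ⟨fun z => g (z - a), hg.comp_of_eq h1 rfl, hg0, ?_⟩
  have h2 : Tendsto (fun z : ℂ => z - a) (𝓝 z₀) (𝓝 (z₀ - a)) := h1.continuousAt
  filter_upwards [h2.eventually hge] with z hz
  have e : z - a - (z₀ - a) = z - z₀ := by ring
  rwa [e] at hz

private theorem ahl_fs_nonneg (x v : EN N) : 0 ≤ fs x v := div_nonneg (Real.sqrt_nonneg _) (by positivity)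

theorem ahl (hP : PS X Λ u D p m C) : ∃ C₁ : ℝ, 0 < C₁ ∧ ∀ (F : ℂ → EN N) (h : ℂ → Vd (k + 1)) (z : ℂ) (r H : ℝ), 0 < r → 0 ≤ H →
    Cv X Λ u (ball z r) F h → (∀ w ∈ ball z r, ‖deriv h w‖ ≤ H) → pf p F z ≤ (C₁ * (1 / r + H)) ^ m := by
  have hC : 1 ≤ C := hP.C_ge
  have hm : 1 ≤ m := hP.m_pos
  have hmR : (1 : ℝ) ≤ m := by exact_mod_cast hm
  refine ⟨C * (2 * C + 8 * m), by positivity, fun F h z r H hr hH hF hbd => ?_⟩
  obtain ⟨t, ht⟩ : ∃ t : ℝ, t = r / 2 := ⟨_, rfl⟩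
  have ht0 : 0 < t := by rw [ht]; linarith only [hr]
  have hsub : closedBall z t ⊆ ball z r := closedBall_subset_ball (by rw [ht]; linarith only [hr])
  obtain ⟨w, hw⟩ : ∃ w : ℂ → ℝ, w = fun ζ => pf p F ζ * (t ^ 2 - ‖ζ - z‖ ^ 2) ^ m := ⟨_, rfl⟩
  have hwc : ContinuousOn w (closedBall z t) := by
    rw [hw]
    refine ((hP.cont _ F h isOpen_ball hF).mono hsub).mul ?_
    fun_prop
  obtain ⟨ζ₀, hζ₀, hmax⟩ := (isCompact_closedBall z t).exists_isMaxOn ⟨z, mem_closedBall_self ht0.le⟩ hwc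
  have hwz : w z = pf p F z * (t ^ 2) ^ m := by
    rw [hw]
    simp
  have hle : w z ≤ w ζ₀ := hmax (mem_closedBall_self ht0.le)
  have hR0 : 0 ≤ 1 / r + H := by positivity
  have ht2 : 0 < (t ^ 2) ^ m := by positivity
  rcases le_or_gt (w ζ₀) 0 with h0 | h0
  · have h1 : pf p F z ≤ 0 := by
      have h2 : pf p F z * (t ^ 2) ^ m ≤ 0 := by
        rw [← hwz]
        exact hle.trans h0
      by_contra h3
      push Not at h3
      have := mul_pos h3 ht2
      linarith only [hwz, hle, h0, this]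
    exact h1.trans (by positivity)
  have hd0 : ‖ζ₀ - z‖ ≤ t := by rw [← dist_eq_norm]; exact hζ₀
  have hp0 : 0 ≤ pf p F ζ₀ := hP.nonneg _ _
  have hwζ : w ζ₀ = pf p F ζ₀ * (t ^ 2 - ‖ζ₀ - z‖ ^ 2) ^ m := by rw [hw]
  have hlt : ‖ζ₀ - z‖ < t := by
    refine lt_of_le_of_ne hd0 fun h1 => ?_
    rw [hwζ, h1, sub_self, zero_pow (by omega), mul_zero] at h0
    exact lt_irrefl _ h0
  obtain ⟨δ, hδ⟩ : ∃ δ : ℝ, δ = t ^ 2 - ‖ζ₀ - z‖ ^ 2 := ⟨_, rfl⟩
  have hδ0 : 0 < δ := by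
    rw [hδ]
    have := norm_nonneg (ζ₀ - z)
    nlinarith only [ht0, hlt, hd0, this]
  have hδt : δ ≤ t ^ 2 := by
    rw [hδ]
    have := sq_nonneg ‖ζ₀ - z‖
    linarith only [this]
  have hpos : 0 < pf p F ζ₀ := by
    rcases hp0.eq_or_lt with h1 | h1
    · rw [hwζ, ← h1, zero_mul] at h0
      exact absurd h0 (lt_irrefl _)
    · exact h1
  have hζU : ζ₀ ∈ ball z r := hsub hζ₀
  obtain ⟨f, hf⟩ : ∃ f : ℝ, f = fs (F ζ₀) (deriv F ζ₀) := ⟨_, rfl⟩
  have hf0 : 0 ≤ f := by rw [hf]; exact ahl_fs_nonneg _ _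
  have hs2 : Sub (fun ζ : ℂ => t ^ 2 - ‖ζ - z‖ ^ 2) ζ₀ (-(t ^ 2 / (t ^ 2 - ‖ζ₀ - z‖ ^ 2) ^ 2)) :=
    ahl_shift (v := fun ζ : ℂ => t ^ 2 - ‖ζ‖ ^ 2) (Pool.Agent.AD.F.sub_sq hlt)
  have hU0 : ball z r ∈ 𝓝 ζ₀ := isOpen_ball.mem_nhds hζU
  have hFne : F ζ₀ ≠ 0 := by
    intro h1
    have h2 := hP.le_fs _ (hF.mem ζ₀ hζU) _ (hF.tan isOpen_ball hζU)
    have h3 : fs (F ζ₀) (deriv F ζ₀) = 0 := by
      unfold fs
      rw [h1, norm_zero]
      simp
    rw [h3, zero_pow (by omega), mul_zero] at h2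
    exact absurd (lt_of_lt_of_le hpos h2) (lt_irrefl _)
  have hneg : fs (F ζ₀) (deriv F ζ₀) ^ 2 / 2 - C * ‖deriv h ζ₀‖ ^ 2 + (m : ℝ) * -(t ^ 2 / (t ^ 2 - ‖ζ₀ - z‖ ^ 2) ^ 2) ≤ 0 := by
    refine Pool.Agent.G4.M.key (q := pf p F) (T := fun ζ : ℂ => t ^ 2 - ‖ζ - z‖ ^ 2) (by linarith only [hC]) (hF.F_diff.analyticAt hU0) hFne (hF.h_diff.analyticAt hU0) hpos ?_ hs2 ?_ ?_ ?_
    · filter_upwards [isOpen_ball.mem_nhds hζU] with ζ hζ
      exact (hP.cont _ F h isOpen_ball hF).continuousAt (isOpen_ball.mem_nhds hζ)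
    · refine Eventually.of_forall fun ζ => ?_
      have h1 : Continuous fun ζ : ℂ => t ^ 2 - ‖ζ - z‖ ^ 2 := by fun_prop
      exact h1.continuousAt
    · have h1 : ball z t ∈ 𝓝 ζ₀ := isOpen_ball.mem_nhds (by rw [mem_ball, dist_eq_norm]; exact hlt)
      filter_upwards [h1] with ζ hζ
      have h2 := hmax (ball_subset_closedBall hζ)
      rw [hw] at h2
      exact h2
    · obtain ⟨ρ, hρ, hball⟩ := Metric.isOpen_iff.1 isOpen_ball ζ₀ hζU
      have hsm : ∀ᶠ s in 𝓝[>] (0 : ℝ), s < ρ := nhdsWithin_le_nhds (Iio_mem_nhds hρ)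
      filter_upwards [hsm, self_mem_nhdsWithin] with s hs hs0
      exact hP.jensen _ F h isOpen_ball hF ζ₀ s hs0 ((closedBall_subset_ball hs).trans hball) hpos
  rw [← hδ, ← hf] at hneg
  have hh : ‖deriv h ζ₀‖ ^ 2 ≤ H ^ 2 := by
    have h1 := hbd ζ₀ hζU
    have h2 := norm_nonneg (deriv h ζ₀)
    nlinarith only [hH, h1, h2]
  have h5 : f ^ 2 ≤ 2 * C * H ^ 2 + 2 * m * (t ^ 2 / δ ^ 2) := by
    have h6 : C * ‖deriv h ζ₀‖ ^ 2 ≤ C * H ^ 2 := mul_le_mul_of_nonneg_left hh (by linarith)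
    nlinarith only [hneg, h6]
  have h6 : (f * δ) ^ 2 ≤ 2 * C * H ^ 2 * (t ^ 2) ^ 2 + 2 * m * t ^ 2 := by
    have h7 : f ^ 2 * δ ^ 2 ≤ (2 * C * H ^ 2 + 2 * m * (t ^ 2 / δ ^ 2)) * δ ^ 2 := mul_le_mul_of_nonneg_right h5 (by positivity)
    have h8 : (2 * C * H ^ 2 + 2 * m * (t ^ 2 / δ ^ 2)) * δ ^ 2 = 2 * C * H ^ 2 * δ ^ 2 + 2 * m * t ^ 2 := by
      field_simp
    have h9 : 2 * C * H ^ 2 * δ ^ 2 ≤ 2 * C * H ^ 2 * (t ^ 2) ^ 2 := by
      refine mul_le_mul_of_nonneg_left ?_ (by positivity)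
      nlinarith only [hδ, hδ0]
    rw [mul_pow]
    linarith only [h7, h8, h9]
  obtain ⟨A, hA⟩ : ∃ A : ℝ, A = 2 * C + 8 * m := ⟨_, rfl⟩
  have hA1 : 1 ≤ A := by rw [hA]; linarith only [hC, hmR]
  have h7 : 2 * C * H ^ 2 * (t ^ 2) ^ 2 + 2 * m * t ^ 2 ≤ (t ^ 2 * (A * (1 / r + H))) ^ 2 := by
    have e1 : 2 * (m : ℝ) * t ^ 2 = 8 * m * (1 / r) ^ 2 * (t ^ 2) ^ 2 := by
      rw [ht]
      field_simp
      ring
    rw [e1]
    have e2 : (t ^ 2 * (A * (1 / r + H))) ^ 2 = A ^ 2 * (1 / r + H) ^ 2 * (t ^ 2) ^ 2 := by ring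
    rw [e2, ← add_mul]
    refine mul_le_mul_of_nonneg_right ?_ (by positivity)
    have e3 : 0 ≤ 1 / r := by positivity
    have e4 : A ≤ A ^ 2 := by nlinarith only [hC, hmR, hA]
    have e5 : A * (1 / r + H) ^ 2 ≤ A ^ 2 * (1 / r + H) ^ 2 := mul_le_mul_of_nonneg_right e4 (by positivity)
    refine le_trans ?_ e5
    rw [hA]
    have e6 : H ^ 2 ≤ (1 / r + H) ^ 2 := by nlinarith only [hH, e3]
    have e7 : (1 / r) ^ 2 ≤ (1 / r + H) ^ 2 := by nlinarith only [hH, hR0, e3]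
    have e8 : 2 * C * H ^ 2 ≤ 2 * C * (1 / r + H) ^ 2 := mul_le_mul_of_nonneg_left e6 (by linarith only [hC])
    have e9 : 8 * (m : ℝ) * (1 / r) ^ 2 ≤ 8 * m * (1 / r + H) ^ 2 := mul_le_mul_of_nonneg_left e7 (by positivity)
    linarith only [e8, e9]
  have hB0 : 0 ≤ t ^ 2 * (A * (1 / r + H)) := by positivity
  have h8 : f * δ ≤ t ^ 2 * (A * (1 / r + H)) := by
    refine (sq_le_sq₀ (by positivity) hB0).1 (h6.trans h7)
  have h9 : pf p F ζ₀ ≤ C * f ^ m := by
    rw [hf]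
    exact hP.le_fs _ (hF.mem ζ₀ hζU) _ (hF.tan isOpen_ball hζU)
  have h10 : w ζ₀ ≤ C * (t ^ 2 * (A * (1 / r + H))) ^ m := by
    rw [hwζ, ← hδ]
    calc pf p F ζ₀ * δ ^ m ≤ C * f ^ m * δ ^ m := mul_le_mul_of_nonneg_right h9 (by positivity)
      _ = C * (f * δ) ^ m := by rw [mul_pow]; ring
      _ ≤ C * (t ^ 2 * (A * (1 / r + H))) ^ m :=
        mul_le_mul_of_nonneg_left (pow_le_pow_left₀ (by positivity) h8 m) (by linarith only [hC])
  have h11 : pf p F z * (t ^ 2) ^ m ≤ C * (A * (1 / r + H)) ^ m * (t ^ 2) ^ m := by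
    rw [← hwz]
    refine (hle.trans h10).trans (le_of_eq ?_)
    rw [mul_pow (t ^ 2) (A * (1 / r + H)) m]
    ring
  have h12 := le_of_mul_le_mul_right h11 ht2
  refine h12.trans ?_
  rw [← hA, mul_assoc C A, mul_pow C]
  refine mul_le_mul_of_nonneg_right ?_ (by positivity)
  exact le_self_pow₀ hC (by omega)

end Pool.Agent.G3

end

section

/-!
# G3 Z Mean: Jensen's inequality for the functional

`lq_mean`: `circleAverage (Lq (F ·)) 0 r ≤ Lq (F 0) + d TT F 0 r` (Jensen for the holomorphic function `Q ∘ F`; `Lq (F z) = d log ‖F z‖ - log ‖Q (F z)‖`), with circle integrability.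

`mean_bd`: if `c₀ ≤ ‖h'‖ ≤ H` then `circleAverage Lam 0 r ≤ Lam 0 + K`.
Plan.  `p ≤ P₁ := (C₁ (1/(R-r) + H))^m` on the circle (`ahl`).  For `p > 0`: `Np = max 0 (m log ‖h'‖ - log p) ≤ m log ‖h'‖ - log p + max 0 (log P₁ - m log c₀) ≤ K₂ - log p`.  So
`circleAverage Np ≤ K₂ - circleAverage (log p) ≤ K₂ - log p (0) - TT F 0 r + C H² r²` (`hP.jensen`; zeros of `p` on the circle: isolated, `hP.isol`, so almost everywhere `p > 0`) and
`- log p (0) ≤ Np (0) - m log ‖h' 0‖ ≤ Np (0) - m log c₀`.  Multiply by `d` and add `lq_mean`: the terms `d TT` cancel.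
-/

set_option autoImplicit false

open Topology Filter Metric

namespace Pool.Agent.G3

open Pool.Agent.H36.BP (EN fs wd Sub)
open Pool.Agent.H14.PP (IsCone CurveAt Tan)
open Pool.Agent.H62.EF (MN pr)
open Pool.Agent.AD (Vd Chart Charts)
open Pool.Agent.TG (TMap Lat Geo Gd)

variable {N k : ℕ} {X : Set (EN N)} {Λ : AddSubgroup (Vd (k + 1))} {u : EN N → Vd (k + 1)} {D B : Set (Vd (k + 1))} {p : EN N → EN N → ℝ} {m d : ℕ} {C : ℝ}
  {Q : EN N → ℂ} {S : Set (Vd (k + 1) → MN N)}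

/-- Jensen's inequality for a function which is holomorphic on the closed disc -/
private theorem ZMean_jensen {P : ℂ → ℂ} {r : ℝ} (hr : 0 < r) (hana : AnalyticOnNhd ℂ P (closedBall 0 |r|)) (hc : P 0 ≠ 0) :
    Real.log ‖P 0‖ ≤ Real.circleAverage (fun z => Real.log ‖P z‖) 0 r := by
  rw [AnalyticOnNhd.circleAverage_log_norm hr.ne' hana hc]
  have h1 : 0 ≤ ∑ᶠ u, (MeromorphicOn.divisor P (closedBall 0 |r|) u : ℝ) * Real.log (r * ‖0 - u‖⁻¹) := by
    apply finsum_nonneg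
    intro u
    by_cases hu : u ∈ closedBall (0 : ℂ) |r|
    · apply mul_nonneg
      · have := MeromorphicOn.AnalyticOnNhd.divisor_nonneg hana u
        exact_mod_cast this
      · by_cases huc : u = 0
        · simp [huc]
        · apply Real.log_nonneg
          have h2 : 0 < ‖0 - u‖ := by
            rw [norm_pos_iff, sub_ne_zero]
            exact fun h => huc h.symm
          have h3 : ‖0 - u‖ ≤ r := by
            rw [mem_closedBall, dist_eq_norm, abs_of_pos hr, norm_sub_rev] at hu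
            exact hu
          rw [← div_eq_mul_inv, le_div_iff₀ h2]
          linarith
    · have : MeromorphicOn.divisor P (closedBall 0 |r|) u = 0 :=
        Function.locallyFinsuppWithin.apply_eq_zero_of_notMem _ hu
      simp [this]
  linarith

theorem lq_mean {U : Set ℂ} (hU : IsOpen U) {F : ℂ → EN N} {h : ℂ → Vd (k + 1)} (hX : IsCone X) (hF : Cv X Λ u U F h) (hQ : QD X Λ u D Q d) {r : ℝ} (hr : 0 < r)
    (hc : closedBall 0 r ⊆ U) (h0 : Q (F 0) ≠ 0) :
    CircleIntegrable (fun w => Lq Q d (F w)) 0 r ∧ Real.circleAverage (fun w => Lq Q d (F w)) 0 r ≤ Lq Q d (F 0) + d * TT F 0 r := by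
  have hFne : ∀ z ∈ U, F z ≠ 0 := fun z hz h1 => hX.zero_notMem (h1 ▸ hF.mem z hz)
  have hana : AnalyticOnNhd ℂ (fun z => Q (F z)) (closedBall 0 |r|) := by
    rw [abs_of_pos hr]
    intro z hz
    have h1 : DifferentiableOn ℂ (fun z => Q (F z)) U := hQ.diff.comp_differentiableOn hF.F_diff
    exact h1.analyticAt (hU.mem_nhds (hc hz))
  have hs : sphere (0 : ℂ) r ⊆ U := sphere_subset_closedBall.trans hc
  have hcont : ContinuousOn (fun z => Real.log ‖F z‖) (sphere (0 : ℂ) r) :=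
    ((hF.F_diff.continuousOn.mono hs).norm).log fun z hz => norm_ne_zero_iff.2 (hFne z (hs hz))
  have hi1 : CircleIntegrable (fun w => Real.log ‖F w‖) 0 r := hcont.circleIntegrable hr.le
  have hi2 : CircleIntegrable (fun w => Real.log ‖Q (F w)‖) 0 r := by
    apply MeromorphicOn.circleIntegrable_log_norm
    exact fun z hz => (hana z (sphere_subset_closedBall hz)).meromorphicAt
  have hi3 : CircleIntegrable (fun w => (d : ℝ) • Real.log ‖F w‖) 0 r := hi1.const_smul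
  have heq : (fun w => Lq Q d (F w)) = fun w => (d : ℝ) • Real.log ‖F w‖ - Real.log ‖Q (F w)‖ := by
    funext w
    simp [Lq]
  refine ⟨by rw [heq]; exact hi3.sub hi2, ?_⟩
  rw [heq, Real.circleAverage_fun_sub hi3 hi2, Real.circleAverage_fun_smul]
  have hj := ZMean_jensen hr hana h0
  simp only [Lq, TT, smul_eq_mul]
  linarith

private theorem ZMean_max {g : ℂ → ℝ} {r : ℝ} (hg : CircleIntegrable g 0 r) : CircleIntegrable (fun w => max 0 (g w)) 0 r := by
  have h1 : (fun w => max 0 (g w)) = (1 / 2 : ℝ) • (g + |g|) := by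
    funext w
    simp only [Pi.smul_apply, Pi.add_apply, Pi.abs_apply, smul_eq_mul]
    rcases le_total 0 (g w) with h | h
    · rw [max_eq_right h, abs_of_nonneg h]; ring
    · rw [max_eq_left h, abs_of_nonpos h]; ring
  rw [h1]
  exact (hg.add hg.abs).const_smul

theorem mean_bd (hX : IsCone X) (hP : PS X Λ u D p m C) (hQ : QD X Λ u D Q d) {c₀ H r R : ℝ} (hc₀ : 0 < c₀) (hr : 0 < r) (hR : r < R) :
    ∃ K : ℝ, ∀ (F : ℂ → EN N) (h : ℂ → Vd (k + 1)), Cv X Λ u (ball 0 R) F h → (∀ z ∈ ball (0 : ℂ) R, c₀ ≤ ‖deriv h z‖ ∧ ‖deriv h z‖ ≤ H) → Ok Q p F 0 →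
      CircleIntegrable (Lam Q d p m F h) 0 r ∧ Real.circleAverage (Lam Q d p m F h) 0 r ≤ Lam Q d p m F h 0 + K := by
  obtain ⟨C₁, hC₁, hahl⟩ := ahl hP
  set P₁ : ℝ := (C₁ * (1 / (R - r) + H)) ^ m with hP₁
  set κ : ℝ := Real.log P₁ - m * Real.log c₀ with hκ
  refine ⟨d * (m * Real.log H - m * Real.log c₀ + max 0 κ + C * (H * r) ^ 2), ?_⟩
  intro F h hF hb hOk
  have hC0 : 0 ≤ C := by linarith [hP.C_ge]
  have h0m : (0 : ℂ) ∈ ball (0 : ℂ) R := mem_ball_self (hr.trans hR)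
  have hU : IsOpen (ball (0 : ℂ) R) := isOpen_ball
  have hcb : closedBall (0 : ℂ) r ⊆ ball 0 R := closedBall_subset_ball hR
  have hs : sphere (0 : ℂ) r ⊆ ball 0 R := sphere_subset_closedBall.trans hcb
  have hH : c₀ ≤ H := (hb 0 h0m).1.trans (hb 0 h0m).2
  have hH0 : 0 < H := hc₀.trans_le hH
  have hRr : 0 < R - r := sub_pos.2 hR
  have hP₁0 : 0 < P₁ := by positivity
  have hr' : |r| = r := abs_of_pos hr
  obtain ⟨hQ0, hp0⟩ := hOk
  obtain ⟨hlq1, hlq2⟩ := lq_mean hU hX hF hQ hr hcb hQ0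
  obtain ⟨hj1, hj2⟩ := hP.jensen _ F h hU hF 0 r hr hcb hp0
  -- bounds on the circle
  have hup : ∀ w ∈ sphere (0 : ℂ) r, pf p F w ≤ P₁ := by
    intro w hw
    have hwn : ‖w‖ = r := by simpa using hw
    have hsub : ball w (R - r) ⊆ ball 0 R := by
      intro z hz
      rw [mem_ball, dist_eq_norm] at hz
      rw [mem_ball_zero_iff]
      calc ‖z‖ = ‖(z - w) + w‖ := by rw [sub_add_cancel]
        _ ≤ ‖z - w‖ + ‖w‖ := norm_add_le _ _
        _ < (R - r) + r := by rw [hwn]; linarith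
        _ = R := by ring
    exact hahl F h w (R - r) H hRr hH0.le (hF.mono hsub) fun z hz => (hb z (hsub hz)).2
  -- the derivative
  have hdh : DifferentiableOn ℂ (deriv h) (ball 0 R) := hF.h_diff.deriv hU
  have hvne : ∀ w ∈ ball (0 : ℂ) R, 0 < ‖deriv h w‖ := fun w hw => hc₀.trans_le (hb w hw).1
  have hvc : ContinuousOn (fun w => Real.log ‖deriv h w‖) (sphere (0 : ℂ) r) :=
    ((hdh.continuousOn.mono hs).norm).log fun z hz => (hvne z (hs hz)).ne'
  have hi1 : CircleIntegrable (fun w => Real.log ‖deriv h w‖) 0 r := hvc.circleIntegrable hr.le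
  -- `g = m log |h'| - log p`
  set g : ℂ → ℝ := fun w => (m : ℝ) • Real.log ‖deriv h w‖ - Real.log (pf p F w) with hg
  have hig : CircleIntegrable g 0 r := (hi1.const_smul (a := (m : ℝ))).sub hj1
  have hmax : CircleIntegrable (fun w => max 0 (g w)) 0 r := ZMean_max hig
  have hgNp : ∀ w ∈ ball (0 : ℂ) R, 0 < pf p F w → Np p m F h w = max 0 (g w) := by
    intro w hw hpw
    have h1 : Real.log (pf p F w / ‖deriv h w‖ ^ m) = Real.log (pf p F w) - m * Real.log ‖deriv h w‖ := by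
      rw [Real.log_div hpw.ne' (pow_ne_zero _ (hvne w hw).ne'), Real.log_pow]
    simp only [Np, h1, hg, smul_eq_mul, neg_sub]
  -- almost everywhere on the circle `p > 0`
  have hae : {w | 0 < pf p F w} ∈ codiscreteWithin (sphere (0 : ℂ) |r|) := by
    rw [mem_codiscreteWithin_iff_forall_mem_nhdsNE]
    intro z hz
    rw [hr'] at hz
    have h1 := hP.isol _ F h hU hF (convex_ball 0 R).isPreconnected ⟨0, h0m, hp0⟩ z (hs hz)
    filter_upwards [h1] with w hw
    exact Or.inl hw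
  have hsp : sphere (0 : ℂ) |r| ∈ codiscreteWithin (sphere (0 : ℂ) |r|) := by
    rw [mem_codiscreteWithin_iff_forall_mem_nhdsNE]
    intro z _
    simp
  have hEq : (fun w => max 0 (g w)) =ᶠ[codiscreteWithin (sphere (0 : ℂ) |r|)] Np p m F h := by
    filter_upwards [hae, hsp] with w hw hws
    rw [hr'] at hws
    exact (hgNp w (hs hws) hw).symm
  have hNp : CircleIntegrable (Np p m F h) 0 r := hmax.congr_codiscreteWithin hEq
  have hNpav : Real.circleAverage (Np p m F h) 0 r = Real.circleAverage (fun w => max 0 (g w)) 0 r :=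
    (Real.circleAverage_congr_codiscreteWithin hEq hr.ne').symm
  -- bound for `max 0 g` (almost everywhere): use the function with the value of the bound at the zeros of `p`
  set b : ℂ → ℝ := fun w => (m * Real.log H + max 0 κ) - Real.log (pf p F w) with hbdef
  have hib : CircleIntegrable b 0 r := (circleIntegrable_const _ 0 r).sub hj1
  have hbmax : Real.circleAverage (fun w => max 0 (g w)) 0 r ≤ Real.circleAverage b 0 r := by
    classical
    set g' : ℂ → ℝ := fun w => if 0 < pf p F w then max 0 (g w) else b w with hg'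
    have hEq' : (fun w => max 0 (g w)) =ᶠ[codiscreteWithin (sphere (0 : ℂ) |r|)] g' := by
      filter_upwards [hae] with w hw
      simp only [hg']
      rw [if_pos hw]
    rw [Real.circleAverage_congr_codiscreteWithin hEq' hr.ne']
    refine Real.circleAverage_mono (hmax.congr_codiscreteWithin hEq') hib ?_
    intro w hw
    rw [hr'] at hw
    simp only [hg']
    split_ifs with hpw
    · have hwb := hs hw
      have h1 : Real.log (pf p F w) ≤ Real.log P₁ := Real.log_le_log hpw (hup w hw)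
      have h2 : Real.log c₀ ≤ Real.log ‖deriv h w‖ := Real.log_le_log hc₀ (hb w hwb).1
      have h3 : Real.log ‖deriv h w‖ ≤ Real.log H := Real.log_le_log (hvne w hwb) (hb w hwb).2
      have hm0 : (0 : ℝ) ≤ m := Nat.cast_nonneg m
      have h4 : (m : ℝ) * Real.log c₀ ≤ m * Real.log ‖deriv h w‖ := mul_le_mul_of_nonneg_left h2 hm0
      have h5 : (m : ℝ) * Real.log ‖deriv h w‖ ≤ m * Real.log H := mul_le_mul_of_nonneg_left h3 hm0
      have h6 : κ ≤ max 0 κ := le_max_right _ _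
      have h7 : 0 ≤ max 0 κ := le_max_left _ _
      apply max_le
      · simp only [hbdef]
        linarith
      · simp only [hbdef, hg, smul_eq_mul]
        linarith
    · exact le_rfl
  have hbav : Real.circleAverage b 0 r = (m * Real.log H + max 0 κ) - Real.circleAverage (fun w => Real.log (pf p F w)) 0 r := by
    rw [hbdef, Real.circleAverage_fun_sub (circleIntegrable_const _ 0 r) hj1, Real.circleAverage_const]
  -- the quadratic term
  have hquad : Real.circleAverage (fun w => ‖h w - h 0‖ ^ 2) 0 r ≤ (H * r) ^ 2 := by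
    apply Real.circleAverage_mono_on_of_le_circle
    · apply ContinuousOn.circleIntegrable hr.le
      exact (((hF.h_diff.continuousOn.mono hs).sub continuousOn_const).norm).pow 2
    · intro w hw
      rw [hr'] at hw
      have hwn : ‖w‖ = r := by simpa using hw
      have h1 : ‖h w - h 0‖ ≤ H * ‖w - 0‖ :=
        (convex_ball (0 : ℂ) R).norm_image_sub_le_of_norm_deriv_le (fun z hz => hF.h_diff.differentiableAt (hU.mem_nhds hz)) (fun z hz => (hb z hz).2) h0m (hs hw)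
      rw [sub_zero, hwn] at h1
      exact pow_le_pow_left₀ (norm_nonneg _) h1 2
  -- the centre
  have hcen : -Real.log (pf p F 0) ≤ Np p m F h 0 - m * Real.log c₀ := by
    rw [hgNp 0 h0m hp0]
    have h1 : g 0 ≤ max 0 (g 0) := le_max_right _ _
    have h2 : Real.log c₀ ≤ Real.log ‖deriv h 0‖ := Real.log_le_log hc₀ (hb 0 h0m).1
    have h4 : (m : ℝ) * Real.log c₀ ≤ m * Real.log ‖deriv h 0‖ := mul_le_mul_of_nonneg_left h2 (Nat.cast_nonneg m)
    simp only [hg, smul_eq_mul] at h1 ⊢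
    linarith
  have hNpfin : Real.circleAverage (Np p m F h) 0 r ≤ Np p m F h 0 + (m * Real.log H - m * Real.log c₀ + max 0 κ + C * (H * r) ^ 2) - TT F 0 r := by
    rw [hNpav]
    have h1 : C * Real.circleAverage (fun w => ‖h w - h 0‖ ^ 2) 0 r ≤ C * (H * r) ^ 2 := mul_le_mul_of_nonneg_left hquad hC0
    linarith [hbmax, hbav]
  have heq : Lam Q d p m F h = fun w => Lq Q d (F w) + (d : ℝ) • Np p m F h w := by
    funext w
    simp [Lam]
  have hiN : CircleIntegrable (fun w => (d : ℝ) • Np p m F h w) 0 r := hNp.const_smul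
  refine ⟨by rw [heq]; exact hlq1.add hiN, ?_⟩
  rw [heq, Real.circleAverage_fun_add hlq1 hiN, Real.circleAverage_fun_smul]
  simp only [smul_eq_mul]
  have hd0 : (0 : ℝ) ≤ d := Nat.cast_nonneg d
  have h1 := mul_le_mul_of_nonneg_left hNpfin hd0
  nlinarith [h1, hlq2]

end Pool.Agent.G3

end
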