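import Pool.Agent.H94.G5T.M57
import Pool.Agent.H94.G5T.M60

/-! The parts of this file: G3.P.Tbd, G4.R.StepA. -/

section

/-!
# G3 P Tbd: the bound for `TT`

`hP.jensen` at the centre `z` (with `U = ball z R`): `TT F z r ≤ circleAverage (log p) z r - log p (z) + C circleAverage ‖h - h z‖^2 z r`.
`log p ≤ m log (C₁ (1/(R-r) + H))` on the circle (`ahl` on discs of radius `R - r`; where `p = 0` Lean has `log 0 = 0`, so use `max 0 ..` as the bound), `‖h w - h z‖ ≤ H r`
(mean value inequality on the convex disc), and `p (z) ≥ c fs^m ≥ c (η / C)^m` (`hP.ge_fs δ`, `hP.du`).  `Real.circleAverage_mono` needs circle integrability: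
`hP.jensen` gives it for `log p`, and `‖h - h z‖^2` is continuous.
-/

set_option autoImplicit false

open Topology Filter Metric

namespace Pool.Agent.G3

open Pool.Agent.H36.BP (EN fs wd Sub)
open Pool.Agent.H14.PP (IsCone CurveAt Tan)
open Pool.Agent.H62.EF (MN pr)
open Pool.Agent.AD (Vd)
open Pool.Agent.TG (TMap Lat Geo Gd)

variable {N k : ℕ} {X : Set (EN N)} {Λ : AddSubgroup (Vd (k + 1))} {u : EN N → Vd (k + 1)} {D : Set (Vd (k + 1))} {p : EN N → EN N → ℝ} {m : ℕ} {C : ℝ}

theorem tbd (hP : PS X Λ u D p m C) {δ η H r R : ℝ} (hδ : 0 < δ) (hη : 0 < η) (hH : 0 ≤ H) (hr : 0 < r) (hR : r < R) :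
    ∃ K : ℝ, ∀ (F : ℂ → EN N) (h : ℂ → Vd (k + 1)) (z : ℂ), Cv X Λ u (ball z R) F h → (∀ w ∈ ball z R, ‖deriv h w‖ ≤ H) → h z ∈ Gd D δ →
      η ≤ ‖deriv h z‖ → TT F z r ≤ K := by
  obtain ⟨C₁, hC₁, hah⟩ := ahl hP
  obtain ⟨c, hc, hge⟩ := hP.ge_fs δ hδ
  have hC : 0 < C := lt_of_lt_of_le one_pos hP.C_ge
  have hρ : 0 < R - r := sub_pos.mpr hR
  set A : ℝ := C₁ * (1 / (R - r) + H) with hA
  have hApos : 0 < A := by
    have : 0 < 1 / (R - r) := by positivity
    positivity
  refine ⟨max 0 (Real.log (A ^ m)) + C * (H * r) ^ 2 - Real.log (c * (η / C) ^ m), ?_⟩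
  intro F h z hF hHd hz hηz
  have hzR : z ∈ ball z R := mem_ball_self (hr.trans hR)
  have hsub : closedBall z r ⊆ ball z R := closedBall_subset_ball hR
  -- lower bound at the centre
  have hfs : η / C ≤ fs (F z) (deriv F z) := by
    rw [div_le_iff₀ hC, mul_comm]
    exact hηz.trans (hP.du (ball z R) F h isOpen_ball hF z hzR)
  have hlow : c * (η / C) ^ m ≤ pf p F z := by
    refine le_trans ?_ (hge (h z) hz (F z) (hF.mem z hzR) (hF.lift z hzR) (deriv F z) (hF.tan isOpen_ball hzR))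
    exact mul_le_mul_of_nonneg_left (pow_le_pow_left₀ (by positivity) hfs m) hc.le
  have hlowpos : 0 < c * (η / C) ^ m := by positivity
  have hpos : 0 < pf p F z := lt_of_lt_of_le hlowpos hlow
  obtain ⟨hint, hjen⟩ := hP.jensen (ball z R) F h isOpen_ball hF z r hr hsub hpos
  -- the upper bound on the circle
  have hup : Real.circleAverage (fun w => Real.log (pf p F w)) z r ≤ max 0 (Real.log (A ^ m)) := by
    refine Real.circleAverage_mono_on_of_le_circle hint ?_
    intro w hw
    rw [abs_of_pos hr] at hw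
    have hwd : dist w z = r := hw
    have hball : ball w (R - r) ⊆ ball z R := by
      refine ball_subset_ball' ?_
      rw [hwd]
      linarith
    have h1 : pf p F w ≤ A ^ m := hah F h w (R - r) H hρ hH (hF.mono hball) (fun v hv => hHd v (hball hv))
    have h0 : 0 ≤ pf p F w := hP.nonneg _ _
    rcases h0.eq_or_lt with h2 | h2
    · show Real.log (pf p F w) ≤ _
      rw [← h2, Real.log_zero]
      exact le_max_left _ _
    · exact (Real.log_le_log h2 h1).trans (le_max_right _ _)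
  -- the bound of the weight
  have hhc : ContinuousOn h (ball z R) := hF.h_diff.continuousOn
  have hwt : Real.circleAverage (fun w => ‖h w - h z‖ ^ 2) z r ≤ (H * r) ^ 2 := by
    refine Real.circleAverage_mono_on_of_le_circle ?_ ?_
    · refine ContinuousOn.circleIntegrable' ?_
      rw [abs_of_pos hr]
      refine ContinuousOn.mono ?_ (sphere_subset_closedBall.trans hsub)
      exact ((hhc.sub continuousOn_const).norm).pow 2
    · intro w hw
      rw [abs_of_pos hr] at hw
      have hwd : ‖w - z‖ = r := by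
        rw [← dist_eq_norm]
        exact hw
      have hwR : w ∈ ball z R := hsub (sphere_subset_closedBall hw)
      have h3 : ‖h w - h z‖ ≤ H * ‖w - z‖ := by
        refine Convex.norm_image_sub_le_of_norm_deriv_le (𝕜 := ℂ) (s := ball z R) ?_ hHd (convex_ball z R) hzR hwR
        intro v hv
        exact hF.h_diff.differentiableAt (isOpen_ball.mem_nhds hv)
      rw [hwd] at h3
      exact pow_le_pow_left₀ (norm_nonneg _) h3 2
  have hlog : Real.log (c * (η / C) ^ m) ≤ Real.log (pf p F z) := Real.log_le_log hlowpos hlow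
  have h5 : C * Real.circleAverage (fun w => ‖h w - h z‖ ^ 2) z r ≤ C * (H * r) ^ 2 := mul_le_mul_of_nonneg_left hwt hC.le
  linarith

end Pool.Agent.G3

end

section

/-!
# G4 R StepA: order zero, and the sequences of the proof by contradiction
-/

set_option autoImplicit false

open Topology Filter Metric

namespace Pool.Agent.G4.R

open Pool.Agent.H36.BP (EN fs wd)
open Pool.Agent.H14.PP (IsCone CurveAt Tan)
open Pool.Agent.H62.EF (MN pr)
open Pool.Agent.AD (Vd Chart Charts IsGerm)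
open Pool.Agent.TG
open Pool.Agent.G3
open Pool.Agent.G3.R
open Pool.Agent.G3.C (Gc nv nd nv_pr)
open Pool.Agent.G3.A (Ba Hc Dec Sepa Tht Frm NL Lm CRL Tb ToE CE Sht)

variable {N k : ℕ} {X : Set (EN N)} {Λ : AddSubgroup (Vd (k + 1))} {u : EN N → Vd (k + 1)} {D B Bad : Set (Vd (k + 1))} {a b w : Vd (k + 1)} {E : Submodule ℝ (Vd (k + 1))}
  {SS : Set (Vd (k + 1) → MN N)} {Γ : AddSubgroup (Vd (k + 1))} {J rW : ℕ} {W : Fin rW → Vd (k + 1) →L[ℂ] ℂ} {α : Fin J → VForm X Λ u} {c₀ C₀ ρ δ : ℝ}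

theorem norm_smul_w {s r : ℝ} (hr : |s| ≤ r) (w : Vd (k + 1)) : ‖(s : ℂ) • w‖ ≤ r * ‖w‖ := by
  rw [norm_smul, Complex.norm_real]
  exact mul_le_mul_of_nonneg_right hr (norm_nonneg _)

/-- a near maximum -/
theorem near_max {A : Set ℝ} (hA : BddAbove A) : ∃ M : ℝ, 1 ≤ M ∧ (∀ x ∈ A, x ≤ M) ∧ (1 < M → ∃ x ∈ A, M / 2 ≤ x) := by
  refine ⟨max 1 (sSup A), le_max_left _ _, fun x hx => (le_csSup hA hx).trans (le_max_right _ _), fun h => ?_⟩
  have h1 : max 1 (sSup A) = sSup A := by
    rcases max_choice 1 (sSup A) with h2 | h2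
    · rw [h2] at h
      exact absurd h (lt_irrefl _)
    · exact h2
  have h3 : A.Nonempty := by
    by_contra hne
    rw [Set.not_nonempty_iff_eq_empty] at hne
    rw [h1, hne, Real.sSup_empty] at h
    linarith
  rw [h1] at h ⊢
  obtain ⟨x, hx, hlt⟩ := exists_lt_of_lt_csSup h3 (show sSup A / 2 < sSup A by linarith)
  exact ⟨x, hx, hlt.le⟩

/-- the size of the divided difference of order `m` at `y` in the chart `nv v` -/
noncomputable def sz (w : Vd (k + 1)) (m : ℕ) (σ : ℕ → ℝ) (φ : Vd (k + 1) → MN N) (y : Vd (k + 1)) (v : EN N) : ℝ := ‖dd m σ fun s : ℝ => nv v (φ (y + (s : ℂ) • w))‖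

end Pool.Agent.G4.R

end
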