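import Pool.Agent.H94.G5T.G4.Simp
import Pool.Agent.H94.G5T.M55
import Pool.Agent.H94.G5T.M63
import Pool.Agent.H94.G5T.M71

/-! The parts of this file: G4.Z.CDefs, TG.Nr. -/

section

/-!
# G4 Z CDefs: the data of block Z, any dimension

`Few Bad a`: the exact hits of `Bad` on the lines of direction `a` are few (density `0`, uniformly).
`Csf`: the finite set of the global sections, holomorphic off `D`, meromorphic everywhere (`mer`: a lift which is not identically `0`; no condition on lines).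
`JBw`: bounds for the integrals `JJ (α j)` along short paths in the fibres, with the same weight on both sides.
`Sit`: all data.  The other definitions (`Lim`, `Arr`, `gg`, `Crs`, `LCT`, `JBd`) are those of `G3/Z`.
-/

set_option autoImplicit false

open Topology Filter Metric

namespace Pool.Agent.G4

open Pool.Agent.H36.BP (EN fs wd Sub)
open Pool.Agent.H14.PP (IsCone CurveAt Tan)
open Pool.Agent.H62.EF (MN pr)
open Pool.Agent.AD (Vd Chart Charts)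
open Pool.Agent.TG (TMap Lat Geo Gd VForm JJ II Cst Fb TransAt)
open Pool.Agent.G3 (Cv wt PS QD Crs)
open Pool.Agent.G3.A (Ba)

variable {N k : ℕ}

/-- the exact hits of the lines of direction `a` with `Bad` are few -/
def Few (Bad : Set (Vd (k + 1))) (a : Vd (k + 1)) : Prop :=
  ∀ ε : ℝ, 0 < ε → ∃ C : ℝ, ∀ (y : Vd (k + 1)) (R : ℝ), 0 ≤ R → ∀ S : Finset ℂ, (∀ z ∈ S, ‖z‖ ≤ R ∧ y + z • a ∈ Bad) → (S.card : ℝ) ≤ ε * R ^ 2 + C

/-- the finite set of the global sections -/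
structure Csf (X : Set (EN N)) (Λ : AddSubgroup (Vd (k + 1))) (u : EN N → Vd (k + 1)) (D : Set (Vd (k + 1))) (S : Set (Vd (k + 1) → MN N)) : Prop where
  fin : S.Finite
  hol : ∀ Φ ∈ S, ∀ y ∉ D, ∃ φ : Vd (k + 1) → EN N, AnalyticAt ℂ φ y ∧ ∀ᶠ z in 𝓝 y, φ z ∈ X ∧ Φ z = pr (φ z) ∧ u (φ z) - z ∈ Λ
  mer : ∀ Φ ∈ S, ∀ y, ∃ φ : Vd (k + 1) → EN N, AnalyticAt ℂ φ y ∧ (∃ᶠ z in 𝓝 y, φ z ≠ 0) ∧ ∀ᶠ z in 𝓝 y, z ∉ D → φ z ≠ 0 → Φ z = pr (φ z)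
  tr : ∀ Φ ∈ S, ∀ l ∈ Λ, ∃ Φ' ∈ S, ∀ y ∉ D, Φ' y = Φ (y + l)
  cls : ∀ a : Vd (k + 1), a ≠ 0 → ∀ (b : Vd (k + 1)) (G : ℂ → EN N), Cv X Λ u Set.univ G (fun z => z • a + b) →
    ∃ Φ ∈ S, ∀ z : ℂ, z • a + b ∉ D → pr (G z) = Φ (z • a + b)

/-- bounds for the integrals along short paths, with the weight `wt W` -/
structure JBw (X : Set (EN N)) (Λ : AddSubgroup (Vd (k + 1))) (u : EN N → Vd (k + 1)) (D : Set (Vd (k + 1))) {J r : ℕ} (α : Fin J → VForm X Λ u)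
    (W : Fin r → Vd (k + 1) →L[ℂ] ℂ) : Prop where
  pos : ∀ y, (∀ i, W i y = 0) → y = 0
  ub : ∀ δ : ℝ, 0 < δ → ∃ ε₀ C : ℝ, 0 < ε₀ ∧ 0 < C ∧ ∀ j, ∀ y ∈ Gd D δ, ∀ n ∈ Fb X Λ u y, ∀ n' ∈ Fb X Λ u y, dist n n' ≤ ε₀ →
    ‖JJ (α j) y n n'‖ ≤ C * Real.exp (-wt W y) * dist n n'
  lb : ∀ δ : ℝ, 0 < δ → ∃ ε₀ c : ℝ, 0 < ε₀ ∧ 0 < c ∧ ∀ y ∈ Gd D δ, ∀ n ∈ Fb X Λ u y, ∀ n' ∈ Fb X Λ u y, dist n n' ≤ ε₀ →
    ∃ j, c * Real.exp (-wt W y) * dist n n' ≤ ‖JJ (α j) y n n'‖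

/-- the data of Theorem LCT -/
structure Sit (X : Set (EN N)) (Λ : AddSubgroup (Vd (k + 1))) (u : EN N → Vd (k + 1)) (D B : Set (Vd (k + 1))) (p : EN N → EN N → ℝ) (m : ℕ) (C : ℝ) (Q : EN N → ℂ) (d : ℕ)
    (S : Set (Vd (k + 1) → MN N)) {J r : ℕ} (α : Fin J → VForm X Λ u) (W : Fin r → Vd (k + 1) →L[ℂ] ℂ) : Prop where
  geo : Geo X Λ u D B
  simp : Simp Λ
  ldi : LDi D
  ps : PS X Λ u D p m C
  qd : QD X Λ u D Q d
  q_ne : ∀ x ∈ X, ∃ᶠ x' in 𝓝 x, x' ∈ X ∧ Q x' ≠ 0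
  csf : Csf X Λ u D S
  q_sec : ∀ Φ ∈ S, ∀ y ∉ D, ∀ x ∈ X, pr x = Φ y → Q x = 0
  jbw : JBw X Λ u D α W
  few : ∀ a : Vd (k + 1), a ≠ 0 → Few (Ba D B a) a
  crs : Crs X Λ u D B

end Pool.Agent.G4

end

section

/-!
# TG Nr: near different points with the same integral are near the zeros of the form

Compare `Pool/Agent/H62/EL/Nr.lean`.

`near_zr`: let `χ, c, ρ` be a chart with `Cap .. y₀ m₀ (3ε)` (`Cst.cap`) and `A` a primitive (`exists_prim`), `x₀ ∈ X` a lift of `m₀`, `p₀ = χ.q x₀`.  For large `n`: `y n ∈ closedBall y₀ (3ε)`, `dist (m n) m₀ + ε ≤ 3ε`,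
`dist (m n) (m' n) ≤ ε₀`, so there is `v` with `IRel` (`Cst.rel`), and by `II_eq` `A (χ.q x'_n) = A (χ.q x_n)` for lifts `x_n, x'_n` of `m n`, `m' n`, with `p_n = χ.q x_n`, `p'_n = χ.q x'_n → p₀` (`fb_lim`), `p_n ≠ p'_n` (otherwise `x_n, x'_n` are
proportional, `Chart.surj`), and `ms c ρ p_n = y n = ms c ρ p'_n`, so `p'_n - p_n = (p'_n - p_n) 0 • Pi.single 0 1`.  If `∂_0 A p₀ ≠ 0`, then by strict differentiability of `A` at `p₀`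
`‖A p'_n - A p_n - DA(p₀) (p'_n - p_n)‖ ≤ (‖∂_0 A p₀‖ / 2) ‖p'_n - p_n‖` for large `n`, and `DA(p₀) (p'_n - p_n) = ∂_0 A p₀ * (p'_n - p_n) 0` has norm `‖∂_0 A p₀‖ ‖p'_n - p_n‖`: contradiction.  So `tc α χ _ p₀ = ∂_0 A p₀ = 0` and `Zr` by
`zr_iff`.
`zr_lim`: with a chart `Cap` at `(y₀, m₀)` (`exists_cap_at`) and lifts as above: `tc α χ _ (p_n) = 0` (`zr_iff`), so `tc α χ _ p₀ = 0` by continuity (`tc_an`).
`zr_per`: `Per`, `u x - y ∈ Λ ↔ u x - (y + l) ∈ Λ`.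
-/

set_option autoImplicit false

open Topology Filter Metric

namespace Pool.Agent.TG

open Pool.Agent.H36.BP (EN fs wd)
open Pool.Agent.H14.PP (IsCone CurveAt Tan)
open Pool.Agent.H62.EF (MN pr)
open Pool.Agent.AD (Vd Chart Charts IsGerm)

variable {N k : ℕ}

variable {X : Set (EN N)} {Λ : AddSubgroup (Vd (k + 1))} {u : EN N → Vd (k + 1)} {D B : Set (Vd (k + 1))}

theorem pr_sigma_q (χ : Chart (k + 2) X) {x : EN N} (hx : x ∈ X) (hU : x ∈ χ.U) : pr (χ.σ (χ.q x)) = pr x := by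
  obtain ⟨-, a, ha, h⟩ := χ.surj x hx hU
  conv_rhs => rw [h]
  rw [Pool.Agent.H62.EF.pr_smul _ ha]

theorem near_zr (G : Geo X Λ u D B) {α : VForm X Λ u} {δ ε ε₀ : ℝ} (hc : Cst X Λ u D δ ε ε₀) {ι : Type*} {l : Filter ι} [l.NeBot]
    {y : ι → Vd (k + 1)} {m m' : ι → MN N} {y₀ : Vd (k + 1)} {m₀ : MN N} (hy₀ : y₀ ∈ Gd D δ) (hy : Tendsto y l (𝓝 y₀))
    (hm : Tendsto m l (𝓝 m₀)) (hm' : Tendsto m' l (𝓝 m₀))
    (h : ∀ᶠ n in l, y n ∈ Gd D δ ∧ m n ∈ Fb X Λ u (y n) ∧ m' n ∈ Fb X Λ u (y n) ∧ m n ≠ m' n ∧ II α ε (y n) (m n) (m' n) = 0) :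
    Zr α y₀ m₀ := by
  have hX := G.cone
  obtain ⟨⟨x₀, hx₀, hx₀m, hx₀u⟩, -⟩ := fb_lim hX G.lat G.tor hm hy (h.mono fun n hn => hn.2.1)
  have hε := hc.ε_pos
  have hε₀ := hc.ε₀_pos
  have hr0 : 0 < 3 * ε := by linarith
  obtain ⟨χ, c, ρ, hcap⟩ := hc.cap y₀ hy₀ m₀ ⟨x₀, hx₀, hx₀m, hx₀u⟩
  obtain ⟨A, hA⟩ := exists_prim α χ hcap.str
  obtain ⟨hU, hq, hms⟩ := hcap.cap y₀ (mem_closedBall_self hr0.le) x₀ hx₀ hx₀u (by rw [hx₀m, dist_self]; exact hr0.le)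
  set p := χ.q x₀ with hp
  have hp2 : p ∈ ball (0 : Vd (k + 2)) 2 := closedBall_subset_ball (by norm_num) hq
  have hprp : pr (χ.σ p) = m₀ := by rw [hp, pr_sigma_q χ hx₀ hU, hx₀m]
  have hlift := hcap.str.lift p hp2
  have hfin : fderiv ℂ A p (Pi.single 0 1) = 0 → Zr α y₀ m₀ := by
    intro h0
    have h1 := (zr_iff hX G.tor α χ hp2 hlift).2 (by rw [← hA.der p hp2]; exact h0)
    rwa [hms, hprp] at h1
  by_contra hcon
  have hD : fderiv ℂ A p (Pi.single 0 1) ≠ 0 := fun h0 => hcon (hfin h0)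
  have hDpos : 0 < ‖fderiv ℂ A p (Pi.single 0 1)‖ := norm_pos_iff.2 hD
  have hstr := (hA.an p hp2).hasStrictFDerivAt
  have hlo := hstr.isLittleO.def (half_pos hDpos)
  have hch : ∀ n, ∃ z z' : EN N, (m n ∈ Fb X Λ u (y n) ∧ m' n ∈ Fb X Λ u (y n)) →
      (z ∈ X ∧ pr z = m n ∧ u z - y n ∈ Λ) ∧ (z' ∈ X ∧ pr z' = m' n ∧ u z' - y n ∈ Λ) := by
    intro n
    by_cases h : m n ∈ Fb X Λ u (y n) ∧ m' n ∈ Fb X Λ u (y n)
    · obtain ⟨⟨z, h1⟩, ⟨z', h2⟩⟩ := h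
      exact ⟨z, z', fun _ => ⟨h1, h2⟩⟩
    · exact ⟨0, 0, fun h' => absurd h' h⟩
  choose z z' hz using hch
  have hboth : ∀ᶠ n in l, m n ∈ Fb X Λ u (y n) ∧ m' n ∈ Fb X Λ u (y n) := h.mono fun n hn => ⟨hn.2.1, hn.2.2.1⟩
  have t1 : Tendsto (fun n => χ.q (z n)) l (𝓝 p) := by
    refine tendsto_q χ hU (ne_zero hX hx₀) (hboth.mono fun n h => ne_zero hX (hz n h).1.1) ?_
    rw [hx₀m]
    exact hm.congr' (hboth.mono fun n h => (hz n h).1.2.1.symm)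
  have t2 : Tendsto (fun n => χ.q (z' n)) l (𝓝 p) := by
    refine tendsto_q χ hU (ne_zero hX hx₀) (hboth.mono fun n h => ne_zero hX (hz n h).2.1) ?_
    rw [hx₀m]
    exact hm'.congr' (hboth.mono fun n h => (hz n h).2.2.1.symm)
  have t3 : Tendsto (fun n => (χ.q (z' n), χ.q (z n))) l (𝓝 (p, p)) := t2.prodMk_nhds t1
  have e1 := t3.eventually hlo
  have e2 : ∀ᶠ n in l, dist (m n) m₀ < min ε (ε₀ / 2) := hm.eventually (ball_mem_nhds _ (lt_min hε (by linarith)))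
  have e3 : ∀ᶠ n in l, dist (m' n) m₀ < min ε (ε₀ / 2) := hm'.eventually (ball_mem_nhds _ (lt_min hε (by linarith)))
  have e4 : ∀ᶠ n in l, y n ∈ closedBall y₀ (3 * ε) := hy.eventually (closedBall_mem_nhds _ hr0)
  obtain ⟨n, ⟨⟨⟨hn, hbd⟩, h2⟩, h3⟩, h4⟩ := ((((h.and e1).and e2).and e3).and e4).exists
  obtain ⟨hnG, hnm, hnm', hne, hII⟩ := hn
  obtain ⟨⟨hz1, hz2, hz3⟩, hz4, hz5, hz6⟩ := hz n ⟨hnm, hnm'⟩
  have hd1 : dist (m n) m₀ < ε := h2.trans_le (min_le_left _ _)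
  have hd2 : dist (m' n) m₀ < ε := h3.trans_le (min_le_left _ _)
  have hd3 : dist (m n) (m' n) ≤ ε₀ := by
    have h5 := h2.trans_le (min_le_right _ _)
    have h6 := h3.trans_le (min_le_right _ _)
    have h7 := dist_triangle_right (m n) (m' n) m₀
    linarith
  have hv := hc.rel (y n) hnG _ hnm _ hnm' hd3 α
  have hIe := II_eq hX G.tor G.lat hv hcap hA h4 (by linarith : dist (m n) m₀ + ε ≤ 3 * ε) hz1 hz4 hz2 hz5
  rw [hII] at hIe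
  have hρ : (ρ : ℂ) ^ (k + 1) ≠ 0 := by
    have h1 := hcap.str.pos
    exact pow_ne_zero _ (by exact_mod_cast h1.ne')
  have hAeq : A (χ.q (z' n)) - A (χ.q (z n)) = 0 := by
    rcases div_eq_zero_iff.1 hIe.symm with h1 | h1
    · exact h1
    · exact absurd h1 hρ
  obtain ⟨hU1, -, hms1⟩ := hcap.cap (y n) h4 (z n) hz1 hz3 (by rw [hz2]; linarith)
  obtain ⟨hU2, -, hms2⟩ := hcap.cap (y n) h4 (z' n) hz4 hz6 (by rw [hz5]; linarith)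
  have htl : tl (χ.q (z' n) - χ.q (z n)) = 0 := by
    have h5 : (ρ : ℂ) • tl (χ.q (z' n)) = (ρ : ℂ) • tl (χ.q (z n)) := by
      have h6 := hms2.trans hms1.symm
      unfold ms at h6
      exact add_left_cancel h6
    have hρ1 : (ρ : ℂ) ≠ 0 := by
      have h1 := hcap.str.pos
      exact_mod_cast h1.ne'
    rw [tl_sub, smul_right_injective _ hρ1 h5, sub_self]
  have hL : fderiv ℂ A p (χ.q (z' n) - χ.q (z n)) = (χ.q (z' n) - χ.q (z n)) 0 • fderiv ℂ A p (Pi.single 0 1) := lin_vert _ htl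
  have hve := vert_eq htl
  have hnorm : ‖χ.q (z' n) - χ.q (z n)‖ = ‖(χ.q (z' n) - χ.q (z n)) 0‖ := by
    conv_lhs => rw [hve]
    rw [norm_smul]
    have h5 : ‖(Pi.single 0 1 : Vd (k + 2))‖ = 1 := by
      rw [Pi.norm_single]
      exact norm_one
    rw [h5, mul_one]
  have ht : (χ.q (z' n) - χ.q (z n)) 0 ≠ 0 := by
    intro h0
    rw [h0, zero_smul, sub_eq_zero] at hve
    apply hne
    rw [← hz2, ← hz5, ← pr_sigma_q χ hz1 hU1, ← pr_sigma_q χ hz4 hU2, hve]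
  simp only at hbd
  rw [hAeq, hL, zero_sub, norm_neg, norm_smul, hnorm] at hbd
  have htp : 0 < ‖(χ.q (z' n) - χ.q (z n)) 0‖ := norm_pos_iff.2 ht
  nlinarith [mul_pos htp hDpos]

theorem zr_lim (G : Geo X Λ u D B) {α : VForm X Λ u} {ι : Type*} {l : Filter ι} [l.NeBot] {y : ι → Vd (k + 1)} {m : ι → MN N}
    {y₀ : Vd (k + 1)} {m₀ : MN N} (hy₀ : y₀ ∉ D) (hy : Tendsto y l (𝓝 y₀)) (hm : Tendsto m l (𝓝 m₀))
    (h : ∀ᶠ n in l, Zr α (y n) (m n)) : Zr α y₀ m₀ := by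
  have hX := G.cone
  have hfb : ∀ᶠ n in l, m n ∈ Fb X Λ u (y n) := h.mono fun n hn => by
    obtain ⟨x, hx, hxm, hxu, -⟩ := hn
    exact ⟨x, hx, hxm, hxu⟩
  obtain ⟨⟨x₀, hx₀, hx₀m, hx₀u⟩, -⟩ := fb_lim hX G.lat G.tor hm hy hfb
  obtain ⟨χ, ρ, r, hr, hcap⟩ := exists_cap_at G hy₀ (m₀ := m₀) ⟨x₀, hx₀, hx₀m, hx₀u⟩
  obtain ⟨hU, hq, hms⟩ := hcap.cap y₀ (mem_closedBall_self hr.le) x₀ hx₀ hx₀u (by rw [hx₀m, dist_self]; exact hr.le)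
  set p := χ.q x₀ with hp
  have hp2 : p ∈ ball (0 : Vd (k + 2)) 2 := closedBall_subset_ball (by norm_num) hq
  have hprp : pr (χ.σ p) = m₀ := by rw [hp, pr_sigma_q χ hx₀ hU, hx₀m]
  have hlift := hcap.str.lift p hp2
  by_contra hcon
  have hD : tc α χ (ms y₀ ρ) p ≠ 0 := by
    intro h0
    have h1 := (zr_iff hX G.tor α χ hp2 hlift).2 h0
    rw [hms, hprp] at h1
    exact hcon h1
  have han : AnalyticAt ℂ (tc α χ (ms y₀ ρ)) p := by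
    refine tc_an α χ hp2 (ms_an y₀ ρ p) ?_
    filter_upwards [isOpen_ball.mem_nhds hp2] with q hq
    exact hcap.str.lift q hq
  have hV : ∀ᶠ q in 𝓝 p, tc α χ (ms y₀ ρ) q ≠ 0 := han.continuousAt.eventually_ne hD
  have hch : ∀ n, ∃ z : EN N, m n ∈ Fb X Λ u (y n) → z ∈ X ∧ pr z = m n ∧ u z - y n ∈ Λ := by
    intro n
    by_cases h : m n ∈ Fb X Λ u (y n)
    · obtain ⟨z, h1⟩ := h
      exact ⟨z, fun _ => h1⟩
    · exact ⟨0, fun h' => absurd h' h⟩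
  choose z hz using hch
  have t1 : Tendsto (fun n => χ.q (z n)) l (𝓝 p) := by
    refine tendsto_q χ hU (ne_zero hX hx₀) (hfb.mono fun n h => ne_zero hX (hz n h).1) ?_
    rw [hx₀m]
    exact hm.congr' (hfb.mono fun n h => (hz n h).2.1.symm)
  have e1 := t1.eventually hV
  have e2 : ∀ᶠ n in l, dist (m n) m₀ < r := hm.eventually (ball_mem_nhds _ hr)
  have e4 : ∀ᶠ n in l, y n ∈ closedBall y₀ r := hy.eventually (closedBall_mem_nhds _ hr)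
  obtain ⟨n, ⟨⟨⟨hn, hnf⟩, h1⟩, h2⟩, h4⟩ := ((((h.and hfb).and e1).and e2).and e4).exists
  obtain ⟨hz1, hz2, hz3⟩ := hz n hnf
  obtain ⟨hU1, hq1, hms1⟩ := hcap.cap (y n) h4 (z n) hz1 hz3 (by rw [hz2]; exact h2.le)
  have hq2 : χ.q (z n) ∈ ball (0 : Vd (k + 2)) 2 := closedBall_subset_ball (by norm_num) hq1
  refine h1 ((zr_iff hX G.tor α χ hq2 (hcap.str.lift _ hq2)).1 ?_)
  rw [hms1, pr_sigma_q χ hz1 hU1, hz2]
  exact hn

theorem zr_per {Γ : AddSubgroup (Vd (k + 1))} {α : VForm X Λ u} (hle : Γ ≤ Λ) (hper : Per α Γ) {l : Vd (k + 1)} (hl : l ∈ Γ) (y : Vd (k + 1))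
    (m : MN N) : Zr α (y + l) m ↔ Zr α y m := by
  constructor
  · rintro ⟨x, hx, hxm, hxu, h0⟩
    have h1 : u x - y ∈ Λ := by
      have e : u x - y = (u x - (y + l)) + l := by abel
      rw [e]
      exact Λ.add_mem hxu (hle hl)
    refine ⟨x, hx, hxm, h1, fun v hv => ?_⟩
    rw [← hper y l hl x hx h1 v hv]
    exact h0 v hv
  · rintro ⟨x, hx, hxm, hxu, h0⟩
    refine ⟨x, hx, hxm, ?_, fun v hv => ?_⟩
    · have e : u x - (y + l) = (u x - y) - l := by abel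
      rw [e]
      exact Λ.sub_mem hxu (hle hl)
    · rw [hper y l hl x hx hxu v hv]
      exact h0 v hv

end Pool.Agent.TG

end
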