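import Pool.Agent.H94.G5T.M14
import Pool.Agent.H94.G5T.M37
import Pool.Agent.H94.G5T.M61
import Pool.Agent.H94.G5T.M97
import Pool.Agent.H94.G5T.M98

/-! The parts of this file: G3.P.Lip, G3.P.Cls, G4.Z.LctA. -/

section

/-!
# G3 P Lip: the curves are locally Lipschitz outside `D`

Immediate from `ahl` and `hP.ge_fs δ` (with `Cv.tan`).
-/

set_option autoImplicit false

open Topology Filter Metric

namespace Pool.Agent.G3

open Pool.Agent.H36.BP (EN fs wd Sub)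
open Pool.Agent.H14.PP (IsCone CurveAt Tan)
open Pool.Agent.H62.EF (MN pr)
open Pool.Agent.AD (Vd)
open Pool.Agent.TG (TMap Lat Geo Gd)

variable {N k : ℕ} {X : Set (EN N)} {Λ : AddSubgroup (Vd (k + 1))} {u : EN N → Vd (k + 1)} {D : Set (Vd (k + 1))} {p : EN N → EN N → ℝ} {m : ℕ} {C : ℝ}

theorem lipD (hP : PS X Λ u D p m C) {δ : ℝ} (hδ : 0 < δ) : ∃ L : ℝ, 0 < L ∧ ∀ (F : ℂ → EN N) (h : ℂ → Vd (k + 1)) (z : ℂ) (r H : ℝ), 0 < r → 0 ≤ H →
    Cv X Λ u (ball z r) F h → (∀ w ∈ ball z r, ‖deriv h w‖ ≤ H) → h z ∈ Gd D δ → fs (F z) (deriv F z) ≤ L * (1 / r + H) := by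
  obtain ⟨C₁, hC₁, hA⟩ := ahl hP
  obtain ⟨c, hc, hG⟩ := hP.ge_fs δ hδ
  set K : ℝ := max 1 (1 / c) with hK
  have hK1 : 1 ≤ K := le_max_left _ _
  have hKc : 1 / c ≤ K := le_max_right _ _
  have hm : m ≠ 0 := by
    have := hP.m_pos
    omega
  refine ⟨K * C₁, by positivity, ?_⟩
  intro F h z r H hr hH hF hd hz
  have hzb : z ∈ ball z r := mem_ball_self hr
  have h1 : pf p F z ≤ (C₁ * (1 / r + H)) ^ m := hA F h z r H hr hH hF hd
  have h2 : c * fs (F z) (deriv F z) ^ m ≤ pf p F z := hG (h z) hz (F z) (hF.mem z hzb) (hF.lift z hzb) _ (hF.tan isOpen_ball hzb)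
  have hB : 0 ≤ C₁ * (1 / r + H) := by positivity
  have hf : 0 ≤ fs (F z) (deriv F z) := Pool.Agent.H36.BP.fs_nonneg _ _
  have h3 : fs (F z) (deriv F z) ^ m ≤ (K * C₁ * (1 / r + H)) ^ m := by
    have h4 : fs (F z) (deriv F z) ^ m ≤ 1 / c * (C₁ * (1 / r + H)) ^ m := by
      rw [one_div, inv_mul_eq_div, le_div_iff₀ hc]
      linarith [mul_comm c (fs (F z) (deriv F z) ^ m)]
    have h5 : K ≤ K ^ m := le_self_pow₀ hK1 hm
    calc fs (F z) (deriv F z) ^ m ≤ 1 / c * (C₁ * (1 / r + H)) ^ m := h4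
      _ ≤ K ^ m * (C₁ * (1 / r + H)) ^ m := mul_le_mul_of_nonneg_right (hKc.trans h5) (by positivity)
      _ = (K * C₁ * (1 / r + H)) ^ m := by rw [← mul_pow]; ring_nf
  exact le_of_pow_le_pow_left₀ hm (by positivity) h3

end Pool.Agent.G3

end

section

/-!
# G3 P Cls: limits of curves over arcs

`closed_arcs`: curves `F n` over `h n`, eventually defined on every disc, `h n → H` locally uniformly, `H` not constant and `H⁻¹(D)` discrete.  Then the limit of `pr (F n)` off `H⁻¹(D)` is a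
curve over `H`, with uniform convergence on compact sets off `H⁻¹(D)`.
Plan.  `S = {z | H z ∈ D}` is closed and discrete.  `‖deriv (h n)‖` is bounded on compact sets (Cauchy estimate, `h n` is close to `H`) and `deriv (h n) → deriv H`.
For `z ∉ S`: `H z` has distance `≥ 2 δ` from `D`; `lipD` and `AD.F.pd_lip` (`AD/F/Cpt`: `fs ≤ L` gives Lipschitz continuity of `pr ∘ F n`) give the equicontinuity; `ult` on `U = Sᶜ` gives `f`.
Base point: `c ∉ S` with `deriv H c ≠ 0` (such points exist: `deriv H ≠ 0` on an open nonempty set, `S` discrete); `tbd` gives `TT (F n) c r ≤ K(r)` for every `r`;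
`ext_disc` gives lifts on all discs `ball c r'`, so (extending `f` over `S` by `pr (G z)`; two lifts on different discs are proportional off `S`, so by continuity everywhere) local lifts
everywhere, `entire_lift` gives `G`.  `G z ∈ X` and `u (G z) - H z ∈ Λ`: first off `S` (`lim_mem`), then on `S` by `lim_mem` again.
-/

set_option autoImplicit false

open Topology Filter Metric

namespace Pool.Agent.G3

open Pool.Agent.H36.BP (EN fs wd Sub)
open Pool.Agent.H14.PP (IsCone CurveAt Tan)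
open Pool.Agent.H62.EF (MN pr)
open Pool.Agent.AD (Vd)
open Pool.Agent.TG (TMap Lat Geo Gd)

variable {N k : ℕ} {X : Set (EN N)} {Λ : AddSubgroup (Vd (k + 1))} {u : EN N → Vd (k + 1)} {D : Set (Vd (k + 1))} {p : EN N → EN N → ℝ} {m : ℕ} {C : ℝ}

/-- a point outside of the closed set `D` has positive distance from `D` -/
private theorem exists_gd' (hD : IsClosed D) {y : Vd (k + 1)} (hy : y ∉ D) : ∃ δ : ℝ, 0 < δ ∧ y ∈ Gd D δ := by
  have h1 : Dᶜ ∈ 𝓝 y := hD.isOpen_compl.mem_nhds hy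
  obtain ⟨δ, hδ, h⟩ := Metric.mem_nhds_iff.mp h1
  refine ⟨δ, hδ, fun b hb => ?_⟩
  by_contra hlt
  push Not at hlt
  have hb' : b ∈ ball y δ := by
    rw [mem_ball, dist_comm, dist_eq_norm]
    exact hlt
  exact h hb' hb

/-- Cauchy's estimate for the derivatives -/
private theorem deriv_close {g H : ℂ → Vd (k + 1)} {r ε : ℝ} {V : Set ℂ} (hV : IsOpen V) (hr : closedBall (0 : ℂ) (r + 1) ⊆ V) (hg : DifferentiableOn ℂ g V)
    (hH : Differentiable ℂ H) (hε : ∀ z ∈ closedBall (0 : ℂ) (r + 1), ‖g z - H z‖ < ε) {z : ℂ} (hz : z ∈ closedBall (0 : ℂ) r) :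
    ‖deriv g z - deriv H z‖ ≤ ε := by
  have hsub : closedBall z 1 ⊆ closedBall (0 : ℂ) (r + 1) := by
    refine closedBall_subset_closedBall' ?_
    have := mem_closedBall.mp hz
    linarith
  have hgd : DifferentiableOn ℂ g (closedBall z 1) := hg.mono (hsub.trans hr)
  have hd : DiffContOnCl ℂ (fun w => g w - H w) (ball z 1) := by
    have h1 : DifferentiableOn ℂ (fun w => g w - H w) (closedBall z 1) := hgd.sub hH.differentiableOn
    have h2 : DifferentiableOn ℂ (fun w => g w - H w) (closure (ball z 1)) := h1.mono closure_ball_subset_closedBall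
    exact h2.diffContOnCl
  have h1 := Complex.norm_deriv_le_of_forall_mem_sphere_norm_le (c := z) one_pos hd (C := ε) fun w hw =>
    (hε w (hsub (sphere_subset_closedBall hw))).le
  have hgz : DifferentiableAt ℂ g z := hg.differentiableAt (hV.mem_nhds (hr (hsub (mem_closedBall_self zero_le_one))))
  rw [deriv_fun_sub hgz (hH z), div_one] at h1
  exact h1

theorem closed_arcs (hX : IsCone X) (hu : TMap X Λ u) (hΛ : Lat Λ) (hD : IsClosed D) (hP : PS X Λ u D p m C) (𝒰 : Ultrafilter ℕ)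
    {F : ℕ → ℂ → EN N} {h : ℕ → ℂ → Vd (k + 1)} {H : ℂ → Vd (k + 1)}
    (hF : ∀ r : ℝ, ∀ᶠ n in (𝒰 : Filter ℕ), Cv X Λ u (ball 0 r) (F n) (h n)) (hH : Differentiable ℂ H)
    (hh : ∀ r ε : ℝ, 0 < ε → ∀ᶠ n in (𝒰 : Filter ℕ), ∀ z ∈ closedBall (0 : ℂ) r, ‖h n z - H z‖ < ε)
    (hS : ∀ z, ∀ᶠ w in 𝓝[≠] z, H w ∉ D) (hnc : ∃ z, deriv H z ≠ 0) :
    ∃ G : ℂ → EN N, Cv X Λ u Set.univ G H ∧
      ∀ K : Set ℂ, IsCompact K → (∀ z ∈ K, H z ∉ D) → ∀ ε : ℝ, 0 < ε → ∀ᶠ n in (𝒰 : Filter ℕ), ∀ z ∈ K, dist (pr (F n z)) (pr (G z)) < ε := by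
  classical
  have hHc : Continuous H := hH.continuous
  obtain ⟨S, hSdef⟩ : ∃ S : Set ℂ, S = {z | H z ∈ D} := ⟨_, rfl⟩
  have hmemS : ∀ z, z ∈ S ↔ H z ∈ D := fun z => by rw [hSdef]; rfl
  have hScl : IsClosed S := by rw [hSdef]; exact hD.preimage hHc
  have hSdisc : ∀ z, ∀ᶠ w in 𝓝[≠] z, w ∉ S := fun z => (hS z).mono fun w hw => fun h => hw ((hmemS w).mp h)
  -- curves on large discs
  have hcurve : ∀ r : ℝ, ∀ᶠ n in (𝒰 : Filter ℕ), Cv X Λ u (ball 0 (r + 1)) (F n) (h n) ∧ closedBall (0 : ℂ) r ⊆ ball 0 (r + 1) := by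
    intro r
    filter_upwards [hF (r + 1)] with n h1
    exact ⟨h1, closedBall_subset_ball (by linarith)⟩
  -- derivatives
  have hderiv : ∀ r ε : ℝ, 0 < ε → ∀ᶠ n in (𝒰 : Filter ℕ), ∀ z ∈ closedBall (0 : ℂ) r, ‖deriv (h n) z - deriv H z‖ ≤ ε := by
    intro r ε hε
    filter_upwards [hcurve (r + 1), hh (r + 1) ε hε] with n h1 h2 z hz
    exact deriv_close isOpen_ball h1.2 h1.1.h_diff hH h2 hz
  have hbound : ∀ r : ℝ, ∃ M : ℝ, 0 ≤ M ∧ ∀ᶠ n in (𝒰 : Filter ℕ), ∀ z ∈ closedBall (0 : ℂ) r, ‖deriv (h n) z‖ ≤ M := by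
    intro r
    have hdc : Continuous (deriv H) := (hH.contDiff (n := 1)).continuous_deriv le_rfl
    obtain ⟨B, hB⟩ := (isCompact_closedBall (0 : ℂ) r).exists_bound_of_continuousOn hdc.continuousOn
    refine ⟨|B| + 1, by positivity, ?_⟩
    filter_upwards [hderiv r 1 one_pos] with n hn z hz
    have h1 := hn z hz
    have h2 := hB z hz
    have h3 : ‖deriv (h n) z‖ ≤ ‖deriv (h n) z - deriv H z‖ + ‖deriv H z‖ := by
      have := norm_add_le (deriv (h n) z - deriv H z) (deriv H z)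
      rwa [sub_add_cancel] at this
    have h4 := le_abs_self B
    linarith
  -- points off `S`
  have hoff : ∀ z, z ∉ S → ∃ δ s : ℝ, 0 < δ ∧ 0 < s ∧ ∀ᶠ n in (𝒰 : Filter ℕ), ∀ w ∈ ball z s, h n w ∈ Gd D δ := by
    intro z hz
    obtain ⟨δ, hδ, hδm⟩ := exists_gd' hD (fun hzD => hz ((hmemS z).mpr hzD))
    obtain ⟨s, hs, hsb⟩ := Metric.continuousAt_iff.mp (hHc.continuousAt (x := z)) (δ / 4) (by positivity)
    refine ⟨δ / 2, s, by positivity, hs, ?_⟩
    filter_upwards [hh (‖z‖ + s) (δ / 4) (by positivity)] with n hn w hw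
    have hw1 : dist w z < s := mem_ball.mp hw
    have hw0 : w ∈ closedBall (0 : ℂ) (‖z‖ + s) := by
      rw [mem_closedBall, dist_zero_right]
      have := norm_le_norm_add_norm_sub' w z
      rw [← dist_eq_norm] at this
      linarith
    have h1 := hn w hw0
    have h2 : ‖H w - H z‖ < δ / 4 := by
      rw [← dist_eq_norm]
      exact hsb hw1
    have h3 : ‖h n w - H z‖ ≤ δ / 2 := by
      have h4 := norm_sub_le_norm_sub_add_norm_sub (h n w) (H w) (H z)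
      linarith
    have h5 := Pool.Agent.TG.gd_near hδm h3
    have h6 : δ - δ / 2 = δ / 2 := by ring
    rwa [h6] at h5
  -- equicontinuity
  have heq : ∀ z, z ∉ S → ∃ L s : ℝ, 0 < L ∧ 0 < s ∧ ∀ᶠ n in (𝒰 : Filter ℕ), DifferentiableOn ℂ (F n) (ball z s) ∧ (∀ w ∈ ball z s, F n w ≠ 0) ∧
      ∀ w ∈ ball z s, dist (pr (F n w)) (pr (F n z)) ≤ L * ‖w - z‖ := by
    intro z hz
    obtain ⟨δ, s, hδ, hs, hev⟩ := hoff z hz
    obtain ⟨L, hL, hLip⟩ := lipD hP hδ
    obtain ⟨M, hM, hMb⟩ := hbound (‖z‖ + s + 1)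
    refine ⟨2 * (L * (1 / 1 + M)), s, by positivity, hs, ?_⟩
    filter_upwards [hev, hMb, hcurve (‖z‖ + s + 1)] with n h1 h2 h3
    have hsub : ∀ w ∈ ball z s, ball w 1 ⊆ closedBall (0 : ℂ) (‖z‖ + s + 1) := by
      intro w hw v hv
      rw [mem_closedBall, dist_zero_right]
      have hw1 : dist w z < s := mem_ball.mp hw
      have hv1 : dist v w < 1 := mem_ball.mp hv
      have h4 : ‖v‖ ≤ dist v w + dist w z + ‖z‖ := by
        have h5 := dist_triangle4 v w z 0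
        rwa [dist_zero_right, dist_zero_right] at h5
      linarith
    have hballs : ball z s ⊆ ball (0 : ℂ) (‖z‖ + s + 1 + 1) := fun w hw => h3.2 (hsub w hw (mem_ball_self one_pos))
    have hne : ∀ w ∈ ball z s, F n w ≠ 0 := fun w hw => Pool.Agent.TG.ne_zero hX (h3.1.mem w (hballs hw))
    refine ⟨h3.1.F_diff.mono hballs, hne, fun w hw => ?_⟩
    refine Pool.Agent.H62.EF.pr_lipschitz isOpen_ball (convex_ball z s) (h3.1.F_diff.mono hballs) hne (L := L * (1 / 1 + M)) (fun v hv => ?_) w hw z (mem_ball_self hs)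
    exact hLip (F n) (h n) v 1 M one_pos hM (h3.1.mono ((hsub v hv).trans h3.2)) (fun y hy => h2 y (hsub v hv hy)) (h1 v hv)
  -- the limit off `S`
  obtain ⟨f, hfl, hfc⟩ := ult 𝒰 hScl.isOpen_compl F (fun z hz => by
      obtain ⟨L, s, -, hs, hev⟩ := heq z hz
      exact ⟨s, hs, hev.mono fun n hn => ⟨hn.1, hn.2.1⟩⟩) (fun z hz ε hε => by
      obtain ⟨L, s, hL, hs, hev⟩ := heq z hz
      refine ⟨min s (ε / L), lt_min hs (by positivity), hev.mono fun n hn w hw => ?_⟩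
      have hw1 : dist w z < min s (ε / L) := mem_ball.mp hw
      refine (hn.2.2 w (mem_ball.mpr (lt_of_lt_of_le hw1 (min_le_left _ _)))).trans ?_
      have hw2 : ‖w - z‖ ≤ ε / L := by
        rw [← dist_eq_norm]
        exact (lt_of_lt_of_le hw1 (min_le_right _ _)).le
      calc L * ‖w - z‖ ≤ L * (ε / L) := mul_le_mul_of_nonneg_left hw2 hL.le
        _ = ε := by field_simp)
  -- the base point
  obtain ⟨z₁, hz₁⟩ := hnc
  have hdc : Continuous (deriv H) := (hH.contDiff (n := 1)).continuous_deriv le_rfl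
  obtain ⟨c, hcS, hcd⟩ : ∃ c, c ∉ S ∧ deriv H c ≠ 0 := by
    have h1 : ∀ᶠ w in 𝓝[≠] z₁, deriv H w ≠ 0 := (hdc.continuousAt.eventually_ne hz₁).filter_mono nhdsWithin_le_nhds
    obtain ⟨c, hc1, hc2⟩ := ((hSdisc z₁).and h1).exists
    exact ⟨c, hc1, hc2⟩
  -- lifts on discs
  have hdisc : ∀ r : ℝ, 0 < r → ∃ G : ℂ → EN N, DifferentiableOn ℂ G (ball c r) ∧ (∀ z ∈ ball c r, G z ≠ 0) ∧ ∀ z ∈ ball c r, z ∉ S → f z = pr (G z) := by
    intro r hr
    obtain ⟨δ, s, hδ, hs, hev⟩ := hoff c hcS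
    obtain ⟨M, hM, hMb⟩ := hbound (‖c‖ + (r + 2))
    have hη : 0 < ‖deriv H c‖ / 2 := by
      have := norm_pos_iff.mpr hcd
      positivity
    obtain ⟨K, hK⟩ := tbd hP (δ := δ) (η := ‖deriv H c‖ / 2) (H := M) (r := r + 1) (R := r + 2) hδ hη hM (by linarith) (by linarith)
    have hsub : ball c (r + 2) ⊆ closedBall (0 : ℂ) (‖c‖ + (r + 2)) := by
      intro w hw
      rw [mem_closedBall, dist_zero_right]
      have hw1 : dist w c < r + 2 := mem_ball.mp hw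
      have := norm_le_norm_add_norm_sub' w c
      rw [← dist_eq_norm] at this
      linarith
    refine ext_disc 𝒰 (F := F) (f := f) (S := S) (c := c) (r' := r) (r := r + 1) (R := r + 2) (K := K) hr (by linarith) (by linarith) hSdisc hScl hcS ?_ ?_ ?_ ?_
    · filter_upwards [hcurve (‖c‖ + (r + 2))] with n h1
      exact ⟨h1.1.F_diff.mono (hsub.trans h1.2), fun z hz => Pool.Agent.TG.ne_zero hX (h1.1.mem z (h1.2 (hsub hz)))⟩
    · filter_upwards [hcurve (‖c‖ + (r + 2)), hMb, hev, hderiv ‖c‖ (‖deriv H c‖ / 2) hη] with n h1 h2 h3 h4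
      refine hK (F n) (h n) c (h1.1.mono (hsub.trans h1.2)) (fun w hw => h2 w (hsub hw)) (h3 c (mem_ball_self hs)) ?_
      have h5 := h4 c (by rw [mem_closedBall, dist_zero_right])
      have h6 : ‖deriv H c‖ ≤ ‖deriv (h n) c‖ + ‖deriv (h n) c - deriv H c‖ := by
        have := norm_sub_le (deriv (h n) c) (deriv (h n) c - deriv H c)
        rwa [sub_sub_cancel] at this
      linarith
    · intro L hL hLc ε hε
      exact hfc L (fun z hz => (hL hz).2) hLc ε hε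
    · intro z _ hz
      exact hfl z hz
  -- extension over `S`
  have hGex : ∀ z : ℂ, ∃ G : ℂ → EN N, DifferentiableOn ℂ G (ball c (dist z c + 1)) ∧ (∀ w ∈ ball c (dist z c + 1), G w ≠ 0) ∧
      ∀ w ∈ ball c (dist z c + 1), w ∉ S → f w = pr (G w) := fun z => hdisc _ (by positivity)
  choose Gd' hG1 hG2 hG3 using hGex
  have hzb : ∀ z : ℂ, z ∈ ball c (dist z c + 1) := fun z => mem_ball.mpr (by linarith)
  obtain ⟨g, hg⟩ : ∃ g : ℂ → MN N, g = fun z => if z ∈ S then pr (Gd' z z) else f z := ⟨_, rfl⟩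
  have hgS : ∀ z, z ∈ S → g z = pr (Gd' z z) := fun z hz => by rw [hg]; simp only [if_pos hz]
  have hgn : ∀ z, z ∉ S → g z = f z := fun z hz => by rw [hg]; simp only [if_neg hz]
  have hgl : ∀ z, LLift g z := by
    intro z
    by_cases hz : z ∈ S
    · refine ⟨Gd' z, (hG1 z).analyticAt (isOpen_ball.mem_nhds (hzb z)), ?_⟩
      filter_upwards [isOpen_ball.mem_nhds (hzb z), eventually_nhdsWithin_iff.mp (hSdisc z)] with w hw1 hw2
      refine ⟨hG2 z w hw1, ?_⟩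
      by_cases hwz : w = z
      · rw [hwz]
        exact hgS z hz
      · have hwS : w ∉ S := hw2 hwz
        rw [hgn w hwS]
        exact hG3 z w hw1 hwS
    · obtain ⟨Φ, hΦ, hΦe⟩ := hfl z hz
      refine ⟨Φ, hΦ, ?_⟩
      filter_upwards [hΦe, hScl.isOpen_compl.mem_nhds hz] with w hw1 hw2
      refine ⟨hw1.1, ?_⟩
      rw [hgn w hw2]
      exact hw1.2
  obtain ⟨G, hGd, hGe⟩ := entire_lift hgl
  have hlimf : ∀ z, z ∉ S → Tendsto (fun n => pr (F n z)) (𝒰 : Filter ℕ) (𝓝 (f z)) := by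
    intro z hz
    rw [Metric.tendsto_nhds]
    intro ε hε
    exact (hfc {z} (Set.singleton_subset_iff.mpr hz) isCompact_singleton ε hε).mono fun n hn => hn z (Set.mem_singleton z)
  have hlimh : ∀ z, Tendsto (fun n => h n z) (𝒰 : Filter ℕ) (𝓝 (H z)) := by
    intro z
    rw [Metric.tendsto_nhds]
    intro ε hε
    refine (hh ‖z‖ ε hε).mono fun n hn => ?_
    rw [dist_eq_norm]
    exact hn z (by rw [mem_closedBall, dist_zero_right])
  have hoffmem : ∀ z, z ∉ S → G z ∈ X ∧ u (G z) - H z ∈ Λ := by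
    intro z hz
    refine lim_mem hX hu hΛ (l := (𝒰 : Filter ℕ)) (x := fun n => F n z) (y := fun n => h n z) ?_ (hGe z).1 ?_ (hlimh z)
    · filter_upwards [hcurve ‖z‖] with n hn
      have hzb : z ∈ ball (0 : ℂ) (‖z‖ + 1) := hn.2 (by rw [mem_closedBall, dist_zero_right])
      exact ⟨hn.1.mem z hzb, hn.1.lift z hzb⟩
    · rw [← (hGe z).2, hgn z hz]
      exact hlimf z hz
  have hmem : ∀ z, G z ∈ X ∧ u (G z) - H z ∈ Λ := by
    intro z
    by_cases hz : z ∈ S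
    · refine lim_mem hX hu hΛ (l := 𝓝[≠] z) (x := fun w => G w) (y := fun w => H w) ?_ (hGe z).1 ?_ ?_
      · exact (hSdisc z).mono fun w hw => hoffmem w hw
      · have h1 : ContinuousAt (fun w => pr (G w)) z := (Pool.Agent.H62.EF.continuousAt_pr (hGe z).1).comp hGd.continuous.continuousAt
        exact h1.tendsto.mono_left nhdsWithin_le_nhds
      · exact (hHc.tendsto z).mono_left nhdsWithin_le_nhds
    · exact hoffmem z hz
  refine ⟨G, ⟨hGd.differentiableOn, hH.differentiableOn, fun z _ => (hmem z).1, fun z _ => (hmem z).2⟩, fun K hK hKD ε hε => ?_⟩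
  have hKS : K ⊆ Sᶜ := fun z hz hzS => hKD z hz ((hmemS z).mp hzS)
  filter_upwards [hfc K hKS hK ε hε] with n hn z hz
  have h1 := hn z hz
  rwa [← hgn z (hKS hz), (hGe z).2] at h1

end Pool.Agent.G3

end

section

/-!
# G4 Z LctA: the limit of the curves of Theorem LCT

`lct_lim`: choose `l n ∈ Λ` with `‖h n 0 + l n‖ ≤ R` (`Lat.cpt`), `b` the limit of `h n 0 + l n` along `𝒰`; `h n z + l n → z • a + b` locally uniformly (mean value inequality on balls, from `hd`).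
`closed_arcs` with `H z = z • a + b` (`LDi` gives `hS`), `Cv.add`; `Csf.cls` gives `Φ ∈ S` with `pr (G z) = Φ (z • a + b)` off `D`.
`lct_isol`: if `h n w ∈ D` then `Q (F n w) = 0` (`QD.zero`, `Cv.lift`); `Q ∘ F n` is holomorphic on the disc and not `0` at `0`.
`lct_sec`: `Φ` is continuous at the points off `D` (`Csf.hol`), uniformly on compact sets of the line; so `dist (Φ (h n z)) (Φ (z • a + b)) → 0` uniformly on `K`, and with `Lim.flim` the claim.
-/

set_option autoImplicit false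

open Topology Filter Metric

namespace Pool.Agent.G4

open Pool.Agent.H36.BP (EN fs wd Sub)
open Pool.Agent.H14.PP (IsCone CurveAt Tan)
open Pool.Agent.H62.EF (MN pr)
open Pool.Agent.AD (Vd Chart Charts)
open Pool.Agent.TG (TMap Lat Geo Gd)

open Pool.Agent.TG (VForm JJ II Cst Fb TransAt)
open Pool.Agent.G3 (Cv wt PS QD Crs Lim Arr gg closed_arcs)

variable {N k : ℕ} {X : Set (EN N)} {Λ : AddSubgroup (Vd (k + 1))} {u : EN N → Vd (k + 1)} {D B : Set (Vd (k + 1))} {p : EN N → EN N → ℝ} {m d : ℕ} {C : ℝ}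
  {Q : EN N → ℂ} {S : Set (Vd (k + 1) → MN N)} {𝒰 : Ultrafilter ℕ} {F : ℕ → ℂ → EN N} {h : ℕ → ℂ → Vd (k + 1)} {E : ℕ → ℂ → ℂ} {a b : Vd (k + 1)} {Φ : Vd (k + 1) → MN N}

/-- the mean value inequality -/
private theorem LctA_hlim {r : ℝ} (hr : 0 < r) {g : ℂ → Vd (k + 1)} {l a b : Vd (k + 1)} {ε δ : ℝ}
    (hg : DifferentiableOn ℂ g (ball 0 r)) (hd : ∀ z ∈ ball (0 : ℂ) r, ‖deriv g z - a‖ ≤ δ)
    (h0 : ‖g 0 + l - b‖ < ε) {z : ℂ} (hz : z ∈ ball (0 : ℂ) r) : ‖g z + l - (z • a + b)‖ < ε + δ * r := by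
  have hdiff : ∀ x ∈ ball (0 : ℂ) r, DifferentiableAt ℂ (fun w => g w - w • a) x := fun x hx =>
    (hg.differentiableAt (isOpen_ball.mem_nhds hx)).sub ((differentiableAt_id).smul_const a)
  have hder : ∀ x ∈ ball (0 : ℂ) r, ‖deriv (fun w => g w - w • a) x‖ ≤ δ := by
    intro x hx
    have h1 : deriv (fun w => g w - w • a) x = deriv g x - a := by
      have h2 : HasDerivAt (fun w : ℂ => w • a) ((1 : ℂ) • a) x := (hasDerivAt_id x).smul_const a
      have h3 := (hg.differentiableAt (isOpen_ball.mem_nhds hx)).hasDerivAt.sub h2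
      rw [one_smul] at h3
      exact h3.deriv
    rw [h1]
    exact hd x hx
  have h0m : (0 : ℂ) ∈ ball (0 : ℂ) r := mem_ball_self hr
  have h1 := (convex_ball (0 : ℂ) r).norm_image_sub_le_of_norm_deriv_le hdiff hder h0m hz
  have hδ : 0 ≤ δ := (norm_nonneg _).trans (hd 0 h0m)
  have hzr : ‖z‖ < r := by rwa [mem_ball_zero_iff] at hz
  have h2 : δ * ‖z - 0‖ ≤ δ * r := by
    rw [sub_zero]
    exact mul_le_mul_of_nonneg_left hzr.le hδ
  have h3 : g z + l - (z • a + b) = ((g z - z • a) - (g 0 - (0 : ℂ) • a)) + (g 0 + l - b) := by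
    rw [zero_smul]
    abel
  rw [h3]
  have h4 := norm_add_le ((g z - z • a) - (g 0 - (0 : ℂ) • a)) (g 0 + l - b)
  linarith

theorem lct_lim (hX : IsCone X) (hu : TMap X Λ u) (hΛ : Lat Λ) (hDc : IsClosed D) (hL : LDi D) (hP : PS X Λ u D p m C) (hS : Csf X Λ u D S) (ha : a ≠ 0)
    (hF : ∀ r : ℝ, ∀ᶠ n in (𝒰 : Filter ℕ), Cv X Λ u (ball 0 r) (F n) (h n))
    (hd : ∀ r ε : ℝ, 0 < ε → ∀ᶠ n in (𝒰 : Filter ℕ), ∀ z ∈ ball (0 : ℂ) r, ‖deriv (h n) z - a‖ ≤ ε) :
    ∃ (l : ℕ → Vd (k + 1)) (b : Vd (k + 1)) (Φ : Vd (k + 1) → MN N), (∀ n, l n ∈ Λ) ∧ Φ ∈ S ∧ Lim X Λ u D 𝒰 F (fun n z => h n z + l n) a b Φ := by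
  obtain ⟨R, hR, hcpt⟩ := hΛ.cpt
  choose l' hl' hl'R using fun n => hcpt (h n 0)
  -- the limit of the base points
  obtain ⟨b, -, hb⟩ := (isCompact_closedBall (0 : Vd (k + 1)) R).ultrafilter_le_nhds (𝒰.map fun n => h n 0 + -l' n) (by
    rw [le_principal_iff, Ultrafilter.mem_coe, Ultrafilter.mem_map]
    refine Filter.univ_mem' fun n => ?_
    simp only [Set.mem_preimage, mem_closedBall, dist_zero_right]
    rw [← sub_eq_add_neg]
    exact hl'R n)
  have hb' : Tendsto (fun n => h n 0 + -l' n) (𝒰 : Filter ℕ) (𝓝 b) := hb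
  have hlim : ∀ r ε : ℝ, 0 < ε → ∀ᶠ n in (𝒰 : Filter ℕ), ∀ z ∈ closedBall (0 : ℂ) r, ‖h n z + -l' n - (z • a + b)‖ < ε := by
    intro r ε hε
    have hr : 0 < |r| + 1 := by positivity
    have h1 : ∀ᶠ n in (𝒰 : Filter ℕ), ‖h n 0 + -l' n - b‖ < ε / 2 := by
      have h2 := Metric.tendsto_nhds.mp hb' (ε / 2) (by positivity)
      filter_upwards [h2] with n hn
      rwa [dist_eq_norm] at hn
    filter_upwards [h1, hF (|r| + 1), hd (|r| + 1) (ε / 2 / (|r| + 1)) (by positivity)] with n h2 h3 h4 z hz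
    have hz' : z ∈ ball (0 : ℂ) (|r| + 1) := by
      rw [mem_closedBall, dist_zero_right] at hz
      rw [mem_ball, dist_zero_right]
      have := le_abs_self r
      linarith
    have h5 := LctA_hlim hr h3.h_diff h4 h2 hz'
    have h6 : ε / 2 / (|r| + 1) * (|r| + 1) = ε / 2 := by field_simp
    rw [h6] at h5
    linarith
  have hF' : ∀ r : ℝ, ∀ᶠ n in (𝒰 : Filter ℕ), Cv X Λ u (ball 0 r) (F n) (fun z => h n z + -l' n) := by
    intro r
    filter_upwards [hF r] with n hn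
    exact hn.add (Λ.neg_mem (hl' n))
  have hder : ∀ z : ℂ, HasDerivAt (fun w : ℂ => w • a + b) a z := by
    intro z
    have h2 : HasDerivAt (fun w : ℂ => w • a) ((1 : ℂ) • a) z := (hasDerivAt_id z).smul_const a
    rw [one_smul] at h2
    exact h2.add_const b
  obtain ⟨G, hG, hGc⟩ := closed_arcs hX hu hΛ hDc hP 𝒰 (F := F) (h := fun n z => h n z + -l' n) (H := fun z => z • a + b) hF'
    (fun z => (hder z).differentiableAt) hlim (fun z => hL a ha b z) ⟨0, by rw [(hder 0).deriv]; exact ha⟩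
  obtain ⟨Φ, hΦ, hΦG⟩ := hS.cls a ha b G hG
  refine ⟨fun n => -l' n, b, Φ, fun n => Λ.neg_mem (hl' n), hΦ, ⟨hF', ha, hlim, fun K hK hKD ε hε => ?_⟩⟩
  filter_upwards [hGc K hK hKD ε hε] with n hn z hz
  rw [← hΦG z (hKD z hz)]
  exact hn z hz

theorem lct_isol (hQ : QD X Λ u D Q d) {F : ℂ → EN N} {h : ℂ → Vd (k + 1)} {r : ℝ} (hr : 0 < r) (hF : Cv X Λ u (ball 0 r) F h) (h0 : Q (F 0) ≠ 0) :
    ∀ z ∈ ball (0 : ℂ) r, ∀ᶠ w in 𝓝[≠] z, h w ∉ D := by
  intro z hz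
  by_contra hcon
  have hfr : ∃ᶠ w in 𝓝[≠] z, h w ∈ D := fun hev => hcon (hev.mono fun w hw => hw)
  have hmem : ∀ᶠ w in 𝓝[≠] z, w ∈ ball (0 : ℂ) r := mem_nhdsWithin_of_mem_nhds (isOpen_ball.mem_nhds hz)
  have hfr2 : ∃ᶠ w in 𝓝[≠] z, Q (F w) = 0 := (hfr.and_eventually hmem).mono fun w hw =>
    hQ.zero (F w) (hF.mem w hw.2) (h w) hw.1 (hF.lift w hw.2)
  have hdiff : DifferentiableOn ℂ (fun w => Q (F w)) (ball 0 r) := hQ.diff.comp_differentiableOn hF.F_diff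
  have han : AnalyticOnNhd ℂ (fun w => Q (F w)) (ball 0 r) := hdiff.analyticOnNhd isOpen_ball
  have hz0 := han.eqOn_zero_of_preconnected_of_frequently_eq_zero (convex_ball (0 : ℂ) r).isPreconnected hz hfr2
  exact h0 (hz0 (mem_ball_self hr))

/-- the section is continuous off `D`, with values in the fibre -/
private theorem LctA_cont (hX : IsCone X) (hS : Csf X Λ u D S) (hΦ : Φ ∈ S) {y : Vd (k + 1)} (hy : y ∉ D) :
    ContinuousAt Φ y ∧ ∀ᶠ z in 𝓝 y, Φ z ∈ Fb X Λ u z := by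
  obtain ⟨φ, hφ, hev⟩ := hS.hol Φ hΦ y hy
  have hy0 := hev.self_of_nhds
  have h1 : ContinuousAt (fun z => pr (φ z)) y :=
    ContinuousAt.comp (g := fun x : EN N => pr x) (Pool.Agent.H62.EF.continuousAt_pr (Pool.Agent.TG.ne_zero hX hy0.1)) hφ.continuousAt
  refine ⟨h1.congr (hev.mono fun z hz => hz.2.1.symm), hev.mono fun z hz => ⟨φ z, hz.1, hz.2.1.symm, hz.2.2⟩⟩

theorem lct_sec (hX : IsCone X) (hDc : IsClosed D) (hS : Csf X Λ u D S) (hΦ : Φ ∈ S) (hl : Lim X Λ u D 𝒰 F h a b Φ) {K : Set ℂ} (hK : IsCompact K) (hKD : ∀ z ∈ K, z • a + b ∉ D) {ε : ℝ} (hε : 0 < ε) :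
    ∀ᶠ n in (𝒰 : Filter ℕ), ∀ z ∈ K, h n z ∉ D ∧ Φ (h n z) ∈ Fb X Λ u (h n z) ∧ pr (F n z) ∈ Fb X Λ u (h n z) ∧ dist (Φ (h n z)) (pr (F n z)) < ε := by
  have hHc : Continuous (fun z : ℂ => z • a + b) := (continuous_id.smul continuous_const).add continuous_const
  -- local statement
  have hloc : ∀ z ∈ K, ∃ t ∈ 𝓝 z, ∃ δ : ℝ, 0 < δ ∧ ∀ w ∈ t, ∀ y : Vd (k + 1), ‖y - (w • a + b)‖ < δ →
      y ∉ D ∧ Φ y ∈ Fb X Λ u y ∧ dist (Φ y) (Φ (w • a + b)) < ε / 2 := by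
    intro z hz
    obtain ⟨hc, hev⟩ := LctA_cont hX hS hΦ (hKD z hz)
    have hD : ∀ᶠ y in 𝓝 (z • a + b), y ∉ D := hDc.isOpen_compl.mem_nhds (hKD z hz)
    have hc2 : ∀ᶠ y in 𝓝 (z • a + b), dist (Φ y) (Φ (z • a + b)) < ε / 4 := Metric.tendsto_nhds.mp hc (ε / 4) (by positivity)
    obtain ⟨δ, hδ, hball⟩ := Metric.eventually_nhds_iff.mp ((hev.and hD).and hc2)
    refine ⟨(fun w : ℂ => w • a + b) ⁻¹' ball (z • a + b) (δ / 2), hHc.continuousAt.preimage_mem_nhds (ball_mem_nhds _ (by positivity)), δ / 2,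
      by positivity, fun w hw y hy => ?_⟩
    have hw1 : dist (w • a + b) (z • a + b) < δ / 2 := hw
    have hy1 : dist y (z • a + b) < δ := by
      have h1 := dist_triangle y (w • a + b) (z • a + b)
      rw [dist_eq_norm y (w • a + b)] at h1
      linarith
    have h2 := hball hy1
    have h3 := hball (hw1.trans (by linarith))
    refine ⟨h2.1.2, h2.1.1, ?_⟩
    have h4 := dist_triangle_right (Φ y) (Φ (w • a + b)) (Φ (z • a + b))
    have h5 := h2.2
    have h6 := h3.2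
    linarith
  choose! t ht δ hδ hδt using hloc
  obtain ⟨I, hIK, hIc⟩ := hK.elim_nhds_subcover t fun z hz => ht z hz
  have hbd : ∃ r : ℝ, ∀ z ∈ K, z ∈ closedBall (0 : ℂ) r := by
    obtain ⟨r, hr⟩ := hK.isBounded.subset_closedBall (0 : ℂ)
    exact ⟨r, fun z hz => hr hz⟩
  obtain ⟨r, hr⟩ := hbd
  -- a common radius
  obtain ⟨η, hη, hηI⟩ : ∃ η : ℝ, 0 < η ∧ ∀ i ∈ I, η ≤ δ i := by
    rcases I.eq_empty_or_nonempty with h0 | h0
    · exact ⟨1, one_pos, fun i hi => by rw [h0] at hi; exact absurd hi (Finset.notMem_empty i)⟩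
    · obtain ⟨i₀, hi₀, hmin⟩ := I.exists_min_image δ h0
      exact ⟨δ i₀, hδ i₀ (hIK i₀ hi₀), hmin⟩
  filter_upwards [hl.hlim r η hη, hl.flim K hK hKD (ε / 2) (by positivity), hl.cv (|r| + 1)] with n h1 h2 h3 z hz
  obtain ⟨i, hi, hzi⟩ := Set.mem_iUnion₂.mp (hIc hz)
  have h4 := hδt i (hIK i hi) z hzi (h n z) ((h1 z (hr z hz)).trans_le (hηI i hi))
  have hzb : z ∈ ball (0 : ℂ) (|r| + 1) := by
    have h5 := hr z hz
    rw [mem_closedBall, dist_zero_right] at h5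
    rw [mem_ball, dist_zero_right]
    have := le_abs_self r
    linarith
  refine ⟨h4.1, h4.2.1, ⟨F n z, h3.mem z hzb, rfl, h3.lift z hzb⟩, ?_⟩
  have h5 := h2 z hz
  have h6 := dist_triangle (Φ (h n z)) (Φ (z • a + b)) (pr (F n z))
  rw [dist_comm (Φ (z • a + b))] at h6
  have h7 := h4.2.2
  linarith

end Pool.Agent.G4

end
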