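import Pool.Agent.H94.G5T.M22
import Pool.Agent.H94.G5T.M27
import Pool.Agent.H94.G5T.M31
import Pool.Agent.H94.G5T.M32
import Pool.Agent.H94.G5T.M33
import Pool.Agent.H94.G5T.M34

/-! The parts of this file: G3.A.DDJet, G4.R.BdT, AD.F.Sep, H62.FC.Eval, H62.FC.Dense, H7.Bir.Open, G4.C.ChebU, G4.C.SpreadU. -/

section

/-!
# G3 A DDJet: bounded divided differences of all orders give a smooth family

`dd_jet`: if `f s` is holomorphic on `D` for all `s ∈ I` and the divided differences of `s ↦ f s z` of every order are bounded uniformly in `z ∈ D`, then `f` is the first member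
of a `JetFam`.
-/

set_option autoImplicit false

open Topology Filter Metric Finset

namespace Pool.Agent.G3.A

variable {E : Type*} [NormedAddCommGroup E] [NormedSpace ℝ E]

/-- translation of the nodes -/
theorem dd_image_add (S : Finset ℝ) (h : ℝ) (g : ℝ → E) : dd (S.image (fun t => t + h)) g = dd S (fun t => g (t + h)) := by
  have hinj : Function.Injective fun t : ℝ => t + h := add_left_injective h
  unfold dd
  rw [Finset.sum_image fun a _ b _ hab => hinj hab]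
  refine Finset.sum_congr rfl fun a _ => ?_
  congr 2
  rw [← Finset.image_erase hinj, Finset.prod_image fun a _ b _ hab => hinj hab]
  exact Finset.prod_congr rfl fun b _ => by ring

/-- replacing the nodes one by one -/
theorem dd_shift_bound {S : Finset ℝ} {h C : ℝ} (hh : h ≠ 0) (hdis : ∀ a ∈ S, a + h ∉ S) {g : ℝ → E}
    (hC : ∀ T : Finset ℝ, T ⊆ S ∪ S.image (fun t => t + h) → T.card = S.card + 1 → ‖dd T g‖ ≤ C) :
    ‖dd (S.image (fun t => t + h)) g - dd S g‖ ≤ S.card * (|h| * C) := by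
  have hinj : Function.Injective fun t : ℝ => t + h := add_left_injective h
  have key : ∀ U : Finset ℝ, U ⊆ S → ‖dd ((S \ U) ∪ U.image (fun t => t + h)) g - dd S g‖ ≤ U.card * (|h| * C) := by
    intro U
    induction U using Finset.induction_on with
    | empty =>
      intro _
      simp
    | insert a U ha ih =>
      intro hU
      have haS : a ∈ S := hU (Finset.mem_insert_self _ _)
      have hUS : U ⊆ S := (Finset.subset_insert a U).trans hU
      have h1 := ih hUS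
      set R : Finset ℝ := (S \ insert a U) ∪ U.image (fun t => t + h) with hR
      have e1 : (S \ U) ∪ U.image (fun t => t + h) = insert a R := by
        ext x
        simp only [hR, Finset.mem_union, Finset.mem_sdiff, Finset.mem_insert, Finset.mem_image]
        constructor
        · rintro (⟨hx, hxU⟩ | hx)
          · by_cases hxa : x = a
            · exact Or.inl hxa
            · exact Or.inr (Or.inl ⟨hx, fun h => h.elim hxa hxU⟩)
          · exact Or.inr (Or.inr hx)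
        · rintro (rfl | ⟨hx, hxU⟩ | hx)
          · exact Or.inl ⟨haS, ha⟩
          · exact Or.inl ⟨hx, fun h => hxU (Or.inr h)⟩
          · exact Or.inr hx
      have e2 : (S \ insert a U) ∪ (insert a U).image (fun t => t + h) = insert (a + h) R := by
        rw [Finset.image_insert, hR]
        ext x
        simp only [Finset.mem_union, Finset.mem_insert]
        tauto
      have haR : a ∉ R := by
        rw [hR, Finset.mem_union]
        rintro (hx | hx)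
        · exact (Finset.mem_sdiff.1 hx).2 (Finset.mem_insert_self _ _)
        · obtain ⟨b, hb, hba⟩ := Finset.mem_image.1 hx
          exact hdis b (hUS hb) (by rw [hba]; exact haS)
      have hahR : a + h ∉ R := by
        rw [hR, Finset.mem_union]
        rintro (hx | hx)
        · exact hdis a haS (Finset.mem_sdiff.1 hx).1
        · obtain ⟨b, hb, hba⟩ := Finset.mem_image.1 hx
          exact ha ((hinj hba) ▸ hb)
      have hne : a ≠ a + h := fun h' => hh (by linarith)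
      have h2 : dd (insert (a + h) R) g - dd (insert a R) g = h • dd (insert a (insert (a + h) R)) g := by
        rw [dd_insert_insert hne haR hahR, smul_smul]
        have : h * (a + h - a)⁻¹ = 1 := by
          rw [add_sub_cancel_left]
          exact mul_inv_cancel₀ hh
        rw [this, one_smul]
      have hRcard : R.card + 1 = S.card := by
        have h3 : (insert a R).card = R.card + 1 := Finset.card_insert_of_notMem haR
        rw [← h3, ← e1, Finset.card_union_of_disjoint, Finset.card_image_of_injective _ hinj, Finset.card_sdiff_of_subset hUS]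
        · have := Finset.card_le_card hUS
          omega
        · rw [Finset.disjoint_left]
          intro x hx hx'
          obtain ⟨b, hb, hba⟩ := Finset.mem_image.1 hx'
          exact hdis b (hUS hb) (by rw [hba]; exact (Finset.mem_sdiff.1 hx).1)
      have hRsub : R ⊆ S ∪ S.image (fun t => t + h) := by
        rw [hR]
        exact Finset.union_subset_union Finset.sdiff_subset (Finset.image_subset_image hUS)
      have h3 : ‖dd (insert a (insert (a + h) R)) g‖ ≤ C := by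
        refine hC _ ?_ ?_
        · refine Finset.insert_subset (Finset.mem_union_left _ haS) (Finset.insert_subset (Finset.mem_union_right _ ?_) hRsub)
          exact Finset.mem_image_of_mem (fun t => t + h) haS
        · have h4 : a ∉ insert (a + h) R := by
            rw [Finset.mem_insert]
            rintro (h5 | h5)
            · exact hne h5
            · exact haR h5
          rw [Finset.card_insert_of_notMem h4, Finset.card_insert_of_notMem hahR]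
          omega
      rw [e1] at h1
      rw [e2, Finset.card_insert_of_notMem ha]
      have h4 : dd (insert (a + h) R) g - dd S g = (dd (insert (a + h) R) g - dd (insert a R) g) + (dd (insert a R) g - dd S g) := by abel
      rw [h4]
      refine (norm_add_le _ _).trans ?_
      rw [h2, norm_smul, Real.norm_eq_abs]
      have h5 : |h| * ‖dd (insert a (insert (a + h) R)) g‖ ≤ |h| * C := by gcongr
      push_cast
      linarith
  have h1 := key S le_rfl
  rwa [Finset.sdiff_self, Finset.empty_union] at h1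

/-- the derivative exists -/
theorem dd_deriv [CompleteSpace E] {I : Set ℝ} (hI : IsOpen I) {C : ℝ} {g : ℝ → E}
    (hC : ∀ T : Finset ℝ, (∀ a ∈ T, a ∈ I) → T.card = 3 → ‖dd T g‖ ≤ C) {s : ℝ} (hs : s ∈ I) :
    ∃ v : E, HasDerivAt g v s ∧ ∀ t ∈ I, t ≠ s → ‖(t - s)⁻¹ • (g t - g s) - v‖ ≤ C * |t - s| := by
  -- Lipschitz bound for the slopes
  have hlip : ∀ t ∈ I, ∀ t' ∈ I, t ≠ s → t' ≠ s → ‖(t - s)⁻¹ • (g t - g s) - (t' - s)⁻¹ • (g t' - g s)‖ ≤ C * |t - t'| := by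
    intro t ht t' ht' hts ht's
    by_cases htt : t = t'
    · rw [htt]
      simp
    have h1 : dd (insert s (insert t {t'})) g = (t' - t)⁻¹ • ((t' - s)⁻¹ • (g t' - g s) - (t - s)⁻¹ • (g t - g s)) := by
      have hs1 : s ∉ insert t ({t'} : Finset ℝ) := by
        rw [Finset.mem_insert, Finset.mem_singleton]
        rintro (h | h)
        · exact hts h.symm
        · exact ht's h.symm
      rw [dd_slope g hs1 (Finset.insert_nonempty _ _)]
      have h2 := dd_insert_insert (S := ∅) htt (Finset.notMem_empty t) (Finset.notMem_empty t') (fun x => (x - s)⁻¹ • (g x - g s))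
      simp only [insert_empty_eq] at h2
      rw [h2, dd_singleton, dd_singleton]
    have h2 : ‖dd (insert s (insert t {t'})) g‖ ≤ C := by
      refine hC _ ?_ ?_
      · intro a ha
        rw [Finset.mem_insert, Finset.mem_insert, Finset.mem_singleton] at ha
        rcases ha with rfl | rfl | rfl
        · exact hs
        · exact ht
        · exact ht'
      · rw [Finset.card_insert_of_notMem, Finset.card_insert_of_notMem, Finset.card_singleton]
        · simpa using htt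
        · rw [Finset.mem_insert, Finset.mem_singleton]
          rintro (h | h)
          · exact hts h.symm
          · exact ht's h.symm
    have h3 : (t - s)⁻¹ • (g t - g s) - (t' - s)⁻¹ • (g t' - g s) = (t - t') • dd (insert s (insert t {t'})) g := by
      have hne : t' - t ≠ 0 := sub_ne_zero.2 fun h => htt h.symm
      have e : (t - t') * (t' - t)⁻¹ = -1 := by
        rw [← neg_sub t' t, neg_mul, mul_inv_cancel₀ hne]
      rw [h1, smul_smul, e, neg_one_smul]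
      abel
    rw [h3, norm_smul, Real.norm_eq_abs, mul_comm]
    gcongr
  obtain ⟨δ, hδ, hball⟩ := Metric.isOpen_iff.1 hI s hs
  have hC0 : 0 ≤ C := by
    have h1 : s + δ / 2 ∈ I := hball (by rw [mem_ball, Real.dist_eq]; rw [add_sub_cancel_left, abs_of_pos (by linarith)]; linarith)
    have h2 : s + δ / 3 ∈ I := hball (by rw [mem_ball, Real.dist_eq]; rw [add_sub_cancel_left, abs_of_pos (by linarith)]; linarith)
    have h3 := hlip _ h1 _ h2 (by linarith) (by linarith)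
    have h4 : 0 < |s + δ / 2 - (s + δ / 3)| := abs_pos.2 (by linarith)
    have h5 := (norm_nonneg _).trans h3
    by_contra hcon
    rw [not_le] at hcon
    have := mul_neg_of_neg_of_pos hcon h4
    linarith
  -- a sequence
  set tn : ℕ → ℝ := fun n => s + δ / (n + 2) with htn
  have htnI : ∀ n, tn n ∈ I := by
    intro n
    apply hball
    rw [mem_ball, Real.dist_eq, htn]
    simp only [add_sub_cancel_left]
    have hp : (0 : ℝ) < (n : ℝ) + 2 := by positivity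
    rw [abs_of_pos (by positivity), div_lt_iff₀ hp]
    nlinarith [(Nat.cast_nonneg n : (0 : ℝ) ≤ n)]
  have htns : ∀ n, tn n ≠ s := by
    intro n
    rw [htn]
    have : 0 < δ / ((n : ℝ) + 2) := by positivity
    simp only
    linarith
  have htnlim : Tendsto tn atTop (𝓝 s) := by
    have h1 : Tendsto (fun n : ℕ => δ / ((n : ℝ) + 2)) atTop (𝓝 0) :=
      tendsto_const_nhds.div_atTop (tendsto_natCast_atTop_atTop.atTop_add tendsto_const_nhds)
    have h2 := (tendsto_const_nhds (x := s)).add h1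
    simpa [htn] using h2
  set σ : ℝ → E := fun t => (t - s)⁻¹ • (g t - g s) with hσ
  have hcau : CauchySeq fun n => σ (tn n) := by
    have hc := htnlim.cauchySeq
    rw [Metric.cauchySeq_iff] at hc ⊢
    intro ε hε
    obtain ⟨N, hN⟩ := hc (ε / (C + 1)) (by positivity)
    refine ⟨N, fun m hm n hn => ?_⟩
    have h1 := hlip _ (htnI m) _ (htnI n) (htns m) (htns n)
    have h2 := hN m hm n hn
    rw [dist_eq_norm]
    rw [Real.dist_eq, lt_div_iff₀ (by positivity)] at h2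
    have h3 : C * |tn m - tn n| ≤ |tn m - tn n| * (C + 1) := by nlinarith [abs_nonneg (tn m - tn n)]
    exact (h1.trans h3).trans_lt h2
  obtain ⟨v, hv⟩ := cauchySeq_tendsto_of_complete hcau
  have hbd : ∀ t ∈ I, t ≠ s → ‖σ t - v‖ ≤ C * |t - s| := by
    intro t ht hts
    have h1 : Tendsto (fun n => ‖σ t - σ (tn n)‖) atTop (𝓝 ‖σ t - v‖) := (tendsto_const_nhds.sub hv).norm
    have h2 : Tendsto (fun n => C * |t - tn n|) atTop (𝓝 (C * |t - s|)) := ((tendsto_const_nhds.sub htnlim).abs).const_mul C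
    exact le_of_tendsto_of_tendsto' h1 h2 fun n => hlip t ht _ (htnI n) hts (htns n)
  refine ⟨v, ?_, hbd⟩
  rw [hasDerivAt_iff_tendsto_slope]
  have h1 : Tendsto (fun t => C * |t - s|) (𝓝[≠] s) (𝓝 0) := by
    have h2 : Tendsto (fun t => C * |t - s|) (𝓝 s) (𝓝 (C * |s - s|)) := by
      have : Continuous fun t : ℝ => C * |t - s| := by fun_prop
      exact this.tendsto s
    rw [sub_self, abs_zero, mul_zero] at h2
    exact h2.mono_left nhdsWithin_le_nhds
  rw [tendsto_iff_norm_sub_tendsto_zero]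
  refine squeeze_zero' (Eventually.of_forall fun t => norm_nonneg _) ?_ h1
  have h2 : ∀ᶠ t in 𝓝[≠] s, t ∈ I := nhdsWithin_le_nhds (hI.mem_nhds hs)
  filter_upwards [h2, self_mem_nhdsWithin] with t ht hts
  rw [slope, vsub_eq_sub]
  exact hbd t ht hts

/-- the divided differences of the derivative -/
theorem dd_deriv_bound {I : Set ℝ} (hI : IsOpen I) {C : ℝ} {g g' : ℝ → E} (hg : ∀ s ∈ I, HasDerivAt g (g' s) s) {S : Finset ℝ}
    (hS : ∀ a ∈ S, a ∈ I) (hC : ∀ T : Finset ℝ, (∀ a ∈ T, a ∈ I) → T.card = S.card + 1 → ‖dd T g‖ ≤ C) : ‖dd S g'‖ ≤ S.card * C := by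
  -- the limit
  have h1 : Tendsto (fun h : ℝ => dd S (fun t => h⁻¹ • (g (t + h) - g t))) (𝓝[≠] 0) (𝓝 (dd S g')) := by
    unfold dd
    refine tendsto_finsetSum _ fun a ha => ?_
    have h2 := hasDerivAt_iff_tendsto_slope_zero.1 (hg a (hS a ha))
    exact h2.const_smul _
  have h2 : ∀ᶠ h in 𝓝[≠] (0 : ℝ), ∀ a ∈ S, a + h ∈ I := by
    rw [eventually_all_finset]
    intro a ha
    have h3 : Tendsto (fun h : ℝ => a + h) (𝓝 0) (𝓝 (a + 0)) := (continuous_const.add continuous_id).tendsto 0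
    rw [add_zero] at h3
    exact (h3.eventually (hI.mem_nhds (hS a ha))).filter_mono nhdsWithin_le_nhds
  have h3 : ∀ᶠ h in 𝓝[≠] (0 : ℝ), ∀ a ∈ S, a + h ∉ S := by
    rw [eventually_all_finset]
    intro a ha
    have h4 : ∀ᶠ h in 𝓝[≠] (0 : ℝ), ∀ b ∈ S, a + h ≠ b := by
      rw [eventually_all_finset]
      intro b hb
      by_cases hab : b = a
      · filter_upwards [self_mem_nhdsWithin] with h hh hah
        apply hh
        simp only [Set.mem_singleton_iff]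
        linarith
      · have h5 : Tendsto (fun h : ℝ => a + h) (𝓝 0) (𝓝 (a + 0)) := (continuous_const.add continuous_id).tendsto 0
        rw [add_zero] at h5
        exact (h5.eventually_ne (fun h => hab h.symm)).filter_mono nhdsWithin_le_nhds
    filter_upwards [h4] with h hh hmem
    exact hh _ hmem rfl
  refine le_of_tendsto h1.norm ?_
  filter_upwards [h2, h3, self_mem_nhdsWithin] with h a1 a2 a3
  have hh : h ≠ 0 := a3
  have h4 := dd_shift_bound hh a2 (g := g) (C := C) (fun T hT hcard => hC T (fun b hb => by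
    rcases Finset.mem_union.1 (hT hb) with h5 | h5
    · exact hS b h5
    · obtain ⟨c, hc, rfl⟩ := Finset.mem_image.1 h5
      exact a1 c hc) hcard)
  rw [dd_image_add, ← dd_sub] at h4
  have h5 : dd S (fun t => h⁻¹ • (g (t + h) - g t)) = h⁻¹ • dd S (fun t => g (t + h) - g t) := dd_smul S h⁻¹ _
  rw [h5, norm_smul, norm_inv, Real.norm_eq_abs]
  have h6 : 0 < |h| := abs_pos.2 hh
  calc |h|⁻¹ * ‖dd S (fun t => g (t + h) - g t)‖ ≤ |h|⁻¹ * (S.card * (|h| * C)) := by gcongr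
    _ = S.card * C := by field_simp

end Pool.Agent.G3.A

end

section

/-!
# G4 R BdT: functions on a real torus with bounded divided differences in one direction

`f` is defined on `T ∩ ball y₀ r`, `T` invariant under `ℝ ν` and `ℂ a`: `BDT` = continuous, holomorphic in the direction `a`, all divided differences in the direction `ν` are bounded.
`BDT.deriv`: the derivative in the direction `ν` has the same properties (it is a uniform limit of difference quotients, `dd_deriv`).  `bdt_jet`: all derivatives.  `bdt_of_loc`: bounds for near nodes suffice.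
-/

set_option autoImplicit false

open Topology Filter Metric

namespace Pool.Agent.G4.R

variable {V : Type*} [NormedAddCommGroup V] [NormedSpace ℂ V]

/-- bounded divided differences in the direction `ν` on `T ∩ ball y₀ r` -/
structure BDT (T : Set V) (ν a y₀ : V) (r : ℝ) (f : V → ℂ) : Prop where
  cont : ContinuousOn f (T ∩ ball y₀ r)
  hol : ∀ y ∈ T ∩ ball y₀ r, DifferentiableAt ℂ (fun z : ℂ => f (y + z • a)) 0
  bd : ∀ m : ℕ, ∃ C : ℝ, ∀ y ∈ T ∩ ball y₀ r, ∀ S : Finset ℝ, (∀ s ∈ S, y + (s : ℂ) • ν ∈ ball y₀ r) → S.card = m + 1 →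
    ‖Pool.Agent.G3.A.dd S (fun s : ℝ => f (y + (s : ℂ) • ν))‖ ≤ C

private theorem bdt_isOpen (y ν y₀ : V) (r : ℝ) : IsOpen {s : ℝ | y + (s : ℂ) • ν ∈ ball y₀ r} := by
  have h : Continuous fun s : ℝ => y + (s : ℂ) • ν := continuous_const.add (Complex.continuous_ofReal.smul continuous_const)
  exact isOpen_ball.preimage h

theorem BDT.deriv {T : Set V} {ν a y₀ : V} {r : ℝ} {f : V → ℂ} (h : BDT T ν a y₀ r f) (hT : ∀ y ∈ T, ∀ s : ℝ, y + (s : ℂ) • ν ∈ T) (hTa : ∀ y ∈ T, ∀ z : ℂ, y + z • a ∈ T) :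
    ∃ f' : V → ℂ, BDT T ν a y₀ r f' ∧ ∀ y ∈ T ∩ ball y₀ r, HasDerivAt (fun s : ℝ => f (y + (s : ℂ) • ν)) (f' y) 0 := by
  obtain ⟨C, hC⟩ := h.bd 2
  have h1 : ∀ y ∈ T ∩ ball y₀ r, ∃ v : ℂ, HasDerivAt (fun s : ℝ => f (y + (s : ℂ) • ν)) v 0 ∧ ∀ t : ℝ, y + (t : ℂ) • ν ∈ ball y₀ r → t ≠ 0 →
      ‖(t : ℝ)⁻¹ • (f (y + (t : ℂ) • ν) - f y) - v‖ ≤ C * |t| := by
    intro y hy
    have hI := bdt_isOpen y ν y₀ r
    have h0 : (0 : ℝ) ∈ {s : ℝ | y + (s : ℂ) • ν ∈ ball y₀ r} := by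
      show y + ((0 : ℝ) : ℂ) • ν ∈ ball y₀ r
      rw [Complex.ofReal_zero, zero_smul, add_zero]
      exact hy.2
    obtain ⟨v, hv, hv'⟩ := Pool.Agent.G3.A.dd_deriv hI (g := fun s : ℝ => f (y + (s : ℂ) • ν)) (C := C) (fun S hS hcard => hC y hy S hS hcard) h0
    refine ⟨v, hv, fun t ht ht0 => ?_⟩
    have h2 := hv' t ht ht0
    rw [sub_zero] at h2
    simp only [Complex.ofReal_zero, zero_smul, add_zero] at h2
    exact h2
  choose! f' hf' using h1
  refine ⟨f', ⟨?_, ?_, ?_⟩, fun y hy => (hf' y hy).1⟩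
  · -- continuity
    intro y hy
    refine continuousWithinAt_of_locally_uniform_approx_of_continuousWithinAt hy fun 𝒱 h𝒱 => ?_
    obtain ⟨ε, hε, hε𝒱⟩ := Metric.mem_uniformity_dist.1 h𝒱
    -- a small step
    have hc : Continuous fun q : V × ℝ => q.1 + (q.2 : ℂ) • ν := continuous_fst.add ((Complex.continuous_ofReal.comp continuous_snd).smul continuous_const)
    have hm : ∀ᶠ q in 𝓝 (y, (0 : ℝ)), q.1 + (q.2 : ℂ) • ν ∈ ball y₀ r := by
      refine hc.tendsto (y, (0 : ℝ)) (isOpen_ball.mem_nhds ?_)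
      show y + ((0 : ℝ) : ℂ) • ν ∈ ball y₀ r
      rw [Complex.ofReal_zero, zero_smul, add_zero]
      exact hy.2
    obtain ⟨s, hs, hsb⟩ := Metric.eventually_nhds_iff_ball.1 hm
    obtain ⟨t, ht0, hts, htC⟩ : ∃ t : ℝ, 0 < t ∧ t < s ∧ C * |t| < ε := by
      have hC1 : 0 < |C| + 1 := by positivity
      refine ⟨min (s / 2) (ε / (2 * (|C| + 1))), lt_min (by linarith) (by positivity), ?_, ?_⟩
      · exact (min_le_left _ _).trans_lt (by linarith)
      · have ht := min_le_right (s / 2) (ε / (2 * (|C| + 1)))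
        have h0 : 0 < min (s / 2) (ε / (2 * (|C| + 1))) := lt_min (by linarith) (by positivity)
        rw [abs_of_pos h0]
        have h3 : (|C| + 1) * min (s / 2) (ε / (2 * (|C| + 1))) ≤ (|C| + 1) * (ε / (2 * (|C| + 1))) := mul_le_mul_of_nonneg_left ht hC1.le
        have h4 : (|C| + 1) * (ε / (2 * (|C| + 1))) = ε / 2 := by field_simp
        have h5 : C * min (s / 2) (ε / (2 * (|C| + 1))) ≤ (|C| + 1) * min (s / 2) (ε / (2 * (|C| + 1))) := by
          refine mul_le_mul_of_nonneg_right ?_ h0.le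
          linarith [le_abs_self C]
        linarith
    have hbt : ∀ y' ∈ ball y s, y' + (t : ℂ) • ν ∈ ball y₀ r := fun y' hy' => hsb (y', t) (by
      rw [mem_ball, Prod.dist_eq]
      refine max_lt hy' ?_
      rw [dist_zero_right, Real.norm_eq_abs, abs_of_pos ht0]
      exact hts)
    refine ⟨T ∩ ball y₀ r ∩ ball y s, inter_mem self_mem_nhdsWithin (mem_nhdsWithin_of_mem_nhds (ball_mem_nhds y hs)), fun y' => (t : ℝ)⁻¹ • (f (y' + (t : ℂ) • ν) - f y'), ?_, ?_⟩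
    · have h2 : ContinuousWithinAt (fun y' => f (y' + (t : ℂ) • ν)) (T ∩ ball y₀ r) y := by
        have h3 : ContinuousWithinAt f (T ∩ ball y₀ r) (y + (t : ℂ) • ν) := h.cont _ ⟨hT y hy.1 t, hbt y (mem_ball_self hs)⟩
        have h4 : Tendsto (fun y' : V => y' + (t : ℂ) • ν) (𝓝[T ∩ ball y₀ r] y) (𝓝[T ∩ ball y₀ r] (y + (t : ℂ) • ν)) := by
          refine tendsto_nhdsWithin_iff.2 ⟨?_, ?_⟩
          · have : Continuous fun y' : V => y' + (t : ℂ) • ν := by fun_prop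
            exact (this.tendsto y).mono_left nhdsWithin_le_nhds
          · filter_upwards [inter_mem self_mem_nhdsWithin (mem_nhdsWithin_of_mem_nhds (ball_mem_nhds y hs))] with y' hy'
            exact ⟨hT y' hy'.1.1 t, hbt y' hy'.2⟩
        exact h3.tendsto.comp h4
      exact (h2.sub (h.cont y hy)).const_smul (t⁻¹ : ℝ)
    · intro y' hy'
      refine hε𝒱 ?_
      rw [dist_comm, dist_eq_norm]
      refine ((hf' y' hy'.1).2 t (hbt y' hy'.2) ht0.ne').trans_lt htC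
  · -- holomorphic in the direction `a`
    intro y hy
    have hc : Continuous fun q : ℝ × ℂ => y + q.2 • a + (q.1 : ℂ) • ν := (continuous_const.add (continuous_snd.smul continuous_const)).add ((Complex.continuous_ofReal.comp continuous_fst).smul continuous_const)
    have hm : ∀ᶠ q in 𝓝 ((0 : ℝ), (0 : ℂ)), y + q.2 • a + (q.1 : ℂ) • ν ∈ ball y₀ r := by
      refine hc.tendsto ((0 : ℝ), (0 : ℂ)) (isOpen_ball.mem_nhds ?_)
      show y + (0 : ℂ) • a + ((0 : ℝ) : ℂ) • ν ∈ ball y₀ r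
      rw [Complex.ofReal_zero, zero_smul, zero_smul, add_zero, add_zero]
      exact hy.2
    obtain ⟨s, hs, hsb⟩ := Metric.eventually_nhds_iff_ball.1 hm
    have hb : ∀ t : ℝ, |t| < s → ∀ z ∈ ball (0 : ℂ) s, y + z • a + (t : ℂ) • ν ∈ ball y₀ r := fun t ht z hz => hsb (t, z) (by
      rw [mem_ball, Prod.dist_eq]
      exact max_lt (by rwa [dist_zero_right]) hz)
    have hya : ∀ z ∈ ball (0 : ℂ) s, y + z • a ∈ T ∩ ball y₀ r := fun z hz => ⟨hTa y hy.1 z, by
      have h2 := hb 0 (by rwa [abs_zero]) z hz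
      rwa [Complex.ofReal_zero, zero_smul, add_zero] at h2⟩
    have hdiff : ∀ t : ℝ, |t| < s → DifferentiableOn ℂ (fun z : ℂ => f (y + z • a + (t : ℂ) • ν)) (ball (0 : ℂ) s) := by
      intro t ht z hz
      have h2 := h.hol (y + z • a + (t : ℂ) • ν) ⟨hT _ (hya z hz).1 t, hb t ht z hz⟩
      have h3 : HasDerivAt (fun z' : ℂ => z' - z) 1 z := (hasDerivAt_id z).sub_const z
      have h4 : DifferentiableAt ℂ (fun z' : ℂ => f (y + z • a + (t : ℂ) • ν + (z' - z) • a)) z := by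
        have h5 : DifferentiableAt ℂ (fun z'' : ℂ => f (y + z • a + (t : ℂ) • ν + z'' • a)) (z - z) := by rwa [sub_self]
        exact DifferentiableAt.comp (g := fun z'' : ℂ => f (y + z • a + (t : ℂ) • ν + z'' • a)) (f := fun z' : ℂ => z' - z) z h5 h3.differentiableAt
      refine (h4.congr_of_eventuallyEq (Eventually.of_forall fun z' => ?_)).differentiableWithinAt
      show f (y + z' • a + (t : ℂ) • ν) = f (y + z • a + (t : ℂ) • ν + (z' - z) • a)
      congr 1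
      rw [sub_smul]
      abel
    have h2 : TendstoUniformlyOn (fun (t : ℝ) (z : ℂ) => (t : ℝ)⁻¹ • (f (y + z • a + (t : ℂ) • ν) - f (y + z • a))) (fun z => f' (y + z • a)) (𝓝[≠] 0) (ball (0 : ℂ) s) := by
      rw [Metric.tendstoUniformlyOn_iff]
      intro ε hε
      have h3 : ∀ᶠ t : ℝ in 𝓝[≠] 0, C * |t| < ε := by
        have h4 : Tendsto (fun t : ℝ => C * |t|) (𝓝 0) (𝓝 (C * |(0 : ℝ)|)) := by
          have : Continuous fun t : ℝ => C * |t| := by fun_prop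
          exact this.tendsto 0
        rw [abs_zero, mul_zero] at h4
        exact (h4.eventually (gt_mem_nhds hε)).filter_mono nhdsWithin_le_nhds
      have h4 : ∀ᶠ t : ℝ in 𝓝[≠] 0, |t| < s := by
        have h5 : Tendsto (fun t : ℝ => |t|) (𝓝 0) (𝓝 |(0 : ℝ)|) := continuous_abs.tendsto 0
        rw [abs_zero] at h5
        exact (h5.eventually (gt_mem_nhds hs)).filter_mono nhdsWithin_le_nhds
      filter_upwards [h3, h4, self_mem_nhdsWithin] with t a1 a2 a3 z hz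
      rw [dist_comm, dist_eq_norm]
      exact ((hf' _ (hya z hz)).2 t (hb t a2 z hz) a3).trans_lt a1
    have h3 : DifferentiableOn ℂ (fun z => f' (y + z • a)) (ball (0 : ℂ) s) := by
      refine h2.tendstoLocallyUniformlyOn.differentiableOn ?_ isOpen_ball
      have h4 : ∀ᶠ t : ℝ in 𝓝[≠] 0, |t| < s := by
        have h5 : Tendsto (fun t : ℝ => |t|) (𝓝 0) (𝓝 |(0 : ℝ)|) := continuous_abs.tendsto 0
        rw [abs_zero] at h5
        exact (h5.eventually (gt_mem_nhds hs)).filter_mono nhdsWithin_le_nhds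
      filter_upwards [h4] with t ht
      have h5 := hdiff 0 (by rwa [abs_zero])
      simp only [Complex.ofReal_zero, zero_smul, add_zero] at h5
      exact ((hdiff t ht).sub h5).const_smul (t⁻¹ : ℝ)
    exact h3.differentiableAt (ball_mem_nhds 0 hs)
  · -- the bounds
    intro m
    obtain ⟨C', hC'⟩ := h.bd (m + 1)
    refine ⟨((m + 1 : ℕ) : ℝ) * C', fun y hy S hS hcard => ?_⟩
    have hI := bdt_isOpen y ν y₀ r
    have hg : ∀ s ∈ {s : ℝ | y + (s : ℂ) • ν ∈ ball y₀ r}, HasDerivAt (fun s : ℝ => f (y + (s : ℂ) • ν)) (f' (y + (s : ℂ) • ν)) s := by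
      intro s hs
      have h2 := (hf' (y + (s : ℂ) • ν) ⟨hT y hy.1 s, hs⟩).1
      have h3 : HasDerivAt (fun t : ℝ => t - s) 1 s := (hasDerivAt_id s).sub_const s
      have h4 : HasDerivAt (fun t : ℝ => f (y + (s : ℂ) • ν + (t : ℂ) • ν)) (f' (y + (s : ℂ) • ν)) (s - s) := by rwa [sub_self]
      have h5 := HasDerivAt.scomp (h := fun t : ℝ => t - s) (g₁ := fun t : ℝ => f (y + (s : ℂ) • ν + (t : ℂ) • ν)) s h4 h3
      rw [one_smul] at h5
      refine h5.congr_of_eventuallyEq (Eventually.of_forall fun t => ?_)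
      show f (y + (t : ℂ) • ν) = f (y + (s : ℂ) • ν + ((t - s : ℝ) : ℂ) • ν)
      congr 1
      rw [Complex.ofReal_sub, sub_smul]
      abel
    have h2 := Pool.Agent.G3.A.dd_deriv_bound hI (g := fun s : ℝ => f (y + (s : ℂ) • ν)) (g' := fun s : ℝ => f' (y + (s : ℂ) • ν)) (C := C') hg (S := S) hS
      (fun S' hS' hcard' => hC' y hy S' hS' (by omega))
    rwa [hcard] at h2

/-- all derivatives -/
theorem bdt_jet {T : Set V} {ν a y₀ : V} {r : ℝ} {f : V → ℂ} (h : BDT T ν a y₀ r f) (hT : ∀ y ∈ T, ∀ s : ℝ, y + (s : ℂ) • ν ∈ T) (hTa : ∀ y ∈ T, ∀ z : ℂ, y + z • a ∈ T) :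
    ∃ w : ℕ → V → ℂ, w 0 = f ∧ (∀ j, BDT T ν a y₀ r (w j)) ∧ ∀ j, ∀ y ∈ T ∩ ball y₀ r, HasDerivAt (fun s : ℝ => w j (y + (s : ℂ) • ν)) (w (j + 1) y) 0 := by
  classical
  have step : ∀ p : {g : V → ℂ // BDT T ν a y₀ r g}, ∃ p' : {g : V → ℂ // BDT T ν a y₀ r g}, ∀ y ∈ T ∩ ball y₀ r, HasDerivAt (fun s : ℝ => p.1 (y + (s : ℂ) • ν)) (p'.1 y) 0 := by
    rintro ⟨g, hg⟩
    obtain ⟨g', hg', hder⟩ := hg.deriv hT hTa
    exact ⟨⟨g', hg'⟩, hder⟩
  choose nxt hnxt using step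
  set U : ℕ → {g : V → ℂ // BDT T ν a y₀ r g} := fun n => Nat.rec ⟨f, h⟩ (fun _ p => nxt p) n with hU
  exact ⟨fun j => (U j).1, rfl, fun j => (U j).2, fun j y hy => hnxt (U j) y hy⟩

/-- bounds for nodes near `0` suffice -/
theorem bdt_of_loc {T : Set V} {ν y₀ : V} {r : ℝ} {f : V → ℂ} (hT : ∀ y ∈ T, ∀ s : ℝ, y + (s : ℂ) • ν ∈ T)
    (hloc : ∀ m : ℕ, ∃ η C : ℝ, 0 < η ∧ ∀ y ∈ T ∩ ball y₀ r, ∀ S : Finset ℝ, (∀ s ∈ S, |s| ≤ η) → (∀ s ∈ S, y + (s : ℂ) • ν ∈ ball y₀ r) → S.card = m + 1 →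
      ‖Pool.Agent.G3.A.dd S (fun s : ℝ => f (y + (s : ℂ) • ν))‖ ≤ C) (m : ℕ) :
    ∃ C : ℝ, ∀ y ∈ T ∩ ball y₀ r, ∀ S : Finset ℝ, (∀ s ∈ S, y + (s : ℂ) • ν ∈ ball y₀ r) → S.card = m + 1 → ‖Pool.Agent.G3.A.dd S (fun s : ℝ => f (y + (s : ℂ) • ν))‖ ≤ C := by
  classical
  -- nodes near a node
  have hnear : ∀ m : ℕ, ∃ η C : ℝ, 0 < η ∧ ∀ y ∈ T, ∀ S : Finset ℝ, ∀ s₀ ∈ S, (∀ s ∈ S, |s - s₀| ≤ η) → (∀ s ∈ S, y + (s : ℂ) • ν ∈ ball y₀ r) → S.card = m + 1 →
      ‖Pool.Agent.G3.A.dd S (fun s : ℝ => f (y + (s : ℂ) • ν))‖ ≤ C := by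
    intro m
    obtain ⟨η, C, hη, h⟩ := hloc m
    refine ⟨η, C, hη, fun y hy S s₀ hs₀ hS hSb hcard => ?_⟩
    have hinj : Function.Injective fun t : ℝ => t + s₀ := add_left_injective s₀
    have h1 := h (y + (s₀ : ℂ) • ν) ⟨hT y hy s₀, hSb s₀ hs₀⟩ (S.image fun t => t + -s₀) (fun s hs => ?_) (fun s hs => ?_) ?_
    · have h2 := Pool.Agent.G3.A.dd_image_add S (-s₀) (fun s : ℝ => f (y + (s₀ : ℂ) • ν + (s : ℂ) • ν))
      rw [h2] at h1
      have h3 : Pool.Agent.G3.A.dd S (fun t : ℝ => f (y + (s₀ : ℂ) • ν + ((t + -s₀ : ℝ) : ℂ) • ν)) = Pool.Agent.G3.A.dd S (fun s : ℝ => f (y + (s : ℂ) • ν)) := by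
        refine Pool.Agent.G3.A.dd_congr fun t _ => ?_
        congr 1
        rw [Complex.ofReal_add, Complex.ofReal_neg, add_smul, neg_smul]
        abel
      rwa [h3] at h1
    · obtain ⟨t, ht, rfl⟩ := Finset.mem_image.1 hs
      have := hS t ht
      rwa [sub_eq_add_neg] at this
    · obtain ⟨t, ht, rfl⟩ := Finset.mem_image.1 hs
      have e : y + (s₀ : ℂ) • ν + ((t + -s₀ : ℝ) : ℂ) • ν = y + (t : ℂ) • ν := by
        rw [Complex.ofReal_add, Complex.ofReal_neg, add_smul, neg_smul]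
        abel
      rw [e]
      exact hSb t ht
    · rw [Finset.card_image_of_injective S (add_left_injective (-s₀)), hcard]
  induction m with
  | zero =>
    obtain ⟨η, C, hη, h⟩ := hnear 0
    refine ⟨C, fun y hy S hS hcard => ?_⟩
    obtain ⟨s, rfl⟩ := Finset.card_eq_one.1 hcard
    refine h y hy.1 _ s (Finset.mem_singleton_self s) (fun t ht => ?_) hS hcard
    rw [Finset.mem_singleton] at ht
    rw [ht, sub_self, abs_zero]
    exact hη.le
  | succ m ih =>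
    obtain ⟨C', hC'⟩ := ih
    obtain ⟨η, C, hη, hC⟩ := hnear (m + 1)
    refine ⟨max C (η⁻¹ * (C' + C')), fun y hy S hS hcard => ?_⟩
    by_cases hfar : ∃ a ∈ S, ∃ b ∈ S, η < |b - a|
    · obtain ⟨a, ha, b, hb, hab⟩ := hfar
      have hne : a ≠ b := by
        rintro rfl
        rw [sub_self, abs_zero] at hab
        linarith
      obtain ⟨S₀, hS₀, hbS₀, haS₀⟩ : ∃ S₀ : Finset ℝ, insert a (insert b S₀) = S ∧ b ∉ S₀ ∧ a ∉ S₀ := by
        refine ⟨(S.erase a).erase b, ?_, Finset.notMem_erase b _, fun h => Finset.notMem_erase a S (Finset.mem_of_mem_erase h)⟩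
        rw [Finset.insert_erase (Finset.mem_erase.2 ⟨hne.symm, hb⟩), Finset.insert_erase ha]
      have hcard0 : S₀.card = m := by
        rw [← hS₀, Finset.card_insert_of_notMem, Finset.card_insert_of_notMem hbS₀] at hcard
        · omega
        · rw [Finset.mem_insert, not_or]
          exact ⟨hne, haS₀⟩
      have hsub : ∀ x ∈ S₀, y + ((x : ℝ) : ℂ) • ν ∈ ball y₀ r := fun x hx => hS x (by rw [← hS₀]; exact Finset.mem_insert_of_mem (Finset.mem_insert_of_mem hx))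
      have h1 : ‖Pool.Agent.G3.A.dd (insert b S₀) (fun s : ℝ => f (y + (s : ℂ) • ν))‖ ≤ C' := hC' y hy _ (fun x hx => by
        rcases Finset.mem_insert.1 hx with rfl | hx
        · exact hS x hb
        · exact hsub x hx) (by rw [Finset.card_insert_of_notMem hbS₀, hcard0])
      have h2 : ‖Pool.Agent.G3.A.dd (insert a S₀) (fun s : ℝ => f (y + (s : ℂ) • ν))‖ ≤ C' := hC' y hy _ (fun x hx => by
        rcases Finset.mem_insert.1 hx with rfl | hx
        · exact hS x ha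
        · exact hsub x hx) (by rw [Finset.card_insert_of_notMem haS₀, hcard0])
      rw [← hS₀, Pool.Agent.G3.A.dd_insert_insert hne haS₀ hbS₀, norm_smul, norm_inv, Real.norm_eq_abs]
      refine le_trans ?_ (le_max_right _ _)
      have h3 : |b - a|⁻¹ ≤ η⁻¹ := inv_anti₀ hη hab.le
      have h4 := (norm_sub_le (Pool.Agent.G3.A.dd (insert b S₀) (fun s : ℝ => f (y + (s : ℂ) • ν))) (Pool.Agent.G3.A.dd (insert a S₀) (fun s : ℝ => f (y + (s : ℂ) • ν)))).trans (add_le_add h1 h2)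
      exact mul_le_mul h3 h4 (norm_nonneg _) (inv_nonneg.2 hη.le)
    · push Not at hfar
      obtain ⟨a, ha⟩ : S.Nonempty := Finset.card_pos.1 (by omega)
      exact (hC y hy.1 S a ha (fun b hb => hfar a ha b hb) hS hcard).trans (le_max_left _ _)

end Pool.Agent.G4.R

end

section

/-!
# AD F Sep: the separation (S)

`exists_sep`: a point which is near two different branches of the finitely many doubly periodic curves `g i` is near one of finitely many points.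
Compactness modulo the periods.  At a pair `(i, a)`, `(j, b)` with `pr (g i a) ≠ pr (g j b)` the number `d` is bounded from below.  If the points are the same then either the germs are
the same up to a change `φ` of the variable; as the speed is one, `|φ'| = 1`, so `φ` is affine, and by uniqueness `i = j`; a rotation has a fixed point, where the derivative would be
zero; so `φ` is a translation by a period, and all the near pairs are equivalent; or the distance of `g i s` from `g j t` is at least `c |s - a| ^ M` (`local_branch`).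
-/

set_option autoImplicit false

open Topology Filter Metric

namespace Pool.Agent.AD.F.Sp

open Pool.Agent.H36.BP (EN wd)
open Pool.Agent.H14.PP (IsCone)
open Pool.Agent.H62.EF (pr pr_smul pr_eq_iff norm_pr nm Lat continuousAt_pr)

variable {N : ℕ} {X : Set (EN N)}

/-- two curves which agree near one point agree -/
theorem curve_uniq {F G : ℂ → EN N} (hF : Differentiable ℂ F) (hG : Differentiable ℂ G) (hF0 : ∀ z, F z ≠ 0) (hG0 : ∀ z, G z ≠ 0) {z₀ : ℂ}
    (h : ∀ᶠ z in 𝓝 z₀, pr (F z) = pr (G z)) (z : ℂ) : pr (F z) = pr (G z) := by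
  have hcoord : ∀ (H : ℂ → EN N), Differentiable ℂ H → ∀ i, Differentiable ℂ (fun z => H z i) := by
    intro H hH i
    have := (EuclideanSpace.proj (𝕜 := ℂ) i).differentiable.comp hH
    exact this
  have hmin : ∀ i j, ∀ z, F z i * G z j - F z j * G z i = 0 := by
    intro i j
    have hd : Differentiable ℂ (fun z => F z i * G z j - F z j * G z i) :=
      ((hcoord F hF i).mul (hcoord G hG j)).sub ((hcoord F hF j).mul (hcoord G hG i))
    have ha : AnalyticOnNhd ℂ (fun z => F z i * G z j - F z j * G z i) Set.univ :=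
      fun z _ => hd.analyticAt z
    have he : (fun z => F z i * G z j - F z j * G z i) =ᶠ[𝓝 z₀] 0 := by
      filter_upwards [h] with z hz
      obtain ⟨c, _, hc⟩ := (pr_eq_iff (hF0 z) (hG0 z)).1 hz
      have h1 : ∀ k, F z k = c * G z k := by
        intro k
        rw [hc]
        simp
      simp only [Pi.zero_apply]
      rw [h1 i, h1 j]
      ring
    intro z'
    have := ha.eqOn_zero_of_preconnected_of_eventuallyEq_zero isPreconnected_univ (Set.mem_univ z₀) he (Set.mem_univ z')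
    exact this
  obtain ⟨j, hj⟩ : ∃ j, G z j ≠ 0 := by
    by_contra hcon
    push Not at hcon
    apply hG0 z
    ext k
    simpa using hcon k
  have hFc : F z = (F z j / G z j) • G z := by
    ext k
    have h1 := hmin k j z
    simp only [PiLp.smul_apply, smul_eq_mul]
    field_simp
    linear_combination h1
  have hne : F z j / G z j ≠ 0 := by
    intro h'
    rw [h', zero_smul] at hFc
    exact hF0 z hFc
  exact (pr_eq_iff (hF0 z) (hG0 z)).2 ⟨_, hne, hFc⟩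

variable {ι : Type}

end Pool.Agent.AD.F.Sp

namespace Pool.Agent.AD.F

open Sp
open Pool.Agent.H36.BP (EN wd)
open Pool.Agent.H14.PP (IsCone)
open Pool.Agent.H62.EF (pr pr_smul pr_eq_iff norm_pr nm Lat continuousAt_pr)

variable {N : ℕ} {X : Set (EN N)} {ι : Type}

end Pool.Agent.AD.F

end

section

/-!
# Evaluation along one-parameter groups
-/

open MvPolynomial Topology Filter
open Pool.Agent.H17 (PN VanishesAt zeroLocus ZariskiClosedIn vanishesAt_mk_iff)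

noncomputable section

namespace Pool.Agent.H62.FC

variable {N : ℕ} {κ : Type} {A : κ → MvPolynomial (Fin (N + 1)) ℂ} {e : κ → ℕ}
  {O : Finset (Fin (N + 1))} {P : Ideal (MvPolynomial (Fin (N + 1)) ℂ)}

/-- The condition on the coordinates does not depend on the representative. -/
lemma rep_ne_zero_iff (a : Fin (N + 1) → ℂ) (ha : a ≠ 0) (i : Fin (N + 1)) :
    (Projectivization.mk ℂ a ha).rep i ≠ 0 ↔ a i ≠ 0 := by
  obtain ⟨c, hc, h⟩ := Pool.Agent.H17.exists_smul_rep a ha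
  rw [h, Pi.smul_apply, smul_eq_mul]
  constructor
  · intro h1 h2
    exact h1 (by rw [h2, mul_zero])
  · intro h1
    exact mul_ne_zero hc h1

lemma mk_mem_primeLocus (a : Fin (N + 1) → ℂ) (ha : a ≠ 0) :
    Projectivization.mk ℂ a ha ∈ primeLocus P O ↔
      (∀ Q ∈ P, ∀ n, Q.IsHomogeneous n → eval a Q = 0) ∧ ∀ i ∈ O, a i ≠ 0 := by
  constructor
  · rintro ⟨h1, h2⟩
    exact ⟨fun Q hQ n hn => (vanishesAt_mk_iff hn a ha).mp (h1 Q hQ n hn),
      fun i hi => (rep_ne_zero_iff a ha i).mp (h2 i hi)⟩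
  · rintro ⟨h1, h2⟩
    exact ⟨fun Q hQ n hn => (vanishesAt_mk_iff hn a ha).mpr (h1 Q hQ n hn),
      fun i hi => (rep_ne_zero_iff a ha i).mpr (h2 i hi)⟩

end Pool.Agent.H62.FC

end
end

section

/-!
# The Nullstellensatz for loci with nonzero coordinates and the exceptional set
-/

noncomputable section

namespace Pool.Agent.H62.FC

open MvPolynomial Topology Filter
open Pool.Agent.H17 (PN VanishesAt zeroLocus ZariskiClosedIn HolomorphicInto puncturedDisc vanishesAt_mk_iff)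

variable {N : ℕ} {κ : Type} {A : κ → MvPolynomial (Fin (N + 1)) ℂ} {e : κ → ℕ}
  {O : Finset (Fin (N + 1))} {P : Ideal (MvPolynomial (Fin (N + 1)) ℂ)}

/-! D-V -/
theorem mem_of_vanishes [P.IsPrime] (hP : Homog P) {S : Finset (Fin (N + 1))}
    (hS : ∀ i ∈ S, X i ∉ P) (hne : ∃ i, X i ∉ P) {m : ℕ} {F : MvPolynomial (Fin (N + 1)) ℂ}
    (hF : F.IsHomogeneous m) (h : ∀ x ∈ primeLocus P S, VanishesAt F x) : F ∈ P := by
  obtain ⟨i1, hi1⟩ := hne
  have hG : F * (∏ i ∈ S, X i) * X i1 ∈ P := by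
    rw [← MvPolynomial.IsPrime.vanishingIdeal_zeroLocus (K := ℂ) P,
      MvPolynomial.mem_vanishingIdeal_iff]
    intro v hv
    rw [MvPolynomial.aeval_eq_eval]
    have hv' : ∀ Q ∈ P, eval v Q = 0 := fun Q hQ => by
      have h1 := hv Q hQ
      rwa [MvPolynomial.aeval_eq_eval] at h1
    change eval v (F * (∏ i ∈ S, X i) * X i1) = 0
    rw [map_mul, map_mul, map_prod]
    simp only [eval_X]
    by_cases hv0 : v = 0
    · rw [hv0]
      simp
    · by_cases hz : ∃ i ∈ S, v i = 0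
      · obtain ⟨i, hi, hvi⟩ := hz
        rw [Finset.prod_eq_zero hi hvi]
        simp
      · push Not at hz
        have h1 : Projectivization.mk ℂ v hv0 ∈ primeLocus P S :=
          (mk_mem_primeLocus v hv0).2 ⟨fun Q hQ _ _ => hv' Q hQ, hz⟩
        have h2 := h _ h1
        rw [vanishesAt_mk_iff hF v hv0] at h2
        rw [h2]
        simp
  have hpr : P.IsPrime := inferInstance
  rcases hpr.mem_or_mem hG with h1 | h1
  · rcases hpr.mem_or_mem h1 with h2 | h2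
    · exact h2
    · exfalso
      obtain ⟨i, hi, h3⟩ := (hpr.prod_mem_iff).1 h2
      exact hS i hi h3
  · exact absurd h1 hi1

/-! D-A -/

end Pool.Agent.H62.FC

end
end

section

/-!
# Bir Open: the four properties for Zariski open subsets of projective varieties

`open_four`: if the closed subvariety `X` of `ℙ^N` has the properties of the conjecture with the exceptional set `Ξ`, then every nonempty Zariski
open subset `U` of `X` has them with the exceptional set `Ξ ∩ U`.  `bir_open_four`: if `X` has the properties, then every quasi-projective variety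
which is birational to `X` has them.
-/

set_option autoImplicit false

open Topology Filter MvPolynomial

noncomputable section

namespace Pool.Agent.H7.Bir

open Pool.Agent.H17 (PN VanishesAt HolomorphicInto puncturedDisc vanishesAt_mk_iff ZariskiClosedIn)
open Pool.Agent.H17GT (coordFun)
open Pool.Agent.H17LG.Variety (FunField IsLogGeneralType)
open Pool.Agent.H62.FC (Homog)
open Pool.Agent.H62.SA (locVar OnBd)

variable {N M : ℕ}

/-- A variety of general type is of log general type with respect to every boundary. -/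
theorem logGT_of_gt {K : Type} [Field K] [Algebra ℂ K] {k : ℕ}
    (h : IsLogGeneralType (K := K) (k := k) fun _ => False) (B : Pool.Agent.H23.Fano.PrimeDivisorOver K k → Prop) : IsLogGeneralType (K := K) (k := k) B := by
  obtain ⟨m, hm, ω, hω, r, f, hf, h1, h2⟩ := h
  refine ⟨m, hm, ω, hω, r, f, hf, fun i E => ⟨fun _ => (h1 i E).1 (fun h => h), fun _ => ?_⟩, h2⟩
  obtain ⟨g, η, hη, hg, ho⟩ := (h1 i E).1 (fun h => h)
  refine ⟨g, η, hη, hg, ?_⟩
  exact le_trans ho (add_le_add le_rfl (by exact_mod_cast Nat.zero_le m))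

/-- A form which vanishes on a nonempty Zariski open subset belongs to the ideal. -/
theorem mem_of_open {P : Ideal (MvPolynomial (Fin (N + 1)) ℂ)} [P.IsPrime] (hP : Homog P) {s : ℕ}
    {G : Fin s → MvPolynomial (Fin (N + 1)) ℂ} (hG : ∀ m, ∃ n, (G m).IsHomogeneous n) (hne : (locVar P G).Nonempty)
    {R : MvPolynomial (Fin (N + 1)) ℂ} {n : ℕ} (hR : R.IsHomogeneous n) (h : ∀ x ∈ locVar P G, VanishesAt R x) : R ∈ P := by
  obtain ⟨x, hx, m, hm⟩ := hne
  obtain ⟨d, hd⟩ := hG m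
  have hGm : G m ∉ P := fun h1 => hm (hx _ h1 d hd)
  have hX : ∃ i, X i ∉ P := by
    by_contra hcon
    push Not at hcon
    have h1 : ∀ i, x.rep i = 0 := by
      intro i
      have h2 := hx _ (hcon i) 1 (isHomogeneous_X ℂ i)
      unfold VanishesAt at h2
      rwa [eval_X] at h2
    exact x.rep_nonzero (funext h1)
  have h1 : R * G m ∈ P := by
    refine Pool.Agent.H62.FC.mem_of_vanishes hP (S := ∅) (fun i hi => absurd hi (Finset.notMem_empty i)) hX (hR.mul hd) ?_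
    intro y hy
    unfold VanishesAt
    rw [map_mul]
    by_cases h2 : VanishesAt (G m) y
    · rw [show eval y.rep (G m) = 0 from h2, mul_zero]
    · rw [show eval y.rep R = 0 from h y ⟨hy.1, m, h2⟩, zero_mul]
  exact ((inferInstance : P.IsPrime).mem_or_mem h1).resolve_right hGm

end Pool.Agent.H7.Bir

end
end

section

/-!
# G4 C ChebU: extension in a real parameter, uniform version

`coef_of_ext`: if `f` extends to complex `s` then the Fourier coefficients `cf n` of `θ ↦ f (s₀ + δ cos θ) z` are at most `C 2^(-n)`.  `ext_of_coef`: conversely, if this holds for `z` in a small disc then `f` extends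
over a large disc, with a radius in `s` which depends only on the radii.  `cf_param`: the coefficients are continuous in a parameter.
-/

set_option autoImplicit false

open Topology Filter Metric Set MeasureTheory

namespace Pool.Agent.G4.C

open Pool.Agent.G3.C (cf)

private theorem cs_mem {s₀ δ : ℝ} (hδ : 0 ≤ δ) (θ : ℝ) : s₀ + δ * Real.cos θ ∈ Icc (s₀ - δ) (s₀ + δ) := by
  have h1 := Real.neg_one_le_cos θ
  have h2 := Real.cos_le_one θ
  constructor <;> nlinarith only [hδ, h1, h2]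

private theorem cf_neg (f : ℝ → ℂ → ℂ) (s₀ δ : ℝ) (n : ℤ) (z : ℂ) : cf f s₀ δ (-n) z = cf f s₀ δ n z := by
  unfold cf
  congr 1
  have h := intervalIntegral.integral_comp_sub_left (a := 0) (b := 2 * Real.pi)
    (fun θ : ℝ => Complex.exp (-((n : ℂ) * θ * Complex.I)) * f (s₀ + δ * Real.cos θ) z) (2 * Real.pi)
  rw [sub_self, sub_zero] at h
  rw [← h]
  refine intervalIntegral.integral_congr fun θ _ => ?_
  rw [Real.cos_two_pi_sub]
  congr 1
  rw [show -((n : ℂ) * ((2 * Real.pi - θ : ℝ) : ℂ) * Complex.I) = -((((-n : ℤ)) : ℂ) * θ * Complex.I) + ((-n : ℤ) : ℂ) * (2 * Real.pi * Complex.I) by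
    push_cast; ring, Complex.exp_add, Complex.exp_int_mul_two_pi_mul_I, mul_one]

private theorem cf_cont {f : ℝ → ℂ → ℂ} {s₀ δ : ℝ} (hδ : 0 ≤ δ) {U : Set ℂ}
    (hc : ContinuousOn (fun p : ℝ × ℂ => f p.1 p.2) (Icc (s₀ - δ) (s₀ + δ) ×ˢ U)) {z : ℂ} (hz : z ∈ U) :
    Continuous fun θ : ℝ => f (s₀ + δ * Real.cos θ) z := by
  have h1 : Continuous fun θ : ℝ => ((s₀ + δ * Real.cos θ, z) : ℝ × ℂ) := by fun_prop
  exact hc.comp_continuous h1 fun θ => ⟨cs_mem hδ θ, hz⟩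

private theorem cf_le {f : ℝ → ℂ → ℂ} {s₀ δ : ℝ} (hδ : 0 ≤ δ) {z : ℂ} {M : ℝ} (hM : ∀ s ∈ Icc (s₀ - δ) (s₀ + δ), ‖f s z‖ ≤ M) (n : ℤ) :
    ‖cf f s₀ δ n z‖ ≤ M := by
  unfold cf
  have hpi := Real.pi_pos
  rw [norm_smul, Real.norm_of_nonneg (by positivity)]
  have h1 : ‖∫ θ in (0 : ℝ)..2 * Real.pi, Complex.exp (-(n * θ * Complex.I)) * f (s₀ + δ * Real.cos θ) z‖ ≤ M * |2 * Real.pi - 0| := by
    refine intervalIntegral.norm_integral_le_of_norm_le_const fun θ _ => ?_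
    rw [norm_mul]
    have h2 : ‖Complex.exp (-((n : ℂ) * θ * Complex.I))‖ = 1 := by
      rw [show -((n : ℂ) * θ * Complex.I) = ((-(n * θ) : ℝ) : ℂ) * Complex.I by push_cast; ring, Complex.norm_exp_ofReal_mul_I]
    rw [h2, one_mul]
    exact hM _ (cs_mem hδ θ)
  rw [sub_zero, abs_of_pos (by positivity)] at h1
  calc 1 / (2 * Real.pi) * ‖∫ θ in (0 : ℝ)..2 * Real.pi, Complex.exp (-(n * θ * Complex.I)) * f (s₀ + δ * Real.cos θ) z‖
      ≤ 1 / (2 * Real.pi) * (M * (2 * Real.pi)) := by gcongr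
    _ = M := by field_simp

private theorem cf_hol {f : ℝ → ℂ → ℂ} {s₀ δ : ℝ} (hδ : 0 ≤ δ) {U : Set ℂ} (hU : IsOpen U)
    (hc : ContinuousOn (fun p : ℝ × ℂ => f p.1 p.2) (Icc (s₀ - δ) (s₀ + δ) ×ˢ U))
    (hh : ∀ s ∈ Icc (s₀ - δ) (s₀ + δ), DifferentiableOn ℂ (f s) U) (n : ℤ) : DifferentiableOn ℂ (cf f s₀ δ n) U := by
  have hpi := Real.pi_pos
  suffices hm : DifferentiableOn ℂ (fun z => ∫ θ in (0 : ℝ)..2 * Real.pi, Complex.exp (-(n * θ * Complex.I)) * f (s₀ + δ * Real.cos θ) z) U from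
    hm.const_smul (1 / (2 * Real.pi) : ℝ)
  have e : (fun z => ∫ θ in (0 : ℝ)..2 * Real.pi, Complex.exp (-(n * θ * Complex.I)) * f (s₀ + δ * Real.cos θ) z) =
      fun z => ∫ θ in Ioc (0 : ℝ) (2 * Real.pi), Complex.exp (-(n * θ * Complex.I)) * f (s₀ + δ * Real.cos θ) z := by
    funext z
    rw [intervalIntegral.integral_of_le (by positivity)]
  rw [e]
  have hcz : ∀ z ∈ U, Continuous fun θ : ℝ => Complex.exp (-((n : ℂ) * θ * Complex.I)) * f (s₀ + δ * Real.cos θ) z := fun z hz =>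
    Continuous.mul (by fun_prop) (cf_cont hδ hc hz)
  refine Pool.Agent.H97.SE.par_hol hU measurableSet_Ioc (F := fun z θ => Complex.exp (-((n : ℂ) * θ * Complex.I)) * f (s₀ + δ * Real.cos θ) z)
    (fun θ _ => (hh _ (cs_mem hδ θ)).const_mul _) (fun z hz => (hcz z hz).aestronglyMeasurable) fun z₀ hz₀ => ?_
  obtain ⟨r, hr, hrU⟩ := Metric.nhds_basis_closedBall.mem_iff.1 (hU.mem_nhds hz₀)
  have hK : IsCompact (Icc (s₀ - δ) (s₀ + δ) ×ˢ closedBall z₀ r) := isCompact_Icc.prod (isCompact_closedBall z₀ r)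
  obtain ⟨C, hC⟩ := hK.exists_bound_of_continuousOn (hc.mono (prod_mono le_rfl hrU))
  refine ⟨r, hr, fun _ => C, integrableOn_const measure_Ioc_lt_top.ne , fun z _ hz θ _ => ?_⟩
  rw [norm_mul]
  have h2 : ‖Complex.exp (-((n : ℂ) * θ * Complex.I))‖ = 1 := by
    rw [show -((n : ℂ) * θ * Complex.I) = ((-(n * θ) : ℝ) : ℂ) * Complex.I by push_cast; ring, Complex.norm_exp_ofReal_mul_I]
  rw [h2, one_mul]
  exact hC (s₀ + δ * Real.cos θ, z) ⟨cs_mem hδ θ, by rw [mem_closedBall, dist_eq_norm]; exact hz.le⟩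

/-- the bound of the coefficients where `f` extends -/
private theorem cf_geo {f : ℝ → ℂ → ℂ} {s₀ δ : ℝ} (hδ : 0 < δ) {z : ℂ} {g : ℂ → ℂ} {C : ℝ}
    (hg : DifferentiableOn ℂ g (ball (s₀ : ℂ) (2 * δ))) (hgC : ∀ ζ ∈ closedBall (s₀ : ℂ) (3 / 2 * δ), ‖g ζ‖ ≤ C)
    (hgf : ∀ s ∈ Icc (s₀ - δ) (s₀ + δ), g s = f s z) (n : ℕ) : ‖cf f s₀ δ n z‖ ≤ C * (1 / 2) ^ n := by
  have hpi := Real.pi_pos
  -- the Joukowski map
  obtain ⟨J, hJ⟩ : ∃ J : ℂ → ℂ, ∀ w, J w = s₀ + δ * ((w + w⁻¹) / 2) := ⟨_, fun w => rfl⟩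
  have hJn : ∀ w : ℂ, 1 ≤ ‖w‖ → ‖w‖ ≤ 2 → J w ∈ closedBall (s₀ : ℂ) (3 / 2 * δ) := by
    intro w h1 h2
    rw [mem_closedBall, dist_eq_norm, hJ, add_sub_cancel_left, norm_mul, Complex.norm_real, Real.norm_of_nonneg hδ.le, norm_div]
    have h3 : ‖w + w⁻¹‖ ≤ 2 + 1 := by
      refine (norm_add_le _ _).trans (add_le_add h2 ?_)
      rw [norm_inv]
      exact inv_le_one_of_one_le₀ h1
    have h4 : ‖(2 : ℂ)‖ = 2 := by simp
    rw [h4]
    nlinarith only [hδ, h3]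
  have hsub : closedBall (s₀ : ℂ) (3 / 2 * δ) ⊆ ball (s₀ : ℂ) (2 * δ) := closedBall_subset_ball (by linarith only [hδ])
  have hJd : ∀ w : ℂ, w ≠ 0 → DifferentiableAt ℂ J w := by
    intro w hw
    have : J = fun w => (s₀ : ℂ) + δ * ((w + w⁻¹) / 2) := funext hJ
    rw [this]
    fun_prop (disch := exact hw)
  obtain ⟨H, hH⟩ : ∃ H : ℂ → ℂ, ∀ w, H w = (w ^ (n + 1))⁻¹ * g (J w) := ⟨_, fun w => rfl⟩
  have hHd : ∀ w : ℂ, 1 ≤ ‖w‖ → ‖w‖ ≤ 2 → DifferentiableAt ℂ H w := by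
    intro w h1 h2
    have hw : w ≠ 0 := by
      intro h
      rw [h, norm_zero] at h1
      linarith
    have e : H = fun w => (w ^ (n + 1))⁻¹ * g (J w) := funext hH
    rw [e]
    have h3 : DifferentiableAt ℂ g (J w) := hg.differentiableAt (isOpen_ball.mem_nhds (hsub (hJn w h1 h2)))
    exact ((differentiableAt_id.pow _).inv (pow_ne_zero _ hw)).mul (h3.comp w (hJd w hw))
  have hann : (∮ w in C(0, 2), H w) = ∮ w in C(0, 1), H w := by
    refine Complex.circleIntegral_eq_of_differentiable_on_annulus_off_countable one_pos one_le_two countable_empty ?_ ?_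
    · intro w hw
      have h2 : ‖w‖ ≤ 2 := by simpa using hw.1
      have h1 : 1 ≤ ‖w‖ := by simpa using hw.2
      exact (hHd w h1 h2).continuousAt.continuousWithinAt
    · rintro w ⟨⟨h2, h1⟩, -⟩
      have h2' : ‖w‖ ≤ 2 := by
        have : ‖w‖ < 2 := by simpa using h2
        exact this.le
      have h1' : 1 ≤ ‖w‖ := by
        have : 1 < ‖w‖ := by simpa using h1
        exact this.le
      exact hHd w h1' h2'
  have h1 : (∮ w in C(0, 1), H w) = Complex.I * ∫ θ in (0 : ℝ)..2 * Real.pi, Complex.exp (-(((n : ℤ) : ℂ) * θ * Complex.I)) * f (s₀ + δ * Real.cos θ) z := by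
    rw [circleIntegral, ← intervalIntegral.integral_const_mul]
    refine intervalIntegral.integral_congr fun θ _ => ?_
    simp only [deriv_circleMap, smul_eq_mul]
    have e1 : circleMap 0 1 θ = Complex.exp (θ * Complex.I) := by simp [circleMap]
    rw [e1, hH]
    have e2 : J (Complex.exp (θ * Complex.I)) = ((s₀ + δ * Real.cos θ : ℝ) : ℂ) := by
      rw [hJ, ← Complex.exp_neg]
      push_cast
      rw [Complex.cos]
      ring_nf
    rw [e2, hgf _ (cs_mem hδ.le θ), ← Complex.exp_nat_mul, ← Complex.exp_neg]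
    have e3 : Complex.exp (θ * Complex.I) * Complex.exp (-(((n + 1 : ℕ) : ℂ) * (θ * Complex.I))) = Complex.exp (-(((n : ℤ) : ℂ) * θ * Complex.I)) := by
      rw [← Complex.exp_add]
      congr 1
      push_cast
      ring
    calc Complex.exp (θ * Complex.I) * Complex.I * (Complex.exp (-(((n + 1 : ℕ) : ℂ) * (θ * Complex.I))) * f (s₀ + δ * Real.cos θ) z)
        = Complex.I * ((Complex.exp (θ * Complex.I) * Complex.exp (-(((n + 1 : ℕ) : ℂ) * (θ * Complex.I)))) * f (s₀ + δ * Real.cos θ) z) := by ring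
      _ = _ := by rw [e3]
  have h2 : ‖∮ w in C(0, 2), H w‖ ≤ 2 * Real.pi * 2 * (((2 : ℝ) ^ (n + 1))⁻¹ * C) := by
    refine circleIntegral.norm_integral_le_of_norm_le_const (by norm_num) fun w hw => ?_
    have hw2 : ‖w‖ = 2 := by simpa using hw
    rw [hH, norm_mul, norm_inv, norm_pow, hw2]
    gcongr
    exact hgC _ (hJn w (by rw [hw2]; norm_num) hw2.le)
  rw [hann, h1, norm_mul, Complex.norm_I, one_mul] at h2
  unfold cf
  rw [norm_smul, Real.norm_of_nonneg (by positivity)]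
  calc 1 / (2 * Real.pi) * ‖∫ θ in (0 : ℝ)..2 * Real.pi, Complex.exp (-(((n : ℤ) : ℂ) * θ * Complex.I)) * f (s₀ + δ * Real.cos θ) z‖
      ≤ 1 / (2 * Real.pi) * (2 * Real.pi * 2 * (((2 : ℝ) ^ (n + 1))⁻¹ * C)) := by gcongr
    _ = C * (1 / 2) ^ n := by
      rw [pow_succ, one_div, one_div, inv_pow]
      field_simp

/-- Fourier inversion -/
private theorem cf_sum {f : ℝ → ℂ → ℂ} {s₀ δ : ℝ} {z : ℂ} (hc : Continuous fun θ : ℝ => f (s₀ + δ * Real.cos θ) z)
    (hs : Summable fun n : ℕ => cf f s₀ δ n z) (θ : ℝ) :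
    HasSum (fun n : ℕ => 2 * cf f s₀ δ n z * Complex.cos (n * θ)) (f (s₀ + δ * Real.cos θ) z + cf f s₀ δ 0 z) := by
  have : Fact (0 < 2 * Real.pi) := ⟨Real.two_pi_pos⟩
  have hper : Function.Periodic (fun θ : ℝ => f (s₀ + δ * Real.cos θ) z) (2 * Real.pi) := fun θ => by
    simp only [Real.cos_add_two_pi]
  obtain ⟨h, hh⟩ : ∃ h : C(AddCircle (2 * Real.pi), ℂ), ∀ θ : ℝ, h θ = f (s₀ + δ * Real.cos θ) z := by
    refine ⟨⟨hper.lift, ?_⟩, fun θ => hper.lift_coe θ⟩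
    exact continuous_coinduced_dom.2 hc
  have hcoef : ∀ n : ℤ, fourierCoeff h n = cf f s₀ δ n z := by
    intro n
    rw [fourierCoeff_eq_intervalIntegral _ n 0, zero_add]
    unfold cf
    congr 1
    refine intervalIntegral.integral_congr fun θ _ => ?_
    rw [fourier_coe_apply, hh, smul_eq_mul]
    congr 2
    have hpi : (Real.pi : ℂ) ≠ 0 := by exact_mod_cast Real.pi_ne_zero
    push_cast
    field_simp
  have hsum : Summable (fourierCoeff h) := by
    have e : fourierCoeff h = fun n : ℤ => cf f s₀ δ n z := funext hcoef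
    rw [e]
    refine Summable.of_nat_of_neg hs ?_
    simp only [cf_neg]
    exact hs
  have h1 := (has_pointwise_sum_fourier_series_of_summable hsum (θ : AddCircle (2 * Real.pi))).nat_add_neg
  rw [hh] at h1
  simp only [hcoef, smul_eq_mul] at h1
  have h2 : (fourier (0 : ℤ)) ((θ : ℝ) : AddCircle (2 * Real.pi)) = 1 := by simp
  rw [h2, mul_one] at h1
  have e : (fun n : ℕ => 2 * cf f s₀ δ n z * Complex.cos (n * θ)) = fun n : ℕ => cf f s₀ δ n z * (fourier (n : ℤ)) ((θ : ℝ) : AddCircle (2 * Real.pi)) +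
      cf f s₀ δ (-(n : ℤ)) z * (fourier (-(n : ℤ))) ((θ : ℝ) : AddCircle (2 * Real.pi)) := by
    funext n
    rw [cf_neg, fourier_coe_apply, fourier_coe_apply, Complex.cos]
    have hpi : (Real.pi : ℂ) ≠ 0 := by exact_mod_cast Real.pi_ne_zero
    have e1 : (2 * Real.pi * Complex.I * ((n : ℤ) : ℂ) * θ / ((2 * Real.pi : ℝ) : ℂ) : ℂ) = n * θ * Complex.I := by
      push_cast
      field_simp
    have e2 : (2 * Real.pi * Complex.I * ((-(n : ℤ) : ℤ) : ℂ) * θ / ((2 * Real.pi : ℝ) : ℂ) : ℂ) = -(n * θ) * Complex.I := by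
      push_cast
      field_simp
    rw [e1, e2]
    ring
  rw [e]
  exact h1

/-- the growth of the Chebyshev polynomials near `0` -/
private theorem cb_le {ρ : ℝ} (hρ : 1 ≤ ρ) {x : ℂ} (hx : 2 * ‖x‖ ≤ ρ - ρ⁻¹) (n : ℕ) : ‖(Polynomial.Chebyshev.T ℂ n).eval x‖ ≤ ρ ^ n := by
  have hρ0 : 0 < ρ := by linarith
  have hinv : 0 < ρ⁻¹ := inv_pos.2 hρ0
  induction n using Nat.twoStepInduction with
  | zero => simp
  | one =>
    simp only [Nat.cast_one, Polynomial.Chebyshev.T_one, Polynomial.eval_X, pow_one]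
    linarith only [hρ, hx, hinv]
  | more n h1 h2 =>
    have e : Polynomial.Chebyshev.T ℂ ((n + 2 : ℕ) : ℤ) = 2 * Polynomial.X * Polynomial.Chebyshev.T ℂ ((n + 1 : ℕ) : ℤ) - Polynomial.Chebyshev.T ℂ (n : ℤ) := by
      have := Polynomial.Chebyshev.T_add_two ℂ (n : ℤ)
      push_cast
      exact this
    rw [e]
    simp only [Polynomial.eval_sub, Polynomial.eval_mul, Polynomial.eval_X, Polynomial.eval_ofNat]
    refine (norm_sub_le _ _).trans ?_
    rw [norm_mul, norm_mul]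
    have h3 : ‖(2 : ℂ)‖ = 2 := by simp
    rw [h3]
    have h4 : 2 * ‖x‖ * ‖(Polynomial.Chebyshev.T ℂ ((n + 1 : ℕ) : ℤ)).eval x‖ ≤ (ρ - ρ⁻¹) * ρ ^ (n + 1) := by
      gcongr
      linarith [norm_nonneg x]
    have h5 : (ρ - ρ⁻¹) * ρ ^ (n + 1) + ρ ^ n = ρ ^ (n + 2) := by
      have : ρ⁻¹ * ρ ^ (n + 1) = ρ ^ n := by rw [pow_succ']; field_simp
      rw [sub_mul, this]
      ring
    linarith only [h1, h4, h5]

/-- the coefficients are small on the large ball -/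
private theorem cf_small {R r₁ R' : ℝ} (hr₁ : 0 < r₁) (h₁ : r₁ < R') (hR' : R' < R) :
    ∃ q : ℝ, 0 < q ∧ q < 1 ∧ ∀ {f : ℝ → ℂ → ℂ} {s₀ δ : ℝ} (_ : 0 < δ) {z₁ : ℂ} (_ : ContinuousOn (fun p : ℝ × ℂ => f p.1 p.2) (Icc (s₀ - δ) (s₀ + δ) ×ˢ ball z₁ R))
      (_ : ∀ s ∈ Icc (s₀ - δ) (s₀ + δ), DifferentiableOn ℂ (f s) (ball z₁ R)) {C M : ℝ} (_ : ∀ s ∈ Icc (s₀ - δ) (s₀ + δ), ∀ z ∈ ball z₁ R, ‖f s z‖ ≤ M)
      (_ : ∀ z ∈ closedBall z₁ r₁, ∀ n : ℕ, ‖cf f s₀ δ n z‖ ≤ C * (1 / 2) ^ n), ∀ z ∈ ball z₁ R', ∀ n : ℕ, ‖cf f s₀ δ n z‖ ≤ max 1 (max C M) * q ^ n := by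
  obtain ⟨R₃, hR₃⟩ : ∃ R₃, R₃ = (R' + R) / 2 := ⟨_, rfl⟩
  have h3 : R' < R₃ := by rw [hR₃]; linarith
  have h4 : R₃ < R := by rw [hR₃]; linarith
  have hR'0 : 0 < R' := hr₁.trans h₁
  have hlog : 0 < Real.log (R₃ / r₁) := Real.log_pos (by rw [one_lt_div hr₁]; linarith)
  obtain ⟨α, hα⟩ : ∃ α, α = Real.log (R₃ / R') / Real.log (R₃ / r₁) := ⟨_, rfl⟩
  obtain ⟨β, hβ⟩ : ∃ β, β = Real.log (R' / r₁) / Real.log (R₃ / r₁) := ⟨_, rfl⟩
  have hα0 : 0 < α := by
    rw [hα]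
    exact div_pos (Real.log_pos (by rw [one_lt_div hR'0]; exact h3)) hlog
  have hαβ : α + β = 1 := by
    have hR₃0 : 0 < R₃ := by linarith
    rw [hα, hβ, ← add_div, ← Real.log_mul (by positivity) (by positivity), div_mul_div_cancel₀ hR'0.ne', div_self hlog.ne']
  refine ⟨(1 / 2) ^ α, by positivity, Real.rpow_lt_one (by norm_num) (by norm_num) hα0, fun {f s₀ δ} hδ {z₁} hc hh {C M} hM hC z hz n => ?_⟩
  obtain ⟨K, hKd⟩ : ∃ K, K = max 1 (max C M) := ⟨_, rfl⟩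
  have hK1 : 1 ≤ K := by rw [hKd]; exact le_max_left _ _
  have hKC : C ≤ K := by rw [hKd]; exact (le_max_left _ _).trans (le_max_right _ _)
  have hKM : M ≤ K := by rw [hKd]; exact (le_max_right _ _).trans (le_max_right _ _)
  have hK0 : 0 < K := by linarith only [hK1]
  rw [← hKd]
  have hd := cf_hol hδ.le isOpen_ball hc hh n
  have hsph : ∀ w ∈ sphere z₁ R', ‖cf f s₀ δ n w‖ ≤ K * ((1 / 2) ^ α) ^ n := by
    intro w hw
    have h5 := Pool.Agent.H95.GC.three_circles (cf f s₀ δ n) z₁ r₁ R' R₃ R (K * (1 / 2) ^ n) K hr₁ h₁ h3 h4 hd (by positivity) hK0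
      (fun w hw => (hC w (by rw [mem_closedBall, hw]) n).trans (by gcongr))
      (fun w hw => (cf_le hδ.le (fun s hs => hM s hs w (by rw [mem_ball, hw]; exact h4)) n).trans hKM) w hw
    refine h5.trans (le_of_eq ?_)
    rw [← hα, ← hβ, Real.mul_rpow hK0.le (by positivity), mul_assoc, mul_comm (((1 / 2 : ℝ) ^ n) ^ α), ← mul_assoc, ← Real.rpow_add hK0, hαβ,
      Real.rpow_one, ← Real.rpow_natCast, ← Real.rpow_natCast, ← Real.rpow_mul (by norm_num), ← Real.rpow_mul (by norm_num), mul_comm α]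
  refine Complex.norm_le_of_forall_mem_frontier_norm_le (isBounded_ball (x := z₁) (r := R')) ?_ ?_ (subset_closure hz)
  · refine DifferentiableOn.diffContOnCl ?_
    rw [closure_ball _ hR'0.ne']
    exact hd.mono (closedBall_subset_ball hR')
  · intro w hw
    rw [frontier_ball _ hR'0.ne'] at hw
    exact hsph w hw

/-- extension from bounds for the coefficients: the radius depends only on the radii -/
theorem ext_of_coef {δ r₁ R' R : ℝ} (hδ : 0 < δ) (hr₁ : 0 < r₁) (h₁ : r₁ < R') (hR' : R' < R) : ∃ ε : ℝ, 0 < ε ∧ ∀ C M : ℝ, ∃ K : ℝ, ∀ (f : ℝ → ℂ → ℂ) (s₀ : ℝ) (z₁ : ℂ),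
    ContinuousOn (fun p : ℝ × ℂ => f p.1 p.2) (Icc (s₀ - δ) (s₀ + δ) ×ˢ ball z₁ R) → (∀ s ∈ Icc (s₀ - δ) (s₀ + δ), DifferentiableOn ℂ (f s) (ball z₁ R)) →
    (∀ s ∈ Icc (s₀ - δ) (s₀ + δ), ∀ z ∈ ball z₁ R, ‖f s z‖ ≤ M) → (∀ z ∈ closedBall z₁ r₁, ∀ n : ℕ, ‖cf f s₀ δ n z‖ ≤ C * (1 / 2) ^ n) →
    ∃ G : ℂ × ℂ → ℂ, DifferentiableOn ℂ G (ball (s₀ : ℂ) ε ×ˢ ball z₁ R') ∧ (∀ p ∈ ball (s₀ : ℂ) ε ×ˢ ball z₁ R', ‖G p‖ ≤ K) ∧
      ∀ s : ℝ, (s : ℂ) ∈ ball (s₀ : ℂ) ε → ∀ z ∈ ball z₁ R', G (s, z) = f s z := by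
  obtain ⟨q, hq0, hq1, hsm'⟩ := cf_small hr₁ h₁ hR'
  -- the radius of convergence
  obtain ⟨ρ, hρ⟩ : ∃ ρ : ℝ, ρ = (1 + q⁻¹) / 2 := ⟨_, rfl⟩
  have hqi : 1 < q⁻¹ := (one_lt_inv₀ hq0).2 hq1
  have hρ1 : 1 < ρ := by rw [hρ]; linarith only [hqi]
  have hρ0 : 0 < ρ := by linarith
  have hqρ : q * ρ < 1 := by
    rw [hρ]
    have : q * q⁻¹ = 1 := mul_inv_cancel₀ hq0.ne'
    nlinarith only [hq1, this]
  have hρi : ρ⁻¹ < 1 := inv_lt_one_of_one_lt₀ hρ1
  obtain ⟨η, hη⟩ : ∃ η : ℝ, η = min 1 ((ρ - ρ⁻¹) / 2) := ⟨_, rfl⟩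
  have hη0 : 0 < η := by rw [hη]; exact lt_min one_pos (by linarith only [hρ1, hρi])
  have hη1 : η ≤ 1 := by rw [hη]; exact min_le_left _ _
  have hη2 : η ≤ (ρ - ρ⁻¹) / 2 := by rw [hη]; exact min_le_right _ _
  refine ⟨δ * η, by positivity, fun C M => ?_⟩
  obtain ⟨K, hKd⟩ : ∃ K, K = max 1 (max C M) := ⟨_, rfl⟩
  have hK : 0 < K := by rw [hKd]; exact lt_of_lt_of_le one_pos (le_max_left _ _)
  have hsumm : Summable fun n : ℕ => 2 * K * (q * ρ) ^ n := (summable_geometric_of_lt_one (by positivity) hqρ).mul_left _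
  refine ⟨(∑' n : ℕ, 2 * K * (q * ρ) ^ n) + K, fun f s₀ z₁ hc hh hM hC => ?_⟩
  have hsm : ∀ z ∈ ball z₁ R', ∀ n : ℕ, ‖cf f s₀ δ n z‖ ≤ K * q ^ n := by
    rw [hKd]
    exact hsm' hδ hc hh hM hC
  obtain ⟨G, hG⟩ : ∃ G : ℂ × ℂ → ℂ, ∀ ζ z, G (ζ, z) =
      (∑' n : ℕ, 2 * cf f s₀ δ n z * (Polynomial.Chebyshev.T ℂ n).eval ((ζ - s₀) / δ)) - cf f s₀ δ 0 z :=
    ⟨fun p => (∑' n : ℕ, 2 * cf f s₀ δ n p.2 * (Polynomial.Chebyshev.T ℂ n).eval ((p.1 - s₀) / δ)) - cf f s₀ δ 0 p.2, fun _ _ => rfl⟩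
  have hx : ∀ ζ ∈ ball (s₀ : ℂ) (δ * η), 2 * ‖(ζ - s₀) / δ‖ ≤ ρ - ρ⁻¹ := by
    intro ζ hζ
    rw [mem_ball, dist_eq_norm] at hζ
    rw [norm_div, Complex.norm_real, Real.norm_of_nonneg hδ.le]
    have : ‖ζ - s₀‖ / δ ≤ η := by rw [div_le_iff₀ hδ]; linarith
    linarith only [hη2, this]
  have hterm : ∀ ζ ∈ ball (s₀ : ℂ) (δ * η), ∀ z ∈ ball z₁ R', ∀ n : ℕ,
      ‖2 * cf f s₀ δ n z * (Polynomial.Chebyshev.T ℂ n).eval ((ζ - s₀) / δ)‖ ≤ 2 * K * (q * ρ) ^ n := by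
    intro ζ hζ z hz n
    rw [norm_mul, norm_mul]
    have h3 : ‖(2 : ℂ)‖ = 2 := by simp
    rw [h3, mul_pow, show 2 * K * (q ^ n * ρ ^ n) = 2 * (K * q ^ n) * ρ ^ n by ring]
    have h5 := hsm z hz n
    have h6 := cb_le hρ1.le (hx ζ hζ) n
    gcongr
  have hball : ball z₁ R' ⊆ ball z₁ R := ball_subset_ball hR'.le
  have hd1 : ∀ z ∈ ball z₁ R', DifferentiableOn ℂ (fun ζ => G (ζ, z)) (ball (s₀ : ℂ) (δ * η)) := by
    intro z hz
    simp only [hG]
    refine DifferentiableOn.sub ?_ (differentiableOn_const _)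
    refine Complex.differentiableOn_tsum_of_summable_norm hsumm (fun n => ?_) isOpen_ball fun n ζ hζ => hterm ζ hζ z hz n
    refine DifferentiableOn.const_mul ?_ _
    have h5 : Differentiable ℂ fun ζ : ℂ => (ζ - (s₀ : ℂ)) / (δ : ℂ) := by fun_prop
    have h6 : Differentiable ℂ fun w : ℂ => (Polynomial.Chebyshev.T ℂ (n : ℤ)).eval w := Polynomial.differentiable _
    exact (h6.comp h5).differentiableOn
  have hd2 : ∀ ζ ∈ ball (s₀ : ℂ) (δ * η), DifferentiableOn ℂ (fun z => G (ζ, z)) (ball z₁ R') := by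
    intro ζ hζ
    simp only [hG]
    have h0 : ∀ n : ℤ, DifferentiableOn ℂ (cf f s₀ δ n) (ball z₁ R') := fun n => (cf_hol hδ.le isOpen_ball hc hh n).mono hball
    refine DifferentiableOn.sub ?_ (h0 0)
    refine Complex.differentiableOn_tsum_of_summable_norm hsumm (fun n => ?_) isOpen_ball fun n z hz => hterm ζ hζ z hz n
    exact ((h0 n).const_mul _).mul_const _
  have hGb : ∀ ζ ∈ ball (s₀ : ℂ) (δ * η), ∀ z ∈ ball z₁ R', ‖G (ζ, z)‖ ≤ (∑' n : ℕ, 2 * K * (q * ρ) ^ n) + K := by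
    intro ζ hζ z hz
    rw [hG]
    refine (norm_sub_le _ _).trans (add_le_add ?_ ?_)
    · exact tsum_of_norm_bounded hsumm.hasSum (hterm ζ hζ z hz)
    · have := hsm z hz 0
      simpa using this
  refine ⟨G, ?_, fun p hp => hGb p.1 hp.1 p.2 hp.2, ?_⟩
  · rintro ⟨ζ, z⟩ ⟨hζ, hz⟩
    obtain ⟨r, hr, hrs⟩ : ∃ r > 0, ball ζ r ⊆ ball (s₀ : ℂ) (δ * η) ∧ ball z r ⊆ ball z₁ R' := by
      obtain ⟨r, hr, h1⟩ := Metric.isOpen_iff.1 isOpen_ball ζ hζ
      obtain ⟨r', hr', h2⟩ := Metric.isOpen_iff.1 isOpen_ball z hz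
      exact ⟨min r r', lt_min hr hr', (ball_subset_ball (min_le_left _ _)).trans h1, (ball_subset_ball (min_le_right _ _)).trans h2⟩
    exact (Pool.Agent.TH.osgood hr (fun a ha b hb => hGb a (hrs.1 ha) b (hrs.2 hb)) (fun b hb => (hd1 b (hrs.2 hb)).mono hrs.1)
      (fun a ha => (hd2 a (hrs.1 ha)).mono hrs.2)).differentiableAt.differentiableWithinAt
  · intro s hs z hz
    rw [mem_ball, dist_eq_norm, ← Complex.ofReal_sub, Complex.norm_real, Real.norm_eq_abs] at hs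
    have hs1 : |(s - s₀) / δ| ≤ 1 := by
      rw [abs_div, abs_of_pos hδ, div_le_one hδ]
      nlinarith only [hs, hδ, hη1]
    obtain ⟨θ, hθ⟩ : ∃ θ : ℝ, Real.cos θ = (s - s₀) / δ := ⟨Real.arccos ((s - s₀) / δ), Real.cos_arccos (abs_le.1 hs1).1 (abs_le.1 hs1).2⟩
    have hsθ : s₀ + δ * Real.cos θ = s := by rw [hθ]; field_simp; ring
    have hsum : Summable fun n : ℕ => cf f s₀ δ n z :=
      Summable.of_norm_bounded ((summable_geometric_of_lt_one hq0.le hq1).mul_left K) (hsm z hz)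
    have h7 := cf_sum (cf_cont hδ.le hc (hball hz)) hsum θ
    rw [hsθ] at h7
    rw [hG]
    have h8 : (fun n : ℕ => 2 * cf f s₀ δ n z * (Polynomial.Chebyshev.T ℂ n).eval (((s : ℂ) - s₀) / δ)) =
        fun n : ℕ => 2 * cf f s₀ δ n z * Complex.cos (n * θ) := by
      funext n
      have h9 : ((s : ℂ) - s₀) / δ = Complex.cos θ := by
        rw [← Complex.ofReal_cos, hθ]
        push_cast
        ring
      rw [h9, Polynomial.Chebyshev.T_complex_cos]
      push_cast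
      ring
    rw [h8, h7.tsum_eq]
    ring

/-- the coefficients of a function which extends -/
theorem coef_of_ext {f : ℝ → ℂ → ℂ} {s₀ δ : ℝ} (hδ : 0 < δ) {z₁ : ℂ} {r₁ C : ℝ} {g : ℂ × ℂ → ℂ} (hg : DifferentiableOn ℂ g (ball (s₀ : ℂ) (2 * δ) ×ˢ ball z₁ (2 * r₁)))
    (hr₁ : 0 < r₁) (hgC : ∀ p ∈ ball (s₀ : ℂ) (2 * δ) ×ˢ ball z₁ (2 * r₁), ‖g p‖ ≤ C) (hgf : ∀ s ∈ Icc (s₀ - δ) (s₀ + δ), ∀ z ∈ ball z₁ (2 * r₁), g (s, z) = f s z) :
    ∀ z ∈ closedBall z₁ r₁, ∀ n : ℕ, ‖cf f s₀ δ n z‖ ≤ C * (1 / 2) ^ n := by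
  intro z hz n
  have hz' : z ∈ ball z₁ (2 * r₁) := closedBall_subset_ball (by linarith) hz
  refine cf_geo hδ (g := fun ζ => g (ζ, z)) ?_ (fun ζ hζ => hgC (ζ, z) ⟨closedBall_subset_ball (by linarith only [hδ]) hζ, hz'⟩) (fun s hs => hgf s hs z hz') n
  intro ζ hζ
  have h1 : DifferentiableAt ℂ g (ζ, z) := hg.differentiableAt ((isOpen_ball.prod isOpen_ball).mem_nhds ⟨hζ, hz'⟩)
  exact (h1.comp ζ (differentiableAt_id.prodMk (differentiableAt_const z))).differentiableWithinAt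

/-- the coefficients are continuous in a parameter -/
theorem cf_param {Y : Type*} [TopologicalSpace Y] {f : Y → ℝ → ℂ → ℂ} {s₀ δ : ℝ} (hδ : 0 ≤ δ) {z : ℂ} {A : Set Y}
    (hc : ContinuousOn (fun p : Y × ℝ => f p.1 p.2 z) (A ×ˢ Icc (s₀ - δ) (s₀ + δ))) (n : ℤ) : ContinuousOn (fun y => cf (f y) s₀ δ n z) A := by
  rw [continuousOn_iff_continuous_restrict]
  have h1 : Continuous fun p : A × ℝ => ((p.1.1, s₀ + δ * Real.cos p.2) : Y × ℝ) := by fun_prop
  have h2 : Continuous fun p : A × ℝ => f p.1.1 (s₀ + δ * Real.cos p.2) z := hc.comp_continuous h1 fun p => ⟨p.1.2, cs_mem hδ p.2⟩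
  have h3 : Continuous (Function.uncurry fun (y : A) (θ : ℝ) => Complex.exp (-((n : ℂ) * θ * Complex.I)) * f y.1 (s₀ + δ * Real.cos θ) z) := by
    refine Continuous.mul ?_ h2
    fun_prop
  have h4 := intervalIntegral.continuous_parametric_intervalIntegral_of_continuous' (μ := MeasureTheory.volume) h3 0 (2 * Real.pi)
  exact h4.const_smul (1 / (2 * Real.pi) : ℝ)

/-- extension in a real parameter from a small ball to a large one, with a radius which depends only on the radii -/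
theorem cheb_u {δ ε R R' : ℝ} (hδ : 0 < δ) (hε : 0 < ε) (hR : 0 < R) (hR' : R' < R) : ∃ ε' : ℝ, 0 < ε' ∧ ∀ C M : ℝ, ∃ K : ℝ, ∀ (f : ℝ → ℂ → ℂ) (g : ℂ × ℂ → ℂ) (s₀ : ℝ) (z₁ : ℂ),
    ContinuousOn (fun p : ℝ × ℂ => f p.1 p.2) (Icc (s₀ - δ) (s₀ + δ) ×ˢ ball z₁ R) → (∀ s ∈ Icc (s₀ - δ) (s₀ + δ), DifferentiableOn ℂ (f s) (ball z₁ R)) →
    (∀ s ∈ Icc (s₀ - δ) (s₀ + δ), ∀ z ∈ ball z₁ R, ‖f s z‖ ≤ M) → DifferentiableOn ℂ g (ball ((s₀ : ℂ), z₁) ε) → (∀ p ∈ ball ((s₀ : ℂ), z₁) ε, ‖g p‖ ≤ C) →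
    (∀ (s : ℝ) (z : ℂ), ((s : ℂ), z) ∈ ball ((s₀ : ℂ), z₁) ε → g (s, z) = f s z) →
    ∃ G : ℂ × ℂ → ℂ, DifferentiableOn ℂ G (ball (s₀ : ℂ) ε' ×ˢ ball z₁ R') ∧ (∀ p ∈ ball (s₀ : ℂ) ε' ×ˢ ball z₁ R', ‖G p‖ ≤ K) ∧
      ∀ s : ℝ, (s : ℂ) ∈ ball (s₀ : ℂ) ε' → ∀ z ∈ ball z₁ R', G (s, z) = f s z := by
  obtain ⟨d, hd⟩ : ∃ d, d = min δ (ε / 2) := ⟨_, rfl⟩
  obtain ⟨r, hr⟩ : ∃ r, r = min (ε / 2) (R / 4) := ⟨_, rfl⟩
  have hd0 : 0 < d := by rw [hd]; exact lt_min hδ (by linarith)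
  have hdδ : d ≤ δ := by rw [hd]; exact min_le_left _ _
  have hdε : 2 * d ≤ ε := by rw [hd]; linarith only [min_le_right δ (ε / 2)]
  have hr0 : 0 < r := by rw [hr]; exact lt_min (by linarith) (by linarith)
  have hrε : 2 * r ≤ ε := by rw [hr]; linarith only [min_le_left (ε / 2) (R / 4)]
  have hrR : 4 * r ≤ R := by rw [hr]; linarith only [min_le_right (ε / 2) (R / 4)]
  obtain ⟨ε', hε', h⟩ := ext_of_coef (δ := d) (r₁ := r) (R' := max R' (R / 2)) (R := R) hd0 hr0 (lt_of_lt_of_le (by linarith) (le_max_right _ _)) (max_lt hR' (by linarith only [hr0, hrR]))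
  refine ⟨ε', hε', fun C M => ?_⟩
  obtain ⟨K, hK⟩ := h C M
  refine ⟨K, fun f g s₀ z₁ hc hh hM hg hgC hgf => ?_⟩
  have hI : Icc (s₀ - d) (s₀ + d) ⊆ Icc (s₀ - δ) (s₀ + δ) := Icc_subset_Icc (by linarith) (by linarith)
  have hsub : ball (s₀ : ℂ) (2 * d) ×ˢ ball z₁ (2 * r) ⊆ ball ((s₀ : ℂ), z₁) ε := by
    rw [← ball_prod_same]
    exact prod_mono (ball_subset_ball hdε) (ball_subset_ball hrε)
  obtain ⟨G, hG1, hG2, hG3⟩ := hK f s₀ z₁ (hc.mono (prod_mono hI le_rfl)) (fun s hs => hh s (hI hs)) (fun s hs => hM s (hI hs))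
    (coef_of_ext hd0 (hg.mono hsub) hr0 (fun p hp => hgC p (hsub hp)) (fun s hs z hz => hgf s z (hsub ⟨by
      rw [mem_ball, dist_eq_norm, ← Complex.ofReal_sub, Complex.norm_real, Real.norm_eq_abs]
      have : |s - s₀| ≤ d := abs_le.2 ⟨by linarith [hs.1], by linarith [hs.2]⟩
      linarith, hz⟩)))
  have hb : ball z₁ R' ⊆ ball z₁ (max R' (R / 2)) := ball_subset_ball (le_max_left _ _)
  exact ⟨G, hG1.mono (prod_mono le_rfl hb), fun p hp => hG2 p ⟨hp.1, hb hp.2⟩, fun s hs z hz => hG3 s hs z (hb hz)⟩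

end Pool.Agent.G4.C

end

section

/-!
# G4 C SpreadU: the extension to complex parameters spreads over connected sets of `z`, uniformly for the members of a set of families
-/

set_option autoImplicit false

open Topology Filter Metric Set

namespace Pool.Agent.G4.C

open Pool.Agent.H36.BP (EN wd)
open Pool.Agent.H62.EF (MN pr pr_smul pr_eq_iff continuousAt_pr)
open Pool.Agent.AD (Vd)
open Pool.Agent.G3.C (EAt nv nd nv_pr nd_pr_ne nd_cont nv_continuousAt pr_nv)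

variable {N : ℕ} {ι : Type*}

/-- the family extends to the ball of radius `ε` in `ℂ × ℂ` with centre `(s₀, z₀)`, with a normalised lift bounded by `M` -/
def EAtB (v : EN N) (Φ : ℝ → ℂ → MN N) (s₀ : ℝ) (z₀ : ℂ) (ε M : ℝ) : Prop :=
  ∃ F : ℂ × ℂ → EN N, DifferentiableOn ℂ F (ball ((s₀ : ℂ), z₀) ε) ∧ (∀ p ∈ ball ((s₀ : ℂ), z₀) ε, inner ℂ v (F p) = (1 : ℂ) ∧ ‖F p‖ ≤ M) ∧
    ∀ (s : ℝ) (z : ℂ), ((s : ℂ), z) ∈ ball ((s₀ : ℂ), z₀) ε → Φ s z = pr (F (s, z))

theorem EAtB.eat {v : EN N} {Φ : ℝ → ℂ → MN N} {s₀ : ℝ} {z₀ : ℂ} {ε M : ℝ} (h : EAtB v Φ s₀ z₀ ε M) : EAt Φ s₀ z₀ ε := by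
  obtain ⟨F, h1, h2, h3⟩ := h
  exact ⟨F, h1, fun p hp h0 => by
    have h4 := (h2 p hp).1
    rw [h0, inner_zero_right] at h4
    exact zero_ne_one h4, h3⟩

theorem EAtB.shrink {v : EN N} {Φ : ℝ → ℂ → MN N} {s₀ s₁ : ℝ} {z₀ z₁ : ℂ} {ε ε' M : ℝ} (h : EAtB v Φ s₀ z₀ ε M)
    (hb : ball ((s₁ : ℂ), z₁) ε' ⊆ ball ((s₀ : ℂ), z₀) ε) : EAtB v Φ s₁ z₁ ε' M := by
  obtain ⟨F, h1, h2, h3⟩ := h
  exact ⟨F, h1.mono hb, fun p hp => h2 p (hb hp), fun s z hz => h3 s z (hb hz)⟩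

/-- uniform extension at `(s₀, z)` -/
def UE (l : Filter ι) (Φ : ι → ℝ → ℂ → MN N) (s₀ : ℝ) (z : ℂ) : Prop := ∃ (v : EN N) (ε M : ℝ), 0 < ε ∧ ∀ᶠ i in l, EAtB v (Φ i) s₀ z ε M

/-- families of curves, uniformly continuous at the points `(s₀, z)`, `z ∈ Ω` -/
structure UFam (l : Filter ι) (Φ : ι → ℝ → ℂ → MN N) (s₀ : ℝ) (Ω : Set ℂ) : Prop where
  lift : ∀ i, ∀ s : ℝ, ∃ F : ℂ → EN N, Differentiable ℂ F ∧ (∀ z, F z ≠ 0) ∧ ∀ z, Φ i s z = pr (F z)
  cont : ∀ z ∈ Ω, ∃ (v : EN N) (r c : ℝ), 0 < r ∧ 0 < c ∧ ∀ᶠ i in l, ∀ s ∈ Icc (s₀ - r) (s₀ + r), ∀ w ∈ ball z r,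
    ContinuousAt (fun q : ℝ × ℂ => Φ i q.1 q.2) (s, w) ∧ c ≤ ‖nd v (Φ i s w)‖

private theorem nd_norm (v x : EN N) : ‖nd v (pr x)‖ * ‖x‖ ^ 2 = ‖(inner ℂ v x : ℂ)‖ ^ 2 := by
  have e : nd v (pr x) * ((‖x‖ ^ 2 : ℝ) : ℂ) = inner ℂ x v * inner ℂ v x := by
    rcases eq_or_ne x 0 with rfl | hx
    · simp
    have h1 : ((‖x‖ ^ 2 : ℝ) : ℂ) ≠ 0 := by
      have : ‖x‖ ≠ 0 := norm_ne_zero_iff.mpr hx
      exact_mod_cast pow_ne_zero 2 this
    have hin : ∀ x y : EN N, (inner ℂ x y : ℂ) = ∑ j, (starRingEnd ℂ) (x j) * y j := by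
      intro x y
      rw [PiLp.inner_apply]
      refine Finset.sum_congr rfl fun j _ => ?_
      rw [RCLike.inner_apply]
      ring
    have h2 : nd v (pr x) = inner ℂ x v * inner ℂ v x / ((‖x‖ ^ 2 : ℝ) : ℂ) := by
      unfold nd
      rw [hin x v, hin v x, Finset.sum_mul_sum, Finset.sum_comm, Finset.sum_div]
      refine Finset.sum_congr rfl fun i _ => ?_
      rw [Finset.sum_div]
      refine Finset.sum_congr rfl fun j _ => ?_
      simp only [pr]
      ring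
    rw [h2, div_mul_cancel₀ _ h1]
  have h3 := congrArg norm e
  rw [norm_mul, norm_mul, Complex.norm_real, Real.norm_of_nonneg (by positivity)] at h3
  rw [h3, ← norm_inner_symm, sq]

/-- the normalised vector is bounded -/
private theorem nv_bd {v x : EN N} {c : ℝ} (hc : 0 < c) (h : c ≤ ‖nd v (pr x)‖) (hx : x ≠ 0) : inner ℂ v x ≠ (0 : ℂ) ∧ ‖nv v (pr x)‖ ≤ (Real.sqrt c)⁻¹ ∧
    Real.sqrt c * ‖x‖ ≤ ‖(inner ℂ v x : ℂ)‖ := by
  have h0 : inner ℂ v x ≠ (0 : ℂ) := (nd_pr_ne hx).1 fun h1 => by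
    rw [h1, norm_zero] at h
    linarith
  have h1 := nd_norm v x
  have hsc : 0 < Real.sqrt c := Real.sqrt_pos.2 hc
  have h2 : Real.sqrt c * ‖x‖ ≤ ‖(inner ℂ v x : ℂ)‖ := by
    refine le_of_sq_le_sq ?_ (norm_nonneg _)
    rw [mul_pow, Real.sq_sqrt hc.le, ← h1]
    exact mul_le_mul_of_nonneg_right h (by positivity)
  refine ⟨h0, ?_, h2⟩
  rw [nv_pr h0, norm_smul, norm_inv, ← div_eq_inv_mul, div_le_iff₀ (norm_pos_iff.2 h0), ← div_eq_inv_mul, le_div_iff₀ hsc, mul_comm]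
  exact h2

private theorem norm_le_sum (x : EN N) : ‖x‖ ≤ ∑ j, ‖x j‖ := by
  rw [EuclideanSpace.norm_eq, Real.sqrt_le_iff]
  exact ⟨Finset.sum_nonneg fun _ _ => norm_nonneg _, Finset.sum_sq_le_sq_sum_of_nonneg fun _ _ => norm_nonneg _⟩

/-- bounded holomorphic maps are Lipschitz at the centre of a ball -/
private theorem schwarz {F : ℂ × ℂ → EN N} {p₀ : ℂ × ℂ} {ε M : ℝ} (hε : 0 < ε) (hF : DifferentiableOn ℂ F (ball p₀ ε)) (hM : ∀ p ∈ ball p₀ ε, ‖F p‖ ≤ M) {p : ℂ × ℂ}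
    (hp : p ∈ ball p₀ (ε / 2)) : ‖F p - F p₀‖ ≤ 4 * (M + 1) / ε * dist p p₀ := by
  have hM0 : 0 ≤ M := (norm_nonneg _).trans (hM p₀ (mem_ball_self hε))
  rcases eq_or_ne p p₀ with rfl | hne
  · simp
  have hd : 0 < ‖p - p₀‖ := norm_pos_iff.2 (sub_ne_zero.2 hne)
  have hpe : ‖p - p₀‖ < ε / 2 := by rwa [mem_ball, dist_eq_norm] at hp
  obtain ⟨g, hg⟩ : ∃ g : ℂ → EN N, g = fun t => F (p₀ + t • (p - p₀)) := ⟨_, rfl⟩
  have hm : ∀ t ∈ ball (0 : ℂ) (ε / ‖p - p₀‖), p₀ + t • (p - p₀) ∈ ball p₀ ε := by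
    intro t ht
    rw [mem_ball, dist_zero_right, lt_div_iff₀ hd] at ht
    rw [mem_ball, dist_eq_norm, add_sub_cancel_left, norm_smul]
    exact ht
  have hgd : DifferentiableOn ℂ g (ball 0 (ε / ‖p - p₀‖)) := by
    rw [hg]
    refine hF.comp ?_ hm
    have : Differentiable ℂ fun t : ℂ => p₀ + t • (p - p₀) := by fun_prop
    exact this.differentiableOn
  have hmap : MapsTo g (ball 0 (ε / ‖p - p₀‖)) (closedBall (g 0) (2 * (M + 1))) := by
    intro t ht
    rw [mem_closedBall, dist_eq_norm, hg]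
    have h1 := hM _ (hm t ht)
    have h2 := hM _ (hm 0 (mem_ball_self (by positivity)))
    exact (norm_sub_le _ _).trans (by linarith)
  have h1 : (1 : ℂ) ∈ ball (0 : ℂ) (ε / ‖p - p₀‖) := by
    rw [mem_ball, dist_zero_right, norm_one, lt_div_iff₀ hd]
    linarith
  have h2 := Complex.dist_le_div_mul_dist_of_mapsTo_ball hgd hmap h1
  rw [hg] at h2
  simp only [one_smul, add_sub_cancel, zero_smul, add_zero, dist_zero_right, norm_one, mul_one] at h2
  rw [dist_eq_norm] at h2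
  refine h2.trans ?_
  rw [dist_eq_norm, div_div_eq_mul_div, div_mul_eq_mul_div]
  gcongr
  linarith

/-- the step: from a point to a ball -/
private theorem step {l : Filter ι} {Φ : ι → ℝ → ℂ → MN N} (hl : ∀ i, ∀ s : ℝ, ∃ F : ℂ → EN N, Differentiable ℂ F ∧ (∀ z, F z ≠ 0) ∧ ∀ z, Φ i s z = pr (F z))
    {s₀ δ : ℝ} (hδ : 0 < δ) {z₁ : ℂ} {R : ℝ} (v : EN N) {c : ℝ} (hc0 : 0 < c)
    (hc : ∀ᶠ i in l, ∀ s ∈ Icc (s₀ - δ) (s₀ + δ), ∀ z ∈ ball z₁ R, ContinuousAt (fun q : ℝ × ℂ => Φ i q.1 q.2) (s, z) ∧ c ≤ ‖nd v (Φ i s z)‖)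
    (hE : UE l Φ s₀ z₁) {z : ℂ} (hz : z ∈ ball z₁ R) : UE l Φ s₀ z := by
  have hR : 0 < R := dist_nonneg.trans_lt (mem_ball.1 hz)
  obtain ⟨R', hR'z, hR'⟩ : ∃ R', dist z z₁ < R' ∧ R' < R := exists_between (mem_ball.1 hz)
  obtain ⟨v', ε, M, hε, hE⟩ := hE
  have hsc : 0 < Real.sqrt c := Real.sqrt_pos.2 hc0
  -- the radius on which the linear form `v` is not small
  obtain ⟨κ, hκd⟩ : ∃ κ, κ = Real.sqrt c * (‖v'‖ + 1)⁻¹ / 2 := ⟨_, rfl⟩
  have hκ : 0 < κ := by rw [hκd]; positivity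
  obtain ⟨L, hL⟩ : ∃ L, L = ‖v‖ * (4 * (|M| + 1) / ε) := ⟨_, rfl⟩
  have hL0 : 0 ≤ L := by rw [hL]; positivity
  obtain ⟨ε₂, hε₂⟩ : ∃ ε₂, ε₂ = min (ε / 2) (κ / (L + 1)) := ⟨_, rfl⟩
  have hε₂0 : 0 < ε₂ := by rw [hε₂]; exact lt_min (by linarith only [hε]) (by positivity)
  have hε₂a : ε₂ ≤ ε / 2 := by rw [hε₂]; exact min_le_left _ _
  have hε₂b : ε₂ ≤ κ / (L + 1) := by rw [hε₂]; exact min_le_right _ _
  obtain ⟨ε', hε', hch⟩ := cheb_u (δ := δ) (ε := ε₂) (R := R) (R' := R') hδ hε₂0 hR hR'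
  obtain ⟨K, hK⟩ := hch (κ⁻¹ * |M|) (Real.sqrt c)⁻¹
  obtain ⟨e₁, he₁⟩ : ∃ e₁, e₁ = min ε' (min δ (R' - dist z z₁)) := ⟨_, rfl⟩
  have he₁0 : 0 < e₁ := by rw [he₁]; exact lt_min hε' (lt_min hδ (by linarith only [hR'z]))
  have he₁a : e₁ ≤ ε' := by rw [he₁]; exact min_le_left _ _
  have he₁b : e₁ ≤ δ := by rw [he₁]; exact (min_le_right _ _).trans (min_le_left _ _)
  have he₁c : e₁ ≤ R' - dist z z₁ := by rw [he₁]; exact (min_le_right _ _).trans (min_le_right _ _)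
  refine ⟨v, e₁, ∑ _j : Fin (N + 1), K, he₁0, ?_⟩
  filter_upwards [hc, hE] with i hc hE
  -- the coordinates
  have hcont : ∀ j, ContinuousOn (fun p : ℝ × ℂ => nv v (Φ i p.1 p.2) j) (Icc (s₀ - δ) (s₀ + δ) ×ˢ ball z₁ R) := by
    rintro j ⟨s, w⟩ ⟨hs, hw⟩
    obtain ⟨h1, h2⟩ := hc s hs w hw
    have h2' : nd v (Φ i s w) ≠ 0 := fun h => by
      rw [h, norm_zero] at h2
      linarith only [hc0, h2]
    have h3 : ContinuousAt (fun q : ℝ × ℂ => nv v (Φ i q.1 q.2)) (s, w) := ContinuousAt.comp (g := nv v) (f := fun q : ℝ × ℂ => Φ i q.1 q.2) (nv_continuousAt h2') h1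
    exact ((PiLp.continuous_apply 2 _ j).continuousAt.comp h3).continuousWithinAt
  have hval : ∀ s ∈ Icc (s₀ - δ) (s₀ + δ), ∃ F : ℂ → EN N, Differentiable ℂ F ∧ (∀ z, F z ≠ 0) ∧ (∀ z, Φ i s z = pr (F z)) ∧ ∀ w ∈ ball z₁ R,
      inner ℂ v (F w) ≠ (0 : ℂ) ∧ nv v (Φ i s w) = (inner ℂ v (F w) : ℂ)⁻¹ • F w ∧ ‖nv v (Φ i s w)‖ ≤ (Real.sqrt c)⁻¹ := by
    intro s hs
    obtain ⟨F, hF, hF0, hFΦ⟩ := hl i s
    refine ⟨F, hF, hF0, hFΦ, fun w hw => ?_⟩
    have h1 := (hc s hs w hw).2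
    rw [hFΦ] at h1 ⊢
    obtain ⟨h2, h3, -⟩ := nv_bd hc0 h1 (hF0 w)
    exact ⟨h2, nv_pr h2, h3⟩
  have hhol : ∀ j, ∀ s ∈ Icc (s₀ - δ) (s₀ + δ), DifferentiableOn ℂ (fun w => nv v (Φ i s w) j) (ball z₁ R) := by
    intro j s hs
    obtain ⟨F, hF, hF0, hFΦ, hv⟩ := hval s hs
    have e : EqOn (fun w => nv v (Φ i s w) j) (fun w => (inner ℂ v (F w) : ℂ)⁻¹ * F w j) (ball z₁ R) := by
      intro w hw
      simp only
      rw [(hv w hw).2.1]
      simp [PiLp.smul_apply, smul_eq_mul]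
    refine DifferentiableOn.congr ?_ e
    have hd1 : Differentiable ℂ fun w => (inner ℂ v (F w) : ℂ) := (innerSL ℂ v).differentiable.comp hF
    have hd2 : Differentiable ℂ fun w => F w j := (EuclideanSpace.proj (𝕜 := ℂ) j : EN N →L[ℂ] ℂ).differentiable.comp hF
    exact (hd1.differentiableOn.inv fun w hw => (hv w hw).1).mul hd2.differentiableOn
  have hbd : ∀ j, ∀ s ∈ Icc (s₀ - δ) (s₀ + δ), ∀ w ∈ ball z₁ R, ‖nv v (Φ i s w) j‖ ≤ (Real.sqrt c)⁻¹ := by
    intro j s hs w hw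
    obtain ⟨F, hF, hF0, hFΦ, hv⟩ := hval s hs
    exact (PiLp.norm_apply_le _ j).trans (hv w hw).2.2
  -- the extension near `z₁`
  obtain ⟨F, hF, hFv, hFΦ⟩ := hE
  have hmem : ((s₀ : ℂ), z₁) ∈ ball ((s₀ : ℂ), z₁) ε := mem_ball_self hε
  have hF0 : ∀ p ∈ ball ((s₀ : ℂ), z₁) ε, F p ≠ 0 := fun p hp h0 => by
    have h4 := (hFv p hp).1
    rw [h0, inner_zero_right] at h4
    exact zero_ne_one h4
  have hs₀I : s₀ ∈ Icc (s₀ - δ) (s₀ + δ) := ⟨by linarith only [hδ], by linarith only [hδ]⟩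
  have hlow : 2 * κ ≤ ‖(inner ℂ v (F ((s₀ : ℂ), z₁)) : ℂ)‖ := by
    have h1 := (hc s₀ hs₀I z₁ (mem_ball_self hR)).2
    rw [hFΦ s₀ z₁ hmem] at h1
    have h2 := (nv_bd hc0 h1 (hF0 _ hmem)).2.2
    have h3 : 1 ≤ ‖v'‖ * ‖F ((s₀ : ℂ), z₁)‖ := by
      have h4 := norm_inner_le_norm (𝕜 := ℂ) v' (F ((s₀ : ℂ), z₁))
      rwa [(hFv _ hmem).1, norm_one] at h4
    have h5 : (‖v'‖ + 1)⁻¹ ≤ ‖F ((s₀ : ℂ), z₁)‖ := by
      rw [inv_le_iff_one_le_mul₀ (by positivity)]
      nlinarith only [h3, norm_nonneg (F ((s₀ : ℂ), z₁))]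
    calc 2 * κ = Real.sqrt c * (‖v'‖ + 1)⁻¹ := by rw [hκd]; ring
      _ ≤ Real.sqrt c * ‖F ((s₀ : ℂ), z₁)‖ := by gcongr
      _ ≤ _ := h2
  have hlow2 : ∀ p ∈ ball ((s₀ : ℂ), z₁) ε₂, κ ≤ ‖(inner ℂ v (F p) : ℂ)‖ := by
    intro p hp
    have hp2 : p ∈ ball ((s₀ : ℂ), z₁) (ε / 2) := ball_subset_ball hε₂a hp
    have h1 := schwarz hε hF (M := |M|) (fun p hp => (hFv p hp).2.trans (le_abs_self M)) hp2
    have h2 : ‖(inner ℂ v (F p) : ℂ) - inner ℂ v (F ((s₀ : ℂ), z₁))‖ ≤ L * dist p ((s₀ : ℂ), z₁) := by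
      rw [← inner_sub_right, hL, mul_assoc]
      exact (norm_inner_le_norm _ _).trans (mul_le_mul_of_nonneg_left h1 (norm_nonneg _))
    have h3 : L * dist p ((s₀ : ℂ), z₁) ≤ κ := by
      have h4 : dist p ((s₀ : ℂ), z₁) ≤ κ / (L + 1) := (mem_ball.1 hp).le.trans hε₂b
      calc L * dist p ((s₀ : ℂ), z₁) ≤ (L + 1) * (κ / (L + 1)) := by gcongr; linarith only
        _ = κ := by field_simp
    have h5 := norm_sub_norm_le (inner ℂ v (F ((s₀ : ℂ), z₁)) : ℂ) (inner ℂ v (F p))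
    rw [norm_sub_rev] at h5
    linarith only [hlow, h2, h3, h5]
  have hne2 : ∀ p ∈ ball ((s₀ : ℂ), z₁) ε₂, (inner ℂ v (F p) : ℂ) ≠ 0 := fun p hp h0 => by
    have := hlow2 p hp
    rw [h0, norm_zero] at this
    linarith only [hκ, this]
  have hb1 : ball ((s₀ : ℂ), z₁) ε₂ ⊆ ball ((s₀ : ℂ), z₁) ε := ball_subset_ball (by linarith only [hε₂0, hε₂a])
  have hg : ∀ j, DifferentiableOn ℂ (fun p => (inner ℂ v (F p) : ℂ)⁻¹ * F p j) (ball ((s₀ : ℂ), z₁) ε₂) := by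
    intro j
    have hF' := hF.mono hb1
    have hd1 : DifferentiableOn ℂ (fun w => (inner ℂ v (F w) : ℂ)) (ball ((s₀ : ℂ), z₁) ε₂) := (innerSL ℂ v).differentiable.comp_differentiableOn hF'
    have hd2 : DifferentiableOn ℂ (fun w => F w j) (ball ((s₀ : ℂ), z₁) ε₂) :=
      (EuclideanSpace.proj (𝕜 := ℂ) j : EN N →L[ℂ] ℂ).differentiable.comp_differentiableOn hF'
    exact (hd1.inv hne2).mul hd2
  have hgb : ∀ j, ∀ p ∈ ball ((s₀ : ℂ), z₁) ε₂, ‖(inner ℂ v (F p) : ℂ)⁻¹ * F p j‖ ≤ κ⁻¹ * |M| := by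
    intro j p hp
    rw [norm_mul, norm_inv]
    have h1 : ‖F p j‖ ≤ |M| := (PiLp.norm_apply_le _ j).trans ((hFv p (hb1 hp)).2.trans (le_abs_self M))
    have h2 : ‖(inner ℂ v (F p) : ℂ)‖⁻¹ ≤ κ⁻¹ := inv_anti₀ hκ (hlow2 p hp)
    gcongr
  have hgf : ∀ j, ∀ (s : ℝ) (w : ℂ), ((s : ℂ), w) ∈ ball ((s₀ : ℂ), z₁) ε₂ → (inner ℂ v (F ((s : ℂ), w)) : ℂ)⁻¹ * F ((s : ℂ), w) j = nv v (Φ i s w) j := by
    intro j s w hw
    rw [hFΦ s w (hb1 hw), nv_pr (hne2 _ hw)]
    simp [PiLp.smul_apply, smul_eq_mul]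
  have key : ∀ j, ∃ G : ℂ × ℂ → ℂ, DifferentiableOn ℂ G (ball (s₀ : ℂ) ε' ×ˢ ball z₁ R') ∧ (∀ p ∈ ball (s₀ : ℂ) ε' ×ˢ ball z₁ R', ‖G p‖ ≤ K) ∧
      ∀ s : ℝ, (s : ℂ) ∈ ball (s₀ : ℂ) ε' → ∀ w ∈ ball z₁ R', G (s, w) = nv v (Φ i s w) j := fun j =>
    hK (fun s w => nv v (Φ i s w) j) _ s₀ z₁ (hcont j) (hhol j) (hbd j) (hg j) (hgb j) (hgf j)
  choose G hG1 hGb hG2 using key
  have hsub : ∀ p ∈ ball ((s₀ : ℂ), z) e₁, p.1 ∈ ball (s₀ : ℂ) e₁ ∧ p.2 ∈ ball z e₁ := by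
    intro p hp
    rw [← ball_prod_same] at hp
    exact hp
  have hzR : ball z e₁ ⊆ ball z₁ R' := ball_subset_ball' (by linarith only [he₁c])
  obtain ⟨H, hH⟩ : ∃ H : ℂ × ℂ → EN N, ∀ p j, H p j = G j p := ⟨fun p => WithLp.toLp 2 fun j => G j p, fun p j => rfl⟩
  have hHd : DifferentiableOn ℂ H (ball ((s₀ : ℂ), z) e₁) := by
    rw [differentiableOn_piLp]
    intro j
    simp only [hH]
    refine (hG1 j).mono fun p hp => ?_
    obtain ⟨h1, h2⟩ := hsub p hp
    exact ⟨ball_subset_ball he₁a h1, hzR h2⟩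
  have hHr : ∀ (s : ℝ) (w : ℂ), ((s : ℂ), w) ∈ ball ((s₀ : ℂ), z) e₁ → H (s, w) = nv v (Φ i s w) := by
    intro s w hp
    obtain ⟨h1, h2⟩ := hsub _ hp
    ext j
    rw [hH]
    exact hG2 j s (ball_subset_ball he₁a h1) w (hzR h2)
  have hreal : ∀ (s : ℝ) (w : ℂ), ((s : ℂ), w) ∈ ball ((s₀ : ℂ), z) e₁ → Φ i s w = pr (H (s, w)) ∧ inner ℂ v (H (s, w)) = (1 : ℂ) := by
    intro s w hp
    obtain ⟨h1, h2⟩ := hsub _ hp
    have hs : s ∈ Icc (s₀ - δ) (s₀ + δ) := by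
      simp only at h1
      rw [mem_ball, dist_eq_norm, ← Complex.ofReal_sub, Complex.norm_real, Real.norm_eq_abs] at h1
      have := abs_lt.1 (h1.trans_le he₁b)
      exact ⟨by linarith only [this, this.1], by linarith only [this, this.2]⟩
    obtain ⟨F, hF, hF0, hFΦ, hv⟩ := hval s hs
    obtain ⟨h4, h5, -⟩ := hv w (ball_subset_ball hR'.le (hzR h2))
    rw [hHr s w hp]
    refine ⟨?_, ?_⟩
    · rw [hFΦ, pr_nv h4]
    · rw [h5, inner_smul_right, inv_mul_cancel₀ h4]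
  refine ⟨H, hHd, fun p hp => ⟨?_, ?_⟩, fun s w hp => (hreal s w hp).1⟩
  · -- the identity theorem
    obtain ⟨h1, h2⟩ := hsub p hp
    have hd : DifferentiableOn ℂ (fun ζ => (inner ℂ v (H (ζ, p.2)) : ℂ)) (ball (s₀ : ℂ) e₁) := by
      refine (innerSL ℂ v).differentiable.comp_differentiableOn ?_
      intro ζ hζ
      have h3 : DifferentiableAt ℂ H (ζ, p.2) := hHd.differentiableAt (isOpen_ball.mem_nhds (by rw [← ball_prod_same]; exact ⟨hζ, h2⟩))
      exact (h3.comp ζ (differentiableAt_id.prodMk (differentiableAt_const p.2))).differentiableWithinAt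
    have hfr : ∃ᶠ ζ in 𝓝[≠] (s₀ : ℂ), (inner ℂ v (H (ζ, p.2)) : ℂ) = 1 := by
      have h4 : ∀ᶠ t : ℝ in 𝓝[≠] s₀, (inner ℂ v (H ((t : ℂ), p.2)) : ℂ) = 1 := by
        filter_upwards [mem_nhdsWithin_of_mem_nhds (ball_mem_nhds s₀ he₁0)] with t ht
        refine (hreal t p.2 ?_).2
        rw [← ball_prod_same]
        refine ⟨?_, h2⟩
        rw [mem_ball, dist_eq_norm, ← Complex.ofReal_sub, Complex.norm_real, ← dist_eq_norm]
        exact ht
      have h5 : Tendsto (fun t : ℝ => (t : ℂ)) (𝓝[≠] s₀) (𝓝[≠] (s₀ : ℂ)) := by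
        refine tendsto_nhdsWithin_iff.2 ⟨(Complex.continuous_ofReal.tendsto s₀).mono_left nhdsWithin_le_nhds, ?_⟩
        filter_upwards [self_mem_nhdsWithin] with t ht h6
        exact ht (Complex.ofReal_injective h6)
      exact h5.frequently h4.frequently
    have h6 := (hd.analyticOnNhd isOpen_ball).eqOn_of_preconnected_of_frequently_eq analyticOnNhd_const (convex_ball _ _).isPreconnected (mem_ball_self he₁0) hfr
    exact h6 h1
  · obtain ⟨h1, h2⟩ := hsub p hp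
    refine (norm_le_sum (H p)).trans (Finset.sum_le_sum fun j _ => ?_)
    rw [hH]
    exact hGb j p ⟨ball_subset_ball he₁a h1, hzR h2⟩

/-- the extension to complex parameters spreads, uniformly -/
theorem spread_u {l : Filter ι} {Φ : ι → ℝ → ℂ → MN N} {s₀ : ℝ} {Ω : Set ℂ} (hΦ : UFam l Φ s₀ Ω) (hΩc : IsPreconnected Ω) {z₁ : ℂ} (hz₁ : z₁ ∈ Ω)
    (hE : UE l Φ s₀ z₁) : ∀ z ∈ Ω, UE l Φ s₀ z := by
  obtain ⟨A, hA⟩ : ∃ A : Set ℂ, ∀ z, z ∈ A ↔ UE l Φ s₀ z := ⟨{z | UE l Φ s₀ z}, fun _ => Iff.rfl⟩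
  have hAo : IsOpen A := by
    rw [Metric.isOpen_iff]
    intro z hz
    obtain ⟨v, e, M, he, h⟩ := (hA z).1 hz
    refine ⟨e, he, fun w hw => (hA w).2 ⟨v, e - dist w z, M, by linarith [mem_ball.1 hw], h.mono fun i hi => hi.shrink (ball_subset_ball' ?_)⟩⟩
    have : dist ((s₀ : ℂ), w) ((s₀ : ℂ), z) = dist w z := by
      rw [Prod.dist_eq, dist_self, max_eq_right dist_nonneg]
    rw [this]
    linarith
  have hcl : closure A ∩ Ω ⊆ A := by
    rintro z ⟨hz, hzΩ⟩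
    obtain ⟨v, r, c, hr, hc, hcz⟩ := hΦ.cont z hzΩ
    obtain ⟨w, hwA, hwz⟩ := Metric.mem_closure_iff.1 hz (r / 2) (by linarith)
    refine (hA z).2 (step hΦ.lift (δ := r / 2) (by linarith) (z₁ := w) (R := r / 2) v hc ?_ ((hA w).1 hwA) (mem_ball.2 hwz))
    filter_upwards [hcz] with i hi s hs x hx
    refine hi s ⟨by linarith only [hr, hs, hs.1], by linarith [hs.2]⟩ x ?_
    rw [mem_ball]
    have := dist_triangle x w z
    have h5 := mem_ball.1 hx
    have h6 : dist w z < r / 2 := by rw [dist_comm]; exact hwz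
    linarith
  intro z hz
  have h := hΩc.subset_of_closure_inter_subset hAo ⟨z₁, hz₁, (hA z₁).2 hE⟩ hcl
  exact (hA z).1 (h hz)

end Pool.Agent.G4.C

end
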