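import Pool.Agent.H94.G5T.M01

/-! The parts of this file: H56.G3.Chain, H7.Gtu.Res, TG.Dyn, TG.DyL, TG.DyB, TG.DyC, TG.DyD, TG.DyE, TG.DyF. -/

section

/-!
# G3 Chain: a Harnack chain in the half plane gives polynomial growth
-/

set_option autoImplicit false

open Set Metric Real

namespace Pool.Agent.H56.G3

/-- the imaginary part can be moved by a multiple of `2 π` -/
private lemma shift_im (x y : ℝ) : ∃ k : ℤ, |x - (y + k * (2 * π))| ≤ π := by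
  have hπ : (0 : ℝ) < 2 * π := by positivity
  refine ⟨round ((x - y) / (2 * π)), ?_⟩
  have h1 := abs_sub_round ((x - y) / (2 * π))
  have h2 : x - (y + round ((x - y) / (2 * π)) * (2 * π)) = ((x - y) / (2 * π) - round ((x - y) / (2 * π))) * (2 * π) := by
    field_simp
    ring
  rw [h2, abs_mul, abs_of_pos hπ]
  nlinarith

private lemma norm_le_abs (w : ℂ) : ‖w‖ ≤ |w.re| + |w.im| := Complex.norm_le_abs_re_add_abs_im w

/-- **Harnack chain.** -/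
theorem chain {G : ℂ → Prop} {E : ℂ → ℝ} {C t₀ : ℝ} (hC : 1 ≤ C) (hE : ∀ w, G w → 1 ≤ E w)
    (hper : ∀ (w : ℂ) (k : ℤ), G w → G (w + k * (2 * π * Complex.I)) ∧ E (w + k * (2 * π * Complex.I)) = E w)
    (hstep : ∀ w, G w → t₀ ≤ -w.re → ∀ w' : ℂ, ‖w' - w‖ ≤ -w.re / 8 →
      ∃ w₁ ∈ ball w' (-w.re / 32), G w₁ ∧ E w₁ ≤ C * (E w + Real.log (-w.re)))
    {w₀ : ℂ} (hG₀ : G w₀) (ht₀ : 2 * t₀ ≤ -w₀.re) (h116 : 116 ≤ -w₀.re) :
    ∃ (p : ℕ) (K : ℝ), 0 < K ∧ ∀ w : ℂ, -w₀.re ≤ -w.re → ∃ w₁, G w₁ ∧ ‖w - w₁‖ ≤ -w₁.re / 8 ∧ t₀ ≤ -w₁.re ∧ -w₁.re ≤ 2 * -w.re ∧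
      E w₁ ≤ K * (-w.re) ^ p := by
  obtain ⟨s₀, hs₀⟩ : ∃ s₀ : ℝ, s₀ = -w₀.re := ⟨_, rfl⟩
  rw [← hs₀] at ht₀ h116 ⊢
  have hs₀0 : 0 < s₀ := by linarith
  obtain ⟨s, hs⟩ : ∃ s : ℕ → ℝ, s = fun j => s₀ * (17 / 16) ^ j := ⟨_, rfl⟩
  have hse : ∀ j, s j = s₀ * (17 / 16) ^ j := fun j => by rw [hs]
  have hss : ∀ j, s (j + 1) = 17 / 16 * s j := fun j => by rw [hse, hse, pow_succ]; ring
  have hsge : ∀ j, s₀ ≤ s j := by
    intro j
    rw [hse]
    exact le_mul_of_one_le_right hs₀0.le (one_le_pow₀ (by norm_num))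
  -- the constants
  obtain ⟨D, hD⟩ : ∃ D : ℝ, D = 2 * C + 2 := ⟨_, rfl⟩
  have hD0 : 0 < D := by linarith
  obtain ⟨K, hK⟩ : ∃ K : ℝ, K = E w₀ + (Real.log (2 * s₀) + 1) := ⟨_, rfl⟩
  have hlog0 : 0 ≤ Real.log (2 * s₀) := Real.log_nonneg (by linarith)
  have hK0 : 0 < K := by
    have := hE w₀ hG₀
    linarith
  -- the chain
  have key : ∀ j : ℕ, ∃ w, G w ∧ |-w.re - s j| ≤ s j / 32 ∧ E w ≤ K * D ^ j := by
    intro j
    induction j with
    | zero =>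
      refine ⟨w₀, hG₀, ?_, ?_⟩
      · rw [hse, ← hs₀]
        simp only [pow_zero, mul_one, sub_self, abs_zero]
        positivity
      · rw [pow_zero, mul_one, hK]
        linarith
    | succ j ih =>
      obtain ⟨w, hGw, hw1, hw2⟩ := ih
      have hsj : s₀ ≤ s j := hsge j
      have hsj0 : 0 < s j := by linarith
      obtain ⟨h1, h2⟩ := abs_le.1 hw1
      obtain ⟨t, ht⟩ : ∃ t : ℝ, t = -w.re := ⟨_, rfl⟩
      rw [← ht] at h1 h2
      obtain ⟨w', hw'⟩ : ∃ w' : ℂ, w' = ((-s (j + 1) : ℝ) : ℂ) + (w.im : ℂ) * Complex.I := ⟨_, rfl⟩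
      have hw're : w'.re = -s (j + 1) := by rw [hw']; simp
      have hw'im : w'.im = w.im := by rw [hw']; simp
      have hdist : ‖w' - w‖ ≤ -w.re / 8 := by
        refine (norm_le_abs _).trans ?_
        rw [Complex.sub_re, Complex.sub_im, hw're, hw'im, sub_self, abs_zero, add_zero, ← ht, hss]
        have h3 : w.re = -t := by rw [ht, neg_neg]
        rw [h3, abs_le]
        constructor <;> linarith
      obtain ⟨w₁, hw₁, hG₁, hE₁⟩ := hstep w hGw (by rw [← ht]; linarith) w' hdist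
      refine ⟨w₁, hG₁, ?_, ?_⟩
      · rw [mem_ball_iff_norm, ← ht] at hw₁
        have h3 := Complex.abs_re_le_norm (w₁ - w')
        rw [Complex.sub_re, hw're] at h3
        have h4 : |-w₁.re - s (j + 1)| = |w₁.re - -s (j + 1)| := by
          rw [← abs_neg]
          congr 1
          ring
        rw [h4]
        refine (h3.trans hw₁.le).trans ?_
        rw [hss]
        linarith
      · have h5 : Real.log t ≤ (Real.log (2 * s₀) + 1) * 2 ^ j := by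
          have h6 : t ≤ (2 * s₀) * (17 / 16) ^ j := by
            have : t ≤ 2 * s j := by linarith
            rw [hse] at this
            linarith
          have ht0 : 0 < t := by linarith
          have h7 := Real.log_le_log ht0 h6
          rw [Real.log_mul (by linarith) (by positivity), Real.log_pow] at h7
          have h8 : Real.log (17 / 16) ≤ 1 := by
            have := Real.log_le_sub_one_of_pos (show (0 : ℝ) < 17 / 16 by norm_num)
            linarith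
          have h9 : (j : ℝ) ≤ 2 ^ j := by
            have := Nat.lt_two_pow_self (n := j)
            exact_mod_cast this.le
          have h10 : (1 : ℝ) ≤ 2 ^ j := one_le_pow₀ (by norm_num)
          have h11 : (j : ℝ) * Real.log (17 / 16) ≤ j * 1 := mul_le_mul_of_nonneg_left h8 (Nat.cast_nonneg j)
          nlinarith
        have h12 : (2 : ℝ) ^ j ≤ D ^ j := pow_le_pow_left₀ (by norm_num) (by linarith) j
        have h13 : Real.log (2 * s₀) + 1 ≤ K := by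
          have := hE w₀ hG₀
          linarith
        have h14 : Real.log t ≤ K * D ^ j := h5.trans (mul_le_mul h13 h12 (by positivity) hK0.le)
        have h15 : C * (E w + Real.log t) ≤ C * (K * D ^ j + K * D ^ j) := mul_le_mul_of_nonneg_left (add_le_add hw2 h14) (by linarith)
        have h16 : 0 ≤ K * D ^ j := by positivity
        rw [← ht] at hE₁
        rw [pow_succ]
        have h17 : K * (D ^ j * D) = C * (K * D ^ j + K * D ^ j) + 2 * (K * D ^ j) := by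
          rw [hD]
          ring
        rw [h17]
        linarith
  -- the exponent
  obtain ⟨p, hp⟩ : ∃ p : ℕ, D < (17 / 16 : ℝ) ^ p := pow_unbounded_of_one_lt D (by norm_num)
  refine ⟨p, K, hK0, ?_⟩
  intro w hw
  obtain ⟨t, ht⟩ : ∃ t : ℝ, t = -w.re := ⟨_, rfl⟩
  rw [← ht] at hw ⊢
  -- the index
  obtain ⟨j, hj1, hj2⟩ : ∃ j : ℕ, s j ≤ t ∧ t < s (j + 1) := by
    have h1 : (1 : ℝ) ≤ t / s₀ := by rw [le_div_iff₀ hs₀0]; linarith
    obtain ⟨j, hj1, hj2⟩ := exists_nat_pow_near h1 (show (1 : ℝ) < 17 / 16 by norm_num)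
    refine ⟨j, ?_, ?_⟩
    · rw [hse, mul_comm, ← le_div_iff₀ hs₀0]
      exact hj1
    · rw [hse, mul_comm, ← div_lt_iff₀ hs₀0]
      exact hj2
  obtain ⟨w₁, hG₁, hw₁, hE₁⟩ := key j
  have hsj : s₀ ≤ s j := hsge j
  obtain ⟨k, hk⟩ := shift_im w.im w₁.im
  obtain ⟨h1, h2⟩ := abs_le.1 hw₁
  have hre : (w₁ + k * (2 * π * Complex.I)).re = w₁.re := by simp
  have him : (w₁ + k * (2 * π * Complex.I)).im = w₁.im + k * (2 * π) := by simp
  obtain ⟨hG₂, hE₂⟩ := hper w₁ k hG₁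
  refine ⟨w₁ + k * (2 * π * Complex.I), hG₂, ?_, ?_, ?_, ?_⟩
  · refine (norm_le_abs _).trans ?_
    rw [Complex.sub_re, Complex.sub_im, hre, him]
    have h3 : w.re = -t := by rw [ht, neg_neg]
    have h4 : |w.re - w₁.re| ≤ 3 / 32 * s j := by
      rw [h3, abs_le]
      rw [hss] at hj2
      constructor <;> linarith
    have h5 := pi_lt_d2
    linarith
  · rw [hre]
    linarith
  · rw [hre]
    linarith
  · rw [hE₂]
    refine hE₁.trans (mul_le_mul_of_nonneg_left ?_ hK0.le)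
    have h3 : D ^ j ≤ ((17 / 16 : ℝ) ^ j) ^ p := by
      rw [← pow_mul, mul_comm, pow_mul]
      exact pow_le_pow_left₀ hD0.le hp.le j
    refine h3.trans (pow_le_pow_left₀ (by positivity) ?_ p)
    have h4 : s j = s₀ * (17 / 16) ^ j := hse j
    have h5 : (0 : ℝ) < (17 / 16) ^ j := by positivity
    nlinarith

end Pool.Agent.H56.G3

end

section

/-!
# Gtu Res: residue fields of discrete valuations and algebraic extensions

Let `L` be an algebraic extension of `K`, and let `v` be a valuation of `L` which is nonnegative on `ℂ`.  If there are `n` elements of the valuation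
ring of `L` with algebraically independent residue classes, then there are `n` such elements in `K`.
-/

set_option autoImplicit false

open Polynomial

noncomputable section

namespace Pool.Agent.H7.Gtu

variable {K L : Type} [Field K] [Algebra ℂ K] [Field L] [Algebra ℂ L]

/-- Transcendence degrees of algebraic extensions. -/
theorem exists_indep {κ κ' : Type} [CommRing κ] [IsDomain κ] [CommRing κ'] [IsDomain κ'] [Algebra ℂ κ] [Algebra ℂ κ'] (f : κ →ₐ[ℂ] κ')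
    (hf : Function.Injective f) (halg : ∀ y, ∃ q : κ[X], q ≠ 0 ∧ q.eval₂ (f : κ →+* κ') y = 0) {n : ℕ} {s : Fin n → κ'}
    (hs : AlgebraicIndependent ℂ s) : ∃ t : Fin n → κ, AlgebraicIndependent ℂ t := by
  let _ : Algebra κ κ' := f.toRingHom.toAlgebra
  have _ : IsScalarTower ℂ κ κ' := IsScalarTower.of_algebraMap_eq fun c => (f.commutes c).symm
  have _ : FaithfulSMul κ κ' := (faithfulSMul_iff_algebraMap_injective _ _).2 hf
  have _ : Algebra.IsAlgebraic κ κ' := by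
    refine ⟨fun y => ?_⟩
    obtain ⟨q, hq0, hq⟩ := halg y
    exact ⟨q, hq0, hq⟩
  have _ : FaithfulSMul ℂ κ := (faithfulSMul_iff_algebraMap_injective _ _).2 (algebraMap ℂ _).injective
  obtain ⟨ι, x, hx⟩ := exists_isTranscendenceBasis' ℂ κ
  have hx' : IsTranscendenceBasis ℂ (algebraMap κ κ' ∘ x) := hx.algebraMap_comp
  have h1 := hs.lift_cardinalMk_le_trdeg
  have h2 := hx'.lift_cardinalMk_eq_trdeg
  rw [← h2] at h1
  obtain ⟨φ⟩ := Cardinal.lift_mk_le'.1 h1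
  exact ⟨x ∘ φ, hx.1.comp φ φ.injective⟩

/-- The valuation ring. -/
def vring (v : AddValuation L (WithTop ℤ)) (hv : ∀ c : ℂ, 0 ≤ v (algebraMap ℂ L c)) : Subalgebra ℂ L where
  carrier := {x | 0 ≤ v x}
  mul_mem' := by
    intro a b ha hb
    change 0 ≤ v (a * b)
    rw [v.map_mul]
    exact add_nonneg ha hb
  add_mem' := by
    intro a b ha hb
    exact (le_min ha hb).trans (v.map_add a b)
  algebraMap_mem' := hv

/-- The maximal ideal. -/
def vmax (v : AddValuation L (WithTop ℤ)) (hv : ∀ c : ℂ, 0 ≤ v (algebraMap ℂ L c)) : Ideal (vring v hv) where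
  carrier := {x | 0 < v (x : L)}
  add_mem' := by
    intro a b ha hb
    exact (lt_min ha hb).trans_le (v.map_add a b)
  zero_mem' := by
    change 0 < v (0 : L)
    rw [v.map_zero]
    exact WithTop.coe_lt_top 0
  smul_mem' := by
    intro c x hx
    change 0 < v ((c : L) * x)
    rw [v.map_mul]
    exact lt_of_lt_of_le hx (le_add_of_nonneg_left c.2)

instance vmax_isPrime (v : AddValuation L (WithTop ℤ)) (hv : ∀ c : ℂ, 0 ≤ v (algebraMap ℂ L c)) : (vmax v hv).IsPrime where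
  ne_top' := by
    rw [Ideal.ne_top_iff_one]
    intro h
    have h1 : 0 < v (1 : L) := h
    rw [v.map_one] at h1
    exact lt_irrefl _ h1
  mem_or_mem' := by
    intro x y hxy
    have h1 : 0 < v ((x : L) * y) := hxy
    rw [v.map_mul] at h1
    by_contra hcon
    push Not at hcon
    have h2 : v (x : L) = 0 := le_antisymm (not_lt.1 hcon.1) x.2
    have h3 : v (y : L) = 0 := le_antisymm (not_lt.1 hcon.2) y.2
    rw [h2, h3, add_zero] at h1
    exact lt_irrefl _ h1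

/-- The residue field. -/
abbrev vres (v : AddValuation L (WithTop ℤ)) (hv : ∀ c : ℂ, 0 ≤ v (algebraMap ℂ L c)) : Type := vring v hv ⧸ vmax v hv

section Ext

variable [Algebra K L] [IsScalarTower ℂ K L]

/-- The restriction of the valuation. -/
def vcom (K : Type) [Field K] [Algebra K L] (v : AddValuation L (WithTop ℤ)) : AddValuation K (WithTop ℤ) := v.comap (algebraMap K L)

omit [Algebra ℂ K] [Algebra ℂ L] [IsScalarTower ℂ K L] in
theorem vcom_apply (v : AddValuation L (WithTop ℤ)) (x : K) : vcom K v x = v (algebraMap K L x) := rfl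

theorem vcom_const {v : AddValuation L (WithTop ℤ)} (hv : ∀ c : ℂ, 0 ≤ v (algebraMap ℂ L c)) (c : ℂ) :
    0 ≤ vcom K v (algebraMap ℂ K c) := by
  rw [vcom_apply, ← IsScalarTower.algebraMap_apply]
  exact hv c

/-- The map of the valuation rings. -/
def vmap (v : AddValuation L (WithTop ℤ)) (hv : ∀ c : ℂ, 0 ≤ v (algebraMap ℂ L c)) :
    vring (vcom K v) (vcom_const hv) →ₐ[ℂ] vring v hv where
  toFun x := ⟨algebraMap K L x, x.2⟩
  map_one' := Subtype.ext (map_one (algebraMap K L))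
  map_mul' _ _ := Subtype.ext (map_mul (algebraMap K L) _ _)
  map_zero' := Subtype.ext (map_zero (algebraMap K L))
  map_add' _ _ := Subtype.ext (map_add (algebraMap K L) _ _)
  commutes' c := Subtype.ext (IsScalarTower.algebraMap_apply ℂ K L c).symm

/-- The map of the residue fields. -/
def rmap (v : AddValuation L (WithTop ℤ)) (hv : ∀ c : ℂ, 0 ≤ v (algebraMap ℂ L c)) :
    vres (vcom K v) (vcom_const hv) →ₐ[ℂ] vres v hv :=
  Ideal.quotientMapₐ (vmax v hv) (vmap v hv) fun _ hx => hx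

theorem rmap_mk (v : AddValuation L (WithTop ℤ)) (hv : ∀ c : ℂ, 0 ≤ v (algebraMap ℂ L c)) (x : vring (vcom K v) (vcom_const hv)) :
    rmap (K := K) v hv (Ideal.Quotient.mk _ x) = Ideal.Quotient.mk _ (vmap v hv x) := rfl

theorem rmap_injective (v : AddValuation L (WithTop ℤ)) (hv : ∀ c : ℂ, 0 ≤ v (algebraMap ℂ L c)) :
    Function.Injective (rmap (K := K) v hv) := by
  rw [injective_iff_map_eq_zero]
  intro x hx
  obtain ⟨x, rfl⟩ := Ideal.Quotient.mk_surjective x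
  rw [rmap_mk, Ideal.Quotient.eq_zero_iff_mem] at hx
  rw [Ideal.Quotient.eq_zero_iff_mem]
  exact hx

/-- The extension of the residue fields is algebraic. -/
theorem rmap_algebraic [Algebra.IsAlgebraic K L] (v : AddValuation L (WithTop ℤ)) (hv : ∀ c : ℂ, 0 ≤ v (algebraMap ℂ L c)) (y : vres v hv) :
    ∃ q : (vres (vcom K v) (vcom_const hv))[X], q ≠ 0 ∧ q.eval₂ (rmap (K := K) v hv : vres (vcom K v) (vcom_const hv) →+* vres v hv) y = 0 := by
  obtain ⟨x, rfl⟩ := Ideal.Quotient.mk_surjective y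
  obtain ⟨p, hp0, hp⟩ := Algebra.IsAlgebraic.isAlgebraic (R := K) (x : L)
  obtain ⟨i, hi, hmin⟩ := Finset.exists_min_image p.support (fun i => vcom K v (p.coeff i)) (Polynomial.support_nonempty.2 hp0)
  have hc0 : p.coeff i ≠ 0 := Polynomial.mem_support_iff.1 hi
  have hq : C (p.coeff i)⁻¹ * p ∈ Polynomial.lifts (algebraMap (vring (vcom K v) (vcom_const hv)) K) := by
    rw [Polynomial.lifts_iff_coeff_lifts]
    intro n
    rw [Polynomial.coeff_C_mul]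
    have h1 : 0 ≤ vcom K v ((p.coeff i)⁻¹ * p.coeff n) := by
      by_cases hn : p.coeff n = 0
      · rw [hn, mul_zero, AddValuation.map_zero]
        exact le_top
      · have h2 := hmin n (Polynomial.mem_support_iff.2 hn)
        have h3 : vcom K v (p.coeff i) + vcom K v ((p.coeff i)⁻¹ * p.coeff n) = vcom K v (p.coeff n) := by
          rw [← AddValuation.map_mul, mul_inv_cancel_left₀ hc0]
        rw [← h3] at h2
        have h4 : vcom K v (p.coeff i) ≠ ⊤ := (AddValuation.ne_top_iff _).2 hc0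
        have h5 : vcom K v (p.coeff i) + 0 ≤ vcom K v (p.coeff i) + vcom K v ((p.coeff i)⁻¹ * p.coeff n) := by rwa [add_zero]
        exact (WithTop.add_le_add_iff_left h4).1 h5
    exact ⟨⟨_, h1⟩, rfl⟩
  obtain ⟨Q, hQ⟩ := (Polynomial.mem_lifts _).1 hq
  refine ⟨Q.map (Ideal.Quotient.mk _), ?_, ?_⟩
  · intro h0
    have h1 : (Q.map (Ideal.Quotient.mk (vmax (vcom K v) (vcom_const hv)))).coeff i = 0 := by rw [h0, Polynomial.coeff_zero]
    have h2 : (Q.coeff i : K) = 1 := by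
      have h3 : (Q.map (algebraMap (vring (vcom K v) (vcom_const hv)) K)).coeff i = (C (p.coeff i)⁻¹ * p).coeff i := by rw [hQ]
      rw [Polynomial.coeff_map, Polynomial.coeff_C_mul, inv_mul_cancel₀ hc0] at h3
      exact h3
    have h4 : Q.coeff i = 1 := Subtype.ext h2
    rw [Polynomial.coeff_map, h4, map_one] at h1
    exact one_ne_zero h1
  · rw [Polynomial.eval₂_map]
    have h1 : (rmap (K := K) v hv : vres (vcom K v) (vcom_const hv) →+* vres v hv).comp (Ideal.Quotient.mk _) =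
        (Ideal.Quotient.mk (vmax v hv)).comp (vmap (K := K) v hv : _ →+* vring v hv) := rfl
    rw [h1, ← Polynomial.hom_eval₂]
    have h2 : Q.eval₂ (vmap (K := K) v hv : vring (vcom K v) (vcom_const hv) →+* vring v hv) x = 0 := by
      apply Subtype.ext
      have h3 : ((Q.eval₂ (vmap (K := K) v hv : vring (vcom K v) (vcom_const hv) →+* vring v hv) x : vring v hv) : L) =
          Q.eval₂ ((algebraMap K L).comp (algebraMap (vring (vcom K v) (vcom_const hv)) K)) (x : L) :=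
        Polynomial.hom_eval₂ Q (vmap (K := K) v hv : vring (vcom K v) (vcom_const hv) →+* vring v hv) (algebraMap (vring v hv) L) x
      rw [h3, ← Polynomial.eval₂_map, hQ, Polynomial.eval₂_mul]
      have h4 : p.eval₂ (algebraMap K L) (x : L) = 0 := hp
      rw [h4, mul_zero]
      rfl
    rw [h2, map_zero]

/-- **Residual independence goes down.** -/
theorem exists_residue [Algebra.IsAlgebraic K L] (v : AddValuation L (WithTop ℤ)) (hv : ∀ c : ℂ, 0 ≤ v (algebraMap ℂ L c)) {n : ℕ}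
    (h : ∃ s : Fin n → L, (∀ i, 0 ≤ v (s i)) ∧ ∀ p : MvPolynomial (Fin n) ℂ, p ≠ 0 → v (MvPolynomial.aeval s p) = 0) :
    ∃ s : Fin n → K, (∀ i, 0 ≤ v (algebraMap K L (s i))) ∧
      ∀ p : MvPolynomial (Fin n) ℂ, p ≠ 0 → v (algebraMap K L (MvPolynomial.aeval s p)) = 0 := by
  obtain ⟨s, hs, hp⟩ := h
  -- the residue classes of the given elements
  have hs' : AlgebraicIndependent ℂ (fun i => (Ideal.Quotient.mk (vmax v hv) (⟨s i, hs i⟩ : vring v hv))) := by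
    rw [algebraicIndependent_iff]
    intro p hp0
    by_contra hne
    have h1 : MvPolynomial.aeval (fun i => (Ideal.Quotient.mk (vmax v hv) (⟨s i, hs i⟩ : vring v hv))) p =
        Ideal.Quotient.mk (vmax v hv) (MvPolynomial.aeval (fun i => (⟨s i, hs i⟩ : vring v hv)) p) := by
      have h2 := MvPolynomial.comp_aeval (fun i => (⟨s i, hs i⟩ : vring v hv)) (Ideal.Quotient.mkₐ ℂ (vmax v hv))
      exact (DFunLike.congr_fun h2 p).symm
    rw [h1, Ideal.Quotient.eq_zero_iff_mem] at hp0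
    have h3 : ((MvPolynomial.aeval (fun i => (⟨s i, hs i⟩ : vring v hv)) p : vring v hv) : L) = MvPolynomial.aeval s p := by
      have h2 := MvPolynomial.comp_aeval (fun i => (⟨s i, hs i⟩ : vring v hv)) (vring v hv).val
      exact DFunLike.congr_fun h2 p
    have h4 : 0 < v ((MvPolynomial.aeval (fun i => (⟨s i, hs i⟩ : vring v hv)) p : vring v hv) : L) := hp0
    rw [h3, hp p hne] at h4
    exact lt_irrefl _ h4
  obtain ⟨x, h3⟩ := exists_indep (rmap (K := K) v hv) (rmap_injective v hv) (rmap_algebraic (K := K) v hv) hs'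
  choose y hy using fun i => Ideal.Quotient.mk_surjective (x i)
  refine ⟨fun i => (y i : K), fun i => (y i).2, fun p hp0 => ?_⟩
  have h4 : Ideal.Quotient.mk (vmax (vcom K v) (vcom_const hv)) (MvPolynomial.aeval y p) ≠ 0 := by
    have h5 := MvPolynomial.comp_aeval y (Ideal.Quotient.mkₐ ℂ (vmax (vcom K v) (vcom_const hv)))
    have h6 : Ideal.Quotient.mk (vmax (vcom K v) (vcom_const hv)) (MvPolynomial.aeval y p) =
        MvPolynomial.aeval (fun i => Ideal.Quotient.mkₐ ℂ (vmax (vcom K v) (vcom_const hv)) (y i)) p := DFunLike.congr_fun h5 p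
    have h7 : (fun i => Ideal.Quotient.mkₐ ℂ (vmax (vcom K v) (vcom_const hv)) (y i)) = x := funext hy
    rw [h6, h7]
    intro h8
    exact hp0 ((algebraicIndependent_iff.1 h3) p h8)
  have h5 : ((MvPolynomial.aeval y p : vring (vcom K v) (vcom_const hv)) : K) = MvPolynomial.aeval (fun i => (y i : K)) p := by
    have h2 := MvPolynomial.comp_aeval y (vring (vcom K v) (vcom_const hv)).val
    exact DFunLike.congr_fun h2 p
  rw [← h5]
  refine le_antisymm (not_lt.1 fun h6 => h4 ?_) (MvPolynomial.aeval y p : vring (vcom K v) (vcom_const hv)).2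
  rw [Ideal.Quotient.eq_zero_iff_mem]
  exact h6

end Ext

end Pool.Agent.H7.Gtu

end
end

section

/-!
# TG Dyn: the abstract dynamical situation (`EL/Dyn` with `EN k = ℂ^(k+1)` for `ℂ`)

`S` is a compact, `Γ`-invariant family of maps `ℂ^(k+1) \ D → Y` (maps `EN k → Y` whose values on `D` do not matter), `D` is a closed
`Γ`-invariant set.  `Nz z y y'` means that the integral between the near points `y`, `y'` over `z` is `0`; it may hold for different points, but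
only near the closed set `Zr`.  Closeness is known on the closed set `G`, and the conclusions hold on the open set `O ⊆ G`.
-/

set_option autoImplicit false

open Topology Filter Metric

namespace Pool.Agent.TG

open Pool.Agent.H36.BP (EN)

/-- the two maps agree outside `D` -/
def Ag {V Y : Type} (D : Set V) (f g : V → Y) : Prop := ∀ z, z ∉ D → f z = g z

/-- the abstract situation -/
structure Dyn {k : ℕ} {Y : Type} [MetricSpace Y] (K : Set Y) (Γ : AddSubgroup (EN k)) (D G O : Set (EN k)) (S : Set (EN k → Y))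
    (Zr : EN k → Y → Prop) (Nz : EN k → Y → Y → Prop) : Prop where
  compact : IsCompact K
  cpt : ∃ R : ℝ, 0 < R ∧ ∀ z : EN k, ∃ l ∈ Γ, ‖z - l‖ ≤ R
  D_closed : IsClosed D
  D_inv : ∀ z, ∀ l ∈ Γ, (z + l ∈ D ↔ z ∈ D)
  G_closed : IsClosed G
  G_inv : ∀ z, ∀ l ∈ Γ, (z + l ∈ G ↔ z ∈ G)
  G_D : ∀ z ∈ G, z ∉ D
  O_open : IsOpen O
  O_inv : ∀ z, ∀ l ∈ Γ, (z + l ∈ O ↔ z ∈ O)
  O_sub : O ⊆ G
  O_ne : O.Nonempty
  mem : ∀ f ∈ S, ∀ z, z ∉ D → f z ∈ K
  lip : ∀ z, z ∉ D → ∃ L r : ℝ, 0 < L ∧ 0 < r ∧ ∀ f ∈ S, ∀ w ∈ ball z r, ∀ w' ∈ ball z r, dist (f w) (f w') ≤ L * ‖w - w'‖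
  trans : ∀ f ∈ S, ∀ l ∈ Γ, (fun z => f (z + l)) ∈ S
  lim : ∀ (𝒰 : Ultrafilter ℕ) (F : ℕ → EN k → Y) (f : EN k → Y), (∀ᶠ n in (𝒰 : Filter ℕ), F n ∈ S) →
    (∀ z, z ∉ D → Tendsto (fun n => F n z) 𝒰 (𝓝 (f z))) → f ∈ S
  uniq : ∀ f ∈ S, ∀ g ∈ S, ∀ z₀, z₀ ∉ D → (∀ᶠ z in 𝓝 z₀, f z = g z) → Ag D f g
  Z_inv : ∀ z, ∀ l ∈ Γ, ∀ y, Zr (z + l) y ↔ Zr z y
  Z_lim : ∀ (𝒰 : Ultrafilter ℕ) (F : ℕ → EN k → Y), ∀ f ∈ S, (∀ᶠ n in (𝒰 : Filter ℕ), F n ∈ S) →
    (∀ z, z ∉ D → Tendsto (fun n => F n z) 𝒰 (𝓝 (f z))) → ∀ z ∈ O, (∀ᶠ n in (𝒰 : Filter ℕ), Zr z (F n z)) → Zr z (f z)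
  N_inv : ∀ z, ∀ l ∈ Γ, ∀ y y', Nz (z + l) y y' ↔ Nz z y y'
  half : ∃ r₁ ε₀ : ℝ, 0 < r₁ ∧ 0 < ε₀ ∧ ∀ f ∈ S, ∀ g ∈ S, ∀ (ζ : EN k) (t : ℝ), ‖ζ‖ = 1 →
    (∀ z ∈ G, (inner ℂ ζ z : ℂ).re ≤ t → dist (f z) (g z) ≤ ε₀) → ∀ z ∈ O, (inner ℂ ζ z : ℂ).re ≤ t - r₁ → Nz z (f z) (g z)
  near : ∀ (𝒰 : Ultrafilter ℕ) (F H : ℕ → EN k → Y) (w : ℕ → EN k), ∀ f ∈ S, ∀ z ∈ O,
    (∀ᶠ n in (𝒰 : Filter ℕ), F n ∈ S ∧ H n ∈ S) → (∀ z, z ∉ D → Tendsto (fun n => F n z) 𝒰 (𝓝 (f z))) →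
    (∀ z, z ∉ D → Tendsto (fun n => H n z) 𝒰 (𝓝 (f z))) → Tendsto w 𝒰 (𝓝 z) →
    (∀ᶠ n in (𝒰 : Filter ℕ), w n ∈ O ∧ F n (w n) ≠ H n (w n) ∧ Nz (w n) (F n (w n)) (H n (w n))) → Zr z (f z)
  iso : ∀ e ∈ S, (∀ z ∈ O, Zr z (e z)) → ∃ (z₀ : EN k) (r ε : ℝ), 0 < r ∧ 0 < ε ∧ ball z₀ r ⊆ O ∧
    ∀ g ∈ S, ∀ z ∈ ball z₀ r, dist (g z) (e z) < ε → (Nz z (e z) (g z) ∨ Zr z (g z)) → g z = e z

/-- the members of `S` inside `Zr` -/
def ZS {V Y : Type} (O : Set V) (S : Set (V → Y)) (Zr : V → Y → Prop) : Set (V → Y) :=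
  {e | e ∈ S ∧ ∀ z ∈ O, Zr z (e z)}

end Pool.Agent.TG

end

section

/-!
# TG DyL: the abstract dynamical situation in a real inner product space, limits and translations

`DynE` is `Dyn` with a real inner product space `E` for `ℂ^(k+1)` (fields as there).
-/

set_option autoImplicit false
set_option linter.unusedSectionVars false

open Topology Filter Metric RealInnerProductSpace

namespace Pool.Agent.TG

/-- the abstract situation in a real inner product space -/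
structure DynE {E : Type} [NormedAddCommGroup E] [InnerProductSpace ℝ E] {Y : Type} [MetricSpace Y] (K : Set Y) (Λ : AddSubgroup E)
    (D G O : Set E) (S : Set (E → Y)) (Zr : E → Y → Prop) (N : E → Y → Y → Prop) : Prop where
  compact : IsCompact K
  cpt : ∃ R : ℝ, 0 < R ∧ ∀ z : E, ∃ l ∈ Λ, ‖z - l‖ ≤ R
  D_closed : IsClosed D
  D_inv : ∀ z, ∀ l ∈ Λ, (z + l ∈ D ↔ z ∈ D)
  G_closed : IsClosed G
  G_inv : ∀ z, ∀ l ∈ Λ, (z + l ∈ G ↔ z ∈ G)
  G_D : ∀ z ∈ G, z ∉ D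
  O_open : IsOpen O
  O_inv : ∀ z, ∀ l ∈ Λ, (z + l ∈ O ↔ z ∈ O)
  O_sub : O ⊆ G
  O_ne : O.Nonempty
  mem : ∀ f ∈ S, ∀ z, z ∉ D → f z ∈ K
  lip : ∀ z, z ∉ D → ∃ L r : ℝ, 0 < L ∧ 0 < r ∧ ∀ f ∈ S, ∀ w ∈ ball z r, ∀ w' ∈ ball z r, dist (f w) (f w') ≤ L * ‖w - w'‖
  trans : ∀ f ∈ S, ∀ l ∈ Λ, (fun z => f (z + l)) ∈ S
  lim : ∀ (𝒰 : Ultrafilter ℕ) (F : ℕ → E → Y) (f : E → Y), (∀ᶠ n in (𝒰 : Filter ℕ), F n ∈ S) →
    (∀ z, z ∉ D → Tendsto (fun n => F n z) 𝒰 (𝓝 (f z))) → f ∈ S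
  uniq : ∀ f ∈ S, ∀ g ∈ S, ∀ z₀, z₀ ∉ D → (∀ᶠ z in 𝓝 z₀, f z = g z) → Ag D f g
  Z_inv : ∀ z, ∀ l ∈ Λ, ∀ y, Zr (z + l) y ↔ Zr z y
  Z_lim : ∀ (𝒰 : Ultrafilter ℕ) (F : ℕ → E → Y), ∀ f ∈ S, (∀ᶠ n in (𝒰 : Filter ℕ), F n ∈ S) →
    (∀ z, z ∉ D → Tendsto (fun n => F n z) 𝒰 (𝓝 (f z))) → ∀ z ∈ O, (∀ᶠ n in (𝒰 : Filter ℕ), Zr z (F n z)) → Zr z (f z)
  N_inv : ∀ z, ∀ l ∈ Λ, ∀ y y', N (z + l) y y' ↔ N z y y'
  half : ∃ r₁ ε₀ : ℝ, 0 < r₁ ∧ 0 < ε₀ ∧ ∀ f ∈ S, ∀ g ∈ S, ∀ (ζ : E) (t : ℝ), ‖ζ‖ = 1 →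
    (∀ z ∈ G, ⟪ζ, z⟫ ≤ t → dist (f z) (g z) ≤ ε₀) → ∀ z ∈ O, ⟪ζ, z⟫ ≤ t - r₁ → N z (f z) (g z)
  near : ∀ (𝒰 : Ultrafilter ℕ) (F H : ℕ → E → Y) (w : ℕ → E), ∀ f ∈ S, ∀ z ∈ O,
    (∀ᶠ n in (𝒰 : Filter ℕ), F n ∈ S ∧ H n ∈ S) → (∀ z, z ∉ D → Tendsto (fun n => F n z) 𝒰 (𝓝 (f z))) →
    (∀ z, z ∉ D → Tendsto (fun n => H n z) 𝒰 (𝓝 (f z))) → Tendsto w 𝒰 (𝓝 z) →
    (∀ᶠ n in (𝒰 : Filter ℕ), w n ∈ O ∧ F n (w n) ≠ H n (w n) ∧ N (w n) (F n (w n)) (H n (w n))) → Zr z (f z)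
  iso : ∀ e ∈ S, (∀ z ∈ O, Zr z (e z)) → ∃ (z₀ : E) (r ε : ℝ), 0 < r ∧ 0 < ε ∧ ball z₀ r ⊆ O ∧
    ∀ g ∈ S, ∀ z ∈ ball z₀ r, dist (g z) (e z) < ε → (N z (e z) (g z) ∨ Zr z (g z)) → g z = e z

variable {E : Type} [NormedAddCommGroup E] [InnerProductSpace ℝ E] [ProperSpace E]
variable {Y : Type} [MetricSpace Y] {K : Set Y} {Λ : AddSubgroup E} {D G O : Set E} {S : Set (E → Y)}
  {Zr : E → Y → Prop} {N : E → Y → Y → Prop}

theorem DynE.g_add (h : DynE K Λ D G O S Zr N) {z l : E} (hl : l ∈ Λ) : z + l ∈ G ↔ z ∈ G := h.G_inv z l hl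

theorem DynE.o_add (h : DynE K Λ D G O S Zr N) {z l : E} (hl : l ∈ Λ) : z + l ∈ O ↔ z ∈ O := h.O_inv z l hl

theorem DynE.notMem_add (h : DynE K Λ D G O S Zr N) {z l : E} (hl : l ∈ Λ) : z + l ∉ D ↔ z ∉ D :=
  not_iff_not.2 (h.D_inv z l hl)

theorem DynE.o_notMem (h : DynE K Λ D G O S Zr N) {z : E} (hz : z ∈ O) : z ∉ D := h.G_D z (h.O_sub hz)

theorem DynE.exists_lim (h : DynE K Λ D G O S Zr N) (𝒰 : Ultrafilter ℕ) (F : ℕ → E → Y) (hF : ∀ᶠ n in (𝒰 : Filter ℕ), F n ∈ S) :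
    ∃ f ∈ S, ∀ z, z ∉ D → Tendsto (fun n => F n z) 𝒰 (𝓝 (f z)) := by
  have key : ∀ z, ∃ y : Y, z ∉ D → Tendsto (fun n => F n z) 𝒰 (𝓝 y) := by
    intro z
    by_cases hz : z ∈ D
    · exact ⟨F 0 z, fun h' => absurd hz h'⟩
    · have h1 : ((𝒰.map fun n => F n z : Ultrafilter Y) : Filter Y) ≤ 𝓟 K := by
        rw [Filter.le_principal_iff]
        show ∀ᶠ n in (𝒰 : Filter ℕ), F n z ∈ K
        filter_upwards [hF] with n hn
        exact h.mem _ hn z hz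
      obtain ⟨y, _, hy⟩ := h.compact.ultrafilter_le_nhds _ h1
      exact ⟨y, fun _ => hy⟩
  choose f hf using key
  exact ⟨f, h.lim 𝒰 F f hF hf, hf⟩

/-- the convergence is locally uniform outside `D`: uniform on the bounded parts of `G` -/
theorem DynE.unif (h : DynE K Λ D G O S Zr N) (𝒰 : Ultrafilter ℕ) (F : ℕ → E → Y) (hF : ∀ᶠ n in (𝒰 : Filter ℕ), F n ∈ S)
    {f : E → Y} (hfS : f ∈ S) (hf : ∀ z, z ∉ D → Tendsto (fun n => F n z) 𝒰 (𝓝 (f z))) (R ε : ℝ)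
    (hε : 0 < ε) : ∀ᶠ n in (𝒰 : Filter ℕ), ∀ z ∈ G, ‖z‖ ≤ R → dist (F n z) (f z) < ε := by
  have hcpt : IsCompact (G ∩ closedBall (0 : E) R) := (isCompact_closedBall 0 R).inter_left h.G_closed
  have key : ∀ x ∈ G ∩ closedBall (0 : E) R, ∃ s : ℝ, 0 < s ∧ ∀ᶠ n in (𝒰 : Filter ℕ), ∀ z ∈ ball x s, dist (F n z) (f z) < ε := by
    intro x hx
    have hxD := h.G_D x hx.1
    obtain ⟨L, r, hL, hr, hlip⟩ := h.lip x hxD
    refine ⟨min r (ε / (4 * L)), lt_min hr (by positivity), ?_⟩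
    have h1 : ∀ᶠ n in (𝒰 : Filter ℕ), dist (F n x) (f x) < ε / 4 :=
      (tendsto_iff_dist_tendsto_zero.mp (hf x hxD)).eventually_lt_const (by positivity)
    filter_upwards [hF, h1] with n hn hn2 z hz
    rw [mem_ball] at hz
    have hz1 : z ∈ ball x r := by
      rw [mem_ball]
      exact hz.trans_le (min_le_left _ _)
    have hz2 : L * ‖x - z‖ ≤ ε / 4 := by
      have h2 : ‖x - z‖ ≤ ε / (4 * L) := by
        rw [← dist_eq_norm, dist_comm]
        exact hz.le.trans (min_le_right _ _)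
      calc L * ‖x - z‖ ≤ L * (ε / (4 * L)) := mul_le_mul_of_nonneg_left h2 hL.le
        _ = ε / 4 := by field_simp
    have h3 := hlip (F n) hn x (mem_ball_self hr) z hz1
    have h4 := hlip f hfS x (mem_ball_self hr) z hz1
    have h5 := dist_triangle4 (F n z) (F n x) (f x) (f z)
    rw [dist_comm (F n z) (F n x)] at h5
    linarith
  choose! s hs hs2 using key
  obtain ⟨t, htC, hcov⟩ := hcpt.elim_nhds_subcover (fun x => ball x (s x)) (fun x hx => ball_mem_nhds x (hs x hx))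
  have hev : ∀ᶠ n in (𝒰 : Filter ℕ), ∀ x ∈ t, ∀ z ∈ ball x (s x), dist (F n z) (f z) < ε := by
    rw [Filter.eventually_all_finset]
    intro x hx
    exact hs2 x (htC x hx)
  filter_upwards [hev] with n hn z hz hzR
  obtain ⟨x, hx, hzx⟩ := Set.mem_iUnion₂.mp (hcov ⟨hz, by rwa [mem_closedBall, dist_zero_right]⟩)
  exact hn x hx z hzx

theorem DynE.tendsto_along (h : DynE K Λ D G O S Zr N) (𝒰 : Ultrafilter ℕ) (F : ℕ → E → Y) (hF : ∀ᶠ n in (𝒰 : Filter ℕ), F n ∈ S)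
    {f : E → Y} (hf : ∀ z, z ∉ D → Tendsto (fun n => F n z) 𝒰 (𝓝 (f z))) {w : ℕ → E} {z : E} (hz : z ∉ D)
    (hw : Tendsto w 𝒰 (𝓝 z)) : Tendsto (fun n => F n (w n)) 𝒰 (𝓝 (f z)) := by
  obtain ⟨L, r, hL, hr, hlip⟩ := h.lip z hz
  rw [tendsto_iff_dist_tendsto_zero]
  have h1 : Tendsto (fun n => L * dist z (w n) + dist (F n z) (f z)) 𝒰 (𝓝 (L * 0 + 0)) := by
    refine Tendsto.add (Tendsto.const_mul L ?_) (tendsto_iff_dist_tendsto_zero.mp (hf z hz))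
    have h2 := tendsto_iff_dist_tendsto_zero.mp hw
    simp only [dist_comm z]
    exact h2
  rw [mul_zero, add_zero] at h1
  refine squeeze_zero' (Eventually.of_forall fun _ => dist_nonneg) ?_ h1
  have h2 : ∀ᶠ n in (𝒰 : Filter ℕ), w n ∈ ball z r := hw.eventually (ball_mem_nhds z hr)
  filter_upwards [hF, h2] with n hn hn2
  have h3 := hlip (F n) hn z (mem_ball_self hr) (w n) hn2
  rw [← dist_eq_norm] at h3
  have h4 := dist_triangle_left (F n (w n)) (f z) (F n z)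
  linarith

/-- two different members of `S` differ at points of `O` near any point of it -/
theorem DynE.exists_ne (h : DynE K Λ D G O S Zr N) {f g : E → Y} (hf : f ∈ S) (hg : g ∈ S) (hne : ¬ Ag D f g) {z : E}
    (hz : z ∈ O) {ε : ℝ} (hε : 0 < ε) : ∃ w ∈ O, ‖w - z‖ < ε ∧ f w ≠ g w := by
  by_contra hcon
  push Not at hcon
  apply hne
  refine h.uniq f hf g hg z (h.o_notMem hz) ?_
  filter_upwards [ball_mem_nhds z hε, h.O_open.mem_nhds hz] with w hw hwO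
  exact hcon w hwO (by rwa [mem_ball, dist_eq_norm] at hw)

theorem DynE.zs_trans (h : DynE K Λ D G O S Zr N) {e : E → Y} (he : e ∈ ZS O S Zr) {l : E} (hl : l ∈ Λ) :
    (fun z => e (z + l)) ∈ ZS O S Zr := by
  refine ⟨h.trans e he.1 l hl, fun z hz => ?_⟩
  exact (h.Z_inv z l hl _).1 (he.2 (z + l) ((h.o_add hl).2 hz))

theorem DynE.zs_lim (h : DynE K Λ D G O S Zr N) (𝒰 : Ultrafilter ℕ) (F : ℕ → E → Y) (hF : ∀ᶠ n in (𝒰 : Filter ℕ), F n ∈ ZS O S Zr)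
    {f : E → Y} (hf : ∀ z, z ∉ D → Tendsto (fun n => F n z) 𝒰 (𝓝 (f z))) : f ∈ ZS O S Zr := by
  have h1 : ∀ᶠ n in (𝒰 : Filter ℕ), F n ∈ S := hF.mono fun n hn => hn.1
  have h2 : f ∈ S := h.lim 𝒰 F f h1 hf
  refine ⟨h2, fun z hz => ?_⟩
  exact h.Z_lim 𝒰 F f h2 h1 hf z hz (hF.mono fun n hn => hn.2 z hz)

theorem DynE.ag_trans (h : DynE K Λ D G O S Zr N) {f g : E → Y} {l : E} (hl : l ∈ Λ) :
    Ag D (fun z => f (z + l)) (fun z => g (z + l)) ↔ Ag D f g := by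
  constructor
  · intro h1 z hz
    have h2 : z - l ∉ D := by
      have h3 := (h.notMem_add (z := z - l) hl).1
      rw [sub_add_cancel] at h3
      exact h3 hz
    have h4 : f (z - l + l) = g (z - l + l) := h1 (z - l) h2
    rwa [sub_add_cancel] at h4
  · intro h1 z hz
    exact h1 (z + l) ((h.notMem_add hl).2 hz)

end Pool.Agent.TG

end

section

/-!
# TG DyB: the members of `S` inside `Zr` are uniformly separated

By contradiction: for every `n` there are `e_n`, `g_n` in `ZS`, not in agreement, and `a_n` with `dist (e_n z) (g_n z) ≤ 1/(n+1)` for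
`z ∈ G`, `‖z - a_n‖ ≤ n`.  Choose `l_n ∈ Λ`, `‖a_n - l_n‖ ≤ R` (lattice) and translate: `e'_n = e_n (· + l_n)`, `g'_n`; they are in
`ZS` (`zs_trans`: `trans`, `Z_inv`, `gd_add`), and `1/(n+1)`-close at the points of `G` with `‖z‖ ≤ n - R`.  Let `𝒰` be an
ultrafilter `≤ atTop` and `e ∈ S` the limit of `e'_n` (`exists_lim`); `e ∈ ZS` by `Z_lim`; `g'_n` has the same limit.  Let `z₀, r, ε` be
from `iso e`.  By `unif` (`ball z₀ (r/2)` is bounded and inside `Gd D (2δ)`), eventually `dist (e'_n z) (e z) < ε` and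
`dist (g'_n z) (e z) < ε` on `ball z₀ (r/2)`, so `e'_n z = e z = g'_n z` there (`iso`, second alternative; `e'_n, g'_n ∈ ZS`).  By `uniq`
(`z₀ ∉ D`) `Ag D e'_n g'_n`, so `Ag D e_n g_n` (translate back): contradiction.
-/

set_option autoImplicit false
set_option linter.unusedSectionVars false

open Topology Filter Metric RealInnerProductSpace

namespace Pool.Agent.TG

variable {E : Type} [NormedAddCommGroup E] [InnerProductSpace ℝ E] [ProperSpace E]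
variable {Y : Type} [MetricSpace Y] {K : Set Y} {Λ : AddSubgroup E} {D G O : Set E} {S : Set (E → Y)}
  {Zr : E → Y → Prop} {N : E → Y → Y → Prop}

theorem DynE.sep (h : DynE K Λ D G O S Zr N) : ∃ ε₁ n₁ : ℝ, 0 < ε₁ ∧ 0 < n₁ ∧ ∀ e ∈ ZS O S Zr, ∀ g ∈ ZS O S Zr, ∀ a : E,
    (∀ z ∈ G, ‖z - a‖ ≤ n₁ → dist (e z) (g z) ≤ ε₁) → Ag D e g := by
  by_contra hcon
  have hcon' : ∀ n : ℕ, ∃ e ∈ ZS O S Zr, ∃ g ∈ ZS O S Zr, ∃ a : E,
      (∀ z ∈ G, ‖z - a‖ ≤ (n : ℝ) + 1 → dist (e z) (g z) ≤ 1 / ((n : ℝ) + 1)) ∧ ¬ Ag D e g := by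
    intro n
    by_contra h1
    apply hcon
    refine ⟨1 / ((n : ℝ) + 1), (n : ℝ) + 1, by positivity, by positivity, ?_⟩
    intro e he g hg a h2
    by_contra h3
    exact h1 ⟨e, he, g, hg, a, h2, h3⟩
  choose e he g hg a hclose hne using hcon'
  obtain ⟨R, hR, hlat⟩ := h.cpt
  choose l hl hla using fun n => hlat (a n)
  obtain ⟨𝒰, h𝒰⟩ : ∃ 𝒰 : Ultrafilter ℕ, (𝒰 : Filter ℕ) ≤ atTop := ⟨Ultrafilter.of atTop, Ultrafilter.of_le _⟩
  have he' : ∀ n, (fun z => e n (z + l n)) ∈ ZS O S Zr := fun n => h.zs_trans (he n) (hl n)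
  have hg' : ∀ n, (fun z => g n (z + l n)) ∈ ZS O S Zr := fun n => h.zs_trans (hg n) (hl n)
  have hclose' : ∀ n : ℕ, ∀ z ∈ G, ‖z‖ + R ≤ (n : ℝ) + 1 →
      dist (e n (z + l n)) (g n (z + l n)) ≤ 1 / ((n : ℝ) + 1) := by
    intro n z hz hzn
    refine hclose n (z + l n) ((h.g_add (hl n)).2 hz) ?_
    have h1 : z + l n - a n = z - (a n - l n) := by abel
    rw [h1]
    exact (norm_sub_le _ _).trans (by linarith [hla n])
  obtain ⟨f, hfS, hf⟩ := h.exists_lim 𝒰 (fun n z => e n (z + l n)) (Filter.Eventually.of_forall fun n => (he' n).1)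
  obtain ⟨f₂, hf₂S, hf₂⟩ := h.exists_lim 𝒰 (fun n z => g n (z + l n)) (Filter.Eventually.of_forall fun n => (hg' n).1)
  have hfZ : f ∈ ZS O S Zr := h.zs_lim 𝒰 (fun n z => e n (z + l n)) (Filter.Eventually.of_forall he') hf
  -- the two limits agree
  have heq : ∀ z ∈ G, f z = f₂ z := by
    intro z hz
    have hzB : z ∉ D := h.G_D z hz
    have h1 : Tendsto (fun n : ℕ => dist (e n (z + l n)) (g n (z + l n))) 𝒰 (𝓝 0) := by
      have h2 : Tendsto (fun n : ℕ => 1 / ((n : ℝ) + 1)) 𝒰 (𝓝 0) :=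
        tendsto_one_div_add_atTop_nhds_zero_nat.mono_left h𝒰
      refine tendsto_of_tendsto_of_tendsto_of_le_of_le' tendsto_const_nhds h2
        (Filter.Eventually.of_forall fun n => dist_nonneg) ?_
      have h3 : ∀ᶠ n : ℕ in atTop, ‖z‖ + R ≤ (n : ℝ) + 1 := by
        filter_upwards [tendsto_natCast_atTop_atTop.eventually_ge_atTop (‖z‖ + R)] with n hn
        linarith
      filter_upwards [h𝒰 h3] with n hn
      exact hclose' n z hz hn
    exact tendsto_nhds_unique ((tendsto_iff_of_dist h1).1 (hf z hzB)) (hf₂ z hzB)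
  obtain ⟨z₀, r, ε, hr, hε, hball, hiso⟩ := h.iso f hfS hfZ.2
  have hz₀ : z₀ ∈ ball z₀ r := mem_ball_self hr
  have hz₀B : z₀ ∉ D := h.o_notMem (hball hz₀)
  have hAg : Ag D f f₂ := by
    refine h.uniq f hfS f₂ hf₂S z₀ hz₀B ?_
    filter_upwards [isOpen_ball.mem_nhds hz₀] with z hz
    exact heq z (h.O_sub (hball hz))
  have hf₂' : ∀ z, z ∉ D → Tendsto (fun n => g n (z + l n)) 𝒰 (𝓝 (f z)) := by
    intro z hz
    rw [hAg z hz]
    exact hf₂ z hz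
  have hu1 := h.unif 𝒰 (fun n z => e n (z + l n)) (Filter.Eventually.of_forall fun n => (he' n).1) hfS hf
    (‖z₀‖ + r) ε hε
  have hu2 := h.unif 𝒰 (fun n z => g n (z + l n)) (Filter.Eventually.of_forall fun n => (hg' n).1) hfS hf₂'
    (‖z₀‖ + r) ε hε
  obtain ⟨n, h1, h2⟩ := (hu1.and hu2).exists
  refine hne n ((h.ag_trans (hl n)).1 ?_)
  refine h.uniq _ (he' n).1 _ (hg' n).1 z₀ hz₀B ?_
  have h3 : ∀ᶠ z in 𝓝 z₀, e n (z + l n) = g n (z + l n) := by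
    filter_upwards [isOpen_ball.mem_nhds hz₀] with z hz
    have hzn : ‖z‖ ≤ ‖z₀‖ + r := by
      rw [mem_ball, dist_eq_norm] at hz
      have h4 : z = z₀ + (z - z₀) := by abel
      calc ‖z‖ = ‖z₀ + (z - z₀)‖ := by rw [← h4]
        _ ≤ ‖z₀‖ + ‖z - z₀‖ := norm_add_le _ _
        _ ≤ ‖z₀‖ + r := by linarith
    have h5 : e n (z + l n) = f z :=
      hiso _ (he' n).1 z hz (h1 z (h.O_sub (hball hz)) hzn) (Or.inr ((he' n).2 z (hball hz)))
    have h6 : g n (z + l n) = f z :=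
      hiso _ (hg' n).1 z hz (h2 z (h.O_sub (hball hz)) hzn) (Or.inr ((hg' n).2 z (hball hz)))
    rw [h5, h6]
  exact h3

end Pool.Agent.TG

end

section

/-!
# TG DyC: near pairs with `N = 0` are near a member of `ZS`

By contradiction: for every `n` there are `f_n, g_n ∈ S`, not in agreement, and `a_n`, with `dist (f_n z) (g_n z) ≤ 1/(n+1)` for
`z ∈ G`, `‖z - a_n‖ ≤ n`, and `N z (f_n z) (g_n z) = 0` for `z ∈ Gd D (2δ)`, `‖z - a_n‖ ≤ n`, but no `e ∈ ZS` is `ε'`-close to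
both on `G ∩ closedBall a_n n₂`.  Translate by `l_n ∈ Λ`, `‖a_n - l_n‖ ≤ R`: `f'_n = f_n (· + l_n)`, `g'_n`.  Let `f ∈ S` be the
limit of the `f'_n` along an ultrafilter `≤ atTop`; it is also the limit of the `g'_n` (a point `z ∉ D` is in `G'` for some `δ'`,
BUT closeness is known only on `G`: let `g ∈ S` be the limit of the `g'_n`; `f = g` on `G`, hence `Ag D f g` by `uniq`,
as `Gd D (2δ)` is nonempty and its points are interior points of `G`).  Claim `f ∈ ZS`: let `z ∈ Gd D (2δ)`.  By `exists_ne` choose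
`w_n ∈ Gd D (2δ)`, `‖w_n - z‖ < 1/(n+1)`, `f'_n w_n ≠ g'_n w_n`; eventually `‖w_n + l_n - a_n‖ ≤ n`, so
`N w_n (f'_n w_n) (g'_n w_n) = N (w_n + l_n) ... = 0` (`N_inv`); by `near`, `Zr z (f z)`.  By `unif`, for large `n`, `f'_n` and `g'_n` are
`ε'`-close to `f` on the points of `G` of norm `≤ n₂ + R`; so `e := f (· - l_n) ∈ ZS` is `ε'`-close to `f_n`, `g_n` at the points of
`G` with `‖z - a_n‖ ≤ n₂`: contradiction.
[If `Gd D (2δ)` were empty there is nothing to prove for the claim; nonempty: `b + 4δ` for `b ∈ B`, or `0` if `B = ∅`.]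
-/

set_option autoImplicit false
set_option linter.unusedSectionVars false

open Topology Filter Metric RealInnerProductSpace

namespace Pool.Agent.TG

variable {E : Type} [NormedAddCommGroup E] [InnerProductSpace ℝ E] [ProperSpace E]
variable {Y : Type} [MetricSpace Y] {K : Set Y} {Λ : AddSubgroup E} {D G O : Set E} {S : Set (E → Y)}
  {Zr : E → Y → Prop} {N : E → Y → Y → Prop}

theorem DynE.near_zs (h : DynE K Λ D G O S Zr N) {ε' : ℝ} (hε' : 0 < ε') (n₂ : ℝ) : ∃ ε₃ R₃ : ℝ, 0 < ε₃ ∧ 0 < R₃ ∧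
    ∀ f ∈ S, ∀ g ∈ S, ¬ Ag D f g → ∀ a : E, (∀ z ∈ G, ‖z - a‖ ≤ R₃ → dist (f z) (g z) ≤ ε₃) →
      (∀ z ∈ O, ‖z - a‖ ≤ R₃ → N z (f z) (g z)) →
      ∃ e ∈ ZS O S Zr, ∀ z ∈ G, ‖z - a‖ ≤ n₂ → dist (f z) (e z) ≤ ε' ∧ dist (g z) (e z) ≤ ε' := by
  by_contra hcon
  push Not at hcon
  choose f hf g hg hne a hcl hN hbad using fun n : ℕ =>
    hcon (1 / ((n : ℝ) + 1)) ((n : ℝ) + 1) (by positivity) (by positivity)
  obtain ⟨R, hR, hRl⟩ := h.cpt
  choose l hl hla using fun n => hRl (a n)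
  set 𝒰 : Ultrafilter ℕ := Filter.hyperfilter ℕ with h𝒰
  have hle : (𝒰 : Filter ℕ) ≤ atTop := by
    rw [h𝒰, ← Nat.cofinite_eq_atTop]
    exact Filter.hyperfilter_le_cofinite
  have hlarge : ∀ c : ℝ, ∀ᶠ n : ℕ in (𝒰 : Filter ℕ), c ≤ (n : ℝ) + 1 := by
    intro c
    have h1 : ∀ᶠ n : ℕ in atTop, c ≤ (n : ℝ) := tendsto_natCast_atTop_atTop.eventually_ge_atTop c
    filter_upwards [hle h1] with n hn
    linarith
  have hzero : Tendsto (fun n : ℕ => 1 / ((n : ℝ) + 1)) 𝒰 (𝓝 0) :=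
    Tendsto.mono_left (tendsto_one_div_add_atTop_nhds_zero_nat (𝕜 := ℝ)) hle
  set F : ℕ → E → Y := fun n z => f n (z + l n) with hFdef
  set H : ℕ → E → Y := fun n z => g n (z + l n) with hHdef
  have hFS : ∀ n, F n ∈ S := fun n => h.trans _ (hf n) _ (hl n)
  have hGS : ∀ n, H n ∈ S := fun n => h.trans _ (hg n) _ (hl n)
  have hFGne : ∀ n, ¬ Ag D (F n) (H n) := fun n hAg => hne n ((h.ag_trans (hl n)).mp hAg)
  obtain ⟨f₀, hf₀, hflim⟩ := h.exists_lim 𝒰 F (Filter.Eventually.of_forall hFS)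
  obtain ⟨g₀, hg₀, hglim⟩ := h.exists_lim 𝒰 H (Filter.Eventually.of_forall hGS)
  have hnorm : ∀ (z : E) (n : ℕ), ‖z + l n - a n‖ ≤ ‖z‖ + R := by
    intro z n
    have h1 : z + l n - a n = z - (a n - l n) := by abel
    rw [h1]
    exact (norm_sub_le _ _).trans (by linarith [hla n])
  -- the two limits agree
  have heq : ∀ z ∈ G, f₀ z = g₀ z := by
    intro z hz
    have hzB : z ∉ D := h.G_D z hz
    have h1 : Tendsto (fun n => dist (F n z) (H n z)) 𝒰 (𝓝 (dist (f₀ z) (g₀ z))) := (hflim z hzB).dist (hglim z hzB)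
    have h2 : Tendsto (fun n => dist (F n z) (H n z)) 𝒰 (𝓝 0) := by
      refine squeeze_zero' (Filter.Eventually.of_forall fun n => dist_nonneg) ?_ hzero
      filter_upwards [hlarge (‖z‖ + R)] with n hn
      exact hcl n (z + l n) ((h.g_add (hl n)).mpr hz) ((hnorm z n).trans hn)
    exact dist_eq_zero.mp (tendsto_nhds_unique h1 h2)
  have hAg : Ag D f₀ g₀ := by
    obtain ⟨z₀, hz₀⟩ := h.O_ne
    refine h.uniq f₀ hf₀ g₀ hg₀ z₀ (h.o_notMem hz₀) ?_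
    filter_upwards [h.O_open.mem_nhds hz₀] with z hz
    exact heq z (h.O_sub hz)
  have hGlim : ∀ z, z ∉ D → Tendsto (fun n => H n z) 𝒰 (𝓝 (f₀ z)) := by
    intro z hz
    rw [hAg z hz]
    exact hglim z hz
  -- the limit is in `ZS`
  have hZS : f₀ ∈ ZS O S Zr := by
    refine ⟨hf₀, fun z hz => ?_⟩
    choose w hw hwz hwne using fun n : ℕ =>
      h.exists_ne (hFS n) (hGS n) (hFGne n) hz (ε := 1 / ((n : ℝ) + 1)) (by positivity)
    have hwlim : Tendsto w 𝒰 (𝓝 z) := by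
      rw [tendsto_iff_norm_sub_tendsto_zero]
      exact squeeze_zero (fun n => norm_nonneg _) (fun n => (hwz n).le) hzero
    refine h.near 𝒰 F H w f₀ hf₀ z hz (Filter.Eventually.of_forall fun n => ⟨hFS n, hGS n⟩) hflim hGlim hwlim ?_
    filter_upwards [hlarge (1 + ‖z‖ + R)] with n hn
    refine ⟨hw n, hwne n, ?_⟩
    have h1 : ‖w n‖ ≤ 1 + ‖z‖ := by
      have h2 : ‖w n‖ ≤ ‖w n - z‖ + ‖z‖ := by
        have h3 : w n = (w n - z) + z := by abel
        calc ‖w n‖ = ‖(w n - z) + z‖ := by rw [← h3]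
          _ ≤ ‖w n - z‖ + ‖z‖ := norm_add_le _ _
      have h4 : 1 / ((n : ℝ) + 1) ≤ 1 := by
        rw [div_le_one (by positivity)]
        have : (0 : ℝ) ≤ (n : ℝ) := Nat.cast_nonneg n
        linarith
      linarith [hwz n]
    have h5 := hN n (w n + l n) ((h.o_add (hl n)).mpr (hw n)) ((hnorm (w n) n).trans (by linarith))
    rw [h.N_inv (w n) (l n) (hl n)] at h5
    exact h5
  -- the contradiction
  have hu1 := h.unif 𝒰 F (Filter.Eventually.of_forall hFS) hf₀ hflim (n₂ + R) ε' hε'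
  have hu2 := h.unif 𝒰 H (Filter.Eventually.of_forall hGS) hf₀ hGlim (n₂ + R) ε' hε'
  obtain ⟨n, hn1, hn2⟩ := (hu1.and hu2).exists
  have hneg : -l n ∈ Λ := Λ.neg_mem (hl n)
  obtain ⟨z, hz, hza, hzc⟩ := hbad n (fun z => f₀ (z + -l n)) (h.zs_trans hZS hneg)
  have h1 : z + -l n ∈ G := (h.g_add hneg).mpr hz
  have h2 : ‖z + -l n‖ ≤ n₂ + R := by
    have h3 : z + -l n = (z - a n) + (a n - l n) := by abel
    rw [h3]
    exact (norm_add_le _ _).trans (by linarith [hla n])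
  have h4 : z + -l n + l n = z := by abel
  have h5 := hn1 _ h1 h2
  have h6 := hn2 _ h1 h2
  simp only [hFdef, hHdef, h4] at h5 h6
  exact absurd (hzc h5.le) (not_lt.mpr h6.le)

end Pool.Agent.TG

end

section

/-!
# TG DyD: rigidity of the members of `ZS`

By contradiction: `e_n ∈ ZS`, `g_n ∈ S`, `a_n`, not `Ag D e_n g_n`, `dist (g_n z) (e_n z) ≤ 1/(n+1)` on `G ∩ closedBall a_n n` and
`N z (e_n z) (g_n z) = 0` on `Gd D (2δ) ∩ closedBall a_n n`.  Translate by `l_n`: `e'_n, g'_n`; limit `e` of the `e'_n`, `e ∈ ZS` (`zs_lim`),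
and `g'_n → e` on `G`.  By `unif` (for the `e'_n`) and `sep`: `e'_n` is `ε₁`-close to `e` on `G ∩ closedBall 0 n₁` for large `n`, so
`Ag D e'_n e`.  Let `z₀, r, ε` be from `iso e`.  For large `n`, `dist (g'_n z) (e z) ≤ 1/(n+1) < ε` for `z ∈ ball z₀ r` (there `e'_n z = e z`,
and `‖z + l_n - a_n‖ ≤ n`), and `N z (e z) (g'_n z) = N (z + l_n) (e_n (z + l_n)) (g_n (z + l_n)) = 0`.  So `g'_n z = e z = e'_n z` on `ball z₀ r`;
`uniq`: `Ag D g'_n e'_n`, so `Ag D e_n g_n`: contradiction.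
-/

set_option autoImplicit false
set_option linter.unusedSectionVars false

open Topology Filter Metric RealInnerProductSpace

namespace Pool.Agent.TG

variable {E : Type} [NormedAddCommGroup E] [InnerProductSpace ℝ E] [ProperSpace E]
variable {Y : Type} [MetricSpace Y] {K : Set Y} {Λ : AddSubgroup E} {D G O : Set E} {S : Set (E → Y)}
  {Zr : E → Y → Prop} {N : E → Y → Y → Prop}

theorem DynE.rigid (h : DynE K Λ D G O S Zr N) : ∃ ε₂ R₂ : ℝ, 0 < ε₂ ∧ 0 < R₂ ∧ ∀ e ∈ ZS O S Zr, ∀ g ∈ S, ∀ a : E,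
    (∀ z ∈ G, ‖z - a‖ ≤ R₂ → dist (g z) (e z) ≤ ε₂) → (∀ z ∈ O, ‖z - a‖ ≤ R₂ → N z (e z) (g z)) →
    Ag D e g := by
  by_contra hcon
  have hex : ∀ n : ℕ, ∃ e ∈ ZS O S Zr, ∃ g ∈ S, ∃ a : E,
      (∀ z ∈ G, ‖z - a‖ ≤ (n : ℝ) + 1 → dist (g z) (e z) ≤ 1 / ((n : ℝ) + 1)) ∧
      (∀ z ∈ O, ‖z - a‖ ≤ (n : ℝ) + 1 → N z (e z) (g z)) ∧ ¬ Ag D e g := by
    intro n
    by_contra hn
    refine hcon ⟨1 / ((n : ℝ) + 1), (n : ℝ) + 1, by positivity, by positivity, ?_⟩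
    intro e he g hg a h1 h2
    by_contra h3
    exact hn ⟨e, he, g, hg, a, h1, h2, h3⟩
  choose e he g hg a h1 h2 h3 using hex
  obtain ⟨RL, _, hRL⟩ := h.cpt
  have hex2 : ∀ n : ℕ, ∃ l ∈ Λ, ‖a n - l‖ ≤ RL := fun n => hRL (a n)
  choose l hl hal using hex2
  obtain ⟨𝒰, h𝒰⟩ : ∃ 𝒰 : Ultrafilter ℕ, (𝒰 : Filter ℕ) ≤ atTop := ⟨Ultrafilter.of atTop, Ultrafilter.of_le atTop⟩
  have he' : ∀ n, (fun z => e n (z + l n)) ∈ ZS O S Zr := fun n => h.zs_trans (he n) (hl n)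
  have hg' : ∀ n, (fun z => g n (z + l n)) ∈ S := fun n => h.trans _ (hg n) _ (hl n)
  obtain ⟨e₀, he₀S, he₀⟩ := h.exists_lim 𝒰 (fun n z => e n (z + l n)) (Eventually.of_forall fun n => (he' n).1)
  have he₀Z : e₀ ∈ ZS O S Zr := h.zs_lim 𝒰 (fun n z => e n (z + l n)) (Eventually.of_forall he') he₀
  obtain ⟨ε₁, n₁, hε₁, hn₁, hsep⟩ := h.sep
  obtain ⟨z₀, r, ε, hr, hε, hball, hiso⟩ := h.iso e₀ he₀S he₀Z.2
  have ev1 : ∀ᶠ n in (𝒰 : Filter ℕ), ∀ z ∈ G, ‖z‖ ≤ n₁ → dist (e n (z + l n)) (e₀ z) < ε₁ :=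
    h.unif 𝒰 (fun n z => e n (z + l n)) (Eventually.of_forall fun n => (he' n).1) he₀S he₀ n₁ ε₁ hε₁
  have hinv : Tendsto (fun n : ℕ => 1 / ((n : ℝ) + 1)) atTop (𝓝 0) := tendsto_one_div_add_atTop_nhds_zero_nat
  have ev2 : ∀ᶠ n : ℕ in (𝒰 : Filter ℕ), 1 / ((n : ℝ) + 1) < ε := (hinv.eventually_lt_const hε).filter_mono h𝒰
  have ev3 : ∀ᶠ n : ℕ in (𝒰 : Filter ℕ), ‖z₀‖ + r + RL ≤ (n : ℝ) + 1 := by
    have : Tendsto (fun n : ℕ => (n : ℝ) + 1) atTop atTop :=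
      tendsto_atTop_add_const_right _ _ tendsto_natCast_atTop_atTop
    exact (this.eventually_ge_atTop _).filter_mono h𝒰
  obtain ⟨n, hn1, hn2, hn3⟩ := (ev1.and (ev2.and ev3)).exists
  have hag : Ag D (fun z => e n (z + l n)) e₀ :=
    hsep _ (he' n) _ he₀Z 0 (fun z hz hz' => (hn1 z hz (by rwa [sub_zero] at hz')).le)
  have key : ∀ z ∈ ball z₀ r, g n (z + l n) = e n (z + l n) := by
    intro z hz
    have hzG := hball hz
    have hzG1 : z ∈ G := h.O_sub hzG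
    have hzB : z ∉ D := h.o_notMem hzG
    have hez : e n (z + l n) = e₀ z := hag z hzB
    have hz' : ‖z - z₀‖ < r := by rwa [mem_ball, dist_eq_norm] at hz
    have hnorm : ‖z + l n - a n‖ ≤ (n : ℝ) + 1 := by
      calc ‖z + l n - a n‖ = ‖(z - z₀) + z₀ - (a n - l n)‖ := by
            congr 1
            abel
        _ ≤ ‖(z - z₀) + z₀‖ + ‖a n - l n‖ := norm_sub_le _ _
        _ ≤ ‖z - z₀‖ + ‖z₀‖ + ‖a n - l n‖ := by linarith [norm_add_le (z - z₀) z₀]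
        _ ≤ (n : ℝ) + 1 := by linarith [hal n]
    have hd := h1 n (z + l n) ((h.g_add (hl n)).2 hzG1) hnorm
    have hN := h2 n (z + l n) ((h.o_add (hl n)).2 hzG) hnorm
    rw [h.N_inv z (l n) (hl n)] at hN
    rw [hez] at hd hN ⊢
    exact hiso _ (hg' n) z hz (lt_of_le_of_lt hd hn2) (Or.inl hN)
  have hz₀B : z₀ ∉ D := h.o_notMem (hball (mem_ball_self hr))
  have hAg := h.uniq _ (he' n).1 _ (hg' n) z₀ hz₀B (mem_of_superset (ball_mem_nhds z₀ hr) fun z hz => (key z hz).symm)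
  exact h3 n ((h.ag_trans (hl n)).1 hAg)

end Pool.Agent.TG

end

section

/-!
# TG DyE: two members of `S` which are close on a half space agree

`chain`: a transitive relation which holds for pairs of points of a convex set of distance `≤ 1` holds for all pairs (subdivide).

`half_plane`: let `ε₁, n₁` be from `sep`, `ε₂, R₂` from `rigid`, `r', ε₀` from `half`; `ε' = min (min (ε₁/2) ε₂) ε₀`, `n₂ = n₁ + 1`;
`ε₃, R₃` from `near_zs ε' n₂`.  `ε* = min ε₃ ε₀`.  Let `f, g` be `ε*`-close on `G ∩ {⟪ζ, z⟫ ≤ t}` and suppose not `Ag D f g`.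
(1) `N z (f z) (g z)` for `z ∈ O`, `⟪ζ, z⟫ ≤ t - r'`.
(2) For every `a` in `H' = {⟪ζ, a⟫ ≤ t - r' - R₃}` there is `e_a ∈ ZS` with `f`, `g` `ε'`-close to `e_a` on `G ∩ closedBall a n₂`.
(3) for `a, a' ∈ H'`, `‖a - a'‖ ≤ 1`: `e_a`, `e_a'` are `2ε' ≤ ε₁`-close on `G ∩ closedBall a n₁`, so `Ag D e_a e_a'` (`sep`); by `chain` this
holds for all `a, a' ∈ H'`.  Fix `a₀ = (t - r' - R₃) ζ` and `e = e_{a₀}`.  So (take `a = z`) `f` and `g` are
`ε'`-close to `e` on `G ∩ H'`.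
(4) `half` for `(e, f)` and `(e, g)` on `H'`: `N z (e z) (f z)`, `N z (e z) (g z)` for `z ∈ O`, `⟪ζ, z⟫ ≤ t - 2r' - R₃`.
(5) `rigid` with `a = (t - 2r' - R₃ - R₂) ζ`: `Ag D e f` and `Ag D e g`.  So `Ag D f g`: contradiction.
-/

set_option autoImplicit false
set_option linter.unusedSectionVars false

open Topology Filter Metric RealInnerProductSpace

namespace Pool.Agent.TG

variable {E : Type} [NormedAddCommGroup E] [InnerProductSpace ℝ E] [ProperSpace E]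
variable {Y : Type} [MetricSpace Y] {K : Set Y} {Λ : AddSubgroup E} {D G O : Set E} {S : Set (E → Y)}
  {Zr : E → Y → Prop} {N : E → Y → Y → Prop}

theorem dyE_re {ζ : E} (hζ : ‖ζ‖ = 1) (z a : E) : ⟪ζ, z⟫ ≤ ⟪ζ, a⟫ + ‖z - a‖ := by
  have h1 : ⟪ζ, z⟫ = ⟪ζ, a⟫ + ⟪ζ, z - a⟫ := by
    rw [inner_sub_right]
    ring
  have h2 : ⟪ζ, z - a⟫ ≤ ‖z - a‖ := by
    refine (real_inner_le_norm _ _).trans ?_
    rw [hζ, one_mul]
  rw [h1]
  linarith

theorem dyE_mul {ζ : E} (hζ : ‖ζ‖ = 1) (s : ℝ) : ⟪ζ, s • ζ⟫ = s := by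
  rw [real_inner_smul_right, real_inner_self_eq_norm_sq, hζ]
  ring

theorem chain {H : Set E} (hH : Convex ℝ H) {r : E → E → Prop} (htr : ∀ a b c, r a b → r b c → r a c)
    (h1 : ∀ a ∈ H, ∀ b ∈ H, ‖a - b‖ ≤ 1 → r a b) {a b : E} (ha : a ∈ H) (hb : b ∈ H) : r a b := by
  obtain ⟨n, hn⟩ := exists_nat_ge ‖b - a‖
  have hn0 : (0 : ℝ) < (n : ℝ) + 1 := by positivity
  have hp : ∀ i : ℕ, i ≤ n + 1 → a + ((i : ℝ) / ((n : ℝ) + 1)) • (b - a) ∈ H := by
    intro i hi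
    have h2 : (i : ℝ) / ((n : ℝ) + 1) ≤ 1 := by
      rw [div_le_one hn0]
      exact_mod_cast hi
    have h3 : 0 ≤ (i : ℝ) / ((n : ℝ) + 1) := by positivity
    have h4 := hH ha hb (sub_nonneg.mpr h2) h3 (by ring)
    have h5 : a + ((i : ℝ) / ((n : ℝ) + 1)) • (b - a) =
        (1 - (i : ℝ) / ((n : ℝ) + 1)) • a + ((i : ℝ) / ((n : ℝ) + 1)) • b := by
      rw [smul_sub, sub_smul, one_smul]
      abel
    rw [h5]
    exact h4
  have key : ∀ i : ℕ, i ≤ n + 1 → r a (a + ((i : ℝ) / ((n : ℝ) + 1)) • (b - a)) := by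
    intro i
    induction i with
    | zero =>
      intro _
      have h2 : a + (((0 : ℕ) : ℝ) / ((n : ℝ) + 1)) • (b - a) = a := by simp
      rw [h2]
      refine h1 a ha a ha ?_
      rw [sub_self, norm_zero]
      exact zero_le_one
    | succ i ih =>
      intro hi
      refine htr _ _ _ (ih (by omega)) (h1 _ (hp i (by omega)) _ (hp (i + 1) hi) ?_)
      have h2 : a + ((i : ℝ) / ((n : ℝ) + 1)) • (b - a) - (a + (((i + 1 : ℕ) : ℝ) / ((n : ℝ) + 1)) • (b - a)) =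
          (-1 / ((n : ℝ) + 1)) • (b - a) := by
        rw [add_sub_add_left_eq_sub, ← sub_smul]
        congr 1
        push_cast
        ring
      rw [h2, norm_smul, Real.norm_eq_abs, abs_div, abs_neg, abs_one, abs_of_pos hn0,
        div_mul_eq_mul_div, one_mul, div_le_one hn0]
      linarith
  have h2 := key (n + 1) le_rfl
  have h3 : a + (((n + 1 : ℕ) : ℝ) / ((n : ℝ) + 1)) • (b - a) = b := by
    have h4 : (((n + 1 : ℕ) : ℝ) / ((n : ℝ) + 1)) = 1 := by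
      push_cast
      exact div_self hn0.ne'
    rw [h4, one_smul]
    abel
  rwa [h3] at h2

theorem DynE.half_plane (h : DynE K Λ D G O S Zr N) : ∃ ε : ℝ, 0 < ε ∧ ∀ f ∈ S, ∀ g ∈ S, ∀ (ζ : E) (t : ℝ), ‖ζ‖ = 1 →
    (∀ z ∈ G, ⟪ζ, z⟫ ≤ t → dist (f z) (g z) ≤ ε) → Ag D f g := by
  obtain ⟨ε₁, n₁, hε₁, hn₁, hsep⟩ := h.sep
  obtain ⟨ε₂, R₂, hε₂, hR₂, hrig⟩ := h.rigid
  obtain ⟨r', ε₀, hr', hε₀, hzero⟩ := h.half
  obtain ⟨ε', hε'def⟩ : ∃ ε' : ℝ, ε' = min (min (ε₁ / 2) ε₂) ε₀ := ⟨_, rfl⟩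
  have hε' : 0 < ε' := by
    rw [hε'def]
    exact lt_min (lt_min (by positivity) hε₂) hε₀
  have hε'1 : ε' ≤ ε₁ / 2 := by
    rw [hε'def]
    exact (min_le_left _ _).trans (min_le_left _ _)
  have hε'2 : ε' ≤ ε₂ := by
    rw [hε'def]
    exact (min_le_left _ _).trans (min_le_right _ _)
  have hε'0 : ε' ≤ ε₀ := by
    rw [hε'def]
    exact min_le_right _ _
  obtain ⟨ε₃, R₃, hε₃, hR₃, hnear⟩ := h.near_zs hε' (n₁ + 1)
  refine ⟨min ε₃ ε₀, lt_min hε₃ hε₀, ?_⟩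
  intro f hf g hg ζ t hζ hclose
  by_contra hag
  -- (1)
  have h1 : ∀ z ∈ O, ⟪ζ, z⟫ ≤ t - r' → N z (f z) (g z) :=
    hzero f hf g hg ζ t hζ (fun z hz hzt => (hclose z hz hzt).trans (min_le_right _ _))
  -- (2)
  have h2 : ∀ a : E, ⟪ζ, a⟫ ≤ t - r' - R₃ → ∃ e ∈ ZS O S Zr, ∀ z ∈ G,
      ‖z - a‖ ≤ n₁ + 1 → dist (f z) (e z) ≤ ε' ∧ dist (g z) (e z) ≤ ε' := by
    intro a ha
    refine hnear f hf g hg hag a ?_ ?_
    · intro z hz hza
      refine (hclose z hz ?_).trans (min_le_left _ _)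
      have := dyE_re hζ z a
      linarith
    · intro z hz hza
      refine h1 z hz ?_
      have := dyE_re hζ z a
      linarith
  have : Nonempty (E → Y) := ⟨f⟩
  choose! e heZ he using h2
  -- (3)
  have hconv : Convex ℝ {a : E | ⟪ζ, a⟫ ≤ t - r' - R₃} := by
    refine convex_halfSpace_le (f := fun a : E => ⟪ζ, a⟫) ?_ _
    refine IsLinearMap.mk (fun x y => ?_) (fun c x => ?_)
    · rw [inner_add_right]
    · rw [real_inner_smul_right, smul_eq_mul]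
  have h3 : ∀ a b : E, ⟪ζ, a⟫ ≤ t - r' - R₃ → ⟪ζ, b⟫ ≤ t - r' - R₃ →
      Ag D (e a) (e b) := by
    intro a b ha hb
    refine chain hconv (r := fun a b => Ag D (e a) (e b)) ?_ ?_ ha hb
    · intro a b c hab hbc z hz
      exact (hab z hz).trans (hbc z hz)
    · intro a ha b hb hab
      refine hsep _ (heZ a ha) _ (heZ b hb) a ?_
      intro z hz hza
      have h4 := (he a ha z hz (by linarith)).1
      have h5 : ‖z - b‖ ≤ n₁ + 1 := by
        have h6 : z - b = (z - a) + (a - b) := by abel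
        rw [h6]
        refine (norm_add_le _ _).trans ?_
        linarith
      have h7 := (he b hb z hz h5).1
      have h8 := dist_triangle_left (e a z) (e b z) (f z)
      linarith
  have ha₀ : ⟪ζ, (t - r' - R₃) • ζ⟫ ≤ t - r' - R₃ := (dyE_mul hζ _).le
  obtain ⟨E₁, hEdef⟩ : ∃ E₁, E₁ = e ((t - r' - R₃) • ζ) := ⟨_, rfl⟩
  have hEZ : E₁ ∈ ZS O S Zr := by
    rw [hEdef]
    exact heZ _ ha₀
  have h4 : ∀ z ∈ G, ⟪ζ, z⟫ ≤ t - r' - R₃ → dist (f z) (E₁ z) ≤ ε' ∧ dist (g z) (E₁ z) ≤ ε' := by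
    intro z hz hzt
    have h5 := he z hzt z hz (by
      rw [sub_self, norm_zero]
      linarith)
    have h6 := h3 z _ hzt ha₀ z (h.G_D z hz)
    rw [← hEdef] at h6
    rwa [h6] at h5
  -- (4)
  have h5 : ∀ z ∈ O, ⟪ζ, z⟫ ≤ t - r' - R₃ - r' → N z (E₁ z) (f z) :=
    hzero E₁ hEZ.1 f hf ζ (t - r' - R₃) hζ (fun z hz hzt => by
      rw [dist_comm]
      exact (h4 z hz hzt).1.trans hε'0)
  have h6 : ∀ z ∈ O, ⟪ζ, z⟫ ≤ t - r' - R₃ - r' → N z (E₁ z) (g z) :=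
    hzero E₁ hEZ.1 g hg ζ (t - r' - R₃) hζ (fun z hz hzt => by
      rw [dist_comm]
      exact (h4 z hz hzt).2.trans hε'0)
  -- (5)
  have hre : ∀ z : E, ‖z - (t - r' - R₃ - r' - R₂) • ζ‖ ≤ R₂ → ⟪ζ, z⟫ ≤ t - r' - R₃ - r' := by
    intro z hz
    have h7 := dyE_re hζ z ((t - r' - R₃ - r' - R₂) • ζ)
    rw [dyE_mul hζ] at h7
    linarith
  have h7 : Ag D E₁ f := hrig E₁ hEZ f hf ((t - r' - R₃ - r' - R₂) • ζ)
    (fun z hz hza => (h4 z hz (by linarith [hre z hza])).1.trans hε'2) (fun z hz hza => h5 z hz (hre z hza))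
  have h8 : Ag D E₁ g := hrig E₁ hEZ g hg ((t - r' - R₃ - r' - R₂) • ζ)
    (fun z hz hza => (h4 z hz (by linarith [hre z hza])).2.trans hε'2) (fun z hz hza => h6 z hz (hre z hza))
  exact hag fun z hz => (h7 z hz).symm.trans (h8 z hz)

end Pool.Agent.TG

end

section

/-!
# TG DyF: finiteness

Let `ε` be from `half_plane`.  Suppose the conclusion is false.
(1) There is a sequence `h_k ∈ S` with `¬ Ag D h_k h_j` for `k ≠ j` [`Ag D` is an equivalence relation: if the quotient of `S` is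
finite choose representatives, if it is infinite choose an injective sequence of classes and representatives].
(2) For every `n` there are `f_n, g_n ∈ S`, `¬ Ag D f_n g_n`, `dist (f_n z) (g_n z) ≤ ε` for `z ∈ G`, `‖z‖ ≤ n`: let `h ∈ S` be the limit
of `h_k` along a free ultrafilter; by `unif` the set of `k` with `dist (h_k z) (h z) < ε/2` on `G ∩ closedBall 0 n` is in the
ultrafilter, so it has two elements.
(3) Let `m_n ≥ n` be the least natural number such that `f_n, g_n` are not `ε`-close on `G ∩ closedBall 0 (m_n + 1)` [exists: otherwise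
they are `ε`-close on `G`, so `Ag D f_n g_n` by `half_plane` with any `ζ` and `t`]: there is `z_n ∈ G`, `m_n < ‖z_n‖ ≤ m_n + 1`,
`dist (f_n z_n) (g_n z_n) > ε`, and they are `ε`-close on `G ∩ closedBall 0 m_n`.
(4) `l_n ∈ Λ`, `‖z_n - l_n‖ ≤ R`; `f'_n = f_n (· + l_n)`, `g'_n`; ultrafilter `𝒰 ≤ atTop`; limits `f', g' ∈ S`; `w = lim (z_n - l_n)`,
`w ∈ G` (closed, invariant); by `tendsto_along` `dist (f' w) (g' w) ≥ ε`, so `¬ Ag D f' g'`.
(5) `ζ = lim l_n / ‖l_n‖` (`‖l_n‖ → ∞`).  Let `z ∈ G`, `⟪ζ, z⟫ ≤ -(R + 3)`.  Then `‖z + l_n‖ ≤ m_n` eventually: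
`‖z + l_n‖² = ‖l_n‖² + 2 ⟪l_n, z⟫ + ‖z‖²`, `⟪l_n, z⟫ / ‖l_n‖ → ⟪ζ, z⟫`, so `‖z + l_n‖² ≤ ‖l_n‖² - 2 (R + 2) ‖l_n‖ + ‖z‖² ≤
(‖l_n‖ - R - 1)² ≤ m_n²` eventually (`‖l_n‖ ≤ m_n + 1 + R`).  So `dist (f' z) (g' z) ≤ ε`.  By `half_plane` `Ag D f' g'`: contradiction.
-/

set_option autoImplicit false
set_option linter.unusedSectionVars false

open Topology Filter Metric RealInnerProductSpace

namespace Pool.Agent.TG

variable {E : Type} [NormedAddCommGroup E] [InnerProductSpace ℝ E] [ProperSpace E]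
variable {Y : Type} [MetricSpace Y] {K : Set Y} {Λ : AddSubgroup E} {D G O : Set E} {S : Set (E → Y)}
  {Zr : E → Y → Prop} {N : E → Y → Y → Prop}

private theorem dyF_two (h : DynE K Λ D G O S Zr N)
    (hno : ¬ ∃ 𝓕 : Set (E → Y), 𝓕.Finite ∧ 𝓕 ⊆ S ∧ ∀ f ∈ S, ∃ g ∈ 𝓕, Ag D f g) (R ε : ℝ) (hε : 0 < ε) :
    ∃ f ∈ S, ∃ g ∈ S, ¬ Ag D f g ∧ ∀ z ∈ G, ‖z‖ ≤ R → dist (f z) (g z) < ε := by
  let r : Setoid S :=
    { r := fun f g => Ag D f.1 g.1
      iseqv := ⟨fun f z _ => rfl, fun hfg z hz => (hfg z hz).symm, fun h1 h2 z hz => (h1 z hz).trans (h2 z hz)⟩ }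
  have hinf : Infinite (Quotient r) := by
    by_contra hfin
    rw [not_infinite_iff_finite] at hfin
    apply hno
    refine ⟨Set.range fun q : Quotient r => (q.out : E → Y), Set.finite_range _, ?_, ?_⟩
    · rintro _ ⟨q, rfl⟩
      exact q.out.2
    · intro f hf
      refine ⟨_, ⟨Quotient.mk r ⟨f, hf⟩, rfl⟩, ?_⟩
      have h1 : Ag D ((Quotient.mk r ⟨f, hf⟩).out : E → Y) f := Quotient.exact (Quotient.out_eq (Quotient.mk r ⟨f, hf⟩))
      exact fun z hz => (h1 z hz).symm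
  let e := Infinite.natEmbedding (Quotient r)
  have hF : ∀ᶠ n in ((hyperfilter ℕ : Ultrafilter ℕ) : Filter ℕ), (fun k => ((e k).out : E → Y)) n ∈ S :=
    Eventually.of_forall fun n => (e n).out.2
  obtain ⟨f, hf, hlim⟩ := h.exists_lim (hyperfilter ℕ) (fun k => ((e k).out : E → Y)) hF
  have h1 := h.unif (hyperfilter ℕ) (fun k => ((e k).out : E → Y)) hF hf hlim R (ε / 2) (half_pos hε)
  have h2 : {k : ℕ | ∀ z ∈ G, ‖z‖ ≤ R → dist (((e k).out : E → Y) z) (f z) < ε / 2}.Infinite := by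
    intro hfin
    exact notMem_hyperfilter_of_finite hfin h1
  obtain ⟨i, hi, j, hj, hij⟩ := h2.nontrivial
  refine ⟨(e i).out, (e i).out.2, (e j).out, (e j).out.2, ?_, ?_⟩
  · intro heq
    apply hij
    apply e.injective
    rw [← Quotient.out_eq (e i), ← Quotient.out_eq (e j)]
    exact Quotient.sound heq
  · intro z hz hzR
    have h3 := hi z hz hzR
    have h4 := hj z hz hzR
    calc dist (((e i).out : E → Y) z) (((e j).out : E → Y) z) ≤ dist (((e i).out : E → Y) z) (f z) +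
          dist (((e j).out : E → Y) z) (f z) := dist_triangle_right _ _ _
      _ < ε / 2 + ε / 2 := add_lt_add h3 h4
      _ = ε := add_halves ε

private theorem dyF_max (h : DynE K Λ D G O S Zr N) {ε : ℝ} (hε : 0 < ε)
    (hclose : ∀ f ∈ S, ∀ g ∈ S, (∀ z ∈ G, dist (f z) (g z) ≤ ε) → Ag D f g)
    (hno : ¬ ∃ 𝓕 : Set (E → Y), 𝓕.Finite ∧ 𝓕 ⊆ S ∧ ∀ f ∈ S, ∃ g ∈ 𝓕, Ag D f g) (n : ℕ) :
    ∃ f ∈ S, ∃ g ∈ S, ∃ m : ℕ, n ≤ m ∧ (∃ z ∈ G, (m : ℝ) < ‖z‖ ∧ ‖z‖ ≤ m + 1 ∧ ε < dist (f z) (g z)) ∧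
      ∀ z ∈ G, ‖z‖ ≤ m → dist (f z) (g z) ≤ ε := by
  obtain ⟨f, hf, g, hg, hne, hd⟩ := dyF_two h hno n ε hε
  classical
  have hex : ∃ m : ℕ, n ≤ m ∧ ¬ ∀ z ∈ G, ‖z‖ ≤ m + 1 → dist (f z) (g z) ≤ ε := by
    by_contra hcon
    push Not at hcon
    apply hne
    apply hclose f hf g hg
    intro z hz
    obtain ⟨k, hk⟩ := exists_nat_ge ‖z‖
    refine hcon (max n k) (le_max_left _ _) z hz ?_
    have h1 : (k : ℝ) ≤ ((max n k : ℕ) : ℝ) := by exact_mod_cast le_max_right n k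
    linarith
  have hspec := Nat.find_spec hex
  set m := Nat.find hex with hm
  have hlow : ∀ z ∈ G, ‖z‖ ≤ m → dist (f z) (g z) ≤ ε := by
    rcases hspec.1.eq_or_lt with heq | hlt
    · intro z hz hzm
      rw [← heq] at hzm
      exact (hd z hz hzm).le
    · have h1 : ¬ (n ≤ m - 1 ∧ ¬ ∀ z ∈ G, ‖z‖ ≤ ((m - 1 : ℕ) : ℝ) + 1 → dist (f z) (g z) ≤ ε) :=
        Nat.find_min hex (by omega)
      have h2 : n ≤ m - 1 := by omega
      have h3 : ∀ z ∈ G, ‖z‖ ≤ ((m - 1 : ℕ) : ℝ) + 1 → dist (f z) (g z) ≤ ε := by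
        by_contra h4
        exact h1 ⟨h2, h4⟩
      have h5 : ((m - 1 : ℕ) : ℝ) + 1 = m := by
        have : (m - 1) + 1 = m := by omega
        exact_mod_cast this
      rwa [h5] at h3
  obtain ⟨z, hz, hzm, hzd⟩ : ∃ z ∈ G, ‖z‖ ≤ m + 1 ∧ ε < dist (f z) (g z) := by
    have h1 := hspec.2
    push Not at h1
    obtain ⟨z, h2, h3, h4⟩ := h1
    exact ⟨z, h2, h3, h4⟩
  refine ⟨f, hf, g, hg, m, hspec.1, ⟨z, hz, ?_, hzm, hzd⟩, hlow⟩
  by_contra hle
  exact absurd (hlow z hz (not_lt.1 hle)) (not_le.2 hzd)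

theorem DynE.finite [Nontrivial E] (h : DynE K Λ D G O S Zr N) :
    ∃ 𝓕 : Set (E → Y), 𝓕.Finite ∧ 𝓕 ⊆ S ∧ ∀ f ∈ S, ∃ g ∈ 𝓕, Ag D f g := by
  by_contra hno
  obtain ⟨ε, hε, hhp⟩ := h.half_plane
  obtain ⟨R, hR, hcoc⟩ := h.cpt
  obtain ⟨ζ₀, hζ₀⟩ : ∃ ζ : E, ‖ζ‖ = 1 := exists_norm_eq E zero_le_one
  have hclose : ∀ f ∈ S, ∀ g ∈ S, (∀ z ∈ G, dist (f z) (g z) ≤ ε) → Ag D f g := fun f hf g hg hd =>
    hhp f hf g hg ζ₀ 0 hζ₀ fun z hz _ => hd z hz
  choose f hf g hg m hm hz hlow using dyF_max h hε hclose hno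
  choose z hzG hz1 hz2 hz3 using hz
  choose l hl hlR using fun n => hcoc (z n)
  set 𝒰 : Ultrafilter ℕ := hyperfilter ℕ with h𝒰
  have hf' : ∀ᶠ n in (𝒰 : Filter ℕ), (fun n x => f n (x + l n)) n ∈ S :=
    Eventually.of_forall fun n => h.trans _ (hf n) _ (hl n)
  have hg' : ∀ᶠ n in (𝒰 : Filter ℕ), (fun n x => g n (x + l n)) n ∈ S :=
    Eventually.of_forall fun n => h.trans _ (hg n) _ (hl n)
  obtain ⟨F₁, hF, hFlim⟩ := h.exists_lim 𝒰 (fun n x => f n (x + l n)) hf'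
  obtain ⟨G₁, hG, hGlim⟩ := h.exists_lim 𝒰 (fun n x => g n (x + l n)) hg'
  obtain ⟨w, hw⟩ : ∃ w : E, Tendsto (fun n => z n - l n) 𝒰 (𝓝 w) := by
    obtain ⟨w, hw1, hw2⟩ := (isCompact_closedBall (0 : E) R).ultrafilter_le_nhds
      (𝒰.map fun n => z n - l n) (by
        rw [Ultrafilter.coe_map, le_principal_iff, mem_map]
        exact Filter.univ_mem' fun n => by simpa using hlR n)
    exact ⟨w, hw2⟩
  have hmlim : Tendsto (fun n => (m n : ℝ)) (𝒰 : Filter ℕ) atTop := by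
    have h1 : Tendsto (fun n : ℕ => (m n : ℝ)) atTop atTop := by
      refine tendsto_atTop_mono (fun n => ?_) tendsto_natCast_atTop_atTop
      exact_mod_cast hm n
    exact h1.mono_left Nat.hyperfilter_le_atTop
  have hl1 : ∀ n, ‖l n‖ ≤ m n + 1 + R := by
    intro n
    have h1 : ‖l n‖ ≤ ‖z n‖ + ‖z n - l n‖ := by
      have h2 := norm_sub_le (z n) (z n - l n)
      rwa [sub_sub_cancel] at h2
    have := hz2 n
    have := hlR n
    linarith
  have hl2 : ∀ n, (m n : ℝ) - R ≤ ‖l n‖ := by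
    intro n
    have h1 : ‖z n‖ ≤ ‖z n - l n‖ + ‖l n‖ := by
      have h2 := norm_add_le (z n - l n) (l n)
      rwa [sub_add_cancel] at h2
    have := hz1 n
    have := hlR n
    linarith
  have hllim : Tendsto (fun n => ‖l n‖) (𝒰 : Filter ℕ) atTop :=
    tendsto_atTop_mono hl2 (tendsto_atTop_add_const_right _ _ hmlim)
  have hlpos : ∀ᶠ n in (𝒰 : Filter ℕ), 0 < ‖l n‖ := hllim.eventually_gt_atTop 0
  obtain ⟨ζ, hζ, hζlim⟩ : ∃ ζ ∈ sphere (0 : E) 1, Tendsto (fun n => (‖l n‖)⁻¹ • l n) 𝒰 (𝓝 ζ) := by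
    obtain ⟨w, hw1, hw2⟩ := (isCompact_sphere (0 : E) 1).ultrafilter_le_nhds
      (𝒰.map fun n => (‖l n‖)⁻¹ • l n) (by
        rw [Ultrafilter.coe_map, le_principal_iff, mem_map]
        filter_upwards [hlpos] with n hn
        have h1 : ‖l n‖ ≠ 0 := hn.ne'
        simp [norm_smul, h1])
    exact ⟨w, hw1, hw2⟩
  have hζ1 : ‖ζ‖ = 1 := by simpa using hζ
  -- the limits differ at the point w
  have hwG : w ∈ G :=
    h.G_closed.mem_of_tendsto hw (Eventually.of_forall fun n => by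
      have h1 := (h.g_add (z := z n - l n) (hl n)).1
      rw [sub_add_cancel] at h1
      exact h1 (hzG n))
  have hwB : w ∉ D := h.G_D w hwG
  have hFw := h.tendsto_along 𝒰 (fun n x => f n (x + l n)) hf' hFlim hwB hw
  have hGw := h.tendsto_along 𝒰 (fun n x => g n (x + l n)) hg' hGlim hwB hw
  have hne : ¬ Ag D F₁ G₁ := by
    intro hag
    have h1 : ε ≤ dist (F₁ w) (G₁ w) :=
      ge_of_tendsto (hFw.dist hGw) (Eventually.of_forall fun n => by
        have h2 := (hz3 n).le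
        simpa only [sub_add_cancel] using h2)
    rw [hag w hwB, dist_self] at h1
    linarith
  apply hne
  -- the half space
  refine hhp F₁ hF G₁ hG ζ (-(R + 3)) hζ1 fun x hx hxr => ?_
  have hxB : x ∉ D := h.G_D x hx
  have hin : ∀ᶠ n in (𝒰 : Filter ℕ), ‖x + l n‖ ≤ m n := by
    have h2 : Tendsto (fun n => ⟪(‖l n‖)⁻¹ • l n, x⟫) 𝒰 (𝓝 ⟪ζ, x⟫) := hζlim.inner tendsto_const_nhds
    have hxr' : ⟪ζ, x⟫ < -(R + 2) := by linarith
    filter_upwards [h2.eventually (gt_mem_nhds hxr'), hlpos, hllim.eventually_ge_atTop (R + 1),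
      hllim.eventually_ge_atTop (‖x‖ ^ 2)] with n hn1 hpos hn2 hn3
    have h4 : ⟪l n, x⟫ = ‖l n‖ * ⟪(‖l n‖)⁻¹ • l n, x⟫ := by
      rw [real_inner_smul_left, ← mul_assoc, mul_inv_cancel₀ hpos.ne', one_mul]
    have h6 : ‖x + l n‖ ^ 2 = ‖x‖ ^ 2 + ‖l n‖ ^ 2 + 2 * ⟪l n, x⟫ := by
      rw [norm_add_sq_real, real_inner_comm]
      ring
    have h7 : ‖l n‖ * ⟪(‖l n‖)⁻¹ • l n, x⟫ ≤ ‖l n‖ * (-(R + 2)) :=
      mul_le_mul_of_nonneg_left hn1.le hpos.le
    have h8 : ‖x + l n‖ ^ 2 ≤ (‖l n‖ - (R + 1)) ^ 2 := by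
      rw [h6, h4]
      nlinarith
    have h9 : ‖x + l n‖ ≤ ‖l n‖ - (R + 1) :=
      (pow_le_pow_iff_left₀ (norm_nonneg _) (by linarith) two_ne_zero).1 h8
    have := hl1 n
    linarith
  refine le_of_tendsto ((hFlim x hxB).dist (hGlim x hxB)) ?_
  filter_upwards [hin] with n hn
  exact hlow n _ ((h.g_add (hl n)).2 hx) hn

/-- **finiteness** in the situation `Dyn` -/
theorem Dyn.finite {k : ℕ} {Y : Type} [MetricSpace Y] {K : Set Y} {Γ : AddSubgroup (Pool.Agent.H36.BP.EN k)}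
    {D G O : Set (Pool.Agent.H36.BP.EN k)} {S : Set (Pool.Agent.H36.BP.EN k → Y)} {Zr : Pool.Agent.H36.BP.EN k → Y → Prop}
    {Nz : Pool.Agent.H36.BP.EN k → Y → Y → Prop} (h : Dyn K Γ D G O S Zr Nz) :
    ∃ 𝓕 : Set (Pool.Agent.H36.BP.EN k → Y), 𝓕.Finite ∧ 𝓕 ⊆ S ∧ ∀ f ∈ S, ∃ g ∈ 𝓕, Ag D f g := by
  let _ : InnerProductSpace ℝ (Pool.Agent.H36.BP.EN k) := InnerProductSpace.complexToReal
  have h1 : DynE K Γ D G O S Zr Nz :=
    { compact := h.compact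
      cpt := h.cpt
      D_closed := h.D_closed
      D_inv := h.D_inv
      G_closed := h.G_closed
      G_inv := h.G_inv
      G_D := h.G_D
      O_open := h.O_open
      O_inv := h.O_inv
      O_sub := h.O_sub
      O_ne := h.O_ne
      mem := h.mem
      lip := h.lip
      trans := h.trans
      lim := h.lim
      uniq := h.uniq
      Z_inv := h.Z_inv
      Z_lim := h.Z_lim
      N_inv := h.N_inv
      half := h.half
      near := h.near
      iso := h.iso }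
  exact h1.finite

end Pool.Agent.TG

end
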