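import Pool.Agent.H94.G5T.M105

/-! The parts of this file: TG.FDefs, G4.M.FDefs. -/

section

/-!
# TG FDefs: projective manifolds over complex tori, with arbitrary singular fibres, and maps from semi-abelian varieties

`X` is a smooth projective variety of dimension `n + 1`, `n = k + 1`, `u` a holomorphic map from `X` to a complex torus `ℂ^n / Λ`.  `D ⊆ ℂ^n` is a `Λ`-invariant analytic
subset outside which `u` is a submersion, and whose fibres outside `D` contain no entire curves with bounded derivative; outside the small set `B` the set `D` is smooth and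
the map `u` is `(x^a y^b, s)` in suitable local coordinates.
-/

set_option autoImplicit false

open Topology Filter MvPolynomial
open Pool.Agent.H17 (PN VanishesAt)
open Pool.Agent.H17G (IsTangent)

noncomputable section

namespace Pool.Agent.TGF

variable {N k g : ℕ}

/-- `Cn n` is `ℂ^n`. -/
abbrev Cn (n : ℕ) : Type := Fin n → ℂ

/-- The point with the homogeneous coordinates `x` is a point of `X` over `y`. -/
def Over (X : Set (PN N)) (Λ : AddSubgroup (Cn (k + 1))) (u : PN N → Cn (k + 1) ⧸ Λ) (y : Cn (k + 1)) (x : Cn (N + 1)) : Prop :=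
  ∃ h : x ≠ 0, Projectivization.mk ℂ x h ∈ X ∧ u (Projectivization.mk ℂ x h) = (y : Cn (k + 1) ⧸ Λ)

/-- `σ` is a local parametrisation of the manifold `X` (of dimension `k + 2`) at the point `x`, given by homogeneous coordinates. -/
structure IsParam (X : Set (PN N)) (x : PN N) (σ : Cn (k + 2) → Cn (N + 1)) : Prop where
  holomorphic : AnalyticAt ℂ σ 0
  point : ∃ h : σ 0 ≠ 0, Projectivization.mk ℂ (σ 0) h = x
  mem : ∀ᶠ p in 𝓝 (0 : Cn (k + 2)), ∃ h : σ p ≠ 0, Projectivization.mk ℂ (σ p) h ∈ X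
  immersion : ∀ (v : Cn (k + 2)) (a : ℂ), fderiv ℂ σ 0 v = a • σ 0 → v = 0

/-- In suitable local coordinates of `X` at `x` the map `u` is `p ↦ y + (p 1, …, p (k + 1))`. -/
def Submersion (X : Set (PN N)) (Λ : AddSubgroup (Cn (k + 1))) (u : PN N → Cn (k + 1) ⧸ Λ) (y : Cn (k + 1)) (x : PN N) : Prop :=
  ∃ σ : Cn (k + 2) → Cn (N + 1), IsParam X x σ ∧ ∀ᶠ p in 𝓝 (0 : Cn (k + 2)), Over X Λ u (y + fun i => p i.succ) (σ p)

/-- In suitable local coordinates of `X` at `x` the map `u` is `p ↦ κ (p 0 ^ a * p 1 ^ b, p 2, …, p (k + 1))`. -/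
def NormalCrossing (X : Set (PN N)) (Λ : AddSubgroup (Cn (k + 1))) (u : PN N → Cn (k + 1) ⧸ Λ) (κ : Cn (k + 1) → Cn (k + 1)) (x : PN N) : Prop :=
  ∃ (σ : Cn (k + 2) → Cn (N + 1)) (a b : ℕ), IsParam X x σ ∧ 0 < a + b ∧
    ∀ᶠ p in 𝓝 (0 : Cn (k + 2)), Over X Λ u (κ (Fin.cons (p 0 ^ a * p 1 ^ b) fun i : Fin k => p i.succ.succ)) (σ p)

/-- `κ` is (the inverse of) a system of local coordinates of `ℂ^(k+1)` at `y` in which `D` is the hyperplane `q 0 = 0`. -/
structure IsCoord (D : Set (Cn (k + 1))) (κ : Cn (k + 1) → Cn (k + 1)) (y : Cn (k + 1)) : Prop where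
  holomorphic : AnalyticAt ℂ κ 0
  point : κ 0 = y
  immersion : ∀ v, fderiv ℂ κ 0 v = 0 → v = 0
  mem_iff : ∀ᶠ q in 𝓝 (0 : Cn (k + 1)), (κ q ∈ D ↔ q 0 = 0)

/-- `Z` is a (closed) analytic subset of `ℂ^n`: near every point of `ℂ^n` it is the common zero set of finitely many holomorphic functions. -/
def IsAnalyticSubset {n : ℕ} (Z : Set (Cn n)) : Prop :=
  ∀ y : Cn n, ∃ (m : ℕ) (h : Cn n → Cn m), AnalyticAt ℂ h y ∧ ∀ᶠ z in 𝓝 y, (z ∈ Z ↔ h z = 0)

end Pool.Agent.TGF

end
end

section

/-!
# G4 M FDefs: negatively curved metrics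

`HasMetric`: there is a continuous function `p ≥ 0` on the tangent vectors of `X`, homogeneous of degree `m ≥ 1`, which is positive at the vectors `v ≠ 0` outside `D`, such that for every holomorphic curve `f` in `X`, with
homogeneous coordinates `φ` and a lift `υ` of `u ∘ f`, the function `log p (f') - log |φ| + C |υ|²` is subharmonic with isolated poles, or `-∞`.  (For symmetric differentials `S j` with values in `O(-1)` and in a
semipositive line bundle of the torus, without common zeros outside `D`, the function `p = max |S j|` has these properties.)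
-/

set_option autoImplicit false

open Topology Filter Metric
open Pool.Agent.H17 (PN)
open Pool.Agent.H17G (IsTangent)
open Pool.Agent.TGF (Cn Over)

noncomputable section

namespace Pool.Agent.G4F

variable {N k : ℕ}

/-- On the open set `U` the function `log g + s` (with the value `-∞` at the zeros of `g ≥ 0`) is subharmonic with isolated poles, or `-∞`: near every point of `U` the zeros of `g` are isolated or `g` is `0`, and the
mean value inequality holds on the closed discs in `U`. -/
def IsSubharmonic (U : Set ℂ) (g s : ℂ → ℝ) : Prop :=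
  (∀ z ∈ U, (∀ᶠ w in 𝓝 z, g w = 0) ∨ ∀ᶠ w in 𝓝[≠] z, 0 < g w) ∧
  ∀ (z : ℂ) (r : ℝ), 0 < r → closedBall z r ⊆ U → 0 < g z →
    CircleIntegrable (fun w => Real.log (g w) + s w) z r ∧ Real.log (g z) + s z ≤ Real.circleAverage (fun w => Real.log (g w) + s w) z r

/-- `p (x, v)`, for homogeneous coordinates `x` and tangent vectors `v` of the cone over `X`, is a negatively curved metric of degree `m` on `X`, possibly degenerate over `D`. -/
structure IsNegativeMetric (X : Set (PN N)) (Λ : AddSubgroup (Cn (k + 1))) (u : PN N → Cn (k + 1) ⧸ Λ) (D : Set (Cn (k + 1))) (m : ℕ) (C : ℝ)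
    (p : Cn (N + 1) → Cn (N + 1) → ℝ) : Prop where
  nonneg : ∀ x v, 0 ≤ p x v
  /-- `p` is a function on the tangent vectors of the projective variety, homogeneous of degree `m` -/
  homogeneous : ∀ y x, Over X Λ u y x → ∀ v, IsTangent X x v → ∀ a b c : ℂ, c ≠ 0 → p (c • x) (c • (a • v + b • x)) = ‖a‖ ^ m * p x v
  continuous : ContinuousOn (fun q : Cn (N + 1) × Cn (N + 1) => p q.1 q.2) {q | (∃ y, Over X Λ u y q.1) ∧ IsTangent X q.1 q.2}
  /-- outside `D` it is positive at the tangent vectors of the projective variety which are not `0` -/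
  positive : ∀ y ∉ D, ∀ x, Over X Λ u y x → ∀ v, IsTangent X x v → p x v = 0 → ∃ c : ℂ, v = c • x
  /-- for the holomorphic curves in `X` (with homogeneous coordinates `φ`, over `υ`) the function `log p (φ, φ') - log |φ| + C |υ|²` is subharmonic -/
  subharmonic : ∀ (U : Set ℂ) (φ : ℂ → Cn (N + 1)) (υ : ℂ → Cn (k + 1)), IsOpen U → DifferentiableOn ℂ φ U → DifferentiableOn ℂ υ U → (∀ z ∈ U, Over X Λ u (υ z) (φ z)) →
    IsSubharmonic U (fun w => p (φ w) (deriv φ w)) fun w => C * ∑ i, ‖υ w i‖ ^ 2 - Real.log (∑ i, ‖φ w i‖ ^ 2) / 2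

/-- There is a negatively curved metric of some degree `m ≥ 1` on `X`, positive outside `D`. -/
def HasMetric (X : Set (PN N)) (Λ : AddSubgroup (Cn (k + 1))) (u : PN N → Cn (k + 1) ⧸ Λ) (D : Set (Cn (k + 1))) : Prop :=
  ∃ (m : ℕ) (C : ℝ) (p : Cn (N + 1) → Cn (N + 1) → ℝ), 1 ≤ m ∧ 0 ≤ C ∧ IsNegativeMetric X Λ u D m C p

end Pool.Agent.G4F

end
end
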