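import Pool.Agent.H94.G5T.M100
import Pool.Agent.H94.G5T.M109
import Pool.Agent.H94.G5T.M47
import Pool.Agent.H94.G5T.M50
import Pool.Agent.H94.G5T.M87
import Pool.Agent.H94.G5T.M97

/-! The parts of this file: H14.V.MainV, H17G.ChG, H7.Bir.Main, H23.GU.Up, TG.FDefs_2, TG.GuD, TG.FDefs_1. -/

section

/-!
# V MainV: entire curves in surfaces of general type, in the projective space
-/

set_option autoImplicit false

open Topology Filter MvPolynomial Metric

noncomputable section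

namespace Pool.Agent.H14.V

open Pool.Agent.H17 (PN VanishesAt HolomorphicInto ZariskiClosedIn puncturedDisc)
open Pool.Agent.H62.FC (Homog)
open Pool.Agent.H17BP (Surface)
open Pool.Agent.H13.SM (cone)
open Pool.Agent.H36.BP (EN fs wd isCone_transport)
open Pool.Agent.H14.PP (IsCone Chart)
open Pool.Agent.H17EF (projVar coneE LE mk_mem_projVar)
open Pool.Agent.H62.EF (Charts)

variable {N : ℕ}

/-- `F` is an entire map to `ℂ^(N+1)` without zeros which represents `f`. -/
def IsLift (F : ℂ → EuclideanSpace ℂ (Fin (N + 1))) (f : ℂ → PN N) : Prop :=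
  Differentiable ℂ F ∧ ∀ z, ∃ h : (F z).ofLp ≠ 0, f z = Projectivization.mk ℂ (F z).ofLp h

/-- The entire curves `f` in `X` with `|f'| ≤ L`. -/
def brodyCurves (X : Set (PN N)) (L : ℝ) : Set (ℂ → PN N) :=
  {f | (∀ z, f z ∈ X) ∧ ∃ F, IsLift F f ∧ ∀ z, fs (F z) (deriv F z) ≤ L}

theorem isLift_mk {F : ℂ → EN N} (hF : Differentiable ℂ F) (h0 : ∀ z, (F z).ofLp ≠ 0) :
    IsLift F fun z => Projectivization.mk ℂ (F z).ofLp (h0 z) :=
  ⟨hF, fun z => ⟨h0 z, rfl⟩⟩

variable {P : Ideal (MvPolynomial (Fin (N + 1)) ℂ)} 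

theorem IsLift.mem_iff (hP : Homog P) {F : ℂ → EN N} {f : ℂ → PN N} (h : IsLift F f) (z : ℂ) :
    f z ∈ projVar P ↔ F z ∈ coneE P := by
  obtain ⟨h1, h2⟩ := h.2 z
  rw [h2, mk_mem_projVar hP h1]
  rfl

end Pool.Agent.H14.V

end
end

section

/-!
# G ChG: the local coordinates and the forms, from the projective space to the cone

* `isNC_of`: let `x ∈ coneE P`, and `σ, τ, c, i, j` as in `IsNCPoint` for the point of `x`.  `σ 0 = b • (LE N).symm x` with `b ≠ 0`; put `σ' p = (LE N) (b⁻¹ • σ p)`, so `σ' 0 = x`, `σ' p ∈ coneE P`, `uE Λ u (σ' p) - (c + s^i t^j) ∈ Λ` for `p = (s, t)` near `0`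
  (compare the proof of `H17EF.fibHyp` in `H17EF/Bridge.lean`, where the same is done for nodes; there also `τ' y = τ (b • (LE N).symm y)` with
  `∀ᶠ y in 𝓝 x, y ∈ coneE P → ∃ a ≠ 0, y = a • σ' (τ' y)`).  Only the property `IsGermChart.inv` is missing, so `τ'` is changed: let `χ` be a chart (`Pool.Agent.H14.PP.Chart`) with `x ∈ χ.U`, `χ.q x = 0` (`H17EF.charts hS`),
  and `h p = χ.q (σ' p)`, analytic at `0`, `h 0 = 0`; `k p = τ' (s p)`, `s p = a₀ • χ.σ p` with `a₀ • χ.σ 0 = x` (`χ.surj`: `x = a₀ • χ.σ (χ.q x) = a₀ • χ.σ 0`), `k 0 = τ' x = 0`.  For `p` near `0`: `s p ∈ coneE P` is near `x`, so `s p = a • σ' (k p)`, so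
  `p = χ.q (χ.σ p) = χ.q (s p) = χ.q (σ' (k p)) = h (k p)` (`χ.q_smul`; `σ' (k p) ∈ χ.U`).  So `h ∘ k = id` near `0`, the derivatives `h'(0)`, `k'(0)` (in dimension 2) are inverse to each other, `h` is a local homeomorphism with analytic inverse, and the inverse is
  `k` near `0` (`HasStrictFDerivAt` inverse function theorem, or: `k` is injective near `0` and open, so `k ∘ h = id` near `0`).  Put `τ'' y = k (χ.q y)`: it is analytic at `x`, `τ'' (σ' p) = k (h p) = p`; for `y ∈ coneE P` near `x`, `y = a • χ.σ (χ.q y)` and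
  `χ.q y = h (k (χ.q y)) = χ.q (σ' (τ'' y))`, so `σ' (τ'' y) = a' • χ.σ (χ.q y)`, so `y` is a multiple of `σ' (τ'' y)`; `inv`: `χ.q (c • y) = χ.q y` for `y ∈ χ.U`, `c ≠ 0`.

* `tform`: transport by `LE N`: `toFun z x v w = Ω z ((LE N).symm x) ((LE N).symm v) ((LE N).symm w)`; `Over (projVar P) Λ u z ((LE N).symm x) ↔ x ∈ coneE P ∧ uE Λ u x - z ∈ Λ` (`mem_coneE`, `uE_eq`, `sub_mem_iff`); tangent vectors: compare
  `H36.BP.tan_transport` and `formT` (`H36/BP/Nodal.lean`).
-/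

set_option autoImplicit false

open Topology Filter Metric MvPolynomial

noncomputable section

namespace Pool.Agent.H17G

open Pool.Agent.H17 (PN VanishesAt HolomorphicInto)
open Pool.Agent.H62.FC (Homog)
open Pool.Agent.H62.EF (Charts)
open Pool.Agent.H17BP (Surface)
open Pool.Agent.H13.SM (cone)
open Pool.Agent.H36.BP (EN IsGermChart)
open Pool.Agent.H14.PP (IsCone Chart Tan)
open Pool.Agent.H17EF (projVar coneE uE LE mem_coneE sub_mem_iff uE_eq mk_mem_projVar)

variable {N : ℕ} {P : Ideal (MvPolynomial (Fin (N + 1)) ℂ)} {Λ Γ : AddSubgroup ℂ} {u : PN N → ℂ ⧸ Λ}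

theorem over_iff (hP : Homog P) {z : ℂ} {x : EN N} : Over (projVar P) Λ u z ((LE N).symm x) ↔ x ∈ coneE P ∧ uE Λ u x - z ∈ Λ := by
  constructor
  · rintro ⟨h, h1, h2⟩
    exact ⟨(mem_coneE hP).2 ⟨h, h1⟩, by rw [sub_mem_iff, uE_eq Λ u h]; exact h2⟩
  · rintro ⟨h1, h2⟩
    obtain ⟨h, h3⟩ := (mem_coneE hP).1 h1
    exact ⟨h, h3, by rw [← uE_eq Λ u h]; exact sub_mem_iff.1 h2⟩

theorem isTangent_iff (hP : Homog P) {x v : EN N} (hx : x ∈ coneE P) :
    IsTangent (projVar P) ((LE N).symm x) ((LE N).symm v) ↔ Tan (coneE P) x v := by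
  constructor
  · rintro ⟨γ, hγ, h0, h1, h2⟩
    refine ⟨fun z => (LE N) (γ z), ⟨((LE N : (Fin (N + 1) → ℂ) →L[ℂ] EN N).analyticAt _).comp hγ, ?_⟩, ?_, ?_⟩
    · filter_upwards [h2] with z hz
      obtain ⟨h3, h4⟩ := hz
      rw [mem_coneE hP]
      have h5 : (LE N).symm ((LE N) (γ z)) = γ z := ContinuousLinearEquiv.symm_apply_apply _ _
      rw [h5]
      exact ⟨h3, h4⟩
    · show (LE N) (γ 0) = x
      rw [h0, ContinuousLinearEquiv.apply_symm_apply]
    · have h3 : HasDerivAt (fun z => (LE N) (γ z)) ((LE N) (deriv γ 0)) 0 :=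
        (LE N : (Fin (N + 1) → ℂ) →L[ℂ] EN N).hasFDerivAt.comp_hasDerivAt 0 hγ.differentiableAt.hasDerivAt
      rw [h3.deriv, h1, ContinuousLinearEquiv.apply_symm_apply]
  · rintro ⟨F, ⟨hF, hFX⟩, h0, h1⟩
    refine ⟨fun z => (LE N).symm (F z), (((LE N).symm : EN N →L[ℂ] (Fin (N + 1) → ℂ)).analyticAt _).comp hF, by simp only [h0], ?_, ?_⟩
    · have h3 : HasDerivAt (fun z => (LE N).symm (F z)) ((LE N).symm (deriv F 0)) 0 :=
        ((LE N).symm : EN N →L[ℂ] (Fin (N + 1) → ℂ)).hasFDerivAt.comp_hasDerivAt 0 hF.differentiableAt.hasDerivAt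
      rw [h3.deriv, h1]
    · filter_upwards [hFX] with z hz
      exact (mem_coneE hP).1 hz

end Pool.Agent.H17G

end
end

section

/-!
# Bir Main: the properties of the Green–Griffiths–Lang conjecture are birationally invariant

`bir_four`: let `P` and `P'` be homogeneous prime ideals whose function fields are isomorphic over `ℂ`.  If the variety of `P` has the properties of
the conjecture (with an exceptional set `Ξ`), then so has the variety of `P'`.
-/

set_option autoImplicit false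

open Topology Filter MvPolynomial

noncomputable section

namespace Pool.Agent.H7.Bir

open Pool.Agent.H17 (PN VanishesAt HolomorphicInto puncturedDisc vanishesAt_mk_iff ZariskiClosedIn)
open Pool.Agent.H17GT (coordFun)
open Pool.Agent.H17LG.Variety (FunField IsLogGeneralType)
open Pool.Agent.H17R (coordFun_ne_zero_iff)

variable {N M : ℕ}

theorem punctured_open : IsOpen puncturedDisc := Metric.isOpen_ball.sdiff isClosed_singleton

/-- The value of a composed form. -/
theorem eval_comp (γ : Fin (N + 1) → MvPolynomial (Fin (M + 1)) ℂ) (R : MvPolynomial (Fin (N + 1)) ℂ) (x : Fin (M + 1) → ℂ) :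
    eval x (aeval γ R) = eval (vals γ x) R := by
  have h1 := aeval_comp (K := ℂ) x γ R
  exact h1

/-- A form vanishes at the image of a point if and only if its composition with the rational map vanishes. -/
theorem vanishesAt_rmap {γ : Fin (N + 1) → MvPolynomial (Fin (M + 1)) ℂ} {y : PN M} (hy : vals γ y.rep ≠ 0) {n : ℕ}
    {R : MvPolynomial (Fin (N + 1)) ℂ} (hR : R.IsHomogeneous n) : VanishesAt R (rmap γ y) ↔ VanishesAt (aeval γ R) y := by
  unfold rmap
  rw [dif_pos hy, vanishesAt_mk_iff hR]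
  unfold VanishesAt
  rw [eval_comp]

section

variable {P : Ideal (MvPolynomial (Fin (N + 1)) ℂ)} {P' : Ideal (MvPolynomial (Fin (M + 1)) ℂ)} {D D' : ℕ}
  {α : Fin (M + 1) → MvPolynomial (Fin (N + 1)) ℂ} {γ : Fin (N + 1) → MvPolynomial (Fin (M + 1)) ℂ} {j : Fin (N + 1)}
  {j' : Fin (M + 1)}

end

end Pool.Agent.H7.Bir

end
end

section

/-!
# GU Up: the properties `GGLC` go up along dominant rational maps of projective varieties of the same dimension

`gglc_up`: let `P` and `P'` be homogeneous prime ideals, whose varieties `X` and `X'` have the same dimension, and let the function field of `X` be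
embedded in the function field of `X'` (this is a dominant rational map from `X'` to `X`).  If `X` has the properties `GGLC` (with an exceptional set
`Ξ`), then so has `X'`.
-/

set_option autoImplicit false

open Topology Filter MvPolynomial

noncomputable section

namespace Pool.Agent.H23.GU

open Pool.Agent.H17 (PN VanishesAt HolomorphicInto puncturedDisc vanishesAt_mk_iff ZariskiClosedIn)
open Pool.Agent.H17GT (coordFun)
open Pool.Agent.H17LG.Variety (FunField IsLogGeneralType ratio)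
open Pool.Agent.H17R (coordFun_ne_zero_iff gen_eq_zero_iff ratio_self adjoin_ratio)
open Pool.Agent.H17EF (projVar)
open Pool.Agent.H7.Bir (vals rmap vanishesAt_rmap pn_identity punctured_open exists_quot aeval_comp aeval_div rmap_mk vals_smul eval_comp exists_comp)
open Pool.Agent.H7.Qup (const_of_root root_bound vals_rep_ne)

variable {N M : ℕ}

/-- An embedding of function fields is given by forms. -/
theorem exists_rat {P : Ideal (MvPolynomial (Fin (N + 1)) ℂ)} [P.IsPrime] {P' : Ideal (MvPolynomial (Fin (M + 1)) ℂ)}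
    [P'.IsPrime] (e : FunField P →ₐ[ℂ] FunField P') {j : Fin (N + 1)} (hj : coordFun P j ≠ 0) {j' : Fin (M + 1)}
    (hj' : coordFun P' j' ≠ 0) :
    ∃ (D : ℕ) (γ : Fin (N + 1) → MvPolynomial (Fin (M + 1)) ℂ), (∀ i, (γ i).IsHomogeneous D) ∧
      (∀ n R, R.IsHomogeneous n → (aeval γ R ∈ P' ↔ R ∈ P)) ∧ γ j ∉ P' := by
  set ξ : Fin (N + 1) → FunField P := fun i => ratio P i j with hξ
  set η : Fin (M + 1) → FunField P' := fun i => ratio P' i j' with hη
  have hξ1 : ξ j = 1 := ratio_self hj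
  have hη1 : η j' = 1 := ratio_self hj'
  obtain ⟨D, γ, hγ, hγ0, hγ1⟩ := exists_quot hη1 (adjoin_ratio hj') (fun i => e (ξ i)) (j' := j) (by simp only [hξ1, map_one])
  have h1 : (fun i => aeval η (γ i) / aeval η (γ j)) = fun i => e (ξ i) := by
    funext i
    rw [← hγ1, mul_div_cancel_right₀ _ hγ0]
  have hsymm : ∀ R : MvPolynomial (Fin (N + 1)) ℂ, aeval (fun i => e (ξ i)) R = e (aeval ξ R) := by
    intro R
    have h2 := DFunLike.congr_fun (MvPolynomial.comp_aeval ξ e) R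
    exact h2.symm
  have h2 : ∀ (n : ℕ) (R : MvPolynomial (Fin (N + 1)) ℂ), R.IsHomogeneous n →
      aeval η (aeval γ R) = aeval η (γ j) ^ n * e (aeval ξ R) := by
    intro n R hR
    rw [aeval_comp, aeval_div hR hγ0, h1, hsymm]
  refine ⟨D, γ, hγ, ?_, ?_⟩
  · intro n R hR
    have h3 : (aeval γ R).IsHomogeneous (D * n) := hR.aeval γ hγ
    rw [← gen_eq_zero_iff hj' h3, ← gen_eq_zero_iff hj hR]
    change aeval η (aeval γ R) = 0 ↔ aeval ξ R = 0
    rw [h2 n R hR, mul_eq_zero, map_eq_zero_iff e e.injective]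
    exact ⟨fun h => h.resolve_left (pow_ne_zero _ hγ0), Or.inr⟩
  · intro h
    exact hγ0 ((gen_eq_zero_iff hj' (hγ j)).2 h)

theorem eval_smul {n : ℕ} {Q : MvPolynomial (Fin (N + 1)) ℂ} (hQ : Q.IsHomogeneous n) (c : ℂ) (x : Fin (N + 1) → ℂ) :
    eval (c • x) Q = c ^ n * eval x Q :=
  Pool.Agent.H17BP.eval_smul_form hQ c x

/-- The equation of the coordinate `i`. -/
def rel {m : ℕ} (α : Fin (m + 1) → MvPolynomial (Fin (N + 1)) ℂ) (i j : Fin (M + 1)) (x : Fin (N + 1) → ℂ) (y : Fin (M + 1) → ℂ) : ℂ :=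
  ∑ l : Fin (m + 1), eval x (α l) * y i ^ (l : ℕ) * y j ^ (m - (l : ℕ))

theorem rel_smul {m D₁ : ℕ} {α : Fin (m + 1) → MvPolynomial (Fin (N + 1)) ℂ} (hα : ∀ l, (α l).IsHomogeneous D₁) (i j : Fin (M + 1))
    (a b : ℂ) (x : Fin (N + 1) → ℂ) (y : Fin (M + 1) → ℂ) : rel α i j (a • x) (b • y) = a ^ D₁ * b ^ m * rel α i j x y := by
  unfold rel
  rw [Finset.mul_sum]
  refine Finset.sum_congr rfl fun l _ => ?_
  have h1 : (l : ℕ) ≤ m := Nat.lt_succ_iff.1 l.2
  have h2 : b ^ m = b ^ (l : ℕ) * b ^ (m - (l : ℕ)) := by rw [← pow_add, Nat.add_sub_cancel' h1]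
  rw [eval_smul (hα l), h2, Pi.smul_apply, Pi.smul_apply, smul_eq_mul, smul_eq_mul, mul_pow, mul_pow]
  ring

theorem rel_vals {m : ℕ} (α : Fin (m + 1) → MvPolynomial (Fin (N + 1)) ℂ) (i j : Fin (M + 1))
    (γ : Fin (N + 1) → MvPolynomial (Fin (M + 1)) ℂ) (y : Fin (M + 1) → ℂ) :
    rel α i j (vals γ y) y = eval y (∑ l : Fin (m + 1), aeval γ (α l) * X i ^ (l : ℕ) * X j ^ (m - (l : ℕ))) := by
  unfold rel
  rw [map_sum]
  refine Finset.sum_congr rfl fun l _ => ?_
  rw [map_mul, map_mul, map_pow, map_pow, eval_X, eval_X, eval_comp]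

theorem rel_continuousAt {m : ℕ} (α : Fin (m + 1) → MvPolynomial (Fin (N + 1)) ℂ) (i j : Fin (M + 1)) {ψ : ℂ → Fin (N + 1) → ℂ}
    {φ : ℂ → Fin (M + 1) → ℂ} {z : ℂ} (hψ : AnalyticAt ℂ ψ z) (hφ : AnalyticAt ℂ φ z) :
    ContinuousAt (fun w => rel α i j (ψ w) (φ w)) z := by
  unfold rel
  have h1 : ∀ Q : MvPolynomial (Fin (N + 1)) ℂ, ContinuousAt (fun w => eval (ψ w) Q) z := by
    intro Q
    have h1 : AnalyticAt ℂ (fun w => MvPolynomial.aeval (ψ w) Q) z := AnalyticAt.aeval_mvPolynomial (fun i => analyticAt_pi_iff.mp hψ i) Q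
    exact h1.continuousAt
  have h2 : ∀ i, ContinuousAt (fun w => φ w i) z := fun i => (continuous_apply i).continuousAt.comp hφ.continuousAt
  have h3 : ContinuousAt (fun w => ∑ l : Fin (m + 1), eval (ψ w) (α l) * φ w i ^ (l : ℕ) * φ w j ^ (m - (l : ℕ))) z := by
    refine tendsto_finsetSum _ fun l _ => ?_
    exact ((h1 _).mul ((h2 i).pow _)).mul ((h2 j).pow _)
  exact h3

/-- `g` is the composition of `f` with the rational map (in a weak sense): the equations between the coordinates hold. -/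
def Rel {m : ℕ} (α : Fin (m + 1) → MvPolynomial (Fin (N + 1)) ℂ) (i j : Fin (M + 1)) (p : PN N) (q : PN M) : Prop :=
  ∀ (y : Fin (M + 1) → ℂ) (hy : y ≠ 0) (x : Fin (N + 1) → ℂ) (hx : x ≠ 0), q = Projectivization.mk ℂ y hy → p = Projectivization.mk ℂ x hx →
    rel α i j x y = 0

theorem Rel_of {m D₁ : ℕ} {α : Fin (m + 1) → MvPolynomial (Fin (N + 1)) ℂ} (hα : ∀ l, (α l).IsHomogeneous D₁) {i j : Fin (M + 1)}
    {x : Fin (N + 1) → ℂ} (hx : x ≠ 0) {y : Fin (M + 1) → ℂ} (hy : y ≠ 0) (h : rel α i j x y = 0) :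
    Rel α i j (Projectivization.mk ℂ x hx) (Projectivization.mk ℂ y hy) := by
  intro y' hy' x' hx' h1 h2
  rw [eq_comm, Projectivization.mk_eq_mk_iff'] at h1 h2
  obtain ⟨b, hb⟩ := h1
  obtain ⟨a, ha⟩ := h2
  rw [← hb, ← ha, rel_smul hα, h, mul_zero]

/-- If the image is constant near a point then so is `f`. -/
theorem const_near {j : Fin (M + 1)} {m : Fin (M + 1) → ℕ} {α : ∀ i, Fin (m i + 1) → MvPolynomial (Fin (N + 1)) ℂ}
    {f : ℂ → PN M} {g : ℂ → PN N} {z₀ : ℂ} (hrel : ∀ i, ∀ᶠ z in 𝓝 z₀, Rel (α i) i j (g z) (f z))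
    {φ : ℂ → Fin (M + 1) → ℂ} (hφ : AnalyticAt ℂ φ z₀)
    (he : ∀ᶠ z in 𝓝 z₀, ∃ h : φ z ≠ 0, f z = Projectivization.mk ℂ (φ z) h)
    (hj : φ z₀ j ≠ 0) {x : Fin (N + 1) → ℂ} (hx : x ≠ 0) (hα : ∀ i, eval x (α i (Fin.last (m i))) ≠ 0)
    (hg : ∀ᶠ z in 𝓝 z₀, g z = Projectivization.mk ℂ x hx) : ∀ᶠ z in 𝓝 z₀, f z = f z₀ := by
  have hcj : ContinuousAt (fun z => φ z j) z₀ := (continuous_apply j).continuousAt.comp hφ.continuousAt
  obtain ⟨r, hr, hball⟩ := Metric.eventually_nhds_iff_ball.1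
    ((((he.and (eventually_all.2 hrel)).and hg).and (hcj.eventually_ne hj)).and hφ.eventually_analyticAt)
  have hz₀ : z₀ ∈ Metric.ball z₀ r := Metric.mem_ball_self hr
  have hconst : ∀ i, ∀ z ∈ Metric.ball z₀ r, φ z i / φ z j = φ z₀ i / φ z₀ j := by
    intro i
    refine const_of_root (b := fun l => eval x (α i l)) (hα i) (ρ := fun z => φ z i / φ z j) (fun z hz => ?_) fun z hz => ?_
    · have h1 := (hball z hz).2.continuousAt
      exact (((continuous_apply i).continuousAt.comp h1).div ((continuous_apply j).continuousAt.comp h1) (hball z hz).1.2).continuousWithinAt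
    · obtain ⟨⟨⟨⟨h1, h2⟩, h3⟩, h4⟩, -⟩ := hball z hz
      obtain ⟨h5, h6⟩ := h1
      have h7 := h2 i (φ z) h5 x hx h6 h3
      unfold rel at h7
      have h8 : ∀ l : Fin (m i + 1), eval x (α i l) * φ z i ^ (l : ℕ) * φ z j ^ (m i - (l : ℕ)) =
          φ z j ^ m i * (eval x (α i l) * (φ z i / φ z j) ^ (l : ℕ)) := by
        intro l
        have h9 : (l : ℕ) ≤ m i := Nat.lt_succ_iff.1 l.2
        have h10 : φ z j ^ m i = φ z j ^ (l : ℕ) * φ z j ^ (m i - (l : ℕ)) := by
          rw [← pow_add, Nat.add_sub_cancel' h9]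
        rw [h10, div_pow]
        field_simp
      rw [Finset.sum_congr rfl fun l _ => h8 l, ← Finset.mul_sum, mul_eq_zero] at h7
      exact h7.resolve_left (pow_ne_zero _ h4)
  filter_upwards [Metric.ball_mem_nhds z₀ hr] with z hz
  obtain ⟨⟨⟨⟨⟨h5, h6⟩, h2⟩, h3⟩, h4⟩, -⟩ := hball z hz
  obtain ⟨⟨⟨⟨⟨h5', h6'⟩, h2'⟩, h3'⟩, h4'⟩, -⟩ := hball z₀ hz₀
  rw [h6, h6', Projectivization.mk_eq_mk_iff']
  refine ⟨φ z j / φ z₀ j, ?_⟩
  funext i
  have h7 := hconst i z hz
  change φ z j / φ z₀ j * φ z₀ i = φ z i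
  rw [div_eq_div_iff h4 h4'] at h7
  field_simp
  linear_combination -h7

/-- **Extension over the puncture.** -/
theorem extend_of_alg {j : Fin (M + 1)} {m : Fin (M + 1) → ℕ} {α : ∀ i, Fin (m i + 1) → MvPolynomial (Fin (N + 1)) ℂ}
    {f : ℂ → PN M} {g : ℂ → PN N} (hrel : ∀ i, ∀ z ∈ puncturedDisc, Rel (α i) i j (g z) (f z)) (hf : HolomorphicInto f puncturedDisc)
    {ψ : ℂ → Fin (N + 1) → ℂ} (hψ : AnalyticAt ℂ ψ 0)
    (hpf : ∀ᶠ z in 𝓝 (0 : ℂ), z ≠ 0 → ∃ h : ψ z ≠ 0, g z = Projectivization.mk ℂ (ψ z) h)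
    (hα : ∀ i, ¬ ∀ᶠ z in 𝓝 (0 : ℂ), eval (ψ z) (α i (Fin.last (m i))) = 0) :
    ∃ g : ℂ → PN M, HolomorphicInto g (Metric.ball 0 1) ∧ ∀ z ∈ puncturedDisc, g z = f z := by
  classical
  have han : ∀ Q : MvPolynomial (Fin (N + 1)) ℂ, AnalyticAt ℂ (fun z => eval (ψ z) Q) 0 := by
    intro Q
    have h1 : AnalyticAt ℂ (fun w => MvPolynomial.aeval (ψ w) Q) 0 :=
      AnalyticAt.aeval_mvPolynomial (fun i => analyticAt_pi_iff.mp hψ i) Q
    exact h1
  set a : Fin (M + 1) → ℂ → ℂ := fun i z => eval (ψ z) (α i (Fin.last (m i))) with ha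
  have hane : ∀ i, ∀ᶠ z in 𝓝[≠] (0 : ℂ), a i z ≠ 0 := by
    intro i
    exact (han _).eventually_eq_zero_or_eventually_ne_zero.resolve_left (hα i)
  -- bounds of the coefficients
  have hbd : ∀ i, ∃ C : ℝ, ∀ᶠ z in 𝓝 (0 : ℂ), ∀ l, ‖eval (ψ z) (α i l)‖ ≤ C := by
    intro i
    have h1 : ∀ l, ∃ C : ℝ, ∀ᶠ z in 𝓝 (0 : ℂ), ‖eval (ψ z) (α i l)‖ ≤ C := fun l =>
      ⟨‖eval (ψ 0) (α i l)‖ + 1, ((han (α i l)).continuousAt.norm.eventually_lt continuousAt_const (lt_add_one _)).mono fun z hz => hz.le⟩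
    choose C hC using h1
    refine ⟨∑ l, |C l|, ?_⟩
    filter_upwards [eventually_all.2 hC] with z hz l
    exact ((hz l).trans (le_abs_self _)).trans (Finset.single_le_sum (f := fun l => |C l|) (fun l _ => abs_nonneg _) (Finset.mem_univ l))
  choose C hC using hbd
  have hev : ∀ᶠ z in 𝓝[≠] (0 : ℂ), z ∈ puncturedDisc ∧ (∃ h : ψ z ≠ 0, g z = Projectivization.mk ℂ (ψ z) h) ∧
      (∀ i l, ‖eval (ψ z) (α i l)‖ ≤ C i) ∧ ∀ i, a i z ≠ 0 := by
    have h1 : ∀ᶠ z in 𝓝[≠] (0 : ℂ), z ∈ puncturedDisc := by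
      have h4 : Metric.ball (0 : ℂ) 1 \ {0} ∈ 𝓝[≠] (0 : ℂ) := sdiff_mem_nhdsWithin_compl (Metric.ball_mem_nhds _ one_pos) _
      exact h4
    have h2 : ∀ᶠ z in 𝓝[≠] (0 : ℂ), ∃ h : ψ z ≠ 0, g z = Projectivization.mk ℂ (ψ z) h :=
      eventually_nhdsWithin_iff.2 (hpf.mono fun z hz h => hz h)
    filter_upwards [h1, h2, (eventually_all.2 hC).filter_mono nhdsWithin_le_nhds, eventually_all.2 hane] with z h3 h4 h5 h6
    exact ⟨h3, h4, h5, h6⟩
  obtain ⟨r, hr, hball⟩ : ∃ r > 0, ∀ z ∈ Metric.ball (0 : ℂ) r \ {0}, z ∈ puncturedDisc ∧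
      (∃ h : ψ z ≠ 0, g z = Projectivization.mk ℂ (ψ z) h) ∧ (∀ i l, ‖eval (ψ z) (α i l)‖ ≤ C i) ∧ ∀ i, a i z ≠ 0 := by
    obtain ⟨r, hr, h1⟩ := Metric.eventually_nhds_iff_ball.1 (eventually_nhdsWithin_iff.1 hev)
    exact ⟨r, hr, fun z hz => h1 z hz.1 hz.2⟩
  -- the coordinate `j` does not vanish
  have hj : ∀ z ∈ Metric.ball (0 : ℂ) r \ {0}, (f z).rep j ≠ 0 := by
    intro z hz h0
    obtain ⟨h1, ⟨h2, h3⟩, -, h5⟩ := hball z hz
    apply (f z).rep_nonzero
    funext i
    have h6 := hrel i z h1 (f z).rep (f z).rep_nonzero (ψ z) h2 (f z).mk_rep.symm h3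
    unfold rel at h6
    rw [Fin.sum_univ_castSucc] at h6
    have h7 : ∀ l : Fin (m i), eval (ψ z) (α i l.castSucc) * (f z).rep i ^ ((l.castSucc : Fin (m i + 1)) : ℕ) *
        (f z).rep j ^ (m i - ((l.castSucc : Fin (m i + 1)) : ℕ)) = 0 := by
      intro l
      have h8 : m i - ((l.castSucc : Fin (m i + 1)) : ℕ) ≠ 0 := by
        have := l.2
        rw [Fin.val_castSucc]
        omega
      rw [h0, zero_pow h8, mul_zero]
    rw [Finset.sum_eq_zero fun l _ => h7 l, zero_add, Fin.val_last, Nat.sub_self, pow_zero, mul_one, mul_eq_zero] at h6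
    exact eq_zero_of_pow_eq_zero (h6.resolve_left (h5 i))
  -- the normalized lift
  set S : ℂ → Fin (M + 1) → ℂ := fun w => ((f w).rep j)⁻¹ • (f w).rep with hS
  have hSmk : ∀ (w : ℂ) (x : Fin (M + 1) → ℂ) (hx : x ≠ 0), f w = Projectivization.mk ℂ x hx → S w = (x j)⁻¹ • x := by
    intro w x hx h
    obtain ⟨a, ha⟩ := Projectivization.exists_smul_eq_mk_rep ℂ x hx
    have h1 : (f w).rep = (a : ℂ) • x := by rw [h]; exact ha.symm
    rw [hS]
    simp only [h1, Pi.smul_apply, smul_eq_mul]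
    rw [smul_smul, mul_inv, mul_comm (a : ℂ)⁻¹, mul_assoc, inv_mul_cancel₀ a.ne_zero, mul_one]
  set A : ℂ → ℂ := fun z => ∏ i, a i z with hA
  have hAan : AnalyticAt ℂ A 0 := by
    have h1 : AnalyticAt ℂ (fun z => ∏ i, a i z) 0 := Finset.analyticAt_fun_prod _ fun i _ => han _
    exact h1
  -- the function is bounded and holomorphic
  obtain ⟨r', hr', hr'r, haball⟩ : ∃ r' > 0, r' ≤ r ∧ ∀ z ∈ Metric.ball (0 : ℂ) r', AnalyticAt ℂ A z := by
    obtain ⟨ρ, hρ, h1⟩ := Metric.eventually_nhds_iff_ball.1 hAan.eventually_analyticAt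
    exact ⟨min ρ r, lt_min hρ hr, min_le_right _ _, fun z hz => h1 z (Metric.ball_subset_ball (min_le_left _ _) hz)⟩
  have hsub : ∀ z ∈ Metric.ball (0 : ℂ) r' \ {0}, z ∈ Metric.ball (0 : ℂ) r \ {0} := fun z hz =>
    ⟨Metric.ball_subset_ball hr'r hz.1, hz.2⟩
  have hd : DifferentiableOn ℂ (fun z => A z • S z) (Metric.ball (0 : ℂ) r' \ {0}) := by
    intro w hw
    obtain ⟨φ, h4, h5⟩ := hf w (hball w (hsub w hw)).1
    have h6 : φ w j ≠ 0 := by
      obtain ⟨h7, h8⟩ := h5.self_of_nhds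
      obtain ⟨a, ha⟩ := Projectivization.exists_smul_eq_mk_rep ℂ (φ w) h7
      have h9 : (f w).rep = (a : ℂ) • φ w := by rw [h8]; exact ha.symm
      have h10 := hj w (hsub w hw)
      rw [h9] at h10
      exact right_ne_zero_of_mul h10
    have h7 : AnalyticAt ℂ (fun z => (φ z j)⁻¹ • φ z) w := by
      have h8 : AnalyticAt ℂ (fun z => φ z j) w := analyticAt_pi_iff.1 h4 j
      exact (h8.inv h6).smul h4
    have h8 : AnalyticAt ℂ (fun z => A z • ((φ z j)⁻¹ • φ z)) w := (haball w hw.1).smul h7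
    refine DifferentiableAt.differentiableWithinAt (h8.differentiableAt.congr_of_eventuallyEq ?_)
    filter_upwards [h5] with z hz
    obtain ⟨h8, h9⟩ := hz
    rw [hSmk z _ h8 h9]
  have hratio : ∀ z ∈ Metric.ball (0 : ℂ) r \ {0}, ∀ i, ‖a i z * S z i‖ ≤ C i * (m i + 1) := by
    intro z hz i
    obtain ⟨h1, ⟨h2, h3⟩, h4, h5⟩ := hball z hz
    have h6 := hrel i z h1 (f z).rep (f z).rep_nonzero (ψ z) h2 (f z).mk_rep.symm h3
    unfold rel at h6
    have hjz := hj z hz
    have h8 : ∀ l : Fin (m i + 1), eval (ψ z) (α i l) * (f z).rep i ^ (l : ℕ) * (f z).rep j ^ (m i - (l : ℕ)) =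
        (f z).rep j ^ m i * (eval (ψ z) (α i l) * (S z i) ^ (l : ℕ)) := by
      intro l
      have h9 : (l : ℕ) ≤ m i := Nat.lt_succ_iff.1 l.2
      have h10 : (f z).rep j ^ m i = (f z).rep j ^ (l : ℕ) * (f z).rep j ^ (m i - (l : ℕ)) := by
        rw [← pow_add, Nat.add_sub_cancel' h9]
      have h11 : S z i = (f z).rep i / (f z).rep j := by
        change ((f z).rep j)⁻¹ * (f z).rep i = _
        rw [div_eq_inv_mul]
      rw [h10, h11, div_pow]
      field_simp
    rw [Finset.sum_congr rfl fun l _ => h8 l, ← Finset.mul_sum, mul_eq_zero] at h6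
    exact root_bound (h4 i) (h6.resolve_left (pow_ne_zero _ hjz))
  have hb : BddAbove (norm ∘ (fun z => A z • S z) '' (Metric.ball (0 : ℂ) r' \ {0})) := by
    refine ⟨∑ i, (C i * (m i + 1)) * ∏ i' ∈ Finset.univ.erase i, C i', ?_⟩
    rintro _ ⟨w, hw, rfl⟩
    have hw' := hsub w hw
    obtain ⟨-, -, h4, -⟩ := hball w hw'
    have hC0 : ∀ i, 0 ≤ C i := fun i => (norm_nonneg _).trans (h4 i 0)
    have hterm : ∀ i, 0 ≤ (C i * (m i + 1)) * ∏ i' ∈ Finset.univ.erase i, C i' := fun i =>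
      mul_nonneg (mul_nonneg (hC0 i) (by positivity)) (Finset.prod_nonneg fun i' _ => hC0 i')
    change ‖A w • S w‖ ≤ _
    rw [pi_norm_le_iff_of_nonneg (Finset.sum_nonneg fun i _ => hterm i)]
    intro i
    refine le_trans ?_ (Finset.single_le_sum (f := fun i => (C i * (m i + 1)) * ∏ i' ∈ Finset.univ.erase i, C i')
      (fun i _ => hterm i) (Finset.mem_univ i))
    change ‖A w * S w i‖ ≤ _
    have h5 : A w * S w i = (a i w * S w i) * ∏ i' ∈ Finset.univ.erase i, a i' w := by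
      rw [hA]
      simp only
      rw [← Finset.mul_prod_erase Finset.univ (fun i => a i w) (Finset.mem_univ i)]
      ring
    rw [h5, norm_mul, norm_prod]
    refine mul_le_mul (hratio w hw' i) (Finset.prod_le_prod (fun i' _ => norm_nonneg _) fun i' _ => h4 i' _)
      (Finset.prod_nonneg fun i' _ => norm_nonneg _) (mul_nonneg (hC0 i) (by positivity))
  have hu := Complex.differentiableOn_update_limUnder_of_bddAbove (Metric.ball_mem_nhds (0 : ℂ) hr') hd hb
  set S' : ℂ → Fin (M + 1) → ℂ := Function.update (fun z => A z • S z) 0 (limUnder (𝓝[≠] 0) fun z => A z • S z) with hS'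
  have hS'a : AnalyticAt ℂ S' 0 := hu.analyticAt (Metric.ball_mem_nhds (0 : ℂ) hr')
  have hS'eq : ∀ w, w ≠ 0 → S' w = A w • S w := fun w hw => Function.update_of_ne hw _ _
  have hAne : ∀ z ∈ Metric.ball (0 : ℂ) r \ {0}, A z ≠ 0 := fun z hz => Finset.prod_ne_zero_iff.2 fun i _ => (hball z hz).2.2.2 i
  have hSj : ∀ z ∈ Metric.ball (0 : ℂ) r \ {0}, S z j = 1 := fun z hz => inv_mul_cancel₀ (hj z hz)
  have hS'ne : ∀ z ∈ Metric.ball (0 : ℂ) r \ {0}, S' z ≠ 0 := by
    intro z hz h0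
    have h1 := congrFun h0 j
    rw [hS'eq z hz.2] at h1
    change A z * S z j = 0 at h1
    rw [hSj z hz, mul_one] at h1
    exact hAne z hz h1
  have hnz : ¬ ∀ᶠ z in 𝓝 (0 : ℂ), S' z = 0 := by
    intro h0
    have h1 : ∀ᶠ z in 𝓝[≠] (0 : ℂ), z ∈ Metric.ball (0 : ℂ) r \ {0} :=
      sdiff_mem_nhdsWithin_compl (Metric.ball_mem_nhds _ hr) _
    obtain ⟨z, h2, h3⟩ := ((h0.filter_mono nhdsWithin_le_nhds).and h1).exists
    exact hS'ne z h3 h2
  obtain ⟨n, Φ, hΦ, hΦ0, hΦe⟩ := (hS'a.exists_eventuallyEq_pow_smul_nonzero_iff).2 hnz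
  refine Pool.Agent.H62.Qe.extend_of_pow hf le_rfl hΦ.continuousAt hΦ0 ?_
  filter_upwards [hΦe, Metric.ball_mem_nhds (0 : ℂ) hr] with z h1 h2 h3
  have h4 : z ∈ Metric.ball (0 : ℂ) r \ {0} := ⟨h2, h3⟩
  have h5 := hS'ne z h4
  have h6 : Φ z ≠ 0 := by
    intro h7
    rw [h7, smul_zero] at h1
    exact h5 h1
  refine ⟨h6, ?_⟩
  rw [pow_one, ← (f z).mk_rep, Projectivization.mk_eq_mk_iff']
  rw [hS'eq z h3, sub_zero] at h1
  have h7 : A z ≠ 0 := hAne z h4
  have h8 : (f z).rep j ≠ 0 := hj z h4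
  refine ⟨(f z).rep j * (A z)⁻¹ * z ^ n, ?_⟩
  rw [mul_smul, ← h1, smul_smul, mul_assoc, inv_mul_cancel₀ h7, mul_one]
  change (f z).rep j • (((f z).rep j)⁻¹ • (f z).rep) = _
  rw [smul_smul, mul_inv_cancel₀ h8, one_smul]

end Pool.Agent.H23.GU

end
end

section

/-!
# TG FDefs: projective manifolds over complex tori, with arbitrary singular fibres, and maps from semi-abelian varieties

`X` is a smooth projective variety of dimension `n + 1`, `n = k + 1`, `u` a holomorphic map from `X` to a complex torus `ℂ^n / Λ`.  `D ⊆ ℂ^n` is a `Λ`-invariant analytic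
subset outside which `u` is a submersion, and whose fibres outside `D` contain no entire curves with bounded derivative; outside the small set `B` the set `D` is smooth and
the map `u` is `(x^a y^b, s)` in suitable local coordinates.
-/

set_option autoImplicit false

open Topology Filter MvPolynomial
open Pool.Agent.H17 (PN VanishesAt)
open Pool.Agent.H62.FC (Homog)
open Pool.Agent.H17EF (projVar)
open Pool.Agent.H17G (IsTangent)
open Pool.Agent.H14.V (brodyCurves)

noncomputable section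

namespace Pool.Agent.TGF

variable {N k g : ℕ}

/-- `B ⊆ ℂ^n` is small (for an analytic subset: of complex codimension at least two): it is empty, or its Hausdorff dimension is at most `2 n - 4`. -/
def IsSmall {n : ℕ} (B : Set (Cn n)) : Prop := B = ∅ ∨ dimH B + 4 ≤ 2 * (n : ENNReal)

/-- `D` contains the critical values of `u`, and the map is of normal crossing type over `D \ B`. -/
structure IsDiscriminant (X : Set (PN N)) (Λ : AddSubgroup (Cn (k + 1))) (u : PN N → Cn (k + 1) ⧸ Λ) (D B : Set (Cn (k + 1))) : Prop where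
  analytic : IsAnalyticSubset D
  proper : D ≠ Set.univ
  invariant : ∀ y ∈ D, ∀ l ∈ Λ, y + l ∈ D
  small : IsSmall B
  submersion : ∀ y ∉ D, ∀ x ∈ X, u x = (y : Cn (k + 1) ⧸ Λ) → Submersion X Λ u y x
  /-- entire curves `f` with `|f'| ≤ 1` in the fibres outside `D` are constant -/
  hyperbolic : ∀ y ∉ D, ∀ f ∈ brodyCurves X 1, (∀ z, u (f z) = (y : Cn (k + 1) ⧸ Λ)) → ∀ z w, f z = f w
  crossing : ∀ y ∈ D, y ∉ B → ∃ κ : Cn (k + 1) → Cn (k + 1), IsCoord D κ y ∧ ∀ x ∈ X, u x = (y : Cn (k + 1) ⧸ Λ) → NormalCrossing X Λ u κ x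

/-- `Ω` is a holomorphic `(k + 2)`-form on the manifold `X' = {(x, c) ∈ X × ℂ^(k+1) / Γ : u x = c mod Λ}` (`Γ` a subgroup of `Λ`; for `Γ = Λ` this is `X`).
It is given as a function of `c`, the homogeneous coordinates of `x`, and `k + 2` tangent vectors of the cone over `X`. -/
structure IsTopForm (X : Set (PN N)) (Λ Γ : AddSubgroup (Cn (k + 1))) (u : PN N → Cn (k + 1) ⧸ Λ)
    (Ω : Cn (k + 1) → Cn (N + 1) → (Fin (k + 2) → Cn (N + 1)) → ℂ) : Prop where
  /-- the form depends only on `y` modulo `Γ` -/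
  periodic : ∀ y, ∀ l ∈ Γ, ∀ x, Over X Λ u y x → ∀ v : Fin (k + 2) → Cn (N + 1), (∀ i, IsTangent X x (v i)) → Ω (y + l) x v = Ω y x v
  /-- the form depends only on the images of the tangent vectors in the tangent space of the projective space -/
  horizontal : ∀ y x, Over X Λ u y x → ∀ v : Fin (k + 2) → Cn (N + 1), (∀ i, IsTangent X x (v i)) → ∀ a : Fin (k + 2) → ℂ,
    Ω y x (fun i => v i + a i • x) = Ω y x v
  /-- the form is multilinear and alternating -/
  alternating : ∀ y x, Over X Λ u y x → ∀ v : Fin (k + 2) → Cn (N + 1), (∀ i, IsTangent X x (v i)) → ∀ A : Matrix (Fin (k + 2)) (Fin (k + 2)) ℂ,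
    Ω y x (fun i => ∑ j, A i j • v j) = A.det * Ω y x v
  /-- the form does not depend on the choice of the homogeneous coordinates -/
  homogeneous : ∀ y x, Over X Λ u y x → ∀ v : Fin (k + 2) → Cn (N + 1), (∀ i, IsTangent X x (v i)) → ∀ c : ℂ, c ≠ 0 →
    Ω y (c • x) (fun i => c • v i) = Ω y x v
  /-- the form is holomorphic -/
  holomorphic : ∀ (φ : Cn (k + 2) → Cn (N + 1)) (υ : Cn (k + 2) → Cn (k + 1)) (p : Cn (k + 2)), AnalyticAt ℂ φ p → AnalyticAt ℂ υ p →
    (∀ᶠ q in 𝓝 p, Over X Λ u (υ q) (φ q)) → AnalyticAt ℂ (fun q => Ω (υ q) (φ q) fun i => fderiv ℂ φ q (Pi.single i 1)) p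

/-- The form `Ω` is `0` at all points of the fibre over `y`. -/
def VanishesOver (X : Set (PN N)) (Λ : AddSubgroup (Cn (k + 1))) (u : PN N → Cn (k + 1) ⧸ Λ)
    (Ω : Cn (k + 1) → Cn (N + 1) → (Fin (k + 2) → Cn (N + 1)) → ℂ) (y : Cn (k + 1)) : Prop :=
  ∀ x, Over X Λ u y x → ∀ v : Fin (k + 2) → Cn (N + 1), (∀ i, IsTangent X x (v i)) → Ω y x v = 0

/-- The form `Ω` is `0` on no nonempty open set. -/
def IsNowhereZero (X : Set (PN N)) (Λ : AddSubgroup (Cn (k + 1))) (u : PN N → Cn (k + 1) ⧸ Λ)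
    (Ω : Cn (k + 1) → Cn (N + 1) → (Fin (k + 2) → Cn (N + 1)) → ℂ) : Prop :=
  ∀ y x, Over X Λ u y x → ∃ᶠ q in 𝓝 (y, x), Over X Λ u q.1 q.2 ∧ ∃ v : Fin (k + 2) → Cn (N + 1), (∀ i, IsTangent X q.2 (v i)) ∧ Ω q.1 q.2 v ≠ 0

/-- On the covering `X' = {(x, c) ∈ X × ℂ^(k+1) / Γ : u x = c mod Λ}` there is a holomorphic `(k + 2)`-form which is `0` at all points of a fibre over a point
outside `D`, but on no nonempty open set. -/
def HasForm (X : Set (PN N)) (Λ Γ : AddSubgroup (Cn (k + 1))) (u : PN N → Cn (k + 1) ⧸ Λ) (D : Set (Cn (k + 1))) : Prop :=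
  ∃ Ω, IsTopForm X Λ Γ u Ω ∧ IsNowhereZero X Λ u Ω ∧ ∃ y ∉ D, VanishesOver X Λ u Ω y

end Pool.Agent.TGF

end
end

section

/-!
# TG GuD: the discriminant is closed and thin, almost no line meets a small set

`IsAnalyticSubset.isClosed`, `IsAnalyticSubset.thin`: an analytic subset of `ℂ^n` is closed, and near every point it is contained in the zero set of a holomorphic function which is not locally `0`, unless it is all of `ℂ^n`
(the set of the interior points is open and closed).  `IsSmall.lines`: the projection of `B` along `e` has Hausdorff dimension `≤ 2 n - 4 < 2 (n - 1)`, so it is a null set, and so is its preimage.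
-/

set_option autoImplicit false

open Topology Filter Metric MeasureTheory

namespace Pool.Agent.TGF

theorem IsAnalyticSubset.isClosed {n : ℕ} {Z : Set (Cn n)} (hZ : IsAnalyticSubset Z) : IsClosed Z := by
  rw [← isOpen_compl_iff, isOpen_iff_mem_nhds]
  intro y hy
  obtain ⟨m, h, hh, hev⟩ := hZ y
  have h0 : h y ≠ 0 := fun h0 => hy (hev.self_of_nhds.2 h0)
  filter_upwards [hev, hh.continuousAt.eventually_ne h0] with z h1 h2 h3
  exact h2 (h1.1 h3)

theorem IsAnalyticSubset.interior_empty {n : ℕ} {Z : Set (Cn n)} (hZ : IsAnalyticSubset Z) (hne : Z ≠ Set.univ) : interior Z = ∅ := by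
  have hcl : IsClosed (interior Z) := by
    rw [← isOpen_compl_iff, isOpen_iff_mem_nhds]
    intro y hy
    by_contra hcon
    apply hy
    obtain ⟨m, h, hh, hev⟩ := hZ y
    obtain ⟨r, hr, hball⟩ := Metric.eventually_nhds_iff_ball.1 (hev.and hh.eventually_analyticAt)
    -- there is a point of the interior in the ball
    have h1 : ∃ w ∈ ball y r, w ∈ interior Z := by
      by_contra h2
      push Not at h2
      exact hcon (mem_of_superset (ball_mem_nhds y hr) fun w hw => h2 w hw)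
    obtain ⟨w, hw, hwZ⟩ := h1
    have h2 : Set.EqOn h 0 (ball y r) := by
      have h3 : AnalyticOnNhd ℂ h (ball y r) := fun z hz => (hball z hz).2
      refine h3.eqOn_of_preconnected_of_eventuallyEq (analyticOnNhd_const (v := (0 : Cn m))) (convex_ball y r).isPreconnected hw ?_
      filter_upwards [isOpen_interior.mem_nhds hwZ, isOpen_ball.mem_nhds hw] with z h4 h5
      exact ((hball z h5).1).1 (interior_subset h4)
    rw [mem_interior_iff_mem_nhds]
    filter_upwards [ball_mem_nhds y hr] with z hz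
    exact ((hball z hz).1).2 (h2 hz)
  rcases isClopen_iff.1 ⟨hcl, isOpen_interior⟩ with h | h
  · exact h
  · exact absurd (Set.univ_subset_iff.1 (h ▸ interior_subset)) hne

theorem IsAnalyticSubset.thin {n : ℕ} {Z : Set (Cn n)} (hZ : IsAnalyticSubset Z) (hne : Z ≠ Set.univ) (y : Cn n) :
    ∃ h : Cn n → ℂ, AnalyticAt ℂ h y ∧ (∀ᶠ z in 𝓝 y, z ∈ Z → h z = 0) ∧ ¬ ∀ᶠ z in 𝓝 y, h z = 0 := by
  obtain ⟨m, h, hh, hev⟩ := hZ y
  by_contra hcon
  push Not at hcon
  have h1 : ∀ i : Fin m, ∀ᶠ z in 𝓝 y, h z i = 0 := by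
    intro i
    refine hcon (fun z => h z i) ((analyticAt_pi_iff.1 hh) i) ?_
    filter_upwards [hev] with z hz hzZ
    exact congrFun (hz.1 hzZ) i
  have h2 : ∀ᶠ z in 𝓝 y, z ∈ Z := by
    filter_upwards [hev, eventually_all.2 h1] with z hz hz2
    exact hz.2 (funext hz2)
  have h3 : y ∈ interior Z := mem_interior_iff_mem_nhds.2 h2
  rw [hZ.interior_empty hne] at h3
  exact h3

/-- the projection along `e` -/
private noncomputable def pj {k : ℕ} (e : Cn (k + 1)) (i : Fin (k + 1)) : Cn (k + 1) →ₗ[ℂ] Cn k :=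
  LinearMap.pi fun j => LinearMap.proj (i.succAbove j) - (e (i.succAbove j) / e i) • LinearMap.proj i

private theorem pj_apply {k : ℕ} (e : Cn (k + 1)) (i : Fin (k + 1)) (y : Cn (k + 1)) (j : Fin k) :
    pj e i y j = y (i.succAbove j) - e (i.succAbove j) / e i * y i := rfl

private theorem pj_add {k : ℕ} {e : Cn (k + 1)} {i : Fin (k + 1)} (he : e i ≠ 0) (y : Cn (k + 1)) (z : ℂ) : pj e i (y + z • e) = pj e i y := by
  funext j
  rw [pj_apply, pj_apply]
  simp only [Pi.add_apply, Pi.smul_apply, smul_eq_mul]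
  field_simp
  ring

private theorem pj_surj {k : ℕ} (e : Cn (k + 1)) (i : Fin (k + 1)) : Function.Surjective (pj e i) := by
  intro f
  refine ⟨i.insertNth 0 f, ?_⟩
  funext j
  rw [pj_apply, Fin.insertNth_apply_succAbove, Fin.insertNth_apply_same, mul_zero, sub_zero]

theorem IsSmall.lines {k : ℕ} {B : Set (Cn (k + 1))} (hB : IsSmall B) {e : Cn (k + 1)} (he : e ≠ 0) : ∀ᵐ y : Cn (k + 1), ∀ z : ℂ, y + z • e ∉ B := by
  rcases hB with rfl | hB
  · exact Eventually.of_forall fun y z => Set.notMem_empty _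
  obtain ⟨i, hi⟩ : ∃ i, e i ≠ 0 := Function.ne_iff.1 he
  have hfr : Module.finrank ℝ (Cn k) = 2 * k := by
    rw [Module.finrank_pi_fintype]
    simp [Complex.finrank_real_complex, mul_comm]
  have hd : dimH (pj e i '' B) < ((2 * k : ℕ) : NNReal) := by
    have h1 : dimH (pj e i '' B) ≤ dimH B := (pj e i).toContinuousLinearMap.lipschitz.dimH_image_le B
    refine h1.trans_lt ?_
    have hne : dimH B ≠ ⊤ :=
      ((le_self_add.trans hB).trans_lt (ENNReal.mul_lt_top (by simp) (ENNReal.natCast_lt_top _))).ne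
    have h2 : dimH B + 2 ≤ ((2 * k : ℕ) : NNReal) := by
      have h3 : dimH B + 2 + 2 ≤ (((2 * k : ℕ) : NNReal) : ENNReal) + 2 := by
        refine le_trans (le_of_eq ?_) (hB.trans (le_of_eq ?_))
        · rw [add_assoc]; norm_num
        · push_cast; ring
      exact (ENNReal.add_le_add_iff_right (by simp)).1 h3
    exact (ENNReal.lt_add_right hne (by simp)).trans_le h2
  have hnull : (volume : Measure (Cn k)) (pj e i '' B) = 0 := by
    have h1 : (volume : Measure (Cn k)) ≪ Measure.hausdorffMeasure (Module.finrank ℝ (Cn k)) := Measure.absolutelyContinuous_isAddHaarMeasure _ _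
    rw [hfr] at h1
    exact measure_zero_of_dimH_lt (d := ((2 * k : ℕ) : NNReal)) (by exact_mod_cast h1) hd
  obtain ⟨T, hT, hTm, hT0⟩ := exists_measurable_superset_of_null hnull
  have h2 := (ae_comp_linearMap_mem_iff (pj e i) (volume : Measure (Cn (k + 1))) (volume : Measure (Cn k)) (pj_surj e i) hTm.compl).2
    (by rw [← compl_mem_ae_iff] at hT0; exact hT0)
  filter_upwards [h2] with y hy z hz
  apply hy
  rw [← pj_add hi y z]
  exact hT ⟨_, hz, rfl⟩

end Pool.Agent.TGF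

end

section

/-!
# TG FDefs: projective manifolds over complex tori, with arbitrary singular fibres, and maps from semi-abelian varieties

`X` is a smooth projective variety of dimension `n + 1`, `n = k + 1`, `u` a holomorphic map from `X` to a complex torus `ℂ^n / Λ`.  `D ⊆ ℂ^n` is a `Λ`-invariant analytic
subset outside which `u` is a submersion, and whose fibres outside `D` contain no entire curves with bounded derivative; outside the small set `B` the set `D` is smooth and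
the map `u` is `(x^a y^b, s)` in suitable local coordinates.
-/

set_option autoImplicit false

open Topology Filter MvPolynomial
open Pool.Agent.H17 (PN VanishesAt)
open Pool.Agent.H62.FC (Homog)
open Pool.Agent.H17LG.Variety (FunField)
open Pool.Agent.H17EF (projVar)
open Pool.Agent.H17G (IsTangent)
open Pool.Agent.H14.V (brodyCurves)
open Pool.Agent.TG (SabMap imageOf SabCases SimpleTorus merSections SameProjMap sabSpecialSet)

noncomputable section

namespace Pool.Agent.TGF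

variable {N k g : ℕ}

/-- The conclusion, for the variety `X` of dimension `k + 2` given by `P`: the meromorphic maps from `ℂ^(k+1)` to `X` over the torus are finitely many, periodic, and
algebraic, and the maps from semi-abelian varieties to `X` come from these maps, from fibres over `D`, or from proper subtori. -/
structure TorusFibration (P : Ideal (MvPolynomial (Fin (N + 1)) ℂ)) [P.IsPrime] (Λ : AddSubgroup (Cn (k + 1))) (u : PN N → Cn (k + 1) ⧸ Λ)
    (D : Set (Cn (k + 1))) (Q : MvPolynomial (Fin (N + 1)) ℂ) : Prop where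
  /-- there are finitely many meromorphic maps `ℂ^(k+1) → X` over the torus -/
  finite : ∃ s : Set (Cn (k + 1) → Cn (N + 1)), s.Finite ∧ s ⊆ merSections (projVar P) Λ u ∧
    ∀ Φ ∈ merSections (projVar P) Λ u, ∃ Ψ ∈ s, SameProjMap Φ Ψ
  /-- they are invariant under `M Λ` -/
  periodic : ∃ M : ℕ, 1 ≤ M ∧ ∀ Φ ∈ merSections (projVar P) Λ u, ∀ l ∈ Λ, SameProjMap Φ fun y => Φ (y + M • l)
  /-- the form `Q` is not `0` on `X` -/
  form : (∃ e, Q.IsHomogeneous e) ∧ Q ∉ P
  /-- it is `0` on the fibres over `D` -/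
  singular : ∀ x ∈ projVar P, (∃ y ∈ D, u x = (y : Cn (k + 1) ⧸ Λ)) → VanishesAt Q x
  /-- it is `0` on the images of the meromorphic maps over the torus -/
  sections : ∀ Φ ∈ merSections (projVar P) Λ u, ∀ y, eval (Φ y) Q = 0
  /-- the maps from semi-abelian varieties -/
  maps : ∀ S : SabMap N, imageOf S.F ⊆ projVar P → SabCases (projVar P) Λ u D S
  /-- if the torus is simple, the special set is contained in the hypersurface `Q = 0` -/
  special : SimpleTorus Λ → ∀ x ∈ sabSpecialSet (projVar P), VanishesAt Q x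
  /-- if the torus is simple, the special set of every variety `Y` of the same dimension with a dominant rational map to `X` is a proper subset of `Y`, and so is the
  special set of every closed subvariety of `Y` which is not contained in a certain proper closed subset `{T = 0}` of `Y` -/
  models : SimpleTorus Λ → ∀ (M : ℕ) (P' : Ideal (MvPolynomial (Fin (M + 1)) ℂ)) [P'.IsPrime], Homog P' →
    (∃ z : Fin (k + 2) → FunField P', IsTranscendenceBasis ℂ z) → Nonempty (FunField P →ₐ[ℂ] FunField P') →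
    sabSpecialSet (projVar P') ≠ projVar P' ∧ ∃ T : MvPolynomial (Fin (M + 1)) ℂ, (∃ e, T.IsHomogeneous e) ∧ T ∉ P' ∧
      ∀ (R : Ideal (MvPolynomial (Fin (M + 1)) ℂ)) [R.IsPrime], Homog R → P' ≤ R → T ∉ R → sabSpecialSet (projVar R) ≠ projVar R

end Pool.Agent.TGF

end
end
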