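import Pool.Agent.H94.G5T.M104
import Pool.Agent.H94.G5T.M21
import Pool.Agent.H94.G5T.M37
import Pool.Agent.H94.G5T.M41
import Pool.Agent.H94.G5T.M65
import Pool.Agent.H94.G5T.M84
import Pool.Agent.H94.G5T.M98

/-! The parts of this file: AD.V.KobFs, H22.W.Zal, TG.Zl, TG.SbA, TG.Iz. -/

section

/-!
# AD V KobFs: from estimates for discs in the cone to the Kobayashi property of the projective variety
-/

set_option autoImplicit false

open Topology Filter MvPolynomial Metric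

noncomputable section

namespace Pool.Agent.AD

open Pool.Agent.H36.BP (EN fs wd)
open Pool.Agent.H14.PP (IsCone)
open Pool.Agent.H22.W (PseudoLength)

variable {N : ℕ} {P : Ideal (MvPolynomial (Fin (N + 1)) ℂ)}

/-- the zero pseudo-length -/
def zeroLength (X : Set (EN N)) : PseudoLength X where
  toFun _ _ := 0
  nonneg _ _ _ := le_rfl
  add_smul _ _ _ _ := rfl
  smul _ _ _ _ := by simp
  scale _ _ _ _ _ := rfl
  continuous := continuousOn_const
  curved _ _ _ _ _ _ _ _ _ := by simp [Real.circleAverage]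

end Pool.Agent.AD

end
end

section

/-!
# W Zal: curves of bounded length have bounded derivative

Let `n` be a nonpositively curved pseudo-length such that no nonconstant Brody curve has length zero.  Then the entire curves `F` in `X` with
`n (F') ≤ 1` have `fs (F, F') ≤ L`.  The proof is the one of `H92/TH/Zal.lean` (symmetric differentials).
-/

set_option autoImplicit false

open Topology Filter Metric

namespace Pool.Agent.H22.W

open Pool.Agent.H36.BP (EN fs wd)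
open Pool.Agent.H14.PP (IsCone Chart Tan CurveAt IsOpenPart)
open Pool.Agent.H62.EF (Charts pr limit_curves rescale_fs)

variable {N : ℕ} {X : Set (EN N)}

/-- the length of the derivative does not depend on the lift -/
theorem PseudoLength.lift_eq (hX : IsCone X) (n : PseudoLength X) {F G : ℂ → EN N} {z : ℂ} (hF : CurveAt X F z) (hG : CurveAt X G z)
    (h : ∀ᶠ w in 𝓝 z, ∃ c : ℂ, c ≠ 0 ∧ F w = c • G w) : n.toFun (F z) (deriv F z) = n.toFun (G z) (deriv G z) := by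
  have hG0 : G z ≠ 0 := hX.ne_zero hG.2.self_of_nhds
  obtain ⟨i, hi⟩ : ∃ i, G z i ≠ 0 := by
    by_contra hcon
    push Not at hcon
    exact hG0 (by ext i; simpa using hcon i)
  have hFi : DifferentiableAt ℂ (fun w => F w i) z :=
    (EuclideanSpace.proj (𝕜 := ℂ) i : EN N →L[ℂ] ℂ).differentiableAt.comp z hF.1.differentiableAt
  have hGi : DifferentiableAt ℂ (fun w => G w i) z :=
    (EuclideanSpace.proj (𝕜 := ℂ) i : EN N →L[ℂ] ℂ).differentiableAt.comp z hG.1.differentiableAt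
  obtain ⟨c, hc⟩ : ∃ c : ℂ → ℂ, c = fun w => F w i / G w i := ⟨_, rfl⟩
  have hcd : DifferentiableAt ℂ c z := by rw [hc]; exact hFi.div hGi hi
  have hne : ∀ᶠ w in 𝓝 z, G w i ≠ 0 := hGi.continuousAt.eventually_ne hi
  have hev : ∀ᶠ w in 𝓝 z, c w ≠ 0 ∧ F w = c w • G w := by
    filter_upwards [h, hne] with w hw hwi
    obtain ⟨b, hb, hFw⟩ := hw
    have h1 : c w = b := by
      rw [hc]
      show F w i / G w i = b
      rw [hFw, PiLp.smul_apply, smul_eq_mul, mul_div_cancel_right₀ _ hwi]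
    rw [h1]
    exact ⟨hb, hFw⟩
  have hd : deriv F z = c z • deriv G z + deriv c z • G z := by
    have h1 : F =ᶠ[𝓝 z] fun w => c w • G w := hev.mono fun w hw => hw.2
    rw [h1.deriv_eq]
    exact (hcd.hasDerivAt.smul hG.1.differentiableAt.hasDerivAt).deriv
  obtain ⟨hc0, hFz⟩ := hev.self_of_nhds
  rw [hd, hFz]
  exact n.inv hX (tan_curve hG) hc0 _

/-- The values of the length on the derivatives of a convergent sequence of curves. -/
theorem PseudoLength.tendsto_curve (n : PseudoLength X) {l : Filter ℕ} {φ : ℕ → ℂ → EN N} {ψ : ℂ → EN N}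
    {z₀ : ℂ} {r : ℝ} (hr : 0 < r) (hφ : ∀ᶠ k in l, DifferentiableOn ℂ (φ k) (ball z₀ r) ∧ ∀ z ∈ ball z₀ r, φ k z ∈ X)
    (hψ : DifferentiableOn ℂ ψ (ball z₀ r)) (hψX : ∀ z ∈ ball z₀ r, ψ z ∈ X) (hlim : TendstoLocallyUniformlyOn φ ψ l (ball z₀ r)) :
    Tendsto (fun k => n.toFun (φ k z₀) (deriv (φ k) z₀)) l (𝓝 (n.toFun (ψ z₀) (deriv ψ z₀))) := by
  have hz₀ : z₀ ∈ ball z₀ r := mem_ball_self hr
  have hnb : ball z₀ r ∈ 𝓝 z₀ := isOpen_ball.mem_nhds hz₀
  have h1 : Tendsto (fun k => φ k z₀) l (𝓝 (ψ z₀)) := hlim.tendsto_at hz₀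
  have h2 : Tendsto (fun k => deriv (φ k) z₀) l (𝓝 (deriv ψ z₀)) := by
    have h3 := hlim.deriv (hφ.mono fun k hk => hk.1) isOpen_ball
    exact h3.tendsto_at hz₀
  refine n.tendsto ?_ (tan_curve ⟨hψ.analyticAt hnb, ?_⟩) h1 h2
  · filter_upwards [hφ] with k hk
    refine tan_curve ⟨hk.1.analyticAt hnb, ?_⟩
    filter_upwards [hnb] with z hz using hk.2 z hz
  · filter_upwards [hnb] with z hz using hψX z hz

/-- The chain rule for affine maps. -/
theorem PseudoLength.comp_affine (n : PseudoLength X) {F : ℂ → EN N} (hF : Differentiable ℂ F) (hFX : ∀ z, F z ∈ X) (a b z : ℂ) :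
    n.toFun (F (b + a * z)) (deriv (fun ζ => F (b + a * ζ)) z) = ‖a‖ * n.toFun (F (b + a * z)) (deriv F (b + a * z)) := by
  have h1 : HasDerivAt (fun ζ : ℂ => b + a * ζ) a z := by
    simpa using ((hasDerivAt_id z).const_mul a).const_add b
  have h2 : deriv (fun ζ => F (b + a * ζ)) z = a • deriv F (b + a * z) :=
    ((hF (b + a * z)).hasDerivAt.scomp z h1).deriv
  rw [h2]
  exact n.smul _ _ (tan_entire hF hFX _) a

theorem exists_lipschitz (hX : IsCone X) (n : PseudoLength X) (hNT : n.NoNullBrody) :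
    ∃ L : ℝ, 0 < L ∧ ∀ F : ℂ → EN N, Differentiable ℂ F → (∀ z, F z ∈ X) →
      (∀ z, n.toFun (F z) (deriv F z) ≤ 1) → ∀ z, fs (F z) (deriv F z) ≤ L := by
  by_contra hcon
  push Not at hcon
  have hbig : ∀ k : ℕ, ∃ F : ℂ → EN N, Differentiable ℂ F ∧ (∀ z, F z ∈ X) ∧ (∀ z, n.toFun (F z) (deriv F z) ≤ 1) ∧
      ∃ z, 4 * ((k : ℝ) + 1) < fs (F z) (deriv F z) := fun k => hcon _ (by positivity)
  choose F hFd hFX hFn zc hzc using hbig
  have hX0 : ∀ x ∈ X, x ≠ 0 := fun x hx h => hX.zero_notMem (h ▸ hx)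
  have hresc : ∀ k : ℕ, ∃ (z₀ : ℂ) (a : ℝ), 4 * ((k : ℝ) + 1) < a ∧
      fs (F k (z₀ + zc k)) (deriv (fun ζ => F k (z₀ + ((a⁻¹ : ℝ) : ℂ) * ζ + zc k)) 0) = 1 ∧
      ∀ ζ ∈ ball (0 : ℂ) (k + 1), fs (F k (z₀ + ((a⁻¹ : ℝ) : ℂ) * ζ + zc k))
        (deriv (fun ζ => F k (z₀ + ((a⁻¹ : ℝ) : ℂ) * ζ + zc k)) ζ) ≤ 2 := by
    intro k
    have hd : Differentiable ℂ (fun z => F k (z + zc k)) := (hFd k).comp (differentiable_id.add_const _)
    refine rescale_fs hd (fun z => hX0 _ (hFX k _)) k ?_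
    rw [deriv_comp_add_const]
    simpa using hzc k
  choose z₀ a ha h1 h2 using hresc
  have ha0 : ∀ k, 0 < a k := fun k => lt_trans (by positivity) (ha k)
  have hform : ∀ k ζ, z₀ k + (((a k)⁻¹ : ℝ) : ℂ) * ζ + zc k = (z₀ k + zc k) + (((a k)⁻¹ : ℝ) : ℂ) * ζ := fun k ζ => by ring
  simp only [hform] at h1 h2
  set G : ℕ → ℂ → EN N := fun k ζ => F k ((z₀ k + zc k) + (((a k)⁻¹ : ℝ) : ℂ) * ζ) with hGdef
  have hGd : ∀ k, Differentiable ℂ (G k) := by
    intro k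
    exact (hFd k).comp ((differentiable_id.const_mul _).const_add _)
  have hGX : ∀ k ζ, G k ζ ∈ X := fun k ζ => hFX k _
  have hG1 : ∀ k, fs (G k 0) (deriv (G k) 0) = 1 := by
    intro k
    have := h1 k
    rw [hGdef]
    simpa only [mul_zero, add_zero] using this
  have hGn : ∀ k ζ, n.toFun (G k ζ) (deriv (G k) ζ) ≤ (a k)⁻¹ := by
    intro k ζ
    have h3 := n.comp_affine (hFd k) (hFX k) (((a k)⁻¹ : ℝ) : ℂ) (z₀ k + zc k) ζ
    rw [show n.toFun (G k ζ) (deriv (G k) ζ) = _ from h3, Complex.norm_real, Real.norm_of_nonneg (inv_nonneg.mpr (ha0 k).le)]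
    calc (a k)⁻¹ * _ ≤ (a k)⁻¹ * 1 := mul_le_mul_of_nonneg_left (hFn k _) (inv_nonneg.mpr (ha0 k).le)
      _ = (a k)⁻¹ := mul_one _
  have hGn0 : ∀ k ζ, 0 ≤ n.toFun (G k ζ) (deriv (G k) ζ) := fun k ζ => n.nonneg _ _ (tan_entire (hGd k) (hGX k) ζ)
  set 𝒰 : Ultrafilter ℕ := hyperfilter ℕ with h𝒰
  have hle : (𝒰 : Filter ℕ) ≤ atTop := Nat.hyperfilter_le_atTop
  have hρ : Tendsto (fun k : ℕ => (k : ℝ) + 1) 𝒰 atTop :=
    (tendsto_atTop_add_const_right _ _ tendsto_natCast_atTop_atTop).mono_left hle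
  have hainv : Tendsto (fun k => (a k)⁻¹) 𝒰 (𝓝 0) := by
    have h3 : Tendsto a 𝒰 atTop := by
      refine tendsto_atTop_mono (fun k => ?_) hρ
      have := ha k
      have h4 : (0 : ℝ) ≤ k := Nat.cast_nonneg k
      linarith
    exact tendsto_inv_atTop_zero.comp h3
  obtain ⟨H, hH, hHX, hpr, hfs, hloc⟩ := limit_curves hX (L := 2) two_pos 𝒰 G (fun k : ℕ => (k : ℝ) + 1) hρ
    (Eventually.of_forall fun k => ⟨(hGd k).differentiableOn, fun z hz => ⟨hGX k z, h2 k z hz⟩⟩)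
  have hH0 : ∀ z, H z ≠ 0 := fun z => hX0 _ (hHX z)
  have hone : fs (H 0) (deriv H 0) = 1 := by
    have h3 := hfs 0
    simp only [hG1] at h3
    exact (tendsto_nhds_unique h3 tendsto_const_nhds)
  have htwo : ∀ z, fs (H z) (deriv H z) ≤ 2 := by
    intro z
    refine le_of_tendsto (hfs z) ?_
    filter_upwards [hρ.eventually_gt_atTop ‖z‖] with k hk
    exact h2 k z (by rwa [mem_ball_zero_iff])
  have hn0 : ∀ z, n.toFun (H z) (deriv H z) = 0 := by
    intro z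
    obtain ⟨r, φ, ψ, hr, hφ, hψ, hψH, hlim⟩ := hloc z
    have hz : z ∈ ball z r := mem_ball_self hr
    have hnb : ball z r ∈ 𝓝 z := isOpen_ball.mem_nhds hz
    have hψX : ∀ w ∈ ball z r, ψ w ∈ X := by
      intro w hw
      obtain ⟨c, hc, h3⟩ := hψH w hw
      rw [h3]
      exact hX.smul_mem _ (hHX w) c hc
    have hφX : ∀ᶠ k in (𝒰 : Filter ℕ), DifferentiableOn ℂ (φ k) (ball z r) ∧ ∀ w ∈ ball z r, φ k w ∈ X := by
      filter_upwards [hφ] with k hk
      refine ⟨hk.1, fun w hw => ?_⟩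
      obtain ⟨c, hc, h3⟩ := hk.2 w hw
      rw [h3]
      exact hX.smul_mem _ (hGX k w) c hc
    have h3 := n.tendsto_curve hr hφX hψ hψX hlim
    have h4 : ∀ᶠ k in (𝒰 : Filter ℕ), 0 ≤ n.toFun (φ k z) (deriv (φ k) z) ∧ n.toFun (φ k z) (deriv (φ k) z) ≤ (a k)⁻¹ := by
      filter_upwards [hφ, hφX] with k hk hk2
      have h5 : n.toFun (φ k z) (deriv (φ k) z) = n.toFun (G k z) (deriv (G k) z) := by
        refine n.lift_eq hX ⟨hk.1.analyticAt hnb, ?_⟩ ⟨(hGd k).analyticAt z, Eventually.of_forall (hGX k)⟩ ?_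
        · filter_upwards [hnb] with w hw using hk2.2 w hw
        · filter_upwards [hnb] with w hw using hk.2 w hw
      rw [h5]
      exact ⟨hGn0 k z, hGn k z⟩
    have h6 : n.toFun (ψ z) (deriv ψ z) = 0 := by
      have h7 : Tendsto (fun k => n.toFun (φ k z) (deriv (φ k) z)) 𝒰 (𝓝 0) :=
        squeeze_zero' (h4.mono fun k hk => hk.1) (h4.mono fun k hk => hk.2) hainv
      exact tendsto_nhds_unique h3 h7
    rw [← h6]
    symm
    refine n.lift_eq hX ⟨hψ.analyticAt hnb, ?_⟩ ⟨hH.analyticAt z, Eventually.of_forall hHX⟩ ?_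
    · filter_upwards [hnb] with w hw using hψX w hw
    · filter_upwards [hnb] with w hw using hψH w hw
  have hK : ∀ z w, ∃ c : ℂ, H (0 + (1 / 2 : ℂ) * z) = c • H (0 + (1 / 2 : ℂ) * w) := by
    have hd : Differentiable ℂ (fun z : ℂ => H (0 + (1 / 2 : ℂ) * z)) := hH.comp ((differentiable_id.const_mul _).const_add _)
    have hder : ∀ z, deriv (fun ζ : ℂ => H (0 + (1 / 2 : ℂ) * ζ)) z = (1 / 2 : ℂ) • deriv H (0 + (1 / 2 : ℂ) * z) := by
      intro z
      have h3 : HasDerivAt (fun ζ : ℂ => 0 + (1 / 2 : ℂ) * ζ) (1 / 2 : ℂ) z := by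
        simpa using ((hasDerivAt_id z).const_mul (1 / 2 : ℂ)).const_add 0
      exact ((hH (0 + (1 / 2 : ℂ) * z)).hasDerivAt.scomp z h3).deriv
    refine hNT (fun z : ℂ => H (0 + (1 / 2 : ℂ) * z)) hd (fun z => hHX _) ?_ ?_
    · intro z
      rw [hder z, Pool.Agent.H36.BP.fs_smul_right]
      have h3 := htwo (0 + (1 / 2 : ℂ) * z)
      have h4 : ‖(1 / 2 : ℂ)‖ = 1 / 2 := by norm_num
      rw [h4]
      linarith
    · intro z
      rw [n.comp_affine hH hHX (1 / 2 : ℂ) 0 z, hn0, mul_zero]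
  obtain ⟨b, hb⟩ := Pool.Agent.H36.BP.Brody_deriv_line (hH 0) (fun z => by
    have h3 := hK (2 * z) 0
    simpa using h3)
  have h3 : wd (H 0) (deriv H 0) = 0 := (Pool.Agent.H36.BP.wd_eq_zero (hH0 0)).mpr ⟨b, hb⟩
  unfold fs at hone
  rw [h3, zero_div] at hone
  exact zero_ne_one hone

end Pool.Agent.H22.W

end

section

/-!
# TG Zl: the curves over lines are uniformly Lipschitz away from `D`

Port of `Pool/Agent/H62/EL/Zl.lean`.

`curve_bound`: suppose not: for every `n` there are `y n ∈ Gd D δ`, `‖e n‖ ≤ 1`, `F n` on `ball 0 δ` with `fs (F n 0) ((F n)' 0) > 4 (n + 1) / δ`.  `y n` may be translated by `Λ` (`Lat.cpt`, `Geo.gd_add`): `‖y n‖ ≤ R`.  `AD.rescale_disc` (`AD/W/Resc.lean`) for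
`ζ ↦ F n (δ ζ)`, `ζ ∈ ball 0 1`, gives `z n`, `a n > 4 (n + 1)` such that `G n ζ = F n (δ (z n + ζ / a n))` has `fs (G n 0) ((G n)' 0) = 1`, `fs ≤ 2` on `ball 0 (n + 1)`, `‖z n + ζ / a n‖ ≤ 1/2` there; `u (G n ζ) - (y n + (δ (z n + ζ / a n)) • e n) ∈ Λ`.
`limit_curves` (`𝒰 = hyperfilter ℕ`, `ρ n = n + 1`) gives `G` entire in `X` with `fs (G 0) (G' 0) = 1` and `fs (G ζ) (G' ζ) ≤ 2` (limits), and along `𝒰` `y n → y`, `z n → z`, `e n → e`; `w = y + (δ z) • e ∈ Gd D (δ / 2)` (`gd_near`, `gd_closed`), so `w ∉ D`.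
`pr (G n ζ) → pr (G ζ)`, so `u (G ζ) - w ∈ Λ` for all `ζ` (`fb_lim`, `fb_lift`).  `G.fib` (the geometric hypothesis `fib`): `G ζ` is proportional to `G 0` for all `ζ`, so `fs (G 0) (G' 0) = 0` (as in `EF/Zal`: `Brody_deriv_line` or `wd`): contradiction.

`sec_lip`: `L₁` from `curve_bound` for `δ / 4`.  Let `w ≠ y`, `e = (w - y) / ‖w - y‖`; the points `y + z • e`, `‖z‖ < 3 δ / 4`, are in `Gd D (δ / 4)`; `F` from `sec_line` (`R = 3δ/4`, `r` between `δ/2` and `3δ/4`, e.g. `5δ/8`: all points off `D`).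
For `‖z‖ < 5 δ / 8 - δ / 16`... : to apply `curve_bound` at `y + z • e` one needs `F` on `ball z δ''`: use `curve_bound` for `δ'' = δ / 16` (`Gd D (δ/4) ⊆ Gd D (δ/16)`).  Then `pr_lipschitz` on a convex neighbourhood of the segment `[0, ‖w - y‖]`.
-/

set_option autoImplicit false

open Topology Filter Metric

namespace Pool.Agent.TG

open Pool.Agent.H36.BP (EN fs wd)
open Pool.Agent.H14.PP (IsCone CurveAt Tan)
open Pool.Agent.H62.EF (MN pr)
open Pool.Agent.AD (Vd Chart Charts IsGerm)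

variable {N k : ℕ}

variable {X : Set (EN N)} {Λ : AddSubgroup (Vd (k + 1))} {u : EN N → Vd (k + 1)} {D B : Set (Vd (k + 1))}

theorem curve_bound (G : Geo X Λ u D B) {δ : ℝ} (hδ : 0 < δ) : ∃ L : ℝ, 0 < L ∧ ∀ y ∈ Gd D δ, ∀ e : Vd (k + 1), ‖e‖ ≤ 1 →
    ∀ F : ℂ → EN N, DifferentiableOn ℂ F (ball 0 δ) → (∀ z ∈ ball (0 : ℂ) δ, F z ∈ X ∧ u (F z) - (y + z • e) ∈ Λ) →
      fs (F 0) (deriv F 0) ≤ L := by
  have hX := G.cone
  have hu := G.tor
  have hΛ := G.lat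
  have hX0 : ∀ x ∈ X, x ≠ 0 := fun x hx h => hX.zero_notMem (h ▸ hx)
  by_contra hcon
  push Not at hcon
  have hbig : ∀ n : ℕ, ∃ y ∈ Gd D δ, ∃ e : Vd (k + 1), ‖e‖ ≤ 1 ∧ ∃ F : ℂ → EN N, DifferentiableOn ℂ F (ball 0 δ) ∧
      (∀ z ∈ ball (0 : ℂ) δ, F z ∈ X ∧ u (F z) - (y + z • e) ∈ Λ) ∧ 4 * ((n : ℝ) + 1) / δ < fs (F 0) (deriv F 0) :=
    fun n => hcon _ (by positivity)
  obtain ⟨R, hR0, hR⟩ := hΛ.cpt
  have hbig' : ∀ n : ℕ, ∃ y ∈ Gd D δ, ‖y‖ ≤ R ∧ ∃ e : Vd (k + 1), ‖e‖ ≤ 1 ∧ ∃ F : ℂ → EN N, DifferentiableOn ℂ F (ball 0 δ) ∧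
      (∀ z ∈ ball (0 : ℂ) δ, F z ∈ X ∧ u (F z) - (y + z • e) ∈ Λ) ∧ 4 * ((n : ℝ) + 1) / δ < fs (F 0) (deriv F 0) := by
    intro n
    obtain ⟨y, hy, e, he, F, hF, hFX, hb⟩ := hbig n
    obtain ⟨l, hl, hlR⟩ := hR y
    refine ⟨y - l, ?_, hlR, e, he, F, hF, fun z hz => ⟨(hFX z hz).1, ?_⟩, hb⟩
    · rw [← G.gd_add δ hl, sub_add_cancel]
      exact hy
    · have h1 := Λ.add_mem (hFX z hz).2 hl
      have h2 : u (F z) - (y - l + z • e) = u (F z) - (y + z • e) + l := by abel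
      rwa [h2]
  choose y hyG hyR e he F hF hFX hFb using hbig'
  have hmul : ∀ z : ℂ, z ∈ ball (0 : ℂ) 1 → (δ : ℂ) * z ∈ ball (0 : ℂ) δ := by
    intro z hz
    rw [mem_ball_zero_iff] at hz ⊢
    rw [norm_mul, Complex.norm_real, Real.norm_of_nonneg hδ.le]
    calc δ * ‖z‖ < δ * 1 := mul_lt_mul_of_pos_left hz hδ
      _ = δ := mul_one δ
  have hresc : ∀ n : ℕ, ∃ (z₀ : ℂ) (a : ℝ), 4 * ((n : ℝ) + 1) < a ∧
      (∀ ζ ∈ ball (0 : ℂ) (n + 1), ‖z₀ + ((a⁻¹ : ℝ) : ℂ) * ζ‖ ≤ 1 / 2) ∧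
      fs (F n ((δ : ℂ) * z₀)) (deriv (fun ζ => F n ((δ : ℂ) * (z₀ + ((a⁻¹ : ℝ) : ℂ) * ζ))) 0) = 1 ∧
      ∀ ζ ∈ ball (0 : ℂ) (n + 1), fs (F n ((δ : ℂ) * (z₀ + ((a⁻¹ : ℝ) : ℂ) * ζ)))
        (deriv (fun ζ => F n ((δ : ℂ) * (z₀ + ((a⁻¹ : ℝ) : ℂ) * ζ))) ζ) ≤ 2 := by
    intro n
    have hd : DifferentiableOn ℂ (fun z => F n ((δ : ℂ) * z)) (ball 0 1) :=
      (hF n).comp (differentiable_id.const_mul _).differentiableOn hmul
    refine Pool.Agent.AD.rescale_disc hd (fun z hz => hX0 _ (hFX n _ (hmul z hz)).1) n ?_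
    have h1 : HasDerivAt (fun z : ℂ => (δ : ℂ) * z) (δ : ℂ) 0 := by
      simpa using (hasDerivAt_id (0 : ℂ)).const_mul (δ : ℂ)
    have h2 : deriv (fun z => F n ((δ : ℂ) * z)) 0 = (δ : ℂ) • deriv (F n) 0 := by
      have h4 : HasDerivAt (F n) (deriv (F n) 0) ((δ : ℂ) * 0) := by
        rw [mul_zero]
        exact ((hF n).differentiableAt (isOpen_ball.mem_nhds (mem_ball_self hδ))).hasDerivAt
      exact (h4.scomp 0 h1).deriv
    rw [h2, Pool.Agent.H36.BP.fs_smul_right, Complex.norm_real, Real.norm_of_nonneg hδ.le, mul_zero]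
    have h4 := hFb n
    rw [div_lt_iff₀ hδ] at h4
    linarith
  choose z₀ a ha hz₀ h1 h2 using hresc
  have ha0 : ∀ n, 0 < a n := fun n => lt_trans (by positivity) (ha n)
  have hz₀n : ∀ n, ‖z₀ n‖ ≤ 1 / 2 := by
    intro n
    have h3 := hz₀ n 0 (mem_ball_self (by positivity))
    rwa [mul_zero, add_zero] at h3
  set g : ℕ → ℂ → EN N := fun n ζ => F n ((δ : ℂ) * (z₀ n + (((a n)⁻¹ : ℝ) : ℂ) * ζ)) with hgdef
  set w : ℕ → Vd (k + 1) := fun n => y n + ((δ : ℂ) * z₀ n) • e n with hwdef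
  have hin : ∀ n : ℕ, ∀ ζ ∈ ball (0 : ℂ) ((n : ℝ) + 1), (δ : ℂ) * (z₀ n + (((a n)⁻¹ : ℝ) : ℂ) * ζ) ∈ ball (0 : ℂ) δ := by
    intro n ζ hζ
    apply hmul
    rw [mem_ball_zero_iff]
    have h3 := hz₀ n ζ hζ
    linarith
  have hgd : ∀ n : ℕ, DifferentiableOn ℂ (g n) (ball 0 ((n : ℝ) + 1)) := by
    intro n
    exact (hF n).comp (((differentiable_id.const_mul _).const_add _).const_mul _).differentiableOn (hin n)
  have hgX : ∀ n : ℕ, ∀ ζ ∈ ball (0 : ℂ) ((n : ℝ) + 1), g n ζ ∈ X := fun n ζ hζ => (hFX n _ (hin n ζ hζ)).1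
  have hgu : ∀ n : ℕ, ∀ ζ ∈ ball (0 : ℂ) ((n : ℝ) + 1), u (g n ζ) - (w n + (((δ * (a n)⁻¹ : ℝ) : ℂ) * ζ) • e n) ∈ Λ := by
    intro n ζ hζ
    have h3 := (hFX n _ (hin n ζ hζ)).2
    have h4 : w n + (((δ * (a n)⁻¹ : ℝ) : ℂ) * ζ) • e n = y n + ((δ : ℂ) * (z₀ n + (((a n)⁻¹ : ℝ) : ℂ) * ζ)) • e n := by
      rw [hwdef]
      simp only []
      rw [add_assoc, ← add_smul]
      congr 2
      push_cast
      ring
    rw [h4]
    exact h3
  have hg1 : ∀ n, fs (g n 0) (deriv (g n) 0) = 1 := by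
    intro n
    have h3 := h1 n
    rw [hgdef]
    simpa only [mul_zero, add_zero] using h3
  have hwy : ∀ n, ‖w n - y n‖ ≤ δ / 2 := by
    intro n
    have h3 : w n - y n = ((δ : ℂ) * z₀ n) • e n := by
      rw [hwdef]
      simp
    rw [h3, norm_smul, norm_mul, Complex.norm_real, Real.norm_of_nonneg hδ.le]
    calc δ * ‖z₀ n‖ * ‖e n‖ ≤ δ * (1 / 2) * 1 :=
          mul_le_mul (mul_le_mul_of_nonneg_left (hz₀n n) hδ.le) (he n) (norm_nonneg _) (by positivity)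
      _ = δ / 2 := by ring
  have hwG : ∀ n, w n ∈ Gd D (δ / 2) := by
    intro n
    have h3 := gd_near (hyG n) (hwy n)
    have h4 : δ - δ / 2 = δ / 2 := by ring
    rwa [h4] at h3
  have hwR : ∀ n, w n ∈ closedBall (0 : Vd (k + 1)) (R + δ / 2) := by
    intro n
    rw [mem_closedBall_zero_iff]
    have h3 : w n = y n + (w n - y n) := by abel
    rw [h3]
    exact (norm_add_le _ _).trans (add_le_add (hyR n) (hwy n))
  set 𝒰 : Ultrafilter ℕ := hyperfilter ℕ with h𝒰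
  have hle : (𝒰 : Filter ℕ) ≤ atTop := Nat.hyperfilter_le_atTop
  obtain ⟨w₀, -, hw₀⟩ := (isCompact_closedBall (0 : Vd (k + 1)) (R + δ / 2)).ultrafilter_le_nhds (𝒰.map w) (by
    rw [Filter.le_principal_iff, Ultrafilter.coe_map, Filter.mem_map]
    exact Filter.univ_mem' hwR)
  have hwt : Tendsto w 𝒰 (𝓝 w₀) := hw₀
  have hw₀G : w₀ ∈ Gd D (δ / 2) := (gd_closed D (δ / 2)).mem_of_tendsto hwt (Eventually.of_forall hwG)
  have hw₀D : w₀ ∉ D := gd_notMem (by positivity) hw₀G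
  have hρ : Tendsto (fun n : ℕ => (n : ℝ) + 1) 𝒰 atTop :=
    (tendsto_atTop_add_const_right _ _ tendsto_natCast_atTop_atTop).mono_left hle
  have hainv : Tendsto (fun n => (a n)⁻¹) 𝒰 (𝓝 0) := by
    have h3 : Tendsto a 𝒰 atTop := by
      refine tendsto_atTop_mono (fun n => ?_) hρ
      have := ha n
      have h4 : (0 : ℝ) ≤ n := Nat.cast_nonneg n
      linarith
    exact tendsto_inv_atTop_zero.comp h3
  obtain ⟨H, hH, hHX, hpr, hfs, -⟩ := Pool.Agent.H62.EF.limit_curves hX (L := 2) two_pos 𝒰 g (fun n : ℕ => (n : ℝ) + 1) hρ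
    (Eventually.of_forall fun n => ⟨hgd n, fun z hz => ⟨hgX n z hz, h2 n z hz⟩⟩)
  have hH0 : ∀ z, H z ≠ 0 := fun z => hX0 _ (hHX z)
  -- the limit is not constant
  have hone : fs (H 0) (deriv H 0) = 1 := by
    have h3 := hfs 0
    simp only [hg1] at h3
    exact tendsto_nhds_unique h3 tendsto_const_nhds |>.symm ▸ rfl
  -- the limit has bounded derivative
  have hbd : ∀ z, fs (H z) (deriv H z) ≤ 2 := by
    intro z
    refine le_of_tendsto (hfs z) ?_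
    filter_upwards [hρ.eventually_gt_atTop ‖z‖] with n hn
    exact h2 n z (by rw [mem_ball_zero_iff]; exact hn)
  -- the limit is in the fibre over `w₀`
  have hver : ∀ ζ, u (H ζ) - w₀ ∈ Λ := by
    intro ζ
    have hball : ∀ᶠ n : ℕ in (𝒰 : Filter ℕ), ζ ∈ ball (0 : ℂ) ((n : ℝ) + 1) := by
      filter_upwards [hρ.eventually_gt_atTop ‖ζ‖] with n hn
      rw [mem_ball_zero_iff]
      exact hn
    have h3 : Tendsto (fun n => w n + (((δ * (a n)⁻¹ : ℝ) : ℂ) * ζ) • e n) 𝒰 (𝓝 w₀) := by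
      have h4 : Tendsto (fun n => (((δ * (a n)⁻¹ : ℝ) : ℂ) * ζ) • e n) 𝒰 (𝓝 0) := by
        rw [tendsto_zero_iff_norm_tendsto_zero]
        have h5 : Tendsto (fun n => δ * (a n)⁻¹ * ‖ζ‖) 𝒰 (𝓝 0) := by
          have h6 := (hainv.const_mul δ).mul_const ‖ζ‖
          rwa [mul_zero, zero_mul] at h6
        refine squeeze_zero (fun n => norm_nonneg _) (fun n => ?_) h5
        have h7 : 0 ≤ δ * (a n)⁻¹ := mul_nonneg hδ.le (inv_nonneg.mpr (ha0 n).le)
        rw [norm_smul, norm_mul, Complex.norm_real, Real.norm_of_nonneg h7]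
        exact mul_le_of_le_one_right (mul_nonneg h7 (norm_nonneg _)) (he n)
      have h5 := hwt.add h4
      rwa [add_zero] at h5
    have h4 := fb_lim hX hΛ hu (hpr ζ) h3 (by
      filter_upwards [hball] with n hn
      exact mem_fb (hgX n ζ hn) (hgu n ζ hn))
    exact fb_lift hX hu h4.1 (hHX ζ) rfl
  have hc := G.fib w₀ hw₀D H hH hHX hver ⟨2, hbd⟩
  obtain ⟨b, hb⟩ := Pool.Agent.H36.BP.Brody_deriv_line (hH 0) (fun z => hc z 0)
  have h3 : wd (H 0) (deriv H 0) = 0 := (Pool.Agent.H36.BP.wd_eq_zero (hH0 0)).mpr ⟨b, hb⟩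
  unfold fs at hone
  rw [h3, zero_div] at hone
  exact zero_ne_one hone

/-- the bound at all points of the disc -/
theorem curve_bound_disc (G : Geo X Λ u D B) {δ : ℝ} (hδ : 0 < δ) : ∃ L : ℝ, 0 < L ∧ ∀ y e : Vd (k + 1), ‖e‖ ≤ 1 → ∀ r s : ℝ, s + δ ≤ r →
    (∀ z ∈ ball (0 : ℂ) s, y + z • e ∈ Gd D δ) →
    ∀ F : ℂ → EN N, DifferentiableOn ℂ F (ball 0 r) → (∀ z ∈ ball (0 : ℂ) r, F z ∈ X ∧ u (F z) - (y + z • e) ∈ Λ) →
      ∀ z ∈ ball (0 : ℂ) s, ∀ w ∈ ball (0 : ℂ) s, dist (pr (F z)) (pr (F w)) ≤ L * ‖z - w‖ := by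
  obtain ⟨L, hL, h⟩ := curve_bound G hδ
  refine ⟨2 * L, by positivity, fun y e he r s hrs hy F hF hFX => ?_⟩
  have hsr : s ≤ r := by linarith
  have hfs : ∀ z ∈ ball (0 : ℂ) s, fs (F z) (deriv F z) ≤ L := by
    intro z hz
    have hsub : ∀ ζ ∈ ball (0 : ℂ) δ, z + ζ ∈ ball (0 : ℂ) r := by
      intro ζ hζ
      rw [mem_ball_zero_iff] at hz hζ ⊢
      have := norm_add_le z ζ
      linarith
    have h1 := h (y + z • e) (hy z hz) e he (fun ζ => F (z + ζ)) (hF.comp (differentiable_id.const_add z).differentiableOn hsub)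
      (fun ζ hζ => by
        have h2 := hFX _ (hsub ζ hζ)
        refine ⟨h2.1, ?_⟩
        have h3 : y + z • e + ζ • e = y + (z + ζ) • e := by
          rw [add_smul]
          abel
        rw [h3]
        exact h2.2)
    have h2 : deriv (fun ζ => F (z + ζ)) 0 = deriv F z := by
      rw [deriv_comp_const_add, add_zero]
    rw [h2] at h1
    simpa only [add_zero] using h1
  exact Pool.Agent.H62.EF.pr_lipschitz isOpen_ball (convex_ball 0 s) (hF.mono (ball_subset_ball hsr))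
    (fun z hz => ne_zero G.cone (hFX z (ball_subset_ball hsr hz)).1) hfs

theorem sec_lip (G : Geo X Λ u D B) {δ : ℝ} (hδ : 0 < δ) : ∃ L : ℝ, 0 < L ∧ ∀ f ∈ Sec X Λ u D, ∀ y ∈ Gd D δ, ∀ w ∈ closedBall y (δ / 2),
    dist (f y) (f w) ≤ L * ‖y - w‖ := by
  obtain ⟨L, hL, h⟩ := curve_bound_disc G (δ := δ / 8) (by positivity)
  refine ⟨L, hL, fun f hf y hy w hw => ?_⟩
  rw [mem_closedBall, dist_eq_norm] at hw
  by_cases hyw : w = y
  · rw [hyw, dist_self, sub_self, norm_zero, mul_zero]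
  have hp : 0 < ‖w - y‖ := norm_pos_iff.mpr (sub_ne_zero.mpr hyw)
  set e : Vd (k + 1) := ((‖w - y‖⁻¹ : ℝ) : ℂ) • (w - y) with he
  have hen : ‖e‖ ≤ 1 := by
    rw [he, norm_smul, Complex.norm_real, norm_inv, norm_norm, inv_mul_cancel₀ hp.ne']
  have hwe : y + ((‖w - y‖ : ℝ) : ℂ) • e = w := by
    rw [he, smul_smul, ← Complex.ofReal_mul, mul_inv_cancel₀ hp.ne', Complex.ofReal_one, one_smul]
    abel
  have hye : y + (0 : ℂ) • e = y := by simp
  have hgd : ∀ r : ℝ, ∀ z ∈ ball (0 : ℂ) r, y + z • e ∈ Gd D (δ - r) := by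
    intro r z hz
    refine gd_near hy ?_
    rw [mem_ball_zero_iff] at hz
    rw [add_sub_cancel_left, norm_smul]
    calc ‖z‖ * ‖e‖ ≤ ‖z‖ * 1 := mul_le_mul_of_nonneg_left hen (norm_nonneg _)
      _ ≤ r := by linarith
  have hnD : ∀ z ∈ ball (0 : ℂ) (7 * δ / 8), y + z • e ∉ D := fun z hz =>
    gd_notMem (show 0 < δ - 7 * δ / 8 by linarith) (hgd _ z hz)
  obtain ⟨F, hF, hFX, hFf⟩ := sec_line G.cone G.tor G.D_closed hf (y := y) (e := e) (R := 7 * δ / 8) (r := 3 * δ / 4) (fun z hz => by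
    have h1 : ∀ᶠ v in 𝓝 z, v ∈ ball (0 : ℂ) (7 * δ / 8) := isOpen_ball.mem_nhds hz
    exact (h1.mono fun v hv => hnD v hv).filter_mono nhdsWithin_le_nhds) (by linarith)
  have h1 := h y e hen (3 * δ / 4) (5 * δ / 8) (by linarith) (fun z hz => gd_mono (by linarith) (hgd _ z hz)) F hF hFX
    0 (mem_ball_self (by positivity)) ((‖w - y‖ : ℝ) : ℂ) (by
      rw [mem_ball_zero_iff, Complex.norm_real, norm_norm]
      linarith)
  rw [hFf 0 (mem_ball_self (by positivity)) (hnD 0 (mem_ball_self (by positivity))),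
    hFf _ (by rw [mem_ball_zero_iff, Complex.norm_real, norm_norm]; linarith)
      (hnD _ (by rw [mem_ball_zero_iff, Complex.norm_real, norm_norm]; linarith)), hye, hwe, zero_sub, norm_neg, Complex.norm_real,
    norm_norm] at h1
  rw [norm_sub_rev y w]
  exact h1

end Pool.Agent.TG

end

section

/-!
# TG SbA: the limits of the sections

Port of `Pool/Agent/H62/EL/SbA.lean`.
`sec_fb`: from the first condition of `Sec`.  `sec_trans`: translate `φ` (`AnalyticAt` of `z ↦ φ (z + l)`), `l ∈ Λ`; second condition: at `y, e` use the one at `y + l, e`.  `sec_sb`: take `f` itself.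
`sb_lip`: `sec_lip` for `δ/2` ... as in `EL/SbA` (`f` is near members of `Sec` at `y` and at `w`, both in `Gd D (δ / 2)`).
`sb_mem`: `f y` is a limit of points of `Fb X Λ u y` (`fb_lim`; `Geo.exists_gd`).  `sb_trans`: `Geo.gd_add`.
`sb_lim`: `Gd D δ' ∩ closedBall 0 R` is compact; the `F n` and `f` satisfy the Lipschitz condition with the same constant, so the convergence is uniform there (finite net).
`sb_exists_lim`: `f y := lim` along the ultrafilter for `y ∉ D` (`isCompact_pr`, `sb_mem`), then `sb_lim`.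
`sb_along`: `w n → y ∉ D`: `dist (F n (w n)) (F n y) ≤ L ‖w n - y‖` (`sb_lip`).
-/

set_option autoImplicit false

open Topology Filter Metric

namespace Pool.Agent.TG

open Pool.Agent.H36.BP (EN fs wd)
open Pool.Agent.H14.PP (IsCone CurveAt Tan)
open Pool.Agent.H62.EF (MN pr)
open Pool.Agent.AD (Vd Chart Charts IsGerm)

variable {N k : ℕ}

variable {X : Set (EN N)} {Λ : AddSubgroup (Vd (k + 1))} {u : EN N → Vd (k + 1)} {D B : Set (Vd (k + 1))}

theorem sec_fb {f : Vd (k + 1) → MN N} (hf : f ∈ Sec X Λ u D) {y : Vd (k + 1)} (hy : y ∉ D) : f y ∈ Fb X Λ u y := by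
  obtain ⟨φ, -, h⟩ := hf.1 y hy
  obtain ⟨h1, h2, h3⟩ := h.self_of_nhds
  exact ⟨φ y, h1, h2.symm, h3⟩

theorem sec_trans (G : Geo X Λ u D B) {f : Vd (k + 1) → MN N} (hf : f ∈ Sec X Λ u D) {l : Vd (k + 1)} (hl : l ∈ Λ) :
    (fun y => f (y + l)) ∈ Sec X Λ u D := by
  refine ⟨fun y hy => ?_, fun y e he => ?_⟩
  · have hyl : y + l ∉ D := fun h => hy ((G.D_sub hl).1 h)
    obtain ⟨φ, hφ, h⟩ := hf.1 _ hyl
    have hc : AnalyticAt ℂ (fun z : Vd (k + 1) => z + l) y := analyticAt_id.add analyticAt_const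
    refine ⟨fun z => φ (z + l), AnalyticAt.fun_comp (g := φ) (f := fun z : Vd (k + 1) => z + l) hφ hc, ?_⟩
    filter_upwards [hc.continuousAt.eventually h] with z hz
    refine ⟨hz.1, hz.2.1, ?_⟩
    have h1 := Λ.add_mem hz.2.2 hl
    have h2 : u (φ (z + l)) - (z + l) + l = u (φ (z + l)) - z := by abel
    rwa [h2] at h1
  · obtain ⟨g, ⟨Φ, hΦ, hg⟩, hgf⟩ := hf.2 (y + l) e (by
      filter_upwards [he] with z hz
      have h1 : y + l + z • e = y + z • e + l := by abel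
      rw [h1]
      exact fun h => hz ((G.D_sub hl).1 h))
    refine ⟨g, ⟨Φ, hΦ, ?_⟩, ?_⟩
    · filter_upwards [hg] with z hz
      refine ⟨hz.1, hz.2.1, ?_⟩
      have h1 := Λ.add_mem hz.2.2 hl
      have h2 : u (Φ z) - (y + l + z • e) + l = u (Φ z) - (y + z • e) := by abel
      rwa [h2] at h1
    · filter_upwards [hgf] with z hz
      have h1 : y + l + z • e = y + z • e + l := by abel
      rw [h1] at hz
      exact hz

theorem sec_sb {f : Vd (k + 1) → MN N} (hf : f ∈ Sec X Λ u D) : f ∈ Sb X Λ u D := by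
  intro δ' _ R ε hε
  exact ⟨f, hf, fun y _ _ => by rw [dist_self]; exact hε⟩

theorem sb_lip (G : Geo X Λ u D B) {δ : ℝ} (hδ : 0 < δ) : ∃ L : ℝ, 0 < L ∧ ∀ f ∈ Sb X Λ u D, ∀ y ∈ Gd D δ, ∀ w ∈ closedBall y (δ / 2),
    dist (f y) (f w) ≤ L * ‖y - w‖ := by
  obtain ⟨L, hL, h⟩ := sec_lip G hδ
  refine ⟨L, hL, fun f hf y hy w hw => ?_⟩
  refine le_of_forall_pos_le_add fun ε hε => ?_
  obtain ⟨F, hF, hFf⟩ := hf (δ / 2) (by positivity) (max ‖y‖ ‖w‖) (ε / 2) (by positivity)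
  have hwG : w ∈ Gd D (δ / 2) := by
    rw [mem_closedBall, dist_eq_norm] at hw
    exact gd_mono (by linarith) (gd_near hy hw)
  have h1 := hFf y (gd_mono (by linarith) hy) (le_max_left _ _)
  have h2 := hFf w hwG (le_max_right _ _)
  have h3 := h F hF y hy w hw
  have h4 := dist_triangle (f y) (F y) (f w)
  have h5 := dist_triangle (F y) (F w) (f w)
  rw [dist_comm (f y) (F y)] at h4
  linarith

theorem sb_mem (G : Geo X Λ u D B) {f : Vd (k + 1) → MN N} (hf : f ∈ Sb X Λ u D) {y : Vd (k + 1)} (hy : y ∉ D) : f y ∈ Fb X Λ u y := by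
  obtain ⟨δ, hδ, hyG⟩ := G.exists_gd hy
  have h1 : ∀ n : ℕ, ∃ F ∈ Sec X Λ u D, dist (F y) (f y) < 1 / ((n : ℝ) + 1) := by
    intro n
    obtain ⟨F, hF, h⟩ := hf δ hδ ‖y‖ (1 / ((n : ℝ) + 1)) (by positivity)
    exact ⟨F, hF, h y hyG le_rfl⟩
  choose F hF hFd using h1
  have h2 : Tendsto (fun n => F n y) atTop (𝓝 (f y)) := by
    rw [tendsto_iff_dist_tendsto_zero]
    exact squeeze_zero (fun _ => dist_nonneg) (fun n => (hFd n).le) tendsto_one_div_add_atTop_nhds_zero_nat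
  exact (fb_lim G.cone G.lat G.tor h2 tendsto_const_nhds (Filter.Eventually.of_forall fun n => sec_fb (hF n) hy)).1

theorem sb_trans (G : Geo X Λ u D B) {f : Vd (k + 1) → MN N} (hf : f ∈ Sb X Λ u D) {l : Vd (k + 1)} (hl : l ∈ Λ) :
    (fun y => f (y + l)) ∈ Sb X Λ u D := by
  intro δ' hδ' R ε hε
  obtain ⟨F, hF, h⟩ := hf δ' hδ' (R + ‖l‖) ε hε
  exact ⟨_, sec_trans G hF hl, fun y hy hR => h _ ((G.gd_add δ' hl).2 hy) ((norm_add_le _ _).trans (by linarith))⟩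

theorem sb_lim (G : Geo X Λ u D B) (𝒰 : Ultrafilter ℕ) (F : ℕ → Vd (k + 1) → MN N) (f : Vd (k + 1) → MN N)
    (hF : ∀ᶠ n in (𝒰 : Filter ℕ), F n ∈ Sb X Λ u D) (hf : ∀ y, y ∉ D → Tendsto (fun n => F n y) 𝒰 (𝓝 (f y))) : f ∈ Sb X Λ u D := by
  intro δ' hδ' R ε hε
  obtain ⟨L, hL, hlip⟩ := sb_lip G hδ'
  set r : ℝ := min (δ' / 2) (ε / (8 * L)) with hr
  have hr0 : 0 < r := lt_min (by positivity) (by positivity)
  have hrδ : r ≤ δ' / 2 := min_le_left _ _
  have hrL : L * r ≤ ε / 8 := by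
    calc L * r ≤ L * (ε / (8 * L)) := mul_le_mul_of_nonneg_left (min_le_right _ _) hL.le
      _ = ε / 8 := by field_simp
  -- the limit is also Lipschitz
  have hlipf : ∀ y ∈ Gd D δ', ∀ w ∈ closedBall y (δ' / 2), dist (f y) (f w) ≤ L * ‖y - w‖ := by
    intro y hy w hw
    have hwG : w ∈ Gd D (δ' / 2) := by
      rw [mem_closedBall, dist_eq_norm] at hw
      exact gd_mono (by linarith) (gd_near hy hw)
    have h1 := (hf y (gd_notMem hδ' hy)).dist (hf w (gd_notMem (by positivity) hwG))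
    refine le_of_tendsto h1 ?_
    filter_upwards [hF] with n hn
    exact hlip _ hn y hy w hw
  have hK : IsCompact (closedBall (0 : Vd (k + 1)) R ∩ Gd D δ') := (isCompact_closedBall 0 R).inter_right (gd_closed D δ')
  obtain ⟨t, htK, htf, hcov⟩ := hK.finite_cover_balls hr0
  have h1 : ∀ᶠ n in (𝒰 : Filter ℕ), ∀ y ∈ t, dist (F n y) (f y) < ε / 4 := by
    rw [Filter.eventually_all_finite htf]
    intro y hy
    exact (hf y (gd_notMem hδ' (htK hy).2)).eventually (ball_mem_nhds _ (by positivity))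
  obtain ⟨n, hn, hnt⟩ := (hF.and h1).exists
  obtain ⟨H, hH, hHF⟩ := hn δ' hδ' R (ε / 2) (by positivity)
  refine ⟨H, hH, fun y hy hyR => ?_⟩
  have hyK : y ∈ closedBall (0 : Vd (k + 1)) R ∩ Gd D δ' := ⟨by rw [mem_closedBall_zero_iff]; exact hyR, hy⟩
  obtain ⟨y', hy't, hyy'⟩ := Set.mem_iUnion₂.1 (hcov hyK)
  have hy'G := (htK hy't).2
  rw [mem_ball, dist_eq_norm] at hyy'
  have hyc : y ∈ closedBall y' (δ' / 2) := by
    rw [mem_closedBall, dist_eq_norm]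
    linarith
  have h2 := hlip _ hn y' hy'G y hyc
  have h3 := hlipf y' hy'G y hyc
  have h4 := hnt y' hy't
  have h5 := hHF y hy hyR
  have h6 : L * ‖y' - y‖ ≤ ε / 8 := by
    rw [norm_sub_rev]
    exact (mul_le_mul_of_nonneg_left hyy'.le hL.le).trans hrL
  have h7 := dist_triangle (H y) (F n y) (f y)
  have h8 := dist_triangle (F n y) (F n y') (f y)
  have h9 := dist_triangle (F n y') (f y') (f y)
  rw [dist_comm (F n y) (F n y')] at h8
  linarith

theorem sb_along (G : Geo X Λ u D B) (𝒰 : Ultrafilter ℕ) (F : ℕ → Vd (k + 1) → MN N) {f : Vd (k + 1) → MN N}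
    (hF : ∀ᶠ n in (𝒰 : Filter ℕ), F n ∈ Sb X Λ u D) (hf : ∀ y, y ∉ D → Tendsto (fun n => F n y) 𝒰 (𝓝 (f y)))
    {w : ℕ → Vd (k + 1)} {y : Vd (k + 1)} (hy : y ∉ D) (hw : Tendsto w 𝒰 (𝓝 y)) : Tendsto (fun n => F n (w n)) 𝒰 (𝓝 (f y)) := by
  obtain ⟨δ, hδ, hyG⟩ := G.exists_gd hy
  obtain ⟨L, hL, hlip⟩ := sb_lip G hδ
  rw [tendsto_iff_dist_tendsto_zero]
  have h1 : Tendsto (fun n => L * ‖y - w n‖ + dist (F n y) (f y)) 𝒰 (𝓝 0) := by
    have h2 : Tendsto (fun n => y - w n) 𝒰 (𝓝 0) := by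
      have h3 := hw.const_sub y
      rwa [sub_self] at h3
    have h3 := (h2.norm.const_mul L).add (tendsto_iff_dist_tendsto_zero.1 (hf y hy))
    rwa [norm_zero, mul_zero, add_zero] at h3
  refine squeeze_zero' (Filter.Eventually.of_forall fun _ => dist_nonneg) ?_ h1
  have h2 : ∀ᶠ n in (𝒰 : Filter ℕ), w n ∈ closedBall y (δ / 2) := hw.eventually (closedBall_mem_nhds y (by positivity))
  filter_upwards [hF, h2] with n hn hwn
  have h3 := hlip _ hn y hyG (w n) hwn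
  have h4 := dist_triangle (F n (w n)) (F n y) (f y)
  rw [dist_comm (F n (w n)) (F n y)] at h4
  linarith

end Pool.Agent.TG

end

section

/-!
# TG Iz: isolated pairs near a section inside the zeros of the form

Compare `Pool/Agent/H62/EL/Iz.lean`.  Let `x₁ = φ y₁`, `χ, c, ρ` a chart with `Cap .. y₁ (pr x₁) (3ε)` (`Cst.cap`, `y₁ ∈ O ⊆ Gd D δ`), `A` a primitive (`exists_prim`), `a = tc α χ (ms c ρ) = ∂_0 A`; for `y` near `y₁`: `φ y ∈ χ.U`, `π y = χ.q (φ y)`, analytic,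
`ms c ρ (π y) = y` (`Cap`).  `S p := π (ms c ρ p)` (the point of the graph with the same `tl`), `h p = A p - A (S p)`, `G p = h p * a p`, analytic near `p₁ = π y₁` (`ms c ρ p₁ = y₁`).  `G` is not `0` near `p₁`: otherwise, as `a` is not identically `0`
near `p₁` (`Thin`; `Str.lift`), `a ≠ 0` at a point near `p₁`, hence on a small ball, where then `h = 0`; `h` is analytic on a ball about `p₁` (connected), so `h = 0` near `p₁` and `a = ∂_0 h = 0` near `p₁` (`S` does not depend on `p 0`): contradiction.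
Put `G' (t, s) = G (cons (t + g s) s)`, where `g s = (S (cons 0 s)) 0` (so `cons (g s) s` is on the graph), analytic at `cons 0 (tl p₁)`, not `0` near it (composition with a local biholomorphism: if `G' = 0` near `cons 0 (tl p₁)` then `G = 0` near `p₁`).
`exists_isolated` with `W` = the set of `s` near `tl p₁` such that `y = c + ρ s ∈ O` and everything above holds near `y`: `s₁`, `d`.  `y₀ = c + ρ s₁`.  `r', ε'` small: `ball y₀ r' ⊆ O`, and for `y ∈ ball y₀ r'`, `m ∈ Fb .. y` with `dist m (pr (φ y)) < ε'`: let `x'`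
be a lift of `m`, `x' ∈ χ.U`, `p = χ.q x'`, `ms c ρ p = y` (`Cap`), so `‖tl p - s₁‖ < d`, and `‖p 0 - g (tl p)‖ < d`: for this one needs that `χ.q x'` is near `χ.q (φ y)` if `m` is near `pr (φ y)`, uniformly for `y` near `y₀`
(sequences: `y_n → y'`, `m_n → pr (φ y')`: `fb_lim`; or shrink `r'` and use continuity at `y₀` only: `dist m (pr (φ y₀)) < ε' + dist (pr (φ y)) (pr (φ y₀))`).  If `Zr α y m`: `a p = 0` (`zr_iff`), `G p = 0`.  If `II α ε y (pr (φ y)) m = 0`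
(`ε' ≤ ε₀`: there is `v` with `IRel`, `Cst.rel`) by `II_eq` `A p = A (π y)`, `h p = 0`, `G p = 0`.  So `p 0 = g (tl p)`: `p = π y`, `χ.q x' = χ.q (φ y)`, so `x'` and `φ y` are proportional and `m = pr (φ y)`.
-/

set_option autoImplicit false

open Topology Filter Metric

namespace Pool.Agent.TG

open Pool.Agent.H36.BP (EN fs wd)
open Pool.Agent.H14.PP (IsCone CurveAt Tan)
open Pool.Agent.H62.EF (MN pr)
open Pool.Agent.AD (Vd Chart Charts IsGerm)

variable {N k : ℕ}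

variable {X : Set (EN N)} {Λ : AddSubgroup (Vd (k + 1))} {u : EN N → Vd (k + 1)} {D B : Set (Vd (k + 1))}

theorem iso_zr (G : Geo X Λ u D B) {α : VForm X Λ u} (hthin : Thin α) {δ ε ε₀ : ℝ} (hc : Cst X Λ u D δ ε ε₀) {O : Set (Vd (k + 1))}
    (hO : IsOpen O) (hOG : O ⊆ Gd D δ) {y₁ : Vd (k + 1)} (hy₁ : y₁ ∈ O) {φ : Vd (k + 1) → EN N} (hφ : AnalyticAt ℂ φ y₁)
    (hφX : ∀ᶠ y in 𝓝 y₁, φ y ∈ X ∧ u (φ y) - y ∈ Λ) :
    ∃ (y₀ : Vd (k + 1)) (r' ε' : ℝ), 0 < r' ∧ 0 < ε' ∧ ball y₀ r' ⊆ O ∧ ∀ y ∈ ball y₀ r', ∀ m ∈ Fb X Λ u y,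
      dist m (pr (φ y)) < ε' → (II α ε y (pr (φ y)) m = 0 ∨ Zr α y m) → m = pr (φ y) := by
  have hX := G.cone
  have hε := hc.ε_pos
  have hX0 : ∀ w ∈ X, w ≠ 0 := fun w hw => ne_zero hX hw
  obtain ⟨hφ1, hφu1⟩ := hφX.self_of_nhds
  obtain ⟨χ, c, ρ, hcap⟩ := hc.cap y₁ (hOG hy₁) (pr (φ y₁)) (mem_fb hφ1 hφu1)
  have hm := hcap.str
  have hρ0 := hm.pos
  have hρ : (ρ : ℂ) ≠ 0 := by exact_mod_cast hρ0.ne'
  obtain ⟨A, hA⟩ := exists_prim α χ hm
  -- a good ball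
  have hgood : ∀ᶠ y in 𝓝 y₁, y ∈ O ∧ ‖y - y₁‖ < 3 * ε ∧ AnalyticAt ℂ φ y ∧ (φ y ∈ X ∧ u (φ y) - y ∈ Λ) ∧ dist (pr (φ y)) (pr (φ y₁)) < ε := by
    have h1 : ∀ᶠ y in 𝓝 y₁, ‖y - y₁‖ < 3 * ε := by
      filter_upwards [ball_mem_nhds y₁ (show 0 < 3 * ε by positivity)] with y hy
      rwa [mem_ball, dist_eq_norm] at hy
    have h2 : ContinuousAt (fun y => pr (φ y)) y₁ :=
      ContinuousAt.comp (g := pr) (f := φ) (Pool.Agent.H62.EF.continuousAt_pr (hX0 _ hφ1)) hφ.continuousAt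
    have h3 : ∀ᶠ y in 𝓝 y₁, dist (pr (φ y)) (pr (φ y₁)) < ε := h2.tendsto.eventually (ball_mem_nhds _ hε)
    filter_upwards [hO.mem_nhds hy₁, h1, hφ.eventually_analyticAt, hφX, h3] with y a1 a2 a3 a4 a5
    exact ⟨a1, a2, a3, a4, a5⟩
  obtain ⟨η, hη, hηg⟩ := Metric.eventually_nhds_iff_ball.mp hgood
  have hcapφ : ∀ y ∈ ball y₁ η, φ y ∈ χ.U ∧ χ.q (φ y) ∈ closedBall (0 : Vd (k + 2)) 1 ∧ ms c ρ (χ.q (φ y)) = y := by
    intro y hy
    obtain ⟨h1, h2, h3, h4, h5⟩ := hηg y hy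
    refine hcap.cap y ?_ _ h4.1 h4.2 (by linarith)
    rw [mem_closedBall, dist_eq_norm]
    exact h2.le
  set π : Vd (k + 1) → Vd (k + 2) := fun y => χ.q (φ y) with hπdef
  have h1η : y₁ ∈ ball y₁ η := mem_ball_self hη
  have hπ : ∀ y ∈ ball y₁ η, AnalyticAt ℂ π y := fun y hy =>
    AnalyticAt.fun_comp (g := χ.q) (f := φ) (χ.q_an _ (hcapφ y hy).1) (hηg y hy).2.2.1
  have hπ2 : ∀ y ∈ ball y₁ η, π y ∈ ball (0 : Vd (k + 2)) 2 := fun y hy => closedBall_subset_ball (by norm_num) (hcapφ y hy).2.1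
  set p₁ : Vd (k + 2) := π y₁ with hp₁def
  have hp₁ : p₁ ∈ ball (0 : Vd (k + 2)) 2 := hπ2 y₁ h1η
  have hmsp : ms c ρ p₁ = y₁ := (hcapφ y₁ h1η).2.2
  have htl : ∀ p q : Vd (k + 2), ms c ρ p = ms c ρ q → tl p = tl q := by
    intro p q h
    have h1 : (ρ : ℂ) • tl p = (ρ : ℂ) • tl q := add_left_cancel h
    exact smul_right_injective _ hρ h1
  set a : Vd (k + 2) → ℂ := tc α χ (ms c ρ) with hadef
  have hlift : ∀ p ∈ ball (0 : Vd (k + 2)) 2, ∀ᶠ q in 𝓝 p, u (χ.σ q) - ms c ρ q ∈ Λ := by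
    intro p hp
    filter_upwards [isOpen_ball.mem_nhds hp] with q hq using hm.lift q hq
  have haan : ∀ p ∈ ball (0 : Vd (k + 2)) 2, AnalyticAt ℂ a p := fun p hp => tc_an α χ hp (ms_an c ρ p) (hlift p hp)
  set h : Vd (k + 2) → ℂ := fun p => A p - A (π (ms c ρ p)) with hhdef
  have hhan : ∀ p ∈ ball (0 : Vd (k + 2)) 2, ms c ρ p ∈ ball y₁ η → AnalyticAt ℂ h p := by
    intro p hp hpy
    have h3 : AnalyticAt ℂ (fun p : Vd (k + 2) => π (ms c ρ p)) p := AnalyticAt.fun_comp (hπ _ hpy) (ms_an c ρ p)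
    have h5 : AnalyticAt ℂ (fun p : Vd (k + 2) => A (π (ms c ρ p))) p := AnalyticAt.fun_comp (hA.an _ (hπ2 _ hpy)) h3
    exact (hA.an _ hp).sub h5
  have hms1 : ∀ᶠ p in 𝓝 p₁, ms c ρ p ∈ ball y₁ η := by
    have h1 := (ms_an c ρ p₁).continuousAt
    rw [ContinuousAt, hmsp] at h1
    exact h1.eventually (isOpen_ball.mem_nhds h1η)
  have hGan : AnalyticAt ℂ (fun p => h p * a p) p₁ := (hhan p₁ hp₁ (by rw [hmsp]; exact h1η)).mul (haan _ hp₁)
  have hG0 : ¬ ∀ᶠ p in 𝓝 p₁, h p * a p = 0 := by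
    intro hcon
    obtain ⟨s, hs, hsb⟩ := Metric.eventually_nhds_iff_ball.mp (hcon.and (hms1.and (isOpen_ball.mem_nhds hp₁)))
    have hthin' := hthin χ (ms c ρ) p₁ hp₁ (ms_an c ρ _) (hlift p₁ hp₁)
    obtain ⟨y, hy1, hy2⟩ := ((not_eventually.mp hthin').and_eventually (ball_mem_nhds p₁ hs)).exists
    have hy3 : y ∈ ball (0 : Vd (k + 2)) 2 := (hsb y hy2).2.2
    have hay : ∀ᶠ p in 𝓝 y, a p ≠ 0 := (haan y hy3).continuousAt.eventually_ne hy1
    have hhy : h =ᶠ[𝓝 y] 0 := by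
      filter_upwards [hay, isOpen_ball.mem_nhds hy2] with p h1 h2
      exact (mul_eq_zero.mp (hsb p h2).1).resolve_right h1
    have hhan' : AnalyticOnNhd ℂ h (ball p₁ s) := fun p hp => hhan p (hsb p hp).2.2 (hsb p hp).2.1
    have hzero := hhan'.eqOn_zero_of_preconnected_of_eventuallyEq_zero (convex_ball _ _).isPreconnected hy2 hhy
    -- the derivative in the direction of the coordinate `0`
    have hline : HasDerivAt (fun t : ℂ => y + t • (Pi.single 0 1 : Vd (k + 2))) (Pi.single 0 1 : Vd (k + 2)) 0 := by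
      have h1 := ((hasDerivAt_id (0 : ℂ)).smul_const (Pi.single 0 1 : Vd (k + 2))).const_add y
      rw [one_smul] at h1
      exact h1
    have hy0 : y + (0 : ℂ) • (Pi.single 0 1 : Vd (k + 2)) = y := by simp
    have h1 : HasFDerivAt A (fderiv ℂ A y) (y + (0 : ℂ) • (Pi.single 0 1 : Vd (k + 2))) := by
      rw [hy0]
      exact (hA.an y hy3).differentiableAt.hasFDerivAt
    have h2 : HasDerivAt (fun t : ℂ => A (y + t • (Pi.single 0 1 : Vd (k + 2)))) (fderiv ℂ A y (Pi.single 0 1)) 0 := h1.comp_hasDerivAt 0 hline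
    have h3 : (fun t : ℂ => A (y + t • (Pi.single 0 1 : Vd (k + 2)))) =ᶠ[𝓝 0] fun _ => A (π (ms c ρ y)) := by
      have h4 : ∀ᶠ t : ℂ in 𝓝 0, y + t • (Pi.single 0 1 : Vd (k + 2)) ∈ ball p₁ s := by
        have h5 := hline.continuousAt.tendsto
        rw [hy0] at h5
        exact h5.eventually (isOpen_ball.mem_nhds hy2)
      filter_upwards [h4] with t ht
      have h5 : h (y + t • (Pi.single 0 1 : Vd (k + 2))) = 0 := hzero ht
      have h6 : ms c ρ (y + t • (Pi.single 0 1 : Vd (k + 2))) = ms c ρ y := by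
        unfold ms
        have h7 : tl (y + t • (Pi.single 0 1 : Vd (k + 2))) = tl y := by
          funext i
          show (y + t • (Pi.single 0 1 : Vd (k + 2))) i.succ = y i.succ
          simp
        rw [h7]
      simp only [hhdef] at h5
      rw [h6] at h5
      exact sub_eq_zero.mp h5
    have h4 : HasDerivAt (fun t : ℂ => A (y + t • (Pi.single 0 1 : Vd (k + 2)))) 0 0 := (hasDerivAt_const (0 : ℂ) _).congr_of_eventuallyEq h3
    have h5 := h2.unique h4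
    rw [hA.der y hy3] at h5
    exact hy1 h5
  -- flatten the graph
  set s₁ : Vd (k + 1) := tl p₁ with hs₁def
  have hcs : ∀ p : Vd (k + 2), c + (ρ : ℂ) • tl p = ms c ρ p := fun p => rfl
  have hcs1 : c + (ρ : ℂ) • s₁ = y₁ := by rw [hs₁def, hcs, hmsp]
  have hsan : ∀ s : Vd (k + 1), AnalyticAt ℂ (fun s : Vd (k + 1) => c + (ρ : ℂ) • s) s := fun s =>
    analyticAt_const.add (AnalyticAt.fun_smul analyticAt_const analyticAt_id)
  set g : Vd (k + 1) → ℂ := fun s => π (c + (ρ : ℂ) • s) 0 with hgdef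
  have hgan : AnalyticAt ℂ g s₁ := by
    have h1 : AnalyticAt ℂ (fun s : Vd (k + 1) => π (c + (ρ : ℂ) • s)) s₁ :=
      AnalyticAt.fun_comp (g := π) (f := fun s : Vd (k + 1) => c + (ρ : ℂ) • s) (by rw [hcs1]; exact hπ y₁ h1η) (hsan s₁)
    exact (analyticAt_pi_iff.1 h1) 0
  have hg1 : g s₁ = p₁ 0 := by
    rw [hgdef]
    simp only []
    rw [hcs1]
  set T : Vd (k + 2) → Vd (k + 2) := fun p => Fin.cons (α := fun _ => ℂ) (p 0 + g (tl p)) (tl p) with hTdef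
  set T' : Vd (k + 2) → Vd (k + 2) := fun p => Fin.cons (α := fun _ => ℂ) (p 0 - g (tl p)) (tl p) with hT'def
  have hTT' : ∀ p, T (T' p) = p := by
    intro p
    funext i
    refine Fin.cases ?_ ?_ i
    · show p 0 - g (tl p) + g (tl p) = p 0
      ring
    · intro j
      rfl
  set q₁ : Vd (k + 2) := Fin.cons (α := fun _ => ℂ) 0 s₁ with hq₁def
  have htlq : tl q₁ = s₁ := rfl
  have hTq : T q₁ = p₁ := by
    funext i
    refine Fin.cases ?_ ?_ i
    · show (0 : ℂ) + g s₁ = p₁ 0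
      rw [zero_add, hg1]
    · intro j
      rfl
  have hT'p : T' p₁ = q₁ := by
    funext i
    refine Fin.cases ?_ ?_ i
    · show p₁ 0 - g s₁ = 0
      rw [hg1, sub_self]
    · intro j
      rfl
  have htlan : ∀ p : Vd (k + 2), AnalyticAt ℂ (fun p : Vd (k + 2) => tl p) p := by
    intro p
    rw [analyticAt_pi_iff]
    intro i
    exact (ContinuousLinearMap.proj (R := ℂ) (φ := fun _ : Fin (k + 2) => ℂ) i.succ).analyticAt p
  have hp0an : ∀ p : Vd (k + 2), AnalyticAt ℂ (fun p : Vd (k + 2) => p 0) p := fun p =>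
    (ContinuousLinearMap.proj (R := ℂ) (φ := fun _ : Fin (k + 2) => ℂ) 0).analyticAt p
  have hTan : AnalyticAt ℂ T q₁ := by
    rw [analyticAt_pi_iff]
    intro i
    refine Fin.cases ?_ ?_ i
    · have h1 : AnalyticAt ℂ (fun p : Vd (k + 2) => g (tl p)) q₁ := AnalyticAt.fun_comp (g := g) (f := fun p : Vd (k + 2) => tl p)
        (by rw [htlq]; exact hgan) (htlan q₁)
      exact (hp0an q₁).add h1
    · intro j
      exact (analyticAt_pi_iff.1 (htlan q₁)) j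
  have hT'c : ContinuousAt T' p₁ := by
    refine continuousAt_pi.2 fun i => ?_
    refine Fin.cases ?_ ?_ i
    · have h1 : ContinuousAt (fun p : Vd (k + 2) => g (tl p)) p₁ := ContinuousAt.comp (g := g) (f := fun p : Vd (k + 2) => tl p)
        hgan.continuousAt (htlan p₁).continuousAt
      exact (hp0an p₁).continuousAt.sub h1
    · intro j
      exact continuousAt_pi.1 (htlan p₁).continuousAt j
  have hG'an : AnalyticAt ℂ (fun q => h (T q) * a (T q)) q₁ := by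
    have h1 : AnalyticAt ℂ (fun p => h p * a p) (T q₁) := by rw [hTq]; exact hGan
    exact AnalyticAt.fun_comp (g := fun p => h p * a p) h1 hTan
  have hG'0 : ¬ ∀ᶠ q in 𝓝 q₁, h (T q) * a (T q) = 0 := by
    intro hcon
    apply hG0
    rw [← hT'p] at hcon
    filter_upwards [hT'c.eventually hcon] with p hp
    rwa [hTT'] at hp
  have hW : {s : Vd (k + 1) | c + (ρ : ℂ) • s ∈ ball y₁ η} ∈ 𝓝 s₁ := by
    have h1 := (hsan s₁).continuousAt
    rw [ContinuousAt, hcs1] at h1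
    exact h1.eventually (isOpen_ball.mem_nhds h1η)
  obtain ⟨s₂, hs₂, d, hd, hiso⟩ := exists_isolated hG'an hG'0 hW
  set y₀ : Vd (k + 1) := c + (ρ : ℂ) • s₂ with hy₀def
  have hy₀ : y₀ ∈ ball y₁ η := hs₂
  obtain ⟨-, -, hφan0, ⟨hφX0, -⟩, -⟩ := hηg y₀ hy₀
  -- nearby points
  have hU : {x : EN N | x ∈ χ.U ∧ ‖χ.q x - χ.q (φ y₀)‖ < d / 2} ∈ 𝓝 (φ y₀) := by
    have h1 := (hcapφ y₀ hy₀).1
    have h2 : ContinuousAt (fun x => ‖χ.q x - χ.q (φ y₀)‖) (φ y₀) := ((χ.q_an _ h1).continuousAt.sub continuousAt_const).norm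
    have h3 : ∀ᶠ x in 𝓝 (φ y₀), ‖χ.q x - χ.q (φ y₀)‖ < d / 2 := h2.eventually_lt_const (by simpa using hd)
    filter_upwards [χ.isOpen_U.mem_nhds h1, h3] with x a1 a2
    exact ⟨a1, a2⟩
  obtain ⟨d', hd', hnear⟩ := Pool.Agent.H62.EF.near_of_pr (hX0 _ hφX0) hU
  have hloc : ∀ᶠ y in 𝓝 y₀, y ∈ ball y₁ η ∧ dist (pr (φ y)) (pr (φ y₀)) < d' / 2 ∧ ‖π y - π y₀‖ < d / 2 ∧ ‖y - y₀‖ < ρ * d := by
    have h1 : ContinuousAt (fun y => pr (φ y)) y₀ :=
      ContinuousAt.comp (g := pr) (f := φ) (Pool.Agent.H62.EF.continuousAt_pr (hX0 _ hφX0)) hφan0.continuousAt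
    have h2 : ∀ᶠ y in 𝓝 y₀, dist (pr (φ y)) (pr (φ y₀)) < d' / 2 := h1.tendsto.eventually (ball_mem_nhds _ (half_pos hd'))
    have h3 : ∀ᶠ y in 𝓝 y₀, dist (π y) (π y₀) < d / 2 := (hπ y₀ hy₀).continuousAt.tendsto.eventually (ball_mem_nhds _ (half_pos hd))
    filter_upwards [isOpen_ball.mem_nhds hy₀, h2, h3, ball_mem_nhds y₀ (mul_pos hρ0 hd)] with y a1 a2 a3 a4
    rw [dist_eq_norm] at a3
    rw [mem_ball, dist_eq_norm] at a4
    exact ⟨a1, a2, a3, a4⟩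
  obtain ⟨r', hr', hr'b⟩ := Metric.eventually_nhds_iff_ball.mp hloc
  refine ⟨y₀, r', min ε₀ (min ε (d' / 2)), hr', lt_min hc.ε₀_pos (lt_min hε (half_pos hd')), ?_, ?_⟩
  · intro y hy
    exact (hηg y (hr'b y hy).1).1
  · intro y hy m hmF hdist hor
    obtain ⟨hyη, hyd, hyπ, hyρ⟩ := hr'b y hy
    obtain ⟨hy1, hy2, hy3, hy4, hy5⟩ := hηg y hyη
    obtain ⟨x, hx, hxm, hux⟩ := hmF
    have hyr : y ∈ closedBall y₁ (3 * ε) := by
      rw [mem_closedBall, dist_eq_norm]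
      exact hy2.le
    have hd1 : dist m (pr (φ y)) < ε₀ := lt_of_lt_of_le hdist (min_le_left _ _)
    have hd2 : dist m (pr (φ y)) < ε := lt_of_lt_of_le hdist ((min_le_right _ _).trans (min_le_left _ _))
    have hd3 : dist m (pr (φ y)) < d' / 2 := lt_of_lt_of_le hdist ((min_le_right _ _).trans (min_le_right _ _))
    have hxe : dist (pr x) (pr (φ y₁)) ≤ 3 * ε := by
      rw [hxm]
      have := dist_triangle m (pr (φ y)) (pr (φ y₁))
      linarith
    obtain ⟨hxU, hxq, hxc⟩ := hcap.cap y hyr _ hx hux hxe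
    have hpb : χ.q x ∈ ball (0 : Vd (k + 2)) 2 := closedBall_subset_ball (by norm_num) hxq
    have hprx : pr (χ.σ (χ.q x)) = m := by rw [pr_sigma_q χ hx hxU, hxm]
    -- `G (χ.q x) = 0`
    have hGz : h (χ.q x) * a (χ.q x) = 0 := by
      rcases hor with hII | hZ
      · have hrel' := hc.rel y (hOG hy1) (pr (φ y)) (mem_fb hy4.1 hy4.2) m ⟨x, hx, hxm, hux⟩ (by rw [dist_comm]; exact hd1.le) α
        have h1 := II_eq hX G.tor G.lat hrel' hcap hA hyr (by linarith) hy4.1 hx rfl hxm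
        rw [hII] at h1
        have h2 : A (χ.q x) - A (χ.q (φ y)) = 0 := by
          have h3 := h1.symm
          rcases div_eq_zero_iff.mp h3 with h4 | h4
          · exact h4
          · exact absurd h4 (pow_ne_zero _ hρ)
        have h3 : h (χ.q x) = 0 := by
          simp only [hhdef, hπdef]
          rw [hxc]
          exact h2
        rw [h3, zero_mul]
      · have h1 : Zr α (ms c ρ (χ.q x)) (pr (χ.σ (χ.q x))) := by
          rw [hxc, hprx]
          exact hZ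
        have h2 := (zr_iff hX G.tor α χ hpb (hm.lift _ hpb)).mp h1
        rw [hadef, h2, mul_zero]
    have htlx : c + (ρ : ℂ) • tl (χ.q x) = y := hxc
    have h1 := hiso (T' (χ.q x)) ?_ ?_ ?_
    · -- the conclusion
      have h2 : χ.q x 0 = π y 0 := by
        have h3 : χ.q x 0 - g (tl (χ.q x)) = 0 := h1
        have h4 : g (tl (χ.q x)) = π y 0 := by
          rw [hgdef]
          simp only []
          rw [htlx]
        rw [h4] at h3
        exact sub_eq_zero.1 h3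
      have h3 : tl (χ.q x) = tl (π y) := htl _ _ (by rw [hxc, (hcapφ y hyη).2.2])
      have h4 : χ.q x = χ.q (φ y) := by
        funext i
        refine Fin.cases h2 (fun j => ?_) i
        exact congrFun h3 j
      rw [← hprx, h4, pr_sigma_q χ hy4.1 (hcapφ y hyη).1]
    · show ‖χ.q x 0 - g (tl (χ.q x))‖ < d
      have h2 : g (tl (χ.q x)) = π y 0 := by
        rw [hgdef]
        simp only []
        rw [htlx]
      rw [h2]
      have h3 : ‖χ.q x - π y₀‖ < d / 2 := by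
        have h4 : dist (pr x) (pr (φ y₀)) < d' := by
          rw [hxm]
          have := dist_triangle m (pr (φ y)) (pr (φ y₀))
          linarith
        obtain ⟨κ, hκ, hκU⟩ := hnear _ (hX0 _ hx) h4
        have h5 := hκU.2
        rwa [χ.q_smul _ hxU κ hκ] at h5
      have h4 : ‖χ.q x - π y‖ < d := by
        have h5 : χ.q x - π y = (χ.q x - π y₀) - (π y - π y₀) := by abel
        rw [h5]
        have := norm_sub_le (χ.q x - π y₀) (π y - π y₀)
        linarith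
      exact (norm_le_pi_norm (χ.q x - π y) 0).trans_lt h4
    · show ‖tl (χ.q x) - s₂‖ < d
      have h2 : (ρ : ℂ) • (tl (χ.q x) - s₂) = y - y₀ := by
        rw [smul_sub, ← htlx, hy₀def]
        abel
      have h3 : ρ * ‖tl (χ.q x) - s₂‖ < ρ * d := by
        have h4 : ‖(ρ : ℂ) • (tl (χ.q x) - s₂)‖ = ρ * ‖tl (χ.q x) - s₂‖ := by
          rw [norm_smul, Complex.norm_real, Real.norm_of_nonneg hρ0.le]
        rw [← h4, h2]
        exact hyρ
      exact lt_of_mul_lt_mul_left h3 hρ0.le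
    · show h (T (T' (χ.q x))) * a (T (T' (χ.q x))) = 0
      rw [hTT']
      exact hGz

end Pool.Agent.TG

end
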