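import Pool.Agent.H94.G5T.M59
import Pool.Agent.H94.G5T.M62
import Pool.Agent.H94.G5T.M84
import Pool.Agent.H94.G5T.M97

/-! The parts of this file: G3.R.Mob, G3.R.ExN, G4.M.MDefs, G4.M.Low. -/

section

/-!
# G3 R Mob: automorphisms of the disc and the behaviour of the functional under compositions

`exists_mob`: `ψ z = r² (z + a) / (r² + ā z)`.
`pf_comp`: `deriv (F ∘ φ) z = deriv φ z • deriv F (φ z)` and `hP.hom` (`Cv.tan`).  The other statements follow (`(‖φ'‖ ^ m * p) ^ (1/m) = ‖φ'‖ * p ^ (1/m)`).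
-/

set_option autoImplicit false

open Topology Filter Metric

namespace Pool.Agent.G3

open Pool.Agent.H36.BP (EN fs wd Sub)
open Pool.Agent.H14.PP (IsCone CurveAt Tan)
open Pool.Agent.H62.EF (MN pr)
open Pool.Agent.AD (Vd Chart Charts)
open Pool.Agent.TG (TMap Lat Geo Gd)

variable {N k : ℕ} {X : Set (EN N)} {Λ : AddSubgroup (Vd (k + 1))} {u : EN N → Vd (k + 1)} {D : Set (Vd (k + 1))} {p : EN N → EN N → ℝ} {m d : ℕ} {C : ℝ} {Q : EN N → ℂ}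

theorem exists_mob {r : ℝ} (hr : 0 < r) {a : ℂ} (ha : ‖a‖ < r) : ∃ ψ : ℂ → ℂ, DifferentiableOn ℂ ψ (ball 0 r) ∧ Set.MapsTo ψ (ball 0 r) (ball 0 r) ∧ ψ 0 = a ∧
    ∀ z ∈ ball (0 : ℂ) r, deriv ψ z ≠ 0 ∧ ‖deriv ψ z‖ * (r ^ 2 - ‖z‖ ^ 2) = r ^ 2 - ‖ψ z‖ ^ 2 := by
  set q : ℂ → ℂ := fun z => (r : ℂ) ^ 2 + (starRingEnd ℂ) a * z with hq
  have hrc : (r : ℂ) ≠ 0 := by exact_mod_cast hr.ne'
  -- the denominator is not zero
  have hlt : ∀ z ∈ ball (0 : ℂ) r, ‖(starRingEnd ℂ) a * z‖ < r ^ 2 := fun z hz => by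
    rw [mem_ball_zero_iff] at hz
    rw [norm_mul, RCLike.norm_conj]
    have h1 : ‖a‖ * ‖z‖ ≤ r * ‖z‖ := mul_le_mul_of_nonneg_right ha.le (norm_nonneg z)
    nlinarith [norm_nonneg z, norm_nonneg a]
  have hne : ∀ z ∈ ball (0 : ℂ) r, q z ≠ 0 := fun z hz h0 => by
    have h1 := hlt z hz
    have h2 : (starRingEnd ℂ) a * z = -(r : ℂ) ^ 2 := by
      simp only [hq] at h0
      linear_combination h0
    rw [h2, norm_neg, norm_pow, Complex.norm_real, Real.norm_eq_abs, sq_abs] at h1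
    exact lt_irrefl _ h1
  have ha2 : 0 < r ^ 2 - ‖a‖ ^ 2 := by nlinarith [norm_nonneg a]
  -- the identity of norms
  have hid : ∀ z : ℂ, ‖q z‖ ^ 2 - r ^ 2 * ‖z + a‖ ^ 2 = (r ^ 2 - ‖z‖ ^ 2) * (r ^ 2 - ‖a‖ ^ 2) := fun z => by
    simp only [hq, ← Complex.normSq_eq_norm_sq, Complex.normSq_apply]
    have e1 : ((r : ℂ) ^ 2).re = r ^ 2 := by
      rw [← Complex.ofReal_pow, Complex.ofReal_re]
    have e2 : ((r : ℂ) ^ 2).im = 0 := by
      rw [← Complex.ofReal_pow, Complex.ofReal_im]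
    simp only [Complex.add_re, Complex.add_im, Complex.mul_re, Complex.mul_im, Complex.conj_re, Complex.conj_im, e1, e2]
    ring
  have hder : ∀ z ∈ ball (0 : ℂ) r, HasDerivAt (fun z => (r : ℂ) ^ 2 * (z + a) / q z) ((r : ℂ) ^ 2 * ((r : ℂ) ^ 2 - (starRingEnd ℂ) a * a) / q z ^ 2) z := fun z hz => by
    have h1 : HasDerivAt (fun z : ℂ => (r : ℂ) ^ 2 * (z + a)) ((r : ℂ) ^ 2 * 1) z := ((hasDerivAt_id z).add_const a).const_mul _
    have h2 : HasDerivAt q ((starRingEnd ℂ) a * 1) z := ((hasDerivAt_id z).const_mul _).const_add _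
    refine (h1.div h2 (hne z hz)).congr_deriv ?_
    congr 1
    simp only [hq]
    ring
  have hr2 : ‖(r : ℂ) ^ 2‖ = r ^ 2 := by
    rw [norm_pow, Complex.norm_real, Real.norm_eq_abs, sq_abs]
  have hval : ∀ z : ℂ, ‖(r : ℂ) ^ 2 * (z + a) / q z‖ = r ^ 2 * ‖z + a‖ / ‖q z‖ := fun z => by
    rw [norm_div, norm_mul, hr2]
  have hdv : ∀ z : ℂ, ‖(r : ℂ) ^ 2 * ((r : ℂ) ^ 2 - (starRingEnd ℂ) a * a) / q z ^ 2‖ = r ^ 2 * (r ^ 2 - ‖a‖ ^ 2) / ‖q z‖ ^ 2 := fun z => by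
    rw [norm_div, norm_mul, hr2, norm_pow]
    congr 2
    have h1 : (r : ℂ) ^ 2 - (starRingEnd ℂ) a * a = ((r ^ 2 - ‖a‖ ^ 2 : ℝ) : ℂ) := by
      rw [mul_comm, Complex.mul_conj, Complex.normSq_eq_norm_sq]
      push_cast
      ring
    rw [h1, Complex.norm_real, Real.norm_eq_abs, abs_of_pos ha2]
  refine ⟨fun z => (r : ℂ) ^ 2 * (z + a) / q z, fun z hz => (hder z hz).differentiableAt.differentiableWithinAt, fun z hz => ?_, ?_, fun z hz => ⟨?_, ?_⟩⟩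
  · have hq0 : 0 < ‖q z‖ := norm_pos_iff.2 (hne z hz)
    have hz' := hz
    rw [mem_ball_zero_iff] at hz' ⊢
    rw [hval, div_lt_iff₀ hq0]
    have h1 := hid z
    have h2 : 0 < (r ^ 2 - ‖z‖ ^ 2) * (r ^ 2 - ‖a‖ ^ 2) := mul_pos (by nlinarith [norm_nonneg z]) ha2
    have h3 : (r * ‖z + a‖) ^ 2 < ‖q z‖ ^ 2 := by
      rw [mul_pow]
      linarith
    have h4 : r * ‖z + a‖ < ‖q z‖ := lt_of_pow_lt_pow_left₀ 2 hq0.le h3
    calc r ^ 2 * ‖z + a‖ = r * (r * ‖z + a‖) := by ring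
      _ < r * ‖q z‖ := mul_lt_mul_of_pos_left h4 hr
  · simp only [hq]
    rw [mul_zero, add_zero, zero_add, mul_comm, mul_div_assoc, div_self (pow_ne_zero 2 hrc), mul_one]
  · rw [(hder z hz).deriv, ← norm_pos_iff, hdv]
    have hq0 : 0 < ‖q z‖ := norm_pos_iff.2 (hne z hz)
    positivity
  · rw [(hder z hz).deriv, hdv]
    have hq0 : 0 < ‖q z‖ := norm_pos_iff.2 (hne z hz)
    show r ^ 2 * (r ^ 2 - ‖a‖ ^ 2) / ‖q z‖ ^ 2 * (r ^ 2 - ‖z‖ ^ 2) = r ^ 2 - ‖(r : ℂ) ^ 2 * (z + a) / q z‖ ^ 2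
    rw [hval, div_pow, div_mul_eq_mul_div, div_eq_iff (by positivity), sub_mul, div_mul_cancel₀ _ (by positivity)]
    linear_combination (-r ^ 2) * hid z

private theorem deriv_comp_aux {U V : Set ℂ} (hU : IsOpen U) (hV : IsOpen V) {E : Type} [NormedAddCommGroup E] [NormedSpace ℂ E] {F : ℂ → E} (hF : DifferentiableOn ℂ F U)
    {φ : ℂ → ℂ} (hφ : DifferentiableOn ℂ φ V) (hm : Set.MapsTo φ V U) {z : ℂ} (hz : z ∈ V) :
    deriv (fun w => F (φ w)) z = deriv φ z • deriv F (φ z) := by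
  have h1 : DifferentiableAt ℂ F (φ z) := (hF _ (hm hz)).differentiableAt (hU.mem_nhds (hm hz))
  have h2 : DifferentiableAt ℂ φ z := (hφ _ hz).differentiableAt (hV.mem_nhds hz)
  exact (h1.hasDerivAt.scomp z h2.hasDerivAt).deriv

theorem deriv_h_comp {U V : Set ℂ} (hU : IsOpen U) (hV : IsOpen V) {F : ℂ → EN N} {h : ℂ → Vd (k + 1)} (hF : Cv X Λ u U F h) {φ : ℂ → ℂ}
    (hφ : DifferentiableOn ℂ φ V) (hm : Set.MapsTo φ V U) {z : ℂ} (hz : z ∈ V) : ‖deriv (fun w => h (φ w)) z‖ = ‖deriv φ z‖ * ‖deriv h (φ z)‖ := by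
  rw [deriv_comp_aux hU hV hF.h_diff hφ hm hz, norm_smul]

theorem pf_comp (hP : PS X Λ u D p m C) {U V : Set ℂ} (hU : IsOpen U) (hV : IsOpen V) {F : ℂ → EN N} {h : ℂ → Vd (k + 1)} (hF : Cv X Λ u U F h) {φ : ℂ → ℂ}
    (hφ : DifferentiableOn ℂ φ V) (hm : Set.MapsTo φ V U) {z : ℂ} (hz : z ∈ V) : pf p (fun w => F (φ w)) z = ‖deriv φ z‖ ^ m * pf p F (φ z) := by
  unfold pf
  rw [deriv_comp_aux hU hV hF.F_diff hφ hm hz]
  exact hP.hom _ (hF.mem _ (hm hz)) _ (hF.tan hU (hm hz)) _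

theorem ok_comp (hP : PS X Λ u D p m C) {U V : Set ℂ} (hU : IsOpen U) (hV : IsOpen V) {F : ℂ → EN N} {h : ℂ → Vd (k + 1)} (hF : Cv X Λ u U F h) {φ : ℂ → ℂ}
    (hφ : DifferentiableOn ℂ φ V) (hm : Set.MapsTo φ V U) {z : ℂ} (hz : z ∈ V) (hd : deriv φ z ≠ 0) : Ok Q p (fun w => F (φ w)) z ↔ Ok Q p F (φ z) := by
  unfold Ok
  rw [pf_comp hP hU hV hF hφ hm hz]
  have h1 : 0 < ‖deriv φ z‖ ^ m := pow_pos (norm_pos_iff.2 hd) m
  exact and_congr_right fun _ => mul_pos_iff_of_pos_left h1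

theorem lam_comp (hP : PS X Λ u D p m C) {U V : Set ℂ} (hU : IsOpen U) (hV : IsOpen V) {F : ℂ → EN N} {h : ℂ → Vd (k + 1)} (hF : Cv X Λ u U F h) {φ : ℂ → ℂ}
    (hφ : DifferentiableOn ℂ φ V) (hm : Set.MapsTo φ V U) {z : ℂ} (hz : z ∈ V) (hd : deriv φ z ≠ 0) :
    Lam Q d p m (fun w => F (φ w)) (fun w => h (φ w)) z = Lam Q d p m F h (φ z) := by
  have h1 : ‖deriv φ z‖ ^ m ≠ 0 := (pow_pos (norm_pos_iff.2 hd) m).ne'
  unfold Lam Np
  rw [pf_comp hP hU hV hF hφ hm hz, deriv_h_comp hU hV hF hφ hm hz, mul_pow, mul_div_mul_left _ _ h1]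

theorem mf_comp (hP : PS X Λ u D p m C) {U V : Set ℂ} (hU : IsOpen U) (hV : IsOpen V) {F : ℂ → EN N} {h : ℂ → Vd (k + 1)} (hF : Cv X Λ u U F h) {φ : ℂ → ℂ}
    (hφ : DifferentiableOn ℂ φ V) (hm : Set.MapsTo φ V U) {z : ℂ} (hz : z ∈ V) {ε : ℝ} (hε : 0 < ε) :
    Mf p m ε (fun w => F (φ w)) (fun w => h (φ w)) z = ‖deriv φ z‖ * Mf p m ε F h (φ z) := by
  have hm0 : m ≠ 0 := by
    have := hP.m_pos
    omega
  have h0 : 0 ≤ pf p F (φ z) := hP.nonneg _ _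
  unfold Mf
  rw [pf_comp hP hU hV hF hφ hm hz, deriv_h_comp hU hV hF hφ hm hz, Real.mul_rpow (by positivity) h0, one_div,
    Real.pow_rpow_inv_natCast (norm_nonneg _) hm0, mul_max_of_nonneg _ _ (norm_nonneg _)]
  congr 1
  ring

end Pool.Agent.G3

end

section

/-!
# G3 R ExN: existence of normalised curves

Plan.  `exists_max` with `r = 1/2` gives `w`; since `0 < Mf 0` also `0 < Mf w` (take `z = 0`).  `exists_mob` (`r = 1/2`, `a = w`) gives `ψ`; `F₁ = F ∘ ψ`, `h₁ = h ∘ ψ` on `ball 0 (1/2)`,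
`(r² - |z|²) Mf₁ z = (r² - |ψ z|²) Mf (ψ z)`, so the function of `exists_max` is maximal at `0` for `F₁`.  `t = Mf₁ 0 > 0`, `F' z = F₁ (z / t)`, `R = t / 2`.
Last inequality: `R² / (A + Lam' 0) = r² Mf₁ 0 ² / (A + Lam w) = (r² - |w|²)² Mf w ² / (r² (A + Lam w)) ≥ r² Mf 0 ² / (A + Lam 0)`.
-/

set_option autoImplicit false

open Topology Filter Metric

namespace Pool.Agent.G3

open Pool.Agent.H36.BP (EN fs wd Sub)
open Pool.Agent.H14.PP (IsCone CurveAt Tan)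
open Pool.Agent.H62.EF (MN pr)
open Pool.Agent.AD (Vd Chart Charts)
open Pool.Agent.TG (TMap Lat Geo Gd)

variable {N k : ℕ} {X : Set (EN N)} {Λ : AddSubgroup (Vd (k + 1))} {u : EN N → Vd (k + 1)} {D : Set (Vd (k + 1))} {p : EN N → EN N → ℝ} {m d : ℕ} {C : ℝ} {Q : EN N → ℂ}

theorem exists_nrm (hX : IsCone X) (hP : PS X Λ u D p m C) (hQ : QD X Λ u D Q d) {ε A : ℝ} (hε : 0 < ε) (hA : 0 < A) {F : ℂ → EN N} {h : ℂ → Vd (k + 1)}
    (hF : Cv X Λ u (ball 0 1) F h) (h0 : Ok Q p F 0) (hM : 0 < Mf p m ε F h 0) :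
    ∃ (R : ℝ) (F' : ℂ → EN N) (h' : ℂ → Vd (k + 1)), Nrm X Λ u Q d p m ε A R F' h' ∧
      Mf p m ε F h 0 ^ 2 * (A + Lam Q d p m F' h' 0) ≤ 4 * R ^ 2 * (A + Lam Q d p m F h 0) := by
  have hr : (0 : ℝ) < 1 / 2 := by norm_num
  obtain ⟨w, hw, hokw, hmax⟩ := exists_max hX hP hQ (ε := ε) (A := A) hε hA hF h0 (r := 1 / 2) hr (by norm_num)
  have hw' : ‖w‖ < 1 / 2 := by simpa using hw
  obtain ⟨ψ, hψd, hψm, hψ0, hψ⟩ := exists_mob hr hw'
  have hsub : ball (0 : ℂ) (1 / 2) ⊆ ball 0 1 := ball_subset_ball (by norm_num)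
  have h00 : (0 : ℂ) ∈ ball (0 : ℂ) (1 / 2) := mem_ball_self hr
  have h0m := hmax 0 h00 h0
  have hL0 := (lam_nonneg (p := p) (m := m) (h := h) hX hQ (hF.mem 0 (hsub h00)) h0.1).2.2
  have hLw := (lam_nonneg (p := p) (m := m) (h := h) hX hQ (hF.mem w (hsub hw)) hokw.1).2.2
  have hMw0 : 0 ≤ Mf p m ε F h w := le_max_of_le_left (norm_nonneg _)
  have hMw : 0 < Mf p m ε F h w := by
    refine lt_of_le_of_ne hMw0 fun he => ?_
    rw [← he] at h0m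
    have h1 : 0 < ((1 / 2 : ℝ) ^ 2 - ‖(0 : ℂ)‖ ^ 2) ^ 2 * Mf p m ε F h 0 ^ 2 * (A + Lam Q d p m F h w) := by
      rw [norm_zero]
      have h2 : 0 < A + Lam Q d p m F h w := by linarith
      have h3 : 0 < Mf p m ε F h 0 ^ 2 := by positivity
      have h4 : (0 : ℝ) < ((1 / 2 : ℝ) ^ 2 - 0 ^ 2) ^ 2 := by norm_num
      positivity
    have h5 : ((1 / 2 : ℝ) ^ 2 - ‖w‖ ^ 2) ^ 2 * (0 : ℝ) ^ 2 * (A + Lam Q d p m F h 0) = 0 := by ring
    linarith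
  obtain ⟨hd0, hd1⟩ := hψ 0 h00
  have hS : 0 < (1 / 2 : ℝ) ^ 2 - ‖w‖ ^ 2 := by nlinarith [norm_nonneg w]
  rw [hψ0, norm_zero] at hd1
  set S : ℝ := (1 / 2 : ℝ) ^ 2 - ‖w‖ ^ 2 with hSdef
  set M : ℝ := Mf p m ε F h w with hM'
  have hd2 : ‖deriv ψ 0‖ = 4 * S := by
    have h1 : ‖deriv ψ 0‖ * ((1 / 2 : ℝ) ^ 2 - 0 ^ 2) = ‖deriv ψ 0‖ / 4 := by ring
    rw [h1] at hd1
    linarith
  set t : ℝ := 4 * S * M with ht
  have ht0 : 0 < t := by positivity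
  have htc : (t : ℂ) ≠ 0 := by exact_mod_cast ht0.ne'
  have hR : 0 < t / 2 := by positivity
  -- the scaling
  have hsc : Set.MapsTo (fun z : ℂ => z / t) (ball 0 (t / 2)) (ball 0 (1 / 2)) := by
    intro z hz
    rw [mem_ball_zero_iff] at hz ⊢
    rw [norm_div, Complex.norm_real, Real.norm_of_nonneg ht0.le, div_lt_iff₀ ht0]
    linarith
  have hφd : DifferentiableOn ℂ (fun z : ℂ => ψ (z / t)) (ball 0 (t / 2)) :=
    hψd.comp (differentiableOn_id.div_const _) hsc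
  have hφm' : Set.MapsTo (fun z : ℂ => ψ (z / t)) (ball 0 (t / 2)) (ball 0 (1 / 2)) := fun z hz => hψm (hsc hz)
  have hφm : Set.MapsTo (fun z : ℂ => ψ (z / t)) (ball 0 (t / 2)) (ball 0 1) := fun z hz => hsub (hφm' hz)
  have hφ' : ∀ z ∈ ball (0 : ℂ) (t / 2), deriv (fun z : ℂ => ψ (z / t)) z = deriv ψ (z / t) / t := by
    intro z hz
    have h1 : HasDerivAt ψ (deriv ψ (z / t)) (z / t) :=
      (hψd.differentiableAt (isOpen_ball.mem_nhds (hsc hz))).hasDerivAt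
    have h2 : HasDerivAt (fun z : ℂ => z / t) (1 / (t : ℂ)) z := (hasDerivAt_id z).div_const _
    have h3 := h1.comp z h2
    have h4 := h3.deriv
    have h5 : (ψ ∘ fun z : ℂ => z / t) = fun z : ℂ => ψ (z / t) := rfl
    rw [h5] at h4
    rw [h4]
    ring
  have hφn : ∀ z ∈ ball (0 : ℂ) (t / 2), deriv (fun z : ℂ => ψ (z / t)) z ≠ 0 := by
    intro z hz
    rw [hφ' z hz]
    exact div_ne_zero (hψ _ (hsc hz)).1 htc
  have hnorm : ∀ z ∈ ball (0 : ℂ) (t / 2), ‖deriv (fun z : ℂ => ψ (z / t)) z‖ * (1 - ‖z‖ ^ 2 / (t / 2) ^ 2) * t = 4 * ((1 / 2 : ℝ) ^ 2 - ‖ψ (z / t)‖ ^ 2) := by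
    intro z hz
    rw [hφ' z hz, ← (hψ _ (hsc hz)).2, norm_div, norm_div, Complex.norm_real, Real.norm_of_nonneg ht0.le]
    field_simp
    ring
  have hb0 : (0 : ℂ) ∈ ball (0 : ℂ) (t / 2) := mem_ball_self hR
  have hz0 : ψ ((0 : ℂ) / t) = w := by rw [zero_div, hψ0]
  have hmfc : ∀ z ∈ ball (0 : ℂ) (t / 2), Mf p m ε (fun w => F (ψ (w / t))) (fun w => h (ψ (w / t))) z =
      ‖deriv (fun z : ℂ => ψ (z / t)) z‖ * Mf p m ε F h (ψ (z / t)) := fun z hz =>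
    mf_comp hP isOpen_ball isOpen_ball hF hφd hφm hz hε
  have hlamc : ∀ z ∈ ball (0 : ℂ) (t / 2), Lam Q d p m (fun w => F (ψ (w / t))) (fun w => h (ψ (w / t))) z =
      Lam Q d p m F h (ψ (z / t)) := fun z hz =>
    lam_comp hP isOpen_ball isOpen_ball hF hφd hφm hz (hφn z hz)
  have hokc : ∀ z ∈ ball (0 : ℂ) (t / 2), (Ok Q p (fun w => F (ψ (w / t))) z ↔ Ok Q p F (ψ (z / t))) := fun z hz =>
    ok_comp hP isOpen_ball isOpen_ball hF hφd hφm hz (hφn z hz)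
  refine ⟨t / 2, fun z => F (ψ (z / t)), fun z => h (ψ (z / t)), ⟨hR, hA, hF.comp hφd hφm, ?_, ?_, ?_⟩, ?_⟩
  · rw [hokc 0 hb0, hz0]
    exact hokw
  · rw [hmfc 0 hb0, hz0, hφ' 0 hb0, norm_div, zero_div, hd2, Complex.norm_real, Real.norm_of_nonneg ht0.le, ← hM', div_mul_eq_mul_div, ← ht, div_self ht0.ne']
  · intro z hz hok
    rw [hokc z hz] at hok
    have h1 := hmax _ (hφm' hz) hok
    have h2 := hnorm z hz
    rw [hmfc z hz, hlamc z hz, hlamc 0 hb0, hz0]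
    have h3 : t ^ 2 * ((‖deriv (fun z : ℂ => ψ (z / t)) z‖ * Mf p m ε F h (ψ (z / t))) ^ 2 * (1 - ‖z‖ ^ 2 / (t / 2) ^ 2) ^ 2 * (A + Lam Q d p m F h w)) =
        16 * (((1 / 2 : ℝ) ^ 2 - ‖ψ (z / t)‖ ^ 2) ^ 2 * Mf p m ε F h (ψ (z / t)) ^ 2 * (A + Lam Q d p m F h w)) := by
      have h4 : t ^ 2 * ((‖deriv (fun z : ℂ => ψ (z / t)) z‖ * Mf p m ε F h (ψ (z / t))) ^ 2 * (1 - ‖z‖ ^ 2 / (t / 2) ^ 2) ^ 2 * (A + Lam Q d p m F h w)) =
        (‖deriv (fun z : ℂ => ψ (z / t)) z‖ * (1 - ‖z‖ ^ 2 / (t / 2) ^ 2) * t) ^ 2 * Mf p m ε F h (ψ (z / t)) ^ 2 * (A + Lam Q d p m F h w) := by ring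
      rw [h4, h2]
      ring
    have h5 : 16 * (S ^ 2 * M ^ 2 * (A + Lam Q d p m F h (ψ (z / t)))) = t ^ 2 * (A + Lam Q d p m F h (ψ (z / t))) := by
      rw [ht]
      ring
    have h6 : 0 < t ^ 2 := by positivity
    refine le_of_mul_le_mul_left ?_ h6
    rw [h3, ← h5]
    exact mul_le_mul_of_nonneg_left h1 (by norm_num)
  · rw [hlamc 0 hb0, hz0]
    rw [norm_zero] at h0m
    have h7 : 4 * (t / 2) ^ 2 * (A + Lam Q d p m F h 0) = 16 * (S ^ 2 * M ^ 2 * (A + Lam Q d p m F h 0)) := by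
      rw [ht]
      ring
    rw [h7]
    have h8 : Mf p m ε F h 0 ^ 2 * (A + Lam Q d p m F h w) = 16 * (((1 / 2 : ℝ) ^ 2 - 0 ^ 2) ^ 2 * Mf p m ε F h 0 ^ 2 * (A + Lam Q d p m F h w)) := by
      ring
    rw [h8]
    exact mul_le_mul_of_nonneg_left h0m (by norm_num)

end Pool.Agent.G3

end

section

/-!
# G4 M MDefs: negatively curved functions on the tangent vectors, on the cone

`FinM X Λ u D p m C`: the function `p` on the tangent vectors of the projective variety (`X` is the cone) is continuous, homogeneous of degree `m`, positive outside `D`, and for every holomorphic curve `F` over `h` the function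
`log p (F, F') - log |F| + C ∑ |h i|²` satisfies the mean value inequality; the zeros of `p (F, F')` are isolated.
-/

set_option autoImplicit false

open Topology Filter Metric

namespace Pool.Agent.G4.M

open Pool.Agent.H36.BP (EN fs wd Sub)
open Pool.Agent.H14.PP (IsCone CurveAt Tan)
open Pool.Agent.AD (Vd)
open Pool.Agent.G3 (Cv pf)

variable {N k : ℕ}

/-- negatively curved functions on the tangent vectors -/
structure FinM (X : Set (EN N)) (Λ : AddSubgroup (Vd (k + 1))) (u : EN N → Vd (k + 1)) (D : Set (Vd (k + 1))) (p : EN N → EN N → ℝ) (m : ℕ) (C : ℝ) : Prop where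
  m_pos : 1 ≤ m
  C_nonneg : 0 ≤ C
  nonneg : ∀ x v, 0 ≤ p x v
  hom : ∀ x ∈ X, ∀ v, Tan X x v → ∀ a b c : ℂ, c ≠ 0 → p (c • x) (c • (a • v + b • x)) = ‖a‖ ^ m * p x v
  cont : ContinuousOn (fun q : EN N × EN N => p q.1 q.2) {q | q.1 ∈ X ∧ Tan X q.1 q.2}
  pos : ∀ y ∉ D, ∀ x ∈ X, u x - y ∈ Λ → ∀ v, Tan X x v → p x v = 0 → ∃ c : ℂ, v = c • x
  mean : ∀ (U : Set ℂ) (F : ℂ → EN N) (h : ℂ → Vd (k + 1)), IsOpen U → Cv X Λ u U F h → ∀ (z : ℂ) (r : ℝ), 0 < r → closedBall z r ⊆ U → 0 < pf p F z →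
    CircleIntegrable (fun w => Real.log (pf p F w) - Real.log ‖F w‖ + C * ∑ i, ‖h w i‖ ^ 2) z r ∧
    Real.log (pf p F z) - Real.log ‖F z‖ + C * ∑ i, ‖h z i‖ ^ 2 ≤ Real.circleAverage (fun w => Real.log (pf p F w) - Real.log ‖F w‖ + C * ∑ i, ‖h w i‖ ^ 2) z r
  isol : ∀ (U : Set ℂ) (F : ℂ → EN N) (h : ℂ → Vd (k + 1)), IsOpen U → Cv X Λ u U F h → IsPreconnected U → (∃ z ∈ U, 0 < pf p F z) →
    ∀ z ∈ U, ∀ᶠ w in 𝓝[≠] z, 0 < pf p F w

end Pool.Agent.G4.M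

end

section

/-!
# G4 M Low: comparison of `p` with the Fubini-Study length

As `G3/PS/Low`: in a chart `χ` the function `LowG p χ q w = p (χ.σ q) (dσ_q w)` is continuous in `(q, w)`, homogeneous in `w`; compactness of the unit sphere and of `X ∩ sphere`.
-/

set_option autoImplicit false

open Topology Filter Metric

namespace Pool.Agent.G4.M

open Pool.Agent.H36.BP (EN fs wd Sub)
open Pool.Agent.H14.PP (IsCone CurveAt Tan)
open Pool.Agent.H62.EF (MN pr)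
open Pool.Agent.AD (Vd Chart Charts)
open Pool.Agent.TG (TMap Lat Geo Gd)

variable {N k : ℕ} {X : Set (EN N)} {Λ : AddSubgroup (Vd (k + 1))} {u : EN N → Vd (k + 1)} {D : Set (Vd (k + 1))} {m : ℕ} {p : EN N → EN N → ℝ} {C₀ : ℝ}

/-- the value of `p` in a chart -/
private noncomputable def LowG (p : EN N → EN N → ℝ) (χ : Chart (k + 2) X) (q w : Vd (k + 2)) : ℝ := p (χ.σ q) (fderiv ℂ χ.σ q w)

private theorem Low_tan_smul (hX : IsCone X) {x v : EN N} (h : Tan X x v) {c : ℂ} (hc : c ≠ 0) : Tan X (c • x) (c • v) := by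
  obtain ⟨F, hF, hF0, hFd⟩ := h
  refine ⟨fun z => c • F z, ⟨AnalyticAt.fun_smul analyticAt_const hF.1, ?_⟩, ?_, ?_⟩
  · filter_upwards [hF.2] with z hz
    exact hX.smul_mem _ hz c hc
  · show c • F 0 = c • x
    rw [hF0]
  · have h1 : HasDerivAt (fun z => c • F z) (c • deriv F 0) 0 :=
      hF.1.differentiableAt.hasDerivAt.const_smul c
    rw [h1.deriv, hFd]

private theorem Low_eq (hX : IsCone X) (hP : FinM X Λ u D p m C₀) (χ : Chart (k + 2) X) {x : EN N} (hx : x ∈ X) (hU : x ∈ χ.U) {v : EN N} (hv : Tan X x v) :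
    p x v = LowG p χ (χ.q x) (fderiv ℂ χ.q x v) := by
  obtain ⟨c, a, hc, hxc, hvc⟩ := Pool.Agent.TG.tan_decomp hX χ hx hU hv
  have hb : χ.q x ∈ ball (0 : Vd (k + 2)) 2 := (χ.surj x hx hU).1
  have hσX : χ.σ (χ.q x) ∈ X := (χ.σ_mem _ hb).1
  have htσ : Tan X (χ.σ (χ.q x)) (fderiv ℂ χ.σ (χ.q x) (fderiv ℂ χ.q x v)) := Pool.Agent.TG.tan_sigma χ hb _
  have h1 := hP.hom _ hσX _ htσ 1 a c hc
  rw [norm_one, one_pow, one_mul, one_smul] at h1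
  have h2 : v = c • (fderiv ℂ χ.σ (χ.q x) (fderiv ℂ χ.q x v) + a • χ.σ (χ.q x)) := by
    conv_lhs => rw [hvc]
    rw [smul_add, smul_comm c a, ← hxc]
  unfold LowG
  rw [← h1, ← hxc, ← h2]

private theorem Low_hom (hP : FinM X Λ u D p m C₀) (χ : Chart (k + 2) X) {q : Vd (k + 2)} (hb : q ∈ ball (0 : Vd (k + 2)) 2) (w : Vd (k + 2)) (t : ℂ) :
    LowG p χ q (t • w) = ‖t‖ ^ m * LowG p χ q w := by
  have hσX : χ.σ q ∈ X := (χ.σ_mem _ hb).1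
  have h1 := hP.hom _ hσX _ (Pool.Agent.TG.tan_sigma χ hb w) t 0 1 one_ne_zero
  rw [one_smul, one_smul, zero_smul, add_zero] at h1
  unfold LowG
  rw [map_smul, h1]

private theorem Low_cont (hP : FinM X Λ u D p m C₀) (χ : Chart (k + 2) X) {q : Vd (k + 2)} (hb : q ∈ ball (0 : Vd (k + 2)) 2) (w : Vd (k + 2)) :
    ContinuousAt (fun z : Vd (k + 2) × Vd (k + 2) => LowG p χ z.1 z.2) (q, w) := by
  have hfst : ContinuousAt (fun z : Vd (k + 2) × Vd (k + 2) => z.1) (q, w) := continuousAt_fst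
  have h2 : ContinuousAt (fun z : Vd (k + 2) × Vd (k + 2) => χ.σ z.1) (q, w) :=
    ContinuousAt.comp (f := fun z : Vd (k + 2) × Vd (k + 2) => z.1) (g := χ.σ) (χ.σ_an q hb).continuousAt hfst
  have h3 : ContinuousAt (fun z : Vd (k + 2) × Vd (k + 2) => fderiv ℂ χ.σ z.1) (q, w) :=
    ContinuousAt.comp (f := fun z : Vd (k + 2) × Vd (k + 2) => z.1) (g := fderiv ℂ χ.σ) (χ.σ_an q hb).fderiv.continuousAt hfst
  have h4 : ContinuousAt (fun z : Vd (k + 2) × Vd (k + 2) => fderiv ℂ χ.σ z.1 z.2) (q, w) := h3.clm_apply continuousAt_snd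
  have h5 : ContinuousAt (fun z : Vd (k + 2) × Vd (k + 2) => (χ.σ z.1, fderiv ℂ χ.σ z.1 z.2)) (q, w) := h2.prodMk h4
  have hev : ∀ᶠ z in 𝓝 (q, w), (χ.σ z.1, fderiv ℂ χ.σ z.1 z.2) ∈ {q : EN N × EN N | q.1 ∈ X ∧ Tan X q.1 q.2} := by
    have h6 : ∀ᶠ z : Vd (k + 2) × Vd (k + 2) in 𝓝 (q, w), z.1 ∈ ball (0 : Vd (k + 2)) 2 := hfst.eventually (isOpen_ball.mem_nhds hb)
    filter_upwards [h6] with z hz
    exact ⟨(χ.σ_mem _ hz).1, Pool.Agent.TG.tan_sigma χ hz z.2⟩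
  have h7 := hP.cont (χ.σ q, fderiv ℂ χ.σ q w) ⟨(χ.σ_mem _ hb).1, Pool.Agent.TG.tan_sigma χ hb w⟩
  exact h7.tendsto.comp (tendsto_nhdsWithin_iff.2 ⟨h5, hev⟩)

private theorem Low_nonneg (hP : FinM X Λ u D p m C₀) (χ : Chart (k + 2) X) (q w : Vd (k + 2)) : 0 ≤ LowG p χ q w := hP.nonneg _ _

/-- the local upper bound in the chart -/
private theorem Low_upper (hP : FinM X Λ u D p m C₀) (χ : Chart (k + 2) X) {q : Vd (k + 2)}
    (hb : q ∈ ball (0 : Vd (k + 2)) 2) :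
    ∃ C : ℝ, ∀ᶠ s in 𝓝 q, ∀ w ∈ sphere (0 : Vd (k + 2)) 1, LowG p χ s w ≤ C := by
  refine (isCompact_sphere (0 : Vd (k + 2)) 1).induction_on
    (p := fun S : Set (Vd (k + 2)) => ∃ C : ℝ, ∀ᶠ s in 𝓝 q, ∀ w ∈ S, LowG p χ s w ≤ C) ?_ ?_ ?_ ?_
  · exact ⟨0, Filter.Eventually.of_forall fun p w hw => absurd hw (Set.notMem_empty w)⟩
  · rintro S T hST ⟨C, hC⟩
    exact ⟨C, hC.mono fun p hp w hw => hp w (hST hw)⟩
  · rintro S T ⟨C, hC⟩ ⟨C', hC'⟩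
    refine ⟨max C C', ?_⟩
    filter_upwards [hC, hC'] with p h1 h2 w hw
    rcases hw with hw | hw
    · exact (h1 w hw).trans (le_max_left _ _)
    · exact (h2 w hw).trans (le_max_right _ _)
  · intro w _
    have h1 := Low_cont hP χ hb w
    have h2 : ∀ᶠ z in 𝓝 ((q, w) : Vd (k + 2) × Vd (k + 2)), LowG p χ z.1 z.2 < LowG p χ q w + 1 :=
      h1.eventually_lt_const (by show LowG p χ q w < LowG p χ q w + 1; linarith)
    rw [nhds_prod_eq] at h2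
    obtain ⟨pa, hpa, pb, hpb, hab⟩ := Filter.eventually_prod_iff.mp h2
    exact ⟨{w' | pb w'}, mem_nhdsWithin_of_mem_nhds hpb, LowG p χ q w + 1, hpa.mono fun p hp w' hw' => (hab hp hw').le⟩

/-- the local lower bound in the chart -/
private theorem Low_lower (hP : FinM X Λ u D p m C₀) (χ : Chart (k + 2) X) {q : Vd (k + 2)}
    (hb : q ∈ ball (0 : Vd (k + 2)) 2)
    (hpos : ∀ w ∈ sphere (0 : Vd (k + 2)) 1, 0 < LowG p χ q w) :
    ∃ c : ℝ, 0 < c ∧ ∀ᶠ s in 𝓝 q, ∀ w ∈ sphere (0 : Vd (k + 2)) 1, c ≤ LowG p χ s w := by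
  refine (isCompact_sphere (0 : Vd (k + 2)) 1).induction_on
    (p := fun S : Set (Vd (k + 2)) => ∃ c : ℝ, 0 < c ∧ ∀ᶠ s in 𝓝 q, ∀ w ∈ S, c ≤ LowG p χ s w) ?_ ?_ ?_ ?_
  · exact ⟨1, one_pos, Filter.Eventually.of_forall fun p w hw => absurd hw (Set.notMem_empty w)⟩
  · rintro S T hST ⟨C, hC0, hC⟩
    exact ⟨C, hC0, hC.mono fun p hp w hw => hp w (hST hw)⟩
  · rintro S T ⟨C, hC0, hC⟩ ⟨C', hC0', hC'⟩
    refine ⟨min C C', lt_min hC0 hC0', ?_⟩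
    filter_upwards [hC, hC'] with p h1 h2 w hw
    rcases hw with hw | hw
    · exact (min_le_left _ _).trans (h1 w hw)
    · exact (min_le_right _ _).trans (h2 w hw)
  · intro w hw
    have h0 := hpos w hw
    have h1 := Low_cont hP χ hb w
    have h2 : ∀ᶠ z in 𝓝 ((q, w) : Vd (k + 2) × Vd (k + 2)), LowG p χ q w / 2 < LowG p χ z.1 z.2 :=
      h1.eventually_const_lt (by show LowG p χ q w / 2 < LowG p χ q w; linarith)
    rw [nhds_prod_eq] at h2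
    obtain ⟨pa, hpa, pb, hpb, hab⟩ := Filter.eventually_prod_iff.mp h2
    exact ⟨{w' | pb w'}, mem_nhdsWithin_of_mem_nhds hpb, LowG p χ q w / 2, by linarith, hpa.mono fun p hp w' hw' => (hab hp hw').le⟩

private theorem Low_norm {w : Vd (k + 2)} (hw : w ≠ 0) : ∃ w' ∈ sphere (0 : Vd (k + 2)) 1, w = ((‖w‖ : ℝ) : ℂ) • w' := by
  have hn : ‖w‖ ≠ 0 := norm_ne_zero_iff.mpr hw
  have hn' : ((‖w‖ : ℝ) : ℂ) ≠ 0 := by exact_mod_cast hn
  refine ⟨(((‖w‖ : ℝ) : ℂ))⁻¹ • w, ?_, ?_⟩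
  · rw [mem_sphere_zero_iff_norm, norm_smul, norm_inv, Complex.norm_real, norm_norm]
    exact inv_mul_cancel₀ hn
  · rw [smul_inv_smul₀ hn']

/-- invariance under scaling -/
private theorem Low_scale (hP : FinM X Λ u D p m C₀) {x : EN N} (hx : x ∈ X) {v : EN N} (hv : Tan X x v) {c : ℂ} (hc : c ≠ 0) :
    p (c • x) (c • v) = p x v := by
  have h1 := hP.hom x hx v hv 1 0 c hc
  rwa [one_smul, zero_smul, add_zero, norm_one, one_pow, one_mul] at h1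

private theorem Low_fs_scale (hX : IsCone X) {x : EN N} (hx : x ∈ X) (v : EN N) {c : ℂ} (hc : c ≠ 0) : fs (c • x) (c • v) = fs x v := by
  have h1 := Pool.Agent.H36.BP.fs_inv (Pool.Agent.TG.ne_zero hX hx) v hc 0
  rwa [zero_smul, add_zero] at h1

private theorem Low_le_loc (hX : IsCone X) (hch : Charts (k + 2) X) (hP : FinM X Λ u D p m C₀) {x₀ : EN N} (hx₀ : x₀ ∈ X) :
    ∃ C : ℝ, ∀ᶠ x in 𝓝 x₀, x ∈ X → ∀ v, Tan X x v → p x v ≤ C * fs x v ^ m := by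
  obtain ⟨χ, hU, hq0⟩ := hch x₀ hx₀
  have hb : χ.q x₀ ∈ ball (0 : Vd (k + 2)) 2 := (χ.surj x₀ hx₀ hU).1
  obtain ⟨C, hC⟩ := Low_upper hP χ hb
  obtain ⟨C₁, hC₁, hfs, -⟩ := χ.exists_fs_bound hX
  have hqc : Tendsto χ.q (𝓝 x₀) (𝓝 (χ.q x₀)) := (χ.q_an x₀ hU).continuousAt
  have hq1 : ∀ᶠ x in 𝓝 x₀, ‖χ.q x‖ < 1 := hqc.norm.eventually_lt_const (by rw [hq0, norm_zero]; exact one_pos)
  refine ⟨max C 0 * C₁ ^ m, ?_⟩
  filter_upwards [hqc.eventually hC, hq1, χ.isOpen_U.mem_nhds hU, hqc.eventually (isOpen_ball.mem_nhds hb)] with x h1 h3 h4 h5 hx v hv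
  rw [Low_eq hX hP χ hx h4 hv]
  set w := fderiv ℂ χ.q x v with hw
  have h6 : LowG p χ (χ.q x) w ≤ max C 0 * ‖w‖ ^ m := by
    by_cases hw0 : w = 0
    · have h7 := Low_hom hP χ h5 w 0
      rw [zero_smul, norm_zero, zero_pow (by have := hP.m_pos; omega), zero_mul] at h7
      rw [hw0, h7]
      positivity
    · obtain ⟨w', hw', hww⟩ := Low_norm hw0
      have h7 := Low_hom hP χ h5 w' ((‖w‖ : ℝ) : ℂ)
      rw [← hww, Complex.norm_real, norm_norm] at h7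
      rw [h7, mul_comm]
      exact mul_le_mul_of_nonneg_right ((h1 w' hw').trans (le_max_left _ _)) (by positivity)
  refine h6.trans ?_
  rw [mul_assoc, ← mul_pow]
  refine mul_le_mul_of_nonneg_left ?_ (le_max_right _ _)
  exact pow_le_pow_left₀ (norm_nonneg _) (hfs x hx h4 h3.le v) m

private theorem Low_ge_loc (hX : IsCone X) (hch : Charts (k + 2) X) (hu : TMap X Λ u) (hP : FinM X Λ u D p m C₀) {x₀ : EN N} (hx₀ : x₀ ∈ X) {y₀ : Vd (k + 1)}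
    (hy₀ : y₀ ∉ D) (hxy : u x₀ - y₀ ∈ Λ) :
    ∃ c : ℝ, 0 < c ∧ ∀ᶠ x in 𝓝 x₀, x ∈ X → ∀ v, Tan X x v → c * fs x v ^ m ≤ p x v := by
  obtain ⟨χ, hU, hq0⟩ := hch x₀ hx₀
  obtain ⟨υ, hυ, hυe, hl⟩ := Pool.Agent.TG.exists_lift_chart hX hu χ hx₀ hU hxy
  have hb : χ.q x₀ ∈ ball (0 : Vd (k + 2)) 2 := (χ.surj x₀ hx₀ hU).1
  have hσ := χ.σ_mem _ hb
  have hlσ : u (χ.σ (χ.q x₀)) - y₀ ∈ Λ := by
    have h1 := hl.self_of_nhds
    rwa [hυe] at h1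
  have hpos : ∀ w ∈ sphere (0 : Vd (k + 2)) 1, 0 < LowG p χ (χ.q x₀) w := by
    intro w hw
    rw [mem_sphere_zero_iff_norm] at hw
    rcases (Low_nonneg hP χ (χ.q x₀) w).eq_or_lt with h0 | h0
    · exfalso
      obtain ⟨c, hc⟩ := hP.pos y₀ hy₀ _ hσ.1 hlσ _ (Pool.Agent.TG.tan_sigma χ hb w) h0.symm
      have h3 := χ.fderiv_sigma hb w
      rw [hc, map_smul, χ.fderiv_q_self hσ.2.1, smul_zero] at h3
      rw [← h3, norm_zero] at hw
      exact zero_ne_one hw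
    · exact h0
  obtain ⟨c, hc0, hc⟩ := Low_lower hP χ hb hpos
  obtain ⟨C₁, hC₁, -, hfs⟩ := χ.exists_fs_bound hX
  have hqc : Tendsto χ.q (𝓝 x₀) (𝓝 (χ.q x₀)) := (χ.q_an x₀ hU).continuousAt
  have hq1 : ∀ᶠ x in 𝓝 x₀, ‖χ.q x‖ < 1 := hqc.norm.eventually_lt_const (by rw [hq0, norm_zero]; exact one_pos)
  have hC₁' : 0 < C₁ ^ m := by positivity
  refine ⟨c / C₁ ^ m, by positivity, ?_⟩
  filter_upwards [hqc.eventually hc, hq1, χ.isOpen_U.mem_nhds hU, hqc.eventually (isOpen_ball.mem_nhds hb)] with x h1 h3 h4 h5 hx v hv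
  rw [Low_eq hX hP χ hx h4 hv]
  set w := fderiv ℂ χ.q x v with hw
  have h6 : c * ‖w‖ ^ m ≤ LowG p χ (χ.q x) w := by
    by_cases hw0 : w = 0
    · rw [hw0, norm_zero, zero_pow (by have := hP.m_pos; omega), mul_zero]
      exact Low_nonneg hP χ _ _
    · obtain ⟨w', hw', hww⟩ := Low_norm hw0
      have h7 := Low_hom hP χ h5 w' ((‖w‖ : ℝ) : ℂ)
      rw [← hww, Complex.norm_real, norm_norm] at h7
      rw [h7, mul_comm]
      exact mul_le_mul_of_nonneg_left (h1 w' hw') (by positivity)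
  have h8 : fs x v ≤ C₁ * ‖w‖ := by
    obtain ⟨F, hF, hF0, hFd⟩ := hv
    have h9 := hfs F 0 hF (by rw [hF0]; exact h4) (by rw [hF0]; exact h3.le)
    have h10 := (χ.curve hX hF (by rw [hF0]; exact h4)).2.1
    rw [h10, hF0, hFd] at h9
    exact h9
  have h9 : fs x v ^ m ≤ C₁ ^ m * ‖w‖ ^ m := by
    rw [← mul_pow]
    exact pow_le_pow_left₀ (Pool.Agent.H36.BP.fs_nonneg _ _) h8 m
  calc c / C₁ ^ m * fs x v ^ m ≤ c / C₁ ^ m * (C₁ ^ m * ‖w‖ ^ m) := mul_le_mul_of_nonneg_left h9 (by positivity)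
    _ = c * ‖w‖ ^ m := by field_simp
    _ ≤ _ := h6

theorem le_fs (hX : IsCone X) (hch : Charts (k + 2) X) (hP : FinM X Λ u D p m C₀) :
    ∃ C : ℝ, 0 < C ∧ ∀ x ∈ X, ∀ v, Tan X x v → p x v ≤ C * fs x v ^ m := by
  have h1 : ∃ C : ℝ, ∀ x ∈ X ∩ sphere (0 : EN N) 1, ∀ v, Tan X x v → p x v ≤ C * fs x v ^ m := by
    refine (Pool.Agent.TG.compact_unit hX).induction_on
      (p := fun S : Set (EN N) => ∃ C : ℝ, ∀ x ∈ S, x ∈ X → ∀ v, Tan X x v → p x v ≤ C * fs x v ^ m) ?_ ?_ ?_ ?_ |>.imp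
      fun C hC x hx => hC x hx hx.1
    · exact ⟨0, fun x hx => absurd hx (Set.notMem_empty x)⟩
    · rintro S T hST ⟨C, hC⟩
      exact ⟨C, fun x hx => hC x (hST hx)⟩
    · rintro S T ⟨C, hC⟩ ⟨C', hC'⟩
      refine ⟨max C C', fun x hx hxX v hv => ?_⟩
      have h0 : 0 ≤ fs x v ^ m := pow_nonneg (Pool.Agent.H36.BP.fs_nonneg _ _) _
      rcases hx with hx | hx
      · exact (hC x hx hxX v hv).trans (mul_le_mul_of_nonneg_right (le_max_left _ _) h0)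
      · exact (hC' x hx hxX v hv).trans (mul_le_mul_of_nonneg_right (le_max_right _ _) h0)
    · intro x hx
      obtain ⟨C, hC⟩ := Low_le_loc hX hch hP hx.1
      exact ⟨_, mem_nhdsWithin_of_mem_nhds hC, C, fun y hy => hy⟩
  obtain ⟨C, hC⟩ := h1
  refine ⟨max C 1, lt_max_of_lt_right one_pos, fun x hx v hv => ?_⟩
  obtain ⟨c, hc, hcx⟩ := Pool.Agent.TG.exists_unit hX hx
  have h2 := hC (c • x) hcx (c • v) (Low_tan_smul hX hv hc)
  rw [Low_scale hP hx hv hc, Low_fs_scale hX hx v hc] at h2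
  exact h2.trans (mul_le_mul_of_nonneg_right (le_max_left _ _) (pow_nonneg (Pool.Agent.H36.BP.fs_nonneg _ _) _))

theorem ge_fs (hX : IsCone X) (hch : Charts (k + 2) X) (hu : TMap X Λ u) (hP : FinM X Λ u D p m C₀) {δ : ℝ} (hδ : 0 < δ) :
    ∃ c : ℝ, 0 < c ∧ ∀ y ∈ Gd D δ, ∀ x ∈ X, u x - y ∈ Λ → ∀ v, Tan X x v → c * fs x v ^ m ≤ p x v := by
  set S₀ : Set (EN N) := {x | x ∈ X ∩ sphere (0 : EN N) 1 ∧ ∃ y ∈ Gd D δ, u x - y ∈ Λ} with hS₀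
  have hsub : closure S₀ ⊆ X ∩ sphere (0 : EN N) 1 := by
    refine closure_minimal (fun x hx => hx.1) (Pool.Agent.TG.compact_unit hX).isClosed
  have hK : IsCompact (closure S₀) := (Pool.Agent.TG.compact_unit hX).of_isClosed_subset isClosed_closure hsub
  have hy : ∀ x₀ ∈ closure S₀, ∃ y₀ ∉ D, u x₀ - y₀ ∈ Λ := by
    intro x₀ hx₀
    have hxX := (hsub hx₀).1
    obtain ⟨v, hv, hvl⟩ := hu.loc x₀ hxX
    have h1 : ∀ᶠ x in 𝓝 x₀, ‖v x - v x₀‖ < δ := by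
      have h2 : ContinuousAt (fun x => v x - v x₀) x₀ := hv.continuousAt.sub continuousAt_const
      refine h2.norm.eventually_lt_const ?_
      simpa using hδ
    obtain ⟨x, ⟨hx1, hx2⟩, hx3⟩ := mem_closure_iff_nhds.1 hx₀ _ (h1.and hvl)
    obtain ⟨y, hy, hxy⟩ := hx3.2
    refine ⟨y + (v x₀ - v x), ?_, ?_⟩
    · intro hD
      have h3 := hy _ hD
      have h4 : y - (y + (v x₀ - v x)) = v x - v x₀ := by abel
      rw [h4] at h3
      linarith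
    · have h3 := Λ.add_mem (Λ.sub_mem (hvl.self_of_nhds hxX) (hx2 hx3.1.1)) hxy
      have e : u x₀ - v x₀ - (u x - v x) + (u x - y) = u x₀ - (y + (v x₀ - v x)) := by abel
      rwa [e] at h3
  have h1 : ∃ c : ℝ, 0 < c ∧ ∀ x ∈ closure S₀, x ∈ X → ∀ v, Tan X x v → c * fs x v ^ m ≤ p x v := by
    refine hK.induction_on
      (p := fun S : Set (EN N) => ∃ c : ℝ, 0 < c ∧ ∀ x ∈ S, x ∈ X → ∀ v, Tan X x v → c * fs x v ^ m ≤ p x v) ?_ ?_ ?_ ?_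
    · exact ⟨1, one_pos, fun x hx => absurd hx (Set.notMem_empty x)⟩
    · rintro S T hST ⟨C, hC0, hC⟩
      exact ⟨C, hC0, fun x hx => hC x (hST hx)⟩
    · rintro S T ⟨C, hC0, hC⟩ ⟨C', hC0', hC'⟩
      refine ⟨min C C', lt_min hC0 hC0', fun x hx hxX v hv => ?_⟩
      have h0 : 0 ≤ fs x v ^ m := pow_nonneg (Pool.Agent.H36.BP.fs_nonneg _ _) _
      rcases hx with hx | hx
      · exact (mul_le_mul_of_nonneg_right (min_le_left _ _) h0).trans (hC x hx hxX v hv)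
      · exact (mul_le_mul_of_nonneg_right (min_le_right _ _) h0).trans (hC' x hx hxX v hv)
    · intro x hx
      obtain ⟨y₀, hy₀, hxy⟩ := hy x hx
      obtain ⟨c, hc0, hc⟩ := Low_ge_loc hX hch hu hP (hsub hx).1 hy₀ hxy
      exact ⟨_, mem_nhdsWithin_of_mem_nhds hc, c, hc0, fun y hy => hy⟩
  obtain ⟨c, hc0, hc⟩ := h1
  refine ⟨c, hc0, fun y hyG x hx hxy v hv => ?_⟩
  obtain ⟨a, ha, hax⟩ := Pool.Agent.TG.exists_unit hX hx
  have h2 : a • x ∈ closure S₀ := subset_closure ⟨hax, y, hyG, Pool.Agent.TG.smul_mem_lat hu hx hxy ha⟩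
  have h3 := hc (a • x) h2 hax.1 (a • v) (Low_tan_smul hX hv ha)
  rwa [Low_scale hP hx hv ha, Low_fs_scale hX hx v ha] at h3

end Pool.Agent.G4.M

end
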