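import Pool.Agent.H94.G5T.M12
import Pool.Agent.H94.G5T.M18
import Pool.Agent.H94.G5T.M36
import Pool.Agent.H94.G5T.M59
import Pool.Agent.H94.G5T.M63

/-! The parts of this file: H17EF.DLin, G4.H.Ser, G4.H.Dim, TG.Jan_1. -/

section

/-!
# EF DLin: a holomorphic function whose derivative is bounded by the length of an entire curve of order two is affine

With `u = ‖G‖ exp(-a|D - D 0|²) |exp P| exp(|z|²)` and the maximum principle.
-/

set_option autoImplicit false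

namespace Pool.Agent.H17EF

open Pool.Agent.H36.BP Metric Filter Topology

/-- division with remainder by `z^k` -/
theorem exists_div {D : ℂ → ℂ} (hD : Differentiable ℂ D) (k : ℕ) :
    ∃ (T : Polynomial ℂ) (H : ℂ → ℂ), T.degree < k ∧ Differentiable ℂ H ∧ ∀ z, D z = T.eval z + z ^ k * H z := by
  induction k with
  | zero => exact ⟨0, D, by simp, hD, by simp⟩
  | succ k ih =>
    obtain ⟨T, H, hT, hH, h⟩ := ih
    refine ⟨T + Polynomial.C (H 0) * Polynomial.X ^ k, dslope H 0, ?_, ?_, ?_⟩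
    · refine lt_of_le_of_lt (Polynomial.degree_add_le _ _) (max_lt (hT.trans ?_) ?_)
      · exact_mod_cast Nat.lt_succ_self k
      · refine lt_of_le_of_lt (Polynomial.degree_C_mul_X_pow_le k _) ?_
        exact_mod_cast Nat.lt_succ_self k
    · rw [← differentiableOn_univ] at hH ⊢
      exact (Complex.differentiableOn_dslope (by simp)).2 hH
    · intro z
      have h1 : (z - 0) • dslope H 0 z = H z - H 0 := sub_smul_dslope H 0 z
      rw [sub_zero, smul_eq_mul] at h1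
      rw [h z]
      simp only [Polynomial.eval_add, Polynomial.eval_mul, Polynomial.eval_C, Polynomial.eval_pow, Polynomial.eval_X]
      have h2 : H z = H 0 + z * dslope H 0 z := by rw [h1]; ring
      conv_lhs => rw [h2]
      ring

/-- growth of a polynomial -/
theorem poly_bound (T : Polynomial ℂ) {k : ℕ} (hT : T.degree < (k + 1 : ℕ)) :
    ∃ K : ℝ, 0 ≤ K ∧ ∀ z : ℂ, 1 ≤ ‖z‖ → ‖T.eval z‖ ≤ K * ‖z‖ ^ k := by
  refine ⟨∑ i ∈ Finset.range (k + 1), ‖T.coeff i‖, Finset.sum_nonneg fun _ _ => norm_nonneg _, fun z hz => ?_⟩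
  have h1 : T.natDegree < k + 1 := by
    rcases eq_or_ne T 0 with h | h
    · subst h; simp
    · exact (Polynomial.natDegree_lt_iff_degree_lt h).2 hT
  rw [Polynomial.eval_eq_sum_range' h1, Finset.sum_mul]
  refine (norm_sum_le _ _).trans (Finset.sum_le_sum fun i hi => ?_)
  rw [norm_mul, norm_pow]
  exact mul_le_mul_of_nonneg_left (pow_le_pow_right₀ hz (Nat.lt_succ_iff.1 (Finset.mem_range.1 hi))) (norm_nonneg _)

theorem affine_of_bound {N : ℕ} {D : ℂ → ℂ} (hD : Differentiable ℂ D) {c C₀ : ℝ} (hc : 0 < c)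
    (h : ∀ r : ℝ, 0 < r → ∃ G : ℂ → EN N, DifferentiableOn ℂ G (ball 0 r) ∧ (∀ z ∈ ball (0 : ℂ) r, ‖G z‖ ≤ 1) ∧
      Real.exp (-(C₀ * (1 + r ^ 2))) ≤ ‖G 0‖ ∧ ∀ z ∈ ball (0 : ℂ) r, G z ≠ 0 → c * ‖deriv D z‖ ≤ fs (G z) (deriv G z)) :
    ∃ a b : ℂ, ∀ z, D z = a * z + b := by
  -- the key estimate
  have key : ∀ k : ℕ, ∀ (T : Polynomial ℂ) (H : ℂ → ℂ), T.degree < ((k + 1 + 1 : ℕ) : WithBot ℕ) → Differentiable ℂ H →
      (∀ z, D z = T.eval z + z ^ (k + 1 + 1) * H z) → H 0 = 0 := by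
    intro k T H hT hH hdec
    obtain ⟨K, hK0, hK⟩ := poly_bound (T - Polynomial.C (D 0)) (k := k + 1) (by
      refine lt_of_le_of_lt (Polynomial.degree_sub_le _ _) (max_lt hT ?_)
      refine lt_of_le_of_lt Polynomial.degree_C_le ?_
      exact_mod_cast Nat.succ_pos _)
    by_contra hne
    have hpos : 0 < ‖H 0‖ := norm_pos_iff.2 hne
    set a : ℝ := c ^ 2 / 2 with ha
    have ha0 : 0 < a := by positivity
    -- estimate for every radius
    have est : ∀ s : ℝ, 1 ≤ s → a / 2 * ‖H 0‖ ^ 2 * s ^ (2 * (k + 1 + 1)) ≤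
        C₀ * (1 + (2 * s) ^ 2) + a * K ^ 2 * s ^ (2 * (k + 1)) + s ^ 2 := by
      intro s hs
      have hs0 : 0 < s := by linarith
      obtain ⟨G, hG, hG1, hG0, hGd⟩ := h (2 * s) (by positivity)
      set P : ℂ → ℂ := fun z => (a / 2 : ℝ) * (2 * (starRingEnd ℂ (H 0)) * (s : ℂ) ^ (2 * (k + 1 + 1)) * H z -
        ((‖H 0‖ ^ 2 * s ^ (2 * (k + 1 + 1)) : ℝ) : ℂ)) with hP
      have hPd : Differentiable ℂ P := by
        rw [hP]; fun_prop
      set u : ℂ → ℝ := fun z => ‖G z‖ ^ (1 : ℝ) * Real.exp (-a * ‖D z - D 0‖ ^ 2) * ‖Complex.exp (P z)‖ * Real.exp (1 * ‖z‖ ^ 2) with hu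
      have hsub : closedBall (0 : ℂ) s ⊆ ball 0 (2 * s) := closedBall_subset_ball (by linarith)
      have hGan : ∀ z ∈ ball (0 : ℂ) (2 * s), AnalyticAt ℂ G z := fun z hz => hG.analyticAt (isOpen_ball.mem_nhds hz)
      have hmax := max_principle (S := closedBall (0 : ℂ) s) (U := ball (0 : ℂ) s) (isCompact_closedBall _ _) isOpen_ball ball_subset_closedBall
        (u := u) ?_ ?_ (A := Real.exp (a * K ^ 2 * s ^ (2 * (k + 1)) + s ^ 2)) (Real.exp_pos _).le ?_ 0 (mem_closedBall_self hs0.le)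
      · -- conclusion
        have hP0 : ‖Complex.exp (P 0)‖ = Real.exp (a / 2 * ‖H 0‖ ^ 2 * s ^ (2 * (k + 1 + 1))) := by
          rw [Complex.norm_exp]
          congr 1
          have h1 : P 0 = ((a / 2 * ‖H 0‖ ^ 2 * s ^ (2 * (k + 1 + 1)) : ℝ) : ℂ) := by
            have h2 : (starRingEnd ℂ (H 0)) * H 0 = ((‖H 0‖ ^ 2 : ℝ) : ℂ) := by
              rw [mul_comm, Complex.mul_conj, Complex.normSq_eq_norm_sq]
            have h3 : 2 * (starRingEnd ℂ (H 0)) * (s : ℂ) ^ (2 * (k + 1 + 1)) * H 0 = 2 * (s : ℂ) ^ (2 * (k + 1 + 1)) * ((starRingEnd ℂ (H 0)) * H 0) := by ring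
            rw [hP]
            simp only
            rw [h3, h2]
            push_cast
            ring
          rw [h1, Complex.ofReal_re]
        have hu0 : u 0 = ‖G 0‖ * Real.exp (a / 2 * ‖H 0‖ ^ 2 * s ^ (2 * (k + 1 + 1))) := by
          rw [hu]
          simp only [Real.rpow_one, sub_self, norm_zero, hP0]
          norm_num
        rw [hu0] at hmax
        have h4 : Real.exp (-(C₀ * (1 + (2 * s) ^ 2))) * Real.exp (a / 2 * ‖H 0‖ ^ 2 * s ^ (2 * (k + 1 + 1))) ≤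
            Real.exp (a * K ^ 2 * s ^ (2 * (k + 1)) + s ^ 2) :=
          (mul_le_mul_of_nonneg_right hG0 (Real.exp_pos _).le).trans hmax
        rw [← Real.exp_add, Real.exp_le_exp] at h4
        linarith
      · -- upper semicontinuity
        apply ContinuousOn.upperSemicontinuousOn
        have hGc : ContinuousOn G (closedBall 0 s) := hG.continuousOn.mono hsub
        have hDc := hD.continuous
        have hPc := hPd.continuous
        have h5 : ContinuousOn (fun z => ‖G z‖ ^ (1 : ℝ)) (closedBall 0 s) := by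
          simp only [Real.rpow_one]; exact hGc.norm
        have h6 : Continuous (fun z => Real.exp (-a * ‖D z - D 0‖ ^ 2)) := by fun_prop
        have h7 : Continuous (fun z => ‖Complex.exp (P z)‖) := by fun_prop
        have h8 : Continuous (fun z : ℂ => Real.exp (1 * ‖z‖ ^ 2)) := by fun_prop
        exact ((h5.mul h6.continuousOn).mul h7.continuousOn).mul h8.continuousOn
      · -- the supports
        intro z hz hupos
        have hz2 : z ∈ ball (0 : ℂ) (2 * s) := hsub (ball_subset_closedBall hz)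
        have hGz : G z ≠ 0 := by
          intro h0
          rw [hu] at hupos
          simp only [h0, norm_zero, Real.rpow_one, zero_mul, lt_irrefl] at hupos
        have s1 := Sub.norm_rpow (hGan z hz2) hGz 1
        have s2 := Sub.exp_sq (t := fun z => D z - D 0) (z₀ := z) ((hD.analyticAt z).sub analyticAt_const) (-a)
        have s3 := Sub.of_holo (h := fun z => Complex.exp (P z)) (z₀ := z) ((hPd.analyticAt z).cexp) (Complex.exp_ne_zero _)
        have s4 := Sub.exp_sq (t := fun z => z) (z₀ := z) analyticAt_id 1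
        have s5 := ((s1.mul s2).mul s3).mul s4
        refine ⟨_, ?_, s5⟩
        have h9 : deriv (fun z => D z - D 0) z = deriv D z := by
          rw [deriv_sub_const]
        have h10 : deriv (fun z : ℂ => z) z = 1 := deriv_id z
        rw [h9, h10]
        have h11 := hGd z hz2 hGz
        have h12 : (c * ‖deriv D z‖) ^ 2 ≤ fs (G z) (deriv G z) ^ 2 := by
          apply pow_le_pow_left₀ (by positivity) h11
        simp only [norm_one]
        rw [ha]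
        nlinarith [sq_nonneg (‖deriv D z‖)]
      · -- the boundary
        intro z hz
        have hzn : ‖z‖ = s := by
          have h13 := hz.1
          have h14 := hz.2
          simp only [mem_closedBall, mem_ball, dist_zero_right, not_lt] at h13 h14
          exact le_antisymm h13 h14
        have hz2 : z ∈ ball (0 : ℂ) (2 * s) := hsub hz.1
        have hPle : (P z).re ≤ a * ‖D z - D 0‖ ^ 2 + a * K ^ 2 * s ^ (2 * (k + 1)) := by
          have h15 : (P z).re = a / 2 * (2 * s ^ (2 * (k + 1 + 1)) * ((starRingEnd ℂ (H 0)) * H z).re - ‖H 0‖ ^ 2 * s ^ (2 * (k + 1 + 1))) := by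
            have h16 : P z = ((a / 2 : ℝ) : ℂ) * (((2 * s ^ (2 * (k + 1 + 1)) : ℝ) : ℂ) * ((starRingEnd ℂ (H 0)) * H z) -
              ((‖H 0‖ ^ 2 * s ^ (2 * (k + 1 + 1)) : ℝ) : ℂ)) := by
              rw [hP]; push_cast; ring
            rw [h16, Complex.re_ofReal_mul, Complex.sub_re, Complex.re_ofReal_mul, Complex.ofReal_re]
          have h17 : ((starRingEnd ℂ (H 0)) * H z).re ≤ ‖H 0‖ * ‖H z‖ := by
            refine (Complex.re_le_norm _).trans ?_
            rw [norm_mul, RCLike.norm_conj]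
          have h18 : 2 * (‖H 0‖ * ‖H z‖) ≤ ‖H 0‖ ^ 2 + ‖H z‖ ^ 2 := by nlinarith [sq_nonneg (‖H 0‖ - ‖H z‖)]
          have h19 : s ^ (2 * (k + 1 + 1)) * ‖H z‖ ^ 2 = ‖D z - T.eval z‖ ^ 2 := by
            rw [hdec z, add_sub_cancel_left, norm_mul, norm_pow, hzn]
            ring
          have h20 : ‖D z - T.eval z‖ ≤ ‖D z - D 0‖ + ‖T.eval z - D 0‖ := by
            calc ‖D z - T.eval z‖ = ‖(D z - D 0) - (T.eval z - D 0)‖ := by congr 1; ring
              _ ≤ _ := norm_sub_le _ _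
          have h21 : ‖T.eval z - D 0‖ ≤ K * s ^ (k + 1) := by
            have := hK z (by rw [hzn]; exact hs)
            rwa [Polynomial.eval_sub, Polynomial.eval_C, hzn] at this
          have h22 : ‖D z - T.eval z‖ ^ 2 ≤ 2 * ‖D z - D 0‖ ^ 2 + 2 * (K ^ 2 * s ^ (2 * (k + 1))) := by
            have h23 : ‖D z - T.eval z‖ ^ 2 ≤ (‖D z - D 0‖ + K * s ^ (k + 1)) ^ 2 := by
              apply pow_le_pow_left₀ (norm_nonneg _)
              linarith
            have h24 : (K * s ^ (k + 1)) ^ 2 = K ^ 2 * s ^ (2 * (k + 1)) := by ring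
            nlinarith [sq_nonneg (‖D z - D 0‖ - K * s ^ (k + 1))]
          have hsp : 0 < s ^ (2 * (k + 1 + 1)) := by positivity
          rw [h15]
          have h25 : 2 * s ^ (2 * (k + 1 + 1)) * ((starRingEnd ℂ (H 0)) * H z).re ≤ s ^ (2 * (k + 1 + 1)) * (‖H 0‖ ^ 2 + ‖H z‖ ^ 2) := by
            nlinarith
          have h26 : 2 * s ^ (2 * (k + 1 + 1)) * ((starRingEnd ℂ (H 0)) * H z).re - ‖H 0‖ ^ 2 * s ^ (2 * (k + 1 + 1)) ≤
              2 * ‖D z - D 0‖ ^ 2 + 2 * (K ^ 2 * s ^ (2 * (k + 1))) := by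
            nlinarith
          calc _ ≤ a / 2 * (2 * ‖D z - D 0‖ ^ 2 + 2 * (K ^ 2 * s ^ (2 * (k + 1)))) := mul_le_mul_of_nonneg_left h26 (by positivity)
            _ = _ := by ring
        rw [hu]
        simp only [Real.rpow_one, one_mul]
        rw [Complex.norm_exp, hzn]
        calc ‖G z‖ * Real.exp (-a * ‖D z - D 0‖ ^ 2) * Real.exp (P z).re * Real.exp (s ^ 2)
            ≤ 1 * Real.exp (-a * ‖D z - D 0‖ ^ 2) * Real.exp (P z).re * Real.exp (s ^ 2) := by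
              gcongr
              exact hG1 z hz2
          _ = Real.exp (-a * ‖D z - D 0‖ ^ 2 + (P z).re + s ^ 2) := by
              rw [one_mul, ← Real.exp_add, ← Real.exp_add]
          _ ≤ _ := by
              apply Real.exp_le_exp.2
              nlinarith
    -- contradiction for large `s`
    set A : ℝ := a / 2 * ‖H 0‖ ^ 2 with hA
    have hA0 : 0 < A := by positivity
    set B : ℝ := |C₀| * 5 + a * K ^ 2 + 1 with hB
    have hB0 : 0 ≤ B := by positivity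
    obtain ⟨s, hs1, hs2⟩ : ∃ s : ℝ, 1 ≤ s ∧ B < A * s := by
      refine ⟨max 1 ((B + 1) / A), le_max_left _ _, ?_⟩
      have h1 : (B + 1) / A ≤ max 1 ((B + 1) / A) := le_max_right _ _
      rw [div_le_iff₀ hA0] at h1
      linarith
    have h2 := est s hs1
    have hs0 : 0 < s := by linarith
    have h3 : s ^ 2 ≤ s ^ (2 * (k + 1)) := pow_le_pow_right₀ hs1 (by omega)
    have h4 : (1 : ℝ) ≤ s ^ (2 * (k + 1)) := one_le_pow₀ hs1
    have h5 : C₀ * (1 + (2 * s) ^ 2) ≤ |C₀| * 5 * s ^ (2 * (k + 1)) := by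
      have h6 : C₀ * (1 + (2 * s) ^ 2) ≤ |C₀| * (1 + (2 * s) ^ 2) := mul_le_mul_of_nonneg_right (le_abs_self _) (by positivity)
      have h7 : 1 + (2 * s) ^ 2 ≤ 5 * s ^ (2 * (k + 1)) := by nlinarith
      have h8 := mul_le_mul_of_nonneg_left h7 (abs_nonneg C₀)
      linarith
    have h9 : A * s ^ (2 * (k + 1 + 1)) ≤ B * s ^ (2 * (k + 1)) := by
      rw [hB]
      nlinarith
    have h10 : s ^ (2 * (k + 1 + 1)) = s ^ (2 * (k + 1)) * (s * s) := by ring
    have hsp : 0 < s ^ (2 * (k + 1)) := by positivity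
    rw [h10] at h9
    have h11 : A * (s * s) ≤ B := by
      have h12 : s ^ (2 * (k + 1)) * (A * (s * s)) ≤ s ^ (2 * (k + 1)) * B := by linarith
      exact le_of_mul_le_mul_left h12 hsp
    have h13 : A * s ≤ A * (s * s) := by
      have : s * 1 ≤ s * s := mul_le_mul_of_nonneg_left hs1 hs0.le
      rw [mul_one] at this
      exact mul_le_mul_of_nonneg_left this hA0.le
    linarith
  -- all coefficients vanish
  obtain ⟨T, H, hT, hH, hdec⟩ := exists_div hD 2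
  have hHz : ∀ m : ℕ, ∃ H' : ℂ → ℂ, Differentiable ℂ H' ∧ (∀ z, D z = T.eval z + z ^ (m + 1 + 1) * H' z) := by
    intro m
    induction m with
    | zero => exact ⟨H, hH, hdec⟩
    | succ m ih =>
      obtain ⟨H', hH', hd⟩ := ih
      have h0 : H' 0 = 0 := key m T H' (lt_of_lt_of_le hT (by exact_mod_cast (by omega : 2 ≤ m + 1 + 1))) hH' hd
      refine ⟨dslope H' 0, ?_, fun z => ?_⟩
      · rw [← differentiableOn_univ] at hH' ⊢
        exact (Complex.differentiableOn_dslope (by simp)).2 hH'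
      · have h1 : (z - 0) • dslope H' 0 z = H' z - H' 0 := sub_smul_dslope H' 0 z
        rw [sub_zero, smul_eq_mul, h0, sub_zero] at h1
        rw [hd z, ← h1]
        ring
  have hev : ∀ᶠ z in 𝓝 (0 : ℂ), D z - T.eval z = 0 := by
    have han : AnalyticAt ℂ (fun z => D z - T.eval z) 0 := (hD.analyticAt 0).sub (T.differentiable.analyticAt 0)
    rw [← analyticOrderAt_eq_top]
    by_contra hne
    obtain ⟨n, hn⟩ := ENat.ne_top_iff_exists.1 hne
    have h1 : ((n + 2 : ℕ) : ℕ∞) ≤ analyticOrderAt (fun z => D z - T.eval z) 0 := by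
      rw [natCast_le_analyticOrderAt han]
      obtain ⟨H', hH', hd⟩ := hHz n
      refine ⟨H', hH'.analyticAt 0, Eventually.of_forall fun z => ?_⟩
      rw [hd z]
      simp
    rw [← hn] at h1
    have : n + 2 ≤ n := by exact_mod_cast h1
    omega
  have hall : ∀ z, D z - T.eval z = 0 := by
    have h1 : AnalyticOnNhd ℂ (fun z => D z - T.eval z) Set.univ := fun z _ => (hD.analyticAt z).sub (T.differentiable.analyticAt z)
    intro z
    exact h1.eqOn_zero_of_preconnected_of_eventuallyEq_zero isPreconnected_univ (Set.mem_univ 0) hev (Set.mem_univ z)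
  have hT1 : T.natDegree ≤ 1 := by
    rcases eq_or_ne T 0 with h | h
    · subst h; simp
    · exact Nat.lt_succ_iff.1 ((Polynomial.natDegree_lt_iff_degree_lt h).2 hT)
  refine ⟨T.coeff 1, T.coeff 0, fun z => ?_⟩
  have h1 := hall z
  rw [sub_eq_zero] at h1
  rw [h1, Polynomial.eq_X_add_C_of_natDegree_le_one hT1]
  simp

end Pool.Agent.H17EF

end

section

/-!
# G4 H Ser: the theta series

`pk_norm`: `‖pk W M p y‖ * exp (- M wt y) = exp (- M wt (y - p))`.  `term_norm`: so the terms of the series satisfy `‖e (lv b c) y ^ M * pk W M p (y + lv b c)‖ * exp (- M wt y) = exp (- M wt (y + lv b c - p))`.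
`gsum`: `∑ c, exp (- M wt (y + lv b c - p))` converges, locally uniformly in `y` (`wt_low`, `lv_low`: `wt (y + lv b c - p) ≥ c₀ (κ ∑ |c i| - R)²₊ ≥ κ' ∑ |c i| - R'`).
`th_thm`: `th b W e M p` is analytic (locally uniform limit of analytic functions: differentiable by `hasFDerivAt_tsum` with Cauchy bounds, or restrict to finite sums and use a Weierstrass theorem of the library) and quasi-periodic: from `ThF.coc`
`e (lv b c') y ^ M * e (lv b c) (y + lv b c') ^ M = e (lv b (c + c')) y ^ M`, reindex the sum.  `th_norm`: the bound by the sum of the norms; `th_diag`: the term with `y + lv b c = p` has size `1`.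
-/

set_option autoImplicit false

open Topology Filter Metric

namespace Pool.Agent.G4.H

open Pool.Agent.AD (Vd)
open Pool.Agent.TG (Lat)
open Pool.Agent.G3 (wt)

variable {k r : ℕ} {Γ : AddSubgroup (Vd (k + 1))} {W : Fin r → Vd (k + 1) →L[ℂ] ℂ} {e : Vd (k + 1) → Vd (k + 1) → ℂ} {b : RB k} {M : ℕ}

theorem pk_norm (W : Fin r → Vd (k + 1) →L[ℂ] ℂ) (M : ℕ) (p y : Vd (k + 1)) : ‖pk W M p y‖ * Real.exp (-(M * wt W y)) = Real.exp (-(M * wt W (y - p))) := by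
  unfold pk wt
  rw [Complex.norm_exp, ← Real.exp_add]
  congr 1
  have e1 : ((M : ℂ) * ∑ i, (2 * (starRingEnd ℂ) (W i p) * W i y - (starRingEnd ℂ) (W i p) * W i p)).re =
      (M : ℝ) * ∑ i, (2 * (starRingEnd ℂ) (W i p) * W i y - (starRingEnd ℂ) (W i p) * W i p).re := by
    rw [← Complex.re_sum, ← Complex.re_ofReal_mul, Complex.ofReal_natCast]
  rw [e1, ← mul_neg, ← mul_neg, ← mul_add, ← Finset.sum_neg_distrib, ← Finset.sum_neg_distrib, ← Finset.sum_add_distrib]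
  congr 1
  refine Finset.sum_congr rfl fun i _ => ?_
  rw [map_sub, ← Complex.normSq_eq_norm_sq, ← Complex.normSq_eq_norm_sq]
  simp only [Complex.normSq_apply, Complex.sub_re, Complex.sub_im, Complex.mul_re, Complex.mul_im, Complex.conj_re, Complex.conj_im, Complex.re_ofNat, Complex.im_ofNat]
  ring

theorem term_norm (T : ThF Γ W e) (hb : ∀ i, b i ∈ Γ) (M : ℕ) (p y : Vd (k + 1)) (c : Fin (2 * (k + 1)) → ℤ) :
    ‖e (lv b c) y ^ M * pk W M p (y + lv b c)‖ * Real.exp (-(M * wt W y)) = Real.exp (-(M * wt W (y + lv b c - p))) := by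
  rw [norm_mul, norm_pow, T.nrm _ (lv_mem hb c) y, ← pk_norm W M p (y + lv b c), ← Real.exp_nat_mul]
  have e1 : Real.exp ((M : ℝ) * (wt W y - wt W (y + lv b c))) = Real.exp (-(M * wt W (y + lv b c))) * Real.exp (M * wt W y) := by
    rw [← Real.exp_add]
    congr 1
    ring
  have e2 : Real.exp ((M : ℝ) * wt W y) * Real.exp (-(M * wt W y)) = 1 := by
    rw [← Real.exp_add, add_neg_cancel, Real.exp_zero]
  rw [e1]
  calc Real.exp (-(M * wt W (y + lv b c))) * Real.exp (M * wt W y) * ‖pk W M p (y + lv b c)‖ * Real.exp (-(M * wt W y))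
      = ‖pk W M p (y + lv b c)‖ * Real.exp (-(M * wt W (y + lv b c))) * (Real.exp ((M : ℝ) * wt W y) * Real.exp (-(M * wt W y))) := by ring
    _ = _ := by rw [e2, mul_one]

private theorem ser_prod (g : ℤ → ℝ) (hg0 : ∀ k, 0 ≤ g k) (hs : Summable g) (n : ℕ) :
    Summable fun k : Fin n → ℤ => ∏ j, g (k j) := by
  induction n with
  | zero => exact Summable.of_finite
  | succ n ih =>
    rw [← (Fin.consEquiv fun _ : Fin (n + 1) => ℤ).summable_iff]
    have h1 := hs.mul_of_nonneg ih hg0 (fun k => Finset.prod_nonneg fun j _ => hg0 _)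
    refine h1.congr fun k => ?_
    simp [Fin.prod_univ_succ, Fin.consEquiv]

private theorem ser_int {a : ℝ} (ha : 0 < a) : Summable fun k : ℤ => Real.exp (-(a * |(k : ℝ)|)) := by
  have h0 : Summable fun n : ℕ => Real.exp (-a) ^ n := by
    refine summable_geometric_of_lt_one (Real.exp_pos _).le ?_
    rw [Real.exp_lt_one_iff]
    linarith
  have h1 : ∀ n : ℕ, Real.exp (-(a * (n : ℝ))) = Real.exp (-a) ^ n := fun n => by
    rw [← Real.exp_nat_mul]
    congr 1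
    ring
  refine Summable.of_nat_of_neg ?_ ?_
  · simp only [Int.cast_natCast, Nat.abs_cast, h1]
    exact h0
  · simp only [Int.cast_neg, Int.cast_natCast, abs_neg, Nat.abs_cast, h1]
    exact h0

private theorem ser_sum {a : ℝ} (ha : 0 < a) (n : ℕ) : Summable fun c : Fin n → ℤ => Real.exp (-(a * ∑ i, |(c i : ℝ)|)) := by
  have e : (fun c : Fin n → ℤ => Real.exp (-(a * ∑ i, |(c i : ℝ)|))) = fun c : Fin n → ℤ => ∏ i, Real.exp (-(a * |(c i : ℝ)|)) := by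
    funext c
    rw [← Real.exp_sum, Finset.mul_sum, ← Finset.sum_neg_distrib]
  rw [e]
  exact ser_prod (fun k => Real.exp (-(a * |(k : ℝ)|))) (fun k => (Real.exp_pos _).le) (ser_int ha) n

/-- the weights of the translates grow -/
private theorem ser_wt (hW : ∀ y, (∀ i, W i y = 0) → y = 0) (b : RB k) (R : ℝ) :
    ∃ α β : ℝ, 0 < α ∧ ∀ y : Vd (k + 1), ‖y‖ ≤ R → ∀ c, α * ∑ i, |(c i : ℝ)| - β ≤ wt W (y + lv b c) := by
  obtain ⟨c₀, hc₀, h0⟩ := wt_low hW
  obtain ⟨κ, hκ, h1⟩ := lv_low b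
  refine ⟨2 * c₀ * κ, c₀ * (2 * R + 1), by positivity, fun y hy c => ?_⟩
  have h2 := h0 (y + lv b c)
  have h3 := h1 c
  have h4 : ‖lv b c‖ ≤ ‖y + lv b c‖ + ‖y‖ := by
    calc ‖lv b c‖ = ‖(y + lv b c) - y‖ := by rw [add_sub_cancel_left]
      _ ≤ _ := norm_sub_le _ _
  have h5 : 2 * ‖y + lv b c‖ - 1 ≤ ‖y + lv b c‖ ^ 2 := by nlinarith only [sq_nonneg (‖y + lv b c‖ - 1)]
  have h6 : 2 * (κ * ∑ i, |(c i : ℝ)| - R) - 1 ≤ ‖y + lv b c‖ ^ 2 := by linarith only [hy, h3, h4, h5]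
  calc 2 * c₀ * κ * ∑ i, |(c i : ℝ)| - c₀ * (2 * R + 1) = c₀ * (2 * (κ * ∑ i, |(c i : ℝ)| - R) - 1) := by ring
    _ ≤ c₀ * ‖y + lv b c‖ ^ 2 := mul_le_mul_of_nonneg_left h6 hc₀.le
    _ ≤ _ := h2

/-- for large `s` the terms with `c ≠ 0` are small -/
theorem gsum_small (hW : ∀ y, (∀ i, W i y = 0) → y = 0) (b : RB k) : ∃ K : ℕ, 1 ≤ K ∧ ∀ s : ℝ, K ≤ s →
    ∀ S : Finset (Fin (2 * (k + 1)) → ℤ), (0 : Fin (2 * (k + 1)) → ℤ) ∉ S → ∑ c ∈ S, Real.exp (-(s * wt W (lv b c))) ≤ 1 / 4 := by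
  obtain ⟨c₀, hc₀, h0⟩ := wt_low hW
  obtain ⟨κ, hκ, h1⟩ := lv_low b
  set a : ℝ := c₀ * κ ^ 2 with ha
  have ha0 : 0 < a := by positivity
  have hsm := ser_sum ha0 (2 * (k + 1))
  set C : ℝ := ∑' c : Fin (2 * (k + 1)) → ℤ, Real.exp (-(a * ∑ i, |(c i : ℝ)|)) with hC
  have hC0 : 0 ≤ C := tsum_nonneg fun c => (Real.exp_pos _).le
  refine ⟨⌈4 * C / a⌉₊ + 1, by omega, fun s hs S hS => ?_⟩
  have hs1 : 4 * C / a + 1 ≤ s := by
    refine le_trans ?_ hs
    push_cast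
    linarith only [Nat.le_ceil (4 * C / a)]
  have hs2 : 4 * C ≤ (s - 1) * a := by
    rw [← div_le_iff₀ ha0]
    linarith only [hs1]
  have hs3 : 1 ≤ s := by
    have : 0 ≤ 4 * C / a := by positivity
    linarith only [hs1, this]
  have hterm : ∀ c ∈ S, Real.exp (-(s * wt W (lv b c))) ≤ Real.exp (-((s - 1) * a)) * Real.exp (-(a * ∑ i, |(c i : ℝ)|)) := by
    intro c hc
    rw [← Real.exp_add]
    refine Real.exp_le_exp.2 ?_
    have hne : c ≠ 0 := fun h => hS (h ▸ hc)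
    have hS1 : 1 ≤ ∑ i, |(c i : ℝ)| := by
      obtain ⟨i, hi⟩ := Function.ne_iff.1 hne
      have h2 : (1 : ℝ) ≤ |(c i : ℝ)| := by
        have h3 : (1 : ℤ) ≤ |c i| := Int.one_le_abs hi
        have h4 : ((1 : ℤ) : ℝ) ≤ ((|c i| : ℤ) : ℝ) := Int.cast_le.2 h3
        rw [Int.cast_abs, Int.cast_one] at h4
        exact h4
      exact h2.trans (Finset.single_le_sum (f := fun i => |(c i : ℝ)|) (fun j _ => abs_nonneg _) (Finset.mem_univ i))
    set t : ℝ := ∑ i, |(c i : ℝ)| with ht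
    have h2 : a * t ^ 2 ≤ wt W (lv b c) := by
      have h3 : (κ * t) ^ 2 ≤ ‖lv b c‖ ^ 2 := pow_le_pow_left₀ (by positivity) (h1 c) 2
      calc a * t ^ 2 = c₀ * (κ * t) ^ 2 := by rw [ha]; ring
        _ ≤ c₀ * ‖lv b c‖ ^ 2 := mul_le_mul_of_nonneg_left h3 hc₀.le
        _ ≤ _ := h0 _
    have h3 : a * t ≤ a * t ^ 2 := by
      refine mul_le_mul_of_nonneg_left ?_ ha0.le
      nlinarith only [hS1]
    have h4 : s * (a * t) ≤ s * wt W (lv b c) := mul_le_mul_of_nonneg_left (h3.trans h2) (by linarith)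
    have h5 : (s - 1) * a ≤ (s - 1) * a * t := by
      refine le_mul_of_one_le_right ?_ hS1
      exact mul_nonneg (by linarith) ha0.le
    nlinarith only [h4, h5]
  calc ∑ c ∈ S, Real.exp (-(s * wt W (lv b c))) ≤ ∑ c ∈ S, Real.exp (-((s - 1) * a)) * Real.exp (-(a * ∑ i, |(c i : ℝ)|)) := Finset.sum_le_sum hterm
    _ = Real.exp (-((s - 1) * a)) * ∑ c ∈ S, Real.exp (-(a * ∑ i, |(c i : ℝ)|)) := by rw [Finset.mul_sum]
    _ ≤ Real.exp (-((s - 1) * a)) * C := by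
        refine mul_le_mul_of_nonneg_left ?_ (Real.exp_pos _).le
        exact hsm.sum_le_tsum S fun c _ => (Real.exp_pos _).le
    _ ≤ 1 / 4 := by
        rw [Real.exp_neg, inv_mul_le_iff₀ (Real.exp_pos _)]
        have h6 := Real.add_one_le_exp ((s - 1) * a)
        linarith only [hs2, h6]

private theorem ser_pk_diff (W : Fin r → Vd (k + 1) →L[ℂ] ℂ) (M : ℕ) (p : Vd (k + 1)) : Differentiable ℂ (pk W M p) := by
  unfold pk
  refine Complex.differentiable_exp.comp ?_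
  refine (Differentiable.const_mul ?_ _)
  refine Differentiable.fun_sum fun i _ => ?_
  exact ((W i).differentiable.const_mul _).sub_const _

/-- the terms are holomorphic -/
private theorem ser_term (T : ThF Γ W e) (hb : ∀ i, b i ∈ Γ) (M : ℕ) (p : Vd (k + 1)) (c : Fin (2 * (k + 1)) → ℤ) :
    Differentiable ℂ fun y => e (lv b c) y ^ M * pk W M p (y + lv b c) := by
  have h1 : Differentiable ℂ (e (lv b c)) := fun y => (T.an _ (lv_mem hb c) y).differentiableAt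
  have h2 : Differentiable ℂ fun y : Vd (k + 1) => pk W M p (y + lv b c) :=
    (ser_pk_diff W M p).comp (differentiable_id.add_const _)
  exact (h1.pow M).mul h2

/-- bounds of the terms, uniform on a ball -/
private theorem ser_bound (T : ThF Γ W e) (hb : ∀ i, b i ∈ Γ) (hM : 1 ≤ M) (p w : Vd (k + 1)) :
    ∃ v : (Fin (2 * (k + 1)) → ℤ) → ℝ, Summable v ∧ ∀ c, ∀ y ∈ ball w 1, ‖e (lv b c) y ^ M * pk W M p (y + lv b c)‖ ≤ v c := by
  obtain ⟨α, β, hα, h⟩ := ser_wt T.pos b (‖w - p‖ + 1)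
  have hM0 : (0 : ℝ) < M := by exact_mod_cast hM
  set B : ℝ := ∑ i, (‖W i‖ * (‖w‖ + 1)) ^ 2 with hB
  have hBw : ∀ y ∈ ball w 1, wt W y ≤ B := by
    intro y hy
    rw [mem_ball, dist_eq_norm] at hy
    refine Finset.sum_le_sum fun i _ => ?_
    refine pow_le_pow_left₀ (norm_nonneg _) (((W i).le_opNorm y).trans ?_) 2
    refine mul_le_mul_of_nonneg_left ?_ (norm_nonneg _)
    calc ‖y‖ = ‖(y - w) + w‖ := by rw [sub_add_cancel]
      _ ≤ ‖y - w‖ + ‖w‖ := norm_add_le _ _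
      _ ≤ ‖w‖ + 1 := by linarith
  refine ⟨fun c => Real.exp (M * B + M * β) * Real.exp (-(M * α * ∑ i, |(c i : ℝ)|)),
    (ser_sum (mul_pos hM0 hα) (2 * (k + 1))).mul_left _, fun c y hy => ?_⟩
  have h1 := term_norm T hb M p y c
  have h2 : ‖e (lv b c) y ^ M * pk W M p (y + lv b c)‖ = Real.exp (-(M * wt W (y + lv b c - p))) * Real.exp (M * wt W y) := by
    rw [← h1, mul_assoc, ← Real.exp_add, neg_add_cancel, Real.exp_zero, mul_one]
  rw [h2, ← Real.exp_add]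
  show _ ≤ Real.exp (M * B + M * β) * Real.exp (-(M * α * ∑ i, |(c i : ℝ)|))
  rw [← Real.exp_add]
  refine Real.exp_le_exp.2 ?_
  have h3 : ‖y - p‖ ≤ ‖w - p‖ + 1 := by
    rw [mem_ball, dist_eq_norm] at hy
    calc ‖y - p‖ = ‖(y - w) + (w - p)‖ := by rw [sub_add_sub_cancel]
      _ ≤ ‖y - w‖ + ‖w - p‖ := norm_add_le _ _
      _ ≤ ‖w - p‖ + 1 := by linarith only [hy]
  have h4 := mul_le_mul_of_nonneg_left (h (y - p) h3 c) hM0.le
  have h5 := mul_le_mul_of_nonneg_left (hBw y hy) hM0.le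
  have h6 : y - p + lv b c = y + lv b c - p := by abel
  rw [h6] at h4
  linarith only [h4, h5]

theorem th_thm (T : ThF Γ W e) (hb : ∀ i, b i ∈ Γ) (hM : 1 ≤ M) (p : Vd (k + 1)) : ThM b e M (th b W e M p) := by
  refine ⟨fun w => ?_, fun c y => ?_⟩
  · obtain ⟨v, hv, hvb⟩ := ser_bound T hb hM p w
    refine Pool.Agent.TN.osgood_pi (r := 1) (M := ∑' c, v c) one_pos (fun y hy => ?_) fun y hy l => ?_
    · exact tsum_of_norm_bounded hv.hasSum fun c => hvb c y hy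
    · obtain ⟨s, hs, hsb⟩ := Metric.isOpen_iff.1 (isOpen_ball (x := w) (ε := 1)) y hy
      have hmaps : Set.MapsTo (fun t : ℂ => y + t • (Pi.single l 1 : Vd (k + 1))) (ball 0 s) (ball w 1) := by
        intro t ht
        apply hsb
        rw [mem_ball, dist_eq_norm, add_sub_cancel_left, norm_smul]
        rw [mem_ball, dist_zero_right] at ht
        have h1 : ‖(Pi.single l 1 : Vd (k + 1))‖ ≤ 1 := by
          refine (pi_norm_le_iff_of_nonneg zero_le_one).2 fun j => ?_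
          by_cases hj : j = l
          · subst hj
            simp
          · simp [Pi.single_eq_of_ne hj]
        calc ‖t‖ * ‖(Pi.single l 1 : Vd (k + 1))‖ ≤ ‖t‖ * 1 := by gcongr
          _ < s := by rw [mul_one]; exact ht
      have h2 : DifferentiableOn ℂ (fun t : ℂ => ∑' c : Fin (2 * (k + 1)) → ℤ,
          (e (lv b c) (y + t • (Pi.single l 1 : Vd (k + 1))) ^ M * pk W M p ((y + t • (Pi.single l 1 : Vd (k + 1))) + lv b c))) (ball 0 s) := by
        refine Complex.differentiableOn_tsum_of_summable_norm hv (fun c => ?_) isOpen_ball fun c t ht => hvb c _ (hmaps ht)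
        have h4 : Differentiable ℂ (fun t : ℂ => y + t • (Pi.single l 1 : Vd (k + 1))) := by fun_prop
        exact ((ser_term T hb M p c).comp h4).differentiableOn
      exact h2.differentiableAt (isOpen_ball.mem_nhds (mem_ball_self hs))
  · unfold th
    rw [← tsum_mul_left, ← (Equiv.addRight c).tsum_eq fun c'' : Fin (2 * (k + 1)) → ℤ => e (lv b c'') y ^ M * pk W M p (y + lv b c'')]
    refine tsum_congr fun c' => ?_
    rw [Equiv.coe_addRight, lv_add, T.coc _ (lv_mem hb c') _ (lv_mem hb c) y, mul_pow, add_comm (lv b c') (lv b c), ← add_assoc]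
    ring

theorem th_summable (T : ThF Γ W e) (hb : ∀ i, b i ∈ Γ) (hM : 1 ≤ M) (p y : Vd (k + 1)) :
    Summable fun c : Fin (2 * (k + 1)) → ℤ => ‖e (lv b c) y ^ M * pk W M p (y + lv b c)‖ := by
  obtain ⟨v, hv, hvb⟩ := ser_bound T hb hM p y
  exact Summable.of_nonneg_of_le (fun c => norm_nonneg _) (fun c => hvb c y (mem_ball_self one_pos)) hv

end Pool.Agent.G4.H

end

section

/-!
# G4 H Dim: the dimension of the space of the theta functions of weight `M wt W` is at least `m ^ (2 (k + 1))`, `M = K m²`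

`b`, `K` from `exists_rb`, `gsum_small`.  `p j = (1 / m) lv b j`, `j : Fin (2 (k + 1)) → Fin m`, `M = K * m ^ 2`.  For `x : (Fin (2 (k + 1)) → Fin m) → ℂ`, `f = ∑ j, x j • th b W e M (p j)`; take `j₀` with `‖x j‖ ≤ ‖x j₀‖` for all `j`; at `y = p j₀`:
the term `(j₀, c = 0)` of `∑ j, x j ∑' c, …` has normalised size `‖x j₀‖`; the other terms `(j, c)` have total size `≤ ‖x j₀‖ ∑ exp (- M wt (p j₀ + lv b c - p j))`, `p j₀ + lv b c - p j = (1 / m) lv b (j₀ - j + m c)`, `(j, c) ↦ j₀ - j + m c`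
injective and `≠ 0`, `M wt ((1 / m) v) = K wt v`: by `gsum_small` `≤ ‖x j₀‖ / 4`.  So `f (p j₀) ≠ 0` if `x ≠ 0`.  With fewer than `m ^ (2 (k + 1))` linear conditions there is `x ≠ 0` which satisfies all of them.
-/

set_option autoImplicit false

open Topology Filter Metric

namespace Pool.Agent.G4.H

open Pool.Agent.AD (Vd)
open Pool.Agent.TG (Lat)
open Pool.Agent.G3 (wt)

variable {k r : ℕ} {Γ : AddSubgroup (Vd (k + 1))} {W : Fin r → Vd (k + 1) →L[ℂ] ℂ} {e : Vd (k + 1) → Vd (k + 1) → ℂ}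

private theorem lv_comb (b : RB k) {m : ℕ} (hm : 1 ≤ m) (i j c : Fin (2 * (k + 1)) → ℤ) :
    (1 / (m : ℝ)) • lv b j + lv b c - (1 / (m : ℝ)) • lv b i = (1 / (m : ℝ)) • lv b (fun a => j a - i a + m * c a) := by
  have hm' : (m : ℝ) ≠ 0 := by exact_mod_cast (by omega : m ≠ 0)
  simp only [lv, Finset.smul_sum, ← Finset.sum_add_distrib, ← Finset.sum_sub_distrib, smul_smul, ← add_smul, ← sub_smul]
  refine Finset.sum_congr rfl fun a _ => ?_
  congr 1
  push_cast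
  field_simp
  ring

private theorem wt_div (W : Fin r → Vd (k + 1) →L[ℂ] ℂ) {m : ℕ} (hm : 1 ≤ m) (K : ℕ) (v : Vd (k + 1)) :
    ((K * m ^ 2 : ℕ) : ℝ) * wt W ((1 / (m : ℝ)) • v) = K * wt W v := by
  have hm' : (m : ℝ) ≠ 0 := by exact_mod_cast (by omega : m ≠ 0)
  have : wt W ((1 / (m : ℝ)) • v) = (1 / (m : ℝ)) ^ 2 * wt W v := by
    simp only [wt, Finset.mul_sum]
    refine Finset.sum_congr rfl fun i _ => ?_
    rw [ContinuousLinearMap.map_smul_of_tower, norm_smul, mul_pow, Real.norm_eq_abs, sq_abs]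
  rw [this]
  push_cast
  field_simp

private theorem idx_inj {ι : Type} {m : ℕ} (j i i' : ι → Fin m) (c c' : ι → ℤ)
    (h : (fun a => ((j a : ℕ) : ℤ) - ((i a : ℕ) : ℤ) + m * c a) = fun a => ((j a : ℕ) : ℤ) - ((i' a : ℕ) : ℤ) + m * c' a) : i = i' ∧ c = c' := by
  have h1 : ∀ a, ((i a : ℕ) : ℤ) - ((i' a : ℕ) : ℤ) = m * (c a - c' a) := fun a => by
    have := congrFun h a
    linarith
  have h2 : ∀ a, c a = c' a := by
    intro a
    have hi := (i a).2
    have hi' := (i' a).2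
    have e := h1 a
    by_contra hne
    rcases lt_or_gt_of_ne hne with hlt | hgt
    · have : (m : ℤ) * (c a - c' a) ≤ m * (-1) := mul_le_mul_of_nonneg_left (by omega) (by omega)
      omega
    · have : (m : ℤ) * 1 ≤ m * (c a - c' a) := mul_le_mul_of_nonneg_left (by omega) (by omega)
      omega
  refine ⟨?_, funext h2⟩
  funext a
  have e := h1 a
  rw [h2 a, sub_self, mul_zero] at e
  exact Fin.ext (by omega)

private theorem lv_zero (b : RB k) : lv b 0 = 0 := by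
  simp [lv]

private theorem main_bd (T : ThF Γ W e) {b : RB k} (hb : ∀ i, b i ∈ Γ) {K m : ℕ} (hm : 1 ≤ m)
    (hK : ∀ s : ℝ, K ≤ s → ∀ S : Finset (Fin (2 * (k + 1)) → ℤ), (0 : Fin (2 * (k + 1)) → ℤ) ∉ S → ∑ c ∈ S, Real.exp (-(s * wt W (lv b c))) ≤ 1 / 4)
    (x : (Fin (2 * (k + 1)) → Fin m) → ℂ) (j₀ : Fin (2 * (k + 1)) → Fin m) (hj : ∀ i, ‖x i‖ ≤ ‖x j₀‖) (S : Finset (Fin (2 * (k + 1)) → ℤ)) (hS : {0} ⊆ S)
    (p : (Fin (2 * (k + 1)) → Fin m) → Vd (k + 1)) (hp : ∀ i, p i = (1 / (m : ℝ)) • lv b (fun a => ((i a : ℕ) : ℤ))) :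
    ‖x j₀‖ * (3 / 4) ≤ ‖∑ c ∈ S, ∑ i, x i * (e (lv b c) (p j₀) ^ (K * m ^ 2) * pk W (K * m ^ 2) (p i) (p j₀ + lv b c))‖ * Real.exp (-(((K * m ^ 2 : ℕ) : ℝ) * wt W (p j₀))) := by
  classical
  set M : ℕ := K * m ^ 2 with hM
  set E : ℝ := Real.exp (-((M : ℝ) * wt W (p j₀))) with hE
  have hE0 : 0 < E := Real.exp_pos _
  set t : (Fin (2 * (k + 1)) → Fin m) × (Fin (2 * (k + 1)) → ℤ) → ℂ := fun q => x q.1 * (e (lv b q.2) (p j₀) ^ M * pk W M (p q.1) (p j₀ + lv b q.2)) with ht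
  have hsum : ∑ c ∈ S, ∑ i, x i * (e (lv b c) (p j₀) ^ M * pk W M (p i) (p j₀ + lv b c)) = ∑ q ∈ (Finset.univ : Finset (Fin (2 * (k + 1)) → Fin m)) ×ˢ S, t q := by
    rw [Finset.sum_product_right]
  have hmem : (j₀, (0 : Fin (2 * (k + 1)) → ℤ)) ∈ (Finset.univ : Finset (Fin (2 * (k + 1)) → Fin m)) ×ˢ S := by
    simp only [Finset.mem_product, Finset.mem_univ, true_and]
    exact hS (by simp)
  have htn : ∀ q, ‖t q‖ * E = ‖x q.1‖ * Real.exp (-(K * wt W (lv b (fun a => ((j₀ a : ℕ) : ℤ) - ((q.1 a : ℕ) : ℤ) + m * q.2 a)))) := by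
    intro q
    rw [ht]
    simp only
    rw [norm_mul, mul_assoc, hE, term_norm T hb M (p q.1) (p j₀) q.2, hp j₀, hp q.1, lv_comb b hm, hM, wt_div W hm]
  have h0 : ‖t (j₀, 0)‖ * E = ‖x j₀‖ := by
    rw [htn]
    have : (fun a => ((j₀ a : ℕ) : ℤ) - ((j₀ a : ℕ) : ℤ) + m * (0 : Fin (2 * (k + 1)) → ℤ) a) = 0 := by
      funext a; simp
    simp only [this, lv_zero]
    simp [wt]
  have hrest : ‖∑ q ∈ ((Finset.univ : Finset (Fin (2 * (k + 1)) → Fin m)) ×ˢ S).erase (j₀, 0), t q‖ * E ≤ ‖x j₀‖ * (1 / 4) := by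
    calc ‖∑ q ∈ ((Finset.univ : Finset (Fin (2 * (k + 1)) → Fin m)) ×ˢ S).erase (j₀, 0), t q‖ * E
        ≤ (∑ q ∈ ((Finset.univ : Finset (Fin (2 * (k + 1)) → Fin m)) ×ˢ S).erase (j₀, 0), ‖t q‖) * E := mul_le_mul_of_nonneg_right (norm_sum_le _ _) hE0.le
      _ = ∑ q ∈ ((Finset.univ : Finset (Fin (2 * (k + 1)) → Fin m)) ×ˢ S).erase (j₀, 0), ‖x q.1‖ * Real.exp (-(K * wt W (lv b (fun a => ((j₀ a : ℕ) : ℤ) - ((q.1 a : ℕ) : ℤ) + m * q.2 a)))) := by
          rw [Finset.sum_mul]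
          exact Finset.sum_congr rfl fun q _ => htn q
      _ ≤ ∑ q ∈ ((Finset.univ : Finset (Fin (2 * (k + 1)) → Fin m)) ×ˢ S).erase (j₀, 0), ‖x j₀‖ * Real.exp (-(K * wt W (lv b (fun a => ((j₀ a : ℕ) : ℤ) - ((q.1 a : ℕ) : ℤ) + m * q.2 a)))) :=
          Finset.sum_le_sum fun q _ => mul_le_mul_of_nonneg_right (hj q.1) (Real.exp_pos _).le
      _ = ‖x j₀‖ * ∑ v ∈ (((Finset.univ : Finset (Fin (2 * (k + 1)) → Fin m)) ×ˢ S).erase (j₀, 0)).image (fun q a => ((j₀ a : ℕ) : ℤ) - ((q.1 a : ℕ) : ℤ) + m * q.2 a), Real.exp (-(K * wt W (lv b v))) := by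
          rw [← Finset.mul_sum, Finset.sum_image]
          intro q _ q' _ hqq
          obtain ⟨h1, h2⟩ := idx_inj j₀ q.1 q'.1 q.2 q'.2 hqq
          exact Prod.ext h1 h2
      _ ≤ ‖x j₀‖ * (1 / 4) := by
          refine mul_le_mul_of_nonneg_left (hK K le_rfl _ ?_) (norm_nonneg _)
          intro hmem0
          obtain ⟨q, hq, hq0⟩ := Finset.mem_image.1 hmem0
          have hq1 := (Finset.mem_erase.1 hq).1
          apply hq1
          have : (fun a => ((j₀ a : ℕ) : ℤ) - ((q.1 a : ℕ) : ℤ) + m * q.2 a) = fun a => ((j₀ a : ℕ) : ℤ) - ((j₀ a : ℕ) : ℤ) + m * (0 : Fin (2 * (k + 1)) → ℤ) a := by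
            rw [hq0]; funext a; simp
          obtain ⟨h1, h2⟩ := idx_inj j₀ q.1 j₀ q.2 0 this
          exact Prod.ext h1 h2
  rw [hsum, ← Finset.add_sum_erase _ _ hmem]
  have htri : ‖t (j₀, 0)‖ - ‖∑ q ∈ ((Finset.univ : Finset (Fin (2 * (k + 1)) → Fin m)) ×ˢ S).erase (j₀, 0), t q‖ ≤ ‖t (j₀, 0) + ∑ q ∈ ((Finset.univ : Finset (Fin (2 * (k + 1)) → Fin m)) ×ˢ S).erase (j₀, 0), t q‖ := by
    have := norm_sub_le (t (j₀, 0) + ∑ q ∈ ((Finset.univ : Finset (Fin (2 * (k + 1)) → Fin m)) ×ˢ S).erase (j₀, 0), t q) (∑ q ∈ ((Finset.univ : Finset (Fin (2 * (k + 1)) → Fin m)) ×ˢ S).erase (j₀, 0), t q)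
    rw [add_sub_cancel_right] at this
    linarith
  have := mul_le_mul_of_nonneg_right htri hE0.le
  rw [sub_mul] at this
  linarith

private theorem lin_sum (Φ : (Vd (k + 1) → ℂ) → ℂ)
    (hΦ : ∀ (f g : Vd (k + 1) → ℂ) (c : ℂ), (∀ y, AnalyticAt ℂ f y) → (∀ y, AnalyticAt ℂ g y) → Φ (fun y => f y + c * g y) = Φ f + c * Φ g)
    {ι : Type} (s : Finset ι) (x : ι → ℂ) (g : ι → Vd (k + 1) → ℂ) (hg : ∀ i, ∀ y, AnalyticAt ℂ (g i) y) :
    Φ (fun y => ∑ i ∈ s, x i * g i y) = ∑ i ∈ s, x i * Φ (g i) := by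
  classical
  induction s using Finset.induction_on with
  | empty =>
    have := hΦ (fun _ => 0) (fun _ => 0) (-1) (fun y => analyticAt_const) (fun y => analyticAt_const)
    simp only [mul_zero, add_zero] at this
    simp only [Finset.sum_empty]
    linear_combination this
  | insert a s ha ih =>
    have hs : ∀ y, AnalyticAt ℂ (fun y => ∑ i ∈ s, x i * g i y) y := fun y =>
      Finset.analyticAt_fun_sum s fun i _ => analyticAt_const.mul (hg i y)
    have := hΦ (fun y => ∑ i ∈ s, x i * g i y) (g a) (x a) hs (hg a)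
    rw [ih] at this
    have hfun : (fun y => ∑ i ∈ insert a s, x i * g i y) = fun y => ∑ i ∈ s, x i * g i y + x a * g a y := by
      funext y
      rw [Finset.sum_insert ha]
      ring
    rw [hfun, this, Finset.sum_insert ha]
    ring

theorem theta_ex (T : ThF Γ W e) {b : RB k} (hb : ∀ i, b i ∈ Γ) : ∃ K : ℕ, 1 ≤ K ∧ ∀ m : ℕ, 1 ≤ m → ∀ (J : Type) [Fintype J] (Φ : J → (Vd (k + 1) → ℂ) → ℂ),
    (∀ j (f g : Vd (k + 1) → ℂ) (c : ℂ), (∀ y, AnalyticAt ℂ f y) → (∀ y, AnalyticAt ℂ g y) → Φ j (fun y => f y + c * g y) = Φ j f + c * Φ j g) →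
    Fintype.card J < m ^ (2 * (k + 1)) → ∃ f : Vd (k + 1) → ℂ, ThM b e (K * m ^ 2) f ∧ (∃ y, f y ≠ 0) ∧ ∀ j, Φ j f = 0 := by
  classical
  obtain ⟨K, hK1, hK⟩ := gsum_small T.pos b
  refine ⟨K, hK1, fun m hm J _ Φ hΦ hcard => ?_⟩
  have hM1 : 1 ≤ K * m ^ 2 := Nat.one_le_iff_ne_zero.2 (by positivity)
  set p : (Fin (2 * (k + 1)) → Fin m) → Vd (k + 1) := fun i => (1 / (m : ℝ)) • lv b (fun a => ((i a : ℕ) : ℤ)) with hp
  set θ : (Fin (2 * (k + 1)) → Fin m) → Vd (k + 1) → ℂ := fun i => th b W e (K * m ^ 2) (p i) with hθ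
  have hθm : ∀ i, ThM b e (K * m ^ 2) (θ i) := fun i => th_thm T hb hM1 (p i)
  let L : ((Fin (2 * (k + 1)) → Fin m) → ℂ) →ₗ[ℂ] (J → ℂ) :=
    { toFun := fun x j => ∑ i, x i * Φ j (θ i)
      map_add' := fun x x' => by
        funext j; simp only [Pi.add_apply, add_mul, Finset.sum_add_distrib]
      map_smul' := fun c x => by
        funext j; simp only [Pi.smul_apply, smul_eq_mul, RingHom.id_apply, Finset.mul_sum, mul_assoc] }
  have hker : LinearMap.ker L ≠ ⊥ := by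
    apply LinearMap.ker_ne_bot_of_finrank_lt
    simpa [Module.finrank_fintype_fun_eq_card, Fintype.card_fun] using hcard
  obtain ⟨x, hxL, hx0⟩ := (Submodule.ne_bot_iff _).1 hker
  have hLx : ∀ j, ∑ i, x i * Φ j (θ i) = 0 := fun j => congrFun (LinearMap.mem_ker.1 hxL) j
  refine ⟨fun y => ∑ i, x i * θ i y, ⟨?_, ?_⟩, ?_, ?_⟩
  · exact fun y => Finset.analyticAt_fun_sum _ fun i _ => analyticAt_const.mul ((hθm i).an y)
  · intro c y
    rw [Finset.mul_sum]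
    refine Finset.sum_congr rfl fun i _ => ?_
    rw [← (hθm i).per c y]
    ring
  · obtain ⟨i₁, hi₁⟩ := Function.ne_iff.1 hx0
    have : Nonempty (Fin (2 * (k + 1)) → Fin m) := ⟨i₁⟩
    obtain ⟨j₀, hj₀⟩ := Finite.exists_max (fun i => ‖x i‖)
    have hxj : 0 < ‖x j₀‖ := lt_of_lt_of_le (norm_pos_iff.2 hi₁) (hj₀ i₁)
    refine ⟨p j₀, ?_⟩
    have hs : HasSum (fun c => ∑ i, x i * (e (lv b c) (p j₀) ^ (K * m ^ 2) * pk W (K * m ^ 2) (p i) (p j₀ + lv b c))) (∑ i, x i * θ i (p j₀)) := by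
      apply hasSum_sum
      intro i _
      exact ((th_summable T hb hM1 (p i) (p j₀)).of_norm.hasSum).mul_left (x i)
    have ht : Tendsto (fun S : Finset (Fin (2 * (k + 1)) → ℤ) => ‖∑ c ∈ S, ∑ i, x i * (e (lv b c) (p j₀) ^ (K * m ^ 2) * pk W (K * m ^ 2) (p i) (p j₀ + lv b c))‖ * Real.exp (-(((K * m ^ 2 : ℕ) : ℝ) * wt W (p j₀)))) atTop
        (𝓝 (‖∑ i, x i * θ i (p j₀)‖ * Real.exp (-(((K * m ^ 2 : ℕ) : ℝ) * wt W (p j₀))))) := (Tendsto.norm hs).mul_const _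
    have hge := ge_of_tendsto ht ((eventually_ge_atTop {0}).mono fun S hS => main_bd T hb hm hK x j₀ hj₀ S hS p (fun i => rfl))
    intro h0
    replace h0 : ∑ i, x i * θ i (p j₀) = 0 := h0
    rw [h0, norm_zero, zero_mul] at hge
    linarith
  · intro j
    rw [lin_sum (Φ j) (hΦ j) Finset.univ x θ fun i y => (hθm i).an y]
    exact hLx j

end Pool.Agent.G4.H

end

section

/-!
# TG Jan: properties of the integral

Compare `Pool/Agent/H62/EL/Jan.lean` (there for members of `Sb`, here for local lifts and for points of the fibres).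

`II_analytic`: for `y` near `y₀`: `y ∈ closedBall y₀ r`, `dist (pr (φ y)) (pr (φ y₀)) + ε ≤ r` (continuity), so `II_eq` (`A` from `exists_prim`): `II = (A (χ.q (ψ y)) - A (χ.q (φ y))) / ρ ^ (k + 1)`;
`φ y₀, ψ y₀ ∈ χ.U` and `χ.q _ ∈ closedBall 0 1` (`Cap`; `dist (pr (ψ y₀)) (pr (φ y₀)) ≤ ε` by `IRel.mem`).

`II_bdd`: suppose not: `y_n ∈ Gd D δ`, `m_n`, `m'_n` with `‖II α ε y_n m_n m'_n‖ > n`; then `II ≠ 0`, so there is `v` with `IRel`, `m_n, m'_n ∈ Fb .. y_n` (`IRel.mem`).  Translate by `Γ` (`II_per`, `Geo.gd_add`, `fb_add`, `Lat.cpt`):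
`y_n` bounded; along an ultrafilter `y_n → y ∈ Gd D δ`, `m_n → m ∈ Fb .. y` (`fb_lim`).  `Cap χ c ρ y m r` with `r > ε`; for large `n` `y_n ∈ closedBall y r`, `dist m_n m + ε ≤ r`: `II_eq`: `‖II‖ ≤ 2 M / ρ ^ (k + 1)`, `M` the maximum of `‖A‖` on
`closedBall 0 1`: contradiction.

`II_lim`: `II_eq` for `(y n, m n, m' n)` and for the limit; lifts of `m n`, `m' n` converge to lifts of `m₀`, `m₀'` in the sense of `fb_lim`, so `χ.q _` converges; `A` is continuous.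
-/

set_option autoImplicit false

open Topology Filter Metric

namespace Pool.Agent.TG

open Pool.Agent.H36.BP (EN fs wd)
open Pool.Agent.H14.PP (IsCone CurveAt Tan)
open Pool.Agent.H62.EF (MN pr)
open Pool.Agent.AD (Vd Chart Charts IsGerm)

variable {N k : ℕ}

variable {X : Set (EN N)} {Λ : AddSubgroup (Vd (k + 1))} {u : EN N → Vd (k + 1)} {D B : Set (Vd (k + 1))}

private theorem Jan_closed_sub : closedBall (0 : Vd (k + 2)) 1 ⊆ ball (0 : Vd (k + 2)) 2 := closedBall_subset_ball (by norm_num)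

theorem II_analytic (hX : IsCone X) (hu : TMap X Λ u) (hΛ : Lat Λ) {α : VForm X Λ u} {ε r : ℝ} {φ ψ : Vd (k + 1) → EN N} {y₀ : Vd (k + 1)}
    (hφ : AnalyticAt ℂ φ y₀) (hψ : AnalyticAt ℂ ψ y₀) (hφX : ∀ᶠ y in 𝓝 y₀, φ y ∈ X ∧ u (φ y) - y ∈ Λ)
    (hψX : ∀ᶠ y in 𝓝 y₀, ψ y ∈ X ∧ u (ψ y) - y ∈ Λ) {χ : Chart (k + 2) X} {c : Vd (k + 1)} {ρ : ℝ} (hc : Cap Λ u χ c ρ y₀ (pr (φ y₀)) r)
    (hr : ε < r) (hrel : ∀ᶠ y in 𝓝 y₀, ∃ v, IRel α ε y (pr (φ y)) (pr (ψ y)) v) :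
    AnalyticAt ℂ (fun y => II α ε y (pr (φ y)) (pr (ψ y))) y₀ := by
  obtain ⟨A, hA⟩ := exists_prim α χ hc.str
  obtain ⟨v₀, hv₀⟩ := hrel.self_of_nhds
  obtain ⟨-, -, hfg⟩ := hv₀.mem
  have hε : 0 ≤ ε := dist_nonneg.trans hfg
  have hr0 : 0 < r := lt_of_le_of_lt hε hr
  obtain ⟨hφX0, hφu⟩ := hφX.self_of_nhds
  obtain ⟨hψX0, hψu⟩ := hψX.self_of_nhds
  have hy₀r : y₀ ∈ closedBall y₀ r := mem_closedBall_self hr0.le
  obtain ⟨hφU, hφq, -⟩ := hc.cap y₀ hy₀r (φ y₀) hφX0 hφu (by rw [dist_self]; exact hr0.le)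
  obtain ⟨hψU, hψq, -⟩ := hc.cap y₀ hy₀r (ψ y₀) hψX0 hψu (hfg.trans hr.le)
  have a1 : AnalyticAt ℂ (fun y => A (χ.q (φ y))) y₀ :=
    AnalyticAt.comp (f := fun y => χ.q (φ y)) (g := A) (hA.an _ (Jan_closed_sub hφq))
      (AnalyticAt.comp (f := φ) (g := χ.q) (χ.q_an _ hφU) hφ)
  have a2 : AnalyticAt ℂ (fun y => A (χ.q (ψ y))) y₀ :=
    AnalyticAt.comp (f := fun y => χ.q (ψ y)) (g := A) (hA.an _ (Jan_closed_sub hψq))
      (AnalyticAt.comp (f := ψ) (g := χ.q) (χ.q_an _ hψU) hψ)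
  have hρ : (ρ : ℂ) ^ (k + 1) ≠ 0 := by
    have h1 := hc.str.pos
    exact pow_ne_zero _ (by exact_mod_cast h1.ne')
  have a3 : AnalyticAt ℂ (fun y => (A (χ.q (ψ y)) - A (χ.q (φ y))) / (ρ : ℂ) ^ (k + 1)) y₀ := (a2.sub a1).div analyticAt_const hρ
  refine a3.congr ?_
  have e3 : ∀ᶠ y in 𝓝 y₀, y ∈ closedBall y₀ r := closedBall_mem_nhds _ hr0
  have e4 : ∀ᶠ y in 𝓝 y₀, dist (pr (φ y)) (pr (φ y₀)) < r - ε := by
    have h1 : ContinuousAt (fun y => pr (φ y)) y₀ := ContinuousAt.comp (f := φ) (g := pr)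
      (Pool.Agent.H62.EF.continuousAt_pr (ne_zero hX hφX0)) hφ.continuousAt
    exact h1.eventually (ball_mem_nhds _ (by linarith))
  filter_upwards [hφX, hψX, e3, e4, hrel] with y h1 h2 h3 h4 h5
  exact (II_eq hX hu hΛ h5 hc hA h3 (by linarith) h1.1 h2.1 rfl rfl).symm

theorem II_bdd (G : Geo X Λ u D B) {Γ : AddSubgroup (Vd (k + 1))} (hΓ : Lat Γ) (hle : Γ ≤ Λ) {α : VForm X Λ u} (hper : Per α Γ) {δ ε r : ℝ}
    (hδ : 0 < δ) (hr : ε < r)
    (hcap : ∀ y₀ ∈ Gd D δ, ∀ m ∈ Fb X Λ u y₀, ∃ (χ : Chart (k + 2) X) (c : Vd (k + 1)) (ρ : ℝ), Cap Λ u χ c ρ y₀ m r) :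
    ∃ C : ℝ, 0 ≤ C ∧ ∀ y ∈ Gd D δ, ∀ m m' : MN N, ‖II α ε y m m'‖ ≤ C := by
  by_contra hcon
  push Not at hcon
  obtain ⟨R, hR, hcov⟩ := hΓ.cpt
  have hseq : ∀ n : ℕ, ∃ (y : Vd (k + 1)) (m m' : MN N), y ∈ Gd D δ ∧ ‖y‖ ≤ R ∧ (n : ℝ) < ‖II α ε y m m'‖ := by
    intro n
    obtain ⟨y, hy, m, m', hn⟩ := hcon n (Nat.cast_nonneg n)
    obtain ⟨l, hl, hyl⟩ := hcov y
    refine ⟨y - l, m, m', ?_, hyl, ?_⟩
    · rw [← G.gd_add δ (hle hl), sub_add_cancel]
      exact hy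
    · have h1 := II_per G.tor hle hper hl ε (y - l) m m'
      rw [sub_add_cancel] at h1
      rw [← h1]
      exact hn
  choose y m m' hy hyR hn using hseq
  have hex : ∀ n, ∃ v, IRel α ε (y n) (m n) (m' n) v := by
    intro n
    by_contra hno
    have h1 : II α ε (y n) (m n) (m' n) = 0 := by
      unfold II
      rw [dif_neg hno]
    have h2 := hn n
    rw [h1, norm_zero] at h2
    exact absurd h2 (not_lt.2 (Nat.cast_nonneg n))
  have hmF : ∀ n, m n ∈ Fb X Λ u (y n) := fun n => by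
    obtain ⟨v, hv⟩ := hex n
    exact hv.mem.1
  have hε : 0 ≤ ε := by
    obtain ⟨v, hv⟩ := hex 0
    exact dist_nonneg.trans hv.mem.2.2
  have hr0 : 0 < r := lt_of_le_of_lt hε hr
  set 𝒰 : Ultrafilter ℕ := hyperfilter ℕ with h𝒰
  obtain ⟨y₀, -, hy₀⟩ := (isCompact_closedBall (0 : Vd (k + 1)) R).ultrafilter_le_nhds (𝒰.map y) (by
    rw [Ultrafilter.coe_map, le_principal_iff, mem_map]
    refine univ_mem' fun n => ?_
    simpa using hyR n)
  have hyt : Tendsto y 𝒰 (𝓝 y₀) := hy₀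
  have hy₀G : y₀ ∈ Gd D δ := (gd_closed D δ).mem_of_tendsto hyt (Eventually.of_forall hy)
  obtain ⟨m₀, -, hm₀⟩ := (Pool.Agent.H62.EF.isCompact_pr G.cone).ultrafilter_le_nhds (𝒰.map m) (by
    rw [Ultrafilter.coe_map, le_principal_iff, mem_map]
    refine univ_mem' fun n => ?_
    obtain ⟨x, hx, hxm, -⟩ := hmF n
    exact ⟨x, hx, hxm⟩)
  have hmt : Tendsto m 𝒰 (𝓝 m₀) := hm₀
  have hm₀F := (fb_lim G.cone G.lat G.tor hmt hyt (Eventually.of_forall hmF)).1
  obtain ⟨χ, c, ρ, hc⟩ := hcap y₀ hy₀G m₀ hm₀F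
  obtain ⟨A, hA⟩ := exists_prim α χ hc.str
  have hAc : ContinuousOn A (closedBall (0 : Vd (k + 2)) 1) := fun p hp => (hA.an p (Jan_closed_sub hp)).continuousAt.continuousWithinAt
  obtain ⟨M, hM⟩ := (isCompact_closedBall (0 : Vd (k + 2)) 1).exists_bound_of_continuousOn hAc
  have e1 : ∀ᶠ n in (𝒰 : Filter ℕ), y n ∈ closedBall y₀ r := hyt.eventually (closedBall_mem_nhds _ hr0)
  have e2 : ∀ᶠ n in (𝒰 : Filter ℕ), dist (m n) m₀ < r - ε := hmt.eventually (ball_mem_nhds _ (by linarith))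
  have e3 : ∀ᶠ n : ℕ in (𝒰 : Filter ℕ), 2 * M / ρ ^ (k + 1) ≤ (n : ℝ) := by
    have h1 : ∀ᶠ n : ℕ in atTop, 2 * M / ρ ^ (k + 1) ≤ (n : ℝ) := tendsto_natCast_atTop_atTop.eventually_ge_atTop _
    exact Nat.hyperfilter_le_atTop h1
  obtain ⟨n, h1, h2, h3⟩ := (e1.and (e2.and e3)).exists
  obtain ⟨v, hv⟩ := hex n
  obtain ⟨⟨x, hxX, hxm, hxu⟩, ⟨x', hxX', hxm', hxu'⟩, hd⟩ := hv.mem
  obtain ⟨-, hq, -⟩ := hc.cap (y n) h1 x hxX hxu (by rw [hxm]; linarith)
  obtain ⟨-, hq', -⟩ := hc.cap (y n) h1 x' hxX' hxu' (by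
    rw [hxm']
    have h4 := dist_triangle (m' n) (m n) m₀
    linarith)
  have hII := II_eq G.cone G.tor G.lat ⟨v, hv⟩ hc hA h1 (by linarith) hxX hxX' hxm hxm'
  have hρ : 0 < ρ ^ (k + 1) := pow_pos hc.str.pos _
  have h4 := hn n
  rw [hII, norm_div, norm_pow, Complex.norm_real, Real.norm_of_nonneg hc.str.pos.le] at h4
  have h5 : ‖A (χ.q x') - A (χ.q x)‖ ≤ 2 * M := by
    have h6 := norm_sub_le (A (χ.q x')) (A (χ.q x))
    have h7 := hM _ hq
    have h8 := hM _ hq'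
    linarith
  have h9 : ‖A (χ.q x') - A (χ.q x)‖ / ρ ^ (k + 1) ≤ 2 * M / ρ ^ (k + 1) := div_le_div_of_nonneg_right h5 hρ.le
  linarith

theorem II_lim (hX : IsCone X) (hu : TMap X Λ u) (hΛ : Lat Λ) {α : VForm X Λ u} {ε r : ℝ} {ι : Type*} {l : Filter ι} [l.NeBot]
    {y : ι → Vd (k + 1)} {m m' : ι → MN N} {y₀ : Vd (k + 1)} {m₀ m₀' : MN N} (hy : Tendsto y l (𝓝 y₀)) (hm : Tendsto m l (𝓝 m₀))
    (hm' : Tendsto m' l (𝓝 m₀')) {χ : Chart (k + 2) X} {c : Vd (k + 1)} {ρ : ℝ} (hc : Cap Λ u χ c ρ y₀ m₀ r) (hr : ε < r)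
    (hrel : ∀ᶠ n in l, ∃ v, IRel α ε (y n) (m n) (m' n) v) (hrel' : ∃ v, IRel α ε y₀ m₀ m₀' v) :
    Tendsto (fun n => II α ε (y n) (m n) (m' n)) l (𝓝 (II α ε y₀ m₀ m₀')) := by
  obtain ⟨A, hA⟩ := exists_prim α χ hc.str
  obtain ⟨v₀, hv₀⟩ := hrel'
  obtain ⟨⟨x, hxX, hxm, hxu⟩, ⟨x', hxX', hxm', hxu'⟩, hd⟩ := hv₀.mem
  have hε : 0 ≤ ε := dist_nonneg.trans hd
  have hr0 : 0 < r := lt_of_le_of_lt hε hr
  have hyr : y₀ ∈ closedBall y₀ r := mem_closedBall_self hr0.le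
  obtain ⟨hU, hq, -⟩ := hc.cap y₀ hyr x hxX hxu (by rw [hxm, dist_self]; exact hr0.le)
  obtain ⟨hU', hq', -⟩ := hc.cap y₀ hyr x' hxX' hxu' (by rw [hxm']; exact hd.trans hr.le)
  have hch : ∀ n, ∃ z z' : EN N, (∃ v, IRel α ε (y n) (m n) (m' n) v) → (z ∈ X ∧ pr z = m n) ∧ z' ∈ X ∧ pr z' = m' n := by
    intro n
    by_cases h : ∃ v, IRel α ε (y n) (m n) (m' n) v
    · obtain ⟨v, hv⟩ := h
      obtain ⟨⟨z, h1, h2, -⟩, ⟨z', h3, h4, -⟩, -⟩ := hv.mem
      exact ⟨z, z', fun _ => ⟨⟨h1, h2⟩, h3, h4⟩⟩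
    · exact ⟨0, 0, fun h' => absurd h' h⟩
  choose z z' hz using hch
  have t1 : Tendsto (fun n => χ.q (z n)) l (𝓝 (χ.q x)) := by
    refine tendsto_q χ hU (ne_zero hX hxX) (hrel.mono fun n h => ne_zero hX (hz n h).1.1) ?_
    rw [hxm]
    exact hm.congr' (hrel.mono fun n h => (hz n h).1.2.symm)
  have t2 : Tendsto (fun n => χ.q (z' n)) l (𝓝 (χ.q x')) := by
    refine tendsto_q χ hU' (ne_zero hX hxX') (hrel.mono fun n h => ne_zero hX (hz n h).2.1) ?_
    rw [hxm']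
    exact hm'.congr' (hrel.mono fun n h => (hz n h).2.2.symm)
  have t3 : Tendsto (fun n => A (χ.q (z n))) l (𝓝 (A (χ.q x))) := (hA.an _ (Jan_closed_sub hq)).continuousAt.tendsto.comp t1
  have t4 : Tendsto (fun n => A (χ.q (z' n))) l (𝓝 (A (χ.q x'))) := (hA.an _ (Jan_closed_sub hq')).continuousAt.tendsto.comp t2
  have hII := II_eq hX hu hΛ ⟨v₀, hv₀⟩ hc hA hyr (by rw [dist_self]; linarith) hxX hxX' hxm hxm'
  rw [hII]
  refine Tendsto.congr' ?_ ((t4.sub t3).div_const ((ρ : ℂ) ^ (k + 1)))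
  have e1 : ∀ᶠ n in l, y n ∈ closedBall y₀ r := hy.eventually (closedBall_mem_nhds _ hr0)
  have e2 : ∀ᶠ n in l, dist (m n) m₀ < r - ε := hm.eventually (ball_mem_nhds _ (by linarith))
  filter_upwards [e1, e2, hrel] with n h1 h2 h3
  obtain ⟨⟨h4, h5⟩, h6, h7⟩ := hz n h3
  exact (II_eq hX hu hΛ h3 hc hA h1 (by linarith) h4 h6 h5 h7).symm

end Pool.Agent.TG

end
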