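import Pool.Agent.H94.G5T.M106
import Pool.Agent.H94.G5T.M107
import Pool.Agent.H94.G5T.M110
import Pool.Agent.H94.G5T.M111
import Pool.Agent.H94.G5T.M112
import Pool.Agent.H94.G5T.M120
import Pool.Agent.H94.G5T.M121
import Pool.Agent.H94.G5T.M72
import Pool.Agent.H94.G5T.M88
import Pool.Agent.H94.G5T.M93

/-! The parts of this file: TG.SbB, TG.XPd, TG.Core, TG.Trl, TG.GuF, G4.F.Ln, G4.M.ConM. -/

section

/-!
# TG SbB: the limits of the sections are holomorphic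

`sb_lift`: let `y₀ ∈ Gd D (2δ)` (`Geo.exists_gd`), `m₀ = f y₀ = pr x₀` (`sb_mem`), `i` an index with `x₀ i ≠ 0`.  For a matrix `m` with `m (i, i) ≠ 0` let `ν m = (m (j, i) / m (i, i))_j ∈ EN N`; `ν (pr x) = x / x i` (`pr x (j, i) = x j conj (x i) / ‖x‖²`), and `pr (ν m) = m` for `m = pr x`.
`φ y := ν (f y)`.  On a small ball `β` about `y₀` (inside `Gd D δ`) `f y (i, i)` has absolute value `≥ c > 0` (`sb_lip`).  `f` is the limit of members `F n ∈ Sec`, uniformly on `β` (definition of `Sb`), and `ν ∘ F n` is analytic on `β` for large `n` (local lifts `φ'`: `ν (pr φ') =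
φ' / φ' i`), bounded, and converges uniformly to `φ`; so `φ` is separately holomorphic (`TendstoLocallyUniformlyOn.differentiableOn` on complex lines) and bounded, hence analytic (`Pool.Agent.TN.osgood_pi`).  `φ y` is a multiple of a lift of `f y ∈ Fb X Λ u y` (`sb_mem`), so
`φ y ∈ X`, `u (φ y) - y ∈ Λ` (`fb_lift`), `pr (φ y) = f y`.
`sb_uniq`: the set `{y ∉ D : f = g near y}` contains `y₀`, is open, and closed in `Dᶜ`: let `y ∉ D` be in its closure, local lifts `φ, ψ` at `y` (`sb_lift`); the minors `φ_i ψ_j - φ_j ψ_i` are analytic near `y` and vanish on a nonempty open set in every small ball about `y`, so near `y`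
(identity theorem: `AnalyticOnNhd.eqOn_of_preconnected_of_eventuallyEq`), so `f = g` near `y`.  `Dᶜ` is preconnected (`compl_conn`).
`sb_II_analytic`: `II_analytic` with the lifts of `f`, `g`, `Cst.cap` at `(y₀, f y₀)`.
-/

set_option autoImplicit false

open Topology Filter Metric

namespace Pool.Agent.TG

open Pool.Agent.H36.BP (EN fs wd)
open Pool.Agent.H14.PP (IsCone CurveAt Tan)
open Pool.Agent.H62.EF (MN pr)
open Pool.Agent.AD (Vd Chart Charts IsGerm)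

variable {N k : ℕ}

variable {X : Set (EN N)} {Λ : AddSubgroup (Vd (k + 1))} {u : EN N → Vd (k + 1)} {D B : Set (Vd (k + 1))}

private theorem sbb_pr_apply (x : EN N) (i j : Fin (N + 1)) : pr x (j, i) = x j * (starRingEnd ℂ) (x i) / ((‖x‖ ^ 2 : ℝ) : ℂ) := rfl

/-- the affine coordinates from the matrix -/
private noncomputable def sbR (i j : Fin (N + 1)) (m : MN N) : ℂ := m (j, i) / m (i, i)

private theorem sbb_ne {x : EN N} {i : Fin (N + 1)} (h : pr x (i, i) ≠ 0) : x i ≠ 0 := by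
  intro h0
  apply h
  rw [sbb_pr_apply, h0, zero_mul, zero_div]

private theorem sbR_pr {x : EN N} {i : Fin (N + 1)} (j : Fin (N + 1)) (h : x i ≠ 0) : sbR i j (pr x) = x j / x i := by
  have hx : x ≠ 0 := by
    rintro rfl
    exact h rfl
  have h1 : ((‖x‖ ^ 2 : ℝ) : ℂ) ≠ 0 := by
    exact_mod_cast pow_ne_zero 2 (norm_ne_zero_iff.mpr hx)
  have h2 : (starRingEnd ℂ) (x i) ≠ 0 := (map_ne_zero _).mpr h
  unfold sbR
  rw [sbb_pr_apply, sbb_pr_apply]
  field_simp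

private theorem sbb_norm_apply (m : MN N) (p : Fin (N + 1) × Fin (N + 1)) : ‖m p‖ ≤ ‖m‖ := PiLp.norm_apply_le m p

private theorem sbR_lip {c : ℝ} (hc : 0 < c) {i j : Fin (N + 1)} {m m' : MN N} (hm : ‖m‖ ≤ 1) (hm' : ‖m'‖ ≤ 1) (h : c ≤ ‖m (i, i)‖)
    (h' : c ≤ ‖m' (i, i)‖) : dist (sbR i j m) (sbR i j m') ≤ 2 / c ^ 2 * dist m m' := by
  have h0 : m (i, i) ≠ 0 := fun e => by
    rw [e, norm_zero] at h
    linarith
  have h0' : m' (i, i) ≠ 0 := fun e => by
    rw [e, norm_zero] at h'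
    linarith
  have h1 : sbR i j m - sbR i j m' = (m (j, i) * (m' (i, i) - m (i, i)) + m (i, i) * (m (j, i) - m' (j, i))) / (m (i, i) * m' (i, i)) := by
    unfold sbR
    field_simp
    ring
  have h2 : ‖m' (i, i) - m (i, i)‖ ≤ dist m m' := by
    rw [dist_comm, dist_eq_norm]
    exact sbb_norm_apply (m' - m) (i, i)
  have h3 : ‖m (j, i) - m' (j, i)‖ ≤ dist m m' := by
    rw [dist_eq_norm]
    exact sbb_norm_apply (m - m') (j, i)
  have h4 : ‖m (j, i)‖ ≤ 1 := (sbb_norm_apply m _).trans hm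
  have h5 : ‖m (i, i)‖ ≤ 1 := (sbb_norm_apply m _).trans hm
  rw [dist_eq_norm, h1, norm_div, norm_mul (m (i, i)) (m' (i, i)), div_le_iff₀ (mul_pos (norm_pos_iff.mpr h0) (norm_pos_iff.mpr h0'))]
  have h6 : ‖m (j, i) * (m' (i, i) - m (i, i)) + m (i, i) * (m (j, i) - m' (j, i))‖ ≤ 2 * dist m m' := by
    refine (norm_add_le _ _).trans ?_
    rw [norm_mul, norm_mul]
    have h7 : ‖m (j, i)‖ * ‖m' (i, i) - m (i, i)‖ ≤ 1 * dist m m' := mul_le_mul h4 h2 (norm_nonneg _) zero_le_one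
    have h8 : ‖m (i, i)‖ * ‖m (j, i) - m' (j, i)‖ ≤ 1 * dist m m' := mul_le_mul h5 h3 (norm_nonneg _) zero_le_one
    linarith
  have h7 : c ^ 2 ≤ ‖m (i, i)‖ * ‖m' (i, i)‖ := by
    rw [pow_two]
    exact mul_le_mul h h' hc.le (norm_nonneg _)
  have h8 : 0 ≤ 2 / c ^ 2 * dist m m' := by positivity
  calc _ ≤ 2 * dist m m' := h6
    _ = 2 / c ^ 2 * dist m m' * c ^ 2 := by field_simp
    _ ≤ 2 / c ^ 2 * dist m m' * (‖m (i, i)‖ * ‖m' (i, i)‖) := mul_le_mul_of_nonneg_left h7 h8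

/-- the affine coordinates of a section are analytic -/
private theorem sbR_sec {F : Vd (k + 1) → MN N} (hF : F ∈ Sec X Λ u D) {y : Vd (k + 1)} (hy : y ∉ D) {i : Fin (N + 1)} (j : Fin (N + 1))
    (h : F y (i, i) ≠ 0) : AnalyticAt ℂ (fun z => sbR i j (F z)) y := by
  obtain ⟨φ, hφ, hφF⟩ := hF.1 y hy
  have hco : ∀ l : Fin (N + 1), AnalyticAt ℂ (fun z => φ z l) y := fun l =>
    ((EuclideanSpace.proj (𝕜 := ℂ) l : EN N →L[ℂ] ℂ).analyticAt _).comp hφ
  have hne : φ y i ≠ 0 := by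
    have h1 := hφF.self_of_nhds.2.1
    rw [h1] at h
    exact sbb_ne h
  have h1 : AnalyticAt ℂ (fun z => φ z j / φ z i) y := (hco j).div (hco i) hne
  refine h1.congr ?_
  filter_upwards [hφF, (hco i).continuousAt.eventually_ne hne] with z hz hz2
  rw [hz.2.1, sbR_pr j hz2]

theorem sb_lift (G : Geo X Λ u D B) {f : Vd (k + 1) → MN N} (hf : f ∈ Sb X Λ u D) {y₀ : Vd (k + 1)} (hy₀ : y₀ ∉ D) :
    ∃ φ : Vd (k + 1) → EN N, AnalyticAt ℂ φ y₀ ∧ ∀ᶠ y in 𝓝 y₀, φ y ∈ X ∧ u (φ y) - y ∈ Λ ∧ pr (φ y) = f y := by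
  obtain ⟨δ, hδ, hyG⟩ := G.exists_gd hy₀
  obtain ⟨L, hL, hlip⟩ := sb_lip G hδ
  obtain ⟨x₀, hx₀, hpr, hux⟩ := sb_mem G hf hy₀
  have hx₀0 : x₀ ≠ 0 := ne_zero G.cone hx₀
  obtain ⟨i, hi⟩ : ∃ i, x₀ i ≠ 0 := by
    by_contra h
    push Not at h
    apply hx₀0
    ext i
    exact h i
  -- lower bound
  set c₀ : ℝ := ‖f y₀ (i, i)‖ with hc₀
  have hc₀0 : 0 < c₀ := by
    rw [hc₀, norm_pos_iff, ← hpr, sbb_pr_apply]
    exact div_ne_zero (mul_ne_zero hi ((map_ne_zero _).mpr hi)) (Complex.ofReal_ne_zero.mpr (pow_ne_zero 2 (norm_ne_zero_iff.mpr hx₀0)))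
  set r : ℝ := min (δ / 2) (c₀ / (4 * L)) with hr
  have hr0 : 0 < r := lt_min (by positivity) (by positivity)
  have hrδ : r ≤ δ / 2 := min_le_left _ _
  have hrL : L * r ≤ c₀ / 4 := by
    calc L * r ≤ L * (c₀ / (4 * L)) := mul_le_mul_of_nonneg_left (min_le_right _ _) hL.le
      _ = c₀ / 4 := by field_simp
  have hβG : ∀ y ∈ ball y₀ r, y ∈ Gd D (δ / 2) := by
    intro y hy
    rw [mem_ball, dist_eq_norm] at hy
    exact gd_mono (by linarith) (gd_near hyG hy.le)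
  have hβD : ∀ y ∈ ball y₀ r, y ∉ D := fun y hy => gd_notMem (by positivity) (hβG y hy)
  have hfc : ∀ y ∈ ball y₀ r, 3 * c₀ / 4 ≤ ‖f y (i, i)‖ := by
    intro y hy
    have h1 : y ∈ closedBall y₀ (δ / 2) := ball_subset_closedBall (ball_subset_ball hrδ hy)
    have h2 := hlip f hf y₀ hyG y h1
    have h3 : ‖y₀ - y‖ ≤ r := by
      rw [norm_sub_rev, ← dist_eq_norm]
      exact (mem_ball.1 hy).le
    have h4 : dist (f y₀) (f y) ≤ c₀ / 4 := h2.trans ((mul_le_mul_of_nonneg_left h3 hL.le).trans hrL)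
    have h5 : ‖f y₀ (i, i)‖ ≤ ‖f y (i, i)‖ + ‖f y₀ (i, i) - f y (i, i)‖ := by
      have := norm_add_le (f y (i, i)) (f y₀ (i, i) - f y (i, i))
      rwa [add_sub_cancel] at this
    have h6 : ‖f y₀ (i, i) - f y (i, i)‖ ≤ dist (f y₀) (f y) := by
      rw [dist_eq_norm]
      exact sbb_norm_apply (f y₀ - f y) (i, i)
    linarith
  have hfn : ∀ y ∈ ball y₀ r, ‖f y‖ ≤ 1 := by
    intro y hy
    obtain ⟨x, hx, hxf, -⟩ := sb_mem G hf (hβD y hy)
    rw [← hxf, Pool.Agent.H62.EF.norm_pr (ne_zero G.cone hx)]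
  -- the approximating sections
  have hch : ∀ n : ℕ, ∃ F ∈ Sec X Λ u D, ∀ y ∈ Gd D (δ / 2), ‖y‖ ≤ ‖y₀‖ + r → dist (F y) (f y) < min (c₀ / 4) (1 / ((n : ℝ) + 1)) := fun n =>
    hf (δ / 2) (by positivity) (‖y₀‖ + r) _ (lt_min (by positivity) (by positivity))
  choose F hF hFd using hch
  have hFd' : ∀ n, ∀ y ∈ ball y₀ r, dist (F n y) (f y) < min (c₀ / 4) (1 / ((n : ℝ) + 1)) := by
    intro n y hy
    refine hFd n y (hβG y hy) ?_
    rw [mem_ball, dist_eq_norm] at hy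
    have h1 : y = y₀ + (y - y₀) := by abel
    rw [h1]
    exact (norm_add_le _ _).trans (by linarith)
  have hFc : ∀ n, ∀ y ∈ ball y₀ r, c₀ / 2 ≤ ‖F n y (i, i)‖ := by
    intro n y hy
    have h1 := (hFd' n y hy).trans_le (min_le_left _ _)
    have h5 : ‖f y (i, i)‖ ≤ ‖F n y (i, i)‖ + ‖f y (i, i) - F n y (i, i)‖ := by
      have := norm_add_le (F n y (i, i)) (f y (i, i) - F n y (i, i))
      rwa [add_sub_cancel] at this
    have h6 : ‖f y (i, i) - F n y (i, i)‖ ≤ dist (F n y) (f y) := by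
      rw [dist_comm, dist_eq_norm]
      exact sbb_norm_apply (f y - F n y) (i, i)
    have := hfc y hy
    linarith
  have hFn : ∀ n, ∀ y ∈ ball y₀ r, ‖F n y‖ ≤ 1 := by
    intro n y hy
    obtain ⟨x, hx, hxf, -⟩ := sec_fb (hF n) (hβD y hy)
    rw [← hxf, Pool.Agent.H62.EF.norm_pr (ne_zero G.cone hx)]
  -- the affine coordinates of the limit are analytic
  have hR : ∀ j, AnalyticAt ℂ (fun y => sbR i j (f y)) y₀ := by
    intro j
    have hc2 : 0 < c₀ / 2 := by positivity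
    have hunif : TendstoUniformlyOn (fun n y => sbR i j (F n y)) (fun y => sbR i j (f y)) atTop (ball y₀ r) := by
      rw [Metric.tendstoUniformlyOn_iff]
      intro ε hε
      have h1 : Tendsto (fun n : ℕ => 2 / (c₀ / 2) ^ 2 * (1 / ((n : ℝ) + 1))) atTop (𝓝 0) := by
        have h2 := (tendsto_one_div_add_atTop_nhds_zero_nat (𝕜 := ℝ)).const_mul (2 / (c₀ / 2) ^ 2)
        rwa [mul_zero] at h2
      filter_upwards [h1.eventually_lt_const hε] with n hn y hy
      have h3 := sbR_lip (j := j) hc2 (hfn y hy) (hFn n y hy) (by have := hfc y hy; linarith) (hFc n y hy)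
      have h4 := (hFd' n y hy).trans_le (min_le_right _ _)
      rw [dist_comm] at h4
      have h5 : 2 / (c₀ / 2) ^ 2 * dist (f y) (F n y) ≤ 2 / (c₀ / 2) ^ 2 * (1 / ((n : ℝ) + 1)) :=
        mul_le_mul_of_nonneg_left h4.le (by positivity)
      linarith
    refine Pool.Agent.TN.osgood_pi (w := y₀) (r := r) (M := 2 / c₀) hr0 ?_ ?_
    · intro y hy
      have h1 := hfc y hy
      show ‖f y (j, i) / f y (i, i)‖ ≤ _
      rw [norm_div, div_le_div_iff₀ (by linarith) hc₀0]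
      have h2 : ‖f y (j, i)‖ ≤ 1 := (sbb_norm_apply _ _).trans (hfn y hy)
      calc ‖f y (j, i)‖ * c₀ ≤ 1 * c₀ := mul_le_mul_of_nonneg_right h2 hc₀0.le
        _ ≤ 2 * ‖f y (i, i)‖ := by linarith
    · intro y hy l
      set v : Vd (k + 1) := Pi.single l 1 with hv
      have hvn : ‖v‖ ≤ 1 := by
        rw [pi_norm_le_iff_of_nonneg zero_le_one]
        intro i'
        by_cases hi' : i' = l
        · subst hi'; simp [hv]
        · simp [hv, Pi.single_eq_of_ne hi']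
      set s : ℝ := r - dist y y₀ with hs
      have hs0 : 0 < s := by
        have := mem_ball.1 hy
        linarith
      have hin : ∀ t ∈ ball (0 : ℂ) s, y + t • v ∈ ball y₀ r := by
        intro t ht
        have ht' : ‖t‖ < s := by simpa using ht
        rw [mem_ball]
        have h1 : dist (y + t • v) y ≤ ‖t‖ := by
          rw [dist_eq_norm, add_sub_cancel_left, norm_smul]
          calc ‖t‖ * ‖v‖ ≤ ‖t‖ * 1 := mul_le_mul_of_nonneg_left hvn (norm_nonneg _)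
            _ = ‖t‖ := mul_one _
        have h2 := dist_triangle (y + t • v) y y₀
        linarith
      have hu1 : TendstoUniformlyOn (fun n (t : ℂ) => sbR i j (F n (y + t • v))) (fun t : ℂ => sbR i j (f (y + t • v))) atTop (ball (0 : ℂ) s) := by
        rw [Metric.tendstoUniformlyOn_iff] at hunif ⊢
        intro ε hε
        filter_upwards [hunif ε hε] with n hn t ht
        exact hn _ (hin t ht)
      have hd : DifferentiableOn ℂ (fun t : ℂ => sbR i j (f (y + t • v))) (ball (0 : ℂ) s) := by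
        refine hu1.tendstoLocallyUniformlyOn.differentiableOn (Filter.Eventually.of_forall fun n t ht => ?_) isOpen_ball
        have h1 : AnalyticAt ℂ (fun z => sbR i j (F n z)) (y + t • v) :=
          sbR_sec (hF n) (hβD _ (hin t ht)) j fun h => by
            have h2 := hFc n _ (hin t ht)
            rw [h, norm_zero] at h2
            linarith
        have h2 : DifferentiableAt ℂ (fun t : ℂ => y + t • v) t := by fun_prop
        exact (h1.differentiableAt.comp t h2).differentiableWithinAt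
      exact hd.differentiableAt (isOpen_ball.mem_nhds (mem_ball_self hs0))
  refine ⟨fun y => WithLp.toLp 2 fun j => sbR i j (f y), ?_, ?_⟩
  · have h1 : AnalyticAt ℂ (fun y => fun j => sbR i j (f y)) y₀ := analyticAt_pi_iff.2 hR
    exact ((PiLp.continuousLinearEquiv 2 ℂ (fun _ : Fin (N + 1) => ℂ)).symm.toContinuousLinearMap.analyticAt _).comp h1
  · filter_upwards [isOpen_ball.mem_nhds (mem_ball_self hr0 : y₀ ∈ ball y₀ r)] with y hy
    obtain ⟨x, hx, hxf, hux'⟩ := sb_mem G hf (hβD y hy)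
    have hxi : x i ≠ 0 := by
      apply sbb_ne
      rw [hxf]
      intro h
      have h2 := hfc y hy
      rw [h, norm_zero] at h2
      linarith
    have h1 : (WithLp.toLp 2 fun j => sbR i j (f y) : EN N) = (x i)⁻¹ • x := by
      ext j
      show sbR i j (f y) = (x i)⁻¹ * x j
      rw [← hxf, sbR_pr j hxi, div_eq_inv_mul]
    rw [h1]
    exact ⟨G.cone.smul_mem x hx _ (inv_ne_zero hxi), smul_mem_lat G.tor hx hux' (inv_ne_zero hxi), by
      rw [Pool.Agent.H62.EF.pr_smul _ (inv_ne_zero hxi), hxf]⟩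

/-- vectors with vanishing minors -/
private theorem sbb_pr_eq {x y : EN N} (hx : x ≠ 0) (hy : y ≠ 0) (h : ∀ i j, x i * y j = x j * y i) : pr x = pr y := by
  obtain ⟨j, hj⟩ : ∃ j, y j ≠ 0 := by
    by_contra h
    push Not at h
    apply hy
    ext i
    exact h i
  have h1 : x = (x j / y j) • y := by
    ext i
    show x i = x j / y j * y i
    rw [div_mul_eq_mul_div, ← h i j, mul_div_assoc, div_self hj, mul_one]
  have h2 : x j / y j ≠ 0 := by
    intro h0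
    rw [h0, zero_smul] at h1
    exact hx h1
  rw [Pool.Agent.H62.EF.pr_eq_iff hx hy]
  exact ⟨_, h2, h1⟩

theorem sb_uniq (G : Geo X Λ u D B) {f g : Vd (k + 1) → MN N} (hf : f ∈ Sb X Λ u D) (hg : g ∈ Sb X Λ u D) {y₀ : Vd (k + 1)} (hy₀ : y₀ ∉ D)
    (h : ∀ᶠ y in 𝓝 y₀, f y = g y) : Ag D f g := by
  have hcon : IsPreconnected (Dᶜ : Set (Vd (k + 1))) := compl_conn G.D_closed G.D_thin
  set U : Set (Vd (k + 1)) := {z | ∀ᶠ w in 𝓝 z, f w = g w} with hU
  have hUo : IsOpen U := by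
    rw [isOpen_iff_mem_nhds]
    intro z hz
    exact hz.eventually_nhds
  have hsub : (Dᶜ : Set (Vd (k + 1))) ⊆ U := by
    refine hcon.subset_of_closure_inter_subset hUo ⟨y₀, hy₀, h⟩ ?_
    rintro y ⟨hyc, hyD⟩
    obtain ⟨φ, hφ, hφf⟩ := sb_lift G hf hyD
    obtain ⟨ψ, hψ, hψg⟩ := sb_lift G hg hyD
    have h1 := hφ.eventually_analyticAt.and (hψ.eventually_analyticAt.and (hφf.and hψg))
    obtain ⟨r, hr, hb⟩ := Metric.eventually_nhds_iff_ball.1 h1
    obtain ⟨w, hwb, hwU⟩ := _root_.mem_closure_iff.1 hyc (ball y r) isOpen_ball (mem_ball_self hr)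
    have hco : ∀ {η : Vd (k + 1) → EN N} {z : Vd (k + 1)}, AnalyticAt ℂ η z → ∀ l : Fin (N + 1), AnalyticAt ℂ (fun z => η z l) z :=
      fun hη l => ((EuclideanSpace.proj (𝕜 := ℂ) l : EN N →L[ℂ] ℂ).analyticAt _).comp hη
    have h2 : ∀ i j : Fin (N + 1), ∀ z ∈ ball y r, φ z i * ψ z j = φ z j * ψ z i := by
      intro i j z hz
      have h3 : AnalyticOnNhd ℂ (fun z => φ z i * ψ z j - φ z j * ψ z i) (ball y r) := fun v hv => by
        have h4 := hb v hv
        exact ((hco h4.1 i).mul (hco h4.2.1 j)).sub ((hco h4.1 j).mul (hco h4.2.1 i))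
      have h4 : ∀ᶠ v in 𝓝 w, φ v i * ψ v j - φ v j * ψ v i = 0 := by
        filter_upwards [hwU, isOpen_ball.mem_nhds hwb] with v hv hvb
        obtain ⟨-, -, ⟨h5, h6, h7⟩, h8, h9, h10⟩ := hb v hvb
        obtain ⟨c, -, hc⟩ := (Pool.Agent.H62.EF.pr_eq_iff (ne_zero G.cone h5) (ne_zero G.cone h8)).1 (by rw [h7, h10, hv])
        rw [hc]
        show c * ψ v i * ψ v j - c * ψ v j * ψ v i = 0
        ring
      exact sub_eq_zero.1 (h3.eqOn_zero_of_preconnected_of_eventuallyEq_zero (convex_ball y r).isPreconnected hwb h4 hz)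
    show ∀ᶠ w in 𝓝 y, f w = g w
    filter_upwards [isOpen_ball.mem_nhds (mem_ball_self hr : y ∈ ball y r)] with z hz
    obtain ⟨-, -, ⟨h5, h6, h7⟩, h8, h9, h10⟩ := hb z hz
    rw [← h7, ← h10]
    exact sbb_pr_eq (ne_zero G.cone h5) (ne_zero G.cone h8) fun i j => h2 i j z hz
  intro z hz
  exact (hsub hz : z ∈ U).self_of_nhds

theorem sb_II_analytic (G : Geo X Λ u D B) {δ ε ε₀ : ℝ} (hc : Cst X Λ u D δ ε ε₀) {α : VForm X Λ u} {f g : Vd (k + 1) → MN N}
    (hf : f ∈ Sb X Λ u D) (hg : g ∈ Sb X Λ u D) {y₀ : Vd (k + 1)} (hy₀ : y₀ ∈ Gd D δ)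
    (hrel : ∀ᶠ y in 𝓝 y₀, ∃ v, IRel α ε y (f y) (g y) v) : AnalyticAt ℂ (fun y => II α ε y (f y) (g y)) y₀ := by
  have hyD : y₀ ∉ D := gd_notMem hc.δ_pos hy₀
  obtain ⟨φ, hφ, hφf⟩ := sb_lift G hf hyD
  obtain ⟨ψ, hψ, hψg⟩ := sb_lift G hg hyD
  obtain ⟨χ, c, ρ, hcap⟩ := hc.cap y₀ hy₀ (f y₀) (sb_mem G hf hyD)
  rw [← hφf.self_of_nhds.2.2] at hcap
  have h1 := II_analytic G.cone G.tor G.lat hφ hψ (hφf.mono fun y hy => ⟨hy.1, hy.2.1⟩) (hψg.mono fun y hy => ⟨hy.1, hy.2.1⟩) hcap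
    (by linarith [hc.ε_pos]) (α := α) (ε := ε) (by
      filter_upwards [hrel, hφf, hψg] with y hy h2 h3
      rw [h2.2.2, h3.2.2]
      exact hy)
  refine h1.congr ?_
  filter_upwards [hφf, hψg] with y h2 h3
  rw [h2.2.2, h3.2.2]

end Pool.Agent.TG

end

section

/-!
# TG XPd: the pairs of members of `Sb` satisfy the hypotheses of the extension theorem
-/

set_option autoImplicit false

open Topology Filter Metric MeasureTheory

namespace Pool.Agent.TG

open Pool.Agent.H36.BP (EN fs wd)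
open Pool.Agent.H14.PP (IsCone CurveAt Tan)
open Pool.Agent.H62.EF (MN pr)
open Pool.Agent.AD (Vd Chart Charts IsGerm)

theorem circle_lim {r C : ℝ} {F : ℕ → ℂ → ℂ} {f : ℂ → ℂ} (hr : 0 ≤ r) (hF : ∀ n, ContinuousOn (F n) (sphere (0 : ℂ) r))
    (hC : ∀ n, ∀ z ∈ sphere (0 : ℂ) r, ‖F n z‖ ≤ C) (hl : ∀ z ∈ sphere (0 : ℂ) r, Tendsto (fun n => F n z) atTop (𝓝 (f z)))
    (h0 : ∀ n, (∮ z in C(0, r), F n z) = 0) : (∮ z in C(0, r), f z) = 0 := by
  have hmem : ∀ θ : ℝ, circleMap (0 : ℂ) r θ ∈ sphere (0 : ℂ) r := fun θ => circleMap_mem_sphere _ hr θ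
  have h1 : Tendsto (fun n => ∮ z in C(0, r), F n z) atTop (𝓝 (∮ z in C(0, r), f z)) := by
    unfold circleIntegral
    refine intervalIntegral.tendsto_integral_filter_of_dominated_convergence (fun _ => |r| * C) ?_ ?_ ?_ ?_
    · refine Eventually.of_forall fun n => ?_
      have hcont : Continuous fun θ : ℝ => deriv (circleMap (0 : ℂ) r) θ • F n (circleMap 0 r θ) := by
        have h2 : Continuous fun θ : ℝ => F n (circleMap 0 r θ) := (hF n).comp_continuous (continuous_circleMap 0 r) hmem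
        have h3 : Continuous fun θ : ℝ => deriv (circleMap (0 : ℂ) r) θ := by
          simp only [deriv_circleMap]
          exact (continuous_circleMap 0 r).mul continuous_const
        exact h3.smul h2
      exact hcont.aestronglyMeasurable
    · refine Eventually.of_forall fun n => Eventually.of_forall fun θ _ => ?_
      rw [norm_smul]
      have h3 : ‖deriv (circleMap (0 : ℂ) r) θ‖ = |r| := by
        simp only [deriv_circleMap, norm_mul, norm_circleMap_zero, Complex.norm_I, mul_one]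
      rw [h3]
      exact mul_le_mul_of_nonneg_left (hC n _ (hmem θ)) (abs_nonneg _)
    · exact intervalIntegrable_const
    · exact Eventually.of_forall fun θ _ => (hl _ (hmem θ)).const_smul _
  have h2 : Tendsto (fun n => ∮ z in C(0, r), F n z) atTop (𝓝 0) := by
    simp only [h0]
    exact tendsto_const_nhds
  exact tendsto_nhds_unique h1 h2

variable {N k : ℕ} {X : Set (EN N)} {Λ : AddSubgroup (Vd (k + 1))} {u : EN N → Vd (k + 1)} {D B : Set (Vd (k + 1))}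

theorem sb_cont (G : Geo X Λ u D B) {f : Vd (k + 1) → MN N} (hf : f ∈ Sb X Λ u D) {y : Vd (k + 1)} (hy : y ∉ D) : ContinuousAt f y := by
  obtain ⟨δ, hδ, hyδ⟩ := G.exists_gd hy
  obtain ⟨L, hL, hl⟩ := sb_lip G hδ
  rw [Metric.continuousAt_iff]
  intro η hη
  refine ⟨min (δ / 2) (η / L), lt_min (half_pos hδ) (div_pos hη hL), fun w hw => ?_⟩
  have h1 := hl f hf y hyδ w (mem_closedBall.2 (hw.le.trans (min_le_left _ _)))
  rw [dist_comm]
  have h2 : ‖y - w‖ < η / L := by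
    rw [← dist_eq_norm, dist_comm]
    exact lt_of_lt_of_le hw (min_le_right _ _)
  calc dist (f y) (f w) ≤ L * ‖y - w‖ := h1
    _ < L * (η / L) := mul_lt_mul_of_pos_left h2 hL
    _ = η := mul_div_cancel₀ _ hL.ne'

theorem sb_hol (G : Geo X Λ u D B) {δ ε ε₀ : ℝ} (hc : Cst X Λ u D δ ε ε₀) {α : VForm X Λ u} {f g : Vd (k + 1) → MN N}
    (hf : f ∈ Sb X Λ u D) (hg : g ∈ Sb X Λ u D) {d : ℝ} (hd : δ < d) {y₀ : Vd (k + 1)} (hy₀ : y₀ ∈ Gd D d) (hcl : dist (f y₀) (g y₀) < ε₀) :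
    AnalyticAt ℂ (fun y => JJ α y (f y) (g y)) y₀ := by
  have hyD : y₀ ∉ D := gd_notMem (hc.δ_pos.trans hd) hy₀
  have e1 : ∀ᶠ y in 𝓝 y₀, y ∈ Gd D δ := by
    filter_upwards [Metric.ball_mem_nhds y₀ (sub_pos.2 hd)] with y hy
    have h1 := gd_near hy₀ (r := d - δ) (w := y) (by rw [← dist_eq_norm]; exact (mem_ball.1 hy).le)
    rwa [sub_sub_cancel] at h1
  have e2 : ∀ᶠ y in 𝓝 y₀, dist (f y) (g y) < ε₀ :=
    ((sb_cont G hf hyD).dist (sb_cont G hg hyD)).eventually (gt_mem_nhds hcl)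
  have e3 : ∀ᶠ y in 𝓝 y₀, y ∈ Gd D δ ∧ f y ∈ Fb X Λ u y ∧ g y ∈ Fb X Λ u y ∧ dist (f y) (g y) ≤ ε₀ := by
    filter_upwards [e1, e2] with y h1 h2
    have hy := gd_notMem hc.δ_pos h1
    exact ⟨h1, sb_mem G hf hy, sb_mem G hg hy, h2.le⟩
  have e4 : ∀ᶠ y in 𝓝 y₀, II α ε y (f y) (g y) = JJ α y (f y) (g y) := by
    filter_upwards [e3] with y h
    exact (jj_eq_II G.cone G.tor G.lat hc h.1 h.2.1 h.2.2.1 h.2.2.2).symm
  have e5 : ∀ᶠ y in 𝓝 y₀, ∃ v, IRel α ε y (f y) (g y) v := by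
    filter_upwards [e3] with y h
    exact hc.rel y h.1 _ h.2.1 _ h.2.2.1 h.2.2.2 α
  exact (sb_II_analytic G hc hf hg (gd_mono hd.le hy₀) e5).congr e4

theorem annulus_closure {r₁ r₂ : ℝ} (hr₁ : 0 < r₁) (hr : r₁ < r₂) {z : ℂ} (h1 : r₁ ≤ ‖z‖) (h2 : ‖z‖ ≤ r₂) :
    z ∈ closure {w : ℂ | r₁ < ‖w‖ ∧ ‖w‖ < r₂} := by
  have hz : 0 < ‖z‖ := hr₁.trans_le h1
  set m : ℝ := (r₁ + r₂) / 2 with hm
  rw [mem_closure_iff_seq_limit]
  refine ⟨fun n => (((1 - 1 / ((n : ℝ) + 2)) + 1 / ((n : ℝ) + 2) * (m / ‖z‖) : ℝ) : ℂ) * z, fun n => ?_, ?_⟩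
  · have hn : (0 : ℝ) < 1 / ((n : ℝ) + 2) := by positivity
    have hn1 : 1 / ((n : ℝ) + 2) < 1 := by
      rw [div_lt_one (by positivity)]
      have : (0 : ℝ) ≤ n := Nat.cast_nonneg n
      linarith
    set t : ℝ := 1 / ((n : ℝ) + 2) with ht
    have hm0 : 0 < m := by rw [hm]; linarith
    have hnn : 0 ≤ (1 - t) + t * (m / ‖z‖) := by
      have : 0 ≤ t * (m / ‖z‖) := by positivity
      linarith
    have e : ‖((((1 - t) + t * (m / ‖z‖) : ℝ) : ℂ)) * z‖ = (1 - t) * ‖z‖ + t * m := by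
      rw [norm_mul, Complex.norm_real, Real.norm_of_nonneg hnn]
      field_simp
    show r₁ < ‖((((1 - t) + t * (m / ‖z‖) : ℝ) : ℂ)) * z‖ ∧ ‖((((1 - t) + t * (m / ‖z‖) : ℝ) : ℂ)) * z‖ < r₂
    rw [e]
    constructor
    · have a1 : (1 - t) * r₁ ≤ (1 - t) * ‖z‖ := mul_le_mul_of_nonneg_left h1 (by linarith)
      have a2 : t * r₁ < t * m := mul_lt_mul_of_pos_left (by rw [hm]; linarith) hn
      linarith
    · have a1 : (1 - t) * ‖z‖ ≤ (1 - t) * r₂ := mul_le_mul_of_nonneg_left h2 (by linarith)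
      have a2 : t * m < t * r₂ := mul_lt_mul_of_pos_left (by rw [hm]; linarith) hn
      linarith
  · have h3 : Tendsto (fun n : ℕ => 1 / ((n : ℝ) + 2)) atTop (𝓝 0) := by
      have h4 : Tendsto (fun n : ℕ => (n : ℝ) + 2) atTop atTop := tendsto_atTop_add_const_right _ _ tendsto_natCast_atTop_atTop
      exact h4.inv_tendsto_atTop.congr fun n => by rw [Pi.inv_apply, one_div]
    have h5 : Tendsto (fun n : ℕ => (1 - 1 / ((n : ℝ) + 2)) + 1 / ((n : ℝ) + 2) * (m / ‖z‖)) atTop (𝓝 ((1 - 0) + 0 * (m / ‖z‖))) :=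
      (tendsto_const_nhds.sub h3).add (h3.mul_const _)
    have h6 : Tendsto (fun n : ℕ => ((((1 - 1 / ((n : ℝ) + 2)) + 1 / ((n : ℝ) + 2) * (m / ‖z‖) : ℝ) : ℂ)) * z) atTop
        (𝓝 ((((1 - 0) + 0 * (m / ‖z‖) : ℝ) : ℂ) * z)) :=
      ((Complex.continuous_ofReal.tendsto _).comp h5).mul_const z
    simpa using h6

theorem sb_cross (G : Geo X Λ u D B) {Γ : AddSubgroup (Vd (k + 1))} (hΓ : Lat Γ) (hle : Γ ≤ Λ) {α : VForm X Λ u} (hper : Per α Γ)
    {q e : Vd (k + 1)} (ht : TrB D B q e) :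
    ∃ s₀ : ℝ, 0 < s₀ ∧ ∀ r₁ r₂ : ℝ, 0 < r₁ → r₁ < r₂ → r₂ < s₀ → ∃ ε : ℝ, 0 < ε ∧ ∀ f ∈ Sb X Λ u D, ∀ g ∈ Sb X Λ u D,
      (∀ z : ℂ, r₁ < ‖z‖ → ‖z‖ < r₂ → dist (f (q + z • e)) (g (q + z • e)) ≤ ε) →
        ∃ J' : ℂ → ℂ, DifferentiableOn ℂ J' (ball 0 r₂) ∧ ∀ z : ℂ, r₁ < ‖z‖ → ‖z‖ < r₂ → J' z = JJ α (q + z • e) (f (q + z • e)) (g (q + z • e)) := by
  obtain ⟨s₀, hs₀, hoff, hh⟩ := crossing G ht.1 ht.2.1 ht.2.2.2
  refine ⟨s₀, hs₀, fun r₁ r₂ hr₁ hr hr₂ => ?_⟩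
  obtain ⟨ε₁, hε₁, hcr⟩ := hh r₁ r₂ hr₁ hr hr₂
  -- the closed annulus
  set K : Set ℂ := {z : ℂ | r₁ ≤ ‖z‖ ∧ ‖z‖ ≤ r₂} with hK
  have hKc : IsCompact K := by
    have : K = closedBall (0 : ℂ) r₂ ∩ {z : ℂ | r₁ ≤ ‖z‖} := by
      ext z
      simp only [hK, Set.mem_ofPred_eq, Set.mem_inter_iff, mem_closedBall, dist_zero_right]
      exact and_comm
    rw [this]
    exact (isCompact_closedBall _ _).inter_right (isClosed_le continuous_const continuous_norm)
  have hKD : ∀ z ∈ K, q + z • e ∉ D := fun z hz => hoff z (by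
    rintro rfl
    have h1 := hz.1
    rw [norm_zero] at h1
    linarith) (lt_of_le_of_lt hz.2 hr₂)
  have hcont : Continuous fun z : ℂ => q + z • e := by fun_prop
  obtain ⟨δ, hδ, hsub⟩ := gdx_compact G.D_closed (hKc.image hcont) (by
    rintro y ⟨z, hz, rfl⟩
    exact hKD z hz)
  have hKG : ∀ z ∈ K, q + z • e ∈ Gd D δ := fun z hz => hsub ⟨z, hz, rfl⟩
  obtain ⟨R, hR⟩ := (hKc.image hcont).isBounded.exists_norm_le
  have hKR : ∀ z ∈ K, ‖q + z • e‖ ≤ R := fun z hz => hR _ ⟨z, hz, rfl⟩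
  obtain ⟨ε, ε₀, hεη, -, hc⟩ := exists_cst G (δ := δ / 2) (η := ε₁) (half_pos hδ) hε₁
  have hδ2 : δ / 2 < δ := by linarith
  have hε := hc.ε_pos
  have hε₀ := hc.ε₀_pos
  obtain ⟨C, hC, hbd⟩ := II_bdd G hΓ hle hper (r := 3 * ε) (ε := ε) hc.δ_pos (by linarith) hc.cap
  refine ⟨ε₀ / 2, half_pos hε₀, fun f hf g hg hcl => ?_⟩
  -- closeness on the closed annulus
  have hclK : ∀ z ∈ K, dist (f (q + z • e)) (g (q + z • e)) ≤ ε₀ / 2 := by
    intro z hz
    have hcf : ContinuousAt (fun w : ℂ => dist (f (q + w • e)) (g (q + w • e))) z :=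
      ((sb_cont G hf (hKD z hz)).comp (f := fun w : ℂ => q + w • e) hcont.continuousAt).dist
        ((sb_cont G hg (hKD z hz)).comp (f := fun w : ℂ => q + w • e) hcont.continuousAt)
    have hzc := annulus_closure hr₁ hr hz.1 hz.2
    have := mem_closure_iff_nhdsWithin_neBot.1 hzc
    refine le_of_tendsto (hcf.mono_left (nhdsWithin_le_nhds (s := {w : ℂ | r₁ < ‖w‖ ∧ ‖w‖ < r₂}))) ?_
    filter_upwards [self_mem_nhdsWithin] with w hw
    exact hcl w hw.1 hw.2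
  refine H62.EL.ext_annulus (b := 0) hr₁ hr (J := fun z => JJ α (q + z • e) (f (q + z • e)) (g (q + z • e))) ?_ ?_ |>.imp fun J' hJ' => ⟨hJ'.1, fun z h1 h2 => ?_⟩
  · intro z hz
    simp only [sub_zero, Set.mem_ofPred_eq] at hz
    have hzK : z ∈ K := ⟨hz.1.le, hz.2.le⟩
    have h1 := sb_hol G hc (α := α) hf hg hδ2 (hKG z hzK) (lt_of_le_of_lt (hclK z hzK) (by linarith))
    have h2 : AnalyticAt ℂ (fun w : ℂ => q + w • e) z := by fun_prop
    exact (h1.comp_of_eq h2 rfl).differentiableAt.differentiableWithinAt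
  · intro n r hr1 hr2
    have hrK : ∀ z ∈ sphere (0 : ℂ) r, z ∈ K := by
      intro z hz
      rw [mem_sphere_zero_iff_norm] at hz
      exact ⟨by rw [hz]; exact hr1.le, by rw [hz]; exact hr2.le⟩
    have hr0 : 0 < r := hr₁.trans hr1
    -- approximants
    have happ : ∀ (h : Vd (k + 1) → MN N), h ∈ Sb X Λ u D → ∀ j : ℕ, ∃ F ∈ Sec X Λ u D, ∀ y ∈ Gd D δ, ‖y‖ ≤ R → dist (F y) (h y) < ε₀ / 4 * (1 / ((j : ℝ) + 1)) :=
      fun h hh j => hh δ hδ R _ (by positivity)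
    choose Fa hFa1 hFa2 using happ f hf
    choose Ga hGa1 hGa2 using happ g hg
    have hj1 : ∀ j : ℕ, ε₀ / 4 * (1 / ((j : ℝ) + 1)) ≤ ε₀ / 4 := by
      intro j
      have h1 : 1 / ((j : ℝ) + 1) ≤ 1 := by
        rw [div_le_one (by positivity)]
        have : (0 : ℝ) ≤ j := Nat.cast_nonneg j
        linarith
      calc ε₀ / 4 * (1 / ((j : ℝ) + 1)) ≤ ε₀ / 4 * 1 := mul_le_mul_of_nonneg_left h1 (by positivity)
        _ = ε₀ / 4 := mul_one _
    have hlim0 : Tendsto (fun j : ℕ => ε₀ / 4 * (1 / ((j : ℝ) + 1))) atTop (𝓝 0) := by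
      have := (tendsto_one_div_add_atTop_nhds_zero_nat (𝕜 := ℝ)).const_mul (ε₀ / 4)
      rwa [mul_zero] at this
    have hcl2 : ∀ j : ℕ, ∀ z ∈ K, dist (Fa j (q + z • e)) (Ga j (q + z • e)) ≤ ε₀ := by
      intro j z hz
      have h1 := hFa2 j _ (hKG z hz) (hKR z hz)
      have h2 := hGa2 j _ (hKG z hz) (hKR z hz)
      have h3 := hclK z hz
      have h4 := dist_triangle4 (Fa j (q + z • e)) (f (q + z • e)) (g (q + z • e)) (Ga j (q + z • e))
      rw [dist_comm (g (q + z • e))] at h4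
      linarith [hj1 j]
    have hKG2 : ∀ z ∈ K, q + z • e ∈ Gd D (δ / 2) := fun z hz => gd_mono hδ2.le (hKG z hz)
    have hrelj : ∀ j : ℕ, ∀ z ∈ K, ∃ v, IRel α ε (q + z • e) (Fa j (q + z • e)) (Ga j (q + z • e)) v := fun j z hz =>
      hc.rel _ (hKG2 z hz) _ (sec_fb (hFa1 j) (hKD z hz)) _ (sec_fb (hGa1 j) (hKD z hz)) (hcl2 j z hz) α
    have hJj : ∀ j : ℕ, ∃ J' : ℂ → ℂ, DifferentiableOn ℂ J' (ball 0 r₂) ∧
        ∀ z : ℂ, r₁ < ‖z‖ → ‖z‖ < r₂ → J' z = II α ε (q + z • e) (Fa j (q + z • e)) (Ga j (q + z • e)) := fun j =>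
      hcr ε hε hεη α (Fa j) (hFa1 j) (Ga j) (hGa1 j) (fun z h1 h2 => hrelj j z ⟨h1, h2⟩)
    choose Jj hJj1 hJj2 using hJj
    simp only [sub_zero]
    refine circle_lim (C := r ^ n * C) (F := fun j z => z ^ n * Jj j z) hr0.le (fun j => ?_) (fun j z hz => ?_) (fun z hz => ?_) (fun j => ?_)
    · refine ContinuousOn.mul (by fun_prop) ((hJj1 j).continuousOn.mono ?_)
      exact fun z hz => mem_ball.2 (by rw [mem_sphere.1 hz]; exact hr2)
    · have hz' := mem_sphere_zero_iff_norm.1 hz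
      show ‖z ^ n * Jj j z‖ ≤ _
      rw [norm_mul, norm_pow, hz', hJj2 j z (by rw [hz']; exact hr1) (by rw [hz']; exact hr2)]
      exact mul_le_mul_of_nonneg_left (hbd _ (hKG2 z (hrK z hz)) _ _) (by positivity)
    · have hz' := mem_sphere_zero_iff_norm.1 hz
      have hzK := hrK z hz
      refine Tendsto.const_mul (z ^ n) ?_
      have hfz : f (q + z • e) ∈ Fb X Λ u (q + z • e) := sb_mem G hf (hKD z hzK)
      have hgz : g (q + z • e) ∈ Fb X Λ u (q + z • e) := sb_mem G hg (hKD z hzK)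
      have hdz : dist (f (q + z • e)) (g (q + z • e)) ≤ ε₀ := (hclK z hzK).trans (by linarith)
      have ef : ∀ j, Jj j z = II α ε (q + z • e) (Fa j (q + z • e)) (Ga j (q + z • e)) := fun j =>
        hJj2 j z (by rw [hz']; exact hr1) (by rw [hz']; exact hr2)
      simp only [ef]
      rw [jj_eq_II G.cone G.tor G.lat hc (hKG2 z hzK) hfz hgz hdz]
      obtain ⟨χ, c, ρ, hcap⟩ := hc.cap _ (hKG2 z hzK) _ hfz
      have hm : Tendsto (fun j => Fa j (q + z • e)) atTop (𝓝 (f (q + z • e))) := by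
        rw [tendsto_iff_dist_tendsto_zero]
        exact squeeze_zero (fun _ => dist_nonneg) (fun j => (hFa2 j _ (hKG z hzK) (hKR z hzK)).le) hlim0
      have hm' : Tendsto (fun j => Ga j (q + z • e)) atTop (𝓝 (g (q + z • e))) := by
        rw [tendsto_iff_dist_tendsto_zero]
        exact squeeze_zero (fun _ => dist_nonneg) (fun j => (hGa2 j _ (hKG z hzK) (hKR z hzK)).le) hlim0
      exact II_lim G.cone G.tor G.lat tendsto_const_nhds hm hm' hcap (by linarith) (Eventually.of_forall fun j => hrelj j z hzK)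
        (hc.rel _ (hKG2 z hzK) _ hfz _ hgz hdz α)
    · have hdc : DiffContOnCl ℂ (fun z => z ^ n * Jj j z) (ball 0 r) := by
        refine DifferentiableOn.diffContOnCl ?_
        rw [closure_ball _ hr0.ne']
        exact DifferentiableOn.mul (by fun_prop) ((hJj1 j).mono fun z hz => mem_ball.2 (lt_of_le_of_lt (mem_closedBall.1 hz) hr2))
      exact hdc.circleIntegral_eq_zero hr0.le
  · exact hJ'.2 z (by rwa [sub_zero]) (by rwa [sub_zero])

/-- the pairs of members of `Sb` -/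
abbrev SbP (X : Set (EN N)) (Λ : AddSubgroup (Vd (k + 1))) (u : EN N → Vd (k + 1)) (D : Set (Vd (k + 1))) : Type :=
  {p : (Vd (k + 1) → MN N) × (Vd (k + 1) → MN N) // p.1 ∈ Sb X Λ u D ∧ p.2 ∈ Sb X Λ u D}

theorem pairData (G : Geo X Λ u D B) {Γ : AddSubgroup (Vd (k + 1))} (hΓ : Lat Γ) (hle : Γ ≤ Λ) {α : VForm X Λ u} (hper : Per α Γ) :
    PairData Γ D (TrB D B) (P := SbP X Λ u D) (fun p y => dist (p.1.1 y) (p.1.2 y)) (fun p y => JJ α y (p.1.1 y) (p.1.2 y)) where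
  cpt := hΓ.cpt
  D_closed := G.D_closed
  D_inv := fun y hy l hl => G.D_inv y hy l (hle hl)
  thin := G.D_thin
  ae_tr := fun e he => G.ae_trB he
  tr_iso := fun q _ e h => trB_iso h
  shift := fun p l hl => by
    refine ⟨⟨(fun y => p.1.1 (y + l), fun y => p.1.2 (y + l)), sb_trans G p.2.1 (hle hl), sb_trans G p.2.2 (hle hl)⟩, fun y => rfl, fun y => ?_⟩
    exact (jj_add hle hper _ _ hl).symm
  hol := fun d hd => by
    obtain ⟨ε, ε₀, -, -, hc⟩ := exists_cst G (δ := d / 2) (η := 1) (half_pos hd) one_pos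
    obtain ⟨C, hC, hbd⟩ := II_bdd G hΓ hle hper (r := 3 * ε) (ε := ε) hc.δ_pos (by linarith [hc.ε_pos]) hc.cap
    have hε₀ := hc.ε₀_pos
    refine ⟨ε₀ / 2, C, half_pos hε₀, fun p y hy hcl => ⟨?_, ?_⟩⟩
    · exact sb_hol G hc p.2.1 p.2.2 (by linarith) hy (lt_of_le_of_lt hcl (by linarith))
    · have hy2 : y ∈ Gd D (d / 2) := gd_mono (by linarith) hy
      have hyD := gd_notMem hd hy
      rw [jj_eq_II G.cone G.tor G.lat hc hy2 (sb_mem G p.2.1 hyD) (sb_mem G p.2.2 hyD) (hcl.trans (by linarith))]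
      exact hbd y hy2 _ _
  cross := fun q _ e h => by
    obtain ⟨s₀, hs₀, hh⟩ := sb_cross G hΓ hle hper h
    refine ⟨s₀, hs₀, fun r₁ r₂ hr₁ hr hr₂ => ?_⟩
    obtain ⟨ε, hε, hh2⟩ := hh r₁ r₂ hr₁ hr hr₂
    exact ⟨ε, hε, fun p hp => hh2 p.1.1 p.2.1 p.1.2 p.2.2 hp⟩

/-- the half-space theorem for the integral -/
theorem sb_half (G : Geo X Λ u D B) (h0 : (0 : Vd (k + 1)) ∉ D) {Γ : AddSubgroup (Vd (k + 1))} (hΓ : Lat Γ) (hle : Γ ≤ Λ) {α : VForm X Λ u}
    (hper : Per α Γ) (hvan : VanZero α) {d₂ : ℝ} (hd₂ : 0 < d₂) :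
    ∃ d₀ ε₁ r₂ : ℝ, 0 < d₀ ∧ 0 < ε₁ ∧ 0 < r₂ ∧ ∀ f ∈ Sb X Λ u D, ∀ g ∈ Sb X Λ u D, ∀ (ζ : EN k) (t : ℝ), ‖ζ‖ = 1 →
      (∀ x ∈ Gd D d₀, (iw ζ x).re ≤ t → dist (f x) (g x) ≤ ε₁) → ∀ y ∈ Gd D d₂, (iw ζ y).re ≤ t - r₂ → JJ α y (f y) (g y) = 0 := by
  obtain ⟨d, ε, r₂, hd, hε, hr₂, hh⟩ := (pairData G hΓ hle hper).half_inner h0 (fun p l hl => jj_zero G.cone G.tor G.lat hle hper hvan hl _ _) hd₂
  exact ⟨d, ε, r₂, hd, hε, hr₂, fun f hf g hg ζ t hζ hcl y hy hyt => hh ⟨(f, g), hf, hg⟩ ζ t hζ hcl y hy hyt⟩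

/-- the half-space theorem, in the form of `Dyn.half` -/
theorem half_zero (G : Geo X Λ u D B) (h0 : (0 : Vd (k + 1)) ∉ D) {Γ : AddSubgroup (Vd (k + 1))} (hΓ : Lat Γ) (hle : Γ ≤ Λ) {α : VForm X Λ u}
    (hper : Per α Γ) (hvan : VanZero α) {d₂ : ℝ} (hd₂ : 0 < d₂) :
    ∃ d₀ : ℝ, 0 < d₀ ∧ d₀ ≤ d₂ ∧ ∀ d ε ε₀ : ℝ, d ≤ d₀ → Cst X Λ u D d ε ε₀ → ∃ ε₁ r₂ : ℝ, 0 < ε₁ ∧ 0 < r₂ ∧
      ∀ f ∈ Sb X Λ u D, ∀ g ∈ Sb X Λ u D, ∀ (ζ : EN k) (t : ℝ), ‖ζ‖ = 1 →
        (∀ x ∈ Gd D d, (iw ζ x).re ≤ t → dist (f x) (g x) ≤ ε₁) → ∀ y ∈ Gd D d₂, (iw ζ y).re ≤ t - r₂ → II α ε y (f y) (g y) = 0 := by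
  obtain ⟨d₀, ε₁, r₂, hd₀, hε₁, hr₂, hh⟩ := sb_half G h0 hΓ hle hper hvan hd₂
  refine ⟨min d₀ d₂, lt_min hd₀ hd₂, min_le_right _ _, fun d ε ε₀ hd hc => ⟨min ε₁ ε₀, r₂, lt_min hε₁ hc.ε₀_pos, hr₂, fun f hf g hg ζ t hζ hcl y hy hyt => ?_⟩⟩
  have h1 := hh f hf g hg ζ t hζ (fun x hx hxt => (hcl x (gd_mono (hd.trans (min_le_left _ _)) hx) hxt).trans (min_le_left _ _)) y hy hyt
  have hyd : y ∈ Gd D d := gd_mono (hd.trans (min_le_right _ _)) hy
  have hyD : y ∉ D := gd_notMem hd₂ hy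
  have h2 := (hcl y hyd (by linarith)).trans (min_le_right _ _)
  rwa [jj_eq_II G.cone G.tor G.lat hc hyd (sb_mem G hf hyD) (sb_mem G hg hyD) h2] at h1

end Pool.Agent.TG

end

section

/-!
# TG Core: the sections are finitely many

The dynamical situation `Dyn` (Euclidean norm) from the geometric situation (sup norm), by the identity `EN k ≃L[ℂ] Vd (k + 1)`.
-/

set_option autoImplicit false

open Topology Filter Metric MeasureTheory

namespace Pool.Agent.TG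

open Pool.Agent.H36.BP (EN fs wd)
open Pool.Agent.H14.PP (IsCone CurveAt Tan)
open Pool.Agent.H62.EF (MN pr)
open Pool.Agent.AD (Vd Chart Charts IsGerm)

variable {N k : ℕ} {X : Set (EN N)} {Λ : AddSubgroup (Vd (k + 1))} {u : EN N → Vd (k + 1)} {D B : Set (Vd (k + 1))}

/-- the identity from the Euclidean space to the space with the sup norm -/
noncomputable def TE (k : ℕ) : EN k ≃L[ℂ] Vd (k + 1) := EuclideanSpace.equiv (Fin (k + 1)) ℂ

theorem TE_apply (z : EN k) : TE k z = fun i => z i := rfl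

theorem TE_norm (z : EN k) : ‖TE k z‖ ≤ ‖z‖ := (pi_norm_le_iff_of_nonneg (norm_nonneg _)).2 fun i => PiLp.norm_apply_le z i

theorem TE_dist (z w : EN k) : ‖TE k z - TE k w‖ ≤ ‖z - w‖ := by
  rw [← map_sub]
  exact TE_norm _

theorem exists_TE_symm_bound (k : ℕ) : ∃ C : ℝ, 0 < C ∧ ∀ y : Vd (k + 1), ‖(TE k).symm y‖ ≤ C * ‖y‖ := by
  refine ⟨‖((TE k).symm : Vd (k + 1) →L[ℂ] EN k)‖ + 1, by positivity, fun y => ?_⟩
  exact (((TE k).symm : Vd (k + 1) →L[ℂ] EN k).le_opNorm y).trans (mul_le_mul_of_nonneg_right (by linarith) (norm_nonneg _))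

/-- the open set on which the conclusions hold -/
theorem interior_gd_add (G : Geo X Λ u D B) {Γ : AddSubgroup (Vd (k + 1))} (hle : Γ ≤ Λ) (d : ℝ) {y l : Vd (k + 1)} (hl : l ∈ Γ) :
    y + l ∈ interior (Gd D d) ↔ y ∈ interior (Gd D d) := by
  have h1 : interior (Gd D d) = (fun y => y + l) ⁻¹' interior (Gd D d) := by
    have h2 : (fun y => y + l) ⁻¹' Gd D d = Gd D d := by
      ext y
      exact G.gd_add d (hle hl)
    have h3 : (fun y => y + l) ⁻¹' interior (Gd D d) = interior ((fun y => y + l) ⁻¹' Gd D d) :=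
      (Homeomorph.addRight l).preimage_interior (Gd D d)
    rw [h3, h2]
  constructor
  · intro h
    rw [h1]
    exact h
  · intro h
    rw [h1] at h
    exact h

/-- **the dynamical situation** -/
theorem dyn (G : Geo X Λ u D B) (h0 : (0 : Vd (k + 1)) ∉ D) {Γ : AddSubgroup (Vd (k + 1))} (hΓ : Lat Γ) (hle : Γ ≤ Λ) {α : VForm X Λ u}
    (hper : Per α Γ) (hvan : VanZero α) (hthin : Thin α) :
    ∃ (d d₂ ε : ℝ), 0 < d ∧ d ≤ d₂ ∧ Dyn (pr '' X) (Γ.comap ((TE k : EN k →L[ℂ] Vd (k + 1)) : EN k →+ Vd (k + 1))) (TE k ⁻¹' D) (TE k ⁻¹' Gd D d)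
      (TE k ⁻¹' interior (Gd D d₂)) {h | (fun y => h ((TE k).symm y)) ∈ Sb X Λ u D} (fun z m => Zr α (TE k z) m)
      (fun z m m' => II α ε (TE k z) m m' = 0) := by
  -- a point off `D`
  obtain ⟨δ, hδ, h0δ⟩ := G.exists_gd h0
  have hd₂ : 0 < δ / 2 := half_pos hδ
  obtain ⟨d₀, hd₀, hd₀₂, hhalf⟩ := half_zero G h0 hΓ hle hper hvan hd₂
  obtain ⟨ε, ε₀, -, -, hc⟩ := exists_cst G (δ := d₀) (η := 1) hd₀ one_pos
  obtain ⟨ε₁, r₂, hε₁, hr₂, hh⟩ := hhalf d₀ ε ε₀ le_rfl hc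
  have hOG : interior (Gd D (δ / 2)) ⊆ Gd D d₀ := fun y hy => gd_mono hd₀₂ (interior_subset hy)
  have hsy : ∀ z : EN k, (TE k).symm (TE k z) = z := fun z => (TE k).symm_apply_apply z
  have hys : ∀ y : Vd (k + 1), TE k ((TE k).symm y) = y := fun y => (TE k).apply_symm_apply y
  obtain ⟨C, hC, hCb⟩ := exists_TE_symm_bound k
  refine ⟨d₀, δ / 2, ε, hd₀, hd₀₂, ?_⟩
  refine
    { compact := Pool.Agent.H62.EF.isCompact_pr G.cone
      cpt := ?_
      D_closed := G.D_closed.preimage (TE k).continuous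
      D_inv := fun z l hl => by
        show TE k (z + l) ∈ D ↔ TE k z ∈ D
        rw [map_add]
        exact G.D_sub (hle hl)
      G_closed := (gd_closed D d₀).preimage (TE k).continuous
      G_inv := fun z l hl => by
        show TE k (z + l) ∈ Gd D d₀ ↔ TE k z ∈ Gd D d₀
        rw [map_add]
        exact G.gd_add d₀ (hle hl)
      G_D := fun z hz => gd_notMem hd₀ hz
      O_open := isOpen_interior.preimage (TE k).continuous
      O_inv := fun z l hl => by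
        show TE k (z + l) ∈ interior (Gd D (δ / 2)) ↔ TE k z ∈ interior (Gd D (δ / 2))
        rw [map_add]
        exact interior_gd_add G hle _ hl
      O_sub := fun z hz => hOG hz
      O_ne := ?_
      mem := ?_
      lip := ?_
      trans := ?_
      lim := ?_
      uniq := ?_
      Z_inv := fun z l hl m => by
        show Zr α (TE k (z + l)) m ↔ Zr α (TE k z) m
        rw [map_add]
        exact zr_per hle hper hl _ m
      Z_lim := ?_
      N_inv := fun z l hl m m' => by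
        show II α ε (TE k (z + l)) m m' = 0 ↔ II α ε (TE k z) m m' = 0
        rw [map_add, II_per G.tor hle hper (l := TE k l) hl]
      half := ?_
      near := ?_
      iso := ?_ }
  · obtain ⟨R, hR, hRb⟩ := hΓ.cpt
    refine ⟨C * R, by positivity, fun z => ?_⟩
    obtain ⟨l, hl, h1⟩ := hRb (TE k z)
    refine ⟨(TE k).symm l, ?_, ?_⟩
    · show TE k ((TE k).symm l) ∈ Γ
      rwa [hys]
    · have e : z - (TE k).symm l = (TE k).symm (TE k z - l) := by rw [map_sub, hsy]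
      rw [e]
      exact (hCb _).trans (mul_le_mul_of_nonneg_left h1 hC.le)
  · refine ⟨(TE k).symm 0, ?_⟩
    show TE k ((TE k).symm 0) ∈ interior (Gd D (δ / 2))
    rw [hys, mem_interior_iff_mem_nhds]
    filter_upwards [closedBall_mem_nhds (0 : Vd (k + 1)) hd₂] with y hy
    have h1 := gd_near h0δ (r := δ / 2) (w := y) (by rwa [← dist_eq_norm])
    have e : δ - δ / 2 = δ / 2 := by ring
    rwa [e] at h1
  · intro f hf z hz
    have h1 := sb_mem G hf (y := TE k z) hz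
    simp only [hsy] at h1
    obtain ⟨x, hx, hxm, -⟩ := h1
    exact ⟨x, hx, hxm⟩
  · intro z hz
    obtain ⟨δ₁, hδ₁, hzδ⟩ := G.exists_gd (y := TE k z) hz
    obtain ⟨L, hL, hl⟩ := sb_lip G (half_pos hδ₁)
    refine ⟨L, δ₁ / 8, hL, by positivity, fun f hf w hw w' hw' => ?_⟩
    have h1 : ‖TE k w - TE k z‖ ≤ δ₁ / 8 := (TE_dist w z).trans (by rw [← dist_eq_norm]; exact (mem_ball.1 hw).le)
    have h2 : ‖TE k w' - TE k z‖ ≤ δ₁ / 8 := (TE_dist w' z).trans (by rw [← dist_eq_norm]; exact (mem_ball.1 hw').le)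
    have h3 : TE k w ∈ Gd D (δ₁ / 2) := gd_mono (by linarith) (gd_near hzδ h1)
    have h4 : TE k w' ∈ closedBall (TE k w) (δ₁ / 2 / 2) := by
      rw [mem_closedBall, dist_eq_norm]
      have e : TE k w' - TE k w = (TE k w' - TE k z) - (TE k w - TE k z) := by abel
      rw [e]
      refine (norm_sub_le _ _).trans ?_
      linarith
    have h5 := hl _ hf _ h3 _ h4
    simp only [hsy] at h5
    exact h5.trans (mul_le_mul_of_nonneg_left (TE_dist w w') hL.le)
  · intro f hf l hl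
    show (fun y => f ((TE k).symm y + l)) ∈ Sb X Λ u D
    have h1 := sb_trans G hf (hle hl)
    have e : (fun y => f ((TE k).symm (y + TE k l))) = fun y => f ((TE k).symm y + l) := by
      funext y
      rw [map_add, hsy]
    rw [← e]
    exact h1
  · intro 𝒰 F f hF hf
    refine sb_lim G 𝒰 (fun n y => F n ((TE k).symm y)) (fun y => f ((TE k).symm y)) hF fun y hy => ?_
    exact hf _ (by show TE k ((TE k).symm y) ∉ D; rwa [hys])
  · intro f hf g hg z₀ hz₀ h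
    have h1 : ∀ᶠ y in 𝓝 (TE k z₀), f ((TE k).symm y) = g ((TE k).symm y) := by
      have h2 : Tendsto (TE k).symm (𝓝 (TE k z₀)) (𝓝 z₀) := by
        have := (TE k).symm.continuous.tendsto (TE k z₀)
        rwa [hsy] at this
      exact h2.eventually h
    have h2 := sb_uniq G hf hg hz₀ h1
    intro z hz
    have h3 := h2 (TE k z) hz
    simp only [hsy] at h3
    exact h3
  · intro 𝒰 F f hf hF hFf z hz h
    have hzD : TE k z ∉ D := gd_notMem hd₀ (hOG hz)
    exact zr_lim G (l := (𝒰 : Filter ℕ)) (y := fun _ => TE k z) (m := fun n => F n z) hzD tendsto_const_nhds (hFf z hzD) h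
  · refine ⟨r₂, ε₁, hr₂, hε₁, fun f hf g hg ζ t hζ hcl z hz hzt => ?_⟩
    have h1 := hh _ hf _ hg ζ t hζ (fun x hx hxt => ?_) (TE k z) (interior_subset hz) (by rw [TE_apply, iw_eq]; exact hzt)
    · simp only [hsy] at h1
      exact h1
    · refine hcl ((TE k).symm x) ?_ ?_
      · show TE k ((TE k).symm x) ∈ Gd D d₀
        rwa [hys]
      · rw [← iw_eq, ← TE_apply, hys]
        exact hxt
  · intro 𝒰 F H w f hf z hz hFH hF hH hw h
    have hzG : TE k z ∈ Gd D d₀ := hOG hz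
    have hzD : TE k z ∉ D := gd_notMem hd₀ hzG
    have hw' : Tendsto (fun n => TE k (w n)) 𝒰 (𝓝 (TE k z)) := ((TE k).continuous.tendsto z).comp hw
    have hoff : ∀ y : Vd (k + 1), y ∉ D → TE k ((TE k).symm y) ∉ D := fun y hy => by rwa [hys]
    have h1 := sb_along G 𝒰 (fun n y => F n ((TE k).symm y)) (f := fun y => f ((TE k).symm y)) (hFH.mono fun n hn => hn.1) (fun y hy => hF _ (hoff y hy)) hzD hw'
    have h2 := sb_along G 𝒰 (fun n y => H n ((TE k).symm y)) (f := fun y => f ((TE k).symm y)) (hFH.mono fun n hn => hn.2) (fun y hy => hH _ (hoff y hy)) hzD hw'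
    simp only [hsy] at h1 h2
    refine near_zr G hc (l := (𝒰 : Filter ℕ)) hzG hw' h1 h2 ?_
    filter_upwards [h, hFH] with n hn hn2
    have hnG : TE k (w n) ∈ Gd D d₀ := hOG hn.1
    have hnD : TE k (w n) ∉ D := gd_notMem hd₀ hnG
    have h3 := sb_mem G hn2.1 hnD
    have h4 := sb_mem G hn2.2 hnD
    simp only [hsy] at h3 h4
    exact ⟨hnG, h3, h4, hn.2.1, hn.2.2⟩
  · intro e he _
    -- a point of `O`
    have h1 : (0 : Vd (k + 1)) ∈ interior (Gd D (δ / 2)) := by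
      rw [mem_interior_iff_mem_nhds]
      filter_upwards [closedBall_mem_nhds (0 : Vd (k + 1)) hd₂] with y hy
      have h1 := gd_near h0δ (r := δ / 2) (w := y) (by rwa [← dist_eq_norm])
      have e : δ - δ / 2 = δ / 2 := by ring
      rwa [e] at h1
    obtain ⟨φ, hφ, hφX⟩ := sb_lift G he h0
    have h2 : ∀ᶠ y in 𝓝 (0 : Vd (k + 1)), y ∈ interior (Gd D (δ / 2)) ∧ pr (φ y) = e ((TE k).symm y) :=
      Filter.Eventually.and (isOpen_interior.mem_nhds h1) (hφX.mono fun y hy => hy.2.2)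
    obtain ⟨O₁, hO₁, hO₁o, h0O⟩ := _root_.eventually_nhds_iff.1 h2
    obtain ⟨y₀, r', ε', hr', hε', hball, hiso⟩ := iso_zr G hthin hc hO₁o (fun y hy => hOG (hO₁ y hy).1) h0O hφ (hφX.mono fun y hy => ⟨hy.1, hy.2.1⟩)
    refine ⟨(TE k).symm y₀, r', ε', hr', hε', ?_, fun g hg z hz hd hor => ?_⟩
    · intro z hz
      refine (hO₁ _ (hball ?_)).1
      rw [mem_ball, dist_eq_norm] at hz ⊢
      refine lt_of_le_of_lt ?_ hz
      have := TE_dist z ((TE k).symm y₀)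
      rwa [hys] at this
    · have hzb : TE k z ∈ ball y₀ r' := by
        rw [mem_ball, dist_eq_norm] at hz ⊢
        refine lt_of_le_of_lt ?_ hz
        have := TE_dist z ((TE k).symm y₀)
        rwa [hys] at this
      have hzO := hO₁ _ (hball hzb)
      have hzD : TE k z ∉ D := gd_notMem hd₀ (hOG hzO.1)
      have hpe : pr (φ (TE k z)) = e z := by rw [hzO.2, hsy]
      have hgz := sb_mem G hg hzD
      simp only [hsy] at hgz
      rw [← hpe]
      exact hiso _ hzb _ hgz (by rwa [hpe]) (by rw [hpe]; exact hor)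

/-- **The sections are finitely many**, modulo equality off `D`. -/
theorem finSec (G : Geo X Λ u D B) (h0 : (0 : Vd (k + 1)) ∉ D) {Γ : AddSubgroup (Vd (k + 1))} (hΓ : Lat Γ) (hle : Γ ≤ Λ) {α : VForm X Λ u}
    (hper : Per α Γ) (hvan : VanZero α) (hthin : Thin α) : FinSec X Λ u D := by
  obtain ⟨d, d₂, ε, -, -, hD⟩ := dyn G h0 hΓ hle hper hvan hthin
  obtain ⟨𝓕, hfin, -, h𝓕⟩ := hD.finite
  refine ⟨(fun h : EN k → MN N => fun y => h ((TE k).symm y)) '' 𝓕, hfin.image _, fun f hf => ?_⟩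
  have h1 : (fun z => f (TE k z)) ∈ {h : EN k → MN N | (fun y => h ((TE k).symm y)) ∈ Sb X Λ u D} := by
    show (fun y => f (TE k ((TE k).symm y))) ∈ Sb X Λ u D
    simp only [ContinuousLinearEquiv.apply_symm_apply]
    exact sec_sb hf
  obtain ⟨g, hg, hfg⟩ := h𝓕 _ h1
  refine ⟨_, ⟨g, hg, rfl⟩, fun y hy => ?_⟩
  have h2 := hfg ((TE k).symm y) (by show TE k ((TE k).symm y) ∉ D; rwa [(TE k).apply_symm_apply])
  simp only [ContinuousLinearEquiv.apply_symm_apply] at h2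
  exact h2

end Pool.Agent.TG

end

section

/-!
# TG Trl: translation in the torus: the finiteness theorem for a form which vanishes on the fibre over an arbitrary point off `D`
-/

set_option autoImplicit false

open Topology Filter Metric

namespace Pool.Agent.TG

open Pool.Agent.H36.BP (EN fs wd)
open Pool.Agent.H14.PP (IsCone CurveAt Tan)
open Pool.Agent.H62.EF (MN pr)
open Pool.Agent.AD (Vd Chart Charts IsGerm)

variable {N k : ℕ} {X : Set (EN N)} {Λ : AddSubgroup (Vd (k + 1))} {u : EN N → Vd (k + 1)} {D B : Set (Vd (k + 1))}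

/-- the translated map -/
def uTr (u : EN N → Vd (k + 1)) (a : Vd (k + 1)) (x : EN N) : Vd (k + 1) := u x - a

/-- the translated set -/
def dTr (D : Set (Vd (k + 1))) (a : Vd (k + 1)) : Set (Vd (k + 1)) := {y | y + a ∈ D}

theorem uTr_sub (u : EN N → Vd (k + 1)) (a : Vd (k + 1)) (x : EN N) (y : Vd (k + 1)) : uTr u a x - y = u x - (y + a) := by
  unfold uTr
  abel

theorem mem_uTr {a : Vd (k + 1)} {x : EN N} {y : Vd (k + 1)} : uTr u a x - y ∈ Λ ↔ u x - (y + a) ∈ Λ := by rw [uTr_sub]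

theorem trAn (a y : Vd (k + 1)) : AnalyticAt ℂ (fun z : Vd (k + 1) => z + a) y := analyticAt_id.add analyticAt_const

theorem TMap.trl (h : TMap X Λ u) (a : Vd (k + 1)) : TMap X Λ (uTr u a) where
  smul := fun x hx c hc => by
    have h1 := h.smul x hx c hc
    have h2 : uTr u a (c • x) - uTr u a x = u (c • x) - u x := by
      unfold uTr
      abel
    rwa [h2]
  loc := fun x hx => by
    obtain ⟨v, hv, h1⟩ := h.loc x hx
    refine ⟨fun y => v y - a, hv.sub analyticAt_const, ?_⟩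
    filter_upwards [h1] with y hy hyX
    have h2 : uTr u a y - (v y - a) = u y - v y := by
      unfold uTr
      abel
    rw [h2]
    exact hy hyX

theorem Geo.trl (G : Geo X Λ u D B) (a : Vd (k + 1)) : Geo X Λ (uTr u a) (dTr D a) (dTr B a) where
  cone := G.cone
  charts := G.charts
  tor := G.tor.trl a
  lat := G.lat
  D_closed := G.D_closed.preimage (continuous_id.add continuous_const)
  D_inv := fun y hy l hl => by
    have h1 := G.D_inv _ hy l hl
    have h2 : y + l + a = y + a + l := by abel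
    show y + l + a ∈ D
    rw [h2]
    exact h1
  D_thin := fun y => by
    obtain ⟨h, h1, h2, h3⟩ := G.D_thin (y + a)
    have hc : Tendsto (fun z : Vd (k + 1) => z + a) (𝓝 y) (𝓝 (y + a)) := (trAn a y).continuousAt.tendsto
    refine ⟨fun z => h (z + a), AnalyticAt.fun_comp (g := h) (f := fun z : Vd (k + 1) => z + a) h1 (trAn a y), hc.eventually h2, fun h4 => h3 ?_⟩
    have hc' : Tendsto (fun z : Vd (k + 1) => z - a) (𝓝 (y + a)) (𝓝 y) := by
      have h5 : Continuous fun z : Vd (k + 1) => z - a := continuous_id.sub continuous_const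
      have h6 := h5.tendsto (y + a)
      rwa [add_sub_cancel_right] at h6
    filter_upwards [hc'.eventually h4] with z hz
    rwa [sub_add_cancel] at hz
  B_lines := fun e he => by
    have h1 := G.B_lines e he
    have h2 := (MeasureTheory.measurePreserving_add_right (MeasureTheory.volume : MeasureTheory.Measure (Vd (k + 1))) a).quasiMeasurePreserving.tendsto_ae.eventually h1
    filter_upwards [h2] with y hy z
    have h3 : y + z • e + a = y + a + z • e := by abel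
    show ¬ (y + z • e + a ∈ B)
    rw [h3]
    exact hy z
  sub := fun y hy x hx hxy => by
    obtain ⟨σ, τ, h1, h2, h3⟩ := G.sub (y + a) hy x hx (mem_uTr.1 hxy)
    refine ⟨σ, τ, h1, h2, ?_⟩
    filter_upwards [h3] with p hp
    rw [mem_uTr]
    have h4 : y + tl p + a = y + a + tl p := by abel
    rwa [h4]
  fib := fun y hy F hF hFX hFu hL => G.fib (y + a) hy F hF hFX (fun z => mem_uTr.1 (hFu z)) hL
  nc := fun y hy hyB => by
    obtain ⟨κ, hκ, h1⟩ := G.nc (y + a) hy hyB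
    refine ⟨fun q => κ q - a, ⟨hκ.an.sub analyticAt_const, ?_, ?_, ?_⟩, fun x hx hxy => ?_⟩
    · show κ 0 - a = y
      rw [hκ.zero, add_sub_cancel_right]
    · rw [fderiv_sub_const]
      exact hκ.inj
    · filter_upwards [hκ.mem_iff] with q hq
      rw [← hq]
      show κ q - a + a ∈ D ↔ κ q ∈ D
      rw [sub_add_cancel]
    · obtain ⟨σ, τ, m, n, h2, h3, h4, h5⟩ := h1 x hx (mem_uTr.1 hxy)
      refine ⟨σ, τ, m, n, h2, h3, h4, ?_⟩
      filter_upwards [h5] with p hp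
      rw [mem_uTr, sub_add_cancel]
      exact hp

/-- the translated form -/
def VForm.trl (α : VForm X Λ u) (a : Vd (k + 1)) : VForm X Λ (uTr u a) where
  toFun := fun y x v => α.toFun (y + a) x v
  add_smul := fun y x hx hy v hv b => α.add_smul (y + a) x hx (mem_uTr.1 hy) v hv b
  det := fun y x hx hy v hv A => α.det (y + a) x hx (mem_uTr.1 hy) v hv A
  scale := fun y x hx hy v hv c hc => α.scale (y + a) x hx (mem_uTr.1 hy) v hv c hc
  analytic := fun φ υ p hφ hυ h => α.analytic φ (fun q => υ q + a) p hφ (hυ.add analyticAt_const) (by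
    filter_upwards [h] with q hq
    exact ⟨hq.1, mem_uTr.1 hq.2⟩)

theorem Per.trl {α : VForm X Λ u} {Γ : AddSubgroup (Vd (k + 1))} (h : Per α Γ) (a : Vd (k + 1)) : Per (α.trl a) Γ := by
  intro y l hl x hx hxy v hv
  have h1 := h (y + a) l hl x hx (mem_uTr.1 hxy) v hv
  show α.toFun (y + l + a) x v = α.toFun (y + a) x v
  have h2 : y + l + a = y + a + l := by abel
  rw [h2]
  exact h1

theorem Thin.trl {α : VForm X Λ u} (h : Thin α) (a : Vd (k + 1)) : Thin (α.trl a) := by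
  intro χ υ p hp hυ hl
  exact h χ (fun q => υ q + a) p hp (hυ.add analyticAt_const) (by
    filter_upwards [hl] with q hq
    exact mem_uTr.1 hq)

/-- the form vanishes on the fibre over `a` -/
def VanAt (α : VForm X Λ u) (a : Vd (k + 1)) : Prop := ∀ x ∈ X, u x - a ∈ Λ → ∀ v : Fin (k + 2) → EN N, (∀ i, Tan X x (v i)) → α.toFun a x v = 0

theorem VanAt.trl {α : VForm X Λ u} {a : Vd (k + 1)} (h : VanAt α a) : VanZero (α.trl a) := by
  intro x hx hxu v hv
  show α.toFun (0 + a) x v = 0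
  rw [zero_add]
  exact h x hx hxu v hv

/-- the translated section -/
theorem sec_trl {f : Vd (k + 1) → MN N} (hf : f ∈ Sec X Λ u D) (a : Vd (k + 1)) : (fun y => f (y + a)) ∈ Sec X Λ (uTr u a) (dTr D a) := by
  refine ⟨fun y hy => ?_, fun y e he => ?_⟩
  · obtain ⟨φ, hφ, h⟩ := hf.1 (y + a) hy
    refine ⟨fun z => φ (z + a), AnalyticAt.fun_comp (g := φ) (f := fun z : Vd (k + 1) => z + a) hφ (trAn a y), ?_⟩
    filter_upwards [(trAn a y).continuousAt.eventually h] with z hz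
    exact ⟨hz.1, hz.2.1, mem_uTr.2 hz.2.2⟩
  · have h0 : ∀ z : ℂ, y + z • e + a = y + a + z • e := fun z => by abel
    obtain ⟨g, ⟨Φ, hΦ, hg⟩, hgf⟩ := hf.2 (y + a) e (by
      filter_upwards [he] with z hz
      rw [← h0]
      exact hz)
    refine ⟨g, ⟨Φ, hΦ, ?_⟩, ?_⟩
    · filter_upwards [hg] with z hz
      refine ⟨hz.1, hz.2.1, mem_uTr.2 ?_⟩
      rw [h0]
      exact hz.2.2
    · filter_upwards [hgf] with z hz
      rw [hz, ← h0]

theorem finSec_trl {a : Vd (k + 1)} (h : FinSec X Λ (uTr u a) (dTr D a)) : FinSec X Λ u D := by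
  obtain ⟨T, hT, h1⟩ := h
  refine ⟨(fun g : Vd (k + 1) → MN N => fun y => g (y - a)) '' T, hT.image _, fun f hf => ?_⟩
  obtain ⟨g, hg, h2⟩ := h1 _ (sec_trl hf a)
  refine ⟨_, ⟨g, hg, rfl⟩, fun y hy => ?_⟩
  have h3 := h2 (y - a) (by
    show ¬ (y - a + a ∈ D)
    rwa [sub_add_cancel])
  rwa [sub_add_cancel] at h3

/-- **Finiteness of the sections**, for a form which vanishes on the fibre over a point `a` off `D`. -/
theorem finSec_at (G : Geo X Λ u D B) {a : Vd (k + 1)} (ha : a ∉ D) {Γ : AddSubgroup (Vd (k + 1))} (hΓ : Lat Γ) (hle : Γ ≤ Λ)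
    {α : VForm X Λ u} (hper : Per α Γ) (hvan : VanAt α a) (hthin : Thin α) : FinSec X Λ u D := by
  refine finSec_trl (a := a) (finSec (G.trl a) ?_ hΓ hle (hper.trl a) hvan.trl (hthin.trl a))
  show ¬ (0 + a ∈ D)
  rwa [zero_add]

end Pool.Agent.TG

end

section

/-!
# TG GuF: the form on the covering, from the projective space to the cone
-/

set_option autoImplicit false

open Topology Filter Metric MvPolynomial

noncomputable section

namespace Pool.Agent.TGF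

open Pool.Agent.H17 (PN)
open Pool.Agent.H62.FC (Homog)
open Pool.Agent.H36.BP (EN)
open Pool.Agent.H14.PP (IsCone Tan)
open Pool.Agent.H17EF (projVar coneE LE mem_coneE mk_mem_projVar)
open Pool.Agent.H17G (IsTangent isTangent_iff)
open Pool.Agent.AD (uV uV_eq sub_mem_iff Vd Chart isCone_coneE torusMapV IsHolomorphicTorusMap)
open Pool.Agent.TG (VForm Per Thin VanAt TMap Lat tc)

variable {N k : ℕ} {P : Ideal (MvPolynomial (Fin (N + 1)) ℂ)} {Λ Γ : AddSubgroup (Cn (k + 1))} {u : PN N → Cn (k + 1) ⧸ Λ}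

theorem over_iff (hP : Homog P) {y : Cn (k + 1)} {x : EN N} : Over (projVar P) Λ u y ((LE N).symm x) ↔ x ∈ coneE P ∧ uV Λ u x - y ∈ Λ := by
  constructor
  · rintro ⟨h, h1, h2⟩
    exact ⟨(mem_coneE hP).2 ⟨h, h1⟩, by rw [sub_mem_iff, uV_eq Λ u h]; exact h2⟩
  · rintro ⟨h1, h2⟩
    obtain ⟨h, h3⟩ := (mem_coneE hP).1 h1
    exact ⟨h, h3, by rw [← uV_eq Λ u h]; exact sub_mem_iff.1 h2⟩

/-- the form on the covering of the cone -/
def vform (hP : Homog P) {Ω : Cn (k + 1) → Cn (N + 1) → (Fin (k + 2) → Cn (N + 1)) → ℂ} (hΩ : IsTopForm (projVar P) Λ Γ u Ω) :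
    VForm (coneE P) Λ (uV Λ u) where
  toFun y x v := Ω y ((LE N).symm x) fun i => (LE N).symm (v i)
  add_smul := by
    intro y x hx hy v hv a
    have h1 := hΩ.horizontal y _ ((over_iff hP).2 ⟨hx, hy⟩) (fun i => (LE N).symm (v i)) (fun i => (isTangent_iff hP hx).2 (hv i)) a
    rw [← h1]
    congr 1
  det := by
    intro y x hx hy v hv A
    have h1 := hΩ.alternating y _ ((over_iff hP).2 ⟨hx, hy⟩) (fun i => (LE N).symm (v i)) (fun i => (isTangent_iff hP hx).2 (hv i)) A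
    rw [← h1]
    congr 1
    funext i
    rw [map_sum]
    exact Finset.sum_congr rfl fun j _ => map_smul _ _ _
  scale := by
    intro y x hx hy v hv c hc
    have h1 := hΩ.homogeneous y _ ((over_iff hP).2 ⟨hx, hy⟩) (fun i => (LE N).symm (v i)) (fun i => (isTangent_iff hP hx).2 (hv i)) c hc
    rw [← h1, map_smul]
    congr 1
  analytic := by
    intro φ υ p hφ hυ hφX
    have h1 : AnalyticAt ℂ (fun y => (LE N).symm (φ y)) p := (((LE N).symm : EN N →L[ℂ] (Fin (N + 1) → ℂ)).analyticAt _).comp hφ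
    have h2 := hΩ.holomorphic _ υ p h1 hυ (by
      filter_upwards [hφX] with y hy
      exact (over_iff hP).2 hy)
    refine h2.congr ?_
    filter_upwards [hφ.eventually_analyticAt] with y hy
    have h3 : HasFDerivAt (fun y => (LE N).symm (φ y)) (((LE N).symm : EN N →L[ℂ] (Fin (N + 1) → ℂ)).comp (fderiv ℂ φ y)) y :=
      ((LE N).symm : EN N →L[ℂ] (Fin (N + 1) → ℂ)).hasFDerivAt.comp y hy.differentiableAt.hasFDerivAt
    rw [h3.fderiv]
    rfl

theorem vform_per (hP : Homog P) {Ω : Cn (k + 1) → Cn (N + 1) → (Fin (k + 2) → Cn (N + 1)) → ℂ} (hΩ : IsTopForm (projVar P) Λ Γ u Ω) :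
    Per (vform hP hΩ) Γ := by
  intro y l hl x hx hy v hv
  exact hΩ.periodic y l hl _ ((over_iff hP).2 ⟨hx, hy⟩) _ (fun i => (isTangent_iff hP hx).2 (hv i))

theorem vform_van (hP : Homog P) {Ω : Cn (k + 1) → Cn (N + 1) → (Fin (k + 2) → Cn (N + 1)) → ℂ} (hΩ : IsTopForm (projVar P) Λ Γ u Ω)
    {y : Cn (k + 1)} (hv : VanishesOver (projVar P) Λ u Ω y) : VanAt (vform hP hΩ) y := by
  intro x hx hy v hv'
  exact hv _ ((over_iff hP).2 ⟨hx, hy⟩) _ (fun i => (isTangent_iff hP hx).2 (hv' i))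

theorem vform_thin (hP : Homog P) (hT : TMap (coneE P) Λ (uV Λ u)) {Ω : Cn (k + 1) → Cn (N + 1) → (Fin (k + 2) → Cn (N + 1)) → ℂ}
    (hΩ : IsTopForm (projVar P) Λ Γ u Ω) (hΛ : Lat Λ) (hnz : IsNowhereZero (projVar P) Λ u Ω) : Thin (vform hP hΩ) := by
  intro χ υ p hp hυ hlift htc
  have hX : IsCone (coneE P) := isCone_coneE hP
  obtain ⟨δ, hδ, hdisc⟩ := hΛ.disc
  obtain ⟨hpX, hpU, hpq⟩ := χ.σ_mem p hp
  have hover : Over (projVar P) Λ u (υ p) ((LE N).symm (χ.σ p)) := (over_iff hP).2 ⟨hpX, hlift.self_of_nhds⟩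
  refine (hnz _ _ hover) ?_
  -- the point of the cone
  have hLEt : Tendsto (fun q : Cn (k + 1) × Cn (N + 1) => (LE N) q.2) (𝓝 (υ p, (LE N).symm (χ.σ p))) (𝓝 (χ.σ p)) := by
    have h1 : Continuous (fun q : Cn (k + 1) × Cn (N + 1) => (LE N) q.2) := (LE N).continuous.comp continuous_snd
    have h2 := h1.tendsto (υ p, (LE N).symm (χ.σ p))
    simp only [ContinuousLinearEquiv.apply_symm_apply] at h2
    exact h2
  have hqt : Tendsto (fun q : Cn (k + 1) × Cn (N + 1) => χ.q ((LE N) q.2)) (𝓝 (υ p, (LE N).symm (χ.σ p))) (𝓝 p) := by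
    have h1 := (χ.q_an _ hpU).continuousAt.tendsto.comp hLEt
    rwa [hpq] at h1
  have hev1 : ∀ᶠ q in 𝓝 (υ p, (LE N).symm (χ.σ p)), (LE N) q.2 ∈ χ.U := hLEt.eventually (χ.isOpen_U.mem_nhds hpU)
  have hev2 : ∀ᶠ y in 𝓝 p, ‖υ y - υ p‖ < δ / 2 := by
    have h1 : Tendsto (fun y => ‖υ y - υ p‖) (𝓝 p) (𝓝 ‖υ p - υ p‖) := (hυ.continuousAt.tendsto.sub_const _).norm
    rw [sub_self, norm_zero] at h1
    exact h1.eventually_lt_const (by positivity)
  have hev3 : ∀ᶠ q : Cn (k + 1) × Cn (N + 1) in 𝓝 (υ p, (LE N).symm (χ.σ p)), ‖q.1 - υ p‖ < δ / 2 := by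
    have h0 : Tendsto (fun q : Cn (k + 1) × Cn (N + 1) => q.1) (𝓝 (υ p, (LE N).symm (χ.σ p))) (𝓝 (υ p)) := continuousAt_fst
    have h1 : Tendsto (fun q : Cn (k + 1) × Cn (N + 1) => ‖q.1 - υ p‖) (𝓝 (υ p, (LE N).symm (χ.σ p))) (𝓝 ‖υ p - υ p‖) := (h0.sub_const _).norm
    rw [sub_self, norm_zero] at h1
    exact h1.eventually_lt_const (by positivity)
  filter_upwards [hev1, hev3, hqt.eventually hev2, hqt.eventually hlift, hqt.eventually htc] with q hq1 hq3 hq2 hq4 hq5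
  rintro ⟨hov, v, hv, hne⟩
  apply hne
  set x : EN N := (LE N) q.2 with hx
  have hxs : (LE N).symm x = q.2 := ContinuousLinearEquiv.symm_apply_apply _ _
  set V : Fin (k + 2) → EN N := fun i => (LE N) (v i) with hVdef
  have hVs : (fun i => (LE N).symm (V i)) = v := funext fun i => ContinuousLinearEquiv.symm_apply_apply _ _
  rw [← hxs] at hov hv ⊢
  rw [← hVs] at hv ⊢
  obtain ⟨hxX, hxz⟩ := (over_iff hP).1 hov
  have hV : ∀ i, Tan (coneE P) x (V i) := fun i => (isTangent_iff hP hxX).1 (hv i)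
  obtain ⟨hb, c, hc, hxc⟩ := χ.surj x hxX hq1
  obtain ⟨hyX, hyU, hyq⟩ := χ.σ_mem _ hb
  -- the value of the base point
  have hz : υ (χ.q x) = q.1 := by
    have h1 : uV Λ u x - uV Λ u (χ.σ (χ.q x)) ∈ Λ := by
      have h2 := hT.smul _ hyX c hc
      rwa [← hxc] at h2
    have h2 : q.1 - υ (χ.q x) ∈ Λ := by
      have h3 := Λ.add_mem (Λ.sub_mem h1 hxz) hq4
      have h4 : uV Λ u x - uV Λ u (χ.σ (χ.q x)) - (uV Λ u x - q.1) + (uV Λ u (χ.σ (χ.q x)) - υ (χ.q x)) = q.1 - υ (χ.q x) := by abel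
      rwa [h4] at h3
    have h3 : ‖q.1 - υ (χ.q x)‖ < δ := by
      calc ‖q.1 - υ (χ.q x)‖ = ‖(q.1 - υ p) - (υ (χ.q x) - υ p)‖ := by rw [sub_sub_sub_cancel_right]
        _ ≤ ‖q.1 - υ p‖ + ‖υ (χ.q x) - υ p‖ := norm_sub_le _ _
        _ < δ / 2 + δ / 2 := add_lt_add hq3 hq2
        _ = δ := by ring
    exact (sub_eq_zero.1 (hdisc _ h2 h3)).symm
  have h1 := Pool.Agent.TG.toFun_eq hX hT (vform hP hΩ) χ hxX hq1 hxz hz V hV
  have h2 : tc (vform hP hΩ) χ υ (χ.q x) = 0 := hq5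
  rw [h2, mul_zero] at h1
  exact h1

/-- the form on the cone -/
theorem exists_vform (hP : Homog P) (hT : TMap (coneE P) Λ (uV Λ u)) (hΛ : Lat Λ) {D : Set (Cn (k + 1))}
    (hform : HasForm (projVar P) Λ Γ u D) : ∃ α : VForm (coneE P) Λ (uV Λ u), Per α Γ ∧ Thin α ∧ ∃ a ∉ D, VanAt α a := by
  obtain ⟨Ω, hΩ, hnz, y, hy, hv⟩ := hform
  exact ⟨vform hP hΩ, vform_per hP hΩ, vform_thin hP hT hΩ hΛ hnz, y, hy, vform_van hP hΩ hv⟩

end Pool.Agent.TGF

end
end

section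

/-!
# G4 F Ln: the entire curves over lines, in the projective space

As `G3/F/Ln`.  `S' =` the set of the maps `y ↦` the point of the projective space with the projection matrix `Φ y` (by choice; `H19T`: `prP`, `prP_injective`), `Φ ∈ S`.  `Csf.hol`, `Csf.cls`; entire lifts of `f` (`H17.exists_global_lift`).
-/

set_option autoImplicit false

open Topology Filter Metric MvPolynomial

namespace Pool.Agent.G4

open Pool.Agent.H17 (PN VanishesAt HolomorphicInto puncturedDisc)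
open Pool.Agent.H62.FC (Homog)
open Pool.Agent.H17LG.Variety (FunField IsLogGeneralType)
open Pool.Agent.H17EF (projVar coneE LE mem_coneE mk_mem_projVar)
open Pool.Agent.H36.BP (EN fs wd Sub Curve)
open Pool.Agent.H14.PP (IsCone CurveAt Tan)
open Pool.Agent.H62.EF (MN pr)
open Pool.Agent.AD (Vd Chart Charts uV IsHolomorphicTorusMap)
open Pool.Agent.TG (TMap Lat Geo Gd VForm Fb)
open Pool.Agent.TGF (Cn Over IsDiscriminant)
open Pool.Agent.G3 (Cv)

variable {N k : ℕ} {P : Ideal (MvPolynomial (Fin (N + 1)) ℂ)} {Λ : AddSubgroup (Cn (k + 1))} {u : PN N → Cn (k + 1) ⧸ Λ} {D B : Set (Cn (k + 1))}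

open Classical in
/-- the map to the projective space -/
private noncomputable def toPN (Φ : Vd (k + 1) → MN N) (y : Cn (k + 1)) : PN N :=
  if h : ∃ x : PN N, Pool.Agent.H17EF.prP x = Φ y then h.choose
  else Projectivization.mk ℂ (Pi.single (0 : Fin (N + 1)) (1 : ℂ)) (by
    intro h0
    have h1 := congrFun h0 0
    rw [Pi.single_eq_same, Pi.zero_apply] at h1
    exact one_ne_zero h1)

private theorem toPN_eq {Φ : Vd (k + 1) → MN N} {y : Cn (k + 1)} {x : PN N} (h : Pool.Agent.H17EF.prP x = Φ y) : toPN Φ y = x := by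
  have h1 : ∃ x : PN N, Pool.Agent.H17EF.prP x = Φ y := ⟨x, h⟩
  unfold toPN
  rw [dif_pos h1]
  exact Pool.Agent.H17EF.prP_injective (h1.choose_spec.trans h.symm)

theorem lines_pn (hP : Homog P) {S : Set (Vd (k + 1) → MN N)} (hS : Csf (coneE P) Λ (uV Λ u) D S) :
    ∃ S : Set (Cn (k + 1) → PN N), S.Finite ∧ (∀ Φ ∈ S, ∀ y ∉ D, ∃ φ : Cn (k + 1) → Cn (N + 1), AnalyticAt ℂ φ y ∧
      ∀ᶠ z in 𝓝 y, Over (projVar P) Λ u z (φ z) ∧ ∃ h : φ z ≠ 0, Φ z = Projectivization.mk ℂ (φ z) h) ∧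
    ∀ f : ℂ → PN N, HolomorphicInto f Set.univ → (∀ z, f z ∈ projVar P) → ∀ a b : Cn (k + 1), a ≠ 0 →
      (∀ z, u (f z) = ((z • a + b : Cn (k + 1)) : Cn (k + 1) ⧸ Λ)) → ∃ Φ ∈ S, ∀ z : ℂ, z • a + b ∉ D → f z = Φ (z • a + b) := by
  refine ⟨toPN '' S, hS.fin.image _, ?_, ?_⟩
  · rintro _ ⟨Φ, hΦ, rfl⟩ y hy
    obtain ⟨φ, hφ, hφe⟩ := hS.hol Φ hΦ y hy
    refine ⟨fun z => (LE N).symm (φ z), AnalyticAt.comp (g := fun x : EN N => (LE N).symm x) (f := φ)
      (((LE N).symm : EN N →L[ℂ] (Fin (N + 1) → ℂ)).analyticAt _) hφ, ?_⟩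
    filter_upwards [hφe] with z hz
    obtain ⟨h1, h2, h3⟩ := hz
    refine ⟨(Pool.Agent.TGF.over_iff hP).2 ⟨h1, h3⟩, h1.1, ?_⟩
    exact toPN_eq ((Pool.Agent.H17EF.mk_symm h1.1).trans h2.symm)
  · intro f hf hfX a b ha hu
    obtain ⟨F, hF, hFf⟩ := Pool.Agent.H17EF.exists_lift hf
    have hFX : ∀ z, F z ∈ coneE P := by
      intro z
      obtain ⟨h, he⟩ := hFf z
      rw [mem_coneE hP]
      exact ⟨h, he ▸ hfX z⟩
    have hcv : Cv (coneE P) Λ (uV Λ u) Set.univ F (fun z => z • a + b) := by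
      refine ⟨hF.differentiableOn, by fun_prop, fun z _ => hFX z, fun z _ => ?_⟩
      obtain ⟨h, he⟩ := hFf z
      rw [Pool.Agent.AD.sub_mem_iff, Pool.Agent.AD.uV_eq Λ u h, ← he]
      exact hu z
    obtain ⟨Φ, hΦ, hΦe⟩ := hS.cls a ha b F hcv
    refine ⟨toPN Φ, ⟨Φ, hΦ, rfl⟩, fun z hz => ?_⟩
    obtain ⟨h, he⟩ := hFf z
    have h1 := hΦe z hz
    refine (toPN_eq ?_).symm
    rw [he, Pool.Agent.H17EF.mk_symm h, h1]

end Pool.Agent.G4

end

section

/-!
# G4 M ConM: the negatively curved metric on the cone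
-/

set_option autoImplicit false

open Topology Filter Metric MvPolynomial

namespace Pool.Agent.G4.M

open Pool.Agent.H17 (PN)
open Pool.Agent.H62.FC (Homog)
open Pool.Agent.H17EF (projVar coneE LE mem_coneE)
open Pool.Agent.H17G (IsTangent isTangent_iff)
open Pool.Agent.H36.BP (EN fs wd Sub)
open Pool.Agent.H14.PP (IsCone CurveAt Tan)
open Pool.Agent.AD (Vd uV)
open Pool.Agent.TGF (Cn Over over_iff)
open Pool.Agent.G3 (Cv pf)
open Pool.Agent.G4F (IsSubharmonic IsNegativeMetric HasMetric)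

variable {N k : ℕ}

/-- isolated zeros -/
theorem isol_of_local {U : Set ℂ} (hU : IsPreconnected U) {g : ℂ → ℝ} (h : ∀ z ∈ U, (∀ᶠ w in 𝓝 z, g w = 0) ∨ ∀ᶠ w in 𝓝[≠] z, 0 < g w)
    (h0 : ∃ z ∈ U, 0 < g z) : ∀ z ∈ U, ∀ᶠ w in 𝓝[≠] z, 0 < g w := by
  have hA : IsOpen {z : ℂ | ∀ᶠ w in 𝓝 z, g w = 0} := isOpen_setOfPred_eventually_nhds
  have hB : IsOpen {z : ℂ | ∀ᶠ w in 𝓝[≠] z, 0 < g w} := by
    rw [isOpen_iff_mem_nhds]
    intro z hz
    have hz' : ∀ᶠ w in 𝓝 z, w ≠ z → 0 < g w := eventually_nhdsWithin_iff.1 hz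
    filter_upwards [eventually_eventually_nhds.2 hz'] with w hw
    rcases eq_or_ne w z with rfl | hne
    · exact hz
    · show ∀ᶠ w' in 𝓝[≠] w, 0 < g w'
      refine (Filter.Eventually.filter_mono nhdsWithin_le_nhds ?_)
      filter_upwards [hw, isOpen_ne.mem_nhds hne] with w' h1 h2
      exact h1 h2
  intro z hz
  by_contra hcon
  obtain ⟨z₀, hz₀, h1⟩ := h0
  obtain ⟨w, -, hw1, hw2⟩ := hU _ _ hA hB (fun w hw => h w hw) ⟨z, hz, (h z hz).resolve_right hcon⟩ ⟨z₀, hz₀, (h z₀ hz₀).resolve_left fun h2 => h1.ne' h2.self_of_nhds⟩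
  obtain ⟨w', h3, h4⟩ := ((Filter.Eventually.filter_mono nhdsWithin_le_nhds hw1 : ∀ᶠ w' in 𝓝[≠] w, g w' = 0).and hw2).exists
  exact h4.ne' h3

/-- the metric on the cone -/
theorem fin_of {P : Ideal (MvPolynomial (Fin (N + 1)) ℂ)} (hP : Homog P) {Λ : AddSubgroup (Cn (k + 1))} {u : PN N → Cn (k + 1) ⧸ Λ} {D : Set (Cn (k + 1))}
    (hM : HasMetric (projVar P) Λ u D) : ∃ (m : ℕ) (C : ℝ) (p : EN N → EN N → ℝ), FinM (coneE P) Λ (uV Λ u) D p m C := by
  obtain ⟨m, C, p, hm, hC, h⟩ := hM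
  have hov : ∀ x ∈ coneE P, Over (projVar P) Λ u (uV Λ u x) ((LE N).symm x) := fun x hx => (over_iff hP).2 ⟨hx, by rw [sub_self]; exact Λ.zero_mem⟩
  have hder : ∀ {U : Set ℂ} {F : ℂ → EN N}, IsOpen U → DifferentiableOn ℂ F U → ∀ z ∈ U, deriv (fun w => (LE N).symm (F w)) z = (LE N).symm (deriv F z) := by
    intro U F hU hF z hz
    exact (((LE N).symm : EN N →L[ℂ] (Fin (N + 1) → ℂ)).hasFDerivAt.comp_hasDerivAt z (hF.differentiableAt (hU.mem_nhds hz)).hasDerivAt).deriv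
  have hsub : ∀ (U : Set ℂ) (F : ℂ → EN N) (η : ℂ → Vd (k + 1)), IsOpen U → Cv (coneE P) Λ (uV Λ u) U F η →
      IsSubharmonic U (fun w => p ((LE N).symm (F w)) (deriv (fun w => (LE N).symm (F w)) w)) fun w => C * ∑ i, ‖η w i‖ ^ 2 - Real.log (∑ i, ‖(LE N).symm (F w) i‖ ^ 2) / 2 := by
    intro U F η hU hF
    exact h.subharmonic U (fun w => (LE N).symm (F w)) η hU ((LE N).symm.differentiable.comp_differentiableOn hF.F_diff) hF.h_diff
      fun w hw => (over_iff hP).2 ⟨hF.mem w hw, hF.lift w hw⟩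
  refine ⟨m, C, fun x v => p ((LE N).symm x) ((LE N).symm v), hm, hC, fun x v => h.nonneg _ _, ?_, ?_, ?_, ?_, ?_⟩
  · intro x hx v hv a b c hc
    have h1 := h.homogeneous _ _ (hov x hx) _ ((isTangent_iff hP hx).2 hv) a b c hc
    rw [← h1]
    simp only [map_smul, map_add]
  · have h1 : ContinuousOn (fun q : EN N × EN N => ((LE N).symm q.1, (LE N).symm q.2)) {q | q.1 ∈ coneE P ∧ Tan (coneE P) q.1 q.2} :=
      (((LE N).symm.continuous.comp continuous_fst).prodMk ((LE N).symm.continuous.comp continuous_snd)).continuousOn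
    exact h.continuous.comp h1 fun q hq => ⟨⟨_, hov _ hq.1⟩, (isTangent_iff hP hq.1).2 hq.2⟩
  · intro y hy x hx hxy v hv h0
    obtain ⟨c, hc⟩ := h.positive y hy _ ((over_iff hP).2 ⟨hx, hxy⟩) _ ((isTangent_iff hP hx).2 hv) h0
    refine ⟨c, ?_⟩
    rw [← map_smul] at hc
    exact (LE N).symm.injective hc
  · intro U F η hU hF z r hr hz h0
    have hzU : z ∈ U := hz (mem_closedBall_self hr.le)
    have h1 := (hsub U F η hU hF).2 z r hr hz (by
      show 0 < p ((LE N).symm (F z)) (deriv (fun w => (LE N).symm (F w)) z)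
      rw [hder hU hF.F_diff z hzU]
      exact h0)
    have heq : ∀ w ∈ U, Real.log (p ((LE N).symm (F w)) (deriv (fun w => (LE N).symm (F w)) w)) + (C * ∑ i, ‖η w i‖ ^ 2 - Real.log (∑ i, ‖(LE N).symm (F w) i‖ ^ 2) / 2) =
        Real.log (pf (fun x v => p ((LE N).symm x) ((LE N).symm v)) F w) - Real.log ‖F w‖ + C * ∑ i, ‖η w i‖ ^ 2 := by
      intro w hw
      rw [hder hU hF.F_diff w hw]
      have h2 : Real.log ‖F w‖ = Real.log (∑ i, ‖(LE N).symm (F w) i‖ ^ 2) / 2 := by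
        rw [EuclideanSpace.norm_eq, Real.log_sqrt (Finset.sum_nonneg fun i _ => by positivity)]
        rfl
      rw [h2]
      show Real.log (p ((LE N).symm (F w)) ((LE N).symm (deriv F w))) + _ = Real.log (p ((LE N).symm (F w)) ((LE N).symm (deriv F w))) - _ + _
      ring
    have hsph : Set.EqOn (fun w => Real.log (p ((LE N).symm (F w)) (deriv (fun w => (LE N).symm (F w)) w)) + (C * ∑ i, ‖η w i‖ ^ 2 - Real.log (∑ i, ‖(LE N).symm (F w) i‖ ^ 2) / 2))
        (fun w => Real.log (pf (fun x v => p ((LE N).symm x) ((LE N).symm v)) F w) - Real.log ‖F w‖ + C * ∑ i, ‖η w i‖ ^ 2) (sphere z |r|) := by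
      intro w hw
      rw [abs_of_pos hr] at hw
      exact heq w (hz (sphere_subset_closedBall hw))
    rw [Real.circleAverage_congr_sphere hsph] at h1
    refine ⟨(circleIntegrable_congr hsph).1 h1.1, ?_⟩
    rw [← heq z hzU]
    exact h1.2
  · intro U F η hU hF hUc h0
    refine isol_of_local hUc ?_ h0
    intro z hz
    have hev : ∀ᶠ w in 𝓝 z, p ((LE N).symm (F w)) (deriv (fun w => (LE N).symm (F w)) w) = pf (fun x v => p ((LE N).symm x) ((LE N).symm v)) F w := by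
      filter_upwards [hU.mem_nhds hz] with w hw
      rw [hder hU hF.F_diff w hw]
      rfl
    refine ((hsub U F η hU hF).1 z hz).imp (fun h1 => ?_) fun h1 => ?_
    · filter_upwards [h1, hev] with w h2 h3
      rw [← h3]
      exact h2
    · filter_upwards [h1, nhdsWithin_le_nhds hev] with w h2 h3
      rw [← h3]
      exact h2

end Pool.Agent.G4.M

end
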