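import Pool.Agent.H94.G5T.M106
import Pool.Agent.H94.G5T.M108
import Pool.Agent.H94.G5T.M110
import Pool.Agent.H94.G5T.M111
import Pool.Agent.H94.G5T.M112
import Pool.Agent.H94.G5T.M94

/-! The parts of this file: H56.G3.Pc4, H56.G3.Pc6, TG.GuG, TG.GuL, TG.CLp. -/

section

/-!
# G3 Pc4: the derivative of the lift tends to `0` (supporting functions and the limit theorem)
-/

set_option autoImplicit false

open Topology Filter Metric MeasureTheory Real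

namespace Pool.Agent.H56.G3

open Pool.Agent.H36.BP (EN fs wd Sub)
open Pool.Agent.H14.PP (IsCone CurveAt Tan)
open Pool.Agent.AD (Vd)
open Pool.Agent.TG (TMap Lat Gd)
open Pool.Agent.G3 (Cv PS QD Ok Lam Lq Np pf TT)

variable {N k : ℕ} {X : Set (EN N)} {Λ : AddSubgroup (Vd (k + 1))} {u : EN N → Vd (k + 1)} {D : Set (Vd (k + 1))} {Q : EN N → ℂ} {d : ℕ}
  {p : EN N → EN N → ℝ} {m : ℕ} {C C₁ : ℝ}

theorem pf_add (F : ℂ → EN N) (a z : ℂ) : pf p (fun x => F (a + x)) z = pf p F (a + z) := by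
  unfold pf
  rw [deriv_comp_const_add]

theorem Lam_add (F : ℂ → EN N) (h : ℂ → Vd (k + 1)) (a z : ℂ) : Lam Q d p m (fun x => F (a + x)) (fun x => h (a + x)) z = Lam Q d p m F h (a + z) := by
  unfold Lam Np
  rw [pf_add, deriv_comp_const_add]

theorem Ok_add (F : ℂ → EN N) (a z : ℂ) : Ok Q p (fun x => F (a + x)) z ↔ Ok Q p F (a + z) := by
  unfold Ok
  rw [pf_add]

/-- good points far to the left -/
theorem exists_ok {F : ℂ → EN N} (hisol : ∀ z ∈ {w : ℂ | w.re < 0}, ∀ᶠ w in 𝓝[≠] z, Ok Q p F w) (M : ℝ) : ∃ w : ℂ, M ≤ -w.re ∧ w.re < 0 ∧ Ok Q p F w := by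
  have h1 : ((-(|M| + 2) : ℝ) : ℂ) ∈ {w : ℂ | w.re < 0} := by
    show ((-(|M| + 2) : ℝ) : ℂ).re < 0
    rw [Complex.ofReal_re]
    have := abs_nonneg M
    linarith
  have h2 := hisol _ h1
  have h3 : ∀ᶠ w in 𝓝[≠] ((-(|M| + 2) : ℝ) : ℂ), w ∈ ball ((-(|M| + 2) : ℝ) : ℂ) 1 := mem_nhdsWithin_of_mem_nhds (ball_mem_nhds _ one_pos)
  obtain ⟨w₀, h4, h5⟩ := (h2.and h3).exists
  rw [mem_ball_iff_norm] at h5
  have h6 : |(w₀ - ((-(|M| + 2) : ℝ) : ℂ)).re| ≤ ‖w₀ - ((-(|M| + 2) : ℝ) : ℂ)‖ := Complex.abs_re_le_norm _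
  rw [Complex.sub_re, Complex.ofReal_re] at h6
  have h7 := (abs_le.1 h6).2
  have h8 := le_abs_self M
  have h9 := abs_nonneg M
  exact ⟨w₀, by linarith, by linarith, h4⟩

theorem limit_zero (hX : IsCone X) (hps : PS X Λ u D p m C) (hqd : QD X Λ u D Q d) (hC₁ : 0 ≤ C₁) (hroot : RootLog X Λ u Q d p m C₁)
    (hlct : LCT X Λ u Q d p m) {F : ℂ → EN N} {h : ℂ → Vd (k + 1)} (hc : Cv X Λ u {w | w.re < 0} F h) (hok : ∃ w ∈ {w : ℂ | w.re < 0}, Ok Q p F w)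
    {T : ℝ} {G : ℂ → Vd (k + 1)} (hG : ContinuousAt G 0) (hhG : ∀ w : ℂ, w.re < T → deriv h w = G (Complex.exp w)) : G 0 = 0 := by
  by_contra ha
  have hU := isOpen_half 0
  have hisol := ok_isol hX hps hqd hU hc (convex_half 0).isPreconnected hok
  have ha0 : 0 < ‖G 0‖ := norm_pos_iff.2 ha
  -- the derivative is close to `G 0`
  have hnear : ∀ ε : ℝ, 0 < ε → ∃ M : ℝ, ∀ w : ℂ, M < -w.re → ‖deriv h w - G 0‖ ≤ ε := by
    intro ε hε
    obtain ⟨δ, hδ, hδ'⟩ := Metric.continuousAt_iff.1 hG ε hε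
    refine ⟨max (-T) (-Real.log δ), fun w hw => ?_⟩
    have h1 : -T < -w.re := (le_max_left _ _).trans_lt hw
    have h2 : -Real.log δ < -w.re := (le_max_right _ _).trans_lt hw
    rw [hhG w (by linarith)]
    have h3 : dist (Complex.exp w) 0 < δ := by
      rw [dist_zero_right, Complex.norm_exp, ← Real.lt_log_iff_exp_lt hδ]
      linarith
    rw [← dist_eq_norm]
    exact (hδ' h3).le
  obtain ⟨M₀, hM₀⟩ := hnear (‖G 0‖ / 2) (by positivity)
  obtain ⟨M₁, hM₁⟩ : ∃ M₁ : ℝ, M₁ = max M₀ 1 := ⟨_, rfl⟩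
  have hM₁1 : 1 ≤ M₁ := by rw [hM₁]; exact le_max_right _ _
  have hlow : ∀ w : ℂ, M₁ < -w.re → ‖G 0‖ / 2 ≤ ‖deriv h w‖ := by
    intro w hw
    have h1 := hM₀ w ((by rw [hM₁]; exact le_max_left _ _ : M₀ ≤ M₁).trans_lt hw)
    have h2 : ‖G 0‖ ≤ ‖deriv h w‖ + ‖deriv h w - G 0‖ := by
      calc ‖G 0‖ = ‖deriv h w - (deriv h w - G 0)‖ := by rw [sub_sub_cancel]
        _ ≤ ‖deriv h w‖ + ‖deriv h w - G 0‖ := norm_sub_le _ _
    linarith
  -- the lower bound of the functional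
  obtain ⟨S, hS⟩ : ∃ S : Set ℂ, S = {w | M₁ < -w.re ∧ Ok Q p F w} := ⟨_, rfl⟩
  have hS' : ∀ w, w ∈ S ↔ M₁ < -w.re ∧ Ok Q p F w := fun w => by rw [hS]; rfl
  have hSX : ∀ w ∈ S, 0 ≤ Lam Q d p m F h w := fun w hw => by
    have h1 := (hS' w).1 hw
    exact one_le_E hX hqd (hc.mem w (by show w.re < 0; linarith)) h1.2.1
  obtain ⟨c, hc0⟩ : ∃ c : ℝ, 0 < c ∧ ∀ w ∈ S, c * (-w.re) ^ 2 ≤ 1 + Lam Q d p m F h w := by
    refine ⟨‖G 0‖ ^ 2 / 4 / (C₁ + 1), by positivity, fun w hw => ?_⟩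
    have h1 := (hS' w).1 hw
    have ht0 : 0 < -w.re := by linarith
    have h2 := (hroot w (-w.re) F h ht0 (hc.mono (ball_sub_half le_rfl)) h1.2).1
    have h3 : (‖G 0‖ / 2) ^ 2 ≤ ‖deriv h w‖ ^ 2 := pow_le_pow_left₀ (by positivity) (hlow w h1.1) 2
    have h4 := hSX w hw
    rw [div_mul_eq_mul_div, div_le_iff₀ (by linarith)]
    have h5 : ‖G 0‖ ^ 2 / 4 * (-w.re) ^ 2 ≤ (-w.re) ^ 2 * ‖deriv h w‖ ^ 2 := by
      have h6 := mul_le_mul_of_nonneg_left h3 (sq_nonneg (-w.re))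
      calc ‖G 0‖ ^ 2 / 4 * (-w.re) ^ 2 = (-w.re) ^ 2 * (‖G 0‖ / 2) ^ 2 := by ring
        _ ≤ _ := h6
    nlinarith
  obtain ⟨hc0, hclow⟩ := hc0
  have hSne : ∀ M : ℝ, ∃ w ∈ S, M ≤ -w.re := by
    intro M
    obtain ⟨w, h1, -, h3⟩ := exists_ok hisol (max M (M₁ + 1))
    refine ⟨w, (hS' w).2 ⟨?_, h3⟩, (le_max_left _ _).trans h1⟩
    have := (le_max_right M (M₁ + 1)).trans h1
    linarith
  -- points of support
  have hsup : ∀ n : ℕ, ∃ w ∈ S, ∀ z ∈ S, Lam Q d p m F h w - n * -w.re ≤ Lam Q d p m F h z - n * -z.re + 1 / ((n : ℝ) + 1) := by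
    intro n
    obtain ⟨I, hI⟩ : ∃ I : Set ℝ, I = (fun w => Lam Q d p m F h w - n * -w.re) '' S := ⟨_, rfl⟩
    have hIne : I.Nonempty := by
      obtain ⟨w, hw, -⟩ := hSne 0
      rw [hI]
      exact ⟨_, w, hw, rfl⟩
    have hIb : BddBelow I := by
      refine ⟨-1 - n ^ 2 / (4 * c), ?_⟩
      rw [hI]
      rintro _ ⟨w, hw, rfl⟩
      have h1 := hclow w hw
      simp only
      have h2 : (n : ℝ) * -w.re ≤ c * (-w.re) ^ 2 + n ^ 2 / (4 * c) := by
        have h3 : 0 ≤ c * (-w.re - n / (2 * c)) ^ 2 := by positivity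
        have h4 : c * (-w.re - n / (2 * c)) ^ 2 = c * (-w.re) ^ 2 - n * -w.re + n ^ 2 / (4 * c) := by
          field_simp
          ring
        linarith
      linarith
    obtain ⟨x, hx, hx2⟩ := Real.lt_sInf_add_pos hIne (by positivity : (0 : ℝ) < 1 / ((n : ℝ) + 1))
    rw [hI] at hx
    obtain ⟨w, hw, rfl⟩ := hx
    refine ⟨w, hw, fun z hz => ?_⟩
    have h1 : sInf I ≤ Lam Q d p m F h z - n * -z.re := csInf_le hIb (by rw [hI]; exact ⟨z, hz, rfl⟩)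
    simp only at hx2
    linarith
  choose w hwS hw using hsup
  have hn1 : ∀ n : ℕ, 1 / ((n : ℝ) + 1) ≤ 1 := by
    intro n
    rw [div_le_one (by positivity)]
    have : (0 : ℝ) ≤ n := Nat.cast_nonneg n
    linarith
  have htend : Tendsto (fun n => -(w n).re) atTop atTop := by
    rw [Filter.tendsto_atTop]
    intro M
    obtain ⟨z, hz, hzM⟩ := hSne (M + 1)
    obtain ⟨n₀, hn₀⟩ := exists_nat_ge (Lam Q d p m F h z + 1)
    filter_upwards [eventually_ge_atTop (n₀ + 1)] with n hn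
    have h1 := hw n z hz
    have h2 := hSX _ (hwS n)
    have h3 := hn1 n
    have hnr : (n₀ : ℝ) + 1 ≤ n := by exact_mod_cast hn
    by_contra hcon
    push Not at hcon
    have h4 : (n : ℝ) * 1 ≤ n * (-z.re - -(w n).re) := mul_le_mul_of_nonneg_left (by linarith) (Nat.cast_nonneg n)
    have h5 : (n : ℝ) * (-z.re - -(w n).re) = n * -z.re - n * -(w n).re := by ring
    linarith
  -- the limit theorem
  refine hlct (G 0) (fun n x => F (w n + x)) (fun n x => h (w n + x)) (fun n x => Complex.exp (-(n : ℂ) * x)) ha ?_ ?_ ?_ ?_ ?_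
  · intro r
    filter_upwards [htend.eventually_ge_atTop r] with n hn
    refine hc.comp (φ := fun x => w n + x) (by fun_prop) ?_
    intro z hz
    apply ball_sub_half hn
    rw [mem_ball_zero_iff] at hz
    rw [mem_ball_iff_norm, add_sub_cancel_left]
    exact hz
  · intro n
    rw [Ok_add, add_zero]
    exact ((hS' _).1 (hwS n)).2
  · intro r ε hε
    obtain ⟨M, hM⟩ := hnear ε hε
    filter_upwards [htend.eventually_gt_atTop (M + r)] with n hn z hz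
    rw [deriv_comp_const_add]
    apply hM
    rw [mem_ball_zero_iff] at hz
    have h1 := (abs_le.1 ((Complex.abs_re_le_norm z).trans hz.le)).2
    rw [Complex.add_re]
    linarith
  · intro r
    filter_upwards with n
    refine ⟨by fun_prop, fun z _ => Complex.exp_ne_zero _, by simp⟩
  · intro r ε hε
    have h1 : ∀ᶠ n : ℕ in atTop, 1 / ((n : ℝ) + 1) < ε := (tendsto_one_div_add_atTop_nhds_zero_nat (𝕜 := ℝ)).eventually (gt_mem_nhds hε)
    filter_upwards [htend.eventually_gt_atTop (M₁ + r), h1] with n hn hn2 z hz hokz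
    rw [Ok_add] at hokz
    rw [Lam_add, Lam_add, add_zero]
    rw [mem_ball_zero_iff] at hz
    have h2 := (abs_le.1 ((Complex.abs_re_le_norm z).trans hz.le)).2
    have h3 := hw n (w n + z) ((hS' _).2 ⟨by rw [Complex.add_re]; linarith, hokz⟩)
    rw [Complex.norm_exp, Real.log_exp]
    have h4 : (-(n : ℂ) * z).re = -(n * z.re) := by simp
    rw [h4]
    rw [Complex.add_re] at h3
    have h5 : (n : ℝ) * -((w n).re + z.re) = n * -(w n).re - n * z.re := by ring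
    linarith

end Pool.Agent.H56.G3

end

section

/-!
# G3 Pc6: lifts of maps of the half plane to the torus
-/

set_option autoImplicit false

open Topology Filter Metric

namespace Pool.Agent.H56.G3

open Pool.Agent.H36.BP (EN fs wd)
open Pool.Agent.H14.PP (IsCone CurveAt Tan)
open Pool.Agent.H22.W (tan_curve)
open Pool.Agent.AD (Vd Charts TorusMapV DiscreteSub deriv_comp_lift eventually_const_of_mem)

/-- primitives on the half plane -/
theorem half_primitive {E : Type*} [NormedAddCommGroup E] [NormedSpace ℂ E] [CompleteSpace E] {ψ : ℂ → E} (hψ : DifferentiableOn ℂ ψ {w | w.re < 0}) :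
    ∃ g : ℂ → E, ∀ z ∈ {w : ℂ | w.re < 0}, HasDerivAt g (ψ z) z := by
  -- the map `ζ ↦ (ζ + 1) / (ζ - 1)` of the disc onto the half plane is an involution
  obtain ⟨c, hc⟩ : ∃ c : ℂ → ℂ, c = fun ζ => (ζ + 1) / (ζ - 1) := ⟨_, rfl⟩
  have hcd : ∀ ζ : ℂ, ζ ≠ 1 → HasDerivAt c (-2 / (ζ - 1) ^ 2) ζ := by
    intro ζ hζ
    have h1 : ζ - 1 ≠ 0 := sub_ne_zero.2 hζ
    have h2 := ((hasDerivAt_id ζ).add_const (1 : ℂ)).div ((hasDerivAt_id ζ).sub_const (1 : ℂ)) h1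
    rw [hc]
    convert! h2 using 1
    simp only [id]
    congr 1
    ring
  have hcc : ∀ z : ℂ, z ≠ 1 → c (c z) = z := by
    intro z hz
    have h1 : z - 1 ≠ 0 := sub_ne_zero.2 hz
    have h2 : (z + 1) / (z - 1) - 1 = 2 / (z - 1) := by
      field_simp
      ring
    rw [hc]
    simp only
    rw [h2]
    field_simp
    ring
  have hne : ∀ z ∈ {w : ℂ | w.re < 0}, z ≠ 1 := by
    rintro z hz rfl
    have : (1 : ℂ).re < 0 := hz
    rw [Complex.one_re] at this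
    linarith
  have hcne : ∀ z : ℂ, z ≠ 1 → c z ≠ 1 := by
    intro z hz h
    have h1 : z - 1 ≠ 0 := sub_ne_zero.2 hz
    rw [hc] at h
    simp only at h
    rw [div_eq_one_iff_eq h1] at h
    have h2 : (2 : ℂ) = 0 := by linear_combination h
    exact two_ne_zero h2
  have hball : ∀ z ∈ {w : ℂ | w.re < 0}, c z ∈ ball (0 : ℂ) 1 := by
    intro z hz
    have hz' : z.re < 0 := hz
    have h1 : z - 1 ≠ 0 := sub_ne_zero.2 (hne z hz)
    rw [mem_ball_zero_iff, hc]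
    simp only
    rw [norm_div, div_lt_one (norm_pos_iff.2 h1)]
    have h2 : ‖z + 1‖ ^ 2 < ‖z - 1‖ ^ 2 := by
      rw [← Complex.normSq_eq_norm_sq, ← Complex.normSq_eq_norm_sq, Complex.normSq_apply, Complex.normSq_apply]
      simp only [Complex.add_re, Complex.one_re, Complex.add_im, Complex.one_im, Complex.sub_re, Complex.sub_im]
      nlinarith
    exact lt_of_pow_lt_pow_left₀ 2 (norm_nonneg _) h2
  have hhalf : ∀ ζ ∈ ball (0 : ℂ) 1, ζ ≠ 1 ∧ (c ζ).re < 0 := by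
    intro ζ hζ
    rw [mem_ball_zero_iff] at hζ
    have hζ1 : ζ ≠ 1 := by
      rintro rfl
      rw [norm_one] at hζ
      exact lt_irrefl _ hζ
    have h1 : ζ - 1 ≠ 0 := sub_ne_zero.2 hζ1
    refine ⟨hζ1, ?_⟩
    rw [hc]
    simp only
    rw [Complex.div_re]
    have h3 : 0 < Complex.normSq (ζ - 1) := Complex.normSq_pos.2 h1
    have h4 : ‖ζ‖ ^ 2 < 1 := by
      have := norm_nonneg ζ
      nlinarith
    rw [← Complex.normSq_eq_norm_sq, Complex.normSq_apply] at h4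
    simp only [Complex.add_re, Complex.one_re, Complex.add_im, Complex.one_im, Complex.sub_re, Complex.sub_im, add_zero, sub_zero]
    rw [← add_div]
    apply div_neg_of_neg_of_pos _ h3
    nlinarith
  have hψc : DifferentiableOn ℂ (fun ζ => (-2 / (ζ - 1) ^ 2) • ψ (c ζ)) (ball 0 1) := by
    intro ζ hζ
    obtain ⟨h1, h2⟩ := hhalf ζ hζ
    have h3 : ζ - 1 ≠ 0 := sub_ne_zero.2 h1
    have h4 : DifferentiableAt ℂ ψ (c ζ) := hψ.differentiableAt ((isOpen_half 0).mem_nhds h2)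
    have h5 : DifferentiableAt ℂ (fun ζ => ψ (c ζ)) ζ := h4.comp ζ (hcd ζ h1).differentiableAt
    have h6 : DifferentiableAt ℂ (fun ζ : ℂ => -2 / (ζ - 1) ^ 2) ζ := by
      refine DifferentiableAt.div (by fun_prop) (by fun_prop) (pow_ne_zero 2 h3)
    exact (h6.smul h5).differentiableWithinAt
  obtain ⟨g, hg⟩ := hψc.isExactOn_ball
  refine ⟨fun z => g (c z), fun z hz => ?_⟩
  have h1 := hne z hz
  have h2 := hg (c z) (hball z hz)
  simp only [hcc z h1] at h2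
  have h3 := h2.scomp z (hcd z h1)
  convert! h3 using 1
  rw [smul_smul]
  have h4 : z - 1 ≠ 0 := sub_ne_zero.2 h1
  have h5 : c z - 1 = 2 / (z - 1) := by
    rw [hc]
    field_simp
    ring
  have h6 : -2 / (z - 1) ^ 2 * (-2 / (c z - 1) ^ 2) = 1 := by
    rw [h5]
    field_simp
  rw [h6, one_smul]

variable {N n : ℕ} {X : Set (EN N)} {Λ : AddSubgroup (Vd n)} {u : EN N → Vd n}

/-- the composition of a curve and the map to the torus lifts to `ℂ^n` -/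
theorem lift_conn (hX : IsCone X) (hu : TorusMapV X Λ u) (hΛ : DiscreteSub Λ) {U : Set ℂ} (hU : IsOpen U) (hpre : IsPreconnected U)
    (hprim : ∀ ψ : ℂ → Vd n, DifferentiableOn ℂ ψ U → ∃ g : ℂ → Vd n, ∀ z ∈ U, HasDerivAt g (ψ z) z)
    {F : ℂ → EN N} (hF : DifferentiableOn ℂ F U) (hFX : ∀ z ∈ U, F z ∈ X) {ζ₀ : ℂ} (hζ₀ : ζ₀ ∈ U) :
    ∃ φ : ℂ → Vd n, DifferentiableOn ℂ φ U ∧ ∀ z ∈ U, u (F z) - φ z ∈ Λ := by
  have hcv : ∀ z ∈ U, CurveAt X F z := by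
    intro z hz
    refine ⟨hF.analyticAt (hU.mem_nhds hz), ?_⟩
    filter_upwards [hU.mem_nhds hz] with w hw
    exact hFX w hw
  obtain ⟨ψ, hψ⟩ : ∃ ψ : ℂ → Vd n, ψ = fun z => hu.du (F z) (deriv F z) := ⟨_, rfl⟩
  have hψd : DifferentiableOn ℂ ψ U := by
    rw [differentiableOn_pi]
    intro j z hz
    have h1 := ((hu.symDiff hΛ hX j).curve_an (F := F) (z₀ := z) (hcv z hz)).differentiableAt
    rw [hψ]
    exact h1.differentiableWithinAt
  obtain ⟨g, hg⟩ := hprim ψ hψd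
  obtain ⟨φ, hφ⟩ : ∃ φ : ℂ → Vd n, φ = fun z => u (F ζ₀) + (g z - g ζ₀) := ⟨_, rfl⟩
  have hφd : ∀ z ∈ U, HasDerivAt φ (ψ z) z := by
    intro z hz
    rw [hφ]
    exact ((hg z hz).sub_const (g ζ₀)).const_add (u (F ζ₀))
  refine ⟨φ, fun z hz => (hφd z hz).differentiableAt.differentiableWithinAt, ?_⟩
  obtain ⟨c, hc⟩ : ∃ c : ℂ → Vd n ⧸ Λ, c = fun z => (QuotientAddGroup.mk (u (F z) - φ z) : Vd n ⧸ Λ) := ⟨_, rfl⟩
  have hlc : ∀ z₀ ∈ U, ∀ᶠ z in 𝓝 z₀, c z = c z₀ := by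
    intro z₀ hz₀
    have hx := hFX z₀ hz₀
    have hl := hu.lift_an hx
    have hcont : Tendsto F (𝓝 z₀) (𝓝 (F z₀)) := (hcv z₀ hz₀).1.continuousAt.tendsto
    obtain ⟨h, hh⟩ : ∃ h : ℂ → Vd n, h = fun z => hu.lift (F z₀) (F z) - φ z := ⟨_, rfl⟩
    have hder : ∀ᶠ z in 𝓝 z₀, deriv h z = 0 ∧ DifferentiableAt ℂ h z := by
      filter_upwards [hcont.eventually hl.eventually_analyticAt, hcont.eventually (hu.lift_mem hx).eventually_nhds, hU.mem_nhds hz₀] with z h1 h2 hzU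
      have h3 : AnalyticAt ℂ (fun z => hu.lift (F z₀) (F z)) z :=
        AnalyticAt.comp (g := hu.lift (F z₀)) (f := F) h1 (hcv z hzU).1
      have h5 : HasDerivAt h (deriv (fun z => hu.lift (F z₀) (F z)) z - ψ z) z := by
        rw [hh]
        exact h3.differentiableAt.hasDerivAt.sub (hφd z hzU)
      refine ⟨?_, h5.differentiableAt⟩
      rw [h5.deriv, deriv_comp_lift (hcv z hzU).1 h1, ← hu.du_eq hΛ (tan_curve (hcv z hzU)) h1 h2, hψ, sub_self]
    obtain ⟨r, hr, hball⟩ := Metric.eventually_nhds_iff_ball.1 hder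
    have hconst : ∀ z ∈ ball z₀ r, h z = h z₀ := by
      intro z hz
      exact (convex_ball z₀ r).is_const_of_fderivWithin_eq_zero (𝕜 := ℂ) (fun y hy => (hball y hy).2.differentiableWithinAt)
        (fun y hy => by
          rw [fderivWithin_of_isOpen isOpen_ball hy]
          ext1
          exact (hball y hy).1) hz (mem_ball_self hr)
    filter_upwards [hcont.eventually (hu.lift_mem hx), isOpen_ball.mem_nhds (mem_ball_self hr), hU.mem_nhds hz₀] with z h1 h2 hzU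
    have h3 := h1 (hFX z hzU)
    have h4 := (hu.lift_mem hx).self_of_nhds hx
    have h5 := hconst z h2
    rw [hh] at h5
    simp only at h5
    rw [hc]
    simp only
    rw [QuotientAddGroup.eq]
    have h6 := Λ.sub_mem h4 h3
    have h7 : -(u (F z) - φ z) + (u (F z₀) - φ z₀) = (u (F z₀) - hu.lift (F z₀) (F z₀)) - (u (F z) - hu.lift (F z₀) (F z)) +
        ((hu.lift (F z₀) (F z₀) - φ z₀) - (hu.lift (F z₀) (F z) - φ z)) := by abel
    rw [h7, h5, sub_self, add_zero]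
    exact h6
  obtain ⟨A, hA⟩ : ∃ A : Set ℂ, A = {z | z ∈ U ∧ c z = c ζ₀} := ⟨_, rfl⟩
  have hAo : IsOpen A := by
    rw [hA, isOpen_iff_mem_nhds]
    rintro z ⟨hz, hz2⟩
    filter_upwards [hlc z hz, hU.mem_nhds hz] with w hw hwU
    exact ⟨hwU, hw.trans hz2⟩
  have hAcl : closure A ∩ U ⊆ A := by
    rintro z ⟨hz1, hz2⟩
    have h1 : ∃ᶠ w in 𝓝 z, w ∈ A := mem_closure_iff_frequently.1 hz1
    obtain ⟨w, hw1, hw2⟩ := (h1.and_eventually (hlc z hz2)).exists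
    rw [hA] at hw1 ⊢
    exact ⟨hz2, hw2.symm.trans hw1.2⟩
  have hsub : U ⊆ A := hpre.subset_of_closure_inter_subset hAo ⟨ζ₀, hζ₀, by rw [hA]; exact ⟨hζ₀, rfl⟩⟩ hAcl
  intro z hz
  have h1 := hsub hz
  rw [hA, hc] at h1
  have h3 := h1.2
  simp only at h3
  rw [eq_comm, QuotientAddGroup.eq] at h3
  have h2 : u (F ζ₀) - φ ζ₀ = 0 := by
    rw [hφ]
    simp
  rwa [h2, neg_zero, zero_add] at h3

end Pool.Agent.H56.G3

end

section

/-!
# TG GuG: germ-level charts from local parametrisations, the fields `sub` and `nc` of `Geo`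

`exists_germ`: let `σ` be a local parametrisation of the smooth variety `X` at a point, `S = LE ∘ σ`, `x = S 0`.  Let `σ₀, τ₀` be the chart of the cone at `x` with the ratios of the
coordinates as parameters (`exists_ratioGerm`), `φ = τ₀ ∘ S`.  For `p` near `0`: `S p = c(p) σ₀ (φ p)`, so `φ' (0) v = 0` implies `S' (0) v ∈ ℂ x`, `v = 0`.  Let `ψ` be the local inverse
of `φ`; `τ = ψ ∘ τ₀`.
-/

set_option autoImplicit false

open Topology Filter MvPolynomial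
open Pool.Agent.H17 (PN VanishesAt)
open Pool.Agent.H62.FC (Homog)
open Pool.Agent.H17LG.Variety (FunField)
open Pool.Agent.H17EF (projVar coneE LE mem_coneE)
open Pool.Agent.H36.BP (EN)
open Pool.Agent.H13.SM (conTan)
open Pool.Agent.AD (uV uV_eq sub_mem_iff IsGerm exists_ratioGerm)

noncomputable section

namespace Pool.Agent.TGF

variable {N k : ℕ} {P : Ideal (MvPolynomial (Fin (N + 1)) ℂ)}

/-- The inversion of the coordinates. -/
theorem exists_germ [P.IsPrime] (hP : Homog P) (hdim : ∃ z : Fin (k + 2) → FunField P, IsTranscendenceBasis ℂ z)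
    (hsmooth : Pool.Agent.AD.NC.IsSmooth P (k + 2)) {x₀ : PN N} {σ : Cn (k + 2) → Cn (N + 1)} (h : IsParam (projVar P) x₀ σ) :
    ∃ τ : EN N → Cn (k + 2), IsGerm (coneE P) (fun p => LE N (σ p)) τ := by
  obtain ⟨z, hz⟩ := hdim
  obtain ⟨hσ0, -⟩ := h.point
  set S : Cn (k + 2) → EN N := fun p => LE N (σ p) with hS
  have hSan : AnalyticAt ℂ S 0 := (((LE N) : (Fin (N + 1) → ℂ) →L[ℂ] EN N).analyticAt _).fun_comp h.holomorphic
  have hsym : ∀ p, (LE N).symm (S p) = σ p := fun p => (LE N).symm_apply_apply (σ p)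
  have hSmem : ∀ᶠ p in 𝓝 (0 : Cn (k + 2)), S p ∈ coneE P := by
    filter_upwards [h.mem] with p hp
    rw [mem_coneE hP, hsym p]
    exact hp
  have hS0 : S 0 ∈ coneE P := hSmem.self_of_nhds
  obtain ⟨l, hl⟩ : ∃ l, (LE N).symm (S 0) l ≠ 0 := by
    rw [hsym]
    exact Function.ne_iff.1 hσ0
  obtain ⟨I, σ₀, hg, hg0⟩ := exists_ratioGerm hP hz hsmooth hS0 hl
  set τ₀ : EN N → Cn (k + 2) := fun y j => (LE N).symm y (I j) / (LE N).symm y l - (LE N).symm (S 0) (I j) / (LE N).symm (S 0) l with hτ₀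
  have hτ₀an : AnalyticAt ℂ τ₀ (S 0) := by
    have h1 := hg.τ_an
    rwa [hg0] at h1
  have hτ₀0 : τ₀ (S 0) = 0 := by
    funext j
    show (LE N).symm (S 0) (I j) / (LE N).symm (S 0) l - (LE N).symm (S 0) (I j) / (LE N).symm (S 0) l = 0
    exact sub_self _
  have hright : ∀ᶠ y in 𝓝 (S 0), y ∈ coneE P → ∃ c : ℂ, c ≠ 0 ∧ y = c • σ₀ (τ₀ y) := by
    have h1 := hg.right
    rwa [hg0] at h1
  set φ : Cn (k + 2) → Cn (k + 2) := fun p => τ₀ (S p) with hφ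
  have hφan : AnalyticAt ℂ φ 0 := AnalyticAt.fun_comp (g := τ₀) (f := S) hτ₀an hSan
  have hφ0 : φ 0 = 0 := hτ₀0
  -- the linear form
  let ℓ : EN N →L[ℂ] ℂ := (ContinuousLinearMap.proj (R := ℂ) (φ := fun _ : Fin (N + 1) => ℂ) l).comp ((LE N).symm : EN N →L[ℂ] (Fin (N + 1) → ℂ))
  have hℓ : ℓ (S 0) ≠ 0 := hl
  have hinj : ∀ v, fderiv ℂ φ 0 v = 0 → v = 0 := by
    intro v hv
    have hline : HasDerivAt (fun t : ℂ => t • v) v 0 := by
      have h1 := (hasDerivAt_id (0 : ℂ)).smul_const v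
      rwa [one_smul] at h1
    have hS' : HasDerivAt (fun t : ℂ => S (t • v)) (fderiv ℂ S 0 v) 0 := by
      have h1 : HasFDerivAt S (fderiv ℂ S 0) ((0 : ℂ) • v) := by
        rw [zero_smul]
        exact hSan.differentiableAt.hasFDerivAt
      exact h1.comp_hasDerivAt (0 : ℂ) hline
    have hφ' : HasDerivAt (fun t : ℂ => φ (t • v)) 0 0 := by
      have h1 : HasFDerivAt φ (fderiv ℂ φ 0) ((0 : ℂ) • v) := by
        rw [zero_smul]
        exact hφan.differentiableAt.hasFDerivAt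
      have h2 := h1.comp_hasDerivAt (0 : ℂ) hline
      rwa [hv] at h2
    have hσ' : HasDerivAt (fun t : ℂ => σ₀ (φ (t • v))) 0 0 := by
      have h1 : HasFDerivAt σ₀ (fderiv ℂ σ₀ 0) (φ ((0 : ℂ) • v)) := by
        rw [zero_smul, hφ0]
        exact hg.σ_an.differentiableAt.hasFDerivAt
      have h2 := h1.comp_hasDerivAt (0 : ℂ) hφ'
      rwa [map_zero] at h2
    have hval : σ₀ (φ ((0 : ℂ) • v)) = S 0 := by rw [zero_smul, hφ0, hg0]
    have hne : ℓ (σ₀ (φ ((0 : ℂ) • v))) ≠ 0 := by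
      rw [hval]
      exact hℓ
    have hc1 : HasDerivAt (fun t : ℂ => ℓ (S (t • v))) (ℓ (fderiv ℂ S 0 v)) 0 := ℓ.hasFDerivAt.comp_hasDerivAt (0 : ℂ) hS'
    have hc2 : HasDerivAt (fun t : ℂ => ℓ (σ₀ (φ (t • v)))) (ℓ 0) 0 := ℓ.hasFDerivAt.comp_hasDerivAt (0 : ℂ) hσ'
    obtain ⟨c', hc'⟩ : ∃ c' : ℂ, HasDerivAt (fun t : ℂ => ℓ (S (t • v)) / ℓ (σ₀ (φ (t • v)))) c' 0 := ⟨_, hc1.div hc2 hne⟩
    have hprod : HasDerivAt (fun t : ℂ => (ℓ (S (t • v)) / ℓ (σ₀ (φ (t • v)))) • σ₀ (φ (t • v)))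
        ((ℓ (S ((0 : ℂ) • v)) / ℓ (σ₀ (φ ((0 : ℂ) • v)))) • (0 : EN N) + c' • σ₀ (φ ((0 : ℂ) • v))) 0 := hc'.smul hσ'
    have hev : ∀ᶠ t : ℂ in 𝓝 0, S (t • v) = (ℓ (S (t • v)) / ℓ (σ₀ (φ (t • v)))) • σ₀ (φ (t • v)) := by
      have ht : Tendsto (fun t : ℂ => t • v) (𝓝 0) (𝓝 (0 : Cn (k + 2))) := by
        have h1 := hline.continuousAt.tendsto
        rwa [zero_smul] at h1
      have hSt : Tendsto (fun t : ℂ => S (t • v)) (𝓝 0) (𝓝 (S 0)) := hSan.continuousAt.tendsto.comp ht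
      have hne' : ∀ᶠ t : ℂ in 𝓝 0, ℓ (σ₀ (φ (t • v))) ≠ 0 := hc2.continuousAt.eventually_ne hne
      filter_upwards [ht.eventually hSmem, hSt.eventually hright, hne'] with t h1 h2 h3
      obtain ⟨c, hc0, hc⟩ := h2 h1
      have h4 : ℓ (S (t • v)) / ℓ (σ₀ (φ (t • v))) = c := by
        rw [div_eq_iff h3]
        conv_lhs => rw [hc]
        rw [map_smul, smul_eq_mul]
      rw [h4]
      exact hc
    have hS'' : HasDerivAt (fun t : ℂ => (ℓ (S (t • v)) / ℓ (σ₀ (φ (t • v)))) • σ₀ (φ (t • v))) (fderiv ℂ S 0 v) 0 :=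
      hS'.congr_of_eventuallyEq (hev.mono fun t ht => ht.symm)
    have ha : fderiv ℂ S 0 v = c' • S 0 := by
      have h1 := hS''.unique hprod
      rw [smul_zero, zero_add, hval] at h1
      exact h1
    have hSσ : fderiv ℂ S 0 v = LE N (fderiv ℂ σ 0 v) := by
      have h1 : HasFDerivAt S (((LE N) : (Fin (N + 1) → ℂ) →L[ℂ] EN N).comp (fderiv ℂ σ 0)) 0 :=
        ((LE N) : (Fin (N + 1) → ℂ) →L[ℂ] EN N).hasFDerivAt.comp 0 h.holomorphic.differentiableAt.hasFDerivAt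
      rw [h1.fderiv]
      rfl
    refine h.immersion v c' ?_
    have h2 : LE N (fderiv ℂ σ 0 v) = LE N (c' • σ 0) := by
      rw [← hSσ, ha, map_smul]
    exact (LE N).injective h2
  obtain ⟨ψ, hψan, hψl, hψr, hψ0⟩ := Pool.Agent.H62.BU.local_inverse hφan hinj
  rw [hφ0] at hψan hψr hψ0
  refine ⟨fun y => ψ (τ₀ y), hSan, hSmem, ?_, hψl, ?_, ?_⟩
  · show AnalyticAt ℂ (fun y => ψ (τ₀ y)) (S 0)
    refine AnalyticAt.fun_comp (g := ψ) (f := τ₀) ?_ hτ₀an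
    rw [hτ₀0]
    exact hψan
  · show ∀ᶠ y in 𝓝 (S 0), y ∈ coneE P → ∃ c : ℂ, c ≠ 0 ∧ y = c • S (ψ (τ₀ y))
    have ht1 : Tendsto τ₀ (𝓝 (S 0)) (𝓝 0) := by
      have h1 := hτ₀an.continuousAt.tendsto
      rwa [hτ₀0] at h1
    have ht2 : Tendsto (fun y => ψ (τ₀ y)) (𝓝 (S 0)) (𝓝 0) := by
      have h1 := hψan.continuousAt.tendsto.comp ht1
      rwa [hψ0] at h1
    have ht3 : Tendsto (fun y => S (ψ (τ₀ y))) (𝓝 (S 0)) (𝓝 (S 0)) := hSan.continuousAt.tendsto.comp ht2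
    filter_upwards [hright, ht1.eventually hψr, ht2.eventually hSmem, ht3.eventually hright] with y h1 h2 h3 h4 hy
    obtain ⟨c₁, hc₁, hy₁⟩ := h1 hy
    obtain ⟨c₂, hc₂, hy₂⟩ := h4 h3
    have h5 : τ₀ (S (ψ (τ₀ y))) = τ₀ y := h2
    rw [h5] at hy₂
    refine ⟨c₁ / c₂, div_ne_zero hc₁ hc₂, ?_⟩
    rw [hy₂, smul_smul, div_mul_cancel₀ _ hc₂]
    exact hy₁
  · have h1 : ∀ᶠ w : EN N × ℂ in 𝓝 (S 0, (1 : ℂ)), τ₀ (w.2 • w.1) = τ₀ w.1 := by
      have h2 := hg.inv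
      rw [hg0] at h2
      exact h2
    exact h1.mono fun w hw => congrArg ψ hw

/-- rescaling of the homogeneous coordinates -/
theorem IsParam.const_smul {X : Set (PN N)} {x : PN N} {σ : Cn (k + 2) → Cn (N + 1)} (h : IsParam X x σ) {c : ℂ} (hc : c ≠ 0) :
    IsParam X x (fun p => c • σ p) := by
  have hmk : ∀ {w : Cn (N + 1)} (hw : w ≠ 0), Projectivization.mk ℂ (c • w) (smul_ne_zero hc hw) = Projectivization.mk ℂ w hw := by
    intro w hw
    rw [Projectivization.mk_eq_mk_iff']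
    exact ⟨c, rfl⟩
  have hd : ∀ v, fderiv ℂ (fun p => c • σ p) 0 v = c • fderiv ℂ σ 0 v := by
    intro v
    have h1 : HasFDerivAt (fun p => c • σ p) (c • fderiv ℂ σ 0) 0 := h.holomorphic.differentiableAt.hasFDerivAt.const_smul c
    rw [h1.fderiv]
    rfl
  refine ⟨?_, ?_, ?_, ?_⟩
  · exact (analyticAt_const (v := c)).fun_smul h.holomorphic
  · obtain ⟨h0, h1⟩ := h.point
    exact ⟨smul_ne_zero hc h0, by rw [hmk h0]; exact h1⟩
  · filter_upwards [h.mem] with p hp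
    obtain ⟨h0, h1⟩ := hp
    exact ⟨smul_ne_zero hc h0, by rw [hmk h0]; exact h1⟩
  · intro v a hv
    rw [hd] at hv
    refine h.immersion v a ?_
    have h1 : c • fderiv ℂ σ 0 v = c • (a • σ 0) := by
      rw [hv, smul_comm]
    exact smul_right_injective _ hc h1

theorem over_const_smul {X : Set (PN N)} {Λ : AddSubgroup (Cn (k + 1))} {u : PN N → Cn (k + 1) ⧸ Λ} {y : Cn (k + 1)} {x : Cn (N + 1)}
    (h : Over X Λ u y x) {c : ℂ} (hc : c ≠ 0) : Over X Λ u y (c • x) := by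
  obtain ⟨h0, h1, h2⟩ := h
  have hmk : Projectivization.mk ℂ (c • x) (smul_ne_zero hc h0) = Projectivization.mk ℂ x h0 := by
    rw [Projectivization.mk_eq_mk_iff']
    exact ⟨c, rfl⟩
  exact ⟨smul_ne_zero hc h0, by rw [hmk]; exact h1, by rw [hmk]; exact h2⟩

/-- a point of the cone with `uV` over `y` -/
theorem gug_over {X : Set (PN N)} {Λ : AddSubgroup (Cn (k + 1))} {u : PN N → Cn (k + 1) ⧸ Λ} {y : Cn (k + 1)} {w : Cn (N + 1)}
    (h : Over X Λ u y w) : uV Λ u (LE N w) - y ∈ Λ := by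
  obtain ⟨h0, h1, h2⟩ := h
  have h3 : (LE N).symm (LE N w) ≠ 0 := by
    rw [ContinuousLinearEquiv.symm_apply_apply]
    exact h0
  rw [sub_mem_iff, uV_eq Λ u h3, ← h2]
  congr 1

/-- a parametrisation at the point `[x]`, `x` in the cone, can be rescaled such that its value at `0` is `x` -/
theorem exists_scale {x : EN N} (hx : (LE N).symm x ≠ 0) {σ : Cn (k + 2) → Cn (N + 1)}
    (h : ∃ h : σ 0 ≠ 0, Projectivization.mk ℂ (σ 0) h = Projectivization.mk ℂ ((LE N).symm x) hx) :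
    ∃ c : ℂ, c ≠ 0 ∧ LE N (c • σ 0) = x := by
  obtain ⟨h0, h1⟩ := h
  rw [Projectivization.mk_eq_mk_iff'] at h1
  obtain ⟨a, ha⟩ := h1
  have ha0 : a ≠ 0 := by
    rintro rfl
    rw [zero_smul] at ha
    exact h0 ha.symm
  refine ⟨a⁻¹, inv_ne_zero ha0, ?_⟩
  rw [← ha, smul_smul, inv_mul_cancel₀ ha0, one_smul, ContinuousLinearEquiv.apply_symm_apply]

/-- the field `sub` of `Geo` -/
theorem geo_sub [P.IsPrime] (hP : Homog P) (hdim : ∃ z : Fin (k + 2) → FunField P, IsTranscendenceBasis ℂ z)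
    (hsmooth : Pool.Agent.AD.NC.IsSmooth P (k + 2)) {Λ : AddSubgroup (Cn (k + 1))} {u : PN N → Cn (k + 1) ⧸ Λ} {D B : Set (Cn (k + 1))}
    (hD : IsDiscriminant (projVar P) Λ u D B) :
    ∀ y ∉ D, ∀ x ∈ coneE P, uV Λ u x - y ∈ Λ → Pool.Agent.TG.IsStr (coneE P) Λ (uV Λ u) x y := by
  intro y hy x hx hxy
  obtain ⟨h0, h1⟩ := (mem_coneE hP).1 hx
  rw [sub_mem_iff, uV_eq Λ u h0] at hxy
  obtain ⟨σ, hσ, hov⟩ := hD.submersion y hy _ h1 hxy
  obtain ⟨c, hc, hcx⟩ := exists_scale h0 hσ.point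
  obtain ⟨τ, hτ⟩ := exists_germ hP hdim hsmooth (hσ.const_smul hc)
  refine ⟨_, τ, hτ, hcx, ?_⟩
  filter_upwards [hov] with p hp
  exact gug_over (over_const_smul hp hc)

/-- the field `nc` of `Geo` -/
theorem geo_nc [P.IsPrime] (hP : Homog P) (hdim : ∃ z : Fin (k + 2) → FunField P, IsTranscendenceBasis ℂ z)
    (hsmooth : Pool.Agent.AD.NC.IsSmooth P (k + 2)) {Λ : AddSubgroup (Cn (k + 1))} {u : PN N → Cn (k + 1) ⧸ Λ} {D B : Set (Cn (k + 1))}
    (hD : IsDiscriminant (projVar P) Λ u D B) :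
    ∀ y ∈ D, y ∉ B → ∃ κ : Cn (k + 1) → Cn (k + 1), Pool.Agent.TG.IsCoord D κ y ∧
      ∀ x ∈ coneE P, uV Λ u x - y ∈ Λ → Pool.Agent.TG.IsNC (coneE P) Λ (uV Λ u) κ x := by
  intro y hy hyB
  obtain ⟨κ, hκ, hnc⟩ := hD.crossing y hy hyB
  refine ⟨κ, ⟨hκ.holomorphic, hκ.point, ?_, hκ.mem_iff⟩, ?_⟩
  · rw [injective_iff_map_eq_zero]
    exact hκ.immersion
  · intro x hx hxy
    obtain ⟨h0, h1⟩ := (mem_coneE hP).1 hx
    rw [sub_mem_iff, uV_eq Λ u h0] at hxy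
    obtain ⟨σ, a, b, hσ, hab, hov⟩ := hnc _ h1 hxy
    obtain ⟨c, hc, hcx⟩ := exists_scale h0 hσ.point
    obtain ⟨τ, hτ⟩ := exists_germ hP hdim hsmooth (hσ.const_smul hc)
    refine ⟨_, τ, a, b, hτ, hcx, hab, ?_⟩
    filter_upwards [hov] with p hp
    exact gug_over (over_const_smul hp hc)

end Pool.Agent.TGF

end
end

section

/-!
# TG GuL: glue: charts, the torus map, lattices, the entire curves in the fibres
-/

set_option autoImplicit false

open Topology Filter MvPolynomial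
open Pool.Agent.H17 (PN VanishesAt)
open Pool.Agent.H62.FC (Homog)
open Pool.Agent.H17LG.Variety (FunField)
open Pool.Agent.H17EF (projVar coneE)
open Pool.Agent.H36.BP (EN fs)
open Pool.Agent.H14.V (brodyCurves isLift_mk IsLift)
open Pool.Agent.AD (Vd uV uV_eq sub_mem_iff torusMapV discreteSub_of isCone_coneE charts_coneE IsHolomorphicTorusMap Charts)
open Pool.Agent.TG (TMap Lat)

noncomputable section

namespace Pool.Agent.TGF

variable {N k : ℕ} {P : Ideal (MvPolynomial (Fin (N + 1)) ℂ)} {Λ Γ : AddSubgroup (Cn (k + 1))} {u : PN N → Cn (k + 1) ⧸ Λ} {D B : Set (Cn (k + 1))}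

theorem gu_charts [P.IsPrime] (hP : Homog P) (hdim : ∃ z : Fin (k + 2) → FunField P, IsTranscendenceBasis ℂ z)
    (hsm : Pool.Agent.AD.NC.IsSmooth P (k + 2)) : Charts (k + 2) (coneE P) := by
  obtain ⟨z, hz⟩ := hdim
  exact charts_coneE hP hz hsm

theorem gu_tor (hP : Homog P) (hu : IsHolomorphicTorusMap (projVar P) Λ u) : TMap (coneE P) Λ (uV Λ u) := by
  have h := torusMapV hP hu
  exact ⟨h.smul, h.loc⟩

/-- a spanning subgroup is cocompact -/
theorem gu_cocompact {n : ℕ} {Λ : AddSubgroup (Fin n → ℂ)} (h : Submodule.span ℝ (Λ : Set (Fin n → ℂ)) = ⊤) :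
    ∃ C : ℝ, 0 < C ∧ ∀ b : Fin n → ℂ, ∃ l ∈ Λ, ‖b - l‖ ≤ C := by
  classical
  obtain ⟨T, hTs, hT⟩ : ∃ T : Finset (Fin n → ℂ), (T : Set (Fin n → ℂ)) ⊆ (Λ : Set (Fin n → ℂ)) ∧ Submodule.span ℝ (T : Set (Fin n → ℂ)) = ⊤ := by
    have h1 : (Submodule.span ℝ (Λ : Set (Fin n → ℂ))).FG := by
      rw [h]
      exact Module.Finite.fg_top
    obtain ⟨T, hTs, hT⟩ := (Submodule.fg_span_iff_fg_span_finset_subset _).1 h1
    exact ⟨T, hTs, by rw [← hT, h]⟩
  refine ⟨(∑ t ∈ T, ‖t‖) + 1, by positivity, fun b => ?_⟩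
  have hb : b ∈ Submodule.span ℝ (T : Set (Fin n → ℂ)) := by rw [hT]; trivial
  obtain ⟨c, -, hc⟩ := Submodule.mem_span_finset.1 hb
  refine ⟨∑ t ∈ T, ⌊c t⌋ • t, Λ.sum_mem fun t ht => Λ.zsmul_mem (hTs ht) _, ?_⟩
  refine le_trans ?_ (le_add_of_nonneg_right zero_le_one)
  rw [← hc, ← Finset.sum_sub_distrib]
  refine (norm_sum_le _ _).trans (Finset.sum_le_sum fun t _ => ?_)
  have h2 : c t • t - ⌊c t⌋ • t = (Int.fract (c t)) • t := by
    rw [Int.fract, sub_smul]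
    congr 1
    exact (Int.cast_smul_eq_zsmul ℝ _ _).symm
  rw [h2, norm_smul, Real.norm_of_nonneg (Int.fract_nonneg _)]
  exact mul_le_of_le_one_left (norm_nonneg _) (Int.fract_lt_one _).le

theorem gu_lat (Λ : AddSubgroup (Cn (k + 1))) [DiscreteTopology Λ] (hspan : Submodule.span ℝ (Λ : Set (Cn (k + 1))) = ⊤) : Lat Λ :=
  ⟨discreteSub_of Λ, gu_cocompact hspan⟩

theorem gu_lat_sub (hΛ : Lat Λ) (hle : Γ ≤ Λ) (hspan : Submodule.span ℝ (Γ : Set (Cn (k + 1))) = ⊤) : Lat Γ := by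
  obtain ⟨δ, hδ, h⟩ := hΛ.disc
  exact ⟨⟨δ, hδ, fun l hl hn => h l (hle hl) hn⟩, gu_cocompact hspan⟩

/-- the fibres off `D` contain no entire curve with bounded derivative -/
theorem gu_fib (hP : Homog P) (hD : IsDiscriminant (projVar P) Λ u D B) : ∀ y ∉ D, ∀ F : ℂ → EN N, Differentiable ℂ F → (∀ z, F z ∈ coneE P) →
    (∀ z, uV Λ u (F z) - y ∈ Λ) → (∃ L : ℝ, ∀ z, fs (F z) (deriv F z) ≤ L) → ∀ z w, ∃ c : ℂ, F z = c • F w := by
  intro y hy F hF hFX hFy hL z w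
  obtain ⟨L, hL⟩ := hL
  obtain ⟨M, hM⟩ : ∃ M : ℝ, M = max L 1 := ⟨_, rfl⟩
  have hM0 : 0 < M := by
    rw [hM]
    exact lt_of_lt_of_le one_pos (le_max_right _ _)
  have hMc : (M : ℂ) ≠ 0 := by exact_mod_cast hM0.ne'
  obtain ⟨a, ha⟩ : ∃ a : ℂ, a = ((M⁻¹ : ℝ) : ℂ) := ⟨_, rfl⟩
  have hanorm : ‖a‖ = M⁻¹ := by rw [ha, Complex.norm_real, Real.norm_of_nonneg (inv_nonneg.2 hM0.le)]
  have haM : ∀ t : ℂ, a * (M * t) = t := by
    intro t
    rw [ha, Complex.ofReal_inv, inv_mul_cancel_left₀ hMc]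
  have hG : Differentiable ℂ fun t => F (a * t) := hF.comp (differentiable_id.const_mul a)
  have hGd : ∀ t, deriv (fun t => F (a * t)) t = a • deriv F (a * t) := by
    intro t
    have h3 : HasDerivAt (fun w : ℂ => a * w) a t := by
      simpa using (hasDerivAt_id t).const_mul a
    exact ((hF (a * t)).hasDerivAt.scomp t h3).deriv
  have h0 : ∀ t, (F (a * t)).ofLp ≠ 0 := fun t => (hFX _).1
  have hl := isLift_mk hG h0
  have h1 := hD.hyperbolic y hy _ ⟨fun t => (hl.mem_iff hP t).2 (hFX _), _, hl, fun t => by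
    rw [hGd, Pool.Agent.H36.BP.fs_smul_right, hanorm]
    calc M⁻¹ * fs (F (a * t)) (deriv F (a * t)) ≤ M⁻¹ * M :=
          mul_le_mul_of_nonneg_left ((hL _).trans (by rw [hM]; exact le_max_left _ _)) (inv_nonneg.2 hM0.le)
      _ = 1 := inv_mul_cancel₀ hM0.ne'⟩ (fun t => by
    have h2 := hFy (a * t)
    rw [sub_mem_iff, uV_eq Λ u (hFX _).1] at h2
    exact h2) (M * z) (M * w)
  rw [Projectivization.mk_eq_mk_iff'] at h1
  obtain ⟨b, hb⟩ := h1
  rw [haM, haM] at hb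
  exact ⟨b, WithLp.ofLp_injective 2 hb.symm⟩

theorem gu_D_inv (hD : IsDiscriminant (projVar P) Λ u D B) : ∀ y ∈ D, ∀ l ∈ Λ, y + l ∈ D := hD.invariant

end Pool.Agent.TGF

end
end

section

/-!
# TG CLp: the curves over the lines near a point off `D` are uniformly Lipschitz
-/

set_option autoImplicit false

open Topology Filter Metric

namespace Pool.Agent.TG

open Pool.Agent.H36.BP (EN)
open Pool.Agent.H62.EF (MN pr)
open Pool.Agent.AD (Vd)

variable {N k : ℕ} {X : Set (EN N)} {Λ : AddSubgroup (Vd (k + 1))} {u : EN N → Vd (k + 1)} {D B : Set (Vd (k + 1))}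

theorem Geo.clip (G : Geo X Λ u D B) : ∀ y ∉ D, CLip X Λ u y := by
  intro y₀ hy₀
  obtain ⟨δ, hδ, hyG⟩ := G.exists_gd hy₀
  obtain ⟨L, hL, h⟩ := curve_bound_disc G (δ := δ / 16) (by positivity)
  refine ⟨δ / 2, L, by positivity, hL.le, fun y hy e he g hg z hz w hw => ?_⟩
  rw [mem_ball, dist_eq_norm] at hy
  obtain ⟨F, hF, hFX, hFg⟩ := disc_lift_mem G.cone G.tor hg (r := 3 * δ / 8) (by linarith)
  have hsub : ball (0 : ℂ) (δ / 2 / 2) ⊆ ball (0 : ℂ) (3 * δ / 8) := ball_subset_ball (by linarith)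
  rw [hFg z (hsub hz), hFg w (hsub hw)]
  refine h y e he (3 * δ / 8) (δ / 2 / 2) (by linarith) (fun v hv => ?_) F hF hFX z hz w hw
  have h1 : ‖y + v • e - y₀‖ ≤ δ / 2 + δ / 4 := by
    have h2 : y + v • e - y₀ = (y - y₀) + v • e := by abel
    rw [mem_ball_zero_iff] at hv
    rw [h2]
    refine (norm_add_le _ _).trans (add_le_add hy.le ?_)
    rw [norm_smul]
    calc ‖v‖ * ‖e‖ ≤ ‖v‖ * 1 := mul_le_mul_of_nonneg_left he (norm_nonneg _)
      _ ≤ δ / 4 := by linarith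
  exact gd_mono (by linarith) (gd_near hyG h1)

end Pool.Agent.TG

end
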