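import Pool.Agent.H94.G5T.M125

/-! The parts of this file: G3.A.Fin, G3.A.Cns, G3.A.Shts_1. -/

section

/-!
# G3 A Fin: over every line there are finitely many curves, and their number is upper semicontinuous

`lm_sep`: if `f n ≠ g n` over `y n → y₀` converge to `h`, `h'`, then `h ≠ h'` (otherwise they are close on `closedBall 0 R₁` over `Gd D δ` for most `n`: `Lm.unif`; the set `{z ∈ closedBall 0 R₁ | y₀ + z a ∈ Gd D (δ/2)}`
is compact; `loc_rigid`).  `hc_finite`: an infinite set of curves over `y` contains an injective sequence; `hc_closed` on `ℕ × ℕ` or a Cauchy argument: two different members close to the limit.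
`ncard_usc`: `m` different curves over `y n`, limits are different (`lm_sep`, `hc_closed`).
-/

set_option autoImplicit false

open Topology Filter Metric

namespace Pool.Agent.G3.A

open Pool.Agent.H36.BP (EN fs wd)
open Pool.Agent.H14.PP (IsCone CurveAt Tan)
open Pool.Agent.H62.EF (MN pr)
open Pool.Agent.AD (Vd Chart Charts IsGerm)
open Pool.Agent.TG
open Pool.Agent.G3.C (Gc HP)

variable {N k : ℕ} {X : Set (EN N)} {Λ : AddSubgroup (Vd (k + 1))} {u : EN N → Vd (k + 1)} {D B Bad : Set (Vd (k + 1))} {a : Vd (k + 1)}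

variable {J : ℕ} {α : Fin J → VForm X Λ u} {c₀ C₀ ρ δ : ℝ}

theorem lm_sep (S : DA X Λ u D B Bad a α c₀ C₀ ρ δ) {ι : Type*} {𝒰 : Ultrafilter ι} {y : ι → Vd (k + 1)} {y₀ : Vd (k + 1)} (hy : Tendsto y 𝒰 (𝓝 y₀)) {f g : ι → ℂ → MN N} {h : ℂ → MN N}
    (hf : ∀ᶠ n in (𝒰 : Filter ι), f n ∈ Hc X Λ u a (y n)) (hg : ∀ᶠ n in (𝒰 : Filter ι), g n ∈ Hc X Λ u a (y n)) (hh : h ∈ Hc X Λ u a y₀)
    (hfh : Lm D a 𝒰 y₀ f h) (hgh : Lm D a 𝒰 y₀ g h) : ∀ᶠ n in (𝒰 : Filter ι), f n = g n := by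
  obtain ⟨R₁, ε₁, hR₁, hε₁, hrig⟩ := loc_rigid S
  have hδ := S.lc.δ_pos
  have hcont : Continuous h := hc_cont S.geo.cone hh
  have hlin : Continuous fun z : ℂ => y₀ + z • a := by fun_prop
  have hK : IsCompact (closedBall (0 : ℂ) R₁ ∩ (fun z : ℂ => y₀ + z • a) ⁻¹' Gd D (δ / 2)) :=
    (isCompact_closedBall 0 R₁).inter_right ((gd_closed D (δ / 2)).preimage hlin)
  have hKD : ∀ z ∈ closedBall (0 : ℂ) R₁ ∩ (fun z : ℂ => y₀ + z • a) ⁻¹' Gd D (δ / 2), y₀ + z • a ∉ D :=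
    fun z hz => gd_notMem (by linarith) hz.2
  have hyn : ∀ᶠ n in (𝒰 : Filter ι), ‖y n - y₀‖ ≤ δ / 2 := by
    filter_upwards [hy.eventually (ball_mem_nhds y₀ (half_pos hδ))] with n hn
    rw [← dist_eq_norm]
    exact (mem_ball.1 hn).le
  filter_upwards [hf, hg, hyn, hfh.unif hcont hK hKD (half_pos hε₁), hgh.unif hcont hK hKD (half_pos hε₁)] with n a1 a2 a3 a4 a5
  refine hrig (y n) (f n) a1 (g n) a2 0 fun z hz hzG => ?_
  have h5 : ‖y₀ + z • a - (y n + z • a)‖ ≤ δ / 2 := by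
    rw [add_sub_add_right_eq_sub, norm_sub_rev]
    exact a3
  have h6 := gd_near hzG h5
  have h7 : δ - δ / 2 = δ / 2 := by ring
  rw [h7] at h6
  have h8 := a4 z ⟨hz, h6⟩
  have h9 := a5 z ⟨hz, h6⟩
  have h10 := dist_triangle_right (f n z) (g n z) (h z)
  linarith

private theorem lm_const {ι : Type*} {l : Filter ι} {y₀ : Vd (k + 1)} {g : ℂ → MN N} (hg : Continuous g) : Lm D a l y₀ (fun _ => g) g :=
  fun z _ _ hw => (hg.tendsto z).comp hw

theorem hc_finite (S : DA X Λ u D B Bad a α c₀ C₀ ρ δ) (y : Vd (k + 1)) : (Hc X Λ u a y).Finite := by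
  by_contra hcon
  have hinf : (Hc X Λ u a y).Infinite := hcon
  obtain ⟨φ, hφ⟩ : ∃ φ : ℕ → Hc X Λ u a y, Function.Injective φ := ⟨hinf.natEmbedding, (hinf.natEmbedding).injective⟩
  have hfm : ∀ n, (φ n : ℂ → MN N) ∈ Hc X Λ u a y := fun n => (φ n).2
  obtain ⟨g, hg, hlm⟩ := hc_closed S.geo S.lg S.nl (𝒰 := hyperfilter ℕ) (y := fun _ : ℕ => y) tendsto_const_nhds
    (f := fun n => (φ n : ℂ → MN N)) (Eventually.of_forall hfm)
  have h1 := lm_sep S (𝒰 := hyperfilter ℕ) (y := fun _ : ℕ => y) tendsto_const_nhds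
    (f := fun n => (φ n : ℂ → MN N)) (g := fun _ => g) (Eventually.of_forall hfm) (Eventually.of_forall fun _ => hg) hg hlm
    (lm_const (hc_cont S.geo.cone hg))
  have h2 : {n : ℕ | (φ n : ℂ → MN N) = g}.Finite := by
    refine Set.Subsingleton.finite fun i hi j hj => ?_
    refine hφ (Subtype.ext ?_)
    exact (show (φ i : ℂ → MN N) = g from hi).trans (show (φ j : ℂ → MN N) = g from hj).symm
  exact notMem_hyperfilter_of_finite h2 h1

theorem ncard_usc (S : DA X Λ u D B Bad a α c₀ C₀ ρ δ) (y₀ : Vd (k + 1)) : ∀ᶠ y in 𝓝 y₀, (Hc X Λ u a y).ncard ≤ (Hc X Λ u a y₀).ncard := by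
  classical
  by_contra hcon
  rw [Filter.not_eventually] at hcon
  obtain ⟨m, hm⟩ : ∃ m, m = (Hc X Λ u a y₀).ncard := ⟨_, rfl⟩
  rw [← hm] at hcon
  have hne : (𝓝 y₀ ⊓ 𝓟 {y | ¬ (Hc X Λ u a y).ncard ≤ m}).NeBot := frequently_mem_iff_neBot.1 hcon
  obtain ⟨𝒰, h𝒰⟩ : ∃ 𝒰 : Ultrafilter (Vd (k + 1)), (𝒰 : Filter (Vd (k + 1))) ≤ 𝓝 y₀ ⊓ 𝓟 {y | ¬ (Hc X Λ u a y).ncard ≤ m} :=
    ⟨Ultrafilter.of _, Ultrafilter.of_le _⟩
  have hy : Tendsto (fun y : Vd (k + 1) => y) (𝒰 : Filter (Vd (k + 1))) (𝓝 y₀) := h𝒰.trans inf_le_left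
  have hbig : ∀ᶠ y in (𝒰 : Filter (Vd (k + 1))), ¬ (Hc X Λ u a y).ncard ≤ m := le_principal_iff.1 (h𝒰.trans inf_le_right)
  have hex : ∀ y : Vd (k + 1), ∃ F : Fin (m + 1) → ℂ → MN N, ¬ (Hc X Λ u a y).ncard ≤ m → Function.Injective F ∧ ∀ i, F i ∈ Hc X Λ u a y := by
    intro y
    by_cases hy : (Hc X Λ u a y).ncard ≤ m
    · exact ⟨fun _ _ => pr 0, fun h => absurd hy h⟩
    · push Not at hy
      obtain ⟨T, hT, hTc⟩ := Set.exists_subset_card_eq (s := Hc X Λ u a y) (n := m + 1) hy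
      have hTf : T.Finite := (hc_finite S y).subset hT
      have : Fintype T := hTf.fintype
      have hcard : Fintype.card T = m + 1 := by
        rw [← Nat.card_eq_fintype_card, Nat.card_coe_set_eq, hTc]
      obtain ⟨e⟩ : Nonempty (Fin (m + 1) ≃ T) := ⟨(Fintype.equivFinOfCardEq hcard).symm⟩
      exact ⟨fun i => (e i : ℂ → MN N), fun _ => ⟨fun i j hij => e.injective (Subtype.ext hij), fun i => hT (e i).2⟩⟩
  choose F hF using hex
  have hFm : ∀ i, ∀ᶠ y in (𝒰 : Filter (Vd (k + 1))), F y i ∈ Hc X Λ u a y := fun i => by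
    filter_upwards [hbig] with y hy
    exact (hF y hy).2 i
  choose g hg hlm using fun i => hc_closed S.geo S.lg S.nl (𝒰 := 𝒰) (y := fun y => y) hy (f := fun y => F y i) (hFm i)
  have hginj : Function.Injective g := by
    intro i j hij
    by_contra hne
    have h1 := hlm i
    rw [hij] at h1
    have h2 := lm_sep S hy (hFm i) (hFm j) (hg j) h1 (hlm j)
    obtain ⟨y, hy1, hy2⟩ := (h2.and hbig).exists
    exact hne ((hF y hy2).1 hy1)
  have h3 : (Set.range g).ncard ≤ (Hc X Λ u a y₀).ncard :=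
    Set.ncard_le_ncard (by rintro _ ⟨i, rfl⟩; exact hg i) (hc_finite S y₀)
  rw [Set.ncard_range_of_injective hginj, Nat.card_eq_fintype_card, Fintype.card_fin, ← hm] at h3
  omega

end Pool.Agent.G3.A

end

section

/-!
# G3 A Cns: the number of curves is constant on `b + E`, and the curves move continuously

`ncard_eq`: the number is the same for `y`, `y + z a`, `y + l` (`hc_add`, `hc_per`), these are dense in `b + E` (`ToE.dns`), `ncard_usc` in both directions.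
`hc_move`: as `y n → y₀` in `b + E` the limits of the different curves over `y n` are different (`lm_sep`), so they are all the curves over `y₀`.
`near_exists`: uniform version, by contradiction with `CE.cpt` (translations) and `hc_move`; uniqueness by `loc_rigid`.
-/

set_option autoImplicit false

open Topology Filter Metric

namespace Pool.Agent.G3.A

open Pool.Agent.H36.BP (EN fs wd)
open Pool.Agent.H14.PP (IsCone CurveAt Tan)
open Pool.Agent.H62.EF (MN pr)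
open Pool.Agent.AD (Vd Chart Charts IsGerm)
open Pool.Agent.TG
open Pool.Agent.G3.C (Gc HP)

variable {N k : ℕ} {X : Set (EN N)} {Λ : AddSubgroup (Vd (k + 1))} {u : EN N → Vd (k + 1)} {D B Bad : Set (Vd (k + 1))} {a : Vd (k + 1)}

variable {J : ℕ} {α : Fin J → VForm X Λ u} {c₀ C₀ ρ δ : ℝ} {E : Submodule ℝ (Vd (k + 1))} {b : Vd (k + 1)}

private theorem cns_add (y : Vd (k + 1)) (z₁ : ℂ) : (Hc X Λ u a (y + z₁ • a)).ncard = (Hc X Λ u a y).ncard := by
  symm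
  refine Set.ncard_congr (fun (f : ℂ → MN N) (_ : f ∈ Hc X Λ u a y) => fun z : ℂ => f (z₁ + z)) (fun f hf => hc_add hf z₁) ?_ ?_
  · intro f g _ _ h
    funext z
    have h1 := congrFun h (z - z₁)
    simp only [add_sub_cancel] at h1
    exact h1
  · intro g hg
    have h1 := hc_add hg (-z₁)
    have e : y + z₁ • a + (-z₁) • a = y := by
      rw [neg_smul, add_assoc, add_neg_cancel, add_zero]
    rw [e] at h1
    refine ⟨_, h1, ?_⟩
    funext z
    simp only [neg_add_cancel_left]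

private theorem cns_le (S : DA X Λ u D B Bad a α c₀ C₀ ρ δ) (hE : ToE Λ a E) {y y' : Vd (k + 1)} (hy : y' - y ∈ E) :
    (Hc X Λ u a y).ncard ≤ (Hc X Λ u a y').ncard := by
  obtain ⟨ε, hε, h⟩ := Metric.eventually_nhds_iff.1 (ncard_usc S y')
  obtain ⟨l, hl, -, z, hz⟩ := hE.dns _ hy (ε / 2) (by positivity)
  have h1 : dist (y + l + z • a) y' < ε := by
    rw [dist_eq_norm, ← norm_neg]
    have e : -(y + l + z • a - y') = y' - y - (l + z • a) := by abel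
    rw [e]
    linarith
  have h2 := h h1
  rwa [cns_add, hc_per hl] at h2

theorem ncard_eq (S : DA X Λ u D B Bad a α c₀ C₀ ρ δ) (hE : ToE Λ a E) {y : Vd (k + 1)} (hy : y ∈ Tb b E) : (Hc X Λ u a y).ncard = (Hc X Λ u a b).ncard := by
  have h1 : y - b ∈ E := hy
  have h2 : b - y ∈ E := by
    have h3 := E.neg_mem h1
    rwa [neg_sub] at h3
  exact le_antisymm (cns_le S hE h2) (cns_le S hE h1)

theorem hc_move (S : DA X Λ u D B Bad a α c₀ C₀ ρ δ) (hE : CE X Λ u a b E) {ι : Type*} {𝒰 : Ultrafilter ι} {y : ι → Vd (k + 1)} {y₀ : Vd (k + 1)} (hy : Tendsto y 𝒰 (𝓝 y₀))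
    (hyT : ∀ᶠ n in (𝒰 : Filter ι), y n ∈ Tb b E) (hy₀ : y₀ ∈ Tb b E) {g : ℂ → MN N} (hg : g ∈ Hc X Λ u a y₀) :
    ∃ f : ι → ℂ → MN N, (∀ᶠ n in (𝒰 : Filter ι), f n ∈ Hc X Λ u a (y n)) ∧ Lm D a 𝒰 y₀ f g := by
  classical
  obtain ⟨m, hm⟩ : ∃ m, (Hc X Λ u a y₀).ncard = m := ⟨_, rfl⟩
  have hex : ∀ n, ∃ e : Fin m → ℂ → MN N, y n ∈ Tb b E → Function.Injective e ∧ ∀ i, e i ∈ Hc X Λ u a (y n) := by
    intro n
    by_cases h : y n ∈ Tb b E
    · have hc : (Hc X Λ u a (y n)).ncard = m := by rw [hE.card _ h, ← hE.card _ hy₀, hm]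
      have hfin := hc_finite S (y n)
      have hcard : Nat.card (Hc X Λ u a (y n)) = m := by rw [Nat.card_coe_set_eq, hc]
      haveI : Finite (Hc X Λ u a (y n)) := hfin
      have eqv := Finite.equivFinOfCardEq hcard
      exact ⟨fun i => (eqv.symm i : ℂ → MN N), fun _ => ⟨fun i j hij => eqv.symm.injective (Subtype.ext hij), fun i => (eqv.symm i).2⟩⟩
    · exact ⟨fun _ => g, fun h' => absurd h' h⟩
  choose e he using hex
  have hmem : ∀ i, ∀ᶠ n in (𝒰 : Filter ι), e n i ∈ Hc X Λ u a (y n) := fun i => hyT.mono fun n hn => (he n hn).2 i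
  choose G hG hGl using fun i => hc_closed S.geo S.lg S.nl hy (hmem i)
  have hinj : Function.Injective G := by
    intro i j hij
    by_contra hne
    have h1 := lm_sep S hy (hmem i) (hmem j) (hG i) (hGl i) (hij ▸ hGl j)
    obtain ⟨n, h2, h3⟩ := (h1.and hyT).exists
    exact hne ((he n h3).1 h2)
  have hrange : Set.range G = Hc X Λ u a y₀ := by
    refine Set.eq_of_subset_of_ncard_le (Set.range_subset_iff.2 hG) ?_ (hc_finite S y₀)
    rw [hm, ← Set.image_univ, Set.ncard_image_of_injective _ hinj, Set.ncard_univ, Nat.card_eq_fintype_card, Fintype.card_fin]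
  rw [← hrange] at hg
  obtain ⟨i, rfl⟩ := hg
  exact ⟨fun n => e n i, hmem i, hGl i⟩

/-- there are constants `η`, `R`, `θ` such that for `‖y - y'‖ ≤ η` every curve over `y` is near exactly one curve over `y'` -/
theorem near_exists (S : DA X Λ u D B Bad a α c₀ C₀ ρ δ) (hE : CE X Λ u a b E) : ∃ R θ : ℝ, 0 < R ∧ 0 < θ ∧ ∀ θ' : ℝ, 0 < θ' → θ' ≤ θ → ∃ η : ℝ, 0 < η ∧ η ≤ δ / 8 ∧
    ∀ y ∈ Tb b E, ∀ y' ∈ Tb b E, ‖y' - y‖ ≤ η → ∀ f ∈ Hc X Λ u a y,
      (∃ f' ∈ Hc X Λ u a y', ∀ z ∈ closedBall (0 : ℂ) R, y + z • a ∈ Gd D (δ / 2) → dist (f' z) (f z) ≤ θ') ∧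
      ∀ f' ∈ Hc X Λ u a y', ∀ f'' ∈ Hc X Λ u a y', (∀ z ∈ closedBall (0 : ℂ) R, y + z • a ∈ Gd D (3 / 4 * δ) → dist (f' z) (f z) ≤ 2 * θ) →
        (∀ z ∈ closedBall (0 : ℂ) R, y + z • a ∈ Gd D (3 / 4 * δ) → dist (f'' z) (f z) ≤ 2 * θ) → f' = f'' := by
  classical
  have hδ := S.lc.δ_pos
  obtain ⟨R, ε₁, hR, hε₁, hloc⟩ := loc_rigid S
  refine ⟨R, ε₁ / 4, hR, by positivity, fun θ' hθ' _ => ?_⟩
  -- the existence part
  have hkey : ∃ η : ℝ, 0 < η ∧ η ≤ δ / 8 ∧ ∀ y ∈ Tb b E, ∀ y' ∈ Tb b E, ‖y' - y‖ ≤ η → ∀ f ∈ Hc X Λ u a y,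
      ∃ f' ∈ Hc X Λ u a y', ∀ z ∈ closedBall (0 : ℂ) R, y + z • a ∈ Gd D (δ / 2) → dist (f' z) (f z) ≤ θ' := by
    by_contra hcon
    push Not at hcon
    obtain ⟨RE, -, hcpt⟩ := hE.cpt
    have hstep : ∀ n : ℕ, ∃ (y y' : Vd (k + 1)) (f : ℂ → MN N), y ∈ Tb b E ∧ y' ∈ Tb b E ∧ ‖y' - y‖ ≤ 1 / ((n : ℝ) + 1) ∧ y ∈ closedBall b RE ∧
        f ∈ Hc X Λ u a y ∧ ∀ f' ∈ Hc X Λ u a y', ∃ z ∈ closedBall (0 : ℂ) R, y + z • a ∈ Gd D (δ / 2) ∧ θ' < dist (f' z) (f z) := by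
      intro n
      obtain ⟨y, hy, y', hy', hyy, f, hf, hno⟩ := hcon (min (δ / 8) (1 / ((n : ℝ) + 1))) (by positivity) (min_le_left _ _)
      obtain ⟨l, hl, hlE, hle⟩ := hcpt (y - b) hy
      have hl' : -l ∈ Λ := Λ.neg_mem hl
      refine ⟨y + -l, y' + -l, f, ?_, ?_, ?_, ?_, ?_, ?_⟩
      · have h1 := E.sub_mem hy hlE
        have e : y + -l - b = y - b - l := by abel
        show y + -l - b ∈ E
        rwa [e]
      · have h1 := E.sub_mem hy' hlE
        have e : y' + -l - b = y' - b - l := by abel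
        show y' + -l - b ∈ E
        rwa [e]
      · rw [add_sub_add_right_eq_sub]
        exact hyy.trans (min_le_right _ _)
      · rw [mem_closedBall, dist_eq_norm]
        have e : y + -l - b = y - b - l := by abel
        rwa [e]
      · rwa [hc_per hl']
      · intro f' hf'
        rw [hc_per hl'] at hf'
        obtain ⟨z, hz, hzD, hzd⟩ := hno f' hf'
        refine ⟨z, hz, ?_, hzd⟩
        have e : y + -l + z • a = y + z • a + -l := by abel
        rw [e]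
        exact (S.geo.gd_add _ hl').2 hzD
    choose y y' f hy hy' hyy hyb hf hno using hstep
    obtain ⟨𝒰, h𝒰⟩ : ∃ 𝒰 : Ultrafilter ℕ, (𝒰 : Filter ℕ) ≤ atTop := ⟨Ultrafilter.of atTop, Ultrafilter.of_le atTop⟩
    have hle : ((𝒰.map y : Ultrafilter (Vd (k + 1))) : Filter (Vd (k + 1))) ≤ 𝓟 (closedBall b RE) := by
      rw [le_principal_iff, Ultrafilter.mem_coe, Ultrafilter.mem_map]
      exact Filter.Eventually.of_forall hyb
    obtain ⟨y₀, -, hy₀⟩ := (isCompact_closedBall b RE).ultrafilter_le_nhds (𝒰.map y) hle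
    have hyt : Tendsto y 𝒰 (𝓝 y₀) := hy₀
    have h1 : Tendsto (fun n : ℕ => 1 / ((n : ℝ) + 1)) (𝒰 : Filter ℕ) (𝓝 0) := tendsto_one_div_add_atTop_nhds_zero_nat.mono_left h𝒰
    have h2 : Tendsto (fun n => y' n - y n) (𝒰 : Filter ℕ) (𝓝 0) := squeeze_zero_norm hyy h1
    have hyt' : Tendsto y' 𝒰 (𝓝 y₀) := by
      have h3 := h2.add hyt
      simpa using h3
    have hclosed : IsClosed (Tb b E) := by
      have h3 : IsClosed (E : Set (Vd (k + 1))) := E.closed_of_finiteDimensional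
      exact h3.preimage (continuous_id.sub continuous_const)
    have hy₀T : y₀ ∈ Tb b E := hclosed.mem_of_tendsto hyt (Filter.Eventually.of_forall hy)
    obtain ⟨g, hg, hgl⟩ := hc_closed S.geo S.lg S.nl hyt (Filter.Eventually.of_forall hf)
    obtain ⟨f', hf', hfl'⟩ := hc_move S hE hyt' (Filter.Eventually.of_forall hy') hy₀T hg
    have hgc : Continuous g := hc_cont S.geo.cone hg
    have hKc : IsCompact {z : ℂ | z ∈ closedBall (0 : ℂ) R ∧ y₀ + z • a ∈ Gd D (δ / 4)} :=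
      (isCompact_closedBall (0 : ℂ) R).inter_right ((gd_closed D (δ / 4)).preimage (by fun_prop))
    have hKD : ∀ z ∈ {z : ℂ | z ∈ closedBall (0 : ℂ) R ∧ y₀ + z • a ∈ Gd D (δ / 4)}, y₀ + z • a ∉ D := fun z hz =>
      gd_notMem (by positivity) hz.2
    have h4 := hgl.unif hgc hKc hKD (half_pos hθ')
    have h5 := hfl'.unif hgc hKc hKD (half_pos hθ')
    have h6 : ∀ᶠ n in (𝒰 : Filter ℕ), y n ∈ closedBall y₀ (δ / 4) := hyt.eventually (closedBall_mem_nhds y₀ (by positivity))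
    obtain ⟨n, ⟨⟨h7, h8⟩, h9⟩, h10⟩ := (((h4.and h5).and h6).and hf').exists
    obtain ⟨z, hz, hzD, hzd⟩ := hno n (f' n) h10
    have h11 : y₀ + z • a ∈ Gd D (δ / 4) := by
      have h12 : ‖y₀ + z • a - (y n + z • a)‖ ≤ δ / 4 := by
        rw [add_sub_add_right_eq_sub, ← dist_eq_norm, dist_comm]
        exact h9
      have h13 := gd_near hzD h12
      have e : δ / 2 - δ / 4 = δ / 4 := by ring
      rwa [e] at h13
    have h14 := h7 z ⟨hz, h11⟩
    have h15 := h8 z ⟨hz, h11⟩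
    have h16 : dist (f' n z) (f n z) ≤ dist (f' n z) (g z) + dist (f n z) (g z) := dist_triangle_right _ _ _
    linarith
  obtain ⟨η, hη, hη8, hex⟩ := hkey
  refine ⟨η, hη, hη8, fun y hy y' hy' hyy f hf => ⟨hex y hy y' hy' hyy f hf, fun f' hf' f'' hf'' h1 h2 => ?_⟩⟩
  refine hloc y' f' hf' f'' hf'' 0 fun z hz hzD => ?_
  have h3 : y + z • a ∈ Gd D (3 / 4 * δ) := by
    have h4 : ‖y + z • a - (y' + z • a)‖ ≤ δ / 8 := by
      rw [add_sub_add_right_eq_sub, norm_sub_rev]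
      exact hyy.trans hη8
    exact gd_mono (by linarith) (gd_near hzD h4)
  have h5 := h1 z hz h3
  have h6 := h2 z hz h3
  have h7 : dist (f' z) (f'' z) ≤ dist (f' z) (f z) + dist (f'' z) (f z) := dist_triangle_right _ _ _
  linarith

end Pool.Agent.G3.A

end

section

/-!
# G3 A Shts: the sheets over `b + E`

`chain_ext`: abstract lemma (no topology): `E` a real normed space, `H : E → Set β`, `η > 0` and maps `τ v w : β → β` (for `‖v - w‖ ≤ η`: `H v → H w`, `τ v v = id`, `τ v w ∘ τ u v = τ u w` if all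
three distances are `≤ η`): for every `f ∈ H 0` there is a section `φ`, `φ 0 = f`, `φ w = τ v w (φ v)` for `‖v - w‖ ≤ η / 3`.  Proof: subdivide the segment `[0, v]` into `n` equal steps (`‖v‖ / n ≤ η / 3`); the
result does not depend on `n` (compare `n` and `n m`), and it is compatible for near `v`, `w` (compare step by step).
`exists_sht`: `H v = Hc (b + v)`, `τ` from `near_exists`; `φ (b + v) = F_v 0` for `v ∈ E`; `F_{v + z a} = F_v (z + ·)`: both are continuous in `z` and near (uniqueness).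
-/

set_option autoImplicit false

open Topology Filter Metric

namespace Pool.Agent.G3.A

open Pool.Agent.H36.BP (EN fs wd)
open Pool.Agent.H14.PP (IsCone CurveAt Tan)
open Pool.Agent.H62.EF (MN pr)
open Pool.Agent.AD (Vd Chart Charts IsGerm)
open Pool.Agent.TG
open Pool.Agent.G3.C (Gc HP)

section chain

variable {V β : Type*} [NormedAddCommGroup V] [NormedSpace ℝ V]

variable {H : V → Set β} {η : ℝ} {τ : V → V → β → β}

end chain

variable {N k : ℕ} {X : Set (EN N)} {Λ : AddSubgroup (Vd (k + 1))} {u : EN N → Vd (k + 1)} {D B Bad : Set (Vd (k + 1))} {a : Vd (k + 1)}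

variable {J : ℕ} {α : Fin J → VForm X Λ u} {c₀ C₀ ρ δ : ℝ} {E : Submodule ℝ (Vd (k + 1))} {b : Vd (k + 1)}

/-- transport of the curves -/
private theorem tr_exists (S : DA X Λ u D B Bad a α c₀ C₀ ρ δ) (hE : CE X Λ u a b E) :
    ∃ (R θ η : ℝ) (τ : E → E → (ℂ → MN N) → ℂ → MN N), 0 < R ∧ 0 < θ ∧ 0 < η ∧ η ≤ δ / 8 ∧
      (∀ v w : E, ‖v - w‖ ≤ η → ∀ f ∈ Hc X Λ u a (b + v), τ v w f ∈ Hc X Λ u a (b + w)) ∧
      (∀ v w : E, ‖v - w‖ ≤ η → ∀ f ∈ Hc X Λ u a (b + v), ∀ z ∈ closedBall (0 : ℂ) R, b + v + z • a ∈ Gd D (δ / 2) →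
        dist (τ v w f z) (f z) ≤ θ) ∧
      (∀ v w : E, ‖v - w‖ ≤ η → ∀ f ∈ Hc X Λ u a (b + v), ∀ f' ∈ Hc X Λ u a (b + w),
        (∀ z ∈ closedBall (0 : ℂ) R, b + v + z • a ∈ Gd D (3 / 4 * δ) → dist (f' z) (f z) ≤ 2 * θ) → f' = τ v w f) ∧
      ∀ θ' : ℝ, 0 < θ' → ∃ η' : ℝ, 0 < η' ∧ η' ≤ η ∧ ∀ v w : E, ‖v - w‖ ≤ η' → ∀ f ∈ Hc X Λ u a (b + v),
        ∀ z ∈ closedBall (0 : ℂ) R, b + v + z • a ∈ Gd D (δ / 2) → dist (τ v w f z) (f z) ≤ θ' := by
  classical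
  have hδ := S.lc.δ_pos
  obtain ⟨R, θ, hR, hθ, h⟩ := near_exists S hE
  obtain ⟨η, hη, hηδ, h1⟩ := h θ hθ le_rfl
  have hn : ∀ v w : E, ‖(b + (w : Vd (k + 1))) - (b + v)‖ = ‖v - w‖ := by
    intro v w
    rw [add_sub_add_left_eq_sub, ← Submodule.coe_sub, ← Submodule.coe_norm, norm_sub_rev]
  have h2 : ∀ v w : E, ‖v - w‖ ≤ η → ∀ f ∈ Hc X Λ u a (b + v), ∃ f' ∈ Hc X Λ u a (b + w),
      ∀ z ∈ closedBall (0 : ℂ) R, b + v + z • a ∈ Gd D (δ / 2) → dist (f' z) (f z) ≤ θ :=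
    fun v w hvw f hf => (h1 _ (mem_tb v) _ (mem_tb w) (by rw [hn]; exact hvw) f hf).1
  have h3 : ∀ v w : E, ‖v - w‖ ≤ η → ∀ f ∈ Hc X Λ u a (b + v), ∀ f' ∈ Hc X Λ u a (b + w), ∀ f'' ∈ Hc X Λ u a (b + w),
      (∀ z ∈ closedBall (0 : ℂ) R, b + v + z • a ∈ Gd D (3 / 4 * δ) → dist (f' z) (f z) ≤ 2 * θ) →
      (∀ z ∈ closedBall (0 : ℂ) R, b + v + z • a ∈ Gd D (3 / 4 * δ) → dist (f'' z) (f z) ≤ 2 * θ) → f' = f'' :=
    fun v w hvw f hf => (h1 _ (mem_tb v) _ (mem_tb w) (by rw [hn]; exact hvw) f hf).2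
  have hgd : ∀ {y : Vd (k + 1)}, y ∈ Gd D (3 / 4 * δ) → y ∈ Gd D (δ / 2) := fun hy => gd_mono (by linarith only [hη, hηδ]) hy
  let τ : E → E → (ℂ → MN N) → ℂ → MN N := fun v w f =>
    if hh : ‖v - w‖ ≤ η ∧ f ∈ Hc X Λ u a (b + v) then (h2 v w hh.1 f hh.2).choose else f
  have τ1 : ∀ v w : E, ‖v - w‖ ≤ η → ∀ f ∈ Hc X Λ u a (b + v), τ v w f ∈ Hc X Λ u a (b + w) ∧
      ∀ z ∈ closedBall (0 : ℂ) R, b + v + z • a ∈ Gd D (δ / 2) → dist (τ v w f z) (f z) ≤ θ := by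
    intro v w hvw f hf
    have e : τ v w f = (h2 v w hvw f hf).choose := dif_pos ⟨hvw, hf⟩
    rw [e]
    exact (h2 v w hvw f hf).choose_spec
  have τ3 : ∀ v w : E, ‖v - w‖ ≤ η → ∀ f ∈ Hc X Λ u a (b + v), ∀ f' ∈ Hc X Λ u a (b + w),
      (∀ z ∈ closedBall (0 : ℂ) R, b + v + z • a ∈ Gd D (3 / 4 * δ) → dist (f' z) (f z) ≤ 2 * θ) → f' = τ v w f := by
    intro v w hvw f hf f' hf' hcl
    refine h3 v w hvw f hf f' hf' _ (τ1 v w hvw f hf).1 hcl fun z hz hzD => ?_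
    have h4 := (τ1 v w hvw f hf).2 z hz (hgd hzD)
    linarith only [hθ, h4]
  refine ⟨R, θ, η, τ, hR, hθ, hη, hηδ, fun v w hvw f hf => (τ1 v w hvw f hf).1, fun v w hvw f hf => (τ1 v w hvw f hf).2, τ3, ?_⟩
  intro θ' hθ'
  obtain ⟨η', hη', -, h4⟩ := h (min θ' θ) (lt_min hθ' hθ) (min_le_right _ _)
  refine ⟨min η' η, lt_min hη' hη, min_le_right _ _, fun v w hvw f hf z hz hzD => ?_⟩
  obtain ⟨f', hf', h5⟩ := (h4 _ (mem_tb v) _ (mem_tb w) (by rw [hn]; exact hvw.trans (min_le_left _ _)) f hf).1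
  have h6 : f' = τ v w f := by
    refine τ3 v w (hvw.trans (min_le_right _ _)) f hf f' hf' fun z hz hzD => ?_
    have h7 := h5 z hz (hgd hzD)
    have h8 := min_le_right θ' θ
    linarith only [hθ, h7, h8]
  rw [← h6]
  exact (h5 z hz hzD).trans (min_le_left _ _)

theorem exists_sht (S : DA X Λ u D B Bad a α c₀ C₀ ρ δ) (hE : CE X Λ u a b E) {f : ℂ → MN N} (hf : f ∈ Hc X Λ u a b) :
    ∃ φ : Vd (k + 1) → MN N, Sht X Λ u D a (Tb b E) φ ∧ ∀ z : ℂ, φ (b + z • a) = f z := by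
  classical
  have hX := S.geo.cone
  have hδ := S.lc.δ_pos
  obtain ⟨R, θ, η, τ, hR, hθ, hη, hηδ, t1, t2, t3, t4⟩ := tr_exists S hE
  have c2 : ∀ v : E, ∀ f ∈ Hc X Λ u a (b + v), τ v v f = f := by
    intro v f hf
    refine (t3 v v (by rw [sub_self, norm_zero]; exact hη.le) f hf f hf fun z _ _ => ?_).symm
    rw [dist_self]
    positivity
  have c3 : ∀ v₁ v₂ v₃ : E, ‖v₁ - v₂‖ ≤ η → ‖v₂ - v₃‖ ≤ η → ‖v₁ - v₃‖ ≤ η → ∀ f ∈ Hc X Λ u a (b + v₁),
      τ v₂ v₃ (τ v₁ v₂ f) = τ v₁ v₃ f := by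
    intro v₁ v₂ v₃ h12 h23 h13 f hf
    refine t3 v₁ v₃ h13 f hf _ (t1 v₂ v₃ h23 _ (t1 v₁ v₂ h12 f hf)) fun z hz hzD => ?_
    have h4 : b + (v₂ : Vd (k + 1)) + z • a ∈ Gd D (δ / 2) := by
      have h5 : ‖(b + (v₂ : Vd (k + 1)) + z • a) - (b + v₁ + z • a)‖ ≤ η := by
        rw [add_sub_add_right_eq_sub, add_sub_add_left_eq_sub, ← Submodule.coe_sub, ← Submodule.coe_norm, norm_sub_rev]
        exact h12
      exact gd_mono (by linarith only [hη, hηδ]) (gd_near hzD h5)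
    have h6 := t2 v₂ v₃ h23 _ (t1 v₁ v₂ h12 f hf) z hz h4
    have h7 := t2 v₁ v₂ h12 f hf z hz (gd_mono (by linarith only [hη, hηδ]) hzD)
    have h8 := dist_triangle (τ v₂ v₃ (τ v₁ v₂ f) z) (τ v₁ v₂ f z) (f z)
    linarith only [h6, h7, h8]
  obtain ⟨ψ, p0, p1, p2⟩ := chain_ext (V := E) (H := fun v : E => Hc X Λ u a (b + v)) (τ := τ) hη t1 c2 c3 (f := f) (by simpa using hf)
  have hsh := sh_shift hX S.lg.norm hE.mem hθ hη t3 p1 p2
  let φ : Vd (k + 1) → MN N := fun y => if h : y - b ∈ E then ψ ⟨y - b, h⟩ 0 else f 0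
  have hφ : ∀ v : E, φ (b + v) = ψ v 0 := by
    intro v
    have h4 : b + (v : Vd (k + 1)) - b ∈ E := mem_tb v
    have h5 : φ (b + v) = ψ ⟨b + (v : Vd (k + 1)) - b, h4⟩ 0 := dif_pos h4
    have h6 : (⟨b + (v : Vd (k + 1)) - b, h4⟩ : E) = v := Subtype.ext (add_sub_cancel_left b (v : Vd (k + 1)))
    rw [h5, h6]
  have hφz : ∀ (v : E) (z : ℂ), φ (b + v + z • a) = ψ v z := by
    intro v z
    have h4 := hφ (v + ⟨z • a, hE.mem z⟩)
    have h5 : ψ (v + ⟨z • a, hE.mem z⟩) 0 = ψ v z := by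
      rw [hsh v z]
      show ψ v (z + 0) = ψ v z
      rw [add_zero]
    rw [h5, Submodule.coe_add, ← add_assoc] at h4
    exact h4
  have hv : ∀ y ∈ Tb b E, ∃ v : E, y = b + v := fun y hy => ⟨⟨y - b, hy⟩, (add_sub_cancel b y).symm⟩
  have hline : ∀ y ∈ Tb b E, (fun z : ℂ => φ (y + z • a)) ∈ Hc X Λ u a y := by
    intro y hy
    obtain ⟨v, rfl⟩ := hv y hy
    have h4 : (fun z : ℂ => φ (b + v + z • a)) = ψ v := funext fun z => hφz v z
    rw [h4]
    exact p1 v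
  have hcont : ∀ y ∈ Tb b E, y ∈ Gd D (δ / 2) → ContinuousWithinAt φ (Tb b E) y := by
    intro y hy hyD
    obtain ⟨v, rfl⟩ := hv y hy
    rw [Metric.continuousWithinAt_iff]
    intro ε hε
    obtain ⟨η', hη', hη'η, h4⟩ := t4 (ε / 2) (by positivity)
    refine ⟨min η' (η / 3), lt_min hη' (by positivity), fun x hx hxd => ?_⟩
    obtain ⟨w, rfl⟩ := hv x hx
    have h5 : ‖v - w‖ < min η' (η / 3) := by
      rw [dist_eq_norm, add_sub_add_left_eq_sub, ← Submodule.coe_sub, ← Submodule.coe_norm, norm_sub_rev] at hxd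
      exact hxd
    have h6 := p2 v w (h5.le.trans (min_le_right _ _))
    have h7 := h4 v w (h5.le.trans (min_le_left _ _)) (ψ v) (p1 v) 0 (mem_closedBall_self hR.le) (by rwa [zero_smul, add_zero])
    rw [hφ, hφ, h6]
    linarith only [hε, h7]
  refine ⟨φ, ⟨hline, fun y hy hyD => ?_⟩, fun z => ?_⟩
  · show Tendsto φ (𝓝[Tb b E] y) (𝓝 (φ y))
    rw [tendsto_iff_ultrafilter]
    intro 𝒰 h𝒰
    have hy1 : Tendsto (fun n : Vd (k + 1) => n) (𝒰 : Filter (Vd (k + 1))) (𝓝 y) := h𝒰.trans nhdsWithin_le_nhds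
    have hT : ∀ᶠ n in (𝒰 : Filter (Vd (k + 1))), n ∈ Tb b E := h𝒰 self_mem_nhdsWithin
    obtain ⟨g, hg, hlm⟩ := hc_closed S.geo S.lg S.nl hy1 (f := fun n z => φ (n + z • a)) (hT.mono fun n hn => hline n hn)
    have hgh : g = fun z => φ (y + z • a) := by
      obtain ⟨r, hr, -, hth⟩ := S.lc.thick y
      refine hc_eq hX hg (hline y hy) (z₀ := (r : ℂ)) ?_
      have h4 : ∀ᶠ z in 𝓝 (r : ℂ), |‖z‖ - r| < δ := by
        have h5 : Tendsto (fun z : ℂ => |‖z‖ - r|) (𝓝 (r : ℂ)) (𝓝 |‖(r : ℂ)‖ - r|) := by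
          have h6 : Continuous fun z : ℂ => |‖z‖ - r| := (continuous_norm.sub continuous_const).abs
          exact h6.continuousAt
        have h6 : |‖(r : ℂ)‖ - r| < δ := by
          rw [Complex.norm_real, Real.norm_of_nonneg hr.le, sub_self, abs_zero]
          exact hδ
        exact h5.eventually_lt_const h6
      have h5 : ∀ᶠ z in 𝓝[≠] (r : ℂ), g z = φ (y + z • a) := by
        refine (h4.filter_mono nhdsWithin_le_nhds).mono fun z hz => ?_
        have h6 : y + z • a ∈ Gd D (2 * δ) := (hth y (by rw [sub_self, norm_zero]; exact hδ.le) z hz.le).1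
        have h7 : Tendsto (fun n : Vd (k + 1) => φ (n + z • a)) (𝒰 : Filter (Vd (k + 1))) (𝓝 (g z)) :=
          hlm z (gd_notMem (by positivity) h6) (fun _ => z) tendsto_const_nhds
        have h8 : Tendsto (fun n : Vd (k + 1) => φ (n + z • a)) (𝒰 : Filter (Vd (k + 1))) (𝓝 (φ (y + z • a))) := by
          have h9 := hcont (y + z • a) (tb_add hy (hE.mem z)) (gd_mono (by linarith only [hη, hηδ]) h6)
          refine h9.tendsto.comp (tendsto_nhdsWithin_iff.2 ⟨hy1.add_const _, hT.mono fun n hn => tb_add hn (hE.mem z)⟩)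
        exact tendsto_nhds_unique h7 h8
      exact h5.frequently
    have h4 := hlm 0 (by rwa [zero_smul, add_zero]) (fun _ => 0) tendsto_const_nhds
    rw [hgh] at h4
    simpa using h4
  · have h4 := hφz 0 z
    rw [Submodule.coe_zero, add_zero, p0] at h4
    exact h4

/-- two sheets which agree on one line agree -/
theorem sht_unique (S : DA X Λ u D B Bad a α c₀ C₀ ρ δ) (hE : CE X Λ u a b E) {φ ψ : Vd (k + 1) → MN N} (hφ : Sht X Λ u D a (Tb b E) φ) (hψ : Sht X Λ u D a (Tb b E) ψ)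
    {y : Vd (k + 1)} (hy : y ∈ Tb b E) (h : ∀ z : ℂ, φ (y + z • a) = ψ (y + z • a)) : ∀ y' ∈ Tb b E, φ y' = ψ y' := by
  intro y' hy'
  have hX := S.geo.cone
  have hd : y' - y ∈ E := by
    have h1 : y' - y = (y' - b) - (y - b) := by abel
    rw [h1]
    exact E.sub_mem hy' hy
  have hT : ∀ t : ℝ, y + t • (y' - y) ∈ Tb b E := fun t => tb_add hy (E.smul_mem t hd)
  have hc : Continuous fun t : ℝ => y + t • (y' - y) := continuous_const.add (continuous_id.smul continuous_const)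
  let A : Set ℝ := {t | ∀ z : ℂ, φ (y + t • (y' - y) + z • a) = ψ (y + t • (y' - y) + z • a)}
  have hA0 : (0 : ℝ) ∈ A := by
    intro z
    rw [zero_smul, add_zero]
    exact h z
  have hopen : IsOpen A := by
    rw [isOpen_iff_mem_nhds]
    intro t ht
    rw [mem_iff_ultrafilter]
    intro 𝒰 h𝒰
    have hy1 : Tendsto (fun s : ℝ => y + s • (y' - y)) (𝒰 : Filter ℝ) (𝓝 (y + t • (y' - y))) := (hc.tendsto t).mono_left h𝒰
    have l1 := sht_lm S hE hφ hy1 (Eventually.of_forall hT) (hT t)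
    have l2 := sht_lm S hE hψ hy1 (Eventually.of_forall hT) (hT t)
    have e : (fun z : ℂ => ψ (y + t • (y' - y) + z • a)) = fun z => φ (y + t • (y' - y) + z • a) := funext fun z => (ht z).symm
    rw [e] at l2
    have h1 := lm_sep S hy1 (f := fun s z => φ (y + s • (y' - y) + z • a)) (g := fun s z => ψ (y + s • (y' - y) + z • a))
      (Eventually.of_forall fun s => hφ.line _ (hT s)) (Eventually.of_forall fun s => hψ.line _ (hT s)) (hφ.line _ (hT t)) l1 l2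
    exact h1.mono fun s hs z => congrFun hs z
  have hclosed : IsClosed A := by
    rw [isClosed_iff_ultrafilter]
    intro t 𝒰 h𝒰 hAU
    have hy1 : Tendsto (fun s : ℝ => y + s • (y' - y)) (𝒰 : Filter ℝ) (𝓝 (y + t • (y' - y))) := (hc.tendsto t).mono_left h𝒰
    have l1 := sht_lm S hE hφ hy1 (Eventually.of_forall hT) (hT t)
    have l2 := sht_lm S hE hψ hy1 (Eventually.of_forall hT) (hT t)
    have l3 : Lm D a (𝒰 : Filter ℝ) (y + t • (y' - y)) (fun s z => φ (y + s • (y' - y) + z • a)) fun z => ψ (y + t • (y' - y) + z • a) := by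
      intro z hz w hw
      refine (l2 z hz w hw).congr' ?_
      have hAU' : ∀ᶠ s in (𝒰 : Filter ℝ), s ∈ A := hAU
      exact hAU'.mono fun s hs => (hs (w s)).symm
    have h1 := Lm.unique hX S.lg l1 l3 (hφ.line _ (hT t)) (hψ.line _ (hT t))
    exact fun z => congrFun h1 z
  have hAu : A = Set.univ := IsClopen.eq_univ ⟨hclosed, hopen⟩ ⟨0, hA0⟩
  have h1 : (1 : ℝ) ∈ A := hAu ▸ Set.mem_univ 1
  have h2 := h1 0
  rw [one_smul, zero_smul, add_zero, add_sub_cancel] at h2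
  exact h2

/-- the sheets are finitely many -/
theorem sht_finite (S : DA X Λ u D B Bad a α c₀ C₀ ρ δ) (hE : CE X Λ u a b E) : ∃ SS : Set (Vd (k + 1) → MN N), SS.Finite ∧
    (∀ φ ∈ SS, Sht X Λ u D a (Tb b E) φ) ∧ (∀ ψ, Sht X Λ u D a (Tb b E) ψ → ∃ φ ∈ SS, ∀ y ∈ Tb b E, ψ y = φ y) ∧
    ∀ φ ∈ SS, ∀ ψ ∈ SS, (∃ y ∈ Tb b E, ∀ z : ℂ, φ (y + z • a) = ψ (y + z • a)) → φ = ψ := by
  classical
  have hb : b ∈ Tb b E := by
    show b - b ∈ E
    rw [sub_self]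
    exact E.zero_mem
  have hfin := hc_finite S b
  choose! Φ h1 h2 using fun (f : ℂ → MN N) (hf : f ∈ Hc X Λ u a b) => exists_sht S hE (b := b) hf
  refine ⟨Φ '' Hc X Λ u a b, hfin.image Φ, ?_, fun ψ hψ => ?_, ?_⟩
  · rintro _ ⟨f, hf, rfl⟩
    exact h1 f hf
  · have h3 := hψ.line b hb
    refine ⟨_, ⟨_, h3, rfl⟩, ?_⟩
    exact sht_unique S hE hψ (h1 _ h3) hb fun z => (h2 _ h3 z).symm
  · rintro _ ⟨f, hf, rfl⟩ _ ⟨g, hg, rfl⟩ ⟨y, hy, h⟩
    have h3 := sht_unique S hE (h1 f hf) (h1 g hg) hy h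
    have h4 : f = g := by
      funext z
      rw [← h2 f hf z, ← h2 g hg z]
      exact h3 _ (tb_add hb (hE.mem z))
    rw [h4]

end Pool.Agent.G3.A

end
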