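import Pool.Agent.H94.G5T.M25
import Pool.Agent.H94.G5T.M35
import Pool.Agent.H94.G5T.M37
import Pool.Agent.H94.G5T.M41
import Pool.Agent.H94.G5T.M45

/-! The parts of this file: AD.F.Rem, G4.C.Bai. -/

section

/-!
# AD F Rem: removable singularities

`removable` (P4).  Let `c₀ = κ`.  For `0 < r < s₁` `annulus_approx` gives `g` holomorphic on `ℂ \ {0}` and `b` with `|Re g + b log ‖z‖ - c₀ log ‖F‖| ≤ 1` on `‖z‖ = r` and `‖z‖ = r'` (`s₂ < r' < r₁`); `ω = Re g + b log ‖z‖`.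
(i) `‖F‖^c₀ e^(-ω) ≤ e` on the annulus (`sub_le`; `Sub.norm_rpow`: exponent `c₀ fs²/2 ≥ 0`; `e^(-ω) = ‖e^(-g)‖ ‖z‖^(-b)`, locally the norm of a holomorphic function).
(ii) `R ‖F‖^(-c₀) e^ω ≤ e` on the annulus (`R` has the exponent `κ fs²`, `‖F‖^(-c₀)` has `-c₀ fs²/2`: sum `≥ 0`).
On the circles `‖z‖ = s₁`, `s₂` `R` is bounded below, so `ω` is bounded there by a constant `A` which does not depend on `r`; the mean of `Re g` over `‖z‖ = s` does not depend on `s`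
(`Complex.circleIntegral_sub_center_inv_smul_eq_of_differentiable_on_annulus_off_countable`), so `|b| log (s₂/s₁) ≤ 2 A`: `|b| ≤ B`.  Take `m ≥ B/c₀` and `θ z = z^m exp (-g z/c₀)`:
`‖θ F‖ ≤ e^(1/c₀) ‖z‖^(m + b/c₀) ≤ e^(1/c₀)` on `r ≤ ‖z‖ ≤ r'`, and at `z₁ = s₁`: `‖θ F‖ ≥ (R(z₁)/e)^(1/c₀) s₁^(m + B/c₀)`.  `H36.BP.puncture_limit`.

`removable_of_small` (P1).  By the hypothesis `diam {pr (F z) | ‖z‖ = s} → 0` for `s → 0`.  `pr '' sphere` is compact: choose `s_k → 0` with `pr (F z) → pr p` uniformly on `‖z‖ = s_k`, `‖p‖ = 1`.  `h = F/⟨p, F⟩` is holomorphic where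
`pd (F z) p < 1`.  Suppose that for arbitrarily small `s` the circle `‖z‖ = s` is not mapped into `pd (·, p) < 1/4`.  For large `k` let `s' < s_k` be the largest such radius.  On the closed annulus `s' ≤ ‖z‖ ≤ s_k`
`pd ≤ 1/4 + small`, so the means of `h` over `‖z‖ = s'` and `‖z‖ = s_k` are equal.  But `h` is almost constant on both circles, near `p` on the second and at distance `≥ c` from `p` on the first: contradiction.  So `h` is bounded near `0`,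
Riemann: `Q` = the extension of `h` (`⟨p, h⟩ = 1`, so `Q 0 ≠ 0`).
-/

set_option autoImplicit false

open Topology Filter Metric

namespace Pool.Agent.AD.F

open Pool.Agent.H36.BP (EN fs wd Sub Curve)
open Pool.Agent.H14.PP (IsCone Tan CurveAt)
open Pool.Agent.H22.W (PseudoLength)
open Pool.Agent.H62.EF (pr Lat)

variable {N : ℕ} {X : Set (EN N)}

/-- the averages over two circles are equal -/
private theorem rem_avg {E : Type*} [NormedAddCommGroup E] [NormedSpace ℂ E] [CompleteSpace E] {f : ℂ → E} {r R : ℝ}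
    (h0 : 0 < r) (hle : r ≤ R) (hd : ∀ z : ℂ, r ≤ ‖z‖ → ‖z‖ ≤ R → DifferentiableAt ℂ f z) :
    Real.circleAverage f 0 R = Real.circleAverage f 0 r := by
  rw [Real.circleAverage_eq_circleIntegral h0.ne', Real.circleAverage_eq_circleIntegral (h0.trans_le hle).ne']
  congr 1
  refine Complex.circleIntegral_sub_center_inv_smul_eq_of_differentiable_on_annulus_off_countable h0 hle
    (s := ∅) Set.countable_empty ?_ ?_
  · intro z hz
    have h1 : ‖z‖ ≤ R := by simpa using hz.1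
    have h2 : r ≤ ‖z‖ := by simpa using hz.2
    exact (hd z h2 h1).continuousAt.continuousWithinAt
  · intro z hz
    have h1 : ‖z‖ < R := by simpa using hz.1.1
    have h2 : r < ‖z‖ := by simpa using hz.1.2
    exact hd z h2.le h1.le

/-- the average is near a point if the values are -/
private theorem rem_avg_le {E : Type*} [NormedAddCommGroup E] [NormedSpace ℝ E] [CompleteSpace E] {f : ℂ → E} {c : E} {R A : ℝ}
    (hR : 0 < R) (hf : ContinuousOn f (sphere 0 R)) (h : ∀ z : ℂ, ‖z‖ = R → ‖f z - c‖ ≤ A) :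
    ‖Real.circleAverage f 0 R - c‖ ≤ A := by
  have hci : CircleIntegrable f 0 R := hf.circleIntegrable hR.le
  have hcc : CircleIntegrable (fun _ : ℂ => c) 0 R := circleIntegrable_const c 0 R
  have h1 : Real.circleAverage (fun z => f z - c) 0 R = Real.circleAverage f 0 R - c := by
    rw [Real.circleAverage_fun_sub hci hcc, Real.circleAverage_const]
  rw [← h1, Real.circleAverage_def, norm_smul, norm_inv, Real.norm_of_nonneg (by positivity)]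
  have h2 : ‖∫ θ in (0 : ℝ)..2 * Real.pi, (f (circleMap 0 R θ) - c)‖ ≤ A * |2 * Real.pi - 0| := by
    refine intervalIntegral.norm_integral_le_of_norm_le_const fun θ _ => h _ ?_
    rw [norm_circleMap_zero, abs_of_pos hR]
  rw [sub_zero, abs_of_pos (by positivity)] at h2
  rw [inv_mul_le_iff₀ (by positivity)]
  linarith

/-- the circles have small diameter -/
private theorem rem_circle {F : ℂ → EN N} (hF : DifferentiableOn ℂ F (ball 0 1 \ {0})) (hF0 : ∀ z ∈ ball (0 : ℂ) 1 \ {0}, F z ≠ 0)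
    (h : ∀ δ : ℝ, 0 < δ → ∃ s : ℝ, 0 < s ∧ ∀ z : ℂ, 0 < ‖z‖ → ‖z‖ < s → ‖z‖ * fs (F z) (deriv F z) ≤ δ) {η : ℝ} (hη : 0 < η) :
    ∃ s : ℝ, 0 < s ∧ s ≤ 1 ∧ ∀ z w : ℂ, 0 < ‖z‖ → ‖z‖ < s → ‖z‖ = ‖w‖ → pd (F z) (F w) ≤ η := by
  obtain ⟨s, hs, hs'⟩ := h (η / 16) (by positivity)
  refine ⟨min s 1, lt_min hs one_pos, min_le_right _ _, ?_⟩
  intro z w hz0 hzs hzw
  obtain ⟨t, ht⟩ : ∃ t : ℝ, t = min s 1 := ⟨_, rfl⟩
  rw [← ht] at hzs
  have ht0 : 0 < t := hz0.trans hzs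
  have hts : t ≤ s := ht ▸ min_le_left _ _
  have ht1 : t ≤ 1 := ht ▸ min_le_right _ _
  obtain ⟨U, hU⟩ : ∃ U : Set ℂ, U = {ζ : ℂ | ζ.re < Real.log t} := ⟨_, rfl⟩
  have hUo : IsOpen U := by
    rw [hU]
    exact isOpen_lt Complex.continuous_re continuous_const
  have hUc : Convex ℝ U := by
    rw [hU]
    exact convex_halfSpace_re_lt _
  have hexp : ∀ ζ ∈ U, 0 < ‖Complex.exp ζ‖ ∧ ‖Complex.exp ζ‖ < t := by
    intro ζ hζ
    rw [Complex.norm_exp]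
    refine ⟨Real.exp_pos _, ?_⟩
    rw [hU] at hζ
    have h2 : ζ.re < Real.log t := hζ
    calc Real.exp ζ.re < Real.exp (Real.log t) := Real.exp_lt_exp.2 h2
      _ = t := Real.exp_log ht0
  have hopen : IsOpen (ball (0 : ℂ) 1 \ {0}) := isOpen_ball.sdiff isClosed_singleton
  have hmem : ∀ ζ ∈ U, Complex.exp ζ ∈ ball (0 : ℂ) 1 \ {0} := by
    intro ζ hζ
    refine ⟨?_, Complex.exp_ne_zero _⟩
    rw [mem_ball_zero_iff]
    exact (hexp ζ hζ).2.trans_le ht1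
  have hG : DifferentiableOn ℂ (fun ζ => F (Complex.exp ζ)) U :=
    hF.comp Complex.differentiable_exp.differentiableOn hmem
  have hGfs : ∀ ζ ∈ U, fs (F (Complex.exp ζ)) (deriv (fun ζ => F (Complex.exp ζ)) ζ) ≤ η / 16 := by
    intro ζ hζ
    rw [fs_comp hopen hF Complex.differentiableAt_exp (hmem ζ hζ), Complex.deriv_exp]
    exact hs' _ (hexp ζ hζ).1 ((hexp ζ hζ).2.trans_le hts)
  have hL := Pool.Agent.H62.EF.pr_lipschitz hUo hUc hG (fun ζ hζ => hF0 _ (hmem ζ hζ)) hGfs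
  have hz : z ≠ 0 := norm_pos_iff.1 hz0
  have hw : w ≠ 0 := norm_pos_iff.1 (hzw ▸ hz0)
  have hzU : Complex.log z ∈ U := by
    rw [hU]
    show (Complex.log z).re < Real.log t
    rw [Complex.log_re]
    exact Real.log_lt_log hz0 hzs
  have hwU : Complex.log w ∈ U := by
    rw [hU]
    show (Complex.log w).re < Real.log t
    rw [Complex.log_re, ← hzw]
    exact Real.log_lt_log hz0 hzs
  have h2 := hL _ hzU _ hwU
  simp only [Complex.exp_log hz, Complex.exp_log hw] at h2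
  have h3 : ‖Complex.log z - Complex.log w‖ ≤ 8 := by
    have h4 : Complex.log z - Complex.log w = ((Complex.arg z - Complex.arg w : ℝ) : ℂ) * Complex.I := by
      apply Complex.ext
      · rw [Complex.sub_re, Complex.log_re, Complex.log_re, hzw]
        simp
      · rw [Complex.sub_im, Complex.log_im, Complex.log_im]
        simp
    rw [h4, norm_mul, Complex.norm_I, mul_one, Complex.norm_real, Real.norm_eq_abs, abs_le]
    have h5 := Complex.neg_pi_lt_arg z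
    have h6 := Complex.arg_le_pi z
    have h7 := Complex.neg_pi_lt_arg w
    have h8 := Complex.arg_le_pi w
    have h9 := Real.pi_le_four
    constructor <;> linarith
  show dist (pr (F z)) (pr (F w)) ≤ η
  calc dist (pr (F z)) (pr (F w)) ≤ 2 * (η / 16) * ‖Complex.log z - Complex.log w‖ := h2
    _ ≤ 2 * (η / 16) * 8 := mul_le_mul_of_nonneg_left h3 (by positivity)
    _ = η := by ring

/-- two vectors with the same scalar product with `p` -/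
private theorem rem_wd {p x y : EN N} (hp : ‖p‖ = 1) (hx : (inner ℂ p x : ℂ) = 1) (hy : (inner ℂ p y : ℂ) = 1) : ‖x - y‖ ≤ wd x y := by
  have hxy : (inner ℂ p (y - x) : ℂ) = 0 := by
    rw [inner_sub_right, hx, hy, sub_self]
  obtain ⟨u, hu⟩ : ∃ u : EN N, u = y - x := ⟨_, rfl⟩
  rw [← hu] at hxy
  have h1 : wd x y = wd x u := by
    have h2 := Pool.Agent.H36.BP.wd_inv x u 1 1
    have h3 : (1 : ℂ) • u + (1 : ℂ) • x = y := by
      rw [one_smul, one_smul, hu, sub_add_cancel]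
    rw [h3, one_smul, norm_one, one_pow, one_mul] at h2
    exact h2
  obtain ⟨x', hx'⟩ : ∃ x' : EN N, x' = x - p := ⟨_, rfl⟩
  have hpp : (inner ℂ p p : ℂ) = 1 := by
    rw [inner_self_eq_norm_sq_to_K, hp]
    simp
  have hpx' : (inner ℂ p x' : ℂ) = 0 := by
    rw [hx', inner_sub_right, hx, hpp, sub_self]
  have hx2 : x = p + x' := by rw [hx']; abel
  have h4 : ‖x‖ ^ 2 = 1 + ‖x'‖ ^ 2 := by
    rw [hx2, norm_add_sq (𝕜 := ℂ), hpx', hp]
    simp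
  have h5 : (inner ℂ x u : ℂ) = inner ℂ x' u := by
    rw [hx2, inner_add_left, hxy, zero_add]
  have h6 : ‖(inner ℂ x' u : ℂ)‖ ≤ ‖x'‖ * ‖u‖ := norm_inner_le_norm _ _
  have h7 : ‖u‖ ^ 2 ≤ wd x u ^ 2 := by
    rw [Pool.Agent.H62.EF.wd_sq, h4, h5]
    have h8 : ‖(inner ℂ x' u : ℂ)‖ ^ 2 ≤ (‖x'‖ * ‖u‖) ^ 2 := pow_le_pow_left₀ (norm_nonneg _) h6 2
    linarith
  have h8 : ‖x - y‖ = ‖u‖ := by rw [hu, norm_sub_rev]
  rw [h8, h1]
  exact abs_le_of_sq_le_sq' h7 (Real.sqrt_nonneg _) |>.2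

/-- the normalised curve -/
private theorem rem_norm {p x : EN N} (hp : ‖p‖ = 1) (hx : x ≠ 0) {d : ℝ} (hd0 : 0 ≤ d) (hd : d ≤ 1 / 2) (h : pd x p ≤ d) :
    (inner ℂ p x : ℂ) ≠ 0 ∧ ‖(inner ℂ p x : ℂ)⁻¹ • x‖ ≤ 5 / 4 ∧ 1 ≤ ‖(inner ℂ p x : ℂ)⁻¹ • x‖ ∧
      (inner ℂ p ((inner ℂ p x : ℂ)⁻¹ • x) : ℂ) = 1 := by
  have hp0 : p ≠ 0 := by
    intro h0
    rw [h0, norm_zero] at hp
    exact zero_ne_one hp
  have hxn : 0 < ‖x‖ := norm_pos_iff.2 hx
  have hi := Pool.Agent.H62.EF.norm_inner_sq hp0 hx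
  have hpd : dist (pr p) (pr x) ≤ d := by
    rw [dist_comm]
    exact h
  rw [hp] at hi
  have hpd2 : dist (pr p) (pr x) ^ 2 ≤ 1 / 4 := by
    have h2 : dist (pr p) (pr x) ≤ 1 / 2 := hpd.trans hd
    have h3 : 0 ≤ dist (pr p) (pr x) := dist_nonneg
    linarith [pow_le_pow_left₀ h3 h2 2]
  have h4 : 7 / 8 * ‖x‖ ^ 2 ≤ ‖(inner ℂ p x : ℂ)‖ ^ 2 := by
    rw [hi]
    linarith [mul_le_mul_of_nonneg_right hpd2 (sq_nonneg ‖x‖)]
  have h5 : 0 < ‖(inner ℂ p x : ℂ)‖ := by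
    rcases (norm_nonneg (inner ℂ p x : ℂ)).lt_or_eq with h6 | h6
    · exact h6
    · rw [← h6] at h4
      have : 0 < ‖x‖ ^ 2 := by positivity
      linarith
  have hne : (inner ℂ p x : ℂ) ≠ 0 := norm_pos_iff.1 h5
  refine ⟨hne, ?_, ?_, ?_⟩
  · rw [norm_smul, norm_inv, inv_mul_le_iff₀ h5]
    have h6 : ‖x‖ ^ 2 ≤ (‖(inner ℂ p x : ℂ)‖ * (5 / 4)) ^ 2 := by
      rw [mul_pow]
      linarith [sq_nonneg ‖x‖]
    exact abs_le_of_sq_le_sq' h6 (by positivity) |>.2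
  · rw [norm_smul, norm_inv, le_inv_mul_iff₀ h5, mul_one]
    have h6 : ‖(inner ℂ p x : ℂ)‖ ≤ ‖p‖ * ‖x‖ := norm_inner_le_norm _ _
    rw [hp, one_mul] at h6
    exact h6
  · rw [inner_smul_right, inv_mul_cancel₀ hne]

/-- **(P1)** -/
theorem removable_of_small {F : ℂ → EN N} (hF : DifferentiableOn ℂ F (ball 0 1 \ {0})) (hF0 : ∀ z ∈ ball (0 : ℂ) 1 \ {0}, F z ≠ 0)
    (h : ∀ δ : ℝ, 0 < δ → ∃ s : ℝ, 0 < s ∧ ∀ z : ℂ, 0 < ‖z‖ → ‖z‖ < s → ‖z‖ * fs (F z) (deriv F z) ≤ δ) :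
    ∃ Q : ℂ → EN N, AnalyticAt ℂ Q 0 ∧ Q 0 ≠ 0 ∧ ∀ᶠ z in 𝓝[≠] (0 : ℂ), ∃ k : ℂ, k ≠ 0 ∧ Q z = k • F z := by
  have hopen : IsOpen (ball (0 : ℂ) 1 \ {0}) := isOpen_ball.sdiff isClosed_singleton
  have hmem : ∀ z : ℂ, 0 < ‖z‖ → ‖z‖ < 1 → z ∈ ball (0 : ℂ) 1 \ {0} := by
    intro z hz hz'
    refine ⟨?_, norm_pos_iff.1 hz⟩
    rw [mem_ball_zero_iff]
    exact hz'
  -- a limit point
  obtain ⟨p, hp, hlim⟩ : ∃ p : EN N, ‖p‖ = 1 ∧ ∀ η : ℝ, 0 < η → ∀ s : ℝ, 0 < s → ∃ z : ℂ, 0 < ‖z‖ ∧ ‖z‖ < s ∧ ‖z‖ < 1 ∧ pd (F z) p ≤ η := by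
    have hk : ∀ k : ℕ, 0 < ‖(((1 : ℝ) / ((k : ℝ) + 2) : ℝ) : ℂ)‖ ∧ ‖(((1 : ℝ) / ((k : ℝ) + 2) : ℝ) : ℂ)‖ = 1 / ((k : ℝ) + 2) ∧
        ‖(((1 : ℝ) / ((k : ℝ) + 2) : ℝ) : ℂ)‖ < 1 := by
      intro k
      have h2 : ‖(((1 : ℝ) / ((k : ℝ) + 2) : ℝ) : ℂ)‖ = 1 / ((k : ℝ) + 2) := by
        rw [Complex.norm_real, Real.norm_of_nonneg (by positivity)]
      have hk0 : (0 : ℝ) ≤ k := Nat.cast_nonneg k
      refine ⟨by rw [h2]; positivity, h2, ?_⟩
      rw [h2, div_lt_one (by positivity)]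
      linarith
    obtain ⟨x, hx⟩ : ∃ x : ℕ → EN N, x = fun k : ℕ => ((‖F (((1 : ℝ) / ((k : ℝ) + 2) : ℝ) : ℂ)‖⁻¹ : ℝ) : ℂ) • F (((1 : ℝ) / ((k : ℝ) + 2) : ℝ) : ℂ) :=
      ⟨_, rfl⟩
    have hxn : ∀ k, x k ∈ sphere (0 : EN N) 1 := by
      intro k
      have h2 : 0 < ‖F (((1 : ℝ) / ((k : ℝ) + 2) : ℝ) : ℂ)‖ := norm_pos_iff.2 (hF0 _ (hmem _ (hk k).1 (hk k).2.2))
      rw [mem_sphere_zero_iff_norm, hx]
      show ‖((‖F (((1 : ℝ) / ((k : ℝ) + 2) : ℝ) : ℂ)‖⁻¹ : ℝ) : ℂ) • F (((1 : ℝ) / ((k : ℝ) + 2) : ℝ) : ℂ)‖ = 1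
      rw [norm_smul, Complex.norm_real, norm_inv, norm_norm, inv_mul_cancel₀ h2.ne']
    obtain ⟨p, hp, φ, hφ, hφl⟩ := (isCompact_sphere (0 : EN N) 1).tendsto_subseq hxn
    have hp1 : ‖p‖ = 1 := by rwa [mem_sphere_zero_iff_norm] at hp
    refine ⟨p, hp1, fun η hη s hs => ?_⟩
    have hp0 : p ≠ 0 := norm_pos_iff.1 (by rw [hp1]; exact one_pos)
    have h2 : Tendsto (fun k => pr (x (φ k))) atTop (𝓝 (pr p)) :=
      (Pool.Agent.H62.EF.continuousAt_pr hp0).tendsto.comp hφl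
    have h3 : ∀ᶠ k in atTop, dist (pr (x (φ k))) (pr p) < η := (tendsto_iff_dist_tendsto_zero.1 h2).eventually_lt_const hη
    have h4 : Tendsto (fun k : ℕ => (1 : ℝ) / ((φ k : ℝ) + 2)) atTop (𝓝 0) := by
      have h5 : Tendsto (fun n : ℕ => (1 : ℝ) / ((n : ℝ) + 2)) atTop (𝓝 0) :=
        Tendsto.div_atTop tendsto_const_nhds (tendsto_natCast_atTop_atTop.atTop_add tendsto_const_nhds)
      exact h5.comp hφ.tendsto_atTop
    obtain ⟨k, hk1, hk2⟩ := (h3.and (h4.eventually_lt_const hs)).exists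
    refine ⟨_, (hk (φ k)).1, by rw [(hk (φ k)).2.1]; exact hk2, (hk (φ k)).2.2, ?_⟩
    have h6 : 0 < ‖F (((1 : ℝ) / ((φ k : ℝ) + 2) : ℝ) : ℂ)‖ := norm_pos_iff.2 (hF0 _ (hmem _ (hk (φ k)).1 (hk (φ k)).2.2))
    have h7 : pr (x (φ k)) = pr (F (((1 : ℝ) / ((φ k : ℝ) + 2) : ℝ) : ℂ)) := by
      rw [hx]
      refine Pool.Agent.H62.EF.pr_smul _ ?_
      rw [Ne, Complex.ofReal_eq_zero]
      exact (inv_pos.2 h6).ne'
    rw [h7] at hk1
    exact hk1.le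
  have hp0 : p ≠ 0 := norm_pos_iff.1 (by rw [hp]; exact one_pos)
  obtain ⟨H, hH⟩ : ∃ H : ℂ → EN N, ∀ z, H z = (inner ℂ p (F z) : ℂ)⁻¹ • F z := ⟨_, fun _ => rfl⟩
  have hHd : ∀ z : ℂ, 0 < ‖z‖ → ‖z‖ < 1 → (inner ℂ p (F z) : ℂ) ≠ 0 → DifferentiableAt ℂ H z := by
    intro z hz hz' hne
    have h2 : DifferentiableAt ℂ F z := hF.differentiableAt (hopen.mem_nhds (hmem z hz hz'))
    have h3 : DifferentiableAt ℂ (fun z => (inner ℂ p (F z) : ℂ)) z := (innerSL ℂ p).differentiableAt.comp z h2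
    have h4 : H = fun z => (inner ℂ p (F z) : ℂ)⁻¹ • F z := funext hH
    rw [h4]
    exact (h3.inv hne).smul h2
  -- distances
  have hwd : ∀ z w : ℂ, 0 < ‖z‖ → ‖z‖ < 1 → 0 < ‖w‖ → ‖w‖ < 1 → pd (F z) p ≤ 1 / 2 → pd (F w) p ≤ 1 / 2 →
      ‖H z - H w‖ ≤ 3 * pd (F z) (F w) := by
    intro z w hz0 hz1 hw0 hw1 hzp hwp
    have hFz := hF0 _ (hmem z hz0 hz1)
    have hFw := hF0 _ (hmem w hw0 hw1)
    obtain ⟨a1, a2, a3, a4⟩ := rem_norm hp hFz (by norm_num) le_rfl hzp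
    obtain ⟨b1, b2, b3, b4⟩ := rem_norm hp hFw (by norm_num) le_rfl hwp
    rw [← hH] at a2 a3 a4 b2 b3 b4
    have c1 := rem_wd hp a4 b4
    have hHz : H z ≠ 0 := norm_pos_iff.1 (by linarith)
    have hHw : H w ≠ 0 := norm_pos_iff.1 (by linarith)
    have c2 := Pool.Agent.H62.EF.dist_pr hHz hHw
    have c3 : pr (H z) = pr (F z) := by
      rw [hH]
      exact Pool.Agent.H62.EF.pr_smul _ (inv_ne_zero a1)
    have c4 : pr (H w) = pr (F w) := by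
      rw [hH]
      exact Pool.Agent.H62.EF.pr_smul _ (inv_ne_zero b1)
    rw [c3, c4] at c2
    have c5 : 0 < ‖H z‖ * ‖H w‖ := mul_pos (by linarith) (by linarith)
    have c6 : wd (H z) (H w) / (‖H z‖ * ‖H w‖) ≤ pd (F z) (F w) := by
      show _ ≤ dist (pr (F z)) (pr (F w))
      rw [c2]
      have c7 : 0 ≤ wd (H z) (H w) / (‖H z‖ * ‖H w‖) := div_nonneg (Real.sqrt_nonneg _) c5.le
      have c8 : (1 : ℝ) ≤ Real.sqrt 2 := Real.one_le_sqrt.2 (by norm_num)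
      linarith [mul_le_mul_of_nonneg_right c8 c7]
    rw [div_le_iff₀ c5] at c6
    have c9 : ‖H z‖ * ‖H w‖ ≤ 3 := by linarith [mul_le_mul a2 b2 (norm_nonneg _) (by norm_num : (0 : ℝ) ≤ 5 / 4)]
    have c10 : 0 ≤ pd (F z) (F w) := dist_nonneg
    linarith [mul_le_mul_of_nonneg_left c9 c10]
  have hwp : ∀ z : ℂ, 0 < ‖z‖ → ‖z‖ < 1 → pd (F z) p ≤ 1 / 2 → ‖H z - p‖ ≤ 3 * pd (F z) p ∧ pd (F z) p ≤ 2 * ‖H z - p‖ := by
    intro z hz0 hz1 hzp
    have hFz := hF0 _ (hmem z hz0 hz1)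
    obtain ⟨a1, a2, a3, a4⟩ := rem_norm hp hFz (by norm_num) le_rfl hzp
    rw [← hH] at a2 a3 a4
    have hpp : (inner ℂ p p : ℂ) = 1 := by
      rw [inner_self_eq_norm_sq_to_K, hp]
      simp
    have c1 := rem_wd hp a4 hpp
    have hHz : H z ≠ 0 := norm_pos_iff.1 (by linarith)
    have c2 := Pool.Agent.H62.EF.dist_pr hHz hp0
    have c3 : pr (H z) = pr (F z) := by
      rw [hH]
      exact Pool.Agent.H62.EF.pr_smul _ (inv_ne_zero a1)
    rw [c3, hp, mul_one] at c2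
    have c5 : 0 < ‖H z‖ := by linarith
    have c8 : (1 : ℝ) ≤ Real.sqrt 2 := Real.one_le_sqrt.2 (by norm_num)
    have c9 : Real.sqrt 2 ≤ 2 := Real.sqrt_le_iff.2 ⟨by norm_num, by norm_num⟩
    have c7 : 0 ≤ wd (H z) p / ‖H z‖ := div_nonneg (Real.sqrt_nonneg _) c5.le
    constructor
    · have c6 : wd (H z) p / ‖H z‖ ≤ pd (F z) p := by
        show _ ≤ dist (pr (F z)) (pr p)
        rw [c2]
        linarith [mul_le_mul_of_nonneg_right c8 c7]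
      rw [div_le_iff₀ c5] at c6
      have c10 : 0 ≤ pd (F z) p := dist_nonneg
      linarith [mul_le_mul_of_nonneg_left a2 c10]
    · have d1 : wd (H z) p ≤ ‖H z - p‖ := by
        have d2 : wd (H z) p = wd p (H z - p) := by
          have d3 := Pool.Agent.H36.BP.wd_inv p (H z - p) 1 1
          have d4 : (1 : ℂ) • (H z - p) + (1 : ℂ) • p = H z := by
            rw [one_smul, one_smul, sub_add_cancel]
          rw [d4, one_smul, norm_one, one_pow, one_mul] at d3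
          rw [← d3]
          have e1 : wd (H z) p ^ 2 = wd p (H z) ^ 2 := by
            rw [Pool.Agent.H62.EF.wd_sq, Pool.Agent.H62.EF.wd_sq, norm_inner_symm, mul_comm]
          exact (pow_left_inj₀ (Real.sqrt_nonneg _) (Real.sqrt_nonneg _) two_ne_zero).1 e1
        rw [d2]
        have d5 : wd p (H z - p) ^ 2 ≤ ‖H z - p‖ ^ 2 := by
          rw [Pool.Agent.H62.EF.wd_sq, hp]
          have : 0 ≤ ‖(inner ℂ p (H z - p) : ℂ)‖ ^ 2 := by positivity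
          linarith
        exact abs_le_of_sq_le_sq' d5 (norm_nonneg _) |>.2
      show dist (pr (F z)) (pr p) ≤ _
      rw [c2]
      have d6 : wd (H z) p / ‖H z‖ ≤ ‖H z - p‖ := by
        rw [div_le_iff₀ c5]
        linarith [mul_le_mul_of_nonneg_left a3 (norm_nonneg (H z - p))]
      linarith [mul_le_mul_of_nonneg_right c9 c7]
  obtain ⟨s₀, hs₀, hs₀1, hdiam⟩ := rem_circle hF hF0 h (η := 1 / 100) (by norm_num)
  -- one circle
  obtain ⟨z₂, hz₂0, hz₂s, hz₂1, hz₂p⟩ := hlim (1 / 100) (by norm_num) s₀ hs₀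
  have hcirc : ∀ z : ℂ, ‖z‖ = ‖z₂‖ → pd (F z) p ≤ 1 / 50 := by
    intro z hz
    have h2 := hdiam z z₂ (by rw [hz]; exact hz₂0) (by rw [hz]; exact hz₂s) hz
    calc pd (F z) p ≤ pd (F z) (F z₂) + pd (F z₂) p := dist_triangle _ _ _
      _ ≤ 1 / 50 := by linarith
  have hpdc : ContinuousOn (fun z => pd (F z) p) (ball (0 : ℂ) 1 \ {0}) := by
    intro z hz
    refine ContinuousAt.continuousWithinAt ?_
    have h2 : ContinuousAt F z := (hF.differentiableAt (hopen.mem_nhds hz)).continuousAt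
    have h3 : ContinuousAt (fun z => pr (F z)) z := (Pool.Agent.H62.EF.continuousAt_pr (hF0 z hz)).comp h2
    exact h3.dist continuousAt_const
  have hall : ∀ z : ℂ, 0 < ‖z‖ → ‖z‖ ≤ ‖z₂‖ → pd (F z) p ≤ 1 / 4 := by
    intro z₀ hz₀ hz₀2
    by_contra hcon
    push Not at hcon
    obtain ⟨T, hT⟩ : ∃ T : Set ℂ, T = {z | ‖z₀‖ ≤ ‖z‖ ∧ ‖z‖ ≤ ‖z₂‖} := ⟨_, rfl⟩
    have hTc : IsCompact T := by
      rw [hT]
      refine (isCompact_closedBall (0 : ℂ) ‖z₂‖).of_isClosed_subset ?_ ?_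
      · exact (isClosed_le continuous_const continuous_norm).inter (isClosed_le continuous_norm continuous_const)
      · intro z hz
        simpa using hz.2
    have hTs : T ⊆ ball (0 : ℂ) 1 \ {0} := by
      rw [hT]
      exact fun z hz => hmem z (hz₀.trans_le hz.1) (hz.2.trans_lt hz₂1)
    have hT'c : IsCompact (T ∩ (fun z => pd (F z) p) ⁻¹' Set.Ici (1 / 4)) :=
      hTc.of_isClosed_subset ((hpdc.mono hTs).preimage_isClosed_of_isClosed hTc.isClosed isClosed_Ici) Set.inter_subset_left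
    have hz₀T : z₀ ∈ T ∩ (fun z => pd (F z) p) ⁻¹' Set.Ici (1 / 4) := by
      refine ⟨?_, hcon.le⟩
      rw [hT]
      exact ⟨le_rfl, hz₀2⟩
    obtain ⟨z₁, hz₁, hmax⟩ := hT'c.exists_isMaxOn ⟨z₀, hz₀T⟩ continuous_norm.continuousOn
    have hz₁T := hz₁.1
    rw [hT] at hz₁T
    have hz₁0 : 0 < ‖z₁‖ := hz₀.trans_le hz₁T.1
    have hz₁p : 1 / 4 ≤ pd (F z₁) p := hz₁.2
    have hz₁2 : ‖z₁‖ < ‖z₂‖ := by
      refine lt_of_le_of_ne hz₁T.2 fun he => ?_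
      have := hcirc z₁ he
      linarith
    have hout : ∀ z : ℂ, ‖z₁‖ < ‖z‖ → ‖z‖ ≤ ‖z₂‖ → pd (F z) p ≤ 1 / 4 := by
      intro z h1 h2
      by_contra h3
      push Not at h3
      have h4 : z ∈ T ∩ (fun z => pd (F z) p) ⁻¹' Set.Ici (1 / 4) := by
        refine ⟨?_, h3.le⟩
        rw [hT]
        exact ⟨hz₁T.1.trans h1.le, h2⟩
      have h5 : ‖z‖ ≤ ‖z₁‖ := hmax h4
      linarith
    have hann : ∀ z : ℂ, ‖z₁‖ ≤ ‖z‖ → ‖z‖ ≤ ‖z₂‖ → pd (F z) p ≤ 1 / 4 := by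
      intro z h1 h2
      rcases h1.lt_or_eq with h3 | h3
      · exact hout z h3 h2
      · have h4 : ContinuousAt (fun z => pd (F z) p) z :=
          (hpdc z (hmem z (h3 ▸ hz₁0) (h2.trans_lt hz₂1))).continuousAt (hopen.mem_nhds (hmem z (h3 ▸ hz₁0) (h2.trans_lt hz₂1)))
        have h5 : Tendsto (fun t : ℝ => (t : ℂ) * z) (𝓝[>] 1) (𝓝 z) := by
          apply tendsto_nhdsWithin_of_tendsto_nhds
          have hc : Continuous (fun t : ℝ => (t : ℂ) * z) := by fun_prop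
          have := hc.tendsto 1
          simpa using this
        have h6 : Tendsto (fun t : ℝ => t * ‖z‖) (𝓝[>] 1) (𝓝 ‖z‖) := by
          apply tendsto_nhdsWithin_of_tendsto_nhds
          have hc : Continuous (fun t : ℝ => t * ‖z‖) := by fun_prop
          have := hc.tendsto 1
          simpa using this
        have h7 : ‖z‖ < ‖z₂‖ := h3 ▸ hz₁2
        refine le_of_tendsto (h4.tendsto.comp h5) ?_
        filter_upwards [h6.eventually_lt_const h7, self_mem_nhdsWithin] with t ht1 ht2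
        have ht3 : (1 : ℝ) < t := ht2
        have ht4 : ‖(t : ℂ) * z‖ = t * ‖z‖ := by
          rw [norm_mul, Complex.norm_real, Real.norm_of_nonneg (by linarith)]
        refine hout _ ?_ ?_
        · rw [ht4, h3]
          have : 0 < ‖z‖ := h3 ▸ hz₁0
          linarith [mul_lt_mul_of_pos_right ht3 this]
        · rw [ht4]
          exact ht1.le
    have hHd' : ∀ z : ℂ, ‖z₁‖ ≤ ‖z‖ → ‖z‖ ≤ ‖z₂‖ → DifferentiableAt ℂ H z := by
      intro z h1 h2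
      have h3 := hann z h1 h2
      have h4 : 0 < ‖z‖ := hz₁0.trans_le h1
      have h5 : ‖z‖ < 1 := h2.trans_lt hz₂1
      exact hHd z h4 h5 (rem_norm hp (hF0 _ (hmem z h4 h5)) (by norm_num) le_rfl (h3.trans (by norm_num))).1
    have hav := rem_avg (f := H) hz₁0 hz₁2.le hHd'
    have hA2 : ‖Real.circleAverage H 0 ‖z₂‖ - p‖ ≤ 3 / 50 := by
      refine rem_avg_le hz₂0 ?_ ?_
      · intro z hz
        rw [mem_sphere_zero_iff_norm] at hz
        exact (hHd' z (by rw [hz]; exact hz₁2.le) hz.le).continuousAt.continuousWithinAt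
      · intro z hz
        have h1 := hcirc z hz
        have h2 := (hwp z (by rw [hz]; exact hz₂0) (by rw [hz]; exact hz₂1) (h1.trans (by norm_num))).1
        linarith
    have hA1 : ‖Real.circleAverage H 0 ‖z₁‖ - H z₁‖ ≤ 3 / 100 := by
      refine rem_avg_le hz₁0 ?_ ?_
      · intro z hz
        rw [mem_sphere_zero_iff_norm] at hz
        exact (hHd' z hz.ge (by rw [hz]; exact hz₁2.le)).continuousAt.continuousWithinAt
      · intro z hz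
        have h1 := hann z hz.ge (by rw [hz]; exact hz₁2.le)
        have h2 := hann z₁ le_rfl hz₁2.le
        have h3 := hwd z z₁ (by rw [hz]; exact hz₁0) (by rw [hz]; linarith) hz₁0 (by linarith) (h1.trans (by norm_num)) (h2.trans (by norm_num))
        have h4 := hdiam z z₁ (by rw [hz]; exact hz₁0) (by rw [hz]; linarith) hz
        linarith
    rw [hav] at hA2
    have h1 : ‖H z₁ - p‖ ≤ 3 / 50 + 3 / 100 := by
      have h2 : H z₁ - p = (Real.circleAverage H 0 ‖z₁‖ - p) - (Real.circleAverage H 0 ‖z₁‖ - H z₁) := by abel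
      rw [h2]
      exact (norm_sub_le _ _).trans (add_le_add hA2 hA1)
    have h2 := (hwp z₁ hz₁0 (by linarith) ((hann z₁ le_rfl hz₁2.le).trans (by norm_num))).2
    linarith
  -- the extension
  have hin : ∀ z ∈ ball (0 : ℂ) ‖z₂‖ \ {0}, 0 < ‖z‖ ∧ ‖z‖ ≤ ‖z₂‖ ∧ ‖z‖ < 1 := by
    intro z hz
    have h1 : ‖z‖ < ‖z₂‖ := by
      have := hz.1
      rwa [mem_ball_zero_iff] at this
    exact ⟨norm_pos_iff.2 hz.2, h1.le, h1.trans hz₂1⟩
  have hne : ∀ z ∈ ball (0 : ℂ) ‖z₂‖ \ {0}, (inner ℂ p (F z) : ℂ) ≠ 0 ∧ ‖H z‖ ≤ 5 / 4 ∧ (inner ℂ p (H z) : ℂ) = 1 := by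
    intro z hz
    obtain ⟨h1, h2, h3⟩ := hin z hz
    obtain ⟨a1, a2, a3, a4⟩ := rem_norm hp (hF0 _ (hmem z h1 h3)) (by norm_num) le_rfl ((hall z h1 h2).trans (by norm_num))
    rw [← hH] at a2 a4
    exact ⟨a1, a2, a4⟩
  have hball : ball (0 : ℂ) ‖z₂‖ ∈ 𝓝 (0 : ℂ) := ball_mem_nhds _ hz₂0
  have hext := Complex.differentiableOn_update_limUnder_of_bddAbove (f := H) hball
    (fun z hz => (hHd z (hin z hz).1 (hin z hz).2.2 (hne z hz).1).differentiableWithinAt)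
    (by
      refine ⟨5 / 4, ?_⟩
      rintro _ ⟨z, hz, rfl⟩
      exact (hne z hz).2.1)
  obtain ⟨Q, hQ⟩ : ∃ Q : ℂ → EN N, Q = Function.update H 0 (limUnder (𝓝[≠] (0 : ℂ)) H) := ⟨_, rfl⟩
  rw [← hQ] at hext
  have hQz : ∀ z : ℂ, z ≠ 0 → Q z = H z := by
    intro z hz
    rw [hQ]
    exact Function.update_of_ne hz _ _
  have hQa : AnalyticAt ℂ Q 0 := hext.analyticAt hball
  have hev : ∀ᶠ z in 𝓝[≠] (0 : ℂ), z ∈ ball (0 : ℂ) ‖z₂‖ \ {0} := by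
    have h1 : ball (0 : ℂ) ‖z₂‖ \ {0} = ball (0 : ℂ) ‖z₂‖ ∩ {0}ᶜ := rfl
    rw [h1]
    exact inter_mem (mem_nhdsWithin_of_mem_nhds hball) self_mem_nhdsWithin
  refine ⟨Q, hQa, ?_, ?_⟩
  · have h1 : Tendsto (fun z => (inner ℂ p (Q z) : ℂ)) (𝓝[≠] (0 : ℂ)) (𝓝 (inner ℂ p (Q 0))) := by
      have h2 : ContinuousAt (fun z => (inner ℂ p (Q z) : ℂ)) 0 := continuousAt_const.inner hQa.continuousAt
      exact h2.tendsto.mono_left nhdsWithin_le_nhds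
    have h3 : Tendsto (fun z => (inner ℂ p (Q z) : ℂ)) (𝓝[≠] (0 : ℂ)) (𝓝 1) := by
      refine tendsto_const_nhds.congr' ?_
      filter_upwards [hev] with z hz
      rw [hQz z hz.2, (hne z hz).2.2]
    have h4 := tendsto_nhds_unique h1 h3
    intro h5
    rw [h5, inner_zero_right] at h4
    exact zero_ne_one h4
  · filter_upwards [hev] with z hz
    refine ⟨(inner ℂ p (F z) : ℂ)⁻¹, inv_ne_zero (hne z hz).1, ?_⟩
    rw [hQz z hz.2, hH]

end Pool.Agent.AD.F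

end

section

/-!
# G4 C Bai: for every sheet there is a point of `T` near which the sheet extends to complex parameters, uniformly

`ue_open`: near a point of `T` off `D`, off `Nν`.  By `near_EAt` every slice `y ∈ T` near `y₀` extends at points `(s₁, z₁)` arbitrarily near `(0, 0)`, so at all points of a small ball, which contains points of a countable dense subset of
`ℝ × ℂ`.  Fix `v` with `‖nd v (φ y)‖ ≥ c` on `T ∩ ball y₀ r₀` (there `φ` is continuous), `f y j s z = nv v (φ (y + s ν + z a)) j`, `A p` = the set of the `y ∈ T`, `‖y - y₀‖ ≤ r₀ / 2`, with `‖cf (f y j) 0 (1 / (p + 1)) n z‖ ≤ p * (1 / 2) ^ n` for all `j`,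
`z ∈ closedBall 0 (1 / (p + 1))` and `n`: closed (`cf_param`).  The closed sets `{y ∈ T | y + s₁ ν + z₁ a ∈ A p}`, `(s₁, z₁)` in the countable dense set, `p : ℕ`, and `{y ∈ T | r ≤ ‖y - y₀‖}` cover `T` (`coef_of_ext`), a complete metric
space: by `dense_iUnion_interior_of_closed` there is `y ∈ ball y₀ r` in the interior (relative to `T`) of one of them, and `ext_of_coef` gives `EAtB` with uniform constants near `y₁ = y + s₁ ν + z₁ a`.
-/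

set_option autoImplicit false

open Topology Filter Metric

namespace Pool.Agent.G4.C

open Pool.Agent.H36.BP (EN fs wd)
open Pool.Agent.H14.PP (IsCone)
open Pool.Agent.H62.EF (MN pr)
open Pool.Agent.AD (Vd Chart Charts)
open Pool.Agent.TG (TMap Lat Str ms tl Gd)
open Pool.Agent.G3.A (Tb Hc NL)
open Pool.Agent.G3.C

variable {N k : ℕ} {X : Set (EN N)} {Λ : AddSubgroup (Vd (k + 1))} {u : EN N → Vd (k + 1)} {ν a b : Vd (k + 1)} {m : ℕ} {E : Submodule ℝ (Vd (k + 1))}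
  {D Bad Nν : Set (Vd (k + 1))} {SS : Set (Vd (k + 1) → MN N)} {φ : Vd (k + 1) → MN N}

private theorem nd_norm (v x : EN N) : ‖nd v (pr x)‖ * ‖x‖ ^ 2 = ‖(inner ℂ v x : ℂ)‖ ^ 2 := by
  have e : nd v (pr x) * ((‖x‖ ^ 2 : ℝ) : ℂ) = inner ℂ x v * inner ℂ v x := by
    rcases eq_or_ne x 0 with rfl | hx
    · simp
    have h1 : ((‖x‖ ^ 2 : ℝ) : ℂ) ≠ 0 := by
      have : ‖x‖ ≠ 0 := norm_ne_zero_iff.mpr hx
      exact_mod_cast pow_ne_zero 2 this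
    have hin : ∀ x y : EN N, (inner ℂ x y : ℂ) = ∑ j, (starRingEnd ℂ) (x j) * y j := by
      intro x y
      rw [PiLp.inner_apply]
      refine Finset.sum_congr rfl fun j _ => ?_
      rw [RCLike.inner_apply]
      ring
    have h2 : nd v (pr x) = inner ℂ x v * inner ℂ v x / ((‖x‖ ^ 2 : ℝ) : ℂ) := by
      unfold nd
      rw [hin x v, hin v x, Finset.sum_mul_sum, Finset.sum_comm, Finset.sum_div]
      refine Finset.sum_congr rfl fun i _ => ?_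
      rw [Finset.sum_div]
      refine Finset.sum_congr rfl fun j _ => ?_
      simp only [pr]
      ring
    rw [h2, div_mul_cancel₀ _ h1]
  have h3 := congrArg norm e
  rw [norm_mul, norm_mul, Complex.norm_real, Real.norm_of_nonneg (by positivity)] at h3
  rw [h3, ← norm_inner_symm, sq]

/-- the normalised vector is bounded -/
private theorem nv_bd {v x : EN N} {c : ℝ} (hc : 0 < c) (h : c ≤ ‖nd v (pr x)‖) (hx : x ≠ 0) : inner ℂ v x ≠ (0 : ℂ) ∧ ‖nv v (pr x)‖ ≤ (Real.sqrt c)⁻¹ := by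
  have h0 : inner ℂ v x ≠ (0 : ℂ) := (nd_pr_ne hx).1 fun h1 => by
    rw [h1, norm_zero] at h
    linarith
  have h1 := nd_norm v x
  have hsc : 0 < Real.sqrt c := Real.sqrt_pos.2 hc
  have h2 : Real.sqrt c * ‖x‖ ≤ ‖(inner ℂ v x : ℂ)‖ := by
    refine le_of_sq_le_sq ?_ (norm_nonneg _)
    rw [mul_pow, Real.sq_sqrt hc.le, ← h1]
    exact mul_le_mul_of_nonneg_right h (by positivity)
  refine ⟨h0, ?_⟩
  rw [nv_pr h0, norm_smul, norm_inv, ← div_eq_inv_mul, div_le_iff₀ (norm_pos_iff.2 h0), ← div_eq_inv_mul, le_div_iff₀ hsc, mul_comm]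
  exact h2

private theorem norm_le_sum (x : EN N) : ‖x‖ ≤ ∑ j, ‖x j‖ := by
  rw [EuclideanSpace.norm_eq, Real.sqrt_le_iff]
  exact ⟨Finset.sum_nonneg fun _ _ => norm_nonneg _, Finset.sum_sq_le_sq_sum_of_nonneg fun _ _ => norm_nonneg _⟩

/-- the coordinates of a family which extends, normalised -/
private theorem nrm {Φ : ℝ → ℂ → MN N} {s₀ : ℝ} {z₀ : ℂ} {ε : ℝ} (hε : 0 < ε) (hE : EAt Φ s₀ z₀ ε) {v : EN N} (hv : nd v (Φ s₀ z₀) ≠ 0) :
    ∃ ε' C : ℝ, 0 < ε' ∧ ∀ j, ∃ g : ℂ × ℂ → ℂ, DifferentiableOn ℂ g (ball ((s₀ : ℂ), z₀) ε') ∧ (∀ p ∈ ball ((s₀ : ℂ), z₀) ε', ‖g p‖ ≤ C) ∧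
      ∀ (s : ℝ) (z : ℂ), ((s : ℂ), z) ∈ ball ((s₀ : ℂ), z₀) ε' → g (s, z) = nv v (Φ s z) j := by
  obtain ⟨F, hF, hF0, hFΦ⟩ := hE
  have hm := mem_ball_self (x := ((s₀ : ℂ), z₀)) hε
  have h0 : inner ℂ v (F ((s₀ : ℂ), z₀)) ≠ (0 : ℂ) := (nd_pr_ne (hF0 _ hm)).1 (by rw [← hFΦ s₀ z₀ hm]; exact hv)
  have hFc : ContinuousAt F ((s₀ : ℂ), z₀) := (hF.differentiableAt (isOpen_ball.mem_nhds hm)).continuousAt
  have hin : ContinuousAt (fun p => ‖(inner ℂ v (F p) : ℂ)‖) ((s₀ : ℂ), z₀) := ((innerSL ℂ v).continuous.continuousAt.comp hFc).norm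
  have hlt : ‖(inner ℂ v (F ((s₀ : ℂ), z₀)) : ℂ)‖ / 2 < ‖(inner ℂ v (F ((s₀ : ℂ), z₀)) : ℂ)‖ := by
    have := norm_pos_iff.2 h0
    linarith
  have hev := (hin.eventually (lt_mem_nhds hlt)).and ((hFc.norm.eventually (gt_mem_nhds (lt_add_one ‖F ((s₀ : ℂ), z₀)‖))).and (ball_mem_nhds ((s₀ : ℂ), z₀) hε))
  obtain ⟨ε', hε', hb⟩ := Metric.eventually_nhds_iff_ball.mp hev
  have hκ : 0 < ‖(inner ℂ v (F ((s₀ : ℂ), z₀)) : ℂ)‖ / 2 := by
    have := norm_pos_iff.2 h0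
    linarith
  have hne : ∀ p ∈ ball ((s₀ : ℂ), z₀) ε', (inner ℂ v (F p) : ℂ) ≠ 0 := fun p hp h => by
    have := (hb p hp).1
    rw [h, norm_zero] at this
    linarith only [hlt, this]
  have hsub : ball ((s₀ : ℂ), z₀) ε' ⊆ ball ((s₀ : ℂ), z₀) ε := fun p hp => (hb p hp).2.2
  refine ⟨ε', (‖(inner ℂ v (F ((s₀ : ℂ), z₀)) : ℂ)‖ / 2)⁻¹ * (‖F ((s₀ : ℂ), z₀)‖ + 1), hε', fun j => ⟨fun p => (inner ℂ v (F p) : ℂ)⁻¹ * F p j, ?_, ?_, ?_⟩⟩
  · have hF' := hF.mono hsub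
    have hd1 : DifferentiableOn ℂ (fun w => (inner ℂ v (F w) : ℂ)) (ball ((s₀ : ℂ), z₀) ε') := (innerSL ℂ v).differentiable.comp_differentiableOn hF'
    have hd2 : DifferentiableOn ℂ (fun w => F w j) (ball ((s₀ : ℂ), z₀) ε') :=
      (EuclideanSpace.proj (𝕜 := ℂ) j : EN N →L[ℂ] ℂ).differentiable.comp_differentiableOn hF'
    exact (hd1.inv hne).mul hd2
  · intro p hp
    rw [norm_mul, norm_inv]
    have h1 : ‖F p j‖ ≤ ‖F ((s₀ : ℂ), z₀)‖ + 1 := (PiLp.norm_apply_le _ j).trans (hb p hp).2.1.le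
    have h2 : ‖(inner ℂ v (F p) : ℂ)‖⁻¹ ≤ (‖(inner ℂ v (F ((s₀ : ℂ), z₀)) : ℂ)‖ / 2)⁻¹ := inv_anti₀ hκ (hb p hp).1.le
    gcongr
  · intro s z hp
    rw [hFΦ s z (hsub hp), nv_pr (hne _ hp)]
    simp [PiLp.smul_apply, smul_eq_mul]

/-- a family whose normalised coordinates extend -/
private theorem asm {Φ : ℝ → ℂ → MN N} {s₀ δ : ℝ} {z : ℂ} {R K c e₁ : ℝ} (v : EN N) (hl : ∀ s : ℝ, ∃ F : ℂ → EN N, Differentiable ℂ F ∧ (∀ z, F z ≠ 0) ∧ ∀ z, Φ s z = pr (F z))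
    (hc0 : 0 < c) (hc : ∀ s ∈ Set.Icc (s₀ - δ) (s₀ + δ), ∀ w ∈ ball z R, c ≤ ‖nd v (Φ s w)‖) (he₁0 : 0 < e₁) (he₁b : e₁ ≤ δ) (he₁R : e₁ ≤ R)
    (key : ∀ j, ∃ G : ℂ × ℂ → ℂ, DifferentiableOn ℂ G (ball (s₀ : ℂ) e₁ ×ˢ ball z e₁) ∧ (∀ p ∈ ball (s₀ : ℂ) e₁ ×ˢ ball z e₁, ‖G p‖ ≤ K) ∧
      ∀ s : ℝ, (s : ℂ) ∈ ball (s₀ : ℂ) e₁ → ∀ w ∈ ball z e₁, G (s, w) = nv v (Φ s w) j) : EAtB v Φ s₀ z e₁ (∑ _j : Fin (N + 1), K) := by
  choose G hG1 hGb hG2 using key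
  have hsub : ∀ p ∈ ball ((s₀ : ℂ), z) e₁, p.1 ∈ ball (s₀ : ℂ) e₁ ∧ p.2 ∈ ball z e₁ := by
    intro p hp
    rw [← ball_prod_same] at hp
    exact hp
  obtain ⟨H, hH⟩ : ∃ H : ℂ × ℂ → EN N, ∀ p j, H p j = G j p := ⟨fun p => WithLp.toLp 2 fun j => G j p, fun p j => rfl⟩
  have hHd : DifferentiableOn ℂ H (ball ((s₀ : ℂ), z) e₁) := by
    rw [differentiableOn_piLp]
    intro j
    simp only [hH]
    exact (hG1 j).mono fun p hp => hsub p hp
  have hHr : ∀ (s : ℝ) (w : ℂ), ((s : ℂ), w) ∈ ball ((s₀ : ℂ), z) e₁ → H (s, w) = nv v (Φ s w) := by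
    intro s w hp
    obtain ⟨h1, h2⟩ := hsub _ hp
    ext j
    rw [hH]
    exact hG2 j s h1 w h2
  have hreal : ∀ (s : ℝ) (w : ℂ), ((s : ℂ), w) ∈ ball ((s₀ : ℂ), z) e₁ → Φ s w = pr (H (s, w)) ∧ inner ℂ v (H (s, w)) = (1 : ℂ) := by
    intro s w hp
    obtain ⟨h1, h2⟩ := hsub _ hp
    have hs : s ∈ Set.Icc (s₀ - δ) (s₀ + δ) := by
      simp only at h1
      rw [mem_ball, dist_eq_norm, ← Complex.ofReal_sub, Complex.norm_real, Real.norm_eq_abs] at h1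
      have := abs_lt.1 (h1.trans_le he₁b)
      exact ⟨by linarith [this.1], by linarith [this.2]⟩
    obtain ⟨F, hF, hF0, hFΦ⟩ := hl s
    have h3 := hc s hs w (ball_subset_ball he₁R h2)
    rw [hFΦ] at h3
    obtain ⟨h4, -⟩ := nv_bd hc0 h3 (hF0 w)
    rw [hHr s w hp, hFΦ]
    refine ⟨(pr_nv h4).symm, ?_⟩
    rw [nv_pr h4, inner_smul_right, inv_mul_cancel₀ h4]
  refine ⟨H, hHd, fun p hp => ⟨?_, ?_⟩, fun s w hp => (hreal s w hp).1⟩
  · -- the identity theorem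
    obtain ⟨h1, h2⟩ := hsub p hp
    have hd : DifferentiableOn ℂ (fun ζ => (inner ℂ v (H (ζ, p.2)) : ℂ)) (ball (s₀ : ℂ) e₁) := by
      refine (innerSL ℂ v).differentiable.comp_differentiableOn ?_
      intro ζ hζ
      have h3 : DifferentiableAt ℂ H (ζ, p.2) := hHd.differentiableAt (isOpen_ball.mem_nhds (by rw [← ball_prod_same]; exact ⟨hζ, h2⟩))
      exact (h3.comp ζ (differentiableAt_id.prodMk (differentiableAt_const p.2))).differentiableWithinAt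
    have hfr : ∃ᶠ ζ in 𝓝[≠] (s₀ : ℂ), (inner ℂ v (H (ζ, p.2)) : ℂ) = 1 := by
      have h4 : ∀ᶠ t : ℝ in 𝓝[≠] s₀, (inner ℂ v (H ((t : ℂ), p.2)) : ℂ) = 1 := by
        filter_upwards [mem_nhdsWithin_of_mem_nhds (ball_mem_nhds s₀ he₁0)] with t ht
        refine (hreal t p.2 ?_).2
        rw [← ball_prod_same]
        refine ⟨?_, h2⟩
        rw [mem_ball, dist_eq_norm, ← Complex.ofReal_sub, Complex.norm_real, ← dist_eq_norm]
        exact ht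
      have h5 : Tendsto (fun t : ℝ => (t : ℂ)) (𝓝[≠] s₀) (𝓝[≠] (s₀ : ℂ)) := by
        refine tendsto_nhdsWithin_iff.2 ⟨(Complex.continuous_ofReal.tendsto s₀).mono_left nhdsWithin_le_nhds, ?_⟩
        filter_upwards [self_mem_nhdsWithin] with t ht h6
        exact ht (Complex.ofReal_injective h6)
      exact h5.frequently h4.frequently
    have h6 := (hd.analyticOnNhd isOpen_ball).eqOn_of_preconnected_of_frequently_eq analyticOnNhd_const (convex_ball _ _).isPreconnected (mem_ball_self he₁0) hfr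
    exact h6 h1
  · obtain ⟨h1, h2⟩ := hsub p hp
    refine (norm_le_sum (H p)).trans (Finset.sum_le_sum fun j _ => ?_)
    rw [hH]
    exact hGb j p ⟨h1, h2⟩

private theorem tbc_closed (b : Vd (k + 1)) (E : Submodule ℝ (Vd (k + 1))) : IsClosed (Tb b E) := by
  have h : Continuous fun y : Vd (k + 1) => y - b := by fun_prop
  exact (Submodule.closed_of_finiteDimensional E).preimage h

/-- the local data: a vector `v` and a radius -/
private theorem loc (S : TDat X Λ u a ν b E D Bad SS) (hφ : φ ∈ SS) {y₀ : Vd (k + 1)} (hy₀ : y₀ ∈ Tb b E) (hD : y₀ ∉ D) :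
    ∃ (v : EN N) (c R : ℝ), 0 < c ∧ 0 < R ∧ ∀ y ∈ Tb b E, y ∈ ball y₀ R → y ∉ D ∧ c ≤ ‖nd v (φ y)‖ ∧ ContinuousWithinAt φ (Tb b E) y := by
  obtain ⟨χ, c, ρ, w, R, B⟩ := S.smo φ hφ y₀ hy₀ hD
  have hcy : ContinuousOn (fun y => cy c ρ (w 0 y) y) (Tb b E ∩ ball y₀ R) := by
    refine continuousOn_pi.2 fun i => ?_
    refine Fin.cases ?_ (fun j => ?_) i
    · simpa [cy] using B.cont 0
    · have h1 : Continuous fun y : Vd (k + 1) => (ρ : ℂ)⁻¹ * (y j - c j) := by fun_prop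
      simpa [cy] using h1.continuousOn
  have hφc : ∀ y ∈ Tb b E ∩ ball y₀ R, ContinuousWithinAt φ (Tb b E) y := by
    intro y hy
    have h1 : ContinuousWithinAt (fun y => pr (χ.σ (cy c ρ (w 0 y) y))) (Tb b E ∩ ball y₀ R) y := by
      have h2 : ContinuousAt χ.σ (cy c ρ (w 0 y) y) := (χ.σ_an _ (B.mem y hy)).continuousAt
      have h3 : ContinuousAt (pr (N := N)) (χ.σ (cy c ρ (w 0 y) y)) :=
        Pool.Agent.H62.EF.continuousAt_pr (fun h0 => S.cone.zero_notMem (h0 ▸ (χ.σ_mem _ (B.mem y hy)).1))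
      exact h3.comp_continuousWithinAt (f := fun y => χ.σ (cy c ρ (w 0 y) y)) (h2.comp_continuousWithinAt (f := fun y => cy c ρ (w 0 y) y) (hcy y hy))
    have h2 : ContinuousWithinAt φ (Tb b E ∩ ball y₀ R) y := h1.congr (fun y' hy' => B.eq y' hy') (B.eq y hy)
    exact (continuousWithinAt_inter (isOpen_ball.mem_nhds hy.2)).1 h2
  obtain ⟨v, hv⟩ : ∃ v, v = χ.σ (cy c ρ (w 0 y₀) y₀) := ⟨_, rfl⟩
  have hy₀' : y₀ ∈ Tb b E ∩ ball y₀ R := ⟨hy₀, mem_ball_self B.pos⟩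
  have hv0 : v ≠ 0 := by
    rw [hv]
    exact fun h0 => S.cone.zero_notMem (h0 ▸ (χ.σ_mem _ (B.mem y₀ hy₀')).1)
  have hnd : nd v (φ y₀) ≠ 0 := by
    rw [B.eq y₀ hy₀', ← hv, nd_pr_ne hv0]
    exact inner_self_ne_zero.2 hv0
  have hpos := norm_pos_iff.2 hnd
  have h1 : ContinuousWithinAt (fun y => ‖nd v (φ y)‖) (Tb b E) y₀ := ((nd_cont v).continuousAt.comp_continuousWithinAt (hφc y₀ hy₀')).norm
  have h2 : ∀ᶠ y in 𝓝[Tb b E] y₀, ‖nd v (φ y₀)‖ / 2 < ‖nd v (φ y)‖ := h1.eventually (lt_mem_nhds (by linarith only [hpos]))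
  have h3 : ∀ᶠ y in 𝓝 y₀, y ∉ D := S.D_closed.isOpen_compl.mem_nhds hD
  rw [eventually_nhdsWithin_iff] at h2
  obtain ⟨R', hR', hb⟩ := Metric.eventually_nhds_iff_ball.mp ((h2.and h3).and (ball_mem_nhds y₀ B.pos))
  exact ⟨v, ‖nd v (φ y₀)‖ / 2, R', by linarith only [hpos], hR', fun y hy hyR => ⟨(hb y hyR).1.2, ((hb y hyR).1.1 hy).le, hφc y ⟨hy, (hb y hyR).2⟩⟩⟩

/-- translation of the parameters -/
private theorem shift {y : Vd (k + 1)} {s₂ : ℝ} {z₂ : ℂ} {ε : ℝ} (h : EAt (sl φ a ν y) s₂ z₂ ε) : EAt (sl φ a ν (y + (s₂ : ℂ) • ν + z₂ • a)) 0 0 ε := by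
  obtain ⟨F, hF, hF0, hFΦ⟩ := h
  have hm : ∀ p ∈ ball (((0 : ℝ) : ℂ), (0 : ℂ)) ε, ((s₂ : ℂ) + p.1, z₂ + p.2) ∈ ball ((s₂ : ℂ), z₂) ε := by
    intro p hp
    rw [← ball_prod_same] at hp ⊢
    obtain ⟨h1, h2⟩ := hp
    rw [mem_ball, dist_eq_norm] at h1 h2
    refine ⟨?_, ?_⟩
    · rw [mem_ball, dist_eq_norm, add_sub_cancel_left]
      simpa using h1
    · rw [mem_ball, dist_eq_norm, add_sub_cancel_left]
      simpa using h2
  refine ⟨fun p => F ((s₂ : ℂ) + p.1, z₂ + p.2), ?_, fun p hp => hF0 _ (hm p hp), fun s z hp => ?_⟩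
  · have : Differentiable ℂ fun p : ℂ × ℂ => ((s₂ : ℂ) + p.1, z₂ + p.2) := by fun_prop
    exact hF.comp this.differentiableOn hm
  · rw [← sl_add y s₂ s z₂ z]
    have h1 := hm _ hp
    have h2 := hFΦ (s₂ + s) (z₂ + z) (by push_cast; exact h1)
    rw [h2]
    push_cast
    rfl

/-- every point of `T` near `y₀` is near points at which the slice extends -/
theorem ue_open (S : TDat X Λ u a ν b E D Bad SS) (hφ : φ ∈ SS) {y₀ : Vd (k + 1)} (hy₀ : y₀ ∈ Tb b E) (hD : y₀ ∉ D) {r : ℝ} (hr : 0 < r)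
    (h : ∀ y ∈ Tb b E, ‖y - y₀‖ < r → ∀ δ : ℝ, 0 < δ → ∃ (s₁ : ℝ) (z₁ : ℂ) (ε : ℝ), |s₁| < δ ∧ ‖z₁‖ < δ ∧ 0 < ε ∧ EAt (sl φ a ν y) s₁ z₁ ε) :
    ∃ y₁ ∈ Tb b E, y₁ ∉ D ∧ UE (𝓝[Tb b E] y₁) (fun y => sl φ a ν y) 0 0 := by
  obtain ⟨v, c, R, hc, hR, hloc⟩ := loc S hφ hy₀ hD
  have hTc : IsClosed (Tb b E) := tbc_closed b E
  obtain ⟨κ, hκ⟩ : ∃ κ, κ = 1 + ‖ν‖ + ‖a‖ := ⟨_, rfl⟩
  have hκ0 : 0 < κ := by rw [hκ]; positivity
  obtain ⟨r₂, hr₂⟩ : ∃ r₂, r₂ = R / 4 := ⟨_, rfl⟩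
  have hr₂0 : 0 < r₂ := by rw [hr₂]; linarith only [hR]
  obtain ⟨r₃, hr₃⟩ : ∃ r₃, r₃ = r₂ / κ := ⟨_, rfl⟩
  have hr₃0 : 0 < r₃ := by rw [hr₃]; positivity
  have hmv : ∀ (s : ℝ) (z : ℂ), |s| < r₃ → ‖z‖ < r₃ → ‖(s : ℂ) • ν + z • a‖ < r₂ := by
    intro s z hs hz
    have h1 : ‖(s : ℂ) • ν + z • a‖ ≤ r₃ * ‖ν‖ + r₃ * ‖a‖ := by
      refine (norm_add_le _ _).trans (add_le_add ?_ ?_)
      · rw [norm_smul, Complex.norm_real, Real.norm_eq_abs]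
        exact mul_le_mul_of_nonneg_right hs.le (norm_nonneg _)
      · rw [norm_smul]
        exact mul_le_mul_of_nonneg_right hz.le (norm_nonneg _)
    have h2 : r₂ = r₃ * κ := by rw [hr₃]; field_simp
    rw [h2, hκ]
    nlinarith only [hr₃0, h1]
  have hball : ∀ y : Vd (k + 1), ‖y - y₀‖ ≤ 2 * r₂ → ∀ (s : ℝ) (z : ℂ), |s| < r₃ → ‖z‖ < r₃ → y + (s : ℂ) • ν + z • a ∈ ball y₀ R := by
    intro y hy s z hs hz
    rw [mem_ball, dist_eq_norm, show y + (s : ℂ) • ν + z • a - y₀ = (y - y₀) + ((s : ℂ) • ν + z • a) by abel]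
    have h1 := norm_add_le (y - y₀) ((s : ℂ) • ν + z • a)
    have h2 := hmv s z hs hz
    linarith only [hr₂, hr₂0, hy, h1, h2]
  obtain ⟨K, hK⟩ : ∃ K : Set (Vd (k + 1)), K = Tb b E ∩ {y | ‖y - y₀‖ ≤ 2 * r₂} := ⟨_, rfl⟩
  have hKc : IsClosed K := by
    rw [hK]
    exact hTc.inter (isClosed_le (by fun_prop) continuous_const)
  have hKT : ∀ y ∈ K, y ∈ Tb b E := fun y hy => by rw [hK] at hy; exact hy.1
  have hKr : ∀ y ∈ K, ‖y - y₀‖ ≤ 2 * r₂ := fun y hy => by rw [hK] at hy; exact hy.2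
  -- the bound below
  have hlow : ∀ y ∈ K, ∀ (s : ℝ) (z : ℂ), |s| < r₃ → ‖z‖ < r₃ → c ≤ ‖nd v (sl φ a ν y s z)‖ := fun y hy s z hs hz =>
    (hloc _ (S.tb (hKT y hy) s z) (hball y (hKr y hy) s z hs hz)).2.1
  have hlift : ∀ y ∈ K, ∀ s : ℝ, ∃ F : ℂ → EN N, Differentiable ℂ F ∧ (∀ z, F z ≠ 0) ∧ ∀ z, sl φ a ν y s z = pr (F z) := by
    intro y hy s
    have h1 := S.tb (hKT y hy) s 0
    rw [zero_smul, add_zero] at h1
    obtain ⟨F, hF, hF2⟩ := S.line φ hφ _ h1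
    exact ⟨F, hF.1, fun z h0 => S.cone.zero_notMem (h0 ▸ hF.2.1 z), hF2⟩
  -- continuity
  have hfc : ∀ j : Fin (N + 1), ∀ q ∈ K ×ˢ {q : ℝ × ℂ | |q.1| < r₃ ∧ ‖q.2‖ < r₃}, ContinuousWithinAt (fun q : Vd (k + 1) × ℝ × ℂ => nv v (sl φ a ν q.1 q.2.1 q.2.2) j)
      (K ×ˢ {q : ℝ × ℂ | |q.1| < r₃ ∧ ‖q.2‖ < r₃}) q := by
    rintro j ⟨y, s, z⟩ ⟨hy, hs, hz⟩
    have hy : y ∈ K := hy
    have hs : |s| < r₃ := hs
    have hz : ‖z‖ < r₃ := hz
    have h2' : nd v (sl φ a ν y s z) ≠ 0 := fun h => by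
      have h2 := hlow y hy s z hs hz
      rw [h, norm_zero] at h2
      linarith only [hc, h2]
    have h1 : Continuous fun q : Vd (k + 1) × ℝ × ℂ => q.1 + (q.2.1 : ℂ) • ν + q.2.2 • a := by fun_prop
    have h3 : ContinuousWithinAt (fun q : Vd (k + 1) × ℝ × ℂ => sl φ a ν q.1 q.2.1 q.2.2) (K ×ˢ {q : ℝ × ℂ | |q.1| < r₃ ∧ ‖q.2‖ < r₃}) (y, s, z) := by
      refine ContinuousWithinAt.comp (g := φ) (f := fun q : Vd (k + 1) × ℝ × ℂ => q.1 + (q.2.1 : ℂ) • ν + q.2.2 • a) (t := Tb b E) ?_ h1.continuousWithinAt ?_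
      · exact (hloc _ (S.tb (hKT y hy) s z) (hball y (hKr y hy) s z hs hz)).2.2
      · rintro ⟨y', s', z'⟩ ⟨hy', -⟩
        exact S.tb (hKT y' hy') s' z'
    have h4 : ContinuousAt (nv v) (sl φ a ν y s z) := nv_continuousAt h2'
    have h5 : ContinuousAt (fun x : MN N => nv v x j) (sl φ a ν y s z) := (PiLp.continuous_apply 2 _ j).continuousAt.comp h4
    exact ContinuousAt.comp_continuousWithinAt (g := fun x : MN N => nv v x j) (f := fun q : Vd (k + 1) × ℝ × ℂ => sl φ a ν q.1 q.2.1 q.2.2) h5 h3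
  obtain ⟨d, hd⟩ : ∃ d : ℕ → ℝ, ∀ p, d p = r₃ / (2 * (p + 1)) := ⟨fun p => r₃ / (2 * (p + 1)), fun _ => rfl⟩
  have hd0 : ∀ p, 0 < d p := fun p => by rw [hd]; positivity
  have hd2 : ∀ p, 2 * d p ≤ r₃ := fun p => by
    rw [hd, mul_div_assoc', div_le_iff₀ (by positivity)]
    have : (0 : ℝ) ≤ p := Nat.cast_nonneg p
    nlinarith only [hr₃0]
  obtain ⟨A, hA⟩ : ∃ A : ℕ → Set (Vd (k + 1)), ∀ p y, y ∈ A p ↔ y ∈ K ∧ ∀ j : Fin (N + 1), ∀ z ∈ closedBall (0 : ℂ) (d p), ∀ n : ℕ,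
      ‖cf (fun s z => nv v (sl φ a ν y s z) j) 0 (d p) n z‖ ≤ p * (1 / 2) ^ n := ⟨fun p => {y | _}, fun p y => Iff.rfl⟩
  have hAc : ∀ p, IsClosed (A p) := by
    intro p
    have e : A p = K ∩ ⋂ (j : Fin (N + 1)) (z : closedBall (0 : ℂ) (d p)) (n : ℕ), (K ∩ (fun y => ‖cf (fun s z => nv v (sl φ a ν y s z) j) 0 (d p) n z.1‖) ⁻¹' Set.Iic (p * (1 / 2) ^ n)) := by
      ext y
      rw [hA]
      simp only [Set.mem_inter_iff, Set.mem_iInter, Set.mem_preimage, Set.mem_Iic, Subtype.forall]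
      constructor
      · rintro ⟨h1, h2⟩
        exact ⟨h1, fun j z hz n => ⟨h1, h2 j z hz n⟩⟩
      · rintro ⟨h1, h2⟩
        exact ⟨h1, fun j z hz n => (h2 j z hz n).2⟩
    rw [e]
    refine hKc.inter (isClosed_iInter fun j => isClosed_iInter fun z => isClosed_iInter fun n => ?_)
    refine ContinuousOn.preimage_isClosed_of_isClosed ?_ hKc isClosed_Iic
    refine (cf_param (f := fun y s z => nv v (sl φ a ν y s z) j) (hd0 p).le ?_ n).norm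
    rintro ⟨y, s⟩ ⟨hy, hs⟩
    have hs' : |s| < r₃ := by
      have h1 : |s| ≤ d p := abs_le.2 ⟨by have := hs.1; simp only at this; linarith, by have := hs.2; simp only at this; linarith⟩
      have := hd2 p
      have := hd0 p
      linarith
    have hz' : ‖z.1‖ < r₃ := by
      have h1 : ‖z.1‖ ≤ d p := mem_closedBall_zero_iff.1 z.2
      have := hd2 p
      have := hd0 p
      linarith
    have h1 := hfc j (y, s, z.1) ⟨hy, hs', hz'⟩
    have h2 : Continuous fun q : Vd (k + 1) × ℝ => ((q.1, q.2, z.1) : Vd (k + 1) × ℝ × ℂ) := by fun_prop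
    refine ContinuousWithinAt.comp (g := fun q : Vd (k + 1) × ℝ × ℂ => nv v (sl φ a ν q.1 q.2.1 q.2.2) j) (f := fun q : Vd (k + 1) × ℝ => ((q.1, q.2, z.1) : Vd (k + 1) × ℝ × ℂ)) h1 h2.continuousWithinAt ?_
    rintro ⟨y', s'⟩ ⟨hy', hs''⟩
    refine ⟨hy', ?_, hz'⟩
    have h1 : |s'| ≤ d p := abs_le.2 ⟨by have := hs''.1; simp only at this; linarith, by have := hs''.2; simp only at this; linarith⟩
    have := hd2 p
    have := hd0 p
    show |s'| < r₃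
    linarith
  -- the cover
  obtain ⟨q, hq⟩ : ∃ q : ℕ → ℝ × ℂ, DenseRange q := ⟨TopologicalSpace.denseSeq _, TopologicalSpace.denseRange_denseSeq _⟩
  obtain ⟨r₄, hr₄⟩ : ∃ r₄, r₄ = min r r₂ := ⟨_, rfl⟩
  have hr₄0 : 0 < r₄ := by rw [hr₄]; exact lt_min hr hr₂0
  have hr₄r : r₄ ≤ r := by rw [hr₄]; exact min_le_left _ _
  have hr₄r₂ : r₄ ≤ r₂ := by rw [hr₄]; exact min_le_right _ _
  obtain ⟨W, hW1, hW2⟩ : ∃ W : Option (ℕ × ℕ) → Set (Tb b E), W none = {y | r₄ ≤ ‖y.1 - y₀‖} ∧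
      ∀ i p, W (some (i, p)) = {y | y.1 + ((q i).1 : ℂ) • ν + (q i).2 • a ∈ A p} :=
    ⟨fun o => Option.elim o {y | r₄ ≤ ‖y.1 - y₀‖} fun ip => {y | y.1 + ((q ip.1).1 : ℂ) • ν + (q ip.1).2 • a ∈ A ip.2}, rfl, fun _ _ => rfl⟩
  have hWc : ∀ o, IsClosed (W o) := by
    rintro (_ | ⟨i, p⟩)
    · rw [hW1]
      exact isClosed_le continuous_const (by fun_prop)
    · rw [hW2]
      have h1 : Continuous fun y : Tb b E => y.1 + ((q i).1 : ℂ) • ν + (q i).2 • a := by fun_prop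
      exact (hAc p).preimage h1
  have hWU : ⋃ o, W o = Set.univ := by
    rw [Set.eq_univ_iff_forall]
    rintro ⟨y, hy⟩
    rw [Set.mem_iUnion]
    rcases le_or_gt r₄ ‖y - y₀‖ with h1 | h1
    · exact ⟨none, by rw [hW1]; exact h1⟩
    obtain ⟨s₁, z₁, ε, hs₁, hz₁, hε, hE⟩ := h y hy (h1.trans_le hr₄r) (r₃ / 2) (by linarith only [hr₃0])
    obtain ⟨i, hi⟩ := hq.exists_dist_lt (s₁, z₁) (lt_min hε (half_pos hr₃0))
    obtain ⟨s₂, z₂, hq2⟩ : ∃ s₂ z₂, q i = (s₂, z₂) := ⟨_, _, rfl⟩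
    rw [hq2, Prod.dist_eq] at hi
    simp only at hi
    have hi1 : dist s₁ s₂ < min ε (r₃ / 2) := (le_max_left _ _).trans_lt hi
    have hi2 : dist z₁ z₂ < min ε (r₃ / 2) := (le_max_right _ _).trans_lt hi
    have hds : dist ((s₂ : ℂ), z₂) ((s₁ : ℂ), z₁) < ε := by
      rw [Prod.dist_eq]
      refine max_lt ?_ ?_
      · simp only
        rw [dist_comm, dist_eq_norm, ← Complex.ofReal_sub, Complex.norm_real, ← dist_eq_norm]
        exact hi1.trans_le (min_le_left _ _)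
      · simp only
        rw [dist_comm]
        exact hi2.trans_le (min_le_left _ _)
    have hs₂ : |s₂| < r₃ := by
      have h2 := hi1.trans_le (min_le_right _ _)
      rw [dist_comm, Real.dist_eq] at h2
      have h3 := abs_add_le (s₂ - s₁) s₁
      rw [sub_add_cancel] at h3
      linarith only [hs₁, h2, h3]
    have hz₂ : ‖z₂‖ < r₃ := by
      have h2 := hi2.trans_le (min_le_right _ _)
      rw [dist_comm, dist_eq_norm] at h2
      have h3 := norm_add_le (z₂ - z₁) z₁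
      rw [sub_add_cancel] at h3
      linarith only [hz₁, h2, h3]
    have hE2 := shift (hE.move (s₁ := s₂) (z₁ := z₂))
    obtain ⟨y₂, hy₂⟩ : ∃ y₂, y₂ = y + (s₂ : ℂ) • ν + z₂ • a := ⟨_, rfl⟩
    rw [← hy₂] at hE2
    have hy₂K : y₂ ∈ K := by
      rw [hK, hy₂]
      refine ⟨S.tb hy s₂ z₂, ?_⟩
      show ‖y + (s₂ : ℂ) • ν + z₂ • a - y₀‖ ≤ 2 * r₂
      rw [show y + (s₂ : ℂ) • ν + z₂ • a - y₀ = (y - y₀) + ((s₂ : ℂ) • ν + z₂ • a) by abel]
      have h2 := norm_add_le (y - y₀) ((s₂ : ℂ) • ν + z₂ • a)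
      have h3 := hmv s₂ z₂ hs₂ hz₂
      linarith only [hr₄r₂, h1, h2, h3]
    have hnd : nd v (sl φ a ν y₂ 0 0) ≠ 0 := fun h0 => by
      have h2 := hlow y₂ hy₂K 0 0 (by simpa using hr₃0) (by simpa using hr₃0)
      rw [h0, norm_zero] at h2
      linarith only [hc, h2]
    obtain ⟨ε', C, hε', hg⟩ := nrm (by linarith only [hds]) hE2 hnd
    obtain ⟨p, hp⟩ := exists_nat_ge (max C (r₃ / ε'))
    have hpC : C ≤ p := (le_max_left _ _).trans hp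
    have hpd : 2 * d p ≤ ε' := by
      have h2 : r₃ / ε' ≤ p := (le_max_right _ _).trans hp
      rw [div_le_iff₀ hε'] at h2
      rw [hd, mul_div_assoc', div_le_iff₀ (by positivity)]
      nlinarith only [hε', h2]
    have hsub : ball (((0 : ℝ)) : ℂ) (2 * d p) ×ˢ ball (0 : ℂ) (2 * d p) ⊆ ball ((((0 : ℝ)) : ℂ), (0 : ℂ)) ε' := by
      rw [← ball_prod_same]
      exact Set.prod_mono (ball_subset_ball hpd) (ball_subset_ball hpd)
    refine ⟨some (i, p), ?_⟩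
    rw [hW2, hq2]
    show y + (s₂ : ℂ) • ν + z₂ • a ∈ A p
    rw [← hy₂, hA]
    refine ⟨hy₂K, fun j z hz n => ?_⟩
    obtain ⟨g, hg1, hg2, hg3⟩ := hg j
    have h5 := coef_of_ext (f := fun s z => nv v (sl φ a ν y₂ s z) j) (s₀ := 0) (z₁ := 0) (hd0 p) (hg1.mono hsub) (hd0 p) (fun x hx => hg2 x (hsub hx)) (fun s hs z hz => hg3 s z (hsub ⟨by
      rw [mem_ball, dist_eq_norm, ← Complex.ofReal_sub, Complex.norm_real, Real.norm_eq_abs]
      have h6 : |s - 0| ≤ d p := abs_le.2 ⟨by linarith only [hs, hs.1], by linarith only [hs, hs.2]⟩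
      have := hd0 p
      linarith only [h6, this], hz⟩)) z hz n
    refine h5.trans ?_
    gcongr
  have : CompleteSpace (Tb b E) := hTc.completeSpace_coe
  have hdense := dense_iUnion_interior_of_closed hWc hWU
  obtain ⟨⟨y, hy⟩, hyb, hyU⟩ := hdense.inter_open_nonempty {x : Tb b E | ‖x.1 - y₀‖ < r₄} (isOpen_lt (by fun_prop) continuous_const) ⟨⟨y₀, hy₀⟩, by simpa using hr₄0⟩
  have hyb : ‖y - y₀‖ < r₄ := hyb
  rw [Set.mem_iUnion] at hyU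
  obtain ⟨o, ho⟩ := hyU
  rcases o with _ | ⟨i, p⟩
  · have h1 := interior_subset ho
    rw [hW1] at h1
    have h2 : r₄ ≤ ‖y - y₀‖ := h1
    linarith only [hyb, h2]
  rw [hW2, mem_interior_iff_mem_nhds, mem_nhds_subtype_iff_nhdsWithin] at ho
  obtain ⟨x₀, hx₀⟩ : ∃ x₀, x₀ = ((q i).1 : ℂ) • ν + (q i).2 • a := ⟨_, rfl⟩
  have hev : ∀ᶠ y' in 𝓝[Tb b E] y, y' + x₀ ∈ A p := by
    filter_upwards [ho] with y' hy'
    obtain ⟨x, hx, rfl⟩ := hy'
    rw [hx₀, ← add_assoc]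
    exact hx
  have hT1 : y + x₀ ∈ Tb b E := by
    rw [hx₀, ← add_assoc]
    exact S.tb hy _ _
  have hT2 : ∀ y' ∈ Tb b E, y' - x₀ ∈ Tb b E := by
    intro y' hy'
    have h1 := S.tb hy' (-(q i).1) (-(q i).2)
    rw [hx₀]
    convert h1 using 1
    push_cast
    rw [neg_smul, neg_smul]
    abel
  have hev2 : ∀ᶠ y' in 𝓝[Tb b E] (y + x₀), y' ∈ A p := by
    have h1 : Tendsto (fun y' : Vd (k + 1) => y' - x₀) (𝓝[Tb b E] (y + x₀)) (𝓝[Tb b E] y) := by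
      refine tendsto_nhdsWithin_iff.2 ⟨?_, ?_⟩
      · have h2 : Continuous fun y' : Vd (k + 1) => y' - x₀ := by fun_prop
        have h3 := h2.tendsto (y + x₀)
        rw [add_sub_cancel_right] at h3
        exact h3.mono_left nhdsWithin_le_nhds
      · filter_upwards [self_mem_nhdsWithin] with y' hy'
        exact hT2 y' hy'
    filter_upwards [h1.eventually hev] with y' hy'
    rwa [sub_add_cancel] at hy'
  have hy₁A : y + x₀ ∈ A p := hev2.self_of_nhdsWithin hT1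
  have hy₁K : y + x₀ ∈ K := ((hA _ _).1 hy₁A).1
  refine ⟨y + x₀, hT1, ?_, ?_⟩
  · have h1 := hball (y + x₀) (hKr _ hy₁K) 0 0 (by simpa using hr₃0) (by simpa using hr₃0)
    simp only [Complex.ofReal_zero, zero_smul, add_zero] at h1
    exact (hloc _ hT1 h1).1
  -- the extension
  obtain ⟨ε, hε, hext⟩ := ext_of_coef (δ := d p) (r₁ := d p) (R' := 3 / 2 * d p) (R := 2 * d p) (hd0 p) (hd0 p) (by have := hd0 p; linarith only [this]) (by have := hd0 p; linarith only [this])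
  obtain ⟨K₀, hK₀⟩ := hext p (Real.sqrt c)⁻¹
  obtain ⟨e₁, he₁⟩ : ∃ e₁, e₁ = min ε (d p) := ⟨_, rfl⟩
  have he₁0 : 0 < e₁ := by rw [he₁]; exact lt_min hε (hd0 p)
  have he₁a : e₁ ≤ ε := by rw [he₁]; exact min_le_left _ _
  have he₁b : e₁ ≤ d p := by rw [he₁]; exact min_le_right _ _
  refine ⟨v, e₁, ∑ _j : Fin (N + 1), K₀, he₁0, ?_⟩
  filter_upwards [hev2] with y' hy'
  obtain ⟨hy'K, hy'A⟩ := (hA _ _).1 hy'
  have hss : ∀ s ∈ Set.Icc ((0 : ℝ) - d p) (0 + d p), |s| < r₃ := by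
    intro s hs
    have h1 : |s| ≤ d p := abs_le.2 ⟨by linarith [hs.1], by linarith only [hs, hs.2]⟩
    have := hd2 p
    have := hd0 p
    linarith
  have hzz : ∀ z ∈ ball (0 : ℂ) (2 * d p), ‖z‖ < r₃ := by
    intro z hz
    rw [mem_ball, dist_zero_right] at hz
    exact hz.trans_le (hd2 p)
  have hvl : ∀ s ∈ Set.Icc ((0 : ℝ) - d p) (0 + d p), ∃ F : ℂ → EN N, Differentiable ℂ F ∧ (∀ z, sl φ a ν y' s z = pr (F z)) ∧ ∀ w ∈ ball (0 : ℂ) (2 * d p),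
      inner ℂ v (F w) ≠ (0 : ℂ) ∧ nv v (sl φ a ν y' s w) = (inner ℂ v (F w) : ℂ)⁻¹ • F w ∧ ‖nv v (sl φ a ν y' s w)‖ ≤ (Real.sqrt c)⁻¹ := by
    intro s hs
    obtain ⟨F, hF, hF0, hFΦ⟩ := hlift y' hy'K s
    refine ⟨F, hF, hFΦ, fun w hw => ?_⟩
    have h1 := hlow y' hy'K s w (hss s hs) (hzz w hw)
    rw [hFΦ] at h1 ⊢
    obtain ⟨h2, h3⟩ := nv_bd hc h1 (hF0 w)
    exact ⟨h2, nv_pr h2, h3⟩
  refine asm (δ := d p) (R := 2 * d p) (K := K₀) v (hlift y' hy'K) hc (fun s hs w hw => hlow y' hy'K s w (hss s hs) (hzz w hw)) he₁0 he₁b (by have := hd0 p; linarith only [he₁0, he₁b]) fun j => ?_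
  obtain ⟨G, hG1, hG2, hG3⟩ := hK₀ (fun s z => nv v (sl φ a ν y' s z) j) 0 0 (by
      rintro ⟨s, z⟩ ⟨hs, hz⟩
      have h1 := hfc j (y', s, z) ⟨hy'K, hss s hs, hzz z hz⟩
      have h2 : Continuous fun q : ℝ × ℂ => ((y', q.1, q.2) : Vd (k + 1) × ℝ × ℂ) := by fun_prop
      refine ContinuousWithinAt.comp (g := fun q : Vd (k + 1) × ℝ × ℂ => nv v (sl φ a ν q.1 q.2.1 q.2.2) j) (f := fun q : ℝ × ℂ => ((y', q.1, q.2) : Vd (k + 1) × ℝ × ℂ)) h1 h2.continuousWithinAt ?_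
      rintro ⟨s', z'⟩ ⟨hs', hz'⟩
      exact ⟨hy'K, hss s' hs', hzz z' hz'⟩)
    (by
      intro s hs
      obtain ⟨F, hF, hFΦ, hv⟩ := hvl s hs
      have e : Set.EqOn (fun w => nv v (sl φ a ν y' s w) j) (fun w => (inner ℂ v (F w) : ℂ)⁻¹ * F w j) (ball 0 (2 * d p)) := by
        intro w hw
        simp only
        rw [(hv w hw).2.1]
        simp [PiLp.smul_apply, smul_eq_mul]
      refine DifferentiableOn.congr ?_ e
      have hd1 : Differentiable ℂ fun w => (inner ℂ v (F w) : ℂ) := (innerSL ℂ v).differentiable.comp hF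
      have hd2 : Differentiable ℂ fun w => F w j := (EuclideanSpace.proj (𝕜 := ℂ) j : EN N →L[ℂ] ℂ).differentiable.comp hF
      exact (hd1.differentiableOn.inv fun w hw => (hv w hw).1).mul hd2.differentiableOn)
    (by
      intro s hs w hw
      obtain ⟨F, hF, hFΦ, hv⟩ := hvl s hs
      exact (PiLp.norm_apply_le _ j).trans (hv w hw).2.2)
    (fun z hz n => hy'A j z hz n)
  have hb : ball (0 : ℂ) e₁ ⊆ ball 0 (3 / 2 * d p) := ball_subset_ball (by have := hd0 p; linarith)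
  exact ⟨G, hG1.mono (Set.prod_mono (ball_subset_ball he₁a) hb), fun x hx => hG2 x ⟨ball_subset_ball he₁a hx.1, hb hx.2⟩,
    fun s hs w hw => hG3 s (ball_subset_ball he₁a hs) w (hb hw)⟩

end Pool.Agent.G4.C

end
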