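import Pool.Agent.H94.G5T.H56.G3.Pc5
import Pool.Agent.H94.G5T.M113
import Pool.Agent.H94.G5T.M126
import Pool.Agent.H94.G5T.M46

/-! The parts of this file: H56.G3.Pc7, G3.F.Pic, G3.R.ShtF_1. -/

section

/-!
# G3 Pc7: extension over the puncture
-/

set_option autoImplicit false

open Topology Filter Metric

namespace Pool.Agent.H56.G3

open Pool.Agent.H36.BP (EN fs wd Sub Curve)
open Pool.Agent.H14.PP (IsCone CurveAt Tan)
open Pool.Agent.AD (Vd TorusMapV DiscreteSub deriv_eq_of_mem)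
open Pool.Agent.TG (TMap Lat Gd)
open Pool.Agent.G3 (Cv PS QD Ok Lam Lq Np pf TT)

variable {N k : ℕ} {X : Set (EN N)} {Λ : AddSubgroup (Vd (k + 1))} {u : EN N → Vd (k + 1)} {D : Set (Vd (k + 1))} {Q : EN N → ℂ} {d : ℕ}
  {p : EN N → EN N → ℝ} {m : ℕ} {C C₁ : ℝ}

/-- the limit theorem for sequences -/
theorem lct_seq (h : Pool.Agent.G3.LCT X Λ u Q d p m) : LCT X Λ u Q d p m := by
  intro a F hh E ha h1 h2 h3 h4 h5
  have hle : ((Filter.hyperfilter ℕ : Ultrafilter ℕ) : Filter ℕ) ≤ atTop := by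
    rw [← Nat.cofinite_eq_atTop]
    exact Filter.hyperfilter_le_cofinite
  refine h (Filter.hyperfilter ℕ) a F hh E ha (fun r => (h1 r).filter_mono hle) (Eventually.of_forall h2) (fun r ε hε => (h3 r ε hε).filter_mono hle)
    (fun r => (h4 r).filter_mono hle) (fun r ε hε => ?_)
  filter_upwards [(h5 r ε hε).filter_mono hle] with n hn z hz hok
  have := hn z hz hok
  linarith

theorem exp_mem' {w : ℂ} (h : w.re < 0) : Complex.exp w ∈ ball (0 : ℂ) 1 \ {0} := by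
  refine ⟨?_, Complex.exp_ne_zero w⟩
  rw [mem_ball_zero_iff, Complex.norm_exp, Real.exp_lt_one_iff]
  exact h

/-- a curve without good points is constant in the projective space -/
theorem ext_const (hX : IsCone X) (hD : IsClosed D) (hps : PS X Λ u D p m C) (hqd : QD X Λ u D Q d) {F₀ : ℂ → EN N}
    (hF₀ : Curve X (ball 0 1 \ {0}) F₀) {h : ℂ → Vd (k + 1)} (hc : Cv X Λ u {w | w.re < 0} (fun w => F₀ (Complex.exp w)) h)
    (h0 : ∃ z ∈ ball (0 : ℂ) 1 \ {0}, Q (F₀ z) ≠ 0) (hok : ¬ ∃ w ∈ {w : ℂ | w.re < 0}, Ok Q p (fun w => F₀ (Complex.exp w)) w) :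
    ∃ A : ℂ → EN N, AnalyticAt ℂ A 0 ∧ A 0 ≠ 0 ∧ ∀ᶠ z in 𝓝[≠] (0 : ℂ), ∃ k : ℂ, k ≠ 0 ∧ A z = k • F₀ z := by
  have hUo : IsOpen (ball (0 : ℂ) 1 \ {0}) := isOpen_ball.sdiff isClosed_singleton
  have hne : ∀ z ∈ ball (0 : ℂ) 1 \ {0}, F₀ z ≠ 0 := fun z hz h0 => hX.zero_notMem (h0 ▸ hF₀.2 z hz)
  -- good points of the punctured disc
  have hfs0 : ∀ z ∈ ball (0 : ℂ) 1 \ {0}, Q (F₀ z) ≠ 0 → fs (F₀ z) (deriv F₀ z) = 0 := by
    intro z hz hQ
    have hz0 : z ≠ 0 := hz.2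
    have hzn : 0 < ‖z‖ := norm_pos_iff.2 hz0
    have hre : (Complex.log z).re < 0 := by
      rw [Complex.log_re]
      exact Real.log_neg hzn (by simpa using hz.1)
    obtain ⟨U, h₁, hU1, hU2, hU3, hU4, -⟩ := local_cv hF₀ hc hz
    have hy : h₁ z ∉ D := fun hyD => hQ (hqd.zero _ (hF₀.2 z hz) _ hyD (hU4.lift z hU2))
    obtain ⟨δ, hδ, hδ'⟩ : ∃ δ : ℝ, 0 < δ ∧ h₁ z ∈ Gd D δ := by
      have h1 : Dᶜ ∈ 𝓝 (h₁ z) := hD.isOpen_compl.mem_nhds hy
      obtain ⟨δ, hδ, hδ'⟩ := Metric.mem_nhds_iff.1 h1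
      refine ⟨δ, hδ, fun b hb => ?_⟩
      by_contra hcon
      push Not at hcon
      have h2 : b ∈ ball (h₁ z) δ := by
        rw [mem_ball_iff_norm, norm_sub_rev]
        exact hcon
      exact hδ' h2 hb
    obtain ⟨c, hc0, hc1⟩ := hps.ge_fs δ hδ
    have h3 := hc1 (h₁ z) hδ' (F₀ z) (hF₀.2 z hz) (hU4.lift z hU2) (deriv F₀ z) (hU4.tan hU1 hU2)
    have h4 : p (F₀ z) (deriv F₀ z) ≤ 0 := by
      by_contra hcon
      push Not at hcon
      apply hok
      refine ⟨Complex.log z, hre, ?_, ?_⟩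
      · simp only [Complex.exp_log hz0]
        exact hQ
      · have h5 := pf_comp hU1 hU4 hps (φ := Complex.exp) (z := Complex.log z) Complex.differentiableAt_exp (by rw [Complex.exp_log hz0]; exact hU2)
        rw [h5, Complex.deriv_exp, Complex.exp_log hz0]
        exact mul_pos (pow_pos hzn m) hcon
    have h6 : 0 ≤ fs (F₀ z) (deriv F₀ z) := by
      unfold fs wd
      positivity
    by_contra h7
    have h8 : 0 < fs (F₀ z) (deriv F₀ z) ^ m := pow_pos (lt_of_le_of_ne h6 (Ne.symm h7)) m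
    nlinarith
  -- all points
  have hfs : ∀ z ∈ ball (0 : ℂ) 1 \ {0}, fs (F₀ z) (deriv F₀ z) = 0 := by
    intro z hz
    have hq : DifferentiableOn ℂ (fun z => Q (F₀ z)) (ball 0 1 \ {0}) := hqd.diff.comp_differentiableOn hF₀.1
    have ha : AnalyticOnNhd ℂ (fun z => Q (F₀ z)) (ball 0 1 \ {0}) := hq.analyticOnNhd hUo
    obtain ⟨z₁, hz₁, hQ₁⟩ := h0
    have h1 : ∀ᶠ w in 𝓝[≠] z, Q (F₀ w) ≠ 0 := by
      rcases (ha z hz).eventually_eq_zero_or_eventually_ne_zero with h2 | h2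
      · exact absurd (ha.eqOn_zero_of_preconnected_of_eventuallyEq_zero Pool.Agent.H36.BP.preconnected_puncturedDisc hz h2 hz₁) hQ₁
      · exact h2
    have h3 : ∀ᶠ w in 𝓝[≠] z, fs (F₀ w) (deriv F₀ w) = 0 := by
      filter_upwards [h1, mem_nhdsWithin_of_mem_nhds (hUo.mem_nhds hz)] with w hw hw2
      exact hfs0 w hw2 hw
    have hcF : ContinuousAt F₀ z := hF₀.1.continuousOn.continuousAt (hUo.mem_nhds hz)
    have hcF' : ContinuousAt (deriv F₀) z := (hF₀.1.deriv hUo).continuousOn.continuousAt (hUo.mem_nhds hz)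
    have h4 : ContinuousAt (fun w => fs (F₀ w) (deriv F₀ w)) z := by
      unfold fs wd
      refine ContinuousAt.div ?_ (hcF.norm.pow 2) (pow_ne_zero 2 (norm_ne_zero_iff.2 (hne z hz)))
      exact Real.continuous_sqrt.continuousAt.comp (((hcF.norm.pow 2).mul (hcF'.norm.pow 2)).sub ((hcF.inner hcF').norm.pow 2))
    have h5 : Tendsto (fun w => fs (F₀ w) (deriv F₀ w)) (𝓝[≠] z) (𝓝 0) :=
      tendsto_const_nhds.congr' (h3.mono fun w hw => hw.symm)
    exact tendsto_nhds_unique (h4.tendsto.mono_left nhdsWithin_le_nhds) h5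
  refine Pool.Agent.AD.F.removable_of_small hF₀.1 hne fun δ hδ => ⟨1, one_pos, fun z hz1 hz2 => ?_⟩
  rw [hfs z ⟨by simpa using hz2, norm_pos_iff.1 hz1⟩, mul_zero]
  exact hδ.le

/-- **Extension over the puncture.** -/
theorem picard (hX : IsCone X) (hT : TMap X Λ u) (hL : Lat Λ) (hD : IsClosed D) (hps : PS X Λ u D p m C) (hqd : QD X Λ u D Q d)
    (hroot : RootLog X Λ u Q d p m C₁) (hlct : Pool.Agent.G3.LCT X Λ u Q d p m) {F₀ : ℂ → EN N}
    (hF₀ : Curve X (ball 0 1 \ {0}) F₀) (h0 : ∃ z ∈ ball (0 : ℂ) 1 \ {0}, Q (F₀ z) ≠ 0) :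
    ∃ A : ℂ → EN N, AnalyticAt ℂ A 0 ∧ A 0 ≠ 0 ∧ ∀ᶠ z in 𝓝[≠] (0 : ℂ), ∃ k : ℂ, k ≠ 0 ∧ A z = k • F₀ z := by
  -- the constant may be assumed nonnegative
  obtain ⟨C₁', hC₁', hroot'⟩ : ∃ C₁' : ℝ, 0 ≤ C₁' ∧ RootLog X Λ u Q d p m C₁' := by
    refine ⟨max C₁ 0, le_max_right _ _, ?_⟩
    intro w r F h hr hF hok
    obtain ⟨h1, h2⟩ := hroot w r F h hr hF hok
    have h3 := one_le_E (p := p) (m := m) (h := h) hX hqd (hF.mem w (mem_ball_self hr)) hok.1
    have h4 : C₁ * (1 + Lam Q d p m F h w) ≤ max C₁ 0 * (1 + Lam Q d p m F h w) := mul_le_mul_of_nonneg_right (le_max_left _ _) (by linarith)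
    exact ⟨h1.trans h4, h2.trans h4⟩
  obtain ⟨C₂, hC₂, hahl⟩ := Pool.Agent.G3.ahl hps
  have hLd : DiscreteSub Λ := hL.disc
  have hUo := isOpen_half 0
  have hdF : DifferentiableOn ℂ (fun w => F₀ (Complex.exp w)) {w | w.re < 0} :=
    hF₀.1.comp Complex.differentiable_exp.differentiableOn fun w hw => exp_mem' hw
  have hmF : ∀ z ∈ {w : ℂ | w.re < 0}, F₀ (Complex.exp z) ∈ X := fun z hz => hF₀.2 _ (exp_mem' hz)
  have hm1 : (-1 : ℂ) ∈ {w : ℂ | w.re < 0} := by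
    show (-1 : ℂ).re < 0
    rw [Complex.neg_re, Complex.one_re]
    norm_num
  obtain ⟨h, hh, hhu⟩ := lift_conn hX ⟨hT.smul, hT.loc⟩ hLd hUo (convex_half 0).isPreconnected (fun ψ hψ => half_primitive hψ) hdF hmF hm1
  have hc : Cv X Λ u {w | w.re < 0} (fun w => F₀ (Complex.exp w)) h := ⟨hdF, hh, hmF, hhu⟩
  by_cases hok : ∃ w ∈ {w : ℂ | w.re < 0}, Ok Q p (fun w => F₀ (Complex.exp w)) w
  swap
  · exact ext_const hX hD hps hqd hF₀ hc h0 hok
  have hper : ∀ w : ℂ, F₀ (Complex.exp (w + 2 * Real.pi * Complex.I)) = F₀ (Complex.exp w) := fun w => by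
    rw [Complex.exp_periodic w]
  obtain ⟨T, K, q, hT0, -, hK⟩ := growth hX hps hqd hC₁' hroot' hc hper hok
  -- the derivative of the lift is periodic
  have hdper : ∀ w : ℂ, w.re < T → deriv h (w + 2 * Real.pi * Complex.I) = deriv h w := by
    intro w hw
    have hre : ∀ w : ℂ, (w + 2 * Real.pi * Complex.I).re = w.re := by
      intro w
      simp
    have hw0 : w.re < 0 := by linarith
    have hw1 : (w + 2 * Real.pi * Complex.I).re < 0 := by rw [hre]; exact hw0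
    have han : AnalyticAt ℂ h w := hh.analyticAt (hUo.mem_nhds hw0)
    have han2 : AnalyticAt ℂ h (w + 2 * Real.pi * Complex.I) := hh.analyticAt (hUo.mem_nhds hw1)
    have han3 : AnalyticAt ℂ (fun z => h (z + 2 * Real.pi * Complex.I)) w :=
      AnalyticAt.comp (g := h) (f := fun z : ℂ => z + 2 * Real.pi * Complex.I) han2 (by fun_prop)
    have h1 := deriv_eq_of_mem hLd han3 han (by
      filter_upwards [hUo.mem_nhds hw0] with z hz
      have hz0 : z.re < 0 := hz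
      have e1 := hhu z hz
      have e2 := hhu (z + 2 * Real.pi * Complex.I) (by show (z + 2 * Real.pi * Complex.I).re < 0; rw [hre]; exact hz0)
      simp only [hper z] at e2
      have e3 := Λ.sub_mem e1 e2
      have e4 : u (F₀ (Complex.exp z)) - h z - (u (F₀ (Complex.exp z)) - h (z + 2 * Real.pi * Complex.I)) = h (z + 2 * Real.pi * Complex.I) - h z := by abel
      rwa [e4] at e3)
    rw [deriv_comp_add_const] at h1
    exact h1
  have hdd : DifferentiableOn ℂ (deriv h) {w | w.re < T} :=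
    (hh.deriv hUo).mono fun w (hw : w.re < T) => by
      show w.re < 0
      linarith
  obtain ⟨G, hG, hhG⟩ := per_ext hdd hdper hK
  have hGd : DifferentiableAt ℂ G 0 := hG.differentiableAt (ball_mem_nhds _ (Real.exp_pos T))
  have hG0 := limit_zero hX hps hqd hC₁' hroot' (lct_seq hlct) hc hok hGd.continuousAt hhG
  exact ext_of_zero hX hps hqd hC₂ hahl hF₀ hc hok hGd hhG hG0

end Pool.Agent.H56.G3

end

section

/-!
# G3 F Pic: extension over the puncture, in the cone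

The proof is in `H56/G3/Pc0` to `Pc7` (growth of the lift on the half plane, `LCT` at the points of support, removable singularities).
-/

set_option autoImplicit false

open Topology Filter Metric MvPolynomial

namespace Pool.Agent.G3

open Pool.Agent.H17 (PN VanishesAt HolomorphicInto puncturedDisc)
open Pool.Agent.H36.BP (EN fs wd Sub Curve)
open Pool.Agent.H14.PP (IsCone CurveAt Tan)
open Pool.Agent.H62.EF (MN pr)
open Pool.Agent.AD (Vd Chart Charts)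
open Pool.Agent.TG (TMap Lat Geo Gd VForm Fb)

variable {N k : ℕ} {X : Set (EN N)} {Λ : AddSubgroup (Vd (k + 1))} {u : EN N → Vd (k + 1)} {D B : Set (Vd (k + 1))} {p : EN N → EN N → ℝ} {m d : ℕ} {C C₁ : ℝ}
  {Q : EN N → ℂ}

theorem picard_cone (G : Geo X Λ u D B) (hP : PS X Λ u D p m C) (hQ : QD X Λ u D Q d) (hR : RootLog X Λ u Q d p m C₁) (hL : LCT X Λ u Q d p m)
    {F : ℂ → EN N} (hF : Curve X (ball 0 1 \ {0}) F) (h0 : ∃ z ∈ ball (0 : ℂ) 1 \ {0}, Q (F z) ≠ 0) :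
    ∃ g : ℂ → EN N, AnalyticAt ℂ g 0 ∧ g 0 ≠ 0 ∧ ∀ᶠ z in 𝓝[≠] (0 : ℂ), ∃ k : ℂ, k ≠ 0 ∧ g z = k • F z := by
  exact Pool.Agent.H56.G3.picard G.cone G.tor G.lat G.D_closed hP hQ hR hL hF h0

end Pool.Agent.G3

end

section

/-!
# G3 R ShtF: basic facts on a finite set of sheets

`exists_shs`: from `sht_finite`, `sht_add`.  `Shs.unif`: uniform continuity on `T ∩ Gd D δ`, `T = Tb b E` (closed: finite dimension; compactness of the bounded part, finitely many sheets, `cpt`, `tr`).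
`Shs.lm`: the curves `φ (y n + z a)` converge.  `Shs.red`: translation of a point of `T` to a bounded point.
-/

set_option autoImplicit false

open Topology Filter Metric

namespace Pool.Agent.G3.R

open Pool.Agent.H36.BP (EN fs wd)
open Pool.Agent.H14.PP (IsCone CurveAt Tan)
open Pool.Agent.H62.EF (MN pr)
open Pool.Agent.AD (Vd Chart Charts IsGerm)
open Pool.Agent.TG
open Pool.Agent.G3.C (Gc HP nv nd nv_pr)
open Pool.Agent.G3.A

variable {N k : ℕ} {X : Set (EN N)} {Λ : AddSubgroup (Vd (k + 1))} {u : EN N → Vd (k + 1)} {D B Bad : Set (Vd (k + 1))} {a b w : Vd (k + 1)} {E : Submodule ℝ (Vd (k + 1))}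
  {SS : Set (Vd (k + 1) → MN N)} {J : ℕ} {α : Fin J → VForm X Λ u} {c₀ C₀ ρ δ : ℝ}

theorem exists_shs (S : DA X Λ u D B Bad a α c₀ C₀ ρ δ) (hE : CE X Λ u a b E) : ∃ SS : Set (Vd (k + 1) → MN N), Shs X Λ u D a b E SS ∧
    ∀ ψ, Sht X Λ u D a (Tb b E) ψ → ∃ φ ∈ SS, ∀ y ∈ Tb b E, ψ y = φ y := by
  obtain ⟨SS, h1, h2, h3, -⟩ := sht_finite S hE
  refine ⟨SS, ⟨hE.mem, hE.cpt, h1, h2, fun φ hφ l hl hlE => ?_⟩, h3⟩
  obtain ⟨φ', hφ', h4⟩ := h3 _ (sht_add (h2 φ hφ) S.lg hl hlE)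
  exact ⟨φ', hφ', fun y hy => (h4 y hy).symm⟩

end Pool.Agent.G3.R

end
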