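import Pool.Agent.H94.G5T.M72

/-! The parts of this file: G3.X.Defs_1, G3.X.Sa_1. -/

section

/-!
# G3 X Defs: uniform crossing for arcs, definitions

Plan of the block `G3/X` (helper19).  Near a point `p ∈ D \ B` choose coordinates `κ` of the base in which `D` is `{q 0 = 0}` and the given line `p + z e` is `{q_1 = .. = q_k = 0}` (`LnC`).  An
arc near the line is `ar κ g`, the graph of a small function `g` (`Inv`).  `X` is covered near the fibre over `p` by finitely many normal crossing charts (`NCh`: `u = κ (x ^ a y ^ b, s)` in suitable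
coordinates) and finitely many witness charts (`Fam`, `FamG`); cut with the graph of `g` (`emb`) they give a tube (in the sense of `H62/EL`) for the surface `Ya`, the part of `X` over the arc,
with constants which do not depend on `g`.
-/

set_option autoImplicit false

open Topology Filter Metric

namespace Pool.Agent.GX

open Pool.Agent.H36.BP (EN fs wd)
open Pool.Agent.H14.PP (IsCone CurveAt Tan)
open Pool.Agent.H62.EF (MN pr)
open Pool.Agent.AD (Vd Chart Charts IsGerm)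
open Pool.Agent.TG (TMap Lat tl nm IsStr IsNC IsCoord Geo VForm ms Str IsPrim Cap IRel II TransAt Gd Cst DV fr)

variable {N k : ℕ}

variable (X : Set (EN N)) (Λ : AddSubgroup (Vd (k + 1))) (u : EN N → Vd (k + 1))

variable {X}

variable (X)

/-- the points of the normal crossing chart over the arc -/
noncomputable def emb (g : ℂ → Fin k → ℂ) (r : ℝ) (a b : ℕ) (w : ℂ × ℂ) : Vd (k + 2) :=
  Fin.cons (α := fun _ => ℂ) w.1 (Fin.cons (α := fun _ => ℂ) w.2 ((r : ℂ)⁻¹ • g ((r : ℂ) ^ (a + b) * (w.1 ^ a * w.2 ^ b))))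

/-- finitely many normal crossing charts with open cones `W`, and finitely many witness charts with radii `t` -/
structure Fam (k : ℕ) where
  /-- number of charts -/
  m : ℕ
  /-- the charts -/
  C : Fin m → Chart (k + 2) X
  /-- sizes -/
  r : Fin m → ℝ
  /-- exponents -/
  a : Fin m → ℕ
  /-- exponents -/
  b : Fin m → ℕ
  /-- open cones -/
  W : Fin m → Set (EN N)
  /-- number of witness charts -/
  n : ℕ
  /-- the witness charts -/
  C' : Fin n → Chart (k + 2) X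
  /-- sizes -/
  r' : Fin n → ℝ
  /-- exponents -/
  a' : Fin n → ℕ
  /-- exponents -/
  b' : Fin n → ℕ
  /-- radii -/
  t : Fin n → ℝ

variable {X}

/-- the charts cover `X` over the polydisc of radius `ρ` in the coordinates `κ` -/
structure FamG (κ : Vd (k + 1) → Vd (k + 1)) (R s ρ : ℝ) (Φ : Fam X k) : Prop where
  pos : 0 < ρ
  le : ρ ≤ s
  leR : ρ ≤ R
  nch : ∀ i, NCh Λ u κ R (Φ.C i) (Φ.r i) (Φ.a i) (Φ.b i)
  rng : ∀ i, (2 * Φ.r i) ^ (Φ.a i + Φ.b i) ≤ s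
  lt : ∀ i, ρ ≤ Φ.r i
  W_open : ∀ i, IsOpen (Φ.W i)
  W_sub : ∀ i, Φ.W i ⊆ (Φ.C i).U
  W_smul : ∀ i, ∀ x ∈ Φ.W i, ∀ c : ℂ, c ≠ 0 → c • x ∈ Φ.W i
  cover : ∀ q ∈ ball (0 : Vd (k + 1)) ρ, ∀ x ∈ X, u x - κ q ∈ Λ → ∃ i, x ∈ Φ.W i
  nch' : ∀ j, NCh Λ u κ R (Φ.C' j) (Φ.r' j) (Φ.a' j) (Φ.b' j)
  rng' : ∀ j, (2 * Φ.r' j) ^ (Φ.a' j + Φ.b' j) ≤ s
  t_pos : ∀ j, 0 < Φ.t j ∧ Φ.t j ≤ 2
  lt' : ∀ j, ρ ≤ Φ.r' j * Φ.t j
  sub : ∀ j i, (∃ q ∈ ball (0 : Vd (k + 2)) (Φ.t j), (Φ.C' j).σ q ∈ Φ.W i) → ∀ q ∈ ball (0 : Vd (k + 2)) 2, (Φ.C' j).σ q ∈ (Φ.C i).U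
  nest : ∀ j j', (∃ q ∈ ball (0 : Vd (k + 2)) (Φ.t j), ∃ q' ∈ ball (0 : Vd (k + 2)) (Φ.t j'), pr ((Φ.C' j).σ q) = pr ((Φ.C' j').σ q')) →
    (∀ q ∈ ball (0 : Vd (k + 2)) (Φ.t j), (Φ.C' j).σ q ∈ (Φ.C' j').U) ∨ (∀ q ∈ ball (0 : Vd (k + 2)) (Φ.t j'), (Φ.C' j').σ q ∈ (Φ.C' j).U)
  cover' : ∀ q ∈ ball (0 : Vd (k + 1)) ρ, ∀ x ∈ X, u x - κ q ∈ Λ → ∃ j, x ∈ (Φ.C' j).U ∧ (Φ.C' j).q x ∈ ball (0 : Vd (k + 2)) (Φ.t j)

/-- the slice of a straight chart over the arc -/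
noncomputable def sla (κ : Vd (k + 1) → Vd (k + 1)) (g : ℂ → Fin k → ℂ) (c' : Vd (k + 1)) (ρ : ℝ) (z₀ : ℂ) (r : ℝ) (y : ℂ × ℂ) : Vd (k + 2) :=
  Fin.cons (α := fun _ => ℂ) y.2 ((ρ : ℂ)⁻¹ • (ar κ g (z₀ + r * y.1) - c'))

end Pool.Agent.GX

end

section

/-!
# G3 X Sa: the part of `X` over an arc, basic facts

Port of `TG/Y/SlA.lean` (`p + z • e` becomes `ar κ g z`) and of the lemmas `fr_an`, `dt_an` of `TG/Y/NcA.lean`.
`cg_mem`: `‖z‖ < 2 s ≤ R`, `‖g z‖ < R` (`pi_norm_lt_iff`).  `ar_inj`: `Kp.inj`, first coordinate of `cg`.  `off`: `Kp.mem_iff`, `(cg g z) 0 = z`.  `deriv_ar`: chain rule.  `dta_ne`: `fderiv κ (cg g z)` is injective (`ψ_κ`: `ψ ∘ κ = id` near `cg g z`), and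
the rows are its values on `cons 1 (deriv g z)`, `Pi.single j.succ 1`: a relation between the rows gives one between these vectors, first coordinate `0`, ... (see `hdt0` in `TG/Y/LnE.lean`).
`wa_eq`: `ar_inj`.  `isCone`: as `Ln.isCone` (`ar κ g` is continuous on the compact disc `closedBall 0 s`).
`exists_loc`: let `v` be a local lift of `u` at `x`, `l₀ = v x - ar κ g (wa x) ∈ Λ`; `q' y = ψ (v y - l₀)` is analytic at `x`, `q' x = cg g (wa x) ∈ ball 0 R`, `κ (q' y) = v y - l₀` near `x` (`κ_ψ`); for `y ∈ Ya` near `x`: `κ (q' y) - κ (cg g (wa y)) ∈ Λ`, so by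
`Kp.inj` `q' y = cg g (wa y)`, `wa y = q' y 0`: `W y = ψ (v y - l₀) 0`.  `wa_cont`: `Ln.wl_cont` in `TG/Y/YCap.lean`.  `nb`: `Γ₀` has no small elements.
-/

set_option autoImplicit false

open Topology Filter Metric

namespace Pool.Agent.GX

open Pool.Agent.H36.BP (EN fs wd)
open Pool.Agent.H14.PP (IsCone CurveAt Tan)
open Pool.Agent.H62.EF (MN pr)
open Pool.Agent.AD (Vd Chart Charts IsGerm)
open Pool.Agent.TG (TMap Lat tl nm IsStr IsNC IsCoord Geo VForm ms Str IsPrim Cap IRel II TransAt Gd Cst DV fr tc)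

variable {N k : ℕ}

variable {X : Set (EN N)} {Λ : AddSubgroup (Vd (k + 1))} {u : EN N → Vd (k + 1)} {D B : Set (Vd (k + 1))}
  {κ ψ : Vd (k + 1) → Vd (k + 1)} {R : ℝ} {g : ℂ → Fin k → ℂ} {Γ₀ : AddSubgroup ℂ} {s : ℝ}

theorem La.ar_inj (L : La X Λ u D κ ψ R g Γ₀ s) {z z' : ℂ} (hz : z ∈ ball (0 : ℂ) (2 * s)) (hz' : z' ∈ ball (0 : ℂ) (2 * s))
    (h : ar κ g z - ar κ g z' ∈ Λ) : z = z' :=
  congrFun (L.kp.inj _ (L.cg_mem hz) _ (L.cg_mem hz') h) 0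

theorem La.dta_an (L : La X Λ u D κ ψ R g Γ₀ s) {z : ℂ} (hz : z ∈ ball (0 : ℂ) (2 * s)) : AnalyticAt ℂ (dta κ g) z := by
  have h1 : ∀ i j : Fin (k + 1), AnalyticAt ℂ (fun w => (Fin.cons (deriv (ar κ g) w) (fr κ (cg g) w) : Fin (k + 1) → Vd (k + 1)) i j) z := by
    intro i j
    refine Fin.cases ?_ (fun i => ?_) i
    · exact ((ContinuousLinearMap.proj (R := ℂ) (φ := fun _ : Fin (k + 1) => ℂ) j).analyticAt _).fun_comp (L.ar_an hz).deriv
    · exact ((ContinuousLinearMap.proj (R := ℂ) (φ := fun _ : Fin (k + 1) => ℂ) j).analyticAt _).fun_comp (L.fr_an hz i)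
  have h2 : dta κ g = fun w => ∑ σ : Equiv.Perm (Fin (k + 1)), (Equiv.Perm.sign σ : ℂ) *
      ∏ i, (Fin.cons (deriv (ar κ g) w) (fr κ (cg g) w) : Fin (k + 1) → Vd (k + 1)) (σ i) i := by
    funext w
    unfold dta
    rw [Matrix.det_apply']
    rfl
  rw [h2]
  refine Finset.analyticAt_fun_sum _ fun σ _ => analyticAt_const.mul (Finset.analyticAt_fun_prod _ fun i _ => h1 _ _)

theorem La.wa_eq (L : La X Λ u D κ ψ R g Γ₀ s) {x : EN N} {z : ℂ} (hz : ‖z‖ ≤ s) (h : u x - ar κ g z ∈ Λ) : wa Λ u κ g s x = z := by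
  have hex : ∃ z : ℂ, ‖z‖ ≤ s ∧ u x - ar κ g z ∈ Λ := ⟨z, hz, h⟩
  have h1 : ‖wa Λ u κ g s x‖ ≤ s ∧ u x - ar κ g (wa Λ u κ g s x) ∈ Λ := by
    unfold wa
    rw [dif_pos hex]
    exact hex.choose_spec
  refine L.ar_inj (L.mem2 h1.1) (L.mem2 hz) ?_
  have h3 : ar κ g (wa Λ u κ g s x) - ar κ g z = (u x - ar κ g z) - (u x - ar κ g (wa Λ u κ g s x)) := by abel
  rw [h3]
  exact Λ.sub_mem h h1.2

theorem La.wa_smul (L : La X Λ u D κ ψ R g Γ₀ s) {x : EN N} (hx : x ∈ Ya X Λ u κ g s) {a : ℂ} (ha : a ≠ 0) :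
    wa Λ u κ g s (a • x) = wa Λ u κ g s x := by
  have h1 := wa_spec hx
  exact L.wa_eq h1.1 (Pool.Agent.TG.smul_mem_lat L.kp.tor hx.1 h1.2 ha)

theorem La.isCone (L : La X Λ u D κ ψ R g Γ₀ s) : IsCone (Ya X Λ u κ g s) := by
  refine ⟨fun h => L.kp.cone.zero_notMem h.1, fun x hx a ha => ?_, ?_⟩
  · obtain ⟨hxX, z, hz, hzx⟩ := hx
    exact ⟨L.kp.cone.smul_mem x hxX a ha, z, hz, Pool.Agent.TG.smul_mem_lat L.kp.tor hxX hzx ha⟩
  · refine IsSeqClosed.isClosed fun x x₀ hx hlim => ?_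
    have hx₀ : x₀ ∈ insert (0 : EN N) X := by
      refine L.kp.cone.closed.mem_of_tendsto hlim (Eventually.of_forall fun n => ?_)
      rcases hx n with h | h
      · exact Or.inl h
      · exact Or.inr h.1
    rcases hx₀ with h0 | hx₀
    · exact Or.inl h0
    · right
      have hne : x₀ ≠ 0 := Pool.Agent.TG.ne_zero L.kp.cone hx₀
      have hev : ∀ᶠ n in atTop, x n ∈ Ya X Λ u κ g s := by
        filter_upwards [hlim.eventually_ne hne] with n hn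
        exact (hx n).resolve_left hn
      set 𝒰 : Ultrafilter ℕ := hyperfilter ℕ with h𝒰
      have hevU : ∀ᶠ n in (𝒰 : Filter ℕ), x n ∈ Ya X Λ u κ g s := Nat.hyperfilter_le_atTop hev
      obtain ⟨z, hz, hzt⟩ := (isCompact_closedBall (0 : ℂ) s).ultrafilter_le_nhds (𝒰.map fun n => wa Λ u κ g s (x n)) (by
        rw [Ultrafilter.coe_map, le_principal_iff, mem_map]
        filter_upwards [hevU] with n hn
        show wa Λ u κ g s (x n) ∈ closedBall (0 : ℂ) s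
        rw [mem_closedBall_zero_iff]
        exact (wa_spec hn).1)
      have hzt' : Tendsto (fun n => wa Λ u κ g s (x n)) 𝒰 (𝓝 z) := hzt
      have hxt : Tendsto x 𝒰 (𝓝 x₀) := hlim.mono_left Nat.hyperfilter_le_atTop
      have hzs : ‖z‖ ≤ s := mem_closedBall_zero_iff.1 hz
      refine ⟨hx₀, z, hzs, ?_⟩
      refine Pool.Agent.TG.lim_mem L.kp.lat L.kp.tor (l := (𝒰 : Filter ℕ)) (y := fun n => ar κ g (wa Λ u κ g s (x n))) hx₀ hxt ?_ ?_
      · exact (L.ar_an (L.mem2 hzs)).continuousAt.tendsto.comp hzt'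
      · filter_upwards [hevU] with n hn
        exact ⟨hn.1, (wa_spec hn).2⟩

theorem La.torusMap (L : La X Λ u D κ ψ R g Γ₀ s) : Pool.Agent.H62.EF.TorusMap (Ya X Λ u κ g s) Γ₀ (wa Λ u κ g s) := by
  refine ⟨fun x hx a ha => ?_, fun x hx => ?_⟩
  · rw [L.wa_smul hx ha, sub_self]
    exact Γ₀.zero_mem
  · obtain ⟨W, hW, hW'⟩ := L.exists_loc hx
    refine ⟨W, hW, ?_⟩
    filter_upwards [hW'] with y hy hyY
    rw [hy hyY, sub_self]
    exact Γ₀.zero_mem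

/-- `Γ₀` has no small elements -/
theorem La.nb (L : La X Λ u D κ ψ R g Γ₀ s) {z z' : ℂ} (hz : ‖z‖ ≤ s) (hz' : ‖z'‖ ≤ s) (h : z - z' ∈ Γ₀) : z = z' := by
  have h1 : ‖z - z'‖ ≤ s + s := (norm_sub_le _ _).trans (add_le_add hz hz')
  exact sub_eq_zero.1 (L.big _ h (by linarith [L.pos]))

end Pool.Agent.GX

end
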