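import Pool.Agent.H94.G5T.G3.X.FrmA_1
import Pool.Agent.H94.G5T.M143
import Pool.Agent.H94.G5T.M73

/-! The parts of this file: G3.X.Fam, G3.X.Main. -/

section

/-!
# G3 X Fam: the finite families of charts

`exists_nch`: `IsNC` gives a germ `σ, τ, a, b` at `x`; `exists_small_chart` with a small `η'`: `χ.σ q = c • σ (r • q)`, `‖r • q‖ < η'` for `q ∈ ball 0 2` (so `2 r ≤ η'`: take `q` of norm near `2`; if `k + 2` coordinates, `q = Pi.single 0 t`), `u (χ.σ q) - κ (nm a b (r • q)) ∈ Λ` (`TMap.smul`).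
`exists_fam`: the proof of `Pool.Agent.TGY.exists_tube_geo` (`TG/Y/TbA.lean`) with `ℂ × ℂ` replaced by `Vd (k + 2)`, the fibre over `b` by the fibre over `κ 0`; `exists_rad` in the form: `∃ ρ > 0, ∀ q ∈ ball 0 ρ, ∀ x ∈ X, u x - κ q ∈ Λ → P x` (`κ` is continuous at `0`; `TG.lim_mem`, `TG.compact_unit`, `TG.exists_unit`,
`TG.smul_mem_lat` of `TG/Gd.lean`).  New: the witness charts are also FINITELY many: `χ'_x` (for all `x` of the fibre) with radii `t_x` as there; the open cones `{y ∈ χ'_x.U, χ'_x.q y ∈ ball 0 t_x}` cover the compact set (unit vectors of the fibre), choose a finite subcover.  In the end `ρ` is so small that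
`ρ ≤ s`, `ρ ≤ R`, `ρ ≤ r i` and `ρ ≤ r' j * t j` for the finitely many `i, j`.
-/

set_option autoImplicit false

open Topology Filter Metric

namespace Pool.Agent.GX

open Pool.Agent.H36.BP (EN fs wd)
open Pool.Agent.H14.PP (IsCone CurveAt Tan)
open Pool.Agent.H62.EF (MN pr)
open Pool.Agent.AD (Vd Chart Charts IsGerm)
open Pool.Agent.TG (TMap Lat tl nm IsStr IsNC IsCoord Geo VForm ms Str IsPrim Cap IRel II TransAt Gd Cst DV fr tc)

variable {N k : ℕ}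

variable {X : Set (EN N)} {Λ : AddSubgroup (Vd (k + 1))} {u : EN N → Vd (k + 1)} {D B : Set (Vd (k + 1))}
  {κ ψ : Vd (k + 1) → Vd (k + 1)} {R : ℝ} {g : ℂ → Fin k → ℂ} {Γ₀ : AddSubgroup ℂ} {s : ℝ}

/-- small constants -/
private theorem Fam_const {R s : ℝ} {r : ℝ} (hr : 0 < r) {a b : ℕ} (hab : 0 < a + b) (hle : 2 * r ≤ min (R / 2) (min s 1)) :
    2 * r < R ∧ (2 * r) ^ (a + b) < R ∧ (2 * r) ^ (a + b) ≤ s := by
  have h1 : 2 * r ≤ R / 2 := hle.trans (min_le_left _ _)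
  have h2 : 2 * r ≤ s := hle.trans ((min_le_right _ _).trans (min_le_left _ _))
  have h3 : 2 * r ≤ 1 := hle.trans ((min_le_right _ _).trans (min_le_right _ _))
  have h4 : (2 * r) ^ (a + b) ≤ 2 * r := pow_le_of_le_one (by positivity) h3 hab.ne'
  exact ⟨by linarith, by linarith, by linarith⟩

private theorem Fam_nch {R s : ℝ} {χ : Chart (k + 2) X} {r : ℝ} {a b : ℕ} (h : Pool.Agent.G3.X.NCC Λ u κ χ r a b)
    (hle : 2 * r ≤ min (R / 2) (min s 1)) : NCh Λ u κ R χ r a b ∧ (2 * r) ^ (a + b) ≤ s := by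
  obtain ⟨h1, h2, h3⟩ := Fam_const h.pos h.ab hle
  exact ⟨⟨h.pos, h.ab, h1, h2, h.lift⟩, h3⟩

theorem exists_fam (K : Kp X Λ u D κ ψ R) (hnc : ∀ x ∈ X, u x - κ 0 ∈ Λ → IsNC X Λ u κ x) (hs : 0 < s) :
    ∃ (Φ : Fam X k) (ρ : ℝ), FamG Λ u κ R s ρ Φ := by
  have hR := K.pos
  obtain ⟨T, s₃, hT⟩ := Pool.Agent.G3.X.exists_tb3 K.cone K.tor K.lat hnc (by positivity : 0 < min (R / 2) (min s 1))
  have hc := fun i => Fam_nch (hT.ncc i) (hT.le i)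
  have hw := fun j => Fam_nch (hT.wncc j) (hT.wle j)
  -- the radius
  have e1 : ∀ᶠ ρ in 𝓝[>] (0 : ℝ), ∀ i, ρ ≤ (T.c i).r :=
    Filter.eventually_all.2 fun i => mem_nhdsWithin_of_mem_nhds (ge_mem_nhds (hT.ncc i).pos)
  have e2 : ∀ᶠ ρ in 𝓝[>] (0 : ℝ), ∀ j, ρ ≤ (T.w j).r * (T.w j).R :=
    Filter.eventually_all.2 fun j => mem_nhdsWithin_of_mem_nhds (ge_mem_nhds (mul_pos (hT.wncc j).pos (hT.wR j).1))
  have e3 : ∀ᶠ ρ in 𝓝[>] (0 : ℝ), ρ ≤ s ∧ ρ ≤ R :=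
    Filter.Eventually.and (mem_nhdsWithin_of_mem_nhds (ge_mem_nhds hs)) (mem_nhdsWithin_of_mem_nhds (ge_mem_nhds hR))
  have e4 : ∀ᶠ ρ in 𝓝[>] (0 : ℝ), ∀ q ∈ ball (0 : Vd (k + 1)) ρ, κ q ∈ ball (κ 0) s₃ := by
    have h1 : ContinuousAt κ 0 := (K.κ_an 0 (mem_ball_self hR)).continuousAt
    obtain ⟨δ, hδ, h2⟩ := Metric.eventually_nhds_iff_ball.1 (h1.eventually (ball_mem_nhds (κ 0) hT.pos))
    filter_upwards [mem_nhdsWithin_of_mem_nhds (ge_mem_nhds hδ)] with ρ hρ q hq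
    exact h2 q (ball_subset_ball hρ hq)
  obtain ⟨ρ, ⟨⟨⟨h1, h2⟩, h3⟩, h4⟩, hρ⟩ := ((((e1.and e2).and e3).and e4).and self_mem_nhdsWithin).exists
  refine ⟨⟨T.m, fun i => (T.c i).χ, fun i => (T.c i).r, fun i => (T.c i).a, fun i => (T.c i).b, T.W, T.n, fun j => (T.w j).χ, fun j => (T.w j).r,
    fun j => (T.w j).a, fun j => (T.w j).b, fun j => (T.w j).R⟩, ρ, ?_⟩
  exact ⟨hρ, h3.1, h3.2, fun i => (hc i).1, fun i => (hc i).2, h1, hT.W_open, hT.W_sub, hT.W_smul, fun q hq x hx hxq => hT.cover _ (h4 q hq) x hx hxq,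
    fun j => (hw j).1, fun j => (hw j).2, hT.wR, h2, hT.wsub, hT.wnest, fun q hq x hx hxq => hT.wcover _ (h4 q hq) x hx hxq⟩

end Pool.Agent.GX

end

section

/-!
# G3 X Main: uniform crossing for arcs near a line

Constants.  `κ, ξ₀` from `exists_line_coord`, `a = deriv ξ₀ 0`, `ψ, R, r₀` from `exists_kp` (`κ 0 = p`).  `S₁` from `exists_inv` for a small `S' ≤ S`: for `‖z‖ < S'`: `κ (cons (ξ₀ z) 0) = p + z • e`, `z • e ∈ ball 0 (r₀ / 4)`, `‖ξ₀ z‖ < R`; `S'` so small that `‖a‖ S₁ / 4 ≤ R`.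
`s = ‖a‖ S₁ / 8` (the graphs are defined on `ball 0 (2 s)`).  `Φ, ρ` from `exists_fam`.  `C` a Lipschitz constant of `ψ` on `ball p (r₀ / 2)` (after shrinking `r₀`).  `s₀ = min (ρ / (4 ‖a‖)) (S₁ / 8)`, `ρ₀` with `ρ₀ ≤ r₀ / 4`, `C ρ₀ < ρ`, `C ρ₀ ≤ ‖a‖ S₁ / 100`, `C ρ₀ ≤ ‖a‖ s₀ / 50`.
For `γ`: `c z = ψ (γ z)` on `ball 0 S₁`, `‖c z - cons (ξ₀ z) 0‖ ≤ C ρ₀` (`ψ (p + z • e) = cons (ξ₀ z) 0`), `ξ z = c z 0`, `θ` from `exists_inv`, `g w j = c (θ w) j.succ`: `‖g w‖ ≤ C ρ₀ < ρ`, `ar κ g w = γ (θ w)`.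
`z₁ = θ 0`.  `F∘θ`, `H∘θ` on `ball 0 t`, `t = 13/10 ‖a‖ s₀ ≤ ρ`, `r₁ = 35/100 ‖a‖ s₀`, `r₂ = 8/10 ‖a‖ s₀`: `‖θ w‖ ≤ (‖w‖ + ‖ξ 0‖) / (9/10 ‖a‖)`, `‖θ w‖ ≥ (‖w‖ - ‖ξ 0‖) / (11/10 ‖a‖)`, `‖ξ 0‖ ≤ ‖a‖ s₀ / 50`.  `J'` from `cross_graph`.
`J z = J' (ξ z)` for `‖z‖ < 6/10 s₀` and `II ..` otherwise; on `45/100 s₀ < ‖z‖ < 6/10 s₀` both agree.  `II_arc`: the integral is analytic on the annulus `s₀ / 4 < ‖z‖ < s₀` (connected), so `J` agrees with it there (identity theorem).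
-/

set_option autoImplicit false

open Topology Filter Metric

namespace Pool.Agent.GX

open Pool.Agent.H36.BP (EN fs wd)
open Pool.Agent.H14.PP (IsCone CurveAt Tan)
open Pool.Agent.H62.EF (MN pr)
open Pool.Agent.AD (Vd Chart Charts IsGerm)
open Pool.Agent.TG (TMap Lat tl nm IsStr IsNC IsCoord Geo VForm ms Str IsPrim Cap IRel II TransAt Gd Cst DV fr tc)

variable {N k : ℕ}

variable {X : Set (EN N)} {Λ : AddSubgroup (Vd (k + 1))} {u : EN N → Vd (k + 1)} {D B : Set (Vd (k + 1))}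
  {κ ψ : Vd (k + 1) → Vd (k + 1)} {R : ℝ} {g : ℂ → Fin k → ℂ} {Γ₀ : AddSubgroup ℂ} {s : ℝ}

/-- annuli are connected -/
private theorem main_ann {r₁ r₂ : ℝ} (h : 0 ≤ r₁) : IsPreconnected {z : ℂ | r₁ < ‖z‖ ∧ ‖z‖ < r₂} := by
  have he : {z : ℂ | r₁ < ‖z‖ ∧ ‖z‖ < r₂} = (fun p : ℝ × ℝ => circleMap 0 p.1 p.2) '' (Set.Ioo r₁ r₂ ×ˢ Set.univ) := by
    ext z
    simp only [Set.mem_ofPred_eq, Set.mem_image, Set.mem_prod, Set.mem_Ioo, Set.mem_univ, and_true, Prod.exists]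
    constructor
    · rintro ⟨h1, h2⟩
      refine ⟨‖z‖, Complex.arg z, ⟨h1, h2⟩, ?_⟩
      rw [circleMap, Complex.norm_mul_exp_arg_mul_I, zero_add]
    · rintro ⟨r, θ, ⟨h1, h2⟩, rfl⟩
      have hd : ‖circleMap 0 r θ‖ = r := by
        rw [norm_circleMap_zero, abs_of_pos (lt_of_le_of_lt h h1)]
      rw [hd]
      exact ⟨h1, h2⟩
  rw [he]
  refine (isPreconnected_Ioo.prod isPreconnected_univ).image _ ?_
  have hc : Continuous fun p : ℝ × ℝ => circleMap 0 p.1 p.2 := by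
    unfold circleMap
    fun_prop
  exact hc.continuousOn

/-- glueing a function on a disc and a function on an annulus -/
theorem main_glue {J₁ I : ℂ → ℂ} {a b c d : ℝ} (ha : 0 < a) (hab : a < b) (hbc : b < c) (hcd : c < d) (h1 : DifferentiableOn ℂ J₁ (ball 0 c))
    (h2 : ∀ z : ℂ, a < ‖z‖ → ‖z‖ < d → AnalyticAt ℂ I z) (h3 : ∀ z : ℂ, b < ‖z‖ → ‖z‖ < c → J₁ z = I z) :
    ∃ J : ℂ → ℂ, DifferentiableOn ℂ J (ball 0 d) ∧ ∀ z : ℂ, a < ‖z‖ → ‖z‖ < d → J z = I z := by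
  classical
  have hop : IsOpen {z : ℂ | a < ‖z‖ ∧ ‖z‖ < c} := (isOpen_lt continuous_const continuous_norm).inter (isOpen_lt continuous_norm continuous_const)
  have han1 : AnalyticOnNhd ℂ J₁ {z : ℂ | a < ‖z‖ ∧ ‖z‖ < c} := fun z hz =>
    (h1.analyticOnNhd isOpen_ball) z (mem_ball_zero_iff.2 hz.2)
  have han2 : AnalyticOnNhd ℂ I {z : ℂ | a < ‖z‖ ∧ ‖z‖ < c} := fun z hz => h2 z hz.1 (hz.2.trans hcd)
  -- a point of the small annulus
  set z₀ : ℂ := (((b + c) / 2 : ℝ) : ℂ) with hz₀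
  have hz₀n : ‖z₀‖ = (b + c) / 2 := by
    rw [hz₀, Complex.norm_real, Real.norm_of_nonneg (by linarith only [ha, hab, hbc])]
  have hev : J₁ =ᶠ[𝓝 z₀] I := by
    have h4 : IsOpen {z : ℂ | b < ‖z‖ ∧ ‖z‖ < c} := (isOpen_lt continuous_const continuous_norm).inter (isOpen_lt continuous_norm continuous_const)
    have h5 : z₀ ∈ {z : ℂ | b < ‖z‖ ∧ ‖z‖ < c} := by
      constructor
      · rw [hz₀n]
        linarith only [hbc]
      · rw [hz₀n]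
        linarith only [hbc]
    filter_upwards [h4.mem_nhds h5] with z hz
    exact h3 z hz.1 hz.2
  have heq : Set.EqOn J₁ I {z : ℂ | a < ‖z‖ ∧ ‖z‖ < c} :=
    han1.eqOn_of_preconnected_of_eventuallyEq han2 (main_ann ha.le) (z₀ := z₀) ⟨by rw [hz₀n]; linarith only [hab, hbc], by rw [hz₀n]; linarith⟩ hev
  refine ⟨fun z => if ‖z‖ < c then J₁ z else I z, fun z hz => ?_, fun z hz1 hz2 => ?_⟩
  · rw [mem_ball_zero_iff] at hz
    by_cases hzc : ‖z‖ < c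
    · have h4 : (fun z => if ‖z‖ < c then J₁ z else I z) =ᶠ[𝓝 z] J₁ := by
        filter_upwards [(isOpen_lt continuous_norm continuous_const).mem_nhds hzc] with w hw
        have hw' : ‖w‖ < c := hw
        simp only [if_pos hw']
      exact ((h1.differentiableAt (isOpen_ball.mem_nhds (mem_ball_zero_iff.2 hzc))).congr_of_eventuallyEq h4).differentiableWithinAt
    · have hza : a < ‖z‖ := lt_of_lt_of_le (hab.trans hbc) (not_lt.1 hzc)
      have h4 : (fun z => if ‖z‖ < c then J₁ z else I z) =ᶠ[𝓝 z] I := by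
        filter_upwards [(isOpen_lt continuous_const continuous_norm).mem_nhds hza] with w hw
        have hw' : a < ‖w‖ := hw
        by_cases hwc : ‖w‖ < c
        · simp only [if_pos hwc]
          exact heq ⟨hw', hwc⟩
        · simp only [if_neg hwc]
      exact ((h2 z hza hz).differentiableAt.congr_of_eventuallyEq h4).differentiableWithinAt
  · by_cases hzc : ‖z‖ < c
    · simp only [if_pos hzc]
      exact heq ⟨hz1, hzc⟩
    · simp only [if_neg hzc]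

/-- `ψ` is Lipschitz near `p` -/
theorem main_lip {p : Vd (k + 1)} {r₀ : ℝ} (hr₀ : 0 < r₀) (h : AnalyticAt ℂ ψ p) :
    ∃ r₁ C : ℝ, 0 < r₁ ∧ r₁ ≤ r₀ ∧ 0 < C ∧ ∀ y ∈ ball p r₁, ∀ y' ∈ ball p r₁, ‖ψ y - ψ y'‖ ≤ C * ‖y - y'‖ := by
  obtain ⟨K, U, hU, hK⟩ := h.hasStrictFDerivAt.exists_lipschitzOnWith
  obtain ⟨r, hr, hrU⟩ := Metric.mem_nhds_iff.1 hU
  refine ⟨min r r₀, (K : ℝ) + 1, lt_min hr hr₀, min_le_right _ _, by positivity, fun y hy y' hy' => ?_⟩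
  have h1 := hK.dist_le_mul y (hrU (ball_subset_ball (min_le_left _ _) hy)) y' (hrU (ball_subset_ball (min_le_left _ _) hy'))
  rw [dist_eq_norm, dist_eq_norm] at h1
  nlinarith only [h1, norm_nonneg (y - y')]

end Pool.Agent.GX

end
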