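import Pool.Agent.H94.G5T.M67
import Pool.Agent.H94.G5T.M69
import Pool.Agent.H94.G5T.M70
import Pool.Agent.H94.G5T.M81

/-! The parts of this file: G3.X.Hc, G3.X.Pot, G3.X.UnZ, G3.X.CrF. -/

section

/-!
# G3 X Hc: primitives along curves, local potentials

`exists_Hc`: copy of `Pool.Agent.TGY.exists_H` (`TG/Y/Hf.lean`) for an arbitrary curve in the tube.

`loc_pot`: the form with the coefficients `(bc χ A χ₀ (1, 0) + A₀, bc χ A χ₀ (0, 1))` is closed near `p₀`: near `p₀` the points `χ₀.σ p` are in `χ.U`, `mo b ρ i j (χ.q (χ₀.σ p)) = mo c₀ ρ₀ 1 0 p` (both are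
`u (χ₀.σ p)` modulo `Λ`: `Mon.lift`, `TorusMap.smul`, and within `η` of `b`: `hinj`; see `ps_lift` in `EL/Ps.lean`), so `bc_closed` (`EL/Db`) and `IsPrim.der` give `∂₁ b₂ - ∂₂ b₁ = tc α χ₀ = ∂₂ A₀`.
`exists_potential` (`EL/Prm`) on a small bidisc about `p₀` (translate: `p ↦ p₀ + p`); `bc_an`.
-/

set_option autoImplicit false

open Topology Filter Metric

namespace Pool.Agent.GXE

open Pool.Agent.H36.BP (EN wd IsGermChart)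
open Pool.Agent.H14.PP (IsCone Chart Tan CurveAt jac)
open Pool.Agent.H62.EF (Lat MN pr TorusMap Charts)
open Pool.Agent.H62.EL

variable {N : ℕ} {X : Set (EN N)} {Λ : AddSubgroup ℂ} {u : EN N → ℂ}

theorem exists_Hc {b : ℂ} {s η : ℝ} {T : TubeData X} (hT : TubeG Λ u b s η T) {A : Fin T.m → ℂ × ℂ → ℂ}
    (hA : ∀ k, ∀ p ∈ ball (0 : ℂ × ℂ) 2, AnalyticAt ℂ (A k) p) {lam : Fin T.m → EN N → ℂ} (hs : Split Λ u b s T A lam)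
    {Φ : ℂ → EN N} {ζ : ℂ} {t t' : ℝ} (hΦ : DifferentiableOn ℂ Φ (ball ζ t)) (hΦX : ∀ ξ ∈ ball ζ t, Φ ξ ∈ X)
    (hΦb : ∀ ξ ∈ ball ζ t, ∃ z ∈ ball b s, u (Φ ξ) - z ∈ Λ) (ht : t' < t) :
    ∃ H : ℂ → ℂ, ∀ ξ ∈ ball ζ t', ∀ k, Φ ξ ∈ T.W k → HasDerivAt (fun w => H w + lam k (Φ w)) (bt (T.χ k) (A k) Φ ξ) ξ := by
  have hFa : ∀ z ∈ ball ζ t, AnalyticAt ℂ Φ z := fun z hz => hΦ.analyticAt (isOpen_ball.mem_nhds hz)
  have hcv : ∀ z ∈ ball ζ t, CurveAt X Φ z := fun z hz => ⟨hFa z hz, by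
    filter_upwards [isOpen_ball.mem_nhds hz] with w hw
    exact hΦX w hw⟩
  have hbt : ∀ k, ∀ z ∈ ball ζ t, Φ z ∈ T.W k → AnalyticAt ℂ (fun w => bt (T.χ k) (A k) Φ w) z := by
    intro k z hzt hz
    have hU : Φ z ∈ (T.χ k).U := hT.W_sub k hz
    have hq : AnalyticAt ℂ (fun ξ => (T.χ k).q (Φ ξ)) z :=
      AnalyticAt.comp (g := (T.χ k).q) (f := Φ) ((T.χ k).q_an _ hU) (hFa z hzt)
    have hA' : AnalyticAt ℂ (fun ξ => A k ((T.χ k).q (Φ ξ))) z :=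
      AnalyticAt.comp (g := A k) (f := fun ξ => (T.χ k).q (Φ ξ)) (hA k _ ((T.χ k).surj _ (hΦX z hzt) hU).1) hq
    have hd : AnalyticAt ℂ (fun ζ => (deriv (fun ξ => (T.χ k).q (Φ ξ)) ζ).1) z :=
      AnalyticAt.comp (g := Prod.fst) (f := deriv (fun ξ => (T.χ k).q (Φ ξ))) analyticAt_fst hq.deriv
    unfold bt
    exact (hA'.mul hd).neg
  apply glue ht (fun H z => ∀ k, Φ z ∈ T.W k →
    HasDerivAt (fun w => H w + lam k (Φ w)) (bt (T.χ k) (A k) Φ z) z)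
  · intro z hz
    obtain ⟨z', hz', hzu⟩ := hΦb z hz
    obtain ⟨k, hk⟩ := hT.cover z' hz' (Φ z) (hΦX z hz) hzu
    have ho : IsOpen (ball ζ t ∩ Φ ⁻¹' T.W k) :=
      hΦ.continuousOn.isOpen_inter_preimage isOpen_ball (hT.W_open k)
    obtain ⟨r, hr, hsub⟩ := Metric.isOpen_iff.1 ho z ⟨hz, hk⟩
    have hex : DifferentiableOn ℂ (fun w => bt (T.χ k) (A k) Φ w) (ball z r) := fun w hw =>
      (hbt k w (hsub hw).1 (hsub hw).2).differentiableAt.differentiableWithinAt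
    obtain ⟨P, hP⟩ := hex.isExactOn_ball
    refine ⟨r, fun w => P w - lam k (Φ w), hr, ?_⟩
    intro w hw l hl
    have h1 := hP w hw
    have h2 := hs.2 k l Φ w (hcv w (hsub hw).1) (hΦb w (hsub hw).1) (hsub hw).2 hl
    have h3 := h1.sub h2
    have e1 : bt (T.χ k) (A k) Φ w - (bt (T.χ k) (A k) Φ w - bt (T.χ l) (A l) Φ w) = bt (T.χ l) (A l) Φ w := by
      ring
    rw [e1] at h3
    refine h3.congr_of_eventuallyEq (Eventually.of_forall fun ξ => ?_)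
    simp only [Pi.sub_apply]
    ring
  · intro H H' z hz h h'
    obtain ⟨z', hz', hzu⟩ := hΦb z hz
    obtain ⟨k, hk⟩ := hT.cover z' hz' (Φ z) (hΦX z hz) hzu
    have h1 := (h k hk).sub (h' k hk)
    rw [sub_self] at h1
    refine h1.congr_of_eventuallyEq (Eventually.of_forall fun ξ => ?_)
    simp only [Pi.sub_apply]
    ring
  · intro H H' z c h hc k hk
    have h1 := (h k hk).add_const c
    refine h1.congr_of_eventuallyEq ?_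
    filter_upwards [hc] with ξ hξ
    rw [hξ]
    ring

/-- the lifts of `u` agree -/
private theorem hc_lift (hu : TorusMap X Λ u) {b c₀ : ℂ} {η : ℝ} (hinj : ∀ l ∈ Λ, ‖l‖ < 2 * η → l = 0)
    {χ χ₀ : Chart X} {ρ ρ₀ : ℝ} {i j : ℕ} (hm : Mon Λ u χ b ρ i j) (hm₀ : Mon Λ u χ₀ c₀ ρ₀ 1 0)
    (hr : ∀ p ∈ ball (0 : ℂ × ℂ) 2, ‖mo b ρ i j p - b‖ < η)
    {p : ℂ × ℂ} (hp : p ∈ ball (0 : ℂ × ℂ) 2) (hU : χ₀.σ p ∈ χ.U) (hb : ‖c₀ + ρ₀ * p.1 - b‖ < η) :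
    mo b ρ i j (χ.q (χ₀.σ p)) = mo c₀ ρ₀ 1 0 p := by
  obtain ⟨hτ, c, hc, hx⟩ := χ.surj _ (χ₀.σ_mem p hp).1 hU
  have h1 := hm₀.lift p hp
  have h2 := hm.lift _ hτ
  have h3 := hu.smul (χ.σ (χ.q (χ₀.σ p))) (χ.σ_mem _ hτ).1 c hc
  rw [← hx] at h3
  have h4 : mo b ρ i j (χ.q (χ₀.σ p)) - mo c₀ ρ₀ 1 0 p ∈ Λ := by
    have h5 := Λ.sub_mem h1 (Λ.add_mem h3 h2)
    have h6 : u (χ₀.σ p) - mo c₀ ρ₀ 1 0 p - (u (χ₀.σ p) - u (χ.σ (χ.q (χ₀.σ p))) +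
        (u (χ.σ (χ.q (χ₀.σ p))) - mo b ρ i j (χ.q (χ₀.σ p)))) =
        mo b ρ i j (χ.q (χ₀.σ p)) - mo c₀ ρ₀ 1 0 p := by ring
    rwa [h6] at h5
  have h9 : ‖mo c₀ ρ₀ 1 0 p - b‖ < η := by
    have h10 : mo c₀ ρ₀ 1 0 p = c₀ + ρ₀ * p.1 := by
      unfold mo
      ring
    rw [h10]
    exact hb
  have h5 : ‖mo b ρ i j (χ.q (χ₀.σ p)) - mo c₀ ρ₀ 1 0 p‖ < 2 * η := by
    have h6 : mo b ρ i j (χ.q (χ₀.σ p)) - mo c₀ ρ₀ 1 0 p =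
        (mo b ρ i j (χ.q (χ₀.σ p)) - b) - (mo c₀ ρ₀ 1 0 p - b) := by ring
    rw [h6]
    have h7 := norm_sub_le (mo b ρ i j (χ.q (χ₀.σ p)) - b) (mo c₀ ρ₀ 1 0 p - b)
    have h8 := hr _ hτ
    linarith
  exact sub_eq_zero.1 (hinj _ h4 h5)

private theorem hc_tr (f : ℂ × ℂ → ℂ) {a p : ℂ × ℂ} (hf : AnalyticAt ℂ f (a + p)) :
    AnalyticAt ℂ (fun y => f (a + y)) p ∧ fderiv ℂ (fun y => f (a + y)) p = fderiv ℂ f (a + p) := by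
  constructor
  · exact AnalyticAt.comp (g := f) (f := fun y => a + y) hf (analyticAt_const.add analyticAt_id)
  · exact fderiv_comp_add_left a

theorem loc_pot (hX : IsCone X) (hu : TorusMap X Λ u) {α : TForm X Λ u} {χ χ₀ : Chart X} {b c₀ : ℂ} {ρ ρ₀ η : ℝ} {i j : ℕ}
    (hinj : ∀ l ∈ Λ, ‖l‖ < 2 * η → l = 0) (hm : Mon Λ u χ b ρ i j) (hr : ∀ p ∈ ball (0 : ℂ × ℂ) 2, ‖mo b ρ i j p - b‖ < η)
    (hm₀ : Mon Λ u χ₀ c₀ ρ₀ 1 0) {A A₀ : ℂ × ℂ → ℂ} (hA : IsPrim α χ (mo b ρ i j) A) (hA₀ : IsPrim α χ₀ (mo c₀ ρ₀ 1 0) A₀)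
    {p₀ : ℂ × ℂ} (hp₀ : p₀ ∈ ball (0 : ℂ × ℂ) 2) (hU : χ₀.σ p₀ ∈ χ.U) (hb : ‖c₀ + ρ₀ * p₀.1 - b‖ < η) :
    ∃ ψ : ℂ × ℂ → ℂ, ∀ᶠ p in 𝓝 p₀, AnalyticAt ℂ ψ p ∧ fderiv ℂ ψ p (1, 0) = bc χ A χ₀ (1, 0) p + A₀ p ∧
      fderiv ℂ ψ p (0, 1) = bc χ A χ₀ (0, 1) p := by
  have hev : ∀ᶠ p in 𝓝 p₀, p ∈ ball (0 : ℂ × ℂ) 2 ∧ χ₀.σ p ∈ χ.U ∧ ‖c₀ + ρ₀ * p.1 - b‖ < η := by
    have h1 := isOpen_ball.mem_nhds hp₀
    have h2 : ∀ᶠ p in 𝓝 p₀, χ₀.σ p ∈ χ.U :=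
      (χ₀.σ_an p₀ hp₀).continuousAt.eventually (χ.isOpen_U.mem_nhds hU)
    have h3 : IsOpen {p : ℂ × ℂ | ‖c₀ + ρ₀ * p.1 - b‖ < η} := isOpen_lt (by fun_prop) continuous_const
    filter_upwards [h1, h2, h3.mem_nhds hb] with p h4 h5 h6
    exact ⟨h4, h5, h6⟩
  obtain ⟨r, hr0, hsub⟩ := Metric.eventually_nhds_iff_ball.1 hev
  have htr : ∀ p ∈ ball (0 : ℂ × ℂ) r, p₀ + p ∈ ball p₀ r := by
    intro p hp
    rw [mem_ball_zero_iff] at hp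
    rw [mem_ball, dist_eq_norm, add_sub_cancel_left]
    exact hp
  have hb1 : ∀ p ∈ ball p₀ r, AnalyticAt ℂ (bc χ A χ₀ (1, 0)) p := fun p hp =>
    bc_an χ χ₀ hA.an (hsub p hp).1 (hsub p hp).2.1 (1, 0)
  have hb2 : ∀ p ∈ ball p₀ r, AnalyticAt ℂ (bc χ A χ₀ (0, 1)) p := fun p hp =>
    bc_an χ χ₀ hA.an (hsub p hp).1 (hsub p hp).2.1 (0, 1)
  have hb3 : ∀ p ∈ ball p₀ r, AnalyticAt ℂ (fun y => bc χ A χ₀ (1, 0) y + A₀ y) p := fun p hp =>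
    (hb1 p hp).fun_add (hA₀.an p (hsub p hp).1)
  obtain ⟨ψ, -, hψ⟩ := exists_potential (R := r) (b₁ := fun p => bc χ A χ₀ (1, 0) (p₀ + p) + A₀ (p₀ + p))
    (b₂ := fun p => bc χ A χ₀ (0, 1) (p₀ + p)) (fun p hp => (hc_tr _ (hb3 _ (htr p hp))).1)
    (fun p hp => (hc_tr _ (hb2 _ (htr p hp))).1) (by
      intro p hp
      have hq := htr p hp
      obtain ⟨g1, g2, g3⟩ := hsub _ hq
      have h1 := bc_closed hX hu α χ χ₀ hA g1 g2 (hm₀.lift _ g1) (hc_lift hu hinj hm hm₀ hr g1 g2 g3)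
      have h2 := hA₀.der _ g1
      have h3 : fderiv ℂ (fun y => bc χ A χ₀ (1, 0) y + A₀ y) (p₀ + p) =
          fderiv ℂ (bc χ A χ₀ (1, 0)) (p₀ + p) + fderiv ℂ A₀ (p₀ + p) :=
        fderiv_fun_add (hb1 _ hq).differentiableAt (hA₀.an _ g1).differentiableAt
      have h4 := (hc_tr (fun y => bc χ A χ₀ (1, 0) y + A₀ y) (hb3 _ hq)).2
      have h5 := (hc_tr (bc χ A χ₀ (0, 1)) (hb2 _ hq)).2
      rw [h4, h5, h3, _root_.add_apply, h2, ← h1]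
      ring)
  refine ⟨fun p => ψ (p - p₀), ?_⟩
  filter_upwards [ball_mem_nhds p₀ hr0] with p hp
  have hp' : p - p₀ ∈ ball (0 : ℂ × ℂ) r := by
    rw [mem_ball, dist_eq_norm] at hp
    rw [mem_ball_zero_iff]
    exact hp
  obtain ⟨h1, h2, h3⟩ := hψ _ hp'
  have e1 : (fun y => ψ (y - p₀)) = fun y => ψ (-p₀ + y) := by
    funext y
    rw [sub_eq_neg_add]
  have e2 : p - p₀ = -p₀ + p := sub_eq_neg_add _ _
  rw [e2] at h1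
  have h4 := hc_tr ψ h1
  rw [← e1, ← e2] at h4
  refine ⟨h4.1, ?_, ?_⟩
  · rw [h4.2, h2]
    simp only [add_sub_cancel]
  · rw [h4.2, h3]
    simp only [add_sub_cancel]

end Pool.Agent.GXE

end

section

/-!
# G3 X Pot: the potential on an arbitrary straight chart of the tube

`exists_pot`: the chart `χ₀` need not be in one of the cones `W k`.  Write `σ = χ₀.σ`.  For `‖s‖ < 2` the curve `t ↦ σ (s, t)`, `‖t‖ < 2`, is in the fibre over `c₀ + ρ₀ s ∈ ball b s'`: `exists_Hc` (`t' = 7/4`)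
gives `H_s` (choice); the curve `s ↦ σ (s, 0)` gives `H⁰` on `ball 0 (7/4)`.  `Ψ (s, t) = H⁰ s + H_s t - H_s 0`.
Let `(s₁, t₁) ∈ ball 0 (3/2)`.  For `θ ∈ [0, 1]` let `S θ`: for all `s` near `s₁` and all `k` with `σ (s, θ t₁) ∈ W k` the function `s' ↦ Ψ (s', θ t₁) + lam k (σ (s', θ t₁))` has at `s` the derivative
`bt (T.χ k) (A k) (s' ↦ σ (s', θ t₁)) s + A₀ (s, θ t₁)`.
`S 0`: `H⁰` and `A₀ (s, 0) = 0` (`IsPrim.zero`).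
Near `θ₁ ∈ [0, 1]`: `S θ ↔ S θ₁`: let `σ (s₁, θ₁ t₁) ∈ W k` (`TubeG.cover`), `ψ` from `loc_pot` at `p₁ = (s₁, θ₁ t₁)` for the chart `T.χ k`, `N = ball p₁ δ` such that on `N`: `σ p ∈ W k` and `ψ` is a potential.  For
fixed `s` with `‖s - s₁‖ < δ` the function `t ↦ H_s t + lam k (σ (s, t)) - ψ (s, t)` has the derivative `bt - bc (0, 1) = 0` on `‖t - θ₁ t₁‖ < δ` (`bt_eq` with the curve `t ↦ σ (s, t)`, whose coordinates in `χ₀` are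
`(s, t)`), so it is constant there, and (*) `Ψ (s, t) + lam k (σ (s, t)) - ψ (s, t) =: D s` does not depend on `t`.  For `‖θ t₁ - θ₁ t₁‖ < δ` the property of `S θ` for this `k` is equivalent to `D' = 0` near `s₁` (`ψ` has the
`s`-derivative `bc (1, 0) + A₀`, `bt_eq` for the curve `s' ↦ σ (s', θ t₁)`); and for one `k` it implies the one for all `k'`: `Split`.
`[0, 1]` is connected: `S 1` (e.g. `IsPreconnected` / `Set.Icc` induction, or the set of the `θ` with `S θ` is clopen).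
At `(s₁, t₁)` (`θ = 1`): `D' = 0` near `s₁`, so `Ψ + lam k ∘ σ = ψ + const` near `(s₁, t₁)`.  For a curve `γ` with `γ ζ ∈ χ₀.U`, `χ₀.q (γ ζ) = (s₁, t₁)`: `γ ξ = c • σ (χ₀.q (γ ξ))`, `lam k (γ ξ) = lam k (σ (χ₀.q (γ ξ)))`
(`Split`, first part), chain rule for `ψ`, `bt_eq`.  For another `k'` with `γ ζ ∈ W k'`: `Split`.
-/

set_option autoImplicit false

open Topology Filter Metric

namespace Pool.Agent.GXE

open Pool.Agent.H36.BP (EN wd IsGermChart)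
open Pool.Agent.H14.PP (IsCone Chart Tan CurveAt jac)
open Pool.Agent.H62.EF (Lat MN pr TorusMap Charts)
open Pool.Agent.H62.EL

variable {N : ℕ} {X : Set (EN N)} {Λ : AddSubgroup ℂ} {u : EN N → ℂ}

/-- horizontal and vertical curves in a chart -/
private theorem pot_curve (χ₀ : Chart X) {h : ℂ → ℂ × ℂ} {ξ : ℂ} (hh : AnalyticAt ℂ h ξ) (hb : h ξ ∈ ball (0 : ℂ × ℂ) 2) {e : ℂ × ℂ} (he : HasDerivAt h e ξ) :
    CurveAt X (fun w => χ₀.σ (h w)) ξ ∧ χ₀.σ (h ξ) ∈ χ₀.U ∧ χ₀.q (χ₀.σ (h ξ)) = h ξ ∧ deriv (fun w => χ₀.q (χ₀.σ (h w))) ξ = e := by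
  have hev : ∀ᶠ w in 𝓝 ξ, h w ∈ ball (0 : ℂ × ℂ) 2 := hh.continuousAt.eventually (isOpen_ball.mem_nhds hb)
  refine ⟨⟨AnalyticAt.comp (g := χ₀.σ) (f := h) (χ₀.σ_an _ hb) hh, ?_⟩, (χ₀.σ_mem _ hb).2.1, (χ₀.σ_mem _ hb).2.2, ?_⟩
  · filter_upwards [hev] with w hw
    exact (χ₀.σ_mem _ hw).1
  · have h1 : (fun w => χ₀.q (χ₀.σ (h w))) =ᶠ[𝓝 ξ] h := by
      filter_upwards [hev] with w hw
      exact (χ₀.σ_mem _ hw).2.2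
    rw [h1.deriv_eq, he.deriv]

/-- `bt` along a curve in the chart -/
private theorem pot_bt (χ χ₀ : Chart X) (A : ℂ × ℂ → ℂ) {h : ℂ → ℂ × ℂ} {ξ : ℂ} (hh : AnalyticAt ℂ h ξ) (hb : h ξ ∈ ball (0 : ℂ × ℂ) 2) {e : ℂ × ℂ}
    (he : HasDerivAt h e ξ) (hU : χ₀.σ (h ξ) ∈ χ.U) :
    bt χ A (fun w => χ₀.σ (h w)) ξ = bc χ A χ₀ (1, 0) (h ξ) * e.1 + bc χ A χ₀ (0, 1) (h ξ) * e.2 := by
  obtain ⟨h1, h2, h3, h4⟩ := pot_curve χ₀ hh hb he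
  have h5 := bt_eq χ χ₀ A h1 h2 hU
  simp only [h3, h4] at h5
  exact h5

private theorem pot_pair {ψ : ℂ × ℂ → ℂ} {p : ℂ × ℂ} (e : ℂ × ℂ) :
    fderiv ℂ ψ p e = fderiv ℂ ψ p (1, 0) * e.1 + fderiv ℂ ψ p (0, 1) * e.2 := by
  have h3 : e = e.1 • ((1, 0) : ℂ × ℂ) + e.2 • ((0, 1) : ℂ × ℂ) := by
    refine Prod.ext ?_ ?_
    · simp
    · simp
  conv_lhs => rw [h3, map_add, map_smul, map_smul]
  simp only [smul_eq_mul]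
  ring

/-- the local potential at a point of the chart -/
private theorem pot_loc (hX : IsCone X) (hu : TorusMap X Λ u) {b : ℂ} {s η : ℝ} {T : TubeData X} (hT : TubeG Λ u b s η T) {α : TForm X Λ u}
    {A : Fin T.m → ℂ × ℂ → ℂ} (hA : ∀ k, IsPrim α (T.χ k) (mo b (T.ρ k) (T.i k) (T.j k)) (A k))
    {χ₀ : Chart X} {c₀ : ℂ} {ρ₀ : ℝ} (hm₀ : Mon Λ u χ₀ c₀ ρ₀ 1 0) (hb : ∀ p ∈ ball (0 : ℂ × ℂ) 2, c₀ + ρ₀ * p.1 ∈ ball b s)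
    {A₀ : ℂ × ℂ → ℂ} (hA₀ : IsPrim α χ₀ (mo c₀ ρ₀ 1 0) A₀) {p₁ : ℂ × ℂ} (hp₁ : p₁ ∈ ball (0 : ℂ × ℂ) (3 / 2)) :
    ∃ (k : Fin T.m) (ψ : ℂ × ℂ → ℂ) (δ : ℝ), 0 < δ ∧ ∀ p ∈ ball p₁ δ, p ∈ ball (0 : ℂ × ℂ) (3 / 2) ∧ χ₀.σ p ∈ T.W k ∧ AnalyticAt ℂ ψ p ∧
      fderiv ℂ ψ p (1, 0) = bc (T.χ k) (A k) χ₀ (1, 0) p + A₀ p ∧ fderiv ℂ ψ p (0, 1) = bc (T.χ k) (A k) χ₀ (0, 1) p := by
  have hp₂ : p₁ ∈ ball (0 : ℂ × ℂ) 2 := ball_subset_ball (by norm_num) hp₁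
  have hl : u (χ₀.σ p₁) - (c₀ + ρ₀ * p₁.1) ∈ Λ := by
    have := hm₀.lift p₁ hp₂
    simpa [mo] using this
  obtain ⟨k, hk⟩ := hT.cover _ (hb p₁ hp₂) _ (χ₀.σ_mem p₁ hp₂).1 hl
  have hη : ‖c₀ + ρ₀ * p₁.1 - b‖ < η := by
    have h1 := hb p₁ hp₂
    rw [mem_ball, dist_eq_norm] at h1
    exact h1.trans_le hT.le
  obtain ⟨ψ, hψ⟩ := loc_pot hX hu hT.inj (hT.mon k) (hT.range k) hm₀ (hA k) hA₀ hp₂ (hT.W_sub k hk) hη
  have hW : ∀ᶠ p in 𝓝 p₁, χ₀.σ p ∈ T.W k := (χ₀.σ_an p₁ hp₂).continuousAt.eventually ((hT.W_open k).mem_nhds hk)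
  have hB : ∀ᶠ p in 𝓝 p₁, p ∈ ball (0 : ℂ × ℂ) (3 / 2) := isOpen_ball.mem_nhds hp₁
  obtain ⟨δ, hδ, h⟩ := Metric.eventually_nhds_iff_ball.1 (hB.and (hW.and hψ))
  exact ⟨k, ψ, δ, hδ, fun p hp => ⟨(h p hp).1, (h p hp).2.1, (h p hp).2.2.1, (h p hp).2.2.2.1, (h p hp).2.2.2.2⟩⟩

private theorem pot_ball {p₁ : ℂ × ℂ} {δ : ℝ} {x y : ℂ} (hx : x ∈ ball p₁.1 δ) (hy : y ∈ ball p₁.2 δ) : (x, y) ∈ ball p₁ δ := by
  rw [mem_ball, Prod.dist_eq, max_lt_iff]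
  exact ⟨hx, hy⟩

/-- a function on a disc with derivative `0` is constant -/
private theorem pot_const {f : ℂ → ℂ} {c : ℂ} {δ : ℝ} (h : ∀ z ∈ ball c δ, HasDerivAt f 0 z) {x y : ℂ} (hx : x ∈ ball c δ) (hy : y ∈ ball c δ) : f x = f y :=
  isOpen_ball.is_const_of_deriv_eq_zero (𝕜 := ℂ) (convex_ball c δ).isPreconnected
    (fun t ht => (h t ht).differentiableAt.differentiableWithinAt) (fun t ht => (h t ht).deriv) hx hy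

theorem exists_pot (hX : IsCone X) (hu : TorusMap X Λ u) {b : ℂ} {s η : ℝ} {T : TubeData X} (hT : TubeG Λ u b s η T) {α : TForm X Λ u}
    {A : Fin T.m → ℂ × ℂ → ℂ} (hA : ∀ k, IsPrim α (T.χ k) (mo b (T.ρ k) (T.i k) (T.j k)) (A k)) {lam : Fin T.m → EN N → ℂ} (hs : Split Λ u b s T A lam)
    {χ₀ : Chart X} {c₀ : ℂ} {ρ₀ : ℝ} (hm₀ : Mon Λ u χ₀ c₀ ρ₀ 1 0) (hb : ∀ p ∈ ball (0 : ℂ × ℂ) 2, c₀ + ρ₀ * p.1 ∈ ball b s)
    {A₀ : ℂ × ℂ → ℂ} (hA₀ : IsPrim α χ₀ (mo c₀ ρ₀ 1 0) A₀) :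
    ∃ Ψ : ℂ × ℂ → ℂ, ∀ (γ : ℂ → EN N) (ζ : ℂ) (k : Fin T.m), CurveAt X γ ζ → γ ζ ∈ χ₀.U → χ₀.q (γ ζ) ∈ ball (0 : ℂ × ℂ) (3 / 2) → γ ζ ∈ T.W k →
      HasDerivAt (fun ξ => Ψ (χ₀.q (γ ξ)) + lam k (γ ξ))
        (bt (T.χ k) (A k) γ ζ + A₀ (χ₀.q (γ ζ)) * (deriv (fun ξ => χ₀.q (γ ξ)) ζ).1) ζ := by
  classical
  have hlift : ∀ p ∈ ball (0 : ℂ × ℂ) 2, u (χ₀.σ p) - (c₀ + ρ₀ * p.1) ∈ Λ := fun p hp => by
    have := hm₀.lift p hp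
    simpa [mo] using this
  have hmemb : ∀ x y : ℂ, ‖x‖ < 2 → ‖y‖ < 2 → (x, y) ∈ ball (0 : ℂ × ℂ) 2 := fun x y hx hy => by
    rw [mem_ball_zero_iff, Prod.norm_def, max_lt_iff]
    exact ⟨hx, hy⟩
  -- vertical curves
  have hver : ∀ x : ℂ, ∃ H : ℂ → ℂ, ‖x‖ < 2 → ∀ ξ ∈ ball (0 : ℂ) (7 / 4), ∀ k, χ₀.σ (x, ξ) ∈ T.W k →
      HasDerivAt (fun w => H w + lam k (χ₀.σ (x, w))) (bt (T.χ k) (A k) (fun w => χ₀.σ (x, w)) ξ) ξ := by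
    intro x
    by_cases hx : ‖x‖ < 2
    · have hc : ∀ ξ ∈ ball (0 : ℂ) 2, (x, ξ) ∈ ball (0 : ℂ × ℂ) 2 := fun ξ hξ => hmemb x ξ hx (mem_ball_zero_iff.1 hξ)
      obtain ⟨H, hH⟩ := exists_Hc (Φ := fun w => χ₀.σ (x, w)) (ζ := 0) (t := 2) (t' := 7 / 4) hT (fun k => (hA k).an) hs (fun ξ hξ => by
          have h1 : AnalyticAt ℂ (fun w => χ₀.σ (x, w)) ξ :=
            AnalyticAt.comp (g := χ₀.σ) (f := fun w : ℂ => (x, w)) (χ₀.σ_an _ (hc ξ hξ)) (analyticAt_const.prod analyticAt_id)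
          exact h1.differentiableAt.differentiableWithinAt) (fun ξ hξ => (χ₀.σ_mem _ (hc ξ hξ)).1)
        (fun ξ hξ => ⟨_, hb _ (hc ξ hξ), hlift _ (hc ξ hξ)⟩) (by norm_num)
      exact ⟨H, fun _ => hH⟩
    · exact ⟨0, fun h => absurd h hx⟩
  choose H hH using hver
  -- the horizontal curve
  obtain ⟨H₀, hH₀⟩ : ∃ H₀ : ℂ → ℂ, ∀ ξ ∈ ball (0 : ℂ) (7 / 4), ∀ k, χ₀.σ (ξ, 0) ∈ T.W k →
      HasDerivAt (fun w => H₀ w + lam k (χ₀.σ (w, 0))) (bt (T.χ k) (A k) (fun w => χ₀.σ (w, 0)) ξ) ξ := by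
    have hc : ∀ ξ ∈ ball (0 : ℂ) 2, (ξ, (0 : ℂ)) ∈ ball (0 : ℂ × ℂ) 2 := fun ξ hξ => hmemb ξ 0 (mem_ball_zero_iff.1 hξ) (by simp)
    exact exists_Hc (Φ := fun w => χ₀.σ (w, 0)) (ζ := 0) (t := 2) (t' := 7 / 4) hT (fun k => (hA k).an) hs (fun ξ hξ => by
          have h1 : AnalyticAt ℂ (fun w => χ₀.σ (w, 0)) ξ :=
            AnalyticAt.comp (g := χ₀.σ) (f := fun w : ℂ => (w, (0 : ℂ))) (χ₀.σ_an _ (hc ξ hξ)) (analyticAt_id.prod analyticAt_const)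
          exact h1.differentiableAt.differentiableWithinAt) (fun ξ hξ => (χ₀.σ_mem _ (hc ξ hξ)).1)
        (fun ξ hξ => ⟨_, hb _ (hc ξ hξ), hlift _ (hc ξ hξ)⟩) (by norm_num)
  set Ψ : ℂ × ℂ → ℂ := fun p => H₀ p.1 + H p.1 p.2 - H p.1 0 with hΨ
  -- the function `Ψ + lam k ∘ σ - ψ` does not depend on the second variable
  have hind : ∀ {p₁ : ℂ × ℂ} {δ : ℝ} {k : Fin T.m} {ψ : ℂ × ℂ → ℂ}, (∀ p ∈ ball p₁ δ, p ∈ ball (0 : ℂ × ℂ) (3 / 2) ∧ χ₀.σ p ∈ T.W k ∧ AnalyticAt ℂ ψ p ∧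
      fderiv ℂ ψ p (1, 0) = bc (T.χ k) (A k) χ₀ (1, 0) p + A₀ p ∧ fderiv ℂ ψ p (0, 1) = bc (T.χ k) (A k) χ₀ (0, 1) p) →
      ∀ x ∈ ball p₁.1 δ, ∀ y ∈ ball p₁.2 δ, ∀ y' ∈ ball p₁.2 δ,
        Ψ (x, y) + lam k (χ₀.σ (x, y)) - ψ (x, y) = Ψ (x, y') + lam k (χ₀.σ (x, y')) - ψ (x, y') := by
    intro p₁ δ k ψ hψ x hx y hy y' hy'
    have h1 : ∀ z ∈ ball p₁.2 δ, HasDerivAt (fun w => H x w + lam k (χ₀.σ (x, w)) - ψ (x, w)) 0 z := by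
      intro z hz
      obtain ⟨g1, g2, g3, -, g5⟩ := hψ _ (pot_ball hx hz)
      have g1' : (x, z) ∈ ball (0 : ℂ × ℂ) 2 := ball_subset_ball (by norm_num) g1
      have g0 : ‖(x, z)‖ < 3 / 2 := mem_ball_zero_iff.1 g1
      have gx : ‖x‖ < 2 := by
        have := norm_fst_le (x, z)
        simp only at this
        linarith
      have gz : z ∈ ball (0 : ℂ) (7 / 4) := by
        have := norm_snd_le (x, z)
        simp only at this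
        rw [mem_ball_zero_iff]
        linarith
      have e1 := hH x gx z gz k g2
      have hd : HasDerivAt (fun w : ℂ => (x, w)) ((0 : ℂ), (1 : ℂ)) z := (hasDerivAt_const z x).prodMk (hasDerivAt_id z)
      have e2 : HasDerivAt (fun w => ψ (x, w)) (fderiv ℂ ψ (x, z) (0, 1)) z :=
        HasFDerivAt.comp_hasDerivAt (l := ψ) (f := fun w : ℂ => (x, w)) z g3.differentiableAt.hasFDerivAt hd
      have e3 := pot_bt (T.χ k) χ₀ (A k) (h := fun w : ℂ => (x, w)) (ξ := z) (analyticAt_const.prod analyticAt_id) g1' hd (hT.W_sub k g2)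
      have e4 := e1.fun_sub e2
      rw [e3, g5] at e4
      exact e4.congr_deriv (by ring)
    have h2 := pot_const h1 hy hy'
    simp only [hΨ]
    linear_combination h2
  -- the derivative in the first variable: equivalent to the derivative `0` of the difference
  have hfst : ∀ {p₁ : ℂ × ℂ} {δ : ℝ} {k : Fin T.m} {ψ : ℂ × ℂ → ℂ}, (∀ p ∈ ball p₁ δ, p ∈ ball (0 : ℂ × ℂ) (3 / 2) ∧ χ₀.σ p ∈ T.W k ∧ AnalyticAt ℂ ψ p ∧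
      fderiv ℂ ψ p (1, 0) = bc (T.χ k) (A k) χ₀ (1, 0) p + A₀ p ∧ fderiv ℂ ψ p (0, 1) = bc (T.χ k) (A k) χ₀ (0, 1) p) →
      ∀ x ∈ ball p₁.1 δ, ∀ y ∈ ball p₁.2 δ, (HasDerivAt (fun w => Ψ (w, y) + lam k (χ₀.σ (w, y))) (bt (T.χ k) (A k) (fun w => χ₀.σ (w, y)) x + A₀ (x, y)) x ↔
        HasDerivAt (fun w => Ψ (w, y) + lam k (χ₀.σ (w, y)) - ψ (w, y)) 0 x) := by
    intro p₁ δ k ψ hψ x hx y hy
    obtain ⟨g1, g2, g3, g4, -⟩ := hψ _ (pot_ball hx hy)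
    have g1' : (x, y) ∈ ball (0 : ℂ × ℂ) 2 := ball_subset_ball (by norm_num) g1
    have hd : HasDerivAt (fun w : ℂ => (w, y)) ((1 : ℂ), (0 : ℂ)) x := (hasDerivAt_id x).prodMk (hasDerivAt_const x y)
    have e2 : HasDerivAt (fun w => ψ (w, y)) (fderiv ℂ ψ (x, y) (1, 0)) x :=
      HasFDerivAt.comp_hasDerivAt (l := ψ) (f := fun w : ℂ => (w, y)) x g3.differentiableAt.hasFDerivAt hd
    have e3 := pot_bt (T.χ k) χ₀ (A k) (h := fun w : ℂ => (w, y)) (ξ := x) (analyticAt_id.prod analyticAt_const) g1' hd (hT.W_sub k g2)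
    have e5 : bt (T.χ k) (A k) (fun w => χ₀.σ (w, y)) x + A₀ (x, y) = fderiv ℂ ψ (x, y) (1, 0) := by
      rw [e3, g4]
      simp
    rw [e5]
    constructor
    · intro h
      exact (h.fun_sub e2).congr_deriv (by ring)
    · intro h
      have h' := (h.fun_add e2).congr_deriv (zero_add _)
      refine h'.congr_of_eventuallyEq (Eventually.of_forall fun w => ?_)
      ring
  -- change of `k`
  have hchg : ∀ {x y : ℂ} {k l : Fin T.m}, (x, y) ∈ ball (0 : ℂ × ℂ) (3 / 2) → χ₀.σ (x, y) ∈ T.W k → χ₀.σ (x, y) ∈ T.W l →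
      HasDerivAt (fun w => Ψ (w, y) + lam k (χ₀.σ (w, y))) (bt (T.χ k) (A k) (fun w => χ₀.σ (w, y)) x + A₀ (x, y)) x →
      HasDerivAt (fun w => Ψ (w, y) + lam l (χ₀.σ (w, y))) (bt (T.χ l) (A l) (fun w => χ₀.σ (w, y)) x + A₀ (x, y)) x := by
    intro x y k l hxy hk hl h
    have g1' : (x, y) ∈ ball (0 : ℂ × ℂ) 2 := ball_subset_ball (by norm_num) hxy
    have hd : HasDerivAt (fun w : ℂ => (w, y)) ((1 : ℂ), (0 : ℂ)) x := (hasDerivAt_id x).prodMk (hasDerivAt_const x y)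
    obtain ⟨c1, -, -, -⟩ := pot_curve χ₀ (h := fun w : ℂ => (w, y)) (ξ := x) (analyticAt_id.prod analyticAt_const) g1' hd
    have h2 := h.fun_add (hs.2 l k _ x c1 ⟨_, hb _ g1', hlift _ g1'⟩ hl hk)
    refine (h2.congr_deriv (by ring)).congr_of_eventuallyEq (Eventually.of_forall fun w => ?_)
    simp only
    ring
  -- the statement
  set S : ℂ → ℂ → ℝ → Prop := fun x₁ t₁ θ => ∀ᶠ x in 𝓝 x₁, ∀ k, χ₀.σ (x, (θ : ℂ) * t₁) ∈ T.W k →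
    HasDerivAt (fun w => Ψ (w, (θ : ℂ) * t₁) + lam k (χ₀.σ (w, (θ : ℂ) * t₁))) (bt (T.χ k) (A k) (fun w => χ₀.σ (w, (θ : ℂ) * t₁)) x + A₀ (x, (θ : ℂ) * t₁)) x with hSdef
  have hS0 : ∀ x₁ t₁ : ℂ, ‖x₁‖ < 3 / 2 → S x₁ t₁ 0 := by
    intro x₁ t₁ hx₁
    have h1 : ∀ᶠ x in 𝓝 x₁, x ∈ ball (0 : ℂ) (7 / 4) := isOpen_ball.mem_nhds (mem_ball_zero_iff.2 (by linarith))
    filter_upwards [h1] with x hx k hk
    have h0 : (((0 : ℝ) : ℂ) * t₁) = 0 := by simp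
    rw [h0] at hk ⊢
    have h2 := hH₀ x hx k hk
    have h3 : A₀ (x, 0) = 0 := hA₀.zero x (by have := mem_ball_zero_iff.1 hx; linarith)
    rw [h3, add_zero]
    simpa [hΨ] using h2
  have hSloc : ∀ x₁ t₁ : ℂ, ‖x₁‖ < 3 / 2 → ‖t₁‖ < 3 / 2 → ∀ θ₁ ∈ Set.Icc (0 : ℝ) 1, ∀ᶠ θ in 𝓝[Set.Icc (0 : ℝ) 1] θ₁, (S x₁ t₁ θ₁ ↔ S x₁ t₁ θ) := by
    intro x₁ t₁ hx₁ ht₁ θ₁ hθ₁
    have hnorm : ∀ θ ∈ Set.Icc (0 : ℝ) 1, ‖(θ : ℂ) * t₁‖ < 3 / 2 := fun θ hθ => by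
      rw [norm_mul, Complex.norm_real, Real.norm_of_nonneg hθ.1]
      calc θ * ‖t₁‖ ≤ 1 * ‖t₁‖ := mul_le_mul_of_nonneg_right hθ.2 (norm_nonneg _)
        _ < 3 / 2 := by linarith
    have hp₁ : (x₁, (θ₁ : ℂ) * t₁) ∈ ball (0 : ℂ × ℂ) (3 / 2) := by
      rw [mem_ball_zero_iff, Prod.norm_def, max_lt_iff]
      exact ⟨hx₁, hnorm θ₁ hθ₁⟩
    obtain ⟨k, ψ, δ, hδ, hψ⟩ := pot_loc hX hu hT hA hm₀ hb hA₀ hp₁
    have hcont : Continuous fun θ : ℝ => (θ : ℂ) * t₁ := by fun_prop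
    have hnear : ∀ᶠ θ : ℝ in 𝓝[Set.Icc (0 : ℝ) 1] θ₁, (θ : ℂ) * t₁ ∈ ball ((θ₁ : ℂ) * t₁) δ :=
      (hcont.continuousAt.eventually (isOpen_ball.mem_nhds (mem_ball_self hδ))).filter_mono nhdsWithin_le_nhds
    -- the property does not depend on `θ`
    have key : ∀ θ : ℝ, (θ : ℂ) * t₁ ∈ ball ((θ₁ : ℂ) * t₁) δ → (S x₁ t₁ θ ↔ ∀ᶠ x in 𝓝 x₁,
        HasDerivAt (fun w => Ψ (w, (θ₁ : ℂ) * t₁) + lam k (χ₀.σ (w, (θ₁ : ℂ) * t₁)) - ψ (w, (θ₁ : ℂ) * t₁)) 0 x) := by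
      intro θ hθ
      have hx1 : ∀ᶠ x in 𝓝 x₁, x ∈ ball x₁ δ := isOpen_ball.mem_nhds (mem_ball_self hδ)
      have hswap : ∀ x ∈ ball x₁ δ, (HasDerivAt (fun w => Ψ (w, (θ : ℂ) * t₁) + lam k (χ₀.σ (w, (θ : ℂ) * t₁)) - ψ (w, (θ : ℂ) * t₁)) 0 x ↔
          HasDerivAt (fun w => Ψ (w, (θ₁ : ℂ) * t₁) + lam k (χ₀.σ (w, (θ₁ : ℂ) * t₁)) - ψ (w, (θ₁ : ℂ) * t₁)) 0 x) := by
        intro x hx
        have h1 : (fun w => Ψ (w, (θ : ℂ) * t₁) + lam k (χ₀.σ (w, (θ : ℂ) * t₁)) - ψ (w, (θ : ℂ) * t₁)) =ᶠ[𝓝 x]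
            fun w => Ψ (w, (θ₁ : ℂ) * t₁) + lam k (χ₀.σ (w, (θ₁ : ℂ) * t₁)) - ψ (w, (θ₁ : ℂ) * t₁) := by
          filter_upwards [isOpen_ball.mem_nhds hx] with w hw
          exact hind hψ w hw _ hθ _ (mem_ball_self hδ)
        exact ⟨fun h => h.congr_of_eventuallyEq h1.symm, fun h => h.congr_of_eventuallyEq h1⟩
      constructor
      · intro h
        filter_upwards [h, hx1] with x h2 h3
        exact (hswap x h3).1 ((hfst hψ x h3 _ hθ).1 (h2 k (hψ _ (pot_ball h3 hθ)).2.1))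
      · intro h
        filter_upwards [h, hx1] with x h2 h3 l hl
        have h4 := (hfst hψ x h3 _ hθ).2 ((hswap x h3).2 h2)
        exact hchg (hψ _ (pot_ball h3 hθ)).1 (hψ _ (pot_ball h3 hθ)).2.1 hl h4
    filter_upwards [hnear] with θ hθ
    rw [key θ hθ, key θ₁ (mem_ball_self hδ)]
  have hS1 : ∀ x₁ t₁ : ℂ, ‖x₁‖ < 3 / 2 → ‖t₁‖ < 3 / 2 → S x₁ t₁ 1 := by
    intro x₁ t₁ hx₁ ht₁
    have h1 : S x₁ t₁ 0 ↔ S x₁ t₁ 1 := by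
      refine isPreconnected_Icc.induction₂ (fun θ θ' => (S x₁ t₁ θ ↔ S x₁ t₁ θ')) (hSloc x₁ t₁ hx₁ ht₁) ?_ ?_ (Set.left_mem_Icc.2 zero_le_one) (Set.right_mem_Icc.2 zero_le_one)
      · intro x y z hx hy hz h h'
        exact h.trans h'
      · intro x y hx hy h
        exact h.symm
    exact h1.1 (hS0 x₁ t₁ hx₁)
  refine ⟨Ψ, fun γ ζ k' hγ hU hq hk' => ?_⟩
  obtain ⟨k, ψ, δ, hδ, hψ⟩ := pot_loc hX hu hT hA hm₀ hb hA₀ hq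
  set x₁ : ℂ := (χ₀.q (γ ζ)).1 with hx₁
  set t₁ : ℂ := (χ₀.q (γ ζ)).2 with ht₁
  have hqn : ‖χ₀.q (γ ζ)‖ < 3 / 2 := mem_ball_zero_iff.1 hq
  have h1 := hS1 x₁ t₁ ((norm_fst_le _).trans_lt hqn) ((norm_snd_le _).trans_lt hqn)
  simp only [hSdef, Complex.ofReal_one, one_mul] at h1
  obtain ⟨δ', hδ', h2⟩ := Metric.eventually_nhds_iff_ball.1 h1
  -- the difference is constant near the point
  have hcst : ∀ᶠ p in 𝓝 (χ₀.q (γ ζ)), Ψ p + lam k (χ₀.σ p) - ψ p = Ψ (x₁, t₁) + lam k (χ₀.σ (x₁, t₁)) - ψ (x₁, t₁) := by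
    have hmin : 0 < min δ δ' := lt_min hδ hδ'
    filter_upwards [isOpen_ball.mem_nhds (mem_ball_self hmin)] with p hp
    rw [mem_ball, Prod.dist_eq, max_lt_iff] at hp
    have hp1 : p.1 ∈ ball x₁ (min δ δ') := hp.1
    have hp2 : p.2 ∈ ball t₁ δ := lt_of_lt_of_le hp.2 (min_le_left _ _)
    have e1 := hind hψ p.1 (ball_subset_ball (min_le_left _ _) hp1) p.2 hp2 t₁ (mem_ball_self hδ)
    have e2 : ∀ z ∈ ball x₁ (min δ δ'), HasDerivAt (fun w => Ψ (w, t₁) + lam k (χ₀.σ (w, t₁)) - ψ (w, t₁)) 0 z := fun z hz =>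
      (hfst hψ z (ball_subset_ball (min_le_left _ _) hz) t₁ (mem_ball_self hδ)).1
        (h2 z (ball_subset_ball (min_le_right _ _) hz) k (hψ _ (pot_ball (ball_subset_ball (min_le_left _ _) hz) (mem_ball_self hδ))).2.1)
    have e3 := pot_const e2 hp1 (mem_ball_self hmin)
    simp only [Prod.mk.eta] at e1
    rw [e1]
    exact e3
  obtain ⟨hw, -, c, hc, hc0, hev⟩ := χ₀.curve hX hγ hU
  obtain ⟨hwm, hγζ⟩ := hev.self_of_nhds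
  obtain ⟨g1, g2, g3, g4, g5⟩ := hψ _ (mem_ball_self hδ)
  have hk : γ ζ ∈ T.W k := by
    rw [hγζ]
    exact hT.W_smul k _ g2 _ hc0
  have hUk : γ ζ ∈ (T.χ k).U := hT.W_sub k hk
  have hd1 : HasDerivAt (fun ξ => ψ (χ₀.q (γ ξ))) (fderiv ℂ ψ (χ₀.q (γ ζ)) (deriv (fun ξ => χ₀.q (γ ξ)) ζ)) ζ :=
    HasFDerivAt.comp_hasDerivAt (l := ψ) ζ g3.differentiableAt.hasFDerivAt hw.differentiableAt.hasDerivAt
  have hd2 : fderiv ℂ ψ (χ₀.q (γ ζ)) (deriv (fun ξ => χ₀.q (γ ξ)) ζ) =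
      bt (T.χ k) (A k) γ ζ + A₀ (χ₀.q (γ ζ)) * (deriv (fun ξ => χ₀.q (γ ξ)) ζ).1 := by
    rw [bt_eq (T.χ k) χ₀ (A k) hγ hU hUk, pot_pair, g4, g5]
    ring
  rw [hd2] at hd1
  have hd3 : HasDerivAt (fun ξ => Ψ (χ₀.q (γ ξ)) + lam k (γ ξ))
      (bt (T.χ k) (A k) γ ζ + A₀ (χ₀.q (γ ζ)) * (deriv (fun ξ => χ₀.q (γ ξ)) ζ).1) ζ := by
    have h3 : (fun ξ => Ψ (χ₀.q (γ ξ)) + lam k (γ ξ)) =ᶠ[𝓝 ζ]
        fun ξ => ψ (χ₀.q (γ ξ)) + (Ψ (x₁, t₁) + lam k (χ₀.σ (x₁, t₁)) - ψ (x₁, t₁)) := by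
      filter_upwards [hev, hc.continuousAt.eventually_ne hc0, hw.continuousAt.eventually hcst] with ξ e1 e2 e3
      have e4 : lam k (γ ξ) = lam k (χ₀.σ (χ₀.q (γ ξ))) := by
        conv_lhs => rw [e1.2]
        exact hs.1 k _ (χ₀.σ_mem _ e1.1).1 _ e2
      rw [e4, ← e3]
      ring
    exact (hd1.add_const _).congr_of_eventuallyEq h3
  have hz : ∃ z ∈ ball b s, u (γ ζ) - z ∈ Λ := by
    refine ⟨_, hb _ hwm, ?_⟩
    have h4 := hu.smul _ (χ₀.σ_mem _ hwm).1 _ hc0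
    rw [← hγζ] at h4
    have h5 := Λ.add_mem h4 (hlift _ hwm)
    simpa using h5
  have h6 := hd3.fun_add (hs.2 k' k γ ζ hγ hz hk' hk)
  refine (h6.congr_deriv (by ring)).congr_of_eventuallyEq (Eventually.of_forall fun w => ?_)
  simp only
  ring

end Pool.Agent.GXE

end

section

/-!
# G3 X UnZ: `EL/Un` and `TG/Y/Jan` with `Capz`

Copy of `H62/EL/Un.lean` (`IRel.eq_cap`, `II_eq`, `II_mulPow`) and `TG/Y/Jan.lean` (`II_analytic_on`): there `Cap` is used only for the points of the fibre over the one value `z`, so `Capz` at `z` is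
enough; the private lemmas of `EL/Un` (`Un_P`, `Un_mo`, `Un_P_mem`, `Un_vert`, `Un_trans`, `Un_deriv`) have to be copied, they do not mention `Cap`.  `II_analytic_z`: as `II_analytic_on`, the
condition `z ∈ closedBall z₀ r` is replaced by the eventual `Capz` at `z`; `EL.IRel.mulPow` is used as it is (`Un_prim` copied).
-/

set_option autoImplicit false

open Topology Filter Metric

namespace Pool.Agent.GXE

open Pool.Agent.H36.BP (EN wd IsGermChart)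
open Pool.Agent.H14.PP (IsCone Chart Tan CurveAt jac)
open Pool.Agent.H62.EF (Lat MN pr TorusMap Charts)
open Pool.Agent.H62.EL

variable {N : ℕ} {X : Set (EN N)} {Λ : AddSubgroup ℂ} {u : EN N → ℂ}

/-- The point of the segment. -/
private noncomputable def Un_P (p p' : ℂ × ℂ) (t : ℂ) : ℂ × ℂ := p + t • (p' - p)

private theorem Un_mo (c : ℂ) (ρ : ℝ) (p : ℂ × ℂ) : mo c ρ 1 0 p = c + ρ * p.1 := by
  simp [mo]

private theorem Un_P_mem {p p' : ℂ × ℂ} (hp : p ∈ ball (0 : ℂ × ℂ) 2) (hp' : p' ∈ ball (0 : ℂ × ℂ) 2) {θ : ℝ} (hθ : θ ∈ Set.Icc (0 : ℝ) 1) :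
    Un_P p p' (θ : ℂ) ∈ ball (0 : ℂ × ℂ) 2 := by
  have hc : Convex ℝ (ball (0 : ℂ × ℂ) 2) := convex_ball _ _
  have h1 := hc.add_smul_sub_mem hp hp' hθ
  have h2 : Un_P p p' (θ : ℂ) = p + θ • (p' - p) := by
    unfold Un_P
    congr 1
  rwa [h2]

private theorem Un_vert (L : ℂ × ℂ →L[ℂ] ℂ) (d : ℂ × ℂ) (hd : d.1 = 0) : L d = d.2 * L (0, 1) := by
  have h1 : d = d.2 • ((0, 1) : ℂ × ℂ) := by
    ext
    · simp [hd]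
    · simp
  conv_lhs => rw [h1]
  rw [map_smul, smul_eq_mul]

/-- The change of charts along the segment. -/
private theorem Un_trans (hX : IsCone X) (hu : TorusMap X Λ u) (hΛ : Lat Λ) {χ χ' : Chart X} {c c' : ℂ} {ρ ρ' : ℝ}
    (hm : Mon Λ u χ c ρ 1 0) (hm' : Mon Λ u χ' c' ρ' 1 0) {q : ℂ × ℂ} (hq : q ∈ ball (0 : ℂ × ℂ) 2) (hU : χ'.σ q ∈ χ.U)
    (he : c + ρ * (χ.q (χ'.σ q)).1 = c' + ρ' * q.1) :
    ∀ᶠ y in 𝓝 q, c + ρ * (χ.q (χ'.σ y)).1 = c' + ρ' * y.1 := by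
  obtain ⟨δ, hδ, hdisc⟩ := hΛ.discrete
  have hσ : ContinuousAt χ'.σ q := (χ'.σ_an q hq).continuousAt
  have hτ : ContinuousAt (fun y => χ.q (χ'.σ y)) q := (χ.q_an _ hU).continuousAt.comp hσ
  have hτ1 : ContinuousAt (fun y => (χ.q (χ'.σ y)).1) q := continuous_fst.continuousAt.comp hτ
  have hcont : ContinuousAt (fun y : ℂ × ℂ => c + ρ * (χ.q (χ'.σ y)).1 - (c' + ρ' * y.1)) q := by
    refine (continuousAt_const.add (continuousAt_const.mul hτ1)).sub ?_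
    exact continuousAt_const.add (continuousAt_const.mul continuous_fst.continuousAt)
  have hsmall : ∀ᶠ y in 𝓝 q, ‖c + ρ * (χ.q (χ'.σ y)).1 - (c' + ρ' * y.1)‖ < δ := by
    have h1 := hcont.norm
    have h2 : ‖c + ρ * (χ.q (χ'.σ q)).1 - (c' + ρ' * q.1)‖ < δ := by
      rw [he, sub_self, norm_zero]
      exact hδ
    exact h1.eventually_lt_const h2
  filter_upwards [hsmall, isOpen_ball.mem_nhds hq, hσ (χ.isOpen_U.mem_nhds hU)] with y h1 h2 h3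
  have hyX := (χ'.σ_mem y h2).1
  obtain ⟨hb, a, ha, hay⟩ := χ.surj _ hyX h3
  have h4 := hm'.lift y h2
  have h5 := hm.lift _ hb
  have h6 : u (χ'.σ y) - u (χ.σ (χ.q (χ'.σ y))) ∈ Λ := by
    have := hu.smul _ (χ.σ_mem _ hb).1 a ha
    rwa [← hay] at this
  rw [Un_mo] at h4 h5
  have h7 : c + ρ * (χ.q (χ'.σ y)).1 - (c' + ρ' * y.1) ∈ Λ := by
    have h8 := Λ.sub_mem (Λ.sub_mem h4 h6) h5
    convert h8 using 1
    ring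
  exact sub_eq_zero.mp (hdisc _ h7 h1)

/-- The derivatives of the two primitives agree. -/
private theorem Un_deriv (hX : IsCone X) (hu : TorusMap X Λ u) (hΛ : Lat Λ) (α : TForm X Λ u) {χ χ' : Chart X} {c c' : ℂ} {ρ ρ' : ℝ}
    (hm : Mon Λ u χ c ρ 1 0) (hm' : Mon Λ u χ' c' ρ' 1 0) {A A' : ℂ × ℂ → ℂ} (hA : IsPrim α χ (mo c ρ 1 0) A)
    (hA' : IsPrim α χ' (mo c' ρ' 1 0) A') {q : ℂ × ℂ} (hq : q ∈ ball (0 : ℂ × ℂ) 2) (hU : χ'.σ q ∈ χ.U)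
    (he : c + ρ * (χ.q (χ'.σ q)).1 = c' + ρ' * q.1) {d : ℂ × ℂ} (hd : d.1 = 0) :
    HasFDerivAt (fun y => A (χ.q (χ'.σ y))) (fderiv ℂ (fun y => A (χ.q (χ'.σ y))) q) q ∧
      fderiv ℂ A' q d / ρ' = fderiv ℂ (fun y => A (χ.q (χ'.σ y))) q d / ρ := by
  have hρ : (ρ : ℂ) ≠ 0 := by exact_mod_cast hm.pos.ne'
  have hρ' : (ρ' : ℂ) ≠ 0 := by exact_mod_cast hm'.pos.ne'
  have hσ : HasFDerivAt χ'.σ (fderiv ℂ χ'.σ q) q := (χ'.σ_an q hq).differentiableAt.hasFDerivAt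
  have hb : χ.q (χ'.σ q) ∈ ball (0 : ℂ × ℂ) 2 := (χ.surj _ (χ'.σ_mem q hq).1 hU).1
  have hτ : HasFDerivAt (fun y => χ.q (χ'.σ y)) (fderiv ℂ (fun y => χ.q (χ'.σ y)) q) q :=
    ((χ.q_an _ hU).differentiableAt.comp q (χ'.σ_an q hq).differentiableAt).hasFDerivAt
  have hAd : HasFDerivAt A (fderiv ℂ A (χ.q (χ'.σ q))) (χ.q (χ'.σ q)) := (hA.an _ hb).differentiableAt.hasFDerivAt
  have hcomp : HasFDerivAt (fun y => A (χ.q (χ'.σ y))) ((fderiv ℂ A (χ.q (χ'.σ q))).comp (fderiv ℂ (fun y => χ.q (χ'.σ y)) q)) q :=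
    hAd.comp q hτ
  set D := fderiv ℂ (fun y => χ.q (χ'.σ y)) q with hD
  have hfst : ∀ w : ℂ × ℂ, ρ * (D w).1 = ρ' * w.1 := by
    intro w
    have h1 := Un_trans hX hu hΛ hm hm' hq hU he
    have h2 : HasFDerivAt (fun y : ℂ × ℂ => c + ρ * (χ.q (χ'.σ y)).1)
        ((ρ : ℂ) • ((ContinuousLinearMap.fst ℂ ℂ ℂ).comp D)) q := by
      have h3 : HasFDerivAt (fun y => (χ.q (χ'.σ y)).1) ((ContinuousLinearMap.fst ℂ ℂ ℂ).comp D) q :=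
        (ContinuousLinearMap.fst ℂ ℂ ℂ).hasFDerivAt.comp q hτ
      exact (h3.const_mul (ρ : ℂ)).const_add c
    have h4 : HasFDerivAt (fun y : ℂ × ℂ => c' + ρ' * y.1) ((ρ' : ℂ) • (ContinuousLinearMap.fst ℂ ℂ ℂ)) q :=
      ((ContinuousLinearMap.fst ℂ ℂ ℂ).hasFDerivAt.const_mul (ρ' : ℂ)).const_add c'
    have h5 : HasFDerivAt (fun y : ℂ × ℂ => c + ρ * (χ.q (χ'.σ y)).1) ((ρ' : ℂ) • (ContinuousLinearMap.fst ℂ ℂ ℂ)) q :=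
      h4.congr_of_eventuallyEq h1
    have h6 := h2.unique h5
    have h7 := congrArg (fun L : ℂ × ℂ →L[ℂ] ℂ => L w) h6
    simpa using h7
  have hDd : (D d).1 = 0 := by
    have h1 := hfst d
    rw [hd, mul_zero] at h1
    exact (mul_eq_zero.mp h1).resolve_left hρ
  have hD01 : (D (0, 1)).1 = 0 := by
    have h1 := hfst (0, 1)
    simp only [mul_zero] at h1
    exact (mul_eq_zero.mp h1).resolve_left hρ
  have hD10 : (D (1, 0)).1 = ρ' / ρ := by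
    have h1 := hfst (1, 0)
    simp only [mul_one] at h1
    field_simp
    rw [← h1]
    ring
  have hD2 : (D d).2 = d.2 * (D (0, 1)).2 := by
    have h1 := Un_vert ((ContinuousLinearMap.snd ℂ ℂ ℂ).comp D) d hd
    simpa using h1
  have htc := tc_trans hX hu α χ χ' (υ := mo c ρ 1 0) (υ' := mo c' ρ' 1 0) hq hU (hm'.lift q hq)
    (by rw [Un_mo, Un_mo]; exact he)
  have hjac : jac (fun y => χ.q (χ'.σ y)) q = ρ' / ρ * (D (0, 1)).2 := by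
    unfold jac
    rw [← hD, hD10, hD01]
    ring
  refine ⟨by rw [hcomp.fderiv]; exact hcomp, ?_⟩
  rw [hcomp.fderiv, ContinuousLinearMap.comp_apply, Un_vert _ _ hDd, hA.der _ hb, hD2, Un_vert _ _ hd, hA'.der _ hq, htc, hjac]
  field_simp

theorem eq_capz (hX : IsCone X) (hu : TorusMap X Λ u) (hΛ : Lat Λ) {α : TForm X Λ u} {ε : ℝ} {z v : ℂ} {y y' : MN N}
    (h : IRel α ε z y y' v) {χ : Chart X} {c : ℂ} {ρ : ℝ} {y₀ : MN N} {r : ℝ} (hc : Capz Λ u χ c ρ z y₀ r)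
    {A : ℂ × ℂ → ℂ} (hA : IsPrim α χ (mo c ρ 1 0) A) (hy : dist y y₀ + ε ≤ r) {x x' : EN N}
    (hx : x ∈ X) (hx' : x' ∈ X) (hxy : pr x = y) (hxy' : pr x' = y') : v = (A (χ.q x') - A (χ.q x)) / ρ := by
  obtain ⟨χ', c', ρ', A', p, p', hm', hA', hp, hp', hpz, hpz', hpy, hpy', hseg, hv⟩ := h
  have hm := hc.mon
  have hρ : (ρ : ℂ) ≠ 0 := by exact_mod_cast hm.pos.ne'
  have hρ' : (ρ' : ℂ) ≠ 0 := by exact_mod_cast hm'.pos.ne'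
  have hd : (p' - p).1 = 0 := by
    have h1 : (ρ' : ℂ) * (p'.1 - p.1) = 0 := by linear_combination hpz' - hpz
    exact (mul_eq_zero.mp h1).resolve_left hρ'
  have hP1 : ∀ t : ℂ, (Un_P p p' t).1 = p.1 := by
    intro t
    have h1 : (Un_P p p' t).1 = p.1 + t * (p' - p).1 := rfl
    rw [h1, hd, mul_zero, add_zero]
  have hcap : ∀ θ ∈ Set.Icc (0 : ℝ) 1, χ'.σ (Un_P p p' (θ : ℂ)) ∈ χ.U ∧
      c + ρ * (χ.q (χ'.σ (Un_P p p' (θ : ℂ)))).1 = c' + ρ' * (Un_P p p' (θ : ℂ)).1 := by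
    intro θ hθ
    have hb := Un_P_mem hp hp' hθ
    have h1 : u (χ'.σ (Un_P p p' (θ : ℂ))) - z ∈ Λ := by
      have h2 := hm'.lift _ hb
      rwa [Un_mo, hP1, hpz] at h2
    have h2 : dist (pr (χ'.σ (Un_P p p' (θ : ℂ)))) y₀ ≤ r := by
      have h3 : dist (pr (χ'.σ (Un_P p p' (θ : ℂ)))) y ≤ ε := hseg θ hθ
      linarith [dist_triangle (pr (χ'.σ (Un_P p p' (θ : ℂ)))) y y₀]
    obtain ⟨h3, _, h4⟩ := hc.cap _ (χ'.σ_mem _ hb).1 h1 h2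
    exact ⟨h3, by rw [h4, hP1, hpz]⟩
  set f : ℝ → ℂ := fun θ => A' (Un_P p p' (θ : ℂ)) / ρ' - A (χ.q (χ'.σ (Un_P p p' (θ : ℂ)))) / ρ with hf
  have hder : ∀ θ ∈ Set.Icc (0 : ℝ) 1, HasDerivAt f 0 θ := by
    intro θ hθ
    have hb := Un_P_mem hp hp' hθ
    obtain ⟨h1, h2⟩ := Un_deriv hX hu hΛ α hm hm' hA hA' hb (hcap θ hθ).1 (hcap θ hθ).2 hd
    have hPd : HasDerivAt (fun t : ℂ => Un_P p p' t) (p' - p) (θ : ℂ) := by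
      have h3 := ((hasDerivAt_id (θ : ℂ)).smul_const (p' - p)).const_add p
      rw [one_smul] at h3
      exact h3
    have h4 : HasDerivAt (fun t : ℂ => A' (Un_P p p' t)) (fderiv ℂ A' (Un_P p p' (θ : ℂ)) (p' - p)) (θ : ℂ) :=
      (hA'.an _ hb).differentiableAt.hasFDerivAt.comp_hasDerivAt (θ : ℂ) hPd
    have h5 : HasDerivAt (fun t : ℂ => A (χ.q (χ'.σ (Un_P p p' t))))
        (fderiv ℂ (fun y => A (χ.q (χ'.σ y))) (Un_P p p' (θ : ℂ)) (p' - p)) (θ : ℂ) :=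
      h1.comp_hasDerivAt (θ : ℂ) hPd
    have h6 := ((h4.div_const (ρ' : ℂ)).sub (h5.div_const (ρ : ℂ))).comp_ofReal
    rw [h2, sub_self] at h6
    exact h6
  have hconst := constant_of_has_deriv_right_zero (f := f) (a := 0) (b := 1)
    (fun θ hθ => (hder θ hθ).continuousAt.continuousWithinAt)
    (fun θ hθ => (hder θ ⟨hθ.1, hθ.2.le⟩).hasDerivWithinAt) 1 ⟨zero_le_one, le_rfl⟩
  have hP0 : Un_P p p' ((0 : ℝ) : ℂ) = p := by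
    unfold Un_P
    simp
  have hP1' : Un_P p p' ((1 : ℝ) : ℂ) = p' := by
    unfold Un_P
    simp
  have hX0 : ∀ w ∈ X, w ≠ 0 := fun w hw h => hX.zero_notMem (h ▸ hw)
  have hq : χ.q x = χ.q (χ'.σ p) := by
    have hU := (hcap 0 ⟨le_rfl, zero_le_one⟩).1
    rw [hP0] at hU
    obtain ⟨a, ha, hax⟩ := (Pool.Agent.H62.EF.pr_eq_iff (hX0 x hx) (hX0 _ (χ'.σ_mem p hp).1)).mp (hxy.trans hpy.symm)
    rw [hax]
    exact χ.q_smul _ hU a ha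
  have hq' : χ.q x' = χ.q (χ'.σ p') := by
    have hU := (hcap 1 ⟨zero_le_one, le_rfl⟩).1
    rw [hP1'] at hU
    obtain ⟨a, ha, hax⟩ := (Pool.Agent.H62.EF.pr_eq_iff (hX0 x' hx') (hX0 _ (χ'.σ_mem p' hp').1)).mp (hxy'.trans hpy'.symm)
    rw [hax]
    exact χ.q_smul _ hU a ha
  simp only [hf] at hconst
  rw [hP0, hP1'] at hconst
  rw [hv, hq, hq']
  rw [sub_div, sub_div]
  linear_combination hconst

theorem II_eqz (hX : IsCone X) (hu : TorusMap X Λ u) (hΛ : Lat Λ) {α : TForm X Λ u} {ε : ℝ} {z : ℂ} {y y' : MN N}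
    (h : ∃ v, IRel α ε z y y' v) {χ : Chart X} {c : ℂ} {ρ : ℝ} {y₀ : MN N} {r : ℝ} (hc : Capz Λ u χ c ρ z y₀ r)
    {A : ℂ × ℂ → ℂ} (hA : IsPrim α χ (mo c ρ 1 0) A) (hy : dist y y₀ + ε ≤ r) {x x' : EN N}
    (hx : x ∈ X) (hx' : x' ∈ X) (hxy : pr x = y) (hxy' : pr x' = y') : II α ε z y y' = (A (χ.q x') - A (χ.q x)) / ρ := by
  have h1 : II α ε z y y' = h.choose := by
    unfold II
    rw [dif_pos h]
  rw [h1]
  exact eq_capz hX hu hΛ h.choose_spec hc hA hy hx hx' hxy hxy'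

private theorem Un_prim {α : TForm X Λ u} {χ : Chart X} {c : ℂ} {ρ : ℝ} {A : ℂ × ℂ → ℂ} (hA : IsPrim α χ (mo c ρ 1 0) A) (b : ℂ) (n : ℕ) :
    IsPrim (α.mulPow b n) χ (mo c ρ 1 0) (fun q => (mo c ρ 1 0 q - b) ^ n * A q) := by
  refine ⟨fun p hp => ?_, fun p hp => ?_, fun s hs => ?_⟩
  · exact (((mo_an c ρ 1 0 p).sub analyticAt_const).pow n).mul (hA.an p hp)
  · have h1 : HasFDerivAt (fun q : ℂ × ℂ => mo c ρ 1 0 q - b) ((ρ : ℂ) • (ContinuousLinearMap.fst ℂ ℂ ℂ)) p := by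
      have h2 : (fun q : ℂ × ℂ => mo c ρ 1 0 q - b) = fun q => c + ρ * q.1 - b := by
        funext q
        rw [Un_mo]
      rw [h2]
      exact (((ContinuousLinearMap.fst ℂ ℂ ℂ).hasFDerivAt.const_mul (ρ : ℂ)).const_add c).sub_const b
    have h3 := h1.pow n
    have h4 := h3.mul (hA.an p hp).differentiableAt.hasFDerivAt
    have h5 : fderiv ℂ (fun q => (mo c ρ 1 0 q - b) ^ n * A q) p = _ := h4.fderiv
    rw [h5]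
    simp only [ContinuousLinearMap.add_apply, ContinuousLinearMap.smul_apply, ContinuousLinearMap.coe_fst', smul_eq_mul, mul_zero,
      add_zero, hA.der p hp]
    rfl
  · simp only [hA.zero s hs, mul_zero]

theorem II_mulPowz (hX : IsCone X) (hu : TorusMap X Λ u) (hΛ : Lat Λ) {α : TForm X Λ u} {ε : ℝ} {z : ℂ} {y y' : MN N}
    (h : ∃ v, IRel α ε z y y' v) {χ : Chart X} {c : ℂ} {ρ : ℝ} {y₀ : MN N} {r : ℝ} (hc : Capz Λ u χ c ρ z y₀ r)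
    (hy : dist y y₀ + ε ≤ r) (b : ℂ) (n : ℕ) :
    II (α.mulPow b n) ε z y y' = (z - b) ^ n * II α ε z y y' := by
  obtain ⟨v, hv⟩ := h
  obtain ⟨A, hA⟩ := exists_prim α χ hc.mon
  obtain ⟨x, hx, hxy, x', hx', hxy'⟩ : ∃ x ∈ X, pr x = y ∧ ∃ x' ∈ X, pr x' = y' := by
    obtain ⟨χ', c', ρ', A', p, p', _, _, hp, hp', _, _, hpy, hpy', _, _⟩ := hv
    exact ⟨_, (χ'.σ_mem p hp).1, hpy, _, (χ'.σ_mem p' hp').1, hpy'⟩
  rw [II_eqz hX hu hΛ ⟨v, hv⟩ hc hA hy hx hx' hxy hxy',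
    II_eqz hX hu hΛ ⟨_, hv.mulPow b n⟩ hc (Un_prim hA b n) hy hx hx' hxy hxy',
    ← eq_capz hX hu hΛ hv hc hA hy hx hx' hxy hxy',
    ← eq_capz hX hu hΛ (hv.mulPow b n) hc (Un_prim hA b n) hy hx hx' hxy hxy']

theorem II_analytic_z (hX : IsCone X) (hu : TorusMap X Λ u) (hΛ : Lat Λ) {α : TForm X Λ u} {ε r : ℝ} {Ψ Φ : ℂ → EN N} {z₀ : ℂ}
    (hΨ : AnalyticAt ℂ Ψ z₀) (hΦ : AnalyticAt ℂ Φ z₀) (hΨ' : ∀ᶠ z in 𝓝 z₀, Ψ z ∈ X ∧ u (Ψ z) - z ∈ Λ)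
    (hΦ' : ∀ᶠ z in 𝓝 z₀, Φ z ∈ X ∧ u (Φ z) - z ∈ Λ) {χ : Chart X} {c : ℂ} {ρ : ℝ} (hc : ∀ᶠ z in 𝓝 z₀, Capz Λ u χ c ρ z (pr (Ψ z₀)) r) (hr : ε < r)
    (hrel : ∀ᶠ z in 𝓝 z₀, ∃ v, IRel α ε z (pr (Ψ z)) (pr (Φ z)) v) :
    AnalyticAt ℂ (fun z => II α ε z (pr (Ψ z)) (pr (Φ z))) z₀ := by
  have hc0 : Capz Λ u χ c ρ z₀ (pr (Ψ z₀)) r := hc.self_of_nhds
  obtain ⟨A, hA⟩ := exists_prim α χ hc0.mon
  obtain ⟨v₀, hv₀⟩ := hrel.self_of_nhds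
  obtain ⟨hε, hfg⟩ := Pool.Agent.TGY.rel_eps hv₀
  have hr0 : 0 < r := lt_of_le_of_lt hε hr
  have hne : ∀ {x : EN N}, x ∈ X → x ≠ 0 := fun hx h => hX.zero_notMem (h ▸ hx)
  have hcl : closedBall (0 : ℂ × ℂ) 1 ⊆ ball (0 : ℂ × ℂ) 2 := closedBall_subset_ball (by norm_num)
  obtain ⟨hΨX, hΨu⟩ := hΨ'.self_of_nhds
  obtain ⟨hΦX, hΦu⟩ := hΦ'.self_of_nhds
  obtain ⟨hΨU, hΨq, -⟩ := hc0.cap (Ψ z₀) hΨX hΨu (by rw [dist_self]; exact hr0.le)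
  obtain ⟨hΦU, hΦq, -⟩ := hc0.cap (Φ z₀) hΦX hΦu (hfg.trans hr.le)
  have a1 : AnalyticAt ℂ (fun z => A (χ.q (Ψ z))) z₀ :=
    AnalyticAt.comp (f := fun z => χ.q (Ψ z)) (g := A) (hA.an _ (hcl hΨq))
      (AnalyticAt.comp (f := Ψ) (g := χ.q) (χ.q_an _ hΨU) hΨ)
  have a2 : AnalyticAt ℂ (fun z => A (χ.q (Φ z))) z₀ :=
    AnalyticAt.comp (f := fun z => χ.q (Φ z)) (g := A) (hA.an _ (hcl hΦq))
      (AnalyticAt.comp (f := Φ) (g := χ.q) (χ.q_an _ hΦU) hΦ)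
  have hρ : (ρ : ℂ) ≠ 0 := by
    have := hc0.mon.pos
    exact_mod_cast this.ne'
  have a3 : AnalyticAt ℂ (fun z => (A (χ.q (Φ z)) - A (χ.q (Ψ z))) / (ρ : ℂ)) z₀ := (a2.sub a1).div analyticAt_const hρ
  refine a3.congr ?_
  have e4 : ∀ᶠ z in 𝓝 z₀, dist (pr (Ψ z)) (pr (Ψ z₀)) < r - ε := by
    have h1 : ContinuousAt (fun z => pr (Ψ z)) z₀ := ContinuousAt.comp (f := Ψ) (g := pr)
      (Pool.Agent.H62.EF.continuousAt_pr (hne hΨX)) hΨ.continuousAt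
    exact h1.eventually (ball_mem_nhds _ (by linarith))
  filter_upwards [hc, e4, hrel, hΨ', hΦ'] with z h3 h4 h5 h6 h7
  exact (II_eqz hX hu hΛ h5 h3 hA (by linarith) h6.1 h7.1 rfl rfl).symm

end Pool.Agent.GXE

end

section

/-!
# G3 X CrF: crossing with free caps

`exists_Kz`: as `Pool.Agent.TGY.exists_K` (`TG/Y/Kz.lean`), but the charts of `hcap` need not be in one `W k`.  `HF`, `HG` from `TGY.exists_H`; for each `z₀` of the annulus `χ, c, ρ` from `hcap`, `A₀` from `exists_prim`, `Ψ` from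
`exists_pot`.  `K z = Ψ_z (χ_z.q (G z)) - Ψ_z (χ_z.q (F z)) - HG z + HF z` (`Ψ_z, χ_z` the ones of the point `z`).
(1) consistency: for `z` near `z₀` one may replace `Ψ_z, χ_z` by `Ψ_z₀, χ_z₀`: along the path `θ ↦ χ'.σ (p + θ (p' - p))` of `IRel` (`θ` in a neighbourhood of `[0, 1]` in `ℂ`; it is in the fibre over `z` and within `ε` of `pr (F z)`, so
in both caps, `Capz.cap`; `dist (pr (F z)) (pr (F z₀)) < r - ε`), the function `Ψ_z (χ_z.q ·) - Ψ_z₀ (χ_z₀.q ·)` has the derivative `0`: `exists_pot` for both charts with the same `k` (`TubeG.cover`), the first coordinates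
of `χ.q` are constant on the fibre (see `kz_point`, `kz_cons` in `TG/Y/Kz.lean`).
(2) derivative of the local function at `z₀`: `F z₀ ∈ W k`, `G z₀ ∈ W l` (`cover`); `exists_pot` for the curves `F`, `G`: `(χ₀.q (F z)).1 = (z - c) / ρ` near `z₀`, derivative `1 / ρ`; subtract `exists_H`; `II_eqz`.
`crossing_free`: as `crossing_on` (`TG/Y/Cr.lean`) with `exists_Kz`, `II_analytic_z`, `II_mulPowz`, `IRel.mulPow`.
-/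

set_option autoImplicit false

open Topology Filter Metric

namespace Pool.Agent.GXE

open Pool.Agent.H36.BP (EN wd IsGermChart)
open Pool.Agent.H14.PP (IsCone Chart Tan CurveAt jac)
open Pool.Agent.H62.EF (Lat MN pr TorusMap Charts)
open Pool.Agent.H62.EL
open Pool.Agent.TGY (SecOn)

variable {N : ℕ} {X : Set (EN N)} {Λ : AddSubgroup ℂ} {u : EN N → ℂ}

/-- the complex line through `p` and `p'` -/
private noncomputable def kz_line (p p' : ℂ × ℂ) (θ : ℂ) : ℂ × ℂ := p + θ • (p' - p)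

private theorem kz_line_an (p p' : ℂ × ℂ) (θ : ℂ) : AnalyticAt ℂ (kz_line p p') θ := by
  unfold kz_line
  exact analyticAt_const.add (analyticAt_id.smul analyticAt_const)

private theorem kz_line_mem {p p' : ℂ × ℂ} (hp : p ∈ ball (0 : ℂ × ℂ) 2) (hp' : p' ∈ ball (0 : ℂ × ℂ) 2) {θ : ℝ}
    (hθ : θ ∈ Set.Icc (0 : ℝ) 1) : kz_line p p' (θ : ℂ) ∈ ball (0 : ℂ × ℂ) 2 := by
  have h1 := (convex_ball (0 : ℂ × ℂ) 2).add_smul_sub_mem hp hp' hθ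
  unfold kz_line
  rwa [Complex.coe_smul]

private theorem kz_line_fst {p p' : ℂ × ℂ} (h : p.1 = p'.1) (θ : ℂ) : (kz_line p p' θ).1 = p.1 := by
  unfold kz_line
  simp [h]

private theorem kz_mo (c : ℂ) (ρ : ℝ) (p : ℂ × ℂ) : mo c ρ 1 0 p = c + ρ * p.1 := by
  unfold mo
  simp

private theorem sub_pt {Z : Type} [PseudoMetricSpace Z] {a b c : Z} {ε r d : ℝ} (h1 : dist a b ≤ ε) (h2 : dist b c ≤ d) (h3 : d + ε ≤ r) : dist a c ≤ r :=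
  (dist_triangle a b c).trans (by linarith)

/-- the derivative of the first coordinate of a curve in a straight chart, from the values of `u` -/
private theorem fst_deriv {χ : Chart X} {c : ℂ} {ρ : ℝ} (hρ : 0 < ρ) {γ : ℂ → EN N} {ζ : ℂ} (hγ : AnalyticAt ℂ γ ζ) (hU : γ ζ ∈ χ.U) {υ : ℂ → ℂ} {e : ℂ}
    (hυ : HasDerivAt υ e ζ) (h : ∀ᶠ ξ in 𝓝 ζ, c + ρ * (χ.q (γ ξ)).1 = υ ξ) : (deriv (fun ξ => χ.q (γ ξ)) ζ).1 = e / ρ := by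
  have hρ' : (ρ : ℂ) ≠ 0 := by exact_mod_cast hρ.ne'
  have hqan : AnalyticAt ℂ (fun ξ => χ.q (γ ξ)) ζ := AnalyticAt.fun_comp (χ.q_an _ hU) hγ
  have hd1 : HasDerivAt (fun ξ => χ.q (γ ξ)) (deriv (fun ξ => χ.q (γ ξ)) ζ) ζ := hqan.differentiableAt.hasDerivAt
  have hd2 : HasDerivAt (fun ξ => (χ.q (γ ξ)).1) (deriv (fun ξ => χ.q (γ ξ)) ζ).1 ζ :=
    (hasFDerivAt_fst (𝕜 := ℂ) (E := ℂ) (F := ℂ)).comp_hasDerivAt ζ hd1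
  have hd3 : HasDerivAt (fun ξ => (χ.q (γ ξ)).1) (e / ρ) ζ := by
    refine ((hυ.sub_const c).div_const (ρ : ℂ)).congr_of_eventuallyEq ?_
    filter_upwards [h] with ξ hξ
    rw [eq_div_iff hρ', ← hξ]
    ring
  exact hd2.unique hd3

/-- the situation at a point of the path -/
private theorem kz_point (hu : TorusMap X Λ u) (hΛ : Lat Λ) {χ : Chart X} {c : ℂ} {ρ : ℝ} {z : ℂ} {y₀ : MN N} {r : ℝ}
    (hc : Capz Λ u χ c ρ z y₀ r)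
    {χ' : Chart X} {c' : ℂ} {ρ' : ℝ} (hm' : Mon Λ u χ' c' ρ' 1 0) {p p' : ℂ × ℂ} (hp : p ∈ ball (0 : ℂ × ℂ) 2)
    (hp' : p' ∈ ball (0 : ℂ × ℂ) 2) (hpz : c' + ρ' * p.1 = z) (hpp : p.1 = p'.1)
    {θ : ℝ} (hθ : θ ∈ Set.Icc (0 : ℝ) 1) (hd : dist (pr (χ'.σ (kz_line p p' θ))) y₀ ≤ r) :
    CurveAt X (fun ξ => χ'.σ (kz_line p p' ξ)) (θ : ℂ) ∧ u (χ'.σ (kz_line p p' θ)) - z ∈ Λ ∧
      χ'.σ (kz_line p p' θ) ∈ χ.U ∧ χ.q (χ'.σ (kz_line p p' θ)) ∈ closedBall (0 : ℂ × ℂ) 1 ∧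
      (deriv (fun ξ => χ.q (χ'.σ (kz_line p p' ξ))) (θ : ℂ)).1 = 0 := by
  have hmem := kz_line_mem hp hp' hθ
  have hlc : ContinuousAt (kz_line p p') (θ : ℂ) := (kz_line_an p p' θ).continuousAt
  have hevb : ∀ᶠ ξ in 𝓝 (θ : ℂ), kz_line p p' ξ ∈ ball (0 : ℂ × ℂ) 2 := hlc.eventually (isOpen_ball.mem_nhds hmem)
  have hγan : AnalyticAt ℂ (fun ξ => χ'.σ (kz_line p p' ξ)) (θ : ℂ) := AnalyticAt.fun_comp (χ'.σ_an _ hmem) (kz_line_an p p' θ)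
  have hcurve : CurveAt X (fun ξ => χ'.σ (kz_line p p' ξ)) (θ : ℂ) := by
    refine ⟨hγan, ?_⟩
    filter_upwards [hevb] with ξ hξ
    exact (χ'.σ_mem _ hξ).1
  have hlift : ∀ ξ : ℂ, kz_line p p' ξ ∈ ball (0 : ℂ × ℂ) 2 → u (χ'.σ (kz_line p p' ξ)) - z ∈ Λ := by
    intro ξ hξ
    have h1 := hm'.lift _ hξ
    rwa [kz_mo, kz_line_fst hpp, hpz] at h1
  have hX1 : χ'.σ (kz_line p p' θ) ∈ X := (χ'.σ_mem _ hmem).1
  obtain ⟨hU, hq1, hqz⟩ := hc.cap _ hX1 (hlift _ hmem) hd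
  refine ⟨hcurve, hlift _ hmem, hU, hq1, ?_⟩
  have hevU : ∀ᶠ ξ in 𝓝 (θ : ℂ), χ'.σ (kz_line p p' ξ) ∈ χ.U := hγan.continuousAt.eventually (χ.isOpen_U.mem_nhds hU)
  have hqan : AnalyticAt ℂ (fun ξ => χ.q (χ'.σ (kz_line p p' ξ))) (θ : ℂ) := AnalyticAt.fun_comp (χ.q_an _ hU) hγan
  have hzero : ∀ᶠ ξ in 𝓝 (θ : ℂ), c + ρ * (χ.q (χ'.σ (kz_line p p' ξ))).1 = z := by
    obtain ⟨δ, hδ, hdisc⟩ := hΛ.discrete
    have hcont : ContinuousAt (fun ξ => c + ρ * (χ.q (χ'.σ (kz_line p p' ξ))).1 - z) (θ : ℂ) :=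
      ((continuousAt_const.mul (continuousAt_fst.comp (f := fun ξ => χ.q (χ'.σ (kz_line p p' ξ))) hqan.continuousAt)).const_add _).sub
        continuousAt_const
    have h0 : (fun ξ => c + ρ * (χ.q (χ'.σ (kz_line p p' ξ))).1 - z) (θ : ℂ) = 0 := by
      show c + ρ * (χ.q (χ'.σ (kz_line p p' (θ : ℂ)))).1 - z = 0
      rw [hqz, sub_self]
    have hsmall : ∀ᶠ ξ in 𝓝 (θ : ℂ), ‖c + ρ * (χ.q (χ'.σ (kz_line p p' ξ))).1 - z‖ < δ := by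
      have h1 := hcont.norm
      have h2 : ‖(fun ξ => c + ρ * (χ.q (χ'.σ (kz_line p p' ξ))).1 - z) (θ : ℂ)‖ < δ := by rw [h0, norm_zero]; exact hδ
      exact h1.eventually_lt_const h2
    filter_upwards [hsmall, hevb, hevU] with ξ h1 h2 h3
    rw [← sub_eq_zero]
    refine hdisc _ ?_ h1
    obtain ⟨h4, a', ha', h5⟩ := χ.surj _ (χ'.σ_mem _ h2).1 h3
    have h6 := hc.mon.lift _ h4
    have h7 := hu.smul _ (χ.σ_mem _ h4).1 a' ha'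
    rw [← h5] at h7
    rw [kz_mo] at h6
    have h8 := Λ.sub_mem (hlift ξ h2) (Λ.add_mem h7 h6)
    convert h8 using 1
    ring
  have h1 := fst_deriv hc.mon.pos hγan hU (hasDerivAt_const (θ : ℂ) z) hzero
  rw [h1, zero_div]

/-- the property of the potential on a straight chart -/
private def Pot {T : TubeData X} (A : Fin T.m → ℂ × ℂ → ℂ) (lam : Fin T.m → EN N → ℂ) (χ₀ : Chart X) (A₀ Ψ : ℂ × ℂ → ℂ) : Prop :=
  ∀ (γ : ℂ → EN N) (ζ : ℂ) (k : Fin T.m), CurveAt X γ ζ → γ ζ ∈ χ₀.U → χ₀.q (γ ζ) ∈ ball (0 : ℂ × ℂ) (3 / 2) → γ ζ ∈ T.W k →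
      HasDerivAt (fun ξ => Ψ (χ₀.q (γ ξ)) + lam k (γ ξ))
        (bt (T.χ k) (A k) γ ζ + A₀ (χ₀.q (γ ζ)) * (deriv (fun ξ => χ₀.q (γ ξ)) ζ).1) ζ

private theorem ball_32 {q : ℂ × ℂ} (h : q ∈ closedBall (0 : ℂ × ℂ) 1) : q ∈ ball (0 : ℂ × ℂ) (3 / 2) :=
  closedBall_subset_ball (by norm_num) h

/-- two potentials have the same increment along the path -/
private theorem kz_cons (hX : IsCone X) (hu : TorusMap X Λ u) (hΛ : Lat Λ) {b : ℂ} {s η : ℝ} {T : TubeData X} (hT : TubeG Λ u b s η T)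
    {α : TForm X Λ u} {A : Fin T.m → ℂ × ℂ → ℂ} {lam : Fin T.m → EN N → ℂ} {x x' : EN N}
    (hx : x ∈ X) (hx' : x' ∈ X) {ε r : ℝ} {z v : ℂ} (hzb : z ∈ ball b s) (hrel : IRel α ε z (pr x) (pr x') v)
    {χ₀ : Chart X} {c₀ : ℂ} {ρ₀ : ℝ} {y₀ : MN N} (hc₀ : Capz Λ u χ₀ c₀ ρ₀ z y₀ r) {A₀ Ψ₀ : ℂ × ℂ → ℂ} (hP₀ : Pot A lam χ₀ A₀ Ψ₀) (hy₀ : dist (pr x) y₀ + ε ≤ r)
    {χ₁ : Chart X} {c₁ : ℂ} {ρ₁ : ℝ} {y₁ : MN N} (hc₁ : Capz Λ u χ₁ c₁ ρ₁ z y₁ r) {A₁ Ψ₁ : ℂ × ℂ → ℂ} (hP₁ : Pot A lam χ₁ A₁ Ψ₁) (hy₁ : dist (pr x) y₁ + ε ≤ r) :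
    Ψ₀ (χ₀.q x') - Ψ₀ (χ₀.q x) = Ψ₁ (χ₁.q x') - Ψ₁ (χ₁.q x) := by
  obtain ⟨χ', c', ρ', A', p, p', hm', -, hp, hp', hpz, hpz', hpx, hpx', hdist, -⟩ := hrel
  have hρ' : (ρ' : ℂ) ≠ 0 := by exact_mod_cast hm'.pos.ne'
  have hpp : p.1 = p'.1 := by
    have h1 : (ρ' : ℂ) * p.1 = ρ' * p'.1 := by linear_combination hpz - hpz'
    exact mul_left_cancel₀ hρ' h1
  have hdl : ∀ θ ∈ Set.Icc (0 : ℝ) 1, dist (pr (χ'.σ (kz_line p p' (θ : ℂ)))) (pr x) ≤ ε := hdist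
  have hQ₀ := fun (θ : ℝ) (hθ : θ ∈ Set.Icc (0 : ℝ) 1) => kz_point hu hΛ hc₀ hm' hp hp' hpz hpp hθ (sub_pt (hdl θ hθ) le_rfl hy₀)
  have hQ₁ := fun (θ : ℝ) (hθ : θ ∈ Set.Icc (0 : ℝ) 1) => kz_point hu hΛ hc₁ hm' hp hp' hpz hpp hθ (sub_pt (hdl θ hθ) le_rfl hy₁)
  obtain ⟨h, hh⟩ : ∃ h : ℂ → ℂ, h = fun ξ => Ψ₀ (χ₀.q (χ'.σ (kz_line p p' ξ))) - Ψ₁ (χ₁.q (χ'.σ (kz_line p p' ξ))) := ⟨_, rfl⟩
  have hder : ∀ θ ∈ Set.Icc (0 : ℝ) 1, HasDerivAt h 0 (θ : ℂ) := by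
    intro θ hθ
    obtain ⟨h1, h2, h3, h4, h5⟩ := hQ₀ θ hθ
    obtain ⟨-, -, h6, h7, h8⟩ := hQ₁ θ hθ
    obtain ⟨k, hk⟩ := hT.cover z hzb _ h1.2.self_of_nhds h2
    have g1 := hP₀ _ _ k h1 h3 (ball_32 h4) hk
    have g2 := hP₁ _ _ k h1 h6 (ball_32 h7) hk
    rw [h5, mul_zero, add_zero] at g1
    rw [h8, mul_zero, add_zero] at g2
    have g3 := g1.sub g2
    rw [sub_self] at g3
    refine g3.congr_of_eventuallyEq (Eventually.of_forall fun ξ => ?_)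
    rw [hh]
    simp only [Pi.sub_apply]
    ring
  have hconst : h ((1 : ℝ) : ℂ) = h ((0 : ℝ) : ℂ) := by
    refine constant_of_has_deriv_right_zero (f := fun t : ℝ => h (t : ℂ)) (a := 0) (b := 1) ?_ ?_ 1 (by simp)
    · intro t ht
      exact ((hder t ht).comp_ofReal).continuousAt.continuousWithinAt
    · intro t ht
      exact ((hder t ⟨ht.1, ht.2.le⟩).comp_ofReal).hasDerivWithinAt
  have hx0 : x ≠ 0 := fun h0 => hX.zero_notMem (h0 ▸ hx)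
  have hx0' : x' ≠ 0 := fun h0 => hX.zero_notMem (h0 ▸ hx')
  have hl0 : kz_line p p' ((0 : ℝ) : ℂ) = p := by unfold kz_line; simp
  have hl1 : kz_line p p' ((1 : ℝ) : ℂ) = p' := by unfold kz_line; simp
  have hσ0 : χ'.σ p ≠ 0 := fun h0 => hX.zero_notMem (h0 ▸ (χ'.σ_mem p hp).1)
  have hσ1 : χ'.σ p' ≠ 0 := fun h0 => hX.zero_notMem (h0 ▸ (χ'.σ_mem p' hp').1)
  obtain ⟨a, ha, hax⟩ := (Pool.Agent.H62.EF.pr_eq_iff hσ0 hx0).1 hpx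
  obtain ⟨a', ha', hax'⟩ := (Pool.Agent.H62.EF.pr_eq_iff hσ1 hx0').1 hpx'
  have hU₀ := (hQ₀ 0 (by simp)).2.2.1
  have hU₀' := (hQ₀ 1 (by simp)).2.2.1
  have hU₁ := (hQ₁ 0 (by simp)).2.2.1
  have hU₁' := (hQ₁ 1 (by simp)).2.2.1
  rw [hl0, hax] at hU₀ hU₁
  rw [hl1, hax'] at hU₀' hU₁'
  have hback : ∀ (χ : Chart X) (y : EN N) (d : ℂ), d ≠ 0 → d • y ∈ χ.U → y ∈ χ.U := by
    intro χ y d hd hy
    have h1 := χ.smul_U _ hy d⁻¹ (inv_ne_zero hd)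
    rwa [smul_smul, inv_mul_cancel₀ hd, one_smul] at h1
  simp only [hh, hl0, hl1, hax, hax'] at hconst
  rw [χ₀.q_smul _ (hback χ₀ x a ha hU₀) a ha, χ₀.q_smul _ (hback χ₀ x' a' ha' hU₀') a' ha', χ₁.q_smul _ (hback χ₁ x a ha hU₁) a ha,
    χ₁.q_smul _ (hback χ₁ x' a' ha' hU₁') a' ha'] at hconst
  linear_combination hconst

theorem exists_Kz (hX : IsCone X) (hu : TorusMap X Λ u) (hΛ : Lat Λ) {b : ℂ} {s η : ℝ} {T : TubeData X} (hT : TubeG Λ u b s η T)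
    {α : TForm X Λ u} {A : Fin T.m → ℂ × ℂ → ℂ} (hA : ∀ k, IsPrim α (T.χ k) (mo b (T.ρ k) (T.i k) (T.j k)) (A k))
    {lam : Fin T.m → EN N → ℂ} (hs : Split Λ u b s T A lam) {F G : ℂ → EN N} {t : ℝ} (hts : t ≤ s) (hF : SecOn X Λ u b t F) (hG : SecOn X Λ u b t G)
    {r₁ r₂ ε r : ℝ} (hr₂ : r₂ < t) (hεr : ε < r)
    (hcap : ∀ z₀, r₁ < ‖z₀ - b‖ → ‖z₀ - b‖ < r₂ → ∃ (χ : Chart X) (c : ℂ) (ρ : ℝ),
      (∀ᶠ z in 𝓝 z₀, Capz Λ u χ c ρ z (pr (F z₀)) r) ∧ ∀ p ∈ ball (0 : ℂ × ℂ) 2, c + ρ * p.1 ∈ ball b s)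
    (hrel : ∀ z₀, r₁ < ‖z₀ - b‖ → ‖z₀ - b‖ < r₂ → ∃ v, IRel α ε z₀ (pr (F z₀)) (pr (G z₀)) v) :
    ∃ K : ℂ → ℂ, ∀ z, r₁ < ‖z - b‖ → ‖z - b‖ < r₂ → HasDerivAt K (II α ε z (pr (F z)) (pr (G z))) z := by
  classical
  obtain ⟨HF, hHF⟩ := Pool.Agent.TGY.exists_H hT (fun k => (hA k).an) hs hF hts hr₂
  obtain ⟨HG, hHG⟩ := Pool.Agent.TGY.exists_H hT (fun k => (hA k).an) hs hG hts hr₂
  have hex : ∀ z, (r₁ < ‖z - b‖ ∧ ‖z - b‖ < r₂) → ∃ (χ : Chart X) (c : ℂ) (ρ : ℝ) (A₀ Ψ : ℂ × ℂ → ℂ),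
      (∀ᶠ z' in 𝓝 z, Capz Λ u χ c ρ z' (pr (F z)) r) ∧ IsPrim α χ (mo c ρ 1 0) A₀ ∧ Pot A lam χ A₀ Ψ := by
    rintro z ⟨hz1, hz2⟩
    obtain ⟨χ, c, ρ, hcap, hrg⟩ := hcap z hz1 hz2
    have hm := hcap.self_of_nhds.mon
    obtain ⟨A₀, hA₀⟩ := exists_prim α χ hm
    obtain ⟨Ψ, hΨ⟩ := exists_pot hX hu hT hA hs hm hrg hA₀
    exact ⟨χ, c, ρ, A₀, Ψ, hcap, hA₀, hΨ⟩
  choose χ c ρ A₀ Ψ hC hA₀ hΨ using hex
  obtain ⟨KL, hKL⟩ : ∃ KL : ∀ z₀, (r₁ < ‖z₀ - b‖ ∧ ‖z₀ - b‖ < r₂) → ℂ → ℂ, KL = fun z₀ h₀ z =>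
    (Ψ z₀ h₀ ((χ z₀ h₀).q (G z)) - Ψ z₀ h₀ ((χ z₀ h₀).q (F z))) - HG z + HF z := ⟨_, rfl⟩
  refine ⟨fun z => if h : r₁ < ‖z - b‖ ∧ ‖z - b‖ < r₂ then KL z h z else 0, fun z₀ h1 h2 => ?_⟩
  have h₀ : r₁ < ‖z₀ - b‖ ∧ ‖z₀ - b‖ < r₂ := ⟨h1, h2⟩
  have hX0 : ∀ x ∈ X, x ≠ 0 := fun x hx h => hX.zero_notMem (h ▸ hx)
  have hbt : ∀ z : ℂ, ‖z - b‖ < r₂ → z ∈ ball b t := fun z hz => by
    rw [mem_ball, dist_eq_norm]
    exact hz.trans hr₂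
  have hbs : ∀ z : ℂ, ‖z - b‖ < r₂ → z ∈ ball b s := fun z hz => ball_subset_ball hts (hbt z hz)
  have hcF : ∀ z : ℂ, z ∈ ball b t → CurveAt X F z := fun z hz =>
    ⟨hF.1.analyticAt (isOpen_ball.mem_nhds hz), by
      filter_upwards [isOpen_ball.mem_nhds hz] with w hw
      exact hF.2.1 w hw⟩
  have hcG : ∀ z : ℂ, z ∈ ball b t → CurveAt X G z := fun z hz =>
    ⟨hG.1.analyticAt (isOpen_ball.mem_nhds hz), by
      filter_upwards [isOpen_ball.mem_nhds hz] with w hw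
      exact hG.2.1 w hw⟩
  have hbz₀ : z₀ ∈ ball b t := hbt z₀ h2
  have hprF : ContinuousAt (fun z => pr (F z)) z₀ :=
    (Pool.Agent.H62.EF.continuousAt_pr (hX0 _ (hF.2.1 z₀ hbz₀))).comp (f := F) (hcF z₀ hbz₀).1.continuousAt
  have hprG : ContinuousAt (fun z => pr (G z)) z₀ :=
    (Pool.Agent.H62.EF.continuousAt_pr (hX0 _ (hG.2.1 z₀ hbz₀))).comp (f := G) (hcG z₀ hbz₀).1.continuousAt
  -- the function agrees with the local one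
  have e1 : ∀ᶠ z in 𝓝 z₀, r₁ < ‖z - b‖ ∧ ‖z - b‖ < r₂ := by
    have hc : ContinuousAt (fun z : ℂ => ‖z - b‖) z₀ := (continuous_id.sub continuous_const).norm.continuousAt
    exact (hc.eventually_const_lt h1).and (hc.eventually_lt_const h2)
  have hev : (fun z => if h : r₁ < ‖z - b‖ ∧ ‖z - b‖ < r₂ then KL z h z else 0) =ᶠ[𝓝 z₀] KL z₀ h₀ := by
    have e3 : ∀ᶠ z in 𝓝 z₀, dist (pr (F z)) (pr (F z₀)) < r - ε := hprF.eventually (ball_mem_nhds _ (by linarith))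
    filter_upwards [e1, hC z₀ h₀, e3] with z g1 g2 g3
    rw [dif_pos g1]
    obtain ⟨v, hv⟩ := hrel z g1.1 g1.2
    have hcons := kz_cons hX hu hΛ hT (hF.2.1 z (hbt z g1.2)) (hG.2.1 z (hbt z g1.2)) (z := z) (hbs z g1.2) hv (hC z g1).self_of_nhds (hΨ z g1)
      (by rw [dist_self]; linarith) g2 (hΨ z₀ h₀) (by linarith)
    rw [hKL]
    simp only
    rw [hcons]
  refine HasDerivAt.congr_of_eventuallyEq ?_ hev
  -- the derivative of the local function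
  obtain ⟨v, hv⟩ := hrel z₀ h1 h2
  have hεr0 : 0 ≤ ε := by
    obtain ⟨χ', c', ρ', A', p, p', hm', -, hp, hp', hpz, hpz', hpx, hpx', hdist, -⟩ := hv
    exact dist_nonneg.trans (hdist 0 (by simp))
  have hdG : dist (pr (G z₀)) (pr (F z₀)) ≤ ε := by
    obtain ⟨χ', c', ρ', A', p, p', hm', -, hp, hp', hpz, hpz', hpx, hpx', hdist, -⟩ := hv
    have h3 := hdist 1 (by simp)
    have h4 : p + ((1 : ℝ) : ℂ) • (p' - p) = p' := by simp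
    rwa [h4, hpx'] at h3
  have eF : ∀ᶠ z in 𝓝 z₀, dist (pr (F z)) (pr (F z₀)) < r := hprF.eventually (ball_mem_nhds _ (by linarith))
  have eG : ∀ᶠ z in 𝓝 z₀, dist (pr (G z)) (pr (F z₀)) < r := hprG.eventually (isOpen_ball.mem_nhds (mem_ball.2 (by linarith)))
  have eb : ∀ᶠ z in 𝓝 z₀, z ∈ ball b t := isOpen_ball.mem_nhds hbz₀
  obtain ⟨hFU, hFq, hFz⟩ := (hC z₀ h₀).self_of_nhds.cap (F z₀) (hF.2.1 z₀ hbz₀) (hF.2.2 z₀ hbz₀) eF.self_of_nhds.le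
  obtain ⟨hGU, hGq, hGz⟩ := (hC z₀ h₀).self_of_nhds.cap (G z₀) (hG.2.1 z₀ hbz₀) (hG.2.2 z₀ hbz₀) eG.self_of_nhds.le
  have hρ := (hC z₀ h₀).self_of_nhds.mon.pos
  have hdF := fst_deriv hρ (hcF z₀ hbz₀).1 hFU (hasDerivAt_id z₀) (by
    filter_upwards [hC z₀ h₀, eF, eb] with z g1 g2 g3
    exact (g1.cap (F z) (hF.2.1 z g3) (hF.2.2 z g3) g2.le).2.2)
  have hdG' := fst_deriv hρ (hcG z₀ hbz₀).1 hGU (hasDerivAt_id z₀) (by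
    filter_upwards [hC z₀ h₀, eG, eb] with z g1 g2 g3
    exact (g1.cap (G z) (hG.2.1 z g3) (hG.2.2 z g3) g2.le).2.2)
  obtain ⟨k, hk⟩ := hT.cover z₀ (hbs z₀ h2) _ (hF.2.1 z₀ hbz₀) (hF.2.2 z₀ hbz₀)
  obtain ⟨l, hl⟩ := hT.cover z₀ (hbs z₀ h2) _ (hG.2.1 z₀ hbz₀) (hG.2.2 z₀ hbz₀)
  have dF := hΨ z₀ h₀ F z₀ k (hcF z₀ hbz₀) hFU (ball_32 hFq) hk
  have dG := hΨ z₀ h₀ G z₀ l (hcG z₀ hbz₀) hGU (ball_32 hGq) hl
  rw [hdF] at dF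
  rw [hdG'] at dG
  have hb₂ : z₀ ∈ ball b r₂ := by
    rw [mem_ball, dist_eq_norm]
    exact h2
  have eHF := hHF z₀ hb₂ k hk
  have eHG := hHG z₀ hb₂ l hl
  have hII := II_eqz hX hu hΛ ⟨v, hv⟩ (hC z₀ h₀).self_of_nhds (hA₀ z₀ h₀) (by rw [dist_self]; linarith) (hF.2.1 z₀ hbz₀) (hG.2.1 z₀ hbz₀) rfl rfl
  rw [hII]
  have htot := ((dG.sub dF).sub eHG).add eHF
  refine (htot.congr_deriv ?_).congr_of_eventuallyEq (Eventually.of_forall fun z => ?_)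
  · ring
  · rw [hKL]
    simp only [Pi.add_apply, Pi.sub_apply]
    ring

theorem crossing_free (hX : IsCone X) (hu : TorusMap X Λ u) (hΛ : Lat Λ) {b : ℂ} {s η : ℝ} {T : TubeData X} (hT : Tube Λ u b s η T)
    {α : TForm X Λ u} {r₁ r₂ ε r t : ℝ} (hr₁ : 0 < r₁) (hr : r₁ < r₂) (hr₂ : r₂ < t) (hts : t ≤ s) (hεr : ε < r)
    {F G : ℂ → EN N} (hF : SecOn X Λ u b t F) (hG : SecOn X Λ u b t G)
    (hcap : ∀ z₀, r₁ < ‖z₀ - b‖ → ‖z₀ - b‖ < r₂ → ∃ (χ : Chart X) (c : ℂ) (ρ : ℝ),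
      (∀ᶠ z in 𝓝 z₀, Capz Λ u χ c ρ z (pr (F z₀)) r) ∧ ∀ p ∈ ball (0 : ℂ × ℂ) 2, c + ρ * p.1 ∈ ball b s)
    (hrel : ∀ z₀, r₁ < ‖z₀ - b‖ → ‖z₀ - b‖ < r₂ → ∃ v, IRel α ε z₀ (pr (F z₀)) (pr (G z₀)) v) :
    ∃ J : ℂ → ℂ, DifferentiableOn ℂ J (ball b r₂) ∧ ∀ z, r₁ < ‖z - b‖ → ‖z - b‖ < r₂ → J z = II α ε z (pr (F z)) (pr (G z)) := by
  have hopen : IsOpen {z : ℂ | r₁ < ‖z - b‖ ∧ ‖z - b‖ < r₂} := by
    have h1 : IsOpen {z : ℂ | r₁ < ‖z - b‖} := isOpen_lt continuous_const (by fun_prop)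
    have h2 : IsOpen {z : ℂ | ‖z - b‖ < r₂} := isOpen_lt (by fun_prop) continuous_const
    exact h1.inter h2
  have hbt : ∀ z : ℂ, ‖z - b‖ < r₂ → z ∈ ball b t := fun z hz => by
    rw [mem_ball, dist_eq_norm]
    exact hz.trans hr₂
  refine ext_annulus hr₁ hr (J := fun z => II α ε z (pr (F z)) (pr (G z))) ?_ ?_
  · intro z₀ hz₀
    obtain ⟨χ, c, ρ, hc, _⟩ := hcap z₀ hz₀.1 hz₀.2
    have hb := isOpen_ball.mem_nhds (hbt z₀ hz₀.2)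
    have h := II_analytic_z hX hu hΛ (α := α) (ε := ε) (r := r) (hF.1.analyticAt hb) (hG.1.analyticAt hb)
      (Filter.mem_of_superset hb fun z hz => ⟨hF.2.1 z hz, hF.2.2 z hz⟩) (Filter.mem_of_superset hb fun z hz => ⟨hG.2.1 z hz, hG.2.2 z hz⟩)
      hc hεr (Filter.mem_of_superset (hopen.mem_nhds hz₀) fun z hz => hrel z hz.1 hz.2)
    exact h.differentiableAt.differentiableWithinAt
  · intro n r' hr₁r hrr₂
    choose A hA using fun k : Fin T.m => exists_prim (α.mulPow b n) (T.χ k) (hT.geo.mon k)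
    obtain ⟨lam, hlam⟩ := hT.split (α.mulPow b n) A hA
    obtain ⟨K, hK⟩ := exists_Kz hX hu hΛ hT.geo hA hlam hts hF hG (r₁ := r₁) hr₂ hεr hcap
      (fun z h₁ h₂ => by
        obtain ⟨v, hv⟩ := hrel z h₁ h₂
        exact ⟨_, hv.mulPow b n⟩)
    refine circleIntegral.integral_eq_zero_of_hasDerivWithinAt (f := K) (by linarith) fun z hz => ?_
    have hz' : ‖z - b‖ = r' := by rwa [mem_sphere, dist_eq_norm] at hz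
    have h₁ : r₁ < ‖z - b‖ := by rw [hz']; exact hr₁r
    have h₂ : ‖z - b‖ < r₂ := by rw [hz']; exact hrr₂
    obtain ⟨χ, c, ρ, hc, _⟩ := hcap z h₁ h₂
    have h := II_mulPowz hX hu hΛ (hrel z h₁ h₂) hc.self_of_nhds (by rw [dist_self]; linarith) b n
    have h3 := hK z h₁ h₂
    rw [h] at h3
    exact h3.hasDerivWithinAt

end Pool.Agent.GXE

end
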