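import Pool.Agent.H94.G5T.G3.X.FrmA_1
import Pool.Agent.H94.G5T.M73
import Pool.Agent.H94.G5T.M92

/-! The parts of this file: G3.X.RfA, G3.X.RfA_1. -/

section

/-!
# G3 X RfA: the form restricted to the slab

Port of `TG/Y/Rf.lean` (`Rf_det`, `Rf_tan`, `Rf_det_an`, `Rf_lift` are private there: copy / port) with `FrmA`: the fields of `La.form` and `La.form_eq` by `La.frame_indep`, `La.tan`.  The data field `toFun` of `La.form` is frozen.
-/

set_option autoImplicit false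

open Topology Filter Metric

namespace Pool.Agent.GX

open Pool.Agent.H36.BP (EN fs wd)
open Pool.Agent.H14.PP (IsCone CurveAt Tan)
open Pool.Agent.H62.EF (MN pr)
open Pool.Agent.AD (Vd Chart Charts IsGerm)
open Pool.Agent.TG (TMap Lat tl nm IsStr IsNC IsCoord Geo VForm ms Str IsPrim Cap IRel II TransAt Gd Cst DV fr tc exists_lift_chart smul_mem_lat exists_tan toFun_eq tc_an)

variable {N k : ℕ}

variable {X : Set (EN N)} {Λ : AddSubgroup (Vd (k + 1))} {u : EN N → Vd (k + 1)} {D B : Set (Vd (k + 1))}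
  {κ ψ : Vd (k + 1) → Vd (k + 1)} {R : ℝ} {g : ℂ → Fin k → ℂ} {Γ₀ : AddSubgroup ℂ} {s : ℝ}

open Classical in
/-- a frame at `x` -/
noncomputable def lfa (X : Set (EN N)) (Λ : AddSubgroup (Vd (k + 1))) (u : EN N → Vd (k + 1)) (κ : Vd (k + 1) → Vd (k + 1)) (g : ℂ → Fin k → ℂ) (s : ℝ)
    (x : EN N) : Fin k → EN N :=
  if h : ∃ ℓ : Fin k → EN N, ∀ j, DV X Λ u x (ℓ j) (fr κ (cg g) (wa Λ u κ g s x) j) then h.choose else 0

theorem RfA_det (a b c d : ℂ) :
    (Matrix.of fun i j => (Fin.cons (Fin.cons a (Fin.cons b 0) : Fin (k + 2) → ℂ)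
      (Fin.cons (Fin.cons c (Fin.cons d 0) : Fin (k + 2) → ℂ) fun i : Fin k => (Pi.single i.succ.succ 1 : Fin (k + 2) → ℂ)) :
        Fin (k + 2) → Fin (k + 2) → ℂ) i j).det = a * d - b * c := by
  rw [Matrix.det_succ_row_zero, Fin.sum_univ_succ, Fin.sum_univ_succ]
  have h1 : ∀ i : Fin k, (Matrix.of fun i j => (Fin.cons (Fin.cons a (Fin.cons b 0) : Fin (k + 2) → ℂ)
      (Fin.cons (Fin.cons c (Fin.cons d 0) : Fin (k + 2) → ℂ) fun i : Fin k => (Pi.single i.succ.succ 1 : Fin (k + 2) → ℂ)) :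
        Fin (k + 2) → Fin (k + 2) → ℂ) i j) 0 i.succ.succ = 0 := fun i => rfl
  simp only [h1]
  simp only [mul_zero, zero_mul, Finset.sum_const_zero, add_zero]
  have e1 : ((Matrix.of fun i j => (Fin.cons (Fin.cons a (Fin.cons b 0) : Fin (k + 2) → ℂ)
      (Fin.cons (Fin.cons c (Fin.cons d 0) : Fin (k + 2) → ℂ) fun i : Fin k => (Pi.single i.succ.succ 1 : Fin (k + 2) → ℂ)) :
        Fin (k + 2) → Fin (k + 2) → ℂ) i j).submatrix Fin.succ (Fin.succAbove 0)) =
      Matrix.diagonal (Fin.cons d fun _ => 1 : Fin (k + 1) → ℂ) := by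
    ext i j
    rw [Fin.succAbove_zero]
    refine Fin.cases ?_ (fun i => ?_) i <;> refine Fin.cases ?_ (fun j => ?_) j
    · simp
    · rw [Matrix.diagonal_apply_ne _ (Fin.succ_ne_zero _).symm]
      rfl
    · rw [Matrix.diagonal_apply_ne _ (Fin.succ_ne_zero _)]
      show (Pi.single i.succ.succ 1 : Fin (k + 2) → ℂ) (Fin.succ 0) = 0
      apply Pi.single_eq_of_ne
      intro h
      have h' := congrArg Fin.val h
      simp at h'
    · show (Pi.single i.succ.succ 1 : Fin (k + 2) → ℂ) j.succ.succ = _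
      by_cases h : j = i
      · subst h; simp
      · rw [Pi.single_eq_of_ne, Matrix.diagonal_apply_ne]
        · exact fun h' => h (Fin.succ_injective _ h').symm
        · exact fun h' => h (Fin.succ_injective _ (Fin.succ_injective _ h'))
  have e2 : ((Matrix.of fun i j => (Fin.cons (Fin.cons a (Fin.cons b 0) : Fin (k + 2) → ℂ)
      (Fin.cons (Fin.cons c (Fin.cons d 0) : Fin (k + 2) → ℂ) fun i : Fin k => (Pi.single i.succ.succ 1 : Fin (k + 2) → ℂ)) :
        Fin (k + 2) → Fin (k + 2) → ℂ) i j).submatrix Fin.succ (Fin.succAbove (Fin.succ 0))) =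
      Matrix.diagonal (Fin.cons c fun _ => 1 : Fin (k + 1) → ℂ) := by
    ext i j
    have hj : ∀ j : Fin k, (Fin.succAbove (Fin.succ 0 : Fin (k + 2)) j.succ) = j.succ.succ := by
      intro j
      rw [Fin.succ_succAbove_succ, Fin.succAbove_zero]
    have hj0 : (Fin.succAbove (Fin.succ 0 : Fin (k + 2)) (0 : Fin (k + 1))) = 0 := Fin.succ_succAbove_zero _
    rw [Matrix.submatrix_apply]
    refine Fin.cases ?_ (fun i => ?_) i <;> refine Fin.cases ?_ (fun j => ?_) j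
    · rw [hj0]; simp
    · rw [hj, Matrix.diagonal_apply_ne _ (Fin.succ_ne_zero _).symm]
      rfl
    · rw [hj0, Matrix.diagonal_apply_ne _ (Fin.succ_ne_zero _)]
      show (Pi.single i.succ.succ 1 : Fin (k + 2) → ℂ) 0 = 0
      exact Pi.single_eq_of_ne (Fin.succ_ne_zero _).symm _
    · rw [hj]
      show (Pi.single i.succ.succ 1 : Fin (k + 2) → ℂ) j.succ.succ = _
      by_cases h : j = i
      · subst h; simp
      · rw [Pi.single_eq_of_ne, Matrix.diagonal_apply_ne]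
        · exact fun h' => h (Fin.succ_injective _ h').symm
        · exact fun h' => h (Fin.succ_injective _ (Fin.succ_injective _ h'))
  rw [e1, e2, Matrix.det_diagonal, Matrix.det_diagonal, Fin.prod_univ_succ, Fin.prod_univ_succ]
  simp
  ring

theorem RfA_det_an {E : Type*} [NormedAddCommGroup E] [NormedSpace ℂ E] {m : ℕ} {M : E → Matrix (Fin m) (Fin m) ℂ} {z : E}
    (h : ∀ i j, AnalyticAt ℂ (fun y => M y i j) z) : AnalyticAt ℂ (fun y => (M y).det) z := by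
  simp only [Matrix.det_apply']
  refine Finset.analyticAt_fun_sum _ fun σ _ => ?_
  exact analyticAt_const.mul (Finset.analyticAt_fun_prod _ fun i _ => h _ _)

/-- the lift of `u` along the slab -/
theorem RfA_lift (L : La X Λ u D κ ψ R g Γ₀ s) (χ : Chart (k + 2) X) {x₀ : EN N} (hx₀ : x₀ ∈ Ya X Λ u κ g s) (hU : x₀ ∈ χ.U)
    {υ : Vd (k + 2) → Vd (k + 1)} (hυ : AnalyticAt ℂ υ (χ.q x₀)) (hυe : υ (χ.q x₀) = ar κ g (wa Λ u κ g s x₀))
    (hυl : ∀ᶠ q in 𝓝 (χ.q x₀), u (χ.σ q) - υ q ∈ Λ) :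
    ∀ᶠ x in 𝓝 x₀, x ∈ Ya X Λ u κ g s → υ (χ.q x) = ar κ g (wa Λ u κ g s x) := by
  obtain ⟨W, hW, hWl⟩ := L.exists_loc hx₀
  have hW0 : wa Λ u κ g s x₀ = W x₀ := hWl.self_of_nhds hx₀
  obtain ⟨δ, hδ, hd⟩ := L.kp.lat.disc
  have hqt : Tendsto χ.q (𝓝 x₀) (𝓝 (χ.q x₀)) := (χ.q_an x₀ hU).continuousAt
  have hWs : W x₀ ∈ ball (0 : ℂ) (2 * s) := by
    rw [← hW0]
    exact L.mem2 (wa_spec hx₀).1
  have h1 : Tendsto (fun x => υ (χ.q x) - (ar κ g (W x))) (𝓝 x₀) (𝓝 (υ (χ.q x₀) - (ar κ g (W x₀)))) :=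
    (hυ.continuousAt.tendsto.comp hqt).sub ((L.ar_an hWs).continuousAt.tendsto.comp hW.continuousAt.tendsto)
  rw [hυe, hW0, sub_self] at h1
  have h2 : ∀ᶠ x in 𝓝 x₀, ‖υ (χ.q x) - (ar κ g (W x))‖ < δ := by
    apply h1.norm.eventually_lt_const
    rwa [norm_zero]
  filter_upwards [hWl, h2, χ.isOpen_U.mem_nhds hU, hqt.eventually hυl] with x k1 k2 k3 k4 hx
  obtain ⟨hb, c', hc', hcx⟩ := χ.surj x hx.1 k3
  have k5 := smul_mem_lat L.kp.tor (χ.σ_mem _ hb).1 k4 hc'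
  rw [← hcx] at k5
  have k6 := Λ.sub_mem (wa_spec hx).2 k5
  have k7 : u x - (ar κ g (wa Λ u κ g s x)) - (u x - υ (χ.q x)) = υ (χ.q x) - (ar κ g (wa Λ u κ g s x)) := by abel
  rw [k7] at k6
  rw [k1 hx] at k6 ⊢
  exact sub_eq_zero.1 (hd _ k6 k2)

end Pool.Agent.GX

end

section

/-!
# G3 X RfA: the form restricted to the slab

Port of `TG/Y/Rf.lean` (`Rf_det`, `Rf_tan`, `Rf_det_an`, `Rf_lift` are private there: copy / port) with `FrmA`: the fields of `La.form` and `La.form_eq` by `La.frame_indep`, `La.tan`.  The data field `toFun` of `La.form` is frozen.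
-/

set_option autoImplicit false

open Topology Filter Metric

namespace Pool.Agent.GX

open Pool.Agent.H36.BP (EN fs wd)
open Pool.Agent.H14.PP (IsCone CurveAt Tan)
open Pool.Agent.H62.EF (MN pr)
open Pool.Agent.AD (Vd Chart Charts IsGerm)
open Pool.Agent.TG (TMap Lat tl nm IsStr IsNC IsCoord Geo VForm ms Str IsPrim Cap IRel II TransAt Gd Cst DV fr tc exists_lift_chart smul_mem_lat exists_tan toFun_eq tc_an)

variable {N k : ℕ}

variable {X : Set (EN N)} {Λ : AddSubgroup (Vd (k + 1))} {u : EN N → Vd (k + 1)} {D B : Set (Vd (k + 1))}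
  {κ ψ : Vd (k + 1) → Vd (k + 1)} {R : ℝ} {g : ℂ → Fin k → ℂ} {Γ₀ : AddSubgroup ℂ} {s : ℝ}

theorem La.lfa_spec (L : La X Λ u D κ ψ R g Γ₀ s) {x : EN N} (hx : x ∈ Ya X Λ u κ g s) (j : Fin k) :
    DV X Λ u x (lfa X Λ u κ g s x j) (fr κ (cg g) (wa Λ u κ g s x) j) := by
  have h := L.exists_frame hx
  unfold lfa
  rw [dif_pos h]
  exact h.choose_spec j

/-- tangent vectors of the slab with a frame -/
private theorem RfA_tan (L : La X Λ u D κ ψ R g Γ₀ s) {x v w : EN N} (hx : x ∈ Ya X Λ u κ g s) (hv : Tan (Ya X Λ u κ g s) x v)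
    (hw : Tan (Ya X Λ u κ g s) x w) (i : Fin (k + 2)) : Tan X x ((Fin.cons v (Fin.cons w (lfa X Λ u κ g s x)) : Fin (k + 2) → EN N) i) := by
  obtain ⟨a, ha⟩ := L.tan hx hv
  obtain ⟨b, hb⟩ := L.tan hx hw
  refine Fin.cases ?_ (fun i => ?_) i
  · exact ha.tan
  · refine Fin.cases ?_ (fun i => ?_) i
    · exact hb.tan
    · exact (L.lfa_spec hx i).tan

/-- the restricted form -/
noncomputable def La.form (L : La X Λ u D κ ψ R g Γ₀ s) (α : VForm X Λ u) :
    Pool.Agent.H62.EL.TForm (Ya X Λ u κ g s) Γ₀ (wa Λ u κ g s) where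
  toFun := fun _ x v w => α.toFun (ar κ g (wa Λ u κ g s x)) x (Fin.cons v (Fin.cons w (lfa X Λ u κ g s x)))
  add_smul := by
    intro z x hx _ v w hv hw a b
    have h1 := α.add_smul _ x hx.1 (wa_spec hx).2 _ (RfA_tan L hx hv hw) (Fin.cons a (Fin.cons b 0))
    rw [← h1]
    congr 1
    funext i
    refine Fin.cases ?_ (fun i => ?_) i
    · rfl
    · refine Fin.cases ?_ (fun i => ?_) i
      · rfl
      · simp
  det := by
    intro z x hx _ v w hv hw a b c' d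
    have h1 := α.det _ x hx.1 (wa_spec hx).2 _ (RfA_tan L hx hv hw)
      (Matrix.of fun i j => (Fin.cons (Fin.cons a (Fin.cons b 0) : Fin (k + 2) → ℂ)
      (Fin.cons (Fin.cons c' (Fin.cons d 0) : Fin (k + 2) → ℂ) fun i : Fin k => (Pi.single i.succ.succ 1 : Fin (k + 2) → ℂ)) :
        Fin (k + 2) → Fin (k + 2) → ℂ) i j)
    rw [RfA_det] at h1
    rw [← h1]
    congr 1
    funext i
    rw [Fin.sum_univ_succ, Fin.sum_univ_succ]
    refine Fin.cases ?_ (fun i => ?_) i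
    · simp [Matrix.of_apply]
    · refine Fin.cases ?_ (fun i => ?_) i
      · simp [Matrix.of_apply]
      · simp only [Matrix.of_apply, Fin.cons_succ, Fin.cons_zero]
        rw [Pi.single_eq_of_ne (Fin.succ_ne_zero _).symm, Pi.single_eq_of_ne (fun h => by have h' := congrArg Fin.val h; simp at h'),
          zero_smul, zero_smul, zero_add, zero_add, Finset.sum_eq_single i]
        · simp
        · intro j _ hj
          rw [Pi.single_eq_of_ne (fun h => hj (Fin.succ_injective _ (Fin.succ_injective _ h))), zero_smul]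
        · intro h
          exact absurd (Finset.mem_univ i) h
  scale := by
    intro z x hx _ v w hv hw a ha
    obtain ⟨b₁, hb₁⟩ := L.tan hx hv
    obtain ⟨b₂, hb₂⟩ := L.tan hx hw
    have hax : a • x ∈ Ya X Λ u κ g s := L.isCone.smul_mem x hx a ha
    have hb₁' := hb₁.smul_pt L.kp.cone L.kp.tor ha
    have hb₂' := hb₂.smul_pt L.kp.cone L.kp.tor ha
    rw [← L.wa_smul hx ha] at hb₁' hb₂'
    have h1 := L.frame_indep α hax hb₁' hb₂' (L.lfa_spec hax)
      (ℓ' := fun j => a • lfa X Λ u κ g s x j) (fun j => by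
        rw [L.wa_smul hx ha]
        exact (L.lfa_spec hx j).smul_pt L.kp.cone L.kp.tor ha)
    rw [h1, L.wa_smul hx ha]
    have h2 := α.scale _ x hx.1 (wa_spec hx).2 _ (RfA_tan L hx hv hw) a ha
    rw [← h2]
    congr 1
    funext i
    refine Fin.cases ?_ (fun i => ?_) i
    · rfl
    · refine Fin.cases ?_ (fun i => ?_) i
      · rfl
      · rfl
  analytic := by
    intro φ υ₀ q₀ hφ _ hev
    have hx₀ : φ q₀ ∈ Ya X Λ u κ g s := hev.self_of_nhds.1
    obtain ⟨χ, lam, hU, hlam, hfr⟩ := L.frame_coord hx₀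
    obtain ⟨υ, hυ, hυe, hυl⟩ := exists_lift_chart L.kp.cone L.kp.tor χ hx₀.1 hU (wa_spec hx₀).2
    have hb₀ : χ.q (φ q₀) ∈ ball (0 : Vd (k + 2)) 2 := (χ.surj _ hx₀.1 hU).1
    have hqφ : AnalyticAt ℂ (fun y => χ.q (φ y)) q₀ := AnalyticAt.fun_comp (χ.q_an _ hU) hφ
    have htc : AnalyticAt ℂ (fun y => tc α χ υ (χ.q (φ y))) q₀ := AnalyticAt.fun_comp (tc_an α χ hb₀ hυ hυl) hqφ
    have hrow : ∀ (v : ℂ × ℂ) (i : Fin (k + 2)), AnalyticAt ℂ (fun y => fderiv ℂ (fun y => χ.q (φ y)) y v i) q₀ := by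
      intro v i
      have h2 : AnalyticAt ℂ (fun A : ℂ × ℂ →L[ℂ] Vd (k + 2) => A v) (fderiv ℂ (fun y => χ.q (φ y)) q₀) :=
        (ContinuousLinearMap.apply ℂ (Vd (k + 2)) v).analyticAt _
      have h3 : AnalyticAt ℂ (fun y => fderiv ℂ (fun y => χ.q (φ y)) y v) q₀ :=
        AnalyticAt.comp (g := fun A : ℂ × ℂ →L[ℂ] Vd (k + 2) => A v) (f := fun y => fderiv ℂ (fun y => χ.q (φ y)) y) h2 hqφ.fderiv
      exact (analyticAt_pi_iff.1 h3) i
    have hlamφ : AnalyticAt ℂ (fun y => lam (φ y)) q₀ := AnalyticAt.fun_comp hlam hφ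
    have hdet : AnalyticAt ℂ (fun y => (Matrix.of fun i j => (Fin.cons (fderiv ℂ (fun y => χ.q (φ y)) y (1, 0))
        (Fin.cons (fderiv ℂ (fun y => χ.q (φ y)) y (0, 1)) (lam (φ y))) : Fin (k + 2) → Vd (k + 2)) i j).det) q₀ := by
      refine RfA_det_an fun i j => ?_
      refine Fin.cases ?_ (fun i => ?_) i
      · exact hrow _ j
      · refine Fin.cases ?_ (fun i => ?_) i
        · exact hrow _ j
        · exact (analyticAt_pi_iff.1 ((analyticAt_pi_iff.1 hlamφ) i)) j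
    refine (hdet.mul htc).congr ?_
    have hφt : Tendsto φ (𝓝 q₀) (𝓝 (φ q₀)) := hφ.continuousAt
    filter_upwards [hev.eventually_nhds, hφ.eventually_analyticAt, hφt.eventually hfr, hφt.eventually (RfA_lift L χ hx₀ hU hυ hυe hυl),
      hφt.eventually (χ.isOpen_U.mem_nhds hU)] with y h1 h2 h3 h4 h5
    have hy : φ y ∈ Ya X Λ u κ g s := h1.self_of_nhds.1
    -- tangent vectors
    have htan : ∀ v : ℂ × ℂ, Tan (Ya X Λ u κ g s) (φ y) (fderiv ℂ φ y v) := by
      intro v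
      have hl : AnalyticAt ℂ (fun z : ℂ => y + z • v) 0 := by fun_prop
      have h0 : y + (0 : ℂ) • v = y := by simp
      have hσ : AnalyticAt ℂ φ (y + (0 : ℂ) • v) := by rw [h0]; exact h2
      refine ⟨fun z => φ (y + z • v), ⟨AnalyticAt.comp (g := φ) (f := fun z : ℂ => y + z • v) hσ hl, ?_⟩, by simp, ?_⟩
      · have ht : Tendsto (fun z : ℂ => y + z • v) (𝓝 0) (𝓝 y) := by
          have h6 := hl.continuousAt.tendsto
          rwa [h0] at h6
        exact (ht.eventually h1).mono fun z hz => hz.1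
      · have k1 : HasFDerivAt φ (fderiv ℂ φ y) (y + (0 : ℂ) • v) := by
          rw [h0]; exact h2.differentiableAt.hasFDerivAt
        have k2 : HasDerivAt (fun z : ℂ => y + z • v) v 0 := by
          have k3 : HasDerivAt (fun z : ℂ => z • v) ((1 : ℂ) • v) 0 := (hasDerivAt_id (0 : ℂ)).smul_const v
          rw [one_smul] at k3
          exact k3.const_add y
        exact (k1.comp_hasDerivAt (0 : ℂ) k2).deriv
    have hchain : ∀ v : ℂ × ℂ, fderiv ℂ χ.q (φ y) (fderiv ℂ φ y v) = fderiv ℂ (fun y => χ.q (φ y)) y v := by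
      intro v
      have k3 : HasFDerivAt (fun y => χ.q (φ y)) ((fderiv ℂ χ.q (φ y)).comp (fderiv ℂ φ y)) y :=
        (χ.q_an _ h5).differentiableAt.hasFDerivAt.comp y h2.differentiableAt.hasFDerivAt
      rw [k3.fderiv]
      rfl
    have hℓ : ∀ j, ∃ w : EN N, Tan X (φ y) w ∧ fderiv ℂ χ.q (φ y) w = lam (φ y) j := fun j => exists_tan L.kp.cone χ hy.1 h5 _
    choose ℓ hℓ1 hℓ2 using hℓ
    have hℓ3 : ∀ j, DV X Λ u (φ y) (ℓ j) (fr κ (cg g) (wa Λ u κ g s (φ y)) j) := fun j => h3 hy j _ (hℓ1 j) (hℓ2 j)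
    obtain ⟨a, ha⟩ := L.tan hy (htan (1, 0))
    obtain ⟨b, hb⟩ := L.tan hy (htan (0, 1))
    show _ = α.toFun (ar κ g (wa Λ u κ g s (φ y))) (φ y) (Fin.cons (fderiv ℂ φ y (1, 0)) (Fin.cons (fderiv ℂ φ y (0, 1)) (lfa X Λ u κ g s (φ y))))
    rw [L.frame_indep α hy ha hb (L.lfa_spec hy) hℓ3, toFun_eq L.kp.cone L.kp.tor α χ hy.1 h5 (wa_spec hy).2 (h4 hy) _ (by
      intro i
      refine Fin.cases ?_ (fun i => ?_) i
      · exact ha.tan
      · refine Fin.cases ?_ (fun i => ?_) i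
        · exact hb.tan
        · exact hℓ1 i)]
    refine congrArg (fun z : ℂ => z * tc α χ υ (χ.q (φ y))) (congrArg Matrix.det ?_)
    ext i j
    refine Fin.cases ?_ (fun i => ?_) i
    · exact (congrFun (hchain (1, 0)) j).symm
    · refine Fin.cases ?_ (fun i => ?_) i
      · exact (congrFun (hchain (0, 1)) j).symm
      · exact (congrFun (hℓ2 i) j).symm

theorem La.form_eq (L : La X Λ u D κ ψ R g Γ₀ s) (α : VForm X Λ u) (z : ℂ) {x v w : EN N} (hx : x ∈ Ya X Λ u κ g s)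
    (hv : Tan (Ya X Λ u κ g s) x v) (hw : Tan (Ya X Λ u κ g s) x w) {ℓ : Fin k → EN N}
    (hℓ : ∀ j, DV X Λ u x (ℓ j) (fr κ (cg g) (wa Λ u κ g s x) j)) :
    (L.form α).toFun z x v w = α.toFun (ar κ g (wa Λ u κ g s x)) x (Fin.cons v (Fin.cons w ℓ)) := by
  obtain ⟨a, ha⟩ := L.tan hx hv
  obtain ⟨b, hb⟩ := L.tan hx hw
  exact L.frame_indep α hx ha hb (L.lfa_spec hx) hℓ

end Pool.Agent.GX

end
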