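import Pool.Agent.H94.G5T.G3.R.StepA_1
import Pool.Agent.H94.G5T.M61
import Pool.Agent.H94.G5T.M73
import Pool.Agent.H94.G5T.M74
import Pool.Agent.H94.G5T.M76

/-! The parts of this file: G3.C.PVd, G4.R.StepA_1, G3.X.BrA. -/

section

/-!
# G3 C PVd: the norm of the value of the jet form is continuous

In a box `‖pval‖ * ‖x‖ = ‖QF (Jt m w s z)‖ * ‖χ.σ (cz …)‖` (`pval_eq`, `Box.move`; `χ.σ = α • x`), a continuous function of `(s, z)` (`QF_analytic`, `JetFam.cont`).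
-/

set_option autoImplicit false

open Topology Filter Metric

namespace Pool.Agent.G3.C

open Pool.Agent.H36.BP (EN fs wd)
open Pool.Agent.H14.PP (IsCone)
open Pool.Agent.H62.EF (MN pr)
open Pool.Agent.AD (Vd Chart Charts)
open Pool.Agent.TG (TMap Lat Str ms tl)

variable {N k : ℕ} {X : Set (EN N)} {Λ : AddSubgroup (Vd (k + 1))} {u : EN N → Vd (k + 1)} {ν a b c : Vd (k + 1)} {m : ℕ} {ρ : ℝ}

/-- in a box the norm of the value is the norm of the local expression -/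
private theorem pvd_val (hX : IsCone X) {Φ : ℝ → ℂ → MN N} {χ : Chart (k + 2) X} {w : ℕ → ℝ → ℂ → ℂ} {s₀ : ℝ} {z₀ : ℂ} {r : ℝ}
    (B : Box X Λ u a ν b Φ χ c ρ w s₀ z₀ r) (P : JForm X Λ u ν m) {s : ℝ} {z : ℂ} (hs : s ∈ Set.Ioo (s₀ - r) (s₀ + r)) (hz : z ∈ ball z₀ r)
    {x : EN N} (hx : x ≠ 0) (hΦ : Φ s z = pr x) :
    ‖pval P a b Φ s z x‖ * ‖x‖ = ‖QF P b a χ c ρ (Jt m w s z)‖ * ‖χ.σ (cz b ν a c ρ (w 0 s z) s z)‖ := by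
  have hne : χ.σ (cz b ν a c ρ (w 0 s z) s z) ≠ 0 := by
    intro h
    have h1 := (χ.σ_mem _ (B.mem s hs z hz)).1
    rw [h] at h1
    exact hX.zero_notMem h1
  have h := B.eq s hs z hz
  rw [hΦ] at h
  obtain ⟨α, hα0, hα⟩ := (Pool.Agent.H62.EF.pr_eq_iff hne hx).1 h.symm
  obtain ⟨r', B'⟩ := B.move hs hz
  rw [pval_eq hX B' P hα hα0, norm_mul, mul_assoc, ← norm_smul, ← hα]

theorem pval_normCont (hX : IsCone X) {Φ : ℝ → ℂ → MN N} {s₀ : ℝ} {z₀ : ℂ} (hS : Smo X Λ u a ν b Φ s₀ z₀) (P : JForm X Λ u ν m) {x₀ : EN N} (hx₀ : x₀ ≠ 0)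
    (hΦ : Φ s₀ z₀ = pr x₀) {ε : ℝ} (hε : 0 < ε) :
    ∀ᶠ q in 𝓝 ((s₀, z₀) : ℝ × ℂ), ∀ x : EN N, x ≠ 0 → Φ q.1 q.2 = pr x →
      |‖pval P a b Φ q.1 q.2 x‖ * ‖x‖ - ‖pval P a b Φ s₀ z₀ x₀‖ * ‖x₀‖| < ε := by
  obtain ⟨χ, c, ρ, w, r, B⟩ := hS
  have hs₀ : s₀ ∈ Set.Ioo (s₀ - r) (s₀ + r) := ⟨by linarith [B.pos], by linarith [B.pos]⟩
  have hz₀ : z₀ ∈ ball z₀ r := mem_ball_self B.pos
  have hnh : Set.Ioo (s₀ - r) (s₀ + r) ×ˢ ball z₀ r ∈ 𝓝 ((s₀, z₀) : ℝ × ℂ) := (isOpen_Ioo.prod isOpen_ball).mem_nhds ⟨hs₀, hz₀⟩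
  have hw : ∀ j, ContinuousAt (fun q : ℝ × ℂ => w j q.1 q.2) (s₀, z₀) := fun j => (B.jet.cont j).continuousAt hnh
  have hre : ContinuousAt (fun q : ℝ × ℂ => (q.1 : ℂ)) (s₀, z₀) := by fun_prop
  have hJ : ContinuousAt (fun q : ℝ × ℂ => Jt m w q.1 q.2) (s₀, z₀) :=
    hre.prodMk (continuousAt_snd.prodMk (continuousAt_pi.2 fun j => hw j))
  have hQ : ContinuousAt (fun q : ℝ × ℂ => QF P b a χ c ρ (Jt m w q.1 q.2)) (s₀, z₀) := by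
    have h0a : AnalyticAt ℂ (QF P b a χ c ρ) (Jt m w s₀ z₀) := QF_analytic P B.str _ (B.mem s₀ hs₀ z₀ hz₀)
    have h1 : ContinuousAt (QF P b a χ c ρ) (Jt m w s₀ z₀) := h0a.continuousAt
    exact ContinuousAt.comp (g := QF P b a χ c ρ) (f := fun q : ℝ × ℂ => Jt m w q.1 q.2) h1 hJ
  have hcz : ContinuousAt (fun q : ℝ × ℂ => cz b ν a c ρ (w 0 q.1 q.2) q.1 q.2) (s₀, z₀) := by
    have h1 : ContinuousAt (fun p : ℂ × ℂ × ℂ => cz b ν a c ρ p.1 p.2.1 p.2.2) (w 0 s₀ z₀, (s₀ : ℂ), z₀) :=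
      (cz_analytic analyticAt_fst (analyticAt_fst.fun_comp analyticAt_snd) (analyticAt_snd.fun_comp analyticAt_snd)).continuousAt
    exact ContinuousAt.comp (g := fun p : ℂ × ℂ × ℂ => cz b ν a c ρ p.1 p.2.1 p.2.2) (f := fun q : ℝ × ℂ => (w 0 q.1 q.2, (q.1 : ℂ), q.2)) h1
      ((hw 0).prodMk (hre.prodMk continuousAt_snd))
  have hσ : ContinuousAt (fun q : ℝ × ℂ => χ.σ (cz b ν a c ρ (w 0 q.1 q.2) q.1 q.2)) (s₀, z₀) := by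
    have h1 : ContinuousAt χ.σ (cz b ν a c ρ (w 0 s₀ z₀) s₀ z₀) := (χ.σ_an _ (B.mem s₀ hs₀ z₀ hz₀)).continuousAt
    exact ContinuousAt.comp (g := χ.σ) (f := fun q : ℝ × ℂ => cz b ν a c ρ (w 0 q.1 q.2) q.1 q.2) h1 hcz
  have hG : ContinuousAt (fun q : ℝ × ℂ => ‖QF P b a χ c ρ (Jt m w q.1 q.2)‖ * ‖χ.σ (cz b ν a c ρ (w 0 q.1 q.2) q.1 q.2)‖) (s₀, z₀) :=
    hQ.norm.mul hσ.norm
  filter_upwards [hnh, Metric.tendsto_nhds.1 hG ε hε] with q hq hqε x hx hΦx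
  rw [pvd_val hX B P hq.1 hq.2 hx hΦx, pvd_val hX B P hs₀ hz₀ hx₀ hΦ, ← Real.dist_eq]
  exact hqε

end Pool.Agent.G3.C

end

section

/-!
# G4 R StepA: order zero, and the sequences of the proof by contradiction
-/

set_option autoImplicit false

open Topology Filter Metric

namespace Pool.Agent.G4.R

open Pool.Agent.H36.BP (EN fs wd)
open Pool.Agent.H14.PP (IsCone CurveAt Tan)
open Pool.Agent.H62.EF (MN pr)
open Pool.Agent.AD (Vd Chart Charts IsGerm)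
open Pool.Agent.TG
open Pool.Agent.G3
open Pool.Agent.G3.R
open Pool.Agent.G3.C (Gc nv nd nv_pr)
open Pool.Agent.G3.A (Ba Hc Dec Sepa Tht Frm NL Lm CRL Tb ToE CE Sht)
open Pool.Agent.G4.A

variable {N k : ℕ} {X : Set (EN N)} {Λ : AddSubgroup (Vd (k + 1))} {u : EN N → Vd (k + 1)} {D B Bad : Set (Vd (k + 1))} {a b w : Vd (k + 1)} {E : Submodule ℝ (Vd (k + 1))}
  {SS : Set (Vd (k + 1) → MN N)} {Γ : AddSubgroup (Vd (k + 1))} {J rW : ℕ} {W : Fin rW → Vd (k + 1) →L[ℂ] ℂ} {α : Fin J → VForm X Λ u} {c₀ C₀ ρ δ : ℝ}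

/-- the values in the affine chart are bounded -/
theorem nv_le_two (hS : Shs X Λ u D a b E SS) (hL : LG Λ D Bad a) (hw : w ∈ E) {δ' : ℝ} (hδ' : 0 < δ') : ∃ r : ℝ, 0 < r ∧ ∀ φ ∈ SS, ∀ y ∈ Tb b E, y ∈ Gd D δ' → ∀ v : EN N, ‖v‖ = 1 →
    pr v = φ y → ∀ s : ℝ, |s| ≤ r → ‖nv v (φ (y + (s : ℂ) • w))‖ ≤ 2 := by
  obtain ⟨ε, hε, h1⟩ := nv_near (N := N) one_pos
  obtain ⟨r, hr, h2⟩ := hS.unif4 hL hδ' hε
  have hw1 : 0 < ‖w‖ + 1 := by positivity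
  refine ⟨r / (‖w‖ + 1), by positivity, fun φ hφ y hy hyG v hv hvφ s hs => ?_⟩
  have h3 : ‖y + (s : ℂ) • w - y‖ ≤ r := by
    rw [add_sub_cancel_left]
    refine (norm_smul_w hs w).trans ?_
    rw [div_mul_eq_mul_div, div_le_iff₀ hw1]
    nlinarith [norm_nonneg w]
  have h4 := h2 φ hφ y hy hyG (y + (s : ℂ) • w) (tb_add hy (smul_mem_E hw s)) h3
  rw [← hvφ] at h4
  have h5 := h1 v hv _ h4
  have h6 := norm_sub_norm_le (nv v (φ (y + (s : ℂ) • w))) v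
  rw [hv] at h6
  linarith

theorem ddb_zero' (S : DA X Λ u D B Bad a Γ W α c₀ C₀ ρ δ) (hS : Shs X Λ u D a b E SS) (hw : w ∈ E) : DDb D (Tb b E) SS w 0 := by
  intro δ' hδ'
  obtain ⟨r, hr, h1⟩ := nv_le_two hS S.lg hw hδ'
  refine ⟨r, 2, hr, by norm_num, fun φ hφ y hy hyG v hv hvφ σ hσ => ?_⟩
  rw [dd_zero]
  exact h1 φ hφ y hy hyG v hv hvφ (σ 0) (hσ.le 0 le_rfl)

/-- the sequences of the proof by contradiction -/
theorem step_seq (S : DA X Λ u D B Bad a Γ W α c₀ C₀ ρ δ) (hS : Shs X Λ u D a b E SS) (hw : w ∈ E) {m : ℕ} (hm : ∀ j ≤ m, DDb D (Tb b E) SS w j) (hno : ¬ DDb D (Tb b E) SS w (m + 1)) :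
    ∃ R : ℝ, ∀ n : ℕ, ∃ (σ : ℕ → ℝ) (Nb : ℝ) (φ : Vd (k + 1) → MN N) (y : Vd (k + 1)) (v : EN N), Nod (m + 1) σ (1 / ((n : ℝ) + 1)) ∧ (n : ℝ) ≤ Nb ∧ 1 ≤ Nb ∧
      (∀ ψ ∈ SS, ∀ y' ∈ Tb b E, y' ∈ Co D Bad δ ρ → ∀ v' : EN N, ‖v'‖ = 1 → pr v' = ψ y' → sz w (m + 1) σ ψ y' v' ≤ Nb) ∧ φ ∈ SS ∧ y ∈ Tb b E ∧ y ∈ Co D Bad δ ρ ∧ ‖y‖ ≤ R ∧ ‖v‖ = 1 ∧
      pr v = φ y ∧ Nb / 2 ≤ sz w (m + 1) σ φ y v := by
  unfold DDb at hno
  push Not at hno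
  obtain ⟨δ', hδ', hno⟩ := hno
  obtain ⟨r₁, K, hr₁, hK, hcg⟩ := core_to_gd S hS hw hm hδ'
  obtain ⟨r₂, hr₂, h2⟩ := nv_le_two hS S.lg hw (show 0 < 2 * δ by linarith [S.lc.δ_pos])
  obtain ⟨R, hR, hred⟩ := hS.red4
  refine ⟨R, fun n => ?_⟩
  set rn : ℝ := min (1 / ((n : ℝ) + 1)) (min r₁ r₂) with hrn
  have hrn0 : 0 < rn := lt_min (by positivity) (lt_min hr₁ hr₂)
  obtain ⟨φ', hφ', y', hy', hyG', v', hv', hvφ', σ, hσ, hbig⟩ := hno rn (K * ((n : ℝ) + 2)) hrn0 (by positivity)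
  have hσ1 : Nod (m + 1) σ (1 / ((n : ℝ) + 1)) := hσ.mono le_rfl (min_le_left _ _)
  have hσ2 : Nod (m + 1) σ r₁ := hσ.mono le_rfl ((min_le_right _ _).trans (min_le_left _ _))
  have hσ3 : Nod (m + 1) σ r₂ := hσ.mono le_rfl ((min_le_right _ _).trans (min_le_right _ _))
  -- the supremum over the core
  set A : Set ℝ := {x | ∃ ψ ∈ SS, ∃ y ∈ Tb b E, y ∈ Co D Bad δ ρ ∧ ∃ v : EN N, ‖v‖ = 1 ∧ pr v = ψ y ∧ x = sz w (m + 1) σ ψ y v} with hA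
  have hbdd : BddAbove A := by
    refine ⟨∑ i ∈ Finset.range (m + 1 + 1), |dw (m + 1) σ i| * 2, ?_⟩
    rintro x ⟨ψ, hψ, y, hy, hyC, v, hv, hvψ, rfl⟩
    unfold sz dd
    refine (norm_sum_le _ _).trans (Finset.sum_le_sum fun i hi => ?_)
    rw [norm_smul, Complex.norm_real, Real.norm_eq_abs]
    refine mul_le_mul_of_nonneg_left (h2 ψ hψ y hy hyC v hv hvψ (σ i) (hσ3.le i ?_)) (abs_nonneg _)
    have := Finset.mem_range.1 hi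
    omega
  obtain ⟨Nb, hNb1, hNbA, hNbx⟩ := near_max hbdd
  have hcore : ∀ ψ ∈ SS, ∀ y' ∈ Tb b E, y' ∈ Co D Bad δ ρ → ∀ v' : EN N, ‖v'‖ = 1 → pr v' = ψ y' → sz w (m + 1) σ ψ y' v' ≤ Nb :=
    fun ψ hψ y hy hyC v hv hvψ => hNbA _ ⟨ψ, hψ, y, hy, hyC, v, hv, hvψ, rfl⟩
  have h3 := hcg σ Nb hσ2 hNb1 hcore φ' hφ' y' hy' hyG' v' hv' hvφ'
  have h4 : (n : ℝ) + 2 < Nb := by
    have h5 : K * ((n : ℝ) + 2) < K * Nb := hbig.trans_le h3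
    exact lt_of_mul_lt_mul_left h5 hK.le
  have hn0 : (0 : ℝ) ≤ n := Nat.cast_nonneg n
  obtain ⟨x, ⟨φ, hφ, y, hy, hyC, v, hv, hvφ, rfl⟩, hx⟩ := hNbx (by linarith)
  obtain ⟨l, hl, hlE, φt, hφt, yt, hyt, hytR, rfl, hφe⟩ := hred φ hφ y hy
  refine ⟨σ, Nb, φt, yt, v, hσ1, by linarith, hNb1, hcore, hφt, hyt, (co_add S.lg hl).1 hyC, hytR, hv, ?_, ?_⟩
  · rw [hvφ]
    have h5 := hφe 0 E.zero_mem
    rw [add_zero, add_zero] at h5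
    exact h5.symm
  · have h6 : sz w (m + 1) σ φt yt v = sz w (m + 1) σ φ (yt + l) v := by
      unfold sz
      congr 1
      exact dd_congr fun i _ => by rw [hφe _ (smul_mem_E hw (σ i))]
    rw [h6]
    exact hx

end Pool.Agent.G4.R

end

section

/-!
# G3 X BrA: the coefficient of the restricted form

Port of `Ln.slice_tc` (`TG/Y/Br.lean`; `Br_det` is private there: copy).  `fderiv (sla ..) y (1, 0) = cons 0 ((r / ρ) • deriv (ar κ g) (z₀ + r y.1))`, `fderiv (sla ..) y (0, 1) = Pi.single 0 1`.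
-/

set_option autoImplicit false

open Topology Filter Metric

namespace Pool.Agent.GX

open Pool.Agent.H36.BP (EN fs wd)
open Pool.Agent.H14.PP (IsCone CurveAt Tan)
open Pool.Agent.H62.EF (MN pr)
open Pool.Agent.AD (Vd Chart Charts IsGerm)
open Pool.Agent.TG (TMap Lat tl nm IsStr IsNC IsCoord Geo VForm ms Str IsPrim Cap IRel II TransAt Gd Cst DV fr tc)

variable {N k : ℕ}

variable {X : Set (EN N)} {Λ : AddSubgroup (Vd (k + 1))} {u : EN N → Vd (k + 1)} {D B : Set (Vd (k + 1))}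
  {κ ψ : Vd (k + 1) → Vd (k + 1)} {R : ℝ} {g : ℂ → Fin k → ℂ} {Γ₀ : AddSubgroup ℂ} {s : ℝ}

/-- the linear part of `sla` -/
noncomputable def BrA_slL (e : Vd (k + 1)) (ρ r : ℝ) : ℂ × ℂ →L[ℂ] Vd (k + 2) :=
  ContinuousLinearMap.pi (Fin.cons (α := fun _ => ℂ × ℂ →L[ℂ] ℂ) (ContinuousLinearMap.snd ℂ ℂ ℂ)
    fun i : Fin (k + 1) => ((ρ : ℂ)⁻¹ * (r * e i)) • ContinuousLinearMap.fst ℂ ℂ ℂ)

theorem BrA_slL_apply (e : Vd (k + 1)) (ρ r : ℝ) (w : ℂ × ℂ) :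
    BrA_slL e ρ r w = Fin.cons (α := fun _ => ℂ) w.2 ((ρ : ℂ)⁻¹ • ((r * w.1) • e)) := by
  funext i
  refine Fin.cases rfl (fun j => ?_) i
  show ((ρ : ℂ)⁻¹ * (r * e j)) * w.1 = (ρ : ℂ)⁻¹ * ((r * w.1) * e j)
  ring

theorem BrA_sla_deriv (c' : Vd (k + 1)) (ρ : ℝ) (z₀ : ℂ) (r : ℝ) (y : ℂ × ℂ) (ha : AnalyticAt ℂ (ar κ g) (z₀ + r * y.1)) :
    HasFDerivAt (sla κ g c' ρ z₀ r) (BrA_slL (deriv (ar κ g) (z₀ + r * y.1)) ρ r) y := by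
  have hd : HasDerivAt (ar κ g) (deriv (ar κ g) (z₀ + r * y.1)) (z₀ + r * y.1) := ha.differentiableAt.hasDerivAt
  have h1 : HasFDerivAt (fun y : ℂ × ℂ => z₀ + (r : ℂ) * y.1) ((r : ℂ) • ContinuousLinearMap.fst ℂ ℂ ℂ) y :=
    ((ContinuousLinearMap.fst ℂ ℂ ℂ).hasFDerivAt.const_mul (r : ℂ)).const_add z₀
  rw [hasFDerivAt_pi']
  intro i
  refine Fin.cases ?_ (fun j => ?_) i
  · exact (ContinuousLinearMap.snd ℂ ℂ ℂ).hasFDerivAt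
  · have h2 : HasDerivAt (fun z => ar κ g z j) (deriv (ar κ g) (z₀ + r * y.1) j) (z₀ + r * y.1) := (hasDerivAt_pi.1 hd) j
    have h3 := ((h2.comp_hasFDerivAt y h1).sub_const (c' j)).const_mul ((ρ : ℂ)⁻¹)
    refine h3.congr_fderiv ?_
    ext
    · show (ρ : ℂ)⁻¹ * (deriv (ar κ g) (z₀ + r * y.1) j * ((r : ℂ) * 1)) = ((ρ : ℂ)⁻¹ * (r * deriv (ar κ g) (z₀ + r * y.1) j)) * 1
      ring
    · show (ρ : ℂ)⁻¹ * (deriv (ar κ g) (z₀ + r * y.1) j * ((r : ℂ) * 0)) = ((ρ : ℂ)⁻¹ * (r * deriv (ar κ g) (z₀ + r * y.1) j)) * 0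
      ring

/-- the first column is zero except in the row `1` -/
theorem BrA_det {a b : ℂ} {v : Vd (k + 1)} {w : Fin k → Vd (k + 1)} :
    (Matrix.of fun i j => (Fin.cons (Fin.cons (α := fun _ => ℂ) 0 ((a * b) • v)) (Fin.cons (Pi.single 0 1)
      fun l => Fin.cons (α := fun _ => ℂ) 0 (b • w l)) : Fin (k + 2) → Vd (k + 2)) i j).det =
      -(a * b ^ (k + 1)) * (Matrix.of fun i j => (Fin.cons v w : Fin (k + 1) → Vd (k + 1)) i j).det := by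
  rw [Matrix.det_succ_column_zero]
  rw [Fin.sum_univ_succ, Fin.sum_univ_succ]
  have h0 : ∀ x : Fin k, (Matrix.of fun i j => (Fin.cons (Fin.cons (α := fun _ => ℂ) 0 ((a * b) • v)) (Fin.cons (Pi.single 0 1)
      fun l => Fin.cons (α := fun _ => ℂ) 0 (b • w l)) : Fin (k + 2) → Vd (k + 2)) i j) x.succ.succ 0 = 0 := fun x => rfl
  have h1 : (Matrix.of fun i j => (Fin.cons (Fin.cons (α := fun _ => ℂ) 0 ((a * b) • v)) (Fin.cons (Pi.single 0 1)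
      fun l => Fin.cons (α := fun _ => ℂ) 0 (b • w l)) : Fin (k + 2) → Vd (k + 2)) i j) 0 0 = 0 := rfl
  have h2 : (Matrix.of fun i j => (Fin.cons (Fin.cons (α := fun _ => ℂ) 0 ((a * b) • v)) (Fin.cons (Pi.single 0 1)
      fun l => Fin.cons (α := fun _ => ℂ) 0 (b • w l)) : Fin (k + 2) → Vd (k + 2)) i j) (Fin.succ 0) 0 = 1 := by
    show (Pi.single 0 1 : Vd (k + 2)) 0 = 1
    exact Pi.single_eq_same _ _
  rw [h1, h2, Finset.sum_eq_zero (fun x _ => by rw [h0 x]; ring)]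
  have h3 : (Matrix.of fun i j => (Fin.cons (Fin.cons (α := fun _ => ℂ) 0 ((a * b) • v)) (Fin.cons (Pi.single 0 1)
      fun l => Fin.cons (α := fun _ => ℂ) 0 (b • w l)) : Fin (k + 2) → Vd (k + 2)) i j).submatrix (Fin.succ 0).succAbove Fin.succ =
      Matrix.of fun i j => (Fin.cons (a * b) fun _ => b : Fin (k + 1) → ℂ) i * (Matrix.of fun i j => (Fin.cons v w : Fin (k + 1) → Vd (k + 1)) i j) i j := by
    funext i j
    refine Fin.cases ?_ (fun l => ?_) i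
    · rfl
    · rfl
  rw [h3, Matrix.det_mul_column, Fin.prod_univ_succ]
  simp only [Fin.cons_zero, Fin.cons_succ, Finset.prod_const, Finset.card_univ, Fintype.card_fin]
  simp only [Fin.val_zero, Fin.succ_zero_eq_one, Fin.val_one]
  ring

end Pool.Agent.GX

end
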