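import Pool.Agent.H94.G5T.M134
import Pool.Agent.H94.G5T.M165
import Pool.Agent.H94.G5T.M166
import Pool.Agent.H94.G5T.M35

/-! The parts of this file: H23.GU.Up_1, H23.GU.Down, G4.V.Down. -/

section

/-!
# GU Up: the properties `GGLC` go up along dominant rational maps of projective varieties of the same dimension

`gglc_up`: let `P` and `P'` be homogeneous prime ideals, whose varieties `X` and `X'` have the same dimension, and let the function field of `X` be
embedded in the function field of `X'` (this is a dominant rational map from `X'` to `X`).  If `X` has the properties `GGLC` (with an exceptional set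
`Ξ`), then so has `X'`.
-/

set_option autoImplicit false

open Topology Filter MvPolynomial

noncomputable section

namespace Pool.Agent.H23.GU

open Pool.Agent.H17 (PN VanishesAt HolomorphicInto puncturedDisc vanishesAt_mk_iff ZariskiClosedIn)
open Pool.Agent.H17GT (coordFun)
open Pool.Agent.H17LG.Variety (FunField IsLogGeneralType ratio)
open Pool.Agent.H62.FC (Homog)
open Pool.Agent.H17R (coordFun_ne_zero_iff gen_eq_zero_iff ratio_self adjoin_ratio)
open Pool.Agent.H17EF (projVar)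
open Pool.Agent.H7.Bir (vals rmap vanishesAt_rmap pn_identity punctured_open exists_quot aeval_comp aeval_div rmap_mk vals_smul eval_comp exists_comp)
open Pool.Agent.H7.Qup (const_of_root root_bound exists_eq_aux isLGT_of_algebraic vals_rep_ne)
open Pool.Agent.H22.TB (GGLC eq_of_basis)

variable {N M : ℕ}

/-- **The composition with the rational map.** -/
theorem exists_lift {P : Ideal (MvPolynomial (Fin (N + 1)) ℂ)} {P' : Ideal (MvPolynomial (Fin (M + 1)) ℂ)} {D : ℕ}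
    {γ : Fin (N + 1) → MvPolynomial (Fin (M + 1)) ℂ} (hγ : ∀ i, (γ i).IsHomogeneous D)
    (hmaps : ∀ n R, R.IsHomogeneous n → (aeval γ R ∈ P' ↔ R ∈ P)) {f : ℂ → PN M} {U : Set ℂ} (hUo : IsOpen U) (hUc : IsPreconnected U)
    (hf : HolomorphicInto f U) (hfX : ∀ z ∈ U, f z ∈ projVar P') {z₀ : ℂ} (hz₀ : z₀ ∈ U) {i₀ : Fin (N + 1)} (h : ¬ VanishesAt (γ i₀) (f z₀)) :
    ∃ g : ℂ → PN N, HolomorphicInto g U ∧ (∀ z ∈ U, g z ∈ projVar P) ∧ g z₀ = rmap γ (f z₀) ∧
      ∀ (m D₁ : ℕ) (α : Fin (m + 1) → MvPolynomial (Fin (N + 1)) ℂ) (i j : Fin (M + 1)), (∀ l, (α l).IsHomogeneous D₁) →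
        ∑ l : Fin (m + 1), aeval γ (α l) * X i ^ (l : ℕ) * X j ^ (m - (l : ℕ)) ∈ P' → ∀ z ∈ U, Rel α i j (g z) (f z) := by
  obtain ⟨g, hg, hg1, hg2⟩ := exists_comp hγ hUo hUc hf hz₀ h
  -- the values near a point
  have hnear : ∀ z ∈ U, ∀ (φ : ℂ → Fin (M + 1) → ℂ) (ψ : ℂ → Fin (N + 1) → ℂ), AnalyticAt ℂ φ z → AnalyticAt ℂ ψ z →
      (∀ᶠ w in 𝓝 z, ∃ h : φ w ≠ 0, f w = Projectivization.mk ℂ (φ w) h) → (∀ᶠ w in 𝓝 z, ∃ h : ψ w ≠ 0, g w = Projectivization.mk ℂ (ψ w) h) →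
      ∀ᶠ w in 𝓝[≠] z, f w ∈ projVar P' ∧ φ w ≠ 0 ∧ (∃ h : φ w ≠ 0, f w = Projectivization.mk ℂ (φ w) h) ∧ vals γ (f w).rep ≠ 0 ∧ g w = rmap γ (f w) ∧
        ∃ c : ℂ, ψ w = c • vals γ (φ w) := by
    intro z hz φ ψ hφ hψ he he'
    filter_upwards [hg2 z hz, he.filter_mono nhdsWithin_le_nhds, he'.filter_mono nhdsWithin_le_nhds,
      mem_nhdsWithin_of_mem_nhds (hUo.mem_nhds hz)] with w h1 h2 h3 h4
    obtain ⟨h5, h6⟩ := h1
    obtain ⟨h7, h8⟩ := h2
    obtain ⟨h9, h10⟩ := h3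
    have h11 : vals γ (φ w) ≠ 0 := by
      rw [h8] at h5
      exact (vals_rep_ne hγ h7).1 h5
    refine ⟨hfX w h4, h7, ⟨h7, h8⟩, h5, h6, ?_⟩
    have h12 : Projectivization.mk ℂ (ψ w) h9 = Projectivization.mk ℂ (vals γ (φ w)) h11 := by
      rw [← h10, h6, h8, rmap_mk hγ h7 h11]
    rw [Projectivization.mk_eq_mk_iff'] at h12
    obtain ⟨c, hc⟩ := h12
    exact ⟨c, hc.symm⟩
  refine ⟨g, hg, ?_, hg1 z₀ hz₀ fun h0 => h (congrFun h0 i₀), ?_⟩
  · intro z hz R hR n hRn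
    obtain ⟨φ, hφ, he⟩ := hf z hz
    obtain ⟨ψ, hψ, he'⟩ := hg z hz
    obtain ⟨h1, h2⟩ := he'.self_of_nhds
    rw [h2, vanishesAt_mk_iff hRn]
    have hcont : ContinuousAt (fun w => eval (ψ w) R) z := by
      have h1 : AnalyticAt ℂ (fun w => MvPolynomial.aeval (ψ w) R) z := AnalyticAt.aeval_mvPolynomial (fun i => analyticAt_pi_iff.mp hψ i) R
      exact h1.continuousAt
    have h0 : ∀ᶠ w in 𝓝[≠] z, eval (ψ w) R = 0 := by
      filter_upwards [hnear z hz φ ψ hφ hψ he he', he'.filter_mono nhdsWithin_le_nhds] with w h3 h4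
      obtain ⟨h5, h6, h7, h8, h9, h10⟩ := h3
      obtain ⟨h11, h12⟩ := h4
      have h13 : VanishesAt R (g w) := by
        rw [h9, vanishesAt_rmap h8 hRn]
        exact h5 _ ((hmaps n R hRn).2 hR) _ (hRn.aeval γ hγ)
      rwa [h12, vanishesAt_mk_iff hRn] at h13
    exact tendsto_nhds_unique (hcont.tendsto.mono_left nhdsWithin_le_nhds) (tendsto_const_nhds.congr' (h0.mono fun w hw => hw.symm))
  · intro m D₁ α i j hα hmem z hz
    obtain ⟨φ, hφ, he⟩ := hf z hz
    obtain ⟨ψ, hψ, he'⟩ := hg z hz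
    obtain ⟨h1, h2⟩ := he'.self_of_nhds
    obtain ⟨h3, h4⟩ := he.self_of_nhds
    rw [h2, h4]
    refine Rel_of hα h1 h3 ?_
    have hGhom : (∑ l : Fin (m + 1), aeval γ (α l) * X i ^ (l : ℕ) * X j ^ (m - (l : ℕ)) : MvPolynomial (Fin (M + 1)) ℂ).IsHomogeneous
        (D * D₁ + m) := by
      refine IsHomogeneous.sum _ _ _ fun l _ => ?_
      have h1 := ((((hα l).aeval γ hγ).mul ((isHomogeneous_X ℂ i).pow (l : ℕ))).mul ((isHomogeneous_X ℂ j).pow (m - l)))
      have h2 : D * D₁ + 1 * (l : ℕ) + 1 * (m - l) = D * D₁ + m := by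
        have h3 : (l : ℕ) ≤ m := Nat.lt_succ_iff.1 l.2
        omega
      rw [h2] at h1
      exact h1
    have h0 : ∀ᶠ w in 𝓝[≠] z, rel α i j (ψ w) (φ w) = 0 := by
      filter_upwards [hnear z hz φ ψ hφ hψ he he'] with w h5
      obtain ⟨h6, h7, ⟨h8, h9⟩, h10, h11, c, hc⟩ := h5
      have h12 : rel α i j (c • vals γ (φ w)) ((1 : ℂ) • φ w) = 0 := by
        rw [rel_smul hα, rel_vals]
        have h13 : VanishesAt _ (f w) := h6 _ hmem _ hGhom
        rw [h9, vanishesAt_mk_iff hGhom] at h13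
        rw [h13, mul_zero]
      rwa [one_smul, ← hc] at h12
    exact tendsto_nhds_unique ((rel_continuousAt α i j hψ hφ).tendsto.mono_left nhdsWithin_le_nhds)
      (tendsto_const_nhds.congr' (h0.mono fun w hw => hw.symm))

/-- **Dominant rational maps.** -/
theorem gglc_up {P : Ideal (MvPolynomial (Fin (N + 1)) ℂ)} [P.IsPrime] {P' : Ideal (MvPolynomial (Fin (M + 1)) ℂ)} [hPp' : P'.IsPrime]
    (hP' : Homog P') {k : ℕ} {z : Fin (k + 1) → FunField P} (hz : IsTranscendenceBasis ℂ z) {z' : Fin (k + 1) → FunField P'}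
    (hz' : IsTranscendenceBasis ℂ z') (e : FunField P →ₐ[ℂ] FunField P') {Ξ : Set (PN N)} (hΞ : GGLC P Ξ) : ∃ Ξ' : Set (PN M), GGLC P' Ξ' := by
  obtain ⟨i₀, hi₀⟩ := Pool.Agent.H92.GT.Proj.exists_coordFun_ne_zero P z hz
  obtain ⟨j, hj⟩ := Pool.Agent.H92.GT.Proj.exists_coordFun_ne_zero P' z' hz'
  obtain ⟨D, γ, hγ, hmaps, hγ₀⟩ := exists_rat e hi₀ hj
  have hjP : X j ∉ P' := coordFun_ne_zero_iff.1 hj
  -- a form which vanishes on the exceptional set
  obtain ⟨S, hS, hΞS⟩ := hΞ.closed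
  obtain ⟨x₁, hx₁, R, hRS, hRx₁⟩ : ∃ x ∈ projVar P, ∃ R ∈ S, ¬ VanishesAt R x := by
    by_contra hcon
    push Not at hcon
    apply hΞ.proper
    rw [hΞS]
    ext y
    exact ⟨fun hy => hy.1, fun hy => ⟨hy, fun R hR => hcon y hy R hR⟩⟩
  obtain ⟨nR, hnR⟩ := hS R hRS
  have hRP : R ∉ P := fun h1 => hRx₁ (hx₁ R h1 nR hnR)
  have hRv : ∀ x ∈ Ξ, VanishesAt R x := by
    intro x hx
    rw [hΞS] at hx
    exact hx.2 R hRS
  -- the equations of the coordinates
  choose m D₁ α hα hαP hrel using exists_eq_aux hz hz' hγ hmaps (coordFun_ne_zero_iff.1 hi₀) hjP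
  set B : MvPolynomial (Fin (N + 1)) ℂ := R * ∏ i, α i (Fin.last (m i)) with hB
  have hBhom : B.IsHomogeneous (nR + ∑ i, D₁ i) := hnR.mul (IsHomogeneous.prod _ _ _ fun i _ => hα i _)
  have hBP : B ∉ P := by
    intro h1
    rcases Ideal.IsPrime.mem_or_mem inferInstance h1 with h2 | h2
    · exact hRP h2
    · obtain ⟨i, -, h3⟩ := (Ideal.IsPrime.prod_mem_iff (p := P)).1 h2
      exact hαP i h3
  set T : MvPolynomial (Fin (M + 1)) ℂ := aeval γ B * γ i₀ * X j with hT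
  have hThom : T.IsHomogeneous (D * (nR + ∑ i, D₁ i) + D + 1) := ((hBhom.aeval γ hγ).mul (hγ i₀)).mul (isHomogeneous_X ℂ j)
  have hTP : T ∉ P' := by
    intro h1
    rcases Ideal.IsPrime.mem_or_mem inferInstance h1 with h2 | h2
    · rcases Ideal.IsPrime.mem_or_mem inferInstance h2 with h3 | h3
      · exact hBP ((hmaps _ B hBhom).1 h3)
      · exact hγ₀ h3
    · exact hjP h2
  -- points outside of the exceptional set
  have key : ∀ y : PN M, ¬ VanishesAt T y → y.rep j ≠ 0 ∧ ¬ VanishesAt (γ i₀) y ∧ ¬ VanishesAt R (rmap γ y) ∧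
      ∀ i, ¬ VanishesAt (α i (Fin.last (m i))) (rmap γ y) := by
    intro y hTy
    unfold VanishesAt at hTy
    rw [hT, map_mul, map_mul, mul_eq_zero, mul_eq_zero, not_or, not_or, eval_X] at hTy
    obtain ⟨⟨h1, h2⟩, h3⟩ := hTy
    have h4 : vals γ y.rep ≠ 0 := fun h0 => h2 (congrFun h0 i₀)
    have h5 : ¬ VanishesAt B (rmap γ y) := by
      rw [vanishesAt_rmap h4 hBhom]
      exact h1
    unfold VanishesAt at h5
    rw [hB, map_mul, mul_eq_zero, not_or, map_prod, Finset.prod_eq_zero_iff] at h5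
    push Not at h5
    exact ⟨h3, h2, h5.1, fun i => h5.2 i (Finset.mem_univ i)⟩
  -- the exceptional set
  refine ⟨{x | x ∈ projVar P' ∧ VanishesAt T x}, ?_⟩
  have hclosed : ZariskiClosedIn (projVar P') {x | x ∈ projVar P' ∧ VanishesAt T x} := by
    refine ⟨{T}, fun R hR => ?_, ?_⟩
    · rw [Set.mem_singleton_iff.1 hR]
      exact ⟨_, hThom⟩
    · ext x
      constructor
      · rintro ⟨h1, h2⟩
        refine ⟨h1, fun R hR => ?_⟩
        rw [Set.mem_singleton_iff.1 hR]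
        exact h2
      · rintro ⟨h1, h2⟩
        exact ⟨h1, h2 T rfl⟩
  have hgt : IsLogGeneralType (K := FunField P') (k := k + 1) fun _ => False := by
    let _ : Algebra (FunField P) (FunField P') := e.toRingHom.toAlgebra
    have _ : IsScalarTower ℂ (FunField P) (FunField P') := IsScalarTower.of_algebraMap_eq fun c => (e.commutes c).symm
    have _ : Algebra.IsAlgebraic (FunField P) (FunField P') := by
      have h1 := trdeg_add_eq ℂ (FunField P) (A := FunField P')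
      rw [← hz.cardinalMk_eq_trdeg, ← hz'.cardinalMk_eq_trdeg] at h1
      rw [← trdeg_eq_zero_iff]
      have h2 : Cardinal.mk (Fin (k + 1)) < Cardinal.aleph0 := Cardinal.mk_lt_aleph0
      have h3 : Cardinal.mk (Fin (k + 1)) + Algebra.trdeg (FunField P) (FunField P') = Cardinal.mk (Fin (k + 1)) + 0 := by rw [h1, add_zero]
      exact Cardinal.eq_of_add_eq_add_left h3 h2
    exact isLGT_of_algebraic ⟨z, hz⟩ (fun _ _ _ _ h => h) (hΞ.generalType (k + 1) (by omega) ⟨z, hz⟩)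
  have hbrody : ∀ f : ℂ → PN M, HolomorphicInto f Set.univ → (∀ z, f z ∈ projVar P') → (∃ z w, f z ≠ f w) →
      ∀ z, f z ∈ {x | x ∈ projVar P' ∧ VanishesAt T x} := by
    intro f hf hfX hfn z₀
    refine ⟨hfX z₀, ?_⟩
    by_contra hTz
    obtain ⟨h1, h2, h3, h4⟩ := key _ hTz
    obtain ⟨g, hg, hgX, hg0, hgr⟩ := exists_lift hγ hmaps isOpen_univ isPreconnected_univ hf (fun z _ => hfX z) (Set.mem_univ z₀) h2
    have hconst : ∀ z w, g z = g w := by
      by_contra hcon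
      push Not at hcon
      apply h3
      rw [← hg0]
      exact hRv _ (hΞ.brody _ hg (fun z => hgX z (Set.mem_univ z)) hcon z₀)
    obtain ⟨φ, hφ, he⟩ := hf z₀ (Set.mem_univ z₀)
    have hφj : φ z₀ j ≠ 0 := by
      obtain ⟨h7, h8⟩ := he.self_of_nhds
      obtain ⟨a, ha⟩ := Projectivization.exists_smul_eq_mk_rep ℂ (φ z₀) h7
      have h9 : (f z₀).rep = (a : ℂ) • φ z₀ := by rw [h8]; exact ha.symm
      rw [h9] at h1
      exact right_ne_zero_of_mul h1
    have hnear : ∀ᶠ z in 𝓝 z₀, f z = (fun _ => f z₀) z := by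
      refine const_near (j := j) (m := m) (α := α) (g := g) (x := (g z₀).rep) (fun i => Eventually.of_forall fun z => hgr (m i) (D₁ i) (α i) i j (hα i) (hrel i) z (Set.mem_univ z))
        hφ he hφj (g z₀).rep_nonzero (fun i => ?_) (Eventually.of_forall fun z => ?_)
      · have h5 := h4 i
        rw [← hg0] at h5
        exact h5
      · rw [(g z₀).mk_rep]
        exact hconst z z₀
    have hc : HolomorphicInto (fun _ : ℂ => f z₀) Set.univ := by
      intro z _
      exact ⟨fun _ => (f z₀).rep, analyticAt_const, Eventually.of_forall fun _ => ⟨(f z₀).rep_nonzero, (f z₀).mk_rep.symm⟩⟩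
    have h5 := pn_identity isPreconnected_univ hf hc (Set.mem_univ z₀) hnear
    obtain ⟨z, w, hzw⟩ := hfn
    exact hzw ((h5 z (Set.mem_univ z)).trans (h5 w (Set.mem_univ w)).symm)
  refine ⟨hclosed, ?_, ?_, ?_, hbrody, ?_⟩
  · -- proper
    intro heq
    obtain ⟨y, hy, hyT⟩ := Pool.Agent.H17EF.exists_point hP' ⟨j, hjP⟩ hTP hThom
    rw [← heq] at hy
    exact hyT hy.2
  · intro w _ hw
    obtain ⟨z'', hz''⟩ := hw
    obtain rfl := eq_of_basis hz' hz''
    exact hgt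
  · rintro f hf hfX ⟨z₀, hz₀, hfz₀⟩
    have hTz : ¬ VanishesAt T (f z₀) := fun h1 => hfz₀ ⟨hfX z₀ hz₀, h1⟩
    obtain ⟨h1, h2, h3, h4⟩ := key _ hTz
    obtain ⟨g, hg, hgX, hg0, hgr⟩ := exists_lift hγ hmaps punctured_open Pool.Agent.H36.BP.preconnected_puncturedDisc hf hfX hz₀ h2
    obtain ⟨ĝ, hĝ, hgg⟩ := hΞ.picard _ hg hgX ⟨z₀, hz₀, fun h5 => h3 (by
      rw [← hg0]
      exact hRv _ h5)⟩
    obtain ⟨ψ, hψ, hψg⟩ := hĝ 0 (Metric.mem_ball_self one_pos)
    refine extend_of_alg (j := j) (m := m) (α := α) (g := g) (fun i z hz => hgr (m i) (D₁ i) (α i) i j (hα i) (hrel i) z hz) hf hψ ?_ fun i hi => ?_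
    · filter_upwards [hψg, Metric.ball_mem_nhds (0 : ℂ) one_pos] with z h5 h6 h7
      obtain ⟨h8, h9⟩ := h5
      exact ⟨h8, by rw [← h9, hgg z ⟨h6, h7⟩]⟩
    · apply h4 i
      have h5 := Pool.Agent.H36.BP.vanish_identity (convex_ball (0 : ℂ) 1).isPreconnected hĝ (S := {α i (Fin.last (m i))}) (by
        intro Q hQ
        rw [Set.mem_singleton_iff] at hQ
        subst hQ
        exact ⟨_, hα i _⟩) (Metric.mem_ball_self one_pos) (by
        filter_upwards [hi, hψg] with z h5 h6 Q hQ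
        rw [Set.mem_singleton_iff] at hQ
        subst hQ
        obtain ⟨h7, h8⟩ := h6
        rw [h8, vanishesAt_mk_iff (hα i _)]
        exact h5) z₀ hz₀.1 _ rfl
      rw [hgg z₀ hz₀, hg0] at h5
      exact h5
  · intro Q _ hQ hPQ hsub hzw
    exact Pool.Agent.AD.P.strongly_one hclosed hbrody Q hQ hPQ hsub hzw

end Pool.Agent.H23.GU

end
end

section

/-!
# GU Down: the properties `GGLC` descend along finite étale coverings of projective varieties; varieties which virtually dominate `X`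

`gglc_down`: let `X' → X` be a finite étale covering of projective varieties, `X` of general type.  If `X'` has the properties `GGLC` (with an exceptional set),
then so has `X`.
`gglc_virtual`: let `Y` be a projective variety of general type with a finite étale covering `Y' → Y` such that `Y'` has the dimension of `X` and a dominant rational map
to `X`.  If `X` has the properties `GGLC` then so has `Y`.
-/

set_option autoImplicit false

open Topology Filter MvPolynomial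

noncomputable section

namespace Pool.Agent.H23.GU

open Pool.Agent.H17 (PN VanishesAt HolomorphicInto puncturedDisc vanishesAt_mk_iff ZariskiClosedIn)
open Pool.Agent.H17LG.Variety (FunField IsLogGeneralType)
open Pool.Agent.H62.FC (Homog)
open Pool.Agent.H62.SA (locVar)
open Pool.Agent.H62.Qe (IsReg IsEtaleOver lift_entire lift_punctured extend_of_lift exists_cover dominant)
open Pool.Agent.H17EF (projVar)
open Pool.Agent.H7.Bir (vals rmap)
open Pool.Agent.H22.TB (GGLC eq_of_basis)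

variable {N M L : ℕ}

/-- no boundary -/
def one (N : ℕ) : Fin 1 → MvPolynomial (Fin (N + 1)) ℂ := fun _ => 1

theorem mem_locVar_one {P : Ideal (MvPolynomial (Fin (N + 1)) ℂ)} {x : PN N} : x ∈ locVar P (one N) ↔ x ∈ projVar P := by
  constructor
  · intro h
    exact h.1
  · intro h
    refine ⟨h, 0, fun h1 => ?_⟩
    unfold VanishesAt one at h1
    rw [map_one] at h1
    exact one_ne_zero h1

variable {P : Ideal (MvPolynomial (Fin (N + 1)) ℂ)} {P' : Ideal (MvPolynomial (Fin (M + 1)) ℂ)} {p : PN M → PN N}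

theorem IsEtaleCovering.reg (h : IsEtaleCovering P P' p) : IsReg P P' p := by
  refine ⟨h.maps, h.surj, fun y hy => ?_⟩
  obtain ⟨D, γ, h1, ⟨i, h2⟩, h3⟩ := h.regular y hy
  refine ⟨D, γ, h1, fun h0 => h2 (congrFun h0 i), fun y' hy' hne => ?_⟩
  rw [h3 y' hy' hne]
  unfold Pool.Agent.H7.Bir.rmap
  rw [dif_pos hne]
  rfl

theorem IsEtaleCovering.over (h : IsEtaleCovering P P' p) : IsEtaleOver P P' (one N) (one M) p := by
  refine ⟨h.reg, fun y hy => ?_, fun y hy hyU => ?_, fun y hy hyU => ?_⟩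
  · rw [mem_locVar_one, mem_locVar_one]
    exact ⟨fun _ => hy, fun _ => h.maps y hy⟩
  · rw [mem_locVar_one] at hyU
    exact h.locInj y hy hyU
  · rw [mem_locVar_one] at hyU
    exact h.locSec y hy hyU

/-- The image of a hypersurface lies in a hypersurface. -/
theorem exists_image_form [P.IsPrime] [P'.IsPrime] (hP : Homog P) (hP' : Homog P') (hX : ∃ i, (X i : MvPolynomial (Fin (N + 1)) ℂ) ∉ P) {k : ℕ}
    (hz : ∃ z : Fin (k + 1) → FunField P, IsTranscendenceBasis ℂ z)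
    (hz' : ∃ z' : Fin (k + 1) → FunField P', IsTranscendenceBasis ℂ z') (hp : IsReg P P' p) {n' : ℕ}
    {R' : MvPolynomial (Fin (M + 1)) ℂ} (hR' : R'.IsHomogeneous n') (hRP' : R' ∉ P') :
    ∃ (T : MvPolynomial (Fin (N + 1)) ℂ) (n : ℕ), T.IsHomogeneous n ∧ T ∉ P ∧ ∀ y ∈ projVar P', VanishesAt R' y → VanishesAt T (p y) := by
  classical
  obtain ⟨n, D, γ, hγ, hγne, hrep, hcov⟩ := exists_cover hP' hp
  choose R m hR hRP hRev using fun k => Pool.Agent.H19OL.exists_norm_form hz hz' (hγ k)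
    (dominant hP hP' hX hp (hγ k) (hrep k) (hγne k)) hR' hRP'
  refine ⟨∏ k, R k, ∑ k, m k, MvPolynomial.IsHomogeneous.prod _ _ _ fun k _ => hR k, ?_, ?_⟩
  · intro h
    obtain ⟨k, -, hk⟩ := ((inferInstance : P.IsPrime).prod_mem_iff).1 h
    exact hRP k hk
  · intro y hy hyR
    obtain ⟨k, hk⟩ := hcov y hy
    have h1 : VanishesAt (R k) (p y) := by
      rw [hrep k y hy hk]
      unfold Pool.Agent.H7.Bir.rmap
      rw [dif_pos hk, vanishesAt_mk_iff (hR k)]
      refine hRev k y.rep y.rep_nonzero (fun Q hQ => ?_) hyR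
      rw [← MvPolynomial.sum_homogeneousComponent Q, map_sum]
      exact Finset.sum_eq_zero fun i _ => hy _ (hP' Q hQ i) i (homogeneousComponent_isHomogeneous i Q)
    unfold VanishesAt at h1 ⊢
    rw [map_prod]
    exact Finset.prod_eq_zero (Finset.mem_univ k) h1

/-- **Finite étale coverings.** -/
theorem gglc_down [P.IsPrime] [P'.IsPrime] (hP : Homog P) (hP' : Homog P') {k : ℕ} (hz : ∃ z : Fin (k + 1) → FunField P, IsTranscendenceBasis ℂ z)
    (hz' : ∃ z' : Fin (k + 1) → FunField P', IsTranscendenceBasis ℂ z') (hp : IsEtaleCovering P P' p)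
    (hgt : IsLogGeneralType (K := FunField P) (k := k + 1) fun _ => False) {Ξ' : Set (PN M)} (h : GGLC P' Ξ') : ∃ Ξ : Set (PN N), GGLC P Ξ := by
  have hpo := hp.over
  -- a form which vanishes on the exceptional set
  obtain ⟨S, hS, hΞS⟩ := h.closed
  obtain ⟨y₀, hy₀, R', hR'S, hR'y₀⟩ : ∃ y ∈ projVar P', ∃ R ∈ S, ¬ VanishesAt R y := by
    by_contra hcon
    push Not at hcon
    apply h.proper
    rw [hΞS]
    ext y
    exact ⟨fun hy => hy.1, fun hy => ⟨hy, fun R hR => hcon y hy R hR⟩⟩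
  obtain ⟨n', hn'⟩ := hS R' hR'S
  have hR'P : R' ∉ P' := fun h1 => hR'y₀ (hy₀ R' h1 n' hn')
  have hR'v : ∀ y ∈ Ξ', VanishesAt R' y := by
    intro y hy
    rw [hΞS] at hy
    exact hy.2 R' hR'S
  have hcoord := Pool.Agent.H17EF.exists_coord (hp.maps y₀ hy₀)
  obtain ⟨T, n, hT, hTP, hTv⟩ := exists_image_form hP hP' hcoord hz hz' hp.reg hn' hR'P
  -- the exceptional set
  refine ⟨{x | x ∈ projVar P ∧ VanishesAt T x}, ?_⟩
  have hclosed : ZariskiClosedIn (projVar P) {x | x ∈ projVar P ∧ VanishesAt T x} := by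
    refine ⟨{T}, fun R hR => ?_, ?_⟩
    · rw [Set.mem_singleton_iff.1 hR]
      exact ⟨n, hT⟩
    · ext x
      constructor
      · rintro ⟨h1, h2⟩
        refine ⟨h1, fun R hR => ?_⟩
        rw [Set.mem_singleton_iff.1 hR]
        exact h2
      · rintro ⟨h1, h2⟩
        exact ⟨h1, h2 T rfl⟩
  have hbrody : ∀ f : ℂ → PN N, HolomorphicInto f Set.univ → (∀ z, f z ∈ projVar P) → (∃ z w, f z ≠ f w) →
      ∀ z, f z ∈ {x | x ∈ projVar P ∧ VanishesAt T x} := by
    intro f hf hfX hfn z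
    obtain ⟨g, hg, hgU, hgf⟩ := lift_entire hP' hpo hf fun z => mem_locVar_one.2 (hfX z)
    have hgn : ∃ z w, g z ≠ g w := by
      obtain ⟨a, b, hab⟩ := hfn
      refine ⟨a, b, fun h1 => hab ?_⟩
      rw [← hgf a, ← hgf b, h1]
    refine ⟨hfX z, ?_⟩
    rw [← hgf z]
    exact hTv _ (mem_locVar_one.1 (hgU z)) (hR'v _ (h.brody g hg (fun z => mem_locVar_one.1 (hgU z)) hgn z))
  refine ⟨hclosed, ?_, ?_, ?_, hbrody, ?_⟩
  · intro heq
    obtain ⟨y, hy, hyT⟩ := Pool.Agent.H17EF.exists_point hP hcoord hTP hT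
    rw [← heq] at hy
    exact hyT hy.2
  · rintro w _ ⟨z'', hz''⟩
    obtain ⟨z, hz⟩ := hz
    obtain rfl := eq_of_basis hz hz''
    exact hgt
  · intro f hf hfX hfΞ
    obtain ⟨k, g, hk, hg, hgU, hgf⟩ := lift_punctured hP' hpo hf fun z hz => mem_locVar_one.2 (hfX z hz)
    have hgΞ : ∃ z ∈ puncturedDisc, g z ∉ Ξ' := by
      by_contra hcon
      push Not at hcon
      obtain ⟨w, hw, hwΞ⟩ := hfΞ
      apply hwΞ
      refine ⟨hfX w hw, ?_⟩
      obtain ⟨z, hz⟩ := IsAlgClosed.exists_pow_nat_eq w (by omega : 0 < k)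
      have hzD : z ∈ puncturedDisc := by
        refine ⟨?_, ?_⟩
        · rw [mem_ball_zero_iff]
          by_contra h1
          push Not at h1
          have h2 : 1 ≤ ‖z‖ ^ k := one_le_pow₀ h1
          rw [← norm_pow, hz] at h2
          have h3 : ‖w‖ < 1 := by
            rw [← mem_ball_zero_iff]
            exact hw.1
          linarith
        · rintro rfl
          apply hw.2
          rw [Set.mem_singleton_iff, ← hz, zero_pow (by omega)]
      rw [← hz, ← hgf z hzD]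
      exact hTv _ (mem_locVar_one.1 (hgU z hzD)) (hR'v _ (hcon z hzD))
    obtain ⟨ĝ, hĝ, hgg⟩ := h.picard g hg (fun z hz => mem_locVar_one.1 (hgU z hz)) hgΞ
    exact extend_of_lift hp.reg hf hk (fun z hz => mem_locVar_one.1 (hgU z hz)) hgf hĝ hgg
  · intro Q _ hQ hPQ hsub hzw
    exact Pool.Agent.AD.P.strongly_one hclosed hbrody Q hQ hPQ hsub hzw

/-- **Varieties which virtually dominate `X`.** -/
theorem gglc_virtual {P : Ideal (MvPolynomial (Fin (N + 1)) ℂ)} [P.IsPrime] {k : ℕ} (hz : ∃ z : Fin (k + 1) → FunField P, IsTranscendenceBasis ℂ z)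
    {Ξ : Set (PN N)} (hΞ : GGLC P Ξ)
    {P' : Ideal (MvPolynomial (Fin (M + 1)) ℂ)} [P'.IsPrime] (hP' : Homog P') (hz' : ∃ z : Fin (k + 1) → FunField P', IsTranscendenceBasis ℂ z)
    (e : FunField P →ₐ[ℂ] FunField P') {Q : Ideal (MvPolynomial (Fin (L + 1)) ℂ)} [Q.IsPrime] (hQ : Homog Q)
    (hw : ∃ z : Fin (k + 1) → FunField Q, IsTranscendenceBasis ℂ z) (hgt : IsLogGeneralType (K := FunField Q) (k := k + 1) fun _ => False)
    {p : PN M → PN L} (hp : IsEtaleCovering Q P' p) : ∃ Ξ' : Set (PN L), GGLC Q Ξ' := by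
  obtain ⟨z, hz⟩ := hz
  obtain ⟨z', hz'⟩ := hz'
  obtain ⟨Ξ₁, h₁⟩ := gglc_up hP' hz hz' e hΞ
  exact gglc_down hQ hP' hw ⟨z', hz'⟩ hp hgt h₁

end Pool.Agent.H23.GU

end
end

section

/-!
# G4 V Down: quasi-projective varieties which virtually dominate `X`

`GGLCOpen.of_gglc`: open subsets of projective varieties with the properties `GGLC`.  `GGLCOpen.down`: the properties descend along finite étale coverings `U' → U` of quasi-projective varieties.
-/

set_option autoImplicit false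

open Topology Filter MvPolynomial

noncomputable section

namespace Pool.Agent.G4F

open Pool.Agent.H17 (PN VanishesAt HolomorphicInto puncturedDisc ZariskiClosedIn)
open Pool.Agent.H17LG.Variety (FunField IsLogGeneralType)
open Pool.Agent.H62.FC (Homog)
open Pool.Agent.H62.SA (locVar OnBd)
open Pool.Agent.H62.Qe (IsReg IsEtaleOver lift_entire lift_punctured extend_of_lift)
open Pool.Agent.H17EF (projVar)
open Pool.Agent.H22.TB (GGLC eq_of_basis)
open Pool.Agent.H7.Bir (mem_of_open logGT_of_gt)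

variable {N M L s s' : ℕ}

/-- a point at which a form is not zero -/
theorem locVar_nonempty {P : Ideal (MvPolynomial (Fin (N + 1)) ℂ)} [P.IsPrime] (hP : Homog P) {G : Fin s → MvPolynomial (Fin (N + 1)) ℂ}
    (hG : ∀ m, ∃ n, (G m).IsHomogeneous n) (hne : ∃ m, G m ∉ P) (hX : ∃ i, (X i : MvPolynomial (Fin (N + 1)) ℂ) ∉ P) : (locVar P G).Nonempty := by
  obtain ⟨m, hm⟩ := hne
  obtain ⟨n, hn⟩ := hG m
  obtain ⟨x, hx, hxG⟩ := Pool.Agent.H17EF.exists_point hP hX hm hn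
  exact ⟨x, hx, m, hxG⟩

/-- closed subvarieties of dimension one which are not contained in the exceptional set are of log general type -/
theorem strongly_open {P : Ideal (MvPolynomial (Fin (N + 1)) ℂ)} {G : Fin s → MvPolynomial (Fin (N + 1)) ℂ} (hG : ∀ m, ∃ n, (G m).IsHomogeneous n)
    {Ξ : Set (PN N)} (hΞ : ZariskiClosedIn (locVar P G) Ξ)
    (hbr : ∀ f : ℂ → PN N, HolomorphicInto f Set.univ → (∀ z, f z ∈ locVar P G) → (∃ z w, f z ≠ f w) → ∀ z, f z ∈ Ξ)
    (Q : Ideal (MvPolynomial (Fin (N + 1)) ℂ)) [Q.IsPrime] (hQ : Homog Q) (hPQ : P ≤ Q) (hQΞ : ¬ locVar Q G ⊆ Ξ)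
    (hz' : ∃ z : Fin 1 → FunField Q, IsTranscendenceBasis ℂ z) : IsLogGeneralType (OnBd Q G (k := 1)) := by
  have hsub : locVar Q G ⊆ locVar P G := fun x hx => ⟨fun R hR n hn => hx.1 R (hPQ hR) n hn, hx.2⟩
  have hX : ∃ i, (X i : MvPolynomial (Fin (N + 1)) ℂ) ∉ Q := by
    obtain ⟨x, hx, _⟩ := Set.not_subset.1 hQΞ
    exact Pool.Agent.H17EF.exists_coord (x := x) hx.1
  by_contra hl
  obtain ⟨f, hf, hfQ, hne⟩ := Pool.Agent.H13.CV.exists_entire_of_not_lgtL Q hX hz' hG hl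
  have hΞf : ∀ z, f z ∈ Ξ := hbr f hf (fun z => hsub (hfQ z)) hne
  obtain ⟨S, hS, hSΞ⟩ := hΞ
  apply hQΞ
  intro x hx
  rw [hSΞ]
  refine ⟨hsub hx, fun R hR => ?_⟩
  obtain ⟨n, hn⟩ := hS R hR
  have hRf : ∀ z, VanishesAt R (f z) := by
    intro z
    have h3 := hΞf z
    rw [hSΞ] at h3
    exact h3.2 R hR
  exact hx.1 R (Pool.Agent.H13.CV.form_of_curve0 Q hQ hz' hf (fun z => (hfQ z).1) hne hn hRf) n hn

/-- **The properties hold for all nonempty Zariski open subsets.** -/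
theorem GGLCOpen.of_gglc {P : Ideal (MvPolynomial (Fin (N + 1)) ℂ)} [P.IsPrime] (hP : Homog P) {G : Fin s → MvPolynomial (Fin (N + 1)) ℂ}
    (hG : ∀ m, ∃ n, (G m).IsHomogeneous n) (hne : (locVar P G).Nonempty) {Ξ : Set (PN N)} (h : GGLC P Ξ) : GGLCOpen P G (Ξ ∩ locVar P G) := by
  obtain ⟨S, hS, hΞ⟩ := h.closed
  have hcl : ZariskiClosedIn (locVar P G) (Ξ ∩ locVar P G) := by
    refine ⟨S, hS, ?_⟩
    ext x
    rw [hΞ]
    exact ⟨fun hx => ⟨hx.2, hx.1.2⟩, fun hx => ⟨⟨hx.1.1, hx.2⟩, hx.1⟩⟩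
  have hbr : ∀ f : ℂ → PN N, HolomorphicInto f Set.univ → (∀ z, f z ∈ locVar P G) → (∃ z w, f z ≠ f w) → ∀ z, f z ∈ Ξ ∩ locVar P G :=
    fun f hf hfU hfn z => ⟨h.brody f hf (fun z => (hfU z).1) hfn z, hfU z⟩
  refine ⟨hcl, ?_, ?_, ?_, hbr, ?_⟩
  · intro heq
    apply h.proper
    refine Set.Subset.antisymm ?_ ?_
    · rw [hΞ]
      exact fun x hx => hx.1
    · intro x hx
      rw [hΞ]
      refine ⟨hx, fun R hR => ?_⟩
      obtain ⟨n, hn⟩ := hS R hR
      refine hx R (mem_of_open hP hG hne hn fun y hy => ?_) n hn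
      have h1 : y ∈ Ξ := by
        rw [← heq] at hy
        exact hy.1
      rw [hΞ] at h1
      exact h1.2 R hR
  · exact fun w hw hz => logGT_of_gt (h.generalType w hw hz) _
  · intro f hf hfU hfΞ
    refine h.picard f hf (fun z hz => (hfU z hz).1) ?_
    obtain ⟨z, hz, hzΞ⟩ := hfΞ
    exact ⟨z, hz, fun h1 => hzΞ ⟨h1, hfU z hz⟩⟩
  · exact fun Q _ hQ hPQ hQΞ hz' => strongly_open hG hcl hbr Q hQ hPQ hQΞ hz'

/-- **Finite étale coverings.** -/
theorem GGLCOpen.down {P : Ideal (MvPolynomial (Fin (N + 1)) ℂ)} [P.IsPrime] {P' : Ideal (MvPolynomial (Fin (M + 1)) ℂ)} [P'.IsPrime] (hP : Homog P) (hP' : Homog P')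
    {G : Fin s → MvPolynomial (Fin (N + 1)) ℂ} {G' : Fin s' → MvPolynomial (Fin (M + 1)) ℂ} (hG : ∀ m, ∃ n, (G m).IsHomogeneous n)
    {k : ℕ} (hz : ∃ z : Fin (k + 1) → FunField P, IsTranscendenceBasis ℂ z) (hz' : ∃ z' : Fin (k + 1) → FunField P', IsTranscendenceBasis ℂ z')
    {p : PN M → PN N} (hp : IsEtaleOver P P' G G' p) (hne : (locVar P G).Nonempty)
    (hgt : IsLogGeneralType (OnBd P G (k := k + 1))) {Ξ' : Set (PN M)} (h : GGLCOpen P' G' Ξ') : ∃ Ξ : Set (PN N), GGLCOpen P G Ξ := by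
  -- a form which vanishes on the exceptional set
  obtain ⟨S, hS, hΞS⟩ := h.closed
  obtain ⟨y₀, hy₀, R', hR'S, hR'y₀⟩ : ∃ y ∈ locVar P' G', ∃ R ∈ S, ¬ VanishesAt R y := by
    by_contra hcon
    push Not at hcon
    apply h.proper
    rw [hΞS]
    ext y
    exact ⟨fun hy => hy.1, fun hy => ⟨hy, fun R hR => hcon y hy R hR⟩⟩
  obtain ⟨n', hn'⟩ := hS R' hR'S
  have hR'P : R' ∉ P' := fun h1 => hR'y₀ (hy₀.1 R' h1 n' hn')
  have hR'v : ∀ y ∈ Ξ', VanishesAt R' y := by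
    intro y hy
    rw [hΞS] at hy
    exact hy.2 R' hR'S
  have hcoord := Pool.Agent.H17EF.exists_coord (hp.reg.maps y₀ hy₀.1)
  obtain ⟨T, n, hT, hTP, hTv⟩ := Pool.Agent.H23.GU.exists_image_form hP hP' hcoord hz hz' hp.reg hn' hR'P
  -- the exceptional set
  refine ⟨{x | x ∈ locVar P G ∧ VanishesAt T x}, ?_⟩
  have hclosed : ZariskiClosedIn (locVar P G) {x | x ∈ locVar P G ∧ VanishesAt T x} := by
    refine ⟨{T}, fun R hR => ?_, ?_⟩
    · rw [Set.mem_singleton_iff.1 hR]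
      exact ⟨n, hT⟩
    · ext x
      constructor
      · rintro ⟨h1, h2⟩
        refine ⟨h1, fun R hR => ?_⟩
        rw [Set.mem_singleton_iff.1 hR]
        exact h2
      · rintro ⟨h1, h2⟩
        exact ⟨h1, h2 T rfl⟩
  have hbrody : ∀ f : ℂ → PN N, HolomorphicInto f Set.univ → (∀ z, f z ∈ locVar P G) → (∃ z w, f z ≠ f w) →
      ∀ z, f z ∈ {x | x ∈ locVar P G ∧ VanishesAt T x} := by
    intro f hf hfX hfn z
    obtain ⟨g, hg, hgU, hgf⟩ := lift_entire hP' hp hf hfX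
    have hgn : ∃ z w, g z ≠ g w := by
      obtain ⟨a, b, hab⟩ := hfn
      refine ⟨a, b, fun h1 => hab ?_⟩
      rw [← hgf a, ← hgf b, h1]
    refine ⟨hfX z, ?_⟩
    rw [← hgf z]
    exact hTv _ (hgU z).1 (hR'v _ (h.brody g hg hgU hgn z))
  refine ⟨hclosed, ?_, ?_, ?_, hbrody, ?_⟩
  · intro heq
    apply hTP
    refine mem_of_open hP hG hne hT fun x hx => ?_
    rw [← heq] at hx
    exact hx.2
  · rintro w _ ⟨z'', hz''⟩
    obtain ⟨z, hz⟩ := hz
    obtain rfl := eq_of_basis hz hz''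
    exact hgt
  · intro f hf hfX hfΞ
    obtain ⟨k, g, hk, hg, hgU, hgf⟩ := lift_punctured hP' hp hf hfX
    have hgΞ : ∃ z ∈ puncturedDisc, g z ∉ Ξ' := by
      by_contra hcon
      push Not at hcon
      obtain ⟨w, hw, hwΞ⟩ := hfΞ
      apply hwΞ
      refine ⟨hfX w hw, ?_⟩
      obtain ⟨z, hz⟩ := IsAlgClosed.exists_pow_nat_eq w (by omega : 0 < k)
      have hzD : z ∈ puncturedDisc := by
        refine ⟨?_, ?_⟩
        · rw [mem_ball_zero_iff]
          by_contra h1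
          push Not at h1
          have h2 : 1 ≤ ‖z‖ ^ k := one_le_pow₀ h1
          rw [← norm_pow, hz] at h2
          have h3 : ‖w‖ < 1 := by
            rw [← mem_ball_zero_iff]
            exact hw.1
          linarith
        · rintro rfl
          apply hw.2
          rw [Set.mem_singleton_iff, ← hz, zero_pow (by omega)]
      rw [← hz, ← hgf z hzD]
      exact hTv _ (hgU z hzD).1 (hR'v _ (hcon z hzD))
    obtain ⟨ĝ, hĝ, hgg⟩ := h.picard g hg hgU hgΞ
    exact extend_of_lift hp.reg hf hk (fun z hz => (hgU z hz).1) hgf hĝ hgg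
  · exact fun Q _ hQ hPQ hsub hzw => strongly_open hG hclosed hbrody Q hQ hPQ hsub hzw

/-- **Quasi-projective varieties which virtually dominate `X`.** -/
theorem gglo_virtual {P : Ideal (MvPolynomial (Fin (N + 1)) ℂ)} [P.IsPrime] {k : ℕ} (hz : ∃ z : Fin (k + 1) → FunField P, IsTranscendenceBasis ℂ z)
    {Ξ : Set (PN N)} (hΞ : GGLC P Ξ) {P' : Ideal (MvPolynomial (Fin (M + 1)) ℂ)} [P'.IsPrime] (hP' : Homog P')
    (hz' : ∃ z : Fin (k + 1) → FunField P', IsTranscendenceBasis ℂ z) (e : FunField P →ₐ[ℂ] FunField P') {R : Ideal (MvPolynomial (Fin (L + 1)) ℂ)} [R.IsPrime] (hR : Homog R)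
    (hw : ∃ z : Fin (k + 1) → FunField R, IsTranscendenceBasis ℂ z) {G : Fin s → MvPolynomial (Fin (L + 1)) ℂ} {G' : Fin s' → MvPolynomial (Fin (M + 1)) ℂ}
    (hG : ∀ m, ∃ n, (G m).IsHomogeneous n) (hG' : ∀ m, ∃ n, (G' m).IsHomogeneous n) (hne : ∃ m, G m ∉ R)
    (hgt : IsLogGeneralType (OnBd R G (k := k + 1))) {q : PN M → PN L} (hq : IsEtaleOver R P' G G' q) : ∃ Ξ' : Set (PN L), GGLCOpen R G Ξ' := by
  obtain ⟨z, hz⟩ := hz
  obtain ⟨z', hz'⟩ := hz'
  obtain ⟨Ξ₁, h₁⟩ := Pool.Agent.H23.GU.gglc_up hP' hz hz' e hΞ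
  have hX : ∃ i, (X i : MvPolynomial (Fin (L + 1)) ℂ) ∉ R := Pool.Agent.H62.FC.exists_X_notMem (r := k + 1) (by omega) hw
  have hU := locVar_nonempty hR hG hne hX
  have hU' : (locVar P' G').Nonempty := by
    obtain ⟨x, hx⟩ := hU
    obtain ⟨y, hy, hyx⟩ := hq.reg.surj x hx.1
    exact ⟨y, (hq.inv y hy).1 (by rw [hyx]; exact hx)⟩
  exact (GGLCOpen.of_gglc hP' hG' hU' h₁).down hR hP' hG hw ⟨z', hz'⟩ hq hU hgt

end Pool.Agent.G4F

end
end
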