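import Pool.Agent.H94.G5T.M24
import Pool.Agent.H94.G5T.M62
import Pool.Agent.H94.G5T.M88

/-! The parts of this file: G3.A.Rstr, G3.PS.Du, G4.A.BadC, G4.A.FrmW. -/

section

/-!
# G3 A Rstr: straight charts at the points of the curves over the points which are not bad

Off `D` the map `u` is a submersion (`Geo.sub`).  At a point `v` of `D` which is not in `B`, at which `a` is not tangent to `D`: `u = κ (x ^ m y ^ n, s)` (`Geo.nc`); along the curve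
`κ (nm m n (q w)) = y + w a`, so `x ^ m y ^ n` has a nonzero derivative there and `m + n = 1`: `u` is a submersion.
-/

set_option autoImplicit false

open Topology Filter Metric

namespace Pool.Agent.G3.A

open Pool.Agent.H36.BP (EN fs wd)
open Pool.Agent.H14.PP (IsCone CurveAt Tan)
open Pool.Agent.H62.EF (MN pr)
open Pool.Agent.AD (Vd Chart Charts IsGerm)
open Pool.Agent.TG
open Pool.Agent.G3.C (Gc)

variable {N k d : ℕ} {X : Set (EN N)} {Λ : AddSubgroup (Vd (k + 1))} {u : EN N → Vd (k + 1)} {D B : Set (Vd (k + 1))} {a : Vd (k + 1)}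

/-- change of the coordinates of a germ -/
private theorem rstr_germ {σ : Vd d → EN N} {τ : EN N → Vd d} (h : IsGerm X σ τ) {P R : Vd d → Vd d} (hP : AnalyticAt ℂ P 0) (hP0 : P 0 = 0)
    (hR : AnalyticAt ℂ R 0) (hRP : ∀ᶠ p in 𝓝 (0 : Vd d), R (P p) = p) (hPR : ∀ᶠ q in 𝓝 (0 : Vd d), P (R q) = q) :
    IsGerm X (fun p => σ (P p)) (fun x => R (τ x)) := by
  have hτ0 : τ (σ 0) = 0 := h.left.self_of_nhds
  have hPt : Tendsto P (𝓝 0) (𝓝 0) := by
    have := hP.continuousAt.tendsto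
    rwa [hP0] at this
  have hτt : Tendsto τ (𝓝 (σ 0)) (𝓝 0) := by
    have := h.τ_an.continuousAt.tendsto
    rwa [hτ0] at this
  refine ⟨?_, ?_, ?_, ?_, ?_, ?_⟩
  · have h1 : AnalyticAt ℂ σ (P 0) := by
      rw [hP0]
      exact h.σ_an
    exact h1.fun_comp hP
  · exact hPt.eventually h.σ_mem
  · show AnalyticAt ℂ (fun x => R (τ x)) (σ (P 0))
    rw [hP0]
    have h1 : AnalyticAt ℂ R (τ (σ 0)) := by
      rw [hτ0]
      exact hR
    exact h1.fun_comp h.τ_an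
  · filter_upwards [hPt.eventually h.left, hRP] with p h1 h2
    show R (τ (σ (P p))) = p
    rw [h1, h2]
  · show ∀ᶠ y in 𝓝 (σ (P 0)), y ∈ X → ∃ c : ℂ, c ≠ 0 ∧ y = c • σ (P (R (τ y)))
    rw [hP0]
    filter_upwards [h.right, hτt.eventually hPR] with y h1 h2 hy
    rw [h2]
    exact h1 hy
  · show ∀ᶠ z in 𝓝 (σ (P 0), (1 : ℂ)), R (τ (z.2 • z.1)) = R (τ z.1)
    rw [hP0]
    filter_upwards [h.inv] with z hz
    rw [hz]

private theorem rstr_nm0 {m n : ℕ} (h : 0 < m + n) : nm m n (0 : Vd (k + 2)) = 0 := by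
  funext i
  refine Fin.cases ?_ (fun i => rfl) i
  show (0 : ℂ) ^ m * (0 : ℂ) ^ n = 0
  rw [← pow_add, zero_pow h.ne']

private theorem rstr_nm_an (m n : ℕ) : AnalyticAt ℂ (nm (k := k) m n) 0 := by
  refine analyticAt_pi_iff.2 fun i => ?_
  refine Fin.cases ?_ (fun i => ?_) i
  · exact (((ContinuousLinearMap.proj (R := ℂ) (φ := fun _ : Fin (k + 2) => ℂ) 0).analyticAt _).pow m).mul
      (((ContinuousLinearMap.proj (R := ℂ) (φ := fun _ : Fin (k + 2) => ℂ) 1).analyticAt _).pow n)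
  · exact (ContinuousLinearMap.proj (R := ℂ) (φ := fun _ : Fin (k + 2) => ℂ) i.succ.succ).analyticAt _

/-- the splitting of the coordinates for `m + n = 1` -/
private theorem rstr_split {m n : ℕ} (h : m + n = 1) :
    ∃ (Q : ℂ → Vd (k + 1) → Vd (k + 2)) (s : Fin (k + 2)), (∀ t w, nm m n (Q t w) = w) ∧ (∀ t w, Q t w s = t) ∧
      (∀ q, Q (q s) (nm m n q) = q) ∧ ∀ i, (∀ t w, Q t w i = t) ∨ ∃ j, ∀ t w, Q t w i = w j := by
  have h1 : (m = 1 ∧ n = 0) ∨ (m = 0 ∧ n = 1) := by omega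
  rcases h1 with ⟨rfl, rfl⟩ | ⟨rfl, rfl⟩
  · refine ⟨fun t w => Fin.cons (α := fun _ => ℂ) (w 0) (Fin.cons (α := fun _ => ℂ) t fun i : Fin k => w i.succ), 1, ?_, fun t w => rfl, ?_, ?_⟩
    · intro t w
      funext i
      refine Fin.cases ?_ (fun i => rfl) i
      show w 0 ^ 1 * t ^ 0 = w 0
      rw [pow_one, pow_zero, mul_one]
    · intro q
      funext i
      refine Fin.cases ?_ (fun i => ?_) i
      · show q 0 ^ 1 * q 1 ^ 0 = q 0
        rw [pow_one, pow_zero, mul_one]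
      · refine Fin.cases rfl (fun i => rfl) i
    · intro i
      refine Fin.cases ?_ (fun i => ?_) i
      · exact Or.inr ⟨0, fun t w => rfl⟩
      · refine Fin.cases ?_ (fun i => ?_) i
        · exact Or.inl fun t w => rfl
        · exact Or.inr ⟨i.succ, fun t w => rfl⟩
  · refine ⟨fun t w => Fin.cons (α := fun _ => ℂ) t w, 0, ?_, fun t w => rfl, ?_, ?_⟩
    · intro t w
      funext i
      refine Fin.cases ?_ (fun i => rfl) i
      show t ^ 0 * w 0 ^ 1 = w 0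
      rw [pow_one, pow_zero, one_mul]
    · intro q
      funext i
      refine Fin.cases rfl (fun i => ?_) i
      refine Fin.cases ?_ (fun i => rfl) i
      show q 0 ^ 0 * q 1 ^ 1 = q 1
      rw [pow_one, pow_zero, one_mul]
    · intro i
      refine Fin.cases ?_ (fun i => ?_) i
      · exact Or.inl fun t w => rfl
      · exact Or.inr ⟨i, fun t w => rfl⟩

/-- the case `m + n = 1` -/
private theorem rstr_one {κ : Vd (k + 1) → Vd (k + 1)} {v : Vd (k + 1)} (hκ : IsCoord D κ v) {x : EN N} {σ : Vd (k + 2) → EN N} {τ : EN N → Vd (k + 2)}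
    {m n : ℕ} (hG : IsGerm X σ τ) (hσ0 : σ 0 = x) (hmn : m + n = 1) (hnm : ∀ᶠ p in 𝓝 (0 : Vd (k + 2)), u (σ p) - κ (nm m n p) ∈ Λ) :
    IsStr X Λ u x v := by
  obtain ⟨Q, s, hQ1, hQ2, hQ3, hQ4⟩ := rstr_split (k := k) hmn
  obtain ⟨ψ, hψ, hψκ, hκψ, hψ0⟩ := Pool.Agent.H62.BU.local_inverse hκ.an fun w hw => hκ.inj (by rw [hw, map_zero])
  rw [hκ.zero] at hψ hκψ hψ0
  have hm0 : nm m n (0 : Vd (k + 2)) = 0 := rstr_nm0 (by omega)
  have htl : AnalyticAt ℂ (fun p : Vd (k + 2) => v + tl p) 0 := by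
    refine analyticAt_const.add (analyticAt_pi_iff.2 fun i => ?_)
    exact (ContinuousLinearMap.proj (R := ℂ) (φ := fun _ : Fin (k + 2) => ℂ) i.succ).analyticAt _
  have htl0 : v + tl (0 : Vd (k + 2)) = v := by
    have h1 : tl (0 : Vd (k + 2)) = 0 := rfl
    rw [h1, add_zero]
  have hψt : AnalyticAt ℂ (fun p : Vd (k + 2) => ψ (v + tl p)) 0 := by
    have h1 : AnalyticAt ℂ ψ (v + tl (0 : Vd (k + 2))) := by
      rw [htl0]
      exact hψ
    exact AnalyticAt.fun_comp (f := fun p : Vd (k + 2) => v + tl p) h1 htl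
  have htt : Tendsto (fun p : Vd (k + 2) => v + tl p) (𝓝 0) (𝓝 v) := by
    have h1 := htl.continuousAt.tendsto
    rwa [htl0] at h1
  set P : Vd (k + 2) → Vd (k + 2) := fun p => Q (p 0) (ψ (v + tl p)) with hPd
  set R : Vd (k + 2) → Vd (k + 2) := fun q => Fin.cons (α := fun _ => ℂ) (q s) (κ (nm m n q) - v) with hRd
  have hP : AnalyticAt ℂ P 0 := by
    refine analyticAt_pi_iff.2 fun i => ?_
    rcases hQ4 i with h1 | ⟨j, h1⟩
    · have h2 : (fun p => P p i) = fun p : Vd (k + 2) => p 0 := funext fun p => h1 _ _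
      rw [h2]
      exact (ContinuousLinearMap.proj (R := ℂ) (φ := fun _ : Fin (k + 2) => ℂ) 0).analyticAt _
    · have h2 : (fun p => P p i) = fun p : Vd (k + 2) => ψ (v + tl p) j := funext fun p => h1 _ _
      rw [h2]
      exact analyticAt_pi_iff.1 hψt j
  have hP0 : P 0 = 0 := by
    have h1 := hQ3 0
    rw [hm0] at h1
    show Q 0 (ψ (v + tl 0)) = 0
    rw [htl0, hψ0]
    exact h1
  have hκn : AnalyticAt ℂ (fun q : Vd (k + 2) => κ (nm m n q)) 0 := by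
    have h1 : AnalyticAt ℂ κ (nm m n (0 : Vd (k + 2))) := by
      rw [hm0]
      exact hκ.an
    exact h1.fun_comp (rstr_nm_an m n)
  have hR : AnalyticAt ℂ R 0 := by
    refine analyticAt_pi_iff.2 fun i => ?_
    refine Fin.cases ?_ (fun i => ?_) i
    · exact (ContinuousLinearMap.proj (R := ℂ) (φ := fun _ : Fin (k + 2) => ℂ) s).analyticAt _
    · exact analyticAt_pi_iff.1 (hκn.sub analyticAt_const) i
  have hnt : Tendsto (nm (k := k) m n) (𝓝 0) (𝓝 0) := by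
    have h1 := (rstr_nm_an (k := k) m n).continuousAt.tendsto
    rwa [hm0] at h1
  have hRP : ∀ᶠ p in 𝓝 (0 : Vd (k + 2)), R (P p) = p := by
    filter_upwards [htt.eventually hκψ] with p hp
    funext i
    refine Fin.cases ?_ (fun i => ?_) i
    · exact hQ2 _ _
    · show (κ (nm m n (Q (p 0) (ψ (v + tl p)))) - v) i = p i.succ
      rw [hQ1, hp, add_sub_cancel_left]
      rfl
  have hPR : ∀ᶠ q in 𝓝 (0 : Vd (k + 2)), P (R q) = q := by
    filter_upwards [hnt.eventually hψκ] with q hq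
    have h1 : tl (R q) = κ (nm m n q) - v := rfl
    show Q (q s) (ψ (v + tl (R q))) = q
    rw [h1, add_sub_cancel, hq, hQ3]
  have hPt : Tendsto P (𝓝 0) (𝓝 0) := by
    have h1 := hP.continuousAt.tendsto
    rwa [hP0] at h1
  refine ⟨fun p => σ (P p), fun x => R (τ x), rstr_germ hG hP hP0 hR hRP hPR, ?_, ?_⟩
  · show σ (P 0) = x
    rw [hP0, hσ0]
  · filter_upwards [hPt.eventually hnm, htt.eventually hκψ] with p h1 h2
    have h3 : nm m n (P p) = ψ (v + tl p) := hQ1 _ _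
    rw [h3, h2] at h1
    exact h1

/-- the derivative of `x ^ m * y ^ n` along a curve -/
private theorem rstr_der {f g : ℂ → ℂ} {z f' g' : ℂ} (hf : HasDerivAt f f' z) (hg : HasDerivAt g g' z) (hf0 : f z = 0) (hg0 : g z = 0) {m n : ℕ}
    (h : 2 ≤ m + n) : HasDerivAt (fun w => f w ^ m * g w ^ n) 0 z := by
  have h1 := (hf.fun_pow m).fun_mul (hg.fun_pow n)
  have h2 : (m : ℂ) * f z ^ (m - 1) * f' * g z ^ n + f z ^ m * ((n : ℂ) * g z ^ (n - 1) * g') = 0 := by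
    rw [hf0, hg0]
    rcases Nat.lt_or_ge m 2 with hm | hm
    · interval_cases m
      · have h3 : n - 1 ≠ 0 := by omega
        rw [zero_pow h3]
        simp
      · have h3 : n ≠ 0 := by omega
        rw [zero_pow h3]
        simp
    · have h3 : m - 1 ≠ 0 := by omega
      have h4 : m ≠ 0 := by omega
      rw [zero_pow h3, zero_pow h4]
      simp
  rwa [h2] at h1

/-- `u` is a submersion at the points of a curve over the points which are not bad -/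
private theorem rstr_nc (G : Geo X Λ u D B) {v y : Vd (k + 1)} (ht : TransAt D v a) {κ : Vd (k + 1) → Vd (k + 1)} (hκ : IsCoord D κ v) {F : ℂ → EN N}
    {z : ℂ} (hnc : IsNC X Λ u κ (F z)) (hF : AnalyticAt ℂ F z) (hFX : ∀ w, F w ∈ X) (hv : y + z • a = v) (hFu : ∀ w, u (F w) - (y + w • a) ∈ Λ) :
    IsStr X Λ u (F z) v := by
  obtain ⟨σ, τ, m, n, hG, hσ0, hmn, hnm⟩ := hnc
  rcases Nat.lt_or_ge (m + n) 2 with hlt | hge
  · exact rstr_one hκ hG hσ0 (by omega) hnm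
  exfalso
  have hτ0 : τ (σ 0) = 0 := hG.left.self_of_nhds
  have hm0 : nm m n (0 : Vd (k + 2)) = 0 := rstr_nm0 hmn
  -- the coordinates of the curve
  set q : ℂ → Vd (k + 2) := fun w => τ (F w) with hqd
  have hq : AnalyticAt ℂ q z := by
    have h1 : AnalyticAt ℂ τ (F z) := by
      rw [← hσ0]
      exact hG.τ_an
    exact h1.fun_comp hF
  have hq0 : q z = 0 := by
    show τ (F z) = 0
    rw [← hσ0, hτ0]
  have hFt : Tendsto F (𝓝 z) (𝓝 (σ 0)) := by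
    rw [hσ0]
    exact hF.continuousAt.tendsto
  have hqt : Tendsto q (𝓝 z) (𝓝 0) := by
    have h1 := hq.continuousAt.tendsto
    rwa [hq0] at h1
  have hmem : ∀ᶠ w in 𝓝 z, κ (nm m n (q w)) - (y + w • a) ∈ Λ := by
    filter_upwards [hFt.eventually hG.right, hqt.eventually hG.σ_mem, hqt.eventually hnm] with w h1 h2 h3
    obtain ⟨c, hc, h4⟩ := h1 (hFX w)
    have h5 := G.tor.smul _ h2 c hc
    have h6 : c • σ (q w) = F w := h4.symm
    rw [h6] at h5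
    have h7 := Λ.sub_mem (Λ.sub_mem (hFu w) h5) h3
    have h8 : u (F w) - (y + w • a) - (u (F w) - u (σ (q w))) - (u (σ (q w)) - κ (nm m n (q w))) = κ (nm m n (q w)) - (y + w • a) := by abel
    rwa [h8] at h7
  obtain ⟨δ, hδ, hdisc⟩ := G.lat.disc
  have hκn : AnalyticAt ℂ (fun w => κ (nm m n (q w))) z := by
    have h1 : AnalyticAt ℂ (nm (k := k) m n) (q z) := by
      rw [hq0]
      exact rstr_nm_an m n
    have h2 : AnalyticAt ℂ κ (nm m n (q z)) := by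
      rw [hq0, hm0]
      exact hκ.an
    exact AnalyticAt.fun_comp (f := fun w => nm m n (q w)) h2 (h1.fun_comp hq)
  have hlin : HasDerivAt (fun w : ℂ => y + w • a) a z := by
    have h1 := ((hasDerivAt_id z).smul_const a).const_add y
    simpa using h1
  have heq : ∀ᶠ w in 𝓝 z, κ (nm m n (q w)) = y + w • a := by
    have h1 : ContinuousAt (fun w => κ (nm m n (q w)) - (y + w • a)) z := hκn.continuousAt.sub hlin.continuousAt
    have h2 : Tendsto (fun w => κ (nm m n (q w)) - (y + w • a)) (𝓝 z) (𝓝 0) := by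
      have h3 := h1.tendsto
      rwa [hq0, hm0, hκ.zero, hv, sub_self] at h3
    filter_upwards [hmem, h2.eventually (ball_mem_nhds 0 hδ)] with w h3 h4
    exact sub_eq_zero.1 (hdisc _ h3 (mem_ball_zero_iff.1 h4))
  -- the derivative
  have hnq : AnalyticAt ℂ (fun w => nm m n (q w)) z := by
    have h1 : AnalyticAt ℂ (nm (k := k) m n) (q z) := by
      rw [hq0]
      exact rstr_nm_an m n
    exact h1.fun_comp hq
  have hd1 : HasDerivAt (fun w => κ (nm m n (q w))) (fderiv ℂ κ 0 (deriv (fun w => nm m n (q w)) z)) z := by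
    have h1 : HasFDerivAt κ (fderiv ℂ κ 0) (nm m n (q z)) := by
      rw [hq0, hm0]
      exact hκ.an.differentiableAt.hasFDerivAt
    exact h1.comp_hasDerivAt z hnq.differentiableAt.hasDerivAt
  have hd2 : fderiv ℂ κ 0 (deriv (fun w => nm m n (q w)) z) = a := by
    refine hd1.unique (hlin.congr_of_eventuallyEq ?_)
    filter_upwards [heq] with w hw
    exact hw
  refine ht.2 κ hκ _ ?_ hd2
  have h1 : HasDerivAt (fun w => nm m n (q w) 0) (deriv (fun w => nm m n (q w)) z 0) z := hasDerivAt_pi.1 hnq.differentiableAt.hasDerivAt 0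
  have hqd : HasDerivAt q (deriv q z) z := hq.differentiableAt.hasDerivAt
  have h2 : HasDerivAt (fun w => q w 0 ^ m * q w 1 ^ n) 0 z :=
    rstr_der (hasDerivAt_pi.1 hqd 0) (hasDerivAt_pi.1 hqd 1) (by rw [hq0]; rfl) (by rw [hq0]; rfl) hge
  exact h1.unique h2

/-- straight charts at the points of a curve over the points which are not bad -/
theorem reg_str (G : Geo X Λ u D B) {y : Vd (k + 1)} {f : ℂ → MN N} (hf : f ∈ Hc X Λ u a y) {z : ℂ} (h : y + z • a ∈ D → y + z • a ∉ B ∧ TransAt D (y + z • a) a) :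
    ∃ (χ : Chart (k + 2) X) (c : Vd (k + 1)) (ρ : ℝ) (p : Vd (k + 2)), Str Λ u χ c ρ ∧ p ∈ ball (0 : Vd (k + 2)) 2 ∧ ms c ρ p = y + z • a ∧ f z = pr (χ.σ p) := by
  obtain ⟨F, ⟨hF1, hF2, hF3⟩, rfl⟩ := hf
  have hstr : IsStr X Λ u (F z) (y + z • a) := by
    by_cases hD : y + z • a ∈ D
    · obtain ⟨hB, ht⟩ := h hD
      obtain ⟨κ, hκ, hnc⟩ := G.nc _ hD hB
      exact rstr_nc G ht hκ (hnc _ (hF2 z) (hF3 z)) (hF1.analyticAt z) hF2 rfl hF3
    · exact G.sub _ hD _ (hF2 z) (hF3 z)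
  obtain ⟨χ, ρ, hU, hq, hs, -⟩ := exists_str_chart G.cone G.tor hstr one_pos
  refine ⟨χ, y + z • a, ρ, 0, hs, mem_ball_self two_pos, ?_, ?_⟩
  · have h1 : tl (0 : Vd (k + 2)) = 0 := rfl
    rw [ms, h1, smul_zero, add_zero]
  · obtain ⟨-, c, hc, h1⟩ := χ.surj _ (hF2 z) hU
    rw [hq] at h1
    show pr (F z) = pr (χ.σ 0)
    rw [h1, Pool.Agent.H62.EF.pr_smul _ hc]

end Pool.Agent.G3.A

end

section

/-!
# G3 PS Du: the derivative of `u` is bounded by the Fubini-Study length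

At `x ∈ X` the map `u` is, modulo `Λ`, a function `v` which is analytic near `x` in `EN N` (`TMap.loc`); on a curve `h = v ∘ F + const` near the point (`Λ` is discrete, so the difference
is locally constant), so `deriv h z = fderiv v (F z) (F' z)`; for unit vectors `F z` in a neighbourhood of `x` this is `≤ C ‖F' z‖`.  Scale and rotate the lift first: `F̃ = g • F` with `g` holomorphic,
`F̃ z` a unit vector and `F̃' z ⟂ F̃ z`: then `‖F̃' z‖ = fs` (`fs_eq` in `H14/PP/CurveBasic`, `fs_inv` in `H36/BP/WdA`); `u (g F) - u F ∈ Λ` (`TMap.smul`), so `h` is also a lift of `u ∘ F̃`.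
Compactness of `X ∩ sphere` gives a uniform constant.
-/

set_option autoImplicit false

open Topology Filter Metric

namespace Pool.Agent.G3

open Pool.Agent.H36.BP (EN fs wd Sub)
open Pool.Agent.H14.PP (IsCone CurveAt Tan)
open Pool.Agent.H62.EF (MN pr)
open Pool.Agent.AD (Vd Chart Charts)
open Pool.Agent.TG (TMap Lat Geo Gd)

variable {N k : ℕ} {X : Set (EN N)} {Λ : AddSubgroup (Vd (k + 1))} {u : EN N → Vd (k + 1)} {D : Set (Vd (k + 1))} {m J r : ℕ}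
  {W : Fin r → Vd (k + 1) →L[ℂ] ℂ}

/-- the bound for curves through the points of the set `S` -/
private def DuB (X : Set (EN N)) (Λ : AddSubgroup (Vd (k + 1))) (u : EN N → Vd (k + 1)) (S : Set (EN N)) : Prop :=
  ∃ C : ℝ, 0 < C ∧ ∀ (G : ℂ → EN N) (h : ℂ → Vd (k + 1)) (z : ℂ), AnalyticAt ℂ G z → AnalyticAt ℂ h z → G z ∈ S →
    (∀ᶠ w in 𝓝 z, G w ∈ X ∧ u (G w) - h w ∈ Λ) → ‖deriv h z‖ ≤ C * ‖deriv G z‖

private theorem duB_local (hu : TMap X Λ u) (hΛ : Lat Λ) {x₀ : EN N} (hx₀ : x₀ ∈ X) : ∃ V ∈ 𝓝 x₀, DuB X Λ u V := by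
  obtain ⟨v, hv, hvΛ⟩ := hu.loc x₀ hx₀
  obtain ⟨C, hC⟩ : ∃ C : ℝ, C = ‖fderiv ℂ v x₀‖ + 1 := ⟨_, rfl⟩
  have hC0 : 0 < C := by
    rw [hC]
    positivity
  have hcont : ContinuousAt (fun y => ‖fderiv ℂ v y‖) x₀ := hv.fderiv.continuousAt.norm
  have hev : ∀ᶠ y in 𝓝 x₀, (∀ᶠ y' in 𝓝 y, y' ∈ X → u y' - v y' ∈ Λ) ∧ AnalyticAt ℂ v y ∧ ‖fderiv ℂ v y‖ < C :=
    hvΛ.eventually_nhds.and (hv.eventually_analyticAt.and (hcont.eventually_lt_const (by rw [hC]; linarith)))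
  refine ⟨_, hev, C, hC0, fun G h z hG hh hz hmem => ?_⟩
  obtain ⟨h1, h2, h3⟩ := hz
  obtain ⟨δ, hδ, hdisc⟩ := hΛ.disc
  obtain ⟨g, hg⟩ : ∃ g : ℂ → Vd (k + 1), g = fun w => h w - v (G w) := ⟨_, rfl⟩
  have hvG : AnalyticAt ℂ (fun w => v (G w)) z := AnalyticAt.fun_comp (g := v) (f := G) h2 hG
  have hgc : ContinuousAt g z := by
    rw [hg]
    exact hh.continuousAt.sub hvG.continuousAt
  have hgΛ : ∀ᶠ w in 𝓝 z, g w ∈ Λ := by
    filter_upwards [hmem, hG.continuousAt.eventually h1] with w hw hw'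
    have h4 := Λ.sub_mem (hw' hw.1) hw.2
    have e : u (G w) - v (G w) - (u (G w) - h w) = g w := by
      rw [hg]
      simp only
      abel
    rwa [e] at h4
  have hgz : g z ∈ Λ := hgΛ.self_of_nhds
  have hconst : ∀ᶠ w in 𝓝 z, h w = v (G w) + g z := by
    have hd : ∀ᶠ w in 𝓝 z, dist (g w) (g z) < δ := hgc.eventually (ball_mem_nhds _ hδ)
    filter_upwards [hgΛ, hd] with w hw1 hw2
    rw [dist_eq_norm] at hw2
    have h4 := hdisc _ (Λ.sub_mem hw1 hgz) hw2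
    have h5 : g w = g z := sub_eq_zero.1 h4
    rw [← h5, hg]
    simp only
    abel
  have hder : deriv h z = fderiv ℂ v (G z) (deriv G z) := by
    have h4 : HasDerivAt (fun w => v (G w) + g z) (fderiv ℂ v (G z) (deriv G z)) z :=
      (h2.differentiableAt.hasFDerivAt.comp_hasDerivAt z hG.differentiableAt.hasDerivAt).add_const (g z)
    have h5 : h =ᶠ[𝓝 z] fun w => v (G w) + g z := hconst
    rw [h5.deriv_eq]
    exact h4.deriv
  rw [hder]
  exact (ContinuousLinearMap.le_opNorm _ _).trans (mul_le_mul_of_nonneg_right h3.le (norm_nonneg _))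

private theorem duB_compact (hu : TMap X Λ u) (hΛ : Lat Λ) {K : Set (EN N)} (hK : IsCompact K) (hKX : K ⊆ X) : DuB X Λ u K := by
  refine hK.induction_on (p := fun S => DuB X Λ u S) ?_ ?_ ?_ ?_
  · exact ⟨1, one_pos, fun G h z _ _ hz _ => absurd hz (Set.notMem_empty _)⟩
  · rintro s t hst ⟨C, hC, h⟩
    exact ⟨C, hC, fun G h' z h1 h2 hz h3 => h G h' z h1 h2 (hst hz) h3⟩
  · rintro s t ⟨C, hC, h⟩ ⟨C', hC', h'⟩
    refine ⟨max C C', lt_max_of_lt_left hC, fun G g z h1 h2 hz h3 => ?_⟩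
    rcases hz with hz | hz
    · exact (h G g z h1 h2 hz h3).trans (mul_le_mul_of_nonneg_right (le_max_left _ _) (norm_nonneg _))
    · exact (h' G g z h1 h2 hz h3).trans (mul_le_mul_of_nonneg_right (le_max_right _ _) (norm_nonneg _))
  · intro x hx
    obtain ⟨V, hV, h⟩ := duB_local hu hΛ (hKX hx)
    exact ⟨V, mem_nhdsWithin_of_mem_nhds hV, h⟩

theorem du_bound (hX : IsCone X) (hu : TMap X Λ u) (hΛ : Lat Λ) :
    ∃ C : ℝ, 0 < C ∧ ∀ (U : Set ℂ) (F : ℂ → EN N) (h : ℂ → Vd (k + 1)), IsOpen U → Cv X Λ u U F h → ∀ z ∈ U, ‖deriv h z‖ ≤ C * fs (F z) (deriv F z) := by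
  obtain ⟨C, hC, hb⟩ := duB_compact hu hΛ (Pool.Agent.TG.compact_unit hX) Set.inter_subset_left
  refine ⟨C, hC, fun U F h hU hF z hz => ?_⟩
  have hUz : U ∈ 𝓝 z := hU.mem_nhds hz
  have hFz : AnalyticAt ℂ F z := hF.F_diff.analyticAt hUz
  have hhz : AnalyticAt ℂ h z := hF.h_diff.analyticAt hUz
  have hx0 : F z ≠ 0 := Pool.Agent.TG.ne_zero hX (hF.mem z hz)
  have hn : ‖F z‖ ≠ 0 := norm_ne_zero_iff.2 hx0
  have hnc : (‖F z‖ : ℂ) ≠ 0 := by exact_mod_cast hn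
  obtain ⟨a, ha⟩ : ∃ a : ℂ, a = -(inner ℂ (F z) (deriv F z) / (‖F z‖ : ℂ) ^ 2) := ⟨_, rfl⟩
  obtain ⟨g, hg⟩ : ∃ g : ℂ → ℂ, g = fun w => (‖F z‖ : ℂ)⁻¹ * Complex.exp (a * (w - z)) := ⟨_, rfl⟩
  have hg0 : ∀ w, g w ≠ 0 := by
    intro w
    rw [hg]
    exact mul_ne_zero (inv_ne_zero hnc) (Complex.exp_ne_zero _)
  have hgan : AnalyticAt ℂ g z := by
    have h1 : Differentiable ℂ g := by
      rw [hg]
      fun_prop
    exact h1.analyticAt z
  have hgz : g z = (‖F z‖ : ℂ)⁻¹ := by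
    rw [hg]
    simp
  have hgd : HasDerivAt g ((‖F z‖ : ℂ)⁻¹ * a) z := by
    have h1 : HasDerivAt (fun w : ℂ => a * (w - z)) a z := by
      simpa using ((hasDerivAt_id z).sub_const z).const_mul a
    have h2 := (h1.cexp).const_mul ((‖F z‖ : ℂ)⁻¹)
    rw [hg]
    simpa using h2
  have hGan : AnalyticAt ℂ (fun w => g w • F w) z := hgan.smul hFz
  have hGz : g z • F z ∈ X ∩ sphere (0 : EN N) 1 := by
    refine ⟨hX.smul_mem _ (hF.mem z hz) _ (hg0 z), ?_⟩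
    rw [mem_sphere_iff_norm, sub_zero, norm_smul, hgz, norm_inv, Complex.norm_real, norm_norm, inv_mul_cancel₀ hn]
  have hmem : ∀ᶠ w in 𝓝 z, g w • F w ∈ X ∧ u (g w • F w) - h w ∈ Λ := by
    filter_upwards [hUz] with w hw
    refine ⟨hX.smul_mem _ (hF.mem w hw) _ (hg0 w), ?_⟩
    have h1 := Λ.add_mem (hu.smul (F w) (hF.mem w hw) (g w) (hg0 w)) (hF.lift w hw)
    have e : u (g w • F w) - u (F w) + (u (F w) - h w) = u (g w • F w) - h w := by abel
    rwa [e] at h1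
  have hd : deriv (fun w => g w • F w) z = (‖F z‖ : ℂ)⁻¹ • (deriv F z - (inner ℂ (F z) (deriv F z) / (‖F z‖ : ℂ) ^ 2) • F z) := by
    have h1 := (hgd.smul hFz.differentiableAt.hasDerivAt).deriv
    rw [show (fun w => g w • F w) = g • F from rfl, h1, hgz, ha, smul_sub, smul_smul, mul_neg, neg_smul, sub_eq_add_neg]
  have key := hb (fun w => g w • F w) h z hGan hhz hGz hmem
  rw [hd, norm_smul, norm_inv, Complex.norm_real, norm_norm] at key
  rw [Pool.Agent.H14.PP.fs_eq hx0, div_eq_inv_mul]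
  exact key

end Pool.Agent.G3

end

section

/-!
# G4 A BadC: the set of the bad points is closed

`trans_open`: transversality to a smooth hypersurface is an open condition.  `ba_closed`: `Ba D B a` is closed if `B` is closed and `D` is a smooth hypersurface at the points outside `B`.
-/

set_option autoImplicit false

open Topology Filter Metric

namespace Pool.Agent.G4.A

open Pool.Agent.H36.BP (EN fs wd)
open Pool.Agent.AD (Vd Chart Charts IsGerm)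
open Pool.Agent.TG
open Pool.Agent.G3.A (Ba)

variable {N k : ℕ} {X : Set (EN N)} {Λ : AddSubgroup (Vd (k + 1))} {u : EN N → Vd (k + 1)} {D B : Set (Vd (k + 1))} {a : Vd (k + 1)}

/-- the transversality of `a` to the images of the hyperplane is an open condition -/
private theorem bc_lin {L₀ : Vd (k + 1) →L[ℂ] Vd (k + 1)} (hinj : Function.Injective L₀) (h : ∀ q : Vd (k + 1), q 0 = 0 → L₀ q ≠ a) :
    ∃ ε : ℝ, 0 < ε ∧ ∀ L : Vd (k + 1) →L[ℂ] Vd (k + 1), ‖L - L₀‖ ≤ ε → ∀ q : Vd (k + 1), q 0 = 0 → L q ≠ a := by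
  have hsurj : Function.Surjective L₀ := LinearMap.surjective_of_injective (f := (L₀ : Vd (k + 1) →ₗ[ℂ] Vd (k + 1))) hinj
  obtain ⟨b₀, hb₀⟩ := hsurj a
  have hb0 : b₀ 0 ≠ 0 := fun h0 => h b₀ h0 hb₀
  have hker : LinearMap.ker (L₀ : Vd (k + 1) →ₗ[ℂ] Vd (k + 1)) = ⊥ := LinearMap.ker_eq_bot.2 hinj
  obtain ⟨K, hK, hKa⟩ := (L₀ : Vd (k + 1) →ₗ[ℂ] Vd (k + 1)).exists_antilipschitzWith hker
  have hK0 : (0 : ℝ) < K := by exact_mod_cast hK
  have hanti : ∀ p : Vd (k + 1), ‖p‖ ≤ K * ‖L₀ p‖ := by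
    intro p
    have h1 := hKa.le_mul_dist p 0
    rw [dist_zero_right, map_zero, dist_zero_right] at h1
    exact h1
  have hb0' : 0 < ‖b₀ 0‖ := norm_pos_iff.2 hb0
  refine ⟨min (1 / (2 * K)) (‖b₀ 0‖ / (4 * K * K * (‖a‖ + 1))), lt_min (by positivity) (by positivity), fun L hL q hq hLq => ?_⟩
  have hL1 := hL.trans (min_le_left _ _)
  have hL2 := hL.trans (min_le_right _ _)
  have h1 : ‖(L - L₀) q‖ ≤ ‖L - L₀‖ * ‖q‖ := (L - L₀).le_opNorm q
  have h2 : L₀ q = a - (L - L₀) q := by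
    rw [← hLq, ContinuousLinearMap.sub_apply]
    abel
  -- the norm of `q`
  have h3 : ‖q‖ ≤ 2 * K * ‖a‖ := by
    have h4 := hanti q
    rw [h2] at h4
    have h5 := norm_sub_le a ((L - L₀) q)
    have h6 : ‖L - L₀‖ * ‖q‖ ≤ 1 / (2 * K) * ‖q‖ := mul_le_mul_of_nonneg_right hL1 (norm_nonneg _)
    have h7 : K * ‖a - (L - L₀) q‖ ≤ K * (‖a‖ + 1 / (2 * K) * ‖q‖) := mul_le_mul_of_nonneg_left (by linarith) hK0.le
    have h8 : K * (‖a‖ + 1 / (2 * K) * ‖q‖) = K * ‖a‖ + ‖q‖ / 2 := by field_simp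
    linarith
  -- the distance of `q` and `b₀`
  have h4 : ‖q - b₀‖ ≤ K * (‖L - L₀‖ * ‖q‖) := by
    refine (hanti (q - b₀)).trans (mul_le_mul_of_nonneg_left ?_ hK0.le)
    rw [map_sub, h2, hb₀, sub_sub_cancel_left, norm_neg]
    exact h1
  have h5 : ‖b₀ 0‖ ≤ ‖q - b₀‖ := by
    have h6 := norm_le_pi_norm (q - b₀) 0
    rw [Pi.sub_apply, hq, zero_sub, norm_neg] at h6
    exact h6
  have h6 : K * (‖L - L₀‖ * ‖q‖) ≤ K * (‖b₀ 0‖ / (4 * K * K * (‖a‖ + 1)) * (2 * K * (‖a‖ + 1))) := by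
    refine mul_le_mul_of_nonneg_left (mul_le_mul hL2 (h3.trans ?_) (norm_nonneg _) (by positivity)) hK0.le
    have : 0 ≤ 2 * (K : ℝ) := by positivity
    nlinarith
  have h7 : (K : ℝ) * (‖b₀ 0‖ / (4 * K * K * (‖a‖ + 1)) * (2 * K * (‖a‖ + 1))) = ‖b₀ 0‖ / 2 := by
    have h8 : 0 < ‖a‖ + 1 := by positivity
    field_simp
    ring
  linarith

theorem trans_open {κ : Vd (k + 1) → Vd (k + 1)} {q : Vd (k + 1)} (hκ : IsCoord D κ q) (h : TransAt D q a) : ∀ᶠ y in 𝓝 q, y ∈ D → TransAt D y a := by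
  have hsurj : Function.Surjective (fderiv ℂ κ 0) := LinearMap.surjective_of_injective (f := (fderiv ℂ κ 0 : Vd (k + 1) →ₗ[ℂ] Vd (k + 1))) hκ.inj
  have hmap : Filter.map κ (𝓝 0) = 𝓝 (κ 0) := by
    refine HasStrictFDerivAt.map_nhds_eq_of_surj (f' := fderiv ℂ κ 0) hκ.an.hasStrictFDerivAt ?_
    exact LinearMap.range_eq_top.2 hsurj
  rw [hκ.zero] at hmap
  rw [← hmap, Filter.eventually_map]
  obtain ⟨ε, hε, hlin⟩ := bc_lin hκ.inj (h.2 κ hκ)
  have hc : ContinuousAt (fderiv ℂ κ) 0 := hκ.an.fderiv.continuousAt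
  have h1 : ∀ᶠ q₀ in 𝓝 (0 : Vd (k + 1)), ‖fderiv ℂ κ q₀ - fderiv ℂ κ 0‖ ≤ ε := by
    have h2 := hc.tendsto.eventually (ball_mem_nhds _ hε)
    filter_upwards [h2] with q₀ h3
    rw [dist_eq_norm] at h3
    exact h3.le
  filter_upwards [h1, coord_move hκ, hκ.mem_iff] with q₀ h2 h3 h4 h5
  have h6 := h3 (h4.1 h5)
  refine ⟨h.1, fun κ' hκ' p hp hpa => ?_⟩
  obtain ⟨p', hp', hpp'⟩ := coord_tangent hκ' h6 hp
  have h7 : fderiv ℂ (fun q => κ (q₀ + q)) 0 = fderiv ℂ κ q₀ := by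
    have h8 := fderiv_comp_add_left (𝕜 := ℂ) (f := κ) (x := (0 : Vd (k + 1))) q₀
    rw [add_zero] at h8
    exact h8
  rw [h7, hpa] at hpp'
  exact hlin _ h2 p' hp' hpp'

theorem ba_closed (G : Geo X Λ u D B) (hB : IsClosed B) : IsClosed (Ba D B a) := by
  rw [← isOpen_compl_iff, isOpen_iff_mem_nhds]
  intro q hq
  by_cases hqD : q ∈ D
  · have hq1 : ¬ (q ∈ B ∨ ¬ TransAt D q a) := fun h => hq ⟨hqD, h⟩
    push Not at hq1
    obtain ⟨κ, hκ, -⟩ := G.nc q hqD hq1.1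
    have h1 : ∀ᶠ y in 𝓝 q, y ∉ B := hB.isOpen_compl.mem_nhds hq1.1
    filter_upwards [h1, trans_open hκ hq1.2] with y h2 h3 h4
    rcases h4.2 with h5 | h5
    · exact h2 h5
    · exact h5 (h3 h4.1)
  · have h1 : ∀ᶠ y in 𝓝 q, y ∉ D := G.D_closed.isOpen_compl.mem_nhds hqD
    filter_upwards [h1] with y h2 h3
    exact h2 h3.1

end Pool.Agent.G4.A

end

section

/-!
# G4 A FrmW: the bounds of the forms with the weight

As `G3/A/FrmA`: `|α j (y, x, v)| ≤ C₀ exp (- wt W y)` for the tangent vectors `v` of norm at most `‖x‖` (`DecW`).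
-/

set_option autoImplicit false

open Topology Filter Metric

namespace Pool.Agent.G4.A

open Pool.Agent.H36.BP (EN fs wd)
open Pool.Agent.H14.PP (IsCone CurveAt Tan)
open Pool.Agent.H62.EF (MN pr)
open Pool.Agent.AD (Vd Chart Charts IsGerm)
open Pool.Agent.TG
open Pool.Agent.G3 (wt)
open Pool.Agent.G3.A (Frm)
open Pool.Agent.G3.C (Gc)

variable {N k : ℕ} {X : Set (EN N)} {Λ : AddSubgroup (Vd (k + 1))} {u : EN N → Vd (k + 1)} {D B Bad : Set (Vd (k + 1))} {a : Vd (k + 1)}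

/-- a determinant with entries of norm at most `C` -/
private theorem FrmW_det {n : ℕ} (M : Matrix (Fin n) (Fin n) ℂ) {C : ℝ} (hM : ∀ i j, ‖M i j‖ ≤ C) : ‖M.det‖ ≤ (n.factorial : ℝ) * C ^ n := by
  rw [Matrix.det_apply']
  calc ‖∑ σ : Equiv.Perm (Fin n), ((Equiv.Perm.sign σ : ℤ) : ℂ) * ∏ i, M (σ i) i‖
      ≤ ∑ σ : Equiv.Perm (Fin n), ‖((Equiv.Perm.sign σ : ℤ) : ℂ) * ∏ i, M (σ i) i‖ := norm_sum_le _ _
    _ ≤ ∑ _σ : Equiv.Perm (Fin n), C ^ n := by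
        refine Finset.sum_le_sum fun σ _ => ?_
        rw [norm_mul, norm_prod]
        have h1 : ‖((Equiv.Perm.sign σ : ℤ) : ℂ)‖ = 1 := by
          rcases Int.units_eq_one_or (Equiv.Perm.sign σ) with h | h <;> simp [h]
        rw [h1, one_mul]
        calc ∏ i, ‖M (σ i) i‖ ≤ ∏ _i : Fin n, C := Finset.prod_le_prod (fun i _ => norm_nonneg _) fun i _ => hM _ _
          _ = C ^ n := by simp
    _ = (n.factorial : ℝ) * C ^ n := by
        rw [Finset.sum_const, Finset.card_univ, Fintype.card_perm, Fintype.card_fin, nsmul_eq_mul]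

/-- the local bound -/
private theorem FrmW_loc (hX : IsCone X) (hch : Charts (k + 2) X) (hu : TMap X Λ u) (hΛ : Lat Λ) (α : VForm X Λ u) (y₀ : Vd (k + 1)) {x₀ : EN N} (hx₀ : x₀ ∈ X) :
    ∃ C : ℝ, ∀ᶠ p in 𝓝 ((y₀, x₀) : Vd (k + 1) × EN N), p.2 ∈ X → u p.2 - p.1 ∈ Λ → ∀ v : Fin (k + 2) → EN N, (∀ i, Tan X p.2 (v i)) → (∀ i, ‖v i‖ ≤ 1) →
      ‖α.toFun p.1 p.2 v‖ ≤ C := by
  have hfst : Tendsto (fun p : Vd (k + 1) × EN N => p.1) (𝓝 (y₀, x₀)) (𝓝 y₀) := continuousAt_fst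
  have hsnd : Tendsto (fun p : Vd (k + 1) × EN N => p.2) (𝓝 (y₀, x₀)) (𝓝 x₀) := continuousAt_snd
  by_cases h : u x₀ - y₀ ∈ Λ
  · obtain ⟨χ, hU, hq0⟩ := hch x₀ hx₀
    obtain ⟨υ, hυ, hυe, hl⟩ := exists_lift_chart hX hu χ hx₀ hU h
    have hb : χ.q x₀ ∈ ball (0 : Vd (k + 2)) 2 := (χ.surj x₀ hx₀ hU).1
    obtain ⟨δ, hδ, hdisc⟩ := hΛ.disc
    set C₁ : ℝ := ‖tc α χ υ (χ.q x₀)‖ + 1 with hC₁
    set C₂ : ℝ := ‖fderiv ℂ χ.q x₀‖ + 1 with hC₂
    have hqc : Tendsto χ.q (𝓝 x₀) (𝓝 (χ.q x₀)) := (χ.q_an x₀ hU).continuousAt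
    have h1 : ∀ᶠ q in 𝓝 (χ.q x₀), ‖tc α χ υ q‖ < C₁ :=
      (tc_an α χ hb hυ hl).continuousAt.norm.eventually_lt_const (by show ‖tc α χ υ (χ.q x₀)‖ < C₁; linarith)
    have h2 : ∀ᶠ x in 𝓝 x₀, ‖fderiv ℂ χ.q x‖ < C₂ :=
      (χ.q_an x₀ hU).fderiv.continuousAt.norm.eventually_lt_const (by show ‖fderiv ℂ χ.q x₀‖ < C₂; linarith)
    have h3 : ∀ᶠ p in 𝓝 ((y₀, x₀) : Vd (k + 1) × EN N), ‖p.1 - υ (χ.q p.2)‖ < δ := by
      have h4 : Tendsto (fun p : Vd (k + 1) × EN N => ‖p.1 - υ (χ.q p.2)‖) (𝓝 (y₀, x₀)) (𝓝 ‖y₀ - υ (χ.q x₀)‖) :=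
        (hfst.sub (hυ.continuousAt.tendsto.comp (hqc.comp hsnd))).norm
      refine h4.eventually_lt_const ?_
      rw [hυe, sub_self, norm_zero]
      exact hδ
    refine ⟨((k + 2).factorial : ℝ) * C₂ ^ (k + 2) * C₁, ?_⟩
    filter_upwards [hsnd.eventually (hqc.eventually h1), hsnd.eventually h2, h3, hsnd.eventually (χ.isOpen_U.mem_nhds hU), hsnd.eventually (hqc.eventually hl)]
      with p hp1 hp2 hp3 hp4 hp5 hpX hpu v hv hv1
    obtain ⟨hqb, c, hc, hcx⟩ := χ.surj p.2 hpX hp4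
    have hσX : χ.σ (χ.q p.2) ∈ X := (χ.σ_mem _ hqb).1
    have h6 : u p.2 - υ (χ.q p.2) ∈ Λ := by
      have h7 : u (c • χ.σ (χ.q p.2)) - u (χ.σ (χ.q p.2)) ∈ Λ := hu.smul _ hσX c hc
      rw [← hcx] at h7
      have h8 := Λ.add_mem h7 hp5
      have e : u p.2 - u (χ.σ (χ.q p.2)) + (u (χ.σ (χ.q p.2)) - υ (χ.q p.2)) = u p.2 - υ (χ.q p.2) := by abel
      rwa [e] at h8
    have h7 : υ (χ.q p.2) = p.1 := by
      have h8 := Λ.sub_mem h6 hpu
      have e : u p.2 - υ (χ.q p.2) - (u p.2 - p.1) = p.1 - υ (χ.q p.2) := by abel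
      rw [e] at h8
      exact (sub_eq_zero.1 (hdisc _ h8 hp3)).symm
    rw [toFun_eq hX hu α χ hpX hp4 hpu h7 v hv, norm_mul]
    have h8 : ‖(Matrix.of fun i j => fderiv ℂ χ.q p.2 (v i) j).det‖ ≤ ((k + 2).factorial : ℝ) * C₂ ^ (k + 2) := by
      refine FrmW_det _ fun i j => ?_
      show ‖fderiv ℂ χ.q p.2 (v i) j‖ ≤ C₂
      have h9 : ‖fderiv ℂ χ.q p.2 (v i) j‖ ≤ ‖fderiv ℂ χ.q p.2 (v i)‖ := norm_le_pi_norm _ j
      have h10 := (fderiv ℂ χ.q p.2).le_opNorm (v i)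
      have h11 : ‖fderiv ℂ χ.q p.2‖ * ‖v i‖ ≤ C₂ * 1 := mul_le_mul hp2.le (hv1 i) (norm_nonneg _) (by positivity)
      linarith
    exact mul_le_mul h8 hp1.le (norm_nonneg _) (by positivity)
  · refine ⟨0, ?_⟩
    obtain ⟨w, hw, hwl⟩ := hu.loc x₀ hx₀
    have h1 : w x₀ - y₀ ∉ Λ := by
      intro h2
      apply h
      have h3 := Λ.add_mem (hwl.self_of_nhds hx₀) h2
      have e : u x₀ - w x₀ + (w x₀ - y₀) = u x₀ - y₀ := by abel
      rwa [e] at h3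
    have h2 : Tendsto (fun p : Vd (k + 1) × EN N => w p.2 - p.1) (𝓝 (y₀, x₀)) (𝓝 (w x₀ - y₀)) :=
      (hw.continuousAt.tendsto.comp hsnd).sub hfst
    have h3 : ∀ᶠ p in 𝓝 ((y₀, x₀) : Vd (k + 1) × EN N), w p.2 - p.1 ∈ ((Λ : Set (Vd (k + 1))))ᶜ :=
      h2.eventually (hΛ.closed.isOpen_compl.mem_nhds h1)
    filter_upwards [h3, hsnd.eventually hwl] with p hp1 hp2 hpX hpu
    exfalso
    apply hp1
    have h4 := Λ.sub_mem hpu (hp2 hpX)
    have e : u p.2 - p.1 - (u p.2 - w p.2) = w p.2 - p.1 := by abel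
    rw [e] at h4
    exact h4

/-- the bound over a ball -/
private theorem FrmW_ball (hX : IsCone X) (hch : Charts (k + 2) X) (hu : TMap X Λ u) (hΛ : Lat Λ) (α : VForm X Λ u) (R : ℝ) :
    ∃ C : ℝ, 0 ≤ C ∧ ∀ y : Vd (k + 1), ‖y‖ ≤ R → ∀ x ∈ X, u x - y ∈ Λ → ∀ v : Fin (k + 2) → EN N, (∀ i, Tan X x (v i)) → (∀ i, ‖v i‖ ≤ ‖x‖) →
      ‖α.toFun y x v‖ ≤ C := by
  have hK : IsCompact (closedBall (0 : Vd (k + 1)) R ×ˢ (X ∩ sphere (0 : EN N) 1)) := (isCompact_closedBall _ _).prod (compact_unit hX)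
  have h1 : ∃ C : ℝ, ∀ p ∈ closedBall (0 : Vd (k + 1)) R ×ˢ (X ∩ sphere (0 : EN N) 1), p.2 ∈ X → u p.2 - p.1 ∈ Λ → ∀ v : Fin (k + 2) → EN N,
      (∀ i, Tan X p.2 (v i)) → (∀ i, ‖v i‖ ≤ 1) → ‖α.toFun p.1 p.2 v‖ ≤ C := by
    refine hK.induction_on (p := fun S : Set (Vd (k + 1) × EN N) => ∃ C : ℝ, ∀ p ∈ S, p.2 ∈ X → u p.2 - p.1 ∈ Λ → ∀ v : Fin (k + 2) → EN N,
      (∀ i, Tan X p.2 (v i)) → (∀ i, ‖v i‖ ≤ 1) → ‖α.toFun p.1 p.2 v‖ ≤ C) ?_ ?_ ?_ ?_
    · exact ⟨0, fun p hp => absurd hp (Set.notMem_empty p)⟩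
    · rintro S T hST ⟨C, hC⟩
      exact ⟨C, fun p hp => hC p (hST hp)⟩
    · rintro S T ⟨C, hC⟩ ⟨C', hC'⟩
      refine ⟨max C C', fun p hp h1 h2 v h3 h4 => ?_⟩
      rcases hp with hp | hp
      · exact (hC p hp h1 h2 v h3 h4).trans (le_max_left _ _)
      · exact (hC' p hp h1 h2 v h3 h4).trans (le_max_right _ _)
    · rintro ⟨y, x⟩ ⟨hy, hx, hx'⟩
      obtain ⟨C, hC⟩ := FrmW_loc hX hch hu hΛ α y hx
      exact ⟨_, mem_nhdsWithin_of_mem_nhds hC, C, fun p hp => hp⟩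
  obtain ⟨C, hC⟩ := h1
  refine ⟨max C 0, le_max_right _ _, fun y hy x hx hxy v hv hvn => ?_⟩
  have hn : 0 < ‖x‖ := norm_pos_iff.2 (ne_zero hX hx)
  have hc : (((‖x‖⁻¹ : ℝ)) : ℂ) ≠ 0 := by
    exact_mod_cast inv_ne_zero hn.ne'
  set c : ℂ := (((‖x‖⁻¹ : ℝ)) : ℂ) with hcd
  have hcn : ‖c‖ = ‖x‖⁻¹ := by rw [hcd, Complex.norm_real, norm_inv, norm_norm]
  have hcx : c • x ∈ X := hX.smul_mem x hx c hc
  have hcs : c • x ∈ sphere (0 : EN N) 1 := by
    rw [mem_sphere_zero_iff_norm, norm_smul, hcn]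
    exact inv_mul_cancel₀ hn.ne'
  have ht : ∀ i, Tan X (c • x) (c • v i) := by
    intro i
    obtain ⟨F, hF, hF0, hFd⟩ := hv i
    refine ⟨fun z => c • F z, ⟨AnalyticAt.fun_smul analyticAt_const hF.1, ?_⟩, ?_, ?_⟩
    · filter_upwards [hF.2] with z hz
      exact hX.smul_mem _ hz c hc
    · show c • F 0 = c • x
      rw [hF0]
    · have h1 : HasDerivAt (fun z => c • F z) (c • deriv F 0) 0 := hF.1.differentiableAt.hasDerivAt.const_smul c
      rw [h1.deriv, hFd]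
  have h2 := hC (y, c • x) ⟨by rwa [mem_closedBall_zero_iff], hcx, hcs⟩ hcx (smul_mem_lat hu hx hxy hc) (fun i => c • v i) ht (fun i => by
    rw [norm_smul, hcn]
    calc ‖x‖⁻¹ * ‖v i‖ ≤ ‖x‖⁻¹ * ‖x‖ := mul_le_mul_of_nonneg_left (hvn i) (by positivity)
      _ = 1 := inv_mul_cancel₀ hn.ne')
  rw [α.scale y x hx hxy v hv c hc] at h2
  exact h2.trans (le_max_left _ _)

/-- the weight is bounded on balls -/
private theorem FrmW_wt_le {r : ℕ} (W : Fin r → Vd (k + 1) →L[ℂ] ℂ) (R : ℝ) : ∃ M : ℝ, ∀ y : Vd (k + 1), ‖y‖ ≤ R → wt W y ≤ M := by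
  refine ⟨∑ i, (‖W i‖ * R) ^ 2, fun y hy => ?_⟩
  unfold wt
  refine Finset.sum_le_sum fun i _ => ?_
  refine pow_le_pow_left₀ (norm_nonneg _) ?_ 2
  exact ((W i).le_opNorm y).trans (mul_le_mul_of_nonneg_left hy (norm_nonneg _))

/-- the weight is positive definite -/
theorem decW (G : Geo X Λ u D B) {Γ : AddSubgroup (Vd (k + 1))} {J r : ℕ} {W : Fin r → Vd (k + 1) →L[ℂ] ℂ} {α : Fin J → VForm X Λ u} (h : Frm X Λ u D Γ W α) :
    ∃ C₀ : ℝ, 0 < C₀ ∧ ∀ j, DecW W (α j) C₀ := by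
  obtain ⟨R, hR, hcpt⟩ := h.lat.cpt
  obtain ⟨M, hM⟩ := FrmW_wt_le W R
  have hb := fun j => FrmW_ball G.cone G.charts G.tor G.lat (α j) R
  choose C hC0 hC using hb
  refine ⟨1 + ∑ j, C j * Real.exp M, ?_, ?_⟩
  · have : 0 ≤ ∑ j, C j * Real.exp M := Finset.sum_nonneg fun j _ => mul_nonneg (hC0 j) (Real.exp_nonneg _)
    linarith
  · intro j y x hx hxy v hv hvn
    obtain ⟨l, hl, hyl⟩ := hcpt y
    obtain ⟨L, c, hLc, hθ⟩ := h.per j l hl
    have hxy' : u x - (y - l) ∈ Λ := by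
      have h1 := Λ.add_mem hxy (h.le hl)
      have e : u x - y + l = u x - (y - l) := by abel
      rwa [e] at h1
    have h1 := hθ (y - l) x hx hxy' v hv
    rw [sub_add_cancel] at h1
    have h2 := hLc (y - l)
    rw [sub_add_cancel] at h2
    rw [h1, norm_mul, h2]
    have h3 := hC j (y - l) hyl x hx hxy' v hv hvn
    have h4 : Real.exp (wt W (y - l) - wt W y) ≤ Real.exp M * Real.exp (-wt W y) := by
      rw [← Real.exp_add]
      refine Real.exp_le_exp.2 ?_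
      have h5 := hM (y - l) hyl
      linarith
    have h5 : C j * Real.exp M ≤ 1 + ∑ j, C j * Real.exp M := by
      have h6 := Finset.single_le_sum (f := fun j => C j * Real.exp M) (fun j _ => mul_nonneg (hC0 j) (Real.exp_nonneg _)) (Finset.mem_univ j)
      linarith
    calc Real.exp (wt W (y - l) - wt W y) * ‖(α j).toFun (y - l) x v‖ ≤ (Real.exp M * Real.exp (-wt W y)) * C j :=
          mul_le_mul h4 h3 (norm_nonneg _) (by positivity)
      _ = (C j * Real.exp M) * Real.exp (-wt W y) := by ring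
      _ ≤ _ := mul_le_mul_of_nonneg_right h5 (Real.exp_nonneg _)

end Pool.Agent.G4.A

end
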