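import Pool.Agent.H94.G5T.M106
import Pool.Agent.H94.G5T.M109
import Pool.Agent.H94.G5T.M111
import Pool.Agent.H94.G5T.M118
import Pool.Agent.H94.G5T.M120
import Pool.Agent.H94.G5T.M130
import Pool.Agent.H94.G5T.M151
import Pool.Agent.H94.G5T.M98

/-! The parts of this file: G4.H.Sml, G4.F.BLn, G4.M.Met, G4.F.QEx. -/

section

/-!
# G4 H Sml: few bad points, if the set of the bad points is covered by polydiscs of codimension `2`

`ba_closed'`, `ba_inv`: the set of the bad points is closed and invariant.  `few_ba`: it has few hits with the lines.  `exists_over`: a point of the cone over a point `y ∉ D`.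
-/

set_option autoImplicit false

open Topology Filter Metric MvPolynomial

namespace Pool.Agent.G4.H

open Pool.Agent.H17 (PN VanishesAt)
open Pool.Agent.H62.FC (Homog)
open Pool.Agent.H17LG.Variety (FunField)
open Pool.Agent.H17EF (projVar coneE LE mem_coneE mk_mem_projVar)
open Pool.Agent.H36.BP (EN)
open Pool.Agent.AD (uV)
open Pool.Agent.TGF (Cn)

variable {N k : ℕ}

/-- a point of the cone over a point outside `D` -/
theorem exists_over {P : Ideal (MvPolynomial (Fin (N + 1)) ℂ)} [P.IsPrime] (hP : Homog P) (hdim : ∃ z : Fin (k + 2) → FunField P, IsTranscendenceBasis ℂ z)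
    {Λ : AddSubgroup (Cn (k + 1))} {u : PN N → Cn (k + 1) ⧸ Λ} {D : Set (Cn (k + 1))}
    (hR : ∃ (e : ℕ) (R : MvPolynomial (Fin (N + 1)) ℂ), R.IsHomogeneous e ∧ R ∉ P ∧
      ∀ x ∈ projVar P, (∃ y ∈ D, u x = (y : Cn (k + 1) ⧸ Λ)) → VanishesAt R x) :
    ∃ y ∉ D, ∃ x ∈ coneE P, uV Λ u x - y ∈ Λ := by
  obtain ⟨z, hz⟩ := hdim
  obtain ⟨e, R, hRe, hRP, hRv⟩ := hR
  obtain ⟨j₀, hj₀⟩ := Pool.Agent.H92.GT.Proj.exists_coordFun_ne_zero P z hz
  have hXP : ∃ i, (MvPolynomial.X i : MvPolynomial (Fin (N + 1)) ℂ) ∉ P := ⟨j₀, Pool.Agent.H17R.coordFun_ne_zero_iff.1 hj₀⟩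
  obtain ⟨x, hx, hxR⟩ := Pool.Agent.H17EF.exists_point hP hXP hRP hRe
  obtain ⟨y, hy⟩ := QuotientAddGroup.mk_surjective (u x)
  have h1 : (LE N).symm (LE N x.rep) = x.rep := (LE N).symm_apply_apply x.rep
  have h0 : (LE N).symm (LE N x.rep) ≠ 0 := by
    rw [h1]
    exact x.rep_nonzero
  refine ⟨y, fun hyD => hxR (hRv x hx ⟨y, hyD, hy.symm⟩), LE N x.rep, ?_, ?_⟩
  · refine (mem_coneE hP).2 ?_
    rw [h1]
    exact ⟨x.rep_nonzero, by rw [x.mk_rep]; exact hx⟩
  · rw [Pool.Agent.AD.sub_mem_iff, Pool.Agent.AD.uV_eq Λ u h0]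
    have h3 : ∀ (w : Fin (N + 1) → ℂ) (hw : w ≠ 0), w = x.rep → Projectivization.mk ℂ w hw = x := by
      rintro _ hw rfl
      exact x.mk_rep
    rw [h3 _ h0 h1]
    exact hy.symm

end Pool.Agent.G4.H

end

section

/-!
# G4 F BLn: almost all lines do not meet `B`

`B` is closed and `Λ`-invariant and the lines of direction `e` have few hits with `B`.  Let `A` be the set of the `y` such that `y + z e ∈ B` for some `|z| ≤ 1`: closed and `Λ`-invariant.  For every `y` the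
area of `{w : |w| ≤ R, y + w e ∈ A}` is at most `π` times the number of hits with `|z| ≤ R + 1`, `o (R²)`.  If `A` had positive measure, the measure of `A` in every ball of a suitable radius `r` would be at least
`v > 0`, and integration over the `y` in the ball of radius `r` gives `π R² v ≤ C o (R²)`.
-/

set_option autoImplicit false

open Topology Filter Metric MeasureTheory

namespace Pool.Agent.G4

open Pool.Agent.AD (Vd)
open Pool.Agent.TG (Lat)

variable {k : ℕ}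

private theorem hits_fin {B : Set (Vd (k + 1))} {e y : Vd (k + 1)} {R M : ℝ}
    (h : ∀ S : Finset ℂ, (∀ z ∈ S, ‖z‖ ≤ R ∧ y + z • e ∈ B) → (S.card : ℝ) ≤ M) :
    {z : ℂ | ‖z‖ ≤ R ∧ y + z • e ∈ B}.Finite := by
  by_contra hinf
  obtain ⟨n, hn⟩ := exists_nat_gt M
  obtain ⟨S, hS, hc⟩ := Set.Infinite.exists_subset_card_eq (s := {z : ℂ | ‖z‖ ≤ R ∧ y + z • e ∈ B}) hinf n
  have h1 := h S fun z hz => hS hz
  rw [hc] at h1
  linarith

/-- the points at distance at most `1` of `B` in the direction `e` -/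
private def AA (B : Set (Vd (k + 1))) (e : Vd (k + 1)) : Set (Vd (k + 1)) := {y | ∃ z : ℂ, ‖z‖ ≤ 1 ∧ y + z • e ∈ B}

private theorem AA_closed {B : Set (Vd (k + 1))} (hB : IsClosed B) (e : Vd (k + 1)) : IsClosed (AA B e) := by
  have h2 : AA B e = Prod.snd '' ({p : closedBall (0 : ℂ) 1 × Vd (k + 1) | p.2 + (p.1 : ℂ) • e ∈ B}) := by
    ext y
    constructor
    · rintro ⟨z, hz, hy⟩
      exact ⟨(⟨z, by simpa using hz⟩, y), hy, rfl⟩
    · rintro ⟨⟨z, y'⟩, hy, rfl⟩
      exact ⟨z, mem_closedBall_zero_iff.1 z.2, hy⟩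
  rw [h2]
  refine isClosedMap_snd_of_compactSpace _ (hB.preimage ?_)
  exact continuous_snd.add ((continuous_subtype_val.comp continuous_fst).smul continuous_const)

private theorem AA_null {Λ : AddSubgroup (Vd (k + 1))} (hL : Lat Λ) {B : Set (Vd (k + 1))} (hB : IsClosed B) (hinv : ∀ y ∈ B, ∀ l ∈ Λ, y + l ∈ B) {e : Vd (k + 1)}
    (hF : Few B e) : volume (AA B e) = 0 := by
  by_contra hne
  obtain ⟨A, hA⟩ : ∃ A, A = AA B e := ⟨_, rfl⟩
  rw [← hA] at hne
  have hAc : IsClosed A := hA ▸ AA_closed hB e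
  have hAinv : ∀ y ∈ A, ∀ l ∈ Λ, y + l ∈ A := by
    intro y hy l hl
    rw [hA] at hy ⊢
    obtain ⟨z, hz, h1⟩ := hy
    exact ⟨z, hz, by have := hinv _ h1 l hl; rwa [add_right_comm] at this⟩
  -- a ball in which `A` has positive measure
  obtain ⟨r₀, hr₀, hv⟩ : ∃ r₀ : ℝ, 0 < r₀ ∧ volume (A ∩ closedBall 0 r₀) ≠ 0 := by
    by_contra hcon
    push Not at hcon
    refine hne (measure_mono_null (t := ⋃ n : ℕ, A ∩ closedBall 0 ((n : ℝ) + 1)) ?_ (measure_iUnion_null fun n => hcon _ (by positivity)))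
    intro y hy
    obtain ⟨n, hn⟩ := exists_nat_ge ‖y‖
    exact Set.mem_iUnion.2 ⟨n, hy, by simpa using by linarith⟩
  obtain ⟨Rl, hRl, hcpt⟩ := hL.cpt
  obtain ⟨r, hr⟩ : ∃ r, r = r₀ + Rl := ⟨_, rfl⟩
  obtain ⟨v, hvd⟩ : ∃ v, v = volume (A ∩ closedBall (0 : Vd (k + 1)) r₀) := ⟨_, rfl⟩
  rw [← hvd] at hv
  have hlow : ∀ c : Vd (k + 1), v ≤ volume (A ∩ closedBall c r) := by
    intro c
    obtain ⟨l, hl, hcl⟩ := hcpt c
    rw [hvd, ← measure_preimage_add_right volume (-l) (A ∩ closedBall 0 r₀)]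
    refine measure_mono fun y hy => ?_
    obtain ⟨h1, h2⟩ := hy
    refine ⟨?_, ?_⟩
    · have := hAinv _ h1 l hl
      simpa using this
    · rw [mem_closedBall, dist_eq_norm] at h2 ⊢
      have h3 : y - c = (y + -l - 0) - (c - l) := by abel
      rw [h3, hr]
      exact (norm_sub_le _ _).trans (add_le_add h2 hcl)
  have hvt : v < ⊤ := by
    rw [hvd]
    exact (measure_mono Set.inter_subset_right).trans_lt (isCompact_closedBall _ _).measure_lt_top
  have hvolC : ∀ (z : ℂ) (R : ℝ), 0 ≤ R → volume (closedBall z R) = ENNReal.ofReal (Real.pi * R ^ 2) := by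
    intro z R hR
    rw [Complex.volume_closedBall, mul_comm Real.pi, ENNReal.ofReal_mul (by positivity), ENNReal.ofReal_pow hR]
    congr 1
    rw [← NNReal.coe_real_pi, ENNReal.ofReal_coe_nnreal]
  -- the upper bound
  obtain ⟨K, hK⟩ : ∃ K, K = volume (closedBall (0 : Vd (k + 1)) r) := ⟨_, rfl⟩
  have hKt : K < ⊤ := by
    rw [hK]
    exact (isCompact_closedBall _ _).measure_lt_top
  have hup : ∀ (y : Vd (k + 1)) (R M : ℝ), 0 ≤ M → (∀ S : Finset ℂ, (∀ z ∈ S, ‖z‖ ≤ R + 1 ∧ y + z • e ∈ B) → (S.card : ℝ) ≤ M) →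
      volume {w : ℂ | ‖w‖ ≤ R ∧ y + w • e ∈ A} ≤ ENNReal.ofReal (Real.pi * M) := by
    intro y R M hM hS
    have hfin := hits_fin hS
    have hsub : {w : ℂ | ‖w‖ ≤ R ∧ y + w • e ∈ A} ⊆ ⋃ z ∈ hfin.toFinset, closedBall z 1 := by
      rintro w ⟨hw, hwA⟩
      rw [hA] at hwA
      obtain ⟨z, hz, hzB⟩ := hwA
      rw [add_assoc, ← add_smul] at hzB
      refine Set.mem_biUnion (x := w + z) ?_ ?_
      · rw [Finset.mem_coe, Set.Finite.mem_toFinset]
        exact ⟨(norm_add_le _ _).trans (add_le_add hw hz), hzB⟩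
      · rw [mem_closedBall, dist_eq_norm, sub_add_cancel_left, norm_neg]
        exact hz
    refine (measure_mono hsub).trans ((measure_biUnion_finset_le _ _).trans ?_)
    have h1 : ∀ z : ℂ, volume (closedBall z 1) = ENNReal.ofReal Real.pi := by
      intro z
      rw [hvolC z 1 zero_le_one, one_pow, mul_one]
    rw [Finset.sum_congr rfl fun z _ => h1 z, Finset.sum_const, nsmul_eq_mul]
    rw [ENNReal.ofReal_mul Real.pi_nonneg, mul_comm]
    refine mul_le_mul_right ?_ _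
    have h2 := hS hfin.toFinset fun z hz => by
      rw [Set.Finite.mem_toFinset] at hz
      exact hz
    rw [← ENNReal.ofReal_natCast]
    exact ENNReal.ofReal_le_ofReal h2
  -- Fubini
  have hmain : ∀ R M : ℝ, 0 ≤ R → 0 ≤ M → (∀ (y : Vd (k + 1)) (S : Finset ℂ), (∀ z ∈ S, ‖z‖ ≤ R + 1 ∧ y + z • e ∈ B) → (S.card : ℝ) ≤ M) →
      v.toReal * R ^ 2 ≤ K.toReal * M := by
    intro R M hR hM hS
    obtain ⟨f, hf⟩ : ∃ f : Vd (k + 1) → ℂ → ENNReal, f = fun y w => Set.indicator {p : Vd (k + 1) × ℂ | p.1 + p.2 • e ∈ A} 1 (y, w) := ⟨_, rfl⟩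
    have hcl : IsClosed {p : Vd (k + 1) × ℂ | p.1 + p.2 • e ∈ A} :=
      hAc.preimage (continuous_fst.add (continuous_snd.smul continuous_const))
    have hfm : Measurable (Function.uncurry f) := by
      rw [hf]
      exact measurable_one.indicator hcl.measurableSet
    have hswap := lintegral_lintegral_swap (μ := volume.restrict (closedBall (0 : Vd (k + 1)) r)) (ν := volume.restrict (closedBall (0 : ℂ) R)) (f := f) hfm.aemeasurable
    have hL1 : ∫⁻ y in closedBall (0 : Vd (k + 1)) r, ∫⁻ w in closedBall (0 : ℂ) R, f y w ≤ ENNReal.ofReal (Real.pi * M) * K := by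
      rw [hK, ← setLIntegral_const]
      refine lintegral_mono fun y => ?_
      have h1 : ∀ w, f y w = Set.indicator {w : ℂ | y + w • e ∈ A} 1 w := fun w => by
        rw [hf]
        rfl
      simp only [h1]
      have hcl2 : IsClosed {w : ℂ | y + w • e ∈ A} := hAc.preimage (continuous_const.add (continuous_id.smul continuous_const))
      rw [lintegral_indicator_one hcl2.measurableSet, Measure.restrict_apply hcl2.measurableSet]
      refine le_trans (measure_mono ?_) (hup y R M hM (hS y))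
      rintro w ⟨hw, hw2⟩
      exact ⟨by simpa using hw2, hw⟩
    have hL2 : v * volume (closedBall (0 : ℂ) R) ≤ ∫⁻ w in closedBall (0 : ℂ) R, ∫⁻ y in closedBall (0 : Vd (k + 1)) r, f y w := by
      rw [← setLIntegral_const]
      refine lintegral_mono fun w => ?_
      have h1 : ∀ y, f y w = Set.indicator {y : Vd (k + 1) | y + w • e ∈ A} 1 y := fun y => by
        rw [hf]
        rfl
      simp only [h1]
      have hcl2 : IsClosed {y : Vd (k + 1) | y + w • e ∈ A} := hAc.preimage (continuous_id.add continuous_const)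
      rw [lintegral_indicator_one hcl2.measurableSet, Measure.restrict_apply hcl2.measurableSet]
      refine (hlow (w • e)).trans ?_
      rw [← measure_preimage_add_right volume (w • e) (A ∩ closedBall (w • e) r)]
      refine measure_mono ?_
      rintro y ⟨hy, hy2⟩
      refine ⟨hy, ?_⟩
      rw [mem_closedBall, dist_eq_norm, add_sub_cancel_right] at hy2
      simpa using hy2
    have h3 := hL2.trans (hswap.symm.le.trans hL1)
    rw [hvolC 0 R hR] at h3
    have h4 := ENNReal.toReal_mono (ENNReal.mul_ne_top ENNReal.ofReal_ne_top hKt.ne) h3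
    rw [ENNReal.toReal_mul, ENNReal.toReal_mul, ENNReal.toReal_ofReal (by positivity), ENNReal.toReal_ofReal (by positivity)] at h4
    have hpi := Real.pi_pos
    have h5 : Real.pi * (v.toReal * R ^ 2) ≤ Real.pi * (K.toReal * M) := by linarith
    exact le_of_mul_le_mul_left h5 hpi
  -- the contradiction
  obtain ⟨t, ht⟩ : ∃ t, t = v.toReal := ⟨_, rfl⟩
  obtain ⟨κ, hκ⟩ : ∃ κ, κ = K.toReal := ⟨_, rfl⟩
  rw [← ht, ← hκ] at hmain
  have ht0 : 0 < t := by
    rw [ht]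
    exact ENNReal.toReal_pos hv hvt.ne
  have hκ0 : 0 ≤ κ := by
    rw [hκ]
    exact ENNReal.toReal_nonneg
  obtain ⟨C, hC⟩ := hF (t / (8 * (κ + 1))) (by positivity)
  obtain ⟨R, hR⟩ : ∃ R : ℝ, 1 ≤ R ∧ 2 * (κ * |C|) < t * R := by
    refine ⟨max 1 ((2 * (κ * |C|) + 1) / t), le_max_left _ _, ?_⟩
    have h1 : (2 * (κ * |C|) + 1) / t ≤ max 1 ((2 * (κ * |C|) + 1) / t) := le_max_right _ _
    rw [div_le_iff₀ ht0] at h1
    linarith
  obtain ⟨hR1, hR2⟩ := hR
  have h1 := hmain R (t / (8 * (κ + 1)) * (R + 1) ^ 2 + |C|) (by linarith) (by positivity) fun y S hS => (hC y (R + 1) (by linarith) S hS).trans (by linarith [le_abs_self C])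
  have h2 : κ * (t / (8 * (κ + 1)) * (R + 1) ^ 2) ≤ t * R ^ 2 / 2 := by
    have h3 : (R + 1) ^ 2 ≤ 4 * R ^ 2 := by nlinarith
    have h4 : κ / (κ + 1) ≤ 1 := by
      rw [div_le_one (by positivity)]
      linarith
    have h5 : κ * (t / (8 * (κ + 1)) * (R + 1) ^ 2) = (κ / (κ + 1)) * (t / 8 * (R + 1) ^ 2) := by
      field_simp
    rw [h5]
    have h6 : 0 ≤ t / 8 * (R + 1) ^ 2 := by positivity
    nlinarith [mul_le_mul_of_nonneg_right h4 h6, mul_le_mul_of_nonneg_left h3 (show 0 ≤ t / 8 by positivity)]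
  have h3 : t * R ^ 2 ≤ t * R ^ 2 / 2 + κ * |C| := by
    have : κ * (t / (8 * (κ + 1)) * (R + 1) ^ 2 + |C|) = κ * (t / (8 * (κ + 1)) * (R + 1) ^ 2) + κ * |C| := by ring
    linarith
  have h4 : t * R ≤ t * R ^ 2 := by nlinarith [mul_pos ht0 (by linarith : (0 : ℝ) < R)]
  linarith

/-- almost all lines of direction `e` do not meet `B` -/
theorem ae_lines {Λ : AddSubgroup (Vd (k + 1))} (hL : Lat Λ) {B : Set (Vd (k + 1))} (hB : IsClosed B) (hinv : ∀ y ∈ B, ∀ l ∈ Λ, y + l ∈ B) {e : Vd (k + 1)}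
    (hF : Few B e) : ∀ᵐ y : Vd (k + 1), ∀ z : ℂ, y + z • e ∉ B := by
  have h0 := AA_null hL hB hinv hF
  obtain ⟨Q, hQc, hQd⟩ := TopologicalSpace.exists_countable_dense ℂ
  have h1 : ∀ᵐ y : Vd (k + 1), ∀ q ∈ Q, y + q • e ∉ AA B e := by
    rw [ae_ball_iff hQc]
    intro q _
    have h2 : volume ((fun y => y + q • e) ⁻¹' AA B e) = 0 := by
      rw [measure_preimage_add_right]
      exact h0
    filter_upwards [compl_mem_ae_iff.2 h2] with y hy using hy
  filter_upwards [h1] with y hy z hz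
  obtain ⟨q, hq, hqz⟩ := Metric.dense_iff.1 hQd z 1 one_pos
  rw [mem_ball, dist_comm, dist_eq_norm] at hq
  refine hy q hqz ⟨z - q, hq.le, ?_⟩
  rw [add_assoc, ← add_smul, add_sub_cancel]
  exact hz

end Pool.Agent.G4

end

section

/-!
# G4 M Met: the structure `PS` from a negatively curved function

`FinM` gives all properties of `PS`; Jensen's inequality is the mean value inequality and `mean |h|^2 - |h z|^2 = mean |h - h z|^2` (`cA_sq`).
-/

set_option autoImplicit false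

open Topology Filter Metric

namespace Pool.Agent.G4.M

open Pool.Agent.H36.BP (EN fs wd Sub)
open Pool.Agent.H14.PP (IsCone CurveAt Tan)
open Pool.Agent.H62.EF (MN pr)
open Pool.Agent.AD (Vd Chart Charts)
open Pool.Agent.TG (TMap Lat Geo Gd)
open Pool.Agent.G3 (Cv PS pf TT du_bound)

variable {N k : ℕ} {X : Set (EN N)} {Λ : AddSubgroup (Vd (k + 1))} {u : EN N → Vd (k + 1)} {D : Set (Vd (k + 1))} {m : ℕ} {p : EN N → EN N → ℝ} {C₀ : ℝ}

/-- the mean of `‖g‖ ^ 2` -/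
theorem cA_sq {g : ℂ → ℂ} {z : ℂ} {s : ℝ} (hs : 0 < s) (hg : DifferentiableOn ℂ g (closedBall z s)) :
    Real.circleAverage (fun w => ‖g w‖ ^ 2) z s = ‖g z‖ ^ 2 + Real.circleAverage (fun w => ‖g w - g z‖ ^ 2) z s := by
  have har : |s| = s := abs_of_pos hs
  have hsub : sphere z s ⊆ closedBall z s := sphere_subset_closedBall
  have hgc : ContinuousOn g (sphere z s) := hg.continuousOn.mono hsub
  have hd : DiffContOnCl ℂ g (ball z |s|) := by
    rw [har]
    exact DifferentiableOn.diffContOnCl (by rwa [closure_ball z hs.ne'])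
  have hmean : Real.circleAverage g z s = g z := hd.circleAverage
  have hIg : CircleIntegrable g z s := hgc.circleIntegrable hs.le
  set L : ℂ →L[ℝ] ℝ := Complex.reCLM.comp ((ContinuousLinearMap.mul ℂ ℂ ((starRingEnd ℂ) (g z))).restrictScalars ℝ) with hL
  have hLv : ∀ w, L w = ((starRingEnd ℂ) (g z) * w).re := fun w => by
    simp [hL]
  have hlin : Real.circleAverage (fun w => L (g w)) z s = L (g z) := by
    have := L.circleAverage_comp_comm hIg
    rw [hmean] at this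
    exact this
  have hIL : CircleIntegrable (fun w => L (g w)) z s := (L.continuous.comp_continuousOn hgc).circleIntegrable hs.le
  have hIn : CircleIntegrable (fun w => ‖g w - g z‖ ^ 2) z s := ((hgc.sub continuousOn_const).norm.pow 2).circleIntegrable hs.le
  have hpt : (fun w => ‖g w‖ ^ 2) = fun w => ((2 : ℝ) • (L (g w)) + ‖g w - g z‖ ^ 2) + (-‖g z‖ ^ 2) := by
    funext w
    rw [hLv, Complex.sq_norm, Complex.sq_norm, Complex.sq_norm, Complex.normSq_apply, Complex.normSq_apply, Complex.normSq_apply]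
    simp only [Complex.sub_re, Complex.sub_im, Complex.mul_re, Complex.conj_re, Complex.conj_im, smul_eq_mul]
    ring
  have hI1 : CircleIntegrable (fun w => (2 : ℝ) • (L (g w))) z s := hIL.const_fun_smul
  rw [hpt, Real.circleAverage_fun_add (hI1.fun_add hIn) (circleIntegrable_const _ _ _), Real.circleAverage_fun_add hI1 hIn,
    Real.circleAverage_fun_smul, Real.circleAverage_const, hlin, hLv]
  have h1 : ((starRingEnd ℂ) (g z) * g z).re = ‖g z‖ ^ 2 := by
    rw [Complex.sq_norm, Complex.normSq_apply]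
    simp [Complex.mul_re]
  rw [h1, smul_eq_mul]
  ring

theorem avg_nonneg {g : ℂ → ℝ} (hg : ∀ w, 0 ≤ g w) (z : ℂ) (s : ℝ) : 0 ≤ Real.circleAverage g z s := by
  unfold Real.circleAverage
  rw [smul_eq_mul]
  refine mul_nonneg (inv_nonneg.2 (by positivity)) ?_
  exact intervalIntegral.integral_nonneg (by positivity) fun θ _ => hg _

theorem fin_cont (hP : FinM X Λ u D p m C₀) {U : Set ℂ} (hU : IsOpen U) {F : ℂ → EN N} {h : ℂ → Vd (k + 1)} (hF : Cv X Λ u U F h) : ContinuousOn (pf p F) U := by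
  have h1 : ContinuousOn (fun z => (F z, deriv F z)) U :=
    hF.F_diff.continuousOn.prodMk fun z hz => ((hF.F_diff.analyticAt (hU.mem_nhds hz)).deriv.continuousAt).continuousWithinAt
  exact hP.cont.comp h1 fun z hz => ⟨hF.mem z hz, hF.tan hU hz⟩

theorem fin_jensen (hX : IsCone X) (hP : FinM X Λ u D p m C₀) {U : Set ℂ} (hU : IsOpen U) {F : ℂ → EN N} {h : ℂ → Vd (k + 1)} (hF : Cv X Λ u U F h) {z : ℂ} {s : ℝ} (hs : 0 < s)
    (hz : closedBall z s ⊆ U) (h0 : 0 < pf p F z) :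
    CircleIntegrable (fun w => Real.log (pf p F w)) z s ∧
    Real.log (pf p F z) + TT F z s ≤ Real.circleAverage (fun w => Real.log (pf p F w)) z s + C₀ * (k + 1) * Real.circleAverage (fun w => ‖h w - h z‖ ^ 2) z s := by
  have hsub : sphere z s ⊆ closedBall z s := sphere_subset_closedBall
  have hFne : ∀ w ∈ closedBall z s, F w ≠ 0 := fun w hw h => hX.zero_notMem (h ▸ hF.mem w (hz hw))
  obtain ⟨hI, hm⟩ := hP.mean U F h hU hF z s hs hz h0
  have hFc : ContinuousOn F (closedBall z s) := hF.F_diff.continuousOn.mono hz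
  have hhc : ContinuousOn h (closedBall z s) := hF.h_diff.continuousOn.mono hz
  have hhi : ∀ i, ContinuousOn (fun w => h w i) (closedBall z s) := fun i => (continuous_apply i).comp_continuousOn hhc
  have hIF : CircleIntegrable (fun w => Real.log ‖F w‖) z s :=
    ((hFc.norm.log fun w hw => (norm_pos_iff.mpr (hFne w hw)).ne').mono hsub).circleIntegrable hs.le
  have hIi : ∀ i : Fin (k + 1), CircleIntegrable (fun w => ‖h w i‖ ^ 2) z s := fun i => (((hhi i).norm.pow 2).mono hsub).circleIntegrable hs.le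
  have hIW : CircleIntegrable (fun w => ∑ i, ‖h w i‖ ^ 2) z s := CircleIntegrable.fun_sum _ fun i _ => hIi i
  have hICW : CircleIntegrable (fun w => C₀ • ∑ i, ‖h w i‖ ^ 2) z s := hIW.const_fun_smul
  have hIh : CircleIntegrable (fun w => ‖h w - h z‖ ^ 2) z s := (((hhc.sub continuousOn_const).norm.pow 2).mono hsub).circleIntegrable hs.le
  have hIp : CircleIntegrable (fun w => Real.log (pf p F w)) z s := by
    have h1 := (hI.fun_add hIF).fun_sub hICW
    have h2 : (fun w => Real.log (pf p F w) - Real.log ‖F w‖ + C₀ * ∑ i, ‖h w i‖ ^ 2 + Real.log ‖F w‖ - C₀ • ∑ i, ‖h w i‖ ^ 2) = fun w => Real.log (pf p F w) := by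
      funext w
      rw [smul_eq_mul]
      ring
    rwa [h2] at h1
  refine ⟨hIp, ?_⟩
  have hav : Real.circleAverage (fun w => Real.log (pf p F w) - Real.log ‖F w‖ + C₀ * ∑ i, ‖h w i‖ ^ 2) z s =
      Real.circleAverage (fun w => Real.log (pf p F w)) z s - Real.circleAverage (fun w => Real.log ‖F w‖) z s + C₀ * Real.circleAverage (fun w => ∑ i, ‖h w i‖ ^ 2) z s := by
    have h3 : (fun w => Real.log (pf p F w) - Real.log ‖F w‖ + C₀ * ∑ i, ‖h w i‖ ^ 2) =
        fun w => (Real.log (pf p F w) - Real.log ‖F w‖) + C₀ • ∑ i, ‖h w i‖ ^ 2 := by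
      funext w
      rw [smul_eq_mul]
    rw [h3, Real.circleAverage_fun_add (hIp.fun_sub hIF) hICW, Real.circleAverage_fun_sub hIp hIF, Real.circleAverage_fun_smul, smul_eq_mul]
  have hW : Real.circleAverage (fun w => ∑ i, ‖h w i‖ ^ 2) z s ≤ ∑ i, ‖h z i‖ ^ 2 + (k + 1) * Real.circleAverage (fun w => ‖h w - h z‖ ^ 2) z s := by
    rw [Real.circleAverage_fun_sum fun i _ => hIi i]
    have h4 : ∀ i : Fin (k + 1), Real.circleAverage (fun w => ‖h w i‖ ^ 2) z s ≤ ‖h z i‖ ^ 2 + Real.circleAverage (fun w => ‖h w - h z‖ ^ 2) z s := by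
      intro i
      have h5 : DifferentiableOn ℂ (fun w => h w i) (closedBall z s) := fun w hw =>
        (differentiableWithinAt_pi.1 ((hF.h_diff.mono hz) w hw)) i
      rw [cA_sq hs h5]
      have h6 : Real.circleAverage (fun w => ‖h w i - h z i‖ ^ 2) z s ≤ Real.circleAverage (fun w => ‖h w - h z‖ ^ 2) z s := by
        refine Real.circleAverage_mono ((((hhi i).sub continuousOn_const).norm.pow 2).mono hsub |>.circleIntegrable hs.le) hIh fun w _ => ?_
        refine pow_le_pow_left₀ (norm_nonneg _) ?_ 2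
        exact norm_le_pi_norm (h w - h z) i
      linarith
    refine (Finset.sum_le_sum fun i _ => h4 i).trans ?_
    rw [Finset.sum_add_distrib, Finset.sum_const, Finset.card_univ, Fintype.card_fin, nsmul_eq_mul]
    push_cast
    exact le_refl _
  rw [hav] at hm
  have h7 := mul_le_mul_of_nonneg_left hW hP.C_nonneg
  rw [TT]
  have h8 : C₀ * (∑ i, ‖h z i‖ ^ 2 + (k + 1) * Real.circleAverage (fun w => ‖h w - h z‖ ^ 2) z s) =
      C₀ * ∑ i, ‖h z i‖ ^ 2 + C₀ * (k + 1) * Real.circleAverage (fun w => ‖h w - h z‖ ^ 2) z s := by ring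
  rw [h8] at h7
  linarith

theorem ps_of_fin (hX : IsCone X) (hch : Charts (k + 2) X) (hu : TMap X Λ u) (hΛ : Lat Λ) (hP : FinM X Λ u D p m C₀) : ∃ C : ℝ, PS X Λ u D p m C := by
  obtain ⟨C₁, hC₁, h1⟩ := le_fs hX hch hP
  obtain ⟨C₂, hC₂, h2⟩ := du_bound (u := u) hX hu hΛ
  have hfs : ∀ x v : EN N, 0 ≤ fs x v := fun x v => Pool.Agent.H36.BP.fs_nonneg x v
  have hC₀ := hP.C_nonneg
  have hC₃ : 0 ≤ C₀ * (k + 1) := by positivity
  refine ⟨1 + C₁ + C₂ + C₀ * (k + 1), ?_⟩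
  exact
    { m_pos := hP.m_pos
      C_ge := by linarith
      nonneg := hP.nonneg
      hom := fun x hx v hv a => by
        have h3 := hP.hom x hx v hv a 0 1 one_ne_zero
        rwa [one_smul, one_smul, zero_smul, add_zero] at h3
      le_fs := fun x hx v hv => by
        refine (h1 x hx v hv).trans ?_
        exact mul_le_mul_of_nonneg_right (by linarith) (pow_nonneg (hfs x v) m)
      ge_fs := fun δ hδ => ge_fs hX hch hu hP hδ
      du := fun U F h hU hF z hz => by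
        refine (h2 U F h hU hF z hz).trans ?_
        exact mul_le_mul_of_nonneg_right (by linarith) (hfs _ _)
      cont := fun U F h hU hF => fin_cont hP hU hF
      jensen := fun U F h hU hF z s hs hz h0 => by
        obtain ⟨ha, hb⟩ := fin_jensen hX hP hU hF hs hz h0
        refine ⟨ha, hb.trans ?_⟩
        have h3 : 0 ≤ Real.circleAverage (fun w => ‖h w - h z‖ ^ 2) z s := avg_nonneg (fun w => by positivity) z s
        have : C₀ * (k + 1) * Real.circleAverage (fun w => ‖h w - h z‖ ^ 2) z s ≤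
            (1 + C₁ + C₂ + C₀ * (k + 1)) * Real.circleAverage (fun w => ‖h w - h z‖ ^ 2) z s :=
          mul_le_mul_of_nonneg_right (by linarith) h3
        linarith
      isol := hP.isol }

end Pool.Agent.G4.M

end

section

/-!
# G4 F QEx: the form `Q`, any dimension

As `G3/F/QEx`.  `Csf.fin`, `Csf.tr`: the finite group of the permutations of `S` (modulo equality off `D`) gives `M ≥ 1` with `Φ (y + M l) = Φ y` for `y ∉ D`, `l ∈ Λ`, `Φ ∈ S` (as `period` in `Z/LocA`).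
`exists_form_of_sections` with `Γ = M Λ` gives `Q₁`; `Q = Q₁ R` (degree `≥ 1`), `Q ∉ P` (prime).  `c > 0` small: `‖eval x Q‖ ≤ C ‖x‖ ^ e` (`TG.norm_eval_le`; the norm of `EN N` dominates the sup norm).
The function is nowhere locally `0` on the cone because `Q ∉ P` (in a chart: `exists_coneChart`).
-/

set_option autoImplicit false

open Topology Filter Metric MvPolynomial

namespace Pool.Agent.G4

open Pool.Agent.H17 (PN VanishesAt HolomorphicInto puncturedDisc)
open Pool.Agent.H62.FC (Homog)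
open Pool.Agent.H17LG.Variety (FunField IsLogGeneralType)
open Pool.Agent.H17EF (projVar coneE LE mem_coneE mk_mem_projVar)
open Pool.Agent.H36.BP (EN fs wd Sub Curve)
open Pool.Agent.H14.PP (IsCone CurveAt Tan)
open Pool.Agent.H62.EF (MN pr)
open Pool.Agent.AD (Vd Chart Charts uV IsHolomorphicTorusMap)
open Pool.Agent.TG (TMap Lat Geo Gd VForm Fb)
open Pool.Agent.TGF (Cn Over)
open Pool.Agent.G3 (QD exists_form_of_sections)

/-- a common period of the finitely many sections -/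
private theorem period_all {N k : ℕ} {X : Set (EN N)} {Λ : AddSubgroup (Vd (k + 1))} {u : EN N → Vd (k + 1)} {D B : Set (Vd (k + 1))}
    {S : Set (Vd (k + 1) → MN N)} (G : Geo X Λ u D B) (hS : Csf X Λ u D S) :
    ∃ M : ℕ, 1 ≤ M ∧ ∀ Φ ∈ S, ∀ l ∈ Λ, ∀ y ∉ D, Φ (y + M • l) = Φ y := by
  classical
  set T := hS.fin.toFinset with hT
  refine ⟨T.card.factorial, Nat.factorial_pos _, fun Φ hΦ l hl => ?_⟩
  have h1 : ∀ m : ℕ, ∃ f ∈ S, ∀ y ∉ D, f y = Φ (y + m • l) := fun m => hS.tr Φ hΦ (m • l) (Λ.nsmul_mem hl m)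
  choose f hf hfe using h1
  obtain ⟨i, hi, j, hj, hij, hfij⟩ := Finset.exists_ne_map_eq_of_card_lt_of_maps_to (s := Finset.range (T.card + 1)) (t := T) (f := f)
    (by rw [Finset.card_range]; omega) (fun m _ => by rw [hT]; simpa using hf m)
  obtain ⟨m, hm1, hm2, hm⟩ : ∃ m : ℕ, 1 ≤ m ∧ m ≤ T.card ∧ ∀ y ∉ D, Φ (y + m • l) = Φ y := by
    have key : ∀ i j : ℕ, i < j → j ≤ T.card → f i = f j → ∃ m : ℕ, 1 ≤ m ∧ m ≤ T.card ∧ ∀ y ∉ D, Φ (y + m • l) = Φ y := by
      intro i j hij hj hfij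
      refine ⟨j - i, by omega, by omega, fun y hy => ?_⟩
      have hy' : y - i • l ∉ D := by
        intro h
        have h2 := G.D_inv _ h (i • l) (Λ.nsmul_mem hl i)
        rw [sub_add_cancel] at h2
        exact hy h2
      have h2 := hfe i _ hy'
      have h3 := hfe j _ hy'
      rw [hfij, h3] at h2
      rw [sub_add_cancel] at h2
      rw [← h2]
      congr 1
      have e : j = i + (j - i) := by omega
      conv_rhs => rw [e, add_smul]
      abel
    rw [Finset.mem_range] at hi hj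
    rcases lt_or_gt_of_ne hij with h | h
    · exact key i j h (by omega) hfij
    · exact key j i h (by omega) hfij.symm
  obtain ⟨n, hn⟩ := Nat.dvd_factorial hm1 hm2
  have h2 : ∀ t : ℕ, ∀ y ∉ D, Φ (y + (m * t) • l) = Φ y := by
    intro t
    induction t with
    | zero =>
      intro y _
      rw [mul_zero, zero_smul, add_zero]
    | succ t ih =>
      intro y hy
      have hy' : y + (m * t) • l ∉ D := by
        intro h
        exact hy ((G.D_sub (Λ.nsmul_mem hl _)).1 h)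
      rw [mul_add, mul_one, add_smul, ← add_assoc, hm _ hy', ih y hy]
  rw [hn]
  exact h2 n

private theorem vanishes_mk {N : ℕ} {Q : MvPolynomial (Fin (N + 1)) ℂ} {e : ℕ} (hQ : Q.IsHomogeneous e) {x : Fin (N + 1) → ℂ} (hx : x ≠ 0)
    (h : VanishesAt Q (Projectivization.mk ℂ x hx)) : eval x Q = 0 := by
  obtain ⟨a, ha, hrep⟩ := Pool.Agent.H36.BP.rep_mk hx
  unfold VanishesAt at h
  rw [hrep, Pool.Agent.H22.AlgD.eval_smul_form hQ] at h
  exact (mul_eq_zero.1 h).resolve_left (pow_ne_zero _ ha)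

theorem exists_Q {N k : ℕ} {P : Ideal (MvPolynomial (Fin (N + 1)) ℂ)} [P.IsPrime] (hP : Homog P) (hdim : ∃ z : Fin (k + 2) → FunField P, IsTranscendenceBasis ℂ z)
    (hsmooth : Pool.Agent.AD.NC.IsSmooth P (k + 2)) {Λ : AddSubgroup (Cn (k + 1))} {u : PN N → Cn (k + 1) ⧸ Λ} {D B : Set (Cn (k + 1))}
    (G : Geo (coneE P) Λ (uV Λ u) D B) {S : Set (Vd (k + 1) → MN N)} (hS : Csf (coneE P) Λ (uV Λ u) D S)
    (hR : ∃ (e : ℕ) (R : MvPolynomial (Fin (N + 1)) ℂ), R.IsHomogeneous e ∧ R ∉ P ∧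
      ∀ x ∈ projVar P, (∃ y ∈ D, u x = (y : Cn (k + 1) ⧸ Λ)) → VanishesAt R x) :
    ∃ (e : ℕ) (Q : MvPolynomial (Fin (N + 1)) ℂ) (c : ℝ), Q.IsHomogeneous e ∧ Q ∉ P ∧ 0 < c ∧
      QD (coneE P) Λ (uV Λ u) D (fun x => (c : ℂ) * eval ((LE N).symm x) Q) e ∧
      (∀ x ∈ coneE P, ∃ᶠ x' in 𝓝 x, x' ∈ coneE P ∧ (c : ℂ) * eval ((LE N).symm x') Q ≠ 0) ∧
      (∀ Φ ∈ S, ∀ y ∉ D, ∀ x ∈ coneE P, pr x = Φ y → (c : ℂ) * eval ((LE N).symm x) Q = 0) ∧
      ∀ x ∈ projVar P, (∃ y ∈ D, u x = (y : Cn (k + 1) ⧸ Λ)) → VanishesAt Q x := by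
  classical
  obtain ⟨z, hz⟩ := hdim
  obtain ⟨e, R, hRe, hRP, hRv⟩ := hR
  obtain ⟨j₀, hj₀⟩ := Pool.Agent.H92.GT.Proj.exists_coordFun_ne_zero P z hz
  have hXP : ∃ i, (MvPolynomial.X i : MvPolynomial (Fin (N + 1)) ℂ) ∉ P := ⟨j₀, Pool.Agent.H17R.coordFun_ne_zero_iff.1 hj₀⟩
  obtain ⟨M, hM, hMp⟩ := period_all G hS
  obtain ⟨J, Φ, -, hΦ⟩ := hS.fin.fin_param
  have hΦS : ∀ j, Φ j ∈ S := fun j => by rw [← hΦ]; exact ⟨j, rfl⟩
  have hM0 : (0 : ℝ) < M := by exact_mod_cast hM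
  obtain ⟨Γ, hΓ⟩ : ∃ Γ : AddSubgroup (Vd (k + 1)), Γ = Λ.map (nsmulAddMonoidHom (α := Vd (k + 1)) M) := ⟨_, rfl⟩
  have hΓmem : ∀ g : Vd (k + 1), g ∈ Γ → ∃ l ∈ Λ, g = M • l := by
    intro g hg
    rw [hΓ] at hg
    obtain ⟨l, hl, rfl⟩ := hg
    exact ⟨l, hl, rfl⟩
  have hcpt : ∃ r : ℝ, ∀ y : Vd (k + 1), ∃ l ∈ Γ, ‖y - l‖ ≤ r := by
    obtain ⟨r, hr, h⟩ := G.lat.cpt
    refine ⟨M * r, fun y => ?_⟩
    obtain ⟨l, hl, hl'⟩ := h ((M : ℝ)⁻¹ • y)
    refine ⟨M • l, by rw [hΓ]; exact ⟨l, hl, rfl⟩, ?_⟩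
    have e1 : y - M • l = (M : ℝ) • ((M : ℝ)⁻¹ • y - l) := by
      rw [smul_sub, smul_inv_smul₀ hM0.ne']
      congr 1
      exact (Nat.cast_smul_eq_nsmul ℝ M l).symm
    rw [e1, norm_smul, Real.norm_of_nonneg hM0.le]
    exact mul_le_mul_of_nonneg_left hl' hM0.le
  have hinv : ∀ y ∈ D, ∀ l ∈ Γ, y + l ∈ D := by
    intro y hy l hl
    obtain ⟨l', hl', rfl⟩ := hΓmem l hl
    exact G.D_inv y hy _ (Λ.nsmul_mem hl' M)
  have hper : ∀ j, ∀ l ∈ Γ, ∀ y ∉ D, Φ j (y + l) = Φ j y := by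
    intro j l hl y hy
    obtain ⟨l', hl', rfl⟩ := hΓmem l hl
    exact hMp _ (hΦS j) l' hl' y hy
  have hmer : ∀ j, ∀ y₀ : Vd (k + 1), ∃ φ : Vd (k + 1) → EN N, AnalyticAt ℂ φ y₀ ∧ (¬ ∀ᶠ z in 𝓝 y₀, φ z = 0) ∧
      ∀ᶠ z in 𝓝 y₀, z ∉ D → φ z ≠ 0 → Φ j z = pr (φ z) := by
    intro j y₀
    obtain ⟨φ, hφ, hφ0, hφp⟩ := hS.mer _ (hΦS j) y₀
    exact ⟨φ, hφ, fun hcon => hφ0 (hcon.mono fun z hz => not_not.2 hz), hφp⟩
  have hX0 : ∀ x ∈ coneE P, x ≠ 0 := by
    intro x hx h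
    exact hx.1 (by rw [h, map_zero])
  have hhol : ∀ j, ∀ y₀ ∉ D, ∃ φ : Vd (k + 1) → EN N, AnalyticAt ℂ φ y₀ ∧ φ y₀ ≠ 0 ∧ ∀ᶠ z in 𝓝 y₀, Φ j z = pr (φ z) := by
    intro j y₀ hy₀
    obtain ⟨φ, hφ, h⟩ := hS.hol _ (hΦS j) y₀ hy₀
    exact ⟨φ, hφ, hX0 _ h.self_of_nhds.1, h.mono fun z hz => hz.2.1⟩
  obtain ⟨d, Q₁, hd, hQ₁, hQ₁P, hQ₁v⟩ := exists_form_of_sections (n := k + 1) (z := z) hz hXP hcpt G.D_closed hinv G.D_thin hper hmer hhol
  have hQ : (Q₁ * R).IsHomogeneous (d + e) := hQ₁.mul hRe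
  have hQP : Q₁ * R ∉ P := by
    intro h
    rcases Ideal.IsPrime.mem_or_mem inferInstance h with h1 | h1
    · exact hQ₁P h1
    · exact hRP h1
  have hRv' : ∀ x ∈ projVar P, (∃ y ∈ D, u x = (y : Cn (k + 1) ⧸ Λ)) → VanishesAt (Q₁ * R) x := by
    intro x hx hy
    have h := hRv x hx hy
    unfold VanishesAt at *
    rw [map_mul, h, mul_zero]
  obtain ⟨C, hC, hCb⟩ := Pool.Agent.TG.norm_eval_le hQ
  have hc0 : (0 : ℝ) < (C + 1)⁻¹ := inv_pos.2 (by linarith)
  refine ⟨d + e, Q₁ * R, (C + 1)⁻¹, hQ, hQP, hc0, ?_, ?_, ?_, hRv'⟩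
  · refine ⟨by omega, ?_, ?_, ?_, ?_⟩
    · have h1 : Differentiable ℂ fun x : EN N => eval ((LE N).symm x) (Q₁ * R) := by
        intro x
        have h2 : AnalyticAt ℂ (fun y : EN N => eval ((LE N).symm y) (Q₁ * R)) x :=
          Pool.Agent.H22.AlgD.analyticAt_eval (((LE N).symm : EN N →L[ℂ] (Fin (N + 1) → ℂ)).analyticAt x) (Q₁ * R)
        exact h2.differentiableAt
      exact h1.const_mul _
    · intro c x
      show _ * eval ((LE N).symm (c • x)) (Q₁ * R) = _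
      rw [map_smul, Pool.Agent.H22.AlgD.eval_smul_form hQ]
      ring
    · intro x hx
      rw [norm_mul, Complex.norm_real, Real.norm_of_nonneg hc0.le]
      have h1 := hCb ((LE N).symm x)
      have h2 : ‖(LE N).symm x‖ ≤ ‖x‖ := Pool.Agent.H22.WL.norm_ofLp_le x
      have h3 : ‖eval ((LE N).symm x) (Q₁ * R)‖ ≤ (C + 1) * ‖x‖ ^ (d + e) := by
        refine h1.trans (mul_le_mul (by linarith) (pow_le_pow_left₀ (norm_nonneg _) h2 _) (by positivity) (by linarith))
      calc (C + 1)⁻¹ * ‖eval ((LE N).symm x) (Q₁ * R)‖ ≤ (C + 1)⁻¹ * ((C + 1) * ‖x‖ ^ (d + e)) := mul_le_mul_of_nonneg_left h3 hc0.le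
        _ = ‖x‖ ^ (d + e) := by
          rw [← mul_assoc, inv_mul_cancel₀ (by linarith), one_mul]
    · intro x hx y hy hxy
      obtain ⟨h1, h2⟩ := (mem_coneE hP).1 hx
      have h3 : u (Projectivization.mk ℂ ((LE N).symm x) h1) = (y : Cn (k + 1) ⧸ Λ) := by
        rw [← Pool.Agent.AD.uV_eq Λ u h1]
        exact Pool.Agent.AD.sub_mem_iff.1 hxy
      show _ * eval ((LE N).symm x) (Q₁ * R) = 0
      rw [vanishes_mk hQ h1 (hRv' _ h2 ⟨y, hy, h3⟩), mul_zero]
  · intro x hx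
    obtain ⟨l, hl⟩ : ∃ l, (LE N).symm x l ≠ 0 := by
      by_contra h
      push Not at h
      exact hx.1 (funext h)
    obtain ⟨I, σ, h1, h2, h3, -, h5⟩ := Pool.Agent.H13.SM.exists_coneChart hP (n := k + 2) hz hsmooth hx.2 hl
    have h6 := h5 _ _ hQ hQP
    have ht : Tendsto (fun w => (LE N) (σ w)) (𝓝 0) (𝓝 x) := by
      have h7 : Tendsto (fun w => (LE N) (σ w)) (𝓝 0) (𝓝 ((LE N) (σ 0))) := (LE N).continuous.continuousAt.tendsto.comp h1.continuousAt.tendsto
      rwa [h2, ContinuousLinearEquiv.apply_symm_apply] at h7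
    refine ht.frequently ?_
    refine (Filter.not_eventually.1 h6 |>.and_eventually h3).mono ?_
    rintro w ⟨hw1, hw2, hw3, -⟩
    have e1 : (LE N).symm ((LE N) (σ w)) = σ w := (LE N).symm_apply_apply _
    refine ⟨⟨?_, ?_⟩, ?_⟩
    · rw [e1]
      intro h
      apply hl
      rw [← hw3, h]
      rfl
    · intro Q hQ
      rw [e1]
      exact hw2 Q hQ
    · rw [e1]
      exact mul_ne_zero (by exact_mod_cast hc0.ne') hw1
  · intro Ψ hΨ y hy x hx hxy
    obtain ⟨j, rfl⟩ : ∃ j, Φ j = Ψ := by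
      rw [← hΦ] at hΨ
      exact hΨ
    rw [map_mul, hQ₁v j y hy x (hX0 x hx) hxy, zero_mul, mul_zero]

end Pool.Agent.G4

end
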