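import Pool.Agent.H94.G5T.M27
import Pool.Agent.H94.G5T.M41
import Pool.Agent.H94.G5T.M60
import Pool.Agent.H94.G5T.M84
import Pool.Agent.H94.G5T.M97

/-! The parts of this file: G3.R.LamI, G3.R.K2. -/

section

/-!
# G3 R LamI: the mean of the functional

`lam_int`: `Lq ∘ F` is circle integrable (`lq_mean`, `Z/Mean`).  `Np`: at the points of the circle with `p > 0` (all but finitely many, `hP.isol`): `0 ≤ Np ≤ K - log p`, `K` a bound of
`m log (Mf / ε)` or `0` on the circle (`Np = max (m log ‖h'‖, log p) - log p`, `log p ≤ m log (Mf / ε)`), `log p` is circle integrable (`hP.jensen`), and `Np` is measurable on the circle.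

`lam_mean`: pointwise (a.e.) `Np ≤ m log Mf + m log (1/ε) - log p ≤ (m/2) Mf² + m log (1/ε) - log p`; `hP.jensen` gives `- avg log p ≤ - log p (0) - TT + C avg ‖h - h 0‖²`, `lq_mean` gives the term `+ d TT`, and
`- log p (0) ≤ Np 0` because `Mf 0 = 1` (if `‖h' 0‖ = 1` it is the definition; otherwise `ε p (0) ^ (1/m) = 1`, so `p (0) ≥ 1`).

`tt_mean`: here `p (0) = ε ^ (-m)`; `log p ≤ (m/2) Mf² - m log ε` everywhere on the circle (at zeros of `p` Lean has `log 0 = 0`), `hP.jensen`.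
-/

set_option autoImplicit false

open Topology Filter Metric

namespace Pool.Agent.G3

open Pool.Agent.H36.BP (EN fs wd Sub)
open Pool.Agent.H14.PP (IsCone CurveAt Tan)
open Pool.Agent.H62.EF (MN pr)
open Pool.Agent.AD (Vd Chart Charts)
open Pool.Agent.TG (TMap Lat Geo Gd)

variable {N k : ℕ} {X : Set (EN N)} {Λ : AddSubgroup (Vd (k + 1))} {u : EN N → Vd (k + 1)} {D : Set (Vd (k + 1))} {p : EN N → EN N → ℝ} {m d : ℕ} {C : ℝ} {Q : EN N → ℂ}

/-- the maximum of `0` and a circle integrable function -/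
private theorem LamI_max {g : ℂ → ℝ} {r : ℝ} (hg : CircleIntegrable g 0 r) : CircleIntegrable (fun w => max 0 (g w)) 0 r := by
  have h1 : (fun w => max 0 (g w)) = (1 / 2 : ℝ) • (g + |g|) := by
    funext w
    simp only [Pi.smul_apply, Pi.add_apply, Pi.abs_apply, smul_eq_mul]
    rcases le_total 0 (g w) with h | h
    · rw [max_eq_right h, abs_of_nonneg h]; ring
    · rw [max_eq_left h, abs_of_nonpos h]; ring
  rw [h1]
  exact (hg.add hg.abs).const_smul

/-- almost everywhere on the circle `p > 0` -/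
private theorem LamI_ae (hP : PS X Λ u D p m C) {R r : ℝ} (hr : 0 < r) (hR : r < R) {F : ℂ → EN N} {h : ℂ → Vd (k + 1)}
    (hF : Cv X Λ u (ball 0 R) F h) (hp0 : 0 < pf p F 0) : {w | 0 < pf p F w} ∈ codiscreteWithin (sphere (0 : ℂ) |r|) := by
  have hs : sphere (0 : ℂ) r ⊆ ball 0 R := sphere_subset_closedBall.trans (closedBall_subset_ball hR)
  rw [mem_codiscreteWithin_iff_forall_mem_nhdsNE]
  intro z hz
  rw [abs_of_pos hr] at hz
  have h1 := hP.isol _ F h isOpen_ball hF (convex_ball 0 R).isPreconnected ⟨0, mem_ball_self (hr.trans hR), hp0⟩ z (hs hz)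
  filter_upwards [h1] with w hw
  exact Or.inl hw

private theorem LamI_sph (r : ℝ) : sphere (0 : ℂ) |r| ∈ codiscreteWithin (sphere (0 : ℂ) |r|) := by
  rw [mem_codiscreteWithin_iff_forall_mem_nhdsNE]
  intro z _
  simp

/-- `Np` is circle integrable -/
private theorem LamI_np (hP : PS X Λ u D p m C) {R r : ℝ} (hr : 0 < r) (hR : r < R) {F : ℂ → EN N} {h : ℂ → Vd (k + 1)}
    (hF : Cv X Λ u (ball 0 R) F h) (hp0 : 0 < pf p F 0) : CircleIntegrable (Np p m F h) 0 r := by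
  have hU : IsOpen (ball (0 : ℂ) R) := isOpen_ball
  have hcb : closedBall (0 : ℂ) r ⊆ ball 0 R := closedBall_subset_ball hR
  have hs : sphere (0 : ℂ) r ⊆ ball 0 R := sphere_subset_closedBall.trans hcb
  have hr' : |r| = r := abs_of_pos hr
  have hm : m ≠ 0 := by
    have := hP.m_pos
    omega
  obtain ⟨hj1, -⟩ := hP.jensen _ F h hU hF 0 r hr hcb hp0
  have hdh : DifferentiableOn ℂ (deriv h) (ball 0 R) := hF.h_diff.deriv hU
  have han : AnalyticOnNhd ℂ (deriv h) (ball 0 R) := fun z hz => hdh.analyticAt (hU.mem_nhds hz)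
  by_cases hz : ∀ z ∈ ball (0 : ℂ) R, deriv h z = 0
  · have hEq : (fun _ : ℂ => (0 : ℝ)) =ᶠ[codiscreteWithin (sphere (0 : ℂ) |r|)] Np p m F h := by
      filter_upwards [LamI_sph r] with w hws
      rw [hr'] at hws
      simp [Np, hz w (hs hws), hm]
    exact (circleIntegrable_const (0 : ℝ) 0 r).congr_codiscreteWithin hEq
  · push Not at hz
    obtain ⟨z₁, hz₁, hne₁⟩ := hz
    have hi1 : CircleIntegrable (fun w => Real.log ‖deriv h w‖) 0 r := by
      apply MeromorphicOn.circleIntegrable_log_norm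
      rw [hr']
      exact fun z hz => (han z (hs hz)).meromorphicAt
    set g : ℂ → ℝ := fun w => (m : ℝ) • Real.log ‖deriv h w‖ - Real.log (pf p F w) with hg
    have hig : CircleIntegrable g 0 r := (hi1.const_smul (a := (m : ℝ))).sub hj1
    have hv : {w | deriv h w ≠ 0} ∈ codiscreteWithin (sphere (0 : ℂ) |r|) := by
      rw [mem_codiscreteWithin_iff_forall_mem_nhdsNE]
      intro z hz
      rw [hr'] at hz
      rcases (han z (hs hz)).eventually_eq_zero_or_eventually_ne_zero with h1 | h1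
      · exfalso
        exact hne₁ (han.eqOn_zero_of_preconnected_of_eventuallyEq_zero (convex_ball 0 R).isPreconnected (hs hz) h1 hz₁)
      · filter_upwards [h1] with w hw
        exact Or.inl hw
    have hEq : (fun w => max 0 (g w)) =ᶠ[codiscreteWithin (sphere (0 : ℂ) |r|)] Np p m F h := by
      filter_upwards [LamI_ae hP hr hR hF hp0, hv] with w hw hvw
      have hvw' : 0 < ‖deriv h w‖ := norm_pos_iff.2 hvw
      have h1 : Real.log (pf p F w / ‖deriv h w‖ ^ m) = Real.log (pf p F w) - m * Real.log ‖deriv h w‖ := by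
        rw [Real.log_div (ne_of_gt hw) (pow_ne_zero _ hvw'.ne'), Real.log_pow]
      simp only [Np, h1, hg, smul_eq_mul, neg_sub]
    exact (LamI_max hig).congr_codiscreteWithin hEq

theorem lam_int (hX : IsCone X) (hP : PS X Λ u D p m C) (hQ : QD X Λ u D Q d) {R r : ℝ} (hr : 0 < r) (hR : r < R) {F : ℂ → EN N} {h : ℂ → Vd (k + 1)}
    (hF : Cv X Λ u (ball 0 R) F h) (h0 : Ok Q p F 0) : CircleIntegrable (Lam Q d p m F h) 0 r := by
  have hcb : closedBall (0 : ℂ) r ⊆ ball 0 R := closedBall_subset_ball hR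
  obtain ⟨hlq1, -⟩ := lq_mean isOpen_ball hX hF hQ hr hcb h0.1
  have heq : Lam Q d p m F h = fun w => Lq Q d (F w) + (d : ℝ) • Np p m F h w := by
    funext w
    simp [Lam]
  rw [heq]
  exact hlq1.add (LamI_np hP hr hR hF h0.2).const_smul

/-- the bound of `log p` by `Mf` -/
private theorem LamI_logp {ε : ℝ} (hε : 0 < ε) (hm : m ≠ 0) {F : ℂ → EN N} {h : ℂ → Vd (k + 1)} {w : ℂ} (hpw : 0 < pf p F w) :
    0 < Mf p m ε F h w ∧ Real.log (pf p F w) ≤ m * Real.log (Mf p m ε F h w) - m * Real.log ε := by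
  have hm0 : (m : ℝ) ≠ 0 := Nat.cast_ne_zero.2 hm
  have h1 : 0 < pf p F w ^ (1 / (m : ℝ)) := Real.rpow_pos_of_pos hpw _
  have h2 : ε * pf p F w ^ (1 / (m : ℝ)) ≤ Mf p m ε F h w := le_max_right _ _
  have h3 : 0 < ε * pf p F w ^ (1 / (m : ℝ)) := mul_pos hε h1
  refine ⟨h3.trans_le h2, ?_⟩
  have h4 : Real.log (ε * pf p F w ^ (1 / (m : ℝ))) ≤ Real.log (Mf p m ε F h w) := Real.log_le_log h3 h2
  rw [Real.log_mul hε.ne' h1.ne', Real.log_rpow hpw] at h4
  have h5 := mul_le_mul_of_nonneg_left h4 (Nat.cast_nonneg m : (0 : ℝ) ≤ m)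
  have h6 : (m : ℝ) * (Real.log ε + 1 / (m : ℝ) * Real.log (pf p F w)) = m * Real.log ε + Real.log (pf p F w) := by
    field_simp
  linarith only [h5, h6]

private theorem LamI_logsq {x : ℝ} (hx : 0 < x) : Real.log x ≤ x ^ 2 / 2 := by
  have h1 := Real.log_le_sub_one_of_pos (pow_pos hx 2)
  rw [Real.log_pow] at h1
  push_cast at h1
  linarith only [h1]

/-- the mean of `Np` -/
private theorem LamI_npmean (hP : PS X Λ u D p m C) {ε : ℝ} (hε : 0 < ε) (hε1 : ε ≤ 1) {R r : ℝ} (hr : 0 < r) (hR : r < R) {F : ℂ → EN N} {h : ℂ → Vd (k + 1)}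
    (hF : Cv X Λ u (ball 0 R) F h) (hp0 : 0 < pf p F 0) : Real.circleAverage (Np p m F h) 0 r ≤
      (m / 2 : ℝ) * Real.circleAverage (fun z => Mf p m ε F h z ^ 2) 0 r - m * Real.log ε - Real.circleAverage (fun w => Real.log (pf p F w)) 0 r := by
  classical
  have hU : IsOpen (ball (0 : ℂ) R) := isOpen_ball
  have hcb : closedBall (0 : ℂ) r ⊆ ball 0 R := closedBall_subset_ball hR
  have hs : sphere (0 : ℂ) r ⊆ ball 0 R := sphere_subset_closedBall.trans hcb
  have hr' : |r| = r := abs_of_pos hr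
  have hm : m ≠ 0 := by
    have := hP.m_pos
    omega
  have hm0 : (0 : ℝ) ≤ m := Nat.cast_nonneg m
  have hlε : Real.log ε ≤ 0 := Real.log_nonpos hε.le hε1
  obtain ⟨hj1, -⟩ := hP.jensen _ F h hU hF 0 r hr hcb hp0
  have hNp := LamI_np hP hr hR hF hp0
  have hMi : CircleIntegrable (fun z => Mf p m ε F h z ^ 2) 0 r :=
    (((mf_cont hP hU hF ε).mono hs).pow 2).circleIntegrable hr.le
  have hMi2 : CircleIntegrable (fun z => (m / 2 : ℝ) • Mf p m ε F h z ^ 2) 0 r := hMi.const_smul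
  set b : ℂ → ℝ := fun w => ((m / 2 : ℝ) • Mf p m ε F h w ^ 2 - m * Real.log ε) - Real.log (pf p F w) with hb
  have hib1 : CircleIntegrable (fun w => (m / 2 : ℝ) • Mf p m ε F h w ^ 2 - m * Real.log ε) 0 r := hMi2.sub (circleIntegrable_const _ 0 r)
  have hib : CircleIntegrable b 0 r := hib1.sub hj1
  have hbav : Real.circleAverage b 0 r =
      (m / 2 : ℝ) * Real.circleAverage (fun z => Mf p m ε F h z ^ 2) 0 r - m * Real.log ε - Real.circleAverage (fun w => Real.log (pf p F w)) 0 r := by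
    rw [hb, Real.circleAverage_fun_sub hib1 hj1, Real.circleAverage_fun_sub hMi2 (circleIntegrable_const _ 0 r), Real.circleAverage_const,
      Real.circleAverage_fun_smul, smul_eq_mul]
  rw [← hbav]
  set g' : ℂ → ℝ := fun w => if 0 < pf p F w then Np p m F h w else b w with hg'
  have hEq' : Np p m F h =ᶠ[codiscreteWithin (sphere (0 : ℂ) |r|)] g' := by
    filter_upwards [LamI_ae hP hr hR hF hp0] with w hw
    simp only [hg']
    rw [if_pos hw]
  rw [Real.circleAverage_congr_codiscreteWithin hEq' hr.ne']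
  refine Real.circleAverage_mono (hNp.congr_codiscreteWithin hEq') hib ?_
  intro w hw
  rw [hr'] at hw
  simp only [hg']
  split_ifs with hpw
  · obtain ⟨hM, hl⟩ := LamI_logp (h := h) hε hm hpw
    have h1 : (m : ℝ) * Real.log (Mf p m ε F h w) ≤ m * (Mf p m ε F h w ^ 2 / 2) := mul_le_mul_of_nonneg_left (LamI_logsq hM) hm0
    have h2 : (m : ℝ) * Real.log ε ≤ 0 := mul_nonpos_of_nonneg_of_nonpos hm0 hlε
    unfold Np
    apply max_le
    · simp only [hb, smul_eq_mul]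
      linarith only [hl, h1]
    · by_cases hv : deriv h w = 0
      · rw [hv, norm_zero, zero_pow hm, div_zero, Real.log_zero, neg_zero]
        simp only [hb, smul_eq_mul]
        linarith only [hl, h1]
      · have hvw' : 0 < ‖deriv h w‖ := norm_pos_iff.2 hv
        rw [Real.log_div hpw.ne' (pow_ne_zero _ hvw'.ne'), Real.log_pow]
        have h3 : Real.log ‖deriv h w‖ ≤ Real.log (Mf p m ε F h w) := Real.log_le_log hvw' (le_max_left _ _)
        have h4 := mul_le_mul_of_nonneg_left h3 hm0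
        simp only [hb, smul_eq_mul]
        linarith only [h1, h2, h4]
  · exact le_rfl

/-- the value at the centre if `‖h' 0‖ ≠ 1` -/
private theorem LamI_cen {ε : ℝ} (hε : 0 < ε) (hm : m ≠ 0) {F : ℂ → EN N} {h : ℂ → Vd (k + 1)} (hp0 : 0 < pf p F 0)
    (h1 : ε * pf p F 0 ^ (1 / (m : ℝ)) = 1) : Real.log (pf p F 0) = -(m * Real.log ε) := by
  have hm0 : (m : ℝ) ≠ 0 := Nat.cast_ne_zero.2 hm
  have h2 : 0 < pf p F 0 ^ (1 / (m : ℝ)) := Real.rpow_pos_of_pos hp0 _
  have h3 := congrArg Real.log h1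
  rw [Real.log_mul hε.ne' h2.ne', Real.log_rpow hp0, Real.log_one] at h3
  have h4 : (m : ℝ) * (Real.log ε + 1 / (m : ℝ) * Real.log (pf p F 0)) = m * Real.log ε + Real.log (pf p F 0) := by
    field_simp
  rw [h3, mul_zero] at h4
  linarith only [h4]

theorem lam_mean (hX : IsCone X) (hP : PS X Λ u D p m C) (hQ : QD X Λ u D Q d) {ε : ℝ} (hε : 0 < ε) (hε1 : ε ≤ 1) : ∃ C₅ : ℝ, 0 < C₅ ∧
    ∀ (R r : ℝ) (F : ℂ → EN N) (h : ℂ → Vd (k + 1)), 0 < r → r < R → Cv X Λ u (ball 0 R) F h → Ok Q p F 0 → Mf p m ε F h 0 = 1 →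
      Real.circleAverage (Lam Q d p m F h) 0 r ≤ Lam Q d p m F h 0 +
        C₅ * (1 + Real.circleAverage (fun z => Mf p m ε F h z ^ 2) 0 r + Real.circleAverage (fun z => ‖h z - h 0‖ ^ 2) 0 r) := by
  have hm : m ≠ 0 := by
    have := hP.m_pos
    omega
  have hm0 : (0 : ℝ) ≤ m := Nat.cast_nonneg m
  have hd0 : (0 : ℝ) ≤ d := Nat.cast_nonneg d
  have hC0 : 0 ≤ C := by linarith [hP.C_ge]
  have hlε : Real.log ε ≤ 0 := Real.log_nonpos hε.le hε1
  have hme : 0 ≤ -(m * Real.log ε) := by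
    have := mul_nonpos_of_nonneg_of_nonpos hm0 hlε
    linarith
  refine ⟨d * (m / 2 + -(m * Real.log ε) + C) + 1, by positivity, ?_⟩
  intro R r F h hr hR hF hOk hM1
  have hcb : closedBall (0 : ℂ) r ⊆ ball 0 R := closedBall_subset_ball hR
  obtain ⟨hQ0, hp0⟩ := hOk
  obtain ⟨hlq1, hlq2⟩ := lq_mean isOpen_ball hX hF hQ hr hcb hQ0
  obtain ⟨hj1, hj2⟩ := hP.jensen _ F h isOpen_ball hF 0 r hr hcb hp0
  have hNp := LamI_np hP hr hR hF hp0
  have hav := LamI_npmean hP hε hε1 hr hR hF hp0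
  -- the centre
  have hcen : -Real.log (pf p F 0) ≤ Np p m F h 0 := by
    rcases max_choice ‖deriv h 0‖ (ε * pf p F 0 ^ (1 / (m : ℝ))) with h1 | h1
    · have h2 : ‖deriv h 0‖ = 1 := by
        rw [← h1]
        exact hM1
      unfold Np
      rw [h2, one_pow, div_one]
      exact le_max_right _ _
    · have h2 : ε * pf p F 0 ^ (1 / (m : ℝ)) = 1 := by
        rw [← h1]
        exact hM1
      have h3 := LamI_cen (F := F) (h := h) hε hm hp0 h2
      have h4 : 0 ≤ Np p m F h 0 := le_max_left _ _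
      linarith only [hme, h3, h4]
  have heq : Lam Q d p m F h = fun w => Lq Q d (F w) + (d : ℝ) • Np p m F h w := by
    funext w
    simp [Lam]
  have hiN : CircleIntegrable (fun w => (d : ℝ) • Np p m F h w) 0 r := hNp.const_smul
  have hA : 0 ≤ Real.circleAverage (fun z => Mf p m ε F h z ^ 2) 0 r :=
    Real.circleAverage_nonneg_of_nonneg fun z _ => sq_nonneg _
  have hB : 0 ≤ Real.circleAverage (fun z => ‖h z - h 0‖ ^ 2) 0 r :=
    Real.circleAverage_nonneg_of_nonneg fun z _ => sq_nonneg _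
  rw [heq, Real.circleAverage_fun_add hlq1 hiN, Real.circleAverage_fun_smul]
  simp only [smul_eq_mul]
  set A := Real.circleAverage (fun z => Mf p m ε F h z ^ 2) 0 r
  set B := Real.circleAverage (fun z => ‖h z - h 0‖ ^ 2) 0 r
  have h5 : Real.circleAverage (Np p m F h) 0 r ≤ Np p m F h 0 + ((m / 2 : ℝ) * A + -(m * Real.log ε) + C * B) - TT F 0 r := by
    linarith only [hcen, hav, hj2]
  have h6 := mul_le_mul_of_nonneg_left h5 hd0
  have h7 : (d : ℝ) * ((m / 2 : ℝ) * A + -(m * Real.log ε) + C * B) ≤ (d * (m / 2 + -(m * Real.log ε) + C) + 1) * (1 + A + B) := by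
    have e1 : 0 ≤ (d : ℝ) * (m / 2) := by positivity
    have e2 : 0 ≤ (d : ℝ) * -(m * Real.log ε) := mul_nonneg hd0 hme
    have e3 : 0 ≤ (d : ℝ) * C := mul_nonneg hd0 hC0
    nlinarith only [hA, hB, e1, e3, e2, mul_nonneg e1 hA, mul_nonneg e1 hB, mul_nonneg e2 hA, mul_nonneg e2 hB, mul_nonneg e3 hA, mul_nonneg e3 hB]
  nlinarith only [h6, h7, hlq2]

theorem tt_mean (hX : IsCone X) (hP : PS X Λ u D p m C) {ε : ℝ} (hε : 0 < ε) (hε1 : ε ≤ 1) {R r : ℝ} (hr : 0 < r) (hR : r < R) {F : ℂ → EN N} {h : ℂ → Vd (k + 1)}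
    (hF : Cv X Λ u (ball 0 R) F h) (h0 : 0 < pf p F 0) (h1 : Mf p m ε F h 0 = 1) (hh : ‖deriv h 0‖ < 1) :
    TT F 0 r ≤ (m / 2 : ℝ) * Real.circleAverage (fun z => Mf p m ε F h z ^ 2) 0 r + C * Real.circleAverage (fun z => ‖h z - h 0‖ ^ 2) 0 r := by
  have hU : IsOpen (ball (0 : ℂ) R) := isOpen_ball
  have hcb : closedBall (0 : ℂ) r ⊆ ball 0 R := closedBall_subset_ball hR
  have hs : sphere (0 : ℂ) r ⊆ ball 0 R := sphere_subset_closedBall.trans hcb
  have hr' : |r| = r := abs_of_pos hr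
  have hm : m ≠ 0 := by
    have := hP.m_pos
    omega
  have hm0 : (0 : ℝ) ≤ m := Nat.cast_nonneg m
  have hlε : Real.log ε ≤ 0 := Real.log_nonpos hε.le hε1
  have hme := mul_nonpos_of_nonneg_of_nonpos hm0 hlε
  obtain ⟨hj1, hj2⟩ := hP.jensen _ F h hU hF 0 r hr hcb h0
  have hc : ε * pf p F 0 ^ (1 / (m : ℝ)) = 1 := by
    rcases max_choice ‖deriv h 0‖ (ε * pf p F 0 ^ (1 / (m : ℝ))) with h2 | h2
    · exfalso
      have h3 : ‖deriv h 0‖ = 1 := by
        rw [← h2]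
        exact h1
      linarith only [hh, h3]
    · rw [← h2]
      exact h1
  have hlog := LamI_cen (F := F) (h := h) hε hm h0 hc
  have hMi : CircleIntegrable (fun z => Mf p m ε F h z ^ 2) 0 r :=
    (((mf_cont hP hU hF ε).mono hs).pow 2).circleIntegrable hr.le
  have hMi2 : CircleIntegrable (fun z => (m / 2 : ℝ) • Mf p m ε F h z ^ 2) 0 r := hMi.const_smul
  have hle : Real.circleAverage (fun w => Real.log (pf p F w)) 0 r ≤
      (m / 2 : ℝ) * Real.circleAverage (fun z => Mf p m ε F h z ^ 2) 0 r - m * Real.log ε := by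
    have h2 : Real.circleAverage (fun w => (m / 2 : ℝ) • Mf p m ε F h w ^ 2 - m * Real.log ε) 0 r =
        (m / 2 : ℝ) * Real.circleAverage (fun z => Mf p m ε F h z ^ 2) 0 r - m * Real.log ε := by
      rw [Real.circleAverage_fun_sub hMi2 (circleIntegrable_const _ 0 r), Real.circleAverage_const, Real.circleAverage_fun_smul, smul_eq_mul]
    rw [← h2]
    refine Real.circleAverage_mono hj1 (hMi2.sub (circleIntegrable_const _ 0 r)) ?_
    intro w hw
    rw [hr'] at hw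
    simp only [smul_eq_mul]
    by_cases hpw : 0 < pf p F w
    · obtain ⟨hM, hl⟩ := LamI_logp (h := h) hε hm hpw
      have h3 : (m : ℝ) * Real.log (Mf p m ε F h w) ≤ m * (Mf p m ε F h w ^ 2 / 2) := mul_le_mul_of_nonneg_left (LamI_logsq hM) hm0
      linarith only [hl, h3]
    · have h3 : pf p F w = 0 := le_antisymm (not_lt.1 hpw) (hP.nonneg _ _)
      rw [h3, Real.log_zero]
      have h4 : 0 ≤ (m / 2 : ℝ) * Mf p m ε F h w ^ 2 := by positivity
      linarith only [hme, h4]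
  linarith only [hj2, hlog, hle]

end Pool.Agent.G3

end

section

/-!
# G3 R K2: bounds for normalised curves

`nrm_mean`.  Let `B = A + Lam 0`, `T` = average of `Mf²`, `S` = average of `‖h - h 0‖²`.  At the `Ok` points of the circle (all but finitely many) `Mf² ≤ (1 - r²/R²)⁻² (A + Lam) / B ≤ (16/9) (A + Lam) / B`, so
(`lam_mean`) `T ≤ (16/9) (1 + (C₅/B) (1 + T + S))` and `S ≤ (k+1) r² T` (`sq_mean`, `‖h'‖ ≤ Mf`).  If `C₅ (k + 1) (1 + r²) / B ≤ 1/16` then `T ≤ 4` (note `16/9 * (1 + 1/16) = 17/9 < 2`).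

`nrm_one`.  If `‖h' 0‖ < 1` then `ε p (0) ^ (1/m) = 1`, so `fs (F 0) (F' 0) ≥ 1 / (ε C ^ (1/m)) ≥ 1 / (ε C)` (`hP.le_fs`), and `fs ≤ exp (TT F 0 1) ≤ exp (2 m + 4 C (k + 1))` by `fs_le_TT`, `tt_mean` with `r = 1` and
`nrm_mean`.  Choose `ε` small (before `κ`, which depends on `ε`).
-/

set_option autoImplicit false

open Topology Filter Metric

namespace Pool.Agent.G3

open Pool.Agent.H36.BP (EN fs wd Sub)
open Pool.Agent.H14.PP (IsCone CurveAt Tan)
open Pool.Agent.H62.EF (MN pr)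
open Pool.Agent.AD (Vd Chart Charts)
open Pool.Agent.TG (TMap Lat Geo Gd)

variable {N k : ℕ} {X : Set (EN N)} {Λ : AddSubgroup (Vd (k + 1))} {u : EN N → Vd (k + 1)} {D : Set (Vd (k + 1))} {p : EN N → EN N → ℝ} {m d : ℕ} {C : ℝ} {Q : EN N → ℂ}

/-- almost all points of a circle are not degenerate -/
private theorem K2_ae (hP : PS X Λ u D p m C) (hQ : QD X Λ u D Q d) {R r : ℝ} (hr : 0 < r) (hR : r < R) {F : ℂ → EN N} {h : ℂ → Vd (k + 1)}
    (hF : Cv X Λ u (ball 0 R) F h) (h0 : Ok Q p F 0) : {w | Ok Q p F w} ∈ codiscreteWithin (sphere (0 : ℂ) |r|) := by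
  have h0m : (0 : ℂ) ∈ ball (0 : ℂ) R := mem_ball_self (hr.trans hR)
  rw [mem_codiscreteWithin_iff_forall_mem_nhdsNE]
  intro z hz
  rw [abs_of_pos hr] at hz
  have hzb : z ∈ ball (0 : ℂ) R := closedBall_subset_ball hR (sphere_subset_closedBall hz)
  have h1 := hP.isol _ F h isOpen_ball hF (convex_ball 0 R).isPreconnected ⟨0, h0m, h0.2⟩ z hzb
  have hdiff : DifferentiableOn ℂ (fun w => Q (F w)) (ball 0 R) := hQ.diff.comp_differentiableOn hF.F_diff
  have han : AnalyticOnNhd ℂ (fun w => Q (F w)) (ball 0 R) := hdiff.analyticOnNhd isOpen_ball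
  have h2 : ∀ᶠ w in 𝓝[≠] z, Q (F w) ≠ 0 := by
    by_contra hcon
    have hfr : ∃ᶠ w in 𝓝[≠] z, Q (F w) = 0 := fun hev => hcon (hev.mono fun w hw => hw)
    exact h0.1 (han.eqOn_zero_of_preconnected_of_frequently_eq_zero (convex_ball (0 : ℂ) R).isPreconnected hzb hfr h0m)
  filter_upwards [h1, h2] with w hw1 hw2
  exact Or.inl ⟨hw2, hw1⟩

/-- a bound at almost all points of the circle gives a bound of the averages -/
private theorem K2_mono {f g : ℂ → ℝ} {r : ℝ} (hr : 0 < r) (hf : CircleIntegrable f 0 r) (hg : CircleIntegrable g 0 r) {T : Set ℂ}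
    (hT : T ∈ codiscreteWithin (sphere (0 : ℂ) |r|)) (hle : ∀ w ∈ sphere (0 : ℂ) r, w ∈ T → f w ≤ g w) : Real.circleAverage f 0 r ≤ Real.circleAverage g 0 r := by
  classical
  have hEq : f =ᶠ[codiscreteWithin (sphere (0 : ℂ) |r|)] fun w => if w ∈ T then f w else g w := by
    filter_upwards [hT] with w hw
    rw [if_pos hw]
  rw [Real.circleAverage_congr_codiscreteWithin hEq hr.ne']
  refine Real.circleAverage_mono (hf.congr_codiscreteWithin hEq) hg ?_
  intro w hw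
  rw [abs_of_pos hr] at hw
  split_ifs with hwT
  · exact hle w hw hwT
  · exact le_rfl

theorem nrm_mean (hX : IsCone X) (hP : PS X Λ u D p m C) (hQ : QD X Λ u D Q d) {ε : ℝ} (hε : 0 < ε) (hε1 : ε ≤ 1) : ∃ κ : ℝ, 0 < κ ∧
    ∀ (A R : ℝ) (F : ℂ → EN N) (h : ℂ → Vd (k + 1)), Nrm X Λ u Q d p m ε A R F h → ∀ r : ℝ, 0 < r → 4 * r ^ 2 ≤ R ^ 2 → 1 + r ^ 2 ≤ κ * (A + Lam Q d p m F h 0) →
      Real.circleAverage (fun z => Mf p m ε F h z ^ 2) 0 r ≤ 4 ∧ Real.circleAverage (fun z => ‖h z - h 0‖ ^ 2) 0 r ≤ 4 * (k + 1) * r ^ 2 ∧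
      Real.circleAverage (fun z => ‖deriv h z‖ ^ 2) 0 r ≤ 4 := by
  obtain ⟨C₅, hC₅, hlam⟩ := lam_mean hX hP hQ hε hε1
  refine ⟨1 / (16 * (C₅ * (k + 1))), by positivity, ?_⟩
  intro A R F h hN r hr hrR hB
  have hR0 : 0 < R := hN.R_pos
  have hrltR : r < R := by nlinarith only [hrR, hr, hR0]
  have hF := hN.cv
  have hU : IsOpen (ball (0 : ℂ) R) := isOpen_ball
  have hs : sphere (0 : ℂ) r ⊆ ball 0 R := sphere_subset_closedBall.trans (closedBall_subset_ball hrltR)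
  set B : ℝ := A + Lam Q d p m F h 0 with hBdef
  set T : ℝ := Real.circleAverage (fun z => Mf p m ε F h z ^ 2) 0 r with hTdef
  set S : ℝ := Real.circleAverage (fun z => ‖h z - h 0‖ ^ 2) 0 r with hSdef
  set T' : ℝ := Real.circleAverage (fun z => ‖deriv h z‖ ^ 2) 0 r with hT'def
  have hk : (0 : ℝ) ≤ k := Nat.cast_nonneg k
  have hB0 : 0 < B := by
    by_contra hcon
    push Not at hcon
    have h1 : 1 / (16 * (C₅ * ((k : ℝ) + 1))) * B ≤ 0 := mul_nonpos_of_nonneg_of_nonpos (by positivity) hcon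
    nlinarith only [hB, h1, sq_nonneg r]
  -- integrability
  have hMc : ContinuousOn (Mf p m ε F h) (sphere (0 : ℂ) r) := (mf_cont hP hU hF ε).mono hs
  have hMi : CircleIntegrable (fun z => Mf p m ε F h z ^ 2) 0 r := (hMc.pow 2).circleIntegrable hr.le
  have hdc : ContinuousOn (deriv h) (sphere (0 : ℂ) r) := ((hF.h_diff.deriv hU).continuousOn).mono hs
  have hdi : CircleIntegrable (fun z => ‖deriv h z‖ ^ 2) 0 r := (hdc.norm.pow 2).circleIntegrable hr.le
  have hLi : CircleIntegrable (Lam Q d p m F h) 0 r := lam_int hX hP hQ hr hrltR hF hN.ok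
  -- `T' ≤ T`
  have hT'T : T' ≤ T := by
    refine Real.circleAverage_mono hdi hMi ?_
    intro w _
    exact pow_le_pow_left₀ (norm_nonneg _) (le_max_left _ _) 2
  have hT'0 : 0 ≤ T' := by
    have h1 : Real.circleAverage (fun _ : ℂ => (0 : ℝ)) 0 r ≤ T' := Real.circleAverage_mono (circleIntegrable_const _ 0 r) hdi fun w _ => by positivity
    rwa [Real.circleAverage_const] at h1
  have hS : S ≤ (k + 1 : ℝ) * r ^ 2 * T' := sq_mean hr hrltR hF.h_diff
  -- the bound for `T`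
  have hq : 9 / 16 ≤ (1 - r ^ 2 / R ^ 2) ^ 2 := by
    have h1 : r ^ 2 / R ^ 2 ≤ 1 / 4 := by
      rw [div_le_iff₀ (by positivity)]
      linarith only [hrR]
    nlinarith only [h1]
  have hTle : T ≤ 16 / 9 / B * (A + Real.circleAverage (Lam Q d p m F h) 0 r) := by
    have hgi : CircleIntegrable (fun z => (16 / 9 / B) • (A + Lam Q d p m F h z)) 0 r := ((circleIntegrable_const A 0 r).add hLi).const_smul
    have h1 : T ≤ Real.circleAverage (fun z => (16 / 9 / B) • (A + Lam Q d p m F h z)) 0 r := by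
      refine K2_mono hr hMi hgi (K2_ae hP hQ hr hrltR hF hN.ok) ?_
      intro w hw hok
      have h2 := hN.le w (hs hw) hok
      have hwn : ‖w‖ = r := by simpa using hw
      rw [hwn] at h2
      rw [smul_eq_mul, div_div, div_mul_eq_mul_div, le_div_iff₀ (by positivity)]
      have h3 : 0 ≤ Mf p m ε F h w ^ 2 * B := by positivity
      have h4 : Mf p m ε F h w ^ 2 * B * (9 / 16) ≤ Mf p m ε F h w ^ 2 * B * (1 - r ^ 2 / R ^ 2) ^ 2 := mul_le_mul_of_nonneg_left hq h3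
      have h5 : Mf p m ε F h w ^ 2 * (1 - r ^ 2 / R ^ 2) ^ 2 * B = Mf p m ε F h w ^ 2 * B * (1 - r ^ 2 / R ^ 2) ^ 2 := by ring
      rw [h5] at h2
      linarith only [h2, h4]
    rw [Real.circleAverage_fun_smul, Real.circleAverage_fun_add (circleIntegrable_const A 0 r) hLi, Real.circleAverage_const, smul_eq_mul] at h1
    exact h1
  have hL := hlam R r F h hr hrltR hF hN.ok hN.one
  -- conclusion
  have hT0 : 0 ≤ T := hT'0.trans hT'T
  have hκ : C₅ * ((k : ℝ) + 1) * (1 + r ^ 2) ≤ B / 16 := by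
    have h1 : C₅ * ((k : ℝ) + 1) * (1 + r ^ 2) ≤ C₅ * ((k : ℝ) + 1) * (1 / (16 * (C₅ * (k + 1))) * B) := mul_le_mul_of_nonneg_left hB (by positivity)
    have h2 : C₅ * ((k : ℝ) + 1) * (1 / (16 * (C₅ * (k + 1))) * B) = B / 16 := by
      field_simp
    rwa [h2] at h1
  have hTS : 1 + T + S ≤ ((k : ℝ) + 1) * (1 + r ^ 2) * (1 + T) := by
    have h1 : (k + 1 : ℝ) * r ^ 2 * T' ≤ (k + 1 : ℝ) * r ^ 2 * T := mul_le_mul_of_nonneg_left hT'T (by positivity)
    nlinarith only [hS, h1, hk, hT0, mul_nonneg hk hT0, mul_nonneg (mul_nonneg hk (sq_nonneg r)) hT0, mul_nonneg hk (sq_nonneg r), sq_nonneg r]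
  have h1 : A + Real.circleAverage (Lam Q d p m F h) 0 r ≤ B + B / 16 * (1 + T) := by
    have h2 : C₅ * (1 + T + S) ≤ C₅ * (((k : ℝ) + 1) * (1 + r ^ 2) * (1 + T)) := mul_le_mul_of_nonneg_left hTS hC₅.le
    have h3 : C₅ * ((k : ℝ) + 1) * (1 + r ^ 2) * (1 + T) ≤ B / 16 * (1 + T) := mul_le_mul_of_nonneg_right hκ (by linarith only [hT'T, hT'0])
    have h4 : C₅ * (((k : ℝ) + 1) * (1 + r ^ 2) * (1 + T)) = C₅ * ((k : ℝ) + 1) * (1 + r ^ 2) * (1 + T) := by ring
    rw [h4] at h2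
    linarith only [hL, h2, h3]
  have h2 : T ≤ 16 / 9 / B * (B + B / 16 * (1 + T)) := hTle.trans (mul_le_mul_of_nonneg_left h1 (by positivity))
  have h3 : 16 / 9 / B * (B + B / 16 * (1 + T)) = 16 / 9 + 1 / 9 * (1 + T) := by
    have hBne : B ≠ 0 := hB0.ne'
    have h4 : 16 / 9 / B * (B + B / 16 * (1 + T)) = (16 / 9 + 1 / 9 * (1 + T)) * (B / B) := by ring
    rw [h4, div_self hBne, mul_one]
  rw [h3] at h2
  have hT4 : T ≤ 4 := by linarith only [h2]
  refine ⟨hT4, hS.trans ?_, hT'T.trans hT4⟩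
  have h4 : (k + 1 : ℝ) * r ^ 2 * T' ≤ (k + 1 : ℝ) * r ^ 2 * 4 := mul_le_mul_of_nonneg_left (hT'T.trans hT4) (by positivity)
  linarith only [h4]

theorem nrm_one (hX : IsCone X) (hP : PS X Λ u D p m C) (hQ : QD X Λ u D Q d) : ∃ ε B₀ R₀ : ℝ, 0 < ε ∧ ε ≤ 1 ∧
    ∀ (A R : ℝ) (F : ℂ → EN N) (h : ℂ → Vd (k + 1)), Nrm X Λ u Q d p m ε A R F h → R₀ ≤ R → B₀ ≤ A + Lam Q d p m F h 0 → ‖deriv h 0‖ = 1 := by
  have hC1 := hP.C_ge
  have hC0 : 0 < C := by linarith only [hC1]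
  set K : ℝ := Real.exp (2 * m + 4 * C * (k + 1)) with hK
  have hK0 : 0 < K := Real.exp_pos _
  obtain ⟨ε, hεdef⟩ : ∃ ε : ℝ, ε = min 1 (1 / (2 * C * K)) := ⟨_, rfl⟩
  have hε : 0 < ε := by
    rw [hεdef]
    exact lt_min one_pos (by positivity)
  have hε1 : ε ≤ 1 := by rw [hεdef]; exact min_le_left _ _
  have hε2 : ε * (2 * C * K) ≤ 1 := by
    have h1 : ε ≤ 1 / (2 * C * K) := by rw [hεdef]; exact min_le_right _ _
    rwa [le_div_iff₀ (by positivity)] at h1
  obtain ⟨κ, hκ, hmean⟩ := nrm_mean hX hP hQ hε hε1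
  refine ⟨ε, 2 / κ, 2, hε, hε1, ?_⟩
  intro A R F h hN hR hB
  by_contra hcon
  have hone := hN.one
  have hd1 : ‖deriv h 0‖ ≤ 1 := by
    rw [← hone]
    exact le_max_left _ _
  have hd : ‖deriv h 0‖ < 1 := lt_of_le_of_ne hd1 hcon
  have hF := hN.cv
  have h0m : (0 : ℂ) ∈ ball (0 : ℂ) R := mem_ball_self hN.R_pos
  have hpf : ε * pf p F 0 ^ (1 / (m : ℝ)) = 1 := by
    unfold Mf at hone
    rcases le_total ‖deriv h 0‖ (ε * pf p F 0 ^ (1 / (m : ℝ))) with h1 | h1
    · rwa [max_eq_right h1] at hone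
    · rw [max_eq_left h1] at hone
      exact absurd hone hcon
  have hp0 : 0 < pf p F 0 := hN.ok.2
  have hm : 1 ≤ m := hP.m_pos
  have hm0 : (m : ℝ) ≠ 0 := by exact_mod_cast (by omega : m ≠ 0)
  -- `fs` is large
  have hfs : 1 ≤ ε * (C * fs (F 0) (deriv F 0)) := by
    have hfs0 : 0 ≤ fs (F 0) (deriv F 0) := Pool.Agent.H36.BP.fs_nonneg _ _
    have h1 : pf p F 0 ≤ C * fs (F 0) (deriv F 0) ^ m := hP.le_fs _ (hF.mem 0 h0m) _ (hF.tan isOpen_ball h0m)
    have h2 : C * fs (F 0) (deriv F 0) ^ m ≤ (C * fs (F 0) (deriv F 0)) ^ m := by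
      rw [mul_pow]
      exact mul_le_mul_of_nonneg_right (le_self_pow₀ hC1 (by omega)) (by positivity)
    have h3 : pf p F 0 ^ (1 / (m : ℝ)) ≤ C * fs (F 0) (deriv F 0) := by
      have h4 := Real.rpow_le_rpow hp0.le (h1.trans h2) (by positivity : 0 ≤ 1 / (m : ℝ))
      rw [← Real.rpow_natCast, ← Real.rpow_mul (by positivity), mul_one_div_cancel hm0, Real.rpow_one] at h4
      exact h4
    calc (1 : ℝ) = ε * pf p F 0 ^ (1 / (m : ℝ)) := hpf.symm
      _ ≤ ε * (C * fs (F 0) (deriv F 0)) := mul_le_mul_of_nonneg_left h3 hε.le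
  -- `fs` is bounded
  obtain ⟨h1, h2, -⟩ := hmean A R F h hN 1 one_pos (by nlinarith only [hR]) (by
    rw [div_le_iff₀ hκ] at hB
    linarith only [hB])
  have h1R : (1 : ℝ) < R := by linarith only [hR]
  have htt := tt_mean hX hP hε hε1 one_pos h1R hF hp0 hone hd
  have hfs2 := fs_le_TT one_pos h1R hF.F_diff fun z hz h3 => hX.zero_notMem (h3 ▸ hF.mem z hz)
  rw [div_one] at hfs2
  have h4 : TT F 0 1 ≤ 2 * m + 4 * C * (k + 1) := by
    refine htt.trans ?_
    have h5 : (m / 2 : ℝ) * Real.circleAverage (fun z => Mf p m ε F h z ^ 2) 0 1 ≤ (m / 2 : ℝ) * 4 := mul_le_mul_of_nonneg_left h1 (by positivity)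
    have h6 : C * Real.circleAverage (fun z => ‖h z - h 0‖ ^ 2) 0 1 ≤ C * (4 * (k + 1) * 1 ^ 2) := mul_le_mul_of_nonneg_left h2 hC0.le
    linarith only [h5, h6]
  have h5 : fs (F 0) (deriv F 0) ≤ K := hfs2.trans (Real.exp_le_exp.mpr h4)
  have h6 : ε * (C * fs (F 0) (deriv F 0)) ≤ ε * (C * K) := by gcongr
  nlinarith only [hε2, hfs, h6]

end Pool.Agent.G3

end
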