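import Pool.Agent.H94.G5T.M120
import Pool.Agent.H94.G5T.M169
import Pool.Agent.H94.G5T.M71

/-! The parts of this file: G3.R.Seq, G3.R.Root. -/

section

/-!
# G3 R Seq: sequences of normalised curves

Notation: `B n = A n + Lam (0)`.
`seq_near`: `nrm_mean` on the circle of radius `ρ n` with `ρ n ^ 2 = min (κ (B n) / 2, (R n) ^ 2 / 4)` (tends to `∞`; `1 ≤ κ (B n) / 2` for large `n`) and `cauchy_sub` for `g = deriv (h n)` (average of `‖h'‖` at most `(1 + 4) / 2`).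

`seq_false`: let `𝒰` be the hyperfilter (`Filter.hyperfilter ℕ`), `a` the limit of `deriv (h n) 0` along `𝒰` (`‖·‖ = 1`, compact sphere), `i` the index with `‖deriv (h n) 0 i‖ = 1` for `𝒰`-many `n` (finitely many indices; the norm is the
sup norm).  `x n z = deriv (h n) z i / deriv (h n) 0 i`, `E n z = exp (2 (B n) Log (x n z))`.  For every `r` and large `n`: `‖x n z - 1‖ ≤ 1/2` on `ball 0 r`, so `Log (x n)` is holomorphic, `log ‖E n z‖ = 2 (B n) log ‖x n z‖`,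
and at `Ok` points (`Nrm.le`, `‖h'‖ ≤ Mf`, `‖h'‖ ≤ 2`): `Lam z - Lam 0 ≥ B n (‖h' z‖² (1 - |z|²/R²)² - 1) ≥ B n (‖x n z‖² - 1) - 8 r² (B n) / (R n)² ≥ 2 (B n) log ‖x n z‖ - ε`.  `LCT` (`Z/CDefs`) gives the contradiction.
-/

set_option autoImplicit false

open Topology Filter Metric

namespace Pool.Agent.G3

open Pool.Agent.H36.BP (EN fs wd Sub)
open Pool.Agent.H14.PP (IsCone CurveAt Tan)
open Pool.Agent.H62.EF (MN pr)
open Pool.Agent.AD (Vd Chart Charts)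
open Pool.Agent.TG (TMap Lat Geo Gd)

variable {N k : ℕ} {X : Set (EN N)} {Λ : AddSubgroup (Vd (k + 1))} {u : EN N → Vd (k + 1)} {D : Set (Vd (k + 1))} {p : EN N → EN N → ℝ} {m d : ℕ} {C : ℝ} {Q : EN N → ℂ}

theorem seq_near (hX : IsCone X) (hP : PS X Λ u D p m C) (hQ : QD X Λ u D Q d) {ε : ℝ} (hε : 0 < ε) (hε1 : ε ≤ 1) {A R : ℕ → ℝ} {F : ℕ → ℂ → EN N}
    {h : ℕ → ℂ → Vd (k + 1)} (hN : ∀ n, Nrm X Λ u Q d p m ε (A n) (R n) (F n) (h n)) (hB : Tendsto (fun n => A n + Lam Q d p m (F n) (h n) 0) atTop atTop)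
    (hR : Tendsto (fun n => R n ^ 2 / (A n + Lam Q d p m (F n) (h n) 0)) atTop atTop) (r ε' : ℝ) (hε' : 0 < ε') :
    ∀ᶠ n in atTop, r ≤ R n ∧ ∀ z ∈ ball (0 : ℂ) r, ‖deriv (h n) z - deriv (h n) 0‖ ≤ ε' := by
  obtain ⟨κ, hκ, hmean⟩ := nrm_mean hX hP hQ hε hε1
  set ρ : ℝ := 2 * |r| + 5 * |r| / ε' + 1 with hρ
  have hr0 : 0 ≤ |r| := abs_nonneg r
  have hρ0 : 0 < ρ := by positivity
  have hρr : |r| ≤ ρ / 2 := by
    have : 0 ≤ 5 * |r| / ε' := by positivity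
    linarith
  have hρε : 5 * |r| / ρ ≤ ε' := by
    rw [div_le_iff₀ hρ0]
    have h1 : ε' * (5 * |r| / ε') = 5 * |r| := by field_simp
    have h2 : 0 ≤ ε' * (2 * |r| + 1) := by positivity
    calc 5 * |r| = ε' * (5 * |r| / ε') := h1.symm
      _ ≤ ε' * ρ := by
        rw [hρ]
        nlinarith
  filter_upwards [hB.eventually_ge_atTop ((1 + ρ ^ 2) / κ), hB.eventually_ge_atTop (4 * ρ ^ 2), hR.eventually_ge_atTop 1, hB.eventually_gt_atTop 0]
    with n h1 h2 h3 h4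
  set B : ℝ := A n + Lam Q d p m (F n) (h n) 0 with hBdef
  have h5 : B ≤ R n ^ 2 := by
    rwa [le_div_iff₀ h4, one_mul] at h3
  have hRρ : 4 * ρ ^ 2 ≤ R n ^ 2 := h2.trans h5
  have hRpos := (hN n).R_pos
  have hR2 : 2 * ρ ≤ R n := by
    have h6 : (2 * ρ) ^ 2 ≤ R n ^ 2 := by
      calc (2 * ρ) ^ 2 = 4 * ρ ^ 2 := by ring
        _ ≤ _ := hRρ
    exact (pow_le_pow_iff_left₀ (by positivity) hRpos.le (by norm_num)).1 h6
  have hκB : 1 + ρ ^ 2 ≤ κ * B := by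
    rw [div_le_iff₀ hκ] at h1
    linarith
  have h6 := (hmean (A n) (R n) (F n) (h n) (hN n) ρ hρ0 hRρ hκB).2.2
  refine ⟨by linarith [le_abs_self r], fun z hz => ?_⟩
  have hz' : ‖z‖ < r := by simpa using hz
  have hzr : ‖z‖ ≤ |r| := hz'.le.trans (le_abs_self r)
  have hρR : ρ < R n := by linarith
  have hd : DifferentiableOn ℂ (deriv (h n)) (ball 0 (R n)) := (hN n).cv.h_diff.deriv isOpen_ball
  have h7 := cauchy_sub (g := deriv (h n)) hρ0 hρR hd (hzr.trans hρr)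
  have hcs : ContinuousOn (deriv (h n)) (sphere 0 ρ) := hd.continuousOn.mono (by
    intro w hw
    rw [mem_sphere_zero_iff_norm] at hw
    rw [mem_ball_zero_iff, hw]
    exact hρR)
  have hc1 : CircleIntegrable (fun w => ‖deriv (h n) w‖) 0 ρ := (hcs.norm).circleIntegrable hρ0.le
  have hc2 : CircleIntegrable (fun w => ‖deriv (h n) w‖ ^ 2) 0 ρ := ((hcs.norm).pow 2).circleIntegrable hρ0.le
  have hc3 : CircleIntegrable (fun w => (1 / 2 : ℝ) * ‖deriv (h n) w‖ ^ 2) 0 ρ := (continuousOn_const.mul ((hcs.norm).pow 2)).circleIntegrable hρ0.le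
  have hc4 : CircleIntegrable (fun w : ℂ => (1 / 2 : ℝ)) 0 ρ := (continuousOn_const).circleIntegrable hρ0.le
  have hc5 : CircleIntegrable (fun w => (1 / 2 : ℝ) + (1 / 2 : ℝ) * ‖deriv (h n) w‖ ^ 2) 0 ρ := (continuousOn_const.add (continuousOn_const.mul ((hcs.norm).pow 2))).circleIntegrable hρ0.le
  have h8 : Real.circleAverage (fun w => ‖deriv (h n) w‖) 0 ρ ≤ 5 / 2 := by
    calc Real.circleAverage (fun w => ‖deriv (h n) w‖) 0 ρ
        ≤ Real.circleAverage (fun w => (1 / 2 : ℝ) + (1 / 2 : ℝ) * ‖deriv (h n) w‖ ^ 2) 0 ρ := by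
          refine Real.circleAverage_mono hc1 hc5 fun w _ => ?_
          nlinarith [sq_nonneg (‖deriv (h n) w‖ - 1)]
      _ = 1 / 2 + 1 / 2 * Real.circleAverage (fun w => ‖deriv (h n) w‖ ^ 2) 0 ρ := by
          have e1 := Real.circleAverage_fun_add hc4 hc3
          have e2 : Real.circleAverage (fun w => (1 / 2 : ℝ) * ‖deriv (h n) w‖ ^ 2) 0 ρ = (1 / 2 : ℝ) * Real.circleAverage (fun w => ‖deriv (h n) w‖ ^ 2) 0 ρ :=
            Real.circleAverage_smul (a := (1 / 2 : ℝ)) (f := fun w => ‖deriv (h n) w‖ ^ 2)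
          have e3 : Real.circleAverage (fun _ : ℂ => (1 / 2 : ℝ)) 0 ρ = 1 / 2 := Real.circleAverage_const _ _ _
          rw [e1, e2, e3]
      _ ≤ 5 / 2 := by linarith
  calc ‖deriv (h n) z - deriv (h n) 0‖ ≤ 2 * ‖z‖ / ρ * Real.circleAverage (fun w => ‖deriv (h n) w‖) 0 ρ := h7
    _ ≤ 2 * ‖z‖ / ρ * (5 / 2) := mul_le_mul_of_nonneg_left h8 (by positivity)
    _ ≤ 2 * |r| / ρ * (5 / 2) := by gcongr
    _ = 5 * |r| / ρ := by ring
    _ ≤ ε' := hρε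

private theorem seq_idx (𝒰 : Ultrafilter ℕ) {v : ℕ → Vd (k + 1)} (h1 : ∀ᶠ n in (𝒰 : Filter ℕ), ‖v n‖ = 1) :
    ∃ i, ∀ᶠ n in (𝒰 : Filter ℕ), ‖v n i‖ = 1 := by
  by_contra hcon
  push Not at hcon
  have h2 : ∀ i, ∀ᶠ n in (𝒰 : Filter ℕ), ¬ ‖v n i‖ = 1 := by
    intro i
    have h3 := hcon i
    simpa using h3
  have h4 : ∀ᶠ n in (𝒰 : Filter ℕ), ∀ i, ¬ ‖v n i‖ = 1 := Filter.eventually_all.2 h2
  obtain ⟨n, hn, hn'⟩ := (h1.and h4).exists
  have h5 : ‖v n‖ < 1 := by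
    refine (pi_norm_lt_iff one_pos).2 fun i => ?_
    have h6 : ‖v n i‖ ≤ 1 := hn ▸ norm_le_pi_norm (v n) i
    exact lt_of_le_of_ne h6 (hn' i)
  linarith

private theorem seq_alg {B L t x M ε : ℝ} (hB : 0 < B) (ht0 : 0 ≤ t) (ht1 : t < 1) (hx : 0 < x) (hx2 : x ≤ 3 / 2) (hxM : x ≤ M)
    (h : M ^ 2 * (1 - t) ^ 2 * B ≤ B + L) (hε : 8 * (t * B) ≤ ε) : 2 * B * Real.log x - ε ≤ L := by
  have h1 : Real.log (x ^ 2) ≤ x ^ 2 - 1 := Real.log_le_sub_one_of_pos (by positivity)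
  rw [Real.log_pow] at h1
  push_cast at h1
  have h2 : x ^ 2 * (1 - t) ^ 2 ≤ M ^ 2 * (1 - t) ^ 2 := by gcongr
  have h3 : x ^ 2 * (1 - t) ^ 2 * B ≤ B + L := (mul_le_mul_of_nonneg_right h2 hB.le).trans h
  have h4 : x ^ 2 ≤ 9 / 4 := by nlinarith
  have h5 : x ^ 2 - 8 * t ≤ x ^ 2 * (1 - t) ^ 2 := by
    have : 0 ≤ x ^ 2 * t ^ 2 := by positivity
    nlinarith [mul_le_mul_of_nonneg_right h4 ht0]
  have h6 := mul_le_mul_of_nonneg_right h5 hB.le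
  have h7 := mul_le_mul_of_nonneg_left h1 hB.le
  nlinarith

theorem seq_false (hX : IsCone X) (hP : PS X Λ u D p m C) (hQ : QD X Λ u D Q d) (hL : LCT X Λ u Q d p m) {ε : ℝ} (hε : 0 < ε) (hε1 : ε ≤ 1) {A R : ℕ → ℝ}
    {F : ℕ → ℂ → EN N} {h : ℕ → ℂ → Vd (k + 1)} (hN : ∀ n, Nrm X Λ u Q d p m ε (A n) (R n) (F n) (h n))
    (hB : Tendsto (fun n => A n + Lam Q d p m (F n) (h n) 0) atTop atTop) (hR : Tendsto (fun n => R n ^ 2 / (A n + Lam Q d p m (F n) (h n) 0)) atTop atTop)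
    (h1 : ∀ᶠ n in atTop, ‖deriv (h n) 0‖ = 1) : False := by
  set 𝒰 : Ultrafilter ℕ := hyperfilter ℕ with h𝒰
  have hle : (𝒰 : Filter ℕ) ≤ atTop := Nat.hyperfilter_le_atTop
  have hnear := fun (r ε' : ℝ) (hε' : 0 < ε') => (seq_near hX hP hQ hε hε1 hN hB hR r ε' hε').filter_mono hle
  have h1' : ∀ᶠ n in (𝒰 : Filter ℕ), ‖deriv (h n) 0‖ = 1 := h1.filter_mono hle
  obtain ⟨a, ha, hlim⟩ : ∃ a ∈ sphere (0 : Vd (k + 1)) 1, Tendsto (fun n => deriv (h n) 0) (𝒰 : Filter ℕ) (𝓝 a) := by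
    have h2 := (isCompact_sphere (0 : Vd (k + 1)) 1).ultrafilter_le_nhds (𝒰.map fun n => deriv (h n) 0) (by
      rw [le_principal_iff]
      show ∀ᶠ n in (𝒰 : Filter ℕ), deriv (h n) 0 ∈ sphere (0 : Vd (k + 1)) 1
      filter_upwards [h1'] with n hn
      rw [mem_sphere_zero_iff_norm]
      exact hn)
    exact h2
  have ha1 : ‖a‖ = 1 := by simpa using ha
  obtain ⟨i, hi⟩ := seq_idx 𝒰 h1'
  have ha0 : a ≠ 0 := by
    intro h2
    rw [h2, norm_zero] at ha1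
    exact zero_ne_one ha1
  set B : ℕ → ℝ := fun n => A n + Lam Q d p m (F n) (h n) 0 with hBdef
  have hx : ∀ r : ℝ, ∀ᶠ n in (𝒰 : Filter ℕ), r ≤ R n ∧ ‖deriv (h n) 0 i‖ = 1 ∧ ∀ z ∈ ball (0 : ℂ) r, ‖deriv (h n) z i / deriv (h n) 0 i - 1‖ ≤ 1 / 2 := by
    intro r
    filter_upwards [hnear r (1 / 2) (by norm_num), hi] with n hn hni
    refine ⟨hn.1, hni, fun z hz => ?_⟩
    have h2 : deriv (h n) 0 i ≠ 0 := by
      rw [← norm_ne_zero_iff, hni]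
      exact one_ne_zero
    have h3 : deriv (h n) z i / deriv (h n) 0 i - 1 = (deriv (h n) z - deriv (h n) 0) i / deriv (h n) 0 i := by
      rw [Pi.sub_apply]
      field_simp
    rw [h3, norm_div, hni, div_one]
    exact (norm_le_pi_norm _ i).trans (hn.2 z hz)
  have hslit : ∀ w : ℂ, ‖w - 1‖ ≤ 1 / 2 → w ∈ Complex.slitPlane := by
    intro w hw
    left
    have h2 := (Complex.abs_re_le_norm (w - 1)).trans hw
    rw [Complex.sub_re, Complex.one_re, abs_le] at h2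
    linarith [h2.1]
  refine hL 𝒰 a F h (fun n z => Complex.exp (2 * (B n : ℂ) * Complex.log (deriv (h n) z i / deriv (h n) 0 i))) ha0 ?_ ?_ ?_ ?_ ?_
  · intro r
    filter_upwards [hx r] with n hn
    exact (hN n).cv.mono (ball_subset_ball hn.1)
  · exact Filter.Eventually.of_forall fun n => (hN n).ok
  · intro r ε' hε'
    filter_upwards [hnear r (ε' / 2) (by positivity), Metric.tendsto_nhds.1 hlim (ε' / 2) (by positivity)] with n hn hn' z hz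
    rw [dist_eq_norm] at hn'
    have h2 : deriv (h n) z - a = (deriv (h n) z - deriv (h n) 0) + (deriv (h n) 0 - a) := by abel
    rw [h2]
    exact (norm_add_le _ _).trans (by linarith [hn.2 z hz])
  · intro r
    filter_upwards [hx r] with n hn
    have hd : DifferentiableOn ℂ (fun z => deriv (h n) z i / deriv (h n) 0 i) (ball 0 r) := by
      have h2 : DifferentiableOn ℂ (deriv (h n)) (ball 0 r) := ((hN n).cv.mono (ball_subset_ball hn.1)).h_diff.deriv isOpen_ball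
      exact (differentiableOn_pi.1 h2 i).div_const _
    refine ⟨?_, fun z _ => Complex.exp_ne_zero _, ?_⟩
    · exact ((hd.clog fun z hz => hslit _ (hn.2.2 z hz)).const_mul _).cexp
    · have h2 : deriv (h n) 0 i ≠ 0 := by
        rw [← norm_ne_zero_iff, hn.2.1]
        exact one_ne_zero
      simp [div_self h2]
  · intro r ε' hε'
    have hlarge : ∀ᶠ n in (𝒰 : Filter ℕ), 8 * r ^ 2 / ε' ≤ R n ^ 2 / B n := (hR.eventually_ge_atTop _).filter_mono hle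
    have hBpos : ∀ᶠ n in (𝒰 : Filter ℕ), 0 < B n := (hB.eventually_gt_atTop 0).filter_mono hle
    filter_upwards [hx r, hlarge, hBpos] with n hn hn2 hn3 z hz hok
    have hRpos := (hN n).R_pos
    have hzr : ‖z‖ < r := by simpa using hz
    have hzR : ‖z‖ < R n := hzr.trans_le hn.1
    set x : ℝ := ‖deriv (h n) z i / deriv (h n) 0 i‖ with hxdef
    have hx1 : ‖deriv (h n) z i / deriv (h n) 0 i - 1‖ ≤ 1 / 2 := hn.2.2 z hz
    have hxl : 1 / 2 ≤ x := by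
      have h2 := norm_sub_norm_le (1 : ℂ) (1 - deriv (h n) z i / deriv (h n) 0 i)
      rw [norm_one, norm_sub_rev (1 : ℂ), sub_sub_cancel] at h2
      linarith
    have hxu : x ≤ 3 / 2 := by
      have h2 := norm_add_le (1 : ℂ) (deriv (h n) z i / deriv (h n) 0 i - 1)
      rw [norm_one, add_sub_cancel] at h2
      linarith
    have hxM : x ≤ Mf p m ε (F n) (h n) z := by
      have h2 : x = ‖deriv (h n) z i‖ := by
        rw [hxdef, norm_div, hn.2.1, div_one]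
      rw [h2]
      exact (norm_le_pi_norm _ i).trans (le_max_left _ _)
    have hlog : Real.log ‖Complex.exp (2 * (B n : ℂ) * Complex.log (deriv (h n) z i / deriv (h n) 0 i))‖ = 2 * B n * Real.log x := by
      rw [Complex.norm_exp, Real.log_exp]
      have h2 : (2 * (B n : ℂ) * Complex.log (deriv (h n) z i / deriv (h n) 0 i)) = ((2 * B n : ℝ) : ℂ) * Complex.log (deriv (h n) z i / deriv (h n) 0 i) := by
        push_cast
        ring
      rw [h2, Complex.re_ofReal_mul, Complex.log_re]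
    rw [hlog]
    have h5 := (hN n).le z (by simpa using hzR) hok
    have ht1 : ‖z‖ ^ 2 / R n ^ 2 < 1 := by
      rw [div_lt_one (by positivity)]
      exact pow_lt_pow_left₀ hzR (norm_nonneg z) (by norm_num)
    have h6 : 8 * (‖z‖ ^ 2 / R n ^ 2 * B n) ≤ ε' := by
      rw [div_le_div_iff₀ hε' hn3] at hn2
      have h7 : ‖z‖ ^ 2 ≤ r ^ 2 := pow_le_pow_left₀ (norm_nonneg z) hzr.le 2
      have h8 : 8 * (‖z‖ ^ 2 / R n ^ 2 * B n) = 8 * ‖z‖ ^ 2 * B n / R n ^ 2 := by ring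
      rw [h8, div_le_iff₀ (by positivity)]
      calc 8 * ‖z‖ ^ 2 * B n ≤ 8 * r ^ 2 * B n := by gcongr
        _ ≤ R n ^ 2 * ε' := hn2
        _ = ε' * R n ^ 2 := by ring
    have h9 := seq_alg (L := Lam Q d p m (F n) (h n) z - Lam Q d p m (F n) (h n) 0) hn3 (by positivity) ht1 (by linarith) hxu hxM (by
      have : B n + (Lam Q d p m (F n) (h n) z - Lam Q d p m (F n) (h n) 0) = A n + Lam Q d p m (F n) (h n) z := by
        rw [hBdef]
        ring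
      rw [this]
      exact h5) h6
    linarith

end Pool.Agent.G3

end

section

/-!
# G3 R Root: Theorem ROOT

Plan.  `ε` from `nrm_one`.  Claim: there is `C₁` with `r² Mf (w)² ≤ C₁ (1 + Lam w)` for all curves; then `‖h'‖ ≤ Mf`, `p ^ (1/m) ≤ Mf / ε` give `RootLog C` with `C = C₁ / ε²` (`(p ^ (1/m)) ^ 2 = p ^ (2/m)`).
Otherwise for every `n` there is a curve with `r² Mf (w)² > n² (1 + Lam w)` (`n ≥ 1`); composing with `z ↦ w + r z` we have `w = 0`, `r = 1` (`lam_comp`, `mf_comp`, `ok_comp`).  `exists_nrm` with `A = n + 1` gives normalised curves with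
`4 R² / (A + Lam' 0) ≥ Mf 0 ² / (n + 1 + Lam 0) ≥ Mf 0 ² / ((n + 1) (1 + Lam 0)) → ∞`; `A + Lam' 0 ≥ n + 1 → ∞` (`lam_nonneg`); `nrm_one`, `seq_false`.

`LCT.seq`: the form of `LCT` with sequences of radii (use the hyperfilter).
-/

set_option autoImplicit false

open Topology Filter Metric

namespace Pool.Agent.G3

open Pool.Agent.H36.BP (EN fs wd Sub)
open Pool.Agent.H14.PP (IsCone CurveAt Tan)
open Pool.Agent.H62.EF (MN pr)
open Pool.Agent.AD (Vd Chart Charts)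
open Pool.Agent.TG (TMap Lat Geo Gd)

variable {N k : ℕ} {X : Set (EN N)} {Λ : AddSubgroup (Vd (k + 1))} {u : EN N → Vd (k + 1)} {D : Set (Vd (k + 1))} {p : EN N → EN N → ℝ} {m d : ℕ} {C : ℝ} {Q : EN N → ℂ}

/-- one step: a curve which violates the bound gives a normalised curve -/
private theorem root_step (hX : IsCone X) (hP : PS X Λ u D p m C) (hQ : QD X Λ u D Q d) {ε : ℝ} (hε : 0 < ε) (n : ℕ)
    (hn : ∃ (w : ℂ) (r : ℝ) (F : ℂ → EN N) (h : ℂ → Vd (k + 1)), 0 < r ∧ Cv X Λ u (ball w r) F h ∧ Ok Q p F w ∧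
      ((n : ℝ) + 1) ^ 2 * (1 + Lam Q d p m F h w) < r ^ 2 * Mf p m ε F h w ^ 2) :
    ∃ (R : ℝ) (F' : ℂ → EN N) (h' : ℂ → Vd (k + 1)), Nrm X Λ u Q d p m ε ((n : ℝ) + 1) R F' h' ∧
      0 ≤ Lam Q d p m F' h' 0 ∧ ((n : ℝ) + 1) / 4 ≤ R ^ 2 / ((n : ℝ) + 1 + Lam Q d p m F' h' 0) := by
  obtain ⟨w, r, F, h, hr, hF, hok, hlt⟩ := hn
  set φ : ℂ → ℂ := fun z => w + (r : ℂ) * z with hφ
  have hφd : DifferentiableOn ℂ φ (ball 0 1) := by
    rw [hφ]
    fun_prop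
  have hφ0 : φ 0 = w := by simp [hφ]
  have hderiv : deriv φ 0 = (r : ℂ) := by
    have h1 : HasDerivAt φ ((r : ℂ) * 1) 0 := ((hasDerivAt_id (0 : ℂ)).const_mul (r : ℂ)).const_add w
    rw [mul_one] at h1
    exact h1.deriv
  have hm : Set.MapsTo φ (ball 0 1) (ball w r) := by
    intro z hz
    rw [mem_ball_zero_iff] at hz
    rw [mem_ball, dist_eq_norm, hφ]
    show ‖w + (r : ℂ) * z - w‖ < r
    rw [add_sub_cancel_left, norm_mul, Complex.norm_real, Real.norm_eq_abs, abs_of_pos hr]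
    calc r * ‖z‖ < r * 1 := by gcongr
      _ = r := mul_one r
  have h0m : (0 : ℂ) ∈ ball (0 : ℂ) 1 := mem_ball_self one_pos
  have hF1 := hF.comp hφd hm
  have hd0 : deriv φ 0 ≠ 0 := by
    rw [hderiv]
    exact_mod_cast hr.ne'
  have hok1 : Ok Q p (fun z => F (φ z)) 0 := by
    rw [ok_comp (Q := Q) hP isOpen_ball isOpen_ball hF hφd hm h0m hd0, hφ0]
    exact hok
  have hlam1 : Lam Q d p m (fun z => F (φ z)) (fun z => h (φ z)) 0 = Lam Q d p m F h w := by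
    rw [lam_comp (Q := Q) (d := d) hP isOpen_ball isOpen_ball hF hφd hm h0m hd0, hφ0]
  have hmf1 : Mf p m ε (fun z => F (φ z)) (fun z => h (φ z)) 0 = r * Mf p m ε F h w := by
    rw [mf_comp hP isOpen_ball isOpen_ball hF hφd hm h0m hε, hφ0, hderiv, Complex.norm_real, Real.norm_eq_abs, abs_of_pos hr]
  set L := Lam Q d p m F h w with hL
  set M := Mf p m ε F h w with hM
  have hL0 : 0 ≤ L := (lam_nonneg (d := d) (p := p) (m := m) (h := h) hX hQ (hF.mem w (mem_ball_self hr)) hok.1).2.2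
  have hM0 : 0 ≤ M := (norm_nonneg _).trans (le_max_left _ _)
  have hn0 : (0 : ℝ) ≤ n := Nat.cast_nonneg n
  have hMpos : 0 < M := by
    rcases hM0.lt_or_eq with h1 | h1
    · exact h1
    · rw [← h1] at hlt
      have h2 : (0 : ℝ) ≤ ((n : ℝ) + 1) ^ 2 * (1 + L) := by positivity
      nlinarith
  have hMf0 : 0 < Mf p m ε (fun z => F (φ z)) (fun z => h (φ z)) 0 := by
    rw [hmf1]
    positivity
  obtain ⟨R, F', h', hN, hle⟩ := exists_nrm hX hP hQ hε (show (0 : ℝ) < (n : ℝ) + 1 by positivity) hF1 hok1 hMf0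
  have hL' : 0 ≤ Lam Q d p m F' h' 0 := (lam_nonneg (d := d) (p := p) (m := m) (h := h') hX hQ (hN.cv.mem 0 (mem_ball_self hN.R_pos)) hN.ok.1).2.2
  refine ⟨R, F', h', hN, hL', ?_⟩
  rw [hlam1, hmf1] at hle
  set L' := Lam Q d p m F' h' 0 with hLd
  have hB : 0 < (n : ℝ) + 1 + L' := by positivity
  rw [div_le_div_iff₀ (by norm_num) hB]
  have h3 : (n : ℝ) + 1 + L ≤ ((n : ℝ) + 1) * (1 + L) := by nlinarith
  have h4 : ((n : ℝ) + 1) ^ 2 * (1 + L) * ((n : ℝ) + 1 + L') ≤ 4 * R ^ 2 * (((n : ℝ) + 1) * (1 + L)) := by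
    calc ((n : ℝ) + 1) ^ 2 * (1 + L) * ((n : ℝ) + 1 + L') ≤ (r ^ 2 * M ^ 2) * ((n : ℝ) + 1 + L') := by gcongr
      _ = (r * M) ^ 2 * ((n : ℝ) + 1 + L') := by ring
      _ ≤ 4 * R ^ 2 * ((n : ℝ) + 1 + L) := hle
      _ ≤ 4 * R ^ 2 * (((n : ℝ) + 1) * (1 + L)) := by gcongr
  have h5 : 0 < ((n : ℝ) + 1) * (1 + L) := by positivity
  have h6 : ((n : ℝ) + 1) * ((n : ℝ) + 1 + L') * (((n : ℝ) + 1) * (1 + L)) ≤ R ^ 2 * 4 * (((n : ℝ) + 1) * (1 + L)) := by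
    calc ((n : ℝ) + 1) * ((n : ℝ) + 1 + L') * (((n : ℝ) + 1) * (1 + L)) = ((n : ℝ) + 1) ^ 2 * (1 + L) * ((n : ℝ) + 1 + L') := by ring
      _ ≤ 4 * R ^ 2 * (((n : ℝ) + 1) * (1 + L)) := h4
      _ = R ^ 2 * 4 * (((n : ℝ) + 1) * (1 + L)) := by ring
  exact le_of_mul_le_mul_right h6 h5

private theorem root_claim (hX : IsCone X) (hP : PS X Λ u D p m C) (hQ : QD X Λ u D Q d) (hL : LCT X Λ u Q d p m) {ε B₀ R₀ : ℝ} (hε : 0 < ε) (hε1 : ε ≤ 1)
    (hone : ∀ (A R : ℝ) (F : ℂ → EN N) (h : ℂ → Vd (k + 1)), Nrm X Λ u Q d p m ε A R F h → R₀ ≤ R → B₀ ≤ A + Lam Q d p m F h 0 → ‖deriv h 0‖ = 1) :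
    ∃ C₁ : ℝ, 0 < C₁ ∧ ∀ (w : ℂ) (r : ℝ) (F : ℂ → EN N) (h : ℂ → Vd (k + 1)), 0 < r → Cv X Λ u (ball w r) F h → Ok Q p F w →
      r ^ 2 * Mf p m ε F h w ^ 2 ≤ C₁ * (1 + Lam Q d p m F h w) := by
  by_contra hcon
  push Not at hcon
  have hstep : ∀ n : ℕ, ∃ (R : ℝ) (F' : ℂ → EN N) (h' : ℂ → Vd (k + 1)), Nrm X Λ u Q d p m ε ((n : ℝ) + 1) R F' h' ∧
      0 ≤ Lam Q d p m F' h' 0 ∧ ((n : ℝ) + 1) / 4 ≤ R ^ 2 / ((n : ℝ) + 1 + Lam Q d p m F' h' 0) := by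
    intro n
    refine root_step hX hP hQ hε n ?_
    obtain ⟨w, r, F, h, h1, h2, h3, h4⟩ := hcon (((n : ℝ) + 1) ^ 2) (by positivity)
    exact ⟨w, r, F, h, h1, h2, h3, h4⟩
  choose R F h hN hL0 hR using hstep
  have hn1 : Tendsto (fun n : ℕ => ((n : ℝ) + 1)) atTop atTop := tendsto_atTop_add_const_right _ _ tendsto_natCast_atTop_atTop
  have hB : Tendsto (fun n : ℕ => ((n : ℝ) + 1) + Lam Q d p m (F n) (h n) 0) atTop atTop :=
    tendsto_atTop_mono (fun n => le_add_of_nonneg_right (hL0 n)) hn1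
  have hR4 : Tendsto (fun n : ℕ => R n ^ 2 / (((n : ℝ) + 1) + Lam Q d p m (F n) (h n) 0)) atTop atTop :=
    tendsto_atTop_mono hR (hn1.atTop_div_const (by norm_num))
  refine seq_false hX hP hQ hL hε hε1 hN hB hR4 ?_
  have h5 : ∀ᶠ n in atTop, R₀ ≤ R n := by
    filter_upwards [hR4.eventually_ge_atTop (max R₀ 1), hB.eventually_ge_atTop (max R₀ 1)] with n h1 h2
    have h3 : (1 : ℝ) ≤ max R₀ 1 := le_max_right _ _
    have h4 : R₀ ≤ max R₀ 1 := le_max_left _ _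
    have hpos : 0 < ((n : ℝ) + 1) + Lam Q d p m (F n) (h n) 0 := by linarith
    rw [le_div_iff₀ hpos] at h1
    have h6 : max R₀ 1 * max R₀ 1 ≤ R n ^ 2 := (mul_le_mul_of_nonneg_left h2 (by linarith)).trans h1
    have h7 := (hN n).R_pos
    nlinarith
  filter_upwards [h5, hB.eventually_ge_atTop B₀] with n h1 h2
  exact hone _ _ _ _ (hN n) h1 h2

theorem root (hX : IsCone X) (hP : PS X Λ u D p m C) (hQ : QD X Λ u D Q d) (hL : LCT X Λ u Q d p m) : ∃ C₁ : ℝ, 0 < C₁ ∧ RootLog X Λ u Q d p m C₁ := by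
  obtain ⟨ε, B₀, R₀, hε, hε1, hone⟩ := nrm_one hX hP hQ
  obtain ⟨C₁, hC₁, hcl⟩ := root_claim hX hP hQ hL hε hε1 hone
  refine ⟨C₁ / ε ^ 2, by positivity, ?_⟩
  intro w r F h hr hF hok
  have h1 := hcl w r F h hr hF hok
  have hL0 : 0 ≤ Lam Q d p m F h w := (lam_nonneg (d := d) (p := p) (m := m) (h := h) hX hQ (hF.mem w (mem_ball_self hr)) hok.1).2.2
  have h2 : ‖deriv h w‖ ≤ Mf p m ε F h w := le_max_left _ _
  have h3 : ε * pf p F w ^ (1 / (m : ℝ)) ≤ Mf p m ε F h w := le_max_right _ _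
  have h4 : C₁ ≤ C₁ / ε ^ 2 := by
    rw [le_div_iff₀ (by positivity)]
    have : ε ^ 2 ≤ 1 := pow_le_one₀ hε.le hε1
    nlinarith
  refine ⟨?_, ?_⟩
  · calc r ^ 2 * ‖deriv h w‖ ^ 2 ≤ r ^ 2 * Mf p m ε F h w ^ 2 := by gcongr
      _ ≤ C₁ * (1 + Lam Q d p m F h w) := h1
      _ ≤ C₁ / ε ^ 2 * (1 + Lam Q d p m F h w) := by gcongr
  · have hp0 : 0 ≤ pf p F w := hok.2.le
    have h5 : pf p F w ^ (2 / (m : ℝ)) = (pf p F w ^ (1 / (m : ℝ))) ^ 2 := by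
      rw [← Real.rpow_natCast, ← Real.rpow_mul hp0]
      congr 1
      push_cast
      ring
    have h6 : 0 ≤ pf p F w ^ (1 / (m : ℝ)) := Real.rpow_nonneg hp0 _
    rw [h5, div_mul_eq_mul_div, le_div_iff₀ (by positivity)]
    calc r ^ 2 * (pf p F w ^ (1 / (m : ℝ))) ^ 2 * ε ^ 2 = r ^ 2 * (ε * pf p F w ^ (1 / (m : ℝ))) ^ 2 := by ring
      _ ≤ r ^ 2 * Mf p m ε F h w ^ 2 := by gcongr
      _ ≤ C₁ * (1 + Lam Q d p m F h w) := h1

end Pool.Agent.G3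

end
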