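import Pool.Agent.H94.G5T.M01
import Pool.Agent.H94.G5T.M28
import Pool.Agent.H94.G5T.M29

/-! The parts of this file: G4.E.Mom, G4.RE.Alg, H17GT.Defs_1, H17LG.Defs, H14.V.Up, H56.G3.Lift. -/

section

/-!
# G4 E Mom: a function on a circle whose moments vanish

`mom_zero`: `f` continuous on the circle `‖w‖ = r` with `∮ w ^ j * f w = 0` for all `j`, `k` entire: `∮ k w * f w = 0` (the Taylor series of `k` converges uniformly on the circle).
`mom_quot`: `h`, `p` entire, `h` has no zeros on the circle, the moments of `p / h` vanish: then the Cauchy integral `G` of `p / h` satisfies `h * G = p` in the disc.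
-/

set_option autoImplicit false

open Topology Filter Metric

namespace Pool.Agent.G4.E

theorem mom_zero {r : ℝ} (hr : 0 < r) {f : ℂ → ℂ} (hf : ContinuousOn f (sphere 0 r)) (h0 : ∀ j : ℕ, (∮ w in C(0, r), w ^ j * f w) = 0) {k : ℂ → ℂ} (hk : Differentiable ℂ k) :
    (∮ w in C(0, r), k w * f w) = 0 := by
  -- the partial sums
  obtain ⟨p, hp⟩ : ∃ p : FormalMultilinearSeries ℂ ℂ ℂ, HasFPowerSeriesOnBall k p 0 ⊤ := ⟨_, hk.hasFPowerSeriesOnBall 0 one_pos⟩
  have hps : ∀ (n : ℕ) (w : ℂ), p.partialSum n w = ∑ i ∈ Finset.range n, p.coeff i * w ^ i := by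
    intro n w
    unfold FormalMultilinearSeries.partialSum
    refine Finset.sum_congr rfl fun i _ => ?_
    rw [FormalMultilinearSeries.apply_eq_pow_smul_coeff, smul_eq_mul, mul_comm]
  have hz : ∀ n : ℕ, (∮ w in C(0, r), p.partialSum n w * f w) = 0 := by
    intro n
    have h1 : ∀ w, p.partialSum n w * f w = ∑ i ∈ Finset.range n, p.coeff i * (w ^ i * f w) := by
      intro w
      rw [hps, Finset.sum_mul]
      exact Finset.sum_congr rfl fun i _ => by ring
    simp only [h1]
    rw [circleIntegral.integral_fun_sum]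
    · refine Finset.sum_eq_zero fun i _ => ?_
      rw [circleIntegral.integral_const_mul, h0 i, mul_zero]
    · intro i _
      refine ContinuousOn.circleIntegrable hr.le ?_
      exact continuousOn_const.mul ((by fun_prop : ContinuousOn (fun z : ℂ => z ^ i) _).mul hf)
  obtain ⟨C, hC⟩ := (isCompact_sphere (0 : ℂ) r).exists_bound_of_continuousOn hf
  have hC0 : 0 ≤ C := by
    have h1 := hC (r : ℂ) (by simp [abs_of_pos hr])
    exact (norm_nonneg _).trans h1
  have hu := hp.tendstoUniformlyOn' (r' := ⟨r + 1, by linarith⟩) (ENNReal.coe_lt_top)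
  -- small
  by_contra hne
  have hpos : 0 < ‖∮ w in C(0, r), k w * f w‖ := norm_pos_iff.2 hne
  obtain ⟨ε, hε, hε'⟩ : ∃ ε : ℝ, 0 < ε ∧ 2 * Real.pi * r * (ε * C) < ‖∮ w in C(0, r), k w * f w‖ := by
    refine ⟨‖∮ w in C(0, r), k w * f w‖ / (2 * (2 * Real.pi * r * C + 1)), by positivity, ?_⟩
    have h1 : 0 < 2 * Real.pi * r * C + 1 := by positivity
    rw [show 2 * Real.pi * r * (‖∮ w in C(0, r), k w * f w‖ / (2 * (2 * Real.pi * r * C + 1)) * C) =
      ‖∮ w in C(0, r), k w * f w‖ * ((2 * Real.pi * r * C) / (2 * (2 * Real.pi * r * C + 1))) by field_simp]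
    refine mul_lt_of_lt_one_right hpos ?_
    rw [div_lt_one (by positivity)]
    nlinarith [Real.pi_pos, mul_nonneg (mul_nonneg Real.pi_pos.le hr.le) hC0]
  obtain ⟨n, hn⟩ := ((Metric.tendstoUniformlyOn_iff.1 hu) ε hε).exists
  have h2 : (∮ w in C(0, r), k w * f w) = ∮ w in C(0, r), (k w - p.partialSum n w) * f w := by
    have h3 : (fun w => (k w - p.partialSum n w) * f w) = fun w => k w * f w - p.partialSum n w * f w := by
      funext w
      ring
    rw [h3, circleIntegral.integral_sub, hz n, sub_zero]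
    · exact ContinuousOn.circleIntegrable hr.le (hk.continuous.continuousOn.mul hf)
    · refine ContinuousOn.circleIntegrable hr.le (ContinuousOn.mul ?_ hf)
      have h4 : p.partialSum n = fun w => ∑ i ∈ Finset.range n, p.coeff i * w ^ i := funext (hps n)
      rw [h4]
      fun_prop
  have h3 : ‖∮ w in C(0, r), (k w - p.partialSum n w) * f w‖ ≤ 2 * Real.pi * r * (ε * C) := by
    refine circleIntegral.norm_integral_le_of_norm_le_const hr.le fun w hw => ?_
    rw [norm_mul]
    have hwb : w ∈ ball (0 : ℂ) (r + 1) := by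
      rw [mem_ball]
      rw [mem_sphere] at hw
      linarith
    have h5 := hn w hwb
    rw [sub_zero, dist_eq_norm] at h5
    exact mul_le_mul h5.le (hC w hw) (norm_nonneg _) hε.le
  rw [← h2] at h3
  linarith

theorem mom_quot {r : ℝ} (hr : 0 < r) {h p : ℂ → ℂ} (hh : Differentiable ℂ h) (hp : Differentiable ℂ p) (hne : ∀ w ∈ sphere (0 : ℂ) r, h w ≠ 0)
    (h0 : ∀ j : ℕ, (∮ w in C(0, r), w ^ j * (p w / h w)) = 0) {z : ℂ} (hz : z ∈ ball (0 : ℂ) r) :
    h z * ((2 * Real.pi * Complex.I)⁻¹ * ∮ w in C(0, r), (w - z)⁻¹ * (p w / h w)) = p z := by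
  have hf : ContinuousOn (fun w => p w / h w) (sphere 0 r) := hp.continuous.continuousOn.div hh.continuous.continuousOn hne
  have hzw : ∀ w ∈ sphere (0 : ℂ) r, w - z ≠ 0 := by
    intro w hw h1
    rw [sub_eq_zero.1 h1, mem_sphere] at hw
    rw [mem_ball] at hz
    linarith
  have hd : Differentiable ℂ (dslope h z) := by
    rw [← differentiableOn_univ, Complex.differentiableOn_dslope Filter.univ_mem]
    exact hh.differentiableOn
  have h1 := mom_zero hr hf h0 hd
  have h2 : ∀ w ∈ sphere (0 : ℂ) r, dslope h z w * (p w / h w) = (w - z)⁻¹ * p w - h z * ((w - z)⁻¹ * (p w / h w)) := by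
    intro w hw
    have h3 := sub_smul_dslope h z w
    rw [smul_eq_mul] at h3
    have h4 : dslope h z w = (w - z)⁻¹ * (h w - h z) := by
      rw [← h3, ← mul_assoc, inv_mul_cancel₀ (hzw w hw), one_mul]
    rw [h4]
    have h5 := hne w hw
    field_simp
  have hc1 : ContinuousOn (fun w => (w - z)⁻¹ * p w) (sphere 0 r) := by
    refine ContinuousOn.mul (ContinuousOn.inv₀ (by fun_prop) hzw) hp.continuous.continuousOn
  have hc2 : ContinuousOn (fun w => (w - z)⁻¹ * (p w / h w)) (sphere 0 r) := by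
    refine ContinuousOn.mul (ContinuousOn.inv₀ (by fun_prop) hzw) hf
  have h3 : (∮ w in C(0, r), dslope h z w * (p w / h w)) = (∮ w in C(0, r), (w - z)⁻¹ * p w) - h z * ∮ w in C(0, r), (w - z)⁻¹ * (p w / h w) := by
    have h6 : CircleIntegrable (fun w => h z * ((w - z)⁻¹ * (p w / h w))) 0 r := ContinuousOn.circleIntegrable hr.le (continuousOn_const.mul hc2)
    rw [← circleIntegral.integral_const_mul, ← circleIntegral.integral_sub (ContinuousOn.circleIntegrable hr.le hc1) h6]
    exact circleIntegral.integral_congr hr.le h2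
  have h4 : (2 * Real.pi * Complex.I)⁻¹ * (∮ w in C(0, r), (w - z)⁻¹ * p w) = p z := by
    have h5 := Complex.two_pi_I_inv_smul_circleIntegral_sub_inv_smul_of_differentiable_on_off_countable (f := p) (c := (0 : ℂ)) (R := r) (w := z) (s := ∅)
      Set.countable_empty hz hp.continuous.continuousOn (fun x _ => hp x)
    simpa only [smul_eq_mul] using h5
  rw [h3, sub_eq_zero] at h1
  calc h z * ((2 * Real.pi * Complex.I)⁻¹ * ∮ w in C(0, r), (w - z)⁻¹ * (p w / h w)) = (2 * Real.pi * Complex.I)⁻¹ * (h z * ∮ w in C(0, r), (w - z)⁻¹ * (p w / h w)) := by ring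
    _ = (2 * Real.pi * Complex.I)⁻¹ * (∮ w in C(0, r), (w - z)⁻¹ * p w) := by rw [← h1]
    _ = p z := h4

end Pool.Agent.G4.E

end

section

/-!
# G4 RE Alg: the different roots

If `b` is not injective on `S` then `dd b S = 0`.  If `b` has `q` values and is injective on `S`, `S.card = q`, then `S.image b = univ.image b`, so `dd b S = ∏ p ∈ (univ.image b).offDiag, (p.1 - p.2)` and `∏ i ∈ S, (t - b i) = ∏ v ∈ univ.image b, (t - v)`;
there is such an `S`.  If `b` has fewer than `q` values, `b` is not injective on `S`.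
-/

set_option autoImplicit false

namespace Pool.Agent.G4.RE

variable {n q : ℕ} {b : Fin n → ℂ}

/-- not injective: the product of the differences is `0` -/
private theorem dd_zero {S : Finset (Fin n)} (h : ¬ Set.InjOn b S) : dd b S = 0 := by
  unfold Set.InjOn at h
  push Not at h
  obtain ⟨i, hi, j, hj, hij, hne⟩ := h
  exact Finset.prod_eq_zero (i := (i, j)) (Finset.mem_offDiag.2 ⟨hi, hj, hne⟩) (sub_eq_zero.2 hij)

private theorem img_eq {S : Finset (Fin n)} (hS : S.card = q) (h : (Finset.univ.image b).card = q) (hi : Set.InjOn b S) : S.image b = Finset.univ.image b := by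
  refine Finset.eq_of_subset_of_card_le (Finset.image_subset_image (Finset.subset_univ S)) ?_
  rw [Finset.card_image_of_injOn hi, hS, h]

private theorem dd_eq {S : Finset (Fin n)} (hS : S.card = q) (h : (Finset.univ.image b).card = q) (hi : Set.InjOn b S) :
    dd b S = ∏ p ∈ (Finset.univ.image b).offDiag, (p.1 - p.2) := by
  rw [← img_eq hS h hi]
  unfold dd
  refine Finset.prod_nbij (fun p => (b p.1, b p.2)) ?_ ?_ ?_ fun _ _ => rfl
  · rintro ⟨i, j⟩ hp
    rw [Finset.mem_offDiag] at hp ⊢
    exact ⟨Finset.mem_image_of_mem b hp.1, Finset.mem_image_of_mem b hp.2.1, fun e => hp.2.2 (hi hp.1 hp.2.1 e)⟩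
  · rintro ⟨i, j⟩ hp ⟨i', j'⟩ hp' e
    rw [Finset.mem_coe, Finset.mem_offDiag] at hp hp'
    simp only [Prod.mk.injEq] at e ⊢
    exact ⟨hi hp.1 hp'.1 e.1, hi hp.2.1 hp'.2.1 e.2⟩
  · rintro ⟨v, w⟩ hp
    rw [Finset.mem_coe, Finset.mem_offDiag] at hp
    obtain ⟨h1, h2, h3⟩ := hp
    obtain ⟨i, hi', e1⟩ := Finset.mem_image.1 h1
    obtain ⟨j, hj', e2⟩ := Finset.mem_image.1 h2
    refine ⟨(i, j), ?_, by simp only [e1, e2]⟩
    rw [Finset.mem_coe, Finset.mem_offDiag]
    refine ⟨hi', hj', fun e => h3 ?_⟩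
    rw [← e1, ← e2, show i = j from e]

private theorem exists_inj (h : (Finset.univ.image b).card = q) : ∃ S : Finset (Fin n), S.card = q ∧ Set.InjOn b S := by
  classical
  have h1 : ∀ v ∈ Finset.univ.image b, ∃ i, b i = v := fun v hv => by
    obtain ⟨i, _, e⟩ := Finset.mem_image.1 hv
    exact ⟨i, e⟩
  rcases isEmpty_or_nonempty (Fin n) with hn | hn
  · refine ⟨∅, ?_, fun i hi => absurd hi (by simp)⟩
    rw [← h, Finset.univ_eq_empty, Finset.image_empty, Finset.card_empty, Finset.card_empty]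
  · choose! g hg using h1
    refine ⟨(Finset.univ.image b).image g, ?_, ?_⟩
    · rw [Finset.card_image_of_injOn, h]
      intro v hv w hw e
      rw [← hg v hv, ← hg w hw, e]
    · intro i hi j hj e
      rw [Finset.mem_coe] at hi hj
      obtain ⟨v, hv, rfl⟩ := Finset.mem_image.1 hi
      obtain ⟨w, hw, rfl⟩ := Finset.mem_image.1 hj
      rw [hg v hv, hg w hw] at e
      rw [e]

theorem sc_ne (h : (Finset.univ.image b).card = q) : sc q b ≠ 0 := by
  classical
  obtain ⟨S₀, h1, h2⟩ := exists_inj h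
  have h3 : sc q b = ((Finset.powersetCard q Finset.univ).filter fun S : Finset (Fin n) => Set.InjOn b S).card • ∏ p ∈ (Finset.univ.image b).offDiag, (p.1 - p.2) := by
    unfold sc
    rw [← Finset.sum_filter_of_ne (p := fun S : Finset (Fin n) => Set.InjOn b S) fun S _ hS => by
      by_contra h4
      exact hS (dd_zero h4)]
    refine Finset.sum_eq_card_nsmul fun S hS => ?_
    rw [Finset.mem_filter, Finset.mem_powersetCard] at hS
    exact dd_eq hS.1.2 h hS.2
  rw [h3]
  refine smul_ne_zero ?_ ?_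
  · refine (Finset.card_pos.2 ⟨S₀, ?_⟩).ne'
    rw [Finset.mem_filter, Finset.mem_powersetCard]
    exact ⟨⟨Finset.subset_univ _, h1⟩, h2⟩
  · refine Finset.prod_ne_zero_iff.2 fun p hp => ?_
    exact sub_ne_zero.2 (Finset.mem_offDiag.1 hp).2.2

theorem sd_eq (h : (Finset.univ.image b).card = q) (t : ℂ) : sd q b t = sc q b * ∏ v ∈ Finset.univ.image b, (t - v) := by
  unfold sd sc
  rw [Finset.sum_mul]
  refine Finset.sum_congr rfl fun S hS => ?_
  by_cases hi : Set.InjOn b S
  · rw [← img_eq (Finset.mem_powersetCard.1 hS).2 h hi, Finset.prod_image hi]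
  · rw [dd_zero hi, zero_mul, zero_mul]

private theorem not_inj {S : Finset (Fin n)} (hS : S.card = q) (h : (Finset.univ.image b).card < q) : ¬ Set.InjOn b S := by
  intro hi
  have h1 := Finset.card_le_card (Finset.image_subset_image (f := b) (Finset.subset_univ S))
  rw [Finset.card_image_of_injOn hi, hS] at h1
  omega

theorem sc_zero (h : (Finset.univ.image b).card < q) : sc q b = 0 :=
  Finset.sum_eq_zero fun _ hS => dd_zero (not_inj (Finset.mem_powersetCard.1 hS).2 h)

theorem sd_zero (h : (Finset.univ.image b).card < q) (t : ℂ) : sd q b t = 0 :=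
  Finset.sum_eq_zero fun S hS => by rw [dd_zero (not_inj (Finset.mem_powersetCard.1 hS).2 h), zero_mul]

/-- bounds for the product of the different roots -/
theorem img_le {r : ℝ} (hr : 0 < r) (hb : ∀ i, ‖b i‖ ≤ r) (h : (Finset.univ.image b).card = q) (t : ℂ) :
    ‖∏ v ∈ Finset.univ.image b, (t - v)‖ ≤ (‖t‖ + r) ^ q ∧ ‖∏ i, (t - b i)‖ ≤ (1 + ‖t‖ + r) ^ (n * n) * ‖∏ v ∈ Finset.univ.image b, (t - v)‖ ∧
      ‖∏ v ∈ Finset.univ.image b, (t - v)‖ ^ n ≤ (1 + ‖t‖ + r) ^ (n * n) * ‖∏ i, (t - b i)‖ := by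
  classical
  have ht : 0 ≤ ‖t‖ := norm_nonneg t
  have hA : ∀ v ∈ Finset.univ.image b, ‖t - v‖ ≤ ‖t‖ + r := fun v hv => by
    obtain ⟨i, _, rfl⟩ := Finset.mem_image.1 hv
    exact (norm_sub_le _ _).trans (by linarith [hb i])
  have hB1 : 1 ≤ 1 + ‖t‖ + r := by linarith
  have hA' : ∀ v ∈ Finset.univ.image b, ‖t - v‖ ≤ 1 + ‖t‖ + r := fun v hv => (hA v hv).trans (by linarith)
  have hq : q ≤ n := by
    have := Finset.card_image_le (s := (Finset.univ : Finset (Fin n))) (f := b)
    rw [h, Finset.card_univ, Fintype.card_fin] at this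
    exact this
  set m : ℂ → ℕ := fun v => (Finset.univ.filter fun i => b i = v).card with hm
  have hm1 : ∀ v ∈ Finset.univ.image b, 1 ≤ m v := fun v hv => by
    obtain ⟨i, _, e⟩ := Finset.mem_image.1 hv
    exact Finset.card_pos.2 ⟨i, Finset.mem_filter.2 ⟨Finset.mem_univ i, e⟩⟩
  have hm2 : ∀ v, m v ≤ n := fun v => by
    have := Finset.card_le_univ (Finset.univ.filter fun i => b i = v)
    rwa [Fintype.card_fin] at this
  have hP : ∏ i, (t - b i) = ∏ v ∈ Finset.univ.image b, (t - v) ^ m v := Finset.prod_comp (fun v : ℂ => t - v) b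
  have hpw : ∀ k l : ℕ, k ≤ l → (1 + ‖t‖ + r) ^ k ≤ (1 + ‖t‖ + r) ^ l := fun k l hkl => pow_le_pow_right₀ hB1 hkl
  have hBq : ∏ _v ∈ Finset.univ.image b, (1 + ‖t‖ + r) ^ n ≤ (1 + ‖t‖ + r) ^ (n * n) := by
    rw [Finset.prod_const, h, ← pow_mul]
    exact hpw _ _ (Nat.mul_le_mul le_rfl hq)
  refine ⟨?_, ?_, ?_⟩
  · rw [norm_prod, ← h, ← Finset.prod_const]
    exact Finset.prod_le_prod (fun v _ => norm_nonneg _) hA
  · rw [hP, norm_prod, norm_prod]
    calc ∏ v ∈ Finset.univ.image b, ‖(t - v) ^ m v‖ ≤ ∏ v ∈ Finset.univ.image b, ((1 + ‖t‖ + r) ^ n * ‖t - v‖) := by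
          refine Finset.prod_le_prod (fun v _ => norm_nonneg _) fun v hv => ?_
          obtain ⟨k, hk⟩ := Nat.exists_eq_add_of_le' (hm1 v hv)
          rw [norm_pow, hk, pow_succ]
          refine mul_le_mul_of_nonneg_right ?_ (norm_nonneg _)
          exact (pow_le_pow_left₀ (norm_nonneg _) (hA' v hv) k).trans (hpw _ _ (by have := hm2 v; omega))
      _ = (∏ _v ∈ Finset.univ.image b, (1 + ‖t‖ + r) ^ n) * ∏ v ∈ Finset.univ.image b, ‖t - v‖ := Finset.prod_mul_distrib
      _ ≤ _ := mul_le_mul_of_nonneg_right hBq (Finset.prod_nonneg fun v _ => norm_nonneg _)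
  · rw [hP, norm_prod, norm_prod, ← Finset.prod_pow]
    calc ∏ v ∈ Finset.univ.image b, ‖t - v‖ ^ n ≤ ∏ v ∈ Finset.univ.image b, ((1 + ‖t‖ + r) ^ n * ‖(t - v) ^ m v‖) := by
          refine Finset.prod_le_prod (fun v _ => pow_nonneg (norm_nonneg _) _) fun v hv => ?_
          rw [norm_pow]
          have h1 : ‖t - v‖ ^ n = ‖t - v‖ ^ (n - m v) * ‖t - v‖ ^ m v := by
            rw [← pow_add, Nat.sub_add_cancel (hm2 v)]
          rw [h1]
          refine mul_le_mul_of_nonneg_right ?_ (pow_nonneg (norm_nonneg _) _)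
          exact (pow_le_pow_left₀ (norm_nonneg _) (hA' v hv) _).trans (hpw _ _ (Nat.sub_le _ _))
      _ = (∏ _v ∈ Finset.univ.image b, (1 + ‖t‖ + r) ^ n) * ∏ v ∈ Finset.univ.image b, ‖(t - v) ^ m v‖ := Finset.prod_mul_distrib
      _ ≤ _ := mul_le_mul_of_nonneg_right hBq (Finset.prod_nonneg fun v _ => norm_nonneg _)

end Pool.Agent.G4.RE

end

section

/-!
# Varieties of general type, in terms of their function field
-/

open MvPolynomial
open Pool.Agent.H23 (RatForm regularForms PrimeDivisorOver)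

noncomputable section

namespace Pool.Agent.H17GT

section FunctionField

variable {K : Type} [Field K] [Algebra ℂ K] {k : ℕ}

/-- Let `K` be the function field of a variety of dimension `k`, let `ω` be a rational `k`-form and
`f ∈ K`. The rational `m`-canonical form `f ω^m` is regular along the prime divisor `E`: one has
`ω = g η` with `η` regular along `E` and `f g ^ m` regular along `E`. -/
def RegularAlong (E : PrimeDivisorOver K k) (m : ℕ) (f : K) (ω : RatForm K k) : Prop :=
  ∃ (g : K) (η : RatForm K k), η ∈ regularForms k E.localRing ∧ ω = g • η ∧ 0 ≤ E.ord (f * g ^ m)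

end FunctionField

end Pool.Agent.H17GT

end
end

section

/-!
# Varieties of log general type, in terms of their function field
-/

open MvPolynomial
open Pool.Agent.H23 (RatForm regularForms PrimeDivisorOver)
open Pool.Agent.H17GT (RegularAlong coordFun functionField)

noncomputable section

namespace Pool.Agent.H17LG

section FunctionField

variable {K : Type} [Field K] [Algebra ℂ K] {k : ℕ}

/-- The rational `m`-canonical form `f ω^m` has at most logarithmic poles along the prime divisor
`E`: one has `ω = g η` with `η` regular along `E` and `f g ^ m` has a pole of order at most `m`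
along `E`. -/
def LogRegularAlong (E : PrimeDivisorOver K k) (m : ℕ) (f : K) (ω : RatForm K k) : Prop :=
  ∃ (g : K) (η : RatForm K k), η ∈ regularForms k E.localRing ∧ ω = g • η ∧
    0 ≤ E.ord (f * g ^ m) + m

/-- Let `U` be a variety of dimension `k` with function field `K`, and let `B` be the set of the
prime divisors over `K` whose centre lies in the boundary of a compactification of `U`. The variety
`U` is of log general type: for some `m ≥ 1` there are `m`-canonical forms `f₀ ω^m, …, f_r ω^m`,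
regular along all prime divisors outside `B`, with at most logarithmic poles along the prime
divisors in `B`, which define a generically finite rational map. -/
def IsLogGeneralType (B : PrimeDivisorOver K k → Prop) : Prop :=
  ∃ m : ℕ, 1 ≤ m ∧ ∃ ω : RatForm K k, ω ≠ 0 ∧ ∃ (r : ℕ) (f : Fin (r + 1) → K), f 0 ≠ 0 ∧
    (∀ i, ∀ E : PrimeDivisorOver K k, (¬ B E → RegularAlong E m (f i) ω) ∧
      (B E → LogRegularAlong E m (f i) ω)) ∧
    Algebra.IsAlgebraic (IntermediateField.adjoin ℂ (Set.range fun i => f i / f 0)) K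

end FunctionField

/-- The function `x_i / x_j` on the subvariety of `ℙ^N` given by `P`. -/
def ratio {N : ℕ} (P : Ideal (MvPolynomial (Fin (N + 1)) ℂ)) [P.IsPrime] (i j : Fin (N + 1)) :
    functionField P :=
  ⟨coordFun P i / coordFun P j, IntermediateField.subset_adjoin _ _ ⟨i, j, rfl⟩⟩

end Pool.Agent.H17LG

end
end

section

/-!
# V Up: an entire curve with bounded derivative has order at most two
-/

set_option autoImplicit false

open Topology Filter Metric

namespace Pool.Agent.H14.V

open Pool.Agent.H36.BP (EN wd)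

variable {N : ℕ}

theorem norm_ofLp_le (x : EN N) : ‖x.ofLp‖ ≤ ‖x‖ := by
  rw [pi_norm_le_iff_of_nonneg (norm_nonneg _)]
  exact fun i => PiLp.norm_apply_le x i

theorem norm_le_ofLp (x : EN N) : ‖x‖ ≤ Real.sqrt (N + 1) * ‖x.ofLp‖ := by
  rw [EuclideanSpace.norm_eq]
  have h1 : ∑ i, ‖x i‖ ^ 2 ≤ (N + 1) * ‖x.ofLp‖ ^ 2 := by
    calc ∑ i, ‖x i‖ ^ 2 ≤ ∑ _i : Fin (N + 1), ‖x.ofLp‖ ^ 2 :=
          Finset.sum_le_sum fun i _ => pow_le_pow_left₀ (norm_nonneg _) (norm_le_pi_norm x.ofLp i) 2
      _ = (N + 1) * ‖x.ofLp‖ ^ 2 := by simp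
  calc Real.sqrt (∑ i, ‖x i‖ ^ 2) ≤ Real.sqrt ((N + 1) * ‖x.ofLp‖ ^ 2) := Real.sqrt_le_sqrt h1
    _ = Real.sqrt (N + 1) * ‖x.ofLp‖ := by rw [Real.sqrt_mul (by positivity), Real.sqrt_sq (norm_nonneg _)]

end Pool.Agent.H14.V

end

section

/-!
# G3 Lift: normalised lifts
-/

set_option autoImplicit false

open Set Metric Filter Topology Real

namespace Pool.Agent.H56.G3

/-- the Herglotz integral: a holomorphic function whose real part is the Poisson integral -/
theorem herglotz {u : ℂ → ℝ} {c : ℂ} {R : ℝ} (hR : 0 < R) (hu : ContinuousOn u (sphere c R)) :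
    ∃ φ : ℂ → ℂ, DifferentiableOn ℂ φ (ball c R) ∧ ∀ w ∈ ball c R, (φ w).re = circleAverage (fun z => pk c w z * u z) c R := by
  have hRabs : |R| = R := abs_of_pos hR
  obtain ⟨g, hg⟩ : ∃ g : ℂ → ℝ, g = fun z => u (z + c) := ⟨_, rfl⟩
  have hgc : CircleIntegrable g 0 R := by
    refine ContinuousOn.circleIntegrable' ?_
    rw [hRabs, hg]
    refine hu.comp (by fun_prop) ?_
    intro z hz
    rw [mem_sphere_iff_norm, sub_zero] at hz
    rw [mem_sphere_iff_norm, add_sub_cancel_right]
    exact hz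
  have hgc' : CircleIntegrable (fun z => (g z : ℂ)) 0 R := by
    simp only [CircleIntegrable, intervalIntegrable_iff] at hgc ⊢
    exact Complex.ofRealCLM.integrable_comp hgc
  have h1 := differentiableOn_circleAverage_herglotzRieszKernel_smul hgc'
  refine ⟨fun w => circleAverage (fun ζ ↦ herglotzRieszKernel 0 (w - c) ζ • (g ζ : ℂ)) 0 R, ?_, ?_⟩
  · refine h1.comp (by fun_prop) ?_
    intro w hw
    rw [mem_ball_iff_norm] at hw
    rw [mem_ball_iff_norm, sub_zero]
    exact hw
  · intro w hw
    have hw' : w - c ∈ ball (0 : ℂ) R := by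
      rw [mem_ball_iff_norm] at hw
      rw [mem_ball_iff_norm, sub_zero]
      exact hw
    have h2 := re_circleAverage_herglotzRieszKernel_smul hgc hw'
    simp only
    rw [h2, ← circleAverage_map_add_const (f := fun z => pk c w z * u z)]
    congr 1
    funext z
    simp [pk, hg, herglotzRieszKernel_def]

theorem pk_self {c z : ℂ} (h : z ≠ c) : pk c c z = 1 := by
  have h1 : z - c ≠ 0 := sub_ne_zero.2 h
  unfold pk
  rw [sub_self, add_zero, sub_zero, div_self h1, Complex.one_re]

/-- Poisson's formula for the real part of a holomorphic function -/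
theorem pois_re {ψ : ℂ → ℂ} {c w : ℂ} {R : ℝ} (hR : 0 < R) (hψ : DiffContOnCl ℂ ψ (ball c R)) (hw : w ∈ ball c R) :
    circleAverage (fun z => pk c w z * (ψ z).re) c R = (ψ w).re := by
  have hRabs : |R| = R := abs_of_pos hR
  have hpk := pk_cont hw
  have hψc : ContinuousOn ψ (sphere c R) := hψ.continuousOn.mono (by rw [closure_ball c hR.ne']; exact sphere_subset_closedBall)
  have h1 := hψ.circleAverage_re_herglotzRieszKernel_smul' (c := c) (R := R) hw
  have h2 : CircleIntegrable (fun z => ((z - c + (w - c)) / ((z - c) - (w - c))).re • ψ z) c R := by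
    refine ContinuousOn.circleIntegrable' ?_
    rw [hRabs]
    exact hpk.smul hψc
  have h3 := Complex.reCLM.circleAverage_comp_comm h2
  rw [h1] at h3
  simp only [Complex.reCLM_apply] at h3
  rw [← h3]
  congr 1
  funext z
  simp [pk]

variable {E : Type*} [NormedAddCommGroup E] [NormedSpace ℂ E]

/-- **Normalised lifts.** -/
theorem norm_lift {C : ℝ} {F : ℂ → E} {z₀ : ℂ} {R : ℝ} (hR : 7 ≤ R) (hF : DifferentiableOn ℂ F (ball z₀ R)) (h0 : ∀ z ∈ ball z₀ R, F z ≠ 0)
    {Gd : Set ℂ} (hG : ∀ z ∈ Gd, ‖z - z₀‖ ≤ 1 → circleAverage (fun w => Real.log ‖F w‖) z 5 ≤ Real.log ‖F z‖ + C ∧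
      circleAverage (fun w => Real.log ‖F w‖) z (5 / 2) ≤ Real.log ‖F z‖ + C) :
    ∃ φ : ℂ → ℂ, DifferentiableOn ℂ φ (ball z₀ 2) ∧ (∀ z ∈ ball z₀ 2, ‖Complex.exp (-φ z) • F z‖ ≤ 1) ∧
      ∀ z ∈ Gd, ‖z - z₀‖ ≤ 1 → Real.exp (-10 * C) ≤ ‖Complex.exp (-φ z) • F z‖ := by
  by_cases hex : ∃ z₁ ∈ Gd, ‖z₁ - z₀‖ ≤ 1
  · obtain ⟨z₁, hz₁, hz₁0⟩ := hex
    have hsub : closedBall z₁ 5 ⊆ ball z₀ R := by
      intro z hz
      rw [mem_closedBall_iff_norm] at hz
      rw [mem_ball_iff_norm]
      calc ‖z - z₀‖ = ‖(z - z₁) + (z₁ - z₀)‖ := by rw [sub_add_sub_cancel]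
        _ ≤ ‖z - z₁‖ + ‖z₁ - z₀‖ := norm_add_le _ _
        _ < R := by linarith
    have hnorm : ∀ z ∈ ball z₀ R, ‖F z‖ ≠ 0 := fun z hz => norm_ne_zero_iff.2 (h0 z hz)
    have huc : ContinuousOn (fun z => Real.log ‖F z‖) (ball z₀ R) := ContinuousOn.log hF.continuousOn.norm hnorm
    obtain ⟨φ, hφ, hre⟩ := herglotz (by norm_num : (0 : ℝ) < 5) (huc.mono ((sphere_subset_closedBall).trans hsub))
    have hdc : ∀ (c : ℂ) (r : ℝ), 0 < r → closedBall c r ⊆ ball z₀ R → DiffContOnCl ℂ F (ball c r) := by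
      intro c r hr h
      refine (hF.mono ?_).diffContOnCl
      rw [closure_ball c hr.ne']
      exact h
    have hvnn : ∀ z ∈ ball z₁ 5, Real.log ‖F z‖ ≤ (φ z).re := by
      intro z hz
      rw [hre z hz]
      exact poisson_jensen (by norm_num) (hdc z₁ 5 (by norm_num) hsub) (fun w hw => h0 w (hsub (sphere_subset_closedBall hw))) hz
        (h0 z (hsub (ball_subset_closedBall hz)))
    have hin : ball z₀ 2 ⊆ ball z₁ 5 := by
      intro z hz
      rw [mem_ball_iff_norm] at hz ⊢
      calc ‖z - z₁‖ = ‖(z - z₀) - (z₁ - z₀)‖ := by rw [sub_sub_sub_cancel_right]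
        _ ≤ ‖z - z₀‖ + ‖z₁ - z₀‖ := norm_sub_le _ _
        _ < 5 := by linarith
    have hnf : ∀ z ∈ ball z₁ 5, ‖Complex.exp (-φ z) • F z‖ = Real.exp (Real.log ‖F z‖ - (φ z).re) := by
      intro z hz
      have h2 : 0 < ‖F z‖ := norm_pos_iff.2 (h0 z (hsub (ball_subset_closedBall hz)))
      rw [norm_smul, Complex.norm_exp, Complex.neg_re, sub_eq_neg_add, Real.exp_add, Real.exp_log h2]
    refine ⟨φ, hφ.mono hin, ?_, ?_⟩
    · intro z hz
      rw [hnf z (hin hz), Real.exp_le_one_iff]
      linarith [hvnn z (hin hz)]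
    · intro z hz hz0
      have hzin : z ∈ ball z₁ 5 := by
        apply hin
        rw [mem_ball_iff_norm]
        linarith
      rw [hnf z hzin]
      apply Real.exp_le_exp.2
      -- the value at `z₁`
      have hv1 : (φ z₁).re - Real.log ‖F z₁‖ ≤ C := by
        have h1 := hre z₁ (mem_ball_self (by norm_num))
        have h2 : circleAverage (fun z => pk z₁ z₁ z * Real.log ‖F z‖) z₁ 5 = circleAverage (fun z => Real.log ‖F z‖) z₁ 5 := by
          refine circleAverage_congr_sphere ?_
          intro w hw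
          have hw' : w ≠ z₁ := by
            rintro rfl
            simp at hw
          simp only [pk_self hw', one_mul]
        rw [h1, h2]
        linarith [(hG z₁ hz₁ hz₁0).1]
      -- the circle about `z`
      have h52 : (0 : ℝ) < 5 / 2 := by norm_num
      have hzz : ‖z₁ - z‖ ≤ 2 := by
        calc ‖z₁ - z‖ = ‖(z₁ - z₀) - (z - z₀)‖ := by rw [sub_sub_sub_cancel_right]
          _ ≤ ‖z₁ - z₀‖ + ‖z - z₀‖ := norm_sub_le _ _
          _ ≤ 2 := by linarith
      have hcb : closedBall z (5 / 2) ⊆ ball z₁ 5 := by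
        intro w hw
        rw [mem_closedBall_iff_norm] at hw
        rw [mem_ball_iff_norm]
        calc ‖w - z₁‖ = ‖(w - z) - (z₁ - z)‖ := by rw [sub_sub_sub_cancel_right]
          _ ≤ ‖w - z‖ + ‖z₁ - z‖ := norm_sub_le _ _
          _ < 5 := by linarith
      have hcb' : closedBall z (5 / 2) ⊆ ball z₀ R := hcb.trans (ball_subset_closedBall.trans hsub)
      have hφd : DiffContOnCl ℂ φ (ball z (5 / 2)) := by
        refine (hφ.mono ?_).diffContOnCl
        rw [closure_ball z h52.ne']
        exact hcb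
      have hz₁b : z₁ ∈ ball z (5 / 2) := by rw [mem_ball_iff_norm]; linarith
      have hsc : |(5 / 2 : ℝ)| = 5 / 2 := abs_of_pos h52
      have hφc : ContinuousOn (fun w => (φ w).re) (sphere z (5 / 2)) :=
        Complex.continuous_re.comp_continuousOn (hφ.continuousOn.mono (sphere_subset_closedBall.trans hcb))
      have huc' : ContinuousOn (fun w => Real.log ‖F w‖) (sphere z (5 / 2)) := huc.mono (sphere_subset_closedBall.trans hcb')
      have hpk := pk_cont hz₁b
      -- mean value of `Re φ`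
      have hm : circleAverage (fun w => (φ w).re) z (5 / 2) = (φ z).re := by
        rw [← pois_re h52 hφd (mem_ball_self h52)]
        refine circleAverage_congr_sphere ?_
        intro w hw
        have hw' : w ≠ z := by
          rintro rfl
          rw [hsc, mem_sphere_iff_norm, sub_self, norm_zero] at hw
          norm_num at hw
        simp only [pk_self hw', one_mul]
      have hk1 := pois_re h52 hφd hz₁b
      have hk2 := poisson_jensen h52 (hdc z (5 / 2) h52 hcb') (fun w hw => h0 w (hcb' (sphere_subset_closedBall hw))) hz₁b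
        (h0 z₁ (hsub (mem_closedBall_self (by norm_num))))
      have i1 : CircleIntegrable (fun w => pk z z₁ w * (φ w).re) z (5 / 2) := by
        refine ContinuousOn.circleIntegrable' ?_
        rw [hsc]
        exact hpk.mul hφc
      have i2 : CircleIntegrable (fun w => pk z z₁ w * Real.log ‖F w‖) z (5 / 2) := by
        refine ContinuousOn.circleIntegrable' ?_
        rw [hsc]
        exact hpk.mul huc'
      have i3 : CircleIntegrable (fun w => (φ w).re) z (5 / 2) := by
        refine ContinuousOn.circleIntegrable' ?_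
        rw [hsc]
        exact hφc
      have i4 : CircleIntegrable (fun w => Real.log ‖F w‖) z (5 / 2) := by
        refine ContinuousOn.circleIntegrable' ?_
        rw [hsc]
        exact huc'
      have hsub1 := circleAverage_fun_sub i1 i2
      have hsub2 := circleAverage_fun_sub i3 i4
      have hle : circleAverage (fun w => (1 / 9 : ℝ) • ((φ w).re - Real.log ‖F w‖)) z (5 / 2) ≤
          circleAverage (fun w => pk z z₁ w * (φ w).re - pk z z₁ w * Real.log ‖F w‖) z (5 / 2) := by
        refine circleAverage_mono ?_ (i1.sub i2) ?_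
        · exact (i3.sub i4).const_smul (a := (1 / 9 : ℝ))
        · intro w hw
          rw [hsc] at hw
          have h1 := le_re_herglotzRieszKernel hw hz₁b
          have h2 : (1 / 9 : ℝ) ≤ pk z z₁ w := by
            refine le_trans ?_ h1
            rw [div_le_div_iff₀ (by norm_num) (by linarith [norm_nonneg (z₁ - z)])]
            linarith
          have h3 := hvnn w (hcb (sphere_subset_closedBall hw))
          rw [smul_eq_mul, ← mul_sub]
          exact mul_le_mul_of_nonneg_right h2 (by linarith)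
      rw [circleAverage_fun_smul, hsub2, hsub1, hk1, hm, smul_eq_mul] at hle
      have h5 := (hG z hz hz0).2
      linarith
  · push Not at hex
    -- no good point: any bound
    have hc : ContinuousOn (fun z => ‖F z‖) (closedBall z₀ 2) := by
      refine hF.continuousOn.norm.mono ?_
      exact closedBall_subset_ball (by linarith)
    obtain ⟨M, hM⟩ := (isCompact_closedBall z₀ 2).exists_bound_of_continuousOn hc
    refine ⟨fun _ => (Real.log (max M 1) : ℂ), differentiableOn_const _, ?_, fun z hz hz0 => absurd hz0 (not_le.2 (hex z hz))⟩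
    intro z hz
    have h1 : 0 < max M 1 := lt_max_of_lt_right one_pos
    rw [norm_smul, Complex.norm_exp, Complex.neg_re, Complex.ofReal_re, Real.exp_neg, Real.exp_log h1, inv_mul_le_one₀ h1]
    have h2 := hM z (ball_subset_closedBall hz)
    rw [norm_norm] at h2
    exact h2.trans (le_max_left _ _)

end Pool.Agent.H56.G3

end
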