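import Pool.Agent.H94.G5T.M61
import Pool.Agent.H94.G5T.M76
import Pool.Agent.H94.G5T.M99

/-! The parts of this file: G4.Z.MDa, G4.R.CmD, G4.R.StepL. -/

section

/-!
# G4 Z MDa: the maximum principle for the distance of two curves over an arc

Normalised lifts (`H56/G3/Lift.norm_lift`; the hypothesis at the centre is `P/Tbd.tbd`) `F`, `G` on `ball z₀ 2`: the functions `(wg (F z) (G z) p) ^ μ * E z` are holomorphic; on the circle they are at most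
`C ^ μ dist ^ μ ‖E‖`; at the centre `‖F z₀‖, ‖G z₀‖ ≥ c`.
-/

set_option autoImplicit false

open Topology Filter Metric

namespace Pool.Agent.G4

open Pool.Agent.H36.BP (EN fs wd Sub)
open Pool.Agent.H14.PP (IsCone CurveAt Tan)
open Pool.Agent.H62.EF (MN pr)
open Pool.Agent.AD (Vd Chart Charts)
open Pool.Agent.TG (TMap Lat Geo Gd)
open Pool.Agent.G3 (Cv PS QD TT tbd)
open Pool.Agent.G3.A (wg wg_dist wg_diff)

variable {N k : ℕ} {X : Set (EN N)} {Λ : AddSubgroup (Vd (k + 1))} {u : EN N → Vd (k + 1)} {D : Set (Vd (k + 1))} {p : EN N → EN N → ℝ} {m : ℕ} {C : ℝ}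

private theorem mda_max (v : EuclideanSpace ℂ (Fin (N + 1) × Fin (N + 1))) : ∃ q, ‖v‖ ≤ ((N : ℝ) + 1) * ‖v q‖ := by
  obtain ⟨q, -, hq⟩ := Finset.exists_max_image (Finset.univ : Finset (Fin (N + 1) × Fin (N + 1))) (fun q => ‖v q‖) ⟨(0, 0), Finset.mem_univ _⟩
  refine ⟨q, ?_⟩
  have h1 : ‖v‖ ^ 2 ≤ (((N : ℝ) + 1) * ‖v q‖) ^ 2 := by
    rw [EuclideanSpace.norm_sq_eq]
    calc ∑ i, ‖v i‖ ^ 2 ≤ ∑ _i : Fin (N + 1) × Fin (N + 1), ‖v q‖ ^ 2 :=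
          Finset.sum_le_sum fun i _ => pow_le_pow_left₀ (norm_nonneg _) (hq i (Finset.mem_univ i)) 2
      _ = (((N : ℝ) + 1) * ‖v q‖) ^ 2 := by
        rw [Finset.sum_const, Finset.card_univ, Fintype.card_prod, Fintype.card_fin, nsmul_eq_mul]
        push_cast
        ring
  exact (pow_le_pow_iff_left₀ (norm_nonneg _) (by positivity) two_ne_zero).1 h1

/-- normalised lifts -/
private theorem mda_lift (hX : IsCone X) (hP : PS X Λ u D p m C) {δ : ℝ} (hδ : 0 < δ) {a : Vd (k + 1)} (ha : a ≠ 0) :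
    ∃ c : ℝ, 0 < c ∧ ∀ (F : ℂ → EN N) (h : ℂ → Vd (k + 1)) (z₀ : ℂ), Cv X Λ u (ball z₀ 7) F h → (∀ w ∈ ball z₀ 7, ‖deriv h w - a‖ ≤ ‖a‖ / 2) → h z₀ ∈ Gd D δ →
      ∃ F' : ℂ → EN N, DifferentiableOn ℂ F' (ball z₀ 2) ∧ (∀ z ∈ ball z₀ 2, F' z ≠ 0 ∧ pr (F' z) = pr (F z) ∧ ‖F' z‖ ≤ 1) ∧ c ≤ ‖F' z₀‖ := by
  have ha0 : 0 < ‖a‖ := norm_pos_iff.mpr ha
  obtain ⟨K₁, hK₁⟩ := tbd hP hδ (η := ‖a‖ / 2) (H := 3 * ‖a‖ / 2) (by positivity) (by positivity) (by norm_num : (0 : ℝ) < 5) (by norm_num : (5 : ℝ) < 6)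
  obtain ⟨K₂, hK₂⟩ := tbd hP hδ (η := ‖a‖ / 2) (H := 3 * ‖a‖ / 2) (by positivity) (by positivity) (by norm_num : (0 : ℝ) < 5 / 2) (by norm_num : (5 / 2 : ℝ) < 6)
  refine ⟨Real.exp (-10 * max K₁ K₂), Real.exp_pos _, fun F h z₀ hcv hd hz₀ => ?_⟩
  have hz₀b : z₀ ∈ ball z₀ 7 := mem_ball_self (by norm_num)
  have hne : ∀ z ∈ ball z₀ 7, F z ≠ 0 := fun z hz => Pool.Agent.TG.ne_zero hX (hcv.mem z hz)
  have hdb : ∀ w ∈ ball z₀ 7, ‖a‖ / 2 ≤ ‖deriv h w‖ ∧ ‖deriv h w‖ ≤ 3 * ‖a‖ / 2 := by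
    intro z hz
    have hdz := hd z hz
    constructor
    · have h1 : ‖a‖ ≤ ‖a - deriv h z‖ + ‖deriv h z‖ := norm_le_norm_sub_add a _
      rw [norm_sub_rev] at h1
      linarith
    · have h1 : ‖deriv h z‖ ≤ ‖deriv h z - a‖ + ‖a‖ := norm_le_norm_sub_add _ a
      linarith
  have hsub : ball z₀ 6 ⊆ ball z₀ 7 := ball_subset_ball (by norm_num)
  have hcv6 : Cv X Λ u (ball z₀ 6) F h := ⟨hcv.F_diff.mono hsub, hcv.h_diff.mono hsub, fun z hz => hcv.mem z (hsub hz), fun z hz => hcv.lift z (hsub hz)⟩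
  have h1 := hK₁ F h z₀ hcv6 (fun w hw => (hdb w (hsub hw)).2) hz₀ (hdb z₀ hz₀b).1
  have h2 := hK₂ F h z₀ hcv6 (fun w hw => (hdb w (hsub hw)).2) hz₀ (hdb z₀ hz₀b).1
  have hG : ∀ z ∈ ({z₀} : Set ℂ), ‖z - z₀‖ ≤ 1 →
      Real.circleAverage (fun w => Real.log ‖F w‖) z 5 ≤ Real.log ‖F z‖ + max K₁ K₂ ∧
      Real.circleAverage (fun w => Real.log ‖F w‖) z (5 / 2) ≤ Real.log ‖F z‖ + max K₁ K₂ := by
    intro z hz _
    rw [Set.mem_singleton_iff] at hz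
    subst hz
    unfold TT at h1 h2
    exact ⟨by linarith [le_max_left K₁ K₂], by linarith [le_max_right K₁ K₂]⟩
  obtain ⟨φ, hφ, hle, hge⟩ := Pool.Agent.H56.G3.norm_lift (z₀ := z₀) (le_refl (7 : ℝ)) hcv.F_diff hne hG
  have hsub2 : ball z₀ 2 ⊆ ball z₀ 7 := ball_subset_ball (by norm_num)
  refine ⟨fun z => Complex.exp (-φ z) • F z, hφ.neg.cexp.smul (hcv.F_diff.mono hsub2), fun z hz => ⟨?_, ?_, hle z hz⟩, ?_⟩
  · exact smul_ne_zero (Complex.exp_ne_zero _) (hne z (hsub2 hz))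
  · exact Pool.Agent.H62.EF.pr_smul _ (Complex.exp_ne_zero _)
  · exact hge z₀ rfl (by rw [sub_self, norm_zero]; exact zero_le_one)

/-- the maximum principle -/
theorem mda (hX : IsCone X) (hP : PS X Λ u D p m C) {δ : ℝ} (hδ : 0 < δ) {a : Vd (k + 1)} (ha : a ≠ 0) (μ : ℕ) :
    ∃ C₀ : ℝ, 0 < C₀ ∧ ∀ (F G : ℂ → EN N) (h : ℂ → Vd (k + 1)) (z₀ : ℂ), Cv X Λ u (ball z₀ 7) F h → Cv X Λ u (ball z₀ 7) G h →
      (∀ w ∈ ball z₀ 7, ‖deriv h w - a‖ ≤ ‖a‖ / 2) → h z₀ ∈ Gd D δ → ∀ r : ℝ, 0 < r → r ≤ 1 → ∀ E : ℂ → ℂ, DifferentiableOn ℂ E (closedBall z₀ r) → ∀ S : ℝ,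
      (∀ z, dist z z₀ = r → dist (pr (F z)) (pr (G z)) ^ μ * ‖E z‖ ≤ S) → dist (pr (F z₀)) (pr (G z₀)) ^ μ * ‖E z₀‖ ≤ C₀ * S := by
  obtain ⟨c, hc, hlift⟩ := mda_lift hX hP hδ ha
  obtain ⟨C₁, hC₁, hw⟩ := wg_dist N
  refine ⟨(C₁ * ((N : ℝ) + 1) / (c * c)) ^ μ * C₁ ^ μ, by positivity, fun F G h z₀ hF hG hd hz₀ r hr hr1 E hE S hS => ?_⟩
  obtain ⟨F', hF', hF1, hFc⟩ := hlift F h z₀ hF hd hz₀
  obtain ⟨G', hG', hG1, hGc⟩ := hlift G h z₀ hG hd hz₀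
  have hsub : closedBall z₀ r ⊆ ball z₀ 2 := fun w hw' => by
    rw [mem_closedBall] at hw'
    rw [mem_ball]
    linarith
  have hz₀2 : z₀ ∈ ball z₀ 2 := mem_ball_self (by norm_num)
  have hv : DifferentiableOn ℂ (fun w => wg (F' w) (G' w)) (ball z₀ 2) := wg_diff hF' hG'
  obtain ⟨q, hq⟩ := mda_max (wg (F' z₀) (G' z₀))
  have hvq : DifferentiableOn ℂ (fun w => wg (F' w) (G' w) q) (ball z₀ 2) := (EuclideanSpace.proj (𝕜 := ℂ) q).differentiable.comp_differentiableOn hv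
  have hφ : DifferentiableOn ℂ (fun w => (wg (F' w) (G' w) q) ^ μ * E w) (closedBall z₀ r) := ((hvq.mono hsub).pow μ).mul hE
  have hcl : DiffContOnCl ℂ (fun w => (wg (F' w) (G' w) q) ^ μ * E w) (ball z₀ r) := by
    refine DifferentiableOn.diffContOnCl ?_
    rw [closure_ball z₀ hr.ne']
    exact hφ
  have hbd : ∀ w ∈ frontier (ball z₀ r), ‖(wg (F' w) (G' w) q) ^ μ * E w‖ ≤ C₁ ^ μ * S := by
    intro w hw'
    rw [frontier_ball z₀ hr.ne', mem_sphere] at hw'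
    have hwb : w ∈ ball z₀ 2 := hsub (mem_closedBall.2 hw'.le)
    obtain ⟨h1, h2, h3⟩ := hF1 w hwb
    obtain ⟨h4, h5, h6⟩ := hG1 w hwb
    have h7 := (hw (F' w) (G' w) h1 h4).1
    have h8 := hS w hw'
    rw [← h2, ← h5] at h8
    have h9 : 0 ≤ dist (pr (F' w)) (pr (G' w)) := dist_nonneg
    have h10 : ‖F' w‖ * ‖G' w‖ ≤ 1 := mul_le_one₀ h3 (norm_nonneg _) h6
    have h11 : ‖wg (F' w) (G' w) q‖ ≤ C₁ * dist (pr (F' w)) (pr (G' w)) := by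
      calc ‖wg (F' w) (G' w) q‖ ≤ ‖wg (F' w) (G' w)‖ := PiLp.norm_apply_le _ q
        _ ≤ C₁ * dist (pr (F' w)) (pr (G' w)) * ‖F' w‖ * ‖G' w‖ := h7
        _ = C₁ * dist (pr (F' w)) (pr (G' w)) * (‖F' w‖ * ‖G' w‖) := by ring
        _ ≤ C₁ * dist (pr (F' w)) (pr (G' w)) * 1 := mul_le_mul_of_nonneg_left h10 (by positivity)
        _ = _ := mul_one _
    rw [norm_mul, norm_pow]
    calc ‖wg (F' w) (G' w) q‖ ^ μ * ‖E w‖ ≤ (C₁ * dist (pr (F' w)) (pr (G' w))) ^ μ * ‖E w‖ :=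
          mul_le_mul_of_nonneg_right (pow_le_pow_left₀ (norm_nonneg _) h11 μ) (norm_nonneg _)
      _ = C₁ ^ μ * (dist (pr (F' w)) (pr (G' w)) ^ μ * ‖E w‖) := by rw [mul_pow]; ring
      _ ≤ C₁ ^ μ * S := mul_le_mul_of_nonneg_left h8 (by positivity)
  have hmax : ‖(wg (F' z₀) (G' z₀) q) ^ μ * E z₀‖ ≤ C₁ ^ μ * S := by
    refine Complex.norm_le_of_forall_mem_frontier_norm_le isBounded_ball hcl hbd ?_
    rw [closure_ball z₀ hr.ne']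
    exact mem_closedBall_self hr.le
  rw [norm_mul, norm_pow] at hmax
  obtain ⟨h1, h2, -⟩ := hF1 z₀ hz₀2
  obtain ⟨h4, h5, -⟩ := hG1 z₀ hz₀2
  have h7 := (hw (F' z₀) (G' z₀) h1 h4).2
  rw [← h2, ← h5]
  have h11 : c * c ≤ ‖F' z₀‖ * ‖G' z₀‖ := mul_le_mul hFc hGc hc.le (norm_nonneg _)
  have h12 : dist (pr (F' z₀)) (pr (G' z₀)) ≤ C₁ * ((N : ℝ) + 1) / (c * c) * ‖wg (F' z₀) (G' z₀) q‖ := by
    rw [div_mul_eq_mul_div, le_div_iff₀ (by positivity)]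
    calc dist (pr (F' z₀)) (pr (G' z₀)) * (c * c) ≤ dist (pr (F' z₀)) (pr (G' z₀)) * (‖F' z₀‖ * ‖G' z₀‖) := mul_le_mul_of_nonneg_left h11 dist_nonneg
      _ = dist (pr (F' z₀)) (pr (G' z₀)) * ‖F' z₀‖ * ‖G' z₀‖ := by ring
      _ ≤ C₁ * ‖wg (F' z₀) (G' z₀)‖ := h7
      _ ≤ C₁ * (((N : ℝ) + 1) * ‖wg (F' z₀) (G' z₀) q‖) := mul_le_mul_of_nonneg_left hq hC₁.le
      _ = _ := by ring
  calc dist (pr (F' z₀)) (pr (G' z₀)) ^ μ * ‖E z₀‖ ≤ (C₁ * ((N : ℝ) + 1) / (c * c) * ‖wg (F' z₀) (G' z₀) q‖) ^ μ * ‖E z₀‖ :=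
        mul_le_mul_of_nonneg_right (pow_le_pow_left₀ dist_nonneg h12 μ) (norm_nonneg _)
    _ = (C₁ * ((N : ℝ) + 1) / (c * c)) ^ μ * (‖wg (F' z₀) (G' z₀) q‖ ^ μ * ‖E z₀‖) := by rw [mul_pow]; ring
    _ ≤ (C₁ * ((N : ℝ) + 1) / (c * c)) ^ μ * (C₁ ^ μ * S) := mul_le_mul_of_nonneg_left hmax (by positivity)
    _ = _ := by ring

end Pool.Agent.G4

end

section

/-!
# G4 R CmD: the combination of the divided differences

The curves `z ↦ φ (y n + σ n i w + z a)`, `i ≤ m + 1`, `φ` a sheet, and the coefficients `dw (m + 1) (σ n) i / Nb n`, `Nb n → ∞`: the combination `cX` is the divided difference of order `m + 1` in the chart `nv v`,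
divided by `Nb n` (`cX_dd`).  If the divided differences of the orders `≤ m` are bounded and those of order `m + 1` are at most `K Nb n` over `Gd D δ'`, then `Cmb` holds (`cmb_dd`): for `lin`, `dd_comp_lip` with the function
`(e, ζ) ↦ F (e, y n + x' a + ζ w) - L (e, 0)`, `L = fderiv F`, which is Lipschitz in `e` with a small constant.  `dd_bd4`: the bound over `Gd D δ'`.
-/

set_option autoImplicit false

open Topology Filter Metric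

namespace Pool.Agent.G4.R

open Pool.Agent.H36.BP (EN fs wd)
open Pool.Agent.H14.PP (IsCone CurveAt Tan)
open Pool.Agent.H62.EF (MN pr)
open Pool.Agent.AD (Vd Chart Charts IsGerm)
open Pool.Agent.TG
open Pool.Agent.G3
open Pool.Agent.G3.A (Ba Hc Dec Sepa Tht Frm NL Lm CRL Tb ToE CE Sht)
open Pool.Agent.G3.R (Prm Shs DDb nv_near dd dw dd_sub dd_map dd_congr Nod np np_node sub_np dd_last dd_cauchy dd_zero dd_nv inner_near)
open Pool.Agent.G3.C (Gc nv nd nv_pr)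
open Pool.Agent.G4.A

variable {N k : ℕ} {X : Set (EN N)} {Λ : AddSubgroup (Vd (k + 1))} {u : EN N → Vd (k + 1)} {D B Bad : Set (Vd (k + 1))} {a b w : Vd (k + 1)} {E : Submodule ℝ (Vd (k + 1))}
  {Γ : AddSubgroup (Vd (k + 1))} {J rW : ℕ} {W : Fin rW → Vd (k + 1) →L[ℂ] ℂ} {SS : Set (Vd (k + 1) → MN N)} {α : Fin J → VForm X Λ u} {c₀ C₀ ρ δ : ℝ}

/-- the values in the affine chart are near the unit vector -/
theorem shs_near (hS : Shs X Λ u D a b E SS) (hL : LG Λ D Bad a) {δ' η : ℝ} (hδ' : 0 < δ') (hη : 0 < η) : ∃ r : ℝ, 0 < r ∧ ∀ φ ∈ SS, ∀ y ∈ Tb b E, y ∈ Gd D δ' →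
    ∀ v : EN N, ‖v‖ = 1 → pr v = φ y → ∀ y' ∈ Tb b E, ‖y' - y‖ ≤ r → ‖nv v (φ y') - v‖ < η := by
  obtain ⟨ε, hε, h1⟩ := nv_near (N := N) hη
  obtain ⟨r, hr, h2⟩ := hS.unif4 hL hδ' hε
  refine ⟨r, hr, fun φ hφ y hy hyG v hv hvφ y' hy' hd => h1 v hv _ ?_⟩
  rw [hvφ]
  exact h2 φ hφ y hy hyG y' hy' hd

/-- divided differences of a composition, with a Lipschitz constant -/
theorem dd_comp_lip (m : ℕ) {R C : ℝ} (hR : 0 < R) (hC : 0 ≤ C) : ∃ r K : ℝ, 0 < r ∧ 0 < K ∧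
    ∀ (E F : Type) [NormedAddCommGroup E] [NormedSpace ℂ E] [NormedAddCommGroup F] [NormedSpace ℂ F] [CompleteSpace F] (Ψ : E × ℂ → F) (x₀ : E) (M L : ℝ), 0 ≤ M → 0 ≤ L →
      DifferentiableOn ℂ Ψ (ball x₀ R ×ˢ ball (0 : ℂ) R) → (∀ p ∈ ball x₀ R ×ˢ ball (0 : ℂ) R, ‖Ψ p‖ ≤ M) →
      (∀ x ∈ ball x₀ R, ∀ x' ∈ ball x₀ R, ∀ ζ ∈ ball (0 : ℂ) R, ‖Ψ (x, ζ) - Ψ (x', ζ)‖ ≤ L * ‖x - x'‖) →
      ∀ (σ : ℕ → ℝ) (f : ℝ → E), Nod (m + 1) σ r → (∀ i ≤ m + 1, f (σ i) ∈ ball x₀ (R / 4)) → (∀ j ≤ m, ‖dd j σ f‖ ≤ C) →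
        ‖dd (m + 1) σ (fun s : ℝ => Ψ (f s, (s : ℂ)))‖ ≤ K * M + L * ‖dd (m + 1) σ f‖ := by
  have hr0 : 0 < min (R / 2) (min (1 / 3) (R / (12 * (m + 1) * (C + 1)))) := by positivity
  set r := min (R / 2) (min (1 / 3) (R / (12 * (m + 1) * (C + 1)))) with hrdef
  have hr1 : r ≤ R / 2 := min_le_left _ _
  have hr2 : 3 * r ≤ 1 := by
    have := (min_le_right (R / 2) (min (1 / 3) (R / (12 * (m + 1) * (C + 1))))).trans (min_le_left _ _)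
    linarith only [this]
  have hr3 : m * (3 * r * C) < R / 4 := by
    have h1 : r ≤ R / (12 * (m + 1) * (C + 1)) := (min_le_right (R / 2) (min (1 / 3) (R / (12 * (m + 1) * (C + 1))))).trans (min_le_right _ _)
    have h2 : r * (12 * (m + 1) * (C + 1)) ≤ R := by
      rwa [le_div_iff₀ (by positivity)] at h1
    nlinarith only [h2, hr0, hC, mul_nonneg hr0.le hC, mul_pos hr0 (by positivity : (0 : ℝ) < m + 1), mul_nonneg (mul_nonneg hr0.le hC) (Nat.cast_nonneg (α := ℝ) m)]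
  refine ⟨r, 2 / r ^ (m + 1), hr0, by positivity, ?_⟩
  intro E F _ _ _ _ _ Ψ x₀ M L hM0 hL0 hΨ hM hLip σ f hσ hf hdd
  have hσm : Nod m σ r := hσ.mono (Nat.le_succ m) le_rfl
  have hnp : ∀ ζ ∈ ball (0 : ℂ) (2 * r), np m σ f ζ ∈ ball x₀ (R / 2) := by
    intro ζ hζ
    have h1 : ∀ i ≤ m, ‖ζ - (σ i : ℂ)‖ ≤ 3 * r := by
      intro i hi
      have h2 : ‖ζ‖ ≤ 2 * r := by
        rw [mem_ball_zero_iff] at hζ
        exact hζ.le
      have h3 : ‖(σ i : ℂ)‖ ≤ r := by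
        rw [Complex.norm_real, Real.norm_eq_abs]
        exact hσm.le i hi
      calc ‖ζ - (σ i : ℂ)‖ ≤ ‖ζ‖ + ‖(σ i : ℂ)‖ := norm_sub_le _ _
        _ ≤ 3 * r := by linarith only [h2, h3]
    have h2 : np m σ f ζ - f (σ 0) = ∑ j ∈ Finset.range m, (∏ i ∈ Finset.range (j + 1), (ζ - (σ i : ℂ))) • dd (j + 1) σ f := by
      unfold np
      rw [Finset.sum_range_succ']
      simp only [Finset.range_zero, Finset.prod_empty, one_smul, dd_zero, add_sub_cancel_right]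
    have h3 : ‖np m σ f ζ - f (σ 0)‖ ≤ m * (3 * r * C) := by
      rw [h2]
      calc ‖∑ j ∈ Finset.range m, (∏ i ∈ Finset.range (j + 1), (ζ - (σ i : ℂ))) • dd (j + 1) σ f‖ ≤ ∑ j ∈ Finset.range m, 3 * r * C := by
            refine norm_sum_le_of_le _ fun j hj => ?_
            have hjm : j + 1 ≤ m := Finset.mem_range.mp hj
            rw [norm_smul, norm_prod]
            have h4 : ∏ i ∈ Finset.range (j + 1), ‖ζ - (σ i : ℂ)‖ ≤ ∏ i ∈ Finset.range (j + 1), (3 * r) :=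
              Finset.prod_le_prod (fun i _ => norm_nonneg _) fun i hi => h1 i (by have := Finset.mem_range.mp hi; omega)
            rw [Finset.prod_const, Finset.card_range] at h4
            have h5 : (3 * r) ^ (j + 1) ≤ 3 * r := by
              calc (3 * r) ^ (j + 1) = (3 * r) ^ j * (3 * r) := pow_succ _ _
                _ ≤ 1 * (3 * r) := mul_le_mul_of_nonneg_right (pow_le_one₀ (by positivity) hr2) (by positivity)
                _ = 3 * r := one_mul _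
            exact mul_le_mul (h4.trans h5) (hdd (j + 1) hjm) (norm_nonneg _) (by positivity)
        _ = m * (3 * r * C) := by
            rw [Finset.sum_const, Finset.card_range, nsmul_eq_mul]
    have h4 := hf 0 (Nat.zero_le _)
    rw [mem_ball] at h4 ⊢
    calc dist (np m σ f ζ) x₀ ≤ dist (np m σ f ζ) (f (σ 0)) + dist (f (σ 0)) x₀ := dist_triangle _ _ _
      _ < R / 4 + R / 4 := by
        rw [dist_eq_norm (np m σ f ζ)]
        linarith only [hr3, h3, h4]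
      _ = R / 2 := by ring
  have hGd : DifferentiableOn ℂ (fun ζ : ℂ => Ψ (np m σ f ζ, ζ)) (ball 0 (2 * r)) := by
    apply hΨ.fun_comp
    · unfold np
      fun_prop
    · intro ζ hζ
      exact ⟨ball_subset_ball (by linarith only [hr0, hr1]) (hnp ζ hζ), ball_subset_ball (by linarith) hζ⟩
  have h1 := dd_cauchy hr0 hGd (M := M) (fun ζ hζ => hM _ ⟨ball_subset_ball (by linarith only [hr0, hr1]) (hnp ζ hζ), ball_subset_ball (by linarith only [hr1]) hζ⟩) hσ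
  have h2 := dd_last (m := m) (σ := σ) (f := fun s : ℝ => Ψ (f s, (s : ℂ))) (g := fun s : ℝ => Ψ (np m σ f (s : ℂ), (s : ℂ)))
    (fun i hi => by simp only [np_node hσm f hi])
  have h3 : ‖(∏ i ∈ Finset.range (m + 1), ((σ (m + 1) : ℂ) - (σ i : ℂ))⁻¹) •
      (Ψ (f (σ (m + 1)), (σ (m + 1) : ℂ)) - Ψ (np m σ f (σ (m + 1) : ℂ), (σ (m + 1) : ℂ)))‖ ≤ L * ‖dd (m + 1) σ f‖ := by
    have hs : (σ (m + 1) : ℂ) ∈ ball (0 : ℂ) (2 * r) := by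
      rw [mem_ball_zero_iff, Complex.norm_real, Real.norm_eq_abs]
      exact (hσ.le (m + 1) le_rfl).trans_lt (by linarith only [hr0])
    have hs' : (σ (m + 1) : ℂ) ∈ ball (0 : ℂ) R := ball_subset_ball (by linarith) hs
    have h4 := hLip _ (ball_subset_ball (by linarith only [hr0, hr1]) (hf (m + 1) le_rfl)) _ (ball_subset_ball (by linarith only [hr0, hr1]) (hnp _ hs)) _ hs'
    rw [sub_np hσ f] at h4
    rw [norm_smul]
    rw [norm_smul] at h4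
    have hne : ∀ i ∈ Finset.range (m + 1), ((σ (m + 1) : ℂ) - (σ i : ℂ)) ≠ 0 := by
      intro i hi h0
      have him := Finset.mem_range.mp hi
      have h5 : σ (m + 1) = σ i := by exact_mod_cast sub_eq_zero.mp h0
      have h6 := hσ.inj (m + 1) le_rfl i (by omega) h5
      omega
    have hP : 0 < ‖∏ i ∈ Finset.range (m + 1), ((σ (m + 1) : ℂ) - (σ i : ℂ))‖ := norm_pos_iff.mpr (Finset.prod_ne_zero_iff.mpr hne)
    rw [Finset.prod_inv_distrib, norm_inv]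
    calc ‖∏ i ∈ Finset.range (m + 1), ((σ (m + 1) : ℂ) - (σ i : ℂ))‖⁻¹ * ‖Ψ (f (σ (m + 1)), (σ (m + 1) : ℂ)) - Ψ (np m σ f (σ (m + 1) : ℂ), (σ (m + 1) : ℂ))‖
        ≤ ‖∏ i ∈ Finset.range (m + 1), ((σ (m + 1) : ℂ) - (σ i : ℂ))‖⁻¹ *
          (L * (‖∏ i ∈ Finset.range (m + 1), ((σ (m + 1) : ℂ) - (σ i : ℂ))‖ * ‖dd (m + 1) σ f‖)) :=
          mul_le_mul_of_nonneg_left h4 (inv_nonneg.mpr hP.le)
      _ = L * ‖dd (m + 1) σ f‖ := by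
        field_simp
  have h4 : dd (m + 1) σ (fun s : ℝ => Ψ (f s, (s : ℂ))) = dd (m + 1) σ (fun s : ℝ => Ψ (np m σ f (s : ℂ), (s : ℂ))) +
      (∏ i ∈ Finset.range (m + 1), ((σ (m + 1) : ℂ) - (σ i : ℂ))⁻¹) •
      (Ψ (f (σ (m + 1)), (σ (m + 1) : ℂ)) - Ψ (np m σ f (σ (m + 1) : ℂ), (σ (m + 1) : ℂ))) := by
    rw [← h2]
    abel
  rw [h4]
  refine (norm_add_le _ _).trans ((add_le_add h1 h3).trans (le_of_eq ?_))
  ring

/-- the bound for the divided differences of the orders `≤ m`, with the same constants -/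
theorem dd_low {m : ℕ} (hm : ∀ j ≤ m, DDb D (Tb b E) SS w j) {δ' : ℝ} (hδ' : 0 < δ') : ∃ r C : ℝ, 0 < r ∧ 0 ≤ C ∧ ∀ j ≤ m, ∀ φ ∈ SS, ∀ y ∈ Tb b E, y ∈ Gd D δ' →
    ∀ v : EN N, ‖v‖ = 1 → pr v = φ y → ∀ σ : ℕ → ℝ, Nod j σ r → ‖dd j σ fun s : ℝ => nv v (φ (y + (s : ℂ) • w))‖ ≤ C := by
  induction m with
  | zero =>
    obtain ⟨r, C, hr, hC, h⟩ := hm 0 le_rfl δ' hδ'
    refine ⟨r, C, hr, hC, fun j hj => ?_⟩
    obtain rfl : j = 0 := Nat.le_zero.1 hj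
    exact h
  | succ m ih =>
    obtain ⟨r₁, C₁, hr₁, hC₁, h₁⟩ := ih fun j hj => hm j (hj.trans (Nat.le_succ m))
    obtain ⟨r₂, C₂, hr₂, hC₂, h₂⟩ := hm (m + 1) le_rfl δ' hδ'
    refine ⟨min r₁ r₂, max C₁ C₂, lt_min hr₁ hr₂, hC₁.trans (le_max_left _ _), fun j hj φ hφ y hy hyD v hv hpv σ hσ => ?_⟩
    rcases Nat.le_succ_iff.1 hj with hj | hj
    · exact (h₁ j hj φ hφ y hy hyD v hv hpv σ (hσ.mono le_rfl (min_le_left _ _))).trans (le_max_left _ _)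
    · subst hj
      exact (h₂ φ hφ y hy hyD v hv hpv σ (hσ.mono le_rfl (min_le_right _ _))).trans (le_max_right _ _)

/-- the change of the chart at the point `y` -/
theorem dd_chg (hX : IsCone X) (hL : LG Λ D Bad a) (hS : Shs X Λ u D a b E SS) (hw : w ∈ E) {m : ℕ} (hm : ∀ j ≤ m, DDb D (Tb b E) SS w j) {δ' κ : ℝ} (hδ' : 0 < δ')
    (hκ : 0 < κ) : ∃ r K : ℝ, 0 < r ∧ 0 < K ∧ ∀ φ ∈ SS, ∀ y ∈ Tb b E, y ∈ Gd D δ' → ∀ v' : EN N, ‖v'‖ = 1 → pr v' = φ y → ∀ v : EN N, ‖v‖ = 1 → κ ≤ ‖(inner ℂ v v' : ℂ)‖ →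
      ∀ σ : ℕ → ℝ, Nod (m + 1) σ r → (∀ j ≤ m, ‖dd j σ fun s : ℝ => nv v (φ (y + (s : ℂ) • w))‖ ≤ K) ∧
        ‖dd (m + 1) σ fun s : ℝ => nv v (φ (y + (s : ℂ) • w))‖ ≤ K * (‖dd (m + 1) σ fun s : ℝ => nv v' (φ (y + (s : ℂ) • w))‖ + 1) := by
  obtain ⟨r₁, C₁, hr₁, hC₁, h₁⟩ := dd_low hm hδ'
  obtain ⟨r₂, K, ε, hr₂, hK, hε, h₂⟩ := dd_nv (N := N) m hκ hC₁
  obtain ⟨r₃, hr₃, h₃⟩ := hS.unif4 hL hδ' hε
  have hw1 : 0 < ‖w‖ + 1 := by positivity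
  refine ⟨min r₁ (min r₂ (r₃ / (‖w‖ + 1))), K, lt_min hr₁ (lt_min hr₂ (by positivity)), hK, fun φ hφ y hy hyD v' hv' hpv' v hv hvv σ hσ => ?_⟩
  have hσ1 : Nod (m + 1) σ r₁ := hσ.mono le_rfl (min_le_left _ _)
  have hσ2 : Nod (m + 1) σ r₂ := hσ.mono le_rfl ((min_le_right _ _).trans (min_le_left _ _))
  have hσ3 : Nod (m + 1) σ (r₃ / (‖w‖ + 1)) := hσ.mono le_rfl ((min_le_right _ _).trans (min_le_right _ _))
  refine h₂ v v' hv hv' hvv σ (fun s : ℝ => φ (y + (s : ℂ) • w)) hσ2 (fun i hi => ?_) fun j hj => h₁ j hj φ hφ y hy hyD v' hv' hpv' σ (hσ1.mono (hj.trans (Nat.le_succ m)) le_rfl)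
  have hyi : y + ((σ i : ℝ) : ℂ) • w ∈ Tb b E := tb_add hy (smul_mem_E hw _)
  obtain ⟨x, hxX, hpx, -⟩ := hS.fb4 hφ hyi
  refine ⟨x, fun h0 => hX.zero_notMem (h0 ▸ hxX), hpx.symm, ?_⟩
  rw [hpx, hpv']
  refine h₃ φ hφ y hy hyD _ hyi ?_
  have e : y + ((σ i : ℝ) : ℂ) • w - y = ((σ i : ℝ) : ℂ) • w := by abel
  rw [e, norm_smul, Complex.norm_real, Real.norm_eq_abs]
  have h4 := hσ3.le i hi
  rw [le_div_iff₀ hw1] at h4
  have := abs_nonneg (σ i)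
  nlinarith only [h4, this, norm_nonneg w]

/-- the base points -/
def yd {ι : Type*} (m : ℕ) (y : ι → Vd (k + 1)) (σ : ι → ℕ → ℝ) (w : Vd (k + 1)) (i : Fin (m + 2)) (n : ι) : Vd (k + 1) := y n + ((σ n i : ℝ) : ℂ) • w

/-- the coefficients -/
noncomputable def cd {ι : Type*} (m : ℕ) (σ : ι → ℕ → ℝ) (Nb : ι → ℝ) (n : ι) (i : Fin (m + 2)) : ℂ := ((dw (m + 1) (σ n) i : ℝ) : ℂ) / (Nb n : ℂ)

theorem sum_cd {ι : Type*} {m : ℕ} {y : ι → Vd (k + 1)} {σ : ι → ℕ → ℝ} {w : Vd (k + 1)} {Nb : ι → ℝ} (n : ι) (F : Vd (k + 1) → ℂ) (e : Vd (k + 1)) :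
    ∑ i : Fin (m + 2), cd m σ Nb n i * F (yd m y σ w i n + e) = (Nb n : ℂ)⁻¹ * dd (m + 1) (σ n) fun s : ℝ => F (y n + e + (s : ℂ) • w) := by
  unfold dd
  rw [Finset.mul_sum, Finset.sum_range]
  refine Finset.sum_congr rfl fun i _ => ?_
  simp only [yd, cd, smul_eq_mul]
  rw [add_right_comm (y n) e]
  ring

theorem cX_dd {ι : Type*} {m : ℕ} (φ : Vd (k + 1) → MN N) (y : ι → Vd (k + 1)) (σ : ι → ℕ → ℝ) (w : Vd (k + 1)) (Nb : ι → ℝ) (v : EN N) (n : ι) (x : ℂ) :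
    cX (fun n i (_ : ℂ) => cd m σ Nb n i) (fun i n z => φ (yd m y σ w i n + z • a)) v n x = (Nb n : ℂ)⁻¹ • dd (m + 1) (σ n) fun s : ℝ => nv v (φ (y n + x • a + (s : ℂ) • w)) := by
  unfold cX dd
  rw [Finset.smul_sum, Finset.sum_range]
  refine Finset.sum_congr rfl fun i _ => ?_
  simp only [yd, cd]
  rw [smul_smul, add_right_comm (y n) (x • a)]
  congr 1
  ring

/-- the hypothesis on the sheet `φ`: the divided differences of order `m + 1` are at most `K Nb n` over `Gd D δ'` -/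
def Dbd (D : Set (Vd (k + 1))) (T : Set (Vd (k + 1))) (w : Vd (k + 1)) {ι : Type*} (𝒰 : Ultrafilter ι) (m : ℕ) (φ : Vd (k + 1) → MN N) (σ : ι → ℕ → ℝ) (Nb : ι → ℝ) : Prop :=
  ∀ δ' : ℝ, 0 < δ' → ∃ K : ℝ, 0 < K ∧ ∀ᶠ n in (𝒰 : Filter ι), ∀ y' ∈ T, y' ∈ Gd D δ' → ∀ v' : EN N, ‖v'‖ = 1 → pr v' = φ y' → sz w (m + 1) (σ n) φ y' v' ≤ K * Nb n

/-- a unit vector over a point -/
theorem shs_unit (hX : IsCone X) (hS : Shs X Λ u D a b E SS) {φ : Vd (k + 1) → MN N} (hφ : φ ∈ SS) {y : Vd (k + 1)} (hy : y ∈ Tb b E) : ∃ v : EN N, ‖v‖ = 1 ∧ pr v = φ y ∧ v ≠ 0 := by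
  obtain ⟨x, hx, hxm, -⟩ := hS.fb4 hφ hy
  have hx0 : x ≠ 0 := fun h => hX.zero_notMem (h ▸ hx)
  have hn : ‖x‖ ≠ 0 := norm_ne_zero_iff.2 hx0
  have hc : ((‖x‖⁻¹ : ℝ) : ℂ) ≠ 0 := by
    rw [Complex.ofReal_ne_zero]
    exact inv_ne_zero hn
  refine ⟨((‖x‖⁻¹ : ℝ) : ℂ) • x, ?_, ?_, smul_ne_zero hc hx0⟩
  · rw [norm_smul, Complex.norm_real, norm_inv, norm_norm, inv_mul_cancel₀ hn]
  · rw [Pool.Agent.H62.EF.pr_smul _ hc, hxm]

/-- the bounds near a point, in a fixed chart, with uniform constants -/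
theorem dd_loc (hX : IsCone X) (hL : LG Λ D Bad a) (hS : Shs X Λ u D a b E SS) (hw : w ∈ E) {m : ℕ} (hm : ∀ j ≤ m, DDb D (Tb b E) SS w j) {ι : Type*} {𝒰 : Ultrafilter ι}
    {φ : Vd (k + 1) → MN N} (hφ : φ ∈ SS) {σ : ι → ℕ → ℝ} {rn : ι → ℝ} (hσ : ∀ n, Nod (m + 1) (σ n) (rn n)) (hr : Tendsto rn 𝒰 (𝓝 0)) {Nb : ι → ℝ} (hNb1 : ∀ n, 1 ≤ Nb n)
    (hgd : Dbd D (Tb b E) w 𝒰 m φ σ Nb) {δ' : ℝ} (hδ' : 0 < δ') :
    ∃ t C : ℝ, 0 < t ∧ 0 < C ∧ ∀ᶠ n in (𝒰 : Filter ι), ∀ y₁ ∈ Tb b E, y₁ ∈ Gd D δ' → ∀ v : EN N, ‖v‖ = 1 → pr v = φ y₁ → ∀ y' ∈ Tb b E, ‖y' - y₁‖ ≤ t →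
      (∀ j ≤ m, ‖dd j (σ n) fun s : ℝ => nv v (φ (y' + (s : ℂ) • w))‖ ≤ C) ∧ ‖dd (m + 1) (σ n) fun s : ℝ => nv v (φ (y' + (s : ℂ) • w))‖ ≤ C * Nb n := by
  obtain ⟨r₁, K₁, hr₁, hK₁, h₁⟩ := dd_chg hX hL hS hw hm (half_pos hδ') (κ := 1 / 2) (by norm_num)
  obtain ⟨K₂, hK₂, h₂⟩ := hgd (δ' / 2) (half_pos hδ')
  obtain ⟨ε₃, hε₃, h₃⟩ := inner_near (N := N) (η := 1 / 2) (by norm_num)
  obtain ⟨r₄, hr₄, h₄⟩ := hS.unif4 hL hδ' hε₃
  refine ⟨min r₄ (δ' / 2), K₁ * (K₂ + 1), lt_min hr₄ (half_pos hδ'), by positivity, ?_⟩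
  filter_upwards [h₂, hr.eventually_lt_const hr₁] with n hn hn2 y₁ hy₁ hy₁D v hv hvφ y' hy' hyy
  have hy'D : y' ∈ Gd D (δ' / 2) := by
    have h5 := gd_near hy₁D (hyy.trans (min_le_right _ _))
    have e : δ' - δ' / 2 = δ' / 2 := by ring
    rwa [e] at h5
  obtain ⟨v', hv', hv'φ, hv'0⟩ := shs_unit hX hS hφ hy'
  have h5 : 1 / 2 ≤ ‖(inner ℂ v v' : ℂ)‖ := by
    have h6 := (h₃ v hv v' hv'0 (by rw [hv'φ, hvφ]; exact h₄ φ hφ y₁ hy₁ hy₁D y' hy' (hyy.trans (min_le_left _ _)))).2.1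
    rw [hv'] at h6
    linarith only [h6]
  obtain ⟨h6, h7⟩ := h₁ φ hφ y' hy' hy'D v' hv' hv'φ v hv h5 (σ n) ((hσ n).mono le_rfl hn2.le)
  have h8 := hn y' hy' hy'D v' hv' hv'φ
  have h9 := hNb1 n
  refine ⟨fun j hj => (h6 j hj).trans ?_, h7.trans ?_⟩
  · nlinarith only [hK₁, hK₂]
  · have h10 : K₁ * (‖dd (m + 1) (σ n) fun s : ℝ => nv v' (φ (y' + (s : ℂ) • w))‖ + 1) ≤ K₁ * (K₂ * Nb n + 1) := mul_le_mul_of_nonneg_left (add_le_add_left h8 1) hK₁.le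
    refine h10.trans ?_
    nlinarith only [hK₁, h9]

/-- the bound of the combination over `Gd D δ'` -/
theorem dd_bd4 (hX : IsCone X) (hL : LG Λ D Bad a) (hS : Shs X Λ u D a b E SS) (hw : w ∈ E) {m : ℕ} (hm : ∀ j ≤ m, DDb D (Tb b E) SS w j) {ι : Type*} {𝒰 : Ultrafilter ι}
    {φ : Vd (k + 1) → MN N} (hφ : φ ∈ SS) {σ : ι → ℕ → ℝ} {rn : ι → ℝ} (hσ : ∀ n, Nod (m + 1) (σ n) (rn n)) (hr : Tendsto rn 𝒰 (𝓝 0)) {Nb : ι → ℝ} (hNb1 : ∀ n, 1 ≤ Nb n)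
    (hgd : Dbd D (Tb b E) w 𝒰 m φ σ Nb) {y : ι → Vd (k + 1)} (hyT : ∀ n, y n ∈ Tb b E) {y₀ : Vd (k + 1)} (hy : Tendsto y 𝒰 (𝓝 y₀)) (hy₀ : y₀ ∈ Tb b E) (δ' : ℝ) (hδ' : 0 < δ') :
    ∃ C : ℝ, ∀ x : ℂ, y₀ + x • a ∈ Gd D δ' → ∀ v : EN N, ‖v‖ = 1 → pr v = φ (y₀ + x • a) → ∀ᶠ n in (𝒰 : Filter ι),
      ‖cX (fun n i (_ : ℂ) => cd m σ Nb n i) (fun i n z => φ (yd m y σ w i n + z • a)) v n x‖ ≤ C * Real.exp (0 * ‖x‖ ^ 2) := by
  obtain ⟨t, C, ht, hC, h1⟩ := dd_loc hX hL hS hw hm hφ hσ hr hNb1 hgd hδ'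
  refine ⟨C, fun x hx v hv hvφ => ?_⟩
  filter_upwards [h1, hy.eventually (ball_mem_nhds y₀ ht)] with n hn hn2
  have h2 := (hn _ (tb_add hy₀ (hS.mem x)) hx v hv hvφ (y n + x • a) (tb_add (hyT n) (hS.mem x)) (by
    rw [add_sub_add_right_eq_sub, ← dist_eq_norm]
    exact (mem_ball.1 hn2).le)).2
  have hN : 0 < Nb n := lt_of_lt_of_le one_pos (hNb1 n)
  rw [cX_dd, norm_smul, norm_inv, Complex.norm_real, Real.norm_of_nonneg hN.le, zero_mul, Real.exp_zero, mul_one, inv_mul_le_iff₀ hN]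
  exact h2.trans (le_of_eq (mul_comm _ _))

/-- the combination of the divided differences is bounded and linear in the limit -/
theorem cmb_dd (S : DA X Λ u D B Bad a Γ W α c₀ C₀ ρ δ) (hS : Shs X Λ u D a b E SS) (hw : w ∈ E) {m : ℕ} (hm : ∀ j ≤ m, DDb D (Tb b E) SS w j) {ι : Type*} {𝒰 : Ultrafilter ι}
    {φ : Vd (k + 1) → MN N} (hφ : φ ∈ SS) {σ : ι → ℕ → ℝ} {rn : ι → ℝ} (hσ : ∀ n, Nod (m + 1) (σ n) (rn n)) (hr : Tendsto rn 𝒰 (𝓝 0)) {Nb : ι → ℝ} (hNb1 : ∀ n, 1 ≤ Nb n)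
    (hNb : Tendsto Nb 𝒰 atTop) (hgd : Dbd D (Tb b E) w 𝒰 m φ σ Nb) {y : ι → Vd (k + 1)} (hyT : ∀ n, y n ∈ Tb b E) {y₀ : Vd (k + 1)} (hy : Tendsto y 𝒰 (𝓝 y₀)) (hy₀ : y₀ ∈ Tb b E) :
    Cmb X Λ u D a 𝒰 (yd m y σ w) y₀ (fun i n z => φ (yd m y σ w i n + z • a)) (fun z => φ (y₀ + z • a)) (fun n i _ => cd m σ Nb n i) := by
  have hX := S.geo.cone
  have hL := S.lg
  have ha : ‖a‖ = 1 := S.lc.norm
  have hσ0 : ∀ i, i ≤ m + 1 → Tendsto (fun n => σ n i) 𝒰 (𝓝 0) := fun i hi => squeeze_zero_norm (fun n => (hσ n).le i hi) hr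
  have hyyT : ∀ i n, yd m y σ w i n ∈ Tb b E := fun i n => tb_add (hyT n) (smul_mem_E hw _)
  have hyyt : ∀ i, Tendsto (yd m y σ w i) 𝒰 (𝓝 y₀) := by
    intro i
    have h1 : Tendsto (fun n => ((σ n i : ℝ) : ℂ) • w) 𝒰 (𝓝 (((0 : ℝ) : ℂ) • w)) :=
      ((Complex.continuous_ofReal.tendsto 0).comp (hσ0 i (by have := i.isLt; omega))).smul_const w
    rw [Complex.ofReal_zero, zero_smul] at h1
    have h2 := hy.add h1
    rwa [add_zero] at h2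
  have near : ∀ (x x' : ℂ) (n : ι), ‖(y n + x' • a) - (y₀ + x • a)‖ ≤ ‖y n - y₀‖ + ‖x' - x‖ := by
    intro x x' n
    have e : (y n + x' • a) - (y₀ + x • a) = (y n - y₀) + (x' - x) • a := by
      rw [sub_smul]
      abel
    rw [e]
    refine (norm_add_le _ _).trans ?_
    rw [norm_smul, ha, mul_one]
  refine ⟨hyyt, fun i => Eventually.of_forall fun n => (hS.sht φ hφ).line _ (hyyT i n), (hS.sht φ hφ).line _ hy₀,
    fun i => hS.lm4 hφ (hyyT i) hy₀ (hyyt i), Eventually.of_forall fun n i => differentiable_const _, ?_, ?_⟩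
  · intro x hx v hv hvφ
    obtain ⟨δ', hδ', hg⟩ := S.geo.exists_gd hx
    obtain ⟨t, C, ht, hC, h1⟩ := dd_loc hX hL hS hw hm hφ hσ hr hNb1 hgd hδ'
    refine ⟨t / 2, C, half_pos ht, ?_⟩
    filter_upwards [h1, hy.eventually (ball_mem_nhds y₀ (half_pos ht))] with n hn hn2 x' hx'
    rw [mem_ball, dist_eq_norm] at hx'
    rw [dist_eq_norm] at hn2
    have h2 := (hn _ (tb_add hy₀ (hS.mem x)) hg v hv hvφ (y n + x' • a) (tb_add (hyT n) (hS.mem x')) ((near x x' n).trans (by linarith only [hn2, hx']))).2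
    have hN : 0 < Nb n := lt_of_lt_of_le one_pos (hNb1 n)
    rw [cX_dd, norm_smul, norm_inv, Complex.norm_real, Real.norm_of_nonneg hN.le, inv_mul_le_iff₀ hN]
    exact h2.trans (le_of_eq (mul_comm _ _))
  · intro x hx v hv hvφ F hF ε hε
    obtain ⟨δ', hδ', hg⟩ := S.geo.exists_gd hx
    obtain ⟨t₁, C, ht₁, hC, h1⟩ := dd_loc hX hL hS hw hm hφ hσ hr hNb1 hgd hδ'
    set y₁ := y₀ + x • a with hy₁
    have hy₁T : y₁ ∈ Tb b E := tb_add hy₀ (hS.mem x)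
    set L := fderiv ℂ F (v, y₁) with hLd
    set η : ℝ := ε / (2 * C) with hη
    have hη0 : 0 < η := by positivity
    -- a ball where `F` is analytic, bounded and close to its linear part
    obtain ⟨τ, hτ, hst⟩ : ∃ τ : ℝ, 0 < τ ∧ ∀ P : EN N × Vd (k + 1), dist P (v, y₁) < τ → DifferentiableAt ℂ F P ∧ ‖F P‖ ≤ ‖F (v, y₁)‖ + 1 ∧
        ∀ P' : EN N × Vd (k + 1), dist P' (v, y₁) < τ → ‖F P - F P' - L (P - P')‖ ≤ η * ‖P - P'‖ := by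
      have h2 := (hF.hasStrictFDerivAt.isLittleO).def hη0
      obtain ⟨τ₁, hτ₁, h3⟩ := Metric.eventually_nhds_iff.1 h2
      have h4 : ∀ᶠ P in 𝓝 (v, y₁), DifferentiableAt ℂ F P ∧ ‖F P‖ < ‖F (v, y₁)‖ + 1 :=
        (hF.eventually_analyticAt.mono fun P hP => hP.differentiableAt).and (hF.continuousAt.norm.eventually (gt_mem_nhds (by linarith only)))
      obtain ⟨τ₂, hτ₂, h5⟩ := Metric.eventually_nhds_iff.1 h4
      refine ⟨min τ₁ τ₂, lt_min hτ₁ hτ₂, fun P hP => ⟨(h5 (hP.trans_le (min_le_right _ _))).1, (h5 (hP.trans_le (min_le_right _ _))).2.le, fun P' hP' => ?_⟩⟩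
      exact h3 (y := (P, P')) (by rw [Prod.dist_eq]; exact max_lt (hP.trans_le (min_le_left _ _)) (hP'.trans_le (min_le_left _ _)))
    set ww : ℝ := ‖w‖ + 1 with hww
    have hww0 : 0 < ww := by positivity
    set R : ℝ := min 1 (τ / (2 * ww)) with hRd
    have hR0 : 0 < R := by positivity
    have hR1 : R ≤ 1 := min_le_left _ _
    have hR2 : R * ww ≤ τ / 2 := by
      have h2 : R ≤ τ / (2 * ww) := min_le_right _ _
      rw [le_div_iff₀ (by positivity)] at h2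
      linarith
    have hR3 : R < τ := by
      have h2 : R * 1 ≤ R * ww := mul_le_mul_of_nonneg_left (by rw [hww]; linarith only [norm_nonneg w]) hR0.le
      linarith
    obtain ⟨r₂, K₂, hr₂, hK₂, h2⟩ := dd_comp_lip m hR0 hC.le
    obtain ⟨r₃, hr₃, h3⟩ := shs_near hS hL hδ' (η := R / 4) (by positivity)
    set M : ℝ := ‖F (v, y₁)‖ + 1 + ‖L‖ * 2 with hM
    have hM0 : 0 ≤ M := by positivity
    set t : ℝ := min (t₁ / 2) (min (τ / 4) (r₃ / 4)) with ht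
    have ht0 : 0 < t := by positivity
    have hta : t ≤ t₁ / 2 := min_le_left _ _
    have htb : t ≤ τ / 4 := (min_le_right _ _).trans (min_le_left _ _)
    have htc : t ≤ r₃ / 4 := (min_le_right _ _).trans (min_le_right _ _)
    refine ⟨t, ht0, ?_⟩
    have e3 : ∀ᶠ n in (𝒰 : Filter ι), rn n < min r₂ (r₃ / (2 * ww)) := hr.eventually_lt_const (lt_min hr₂ (by positivity))
    filter_upwards [h1, hy.eventually (ball_mem_nhds y₀ ht0), e3, hNb.eventually_ge_atTop (2 * (K₂ * M) / ε)] with n hn hn2 hn3 hn4 x' hx'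
    rw [mem_ball, dist_eq_norm] at hx'
    rw [dist_eq_norm] at hn2
    set y' := y n + x' • a with hy'
    have hy'T : y' ∈ Tb b E := tb_add (hyT n) (hS.mem x')
    have hyy : ‖y' - y₁‖ ≤ 2 * t := (near x x' n).trans (by linarith only [hn2, hx'])
    obtain ⟨hlow, htop⟩ := hn y₁ hy₁T hg v hv hvφ y' hy'T (by linarith only [hta, hyy])
    have hσn : Nod (m + 1) (σ n) r₂ := (hσ n).mono le_rfl (hn3.le.trans (min_le_left _ _))
    -- the nodes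
    have hnode : ∀ i ≤ m + 1, nv v (φ (y' + ((σ n i : ℝ) : ℂ) • w)) ∈ ball v (R / 4) := by
      intro i hi
      rw [mem_ball, dist_eq_norm]
      refine h3 φ hφ y₁ hy₁T hg v hv hvφ _ (tb_add hy'T (smul_mem_E hw _)) ?_
      have e : y' + ((σ n i : ℝ) : ℂ) • w - y₁ = (y' - y₁) + ((σ n i : ℝ) : ℂ) • w := by abel
      rw [e]
      refine (norm_add_le _ _).trans ?_
      have h4 : ‖((σ n i : ℝ) : ℂ) • w‖ ≤ r₃ / 2 := by
        refine (norm_smul_w (((hσ n).le i hi).trans (hn3.le.trans (min_le_right _ _))) w).trans ?_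
        rw [div_mul_eq_mul_div, div_le_iff₀ (by positivity), hww]
        nlinarith only [ht0, htc, norm_nonneg w]
      linarith only [htc, hyy, h4]
    -- the function
    set Ψ : EN N × ℂ → ℂ := fun p => F (p.1, y' + p.2 • w) - L (p.1, 0) with hΨ
    have hin : ∀ p ∈ ball v R ×ˢ ball (0 : ℂ) R, dist ((p.1, y' + p.2 • w) : EN N × Vd (k + 1)) (v, y₁) < τ := by
      rintro ⟨e, ζ⟩ ⟨he, hζ⟩
      rw [mem_ball_zero_iff] at hζ
      rw [mem_ball] at he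
      rw [Prod.dist_eq]
      refine max_lt (he.trans hR3) ?_
      show dist (y' + ζ • w) y₁ < τ
      rw [dist_eq_norm]
      have e : y' + ζ • w - y₁ = (y' - y₁) + ζ • w := by abel
      rw [e]
      refine lt_of_le_of_lt (norm_add_le _ _) ?_
      have h4 : ‖ζ • w‖ < τ / 2 := by
        rw [norm_smul]
        calc ‖ζ‖ * ‖w‖ ≤ R * ‖w‖ := mul_le_mul_of_nonneg_right hζ.le (norm_nonneg _)
          _ < R * ww := mul_lt_mul_of_pos_left (by rw [hww]; linarith only) hR0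
          _ ≤ τ / 2 := hR2
      linarith only [htb, hyy, h4]
    have hΨd : DifferentiableOn ℂ Ψ (ball v R ×ˢ ball (0 : ℂ) R) := by
      intro p hp
      have h4 : DifferentiableAt ℂ (fun p : EN N × ℂ => ((p.1, y' + p.2 • w) : EN N × Vd (k + 1))) p := by fun_prop
      have h5 : DifferentiableAt ℂ (fun p : EN N × ℂ => F (p.1, y' + p.2 • w)) p := (hst _ (hin p hp)).1.comp p h4
      have h6 : DifferentiableAt ℂ (fun p : EN N × ℂ => L (p.1, 0)) p := L.differentiableAt.comp p (by fun_prop)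
      exact (h5.sub h6).differentiableWithinAt
    have hΨM : ∀ p ∈ ball v R ×ˢ ball (0 : ℂ) R, ‖Ψ p‖ ≤ M := by
      intro p hp
      have h4 : ‖p.1‖ ≤ 2 := by
        have h5 := hp.1
        rw [mem_ball, dist_eq_norm] at h5
        have h6 : ‖p.1‖ ≤ ‖p.1 - v‖ + ‖v‖ := by
          have := norm_add_le (p.1 - v) v
          rwa [sub_add_cancel] at this
        rw [hv] at h6
        linarith only [hR1, h5, h6]
      have h5 : ‖L (p.1, 0)‖ ≤ ‖L‖ * 2 := by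
        refine (L.le_opNorm _).trans (mul_le_mul_of_nonneg_left ?_ (norm_nonneg _))
        rw [Prod.norm_mk, norm_zero]
        exact max_le h4 (by norm_num)
      exact (norm_sub_le _ _).trans (add_le_add (hst _ (hin p hp)).2.1 h5)
    have hΨL : ∀ e ∈ ball v R, ∀ e' ∈ ball v R, ∀ ζ ∈ ball (0 : ℂ) R, ‖Ψ (e, ζ) - Ψ (e', ζ)‖ ≤ η * ‖e - e'‖ := by
      intro e he e' he' ζ hζ
      have h4 := (hst _ (hin (e, ζ) ⟨he, hζ⟩)).2.2 _ (hin (e', ζ) ⟨he', hζ⟩)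
      have h5 : ((e, y' + ζ • w) : EN N × Vd (k + 1)) - (e', y' + ζ • w) = (e - e', 0) := by rw [Prod.mk_sub_mk, sub_self]
      rw [h5, Prod.norm_mk, norm_zero, max_eq_left (norm_nonneg _)] at h4
      have h6 : Ψ (e, ζ) - Ψ (e', ζ) = F (e, y' + ζ • w) - F (e', y' + ζ • w) - L (e - e', 0) := by
        have h7 : ((e - e', 0) : EN N × Vd (k + 1)) = (e, 0) - (e', 0) := by rw [Prod.mk_sub_mk, sub_self]
        rw [h7, map_sub]
        simp only [hΨ]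
        ring
      rw [h6]
      exact h4
    have h4 := h2 (EN N) ℂ Ψ v M η hM0 hη0.le hΨd hΨM hΨL (σ n) (fun s : ℝ => nv v (φ (y' + (s : ℂ) • w))) hσn hnode hlow
    -- the sum
    have hN : 0 < Nb n := lt_of_lt_of_le one_pos (hNb1 n)
    have h5 : (∑ i : Fin (m + 2), cd m σ Nb n i * F (nv v (φ (yd m y σ w i n + x' • a)), yd m y σ w i n + x' • a)) -
        L (cX (fun n i (_ : ℂ) => cd m σ Nb n i) (fun i n z => φ (yd m y σ w i n + z • a)) v n x', 0) =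
        (Nb n : ℂ)⁻¹ * dd (m + 1) (σ n) fun s : ℝ => Ψ (nv v (φ (y' + (s : ℂ) • w)), (s : ℂ)) := by
      rw [sum_cd (y := y) (w := w) n (fun y => F (nv v (φ y), y)) (x' • a), cX_dd]
      have h6 : (dd (m + 1) (σ n) fun s : ℝ => Ψ (nv v (φ (y' + (s : ℂ) • w)), (s : ℂ))) =
          (dd (m + 1) (σ n) fun s : ℝ => F (nv v (φ (y' + (s : ℂ) • w)), y' + (s : ℂ) • w)) - dd (m + 1) (σ n) fun s : ℝ => L (nv v (φ (y' + (s : ℂ) • w)), 0) :=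
        dd_sub _ _ _ _
      have h7 : (dd (m + 1) (σ n) fun s : ℝ => L (nv v (φ (y' + (s : ℂ) • w)), 0)) = L (dd (m + 1) (σ n) fun s : ℝ => nv v (φ (y' + (s : ℂ) • w)), 0) :=
        dd_map ((L.comp (ContinuousLinearMap.inl ℂ (EN N) (Vd (k + 1)))).toLinearMap) _ _ _
      rw [h6, h7, mul_sub]
      congr 1
      have h8 : (((Nb n : ℂ)⁻¹ • dd (m + 1) (σ n) fun s : ℝ => nv v (φ (y' + (s : ℂ) • w)), 0) : EN N × Vd (k + 1)) =
          (Nb n : ℂ)⁻¹ • ((dd (m + 1) (σ n) fun s : ℝ => nv v (φ (y' + (s : ℂ) • w)), 0) : EN N × Vd (k + 1)) := by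
        rw [Prod.smul_mk, smul_zero]
      rw [← hy', h8, map_smul, smul_eq_mul]
    rw [h5, norm_mul, norm_inv, Complex.norm_real, Real.norm_of_nonneg hN.le, inv_mul_le_iff₀ hN]
    refine h4.trans ?_
    have h6 : K₂ * M ≤ Nb n * (ε / 2) := by
      rw [div_le_iff₀ hε] at hn4
      linarith only [hn4]
    have h7 : η * ‖dd (m + 1) (σ n) fun s : ℝ => nv v (φ (y' + (s : ℂ) • w))‖ ≤ Nb n * (ε / 2) := by
      refine (mul_le_mul_of_nonneg_left htop hη0.le).trans (le_of_eq ?_)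
      rw [hη]
      field_simp
    linarith only [h6, h7]

end Pool.Agent.G4.R

end

section

/-!
# G4 R StepL: the limit of the sequences of the proof by contradiction
-/

set_option autoImplicit false

open Topology Filter Metric

namespace Pool.Agent.G4.R

open Pool.Agent.H36.BP (EN fs wd)
open Pool.Agent.H14.PP (IsCone CurveAt Tan)
open Pool.Agent.H62.EF (MN pr)
open Pool.Agent.AD (Vd Chart Charts IsGerm)
open Pool.Agent.TG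
open Pool.Agent.G3
open Pool.Agent.G3.R
open Pool.Agent.G3.C (Gc nv nd nv_pr)
open Pool.Agent.G3.A (Ba Hc Dec Sepa Tht Frm NL Lm CRL Tb ToE CE Sht)
open Pool.Agent.G4.A

variable {N k : ℕ} {X : Set (EN N)} {Λ : AddSubgroup (Vd (k + 1))} {u : EN N → Vd (k + 1)} {D B Bad : Set (Vd (k + 1))} {a b w : Vd (k + 1)} {E : Submodule ℝ (Vd (k + 1))}
  {SS : Set (Vd (k + 1) → MN N)} {Γ : AddSubgroup (Vd (k + 1))} {J rW : ℕ} {W : Fin rW → Vd (k + 1) →L[ℂ] ℂ} {α : Fin J → VForm X Λ u} {c₀ C₀ ρ δ : ℝ}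

theorem co_closed (D Bad : Set (Vd (k + 1))) (δ ρ : ℝ) : IsClosed (Co D Bad δ ρ) := gd_closed D _

theorem step_lim (S : DA X Λ u D B Bad a Γ W α c₀ C₀ ρ δ) (hS : Shs X Λ u D a b E SS) (𝒰 : Ultrafilter ℕ) {R : ℝ} {φ : ℕ → Vd (k + 1) → MN N} {y : ℕ → Vd (k + 1)} {v : ℕ → EN N}
    (hφ : ∀ n, φ n ∈ SS) (hyT : ∀ n, y n ∈ Tb b E) (hyC : ∀ n, y n ∈ Co D Bad δ ρ) (hyR : ∀ n, ‖y n‖ ≤ R) (hv : ∀ n, ‖v n‖ = 1) (hvφ : ∀ n, pr (v n) = φ n (y n)) :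
    ∃ (φ₀ : Vd (k + 1) → MN N) (y₀ : Vd (k + 1)) (v₀ : EN N), φ₀ ∈ SS ∧ (∀ᶠ n in (𝒰 : Filter ℕ), φ n = φ₀) ∧ Tendsto y 𝒰 (𝓝 y₀) ∧ y₀ ∈ Tb b E ∧ y₀ ∈ Co D Bad δ ρ ∧
      Tendsto v 𝒰 (𝓝 v₀) ∧ ‖v₀‖ = 1 ∧ pr v₀ = φ₀ y₀ := by
  obtain ⟨φ₀, hφ₀, hev⟩ : ∃ φ₀ ∈ SS, ∀ᶠ n in (𝒰 : Filter ℕ), φ n = φ₀ := by
    have h1 : (⋃ ψ ∈ SS, {n | φ n = ψ}) ∈ 𝒰 := by
      have h2 : (⋃ ψ ∈ SS, {n | φ n = ψ}) = Set.univ := by
        ext n
        simp [hφ n]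
      rw [h2]
      exact Filter.univ_mem
    obtain ⟨ψ, hψ, h2⟩ := (Ultrafilter.finite_biUnion_mem_iff hS.fin).1 h1
    exact ⟨ψ, hψ, h2⟩
  obtain ⟨y₀, -, hy₀⟩ := (isCompact_closedBall (0 : Vd (k + 1)) R).ultrafilter_le_nhds (𝒰.map y) (by
    rw [Ultrafilter.coe_map, le_principal_iff, mem_map]
    refine univ_mem' fun n => ?_
    simpa using hyR n)
  obtain ⟨v₀, hv₀, hv₀'⟩ := (isCompact_sphere (0 : EN N) 1).ultrafilter_le_nhds (𝒰.map v) (by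
    rw [Ultrafilter.coe_map, le_principal_iff, mem_map]
    refine univ_mem' fun n => ?_
    simpa using hv n)
  have hyt : Tendsto y 𝒰 (𝓝 y₀) := hy₀
  have hvt : Tendsto v 𝒰 (𝓝 v₀) := hv₀'
  have hv₀1 : ‖v₀‖ = 1 := by simpa using hv₀
  have hv₀0 : v₀ ≠ 0 := by
    rintro rfl
    rw [norm_zero] at hv₀1
    exact zero_ne_one hv₀1
  have hy₀T : y₀ ∈ Tb b E := (tb_closed b E).mem_of_tendsto hyt (Eventually.of_forall hyT)
  have hy₀C : y₀ ∈ Co D Bad δ ρ := (co_closed D Bad δ ρ).mem_of_tendsto hyt (Eventually.of_forall hyC)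
  refine ⟨φ₀, y₀, v₀, hφ₀, hev, hyt, hy₀T, hy₀C, hvt, hv₀1, ?_⟩
  have hy₀D : y₀ ∉ D := gd_notMem (by linarith [S.lc.δ_pos]) hy₀C
  have h1 : Tendsto (fun n => pr (v n)) 𝒰 (𝓝 (pr v₀)) := (Pool.Agent.H62.EF.continuousAt_pr hv₀0).tendsto.comp hvt
  have h2 : Tendsto (fun n => φ₀ (y n)) 𝒰 (𝓝 (φ₀ y₀)) :=
    ((hS.sht φ₀ hφ₀).cont y₀ hy₀T hy₀D).tendsto.comp (tendsto_nhdsWithin_iff.2 ⟨hyt, Eventually.of_forall hyT⟩)
  refine tendsto_nhds_unique h1 (h2.congr' ?_)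
  filter_upwards [hev] with n hn
  rw [hvφ n, hn]

end Pool.Agent.G4.R

end
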