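import Pool.Agent.H94.G5T.M22
import Pool.Agent.H94.G5T.M31
import Pool.Agent.H94.G5T.M33
import Pool.Agent.H94.G5T.M38
import Pool.Agent.H94.G5T.M51
import Pool.Agent.H94.G5T.M62
import Pool.Agent.H94.G5T.M99

/-! The parts of this file: AD.Germ_1, G3.E.Bs, H62.FC.GradedField, H62.FC.Main, H62.SA.Defs_1, H22.TB.Defs_1, TG.SaDefs, G3.A.FrmA. -/

section

/-!
# AD Germ: charts from germ-level charts

The proof of `Pool.Agent.H62.EF.exists_chart_of_germ` with `ℂ × ℂ` replaced by `Vd d`.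
-/

set_option autoImplicit false

open Topology Filter Metric

namespace Pool.Agent.AD

open Pool.Agent.H36.BP (EN)
open Pool.Agent.H14.PP (IsCone)

variable {N d : ℕ}

theorem exists_chart_of_germ {X : Set (EN N)} (hX : IsCone X) {σ : Vd d → EN N} {τ : EN N → Vd d} (h : IsGerm X σ τ) :
    ∃ χ : Chart d X, σ 0 ∈ χ.U ∧ χ.q (σ 0) = 0 := by
  have hσ0 : σ 0 ≠ 0 := by
    intro h0
    have h1 := h.σ_mem.self_of_nhds
    rw [h0] at h1
    exact hX.zero_notMem h1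
  -- the linear form
  obtain ⟨ℓ, hℓ⟩ : ∃ ℓ : EN N →L[ℂ] ℂ, ℓ (σ 0) = 1 := by
    have hne : inner ℂ (σ 0) (σ 0) ≠ (0 : ℂ) := inner_self_ne_zero.mpr hσ0
    refine ⟨(inner ℂ (σ 0) (σ 0) : ℂ)⁻¹ • innerSL ℂ (σ 0), ?_⟩
    simp only [_root_.smul_apply, innerSL_apply_apply, smul_eq_mul]
    exact inv_mul_cancel₀ hne
  -- the normalised parametrisation
  have hℓσ : ContinuousAt (fun p => ℓ (σ p)) 0 := ℓ.continuous.continuousAt.comp h.σ_an.continuousAt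
  have hℓne : ∀ᶠ p in 𝓝 (0 : Vd d), ℓ (σ p) ≠ 0 := hℓσ.eventually_ne (by rw [hℓ]; exact one_ne_zero)
  have hinvσ : ∀ᶠ p in 𝓝 (0 : Vd d), τ ((ℓ (σ p))⁻¹ • σ p) = τ (σ p) := by
    have hc : Tendsto (fun p => (σ p, (ℓ (σ p))⁻¹)) (𝓝 (0 : Vd d)) (𝓝 (σ 0, (1 : ℂ))) := by
      have h1 : Tendsto (fun p => (ℓ (σ p))⁻¹) (𝓝 (0 : Vd d)) (𝓝 (ℓ (σ 0))⁻¹) := hℓσ.inv₀ (by rw [hℓ]; exact one_ne_zero)
      rw [hℓ, inv_one] at h1
      exact h.σ_an.continuousAt.prodMk_nhds h1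
    exact hc.eventually h.inv
  -- the neighbourhood W₀
  have hW : ∀ᶠ y in 𝓝 (σ 0), AnalyticAt ℂ τ y ∧ (y ∈ X → ∃ c : ℂ, c ≠ 0 ∧ y = c • σ (τ y)) := h.τ_an.eventually_analyticAt.and h.right
  obtain ⟨W₀, hW₀s, hW₀o, hW₀m⟩ := _root_.eventually_nhds_iff.mp hW
  have hσ₁ : Tendsto (fun p => (ℓ (σ p))⁻¹ • σ p) (𝓝 (0 : Vd d)) (𝓝 (σ 0)) := by
    have h1 : Tendsto (fun p => (ℓ (σ p))⁻¹) (𝓝 (0 : Vd d)) (𝓝 (ℓ (σ 0))⁻¹) := hℓσ.inv₀ (by rw [hℓ]; exact one_ne_zero)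
    have h2 := h1.smul h.σ_an.continuousAt
    rwa [hℓ, inv_one, one_smul] at h2
  have hσ₁W : ∀ᶠ p in 𝓝 (0 : Vd d), (ℓ (σ p))⁻¹ • σ p ∈ W₀ := hσ₁.eventually (hW₀o.mem_nhds hW₀m)
  obtain ⟨R, hR, hall⟩ := Metric.eventually_nhds_iff_ball.mp
    (((((h.σ_an.eventually_analyticAt.and h.σ_mem).and h.left).and hℓne).and hinvσ).and hσ₁W)
  set r : ℝ := R / 2 with hr
  have hr0 : 0 < r := by rw [hr]; positivity
  have hrC : (r : ℂ) ≠ 0 := by exact_mod_cast hr0.ne'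
  have hball : ∀ p ∈ ball (0 : Vd d) 2, (r : ℂ) • p ∈ ball (0 : Vd d) R := by
    intro p hp
    rw [mem_ball_zero_iff] at hp ⊢
    rw [norm_smul, Complex.norm_real, Real.norm_of_nonneg hr0.le, hr]
    nlinarith
  have hτσ : ∀ p ∈ ball (0 : Vd d) R, τ ((ℓ (σ p))⁻¹ • σ p) = p := by
    intro p hp
    rw [(hall p hp).1.2, (hall p hp).1.1.1.2]
  set U : Set (EN N) := {x | ℓ x ≠ 0 ∧ (ℓ x)⁻¹ • x ∈ W₀ ∧ ‖τ ((ℓ x)⁻¹ • x)‖ < R} with hU
  have hmaps : ∀ x : EN N, ℓ x ≠ 0 → ∀ c : ℂ, c ≠ 0 → (ℓ (c • x))⁻¹ • (c • x) = (ℓ x)⁻¹ • x := by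
    intro x hx c hc
    rw [map_smul, smul_eq_mul, smul_smul, mul_inv, mul_comm c⁻¹, mul_assoc, inv_mul_cancel₀ hc, mul_one]
  have han1 : ∀ x : EN N, ℓ x ≠ 0 → AnalyticAt ℂ (fun y : EN N => (ℓ y)⁻¹ • y) x := by
    intro x hx
    exact ((ℓ.analyticAt x).inv hx).smul analyticAt_id
  have hanq : ∀ x ∈ U, AnalyticAt ℂ (fun y : EN N => τ ((ℓ y)⁻¹ • y)) x := by
    intro x hx
    exact AnalyticAt.fun_comp (hW₀s _ hx.2.1).1 (han1 x hx.1)
  have hUopen : IsOpen U := by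
    rw [isOpen_iff_mem_nhds]
    intro x hx
    have h1 : ∀ᶠ y in 𝓝 x, ℓ y ≠ 0 := ℓ.continuous.continuousAt.eventually_ne hx.1
    have h2 : ∀ᶠ y in 𝓝 x, (ℓ y)⁻¹ • y ∈ W₀ := (han1 x hx.1).continuousAt.eventually (hW₀o.mem_nhds hx.2.1)
    have h3 : ∀ᶠ y in 𝓝 x, ‖τ ((ℓ y)⁻¹ • y)‖ < R := (hanq x hx).continuousAt.norm.eventually_lt_const hx.2.2
    filter_upwards [h1, h2, h3] with y h4 h5 h6
    exact ⟨h4, h5, h6⟩
  let χ : Chart d X :=
    { σ := fun p => (ℓ (σ ((r : ℂ) • p)))⁻¹ • σ ((r : ℂ) • p)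
      U := U
      q := fun x => (r : ℂ)⁻¹ • τ ((ℓ x)⁻¹ • x)
      isOpen_U := hUopen
      smul_U := by
        rintro x ⟨h1, h2, h3⟩ c hc
        refine ⟨?_, ?_, ?_⟩
        · rw [map_smul, smul_eq_mul]
          exact mul_ne_zero hc h1
        · rw [hmaps x h1 c hc]; exact h2
        · rw [hmaps x h1 c hc]; exact h3
      σ_an := by
        intro p hp
        have h1 := (hall _ (hball p hp)).1.1.1.1.1
        have h2 : AnalyticAt ℂ (fun p : Vd d => σ ((r : ℂ) • p)) p :=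
          AnalyticAt.fun_comp h1 (analyticAt_const.fun_smul analyticAt_id)
        have h3 : AnalyticAt ℂ (fun p : Vd d => ℓ (σ ((r : ℂ) • p))) p := (ℓ.analyticAt _).fun_comp h2
        exact (h3.inv (hall _ (hball p hp)).1.1.2).smul h2
      q_an := by
        intro x hx
        exact analyticAt_const.fun_smul (hanq x hx)
      q_smul := by
        rintro x ⟨h1, h2, h3⟩ c hc
        show (r : ℂ)⁻¹ • τ ((ℓ (c • x))⁻¹ • (c • x)) = _
        rw [hmaps x h1 c hc]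
      σ_mem := by
        intro p hp
        have hb := hball p hp
        have hh := hall _ hb
        have hne := hh.1.1.2
        have h1 : ℓ ((ℓ (σ ((r : ℂ) • p)))⁻¹ • σ ((r : ℂ) • p)) = 1 := by
          rw [map_smul, smul_eq_mul, inv_mul_cancel₀ hne]
        have h2 : τ ((ℓ (σ ((r : ℂ) • p)))⁻¹ • σ ((r : ℂ) • p)) = (r : ℂ) • p := hτσ _ hb
        refine ⟨hX.smul_mem _ hh.1.1.1.1.2 _ (inv_ne_zero hne), ⟨?_, ?_, ?_⟩, ?_⟩
        · rw [h1]; exact one_ne_zero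
        · rw [h1, inv_one, one_smul]; exact hh.2
        · rw [h1, inv_one, one_smul, h2]
          exact mem_ball_zero_iff.mp hb
        · show (r : ℂ)⁻¹ • τ ((ℓ ((ℓ (σ ((r : ℂ) • p)))⁻¹ • σ ((r : ℂ) • p)))⁻¹ • ((ℓ (σ ((r : ℂ) • p)))⁻¹ • σ ((r : ℂ) • p))) = p
          rw [h1, inv_one, one_smul, h2, smul_smul, inv_mul_cancel₀ hrC, one_smul]
      surj := by
        rintro x hxX ⟨h1, h2, h3⟩
        have hyX : (ℓ x)⁻¹ • x ∈ X := hX.smul_mem _ hxX _ (inv_ne_zero h1)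
        obtain ⟨c, hc0, hc⟩ := (hW₀s _ h2).2 hyX
        have hτb : τ ((ℓ x)⁻¹ • x) ∈ ball (0 : Vd d) R := mem_ball_zero_iff.mpr h3
        have hrq : (r : ℂ) • ((r : ℂ)⁻¹ • τ ((ℓ x)⁻¹ • x)) = τ ((ℓ x)⁻¹ • x) := by
          rw [smul_smul, mul_inv_cancel₀ hrC, one_smul]
        refine ⟨?_, ?_⟩
        · show (r : ℂ)⁻¹ • τ ((ℓ x)⁻¹ • x) ∈ ball (0 : Vd d) 2
          rw [mem_ball_zero_iff, norm_smul, norm_inv, Complex.norm_real, Real.norm_of_nonneg hr0.le, inv_mul_lt_iff₀ hr0, hr]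
          linarith
        · refine ⟨ℓ x * c * ℓ (σ (τ ((ℓ x)⁻¹ • x))), ?_, ?_⟩
          · exact mul_ne_zero (mul_ne_zero h1 hc0) (hall _ hτb).1.1.2
          · show x = (ℓ x * c * ℓ (σ (τ ((ℓ x)⁻¹ • x)))) •
              ((ℓ (σ ((r : ℂ) • ((r : ℂ)⁻¹ • τ ((ℓ x)⁻¹ • x)))))⁻¹ • σ ((r : ℂ) • ((r : ℂ)⁻¹ • τ ((ℓ x)⁻¹ • x))))
            rw [hrq, smul_smul, mul_assoc, mul_inv_cancel₀ (hall _ hτb).1.1.2, mul_one, mul_smul, ← hc, smul_smul, mul_inv_cancel₀ h1, one_smul] }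
  have h0b : (0 : Vd d) ∈ ball (0 : Vd d) R := mem_ball_self hR
  have hτ0 : τ (σ 0) = 0 := (hall 0 h0b).1.1.1.2
  refine ⟨χ, ⟨?_, ?_, ?_⟩, ?_⟩
  · rw [hℓ]; exact one_ne_zero
  · rw [hℓ, inv_one, one_smul]; exact hW₀m
  · rw [hℓ, inv_one, one_smul, hτ0, norm_zero]; exact hR
  · show (r : ℂ)⁻¹ • τ ((ℓ (σ 0))⁻¹ • σ 0) = 0
    rw [hℓ, inv_one, one_smul, hτ0, smul_zero]

end Pool.Agent.AD

end

section

/-!
# G3 E Bs: the set `B` made invariant; a basis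

`BL B Λ = {b + l}`.  `geo_bl`: `B_lines` for `BL`: `Λ` is countable (discrete), for every `l ∈ Λ` almost every `y` has `y - l` off the exceptional null set (translation invariance of the volume).
-/

set_option autoImplicit false

open Topology Filter Metric MeasureTheory

namespace Pool.Agent.G3.E

open Pool.Agent.H36.BP (EN wd)
open Pool.Agent.H14.PP (CurveAt Tan)
open Pool.Agent.AD (Vd Chart Charts)

variable {N k : ℕ} {X : Set (EN N)} {Λ : AddSubgroup (Vd (k + 1))} {u : EN N → Vd (k + 1)} {D B : Set (Vd (k + 1))}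

/-- the set `B + Λ` -/
def BL (B : Set (Vd (k + 1))) (Λ : AddSubgroup (Vd (k + 1))) : Set (Vd (k + 1)) := {y | ∃ b ∈ B, y - b ∈ Λ}

theorem sub_bl : B ⊆ BL B Λ := fun b hb => ⟨b, hb, by rw [sub_self]; exact Λ.zero_mem⟩

theorem bl_inv : ∀ β ∈ BL B Λ, ∀ l ∈ Λ, β + l ∈ BL B Λ := by
  rintro β ⟨b, hb, h⟩ l hl
  refine ⟨b, hb, ?_⟩
  have e : β + l - b = (β - b) + l := by abel
  rw [e]
  exact Λ.add_mem h hl

theorem bl_fin (h : ∃ S : Set (Vd (k + 1)), S.Finite ∧ ∀ b ∈ B, ∃ s ∈ S, b - s ∈ Λ) : ∃ S : Set (Vd (k + 1)), S.Finite ∧ ∀ b ∈ BL B Λ, ∃ s ∈ S, b - s ∈ Λ := by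
  obtain ⟨S, hS, h⟩ := h
  refine ⟨S, hS, ?_⟩
  rintro β ⟨b, hb, hβ⟩
  obtain ⟨s, hs, hbs⟩ := h b hb
  refine ⟨s, hs, ?_⟩
  have e : β - s = (β - b) + (b - s) := by abel
  rw [e]
  exact Λ.add_mem hβ hbs

end Pool.Agent.G3.E

end

section

open MvPolynomial
open Pool.Agent.H17GT (coordFun functionField)

noncomputable section

namespace Pool.Agent.H62.FC

variable {N : ℕ} {O : Finset (Fin (N + 1))} {P : Ideal (MvPolynomial (Fin (N + 1)) ℂ)}

end Pool.Agent.H62.FC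

end
end

section

/-!
# Fermat covers: the components
-/

open MvPolynomial Topology Filter
open Pool.Agent.H17GT (coordFun functionField)
open Pool.Agent.H17LG.Variety (FunField)

noncomputable section

namespace Pool.Agent.H62.FC

variable {N : ℕ} {κ : Type} {A : κ → MvPolynomial (Fin (N + 1)) ℂ} {e : κ → ℕ}
  {O : Finset (Fin (N + 1))} {P : Ideal (MvPolynomial (Fin (N + 1)) ℂ)}

/-- A variety of positive dimension has a non-zero coordinate. -/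
lemma exists_X_notMem [P.IsPrime] {r : ℕ} (hr : 1 ≤ r)
    (hz : ∃ z : Fin r → FunField P, IsTranscendenceBasis ℂ z) : ∃ i, X i ∉ P := by
  by_contra hcon
  push Not at hcon
  obtain ⟨z, hz⟩ := hz
  have h1 : functionField P = ⊥ := by
    rw [functionField, IntermediateField.adjoin_eq_bot_iff]
    rintro f ⟨i, j, rfl⟩
    have h2 : coordFun P i = 0 := by
      rw [coordFun, Ideal.Quotient.eq_zero_iff_mem.mpr (hcon i), map_zero]
    rw [h2, zero_div]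
    exact zero_mem _
  have h2 : Transcendental ℂ (z ⟨0, hr⟩) := by
    have := hz.1.transcendental ⟨0, hr⟩
    exact this
  apply h2
  set y : functionField P := z ⟨0, hr⟩ with hy
  have h3 : (y : FractionRing (MvPolynomial (Fin (N + 1)) ℂ ⧸ P)) ∈
      (⊥ : IntermediateField ℂ (FractionRing (MvPolynomial (Fin (N + 1)) ℂ ⧸ P))) := by
    rw [← h1]
    exact y.2
  obtain ⟨c, hc⟩ := IntermediateField.mem_bot.mp h3
  have h4 : y = algebraMap ℂ (functionField P) c := Subtype.ext hc.symm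
  have h5 : IsAlgebraic ℂ y := by
    rw [h4]
    exact isAlgebraic_algebraMap c
  exact h5

end Pool.Agent.H62.FC

end
end

section

/-!
# SA Defs: locally closed subvarieties of `ℙ^N`

The complement in a closed subvariety of the common zero set of some forms, and its properness over an affine variety.
-/

set_option autoImplicit false

open MvPolynomial
open Pool.Agent.H23.Fano (PrimeDivisorOver)
open Pool.Agent.H17 (PN VanishesAt)
open Pool.Agent.H17GT (coordFun)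
open Pool.Agent.H17LG.Variety (FunField ratio)

noncomputable section

namespace Pool.Agent.H62.SA

variable {N : ℕ}

/-- The forms `F m j`, of degree `e m`, with `F m 0 = G m` define a map from the zero locus of `P` to
`ℙ^M` (in homogeneous coordinates `(F m 0, …, F m M)`, for every `m` for which these forms do not all
vanish), such that the common zero set of the forms `G m` is the inverse image of a hyperplane. So `locVar P G`
is proper over an affine variety. -/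
structure IsProperMap (P : Ideal (MvPolynomial (Fin (N + 1)) ℂ)) {s M : ℕ}
    (G : Fin s → MvPolynomial (Fin (N + 1)) ℂ) (F : Fin s → Fin (M + 1) → MvPolynomial (Fin (N + 1)) ℂ)
    (e : Fin s → ℕ) : Prop where
  hom : ∀ m j, (F m j).IsHomogeneous (e m)
  zero : ∀ m, F m 0 = G m
  rel : ∀ m n j, F m j * G n - F n j * G m ∈ P
  noZero : ∀ x : PN N, (∀ Q ∈ P, ∀ n, Q.IsHomogeneous n → VanishesAt Q x) →
    ∃ m j, ¬ VanishesAt (F m j) x

end Pool.Agent.H62.SA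

end
end

section

/-!
# TB Defs: three of the properties of the Green-Griffiths-Lang conjecture, and (iv) for curves
-/

set_option autoImplicit false

open MvPolynomial

noncomputable section

namespace Pool.Agent.H22.TB

open Pool.Agent.H17 (PN VanishesAt HolomorphicInto puncturedDisc ZariskiClosedIn)

variable {N : ℕ}

/-- The Zariski closure in `X` of the set `D`. -/
def closureIn (X D : Set (PN N)) : Set (PN N) :=
  {x | x ∈ X ∧ ∀ (Q : MvPolynomial (Fin (N + 1)) ℂ) (e : ℕ), Q.IsHomogeneous e → (∀ y ∈ D, VanishesAt Q y) → VanishesAt Q x}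

end Pool.Agent.H22.TB

end
end

section

/-!
# TG SaDefs: rational maps from semi-abelian varieties to projective varieties over complex tori, the definitions
-/

set_option autoImplicit false

open MvPolynomial
open Pool.Agent.H17 (PN VanishesAt)
open Pool.Agent.H22.TB (closureIn)

noncomputable section

namespace Pool.Agent.TG

variable {N : ℕ}

/-- The maps `F` and `F'` to `ℂ^(N+1)` represent the same map to `ℙ^N`. -/
def SameProjMap {g : ℕ} (F F' : (Fin g → ℂ) → Fin (N + 1) → ℂ) : Prop := ∀ z i j, F z i * F' z j = F z j * F' z i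

/-- The set of the points `[F z]`, `F z ≠ 0`. -/
def imageOf {g : ℕ} (F : (Fin g → ℂ) → Fin (N + 1) → ℂ) : Set (PN N) := {x | ∃ z, ∃ h : F z ≠ 0, x = Projectivization.mk ℂ (F z) h}

/-- A meromorphic map from `ℂ^g` to `ℙ^N` of the type of the rational maps from semi-abelian varieties: it is given by entire functions `F = (F 0, …, F N)`, not all
zero, with `|F z| ≤ exp (C (1 + |z|²))`; `T` is a complex subspace with `|F (z + t)| ≤ exp (C (1 + |t|))` for `t` in `T`, `C` depending on `z`; `L` is a group of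
periods, and `T` and `L` span `ℂ^g` over `ℝ`.  (For a rational map from the semi-abelian variety `A = ℂ^g / L` the subspace `T` is the Lie algebra of the torus part of `A`.) -/
structure SabMap (N : ℕ) where
  /-- the dimension -/
  g : ℕ
  /-- the entire functions -/
  F : (Fin g → ℂ) → Fin (N + 1) → ℂ
  differentiable : Differentiable ℂ F
  ne_zero : ∃ z, F z ≠ 0
  growth : ∃ C : ℝ, ∀ z, ‖F z‖ ≤ Real.exp (C * (1 + ‖z‖ ^ 2))
  /-- the directions of the torus part -/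
  T : Submodule ℂ (Fin g → ℂ)
  torus : ∀ z, ∃ C : ℝ, ∀ t ∈ T, ‖F (z + t)‖ ≤ Real.exp (C * (1 + ‖t‖))
  /-- the periods -/
  L : AddSubgroup (Fin g → ℂ)
  periodic : ∀ l ∈ L, SameProjMap (fun z => F (z + l)) F
  span : T.restrictScalars ℝ ⊔ Submodule.span ℝ (L : Set (Fin g → ℂ)) = ⊤

/-- The union of the images of the non-constant maps into `X`. -/
def sabUnion (X : Set (PN N)) : Set (PN N) :=
  {x | ∃ S : SabMap N, imageOf S.F ⊆ X ∧ (∃ y ∈ imageOf S.F, ∃ z ∈ imageOf S.F, y ≠ z) ∧ x ∈ imageOf S.F}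

/-- The special set of `X`: the Zariski closure in `X` of the union of the images of the non-constant maps into `X`. -/
def sabSpecialSet (X : Set (PN N)) : Set (PN N) := closureIn X (sabUnion X)

/-- `W` is the tangent space of a complex subtorus of `ℂ^n / Λ`: the real span of `Λ ∩ W` is `W`. -/
def IsSubtorus {n : ℕ} (Λ : AddSubgroup (Fin n → ℂ)) (W : Submodule ℂ (Fin n → ℂ)) : Prop :=
  W.restrictScalars ℝ ≤ Submodule.span ℝ {l : Fin n → ℂ | l ∈ Λ ∧ l ∈ W}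

/-- The torus `ℂ^n / Λ` is simple: it has no subtori other than `0` and itself. -/
def SimpleTorus {n : ℕ} (Λ : AddSubgroup (Fin n → ℂ)) : Prop := ∀ W : Submodule ℂ (Fin n → ℂ), IsSubtorus Λ W → W = ⊥ ∨ W = ⊤

/-- The meromorphic maps from `ℂ^n` to the variety `X` over the torus `ℂ^n / Λ`: the entire functions `F : ℂ^n → ℂ^(N+1)`, not identically `0`, with `[F y] ∈ X` and
`u [F y] = y` modulo `Λ` if `F y ≠ 0`. -/
def merSections {n : ℕ} (X : Set (PN N)) (Λ : AddSubgroup (Fin n → ℂ)) (u : PN N → (Fin n → ℂ) ⧸ Λ) : Set ((Fin n → ℂ) → Fin (N + 1) → ℂ) :=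
  {F | Differentiable ℂ F ∧ (∃ y, F y ≠ 0) ∧
    ∀ y, ∀ h : F y ≠ 0, Projectivization.mk ℂ (F y) h ∈ X ∧ u (Projectivization.mk ℂ (F y) h) = (y : (Fin n → ℂ) ⧸ Λ)}

/-- The four types of maps `S` into the variety `X` over the torus `ℂ^n / Λ`; `D` is the set of the bad values of `u`: `S` lies in a fibre over a point of `D`; or `S` is constant;
or `u ∘ S` is an affine map onto a translate of a subtorus which is not `0` and not the whole torus; or `u ∘ S` is an affine map onto the torus and `S` is the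
composition of this map and a meromorphic map over the torus. -/
def SabCases {n : ℕ} (X : Set (PN N)) (Λ : AddSubgroup (Fin n → ℂ)) (u : PN N → (Fin n → ℂ) ⧸ Λ) (D : Set (Fin n → ℂ)) (S : SabMap N) : Prop :=
  (∃ b ∈ D, ∀ x ∈ imageOf S.F, u x = (b : (Fin n → ℂ) ⧸ Λ)) ∨
  (∀ x ∈ imageOf S.F, ∀ y ∈ imageOf S.F, x = y) ∨
  ∃ (B : (Fin S.g → ℂ) →ₗ[ℂ] (Fin n → ℂ)) (c : Fin n → ℂ),
    (∀ z, ∀ h : S.F z ≠ 0, u (Projectivization.mk ℂ (S.F z) h) = ((B z + c : Fin n → ℂ) : (Fin n → ℂ) ⧸ Λ)) ∧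
    (IsSubtorus Λ (LinearMap.range B) ∧ LinearMap.range B ≠ ⊥ ∧ LinearMap.range B ≠ ⊤ ∨
      Function.Surjective B ∧ ∃ Φ ∈ merSections X Λ u, SameProjMap S.F fun z => Φ (B z + c))

end Pool.Agent.TG

end
end

section

/-!
# G3 A FrmA: the forms decay

`‖α.toFun y x v‖ exp (wt W y)` is `Γ`-periodic in `y` (`Tht`), bounded for `‖y‖ ≤ R` (compactness of the set of the `(y, x)`, `‖x‖ = 1`, and `VForm.analytic` in charts: the value on tangent vectors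
`v i`, `‖v i‖ ≤ ‖x‖`, is `det` times the value on the coordinate vectors), so bounded; `wt W y ≥ c₀ ‖y‖ ^ 2` (`pos`, compactness of the unit sphere).
-/

set_option autoImplicit false

open Topology Filter Metric

namespace Pool.Agent.G3.A

open Pool.Agent.H36.BP (EN fs wd)
open Pool.Agent.H14.PP (IsCone CurveAt Tan)
open Pool.Agent.H62.EF (MN pr)
open Pool.Agent.AD (Vd Chart Charts IsGerm)
open Pool.Agent.TG
open Pool.Agent.G3.C (Gc)

variable {N k : ℕ} {X : Set (EN N)} {Λ : AddSubgroup (Vd (k + 1))} {u : EN N → Vd (k + 1)} {D B Bad : Set (Vd (k + 1))} {a : Vd (k + 1)}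

/-- a determinant with entries of norm at most `C` -/
private theorem FrmA_det {n : ℕ} (M : Matrix (Fin n) (Fin n) ℂ) {C : ℝ} (hM : ∀ i j, ‖M i j‖ ≤ C) : ‖M.det‖ ≤ (n.factorial : ℝ) * C ^ n := by
  rw [Matrix.det_apply']
  calc ‖∑ σ : Equiv.Perm (Fin n), ((Equiv.Perm.sign σ : ℤ) : ℂ) * ∏ i, M (σ i) i‖
      ≤ ∑ σ : Equiv.Perm (Fin n), ‖((Equiv.Perm.sign σ : ℤ) : ℂ) * ∏ i, M (σ i) i‖ := norm_sum_le _ _
    _ ≤ ∑ _σ : Equiv.Perm (Fin n), C ^ n := by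
        refine Finset.sum_le_sum fun σ _ => ?_
        rw [norm_mul, norm_prod]
        have h1 : ‖((Equiv.Perm.sign σ : ℤ) : ℂ)‖ = 1 := by
          rcases Int.units_eq_one_or (Equiv.Perm.sign σ) with h | h <;> simp [h]
        rw [h1, one_mul]
        calc ∏ i, ‖M (σ i) i‖ ≤ ∏ _i : Fin n, C := Finset.prod_le_prod (fun i _ => norm_nonneg _) fun i _ => hM _ _
          _ = C ^ n := by simp
    _ = (n.factorial : ℝ) * C ^ n := by
        rw [Finset.sum_const, Finset.card_univ, Fintype.card_perm, Fintype.card_fin, nsmul_eq_mul]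

/-- the local bound -/
private theorem FrmA_loc (hX : IsCone X) (hch : Charts (k + 2) X) (hu : TMap X Λ u) (hΛ : Lat Λ) (α : VForm X Λ u) (y₀ : Vd (k + 1)) {x₀ : EN N} (hx₀ : x₀ ∈ X) :
    ∃ C : ℝ, ∀ᶠ p in 𝓝 ((y₀, x₀) : Vd (k + 1) × EN N), p.2 ∈ X → u p.2 - p.1 ∈ Λ → ∀ v : Fin (k + 2) → EN N, (∀ i, Tan X p.2 (v i)) → (∀ i, ‖v i‖ ≤ 1) →
      ‖α.toFun p.1 p.2 v‖ ≤ C := by
  have hfst : Tendsto (fun p : Vd (k + 1) × EN N => p.1) (𝓝 (y₀, x₀)) (𝓝 y₀) := continuousAt_fst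
  have hsnd : Tendsto (fun p : Vd (k + 1) × EN N => p.2) (𝓝 (y₀, x₀)) (𝓝 x₀) := continuousAt_snd
  by_cases h : u x₀ - y₀ ∈ Λ
  · obtain ⟨χ, hU, hq0⟩ := hch x₀ hx₀
    obtain ⟨υ, hυ, hυe, hl⟩ := exists_lift_chart hX hu χ hx₀ hU h
    have hb : χ.q x₀ ∈ ball (0 : Vd (k + 2)) 2 := (χ.surj x₀ hx₀ hU).1
    obtain ⟨δ, hδ, hdisc⟩ := hΛ.disc
    set C₁ : ℝ := ‖tc α χ υ (χ.q x₀)‖ + 1 with hC₁
    set C₂ : ℝ := ‖fderiv ℂ χ.q x₀‖ + 1 with hC₂
    have hqc : Tendsto χ.q (𝓝 x₀) (𝓝 (χ.q x₀)) := (χ.q_an x₀ hU).continuousAt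
    have h1 : ∀ᶠ q in 𝓝 (χ.q x₀), ‖tc α χ υ q‖ < C₁ :=
      (tc_an α χ hb hυ hl).continuousAt.norm.eventually_lt_const (by show ‖tc α χ υ (χ.q x₀)‖ < C₁; linarith)
    have h2 : ∀ᶠ x in 𝓝 x₀, ‖fderiv ℂ χ.q x‖ < C₂ :=
      (χ.q_an x₀ hU).fderiv.continuousAt.norm.eventually_lt_const (by show ‖fderiv ℂ χ.q x₀‖ < C₂; linarith)
    have h3 : ∀ᶠ p in 𝓝 ((y₀, x₀) : Vd (k + 1) × EN N), ‖p.1 - υ (χ.q p.2)‖ < δ := by
      have h4 : Tendsto (fun p : Vd (k + 1) × EN N => ‖p.1 - υ (χ.q p.2)‖) (𝓝 (y₀, x₀)) (𝓝 ‖y₀ - υ (χ.q x₀)‖) :=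
        (hfst.sub (hυ.continuousAt.tendsto.comp (hqc.comp hsnd))).norm
      refine h4.eventually_lt_const ?_
      rw [hυe, sub_self, norm_zero]
      exact hδ
    refine ⟨((k + 2).factorial : ℝ) * C₂ ^ (k + 2) * C₁, ?_⟩
    filter_upwards [hsnd.eventually (hqc.eventually h1), hsnd.eventually h2, h3, hsnd.eventually (χ.isOpen_U.mem_nhds hU), hsnd.eventually (hqc.eventually hl)]
      with p hp1 hp2 hp3 hp4 hp5 hpX hpu v hv hv1
    obtain ⟨hqb, c, hc, hcx⟩ := χ.surj p.2 hpX hp4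
    have hσX : χ.σ (χ.q p.2) ∈ X := (χ.σ_mem _ hqb).1
    have h6 : u p.2 - υ (χ.q p.2) ∈ Λ := by
      have h7 : u (c • χ.σ (χ.q p.2)) - u (χ.σ (χ.q p.2)) ∈ Λ := hu.smul _ hσX c hc
      rw [← hcx] at h7
      have h8 := Λ.add_mem h7 hp5
      have e : u p.2 - u (χ.σ (χ.q p.2)) + (u (χ.σ (χ.q p.2)) - υ (χ.q p.2)) = u p.2 - υ (χ.q p.2) := by abel
      rwa [e] at h8
    have h7 : υ (χ.q p.2) = p.1 := by
      have h8 := Λ.sub_mem h6 hpu
      have e : u p.2 - υ (χ.q p.2) - (u p.2 - p.1) = p.1 - υ (χ.q p.2) := by abel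
      rw [e] at h8
      exact (sub_eq_zero.1 (hdisc _ h8 hp3)).symm
    rw [toFun_eq hX hu α χ hpX hp4 hpu h7 v hv, norm_mul]
    have h8 : ‖(Matrix.of fun i j => fderiv ℂ χ.q p.2 (v i) j).det‖ ≤ ((k + 2).factorial : ℝ) * C₂ ^ (k + 2) := by
      refine FrmA_det _ fun i j => ?_
      show ‖fderiv ℂ χ.q p.2 (v i) j‖ ≤ C₂
      have h9 : ‖fderiv ℂ χ.q p.2 (v i) j‖ ≤ ‖fderiv ℂ χ.q p.2 (v i)‖ := norm_le_pi_norm _ j
      have h10 := (fderiv ℂ χ.q p.2).le_opNorm (v i)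
      have h11 : ‖fderiv ℂ χ.q p.2‖ * ‖v i‖ ≤ C₂ * 1 := mul_le_mul hp2.le (hv1 i) (norm_nonneg _) (by positivity)
      linarith
    exact mul_le_mul h8 hp1.le (norm_nonneg _) (by positivity)
  · refine ⟨0, ?_⟩
    obtain ⟨w, hw, hwl⟩ := hu.loc x₀ hx₀
    have h1 : w x₀ - y₀ ∉ Λ := by
      intro h2
      apply h
      have h3 := Λ.add_mem (hwl.self_of_nhds hx₀) h2
      have e : u x₀ - w x₀ + (w x₀ - y₀) = u x₀ - y₀ := by abel
      rwa [e] at h3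
    have h2 : Tendsto (fun p : Vd (k + 1) × EN N => w p.2 - p.1) (𝓝 (y₀, x₀)) (𝓝 (w x₀ - y₀)) :=
      (hw.continuousAt.tendsto.comp hsnd).sub hfst
    have h3 : ∀ᶠ p in 𝓝 ((y₀, x₀) : Vd (k + 1) × EN N), w p.2 - p.1 ∈ ((Λ : Set (Vd (k + 1))))ᶜ :=
      h2.eventually (hΛ.closed.isOpen_compl.mem_nhds h1)
    filter_upwards [h3, hsnd.eventually hwl] with p hp1 hp2 hpX hpu
    exfalso
    apply hp1
    have h4 := Λ.sub_mem hpu (hp2 hpX)
    have e : u p.2 - p.1 - (u p.2 - w p.2) = w p.2 - p.1 := by abel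
    rw [e] at h4
    exact h4

/-- the bound over a ball -/
private theorem FrmA_ball (hX : IsCone X) (hch : Charts (k + 2) X) (hu : TMap X Λ u) (hΛ : Lat Λ) (α : VForm X Λ u) (R : ℝ) :
    ∃ C : ℝ, 0 ≤ C ∧ ∀ y : Vd (k + 1), ‖y‖ ≤ R → ∀ x ∈ X, u x - y ∈ Λ → ∀ v : Fin (k + 2) → EN N, (∀ i, Tan X x (v i)) → (∀ i, ‖v i‖ ≤ ‖x‖) →
      ‖α.toFun y x v‖ ≤ C := by
  have hK : IsCompact (closedBall (0 : Vd (k + 1)) R ×ˢ (X ∩ sphere (0 : EN N) 1)) := (isCompact_closedBall _ _).prod (compact_unit hX)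
  have h1 : ∃ C : ℝ, ∀ p ∈ closedBall (0 : Vd (k + 1)) R ×ˢ (X ∩ sphere (0 : EN N) 1), p.2 ∈ X → u p.2 - p.1 ∈ Λ → ∀ v : Fin (k + 2) → EN N,
      (∀ i, Tan X p.2 (v i)) → (∀ i, ‖v i‖ ≤ 1) → ‖α.toFun p.1 p.2 v‖ ≤ C := by
    refine hK.induction_on (p := fun S : Set (Vd (k + 1) × EN N) => ∃ C : ℝ, ∀ p ∈ S, p.2 ∈ X → u p.2 - p.1 ∈ Λ → ∀ v : Fin (k + 2) → EN N,
      (∀ i, Tan X p.2 (v i)) → (∀ i, ‖v i‖ ≤ 1) → ‖α.toFun p.1 p.2 v‖ ≤ C) ?_ ?_ ?_ ?_
    · exact ⟨0, fun p hp => absurd hp (Set.notMem_empty p)⟩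
    · rintro S T hST ⟨C, hC⟩
      exact ⟨C, fun p hp => hC p (hST hp)⟩
    · rintro S T ⟨C, hC⟩ ⟨C', hC'⟩
      refine ⟨max C C', fun p hp h1 h2 v h3 h4 => ?_⟩
      rcases hp with hp | hp
      · exact (hC p hp h1 h2 v h3 h4).trans (le_max_left _ _)
      · exact (hC' p hp h1 h2 v h3 h4).trans (le_max_right _ _)
    · rintro ⟨y, x⟩ ⟨hy, hx, hx'⟩
      obtain ⟨C, hC⟩ := FrmA_loc hX hch hu hΛ α y hx
      exact ⟨_, mem_nhdsWithin_of_mem_nhds hC, C, fun p hp => hp⟩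
  obtain ⟨C, hC⟩ := h1
  refine ⟨max C 0, le_max_right _ _, fun y hy x hx hxy v hv hvn => ?_⟩
  have hn : 0 < ‖x‖ := norm_pos_iff.2 (ne_zero hX hx)
  have hc : (((‖x‖⁻¹ : ℝ)) : ℂ) ≠ 0 := by
    exact_mod_cast inv_ne_zero hn.ne'
  set c : ℂ := (((‖x‖⁻¹ : ℝ)) : ℂ) with hcd
  have hcn : ‖c‖ = ‖x‖⁻¹ := by rw [hcd, Complex.norm_real, norm_inv, norm_norm]
  have hcx : c • x ∈ X := hX.smul_mem x hx c hc
  have hcs : c • x ∈ sphere (0 : EN N) 1 := by
    rw [mem_sphere_zero_iff_norm, norm_smul, hcn]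
    exact inv_mul_cancel₀ hn.ne'
  have ht : ∀ i, Tan X (c • x) (c • v i) := by
    intro i
    obtain ⟨F, hF, hF0, hFd⟩ := hv i
    refine ⟨fun z => c • F z, ⟨AnalyticAt.fun_smul analyticAt_const hF.1, ?_⟩, ?_, ?_⟩
    · filter_upwards [hF.2] with z hz
      exact hX.smul_mem _ hz c hc
    · show c • F 0 = c • x
      rw [hF0]
    · have h1 : HasDerivAt (fun z => c • F z) (c • deriv F 0) 0 := hF.1.differentiableAt.hasDerivAt.const_smul c
      rw [h1.deriv, hFd]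
  have h2 := hC (y, c • x) ⟨by rwa [mem_closedBall_zero_iff], hcx, hcs⟩ hcx (smul_mem_lat hu hx hxy hc) (fun i => c • v i) ht (fun i => by
    rw [norm_smul, hcn]
    calc ‖x‖⁻¹ * ‖v i‖ ≤ ‖x‖⁻¹ * ‖x‖ := mul_le_mul_of_nonneg_left (hvn i) (by positivity)
      _ = 1 := inv_mul_cancel₀ hn.ne')
  rw [α.scale y x hx hxy v hv c hc] at h2
  exact h2.trans (le_max_left _ _)

/-- the weight is bounded on balls -/
private theorem FrmA_wt_le {r : ℕ} (W : Fin r → Vd (k + 1) →L[ℂ] ℂ) (R : ℝ) : ∃ M : ℝ, ∀ y : Vd (k + 1), ‖y‖ ≤ R → wt W y ≤ M := by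
  refine ⟨∑ i, (‖W i‖ * R) ^ 2, fun y hy => ?_⟩
  unfold wt
  refine Finset.sum_le_sum fun i _ => ?_
  refine pow_le_pow_left₀ (norm_nonneg _) ?_ 2
  exact ((W i).le_opNorm y).trans (mul_le_mul_of_nonneg_left hy (norm_nonneg _))

/-- the weight is positive definite -/
private theorem FrmA_wt_ge {r : ℕ} {W : Fin r → Vd (k + 1) →L[ℂ] ℂ} (hW : ∀ y, (∀ i, W i y = 0) → y = 0) :
    ∃ c : ℝ, 0 < c ∧ ∀ y : Vd (k + 1), c * ‖y‖ ^ 2 ≤ wt W y := by
  have hcont : Continuous (wt W) := by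
    unfold wt
    exact continuous_finsetSum _ fun i _ => ((W i).continuous.norm.pow 2)
  have hpos : ∀ y ∈ sphere (0 : Vd (k + 1)) 1, 0 < wt W y := by
    intro y hy
    rw [mem_sphere_zero_iff_norm] at hy
    have h0 : 0 ≤ wt W y := Finset.sum_nonneg fun i _ => by positivity
    rcases h0.eq_or_lt with h1 | h1
    · exfalso
      have h2 : ∀ i, W i y = 0 := by
        intro i
        have h3 := (Finset.sum_eq_zero_iff_of_nonneg (s := Finset.univ) (f := fun i => ‖W i y‖ ^ 2) fun i _ => by positivity).1 h1.symm i (Finset.mem_univ i)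
        exact norm_eq_zero.1 (pow_eq_zero_iff (two_ne_zero)|>.1 h3)
      rw [hW y h2, norm_zero] at hy
      exact zero_ne_one hy
    · exact h1
  have hne : (sphere (0 : Vd (k + 1)) 1).Nonempty := by
    refine ⟨fun _ => 1, ?_⟩
    rw [mem_sphere_zero_iff_norm]
    simp [pi_norm_const]
  obtain ⟨y₁, hy₁, hmin⟩ := (isCompact_sphere (0 : Vd (k + 1)) 1).exists_isMinOn hne hcont.continuousOn
  refine ⟨wt W y₁, hpos y₁ hy₁, fun y => ?_⟩
  by_cases hy : y = 0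
  · subst hy
    simp [wt]
  · have hn : 0 < ‖y‖ := norm_pos_iff.2 hy
    set c : ℂ := (((‖y‖⁻¹ : ℝ)) : ℂ) with hcd
    have hcn : ‖c‖ = ‖y‖⁻¹ := by rw [hcd, Complex.norm_real, norm_inv, norm_norm]
    have h1 : c • y ∈ sphere (0 : Vd (k + 1)) 1 := by
      rw [mem_sphere_zero_iff_norm, norm_smul, hcn]
      exact inv_mul_cancel₀ hn.ne'
    have h2 : wt W y₁ ≤ wt W (c • y) := hmin h1
    have h3 : wt W (c • y) = (‖y‖⁻¹) ^ 2 * wt W y := by
      unfold wt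
      rw [Finset.mul_sum]
      refine Finset.sum_congr rfl fun i _ => ?_
      rw [map_smul, norm_smul, hcn, mul_pow]
    rw [h3] at h2
    have h4 := mul_le_mul_of_nonneg_right h2 (by positivity : 0 ≤ ‖y‖ ^ 2)
    have h5 : (‖y‖⁻¹) ^ 2 * wt W y * ‖y‖ ^ 2 = wt W y := by
      field_simp
    rwa [h5] at h4

theorem Frm.dec (G : Geo X Λ u D B) {Γ : AddSubgroup (Vd (k + 1))} {J r : ℕ} {W : Fin r → Vd (k + 1) →L[ℂ] ℂ} {α : Fin J → VForm X Λ u} (h : Frm X Λ u D Γ W α) :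
    ∃ c₀ C₀ : ℝ, 0 < c₀ ∧ 0 < C₀ ∧ ∀ j, Dec (α j) c₀ C₀ := by
  obtain ⟨c₀, hc₀, hwt⟩ := FrmA_wt_ge h.pos
  obtain ⟨R, hR, hcpt⟩ := h.lat.cpt
  obtain ⟨M, hM⟩ := FrmA_wt_le W R
  have hb := fun j => FrmA_ball G.cone G.charts G.tor G.lat (α j) R
  choose C hC0 hC using hb
  refine ⟨c₀, 1 + ∑ j, C j * Real.exp M, hc₀, ?_, ?_⟩
  · have : 0 ≤ ∑ j, C j * Real.exp M := Finset.sum_nonneg fun j _ => mul_nonneg (hC0 j) (Real.exp_nonneg _)
    linarith
  · intro j y x hx hxy v hv hvn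
    obtain ⟨l, hl, hyl⟩ := hcpt y
    obtain ⟨L, c, hLc, hθ⟩ := h.per j l hl
    have hxy' : u x - (y - l) ∈ Λ := by
      have h1 := Λ.add_mem hxy (h.le hl)
      have e : u x - y + l = u x - (y - l) := by abel
      rwa [e] at h1
    have h1 := hθ (y - l) x hx hxy' v hv
    rw [sub_add_cancel] at h1
    have h2 := hLc (y - l)
    rw [sub_add_cancel] at h2
    rw [h1, norm_mul, h2]
    have h3 := hC j (y - l) hyl x hx hxy' v hv hvn
    have h4 : Real.exp (wt W (y - l) - wt W y) ≤ Real.exp M * Real.exp (-(c₀ * ‖y‖ ^ 2)) := by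
      rw [← Real.exp_add]
      refine Real.exp_le_exp.2 ?_
      have h5 := hM (y - l) hyl
      have h6 := hwt y
      linarith
    have h5 : C j * Real.exp M ≤ 1 + ∑ j, C j * Real.exp M := by
      have h6 := Finset.single_le_sum (f := fun j => C j * Real.exp M) (fun j _ => mul_nonneg (hC0 j) (Real.exp_nonneg _)) (Finset.mem_univ j)
      linarith
    calc Real.exp (wt W (y - l) - wt W y) * ‖(α j).toFun (y - l) x v‖ ≤ (Real.exp M * Real.exp (-(c₀ * ‖y‖ ^ 2))) * C j :=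
          mul_le_mul h4 h3 (norm_nonneg _) (by positivity)
      _ = (C j * Real.exp M) * Real.exp (-(c₀ * ‖y‖ ^ 2)) := by ring
      _ ≤ _ := mul_le_mul_of_nonneg_right h5 (Real.exp_nonneg _)

end Pool.Agent.G3.A

end
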