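import Pool.Agent.H94.G5T.M24
import Pool.Agent.H94.G5T.M55
import Pool.Agent.H94.G5T.M63

/-! The parts of this file: G4.A.CmL, G3.A.JB, G3.R.PrmA. -/

section

/-!
# G4 A CmL: the limit of the combinations and the integrals of the forms

`fch_lim`: if the derivatives of the primitives along `cX` converge to `K j x` (`cmb_K`), then `cX c f v n (w n)` converges to a vector `Z`, and over `Gd D δ'` the norm of `Z` and the numbers `‖K j x‖ exp (wt W)` bound each other.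
-/

set_option autoImplicit false

open Topology Filter Metric

namespace Pool.Agent.G4.A

open Pool.Agent.H36.BP (EN fs wd)
open Pool.Agent.H14.PP (IsCone CurveAt Tan)
open Pool.Agent.H62.EF (MN pr)
open Pool.Agent.AD (Vd Chart Charts IsGerm)
open Pool.Agent.TG
open Pool.Agent.G3
open Pool.Agent.G3.A
open Pool.Agent.G3.C (Gc nv nd nv_pr)

variable {N k : ℕ} {X : Set (EN N)} {Λ : AddSubgroup (Vd (k + 1))} {u : EN N → Vd (k + 1)} {D B Bad : Set (Vd (k + 1))} {a : Vd (k + 1)}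
  {Γ : AddSubgroup (Vd (k + 1))} {J rW : ℕ} {W : Fin rW → Vd (k + 1) →L[ℂ] ℂ} {α : Fin J → VForm X Λ u} {c₀ C₀ ρ δ : ℝ}

variable {ι : Type*} {𝒰 : Ultrafilter ι} {M : ℕ} {y : Fin M → ι → Vd (k + 1)} {y₀ : Vd (k + 1)} {f : Fin M → ι → ℂ → MN N} {g : ℂ → MN N} {c : ι → Fin M → ℂ → ℂ}

/-- the unit vectors over the points of a curve -/
theorem hc_unit (hX : IsCone X) (hu : TMap X Λ u) {f : ℂ → MN N} {y : Vd (k + 1)} (hf : f ∈ Hc X Λ u a y) {z : ℂ} {v : EN N} (hv : ‖v‖ = 1) (hvf : pr v = f z) :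
    v ∈ X ∧ u v - (y + z • a) ∈ Λ := by
  obtain ⟨p, hp, hpm, hpu⟩ := hc_mem hf z
  have hv0 : v ≠ 0 := by
    intro h
    rw [h, norm_zero] at hv
    exact zero_ne_one hv
  obtain ⟨e, he, hev⟩ := (Pool.Agent.H62.EF.pr_eq_iff hv0 (ne_zero hX hp)).1 (hvf.trans hpm.symm)
  rw [hev]
  exact ⟨hX.smul_mem p hp _ he, smul_mem_lat hu hp hpu he⟩

theorem hc_exu (hX : IsCone X) {f : ℂ → MN N} {y : Vd (k + 1)} (hf : f ∈ Hc X Λ u a y) (z : ℂ) : ∃ v : EN N, ‖v‖ = 1 ∧ pr v = f z := by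
  obtain ⟨p, hp, hpm, hpu⟩ := hc_mem hf z
  obtain ⟨e, he, hvX, hv1⟩ := exists_unit hX hp
  exact ⟨e • p, mem_sphere_zero_iff_norm.1 hv1, by rw [Pool.Agent.H62.EF.pr_smul _ he, hpm]⟩

theorem two_lim {Y : Type*} [NormedAddCommGroup Y] {x : ℂ} {s P Q : ι → ℂ → Y} (h1 : ∀ ε : ℝ, 0 < ε → ∃ t : ℝ, 0 < t ∧ ∀ᶠ n in (𝒰 : Filter ι), ∀ x' ∈ ball x t, ‖s n x' - P n x'‖ ≤ ε)
    (h2 : ∀ ε : ℝ, 0 < ε → ∃ t : ℝ, 0 < t ∧ ∀ᶠ n in (𝒰 : Filter ι), ∀ x' ∈ ball x t, ‖s n x' - Q n x'‖ ≤ ε) {w : ι → ℂ} (hw : Tendsto w 𝒰 (𝓝 x)) :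
    Tendsto (fun n => P n (w n) - Q n (w n)) 𝒰 (𝓝 0) := by
  rw [Metric.tendsto_nhds]
  intro ε hε
  obtain ⟨t₁, ht₁, h3⟩ := h1 (ε / 3) (by linarith)
  obtain ⟨t₂, ht₂, h4⟩ := h2 (ε / 3) (by linarith)
  filter_upwards [h3, h4, hw.eventually (ball_mem_nhds x ht₁), hw.eventually (ball_mem_nhds x ht₂)] with n a1 a2 b1 b2
  have a3 := a1 (w n) b1
  have a4 := a2 (w n) b2
  rw [dist_zero_right]
  have e : P n (w n) - Q n (w n) = (s n (w n) - Q n (w n)) - (s n (w n) - P n (w n)) := by abel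
  rw [e]
  refine (norm_sub_le _ _).trans_lt ?_
  linarith

theorem fd_comp {Y : Type*} [NormedAddCommGroup Y] [NormedSpace ℂ Y] {h : EN N → ℂ} {v : EN N} {y₁ : Vd (k + 1)} {G : ℂ × Vd (k + 1) → Y} (hh : AnalyticAt ℂ h v)
    (hG : AnalyticAt ℂ G (h v, y₁)) (w : EN N) : fderiv ℂ (fun p : EN N × Vd (k + 1) => G (h p.1, p.2)) (v, y₁) (w, 0) = fderiv ℂ h v w • fderiv ℂ G (h v, y₁) (1, 0) := by
  have h1 : HasFDerivAt (fun p : EN N × Vd (k + 1) => h p.1) ((fderiv ℂ h v).comp (ContinuousLinearMap.fst ℂ (EN N) (Vd (k + 1)))) (v, y₁) :=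
    HasFDerivAt.comp (g := h) (f := fun p : EN N × Vd (k + 1) => p.1) (v, y₁) hh.differentiableAt.hasFDerivAt hasFDerivAt_fst
  have h2 : HasFDerivAt (fun p : EN N × Vd (k + 1) => (h p.1, p.2)) (((fderiv ℂ h v).comp (ContinuousLinearMap.fst ℂ (EN N) (Vd (k + 1)))).prod (ContinuousLinearMap.snd ℂ (EN N) (Vd (k + 1)))) (v, y₁) :=
    h1.prodMk hasFDerivAt_snd
  have h3 : HasFDerivAt (fun p : EN N × Vd (k + 1) => G (h p.1, p.2)) ((fderiv ℂ G (h v, y₁)).comp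
      (((fderiv ℂ h v).comp (ContinuousLinearMap.fst ℂ (EN N) (Vd (k + 1)))).prod (ContinuousLinearMap.snd ℂ (EN N) (Vd (k + 1))))) (v, y₁) :=
    HasFDerivAt.comp (g := G) (f := fun p : EN N × Vd (k + 1) => (h p.1, p.2)) (v, y₁) hG.differentiableAt.hasFDerivAt h2
  rw [h3.fderiv]
  have e : ((fderiv ℂ h v w, (0 : Vd (k + 1))) : ℂ × Vd (k + 1)) = fderiv ℂ h v w • ((1 : ℂ), (0 : Vd (k + 1))) := by
    ext
    · simp
    · simp
  have e2 : ((fderiv ℂ G (h v, y₁)).comp (((fderiv ℂ h v).comp (ContinuousLinearMap.fst ℂ (EN N) (Vd (k + 1)))).prod (ContinuousLinearMap.snd ℂ (EN N) (Vd (k + 1))))) (w, 0) =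
      fderiv ℂ G (h v, y₁) (fderiv ℂ h v w, 0) := rfl
  rw [e2, e, map_smul]

theorem fd_an {Y : Type*} [NormedAddCommGroup Y] [NormedSpace ℂ Y] {h : EN N → ℂ} {v : EN N} {y₁ : Vd (k + 1)} {G : ℂ × Vd (k + 1) → Y} (hh : AnalyticAt ℂ h v)
    (hG : AnalyticAt ℂ G (h v, y₁)) : AnalyticAt ℂ (fun p : EN N × Vd (k + 1) => G (h p.1, p.2)) (v, y₁) := by
  have h1 : AnalyticAt ℂ (fun p : EN N × Vd (k + 1) => h p.1) (v, y₁) := AnalyticAt.fun_comp (g := h) (f := fun p : EN N × Vd (k + 1) => p.1) hh analyticAt_fst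
  exact AnalyticAt.fun_comp (g := G) (f := fun p : EN N × Vd (k + 1) => (h p.1, p.2)) hG (h1.prod analyticAt_snd)

end Pool.Agent.G4.A

end

section

/-!
# G3 A JB: the bound for the integral

By translation (`α.shift`, `II_shift`, `Cap.add`, `Lat.cpt`) it suffices to bound `II β ε y m m'` for `‖y‖ ≤ R` and all forms `β` with `|β| ≤ M` on the fibre over `y` (for `‖v i‖ ≤ ‖x‖`):
`‖II β ε y m m'‖ ≤ C M dist m m'`, `C` independent of `β`.  Near `(y₀, m₀)` one chart `χ` with `Cap … (3 ε)`: `II = (A p' - A p) / ρ ^ (k + 1)`, `‖A p' - A p‖ ≤ ‖p' - p‖ sup ‖tc‖` along the segment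
(in the fibre over `y`), `‖tc‖ ≤ C_χ M` (`det` with a diagonal matrix: the tangent vectors `fderiv χ.σ p (Pi.single i 1)` are at most `C ‖χ.σ p‖`), `‖p' - p‖ ≤ C_χ dist m m'` (`χ.q` is Lipschitz and
homogeneous of degree `0`).  Compactness of `{(y, m) | y ∈ Gd D δ, ‖y‖ ≤ R, m ∈ Fb y}` (`fb_lim`, sequences).
-/

set_option autoImplicit false

open Topology Filter Metric

namespace Pool.Agent.G3.A

open Pool.Agent.H36.BP (EN fs wd)
open Pool.Agent.H14.PP (IsCone CurveAt Tan)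
open Pool.Agent.H62.EF (MN pr)
open Pool.Agent.AD (Vd Chart Charts IsGerm)
open Pool.Agent.TG
open Pool.Agent.G3.C (Gc)

variable {N k : ℕ} {X : Set (EN N)} {Λ : AddSubgroup (Vd (k + 1))} {u : EN N → Vd (k + 1)} {D B Bad : Set (Vd (k + 1))} {a : Vd (k + 1)}

private theorem jb_sub {d : ℕ} {p : Vd d} (hp : p ∈ closedBall (0 : Vd d) 1) : p ∈ ball (0 : Vd d) 2 :=
  closedBall_subset_ball (by norm_num) hp

/-- the product of a matrix and the vector `x₀` -/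
private noncomputable def jb_mul (x₀ : EN N) : MN N →ₗ[ℂ] EN N where
  toFun y := WithLp.toLp 2 fun i => ∑ j, y (i, j) * x₀ j
  map_add' y z := by
    ext i
    simp [add_mul, Finset.sum_add_distrib]
  map_smul' c y := by
    ext i
    simp [Finset.mul_sum, mul_assoc]

private theorem jb_mul_pr (x₀ x : EN N) :
    jb_mul x₀ (pr x) = (inner ℂ x x₀ / ((‖x‖ ^ 2 : ℝ) : ℂ)) • x := by
  ext i
  simp only [jb_mul, pr, LinearMap.coe_mk, AddHom.coe_mk, PiLp.smul_apply, smul_eq_mul]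
  rw [PiLp.inner_apply, Finset.sum_div, Finset.sum_mul]
  refine Finset.sum_congr rfl fun j _ => ?_
  simp only [RCLike.inner_apply]
  ring

private theorem jb_mul_self {x₀ : EN N} (hx₀ : x₀ ≠ 0) : jb_mul x₀ (pr x₀) = x₀ := by
  rw [jb_mul_pr]
  have h1 : inner ℂ x₀ x₀ = ((‖x₀‖ ^ 2 : ℝ) : ℂ) := by
    rw [inner_self_eq_norm_sq_to_K]
    push_cast
    rfl
  rw [h1, div_self, one_smul]
  have : ‖x₀‖ ≠ 0 := norm_ne_zero_iff.2 hx₀
  exact_mod_cast pow_ne_zero 2 this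

private theorem jb_local {d : ℕ} (hX : IsCone X) (χ : Chart d X) {a : Vd d}
    (ha : a ∈ closedBall (0 : Vd d) 1) :
    ∃ K : ℝ, ∀ᶠ p : Vd d × Vd d in 𝓝 (a, a), p.1 ∈ ball (0 : Vd d) 2 → p.2 ∈ ball (0 : Vd d) 2 →
      ‖p.1 - p.2‖ ≤ K * dist (pr (χ.σ p.1)) (pr (χ.σ p.2)) := by
  have haB := jb_sub ha
  have hx₀ : χ.σ a ≠ 0 := ne_zero hX (χ.σ_mem a haB).1
  set x₀ := χ.σ a with hx₀def
  let L : MN N →L[ℂ] EN N := LinearMap.toContinuousLinearMap (jb_mul x₀)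
  have hL : ∀ y, L y = jb_mul x₀ y := fun y => rfl
  have hLx : L (pr x₀) = x₀ := by rw [hL, jb_mul_self hx₀]
  have hQan : AnalyticAt ℂ (fun y => χ.q (L y)) (pr x₀) := by
    have h1 : AnalyticAt ℂ χ.q (L (pr x₀)) := by
      rw [hLx]
      exact χ.q_an _ (χ.σ_mem a haB).2.1
    exact h1.comp (L.analyticAt _)
  obtain ⟨K, s, hs, hK⟩ := hQan.hasStrictFDerivAt.exists_lipschitzOnWith
  have hcpr : ContinuousAt (fun p => pr (χ.σ p)) a :=
    ContinuousAt.comp (g := pr) (Pool.Agent.H62.EF.continuousAt_pr hx₀) (χ.σ_an a haB).continuousAt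
  have h1 : ∀ᶠ p in 𝓝 a, pr (χ.σ p) ∈ s := hcpr hs
  have h2 : ∀ᶠ p in 𝓝 a, L (pr (χ.σ p)) ≠ 0 := by
    have hc : ContinuousAt (fun p => L (pr (χ.σ p))) a :=
      ContinuousAt.comp (g := L) L.continuous.continuousAt hcpr
    apply hc.eventually_ne
    rw [← hx₀def, hLx]
    exact hx₀
  have h3 : ∀ p, p ∈ ball (0 : Vd d) 2 → L (pr (χ.σ p)) ≠ 0 → χ.q (L (pr (χ.σ p))) = p := by
    intro p hp hne
    rw [hL, jb_mul_pr] at hne ⊢
    have hc : inner ℂ (χ.σ p) x₀ / ((‖χ.σ p‖ ^ 2 : ℝ) : ℂ) ≠ 0 := by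
      intro h0
      rw [h0, zero_smul] at hne
      exact hne rfl
    rw [χ.q_smul _ (χ.σ_mem p hp).2.1 _ hc]
    exact (χ.σ_mem p hp).2.2
  refine ⟨K, ?_⟩
  have h12 := h1.and h2
  rw [nhds_prod_eq]
  filter_upwards [h12.prod_mk h12] with p hp hp1 hp2
  have h4 := hK.dist_le_mul _ hp.1.1 _ hp.2.1
  simp only [h3 p.1 hp1 hp.1.2, h3 p.2 hp2 hp.2.2] at h4
  rw [dist_eq_norm p.1 p.2] at h4
  exact h4

private theorem jb_lower {d : ℕ} (hX : IsCone X) (χ : Chart d X) : ∃ C : ℝ,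
    ∀ p ∈ closedBall (0 : Vd d) 1, ∀ p' ∈ closedBall (0 : Vd d) 1,
      ‖p - p'‖ ≤ C * dist (pr (χ.σ p)) (pr (χ.σ p')) := by
  by_contra hcon
  push Not at hcon
  choose p hp p' hp' hlt using fun n : ℕ => hcon n
  have hcomp : IsCompact (closedBall (0 : Vd d) 1 ×ˢ closedBall (0 : Vd d) 1) :=
    (isCompact_closedBall _ _).prod (isCompact_closedBall _ _)
  obtain ⟨⟨a, b⟩, ⟨ha, hb⟩, φ, hφ, hlim⟩ := hcomp.tendsto_subseq
    (x := fun n => (p n, p' n)) (fun n => ⟨hp n, hp' n⟩)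
  have hlim' : Tendsto (fun n => (p (φ n), p' (φ n))) atTop (𝓝 (a, b)) := hlim
  have hla : Tendsto (fun n => p (φ n)) atTop (𝓝 a) :=
    (continuous_fst.tendsto (a, b)).comp hlim'
  have hlb : Tendsto (fun n => p' (φ n)) atTop (𝓝 b) :=
    (continuous_snd.tendsto (a, b)).comp hlim'
  have hφt : Tendsto (fun n => ((φ n : ℕ) : ℝ)) atTop atTop :=
    tendsto_natCast_atTop_atTop.comp hφ.tendsto_atTop
  have hne : ∀ c ∈ closedBall (0 : Vd d) 1, χ.σ c ≠ 0 := fun c hc => ne_zero hX (χ.σ_mem c (jb_sub hc)).1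
  have hca : ∀ c ∈ closedBall (0 : Vd d) 1, ContinuousAt (fun p => pr (χ.σ p)) c := fun c hc =>
    ContinuousAt.comp (g := pr) (Pool.Agent.H62.EF.continuousAt_pr (hne c hc))
      (χ.σ_an c (jb_sub hc)).continuousAt
  have hab : a = b := by
    have hd : Tendsto (fun n => dist (pr (χ.σ (p (φ n)))) (pr (χ.σ (p' (φ n))))) atTop
        (𝓝 (dist (pr (χ.σ a)) (pr (χ.σ b)))) :=
      ((hca a ha).tendsto.comp hla).dist ((hca b hb).tendsto.comp hlb)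
    have hd0 : Tendsto (fun n => dist (pr (χ.σ (p (φ n)))) (pr (χ.σ (p' (φ n))))) atTop (𝓝 0) := by
      have ht : Tendsto (fun n => 2 * ((φ n : ℕ) : ℝ)⁻¹) atTop (𝓝 0) := by
        have := (tendsto_inv_atTop_zero.comp hφt).const_mul (2 : ℝ)
        rw [mul_zero] at this
        exact this
      refine squeeze_zero' (Eventually.of_forall fun n => dist_nonneg) ?_ ht
      filter_upwards [hφt.eventually_gt_atTop 0] with n hn
      have h1 := hlt (φ n)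
      have h2 : ‖p (φ n) - p' (φ n)‖ ≤ 2 := by
        have h3 := mem_closedBall_zero_iff.1 (hp (φ n))
        have h4 := mem_closedBall_zero_iff.1 (hp' (φ n))
        calc ‖p (φ n) - p' (φ n)‖ ≤ ‖p (φ n)‖ + ‖p' (φ n)‖ := norm_sub_le _ _
          _ ≤ 1 + 1 := add_le_add h3 h4
          _ = 2 := by norm_num
      rw [← div_eq_mul_inv, le_div_iff₀ hn, mul_comm]
      exact (h1.trans_le h2).le
    have h0 : dist (pr (χ.σ a)) (pr (χ.σ b)) = 0 := tendsto_nhds_unique hd hd0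
    obtain ⟨c, hc, hcab⟩ := (Pool.Agent.H62.EF.pr_eq_iff (hne a ha) (hne b hb)).1 (dist_eq_zero.1 h0)
    have h1 := (χ.σ_mem a (jb_sub ha)).2.2
    have h2 := (χ.σ_mem b (jb_sub hb)).2
    rw [← h1, hcab, χ.q_smul _ h2.1 c hc, h2.2]
  subst hab
  obtain ⟨K, hK⟩ := jb_local hX χ ha
  obtain ⟨n, hn, hnK⟩ := ((hlim'.eventually hK).and (hφt.eventually_ge_atTop K)).exists
  have h1 := hn (jb_sub (hp _)) (jb_sub (hp' _))
  have h2 := hlt (φ n)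
  have h3 : K * dist (pr (χ.σ (p (φ n)))) (pr (χ.σ (p' (φ n)))) ≤
      (φ n : ℝ) * dist (pr (χ.σ (p (φ n)))) (pr (χ.σ (p' (φ n)))) :=
    mul_le_mul_of_nonneg_right hnK dist_nonneg
  exact absurd (h1.trans h3) (not_le.2 h2)

/-- the form `α` is at most `M` on the fibre over `y` -/
private def jb_le (α : VForm X Λ u) (y : Vd (k + 1)) (M : ℝ) : Prop :=
  ∀ x ∈ X, u x - y ∈ Λ → ∀ v : Fin (k + 2) → EN N, (∀ i, Tan X x (v i)) → (∀ i, ‖v i‖ ≤ ‖x‖) → ‖α.toFun y x v‖ ≤ M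

/-- the bound for the coefficient in a chart -/
private theorem jb_tc (hX : IsCone X) (χ : Chart (k + 2) X) : ∃ C : ℝ, 0 ≤ C ∧ ∀ (c : Vd (k + 1)) (ρ : ℝ), Str Λ u χ c ρ →
    ∀ (α : VForm X Λ u) (M : ℝ), ∀ p ∈ closedBall (0 : Vd (k + 2)) 1, jb_le α (ms c ρ p) M → ‖tc α χ (ms c ρ) p‖ ≤ C * M := by
  have hne : ∀ c ∈ closedBall (0 : Vd (k + 2)) 1, χ.σ c ≠ 0 := fun c hc => ne_zero hX (χ.σ_mem c (jb_sub hc)).1
  have hcont : ContinuousOn (fun p => ‖fderiv ℂ χ.σ p‖ / ‖χ.σ p‖) (closedBall (0 : Vd (k + 2)) 1) := by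
    intro p hp
    have h1 : ContinuousAt χ.σ p := (χ.σ_an p (jb_sub hp)).continuousAt
    have h2 : ContinuousAt (fderiv ℂ χ.σ) p := (χ.σ_an p (jb_sub hp)).fderiv.continuousAt
    exact (h2.norm.div h1.norm (norm_ne_zero_iff.mpr (hne p hp))).continuousWithinAt
  obtain ⟨K, hK⟩ := (isCompact_closedBall (0 : Vd (k + 2)) 1).exists_bound_of_continuousOn hcont
  set t : ℝ := max K 1 with ht
  have ht1 : 1 ≤ t := le_max_right _ _
  have ht0 : 0 < t := by linarith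
  have htC : (t : ℂ) ≠ 0 := by exact_mod_cast ht0.ne'
  refine ⟨t ^ (k + 2), by positivity, fun c ρ hst α M p hp hM => ?_⟩
  have hpB := jb_sub hp
  have hσ := χ.σ_mem p hpB
  have hu := hst.lift p hpB
  set w : Fin (k + 2) → EN N := fun i => fderiv ℂ χ.σ p (Pi.single i 1) with hw
  have hwn : ∀ i, ‖w i‖ ≤ t * ‖χ.σ p‖ := by
    intro i
    have h1 : ‖w i‖ ≤ ‖fderiv ℂ χ.σ p‖ := by
      refine (ContinuousLinearMap.le_opNorm _ _).trans ?_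
      have h2 : ‖(Pi.single i (1 : ℂ) : Vd (k + 2))‖ ≤ 1 := by
        rw [pi_norm_le_iff_of_nonneg zero_le_one]
        intro j
        rw [Pi.single_apply]
        split_ifs
        · simp
        · simp
      calc ‖fderiv ℂ χ.σ p‖ * ‖(Pi.single i (1 : ℂ) : Vd (k + 2))‖ ≤ ‖fderiv ℂ χ.σ p‖ * 1 :=
            mul_le_mul_of_nonneg_left h2 (norm_nonneg _)
        _ = ‖fderiv ℂ χ.σ p‖ := mul_one _
    have h2 := hK p hp
    rw [Real.norm_of_nonneg (by positivity)] at h2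
    have h3 : 0 < ‖χ.σ p‖ := norm_pos_iff.mpr (hne p hp)
    rw [div_le_iff₀ h3] at h2
    refine h1.trans (h2.trans ?_)
    exact mul_le_mul_of_nonneg_right (le_max_left _ _) h3.le
  have hvT : ∀ i, Tan X (χ.σ p) ((t : ℂ)⁻¹ • w i) := fun i => by
    have h1 : (t : ℂ)⁻¹ • w i = fderiv ℂ χ.σ p ((t : ℂ)⁻¹ • (Pi.single i 1 : Vd (k + 2))) := by
      rw [map_smul]
    rw [h1]
    exact tan_sigma χ hpB _
  have h1 := α.det (ms c ρ p) (χ.σ p) hσ.1 hu (fun i => (t : ℂ)⁻¹ • w i) hvT ((t : ℂ) • (1 : Matrix (Fin (k + 2)) (Fin (k + 2)) ℂ))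
  have h2 : (fun i => ∑ j, ((t : ℂ) • (1 : Matrix (Fin (k + 2)) (Fin (k + 2)) ℂ)) i j • ((t : ℂ)⁻¹ • w j)) = w := by
    funext i
    rw [Finset.sum_eq_single i]
    · rw [Matrix.smul_apply, Matrix.one_apply_eq, smul_eq_mul, mul_one, smul_smul, mul_inv_cancel₀ htC, one_smul]
    · intro j _ hj
      rw [Matrix.smul_apply, Matrix.one_apply_ne (Ne.symm hj), smul_zero, zero_smul]
    · intro h
      exact absurd (Finset.mem_univ i) h
  rw [h2, Matrix.det_smul, Matrix.det_one, mul_one, Fintype.card_fin] at h1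
  have h3 : tc α χ (ms c ρ) p = α.toFun (ms c ρ p) (χ.σ p) w := rfl
  rw [h3, h1, norm_mul, norm_pow, Complex.norm_real, Real.norm_of_nonneg ht0.le]
  refine mul_le_mul_of_nonneg_left ?_ (by positivity)
  refine hM (χ.σ p) hσ.1 hu _ hvT fun i => ?_
  rw [norm_smul, norm_inv, Complex.norm_real, Real.norm_of_nonneg ht0.le, inv_mul_le_iff₀ ht0]
  exact hwn i

/-- the bound along a fibre in a chart -/
private theorem jb_seg {χ : Chart (k + 2) X} {c : Vd (k + 1)} {ρ : ℝ} {α : VForm X Λ u} {A : Vd (k + 2) → ℂ} (hA : IsPrim α χ (ms c ρ) A)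
    (hρ : (ρ : ℂ) ≠ 0) {y : Vd (k + 1)} {p p' : Vd (k + 2)} (hp : p ∈ closedBall (0 : Vd (k + 2)) 1) (hp' : p' ∈ closedBall (0 : Vd (k + 2)) 1)
    (h : ms c ρ p = y) (h' : ms c ρ p' = y) {C : ℝ} (hC : ∀ q ∈ closedBall (0 : Vd (k + 2)) 1, ms c ρ q = y → ‖tc α χ (ms c ρ) q‖ ≤ C) :
    ‖A p' - A p‖ ≤ C * ‖p' - p‖ := by
  have hd : tl (p' - p) = 0 := by
    have h1 : c + (ρ : ℂ) • tl p' = c + (ρ : ℂ) • tl p := h'.trans h.symm
    have h2 := smul_right_injective _ hρ (add_left_cancel h1)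
    rw [tl_sub]
    exact sub_eq_zero.2 h2
  set P : ℝ → Vd (k + 2) := fun θ => p + (θ : ℂ) • (p' - p) with hP
  have hPm : ∀ θ ∈ Set.Icc (0 : ℝ) 1, P θ ∈ closedBall (0 : Vd (k + 2)) 1 := by
    intro θ hθ
    have hc : Convex ℝ (closedBall (0 : Vd (k + 2)) 1) := convex_closedBall _ _
    exact hc.add_smul_sub_mem hp hp' hθ
  have hPs : ∀ θ : ℝ, ms c ρ (P θ) = y := by
    intro θ
    rw [← h]
    show c + (ρ : ℂ) • tl (p + (θ : ℂ) • (p' - p)) = c + (ρ : ℂ) • tl p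
    rw [tl_add, tl_smul, hd, smul_zero, add_zero]
  have hder : ∀ θ ∈ Set.Icc (0 : ℝ) 1, HasDerivWithinAt (fun θ : ℝ => A (P θ)) ((p' - p) 0 * tc α χ (ms c ρ) (P θ)) (Set.Icc 0 1) θ := by
    intro θ hθ
    have hb := jb_sub (hPm θ hθ)
    have h3 : HasDerivAt (fun t : ℂ => p + t • (p' - p)) (p' - p) (θ : ℂ) := by
      have h3 := ((hasDerivAt_id (θ : ℂ)).smul_const (p' - p)).const_add p
      rw [one_smul] at h3
      exact h3
    have h4 : HasDerivAt (fun t : ℂ => A (p + t • (p' - p))) (fderiv ℂ A (P θ) (p' - p)) (θ : ℂ) :=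
      (hA.an _ hb).differentiableAt.hasFDerivAt.comp_hasDerivAt (θ : ℂ) h3
    have h5 := h4.comp_ofReal
    have h6 : fderiv ℂ A (P θ) (p' - p) = (p' - p) 0 * tc α χ (ms c ρ) (P θ) := by
      rw [lin_vert _ hd, hA.der _ hb, smul_eq_mul]
    rw [h6] at h5
    exact h5.hasDerivWithinAt
  have hbd : ∀ θ ∈ Set.Ico (0 : ℝ) 1, ‖(p' - p) 0 * tc α χ (ms c ρ) (P θ)‖ ≤ C * ‖p' - p‖ := by
    intro θ hθ
    rw [norm_mul, mul_comm]
    have h1 := hC _ (hPm θ ⟨hθ.1, hθ.2.le⟩) (hPs θ)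
    have h2 : ‖(p' - p) 0‖ ≤ ‖p' - p‖ := norm_le_pi_norm _ _
    exact mul_le_mul h1 h2 (norm_nonneg _) ((norm_nonneg _).trans h1)
  have h1 := norm_image_sub_le_of_norm_deriv_le_segment_01' hder hbd
  have h2 : P 1 = p' := by
    rw [hP]
    simp
  have h3 : P 0 = p := by
    rw [hP]
    simp
  rw [h2, h3] at h1
  exact h1

private theorem jb_bdd (G : Geo X Λ u D B) {δ ε ε₀ : ℝ} (hc : Cst X Λ u D δ ε ε₀) (R : ℝ) : ∃ C : ℝ, 0 < C ∧
    ∀ y ∈ Gd D δ, ‖y‖ ≤ R → ∀ m ∈ Fb X Λ u y, ∀ m' ∈ Fb X Λ u y, dist m m' ≤ ε₀ → ∀ (α : VForm X Λ u) (M : ℝ), 0 ≤ M → jb_le α y M →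
      ‖II α ε y m m'‖ ≤ C * M * dist m m' := by
  by_contra hcon
  push Not at hcon
  choose y hy hyR m hm m' hm' hd α M hM0 hM hlt using fun n : ℕ => hcon ((n : ℝ) + 1) (by positivity)
  set 𝒰 : Ultrafilter ℕ := hyperfilter ℕ with h𝒰
  obtain ⟨y₀, -, hy₀⟩ := (isCompact_closedBall (0 : Vd (k + 1)) R).ultrafilter_le_nhds (𝒰.map y) (by
    rw [Ultrafilter.coe_map, le_principal_iff, mem_map]
    refine univ_mem' fun n => ?_
    simpa using hyR n)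
  have hyt : Tendsto y 𝒰 (𝓝 y₀) := hy₀
  have hy₀G : y₀ ∈ Gd D δ := (gd_closed D δ).mem_of_tendsto hyt (Eventually.of_forall hy)
  obtain ⟨m₀, -, hm₀⟩ := (Pool.Agent.H62.EF.isCompact_pr G.cone).ultrafilter_le_nhds (𝒰.map m) (by
    rw [Ultrafilter.coe_map, le_principal_iff, mem_map]
    refine univ_mem' fun n => ?_
    obtain ⟨x, hx, hxm, -⟩ := hm n
    exact ⟨x, hx, hxm⟩)
  have hmt : Tendsto m 𝒰 (𝓝 m₀) := hm₀
  have hm₀F := (fb_lim G.cone G.lat G.tor hmt hyt (Eventually.of_forall hm)).1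
  obtain ⟨χ, c, ρ, hcap⟩ := hc.cap y₀ hy₀G m₀ hm₀F
  have hε := hc.ε_pos
  have hρ0 : 0 < ρ := hcap.str.pos
  have hρ : (ρ : ℂ) ≠ 0 := by exact_mod_cast hρ0.ne'
  obtain ⟨C₁, hC₁⟩ := jb_lower G.cone χ
  obtain ⟨C₂, hC₂0, hC₂⟩ := jb_tc (Λ := Λ) (u := u) G.cone χ
  have e1 : ∀ᶠ n in (𝒰 : Filter ℕ), y n ∈ closedBall y₀ (3 * ε) := hyt.eventually (closedBall_mem_nhds _ (by positivity))
  have e2 : ∀ᶠ n in (𝒰 : Filter ℕ), dist (m n) m₀ < ε := hmt.eventually (ball_mem_nhds _ hε)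
  have e3 : ∀ᶠ n : ℕ in (𝒰 : Filter ℕ), C₂ * C₁ / ρ ^ (k + 1) ≤ (n : ℝ) := by
    have h1 : ∀ᶠ n : ℕ in atTop, C₂ * C₁ / ρ ^ (k + 1) ≤ (n : ℝ) := tendsto_natCast_atTop_atTop.eventually_ge_atTop _
    exact Nat.hyperfilter_le_atTop h1
  obtain ⟨n, h1, h2, h3⟩ := (e1.and (e2.and e3)).exists
  obtain ⟨A, hA⟩ := exists_prim (α n) χ hcap.str
  have hrel := hc.rel (y n) (hy n) (m n) (hm n) (m' n) (hm' n) (hd n) (α n)
  obtain ⟨v, hv⟩ := hrel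
  obtain ⟨⟨x, hxX, hxm, hxu⟩, ⟨x', hxX', hxm', hxu'⟩, hdd⟩ := hv.mem
  obtain ⟨hxU, hq, hqy⟩ := hcap.cap (y n) h1 x hxX hxu (by rw [hxm]; linarith)
  obtain ⟨hxU', hq', hqy'⟩ := hcap.cap (y n) h1 x' hxX' hxu' (by
    rw [hxm']
    have h4 := dist_triangle (m' n) (m n) m₀
    linarith)
  have hII := II_eq G.cone G.tor G.lat ⟨v, hv⟩ hcap hA h1 (by linarith) hxX hxX' hxm hxm'
  have hprq : ∀ z ∈ X, z ∈ χ.U → pr (χ.σ (χ.q z)) = pr z := by
    intro z hz hzU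
    obtain ⟨hb, a, ha, e⟩ := χ.surj z hz hzU
    conv_rhs => rw [e]
    exact (Pool.Agent.H62.EF.pr_smul _ ha).symm
  have h4 : ‖χ.q x' - χ.q x‖ ≤ C₁ * dist (m n) (m' n) := by
    have h5 := hC₁ _ hq' _ hq
    rw [hprq x hxX hxU, hprq x' hxX' hxU', hxm, hxm', dist_comm] at h5
    exact h5
  have h5 : ‖A (χ.q x') - A (χ.q x)‖ ≤ C₂ * M n * ‖χ.q x' - χ.q x‖ := by
    refine jb_seg hA hρ hq hq' hqy hqy' fun q hqB hqy => ?_
    refine hC₂ c ρ hcap.str (α n) (M n) q hqB ?_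
    rw [hqy]
    exact hM n
  have h6 := hlt n
  rw [hII, norm_div, norm_pow, Complex.norm_real, Real.norm_of_nonneg hρ0.le] at h6
  have hρk : 0 < ρ ^ (k + 1) := pow_pos hρ0 _
  have hdn : 0 ≤ dist (m n) (m' n) := dist_nonneg
  have h7 : ‖A (χ.q x') - A (χ.q x)‖ / ρ ^ (k + 1) ≤ (C₂ * C₁ / ρ ^ (k + 1)) * M n * dist (m n) (m' n) := by
    rw [div_le_iff₀ hρk]
    have h8 : C₂ * C₁ / ρ ^ (k + 1) * M n * dist (m n) (m' n) * ρ ^ (k + 1) = C₂ * M n * (C₁ * dist (m n) (m' n)) := by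
      field_simp
    rw [h8]
    exact h5.trans (mul_le_mul_of_nonneg_left h4 (mul_nonneg hC₂0 (hM0 n)))
  have h8 : (C₂ * C₁ / ρ ^ (k + 1)) * M n * dist (m n) (m' n) ≤ ((n : ℝ) + 1) * M n * dist (m n) (m' n) := by
    have h9 : C₂ * C₁ / ρ ^ (k + 1) ≤ (n : ℝ) + 1 := by linarith
    exact mul_le_mul_of_nonneg_right (mul_le_mul_of_nonneg_right h9 (hM0 n)) hdn
  linarith

theorem jb (G : Geo X Λ u D B) {α : VForm X Λ u} {c₀ C₀ : ℝ} (hα : Dec α c₀ C₀) (hC : 0 < C₀) {δ ε ε₀ : ℝ} (hc : Cst X Λ u D δ ε ε₀) : ∃ C : ℝ, 0 < C ∧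
    ∀ y ∈ Gd D δ, ∀ m ∈ Fb X Λ u y, ∀ m' ∈ Fb X Λ u y, dist m m' ≤ ε₀ → ‖II α ε y m m'‖ ≤ C * Real.exp (-(c₀ * ‖y‖ ^ 2)) * dist m m' := by
  obtain ⟨R, -, hR⟩ := G.lat.cpt
  obtain ⟨C, hC0, h⟩ := jb_bdd G hc R
  refine ⟨C * C₀, by positivity, fun y hy m hm m' hm' hd => ?_⟩
  obtain ⟨l, hl, hyl⟩ := hR y
  have h1 : y - l ∈ Gd D δ := by
    rw [sub_eq_add_neg]
    exact (G.gd_add δ (Λ.neg_mem hl)).2 hy
  have h2 : Fb X Λ u (y - l) = Fb X Λ u y := by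
    rw [sub_eq_add_neg, fb_add (Λ.neg_mem hl)]
  have h3 := h (y - l) h1 hyl m (by rw [h2]; exact hm) m' (by rw [h2]; exact hm') hd (α.shift hl) (C₀ * Real.exp (-(c₀ * ‖y‖ ^ 2)))
    (by positivity) (by
      intro x hx hxu v hv hvn
      have e : y - l + l = y := sub_add_cancel y l
      show ‖α.toFun (y - l + l) x v‖ ≤ _
      rw [e]
      refine hα y x hx ?_ v hv hvn
      have e2 : u x - y = u x - (y - l) - l := by abel
      rw [e2]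
      exact Λ.sub_mem hxu hl)
  rw [II_shift, sub_add_cancel] at h3
  calc ‖II α ε y m m'‖ ≤ C * (C₀ * Real.exp (-(c₀ * ‖y‖ ^ 2))) * dist m m' := h3
    _ = C * C₀ * Real.exp (-(c₀ * ‖y‖ ^ 2)) * dist m m' := by ring

end Pool.Agent.G3.A

end

section

/-!
# G3 R PrmA: local primitives of the forms along the fibres

A straight chart `χ` with `Cap` at the point `v` over `y₀ ∉ D` (`TG/Cp`: `exists_cap_at`, `cap_of_small`, `exists_str_chart`), `A` a primitive of the coefficient (`exists_prim`),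
`Ψ x = A (χ.q x) / ρ ^ (k + 1)` on a small ball around `v`.  `JJ α y (pr x) (pr x') = Ψ x' - Ψ x`: the segment from `χ.q x` to `χ.q x'` gives `IRel α ε y (pr x) (pr x') (Ψ x' - Ψ x)`, with `3 ε` at most the size
of the cap (moved to `pr x`, see `cp_cap_move`, `cp_rel_bdd` in `TG/Cp`); `jj_eq`.
-/

set_option autoImplicit false

open Topology Filter Metric

namespace Pool.Agent.G3.R

open Pool.Agent.H36.BP (EN fs wd)
open Pool.Agent.H14.PP (IsCone CurveAt Tan)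
open Pool.Agent.H62.EF (MN pr)
open Pool.Agent.AD (Vd Chart Charts IsGerm)
open Pool.Agent.TG
open Pool.Agent.G3.C (Gc nv nd nv_pr)
open Pool.Agent.G3.A

variable {N k : ℕ} {X : Set (EN N)} {Λ : AddSubgroup (Vd (k + 1))} {u : EN N → Vd (k + 1)} {D B Bad : Set (Vd (k + 1))} {a : Vd (k + 1)}

private theorem pa_pr_q {χ : Chart (k + 2) X} {x : EN N} (hx : x ∈ X) (hU : x ∈ χ.U) : pr (χ.σ (χ.q x)) = pr x := by
  obtain ⟨hb, c, hc, e⟩ := χ.surj x hx hU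
  conv_rhs => rw [e]
  exact (Pool.Agent.H62.EF.pr_smul _ hc).symm

private theorem pa_cap_move {χ : Chart (k + 2) X} {c : Vd (k + 1)} {ρ : ℝ} {y₀ : Vd (k + 1)} {m₀ : MN N} {r : ℝ} (h : Cap Λ u χ c ρ y₀ m₀ r)
    {y₁ : Vd (k + 1)} {m₁ : MN N} {r₁ : ℝ} (hr : r₁ ≤ r / 2) (hz : dist y₁ y₀ ≤ r / 2) (hy : dist m₁ m₀ ≤ r / 2) : Cap Λ u χ c ρ y₁ m₁ r₁ where
  str := h.str
  cap := fun y hy' x hx hxz hd => by
    refine h.cap y ?_ x hx hxz ?_
    · rw [mem_closedBall] at hy' ⊢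
      have := dist_triangle y y₁ y₀
      linarith
    · have := dist_triangle (pr x) m₁ m₀
      linarith

private theorem pa_seg {s : ℝ} {p p' : Vd (k + 2)} (hp : ‖p‖ < s) (hp' : ‖p'‖ < s) {θ : ℝ} (hθ : θ ∈ Set.Icc (0 : ℝ) 1) :
    ‖p + (θ : ℂ) • (p' - p)‖ < s := by
  have e : p + (θ : ℂ) • (p' - p) = (1 - θ) • p + θ • p' := by
    have e1 : ∀ v : Vd (k + 2), (θ : ℂ) • v = θ • v := fun v => by
      ext i
      simp
    rw [e1, smul_sub, sub_smul, one_smul]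
    abel
  rw [← mem_ball_zero_iff, e]
  exact (convex_ball (0 : Vd (k + 2)) s) (mem_ball_zero_iff.2 hp) (mem_ball_zero_iff.2 hp') (by linarith [hθ.2]) hθ.1 (by ring)

theorem exists_prm (G : Geo X Λ u D B) {y₀ : Vd (k + 1)} (hy₀ : y₀ ∉ D) {v : EN N} (hv : v ∈ X) (hv1 : ‖v‖ = 1) (hu : u v - y₀ ∈ Λ) (α : VForm X Λ u) :
    ∃ (R : ℝ) (Ψ : EN N → ℂ), Prm α y₀ v R Ψ := by
  obtain ⟨d, hd, hdis⟩ := G.lat.disc
  obtain ⟨χ, ρ, hU, hq, hm, hr⟩ := exists_str_chart G.cone G.tor (G.sub y₀ hy₀ v hv hu) (η := d / 2) (by positivity)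
  obtain ⟨r, hr1, hcap⟩ := cap_of_small G.cone G.tor hv hu hm hU hq
    (fun l hl hl' => hdis l hl (by linarith)) (fun p hp => (hr p hp).2)
  obtain ⟨A, hA⟩ := exists_prim α χ hm
  -- continuity of the chart at `0`
  have h0 : (0 : Vd (k + 2)) ∈ ball (0 : Vd (k + 2)) 2 := mem_ball_self two_pos
  have hσ0 : pr (χ.σ 0) = pr v := by
    have h1 := pa_pr_q hv hU
    rwa [hq] at h1
  have hcont : ContinuousAt (fun p => pr (χ.σ p)) (0 : Vd (k + 2)) := by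
    have h1 : ContinuousAt pr (χ.σ 0) := Pool.Agent.H62.EF.continuousAt_pr (ne_zero G.cone (χ.σ_mem 0 h0).1)
    exact ContinuousAt.comp (f := χ.σ) h1 (χ.σ_an 0 h0).continuousAt
  obtain ⟨s₀, hs₀, hs⟩ := Metric.continuousAt_iff.1 hcont (r / 12) (by positivity)
  rw [hσ0] at hs
  have hs2 : 0 < min s₀ 2 := lt_min hs₀ two_pos
  have hv0 : v ≠ 0 := ne_zero G.cone hv
  -- the radius
  have h1 : ∀ᶠ x in 𝓝 v, x ∈ χ.U := χ.isOpen_U.mem_nhds hU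
  have h2 : ∀ᶠ x in 𝓝 v, ‖χ.q x‖ < min s₀ 2 := by
    have hc : ContinuousAt (fun x => ‖χ.q x‖) v := (χ.q_an v hU).continuousAt.norm
    have h3 : (fun x => ‖χ.q x‖) v < min s₀ 2 := by simpa [hq] using hs2
    exact hc.tendsto.eventually_lt_const h3
  have h3 : ∀ᶠ x in 𝓝 v, dist (pr x) (pr v) < r / 12 :=
    (Pool.Agent.H62.EF.continuousAt_pr hv0).eventually (Metric.ball_mem_nhds _ (by positivity))
  obtain ⟨R₀, hR₀, hall⟩ := Metric.eventually_nhds_iff_ball.1 ((h1.and h2).and h3)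
  have hin : ∀ x ∈ ball v (min R₀ (r / 2)), (x ∈ χ.U ∧ ‖χ.q x‖ < min s₀ 2) ∧ dist (pr x) (pr v) < r / 12 :=
    fun x hx => hall x (ball_subset_ball (min_le_left _ _) hx)
  refine ⟨min R₀ (r / 2), fun x => A (χ.q x) / (ρ : ℂ) ^ (k + 1), lt_min hR₀ (by positivity), hv1, hv, hu, ?_, ?_⟩
  · intro x hx
    obtain ⟨⟨hxU, hxq⟩, -⟩ := hin x hx
    have h4 : AnalyticAt ℂ (fun x => A (χ.q x)) x :=
      AnalyticAt.fun_comp (hA.an _ (mem_ball_zero_iff.2 (hxq.trans_le (min_le_right _ _)))) (χ.q_an x hxU)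
    simp only [div_eq_mul_inv]
    exact (h4.differentiableAt.mul_const _).differentiableWithinAt
  · intro y hy x hx hxb hxy x' hx' hxb' hxy'
    obtain ⟨⟨hxU, hxq⟩, hxd⟩ := hin x hxb
    obtain ⟨⟨hxU', hxq'⟩, hxd'⟩ := hin x' hxb'
    have hyr : dist y y₀ ≤ r / 2 := (lt_of_lt_of_le (mem_ball.1 hy) (min_le_right _ _)).le
    have hyc : y ∈ closedBall y₀ r := by
      rw [mem_closedBall]
      linarith
    obtain ⟨-, -, hc1⟩ := hcap.cap y hyc x hx hxy (by linarith)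
    obtain ⟨-, -, hc2⟩ := hcap.cap y hyc x' hx' hxy' (by linarith)
    have hb1 : χ.q x ∈ ball (0 : Vd (k + 2)) 2 := mem_ball_zero_iff.2 (hxq.trans_le (min_le_right _ _))
    have hb2 : χ.q x' ∈ ball (0 : Vd (k + 2)) 2 := mem_ball_zero_iff.2 (hxq'.trans_le (min_le_right _ _))
    have hrel : IRel α (r / 6) y (pr x) (pr x') ((A (χ.q x') - A (χ.q x)) / (ρ : ℂ) ^ (k + 1)) := by
      refine ⟨χ, y₀, ρ, A, χ.q x, χ.q x', hm, hA, hb1, hb2, hc1, hc2, pa_pr_q hx hxU, pa_pr_q hx' hxU', ?_, rfl⟩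
      intro θ hθ
      have h5 := pa_seg hxq hxq' hθ
      have h6 := hs (x := χ.q x + (θ : ℂ) • (χ.q x' - χ.q x)) (by
        rw [dist_zero_right]
        exact h5.trans_le (min_le_left _ _))
      have h7 := dist_triangle (pr (χ.σ (χ.q x + (θ : ℂ) • (χ.q x' - χ.q x)))) (pr v) (pr x)
      rw [dist_comm (pr v)] at h7
      linarith
    rw [jj_eq G.cone G.tor G.lat ⟨r / 6, by positivity, ⟨χ, y₀, ρ, pa_cap_move hcap (by linarith) hyr (by linarith)⟩, hrel⟩]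
    exact sub_div _ _ _

end Pool.Agent.G3.R

end
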