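import Pool.Agent.H94.G5T.M100
import Pool.Agent.H94.G5T.M101
import Pool.Agent.H94.G5T.M47
import Pool.Agent.H94.G5T.M60
import Pool.Agent.H94.G5T.M75
import Pool.Agent.H94.G5T.M97
import Pool.Agent.H94.G5T.M98

/-! The parts of this file: G4.M.Rem, G4.Z.Arc, G4.Z.JW. -/

section

/-!
# G4 M Rem: removable singularities, from the mean value inequality

As `AD/F/Rem` (`removable`); the hypothesis on `R` is the mean value inequality `log R (z) + κ TT F z s ≤ average of log R` for small `s`; the comparison (ii) on the annulus by `sub_le_avg` (weak maximum principle,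
`V exp (δ |z|²)` has no interior maximum).
-/

set_option autoImplicit false

open Topology Filter Metric

namespace Pool.Agent.G4.M

open Pool.Agent.H36.BP (EN fs wd Sub Curve)
open Pool.Agent.AD.F (sub_le)
open Pool.Agent.G3 (TT)

variable {N : ℕ} {X : Set (EN N)}

/-- `exp (t (Re g + b log|z|))` is locally the absolute value of a holomorphic function -/
private theorem rem_sub_exp {g : ℂ → ℂ} (hg : DifferentiableOn ℂ g {0}ᶜ) (b t : ℝ) {z₀ : ℂ} (hz₀ : z₀ ≠ 0) :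
    Sub (fun z => Real.exp (t * ((g z).re + b * Real.log ‖z‖))) z₀ 0 := by
  have hga : AnalyticAt ℂ g z₀ := hg.analyticAt (isOpen_compl_singleton.mem_nhds hz₀)
  set k : ℂ → ℂ := fun z => Complex.exp ((t : ℂ) * (g z + (b : ℂ) * (Complex.log (z / z₀) + (Real.log ‖z₀‖ : ℂ)))) with hk
  have hlog : AnalyticAt ℂ (fun z : ℂ => Complex.log (z / z₀)) z₀ := by
    have h1 : AnalyticAt ℂ (fun z : ℂ => z / z₀) z₀ := by fun_prop
    refine AnalyticAt.clog h1 ?_
    simp [div_self hz₀]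
  have hka : AnalyticAt ℂ k z₀ := by
    refine AnalyticAt.cexp ?_
    exact analyticAt_const.mul (hga.add (analyticAt_const.mul (hlog.add analyticAt_const)))
  have hk0 : k z₀ ≠ 0 := Complex.exp_ne_zero _
  refine (Sub.of_holo hka hk0).congr ?_
  filter_upwards [isOpen_compl_singleton.mem_nhds hz₀] with z hz
  have hz' : z ≠ 0 := hz
  rw [hk]
  simp only
  rw [Complex.norm_exp]
  congr 1
  have h1 : (Complex.log (z / z₀)).re = Real.log ‖z‖ - Real.log ‖z₀‖ := by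
    rw [Complex.log_re, norm_div, Real.log_div (norm_ne_zero_iff.mpr hz') (norm_ne_zero_iff.mpr hz₀)]
  rw [Complex.re_ofReal_mul, Complex.add_re, Complex.re_ofReal_mul, Complex.add_re, h1, Complex.ofReal_re]
  ring

/-- the averages over two circles are equal -/
private theorem rem_avg {E : Type*} [NormedAddCommGroup E] [NormedSpace ℂ E] [CompleteSpace E] {f : ℂ → E} {r R : ℝ}
    (h0 : 0 < r) (hle : r ≤ R) (hd : ∀ z : ℂ, r ≤ ‖z‖ → ‖z‖ ≤ R → DifferentiableAt ℂ f z) :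
    Real.circleAverage f 0 R = Real.circleAverage f 0 r := by
  rw [Real.circleAverage_eq_circleIntegral h0.ne', Real.circleAverage_eq_circleIntegral (h0.trans_le hle).ne']
  congr 1
  refine Complex.circleIntegral_sub_center_inv_smul_eq_of_differentiable_on_annulus_off_countable h0 hle
    (s := ∅) Set.countable_empty ?_ ?_
  · intro z hz
    have h1 : ‖z‖ ≤ R := by simpa using hz.1
    have h2 : r ≤ ‖z‖ := by simpa using hz.2
    exact (hd z h2 h1).continuousAt.continuousWithinAt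
  · intro z hz
    have h1 : ‖z‖ < R := by simpa using hz.1.1
    have h2 : r < ‖z‖ := by simpa using hz.1.2
    exact hd z h2.le h1.le

/-- the average is near a point if the values are -/
private theorem rem_avg_le {E : Type*} [NormedAddCommGroup E] [NormedSpace ℝ E] [CompleteSpace E] {f : ℂ → E} {c : E} {R A : ℝ}
    (hR : 0 < R) (hf : ContinuousOn f (sphere 0 R)) (h : ∀ z : ℂ, ‖z‖ = R → ‖f z - c‖ ≤ A) :
    ‖Real.circleAverage f 0 R - c‖ ≤ A := by
  have hci : CircleIntegrable f 0 R := hf.circleIntegrable hR.le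
  have hcc : CircleIntegrable (fun _ : ℂ => c) 0 R := circleIntegrable_const c 0 R
  have h1 : Real.circleAverage (fun z => f z - c) 0 R = Real.circleAverage f 0 R - c := by
    rw [Real.circleAverage_fun_sub hci hcc, Real.circleAverage_const]
  rw [← h1, Real.circleAverage_def, norm_smul, norm_inv, Real.norm_of_nonneg (by positivity)]
  have h2 : ‖∫ θ in (0 : ℝ)..2 * Real.pi, (f (circleMap 0 R θ) - c)‖ ≤ A * |2 * Real.pi - 0| := by
    refine intervalIntegral.norm_integral_le_of_norm_le_const fun θ _ => h _ ?_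
    rw [norm_circleMap_zero, abs_of_pos hR]
  rw [sub_zero, abs_of_pos (by positivity)] at h2
  rw [inv_mul_le_iff₀ (by positivity)]
  linarith

/-- the average of `‖w‖ ^ 2` -/
theorem avg_norm_sq (z : ℂ) {s : ℝ} (hs : 0 < s) : Real.circleAverage (fun w : ℂ => ‖w‖ ^ 2) z s = ‖z‖ ^ 2 + s ^ 2 := by
  have h1 : ∀ w : ℂ, ‖w‖ ^ 2 = (2 * (z.re * w.re + z.im * w.im) - ‖z‖ ^ 2) + ‖w - z‖ ^ 2 := by
    intro w
    rw [Complex.sq_norm, Complex.sq_norm, Complex.sq_norm, Complex.normSq_apply, Complex.normSq_apply, Complex.normSq_apply]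
    simp only [Complex.sub_re, Complex.sub_im]
    ring
  have h2 : Real.circleAverage (fun w : ℂ => ‖w‖ ^ 2) z s = Real.circleAverage (fun w : ℂ => 2 * ((starRingEnd ℂ) z * w).re - ‖z‖ ^ 2 + s ^ 2) z s := by
    refine Real.circleAverage_congr_sphere fun w hw => ?_
    rw [abs_of_pos hs] at hw
    show ‖w‖ ^ 2 = 2 * ((starRingEnd ℂ) z * w).re - ‖z‖ ^ 2 + s ^ 2
    rw [h1 w, mem_sphere_iff_norm.1 hw]
    simp only [Complex.mul_re, Complex.conj_re, Complex.conj_im]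
    ring
  have hd : DiffContOnCl ℂ (fun w : ℂ => 2 * ((starRingEnd ℂ) z * w)) (ball z |s|) := by
    have h3 : Differentiable ℂ (fun w : ℂ => 2 * ((starRingEnd ℂ) z * w)) := by fun_prop
    exact h3.diffContOnCl
  have h3 : Real.circleAverage (fun w : ℂ => 2 * ((starRingEnd ℂ) z * w)) z s = 2 * ((starRingEnd ℂ) z * z) := hd.circleAverage
  have hci : CircleIntegrable (fun w : ℂ => 2 * ((starRingEnd ℂ) z * w)) z s := by
    refine ContinuousOn.circleIntegrable hs.le (Continuous.continuousOn ?_)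
    fun_prop
  have h4 := Complex.reCLM.circleAverage_comp_comm hci
  rw [h3] at h4
  have hcr : CircleIntegrable (fun w : ℂ => (2 * ((starRingEnd ℂ) z * w)).re) z s := by
    refine ContinuousOn.circleIntegrable hs.le (Continuous.continuousOn ?_)
    fun_prop
  have h5 : (fun w : ℂ => 2 * ((starRingEnd ℂ) z * w).re - ‖z‖ ^ 2 + s ^ 2) = fun w : ℂ => (2 * ((starRingEnd ℂ) z * w)).re + (-‖z‖ ^ 2 + s ^ 2) := by
    funext w
    have h6 : (2 * ((starRingEnd ℂ) z * w)).re = 2 * ((starRingEnd ℂ) z * w).re := by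
      simp
    rw [h6]
    ring
  rw [h2, h5, Real.circleAverage_fun_add hcr (circleIntegrable_const _ _ _), Real.circleAverage_const]
  have h7 : Real.circleAverage (fun w : ℂ => (2 * ((starRingEnd ℂ) z * w)).re) z s = (2 * ((starRingEnd ℂ) z * z)).re := h4
  rw [h7, Complex.conj_mul', Complex.sq_norm]
  have h8 : (2 * ((‖z‖ : ℂ)) ^ 2).re = 2 * Complex.normSq z := by
    rw [← Complex.sq_norm, ← Complex.ofReal_pow, Complex.re_mul_ofReal]
    simp
  rw [h8]
  ring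

/-- weak maximum principle -/
theorem sub_le_avg {S U : Set ℂ} (hS : IsCompact S) (hU : IsOpen U) (hUS : U ⊆ S) {V : ℂ → ℝ} (hV : ContinuousOn V S)
    (hsub : ∀ z ∈ U, 0 < V z → ∀ c : ℝ, c < 0 → ∀ᶠ s in 𝓝[>] (0 : ℝ), Real.log (V z) + c * s ^ 2 ≤ Real.circleAverage (fun w => Real.log (V w)) z s)
    {A : ℝ} (hA : 0 ≤ A) (hbd : ∀ z ∈ S \ U, V z ≤ A) : ∀ z ∈ S, V z ≤ A := by
  intro z₁ hz₁
  by_contra hlt
  push Not at hlt
  obtain ⟨R, hR⟩ := hS.isBounded.exists_norm_le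
  obtain ⟨δ, hδ, hδ1⟩ : ∃ δ : ℝ, 0 < δ ∧ A * Real.exp (δ * R ^ 2) < V z₁ := by
    have h1 : Tendsto (fun δ : ℝ => A * Real.exp (δ * R ^ 2)) (𝓝[>] 0) (𝓝 (A * Real.exp (0 * R ^ 2))) := by
      apply tendsto_nhdsWithin_of_tendsto_nhds
      have hc : Continuous (fun δ : ℝ => A * Real.exp (δ * R ^ 2)) := by fun_prop
      exact hc.tendsto 0
    rw [zero_mul, Real.exp_zero, mul_one] at h1
    obtain ⟨δ, h2, h3⟩ := ((h1.eventually_lt_const hlt).and self_mem_nhdsWithin).exists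
    exact ⟨δ, h3, h2⟩
  obtain ⟨W, hW⟩ : ∃ W : ℂ → ℝ, W = fun z => V z * Real.exp (δ * ‖z‖ ^ 2) := ⟨_, rfl⟩
  have hWz : ∀ z, W z = V z * Real.exp (δ * ‖z‖ ^ 2) := fun z => by rw [hW]
  have hWc : ContinuousOn W S := by
    rw [hW]
    refine hV.mul ?_
    exact Continuous.continuousOn (by fun_prop)
  obtain ⟨z₀, hz₀, hmax⟩ := hS.exists_isMaxOn ⟨z₁, hz₁⟩ hWc
  have h1 : V z₁ ≤ W z₀ := by
    have h2 : W z₁ ≤ W z₀ := hmax hz₁
    refine le_trans ?_ h2
    rw [hWz]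
    exact le_mul_of_one_le_right (hA.trans hlt.le) (Real.one_le_exp (by positivity))
  have hz₀U : z₀ ∈ U := by
    by_contra h2
    have h3 := hbd z₀ ⟨hz₀, h2⟩
    have h4 : W z₀ ≤ A * Real.exp (δ * R ^ 2) := by
      rw [hWz]
      calc V z₀ * Real.exp (δ * ‖z₀‖ ^ 2) ≤ A * Real.exp (δ * ‖z₀‖ ^ 2) := mul_le_mul_of_nonneg_right h3 (Real.exp_pos _).le
        _ ≤ A * Real.exp (δ * R ^ 2) := by
          refine mul_le_mul_of_nonneg_left (Real.exp_le_exp.2 ?_) hA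
          have := hR z₀ hz₀
          gcongr
    linarith
  have hW0 : 0 < W z₀ := lt_of_lt_of_le (lt_of_le_of_lt hA hlt) h1
  have hV0 : 0 < V z₀ := by
    rw [hWz] at hW0
    exact pos_of_mul_pos_left hW0 (Real.exp_pos _).le
  have hVc : ContinuousAt V z₀ := (hV z₀ hz₀).continuousAt (mem_of_superset (hU.mem_nhds hz₀U) hUS)
  obtain ⟨ρ, hρ, hball⟩ := Metric.eventually_nhds_iff_ball.1 ((hVc.eventually_const_lt hV0).and (hU.mem_nhds hz₀U))
  have hsm : ∀ᶠ s in 𝓝[>] (0 : ℝ), s < ρ := nhdsWithin_le_nhds (Iio_mem_nhds hρ)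
  obtain ⟨s, ⟨hs1, hs2⟩, hs0⟩ := (((hsub z₀ hz₀U hV0 (-(δ / 2)) (by linarith)).and hsm).and self_mem_nhdsWithin).exists
  have hs0 : 0 < s := hs0
  have hsph : ∀ w ∈ sphere z₀ s, w ∈ ball z₀ ρ := fun w hw => by
    rw [mem_ball, mem_sphere.1 hw]
    exact hs2
  have hle : Real.circleAverage (fun w => Real.log (V w)) z₀ s ≤ Real.circleAverage (fun w : ℂ => Real.log (W z₀) - δ • ‖w‖ ^ 2) z₀ s := by
    refine Real.circleAverage_mono ?_ ?_ fun w hw => ?_
    · refine ContinuousOn.circleIntegrable hs0.le (ContinuousOn.log ((hV.mono hUS).mono fun w hw => (hball w (hsph w hw)).2) fun w hw => ?_)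
      exact (hball w (hsph w hw)).1.ne'
    · refine ContinuousOn.circleIntegrable hs0.le (Continuous.continuousOn ?_)
      fun_prop
    · rw [abs_of_pos hs0] at hw
      obtain ⟨h2, h3⟩ := hball w (hsph w hw)
      have h4 : W w ≤ W z₀ := hmax (hUS h3)
      have h5 : 0 < W w := by
        rw [hWz]
        exact mul_pos h2 (Real.exp_pos _)
      have h6 := Real.log_le_log h5 h4
      rw [hWz w, Real.log_mul h2.ne' (Real.exp_pos _).ne', Real.log_exp] at h6
      show Real.log (V w) ≤ Real.log (W z₀) - δ * ‖w‖ ^ 2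
      linarith
  have hav : Real.circleAverage (fun w : ℂ => Real.log (W z₀) - δ • ‖w‖ ^ 2) z₀ s = Real.log (W z₀) - δ * (‖z₀‖ ^ 2 + s ^ 2) := by
    have hcs : CircleIntegrable (fun w : ℂ => ‖w‖ ^ 2) z₀ s := ContinuousOn.circleIntegrable hs0.le (Continuous.continuousOn (by fun_prop))
    rw [Real.circleAverage_fun_sub (circleIntegrable_const _ _ _) hcs.const_fun_smul, Real.circleAverage_const, Real.circleAverage_fun_smul, avg_norm_sq z₀ hs0, smul_eq_mul]
  rw [hav] at hle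
  have h2 : Real.log (W z₀) = Real.log (V z₀) + δ * ‖z₀‖ ^ 2 := by
    rw [hWz, Real.log_mul hV0.ne' (Real.exp_pos _).ne', Real.log_exp]
  rw [h2] at hle
  have h3 : 0 < δ * s ^ 2 := by positivity
  linarith

/-- comparison on an annulus -/
private theorem rem_bounds {F : ℂ → EN N} {R : ℂ → ℝ} {κ r r' r₁ : ℝ} (hκ : 0 < κ) (hr0 : 0 < r) (hrr : r < r') (hr' : r' < r₁) (hr1 : r₁ ≤ 1)
    (hF : DifferentiableOn ℂ F (ball 0 1 \ {0})) (hF0 : ∀ z ∈ ball (0 : ℂ) 1 \ {0}, F z ≠ 0) (hR : ContinuousOn R (ball 0 r₁ \ {0}))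
    (h0 : ∀ z ∈ ball (0 : ℂ) r₁ \ {0}, 0 ≤ R z) (h1 : ∀ z ∈ ball (0 : ℂ) r₁ \ {0}, R z ≤ 1)
    (hs : ∀ z ∈ ball (0 : ℂ) r₁ \ {0}, 0 < R z → ∀ᶠ s in 𝓝[>] (0 : ℝ), Real.log (R z) + κ * TT F z s ≤ Real.circleAverage (fun w => Real.log (R w)) z s) :
    ∃ (g : ℂ → ℂ) (b : ℝ), DifferentiableOn ℂ g {0}ᶜ ∧ ∀ z : ℂ, r ≤ ‖z‖ → ‖z‖ ≤ r' →
      κ * Real.log ‖F z‖ ≤ 1 + ((g z).re + b * Real.log ‖z‖) ∧
      R z * Real.exp ((g z).re + b * Real.log ‖z‖ - κ * Real.log ‖F z‖) ≤ Real.exp 1 := by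
  have hopen : IsOpen (ball (0 : ℂ) 1 \ {0}) := isOpen_ball.sdiff isClosed_singleton
  obtain ⟨S, hS⟩ : ∃ S : Set ℂ, S = {z | r ≤ ‖z‖ ∧ ‖z‖ ≤ r'} := ⟨_, rfl⟩
  obtain ⟨U, hU⟩ : ∃ U : Set ℂ, U = {z | r < ‖z‖ ∧ ‖z‖ < r'} := ⟨_, rfl⟩
  have hSc : IsCompact S := by
    rw [hS]
    refine (isCompact_closedBall (0 : ℂ) r').of_isClosed_subset ?_ ?_
    · exact (isClosed_le continuous_const continuous_norm).inter (isClosed_le continuous_norm continuous_const)
    · intro z hz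
      simpa using hz.2
  have hUo : IsOpen U := by
    rw [hU]
    exact (isOpen_lt continuous_const continuous_norm).inter (isOpen_lt continuous_norm continuous_const)
  have hUS : U ⊆ S := by
    rw [hU, hS]
    exact fun z hz => ⟨hz.1.le, hz.2.le⟩
  have hSsub1 : S ⊆ ball (0 : ℂ) r₁ \ {0} := by
    rw [hS]
    intro z hz
    refine ⟨?_, ?_⟩
    · rw [mem_ball_zero_iff]
      exact lt_of_le_of_lt hz.2 hr'
    · rintro rfl
      have := hz.1
      rw [norm_zero] at this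
      linarith
  have hsub1 : ball (0 : ℂ) r₁ \ {0} ⊆ ball (0 : ℂ) 1 \ {0} := fun z hz => ⟨ball_subset_ball hr1 hz.1, hz.2⟩
  have hSsub : S ⊆ ball (0 : ℂ) 1 \ {0} := hSsub1.trans hsub1
  have hSsph : S \ U ⊆ sphere (0 : ℂ) r ∪ sphere (0 : ℂ) r' := by
    rw [hS, hU]
    intro z hz
    have h1 := hz.1
    have h2 : ¬ (r < ‖z‖ ∧ ‖z‖ < r') := hz.2
    rcases h1.1.lt_or_eq with h | h
    · right
      rw [mem_sphere_zero_iff_norm]
      by_contra hne
      exact h2 ⟨h, lt_of_le_of_ne h1.2 hne⟩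
    · left
      rw [mem_sphere_zero_iff_norm, h]
  have hsphS : sphere (0 : ℂ) r ∪ sphere (0 : ℂ) r' ⊆ S := by
    rw [hS]
    rintro z (hz | hz)
    · rw [mem_sphere_zero_iff_norm] at hz
      exact ⟨hz.ge, by rw [hz]; exact hrr.le⟩
    · rw [mem_sphere_zero_iff_norm] at hz
      exact ⟨by rw [hz]; exact hrr.le, hz.le⟩
  have hFn : ∀ z ∈ ball (0 : ℂ) 1 \ {0}, 0 < ‖F z‖ := fun z hz => norm_pos_iff.mpr (hF0 z hz)
  have hFc : ContinuousOn F S := hF.continuousOn.mono hSsub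
  have hFa : ∀ z ∈ ball (0 : ℂ) 1 \ {0}, AnalyticAt ℂ F z := fun z hz => hF.analyticAt (hopen.mem_nhds hz)
  obtain ⟨g, b, hg, hgb⟩ := Pool.Agent.H36.BP.annulus_approx hr0 hrr (fun z => κ * Real.log ‖F z‖)
    (by
      refine ContinuousOn.mul continuousOn_const (ContinuousOn.log (hFc.mono hsphS).norm ?_)
      intro z hz
      exact (hFn z (hSsub (hsphS hz))).ne') (ε := 1) one_pos
  obtain ⟨w, hw⟩ : ∃ w : ℂ → ℝ, w = fun z => (g z).re + b * Real.log ‖z‖ := ⟨_, rfl⟩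
  have hwz : ∀ z, w z = (g z).re + b * Real.log ‖z‖ := fun z => by rw [hw]
  have hwc : ContinuousOn w S := by
    have h1 : ContinuousOn g S := hg.continuousOn.mono fun z hz => (hSsub hz).2
    rw [hw]
    refine (Complex.continuous_re.comp_continuousOn h1).add (continuousOn_const.mul
      (ContinuousOn.log continuous_norm.continuousOn ?_))
    intro z hz
    exact norm_ne_zero_iff.mpr (hSsub hz).2
  have hlogF : ∀ (a : ℝ), ∀ z ∈ ball (0 : ℂ) 1 \ {0}, ‖F z‖ ^ a = Real.exp (a * Real.log ‖F z‖) := by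
    intro a z hz
    rw [Real.rpow_def_of_pos (hFn z hz), mul_comm]
  have hrc : ∀ a : ℝ, ContinuousOn (fun z => ‖F z‖ ^ a) S := by
    intro a
    refine ContinuousOn.rpow_const hFc.norm ?_
    intro z hz
    exact Or.inl (hFn z (hSsub hz)).ne'
  refine ⟨g, b, hg, ?_⟩
  -- (i)
  have hA : ∀ z ∈ S, ‖F z‖ ^ κ * Real.exp (-1 * ((g z).re + b * Real.log ‖z‖)) ≤ Real.exp 1 := by
    refine sub_le hSc hUo hUS ?_ ?_ (Real.exp_nonneg _) ?_
    · refine (hrc κ).mul (Real.continuous_exp.comp_continuousOn ?_)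
      have h2 : ContinuousOn (fun z => -1 * w z) S := continuousOn_const.mul hwc
      refine h2.congr fun z hz => ?_
      show _ = -1 * w z
      rw [hwz]
    · intro z hz _
      have hz' := hSsub (hUS hz)
      have h2 := Sub.norm_rpow (hFa z hz') (hF0 z hz') κ
      have h3 := rem_sub_exp hg b (-1) (z₀ := z) hz'.2
      refine (h2.mul h3).anti ?_
      rw [add_zero]
      positivity
    · intro z hz
      rw [hlogF κ z (hSsub hz.1), ← Real.exp_add, Real.exp_le_exp]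
      have := (abs_le.mp (hgb z (hSsph hz))).1
      linarith
  -- (ii)
  have hB : ∀ z ∈ S, R z * ‖F z‖ ^ (-κ) * Real.exp (1 * ((g z).re + b * Real.log ‖z‖)) ≤ Real.exp 1 := by
    refine sub_le_avg hSc hUo hUS ?_ ?_ (Real.exp_nonneg _) ?_
    · refine ((hR.mono hSsub1).mul (hrc (-κ))).mul (Real.continuous_exp.comp_continuousOn ?_)
      have h2 : ContinuousOn (fun z => 1 * w z) S := continuousOn_const.mul hwc
      refine h2.congr fun z hz => ?_
      show _ = 1 * w z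
      rw [hwz]
    · intro z hz hpos c hc
      have hz' := hSsub (hUS hz)
      have hRp : 0 < R z := by
        rcases (h0 z (hSsub1 (hUS hz))).lt_or_eq with h | h
        · exact h
        · rw [← h, zero_mul, zero_mul] at hpos
          exact absurd hpos (lt_irrefl _)
      have h3 := rem_sub_exp hg b 1 (z₀ := z) hz'.2
      have hUz : U ∈ 𝓝 z := hUo.mem_nhds hz
      have h3c : ∀ᶠ w in 𝓝 z, ContinuousAt (fun z => Real.exp (1 * ((g z).re + b * Real.log ‖z‖))) w := by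
        filter_upwards [hUz] with w' hw'
        have h5 : ContinuousAt w w' := (hwc w' (hUS hw')).continuousAt (mem_of_superset (hUo.mem_nhds hw') hUS)
        rw [hw] at h5
        exact (continuousAt_const.mul h5).rexp
      have h4 := avg_low h3 hc h3c
      have h5 := hs z (hSsub1 (hUS hz)) hRp
      have hRc : ContinuousAt R z := (hR z (hSsub1 (hUS hz))).continuousAt (mem_of_superset hUz (hUS.trans hSsub1))
      obtain ⟨ρ, hρ, hball⟩ := Metric.eventually_nhds_iff_ball.1 ((hRc.eventually_const_lt hRp).and hUz)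
      have hsm : ∀ᶠ s in 𝓝[>] (0 : ℝ), s < ρ := nhdsWithin_le_nhds (Iio_mem_nhds hρ)
      filter_upwards [h4, h5, hsm, self_mem_nhdsWithin] with s h4 h5 h6 hs0
      have hs0 : 0 < s := hs0
      have hsph : ∀ w ∈ sphere z s, 0 < R w ∧ w ∈ U := fun w hw => hball w (by
        rw [mem_ball, mem_sphere.1 hw]
        exact h6)
      have hIR : CircleIntegrable (fun w => Real.log (R w)) z s :=
        ContinuousOn.circleIntegrable hs0.le (ContinuousOn.log (hR.mono fun w hw => hSsub1 (hUS (hsph w hw).2)) fun w hw => (hsph w hw).1.ne')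
      have hIF : CircleIntegrable (fun w => Real.log ‖F w‖) z s :=
        ContinuousOn.circleIntegrable hs0.le (ContinuousOn.log (hFc.norm.mono fun w hw => hUS (hsph w hw).2) fun w hw => (hFn w (hSsub (hUS (hsph w hw).2))).ne')
      have hlog : ∀ w, 0 < R w → w ∈ U → Real.log (R w * ‖F w‖ ^ (-κ) * Real.exp (1 * ((g w).re + b * Real.log ‖w‖))) =
          Real.log (R w) - κ • Real.log ‖F w‖ + Real.log (Real.exp (1 * ((g w).re + b * Real.log ‖w‖))) := by
        intro w h7 h8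
        have h9 := hFn w (hSsub (hUS h8))
        rw [Real.log_mul (mul_pos h7 (Real.rpow_pos_of_pos h9 _)).ne' (Real.exp_pos _).ne', Real.log_mul h7.ne' (Real.rpow_pos_of_pos h9 _).ne', Real.log_rpow h9, smul_eq_mul]
        ring
      have hcongr : Real.circleAverage (fun w => Real.log (R w * ‖F w‖ ^ (-κ) * Real.exp (1 * ((g w).re + b * Real.log ‖w‖)))) z s =
          Real.circleAverage (fun w => Real.log (R w)) z s - κ * Real.circleAverage (fun w => Real.log ‖F w‖) z s +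
            Real.circleAverage (fun w => Real.log (Real.exp (1 * ((g w).re + b * Real.log ‖w‖)))) z s := by
        have h7 : Real.circleAverage (fun w => Real.log (R w * ‖F w‖ ^ (-κ) * Real.exp (1 * ((g w).re + b * Real.log ‖w‖)))) z s =
            Real.circleAverage (fun w => Real.log (R w) - κ • Real.log ‖F w‖ + Real.log (Real.exp (1 * ((g w).re + b * Real.log ‖w‖)))) z s := by
          refine Real.circleAverage_congr_sphere fun w hw => ?_
          rw [abs_of_pos hs0] at hw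
          exact hlog w (hsph w hw).1 (hsph w hw).2
        rw [h7, Real.circleAverage_fun_add (hIR.fun_sub hIF.const_fun_smul) h4.1, Real.circleAverage_fun_sub hIR hIF.const_fun_smul, Real.circleAverage_fun_smul, smul_eq_mul]
      rw [hcongr, hlog z hRp hz, smul_eq_mul]
      have h8 := h4.2
      rw [TT, mul_sub] at h5
      linarith
    · intro z hz
      have h2 := (abs_le.mp (hgb z (hSsph hz))).2
      have h3 : R z ≤ 1 := h1 z (hSsub1 hz.1)
      rw [hlogF (-κ) z (hSsub hz.1), mul_assoc, ← Real.exp_add]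
      calc R z * Real.exp (-κ * Real.log ‖F z‖ + 1 * ((g z).re + b * Real.log ‖z‖))
          ≤ 1 * Real.exp (-κ * Real.log ‖F z‖ + 1 * ((g z).re + b * Real.log ‖z‖)) :=
            mul_le_mul_of_nonneg_right h3 (Real.exp_nonneg _)
        _ ≤ Real.exp 1 := by
            rw [one_mul, Real.exp_le_exp]
            linarith
  intro z hz1 hz2
  have hzS : z ∈ S := by
    rw [hS]
    exact ⟨hz1, hz2⟩
  have hz' := hSsub hzS
  constructor
  · have h2 := hA z hzS
    rw [hlogF κ z hz', ← Real.exp_add, Real.exp_le_exp] at h2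
    linarith
  · have h2 := hB z hzS
    rw [hlogF (-κ) z hz', mul_assoc, ← Real.exp_add] at h2
    have h3 : (g z).re + b * Real.log ‖z‖ - κ * Real.log ‖F z‖ =
        -κ * Real.log ‖F z‖ + 1 * ((g z).re + b * Real.log ‖z‖) := by ring
    rw [h3]
    exact h2

/-- **(P4)** -/
theorem removable {F : ℂ → EN N} {R : ℂ → ℝ} {κ r₁ s₁ s₂ : ℝ} (hκ : 0 < κ) (hs₁ : 0 < s₁) (hs₂ : s₁ < s₂) (hr₁ : s₂ < r₁) (hr : r₁ ≤ 1)
    (hF : DifferentiableOn ℂ F (ball 0 1 \ {0})) (hF0 : ∀ z ∈ ball (0 : ℂ) 1 \ {0}, F z ≠ 0) (hR : ContinuousOn R (ball 0 r₁ \ {0}))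
    (h0 : ∀ z ∈ ball (0 : ℂ) r₁ \ {0}, 0 ≤ R z) (h1 : ∀ z ∈ ball (0 : ℂ) r₁ \ {0}, R z ≤ 1)
    (hs : ∀ z ∈ ball (0 : ℂ) r₁ \ {0}, 0 < R z → ∀ᶠ s in 𝓝[>] (0 : ℝ), Real.log (R z) + κ * TT F z s ≤ Real.circleAverage (fun w => Real.log (R w)) z s)
    (hpos : ∀ z : ℂ, ‖z‖ = s₁ ∨ ‖z‖ = s₂ → 0 < R z) :
    ∃ Q : ℂ → EN N, AnalyticAt ℂ Q 0 ∧ Q 0 ≠ 0 ∧ ∀ᶠ z in 𝓝[≠] (0 : ℂ), ∃ k : ℂ, k ≠ 0 ∧ Q z = k • F z := by
  obtain ⟨r', hr'1, hr'2⟩ : ∃ r' : ℝ, s₂ < r' ∧ r' < r₁ := exists_between hr₁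
  have hs20 : 0 < s₂ := hs₁.trans hs₂
  have hr'0 : 0 < r' := hs20.trans hr'1
  have hr'3 : r' < 1 := hr'2.trans_le hr
  have hFn : ∀ z : ℂ, 0 < ‖z‖ → ‖z‖ < 1 → 0 < ‖F z‖ := by
    intro z hz hz'
    refine norm_pos_iff.2 (hF0 z ⟨?_, ?_⟩)
    · rw [mem_ball_zero_iff]
      exact hz'
    · exact norm_pos_iff.1 hz
  -- the constant on the two circles
  obtain ⟨K, hK⟩ : ∃ K : Set ℂ, K = sphere (0 : ℂ) s₁ ∪ sphere (0 : ℂ) s₂ := ⟨_, rfl⟩
  have hKc : IsCompact K := by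
    rw [hK]
    exact (isCompact_sphere _ _).union (isCompact_sphere _ _)
  have hKm : ∀ z : ℂ, z ∈ K ↔ ‖z‖ = s₁ ∨ ‖z‖ = s₂ := by
    intro z
    rw [hK]
    simp
  have hKs : K ⊆ ball (0 : ℂ) r₁ \ {0} := by
    intro z hz
    rcases (hKm z).1 hz with h | h
    · refine ⟨?_, ?_⟩
      · rw [mem_ball_zero_iff, h]
        linarith
      · exact norm_pos_iff.1 (by rw [h]; exact hs₁)
    · refine ⟨?_, ?_⟩
      · rw [mem_ball_zero_iff, h]
        exact hr₁
      · exact norm_pos_iff.1 (by rw [h]; exact hs20)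
  have hKs' : K ⊆ ball (0 : ℂ) 1 \ {0} := fun z hz => ⟨ball_subset_ball hr (hKs hz).1, (hKs hz).2⟩
  obtain ⟨A, hA⟩ : ∃ A : ℝ, ∀ z ∈ K, |κ * Real.log ‖F z‖| + 1 + |Real.log (R z)| ≤ A := by
    have hc : ContinuousOn (fun z => |κ * Real.log ‖F z‖| + 1 + |Real.log (R z)|) K := by
      refine ContinuousOn.add (ContinuousOn.add (ContinuousOn.abs (ContinuousOn.mul continuousOn_const
        (ContinuousOn.log (hF.continuousOn.mono hKs').norm ?_))) continuousOn_const)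
        (ContinuousOn.abs (ContinuousOn.log (hR.mono hKs) ?_))
      · intro z hz
        exact (norm_pos_iff.2 (hF0 z (hKs' hz))).ne'
      · intro z hz
        exact (hpos z ((hKm z).1 hz)).ne'
    obtain ⟨A, hA⟩ := (hKc.image_of_continuousOn hc).bddAbove
    exact ⟨A, fun z hz => hA ⟨z, hz, rfl⟩⟩
  have hlog : 0 < Real.log s₂ - Real.log s₁ := sub_pos.2 (Real.log_lt_log hs₁ hs₂)
  obtain ⟨B, hB⟩ : ∃ B : ℝ, B = 2 * A / (Real.log s₂ - Real.log s₁) := ⟨_, rfl⟩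
  obtain ⟨m, hm⟩ := exists_nat_ge (B / κ)
  have hls₁ : Real.log s₁ < 0 := Real.log_neg hs₁ (by linarith)
  have hz₁ : ‖(s₁ : ℂ)‖ = s₁ := by rw [Complex.norm_real, Real.norm_of_nonneg hs₁.le]
  -- the bound of `b`
  have hkey : ∀ r : ℝ, 0 < r → r < s₁ → ∃ (g : ℂ → ℂ) (b : ℝ), DifferentiableOn ℂ g {0}ᶜ ∧ |b| ≤ B ∧ ∀ z : ℂ, r ≤ ‖z‖ → ‖z‖ ≤ r' →
      κ * Real.log ‖F z‖ ≤ 1 + ((g z).re + b * Real.log ‖z‖) ∧
      R z * Real.exp ((g z).re + b * Real.log ‖z‖ - κ * Real.log ‖F z‖) ≤ Real.exp 1 := by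
    intro r hr0 hrs
    obtain ⟨g, b, hg, hgb⟩ := rem_bounds hκ hr0 (hrs.trans (hs₂.trans hr'1)) hr'2 hr hF hF0 hR h0 h1 hs
    refine ⟨g, b, hg, ?_, hgb⟩
    have hω : ∀ z ∈ K, |(g z).re + b * Real.log ‖z‖| ≤ A := by
      intro z hz
      have hzn : r ≤ ‖z‖ ∧ ‖z‖ ≤ r' := by
        rcases (hKm z).1 hz with h | h
        · rw [h]
          exact ⟨hrs.le, by linarith⟩
        · rw [h]
          exact ⟨by linarith, hr'1.le⟩
      obtain ⟨h2, h3⟩ := hgb z hzn.1 hzn.2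
      have h4 := hA z hz
      have hRp := hpos z ((hKm z).1 hz)
      have h5 : Real.log (R z) + ((g z).re + b * Real.log ‖z‖ - κ * Real.log ‖F z‖) ≤ 1 := by
        rw [← Real.exp_le_exp, Real.exp_add, Real.exp_log hRp]
        exact h3
      have h6 := neg_abs_le (κ * Real.log ‖F z‖)
      have h7 := le_abs_self (κ * Real.log ‖F z‖)
      have h8 := neg_abs_le (Real.log (R z))
      have h9 := abs_nonneg (Real.log (R z))
      rw [abs_le]
      constructor <;> linarith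
    have hgd : ∀ z : ℂ, z ≠ 0 → DifferentiableAt ℂ g z := fun z hz => (hg z hz).differentiableAt (isOpen_compl_singleton.mem_nhds hz)
    have hav := rem_avg (f := g) hs₁ hs₂.le (fun z hz _ => hgd z (norm_pos_iff.1 (hs₁.trans_le hz)))
    have hre : ∀ s : ℝ, 0 < s → Real.circleAverage (fun z => (g z).re) 0 s = (Real.circleAverage g 0 s).re := by
      intro s hs0
      have hgc : ContinuousOn g (sphere 0 s) := by
        intro z hz
        refine (hgd z ?_).continuousAt.continuousWithinAt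
        rw [mem_sphere_zero_iff_norm] at hz
        exact norm_pos_iff.1 (by rw [hz]; exact hs0)
      exact Complex.reCLM.circleAverage_comp_comm (hgc.circleIntegrable hs0.le)
    have hmean : ∀ s : ℝ, 0 < s → (∀ z : ℂ, ‖z‖ = s → z ∈ K) → |(Real.circleAverage g 0 s).re + b * Real.log s| ≤ A := by
      intro s hs0 hsK
      have hgc : ContinuousOn (fun z => (g z).re) (sphere 0 s) := by
        intro z hz
        refine (Complex.continuous_re.continuousAt.comp (hgd z ?_).continuousAt).continuousWithinAt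
        rw [mem_sphere_zero_iff_norm] at hz
        exact norm_pos_iff.1 (by rw [hz]; exact hs0)
      have h2 := rem_avg_le (c := -(b * Real.log s)) (A := A) hs0 hgc (fun z hz => by
        have h3 := hω z (hsK z hz)
        rw [hz] at h3
        rw [sub_neg_eq_add, Real.norm_eq_abs]
        exact h3)
      rw [hre s hs0, sub_neg_eq_add, Real.norm_eq_abs] at h2
      exact h2
    have h2 := hmean s₁ hs₁ (fun z hz => (hKm z).2 (Or.inl hz))
    have h3 := hmean s₂ hs20 (fun z hz => (hKm z).2 (Or.inr hz))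
    rw [hav] at h3
    rw [hB, le_div_iff₀ hlog]
    have h4 : |b| * (Real.log s₂ - Real.log s₁) = |b * Real.log s₂ - b * Real.log s₁| := by
      rw [← mul_sub, abs_mul, abs_of_pos hlog]
    rw [h4]
    rw [abs_le] at h2 h3 ⊢
    constructor <;> linarith
  -- the norm of the lift
  have hnorm : ∀ (g : ℂ → ℂ) (z : ℂ), 0 < ‖z‖ → 0 < ‖F z‖ → ‖(z ^ m * Complex.exp (-(g z / κ))) • F z‖ =
      Real.exp ((m : ℝ) * Real.log ‖z‖ - (g z).re / κ + Real.log ‖F z‖) := by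
    intro g z hz hFz
    rw [norm_smul, norm_mul, norm_pow, Complex.norm_exp, Real.exp_add, Real.exp_sub, Real.exp_log hFz]
    have h1 : (-(g z / (κ : ℂ))).re = -((g z).re / κ) := by
      rw [Complex.neg_re, Complex.div_ofReal_re]
    rw [h1, Real.exp_neg]
    have h2 : Real.exp ((m : ℝ) * Real.log ‖z‖) = ‖z‖ ^ m := by
      rw [mul_comm, Real.exp_mul, Real.exp_log hz, Real.rpow_natCast]
    rw [h2]
    field_simp
  refine Pool.Agent.H36.BP.puncture_limit hF hF0 (r₁ := r') (z₁ := (s₁ : ℂ)) (A := Real.exp (1 / κ))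
    (c := Real.exp (((m : ℝ) + B / κ) * Real.log s₁ + (Real.log (R s₁) - 1) / κ)) (Real.exp_pos _) (by rw [hz₁]; exact hs₁)
    (by rw [hz₁]; linarith) hr'3 ?_
  intro r hr0 hrs
  rw [hz₁] at hrs
  obtain ⟨g, b, hg, hbB, hgb⟩ := hkey r hr0 hrs
  refine ⟨fun z => z ^ m * Complex.exp (-(g z / κ)), ?_, ?_, ?_⟩
  · intro z hz
    have h2 : DifferentiableAt ℂ g z := (hg z hz).differentiableAt (isOpen_compl_singleton.mem_nhds hz)
    exact ((differentiableAt_id.pow m).mul ((h2.div_const _).neg.cexp)).differentiableWithinAt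
  · intro z hz hz'
    have hz0 : 0 < ‖z‖ := hr0.trans_le hz
    have hFz := hFn z hz0 (hz'.trans_lt hr'3)
    show ‖(z ^ m * Complex.exp (-(g z / κ))) • F z‖ ≤ _
    rw [hnorm g z hz0 hFz]
    refine Real.exp_le_exp.2 ?_
    have h2 := (hgb z hz hz').1
    have h3 : Real.log ‖z‖ ≤ 0 := Real.log_nonpos hz0.le (hz'.trans hr'3.le)
    have h4 : Real.log ‖F z‖ ≤ (1 + ((g z).re + b * Real.log ‖z‖)) / κ := by
      rw [le_div_iff₀ hκ, mul_comm]
      exact h2
    have h5 : (1 + ((g z).re + b * Real.log ‖z‖)) / κ = 1 / κ + (g z).re / κ + b / κ * Real.log ‖z‖ := by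
      field_simp
      ring
    have h6 : 0 ≤ (m : ℝ) + b / κ := by
      have h7 : -B ≤ b := (abs_le.1 hbB).1
      have h8 : -B / κ ≤ b / κ := div_le_div_of_nonneg_right h7 hκ.le
      have h9 : -B / κ = -(B / κ) := neg_div _ _
      linarith
    have h7 := mul_nonpos_of_nonneg_of_nonpos h6 h3
    rw [h5] at h4
    linarith
  · have hFz := hFn (s₁ : ℂ) (by rw [hz₁]; exact hs₁) (by rw [hz₁]; linarith)
    show _ ≤ ‖((s₁ : ℂ) ^ m * Complex.exp (-(g s₁ / κ))) • F s₁‖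
    rw [hnorm g (s₁ : ℂ) (by rw [hz₁]; exact hs₁) hFz]
    refine Real.exp_le_exp.2 ?_
    rw [hz₁]
    have hRp : 0 < R (s₁ : ℂ) := hpos _ (Or.inl hz₁)
    have h2 := (hgb (s₁ : ℂ) (by rw [hz₁]; exact hrs.le) (by rw [hz₁]; linarith)).2
    rw [hz₁] at h2
    have h3 : Real.log (R (s₁ : ℂ)) + ((g (s₁ : ℂ)).re + b * Real.log s₁ - κ * Real.log ‖F (s₁ : ℂ)‖) ≤ 1 := by
      rw [← Real.exp_le_exp, Real.exp_add, Real.exp_log hRp]
      exact h2
    have h4 : ((g (s₁ : ℂ)).re + b * Real.log s₁ + Real.log (R (s₁ : ℂ)) - 1) / κ ≤ Real.log ‖F (s₁ : ℂ)‖ := by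
      rw [div_le_iff₀ hκ]
      linarith
    have h5 : ((g (s₁ : ℂ)).re + b * Real.log s₁ + Real.log (R (s₁ : ℂ)) - 1) / κ =
        (g (s₁ : ℂ)).re / κ + b / κ * Real.log s₁ + (Real.log (R (s₁ : ℂ)) - 1) / κ := by
      field_simp
      ring
    have h6 : B / κ * Real.log s₁ ≤ b / κ * Real.log s₁ := by
      refine mul_le_mul_of_nonpos_right ?_ hls₁.le
      exact div_le_div_of_nonneg_right (abs_le.1 hbB).2 hκ.le
    rw [h5] at h4
    linarith

end Pool.Agent.G4.M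

end

section

/-!
# G4 Z Arc: sections over arcs

`sec_arc`: `Φ` a section of the finite set `S`, `γ` holomorphic on `ball 0 R` with `γ w ∉ D` outside a discrete set.  Over `ball 0 r`, `r < R`, the section lifts to a curve `G` with `pr (G z) = Φ (γ z)`, `γ z ∉ D`.

Proof.  Near `z₀` (`arc_loc`): `φ` the lift of `Csf.mer` at `y₀ = γ z₀`, `v` a vector with `φ (y₀ + v) ≠ 0`, `c m` the derivative of order `m` of `φ` in the direction `v`; `m` minimal such that `c m ∘ γ` is not `0` near `z₀`.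
Then `φ (γ z + t v) = t ^ m (c m (γ z) / m! + ...)` and so `Φ (γ z) = pr (c m (γ z))` for `z ≠ z₀` near `z₀`.
Global: the columns of the matrix `Φ (γ z)`, divided by the diagonal element, are meromorphic vector functions; divide by zeros and poles.
-/

set_option autoImplicit false

open Topology Filter Metric

namespace Pool.Agent.G4

open Pool.Agent.H36.BP (EN fs wd Sub)
open Pool.Agent.H14.PP (IsCone CurveAt Tan)
open Pool.Agent.H62.EF (MN pr)
open Pool.Agent.AD (Vd Chart Charts)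
open Pool.Agent.TG (TMap Lat Geo Gd)
open Pool.Agent.G3 (Cv)

variable {N k : ℕ}

/-- the derivative in the direction `v` -/
private noncomputable def dv (v : Vd (k + 1)) (φ : Vd (k + 1) → EN N) : Vd (k + 1) → EN N := fun y => fderiv ℂ φ y v

private theorem dv_an {v : Vd (k + 1)} {φ : Vd (k + 1) → EN N} {y : Vd (k + 1)} (h : AnalyticAt ℂ φ y) : AnalyticAt ℂ (dv v φ) y :=
  ((ContinuousLinearMap.apply ℂ (EN N) v).analyticAt (fderiv ℂ φ y)).comp_of_eq h.fderiv rfl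

private theorem dv_it (v : Vd (k + 1)) (n : ℕ) {φ : Vd (k + 1) → EN N} {y : Vd (k + 1)} (h : AnalyticAt ℂ φ y) : AnalyticAt ℂ ((dv v)^[n] φ) y := by
  induction n generalizing φ with
  | zero => exact h
  | succ n ih =>
    rw [Function.iterate_succ_apply]
    exact ih (dv_an h)

private theorem line_an (y v : Vd (k + 1)) (t : ℂ) : AnalyticAt ℂ (fun w : ℂ => y + w • v) t :=
  analyticAt_const.add (analyticAt_id.smul analyticAt_const)

private theorem line_ev {P : Vd (k + 1) → Prop} {y : Vd (k + 1)} (v : Vd (k + 1)) (h : ∀ᶠ z in 𝓝 y, P z) : ∀ᶠ t in 𝓝 (0 : ℂ), P (y + t • v) := by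
  have h1 : Tendsto (fun t : ℂ => y + t • v) (𝓝 0) (𝓝 y) := by
    have h2 := (line_an y v 0).continuousAt.tendsto
    rwa [zero_smul, add_zero] at h2
  exact h1.eventually h

private theorem dv_coef (v : Vd (k + 1)) (n : ℕ) : ∀ {φ : Vd (k + 1) → EN N} {g : ℂ → EN N} {y : Vd (k + 1)}, AnalyticAt ℂ φ y → AnalyticAt ℂ g 0 →
    (∀ᶠ t in 𝓝 (0 : ℂ), φ (y + t • v) = t ^ n • g t) → (dv v)^[n] φ y = (n.factorial : ℂ) • g 0 := by
  induction n with
  | zero =>
    intro φ g y hφ hg h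
    have h1 := h.self_of_nhds
    rw [zero_smul, add_zero, pow_zero, one_smul] at h1
    rw [Function.iterate_zero_apply, h1, Nat.factorial_zero, Nat.cast_one, one_smul]
  | succ n ih =>
    intro φ g y hφ hg h
    rw [Function.iterate_succ_apply]
    have h1 : (fun t : ℂ => φ (y + t • v)) =ᶠ[𝓝 0] fun t => t ^ (n + 1) • g t := h
    have h2 := h1.deriv
    have key : ∀ᶠ t in 𝓝 (0 : ℂ), dv v φ (y + t • v) = t ^ n • (((n : ℂ) + 1) • g t + t • deriv g t) := by
      filter_upwards [h2, line_ev v hφ.eventually_analyticAt, hg.eventually_analyticAt] with t t1 t2 t3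
      have e1 : HasDerivAt (fun t : ℂ => y + t • v) v t := by
        have := (((hasDerivAt_id t).smul_const v).const_add y)
        rwa [one_smul] at this
      have e2 : deriv (fun t : ℂ => φ (y + t • v)) t = dv v φ (y + t • v) :=
        (t2.differentiableAt.hasFDerivAt.comp_hasDerivAt t e1).deriv
      have e3 : HasDerivAt (fun t : ℂ => t ^ (n + 1) • g t) (t ^ (n + 1) • deriv g t + (((n : ℂ) + 1) * t ^ n) • g t) t := by
        have := (hasDerivAt_pow (n + 1) t).smul t3.differentiableAt.hasDerivAt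
        rwa [Nat.add_sub_cancel, Nat.cast_add, Nat.cast_one] at this
      rw [← e2, t1, e3.deriv, smul_add, smul_smul, smul_smul, pow_succ, add_comm, mul_comm ((n : ℂ) + 1)]
    have hg1 : AnalyticAt ℂ (fun t => ((n : ℂ) + 1) • g t + t • deriv g t) 0 :=
      AnalyticAt.add (f := fun t => ((n : ℂ) + 1) • g t) (g := fun t => t • deriv g t) (AnalyticAt.smul (f := fun _ : ℂ => ((n : ℂ) + 1)) analyticAt_const hg)
        (AnalyticAt.smul (f := fun t : ℂ => t) analyticAt_id hg.deriv)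
    have h3 := ih (g := fun t => ((n : ℂ) + 1) • g t + t • deriv g t) (dv_an hφ) hg1 key
    rw [h3]
    simp only [zero_smul, add_zero]
    rw [smul_smul, Nat.factorial_succ]
    push_cast
    rw [mul_comm]

private theorem dv_lt {v : Vd (k + 1)} {n j : ℕ} (hj : j < n) {φ : Vd (k + 1) → EN N} {g : ℂ → EN N} {y : Vd (k + 1)} (hφ : AnalyticAt ℂ φ y) (hg : AnalyticAt ℂ g 0)
    (h : ∀ᶠ t in 𝓝 (0 : ℂ), φ (y + t • v) = t ^ n • g t) : (dv v)^[j] φ y = 0 := by
  have h1 := dv_coef v j (g := fun t => t ^ (n - j) • g t) hφ ((analyticAt_id.pow _).smul hg) (by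
    filter_upwards [h] with t ht
    rw [ht, smul_smul, ← pow_add]
    congr 2
    omega)
  rw [h1, zero_pow (by omega), zero_smul, smul_zero]

/-- the leading coefficient -/
private theorem dv_lead {v : Vd (k + 1)} {m : ℕ} {φ : Vd (k + 1) → EN N} {y : Vd (k + 1)} (hφ : AnalyticAt ℂ φ y) (h0 : ∀ j < m, (dv v)^[j] φ y = 0)
    (h1 : (dv v)^[m] φ y ≠ 0) :
    (∀ᶠ t in 𝓝[≠] (0 : ℂ), φ (y + t • v) ≠ 0) ∧ Tendsto (fun t : ℂ => pr (φ (y + t • v))) (𝓝[≠] 0) (𝓝 (pr ((dv v)^[m] φ y))) := by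
  have hf : AnalyticAt ℂ (fun t : ℂ => φ (y + t • v)) 0 := hφ.comp_of_eq (line_an y v 0) (by simp)
  have hne : ¬ ∀ᶠ t in 𝓝 (0 : ℂ), φ (y + t • v) = 0 := by
    intro h
    refine h1 ?_
    have := dv_coef v m (g := fun _ => 0) hφ analyticAt_const (by
      filter_upwards [h] with t ht
      rw [ht, smul_zero])
    rw [this, smul_zero]
  obtain ⟨n, g, hg, hg0, hge⟩ := hf.exists_eventuallyEq_pow_smul_nonzero_iff.2 hne
  simp only [sub_zero] at hge
  have hn := dv_coef v n hφ hg hge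
  have hnf : (n.factorial : ℂ) ≠ 0 := by exact_mod_cast n.factorial_ne_zero
  have hmn : m = n := by
    rcases lt_trichotomy m n with h | h | h
    · exact absurd (dv_lt h hφ hg hge) h1
    · exact h
    · exfalso
      have := h0 n h
      rw [hn, smul_eq_zero] at this
      exact this.elim hnf hg0
  subst hmn
  have hgc : ∀ᶠ t in 𝓝 (0 : ℂ), g t ≠ 0 := hg.continuousAt.eventually_ne hg0
  have hpw : ∀ᶠ t in 𝓝[≠] (0 : ℂ), t ^ m ≠ 0 := by
    filter_upwards [self_mem_nhdsWithin] with t ht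
    exact pow_ne_zero _ ht
  constructor
  · filter_upwards [hge.filter_mono nhdsWithin_le_nhds, hgc.filter_mono nhdsWithin_le_nhds, hpw] with t t1 t2 t3
    rw [t1]
    exact smul_ne_zero t3 t2
  · rw [hn, Pool.Agent.H62.EF.pr_smul _ hnf]
    have hc : Tendsto (fun t => pr (g t)) (𝓝[≠] (0 : ℂ)) (𝓝 (pr (g 0))) :=
      (ContinuousAt.comp (g := fun x : EN N => pr x) (Pool.Agent.H62.EF.continuousAt_pr hg0) hg.continuousAt).tendsto.mono_left nhdsWithin_le_nhds
    refine hc.congr' ?_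
    filter_upwards [hge.filter_mono nhdsWithin_le_nhds, hpw] with t t1 t3
    rw [t1, Pool.Agent.H62.EF.pr_smul _ t3]

variable {X : Set (EN N)} {Λ : AddSubgroup (Vd (k + 1))} {u : EN N → Vd (k + 1)} {D : Set (Vd (k + 1))} {S : Set (Vd (k + 1) → MN N)}

/-- the sections are continuous off `D` -/
theorem Csf.cont (hX : IsCone X) (hS : Csf X Λ u D S) {Φ : Vd (k + 1) → MN N} (hΦ : Φ ∈ S) {y : Vd (k + 1)} (hy : y ∉ D) : ContinuousAt Φ y := by
  obtain ⟨φ, hφ, hφe⟩ := hS.hol Φ hΦ y hy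
  have h0 : φ y ≠ 0 := Pool.Agent.TG.ne_zero hX hφe.self_of_nhds.1
  have h1 : ContinuousAt (fun z => pr (φ z)) y :=
    ContinuousAt.comp (g := fun x : EN N => pr x) (Pool.Agent.H62.EF.continuousAt_pr h0) hφ.continuousAt
  refine h1.congr ?_
  filter_upwards [hφe] with z hz
  exact hz.2.1.symm

/-- local lift over an arc -/
private theorem arc_loc (hX : IsCone X) (hDc : IsClosed D) (hS : Csf X Λ u D S) {Φ : Vd (k + 1) → MN N} (hΦ : Φ ∈ S) {γ : ℂ → Vd (k + 1)} {z₀ : ℂ}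
    (hγ : AnalyticAt ℂ γ z₀) (hγD : ∀ᶠ w in 𝓝[≠] z₀, γ w ∉ D) :
    ∃ H : ℂ → EN N, AnalyticAt ℂ H z₀ ∧ ∀ᶠ w in 𝓝[≠] z₀, H w ≠ 0 ∧ Φ (γ w) = pr (H w) := by
  obtain ⟨φ, hφa, hφf, hφe⟩ := hS.mer Φ hΦ (γ z₀)
  set y₀ := γ z₀ with hy₀
  obtain ⟨s, hs, hball⟩ := Metric.eventually_nhds_iff_ball.1 (hφa.eventually_analyticAt.and hφe.eventually_nhds)
  obtain ⟨y₁, hy₁, hy₁b⟩ := (hφf.and_eventually (isOpen_ball.mem_nhds (mem_ball_self hs))).exists
  set v := y₁ - y₀ with hv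
  have hvs : ‖v‖ < s := by rw [hv, ← mem_ball_iff_norm]; exact hy₁b
  have hy1v : y₀ + (1 : ℂ) • v = y₁ := by rw [hv, one_smul]; abel
  -- some derivative at `y₀` is not `0`
  have hex : ∃ m : ℕ, (dv v)^[m] φ y₀ ≠ 0 := by
    by_cases hv0 : v = 0
    · refine ⟨0, ?_⟩
      rw [Function.iterate_zero_apply]
      rw [hv0, smul_zero, add_zero] at hy1v
      rwa [hy1v]
    have hv1 : 0 < ‖v‖ := norm_pos_iff.2 hv0
    have hin : ∀ t ∈ ball (0 : ℂ) (s / ‖v‖), y₀ + t • v ∈ ball y₀ s := by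
      intro t ht
      rw [mem_ball_zero_iff, lt_div_iff₀ hv1] at ht
      rw [mem_ball_iff_norm, add_sub_cancel_left, norm_smul]
      exact ht
    have hfa : AnalyticOnNhd ℂ (fun t : ℂ => φ (y₀ + t • v)) (ball 0 (s / ‖v‖)) := fun t ht => (hball _ (hin t ht)).1.comp_of_eq (line_an y₀ v t) rfl
    have h1b : (1 : ℂ) ∈ ball (0 : ℂ) (s / ‖v‖) := by
      rw [mem_ball_zero_iff, norm_one, lt_div_iff₀ hv1, one_mul]
      exact hvs
    have h0b : (0 : ℂ) ∈ ball (0 : ℂ) (s / ‖v‖) := mem_ball_self (by positivity)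
    have hne : ¬ ∀ᶠ t in 𝓝 (0 : ℂ), φ (y₀ + t • v) = 0 := by
      intro h
      have := hfa.eqOn_zero_of_preconnected_of_eventuallyEq_zero (convex_ball 0 _).isPreconnected h0b h h1b
      simp only [hy1v] at this
      exact hy₁ this
    obtain ⟨n, g, hg, hg0, hge⟩ := (hfa 0 h0b).exists_eventuallyEq_pow_smul_nonzero_iff.2 hne
    simp only [sub_zero] at hge
    refine ⟨n, ?_⟩
    rw [dv_coef v n hφa hg hge]
    exact smul_ne_zero (by exact_mod_cast n.factorial_ne_zero) hg0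
  have hca : ∀ m : ℕ, AnalyticAt ℂ (fun z => (dv v)^[m] φ (γ z)) z₀ := fun m => (dv_it v m hφa).comp_of_eq hγ rfl
  have hex2 : ∃ m : ℕ, ¬ ∀ᶠ z in 𝓝 z₀, (dv v)^[m] φ (γ z) = 0 := by
    obtain ⟨m, hm⟩ := hex
    exact ⟨m, fun h => hm h.self_of_nhds⟩
  classical
  set m := Nat.find hex2 with hmdef
  have hm1 : ¬ ∀ᶠ z in 𝓝 z₀, (dv v)^[m] φ (γ z) = 0 := Nat.find_spec hex2
  have hm2 : ∀ j < m, ∀ᶠ z in 𝓝 z₀, (dv v)^[j] φ (γ z) = 0 := fun j hj => not_not.1 (Nat.find_min hex2 hj)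
  have hm3 : ∀ᶠ z in 𝓝[≠] z₀, (dv v)^[m] φ (γ z) ≠ 0 := (hca m).eventually_eq_zero_or_eventually_ne_zero.resolve_left hm1
  have hm4 : ∀ᶠ z in 𝓝 z₀, ∀ j < m, (dv v)^[j] φ (γ z) = 0 := by
    have := (Finset.range m).eventually_all (l := 𝓝 z₀) (p := fun j z => (dv v)^[j] φ (γ z) = 0)
    have h2 := this.2 fun j hj => hm2 j (Finset.mem_range.1 hj)
    filter_upwards [h2] with z hz j hj
    exact hz j (Finset.mem_range.2 hj)
  refine ⟨fun z => (dv v)^[m] φ (γ z), hca m, ?_⟩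
  have hgb : ∀ᶠ z in 𝓝 z₀, γ z ∈ ball y₀ s := hγ.continuousAt.eventually (isOpen_ball.mem_nhds (mem_ball_self hs))
  filter_upwards [hm3, hm4.filter_mono nhdsWithin_le_nhds, hgb.filter_mono nhdsWithin_le_nhds, hγD] with z z1 z2 z3 z4
  refine ⟨z1, ?_⟩
  obtain ⟨l1, l2⟩ := dv_lead (hball _ z3).1 z2 z1
  have hD : ∀ᶠ t in 𝓝[≠] (0 : ℂ), γ z + t • v ∉ D := (line_ev v (hDc.isOpen_compl.mem_nhds z4)).filter_mono nhdsWithin_le_nhds
  have hE : ∀ᶠ t in 𝓝[≠] (0 : ℂ), γ z + t • v ∉ D → φ (γ z + t • v) ≠ 0 → Φ (γ z + t • v) = pr (φ (γ z + t • v)) :=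
    (line_ev v (hball _ z3).2).filter_mono nhdsWithin_le_nhds
  have hc : Tendsto (fun t : ℂ => Φ (γ z + t • v)) (𝓝[≠] 0) (𝓝 (Φ (γ z))) := by
    have h1 : Tendsto (fun t : ℂ => γ z + t • v) (𝓝 0) (𝓝 (γ z)) := by
      have h2 := (line_an (γ z) v 0).continuousAt.tendsto
      rwa [zero_smul, add_zero] at h2
    exact ((hS.cont hX hΦ z4).tendsto.comp h1).mono_left nhdsWithin_le_nhds
  refine tendsto_nhds_unique (hc.congr' ?_) l2
  filter_upwards [hD, hE, l1] with t t1 t2 t3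
  exact t2 t1 t3

/-- the column `j` of a matrix divided by the diagonal element -/
private noncomputable def col (j : Fin (N + 1)) (P : MN N) : EN N := WithLp.toLp 2 fun i => P (i, j) / P (j, j)

private theorem col_pr {j : Fin (N + 1)} {x : EN N} (hx : x ≠ 0) : (x j = 0 → col j (pr x) = 0) ∧ (x j ≠ 0 → col j (pr x) = (x j)⁻¹ • x) := by
  have h2 : ((‖x‖ ^ 2 : ℝ) : ℂ) ≠ 0 := by
    have : ‖x‖ ≠ 0 := norm_ne_zero_iff.mpr hx
    exact_mod_cast pow_ne_zero 2 this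
  constructor
  · intro h
    ext i
    simp [col, pr, h]
  · intro h
    have h3 : (starRingEnd ℂ) (x j) ≠ 0 := (map_ne_zero _).2 h
    ext i
    simp only [col, pr, PiLp.smul_apply, smul_eq_mul]
    rw [div_div_div_cancel_right₀ h2]
    field_simp

/-- sections over arcs -/
theorem sec_arc (hX : IsCone X) (hu : TMap X Λ u) (hΛ : Lat Λ) (hDc : IsClosed D) (hS : Csf X Λ u D S) {Φ : Vd (k + 1) → MN N} (hΦ : Φ ∈ S) {γ : ℂ → Vd (k + 1)} {r R : ℝ}
    (hr : r < R) (hγ : DifferentiableOn ℂ γ (ball 0 R)) (hγD : ∀ z ∈ ball (0 : ℂ) R, ∀ᶠ w in 𝓝[≠] z, γ w ∉ D) :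
    ∃ G : ℂ → EN N, Cv X Λ u (ball 0 r) G γ ∧ ∀ z ∈ ball (0 : ℂ) r, γ z ∉ D → pr (G z) = Φ (γ z) := by
  rcases le_or_gt R 0 with hR | hR
  · have he : ball (0 : ℂ) r = ∅ := ball_eq_empty.2 (by linarith)
    rw [he]
    exact ⟨fun _ => 0, ⟨differentiableOn_empty, differentiableOn_empty, fun z hz => absurd hz (Set.notMem_empty z), fun z hz => absurd hz (Set.notMem_empty z)⟩,
      fun z hz => absurd hz (Set.notMem_empty z)⟩
  have hγa : AnalyticOnNhd ℂ γ (ball 0 R) := hγ.analyticOnNhd isOpen_ball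
  choose! H hHa hHe using fun z (hz : z ∈ ball (0 : ℂ) R) => arc_loc hX hDc hS hΦ (hγa z hz) (hγD z hz)
  have h0 : (0 : ℂ) ∈ ball (0 : ℂ) R := mem_ball_self hR
  -- a component which is not `0` at `0`
  have hcomp : ∀ (z : ℂ) (j : Fin (N + 1)), z ∈ ball (0 : ℂ) R → AnalyticAt ℂ (fun w => H z w j) z := fun z j hz =>
    ((ContinuousLinearMap.proj (R := ℂ) (φ := fun _ : Fin (N + 1) => ℂ) j).comp (EuclideanSpace.equiv (Fin (N + 1)) ℂ).toContinuousLinearMap).analyticAt _ |>.comp_of_eq (hHa z hz) rfl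
  obtain ⟨j, hj⟩ : ∃ j : Fin (N + 1), ¬ ∀ᶠ w in 𝓝 (0 : ℂ), H 0 w j = 0 := by
    by_contra h
    push Not at h
    have h1 : ∀ᶠ w in 𝓝 (0 : ℂ), ∀ j : Fin (N + 1), H 0 w j = 0 := Filter.eventually_all.2 h
    obtain ⟨w, w1, w2⟩ := ((h1.filter_mono nhdsWithin_le_nhds).and (hHe 0 h0)).exists
    refine w2.1 ?_
    ext i
    exact w1 i
  set M : ℂ → EN N := fun w => col j (Φ (γ w)) with hM
  have hMe : ∀ z ∈ ball (0 : ℂ) R, (∀ᶠ w in 𝓝[≠] z, M w = 0) ∨ ∀ᶠ w in 𝓝[≠] z, H z w j ≠ 0 ∧ M w = (H z w j)⁻¹ • H z w := by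
    intro z hz
    rcases (hcomp z j hz).eventually_eq_zero_or_eventually_ne_zero with h | h
    · left
      filter_upwards [h.filter_mono nhdsWithin_le_nhds, hHe z hz] with w w1 w2
      rw [hM]
      simp only [w2.2]
      exact (col_pr w2.1).1 w1
    · right
      filter_upwards [h, hHe z hz] with w w1 w2
      refine ⟨w1, ?_⟩
      rw [hM]
      simp only [w2.2]
      exact (col_pr w2.1).2 w1
  have hMm : MeromorphicOn M (ball 0 R) := by
    intro z hz
    rcases hMe z hz with h | h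
    · exact (MeromorphicAt.const (0 : EN N) z).congr (by filter_upwards [h] with w hw; rw [hw])
    · refine MeromorphicAt.congr (((hcomp z j hz).meromorphicAt.inv).smul (hHa z hz).meromorphicAt) ?_
      filter_upwards [h] with w hw
      rw [hw.2]
      rfl
  have hM0 : meromorphicOrderAt M 0 ≠ ⊤ := by
    intro h
    rw [meromorphicOrderAt_eq_top_iff] at h
    have h1 := (hcomp 0 j h0).eventually_eq_zero_or_eventually_ne_zero.resolve_left hj
    rcases hMe 0 h0 with h2 | h2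
    · obtain ⟨w, w1, w2, w3⟩ := (h1.and (h2.and (hHe 0 h0))).exists
      have h3 : M w = (H 0 w j)⁻¹ • H 0 w := by
        rw [hM]
        simp only [w3.2]
        exact (col_pr w3.1).2 w1
      rw [w2] at h3
      exact smul_ne_zero (inv_ne_zero w1) w3.1 h3.symm
    · obtain ⟨w, w1, w2, w3⟩ := (h.and (h2.and (hHe 0 h0))).exists
      rw [w2.2] at w1
      exact smul_ne_zero (inv_ne_zero w2.1) w3.1 w1
  have hMt : ∀ z ∈ ball (0 : ℂ) R, meromorphicOrderAt M z ≠ ⊤ := fun z hz =>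
    hMm.meromorphicOrderAt_ne_top_of_isPreconnected (convex_ball 0 R).isPreconnected h0 hz hM0
  have hMn : ∀ z ∈ ball (0 : ℂ) R, ∀ᶠ w in 𝓝[≠] z, M w ≠ 0 := fun z hz => (meromorphicOrderAt_ne_top_iff_eventually_ne_zero (hMm z hz)).1 (hMt z hz)
  have hMpr : ∀ z ∈ ball (0 : ℂ) R, ∀ᶠ w in 𝓝[≠] z, M w ≠ 0 ∧ pr (M w) = Φ (γ w) := by
    intro z hz
    filter_upwards [hMn z hz, hHe z hz] with w w1 w2
    refine ⟨w1, ?_⟩
    have h1 : M w = col j (pr (H z w)) := by rw [hM]; simp only [w2.2]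
    have h2 : H z w j ≠ 0 := fun h => w1 (by rw [h1]; exact (col_pr w2.1).1 h)
    rw [h1, (col_pr w2.1).2 h2, Pool.Agent.H62.EF.pr_smul _ (inv_ne_zero h2), w2.2]
  -- divide by the zeros and poles
  have hsub : closedBall (0 : ℂ) r ⊆ ball 0 R := closedBall_subset_ball hr
  have hMc : MeromorphicOn M (closedBall 0 r) := fun z hz => hMm z (hsub hz)
  obtain ⟨G, hGa, hG0, hGe⟩ := hMc.extract_zeros_poles (fun z => hMt z.1 (hsub z.2)) ((MeromorphicOn.divisor M (closedBall 0 r)).finiteSupport (isCompact_closedBall 0 r))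
  have hsub' : ball (0 : ℂ) r ⊆ closedBall 0 r := ball_subset_closedBall
  have hsub2 : ball (0 : ℂ) r ⊆ ball 0 R := ball_subset_ball hr.le
  have hG : ∀ z ∈ closedBall (0 : ℂ) r, AnalyticAt ℂ G z ∧ G z ≠ 0 := fun z hz => ⟨hGa z hz, hG0 ⟨z, hz⟩⟩
  -- the points near `z`
  have hev : ∀ z ∈ ball (0 : ℂ) r, ∀ᶠ w in 𝓝[≠] z, G w ≠ 0 ∧ γ w ∉ D ∧ pr (G w) = Φ (γ w) := by
    intro z hz
    have h1 : ∀ᶠ w in 𝓝[≠] z, w ∈ closedBall (0 : ℂ) r := nhdsWithin_le_nhds (Filter.mem_of_superset (isOpen_ball.mem_nhds hz) hsub')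
    have h3 : ∀ᶠ w in 𝓝[≠] z, w ∈ closedBall (0 : ℂ) r → M w = ((∏ᶠ u, (· - u) ^ MeromorphicOn.divisor M (closedBall 0 r) u) • G) w := by
      have h4 := mem_codiscreteWithin.1 hGe z (hsub' hz)
      rw [disjoint_principal_right] at h4
      filter_upwards [h4] with w hw hwm
      by_contra h5
      exact hw ⟨hwm, h5⟩
    filter_upwards [h1, h3, hMpr z (hsub2 hz), hγD z (hsub2 hz)] with w w1 w3 w4 w5
    refine ⟨(hG w w1).2, w5, ?_⟩
    have h6 := w3 w1
    rw [Pi.smul_apply'] at h6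
    rw [← w4.2, h6]
    refine (Pool.Agent.H62.EF.pr_smul _ fun h7 => ?_).symm
    rw [h7, zero_smul] at h6
    exact w4.1 h6
  have hγc : ∀ z ∈ ball (0 : ℂ) r, ContinuousAt γ z := fun z hz => (hγa z (hsub2 hz)).continuousAt
  have hmem : ∀ z ∈ ball (0 : ℂ) r, G z ∈ X ∧ u (G z) - γ z ∈ Λ := by
    intro z hz
    have hprc : ContinuousAt (fun w => pr (G w)) z :=
      ContinuousAt.comp (g := fun x : EN N => pr x) (Pool.Agent.H62.EF.continuousAt_pr (hG z (hsub' hz)).2) (hG z (hsub' hz)).1.continuousAt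
    refine Pool.Agent.G3.lim_mem (l := 𝓝[≠] z) hX hu hΛ (x := G) (y := γ) ?_ (hG z (hsub' hz)).2 (hprc.tendsto.mono_left nhdsWithin_le_nhds)
      ((hγc z hz).tendsto.mono_left nhdsWithin_le_nhds)
    filter_upwards [hev z hz] with w hw
    obtain ⟨φ', -, hφ'⟩ := hS.hol Φ hΦ (γ w) hw.2.1
    obtain ⟨h1, h2, h3⟩ := hφ'.self_of_nhds
    have h4 : pr (G w) = pr (φ' (γ w)) := hw.2.2.trans h2
    obtain ⟨c, hc, hcx⟩ := (Pool.Agent.H62.EF.pr_eq_iff hw.1 (Pool.Agent.TG.ne_zero hX h1)).1 h4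
    have hGX : G w ∈ X := by
      rw [hcx]
      exact hX.smul_mem _ h1 c hc
    exact ⟨hGX, Pool.Agent.TG.fb_lift hX hu (Pool.Agent.TG.mem_fb h1 h3) hGX h4⟩
  refine ⟨G, ⟨fun z hz => (hG z (hsub' hz)).1.differentiableAt.differentiableWithinAt, hγ.mono hsub2, fun z hz => (hmem z hz).1, fun z hz => (hmem z hz).2⟩, fun z hz hzD => ?_⟩
  have hc1 : ContinuousAt (fun w => Φ (γ w)) z := ContinuousAt.comp (g := Φ) (hS.cont hX hΦ hzD) (hγc z hz)
  have hc2 : ContinuousAt (fun w => pr (G w)) z :=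
    ContinuousAt.comp (g := fun x : EN N => pr x) (Pool.Agent.H62.EF.continuousAt_pr (hG z (hsub' hz)).2) (hG z (hsub' hz)).1.continuousAt
  have t1 : Tendsto (fun w => Φ (γ w)) (𝓝[≠] z) (𝓝 (Φ (γ z))) := hc1.tendsto.mono_left nhdsWithin_le_nhds
  have t2 : Tendsto (fun w => pr (G w)) (𝓝[≠] z) (𝓝 (pr (G z))) := hc2.tendsto.mono_left nhdsWithin_le_nhds
  refine tendsto_nhds_unique t2 (t1.congr' ?_)
  filter_upwards [hev z hz] with w w1
  exact w1.2.2.symm

end Pool.Agent.G4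

end

section

/-!
# G4 Z JW: the weighted bounds for the integrals

`II_tht`: `II (α j) ε (y + l) m m' = exp (L y + c) II (α j) ε y m m'` for `l ∈ Γ` (a factor which depends only on `y` is constant in the fibres).
With the compactness of `ℂ^(k+1) / Γ` the bounds of `A.jb`, `A.jn` for `‖y‖ ≤ R` give `jbw_of_frm`: upper and lower bounds with the same weight `wt W`.
-/

set_option autoImplicit false

open Topology Filter Metric

namespace Pool.Agent.G4

open Pool.Agent.H36.BP (EN fs wd Sub)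
open Pool.Agent.H14.PP (IsCone CurveAt Tan)
open Pool.Agent.H62.EF (MN pr)
open Pool.Agent.AD (Vd Chart Charts)
open Pool.Agent.TG
open Pool.Agent.G3 (Cv wt PS QD Crs)

variable {N k : ℕ}

theorem wt_nonneg {r : ℕ} (W : Fin r → Vd (k + 1) →L[ℂ] ℂ) (y : Vd (k + 1)) : 0 ≤ wt W y := Finset.sum_nonneg fun i _ => by positivity

theorem wt_cont {r : ℕ} (W : Fin r → Vd (k + 1) →L[ℂ] ℂ) : Continuous (wt W) := by
  unfold wt
  exact continuous_finsetSum _ fun i _ => ((W i).continuous.norm.pow 2)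

/-- the weight is bounded on balls -/
theorem wt_le {r : ℕ} (W : Fin r → Vd (k + 1) →L[ℂ] ℂ) (R : ℝ) : ∃ M : ℝ, 0 ≤ M ∧ ∀ y : Vd (k + 1), ‖y‖ ≤ R → wt W y ≤ M := by
  refine ⟨∑ i, (‖W i‖ * R) ^ 2, Finset.sum_nonneg fun i _ => by positivity, fun y hy => ?_⟩
  unfold wt
  refine Finset.sum_le_sum fun i _ => ?_
  refine pow_le_pow_left₀ (norm_nonneg _) ?_ 2
  exact ((W i).le_opNorm y).trans (mul_le_mul_of_nonneg_left hy (norm_nonneg _))

/-- the weight is positive definite -/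
theorem wt_ge {r : ℕ} {W : Fin r → Vd (k + 1) →L[ℂ] ℂ} (hW : ∀ y, (∀ i, W i y = 0) → y = 0) :
    ∃ c : ℝ, 0 < c ∧ ∀ y : Vd (k + 1), c * ‖y‖ ^ 2 ≤ wt W y := by
  have hpos : ∀ y ∈ sphere (0 : Vd (k + 1)) 1, 0 < wt W y := by
    intro y hy
    rw [mem_sphere_zero_iff_norm] at hy
    rcases (wt_nonneg W y).eq_or_lt with h1 | h1
    · exfalso
      have h2 : ∀ i, W i y = 0 := by
        intro i
        have h3 := (Finset.sum_eq_zero_iff_of_nonneg (s := Finset.univ) (f := fun i => ‖W i y‖ ^ 2) fun i _ => by positivity).1 h1.symm i (Finset.mem_univ i)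
        exact norm_eq_zero.1 (pow_eq_zero_iff (two_ne_zero)|>.1 h3)
      rw [hW y h2, norm_zero] at hy
      exact zero_ne_one hy
    · exact h1
  have hne : (sphere (0 : Vd (k + 1)) 1).Nonempty := by
    refine ⟨fun _ => 1, ?_⟩
    rw [mem_sphere_zero_iff_norm]
    simp [pi_norm_const]
  obtain ⟨y₁, hy₁, hmin⟩ := (isCompact_sphere (0 : Vd (k + 1)) 1).exists_isMinOn hne (wt_cont W).continuousOn
  refine ⟨wt W y₁, hpos y₁ hy₁, fun y => ?_⟩
  by_cases hy : y = 0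
  · subst hy
    simp [wt]
  · have hn : 0 < ‖y‖ := norm_pos_iff.2 hy
    set c : ℂ := (((‖y‖⁻¹ : ℝ)) : ℂ) with hcd
    have hcn : ‖c‖ = ‖y‖⁻¹ := by rw [hcd, Complex.norm_real, norm_inv, norm_norm]
    have h1 : c • y ∈ sphere (0 : Vd (k + 1)) 1 := by
      rw [mem_sphere_zero_iff_norm, norm_smul, hcn]
      exact inv_mul_cancel₀ hn.ne'
    have h2 : wt W y₁ ≤ wt W (c • y) := hmin h1
    have h3 : wt W (c • y) = (‖y‖⁻¹) ^ 2 * wt W y := by
      unfold wt
      rw [Finset.mul_sum]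
      refine Finset.sum_congr rfl fun i _ => ?_
      rw [map_smul, norm_smul, hcn, mul_pow]
    rw [h3] at h2
    have h4 := mul_le_mul_of_nonneg_right h2 (by positivity : 0 ≤ ‖y‖ ^ 2)
    have h5 : (‖y‖⁻¹) ^ 2 * wt W y * ‖y‖ ^ 2 = wt W y := by
      field_simp
    rwa [h5] at h4

variable {X : Set (EN N)} {Λ : AddSubgroup (Vd (k + 1))} {u : EN N → Vd (k + 1)} {D B : Set (Vd (k + 1))}

/-- a factor which is a function of `y` -/
theorem irel_mul {α β : VForm X Λ u} {e : Vd (k + 1) → ℂ} (he : ∀ y, AnalyticAt ℂ e y)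
    (h : ∀ y, ∀ x ∈ X, u x - y ∈ Λ → ∀ v : Fin (k + 2) → EN N, (∀ i, Tan X x (v i)) → β.toFun y x v = e y * α.toFun y x v)
    {ε : ℝ} {y : Vd (k + 1)} {m m' : MN N} {v : ℂ} (hv : IRel α ε y m m' v) : IRel β ε y m m' (e y * v) := by
  obtain ⟨χ, c, ρ, A, p, p', hst, hA, hp, hp', hpz, hpz', hpy, hpy', hseg, hv⟩ := hv
  have hms : ∀ q, AnalyticAt ℂ (ms (k := k) c ρ) q := fun q => ms_an c ρ q
  refine ⟨χ, c, ρ, fun q => e (ms c ρ q) * A q, p, p', hst, ⟨fun q hq => ((he _).comp (hms q)).mul (hA.an q hq), fun q hq => ?_, fun q hq h0 => ?_⟩, hp, hp', hpz, hpz', hpy,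
    hpy', hseg, ?_⟩
  · have hd1 : HasFDerivAt (fun q => e (ms c ρ q)) (fderiv ℂ (fun q => e (ms c ρ q)) q) q := ((he _).comp (hms q)).differentiableAt.hasFDerivAt
    have hd2 : HasFDerivAt A (fderiv ℂ A q) q := (hA.an q hq).differentiableAt.hasFDerivAt
    have h0 : fderiv ℂ (fun q => e (ms c ρ q)) q (Pi.single 0 1) = 0 := by
      have h1 : HasDerivAt (fun t : ℂ => q + t • (Pi.single 0 1 : Vd (k + 2))) (Pi.single 0 1) 0 := by
        have := ((hasDerivAt_id (0 : ℂ)).smul_const (Pi.single 0 1 : Vd (k + 2))).const_add q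
        rwa [one_smul] at this
      have hd1' : HasFDerivAt (fun q => e (ms c ρ q)) (fderiv ℂ (fun q => e (ms c ρ q)) q) (q + (0 : ℂ) • (Pi.single 0 1 : Vd (k + 2))) := by
        rw [zero_smul, add_zero]
        exact hd1
      have h2 := hd1'.comp_hasDerivAt (0 : ℂ) h1
      have h3 : ((fun q => e (ms c ρ q)) ∘ fun t : ℂ => q + t • (Pi.single 0 1 : Vd (k + 2))) = fun _ => e (ms c ρ q) := by
        funext t
        show e (ms c ρ (q + t • (Pi.single 0 1 : Vd (k + 2)))) = _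
        congr 1
        unfold ms
        congr 2
        funext i
        show (q + t • (Pi.single 0 1 : Vd (k + 2))) i.succ = q i.succ
        simp
      rw [h3] at h2
      exact h2.unique (hasDerivAt_const _ _)
    have hd3 : fderiv ℂ (fun q => e (ms c ρ q) * A q) q = e (ms c ρ q) • fderiv ℂ A q + A q • fderiv ℂ (fun q => e (ms c ρ q)) q := (hd1.mul hd2).fderiv
    rw [hd3]
    simp only [ContinuousLinearMap.add_apply, ContinuousLinearMap.smul_apply, smul_eq_mul]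
    rw [h0, mul_zero, add_zero, hA.der q hq]
    show _ = β.toFun (ms c ρ q) (χ.σ q) _
    rw [h _ _ (χ.σ_mem q hq).1 (hst.lift q hq) _ fun i => tan_sigma χ hq _]
    rfl
  · show e (ms c ρ q) * A q = 0
    rw [hA.zero q hq h0, mul_zero]
  · show e y * v = (e (ms c ρ p') * A p' - e (ms c ρ p) * A p) / (ρ : ℂ) ^ (k + 1)
    rw [hpz, hpz', hv]
    ring

/-- the theta factors of the integrals -/
theorem II_tht (G : Geo X Λ u D B) {Γ : AddSubgroup (Vd (k + 1))} {r : ℕ} {W : Fin r → Vd (k + 1) →L[ℂ] ℂ} {α : VForm X Λ u} (hle : Γ ≤ Λ) (h : Pool.Agent.G3.A.Tht Γ W α)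
    {δ ε ε₀ : ℝ} (hc : Cst X Λ u D δ ε ε₀) {l : Vd (k + 1)} (hl : l ∈ Γ) {y : Vd (k + 1)} (hy : y ∈ Gd D δ) {m m' : MN N} (hm : m ∈ Fb X Λ u y) (hm' : m' ∈ Fb X Λ u y)
    (hd : dist m m' ≤ ε₀) : ‖II α ε (y + l) m m'‖ = Real.exp (wt W y - wt W (y + l)) * ‖II α ε y m m'‖ := by
  obtain ⟨L, c, h1, h2⟩ := h l hl
  obtain ⟨v, hv⟩ := hc.rel y hy m hm m' hm' hd α
  obtain ⟨χ, c', ρ, hcap⟩ := hc.cap y hy m hm
  have hε := hc.ε_pos
  have he : ∀ y : Vd (k + 1), AnalyticAt ℂ (fun y => Complex.exp (L y + c)) y := fun y => ((L.analyticAt y).add analyticAt_const).cexp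
  have h3 := irel_mul (β := α.shift (hle hl)) he (fun y x hx hy v hv => h2 y x hx hy v hv) hv
  rw [← II_shift (hle hl), II_of_rel G.cone G.tor G.lat le_rfl hv hcap (by linarith), II_of_rel G.cone G.tor G.lat le_rfl h3 hcap (by linarith), norm_mul, h1]

/-- the weighted bounds -/
theorem jbw_of_frm (G : Geo X Λ u D B) {Γ : AddSubgroup (Vd (k + 1))} {J r : ℕ} {W : Fin r → Vd (k + 1) →L[ℂ] ℂ} {α : Fin J → VForm X Λ u}
    (h : Pool.Agent.G3.A.Frm X Λ u D Γ W α) : JBw X Λ u D α W := by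
  obtain ⟨c₀, C₀, hc₀, hC₀, hdec⟩ := h.dec G
  obtain ⟨R, -, hR⟩ := h.lat.cpt
  obtain ⟨M, hM0, hM⟩ := wt_le W R
  -- translation
  have key : ∀ {δ ε ε₀ : ℝ}, Cst X Λ u D δ ε ε₀ → ∀ y ∈ Gd D δ, ∃ l ∈ Γ, y - l ∈ Gd D δ ∧ ‖y - l‖ ≤ R ∧ Fb X Λ u (y - l) = Fb X Λ u y ∧
      ∀ j, ∀ m ∈ Fb X Λ u y, ∀ m' ∈ Fb X Λ u y, dist m m' ≤ ε₀ →
        ‖JJ (α j) y m m'‖ = Real.exp (wt W (y - l) - wt W y) * ‖II (α j) ε (y - l) m m'‖ := by
    intro δ ε ε₀ hc y hy
    obtain ⟨l, hl, hyl⟩ := hR y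
    have h1 : y - l ∈ Gd D δ := by
      rw [sub_eq_add_neg]
      exact (G.gd_add δ (Λ.neg_mem (h.le hl))).2 hy
    have h2 : Fb X Λ u (y - l) = Fb X Λ u y := by
      rw [sub_eq_add_neg, fb_add (Λ.neg_mem (h.le hl))]
    refine ⟨l, hl, h1, hyl, h2, fun j m hm m' hm' hd => ?_⟩
    have h3 := II_tht G h.le (h.per j) hc hl h1 (by rw [h2]; exact hm) (by rw [h2]; exact hm') hd
    rw [sub_add_cancel] at h3
    rw [jj_eq_II G.cone G.tor G.lat hc hy hm hm' hd, h3]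
  refine ⟨h.pos, fun δ hδ => ?_, fun δ hδ => ?_⟩
  · obtain ⟨ε, ε₀, -, -, hc⟩ := exists_cst G hδ one_pos
    choose C hC0 hC using fun j => Pool.Agent.G3.A.jb G (hdec j) hC₀ hc
    have hs : 0 ≤ ∑ j, C j := Finset.sum_nonneg fun j _ => (hC0 j).le
    refine ⟨ε₀, Real.exp M * (1 + ∑ j, C j), hc.ε₀_pos, by positivity, fun j y hy n hn n' hn' hd => ?_⟩
    obtain ⟨l, hl, h1, h2, h3, h4⟩ := key hc y hy
    rw [h4 j n hn n' hn' hd]
    have h5 : ‖II (α j) ε (y - l) n n'‖ ≤ (1 + ∑ j, C j) * dist n n' := by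
      have h6 := hC j (y - l) h1 n (by rw [h3]; exact hn) n' (by rw [h3]; exact hn') hd
      have h7 : C j ≤ 1 + ∑ j, C j := by
        have h8 := Finset.single_le_sum (f := fun j => C j) (fun j _ => (hC0 j).le) (Finset.mem_univ j)
        linarith
      have h8 : Real.exp (-(c₀ * ‖y - l‖ ^ 2)) ≤ 1 := Real.exp_le_one_iff.2 (by nlinarith [sq_nonneg ‖y - l‖])
      calc ‖II (α j) ε (y - l) n n'‖ ≤ C j * Real.exp (-(c₀ * ‖y - l‖ ^ 2)) * dist n n' := h6
        _ ≤ (1 + ∑ j, C j) * 1 * dist n n' := by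
          refine mul_le_mul_of_nonneg_right ?_ dist_nonneg
          exact mul_le_mul h7 h8 (Real.exp_nonneg _) (by linarith)
        _ = _ := by ring
    have h6 : Real.exp (wt W (y - l) - wt W y) ≤ Real.exp M * Real.exp (-wt W y) := by
      rw [← Real.exp_add]
      exact Real.exp_le_exp.2 (by linarith [hM (y - l) h2])
    calc Real.exp (wt W (y - l) - wt W y) * ‖II (α j) ε (y - l) n n'‖ ≤ (Real.exp M * Real.exp (-wt W y)) * ((1 + ∑ j, C j) * dist n n') :=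
          mul_le_mul h6 h5 (norm_nonneg _) (by positivity)
      _ = _ := by ring
  · obtain ⟨ε, ε₀, -, -, hc⟩ := exists_cst G hδ one_pos
    obtain ⟨ε₁, c, hε₁, hle, hc0, hb⟩ := Pool.Agent.G3.A.jn G h.sep hc R
    refine ⟨ε₁, c, hε₁, hc0, fun y hy n hn n' hn' hd => ?_⟩
    obtain ⟨l, hl, h1, h2, h3, h4⟩ := key hc y hy
    obtain ⟨j, hj⟩ := hb (y - l) h1 h2 n (by rw [h3]; exact hn) n' (by rw [h3]; exact hn') hd
    refine ⟨j, ?_⟩
    rw [h4 j n hn n' hn' (hd.trans hle)]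
    have h6 : Real.exp (-wt W y) ≤ Real.exp (wt W (y - l) - wt W y) := Real.exp_le_exp.2 (by linarith [wt_nonneg W (y - l)])
    calc c * Real.exp (-wt W y) * dist n n' = Real.exp (-wt W y) * (c * dist n n') := by ring
      _ ≤ _ := mul_le_mul h6 hj (by positivity) (Real.exp_nonneg _)

/-- the weighted bounds imply the bounds of `G3` -/
theorem JBw.jbd {J r : ℕ} {W : Fin r → Vd (k + 1) →L[ℂ] ℂ} {α : Fin J → VForm X Λ u} (h : JBw X Λ u D α W) : ∃ c₀ : ℝ, Pool.Agent.G3.JBd X Λ u D α c₀ := by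
  obtain ⟨c₀, hc₀, hwt⟩ := wt_ge h.pos
  refine ⟨c₀, hc₀, fun δ hδ => ?_, fun δ R hδ => ?_⟩
  · obtain ⟨ε₀, C, h1, h2, h3⟩ := h.ub δ hδ
    refine ⟨ε₀, C, h1, h2, fun j y hy n hn n' hn' hd => (h3 j y hy n hn n' hn' hd).trans ?_⟩
    refine mul_le_mul_of_nonneg_right (mul_le_mul_of_nonneg_left (Real.exp_le_exp.2 ?_) h2.le) dist_nonneg
    linarith [hwt y]
  · obtain ⟨ε₀, c, h1, h2, h3⟩ := h.lb δ hδ
    obtain ⟨M, hM0, hM⟩ := wt_le W R
    refine ⟨ε₀, c * Real.exp (-M), h1, by positivity, fun y hy hyR n hn n' hn' hd => ?_⟩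
    obtain ⟨j, hj⟩ := h3 y hy n hn n' hn' hd
    refine ⟨j, le_trans ?_ hj⟩
    exact mul_le_mul_of_nonneg_right (mul_le_mul_of_nonneg_left (Real.exp_le_exp.2 (by linarith [hM y hyR])) h2.le) dist_nonneg

end Pool.Agent.G4

end
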