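import Pool.Agent.H94.G5T.M114
import Pool.Agent.H94.G5T.M115
import Pool.Agent.H94.G5T.M40
import Pool.Agent.H94.G5T.M50
import Pool.Agent.H94.G5T.M92

/-! The parts of this file: H62.FC.Cartan, H62.FC.Dichotomy, H62.FC.PicardBrody. -/

section

/-!
# Cartan's theorem at a puncture, for functions with orders divisible by `d`
-/

noncomputable section

namespace Pool.Agent.H62.FC

open Filter Topology MeasureTheory
open Pool.Agent.H92.GGL (ordZ)

/-! ### Determinants -/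

private theorem posLog_prod_perm {n : ℕ} (A : Matrix (Fin n) (Fin n) ℂ) (B : Fin n → Fin n → ℝ)
    (hB : ∀ i j, Real.posLog ‖A i j‖ ≤ B i j) (σ : Equiv.Perm (Fin n)) :
    Real.posLog ‖Equiv.Perm.sign σ • ∏ i, A (σ i) i‖ ≤ ∑ i, ∑ j, B i j := by
  have h1 : ‖Equiv.Perm.sign σ • ∏ i, A (σ i) i‖ = ∏ i, ‖A (σ i) i‖ := by
    rcases Int.units_eq_one_or (Equiv.Perm.sign σ) with h | h
    · rw [h, one_smul, norm_prod]
    · rw [h, Units.neg_smul, one_smul, norm_neg, norm_prod]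
  rw [h1, Finset.sum_comm]
  refine (Real.posLog_prod _ _).trans (Finset.sum_le_sum fun i _ => ?_)
  refine (hB (σ i) i).trans (Finset.single_le_sum (f := fun k => B k i) (fun k _ => ?_)
    (Finset.mem_univ (σ i)))
  exact Real.posLog_nonneg.trans (hB k i)

private theorem posLog_det_le {n : ℕ} (A : Matrix (Fin n) (Fin n) ℂ) (B : Fin n → Fin n → ℝ)
    (hB : ∀ i j, Real.posLog ‖A i j‖ ≤ B i j) :
    Real.posLog ‖A.det‖ ≤ Real.log n.factorial + (n.factorial : ℝ) * ∑ i, ∑ j, B i j := by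
  rw [Matrix.det_apply]
  refine (Real.posLog_norm_sum_le _ _).trans ?_
  have hcard : (Finset.univ : Finset (Equiv.Perm (Fin n))).card = n.factorial := by
    rw [Finset.card_univ, Fintype.card_perm, Fintype.card_fin]
  rw [hcard]
  have h2 : ∑ σ : Equiv.Perm (Fin n), Real.posLog ‖Equiv.Perm.sign σ • ∏ i, A (σ i) i‖ ≤
      ∑ _σ : Equiv.Perm (Fin n), ∑ i, ∑ j, B i j :=
    Finset.sum_le_sum fun σ _ => posLog_prod_perm A B hB σ
  rw [Finset.sum_const, hcard, nsmul_eq_mul] at h2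
  linarith

/-- The sum of the logarithmic derivatives. -/
def Cartan_Q {n : ℕ} (u : Fin n → ℂ → ℂ) (z : ℂ) : ℝ :=
  ∑ i : Fin n, ∑ j : Fin n, Real.posLog ‖iteratedDeriv i (u j) z / u j z‖

private theorem det_star {n : ℕ} {u : Fin n → ℂ → ℂ} {z : ℂ} (h0 : ∀ j, u j z ≠ 0) :
    wronsk u z = (∏ j, u j z) *
      (Matrix.of fun i j : Fin n => iteratedDeriv i (u j) z / u j z).det := by
  rw [← Matrix.det_mul_row]
  unfold wronsk
  congr 1
  ext i j
  simp only [Matrix.of_apply]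
  rw [mul_div_cancel₀ _ (h0 j)]

private theorem det_col {n : ℕ} {u : Fin n → ℂ → ℂ} {z : ℂ} (h0 : ∀ j, u j z ≠ 0)
    (hs : ∀ i : Fin n, ∑ j, iteratedDeriv i (u j) z = if (i : ℕ) = 0 then -1 else 0)
    (j₀ : Fin n) :
    wronsk u z = (∏ j, if j = j₀ then 1 else u j z) *
      (Matrix.of fun i j : Fin n => if j = j₀ then (if (i : ℕ) = 0 then (-1 : ℂ) else 0) else
        iteratedDeriv i (u j) z / u j z).det := by
  rw [← Matrix.det_mul_row]
  unfold wronsk
  have h1 := Matrix.det_updateCol_sum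
    (Matrix.of fun i j : Fin n => iteratedDeriv i (u j) z) j₀ (fun _ => 1)
  rw [one_smul] at h1
  rw [← h1]
  congr 1
  ext i j
  by_cases hj : j = j₀
  · subst hj
    rw [Matrix.updateCol_self]
    simp only [Matrix.of_apply, one_smul, if_true, one_mul]
    exact hs i
  · rw [Matrix.updateCol_ne hj]
    simp only [Matrix.of_apply, if_neg hj]
    rw [mul_div_cancel₀ _ (h0 j)]

private theorem pointwise {n : ℕ} {u : Fin n → ℂ → ℂ} {z : ℂ} (h0 : ∀ j, u j z ≠ 0)
    (hW : wronsk u z ≠ 0)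
    (hs : ∀ i : Fin n, ∑ j, iteratedDeriv i (u j) z = if (i : ℕ) = 0 then -1 else 0)
    (j₀ : Fin n) :
    Real.posLog ‖u j₀ z‖ ≤ (∑ j, Real.log ‖u j z‖) - Real.log ‖wronsk u z‖ +
      (Real.log n.factorial + (n.factorial : ℝ) * Cartan_Q u z) := by
  have hlogu : ∀ j, ‖u j z‖ ≠ 0 := fun j => norm_ne_zero_iff.2 (h0 j)
  rw [Real.posLog_apply]
  refine max_le ?_ ?_
  · have h1 := det_star h0
    have hD : (Matrix.of fun i j : Fin n => iteratedDeriv i (u j) z / u j z).det ≠ 0 := by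
      intro h
      rw [h, mul_zero] at h1
      exact hW h1
    have h2 : Real.log ‖wronsk u z‖ = (∑ j, Real.log ‖u j z‖) +
        Real.log ‖(Matrix.of fun i j : Fin n => iteratedDeriv i (u j) z / u j z).det‖ := by
      rw [h1, norm_mul, norm_prod, Real.log_mul (Finset.prod_ne_zero_iff.2 fun j _ => hlogu j)
        (norm_ne_zero_iff.2 hD), Real.log_prod fun j _ => hlogu j]
    have h3 := posLog_det_le (Matrix.of fun i j : Fin n => iteratedDeriv i (u j) z / u j z)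
      (fun i j => Real.posLog ‖iteratedDeriv i (u j) z / u j z‖) (fun i j => le_rfl)
    have h4 : Real.log ‖(Matrix.of fun i j : Fin n => iteratedDeriv i (u j) z / u j z).det‖ ≤
        Real.posLog ‖(Matrix.of fun i j : Fin n => iteratedDeriv i (u j) z / u j z).det‖ :=
      le_max_right _ _
    unfold Cartan_Q
    linarith
  · have h1 := det_col h0 hs j₀
    set N := (Matrix.of fun i j : Fin n => if j = j₀ then (if (i : ℕ) = 0 then (-1 : ℂ) else 0)
      else iteratedDeriv i (u j) z / u j z) with hN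
    have hD : N.det ≠ 0 := by
      intro h
      rw [h, mul_zero] at h1
      exact hW h1
    have hne : ∀ j ∈ (Finset.univ : Finset (Fin n)),
        ‖(if j = j₀ then (1 : ℂ) else u j z)‖ ≠ 0 := by
      intro j _
      split_ifs
      · simp
      · exact hlogu j
    have h5 : ∑ j, Real.log ‖(if j = j₀ then (1 : ℂ) else u j z)‖ =
        (∑ j, Real.log ‖u j z‖) - Real.log ‖u j₀ z‖ := by
      rw [← Finset.add_sum_erase _ _ (Finset.mem_univ j₀),
        ← Finset.add_sum_erase _ (fun j => Real.log ‖u j z‖) (Finset.mem_univ j₀)]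
      rw [if_pos rfl, norm_one, Real.log_one, zero_add, add_sub_cancel_left]
      refine Finset.sum_congr rfl fun j hj => ?_
      rw [if_neg (Finset.ne_of_mem_erase hj)]
    have h2 : Real.log ‖wronsk u z‖ = (∑ j, Real.log ‖u j z‖) - Real.log ‖u j₀ z‖ +
        Real.log ‖N.det‖ := by
      rw [h1, norm_mul, norm_prod, Real.log_mul (Finset.prod_ne_zero_iff.2 hne)
        (norm_ne_zero_iff.2 hD), Real.log_prod hne, h5]
    have h3 := posLog_det_le N
      (fun i j => Real.posLog ‖iteratedDeriv i (u j) z / u j z‖) (by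
        intro i j
        rw [hN, Matrix.of_apply]
        split_ifs
        · rw [norm_neg, norm_one, Real.posLog_one]
          exact Real.posLog_nonneg
        · rw [norm_zero, Real.posLog_zero]
          exact Real.posLog_nonneg
        · exact le_rfl)
    have h4 : Real.log ‖N.det‖ ≤ Real.posLog ‖N.det‖ := le_max_right _ _
    unfold Cartan_Q
    linarith

/-! ### Means -/

private theorem circleIntegrable_sup {f g : ℂ → ℝ} {c : ℂ} {R : ℝ} (hf : CircleIntegrable f c R)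
    (hg : CircleIntegrable g c R) : CircleIntegrable (f ⊔ g) c R := by
  have h : f ⊔ g = (1 / 2 : ℝ) • (f + g + |g - f|) := by
    funext z
    simp only [Pi.sup_apply, Pi.smul_apply, Pi.add_apply, Pi.abs_apply, Pi.sub_apply, smul_eq_mul]
    rw [max_def]
    split_ifs with h1
    · rw [abs_of_nonneg (by linarith)]
      ring
    · rw [abs_of_nonpos (by linarith)]
      ring
  rw [h]
  exact ((hf.add hg).add (hg.sub hf).abs).const_smul

private theorem mean_mono {f g : ℂ → ℝ} {x : ℝ} (hf : CircleIntegrable f 0 (Real.exp (-x)))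
    (hg : CircleIntegrable g 0 (Real.exp (-x)))
    (h : ∀ z ∈ Metric.sphere (0 : ℂ) |Real.exp (-x)|, ∀ᶠ ζ in 𝓝[≠] z, f ζ ≤ g ζ) :
    mean f x ≤ mean g x := by
  have h1 : g =ᶠ[codiscreteWithin (Metric.sphere (0 : ℂ) |Real.exp (-x)|)]
      fun z => max (f z) (g z) := by
    rw [Filter.EventuallyEq, Filter.Eventually, mem_codiscreteWithin_iff_forall_mem_nhdsNE]
    intro z hz
    filter_upwards [h z hz] with ζ hζ
    left
    show g ζ = max (f ζ) (g ζ)
    rw [max_eq_right hζ]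
  have h2 : mean g x = mean (fun z => max (f z) (g z)) x :=
    Real.circleAverage_congr_codiscreteWithin h1 (Real.exp_ne_zero _)
  rw [h2]
  exact Real.circleAverage_mono hf (CircleIntegrable.congr_codiscreteWithin h1 hg)
    fun z _ => le_max_left _ _

/-! ### Generic points -/

private theorem generic {n : ℕ} {R₀ : ℝ} {u : Fin n → ℂ → ℂ} (hu : ∀ j, MeroPunct R₀ (u j))
    (hW : MeroPunct R₀ (wronsk u))
    (hrel : ∀ z, 0 < ‖z‖ → ‖z‖ < R₀ → ∀ᶠ ζ in 𝓝[≠] z, ∑ j, u j ζ = -1) {z : ℂ}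
    (h0 : 0 < ‖z‖) (hz : ‖z‖ < R₀) (j₀ : Fin n) :
    ∀ᶠ ζ in 𝓝[≠] z, Real.posLog ‖u j₀ ζ‖ ≤
      (∑ j, Real.log ‖u j ζ‖) - Real.log ‖wronsk u ζ‖ +
        (Real.log n.factorial + (n.factorial : ℝ) * Cartan_Q u ζ) := by
  have h1 : ∀ᶠ ζ in 𝓝[≠] z, ∀ j, u j ζ ≠ 0 :=
    Filter.eventually_all.2 fun j =>
      (meromorphicOrderAt_ne_top_iff_eventually_ne_zero ((hu j).mero z h0 hz)).1
        ((hu j).ord z h0 hz)
  have h2 : ∀ᶠ ζ in 𝓝[≠] z, wronsk u ζ ≠ 0 :=
    (meromorphicOrderAt_ne_top_iff_eventually_ne_zero (hW.mero z h0 hz)).1 (hW.ord z h0 hz)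
  have h3 : ∀ᶠ ζ in 𝓝[≠] z, ∀ j, AnalyticAt ℂ (u j) ζ :=
    Filter.eventually_all.2 fun j => ((hu j).mero z h0 hz).eventually_analyticAt
  have h4 : ∀ᶠ ζ in 𝓝[≠] z, ∀ᶠ y in 𝓝 ζ, ∑ j, u j y = -1 := by
    have := eventually_eventually_nhdsWithin.2 (hrel z h0 hz)
    filter_upwards [this, self_mem_nhdsWithin] with ζ hζ hne
    rwa [IsOpen.nhdsWithin_eq isOpen_compl_singleton hne] at hζ
  filter_upwards [h1, h2, h3, h4] with ζ a1 a2 a3 a4
  refine pointwise a1 a2 (fun i => ?_) j₀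
  have e : iteratedDeriv i (fun y => ∑ j, u j y) ζ = ∑ j, iteratedDeriv i (u j) ζ :=
    iteratedDeriv_fun_sum fun j _ => (a3 j).contDiffAt
  rw [← e]
  have h5 : (fun y => ∑ j, u j y) =ᶠ[𝓝 ζ] fun _ => -1 := a4
  rw [(h5.iteratedDeriv i).eq_of_nhds, iteratedDeriv_const]

/-! ### Counting functions -/

private theorem exists_T {ι : Type*} [Finite ι] {R₀ R₁ : ℝ} (h : R₁ < R₀) {w : ι → ℂ → ℝ}
    (hw : ∀ i, LocFin R₀ (w i)) {r : ℝ} (hr : 0 < r) :
    ∃ (T : Finset ℂ) (l : ℂ → ℝ), (∀ s ∈ T, r < ‖s‖ ∧ ‖s‖ < R₁ ∧ 0 ≤ l s) ∧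
      ∀ w' : ℂ → ℝ, (∀ s, (∀ i, w i s = 0) → w' s = 0) →
        cnt w' R₁ r = ∑ s ∈ T, w' s * l s := by
  classical
  have hfin : (⋃ i, {s : ℂ | r ≤ ‖s‖ ∧ ‖s‖ ≤ R₁ ∧ w i s ≠ 0}).Finite :=
    Set.finite_iUnion fun i => hw i r R₁ hr h
  refine ⟨hfin.toFinset.filter fun s => r < ‖s‖ ∧ ‖s‖ < R₁, fun s => Real.log (‖s‖ / r),
    fun s hs => ?_, fun w' hw' => ?_⟩
  · rw [Finset.mem_filter] at hs
    refine ⟨hs.2.1, hs.2.2, Real.log_nonneg ?_⟩
    rw [le_div_iff₀ hr, one_mul]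
    exact hs.2.1.le
  · refine cnt_eq_sum (fun s h1 h2 h3 => ?_) hr
    rw [Set.Finite.mem_toFinset, Set.mem_iUnion]
    by_contra hcon
    refine h3 (hw' s fun i => ?_)
    by_contra hi
    exact hcon ⟨i, h1.le, h2.le, hi⟩

private theorem linear_bound (A B x : ℝ) : |A + B * x| ≤ (|A| + |B|) * (1 + |x|) := by
  have h1 : |A + B * x| ≤ |A| + |B| * |x| := by
    rw [← abs_mul]
    exact abs_add_le A (B * x)
  have h2 : 0 ≤ |A| * |x| := mul_nonneg (abs_nonneg A) (abs_nonneg x)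
  have h3 : (|A| + |B|) * (1 + |x|) = |A| + |B| * |x| + (|B| + |A| * |x|) := by ring
  rw [h3]
  linarith [abs_nonneg B]

/-- Cartan's theorem at a puncture, for functions with orders divisible by `d`. -/
theorem cartan_punctMero {n d : ℕ} (hn : 2 ≤ n) (hd : (n + 1) * (n - 1) < d) {R₀ : ℝ}
    (hR₀ : 0 < R₀) {u : Fin n → ℂ → ℂ} (hu : ∀ j, MeroPunct R₀ (u j))
    (hrel : ∀ z, 0 < ‖z‖ → ‖z‖ < R₀ → ∀ᶠ ζ in 𝓝[≠] z, ∑ j, u j ζ = -1)
    (hind : ∀ (c : Fin n → ℂ) (z : ℂ), 0 < ‖z‖ → ‖z‖ < R₀ →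
      (∀ᶠ ζ in 𝓝[≠] z, ∑ j, c j * u j ζ = 0) → c = 0)
    (hdiv : ∀ j z, 0 < ‖z‖ → ‖z‖ < R₀ → (d : ℤ) ∣ ordZ (u j) z) (j : Fin n) :
    PunctMero (u j) := by
  classical
  have : Nonempty (Fin n) := ⟨⟨0, by omega⟩⟩
  obtain ⟨R₁, hR₁⟩ : ∃ R₁, R₁ = R₀ / 2 := ⟨_, rfl⟩
  have h1 : 0 < R₁ := by rw [hR₁]; linarith
  have h12 : R₁ < R₀ := by rw [hR₁]; linarith
  have hW : MeroPunct R₀ (wronsk u) := wronsk_meroPunct hu hind
  -- numbers
  obtain ⟨n', rfl⟩ : ∃ n', n = n' + 1 := ⟨n - 1, by omega⟩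
  rw [Nat.add_sub_cancel] at hd
  have hd0 : 0 < d := by omega
  have hdR : (0 : ℝ) < d := by exact_mod_cast hd0
  have hnd : n' + 1 ≤ d := by
    have := Nat.mul_le_mul_left (n' + 1 + 1) (show 1 ≤ n' by omega)
    omega
  have hdR' : (((n' : ℝ) + 1 + 1) * n') < d := by exact_mod_cast hd
  set κ : ℝ := (n' : ℝ) * (n' + 2) / d with hκ
  have hκ1 : κ < 1 := by
    rw [hκ, div_lt_one hdR]
    linarith
  have hκd : κ * d = (n' : ℝ) * (n' + 2) := by
    rw [hκ]
    field_simp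
  -- the minimum of the orders
  obtain ⟨μ, hμ0, hμj, hμ'⟩ : ∃ μ : ℂ → ℤ, (∀ s, μ s ≤ 0) ∧ (∀ s j, μ s ≤ ordZ (u j) s) ∧
      ∀ s, μ s = 0 ∨ ∃ j, ordZ (u j) s = μ s := by
    refine ⟨fun s => Finset.univ.inf' Finset.univ_nonempty
      (fun o : Option (Fin (n' + 1)) => o.elim 0 (fun j => ordZ (u j) s)),
      fun s => Finset.inf'_le _ (Finset.mem_univ none),
      fun s j => Finset.inf'_le _ (Finset.mem_univ (some j)), fun s => ?_⟩
    obtain ⟨o, -, ho⟩ := Finset.exists_mem_eq_inf' Finset.univ_nonempty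
      (fun o : Option (Fin (n' + 1)) => o.elim 0 (fun j => ordZ (u j) s))
    cases o with
    | none => exact Or.inl ho
    | some j => exact Or.inr ⟨j, ho.symm⟩
  -- the characteristic function
  obtain ⟨G, hG⟩ : ∃ G : ℂ → ℝ, ∀ z, G z =
      Finset.univ.sup' Finset.univ_nonempty (fun j => Real.posLog ‖u j z‖) := ⟨_, fun z => rfl⟩
  have hGj : ∀ z j, Real.posLog ‖u j z‖ ≤ G z := by
    intro z j
    rw [hG]
    exact Finset.le_sup' (fun j => Real.posLog ‖u j z‖) (Finset.mem_univ j)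
  have hG0 : ∀ z, 0 ≤ G z := fun z => Real.posLog_nonneg.trans (hGj z (Classical.arbitrary _))
  -- weights
  have hLoc : ∀ o : Option (Fin (n' + 1)), LocFin R₀
      (fun s => (ordZ (o.elim (wronsk u) u) s : ℝ)) := by
    intro o
    cases o with
    | none => exact MeroPunct.locFin hW
    | some j => exact MeroPunct.locFin (hu j)
  -- constants
  choose A B hAB using fun j => MeroPunct.jensen (hu j) h1 h12
  obtain ⟨A', B', hAB'⟩ := MeroPunct.jensen hW h1 h12
  obtain ⟨K, hK⟩ : ∃ K : ℝ, K = ((n' + 1).factorial : ℝ) := ⟨_, rfl⟩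
  have hK0 : 0 < K := by
    rw [hK]
    exact_mod_cast Nat.factorial_pos _
  obtain ⟨L, hL⟩ : ∃ L : ℝ, L = Real.log ((n' + 1).factorial : ℝ) := ⟨_, rfl⟩
  have hL0 : 0 ≤ L := by
    rw [hL]
    exact Real.log_nonneg (by exact_mod_cast Nat.factorial_pos _)
  have hn1 : (0 : ℝ) < (n' : ℝ) + 1 := by positivity
  have hε : 0 < (1 - κ) / 2 / (K * ((n' + 1) * (n' + 1))) := by
    have : 0 < 1 - κ := by linarith
    positivity
  choose Cq E hE hq using fun i j : Fin (n' + 1) =>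
    MeroPunct.iteratedDeriv_negl h1 h12 (hu j) (i : ℕ) _ hε
  -- the exceptional set
  have hE' : volume (⋃ p : Fin (n' + 1) × Fin (n' + 1), E p.1 p.2) ≠ ⊤ := by
    refine ((measure_iUnion_fintype_le volume _).trans_lt ?_).ne
    exact ENNReal.sum_lt_top.2 fun p _ => lt_top_iff_ne_top.2 (hE p.1 p.2)
  obtain ⟨C₀, hC₀⟩ : ∃ C₀ : ℝ, C₀ = (∑ j, (|A j| + |B j|)) + (|A'| + |B'|) + L +
    K * (∑ i, ∑ j, |Cq i j|) + (n' : ℝ) / d * ∑ j, (|A j| + |B j|) := ⟨_, rfl⟩
  refine punctMero_of_nevT h1 h12 (hu j) (C := 2 / (1 - κ) * C₀) hE' fun x hx hxE => ?_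
  have hxR₀ : Real.exp (-x) < R₀ := hx.trans h12
  have hr : 0 < Real.exp (-x) := Real.exp_pos _
  have hxE' : ∀ i j, x ∉ E i j := fun i j hcon => hxE (Set.mem_iUnion.2 ⟨(i, j), hcon⟩)
  have hsph : ∀ z ∈ Metric.sphere (0 : ℂ) |Real.exp (-x)|, 0 < ‖z‖ ∧ ‖z‖ < R₀ := by
    intro z hz
    rw [mem_sphere_zero_iff_norm, abs_of_pos hr] at hz
    rw [hz]
    exact ⟨hr, hxR₀⟩
  -- integrability
  have hIG : CircleIntegrable G 0 (Real.exp (-x)) := by
    have h := Finset.sup'_induction (Finset.univ_nonempty (α := Fin (n' + 1)))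
      (fun j => fun z => Real.posLog ‖u j z‖)
      (p := fun f : ℂ → ℝ => CircleIntegrable f 0 (Real.exp (-x)))
      (fun f hf g hg => circleIntegrable_sup hf hg)
      (fun j _ => MeroPunct.circleIntegrable_posLog (hu j) hxR₀)
    have e : G = Finset.univ.sup' (Finset.univ_nonempty (α := Fin (n' + 1)))
        (fun j => fun z => Real.posLog ‖u j z‖) := by
      funext z
      rw [hG, Finset.sup'_apply]
    rw [e]
    exact h
  have hIlog : ∀ j, CircleIntegrable (fun z => Real.log ‖u j z‖) 0 (Real.exp (-x)) :=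
    fun j => MeroPunct.circleIntegrable_log (hu j) hxR₀
  have hIW : CircleIntegrable (fun z => Real.log ‖wronsk u z‖) 0 (Real.exp (-x)) :=
    MeroPunct.circleIntegrable_log hW hxR₀
  have hIq : ∀ i j : Fin (n' + 1), CircleIntegrable
      (fun z => Real.posLog ‖iteratedDeriv i (u j) z / u j z‖) 0 (Real.exp (-x)) := by
    intro i j
    apply MeromorphicOn.circleIntegrable_posLog_norm
    intro z hz
    obtain ⟨hz1, hz2⟩ := hsph z hz
    have hm := (hu j).mero z hz1 hz2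
    rw [iteratedDeriv_eq_iterate]
    exact hm.iterated_deriv.fun_div hm
  have hIQ : CircleIntegrable (Cartan_Q u) 0 (Real.exp (-x)) := by
    have e : Cartan_Q u = ∑ i : Fin (n' + 1), ∑ j : Fin (n' + 1),
        fun z => Real.posLog ‖iteratedDeriv i (u j) z / u j z‖ := by
      funext z
      unfold Cartan_Q
      simp only [Finset.sum_apply]
    rw [e]
    exact CircleIntegrable.sum _ fun i _ => CircleIntegrable.sum _ fun j _ => hIq i j
  have hISum : CircleIntegrable (fun z => ∑ j, Real.log ‖u j z‖) 0 (Real.exp (-x)) := by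
    have e : (fun z => ∑ j, Real.log ‖u j z‖) = ∑ j, fun z => Real.log ‖u j z‖ := by
      funext z
      simp only [Finset.sum_apply]
    rw [e]
    exact CircleIntegrable.sum _ fun j _ => hIlog j
  have hISW : CircleIntegrable (fun z => (∑ j, Real.log ‖u j z‖) - Real.log ‖wronsk u z‖) 0
      (Real.exp (-x)) := hISum.sub hIW
  have hIKQ : CircleIntegrable (fun z => K * Cartan_Q u z) 0 (Real.exp (-x)) :=
    hIQ.const_smul (a := K)
  have hILK : CircleIntegrable (fun z => L + K * Cartan_Q u z) 0 (Real.exp (-x)) :=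
    (circleIntegrable_const L 0 _).add hIKQ
  have hIR : CircleIntegrable (fun z => (∑ j, Real.log ‖u j z‖) - Real.log ‖wronsk u z‖ +
      (L + K * Cartan_Q u z)) 0 (Real.exp (-x)) := hISW.add hILK
  -- the mean of `G`
  have hmG : mean G x ≤ (∑ j, mean (fun z => Real.log ‖u j z‖) x) -
      mean (fun z => Real.log ‖wronsk u z‖) x +
      (L + K * ∑ i : Fin (n' + 1), ∑ j : Fin (n' + 1),
        mean (fun z => Real.posLog ‖iteratedDeriv i (u j) z / u j z‖) x) := by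
    have h := mean_mono (x := x) hIG hIR (fun z hz => by
      obtain ⟨hz1, hz2⟩ := hsph z hz
      have := Filter.eventually_all.2 fun j => generic hu hW hrel hz1 hz2 j
      filter_upwards [this] with ζ hζ
      rw [hG, hL, hK]
      exact Finset.sup'_le _ _ fun j _ => hζ j)
    refine h.trans (le_of_eq ?_)
    unfold mean
    rw [Real.circleAverage_fun_add hISW hILK,
      Real.circleAverage_fun_sub hISum hIW, Real.circleAverage_fun_sum fun j _ => hIlog j,
      Real.circleAverage_fun_add (circleIntegrable_const L 0 _) hIKQ,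
      Real.circleAverage_const]
    congr 2
    have e2 : Real.circleAverage (fun z => K * Cartan_Q u z) 0 (Real.exp (-x)) =
        K * Real.circleAverage (Cartan_Q u) 0 (Real.exp (-x)) :=
      Real.circleAverage_fun_smul (a := K)
    rw [e2]
    congr 1
    unfold Cartan_Q
    rw [Real.circleAverage_fun_sum (fun i _ => ?_)]
    · refine Finset.sum_congr rfl fun i _ => ?_
      exact Real.circleAverage_fun_sum fun j _ => hIq i j
    · have e : (fun z => ∑ j : Fin (n' + 1), Real.posLog ‖iteratedDeriv i (u j) z / u j z‖) =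
          ∑ j : Fin (n' + 1), fun z => Real.posLog ‖iteratedDeriv i (u j) z / u j z‖ := by
        funext z
        simp only [Finset.sum_apply]
      rw [e]
      exact CircleIntegrable.sum _ fun j _ => hIq i j
  have hlogG : ∀ j, mean (fun z => Real.log ‖u j z‖) x ≤ mean G x := fun j =>
    Real.circleAverage_mono (hIlog j) hIG fun z _ => (le_max_right _ _).trans (hGj z j)
  have hposG : ∀ j, mean (fun z => Real.posLog ‖u j z‖) x ≤ mean G x := fun j =>
    Real.circleAverage_mono (MeroPunct.circleIntegrable_posLog (hu j) hxR₀) hIG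
      fun z _ => hGj z j
  have hmG0 : 0 ≤ mean G x := Real.circleAverage_nonneg_of_nonneg fun z _ => hG0 z
  -- the counting functions
  obtain ⟨T, l, hT, hcnt⟩ := exists_T h12 hLoc hr
  have hμz : ∀ s, (∀ o : Option (Fin (n' + 1)), (ordZ (o.elim (wronsk u) u) s : ℝ) = 0) →
      μ s = 0 := by
    intro s hs
    rcases hμ' s with h | ⟨j, h⟩
    · exact h
    · rw [← h]
      exact_mod_cast hs (some j)
  have c1 : ∀ j, cnt (fun s => (ordZ (u j) s : ℝ)) R₁ (Real.exp (-x)) =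
      ∑ s ∈ T, (ordZ (u j) s : ℝ) * l s := fun j => hcnt _ fun s hs => hs (some j)
  have c2 : cnt (fun s => (ordZ (wronsk u) s : ℝ)) R₁ (Real.exp (-x)) =
      ∑ s ∈ T, (ordZ (wronsk u) s : ℝ) * l s := hcnt _ fun s hs => hs none
  have c3 : cnt (fun s => -(μ s : ℝ)) R₁ (Real.exp (-x)) = ∑ s ∈ T, -(μ s : ℝ) * l s :=
    hcnt _ fun s hs => by rw [hμz s hs]; simp
  have c4 : ∀ j, cnt (fun s => max (-(ordZ (u j) s : ℝ)) 0) R₁ (Real.exp (-x)) =
      ∑ s ∈ T, max (-(ordZ (u j) s : ℝ)) 0 * l s := fun j => hcnt _ fun s hs => by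
    have h := hs (some j)
    have h' : (ordZ (u j) s : ℝ) = 0 := h
    rw [h']
    simp
  set cμ : ℝ := ∑ s ∈ T, -(μ s : ℝ) * l s with hcμ
  have hcμ0 : 0 ≤ cμ := by
    refine Finset.sum_nonneg fun s hs => mul_nonneg ?_ (hT s hs).2.2
    have := hμ0 s
    have h' : (μ s : ℝ) ≤ 0 := by exact_mod_cast this
    linarith
  have hnev : ∀ j, nevT (u j) R₁ x ≤ mean G x + cμ := by
    intro j
    unfold nevT
    rw [c4]
    refine add_le_add (hposG j) (Finset.sum_le_sum fun s hs => ?_)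
    refine mul_le_mul_of_nonneg_right (max_le ?_ ?_) (hT s hs).2.2
    · have h' : (μ s : ℝ) ≤ ordZ (u j) s := by exact_mod_cast hμj s j
      linarith
    · have h' : (μ s : ℝ) ≤ 0 := by exact_mod_cast hμ0 s
      linarith
  have hloc : (d : ℝ) * ((∑ j, cnt (fun s => (ordZ (u j) s : ℝ)) R₁ (Real.exp (-x))) -
      cnt (fun s => (ordZ (wronsk u) s : ℝ)) R₁ (Real.exp (-x)) + cμ) ≤
      (n' : ℝ) * ((∑ j, (cnt (fun s => (ordZ (u j) s : ℝ)) R₁ (Real.exp (-x)) + cμ)) + cμ) := by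
    have e1 : (∑ j, cnt (fun s => (ordZ (u j) s : ℝ)) R₁ (Real.exp (-x))) -
        cnt (fun s => (ordZ (wronsk u) s : ℝ)) R₁ (Real.exp (-x)) + cμ =
        ∑ s ∈ T, ((∑ j, (ordZ (u j) s : ℝ)) - ordZ (wronsk u) s - μ s) * l s := by
      simp only [c1]
      rw [c2, hcμ, Finset.sum_comm, ← Finset.sum_sub_distrib, ← Finset.sum_add_distrib]
      refine Finset.sum_congr rfl fun s _ => ?_
      rw [← Finset.sum_mul]
      ring
    have e2 : (∑ j, (cnt (fun s => (ordZ (u j) s : ℝ)) R₁ (Real.exp (-x)) + cμ)) + cμ =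
        ∑ s ∈ T, ((∑ j, ((ordZ (u j) s : ℝ) - μ s)) + (0 - μ s)) * l s := by
      simp only [c1]
      rw [hcμ]
      have e3 : ∀ j, (∑ s ∈ T, (ordZ (u j) s : ℝ) * l s) + ∑ s ∈ T, -(μ s : ℝ) * l s =
          ∑ s ∈ T, ((ordZ (u j) s : ℝ) - μ s) * l s := by
        intro j
        rw [← Finset.sum_add_distrib]
        refine Finset.sum_congr rfl fun s _ => ?_
        ring
      rw [Finset.sum_congr rfl fun j _ => e3 j, Finset.sum_comm, ← Finset.sum_add_distrib]
      refine Finset.sum_congr rfl fun s _ => ?_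
      rw [← Finset.sum_mul]
      ring
    rw [e1, e2, Finset.mul_sum, Finset.mul_sum]
    refine Finset.sum_le_sum fun s hs => ?_
    obtain ⟨hs1, hs2, hs3⟩ := hT s hs
    have hs4 : 0 < ‖s‖ := hr.trans hs1
    have hs5 : ‖s‖ < R₀ := hs2.trans h12
    have h := local_estimate (n := n' + 1) (d := d) (by omega) hnd (s := s) (u := u)
      (fun j => (hu j).mero s hs4 hs5) (fun j => (hu j).ord s hs4 hs5) (hrel s hs4 hs5)
      (hW.ord s hs4 hs5) (fun j => hdiv j s hs4 hs5) (hμ0 s) (hμj s) (hμ' s)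
    have h' : (d : ℝ) * ((∑ j, (ordZ (u j) s : ℝ)) - ordZ (wronsk u) s - μ s) ≤
        (n' : ℝ) * ((∑ j, ((ordZ (u j) s : ℝ) - μ s)) + (0 - μ s)) := by
      have e : (((n' + 1 : ℕ) : ℤ) - 1 : ℤ) = n' := by push_cast; ring
      rw [e] at h
      exact_mod_cast h
    rw [← mul_assoc, ← mul_assoc]
    exact mul_le_mul_of_nonneg_right h' hs3
  -- the conclusion
  have hy : 1 ≤ 1 + |x| := by linarith [abs_nonneg x]
  obtain ⟨y, hyd⟩ : ∃ y, y = 1 + |x| := ⟨_, rfl⟩
  rw [← hyd] at hy ⊢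
  obtain ⟨a, ha⟩ : ∃ a, a = ∑ j, (|A j| + |B j|) := ⟨_, rfl⟩
  have hlin : ∀ j, |A j + B j * x| ≤ (|A j| + |B j|) * y := fun j => by
    rw [hyd]
    exact linear_bound _ _ _
  have hlinW : |A' + B' * x| ≤ (|A'| + |B'|) * y := by
    rw [hyd]
    exact linear_bound _ _ _
  have hJ : ∀ j, cnt (fun s => (ordZ (u j) s : ℝ)) R₁ (Real.exp (-x)) =
      mean (fun z => Real.log ‖u j z‖) x - (A j + B j * x) := fun j => by
    have := hAB j x hx
    linarith
  have hJW := hAB' x hx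
  have hsum1 : |∑ j, (A j + B j * x)| ≤ a * y := by
    rw [ha, Finset.sum_mul]
    exact (Finset.abs_sum_le_sum_abs _ _).trans (Finset.sum_le_sum fun j _ => hlin j)
  have hsum2 : (∑ j, (cnt (fun s => (ordZ (u j) s : ℝ)) R₁ (Real.exp (-x)) + cμ)) ≤
      ((n' : ℝ) + 1) * (mean G x + cμ) + a * y := by
    have h2 : ∀ j, cnt (fun s => (ordZ (u j) s : ℝ)) R₁ (Real.exp (-x)) + cμ ≤
        (mean G x + cμ) + (|A j| + |B j|) * y := by
      intro j
      rw [hJ j]
      have := (abs_le.1 (hlin j)).1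
      linarith [hlogG j]
    refine (Finset.sum_le_sum fun j _ => h2 j).trans (le_of_eq ?_)
    rw [Finset.sum_add_distrib, Finset.sum_const, Finset.card_univ, Fintype.card_fin, ha,
      Finset.sum_mul, nsmul_eq_mul]
    push_cast
    ring
  have hq' : K * (∑ i : Fin (n' + 1), ∑ j : Fin (n' + 1),
        mean (fun z => Real.posLog ‖iteratedDeriv i (u j) z / u j z‖) x) ≤
      (1 - κ) / 2 * (mean G x + cμ) + K * (∑ i, ∑ j, |Cq i j|) * y := by
    have h2 : ∀ i j : Fin (n' + 1),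
        mean (fun z => Real.posLog ‖iteratedDeriv i (u j) z / u j z‖) x ≤
        (1 - κ) / 2 / (K * ((n' + 1) * (n' + 1))) * (mean G x + cμ) + |Cq i j| * y := by
      intro i j
      refine (hq i j x hx (hxE' i j)).trans (add_le_add ?_ ?_)
      · exact mul_le_mul_of_nonneg_left (hnev j) hε.le
      · rw [← hyd]
        exact mul_le_mul_of_nonneg_right (le_abs_self _) (by linarith)
    have h3 : (∑ i : Fin (n' + 1), ∑ j : Fin (n' + 1),
        mean (fun z => Real.posLog ‖iteratedDeriv i (u j) z / u j z‖) x) ≤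
        ∑ i : Fin (n' + 1), ∑ j : Fin (n' + 1),
          ((1 - κ) / 2 / (K * ((n' + 1) * (n' + 1))) * (mean G x + cμ) + |Cq i j| * y) :=
      Finset.sum_le_sum fun i _ => Finset.sum_le_sum fun j _ => h2 i j
    refine (mul_le_mul_of_nonneg_left h3 hK0.le).trans (le_of_eq ?_)
    simp only [Finset.sum_add_distrib, Finset.sum_const, Finset.card_univ, Fintype.card_fin,
      nsmul_eq_mul, ← Finset.sum_mul]
    push_cast
    field_simp
  -- final computation
  obtain ⟨t, ht⟩ : ∃ t, t = mean G x + cμ := ⟨_, rfl⟩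
  have ht0 : 0 ≤ t := by rw [ht]; linarith
  have hSc : (∑ j, cnt (fun s => (ordZ (u j) s : ℝ)) R₁ (Real.exp (-x))) =
      (∑ j, mean (fun z => Real.log ‖u j z‖) x) - ∑ j, (A j + B j * x) := by
    rw [← Finset.sum_sub_distrib]
    exact Finset.sum_congr rfl fun j _ => hJ j
  obtain ⟨b, hb⟩ : ∃ b, b = (∑ j, cnt (fun s => (ordZ (u j) s : ℝ)) R₁ (Real.exp (-x))) -
      cnt (fun s => (ordZ (wronsk u) s : ℝ)) R₁ (Real.exp (-x)) + cμ := ⟨_, rfl⟩
  rw [← hb] at hloc
  have hb2 : b ≤ κ * t + (n' : ℝ) / d * a * y := by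
    have h2 : (d : ℝ) * b ≤ (n' : ℝ) * (((n' : ℝ) + 1) * t + a * y + t) := by
      refine hloc.trans (mul_le_mul_of_nonneg_left ?_ (Nat.cast_nonneg _))
      rw [ht]
      linarith
    have h3 : (n' : ℝ) * (((n' : ℝ) + 1) * t + a * y + t) =
        d * (κ * t + (n' : ℝ) / d * a * y) := by
      have : (d : ℝ) * ((n' : ℝ) / d * a * y) = n' * a * y := by field_simp
      rw [mul_add (d : ℝ), this]
      linear_combination (-t) * hκd
    rw [h3] at h2
    exact le_of_mul_le_mul_left h2 hdR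
  have hfin : t ≤ a * y + (|A'| + |B'|) * y + L * y + ((1 - κ) / 2 * t +
      K * (∑ i, ∑ j, |Cq i j|) * y) + (κ * t + (n' : ℝ) / d * a * y) := by
    have hLy : L ≤ L * y := le_mul_of_one_le_right hL0 hy
    rw [← ht] at hq'
    have e1 := (abs_le.1 hsum1).2
    have e2 := (abs_le.1 hlinW).1
    have e3 : t = mean G x + cμ := ht
    linarith
  have hfin2 : (1 - κ) / 2 * t ≤ C₀ * y := by
    rw [hC₀, ← ha]
    linarith
  refine (hnev j).trans ?_
  rw [← ht]
  have hk : 0 < 1 - κ := by linarith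
  have : t = 2 / (1 - κ) * ((1 - κ) / 2 * t) := by field_simp
  rw [this, mul_assoc]
  exact mul_le_mul_of_nonneg_left hfin2 (by positivity)

end Pool.Agent.H62.FC

end
end

section

/-! # Sparse relations between meromorphic functions at a puncture -/

noncomputable section

namespace Pool.Agent.H62.FC

section Geometry

open MvPolynomial Topology Filter
open Pool.Agent.H92.GGL (ordZ)

variable {κ : Type}

/-- The germ at `z₁` (punctured), as a linear map. -/
private def Dichotomy_germ (z₁ : ℂ) : (ℂ → ℂ) →ₗ[ℂ] Germ (𝓝[≠] z₁) ℂ where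
  toFun f := (f : Germ (𝓝[≠] z₁) ℂ)
  map_add' _ _ := rfl
  map_smul' _ _ := rfl

private lemma Dichotomy_germ_eq_zero {z₁ : ℂ} {f : ℂ → ℂ} :
    Dichotomy_germ z₁ f = 0 ↔ ∀ᶠ ζ in 𝓝[≠] z₁, f ζ = 0 :=
  Germ.coe_eq

/-- Identity principle. -/
private lemma Dichotomy_identity {R₀ : ℝ} {f : ℂ → ℂ}
    (hf : ∀ z, 0 < ‖z‖ → ‖z‖ < R₀ → MeromorphicAt f z) {z₁ z : ℂ}
    (h1 : 0 < ‖z₁‖) (h1' : ‖z₁‖ < R₀) (h : ∀ᶠ ζ in 𝓝[≠] z₁, f ζ = 0)
    (h2 : 0 < ‖z‖) (h2' : ‖z‖ < R₀) : ∀ᶠ ζ in 𝓝[≠] z, f ζ = 0 := by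
  by_contra hcon
  rw [← meromorphicOrderAt_eq_top_iff] at hcon h
  have hm : MeromorphicOn f {z : ℂ | 0 < ‖z‖ ∧ ‖z‖ < R₀} := fun w hw => hf w hw.1 hw.2
  exact hm.meromorphicOrderAt_ne_top_of_isPreconnected
    (Pool.Agent.H92.GGL.isPreconnected_punctured R₀) (x := z) (y := z₁) ⟨h2, h2'⟩ ⟨h1, h1'⟩ hcon h

private lemma Dichotomy_ne_zero {R₀ : ℝ} {u : ℂ → ℂ} (hu : MeroPunct R₀ u) {z : ℂ}
    (h1 : 0 < ‖z‖) (h2 : ‖z‖ < R₀) : ∀ᶠ ζ in 𝓝[≠] z, u ζ ≠ 0 :=
  (meromorphicOrderAt_ne_top_iff_eventually_ne_zero (hu.mero z h1 h2)).1 (hu.ord z h1 h2)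

/-- congruence -/
private lemma Dichotomy_congr {R₀ : ℝ} (hR₀ : 0 < R₀) {f g : ℂ → ℂ} (hf : PunctMero f)
    (h : ∀ z, 0 < ‖z‖ → ‖z‖ < R₀ → f =ᶠ[𝓝[≠] z] g) : PunctMero g := by
  obtain ⟨v, hv, hfv⟩ := hf
  refine ⟨v, hv, ?_⟩
  have h3 : ∀ᶠ z in 𝓝[≠] (0 : ℂ), 0 < ‖z‖ := by
    filter_upwards [self_mem_nhdsWithin] with z hz using norm_pos_iff.2 hz
  have h4 : ∀ᶠ z in 𝓝[≠] (0 : ℂ), ‖z‖ < R₀ := by
    refine Filter.Eventually.filter_mono nhdsWithin_le_nhds ?_
    have := Metric.ball_mem_nhds (0 : ℂ) hR₀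
    filter_upwards [this] with z hz using by simpa using hz
  filter_upwards [hfv, h3, h4] with z h5 h6 h7
  exact (h z h6 h7).symm.trans h5

private lemma Dichotomy_const {R₀ : ℝ} (hR₀ : 0 < R₀) {g : ℂ → ℂ} (c : ℂ)
    (h : ∀ z, 0 < ‖z‖ → ‖z‖ < R₀ → ∀ᶠ ζ in 𝓝[≠] z, g ζ = c) : PunctMero g := by
  refine Dichotomy_congr hR₀ (f := fun _ => c) ⟨fun _ => c, MeromorphicAt.const c 0, ?_⟩ ?_
  · exact Eventually.of_forall fun z => EventuallyEq.rfl
  · intro z h1 h2
    filter_upwards [h z h1 h2] with ζ hζ using hζ.symm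

/-- monomials -/
private def Dichotomy_mon {I : Type} [Fintype I] (ξ : I → ℂ → ℂ) (a : I →₀ ℕ) (z : ℂ) : ℂ :=
  ∏ i, ξ i z ^ a i

private lemma Dichotomy_mon_meroPunct {I : Type} [Fintype I] {R₀ : ℝ} {ξ : I → ℂ → ℂ}
    (hξ : ∀ i, MeroPunct R₀ (ξ i)) (a : I →₀ ℕ) : MeroPunct R₀ (Dichotomy_mon ξ a) := by
  have hm : ∀ z, 0 < ‖z‖ → ‖z‖ < R₀ → MeromorphicAt (Dichotomy_mon ξ a) z := by
    intro z h1 h2
    exact MeromorphicAt.fun_prod fun i _ => ((hξ i).mero z h1 h2).fun_pow _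
  refine ⟨hm, fun z h1 h2 => ?_⟩
  rw [meromorphicOrderAt_ne_top_iff_eventually_ne_zero (hm z h1 h2)]
  have : ∀ᶠ ζ in 𝓝[≠] z, ∀ i, ξ i ζ ≠ 0 :=
    Filter.eventually_all.2 fun i => Dichotomy_ne_zero (hξ i) h1 h2
  filter_upwards [this] with ζ hζ
  exact Finset.prod_ne_zero_iff.2 fun i _ => pow_ne_zero _ (hζ i)

private lemma Dichotomy_ordZ_mon {I : Type} [Fintype I] {R₀ : ℝ} {ξ : I → ℂ → ℂ}
    (hξ : ∀ i, MeroPunct R₀ (ξ i)) (a : I →₀ ℕ) {z : ℂ} (h1 : 0 < ‖z‖) (h2 : ‖z‖ < R₀) :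
    meromorphicOrderAt (Dichotomy_mon ξ a) z = ((∑ i, (a i : ℤ) * ordZ (ξ i) z : ℤ) : WithTop ℤ) := by
  unfold Dichotomy_mon
  rw [meromorphicOrderAt_fun_prod fun i _ => ((hξ i).mero z h1 h2).fun_pow _]
  rw [WithTop.coe_sum]
  refine Finset.sum_congr rfl fun i _ => ?_
  have h0 : meromorphicOrderAt (fun ζ => ξ i ζ ^ a i) z = a i * meromorphicOrderAt (ξ i) z :=
    meromorphicOrderAt_pow ((hξ i).mero z h1 h2)
  rw [h0]
  have h3 : meromorphicOrderAt (ξ i) z = ((ordZ (ξ i) z : ℤ) : WithTop ℤ) := by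
    rw [ordZ, WithTop.coe_untop₀_of_ne_top ((hξ i).ord z h1 h2)]
  rw [h3, WithTop.coe_mul]
  rfl

private lemma Dichotomy_eval {I : Type} [Fintype I] (ξ : I → ℂ → ℂ) (p : MvPolynomial I ℂ)
    (z : ℂ) : eval (fun i => ξ i z) p = ∑ a ∈ p.support, coeff a p * Dichotomy_mon ξ a z := by
  rw [MvPolynomial.eval_eq']
  rfl

/-- the vectors -/
private def Dichotomy_y {I : Type} [Fintype I] (ξ : I → ℂ → ℂ) (z₁ : ℂ) (a : I →₀ ℕ) :
    Germ (𝓝[≠] z₁) ℂ := Dichotomy_germ z₁ (Dichotomy_mon ξ a)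

private lemma Dichotomy_sum_eq_zero {I : Type} [Fintype I] {R₀ : ℝ} {ξ : I → ℂ → ℂ}
    (hξ : ∀ i, MeroPunct R₀ (ξ i)) {z₁ : ℂ} (h1 : 0 < ‖z₁‖) (h1' : ‖z₁‖ < R₀)
    (s : Finset (I →₀ ℕ)) (c : (I →₀ ℕ) → ℂ) :
    ∑ a ∈ s, c a • Dichotomy_y ξ z₁ a = 0 ↔
      ∀ z, 0 < ‖z‖ → ‖z‖ < R₀ → ∀ᶠ ζ in 𝓝[≠] z, ∑ a ∈ s, c a * Dichotomy_mon ξ a ζ = 0 := by
  have hG : ∑ a ∈ s, c a • Dichotomy_y ξ z₁ a =
      Dichotomy_germ z₁ (fun ζ => ∑ a ∈ s, c a * Dichotomy_mon ξ a ζ) := by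
    have : (fun ζ => ∑ a ∈ s, c a * Dichotomy_mon ξ a ζ) =
        ∑ a ∈ s, c a • Dichotomy_mon ξ a := by
      funext ζ
      simp
    rw [this, map_sum]
    refine Finset.sum_congr rfl fun a _ => ?_
    rw [map_smul]
    rfl
  rw [hG, Dichotomy_germ_eq_zero]
  constructor
  · intro h z h2 h2'
    refine Dichotomy_identity (fun w hw hw' => ?_) h1 h1' h h2 h2'
    exact MeromorphicAt.fun_sum fun a _ =>
      (MeromorphicAt.const (c a) w).fun_mul ((Dichotomy_mon_meroPunct hξ a).mero w hw hw')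
  · intro h
    exact h z₁ h1 h1'

/-- Circuits. -/
private lemma Dichotomy_circuit {I : Type} [Fintype I] [DecidableEq I] {R₀ : ℝ} (hR₀ : 0 < R₀)
    {k d : ℕ} {ξ : I → ℂ → ℂ} (hξ : ∀ i, MeroPunct R₀ (ξ i)) (hd : k * (k - 2) < d)
    {z₁ : ℂ} (h1 : 0 < ‖z₁‖) (h1' : ‖z₁‖ < R₀) {ρ : Finset (I →₀ ℕ)} (hk : ρ.card ≤ k)
    (hρ : IsCircuit ℂ (Dichotomy_y ξ z₁) ρ)
    (hdiv : ∀ a ∈ ρ, ∀ b ∈ ρ, ∀ z, 0 < ‖z‖ → ‖z‖ < R₀ →
      (d : ℤ) ∣ ∑ i, ((a i : ℤ) - b i) * ordZ (ξ i) z)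
    {a b : I →₀ ℕ} (ha : a ∈ ρ) (hb : b ∈ ρ) :
    PunctMero (fun z => Dichotomy_mon ξ a z / Dichotomy_mon ξ b z) := by
  classical
  set y := Dichotomy_y ξ z₁ with hy
  have hmon : ∀ a, MeroPunct R₀ (Dichotomy_mon ξ a) := Dichotomy_mon_meroPunct hξ
  rcases eq_or_ne a b with rfl | hab
  · refine Dichotomy_const hR₀ 1 fun z h2 h2' => ?_
    filter_upwards [Dichotomy_ne_zero (hmon a) h2 h2'] with ζ hζ
    exact div_self hζ
  -- the relation
  obtain ⟨c, hc0, hc⟩ : ∃ c : (I →₀ ℕ) → ℂ, ∑ a ∈ ρ, c a • y a = 0 ∧ ∃ a ∈ ρ, c a ≠ 0 := by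
    have h3 := hρ.1
    rw [linearIndepOn_finset_iff] at h3
    push Not at h3
    obtain ⟨c, h4, a, h5, h6⟩ := h3
    exact ⟨c, h4, a, h5, h6⟩
  have hcne : ∀ a ∈ ρ, c a ≠ 0 := by
    intro a₀ ha₀ h4
    have h5 := hρ.2 (ρ.erase a₀) (Finset.erase_ssubset ha₀)
    rw [linearIndepOn_finset_iff] at h5
    have h6 : ∑ a ∈ ρ.erase a₀, c a • y a = 0 := by
      rw [← hc0, ← Finset.add_sum_erase ρ _ ha₀, h4, zero_smul, zero_add]
    obtain ⟨a₁, h7, h8⟩ := hc
    refine h8 (h5 c h6 a₁ (Finset.mem_erase.2 ⟨?_, h7⟩))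
    rintro rfl
    exact h8 h4
  have hrel : ∀ z, 0 < ‖z‖ → ‖z‖ < R₀ → ∀ᶠ ζ in 𝓝[≠] z,
      ∑ a ∈ ρ, c a * Dichotomy_mon ξ a ζ = 0 := (Dichotomy_sum_eq_zero hξ h1 h1' ρ c).1 hc0
  -- enumeration
  set σ := ρ.erase b with hσ
  have hσcard : σ.card + 1 = ρ.card := Finset.card_erase_add_one hb
  set n := σ.card with hn
  let e : Fin n ≃ σ := (σ.equivFin).symm
  have he : ∀ j, (e j : I →₀ ℕ) ∈ ρ := fun j => Finset.mem_of_mem_erase (e j).2
  have heb : ∀ j, (e j : I →₀ ℕ) ≠ b := fun j => Finset.ne_of_mem_erase (e j).2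
  have hsum : ∀ {M : Type} [AddCommMonoid M] (f : (I →₀ ℕ) → M),
      ∑ j, f (e j) = ∑ a ∈ σ, f a := by
    intro M _ f
    rw [← Finset.sum_coe_sort σ]
    exact Equiv.sum_comp e fun x : σ => f x
  set u : Fin n → ℂ → ℂ := fun j z =>
    c (e j) / c b * (Dichotomy_mon ξ (e j) z / Dichotomy_mon ξ b z) with hu
  have hrelu : ∀ z, 0 < ‖z‖ → ‖z‖ < R₀ → ∀ᶠ ζ in 𝓝[≠] z, ∑ j, u j ζ = -1 := by
    intro z h2 h2'
    filter_upwards [hrel z h2 h2', Dichotomy_ne_zero (hmon b) h2 h2'] with ζ h3 h4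
    rw [hsum fun a => c a / c b * (Dichotomy_mon ξ a ζ / Dichotomy_mon ξ b ζ)]
    rw [← Finset.add_sum_erase ρ _ hb] at h3
    have h5 : ∑ a ∈ σ, c a / c b * (Dichotomy_mon ξ a ζ / Dichotomy_mon ξ b ζ) =
        (∑ a ∈ σ, c a * Dichotomy_mon ξ a ζ) / (c b * Dichotomy_mon ξ b ζ) := by
      rw [Finset.sum_div]
      refine Finset.sum_congr rfl fun a _ => ?_
      rw [div_mul_div_comm]
    rw [h5, eq_neg_of_add_eq_zero_right h3, neg_div, div_self (mul_ne_zero (hcne b hb) h4)]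
  have haσ : a ∈ σ := Finset.mem_erase.2 ⟨hab, ha⟩
  obtain ⟨j₀, hj₀⟩ := e.surjective ⟨a, haσ⟩
  have hj₀' : (e j₀ : I →₀ ℕ) = a := by rw [hj₀]
  have key : PunctMero (u j₀) → PunctMero
      (fun z => Dichotomy_mon ξ a z / Dichotomy_mon ξ b z) := by
    intro h3
    have h4 : PunctMero (fun _ : ℂ => c b / c a) :=
      Dichotomy_const hR₀ (c b / c a) fun z _ _ => Eventually.of_forall fun _ => rfl
    refine Dichotomy_congr hR₀ (PunctMero.mul h4 h3) fun z _ _ => ?_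
    refine Eventually.of_forall fun ζ => ?_
    simp only [hu, hj₀']
    field_simp [hcne a ha, hcne b hb]
  apply key
  have hn1 : 1 ≤ n := Finset.card_pos.2 ⟨a, haσ⟩
  rcases Nat.lt_or_ge n 2 with hn2 | hn2
  · -- two terms
    have hn1' : n = 1 := by omega
    refine Dichotomy_const hR₀ (-1) fun z h2 h2' => ?_
    filter_upwards [hrelu z h2 h2'] with ζ hζ
    rw [← hζ]
    have h5 : (Finset.univ : Finset (Fin n)) = {j₀} := by
      have : Subsingleton (Fin n) := by rw [hn1']; infer_instance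
      ext j
      simp [Subsingleton.elim j j₀]
    rw [h5, Finset.sum_singleton]
  · have hconst : ∀ x : ℂ, x ≠ 0 → MeroPunct R₀ (fun _ => x) := by
      intro x hx
      refine ⟨fun z _ _ => MeromorphicAt.const x z, fun z _ _ => ?_⟩
      rw [meromorphicOrderAt_ne_top_iff_eventually_ne_zero (MeromorphicAt.const x z)]
      exact Eventually.of_forall fun _ => hx
    have hcoef : ∀ j, c (e j) / c b ≠ 0 := fun j => div_ne_zero (hcne _ (he j)) (hcne b hb)
    have huM : ∀ j, MeroPunct R₀ (u j) := by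
      intro j
      refine MeroPunct.mul (hconst _ (hcoef j)) ?_
      have := MeroPunct.mul (hmon (e j)) (MeroPunct.inv (hmon b))
      simpa only [div_eq_mul_inv] using this
    have hcd : (n + 1) * (n - 1) < d := by
      refine lt_of_le_of_lt ?_ hd
      refine Nat.mul_le_mul (by omega) (by omega)
    refine cartan_punctMero hn2 hcd hR₀ huM hrelu ?_ ?_ j₀
    · intro c' z h2 h2' h3
      -- independence
      have h4 : ∀ᶠ ζ in 𝓝[≠] z, ∑ a ∈ σ, (if h : a ∈ σ then c' (e.symm ⟨a, h⟩) * c a else 0) *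
          Dichotomy_mon ξ a ζ = 0 := by
        filter_upwards [h3, Dichotomy_ne_zero (hmon b) h2 h2'] with ζ h5 h6
        have h7 : ∑ a ∈ σ, (if h : a ∈ σ then c' (e.symm ⟨a, h⟩) * c a else 0) *
            Dichotomy_mon ξ a ζ = (∑ j, c' j * u j ζ) * (c b * Dichotomy_mon ξ b ζ) := by
          rw [← hsum fun a => (if h : a ∈ σ then c' (e.symm ⟨a, h⟩) * c a else 0) *
            Dichotomy_mon ξ a ζ, Finset.sum_mul]
          refine Finset.sum_congr rfl fun j _ => ?_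
          rw [dif_pos (e j).2]
          simp only [Subtype.coe_eta, Equiv.symm_apply_apply, hu]
          field_simp [hcne b hb, h6]
        rw [h7, h5, zero_mul]
      have h5 := (Dichotomy_sum_eq_zero hξ h2 h2' σ _).2
        (fun w hw hw' => Dichotomy_identity (fun x hx hx' => MeromorphicAt.fun_sum fun a _ =>
          (MeromorphicAt.const _ x).fun_mul ((hmon a).mero x hx hx')) h2 h2' h4 hw hw')
      have h6 := (Dichotomy_sum_eq_zero hξ h1 h1' σ _).2
        (fun w hw hw' => Dichotomy_identity (fun x hx hx' => MeromorphicAt.fun_sum fun a _ =>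
          (MeromorphicAt.const _ x).fun_mul ((hmon a).mero x hx hx')) h2 h2' h4 hw hw')
      have h7 := hρ.2 σ (Finset.erase_ssubset hb)
      rw [linearIndepOn_finset_iff] at h7
      have h8 := h7 _ h6
      funext j
      have h9 := h8 (e j) (e j).2
      rw [dif_pos (e j).2] at h9
      simp only [Subtype.coe_eta, Equiv.symm_apply_apply] at h9
      rcases mul_eq_zero.1 h9 with h | h
      · exact h
      · exact absurd h (hcne _ (he j))
    · intro j z h2 h2'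
      have hord : ordZ (u j) z = ∑ i, (((e j : I →₀ ℕ) i : ℤ) - b i) * ordZ (ξ i) z := by
        have h3 : meromorphicOrderAt (u j) z =
            ((∑ i, (((e j : I →₀ ℕ) i : ℤ) - b i) * ordZ (ξ i) z : ℤ) : WithTop ℤ) := by
          have h4 : meromorphicOrderAt (u j) z = meromorphicOrderAt (fun _ : ℂ => c (e j) / c b) z +
              (meromorphicOrderAt (Dichotomy_mon ξ (e j)) z -
                meromorphicOrderAt (Dichotomy_mon ξ b) z) := by
            rw [← meromorphicOrderAt_div ((hmon (e j)).mero z h2 h2') ((hmon b).mero z h2 h2')]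
            exact meromorphicOrderAt_mul (MeromorphicAt.const _ z)
              (((hmon (e j)).mero z h2 h2').div ((hmon b).mero z h2 h2'))
          rw [h4, meromorphicOrderAt_const, if_neg (hcoef j), zero_add,
            Dichotomy_ordZ_mon hξ _ h2 h2', Dichotomy_ordZ_mon hξ _ h2 h2',
            ← WithTop.LinearOrderedAddCommGroup.coe_sub]
          congr 1
          rw [← Finset.sum_sub_distrib]
          exact Finset.sum_congr rfl fun i _ => by ring
        rw [ordZ, h3, WithTop.untop₀_coe]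
      rw [hord]
      exact hdiv _ (he j) b hb z h2 h2'

/-- zpow monomials -/
private def Dichotomy_zmon {I : Type} [Fintype I] (ξ : I → ℂ → ℂ) (γ : I → ℤ) (z : ℂ) : ℂ :=
  ∏ i, ξ i z ^ γ i

private lemma Dichotomy_closure {I : Type} [Fintype I] {R₀ : ℝ} (hR₀ : 0 < R₀)
    {ξ : I → ℂ → ℂ} (hξ : ∀ i, MeroPunct R₀ (ξ i)) {Γ : Set (I → ℤ)}
    (hΓ : ∀ γ ∈ Γ, PunctMero (Dichotomy_zmon ξ γ)) {γ : I → ℤ}
    (hγ : γ ∈ AddSubgroup.closure Γ) : PunctMero (Dichotomy_zmon ξ γ) := by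
  have hne : ∀ z, 0 < ‖z‖ → ‖z‖ < R₀ → ∀ᶠ ζ in 𝓝[≠] z, ∀ i, ξ i ζ ≠ 0 := fun z h1 h2 =>
    Filter.eventually_all.2 fun i => Dichotomy_ne_zero (hξ i) h1 h2
  induction hγ using AddSubgroup.closure_induction with
  | mem γ h => exact hΓ γ h
  | zero =>
    refine Dichotomy_const hR₀ 1 fun z _ _ => Eventually.of_forall fun ζ => ?_
    simp [Dichotomy_zmon]
  | add γ γ' _ _ h h' =>
    refine Dichotomy_congr hR₀ (PunctMero.mul h h') fun z h1 h2 => ?_
    filter_upwards [hne z h1 h2] with ζ hζ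
    simp only [Dichotomy_zmon, Pi.add_apply]
    rw [← Finset.prod_mul_distrib]
    exact Finset.prod_congr rfl fun i _ => (zpow_add₀ (hζ i) _ _).symm
  | neg γ _ h =>
    refine Dichotomy_congr hR₀ (PunctMero.inv h) fun z h1 h2 => ?_
    refine Eventually.of_forall fun ζ => ?_
    simp only [Dichotomy_zmon, Pi.neg_apply]
    rw [← Finset.prod_inv_distrib]
    exact Finset.prod_congr rfl fun i _ => (zpow_neg _ _).symm

/-! D2 -/
theorem punct_dichotomy {I : Type} [Fintype I] [DecidableEq I] {R₀ : ℝ} (hR₀ : 0 < R₀) {k d : ℕ}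
    {ξ : I → ℂ → ℂ} (hξ : ∀ i, MeroPunct R₀ (ξ i)) {P : κ → MvPolynomial I ℂ}
    (hk : ∀ l, (P l).support.card ≤ k) (hd : k * (k - 2) < d)
    (hrel : ∀ l z, 0 < ‖z‖ → ‖z‖ < R₀ → ∀ᶠ ζ in 𝓝[≠] z, eval (fun i => ξ i ζ) (P l) = 0)
    (hdiv : ∀ l, ∀ a ∈ (P l).support, ∀ b ∈ (P l).support, ∀ z, 0 < ‖z‖ → ‖z‖ < R₀ →
      (d : ℤ) ∣ ∑ i, ((a i : ℤ) - b i) * ordZ (ξ i) z)
    (hlev : ∀ n : I → ℤ, (∀ l v z, 0 < ‖z‖ → ‖z‖ < R₀ → ∀ᶠ ζ in 𝓝[≠] z,
      eval (fun i => ξ i ζ) (weightedHomogeneousComponent n v (P l)) = 0) → ∀ i j, n i = n j)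
    (i j : I) : PunctMero (fun z => ξ i z / ξ j z) := by
  classical
  have hne : ∀ z, 0 < ‖z‖ → ‖z‖ < R₀ → ∀ᶠ ζ in 𝓝[≠] z, ∀ i, ξ i ζ ≠ 0 := fun z h1 h2 =>
    Filter.eventually_all.2 fun i => Dichotomy_ne_zero (hξ i) h1 h2
  rcases eq_or_ne i j with rfl | hij
  · refine Dichotomy_const hR₀ 1 fun z h1 h2 => ?_
    filter_upwards [hne z h1 h2] with ζ hζ
    exact div_self (hζ i)
  -- base point
  obtain ⟨z₁, h1, h1'⟩ : ∃ z₁ : ℂ, 0 < ‖z₁‖ ∧ ‖z₁‖ < R₀ := by
    refine ⟨((R₀ / 2 : ℝ) : ℂ), ?_, ?_⟩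
    · rw [Complex.norm_real, Real.norm_of_nonneg (by positivity)]
      positivity
    · rw [Complex.norm_real, Real.norm_of_nonneg (by positivity)]
      linarith
  set y := Dichotomy_y ξ z₁ with hy
  set Γ : Set (I → ℤ) := {γ | ∃ l, ∃ ρ ⊆ (P l).support, IsCircuit ℂ y ρ ∧ ∃ a ∈ ρ, ∃ b ∈ ρ,
    γ = fun i => (a i : ℤ) - b i} with hΓ
  have hΓP : ∀ γ ∈ Γ, PunctMero (Dichotomy_zmon ξ γ) := by
    rintro γ ⟨l, ρ, hρs, hρ, a, ha, b, hb, rfl⟩
    have h3 := Dichotomy_circuit hR₀ hξ hd h1 h1' ((Finset.card_le_card hρs).trans (hk l)) hρ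
      (fun a ha b hb => hdiv l a (hρs ha) b (hρs hb)) ha hb
    refine Dichotomy_congr hR₀ h3 fun z h2 h2' => ?_
    filter_upwards [hne z h2 h2'] with ζ hζ
    simp only [Dichotomy_mon, Dichotomy_zmon]
    rw [← Finset.prod_div_distrib]
    refine Finset.prod_congr rfl fun i _ => ?_
    rw [zpow_sub₀ (hζ i), zpow_natCast, zpow_natCast]
  have hcomb : ∀ n : I → ℤ, (∀ γ ∈ Γ, ∑ l, n l * γ l = 0) → n i = n j := by
    intro n hn
    refine hlev n (fun l v => ?_) i j
    have hlin : ∑ a ∈ (P l).support, coeff a (P l) • y a = 0 := by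
      refine (Dichotomy_sum_eq_zero hξ h1 h1' _ fun a => coeff a (P l)).2 fun z h2 h2' => ?_
      filter_upwards [hrel l z h2 h2'] with ζ hζ
      rw [← hζ, Dichotomy_eval]
    have h4 := sum_level_eq_zero (F := ℂ) (y := y) (ν := fun a => Finsupp.weight n a)
      (S := (P l).support) ?_ hlin v
    · have h5 := (Dichotomy_sum_eq_zero hξ h1 h1' _ fun a => coeff a (P l)).1 h4
      intro z h2 h2'
      filter_upwards [h5 z h2 h2'] with ζ hζ
      rw [weightedHomogeneousComponent_apply, map_sum, ← hζ]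
      refine Finset.sum_congr rfl fun a _ => ?_
      rw [eval_monomial, Dichotomy_mon, Finsupp.prod_fintype]
      intro i
      exact pow_zero _
    · intro ρ hρs hρ a ha b hb
      have h5 := hn _ ⟨l, ρ, hρs, hρ, a, ha, b, hb, rfl⟩
      have hw : ∀ a : I →₀ ℕ, Finsupp.weight n a = ∑ l, n l * (a l : ℤ) := by
        intro a
        rw [Finsupp.weight_apply, Finsupp.sum_fintype]
        · exact Finset.sum_congr rfl fun l _ => by rw [nsmul_eq_mul, mul_comm]
        · intro i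
          exact zero_smul _ _
      simp only [hw]
      rw [← sub_eq_zero, ← Finset.sum_sub_distrib, ← h5]
      exact Finset.sum_congr rfl fun l _ => by ring
  obtain ⟨M, hM, hmem⟩ := exists_combination (Γ := Γ) (i := i) (j := j) hcomb
  have h6 := Dichotomy_closure hR₀ hξ hΓP hmem
  have h7 : MeroPunct R₀ (fun z => ξ i z / ξ j z) := by
    have := MeroPunct.mul (hξ i) (MeroPunct.inv (hξ j))
    simpa only [div_eq_mul_inv] using this
  refine PunctMero.root hR₀ h7 hM ?_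
  refine Dichotomy_congr hR₀ h6 fun z h2 h2' => ?_
  filter_upwards [hne z h2 h2'] with ζ hζ
  simp only [Dichotomy_zmon]
  have h8 : ∀ l, ξ l ζ ^ (((M : ℤ) • (Pi.single i 1 - Pi.single j 1 : I → ℤ)) l) =
      (if l = i then ξ i ζ ^ M else 1) * (if l = j then (ξ j ζ ^ M)⁻¹ else 1) := by
    intro l
    rcases eq_or_ne l i with rfl | hli
    · simp [hij]
    · rcases eq_or_ne l j with rfl | hlj
      · simp [hli]
      · simp [hli, hlj]
  rw [Finset.prod_congr rfl fun l _ => h8 l, Finset.prod_mul_distrib]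
  simp [div_eq_mul_inv, mul_pow]

end Geometry

end Pool.Agent.H62.FC

end
end

section

/-!
# Fermat covers: the big Picard theorem and the Brody statement outside the exceptional set
-/

noncomputable section

namespace Pool.Agent.H62.FC

open MvPolynomial Topology Filter
open Pool.Agent.H92.GGL (ordZ)
open Pool.Agent.H17 (PN VanishesAt zeroLocus ZariskiClosedIn HolomorphicInto puncturedDisc)

variable {N : ℕ} {κ : Type} {A : κ → MvPolynomial (Fin (N + 1)) ℂ} {e : κ → ℕ}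
  {O : Finset (Fin (N + 1))} {P : Ideal (MvPolynomial (Fin (N + 1)) ℂ)}

/-! ### Restriction of polynomials to some of the variables -/

open Classical in
/-- the part of `p` which only involves the variables in `T` -/
private def restr (T : Finset (Fin (N + 1))) (p : MvPolynomial (Fin (N + 1)) ℂ) :
    MvPolynomial {i // i ∈ T} ℂ :=
  ∑ a ∈ p.support.filter (fun a => ∀ i, i ∉ T → a i = 0),
    monomial (a.subtypeDomain (fun i => i ∈ T)) (coeff a p)

private theorem restr_support {T : Finset (Fin (N + 1))} {p : MvPolynomial (Fin (N + 1)) ℂ}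
    {b : {i // i ∈ T} →₀ ℕ} (hb : b ∈ (restr T p).support) :
    ∃ a ∈ p.support, (∀ i, i ∉ T → a i = 0) ∧ ∀ i : {i // i ∈ T}, b i = a i := by
  classical
  unfold restr at hb
  have h1 := MvPolynomial.support_sum hb
  rw [Finset.mem_biUnion] at h1
  obtain ⟨a, ha, hab⟩ := h1
  obtain ⟨ha1, ha2⟩ := Finset.mem_filter.mp ha
  have h2 := MvPolynomial.support_monomial_subset hab
  rw [Finset.mem_singleton] at h2
  refine ⟨a, ha1, ha2, fun i => ?_⟩
  rw [h2]
  rfl

private theorem restr_card (T : Finset (Fin (N + 1))) (p : MvPolynomial (Fin (N + 1)) ℂ) :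
    (restr T p).support.card ≤ p.support.card := by
  classical
  have h : (restr T p).support ⊆
      p.support.image (fun a => a.subtypeDomain (fun i => i ∈ T)) := by
    intro b hb
    obtain ⟨a, ha, -, hab⟩ := restr_support hb
    rw [Finset.mem_image]
    refine ⟨a, ha, ?_⟩
    ext i
    rw [hab i]
    rfl
  exact (Finset.card_le_card h).trans Finset.card_image_le

private theorem restr_sum {M : Type*} [AddCommMonoid M] {T : Finset (Fin (N + 1))}
    (a : Fin (N + 1) → M) (ha : ∀ i, i ∉ T → a i = 0) :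
    ∑ i : {i // i ∈ T}, a i = ∑ i, a i := by
  rw [Finset.sum_coe_sort T a]
  exact Finset.sum_subset (Finset.subset_univ T) fun i _ hi => ha i hi

private theorem restr_prod {M : Type*} [CommMonoid M] {T : Finset (Fin (N + 1))}
    (a : Fin (N + 1) → M) (ha : ∀ i, i ∉ T → a i = 1) :
    ∏ i : {i // i ∈ T}, a i = ∏ i, a i := by
  rw [Finset.prod_coe_sort T a]
  exact Finset.prod_subset (Finset.subset_univ T) fun i _ hi => ha i hi

private theorem restr_homog {T : Finset (Fin (N + 1))} {p : MvPolynomial (Fin (N + 1)) ℂ} {m : ℕ}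
    (hp : p.IsHomogeneous m) : (restr T p).IsHomogeneous m := by
  classical
  unfold restr
  refine MvPolynomial.IsHomogeneous.sum _ _ _ fun a ha => ?_
  obtain ⟨ha1, ha2⟩ := Finset.mem_filter.mp ha
  refine MvPolynomial.isHomogeneous_monomial _ ?_
  have hdeg : a.degree = m := by
    by_contra hne
    exact (mem_support_iff.mp ha1) (hp.coeff_eq_zero hne)
  rw [← hdeg, Finsupp.degree_eq_sum, Finsupp.degree_eq_sum]
  exact restr_sum (fun i => a i) ha2

private theorem restr_eval {T : Finset (Fin (N + 1))} (p : MvPolynomial (Fin (N + 1)) ℂ)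
    (g : Fin (N + 1) → ℂ) (hg : ∀ i, i ∉ T → g i = 0) :
    eval (fun i : {i // i ∈ T} => g i) (restr T p) = eval g p := by
  classical
  unfold restr
  rw [map_sum, MvPolynomial.eval_eq', Finset.sum_filter]
  refine Finset.sum_congr rfl fun a _ => ?_
  by_cases ha : ∀ i, i ∉ T → a i = 0
  · rw [if_pos ha, MvPolynomial.eval_monomial, Finsupp.prod_fintype _ _ (fun _ => pow_zero _)]
    congr 1
    exact restr_prod (fun i => g i ^ a i) fun i hi => by rw [ha i hi, pow_zero]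
  · rw [if_neg ha]
    push Not at ha
    obtain ⟨i, hi, hai⟩ := ha
    rw [Finset.prod_eq_zero (Finset.mem_univ i), mul_zero]
    rw [hg i hi, zero_pow hai]

/-! ### Level sums -/

private theorem whc_homog {σ : Type} {p : MvPolynomial σ ℂ} {m : ℕ} (hp : p.IsHomogeneous m)
    (n : σ → ℤ) (v : ℤ) : (weightedHomogeneousComponent n v p).IsHomogeneous m := by
  classical
  intro a ha
  rw [coeff_weightedHomogeneousComponent] at ha
  split_ifs at ha with h
  · exact hp ha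
  · exact absurd rfl ha

private theorem eval_level {σ : Type} [Fintype σ] (p : MvPolynomial σ ℂ) (n : σ → ℤ) (a : σ → ℂ)
    (h : ∀ v, eval a (weightedHomogeneousComponent n v p) = 0) {t : ℂ} (ht : t ≠ 0) :
    eval (fun i => a i * t ^ n i) p = 0 := by
  classical
  have h1 : ∀ d : σ →₀ ℕ, ∏ i, (a i * t ^ n i) ^ d i =
      (∏ i, a i ^ d i) * t ^ (Finsupp.weight n d) := by
    intro d
    rw [Finsupp.weight_apply, Finsupp.sum_fintype _ _ (by intro i; simp)]
    have h2 : t ^ (∑ i, d i • n i) = ∏ i, t ^ (d i • n i) := by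
      refine Finset.induction_on (Finset.univ : Finset σ) (by simp) ?_
      intro i s hi ih
      rw [Finset.sum_insert hi, Finset.prod_insert hi, zpow_add₀ ht, ih]
    rw [h2, ← Finset.prod_mul_distrib]
    refine Finset.prod_congr rfl fun i _ => ?_
    rw [mul_pow, nsmul_eq_mul, mul_comm (d i : ℤ) (n i), zpow_mul, zpow_natCast]
  rw [MvPolynomial.eval_eq']
  have h3 : ∀ d ∈ p.support, Finsupp.weight n d ∈ p.support.image (Finsupp.weight n) :=
    fun d hd => Finset.mem_image_of_mem _ hd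
  rw [← Finset.sum_fiberwise_of_maps_to h3]
  refine Finset.sum_eq_zero fun v _ => ?_
  have h4 : ∑ d ∈ p.support with Finsupp.weight n d = v, coeff d p * ∏ i, (a i * t ^ n i) ^ d i =
      t ^ v * eval a (weightedHomogeneousComponent n v p) := by
    rw [weightedHomogeneousComponent_apply, map_sum, Finset.mul_sum]
    refine Finset.sum_congr rfl fun d hd => ?_
    have hdv := (Finset.mem_filter.mp hd).2
    rw [h1 d, hdv, MvPolynomial.eval_monomial, Finsupp.prod_fintype _ _ (fun _ => pow_zero _)]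
    ring
  rw [h4, h v, mul_zero]

/-! ### Holomorphic maps of the punctured disc -/

private theorem preconnected_puncturedDisc : IsPreconnected puncturedDisc := by
  have h : puncturedDisc = Complex.exp '' {z : ℂ | z.re < 0} := by
    ext z
    constructor
    · rintro ⟨h1, h2⟩
      have h3 : z ≠ 0 := h2
      refine ⟨Complex.log z, ?_, Complex.exp_log h3⟩
      rw [mem_ball_zero_iff] at h1
      change (Complex.log z).re < 0
      rw [Complex.log_re]
      exact Real.log_neg (norm_pos_iff.mpr h3) h1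
    · rintro ⟨w, hw, rfl⟩
      refine ⟨?_, Complex.exp_ne_zero w⟩
      rw [mem_ball_zero_iff, Complex.norm_exp]
      have h1 := Real.exp_lt_exp.mpr hw
      rwa [Real.exp_zero] at h1
  rw [h]
  exact (convex_halfSpace_re_lt 0).isPreconnected.image _ Complex.continuous_exp.continuousOn

private theorem isOpen_puncturedDisc : IsOpen puncturedDisc :=
  Metric.isOpen_ball.sdiff isClosed_singleton

private theorem mem_puncturedDisc {z : ℂ} : z ∈ puncturedDisc ↔ 0 < ‖z‖ ∧ ‖z‖ < 1 := by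
  unfold puncturedDisc
  rw [Set.mem_sdiff, mem_ball_zero_iff, Set.mem_singleton_iff, norm_pos_iff]
  exact and_comm

private theorem vanishesAt_X {x : PN N} {i : Fin (N + 1)} : VanishesAt (X i) x ↔ x.rep i = 0 := by
  unfold VanishesAt
  rw [eval_X]

private theorem vanish_local {f : ℂ → PN N} {s : ℂ} {φ : ℂ → Fin (N + 1) → ℂ}
    (hφ : AnalyticAt ℂ φ s)
    (he : ∀ᶠ z in 𝓝 s, ∃ h : φ z ≠ 0, f z = Projectivization.mk ℂ (φ z) h)
    {Q : MvPolynomial (Fin (N + 1)) ℂ} {m : ℕ} (hQ : Q.IsHomogeneous m) :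
    (∀ᶠ z in 𝓝 s, VanishesAt Q (f z)) ∨ (∀ᶠ z in 𝓝[≠] s, ¬ VanishesAt Q (f z)) := by
  have h1 : AnalyticAt ℂ (fun z => aeval (φ z) Q) s :=
    AnalyticAt.aeval_mvPolynomial (fun i => analyticAt_pi_iff.mp hφ i) Q
  rcases h1.eventually_eq_zero_or_eventually_ne_zero with h | h
  · left
    filter_upwards [h, he] with z hz hfz
    obtain ⟨h2, h3⟩ := hfz
    rw [h3, Pool.Agent.H17.vanishesAt_mk_iff hQ]
    exact hz
  · right
    filter_upwards [h, he.filter_mono nhdsWithin_le_nhds] with z hz hfz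
    obtain ⟨h2, h3⟩ := hfz
    rw [h3, Pool.Agent.H17.vanishesAt_mk_iff hQ]
    exact hz

/-- the identity principle -/
private theorem vanish_dich {f : ℂ → PN N} (hf : HolomorphicInto f puncturedDisc)
    {Q : MvPolynomial (Fin (N + 1)) ℂ} {m : ℕ} (hQ : Q.IsHomogeneous m) :
    (∀ s ∈ puncturedDisc, ∀ᶠ z in 𝓝 s, VanishesAt Q (f z)) ∨
      (∀ s ∈ puncturedDisc, ∀ᶠ z in 𝓝[≠] s, ¬ VanishesAt Q (f z)) := by
  have hou : IsOpen {s | ∀ᶠ z in 𝓝 s, VanishesAt Q (f z)} := isOpen_setOfPred_eventually_nhds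
  have hov : IsOpen {s | ∀ᶠ z in 𝓝[≠] s, ¬ VanishesAt Q (f z)} :=
    isOpen_setOfPred_eventually_nhdsWithin
  have hd : Disjoint {s | ∀ᶠ z in 𝓝 s, VanishesAt Q (f z)}
      {s | ∀ᶠ z in 𝓝[≠] s, ¬ VanishesAt Q (f z)} := by
    rw [Set.disjoint_left]
    intro s hs hs'
    have h1 : ∀ᶠ z in 𝓝 s, VanishesAt Q (f z) := hs
    have h2 : ∀ᶠ z in 𝓝[≠] s, ¬ VanishesAt Q (f z) := hs'
    obtain ⟨z, h3, h4⟩ := ((h1.filter_mono nhdsWithin_le_nhds).and h2).exists
    exact h4 h3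
  have hsub : puncturedDisc ⊆ {s | ∀ᶠ z in 𝓝 s, VanishesAt Q (f z)} ∪
      {s | ∀ᶠ z in 𝓝[≠] s, ¬ VanishesAt Q (f z)} := by
    intro s hs
    obtain ⟨φ, hφ, he⟩ := hf s hs
    exact vanish_local hφ he hQ
  by_cases hne : (puncturedDisc ∩ {s | ∀ᶠ z in 𝓝 s, VanishesAt Q (f z)}).Nonempty
  · left
    intro s hs
    exact (preconnected_puncturedDisc.subset_left_of_subset_union hou hov hd hsub hne) hs
  · right
    intro s hs
    rcases hsub hs with h | h
    · exact absurd ⟨s, hs, h⟩ hne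
    · exact h

/-- lifts and representatives -/
private theorem exists_lift {f : ℂ → PN N} (hf : HolomorphicInto f puncturedDisc) {s : ℂ}
    (hs : s ∈ puncturedDisc) : ∃ φ : ℂ → Fin (N + 1) → ℂ, (∀ i, AnalyticAt ℂ (fun z => φ z i) s) ∧
      ∀ᶠ z in 𝓝 s, ∃ c : ℂ, c ≠ 0 ∧ ∀ i, (f z).rep i = c * φ z i := by
  obtain ⟨φ, hφ, he⟩ := hf s hs
  refine ⟨φ, analyticAt_pi_iff.mp hφ, ?_⟩
  filter_upwards [he] with z hz
  obtain ⟨h1, h2⟩ := hz
  obtain ⟨a, ha, h3⟩ := Pool.Agent.H17.exists_smul_rep (φ z) h1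
  refine ⟨a, ha, fun i => ?_⟩
  rw [h2, h3]
  rfl

private theorem ord_eq_zero_of_ne {g : ℂ → ℂ} {s : ℂ} (hg : AnalyticAt ℂ g s) (h : g s ≠ 0) :
    ordZ g s = 0 := by
  unfold ordZ
  rw [hg.meromorphicOrderAt_eq, hg.analyticOrderAt_eq_zero.mpr h]
  rfl

open Classical in
/-- the coordinates of `f` which are not identically zero -/
private def nzSet (f : ℂ → PN N) : Finset (Fin (N + 1)) :=
  Finset.univ.filter fun i => ∀ s ∈ puncturedDisc, ∀ᶠ z in 𝓝[≠] s, (f z).rep i ≠ 0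

private theorem nz_mem {f : ℂ → PN N} {i : Fin (N + 1)} (hi : i ∈ nzSet f) {s : ℂ}
    (hs : s ∈ puncturedDisc) : ∀ᶠ z in 𝓝[≠] s, (f z).rep i ≠ 0 := by
  unfold nzSet at hi
  simp only [Finset.mem_filter, Finset.mem_univ, true_and] at hi
  exact hi s hs

private theorem nz_notMem {f : ℂ → PN N} (hf : HolomorphicInto f puncturedDisc)
    {i : Fin (N + 1)} (hi : i ∉ nzSet f) {s : ℂ} (hs : s ∈ puncturedDisc) : (f s).rep i = 0 := by
  rcases vanish_dich hf (isHomogeneous_X ℂ i) with h | h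
  · exact vanishesAt_X.mp (h s hs).self_of_nhds
  · exfalso
    apply hi
    unfold nzSet
    simp only [Finset.mem_filter, Finset.mem_univ, true_and]
    intro s hs
    filter_upwards [h s hs] with z hz hz'
    exact hz (vanishesAt_X.mpr hz')

private theorem quot_mero {f : ℂ → PN N} (hf : HolomorphicInto f puncturedDisc)
    (i i₀ : Fin (N + 1)) {s : ℂ} (hs : s ∈ puncturedDisc) :
    MeromorphicAt (fun z => (f z).rep i / (f z).rep i₀) s := by
  obtain ⟨φ, hφ, he⟩ := exists_lift hf hs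
  have h1 : MeromorphicAt (fun z => φ z i / φ z i₀) s :=
    (hφ i).meromorphicAt.fun_div (hφ i₀).meromorphicAt
  refine h1.congr ?_
  filter_upwards [he.filter_mono nhdsWithin_le_nhds] with z hz
  obtain ⟨c, hc, h2⟩ := hz
  rw [h2, h2, mul_div_mul_left _ _ hc]

private theorem quot_meroPunct {f : ℂ → PN N} (hf : HolomorphicInto f puncturedDisc)
    {i i₀ : Fin (N + 1)} (hi : i ∈ nzSet f) (hi₀ : i₀ ∈ nzSet f) :
    MeroPunct 1 (fun z => (f z).rep i / (f z).rep i₀) where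
  mero z h1 h2 := quot_mero hf i i₀ (mem_puncturedDisc.mpr ⟨h1, h2⟩)
  ord z h1 h2 := by
    have hs := mem_puncturedDisc.mpr ⟨h1, h2⟩
    rw [meromorphicOrderAt_ne_top_iff_eventually_ne_zero (quot_mero hf i i₀ hs)]
    filter_upwards [nz_mem hi hs, nz_mem hi₀ hs] with w h3 h4
    exact div_ne_zero h3 h4

private theorem ord_quot {f : ℂ → PN N} (hf : HolomorphicInto f puncturedDisc) {s : ℂ}
    (hs : s ∈ puncturedDisc) : ∃ o : Fin (N + 1) → ℤ, (∀ i, (f s).rep i ≠ 0 → o i = 0) ∧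
      ∀ i ∈ nzSet f, ∀ i₀ ∈ nzSet f,
        ordZ (fun z => (f z).rep i / (f z).rep i₀) s = o i - o i₀ := by
  obtain ⟨φ, hφ, he⟩ := exists_lift hf hs
  have hne : ∀ i ∈ nzSet f, ∀ᶠ z in 𝓝[≠] s, φ z i ≠ 0 := by
    intro i hi
    filter_upwards [he.filter_mono nhdsWithin_le_nhds, nz_mem hi hs] with z hz h1 h2
    obtain ⟨c, hc, h3⟩ := hz
    apply h1
    rw [h3, h2, mul_zero]
  have htop : ∀ i ∈ nzSet f, meromorphicOrderAt (fun z => φ z i) s ≠ ⊤ := fun i hi =>
    (meromorphicOrderAt_ne_top_iff_eventually_ne_zero (hφ i).meromorphicAt).mpr (hne i hi)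
  refine ⟨fun i => ordZ (fun z => φ z i) s, ?_, ?_⟩
  · intro i hi
    refine ord_eq_zero_of_ne (hφ i) fun h => hi ?_
    obtain ⟨c, hc, h2⟩ := he.self_of_nhds
    rw [h2, h, mul_zero]
  · intro i hi i₀ hi₀
    have h1 : (fun z => φ z i) =ᶠ[𝓝[≠] s]
        (fun z => ((f z).rep i / (f z).rep i₀) * φ z i₀) := by
      filter_upwards [he.filter_mono nhdsWithin_le_nhds, hne i₀ hi₀] with z hz h3
      obtain ⟨c, hc, h2⟩ := hz
      rw [h2, h2, mul_div_mul_left _ _ hc, div_mul_cancel₀ _ h3]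
    have h2 := meromorphicOrderAt_congr h1
    have h3 : meromorphicOrderAt (fun z => ((f z).rep i / (f z).rep i₀) * φ z i₀) s =
        meromorphicOrderAt (fun z => (f z).rep i / (f z).rep i₀) s +
          meromorphicOrderAt (fun z => φ z i₀) s :=
      fun_meromorphicOrderAt_mul (quot_mero hf i i₀ hs) (hφ i₀).meromorphicAt
    have h5 := mem_puncturedDisc.mp hs
    rw [h3, ← Pool.Agent.H92.GGL.ordZ_cast (htop i hi),
      ← Pool.Agent.H92.GGL.ordZ_cast (htop i₀ hi₀),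
      ← Pool.Agent.H92.GGL.ordZ_cast ((quot_meroPunct hf hi hi₀).ord s h5.1 h5.2)] at h2
    have h4 : ordZ (fun z => φ z i) s =
        ordZ (fun z => (f z).rep i / (f z).rep i₀) s + ordZ (fun z => φ z i₀) s := by
      exact_mod_cast h2
    change _ = ordZ (fun z => φ z i) s - ordZ (fun z => φ z i₀) s
    linarith

private theorem eval_quot {T : Finset (Fin (N + 1))} {q : MvPolynomial {i // i ∈ T} ℂ} {m : ℕ}
    (hq : q.IsHomogeneous m) (x : Fin (N + 1) → ℂ) {i₀ : Fin (N + 1)} (h : x i₀ ≠ 0) :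
    eval (fun i : {i // i ∈ T} => x i) q =
      x i₀ ^ m * eval (fun i : {i // i ∈ T} => x i / x i₀) q := by
  rw [← Pool.Agent.H17.eval_smul_of_isHomogeneous hq]
  congr 1
  congr 1
  funext i
  field_simp

private theorem eventually_mem_puncturedDisc {s : ℂ} (hs : s ∈ puncturedDisc) :
    ∀ᶠ z in 𝓝[≠] s, z ∈ puncturedDisc := by
  have h : ∀ᶠ z in 𝓝 s, z ∈ puncturedDisc := isOpen_puncturedDisc.mem_nhds hs
  exact h.filter_mono nhdsWithin_le_nhds

private theorem eventually_puncturedDisc_zero : ∀ᶠ z in 𝓝[≠] (0 : ℂ), z ∈ puncturedDisc := by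
  have h1 : ∀ᶠ z in 𝓝 (0 : ℂ), z ∈ Metric.ball (0 : ℂ) 1 :=
    Metric.ball_mem_nhds (0 : ℂ) one_pos
  filter_upwards [h1.filter_mono nhdsWithin_le_nhds, self_mem_nhdsWithin] with z h2 h3
  exact ⟨h2, h3⟩

/-! D-C -/
theorem picard {k d : ℕ}
    (hA : ∀ l, (A l).IsHomogeneous (e l)) (hk : ∀ l, (A l).support.card ≤ k)
    (hdiv : ∀ l, ∀ a ∈ (A l).support, ∀ i ∉ O, d ∣ a i) (hd : k * (k - 2) < d)
    {f : ℂ → PN N} (hf : HolomorphicInto f puncturedDisc)
    (hfX : ∀ z ∈ puncturedDisc, f z ∈ openLocus A O)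
    (hne : ∃ z ∈ puncturedDisc, f z ∉ excSet (openLocus A O)) :
    ∃ g : ℂ → PN N, HolomorphicInto g (Metric.ball 0 1) ∧ ∀ z ∈ puncturedDisc, g z = f z := by
  classical
  obtain ⟨z₀, hz₀, hz₀'⟩ := hne
  set T : Finset (Fin (N + 1)) := nzSet f with hT
  have hOT : ∀ i ∈ O, i ∈ T := by
    intro i hi
    by_contra hcon
    exact (hfX z₀ hz₀).2 i hi (nz_notMem hf hcon hz₀)
  obtain ⟨i₀, hi₀⟩ : ∃ i, (f z₀).rep i ≠ 0 := by
    by_contra hcon
    push Not at hcon
    exact (f z₀).rep_nonzero (funext hcon)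
  have hi₀T : i₀ ∈ T := by
    by_contra hcon
    exact hi₀ (nz_notMem hf hcon hz₀)
  -- evaluation of the restricted polynomials
  have hevalA : ∀ (q : MvPolynomial (Fin (N + 1)) ℂ), ∀ z ∈ puncturedDisc,
      eval (fun i : {i // i ∈ T} => (f z).rep i) (restr T q) = eval (f z).rep q :=
    fun q z hz => restr_eval q _ fun i hi => nz_notMem hf hi hz
  have hPunct : ∀ i : {i // i ∈ T},
      MeroPunct 1 ((fun (i : {i // i ∈ T}) (z : ℂ) => (f z).rep i / (f z).rep i₀) i) :=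
    fun i => quot_meroPunct hf i.2 hi₀T
  have hcard : ∀ l, ((fun l => restr T (A l)) l).support.card ≤ k := fun l =>
    (restr_card T (A l)).trans (hk l)
  have hrel : ∀ l z, 0 < ‖z‖ → ‖z‖ < 1 → ∀ᶠ ζ in 𝓝[≠] z,
      eval (fun i : {i // i ∈ T} => (f ζ).rep i / (f ζ).rep i₀) (restr T (A l)) = 0 := by
    intro l z h1 h2
    have hz := mem_puncturedDisc.mpr ⟨h1, h2⟩
    filter_upwards [eventually_mem_puncturedDisc hz, nz_mem hi₀T hz] with ζ hζ h3
    have h4 := eval_quot (restr_homog (T := T) (hA l)) (f ζ).rep h3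
    rw [hevalA (A l) ζ hζ] at h4
    have h5 : eval (f ζ).rep (A l) = 0 := (hfX ζ hζ).1 l
    rw [h5] at h4
    exact (mul_eq_zero.mp h4.symm).resolve_left (pow_ne_zero _ h3)
  have hdivP : ∀ l, ∀ a ∈ (restr T (A l)).support, ∀ b ∈ (restr T (A l)).support,
      ∀ z, 0 < ‖z‖ → ‖z‖ < 1 → (d : ℤ) ∣ ∑ i : {i // i ∈ T}, ((a i : ℤ) - b i) *
        ordZ (fun z => (f z).rep i / (f z).rep i₀) z := by
    intro l a ha b hb z h1 h2
    have hz := mem_puncturedDisc.mpr ⟨h1, h2⟩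
    obtain ⟨o, ho1, ho2⟩ := ord_quot hf hz
    obtain ⟨a', ha1, ha2, ha3⟩ := restr_support ha
    obtain ⟨b', hb1, hb2, hb3⟩ := restr_support hb
    have hdeg : ∀ c' ∈ (A l).support, ∑ i, (c' i : ℤ) = e l := by
      intro c' hc'
      have h3 : c'.degree = e l := by
        by_contra hne
        exact (mem_support_iff.mp hc') ((hA l).coeff_eq_zero hne)
      rw [← h3, Finsupp.degree_eq_sum]
      push_cast
      rfl
    have h4 : ∑ i : {i // i ∈ T}, ((a i : ℤ) - b i) *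
        ordZ (fun z => (f z).rep i / (f z).rep i₀) z =
        ∑ i : {i // i ∈ T}, ((a' i : ℤ) - b' i) * o i := by
      have h5 : ∀ i : {i // i ∈ T}, ((a i : ℤ) - b i) *
          ordZ (fun z => (f z).rep i / (f z).rep i₀) z =
          ((a' i : ℤ) - b' i) * o i - ((a' i : ℤ) - b' i) * o i₀ := by
        intro i
        rw [ho2 i i.2 i₀ hi₀T, ha3 i, hb3 i]
        ring
      rw [Finset.sum_congr rfl fun i _ => h5 i, Finset.sum_sub_distrib, ← Finset.sum_mul,
        Finset.sum_sub_distrib]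
      have h6 : ∑ i : {i // i ∈ T}, (a' i : ℤ) = e l := by
        rw [restr_sum (fun i => (a' i : ℤ)) (fun i hi => by simp [ha2 i hi])]
        exact hdeg a' ha1
      have h7 : ∑ i : {i // i ∈ T}, (b' i : ℤ) = e l := by
        rw [restr_sum (fun i => (b' i : ℤ)) (fun i hi => by simp [hb2 i hi])]
        exact hdeg b' hb1
      rw [h6, h7]
      ring
    rw [h4]
    refine Finset.dvd_sum fun i _ => ?_
    by_cases hiO : (i : Fin (N + 1)) ∈ O
    · rw [ho1 i ((hfX z hz).2 i hiO), mul_zero]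
      exact dvd_zero _
    · have h5 : (d : ℤ) ∣ (a' i : ℤ) := by exact_mod_cast hdiv l a' ha1 i hiO
      have h6 : (d : ℤ) ∣ (b' i : ℤ) := by exact_mod_cast hdiv l b' hb1 i hiO
      exact Dvd.dvd.mul_right (dvd_sub h5 h6) _
  have hlev : ∀ n : {i // i ∈ T} → ℤ, (∀ l v z, 0 < ‖z‖ → ‖z‖ < 1 → ∀ᶠ ζ in 𝓝[≠] z,
      eval (fun i : {i // i ∈ T} => (f ζ).rep i / (f ζ).rep i₀)
        (weightedHomogeneousComponent n v (restr T (A l))) = 0) → ∀ i j, n i = n j := by
    intro n hn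
    by_contra hcon
    push Not at hcon
    obtain ⟨i₁, j₁, hij⟩ := hcon
    -- the level forms vanish along `f`
    have hform : ∀ l v, ∀ z ∈ puncturedDisc, eval (fun i : {i // i ∈ T} => (f z).rep i)
        (weightedHomogeneousComponent n v (restr T (A l))) = 0 := by
      intro l v
      have hQ : (rename (Subtype.val : {i // i ∈ T} → Fin (N + 1))
          (weightedHomogeneousComponent n v (restr T (A l)))).IsHomogeneous (e l) :=
        (whc_homog (restr_homog (hA l)) n v).rename_isHomogeneous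
      have hQv : ∀ z, VanishesAt (rename (Subtype.val : {i // i ∈ T} → Fin (N + 1))
          (weightedHomogeneousComponent n v (restr T (A l)))) (f z) ↔
          eval (fun i : {i // i ∈ T} => (f z).rep i)
            (weightedHomogeneousComponent n v (restr T (A l))) = 0 := by
        intro z
        unfold VanishesAt
        rw [eval_rename]
        rfl
      rcases vanish_dich hf hQ with h | h
      · intro z hz
        exact (hQv z).mp (h z hz).self_of_nhds
      · exfalso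
        have h1 := mem_puncturedDisc.mp hz₀
        obtain ⟨ζ, ⟨h2, h3⟩, h4⟩ :=
          (((hn l v z₀ h1.1 h1.2).and (nz_mem hi₀T hz₀)).and (h z₀ hz₀)).exists
        apply h4
        rw [hQv, eval_quot (whc_homog (restr_homog (hA l)) n v) (f ζ).rep h3, h2, mul_zero]
    -- the generic points lie on monomial curves
    have hcurve : ∀ z ∈ puncturedDisc, (∀ i ∈ T, (f z).rep i ≠ 0) →
        f z ∈ monomialCurves (openLocus A O) := by
      intro z hz hzT
      refine ⟨(f z).rep, (f z).rep_nonzero, fun i => if h : i ∈ T then n ⟨i, h⟩ else 0,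
        ((f z).mk_rep).symm, ⟨i₁, j₁, hzT _ i₁.2, hzT _ j₁.2, ?_⟩, ?_⟩
      · beta_reduce
        rw [dif_pos i₁.2, dif_pos j₁.2]
        exact hij
      · intro t h ht
        constructor
        · intro l
          rw [Pool.Agent.H17.vanishesAt_mk_iff (hA l)]
          rw [← restr_eval (T := T) (A l) _ (fun i hi => by
            rw [nz_notMem hf hi hz, zero_mul])]
          have h1 := eval_level (restr T (A l)) n (fun i : {i // i ∈ T} => (f z).rep i)
            (fun v => hform l v z hz) ht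
          rw [← h1]
          congr 1
          congr 1
          funext i
          beta_reduce
          rw [dif_pos i.2]
        · intro i hi hcon
          obtain ⟨a, ha, h1⟩ := Pool.Agent.H17.exists_smul_rep _ h
          rw [h1, Pi.smul_apply, smul_eq_mul] at hcon
          rcases mul_eq_zero.mp hcon with h2 | h2
          · exact ha h2
          · rcases mul_eq_zero.mp h2 with h3 | h3
            · exact hzT i (hOT i hi) h3
            · exact zpow_ne_zero _ ht h3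
    -- hence all points of the curve lie in the exceptional set
    apply hz₀'
    refine ⟨hfX z₀ hz₀, fun m Q hQ hQv => ?_⟩
    rcases vanish_dich hf hQ with h | h
    · exact (h z₀ hz₀).self_of_nhds
    · exfalso
      have h1 : ∀ᶠ z in 𝓝[≠] z₀, ∀ i ∈ T, (f z).rep i ≠ 0 :=
        (Filter.eventually_all_finset T).mpr fun i hi => nz_mem hi hz₀
      obtain ⟨ζ, ⟨h2, h3⟩, h4⟩ :=
        ((h1.and (eventually_mem_puncturedDisc hz₀)).and (h z₀ hz₀)).exists
      exact h4 (hQv _ (hcurve ζ h3 h2))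
  have hmero := punct_dichotomy (κ := κ) one_pos
    (ξ := fun (i : {i // i ∈ T}) (z : ℂ) => (f z).rep i / (f z).rep i₀)
    hPunct (P := fun l => restr T (A l)) hcard hd hrel hdivP hlev
  refine exists_extension hf (i₀ := i₀) ?_ ?_
  · filter_upwards [eventually_puncturedDisc_zero] with z hz
    exact nz_mem hi₀T hz
  · intro i
    by_cases hi : i ∈ T
    · obtain ⟨v, hv1, hv2⟩ := hmero ⟨i, hi⟩ ⟨i₀, hi₀T⟩
      refine ⟨v, hv1, ?_⟩
      filter_upwards [hv2, eventually_puncturedDisc_zero] with z hz hzD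
      refine Filter.EventuallyEq.trans ?_ hz
      filter_upwards [nz_mem hi₀T hzD] with ζ hζ
      rw [div_self hζ, div_one]
    · refine ⟨fun _ => 0, analyticAt_const.meromorphicAt, ?_⟩
      filter_upwards [eventually_puncturedDisc_zero] with z hzD
      filter_upwards [eventually_mem_puncturedDisc hzD] with ζ hζ
      rw [nz_notMem hf hi hζ, zero_div]

private theorem eq_of_sep {p q : PN N} (h : Pool.Agent.H17.sep p q = 0) : p = q := by
  have h1 := Pool.Agent.H17.eq_of_sepv_eq_zero p.rep_nonzero q.rep_nonzero h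
  rwa [p.mk_rep, q.mk_rep] at h1

/-! D-D -/
theorem brody {k d : ℕ}
    (hA : ∀ l, (A l).IsHomogeneous (e l)) (hk : ∀ l, (A l).support.card ≤ k)
    (hdiv : ∀ l, ∀ a ∈ (A l).support, ∀ i ∉ O, d ∣ a i) (hd : k * (k - 2) < d)
    {f : ℂ → PN N} (hf : HolomorphicInto f Set.univ) (hfX : ∀ z, f z ∈ openLocus A O)
    (hne : ∃ z w, f z ≠ f w) (z : ℂ) : f z ∈ excSet (openLocus A O) := by
  by_contra hz1
  -- a point different from `0` outside the exceptional set
  obtain ⟨w₀, hw₀, hw₀'⟩ : ∃ w, w ≠ 0 ∧ f w ∉ excSet (openLocus A O) := by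
    by_cases hz0 : z = 0
    · subst hz0
      have h1 : ∃ (m : ℕ) (Q : MvPolynomial (Fin (N + 1)) ℂ), Q.IsHomogeneous m ∧
          (∀ y ∈ monomialCurves (openLocus A O), VanishesAt Q y) ∧ ¬ VanishesAt Q (f 0) := by
        by_contra hcon
        push Not at hcon
        exact hz1 ⟨hfX 0, fun m Q hQ hQv => hcon m Q hQ hQv⟩
      obtain ⟨m, Q, hQ, hQv, hQ0⟩ := h1
      obtain ⟨φ, hφ, he⟩ := hf 0 (Set.mem_univ 0)
      rcases vanish_local hφ he hQ with h | h
      · exact absurd h.self_of_nhds hQ0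
      · obtain ⟨w, hw1, hw2⟩ := (h.and self_mem_nhdsWithin).exists
        exact ⟨w, hw2, fun hw3 => hw1 (hw3.2 m Q hQ hQv)⟩
    · exact ⟨z, hz0, hz1⟩
  have hseq : ∀ w : ℂ, w ≠ 0 → ∃ zs : ℕ → ℂ, Tendsto zs atTop (𝓝 0) ∧
      ∀ᶠ n in atTop, zs n ∈ puncturedDisc ∧ Complex.exp (zs n)⁻¹ = w := by
    intro w hw
    obtain ⟨zs, h1, h2⟩ := Pool.Agent.H99.Cover.exists_seq_exp_inv w hw
    refine ⟨zs, h1, ?_⟩
    filter_upwards [h2, h1.eventually (Metric.ball_mem_nhds (0 : ℂ) one_pos)] with n h3 h4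
    exact ⟨⟨h4, h3.1⟩, h3.2⟩
  have hgh : HolomorphicInto (fun z => f (Complex.exp z⁻¹)) puncturedDisc := by
    refine Pool.Agent.H17.HolomorphicInto.comp hf (u := fun z => Complex.exp z⁻¹) ?_
      (fun _ _ => Set.mem_univ _)
    intro z hz
    have h1 : z ≠ 0 := hz.2
    exact (analyticAt_inv h1).cexp
  obtain ⟨g, hg, hge⟩ := picard hA hk hdiv hd hgh (fun z _ => hfX _) (by
    obtain ⟨zs, -, h2⟩ := hseq w₀ hw₀
    obtain ⟨n, h3, h4⟩ := h2.exists
    refine ⟨zs n, h3, ?_⟩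
    rw [h4]
    exact hw₀')
  -- the map is constant off `0`
  have hconst : ∀ w : ℂ, w ≠ 0 → f w = g 0 := by
    intro w hw
    apply eq_of_sep
    obtain ⟨zs, h1, h2⟩ := hseq w hw
    have h3 := Pool.Agent.H17.tendsto_sep hg (Metric.mem_ball_self one_pos)
    have h4 : Tendsto (fun n => (zs n, (0 : ℂ))) atTop (𝓝 ((0 : ℂ), (0 : ℂ))) :=
      h1.prodMk_nhds tendsto_const_nhds
    have h5 := h3.comp h4
    refine tendsto_nhds_unique (tendsto_const_nhds.congr' ?_) h5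
    filter_upwards [h2] with n hn
    change Pool.Agent.H17.sep (f w) (g 0) = Pool.Agent.H17.sep (g (zs n)) (g 0)
    rw [hge (zs n) hn.1, hn.2]
  have hconst0 : f 0 = g 0 := by
    symm
    apply eq_of_sep
    have h3 := Pool.Agent.H17.tendsto_sep hf (Set.mem_univ (0 : ℂ))
    have h4 : Tendsto (fun w : ℂ => (w, (0 : ℂ))) (𝓝[≠] 0) (𝓝 ((0 : ℂ), (0 : ℂ))) :=
      (tendsto_id.mono_left nhdsWithin_le_nhds).prodMk_nhds tendsto_const_nhds
    have h5 := h3.comp h4
    refine tendsto_nhds_unique (tendsto_const_nhds.congr' ?_) h5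
    filter_upwards [self_mem_nhdsWithin] with w hw
    change Pool.Agent.H17.sep (g 0) (f 0) = Pool.Agent.H17.sep (f w) (f 0)
    rw [hconst w hw]
  have hall : ∀ w, f w = g 0 := by
    intro w
    by_cases hw : w = 0
    · rw [hw]
      exact hconst0
    · exact hconst w hw
  obtain ⟨a, b, hab⟩ := hne
  exact hab ((hall a).trans (hall b).symm)

end Pool.Agent.H62.FC

end
end
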