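import Pool.Agent.H94.G5T.M109
import Pool.Agent.H94.G5T.M116
import Pool.Agent.H94.G5T.M31
import Pool.Agent.H94.G5T.M51
import Pool.Agent.H94.G5T.M99

/-! The parts of this file: H22.TB.Defs, G3.F.FDefs, G4.V.Defs. -/

section

/-!
# TB Defs: three of the properties of the Green-Griffiths-Lang conjecture, and (iv) for curves
-/

set_option autoImplicit false

open MvPolynomial

noncomputable section

namespace Pool.Agent.H22.TB

open Pool.Agent.H17 (PN VanishesAt HolomorphicInto puncturedDisc ZariskiClosedIn)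
open Pool.Agent.H17LG.Variety (FunField IsLogGeneralType)
open Pool.Agent.H62.FC (Homog)
open Pool.Agent.H17EF (projVar)

variable {N : ℕ}

/-- Three of the properties of the conjecture for the closed subvariety of `ℙ^N` given by `P`, with the exceptional set `Ξ`: general type, pseudo Picard
hyperbolic, pseudo Brody hyperbolic; and every closed subvariety of dimension one which is not contained in `Ξ` is of general type. -/
structure GGLC (P : Ideal (MvPolynomial (Fin (N + 1)) ℂ)) [P.IsPrime] (Ξ : Set (PN N)) : Prop where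
  closed : ZariskiClosedIn (projVar P) Ξ
  proper : Ξ ≠ projVar P
  generalType : ∀ w, 1 ≤ w → (∃ z : Fin w → FunField P, IsTranscendenceBasis ℂ z) →
    IsLogGeneralType (K := FunField P) (k := w) fun _ => False
  picard : ∀ f : ℂ → PN N, HolomorphicInto f puncturedDisc → (∀ z ∈ puncturedDisc, f z ∈ projVar P) →
    (∃ z ∈ puncturedDisc, f z ∉ Ξ) →
    ∃ g : ℂ → PN N, HolomorphicInto g (Metric.ball 0 1) ∧ ∀ z ∈ puncturedDisc, g z = f z
  brody : ∀ f : ℂ → PN N, HolomorphicInto f Set.univ → (∀ z, f z ∈ projVar P) → (∃ z w, f z ≠ f w) → ∀ z, f z ∈ Ξ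
  strongly : ∀ (Q : Ideal (MvPolynomial (Fin (N + 1)) ℂ)) [Q.IsPrime], Homog Q → P ≤ Q → ¬ projVar Q ⊆ Ξ →
    (∃ z : Fin 1 → FunField Q, IsTranscendenceBasis ℂ z) → IsLogGeneralType (K := FunField Q) (k := 1) fun _ => False

end Pool.Agent.H22.TB

end
end

section

/-!
# G3 FDefs: projective manifolds of dimension `n + 1` over complex tori of dimension `n`, with arbitrary singular fibres: the definitions of the final theorem

`X` is a smooth projective variety of dimension `n + 1`, `n = k + 1` (in the final theorem `n = 2`), `u` a holomorphic map from `X` to a complex torus `ℂ^n / Λ`.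
`D ⊆ ℂ^n` is a `Λ`-invariant analytic subset outside which `u` is a submersion; outside the set `B`, finite modulo `Λ`, the set `D` is smooth and the map `u` is
`(x^a y^b, s)` in suitable local coordinates (`IsSingularLocus`).  The other data are

* `HasTopForms`: holomorphic `(n + 1)`-forms on `X` with values in the dual of a positive line bundle of the torus (on a finite covering `X'` induced from the torus), without
  common zero outside `D`;
* `HasSymmetricForms`: symmetric differentials of `X` with values in `O(-1)` and in a line bundle of the torus, without common zero outside `D`;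
* `HasJetForms`: for every direction `ν` a jet differential with values in `O(-1)`, not `0`, on the curves in `X` over lines in the direction `ν`, holomorphic where `u` is a
  submersion.

`x`, `v` are homogeneous coordinates and tangent vectors of the cone over `X`.
-/

set_option autoImplicit false

open Topology Filter MvPolynomial
open Pool.Agent.H17 (PN VanishesAt HolomorphicInto puncturedDisc)
open Pool.Agent.H17G (IsTangent)
open Pool.Agent.TGF (Cn Over Submersion NormalCrossing IsCoord IsAnalyticSubset)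

noncomputable section

namespace Pool.Agent.G3F

variable {N k : ℕ}

/-- `D` contains the critical values of `u`, and the map is of normal crossing type over `D \ B`. -/
structure IsSingularLocus (X : Set (PN N)) (Λ : AddSubgroup (Cn (k + 1))) (u : PN N → Cn (k + 1) ⧸ Λ) (D B : Set (Cn (k + 1))) : Prop where
  analytic : IsAnalyticSubset D
  proper : D ≠ Set.univ
  invariant : ∀ y ∈ D, ∀ l ∈ Λ, y + l ∈ D
  /-- the set `B` is finite modulo `Λ` -/
  small : ∃ S : Set (Cn (k + 1)), S.Finite ∧ ∀ b ∈ B, ∃ s ∈ S, b - s ∈ Λ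
  submersion : ∀ y ∉ D, ∀ x ∈ X, u x = (y : Cn (k + 1) ⧸ Λ) → Submersion X Λ u y x
  crossing : ∀ y ∈ D, y ∉ B → ∃ κ : Cn (k + 1) → Cn (k + 1), IsCoord D κ y ∧ ∀ x ∈ X, u x = (y : Cn (k + 1) ⧸ Λ) → NormalCrossing X Λ u κ x

/-- The function `∑ |W i y|²`, for linear forms `W i`. -/
def weight {r : ℕ} (W : Fin r → Cn (k + 1) →L[ℂ] ℂ) (y : Cn (k + 1)) : ℝ := ∑ i, ‖W i y‖ ^ 2

/-- `Ω` is a holomorphic `(k + 2)`-form on `{(x, y) : u x = y mod Λ}` which is quasi-periodic for `Γ`, with the factors of the theta functions of the weight `W`: the function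
`|Ω| exp (weight W y)` is `Γ`-periodic. -/
structure IsTwistedTopForm (X : Set (PN N)) (Λ Γ : AddSubgroup (Cn (k + 1))) (u : PN N → Cn (k + 1) ⧸ Λ) {r : ℕ} (W : Fin r → Cn (k + 1) →L[ℂ] ℂ)
    (Ω : Cn (k + 1) → Cn (N + 1) → (Fin (k + 2) → Cn (N + 1)) → ℂ) : Prop where
  quasiPeriodic : ∀ l ∈ Γ, ∃ (L : Cn (k + 1) →L[ℂ] ℂ) (c : ℂ), (∀ y, ‖Complex.exp (L y + c)‖ = Real.exp (weight W y - weight W (y + l))) ∧
    ∀ y x, Over X Λ u y x → ∀ v : Fin (k + 2) → Cn (N + 1), (∀ i, IsTangent X x (v i)) → Ω (y + l) x v = Complex.exp (L y + c) * Ω y x v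
  /-- the form depends only on the images of the tangent vectors in the tangent space of the projective space -/
  horizontal : ∀ y x, Over X Λ u y x → ∀ v : Fin (k + 2) → Cn (N + 1), (∀ i, IsTangent X x (v i)) → ∀ a : Fin (k + 2) → ℂ,
    Ω y x (fun i => v i + a i • x) = Ω y x v
  /-- the form is multilinear and alternating -/
  alternating : ∀ y x, Over X Λ u y x → ∀ v : Fin (k + 2) → Cn (N + 1), (∀ i, IsTangent X x (v i)) → ∀ A : Matrix (Fin (k + 2)) (Fin (k + 2)) ℂ,
    Ω y x (fun i => ∑ j, A i j • v j) = A.det * Ω y x v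
  /-- the form does not depend on the choice of the homogeneous coordinates -/
  homogeneous : ∀ y x, Over X Λ u y x → ∀ v : Fin (k + 2) → Cn (N + 1), (∀ i, IsTangent X x (v i)) → ∀ c : ℂ, c ≠ 0 →
    Ω y (c • x) (fun i => c • v i) = Ω y x v
  /-- the form is holomorphic -/
  holomorphic : ∀ (φ : Cn (k + 2) → Cn (N + 1)) (υ : Cn (k + 2) → Cn (k + 1)) (p : Cn (k + 2)), AnalyticAt ℂ φ p → AnalyticAt ℂ υ p →
    (∀ᶠ q in 𝓝 p, Over X Λ u (υ q) (φ q)) → AnalyticAt ℂ (fun q => Ω (υ q) (φ q) fun i => fderiv ℂ φ q (Pi.single i 1)) p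

/-- There are finitely many holomorphic `(k + 2)`-forms, with the factors of the inverses of theta functions for a subgroup `Γ` of finite index in `Λ` and a positive
definite weight, without common zero outside `D`. -/
def HasTopForms (X : Set (PN N)) (Λ : AddSubgroup (Cn (k + 1))) (u : PN N → Cn (k + 1) ⧸ Λ) (D : Set (Cn (k + 1))) : Prop :=
  ∃ (Γ : AddSubgroup (Cn (k + 1))) (r J : ℕ) (W : Fin r → Cn (k + 1) →L[ℂ] ℂ) (Ω : Fin J → Cn (k + 1) → Cn (N + 1) → (Fin (k + 2) → Cn (N + 1)) → ℂ),
    Γ ≤ Λ ∧ Submodule.span ℝ (Γ : Set (Cn (k + 1))) = ⊤ ∧ (∀ y, (∀ i, W i y = 0) → y = 0) ∧ (∀ j, IsTwistedTopForm X Λ Γ u W (Ω j)) ∧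
    ∀ y ∉ D, ∀ x, Over X Λ u y x → ∃ (j : Fin J) (v : Fin (k + 2) → Cn (N + 1)), (∀ i, IsTangent X x (v i)) ∧ Ω j y x v ≠ 0

/-- The curve `φ`, given by homogeneous coordinates, is near `0` a holomorphic curve in `X` over a line in the direction `ν`. -/
def IsCurveOver (X : Set (PN N)) (Λ : AddSubgroup (Cn (k + 1))) (u : PN N → Cn (k + 1) ⧸ Λ) (ν : Cn (k + 1)) (φ : ℂ → Cn (N + 1)) : Prop :=
  AnalyticAt ℂ φ 0 ∧ ∃ y, ∀ᶠ t in 𝓝 (0 : ℂ), Over X Λ u (y + t • ν) (φ t)

/-- The derivatives of order at most `m` of `φ` at `0`. -/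
def jet (m : ℕ) (φ : ℂ → Cn (N + 1)) : Fin (m + 1) → Cn (N + 1) := fun j => iteratedDeriv j φ 0

/-- `Ψ` is a jet differential of order `m`, with values in `O(-1)`, on the holomorphic curves over lines in the direction `ν`, in the open set of `X` on which `u` is a
submersion; it is `0` on no nonempty open set. -/
structure IsJetForm (X : Set (PN N)) (Λ : AddSubgroup (Cn (k + 1))) (u : PN N → Cn (k + 1) ⧸ Λ) (ν : Cn (k + 1)) (m : ℕ)
    (Ψ : (Fin (m + 1) → Cn (N + 1)) → ℂ) : Prop where
  /-- the values are in `O(-1)` -/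
  homogeneous : ∀ φ : ℂ → Cn (N + 1), IsCurveOver X Λ u ν φ → ∀ c : ℂ → ℂ, AnalyticAt ℂ c 0 → c 0 ≠ 0 →
    Ψ (jet m fun t => c t • φ t) = (c 0)⁻¹ * Ψ (jet m φ)
  /-- the form is holomorphic at the points at which `u` is a submersion -/
  holomorphic : ∀ (r : ℕ) (φ : Cn r × ℂ → Cn (N + 1)) (p : Cn r), AnalyticAt ℂ φ (p, 0) →
    (∃ (y : Cn (k + 1)) (h : φ (p, 0) ≠ 0), Submersion X Λ u y (Projectivization.mk ℂ (φ (p, 0)) h)) →
    (∀ᶠ q : Cn r × ℂ in 𝓝 (p, 0), ∃ y, Over X Λ u y (φ (q.1, 0)) ∧ Over X Λ u (y + q.2 • ν) (φ q)) → AnalyticAt ℂ (fun q => Ψ (jet m fun t => φ (q, t))) p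
  nonzero : ∀ y x, Over X Λ u y x → ∀ U ∈ 𝓝 x, ∃ φ, IsCurveOver X Λ u ν φ ∧ φ 0 ∈ U ∧ Ψ (jet m φ) ≠ 0

/-- The Kobayashi-Royden metric of `X` is bounded below near the point `x`: for all holomorphic maps `f` from the unit disc to `X` with `f 0` near `x` (`F` is a
lift of `f` near `0`, with `F 0` near a representative of `x`) the length of the derivative of `f` at `0` with respect to the Fubini-Study metric is at
most `C`. -/
def MetricPositiveAt (X : Set (PN N)) (x : PN N) : Prop :=
  ∃ C : ℝ, ∀ᶠ v in 𝓝 x.rep, ∀ (f : ℂ → PN N) (F : ℂ → Cn (N + 1)), HolomorphicInto f (Metric.ball 0 1) →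
    (∀ z ∈ Metric.ball (0 : ℂ) 1, f z ∈ X) → AnalyticAt ℂ F 0 →
    (∀ᶠ z in 𝓝 (0 : ℂ), ∃ h : F z ≠ 0, f z = Projectivization.mk ℂ (F z) h) → F 0 = v →
    ∃ a : ℂ, ‖deriv F 0 - a • F 0‖ ≤ C * ‖F 0‖

end Pool.Agent.G3F

end
end

section

/-!
# G4 V Defs: the conjecture for quasi-projective varieties

`GGLCOpen`: (i), (ii), (iii), and (iv) for curves, for the quasi-projective variety `U = locVar P G` (the points of the closed subvariety of `ℙ^N` given by `P` at which one of the forms `G m` is not `0`).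
`IsHyperbolic`: the conclusion of the main theorem.  The case `G = {1}` of `quasiProjective` are the projective varieties.
-/

set_option autoImplicit false

open Topology Filter MvPolynomial
open Pool.Agent.H17 (PN VanishesAt ZariskiClosedIn HolomorphicInto puncturedDisc)
open Pool.Agent.H62.FC (Homog)
open Pool.Agent.H62.SA (locVar OnBd)
open Pool.Agent.H62.Qe (IsEtaleOver)
open Pool.Agent.H17LG.Variety (FunField IsLogGeneralType)
open Pool.Agent.H17EF (projVar)
open Pool.Agent.H22.TB (GGLC)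
open Pool.Agent.TGF (Cn Over)
open Pool.Agent.G3F (MetricPositiveAt)

noncomputable section

namespace Pool.Agent.G4F

variable {N k : ℕ}

/-- Three of the properties of the conjecture for the quasi-projective variety `U = locVar P G`, with the exceptional set `Ξ`: log general type, pseudo Picard hyperbolic, pseudo Brody hyperbolic; and every closed
subvariety of `U` of dimension one which is not contained in `Ξ` is of log general type. -/
structure GGLCOpen (P : Ideal (MvPolynomial (Fin (N + 1)) ℂ)) [P.IsPrime] {s : ℕ} (G : Fin s → MvPolynomial (Fin (N + 1)) ℂ) (Ξ : Set (PN N)) : Prop where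
  closed : ZariskiClosedIn (locVar P G) Ξ
  proper : Ξ ≠ locVar P G
  logGeneralType : ∀ w, 1 ≤ w → (∃ z : Fin w → FunField P, IsTranscendenceBasis ℂ z) → IsLogGeneralType (OnBd P G (k := w))
  picard : ∀ f : ℂ → PN N, HolomorphicInto f puncturedDisc → (∀ z ∈ puncturedDisc, f z ∈ locVar P G) → (∃ z ∈ puncturedDisc, f z ∉ Ξ) →
    ∃ g : ℂ → PN N, HolomorphicInto g (Metric.ball 0 1) ∧ ∀ z ∈ puncturedDisc, g z = f z
  brody : ∀ f : ℂ → PN N, HolomorphicInto f Set.univ → (∀ z, f z ∈ locVar P G) → (∃ z w, f z ≠ f w) → ∀ z, f z ∈ Ξ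
  strongly : ∀ (Q : Ideal (MvPolynomial (Fin (N + 1)) ℂ)) [Q.IsPrime], Homog Q → P ≤ Q → ¬ locVar Q G ⊆ Ξ →
    (∃ z : Fin 1 → FunField Q, IsTranscendenceBasis ℂ z) → IsLogGeneralType (OnBd Q G (k := 1))

/-- The conclusion, for the variety `X` of dimension `k + 2` given by `P`: `X` is hyperbolic modulo the hypersurface `Q = 0`, and the conjecture (with (iv) for curves) holds for the quasi-projective varieties which
virtually dominate `X`. -/
structure IsHyperbolic (P : Ideal (MvPolynomial (Fin (N + 1)) ℂ)) [P.IsPrime] (Λ : AddSubgroup (Cn (k + 1))) (u : PN N → Cn (k + 1) ⧸ Λ)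
    (D : Set (Cn (k + 1))) (Q : MvPolynomial (Fin (N + 1)) ℂ) : Prop where
  /-- the form `Q` is not `0` on `X` -/
  form : (∃ e, Q.IsHomogeneous e) ∧ Q ∉ P
  /-- it is `0` on the fibres over `D` -/
  singular : ∀ x ∈ projVar P, (∃ y ∈ D, u x = (y : Cn (k + 1) ⧸ Λ)) → VanishesAt Q x
  /-- there are finitely many holomorphic maps to `X` over the complement of `D` such that every entire curve over an affine line is one of them -/
  lines : ∃ S : Set (Cn (k + 1) → PN N), S.Finite ∧ (∀ Φ ∈ S, ∀ y ∉ D, ∃ φ : Cn (k + 1) → Cn (N + 1), AnalyticAt ℂ φ y ∧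
      ∀ᶠ z in 𝓝 y, Over (projVar P) Λ u z (φ z) ∧ ∃ h : φ z ≠ 0, Φ z = Projectivization.mk ℂ (φ z) h) ∧
    ∀ f : ℂ → PN N, HolomorphicInto f Set.univ → (∀ z, f z ∈ projVar P) → ∀ a b : Cn (k + 1), a ≠ 0 →
      (∀ z, u (f z) = ((z • a + b : Cn (k + 1)) : Cn (k + 1) ⧸ Λ)) → ∃ Φ ∈ S, ∀ z : ℂ, z • a + b ∉ D → f z = Φ (z • a + b)
  /-- it is `0` on all nonconstant entire curves -/
  brody : ∀ f : ℂ → PN N, HolomorphicInto f Set.univ → (∀ z, f z ∈ projVar P) → (∃ z w, f z ≠ f w) → ∀ z, VanishesAt Q (f z)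
  /-- every holomorphic map from the punctured disc to `X` which is not a map into `{Q = 0}` extends -/
  picard : ∀ f : ℂ → PN N, HolomorphicInto f puncturedDisc → (∀ z ∈ puncturedDisc, f z ∈ projVar P) → (∃ z ∈ puncturedDisc, ¬ VanishesAt Q (f z)) →
    ∃ g : ℂ → PN N, HolomorphicInto g (Metric.ball 0 1) ∧ ∀ z ∈ puncturedDisc, g z = f z
  /-- the Kobayashi-Royden metric is bounded below near every point of `X \ {Q = 0}` -/
  kobayashi : ∀ x ∈ projVar P, ¬ VanishesAt Q x → MetricPositiveAt (projVar P) x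
  /-- if `X` is of general type then it has the properties of the conjecture with the exceptional set `{Q = 0}` -/
  ggl : IsLogGeneralType (K := FunField P) (k := k + 2) (fun _ => False) → GGLC P {x | x ∈ projVar P ∧ VanishesAt Q x}
  /-- if `X` is of general type, then every quasi-projective variety `Y = locVar R G` of log general type, of the same dimension, with a finite étale covering `Y' = locVar P' G'` (given by a regular map `q` of the
  closures with `q⁻¹ (Y) = Y'`) and a dominant rational map from `Y'` to `X` has the properties of the conjecture -/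
  quasiProjective : IsLogGeneralType (K := FunField P) (k := k + 2) (fun _ => False) →
    ∀ (M L s s' : ℕ) (P' : Ideal (MvPolynomial (Fin (M + 1)) ℂ)) [P'.IsPrime] (R : Ideal (MvPolynomial (Fin (L + 1)) ℂ)) [R.IsPrime]
      (G : Fin s → MvPolynomial (Fin (L + 1)) ℂ) (G' : Fin s' → MvPolynomial (Fin (M + 1)) ℂ) (q : PN M → PN L),
    Homog P' → Homog R → (∀ i, ∃ e, (G i).IsHomogeneous e) → (∀ i, ∃ e, (G' i).IsHomogeneous e) → (∃ i, G i ∉ R) →
    (∃ z : Fin (k + 2) → FunField P', IsTranscendenceBasis ℂ z) → (∃ z : Fin (k + 2) → FunField R, IsTranscendenceBasis ℂ z) →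
    Nonempty (FunField P →ₐ[ℂ] FunField P') → IsEtaleOver R P' G G' q → IsLogGeneralType (OnBd R G (k := k + 2)) → ∃ Ξ : Set (PN L), GGLCOpen R G Ξ

end Pool.Agent.G4F

end
end
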