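import Pool.Agent.H94.G5T.M102
import Pool.Agent.H94.G5T.M113
import Pool.Agent.H94.G5T.M117
import Pool.Agent.H94.G5T.M118
import Pool.Agent.H94.G5T.M119
import Pool.Agent.H94.G5T.M122
import Pool.Agent.H94.G5T.M61

/-! The parts of this file: G3.A.NLp, G4.M.Geo, G4.A.DAx, G3.F.ConE. -/

section

/-!
# G3 A NLp: normalised lifts

`f ∈ Hc`, entire lift `F`, `Cv` over `h z = y + z a`, `‖deriv h‖ = 1`.  `P/Tbd.tbd` (`R = 6`, `r = 5` and `r = 5/2`, `H = η = 1`) at the points over `Gd D δ`, then `H56/G3/Lift.norm_lift`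
(`R = 7`, `Gd := {z | y + z a ∈ Gd D δ}`); `exp (-φ z) • F z ∈ X` (cone) and `pr` does not change.
-/

set_option autoImplicit false

open Topology Filter Metric

namespace Pool.Agent.G3.A

open Pool.Agent.H36.BP (EN fs wd)
open Pool.Agent.H14.PP (IsCone CurveAt Tan)
open Pool.Agent.H62.EF (MN pr)
open Pool.Agent.AD (Vd Chart Charts IsGerm)
open Pool.Agent.TG
open Pool.Agent.G3.C (Gc)

variable {N k : ℕ} {X : Set (EN N)} {Λ : AddSubgroup (Vd (k + 1))} {u : EN N → Vd (k + 1)} {D B Bad : Set (Vd (k + 1))} {a : Vd (k + 1)}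

theorem exists_nl {p : EN N → EN N → ℝ} {m : ℕ} {C : ℝ} (hX : IsCone X) (hP : Pool.Agent.G3.PS X Λ u D p m C) (ha : ‖a‖ = 1) : NL X Λ u D a := by
  intro δ hδ
  obtain ⟨K₁, hK₁⟩ := Pool.Agent.G3.tbd hP (δ := δ) (η := 1) (H := 1) (r := 5) (R := 6) hδ one_pos zero_le_one (by norm_num) (by norm_num)
  obtain ⟨K₂, hK₂⟩ := Pool.Agent.G3.tbd hP (δ := δ) (η := 1) (H := 1) (r := 5 / 2) (R := 6) hδ one_pos zero_le_one (by norm_num) (by norm_num)
  refine ⟨Real.exp (-10 * max K₁ K₂), Real.exp_pos _, ?_⟩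
  rintro y f ⟨F, ⟨hFd, hFX, hFl⟩, rfl⟩ z₀
  have hder : ∀ w : ℂ, deriv (fun z : ℂ => y + z • a) w = a := fun w => by
    have h1 : HasDerivAt (fun z : ℂ => y + z • a) ((1 : ℂ) • a) w := ((hasDerivAt_id w).smul_const a).const_add y
    rw [h1.deriv, one_smul]
  have hcv : ∀ z : ℂ, Pool.Agent.G3.Cv X Λ u (ball z 6) F fun w => y + w • a := fun z =>
    ⟨hFd.differentiableOn, ((differentiable_id.smul_const a).const_add y).differentiableOn, fun w _ => hFX w, fun w _ => hFl w⟩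
  have hF0 : ∀ z, F z ≠ 0 := fun z => ne_zero hX (hFX z)
  have hG : ∀ z ∈ {z : ℂ | y + z • a ∈ Gd D δ}, ‖z - z₀‖ ≤ 1 →
      Real.circleAverage (fun w => Real.log ‖F w‖) z 5 ≤ Real.log ‖F z‖ + max K₁ K₂ ∧
      Real.circleAverage (fun w => Real.log ‖F w‖) z (5 / 2) ≤ Real.log ‖F z‖ + max K₁ K₂ := by
    intro z hz _
    have h1 := hK₁ F (fun w => y + w • a) z (hcv z) (fun w _ => by rw [hder, ha]) hz (by rw [hder, ha])
    have h2 := hK₂ F (fun w => y + w • a) z (hcv z) (fun w _ => by rw [hder, ha]) hz (by rw [hder, ha])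
    unfold Pool.Agent.G3.TT at h1 h2
    have h3 := le_max_left K₁ K₂
    have h4 := le_max_right K₁ K₂
    constructor
    · linarith
    · linarith
  obtain ⟨φ, hφ, hle, hge⟩ := Pool.Agent.H56.G3.norm_lift (R := 7) le_rfl (hFd.differentiableOn (s := ball z₀ 7)) (fun z _ => hF0 z) hG
  refine ⟨fun z => Complex.exp (-φ z) • F z, (hφ.neg.cexp).smul hFd.differentiableOn, fun z hz => ⟨?_, ?_, hle z hz⟩, fun z hz hzG => ?_⟩
  · exact hX.smul_mem _ (hFX z) _ (Complex.exp_ne_zero _)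
  · exact (Pool.Agent.H62.EF.pr_smul _ (Complex.exp_ne_zero _)).symm
  · exact hge z hzG (by rwa [mem_closedBall, dist_eq_norm] at hz)

end Pool.Agent.G3.A

end

section

/-!
# G4 M Geo: the geometry of the cone, from the function `p`

As `G4/F/ConD`.  `con_fib`: an entire curve `F` in the cone over a point `y ∉ D` is a curve `Cv X Λ u univ F (fun _ => y)`; `ahl` with `H = 0` and `r → ∞` gives `pf p F = 0`, `PS.ge_fs` gives `fs (F z) (F' z) = 0`.
-/

set_option autoImplicit false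

open Topology Filter Metric MvPolynomial

namespace Pool.Agent.G4.M

open Pool.Agent.H17 (PN VanishesAt HolomorphicInto puncturedDisc)
open Pool.Agent.H62.FC (Homog)
open Pool.Agent.H17LG.Variety (FunField IsLogGeneralType)
open Pool.Agent.H17EF (projVar coneE LE mem_coneE mk_mem_projVar)
open Pool.Agent.H36.BP (EN fs wd Sub Curve)
open Pool.Agent.H14.PP (IsCone CurveAt Tan)
open Pool.Agent.H62.EF (MN pr)
open Pool.Agent.AD (Vd Chart Charts uV uV_eq sub_mem_iff IsHolomorphicTorusMap)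
open Pool.Agent.TG (TMap Lat Geo Gd VForm Fb)
open Pool.Agent.TGF (Cn Over IsAnalyticSubset Submersion IsCoord NormalCrossing)
open Pool.Agent.G3 (Cv pf PS ahl)

variable {N k : ℕ}

private theorem Geo_gd {D : Set (Cn (k + 1))} (hD : IsClosed D) {y : Cn (k + 1)} (hy : y ∉ D) : ∃ δ : ℝ, 0 < δ ∧ y ∈ Gd D δ := by
  obtain ⟨δ, hδ, hball⟩ := Metric.isOpen_iff.1 hD.isOpen_compl y hy
  refine ⟨δ, hδ, fun b hb => ?_⟩
  by_contra hlt
  push Not at hlt
  have h1 : b ∈ ball y δ := by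
    rw [mem_ball, dist_comm, dist_eq_norm]
    exact hlt
  exact hball h1 hb

private theorem Geo_zero {a C : ℝ} {m : ℕ} (hm : 1 ≤ m) (h : ∀ r : ℝ, 0 < r → a ≤ (C * (1 / r + 0)) ^ m) : a ≤ 0 := by
  have h1 : Tendsto (fun r : ℝ => (C * (1 / r + 0)) ^ m) atTop (𝓝 ((C * (0 + 0)) ^ m)) := by
    have h0 : Tendsto (fun r : ℝ => 1 / r) atTop (𝓝 0) := by
      simpa only [one_div] using (tendsto_inv_atTop_zero (𝕜 := ℝ))
    exact ((h0.add tendsto_const_nhds).const_mul C).pow m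
  have h2 : ((C * (0 + 0) : ℝ)) ^ m = 0 := by
    rw [add_zero, mul_zero]
    exact zero_pow (by omega)
  rw [h2] at h1
  refine ge_of_tendsto h1 ?_
  filter_upwards [eventually_gt_atTop 0] with r hr
  exact h r hr

/-- the fibres off `D` contain no entire curves -/
theorem con_fib {X : Set (EN N)} {Λ : AddSubgroup (Vd (k + 1))} {u : EN N → Vd (k + 1)} {D : Set (Vd (k + 1))} {p : EN N → EN N → ℝ} {m : ℕ} {C : ℝ}
    (hX : IsCone X) (hDc : IsClosed D) (hps : PS X Λ u D p m C) : ∀ y ∉ D, ∀ F : ℂ → EN N, Differentiable ℂ F → (∀ z, F z ∈ X) → (∀ z, u (F z) - y ∈ Λ) →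
    ∀ z w, ∃ c : ℂ, F z = c • F w := by
  intro y hy F hF hFX hFy
  have hcv : Cv X Λ u Set.univ F fun _ => y :=
    ⟨hF.differentiableOn, differentiableOn_const _, fun z _ => hFX z, fun z _ => hFy z⟩
  obtain ⟨C₁, hC₁, hahl⟩ := ahl hps
  obtain ⟨δ, hδ, hyδ⟩ := Geo_gd hDc hy
  obtain ⟨c, hc, hge⟩ := hps.ge_fs δ hδ
  have h0 : ∀ z, fs (F z) (deriv F z) = 0 := by
    intro z
    have h1 : pf p F z ≤ 0 := by
      refine Geo_zero (C := C₁) hps.m_pos fun r hr => ?_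
      refine hahl F (fun _ => y) z r 0 hr le_rfl (hcv.mono (Set.subset_univ _)) fun w _ => ?_
      rw [deriv_const, norm_zero]
    have h2 := hge y hyδ (F z) (hFX z) (hFy z) (deriv F z) (hcv.tan isOpen_univ (Set.mem_univ z))
    have h3 : c * fs (F z) (deriv F z) ^ m ≤ 0 := h2.trans h1
    have h4 : fs (F z) (deriv F z) ^ m ≤ 0 := by
      by_contra h5
      push Not at h5
      have := mul_pos hc h5
      linarith
    have h5 : 0 ≤ fs (F z) (deriv F z) := Pool.Agent.H36.BP.fs_nonneg _ _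
    have h6 : fs (F z) (deriv F z) ^ m = 0 := le_antisymm h4 (pow_nonneg h5 m)
    have hm := hps.m_pos
    exact (pow_eq_zero_iff (by omega)).1 h6
  have hne' : ∀ z, F z ≠ 0 := fun z h => hX.zero_notMem (h ▸ hFX z)
  have hne : ∀ z, (F z).ofLp ≠ 0 := fun z h => hne' z (by
    ext i
    exact congrFun h i)
  have hwd : ∀ z, wd (F z) (deriv F z) = 0 := by
    intro z
    have h1 := h0 z
    unfold fs at h1
    rcases div_eq_zero_iff.1 h1 with h2 | h2
    · exact h2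
    · exact absurd (pow_eq_zero_iff (by norm_num)|>.1 h2) (norm_ne_zero_iff.2 (hne' z))
  obtain ⟨f, hf⟩ : ∃ f : ℂ → PN N, f = fun z => Projectivization.mk ℂ (F z).ofLp (hne z) := ⟨_, rfl⟩
  have hloc : IsLocallyConstant f := by
    refine (IsLocallyConstant.iff_eventually_eq f).2 fun x => ?_
    have h1 := Pool.Agent.H36.BP.const_of_wedge (hF.analyticAt x) (hne' x) (Eventually.of_forall hwd)
    filter_upwards [h1] with y hy
    obtain ⟨c, hc, hy⟩ := hy
    rw [hf]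
    show Projectivization.mk ℂ (F y).ofLp (hne y) = Projectivization.mk ℂ (F x).ofLp (hne x)
    rw [Projectivization.mk_eq_mk_iff']
    refine ⟨c, ?_⟩
    rw [hy]
    rfl
  intro z w
  have h1 := hloc.apply_eq_of_preconnectedSpace z w
  rw [hf] at h1
  replace h1 : Projectivization.mk ℂ (F z).ofLp (hne z) = Projectivization.mk ℂ (F w).ofLp (hne w) := h1
  rw [Projectivization.mk_eq_mk_iff'] at h1
  obtain ⟨b, hb⟩ := h1
  exact ⟨b, WithLp.ofLp_injective 2 hb.symm⟩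

/-- the geometry of the cone -/
theorem geo_of_ps {P : Ideal (MvPolynomial (Fin (N + 1)) ℂ)} [P.IsPrime] (hP : Homog P) (hdim : ∃ z : Fin (k + 2) → FunField P, IsTranscendenceBasis ℂ z)
    (hsmooth : Pool.Agent.AD.NC.IsSmooth P (k + 2)) {Λ : AddSubgroup (Cn (k + 1))} [DiscreteTopology Λ] (hspan : Submodule.span ℝ (Λ : Set (Cn (k + 1))) = ⊤)
    {u : PN N → Cn (k + 1) ⧸ Λ} (hu : IsHolomorphicTorusMap (projVar P) Λ u) {D B : Set (Cn (k + 1))} (hD : IsAnalyticSubset D) (hDp : D ≠ Set.univ)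
    (hDi : ∀ y ∈ D, ∀ l ∈ Λ, y + l ∈ D) (hB : ∀ e : Cn (k + 1), e ≠ 0 → ∀ᵐ y : Cn (k + 1), ∀ z : ℂ, y + z • e ∉ B)
    (hsub : ∀ y ∉ D, ∀ x ∈ projVar P, u x = (y : Cn (k + 1) ⧸ Λ) → Submersion (projVar P) Λ u y x)
    (hcr : ∀ y ∈ D, y ∉ B → ∃ κ : Cn (k + 1) → Cn (k + 1), IsCoord D κ y ∧ ∀ x ∈ projVar P, u x = (y : Cn (k + 1) ⧸ Λ) → NormalCrossing (projVar P) Λ u κ x)
    {p : EN N → EN N → ℝ} {m : ℕ} {C : ℝ} (hps : PS (coneE P) Λ (uV Λ u) D p m C) : Geo (coneE P) Λ (uV Λ u) D B where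
  cone := Pool.Agent.AD.isCone_coneE hP
  charts := Pool.Agent.TGF.gu_charts hP hdim hsmooth
  tor := Pool.Agent.TGF.gu_tor hP hu
  lat := Pool.Agent.TGF.gu_lat Λ hspan
  D_closed := hD.isClosed
  D_inv := hDi
  D_thin := hD.thin hDp
  B_lines := hB
  sub := by
    intro y hy x hx hxy
    obtain ⟨h0, h1⟩ := (mem_coneE hP).1 hx
    rw [sub_mem_iff, uV_eq Λ u h0] at hxy
    obtain ⟨σ, hσ, hov⟩ := hsub y hy _ h1 hxy
    obtain ⟨c, hc, hcx⟩ := Pool.Agent.TGF.exists_scale h0 hσ.point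
    obtain ⟨τ, hτ⟩ := Pool.Agent.TGF.exists_germ hP hdim hsmooth (hσ.const_smul hc)
    refine ⟨_, τ, hτ, hcx, ?_⟩
    filter_upwards [hov] with p hp
    exact Pool.Agent.TGF.gug_over (Pool.Agent.TGF.over_const_smul hp hc)
  fib := fun y hy F hF hFX hFy _ => con_fib (Pool.Agent.AD.isCone_coneE hP) hD.isClosed hps y hy F hF hFX hFy
  nc := by
    intro y hy hyB
    obtain ⟨κ, hκ, hnc⟩ := hcr y hy hyB
    refine ⟨κ, ⟨hκ.holomorphic, hκ.point, ?_, hκ.mem_iff⟩, ?_⟩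
    · rw [injective_iff_map_eq_zero]
      exact hκ.immersion
    · intro x hx hxy
      obtain ⟨h0, h1⟩ := (mem_coneE hP).1 hx
      rw [sub_mem_iff, uV_eq Λ u h0] at hxy
      obtain ⟨σ, a, b, hσ, hab, hov⟩ := hnc _ h1 hxy
      obtain ⟨c, hc, hcx⟩ := Pool.Agent.TGF.exists_scale h0 hσ.point
      obtain ⟨τ, hτ⟩ := Pool.Agent.TGF.exists_germ hP hdim hsmooth (hσ.const_smul hc)
      refine ⟨_, τ, a, b, hτ, hcx, hab, ?_⟩
      filter_upwards [hov] with p hp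
      exact Pool.Agent.TGF.gug_over (Pool.Agent.TGF.over_const_smul hp hc)

end Pool.Agent.G4.M

end

section

/-!
# G4 A DAx: the data of block (A) from the hypotheses

`exists_lg4`: the geometry of the lines from `LDi D` (no line in `D`) and `Few (Ba D B a) a`.  `exists_da`: `LC`, `NL`, `DecW`; `CRL` at `p ∈ D`, `p ∉ Ba D B a` from `Crs` (`Z/Sit`) with the arc `γ z = p' + z • a`.
-/

set_option autoImplicit false

open Topology Filter Metric

namespace Pool.Agent.G4.A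

open Pool.Agent.H36.BP (EN fs wd)
open Pool.Agent.H14.PP (IsCone CurveAt Tan)
open Pool.Agent.H62.EF (MN pr)
open Pool.Agent.AD (Vd Chart Charts IsGerm)
open Pool.Agent.TG
open Pool.Agent.G3
open Pool.Agent.G3.A
open Pool.Agent.G3.C (Gc HP)

variable {N k : ℕ} {X : Set (EN N)} {Λ : AddSubgroup (Vd (k + 1))} {u : EN N → Vd (k + 1)} {D B Bad : Set (Vd (k + 1))} {a : Vd (k + 1)}

private theorem dax_trans {Γ : AddSubgroup (Vd (k + 1))} (hinv : ∀ y ∈ D, ∀ l ∈ Γ, y + l ∈ D) {β l a : Vd (k + 1)} (hl : l ∈ Γ) (h : TransAt D (β + l) a) :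
    TransAt D β a := by
  refine ⟨h.1, fun κ hκ q hq => ?_⟩
  have hfd : fderiv ℂ (fun q => κ q + l) 0 = fderiv ℂ κ 0 := by rw [fderiv_add_const]
  have hκ' : IsCoord D (fun q => κ q + l) (β + l) := by
    refine ⟨hκ.an.add analyticAt_const, by rw [hκ.zero], by rw [hfd]; exact hκ.inj, ?_⟩
    filter_upwards [hκ.mem_iff] with q hq
    rw [← hq]
    constructor
    · intro h1
      have h2 := hinv _ h1 _ (Γ.neg_mem hl)
      rwa [add_neg_cancel_right] at h2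
    · intro h1
      exact hinv _ h1 l hl
  have h1 := h.2 _ hκ' q hq
  rwa [hfd] at h1

theorem exists_lg4 (G : Geo X Λ u D B) (hB : ∀ β ∈ B, ∀ l ∈ Λ, β + l ∈ B) (hL : Pool.Agent.G4.LDi D) (ha : ‖a‖ = 1) (hfew : Pool.Agent.G4.Few (Ba D B a) a) :
    LG Λ D (Ba D B a) a := by
  have ha0 : a ≠ 0 := by
    intro h
    rw [h, norm_zero] at ha
    exact zero_ne_one ha
  refine ⟨ha, G.lat, G.D_closed, G.D_inv, fun q hq => hq.1, ?_, fun y => ?_, hfew⟩
  · intro β hβ l hl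
    refine ⟨G.D_inv β hβ.1 l hl, ?_⟩
    rcases hβ.2 with h | h
    · exact Or.inl (hB β h l hl)
    · exact Or.inr fun h' => h (dax_trans G.D_inv hl h')
  · refine (hL a ha0 y 0).mono fun w hw => ?_
    rwa [add_comm y (w • a)]

/-- crossing for lines, from the crossing for arcs -/
private theorem DAx_cr (hcr : Pool.Agent.G3.Crs X Λ u D B) {p : Vd (k + 1)} (hp : p ∈ D) (hpB : p ∉ B) (ht : TransAt D p a) : CRL X Λ u D a p := by
  obtain ⟨s₁, hs₁, h⟩ := hcr p a hp hpB ht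
  intro η hη
  obtain ⟨s₀, ρ₀, h1, h2, h3, h4, -, h5⟩ := h η hη
  refine ⟨s₀, ρ₀, h1, h2.le, h4, fun δ ε ε₀ hc => ?_⟩
  obtain ⟨ε₁, h6, h7, h8⟩ := h5 δ ε ε₀ hc
  refine ⟨ε₁, h6, h7, fun p' hp' hG α F H hFd hF hHd hH hdist => ?_⟩
  have hd : Differentiable ℂ fun z : ℂ => p' + z • a := (differentiable_id.smul_const a).const_add p'
  refine h8 (fun z => p' + z • a) hd.differentiableOn (fun z _ => ?_) hG α F H ⟨hFd, hd.differentiableOn, fun z hz => (hF z hz).1, fun z hz => (hF z hz).2⟩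
    ⟨hHd, hd.differentiableOn, fun z hz => (hH z hz).1, fun z hz => (hH z hz).2⟩ hdist
  rw [mem_ball_iff_norm] at hp'
  have e : p' + z • a - (p + z • a) = p' - p := by abel
  rw [e]
  exact hp'.le

theorem exists_da {p : EN N → EN N → ℝ} {m J r : ℕ} {C : ℝ} {α : Fin J → VForm X Λ u} {Γ : AddSubgroup (Vd (k + 1))} {W : Fin r → Vd (k + 1) →L[ℂ] ℂ} (G : Geo X Λ u D B)
    (hB : ∀ β ∈ B, ∀ l ∈ Λ, β + l ∈ B) (hL : Pool.Agent.G4.LDi D) (hP : Pool.Agent.G3.PS X Λ u D p m C) (hcr : Pool.Agent.G3.Crs X Λ u D B) (hF : Frm X Λ u D Γ W α) (ha : ‖a‖ = 1)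
    (hfew : Pool.Agent.G4.Few (Ba D B a) a) : ∃ c₀ C₀ ρ δ : ℝ, DA X Λ u D B (Ba D B a) a Γ W α c₀ C₀ ρ δ := by
  have hlg : LG Λ D (Ba D B a) a := exists_lg4 G hB hL ha hfew
  obtain ⟨c₀, hc₀, hwt⟩ := Pool.Agent.G4.wt_ge hF.pos
  obtain ⟨C₀, hC₀, hdec⟩ := decW G hF
  obtain ⟨δ₀, hδ₀, hlc'⟩ := exists_lc hlg (ρ := 1 / 8) (by norm_num) le_rfl
  have hgood : ∀ q ∈ D, q ∉ Ba D B a → q ∉ B ∧ TransAt D q a := by
    intro q hq hqb
    refine ⟨fun h => hqb ⟨hq, Or.inl h⟩, ?_⟩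
    by_contra h
    exact hqb ⟨hq, Or.inr h⟩
  exact ⟨c₀, C₀, 1 / 8, δ₀,
    { geo := G
      lg := hlg
      lc := hlc' δ₀ hδ₀ le_rfl
      nl := exists_nl G.cone hP ha
      c_pos := hc₀
      C_pos := hC₀
      wtc := hwt
      dec := hdec
      frm := hF
      cr := fun q hq hqb => DAx_cr hcr hq (hgood q hq hqb).1 (hgood q hq hqb).2
      good := hgood }⟩

end Pool.Agent.G4.A

end

section

/-!
# G3 F ConE: the forms on the cone

As `TGF.vform` (`TG/GuF`; only the periodicity is different); `over_iff`, `isTangent_iff`, `gu_lat_sub`.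
-/

set_option autoImplicit false

open Topology Filter Metric MvPolynomial

namespace Pool.Agent.G3

open Pool.Agent.H17 (PN VanishesAt HolomorphicInto puncturedDisc)
open Pool.Agent.H62.FC (Homog)
open Pool.Agent.H17LG.Variety (FunField IsLogGeneralType)
open Pool.Agent.H17EF (projVar coneE LE mem_coneE mk_mem_projVar)
open Pool.Agent.H36.BP (EN fs wd Sub Curve)
open Pool.Agent.H14.PP (IsCone CurveAt Tan)
open Pool.Agent.H62.EF (MN pr)
open Pool.Agent.AD (Vd Chart Charts uV IsHolomorphicTorusMap)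
open Pool.Agent.TG (TMap Lat Geo Gd VForm Fb)
open Pool.Agent.TGF (Cn Over IsDiscriminant)
open Pool.Agent.G3F

variable {N k : ℕ} {P : Ideal (MvPolynomial (Fin (N + 1)) ℂ)} {Λ : AddSubgroup (Cn (k + 1))} {u : PN N → Cn (k + 1) ⧸ Λ} {D B : Set (Cn (k + 1))}

/-- the form on the covering of the cone -/
private noncomputable def tform (hP : Homog P) {Γ : AddSubgroup (Cn (k + 1))} {r : ℕ} {W : Fin r → Cn (k + 1) →L[ℂ] ℂ}
    {Ω : Cn (k + 1) → Cn (N + 1) → (Fin (k + 2) → Cn (N + 1)) → ℂ} (hΩ : IsTwistedTopForm (projVar P) Λ Γ u W Ω) :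
    VForm (coneE P) Λ (uV Λ u) where
  toFun y x v := Ω y ((LE N).symm x) fun i => (LE N).symm (v i)
  add_smul := by
    intro y x hx hy v hv a
    have h1 := hΩ.horizontal y _ ((Pool.Agent.TGF.over_iff hP).2 ⟨hx, hy⟩) (fun i => (LE N).symm (v i))
      (fun i => (Pool.Agent.H17G.isTangent_iff hP hx).2 (hv i)) a
    rw [← h1]
    congr 1
  det := by
    intro y x hx hy v hv A
    have h1 := hΩ.alternating y _ ((Pool.Agent.TGF.over_iff hP).2 ⟨hx, hy⟩) (fun i => (LE N).symm (v i))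
      (fun i => (Pool.Agent.H17G.isTangent_iff hP hx).2 (hv i)) A
    rw [← h1]
    congr 1
    funext i
    rw [map_sum]
    exact Finset.sum_congr rfl fun j _ => map_smul _ _ _
  scale := by
    intro y x hx hy v hv c hc
    have h1 := hΩ.homogeneous y _ ((Pool.Agent.TGF.over_iff hP).2 ⟨hx, hy⟩) (fun i => (LE N).symm (v i))
      (fun i => (Pool.Agent.H17G.isTangent_iff hP hx).2 (hv i)) c hc
    rw [← h1, map_smul]
    congr 1
  analytic := by
    intro φ υ p hφ hυ hφX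
    have h1 : AnalyticAt ℂ (fun y => (LE N).symm (φ y)) p := (((LE N).symm : EN N →L[ℂ] (Fin (N + 1) → ℂ)).analyticAt _).comp hφ
    have h2 := hΩ.holomorphic _ υ p h1 hυ (by
      filter_upwards [hφX] with y hy
      exact (Pool.Agent.TGF.over_iff hP).2 hy)
    refine h2.congr ?_
    filter_upwards [hφ.eventually_analyticAt] with y hy
    have h3 : HasFDerivAt (fun y => (LE N).symm (φ y)) (((LE N).symm : EN N →L[ℂ] (Fin (N + 1) → ℂ)).comp (fderiv ℂ φ y)) y :=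
      ((LE N).symm : EN N →L[ℂ] (Fin (N + 1) → ℂ)).hasFDerivAt.comp y hy.differentiableAt.hasFDerivAt
    rw [h3.fderiv]
    rfl

theorem frm_of (hP : Homog P) (hΛ : Lat Λ) (h : HasTopForms (projVar P) Λ u D) :
    ∃ (Γ : AddSubgroup (Vd (k + 1))) (r J : ℕ) (W : Fin r → Vd (k + 1) →L[ℂ] ℂ) (α : Fin J → VForm (coneE P) Λ (uV Λ u)), A.Frm (coneE P) Λ (uV Λ u) D Γ W α := by
  obtain ⟨Γ, r, J, W, Ω, hle, hspan, hpos, hΩ, hsep⟩ := h
  refine ⟨Γ, r, J, W, fun j => tform hP (hΩ j), ⟨Pool.Agent.TGF.gu_lat_sub hΛ hle hspan, hle, hpos, ?_, ?_⟩⟩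
  · intro j l hl
    obtain ⟨L, c, h1, h2⟩ := (hΩ j).quasiPeriodic l hl
    refine ⟨L, c, h1, fun y x hx hy v hv => ?_⟩
    exact h2 y _ ((Pool.Agent.TGF.over_iff hP).2 ⟨hx, hy⟩) _ (fun i => (Pool.Agent.H17G.isTangent_iff hP hx).2 (hv i))
  · intro y hy x hx hxy
    obtain ⟨j, v, hv, hne⟩ := hsep y hy _ ((Pool.Agent.TGF.over_iff hP).2 ⟨hx, hxy⟩)
    refine ⟨j, fun i => (LE N) (v i), fun i => (Pool.Agent.H17G.isTangent_iff hP hx).1 ?_, ?_⟩
    · rw [ContinuousLinearEquiv.symm_apply_apply]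
      exact hv i
    · have h1 : (fun i => (LE N).symm ((LE N) (v i))) = v := funext fun i => ContinuousLinearEquiv.symm_apply_apply _ _
      change Ω j y ((LE N).symm x) (fun i => (LE N).symm ((LE N) (v i))) ≠ 0
      rw [h1]
      exact hne

end Pool.Agent.G3

end
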