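import Pool.Agent.H94.G5T.M101
import Pool.Agent.H94.G5T.M124
import Pool.Agent.H94.G5T.M53
import Pool.Agent.H94.G5T.M54
import Pool.Agent.H94.G5T.M71
import Pool.Agent.H94.G5T.M75
import Pool.Agent.H94.G5T.M85

/-! The parts of this file: G3.A.JFam, G3.A.HP, G3.A.LOC. -/

section

/-!
# G3 A JFam: the integrals between two sequences of curves with the same limit, extended over the good hits

At `z₀` with `y₀ + z₀ a ∉ D`: `r z₀` small (`ball z₀ (2 r)` off `D` for `y₀`), `J z₀ n x = JJ α (y n + x • a) (f n x) (g n x)` (`jj_eq_II`, `II_curve`, closeness from `Lm.unif`).  At a good hit: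
`CRL` at `p = y₀ + z₀ a` with `η` so small that `ball z₀ (4 η)` contains no other hit; `r z₀ = s₀`, `J z₀ n x = J (x - z₀)`; it is equal to `JJ` also at the points of `ball z₀ s₀` off `D`:
identity theorem on the annulus `d < |x - z₀| < s₀`, where the curves are close for `𝒰`-most `n`.  The radii are chosen such that balls at different hits are disjoint and `ball z₁ (r z₁)` is off `D`
with its closure for `z₁` not a hit.
-/

set_option autoImplicit false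

open Topology Filter Metric

namespace Pool.Agent.G3.A

open Pool.Agent.H36.BP (EN fs wd)
open Pool.Agent.H14.PP (IsCone CurveAt Tan)
open Pool.Agent.H62.EF (MN pr)
open Pool.Agent.AD (Vd Chart Charts IsGerm)
open Pool.Agent.TG
open Pool.Agent.G3.C (Gc HP)

variable {N k : ℕ} {X : Set (EN N)} {Λ : AddSubgroup (Vd (k + 1))} {u : EN N → Vd (k + 1)} {D B Bad : Set (Vd (k + 1))} {a : Vd (k + 1)}

/-- a compact set of parameters without hits -/
private theorem JFam_dist (hD : IsClosed D) {K : Set ℂ} (hK : IsCompact K) (y : Vd (k + 1)) (h : ∀ z ∈ K, y + z • a ∉ D) :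
    ∃ d : ℝ, 0 < d ∧ ∀ z ∈ K, y + z • a ∈ Gd D d := by
  have hc : IsCompact ((fun z : ℂ => y + z • a) '' K) := hK.image (by fun_prop)
  have hdis : Disjoint ((fun z : ℂ => y + z • a) '' K) D := by
    rw [Set.disjoint_left]
    rintro _ ⟨z, hz, rfl⟩
    exact h z hz
  obtain ⟨d, hd, hd2⟩ := hdis.exists_thickenings hc hD
  refine ⟨d, hd, fun z hz b hb => ?_⟩
  by_contra hlt
  push Not at hlt
  refine (Set.disjoint_left.1 hd2) (a := b) ?_ ?_
  · rw [mem_thickening_iff]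
    exact ⟨y + z • a, ⟨z, hz, rfl⟩, by rw [dist_comm, dist_eq_norm]; exact hlt⟩
  · rw [mem_thickening_iff]
    exact ⟨b, hb, by rw [dist_self]; exact hd⟩

/-- over a compact set without hits most lines are far from `D`, and the curves are close -/
private theorem JFam_K (hD : IsClosed D) {ι : Type*} {𝒰 : Ultrafilter ι} {y : ι → Vd (k + 1)} {y₀ : Vd (k + 1)}
    (hy : Tendsto y 𝒰 (𝓝 y₀)) {f g : ι → ℂ → MN N} {h : ℂ → MN N} (hh : Continuous h) (hfh : Lm D a 𝒰 y₀ f h) (hgh : Lm D a 𝒰 y₀ g h)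
    {K : Set ℂ} (hK : IsCompact K) (hKD : ∀ z ∈ K, y₀ + z • a ∉ D) :
    ∃ δ : ℝ, 0 < δ ∧ (∀ᶠ n in (𝒰 : Filter ι), ∀ z ∈ K, y n + z • a ∈ Gd D δ) ∧
      ∀ ε : ℝ, 0 < ε → ∀ᶠ n in (𝒰 : Filter ι), ∀ z ∈ K, dist (f n z) (g n z) ≤ ε := by
  obtain ⟨d, hd, hdK⟩ := JFam_dist hD hK y₀ hKD
  refine ⟨d / 2, half_pos hd, ?_, fun ε hε => ?_⟩
  · filter_upwards [hy.eventually (ball_mem_nhds y₀ (half_pos hd))] with n hn z hz
    have h1 := gd_near (hdK z hz) (w := y n + z • a) (r := d / 2) (by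
      rw [add_sub_add_right_eq_sub, ← dist_eq_norm]
      exact (mem_ball.1 hn).le)
    exact gd_mono (by linarith) h1
  · filter_upwards [hfh.unif hh hK hKD (half_pos hε), hgh.unif hh hK hKD (half_pos hε)] with n h1 h2 z hz
    have h3 := dist_triangle_right (f n z) (g n z) (h z)
    have h4 := h1 z hz
    have h5 := h2 z hz
    linarith

/-- the integral is holomorphic off the hits -/
private theorem JFam_an (G : Geo X Λ u D B) {ι : Type*} {𝒰 : Ultrafilter ι} {y : ι → Vd (k + 1)} {y₀ : Vd (k + 1)}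
    (hy : Tendsto y 𝒰 (𝓝 y₀)) {f g : ι → ℂ → MN N} {h : ℂ → MN N} (hf : ∀ᶠ n in (𝒰 : Filter ι), f n ∈ Hc X Λ u a (y n))
    (hg : ∀ᶠ n in (𝒰 : Filter ι), g n ∈ Hc X Λ u a (y n)) (hh : Continuous h) (hfh : Lm D a 𝒰 y₀ f h) (hgh : Lm D a 𝒰 y₀ g h) (α : VForm X Λ u)
    {K U : Set ℂ} (hK : IsCompact K) (hKD : ∀ z ∈ K, y₀ + z • a ∉ D) (hU : IsOpen U) (hUK : U ⊆ K) :
    ∀ᶠ n in (𝒰 : Filter ι), DifferentiableOn ℂ (fun x => JJ α (y n + x • a) (f n x) (g n x)) U := by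
  obtain ⟨δ, hδ, h1, h2⟩ := JFam_K G.D_closed hy hh hfh hgh hK hKD
  obtain ⟨ε, ε₀, -, -, hc⟩ := exists_cst G hδ one_pos
  filter_upwards [hf, hg, h1, h2 ε₀ hc.ε₀_pos] with n hfn hgn h3 h4
  have hfm := hc_mem hfn
  have hgm := hc_mem hgn
  obtain ⟨F, ⟨hFd, hFX, hFu⟩, hFe⟩ := hfn
  obtain ⟨H, ⟨hHd, hHX, hHu⟩, hHe⟩ := hgn
  intro z₀ hz₀
  have hla : AnalyticAt ℂ (fun x : ℂ => y n + x • a) z₀ := by fun_prop
  obtain ⟨χ, c, ρ, hcap⟩ := hc.cap (y n + z₀ • a) (h3 z₀ (hUK hz₀)) (f n z₀) (hfm z₀)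
  have e1 : f n z₀ = pr (F z₀) := by rw [hFe]
  rw [e1] at hcap
  have hrel : ∀ᶠ z in 𝓝 z₀, ∃ v, IRel α ε (y n + z • a) (pr (F z)) (pr (H z)) v := by
    filter_upwards [hU.mem_nhds hz₀] with z hz
    have h5 := hc.rel (y n + z • a) (h3 z (hUK hz)) (f n z) (hfm z) (g n z) (hgm z) (h4 z (hUK hz)) α
    rw [hFe, hHe] at h5
    exact h5
  have h6 := II_curve G.cone G.tor G.lat (hFd.analyticAt z₀) (hHd.analyticAt z₀) hla (Eventually.of_forall fun z => ⟨hFX z, hFu z⟩)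
    (Eventually.of_forall fun z => ⟨hHX z, hHu z⟩) hcap (by linarith [hc.ε_pos]) hrel
  have h7 : (fun z => II α ε (y n + z • a) (pr (F z)) (pr (H z))) =ᶠ[𝓝 z₀] fun x => JJ α (y n + x • a) (f n x) (g n x) := by
    filter_upwards [hU.mem_nhds hz₀] with z hz
    have h8 := jj_eq_II G.cone G.tor G.lat (α := α) hc (h3 z (hUK hz)) (hfm z) (hgm z) (h4 z (hUK hz))
    rw [h8, hFe, hHe]
  exact (h6.congr h7).differentiableAt.differentiableWithinAt

/-- the local statement -/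
private theorem JFam_loc (G : Geo X Λ u D B) (hL : LG Λ D Bad a) (hCR : ∀ p ∈ D, p ∉ Bad → CRL X Λ u D a p) {ι : Type*} {𝒰 : Ultrafilter ι} {y : ι → Vd (k + 1)}
    {y₀ : Vd (k + 1)} (hy : Tendsto y 𝒰 (𝓝 y₀)) {f g : ι → ℂ → MN N} {h : ℂ → MN N} (hf : ∀ᶠ n in (𝒰 : Filter ι), f n ∈ Hc X Λ u a (y n))
    (hg : ∀ᶠ n in (𝒰 : Filter ι), g n ∈ Hc X Λ u a (y n)) (hh : Continuous h) (hfh : Lm D a 𝒰 y₀ f h) (hgh : Lm D a 𝒰 y₀ g h) (α : VForm X Λ u)
    (z₀ : ℂ) (hz₀ : y₀ + z₀ • a ∉ Bad) :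
    ∃ (r : ℝ) (J : ι → ℂ → ℂ), 0 < r ∧ (∀ x ∈ closedBall z₀ r, y₀ + x • a ∈ D → x = z₀) ∧
      (∀ᶠ n in (𝒰 : Filter ι), DifferentiableOn ℂ (J n) (ball z₀ r)) ∧
      ∀ δ : ℝ, 0 < δ → ∀ᶠ n in (𝒰 : Filter ι), ∀ x ∈ ball z₀ r, y n + x • a ∈ Gd D δ → J n x = JJ α (y n + x • a) (f n x) (g n x) := by
  classical
  by_cases hD : y₀ + z₀ • a ∈ D
  · -- a good hit
    set p : Vd (k + 1) := y₀ + z₀ • a with hp
    obtain ⟨η, hη, hηD⟩ : ∃ η : ℝ, 0 < η ∧ ∀ z : ℂ, z ≠ 0 → ‖z‖ ≤ η → p + z • a ∉ D := by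
      have h1 := hL.iso p
      rw [eventually_nhdsWithin_iff, Metric.eventually_nhds_iff] at h1
      obtain ⟨η, hη, h2⟩ := h1
      refine ⟨η / 2, half_pos hη, fun z hz hzη => h2 ?_ hz⟩
      rw [dist_zero_right]
      linarith
    obtain ⟨s₀, ρ₀, hs₀, hsη, hρ₀, hcr⟩ := hCR p hD hz₀ η hη
    have hoff : ∀ x : ℂ, x ≠ z₀ → dist x z₀ ≤ s₀ → y₀ + x • a ∉ D := by
      intro x hx hxd
      have h1 := hηD (x - z₀) (sub_ne_zero.2 hx) (by rw [← dist_eq_norm]; linarith)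
      have e : p + (x - z₀) • a = y₀ + x • a := by
        rw [hp, sub_smul]
        abel
      rwa [e] at h1
    have hKc : ∀ d : ℝ, IsCompact {x : ℂ | d ≤ dist x z₀ ∧ dist x z₀ ≤ s₀} := by
      intro d
      have h1 : {x : ℂ | d ≤ dist x z₀ ∧ dist x z₀ ≤ s₀} = closedBall z₀ s₀ ∩ {x : ℂ | d ≤ dist x z₀} := by
        ext x
        simp only [Set.mem_ofPred_eq, Set.mem_inter_iff, mem_closedBall]
        exact and_comm
      rw [h1]
      exact (isCompact_closedBall z₀ s₀).inter_right (isClosed_le continuous_const (continuous_id.dist continuous_const))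
    have hKD : ∀ d : ℝ, 0 < d → ∀ x ∈ {x : ℂ | d ≤ dist x z₀ ∧ dist x z₀ ≤ s₀}, y₀ + x • a ∉ D := by
      intro d hd x hx
      refine hoff x ?_ hx.2
      rintro rfl
      have := hx.1
      rw [dist_self] at this
      linarith
    obtain ⟨δ₁, hδ₁, hgd, hcl⟩ := JFam_K G.D_closed hy hh hfh hgh (hKc (s₀ / 4)) (hKD (s₀ / 4) (by linarith))
    obtain ⟨ε, ε₀, -, -, hc⟩ := exists_cst G hδ₁ one_pos
    obtain ⟨ε₁, hε₁, hε₁₀, hcr1⟩ := hcr δ₁ ε ε₀ hc
    have hpn : Tendsto (fun n => y n + z₀ • a) 𝒰 (𝓝 p) := hy.add_const _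
    have hJ : ∀ᶠ n in (𝒰 : Filter ι), ∃ J' : ℂ → ℂ, DifferentiableOn ℂ J' (ball z₀ s₀) ∧
        ∀ x : ℂ, s₀ / 4 < dist x z₀ → dist x z₀ < s₀ → J' x = JJ α (y n + x • a) (f n x) (g n x) := by
      filter_upwards [hf, hg, hgd, hcl ε₁ hε₁, hpn.eventually (ball_mem_nhds p hρ₀)] with n hfn hgn h3 h4 h5
      have hfm := hc_mem hfn
      have hgm := hc_mem hgn
      obtain ⟨F, ⟨hFd, hFX, hFu⟩, hFe⟩ := hfn
      obtain ⟨H, ⟨hHd, hHX, hHu⟩, hHe⟩ := hgn
      have e0 : ∀ z : ℂ, y n + z₀ • a + z • a = y n + (z₀ + z) • a := by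
        intro z
        rw [add_smul]
        abel
      have hmem : ∀ z : ℂ, s₀ / 4 ≤ ‖z‖ → ‖z‖ ≤ s₀ → z₀ + z ∈ {x : ℂ | s₀ / 4 ≤ dist x z₀ ∧ dist x z₀ ≤ s₀} := by
        intro z h6 h7
        simp only [Set.mem_ofPred_eq, dist_eq_norm, add_sub_cancel_left]
        exact ⟨h6, h7⟩
      obtain ⟨J', hJ', hJe⟩ := hcr1 (y n + z₀ • a) h5 (fun z h6 h7 => by rw [e0]; exact h3 _ (hmem z h6 h7)) α (fun z => F (z₀ + z)) (fun z => H (z₀ + z))
        (hFd.comp (differentiable_id.const_add z₀)).differentiableOn (fun z _ => ⟨hFX _, by rw [e0]; exact hFu _⟩)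
        (hHd.comp (differentiable_id.const_add z₀)).differentiableOn (fun z _ => ⟨hHX _, by rw [e0]; exact hHu _⟩)
        (fun z h6 h7 => by
          have h8 := h4 _ (hmem z h6 h7)
          rw [hFe, hHe] at h8
          exact h8)
      refine ⟨fun x => J' (x - z₀), ?_, fun x h6 h7 => ?_⟩
      · refine hJ'.comp (differentiable_id.sub_const z₀).differentiableOn fun x hx => ?_
        rw [mem_ball, dist_eq_norm] at hx
        rw [mem_ball, dist_zero_right]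
        exact hx
      · rw [dist_eq_norm] at h6 h7
        have h8 := hJe (x - z₀) h6 h7
        have h9 := hmem (x - z₀) h6.le h7.le
        rw [add_sub_cancel] at h9
        show J' (x - z₀) = _
        rw [h8, e0, jj_eq_II G.cone G.tor G.lat (α := α) hc (h3 x h9) (hfm x) (hgm x) ((h4 x h9).trans hε₁₀), hFe, hHe, add_sub_cancel]
    obtain ⟨J, hJs⟩ : ∃ J : ι → ℂ → ℂ, ∀ n, (∃ J' : ℂ → ℂ, DifferentiableOn ℂ J' (ball z₀ s₀) ∧
        ∀ x : ℂ, s₀ / 4 < dist x z₀ → dist x z₀ < s₀ → J' x = JJ α (y n + x • a) (f n x) (g n x)) →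
        DifferentiableOn ℂ (J n) (ball z₀ s₀) ∧ ∀ x : ℂ, s₀ / 4 < dist x z₀ → dist x z₀ < s₀ → J n x = JJ α (y n + x • a) (f n x) (g n x) := by
      refine ⟨fun n => if hn : ∃ J' : ℂ → ℂ, DifferentiableOn ℂ J' (ball z₀ s₀) ∧
        ∀ x : ℂ, s₀ / 4 < dist x z₀ → dist x z₀ < s₀ → J' x = JJ α (y n + x • a) (f n x) (g n x) then hn.choose else 0, fun n hn => ?_⟩
      simp only [dif_pos hn]
      exact hn.choose_spec
    have hJn := hJ.mono fun n hn => hJs n hn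
    refine ⟨s₀, J, hs₀, fun x hx hxD => ?_, hJn.mono fun n hn => hn.1, fun δ hδ => ?_⟩
    · by_contra hne
      exact hoff x hne (mem_closedBall.1 hx) hxD
    · have hU : IsOpen {x : ℂ | δ / 4 < dist x z₀ ∧ dist x z₀ < s₀} :=
        (isOpen_lt continuous_const (continuous_id.dist continuous_const)).inter (isOpen_lt (continuous_id.dist continuous_const) continuous_const)
      filter_upwards [hJn, JFam_an G hy hf hg hh hfh hgh α (hKc (δ / 4)) (hKD (δ / 4) (by linarith)) hU (fun x hx => ⟨hx.1.le, hx.2.le⟩),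
        hy.eventually (ball_mem_nhds y₀ (half_pos hδ))] with n hn hdn hyn x hx hxG
      have hx1 : δ / 2 < dist x z₀ := by
        have h1 := hxG p hD
        have e : y n + x • a - p = (y n - y₀) + (x - z₀) • a := by
          rw [hp, sub_smul]
          abel
        have h2 := norm_add_le (y n - y₀) ((x - z₀) • a)
        rw [norm_smul, hL.norm, mul_one, ← e] at h2
        have h3 : ‖y n - y₀‖ < δ / 2 := by
          rw [← dist_eq_norm]
          exact mem_ball.1 hyn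
        rw [dist_eq_norm]
        linarith
      have hx2 : dist x z₀ < s₀ := mem_ball.1 hx
      -- the point `q`
      set t : ℝ := (max (s₀ / 4) (δ / 4) + s₀) / 2 with ht
      have hm : max (s₀ / 4) (δ / 4) < s₀ := max_lt (by linarith) (by linarith)
      have ht1 : max (s₀ / 4) (δ / 4) < t := by linarith
      have ht2 : t < s₀ := by linarith
      have ht0 : 0 < t := lt_trans (lt_of_lt_of_le (by linarith) (le_max_left (s₀ / 4) (δ / 4))) ht1
      have hqd : dist (z₀ + (t : ℂ)) z₀ = t := by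
        rw [dist_eq_norm, add_sub_cancel_left, Complex.norm_real, Real.norm_of_nonneg ht0.le]
      have hqU : z₀ + (t : ℂ) ∈ {x : ℂ | δ / 4 < dist x z₀ ∧ dist x z₀ < s₀} := by
        rw [Set.mem_ofPred_eq, hqd]
        exact ⟨lt_of_le_of_lt (le_max_right _ _) ht1, ht2⟩
      have hsub : {x : ℂ | δ / 4 < dist x z₀ ∧ dist x z₀ < s₀} ⊆ ball z₀ s₀ := fun x hx => hx.2
      have hA1 : AnalyticOnNhd ℂ (J n) {x : ℂ | δ / 4 < dist x z₀ ∧ dist x z₀ < s₀} := (hn.1.mono hsub).analyticOnNhd hU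
      have hA2 := hdn.analyticOnNhd hU
      have heq : J n =ᶠ[𝓝 (z₀ + (t : ℂ))] fun x => JJ α (y n + x • a) (f n x) (g n x) := by
        have h1 : IsOpen {x : ℂ | s₀ / 4 < dist x z₀ ∧ dist x z₀ < s₀} :=
          (isOpen_lt continuous_const (continuous_id.dist continuous_const)).inter (isOpen_lt (continuous_id.dist continuous_const) continuous_const)
        have h2 : z₀ + (t : ℂ) ∈ {x : ℂ | s₀ / 4 < dist x z₀ ∧ dist x z₀ < s₀} := by
          rw [Set.mem_ofPred_eq, hqd]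
          exact ⟨lt_of_le_of_lt (le_max_left _ _) ht1, ht2⟩
        filter_upwards [h1.mem_nhds h2] with x hx
        exact hn.2 x hx.1 hx.2
      exact hA1.eqOn_of_preconnected_of_eventuallyEq hA2 (isPreconnected_ann z₀ (by linarith)) hqU heq ⟨by linarith, hx2⟩
  · -- not a hit
    have hop : IsOpen {x : ℂ | y₀ + x • a ∉ D} := by
      have hc : Continuous fun x : ℂ => y₀ + x • a := by fun_prop
      exact G.D_closed.isOpen_compl.preimage hc
    obtain ⟨r, hr, hrs⟩ := Metric.isOpen_iff.1 hop z₀ hD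
    have hK : ∀ x ∈ closedBall z₀ (r / 2), y₀ + x • a ∉ D := fun x hx => hrs (closedBall_subset_ball (by linarith) hx)
    refine ⟨r / 2, fun n x => JJ α (y n + x • a) (f n x) (g n x), half_pos hr, fun x hx hxD => absurd hxD (hK x hx), ?_, fun δ hδ => Eventually.of_forall fun n x _ _ => rfl⟩
    exact JFam_an G hy hf hg hh hfh hgh α (isCompact_closedBall z₀ (r / 2)) hK isOpen_ball ball_subset_closedBall

theorem jfam (G : Geo X Λ u D B) (hL : LG Λ D Bad a) (hCR : ∀ p ∈ D, p ∉ Bad → CRL X Λ u D a p) {ι : Type*} {𝒰 : Ultrafilter ι} {y : ι → Vd (k + 1)} {y₀ : Vd (k + 1)}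
    (hy : Tendsto y 𝒰 (𝓝 y₀)) {f g : ι → ℂ → MN N} {h : ℂ → MN N} (hf : ∀ᶠ n in (𝒰 : Filter ι), f n ∈ Hc X Λ u a (y n))
    (hg : ∀ᶠ n in (𝒰 : Filter ι), g n ∈ Hc X Λ u a (y n)) (hh : h ∈ Hc X Λ u a y₀) (hfh : Lm D a 𝒰 y₀ f h) (hgh : Lm D a 𝒰 y₀ g h) (α : VForm X Λ u) :
    ∃ (r : ℂ → ℝ) (J : ℂ → ι → ℂ → ℂ), ∀ z₀ : ℂ, y₀ + z₀ • a ∉ Bad → 0 < r z₀ ∧ (∀ᶠ n in (𝒰 : Filter ι), DifferentiableOn ℂ (J z₀ n) (ball z₀ (r z₀))) ∧
      (∀ z₁ : ℂ, y₀ + z₁ • a ∉ Bad → ∀ᶠ n in (𝒰 : Filter ι), ∀ x ∈ ball z₀ (r z₀) ∩ ball z₁ (r z₁), J z₀ n x = J z₁ n x) ∧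
      ∀ δ : ℝ, 0 < δ → ∀ᶠ n in (𝒰 : Filter ι), ∀ x ∈ ball z₀ (r z₀), y n + x • a ∈ Gd D δ → J z₀ n x = JJ α (y n + x • a) (f n x) (g n x) := by
  classical
  have hhc := hc_cont G.cone hh
  have hloc := JFam_loc G hL hCR hy hf hg hhc hfh hgh α
  refine ⟨fun z₀ => if hz : y₀ + z₀ • a ∉ Bad then (hloc z₀ hz).choose else 1, fun z₀ => if hz : y₀ + z₀ • a ∉ Bad then (hloc z₀ hz).choose_spec.choose else 0,
    fun z₀ hz₀ => ?_⟩
  simp only [dif_pos hz₀]
  obtain ⟨h1, h2, h3, h4⟩ := (hloc z₀ hz₀).choose_spec.choose_spec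
  refine ⟨h1, h3, fun z₁ hz₁ => ?_, h4⟩
  simp only [dif_pos hz₁]
  obtain ⟨k1, k2, k3, k4⟩ := (hloc z₁ hz₁).choose_spec.choose_spec
  by_cases he : z₀ = z₁
  · subst he
    exact Eventually.of_forall fun n x _ => rfl
  · have hK : IsCompact (closedBall z₀ (hloc z₀ hz₀).choose ∩ closedBall z₁ (hloc z₁ hz₁).choose) := (isCompact_closedBall _ _).inter (isCompact_closedBall _ _)
    obtain ⟨δ, hδ, hg1, -⟩ := JFam_K G.D_closed hy hhc hfh hgh hK (fun z hz hzD => he ((h2 z hz.1 hzD).symm.trans (k2 z hz.2 hzD)))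
    filter_upwards [hg1, h4 δ hδ, k4 δ hδ] with n m1 m2 m3 x hx
    have hxG := m1 x ⟨ball_subset_closedBall hx.1, ball_subset_closedBall hx.2⟩
    rw [m2 x hx.1 hxG, m3 x hx.2 hxG]

end Pool.Agent.G3.A

end

section

/-!
# G3 A HP: two curves which are close in a half plane are equal

`κ = c₀ / 8`.  `hp_claim` by contradiction: `R n → ∞`, `ε n → 0`, `z n` near maximum over the core with `‖z n - c n‖ < R n - 2` and `dist ≠ 0`; recentre: `f n (z n + ·)`, `g n (z n + ·)` over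
`y n + z n a`, moved by `Λ` (`hc_per`) into a bounded set, limits `y₀`, curves `f₀ = g₀` (`hc_closed`; dist ≤ `ε n` in the core of the half plane `HP ν (-2)`, which is the limit of the
discs: use the circles `LC.thick` and `hc_eq`).  Put `d n = dist (f n 0) (g n 0)`, `e n z = exp (- 2 κ conj (z n - c n) z)`: `dist (f n z) (g n z) ‖e n z‖ ≤ 2 d n exp (κ ‖z‖²)` in the core, and by `md`
(circles `LC.thick`, `r ≤ 2 ρ ≤ 1 / 2`) `≤ C d n exp (2 κ ‖z‖² + 1)` at all `z` of depth `≥ - 1` over `Gd D δ`.  `LL` (file `LLim`) with `g z₀ n x = J z₀ n x * e n x / d n` (`jfam`), `E = {z | y₀ + z a ∈ Bad}`,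
`Rg n = {x | y n + x a ∈ Gd D δ}`, `jb` for the bound: `→ 0` for every `j`; `jn` at `0`: `max_j ≥ c > 0`.  Contradiction.
`hp_rigid`: `md` and `R → ∞` with discs in the half plane which touch its boundary: `dist (f z) (g z) ≤ 2 ε₀ exp (4 κ R - κ (R² - (R - t)²))` at core points of depth `t > 2`; `f = g` on a circle, `hc_eq`.
-/

set_option autoImplicit false

open Topology Filter Metric

namespace Pool.Agent.G3.A

open Pool.Agent.H36.BP (EN fs wd)
open Pool.Agent.H14.PP (IsCone CurveAt Tan)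
open Pool.Agent.H62.EF (MN pr)
open Pool.Agent.AD (Vd Chart Charts IsGerm)
open Pool.Agent.TG
open Pool.Agent.G3.C (Gc HP)

variable {N k : ℕ} {X : Set (EN N)} {Λ : AddSubgroup (Vd (k + 1))} {u : EN N → Vd (k + 1)} {D B Bad : Set (Vd (k + 1))} {a : Vd (k + 1)}

variable {J : ℕ} {α : Fin J → VForm X Λ u} {c₀ C₀ ρ δ : ℝ}

private theorem hp_co_aux (hL : LG Λ D Bad a) {y l : Vd (k + 1)} (hl : l ∈ Λ) (h : y ∈ Co D Bad δ ρ) : y + l ∈ Co D Bad δ ρ := by
  refine ⟨fun b hb => ?_, fun β hβ => ?_⟩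
  · have h1 := h.1 (b + -l) (hL.D_inv b hb (-l) (Λ.neg_mem hl))
    have e : y - (b + -l) = y + l - b := by abel
    rwa [e] at h1
  · have h1 := h.2 (β + -l) (hL.bad_inv β hβ (-l) (Λ.neg_mem hl))
    have e : y - (β + -l) = y + l - β := by abel
    rwa [e] at h1

private theorem hp_co (hL : LG Λ D Bad a) {y l : Vd (k + 1)} (hl : l ∈ Λ) : y + l ∈ Co D Bad δ ρ ↔ y ∈ Co D Bad δ ρ := by
  refine ⟨fun h => ?_, hp_co_aux hL hl⟩
  have h1 := hp_co_aux hL (Λ.neg_mem hl) h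
  rwa [add_neg_cancel_right] at h1

private theorem hp_im {ν : ℂ} (hν : ‖ν‖ = 1) (z w : ℂ) : ((starRingEnd ℂ) ν * z).im - ‖z - w‖ ≤ ((starRingEnd ℂ) ν * w).im := by
  have h1 : ((starRingEnd ℂ) ν * z).im - ((starRingEnd ℂ) ν * w).im = ((starRingEnd ℂ) ν * (z - w)).im := by
    rw [mul_sub, Complex.sub_im]
  have h2 := Complex.abs_im_le_norm ((starRingEnd ℂ) ν * (z - w))
  rw [norm_mul, RCLike.norm_conj, hν, one_mul] at h2
  have h3 := le_abs_self ((starRingEnd ℂ) ν * (z - w)).im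
  linarith only [h1, h2, h3]

private theorem hp_im_norm {ν : ℂ} (hν : ‖ν‖ = 1) (z : ℂ) : -‖z‖ ≤ ((starRingEnd ℂ) ν * z).im := by
  have h2 := Complex.abs_im_le_norm ((starRingEnd ℂ) ν * z)
  rw [norm_mul, RCLike.norm_conj, hν, one_mul] at h2
  have h3 := neg_abs_le ((starRingEnd ℂ) ν * z).im
  linarith only [h2, h3]

private theorem hp_nsq (z c : ℂ) : ‖z - c‖ ^ 2 = ‖z‖ ^ 2 - 2 * ((starRingEnd ℂ) c * z).re + ‖c‖ ^ 2 := by
  rw [Complex.sq_norm, Complex.sq_norm, Complex.sq_norm, Complex.normSq_sub, mul_comm z]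
  ring

/-- the limit of the discs is a half plane or the plane -/
private theorem hp_disc {c : ℕ → ℂ} {R : ℕ → ℝ} {𝒰 : Ultrafilter ℕ} (hR : Tendsto R (𝒰 : Filter ℕ) atTop) (hc : ∀ n, ‖c n‖ < R n - 2) :
    ∃ ν : ℂ, ‖ν‖ = 1 ∧ ∀ M η : ℝ, 0 < η → ∀ᶠ n in (𝒰 : Filter ℕ), ∀ z : ℂ, ‖z‖ ≤ M → -2 + η < ((starRingEnd ℂ) ν * z).im → z ∈ ball (c n) (R n) := by
  classical
  obtain ⟨v, hv⟩ : ∃ v : ℕ → ℂ, v = fun n => if c n = 0 then 1 else (‖c n‖ : ℂ)⁻¹ * c n := ⟨_, rfl⟩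
  have hv1 : ∀ n, ‖v n‖ = 1 := by
    intro n
    rw [hv]
    by_cases h : c n = 0
    · simp [h]
    · simp only [h, if_false]
      rw [norm_mul, norm_inv, Complex.norm_real, norm_norm, inv_mul_cancel₀ (norm_ne_zero_iff.2 h)]
  have hcv : ∀ n, c n = (‖c n‖ : ℂ) * v n := by
    intro n
    rw [hv]
    by_cases h : c n = 0
    · simp [h]
    · simp only [h, if_false]
      have h1 : (‖c n‖ : ℂ) ≠ 0 := by exact_mod_cast norm_ne_zero_iff.2 h
      rw [← mul_assoc, mul_inv_cancel₀ h1, one_mul]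
  obtain ⟨w, hw, hwt⟩ := (isCompact_sphere (0 : ℂ) 1).ultrafilter_le_nhds (𝒰.map v) (by
    rw [Ultrafilter.coe_map, le_principal_iff, mem_map]
    refine univ_mem' fun n => ?_
    simpa using hv1 n)
  have hwt' : Tendsto v (𝒰 : Filter ℕ) (𝓝 w) := hwt
  have hw1 : ‖w‖ = 1 := by simpa using hw
  refine ⟨-Complex.I * w, by rw [norm_mul, norm_neg, Complex.norm_I, hw1, one_mul], fun M η hη => ?_⟩
  obtain ⟨M', hM'⟩ : ∃ M' : ℝ, M' = max M 0 := ⟨_, rfl⟩
  have hM0 : 0 ≤ M' := by rw [hM']; exact le_max_right _ _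
  have hMM : M ≤ M' := by rw [hM']; exact le_max_left _ _
  have e1 : ∀ᶠ n in (𝒰 : Filter ℕ), dist (v n) w < η / (2 * (M' + 1)) := hwt'.eventually (ball_mem_nhds _ (by positivity))
  have e2 : ∀ᶠ n in (𝒰 : Filter ℕ), M' + M' ^ 2 / η < R n := hR.eventually_gt_atTop _
  filter_upwards [e1, e2] with n h1 h2 z hz hd
  have hzM : ‖z‖ ≤ M' := hz.trans hMM
  have hd' : -2 + η < ((starRingEnd ℂ) w * z).re := by
    have e : ((starRingEnd ℂ) (-Complex.I * w) * z).im = ((starRingEnd ℂ) w * z).re := by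
      rw [map_mul, map_neg, Complex.conj_I, neg_neg, mul_assoc, Complex.I_mul_im]
    rwa [e] at hd
  have hvz : -2 + η / 2 < ((starRingEnd ℂ) (v n) * z).re := by
    have h3 : ((starRingEnd ℂ) w * z).re - ((starRingEnd ℂ) (v n) * z).re ≤ η / 2 := by
      have h4 : ((starRingEnd ℂ) w * z).re - ((starRingEnd ℂ) (v n) * z).re = ((starRingEnd ℂ) (w - v n) * z).re := by
        rw [map_sub, sub_mul, Complex.sub_re]
      rw [h4]
      refine (Complex.re_le_norm _).trans ?_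
      rw [norm_mul, RCLike.norm_conj, ← dist_eq_norm, dist_comm]
      calc dist (v n) w * ‖z‖ ≤ η / (2 * (M' + 1)) * (M' + 1) := by
            refine mul_le_mul h1.le (by linarith only [hMM, hz]) (norm_nonneg _) (by positivity)
        _ = η / 2 := by field_simp
    linarith only [hd', h3]
  rw [mem_ball, dist_eq_norm]
  have hs0 : 0 ≤ ‖c n‖ := norm_nonneg _
  have hRc := hc n
  rcases le_or_gt (M' ^ 2 / η) ‖c n‖ with hs | hs
  · have h3 : M' ^ 2 ≤ η * ‖c n‖ := by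
      rw [div_le_iff₀ hη] at hs
      linarith only [hs]
    have h4 : ((starRingEnd ℂ) (c n) * z).re = ‖c n‖ * ((starRingEnd ℂ) (v n) * z).re := by
      conv_lhs => rw [hcv n]
      rw [map_mul, Complex.conj_ofReal, mul_assoc, Complex.re_ofReal_mul]
    have h5 := hp_nsq z (c n)
    rw [h4] at h5
    have h6 : ‖z‖ ^ 2 ≤ M' ^ 2 := by gcongr
    have h7 : ‖c n‖ * (-2 + η / 2) ≤ ‖c n‖ * ((starRingEnd ℂ) (v n) * z).re := mul_le_mul_of_nonneg_left hvz.le hs0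
    have h8 : ‖z - c n‖ ^ 2 < R n ^ 2 := by nlinarith only [hRc, h3, h5, h6, h7, hs0]
    exact lt_of_pow_lt_pow_left₀ 2 (by linarith only [hs0, hRc]) h8
  · have h3 := norm_sub_le z (c n)
    linarith only [hMM, h2, hz, hs, h3]

/-- the core of the claim: the contradiction after recentering -/
private theorem hp_core (S : DA X Λ u D B Bad a α c₀ C₀ ρ δ) {y : ℕ → Vd (k + 1)} {f g : ℕ → ℂ → MN N} {c : ℕ → ℂ} {R ε : ℕ → ℝ} {Q : ℝ}
    (hy : ∀ n, ‖y n‖ ≤ Q) (hf : ∀ n, f n ∈ Hc X Λ u a (y n)) (hg : ∀ n, g n ∈ Hc X Λ u a (y n)) (hR : Tendsto R atTop atTop) (hε : Tendsto ε atTop (𝓝 0))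
    (hc : ∀ n, ‖c n‖ < R n - 2) (h1 : ∀ n, ∀ z ∈ ball (c n) (R n), y n + z • a ∈ Co D Bad δ ρ → dist (f n z) (g n z) ≤ ε n)
    (h2 : ∀ n, y n ∈ Co D Bad δ ρ) (h3 : ∀ n, ∀ z ∈ ball (c n) (R n), y n + z • a ∈ Co D Bad δ ρ →
      dist (f n z) (g n z) * Real.exp (c₀ / 8 * (R n ^ 2 - ‖z - c n‖ ^ 2)) ≤ 2 * (dist (f n 0) (g n 0) * Real.exp (c₀ / 8 * (R n ^ 2 - ‖c n‖ ^ 2))))
    (h4 : ∀ n, f n 0 ≠ g n 0) : False := by
  obtain ⟨𝒰, h𝒰⟩ : ∃ 𝒰 : Ultrafilter ℕ, (𝒰 : Filter ℕ) ≤ atTop := ⟨hyperfilter ℕ, Nat.hyperfilter_le_atTop⟩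
  have hX := S.geo.cone
  have hδ := S.lc.δ_pos
  have hρ := S.lc.ρ_pos
  have hρ4 := S.lc.ρ_le
  have hδρ := S.lc.δ_le
  have ha := S.lc.norm
  have hc₀ := S.c_pos
  have hR' : Tendsto R (𝒰 : Filter ℕ) atTop := hR.mono_left h𝒰
  have hε' : Tendsto ε (𝒰 : Filter ℕ) (𝓝 0) := hε.mono_left h𝒰
  obtain ⟨y₀, -, hy₀⟩ := (isCompact_closedBall (0 : Vd (k + 1)) Q).ultrafilter_le_nhds (𝒰.map y) (by
    rw [Ultrafilter.coe_map, le_principal_iff, mem_map]
    refine univ_mem' fun n => ?_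
    simpa using hy n)
  have hyt : Tendsto y (𝒰 : Filter ℕ) (𝓝 y₀) := hy₀
  have hyn : ∀ t : ℝ, 0 < t → ∀ᶠ n in (𝒰 : Filter ℕ), ‖y n - y₀‖ ≤ t := by
    intro t ht
    filter_upwards [hyt.eventually (ball_mem_nhds y₀ ht)] with n hn
    rw [← dist_eq_norm]
    exact (mem_ball.1 hn).le
  have hna : ∀ z : ℂ, ‖z • a‖ = ‖z‖ := fun z => by rw [norm_smul, ha, mul_one]
  obtain ⟨ν, hν, hball⟩ := hp_disc hR' hc
  obtain ⟨f₀, hf₀, hff⟩ := hc_closed S.geo S.lg S.nl hyt (Eventually.of_forall hf)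
  obtain ⟨g₀, hg₀, hgg⟩ := hc_closed S.geo S.lg S.nl hyt (Eventually.of_forall hg)
  -- the limits are equal
  have hfg : f₀ = g₀ := by
    obtain ⟨r, hr0, hr, hth⟩ := S.lc.thick y₀
    have key : ∀ z : ℂ, |‖z‖ - r| ≤ δ → f₀ z = g₀ z := by
      intro z hz
      have hz1 : ‖z‖ ≤ 1 := by
        rw [abs_le] at hz
        linarith only [hδ, hρ4, hδρ, hr, hz, hz.2]
      have hzlt : ‖z‖ < 1 := by
        rw [abs_le] at hz
        linarith only [hδ, hρ4, hδρ, hr, hz, hz.2]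
      have hC₀ : y₀ + z • a ∈ Co D Bad δ ρ := hth y₀ (by rw [sub_self, norm_zero]; exact hδ.le) z hz
      have hD₀ : y₀ + z • a ∉ D := gd_notMem (by linarith) hC₀.1
      have t1 := hff z hD₀ (fun _ => z) tendsto_const_nhds
      have t2 := hgg z hD₀ (fun _ => z) tendsto_const_nhds
      have t3 : Tendsto (fun n => dist (f n z) (g n z)) (𝒰 : Filter ℕ) (𝓝 (dist (f₀ z) (g₀ z))) := t1.dist t2
      have hle : dist (f₀ z) (g₀ z) ≤ 0 := by
        refine le_of_tendsto_of_tendsto t3 hε' ?_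
        filter_upwards [hball 1 1 one_pos, hyn δ hδ] with n a1 a2
        have h5 := hp_im_norm hν z
        exact h1 n z (a1 z hz1 (by linarith)) (hth (y n) a2 z hz)
      exact dist_le_zero.1 hle
    refine hc_eq hX hf₀ hg₀ (z₀ := (r : ℂ)) ?_
    have hev : ∀ᶠ z in 𝓝 (r : ℂ), f₀ z = g₀ z := by
      have h5 : ContinuousAt (fun z : ℂ => |‖z‖ - r|) (r : ℂ) := by fun_prop
      have h6 : |‖(r : ℂ)‖ - r| < δ := by
        rw [Complex.norm_real, Real.norm_eq_abs, abs_of_pos hr0, sub_self, abs_zero]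
        exact hδ
      filter_upwards [h5.eventually_lt_const h6] with z hz
      exact key z hz.le
    exact (hev.filter_mono nhdsWithin_le_nhds).frequently
  rw [← hfg] at hgg
  -- the maximum principle
  obtain ⟨Cm, hCm, hmd⟩ := md (Λ := Λ) (u := u) hX S.nl hδ
  obtain ⟨d, hd⟩ : ∃ d : ℕ → ℝ, d = fun n => dist (f n 0) (g n 0) := ⟨_, rfl⟩
  have hd0 : ∀ n, 0 < d n := fun n => by
    rw [hd]
    exact dist_pos.2 (h4 n)
  obtain ⟨e, he⟩ : ∃ e : ℕ → ℂ → ℂ, e = fun n z => Complex.exp (((c₀ / 4 : ℝ) : ℂ) * ((starRingEnd ℂ) (c n) * z)) := ⟨_, rfl⟩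
  have hed : ∀ n, Differentiable ℂ (e n) := by
    intro n
    rw [he]
    fun_prop
  have hen : ∀ n z, ‖e n z‖ = Real.exp (c₀ / 4 * ((starRingEnd ℂ) (c n) * z).re) := by
    intro n z
    rw [he]
    simp only
    rw [Complex.norm_exp, Complex.re_ofReal_mul]
  have hw : ∀ n, ∀ z ∈ ball (c n) (R n), y n + z • a ∈ Co D Bad δ ρ → dist (f n z) (g n z) * ‖e n z‖ ≤ 2 * d n * Real.exp (c₀ / 8 * ‖z‖ ^ 2) := by
    intro n z hz hzC
    have h5 := h3 n z hz hzC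
    rw [hp_nsq z (c n)] at h5
    have h6 : Real.exp (c₀ / 8 * (R n ^ 2 - (‖z‖ ^ 2 - 2 * ((starRingEnd ℂ) (c n) * z).re + ‖c n‖ ^ 2))) =
        Real.exp (c₀ / 4 * ((starRingEnd ℂ) (c n) * z).re) * Real.exp (c₀ / 8 * (R n ^ 2 - ‖c n‖ ^ 2)) * (Real.exp (c₀ / 8 * ‖z‖ ^ 2))⁻¹ := by
      rw [← Real.exp_neg, ← Real.exp_add, ← Real.exp_add]
      congr 1
      ring
    rw [h6, ← hen n z] at h5
    have hp1 : 0 < Real.exp (c₀ / 8 * (R n ^ 2 - ‖c n‖ ^ 2)) := Real.exp_pos _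
    have hp2 : 0 < Real.exp (c₀ / 8 * ‖z‖ ^ 2) := Real.exp_pos _
    have h7 : dist (f n z) (g n z) * ‖e n z‖ * (Real.exp (c₀ / 8 * ‖z‖ ^ 2))⁻¹ ≤ 2 * d n := by
      refine le_of_mul_le_mul_right ?_ hp1
      calc dist (f n z) (g n z) * ‖e n z‖ * (Real.exp (c₀ / 8 * ‖z‖ ^ 2))⁻¹ * Real.exp (c₀ / 8 * (R n ^ 2 - ‖c n‖ ^ 2))
          = dist (f n z) (g n z) * (‖e n z‖ * Real.exp (c₀ / 8 * (R n ^ 2 - ‖c n‖ ^ 2)) * (Real.exp (c₀ / 8 * ‖z‖ ^ 2))⁻¹) := by ring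
        _ ≤ _ := h5
        _ = 2 * d n * Real.exp (c₀ / 8 * (R n ^ 2 - ‖c n‖ ^ 2)) := by rw [hd]; ring
    rw [← div_eq_mul_inv, div_le_iff₀ hp2] at h7
    exact h7
  -- bounds at all points over `Gd D δ`
  have hbd : ∀ M : ℝ, ∀ᶠ n in (𝒰 : Filter ℕ), ∀ x : ℂ, ‖x‖ ≤ M → -(5 / 4) < ((starRingEnd ℂ) ν * x).im → y n + x • a ∈ Gd D δ →
      dist (f n x) (g n x) ≤ Cm * ε n ∧ dist (f n x) (g n x) * ‖e n x‖ ≤ Cm * (2 * d n * Real.exp (c₀ / 8 * (‖x‖ + 1 / 2) ^ 2)) := by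
    intro M
    filter_upwards [hball (M + 1 / 2) (1 / 4) (by norm_num)] with n hn x hx hdx hxG
    obtain ⟨r, hr0, hr, hth⟩ := S.lc.thick (y n + x • a)
    have hr1 : r ≤ 1 / 2 := by linarith only [hρ4, hr]
    have hcirc : ∀ z : ℂ, ‖z - x‖ = r → z ∈ ball (c n) (R n) ∧ y n + z • a ∈ Co D Bad δ ρ ∧ ‖z‖ ≤ ‖x‖ + 1 / 2 := by
      intro z hz
      have h5 : ‖z‖ ≤ ‖x‖ + 1 / 2 := by
        have := norm_le_norm_add_norm_sub x z
        rw [norm_sub_rev, hz] at this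
        linarith only [hρ4, hr, this]
      have h6 := hp_im hν x z
      rw [norm_sub_rev, hz] at h6
      refine ⟨hn z (by linarith only [hx, h5]) (by linarith only [hρ4, hdx, hr, h6]), ?_, h5⟩
      have h7 := hth (y n + x • a) (by rw [sub_self, norm_zero]; exact hδ.le) (z - x) (by rw [hz, sub_self, abs_zero]; exact hδ.le)
      have e1 : y n + x • a + (z - x) • a = y n + z • a := by
        rw [sub_smul]
        abel
      rwa [e1] at h7
    have hxm : x ∈ closedBall x r := mem_closedBall_self hr0.le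
    constructor
    · have h5 := hmd (y n) (y n) (f n) (hf n) (g n) (hg n) x r hr0 (by linarith only [hδ, hρ4, hδρ, hr]) (fun _ => 1) (differentiableOn_const _) (ε n) (fun z hz => by
        obtain ⟨b1, b2, -⟩ := hcirc z hz
        rw [norm_one, mul_one]
        exact h1 n z b1 b2) x hxm hxG hxG
      rwa [norm_one, mul_one] at h5
    · refine hmd (y n) (y n) (f n) (hf n) (g n) (hg n) x r hr0 (by linarith only [hδ, hρ4, hδρ, hr]) (e n) (hed n).differentiableOn _ (fun z hz => ?_) x hxm hxG hxG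
      obtain ⟨b1, b2, b3⟩ := hcirc z hz
      refine (hw n z b1 b2).trans ?_
      have h5 : 0 ≤ 2 * d n := by linarith only [hd0, hd0 n]
      have h6 : ‖z‖ ^ 2 ≤ (‖x‖ + 1 / 2) ^ 2 := by
        have := norm_nonneg z
        gcongr
      refine mul_le_mul_of_nonneg_left (Real.exp_le_exp.2 ?_) h5
      exact mul_le_mul_of_nonneg_left h6 (by positivity)
  obtain ⟨ε', ε₀, -, -, hcst⟩ := exists_cst S.geo hδ one_pos
  -- `y₀` is in the core
  have hCo₀ : ∀ β ∈ Bad, ρ / 2 ≤ ‖y₀ - β‖ := by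
    intro β hβ
    have t1 : Tendsto (fun n => ‖y n - β‖) (𝒰 : Filter ℕ) (𝓝 ‖y₀ - β‖) := (hyt.sub_const β).norm
    exact ge_of_tendsto t1 (Eventually.of_forall fun n => (h2 n).2 β hβ)
  have hEn : ∀ z : ℂ, y₀ + z • a ∈ Bad → ρ / 2 ≤ ‖z‖ := by
    intro z hz
    have h5 := hCo₀ _ hz
    have e1 : y₀ - (y₀ + z • a) = -(z • a) := by abel
    rw [e1, norm_neg, hna] at h5
    exact h5
  have h0E : y₀ + (0 : ℂ) • a ∉ Bad := by
    intro h
    have := hEn 0 h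
    rw [norm_zero] at this
    linarith only [hδ, hδρ, this]
  obtain ⟨ω, W, hω, hW⟩ := S.lc.strip y₀
  have hGδ : ∀ n, y n ∈ Gd D δ := fun n => gd_mono (by linarith) (h2 n).1
  -- the limit lemma for one form
  have hlim : ∀ j, ∃ Jj : ℕ → ℂ, Tendsto (fun n => Jj n / (d n : ℂ)) (𝒰 : Filter ℕ) (𝓝 0) ∧
      ∀ᶠ n in (𝒰 : Filter ℕ), Jj n = JJ (α j) (y n) (f n 0) (g n 0) := by
    intro j
    obtain ⟨r, J', hJ⟩ := jfam S.geo S.lg S.cr hyt (Eventually.of_forall hf) (Eventually.of_forall hg) hf₀ hff hgg (α j)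
    obtain ⟨Cj, hCj, hjb⟩ := jb S.geo (S.dec j) S.C_pos hcst
    obtain ⟨G, hG⟩ : ∃ G : ℂ → ℕ → ℂ → ℂ, G = fun z₀ n x => J' z₀ n x * e n x / (d n : ℂ) := ⟨_, rfl⟩
    have hdne : ∀ n, (d n : ℂ) ≠ 0 := fun n => by exact_mod_cast (hd0 n).ne'
    have hLL : Tendsto (fun n => G 0 n 0) (𝒰 : Filter ℕ) (𝓝 0) := by
      refine LL (𝒰 := 𝒰) (ω := ω) (ν := ν) hω hν (E := {z | y₀ + z • a ∈ Bad}) (W := W) (ρ := ρ) (C := Cj * (Cm * 2) * Real.exp (c₀ * Q ^ 2 + c₀ / 16)) (c := c₀ / 4)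
        (fun z hz => hW z hz) hρ hρ4 ?_ (fun z hz => hEn z hz) (by positivity) (g := G) (r := fun z₀ => min (r z₀) (1 / 4))
        (Rg := fun n => {x | y n + x • a ∈ Gd D δ}) ?_ ?_ ?_ ?_
      · intro z hz z' hz' hne
        have h5 := S.lc.sep _ hz _ hz' (by
          intro h
          apply hne
          have h6 : (z - z') • a = 0 := by
            rw [sub_smul, sub_eq_zero]
            exact add_left_cancel h
          have h7 : ‖z - z'‖ = 0 := by rw [← hna, h6, norm_zero]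
          exact sub_eq_zero.1 (norm_eq_zero.1 h7))
        have e1 : y₀ + z • a - (y₀ + z' • a) = (z - z') • a := by
          rw [sub_smul]
          abel
        rw [e1, hna] at h5
        exact h5
      · intro z₀ _ hz₀
        obtain ⟨b1, b2, -, -⟩ := hJ z₀ hz₀
        refine ⟨lt_min b1 (by norm_num), ?_⟩
        filter_upwards [b2] with n hn
        rw [hG]
        exact ((hn.mono (ball_subset_ball (min_le_left _ _))).mul (hed n).differentiableOn).div_const _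
      · intro z₀ _ hz₀ z₁ _ hz₁ η hη
        obtain ⟨-, -, b3, -⟩ := hJ z₀ hz₀
        filter_upwards [b3 z₁ hz₁] with n hn x hx
        have h5 : J' z₀ n x = J' z₁ n x :=
          hn x ⟨ball_subset_ball (min_le_left _ _) hx.1, ball_subset_ball (min_le_left _ _) hx.2⟩
        rw [hG]
        simp only
        rw [h5, sub_self, norm_zero]
        exact hη.le
      · intro z₀ hz₀H hz₀
        obtain ⟨-, -, -, b4⟩ := hJ z₀ hz₀
        have hz₀H' : -1 < ((starRingEnd ℂ) ν * z₀).im := hz₀H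
        have hεe : ∀ᶠ n in (𝒰 : Filter ℕ), Cm * ε n < ε₀ := by
          have t1 : Tendsto (fun n => Cm * ε n) (𝒰 : Filter ℕ) (𝓝 (Cm * 0)) := hε'.const_mul Cm
          rw [mul_zero] at t1
          exact t1.eventually_lt_const hcst.ε₀_pos
        filter_upwards [b4 δ hδ, hbd (‖z₀‖ + 1 / 4), hεe] with n a1 a2 a3 x hx hxR
        have hxr : x ∈ ball z₀ (r z₀) := ball_subset_ball (min_le_left _ _) hx
        have hx4 : ‖x - z₀‖ < 1 / 4 := by
          rw [← dist_eq_norm]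
          exact lt_of_lt_of_le hx (min_le_right _ _)
        have hxn : ‖x‖ ≤ ‖z₀‖ + 1 / 4 := by
          have := norm_le_norm_add_norm_sub z₀ x
          rw [norm_sub_rev] at this
          linarith only [hx4, this]
        have hxd : -(5 / 4) < ((starRingEnd ℂ) ν * x).im := by
          have := hp_im hν z₀ x
          rw [norm_sub_rev] at this
          linarith only [hz₀H', hx4, this]
        obtain ⟨a4, a5⟩ := a2 x hxn hxd hxR
        have a6 : dist (f n x) (g n x) ≤ ε₀ := by linarith only [a3, a4]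
        have a7 := hjb _ hxR _ (hc_mem (hf n) x) _ (hc_mem (hg n) x) a6
        rw [← jj_eq_II hX S.geo.tor S.geo.lat hcst hxR (hc_mem (hf n) x) (hc_mem (hg n) x) a6, ← a1 x hxr hxR] at a7
        rw [hG]
        simp only
        rw [norm_div, norm_mul, Complex.norm_real, Real.norm_eq_abs, abs_of_pos (hd0 n), div_le_iff₀ (hd0 n)]
        have a8 : ‖x‖ ^ 2 ≤ 2 * ‖y n + x • a‖ ^ 2 + 2 * Q ^ 2 := by
          have b5 : ‖x‖ ≤ ‖y n + x • a‖ + Q := by
            rw [← hna x]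
            have e1 : x • a = (y n + x • a) - y n := by abel
            calc ‖x • a‖ = ‖(y n + x • a) - y n‖ := by rw [← e1]
              _ ≤ ‖y n + x • a‖ + ‖y n‖ := norm_sub_le _ _
              _ ≤ _ := by linarith only [hy, hy n]
          have b6 : ‖x‖ ^ 2 ≤ (‖y n + x • a‖ + Q) ^ 2 := by
            have := norm_nonneg x
            gcongr
          nlinarith only [b6, sq_nonneg (‖y n + x • a‖ - Q)]
        have a9 : (‖x‖ + 1 / 2) ^ 2 ≤ 2 * ‖x‖ ^ 2 + 1 / 2 := by nlinarith only [sq_nonneg (‖x‖ - 1 / 2)]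
        calc ‖J' z₀ n x‖ * ‖e n x‖ ≤ Cj * Real.exp (-(c₀ * ‖y n + x • a‖ ^ 2)) * dist (f n x) (g n x) * ‖e n x‖ :=
              mul_le_mul_of_nonneg_right a7 (norm_nonneg _)
          _ = Cj * Real.exp (-(c₀ * ‖y n + x • a‖ ^ 2)) * (dist (f n x) (g n x) * ‖e n x‖) := by ring
          _ ≤ Cj * Real.exp (-(c₀ * ‖y n + x • a‖ ^ 2)) * (Cm * (2 * d n * Real.exp (c₀ / 8 * (‖x‖ + 1 / 2) ^ 2))) :=
              mul_le_mul_of_nonneg_left a5 (by positivity)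
          _ = Cj * (Cm * 2) * (Real.exp (-(c₀ * ‖y n + x • a‖ ^ 2)) * Real.exp (c₀ / 8 * (‖x‖ + 1 / 2) ^ 2)) * d n := by ring
          _ ≤ Cj * (Cm * 2) * (Real.exp (c₀ * Q ^ 2 + c₀ / 16) * Real.exp (-(c₀ / 4 * ‖x‖ ^ 2))) * d n := by
              have b7 : Real.exp (-(c₀ * ‖y n + x • a‖ ^ 2)) * Real.exp (c₀ / 8 * (‖x‖ + 1 / 2) ^ 2) ≤
                  Real.exp (c₀ * Q ^ 2 + c₀ / 16) * Real.exp (-(c₀ / 4 * ‖x‖ ^ 2)) := by
                rw [← Real.exp_add, ← Real.exp_add]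
                refine Real.exp_le_exp.2 ?_
                nlinarith only [a8, hc₀, a9, mul_le_mul_of_nonneg_left a8 hc₀.le, mul_le_mul_of_nonneg_left a9 hc₀.le]
              have b8 : 0 ≤ Cj * (Cm * 2) := by positivity
              exact mul_le_mul_of_nonneg_right (mul_le_mul_of_nonneg_left b7 b8) (hd0 n).le
          _ = Cj * (Cm * 2) * Real.exp (c₀ * Q ^ 2 + c₀ / 16) * Real.exp (-(c₀ / 4 * ‖x‖ ^ 2)) * d n := by ring
      · intro z₀ _ hz₀E
        by_cases hex : ∃ z ∈ {z | y₀ + z • a ∈ Bad}, ‖z₀ - z‖ ≤ ρ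
        · obtain ⟨z, hz, hzρ⟩ := hex
          have h5 := S.lc.ann _ hz (z₀ - z) (hz₀E z hz).le hzρ
          have e1 : y₀ + z • a + (z₀ - z) • a = y₀ + z₀ • a := by
            rw [sub_smul]
            abel
          rw [e1] at h5
          refine ⟨δ / 2, by positivity, Or.inl ?_⟩
          filter_upwards [hyn (δ / 2) (by positivity)] with n hn x hx
          rw [mem_ball, dist_eq_norm] at hx
          have h6 : ‖y n + x • a - (y₀ + z₀ • a)‖ ≤ δ := by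
            have e2 : y n + x • a - (y₀ + z₀ • a) = (y n - y₀) + (x - z₀) • a := by
              rw [sub_smul]
              abel
            rw [e2]
            refine (norm_add_le _ _).trans ?_
            rw [hna]
            linarith only [hn, hx]
          have h7 := gd_near h5 h6
          have e3 : 2 * δ - δ = δ := by ring
          rw [e3] at h7
          exact h7
        · push Not at hex
          obtain ⟨s, hs0, hsρ, hcirc⟩ := S.lc.circ (y₀ + z₀ • a)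
          refine ⟨min (δ / 2) s, lt_min (by positivity) hs0, Or.inr ⟨s, hs0, by linarith only [hρ4, hsρ], fun z hz => ?_, ?_⟩⟩
          · have := hex z hz
            linarith only [hδ, hδρ, hsρ, this]
          · filter_upwards [hyn (δ / 2) (by positivity)] with n hn x hx
            have hx1 : |‖x - z₀‖ - s| < δ / 2 := lt_of_lt_of_le hx (min_le_left _ _)
            have hx2 : |‖x - z₀‖ - s| < s := lt_of_lt_of_le hx (min_le_right _ _)
            have hxz : 0 < ‖x - z₀‖ := by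
              rw [abs_lt] at hx2
              linarith only [hx2, hx2.1]
            obtain ⟨z', hz'⟩ : ∃ z' : ℂ, z' = ((s / ‖x - z₀‖ : ℝ) : ℂ) * (x - z₀) := ⟨_, rfl⟩
            have hz'n : ‖z'‖ = s := by
              rw [hz', norm_mul, Complex.norm_real, Real.norm_eq_abs, abs_of_pos (by positivity)]
              field_simp
            have hz'd : ‖x - z₀ - z'‖ = |‖x - z₀‖ - s| := by
              have e4 : x - z₀ - z' = ((1 - s / ‖x - z₀‖ : ℝ) : ℂ) * (x - z₀) := by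
                rw [hz']
                push_cast
                ring
              rw [e4, norm_mul, Complex.norm_real, Real.norm_eq_abs]
              nth_rewrite 2 [← abs_of_pos hxz]
              rw [← abs_mul]
              congr 1
              field_simp
            have h5 := hcirc z' hz'n
            have h6 : ‖y n + x • a - (y₀ + z₀ • a + z' • a)‖ ≤ δ := by
              have e2 : y n + x • a - (y₀ + z₀ • a + z' • a) = (y n - y₀) + (x - z₀ - z') • a := by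
                rw [sub_smul, sub_smul]
                abel
              rw [e2]
              refine (norm_add_le _ _).trans ?_
              rw [hna, hz'd]
              linarith only [hn, hx1]
            have h7 := gd_near h5 h6
            have e3 : 2 * δ - δ = δ := by ring
            rw [e3] at h7
            exact h7
    refine ⟨fun n => J' 0 n 0, ?_, ?_⟩
    · refine hLL.congr fun n => ?_
      rw [hG, he]
      simp
    · obtain ⟨b1, -, -, b4⟩ := hJ 0 h0E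
      filter_upwards [b4 δ hδ] with n hn
      have h5 := hn 0 (mem_ball_self b1) (by rw [zero_smul, add_zero]; exact hGδ n)
      rwa [zero_smul, add_zero] at h5
  choose Jj hJ1 hJ2 using hlim
  obtain ⟨ε₁, c₁, hε₁, -, hc₁, hjn⟩ := jn S.geo S.sep hcst Q
  have hd1 : ∀ n, d n ≤ ε n := by
    intro n
    have h5 := h1 n 0 (by
      rw [mem_ball, dist_eq_norm, zero_sub, norm_neg]
      linarith only [hδ, hρ4, hδρ, hc, hc n]) (by rw [zero_smul, add_zero]; exact h2 n)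
    rw [hd]
    exact h5
  have e1 : ∀ᶠ n in (𝒰 : Filter ℕ), ∀ j, ‖Jj j n / (d n : ℂ)‖ < c₁ := by
    rw [eventually_all]
    intro j
    have t1 := (hJ1 j).norm
    rw [norm_zero] at t1
    exact t1.eventually_lt_const hc₁
  have e2 : ∀ᶠ n in (𝒰 : Filter ℕ), ∀ j, Jj j n = JJ (α j) (y n) (f n 0) (g n 0) := by
    rw [eventually_all]
    exact hJ2
  have e3 : ∀ᶠ n in (𝒰 : Filter ℕ), ε n < min ε₁ ε₀ := hε'.eventually_lt_const (lt_min hε₁ hcst.ε₀_pos)
  obtain ⟨n, a1, a2, a3⟩ := (e1.and (e2.and e3)).exists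
  rw [lt_min_iff] at a3
  have m1 : f n 0 ∈ Fb X Λ u (y n) := by
    have := hc_mem (hf n) 0
    rwa [zero_smul, add_zero] at this
  have m2 : g n 0 ∈ Fb X Λ u (y n) := by
    have := hc_mem (hg n) 0
    rwa [zero_smul, add_zero] at this
  have hdn : dist (f n 0) (g n 0) = d n := by rw [hd]
  obtain ⟨j, hj⟩ := hjn (y n) (hGδ n) (hy n) _ m1 _ m2 (by rw [hdn]; linarith [hd1 n, a3.1])
  rw [hdn, ← jj_eq_II hX S.geo.tor S.geo.lat hcst (hGδ n) m1 m2 (by rw [hdn]; linarith [hd1 n, a3.2]), ← a2 j] at hj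
  have h5 := a1 j
  rw [norm_div, Complex.norm_real, Real.norm_eq_abs, abs_of_pos (hd0 n), div_lt_iff₀ (hd0 n)] at h5
  linarith

theorem hp_claim (S : DA X Λ u D B Bad a α c₀ C₀ ρ δ) : ∃ R₀ ε₀ : ℝ, 0 < R₀ ∧ 0 < ε₀ ∧ ∀ y : Vd (k + 1), ∀ f ∈ Hc X Λ u a y, ∀ g ∈ Hc X Λ u a y, ∀ (c : ℂ) (R : ℝ), R₀ ≤ R →
    (∀ z ∈ ball c R, y + z • a ∈ Co D Bad δ ρ → dist (f z) (g z) ≤ ε₀) → ∀ z₁ : ℂ, ‖z₁ - c‖ < R - 2 → y + z₁ • a ∈ Co D Bad δ ρ →
    (∀ z ∈ ball c R, y + z • a ∈ Co D Bad δ ρ → dist (f z) (g z) * Real.exp (c₀ / 8 * (R ^ 2 - ‖z - c‖ ^ 2)) ≤ 2 * (dist (f z₁) (g z₁) * Real.exp (c₀ / 8 * (R ^ 2 - ‖z₁ - c‖ ^ 2)))) →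
    f z₁ = g z₁ := by
  by_contra hcon
  push Not at hcon
  have hcon' : ∀ n : ℕ, ∃ y : Vd (k + 1), ∃ f ∈ Hc X Λ u a y, ∃ g ∈ Hc X Λ u a y, ∃ (c : ℂ) (R : ℝ), (n : ℝ) + 1 ≤ R ∧
      (∀ z ∈ ball c R, y + z • a ∈ Co D Bad δ ρ → dist (f z) (g z) ≤ 1 / ((n : ℝ) + 1)) ∧ ∃ z₁ : ℂ, ‖z₁ - c‖ < R - 2 ∧ y + z₁ • a ∈ Co D Bad δ ρ ∧
      (∀ z ∈ ball c R, y + z • a ∈ Co D Bad δ ρ → dist (f z) (g z) * Real.exp (c₀ / 8 * (R ^ 2 - ‖z - c‖ ^ 2)) ≤
        2 * (dist (f z₁) (g z₁) * Real.exp (c₀ / 8 * (R ^ 2 - ‖z₁ - c‖ ^ 2)))) ∧ f z₁ ≠ g z₁ := by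
    intro n
    obtain ⟨y, f, hf, g, hg, c, R, hR, h1, z₁, h2, h3, h4, h5⟩ := hcon ((n : ℝ) + 1) (1 / ((n : ℝ) + 1)) (by positivity) (by positivity)
    exact ⟨y, f, hf, g, hg, c, R, hR, h1, z₁, h2, h3, h4, h5⟩
  choose y f hf g hg c R hR h1 z₁ h2 h3 h4 h5 using hcon'
  obtain ⟨Q, hQ, hcpt⟩ := S.lg.lat.cpt
  choose l hl hyl using fun n => hcpt (y n + z₁ n • a)
  have hco : ∀ (n : ℕ) (z : ℂ), y n + z₁ n • a - l n + z • a ∈ Co D Bad δ ρ → y n + (z₁ n + z) • a ∈ Co D Bad δ ρ := by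
    intro n z hz
    have h6 := (hp_co S.lg (hl n)).2 hz
    have e : y n + z₁ n • a - l n + z • a + l n = y n + (z₁ n + z) • a := by
      rw [add_smul]
      abel
    rwa [e] at h6
  have hHc : ∀ (n : ℕ) (F : ℂ → MN N), F ∈ Hc X Λ u a (y n) → (fun z => F (z₁ n + z)) ∈ Hc X Λ u a (y n + z₁ n • a - l n) := by
    intro n F hF
    have h6 := hc_add hF (z₁ n)
    have h7 := hc_per (X := X) (u := u) (a := a) (y := y n + z₁ n • a) (Λ.neg_mem (hl n))
    rw [← sub_eq_add_neg] at h7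
    rw [h7]
    exact h6
  have hbl : ∀ (n : ℕ) (z : ℂ), z ∈ ball (c n - z₁ n) (R n) → z₁ n + z ∈ ball (c n) (R n) := by
    intro n z hz
    rw [mem_ball, dist_eq_norm] at hz ⊢
    have e : z₁ n + z - c n = z - (c n - z₁ n) := by ring
    rwa [e]
  refine hp_core S (y := fun n => y n + z₁ n • a - l n) (f := fun n z => f n (z₁ n + z)) (g := fun n z => g n (z₁ n + z)) (c := fun n => c n - z₁ n) (R := R)
    (ε := fun n : ℕ => 1 / ((n : ℝ) + 1)) (Q := Q) hyl (fun n => hHc n _ (hf n)) (fun n => hHc n _ (hg n)) ?_ tendsto_one_div_add_atTop_nhds_zero_nat ?_ ?_ ?_ ?_ ?_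
  · refine tendsto_atTop_mono (fun n => ?_) tendsto_natCast_atTop_atTop
    linarith [hR n]
  · intro n
    rw [norm_sub_rev]
    exact h2 n
  · intro n z hz hzC
    exact h1 n _ (hbl n z hz) (hco n z hzC)
  · intro n
    have h6 := (hp_co (δ := δ) (ρ := ρ) S.lg (Λ.neg_mem (hl n))).2 (h3 n)
    rwa [← sub_eq_add_neg] at h6
  · intro n z hz hzC
    have h6 := h4 n _ (hbl n z hz) (hco n z hzC)
    have e1 : z₁ n + z - c n = z - (c n - z₁ n) := by ring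
    rw [e1] at h6
    have e2 : ‖z₁ n - c n‖ = ‖c n - z₁ n‖ := norm_sub_rev _ _
    rw [e2] at h6
    simp only [add_zero]
    exact h6
  · intro n
    simp only [add_zero]
    exact h5 n

theorem hp_rigid (S : DA X Λ u D B Bad a α c₀ C₀ ρ δ) : ∃ ε₀ : ℝ, 0 < ε₀ ∧ ∀ y : Vd (k + 1), ∀ f ∈ Hc X Λ u a y, ∀ g ∈ Hc X Λ u a y, ∀ (ω : ℂ) (h : ℝ), ‖ω‖ = 1 →
    (∀ z ∈ HP ω h, y + z • a ∈ Co D Bad δ ρ → dist (f z) (g z) ≤ ε₀) → f = g := by
  obtain ⟨R₀, ε₀, hR₀, hε₀, hcl⟩ := hp_claim S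
  have hX := S.geo.cone
  have hδ := S.lc.δ_pos
  have hρ := S.lc.ρ_pos
  have hρ4 := S.lc.ρ_le
  have hδρ := S.lc.δ_le
  have hc₀ := S.c_pos
  refine ⟨ε₀, hε₀, fun y f hf g hg ω h hω hclose => ?_⟩
  have hωω : (starRingEnd ℂ) ω * ω = 1 := by
    rw [mul_comm, Complex.mul_conj, Complex.normSq_eq_norm_sq, hω]
    simp
  -- the bound on a disc in the half plane
  have hdisc : ∀ (c : ℂ) (R : ℝ), R₀ ≤ R → ball c R ⊆ HP ω h → ∀ z ∈ ball c R, y + z • a ∈ Co D Bad δ ρ →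
      dist (f z) (g z) ≤ 2 * ε₀ * Real.exp (c₀ / 8 * (4 * R) - c₀ / 8 * (R ^ 2 - ‖z - c‖ ^ 2)) := by
    intro c R hR hsub z hz hzC
    obtain ⟨Ψ, hΨ⟩ : ∃ Ψ : ℂ → ℝ, Ψ = fun z => dist (f z) (g z) * Real.exp (c₀ / 8 * (R ^ 2 - ‖z - c‖ ^ 2)) := ⟨_, rfl⟩
    have hR0 : 0 < R := lt_of_lt_of_le hR₀ hR
    have hkey : Ψ z ≤ 2 * ε₀ * Real.exp (c₀ / 8 * (4 * R)) := by
      by_contra hcon
      push Not at hcon
      obtain ⟨T, hT⟩ : ∃ T : Set ℝ, T = Ψ '' {z | z ∈ ball c R ∧ y + z • a ∈ Co D Bad δ ρ} := ⟨_, rfl⟩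
      have hTb : BddAbove T := by
        refine ⟨ε₀ * Real.exp (c₀ / 8 * R ^ 2), ?_⟩
        rw [hT]
        rintro _ ⟨w, ⟨hw1, hw2⟩, rfl⟩
        rw [hΨ]
        simp only
        refine mul_le_mul (hclose w (hsub hw1) hw2) (Real.exp_le_exp.2 ?_) (Real.exp_pos _).le hε₀.le
        refine mul_le_mul_of_nonneg_left ?_ (by positivity)
        linarith only [sq_nonneg ‖w - c‖]
      have hzT : Ψ z ∈ T := by
        rw [hT]
        exact ⟨z, ⟨hz, hzC⟩, rfl⟩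
      have hs1 : Ψ z ≤ sSup T := le_csSup hTb hzT
      have hpos : 0 < sSup T := lt_of_lt_of_le (lt_trans (by positivity) hcon) hs1
      obtain ⟨_, hb1, hb2⟩ := exists_lt_of_lt_csSup ⟨_, hzT⟩ (half_lt_self hpos)
      rw [hT] at hb1
      obtain ⟨z₁, ⟨hz₁, hz₁C⟩, rfl⟩ := hb1
      have hmax : ∀ w ∈ ball c R, y + w • a ∈ Co D Bad δ ρ → Ψ w ≤ 2 * Ψ z₁ := by
        intro w hw hwC
        have h6 : Ψ w ≤ sSup T := le_csSup hTb (by rw [hT]; exact ⟨w, ⟨hw, hwC⟩, rfl⟩)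
        linarith only [hb2, h6]
      rcases lt_or_ge ‖z₁ - c‖ (R - 2) with hlt | hge
      · have h6 := hcl y f hf g hg c R hR (fun w hw hwC => hclose w (hsub hw) hwC) z₁ hlt hz₁C (fun w hw hwC => by
          have := hmax w hw hwC
          rw [hΨ] at this
          exact this)
        have h7 : Ψ z₁ = 0 := by
          rw [hΨ]
          simp only
          rw [h6, dist_self, zero_mul]
        linarith only [hpos, hb2, h7]
      · have h6 : Ψ z₁ ≤ ε₀ * Real.exp (c₀ / 8 * (4 * R)) := by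
          rw [hΨ]
          simp only
          refine mul_le_mul (hclose z₁ (hsub hz₁) hz₁C) (Real.exp_le_exp.2 ?_) (Real.exp_pos _).le hε₀.le
          refine mul_le_mul_of_nonneg_left ?_ (by positivity)
          have h7 : ‖z₁ - c‖ < R := by rwa [mem_ball, dist_eq_norm] at hz₁
          rcases le_or_gt 2 R with hR2 | hR2
          · nlinarith only [hge, hR2, norm_nonneg (z₁ - c)]
          · nlinarith only [hR₀, hR2, hδ, hρ4, hδρ, hR, norm_nonneg (z₁ - c)]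
        have h7 := hmax z hz hzC
        linarith only [hcon, hs1, hb2, h6]
    have h6 : Ψ z = dist (f z) (g z) * Real.exp (c₀ / 8 * (R ^ 2 - ‖z - c‖ ^ 2)) := by rw [hΨ]
    rw [h6] at hkey
    rw [Real.exp_sub, ← mul_div_assoc, le_div_iff₀ (Real.exp_pos _)]
    exact hkey
  -- deep points
  have hdeep : ∀ z : ℂ, h + 2 < ((starRingEnd ℂ) ω * z).im → y + z • a ∈ Co D Bad δ ρ → f z = g z := by
    intro z hz hzC
    obtain ⟨t, ht⟩ : ∃ t : ℝ, t = ((starRingEnd ℂ) ω * z).im - h := ⟨_, rfl⟩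
    have ht2 : 2 < t := by linarith
    have hb : ∀ R : ℝ, max R₀ t < R → dist (f z) (g z) ≤ 2 * ε₀ * Real.exp (c₀ / 8 * (4 - 2 * t) * R + c₀ / 8 * t ^ 2) := by
      intro R hR
      rw [max_lt_iff] at hR
      obtain ⟨c, hc⟩ : ∃ c : ℂ, c = z + ω * (Complex.I * ((R - t : ℝ) : ℂ)) := ⟨_, rfl⟩
      have hzc : ‖z - c‖ = R - t := by
        rw [hc, sub_add_cancel_left, norm_neg, norm_mul, norm_mul, hω, Complex.norm_I, Complex.norm_real, Real.norm_eq_abs, abs_of_pos (by linarith), one_mul, one_mul]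
      have hcd : ((starRingEnd ℂ) ω * c).im = h + R := by
        rw [hc, mul_add, ← mul_assoc, hωω, one_mul, Complex.add_im]
        have : (Complex.I * ((R - t : ℝ) : ℂ)).im = R - t := by
          rw [Complex.I_mul_im, Complex.ofReal_re]
        rw [this, ht]
        ring
      have hsub : ball c R ⊆ HP ω h := by
        intro w hw
        rw [mem_ball, dist_eq_norm] at hw
        have h6 := hp_im hω c w
        rw [norm_sub_rev] at h6
        show h < ((starRingEnd ℂ) ω * w).im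
        linarith
      have h6 := hdisc c R hR.1.le hsub z (by rw [mem_ball, dist_eq_norm, hzc]; linarith) hzC
      rw [hzc] at h6
      refine h6.trans (le_of_eq ?_)
      congr 2
      ring
    have hlim : Tendsto (fun R : ℝ => 2 * ε₀ * Real.exp (c₀ / 8 * (4 - 2 * t) * R + c₀ / 8 * t ^ 2)) atTop (𝓝 0) := by
      have h6 : Tendsto (fun R : ℝ => c₀ / 8 * (4 - 2 * t) * R + c₀ / 8 * t ^ 2) atTop atBot := by
        refine tendsto_atBot_add_const_right _ _ ?_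
        refine (tendsto_const_mul_atBot_of_neg ?_).2 tendsto_id
        have : 4 - 2 * t < 0 := by linarith
        exact mul_neg_of_pos_of_neg (by positivity) this
      have h7 := (Real.tendsto_exp_atBot.comp h6).const_mul (2 * ε₀)
      rw [mul_zero] at h7
      exact h7
    have hle : dist (f z) (g z) ≤ 0 := ge_of_tendsto hlim (by
      filter_upwards [eventually_gt_atTop (max R₀ t)] with R hR
      exact hb R hR)
    exact dist_le_zero.1 hle
  -- a circle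
  obtain ⟨z₂, hz₂⟩ : ∃ z₂ : ℂ, z₂ = ω * (Complex.I * ((h + 4 : ℝ) : ℂ)) := ⟨_, rfl⟩
  have hz₂d : ((starRingEnd ℂ) ω * z₂).im = h + 4 := by
    rw [hz₂, ← mul_assoc, hωω, one_mul, Complex.I_mul_im, Complex.ofReal_re]
  obtain ⟨r, hr0, hr, hth⟩ := S.lc.thick (y + z₂ • a)
  have key : ∀ z : ℂ, |‖z - z₂‖ - r| ≤ δ → f z = g z := by
    intro z hz
    refine hdeep z ?_ ?_
    · have h6 := hp_im hω z₂ z
      rw [norm_sub_rev] at h6
      rw [abs_le] at hz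
      linarith [hz.2]
    · have h6 := hth (y + z₂ • a) (by rw [sub_self, norm_zero]; exact hδ.le) (z - z₂) hz
      have e1 : y + z₂ • a + (z - z₂) • a = y + z • a := by
        rw [sub_smul]
        abel
      rwa [e1] at h6
  refine hc_eq hX hf hg (z₀ := z₂ + (r : ℂ)) ?_
  have hev : ∀ᶠ z in 𝓝 (z₂ + (r : ℂ)), f z = g z := by
    have h5 : ContinuousAt (fun z : ℂ => |‖z - z₂‖ - r|) (z₂ + (r : ℂ)) := by fun_prop
    have h6 : |‖z₂ + (r : ℂ) - z₂‖ - r| < δ := by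
      rw [add_sub_cancel_left, Complex.norm_real, Real.norm_eq_abs, abs_of_pos hr0, sub_self, abs_zero]
      exact hδ
    filter_upwards [h5.eventually_lt_const h6] with z hz
    exact key z hz.le
  exact (hev.filter_mono nhdsWithin_le_nhds).frequently

end Pool.Agent.G3.A

end

section

/-!
# G3 A LOC: two curves over the same line which are close on a large disc are equal

`ε₁ ≤ ε₀` of `hp_rigid` for the constants `δ` (the closeness on `Gd D δ` passes to limits at the points over `Gd D (2 δ)`).  If it is false: `f n ≠ g n` close on discs of radius `n` (centre `0` after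
recentring).  Let `R n` be the supremum of the radii `R` such that `dist ≤ ε₁` on the part of `ball 0 R` over `Gd D δ`; it is finite (`hp_rigid`).  There is `z n`, `R n ≤ ‖z n‖ ≤ R n + 1 / n`, over `Gd D δ` with
`dist > ε₁`.  Recentre at `z n`, move by `Λ`, limits `f`, `g` over `y₀` (`hc_closed`), `y₀ ∈ Gd D δ` (closed): `dist (f 0) (g 0) ≥ ε₁`, and `dist (f z) (g z) ≤ ε₁` for `z` in a half plane
`{Re (conj ω z) < 0}`, `y₀ + z a ∈ Co` (`Gd D (2 δ)`, so `y n + z a ∈ Gd D δ` eventually).  `hp_rigid`: `f = g`.  Contradiction.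
-/

set_option autoImplicit false

open Topology Filter Metric

namespace Pool.Agent.G3.A

open Pool.Agent.H36.BP (EN fs wd)
open Pool.Agent.H14.PP (IsCone CurveAt Tan)
open Pool.Agent.H62.EF (MN pr)
open Pool.Agent.AD (Vd Chart Charts IsGerm)
open Pool.Agent.TG
open Pool.Agent.G3.C (Gc HP)

variable {N k : ℕ} {X : Set (EN N)} {Λ : AddSubgroup (Vd (k + 1))} {u : EN N → Vd (k + 1)} {D B Bad : Set (Vd (k + 1))} {a : Vd (k + 1)}

variable {J : ℕ} {α : Fin J → VForm X Λ u} {c₀ C₀ ρ δ : ℝ}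

private theorem loc_nsq (z c : ℂ) : ‖z - c‖ ^ 2 = ‖z‖ ^ 2 - 2 * ((starRingEnd ℂ) c * z).re + ‖c‖ ^ 2 := by
  rw [Complex.sq_norm, Complex.sq_norm, Complex.sq_norm, Complex.normSq_sub, mul_comm z]
  ring

/-- the limit of discs whose radii go to infinity and whose boundaries come near `0` contains an open half plane with `0` on its boundary -/
private theorem loc_disc {c : ℕ → ℂ} {R e : ℕ → ℝ} {𝒰 : Ultrafilter ℕ} (hR : Tendsto R (𝒰 : Filter ℕ) atTop) (he : Tendsto e (𝒰 : Filter ℕ) (𝓝 0))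
    (hc : ∀ n, ‖c n‖ ≤ R n + e n) :
    ∃ ν : ℂ, ‖ν‖ = 1 ∧ ∀ z : ℂ, 0 < ((starRingEnd ℂ) ν * z).im → ∀ᶠ n in (𝒰 : Filter ℕ), z ∈ ball (c n) (R n) := by
  classical
  obtain ⟨v, hv⟩ : ∃ v : ℕ → ℂ, v = fun n => if c n = 0 then 1 else (‖c n‖ : ℂ)⁻¹ * c n := ⟨_, rfl⟩
  have hv1 : ∀ n, ‖v n‖ = 1 := by
    intro n
    rw [hv]
    by_cases h : c n = 0
    · simp [h]
    · simp only [h, if_false]
      rw [norm_mul, norm_inv, Complex.norm_real, norm_norm, inv_mul_cancel₀ (norm_ne_zero_iff.2 h)]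
  have hcv : ∀ n, c n = (‖c n‖ : ℂ) * v n := by
    intro n
    rw [hv]
    by_cases h : c n = 0
    · simp [h]
    · simp only [h, if_false]
      have h1 : (‖c n‖ : ℂ) ≠ 0 := by exact_mod_cast norm_ne_zero_iff.2 h
      rw [← mul_assoc, mul_inv_cancel₀ h1, one_mul]
  obtain ⟨w, hw, hwt⟩ := (isCompact_sphere (0 : ℂ) 1).ultrafilter_le_nhds (𝒰.map v) (by
    rw [Ultrafilter.coe_map, le_principal_iff, mem_map]
    refine univ_mem' fun n => ?_
    simpa using hv1 n)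
  have hwt' : Tendsto v (𝒰 : Filter ℕ) (𝓝 w) := hwt
  have hw1 : ‖w‖ = 1 := by simpa using hw
  refine ⟨-Complex.I * w, by rw [norm_mul, norm_neg, Complex.norm_I, hw1, one_mul], fun z hd => ?_⟩
  obtain ⟨η, hη⟩ : ∃ η : ℝ, η = ((starRingEnd ℂ) w * z).re := ⟨_, rfl⟩
  have hη0 : 0 < η := by
    have e : ((starRingEnd ℂ) (-Complex.I * w) * z).im = ((starRingEnd ℂ) w * z).re := by
      rw [map_mul, map_neg, Complex.conj_I, neg_neg, mul_assoc, Complex.I_mul_im]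
    rw [hη, ← e]
    exact hd
  have hre : Tendsto (fun n => ((starRingEnd ℂ) (v n) * z).re) (𝒰 : Filter ℕ) (𝓝 η) := by
    have h1 : Continuous fun x : ℂ => ((starRingEnd ℂ) x * z).re := by fun_prop
    rw [hη]
    exact (h1.tendsto w).comp hwt'
  have e1 : ∀ᶠ n in (𝒰 : Filter ℕ), η / 2 < ((starRingEnd ℂ) (v n) * z).re := hre.eventually_const_lt (by linarith)
  have e2 : ∀ᶠ n in (𝒰 : Filter ℕ), e n < η / 4 := he.eventually_lt_const (by linarith)
  have e3 : ∀ᶠ n in (𝒰 : Filter ℕ), ‖z‖ + 2 * ‖z‖ ^ 2 / η + η < R n := hR.eventually_gt_atTop _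
  filter_upwards [e1, e2, e3] with n h1 h2 h3
  rw [mem_ball, dist_eq_norm]
  have hs0 : 0 ≤ ‖c n‖ := norm_nonneg _
  have hz0 : 0 ≤ ‖z‖ := norm_nonneg _
  have hq0 : 0 ≤ 2 * ‖z‖ ^ 2 / η := by positivity
  have hRc := hc n
  rcases lt_or_ge (‖z‖ + ‖c n‖) (R n) with hs | hs
  · exact (norm_sub_le z (c n)).trans_lt hs
  · have h4 : ((starRingEnd ℂ) (c n) * z).re = ‖c n‖ * ((starRingEnd ℂ) (v n) * z).re := by
      conv_lhs => rw [hcv n]
      rw [map_mul, Complex.conj_ofReal, mul_assoc, Complex.re_ofReal_mul]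
    have h5 := loc_nsq z (c n)
    rw [h4] at h5
    have h6 : 2 * ‖z‖ ^ 2 / η < ‖c n‖ := by linarith
    have h7 : 2 * ‖z‖ ^ 2 < ‖c n‖ * η := by
      rwa [div_lt_iff₀ hη0] at h6
    have h8 : ‖c n‖ * (η / 2) ≤ ‖c n‖ * ((starRingEnd ℂ) (v n) * z).re := mul_le_mul_of_nonneg_left h1.le hs0
    have h9 : ‖c n‖ - η / 4 ≤ R n := by linarith
    have h10 : 0 ≤ ‖c n‖ - η / 4 := by linarith
    have h11 : (‖c n‖ - η / 4) ^ 2 ≤ R n ^ 2 := by gcongr
    have h12 : ‖z - c n‖ ^ 2 < R n ^ 2 := by nlinarith [sq_nonneg (η / 4)]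
    exact lt_of_pow_lt_pow_left₀ 2 (by linarith) h12

/-- the contradiction after recentering at a point near the boundary of the maximal disc -/
private theorem loc_core (S : DA X Λ u D B Bad a α c₀ C₀ ρ δ) {ε₁ : ℝ} (hε : 0 < ε₁)
    (hrig : ∀ y : Vd (k + 1), ∀ f ∈ Hc X Λ u a y, ∀ g ∈ Hc X Λ u a y, ∀ (ω : ℂ) (h : ℝ), ‖ω‖ = 1 →
      (∀ z ∈ HP ω h, y + z • a ∈ Co D Bad δ ρ → dist (f z) (g z) ≤ ε₁) → f = g)
    {y : ℕ → Vd (k + 1)} {f g : ℕ → ℂ → MN N} {c : ℕ → ℂ} {R e : ℕ → ℝ} {Q : ℝ}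
    (hy : ∀ n, ‖y n‖ ≤ Q) (hf : ∀ n, f n ∈ Hc X Λ u a (y n)) (hg : ∀ n, g n ∈ Hc X Λ u a (y n)) (hR : Tendsto R atTop atTop) (he : Tendsto e atTop (𝓝 0))
    (hc : ∀ n, ‖c n‖ ≤ R n + e n) (h1 : ∀ n, ∀ z ∈ ball (c n) (R n), y n + z • a ∈ Gd D δ → dist (f n z) (g n z) ≤ ε₁)
    (h2 : ∀ n, y n ∈ Gd D δ) (h3 : ∀ n, ε₁ < dist (f n 0) (g n 0)) : False := by
  obtain ⟨𝒰, h𝒰⟩ : ∃ 𝒰 : Ultrafilter ℕ, (𝒰 : Filter ℕ) ≤ atTop := ⟨hyperfilter ℕ, Nat.hyperfilter_le_atTop⟩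
  have hδ := S.lc.δ_pos
  have hR' : Tendsto R (𝒰 : Filter ℕ) atTop := hR.mono_left h𝒰
  have he' : Tendsto e (𝒰 : Filter ℕ) (𝓝 0) := he.mono_left h𝒰
  obtain ⟨y₀, -, hy₀⟩ := (isCompact_closedBall (0 : Vd (k + 1)) Q).ultrafilter_le_nhds (𝒰.map y) (by
    rw [Ultrafilter.coe_map, le_principal_iff, mem_map]
    refine univ_mem' fun n => ?_
    simpa using hy n)
  have hyt : Tendsto y (𝒰 : Filter ℕ) (𝓝 y₀) := hy₀
  have hyn : ∀ᶠ n in (𝒰 : Filter ℕ), ‖y n - y₀‖ ≤ δ := by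
    filter_upwards [hyt.eventually (ball_mem_nhds y₀ hδ)] with n hn
    rw [← dist_eq_norm]
    exact (mem_ball.1 hn).le
  obtain ⟨ν, hν, hball⟩ := loc_disc hR' he' hc
  obtain ⟨f₀, hf₀, hff⟩ := hc_closed S.geo S.lg S.nl hyt (Eventually.of_forall hf)
  obtain ⟨g₀, hg₀, hgg⟩ := hc_closed S.geo S.lg S.nl hyt (Eventually.of_forall hg)
  have hy₀D : y₀ + (0 : ℂ) • a ∉ D := by
    rw [zero_smul, add_zero]
    exact gd_notMem hδ ((gd_closed D δ).mem_of_tendsto hyt (Eventually.of_forall h2))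
  have hdist : ∀ z : ℂ, y₀ + z • a ∉ D → Tendsto (fun n => dist (f n z) (g n z)) (𝒰 : Filter ℕ) (𝓝 (dist (f₀ z) (g₀ z))) := fun z hz =>
    (hff z hz (fun _ => z) tendsto_const_nhds).dist (hgg z hz (fun _ => z) tendsto_const_nhds)
  have hne : ε₁ ≤ dist (f₀ 0) (g₀ 0) := ge_of_tendsto (hdist 0 hy₀D) (Eventually.of_forall fun n => (h3 n).le)
  have heq : f₀ = g₀ := by
    refine hrig y₀ f₀ hf₀ g₀ hg₀ ν 0 hν fun z hz hzC => ?_
    have hzD : y₀ + z • a ∉ D := gd_notMem (by linarith) hzC.1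
    refine le_of_tendsto (hdist z hzD) ?_
    filter_upwards [hball z hz, hyn] with n a1 a2
    refine h1 n z a1 ?_
    have h5 : ‖y n + z • a - (y₀ + z • a)‖ ≤ δ := by rwa [add_sub_add_right_eq_sub]
    have h6 := gd_near hzC.1 h5
    have h7 : 2 * δ - δ = δ := by ring
    rwa [h7] at h6
  rw [heq, dist_self] at hne
  linarith

theorem loc_rigid (S : DA X Λ u D B Bad a α c₀ C₀ ρ δ) : ∃ R₁ ε₁ : ℝ, 0 < R₁ ∧ 0 < ε₁ ∧ ∀ y : Vd (k + 1), ∀ f ∈ Hc X Λ u a y, ∀ g ∈ Hc X Λ u a y, ∀ z₀ : ℂ,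
    (∀ z ∈ closedBall z₀ R₁, y + z • a ∈ Gd D δ → dist (f z) (g z) ≤ ε₁) → f = g := by
  obtain ⟨ε₁, hε₁, hrig⟩ := hp_rigid S
  have hδ := S.lc.δ_pos
  by_contra hcon
  push Not at hcon
  -- the maximal discs
  have hcon' : ∀ n : ℕ, ∃ y : Vd (k + 1), ∃ f ∈ Hc X Λ u a y, ∃ g ∈ Hc X Λ u a y, ∃ (z₁ c : ℂ) (R : ℝ), (n : ℝ) + 1 ≤ R ∧
      ‖z₁ - c‖ ≤ R + 1 / ((n : ℝ) + 1) ∧ (∀ z ∈ ball c R, y + z • a ∈ Gd D δ → dist (f z) (g z) ≤ ε₁) ∧ y + z₁ • a ∈ Gd D δ ∧ ε₁ < dist (f z₁) (g z₁) := by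
    intro n
    obtain ⟨y, f, hf, g, hg, z₀, h1, hfg⟩ := hcon ((n : ℝ) + 1) ε₁ (by positivity) hε₁
    obtain ⟨T, hT⟩ : ∃ T : Set ℝ, T = {R : ℝ | ∀ z ∈ closedBall z₀ R, y + z • a ∈ Gd D δ → dist (f z) (g z) ≤ ε₁} := ⟨_, rfl⟩
    have hnT : (n : ℝ) + 1 ∈ T := by
      rw [hT]
      exact h1
    have hTb : BddAbove T := by
      by_contra hb
      refine hfg (hrig y f hf g hg 1 0 norm_one fun z _ hzC => ?_)
      rw [not_bddAbove_iff] at hb
      obtain ⟨R, hRT, hR⟩ := hb (dist z z₀)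
      rw [hT] at hRT
      exact hRT z (mem_closedBall.2 hR.le) (gd_mono (by linarith) hzC.1)
    have hpos : 0 < 1 / ((n : ℝ) + 1) := by positivity
    have hnot : sSup T + 1 / ((n : ℝ) + 1) ∉ T := fun h => by
      have := le_csSup hTb h
      linarith
    rw [hT] at hnot
    simp only [Set.mem_ofPred_eq] at hnot
    push Not at hnot
    obtain ⟨z₁, hz₁, hz₁G, hz₁d⟩ := hnot
    rw [← hT] at hz₁
    refine ⟨y, f, hf, g, hg, z₁, z₀, sSup T, le_csSup hTb hnT, ?_, fun z hz hzG => ?_, hz₁G, hz₁d⟩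
    · rwa [mem_closedBall, dist_eq_norm] at hz₁
    · obtain ⟨R, hRT, hR⟩ := exists_lt_of_lt_csSup ⟨_, hnT⟩ (mem_ball.1 hz)
      rw [hT] at hRT
      exact hRT z (mem_closedBall.2 hR.le) hzG
  choose y f hf g hg z₁ c R hR h2 h3 h4 h5 using hcon'
  obtain ⟨Q, hQ, hcpt⟩ := S.lg.lat.cpt
  choose l hl hyl using fun n => hcpt (y n + z₁ n • a)
  have hgd : ∀ (n : ℕ) (z : ℂ), y n + z₁ n • a - l n + z • a ∈ Gd D δ → y n + (z₁ n + z) • a ∈ Gd D δ := by
    intro n z hz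
    have h6 := (S.geo.gd_add δ (hl n)).2 hz
    have e : y n + z₁ n • a - l n + z • a + l n = y n + (z₁ n + z) • a := by
      rw [add_smul]
      abel
    rwa [e] at h6
  have hHc : ∀ (n : ℕ) (F : ℂ → MN N), F ∈ Hc X Λ u a (y n) → (fun z => F (z₁ n + z)) ∈ Hc X Λ u a (y n + z₁ n • a - l n) := by
    intro n F hF
    have h6 := hc_add hF (z₁ n)
    have h7 := hc_per (X := X) (u := u) (a := a) (y := y n + z₁ n • a) (Λ.neg_mem (hl n))
    rw [← sub_eq_add_neg] at h7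
    rw [h7]
    exact h6
  refine loc_core S hε₁ hrig (y := fun n => y n + z₁ n • a - l n) (f := fun n z => f n (z₁ n + z)) (g := fun n z => g n (z₁ n + z)) (c := fun n => c n - z₁ n) (R := R)
    (e := fun n : ℕ => 1 / ((n : ℝ) + 1)) (Q := Q) hyl (fun n => hHc n _ (hf n)) (fun n => hHc n _ (hg n)) ?_ tendsto_one_div_add_atTop_nhds_zero_nat ?_ ?_ ?_ ?_
  · refine tendsto_atTop_mono (fun n => ?_) tendsto_natCast_atTop_atTop
    linarith [hR n]
  · intro n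
    rw [norm_sub_rev]
    exact h2 n
  · intro n z hz hzG
    refine h3 n _ ?_ (hgd n z hzG)
    rw [mem_ball, dist_eq_norm] at hz ⊢
    have e : z₁ n + z - c n = z - (c n - z₁ n) := by ring
    rwa [e]
  · intro n
    have h6 := (S.geo.gd_add δ (Λ.neg_mem (hl n))).2 (h4 n)
    rwa [← sub_eq_add_neg] at h6
  · intro n
    simp only [add_zero]
    exact h5 n

end Pool.Agent.G3.A

end
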