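import Pool.Agent.H94.G5T.M14
import Pool.Agent.H94.G5T.M21
import Pool.Agent.H94.G5T.M24

/-! The parts of this file: AD.F.Defs, G4.A.P1. -/

section

/-!
# AD F Defs: the definitions of the function theory half of project AD (all dimensions)

`X` is the cone (without `0`) of a projective manifold, `pd x y` the distance of the points of projective space given by `x` and `y`,
`vel ν F z` the length of `F'(z)` for the pseudo-length `ν`.

`Tube`: a function `ρ a x`, defined for `x` near the germ at `a` of the entire curve `g`, which measures the distance of `x` from that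
germ and grows along every holomorphic curve.  `Setup`: the data used in the function theory half of the project: a pseudo-length, a
finite family of doubly periodic curves `g i` which contains all the entire curves of constant speed one, with tubes.
`Setup.Fol`: the curve `F` follows `g i` over `U`, with the lift `ζ`.
-/

set_option autoImplicit false

open Topology Filter Metric

namespace Pool.Agent.AD.F

open Pool.Agent.H36.BP (EN fs wd Sub Curve)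
open Pool.Agent.H14.PP (IsCone Tan CurveAt)
open Pool.Agent.H22.W (PseudoLength)
open Pool.Agent.H62.EF (pr Lat)

variable {N : ℕ} {X : Set (EN N)}

/-- the distance of the points of projective space given by `x` and `y` -/
noncomputable def pd (x y : EN N) : ℝ := dist (pr x) (pr y)

/-- the length of `F'(z)` -/
noncomputable def vel (ν : PseudoLength X) (F : ℂ → EN N) (z : ℂ) : ℝ := ν.toFun (F z) (deriv F z)

/-- A tube around the entire curve `g` with the periods `Λ`. -/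
structure Tube (X : Set (EN N)) (g : ℂ → EN N) (Λ : AddSubgroup ℂ) (r ε κ C : ℝ) (ρ : ℂ → EN N → ℝ) : Prop where
  nonneg : ∀ a x, 0 ≤ ρ a x
  /-- (T0) -/
  smul : ∀ a, ∀ x ∈ X, ∀ c : ℂ, c ≠ 0 → ρ a (c • x) = ρ a x
  /-- (T4) -/
  per : ∀ l ∈ Λ, ∀ a x, ρ (a + l) x = ρ a x
  /-- (T1) -/
  le_one : ∀ a, ∀ x ∈ X, pd x (g a) < ε → ρ a x ≤ 1
  /-- (T1) -/
  foot : ∀ a, ∀ x ∈ X, pd x (g a) < ε → ∃ w, ‖w - a‖ ≤ r / 8 ∧ pd x (g w) ≤ C * ρ a x
  /-- (T1) -/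
  le : ∀ a, ∀ x ∈ X, pd x (g a) < ε → ∀ w, ‖w - a‖ ≤ r / 8 → ρ a x ≤ C * pd x (g w)
  /-- (T2) -/
  indep : ∀ a b, ∀ x ∈ X, ‖a - b‖ ≤ r / 2 → pd x (g a) < ε → pd x (g b) < ε → ρ a x = ρ b x
  /-- (T3) -/
  cont : ∀ a, ContinuousOn (ρ a) {x | x ∈ X ∧ pd x (g a) < ε}
  /-- (T3) -/
  sub : ∀ (a : ℂ) (F : ℂ → EN N) (z₀ : ℂ), CurveAt X F z₀ → pd (F z₀) (g a) < ε → 0 < ρ a (F z₀) →
    Sub (fun z => ρ a (F z)) z₀ (κ * fs (F z₀) (deriv F z₀) ^ 2)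
  /-- (T5) -/
  inj : ∀ a b, ‖a - b‖ ≤ 4 * r → ‖a - b‖ ≤ C * pd (g a) (g b)

/-- The data of the function theory half. -/
structure Setup (X : Set (EN N)) where
  /-- the pseudo-length -/
  ν : PseudoLength X
  /-- the index set of the curves -/
  ι : Type
  /-- the curves -/
  g : ι → ℂ → EN N
  /-- their periods -/
  Λ : ι → AddSubgroup ℂ
  /-- their tubes -/
  ρ : ι → ℂ → EN N → ℝ
  /-- the radius of the tubes in the domain -/
  r : ℝ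
  /-- the radius of the tubes in the space -/
  ε : ℝ
  /-- the rate -/
  κ : ℝ
  /-- a constant -/
  C : ℝ
  /-- the number of branches at the points `pts` -/
  M : ℕ
  /-- the points in several branches -/
  pts : Set (EN N)
  cone : IsCone X
  fin : Finite ι
  r_pos : 0 < r
  ε_pos : 0 < ε
  κ_pos : 0 < κ
  C_ge : 1 ≤ C
  small : 64 * C * ε ≤ r
  M_pos : 1 ≤ M
  entire : ∀ i, Differentiable ℂ (g i)
  mem : ∀ i z, g i z ∈ X
  unit : ∀ i z, vel ν (g i) z = 1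
  lat : ∀ i, Lat (Λ i)
  per : ∀ i, ∀ l ∈ Λ i, ∀ z, pr (g i (z + l)) = pr (g i z)
  tube : ∀ i, Tube X (g i) (Λ i) r ε κ C (ρ i)
  /-- the pseudo-length is bounded -/
  bound : ∀ x v, Tan X x v → ν.toFun x v ≤ C * fs x v
  /-- curves in the disc with speed at most one have bounded derivative at `0` -/
  zal : ∀ F : ℂ → EN N, Curve X (ball 0 1) F → (∀ z ∈ ball (0 : ℂ) 1, vel ν F z ≤ 1) → fs (F 0) (deriv F 0) ≤ C
  /-- the family contains all the entire curves of speed one -/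
  all : ∀ F : ℂ → EN N, Differentiable ℂ F → (∀ z, F z ∈ X) → (∀ z, vel ν F z = 1) →
    ∃ (i : ι) (a b : ℂ), ‖a‖ = 1 ∧ ∀ z, pr (F z) = pr (g i (a * z + b))
  pts_fin : pts.Finite
  pts_mem : ∀ p ∈ pts, p ∈ X
  /-- a point near two different branches is near one of the points `pts` -/
  sep : ∀ i j a b, ¬ (i = j ∧ ∃ l ∈ Λ i, ‖a - b - l‖ ≤ r) → ∀ x ∈ X, ∀ d : ℝ, d ≤ ε → pd x (g i a) ≤ d → pd x (g j b) ≤ d →
    ∃ p ∈ pts, pd x p ≤ C * d ^ ((M : ℝ)⁻¹)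

namespace Setup

/-- The distance of `F` from the curve which it follows. -/
noncomputable def R (S : Setup X) (i : S.ι) (ζ : ℂ → ℂ) (F : ℂ → EN N) (z : ℂ) : ℝ := S.ρ i (ζ z) (F z)

end Setup

end Pool.Agent.AD.F

end

section

/-!
# G4 A P1: limits of curves over lines

Lifts `F n` of `f n` on `ball z₀ 2`, `‖F n‖ ≤ 1` (`NL`).  Ultrafilter limits `F` (`A/Ul.ul_diff`), holomorphic, `‖F z‖ ≥ c` at the points `z` with `‖z - z₀‖ < 1`, `y₀ + z a ∈ interior` of `Gd D δ`,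
so `F` is not identically `0` (`LG.iso`), `F z ∈ X` and `u (F z) - (y₀ + z a) ∈ Λ` where `F z ≠ 0` (`TG.lim_mem`).  Divide by the power of `z - z₁` at a zero: a curve with values `≠ 0`, in `X`
(`X ∪ {0}` closed), over the right line (closedness of `X`, `TG.lim_mem` again or `G3/C/XU.xu_local`).  So there is `g` with local lifts everywhere (`g z` is determined off `D` as the limit of
`f n (w n)`, and at the other points by the local lifts, which agree up to scalars); an entire lift: as in `TG/Lf` (`disc_lift`) or from `G3/P/Ext`, `G3/P/Ent` (glue of local lifts on `ℂ`).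
-/

set_option autoImplicit false

open Topology Filter Metric

namespace Pool.Agent.G4.A

open Pool.Agent.H36.BP (EN fs wd)
open Pool.Agent.H14.PP (IsCone CurveAt Tan)
open Pool.Agent.H62.EF (MN pr pr_smul continuousAt_pr)
open Pool.Agent.AD (Vd Chart Charts IsGerm)
open Pool.Agent.TG
open Pool.Agent.G3
open Pool.Agent.G3.A
open Pool.Agent.G3.C (Gc)

variable {N k : ℕ} {X : Set (EN N)} {Λ : AddSubgroup (Vd (k + 1))} {u : EN N → Vd (k + 1)} {D B Bad : Set (Vd (k + 1))} {a : Vd (k + 1)}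

/-- the limit of the normalised lifts -/
private theorem p1_a (G : Geo X Λ u D B) (hN : NL X Λ u D a) {ι : Type*} {𝒰 : Ultrafilter ι} {y : ι → Vd (k + 1)} {y₀ : Vd (k + 1)}
    (hy : Tendsto y 𝒰 (𝓝 y₀)) {f : ι → ℂ → MN N} (hf : ∀ᶠ n in (𝒰 : Filter ι), f n ∈ Hc X Λ u a (y n)) (z₀ z₁ : ℂ) (hz₁ : z₁ ∈ closedBall z₀ 1)
    (hD : y₀ + z₁ • a ∉ D) :
    ∃ K : ℂ → EN N, DifferentiableOn ℂ K (ball z₀ 2) ∧ K z₁ ≠ 0 ∧ ∀ z ∈ ball z₀ 2, K z ≠ 0 → K z ∈ X ∧ u (K z) - (y₀ + z • a) ∈ Λ ∧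
      ∀ w : ι → ℂ, Tendsto w 𝒰 (𝓝 z) → Tendsto (fun n => f n (w n)) 𝒰 (𝓝 (pr (K z))) := by
  classical
  have hX := G.cone
  obtain ⟨δ, hδ, hgd⟩ := G.exists_gd hD
  obtain ⟨c, hc, hNc⟩ := hN (δ / 2) (by positivity)
  have hex : ∀ n, ∃ F : ℂ → EN N, f n ∈ Hc X Λ u a (y n) → DifferentiableOn ℂ F (ball z₀ 2) ∧
      (∀ z ∈ ball z₀ 2, F z ∈ X ∧ f n z = pr (F z) ∧ ‖F z‖ ≤ 1) ∧ ∀ z ∈ closedBall z₀ 1, y n + z • a ∈ Gd D (δ / 2) → c ≤ ‖F z‖ := by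
    intro n
    by_cases h : f n ∈ Hc X Λ u a (y n)
    · obtain ⟨F, hF⟩ := hNc _ _ h z₀
      exact ⟨F, fun _ => hF⟩
    · exact ⟨0, fun h' => absurd h' h⟩
  choose F hF using hex
  obtain ⟨K, hKd, -, hK⟩ := ul_diff (𝒰 := 𝒰) (g := F) (z₀ := z₀) (r := 2) (C := 1) (by
    filter_upwards [hf] with n hn
    exact ⟨(hF n hn).1, fun z hz => ((hF n hn).2.1 z hz).2.2⟩)
  have hz₁b : z₁ ∈ ball z₀ 2 := closedBall_subset_ball (by norm_num) hz₁
  refine ⟨K, hKd, ?_, ?_⟩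
  · have h1 := (hK z₁ hz₁b (fun _ => z₁) tendsto_const_nhds).norm
    have h2 : c ≤ ‖K z₁‖ := by
      refine ge_of_tendsto h1 ?_
      have h3 : ∀ᶠ n in (𝒰 : Filter ι), y n ∈ closedBall y₀ (δ / 2) := hy.eventually (closedBall_mem_nhds y₀ (by positivity))
      filter_upwards [hf, h3] with n hn hn'
      refine (hF n hn).2.2 z₁ hz₁ ?_
      have h4 : ‖y n + z₁ • a - (y₀ + z₁ • a)‖ ≤ δ / 2 := by
        rw [add_sub_add_right_eq_sub, ← dist_eq_norm]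
        exact hn'
      have h5 := gd_near hgd h4
      have h6 : δ - δ / 2 = δ / 2 := by ring
      rwa [h6] at h5
    exact norm_pos_iff.1 (lt_of_lt_of_le hc h2)
  · intro z hz hKz
    have hin : ∀ w : ι → ℂ, Tendsto w 𝒰 (𝓝 z) → ∀ᶠ n in (𝒰 : Filter ι), w n ∈ ball z₀ 2 := fun w hw =>
      hw.eventually (isOpen_ball.mem_nhds hz)
    have h0 := hK z hz (fun _ => z) tendsto_const_nhds
    have hXu : ∀ᶠ n in (𝒰 : Filter ι), F n z ∈ X ∧ u (F n z) - (y n + z • a) ∈ Λ := by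
      filter_upwards [hf] with n hn
      have h1 := (hF n hn).2.1 z hz
      exact ⟨h1.1, fb_lift hX G.tor (hc_mem hn z) h1.1 h1.2.1.symm⟩
    have hKX : K z ∈ X := by
      have h1 : K z ∈ insert (0 : EN N) X := by
        refine hX.closed.mem_of_tendsto h0 ?_
        filter_upwards [hXu] with n hn
        exact Set.mem_insert_of_mem _ hn.1
      exact h1.resolve_left hKz
    refine ⟨hKX, lim_mem G.lat G.tor hKX h0 (hy.add tendsto_const_nhds) hXu, fun w hw => ?_⟩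
    have h1 : Tendsto (fun n => pr (F n (w n))) 𝒰 (𝓝 (pr (K z))) := (continuousAt_pr hKz).tendsto.comp (hK z hz w hw)
    refine h1.congr' ?_
    filter_upwards [hf, hin w hw] with n hn hn'
    exact (((hF n hn).2.1 _ hn').2.1).symm

/-- the local lifts of the limit -/
private theorem p1_b (G : Geo X Λ u D B) (hL : LG Λ D Bad a) (hN : NL X Λ u D a) {ι : Type*} {𝒰 : Ultrafilter ι} {y : ι → Vd (k + 1)} {y₀ : Vd (k + 1)}
    (hy : Tendsto y 𝒰 (𝓝 y₀)) {f : ι → ℂ → MN N} (hf : ∀ᶠ n in (𝒰 : Filter ι), f n ∈ Hc X Λ u a (y n)) (z₀ : ℂ) :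
    ∃ Φ : ℂ → EN N, AnalyticAt ℂ Φ z₀ ∧ Φ z₀ ∈ X ∧ u (Φ z₀) - (y₀ + z₀ • a) ∈ Λ ∧ ∀ᶠ v in 𝓝[≠] z₀, Tendsto (fun n => f n v) 𝒰 (𝓝 (pr (Φ v))) := by
  have hX := G.cone
  obtain ⟨z₁, hz₁, hD⟩ : ∃ z₁ ∈ closedBall z₀ 1, y₀ + z₁ • a ∉ D := by
    have h1 := hL.iso (y₀ + z₀ • a)
    have h2 : ∀ᶠ z : ℂ in 𝓝[≠] (0 : ℂ), z ∈ closedBall (0 : ℂ) 1 := nhdsWithin_le_nhds (closedBall_mem_nhds 0 one_pos)
    obtain ⟨z, h3, h4⟩ := (h1.and h2).exists
    refine ⟨z₀ + z, ?_, ?_⟩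
    · rw [mem_closedBall, dist_eq_norm, add_sub_cancel_left]
      rwa [mem_closedBall_zero_iff] at h4
    · rwa [add_smul, ← add_assoc]
  obtain ⟨K, hKd, hK1, hK⟩ := p1_a G hN hy hf z₀ z₁ hz₁ hD
  have hb : z₀ ∈ ball z₀ (2 : ℝ) := mem_ball_self two_pos
  have hKa : AnalyticOnNhd ℂ K (ball z₀ 2) := hKd.analyticOnNhd isOpen_ball
  have hne : ¬ ∀ᶠ z in 𝓝 z₀, K z = 0 := fun h =>
    hK1 (hKa.eqOn_zero_of_preconnected_of_eventuallyEq_zero (convex_ball z₀ 2).isPreconnected hb h (closedBall_subset_ball (by norm_num) hz₁))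
  obtain ⟨m, Φ, hΦ, hΦ0, hKΦ⟩ := (hKa z₀ hb).exists_eventuallyEq_pow_smul_nonzero_iff.2 hne
  have hev : ∀ᶠ v in 𝓝[≠] z₀, Φ v ≠ 0 ∧ K v ≠ 0 ∧ v ∈ ball z₀ 2 ∧ pr (Φ v) = pr (K v) := by
    have h1 : ∀ᶠ v in 𝓝[≠] z₀, Φ v ≠ 0 := (hΦ.continuousAt.eventually_ne hΦ0).filter_mono nhdsWithin_le_nhds
    have h2 : ∀ᶠ v in 𝓝[≠] z₀, v ∈ ball z₀ (2 : ℝ) := nhdsWithin_le_nhds (isOpen_ball.mem_nhds hb)
    filter_upwards [h1, h2, hKΦ.filter_mono nhdsWithin_le_nhds, self_mem_nhdsWithin] with v h3 h4 h5 h6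
    have h7 : (v - z₀) ^ m ≠ 0 := pow_ne_zero _ (sub_ne_zero.2 h6)
    refine ⟨h3, ?_, h4, ?_⟩
    · rw [h5]
      exact smul_ne_zero h7 h3
    · rw [h5, pr_smul _ h7]
  have hev2 : ∀ᶠ v in 𝓝[≠] z₀, (Φ v ∈ X ∧ u (Φ v) - (y₀ + v • a) ∈ Λ) ∧ Tendsto (fun n => f n v) 𝒰 (𝓝 (pr (Φ v))) := by
    filter_upwards [hev] with v hv
    obtain ⟨h1, h2, h3, h4⟩ := hv
    obtain ⟨h5, h6, h7⟩ := hK v h3 h2
    refine ⟨mem_of_pr hX G.tor h5 h6 h1 h4, ?_⟩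
    rw [h4]
    exact h7 (fun _ => v) tendsto_const_nhds
  have hcl := close_lift (υ := fun v : ℂ => y₀ + v • a) hX G.tor G.lat hΦ.continuousAt hΦ0 (by fun_prop)
    ((hev2.mono fun v hv => hv.1).frequently.filter_mono nhdsWithin_le_nhds)
  exact ⟨Φ, hΦ, hcl.1, hcl.2, hev2.mono fun v hv => hv.2⟩

private theorem p1_eq {Φ Ψ : ℂ → EN N} {w : ℂ} (hΦ : AnalyticAt ℂ Φ w) (hΨ : AnalyticAt ℂ Ψ w) (hΦ0 : Φ w ≠ 0) (hΨ0 : Ψ w ≠ 0)
    (h : ∀ᶠ v in 𝓝[≠] w, pr (Φ v) = pr (Ψ v)) : pr (Φ w) = pr (Ψ w) := by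
  have t1 : Tendsto (fun v => pr (Φ v)) (𝓝[≠] w) (𝓝 (pr (Φ w))) :=
    ((continuousAt_pr hΦ0).tendsto.comp hΦ.continuousAt.tendsto).mono_left nhdsWithin_le_nhds
  have t2 : Tendsto (fun v => pr (Ψ v)) (𝓝[≠] w) (𝓝 (pr (Ψ w))) :=
    ((continuousAt_pr hΨ0).tendsto.comp hΨ.continuousAt.tendsto).mono_left nhdsWithin_le_nhds
  exact tendsto_nhds_unique (t1.congr' h) t2

theorem hc_closed (G : Geo X Λ u D B) (hL : LG Λ D Bad a) (hN : NL X Λ u D a) {ι : Type*} {𝒰 : Ultrafilter ι} {y : ι → Vd (k + 1)} {y₀ : Vd (k + 1)}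
    (hy : Tendsto y 𝒰 (𝓝 y₀)) {f : ι → ℂ → MN N} (hf : ∀ᶠ n in (𝒰 : Filter ι), f n ∈ Hc X Λ u a (y n)) : ∃ g ∈ Hc X Λ u a y₀, Lm D a 𝒰 y₀ f g := by
  have hX := G.cone
  choose Φ hΦ hΦX hΦu hΦl using fun z₀ => p1_b G hL hN hy hf z₀
  have hΦ0 : ∀ z, Φ z z ≠ 0 := fun z => ne_zero hX (hΦX z)
  obtain ⟨g, hg⟩ : ∃ g : ℂ → MN N, ∀ z, g z = pr (Φ z z) := ⟨_, fun _ => rfl⟩
  have hloc : ∀ z, LLift g z := by
    intro z₀
    refine ⟨Φ z₀, hΦ z₀, ?_⟩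
    have h1 : ∀ᶠ w in 𝓝[≠] z₀, g w = pr (Φ z₀ w) := by
      have h2 := eventually_nhdsNE_eventually_nhds_iff.2 (hΦl z₀)
      have h3 : ∀ᶠ w in 𝓝[≠] z₀, AnalyticAt ℂ (Φ z₀) w ∧ Φ z₀ w ≠ 0 :=
        ((hΦ z₀).eventually_analyticAt.and ((hΦ z₀).continuousAt.eventually_ne (hΦ0 z₀))).filter_mono nhdsWithin_le_nhds
      filter_upwards [h2, h3] with w hw hw'
      rw [hg]
      refine p1_eq (hΦ w) hw'.1 (hΦ0 w) hw'.2 ?_
      filter_upwards [hΦl w, hw.filter_mono nhdsWithin_le_nhds] with v h4 h5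
      exact tendsto_nhds_unique h4 h5
    have h2 : ∀ᶠ w in 𝓝 z₀, w ≠ z₀ → g w = pr (Φ z₀ w) := eventually_nhdsWithin_iff.1 h1
    filter_upwards [h2, (hΦ z₀).continuousAt.eventually_ne (hΦ0 z₀)] with w h3 h4
    refine ⟨h4, ?_⟩
    rcases eq_or_ne w z₀ with rfl | h5
    · exact hg w
    · exact h3 h5
  obtain ⟨F, hF, hFg⟩ := entire_lift hloc
  have hFX : ∀ z, F z ∈ X ∧ u (F z) - (y₀ + z • a) ∈ Λ := fun z =>
    mem_of_pr hX G.tor (hΦX z) (hΦu z) (hFg z).1 ((hFg z).2.symm.trans (hg z))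
  refine ⟨g, ⟨F, ⟨hF, fun z => (hFX z).1, fun z => (hFX z).2⟩, funext fun z => (hFg z).2⟩, ?_⟩
  intro z hzD w hw
  obtain ⟨K, hKd, hK1, hK⟩ := p1_a G hN hy hf z z (mem_closedBall_self zero_le_one) hzD
  have hb : z ∈ ball z (2 : ℝ) := mem_ball_self two_pos
  have hKa : AnalyticAt ℂ K z := hKd.analyticAt (isOpen_ball.mem_nhds hb)
  have h1 : pr (K z) = g z := by
    rw [hg]
    refine p1_eq hKa (hΦ z) hK1 (hΦ0 z) ?_
    have h2 : ∀ᶠ v in 𝓝[≠] z, v ∈ ball z (2 : ℝ) ∧ K v ≠ 0 :=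
      (Filter.Eventually.and (isOpen_ball.mem_nhds hb) (hKa.continuousAt.eventually_ne hK1)).filter_mono nhdsWithin_le_nhds
    filter_upwards [h2, hΦl z] with v h3 h4
    exact tendsto_nhds_unique ((hK v h3.1 h3.2).2.2 (fun _ => v) tendsto_const_nhds) h4
  rw [← h1]
  exact (hK z hb hK1).2.2 w hw

end Pool.Agent.G4.A

end
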