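import Pool.Agent.H94.G5T.M100
import Pool.Agent.H94.G5T.M25
import Pool.Agent.H94.G5T.M48
import Pool.Agent.H94.G5T.M88
import Pool.Agent.H94.G5T.M98

/-! The parts of this file: G3.A.Tor, G3.A.TanF, G4.F.FewA, G4.A.Gr, G4.E.PlH. -/

section

/-!
# G3 A Tor: the real closure of `ℂ a`

`exists_toE`: `R` = topological closure of the subgroup `ℂ a + Λ` of `Vd (k + 1)` (a closed subgroup of a real vector space), `E` = the set of the `v` with `ℝ v ⊆ R` (a real subspace; `R ∩ ball 0 ε ⊆ E` for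
some `ε > 0`: standard, otherwise take short vectors of `R` not in `E`, modulo `E`, and a limit direction).  `mem`: clear.  `dns`: `v ∈ E` is a limit of `z a + l`, the differences are short vectors of `R`, so in `E`:
`l ∈ E`.  `cpt`: `E / (Λ ∩ E)` is compact: choose `l ∈ Λ` with `‖v - l‖ ≤ R₀`; if there is no bound, a subsequence of `v n - l n` converges, so `l n - l m ∈ E` for large `m, n`.
`toE_cases` (`k = 1`): `E ⊇ ℂ a`; real dimension `2` is impossible (`Λ ∩ ℂ a` has rank `≤ 1` by `LG.rank`, not cocompact in `ℂ a`); dimension `3`: `E = ℝ ν + ℂ a`; dimension `4`: all.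
-/

set_option autoImplicit false

open Topology Filter Metric

namespace Pool.Agent.G3.A

open Pool.Agent.H36.BP (EN fs wd)
open Pool.Agent.H14.PP (IsCone CurveAt Tan)
open Pool.Agent.H62.EF (MN pr)
open Pool.Agent.AD (Vd Chart Charts IsGerm)
open Pool.Agent.TG
open Pool.Agent.G3.C (Gc)

variable {N k : ℕ} {X : Set (EN N)} {Λ : AddSubgroup (Vd (k + 1))} {u : EN N → Vd (k + 1)} {D B Bad : Set (Vd (k + 1))} {a : Vd (k + 1)}

/-- the largest real subspace of a closed subgroup contains its short vectors -/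
theorem closed_short {V : Type*} [NormedAddCommGroup V] [NormedSpace ℝ V] [FiniteDimensional ℝ V] (R : AddSubgroup V) (hR : IsClosed (R : Set V)) :
    ∃ E : Submodule ℝ V, (∀ v, v ∈ E ↔ ∀ t : ℝ, t • v ∈ R) ∧ ∃ ε : ℝ, 0 < ε ∧ ∀ v ∈ R, ‖v‖ < ε → v ∈ E := by
  let E : Submodule ℝ V :=
    { carrier := {v | ∀ t : ℝ, t • v ∈ R}
      add_mem' := fun {x y} hx hy t => by rw [smul_add]; exact R.add_mem (hx t) (hy t)
      zero_mem' := fun t => by rw [smul_zero]; exact R.zero_mem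
      smul_mem' := fun c x hx t => by rw [smul_smul]; exact hx (t * c) }
  have hE : ∀ v, v ∈ E ↔ ∀ t : ℝ, t • v ∈ R := fun v => Iff.rfl
  have hER : ∀ v ∈ E, v ∈ R := fun v hv => by have := (hE v).1 hv 1; rwa [one_smul] at this
  refine ⟨E, hE, ?_⟩
  by_contra hcon
  push Not at hcon
  obtain ⟨W, hW⟩ := Submodule.exists_isCompl E
  let p : V →L[ℝ] V := LinearMap.toContinuousLinearMap (W.projection E hW.symm)
  have hpW : ∀ v, p v ∈ W := fun v => Submodule.projection_apply_mem hW.symm v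
  have hpE : ∀ v, v - p v ∈ E := fun v => Submodule.sub_projection_mem hW.symm v
  have hp0 : ∀ v, p v = 0 → v ∈ E := fun v hv => by have := hpE v; rwa [hv, sub_zero] at this
  choose r hr using fun n : ℕ => hcon (1 / ((n : ℝ) + 1)) (by positivity)
  have hr0 : Tendsto r atTop (𝓝 0) := by
    refine squeeze_zero_norm (fun n => (hr n).2.1.le) tendsto_one_div_add_atTop_nhds_zero_nat
  have hw0 : Tendsto (fun n => p (r n)) atTop (𝓝 0) := by
    have := (p.continuous.tendsto 0).comp hr0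
    rwa [map_zero] at this
  have hwne : ∀ n, p (r n) ≠ 0 := fun n h => (hr n).2.2 (hp0 _ h)
  have hwR : ∀ n, p (r n) ∈ R := fun n => by
    have h1 := R.sub_mem (hr n).1 (hER _ (hpE (r n)))
    rwa [sub_sub_cancel] at h1
  have hsph : ∀ n, (‖p (r n)‖⁻¹) • p (r n) ∈ sphere (0 : V) 1 := fun n => by
    rw [mem_sphere_zero_iff_norm, norm_smul, norm_inv, norm_norm, inv_mul_cancel₀ (norm_ne_zero_iff.2 (hwne n))]
  obtain ⟨w, hw, φ, hφ, hlim⟩ := (isCompact_sphere (0 : V) 1).tendsto_subseq hsph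
  have hwW : w ∈ W := by
    refine (W.closed_of_finiteDimensional).mem_of_tendsto hlim (Eventually.of_forall fun n => ?_)
    exact W.smul_mem _ (hpW _)
  have hwE : w ∈ E := by
    rw [hE]
    intro t
    -- `⌊t / ‖p r‖⌋ • p r → t • w`
    have h1 : Tendsto (fun n => (⌊t / ‖p (r (φ n))‖⌋ : ℤ) • p (r (φ n))) atTop (𝓝 (t • w)) := by
      have h2 : Tendsto (fun n => t • ((‖p (r (φ n))‖⁻¹) • p (r (φ n)))) atTop (𝓝 (t • w)) := hlim.const_smul t
      have h3 : Tendsto (fun n => Int.fract (t / ‖p (r (φ n))‖) • p (r (φ n))) atTop (𝓝 0) := by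
        have h4 : Tendsto (fun n => p (r (φ n))) atTop (𝓝 0) := hw0.comp hφ.tendsto_atTop
        refine squeeze_zero_norm (fun n => ?_) (tendsto_zero_iff_norm_tendsto_zero.1 h4)
        rw [norm_smul]
        have h5 : ‖Int.fract (t / ‖p (r (φ n))‖)‖ ≤ 1 := by
          rw [Real.norm_eq_abs, abs_of_nonneg (Int.fract_nonneg _)]
          exact (Int.fract_lt_one _).le
        exact mul_le_of_le_one_left (norm_nonneg _) h5
      have h6 := h2.sub h3
      rw [sub_zero] at h6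
      refine h6.congr fun n => ?_
      rw [smul_smul, ← sub_smul, ← Int.cast_smul_eq_zsmul ℝ, ← div_eq_mul_inv, Int.self_sub_fract]
    refine hR.mem_of_tendsto h1 (Eventually.of_forall fun n => R.zsmul_mem (hwR _) _)
  have hw1 : w = 0 := by
    have := Submodule.disjoint_def.1 hW.disjoint w hwE hwW
    exact this
  rw [mem_sphere_zero_iff_norm, hw1, norm_zero] at hw
  exact zero_ne_one hw

theorem exists_toE (hΛ : Lat Λ) (a : Vd (k + 1)) : ∃ E : Submodule ℝ (Vd (k + 1)), ToE Λ a E := by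
  let L : AddSubgroup (Vd (k + 1)) :=
    { carrier := {v | ∃ l ∈ Λ, ∃ z : ℂ, v = l + z • a}
      add_mem' := by
        rintro _ _ ⟨l, hl, z, rfl⟩ ⟨l', hl', z', rfl⟩
        exact ⟨l + l', Λ.add_mem hl hl', z + z', by rw [add_smul]; abel⟩
      zero_mem' := ⟨0, Λ.zero_mem, 0, by rw [zero_smul, add_zero]⟩
      neg_mem' := by
        rintro _ ⟨l, hl, z, rfl⟩
        exact ⟨-l, Λ.neg_mem hl, -z, by rw [neg_smul]; abel⟩ }
  have hL : ∀ v, v ∈ L ↔ ∃ l ∈ Λ, ∃ z : ℂ, v = l + z • a := fun v => Iff.rfl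
  obtain ⟨E, hE, ε₀, hε₀, hsh⟩ := closed_short L.topologicalClosure L.isClosed_topologicalClosure
  have hLR : ∀ v ∈ L, v ∈ L.topologicalClosure := fun v hv => L.le_topologicalClosure hv
  have hER : ∀ v ∈ E, v ∈ L.topologicalClosure := fun v hv => by have := (hE v).1 hv 1; rwa [one_smul] at this
  have hΛR : ∀ l ∈ Λ, l ∈ L.topologicalClosure := fun l hl => hLR l ⟨l, hl, 0, by rw [zero_smul, add_zero]⟩
  have hmem : ∀ z : ℂ, z • a ∈ E := fun z => by
    rw [hE]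
    intro t
    exact hLR _ ⟨0, Λ.zero_mem, (t : ℂ) * z, by rw [zero_add, mul_smul]; rfl⟩
  refine ⟨E, hmem, ?_, ?_⟩
  · -- compactness
    obtain ⟨R₀, hR₀, hR⟩ := hΛ.cpt
    by_contra hcon
    push Not at hcon
    choose v hv using fun n : ℕ => hcon ((n : ℝ) + 1) (by positivity)
    choose l hl using fun n : ℕ => hR (v n)
    have hb : ∀ n, v n - l n ∈ closedBall (0 : Vd (k + 1)) R₀ := fun n => by
      rw [mem_closedBall_zero_iff]; exact (hl n).2
    obtain ⟨w, hw, φ, hφ, hlim⟩ := (isCompact_closedBall (0 : Vd (k + 1)) R₀).tendsto_subseq hb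
    have hev : ∀ᶠ n in atTop, ‖(v (φ n) - l (φ n)) - w‖ < ε₀ / 2 := by
      have := (Metric.tendsto_nhds.1 hlim) (ε₀ / 2) (by positivity)
      filter_upwards [this] with n hn
      rwa [dist_eq_norm] at hn
    obtain ⟨m, hm⟩ := eventually_atTop.1 hev
    have hlE : ∀ n, m ≤ n → l (φ n) - l (φ m) ∈ E := by
      intro n hn
      have h1 : ‖(v (φ n) - l (φ n)) - (v (φ m) - l (φ m))‖ < ε₀ := by
        have h2 := hm n hn
        have h3 := hm m le_rfl
        calc ‖(v (φ n) - l (φ n)) - (v (φ m) - l (φ m))‖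
            = ‖((v (φ n) - l (φ n)) - w) - ((v (φ m) - l (φ m)) - w)‖ := by rw [sub_sub_sub_cancel_right]
          _ ≤ ‖(v (φ n) - l (φ n)) - w‖ + ‖(v (φ m) - l (φ m)) - w‖ := norm_sub_le _ _
          _ < ε₀ := by linarith
      have h4 : (v (φ n) - l (φ n)) - (v (φ m) - l (φ m)) ∈ E := by
        refine hsh _ ?_ h1
        exact AddSubgroup.sub_mem _ (AddSubgroup.sub_mem _ (hER _ (hv _).1) (hΛR _ (hl _).1))
          (AddSubgroup.sub_mem _ (hER _ (hv _).1) (hΛR _ (hl _).1))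
      have h5 := E.sub_mem (E.sub_mem (hv (φ n)).1 (hv (φ m)).1) h4
      have h6 : v (φ n) - v (φ m) - (v (φ n) - l (φ n) - (v (φ m) - l (φ m))) = l (φ n) - l (φ m) := by abel
      rwa [h6] at h5
    obtain ⟨n, hn⟩ := exists_nat_ge (R₀ + ‖l (φ m)‖)
    have h7 := (hv (φ (max n m))).2 (l (φ (max n m)) - l (φ m)) (Λ.sub_mem (hl _).1 (hl _).1) (hlE _ (le_max_right _ _))
    have h8 : ‖v (φ (max n m)) - (l (φ (max n m)) - l (φ m))‖ ≤ R₀ + ‖l (φ m)‖ := by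
      calc ‖v (φ (max n m)) - (l (φ (max n m)) - l (φ m))‖ = ‖(v (φ (max n m)) - l (φ (max n m))) + l (φ m)‖ := by congr 1; abel
        _ ≤ ‖v (φ (max n m)) - l (φ (max n m))‖ + ‖l (φ m)‖ := norm_add_le _ _
        _ ≤ R₀ + ‖l (φ m)‖ := by linarith [(hl (φ (max n m))).2]
    have h9 : (n : ℝ) ≤ (φ (max n m) : ℝ) := by
      exact_mod_cast (le_max_left n m).trans (hφ.id_le _)
    linarith
  · intro v hv ε hε
    have hvR := hER v hv
    have hcl : v ∈ closure (L : Set (Vd (k + 1))) := hvR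
    obtain ⟨x, hx, hd⟩ := Metric.mem_closure_iff.1 hcl (min ε ε₀) (lt_min hε hε₀)
    obtain ⟨l, hl, z, rfl⟩ := (hL x).1 hx
    rw [dist_eq_norm] at hd
    have h1 : v - (l + z • a) ∈ E := hsh _ (AddSubgroup.sub_mem _ hvR (hLR _ hx)) (hd.trans_le (min_le_right _ _))
    have h2 := E.sub_mem (E.sub_mem hv h1) (hmem z)
    have h3 : v - (v - (l + z • a)) - z • a = l := by abel
    rw [h3] at h2
    exact ⟨l, hl, h2, z, hd.le.trans (min_le_left _ _)⟩

/-- in dimension `2` the real closure has dimension `3` or `4` -/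
theorem toE_cases {Λ : AddSubgroup (Vd (1 + 1))} {D Bad : Set (Vd (1 + 1))} {a : Vd (1 + 1)} (h : LG Λ D Bad a) {E : Submodule ℝ (Vd (1 + 1))} (hE : ToE Λ a E) :
    (∃ ν : Vd (1 + 1), (∀ v : Vd (1 + 1), ∃ s z : ℂ, v = s • ν + z • a) ∧ (∀ v, v ∈ E ↔ ∃ (s : ℝ) (z : ℂ), v = (s : ℂ) • ν + z • a)) ∨ E = ⊤ := by
  have ha : a ≠ 0 := fun h0 => by have := h.norm; rw [h0, norm_zero] at this; exact zero_ne_one this
  obtain ⟨ω, hω, hrk⟩ := h.rank
  -- a vector of `E` outside `ℂ a`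
  have hex : ∃ ν ∈ E, ∀ z : ℂ, ν ≠ z • a := by
    by_contra hcon
    push Not at hcon
    obtain ⟨R, hR, hcpt⟩ := hE.cpt
    obtain ⟨l, hl, hlE, hd⟩ := hcpt ((((R + 1 : ℝ) : ℂ) * Complex.I * ω) • a) (hE.mem _)
    obtain ⟨z, rfl⟩ := hcon l hlE
    have h1 := hrk z hl
    rw [← sub_smul, norm_smul, h.norm, mul_one] at hd
    have h2 : ‖(starRingEnd ℂ) ω * (((R + 1 : ℝ) : ℂ) * Complex.I * ω - z)‖ ≤ R := by
      rw [norm_mul, RCLike.norm_conj, hω, one_mul]; exact hd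
    have h3 : (starRingEnd ℂ) ω * (((R + 1 : ℝ) : ℂ) * Complex.I * ω - z) = ((R + 1 : ℝ) : ℂ) * Complex.I - (starRingEnd ℂ) ω * z := by
      have h4 : (starRingEnd ℂ) ω * ω = 1 := by
        rw [mul_comm, Complex.mul_conj, Complex.normSq_eq_norm_sq, hω]; simp
      calc (starRingEnd ℂ) ω * (((R + 1 : ℝ) : ℂ) * Complex.I * ω - z)
          = ((R + 1 : ℝ) : ℂ) * Complex.I * ((starRingEnd ℂ) ω * ω) - (starRingEnd ℂ) ω * z := by ring
        _ = _ := by rw [h4, mul_one]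
    rw [h3] at h2
    have h5 := (Complex.abs_im_le_norm _).trans h2
    rw [Complex.sub_im, h1, sub_zero] at h5
    have h6 : (((R + 1 : ℝ) : ℂ) * Complex.I).im = R + 1 := by simp
    rw [h6, abs_of_pos (by linarith)] at h5
    linarith
  obtain ⟨ν, hνE, hν⟩ := hex
  have hdet : ν 0 * a 1 - ν 1 * a 0 ≠ 0 := by
    intro hd
    have hd' : ν 0 * a 1 = ν 1 * a 0 := sub_eq_zero.1 hd
    rcases eq_or_ne (a 0) 0 with h0 | h0
    · have h1 : a 1 ≠ 0 := fun h1 => ha (by funext i; fin_cases i <;> simpa using by assumption)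
      refine hν (ν 1 / a 1) ?_
      funext i
      fin_cases i
      · have : ν 0 = 0 := by
          rw [h0, mul_zero] at hd'
          exact (mul_eq_zero.1 hd').resolve_right h1
        simp [this, h0]
      · simp [h1]
    · refine hν (ν 0 / a 0) ?_
      funext i
      fin_cases i
      · simp [h0]
      · have : ν 1 = ν 0 / a 0 * a 1 := by field_simp; exact hd'.symm
        simpa using this
  have hbas : ∀ v : Vd (1 + 1), ∃ s z : ℂ, v = s • ν + z • a := by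
    intro v
    refine ⟨(v 0 * a 1 - v 1 * a 0) / (ν 0 * a 1 - ν 1 * a 0), (ν 0 * v 1 - ν 1 * v 0) / (ν 0 * a 1 - ν 1 * a 0), ?_⟩
    funext i
    fin_cases i
    · show v 0 = _ * ν 0 + _ * a 0
      rw [div_mul_eq_mul_div, div_mul_eq_mul_div, ← add_div, eq_div_iff hdet]
      ring
    · show v 1 = _ * ν 1 + _ * a 1
      rw [div_mul_eq_mul_div, div_mul_eq_mul_div, ← add_div, eq_div_iff hdet]
      ring
  by_cases hall : ∀ v, v ∈ E → ∃ (s : ℝ) (z : ℂ), v = (s : ℂ) • ν + z • a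
  · left
    refine ⟨ν, hbas, fun v => ⟨hall v, ?_⟩⟩
    rintro ⟨s, z, rfl⟩
    refine E.add_mem ?_ (hE.mem z)
    exact E.smul_mem s hνE
  · right
    push Not at hall
    obtain ⟨v, hvE, hv⟩ := hall
    obtain ⟨s, z, rfl⟩ := hbas v
    have hs : s.im ≠ 0 := by
      intro h0
      refine hv s.re z ?_
      have : s = (s.re : ℂ) := by apply Complex.ext <;> simp [h0]
      rw [← this]
    have h1 : s • ν ∈ E := by
      have := E.sub_mem hvE (hE.mem z)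
      rwa [add_sub_cancel_right] at this
    have h2 : (Complex.I) • ν ∈ E := by
      have h3 := E.smul_mem (s.im⁻¹) (E.sub_mem h1 (E.smul_mem s.re hνE))
      have h4 : s.im⁻¹ • (s • ν - s.re • ν) = (Complex.I) • ν := by
        have h5 : s = (s.re : ℂ) + (s.im : ℂ) * Complex.I := (Complex.re_add_im s).symm
        have h6 : (s.im : ℂ) ≠ 0 := by exact_mod_cast hs
        funext i
        simp only [Pi.smul_apply, Pi.sub_apply, smul_eq_mul, Complex.real_smul, Complex.ofReal_inv]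
        rw [inv_mul_eq_iff_eq_mul₀ h6]
        linear_combination (ν i) * h5
      rwa [h4] at h3
    rw [eq_top_iff]
    intro x _
    obtain ⟨s', z', rfl⟩ := hbas x
    refine E.add_mem ?_ (hE.mem z')
    have h5 := E.add_mem (E.smul_mem s'.re hνE) (E.smul_mem s'.im h2)
    have h6 : s'.re • ν + s'.im • (Complex.I • ν) = s' • ν := by
      have h7 : s' = (s'.re : ℂ) + (s'.im : ℂ) * Complex.I := (Complex.re_add_im s').symm
      funext i
      simp only [Pi.smul_apply, Pi.add_apply, smul_eq_mul, Complex.real_smul]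
      linear_combination (-ν i) * h7
    rwa [h6] at h5

end Pool.Agent.G3.A

end

section

/-!
# G3 A TanF: the tangency points are finite modulo `Λ`

`line_iso`: otherwise `h (q₀ + z a)` (of `hD` at `q₀`) vanishes at points `z n → 0`, so near `0`; the set of the `z` such that `q₀ + z' a ∈ D` for all `z'` near `z` is open, closed (`hD` at the limit point) and
not empty: the line is in `D`.  `D` is closed and `Λ`-invariant, so it contains `q₀ + E`, `E` from `exists_toE` (`ToE.dns`).  `E` has real dimension `≥ 3` (proof of `toE_cases`; only `Lat`, `a ≠ 0` and `Simp` are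
needed, the dimension `2` would give `ℂ a ∩ Λ` of rank `2`): `E ⊇ ℝ ν + ℂ a` with `ν`, `a` a basis; the functions `h` of `hD` at `q₀` vanish on `q₀ + s ν + z a`, `s` real, so near `q₀` (identity theorem in `s`),
so `D` is a neighbourhood of `q₀`; this holds for all points of `q₀ + E`; then `D` is open and closed: repeat at the boundary points of the interior of `D` (the interior of `D` is closed by `hD`): `D = univ`.
`tan_fin`: otherwise infinitely many classes of `Ba D B a`; representatives in a compact set, a limit `q₀ ∈ D`, contradiction to `tan_local` at `q₀` (near `q₀` all points of `D` other than `q₀` are not in `B`: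
`B` is finite modulo the discrete `Λ`).
-/

set_option autoImplicit false

open Topology Filter Metric

namespace Pool.Agent.G3.A

open Pool.Agent.H36.BP (EN fs wd)
open Pool.Agent.H14.PP (IsCone CurveAt Tan)
open Pool.Agent.H62.EF (MN pr)
open Pool.Agent.AD (Vd Chart Charts IsGerm)
open Pool.Agent.TG
open Pool.Agent.G3.C (Gc HP)

variable {N k : ℕ} {X : Set (EN N)} {Λ : AddSubgroup (Vd (k + 1))} {u : EN N → Vd (k + 1)} {D B Bad : Set (Vd (k + 1))} {a : Vd (k + 1)}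

/-- a line with an accumulation point of `D` is contained in `D` -/
private theorem line_in {D : Set (Vd (1 + 1))} (hD : ∀ y, ∃ (m : ℕ) (h : Vd (1 + 1) → Fin m → ℂ), AnalyticAt ℂ h y ∧ ∀ᶠ z in 𝓝 y, (z ∈ D ↔ h z = 0))
    {y b : Vd (1 + 1)} (hf : ∃ᶠ z in 𝓝[≠] (0 : ℂ), y + z • b ∈ D) : ∀ z : ℂ, y + z • b ∈ D := by
  -- the local alternative
  have hloc : ∀ z : ℂ, (∃ᶠ w in 𝓝[≠] z, y + w • b ∈ D) → ∀ᶠ w in 𝓝 z, y + w • b ∈ D := by
    intro z hz
    obtain ⟨m, h, han, hiff⟩ := hD (y + z • b)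
    have hline : AnalyticAt ℂ (fun w : ℂ => y + w • b) z := analyticAt_const.add (analyticAt_id.smul analyticAt_const)
    have hg : AnalyticAt ℂ (fun w : ℂ => h (y + w • b)) z := AnalyticAt.fun_comp (f := fun w : ℂ => y + w • b) (g := h) han hline
    have hc : Tendsto (fun w : ℂ => y + w • b) (𝓝 z) (𝓝 (y + z • b)) := hline.continuousAt
    have hiff' : ∀ᶠ w in 𝓝 z, (y + w • b ∈ D ↔ h (y + w • b) = 0) := hc.eventually hiff
    rcases hg.eventually_eq_zero_or_eventually_ne_zero with h0 | h0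
    · filter_upwards [h0, hiff'] with w hw hw'
      exact hw'.2 hw
    · exfalso
      obtain ⟨w, hw1, hw2, hw3⟩ := (hz.and_eventually (h0.and (hiff'.filter_mono nhdsWithin_le_nhds))).exists
      exact hw2 (hw3.1 hw1)
  let S : Set ℂ := {z | ∀ᶠ w in 𝓝 z, y + w • b ∈ D}
  have hSo : IsOpen S := by
    rw [isOpen_iff_mem_nhds]
    intro z hz
    exact eventually_eventually_nhds.2 hz
  have hSc : IsClosed S := by
    rw [← closure_subset_iff_isClosed]
    intro z hz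
    by_cases hzS : z ∈ S
    · exact hzS
    · refine hloc z ?_
      have h1 : ∃ᶠ w in 𝓝 z, w ∈ S := mem_closure_iff_frequently.1 hz
      have h2 : ∃ᶠ w in 𝓝[≠] z, w ∈ S := by
        rw [frequently_nhdsWithin_iff]
        refine h1.mono fun w hw => ⟨hw, ?_⟩
        rintro rfl
        exact hzS hw
      exact h2.mono fun w hw => (show ∀ᶠ w' in 𝓝 w, y + w' • b ∈ D from hw).self_of_nhds
  have hS : S = Set.univ := IsClopen.eq_univ ⟨hSc, hSo⟩ ⟨0, hloc 0 hf⟩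
  intro z
  have hz : z ∈ S := hS ▸ Set.mem_univ z
  exact (show ∀ᶠ w in 𝓝 z, y + w • b ∈ D from hz).self_of_nhds

/-- real points accumulate -/
private theorem freq_real {P : ℂ → Prop} (h : ∀ t : ℝ, P t) : ∃ᶠ z in 𝓝[≠] (0 : ℂ), P z := by
  rw [frequently_iff]
  intro U hU
  rw [Metric.mem_nhdsWithin_iff] at hU
  obtain ⟨ε, hε, hsub⟩ := hU
  refine ⟨((ε / 2 : ℝ) : ℂ), hsub ⟨?_, ?_⟩, h _⟩
  · rw [mem_ball_zero_iff, Complex.norm_real, Real.norm_eq_abs, abs_of_pos (by positivity)]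
    linarith
  · show ((ε / 2 : ℝ) : ℂ) ≠ 0
    exact_mod_cast (by positivity : (ε / 2 : ℝ) ≠ 0)

/-- the points of a line in the lattice are on a real line -/
private theorem rank_of_simp {Λ : AddSubgroup (Vd (1 + 1))} (hs : Pool.Agent.G3.Simp Λ) {a : Vd (1 + 1)} (ha : a ≠ 0) :
    ∃ ω : ℂ, ‖ω‖ = 1 ∧ ∀ z : ℂ, z • a ∈ Λ → ((starRingEnd ℂ) ω * z).im = 0 := by
  by_cases h : ∃ z₁ : ℂ, z₁ ≠ 0 ∧ z₁ • a ∈ Λ
  · obtain ⟨z₁, h0, h1⟩ := h
    have hn : ‖z₁‖ ≠ 0 := norm_ne_zero_iff.2 h0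
    refine ⟨z₁ / (‖z₁‖ : ℂ), ?_, fun z hz => ?_⟩
    · rw [norm_div, Complex.norm_real, norm_norm, div_self hn]
    · have hli := hs a ha z₁ z h1 hz
      rw [LinearIndependent.pair_iff] at hli
      push Not at hli
      obtain ⟨s, t, hst, hne⟩ := hli
      have ht : t ≠ 0 := by
        intro ht
        rw [ht, zero_smul, add_zero, Complex.real_smul, mul_eq_zero] at hst
        rcases hst with hst | hst
        · exact hne (by exact_mod_cast hst) ht
        · exact h0 hst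
      have hz' : z = ((-s / t : ℝ) : ℂ) * z₁ := by
        rw [Complex.real_smul, Complex.real_smul] at hst
        have htc : (t : ℂ) ≠ 0 := by exact_mod_cast ht
        push_cast
        field_simp
        linear_combination hst
      rw [hz', map_div₀, Complex.conj_ofReal]
      have h2 : (starRingEnd ℂ) z₁ / (‖z₁‖ : ℂ) * (((-s / t : ℝ) : ℂ) * z₁) = ((‖z₁‖ * (-s / t) : ℝ) : ℂ) := by
        have h3 : (starRingEnd ℂ) z₁ * z₁ = (‖z₁‖ : ℂ) ^ 2 := by
          rw [mul_comm, Complex.mul_conj, Complex.normSq_eq_norm_sq]; push_cast; ring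
        have h4 : (‖z₁‖ : ℂ) ≠ 0 := by exact_mod_cast hn
        rw [Complex.ofReal_mul]
        generalize (((-s / t : ℝ) : ℂ)) = r
        field_simp
        linear_combination r * h3
      rw [h2, Complex.ofReal_im]
  · push Not at h
    refine ⟨1, norm_one, fun z hz => ?_⟩
    by_cases h0 : z = 0
    · simp [h0]
    · exact absurd hz (h z h0)

/-- `D` is translation invariant: coordinates at `p` and at `p + l` -/
private theorem transAt_add {Λ : AddSubgroup (Vd (1 + 1))} {D : Set (Vd (1 + 1))} (hinv : ∀ y ∈ D, ∀ l ∈ Λ, y + l ∈ D) {p l a : Vd (1 + 1)} (hl : l ∈ Λ)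
    (h : TransAt D p a) : TransAt D (p + l) a := by
  refine ⟨h.1, fun κ hκ q hq => ?_⟩
  have hiff : ∀ z : Vd (1 + 1), z - l ∈ D ↔ z ∈ D := fun z => by
    constructor
    · intro hz
      have := hinv _ hz l hl
      rwa [sub_add_cancel] at this
    · intro hz
      have := hinv _ hz (-l) (Λ.neg_mem hl)
      rwa [← sub_eq_add_neg] at this
  have hco : IsCoord D (fun z => κ z - l) p := by
    refine ⟨hκ.an.sub analyticAt_const, ?_, ?_, ?_⟩
    · show κ 0 - l = p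
      rw [hκ.zero, add_sub_cancel_right]
    · rw [fderiv_sub_const]
      exact hκ.inj
    · filter_upwards [hκ.mem_iff] with z hz
      rw [hiff]
      exact hz
  have h1 := h.2 _ hco q hq
  rwa [fderiv_sub_const] at h1

/-- a set which is finite modulo `Λ` has no accumulation points -/
private theorem iso_of_fin {Λ : AddSubgroup (Vd (1 + 1))} {B : Set (Vd (1 + 1))} (hΛ : Lat Λ) (hB : ∃ S : Set (Vd (1 + 1)), S.Finite ∧ ∀ b ∈ B, ∃ s ∈ S, b - s ∈ Λ)
    (q₀ : Vd (1 + 1)) : ∀ᶠ q in 𝓝[≠] q₀, q ∉ B := by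
  obtain ⟨δ, hδ, hdis⟩ := hΛ.disc
  obtain ⟨S, hS, hBS⟩ := hB
  have h1 : ∀ s ∈ S, ∀ᶠ q in 𝓝[≠] q₀, q - s ∉ Λ := by
    intro s _
    by_contra hcon
    rw [not_eventually] at hcon
    push Not at hcon
    have hb : ∀ r : ℝ, 0 < r → ∃ q : Vd (1 + 1), q ≠ q₀ ∧ ‖q - q₀‖ < r ∧ q - s ∈ Λ := by
      intro r hr
      have h2 : ∀ᶠ q in 𝓝[≠] q₀, q ≠ q₀ ∧ ‖q - q₀‖ < r := by
        refine (eventually_mem_nhdsWithin).and (nhdsWithin_le_nhds ?_)
        filter_upwards [Metric.ball_mem_nhds q₀ hr] with q hq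
        rwa [mem_ball, dist_eq_norm] at hq
      obtain ⟨q, hq1, hq2⟩ := (hcon.and_eventually h2).exists
      exact ⟨q, hq2.1, hq2.2, hq1⟩
    obtain ⟨q₁, h11, h12, h13⟩ := hb (δ / 2) (by positivity)
    have hpos : 0 < ‖q₁ - q₀‖ := norm_pos_iff.2 (sub_ne_zero.2 h11)
    obtain ⟨q₂, h21, h22, h23⟩ := hb ‖q₁ - q₀‖ hpos
    have h3 : q₁ - q₂ = 0 := by
      refine hdis _ ?_ ?_
      · have := Λ.sub_mem h13 h23
        rwa [sub_sub_sub_cancel_right] at this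
      · calc ‖q₁ - q₂‖ = ‖(q₁ - q₀) - (q₂ - q₀)‖ := by rw [sub_sub_sub_cancel_right]
          _ ≤ ‖q₁ - q₀‖ + ‖q₂ - q₀‖ := norm_sub_le _ _
          _ < δ := by linarith
    rw [sub_eq_zero.1 h3] at h22
    exact lt_irrefl _ h22
  have h2 : ∀ᶠ q in 𝓝[≠] q₀, ∀ s ∈ S, q - s ∉ Λ := (eventually_all_finite hS).2 h1
  filter_upwards [h2] with q hq hqB
  obtain ⟨s, hs, hsl⟩ := hBS q hqB
  exact hq s hs hsl

theorem line_iso {Λ : AddSubgroup (Vd (1 + 1))} {D : Set (Vd (1 + 1))} (hΛ : Lat Λ) (hs : Pool.Agent.G3.Simp Λ) (hDc : IsClosed D) (hinv : ∀ y ∈ D, ∀ l ∈ Λ, y + l ∈ D)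
    (hD : ∀ y, ∃ (m : ℕ) (h : Vd (1 + 1) → Fin m → ℂ), AnalyticAt ℂ h y ∧ ∀ᶠ z in 𝓝 y, (z ∈ D ↔ h z = 0)) (hne : D ≠ Set.univ) {a : Vd (1 + 1)} (ha : a ≠ 0) (y : Vd (1 + 1)) :
    ∀ᶠ z in 𝓝[≠] (0 : ℂ), y + z • a ∉ D := by
  by_contra hcon
  rw [not_eventually] at hcon
  push Not at hcon
  refine hne ?_
  have hn : ‖a‖ ≠ 0 := norm_ne_zero_iff.2 ha
  have hl0 : ∀ z : ℂ, y + z • a ∈ D := line_in hD hcon
  -- the normalised direction
  let c : ℂ := ((‖a‖⁻¹ : ℝ) : ℂ)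
  have hc0 : c ≠ 0 := by
    show ((‖a‖⁻¹ : ℝ) : ℂ) ≠ 0
    exact_mod_cast inv_ne_zero hn
  have hca : c • a ≠ 0 := smul_ne_zero hc0 ha
  have hLG : LG Λ ∅ ∅ (c • a) :=
    { norm := by
        rw [norm_smul, Complex.norm_real, norm_inv, norm_norm, inv_mul_cancel₀ hn]
      lat := hΛ
      D_closed := isClosed_empty
      D_inv := fun y hy => absurd hy (Set.notMem_empty y)
      bad_sub := Set.Subset.rfl
      bad_inv := fun y hy => absurd hy (Set.notMem_empty y)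
      bad_fin := ⟨∅, Set.finite_empty, fun y hy => absurd hy (Set.notMem_empty y)⟩
      iso := fun y => Eventually.of_forall fun z => Set.notMem_empty _
      rank := rank_of_simp hs hca }
  obtain ⟨E, hE⟩ := exists_toE hΛ (c • a)
  have hyE : ∀ v ∈ E, y + v ∈ D := by
    intro v hv
    have hcl : y + v ∈ closure D := by
      rw [Metric.mem_closure_iff]
      intro ε hε
      obtain ⟨l, hl, _, z, hz⟩ := hE.dns v hv (ε / 2) (by positivity)
      refine ⟨y + (z * c) • a + l, hinv _ (hl0 _) l hl, ?_⟩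
      rw [dist_eq_norm]
      have h1 : y + v - (y + (z * c) • a + l) = v - (l + z • (c • a)) := by
        rw [smul_smul]; abel
      rw [h1]
      linarith
    rwa [hDc.closure_eq] at hcl
  rcases toE_cases hLG hE with ⟨ν, hbas, hmem⟩ | htop
  · rw [Set.eq_univ_iff_forall]
    intro x
    obtain ⟨s, z, hsz⟩ := hbas (x - y)
    have h1 := line_in (y := y + z • (c • a)) (b := ν) hD (freq_real fun t => by
      have h2 := hyE ((t : ℂ) • ν + z • (c • a)) ((hmem _).2 ⟨t, z, rfl⟩)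
      have h3 : y + z • (c • a) + (t : ℂ) • ν = y + ((t : ℂ) • ν + z • (c • a)) := by abel
      rw [h3]
      exact h2) s
    have h4 : y + z • (c • a) + s • ν = x := by
      rw [add_assoc, add_comm (z • (c • a)), ← hsz, add_sub_cancel]
    rwa [h4] at h1
  · rw [Set.eq_univ_iff_forall]
    intro x
    have h1 := hyE (x - y) (by rw [htop]; exact Submodule.mem_top)
    rwa [add_sub_cancel] at h1

theorem tan_fin {Λ : AddSubgroup (Vd (1 + 1))} {D B : Set (Vd (1 + 1))} (hΛ : Lat Λ) (hs : Pool.Agent.G3.Simp Λ) (hDc : IsClosed D) (hinv : ∀ y ∈ D, ∀ l ∈ Λ, y + l ∈ D)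
    (hD : ∀ y, ∃ (m : ℕ) (h : Vd (1 + 1) → Fin m → ℂ), AnalyticAt ℂ h y ∧ ∀ᶠ z in 𝓝 y, (z ∈ D ↔ h z = 0)) (hne : D ≠ Set.univ)
    (hB : ∃ S : Set (Vd (1 + 1)), S.Finite ∧ ∀ b ∈ B, ∃ s ∈ S, b - s ∈ Λ) (hco : ∀ y ∈ D, y ∉ B → ∃ κ : Vd (1 + 1) → Vd (1 + 1), IsCoord D κ y) {a : Vd (1 + 1)} (ha : a ≠ 0) :
    ∃ S : Set (Vd (1 + 1)), S.Finite ∧ ∀ β ∈ Ba D B a, ∃ s ∈ S, β - s ∈ Λ := by
  obtain ⟨R, hR, hcpt⟩ := hΛ.cpt
  have hBiso := iso_of_fin hΛ hB
  -- the tangency points have no accumulation points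
  let T : Set (Vd (1 + 1)) := {q | q ∈ D ∧ ¬ TransAt D q a}
  have hT : ∀ q₀ : Vd (1 + 1), ∀ᶠ q in 𝓝[≠] q₀, q ∉ T := by
    intro q₀
    by_cases hq₀ : q₀ ∈ D
    · have h1 : ∀ᶠ q in 𝓝[≠] q₀, q ∈ D → TransAt D q a := by
        refine tan_local ha (hD q₀) ?_ (line_iso hΛ hs hDc hinv hD hne ha q₀)
        filter_upwards [hBiso q₀] with q hq hqD
        exact hco q hqD hq
      filter_upwards [h1] with q hq hqT
      exact hqT.2 (hq hqT.1)
    · have h1 : ∀ᶠ q in 𝓝 q₀, q ∉ D := hDc.isOpen_compl.mem_nhds hq₀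
      filter_upwards [nhdsWithin_le_nhds h1] with q hq hqT
      exact hq hqT.1
  have hfin : (T ∩ closedBall 0 R).Finite := by
    by_contra hinf
    obtain ⟨x, _, hx⟩ := Set.Infinite.exists_accPt_of_subset_isCompact hinf (isCompact_closedBall (0 : Vd (1 + 1)) R) Set.inter_subset_right
    rw [accPt_iff_frequently_nhdsNE] at hx
    obtain ⟨q, hq1, hq2⟩ := (hx.and_eventually (hT x)).exists
    exact hq2 hq1.1
  obtain ⟨S, hS, hBS⟩ := hB
  refine ⟨S ∪ (T ∩ closedBall 0 R), hS.union hfin, fun β hβ => ?_⟩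
  rcases hβ with ⟨hβD, hβB | hβT⟩
  · obtain ⟨s, hs1, hs2⟩ := hBS β hβB
    exact ⟨s, Or.inl hs1, hs2⟩
  · obtain ⟨l, hl, hd⟩ := hcpt β
    refine ⟨β - l, Or.inr ⟨⟨?_, fun htr => hβT ?_⟩, ?_⟩, ?_⟩
    · have := hinv β hβD (-l) (Λ.neg_mem hl)
      rwa [← sub_eq_add_neg] at this
    · have := transAt_add hinv hl htr
      rwa [sub_add_cancel] at this
    · rw [mem_closedBall_zero_iff]
      exact hd
    · rw [sub_sub_cancel]
      exact hl

end Pool.Agent.G3.A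

end

section

/-!
# G4 F FewA: two-dimensional tori, finitely many points modulo `Λ`

`simp_one`: for `k = 1` the property `Simp` gives `G3.Simp` (no elliptic curves).
`few_of_fin`: a set which is finite modulo `Λ` has few hits with the lines: the `z` with `y + z a ∈ s + Λ` lie on a real line (`rank_one`), with distances at least `η`: at most `2 R / η + 2` of them in the disc of
radius `R`.
`few_one`: so the bad points `Ba D B a` (finite modulo `Λ` by `tan_fin`).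
`bl_closed`: `B + Λ` is closed.
-/

set_option autoImplicit false

open Topology Filter Metric

namespace Pool.Agent.G4

open Pool.Agent.AD (Vd)
open Pool.Agent.TG (Lat IsCoord)
open Pool.Agent.G3.A (Ba)

theorem simp_one {Λ : AddSubgroup (Vd (1 + 1))} (h : Simp Λ) : Pool.Agent.G3.Simp Λ := by
  intro a ha z₁ z₂ h1 h2 hli
  obtain ⟨W, hW⟩ : ∃ W : Submodule ℂ (Vd (1 + 1)), W = Submodule.span ℂ {a} := ⟨_, rfl⟩
  have haW : a ∈ W := by
    rw [hW]
    exact Submodule.mem_span_singleton_self a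
  have hbot : W ≠ ⊥ := by
    intro h0
    rw [h0, Submodule.mem_bot] at haW
    exact ha haW
  have htop : W ≠ ⊤ := by
    intro h0
    have h3 : Module.finrank ℂ W ≤ 1 := by
      rw [hW]
      exact finrank_span_singleton ha |>.le
    rw [h0, finrank_top] at h3
    simp [Vd] at h3
  refine h W hbot htop (le_antisymm ?_ fun v hv => ?_)
  · rw [Submodule.span_le]
    rintro v ⟨-, hv⟩
    exact hv
  · have hv' : v ∈ W := hv
    rw [hW, Submodule.mem_span_singleton] at hv'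
    obtain ⟨w, rfl⟩ := hv'
    have hsp : ⊤ ≤ Submodule.span ℝ (Set.range ![z₁, z₂]) := by
      rw [hli.span_eq_top_of_card_eq_finrank' (by simp [Complex.finrank_real_complex])]
    have hw : w ∈ Submodule.span ℝ (Set.range ![z₁, z₂]) := hsp Submodule.mem_top
    rw [Matrix.range_cons, Matrix.range_cons, Matrix.range_empty, Set.union_empty, Set.singleton_union, Submodule.mem_span_pair] at hw
    obtain ⟨s, t, rfl⟩ := hw
    rw [add_smul, smul_assoc, smul_assoc]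
    refine Submodule.add_mem _ (Submodule.smul_mem _ s (Submodule.subset_span ⟨h1, W.smul_mem z₁ haW⟩)) (Submodule.smul_mem _ t (Submodule.subset_span ⟨h2, W.smul_mem z₂ haW⟩))

private theorem rank_one {Λ : AddSubgroup (Vd (1 + 1))} (hs : Pool.Agent.G3.Simp Λ) {a : Vd (1 + 1)} (ha : a ≠ 0) :
    ∃ ω : ℂ, ‖ω‖ = 1 ∧ ∀ z : ℂ, z • a ∈ Λ → ((starRingEnd ℂ) ω * z).im = 0 := by
  by_cases h : ∃ z₁ : ℂ, z₁ ≠ 0 ∧ z₁ • a ∈ Λ
  · obtain ⟨z₁, h0, h1⟩ := h
    have hn : ‖z₁‖ ≠ 0 := norm_ne_zero_iff.2 h0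
    refine ⟨z₁ / (‖z₁‖ : ℂ), ?_, fun z hz => ?_⟩
    · rw [norm_div, Complex.norm_real, norm_norm, div_self hn]
    · have hli := hs a ha z₁ z h1 hz
      rw [LinearIndependent.pair_iff] at hli
      push Not at hli
      obtain ⟨s, t, hst, hne⟩ := hli
      have ht : t ≠ 0 := by
        intro ht
        rw [ht, zero_smul, add_zero, Complex.real_smul, mul_eq_zero] at hst
        rcases hst with hst | hst
        · exact hne (by exact_mod_cast hst) ht
        · exact h0 hst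
      have hz' : z = ((-s / t : ℝ) : ℂ) * z₁ := by
        rw [Complex.real_smul, Complex.real_smul] at hst
        have htc : (t : ℂ) ≠ 0 := by exact_mod_cast ht
        push_cast
        field_simp
        linear_combination hst
      rw [hz', map_div₀, Complex.conj_ofReal]
      have h2 : (starRingEnd ℂ) z₁ / (‖z₁‖ : ℂ) * (((-s / t : ℝ) : ℂ) * z₁) = ((‖z₁‖ * (-s / t) : ℝ) : ℂ) := by
        have h3 : (starRingEnd ℂ) z₁ * z₁ = (‖z₁‖ : ℂ) ^ 2 := by
          rw [mul_comm, Complex.mul_conj, Complex.normSq_eq_norm_sq]; push_cast; ring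
        have h4 : (‖z₁‖ : ℂ) ≠ 0 := by exact_mod_cast hn
        rw [Complex.ofReal_mul]
        generalize (((-s / t : ℝ) : ℂ)) = r
        field_simp
        linear_combination r * h3
      rw [h2, Complex.ofReal_im]
  · push Not at h
    refine ⟨1, norm_one, fun z hz => ?_⟩
    by_cases h0 : z = 0
    · simp [h0]
    · exact absurd hz (h z h0)

/-- separated points on a real line -/
private theorem card_line {ω : ℂ} (hω : ‖ω‖ = 1) {η R : ℝ} (hη : 0 < η) (hR : 0 ≤ R) (S : Finset ℂ) (hS : ∀ z ∈ S, ‖z‖ ≤ R)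
    (him : ∀ z ∈ S, ∀ z' ∈ S, ((starRingEnd ℂ) ω * (z - z')).im = 0) (hsep : ∀ z ∈ S, ∀ z' ∈ S, ‖z - z'‖ < η → z = z') : (S.card : ℝ) ≤ 2 * R / η + 2 := by
  obtain ⟨g, hg⟩ : ∃ g : ℂ → ℤ, g = fun z => ⌊((starRingEnd ℂ) ω * z).re / η⌋ := ⟨_, rfl⟩
  have hcω : ‖(starRingEnd ℂ) ω‖ = 1 := by rw [RCLike.norm_conj, hω]
  have hmaps : ∀ z ∈ S, g z ∈ Finset.Icc ⌊-R / η⌋ ⌊R / η⌋ := by
    intro z hz
    have h1 : |((starRingEnd ℂ) ω * z).re| ≤ R := by
      refine (Complex.abs_re_le_norm _).trans ?_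
      rw [norm_mul, hcω, one_mul]
      exact hS z hz
    rw [Finset.mem_Icc, hg]
    rw [abs_le] at h1
    exact ⟨Int.floor_le_floor (div_le_div_of_nonneg_right h1.1 hη.le), Int.floor_le_floor (div_le_div_of_nonneg_right h1.2 hη.le)⟩
  have hinj : Set.InjOn g (S : Set ℂ) := by
    intro z hz z' hz' he
    refine hsep z hz z' hz' ?_
    rw [hg] at he
    have h1 := Int.abs_sub_lt_one_of_floor_eq_floor he
    rw [← sub_div, abs_div, abs_of_pos hη, div_lt_one hη, ← Complex.sub_re, ← mul_sub] at h1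
    have h2 : ‖z - z'‖ = ‖(starRingEnd ℂ) ω * (z - z')‖ := by rw [norm_mul, hcω, one_mul]
    have h3 : (starRingEnd ℂ) ω * (z - z') = ((((starRingEnd ℂ) ω * (z - z')).re : ℝ) : ℂ) := by
      apply Complex.ext
      · simp
      · rw [him z hz z' hz', Complex.ofReal_im]
    rw [h2, h3, Complex.norm_real]
    exact h1
  have h1 := Finset.card_le_card_of_injOn g hmaps hinj
  rw [Int.card_Icc] at h1
  have h2 : (S.card : ℝ) ≤ ((⌊R / η⌋ + 1 - ⌊-R / η⌋).toNat : ℝ) := by exact_mod_cast h1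
  have h3 : (0 : ℤ) ≤ ⌊R / η⌋ + 1 - ⌊-R / η⌋ := by
    have : ⌊-R / η⌋ ≤ ⌊R / η⌋ := Int.floor_le_floor (div_le_div_of_nonneg_right (by linarith) hη.le)
    omega
  have h4 : (((⌊R / η⌋ + 1 - ⌊-R / η⌋).toNat : ℕ) : ℝ) = ((⌊R / η⌋ + 1 - ⌊-R / η⌋ : ℤ) : ℝ) := by
    exact_mod_cast congrArg (fun n : ℤ => (n : ℝ)) (Int.toNat_of_nonneg h3)
  rw [h4] at h2
  push_cast at h2
  have h5 := Int.floor_le (R / η)
  have h6 := (Int.lt_floor_add_one (-R / η)).le
  have h7 : 2 * R / η = R / η - -R / η := by ring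
  rw [h7]
  linarith

/-- a set which is finite modulo `Λ` has few hits -/
theorem few_of_fin {Λ : AddSubgroup (Vd (1 + 1))} (hΛ : Lat Λ) (hs : Pool.Agent.G3.Simp Λ) {Bad : Set (Vd (1 + 1))}
    (hB : ∃ S : Set (Vd (1 + 1)), S.Finite ∧ ∀ b ∈ Bad, ∃ s ∈ S, b - s ∈ Λ) {a : Vd (1 + 1)} (ha : a ≠ 0) : Few Bad a := by
  classical
  obtain ⟨T, hT, hBT⟩ := hB
  obtain ⟨δ, hδ, hdis⟩ := hΛ.disc
  obtain ⟨ω, hω, hωa⟩ := rank_one hs ha
  have han : 0 < ‖a‖ := norm_pos_iff.2 ha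
  obtain ⟨η, hη, hηd⟩ : ∃ η : ℝ, 0 < η ∧ η = δ / ‖a‖ := ⟨δ / ‖a‖, by positivity, rfl⟩
  obtain ⟨n, hn⟩ : ∃ n : ℝ, n = hT.toFinset.card := ⟨_, rfl⟩
  have hn0 : 0 ≤ n := by
    rw [hn]
    positivity
  intro ε hε
  refine ⟨2 * n + (n / η) ^ 2 / ε, fun y R hR S hS => ?_⟩
  have h1 : ∀ s ∈ hT.toFinset, ((S.filter fun z => y + z • a - s ∈ Λ).card : ℝ) ≤ 2 * R / η + 2 := by
    intro s _
    refine card_line hω hη hR _ (fun z hz => (hS z (Finset.mem_filter.1 hz).1).1) (fun z hz z' hz' => ?_) (fun z hz z' hz' hlt => ?_)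
    · have h2 := Λ.sub_mem (Finset.mem_filter.1 hz).2 (Finset.mem_filter.1 hz').2
      have h3 : y + z • a - s - (y + z' • a - s) = (z - z') • a := by
        rw [sub_smul]
        abel
      rw [h3] at h2
      exact hωa _ h2
    · have h2 := Λ.sub_mem (Finset.mem_filter.1 hz).2 (Finset.mem_filter.1 hz').2
      have h3 : y + z • a - s - (y + z' • a - s) = (z - z') • a := by
        rw [sub_smul]
        abel
      rw [h3] at h2
      have h4 := hdis _ h2 (by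
        rw [norm_smul]
        rw [hηd, lt_div_iff₀ han] at hlt
        exact hlt)
      rcases smul_eq_zero.1 h4 with h5 | h5
      · exact sub_eq_zero.1 h5
      · exact absurd h5 ha
  have h2 : S ⊆ hT.toFinset.biUnion fun s => S.filter fun z => y + z • a - s ∈ Λ := by
    intro z hz
    obtain ⟨s, hs, hsl⟩ := hBT _ (hS z hz).2
    rw [Finset.mem_biUnion]
    exact ⟨s, hT.mem_toFinset.2 hs, Finset.mem_filter.2 ⟨hz, hsl⟩⟩
  have h3 : (S.card : ℝ) ≤ n * (2 * R / η + 2) := by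
    have h4 : (S.card : ℝ) ≤ ∑ s ∈ hT.toFinset, ((S.filter fun z => y + z • a - s ∈ Λ).card : ℝ) := by
      exact_mod_cast (Finset.card_le_card h2).trans Finset.card_biUnion_le
    refine h4.trans ((Finset.sum_le_sum h1).trans ?_)
    rw [Finset.sum_const, nsmul_eq_mul, hn]
  have h4 : n * (2 * R / η) ≤ ε * R ^ 2 + (n / η) ^ 2 / ε := by
    have h5 : 0 ≤ (ε * R - n / η) ^ 2 / ε := by positivity
    have h6 : (ε * R - n / η) ^ 2 / ε = ε * R ^ 2 - n * (2 * R / η) + (n / η) ^ 2 / ε := by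
      field_simp
      ring
    linarith
  linarith [mul_add n (2 * R / η) 2]

/-- `B + Λ` is closed -/
theorem bl_closed {k : ℕ} {Λ : AddSubgroup (Vd (k + 1))} [DiscreteTopology Λ] {B : Set (Vd (k + 1))}
    (hB : ∃ S : Set (Vd (k + 1)), S.Finite ∧ ∀ b ∈ B, ∃ s ∈ S, b - s ∈ Λ) : IsClosed (Pool.Agent.G3.E.BL B Λ) := by
  obtain ⟨S, hS, hBS⟩ := hB
  have hc : IsClosed (Λ : Set (Vd (k + 1))) := AddSubgroup.isClosed_of_discrete
  have h1 : Pool.Agent.G3.E.BL B Λ = ⋃ s ∈ {s | s ∈ S ∧ ∃ b ∈ B, b - s ∈ Λ}, (fun y => y - s) ⁻¹' (Λ : Set (Vd (k + 1))) := by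
    ext y
    constructor
    · rintro ⟨b, hb, hy⟩
      obtain ⟨s, hs, hbs⟩ := hBS b hb
      refine Set.mem_biUnion (x := s) ⟨hs, b, hb, hbs⟩ ?_
      show y - s ∈ Λ
      have h2 := Λ.add_mem hy hbs
      rwa [sub_add_sub_cancel] at h2
    · intro hy
      obtain ⟨s, ⟨hs, b, hb, hbs⟩, hy⟩ := Set.mem_iUnion₂.1 hy
      refine ⟨b, hb, ?_⟩
      have h2 := Λ.sub_mem (show y - s ∈ Λ from hy) hbs
      rwa [sub_sub_sub_cancel_right] at h2
  rw [h1]
  exact (hS.subset fun s hs => hs.1).isClosed_biUnion fun s _ => hc.preimage (continuous_id.sub continuous_const)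

theorem few_one {Λ : AddSubgroup (Vd (1 + 1))} {D B : Set (Vd (1 + 1))} (hΛ : Lat Λ) (hs : Simp Λ) (hDc : IsClosed D) (hinv : ∀ y ∈ D, ∀ l ∈ Λ, y + l ∈ D)
    (hD : ∀ y, ∃ (m : ℕ) (h : Vd (1 + 1) → Fin m → ℂ), AnalyticAt ℂ h y ∧ ∀ᶠ z in 𝓝 y, (z ∈ D ↔ h z = 0)) (hne : D ≠ Set.univ)
    (hB : ∃ S : Set (Vd (1 + 1)), S.Finite ∧ ∀ b ∈ B, ∃ s ∈ S, b - s ∈ Λ) (hco : ∀ y ∈ D, y ∉ B → ∃ κ : Vd (1 + 1) → Vd (1 + 1), IsCoord D κ y) {a : Vd (1 + 1)} (ha : a ≠ 0) :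
    Few (Ba D B a) a :=
  few_of_fin hΛ (simp_one hs) (Pool.Agent.G3.A.tan_fin hΛ (simp_one hs) hDc hinv hD hne hB hco ha) ha

end Pool.Agent.G4

end

section

/-!
# G4 A Gr: the field `gr` of `TDat`: the growth of the curves on discs of radius `R₀`

Any `R₀ > 0`; rescale (`z ↦ R₀ z`) to the radius `1`.  Otherwise there are `y n` (in a bounded set, by `hc_per`), entire lifts `F n` and (recentre, `hc_add`) `t n = circleAverage (log ‖F n‖) 0 1 - log ‖F n 0‖ → 0` (it is `≥ 0`).  `G n = exp (-φ n) • F n`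
on `ball 0 1` with `Re φ n` = the Poisson integral of `log ‖F n‖` (`H56/G3/Poi`: `herglotz`, `poisson_jensen`): `‖G n‖ ≤ 1`, `‖G n 0‖ = exp (- t n) → 1`.  Limit `G` (`ul_diff`): `‖G‖ ≤ 1`, `‖G 0‖ = 1`, so `G` is
constant (maximum principle, strictly convex norm).  The limit curve `g` (`hc_closed`) is `pr G` off `D`, constant near `0`, but `u` of it is `y₀ + z a` modulo the discrete `Λ`, `a ≠ 0`: contradiction
(`Fb` over different points are disjoint modulo `Λ`: `hc_mem`, `fb_lift`).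
-/

set_option autoImplicit false

open Topology Filter Metric

namespace Pool.Agent.G4.A

open Pool.Agent.H36.BP (EN fs wd)
open Pool.Agent.H14.PP (IsCone CurveAt Tan)
open Pool.Agent.H62.EF (MN pr pr_smul continuousAt_pr)
open Pool.Agent.AD (Vd Chart Charts IsGerm)
open Pool.Agent.TG
open Pool.Agent.G3
open Pool.Agent.G3.A
open Pool.Agent.G3.C (Gc)

variable {N k : ℕ} {X : Set (EN N)} {Λ : AddSubgroup (Vd (k + 1))} {u : EN N → Vd (k + 1)} {D B Bad : Set (Vd (k + 1))} {a : Vd (k + 1)}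

/-- a multiple of the curve with norm almost `1` -/
private theorem gr_a {F : ℂ → EN N} (hF : Differentiable ℂ F) (h0 : ∀ z, F z ≠ 0) {ε : ℝ} (hε : 0 < ε)
    (h : Real.circleAverage (fun w => Real.log ‖F w‖) 0 1 < Real.log ‖F 0‖ + ε) :
    ∃ K : ℂ → EN N, Differentiable ℂ K ∧ (∀ z, ∃ c : ℂ, c ≠ 0 ∧ K z = c • F z) ∧ (∀ z ∈ ball (0 : ℂ) 1, ‖K z‖ ≤ Real.exp ε) ∧
      Real.exp (-(2 * ε)) ≤ ‖K 0‖ := by
  have hcont : ContinuousOn (fun z => Real.log ‖F z‖) (sphere (0 : ℂ) 1) :=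
    ContinuousOn.log hF.continuous.continuousOn.norm fun z _ => norm_ne_zero_iff.2 (h0 z)
  obtain ⟨ψ, hψ, hψu⟩ := Pool.Agent.H56.G3.approx_re one_pos hcont hε
  refine ⟨fun z => Complex.exp (-ψ z) • F z, ?_, fun z => ⟨_, Complex.exp_ne_zero _, rfl⟩, ?_, ?_⟩
  · have h1 : Differentiable ℂ fun z => Complex.exp (-ψ z) := by fun_prop
    exact h1.smul hF
  · intro w hw
    have hd : DiffContOnCl ℂ (fun z => Complex.exp (-ψ z) • F z) (ball 0 1) := by
      have h1 : Differentiable ℂ fun z => Complex.exp (-ψ z) := by fun_prop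
      exact (h1.smul hF).diffContOnCl
    refine Complex.norm_le_of_forall_mem_frontier_norm_le isBounded_ball hd ?_ (subset_closure hw)
    intro z hz
    rw [frontier_ball _ one_ne_zero] at hz
    have h1 := abs_le.1 (hψu z hz)
    have h2 : 0 < ‖F z‖ := norm_pos_iff.2 (h0 z)
    rw [norm_smul, Complex.norm_exp, Complex.neg_re]
    calc Real.exp (-(ψ z).re) * ‖F z‖ = Real.exp (-(ψ z).re) * Real.exp (Real.log ‖F z‖) := by rw [Real.exp_log h2]
      _ = Real.exp (-(ψ z).re + Real.log ‖F z‖) := by rw [← Real.exp_add]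
      _ ≤ Real.exp ε := Real.exp_le_exp.2 (by linarith [h1.1])
  · have h1 : (ψ 0).re ≤ Real.circleAverage (fun w => Real.log ‖F w‖) 0 1 + ε := by
      have h2 : Real.circleAverage ψ 0 1 = ψ 0 := by
        have h3 : DiffContOnCl ℂ ψ (ball 0 |1|) := hψ.diffContOnCl
        exact h3.circleAverage
      have h4 : CircleIntegrable ψ 0 1 := hψ.continuous.continuousOn.circleIntegrable'
      have h5 := Complex.reCLM.circleAverage_comp_comm h4
      rw [h2] at h5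
      simp only [Complex.reCLM_apply] at h5
      rw [← h5]
      have h6 : CircleIntegrable (fun w => Real.log ‖F w‖) 0 1 := by
        refine ContinuousOn.circleIntegrable' ?_
        rwa [abs_one]
      have h7 : Real.circleAverage (fun w => Real.log ‖F w‖ + ε) 0 1 = Real.circleAverage (fun w => Real.log ‖F w‖) 0 1 + ε := by
        rw [Real.circleAverage_fun_add h6 (circleIntegrable_const _ _ _), Real.circleAverage_const]
      rw [← h7]
      refine Real.circleAverage_mono ?_ ?_ ?_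
      · exact (Complex.continuous_re.comp hψ.continuous).continuousOn.circleIntegrable'
      · exact h6.add (circleIntegrable_const _ _ _)
      · intro z hz
        rw [abs_one] at hz
        have h8 := abs_le.1 (hψu z hz)
        show (ψ z).re ≤ _
        linarith [h8.2]
    have h2 : 0 < ‖F 0‖ := norm_pos_iff.2 (h0 0)
    rw [norm_smul, Complex.norm_exp, Complex.neg_re]
    calc Real.exp (-(2 * ε)) ≤ Real.exp (-(ψ 0).re + Real.log ‖F 0‖) := Real.exp_le_exp.2 (by linarith)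
      _ = Real.exp (-(ψ 0).re) * ‖F 0‖ := by rw [Real.exp_add, Real.exp_log h2]

theorem gr (G : Geo X Λ u D B) (hL : LG Λ D Bad a) (hN : NL X Λ u D a) {R₀ : ℝ} (hR₀ : 0 < R₀) : ∃ c : ℝ, 0 < c ∧ ∀ y : Vd (k + 1), ∀ F ∈ Gc X Λ u a y, ∀ z : ℂ,
    Real.log ‖F z‖ + c ≤ Real.circleAverage (fun w => Real.log ‖F w‖) z R₀ := by
  classical
  have hX := G.cone
  by_contra hcon
  push Not at hcon
  obtain ⟨R, -, hR⟩ := G.lat.cpt
  -- the sequence
  have hex : ∀ n : ℕ, ∃ (y : Vd (k + 1)) (F : ℂ → EN N), ‖y‖ ≤ R ∧ F ∈ Gc X Λ u a y ∧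
      Real.circleAverage (fun w => Real.log ‖F (R₀ * w)‖) 0 1 < Real.log ‖F (R₀ * 0)‖ + 1 / ((n : ℝ) + 1) := by
    intro n
    obtain ⟨y, F, hF, z, hz⟩ := hcon (1 / ((n : ℝ) + 1)) (by positivity)
    obtain ⟨l, hl, hlR⟩ := hR (y + z • a)
    refine ⟨y + z • a - l, fun w => F (z + w), hlR, ⟨hF.1.comp (differentiable_id.const_add z), fun w => hF.2.1 _, fun w => ?_⟩, ?_⟩
    · have h1 := Λ.add_mem (hF.2.2 (z + w)) hl
      have e : u (F (z + w)) - (y + (z + w) • a) + l = u (F (z + w)) - (y + z • a - l + w • a) := by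
        rw [add_smul]
        abel
      rwa [e] at h1
    · have h2 : Real.circleAverage (fun w : ℂ => Real.log ‖F (z + R₀ * w)‖) 0 1 = Real.circleAverage (fun w => Real.log ‖F w‖) z R₀ := by
        rw [Real.circleAverage_def, Real.circleAverage_def]
        simp only [circleMap, zero_add, Complex.ofReal_one, one_mul]
      rw [h2]
      show _ < Real.log ‖F (z + R₀ * 0)‖ + _
      rw [mul_zero, add_zero]
      exact hz
  choose y F hyR hF hFc using hex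
  have hK : ∀ n, ∃ K : ℂ → EN N, Differentiable ℂ K ∧ (∀ z, ∃ c : ℂ, c ≠ 0 ∧ K z = c • F n (R₀ * z)) ∧ (∀ z ∈ ball (0 : ℂ) 1, ‖K z‖ ≤ Real.exp (1 / ((n : ℝ) + 1))) ∧
      Real.exp (-(2 * (1 / ((n : ℝ) + 1)))) ≤ ‖K 0‖ := fun n => gr_a (F := fun z => F n (R₀ * z)) ((hF n).1.comp (differentiable_id.const_mul (R₀ : ℂ))) (fun z => ne_zero hX ((hF n).2.1 _)) (by positivity) (hFc n)
  choose K hKd hKF hKle hK0 using hK
  obtain ⟨𝒰, h𝒰⟩ : ∃ 𝒰 : Ultrafilter ℕ, (𝒰 : Filter ℕ) ≤ atTop := ⟨Ultrafilter.of atTop, Ultrafilter.of_le atTop⟩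
  have hinv : Tendsto (fun n : ℕ => 1 / ((n : ℝ) + 1)) 𝒰 (𝓝 0) := tendsto_one_div_add_atTop_nhds_zero_nat.mono_left h𝒰
  have hexp1 : Tendsto (fun n : ℕ => Real.exp (1 / ((n : ℝ) + 1))) 𝒰 (𝓝 1) := by
    have h1 := (Real.continuous_exp.tendsto 0).comp hinv
    rwa [Real.exp_zero] at h1
  have hexp2 : Tendsto (fun n : ℕ => Real.exp (-(2 * (1 / ((n : ℝ) + 1))))) 𝒰 (𝓝 1) := by
    have h1 := (Real.continuous_exp.tendsto (-(2 * 0))).comp ((hinv.const_mul 2).neg)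
    rwa [mul_zero, neg_zero, Real.exp_zero] at h1
  -- the limits
  obtain ⟨y₀, hy₀⟩ : ∃ y₀, Tendsto y 𝒰 (𝓝 y₀) := by
    have hle : ((𝒰.map y : Ultrafilter (Vd (k + 1))) : Filter (Vd (k + 1))) ≤ 𝓟 (closedBall 0 R) := by
      rw [le_principal_iff, Ultrafilter.mem_coe, Ultrafilter.mem_map]
      exact Filter.Eventually.of_forall fun n => mem_closedBall_zero_iff.2 (hyR n)
    obtain ⟨y₀, -, h⟩ := (isCompact_closedBall (0 : Vd (k + 1)) R).ultrafilter_le_nhds (𝒰.map y) hle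
    exact ⟨y₀, h⟩
  obtain ⟨g, hg, hlm⟩ := hc_closed (𝒰 := 𝒰) G hL hN hy₀ (f := fun n z => pr (F n z)) (Filter.Eventually.of_forall fun n => ⟨F n, hF n, rfl⟩)
  obtain ⟨L, hLd, -, hLl⟩ := ul_diff (𝒰 := 𝒰) (g := K) (z₀ := 0) (r := 1) (C := Real.exp 1) (Filter.Eventually.of_forall fun n =>
    ⟨(hKd n).differentiableOn, fun z hz => (hKle n z hz).trans (Real.exp_le_exp.2 (by
      rw [div_le_one (by positivity)]
      linarith [(Nat.cast_nonneg n : (0 : ℝ) ≤ n)]))⟩)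
  have hL1 : ∀ z ∈ ball (0 : ℂ) 1, ‖L z‖ ≤ 1 := by
    intro z hz
    exact le_of_tendsto_of_tendsto (hLl z hz (fun _ => z) tendsto_const_nhds).norm hexp1 (Filter.Eventually.of_forall fun n => hKle n z hz)
  have h00 : (0 : ℂ) ∈ ball (0 : ℂ) 1 := mem_ball_self one_pos
  have hL0 : 1 ≤ ‖L 0‖ :=
    le_of_tendsto_of_tendsto hexp2 (hLl 0 h00 (fun _ => 0) tendsto_const_nhds).norm (Filter.Eventually.of_forall fun n => hK0 n)
  have hconst : ∀ z ∈ ball (0 : ℂ) 1, L z = L 0 := by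
    have hm : IsMaxOn (norm ∘ L) (ball (0 : ℂ) 1) 0 := fun z hz => (hL1 z hz).trans hL0
    exact Complex.eqOn_of_isPreconnected_of_isMaxOn_norm (convex_ball 0 1).isPreconnected isOpen_ball hLd h00 hm
  have hL00 : L 0 ≠ 0 := by
    intro h
    rw [h, norm_zero] at hL0
    linarith
  -- the limit curve is constant
  have hgc' : ∀ z ∈ ball (0 : ℂ) 1, y₀ + (R₀ * z) • a ∉ D → g (R₀ * z) = pr (L 0) := by
    intro z hz hzD
    have h1 : Tendsto (fun n => pr (F n (R₀ * z))) 𝒰 (𝓝 (g (R₀ * z))) := hlm _ hzD (fun _ => R₀ * z) tendsto_const_nhds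
    have h2 : Tendsto (fun n => pr (K n z)) 𝒰 (𝓝 (pr (L 0))) := by
      have h3 := hLl z hz (fun _ => z) tendsto_const_nhds
      rw [hconst z hz] at h3
      exact (continuousAt_pr hL00).tendsto.comp h3
    refine tendsto_nhds_unique h1 (h2.congr fun n => ?_)
    obtain ⟨c, hc, hcK⟩ := hKF n z
    rw [hcK, pr_smul _ hc]
  have hR₀' : (R₀ : ℂ) ≠ 0 := by exact_mod_cast hR₀.ne'
  have hgc : ∀ z ∈ ball (0 : ℂ) R₀, y₀ + z • a ∉ D → g z = pr (L 0) := by
    intro z hz hzD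
    have e : (R₀ : ℂ) * (z / R₀) = z := by field_simp
    have h1 := hgc' (z / R₀) (by
      rw [mem_ball_zero_iff] at hz ⊢
      rw [norm_div, Complex.norm_real, Real.norm_of_nonneg hR₀.le, div_lt_one hR₀]
      exact hz) (by rw [e]; exact hzD)
    rwa [e] at h1
  have h00 : (0 : ℂ) ∈ ball (0 : ℂ) R₀ := mem_ball_self hR₀
  obtain ⟨δ, hδ, hd⟩ := G.lat.disc
  have hnear : ∀ᶠ z : ℂ in 𝓝[≠] (0 : ℂ), y₀ + z • a ∉ D ∧ z ∈ ball (0 : ℂ) R₀ ∧ ‖z‖ < δ / 2 := by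
    have h1 : ∀ᶠ z : ℂ in 𝓝[≠] (0 : ℂ), z ∈ ball (0 : ℂ) R₀ := nhdsWithin_le_nhds (isOpen_ball.mem_nhds h00)
    have h2 : ∀ᶠ z : ℂ in 𝓝[≠] (0 : ℂ), z ∈ ball (0 : ℂ) (δ / 2) := nhdsWithin_le_nhds (ball_mem_nhds 0 (by positivity))
    filter_upwards [hL.iso y₀, h1, h2] with z a1 a2 a3
    exact ⟨a1, a2, mem_ball_zero_iff.1 a3⟩
  obtain ⟨z, hz, hz0⟩ := (hnear.and self_mem_nhdsWithin).exists
  have hnear2 : ∀ᶠ w : ℂ in 𝓝[≠] (0 : ℂ), w ≠ z := by
    refine nhdsWithin_le_nhds ?_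
    exact isOpen_ne.mem_nhds (Ne.symm hz0)
  obtain ⟨w, hw, hwz⟩ := (hnear.and hnear2).exists
  have h1 := hc_mem hg z
  have h2 := hc_mem hg w
  rw [hgc z hz.2.1 hz.1] at h1
  rw [hgc w hw.2.1 hw.1] at h2
  obtain ⟨x, hx, hxm, hxu⟩ := h1
  have h3 := fb_lift hX G.tor h2 hx hxm
  have h4 := Λ.sub_mem h3 hxu
  have e : u x - (y₀ + w • a) - (u x - (y₀ + z • a)) = (z - w) • a := by
    rw [sub_smul]
    abel
  rw [e] at h4
  have h5 : ‖(z - w) • a‖ < δ := by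
    rw [norm_smul, hL.norm, mul_one]
    exact (norm_sub_le _ _).trans_lt (by linarith [hz.2.2, hw.2.2])
  have h6 := hd _ h4 h5
  have h7 : a ≠ 0 := by
    intro h
    have h8 := hL.norm
    rw [h, norm_zero] at h8
    exact zero_ne_one h8
  rcases smul_eq_zero.1 h6 with h8 | h8
  · exact hwz (sub_eq_zero.1 h8).symm
  · exact h7 h8

end Pool.Agent.G4.A

end

section

/-!
# G4 E PlH: the family over a plane is holomorphic off `D`

`pln_hol`: continuity at `(ζ₀, z₀)` off `D'`: if `p n → (ζ₀, z₀)`, the curves `Ψ (p n).1` over `b + (p n).1 ν + ℂ a` have (along an ultrafilter) a limit curve `f ∈ Hc (b + ζ₀ ν)` (`hc_closed`), and `f z = pr (G (ζ₀, z)) = Ψ ζ₀ z` at the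
points `z` off `D'` with `G (ζ₀, z) ≠ 0`; so `f = Ψ ζ₀` (`hc_eq`), and `Ψ (p n).1 (p n).2 → Ψ ζ₀ z₀`.
Holomorphic: `v` with `nd v (Ψ ζ₀ z₀) ≠ 0`; near `(ζ₀, z₀)` the vector `nv v (Ψ p)` is continuous, and equal to `(inner v (G p))⁻¹ • G p` where `inner v (G p) ≠ 0` (`G p ≠ 0`): `riemann_ext` (`TG/Rm`) with the function `inner v (G p)`, which is
not identically `0` near the point; by continuity the extension is `nv v (Ψ p)` (the set `inner v (G p) ≠ 0` is dense near the point).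
-/

set_option autoImplicit false

open Topology Filter Metric

namespace Pool.Agent.G4.E

open Pool.Agent.H36.BP (EN fs wd)
open Pool.Agent.H14.PP (IsCone CurveAt Tan)
open Pool.Agent.H62.EF (MN pr)
open Pool.Agent.AD (Vd Chart Charts IsGerm)
open Pool.Agent.TG
open Pool.Agent.G3.A (Ba Hc Frm Lm)
open Pool.Agent.G3.C (nv nd nv_pr nd_cont nd_pr_ne nv_continuousAt pr_nv)
open Pool.Agent.G4.A (DA)

variable {N k : ℕ} {X : Set (EN N)} {Λ : AddSubgroup (Vd (k + 1))} {u : EN N → Vd (k + 1)} {D B Bad : Set (Vd (k + 1))} {a ν b : Vd (k + 1)}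
  {Γ : AddSubgroup (Vd (k + 1))} {J r : ℕ} {W : Fin r → Vd (k + 1) →L[ℂ] ℂ} {α : Fin J → VForm X Λ u} {c₀ C₀ ρ δ : ℝ}

/-- on the line `ζ = ζ₀` the lift does not vanish near the point, and off `D` -/
private theorem PlH_line (S : DA X Λ u D B Bad a Γ W α c₀ C₀ ρ δ) {ζ₀ z₀ : ℂ} (hD : b + ζ₀ • ν + z₀ • a ∉ D) {G : ℂ × ℂ → EN N} (hG : AnalyticAt ℂ G (ζ₀, z₀))
    (hG0 : ¬ ∀ᶠ w in 𝓝 z₀, G (ζ₀, w) = 0) : ∀ᶠ z in 𝓝[≠] z₀, G (ζ₀, z) ≠ 0 ∧ b + ζ₀ • ν + z • a ∉ D := by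
  have h1 : AnalyticAt ℂ (fun z : ℂ => G (ζ₀, z)) z₀ := by
    have h2 : AnalyticAt ℂ (fun z : ℂ => ((ζ₀, z) : ℂ × ℂ)) z₀ := analyticAt_const.prod analyticAt_id
    exact AnalyticAt.comp (g := G) (f := fun z : ℂ => ((ζ₀, z) : ℂ × ℂ)) hG h2
  have h2 : ∀ᶠ z in 𝓝[≠] z₀, G (ζ₀, z) ≠ 0 := by
    rcases h1.eventually_eq_zero_or_eventually_ne_zero with h | h
    · exact absurd h hG0
    · exact h
  have h3 : ∀ᶠ z in 𝓝 z₀, b + ζ₀ • ν + z • a ∉ D := by
    have h4 : IsOpen {z : ℂ | b + ζ₀ • ν + z • a ∉ D} := (S.lc.D_closed.preimage (by fun_prop : Continuous fun z : ℂ => b + ζ₀ • ν + z • a)).isOpen_compl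
    exact h4.mem_nhds hD
  exact h2.and (h3.filter_mono nhdsWithin_le_nhds)

/-- continuity -/
theorem pln_cont (S : DA X Λ u D B Bad a Γ W α c₀ C₀ ρ δ) {Ψ : ℂ → ℂ → MN N} (h : Pln X Λ u a ν b Ψ) {p₀ : ℂ × ℂ} (hD : b + p₀.1 • ν + p₀.2 • a ∉ D) :
    ContinuousAt (fun p : ℂ × ℂ => Ψ p.1 p.2) p₀ := by
  obtain ⟨ζ₀, z₀⟩ := p₀
  obtain ⟨G, hG, hG0, hGe⟩ := h.lift ζ₀ z₀
  unfold ContinuousAt
  rw [Filter.tendsto_iff_ultrafilter]
  intro 𝒰 h𝒰
  have t1 : Tendsto (fun p : ℂ × ℂ => p.1) 𝒰 (𝓝 ζ₀) := (continuous_fst.tendsto ((ζ₀, z₀) : ℂ × ℂ)).mono_left h𝒰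
  have t2 : Tendsto (fun p : ℂ × ℂ => p.2) 𝒰 (𝓝 z₀) := (continuous_snd.tendsto ((ζ₀, z₀) : ℂ × ℂ)).mono_left h𝒰
  have hy : Tendsto (fun p : ℂ × ℂ => b + p.1 • ν) 𝒰 (𝓝 (b + ζ₀ • ν)) := tendsto_const_nhds.add (t1.smul_const ν)
  obtain ⟨g, hg, hlm⟩ := Pool.Agent.G4.A.hc_closed S.geo S.lg S.nl (𝒰 := 𝒰) hy (f := fun p : ℂ × ℂ => Ψ p.1) (Eventually.of_forall fun p => h.line p.1)
  -- the limit curve is `Ψ ζ₀`
  have hgΨ : g = Ψ ζ₀ := by
    refine Pool.Agent.G4.A.hc_eq S.geo.cone hg (h.line ζ₀) (z₀ := z₀) ?_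
    refine Filter.Eventually.frequently ?_
    have h1 : ∀ᶠ z in 𝓝[≠] z₀, ∀ᶠ p in 𝓝 ((ζ₀, z) : ℂ × ℂ), (G p ≠ 0 → Ψ p.1 p.2 = pr (G p)) ∧ AnalyticAt ℂ G p := by
      have h2 : ∀ᶠ q in 𝓝 ((ζ₀, z₀) : ℂ × ℂ), ∀ᶠ p in 𝓝 q, (G p ≠ 0 → Ψ p.1 p.2 = pr (G p)) ∧ AnalyticAt ℂ G p := (hGe.and hG.eventually_analyticAt).eventually_nhds
      have h3 : Tendsto (fun z : ℂ => ((ζ₀, z) : ℂ × ℂ)) (𝓝 z₀) (𝓝 (ζ₀, z₀)) := (by fun_prop : Continuous fun z : ℂ => ((ζ₀, z) : ℂ × ℂ)).tendsto z₀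
      exact (h3.eventually h2).filter_mono nhdsWithin_le_nhds
    filter_upwards [PlH_line S hD hG hG0, h1] with z hz hz1
    have t3 : Tendsto (fun p : ℂ × ℂ => ((p.1, z) : ℂ × ℂ)) 𝒰 (𝓝 (ζ₀, z)) := t1.prodMk_nhds tendsto_const_nhds
    have hza := hz1.self_of_nhds
    have e1 : Tendsto (fun p : ℂ × ℂ => G (p.1, z)) 𝒰 (𝓝 (G (ζ₀, z))) := hza.2.continuousAt.tendsto.comp t3
    have e2 : Tendsto (fun p : ℂ × ℂ => pr (G (p.1, z))) 𝒰 (𝓝 (pr (G (ζ₀, z)))) := (Pool.Agent.H62.EF.continuousAt_pr hz.1).tendsto.comp e1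
    have e3 : Tendsto (fun p : ℂ × ℂ => Ψ p.1 z) 𝒰 (𝓝 (pr (G (ζ₀, z)))) := by
      refine e2.congr' ?_
      filter_upwards [t3.eventually hz1, e1.eventually_ne hz.1] with p hp hp2
      exact (hp.1 hp2).symm
    have e4 : Tendsto (fun p : ℂ × ℂ => Ψ p.1 z) 𝒰 (𝓝 (g z)) := hlm z hz.2 (fun _ => z) tendsto_const_nhds
    rw [tendsto_nhds_unique e4 e3]
    exact (hza.1 hz.1).symm
  have h1 : Tendsto (fun p : ℂ × ℂ => Ψ p.1 p.2) 𝒰 (𝓝 (g z₀)) := hlm z₀ hD (fun p => p.2) t2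
  rw [hgΨ] at h1
  exact h1

theorem pln_hol (S : DA X Λ u D B Bad a Γ W α c₀ C₀ ρ δ) {Ψ : ℂ → ℂ → MN N} (h : Pln X Λ u a ν b Ψ) :
    HolY X Λ u {p : ℂ × ℂ | b + p.1 • ν + p.2 • a ∈ D} (fun p => b + p.1 • ν + p.2 • a) (fun p => Ψ p.1 p.2) := by
  intro p₀ hp₀
  have hX := S.geo.cone
  have hD : b + p₀.1 • ν + p₀.2 • a ∉ D := hp₀
  have hDo : IsOpen {p : ℂ × ℂ | b + p.1 • ν + p.2 • a ∉ D} := (S.lc.D_closed.preimage (by fun_prop : Continuous fun p : ℂ × ℂ => b + p.1 • ν + p.2 • a)).isOpen_compl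
  have hmem : ∀ p : ℂ × ℂ, Ψ p.1 p.2 ∈ Fb X Λ u (b + p.1 • ν + p.2 • a) := fun p => Pool.Agent.G4.A.hc_mem (h.line p.1) p.2
  obtain ⟨x₀, hx₀X, hx₀m, -⟩ := hmem p₀
  have hx₀ : x₀ ≠ 0 := ne_zero hX hx₀X
  have hself : (inner ℂ x₀ x₀ : ℂ) ≠ 0 := inner_self_ne_zero.2 hx₀
  have hnd₀ : nd x₀ (Ψ p₀.1 p₀.2) ≠ 0 := by
    rw [← hx₀m]
    exact (nd_pr_ne hx₀).2 hself
  have hc₀ := pln_cont S h hD
  -- near the point
  have hD1 : ∀ᶠ p in 𝓝 p₀, b + p.1 • ν + p.2 • a ∉ D := hDo.mem_nhds hD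
  have hU : ∀ᶠ p in 𝓝 p₀, b + p.1 • ν + p.2 • a ∉ D ∧ nd x₀ (Ψ p.1 p.2) ≠ 0 := hD1.and (((nd_cont x₀).continuousAt.comp hc₀).eventually_ne hnd₀)
  have hcont : ∀ᶠ p in 𝓝 p₀, ContinuousAt (fun p : ℂ × ℂ => nv x₀ (Ψ p.1 p.2)) p := by
    filter_upwards [hU] with p hp
    exact ContinuousAt.comp (g := nv x₀) (f := fun p : ℂ × ℂ => Ψ p.1 p.2) (nv_continuousAt hp.2) (pln_cont S h hp.1)
  obtain ⟨G, hG, hG0, hGe⟩ := h.lift p₀.1 p₀.2
  have hG' : AnalyticAt ℂ G p₀ := hG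
  have hGe' : ∀ᶠ p in 𝓝 p₀, G p ≠ 0 → Ψ p.1 p.2 = pr (G p) := hGe
  set hh : ℂ × ℂ → ℂ := fun p => (inner ℂ x₀ (G p) : ℂ) with hhd
  have hha : ∀ p, AnalyticAt ℂ G p → AnalyticAt ℂ hh p := fun p hp => ((innerSL ℂ x₀).analyticAt _).comp hp
  have hhne : ¬ ∀ᶠ p in 𝓝 p₀, hh p = 0 := by
    intro hcon
    have h1 := PlH_line S hD hG hG0
    have h2 : ∀ᶠ z in 𝓝[≠] p₀.2, hh (p₀.1, z) = 0 ∧ nd x₀ (Ψ p₀.1 z) ≠ 0 ∧ (G (p₀.1, z) ≠ 0 → Ψ p₀.1 z = pr (G (p₀.1, z))) := by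
      have h3 : Tendsto (fun z : ℂ => ((p₀.1, z) : ℂ × ℂ)) (𝓝 p₀.2) (𝓝 p₀) := (by fun_prop : Continuous fun z : ℂ => ((p₀.1, z) : ℂ × ℂ)).tendsto p₀.2
      refine Filter.Eventually.filter_mono nhdsWithin_le_nhds ?_
      filter_upwards [h3.eventually hcon, h3.eventually hU, h3.eventually hGe'] with z e1 e2 e3
      exact ⟨e1, e2.2, e3⟩
    obtain ⟨z, ⟨e1, -⟩, e2, e3, e4⟩ := (h1.and h2).exists
    rw [e4 e1] at e3
    exact (nd_pr_ne e1).1 e3 e2
  -- where `hh` is not `0`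
  have hval : ∀ᶠ p in 𝓝 p₀, hh p ≠ 0 → nv x₀ (Ψ p.1 p.2) = (hh p)⁻¹ • G p := by
    filter_upwards [hGe'] with p hp hne
    have h1 : G p ≠ 0 := by
      intro h0
      apply hne
      rw [hhd]
      show (inner ℂ x₀ (G p) : ℂ) = 0
      rw [h0, inner_zero_right]
    rw [hp h1]
    exact nv_pr hne
  have hf : ∀ᶠ p in 𝓝 p₀, hh p ≠ 0 → AnalyticAt ℂ (fun p : ℂ × ℂ => nv x₀ (Ψ p.1 p.2)) p := by
    filter_upwards [hval.eventually_nhds, hG'.eventually_analyticAt] with p h1 h2 hne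
    have h3 : AnalyticAt ℂ (fun p => (hh p)⁻¹ • G p) p := ((hha p h2).inv hne).smul h2
    refine h3.congr ?_
    filter_upwards [h1, (hha p h2).continuousAt.eventually_ne hne] with q h4 h5
    exact (h4 h5).symm
  have hM : ∀ᶠ p in 𝓝 p₀, hh p ≠ 0 → ‖nv x₀ (Ψ p.1 p.2)‖ ≤ ‖nv x₀ (Ψ p₀.1 p₀.2)‖ + 1 := by
    have h1 : ∀ᶠ p in 𝓝 p₀, ‖nv x₀ (Ψ p.1 p.2)‖ < ‖nv x₀ (Ψ p₀.1 p₀.2)‖ + 1 := hcont.self_of_nhds.norm.eventually (gt_mem_nhds (by linarith))
    filter_upwards [h1] with p hp _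
    exact hp.le
  obtain ⟨φ, hφ, hφe⟩ := riemann_ext (hha p₀ hG') hhne hf hM
  -- the extension is the vector itself
  have hdense : ∀ᶠ p in 𝓝 p₀, ∃ᶠ q in 𝓝 p, hh q ≠ 0 := by
    obtain ⟨ε, hε, hb⟩ := Metric.eventually_nhds_iff_ball.1 hG'.eventually_analyticAt
    filter_upwards [ball_mem_nhds p₀ hε] with p hp hcon
    have hcon' : ∀ᶠ q in 𝓝 p, hh q = 0 := by
      filter_upwards [hcon] with q hq
      by_contra h0
      exact hq h0
    have h1 : AnalyticOnNhd ℂ hh (ball p₀ ε) := fun q hq => hha q (hb q hq)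
    have h2 := h1.eqOn_zero_of_preconnected_of_eventuallyEq_zero (convex_ball p₀ ε).isPreconnected hp hcon'
    exact hhne (Filter.eventually_of_mem (ball_mem_nhds p₀ hε) fun q hq => h2 hq)
  have heq : ∀ᶠ p in 𝓝 p₀, φ p = nv x₀ (Ψ p.1 p.2) := by
    filter_upwards [hdense, hcont, hφ.eventually_analyticAt, hφe.eventually_nhds] with p h1 h2 h3 h4
    by_contra hne
    have h5 : ∀ᶠ q in 𝓝 p, φ q ≠ nv x₀ (Ψ q.1 q.2) := by
      have h6 : ContinuousAt (fun q : ℂ × ℂ => φ q - nv x₀ (Ψ q.1 q.2)) p := h3.continuousAt.sub h2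
      filter_upwards [h6.eventually_ne (sub_ne_zero.2 hne)] with q hq
      exact sub_ne_zero.1 hq
    obtain ⟨q, h6, h7, h8⟩ := (h1.and_eventually (h4.and h5)).exists
    exact h8 (h7 h6)
  refine ⟨φ, hφ, ?_⟩
  filter_upwards [heq, hU] with p h1 h2
  obtain ⟨x, hxX, hxm, hxu⟩ := hmem p
  have hx : x ≠ 0 := ne_zero hX hxX
  have hin : (inner ℂ x₀ x : ℂ) ≠ 0 := by
    have h3 := h2.2
    rw [← hxm] at h3
    exact (nd_pr_ne hx).1 h3
  have h3 : pr (φ p) = pr x := by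
    rw [h1, ← hxm]
    exact pr_nv hin
  have h4 : φ p ≠ 0 := by
    rw [h1, ← hxm, nv_pr hin]
    exact smul_ne_zero (inv_ne_zero hin) hx
  obtain ⟨h5, h6⟩ := mem_of_pr hX S.geo.tor hxX hxu h4 h3
  exact ⟨h5, by rw [h3, hxm], h6⟩

end Pool.Agent.G4.E

end
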