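import Pool.Agent.H94.G5T.M22
import Pool.Agent.H94.G5T.M36
import Pool.Agent.H94.G5T.M83

/-! The parts of this file: G4.RE.Sym, G4.H.Coc. -/

section

/-!
# G4 RE Sym: symmetric functions of the zeros are holomorphic

`∏ i, (t - β x i)` is analytic in `x` for each `t` (`RSys.norm_an`), so the elementary symmetric functions of the `β x i` are (coefficients by interpolation at `t = 0, …, n`), so `MvPolynomial.eval (β x) p` is analytic for each symmetric `p`
(`MvPolynomial.esymmAlgEquiv`: `p` is a polynomial in the elementary symmetric polynomials).  `sc q b = eval b p`, `sd q b t = eval b p_t` with symmetric `p`, `p_t`; `sd q b t` is a polynomial of degree `≤ q` in `t`, so it is the interpolation of its values at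
`t = 0, …, q` (`Lagrange.eq_interpolate`), which gives the analyticity in `(x, t)`.
-/

set_option autoImplicit false

open Topology Filter Metric

namespace Pool.Agent.G4.RE

open Pool.Agent.G4.K (RSys)

variable {E : Type} [NormedAddCommGroup E] [NormedSpace ℂ E] [FiniteDimensional ℂ E] {U : Set E} {r : ℝ} {σ : E × ℂ → ℂ} {n : ℕ} {β : E → Fin n → ℂ}

private noncomputable def pol {n : ℕ} (b : Fin n → ℂ) : Polynomial ℂ := ∏ i, (Polynomial.X - Polynomial.C (b i))

private theorem pol_eval {n : ℕ} (b : Fin n → ℂ) (z : ℂ) : (pol b).eval z = ∏ i, (z - b i) := by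
  simp [pol, Polynomial.eval_prod]

private theorem pol_deg {n : ℕ} (b : Fin n → ℂ) : (pol b).natDegree = n := by
  rw [pol, Polynomial.natDegree_prod_of_monic _ _ (fun i _ => Polynomial.monic_X_sub_C _)]
  simp

private theorem pol_sum {n : ℕ} (b : Fin n → ℂ) (z : ℂ) : ∏ i, (z - b i) = ∑ k ∈ Finset.range (n + 1), (pol b).coeff k * z ^ k := by
  rw [← pol_eval, Polynomial.eval_eq_sum_range, pol_deg]

private theorem coeff_eq {n : ℕ} (b : Fin n → ℂ) (k : ℕ) : (pol b).coeff k =
    ∑ j ∈ Finset.range (n + 1), (∏ i, ((j : ℂ) - b i)) * (Lagrange.basis (Finset.range (n + 1)) (fun j : ℕ => (j : ℂ)) j).coeff k := by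
  have h := Lagrange.eq_interpolate (s := Finset.range (n + 1)) (v := fun j : ℕ => (j : ℂ)) (f := pol b)
    (fun a _ b _ hab => Nat.cast_injective hab) (by
      refine Polynomial.degree_le_natDegree.trans_lt ?_
      rw [pol_deg, Finset.card_range]
      exact_mod_cast Nat.lt_succ_self n)
  conv_lhs => rw [h]
  rw [Lagrange.interpolate_apply, Polynomial.finsetSum_coeff]
  refine Finset.sum_congr rfl fun j _ => ?_
  rw [Polynomial.coeff_C_mul, pol_eval]

private theorem coeff_an (R : RSys U r σ β) (k : ℕ) {x : E} (hx : x ∈ U) : AnalyticAt ℂ (fun x => (pol (β x)).coeff k) x := by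
  have h : (fun x => (pol (β x)).coeff k) = fun x => ∑ j ∈ Finset.range (n + 1), (∏ i, ((j : ℂ) - β x i)) *
      (Lagrange.basis (Finset.range (n + 1)) (fun j : ℕ => (j : ℂ)) j).coeff k := funext fun x => coeff_eq _ _
  rw [h]
  refine Finset.analyticAt_fun_sum _ fun j _ => ?_
  exact (R.norm_an (F := fun p => (j : ℂ) - p.2) (fun x _ w _ => analyticAt_const.sub analyticAt_snd) x hx).mul analyticAt_const

private theorem esymm_eq {n : ℕ} (b : Fin n → ℂ) {j : ℕ} (hj : j ≤ n) :
    MvPolynomial.aeval b (MvPolynomial.esymm (Fin n) ℂ j) = (-1) ^ j * (pol b).coeff (n - j) := by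
  rw [MvPolynomial.aeval_esymm_eq_multiset_esymm]
  have hc : Multiset.card (Finset.univ.val.map b) = n := by simp
  have h := Multiset.prod_X_sub_C_coeff (Finset.univ.val.map b) (k := n - j) (by rw [hc]; exact Nat.sub_le _ _)
  have hp : ((Finset.univ.val.map b).map fun t => Polynomial.X - Polynomial.C t).prod = pol b := by
    rw [Multiset.map_map]
    rfl
  rw [hp, hc, Nat.sub_sub_self hj] at h
  rw [h, ← mul_assoc, ← mul_pow]
  norm_num

theorem sym_an (R : RSys U r σ β) {p : MvPolynomial (Fin n) ℂ} (hp : p.IsSymmetric) : ∀ x ∈ U, AnalyticAt ℂ (fun x => MvPolynomial.eval (β x) p) x := by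
  intro x hx
  set q := (MvPolynomial.esymmAlgEquiv (Fin n) ℂ (Fintype.card_fin n)).symm ⟨p, hp⟩ with hq
  have h1 : MvPolynomial.aeval (fun i : Fin n => MvPolynomial.esymm (Fin n) ℂ (i + 1)) q = p := by
    have h2 : MvPolynomial.esymmAlgEquiv (Fin n) ℂ (Fintype.card_fin n) q = ⟨p, hp⟩ := by rw [hq, AlgEquiv.apply_symm_apply]
    have h3 := congrArg Subtype.val h2
    rw [← MvPolynomial.esymmAlgHom_apply]
    exact h3
  have h2 : (fun x => MvPolynomial.eval (β x) p) = fun x => MvPolynomial.aeval (fun i : Fin n => (-1 : ℂ) ^ ((i : ℕ) + 1) * (pol (β x)).coeff (n - (i + 1))) q := by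
    funext y
    have h3 : MvPolynomial.eval (β y) p = MvPolynomial.aeval (β y) p := rfl
    rw [h3]
    conv_lhs => rw [← h1]
    have h4 : (MvPolynomial.aeval (β y)) ((MvPolynomial.aeval fun i : Fin n => MvPolynomial.esymm (Fin n) ℂ (i + 1)) q) =
        MvPolynomial.aeval (fun i : Fin n => MvPolynomial.aeval (β y) (MvPolynomial.esymm (Fin n) ℂ (i + 1))) q := by
      rw [← AlgHom.comp_apply, MvPolynomial.comp_aeval]
    rw [h4]
    congr 2
    funext i
    exact esymm_eq (β y) i.2
  rw [h2]
  exact AnalyticAt.aeval_mvPolynomial (fun i => analyticAt_const.mul (coeff_an R _ hx)) q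

/-- the discriminant polynomial of a set of variables -/
private noncomputable def ddp {n : ℕ} (S : Finset (Fin n)) : MvPolynomial (Fin n) ℂ := ∏ p ∈ S.offDiag, (MvPolynomial.X p.1 - MvPolynomial.X p.2)

private theorem ddp_eval {n : ℕ} (S : Finset (Fin n)) (b : Fin n → ℂ) : MvPolynomial.eval b (ddp S) = dd b S := by
  simp [ddp, dd, map_prod]

private theorem ddp_rename {n : ℕ} (e : Equiv.Perm (Fin n)) (S : Finset (Fin n)) : MvPolynomial.rename e (ddp S) = ddp (S.map e.toEmbedding) := by
  rw [ddp, ddp, map_prod]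
  refine Finset.prod_bij (fun p _ => (e p.1, e p.2)) ?_ ?_ ?_ ?_
  · intro p hp
    rw [Finset.mem_offDiag] at hp ⊢
    exact ⟨Finset.mem_map_of_mem _ hp.1, Finset.mem_map_of_mem _ hp.2.1, fun h => hp.2.2 (e.injective h)⟩
  · intro p _ p' _ h
    rw [Prod.mk.injEq] at h
    exact Prod.ext (e.injective h.1) (e.injective h.2)
  · intro p hp
    rw [Finset.mem_offDiag] at hp
    obtain ⟨h1, h2, h3⟩ := hp
    rw [Finset.mem_map] at h1 h2
    obtain ⟨a, ha, ha'⟩ := h1
    obtain ⟨c, hc, hc'⟩ := h2
    refine ⟨(a, c), ?_, Prod.ext ha' hc'⟩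
    rw [Finset.mem_offDiag]
    refine ⟨ha, hc, fun h => h3 ?_⟩
    rw [← ha', ← hc', show a = c from h]
  · intro p _
    simp

private theorem sum_map {n q : ℕ} {M : Type} [AddCommMonoid M] (e : Equiv.Perm (Fin n)) (f : Finset (Fin n) → M) :
    ∑ S ∈ Finset.powersetCard q Finset.univ, f (S.map e.toEmbedding) = ∑ S ∈ Finset.powersetCard q (Finset.univ : Finset (Fin n)), f S := by
  refine Finset.sum_bij (fun S _ => S.map e.toEmbedding) ?_ ?_ ?_ (fun _ _ => rfl)
  · intro S hS
    rw [Finset.mem_powersetCard] at hS ⊢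
    exact ⟨Finset.subset_univ _, by rw [Finset.card_map]; exact hS.2⟩
  · intro S _ S' _ h
    exact Finset.map_injective _ h
  · intro S hS
    rw [Finset.mem_powersetCard] at hS
    refine ⟨S.map e.symm.toEmbedding, ?_, ?_⟩
    · rw [Finset.mem_powersetCard]
      exact ⟨Finset.subset_univ _, by rw [Finset.card_map]; exact hS.2⟩
    · ext i
      simp

private noncomputable def scp (n q : ℕ) : MvPolynomial (Fin n) ℂ := ∑ S ∈ Finset.powersetCard q Finset.univ, ddp S

private theorem scp_sym (n q : ℕ) : (scp n q).IsSymmetric := by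
  intro e
  rw [scp, map_sum]
  simp only [ddp_rename]
  exact sum_map e fun S => ddp S

private theorem scp_eval {n : ℕ} (q : ℕ) (b : Fin n → ℂ) : MvPolynomial.eval b (scp n q) = sc q b := by
  simp only [scp, sc, map_sum, ddp_eval]

private noncomputable def sdp (n q : ℕ) (t : ℂ) : MvPolynomial (Fin n) ℂ := ∑ S ∈ Finset.powersetCard q Finset.univ, ddp S * ∏ i ∈ S, (MvPolynomial.C t - MvPolynomial.X i)

private theorem sdp_sym (n q : ℕ) (t : ℂ) : (sdp n q t).IsSymmetric := by
  intro e
  rw [sdp, map_sum]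
  simp only [map_mul, ddp_rename]
  refine Eq.trans (Finset.sum_congr rfl fun S _ => ?_) (sum_map e fun S => ddp S * ∏ i ∈ S, (MvPolynomial.C t - MvPolynomial.X i))
  rw [map_prod, Finset.prod_map]
  simp

private theorem sdp_eval {n : ℕ} (q : ℕ) (b : Fin n → ℂ) (t : ℂ) : MvPolynomial.eval b (sdp n q t) = sd q b t := by
  simp only [sdp, sd, map_sum, map_mul, ddp_eval, map_prod, map_sub, MvPolynomial.eval_C, MvPolynomial.eval_X]

theorem sc_an (R : RSys U r σ β) (q : ℕ) : ∀ x ∈ U, AnalyticAt ℂ (fun x => sc q (β x)) x := by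
  intro x hx
  have h := sym_an R (scp_sym n q) x hx
  simpa only [scp_eval] using h

/-- `sd q b` as a polynomial -/
private noncomputable def sdq {n : ℕ} (q : ℕ) (b : Fin n → ℂ) : Polynomial ℂ := ∑ S ∈ Finset.powersetCard q Finset.univ, Polynomial.C (dd b S) * ∏ i ∈ S, (Polynomial.X - Polynomial.C (b i))

private theorem sdq_eval {n : ℕ} (q : ℕ) (b : Fin n → ℂ) (t : ℂ) : (sdq q b).eval t = sd q b t := by
  simp only [sdq, sd, Polynomial.eval_finsetSum, Polynomial.eval_mul, Polynomial.eval_C, Polynomial.eval_prod, Polynomial.eval_sub, Polynomial.eval_X]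

private theorem sdq_deg {n : ℕ} (q : ℕ) (b : Fin n → ℂ) : (sdq q b).degree < (Finset.range (q + 1)).card := by
  rw [Finset.card_range]
  refine lt_of_le_of_lt (Polynomial.degree_sum_le _ _) ?_
  rw [Finset.sup_lt_iff (by exact_mod_cast WithBot.bot_lt_coe _)]
  intro S hS
  rw [Finset.mem_powersetCard] at hS
  have h1 : (Polynomial.C (dd b S) * ∏ i ∈ S, (Polynomial.X - Polynomial.C (b i))).natDegree ≤ q := by
    refine (Polynomial.natDegree_C_mul_le _ _).trans ?_
    rw [Polynomial.natDegree_prod_of_monic _ _ (fun i _ => Polynomial.monic_X_sub_C _)]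
    simp [hS.2]
  refine lt_of_le_of_lt Polynomial.degree_le_natDegree ?_
  exact_mod_cast Nat.lt_succ_of_le h1

private theorem sd_int {n : ℕ} (q : ℕ) (b : Fin n → ℂ) (t : ℂ) :
    sd q b t = ∑ j ∈ Finset.range (q + 1), sd q b (j : ℂ) * (Lagrange.basis (Finset.range (q + 1)) (fun j : ℕ => (j : ℂ)) j).eval t := by
  have h := Lagrange.eq_interpolate (s := Finset.range (q + 1)) (v := fun j : ℕ => (j : ℂ)) (f := sdq q b)
    (fun a _ b _ hab => Nat.cast_injective hab) (sdq_deg q b)
  rw [← sdq_eval q b t]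
  conv_lhs => rw [h]
  rw [Lagrange.interpolate_apply, Polynomial.eval_finsetSum]
  refine Finset.sum_congr rfl fun j _ => ?_
  rw [Polynomial.eval_mul, Polynomial.eval_C, sdq_eval]

theorem sd_an (R : RSys U r σ β) (q : ℕ) : ∀ x ∈ U, ∀ t : ℂ, AnalyticAt ℂ (fun p : E × ℂ => sd q (β p.1) p.2) (x, t) := by
  intro x hx t
  have h : (fun p : E × ℂ => sd q (β p.1) p.2) = fun p : E × ℂ => ∑ j ∈ Finset.range (q + 1), sd q (β p.1) (j : ℂ) *
      (Lagrange.basis (Finset.range (q + 1)) (fun j : ℕ => (j : ℂ)) j).eval p.2 := funext fun p => sd_int q (β p.1) p.2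
  rw [h]
  refine Finset.analyticAt_fun_sum _ fun j _ => ?_
  have h1 : AnalyticAt ℂ (fun x => sd q (β x) (j : ℂ)) x := by
    have h2 := sym_an R (sdp_sym n q (j : ℂ)) x hx
    simpa only [sdp_eval] using h2
  refine (h1.comp_of_eq (analyticAt_fst (p := (x, t))) rfl).mul ?_
  exact (AnalyticOnNhd.eval_polynomial (A := ℂ) _ t (Set.mem_univ t)).comp_of_eq (analyticAt_snd (p := (x, t))) rfl

theorem pr_an (R : RSys U r σ β) : ∀ x ∈ U, ∀ t : ℂ, AnalyticAt ℂ (fun p : E × ℂ => ∏ i, (p.2 - β p.1 i)) (x, t) := by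
  intro x hx t
  have h : (fun p : E × ℂ => ∏ i, (p.2 - β p.1 i)) = fun p => ∑ k ∈ Finset.range (n + 1), (pol (β p.1)).coeff k * p.2 ^ k := funext fun p => pol_sum _ _
  rw [h]
  refine Finset.analyticAt_fun_sum _ fun k _ => ?_
  exact ((coeff_an R k hx).comp_of_eq (analyticAt_fst (p := (x, t))) rfl).mul (analyticAt_snd.pow k)

end Pool.Agent.G4.RE

end

section

/-!
# G4 H Coc: the theta factors of the top forms have the cocycle property

From `hF.per j` (`Tht`) choose for `l ∈ Γ` the factor `e l y = exp (L y + c)`.  The factors of the different `α j` have the same modulus; fix one `j`?  No: take a point `y₁ ∉ D`, `x₁ ∈ X` over it; by `hF.sep` some `α j` is not `0` at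
`(y₁, x₁)`; use this `j` only.  Where `α j (y, x, v) ≠ 0`: `e (l + l') y = e l (y + l') * e l' y`; this holds at `y₁ + l''` for `l'' ∈ Γ` and for `y` near `y₁`?  The set of the `y` with `(α j).toFun y x v ≠ 0` for some `x`, `v` may be small, so use:
both sides are `exp` of affine functions of `y` with the same modulus everywhere (`nrm`), so their quotient is a constant `q (l, l')` of modulus `1` (`exp` of an affine function with constant modulus is constant), and at `y₁` (where `α j ≠ 0`)
the quotient is `1`.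
-/

set_option autoImplicit false

open Topology Filter Metric

namespace Pool.Agent.G4.H

open Pool.Agent.H36.BP (EN)
open Pool.Agent.AD (Vd)
open Pool.Agent.TG (Lat VForm)
open Pool.Agent.G3 (wt)
open Pool.Agent.G3.A (Frm)

variable {N k : ℕ} {X : Set (EN N)} {Λ Γ : AddSubgroup (Vd (k + 1))} {u : EN N → Vd (k + 1)} {D : Set (Vd (k + 1))} {J r : ℕ}
  {W : Fin r → Vd (k + 1) →L[ℂ] ℂ} {α : Fin J → VForm X Λ u}

theorem thf_of_frm (hF : Frm X Λ u D Γ W α) (hx : ∃ y ∉ D, ∃ x ∈ X, u x - y ∈ Λ) : ∃ e : Vd (k + 1) → Vd (k + 1) → ℂ, ThF Γ W e := by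
  classical
  obtain ⟨y₁, hy₁, x₁, hx₁, hu₁⟩ := hx
  obtain ⟨j, v, hv, hne⟩ := hF.sep y₁ hy₁ x₁ hx₁ hu₁
  have key : ∀ l : Vd (k + 1), ∃ (L : Vd (k + 1) →L[ℂ] ℂ) (c : ℂ), l ∈ Γ → ((∀ y, ‖Complex.exp (L y + c)‖ = Real.exp (wt W y - wt W (y + l))) ∧
      ∀ y, ∀ x ∈ X, u x - y ∈ Λ → ∀ v : Fin (k + 2) → EN N, (∀ i, Pool.Agent.H14.PP.Tan X x (v i)) →
        (α j).toFun (y + l) x v = Complex.exp (L y + c) * (α j).toFun y x v) := by
    intro l
    by_cases hl : l ∈ Γ
    · obtain ⟨L, c, h1, h2⟩ := hF.per j l hl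
      exact ⟨L, c, fun _ => ⟨h1, h2⟩⟩
    · exact ⟨0, 0, fun h => absurd h hl⟩
  choose L c hLc using key
  refine ⟨fun l y => Complex.exp (L l y + c l), hF.lat, hF.pos, ?_, ?_, ?_⟩
  · intro l _ y
    exact (((L l).analyticAt y).add analyticAt_const).cexp
  · intro l hl y
    exact (hLc l hl).1 y
  · intro l hl l' hl' y
    have hll : l + l' ∈ Γ := Γ.add_mem hl hl'
    -- the difference of the exponents is a constant
    have hre : ∀ z : Vd (k + 1), ((L (l + l') z + c (l + l')) - ((L l (z + l') + c l) + (L l' z + c l'))).re = 0 := by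
      intro z
      have h1 := (hLc (l + l') hll).1 z
      have h2 := (hLc l hl).1 (z + l')
      have h3 := (hLc l' hl').1 z
      rw [Complex.norm_exp] at h1 h2 h3
      have e1 := Real.exp_injective h1
      have e2 := Real.exp_injective h2
      have e3 := Real.exp_injective h3
      have e4 : z + (l + l') = z + l' + l := by abel
      rw [e4] at e1
      simp only [Complex.sub_re, Complex.add_re] at e1 e2 e3 ⊢
      linarith
    have hM : ∀ z : Vd (k + 1), L (l + l') z - L l z - L l' z = 0 := by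
      intro z
      have h0 := hre 0
      have h1 := hre z
      have h2 := hre (Complex.I • z)
      simp only [map_add, map_zero, map_smul, smul_eq_mul, Complex.sub_re, Complex.add_re, Complex.mul_re, Complex.I_re, Complex.I_im, zero_mul, one_mul, zero_sub, zero_add] at h0 h1 h2
      apply Complex.ext
      · simp only [Complex.sub_re, Complex.zero_re]
        linarith
      · simp only [Complex.sub_im, Complex.zero_im]
        linarith
    have hconst : ∀ z : Vd (k + 1), L (l + l') z + c (l + l') = ((L l (z + l') + c l) + (L l' z + c l')) + (c (l + l') - c l - c l' - L l l') := by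
      intro z
      have h := hM z
      rw [map_add]
      linear_combination h
    have hd : Complex.exp (c (l + l') - c l - c l' - L l l') = 1 := by
      have h1 := (hLc (l + l') hll).2 y₁ x₁ hx₁ hu₁ v hv
      have hu₂ : u x₁ - (y₁ + l') ∈ Λ := by
        rw [← sub_sub]
        exact Λ.sub_mem hu₁ (hF.le hl')
      have h2 := (hLc l hl).2 (y₁ + l') x₁ hx₁ hu₂ v hv
      have h3 := (hLc l' hl').2 y₁ x₁ hx₁ hu₁ v hv
      have e4 : y₁ + (l + l') = y₁ + l' + l := by abel
      have hE : Complex.exp (L (l + l') y₁ + c (l + l')) = Complex.exp (L l (y₁ + l') + c l) * Complex.exp (L l' y₁ + c l') *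
          Complex.exp (c (l + l') - c l - c l' - L l l') := by
        rw [hconst y₁, Complex.exp_add (L l (y₁ + l') + c l + (L l' y₁ + c l')), Complex.exp_add (L l (y₁ + l') + c l)]
      rw [e4, h2, h3, hE] at h1
      have hp1 : Complex.exp (L l (y₁ + l') + c l) ≠ 0 := Complex.exp_ne_zero _
      have hp2 : Complex.exp (L l' y₁ + c l') ≠ 0 := Complex.exp_ne_zero _
      have h5 : (Complex.exp (L l (y₁ + l') + c l) * Complex.exp (L l' y₁ + c l') * (α j).toFun y₁ x₁ v) *
          (Complex.exp (c (l + l') - c l - c l' - L l l') - 1) = 0 := by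
        linear_combination -h1
      rcases mul_eq_zero.1 h5 with h6 | h6
      · exact absurd h6 (mul_ne_zero (mul_ne_zero hp1 hp2) hne)
      · exact sub_eq_zero.1 h6
    show Complex.exp (L (l + l') y + c (l + l')) = Complex.exp (L l (y + l') + c l) * Complex.exp (L l' y + c l')
    rw [hconst y, Complex.exp_add (L l (y + l') + c l + (L l' y + c l')), hd, mul_one, Complex.exp_add (L l (y + l') + c l)]

end Pool.Agent.G4.H

end
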