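import Pool.Agent.H94.G5T.M83

/-! The parts of this file: G4.K.Dv, G4.K.Hz. -/

section

/-!
# G4 K Dv: division with remainder

`P x ζ = ∏ i, (ζ - β x i) = ∑ k, c k x ζ ^ k`, the `c k` are analytic on `U` (interpolation: `c k x` is a fixed linear combination of the values `P x 0, …, P x n`, which are analytic by `norm_an`).
`A j G x = (2 π i)⁻¹ ∮ ζ in C(0, r), G (x, ζ) B j x ζ / P x ζ` with `B j x ζ = ∑ k > j, c k x * ζ ^ (k - 1 - j)`, so that `∑ j, A j G x w ^ j = (2 π i)⁻¹ ∮ G (x, ζ) (P x ζ - P x w) / (P x ζ (ζ - w))`, which is `G (x, w)` if `P x w = 0` (Cauchy).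
-/

set_option autoImplicit false

open Topology Filter Metric

namespace Pool.Agent.G4.K

open Pool.Agent.AD (Vd)

private noncomputable def pol {n : ℕ} (b : Fin n → ℂ) : Polynomial ℂ := ∏ i, (Polynomial.X - Polynomial.C (b i))

private theorem pol_eval {n : ℕ} (b : Fin n → ℂ) (z : ℂ) : (pol b).eval z = ∏ i, (z - b i) := by
  simp [pol, Polynomial.eval_prod]

private theorem pol_deg {n : ℕ} (b : Fin n → ℂ) : (pol b).natDegree = n := by
  rw [pol, Polynomial.natDegree_prod_of_monic _ _ (fun i _ => Polynomial.monic_X_sub_C _)]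
  simp

private theorem pol_sum {n : ℕ} (b : Fin n → ℂ) (z : ℂ) : ∏ i, (z - b i) = ∑ k ∈ Finset.range (n + 1), (pol b).coeff k * z ^ k := by
  rw [← pol_eval, Polynomial.eval_eq_sum_range, pol_deg]

private theorem coeff_eq {n : ℕ} (b : Fin n → ℂ) (k : ℕ) : (pol b).coeff k =
    ∑ j ∈ Finset.range (n + 1), (∏ i, ((j : ℂ) - b i)) * (Lagrange.basis (Finset.range (n + 1)) (fun j : ℕ => (j : ℂ)) j).coeff k := by
  have h := Lagrange.eq_interpolate (s := Finset.range (n + 1)) (v := fun j : ℕ => (j : ℂ)) (f := pol b)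
    (fun a _ b _ hab => Nat.cast_injective hab) (by
      refine Polynomial.degree_le_natDegree.trans_lt ?_
      rw [pol_deg, Finset.card_range]
      exact_mod_cast Nat.lt_succ_self n)
  conv_lhs => rw [h]
  rw [Lagrange.interpolate_apply, Polynomial.finsetSum_coeff]
  refine Finset.sum_congr rfl fun j _ => ?_
  rw [Polynomial.coeff_C_mul, pol_eval]

private noncomputable def Bj {n : ℕ} (b : Fin n → ℂ) (j : ℕ) (ζ : ℂ) : ℂ :=
  ∑ k ∈ Finset.range (n + 1), if j < k then (pol b).coeff k * ζ ^ (k - 1 - j) else 0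

private theorem Bj_sum {n : ℕ} (b : Fin n → ℂ) {w : ℂ} (hw : ∏ i, (w - b i) = 0) (ζ : ℂ) :
    (∑ j : Fin n, Bj b j ζ * w ^ (j : ℕ)) * (ζ - w) = ∏ i, (ζ - b i) := by
  have h1 : ∏ i, (ζ - b i) = ∏ i, (ζ - b i) - ∏ i, (w - b i) := by rw [hw, sub_zero]
  rw [h1, pol_sum, pol_sum, ← Finset.sum_sub_distrib]
  simp only [Bj, Finset.sum_mul]
  rw [Finset.sum_comm]
  refine Finset.sum_congr rfl fun k hk => ?_
  have hk' : k ≤ n := Nat.lt_succ_iff.1 (Finset.mem_range.1 hk)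
  rw [Fin.sum_univ_eq_sum_range (fun j => (if j < k then (pol b).coeff k * ζ ^ (k - 1 - j) else 0) * w ^ j * (ζ - w)) n]
  rw [← Finset.sum_subset (Finset.range_subset_range.2 hk') (fun j _ hj => by
    rw [if_neg (by simpa using hj)]; simp)]
  have h2 := geom_sum₂_mul w ζ k
  have h3 : ∑ j ∈ Finset.range k, (if j < k then (pol b).coeff k * ζ ^ (k - 1 - j) else 0) * w ^ j * (ζ - w) =
      -((pol b).coeff k * ((∑ j ∈ Finset.range k, w ^ j * ζ ^ (k - 1 - j)) * (w - ζ))) := by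
    rw [Finset.sum_mul, Finset.mul_sum, ← Finset.sum_neg_distrib]
    refine Finset.sum_congr rfl fun j hj => ?_
    rw [if_pos (Finset.mem_range.1 hj)]
    ring
  rw [h3, h2]
  ring

variable {E : Type} [NormedAddCommGroup E] [NormedSpace ℂ E] [FiniteDimensional ℂ E] {U : Set E} {r : ℝ} {σ : E × ℂ → ℂ} {n : ℕ} {β : E → Fin n → ℂ}

private theorem coeff_an (R : RSys U r σ β) (k : ℕ) {x : E} (hx : x ∈ U) : AnalyticAt ℂ (fun x => (pol (β x)).coeff k) x := by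
  have h : (fun x => (pol (β x)).coeff k) = fun x => ∑ j ∈ Finset.range (n + 1), (∏ i, ((j : ℂ) - β x i)) *
      (Lagrange.basis (Finset.range (n + 1)) (fun j : ℕ => (j : ℂ)) j).coeff k := funext fun x => coeff_eq _ _
  rw [h]
  refine Finset.analyticAt_fun_sum _ fun j _ => ?_
  exact (R.norm_an (F := fun p => (j : ℂ) - p.2) (fun x _ w _ => analyticAt_const.sub analyticAt_snd) x hx).mul analyticAt_const

private theorem P_an (R : RSys U r σ β) {x : E} (hx : x ∈ U) (ζ : ℂ) : AnalyticAt ℂ (fun p : E × ℂ => ∏ i, (p.2 - β p.1 i)) (x, ζ) := by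
  have h : (fun p : E × ℂ => ∏ i, (p.2 - β p.1 i)) = fun p => ∑ k ∈ Finset.range (n + 1), (pol (β p.1)).coeff k * p.2 ^ k := funext fun p => pol_sum _ _
  rw [h]
  refine Finset.analyticAt_fun_sum _ fun k _ => ?_
  exact ((coeff_an R k hx).comp_of_eq (analyticAt_fst (p := (x, ζ))) rfl).mul (analyticAt_snd.pow k)

private theorem B_an (R : RSys U r σ β) (j : ℕ) {x : E} (hx : x ∈ U) (ζ : ℂ) : AnalyticAt ℂ (fun p : E × ℂ => Bj (β p.1) j p.2) (x, ζ) := by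
  unfold Bj
  refine Finset.analyticAt_fun_sum _ fun k _ => ?_
  by_cases h : j < k
  · simp only [if_pos h]
    exact ((coeff_an R k hx).comp_of_eq (analyticAt_fst (p := (x, ζ))) rfl).mul (analyticAt_snd.pow _)
  · simp only [if_neg h]
    exact analyticAt_const

omit [FiniteDimensional ℂ E] in
private theorem P_ne (R : RSys U r σ β) {x : E} (hx : x ∈ U) {ζ : ℂ} (hζ : ζ ∈ sphere (0 : ℂ) r) : ∏ i, (ζ - β x i) ≠ 0 := by
  rw [Finset.prod_ne_zero_iff]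
  intro i _ h
  have h1 := R.lt x hx i
  rw [← sub_eq_zero.1 h, mem_sphere_zero_iff_norm.1 hζ] at h1
  exact lt_irrefl _ h1

private theorem int_an (R : RSys U r σ β) (j : ℕ) {G : E × ℂ → ℂ} (hG : ∀ x ∈ U, ∀ w : ℂ, ‖w‖ ≤ r → AnalyticAt ℂ G (x, w)) {x : E} (hx : x ∈ U) :
    ∀ ζ ∈ sphere (0 : ℂ) r, AnalyticAt ℂ (fun p : E × ℂ => G p * (Bj (β p.1) j p.2 / ∏ i, (p.2 - β p.1 i))) (x, ζ) := by
  intro ζ hζ
  have h1 : ‖ζ‖ ≤ r := (mem_sphere_zero_iff_norm.1 hζ).le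
  exact (hG x hx ζ h1).mul ((B_an R j hx ζ).div (P_an R hx ζ) (P_ne R hx hζ))

private theorem int_ok (R : RSys U r σ β) (j : ℕ) {G : E × ℂ → ℂ} (hG : ∀ x ∈ U, ∀ w : ℂ, ‖w‖ ≤ r → AnalyticAt ℂ G (x, w)) {x : E} (hx : x ∈ U) :
    CircleIntegrable (fun ζ => G (x, ζ) * (Bj (β x) j ζ / ∏ i, (ζ - β x i))) 0 r := by
  refine ContinuousOn.circleIntegrable R.pos.le ?_
  intro ζ hζ
  have h1 := (int_an R j hG hx ζ hζ).continuousAt
  exact (h1.comp (f := fun ζ : ℂ => (x, ζ)) (Continuous.prodMk_right x).continuousAt).continuousWithinAt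

theorem RSys.div (R : RSys U r σ β) : ∃ A : Fin n → (E × ℂ → ℂ) → E → ℂ,
    (∀ j (G : E × ℂ → ℂ), (∀ x ∈ U, ∀ w : ℂ, ‖w‖ ≤ r → AnalyticAt ℂ G (x, w)) → ∀ x ∈ U, AnalyticAt ℂ (A j G) x) ∧
    (∀ j (G G' : E × ℂ → ℂ) (c : ℂ), (∀ x ∈ U, ∀ w : ℂ, ‖w‖ ≤ r → AnalyticAt ℂ G (x, w)) → (∀ x ∈ U, ∀ w : ℂ, ‖w‖ ≤ r → AnalyticAt ℂ G' (x, w)) →
      ∀ x ∈ U, A j (fun p => G p + c * G' p) x = A j G x + c * A j G' x) ∧
    (∀ j (G G' : E × ℂ → ℂ), ∀ x ∈ U, (∀ w : ℂ, ‖w‖ ≤ r → G (x, w) = G' (x, w)) → A j G x = A j G' x) ∧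
    ∀ G : E × ℂ → ℂ, (∀ x ∈ U, ∀ w : ℂ, ‖w‖ ≤ r → AnalyticAt ℂ G (x, w)) → ∀ x ∈ U, ∀ i, G (x, β x i) = ∑ j, A j G x * β x i ^ (j : ℕ) := by
  refine ⟨fun j G x => (2 * (Real.pi : ℂ) * Complex.I)⁻¹ * ∮ ζ in C(0, r), G (x, ζ) * (Bj (β x) j ζ / ∏ i, (ζ - β x i)), ?_, ?_, ?_, ?_⟩
  · intro j G hG x hx
    exact analyticAt_const.mul (Pool.Agent.H22.HF.analyticAt_circleIntegral (F := fun p : E × ℂ => G p * (Bj (β p.1) j p.2 / ∏ i, (p.2 - β p.1 i))) R.pos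
      (int_an R j hG hx))
  · intro j G G' c hG hG' x hx
    have h1 : (∮ ζ in C(0, r), (fun p : E × ℂ => G p + c * G' p) (x, ζ) * (Bj (β x) j ζ / ∏ i, (ζ - β x i))) =
        (∮ ζ in C(0, r), G (x, ζ) * (Bj (β x) j ζ / ∏ i, (ζ - β x i))) + c * ∮ ζ in C(0, r), G' (x, ζ) * (Bj (β x) j ζ / ∏ i, (ζ - β x i)) := by
      rw [← circleIntegral.integral_const_mul, ← circleIntegral.integral_add (int_ok R j hG hx) (by
        simpa [CircleIntegrable, mul_assoc] using (int_ok R j hG' hx).const_mul c)]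
      refine circleIntegral.integral_congr R.pos.le fun ζ _ => ?_
      ring
    change (2 * (Real.pi : ℂ) * Complex.I)⁻¹ * (∮ ζ in C(0, r), (fun p : E × ℂ => G p + c * G' p) (x, ζ) * (Bj (β x) j ζ / ∏ i, (ζ - β x i))) = _
    rw [h1]
    ring
  · intro j G G' x _ h
    have h1 : (∮ ζ in C(0, r), G (x, ζ) * (Bj (β x) j ζ / ∏ i, (ζ - β x i))) = ∮ ζ in C(0, r), G' (x, ζ) * (Bj (β x) j ζ / ∏ i, (ζ - β x i)) := by
      refine circleIntegral.integral_congr R.pos.le fun ζ hζ => ?_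
      rw [h ζ (mem_sphere_zero_iff_norm.1 hζ).le]
    change _ * (∮ ζ in C(0, r), G (x, ζ) * (Bj (β x) j ζ / ∏ i, (ζ - β x i))) = _
    rw [h1]
  · intro G hG x hx i
    have hw : ∏ l, (β x i - β x l) = 0 := Finset.prod_eq_zero (Finset.mem_univ i) (sub_self _)
    have hpi : (2 * (Real.pi : ℂ) * Complex.I) ≠ 0 := by
      simp [Real.pi_ne_zero]
    have h1 : (∮ ζ in C(0, r), (ζ - β x i)⁻¹ • G (x, ζ)) = (2 * (Real.pi : ℂ) * Complex.I) • G (x, β x i) := by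
      refine DiffContOnCl.circleIntegral_sub_inv_smul ?_ ?_
      · refine DifferentiableOn.diffContOnCl ?_
        rw [closure_ball _ R.pos.ne']
        intro ζ hζ
        have h2 := (hG x hx ζ (mem_closedBall_zero_iff.1 hζ)).differentiableAt
        exact (h2.comp (f := fun ζ : ℂ => (x, ζ)) ζ ((differentiableAt_const _).prodMk differentiableAt_id)).differentiableWithinAt
      · exact mem_ball_zero_iff.2 (R.lt x hx i)
    have h2 : (∮ ζ in C(0, r), (ζ - β x i)⁻¹ • G (x, ζ)) = ∮ ζ in C(0, r), ∑ j : Fin n, G (x, ζ) * (Bj (β x) j ζ / ∏ i, (ζ - β x i)) * β x i ^ (j : ℕ) := by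
      refine circleIntegral.integral_congr R.pos.le fun ζ hζ => ?_
      have h3 := Bj_sum (β x) hw ζ
      have h4 := P_ne R hx hζ
      have h5 : ζ - β x i ≠ 0 := by
        intro h6
        exact h4 (Finset.prod_eq_zero (Finset.mem_univ i) h6)
      change (ζ - β x i)⁻¹ * G (x, ζ) = ∑ j : Fin n, G (x, ζ) * (Bj (β x) j ζ / ∏ i, (ζ - β x i)) * β x i ^ (j : ℕ)
      have h6 : ∑ j : Fin n, G (x, ζ) * (Bj (β x) j ζ / ∏ i, (ζ - β x i)) * β x i ^ (j : ℕ) =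
          G (x, ζ) * ((∑ j : Fin n, Bj (β x) j ζ * β x i ^ (j : ℕ)) / ∏ i, (ζ - β x i)) := by
        rw [Finset.sum_div, Finset.mul_sum]
        refine Finset.sum_congr rfl fun j _ => ?_
        ring
      rw [h6, mul_comm, ← h3]
      congr 1
      have h7 : (∑ j : Fin n, Bj (β x) j ζ * β x i ^ (j : ℕ)) ≠ 0 := by
        intro h8
        rw [h8, zero_mul] at h3
        exact h4 h3.symm
      field_simp
    rw [h2, circleIntegral.integral_fun_sum (fun j _ => by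
      simpa [CircleIntegrable] using (int_ok R j hG hx).mul_const (β x i ^ (j : ℕ)))] at h1
    change G (x, β x i) = ∑ j : Fin n, (2 * (Real.pi : ℂ) * Complex.I)⁻¹ * (∮ ζ in C(0, r), G (x, ζ) * (Bj (β x) j ζ / ∏ i, (ζ - β x i))) * β x i ^ (j : ℕ)
    rw [← inv_mul_cancel_left₀ hpi (G (x, β x i)), ← smul_eq_mul (2 * (Real.pi : ℂ) * Complex.I), ← h1, Finset.mul_sum]
    refine Finset.sum_congr rfl fun j _ => ?_
    have h9 : (∮ ζ in C(0, r), G (x, ζ) * (Bj (β x) j ζ / ∏ i, (ζ - β x i)) * β x i ^ (j : ℕ)) =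
        β x i ^ (j : ℕ) * ∮ ζ in C(0, r), G (x, ζ) * (Bj (β x) j ζ / ∏ i, (ζ - β x i)) := by
      rw [← circleIntegral.integral_const_mul]
      refine circleIntegral.integral_congr R.pos.le fun ζ _ => ?_
      exact mul_comm (G (x, ζ) * (Bj (β x) j ζ / ∏ i, (ζ - β x i))) (β x i ^ (j : ℕ))
    rw [h9]
    ring

end Pool.Agent.G4.K

end

section

/-!
# G4 K Hz: zeros persist

`hz` (Hurwitz): `f (x₀, w₀) = 0`, `f (x₀, ·)` not `0` near `w₀`, `w ≠ w₀`: for `x` near `x₀` the function `f (x, ·)` has a zero near `w₀` (otherwise the maximum principle for `1 / f (x, ·)` on a disc bounds `‖f (x, w₀)‖` below by the minimum of `‖f (x, ·)‖` on the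
circle).  `opn`: the common zeros `((z, v), w)` of `σ`, `ρ` persist: root system of `σ` around `w = b` with a small radius (`exists_rsys` for `σ (x, b + w)`), the norm of `ρ` (`norm_an`), and `hz` for the norm.
-/

set_option autoImplicit false

open Topology Filter Metric

namespace Pool.Agent.G4.K

open Pool.Agent.AD (Vd)

variable {E : Type} [NormedAddCommGroup E] [NormedSpace ℂ E] [FiniteDimensional ℂ E]

/-- shift of the last variable -/
private theorem shift_an {f : E × ℂ → ℂ} {b : ℂ} {x : E} {w : ℂ} (h : AnalyticAt ℂ f (x, b + w)) :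
    AnalyticAt ℂ (fun y : E × ℂ => f (y.1, b + y.2)) (x, w) := by
  have hg : AnalyticAt ℂ (fun y : E × ℂ => ((y.1, b + y.2) : E × ℂ)) (x, w) :=
    analyticAt_fst.prod (analyticAt_const.add analyticAt_snd)
  exact AnalyticAt.comp' (g := f) (f := fun y : E × ℂ => ((y.1, b + y.2) : E × ℂ)) h hg

private theorem an_near {f : E × ℂ → ℂ} {x₀ : E} {b : ℂ} (hf : AnalyticAt ℂ f (x₀, b)) :
    ∃ η > 0, ∀ x : E, ‖x - x₀‖ < η → ∀ w : ℂ, ‖w‖ < η → AnalyticAt ℂ f (x, b + w) := by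
  obtain ⟨η, hη, h⟩ := Metric.eventually_nhds_iff.1 hf.eventually_analyticAt
  refine ⟨η, hη, fun x hx w hw => h ?_⟩
  rw [Prod.dist_eq, max_lt_iff, dist_eq_norm, dist_eq_norm]
  exact ⟨hx, by simpa using hw⟩

theorem hz {f : E × ℂ → ℂ} {x₀ : E} {w₀ : ℂ} (hf : AnalyticAt ℂ f (x₀, w₀)) (h0 : f (x₀, w₀) = 0) (hne : ∀ᶠ w in 𝓝[≠] w₀, f (x₀, w) ≠ 0) {ε : ℝ} (hε : 0 < ε) :
    ∀ᶠ x in 𝓝 x₀, ∃ w, ‖w - w₀‖ < ε ∧ f (x, w) = 0 := by
  obtain ⟨η, hη, h1⟩ := an_near hf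
  rw [eventually_nhdsWithin_iff, Metric.eventually_nhds_iff] at hne
  obtain ⟨η', hη', h2⟩ := hne
  set r : ℝ := min (min η η') ε / 2 with hr
  have hm : 0 < min (min η η') ε := lt_min (lt_min hη hη') hε
  have hr0 : 0 < r := by
    rw [hr]
    linarith
  have hr1 : r < η := by
    have : min (min η η') ε ≤ η := (min_le_left _ _).trans (min_le_left _ _)
    rw [hr]
    linarith
  have hr2 : r < η' := by
    have : min (min η η') ε ≤ η' := (min_le_left _ _).trans (min_le_right _ _)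
    rw [hr]
    linarith
  have hr3 : r < ε := by
    have : min (min η η') ε ≤ ε := min_le_right _ _
    rw [hr]
    linarith
  obtain ⟨δ, n, β, hδ, R⟩ := exists_rsys (σ := fun y : E × ℂ => f (y.1, w₀ + y.2)) (x₀ := x₀) hr0
    (fun w hw => shift_an (h1 x₀ (by simpa using hη) w (lt_of_le_of_lt hw hr1)))
    (fun w hw => h2 (by rw [dist_eq_norm, add_sub_cancel_left, hw]; exact hr2) (by
      intro h3
      have h4 : w = 0 := by
        have h5 : w₀ + w = w₀ := h3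
        simpa using h5
      rw [h4, norm_zero] at hw
      exact hr0.ne hw))
  have hx₀ : x₀ ∈ ball x₀ δ := mem_ball_self hδ
  have h3 : (fun y : E × ℂ => f (y.1, w₀ + y.2)) (x₀, 0) = 0 := by
    show f (x₀, w₀ + 0) = 0
    rw [add_zero]
    exact h0
  obtain ⟨i, _⟩ := (R.iff hx₀ (by simpa using hr0.le)).1 h3
  refine Filter.mem_of_superset (ball_mem_nhds x₀ hδ) fun x hx => ?_
  refine ⟨w₀ + β x i, ?_, ?_⟩
  · rw [add_sub_cancel_left]
    exact (R.lt x hx i).trans hr3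
  · exact (R.iff hx (R.lt x hx i).le).2 ⟨i, rfl⟩

/-- a smaller base -/
private theorem rsys_mono {U U' : Set E} {r : ℝ} {σ : E × ℂ → ℂ} {n : ℕ} {β : E → Fin n → ℂ}
    (R : RSys U r σ β) (hU : IsOpen U') (h : U' ⊆ U) : RSys U' r σ β :=
  ⟨hU, R.pos, fun x hx => R.an x (h hx), fun x hx => R.ne x (h hx), fun x hx => R.lt x (h hx),
    fun x hx => R.fac x (h hx)⟩

theorem opn {σ ρ : (E × ℂ) × ℂ → ℂ} {z₀ : E} {a b : ℂ} (hσ : AnalyticAt ℂ σ ((z₀, a), b)) (hρ : AnalyticAt ℂ ρ ((z₀, a), b)) (h1 : σ ((z₀, a), b) = 0) (h2 : ρ ((z₀, a), b) = 0)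
    (h3 : ∀ᶠ w in 𝓝[≠] b, σ ((z₀, a), w) ≠ 0) {ε₀ : ℝ} (hε₀ : 0 < ε₀) (h4 : ∀ᶠ v in 𝓝[≠] a, ∀ w : ℂ, ‖w - b‖ < ε₀ → σ ((z₀, v), w) = 0 → ρ ((z₀, v), w) ≠ 0) {ε : ℝ} (hε : 0 < ε) :
    ∀ᶠ z in 𝓝 z₀, ∃ v w : ℂ, ‖v - a‖ < ε ∧ ‖w - b‖ < ε ∧ σ ((z, v), w) = 0 ∧ ρ ((z, v), w) = 0 := by
  obtain ⟨η, hη, k1⟩ := an_near hσ
  obtain ⟨η', hη', k2⟩ := an_near hρ
  rw [eventually_nhdsWithin_iff, Metric.eventually_nhds_iff] at h3
  obtain ⟨η'', hη'', k3⟩ := h3
  set m : ℝ := min (min (min η η') η'') (min ε ε₀) with hmdef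
  have hm : 0 < m := lt_min (lt_min (lt_min hη hη') hη'') (lt_min hε hε₀)
  have m1 : m ≤ η := (min_le_left _ _).trans ((min_le_left _ _).trans (min_le_left _ _))
  have m2 : m ≤ η' := (min_le_left _ _).trans ((min_le_left _ _).trans (min_le_right _ _))
  have m3 : m ≤ η'' := (min_le_left _ _).trans (min_le_right _ _)
  have m4 : m ≤ ε := (min_le_right _ _).trans (min_le_left _ _)
  have m5 : m ≤ ε₀ := (min_le_right _ _).trans (min_le_right _ _)
  have hr0 : 0 < m / 2 := by linarith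
  obtain ⟨δ, n, β, hδ, R⟩ := exists_rsys (σ := fun y : (E × ℂ) × ℂ => σ (y.1, b + y.2))
    (x₀ := (z₀, a)) hr0
    (fun w hw => shift_an (k1 (z₀, a) (by simpa using hη) w (by linarith)))
    (fun w hw => k3 (by rw [dist_eq_norm, add_sub_cancel_left, hw]; linarith) (by
      intro h5
      have h6 : w = 0 := by
        have h7 : b + w = b := h5
        simpa using h7
      rw [h6, norm_zero] at hw
      exact hr0.ne hw))
  set δ' : ℝ := min δ m with hδ'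
  have hδ'0 : 0 < δ' := lt_min hδ hm
  have R' := rsys_mono R (isOpen_ball (x := ((z₀, a) : E × ℂ)) (ε := δ'))
    (ball_subset_ball (min_le_left _ _))
  set N : E × ℂ → ℂ := fun x => ∏ i, (fun y : (E × ℂ) × ℂ => ρ (y.1, b + y.2)) (x, β x i) with hN
  have hNan : ∀ x ∈ ball ((z₀, a) : E × ℂ) δ', AnalyticAt ℂ N x := by
    refine R'.norm_an fun x hx w hw => shift_an (k2 x ?_ w (by linarith))
    rw [mem_ball, dist_eq_norm] at hx
    have : δ' ≤ m := min_le_right _ _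
    linarith
  have hx₀ : ((z₀, a) : E × ℂ) ∈ ball ((z₀, a) : E × ℂ) δ' := mem_ball_self hδ'0
  have e1 : (fun y : (E × ℂ) × ℂ => σ (y.1, b + y.2)) ((z₀, a), 0) = 0 := by
    show σ ((z₀, a), b + 0) = 0
    rw [add_zero]
    exact h1
  obtain ⟨i, hi⟩ := (R'.iff hx₀ (by simpa using hr0.le)).1 e1
  have hN0 : N (z₀, a) = 0 := by
    rw [hN]
    refine Finset.prod_eq_zero (Finset.mem_univ i) ?_
    show ρ ((z₀, a), b + β (z₀, a) i) = 0
    rw [← hi, add_zero]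
    exact h2
  have hNne : ∀ᶠ v in 𝓝[≠] a, N (z₀, v) ≠ 0 := by
    have h5 : ∀ᶠ v in 𝓝[≠] a, v ∈ ball a δ' :=
      Filter.Eventually.filter_mono nhdsWithin_le_nhds (ball_mem_nhds a hδ'0)
    refine (h4.and h5).mono fun v hv => ?_
    have hx : ((z₀, v) : E × ℂ) ∈ ball ((z₀, a) : E × ℂ) δ' := by
      rw [mem_ball, Prod.dist_eq, dist_self, max_lt_iff]
      exact ⟨hδ'0, hv.2⟩
    rw [hN]
    refine Finset.prod_ne_zero_iff.2 fun j _ => ?_
    refine hv.1 (b + β (z₀, v) j) ?_ ((R'.iff hx (R'.lt _ hx j).le).2 ⟨j, rfl⟩)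
    rw [add_sub_cancel_left]
    have := R'.lt _ hx j
    linarith
  have h6 := hz (hNan _ hx₀) hN0 hNne (lt_min hε hδ'0)
  have h7 : ∀ᶠ z in 𝓝 z₀, z ∈ ball z₀ δ' := ball_mem_nhds z₀ hδ'0
  refine (h6.and h7).mono ?_
  rintro z ⟨⟨v, hv, hNv⟩, hz'⟩
  have hx : ((z, v) : E × ℂ) ∈ ball ((z₀, a) : E × ℂ) δ' := by
    rw [mem_ball, Prod.dist_eq, max_lt_iff]
    exact ⟨hz', by rw [dist_eq_norm]; exact hv.trans_le (min_le_right _ _)⟩
  rw [hN] at hNv
  obtain ⟨j, _, hj⟩ := Finset.prod_eq_zero_iff.1 hNv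
  refine ⟨v, b + β (z, v) j, hv.trans_le (min_le_left _ _), ?_,
    (R'.iff hx (R'.lt _ hx j).le).2 ⟨j, rfl⟩, hj⟩
  rw [add_sub_cancel_left]
  have := R'.lt _ hx j
  linarith

end Pool.Agent.G4.K

end
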