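import Pool.Agent.H94.G5T.M131
import Pool.Agent.H94.G5T.M132
import Pool.Agent.H94.G5T.M51
import Pool.Agent.H94.G5T.M87
import Pool.Agent.H94.G5T.M91
import Pool.Agent.H94.G5T.M97
import Pool.Agent.H94.G5T.M99

/-! The parts of this file: G4.RE.R2, G4.RE.Rx, G4.RE.Rd, H62.Et.Hat, H62.Qe.Loc, H62.Qe.Lift. -/

section

/-!
# G4 RE R2: a double zero splits

If `∂ₜ g (x, t) ≠ 0` then `g (x', ·)` is injective near `t` for `x'` near `x` (strict differentiability).  `exists_rsys` for `(x', w) ↦ s (x', t + w)` at `x` with a small radius: at `x' = x` all zeros are `0`, so `s (x, t + w) = w ^ n * h w`, `h 0 ≠ 0`, and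
`n ≥ 2` by `h0`, `hd`; for `x'` near `x` with `c x' ≠ 0` the zeros `β x' 0`, `β x' 1` are different (otherwise the derivative is `0` there, against `h1`), and both are zeros of `g (x', t + ·)` (`hgs`).
-/

set_option autoImplicit false

open Topology Filter Metric

namespace Pool.Agent.G4.RE

open Pool.Agent.G4.K (RSys)

variable {E : Type} [NormedAddCommGroup E] [NormedSpace ℂ E] [FiniteDimensional ℂ E]

/-- a double zero: the derivative vanishes -/
private theorem r2_dbl {F h : ℂ → ℂ} {n : ℕ} {b : Fin n → ℂ} {i j : Fin n} (hij : i ≠ j) (hb : b i = b j) (hh : DifferentiableAt ℂ h (b i)) (hF : ∀ᶠ w in 𝓝 (b i), F w = (∏ k, (w - b k)) * h w) :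
    deriv F (b i) = 0 := by
  have h1 : F =ᶠ[𝓝 (b i)] fun w => (w - b i) * ((w - b i) * ((∏ k ∈ (Finset.univ.erase i).erase j, (w - b k)) * h w)) := by
    filter_upwards [hF] with w hw
    rw [hw, ← Finset.mul_prod_erase Finset.univ (fun k => w - b k) (Finset.mem_univ i), ← Finset.mul_prod_erase (Finset.univ.erase i) (fun k => w - b k) (Finset.mem_erase.2 ⟨hij.symm, Finset.mem_univ j⟩), ← hb]
    ring
  rw [h1.deriv_eq]
  have h2 : DifferentiableAt ℂ (fun w => (w - b i) * ((∏ k ∈ (Finset.univ.erase i).erase j, (w - b k)) * h w)) (b i) := by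
    refine (differentiableAt_id.sub_const _).mul (DifferentiableAt.mul ?_ hh)
    refine DifferentiableAt.fun_finsetProd fun k _ => differentiableAt_id.sub_const _
  have h3 : HasDerivAt (fun w : ℂ => w - b i) 1 (b i) := (hasDerivAt_id _).sub_const _
  have h4 := (h3.mul h2.hasDerivAt).deriv
  refine h4.trans ?_
  simp

omit [FiniteDimensional ℂ E] in
/-- injectivity of `g (x', ·)` near `t` -/
private theorem r2_inj {g : E × ℂ → ℂ} {x : E} {t : ℂ} (hg : AnalyticAt ℂ g (x, t)) (hd : deriv (fun t => g (x, t)) t ≠ 0) :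
    ∃ η > 0, ∀ x' : E, ‖x' - x‖ < η → ∀ a b : ℂ, ‖a - t‖ < η → ‖b - t‖ < η → g (x', a) = 0 → g (x', b) = 0 → a = b := by
  have h1 : HasStrictFDerivAt g (fderiv ℂ g (x, t)) (x, t) := hg.hasStrictFDerivAt
  have h2 : deriv (fun t => g (x, t)) t = fderiv ℂ g (x, t) (0, 1) := by
    have h3 : HasDerivAt (fun t : ℂ => (x, t)) ((0 : E), (1 : ℂ)) t := (hasDerivAt_const t x).prodMk (hasDerivAt_id t)
    exact (h1.hasFDerivAt.comp_hasDerivAt t h3).deriv
  rw [h2] at hd
  have h3 : 0 < ‖fderiv ℂ g (x, t) (0, 1)‖ := norm_pos_iff.2 hd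
  have h4 := h1.isLittleO.def (half_pos h3)
  rw [nhds_prod_eq] at h4
  obtain ⟨U, hU, h5⟩ := (Filter.eventually_prod_self_iff (r := fun p q : E × ℂ => ‖g p - g q - (fderiv ℂ g (x, t)) (p - q)‖ ≤ ‖fderiv ℂ g (x, t) (0, 1)‖ / 2 * ‖p - q‖)).1 h4
  obtain ⟨η, hη, h6⟩ := Metric.mem_nhds_iff.1 hU
  refine ⟨η, hη, fun x' hx' a b ha hb e1 e2 => ?_⟩
  have h7 : ∀ c : ℂ, ‖c - t‖ < η → ((x', c) : E × ℂ) ∈ U := fun c hc => h6 (by
    rw [mem_ball, Prod.dist_eq, max_lt_iff, dist_eq_norm, dist_eq_norm]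
    exact ⟨hx', hc⟩)
  have h8 := h5 (x', a) (h7 a ha) (x', b) (h7 b hb)
  have h9 : ((x', a) : E × ℂ) - (x', b) = (a - b) • ((0 : E), (1 : ℂ)) := by
    simp
  rw [e1, e2, h9, map_smul, sub_zero, zero_sub, norm_neg, norm_smul, norm_smul] at h8
  have h10 : ‖((0 : E), (1 : ℂ))‖ = 1 := by
    rw [Prod.norm_def]
    simp
  rw [h10, mul_one] at h8
  by_contra h11
  have h12 : 0 < ‖a - b‖ := norm_pos_iff.2 (sub_ne_zero.2 h11)
  nlinarith

/-- a double zero splits -/
theorem rd_two {s g : E × ℂ → ℂ} {c : E → ℂ} {x : E} {t : ℂ} (hs : AnalyticAt ℂ s (x, t)) (h0 : s (x, t) = 0) (hz : ∀ᶠ t' in 𝓝[≠] t, s (x, t') ≠ 0) (hc : ∃ᶠ x' in 𝓝 x, c x' ≠ 0)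
    (h1 : ∀ᶠ p : E × ℂ in 𝓝 (x, t), c p.1 ≠ 0 → s p = 0 → deriv (fun t => s (p.1, t)) p.2 ≠ 0) (hd : deriv (fun t => s (x, t)) t = 0) (hg : AnalyticAt ℂ g (x, t)) (hgs : ∀ᶠ p in 𝓝 (x, t), (g p = 0 ↔ s p = 0)) :
    deriv (fun t => g (x, t)) t = 0 := by
  by_contra hgd
  obtain ⟨η₁, hη₁, k1⟩ := r2_inj hg hgd
  obtain ⟨η₂, hη₂, k2⟩ := Metric.eventually_nhds_iff.1 (hs.eventually_analyticAt.and (h1.and hgs))
  rw [eventually_nhdsWithin_iff, Metric.eventually_nhds_iff] at hz
  obtain ⟨η₃, hη₃, k3⟩ := hz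
  set η : ℝ := min (min η₁ η₂) η₃ with hη
  have hη0 : 0 < η := lt_min (lt_min hη₁ hη₂) hη₃
  have m1 : η ≤ η₁ := (min_le_left _ _).trans (min_le_left _ _)
  have m2 : η ≤ η₂ := (min_le_left _ _).trans (min_le_right _ _)
  have m3 : η ≤ η₃ := min_le_right _ _
  have hr : 0 < η / 2 := by linarith
  have hdist : ∀ x' : E, ‖x' - x‖ < η → ∀ w : ℂ, ‖w‖ < η → dist ((x', t + w) : E × ℂ) (x, t) < η₂ := by
    intro x' hx' w hw
    rw [Prod.dist_eq, max_lt_iff, dist_eq_norm, dist_eq_norm]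
    exact ⟨hx'.trans_le m2, by simpa using hw.trans_le m2⟩
  have hxx : ‖x - x‖ < η := by simpa using hη0
  obtain ⟨δ, n, β, hδ, R⟩ := Pool.Agent.G4.K.exists_rsys (σ := fun y : E × ℂ => s (y.1, t + y.2)) (x₀ := x) hr
    (fun w hw => by
      have h2 : AnalyticAt ℂ s (x, t + w) := (k2 (hdist x hxx w (by linarith))).1
      have h3 : AnalyticAt ℂ (fun y : E × ℂ => ((y.1, t + y.2) : E × ℂ)) (x, w) := analyticAt_fst.prod (analyticAt_const.add analyticAt_snd)
      exact AnalyticAt.fun_comp (g := s) (f := fun y : E × ℂ => ((y.1, t + y.2) : E × ℂ)) h2 h3)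
    (fun w hw => k3 (by rw [dist_eq_norm, add_sub_cancel_left, hw]; linarith) (by
      intro h5
      have h6 : w = 0 := by
        have h7 : t + w = t := h5
        simpa using h7
      rw [h6, norm_zero] at hw
      exact hr.ne hw))
  have hzero : ∀ x' ∈ ball x δ, ∀ i, s (x', t + β x' i) = 0 := fun x' hx' i => (R.iff hx' (R.lt x' hx' i).le).2 ⟨i, rfl⟩
  have hshift : ∀ (x' : E) (w : ℂ), deriv (fun w => s (x', t + w)) w = deriv (fun t => s (x', t)) (t + w) := fun x' w => by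
    rw [← deriv_comp_const_add]
  have hx : x ∈ ball x δ := mem_ball_self hδ
  -- at `x` all the zeros are `0`
  have hb0 : ∀ i, β x i = 0 := by
    intro i
    by_contra h2
    refine k3 (y := t + β x i) ?_ ?_ (hzero x hx i)
    · rw [dist_eq_norm, add_sub_cancel_left]
      have := R.lt x hx i
      linarith
    · simpa using h2
  obtain ⟨h, f1, f2⟩ := R.fac x hx
  have hn : 2 ≤ n := by
    by_contra h2
    have h3 : n = 0 ∨ n = 1 := by omega
    rcases h3 with h3 | h3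
    · subst h3
      have h4 := f2 0 (by simpa using hr.le)
      simp only [Finset.univ_eq_empty, Finset.prod_empty, one_mul, add_zero] at h4
      exact (f1 0 (by simpa using hr.le)).2 (h4.symm.trans h0)
    · subst h3
      have h4 : (fun w => s (x, t + w)) =ᶠ[𝓝 0] fun w => w * h w := by
        filter_upwards [ball_mem_nhds (0 : ℂ) hr] with w hw
        have h5 := f2 w (mem_ball_zero_iff.1 hw).le
        simp only [Fin.prod_univ_one, hb0, sub_zero] at h5
        exact h5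
      have h6 := h4.deriv_eq
      rw [hshift, add_zero, hd] at h6
      have h7 : HasDerivAt (fun w : ℂ => w * h w) (1 * h 0 + 0 * deriv h 0) 0 :=
        (hasDerivAt_id (0 : ℂ)).mul (f1 0 (by simpa using hr.le)).1.differentiableAt.hasDerivAt
      rw [h7.deriv, one_mul, zero_mul, add_zero] at h6
      exact (f1 0 (by simpa using hr.le)).2 h6.symm
  -- a near point with `c x' ≠ 0`
  obtain ⟨x', hcx, hx'⟩ := (hc.and_eventually (ball_mem_nhds x (lt_min hδ hη0))).exists
  have hxδ : x' ∈ ball x δ := ball_subset_ball (min_le_left _ _) hx'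
  have hxη : ‖x' - x‖ < η := by
    rw [← dist_eq_norm]
    exact (mem_ball.1 hx').trans_le (min_le_right _ _)
  have hlt : ∀ i, ‖β x' i‖ < η := fun i => by
    have := R.lt x' hxδ i
    linarith
  have hgz : ∀ i, g (x', t + β x' i) = 0 := fun i => ((k2 (hdist x' hxη _ (hlt i))).2.2).2 (hzero x' hxδ i)
  set i₀ : Fin n := ⟨0, by omega⟩ with hi₀
  set i₁ : Fin n := ⟨1, by omega⟩ with hi₁
  have hne : i₀ ≠ i₁ := by
    rw [hi₀, hi₁]
    simp
  have heq : β x' i₀ = β x' i₁ := by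
    have h2 := k1 x' (hxη.trans_le m1) (t + β x' i₀) (t + β x' i₁) (by rw [add_sub_cancel_left]; exact (hlt _).trans_le m1) (by rw [add_sub_cancel_left]; exact (hlt _).trans_le m1) (hgz _) (hgz _)
    exact add_left_cancel h2
  obtain ⟨h', f1', f2'⟩ := R.fac x' hxδ
  have h2 : deriv (fun w => s (x', t + w)) (β x' i₀) = 0 := by
    refine r2_dbl hne heq (f1' _ (R.lt x' hxδ i₀).le).1.differentiableAt ?_
    filter_upwards [isOpen_ball.mem_nhds (mem_ball_zero_iff.2 (R.lt x' hxδ i₀))] with w hw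
    exact f2' w (mem_ball_zero_iff.1 hw).le
  rw [hshift] at h2
  exact (k2 (hdist x' hxη _ (hlt i₀))).2.1 hcx (hzero x' hxδ i₀) h2

end Pool.Agent.G4.RE

end

section

/-!
# G4 RE Rx: existence of the reduced equation, in coordinates

`exists_rsys` for `f` at `0` (a small radius `r`): roots `β x i`, `x ∈ U = ball 0 δ₀`; `q` the maximal number of different roots over `U`; `c x = sc q (β x)`, `N (x, t) = sd q (β x) t`: `c` is not `0` near any point of `U` (`sc_ne`, identity theorem on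
the ball), and `‖N (x, t)‖ ≤ (‖t‖ + r) ^ q * ‖c x‖` (`sd_eq`, `img_le`, `sc_zero`, `sd_zero`).  `s` from `riem` at `0`: `s (x, t) = ∏ v, (t - v)` (different roots) if `c x ≠ 0`.
`s (x, t) = 0` iff `∏ i, (t - β x i) = 0` for all `x` near `0` and all `t`: `‖∏ i, (t - β x i)‖ ≤ C ‖s (x, t)‖`, `‖s (x, t)‖ ^ n ≤ C ‖∏ i, (t - β x i)‖` by `img_le` if `c x ≠ 0`, in general by continuity in `x` (`pr_an`); so `s (x, ·)` has finitely
many zeros, and for `‖t‖ < r` they are the zeros of `f (x, ·)` (`RSys.iff`).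
-/

set_option autoImplicit false

open Topology Filter Metric

namespace Pool.Agent.G4.RE

open Pool.Agent.G4.K (RSys)

variable {E : Type} [NormedAddCommGroup E] [NormedSpace ℂ E] [FiniteDimensional ℂ E]

omit [FiniteDimensional ℂ E] in
/-- a radius -/
private theorem rx_rad {f : E × ℂ → ℂ} (hf : AnalyticAt ℂ f (0, 0)) (hl : ∀ᶠ w in 𝓝[≠] (0 : ℂ), f (0, w) ≠ 0) :
    ∃ r : ℝ, 0 < r ∧ (∀ w : ℂ, ‖w‖ ≤ r → AnalyticAt ℂ f (0, w)) ∧ ∀ w : ℂ, ‖w‖ = r → f (0, w) ≠ 0 := by
  have h1 : ∀ᶠ w : ℂ in 𝓝 0, AnalyticAt ℂ f (0, w) := by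
    have h2 : Tendsto (fun w : ℂ => ((0 : E), w)) (𝓝 0) (𝓝 (0, 0)) := (Continuous.prodMk_right (0 : E)).continuousAt
    exact h2.eventually hf.eventually_analyticAt
  have h2 : ∀ᶠ w : ℂ in 𝓝 0, w ≠ 0 → f (0, w) ≠ 0 := eventually_nhdsWithin_iff.1 hl
  obtain ⟨ε, hε, h3⟩ := Metric.eventually_nhds_iff_ball.1 (h1.and h2)
  have h4 : ∀ w : ℂ, ‖w‖ ≤ ε / 2 → w ∈ ball (0 : ℂ) ε := fun w hw => by
    rw [mem_ball_zero_iff]
    linarith
  refine ⟨ε / 2, by positivity, fun w hw => (h3 w (h4 w hw)).1, fun w hw => (h3 w (h4 w hw.le)).2 ?_⟩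
  intro h5
  rw [h5, norm_zero] at hw
  linarith

/-- simple zeros -/
private theorem rx_deriv {S : Finset ℂ} {g : ℂ → ℂ} (hg : ∀ t, g t = ∏ v ∈ S, (t - v)) {t : ℂ} (ht : g t = 0) : deriv g t ≠ 0 := by
  have h0 : t ∈ S := by
    rw [hg, Finset.prod_eq_zero_iff] at ht
    obtain ⟨v, hv, h1⟩ := ht
    rw [sub_eq_zero.1 h1]
    exact hv
  have h1 : g = fun t' => (t' - t) * ∏ v ∈ S.erase t, (t' - v) := by
    funext t'
    rw [hg]
    exact (Finset.mul_prod_erase S (fun v => t' - v) h0).symm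
  have h2 : DifferentiableAt ℂ (fun t' : ℂ => ∏ v ∈ S.erase t, (t' - v)) t := by
    have h3 : ∀ v ∈ S.erase t, DifferentiableAt ℂ (fun t' : ℂ => t' - v) t := fun v _ => differentiableAt_id.sub_const v
    exact DifferentiableAt.fun_finsetProd h3
  have h3 := ((hasDerivAt_id t).sub_const t).mul h2.hasDerivAt
  have h4 : deriv g t = ∏ v ∈ S.erase t, (t - v) := by
    rw [h1]
    refine h3.deriv.trans ?_
    simp
  rw [h4, Finset.prod_ne_zero_iff]
  intro v hv
  rw [sub_ne_zero]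
  exact (Finset.ne_of_mem_erase hv).symm

/-- off a finite set near a point -/
private theorem rx_fin {F : Set ℂ} (hF : F.Finite) (t : ℂ) : ∀ᶠ t' in 𝓝[≠] t, t' ∉ F := by
  have h1 : (F \ {t})ᶜ ∈ 𝓝 t := (hF.subset Set.sdiff_subset).isClosed.isOpen_compl.mem_nhds (by simp)
  filter_upwards [mem_nhdsWithin_of_mem_nhds h1, self_mem_nhdsWithin] with t' h2 h3 h4
  exact h2 ⟨h4, h3⟩

/-- a bounded function with natural values has a maximum -/
private theorem rx_max {X : Type} (g : X → ℕ) {n : ℕ} (hg : ∀ x, g x ≤ n) {U : Set X} {x₀ : X} (hx₀ : x₀ ∈ U) : ∃ x₁ ∈ U, ∀ x ∈ U, g x ≤ g x₁ := by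
  classical
  have hex : ∃ k, ∃ x ∈ U, n - g x = k := ⟨_, x₀, hx₀, rfl⟩
  obtain ⟨x₁, hx₁, hk⟩ := Nat.find_spec hex
  refine ⟨x₁, hx₁, fun x hx => ?_⟩
  have h1 : Nat.find hex ≤ n - g x := Nat.find_min' hex ⟨x, hx, rfl⟩
  rw [← hk] at h1
  have h2 := hg x
  have h3 := hg x₁
  omega

/-- existence of the reduced polynomial -/
theorem rd_ex {f : E × ℂ → ℂ} (hf : AnalyticAt ℂ f (0, 0)) (hl : ∀ᶠ w in 𝓝[≠] (0 : ℂ), f (0, w) ≠ 0) :
    ∃ (δ r : ℝ) (c : E → ℂ) (s : E × ℂ → ℂ), 0 < δ ∧ 0 < r ∧ (∀ x ∈ ball (0 : E) δ, AnalyticAt ℂ c x ∧ ∃ᶠ x' in 𝓝 x, c x' ≠ 0) ∧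
      (∀ x ∈ ball (0 : E) δ, ∀ t : ℂ, AnalyticAt ℂ s (x, t)) ∧ (∀ x ∈ ball (0 : E) δ, ∀ t : ℂ, ‖t‖ < r → (s (x, t) = 0 ↔ f (x, t) = 0)) ∧
      (∀ x ∈ ball (0 : E) δ, ∀ t : ℂ, ∀ᶠ t' in 𝓝[≠] t, s (x, t') ≠ 0) ∧
      ∀ x ∈ ball (0 : E) δ, c x ≠ 0 → ∀ t : ℂ, s (x, t) = 0 → deriv (fun t => s (x, t)) t ≠ 0 := by
  obtain ⟨r, hr, hfr, hfn⟩ := rx_rad hf hl
  obtain ⟨δ₀, n, β, hδ₀, R⟩ := Pool.Agent.G4.K.exists_rsys hr hfr hfn
  -- the maximal number of different roots
  have hcn : ∀ x, (Finset.univ.image (β x)).card ≤ n := fun x =>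
    Finset.card_image_le.trans (by simp)
  obtain ⟨x₁, hx₁, hmax'⟩ := rx_max (fun x => (Finset.univ.image (β x)).card) hcn (mem_ball_self hδ₀ : (0 : E) ∈ ball (0 : E) δ₀)
  set q := (Finset.univ.image (β x₁)).card with hq
  have hmax : ∀ x ∈ ball (0 : E) δ₀, (Finset.univ.image (β x)).card ≤ q := hmax'
  have hcan := sc_an R q
  have hNan := sd_an R q
  have hne : ∀ x ∈ ball (0 : E) δ₀, ∃ᶠ x' in 𝓝 x, sc q (β x') ≠ 0 := by
    intro x hx h1
    have h2 : (fun x => sc q (β x)) =ᶠ[𝓝 x] 0 := by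
      filter_upwards [h1] with x' h3
      exact not_not.1 h3
    have h3 : AnalyticOnNhd ℂ (fun x => sc q (β x)) (ball (0 : E) δ₀) := fun x hx => hcan x hx
    have h4 := h3.eqOn_zero_of_preconnected_of_eventuallyEq_zero (convex_ball (0 : E) δ₀).isPreconnected hx h2 hx₁
    exact sc_ne rfl h4
  have hbd : ∀ x ∈ ball (0 : E) δ₀, ∀ t : ℂ, ‖(fun p : E × ℂ => sd q (β p.1) p.2) (x, t)‖ ≤ (‖t‖ + r) ^ q * ‖sc q (β x)‖ := by
    intro x hx t
    rcases (hmax x hx).lt_or_eq with h1 | h1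
    · simp only
      rw [sd_zero h1, sc_zero h1]
      simp
    · simp only
      rw [sd_eq h1, norm_mul, mul_comm]
      exact mul_le_mul_of_nonneg_right (img_le hr (fun i => (R.lt x hx i).le) h1 t).1 (norm_nonneg _)
  obtain ⟨δ, hδ, hsub, s, hs⟩ := riem isOpen_ball (mem_ball_self hδ₀) hcan hNan (hne 0 (mem_ball_self hδ₀)) hbd
  -- the values where `c x ≠ 0`
  have hval : ∀ x ∈ ball (0 : E) δ, sc q (β x) ≠ 0 → (Finset.univ.image (β x)).card = q ∧ ∀ t, s (x, t) = ∏ v ∈ Finset.univ.image (β x), (t - v) := by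
    intro x hx hc
    have h1 : (Finset.univ.image (β x)).card = q := by
      rcases (hmax x (hsub hx)).lt_or_eq with h1 | h1
      · exact absurd (sc_zero h1) hc
      · exact h1
    refine ⟨h1, fun t => ?_⟩
    have h2 := (hs x hx t).2
    simp only at h2
    rw [sd_eq h1, mul_comm (sc q (β x))] at h2
    exact mul_right_cancel₀ hc h2
  have hcontS : ∀ x ∈ ball (0 : E) δ, ∀ t, ContinuousAt (fun x => s (x, t)) x := by
    intro x hx t
    exact ContinuousAt.comp (g := s) (f := fun x : E => (x, t)) (hs x hx t).1.continuousAt (Continuous.prodMk_left t).continuousAt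
  have hcontP : ∀ x ∈ ball (0 : E) δ, ∀ t, ContinuousAt (fun x => ∏ i, (t - β x i)) x := by
    intro x hx t
    exact ContinuousAt.comp (g := fun p : E × ℂ => ∏ i, (p.2 - β p.1 i)) (f := fun x : E => (x, t)) (pr_an R x (hsub hx) t).continuousAt (Continuous.prodMk_left t).continuousAt
  have hfreq : ∀ x ∈ ball (0 : E) δ, ∃ᶠ x' in 𝓝 x, x' ∈ ball (0 : E) δ ∧ sc q (β x') ≠ 0 := by
    intro x hx
    exact ((hne x (hsub hx)).and_eventually (isOpen_ball.mem_nhds hx)).mono fun x' h => ⟨h.2, h.1⟩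
  have hle1 : ∀ x ∈ ball (0 : E) δ, ∀ t, ‖∏ i, (t - β x i)‖ ≤ (1 + ‖t‖ + r) ^ (n * n) * ‖s (x, t)‖ := by
    intro x hx t
    have h1 : Tendsto (fun x' => ‖∏ i, (t - β x' i)‖ - (1 + ‖t‖ + r) ^ (n * n) * ‖s (x', t)‖) (𝓝 x) (𝓝 (‖∏ i, (t - β x i)‖ - (1 + ‖t‖ + r) ^ (n * n) * ‖s (x, t)‖)) :=
      (hcontP x hx t).norm.sub (continuousAt_const.mul (hcontS x hx t).norm)
    have h2 : ‖∏ i, (t - β x i)‖ - (1 + ‖t‖ + r) ^ (n * n) * ‖s (x, t)‖ ≤ 0 := by
      refine le_of_tendsto_of_frequently h1 ((hfreq x hx).mono fun x' h => ?_)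
      obtain ⟨h3, h4⟩ := hval x' h.1 h.2
      rw [h4]
      have := (img_le hr (fun i => (R.lt x' (hsub h.1) i).le) h3 t).2.1
      linarith
    linarith
  have hle2 : ∀ x ∈ ball (0 : E) δ, ∀ t, ‖s (x, t)‖ ^ n ≤ (1 + ‖t‖ + r) ^ (n * n) * ‖∏ i, (t - β x i)‖ := by
    intro x hx t
    have h1 : Tendsto (fun x' => ‖s (x', t)‖ ^ n - (1 + ‖t‖ + r) ^ (n * n) * ‖∏ i, (t - β x' i)‖) (𝓝 x) (𝓝 (‖s (x, t)‖ ^ n - (1 + ‖t‖ + r) ^ (n * n) * ‖∏ i, (t - β x i)‖)) :=
      ((hcontS x hx t).norm.pow n).sub (continuousAt_const.mul (hcontP x hx t).norm)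
    have h2 : ‖s (x, t)‖ ^ n - (1 + ‖t‖ + r) ^ (n * n) * ‖∏ i, (t - β x i)‖ ≤ 0 := by
      refine le_of_tendsto_of_frequently h1 ((hfreq x hx).mono fun x' h => ?_)
      obtain ⟨h3, h4⟩ := hval x' h.1 h.2
      rw [h4]
      have := (img_le hr (fun i => (R.lt x' (hsub h.1) i).le) h3 t).2.2
      linarith
    linarith
  have hiff : ∀ x ∈ ball (0 : E) δ, ∀ t, s (x, t) = 0 ↔ ∃ i, t = β x i := by
    intro x hx t
    have h0 : (∏ i, (t - β x i)) = 0 ↔ ∃ i, t = β x i := by
      rw [Finset.prod_eq_zero_iff]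
      simp [sub_eq_zero]
    rw [← h0]
    constructor
    · intro h
      have h1 := hle1 x hx t
      rw [h, norm_zero, mul_zero] at h1
      exact norm_le_zero_iff.1 h1
    · intro h
      have h1 := hle2 x hx t
      rw [h, norm_zero, mul_zero] at h1
      have h2 : ‖s (x, t)‖ ^ n = 0 := le_antisymm h1 (by positivity)
      exact norm_eq_zero.1 (eq_zero_of_pow_eq_zero h2)
  refine ⟨δ, r, fun x => sc q (β x), s, hδ, hr, fun x hx => ⟨hcan x (hsub hx), hne x (hsub hx)⟩, fun x hx t => (hs x hx t).1, fun x hx t ht => ?_, fun x hx t => ?_, fun x hx hc t ht => ?_⟩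
  · rw [hiff x hx t, R.iff (hsub hx) ht.le]
  · filter_upwards [rx_fin (Set.finite_range (β x)) t] with t' h1 h2
    obtain ⟨i, hi⟩ := (hiff x hx t').1 h2
    exact h1 ⟨i, hi.symm⟩
  · exact rx_deriv (hval x hx hc).2 ht

end Pool.Agent.G4.RE

end

section

/-!
# G4 RE Rd: the reduced equation, in coordinates

If `s (x, t) = 0` there are `x'` near `x` with `c x' ≠ 0`, and `t'` near `t` with `s (x', t') = 0` (`K.hz`); the zeros of `s (x', ·)` are simple.
-/

set_option autoImplicit false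

open Topology Filter Metric

namespace Pool.Agent.G4.RE

open Pool.Agent.G4.K (RSys)

variable {E : Type} [NormedAddCommGroup E] [NormedSpace ℂ E] [FiniteDimensional ℂ E]

private theorem der_eq {s : E × ℂ → ℂ} {p : E × ℂ} (hs : AnalyticAt ℂ s p) : fderiv ℂ s p (0, 1) = deriv (fun t => s (p.1, t)) p.2 := by
  have h1 : HasDerivAt (fun t : ℂ => ((p.1, t) : E × ℂ)) ((0 : E), (1 : ℂ)) p.2 := (hasDerivAt_const p.2 p.1).prodMk (hasDerivAt_id p.2)
  have h2 : HasFDerivAt s (fderiv ℂ s p) (p.1, p.2) := hs.differentiableAt.hasFDerivAt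
  exact (h2.comp_hasDerivAt p.2 h1).deriv.symm

theorem red {f : E × ℂ → ℂ} (hf : AnalyticAt ℂ f (0, 0)) (hl : ∀ᶠ w in 𝓝[≠] (0 : ℂ), f (0, w) ≠ 0) :
    ∃ s : E × ℂ → ℂ, AnalyticAt ℂ s (0, 0) ∧ ∀ᶠ p in 𝓝 (0 : E × ℂ), (s p = 0 ↔ f p = 0) ∧ (s p = 0 → ∃ᶠ p' in 𝓝 p, s p' = 0 ∧ fderiv ℂ s p' (0, 1) ≠ 0) ∧
      (s p = 0 → fderiv ℂ s p (0, 1) = 0 → ¬ Gd {p | f p = 0} p (0, 1)) := by
  obtain ⟨δ, r, c, s, hδ, hr, hc, hs, hsf, hiso, hsimp⟩ := rd_ex hf hl
  refine ⟨s, hs 0 (mem_ball_self hδ) 0, ?_⟩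
  have hU : IsOpen (ball (0 : E) δ ×ˢ ball (0 : ℂ) r) := isOpen_ball.prod isOpen_ball
  have hmem : (0 : E × ℂ) ∈ ball (0 : E) δ ×ˢ ball (0 : ℂ) r := ⟨mem_ball_self hδ, mem_ball_self hr⟩
  filter_upwards [hU.mem_nhds hmem] with p hp
  obtain ⟨hpx, hpt⟩ := hp
  have hpt' : ‖p.2‖ < r := mem_ball_zero_iff.1 hpt
  have hball : ∀ᶠ p' : E × ℂ in 𝓝 p, p'.1 ∈ ball (0 : E) δ ∧ ‖p'.2‖ < r := by
    filter_upwards [hU.mem_nhds (show p ∈ ball (0 : E) δ ×ˢ ball (0 : ℂ) r from ⟨hpx, hpt⟩)] with p' hp'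
    exact ⟨hp'.1, mem_ball_zero_iff.1 hp'.2⟩
  refine ⟨hsf p.1 hpx p.2 hpt', fun h0 => ?_, fun h0 hd hg => ?_⟩
  · -- density
    rw [frequently_iff]
    intro W hW
    obtain ⟨ε, hε, hεW⟩ := Metric.mem_nhds_iff.1 hW
    have h1 := K.hz (f := s) (x₀ := p.1) (w₀ := p.2) (hs p.1 hpx p.2) h0 (hiso p.1 hpx p.2) hε
    have h2 : ∀ᶠ x in 𝓝 p.1, x ∈ ball (0 : E) δ := isOpen_ball.mem_nhds hpx
    have h3 : ∀ᶠ x in 𝓝 p.1, x ∈ ball p.1 ε := ball_mem_nhds _ hε
    obtain ⟨x, hcx, ⟨w, hw1, hw2⟩, hx1, hx2⟩ := ((hc p.1 hpx).2.and_eventually (h1.and (h2.and h3))).exists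
    refine ⟨(x, w), hεW ?_, hw2, ?_⟩
    · rw [← ball_prod_same]
      exact ⟨hx2, by rw [mem_ball, dist_eq_norm]; exact hw1⟩
    · rw [der_eq (hs x hx1 w)]
      exact hsimp x hx1 hcx w hw2
  · obtain ⟨g, hg1, hg2, hg3, hg4⟩ := hg
    rw [der_eq hg1] at hg3
    refine hg3 ?_
    rw [der_eq (hs p.1 hpx p.2)] at hd
    refine rd_two (s := s) (c := c) (x := p.1) (t := p.2) (hs p.1 hpx p.2) h0 (hiso p.1 hpx p.2) (hc p.1 hpx).2 ?_ hd hg1 ?_
    · filter_upwards [hball] with p' hp' h1 h2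
      exact hsimp p'.1 hp'.1 h1 p'.2 h2
    · filter_upwards [hg4, hball] with p' h1 h2
      exact h1.symm.trans (hsf p'.1 h2.1 p'.2 h2.2).symm

end Pool.Agent.G4.RE

end

section

/-!
# Et Hat: the embedding of the projective space in the space of matrices

`pn x = pr ((LE N) x.rep)`.  Everything from Pool.Agent.H62.EF.PrA: `pr_smul`, `pr_eq_iff`, `continuousAt_pr`, `isCompact_pr`, `near_of_pr`.
* `pn_mk`: `Projectivization.exists_smul_eq_mk_rep` and `pr_smul`.
* `pn_injective`: `pr_eq_iff` and `Projectivization.mk_eq_mk_iff'`, `Projectivization.mk_rep`.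
* `pn_near`: `near_of_pr` at `(LE N) x` with the preimage of `U` under `(LE N).symm`; `x' = c • y.rep`.
* `pn_continuousAt`: `pn_mk`, `continuousAt_pr`, congruence near `a` (use `hf.self_of_nhds` for `φ a ≠ 0`).
* `pn_continuous`: `HolomorphicInto f univ` gives local analytic lifts.
* `isCompact_pn`: `pn '' projVar P = pr '' coneE P` (`mem_coneE`), and `coneE P` is a cone which is closed together with `0` (structure
  `Pool.Agent.H14.PP.IsCone`: zero_notMem, smul_mem, closed; the set `{y | ∀ Q ∈ P, eval ((LE N).symm y) Q = 0}` is closed and equal to `insert 0 (coneE P)`,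
  or take closed = zeros of the ideal; if `0` is not a zero of `P` then `P = ⊤` and everything is empty), `isCompact_pr`.
-/

set_option autoImplicit false

open Topology Filter MvPolynomial

noncomputable section

namespace Pool.Agent.H62.Et

open Pool.Agent.H17 (PN VanishesAt HolomorphicInto)
open Pool.Agent.H62.FC (Homog)
open Pool.Agent.H17EF (projVar LE coneE mem_coneE)
open Pool.Agent.H62.EF (MN pr)

variable {N : ℕ}

private theorem LE_ne {x : Fin (N + 1) → ℂ} (hx : x ≠ 0) : (LE N) x ≠ 0 := by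
  intro h
  apply hx
  have := congrArg (LE N).symm h
  rwa [ContinuousLinearEquiv.symm_apply_apply, map_zero] at this

private theorem mk_smul_eq {x : Fin (N + 1) → ℂ} (hx : x ≠ 0) {c : ℂ} (h : c • x ≠ 0) :
    Projectivization.mk ℂ (c • x) h = Projectivization.mk ℂ x hx := by
  rw [Projectivization.mk_eq_mk_iff']
  exact ⟨c, rfl⟩

theorem pn_mk {x : Fin (N + 1) → ℂ} (hx : x ≠ 0) : pn (Projectivization.mk ℂ x hx) = pr ((LE N) x) := by
  obtain ⟨a, ha, hrep⟩ := Pool.Agent.H36.BP.rep_mk hx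
  unfold pn
  rw [hrep, map_smul]
  exact Pool.Agent.H62.EF.pr_smul _ ha

theorem pn_injective : Function.Injective (pn (N := N)) := by
  intro x y h
  have hx := x.rep_nonzero
  have hy := y.rep_nonzero
  obtain ⟨c, hc, e⟩ := (Pool.Agent.H62.EF.pr_eq_iff (LE_ne hx) (LE_ne hy)).1 h
  have e2 : x.rep = c • y.rep := by
    have := congrArg (LE N).symm e
    rwa [map_smul, ContinuousLinearEquiv.symm_apply_apply, ContinuousLinearEquiv.symm_apply_apply] at this
  rw [← x.mk_rep, ← y.mk_rep, Projectivization.mk_eq_mk_iff']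
  exact ⟨c, e2.symm⟩

theorem pn_near {x : Fin (N + 1) → ℂ} (hx : x ≠ 0) {U : Set (Fin (N + 1) → ℂ)} (hU : U ∈ 𝓝 x) :
    ∃ δ : ℝ, 0 < δ ∧ ∀ y : PN N, dist (pn y) (pn (Projectivization.mk ℂ x hx)) < δ → ∃ x' ∈ U, ∃ h : x' ≠ 0, y = Projectivization.mk ℂ x' h := by
  have hU' : (LE N).symm ⁻¹' U ∈ 𝓝 ((LE N) x) := by
    refine (LE N).symm.continuous.continuousAt.preimage_mem_nhds ?_
    rwa [ContinuousLinearEquiv.symm_apply_apply]
  obtain ⟨δ, hδ, h⟩ := Pool.Agent.H62.EF.near_of_pr (LE_ne hx) hU'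
  refine ⟨δ, hδ, fun y hy => ?_⟩
  rw [pn_mk hx] at hy
  obtain ⟨c, hc, hcU⟩ := h ((LE N) y.rep) (LE_ne y.rep_nonzero) hy
  rw [Set.mem_preimage, map_smul, ContinuousLinearEquiv.symm_apply_apply] at hcU
  have h0 : c • y.rep ≠ 0 := smul_ne_zero hc y.rep_nonzero
  refine ⟨c • y.rep, hcU, h0, ?_⟩
  rw [mk_smul_eq y.rep_nonzero h0, y.mk_rep]

theorem pn_continuousAt {A : Type} [TopologicalSpace A] {φ : A → Fin (N + 1) → ℂ} {a : A} (hφ : ContinuousAt φ a) {f : A → PN N}
    (hf : ∀ᶠ b in 𝓝 a, ∃ h : φ b ≠ 0, f b = Projectivization.mk ℂ (φ b) h) : ContinuousAt (fun b => pn (f b)) a := by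
  obtain ⟨h0, -⟩ := hf.self_of_nhds
  have h1 : ContinuousAt (fun b => pr ((LE N) (φ b))) a :=
    ContinuousAt.comp (g := pr) (f := fun b => (LE N) (φ b)) (Pool.Agent.H62.EF.continuousAt_pr (LE_ne h0))
      ((LE N).continuous.continuousAt.comp hφ)
  refine h1.congr ?_
  filter_upwards [hf] with b hb
  obtain ⟨h, e⟩ := hb
  rw [e, pn_mk h]

theorem pn_continuous {f : ℂ → PN N} (hf : HolomorphicInto f Set.univ) : Continuous fun z => pn (f z) := by
  rw [continuous_iff_continuousAt]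
  intro z
  obtain ⟨φ, h1, h2⟩ := hf z (Set.mem_univ z)
  exact pn_continuousAt h1.continuousAt h2

private theorem isCone_coneE {P : Ideal (MvPolynomial (Fin (N + 1)) ℂ)} (hP : Homog P) :
    Pool.Agent.H14.PP.IsCone (coneE P) where
  zero_notMem h := by
    obtain ⟨h1, -⟩ := (mem_coneE hP).1 h
    exact h1 (map_zero _)
  smul_mem x hx c hc := by
    obtain ⟨h1, h2⟩ := (mem_coneE hP).1 hx
    refine (mem_coneE hP).2 ?_
    have h3 : (LE N).symm (c • x) = c • (LE N).symm x := map_smul _ _ _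
    have h4 : (LE N).symm (c • x) ≠ 0 := by
      rw [h3]
      exact smul_ne_zero hc h1
    refine ⟨h4, ?_⟩
    have h5 : Projectivization.mk ℂ ((LE N).symm (c • x)) h4 = Projectivization.mk ℂ ((LE N).symm x) h1 := by
      rw [Projectivization.mk_eq_mk_iff']
      exact ⟨c, h3.symm⟩
    rw [h5]
    exact h2
  closed := by
    by_cases h0 : ∀ Q ∈ P, eval (0 : Fin (N + 1) → ℂ) Q = 0
    · have e : insert 0 (coneE P) = ⋂ Q ∈ P, {y | eval ((LE N).symm y) Q = 0} := by
        ext y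
        rw [Set.mem_insert_iff, Set.mem_iInter₂]
        constructor
        · rintro (rfl | hy)
          · intro Q hQ
            rw [Set.mem_ofPred_eq, map_zero]
            exact h0 Q hQ
          · intro Q hQ
            exact hy.2 Q hQ
        · intro h
          by_cases hy : (LE N).symm y = 0
          · left
            have := congrArg (LE N) hy
            rwa [ContinuousLinearEquiv.apply_symm_apply, map_zero] at this
          · right
            exact ⟨hy, fun Q hQ => h Q hQ⟩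
      rw [e]
      refine isClosed_biInter fun Q _ => ?_
      refine isClosed_eq ?_ continuous_const
      exact (MvPolynomial.continuous_eval Q).comp (LE N).symm.continuous
    · have e : coneE P = ∅ := by
        rw [Set.eq_empty_iff_forall_notMem]
        intro y hy
        apply h0
        intro Q hQ
        have h1 := hP Q hQ 0
        rw [homogeneousComponent_zero] at h1
        have h2 := hy.2 _ h1
        rw [eval_C] at h2
        have h3 : eval (0 : Fin (N + 1) → ℂ) Q = coeff 0 Q := by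
          rw [← constantCoeff_eq, MvPolynomial.eval_zero]
        rw [h3, h2]
      rw [e]
      simp

theorem isCompact_pn {P : Ideal (MvPolynomial (Fin (N + 1)) ℂ)} (hP : Homog P) : IsCompact (pn '' projVar P) := by
  have e : pn '' projVar P = pr '' coneE P := by
    ext m
    constructor
    · rintro ⟨x, hx, rfl⟩
      refine ⟨(LE N) x.rep, (mem_coneE hP).2 ?_, rfl⟩
      have h1 : (LE N).symm ((LE N) x.rep) = x.rep := ContinuousLinearEquiv.symm_apply_apply _ _
      have h2 : (LE N).symm ((LE N) x.rep) ≠ 0 := by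
        rw [h1]
        exact x.rep_nonzero
      refine ⟨h2, ?_⟩
      have h3 : Projectivization.mk ℂ ((LE N).symm ((LE N) x.rep)) h2 = x := by
        refine Eq.trans ?_ x.mk_rep
        rw [Projectivization.mk_eq_mk_iff']
        exact ⟨1, by rw [one_smul, h1]⟩
      rw [h3]
      exact hx
    · rintro ⟨y, hy, rfl⟩
      obtain ⟨h, h'⟩ := (mem_coneE hP).1 hy
      refine ⟨_, h', ?_⟩
      rw [pn_mk h, ContinuousLinearEquiv.apply_symm_apply]
  rw [e]
  exact Pool.Agent.H62.EF.isCompact_pr (isCone_coneE hP)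

end Pool.Agent.H62.Et

end
end

section

/-!
# Qe Loc: a map which is etale over an open subset is a local homeomorphism over it (adapted from `Pool.Agent.H62.Et.Loc`)
-/

set_option autoImplicit false

open Topology Filter MvPolynomial

noncomputable section

namespace Pool.Agent.H62.Qe

open Pool.Agent.H17 (PN VanishesAt HolomorphicInto)
open Pool.Agent.H62.FC (Homog)
open Pool.Agent.H17EF (projVar LE)
open Pool.Agent.H7.Bir (vals rmap)
open Pool.Agent.H62.EF (MN pr)
open Pool.Agent.H62.SA (locVar)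
open Pool.Agent.H62.Et (pn pn_mk pn_injective pn_near pn_continuousAt pn_continuous isCompact_pn)

variable {N M : ℕ} {P : Ideal (MvPolynomial (Fin (N + 1)) ℂ)} {P' : Ideal (MvPolynomial (Fin (M + 1)) ℂ)} {p : PN M → PN N}

/-- the product of a matrix with a vector -/
private def mA (x₀ : Fin (N + 1) → ℂ) (m : MN N) : Fin (N + 1) → ℂ := fun i => ∑ j, m (i, j) * x₀ j

/-- the scalar product of `x₀` with the product of the matrix with `x₀` -/
private def mB (x₀ : Fin (N + 1) → ℂ) (m : MN N) : ℂ := ∑ i, (starRingEnd ℂ) (x₀ i) * mA x₀ m i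

private def sA (x₀ x : Fin (N + 1) → ℂ) : ℂ := ∑ i, (starRingEnd ℂ) (x₀ i) * x i

private theorem continuous_mA (x₀ : Fin (N + 1) → ℂ) : Continuous (mA x₀) := by
  refine continuous_pi fun i => ?_
  refine continuous_finsetSum _ fun j _ => ?_
  exact (PiLp.continuous_apply 2 _ (i, j)).mul continuous_const

private theorem continuous_mB (x₀ : Fin (N + 1) → ℂ) : Continuous (mB x₀) := by
  refine continuous_finsetSum _ fun i _ => ?_
  exact continuous_const.mul ((continuous_apply i).comp (continuous_mA x₀))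

private theorem sA_self (x : Fin (N + 1) → ℂ) : sA x x = ((‖(LE N) x‖ ^ 2 : ℝ) : ℂ) := by
  rw [EuclideanSpace.norm_sq_eq, sA, Complex.ofReal_sum]
  refine Finset.sum_congr rfl fun i _ => ?_
  rw [Complex.conj_mul']
  push_cast
  rfl

private theorem sA_self_ne {x : Fin (N + 1) → ℂ} (hx : x ≠ 0) : sA x x ≠ 0 := by
  rw [sA_self]
  have h1 : (LE N) x ≠ 0 := fun h => hx ((LE N).map_eq_zero_iff.mp h)
  have h2 : ‖(LE N) x‖ ≠ 0 := norm_ne_zero_iff.mpr h1
  exact_mod_cast pow_ne_zero 2 h2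

private theorem mA_pr (x₀ x : Fin (N + 1) → ℂ) : mA x₀ (pr ((LE N) x)) = (sA x x₀ / sA x x) • x := by
  funext i
  rw [sA_self]
  simp only [mA, Pi.smul_apply, smul_eq_mul]
  rw [div_mul_eq_mul_div, sA, Finset.sum_mul, Finset.sum_div]
  refine Finset.sum_congr rfl fun j _ => ?_
  have h1 : (pr ((LE N) x)) (i, j) = x i * (starRingEnd ℂ) (x j) / ((‖(LE N) x‖ ^ 2 : ℝ) : ℂ) := rfl
  rw [h1]
  ring

private theorem mB_pr (x₀ x : Fin (N + 1) → ℂ) : mB x₀ (pr ((LE N) x)) = sA x x₀ / sA x x * sA x₀ x := by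
  rw [mB, mA_pr]
  rw [show sA x₀ x = ∑ i, (starRingEnd ℂ) (x₀ i) * x i from rfl, Finset.mul_sum]
  refine Finset.sum_congr rfl fun i _ => ?_
  rw [Pi.smul_apply, smul_eq_mul]
  ring

/-- a representative of the line depending continuously on the matrix -/
private theorem exists_nu {x₀ : Fin (N + 1) → ℂ} (hx₀ : x₀ ≠ 0) : ∃ ν : MN N → Fin (N + 1) → ℂ,
    ν (pn (Projectivization.mk ℂ x₀ hx₀)) = x₀ ∧ ∀ᶠ m in 𝓝 (pn (Projectivization.mk ℂ x₀ hx₀)), ContinuousAt ν m ∧
      ∀ y : PN N, pn y = m → ∃ h : ν m ≠ 0, y = Projectivization.mk ℂ (ν m) h := by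
  have hS := sA_self_ne hx₀
  refine ⟨fun m => (sA x₀ x₀ / mB x₀ m) • mA x₀ m, ?_, ?_⟩
  · show (sA x₀ x₀ / mB x₀ _) • mA x₀ _ = x₀
    rw [pn_mk, mA_pr, mB_pr, div_self hS, one_mul, one_smul, div_self hS, one_smul]
  · have h1 : mB x₀ (pn (Projectivization.mk ℂ x₀ hx₀)) ≠ 0 := by
      rw [pn_mk, mB_pr, div_self hS, one_mul]
      exact hS
    filter_upwards [(continuous_mB x₀).continuousAt.eventually_ne h1] with m hm
    refine ⟨?_, fun y hy => ?_⟩
    · exact (continuousAt_const.div (continuous_mB x₀).continuousAt hm).smul (continuous_mA x₀).continuousAt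
    · have h2 : m = pr ((LE N) y.rep) := hy.symm
      have h3 : sA y.rep x₀ / sA y.rep y.rep ≠ 0 := by
        intro h
        rw [h2, mB_pr, h, zero_mul] at hm
        exact hm rfl
      have h5 : (sA x₀ x₀ / mB x₀ m) * (sA y.rep x₀ / sA y.rep y.rep) ≠ 0 := mul_ne_zero (div_ne_zero hS hm) h3
      have h6 : (sA x₀ x₀ / mB x₀ m) • mA x₀ m = ((sA x₀ x₀ / mB x₀ m) * (sA y.rep x₀ / sA y.rep y.rep)) • y.rep := by
        rw [mul_smul, ← mA_pr, ← h2]
      have h7 : (sA x₀ x₀ / mB x₀ m) • mA x₀ m ≠ 0 := by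
        rw [h6]
        exact smul_ne_zero h5 y.rep_nonzero
      refine ⟨h7, ?_⟩
      rw [← Projectivization.mk_rep y, Projectivization.mk_eq_mk_iff']
      refine ⟨((sA x₀ x₀ / mB x₀ m) * (sA y.rep x₀ / sA y.rep y.rep))⁻¹, ?_⟩
      show _ • ((sA x₀ x₀ / mB x₀ m) • mA x₀ m) = _
      rw [h6, smul_smul, inv_mul_cancel₀ h5, one_smul]

/-- the covering as a map of subsets of matrix spaces -/
theorem exists_hat {s s' : ℕ} {G : Fin s → MvPolynomial (Fin (N + 1)) ℂ} {G' : Fin s' → MvPolynomial (Fin (M + 1)) ℂ}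
    (hp : IsEtaleOver P P' G G' p) : ∃ ph : (pn '' projVar P') → (pn '' projVar P),
    (∀ (y : PN M) (hy : y ∈ projVar P'), ph ⟨pn y, Set.mem_image_of_mem pn hy⟩ = ⟨pn (p y), Set.mem_image_of_mem pn (hp.reg.maps y hy)⟩) ∧
      Continuous ph ∧ Function.Surjective ph ∧ ∀ e, (ph e : MN N) ∈ pn '' locVar P G →
        ∃ φ : OpenPartialHomeomorph (pn '' projVar P') (pn '' projVar P), e ∈ φ.source ∧ ph = φ := by
  classical
  -- the point of a matrix
  choose Y hY hYe using fun m : (pn '' projVar P') => m.2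
  have hYpn : ∀ (y : PN M) (hy : y ∈ projVar P'), Y ⟨pn y, Set.mem_image_of_mem pn hy⟩ = y := fun y hy =>
    pn_injective (hYe ⟨pn y, Set.mem_image_of_mem pn hy⟩)
  let ph : (pn '' projVar P') → (pn '' projVar P) := fun m => ⟨pn (p (Y m)), Set.mem_image_of_mem pn (hp.reg.maps _ (hY m))⟩
  have hph : ∀ (y : PN M) (hy : y ∈ projVar P'), ph ⟨pn y, Set.mem_image_of_mem pn hy⟩ = ⟨pn (p y), Set.mem_image_of_mem pn (hp.reg.maps y hy)⟩ := by
    intro y hy
    apply Subtype.ext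
    show pn (p (Y _)) = pn (p y)
    rw [hYpn y hy]
  -- the representatives near a point of the covering
  have hνE : ∀ e : (pn '' projVar P'), ∃ ν : (pn '' projVar P') → Fin (M + 1) → ℂ, ν e = (Y e).rep ∧ ContinuousAt ν e ∧
      ∀ᶠ b in 𝓝 e, ∃ h : ν b ≠ 0, Y b = Projectivization.mk ℂ (ν b) h := by
    intro e
    obtain ⟨ν, h1, h2⟩ := exists_nu (Y e).rep_nonzero
    rw [Projectivization.mk_rep, hYe e] at h1 h2
    refine ⟨fun b => ν b, h1, ?_, ?_⟩
    · exact ContinuousAt.comp (f := Subtype.val) (g := ν) h2.self_of_nhds.1 continuousAt_subtype_val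
    · have h3 : Tendsto (Subtype.val : (pn '' projVar P') → MN M) (𝓝 e) (𝓝 (e : MN M)) := continuousAt_subtype_val
      filter_upwards [h3.eventually h2] with b hb
      exact hb.2 (Y b) (hYe b)
  have hcont : Continuous ph := by
    · -- continuity
      rw [continuous_iff_continuousAt]
      intro e
      rw [Topology.IsInducing.subtypeVal.continuousAt_iff]
      obtain ⟨ν, h1, h2, h3⟩ := hνE e
      obtain ⟨D, γ, hγ, hγ0, hγe⟩ := hp.reg.regular (Y e) (hY e)
      have hc : Continuous fun x : Fin (M + 1) → ℂ => vals γ x := by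
        refine continuous_pi fun i => ?_
        exact MvPolynomial.continuous_eval (γ i)
      have h4 : ContinuousAt (fun b => vals γ (ν b)) e := ContinuousAt.comp (g := vals γ) hc.continuousAt h2
      have h5 : ∀ᶠ b in 𝓝 e, vals γ (ν b) ≠ 0 := h4.eventually_ne (by rw [h1]; exact hγ0)
      refine pn_continuousAt (f := fun b => p (Y b)) h4 ?_
      filter_upwards [h3, h5] with b hb1 hb2
      obtain ⟨hb3, hb4⟩ := hb1
      refine ⟨hb2, ?_⟩
      obtain ⟨a, ha⟩ := Projectivization.exists_smul_eq_mk_rep ℂ (ν b) hb3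
      have h6 : vals γ (Y b).rep ≠ 0 := by
        rw [hb4, ← ha]
        show vals γ ((a : ℂ) • ν b) ≠ 0
        rw [Pool.Agent.H7.Bir.vals_smul hγ]
        exact smul_ne_zero (pow_ne_zero _ a.ne_zero) hb2
      show p (Y b) = _
      rw [hγe (Y b) (hY b) h6, hb4, Pool.Agent.H7.Bir.rmap_mk hγ hb3 hb2]
  refine ⟨ph, hph, hcont, ?_, fun e he => ?_⟩
  rotate_left
  · have heU : Y e ∈ locVar P' G' := by
      refine (hp.inv _ (hY e)).1 ?_
      obtain ⟨x, hx, hxe⟩ := he
      have h1 : x = p (Y e) := pn_injective hxe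
      rw [← h1]
      exact hx
    apply exists_localHomeo hcont
    · -- local injectivity
      obtain ⟨ν, h1, h2, h3⟩ := hνE e
      have hmem : Projectivization.mk ℂ (Y e).rep (Y e).rep_nonzero ∈ locVar P' G' := by
        rw [Projectivization.mk_rep]
        exact heU
      have h4 := hp.locInj (Y e).rep (Y e).rep_nonzero hmem
      have h5 : Tendsto (fun q : (pn '' projVar P') × (pn '' projVar P') => (ν q.1, ν q.2)) (𝓝 (e, e)) (𝓝 ((Y e).rep, (Y e).rep)) := by
        have h6 : ContinuousAt (fun q : (pn '' projVar P') × (pn '' projVar P') => (ν q.1, ν q.2)) (e, e) := by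
          refine ContinuousAt.prodMk ?_ ?_
          · exact ContinuousAt.comp (f := Prod.fst) (g := ν) (x := (e, e)) h2 continuousAt_fst
          · exact ContinuousAt.comp (f := Prod.snd) (g := ν) (x := (e, e)) h2 continuousAt_snd
        have h7 := h6.tendsto
        simp only [h1] at h7
        exact h7
      have h8 : ∀ᶠ q : (pn '' projVar P') × (pn '' projVar P') in 𝓝 (e, e), ∃ h : ν q.1 ≠ 0, Y q.1 = Projectivization.mk ℂ (ν q.1) h :=
        (continuousAt_fst (p := ((e, e) : (pn '' projVar P') × (pn '' projVar P')))).tendsto.eventually h3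
      have h9 : ∀ᶠ q : (pn '' projVar P') × (pn '' projVar P') in 𝓝 (e, e), ∃ h : ν q.2 ≠ 0, Y q.2 = Projectivization.mk ℂ (ν q.2) h :=
        (continuousAt_snd (p := ((e, e) : (pn '' projVar P') × (pn '' projVar P')))).tendsto.eventually h3
      filter_upwards [h5.eventually h4, h8, h9] with q hq1 hq2 hq3 hq4
      obtain ⟨h10, h11⟩ := hq2
      obtain ⟨h12, h13⟩ := hq3
      have h14 : p (Y q.1) = p (Y q.2) := pn_injective (congrArg Subtype.val hq4)
      have h15 := hq1 h10 h12 (by rw [← h11]; exact hY q.1) (by rw [← h13]; exact hY q.2) (by rw [← h11, ← h13]; exact h14)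
      apply Subtype.ext
      rw [← hYe q.1, ← hYe q.2, h11, h13]
      exact congrArg pn h15
    · -- sections
      have hmem : Projectivization.mk ℂ (Y e).rep (Y e).rep_nonzero ∈ locVar P' G' := by
        rw [Projectivization.mk_rep]
        exact heU
      obtain ⟨x, hx, τ, h1, h2, h3, h4⟩ := hp.locSec (Y e).rep (Y e).rep_nonzero hmem
      rw [Projectivization.mk_rep] at h1
      obtain ⟨ν, h5, h6⟩ := exists_nu hx
      rw [← h1] at h5 h6
      -- near the image
      have hpe : (ph e : MN N) = pn (p (Y e)) := rfl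
      have h7 : ∀ᶠ m in 𝓝 (ph e : MN N), ContinuousAt ν m ∧ (∀ y : PN N, pn y = m → ∃ h : ν m ≠ 0, y = Projectivization.mk ℂ (ν m) h) ∧
          ContinuousAt τ (ν m) ∧ ∀ h : ν m ≠ 0, Projectivization.mk ℂ (ν m) h ∈ projVar P →
            ∃ h' : τ (ν m) ≠ 0, Projectivization.mk ℂ (τ (ν m)) h' ∈ projVar P' ∧ p (Projectivization.mk ℂ (τ (ν m)) h') = Projectivization.mk ℂ (ν m) h := by
        rw [hpe]
        have h8 : Tendsto ν (𝓝 (pn (p (Y e)))) (𝓝 x) := by
          have := h6.self_of_nhds.1.tendsto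
          rw [h5] at this
          exact this
        filter_upwards [h6, h8.eventually h2.eventually_analyticAt, h8.eventually h4] with m hm1 hm2 hm3
        exact ⟨hm1.1, hm1.2, hm2.continuousAt, hm3⟩
      -- the statement for the points of the image
      have h8 : ∀ᶠ b in 𝓝 (ph e), ContinuousAt (fun b : (pn '' projVar P) => τ (ν b)) b ∧
          ∃ h' : τ (ν b) ≠ 0, Projectivization.mk ℂ (τ (ν b)) h' ∈ projVar P' ∧ pn (p (Projectivization.mk ℂ (τ (ν b)) h')) = b := by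
        have h9 : Tendsto (Subtype.val : (pn '' projVar P) → MN N) (𝓝 (ph e)) (𝓝 (ph e : MN N)) := continuousAt_subtype_val
        filter_upwards [h9.eventually h7] with b hb
        obtain ⟨hb1, hb2, hb3, hb4⟩ := hb
        obtain ⟨y, hy, hyb⟩ := b.2
        obtain ⟨hb5, hb6⟩ := hb2 y hyb
        obtain ⟨hb7, hb8, hb9⟩ := hb4 hb5 (by rw [← hb6]; exact hy)
        refine ⟨?_, hb7, hb8, ?_⟩
        · have hb10 : ContinuousAt (fun b : (pn '' projVar P) => ν b) b := ContinuousAt.comp (f := Subtype.val) (g := ν) hb1 continuousAt_subtype_val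
          exact ContinuousAt.comp (f := fun b : (pn '' projVar P) => ν b) (g := τ) hb3 hb10
        · rw [hb9, ← hb6]
          exact hyb
      -- the section
      let s : (pn '' projVar P) → (pn '' projVar P') := fun b =>
        if h : ∃ h' : τ (ν b) ≠ 0, Projectivization.mk ℂ (τ (ν b)) h' ∈ projVar P' then
          ⟨pn (Projectivization.mk ℂ (τ (ν b)) h.choose), Set.mem_image_of_mem pn h.choose_spec⟩ else e
      have hs : ∀ b : (pn '' projVar P), ∀ (h : τ (ν b) ≠ 0) (h' : Projectivization.mk ℂ (τ (ν b)) h ∈ projVar P'),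
          s b = ⟨pn (Projectivization.mk ℂ (τ (ν b)) h), Set.mem_image_of_mem pn h'⟩ := by
        intro b h h'
        simp only [s]
        rw [dif_pos ⟨h, h'⟩]
      refine ⟨s, ?_, ?_⟩
      · have h10 : τ (ν (ph e)) = (Y e).rep := by
          rw [hpe, h5, h3]
        have h11 : τ (ν (ph e)) ≠ 0 := by
          rw [h10]
          exact (Y e).rep_nonzero
        have h12 : Projectivization.mk ℂ (τ (ν (ph e))) h11 = Y e := by
          rw [← Projectivization.mk_rep (Y e), Projectivization.mk_eq_mk_iff']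
          exact ⟨1, by rw [one_smul, h10]⟩
        rw [hs (ph e) h11 (by rw [h12]; exact hY e)]
        apply Subtype.ext
        show pn _ = (e : MN M)
        rw [h12, hYe e]
      · filter_upwards [h8.eventually_nhds] with b hb
        refine ⟨?_, ?_⟩
        · rw [Topology.IsInducing.subtypeVal.continuousAt_iff]
          obtain ⟨hb1, hb2, hb3, hb4⟩ := hb.self_of_nhds
          let F : (pn '' projVar P) → PN M := fun b' =>
            if h : ∃ h' : τ (ν b') ≠ 0, Projectivization.mk ℂ (τ (ν b')) h' ∈ projVar P' then Projectivization.mk ℂ (τ (ν b')) h.choose else Y e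
          have hF : (Subtype.val ∘ s) = fun b' => pn (F b') := by
            funext b'
            simp only [Function.comp, s, F]
            split_ifs with h
            · rfl
            · exact (hYe e).symm
          rw [hF]
          refine pn_continuousAt hb1 ?_
          filter_upwards [hb] with b' hb'
          obtain ⟨hb5, hb6, hb7, hb8⟩ := hb'
          refine ⟨hb6, ?_⟩
          simp only [F]
          rw [dif_pos ⟨hb6, hb7⟩]
        · obtain ⟨hb1, hb2, hb3, hb4⟩ := hb.self_of_nhds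
          rw [hs b hb2 hb3, hph _ hb3]
          apply Subtype.ext
          exact hb4
  · rintro ⟨m, x, hx, rfl⟩
    obtain ⟨y, hy, hyx⟩ := hp.reg.surj x hx
    refine ⟨⟨pn y, Set.mem_image_of_mem pn hy⟩, ?_⟩
    rw [hph y hy]
    apply Subtype.ext
    show pn (p y) = pn x
    rw [hyx]

end Pool.Agent.H62.Qe

end
end

section

/-!
# Qe Lift: entire curves and holomorphic maps of the punctured disc in `U` lift to a covering which is etale over `U`
-/

set_option autoImplicit false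

open Topology Filter MvPolynomial

noncomputable section

namespace Pool.Agent.H62.Qe

open Pool.Agent.H17 (PN VanishesAt HolomorphicInto puncturedDisc)
open Pool.Agent.H62.FC (Homog)
open Pool.Agent.H17EF (projVar)
open Pool.Agent.H62.EF (MN)
open Pool.Agent.H62.SA (locVar)
open Pool.Agent.H62.Et (pn pn_mk pn_injective pn_near pn_continuousAt pn_continuous isCompact_pn)

variable {N M : ℕ} {P : Ideal (MvPolynomial (Fin (N + 1)) ℂ)} {P' : Ideal (MvPolynomial (Fin (M + 1)) ℂ)} {p : PN M → PN N}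
  {s s' : ℕ} {G : Fin s → MvPolynomial (Fin (N + 1)) ℂ} {G' : Fin s' → MvPolynomial (Fin (M + 1)) ℂ}

/-- a continuous lift of a holomorphic map is holomorphic -/
theorem holomorphicAt_of_continuousAt (hp : IsEtaleOver P P' G G' p) {f : ℂ → PN N} {z₀ : ℂ}
    (hf : ∃ φ : ℂ → Fin (N + 1) → ℂ, AnalyticAt ℂ φ z₀ ∧ ∀ᶠ z in 𝓝 z₀, ∃ h : φ z ≠ 0, f z = Projectivization.mk ℂ (φ z) h)
    {g : ℂ → PN M} (hg : ContinuousAt (fun z => pn (g z)) z₀) (hgU : g z₀ ∈ locVar P' G') (hgX : ∀ᶠ z in 𝓝 z₀, g z ∈ projVar P')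
    (hgf : ∀ᶠ z in 𝓝 z₀, p (g z) = f z) :
    ∃ φ : ℂ → Fin (M + 1) → ℂ, AnalyticAt ℂ φ z₀ ∧ ∀ᶠ z in 𝓝 z₀, ∃ h : φ z ≠ 0, g z = Projectivization.mk ℂ (φ z) h := by
  have hy₀ : (g z₀).rep ≠ 0 := Projectivization.rep_nonzero _
  have hmk : Projectivization.mk ℂ (g z₀).rep hy₀ = g z₀ := Projectivization.mk_rep _
  obtain ⟨x, hx, τ, h1, hτ, hτx, hsec⟩ := hp.locSec (g z₀).rep hy₀ (by rw [hmk]; exact hgU)
  obtain ⟨φ, hφ, hφf⟩ := hf
  obtain ⟨hφ0, hφz⟩ := hφf.self_of_nhds
  have h2 : Projectivization.mk ℂ x hx = Projectivization.mk ℂ (φ z₀) hφ0 := by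
    rw [← h1, hmk, hgf.self_of_nhds, hφz]
  rw [Projectivization.mk_eq_mk_iff'] at h2
  obtain ⟨c, hc⟩ := h2
  have hc0 : c ≠ 0 := by
    rintro rfl
    rw [zero_smul] at hc
    exact hx hc.symm
  have hφ' : AnalyticAt ℂ (fun z => c • φ z) z₀ := AnalyticAt.fun_const_smul hφ
  have hφc : Tendsto (fun z => c • φ z) (𝓝 z₀) (𝓝 x) := by
    have h3 := hφ'.continuousAt.tendsto
    rwa [hc] at h3
  have hτc : Tendsto (fun z => τ (c • φ z)) (𝓝 z₀) (𝓝 (g z₀).rep) := by
    have h3 := hτ.continuousAt.tendsto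
    rw [hτx] at h3
    exact h3.comp hφc
  refine ⟨fun z => τ (c • φ z), ?_, ?_⟩
  · exact hτ.fun_comp_of_eq hφ' hc
  · have hinj := hp.locInj (g z₀).rep hy₀ (by rw [hmk]; exact hgU)
    rw [nhds_prod_eq, Filter.eventually_iff, Filter.mem_prod_self_iff] at hinj
    obtain ⟨U, hU, hUU⟩ := hinj
    obtain ⟨δ, hδ, hnear⟩ := pn_near hy₀ hU
    rw [hmk] at hnear
    have h4 : ∀ᶠ z in 𝓝 z₀, dist (pn (g z)) (pn (g z₀)) < δ :=
      hg.tendsto.eventually (Metric.ball_mem_nhds _ hδ)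
    filter_upwards [hφf, hφc.eventually hsec, hτc.eventually hU, h4, hgX, hgf] with z h5 h6 h7 h8 hXz hfz
    obtain ⟨h9, h10⟩ := h5
    have h11 : c • φ z ≠ 0 := smul_ne_zero hc0 h9
    have h12 : Projectivization.mk ℂ (c • φ z) h11 = f z := by
      rw [h10, Projectivization.mk_eq_mk_iff']
      exact ⟨c, rfl⟩
    obtain ⟨h13, h14, h15⟩ := h6 h11 (by rw [h12, ← hfz]; exact hp.reg.maps _ hXz)
    obtain ⟨x', hx'U, hx', hx'g⟩ := hnear (g z) h8
    refine ⟨h13, ?_⟩
    rw [hx'g]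
    refine hUU (Set.mk_mem_prod hx'U h7) hx' h13 ?_ h14 ?_
    · rw [← hx'g]
      exact hXz
    · rw [← hx'g, hfz, h15, h12]

theorem lift_entire (hP' : Homog P') (hp : IsEtaleOver P P' G G' p) {f : ℂ → PN N} (hf : HolomorphicInto f Set.univ)
    (hfU : ∀ z, f z ∈ locVar P G) : ∃ g : ℂ → PN M, HolomorphicInto g Set.univ ∧ (∀ z, g z ∈ locVar P' G') ∧ ∀ z, p (g z) = f z := by
  obtain ⟨ph, hph, hcont, hsurj, hloc⟩ := exists_hat hp
  have : CompactSpace (pn '' projVar P') := isCompact_iff_compactSpace.mp (isCompact_pn hP')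
  have hfc : Continuous fun z : ℂ => (⟨pn (f z), Set.mem_image_of_mem pn (hfU z).1⟩ : pn '' projVar P) :=
    Continuous.subtype_mk (pn_continuous hf) _
  obtain ⟨e₀, he₀⟩ := hsurj ⟨pn (f 0), Set.mem_image_of_mem pn (hfU 0).1⟩
  obtain ⟨g₁, hg₁, -, hg₁f⟩ := exists_lift_plane (s := {b : pn '' projVar P | (b : MN N) ∈ pn '' locVar P G}) hcont hloc hfc
    (fun z => Set.mem_image_of_mem pn (hfU z)) he₀
  have hex : ∀ z : ℂ, ∃ y : PN M, y ∈ projVar P' ∧ pn y = (g₁ z : MN M) := fun z => (g₁ z).2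
  choose g hgX hgG using hex
  have hgf : ∀ z, p (g z) = f z := by
    intro z
    apply pn_injective
    have h1 := hph (g z) (hgX z)
    have h2 : (⟨pn (g z), Set.mem_image_of_mem pn (hgX z)⟩ : pn '' projVar P') = g₁ z := Subtype.ext (hgG z)
    rw [h2, hg₁f z] at h1
    exact (congrArg Subtype.val h1).symm
  have hgU : ∀ z, g z ∈ locVar P' G' := fun z => (hp.inv _ (hgX z)).1 (by rw [hgf z]; exact hfU z)
  have hgc : Continuous fun z => pn (g z) := by
    have h3 : (fun z => pn (g z)) = fun z => (g₁ z : MN M) := funext hgG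
    rw [h3]
    exact continuous_subtype_val.comp hg₁
  exact ⟨g, fun z₀ _ => holomorphicAt_of_continuousAt hp (hf z₀ (Set.mem_univ _)) hgc.continuousAt (hgU z₀) (Eventually.of_forall hgX)
    (Eventually.of_forall hgf), hgU, hgf⟩

/-- the homeomorphism of the plane onto the left half plane -/
private def hp1 (w : ℂ) : ℂ := -Real.exp w.re + w.im * Complex.I

private def hp2 (v : ℂ) : ℂ := Real.log (-v.re) + v.im * Complex.I

private theorem hp1_re (w : ℂ) : (hp1 w).re = -Real.exp w.re := by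
  unfold hp1
  rw [Complex.add_re, Complex.neg_re, Complex.ofReal_re, Complex.re_ofReal_mul, Complex.I_re, mul_zero, add_zero]

private theorem hp1_im (w : ℂ) : (hp1 w).im = w.im := by
  unfold hp1
  rw [Complex.add_im, Complex.neg_im, Complex.ofReal_im, Complex.im_ofReal_mul, Complex.I_im, mul_one, neg_zero, zero_add]

private theorem hp1_hp2 {v : ℂ} (hv : v.re < 0) : hp1 (hp2 v) = v := by
  have h1 : (hp2 v).re = Real.log (-v.re) := by
    unfold hp2
    rw [Complex.add_re, Complex.ofReal_re, Complex.re_ofReal_mul, Complex.I_re, mul_zero, add_zero]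
  have h2 : (hp2 v).im = v.im := by
    unfold hp2
    rw [Complex.add_im, Complex.ofReal_im, Complex.im_ofReal_mul, Complex.I_im, mul_one, zero_add]
  apply Complex.ext
  · rw [hp1_re, h1, Real.exp_log (by linarith), neg_neg]
  · rw [hp1_im, h2]

private theorem hp1_add (w : ℂ) : hp1 (w + 2 * Real.pi * Complex.I) = hp1 w + 2 * Real.pi * Complex.I := by
  have h1 : (2 * Real.pi * Complex.I : ℂ).re = 0 := by simp
  apply Complex.ext
  · rw [hp1_re, Complex.add_re, Complex.add_re, h1, hp1_re, add_zero, add_zero]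
  · rw [hp1_im, Complex.add_im, Complex.add_im, hp1_im]

private theorem hp2_add (v : ℂ) (n : ℤ) : hp2 (v + n * (2 * Real.pi * Complex.I)) = hp2 v + n * (2 * Real.pi * Complex.I) := by
  have h1 : (n * (2 * Real.pi * Complex.I) : ℂ).re = 0 := by simp
  unfold hp2
  rw [Complex.add_re, h1, add_zero, Complex.add_im]
  push_cast
  have h2 : (((n * (2 * Real.pi * Complex.I) : ℂ).im : ℝ) : ℂ) * Complex.I = n * (2 * Real.pi * Complex.I) := by
    have h3 := Complex.re_add_im (n * (2 * Real.pi * Complex.I) : ℂ)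
    rw [h1, Complex.ofReal_zero, zero_add] at h3
    exact h3
  rw [add_mul, h2]
  ring

private theorem continuous_hp1 : Continuous hp1 := by
  unfold hp1
  fun_prop

private theorem continuousAt_hp2 {v : ℂ} (hv : v.re < 0) : ContinuousAt hp2 v := by
  unfold hp2
  refine ContinuousAt.add ?_ ?_
  · refine Complex.continuous_ofReal.continuousAt.comp ?_
    refine ContinuousAt.comp (f := fun v : ℂ => -v.re) (g := Real.log) (Real.continuousAt_log (by linarith)) ?_
    fun_prop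
  · fun_prop

theorem pn_continuousOn {f : ℂ → PN N} {D : Set ℂ} (hf : HolomorphicInto f D) {z : ℂ} (hz : z ∈ D) : ContinuousAt (fun z => pn (f z)) z := by
  obtain ⟨φ, h1, h2⟩ := hf z hz
  exact pn_continuousAt h1.continuousAt h2

private theorem exp_mem {v : ℂ} (hv : v.re < 0) : Complex.exp v ∈ puncturedDisc := by
  refine ⟨?_, Complex.exp_ne_zero v⟩
  rw [mem_ball_zero_iff, Complex.norm_exp]
  exact Real.exp_lt_one_iff.2 hv

theorem lift_punctured (hP' : Homog P') (hp : IsEtaleOver P P' G G' p) {f : ℂ → PN N} (hf : HolomorphicInto f puncturedDisc)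
    (hfU : ∀ z ∈ puncturedDisc, f z ∈ locVar P G) : ∃ (k : ℕ) (g : ℂ → PN M), 1 ≤ k ∧ HolomorphicInto g puncturedDisc ∧
      (∀ z ∈ puncturedDisc, g z ∈ locVar P' G') ∧ ∀ z ∈ puncturedDisc, p (g z) = f (z ^ k) := by
  obtain ⟨ph, hph, hcont, hsurj, hloc⟩ := exists_hat hp
  have : CompactSpace (pn '' projVar P') := isCompact_iff_compactSpace.mp (isCompact_pn hP')
  have hneg : ∀ w, (hp1 w).re < 0 := fun w => by
    rw [hp1_re]
    exact neg_lt_zero.2 (Real.exp_pos _)
  have hmem : ∀ w, Complex.exp (hp1 w) ∈ puncturedDisc := fun w => exp_mem (hneg w)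
  have hFc : Continuous fun w : ℂ => pn (f (Complex.exp (hp1 w))) := by
    rw [continuous_iff_continuousAt]
    intro w
    exact ContinuousAt.comp (g := fun z => pn (f z)) (f := fun w => Complex.exp (hp1 w)) (pn_continuousOn hf (hmem w))
      (Complex.continuous_exp.comp continuous_hp1).continuousAt
  have hfc : Continuous fun w : ℂ => (⟨pn (f (Complex.exp (hp1 w))), Set.mem_image_of_mem pn (hfU _ (hmem w)).1⟩ : pn '' projVar P) :=
    Continuous.subtype_mk hFc _
  have hper : ∀ w : ℂ, (⟨pn (f (Complex.exp (hp1 (w + 2 * Real.pi * Complex.I)))), Set.mem_image_of_mem pn (hfU _ (hmem _)).1⟩ : pn '' projVar P) =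
      ⟨pn (f (Complex.exp (hp1 w))), Set.mem_image_of_mem pn (hfU _ (hmem w)).1⟩ := by
    intro w
    apply Subtype.ext
    show pn (f (Complex.exp (hp1 (w + 2 * Real.pi * Complex.I)))) = pn (f (Complex.exp (hp1 w)))
    rw [hp1_add, Complex.exp_periodic]
  obtain ⟨g₁, k, hg₁, hg₁f, hk, hg₁k⟩ := exists_lift_periodic (s := {b : pn '' projVar P | (b : MN N) ∈ pn '' locVar P G}) hcont hsurj hloc hfc
    (fun w => Set.mem_image_of_mem pn (hfU _ (hmem w))) hper
  have hg₁p : ∀ (n : ℤ) (w : ℂ), g₁ (w + n * (k * (2 * Real.pi * Complex.I))) = g₁ w := fun n w =>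
    Function.Periodic.int_mul (f := g₁) (c := k * (2 * Real.pi * Complex.I)) hg₁k n w
  have hex : ∀ w : ℂ, ∃ y : PN M, y ∈ projVar P' ∧ pn y = (g₁ w : MN M) := fun w => (g₁ w).2
  choose g₂ hg₂X hg₂G using hex
  have hg₂f : ∀ w, p (g₂ w) = f (Complex.exp (hp1 w)) := by
    intro w
    apply pn_injective
    have h1 := hph (g₂ w) (hg₂X w)
    have h2 : (⟨pn (g₂ w), Set.mem_image_of_mem pn (hg₂X w)⟩ : pn '' projVar P') = g₁ w := Subtype.ext (hg₂G w)
    rw [h2, hg₁f w] at h1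
    exact (congrArg Subtype.val h1).symm
  have hkr : (0 : ℝ) < k := by exact_mod_cast hk
  have hre : ∀ z ∈ puncturedDisc, (k * Complex.log z).re < 0 := by
    intro z hz
    have h1 : (k * Complex.log z).re = k * Real.log ‖z‖ := by
      rw [← Complex.ofReal_natCast, Complex.re_ofReal_mul, Complex.log_re]
    rw [h1]
    have h2 : ‖z‖ < 1 := by
      rw [← mem_ball_zero_iff]
      exact hz.1
    have h3 : 0 < ‖z‖ := norm_pos_iff.2 hz.2
    exact mul_neg_of_pos_of_neg hkr (Real.log_neg h3 h2)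
  have hgX : ∀ z, g₂ (hp2 (k * Complex.log z)) ∈ projVar P' := fun z => hg₂X _
  have hgf : ∀ z ∈ puncturedDisc, p (g₂ (hp2 (k * Complex.log z))) = f (z ^ k) := by
    intro z hz
    rw [hg₂f, hp1_hp2 (hre z hz), Complex.exp_nat_mul, Complex.exp_log hz.2]
  have hpow : ∀ z ∈ puncturedDisc, z ^ k ∈ puncturedDisc := by
    intro z hz
    refine ⟨?_, pow_ne_zero k hz.2⟩
    rw [mem_ball_zero_iff, norm_pow]
    exact pow_lt_one₀ (norm_nonneg z) (by rw [← mem_ball_zero_iff]; exact hz.1) (by omega)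
  have hgU : ∀ z ∈ puncturedDisc, g₂ (hp2 (k * Complex.log z)) ∈ locVar P' G' := fun z hz =>
    (hp.inv _ (hgX z)).1 (by rw [hgf z hz]; exact hfU _ (hpow z hz))
  have hopen : IsOpen puncturedDisc := Metric.isOpen_ball.sdiff isClosed_singleton
  refine ⟨k, fun z => g₂ (hp2 (k * Complex.log z)), hk, fun z₀ hz₀ => ?_, hgU, hgf⟩
  have hz0 : z₀ ≠ 0 := hz₀.2
  refine holomorphicAt_of_continuousAt hp (f := fun z => f (z ^ k)) ?_ ?_ (hgU z₀ hz₀) (Eventually.of_forall hgX) ?_
  · obtain ⟨φ, h1, h2⟩ := hf (z₀ ^ k) (hpow z₀ hz₀)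
    have h3 : AnalyticAt ℂ (fun z : ℂ => z ^ k) z₀ := analyticAt_id.pow k
    exact ⟨fun z => φ (z ^ k), AnalyticAt.comp (g := φ) (f := fun z : ℂ => z ^ k) h1 h3, h3.continuousAt.tendsto.eventually h2⟩
  · -- continuity
    have h1 : (fun z => pn (g₂ (hp2 (k * Complex.log z)))) = fun z => (g₁ (hp2 (k * Complex.log z)) : MN M) := funext fun z => hg₂G _
    rw [h1]
    have h2 : ContinuousAt (fun z => (g₁ (hp2 (k * (Complex.log (z / z₀) + Complex.log z₀))) : MN M)) z₀ := by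
      have h3 : ContinuousAt (fun z : ℂ => k * (Complex.log (z / z₀) + Complex.log z₀)) z₀ := by
        refine continuousAt_const.mul (ContinuousAt.add ?_ continuousAt_const)
        refine ContinuousAt.clog ?_ ?_
        · exact continuousAt_id.div continuousAt_const hz0
        · rw [div_self hz0]
          exact Complex.one_mem_slitPlane
      have h4 : (k * (Complex.log (z₀ / z₀) + Complex.log z₀)).re < 0 := by
        rw [div_self hz0, Complex.log_one, zero_add]
        exact hre z₀ hz₀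
      have h5 : ContinuousAt (fun z : ℂ => hp2 (k * (Complex.log (z / z₀) + Complex.log z₀))) z₀ :=
        ContinuousAt.comp (g := hp2) (f := fun z : ℂ => k * (Complex.log (z / z₀) + Complex.log z₀)) (continuousAt_hp2 h4) h3
      exact ContinuousAt.comp (g := fun w => (g₁ w : MN M)) (f := fun z : ℂ => hp2 (k * (Complex.log (z / z₀) + Complex.log z₀)))
        (continuous_subtype_val.comp hg₁).continuousAt h5
    refine h2.congr ?_
    filter_upwards [isOpen_ne.mem_nhds hz0] with z hz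
    have hz' : z ≠ 0 := hz
    have h3 : Complex.exp (Complex.log (z / z₀) + Complex.log z₀) = Complex.exp (Complex.log z) := by
      rw [Complex.exp_add, Complex.exp_log (div_ne_zero hz' hz0), Complex.exp_log hz0, Complex.exp_log hz', div_mul_cancel₀ _ hz0]
    obtain ⟨n, hn⟩ := Complex.exp_eq_exp_iff_exists_int.1 h3
    rw [hn, mul_add]
    have h4 : (k : ℂ) * (n * (2 * Real.pi * Complex.I)) = ((k * n : ℤ) : ℂ) * (2 * Real.pi * Complex.I) := by
      push_cast
      ring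
    rw [h4, hp2_add]
    have h5 : ((k * n : ℤ) : ℂ) * (2 * Real.pi * Complex.I) = n * (k * (2 * Real.pi * Complex.I)) := by
      push_cast
      ring
    rw [h5, hg₁p]
  · filter_upwards [hopen.mem_nhds hz₀] with z hz
    exact hgf z hz

end Pool.Agent.H62.Qe

end
end
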