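import Pool.Agent.H94.G5T.M24
import Pool.Agent.H94.G5T.M75

/-! The parts of this file: G3.R.HolD, G4.A.HPa. -/

section

/-!
# G3 R HolD: sheets over the whole space are complex differentiable on complex lines off `D`

`sheet_dif` (see `G3/R/Hol`).  `nv_lip`: the charts `nv v` are Lipschitz near `pr v`, uniformly in `v`.  `dq_hol`: difference quotients of holomorphic functions converge uniformly.
`dq_bd`: difference quotients of `Ψ (nv v (φ (y₀ + x a)))` are bounded by `C exp (-c |x|²)` (`exists_prm_unif`, `sheet_lip`).  `dq_lim`: `comb_lim` for three points.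
-/

set_option autoImplicit false

open Topology Filter Metric

namespace Pool.Agent.G3.R

open Pool.Agent.H36.BP (EN fs wd)
open Pool.Agent.H14.PP (IsCone CurveAt Tan)
open Pool.Agent.H62.EF (MN pr)
open Pool.Agent.AD (Vd Chart Charts IsGerm)
open Pool.Agent.TG
open Pool.Agent.G3.C (Gc nv nd nv_pr)
open Pool.Agent.G3.A

variable {N k : ℕ} {X : Set (EN N)} {Λ : AddSubgroup (Vd (k + 1))} {u : EN N → Vd (k + 1)} {D B Bad : Set (Vd (k + 1))} {a b : Vd (k + 1)}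
  {SS : Set (Vd (k + 1) → MN N)} {J : ℕ} {α : Fin J → VForm X Λ u} {c₀ C₀ ρ δ : ℝ}

/-! ### the charts `nv v` are Lipschitz -/

/-- the matrix `m` applied to `v` -/
private noncomputable def mv (v : EN N) (m : MN N) : EN N := WithLp.toLp 2 fun i => ∑ j, m (i, j) * v j

private theorem nv_eq (v : EN N) (m : MN N) : nv v m = (nd v m)⁻¹ • mv v m := rfl

private theorem mv_sub (v : EN N) (m m' : MN N) : mv v (m - m') = mv v m - mv v m' := by
  ext i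
  simp only [mv, PiLp.sub_apply, sub_mul, Finset.sum_sub_distrib]

private theorem mv_norm (v : EN N) (m : MN N) : ‖mv v m‖ ≤ ‖m‖ * ‖v‖ := by
  have h1 : ‖mv v m‖ ^ 2 ≤ (‖m‖ * ‖v‖) ^ 2 := by
    rw [EuclideanSpace.norm_sq_eq, mul_pow, EuclideanSpace.norm_sq_eq m, EuclideanSpace.norm_sq_eq v, Fintype.sum_prod_type, Finset.sum_mul]
    refine Finset.sum_le_sum fun i _ => ?_
    have h2 : ‖(mv v m) i‖ ≤ ∑ j, ‖m (i, j)‖ * ‖v j‖ := by
      show ‖∑ j, m (i, j) * v j‖ ≤ _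
      refine (norm_sum_le _ _).trans (le_of_eq ?_)
      exact Finset.sum_congr rfl fun j _ => norm_mul _ _
    calc ‖(mv v m) i‖ ^ 2 ≤ (∑ j, ‖m (i, j)‖ * ‖v j‖) ^ 2 := pow_le_pow_left₀ (norm_nonneg _) h2 2
      _ ≤ (∑ j, ‖m (i, j)‖ ^ 2) * ∑ j, ‖v j‖ ^ 2 := Finset.sum_mul_sq_le_sq_mul_sq _ _ _
  exact (pow_le_pow_iff_left₀ (norm_nonneg _) (by positivity) two_ne_zero).1 h1

private theorem nd_sub (v : EN N) (m m' : MN N) : nd v (m - m') = nd v m - nd v m' := by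
  simp only [nd, PiLp.sub_apply, mul_sub, sub_mul, Finset.sum_sub_distrib]

private theorem nd_eq (v : EN N) (m : MN N) : nd v m = inner ℂ v (mv v m) := by
  rw [PiLp.inner_apply]
  unfold nd mv
  refine Finset.sum_congr rfl fun i _ => ?_
  rw [RCLike.inner_apply, Finset.sum_mul]
  exact Finset.sum_congr rfl fun j _ => by ring

private theorem nd_norm (v : EN N) (m : MN N) : ‖nd v m‖ ≤ ‖v‖ * (‖m‖ * ‖v‖) := by
  rw [nd_eq]
  exact (norm_inner_le_norm _ _).trans (mul_le_mul_of_nonneg_left (mv_norm v m) (norm_nonneg _))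

private theorem nd_self {v : EN N} (hv : ‖v‖ = 1) : nd v (pr v) = 1 := by
  have hv0 : v ≠ 0 := by
    rintro rfl
    simp at hv
  have hi : inner ℂ v v = (1 : ℂ) := by
    rw [inner_self_eq_norm_sq_to_K, hv]
    simp
  have h1 : nv v (pr v) = v := nv_self hv
  have h2 : nd v (pr v) ≠ 0 := (Pool.Agent.G3.C.nd_pr_ne hv0).2 (by rw [hi]; exact one_ne_zero)
  have h3 : inner ℂ v (nv v (pr v)) = (1 : ℂ) := by rw [h1, hi]
  rw [nv_eq, inner_smul_right, ← nd_eq] at h3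
  rw [inv_mul_cancel₀ h2] at h3
  have h4 : mv v (pr v) = v := by
    ext i
    show ∑ j, pr v (i, j) * v j = v i
    have h5 : ∀ j, pr v (i, j) * v j = v i * ((starRingEnd ℂ) (v j) * v j) := by
      intro j
      simp only [pr, hv, one_pow, Complex.ofReal_one, div_one]
      ring
    rw [Finset.sum_congr rfl fun j _ => h5 j, ← Finset.mul_sum]
    have h6 : ∑ j, (starRingEnd ℂ) (v j) * v j = (1 : ℂ) := by
      rw [← hi, PiLp.inner_apply]
      refine Finset.sum_congr rfl fun j _ => ?_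
      rw [RCLike.inner_apply]
      ring
    rw [h6, mul_one]
  rw [nd_eq, h4, hi]

/-- the charts `nv v` are Lipschitz near `pr v`, uniformly in `v` -/
theorem nv_lip {v : EN N} (hv : ‖v‖ = 1) {m m' : MN N} (hm : dist m (pr v) ≤ 1 / 2) (hm' : dist m' (pr v) ≤ 1 / 2) : ‖nv v m - nv v m'‖ ≤ 10 * dist m m' := by
  have hv0 : v ≠ 0 := by
    rintro rfl
    simp at hv
  have hp : ‖pr v‖ = 1 := Pool.Agent.H62.EF.norm_pr hv0
  have hnd : ∀ n : MN N, dist n (pr v) ≤ 1 / 2 → 1 / 2 ≤ ‖nd v n‖ := by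
    intro n hn
    have h1 : ‖nd v (n - pr v)‖ ≤ 1 / 2 := by
      have h2 := nd_norm v (n - pr v)
      rw [hv, one_mul, mul_one, ← dist_eq_norm] at h2
      exact h2.trans hn
    rw [nd_sub, nd_self hv] at h1
    have h3 := norm_sub_norm_le (1 : ℂ) (1 - nd v n)
    rw [sub_sub_cancel, norm_one, norm_sub_rev] at h3
    linarith only [h1, h3]
  have h1 := hnd m hm
  have h2 := hnd m' hm'
  have h10 : nd v m ≠ 0 := by
    intro h
    rw [h, norm_zero] at h1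
    linarith only [h1]
  have h20 : nd v m' ≠ 0 := by
    intro h
    rw [h, norm_zero] at h2
    linarith
  have e : nv v m - nv v m' = (nd v m)⁻¹ • mv v (m - m') + ((nd v m)⁻¹ * (nd v m')⁻¹ * nd v (m' - m)) • mv v m' := by
    rw [nv_eq, nv_eq, mv_sub, nd_sub]
    have h3 : (nd v m)⁻¹ * (nd v m')⁻¹ * (nd v m' - nd v m) = (nd v m)⁻¹ - (nd v m')⁻¹ := by
      field_simp
    rw [h3, smul_sub, sub_smul]
    abel
  have i1 : ‖(nd v m)⁻¹‖ ≤ 2 := by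
    rw [norm_inv]
    have := inv_anti₀ (by norm_num) h1
    linarith only [this]
  have i2 : ‖(nd v m')⁻¹‖ ≤ 2 := by
    rw [norm_inv]
    have := inv_anti₀ (by norm_num) h2
    linarith only [this]
  have i3 : ‖mv v (m - m')‖ ≤ dist m m' := by
    have := mv_norm v (m - m')
    rwa [hv, mul_one, ← dist_eq_norm] at this
  have i4 : ‖nd v (m' - m)‖ ≤ dist m m' := by
    have := nd_norm v (m' - m)
    rwa [hv, one_mul, mul_one, ← dist_eq_norm, dist_comm] at this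
  have i5 : ‖mv v m'‖ ≤ 2 := by
    have h3 := mv_norm v m'
    rw [hv, mul_one] at h3
    have h4 : ‖m'‖ ≤ ‖pr v‖ + dist m' (pr v) := by
      rw [dist_eq_norm]
      have : m' = pr v + (m' - pr v) := by abel
      conv_lhs => rw [this]
      exact norm_add_le _ _
    linarith only [hm', hp, h3, h4]
  have hd : 0 ≤ dist m m' := dist_nonneg
  rw [e]
  refine (norm_add_le _ _).trans ?_
  rw [norm_smul, norm_smul, norm_mul, norm_mul]
  have j1 : ‖(nd v m)⁻¹‖ * ‖mv v (m - m')‖ ≤ 2 * dist m m' := mul_le_mul i1 i3 (norm_nonneg _) (by norm_num)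
  have j2 : ‖(nd v m)⁻¹‖ * ‖(nd v m')⁻¹‖ ≤ 2 * 2 := mul_le_mul i1 i2 (norm_nonneg _) (by norm_num)
  have j3 : ‖(nd v m)⁻¹‖ * ‖(nd v m')⁻¹‖ * ‖nd v (m' - m)‖ ≤ 2 * 2 * dist m m' := mul_le_mul j2 i4 (norm_nonneg _) (by norm_num)
  have j4 : ‖(nd v m)⁻¹‖ * ‖(nd v m')⁻¹‖ * ‖nd v (m' - m)‖ * ‖mv v m'‖ ≤ 2 * 2 * dist m m' * 2 := mul_le_mul j3 i5 (norm_nonneg _) (by positivity)
  linarith only [j1, j4]

/-! ### difference quotients of holomorphic functions -/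

theorem dq_hol {h : Vd (k + 1) → ℂ} {p : Vd (k + 1)} (hh : AnalyticAt ℂ h p) (w : Vd (k + 1)) : ∃ (τ C : ℝ) (L : Vd (k + 1) → ℂ), 0 < τ ∧ 0 ≤ C ∧
    ∀ q : Vd (k + 1), ‖q - p‖ < τ → ∀ ζ : ℂ, ‖ζ • w‖ < τ → ‖h (q + ζ • w) - h q - ζ * L q‖ ≤ C * ‖ζ • w‖ * ‖ζ • w‖ := by
  obtain ⟨K, s, hs, hK⟩ := hh.fderiv.hasStrictFDerivAt.exists_lipschitzOnWith
  obtain ⟨τ, hτ, hball⟩ := Metric.mem_nhds_iff.1 (Filter.inter_mem hs hh.eventually_analyticAt)
  refine ⟨τ / 2, K, fun q => fderiv ℂ h q w, by positivity, K.2, fun q hq ζ hζ => ?_⟩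
  have hsub : closedBall q ‖ζ • w‖ ⊆ ball p τ := by
    intro x hx
    rw [mem_closedBall] at hx
    rw [mem_ball]
    have h1 := dist_triangle x q p
    rw [dist_eq_norm q p] at h1
    linarith only [hq, hζ, hx, h1]
  have hqs : q ∈ closedBall q ‖ζ • w‖ := mem_closedBall_self (norm_nonneg _)
  have hy : q + ζ • w ∈ closedBall q ‖ζ • w‖ := by
    rw [mem_closedBall, dist_eq_norm, add_sub_cancel_left]
  have h1 := Convex.norm_image_sub_le_of_norm_fderiv_le' (𝕜 := ℂ) (f := h) (s := closedBall q ‖ζ • w‖) (C := K * ‖ζ • w‖) (φ := fderiv ℂ h q) (x := q) (y := q + ζ • w)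
    (fun x hx => (hball (hsub hx)).2.differentiableAt) (fun x hx => by
      have h2 := hK.dist_le_mul x (hball (hsub hx)).1 q (hball (hsub hqs)).1
      rw [dist_eq_norm] at h2
      refine h2.trans (mul_le_mul_of_nonneg_left ?_ K.2)
      exact hx) (convex_closedBall _ _) hqs hy
  rw [add_sub_cancel_left, map_smul, smul_eq_mul] at h1
  exact h1

/-! ### lifts of the values of a sheet -/

theorem cont_at (hS : Shs X Λ u D a b ⊤ SS) {φ : Vd (k + 1) → MN N} (hφ : φ ∈ SS) {y₀ : Vd (k + 1)} (h0 : y₀ ∉ D) : ContinuousAt φ y₀ := by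
  have hT : Tb b (⊤ : Submodule ℝ (Vd (k + 1))) = Set.univ := Set.eq_univ_of_forall fun y => show y - b ∈ (⊤ : Submodule ℝ (Vd (k + 1))) from Submodule.mem_top
  have h1 := (hS.sht φ hφ).cont y₀ (by rw [hT]; exact Set.mem_univ _) h0
  rwa [hT, continuousWithinAt_univ] at h1

/-! ### the bound of the difference quotients -/

/-! ### the difference quotients converge -/

end Pool.Agent.G3.R

end

section

/-!
# G4 A HPa: the combination of two nearly equal curves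

Two curves `f n`, `g n` over `y n + ℂ a`, both converging to `f₀`, with the coefficients `q n`, `- q n`.  `cmb_pair`: the properties `Cmb`, if `dist (f n x) (g n x) ‖q n x‖` is bounded over `Gd D δ'`.  `pair_bound`: the bound of the combination.
`dist_pr_le2`, `nv_lower`: `pr` is Lipschitz near unit vectors, so the combination controls the distance.
-/

set_option autoImplicit false

open Topology Filter Metric

namespace Pool.Agent.G4.A

open Pool.Agent.H36.BP (EN fs wd)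
open Pool.Agent.H14.PP (IsCone CurveAt Tan)
open Pool.Agent.H62.EF (MN pr)
open Pool.Agent.AD (Vd Chart Charts IsGerm)
open Pool.Agent.TG
open Pool.Agent.G3 (wt)
open Pool.Agent.G3.A (Ba Hc Dec Sepa Tht Frm NL Lm CRL Tb ToE CE Sht)
open Pool.Agent.G3.R (nv_lip nv_self nv_near inner_near)
open Pool.Agent.G3.C (Gc nv nd nv_pr pr_nv nd_pr_ne)

variable {N k : ℕ} {X : Set (EN N)} {Λ : AddSubgroup (Vd (k + 1))} {u : EN N → Vd (k + 1)} {D B Bad : Set (Vd (k + 1))} {a : Vd (k + 1)}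
  {Γ : AddSubgroup (Vd (k + 1))} {J rW : ℕ} {W : Fin rW → Vd (k + 1) →L[ℂ] ℂ} {α : Fin J → VForm X Λ u} {c₀ C₀ ρ δ : ℝ}

/-! ### `pr` is Lipschitz near unit vectors -/

theorem dist_pr_le2 {p q : EN N} (hp : 1 ≤ ‖p‖) (hq : q ≠ 0) : dist (pr p) (pr q) ≤ 2 * ‖p - q‖ := by
  have hp0 : p ≠ 0 := by
    rintro rfl
    rw [norm_zero] at hp
    linarith
  have hq0 : 0 < ‖q‖ := norm_pos_iff.2 hq
  have h1 := Pool.Agent.H62.EF.norm_inner_sq hp0 hq
  have h2 : ‖p - q‖ ^ 2 = ‖p‖ ^ 2 - 2 * (inner ℂ p q : ℂ).re + ‖q‖ ^ 2 := by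
    rw [norm_sub_sq (𝕜 := ℂ)]
    rfl
  have h3 : (inner ℂ p q : ℂ).re ^ 2 ≤ ‖(inner ℂ p q : ℂ)‖ ^ 2 := by
    rw [Complex.sq_norm, Complex.normSq_apply]
    nlinarith only [sq_nonneg (inner ℂ p q : ℂ).im]
  set d : ℝ := dist (pr p) (pr q) with hd
  set s : ℝ := (inner ℂ p q : ℂ).re with hs
  have hd0 : 0 ≤ d := dist_nonneg
  have h4 : d ^ 2 * ‖p‖ ^ 2 * ‖q‖ ^ 2 ≤ 2 * ‖p - q‖ ^ 2 * ‖q‖ ^ 2 := by
    have h5 : d ^ 2 * ‖p‖ ^ 2 * ‖q‖ ^ 2 = 2 * (‖p‖ ^ 2 * ‖q‖ ^ 2 - ‖(inner ℂ p q : ℂ)‖ ^ 2) := by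
      rw [h1]
      ring
    rw [h5, h2]
    nlinarith only [h3, sq_nonneg (s - ‖q‖ ^ 2)]
  have h6 : d ^ 2 * ‖p‖ ^ 2 ≤ 2 * ‖p - q‖ ^ 2 := le_of_mul_le_mul_right h4 (by positivity)
  have h7 : d ^ 2 ≤ d ^ 2 * ‖p‖ ^ 2 := le_mul_of_one_le_right (by positivity) (by nlinarith only [hp])
  have h8 : d ^ 2 ≤ (2 * ‖p - q‖) ^ 2 := by nlinarith only [h6, h7, sq_nonneg ‖p - q‖]
  exact le_of_sq_le_sq h8 (by positivity)

theorem nv_lower (N : ℕ) : ∃ ε : ℝ, 0 < ε ∧ ∀ v : EN N, ‖v‖ = 1 → ∀ x x' : EN N, x ≠ 0 → x' ≠ 0 → dist (pr x) (pr v) ≤ ε → dist (pr x') (pr v) ≤ ε →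
    dist (pr x) (pr x') ≤ 2 * ‖nv v (pr x) - nv v (pr x')‖ := by
  obtain ⟨ε, hε, h⟩ := inner_near (N := N) (η := 1 / 2) (by norm_num)
  refine ⟨ε, hε, fun v hv x x' hx hx' hd hd' => ?_⟩
  have h1 := (h v hv x hx hd).1
  have h2 := (h v hv x' hx' hd').1
  have e1 : inner ℂ v (nv v (pr x)) = (1 : ℂ) := by rw [nv_pr h1, inner_smul_right, inv_mul_cancel₀ h1]
  have e2 : inner ℂ v (nv v (pr x')) = (1 : ℂ) := by rw [nv_pr h2, inner_smul_right, inv_mul_cancel₀ h2]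
  have n1 : 1 ≤ ‖nv v (pr x)‖ := by
    have h3 := norm_inner_le_norm (𝕜 := ℂ) v (nv v (pr x))
    rwa [e1, norm_one, hv, one_mul] at h3
  have n2 : nv v (pr x') ≠ 0 := by
    intro h3
    rw [h3, inner_zero_right] at e2
    exact zero_ne_one e2
  have h3 := dist_pr_le2 n1 n2
  rwa [pr_nv h1, pr_nv h2] at h3

/-! ### two curves -/

/-- the coefficients `q`, `- q` -/
def pc {ι : Type} (q : ι → ℂ → ℂ) : ι → Fin 2 → ℂ → ℂ := fun n => ![q n, fun z => -q n z]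

/-- the two curves -/
def pf {ι : Type} (f g : ι → ℂ → MN N) : Fin 2 → ι → ℂ → MN N := ![f, g]

theorem cX_pair {ι : Type} (q : ι → ℂ → ℂ) (f g : ι → ℂ → MN N) (v : EN N) (n : ι) (x : ℂ) : cX (pc q) (pf f g) v n x = q n x • (nv v (f n x) - nv v (g n x)) := by
  unfold cX pc pf
  simp only [Fin.sum_univ_two, Matrix.cons_val_zero, Matrix.cons_val_one, Matrix.cons_val]
  rw [smul_sub, neg_smul, sub_eq_add_neg]

/-- points and values near the limit -/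
theorem lm_near (ha : ‖a‖ = 1) {ι : Type} {𝒰 : Ultrafilter ι} {y : ι → Vd (k + 1)} {y₀ : Vd (k + 1)} {x : ℂ} {δ₁ : ℝ} (hδ₁ : 0 < δ₁) (hx : y₀ + x • a ∈ Gd D δ₁)
    (hy : Tendsto y 𝒰 (𝓝 y₀)) {f : ι → ℂ → MN N} {f₀ : ℂ → MN N} (hc : Continuous f₀) (hf : Lm D a 𝒰 y₀ f f₀) {η : ℝ} (hη : 0 < η) :
    ∃ t : ℝ, 0 < t ∧ ∀ᶠ n in (𝒰 : Filter ι), ∀ x' ∈ ball x t, dist (f n x') (f₀ x) ≤ η ∧ ‖y n + x' • a - (y₀ + x • a)‖ ≤ η ∧ y n + x' • a ∈ Gd D (δ₁ / 2) := by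
  obtain ⟨t₁, ht₁, h1⟩ := Metric.continuousAt_iff.1 hc.continuousAt (η / 2) (half_pos hη)
  set t : ℝ := min (t₁ / 2) (min (δ₁ / 4) (η / 2)) with ht
  have ht0 : 0 < t := lt_min (half_pos ht₁) (lt_min (by linarith) (by linarith only [hη]))
  have ta : t ≤ t₁ / 2 := min_le_left _ _
  have tb : t ≤ δ₁ / 4 := (min_le_right _ _).trans (min_le_left _ _)
  have tc : t ≤ η / 2 := (min_le_right _ _).trans (min_le_right _ _)
  have hK : ∀ z ∈ closedBall x t, y₀ + z • a ∉ D := by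
    intro z hz
    rw [mem_closedBall, dist_eq_norm] at hz
    have h2 : ‖y₀ + z • a - (y₀ + x • a)‖ ≤ t := by
      rw [add_sub_add_left_eq_sub, ← sub_smul, norm_smul, ha, mul_one]
      exact hz
    exact gd_notMem (δ := δ₁ - t) (by linarith only [ht0, tb]) (gd_near hx h2)
  have hu := hf.unif4 hc (isCompact_closedBall x t) hK (half_pos hη)
  have hm : 0 < min (δ₁ / 4) (η / 2) := lt_min (by linarith only [ht0, tb]) (by linarith only [ht0, tc])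
  refine ⟨t, ht0, ?_⟩
  filter_upwards [hu, hy.eventually (closedBall_mem_nhds y₀ hm)] with n hn hn' x' hx'
  have hx1 := mem_ball.1 hx'
  have h3 : ‖x' - x‖ ≤ t := by
    rw [← dist_eq_norm]
    exact hx1.le
  have h4 : ‖y n + x' • a - (y₀ + x • a)‖ ≤ min (δ₁ / 4) (η / 2) + t := by
    have e : y n + x' • a - (y₀ + x • a) = (y n - y₀) + (x' - x) • a := by
      rw [sub_smul]
      abel
    rw [e]
    refine (norm_add_le _ _).trans (add_le_add ?_ ?_)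
    · rw [← dist_eq_norm]
      exact hn'
    · rw [norm_smul, ha, mul_one]
      exact h3
  have m1 : min (δ₁ / 4) (η / 2) ≤ δ₁ / 4 := min_le_left _ _
  have m2 : min (δ₁ / 4) (η / 2) ≤ η / 2 := min_le_right _ _
  refine ⟨?_, by linarith only [tc, h4, m2], ?_⟩
  · have h5 := hn x' (mem_closedBall.2 hx1.le)
    have h6 := h1 (show dist x' x < t₁ by linarith only [ht0, ta, hx1])
    have h7 := dist_triangle (f n x') (f₀ x') (f₀ x)
    linarith only [h5, h6, h7]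
  · exact gd_mono (δ₂ := δ₁ - (min (δ₁ / 4) (η / 2) + t)) (by linarith only [tb, m1]) (gd_near hx h4)

/-- the bound of the two curves with the factor `q` -/
def PBd (D : Set (Vd (k + 1))) (a : Vd (k + 1)) {ι : Type} (𝒰 : Ultrafilter ι) (y : ι → Vd (k + 1)) (f g : ι → ℂ → MN N) (q : ι → ℂ → ℂ) (c : ℝ) : Prop :=
  ∀ δ' : ℝ, 0 < δ' → ∃ C : ℝ, 0 ≤ C ∧ ∀ M : ℝ, ∀ᶠ n in (𝒰 : Filter ι), ∀ x : ℂ, ‖x‖ ≤ M → y n + x • a ∈ Gd D δ' →
    dist (f n x) (g n x) * ‖q n x‖ ≤ C * Real.exp (c * (‖x‖ + 1 / 2) ^ 2)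

theorem cX_pair_le {ι : Type} {q : ι → ℂ → ℂ} {f g : ι → ℂ → MN N} {v : EN N} (hv : ‖v‖ = 1) {n : ι} {x : ℂ} (h1 : dist (f n x) (pr v) ≤ 1 / 2) (h2 : dist (g n x) (pr v) ≤ 1 / 2) :
    ‖cX (pc q) (pf f g) v n x‖ ≤ 10 * (dist (f n x) (g n x) * ‖q n x‖) := by
  rw [cX_pair, norm_smul]
  have h3 := nv_lip hv h1 h2
  calc ‖q n x‖ * ‖nv v (f n x) - nv v (g n x)‖ ≤ ‖q n x‖ * (10 * dist (f n x) (g n x)) := mul_le_mul_of_nonneg_left h3 (norm_nonneg _)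
    _ = _ := by ring

theorem cmb_pair (G : Geo X Λ u D B) (ha : ‖a‖ = 1) {ι : Type} {𝒰 : Ultrafilter ι} {y : ι → Vd (k + 1)} {y₀ : Vd (k + 1)} (hy : Tendsto y 𝒰 (𝓝 y₀))
    {f g : ι → ℂ → MN N} {f₀ : ℂ → MN N} (hf : ∀ᶠ n in (𝒰 : Filter ι), f n ∈ Hc X Λ u a (y n)) (hg : ∀ᶠ n in (𝒰 : Filter ι), g n ∈ Hc X Λ u a (y n)) (hf₀ : f₀ ∈ Hc X Λ u a y₀)
    (hff : Lm D a 𝒰 y₀ f f₀) (hgg : Lm D a 𝒰 y₀ g f₀) {q : ι → ℂ → ℂ} (hq : ∀ᶠ n in (𝒰 : Filter ι), Differentiable ℂ (q n)) {c : ℝ} (hc : 0 ≤ c) (hb : PBd D a 𝒰 y f g q c) :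
    Cmb X Λ u D a 𝒰 (fun _ => y) y₀ (pf f g) f₀ (pc q) := by
  have hcont := hc_cont G.cone hf₀
  refine ⟨fun _ => hy, ?_, hf₀, ?_, ?_, ?_, ?_⟩
  · intro i
    fin_cases i
    · exact hf
    · exact hg
  · intro i
    fin_cases i
    · exact hff
    · exact hgg
  · filter_upwards [hq] with n hn i
    fin_cases i
    · exact hn
    · exact hn.neg
  · intro x hx v hv hv'
    obtain ⟨δ₁, hδ₁, hg₁⟩ := G.exists_gd hx
    obtain ⟨C, hC, hCb⟩ := hb (δ₁ / 2) (half_pos hδ₁)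
    obtain ⟨t₁, ht₁, e1⟩ := lm_near ha hδ₁ hg₁ hy hcont hff (η := 1 / 2) (by norm_num)
    obtain ⟨t₂, ht₂, e2⟩ := lm_near ha hδ₁ hg₁ hy hcont hgg (η := 1 / 2) (by norm_num)
    refine ⟨min (min t₁ t₂) 1, 10 * (C * Real.exp (c * (‖x‖ + 1 + 1 / 2) ^ 2)), lt_min (lt_min ht₁ ht₂) one_pos, ?_⟩
    filter_upwards [e1, e2, hCb (‖x‖ + 1)] with n h1 h2 h3 x' hx'
    have hxa : x' ∈ ball x t₁ := ball_subset_ball ((min_le_left _ _).trans (min_le_left _ _)) hx'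
    have hxb : x' ∈ ball x t₂ := ball_subset_ball ((min_le_left _ _).trans (min_le_right _ _)) hx'
    have hxc : x' ∈ ball x 1 := ball_subset_ball (min_le_right _ _) hx'
    have hn : ‖x'‖ ≤ ‖x‖ + 1 := by
      rw [mem_ball, dist_eq_norm] at hxc
      have := norm_le_norm_add_norm_sub x x'
      rw [norm_sub_rev] at this
      linarith
    obtain ⟨a1, a2, a3⟩ := h1 x' hxa
    obtain ⟨b1, b2, b3⟩ := h2 x' hxb
    rw [← hv'] at a1 b1
    refine (cX_pair_le hv a1 b1).trans (mul_le_mul_of_nonneg_left ((h3 x' hn a3).trans ?_) (by norm_num))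
    refine mul_le_mul_of_nonneg_left (Real.exp_le_exp.2 (mul_le_mul_of_nonneg_left ?_ hc)) hC
    have := norm_nonneg x'
    gcongr
  · intro x hx v hv hv' F hF ε hε
    obtain ⟨δ₁, hδ₁, hg₁⟩ := G.exists_gd hx
    obtain ⟨C, hC, hCb⟩ := hb (δ₁ / 2) (half_pos hδ₁)
    set L := fderiv ℂ F (v, y₀ + x • a) with hL
    set K : ℝ := 10 * (C * Real.exp (c * (‖x‖ + 1 + 1 / 2) ^ 2)) with hK
    have hK0 : 0 ≤ K := by positivity
    set η : ℝ := ε / (K + 1) with hη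
    have hη0 : 0 < η := by positivity
    have hηK : η * K ≤ ε := by
      rw [hη, div_mul_eq_mul_div, div_le_iff₀ (by positivity)]
      nlinarith only [hε]
    obtain ⟨τ, hτ, hst⟩ : ∃ τ : ℝ, 0 < τ ∧ ∀ P P' : EN N × Vd (k + 1), dist P (v, y₀ + x • a) < τ → dist P' (v, y₀ + x • a) < τ → ‖F P - F P' - L (P - P')‖ ≤ η * ‖P - P'‖ := by
      have h1 := (hF.hasStrictFDerivAt.isLittleO).def hη0
      obtain ⟨τ, hτ, h2⟩ := Metric.eventually_nhds_iff.1 h1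
      refine ⟨τ, hτ, fun P P' hP hP' => ?_⟩
      exact h2 (y := (P, P')) (by rw [Prod.dist_eq]; exact max_lt hP hP')
    have hη1 : 0 < min (1 / 2) (τ / 20) := lt_min (by norm_num) (by linarith)
    obtain ⟨t₁, ht₁, e1⟩ := lm_near ha hδ₁ hg₁ hy hcont hff hη1
    obtain ⟨t₂, ht₂, e2⟩ := lm_near ha hδ₁ hg₁ hy hcont hgg hη1
    refine ⟨min (min t₁ t₂) 1, lt_min (lt_min ht₁ ht₂) one_pos, ?_⟩
    filter_upwards [e1, e2, hCb (‖x‖ + 1)] with n h1 h2 h3 x' hx'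
    have hxa : x' ∈ ball x t₁ := ball_subset_ball ((min_le_left _ _).trans (min_le_left _ _)) hx'
    have hxb : x' ∈ ball x t₂ := ball_subset_ball ((min_le_left _ _).trans (min_le_right _ _)) hx'
    have hxc : x' ∈ ball x 1 := ball_subset_ball (min_le_right _ _) hx'
    have hn : ‖x'‖ ≤ ‖x‖ + 1 := by
      rw [mem_ball, dist_eq_norm] at hxc
      have := norm_le_norm_add_norm_sub x x'
      rw [norm_sub_rev] at this
      linarith
    obtain ⟨a1, a2, a3⟩ := h1 x' hxa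
    obtain ⟨b1, b2, b3⟩ := h2 x' hxb
    rw [← hv'] at a1 b1
    have m1 : min (1 / 2) (τ / 20) ≤ 1 / 2 := min_le_left _ _
    have m2 : min (1 / 2) (τ / 20) ≤ τ / 20 := min_le_right _ _
    -- the bound of the combination
    have hX : ‖cX (pc q) (pf f g) v n x'‖ ≤ K := by
      refine (cX_pair_le hv (a1.trans m1) (b1.trans m1)).trans (mul_le_mul_of_nonneg_left ((h3 x' hn a3).trans ?_) (by norm_num))
      refine mul_le_mul_of_nonneg_left (Real.exp_le_exp.2 (mul_le_mul_of_nonneg_left ?_ hc)) hC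
      have := norm_nonneg x'
      gcongr
    -- points near the centre
    have near : ∀ m : MN N, dist m (pr v) ≤ min (1 / 2) (τ / 20) → dist ((nv v m, y n + x' • a) : EN N × Vd (k + 1)) (v, y₀ + x • a) < τ := by
      intro m hm
      have h4 := nv_lip hv (hm.trans m1) (show dist (pr v) (pr v) ≤ 1 / 2 by rw [dist_self]; norm_num)
      rw [nv_self hv] at h4
      rw [Prod.dist_eq]
      refine max_lt ?_ ?_
      · show dist (nv v m) v < τ
        rw [dist_eq_norm]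
        linarith only [hη1, m2, hm, h4]
      · show dist (y n + x' • a) (y₀ + x • a) < τ
        rw [dist_eq_norm]
        linarith only [hη1, a2, m2]
    have h5 := hst _ _ (near _ a1) (near _ b1)
    rw [Prod.mk_sub_mk, sub_self] at h5
    have e6 : (∑ i, pc q n i x' * F (nv v (pf f g i n x'), y n + x' • a)) - L (cX (pc q) (pf f g) v n x', 0) =
        q n x' * (F (nv v (f n x'), y n + x' • a) - F (nv v (g n x'), y n + x' • a) - L (nv v (f n x') - nv v (g n x'), 0)) := by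
      have e7 : L (cX (pc q) (pf f g) v n x', 0) = q n x' * L (nv v (f n x') - nv v (g n x'), 0) := by
        have e8 : ((cX (pc q) (pf f g) v n x', 0) : EN N × Vd (k + 1)) = q n x' • (nv v (f n x') - nv v (g n x'), 0) := by
          rw [cX_pair, Prod.smul_mk, smul_zero]
        rw [e8, map_smul, smul_eq_mul]
      rw [e7]
      simp only [pc, pf, Fin.sum_univ_two, Matrix.cons_val_zero, Matrix.cons_val_one, Matrix.cons_val]
      ring
    rw [e6, norm_mul]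
    have e9 : ‖((nv v (f n x') - nv v (g n x'), (0 : Vd (k + 1))) : EN N × Vd (k + 1))‖ = ‖nv v (f n x') - nv v (g n x')‖ := by
      rw [Prod.norm_mk, norm_zero, max_eq_left (norm_nonneg _)]
    rw [e9] at h5
    rw [cX_pair, norm_smul] at hX
    calc ‖q n x'‖ * _ ≤ ‖q n x'‖ * (η * ‖nv v (f n x') - nv v (g n x')‖) := mul_le_mul_of_nonneg_left h5 (norm_nonneg _)
      _ = η * (‖q n x'‖ * ‖nv v (f n x') - nv v (g n x')‖) := by ring
      _ ≤ η * K := mul_le_mul_of_nonneg_left hX hη0.le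
      _ ≤ ε := hηK

/-- the bound of the combination over `Gd D δ'` -/
theorem pair_bound (ha : ‖a‖ = 1) (hX : IsCone X) {ι : Type} {𝒰 : Ultrafilter ι} {y : ι → Vd (k + 1)} {y₀ : Vd (k + 1)} (hy : Tendsto y 𝒰 (𝓝 y₀))
    {f g : ι → ℂ → MN N} {f₀ : ℂ → MN N} (hf₀ : f₀ ∈ Hc X Λ u a y₀)
    (hff : Lm D a 𝒰 y₀ f f₀) (hgg : Lm D a 𝒰 y₀ g f₀) {q : ι → ℂ → ℂ} {c : ℝ} (hc : 0 ≤ c) (hb : PBd D a 𝒰 y f g q c) :
    ∀ δ' : ℝ, 0 < δ' → ∃ C : ℝ, ∀ x : ℂ, y₀ + x • a ∈ Gd D δ' → ∀ v : EN N, ‖v‖ = 1 → pr v = f₀ x → ∀ᶠ n in (𝒰 : Filter ι),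
      ‖cX (pc q) (pf f g) v n x‖ ≤ C * Real.exp (2 * c * ‖x‖ ^ 2) := by
  intro δ' hδ'
  have hcont := hc_cont hX hf₀
  obtain ⟨C, hC, hCb⟩ := hb (δ' / 2) (half_pos hδ')
  refine ⟨10 * (C * Real.exp (c / 2)), fun x hg₁ v hv hv' => ?_⟩
  obtain ⟨t₁, ht₁, e1⟩ := lm_near ha hδ' hg₁ hy hcont hff (η := 1 / 2) (by norm_num)
  obtain ⟨t₂, ht₂, e2⟩ := lm_near ha hδ' hg₁ hy hcont hgg (η := 1 / 2) (by norm_num)
  filter_upwards [e1, e2, hCb ‖x‖] with n h1 h2 h3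
  obtain ⟨a1, a2, a3⟩ := h1 x (mem_ball_self ht₁)
  obtain ⟨b1, b2, b3⟩ := h2 x (mem_ball_self ht₂)
  rw [← hv'] at a1 b1
  refine (cX_pair_le hv a1 b1).trans ?_
  have h4 := h3 x le_rfl a3
  have h5 : Real.exp (c * (‖x‖ + 1 / 2) ^ 2) ≤ Real.exp (c / 2) * Real.exp (2 * c * ‖x‖ ^ 2) := by
    rw [← Real.exp_add]
    refine Real.exp_le_exp.2 ?_
    have h6 : (‖x‖ + 1 / 2) ^ 2 ≤ 1 / 2 + 2 * ‖x‖ ^ 2 := by nlinarith only [sq_nonneg (‖x‖ - 1 / 2)]
    calc c * (‖x‖ + 1 / 2) ^ 2 ≤ c * (1 / 2 + 2 * ‖x‖ ^ 2) := mul_le_mul_of_nonneg_left h6 hc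
      _ = _ := by ring
  calc 10 * (dist (f n x) (g n x) * ‖q n x‖) ≤ 10 * (C * Real.exp (c * (‖x‖ + 1 / 2) ^ 2)) := by linarith only [h4]
    _ ≤ 10 * (C * (Real.exp (c / 2) * Real.exp (2 * c * ‖x‖ ^ 2))) := by
      refine mul_le_mul_of_nonneg_left (mul_le_mul_of_nonneg_left h5 hC) (by norm_num)
    _ = _ := by ring

end Pool.Agent.G4.A

end
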