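import Pool.Agent.H94.G5T.M138
import Pool.Agent.H94.G5T.M141
import Pool.Agent.H94.G5T.M77

/-! The parts of this file: G4.R.Step, G4.R.HolL. -/

section

/-!
# G4 R Step: all divided differences of the sheets are bounded

`ddb_zero`: order `0`.  `ddb_step`: let `DDb j` hold for `j ≤ m` and fail for `m + 1`.  For every `n` there are nodes `σ n` of size `≤ 1 / (n + 1)` and `Nb n ≥ n`, a bound of the divided differences over the core
which is nearly attained at `y n`, `φ n`, in the chart `nv (v n)` (`step_seq`); along an ultrafilter `φ n = φ₀`, `y n → y₀`, `v n → v₀` (`step_lim`).  By (Z) (`cmb_null`) for the combination of the divided differences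
(`cmb_dd`, `dd_bd4`): the divided difference at `y n` in the chart `nv v₀`, divided by `Nb n`, tends to `0`; change of the chart: `Nb n / 2 ≤ K (o (Nb n) + 1)`, contradiction.
-/

set_option autoImplicit false

open Topology Filter Metric

namespace Pool.Agent.G4.R

open Pool.Agent.H36.BP (EN fs wd)
open Pool.Agent.H14.PP (IsCone CurveAt Tan)
open Pool.Agent.H62.EF (MN pr pr_smul)
open Pool.Agent.AD (Vd Chart Charts IsGerm)
open Pool.Agent.TG
open Pool.Agent.G3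
open Pool.Agent.G3.A (Ba Hc Dec Sepa Tht Frm NL Lm CRL Tb ToE CE Sht)
open Pool.Agent.G3.R (Prm Shs DDb nv_near dd dw dd_congr Nod dd_zero dd_nv inner_near)
open Pool.Agent.G3.C (Gc nv nd nv_pr)
open Pool.Agent.G4.A

variable {N k : ℕ} {X : Set (EN N)} {Λ : AddSubgroup (Vd (k + 1))} {u : EN N → Vd (k + 1)} {D B Bad : Set (Vd (k + 1))} {a b w : Vd (k + 1)} {E : Submodule ℝ (Vd (k + 1))}
  {Γ : AddSubgroup (Vd (k + 1))} {J rW : ℕ} {W : Fin rW → Vd (k + 1) →L[ℂ] ℂ} {SS : Set (Vd (k + 1) → MN N)} {α : Fin J → VForm X Λ u} {c₀ C₀ ρ δ : ℝ}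

theorem ddb_zero (S : DA X Λ u D B Bad a Γ W α c₀ C₀ ρ δ) (hS : Shs X Λ u D a b E SS) (hw : w ∈ E) : DDb D (Tb b E) SS w 0 := ddb_zero' S hS hw

theorem ddb_step (S : DA X Λ u D B Bad a Γ W α c₀ C₀ ρ δ) (hS : Shs X Λ u D a b E SS) (hw : w ∈ E) {m : ℕ} (hm : ∀ j ≤ m, DDb D (Tb b E) SS w j) : DDb D (Tb b E) SS w (m + 1) := by
  by_contra hno
  obtain ⟨R, hseq⟩ := step_seq S hS hw hm hno
  choose σ Nb φ y v hσ hNb hNb1 hcore hφ hyT hyC hyR hv hvφ hbig using hseq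
  have hδ := S.lc.δ_pos
  have hX := S.geo.cone
  have hL := S.lg
  set 𝒰 : Ultrafilter ℕ := hyperfilter ℕ with h𝒰d
  have h𝒰 : (𝒰 : Filter ℕ) ≤ atTop := by
    rw [← Nat.cofinite_eq_atTop]
    exact hyperfilter_le_cofinite
  obtain ⟨φ₀, y₀, v₀, hφ₀, hev, hyt, hy₀T, hy₀C, hvt, hv₀, hv₀φ⟩ := step_lim S hS 𝒰 hφ hyT hyC hyR hv hvφ
  have hy₀D : y₀ ∉ D := gd_notMem (by linarith) hy₀C
  have hrn : Tendsto (fun n : ℕ => 1 / ((n : ℝ) + 1)) 𝒰 (𝓝 0) := tendsto_one_div_add_atTop_nhds_zero_nat.mono_left h𝒰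
  have hnat : Tendsto (fun n : ℕ => (n : ℝ)) (𝒰 : Filter ℕ) atTop := tendsto_natCast_atTop_atTop.mono_left h𝒰
  have hNbt : Tendsto Nb (𝒰 : Filter ℕ) atTop := tendsto_atTop_mono hNb hnat
  have hgd : Dbd D (Tb b E) w 𝒰 m φ₀ σ Nb := by
    intro δ' hδ'
    obtain ⟨r, K, hr, hK, h1⟩ := core_to_gd S hS hw hm hδ'
    refine ⟨K, hK, ?_⟩
    filter_upwards [hrn.eventually_lt_const hr] with n hn y' hy' hyD' v' hv' hvφ'
    exact h1 (σ n) (Nb n) ((hσ n).mono le_rfl hn.le) (hNb1 n) (hcore n) φ₀ hφ₀ y' hy' hyD' v' hv' hvφ'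
  have hC := cmb_dd S hS hw hm hφ₀ hσ hrn hNb1 hNbt hgd hyT hyt hy₀T
  have hb := fun δ' hδ' => dd_bd4 (a := a) hX hL hS hw hm hφ₀ hσ hrn hNb1 hgd hyT hyt hy₀T δ' hδ'
  have h1 : Tendsto (fun n => cX (fun n i (_ : ℂ) => cd m σ Nb n i) (fun i n z => φ₀ (yd m y σ w i n + z • a)) v₀ n 0) 𝒰 (𝓝 0) :=
    cmb_null S hC le_rfl S.c_pos hb (x := 0) (by rwa [zero_smul, add_zero]) hv₀ (by rw [hv₀φ, zero_smul, add_zero]) (w := fun _ => 0) tendsto_const_nhds
  -- the change of the chart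
  obtain ⟨r₁, K₁, hr₁, hK₁, h₁⟩ := dd_chg hX hL hS hw hm (δ' := 2 * δ) (κ := 1 / 2) (by positivity) (by norm_num)
  obtain ⟨r₂, C₂, hr₂, hC₂, h₂⟩ := dd_loc hX hL hS hw hm hφ₀ hσ hrn hNb1 hgd (δ' := 2 * δ) (by positivity)
  obtain ⟨r₃, K₃, ε₃, hr₃, hK₃, hε₃, h₃⟩ := dd_nv (N := N) m (κ := 1 / 2) (C := C₂) (by norm_num) hC₂.le
  obtain ⟨r₄, hr₄, h₄⟩ := hS.unif4 hL (show 0 < 2 * δ by positivity) hε₃
  have hw1 : 0 < ‖w‖ + 1 := by positivity
  have e1 : ∀ᶠ n : ℕ in (𝒰 : Filter ℕ), 1 / ((n : ℝ) + 1) < min r₃ (r₄ / (2 * (‖w‖ + 1))) := hrn.eventually_lt_const (lt_min hr₃ (by positivity))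
  have e2 : ∀ᶠ n in (𝒰 : Filter ℕ), dist (y n) y₀ < min r₂ (r₄ / 2) := hyt.eventually (ball_mem_nhds y₀ (lt_min hr₂ (by positivity)))
  have e3 : ∀ᶠ n in (𝒰 : Filter ℕ), 1 / 2 ≤ ‖(inner ℂ (v n) v₀ : ℂ)‖ := by
    have h5 : Tendsto (fun n => (inner ℂ (v n) v₀ : ℂ)) 𝒰 (𝓝 (inner ℂ v₀ v₀ : ℂ)) := hvt.inner tendsto_const_nhds
    have h6 : ‖(inner ℂ v₀ v₀ : ℂ)‖ = 1 := by
      rw [inner_self_eq_norm_sq_to_K, hv₀]
      simp
    have h7 := h5.norm
    rw [h6] at h7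
    exact h7.eventually_const_le (by norm_num)
  have e4 := h1.norm.eventually_lt_const (show ‖(0 : EN N)‖ < 1 / (8 * K₃) by rw [norm_zero]; positivity)
  have e5 := hNbt.eventually_gt_atTop (8 * K₃)
  obtain ⟨n, h2n, h1n, h2n', h3n, h4n, h5n, hn⟩ := (h₂.and (e1.and (e2.and (e3.and (e4.and (e5.and hev)))))).exists
  rw [dist_eq_norm] at h2n'
  have hlow := (h2n y₀ hy₀T hy₀C v₀ hv₀ hv₀φ (y n) (hyT n) (h2n'.le.trans (min_le_left _ _))).1
  have hNpos : 0 < Nb n := lt_of_lt_of_le one_pos (hNb1 n)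
  have h6 := (h₃ (v n) v₀ (hv n) hv₀ h3n (σ n) (fun s : ℝ => φ₀ (y n + (s : ℂ) • w)) ((hσ n).mono le_rfl (h1n.le.trans (min_le_left _ _))) (fun i hi => ?_) hlow).2
  · rw [cX_dd, norm_smul, norm_inv, Complex.norm_real, Real.norm_of_nonneg hNpos.le, inv_mul_lt_iff₀ hNpos, zero_smul, add_zero] at h4n
    have h7 := hbig n
    rw [hn] at h7
    unfold sz at h7
    have h8 := h7.trans h6
    set d : ℝ := ‖dd (m + 1) (σ n) fun s : ℝ => nv v₀ (φ₀ (y n + (s : ℂ) • w))‖ with hd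
    have h9 : K₃ * d ≤ Nb n / 8 := by
      have h10 : K₃ * d ≤ K₃ * (Nb n * (1 / (8 * K₃))) := mul_le_mul_of_nonneg_left h4n.le hK₃.le
      refine h10.trans (le_of_eq ?_)
      field_simp
    have h10 : Nb n / 2 ≤ K₃ * d + K₃ := by linarith [h8, mul_add K₃ d 1]
    linarith
  · have hyi : y n + ((σ n i : ℝ) : ℂ) • w ∈ Tb b E := tb_add (hyT n) (smul_mem_E hw _)
    obtain ⟨x, hxX, hpx, -⟩ := hS.fb4 hφ₀ hyi
    refine ⟨x, fun h0 => hX.zero_notMem (h0 ▸ hxX), hpx.symm, ?_⟩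
    rw [hpx, hv₀φ]
    refine h₄ φ₀ hφ₀ y₀ hy₀T hy₀C _ hyi ?_
    have e : y n + ((σ n i : ℝ) : ℂ) • w - y₀ = (y n - y₀) + ((σ n i : ℝ) : ℂ) • w := by abel
    rw [e]
    refine (norm_add_le _ _).trans ?_
    have h7 : ‖((σ n i : ℝ) : ℂ) • w‖ ≤ r₄ / 2 := by
      refine (norm_smul_w (((hσ n).le i hi).trans (h1n.le.trans (min_le_right _ _))) w).trans ?_
      rw [div_mul_eq_mul_div, div_le_iff₀ (by positivity)]
      nlinarith [norm_nonneg w]
    have h8 := h2n'.le.trans (min_le_right _ _)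
    linarith

theorem ddb (S : DA X Λ u D B Bad a Γ W α c₀ C₀ ρ δ) (hS : Shs X Λ u D a b E SS) (hw : w ∈ E) (m : ℕ) : DDb D (Tb b E) SS w m := by
  induction m using Nat.strong_induction_on with
  | _ m ih =>
    rcases m with _ | m
    · exact ddb_zero S hS hw
    · exact ddb_step S hS hw fun j hj => ih j (by omega)

end Pool.Agent.G4.R

end

section

/-!
# G4 R HolL: sheets over the whole space are Lipschitz on small balls off `D`

Here `E = ⊤`.  `ddb` for `m = 1` and the real directions `e`, `i e`, `e` a basis vector.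
`dist_pr_le`: `dist (pr x) (pr v) ≤ 2 ‖x / ⟨v, x⟩ - v‖`.  `step_lip`: one real direction, from `ddb` for the nodes `0, s`.  `sheet_lip`: change the coordinates one after the other, real part and imaginary part.
-/

set_option autoImplicit false

open Topology Filter Metric

namespace Pool.Agent.G4.R

open Pool.Agent.H36.BP (EN fs wd)
open Pool.Agent.H14.PP (IsCone CurveAt Tan)
open Pool.Agent.H62.EF (MN pr)
open Pool.Agent.AD (Vd Chart Charts IsGerm)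
open Pool.Agent.TG
open Pool.Agent.G3
open Pool.Agent.G3.R
open Pool.Agent.G3.C (Gc HP nv nd nv_pr pr_nv nd_pr_ne)
open Pool.Agent.G3.A (Ba Hc Dec Sepa Tht Frm NL Lm CRL Tb ToE CE Sht)
open Pool.Agent.G4.A

variable {N k : ℕ} {X : Set (EN N)} {Λ : AddSubgroup (Vd (k + 1))} {u : EN N → Vd (k + 1)} {D B Bad : Set (Vd (k + 1))} {a b : Vd (k + 1)}
  {SS : Set (Vd (k + 1) → MN N)} {Γ : AddSubgroup (Vd (k + 1))} {J rW : ℕ} {W : Fin rW → Vd (k + 1) →L[ℂ] ℂ} {α : Fin J → VForm X Λ u} {c₀ C₀ ρ δ : ℝ}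

/-- `pr x` is near `pr v` if `x / ⟨v, x⟩` is near `v` -/
theorem dist_pr_le {v x : EN N} (hv : ‖v‖ = 1) (h : inner ℂ v x ≠ (0 : ℂ)) : dist (pr x) (pr v) ≤ 2 * ‖nv v (pr x) - v‖ := by
  have hv0 : v ≠ 0 := by
    rintro rfl
    rw [norm_zero] at hv
    exact zero_ne_one hv
  set x₁ : EN N := nv v (pr x) with hx₁
  have h1 : inner ℂ v x₁ = (1 : ℂ) := by
    rw [hx₁, nv_pr h, inner_smul_right, inv_mul_cancel₀ h]
  have hx0 : x₁ ≠ 0 := by
    intro h0
    rw [h0, inner_zero_right] at h1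
    exact zero_ne_one h1
  have hp : pr x₁ = pr x := pr_nv h
  have h2 := Pool.Agent.H62.EF.norm_inner_sq hv0 hx0
  rw [h1, hv, norm_one, one_pow, one_mul, hp, dist_comm] at h2
  have h3 : ‖x₁ - v‖ ^ 2 = ‖x₁‖ ^ 2 - 1 := by
    rw [norm_sub_rev, norm_sub_sq (𝕜 := ℂ), h1, hv, RCLike.re_to_complex, Complex.one_re]
    ring
  set d : ℝ := dist (pr x) (pr v) with hd
  have hd0 : 0 ≤ d := dist_nonneg
  have he0 : 0 ≤ ‖x₁ - v‖ ^ 2 := by positivity
  have h4 : d ^ 2 ≤ (2 * ‖x₁ - v‖) ^ 2 := by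
    have h5 : 1 ≤ ‖x₁‖ ^ 2 := by linarith only [h3, he0]
    have h6 : d ^ 2 * ‖x₁‖ ^ 2 = 2 * ‖x₁ - v‖ ^ 2 := by
      rw [h3]
      nlinarith only [h2]
    have h7 : d ^ 2 ≤ d ^ 2 * ‖x₁‖ ^ 2 := le_mul_of_one_le_right (by positivity) h5
    nlinarith only [h3, h2, h7]
  exact le_of_sq_le_sq h4 (by positivity)

theorem mem_tb_top (b y : Vd (k + 1)) : y ∈ Tb b (⊤ : Submodule ℝ (Vd (k + 1))) := (Submodule.mem_top : y - b ∈ (⊤ : Submodule ℝ (Vd (k + 1))))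

/-- one real direction -/
theorem step_lip (S : DA X Λ u D B Bad a Γ W α c₀ C₀ ρ δ) (hS : Shs X Λ u D a b ⊤ SS) {δ' : ℝ} (hδ' : 0 < δ') (w : Vd (k + 1)) : ∃ r C : ℝ, 0 < r ∧ 0 < C ∧
    ∀ φ ∈ SS, ∀ y ∈ Gd D δ', ∀ s : ℝ, |s| ≤ r → dist (φ (y + (s : ℂ) • w)) (φ y) ≤ C * |s| := by
  obtain ⟨r, C, hr, hC, h⟩ := ddb S hS (w := w) Submodule.mem_top 1 δ' hδ'
  have hC1 : 0 < C + 1 := by linarith
  refine ⟨min r (1 / (2 * (C + 1))), 2 * (C + 1), lt_min hr (by positivity), by positivity, ?_⟩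
  intro φ hφ y hy s hs
  rcases eq_or_ne s 0 with rfl | hs0
  · simp
  obtain ⟨x, hx, hxm, -⟩ := hS.fb4 hφ (mem_tb_top b y)
  obtain ⟨c, hc, -, hcs⟩ := Pool.Agent.TG.exists_unit S.geo.cone hx
  have hv : ‖c • x‖ = 1 := mem_sphere_zero_iff_norm.1 hcs
  have hprv : pr (c • x) = φ y := by rw [Pool.Agent.H62.EF.pr_smul x hc, hxm]
  generalize c • x = v at hv hprv
  set σ : ℕ → ℝ := fun i => if i = 0 then 0 else s with hσd
  have hσ0 : σ 0 = 0 := by simp [hσd]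
  have hσ1 : σ 1 = s := by simp [hσd]
  have hσ : Nod (0 + 1) σ r := by
    refine ⟨fun i hi j hj hij => ?_, fun i hi => ?_⟩
    · interval_cases i <;> interval_cases j <;> first | rfl | (rw [hσ0, hσ1] at hij; exact absurd hij (Ne.symm hs0)) | (rw [hσ0, hσ1] at hij; exact absurd hij hs0)
    · interval_cases i
      · rw [hσ0, abs_zero]
        exact hr.le
      · rw [hσ1]
        exact hs.trans (min_le_left _ _)
  have h1 : ‖dd (0 + 1) σ fun s : ℝ => nv v (φ (y + (s : ℂ) • w))‖ ≤ C := h φ hφ y (mem_tb_top b y) hy v hv hprv σ hσ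
  have h2 : ‖nv v (φ (y + (s : ℂ) • w)) - v‖ ≤ C * |s| := by
    rw [dd_succ hσ, dd_zero, dd_zero, norm_smul] at h1
    simp only [zero_add, hσ0, hσ1, sub_zero, Complex.ofReal_zero, zero_smul, add_zero] at h1
    rw [← hprv, nv_self hv, Complex.norm_real, norm_inv, Real.norm_eq_abs, inv_mul_le_iff₀ (abs_pos.2 hs0)] at h1
    rwa [mul_comm] at h1
  have h3 : C * |s| ≤ 1 / 2 := by
    have h4 : |s| ≤ 1 / (2 * (C + 1)) := hs.trans (min_le_right _ _)
    rw [le_div_iff₀ (by positivity)] at h4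
    nlinarith only [h4, abs_nonneg s]
  obtain ⟨x', hx', hxm', -⟩ := hS.fb4 hφ (mem_tb_top b (y + (s : ℂ) • w))
  have hx0 : x' ≠ 0 := ne_zero S.geo.cone hx'
  have h5 : inner ℂ v x' ≠ (0 : ℂ) := by
    intro h6
    have h7 : nd v (pr x') = 0 := by
      by_contra h8
      exact (nd_pr_ne hx0).1 h8 h6
    have h9 : nv v (pr x') = 0 := by
      have h10 : nv v (pr x') = (nd v (pr x'))⁻¹ • WithLp.toLp 2 fun i => ∑ j, pr x' (i, j) * v j := rfl
      rw [h10, h7, inv_zero, zero_smul]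
    rw [← hxm', h9, zero_sub, norm_neg, hv] at h2
    linarith
  have h11 := dist_pr_le hv h5
  rw [hxm', hprv] at h11
  refine h11.trans ?_
  have h12 : 0 ≤ |s| := abs_nonneg s
  nlinarith only [h2, h12]

theorem sheet_lip (S : DA X Λ u D B Bad a Γ W α c₀ C₀ ρ δ) (hS : Shs X Λ u D a b ⊤ SS) {δ' : ℝ} (hδ' : 0 < δ') : ∃ r C : ℝ, 0 < r ∧ 0 < C ∧ ∀ φ ∈ SS, ∀ y ∈ Gd D δ', ∀ y', ‖y' - y‖ ≤ r →
    dist (φ y') (φ y) ≤ C * ‖y' - y‖ := by
  have key : ∀ s : Finset (Fin (k + 1)), ∃ r C : ℝ, 0 < r ∧ 0 < C ∧ ∀ φ ∈ SS, ∀ y ∈ Gd D δ', ∀ h : Vd (k + 1), ‖h‖ ≤ r →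
      dist (φ (y + fun i => if i ∈ s then h i else 0)) (φ y) ≤ C * ‖h‖ := by
    intro s
    induction s using Finset.induction_on with
    | empty =>
      refine ⟨1, 1, one_pos, one_pos, fun φ _ y _ h _ => ?_⟩
      have e : (y + fun i => if i ∈ (∅ : Finset (Fin (k + 1))) then h i else 0) = y := by
        funext i
        simp
      rw [e, dist_self, one_mul]
      exact norm_nonneg _
    | insert i s his ih =>
      obtain ⟨r₀, K₀, hr₀, hK₀, h₀⟩ := ih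
      obtain ⟨r₁, K₁, hr₁, hK₁, h₁⟩ := step_lip S hS (half_pos hδ') (Pi.single i 1)
      obtain ⟨r₂, K₂, hr₂, hK₂, h₂⟩ := step_lip S hS (half_pos hδ') (Pi.single i Complex.I)
      refine ⟨min (min r₀ r₁) (min r₂ (δ' / 4)), K₀ + K₁ + K₂, lt_min (lt_min hr₀ hr₁) (lt_min hr₂ (by positivity)), by positivity, ?_⟩
      intro φ hφ y hy h hh
      have hh0 : ‖h‖ ≤ r₀ := hh.trans ((min_le_left _ _).trans (min_le_left _ _))
      have hh1 : ‖h‖ ≤ r₁ := hh.trans ((min_le_left _ _).trans (min_le_right _ _))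
      have hh2 : ‖h‖ ≤ r₂ := hh.trans ((min_le_right _ _).trans (min_le_left _ _))
      have hh3 : ‖h‖ ≤ δ' / 4 := hh.trans ((min_le_right _ _).trans (min_le_right _ _))
      have a0 := h₀ φ hφ y hy h hh0
      set g : Vd (k + 1) := fun j => if j ∈ s then h j else 0 with hg
      have hgn : ‖g‖ ≤ ‖h‖ := by
        refine (pi_norm_le_iff_of_nonneg (norm_nonneg _)).2 fun j => ?_
        rw [hg]
        dsimp only
        split_ifs
        · exact norm_le_pi_norm h j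
        · rw [norm_zero]
          exact norm_nonneg _
      have hre : |(h i).re| ≤ ‖h‖ := (Complex.abs_re_le_norm _).trans (norm_le_pi_norm h i)
      have him : |(h i).im| ≤ ‖h‖ := (Complex.abs_im_le_norm _).trans (norm_le_pi_norm h i)
      have hy1 : y + g ∈ Gd D (δ' / 2) := by
        refine gd_mono (δ₂ := δ' - ‖h‖) (by linarith only [hδ', hh3]) (gd_near hy ?_)
        rw [add_sub_cancel_left]
        exact hgn
      have hy2 : y + g + ((h i).re : ℂ) • (Pi.single i 1 : Vd (k + 1)) ∈ Gd D (δ' / 2) := by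
        refine gd_mono (δ₂ := δ' - (‖h‖ + ‖h‖)) (by linarith) (gd_near hy ?_)
        rw [add_assoc, add_sub_cancel_left]
        refine (norm_add_le _ _).trans (add_le_add hgn ?_)
        rw [norm_smul, Complex.norm_real, Real.norm_eq_abs]
        refine (mul_le_of_le_one_right (abs_nonneg _) ?_).trans hre
        rw [Pi.norm_single, norm_one]
      have a1 := h₁ φ hφ _ hy1 _ (hre.trans hh1)
      have a2 := h₂ φ hφ _ hy2 _ (him.trans hh2)
      have e : (y + fun j => if j ∈ insert i s then h j else 0) =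
          y + g + ((h i).re : ℂ) • (Pi.single i 1 : Vd (k + 1)) + ((h i).im : ℂ) • (Pi.single i Complex.I : Vd (k + 1)) := by
        funext j
        rcases eq_or_ne j i with rfl | hji
        · simp only [Pi.add_apply, Finset.mem_insert_self, if_true, hg, his, if_false, Pi.smul_apply, Pi.single_eq_same, smul_eq_mul, mul_one, add_zero]
          rw [add_assoc, Complex.re_add_im]
        · simp [hg, hji]
      rw [e]
      calc dist (φ (y + g + ((h i).re : ℂ) • (Pi.single i 1 : Vd (k + 1)) + ((h i).im : ℂ) • (Pi.single i Complex.I : Vd (k + 1)))) (φ y)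
          ≤ dist (φ (y + g + ((h i).re : ℂ) • (Pi.single i 1 : Vd (k + 1)) + ((h i).im : ℂ) • (Pi.single i Complex.I : Vd (k + 1)))) (φ (y + g + ((h i).re : ℂ) • (Pi.single i 1 : Vd (k + 1)))) +
              dist (φ (y + g + ((h i).re : ℂ) • (Pi.single i 1 : Vd (k + 1)))) (φ (y + g)) + dist (φ (y + g)) (φ y) := dist_triangle4 _ _ _ _
        _ ≤ K₂ * ‖h‖ + K₁ * ‖h‖ + K₀ * ‖h‖ :=
            add_le_add (add_le_add (a2.trans (mul_le_mul_of_nonneg_left him hK₂.le)) (a1.trans (mul_le_mul_of_nonneg_left hre hK₁.le))) a0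
        _ = (K₀ + K₁ + K₂) * ‖h‖ := by ring
  obtain ⟨r, C, hr, hC, h⟩ := key Finset.univ
  refine ⟨r, C, hr, hC, fun φ hφ y hy y' hy' => ?_⟩
  have h1 := h φ hφ y hy (y' - y) hy'
  have e : (y + fun i => if i ∈ (Finset.univ : Finset (Fin (k + 1))) then (y' - y) i else 0) = y' := by
    funext i
    simp
  rwa [e] at h1

end Pool.Agent.G4.R

end
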