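import Pool.Agent.H94.G5T.M106
import Pool.Agent.H94.G5T.M110
import Pool.Agent.H94.G5T.M112
import Pool.Agent.H94.G5T.M130
import Pool.Agent.H94.G5T.M94

/-! The parts of this file: TG.SaB, TG.SaC, TG.SaP, TG.SaP_1, TG.SaS. -/

section

/-!
# TG SaB: meromorphic maps of order two from `ℂ^g` to varieties over complex tori are mapped to affine maps

`F : ℂ^g → EN N` is an entire function, zeros allowed, with `F z ∈ X` if `F z ≠ 0` and `log |F z| ≤ C (1 + |z|²)`.
-/

set_option autoImplicit false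

open Topology Filter Metric

noncomputable section

namespace Pool.Agent.TG

open Pool.Agent.H36.BP (EN fs wd)
open Pool.Agent.H14.PP (IsCone CurveAt Tan)
open Pool.Agent.AD (Vd Charts TorusMapV DiscreteSub)

variable {N n g d : ℕ} {X : Set (EN N)} {Λ : AddSubgroup (Vd n)} {u : EN N → Vd n}

/-- differentiable functions of several variables are analytic -/
theorem analyticAt_vd {E : Type*} [NormedAddCommGroup E] [NormedSpace ℂ E] [CompleteSpace E] {f : Vd g → E} (hf : Differentiable ℂ f) (w : Vd g) :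
    AnalyticAt ℂ f w := by
  have h1 : ∀ᶠ y in 𝓝 w, ‖f y‖ < ‖f w‖ + 1 := hf.continuous.norm.continuousAt.eventually_lt continuousAt_const (lt_add_one _)
  obtain ⟨r, hr, hb⟩ := Metric.eventually_nhds_iff_ball.1 h1
  refine Pool.Agent.TN.osgood_pi hr (M := ‖f w‖ + 1) (fun y hy => (hb y hy).le) fun y _ l => ?_
  have h2 : Differentiable ℂ fun t : ℂ => y + t • (Pi.single l 1 : Vd g) := by fun_prop
  exact (hf.comp h2) 0

/-- a holomorphic curve in `ℂ^n` with values in a discrete group near `0` is constant near `0` -/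
theorem deriv_zero_of_mem (hΛ : DiscreteSub Λ) {h : ℂ → Vd n} (hh : AnalyticAt ℂ h 0) (hm : ∀ᶠ z in 𝓝 (0 : ℂ), h z ∈ Λ) : ∀ᶠ z in 𝓝 (0 : ℂ), h z = h 0 :=
  Pool.Agent.AD.eventually_const_of_mem hΛ hh.continuousAt hm

theorem eq_of_smul_mem (hΛ : DiscreteSub Λ) {a b : Vd n} (hm : ∀ᶠ z : ℂ in 𝓝 (0 : ℂ), z • a - z • b ∈ Λ) : a = b := by
  have h1 := deriv_zero_of_mem hΛ (h := fun z : ℂ => z • a - z • b) (by fun_prop) hm
  have h2 : ∀ᶠ z : ℂ in 𝓝[≠] (0 : ℂ), z • a - z • b = (0 : ℂ) • a - (0 : ℂ) • b := h1.filter_mono nhdsWithin_le_nhds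
  obtain ⟨z, hz, hz0⟩ := (h2.and self_mem_nhdsWithin).exists
  rw [zero_smul, zero_smul, sub_zero, ← smul_sub, smul_eq_zero] at hz
  exact sub_eq_zero.1 (hz.resolve_left hz0)

/-- the restriction of `F` to a line has order two -/
theorem line_growth {F : Vd g → EN N} {C : ℝ} (hC : ∀ z, ‖F z‖ ≤ Real.exp (C * (1 + ‖z‖ ^ 2))) (y v : Vd g) :
    ∀ s : ℂ, ‖F (y + s • v)‖ ≤ Real.exp (|C| * (1 + 2 * ‖y‖ ^ 2 + 2 * ‖v‖ ^ 2) * (1 + ‖s‖ ^ 2)) := by
  intro s
  refine (hC _).trans (Real.exp_le_exp.2 ?_)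
  have h1 : ‖y + s • v‖ ≤ ‖y‖ + ‖s‖ * ‖v‖ := (norm_add_le _ _).trans (by rw [norm_smul])
  have h2 : ‖y + s • v‖ ^ 2 ≤ 2 * ‖y‖ ^ 2 + 2 * (‖s‖ ^ 2 * ‖v‖ ^ 2) := by
    have h3 : ‖y + s • v‖ ^ 2 ≤ (‖y‖ + ‖s‖ * ‖v‖) ^ 2 := pow_le_pow_left₀ (norm_nonneg _) h1 2
    nlinarith [sq_nonneg (‖y‖ - ‖s‖ * ‖v‖)]
  have h4 : 1 + ‖y + s • v‖ ^ 2 ≤ (1 + 2 * ‖y‖ ^ 2 + 2 * ‖v‖ ^ 2) * (1 + ‖s‖ ^ 2) := by
    nlinarith [sq_nonneg ‖s‖, sq_nonneg ‖y‖, sq_nonneg ‖v‖, mul_nonneg (sq_nonneg ‖s‖) (sq_nonneg ‖y‖), mul_nonneg (sq_nonneg ‖s‖) (sq_nonneg ‖v‖)]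
  calc C * (1 + ‖y + s • v‖ ^ 2) ≤ |C| * (1 + ‖y + s • v‖ ^ 2) := mul_le_mul_of_nonneg_right (le_abs_self C) (by positivity)
    _ ≤ |C| * ((1 + 2 * ‖y‖ ^ 2 + 2 * ‖v‖ ^ 2) * (1 + ‖s‖ ^ 2)) := mul_le_mul_of_nonneg_left h4 (abs_nonneg _)
    _ = _ := by ring

theorem line_diff {F : Vd g → EN N} (hF : Differentiable ℂ F) (y v : Vd g) : Differentiable ℂ fun s : ℂ => F (y + s • v) := by
  have h1 : Differentiable ℂ fun s : ℂ => y + s • v := by fun_prop
  exact hF.comp h1

/-- **Meromorphic maps of order two are mapped to affine maps.** -/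
theorem exists_linear (hX : IsCone X) (hch : Charts d X) (hu : TorusMapV X Λ u) (hΛ : DiscreteSub Λ) {F : Vd g → EN N}
    (hF : Differentiable ℂ F) (hFX : ∀ z, F z ≠ 0 → F z ∈ X) {C : ℝ} (hC : ∀ z, ‖F z‖ ≤ Real.exp (C * (1 + ‖z‖ ^ 2))) {y : Vd g} (hy : F y ≠ 0) :
    ∃ B : Vd g →L[ℂ] Vd n, (∀ z, F z ≠ 0 → u (F z) - (u (F y) + B (z - y)) ∈ Λ) ∧
      ∀ w, F w ≠ 0 → ∀ v, ∃ G : ℂ → EN N, Differentiable ℂ G ∧ (∀ s, G s ∈ X) ∧ (∀ s : ℂ, ∃ c : ℂ, F (w + s • v) = c • G s) ∧
        ∀ s : ℂ, u (G s) - (u (F w) + s • B v) ∈ Λ := by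
  have hyX := hFX y hy
  obtain ⟨v₀, hv₀, hv₀u⟩ := hu.loc _ hyX
  have hFan : ∀ z, AnalyticAt ℂ F z := analyticAt_vd hF
  have hFc := hF.continuous
  obtain ⟨ψ, hψ⟩ : ∃ ψ : Vd g → Vd n, ψ = fun z => v₀ (F z) := ⟨_, rfl⟩
  have hψan : AnalyticAt ℂ ψ y := by
    rw [hψ]
    exact AnalyticAt.comp (g := v₀) (f := F) hv₀ (hFan y)
  have hψu : ∀ᶠ z in 𝓝 y, u (F z) - ψ z ∈ Λ := by
    filter_upwards [hFc.continuousAt.eventually hv₀u, hFc.continuousAt.eventually_ne hy] with z h1 h2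
    rw [hψ]
    exact h1 (hFX z h2)
  -- a line through a point
  have hline : ∀ w, F w ≠ 0 → ∀ v, ∃ (G : ℂ → EN N) (a : Vd n), Differentiable ℂ G ∧ (∀ s, G s ∈ X) ∧ (∀ s : ℂ, ∃ c : ℂ, F (w + s • v) = c • G s) ∧
      ∀ s : ℂ, u (G s) - (u (F w) + s • a) ∈ Λ := by
    intro w hw v
    obtain ⟨G, a, h1, h2, h3, h4⟩ := exists_curve_affine hX hch hu hΛ (F := fun s : ℂ => F (w + s • v)) (line_diff hF w v)
      (fun s hs => hFX _ hs) (by simpa using hw) (line_growth hC w v)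
    refine ⟨G, a, h1, h2, h3, fun s => ?_⟩
    have h5 := h4 s
    simp only [zero_smul, add_zero] at h5
    exact h5
  -- the value of `u` at a point of the line
  have hval : ∀ w (v : Vd g) (G : ℂ → EN N) (s : ℂ), (∀ s, G s ∈ X) → F (w + s • v) ≠ 0 → (∃ c : ℂ, F (w + s • v) = c • G s) →
      u (F (w + s • v)) - u (G s) ∈ Λ := by
    rintro w v G s hGX hne ⟨c, hc⟩
    have hc0 : c ≠ 0 := by
      rintro rfl
      rw [zero_smul] at hc
      exact hne hc
    rw [hc]
    exact hu.smul _ (hGX s) c hc0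
  have hB : ∀ z, F z ≠ 0 → u (F z) - (u (F y) + fderiv ℂ ψ y (z - y)) ∈ Λ := by
    intro z hz
    obtain ⟨G, a, hG, hGX, hFG, hGu⟩ := hline y hy (z - y)
    have hcl : ContinuousAt (fun s : ℂ => y + s • (z - y)) 0 := by fun_prop
    have hcl' : Tendsto (fun s : ℂ => y + s • (z - y)) (𝓝 0) (𝓝 y) := by
      have := hcl.tendsto
      simpa using this
    have ha : fderiv ℂ ψ y (z - y) = a := by
      have h1 := Pool.Agent.AD.deriv_eq_of_mem (Λ := Λ) hΛ (h := fun s : ℂ => ψ (y + s • (z - y))) (k := fun s : ℂ => u (F y) + s • a) (z₀ := 0)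
        (by
          have h2 : AnalyticAt ℂ (fun s : ℂ => y + s • (z - y)) 0 := by fun_prop
          refine AnalyticAt.comp (g := ψ) (f := fun s : ℂ => y + s • (z - y)) ?_ h2
          show AnalyticAt ℂ ψ (y + (0 : ℂ) • (z - y))
          rwa [zero_smul, add_zero])
        (by fun_prop) (by
          filter_upwards [hcl'.eventually hψu, hcl'.eventually (hFc.continuousAt.eventually_ne hy)] with s h3 h4
          have h5 := Λ.add_mem (Λ.sub_mem (hval y (z - y) G s hGX h4 (hFG s)) h3) (hGu s)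
          have h6 : ψ (y + s • (z - y)) - (u (F y) + s • a) = u (F (y + s • (z - y))) - u (G s) - (u (F (y + s • (z - y))) - ψ (y + s • (z - y))) +
              (u (G s) - (u (F y) + s • a)) := by abel
          rw [h6]
          exact h5)
      have h2 : HasDerivAt (fun s : ℂ => ψ (y + s • (z - y))) (fderiv ℂ ψ y (z - y)) 0 := by
        have h3 : HasFDerivAt ψ (fderiv ℂ ψ y) (y + (0 : ℂ) • (z - y)) := by
          rw [zero_smul, add_zero]
          exact hψan.differentiableAt.hasFDerivAt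
        have h4 : HasDerivAt (fun s : ℂ => y + s • (z - y)) (z - y) 0 := by
          have h5 : HasDerivAt (fun s : ℂ => s • (z - y)) ((1 : ℂ) • (z - y)) 0 := (hasDerivAt_id (0 : ℂ)).smul_const (z - y)
          rw [one_smul] at h5
          exact h5.const_add y
        exact h3.comp_hasDerivAt (0 : ℂ) h4
      have h3 : HasDerivAt (fun s : ℂ => u (F y) + s • a) a 0 := by
        have h5 : HasDerivAt (fun s : ℂ => s • a) ((1 : ℂ) • a) 0 := (hasDerivAt_id (0 : ℂ)).smul_const a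
        rw [one_smul] at h5
        exact h5.const_add (u (F y))
      rw [h2.deriv, h3.deriv] at h1
      exact h1
    have h1 := hGu 1
    have hz1 : y + (1 : ℂ) • (z - y) = z := by rw [one_smul, add_sub_cancel]
    have h2 := hval y (z - y) G 1 hGX (by rwa [hz1]) (hFG 1)
    rw [hz1] at h2
    rw [one_smul] at h1
    rw [ha]
    have h3 := Λ.add_mem h2 h1
    have h4 : u (F z) - u (G 1) + (u (G 1) - (u (F y) + a)) = u (F z) - (u (F y) + a) := by abel
    rwa [h4] at h3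
  refine ⟨fderiv ℂ ψ y, hB, fun w hw v => ?_⟩
  obtain ⟨G, a, hG, hGX, hFG, hGu⟩ := hline w hw v
  have hcl : ContinuousAt (fun s : ℂ => w + s • v) 0 := by fun_prop
  have hcl' : Tendsto (fun s : ℂ => w + s • v) (𝓝 0) (𝓝 w) := by
    have := hcl.tendsto
    simpa using this
  have ha : fderiv ℂ ψ y v = a := by
    refine eq_of_smul_mem hΛ ?_
    filter_upwards [hcl'.eventually (hFc.continuousAt.eventually_ne hw)] with s h1
    have h2 := hB _ h1
    have h3 := hB w hw
    have h4 := hval w v G s hGX h1 (hFG s)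
    have h5 := Λ.add_mem (Λ.sub_mem (Λ.sub_mem h4 h2) (Λ.neg_mem h3)) (hGu s)
    have h6 : fderiv ℂ ψ y (w + s • v - y) = fderiv ℂ ψ y (w - y) + s • fderiv ℂ ψ y v := by
      have h7 : w + s • v - y = (w - y) + s • v := by abel
      rw [h7, map_add, map_smul]
    rw [h6] at h5
    have h7 : u (F (w + s • v)) - u (G s) - (u (F (w + s • v)) - (u (F y) + (fderiv ℂ ψ y (w - y) + s • fderiv ℂ ψ y v))) -
        -(u (F w) - (u (F y) + fderiv ℂ ψ y (w - y))) + (u (G s) - (u (F w) + s • a)) = s • fderiv ℂ ψ y v - s • a := by abel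
    rwa [h7] at h5
  refine ⟨G, hG, hGX, hFG, fun s => ?_⟩
  rw [ha]
  exact hGu s

/-- **The linear part is zero in the directions of exponential growth.** -/
theorem map_zero_of_growth (hX : IsCone X) (hch : Charts d X) (hu : TorusMapV X Λ u) (hΛ : DiscreteSub Λ) {F : Vd g → EN N}
    (hF : Differentiable ℂ F) (hFX : ∀ z, F z ≠ 0 → F z ∈ X) {y : Vd g} (hy : F y ≠ 0) {B : Vd g →L[ℂ] Vd n}
    (hB : ∀ z, F z ≠ 0 → u (F z) - (u (F y) + B (z - y)) ∈ Λ) {t : Vd g} {C : ℝ}
    (hC : ∀ s : ℂ, ‖F (y + s • t)‖ ≤ Real.exp (C * (1 + ‖s • t‖))) : B t = 0 := by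
  have hFc := hF.continuous
  have hd : Differentiable ℂ fun s : ℂ => F (y + (s ^ 2) • t) := by
    have h1 : Differentiable ℂ fun s : ℂ => y + (s ^ 2) • t := by fun_prop
    exact hF.comp h1
  obtain ⟨G, a, hG, hGX, hFG, hGu⟩ := exists_curve_affine hX hch hu hΛ (F := fun s : ℂ => F (y + (s ^ 2) • t)) hd
    (fun s hs => hFX _ hs) (by simpa using hy) (C := |C| * (1 + ‖t‖)) (fun s => by
      refine (hC _).trans (Real.exp_le_exp.2 ?_)
      rw [norm_smul, norm_pow]
      calc C * (1 + ‖s‖ ^ 2 * ‖t‖) ≤ |C| * (1 + ‖s‖ ^ 2 * ‖t‖) := mul_le_mul_of_nonneg_right (le_abs_self C) (by positivity)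
        _ ≤ |C| * ((1 + ‖t‖) * (1 + ‖s‖ ^ 2)) := mul_le_mul_of_nonneg_left (by nlinarith [sq_nonneg ‖s‖, norm_nonneg t]) (abs_nonneg _)
        _ = _ := by ring)
  simp only [ne_eq, OfNat.ofNat_ne_zero, not_false_eq_true, zero_pow, zero_smul, add_zero] at hGu
  have hcl : ContinuousAt (fun s : ℂ => y + (s ^ 2) • t) 0 := by fun_prop
  have hcl' : Tendsto (fun s : ℂ => y + (s ^ 2) • t) (𝓝 0) (𝓝 y) := by
    have := hcl.tendsto
    simpa using this
  have h1 : ∀ᶠ s : ℂ in 𝓝 (0 : ℂ), (s ^ 2) • B t - s • a ∈ Λ := by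
    filter_upwards [hcl'.eventually (hFc.continuousAt.eventually_ne hy)] with s h1
    have h2 := hB _ h1
    obtain ⟨c, hc⟩ := hFG s
    have hc0 : c ≠ 0 := by
      rintro rfl
      rw [zero_smul] at hc
      exact h1 hc
    have h3 := hu.smul _ (hGX s) c hc0
    rw [← hc] at h3
    have h4 := Λ.add_mem (Λ.sub_mem h3 h2) (hGu s)
    rw [add_sub_cancel_left, map_smul] at h4
    have h5 : u (F (y + s ^ 2 • t)) - u (G s) - (u (F (y + s ^ 2 • t)) - (u (F y) + s ^ 2 • B t)) + (u (G s) - (u (F y) + s • a)) =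
        s ^ 2 • B t - s • a := by abel
    rwa [h5] at h4
  have h2 := deriv_zero_of_mem hΛ (h := fun s : ℂ => (s ^ 2) • B t - s • a) (by fun_prop) h1
  simp only [ne_eq, OfNat.ofNat_ne_zero, not_false_eq_true, zero_pow, zero_smul, sub_zero] at h2
  have h3 : ∀ᶠ s : ℂ in 𝓝[≠] (0 : ℂ), s • B t = a := by
    filter_upwards [h2.filter_mono nhdsWithin_le_nhds, self_mem_nhdsWithin] with s h3 h4
    have h5 : s • (s • B t - a) = 0 := by rw [smul_sub, smul_smul, ← sq, h3]
    exact sub_eq_zero.1 ((smul_eq_zero.1 h5).resolve_left h4)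
  have h4 : Tendsto (fun s : ℂ => s • B t) (𝓝[≠] 0) (𝓝 ((0 : ℂ) • B t)) :=
    ((continuous_id.smul continuous_const).tendsto (0 : ℂ)).mono_left nhdsWithin_le_nhds
  rw [zero_smul] at h4
  have h5 : a = 0 := tendsto_nhds_unique (tendsto_const_nhds.congr' (h3.mono fun s hs => hs.symm)) h4
  obtain ⟨s, hs, hs0⟩ := (h3.and self_mem_nhdsWithin).exists
  rw [h5, smul_eq_zero] at hs
  exact hs.resolve_left hs0

/-- two nonzero entire functions on `ℂ^g` are both not zero at some point -/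
theorem exists_both_ne {E E' : Type*} [NormedAddCommGroup E] [NormedSpace ℂ E] [CompleteSpace E] [NormedAddCommGroup E'] [NormedSpace ℂ E'] [CompleteSpace E']
    {F : Vd g → E} (hF : Differentiable ℂ F) {F' : Vd g → E'} (hF' : Continuous F') (hy : ∃ y, F y ≠ 0) (hy' : ∃ y, F' y ≠ 0) : ∃ z, F z ≠ 0 ∧ F' z ≠ 0 := by
  by_contra hcon
  push Not at hcon
  obtain ⟨y, hy⟩ := hy
  obtain ⟨y', hy'⟩ := hy'
  apply hy
  have h1 : AnalyticOnNhd ℂ F Set.univ := fun z _ => analyticAt_vd hF z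
  refine h1.eqOn_zero_of_preconnected_of_eventuallyEq_zero isPreconnected_univ (Set.mem_univ y') ?_ (Set.mem_univ y)
  filter_upwards [hF'.continuousAt.eventually_ne hy'] with z hz
  by_contra h2
  exact hz (hcon z h2)

/-- **The linear part maps periods to periods.** -/
theorem map_period (hu : TorusMapV X Λ u) {F : Vd g → EN N}
    (hF : Differentiable ℂ F) (hFX : ∀ z, F z ≠ 0 → F z ∈ X) {y : Vd g} (hy : F y ≠ 0) {B : Vd g →L[ℂ] Vd n}
    (hB : ∀ z, F z ≠ 0 → u (F z) - (u (F y) + B (z - y)) ∈ Λ) {l : Vd g}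
    (hl : ∀ z i j, F (z + l) i * F z j = F (z + l) j * F z i) : B l ∈ Λ := by
  obtain ⟨z, h1, h2⟩ := exists_both_ne (F := F) (F' := fun z => F (z + l)) hF (hF.continuous.comp (continuous_id.add continuous_const)) ⟨y, hy⟩
    ⟨y - l, by simpa using hy⟩
  obtain ⟨j, hj⟩ := en_coord_ne h1
  have h3 : F (z + l) = (F (z + l) j / F z j) • F z := by
    ext i
    show F (z + l) i = F (z + l) j / F z j * F z i
    have h4 := hl z i j
    field_simp
    linear_combination h4
  have h4 : F (z + l) j / F z j ≠ 0 := by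
    intro h
    rw [h, zero_smul] at h3
    exact h2 h3
  have h5 := hu.smul _ (hFX z h1) _ h4
  rw [← h3] at h5
  have h6 := Λ.add_mem (Λ.sub_mem h5 (hB _ h2)) (hB z h1)
  have h7 : B (z + l - y) = B (z - y) + B l := by
    rw [← map_add]
    congr 1
    abel
  rw [h7] at h6
  have h8 : u (F (z + l)) - u (F z) - (u (F (z + l)) - (u (F y) + (B (z - y) + B l))) + (u (F z) - (u (F y) + B (z - y))) = B l := by abel
  rwa [h8] at h6

end Pool.Agent.TG

end
end

section

/-!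
# TG SaC: maps from semi-abelian varieties to varieties over complex tori, the four cases

`F : ℂ^g → EN N` is an entire function, zeros allowed, with `F z ∈ X` if `F z ≠ 0`, `log |F z| ≤ C (1 + |z|²)`, `log |F (z + t)| ≤ C_z (1 + |t|)` for `t ∈ T`,
and the periods `L`; `T` and `L` span `ℂ^g` over the real numbers.
-/

set_option autoImplicit false

open Topology Filter Metric

noncomputable section

namespace Pool.Agent.TG

open Pool.Agent.H36.BP (EN fs wd)
open Pool.Agent.H14.PP (IsCone CurveAt Tan)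
open Pool.Agent.AD (Vd Charts TorusMapV DiscreteSub zeroLength)

variable {N n g d : ℕ} {X : Set (EN N)} {Λ : AddSubgroup (Vd n)} {u : EN N → Vd n}

/-- the fibre over `y` -/
def SaFb (X : Set (EN N)) (Λ : AddSubgroup (Vd n)) (u : EN N → Vd n) (y : Vd n) : Set (EN N) := {x | x ∈ X ∧ u x - y ∈ Λ}

theorem isCone_saFb (hX : IsCone X) (hu : TorusMapV X Λ u) (hΛ : DiscreteSub Λ) (y : Vd n) : IsCone (SaFb X Λ u y) := by
  refine ⟨fun h => hX.zero_notMem h.1, fun x hx c hc => ⟨hX.smul_mem x hx.1 c hc, ?_⟩, ?_⟩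
  · have h1 := Λ.add_mem (hu.smul x hx.1 c hc) hx.2
    rwa [sub_add_sub_cancel] at h1
  · rw [← isOpen_compl_iff, isOpen_iff_mem_nhds]
    intro x hx
    have hx0 : x ≠ 0 := fun h => hx (h ▸ Set.mem_insert _ _)
    have hxF : x ∉ SaFb X Λ u y := fun h => hx (Or.inr h)
    have hne : ∀ᶠ w in 𝓝 x, w ≠ 0 := continuousAt_id.eventually_ne hx0
    by_cases hxX : x ∈ X
    · obtain ⟨v, hv, hvu⟩ := hu.loc x hxX
      obtain ⟨δ, hδ, hd⟩ := hΛ
      have hvx : v x - y ∉ Λ := by
        intro h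
        apply hxF
        refine ⟨hxX, ?_⟩
        have h1 := Λ.add_mem (hvu.self_of_nhds hxX) h
        rwa [sub_add_sub_cancel] at h1
      by_cases hfar : ∀ᶠ w in 𝓝 x, v w - y ∉ Λ
      · filter_upwards [hne, hfar, hvu] with w h1 h2 h3 h4
        rcases h4 with h4 | h4
        · exact h1 h4
        · apply h2
          have h5 := Λ.sub_mem h4.2 (h3 h4.1)
          rwa [sub_sub_sub_cancel_left] at h5
      · have hball : ∀ᶠ w in 𝓝 x, ‖v w - v x‖ < δ / 2 := by
          have h1 := hv.continuousAt.eventually (ball_mem_nhds (v x) (half_pos hδ))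
          filter_upwards [h1] with w hw
          rw [← dist_eq_norm]
          exact hw
        obtain ⟨w₀, hw₀, hw₀'⟩ : ∃ w₀, v w₀ - y ∈ Λ ∧ ‖v w₀ - v x‖ < δ / 2 := by
          by_contra hcon
          push Not at hcon
          apply hfar
          filter_upwards [hball] with w hw hw2
          exact absurd hw (not_lt.2 (hcon w hw2))
        have hxw : v x ≠ v w₀ := by
          intro h
          rw [h] at hvx
          exact hvx hw₀
        filter_upwards [hne, hball, hvu, hv.continuousAt.eventually_ne hxw] with w h1 h2 h3 h4 h5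
        rcases h5 with h5 | h5
        · exact h1 h5
        · apply h4
          have h6 := Λ.sub_mem h5.2 (h3 h5.1)
          rw [sub_sub_sub_cancel_left] at h6
          have h7 := Λ.sub_mem h6 hw₀
          rw [sub_sub_sub_cancel_right] at h7
          have h8 : ‖v w - v w₀‖ < δ := by
            calc ‖v w - v w₀‖ = ‖(v w - v x) - (v w₀ - v x)‖ := by congr 1; abel
              _ ≤ ‖v w - v x‖ + ‖v w₀ - v x‖ := norm_sub_le _ _
              _ < δ := by linarith
          exact sub_eq_zero.1 (hd _ h7 h8)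
    · have h1 : (insert 0 X)ᶜ ∈ 𝓝 x := hX.closed.isOpen_compl.mem_nhds (by
        rintro (h | h)
        · exact hx0 h
        · exact hxX h)
      filter_upwards [h1] with w hw hw2
      rcases hw2 with hw2 | hw2
      · exact hw (Or.inl hw2)
      · exact hw (Or.inr hw2.1)

/-- **Brody's lemma in a fibre**: if the entire curves with bounded derivative in the fibre are constant then all entire curves in the fibre are constant. -/
theorem fibre_const (hX : IsCone X) (hu : TorusMapV X Λ u) (hΛ : DiscreteSub Λ) {y : Vd n}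
    (h : ∀ F : ℂ → EN N, Differentiable ℂ F → (∀ z, F z ∈ X) → (∀ z, u (F z) - y ∈ Λ) → (∃ L : ℝ, ∀ z, fs (F z) (deriv F z) ≤ L) →
      ∀ z w, ∃ c : ℂ, F z = c • F w)
    {F : ℂ → EN N} (hF : Differentiable ℂ F) (hFX : ∀ z, F z ∈ X) (hFu : ∀ z, u (F z) - y ∈ Λ) (z w : ℂ) : ∃ c : ℂ, F z = c • F w := by
  have hc := isCone_saFb hX hu hΛ y
  obtain ⟨L, -, hL⟩ := Pool.Agent.H22.W.exists_lipschitz hc (zeroLength (SaFb X Λ u y)) (fun G hG hGX hG1 _ =>
    h G hG (fun z => (hGX z).1) (fun z => (hGX z).2) ⟨1, hG1⟩)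
  exact h F hF hFX hFu ⟨L, hL F hF (fun z => ⟨hFX z, hFu z⟩) fun z => zero_le_one⟩ z w

/-- `F` is an entire representative of a meromorphic map from `ℂ^g / L` to `X`, of the type of the rational maps from semi-abelian varieties -/
structure Rep (X : Set (EN N)) (F : Vd g → EN N) (T : Submodule ℂ (Vd g)) (L : AddSubgroup (Vd g)) : Prop where
  diff : Differentiable ℂ F
  ne : ∃ z, F z ≠ 0
  mem : ∀ z, F z ≠ 0 → F z ∈ X
  growth : ∃ C : ℝ, ∀ z, ‖F z‖ ≤ Real.exp (C * (1 + ‖z‖ ^ 2))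
  torus : ∀ z, ∃ C : ℝ, ∀ t ∈ T, ‖F (z + t)‖ ≤ Real.exp (C * (1 + ‖t‖))
  periodic : ∀ l ∈ L, ∀ z i j, F (z + l) i * F z j = F (z + l) j * F z i
  span : T.restrictScalars ℝ ⊔ Submodule.span ℝ (L : Set (Vd g)) = ⊤

/-- two entire functions which are proportional on a nonempty open set are proportional -/
theorem prop_of_open {F G : Vd g → EN N} (hF : Differentiable ℂ F) (hG : Differentiable ℂ G) {z₀ : Vd g}
    (h : ∀ᶠ z in 𝓝 z₀, ∀ i j, F z i * G z j = F z j * G z i) (z : Vd g) (i j : Fin (N + 1)) : F z i * G z j = F z j * G z i := by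
  have hco : ∀ {H : Vd g → EN N}, Differentiable ℂ H → ∀ k, Differentiable ℂ fun z => H z k := fun {H} hH k =>
    (EuclideanSpace.proj (𝕜 := ℂ) k : EN N →L[ℂ] ℂ).differentiable.comp hH
  have hd : Differentiable ℂ fun z => F z i * G z j - F z j * G z i := ((hco hF i).mul (hco hG j)).sub ((hco hF j).mul (hco hG i))
  have h1 : AnalyticOnNhd ℂ (fun z => F z i * G z j - F z j * G z i) Set.univ := fun z _ => analyticAt_vd hd z
  have h2 := h1.eqOn_zero_of_preconnected_of_eventuallyEq_zero isPreconnected_univ (Set.mem_univ z₀) (by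
    filter_upwards [h] with z hz
    show F z i * G z j - F z j * G z i = 0
    rw [hz, sub_self]) (Set.mem_univ z)
  exact sub_eq_zero.1 h2

theorem prop_of_smul {x y : EN N} {c : ℂ} (h : x = c • y) (i j : Fin (N + 1)) : x i * y j = x j * y i := by
  rw [h]
  show c * y i * y j = c * y j * y i
  ring

theorem prop_trans {x y z : EN N} (hy : y ≠ 0) (h1 : ∀ i j, x i * y j = x j * y i) (h2 : ∀ i j, y i * z j = y j * z i) (i j : Fin (N + 1)) :
    x i * z j = x j * z i := by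
  obtain ⟨k, hk⟩ := en_coord_ne hy
  apply mul_left_cancel₀ (mul_ne_zero hk hk)
  have e1 : x i * y k = x k * y i := h1 i k
  have e2 : x j * y k = x k * y j := h1 j k
  have e3 : y k * z j = y j * z k := h2 k j
  have e4 : y k * z i = y i * z k := h2 k i
  calc y k * y k * (x i * z j) = (x i * y k) * (y k * z j) := by ring
    _ = (x k * y i) * (y j * z k) := by rw [e1, e3]
    _ = (x k * y j) * (y i * z k) := by ring
    _ = (x j * y k) * (y k * z i) := by rw [← e2, ← e4]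
    _ = y k * y k * (x j * z i) := by ring

/-- the points on a line in a fibre over a good value are proportional -/
theorem prop_line (hu : TorusMapV X Λ u) {D : Set (Vd n)}
    (hfib : ∀ y, y ∉ D → ∀ G : ℂ → EN N, Differentiable ℂ G → (∀ z, G z ∈ X) → (∀ z, u (G z) - y ∈ Λ) → ∀ z w, ∃ c : ℂ, G z = c • G w)
    {F : Vd g → EN N} {B : Vd g →L[ℂ] Vd n} {w v : Vd g} {y : Vd n} (hy : y ∉ D) (hwy : u (F w) - y ∈ Λ) (hv : B v = 0)
    (hw : F w ≠ 0)
    (hl : ∃ G : ℂ → EN N, Differentiable ℂ G ∧ (∀ s, G s ∈ X) ∧ (∀ s : ℂ, ∃ c : ℂ, F (w + s • v) = c • G s) ∧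
        ∀ s : ℂ, u (G s) - (u (F w) + s • B v) ∈ Λ) (i j : Fin (N + 1)) : F (w + v) i * F w j = F (w + v) j * F w i := by
  obtain ⟨G, hG, hGX, hFG, hGu⟩ := hl
  have h1 := hfib y hy G hG hGX (fun s => by
    have h2 := Λ.add_mem (hGu s) hwy
    rw [hv, smul_zero, add_zero, sub_add_sub_cancel] at h2
    exact h2)
  obtain ⟨c₁, hc₁⟩ := hFG 1
  obtain ⟨c₀, hc₀⟩ := hFG 0
  rw [one_smul] at hc₁
  rw [zero_smul, add_zero] at hc₀
  obtain ⟨c, hc⟩ := h1 1 0
  have hc₀' : c₀ ≠ 0 := by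
    rintro rfl
    rw [zero_smul] at hc₀
    exact hw hc₀
  refine prop_of_smul (c := c₁ * c * c₀⁻¹) ?_ i j
  rw [hc₁, hc, hc₀, smul_smul, smul_smul, mul_assoc (c₁ * c), inv_mul_cancel₀ hc₀', mul_one]

/-- **The four cases.** -/
theorem rep_cases (hX : IsCone X) (hch : Charts d X) (hu : TorusMapV X Λ u) (hΛ : DiscreteSub Λ) {D : Set (Vd n)} (hD : IsClosed D) (hDi : interior D = ∅)
    (hfib : ∀ y, y ∉ D → ∀ G : ℂ → EN N, Differentiable ℂ G → (∀ z, G z ∈ X) → (∀ z, u (G z) - y ∈ Λ) → ∀ z w, ∃ c : ℂ, G z = c • G w)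
    {F : Vd g → EN N} {T : Submodule ℂ (Vd g)} {L : AddSubgroup (Vd g)} (hF : Rep X F T L) :
    (∃ b ∈ D, ∀ z, F z ≠ 0 → u (F z) - b ∈ Λ) ∨ (∀ z w i j, F z i * F w j = F z j * F w i) ∨
      ∃ (B : Vd g →L[ℂ] Vd n) (c : Vd n), (∀ z, F z ≠ 0 → u (F z) - (B z + c) ∈ Λ) ∧
        ((∃ z, B z ≠ 0) ∧ (∃ y, ∀ z, B z ≠ y) ∧ (∀ z, B z ∈ Submodule.span ℝ {l : Vd n | l ∈ Λ ∧ ∃ z, B z = l}) ∨
        Function.Surjective B ∧ ∃ G : Vd n → EN N, Differentiable ℂ G ∧ (∃ y, G y ≠ 0) ∧ (∀ y, G y ≠ 0 → G y ∈ X ∧ u (G y) - y ∈ Λ) ∧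
          ∀ z i j, F z i * G (B z + c) j = F z j * G (B z + c) i) := by
  obtain ⟨y, hy⟩ := hF.ne
  obtain ⟨C, hC⟩ := hF.growth
  obtain ⟨B, hB, hBl⟩ := exists_linear hX hch hu hΛ hF.diff hF.mem hC hy
  have hBT : ∀ t ∈ T, B t = 0 := by
    intro t ht
    obtain ⟨C', hC'⟩ := hF.torus y
    exact map_zero_of_growth hX hch hu hΛ hF.diff hF.mem hy hB (C := C') fun s => hC' _ (T.smul_mem s ht)
  have hBL : ∀ l ∈ L, B l ∈ Λ := fun l hl => map_period hu hF.diff hF.mem hy hB (hF.periodic l hl)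
  have hspan : ∀ z, B z ∈ Submodule.span ℝ {l : Vd n | l ∈ Λ ∧ ∃ z, B z = l} := by
    intro z
    have hz : z ∈ T.restrictScalars ℝ ⊔ Submodule.span ℝ (L : Set (Vd g)) := by
      rw [hF.span]
      exact Submodule.mem_top
    obtain ⟨t, ht, l, hl, rfl⟩ := Submodule.mem_sup.1 hz
    rw [map_add, hBT t ht, zero_add]
    have h1 : (B.restrictScalars ℝ : Vd g →ₗ[ℝ] Vd n) l ∈ Submodule.map (B.restrictScalars ℝ : Vd g →ₗ[ℝ] Vd n) (Submodule.span ℝ (L : Set (Vd g))) :=
      Submodule.mem_map_of_mem hl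
    rw [Submodule.map_span] at h1
    refine Submodule.span_mono ?_ h1
    rintro _ ⟨l', hl', rfl⟩
    exact ⟨hBL l' hl', l', rfl⟩
  obtain ⟨c, hc⟩ : ∃ c : Vd n, c = u (F y) - B y := ⟨_, rfl⟩
  have hBc : ∀ z, F z ≠ 0 → u (F z) - (B z + c) ∈ Λ := by
    intro z hz
    have h1 := hB z hz
    rw [map_sub] at h1
    have h2 : u (F z) - (B z + c) = u (F z) - (u (F y) + (B z - B y)) := by rw [hc]; abel
    rwa [h2]
  by_cases h0 : ∀ z, B z = 0
  · -- in one fibre
    have hconst : ∀ z, F z ≠ 0 → u (F z) - u (F y) ∈ Λ := by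
      intro z hz
      have h1 := hB z hz
      rwa [h0, add_zero] at h1
    by_cases hyD : u (F y) ∈ D
    · exact Or.inl ⟨_, hyD, hconst⟩
    · refine Or.inr (Or.inl fun z w => ?_)
      have hz : ∀ z i j, F z i * F y j = F z j * F y i := by
        intro z i j
        have h1 := prop_line (g := g) hu hfib (B := B) (w := y) (v := z - y) hyD (by rw [sub_self]; exact Λ.zero_mem) (h0 _) hy (hBl y hy (z - y)) i j
        rwa [add_sub_cancel] at h1
      exact prop_trans hy (hz z) fun i j => by linear_combination -hz w i j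
  · right; right
    push Not at h0
    refine ⟨B, c, hBc, ?_⟩
    by_cases hs : Function.Surjective B
    · right
      refine ⟨hs, ?_⟩
      obtain ⟨s, hs'⟩ : ∃ s : Vd n →L[ℂ] Vd g, ∀ y, B (s y) = y := by
        obtain ⟨s, hs'⟩ := (B : Vd g →ₗ[ℂ] Vd n).exists_rightInverse_of_surjective (LinearMap.range_eq_top.2 hs)
        exact ⟨LinearMap.toContinuousLinearMap s, fun y => LinearMap.congr_fun hs' y⟩
      obtain ⟨G, hG⟩ : ∃ G : Vd n → EN N, G = fun v => F (y + s (v - u (F y))) := ⟨_, rfl⟩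
      have hGd : Differentiable ℂ G := by
        rw [hG]
        have h1 : Differentiable ℂ fun v : Vd n => y + s (v - u (F y)) := by fun_prop
        exact hF.diff.comp h1
      have hGy : G (u (F y)) = F y := by
        rw [hG]
        simp
      have hGmem : ∀ v, G v ≠ 0 → G v ∈ X ∧ u (G v) - v ∈ Λ := by
        intro v hv
        have hv' : F (y + s (v - u (F y))) ≠ 0 := by rwa [hG] at hv
        have hGv : G v = F (y + s (v - u (F y))) := by rw [hG]
        rw [hGv]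
        refine ⟨hF.mem _ hv', ?_⟩
        have h1 := hB _ hv'
        rwa [add_sub_cancel_left, hs', add_sub_cancel] at h1
      refine ⟨G, hGd, ⟨_, by rw [hGy]; exact hy⟩, hGmem, ?_⟩
      -- a good point
      have hGB : Differentiable ℂ fun z : Vd g => G (B z + c) := by
        have h1 : Differentiable ℂ fun z : Vd g => B z + c := by fun_prop
        exact hGd.comp h1
      have hBy : B y + c = u (F y) := by rw [hc]; abel
      obtain ⟨z₁, hz₁, hz₁'⟩ := exists_both_ne (F := F) (F' := fun z : Vd g => G (B z + c)) hF.diff hGB.continuous ⟨y, hy⟩ ⟨y, by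
        show G (B y + c) ≠ 0
        rw [hBy, hGy]
        exact hy⟩
      obtain ⟨O, hO⟩ : ∃ O : Set (Vd g), O = {z | F z ≠ 0 ∧ G (B z + c) ≠ 0} := ⟨_, rfl⟩
      have hOo : IsOpen O := by
        rw [hO]
        exact (isOpen_ne_fun hF.diff.continuous continuous_const).inter (isOpen_ne_fun hGB.continuous continuous_const)
      have hBo : IsOpenMap B := B.isOpenMap hs
      have hBO : IsOpen ((fun v => v + c) '' (B '' O)) := (isOpenMap_add_right c) _ (hBo O hOo)
      obtain ⟨v, hv, hvD⟩ : ∃ v ∈ (fun v => v + c) '' (B '' O), v ∉ D := by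
        by_contra hcon
        push Not at hcon
        have h1 : (fun v => v + c) '' (B '' O) ⊆ interior D := interior_maximal hcon hBO
        rw [hDi] at h1
        exact h1 ⟨_, ⟨z₁, by rw [hO]; exact ⟨hz₁, hz₁'⟩, rfl⟩, rfl⟩
      obtain ⟨_, ⟨z₂, hz₂, rfl⟩, rfl⟩ := hv
      have hcont : Continuous fun z : Vd g => B z + c := by fun_prop
      refine prop_of_open hF.diff hGB (z₀ := z₂) ?_
      filter_upwards [hOo.mem_nhds hz₂, (hD.isOpen_compl.preimage hcont).mem_nhds hvD] with z h1 h2 i j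
      rw [hO] at h1
      obtain ⟨h3, h4⟩ := h1
      have hGz : G (B z + c) = F (y + s (B (z - y))) := by
        rw [hG]
        simp only
        congr 3
        rw [hc, map_sub]
        abel
      obtain ⟨w, hw⟩ : ∃ w, w = y + s (B (z - y)) := ⟨_, rfl⟩
      rw [hGz, ← hw]
      have hw0 : F w ≠ 0 := by
        rw [hw, ← hGz]
        exact h4
      have hBw : B w = B z := by
        rw [hw, map_add, hs', map_sub]
        abel
      have h5 := prop_line (g := g) hu hfib (B := B) (w := w) (v := z - w) (y := B z + c) h2 (by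
        have := hBc w hw0
        rwa [hBw] at this) (by rw [map_sub, hBw, sub_self]) hw0 (hBl w hw0 (z - w)) i j
      rwa [add_sub_cancel] at h5
    · left
      refine ⟨h0, ?_, hspan⟩
      unfold Function.Surjective at hs
      push Not at hs
      exact hs

end Pool.Agent.TG

end
end

section

/-!
# TG SaP: the four cases for maps to projective varieties
-/

set_option autoImplicit false

open Topology Filter Metric MvPolynomial

noncomputable section

namespace Pool.Agent.TG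

open Pool.Agent.H36.BP (EN fs wd)
open Pool.Agent.H14.PP (IsCone CurveAt Tan)
open Pool.Agent.AD (Vd Charts TorusMapV DiscreteSub)
open Pool.Agent.H17 (PN VanishesAt vanishesAt_mk_iff)
open Pool.Agent.H62.FC (Homog)
open Pool.Agent.H17EF (projVar coneE LE mk_mem_projVar mem_coneE)

variable {N n : ℕ} {P : Ideal (MvPolynomial (Fin (N + 1)) ℂ)}

theorem LE_ne {x : Fin (N + 1) → ℂ} : LE N x ≠ 0 ↔ x ≠ 0 := by
  refine not_congr ⟨fun h => (LE N).injective (h.trans (map_zero _).symm), fun h => by rw [h, map_zero]⟩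

theorem LE_bound : ∃ K : ℝ, 0 ≤ K ∧ ∀ x, ‖LE N x‖ ≤ Real.exp K * ‖x‖ := by
  refine ⟨‖((LE N : (Fin (N + 1) → ℂ) →L[ℂ] EN N))‖, norm_nonneg _, fun x => ?_⟩
  refine ((LE N : (Fin (N + 1) → ℂ) →L[ℂ] EN N).le_opNorm x).trans ?_
  exact mul_le_mul_of_nonneg_right ((le_add_of_nonneg_right zero_le_one).trans (Real.add_one_le_exp _)) (norm_nonneg x)

theorem mk_eq_of_prop {x y : Fin (N + 1) → ℂ} (hx : x ≠ 0) (hy : y ≠ 0) (h : ∀ i j, x i * y j = x j * y i) :
    Projectivization.mk ℂ x hx = Projectivization.mk ℂ y hy := by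
  obtain ⟨j, hj⟩ := Function.ne_iff.1 hy
  rw [Projectivization.mk_eq_mk_iff']
  refine ⟨x j / y j, ?_⟩
  funext i
  have hj' : y j ≠ 0 := hj
  show x j / y j * y i = x i
  have h1 := h i j
  field_simp
  linear_combination -h1

variable {k : ℕ} {Λ : AddSubgroup (Fin (k + 1) → ℂ)} {u : PN N → (Fin (k + 1) → ℂ) ⧸ Λ} {D B : Set (Vd (k + 1))}

theorem TMap.toV {X : Set (EN N)} {Λ : AddSubgroup (Vd (k + 1))} {u : EN N → Vd (k + 1)} (h : TMap X Λ u) : TorusMapV X Λ u := ⟨h.smul, h.loc⟩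

theorem Geo.interior_D {X : Set (EN N)} {Λ : AddSubgroup (Vd (k + 1))} {u : EN N → Vd (k + 1)} (h : Geo X Λ u D B) : interior D = ∅ := by
  rw [Set.eq_empty_iff_forall_notMem]
  intro y hy
  obtain ⟨φ, -, h1, h2⟩ := h.D_thin y
  apply h2
  filter_upwards [h1, isOpen_interior.mem_nhds hy] with z h3 h4
  exact h3 (interior_subset h4)

theorem Geo.fibre {X : Set (EN N)} {Λ : AddSubgroup (Vd (k + 1))} {u : EN N → Vd (k + 1)} (h : Geo X Λ u D B) (y : Vd (k + 1)) (hy : y ∉ D) (G : ℂ → EN N)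
    (hG : Differentiable ℂ G) (hGX : ∀ z, G z ∈ X) (hGu : ∀ z, u (G z) - y ∈ Λ) (z w : ℂ) : ∃ c : ℂ, G z = c • G w :=
  fibre_const h.cone h.tor.toV h.lat.disc (fun F hF hFX hFu hL => h.fib y hy F hF hFX hFu hL) hG hGX hGu z w

end Pool.Agent.TG

end
end

section

/-!
# TG SaP: the four cases for maps to projective varieties
-/

set_option autoImplicit false

open Topology Filter Metric MvPolynomial

noncomputable section

namespace Pool.Agent.TG

open Pool.Agent.H36.BP (EN fs wd)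
open Pool.Agent.H14.PP (IsCone CurveAt Tan)
open Pool.Agent.AD (Vd Charts TorusMapV DiscreteSub uV uV_eq sub_mem_iff torusMapV discreteSub_of IsHolomorphicTorusMap)
open Pool.Agent.H17 (PN VanishesAt vanishesAt_mk_iff)
open Pool.Agent.H62.FC (Homog)
open Pool.Agent.H17EF (projVar coneE LE mk_mem_projVar mem_coneE)

variable {N n : ℕ} {P : Ideal (MvPolynomial (Fin (N + 1)) ℂ)}

/-- a map of semi-abelian type as a map into the cone -/
theorem SabMap.rep (hP : Homog P) (S : SabMap N) (hS : imageOf S.F ⊆ projVar P) : Rep (coneE P) (fun z => LE N (S.F z)) S.T S.L := by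
  obtain ⟨K, hK0, hK⟩ := LE_bound (N := N)
  have hbd : ∀ {x : Fin (N + 1) → ℂ} {C t : ℝ}, 0 ≤ t → ‖x‖ ≤ Real.exp (C * (1 + t)) → ‖LE N x‖ ≤ Real.exp ((|C| + K) * (1 + t)) := by
    intro x C t ht hx
    refine (hK x).trans ?_
    calc Real.exp K * ‖x‖ ≤ Real.exp K * Real.exp (C * (1 + t)) := mul_le_mul_of_nonneg_left hx (Real.exp_pos _).le
      _ = Real.exp (K + C * (1 + t)) := by rw [Real.exp_add]
      _ ≤ Real.exp ((|C| + K) * (1 + t)) := by
          apply Real.exp_le_exp.2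
          have h1 : C * (1 + t) ≤ |C| * (1 + t) := mul_le_mul_of_nonneg_right (le_abs_self C) (by linarith)
          nlinarith
  refine ⟨(LE N).differentiable.comp S.differentiable, ?_, ?_, ?_, ?_, ?_, S.span⟩
  · obtain ⟨z, hz⟩ := S.ne_zero
    exact ⟨z, LE_ne.2 hz⟩
  · intro z hz
    have hz' : S.F z ≠ 0 := LE_ne.1 hz
    have h1 := hS ⟨z, hz', rfl⟩
    rw [mk_mem_projVar hP hz'] at h1
    show (LE N).symm (LE N (S.F z)) ∈ Pool.Agent.H13.SM.cone P
    rwa [ContinuousLinearEquiv.symm_apply_apply]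
  · obtain ⟨C, hC⟩ := S.growth
    exact ⟨|C| + K, fun z => hbd (sq_nonneg _) (hC z)⟩
  · intro z
    obtain ⟨C, hC⟩ := S.torus z
    exact ⟨|C| + K, fun t ht => hbd (norm_nonneg _) (hC t ht)⟩
  · intro l hl z i j
    exact S.periodic l hl z i j

variable {k : ℕ} {Λ : AddSubgroup (Fin (k + 1) → ℂ)} {u : PN N → (Fin (k + 1) → ℂ) ⧸ Λ} {D B : Set (Vd (k + 1))}

/-- **The four cases.** -/
theorem Geo.sabCases (hP : Homog P) (h : Geo (coneE P) Λ (uV Λ u) D B) (S : SabMap N) (hS : imageOf S.F ⊆ projVar P) :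
    SabCases (projVar P) Λ u D S := by
  have hR := S.rep hP hS
  have hval : ∀ z, ∀ hz : S.F z ≠ 0, ((uV Λ u (LE N (S.F z)) : Fin (k + 1) → ℂ) : (Fin (k + 1) → ℂ) ⧸ Λ) = u (Projectivization.mk ℂ (S.F z) hz) := by
    intro z hz
    have h1 : (LE N).symm (LE N (S.F z)) ≠ 0 := by rwa [ContinuousLinearEquiv.symm_apply_apply]
    rw [uV_eq Λ u h1]
    congr 1
  rcases rep_cases h.cone h.charts h.tor.toV h.lat.disc h.D_closed h.interior_D h.fibre hR with h1 | h1 | ⟨b, c, hbc, h1⟩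
  · left
    obtain ⟨b, hb, h2⟩ := h1
    refine ⟨b, hb, ?_⟩
    rintro _ ⟨z, hz, rfl⟩
    have h3 := h2 z (LE_ne.2 hz)
    rw [sub_mem_iff, hval z hz] at h3
    exact h3
  · right; left
    rintro _ ⟨z, hz, rfl⟩ _ ⟨w, hw, rfl⟩
    exact mk_eq_of_prop hz hw (h1 z w)
  · right; right
    refine ⟨(b : Vd S.g →ₗ[ℂ] Vd (k + 1)), c, fun z hz => ?_, ?_⟩
    · have h3 := hbc z (LE_ne.2 hz)
      rw [sub_mem_iff, hval z hz] at h3
      exact h3
    · rcases h1 with ⟨⟨z, hz⟩, ⟨y, hy⟩, h2⟩ | ⟨hs, G, hG, ⟨y, hy⟩, hGm, h2⟩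
      · left
        refine ⟨?_, ?_, ?_⟩
        · rintro _ ⟨w, rfl⟩
          exact h2 w
        · intro h3
          apply hz
          have h4 : b z ∈ LinearMap.range (b : Vd S.g →ₗ[ℂ] Vd (k + 1)) := ⟨z, rfl⟩
          rw [h3] at h4
          exact (Submodule.mem_bot ℂ).1 h4
        · intro h3
          have h4 : y ∈ LinearMap.range (b : Vd S.g →ₗ[ℂ] Vd (k + 1)) := by
            rw [h3]
            exact Submodule.mem_top
          obtain ⟨w, hw⟩ := h4
          exact hy w hw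
      · right
        refine ⟨hs, fun y => (LE N).symm (G y), ⟨(LE N).symm.differentiable.comp hG, ⟨y, ?_⟩, fun v hv => ?_⟩, fun z i j => h2 z i j⟩
        · intro h3
          apply hy
          have h4 := congrArg (LE N) h3
          rwa [ContinuousLinearEquiv.apply_symm_apply, map_zero] at h4
        · have hv' : G v ≠ 0 := by
            intro h3
            apply hv
            show (LE N).symm (G v) = 0
            rw [h3, map_zero]
          obtain ⟨h3, h4⟩ := hGm v hv'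
          refine ⟨?_, ?_⟩
          · rw [mk_mem_projVar hP hv]
            exact h3
          · rw [sub_mem_iff, uV_eq Λ u hv] at h4
            exact h4

end Pool.Agent.TG

end
end

section

/-!
# TG SaS: the special set of a variety over a simple torus, and of the varieties with a dominant rational map to it
-/

set_option autoImplicit false

open Topology Filter Metric MvPolynomial

noncomputable section

namespace Pool.Agent.TG

open Pool.Agent.H36.BP (EN)
open Pool.Agent.AD (Vd)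
open Pool.Agent.H17 (PN VanishesAt vanishesAt_mk_iff)
open Pool.Agent.H62.FC (Homog)
open Pool.Agent.H17LG.Variety (FunField)
open Pool.Agent.H17R (coordFun_ne_zero_iff)
open Pool.Agent.H17EF (projVar coneE LE mk_mem_projVar mem_coneE exists_point)
open Pool.Agent.H7.Bir (vals eval_comp)
open Pool.Agent.H7.Qup (const_of_root exists_eq_aux)
open Pool.Agent.H23.GU (rel rel_smul rel_vals exists_rat eval_smul)

variable {N M g : ℕ}

/-- a form along an entire map -/
theorem eval_differentiable {F : (Fin g → ℂ) → Fin (N + 1) → ℂ} (hF : Differentiable ℂ F) (Q : MvPolynomial (Fin (N + 1)) ℂ) :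
    Differentiable ℂ fun z => eval (F z) Q := by
  intro z
  have h1 : AnalyticAt ℂ (fun w => MvPolynomial.aeval (F w) Q) z :=
    AnalyticAt.aeval_mvPolynomial (fun i => analyticAt_vd (differentiable_pi.1 hF i) z) Q
  exact h1.differentiableAt

/-- an entire function which is `0` where another one is not `0` is `0` -/
theorem eq_zero_of_off {E' : Type*} [NormedAddCommGroup E'] {f : (Fin g → ℂ) → ℂ} (hf : Differentiable ℂ f) {F' : (Fin g → ℂ) → E'}
    (hF' : Continuous F') (hne : ∃ y, F' y ≠ 0) (h : ∀ z, F' z ≠ 0 → f z = 0) (z : Fin g → ℂ) : f z = 0 := by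
  obtain ⟨y, hy⟩ := hne
  have h1 : AnalyticOnNhd ℂ f Set.univ := fun z _ => analyticAt_vd hf z
  refine h1.eqOn_zero_of_preconnected_of_eventuallyEq_zero isPreconnected_univ (Set.mem_univ y) ?_ (Set.mem_univ z)
  filter_upwards [hF'.continuousAt.eventually_ne hy] with w hw
  exact h w hw

theorem eq_smul_of_prop {x y : Fin (N + 1) → ℂ} (hy : y ≠ 0) (h : ∀ i j, x i * y j = x j * y i) : ∃ c : ℂ, x = c • y := by
  obtain ⟨j, hj⟩ := Function.ne_iff.1 hy
  have hj' : y j ≠ 0 := hj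
  refine ⟨x j / y j, ?_⟩
  funext i
  show x i = x j / y j * y i
  have h1 := h i j
  field_simp
  linear_combination h1

/-- forms of the same degree at proportional points -/
theorem eval_prop {D : ℕ} {p q : MvPolynomial (Fin (N + 1)) ℂ} (hp : p.IsHomogeneous D) (hq : q.IsHomogeneous D) {x y : Fin (N + 1) → ℂ}
    (h : ∀ i j, x i * y j = x j * y i) : eval x p * eval y q = eval x q * eval y p := by
  by_cases hy : y = 0
  · by_cases hx : x = 0
    · rw [hx, hy, mul_comm]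
    · obtain ⟨c, hc⟩ := eq_smul_of_prop hx (x := y) fun i j => by linear_combination -h i j
      rw [hc, eval_smul hp, eval_smul hq]
      ring
  · obtain ⟨c, hc⟩ := eq_smul_of_prop hy h
    rw [hc, eval_smul hp, eval_smul hq]
    ring

/-- the growth of a form -/
theorem norm_eval_form {D : ℕ} {p : MvPolynomial (Fin (N + 1)) ℂ} (hp : p.IsHomogeneous D) (x : Fin (N + 1) → ℂ) :
    ‖eval x p‖ ≤ (∑ d ∈ p.support, ‖p.coeff d‖) * ‖x‖ ^ D := by
  rw [eval_eq', Finset.sum_mul]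
  refine (norm_sum_le _ _).trans (Finset.sum_le_sum fun d hd => ?_)
  rw [norm_mul, norm_prod]
  refine mul_le_mul_of_nonneg_left ?_ (norm_nonneg _)
  have h1 : ∑ i, d i = D := by
    have h2 := hp (mem_support_iff.1 hd)
    rw [Finsupp.weight_apply, Finsupp.sum_fintype _ _ (fun _ => by simp)] at h2
    simpa using h2
  calc ∏ i, ‖x i ^ d i‖ ≤ ∏ i, ‖x‖ ^ d i := by
        refine Finset.prod_le_prod (fun _ _ => norm_nonneg _) fun i _ => ?_
        rw [norm_pow]
        exact pow_le_pow_left₀ (norm_nonneg _) (norm_le_pi_norm x i) _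
    _ = ‖x‖ ^ D := by rw [Finset.prod_pow_eq_pow_sum, h1]

/-- a form of positive type vanishes along the maps of the types (i), (iv) -/
theorem sabUnion_vanishes {k : ℕ} {P : Ideal (MvPolynomial (Fin (N + 1)) ℂ)} {Λ : AddSubgroup (Fin (k + 1) → ℂ)}
    {u : PN N → (Fin (k + 1) → ℂ) ⧸ Λ} {D : Set (Fin (k + 1) → ℂ)} (hs : SimpleTorus Λ)
    (hcases : ∀ S : SabMap N, imageOf S.F ⊆ projVar P → SabCases (projVar P) Λ u D S)
    {Q : MvPolynomial (Fin (N + 1)) ℂ} {e : ℕ} (hQ : Q.IsHomogeneous e)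
    (hQD : ∀ x ∈ projVar P, (∃ b ∈ D, u x = (b : (Fin (k + 1) → ℂ) ⧸ Λ)) → VanishesAt Q x)
    (hQm : ∀ Φ ∈ merSections (projVar P) Λ u, ∀ y, eval (Φ y) Q = 0) : ∀ x ∈ sabUnion (projVar P), VanishesAt Q x := by
  rintro x ⟨S, hSX, ⟨y, hy, z, hz, hyz⟩, hx⟩
  rcases hcases S hSX with ⟨b, hb, h1⟩ | h1 | ⟨B, c, hBc, ⟨h1, h2, h3⟩ | ⟨hsur, Φ, hΦ, h1⟩⟩
  · exact hQD x (hSX hx) ⟨b, hb, h1 x hx⟩
  · exact absurd (h1 y hy z hz) hyz
  · rcases hs _ h1 with h4 | h4
    · exact absurd h4 h2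
    · exact absurd h4 h3
  · obtain ⟨w, hw, rfl⟩ := hx
    rw [vanishesAt_mk_iff hQ]
    have hc : Continuous fun z => Φ (B z + c) := by
      have h2 : Continuous fun z => B z + c := by
        have h3 : Continuous B := B.continuous_of_finiteDimensional
        exact h3.add continuous_const
      exact hΦ.1.continuous.comp h2
    refine eq_zero_of_off (eval_differentiable S.differentiable Q) hc ?_ (fun v hv => ?_) w
    · obtain ⟨y, hy⟩ := hΦ.2.1
      obtain ⟨v, hv⟩ := hsur (y - c)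
      refine ⟨v, ?_⟩
      show Φ (B v + c) ≠ 0
      rwa [hv, sub_add_cancel]
    · obtain ⟨a, ha⟩ := eq_smul_of_prop hv (h1 v)
      rw [ha, eval_smul hQ, hQm Φ hΦ, mul_zero]

theorem sabSpecialSet_subset {X : Set (PN N)} {Q : MvPolynomial (Fin (N + 1)) ℂ} {e : ℕ} (hQ : Q.IsHomogeneous e)
    (h : ∀ x ∈ sabUnion X, VanishesAt Q x) : ∀ x ∈ sabSpecialSet X, VanishesAt Q x := fun x hx => hx.2 Q e hQ h

/-- a special set in a hypersurface is not the whole variety -/
theorem sabSpecialSet_ne {P : Ideal (MvPolynomial (Fin (N + 1)) ℂ)} [P.IsPrime] (hP : Homog P) (hX : ∃ i, (X i : MvPolynomial (Fin (N + 1)) ℂ) ∉ P)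
    {Q : MvPolynomial (Fin (N + 1)) ℂ} {e : ℕ} (hQ : Q.IsHomogeneous e) (hQP : Q ∉ P) (h : ∀ x ∈ sabUnion (projVar P), VanishesAt Q x) :
    sabSpecialSet (projVar P) ≠ projVar P := by
  intro heq
  obtain ⟨x, hx, hxQ⟩ := exists_point hP hX hQP hQ
  rw [← heq] at hx
  exact hxQ (sabSpecialSet_subset hQ h x hx)

/-- the composition of a map of semi-abelian type and a rational map -/
def SabMap.comp (S : SabMap M) {D : ℕ} {γ : Fin (N + 1) → MvPolynomial (Fin (M + 1)) ℂ} (hγ : ∀ i, (γ i).IsHomogeneous D)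
    (h0 : ∃ z, vals γ (S.F z) ≠ 0) : SabMap N where
  g := S.g
  F := fun z => vals γ (S.F z)
  differentiable := differentiable_pi.2 fun i => eval_differentiable S.differentiable (γ i)
  ne_zero := h0
  growth := by
    obtain ⟨C, hC⟩ := S.growth
    obtain ⟨A, hA0, hA⟩ : ∃ A : ℝ, 0 ≤ A ∧ ∀ x, ‖vals γ x‖ ≤ A * ‖x‖ ^ D := by
      refine ⟨∑ i, ∑ d ∈ (γ i).support, ‖(γ i).coeff d‖, by positivity, fun x => ?_⟩
      rw [pi_norm_le_iff_of_nonneg (by positivity)]
      intro i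
      refine (norm_eval_form (hγ i) x).trans (mul_le_mul_of_nonneg_right ?_ (by positivity))
      exact Finset.single_le_sum (f := fun i => ∑ d ∈ (γ i).support, ‖(γ i).coeff d‖) (fun i _ => by positivity) (Finset.mem_univ i)
    refine ⟨A + D * |C|, fun z => ?_⟩
    have h1 : ‖S.F z‖ ^ D ≤ Real.exp (D * |C| * (1 + ‖z‖ ^ 2)) := by
      calc ‖S.F z‖ ^ D ≤ Real.exp (|C| * (1 + ‖z‖ ^ 2)) ^ D := by
            refine pow_le_pow_left₀ (norm_nonneg _) ((hC z).trans (Real.exp_le_exp.2 ?_)) D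
            exact mul_le_mul_of_nonneg_right (le_abs_self C) (by positivity)
        _ = Real.exp (D * |C| * (1 + ‖z‖ ^ 2)) := by rw [← Real.exp_nat_mul, mul_assoc]
    calc ‖vals γ (S.F z)‖ ≤ A * ‖S.F z‖ ^ D := hA _
      _ ≤ Real.exp A * Real.exp (D * |C| * (1 + ‖z‖ ^ 2)) :=
          mul_le_mul (by linarith [Real.add_one_le_exp A]) h1 (by positivity) (Real.exp_pos _).le
      _ = Real.exp (A + D * |C| * (1 + ‖z‖ ^ 2)) := by rw [Real.exp_add]
      _ ≤ Real.exp ((A + D * |C|) * (1 + ‖z‖ ^ 2)) := Real.exp_le_exp.2 (by nlinarith [sq_nonneg ‖z‖])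
  T := S.T
  torus := by
    intro z
    obtain ⟨C, hC⟩ := S.torus z
    obtain ⟨A, hA0, hA⟩ : ∃ A : ℝ, 0 ≤ A ∧ ∀ x, ‖vals γ x‖ ≤ A * ‖x‖ ^ D := by
      refine ⟨∑ i, ∑ d ∈ (γ i).support, ‖(γ i).coeff d‖, by positivity, fun x => ?_⟩
      rw [pi_norm_le_iff_of_nonneg (by positivity)]
      intro i
      refine (norm_eval_form (hγ i) x).trans (mul_le_mul_of_nonneg_right ?_ (by positivity))
      exact Finset.single_le_sum (f := fun i => ∑ d ∈ (γ i).support, ‖(γ i).coeff d‖) (fun i _ => by positivity) (Finset.mem_univ i)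
    refine ⟨A + D * |C|, fun t ht => ?_⟩
    have h1 : ‖S.F (z + t)‖ ^ D ≤ Real.exp (D * |C| * (1 + ‖t‖)) := by
      calc ‖S.F (z + t)‖ ^ D ≤ Real.exp (|C| * (1 + ‖t‖)) ^ D := by
            refine pow_le_pow_left₀ (norm_nonneg _) ((hC t ht).trans (Real.exp_le_exp.2 ?_)) D
            exact mul_le_mul_of_nonneg_right (le_abs_self C) (by positivity)
        _ = Real.exp (D * |C| * (1 + ‖t‖)) := by rw [← Real.exp_nat_mul, mul_assoc]
    calc ‖vals γ (S.F (z + t))‖ ≤ A * ‖S.F (z + t)‖ ^ D := hA _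
      _ ≤ Real.exp A * Real.exp (D * |C| * (1 + ‖t‖)) :=
          mul_le_mul (by linarith [Real.add_one_le_exp A]) h1 (by positivity) (Real.exp_pos _).le
      _ = Real.exp (A + D * |C| * (1 + ‖t‖)) := by rw [Real.exp_add]
      _ ≤ Real.exp ((A + D * |C|) * (1 + ‖t‖)) := Real.exp_le_exp.2 (by nlinarith [norm_nonneg t])
  L := S.L
  periodic := fun l hl z i j => eval_prop (hγ i) (hγ j) (S.periodic l hl z)
  span := S.span

/-- **Varieties with a dominant rational map.** -/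
theorem sabUnion_up {P : Ideal (MvPolynomial (Fin (N + 1)) ℂ)} [P.IsPrime] {P' : Ideal (MvPolynomial (Fin (M + 1)) ℂ)} [P'.IsPrime]
    (hP : Homog P) (hP' : Homog P') {k : ℕ} {z : Fin (k + 1) → FunField P} (hz : IsTranscendenceBasis ℂ z) {z' : Fin (k + 1) → FunField P'}
    (hz' : IsTranscendenceBasis ℂ z') (e : FunField P →ₐ[ℂ] FunField P') {R : MvPolynomial (Fin (N + 1)) ℂ} {nR : ℕ} (hnR : R.IsHomogeneous nR)
    (hRP : R ∉ P) (hR : ∀ x ∈ sabUnion (projVar P), VanishesAt R x) :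
    ∃ (T : MvPolynomial (Fin (M + 1)) ℂ) (e : ℕ), T.IsHomogeneous e ∧ T ∉ P' ∧ ∀ x ∈ sabUnion (projVar P'), VanishesAt T x := by
  obtain ⟨i₀, hi₀⟩ := Pool.Agent.H92.GT.Proj.exists_coordFun_ne_zero P z hz
  obtain ⟨j, hj⟩ := Pool.Agent.H92.GT.Proj.exists_coordFun_ne_zero P' z' hz'
  obtain ⟨D, γ, hγ, hmaps, hγ₀⟩ := exists_rat e hi₀ hj
  have hjP : X j ∉ P' := coordFun_ne_zero_iff.1 hj
  choose m D₁ α hα hαP hrel using exists_eq_aux hz hz' hγ hmaps (coordFun_ne_zero_iff.1 hi₀) hjP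
  obtain ⟨B, hB⟩ : ∃ B : MvPolynomial (Fin (N + 1)) ℂ, B = R * ∏ i, α i (Fin.last (m i)) := ⟨_, rfl⟩
  have hBhom : B.IsHomogeneous (nR + ∑ i, D₁ i) := by
    rw [hB]
    exact hnR.mul (IsHomogeneous.prod _ _ _ fun i _ => hα i _)
  have hBP : B ∉ P := by
    rw [hB]
    intro h1
    rcases Ideal.IsPrime.mem_or_mem inferInstance h1 with h2 | h2
    · exact hRP h2
    · obtain ⟨i, -, h3⟩ := (Ideal.IsPrime.prod_mem_iff (p := P)).1 h2
      exact hαP i h3
  obtain ⟨T, hT⟩ : ∃ T : MvPolynomial (Fin (M + 1)) ℂ, T = aeval γ B * γ i₀ * X j := ⟨_, rfl⟩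
  have hThom : T.IsHomogeneous (D * (nR + ∑ i, D₁ i) + D + 1) := by
    rw [hT]
    exact ((hBhom.aeval γ hγ).mul (hγ i₀)).mul (isHomogeneous_X ℂ j)
  have hTP : T ∉ P' := by
    rw [hT]
    intro h1
    rcases Ideal.IsPrime.mem_or_mem inferInstance h1 with h2 | h2
    · rcases Ideal.IsPrime.mem_or_mem inferInstance h2 with h3 | h3
      · exact hBP ((hmaps _ B hBhom).1 h3)
      · exact hγ₀ h3
    · exact hjP h2
  refine ⟨T, _, hThom, hTP, ?_⟩
  rintro _ ⟨S, hSX, ⟨y₁, hy₁, y₂, hy₂, hne⟩, ⟨w, hw, rfl⟩⟩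
  rw [vanishesAt_mk_iff hThom]
  by_contra hTw
  rw [hT, map_mul, map_mul, mul_eq_zero, mul_eq_zero, not_or, not_or, eval_X, eval_comp] at hTw
  obtain ⟨⟨hw1, hw2⟩, hw3⟩ := hTw
  rw [hB, map_mul, mul_eq_zero, not_or, map_prod, Finset.prod_eq_zero_iff] at hw1
  push Not at hw1
  obtain ⟨hwR, hwα⟩ := hw1
  have hv0 : vals γ (S.F w) ≠ 0 := fun h0 => hw2 (congrFun h0 i₀)
  obtain ⟨S', hS'⟩ : ∃ S' : SabMap N, S' = S.comp hγ ⟨w, hv0⟩ := ⟨_, rfl⟩
  -- the values are in `P`
  have hP'v : ∀ v, S.F v ≠ 0 → ∀ G ∈ P', eval (S.F v) G = 0 := by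
    intro v hv G hG
    have h1 := hSX ⟨v, hv, rfl⟩
    rw [mk_mem_projVar hP' hv] at h1
    exact h1.2 G hG
  have hmem : ∀ v, ∀ h : vals γ (S.F v) ≠ 0, Projectivization.mk ℂ (vals γ (S.F v)) h ∈ projVar P := by
    intro v hv G hG n hGn
    rw [vanishesAt_mk_iff hGn, ← eval_comp]
    refine eq_zero_of_off (eval_differentiable S.differentiable (aeval γ G)) S.differentiable.continuous S.ne_zero (fun v' hv' => ?_) v
    exact hP'v v' hv' _ ((hmaps n G hGn).2 hG)
  have himg : imageOf (fun z => vals γ (S.F z)) ⊆ projVar P := by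
    rintro _ ⟨v, hv, rfl⟩
    exact hmem v hv
  by_cases hcon : ∀ x ∈ imageOf (fun z => vals γ (S.F z)), ∀ y ∈ imageOf (fun z => vals γ (S.F z)), x = y
  · -- the composition is constant
    apply hne
    have key : ∀ v i, S.F v i * S.F w j = S.F v j * S.F w i := by
      intro v i
      -- the line
      obtain ⟨φ, hφ⟩ : ∃ φ : ℂ → Fin (M + 1) → ℂ, φ = fun ζ => S.F (w + ζ • (v - w)) := ⟨_, rfl⟩
      have hφd : Differentiable ℂ φ := by
        have h1 : Differentiable ℂ fun ζ : ℂ => w + ζ • (v - w) := by fun_prop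
        rw [hφ]
        exact S.differentiable.comp h1
      have hφi : ∀ i, Differentiable ℂ fun ζ => φ ζ i := differentiable_pi.1 hφd
      have hφ0 : φ 0 = S.F w := by rw [hφ]; simp
      have hφ1 : φ 1 = S.F v := by rw [hφ]; simp
      have hvc : Continuous fun ζ => vals γ (φ ζ) := by
        have h1 : Continuous fun z => vals γ (S.F z) :=
          continuous_pi fun i => (eval_differentiable S.differentiable (γ i)).continuous
        have h2 : Continuous fun ζ : ℂ => w + ζ • (v - w) := by fun_prop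
        rw [hφ]
        exact h1.comp h2
      have hev : ∀ᶠ ζ in 𝓝 (0 : ℂ), vals γ (φ ζ) ≠ 0 ∧ φ ζ j ≠ 0 := by
        refine (hvc.continuousAt.eventually_ne ?_).and ((hφi j).continuous.continuousAt.eventually_ne ?_)
        · rw [hφ0]
          exact hv0
        · rw [hφ0]
          exact hw3
      obtain ⟨r, hr, hball⟩ := Metric.eventually_nhds_iff_ball.1 hev
      have hconst : ∀ ζ ∈ ball (0 : ℂ) r, φ ζ i / φ ζ j = φ 0 i / φ 0 j := by
        refine const_of_root (b := fun l => eval (vals γ (S.F w)) (α i l)) (hwα i (Finset.mem_univ i)) (ρ := fun ζ => φ ζ i / φ ζ j)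
          (fun ζ hζ => ?_) fun ζ hζ => ?_
        · exact ((hφi i).continuous.continuousAt.div (hφi j).continuous.continuousAt (hball ζ hζ).2).continuousWithinAt
        · obtain ⟨h1, h2⟩ := hball ζ hζ
          have h3 : φ ζ = S.F (w + ζ • (v - w)) := by rw [hφ]
          have h4 : φ ζ ≠ 0 := fun h => h2 (congrFun h j)
          have h5 : eval (φ ζ) (∑ l : Fin (m i + 1), aeval γ (α i l) * X i ^ (l : ℕ) * X j ^ (m i - (l : ℕ))) = 0 := by
            rw [h3]
            exact hP'v _ (by rw [← h3]; exact h4) _ (hrel i)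
          rw [← rel_vals] at h5
          have h1' : vals γ (S.F (w + ζ • (v - w))) ≠ 0 := by
            rw [← h3]
            exact h1
          have h6 := hcon _ ⟨w + ζ • (v - w), h1', rfl⟩ _ ⟨w, hv0, rfl⟩
          rw [Projectivization.mk_eq_mk_iff'] at h6
          obtain ⟨c, hc⟩ := h6
          have hc : c • vals γ (S.F w) = vals γ (φ ζ) := by
            rw [h3]
            exact hc
          have hc0 : c ≠ 0 := by
            rintro rfl
            rw [zero_smul] at hc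
            exact h1 hc.symm
          have h7 : rel (α i) i j (c • vals γ (S.F w)) ((1 : ℂ) • φ ζ) = 0 := by
            rw [hc, one_smul]
            exact h5
          rw [rel_smul (hα i), one_pow, mul_one, mul_eq_zero] at h7
          have h8 := h7.resolve_left (pow_ne_zero _ hc0)
          unfold rel at h8
          have h9 : ∀ l : Fin (m i + 1), eval (vals γ (S.F w)) (α i l) * φ ζ i ^ (l : ℕ) * φ ζ j ^ (m i - (l : ℕ)) =
              φ ζ j ^ m i * (eval (vals γ (S.F w)) (α i l) * (φ ζ i / φ ζ j) ^ (l : ℕ)) := by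
            intro l
            have h9 : (l : ℕ) ≤ m i := Nat.lt_succ_iff.1 l.2
            have h10 : φ ζ j ^ m i = φ ζ j ^ (l : ℕ) * φ ζ j ^ (m i - (l : ℕ)) := by
              rw [← pow_add, Nat.add_sub_cancel' h9]
            rw [h10, div_pow]
            field_simp
          rw [Finset.sum_congr rfl fun l _ => h9 l, ← Finset.mul_sum, mul_eq_zero] at h8
          exact h8.resolve_left (pow_ne_zero _ h2)
      have hd : Differentiable ℂ fun ζ => φ ζ i * φ 0 j - φ ζ j * φ 0 i := ((hφi i).mul_const _).sub ((hφi j).mul_const _)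
      have h1 : AnalyticOnNhd ℂ (fun ζ => φ ζ i * φ 0 j - φ ζ j * φ 0 i) Set.univ := fun ζ _ => hd.analyticAt ζ
      have h2 := h1.eqOn_zero_of_preconnected_of_eventuallyEq_zero isPreconnected_univ (Set.mem_univ (0 : ℂ)) (by
        filter_upwards [ball_mem_nhds (0 : ℂ) hr] with ζ hζ
        have h3 := hconst ζ hζ
        rw [div_eq_div_iff (hball ζ hζ).2 (hball 0 (mem_ball_self hr)).2] at h3
        show φ ζ i * φ 0 j - φ ζ j * φ 0 i = 0
        linear_combination h3) (Set.mem_univ (1 : ℂ))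
      have h3 : φ 1 i * φ 0 j - φ 1 j * φ 0 i = 0 := h2
      rw [hφ0, hφ1] at h3
      linear_combination h3
    obtain ⟨v₁, hv₁, rfl⟩ := hy₁
    obtain ⟨v₂, hv₂, rfl⟩ := hy₂
    have hform : ∀ v, S.F v = (S.F v j / S.F w j) • S.F w := by
      intro v
      funext i
      show S.F v i = S.F v j / S.F w j * S.F w i
      have h1 := key v i
      field_simp
      linear_combination h1
    refine mk_eq_of_prop hv₁ hv₂ fun a b => ?_
    rw [hform v₁, hform v₂]
    simp only [Pi.smul_apply, smul_eq_mul]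
    ring
  · push Not at hcon
    apply hwR
    rw [← vanishesAt_mk_iff (v := vals γ (S.F w)) (hv := hv0) hnR]
    exact hR _ ⟨S.comp hγ ⟨w, hv0⟩, himg, hcon, ⟨w, hv0, rfl⟩⟩

end Pool.Agent.TG

end
end
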