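import Pool.Agent.H94.G5T.M113
import Pool.Agent.H94.G5T.M122
import Pool.Agent.H94.G5T.M150
import Pool.Agent.H94.G5T.M151

/-! The parts of this file: TG.MerConc, TG.FAsm, TG.FMain. -/

section

/-!
# TG MerConc: the meromorphic sections of a projective variety over a torus: finiteness, periodicity, a hypersurface
-/

set_option autoImplicit false

open Topology Filter Metric MvPolynomial

noncomputable section

namespace Pool.Agent.TG

open Pool.Agent.H36.BP (EN)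
open Pool.Agent.H14.PP (IsCone)
open Pool.Agent.H62.EF (MN pr)
open Pool.Agent.AD (Vd uV uV_eq sub_mem_iff)
open Pool.Agent.H17 (PN VanishesAt)
open Pool.Agent.H62.FC (Homog)
open Pool.Agent.H17LG.Variety (FunField)
open Pool.Agent.H17EF (projVar coneE LE mk_mem_projVar)

variable {N k : ℕ} {P : Ideal (MvPolynomial (Fin (N + 1)) ℂ)} {Λ : AddSubgroup (Fin (k + 1) → ℂ)} {u : PN N → (Fin (k + 1) → ℂ) ⧸ Λ}
  {D B : Set (Vd (k + 1))}

theorem LE_symm_ne {x : EN N} : (LE N).symm x ≠ 0 ↔ x ≠ 0 :=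
  not_congr ⟨fun h => (LE N).symm.injective (h.trans (map_zero _).symm), fun h => by rw [h, map_zero]⟩

/-- the meromorphic sections in the cone -/
theorem mer_of_sections (hP : Homog P) {F : (Fin (k + 1) → ℂ) → Fin (N + 1) → ℂ} (hF : F ∈ merSections (projVar P) Λ u) :
    Mer (coneE P) Λ (uV Λ u) fun y => LE N (F y) := by
  obtain ⟨h1, ⟨y₀, h2⟩, h3⟩ := hF
  refine ⟨fun y => analyticAt_vd ((LE N).differentiable.comp h1) y, ⟨y₀, LE_ne.2 h2⟩, fun y hy => ?_⟩
  have hy' : F y ≠ 0 := LE_ne.1 hy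
  obtain ⟨h4, h5⟩ := h3 y hy'
  refine ⟨?_, ?_⟩
  · rw [mk_mem_projVar hP hy'] at h4
    show (LE N).symm (LE N (F y)) ∈ Pool.Agent.H13.SM.cone P
    rwa [ContinuousLinearEquiv.symm_apply_apply]
  · have h6 : (LE N).symm (LE N (F y)) ≠ 0 := by rwa [ContinuousLinearEquiv.symm_apply_apply]
    rw [sub_mem_iff, uV_eq Λ u h6]
    exact h5

theorem sections_of_mer (hP : Homog P) {G : Vd (k + 1) → EN N} (hG : Mer (coneE P) Λ (uV Λ u) G) :
    (fun y => (LE N).symm (G y)) ∈ merSections (projVar P) Λ u := by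
  have hd : Differentiable ℂ G := fun y => (hG.an y).differentiableAt
  refine ⟨(LE N).symm.differentiable.comp hd, ?_, fun y hy => ?_⟩
  · obtain ⟨y, hy⟩ := hG.ne
    exact ⟨y, LE_symm_ne.2 hy⟩
  · obtain ⟨h3, h4⟩ := hG.mem y (LE_symm_ne.1 hy)
    refine ⟨?_, ?_⟩
    · rw [mk_mem_projVar hP hy]
      exact h3
    · rw [sub_mem_iff, uV_eq Λ u hy] at h4
      exact h4

/-- the conclusions on the meromorphic sections -/
structure MerConc (P : Ideal (MvPolynomial (Fin (N + 1)) ℂ)) (Λ : AddSubgroup (Fin (k + 1) → ℂ)) (u : PN N → (Fin (k + 1) → ℂ) ⧸ Λ) : Prop where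
  finite : ∃ T : Set ((Fin (k + 1) → ℂ) → Fin (N + 1) → ℂ), T.Finite ∧ T ⊆ merSections (projVar P) Λ u ∧
    ∀ F ∈ merSections (projVar P) Λ u, ∃ G ∈ T, SameProjMap F G
  periodic : ∃ M : ℕ, 1 ≤ M ∧ ∀ F ∈ merSections (projVar P) Λ u, ∀ l ∈ Λ, SameProjMap F fun y => F (y + M • l)
  form : ∃ (d : ℕ) (Q : MvPolynomial (Fin (N + 1)) ℂ), Q.IsHomogeneous d ∧ Q ∉ P ∧ ∀ F ∈ merSections (projVar P) Λ u, ∀ y, eval (F y) Q = 0

/-- **The meromorphic sections.** -/
theorem merConc [P.IsPrime] (hP : Homog P) {z : Fin (k + 2) → FunField P} (hz : IsTranscendenceBasis ℂ z)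
    (G : Geo (coneE P) Λ (uV Λ u) D B) (hlip : ∀ y ∉ D, CLip (coneE P) Λ (uV Λ u) y) (hfin : FinSec (coneE P) Λ (uV Λ u) D) :
    MerConc P Λ u := by
  obtain ⟨T, hT, hTm, hTs⟩ := mer_finite G.cone G.tor G.lat G.D_closed G.D_thin hlip hfin
  obtain ⟨M, hM, hper⟩ := mer_periodic hT hTm hTs
  have hround : ∀ {F : (Fin (k + 1) → ℂ) → Fin (N + 1) → ℂ} {H : Vd (k + 1) → EN N}, SameMap (fun y => LE N (F y)) H → SameProjMap F fun y => (LE N).symm (H y) :=
    fun h z i j => h z i j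
  refine ⟨⟨(fun H : Vd (k + 1) → EN N => fun y => (LE N).symm (H y)) '' T, hT.image _, ?_, fun F hF => ?_⟩, ⟨M, hM, fun F hF l hl => ?_⟩, ?_⟩
  · rintro _ ⟨H, hH, rfl⟩
    exact sections_of_mer hP (hTm H hH)
  · obtain ⟨H, hH, h1⟩ := hTs _ (mer_of_sections hP hF)
    exact ⟨_, ⟨H, hH, rfl⟩, hround h1⟩
  · have h1 := hper _ (mer_of_sections hP hF) l hl
    exact fun z i j => h1 z i j
  · -- the form
    obtain ⟨J, f, hf⟩ : ∃ (J : ℕ) (f : Fin J → Vd (k + 1) → EN N), Set.range f = T := by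
      obtain ⟨J, e⟩ := Finite.exists_equiv_fin T (h := hT.to_subtype)
      obtain ⟨e⟩ := e
      refine ⟨J, fun i => (e.symm i : Vd (k + 1) → EN N), ?_⟩
      ext H
      constructor
      · rintro ⟨i, rfl⟩
        exact (e.symm i).2
      · intro hH
        exact ⟨e ⟨H, hH⟩, congrArg Subtype.val (e.symm_apply_apply ⟨H, hH⟩)⟩
    have hfT : ∀ i, Mer (coneE P) Λ (uV Λ u) (f i) := fun i => hTm _ (by rw [← hf]; exact ⟨i, rfl⟩)
    have hd : ∀ i, Differentiable ℂ (f i) := fun i y => ((hfT i).an y).differentiableAt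
    obtain ⟨i₀, hi₀⟩ := Pool.Agent.H92.GT.Proj.exists_coordFun_ne_zero P z hz
    obtain ⟨R, hR, hRb⟩ := G.lat.cpt
    obtain ⟨d, Q, -, hQ, hQP, hQF⟩ := exists_form_of_entire (n := k + 1) hz ⟨i₀, Pool.Agent.H17R.coordFun_ne_zero_iff.1 hi₀⟩
      (Γ := Λ.map (nsmulAddMonoidHom M)) ⟨M * R, fun y => by
        obtain ⟨l, hl, h1⟩ := hRb (((M : ℝ)⁻¹ : ℝ) • y)
        refine ⟨M • l, ⟨l, hl, rfl⟩, ?_⟩
        have hM0 : (0 : ℝ) < M := by exact_mod_cast hM
        have h2 : y - M • l = (M : ℝ) • ((((M : ℝ)⁻¹ : ℝ) • y) - l) := by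
          rw [smul_sub, smul_smul, mul_inv_cancel₀ hM0.ne', one_smul, Nat.cast_smul_eq_nsmul]
        rw [h2, norm_smul, Real.norm_of_nonneg hM0.le]
        exact mul_le_mul_of_nonneg_left h1 hM0.le⟩
      G.D_closed (fun y hy l hl => by
        obtain ⟨l', hl', rfl⟩ := hl
        exact G.D_inv y hy _ (Λ.nsmul_mem hl' M)) G.D_thin
      (F := fun j y => (LE N).symm (f j y)) (fun j => (LE N).symm.differentiable.comp (hd j))
      (fun j => by
        obtain ⟨y, hy⟩ := (hfT j).ne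
        exact ⟨y, LE_symm_ne.2 hy⟩)
      (fun j l hl y a b => by
        obtain ⟨l', hl', rfl⟩ := hl
        have h1 := hper _ (hfT j) l' hl' y a b
        show (f j (y + M • l')) a * (f j y) b = (f j (y + M • l')) b * (f j y) a
        linear_combination -h1)
      (fun j y₀ hy₀ => by
        obtain ⟨φ, h1, h2, h3⟩ := mer_germ G.cone G.tor G.lat (hlip y₀ hy₀) (hfT j)
        have h4 : ∀ y, φ y ∈ coneE P → φ y ≠ 0 := fun y hy h => G.cone.zero_notMem (h ▸ hy)
        refine ⟨fun y => (LE N).symm (φ y), ((LE N).symm : EN N →L[ℂ] (Fin (N + 1) → ℂ)).analyticAt _ |>.comp h1, LE_symm_ne.2 (h4 _ h2.self_of_nhds.1), ?_⟩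
        filter_upwards [h2, h3] with y h5 h6 a b
        show (f j y) a * (φ y) b = (f j y) b * (φ y) a
        by_cases h7 : f j y = 0
        · rw [h7]
          simp
        · have h8 := (cross_iff h7 (h4 _ h5.1)).2 (h6 h7).symm
          exact h8 a b)
    refine ⟨d, Q, hQ, hQP, fun F hF y => ?_⟩
    obtain ⟨H, hH, h1⟩ := hTs _ (mer_of_sections hP hF)
    rw [← hf] at hH
    obtain ⟨j, rfl⟩ := hH
    have hc : Continuous fun y => (LE N).symm (f j y) := ((LE N).symm.differentiable.comp (hd j)).continuous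
    refine eq_zero_of_off (eval_differentiable hF.1 Q) hc ?_ (fun v hv => ?_) y
    · obtain ⟨y, hy⟩ := (hfT j).ne
      exact ⟨y, LE_symm_ne.2 hy⟩
    · obtain ⟨a, ha⟩ := eq_smul_of_prop hv (hround h1 v)
      rw [ha, Pool.Agent.H23.GU.eval_smul hQ, hQF j v, mul_zero]

end Pool.Agent.TG

end
end

section

/-!
# TG FAsm: the conclusions from the geometric data and the finiteness of the sections
-/

set_option autoImplicit false

open Topology Filter MvPolynomial
open Pool.Agent.H17 (PN VanishesAt)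
open Pool.Agent.H62.FC (Homog)
open Pool.Agent.H17LG.Variety (FunField)
open Pool.Agent.H17EF (projVar coneE)
open Pool.Agent.AD (uV)
open Pool.Agent.TG (Geo FinSec merConc sabUnion sabSpecialSet sabUnion_vanishes sabSpecialSet_subset sabSpecialSet_ne sabUnion_up SabMap imageOf SabCases SimpleTorus merSections SameProjMap)

noncomputable section

namespace Pool.Agent.TGF

variable {N k : ℕ}

theorem sabUnion_mono {X Y : Set (PN N)} (h : X ⊆ Y) : sabUnion X ⊆ sabUnion Y := by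
  rintro x ⟨S, h1, h2, h3⟩
  exact ⟨S, h1.trans h, h2, h3⟩

theorem projVar_anti {P R : Ideal (MvPolynomial (Fin (N + 1)) ℂ)} (h : P ≤ R) : projVar R ⊆ projVar P := by
  intro x hx G hG n hn
  exact hx G (h hG) n hn

/-- the product vanishes -/
theorem vanishesAt_mul_left {A B : MvPolynomial (Fin (N + 1)) ℂ} {x : PN N} (h : VanishesAt A x) : VanishesAt (A * B) x := by
  unfold VanishesAt at *
  rw [map_mul, h, zero_mul]

theorem fAsm {P : Ideal (MvPolynomial (Fin (N + 1)) ℂ)} [P.IsPrime] (hP : Homog P) (hdim : ∃ z : Fin (k + 2) → FunField P, IsTranscendenceBasis ℂ z)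
    {Λ : AddSubgroup (Cn (k + 1))} {u : PN N → Cn (k + 1) ⧸ Λ} {D B : Set (Cn (k + 1))}
    (G : Geo (coneE P) Λ (uV Λ u) D B) (hfin : FinSec (coneE P) Λ (uV Λ u) D)
    (hR : ∃ (e : ℕ) (R : MvPolynomial (Fin (N + 1)) ℂ), R.IsHomogeneous e ∧ R ∉ P ∧
      ∀ x ∈ projVar P, (∃ y ∈ D, u x = (y : Cn (k + 1) ⧸ Λ)) → VanishesAt R x) :
    ∃ Q : MvPolynomial (Fin (N + 1)) ℂ, TorusFibration P Λ u D Q := by
  obtain ⟨z, hz⟩ := hdim
  obtain ⟨e, R, hRe, hRP, hRv⟩ := hR
  have mc := merConc hP hz G G.clip hfin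
  obtain ⟨d, Q₀, hQ₀, hQ₀P, hQ₀v⟩ := mc.form
  have hmaps : ∀ S : SabMap N, imageOf S.F ⊆ projVar P → SabCases (projVar P) Λ u D S := fun S hS => G.sabCases hP S hS
  have hQ : (R * Q₀).IsHomogeneous (e + d) := hRe.mul hQ₀
  have hQP : R * Q₀ ∉ P := by
    intro h
    rcases Ideal.IsPrime.mem_or_mem inferInstance h with h1 | h1
    · exact hRP h1
    · exact hQ₀P h1
  have hQD : ∀ x ∈ projVar P, (∃ y ∈ D, u x = (y : Cn (k + 1) ⧸ Λ)) → VanishesAt (R * Q₀) x := fun x hx hy => vanishesAt_mul_left (hRv x hx hy)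
  have hQm : ∀ Φ ∈ merSections (projVar P) Λ u, ∀ y, eval (Φ y) (R * Q₀) = 0 := fun Φ hΦ y => by
    rw [map_mul, hQ₀v Φ hΦ y, mul_zero]
  have hvan : SimpleTorus Λ → ∀ x ∈ sabUnion (projVar P), VanishesAt (R * Q₀) x := fun hs => sabUnion_vanishes hs hmaps hQ hQD hQm
  refine ⟨R * Q₀, ⟨mc.finite, mc.periodic, ⟨⟨_, hQ⟩, hQP⟩, hQD, hQm, hmaps, fun hs => sabSpecialSet_subset hQ (hvan hs), ?_⟩⟩
  rintro hs M P' hprime hP' ⟨z', hz'⟩ ⟨f⟩
  obtain ⟨T, eT, hT, hTP, hTv⟩ := sabUnion_up hP hP' hz hz' f hQ hQP (hvan hs)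
  obtain ⟨j, hj⟩ := Pool.Agent.H92.GT.Proj.exists_coordFun_ne_zero P' z' hz'
  have hjP : (X j : MvPolynomial (Fin (M + 1)) ℂ) ∉ P' := Pool.Agent.H17R.coordFun_ne_zero_iff.1 hj
  refine ⟨sabSpecialSet_ne hP' ⟨j, hjP⟩ hT hTP hTv, T * X j, ⟨_, hT.mul (isHomogeneous_X ℂ j)⟩, ?_, ?_⟩
  · intro h
    rcases Ideal.IsPrime.mem_or_mem inferInstance h with h1 | h1
    · exact hTP h1
    · exact hjP h1
  · intro Rr hRprime hRh hPR hTR
    have hTR1 : T ∉ Rr := fun h => hTR (Ideal.mul_mem_right _ _ h)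
    have hTR2 : (X j : MvPolynomial (Fin (M + 1)) ℂ) ∉ Rr := fun h => hTR (Ideal.mul_mem_left _ _ h)
    exact sabSpecialSet_ne hRh ⟨j, hTR2⟩ hT hTR1 fun x hx => hTv x (sabUnion_mono (projVar_anti hPR) hx)

end Pool.Agent.TGF

end
end

section

/-!
# TG FMain: the main theorem
-/

set_option autoImplicit false

open Topology Filter MvPolynomial
open Pool.Agent.H17 (PN VanishesAt)
open Pool.Agent.H62.FC (Homog)
open Pool.Agent.H17LG.Variety (FunField)
open Pool.Agent.H17EF (projVar coneE)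
open Pool.Agent.AD (IsHolomorphicTorusMap uV isCone_coneE)
open Pool.Agent.TG (Geo finSec_at)

noncomputable section

namespace Pool.Agent.TGF

variable {N k : ℕ}

theorem geo_of (P : Ideal (MvPolynomial (Fin (N + 1)) ℂ)) [P.IsPrime] (hP : Homog P)
    (hdim : ∃ z : Fin (k + 2) → FunField P, IsTranscendenceBasis ℂ z) (hsmooth : Pool.Agent.AD.NC.IsSmooth P (k + 2))
    (Λ : AddSubgroup (Cn (k + 1))) [DiscreteTopology Λ] (hspan : Submodule.span ℝ (Λ : Set (Cn (k + 1))) = ⊤)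
    (u : PN N → Cn (k + 1) ⧸ Λ) (hu : IsHolomorphicTorusMap (projVar P) Λ u)
    (D B : Set (Cn (k + 1))) (hD : IsDiscriminant (projVar P) Λ u D B) : Geo (coneE P) Λ (uV Λ u) D B where
  cone := isCone_coneE hP
  charts := gu_charts hP hdim hsmooth
  tor := gu_tor hP hu
  lat := gu_lat Λ hspan
  D_closed := hD.analytic.isClosed
  D_inv := gu_D_inv hD
  D_thin := hD.analytic.thin hD.proper
  B_lines := fun _ he => hD.small.lines he
  sub := geo_sub hP hdim hsmooth hD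
  fib := gu_fib hP hD
  nc := geo_nc hP hdim hsmooth hD

/-- **Main theorem.** `X` is a smooth projective variety of dimension `k + 2`, `u` a holomorphic map to the torus `ℂ^(k+1) / Λ`, `D` contains the critical values and the
map is of normal crossing type over `D \ B`, `B` of codimension at least two; the fibres over `D` lie in the hypersurface `R = 0` (which does not contain `X`); on a finite
covering `X'` induced from the torus there is a holomorphic `(k + 2)`-form which vanishes on a fibre outside `D`, but on no open set. -/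
theorem main (P : Ideal (MvPolynomial (Fin (N + 1)) ℂ)) [P.IsPrime] (hP : Homog P)
    (hdim : ∃ z : Fin (k + 2) → FunField P, IsTranscendenceBasis ℂ z) (hsmooth : Pool.Agent.AD.NC.IsSmooth P (k + 2))
    (Λ : AddSubgroup (Cn (k + 1))) [DiscreteTopology Λ] (hspan : Submodule.span ℝ (Λ : Set (Cn (k + 1))) = ⊤)
    (u : PN N → Cn (k + 1) ⧸ Λ) (hu : IsHolomorphicTorusMap (projVar P) Λ u)
    (D B : Set (Cn (k + 1))) (hD : IsDiscriminant (projVar P) Λ u D B)
    (hR : ∃ (e : ℕ) (R : MvPolynomial (Fin (N + 1)) ℂ), R.IsHomogeneous e ∧ R ∉ P ∧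
      ∀ x ∈ projVar P, (∃ y ∈ D, u x = (y : Cn (k + 1) ⧸ Λ)) → VanishesAt R x)
    (Γ : AddSubgroup (Cn (k + 1))) (hle : Γ ≤ Λ) (hΓ : Submodule.span ℝ (Γ : Set (Cn (k + 1))) = ⊤) (hform : HasForm (projVar P) Λ Γ u D) :
    ∃ Q : MvPolynomial (Fin (N + 1)) ℂ, TorusFibration P Λ u D Q := by
  have G := geo_of P hP hdim hsmooth Λ hspan u hu D B hD
  obtain ⟨α, hper, hthin, a, ha, hvan⟩ := exists_vform hP G.tor G.lat hform
  exact fAsm hP hdim G (finSec_at G ha (gu_lat_sub G.lat hle hΓ) hle hper hvan hthin) hR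

end Pool.Agent.TGF

end
end
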