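import Pool.Agent.H94.G5T.G3.R.HolD_1
import Pool.Agent.H94.G5T.G4.R.HolD1
import Pool.Agent.H94.G5T.M142

/-! The parts of this file: G4.R.HolD, G4.R.Hol. -/

section

/-!
# G4 R HolD: sheets over the whole space are complex differentiable on complex lines off `D`

Here `E = ⊤`.  `sheet_dif_of` (`R/HolD1`) with `cmb_null` and `sheet_lip`.
-/

set_option autoImplicit false

open Topology Filter Metric

namespace Pool.Agent.G4.R

open Pool.Agent.H36.BP (EN fs wd)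
open Pool.Agent.H14.PP (IsCone CurveAt Tan)
open Pool.Agent.H62.EF (MN pr)
open Pool.Agent.AD (Vd Chart Charts IsGerm)
open Pool.Agent.TG
open Pool.Agent.G3
open Pool.Agent.G3.A (Ba Hc Dec Sepa Tht Frm NL Lm CRL Tb ToE CE Sht)
open Pool.Agent.G3.R (Prm Shs)
open Pool.Agent.G3.C (Gc nv nd nv_pr)
open Pool.Agent.G4.A

variable {N k : ℕ} {X : Set (EN N)} {Λ : AddSubgroup (Vd (k + 1))} {u : EN N → Vd (k + 1)} {D B Bad : Set (Vd (k + 1))} {a b : Vd (k + 1)}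
  {Γ : AddSubgroup (Vd (k + 1))} {J rW : ℕ} {W : Fin rW → Vd (k + 1) →L[ℂ] ℂ} {SS : Set (Vd (k + 1) → MN N)} {α : Fin J → VForm X Λ u} {c₀ C₀ ρ δ : ℝ}

theorem sheet_dif (S : DA X Λ u D B Bad a Γ W α c₀ C₀ ρ δ) (hS : Shs X Λ u D a b ⊤ SS) {φ : Vd (k + 1) → MN N} (hφ : φ ∈ SS) {y₀ : Vd (k + 1)} (h0 : y₀ ∉ D) {v : EN N}
    (hv : ‖v‖ = 1) (hv' : pr v = φ y₀) (w : Vd (k + 1)) : DifferentiableAt ℂ (fun ζ : ℂ => nv v (φ (y₀ + ζ • w))) 0 :=
  sheet_dif_of S hS (fun _ h => sheet_lip S hS h) hφ hv hv' w fun _ hC hb _ hv₁ hvg =>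
    cmb_null S hC le_rfl S.c_pos hb (x := 0) (by rw [zero_smul, add_zero]; exact h0) hv₁ hvg tendsto_const_nhds

end Pool.Agent.G4.R

end

section

/-!
# G4 R Hol: sheets over the whole space are holomorphic off `D`

Here `E = ⊤`.  `sheet_dif` (`R/HolD`): complex differentiability on complex lines.  `sheet_cont`: continuity off `D`.
`sheet_hol`: `ψ y = nv v (φ y)`, continuous, bounded near `y₀` and complex differentiable on all complex lines: `osgood_pi` (`TN/Osg`).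
-/

set_option autoImplicit false

open Topology Filter Metric

namespace Pool.Agent.G4.R

open Pool.Agent.H36.BP (EN fs wd)
open Pool.Agent.H14.PP (IsCone CurveAt Tan)
open Pool.Agent.H62.EF (MN pr)
open Pool.Agent.AD (Vd Chart Charts IsGerm)
open Pool.Agent.TG
open Pool.Agent.G3
open Pool.Agent.G3.R
open Pool.Agent.G3.C (Gc HP nv nd nv_pr pr_nv)
open Pool.Agent.G3.A (Ba Hc Dec Sepa Tht Frm NL Lm CRL Tb ToE CE Sht)
open Pool.Agent.G4.A

variable {N k : ℕ} {X : Set (EN N)} {Λ : AddSubgroup (Vd (k + 1))} {u : EN N → Vd (k + 1)} {D B Bad : Set (Vd (k + 1))} {a b : Vd (k + 1)}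
  {SS : Set (Vd (k + 1) → MN N)} {Γ : AddSubgroup (Vd (k + 1))} {J rW : ℕ} {W : Fin rW → Vd (k + 1) →L[ℂ] ℂ} {α : Fin J → VForm X Λ u} {c₀ C₀ ρ δ : ℝ}

theorem sheet_cont (hS : Shs X Λ u D a b ⊤ SS) {φ : Vd (k + 1) → MN N} (hφ : φ ∈ SS) {y : Vd (k + 1)} (hy : y ∉ D) : ContinuousAt φ y := by
  have h1 := (hS.sht φ hφ).cont y (mem_tb_top b y) hy
  have h2 : Tb b (⊤ : Submodule ℝ (Vd (k + 1))) = Set.univ := Set.eq_univ_of_forall (mem_tb_top b)
  rwa [h2, continuousWithinAt_univ] at h1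

theorem sheet_hol (S : DA X Λ u D B Bad a Γ W α c₀ C₀ ρ δ) (hS : Shs X Λ u D a b ⊤ SS) {φ : Vd (k + 1) → MN N} (hφ : φ ∈ SS) {y₀ : Vd (k + 1)} (h0 : y₀ ∉ D) :
    ∃ ψ : Vd (k + 1) → EN N, AnalyticAt ℂ ψ y₀ ∧ ∀ᶠ y in 𝓝 y₀, ψ y ∈ X ∧ φ y = pr (ψ y) ∧ u (ψ y) - y ∈ Λ := by
  have hX := S.geo.cone
  have hunit : ∀ y : Vd (k + 1), ∃ v ∈ X, ‖v‖ = 1 ∧ pr v = φ y := by
    intro y
    obtain ⟨x, hx, hxm, -⟩ := hS.fb4 hφ (mem_tb_top b y)
    obtain ⟨c, hc, hcX, hcs⟩ := Pool.Agent.TG.exists_unit hX hx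
    exact ⟨c • x, hcX, mem_sphere_zero_iff_norm.1 hcs, by rw [Pool.Agent.H62.EF.pr_smul x hc, hxm]⟩
  obtain ⟨v, -, hv, hprv⟩ := hunit y₀
  obtain ⟨ε₁, hε₁, hn⟩ := nv_near (N := N) (η := 1) one_pos
  obtain ⟨ε₂, hε₂, hin⟩ := inner_near (N := N) (η := 1 / 2) (by norm_num)
  have hU : ∀ᶠ y in 𝓝 y₀, y ∉ D ∧ dist (φ y) (pr v) ≤ min ε₁ ε₂ := by
    have h00 : ∀ᶠ y in 𝓝 y₀, y ∉ D := S.geo.D_closed.isOpen_compl.mem_nhds h0
    refine h00.and ?_
    have h1 : Tendsto (fun y => dist (φ y) (pr v)) (𝓝 y₀) (𝓝 (dist (φ y₀) (pr v))) := (sheet_cont hS hφ h0).dist continuousAt_const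
    rw [hprv, dist_self, ← hprv] at h1
    exact (h1.eventually (gt_mem_nhds (lt_min hε₁ hε₂))).mono fun y hy => hy.le
  have hlift : ∀ v' : EN N, ‖v'‖ = 1 → ∀ y : Vd (k + 1), dist (φ y) (pr v') ≤ ε₂ → ∃ x ∈ X, φ y = pr x ∧ inner ℂ v' x ≠ (0 : ℂ) := by
    intro v' hv' y hy
    obtain ⟨x, hx, hxm, -⟩ := hS.fb4 hφ (mem_tb_top b y)
    refine ⟨x, hx, hxm.symm, ?_⟩
    rw [← hxm] at hy
    exact (hin v' hv' x (ne_zero hX hx) hy).1
  obtain ⟨R, hR, hball⟩ := Metric.eventually_nhds_iff_ball.1 hU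
  refine ⟨fun y => nv v (φ y), Pool.Agent.TN.osgood_pi (r := R) (M := 2) hR ?_ ?_, ?_⟩
  · intro y hy
    have h1 := hn v hv (φ y) ((hball y hy).2.trans (min_le_left _ _))
    have h2 := norm_sub_norm_le (nv v (φ y)) v
    rw [hv] at h2
    linarith
  · intro y hy l
    obtain ⟨v', hv'X, hv', hprv'⟩ := hunit y
    have hyD : y ∉ D := (hball y hy).1
    set e : Vd (k + 1) := Pi.single l 1 with he
    have hd := sheet_dif S hS hφ hyD hv' hprv' e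
    have h1 : inner ℂ v (nv v' (φ (y + (0 : ℂ) • e))) ≠ (0 : ℂ) := by
      rw [zero_smul, add_zero, ← hprv', nv_self hv']
      have h2 := (hball y hy).2.trans (min_le_right _ _)
      rw [← hprv'] at h2
      exact (hin v hv v' (ne_zero hX hv'X) h2).1
    have h3 : DifferentiableAt ℂ (fun t : ℂ => (inner ℂ v (nv v' (φ (y + t • e))) : ℂ)⁻¹ • nv v' (φ (y + t • e))) 0 := by
      have h4 : DifferentiableAt ℂ (fun t : ℂ => (inner ℂ v (nv v' (φ (y + t • e))) : ℂ)) 0 := (innerSL ℂ v).differentiableAt.comp (0 : ℂ) hd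
      exact (h4.inv h1).smul hd
    refine h3.congr_of_eventuallyEq ?_
    have hc : Tendsto (fun t : ℂ => y + t • e) (𝓝 0) (𝓝 y) := by
      have h5 : Continuous fun t : ℂ => y + t • e := by fun_prop
      have h6 := h5.tendsto 0
      rwa [zero_smul, add_zero] at h6
    have h7 : ∀ᶠ z in 𝓝 y, dist (φ z) (pr v') ≤ ε₂ := by
      have h8 : Tendsto (fun z => dist (φ z) (pr v')) (𝓝 y) (𝓝 (dist (φ y) (pr v'))) := (sheet_cont hS hφ hyD).dist continuousAt_const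
      rw [hprv', dist_self, ← hprv'] at h8
      exact (h8.eventually (gt_mem_nhds hε₂)).mono fun z hz => hz.le
    filter_upwards [hc.eventually (isOpen_ball.mem_nhds hy), hc.eventually h7] with t ht1 ht2
    obtain ⟨x, hx, hxm, hx1⟩ := hlift v hv _ ((hball _ ht1).2.trans (min_le_right _ _))
    have hx2 : inner ℂ v' x ≠ (0 : ℂ) := by
      rw [hxm] at ht2
      exact (hin v' hv' x (ne_zero hX hx) ht2).1
    show nv v (φ (y + t • e)) = _
    rw [hxm]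
    exact nv_nv hx1 hx2
  · filter_upwards [hU] with y hy
    obtain ⟨x, hx, hxm, hx1⟩ := hlift v hv y (hy.2.trans (min_le_right _ _))
    have h1 : nv v (φ y) ∈ X := by
      rw [hxm, nv_pr hx1]
      exact hX.smul_mem x hx _ (inv_ne_zero hx1)
    have h2 : pr (nv v (φ y)) = φ y := by
      rw [hxm]
      exact pr_nv hx1
    exact ⟨h1, h2.symm, fb_lift hX S.geo.tor (hS.fb4 hφ (mem_tb_top b y)) h1 h2⟩

end Pool.Agent.G4.R

end
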