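import Pool.Agent.H94.G5T.G4.Simp
import Pool.Agent.H94.G5T.M132
import Pool.Agent.H94.G5T.M159
import Pool.Agent.H94.G5T.M33
import Pool.Agent.H94.G5T.M36
import Pool.Agent.H94.G5T.M81

/-! The parts of this file: G4.H.Lb, G4.K.Sl, G4.K.Sz. -/

section

/-!
# G4 H Lb: lower and upper bounds of a theta function on the lines

`f ≠ 0` a theta function of weight `M wt W`: `{f = 0}` is analytic, invariant under `m Λ` (`lv_mul`, `ThM.per`, the factors are not `0`), so it contains no line (`G4.no_line` with `D = ∅`).  The functions `‖f y‖ exp (- M wt y)` and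
`y ↦ max over ‖z‖ ≤ 1 of ‖f (y + z a)‖ exp (- M wt (y + z a))` are continuous (or: lower semicontinuous) and invariant under the `lv b c`, so bounded above, resp. below by a positive constant (`lv_red`).
-/

set_option autoImplicit false

open Topology Filter Metric

namespace Pool.Agent.G4.H

open Pool.Agent.AD (Vd)
open Pool.Agent.TG (Lat)
open Pool.Agent.G3 (wt)

variable {k r : ℕ} {Λ Γ : AddSubgroup (Vd (k + 1))} {W : Fin r → Vd (k + 1) →L[ℂ] ℂ} {e : Vd (k + 1) → Vd (k + 1) → ℂ} {b : RB k} {M : ℕ} {f : Vd (k + 1) → ℂ}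

theorem thm_norm (T : ThF Γ W e) (hb : ∀ i, b i ∈ Γ) (hf : ThM b e M f) (c : Fin (2 * (k + 1)) → ℤ) (y : Vd (k + 1)) :
    ‖f (y + lv b c)‖ * Real.exp (-(M * wt W (y + lv b c))) = ‖f y‖ * Real.exp (-(M * wt W y)) := by
  have h1 := hf.per c y
  have h2 := T.nrm (lv b c) (lv_mem hb c) y
  rw [← h1, norm_mul, norm_pow, h2, ← Real.exp_nat_mul]
  have h3 : Real.exp (-(M * wt W (y + lv b c))) =
      Real.exp (M * (wt W y - wt W (y + lv b c))) * Real.exp (-(M * wt W y)) := by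
    rw [← Real.exp_add]
    congr 1
    ring
  rw [h3]
  ring

/-- the weight is continuous -/
private theorem wt_cont (W : Fin r → Vd (k + 1) →L[ℂ] ℂ) : Continuous fun y : Vd (k + 1) => wt W y := by
  unfold wt
  exact continuous_finsetSum _ fun i _ => ((W i).continuous.norm).pow 2

/-- the invariant function is continuous -/
private theorem g_cont (hf : ThM b e M f) : Continuous fun y : Vd (k + 1) => ‖f y‖ * Real.exp (-(M * wt W y)) := by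
  have h1 : Continuous f := continuous_iff_continuousAt.2 fun y => (hf.an y).continuousAt
  exact h1.norm.mul (Real.continuous_exp.comp (continuous_const.mul (wt_cont W)).neg)

theorem thm_up (T : ThF Γ W e) (hb : ∀ i, b i ∈ Γ) (hf : ThM b e M f) : ∃ B : ℝ, 0 < B ∧ ∀ y, ‖f y‖ ≤ B * Real.exp (M * wt W y) := by
  obtain ⟨R, hR, hred⟩ := lv_red b
  obtain ⟨B, hB⟩ := (isCompact_closedBall (0 : Vd (k + 1)) R).exists_bound_of_continuousOn
    (g_cont (W := W) hf).continuousOn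
  refine ⟨max B 1, lt_max_of_lt_right one_pos, fun y => ?_⟩
  obtain ⟨c, hc⟩ := hred y
  have h1 := thm_norm T hb hf c (y - lv b c)
  rw [sub_add_cancel] at h1
  have h2 := hB (y - lv b c) (by rwa [mem_closedBall_zero_iff])
  rw [Real.norm_of_nonneg (by positivity), ← h1] at h2
  have h3 : ‖f y‖ = ‖f y‖ * Real.exp (-(M * wt W y)) * Real.exp (M * wt W y) := by
    rw [mul_assoc, ← Real.exp_add, neg_add_cancel, Real.exp_zero, mul_one]
  rw [h3]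
  exact mul_le_mul_of_nonneg_right (h2.trans (le_max_left _ _)) (Real.exp_pos _).le

/-- the theta function does not vanish on a disc of a line -/
private theorem ex_ne (T : ThF Γ W e) (hb : ∀ i, b i ∈ Γ) (hΛ : Lat Λ) (hs : Simp Λ) (hle : Γ ≤ Λ) (hf : ThM b e M f) (h0 : ∃ y, f y ≠ 0) {a : Vd (k + 1)}
    (ha : a ≠ 0) (y : Vd (k + 1)) : ∃ z : ℂ, ‖z‖ ≤ 1 ∧ f (y + z • a) ≠ 0 := by
  by_contra hcon
  push Not at hcon
  have han : AnalyticOnNhd ℂ (fun z : ℂ => f (y + z • a)) Set.univ := by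
    intro z _
    have h1 : AnalyticAt ℂ (fun z : ℂ => y + z • a) z := by fun_prop
    exact AnalyticAt.fun_comp (g := f) (f := fun z : ℂ => y + z • a) (hf.an _) h1
  have hz : ∀ z : ℂ, f (y + z • a) = 0 := by
    have h1 : ∀ᶠ z in 𝓝 (0 : ℂ), f (y + z • a) = 0 := by
      filter_upwards [ball_mem_nhds (0 : ℂ) one_pos] with z hz
      exact hcon z (mem_ball_zero_iff.1 hz).le
    have h2 := han.eqOn_zero_of_preconnected_of_eventuallyEq_zero isPreconnected_univ (Set.mem_univ (0 : ℂ)) h1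
    exact fun z => h2 (Set.mem_univ z)
  obtain ⟨m, hm, hmul⟩ := lv_mul hΛ (b := b) fun i => hle (hb i)
  obtain ⟨y₀, hy₀⟩ := h0
  refine hy₀ ?_
  have h3 := no_line (D := ∅) (Z := {y | f y = 0}) hΛ hs isClosed_empty (fun y hy => absurd hy (Set.notMem_empty y))
    (fun a _ b z => Eventually.of_forall fun w => Set.notMem_empty _) ?_ hm ?_ ha (a := a) (b := y) ?_ y₀ (Set.notMem_empty y₀)
  · exact h3
  · intro x _
    refine ⟨1, fun z _ => f z, ?_, Eventually.of_forall fun z => ?_⟩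
    · exact AnalyticAt.pi fun _ => hf.an x
    · constructor
      · intro h
        funext i
        exact h
      · intro h
        exact congrFun h 0
  · intro x hx l hl
    obtain ⟨c, hc⟩ := hmul l hl
    have h4 := thm_norm T hb hf c x
    have hx' : f x = 0 := hx
    rw [hx', norm_zero, zero_mul] at h4
    show f (x + m • l) = 0
    rw [hc]
    exact norm_eq_zero.1 ((mul_eq_zero.1 h4).resolve_right (Real.exp_pos _).ne')
  · intro z
    right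
    show f (z • a + y) = 0
    rw [add_comm]
    exact hz z

theorem thm_low (T : ThF Γ W e) (hb : ∀ i, b i ∈ Γ) (hΛ : Lat Λ) (hs : Simp Λ) (hle : Γ ≤ Λ) (hf : ThM b e M f) (h0 : ∃ y, f y ≠ 0) {a : Vd (k + 1)} (ha : a ≠ 0) :
    ∃ m₀ : ℝ, 0 < m₀ ∧ ∀ y, ∃ z₁ : ℂ, ‖z₁‖ ≤ 1 ∧ m₀ * Real.exp (M * wt W (y + z₁ • a)) ≤ ‖f (y + z₁ • a)‖ := by
  obtain ⟨R, hR, hred⟩ := lv_red b
  have hcpt := isCompact_closedBall (0 : Vd (k + 1)) R
  have hg := g_cont (W := W) hf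
  have h1 : ∃ m₀ : ℝ, 0 < m₀ ∧ ∀ y ∈ closedBall (0 : Vd (k + 1)) R, ∃ z₁ : ℂ, ‖z₁‖ ≤ 1 ∧
      m₀ ≤ ‖f (y + z₁ • a)‖ * Real.exp (-(M * wt W (y + z₁ • a))) := by
    refine hcpt.induction_on (p := fun s => ∃ m₀ : ℝ, 0 < m₀ ∧ ∀ y ∈ s, ∃ z₁ : ℂ, ‖z₁‖ ≤ 1 ∧
      m₀ ≤ ‖f (y + z₁ • a)‖ * Real.exp (-(M * wt W (y + z₁ • a)))) ?_ ?_ ?_ ?_
    · exact ⟨1, one_pos, fun y hy => absurd hy (Set.notMem_empty y)⟩
    · rintro s t hst ⟨m₀, hm, h⟩
      exact ⟨m₀, hm, fun y hy => h y (hst hy)⟩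
    · rintro s t ⟨m₀, hm, h⟩ ⟨m₁, hm', h'⟩
      refine ⟨min m₀ m₁, lt_min hm hm', ?_⟩
      rintro y (hy | hy)
      · obtain ⟨z, hz, h2⟩ := h y hy
        exact ⟨z, hz, (min_le_left _ _).trans h2⟩
      · obtain ⟨z, hz, h2⟩ := h' y hy
        exact ⟨z, hz, (min_le_right _ _).trans h2⟩
    · intro y _
      obtain ⟨z, hz, h2⟩ := ex_ne T hb hΛ hs hle hf h0 ha y
      have h3 : 0 < ‖f (y + z • a)‖ * Real.exp (-(M * wt W (y + z • a))) :=
        mul_pos (norm_pos_iff.2 h2) (Real.exp_pos _)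
      have h4 : Continuous fun y : Vd (k + 1) => ‖f (y + z • a)‖ * Real.exp (-(M * wt W (y + z • a))) :=
        hg.comp (continuous_id.add continuous_const)
      have h5 := h4.continuousAt.eventually_const_lt (half_lt_self h3)
      refine ⟨{y' | ‖f (y + z • a)‖ * Real.exp (-(M * wt W (y + z • a))) / 2 <
        ‖f (y' + z • a)‖ * Real.exp (-(M * wt W (y' + z • a)))}, mem_nhdsWithin_of_mem_nhds h5, _, half_pos h3, ?_⟩
      intro y' hy'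
      exact ⟨z, hz, le_of_lt hy'⟩
  obtain ⟨m₀, hm, h⟩ := h1
  refine ⟨m₀, hm, fun y => ?_⟩
  obtain ⟨c, hc⟩ := hred y
  obtain ⟨z, hz, h2⟩ := h (y - lv b c) (by rwa [mem_closedBall_zero_iff])
  refine ⟨z, hz, ?_⟩
  have h3 := thm_norm T hb hf c (y - lv b c + z • a)
  have h4 : y - lv b c + z • a + lv b c = y + z • a := by abel
  rw [h4] at h3
  rw [← h3] at h2
  have h5 := mul_le_mul_of_nonneg_right h2 (Real.exp_pos (M * wt W (y + z • a))).le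
  rwa [mul_assoc (‖f (y + z • a)‖), ← Real.exp_add, neg_add_cancel, Real.exp_zero, mul_one] at h5

/-- the weight on a line -/
theorem wt_line (W : Fin r → Vd (k + 1) →L[ℂ] ℂ) (y a : Vd (k + 1)) (z₁ : ℂ) :
    ∃ c : ℂ, ∀ z : ℂ, wt W (y + z • a) = wt W (y + z₁ • a) + 2 * (c * (z - z₁)).re + wt W a * ‖z - z₁‖ ^ 2 := by
  refine ⟨∑ i, (starRingEnd ℂ) (W i (y + z₁ • a)) * W i a, fun z => ?_⟩
  unfold wt
  have h1 : ∀ A B t : ℂ, ‖A + t * B‖ ^ 2 = ‖A‖ ^ 2 + 2 * ((starRingEnd ℂ) A * B * t).re + ‖B‖ ^ 2 * ‖t‖ ^ 2 := by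
    intro A B t
    rw [← Complex.normSq_eq_norm_sq, ← Complex.normSq_eq_norm_sq, ← Complex.normSq_eq_norm_sq, ← Complex.normSq_eq_norm_sq]
    simp only [Complex.normSq_apply, Complex.add_re, Complex.add_im, Complex.mul_re, Complex.mul_im, Complex.conj_re, Complex.conj_im]
    ring
  have h2 : ∀ i, ‖W i (y + z • a)‖ ^ 2 = ‖W i (y + z₁ • a)‖ ^ 2 + 2 * ((starRingEnd ℂ) (W i (y + z₁ • a)) * W i a * (z - z₁)).re +
      ‖W i a‖ ^ 2 * ‖z - z₁‖ ^ 2 := by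
    intro i
    rw [← h1]
    congr 2
    have h3 : y + z • a = (y + z₁ • a) + (z - z₁) • a := by
      rw [sub_smul]
      abel
    rw [h3, map_add, map_smul, smul_eq_mul]
  have h3 : ((∑ i, (starRingEnd ℂ) (W i (y + z₁ • a)) * W i a) * (z - z₁)).re = ∑ i, ((starRingEnd ℂ) (W i (y + z₁ • a)) * W i a * (z - z₁)).re := by
    rw [Finset.sum_mul, Complex.re_sum]
  rw [Finset.sum_congr rfl fun i _ => h2 i, Finset.sum_add_distrib, Finset.sum_add_distrib, ← Finset.sum_mul, ← Finset.mul_sum, h3]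

end Pool.Agent.G4.H

end

section

/-!
# G4 K Sl: the Schwarz property in adapted coordinates

`ι = Fin n₁ × Fin n₂`, `pt z (i, j) = ((z, α z i), β (z, α z i) j)`.  `A²`, `A¹` from `RSys.div` for `R2`, `R1`; `b i j G z = A¹ i (A² j G) z` is analytic on `ball 0 δ` and linear in `G`, and `G (pt z (i, j)) = ∑ i' j', b i' j' G z (α z i) ^ i' (β … j) ^ j'`.
Conditions: `tay` for the `b i j G`.  Then `‖G (pt z ι)‖ ≤ C ‖z‖ ^ T` near `0`, and `cf_bd` with `A z ι = ρ (pt z ι)`, `g z ι = G (pt z ι)` (`hP`: `norm_an` for `R2` and `F = ρ + s (t - G)`, then for `R1`; `Fintype.prod_prod_type`) gives the bound at the points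
over `z` with `c z ≠ 0` (`RSys.iff` for `R2`, `R1`: such a point is a `pt z ι`).  The other points are limits of such points: the set `c ≠ 0` is dense in the ball (identity theorem), and `opn` (`h3`: the zeros of `σ ((z, v), ·)` are the `β (z, v) j`; `h4`: the
zeros of the norm of `ρ` on `(z, ·)` are the `α z i`).
-/

set_option autoImplicit false

open Topology Filter Metric

namespace Pool.Agent.G4.K

open Pool.Agent.AD (Vd)

private theorem sl_ne {ι : Type} [Finite ι] (f : ι → ℂ) (b : ℂ) : ∀ᶠ w in 𝓝[≠] b, ∀ i, w ≠ f i := by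
  have h : {x : ℂ | x ∈ Set.range f ∧ x ≠ b}.Finite := (Set.finite_range f).subset (fun x hx => hx.1)
  have h1 : {x : ℂ | x ∈ Set.range f ∧ x ≠ b}ᶜ ∈ 𝓝 b := h.isClosed.isOpen_compl.mem_nhds (fun hx => hx.2 rfl)
  filter_upwards [mem_nhdsWithin_of_mem_nhds h1, self_mem_nhdsWithin] with w hw hwb i hi
  exact hw ⟨⟨i, hi.symm⟩, hwb⟩

private theorem sl_nn (b : ℂ) {r : ℝ} (hb : ‖b‖ < r) : ∀ᶠ w in 𝓝[≠] b, ‖w‖ ≤ r := by
  have h : {w : ℂ | ‖w‖ < r} ∈ 𝓝 b := (isOpen_lt continuous_norm continuous_const).mem_nhds hb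
  filter_upwards [mem_nhdsWithin_of_mem_nhds h] with w hw
  exact le_of_lt hw

theorem sw_lc {d : ℕ} {σ ρ : (Vd d × ℂ) × ℂ → ℂ} {δ r₁ r₂ : ℝ} {U : Set (Vd d × ℂ)} {n₁ n₂ : ℕ} {α : Vd d → Fin n₁ → ℂ} {β : Vd d × ℂ → Fin n₂ → ℂ} (H : Lc σ ρ δ r₁ r₂ U α β)
    (T : ℕ) : ∃ Φ : Fin (n₁ * n₂) → (Fin d → Fin T) → ((Vd d × ℂ) × ℂ → ℂ) → ℂ,
      (∀ i j (G G' : (Vd d × ℂ) × ℂ → ℂ) (c : ℂ), (∀ z, AnalyticAt ℂ G z) → (∀ z, AnalyticAt ℂ G' z) → Φ i j (fun z => G z + c * G' z) = Φ i j G + c * Φ i j G') ∧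
      ∀ (G : (Vd d × ℂ) × ℂ → ℂ) (S : ℝ), (∀ z, AnalyticAt ℂ G z) →
        (∀ p : (Vd d × ℂ) × ℂ, ‖p.1.1‖ < δ → ‖p.1.2‖ < r₁ → ‖p.2‖ < r₂ → σ p = 0 → ρ p = 0 → ‖G p‖ ≤ S) → (∀ i j, Φ i j G = 0) →
        ∀ p : (Vd d × ℂ) × ℂ, ‖p.1.1‖ < δ / 2 → ‖p.1.2‖ < r₁ → ‖p.2‖ < r₂ → σ p = 0 → ρ p = 0 → ‖G p‖ ≤ S * (((n₁ * n₂ : ℕ) + 1) * 2 ^ (n₁ * n₂) * (1 / 2) ^ T) := by
  classical
  have hsub := H.sub
  obtain ⟨A2, A2an, A2lin, A2cong, A2val⟩ := H.R2.div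
  obtain ⟨A1, A1an, A1lin, A1cong, A1val⟩ := H.R1.div
  obtain ⟨Ψ, Ψlin, Ψcong, Ψbd⟩ := tay d T
  have h0 : (0 : Vd d) ∈ ball (0 : Vd d) δ := mem_ball_self H.pos
  have hball : ball (0 : Vd d) δ ∈ 𝓝 (0 : Vd d) := isOpen_ball.mem_nhds h0
  -- analyticity of the coefficients
  have hA2 : ∀ G : (Vd d × ℂ) × ℂ → ℂ, (∀ z, AnalyticAt ℂ G z) → ∀ j, ∀ x ∈ ball (0 : Vd d) δ, ∀ w : ℂ, ‖w‖ ≤ r₁ → AnalyticAt ℂ (A2 j G) (x, w) :=
    fun G hG j x hx w hw => A2an j G (fun _ _ _ _ => hG _) _ (hsub x hx w hw)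
  have hbA : ∀ G : (Vd d × ℂ) × ℂ → ℂ, (∀ z, AnalyticAt ℂ G z) → ∀ i j, ∀ x ∈ ball (0 : Vd d) δ, AnalyticAt ℂ (A1 i (A2 j G)) x :=
    fun G hG i j x hx => A1an i _ (hA2 G hG j) x hx
  have hblin : ∀ (G G' : (Vd d × ℂ) × ℂ → ℂ) (c : ℂ), (∀ z, AnalyticAt ℂ G z) → (∀ z, AnalyticAt ℂ G' z) → ∀ i j, ∀ x ∈ ball (0 : Vd d) δ,
      A1 i (A2 j (fun z => G z + c * G' z)) x = A1 i (A2 j G) x + c * A1 i (A2 j G') x := by
    intro G G' c hG hG' i j x hx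
    rw [A1cong i (A2 j (fun z => G z + c * G' z)) (fun p => A2 j G p + c * A2 j G' p) x hx
      (fun w hw => A2lin j G G' c (fun _ _ _ _ => hG _) (fun _ _ _ _ => hG' _) (x, w) (hsub x hx w hw))]
    exact A1lin i _ _ c (hA2 G hG j) (hA2 G' hG' j) x hx
  refine ⟨fun e k G => Ψ k (A1 (finProdFinEquiv.symm e).1 (A2 (finProdFinEquiv.symm e).2 G)), ?_, ?_⟩
  · intro e k G G' c hG hG'
    have h1 : A1 (finProdFinEquiv.symm e).1 (A2 (finProdFinEquiv.symm e).2 (fun z => G z + c * G' z)) =ᶠ[𝓝 0]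
        fun z => A1 (finProdFinEquiv.symm e).1 (A2 (finProdFinEquiv.symm e).2 G) z + c * A1 (finProdFinEquiv.symm e).1 (A2 (finProdFinEquiv.symm e).2 G') z := by
      filter_upwards [hball] with x hx
      exact hblin G G' c hG hG' _ _ x hx
    show Ψ k _ = Ψ k _ + c * Ψ k _
    rw [Ψcong k _ _ h1]
    exact Ψlin k _ _ c (hbA G hG _ _ 0 h0) (hbA G' hG' _ _ 0 h0)
  intro G S hG hGS hΦ
  -- the points over z
  have hpt : ∀ z ∈ ball (0 : Vd d) δ, ∀ i, (z, α z i) ∈ U := fun z hz i => hsub z hz _ (H.R1.lt z hz i).le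
  -- the coefficients vanish to order T
  have hb : ∀ i j, ∃ C : ℝ, 0 ≤ C ∧ ∀ᶠ z in 𝓝 (0 : Vd d), ‖A1 i (A2 j G) z‖ ≤ C * ‖z‖ ^ T := by
    intro i j
    refine Ψbd _ (hbA G hG i j 0 h0) (fun k => ?_)
    have := hΦ (finProdFinEquiv (i, j)) k
    simpa using this
  choose C hC0 hC using hb
  have hCe : ∀ᶠ z in 𝓝 (0 : Vd d), ∀ i j, ‖A1 i (A2 j G) z‖ ≤ C i j * ‖z‖ ^ T :=
    eventually_all.2 fun i => eventually_all.2 fun j => hC i j
  have hT : ∀ᶠ z in 𝓝 (0 : Vd d), ∀ ij : Fin n₁ × Fin n₂, ρ ((z, α z ij.1), β (z, α z ij.1) ij.2) = 0 →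
      ‖G ((z, α z ij.1), β (z, α z ij.1) ij.2)‖ ≤ (∑ j : Fin n₂, ∑ i : Fin n₁, C i j * r₁ ^ (i : ℕ) * r₂ ^ (j : ℕ)) * ‖z‖ ^ T := by
    filter_upwards [hCe, hball] with z hz hzb ij _
    have hU := hpt z hzb ij.1
    have e1 : G ((z, α z ij.1), β (z, α z ij.1) ij.2) = ∑ j, A2 j G (z, α z ij.1) * β (z, α z ij.1) ij.2 ^ (j : ℕ) :=
      A2val G (fun _ _ _ _ => hG _) _ hU ij.2
    have e2 : ∀ j, A2 j G (z, α z ij.1) = ∑ i, A1 i (A2 j G) z * α z ij.1 ^ (i : ℕ) :=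
      fun j => A1val (A2 j G) (hA2 G hG j) z hzb ij.1
    rw [e1, Finset.sum_mul]
    refine (norm_sum_le _ _).trans (Finset.sum_le_sum fun j _ => ?_)
    rw [e2 j, Finset.sum_mul, Finset.sum_mul]
    refine (norm_sum_le _ _).trans (Finset.sum_le_sum fun i _ => ?_)
    rw [norm_mul, norm_mul, norm_pow, norm_pow]
    have ha : ‖α z ij.1‖ ^ (i : ℕ) ≤ r₁ ^ (i : ℕ) := pow_le_pow_left₀ (norm_nonneg _) (H.R1.lt z hzb ij.1).le _
    have hbb : ‖β (z, α z ij.1) ij.2‖ ^ (j : ℕ) ≤ r₂ ^ (j : ℕ) := pow_le_pow_left₀ (norm_nonneg _) (H.R2.lt _ hU ij.2).le _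
    have hr₁ := H.R1.pos
    have hr₂ := H.R2.pos
    calc ‖A1 i (A2 j G) z‖ * ‖α z ij.1‖ ^ (i : ℕ) * ‖β (z, α z ij.1) ij.2‖ ^ (j : ℕ)
        ≤ (C i j * ‖z‖ ^ T) * r₁ ^ (i : ℕ) * r₂ ^ (j : ℕ) := by
          have h1 : 0 ≤ C i j * ‖z‖ ^ T := mul_nonneg (hC0 i j) (by positivity)
          gcongr
          exact hz i j
      _ = C i j * r₁ ^ (i : ℕ) * r₂ ^ (j : ℕ) * ‖z‖ ^ T := by ring
  have hP : ∀ s t : ℂ, ∀ x ∈ ball (0 : Vd d) δ, AnalyticAt ℂ (fun x => ∏ ij : Fin n₁ × Fin n₂,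
      (ρ ((x, α x ij.1), β (x, α x ij.1) ij.2) + s * (t - G ((x, α x ij.1), β (x, α x ij.1) ij.2)))) x := by
    intro s t x hx
    have hN : ∀ x ∈ U, AnalyticAt ℂ (fun x => ∏ j, (ρ (x, β x j) + s * (t - G (x, β x j)))) x :=
      H.R2.norm_an (F := fun p => ρ p + s * (t - G p)) (fun x hx w hw => (H.an x hx w hw).add (analyticAt_const.mul (analyticAt_const.sub (hG _))))
    have hM := H.R1.norm_an (F := fun y => ∏ j, (ρ (y, β y j) + s * (t - G (y, β y j)))) (fun z hz w hw => hN _ (hsub z hz w hw)) x hx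
    simpa only [Fintype.prod_prod_type] using hM
  have hS : ∀ x ∈ ball (0 : Vd d) δ, ∀ ij : Fin n₁ × Fin n₂, ρ ((x, α x ij.1), β (x, α x ij.1) ij.2) = 0 → ‖G ((x, α x ij.1), β (x, α x ij.1) ij.2)‖ ≤ S := by
    intro x hx ij h
    have hU := hpt x hx ij.1
    exact hGS _ (by simpa using hx) (H.R1.lt x hx ij.1) (H.R2.lt _ hU ij.2) ((H.R2.iff hU (H.R2.lt _ hU ij.2).le).2 ⟨ij.2, rfl⟩) h
  obtain ⟨c, hc1, ⟨x₁, hx₁, hcx₁⟩, hc3⟩ := cf_bd H.pos hP hS hT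
  -- dense open set
  have hfreq : ∀ z ∈ ball (0 : Vd d) δ, ∃ᶠ z' in 𝓝 z, c z' ≠ 0 := by
    intro z hz h
    refine hcx₁ ?_
    have hcon : AnalyticOnNhd ℂ c (ball (0 : Vd d) δ) := hc1
    have := hcon.eqOn_zero_of_preconnected_of_eventuallyEq_zero (convex_ball (0 : Vd d) δ).isPreconnected hz
      (by filter_upwards [h] with y hy; simpa using hy)
    exact this hx₁
  rintro ⟨⟨z₀, a⟩, b⟩ hz₀ ha hb hσ0 hρ0
  simp only at hz₀ ha hb
  have hz₀δ : z₀ ∈ ball (0 : Vd d) δ := by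
    have : δ / 2 < δ := half_lt_self H.pos
    simpa using hz₀.trans this
  have hU₀ : (z₀, a) ∈ U := hsub z₀ hz₀δ a ha.le
  have h3 : ∀ᶠ w in 𝓝[≠] b, σ ((z₀, a), w) ≠ 0 := by
    filter_upwards [sl_ne (β (z₀, a)) b, sl_nn b hb] with w h1 h2 h4
    obtain ⟨i, hi⟩ := (H.R2.iff hU₀ h2).1 h4
    exact h1 i hi
  have h4 : ∀ᶠ v in 𝓝[≠] a, ∀ w : ℂ, ‖w - b‖ < r₂ - ‖b‖ → σ ((z₀, v), w) = 0 → ρ ((z₀, v), w) ≠ 0 := by
    filter_upwards [sl_ne (α z₀) a, sl_nn a ha] with v h1 h2 w hw h5 h6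
    have hUv : (z₀, v) ∈ U := hsub z₀ hz₀δ v h2
    have hw' : ‖w‖ ≤ r₂ := by
      have : ‖w‖ ≤ ‖w - b‖ + ‖b‖ := by simpa using norm_add_le (w - b) b
      linarith
    obtain ⟨j, hj⟩ := (H.R2.iff hUv hw').1 h5
    have h7 : ∏ j, ρ ((z₀, v), β (z₀, v) j) = 0 := Finset.prod_eq_zero (Finset.mem_univ j) (by rw [← hj]; exact h6)
    obtain ⟨i, hi⟩ := (H.R1.iff hz₀δ h2).1 h7
    exact h1 i hi
  by_contra hcon
  rw [not_le] at hcon
  have hM : (S * (((Fintype.card (Fin n₁ × Fin n₂) : ℕ) + 1) * 2 ^ Fintype.card (Fin n₁ × Fin n₂) * (1 / 2) ^ T) : ℝ)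
      = S * (((n₁ * n₂ : ℕ) + 1) * 2 ^ (n₁ * n₂) * (1 / 2) ^ T) := by
    rw [Fintype.card_prod, Fintype.card_fin, Fintype.card_fin]
  have hopen : {p : (Vd d × ℂ) × ℂ | S * (((n₁ * n₂ : ℕ) + 1) * 2 ^ (n₁ * n₂) * (1 / 2) ^ T) < ‖G p‖ ∧ ‖p.1.1‖ < δ / 2 ∧ ‖p.1.2‖ < r₁ ∧ ‖p.2‖ < r₂} ∈ 𝓝 ((z₀, a), b) := by
    have c1 : ContinuousAt (fun p => ‖G p‖) ((z₀, a), b) := (hG _).continuousAt.norm
    filter_upwards [c1.eventually (lt_mem_nhds hcon),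
      (isOpen_lt (f := fun p : (Vd d × ℂ) × ℂ => ‖p.1.1‖) (by fun_prop) continuous_const).mem_nhds hz₀,
      (isOpen_lt (f := fun p : (Vd d × ℂ) × ℂ => ‖p.1.2‖) (by fun_prop) continuous_const).mem_nhds ha,
      (isOpen_lt (f := fun p : (Vd d × ℂ) × ℂ => ‖p.2‖) (by fun_prop) continuous_const).mem_nhds hb] with p h1 h2 h3 h4
    exact ⟨h1, h2, h3, h4⟩
  obtain ⟨ε, hε, hεb⟩ := Metric.mem_nhds_iff.1 hopen
  have hop := opn (H.R2.an _ hU₀ b hb.le) (H.an _ hU₀ b hb.le) hσ0 hρ0 h3 (sub_pos.2 hb) h4 hε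
  obtain ⟨z, hcz, ⟨v, w, hv, hw, hσ, hρ⟩, hzε⟩ := ((hfreq z₀ hz₀δ).and_eventually (hop.and (ball_mem_nhds z₀ hε))).exists
  have hmem : (((z, v), w) : (Vd d × ℂ) × ℂ) ∈ ball (((z₀, a), b) : (Vd d × ℂ) × ℂ) ε := by
    rw [mem_ball, Prod.dist_eq, Prod.dist_eq]
    refine max_lt (max_lt hzε ?_) ?_
    · simpa [dist_eq_norm] using hv
    · simpa [dist_eq_norm] using hw
  obtain ⟨k1, k2, k3, k4⟩ := hεb hmem
  simp only at k1 k2 k3 k4
  have hzδ2 : z ∈ ball (0 : Vd d) (δ / 2) := by simpa using k2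
  have hzδ : z ∈ ball (0 : Vd d) δ := ball_subset_ball (half_lt_self H.pos).le hzδ2
  have hUz : (z, v) ∈ U := hsub z hzδ v k3.le
  obtain ⟨j, hj⟩ := (H.R2.iff hUz k4.le).1 hσ
  have h7 : ∏ j, ρ ((z, v), β (z, v) j) = 0 := Finset.prod_eq_zero (Finset.mem_univ j) (by rw [← hj]; exact hρ)
  obtain ⟨i, hi⟩ := (H.R1.iff hzδ k3.le).1 h7
  have hfin := hc3 z hzδ2 hcz (i, j)
  simp only at hfin
  rw [← hi, ← hj] at hfin
  have hle := hfin hρ
  rw [hM] at hle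
  exact absurd hle (not_le.2 k1)

end Pool.Agent.G4.K

end

section

/-!
# G4 K Sz: local complete intersections of codimension `2` have the Schwarz property
-/

set_option autoImplicit false

open Topology Filter Metric

namespace Pool.Agent.G4.K

open Pool.Agent.AD (Vd)

theorem sw_of_ci {k d : ℕ} (hk : d + 1 = k) {Z : Set (Vd (k + 1))} (hZ : CI Z) : Sw d Z := by
  intro y hy
  obtain ⟨σ, ρ, hσ, hρ, h1, h2, h3⟩ := hZ y hy
  obtain ⟨ε, hε, hε2⟩ := Metric.eventually_nhds_iff_ball.1 h2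
  have hy0 := (hε2 y (mem_ball_self hε)).1 hy
  obtain ⟨L, δ, r₁, r₂, U, n₁, n₂, α, β, H, hL⟩ := exists_lc hk hσ hρ hy0.1 hy0.2 h1 h3 (ε := min ε 1) (lt_min hε one_pos)
  have han : ∀ G : Vd (k + 1) → ℂ, (∀ z, AnalyticAt ℂ G z) → ∀ z, AnalyticAt ℂ (fun p : (Vd d × ℂ) × ℂ => G (y + L p)) z := by
    intro G hG z
    exact AnalyticAt.fun_comp (hG _) (analyticAt_const.add ((L : ((Vd d × ℂ) × ℂ) →L[ℂ] Vd (k + 1)).analyticAt z))
  refine ⟨n₁ * n₂, ((n₁ * n₂ : ℕ) + 1) * 2 ^ (n₁ * n₂), by positivity, {z | ‖(L.symm (z - y)).1.1‖ < δ / 2 ∧ ‖(L.symm (z - y)).1.2‖ < r₁ ∧ ‖(L.symm (z - y)).2‖ < r₂}, ?_, fun T => ?_⟩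
  · have hc : Continuous fun z : Vd (k + 1) => L.symm (z - y) := L.symm.continuous.comp (continuous_id.sub continuous_const)
    have ho : IsOpen {z : Vd (k + 1) | ‖(L.symm (z - y)).1.1‖ < δ / 2 ∧ ‖(L.symm (z - y)).1.2‖ < r₁ ∧ ‖(L.symm (z - y)).2‖ < r₂} :=
      (isOpen_lt (continuous_norm.comp (continuous_fst.comp (continuous_fst.comp hc))) continuous_const).inter
        ((isOpen_lt (continuous_norm.comp (continuous_snd.comp (continuous_fst.comp hc))) continuous_const).inter (isOpen_lt (continuous_norm.comp (continuous_snd.comp hc)) continuous_const))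
    refine ho.mem_nhds ?_
    have h4 := H.pos
    have h5 := H.R1.pos
    have h6 := H.R2.pos
    simp [h4, h5, h6]
  · obtain ⟨Φ, hΦ1, hΦ2⟩ := sw_lc H T
    refine ⟨fun i j G => Φ i j fun p => G (y + L p), fun i j G G' c hG hG' => hΦ1 i j _ _ c (han G hG) (han G' hG'), fun G S hG hS h0 z hz hzU => ?_⟩
    have hS0 : 0 ≤ S := (norm_nonneg _).trans (hS y hy (by simp))
    have key := hΦ2 (fun p => G (y + L p)) S (han G hG) (fun p hp1 hp2 hp3 hp4 hp5 => by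
      have h4 := hL p hp1 hp2.le hp3.le
      refine hS _ ((hε2 (y + L p) ?_).2 ⟨hp4, hp5⟩) ?_
      · rw [mem_ball, dist_eq_norm, add_sub_cancel_left]
        exact h4.trans_le (min_le_left _ _)
      · rw [add_sub_cancel_left]
        exact (h4.trans_le (min_le_right _ _)).le) h0 (L.symm (z - y)) hzU.1 hzU.2.1 hzU.2.2
    have h4 : y + L (L.symm (z - y)) = z := by
      rw [ContinuousLinearEquiv.apply_symm_apply]
      abel
    simp only [h4] at key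
    have h5 : ‖z - y‖ < min ε 1 := by
      have h6 := hL (L.symm (z - y)) (hzU.1.trans (by linarith [H.pos])) hzU.2.1.le hzU.2.2.le
      rwa [ContinuousLinearEquiv.apply_symm_apply] at h6
    have h6 := (hε2 z (by rw [mem_ball, dist_eq_norm]; exact h5.trans_le (min_le_left _ _))).1 hz
    refine (key h6.1 h6.2).trans (mul_le_mul_of_nonneg_left (mul_le_mul_of_nonneg_left ?_ (by positivity)) hS0)
    exact pow_le_pow_left₀ (by norm_num) (by norm_num) T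

end Pool.Agent.G4.K

end
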