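import Pool.Agent.H94.G5T.M109
import Pool.Agent.H94.G5T.M133
import Pool.Agent.H94.G5T.M160
import Pool.Agent.H94.G5T.M37
import Pool.Agent.H94.G5T.M93
import Pool.Agent.H94.G5T.M98

/-! The parts of this file: G4.K.Van, G4.K.Main, G4.RE.Main, G4.RE.Sml. -/

section

/-!
# G4 K Van: theta functions which vanish to a high order along `Z` in the direction `a`, for sets `Z` with the Schwarz property

As `G4/H/Van`, with `Sw d Z` instead of the coverings by polydiscs.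
-/

set_option autoImplicit false

open Topology Filter Metric

namespace Pool.Agent.G4.K

open Pool.Agent.AD (Vd)
open Pool.Agent.TG (Lat)
open Pool.Agent.G3 (wt)
open Pool.Agent.G4.H

variable {k r : ℕ} {Γ : AddSubgroup (Vd (k + 1))} {W : Fin r → Vd (k + 1) →L[ℂ] ℂ} {e : Vd (k + 1) → Vd (k + 1) → ℂ}

private theorem wt_cont (W : Fin r → Vd (k + 1) →L[ℂ] ℂ) : Continuous (wt W) := by
  unfold wt
  exact continuous_finsetSum _ fun i _ => ((W i).continuous.norm).pow 2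

private theorem wt_nn (W : Fin r → Vd (k + 1) →L[ℂ] ℂ) (y : Vd (k + 1)) : 0 ≤ wt W y := by
  unfold wt
  exact Finset.sum_nonneg fun i _ => by positivity

private theorem lv_neg (b : RB k) (c : Fin (2 * (k + 1)) → ℤ) : lv b (-c) = -lv b c := by
  unfold lv
  rw [← Finset.sum_neg_distrib]
  refine Finset.sum_congr rfl fun i _ => ?_
  rw [Pi.neg_apply, Int.cast_neg, neg_smul]

/-- finitely many points -/
private theorem charts {Z : Set (Vd (k + 1))} (hZc : IsClosed Z) {d : ℕ} (hZ : Sw d Z) (R : ℝ) :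
    ∃ (P : Finset (Vd (k + 1))) (s : P → ℕ) (U : P → Set (Vd (k + 1))) (C : ℝ), 0 < C ∧ (∀ p : P, (p : Vd (k + 1)) ∈ Z ∧ ‖(p : Vd (k + 1))‖ ≤ R) ∧
      (∀ y ∈ Z, ‖y‖ ≤ R → ∃ p, y ∈ U p) ∧ ∀ T : ℕ, ∀ p : P, ∃ Φ : Fin (s p) → (Fin d → Fin T) → (Vd (k + 1) → ℂ) → ℂ,
    (∀ i j (G G' : Vd (k + 1) → ℂ) (c : ℂ), (∀ z, AnalyticAt ℂ G z) → (∀ z, AnalyticAt ℂ G' z) → Φ i j (fun z => G z + c * G' z) = Φ i j G + c * Φ i j G') ∧
    ∀ (G : Vd (k + 1) → ℂ) (S : ℝ), (∀ z, AnalyticAt ℂ G z) → (∀ z ∈ Z, ‖z - p‖ ≤ 1 → ‖G z‖ ≤ S) → (∀ i j, Φ i j G = 0) → ∀ z ∈ Z, z ∈ U p → ‖G z‖ ≤ S * (C * (3 / 4) ^ T) := by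
  classical
  have hK : IsCompact (Z ∩ closedBall 0 R) := (isCompact_closedBall 0 R).inter_left hZc
  choose s C hC U hU h using hZ
  obtain ⟨t, ht⟩ := hK.elim_nhds_subcover' (fun y hy => U y hy.1) (fun y hy => hU y hy.1)
  have hmem : ∀ p : (t.image Subtype.val : Finset (Vd (k + 1))), (p : Vd (k + 1)) ∈ Z ∧ ‖(p : Vd (k + 1))‖ ≤ R := by
    rintro ⟨p, hp⟩
    obtain ⟨q, hq, rfl⟩ := Finset.mem_image.1 hp
    exact ⟨q.2.1, mem_closedBall_zero_iff.1 q.2.2⟩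
  refine ⟨t.image Subtype.val, fun p => s p (hmem p).1, fun p => U p (hmem p).1, 1 + ∑ p : (t.image Subtype.val : Finset (Vd (k + 1))), C p (hmem p).1, ?_, hmem, ?_, ?_⟩
  · have := Finset.sum_nonneg (s := Finset.univ) (f := fun p : (t.image Subtype.val : Finset (Vd (k + 1))) => C p (hmem p).1) fun p _ => (hC p (hmem p).1).le
    linarith
  · intro y hy hyR
    obtain ⟨x, hx, hxy⟩ := Set.mem_iUnion₂.1 (ht ⟨hy, mem_closedBall_zero_iff.2 hyR⟩)
    exact ⟨⟨x, Finset.mem_image_of_mem _ hx⟩, hxy⟩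
  · intro T p
    obtain ⟨Φ, h1, h2⟩ := h p (hmem p).1 T
    refine ⟨Φ, h1, fun G S hG hS hΦ z hz hzU => ?_⟩
    have hS0 : 0 ≤ S := (norm_nonneg _).trans (hS p (hmem p).1 (by simp))
    have h3 : C p (hmem p).1 ≤ 1 + ∑ p : (t.image Subtype.val : Finset (Vd (k + 1))), C p (hmem p).1 := by
      have := Finset.single_le_sum (s := Finset.univ) (f := fun p : (t.image Subtype.val : Finset (Vd (k + 1))) => C p (hmem p).1) (fun p _ => (hC p (hmem p).1).le) (Finset.mem_univ p)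
      linarith
    exact (h2 G S hG hS hΦ z hz hzU).trans (mul_le_mul_of_nonneg_left (mul_le_mul_of_nonneg_right h3 (by positivity)) hS0)

private theorem wt_bd (W : Fin r → Vd (k + 1) →L[ℂ] ℂ) (R : ℝ) : ∃ w : ℝ, 0 ≤ w ∧ ∀ z : Vd (k + 1), ‖z‖ ≤ R → wt W z ≤ w := by
  obtain ⟨C, hC⟩ := (isCompact_closedBall (0 : Vd (k + 1)) R).exists_bound_of_continuousOn (wt_cont W).continuousOn
  refine ⟨|C|, abs_nonneg _, fun z hz => ?_⟩
  exact (Real.le_norm_self _).trans ((hC z (mem_closedBall_zero_iff.2 hz)).trans (le_abs_self _))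

theorem van_sw (T : ThF Γ W e) {b : RB k} (hb : ∀ i, b i ∈ Γ) {Z : Set (Vd (k + 1))} (hZc : IsClosed Z) (hZi : ∀ y ∈ Z, ∀ l ∈ Γ, y + l ∈ Z) {d : ℕ} (hd : d + 1 = k) (hZ : Sw d Z) (a : Vd (k + 1)) :
    ∃ K A : ℕ, 1 ≤ K ∧ 1 ≤ A ∧ ∀ m l : ℕ, 1 ≤ m → l * A < m ^ 4 → ∃ f : Vd (k + 1) → ℂ, ThM b e (K * m ^ 2) f ∧ (∃ y, f y ≠ 0) ∧ ∀ j < l, ∀ y ∈ Z, (dir a)^[j] f y = 0 := by
  classical
  obtain ⟨K, hK1, hK⟩ := theta_ex T hb
  obtain ⟨R, hR0, hR⟩ := lv_red b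
  obtain ⟨P, s, U, C, hC0, hP, hU, hC⟩ := charts hZc hZ R
  obtain ⟨w, hw0, hw⟩ := wt_bd W (R + 1)
  obtain ⟨C', hC'⟩ : ∃ n : ℕ, Real.exp (K * w) * (3 / 4 : ℝ) ^ n ≤ 1 / (2 * (C + 1)) := by
    obtain ⟨n, hn⟩ := exists_pow_lt_of_lt_one (show 0 < 1 / (2 * (C + 1)) / Real.exp (K * w) by positivity) (show (3 / 4 : ℝ) < 1 by norm_num)
    refine ⟨n, ?_⟩
    rw [lt_div_iff₀ (Real.exp_pos _)] at hn
    linarith
  refine ⟨K, max 1 (Fintype.card (Σ p : P, Fin (s p)) * C' ^ d), hK1, le_max_left _ _, fun m l hm hl => ?_⟩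
  choose Φ hΦ1 hΦ2 using hC (C' * m ^ 2)
  obtain ⟨f, hf, hf0, hfJ⟩ := hK m hm (Fin l × (Σ p : P, Fin (s p)) × (Fin d → Fin (C' * m ^ 2))) (fun p f => Φ p.2.1.1 p.2.1.2 p.2.2 ((dir a)^[p.1] f))
    (by
      intro p f g c hf hg
      rw [dir_lin hf hg c p.1]
      exact hΦ1 p.2.1.1 p.2.1.2 p.2.2 _ _ c (dir_an hf p.1) (dir_an hg p.1))
    (by
      have e1 : Fintype.card (Fin l × (Σ p : P, Fin (s p)) × (Fin d → Fin (C' * m ^ 2))) = l * (Fintype.card (Σ p : P, Fin (s p)) * C' ^ d) * (m ^ 2) ^ d := by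
        rw [Fintype.card_prod, Fintype.card_prod, Fintype.card_fin, Fintype.card_fun, Fintype.card_fin, Fintype.card_fin, mul_pow]
        ring
      have e2 : m ^ (2 * (k + 1)) = m ^ 4 * (m ^ 2) ^ d := by
        subst hd
        ring
      rw [e1, e2]
      exact Nat.mul_lt_mul_of_pos_right (lt_of_le_of_lt (Nat.mul_le_mul_left l (le_max_right _ _)) hl) (by positivity))
  refine ⟨f, hf, hf0, ?_⟩
  set M : ℕ := K * m ^ 2 with hMdef
  -- the weight
  have hq : Real.exp (M * w) * (C * (3 / 4 : ℝ) ^ (C' * m ^ 2)) ≤ 1 / 2 := by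
    have h1 : Real.exp (M * w) * (3 / 4 : ℝ) ^ (C' * m ^ 2) = (Real.exp (K * w) * (3 / 4 : ℝ) ^ C') ^ (m ^ 2) := by
      rw [mul_pow, ← Real.exp_nat_mul, ← pow_mul, hMdef]
      congr 2
      push_cast
      ring
    have h2 : (Real.exp (K * w) * (3 / 4 : ℝ) ^ C') ^ (m ^ 2) ≤ 1 / (2 * (C + 1)) := by
      have h3 : Real.exp (K * w) * (3 / 4 : ℝ) ^ C' ≤ 1 := hC'.trans (by
        rw [div_le_one (by positivity)]
        linarith)
      calc (Real.exp (K * w) * (3 / 4 : ℝ) ^ C') ^ (m ^ 2) ≤ Real.exp (K * w) * (3 / 4 : ℝ) ^ C' :=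
            pow_le_of_le_one (by positivity) h3 (by positivity)
        _ ≤ _ := hC'
    calc Real.exp (M * w) * (C * (3 / 4 : ℝ) ^ (C' * m ^ 2)) = C * (Real.exp (M * w) * (3 / 4 : ℝ) ^ (C' * m ^ 2)) := by ring
      _ ≤ C * (1 / (2 * (C + 1))) := by
          rw [h1]
          exact mul_le_mul_of_nonneg_left h2 hC0.le
      _ ≤ 1 / 2 := by
          rw [mul_one_div, div_le_div_iff₀ (by positivity) (by positivity)]
          linarith
  intro j
  induction j using Nat.strong_induction_on with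
  | _ j ih =>
    intro hj
    have hD : ∀ y, AnalyticAt ℂ ((dir a)^[j] f) y := dir_an hf.an j
    -- the norm is invariant
    have hinv : ∀ y ∈ Z, ∀ c : Fin (2 * (k + 1)) → ℤ, y + lv b c ∈ Z ∧
        ‖(dir a)^[j] f (y + lv b c)‖ * Real.exp (-(M * wt W (y + lv b c))) = ‖(dir a)^[j] f y‖ * Real.exp (-(M * wt W y)) := by
      intro y hy c
      have hc := lv_mem hb c
      have hyc : y + lv b c ∈ Z := hZi y hy _ hc
      refine ⟨hyc, ?_⟩
      have h1 := dir_iter_per (a := a) (h := fun y => e (lv b c) y ^ M) (fun y => (T.an _ hc y).pow M) hf.an (v := lv b c) (hf.per c) (j := j) (y := y)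
        (fun i hi => ih i hi (hi.trans hj) _ hyc)
      rw [← h1, norm_mul, norm_pow, T.nrm _ hc y, ← Real.exp_nat_mul]
      rw [mul_comm (Real.exp _) ‖_‖, mul_assoc, ← Real.exp_add]
      congr 2
      ring
    -- the maximum
    by_cases hne : (Z ∩ closedBall (0 : Vd (k + 1)) R).Nonempty
    swap
    · intro y hy
      exfalso
      obtain ⟨c, hc⟩ := hR y
      refine hne ⟨y + lv b (-c), (hinv y hy (-c)).1, ?_⟩
      rw [mem_closedBall_zero_iff, lv_neg, ← sub_eq_add_neg]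
      exact hc
    have hcont : Continuous (fun y => ‖(dir a)^[j] f y‖ * Real.exp (-(M * wt W y))) := by
      have h1 : Continuous ((dir a)^[j] f) := continuous_iff_continuousAt.2 fun y => (hD y).continuousAt
      have h2 := wt_cont W
      fun_prop
    obtain ⟨y₁, hy₁, hmax⟩ := ((isCompact_closedBall (0 : Vd (k + 1)) R).inter_left hZc).exists_isMaxOn hne hcont.continuousOn
    set S : ℝ := ‖(dir a)^[j] f y₁‖ * Real.exp (-(M * wt W y₁)) with hS
    have hSall : ∀ y ∈ Z, ‖(dir a)^[j] f y‖ * Real.exp (-(M * wt W y)) ≤ S := by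
      intro y hy
      obtain ⟨c, hc⟩ := hR y
      obtain ⟨h1, h2⟩ := hinv y hy (-c)
      rw [← h2]
      refine hmax ⟨h1, ?_⟩
      rw [mem_closedBall_zero_iff, lv_neg, ← sub_eq_add_neg]
      exact hc
    have hS0 : 0 ≤ S := by positivity
    obtain ⟨p, hp⟩ := hU y₁ hy₁.1 (mem_closedBall_zero_iff.1 hy₁.2)
    have h1 := hΦ2 p ((dir a)^[j] f) (S * Real.exp (M * w)) hD
      (by
        intro z hz hzp
        have h2 := hSall z hz
        have h3 : ‖(dir a)^[j] f z‖ = ‖(dir a)^[j] f z‖ * Real.exp (-(M * wt W z)) * Real.exp (M * wt W z) := by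
          rw [mul_assoc, ← Real.exp_add, neg_add_cancel, Real.exp_zero, mul_one]
        rw [h3]
        refine mul_le_mul h2 ?_ (Real.exp_pos _).le hS0
        refine Real.exp_le_exp.2 (mul_le_mul_of_nonneg_left (hw z ?_) (Nat.cast_nonneg _))
        have h4 := norm_add_le (z - p) (p : Vd (k + 1))
        rw [sub_add_cancel] at h4
        linarith [(hP p).2])
      (fun i' j' => hfJ ⟨⟨j, hj⟩, ⟨p, i'⟩, j'⟩) y₁ hy₁.1 hp
    have h2 : S ≤ S * (1 / 2) := by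
      calc S ≤ ‖(dir a)^[j] f y₁‖ * 1 := by
            rw [hS]
            refine mul_le_mul_of_nonneg_left ?_ (norm_nonneg _)
            rw [Real.exp_le_one_iff]
            have := mul_nonneg (Nat.cast_nonneg (α := ℝ) M) (wt_nn W y₁)
            linarith
        _ ≤ S * Real.exp (M * w) * (C * (3 / 4) ^ (C' * m ^ 2)) := by
            rw [mul_one]
            exact h1
        _ = S * (Real.exp (M * w) * (C * (3 / 4) ^ (C' * m ^ 2))) := by ring
        _ ≤ S * (1 / 2) := mul_le_mul_of_nonneg_left hq hS0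
    have h3 : S = 0 := by linarith
    intro y hy
    have h4 := hSall y hy
    rw [h3] at h4
    have h5 : ‖(dir a)^[j] f y‖ ≤ 0 := by
      by_contra hcon
      push Not at hcon
      have := mul_pos hcon (Real.exp_pos (-(M * wt W y)))
      linarith
    exact norm_le_zero_iff.1 h5

end Pool.Agent.G4.K

end

section

/-!
# G4 K Main: few bad hits, for local complete intersections of codimension `2`
-/

set_option autoImplicit false

open Topology Filter Metric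

namespace Pool.Agent.G4.K

open Pool.Agent.H36.BP (EN)
open Pool.Agent.AD (Vd)
open Pool.Agent.TG (Lat VForm)
open Pool.Agent.G3 (wt)
open Pool.Agent.G3.A (Frm Ba)
open Pool.Agent.G4.H

variable {N k : ℕ} {X : Set (EN N)} {Λ Γ : AddSubgroup (Vd (k + 1))} {u : EN N → Vd (k + 1)} {D : Set (Vd (k + 1))} {J r : ℕ}
  {W : Fin r → Vd (k + 1) →L[ℂ] ℂ} {α : Fin J → VForm X Λ u}

theorem few_sw {e : Vd (k + 1) → Vd (k + 1) → ℂ} (T : ThF Γ W e) (hΛ : Lat Λ) (hs : Simp Λ) (hle : Γ ≤ Λ) {Z : Set (Vd (k + 1))} (hZc : IsClosed Z) (hZi : ∀ y ∈ Z, ∀ l ∈ Λ, y + l ∈ Z) (hZ : Z = ∅ ∨ ∃ d : ℕ, d + 1 = k ∧ Sw d Z)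
    {a : Vd (k + 1)} (ha : a ≠ 0) : Few Z a := by
  obtain ⟨b, hb⟩ := exists_rb T.lat
  rcases hZ with hZ0 | ⟨d, hd, hZd⟩
  · intro ε hε
    refine ⟨0, fun y R _ S hS => ?_⟩
    have h0 : S = ∅ := by
      rw [Finset.eq_empty_iff_forall_notMem]
      intro z hz
      have h1 := (hS z hz).2
      rw [hZ0] at h1
      exact h1
    rw [h0, Finset.card_empty, Nat.cast_zero, add_zero]
    positivity
  obtain ⟨K, A, hK, hA, hvan⟩ := van_sw T hb hZc (fun y hy l hl => hZi y hy l (hle hl)) hd hZd a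
  obtain ⟨q, hq⟩ : ∃ q, q = wt W a := ⟨_, rfl⟩
  have hq0 : 0 ≤ q := by
    rw [hq]
    unfold wt
    positivity
  intro ε hε
  -- the parameters
  obtain ⟨p, hp⟩ := exists_nat_gt (max 2 (64 * K * q / ε))
  have hp2 : (2 : ℝ) < p := (le_max_left _ _).trans_lt hp
  have hpε : 64 * K * q / ε < p := (le_max_right _ _).trans_lt hp
  have hp2' : 2 < p := by exact_mod_cast hp2
  obtain ⟨m, hm⟩ : ∃ m : ℕ, m = A * p := ⟨_, rfl⟩
  have hm1 : 1 ≤ m := by
    rw [hm]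
    exact Nat.one_le_iff_ne_zero.2 (Nat.mul_ne_zero (by omega) (by omega))
  have hAp : 2 ≤ A ^ 3 * p ^ 4 := by
    have h1 : 1 ≤ A ^ 3 := Nat.one_le_pow _ _ hA
    have h2 : p ≤ p ^ 4 := Nat.le_self_pow (by norm_num) p
    calc 2 ≤ p ^ 4 := by omega
      _ = 1 * p ^ 4 := (one_mul _).symm
      _ ≤ A ^ 3 * p ^ 4 := Nat.mul_le_mul_right _ h1
  obtain ⟨l, hl⟩ : ∃ l : ℕ, l = A ^ 3 * p ^ 4 - 1 := ⟨_, rfl⟩
  have hl1 : l + 1 = A ^ 3 * p ^ 4 := by omega
  have hlA : l * A < m ^ 4 := by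
    have h1 : (l + 1) * A = m ^ 4 := by
      rw [hl1, hm]
      ring
    have h2 : (l + 1) * A = l * A + A := by ring
    omega
  obtain ⟨f, hf, hf0, hfz⟩ := hvan m l hm1 hlA
  obtain ⟨M, hM⟩ : ∃ M : ℕ, M = K * m ^ 2 := ⟨_, rfl⟩
  rw [← hM] at hf
  obtain ⟨B, hB0, hB⟩ := thm_up T hb hf
  obtain ⟨m₀, hm₀, hlow⟩ := thm_low T hb hΛ hs hle hf hf0 ha
  have hl0 : (0 : ℝ) < l := by
    have : 0 < l := by omega
    exact_mod_cast this
  have hl2 : (A : ℝ) ^ 3 * p ^ 4 ≤ 2 * l := by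
    have h1 : A ^ 3 * p ^ 4 ≤ 2 * l := by omega
    exact_mod_cast h1
  refine ⟨ε + |Real.log (B / m₀)|, fun y R hR S hS => ?_⟩
  obtain ⟨z₁, hz₁, hz₁f⟩ := hlow y
  obtain ⟨c, hc⟩ := wt_line W y a z₁
  have han : ∀ y, AnalyticAt ℂ f y := hf.an
  have hφ : Differentiable ℂ fun z : ℂ => f (y + z • a) := by
    intro z
    have h1 : DifferentiableAt ℂ (fun z : ℂ => y + z • a) z := by fun_prop
    exact (han _).differentiableAt.comp z h1
  have hmem : ∀ z ∈ S, y + z • a ∈ Z := fun z hz => (hS z hz).2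
  have hj := jen (φ := fun z : ℂ => f (y + z • a)) hφ (B := B) (M := M) (w₀ := wt W (y + z₁ • a)) (q := q) (m₀ := m₀) (R := R + 1) (c := c) (z₁ := z₁) (by linarith) hm₀
    (fun z => by
      have h1 := hB (y + z • a)
      rw [hc z, ← hq] at h1
      exact h1) hz₁f (S := S) (l := l) (fun e he => by
      have h1 := norm_sub_le e z₁
      have h2 := (hS e he).1
      linarith) (fun e he => dir_zero han fun j hj => hfz j hj _ (hmem e he))
  have hpos : (0 : ℝ) < p := by linarith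
  have hA1 : (1 : ℝ) ≤ A := by exact_mod_cast hA
  have hKq : 64 * K * q ≤ ε * p := by
    rw [div_lt_iff₀ hε] at hpε
    linarith
  have hlin : 16 * (M : ℝ) * q * (R + 1) ^ 2 ≤ l * (ε * R ^ 2 + ε) := by
    have e1 : (M : ℝ) = K * (A ^ 2 * p ^ 2) := by
      rw [hM, hm]
      push_cast
      ring
    have h1 : (R + 1) ^ 2 ≤ 2 * R ^ 2 + 2 := by nlinarith [sq_nonneg (R - 1)]
    have h2 : 0 ≤ (A : ℝ) ^ 2 * p ^ 2 := by positivity
    have h3 : 0 ≤ (K : ℝ) * q := by positivity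
    have hp1 : (1 : ℝ) ≤ p := by linarith
    calc 16 * (M : ℝ) * q * (R + 1) ^ 2 ≤ 16 * (M : ℝ) * q * (2 * R ^ 2 + 2) := by
          refine mul_le_mul_of_nonneg_left h1 ?_
          positivity
      _ = (64 * K * q) * (A ^ 2 * p ^ 2) * ((R ^ 2 + 1) / 2) := by rw [e1]; ring
      _ ≤ (ε * p) * (A ^ 2 * p ^ 2) * ((R ^ 2 + 1) / 2) := by gcongr
      _ = (A ^ 2 * p ^ 3) * (ε * R ^ 2 + ε) / 2 := by ring
      _ ≤ (A ^ 3 * p ^ 4) * (ε * R ^ 2 + ε) / 2 := by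
          have h4 : (A : ℝ) ^ 2 ≤ A ^ 3 := pow_le_pow_right₀ hA1 (by norm_num)
          have h5 : (p : ℝ) ^ 3 ≤ p ^ 4 := pow_le_pow_right₀ hp1 (by norm_num)
          gcongr
      _ ≤ (2 * l) * (ε * R ^ 2 + ε) / 2 := by gcongr
      _ = l * (ε * R ^ 2 + ε) := by ring
  have hlog : Real.log (B / m₀) ≤ l * |Real.log (B / m₀)| := by
    have h1 : (1 : ℝ) ≤ l := by
      have : 1 ≤ l := by omega
      exact_mod_cast this
    calc Real.log (B / m₀) ≤ |Real.log (B / m₀)| := le_abs_self _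
      _ = 1 * |Real.log (B / m₀)| := (one_mul _).symm
      _ ≤ l * |Real.log (B / m₀)| := mul_le_mul_of_nonneg_right h1 (abs_nonneg _)
  have hfin : (l : ℝ) * S.card ≤ l * (ε * R ^ 2 + (ε + |Real.log (B / m₀)|)) := by
    calc (l : ℝ) * S.card ≤ 16 * M * q * (R + 1) ^ 2 + Real.log (B / m₀) := hj
      _ ≤ l * (ε * R ^ 2 + ε) + l * |Real.log (B / m₀)| := add_le_add hlin hlog
      _ = _ := by ring
  exact le_of_mul_le_mul_left hfin hl0

theorem few_ci (hΛ : Lat Λ) (hs : Simp Λ) (hF : Frm X Λ u D Γ W α) (hx : ∃ y ∉ D, ∃ x ∈ X, u x - y ∈ Λ) {Z : Set (Vd (k + 1))} (hZc : IsClosed Z) (hZi : ∀ y ∈ Z, ∀ l ∈ Λ, y + l ∈ Z) (hZ : CI Z)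
    {a : Vd (k + 1)} (ha : a ≠ 0) : Few Z a := by
  obtain ⟨e, T⟩ := thf_of_frm hF hx
  refine few_sw T hΛ hs hF.le hZc hZi ?_ ha
  rcases k with _ | d
  · exact Or.inl (ci_one hZ)
  · exact Or.inr ⟨d, rfl, sw_of_ci rfl hZ⟩

end Pool.Agent.G4.K

end

section

/-!
# G4 RE Main: the bad points of an analytic hypersurface are a local complete intersection
-/

set_option autoImplicit false

open Topology Filter Metric

namespace Pool.Agent.G4.RE

open Pool.Agent.AD (Vd)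
open Pool.Agent.TG (Lat)
open Pool.Agent.G3 (wt)
open Pool.Agent.G4.H
open Pool.Agent.G4.K

variable {k r : ℕ} {D : Set (Vd (k + 1))}

theorem bd_cl (hD : IsClosed D) (a : Vd (k + 1)) : IsClosed (Bd D a) := by
  rw [← isOpen_compl_iff, isOpen_iff_mem_nhds]
  intro y hy
  by_cases hyD : y ∈ D
  · have hg : Gd D y a := by
      by_contra hn
      exact hy ⟨hyD, hn⟩
    obtain ⟨s, hs, -, hsa, hsD⟩ := hg
    have h1 : ∀ᶠ z in 𝓝 y, fderiv ℂ s z a ≠ 0 := by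
      have h2 : ContinuousAt (fun z => fderiv ℂ s z a) y :=
        (((ContinuousLinearMap.apply ℂ ℂ a).analyticAt _).comp hs.fderiv).continuousAt
      exact h2.eventually_ne hsa
    filter_upwards [h1, hs.eventually_analyticAt, hsD.eventually_nhds] with z hz1 hz2 hz3 hz4
    exact hz4.2 ⟨s, hz2, hz3.self_of_nhds.1 hz4.1, hz1, hz3⟩
  · filter_upwards [hD.isOpen_compl.mem_nhds hyD] with z hz hz2
    exact hz hz2.1

theorem bd_inv {Λ : AddSubgroup (Vd (k + 1))} (hD : ∀ y ∈ D, ∀ l ∈ Λ, y + l ∈ D) (a : Vd (k + 1)) : ∀ y ∈ Bd D a, ∀ l ∈ Λ, y + l ∈ Bd D a := by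
  intro y hy l hl
  refine ⟨hD y hy.1 l hl, ?_⟩
  rintro ⟨s, hs, hs0, hsa, hsD⟩
  refine hy.2 ⟨fun z => s (z + l), ?_, hs0, ?_, ?_⟩
  · exact AnalyticAt.fun_comp hs (analyticAt_id.add analyticAt_const)
  · rw [fderiv_comp_add_right]
    exact hsa
  · have h1 : Tendsto (fun z : Vd (k + 1) => z + l) (𝓝 y) (𝓝 (y + l)) := by
      have h2 : ContinuousAt (fun z : Vd (k + 1) => z + l) y := by fun_prop
      exact h2
    filter_upwards [h1.eventually hsD] with z hz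
    rw [← hz]
    constructor
    · exact fun h => hD z h l hl
    · intro h
      have h2 := hD (z + l) h (-l) (Λ.neg_mem hl)
      rwa [add_neg_cancel_right] at h2

private theorem exists_coord {k : ℕ} {e : Vd (k + 1)} (he : e ≠ 0) :
    ∃ T : (Vd k × ℂ) ≃L[ℂ] Vd (k + 1), T (0, 1) = e := by
  obtain ⟨W, hW⟩ := Submodule.exists_isCompl (Submodule.span ℂ {e})
  have h1 : Module.finrank ℂ (Submodule.span ℂ {e}) = 1 := finrank_span_singleton he
  have h2 : Module.finrank ℂ W = k := by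
    have := Submodule.finrank_add_eq_of_isCompl hW
    have h3 : Module.finrank ℂ (Vd (k + 1)) = k + 1 := by simp
    omega
  have h3 : Module.finrank ℂ (Vd k) = Module.finrank ℂ W := by rw [h2]; simp
  let A : Vd k ≃ₗ[ℂ] W := LinearEquiv.ofFinrankEq _ _ h3
  let B : ℂ ≃ₗ[ℂ] Submodule.span ℂ {e} := LinearEquiv.toSpanNonzeroSingleton ℂ (Vd (k + 1)) e he
  let T : (Vd k × ℂ) ≃ₗ[ℂ] Vd (k + 1) := (A.prodCongr B).trans (Submodule.prodEquivOfIsCompl W (Submodule.span ℂ {e}) hW.symm)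
  refine ⟨T.toContinuousLinearEquiv, ?_⟩
  have h4 : (B 1 : Vd (k + 1)) = (1 : ℂ) • e := by simp [B]
  simp [T, h4]

private theorem gd_comp {V V' : Type} [NormedAddCommGroup V] [NormedSpace ℂ V] [NormedAddCommGroup V'] [NormedSpace ℂ V'] {D : Set V} {y a : V} (L : V' ≃L[ℂ] V) (c : V) (h : Gd D y a) :
    Gd {p | c + L p ∈ D} (L.symm (y - c)) (L.symm a) := by
  obtain ⟨s, hs, hs0, hsa, hsD⟩ := h
  have h0 : c + L (L.symm (y - c)) = y := by
    rw [ContinuousLinearEquiv.apply_symm_apply]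
    abel
  have hL : ∀ p, AnalyticAt ℂ (fun p => c + L p) p := fun p => analyticAt_const.add ((L : V' →L[ℂ] V).analyticAt p)
  refine ⟨fun p => s (c + L p), ?_, ?_, ?_, ?_⟩
  · refine AnalyticAt.fun_comp (g := s) ?_ (hL _)
    rw [h0]
    exact hs
  · simp only [h0]
    exact hs0
  · have h1 : HasFDerivAt (fun p => c + L p) (L : V' →L[ℂ] V) (L.symm (y - c)) := (L : V' →L[ℂ] V).hasFDerivAt.const_add c
    have h2 : HasFDerivAt s (fderiv ℂ s y) (c + L (L.symm (y - c))) := by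
      rw [h0]
      exact hs.differentiableAt.hasFDerivAt
    have h3 : HasFDerivAt (fun p => s (c + L p)) ((fderiv ℂ s y).comp (L : V' →L[ℂ] V)) (L.symm (y - c)) :=
      HasFDerivAt.comp (g := s) (f := fun p => c + L p) _ h2 h1
    have h4 : fderiv ℂ (fun p => s (c + L p)) (L.symm (y - c)) = (fderiv ℂ s y).comp (L : V' →L[ℂ] V) := h3.fderiv
    rw [h4]
    simpa using hsa
  · have h1 : Tendsto (fun p => c + L p) (𝓝 (L.symm (y - c))) (𝓝 y) := by
      have h2 := (hL (L.symm (y - c))).continuousAt.tendsto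
      rwa [h0] at h2
    exact h1.eventually hsD

theorem ci_bd (hD : ∀ y ∈ D, ∃ δ : Vd (k + 1) → ℂ, AnalyticAt ℂ δ y ∧ ∀ᶠ z in 𝓝 y, (z ∈ D ↔ δ z = 0)) {a : Vd (k + 1)} (ha : a ≠ 0) (hl : ∀ y ∈ D, ∀ᶠ z : ℂ in 𝓝[≠] 0, y + z • a ∉ D) : CI (Bd D a) := by
  intro y hy
  obtain ⟨δ, hδ, hδD⟩ := hD y hy.1
  obtain ⟨L, hL⟩ := exists_coord ha
  have hLan : ∀ p, AnalyticAt ℂ (fun p => y + L p) p := fun p => analyticAt_const.add ((L : (Vd k × ℂ) →L[ℂ] Vd (k + 1)).analyticAt p)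
  have hLt : Tendsto (fun p => y + L p) (𝓝 0) (𝓝 y) := by
    have h2 := (hLan 0).continuousAt.tendsto
    simpa using h2
  have hline : Tendsto (fun w : ℂ => ((0 : Vd k), w)) (𝓝[≠] 0) (𝓝 0) := by
    have h1 : ContinuousAt (fun w : ℂ => ((0 : Vd k), w)) 0 := by fun_prop
    exact h1.tendsto.mono_left nhdsWithin_le_nhds
  have hLw : ∀ w : ℂ, y + L ((0 : Vd k), w) = y + w • a := by
    intro w
    rw [← hL, ← map_smul]
    simp
  have hf : AnalyticAt ℂ (fun p => δ (y + L p)) (0, 0) := by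
    refine AnalyticAt.fun_comp (g := δ) ?_ (hLan _)
    have h1 : y + L ((0 : Vd k), (0 : ℂ)) = y := by
      have h2 : L ((0 : Vd k), (0 : ℂ)) = 0 := map_zero L
      rw [h2, add_zero]
    rw [h1]
    exact hδ
  have hf0 : ∀ᶠ w in 𝓝[≠] (0 : ℂ), δ (y + L ((0 : Vd k), w)) ≠ 0 := by
    filter_upwards [hl y hy.1, (hLt.comp hline).eventually hδD] with w hw1 hw2 hw3
    refine hw1 ?_
    rw [← hLw w]
    exact hw2.2 hw3
  obtain ⟨s, hs, hs2⟩ := red (f := fun p => δ (y + L p)) hf hf0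
  have hMan : ∀ z, AnalyticAt ℂ (fun z => L.symm (z - y)) z := by
    intro z
    have h1 : AnalyticAt ℂ (fun z : Vd (k + 1) => z - y) z := analyticAt_id.sub analyticAt_const
    exact AnalyticAt.fun_comp ((L.symm : Vd (k + 1) →L[ℂ] (Vd k × ℂ)).analyticAt _) h1
  have hMt : ∀ z, Tendsto (fun z => L.symm (z - y)) (𝓝 z) (𝓝 (L.symm (z - y))) := fun z => (hMan z).continuousAt.tendsto
  have hM0 : L.symm (y - y) = 0 := by simp
  have hLM : ∀ z, y + L (L.symm (z - y)) = z := by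
    intro z
    rw [ContinuousLinearEquiv.apply_symm_apply]
    abel
  have hML : ∀ p, L.symm (y + L p - y) = p := by
    intro p
    rw [add_sub_cancel_left, ContinuousLinearEquiv.symm_apply_apply]
  -- the equation
  have hσ : AnalyticAt ℂ (fun z => s (L.symm (z - y))) y := by
    refine AnalyticAt.fun_comp (g := s) ?_ (hMan y)
    rw [hM0]
    exact hs
  have hMty : Tendsto (fun z => L.symm (z - y)) (𝓝 y) (𝓝 0) := by
    have := hMt y
    rwa [hM0] at this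
  have hsan : ∀ᶠ z in 𝓝 y, AnalyticAt ℂ s (L.symm (z - y)) := hMty.eventually hs.eventually_analyticAt
  have hder : ∀ z, AnalyticAt ℂ s (L.symm (z - y)) → fderiv ℂ (fun z => s (L.symm (z - y))) z a = fderiv ℂ s (L.symm (z - y)) (0, 1) := by
    intro z hz
    have h1 : HasFDerivAt (fun z : Vd (k + 1) => L.symm (z - y)) (L.symm : Vd (k + 1) →L[ℂ] (Vd k × ℂ)) z :=
      (L.symm : Vd (k + 1) →L[ℂ] (Vd k × ℂ)).hasFDerivAt.comp z ((hasFDerivAt_id z).sub_const y)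
    have h2 := (hz.differentiableAt.hasFDerivAt.comp z h1).fderiv
    have h3 : fderiv ℂ (fun z => s (L.symm (z - y))) z = (fderiv ℂ s (L.symm (z - y))).comp (L.symm : Vd (k + 1) →L[ℂ] (Vd k × ℂ)) := h2
    rw [h3, ← hL]
    simp
  have hev := hMty.eventually hs2
  refine ⟨fun z => s (L.symm (z - y)), fun z => fderiv ℂ (fun z => s (L.symm (z - y))) z a, hσ, ((ContinuousLinearMap.apply ℂ ℂ a).analyticAt _).comp hσ.fderiv, ?_, ?_, ?_⟩
  · -- not identically zero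
    have h1 : Tendsto (fun w : ℂ => y + w • a) (𝓝[≠] 0) (𝓝 y) := by
      have h2 : ContinuousAt (fun w : ℂ => y + w • a) 0 := by fun_prop
      have h3 := h2.tendsto
      rw [zero_smul, add_zero] at h3
      exact h3.mono_left nhdsWithin_le_nhds
    refine h1.frequently (Eventually.frequently ?_)
    filter_upwards [hl y hy.1, h1.eventually hδD, h1.eventually hev] with w hw1 hw2 hw3
    intro hw4
    refine hw1 (hw2.2 ?_)
    have h4 := hw3.1.1 hw4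
    rwa [hLM] at h4
  · filter_upwards [hδD.eventually_nhds, hev, hsan, hMty.eventually hs2.eventually_nhds] with z hz1 hz2 hz3 hz4
    have hzD := hz1.self_of_nhds
    have h1 : s (L.symm (z - y)) = 0 ↔ z ∈ D := by
      rw [hz2.1, hLM, hzD]
    have hDs : ∀ᶠ z' in 𝓝 z, (z' ∈ D ↔ s (L.symm (z' - y)) = 0) := by
      filter_upwards [hz1, (hMt z).eventually hz4] with z' h2 h3
      rw [h2, h3.1, hLM]
    rw [hder z hz3]
    constructor
    · intro hzb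
      have h0 : s (L.symm (z - y)) = 0 := h1.2 hzb.1
      refine ⟨h0, ?_⟩
      by_contra hne
      refine hzb.2 ⟨fun z => s (L.symm (z - y)), AnalyticAt.fun_comp (g := s) hz3 (hMan z), h0, ?_, hDs⟩
      rw [hder z hz3]
      exact hne
    · rintro ⟨h0, hd⟩
      refine ⟨h1.1 h0, fun hg => ?_⟩
      have h2 := gd_comp L y hg
      have ha' : L.symm a = (0, 1) := by rw [← hL, ContinuousLinearEquiv.symm_apply_apply]
      rw [ha'] at h2
      refine hz2.2.2 h0 hd ?_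
      obtain ⟨g, hg1, hg2, hg3, hg4⟩ := h2
      refine ⟨g, hg1, hg2, hg3, ?_⟩
      have h3 : Tendsto (fun p => y + L p) (𝓝 (L.symm (z - y))) (𝓝 z) := by
        have h4 := (hLan (L.symm (z - y))).continuousAt.tendsto
        rwa [hLM] at h4
      filter_upwards [hg4, h3.eventually hz1] with p hp1 hp2
      rw [← hp1]
      exact hp2.symm
  · filter_upwards [hev, hMty.eventually hs.eventually_analyticAt.eventually_nhds] with z hz1 hz2 hz3
    have h1 := hz1.2.1 hz3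
    have h3 : Tendsto (fun p => y + L p) (𝓝 (L.symm (z - y))) (𝓝 z) := by
      have h4 := (hLan (L.symm (z - y))).continuousAt.tendsto
      rwa [hLM] at h4
    refine h3.frequently ((h1.and_eventually hz2).mono ?_)
    rintro p ⟨⟨hp1, hp2⟩, hp3⟩
    rw [hML]
    refine ⟨hp1, ?_⟩
    have h5 := hder (y + L p)
    rw [hML] at h5
    rw [h5 hp3]
    exact hp2

theorem few_bd {Γ Λ : AddSubgroup (Vd (k + 1))} {W : Fin r → Vd (k + 1) →L[ℂ] ℂ} {e : Vd (k + 1) → Vd (k + 1) → ℂ} (T : ThF Γ W e) (hΛ : Lat Λ) (hs : Simp Λ) (hle : Γ ≤ Λ) (hc : IsClosed D) (hi : ∀ y ∈ D, ∀ l ∈ Λ, y + l ∈ D)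
    (hD : ∀ y ∈ D, ∃ δ : Vd (k + 1) → ℂ, AnalyticAt ℂ δ y ∧ ∀ᶠ z in 𝓝 y, (z ∈ D ↔ δ z = 0)) (hL : LDi D) {a : Vd (k + 1)} (ha : a ≠ 0) : Few (Bd D a) a := by
  have h1 : CI (Bd D a) := ci_bd hD ha fun y _ => by
    filter_upwards [hL a ha y 0] with w hw
    rwa [add_comm (w • a) y] at hw
  refine few_sw T hΛ hs hle (bd_cl hc a) (bd_inv hi a) ?_ ha
  rcases k with _ | d
  · exact Or.inl (ci_one h1)
  · exact Or.inr ⟨d, rfl, sw_of_ci rfl h1⟩

end Pool.Agent.G4.RE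

end

section

/-!
# G4 RE Sml: few bad points, from local equations of `D` and `B`

As `K/Sml`, without a condition on the differential of the equation `s` of `D`: the points of `D \ B` at which `a` is tangent to `D` are in `Bd D a`, and `B ∩ D` is a local complete intersection.
-/

set_option autoImplicit false

open Topology Filter Metric

namespace Pool.Agent.G4.RE

open Pool.Agent.H36.BP (EN)
open Pool.Agent.AD (Vd)
open Pool.Agent.TG (Lat VForm TransAt IsCoord)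
open Pool.Agent.G3.A (Frm Ba)
open Pool.Agent.G4.H
open Pool.Agent.G4.K

variable {N k : ℕ} {X : Set (EN N)} {Λ Γ : AddSubgroup (Vd (k + 1))} {u : EN N → Vd (k + 1)} {D B : Set (Vd (k + 1))} {J r : ℕ}
  {W : Fin r → Vd (k + 1) →L[ℂ] ℂ} {α : Fin J → VForm X Λ u} {a : Vd (k + 1)}

/-- local equations: near the points of `D`, `D = {s = 0}`, `B = {s = t = 0}`; `D \ B` is dense in `D` -/
def Lq (D B : Set (Vd (k + 1))) : Prop :=
  D ⊆ closure (D \ B) ∧ ∀ y ∈ D, ∃ s t : Vd (k + 1) → ℂ, AnalyticAt ℂ s y ∧ AnalyticAt ℂ t y ∧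
    ∀ᶠ z in 𝓝 y, (z ∈ D ↔ s z = 0) ∧ (z ∈ B ↔ s z = 0 ∧ t z = 0)

theorem Lq.closed (hD : IsClosed D) (hE : Lq D B) : IsClosed (B ∩ D) := by
  rw [← isOpen_compl_iff, isOpen_iff_mem_nhds]
  intro y hy
  by_cases hyD : y ∈ D
  · obtain ⟨s, t, hs, ht, h⟩ := hE.2 y hyD
    have h1 : t y ≠ 0 := fun h0 => hy ⟨h.self_of_nhds.2.2 ⟨h.self_of_nhds.1.1 hyD, h0⟩, hyD⟩
    filter_upwards [h, ht.continuousAt.eventually_ne h1] with z hz hz1 hz2
    exact hz1 (hz.2.1 hz2.1).2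
  · filter_upwards [hD.isOpen_compl.mem_nhds hyD] with z hz hz2
    exact hz hz2.2

theorem Lq.ci (hL : LDi D) (hE : Lq D B) : CI (B ∩ D) := by
  intro y hy
  obtain ⟨s, t, hs, ht, h⟩ := hE.2 y hy.2
  refine ⟨s, t, hs, ht, ?_, ?_, ?_⟩
  · obtain ⟨a, ha⟩ : ∃ a : Vd (k + 1), a ≠ 0 := exists_ne 0
    have h2 := hL a ha y 0
    have h3 : Tendsto (fun w : ℂ => w • a + y) (𝓝[≠] 0) (𝓝 y) := by
      have h4 : ContinuousAt (fun w : ℂ => w • a + y) 0 := by fun_prop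
      have h5 := h4.tendsto
      rw [zero_smul, zero_add] at h5
      exact h5.mono_left nhdsWithin_le_nhds
    refine h3.frequently (Eventually.frequently ?_)
    filter_upwards [h2, h3.eventually h] with w hw1 hw2 hw3
    exact hw1 (hw2.1.2 hw3)
  · filter_upwards [h] with z hz
    rw [Set.mem_inter_iff, hz.1, hz.2]
    tauto
  · filter_upwards [h.eventually_nhds] with z hz hz0
    have hzD : z ∈ D := hz.self_of_nhds.1.2 hz0
    have h1 := mem_closure_iff_frequently.1 (hE.1 hzD)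
    refine (h1.and_eventually hz).mono ?_
    rintro p ⟨hp1, hp2⟩
    exact ⟨hp2.1.1 hp1.1, fun ht0 => hp1.2 (hp2.2.2 ⟨hp2.1.1 hp1.1, ht0⟩)⟩

theorem Few.uni {Z₁ Z₂ Z : Set (Vd (k + 1))} (h1 : Few Z₁ a) (h2 : Few Z₂ a) (h : Z ⊆ Z₁ ∪ Z₂) : Few Z a := by
  classical
  intro ε hε
  obtain ⟨C₁, hC₁⟩ := h1 (ε / 2) (half_pos hε)
  obtain ⟨C₂, hC₂⟩ := h2 (ε / 2) (half_pos hε)
  refine ⟨C₁ + C₂, fun y R hR S hS => ?_⟩
  have e1 : S.card ≤ (S.filter fun z => y + z • a ∈ Z₁).card + (S.filter fun z => y + z • a ∈ Z₂).card := by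
    rw [← Finset.card_union_add_card_inter]
    refine le_add_right (Finset.card_le_card fun z hz => ?_)
    rw [Finset.mem_union, Finset.mem_filter, Finset.mem_filter]
    rcases h (hS z hz).2 with h3 | h3
    · exact Or.inl ⟨hz, h3⟩
    · exact Or.inr ⟨hz, h3⟩
  have e2 := hC₁ y R hR (S.filter fun z => y + z • a ∈ Z₁) fun z hz => ⟨(hS z (Finset.mem_filter.1 hz).1).1, (Finset.mem_filter.1 hz).2⟩
  have e3 := hC₂ y R hR (S.filter fun z => y + z • a ∈ Z₂) fun z hz => ⟨(hS z (Finset.mem_filter.1 hz).1).1, (Finset.mem_filter.1 hz).2⟩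
  have e4 : (S.card : ℝ) ≤ ((S.filter fun z => y + z • a ∈ Z₁).card : ℝ) + ((S.filter fun z => y + z • a ∈ Z₂).card : ℝ) := by
    exact_mod_cast e1
  linarith

/-- the derivative of a function which is `0` on `D` is `0` on the tangent space of `D` -/
private theorem dr {κ : Vd (k + 1) → Vd (k + 1)} {p : Vd (k + 1)} (h : IsCoord D κ p) {f : Vd (k + 1) → ℂ} (hf : AnalyticAt ℂ f p)
    (h0 : ∀ᶠ x in 𝓝 p, x ∈ D → f x = 0) {q : Vd (k + 1)} (hq : q 0 = 0) : fderiv ℂ f p (fderiv ℂ κ 0 q) = 0 := by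
  have h5 : HasDerivAt (fun z : ℂ => z • q) q 0 := by
    have := (hasDerivAt_id (0 : ℂ)).smul_const q
    simpa using this
  have h6 : HasDerivAt (fun z : ℂ => κ (z • q)) (fderiv ℂ κ 0 q) 0 := by
    have h7 : HasFDerivAt κ (fderiv ℂ κ 0) ((0 : ℂ) • q) := by
      rw [zero_smul]
      exact h.an.differentiableAt.hasFDerivAt
    exact h7.comp_hasDerivAt (0 : ℂ) h5
  have h8 : κ ((0 : ℂ) • q) = p := by
    rw [zero_smul]
    exact h.zero
  have h9 : HasDerivAt (fun z : ℂ => f (κ (z • q))) (fderiv ℂ f p (fderiv ℂ κ 0 q)) 0 := by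
    have h10 : HasFDerivAt f (fderiv ℂ f p) (κ ((0 : ℂ) • q)) := by
      rw [h8]
      exact hf.differentiableAt.hasFDerivAt
    exact h10.comp_hasDerivAt (0 : ℂ) h6
  have h11 : Tendsto (fun z : ℂ => z • q) (𝓝 0) (𝓝 0) := by
    have := h5.continuousAt.tendsto
    rwa [zero_smul] at this
  have h12 : Tendsto (fun z : ℂ => κ (z • q)) (𝓝 0) (𝓝 p) := by
    have := h6.continuousAt.tendsto
    rwa [h8] at this
  have h13 : ∀ᶠ z : ℂ in 𝓝 0, f (κ (z • q)) = 0 := by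
    filter_upwards [h12.eventually h0, h11.eventually h.mem_iff] with z hz1 hz2
    exact hz1 (hz2.2 (by simp [hq]))
  have h14 : (fun z : ℂ => f (κ (z • q))) =ᶠ[𝓝 0] fun _ => 0 := h13
  exact h9.unique (((hasDerivAt_const (0 : ℂ) (0 : ℂ)).congr_of_eventuallyEq h14))

theorem ba_bd (hco : ∀ y ∈ D, y ∉ B → ∃ κ : Vd (k + 1) → Vd (k + 1), IsCoord D κ y) (ha : a ≠ 0) : Ba D B a ⊆ (B ∩ D) ∪ Bd D a := by
  rintro q ⟨hqD, hq⟩
  by_cases hqB : q ∈ B
  · exact Or.inl ⟨hqB, hqD⟩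
  refine Or.inr ⟨hqD, ?_⟩
  rintro ⟨s, hs, -, hsa, hsD⟩
  have h1 : ¬ TransAt D q a := hq.resolve_left hqB
  have h2 : ∃ κ : Vd (k + 1) → Vd (k + 1), IsCoord D κ q ∧ ∃ v : Vd (k + 1), v 0 = 0 ∧ fderiv ℂ κ 0 v = a := by
    by_contra hn
    exact h1 ⟨ha, fun κ hκ v hv hva => hn ⟨κ, hκ, v, hv, hva⟩⟩
  obtain ⟨κ, hκ, v, hv, hva⟩ := h2
  rw [← hva] at hsa
  exact hsa (dr hκ hs (hsD.mono fun z hz hzD => hz.1 hzD) hv)

theorem few_lq (hΛ : Lat Λ) (hs : Simp Λ) (hF : Frm X Λ u D Γ W α) (hx : ∃ y ∉ D, ∃ x ∈ X, u x - y ∈ Λ) (hDc : IsClosed D) (hDi : ∀ y ∈ D, ∀ l ∈ Λ, y + l ∈ D)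
    (hBi : ∀ y ∈ B, ∀ l ∈ Λ, y + l ∈ B) (hL : LDi D) (hE : Lq D B) (hco : ∀ y ∈ D, y ∉ B → ∃ κ : Vd (k + 1) → Vd (k + 1), IsCoord D κ y) (ha : a ≠ 0) : Few (Ba D B a) a := by
  obtain ⟨e, T⟩ := thf_of_frm hF hx
  have hD : ∀ y ∈ D, ∃ δ : Vd (k + 1) → ℂ, AnalyticAt ℂ δ y ∧ ∀ᶠ z in 𝓝 y, (z ∈ D ↔ δ z = 0) := by
    intro y hy
    obtain ⟨s, t, hs, ht, h⟩ := hE.2 y hy
    exact ⟨s, hs, h.mono fun z hz => hz.1⟩
  exact Few.uni (few_ci hΛ hs hF hx (hE.closed hDc) (fun y hy l hl => ⟨hBi y hy.1 l hl, hDi y hy.2 l hl⟩) (hE.ci hL) ha)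
    (few_bd T hΛ hs hF.le hDc hDi hD hL ha) (ba_bd hco ha)

end Pool.Agent.G4.RE

end
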