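import Pool.Agent.H94.G5T.G4.F.FDefs
import Pool.Agent.H94.G5T.M129
import Pool.Agent.H94.G5T.M140
import Pool.Agent.H94.G5T.M161

/-! The parts of this file: G4.M.Main, G4.E.GDx. -/

section

/-!
# G4 M Main: the final theorem

`X` is a smooth projective variety of dimension `k + 2`, `u` a holomorphic map to a simple complex torus `ℂ^(k+1) / Λ`.  The set `B` is replaced by `B ∩ D` (for `k = 1`, `B` finite modulo `Λ`: by `(B + Λ) ∩ D`),
closed and invariant, with few bad points (`exists_B`; by theta functions, `RE/Sml`).  The function `p` is the negatively curved metric (`fin_of`, `ps_of_fin`).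
-/

set_option autoImplicit false

open Topology Filter Metric MvPolynomial

namespace Pool.Agent.G4

open Pool.Agent.H17 (PN VanishesAt HolomorphicInto puncturedDisc)
open Pool.Agent.H62.FC (Homog)
open Pool.Agent.H17LG.Variety (FunField IsLogGeneralType)
open Pool.Agent.H17EF (projVar coneE LE mem_coneE mk_mem_projVar)
open Pool.Agent.H36.BP (EN fs wd Sub Curve)
open Pool.Agent.H14.PP (IsCone CurveAt Tan)
open Pool.Agent.H62.EF (MN pr)
open Pool.Agent.AD (Vd Chart Charts)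
open Pool.Agent.TG (TMap Lat Geo Gd VForm Fb TransAt)
open Pool.Agent.TGF (Cn Over IsAnalyticSubset)
open Pool.Agent.G3.A (Ba Frm)
open Pool.Agent.G3.E (BL sub_bl bl_inv bl_fin)
open Pool.Agent.G3F (HasTopForms TorusHyperbolic)
open Pool.Agent.G4F (IsSimple IsSmall IsSingularLocus HasJetForms)

variable {N k : ℕ}

theorem Few.mono {B B' : Set (Vd (k + 1))} {a : Vd (k + 1)} (h : Few B' a) (hle : B ⊆ B') : Few B a := by
  intro ε hε
  obtain ⟨C, hC⟩ := h ε hε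
  exact ⟨C, fun y R hR S hS => hC y R hR S fun z hz => ⟨(hS z hz).1, hle (hS z hz).2⟩⟩

theorem ba_inter {D B : Set (Vd (k + 1))} {a : Vd (k + 1)} : Ba D (B ∩ D) a ⊆ Ba D B a := by
  rintro q ⟨h1, h2⟩
  exact ⟨h1, h2.imp (fun h => h.1) id⟩

/-- the set `B` can be taken closed and invariant, in `D`, with few bad points -/
theorem exists_B (Λ : AddSubgroup (Cn (k + 1))) [DiscreteTopology Λ] (hΛ : Lat Λ) (hs : Simp Λ) {D B : Set (Cn (k + 1))} (hD : IsAnalyticSubset D) (hDu : D ≠ Set.univ)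
    (hDi : ∀ y ∈ D, ∀ l ∈ Λ, y + l ∈ D) (hco : ∀ y ∈ D, y ∉ B → ∃ κ : Vd (k + 1) → Vd (k + 1), Pool.Agent.TG.IsCoord D κ y)
    {X : Set (EN N)} {v : EN N → Vd (k + 1)} {Γ : AddSubgroup (Vd (k + 1))} {J r : ℕ} {W : Fin r → Vd (k + 1) →L[ℂ] ℂ} {α : Fin J → VForm X Λ v} (hF : Frm X Λ v D Γ W α)
    (hx : ∃ y ∉ D, ∃ x ∈ X, v x - y ∈ Λ) (hB : IsSmall Λ D B) :
    ∃ B' : Set (Cn (k + 1)), IsClosed B' ∧ (∀ b ∈ B', ∀ l ∈ Λ, b + l ∈ B') ∧ B' ⊆ D ∧ (∀ y ∈ D, y ∉ B' → y ∉ B) ∧ ∀ a : Vd (k + 1), a ≠ 0 → Few (Ba D B' a) a := by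
  rcases hB with ⟨rfl, hB⟩ | ⟨h2, hE⟩
  · have hfew : ∀ a : Vd (1 + 1), a ≠ 0 → Few (Ba D (BL B Λ) a) a := fun a ha =>
      few_one hΛ hs hD.isClosed hDi hD hDu (bl_fin hB) (fun y hy hyB => hco y hy fun h => hyB (sub_bl h)) ha
    exact ⟨BL B Λ ∩ D, (bl_closed hB).inter hD.isClosed, fun b hb l hl => ⟨bl_inv b hb.1 l hl, hDi b hb.2 l hl⟩, Set.inter_subset_right, fun y hy hyB h => hyB ⟨sub_bl h, hy⟩,
      fun a ha => (hfew a ha).mono ba_inter⟩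
  · obtain ⟨y₀, hy₀⟩ := (Set.ne_univ_iff_exists_notMem D).1 hDu
    have hL : LDi D := ldi_of hΛ hs (fun y _ => hD y) hDi hy₀
    exact ⟨B ∩ D, RE.Lq.closed hD.isClosed hE, fun b hb l hl => ⟨h2 b hb.1 l hl, hDi b hb.2 l hl⟩, Set.inter_subset_right, fun y hy hyB h => hyB ⟨h, hy⟩,
      fun a ha => (RE.few_lq hΛ hs hF hx hD.isClosed hDi h2 hL hE hco ha).mono ba_inter⟩

end Pool.Agent.G4

end

section

/-!
# G4 E GDx: the global sheets from the sheets over `⊤`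

`Tb b ⊤ = univ`; `sht_finite` at `b = 0`; `ex`: `exists_sht` at `b = y`.
-/

set_option autoImplicit false

open Topology Filter Metric

namespace Pool.Agent.G4.E

open Pool.Agent.H36.BP (EN fs wd)
open Pool.Agent.H14.PP (IsCone CurveAt Tan)
open Pool.Agent.H62.EF (MN pr)
open Pool.Agent.AD (Vd Chart Charts IsGerm)
open Pool.Agent.TG
open Pool.Agent.G3.A (Ba Hc Dec Sepa Tht Frm NL Lm CRL Tb ToE CE Sht)
open Pool.Agent.G3.E (Hol GD BC)
open Pool.Agent.G4.A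

variable {N k : ℕ} {X : Set (EN N)} {Λ : AddSubgroup (Vd (k + 1))} {u : EN N → Vd (k + 1)} {D B Bad : Set (Vd (k + 1))} {a : Vd (k + 1)}
  {Γ : AddSubgroup (Vd (k + 1))} {J rW : ℕ} {W : Fin rW → Vd (k + 1) →L[ℂ] ℂ} {α : Fin J → VForm X Λ u} {c₀ C₀ ρ δ : ℝ}

theorem gd_of_sht (S : DA X Λ u D B Bad a Γ W α c₀ C₀ ρ δ) (hCE : ∀ b, CE X Λ u a b ⊤) (hh : ∀ φ : Vd (k + 1) → MN N, Sht X Λ u D a (Tb 0 ⊤) φ → Hol X Λ u D φ) :
    ∃ SS : Set (Vd (k + 1) → MN N), GD X Λ u D a SS := by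
  have hT : ∀ b y : Vd (k + 1), y ∈ Tb b (⊤ : Submodule ℝ (Vd (k + 1))) := fun b y => (Submodule.mem_top : y - b ∈ (⊤ : Submodule ℝ (Vd (k + 1))))
  obtain ⟨SS, hfin, hsht, hall, -⟩ := sht_finite S (hCE 0)
  refine ⟨SS, hfin, fun φ hφ => hh φ (hsht φ hφ), fun φ hφ y => (hsht φ hφ).line y (hT 0 y), fun y f hf => ?_,
    fun φ hφ l hl => ?_⟩
  · obtain ⟨ψ, hψ, hψf⟩ := exists_sht S (hCE y) hf
    have h1 : Sht X Λ u D a (Tb 0 ⊤) ψ := by
      have e : Tb (0 : Vd (k + 1)) (⊤ : Submodule ℝ (Vd (k + 1))) = Tb y ⊤ := by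
        ext z
        exact ⟨fun _ => hT y z, fun _ => hT 0 z⟩
      rw [e]
      exact hψ
    obtain ⟨φ, hφ, he⟩ := hall ψ h1
    exact ⟨φ, hφ, fun z => by rw [← he _ (hT 0 _), hψf z]⟩
  · obtain ⟨φ', hφ', he⟩ := hall _ (sht_add (hsht φ hφ) S.lg hl Submodule.mem_top)
    have e : (fun y => φ (y + l)) = φ' := funext fun y => he y (hT 0 y)
    rw [e]
    exact hφ'

end Pool.Agent.G4.E

end
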