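import Pool.Agent.H94.G5T.M47
import Pool.Agent.H94.G5T.M85

/-! The parts of this file: H13.CV.Idem, H13.CV.Tame, H13.CV.RegF. -/

section

/-!
# CV Idem: idempotents modulo `x` with trace zero

`matrix_idem`: for a complex matrix with `M * M = M` the trace is the rank (`LinearMap.IsIdempotentElem`, `LinearMap.IsProj.trace`, or diagonalise), so if it is `0` then `M = 0`.

`trace_idem`: `M i j = w.repr (u * w j) i`; these are in `L` and `RegLoc x` (`LocB`, `basis_regLoc`).  `Algebra.trace L K u = ∑ i, M i i` (`Algebra.trace_eq_matrix_trace w`, `Algebra.leftMulMatrix_eq_repr_mul`).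
Let `E` be a place over `x = 0` (`exists_place_over`) and `M̄ i j = res E (M i j)`.  `M * M - M` is the matrix of the multiplication by `u² - u`: its entries are the coordinates of
`(u² - u) * w j = x * (RegLoc)`, so they are `x` times a `RegLoc` element, and `res E` of them is `0`.  So `M̄ * M̄ = M̄` (`res_add`, `res_mul`, `res_sum`).  The trace of `M̄` is `res E` of
`Algebra.trace L K u`, which is `0`.  So `M̄ = 0`: all `M i j` have positive order at `E`, so `RegLoc x (M i j / x)` (`regLoc_div_of_pos`), so `RegLoc x (u * w j / x)` for all `j`.  With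
`1 = ∑ r j * w j`, `RegLoc x (r j)` (`LocB`): `u / x = ∑ r j * (u * w j / x)`.
-/

set_option autoImplicit false

open Pool.Agent.H23.Fano (PrimeDivisorOver Form regularForms)

noncomputable section

namespace Pool.Agent.H13.CV

theorem matrix_idem {n : ℕ} (M : Matrix (Fin n) (Fin n) ℂ) (hM : M * M = M) (ht : M.trace = 0) : M = 0 := by
  have he : IsIdempotentElem (Matrix.toLin' M) := by
    show Matrix.toLin' M * Matrix.toLin' M = Matrix.toLin' M
    have : Matrix.toLin' (M * M) = Matrix.toLin' M * Matrix.toLin' M := Matrix.toLin'_mul M M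
    rw [← this, hM]
  have htr : LinearMap.trace ℂ (Fin n → ℂ) (Matrix.toLin' M) = 0 := by
    rw [Matrix.trace_toLin'_eq, ht]
  have h0 := (LinearMap.IsIdempotentElem.trace_eq_zero_iff he).mp htr
  exact (LinearEquiv.map_eq_zero_iff Matrix.toLin').mp h0

variable {K : Type} [Field K] [Algebra ℂ K] {L : IntermediateField ℂ K} {x : K} {n : ℕ}

private theorem regLoc_mul {f g : K} (hf : RegLoc x f) (hg : RegLoc x g) : RegLoc x (f * g) :=
  fun E hE => nonneg_mul (hf E hE) (hg E hE)

private theorem regLoc_sum {ι : Type*} {s : Finset ι} {F : ι → K} (h : ∀ i ∈ s, RegLoc x (F i)) :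
    RegLoc x (∑ i ∈ s, F i) :=
  fun E hE => nonneg_sum fun i hi => h i hi E hE

private theorem regLoc_one : RegLoc x (1 : K) := fun E _ => by
  rw [E.ord.map_one]

private theorem repr_L_mul (w : Module.Basis (Fin n) L K) {c : K} (hc : c ∈ L) (f : K) (i : Fin n) :
    ((w.repr (c * f) i : L) : K) = c * ((w.repr f i : L) : K) := by
  have h1 : c * f = (⟨c, hc⟩ : L) • f := by
    rw [Algebra.smul_def]
    rfl
  rw [h1, map_smul]
  simp

private theorem sum_repr_coe (w : Module.Basis (Fin n) L K) (f : K) :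
    f = ∑ i, ((w.repr f i : L) : K) * w i := by
  conv_lhs => rw [← w.sum_repr f]
  refine Finset.sum_congr rfl fun i _ => ?_
  rw [Algebra.smul_def]
  rfl

theorem trace_idem (hK : CurveField K) (hL : Gen L x) [FiniteDimensional L K] {w : Module.Basis (Fin n) L K} (hw : LocB x w) {u : K} (hu : RegLoc x u)
    (hu2 : RegLoc x ((u ^ 2 - u) / x)) (htr : RegLoc x (((Algebra.trace L K u : L) : K) / x)) : RegLoc x (u / x) := by
  have hx0 : x ≠ 0 := hL.ne_zero
  have hxL : x ∈ L := hL.mem
  obtain ⟨E, hE⟩ := exists_place_over hK hL.tr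
  -- the matrix
  set M : Fin n → Fin n → K := fun i j => ((w.repr (u * w j) i : L) : K) with hMdef
  have hMreg : ∀ i j, RegLoc x (M i j) := fun i j =>
    (hw (u * w j)).mp (regLoc_mul hu (hw.basis_regLoc j)) i
  have hML : ∀ i j, M i j ∈ L := fun i j => (w.repr (u * w j) i).2
  -- the product
  have hMM : ∀ i j, ((w.repr (u ^ 2 * w j) i : L) : K) = ∑ k, M i k * M k j := by
    intro i j
    have h1 : u ^ 2 * w j = ∑ k, M k j * (u * w k) := by
      have h2 : u * w j = ∑ k, M k j * w k := sum_repr_coe w (u * w j)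
      calc u ^ 2 * w j = u * (u * w j) := by ring
        _ = u * ∑ k, M k j * w k := by rw [← h2]
        _ = _ := by
          rw [Finset.mul_sum]
          exact Finset.sum_congr rfl fun k _ => by ring
    rw [h1, map_sum, Finset.sum_apply', AddSubmonoidClass.coe_finsetSum]
    refine Finset.sum_congr rfl fun k _ => ?_
    rw [repr_L_mul w (hML k j), mul_comm]
  -- the difference
  have hdiff : ∀ i j, ∃ R : K, RegLoc x R ∧ (∑ k, M i k * M k j) = M i j + x * R := by
    intro i j
    refine ⟨((w.repr (((u ^ 2 - u) / x) * w j) i : L) : K),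
      (hw _).mp (regLoc_mul hu2 (hw.basis_regLoc j)) i, ?_⟩
    rw [← repr_L_mul w hxL, ← hMM]
    have h3 : x * ((u ^ 2 - u) / x * w j) = u ^ 2 * w j - u * w j := by
      field_simp
    rw [h3, map_sub]
    simp [hMdef]
  -- the residue matrix
  set N : Matrix (Fin n) (Fin n) ℂ := fun i j => res E (M i j) with hNdef
  have hnn : ∀ i j, 0 ≤ E.ord (M i j) := fun i j => hMreg i j E hE
  have hNN : N * N = N := by
    ext i j
    rw [Matrix.mul_apply]
    obtain ⟨R, hR, hR2⟩ := hdiff i j
    have hxR : 0 < E.ord (x * R) := pos_mul hE (hR E hE)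
    have h4 : res E (∑ k, M i k * M k j) = ∑ k, N i k * N k j := by
      rw [res_sum hK (fun k _ => nonneg_mul (hnn i k) (hnn k j))]
      exact Finset.sum_congr rfl fun k _ => res_mul hK (hnn i k) (hnn k j)
    have h5 : res E (M i j + x * R) = N i j := by
      rw [res_add hK (hnn i j) hxR.le, (res_eq_zero_iff hK hxR.le).mpr hxR, add_zero]
    rw [← h4, hR2, h5]
  have hNtr : N.trace = 0 := by
    have h6 : ((Algebra.trace L K u : L) : K) = ∑ i, M i i := by
      rw [Algebra.trace_eq_matrix_trace w, Matrix.trace, AddSubmonoidClass.coe_finsetSum]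
      refine Finset.sum_congr rfl fun i _ => ?_
      rw [Matrix.diag_apply, Algebra.leftMulMatrix_eq_repr_mul]
    have h7 : 0 < E.ord ((Algebra.trace L K u : L) : K) := by
      have h8 : ((Algebra.trace L K u : L) : K) = x * (((Algebra.trace L K u : L) : K) / x) := by
        field_simp
      rw [h8]
      exact pos_mul hE (htr E hE)
    have h9 : N.trace = res E (∑ i, M i i) := by
      rw [res_sum hK (fun i _ => hnn i i)]
      rfl
    rw [h9, ← h6]
    exact (res_eq_zero_iff hK h7.le).mpr h7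
  have hN0 : N = 0 := matrix_idem N hNN hNtr
  have hMx : ∀ i j, RegLoc x (M i j / x) := by
    intro i j
    refine regLoc_div_of_pos hL (hML i j) hE ?_
    refine (res_eq_zero_iff hK (hnn i j)).mp ?_
    have : N i j = 0 := by rw [hN0]; rfl
    exact this
  have huw : ∀ j, RegLoc x (u * w j / x) := by
    intro j
    refine (hw _).mpr fun i => ?_
    have h10 : u * w j / x = x⁻¹ * (u * w j) := by field_simp
    rw [h10, repr_L_mul w (inv_mem hxL)]
    have h11 : x⁻¹ * ((w.repr (u * w j) i : L) : K) = M i j / x := by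
      rw [div_eq_mul_inv, mul_comm]
    rw [h11]
    exact hMx i j
  have h1 : u / x = ∑ j, ((w.repr (1 : K) j : L) : K) * (u * w j / x) := by
    have h2 : (1 : K) = ∑ j, ((w.repr (1 : K) j : L) : K) * w j := sum_repr_coe w 1
    calc u / x = u / x * 1 := by ring
      _ = u / x * ∑ j, ((w.repr (1 : K) j : L) : K) * w j := by rw [← h2]
      _ = _ := by
        rw [Finset.mul_sum]
        exact Finset.sum_congr rfl fun j _ => by ring
  rw [h1]
  exact regLoc_sum fun j _ => regLoc_mul ((hw 1).mp regLoc_one j) (huw j)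

end Pool.Agent.H13.CV

end
end

section

/-!
# CV Tame: the trace lemma (tame ramification)

`tame`: let `e = oz E x`, and suppose that `oz E h ≤ - e`.  Let `T` be the finite set of the places over `x = 0` (`finite_over`).  By `approx` there is `c ∈ K` with: at `E`: `ord (c - (x * h)⁻¹) ≥ N`, at the
`E' ∈ T`, `E' ≠ E`: `ord c ≥ N`, with `N ≥ 0` so large that `N ≥ oz E' x - oz E' (x * h)` for all `E' ∈ T`, and `N ≥ e - oz E (x * h)`, `N ≥ e`.  Then `RegLoc x c` (at `E`: `(x h)⁻¹` has order
`- (e + oz E h) ≥ 0`).  Let `u = x * h * c`: `ord_E (u - 1) = ord_E (x h (c - (x h)⁻¹)) ≥ e`, and `ord_{E'} u ≥ oz E' x` for `E' ≠ E`.  So `RegLoc x u`, `RegLoc x ((u² - u) / x)`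
(`u² - u = u (u - 1)`), and `trace u = x * trace (h * c)` (`Algebra.trace` is `L`-linear, `x ∈ L`), so `RegLoc x (trace u / x)` by `hh` for `f = c`.  By `trace_idem`: `RegLoc x (u / x)`: so
`ord_E u ≥ e > 0`; but `ord_E (u - 1) ≥ e > 0`, so `ord_E 1 > 0`: contradiction.

`exists_dual`: `(Algebra.traceForm L K).dualBasis (traceForm_nondegenerate L K) w`; `Algebra.trace L K (v i * w j) = if i = j then 1 else 0`, so `trace (v i * f) = w.repr f i` for `f = ∑ (w.repr f j) • w j`.
-/

set_option autoImplicit false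

open Pool.Agent.H23.Fano (PrimeDivisorOver Form regularForms)

noncomputable section

namespace Pool.Agent.H13.CV

variable {K : Type} [Field K] [Algebra ℂ K] {L : IntermediateField ℂ K} {x : K} {n : ℕ}

private lemma tame_le_mul {E : Place K} {f g : K} {a b : ℤ} (hf : (a : WithTop ℤ) ≤ E.ord f) (hg : (b : WithTop ℤ) ≤ E.ord g) :
    ((a + b : ℤ) : WithTop ℤ) ≤ E.ord (f * g) := by
  rw [E.ord.map_mul, WithTop.coe_add]
  exact add_le_add hf hg

private lemma tame_div {E : Place K} {f : K} (hx : x ≠ 0) (hf : ((oz E x : ℤ) : WithTop ℤ) ≤ E.ord f) : 0 ≤ E.ord (f / x) := by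
  have h := tame_le_mul hf (ord_inv E hx).ge
  rw [add_neg_cancel] at h
  rw [div_eq_mul_inv]
  exact h

theorem tame (hK : CurveField K) (hL : Gen L x) [FiniteDimensional L K] {w : Module.Basis (Fin n) L K} (hw : LocB x w) {h : K} (h0 : h ≠ 0)
    (hh : ∀ f : K, RegLoc x f → RegLoc x ((Algebra.trace L K (h * f) : L) : K)) {E : Place K} (hE : 0 < E.ord x) : 1 - oz E x ≤ oz E h := by
  classical
  by_contra hcon
  have hx : x ≠ 0 := hL.ne_zero
  have he : 0 < oz E x := (pos_iff.1 hE).resolve_left hx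
  have hxh : x * h ≠ 0 := mul_ne_zero hx h0
  have hneg : oz E (x * h) ≤ 0 := by
    rw [oz_mul E hx h0]
    omega
  set T : Finset (Place K) := (finite_over (L := L) (x := x) hL).toFinset with hT
  have hmem : ∀ E' : Place K, 0 < E'.ord x → E' ∈ T := fun E' h' => by
    rw [hT, Set.Finite.mem_toFinset]
    exact h'
  obtain ⟨N, hN0, hN⟩ : ∃ N : ℤ, 0 ≤ N ∧ ∀ E' ∈ T, oz E' x - oz E' (x * h) ≤ N := by
    refine ⟨∑ E' ∈ T, |oz E' x - oz E' (x * h)|, Finset.sum_nonneg fun _ _ => abs_nonneg _, fun E' h' => ?_⟩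
    exact (le_abs_self _).trans (Finset.single_le_sum (f := fun E' => |oz E' x - oz E' (x * h)|) (fun _ _ => abs_nonneg _) h')
  obtain ⟨c, hc⟩ := approx T (fun E' => if E' = E then (x * h)⁻¹ else 0) N
  have hcE : ((N : ℤ) : WithTop ℤ) ≤ E.ord (c - (x * h)⁻¹) := by
    have h1 := hc E (hmem E hE)
    rwa [if_pos rfl] at h1
  have hcE' : ∀ E' : Place K, 0 < E'.ord x → E' ≠ E → ((N : ℤ) : WithTop ℤ) ≤ E'.ord c := by
    intro E' h' hne
    have h1 := hc E' (hmem E' h')
    rwa [if_neg hne, sub_zero] at h1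
  have hNtop : (0 : WithTop ℤ) ≤ ((N : ℤ) : WithTop ℤ) := by exact_mod_cast hN0
  set u : K := x * h * c with hu
  have hu1 : ((oz E x : ℤ) : WithTop ℤ) ≤ E.ord (u - 1) := by
    have e1 : u - 1 = x * h * (c - (x * h)⁻¹) := by
      rw [hu, mul_sub, mul_inv_cancel₀ hxh]
    have h1 := tame_le_mul (coe_oz E hxh).le hcE
    rw [← e1] at h1
    refine le_trans ?_ h1
    have h2 := hN E (hmem E hE)
    exact_mod_cast (by omega : oz E x ≤ oz E (x * h) + N)
  have hu2 : ∀ E' : Place K, 0 < E'.ord x → E' ≠ E → ((oz E' x : ℤ) : WithTop ℤ) ≤ E'.ord u := by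
    intro E' h' hne
    have h1 := tame_le_mul (coe_oz E' hxh).le (hcE' E' h' hne)
    refine le_trans ?_ h1
    have h2 := hN E' (hmem E' h')
    exact_mod_cast (by omega : oz E' x ≤ oz E' (x * h) + N)
  have hone : ∀ E' : Place K, E'.ord (1 : K) = 0 := fun E' => E'.ord.map_one
  have hx1 : ∀ E' : Place K, 0 < E'.ord x → (0 : WithTop ℤ) ≤ ((oz E' x : ℤ) : WithTop ℤ) := by
    intro E' h'
    rw [coe_oz E' hx]
    exact h'.le
  -- `c` is regular
  have hcreg : RegLoc x c := by
    intro E' h'
    by_cases hEE : E' = E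
    · subst hEE
      have h1 : 0 ≤ E'.ord ((x * h)⁻¹) := by
        rw [ord_inv E' hxh]
        exact_mod_cast (by omega : (0 : ℤ) ≤ -oz E' (x * h))
      have h2 := nonneg_add (hNtop.trans hcE) h1
      rwa [sub_add_cancel] at h2
    · exact hNtop.trans (hcE' E' h' hEE)
  have hu1' : 0 ≤ E.ord (u - 1) := (hx1 E hE).trans hu1
  have hureg : RegLoc x u := by
    intro E' h'
    by_cases hEE : E' = E
    · subst hEE
      have h2 := nonneg_add hu1' (hone E').ge
      rwa [sub_add_cancel] at h2
    · exact (hx1 E' h').trans (hu2 E' h' hEE)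
  have hreg2 : RegLoc x ((u ^ 2 - u) / x) := by
    intro E' h'
    have e1 : u ^ 2 - u = (u - 1) * u := by ring
    rw [e1]
    apply tame_div hx
    by_cases hEE : E' = E
    · subst hEE
      have h1 := tame_le_mul (a := oz E' x) (b := 0) hu1 (by exact_mod_cast hureg E' h')
      rwa [add_zero] at h1
    · have h1 := tame_le_mul (a := 0) (b := oz E' x) (f := u - 1) (g := u) (by exact_mod_cast nonneg_sub (hureg E' h') (hone E').ge) (hu2 E' h' hEE)
      rwa [zero_add] at h1
  have htr : RegLoc x (((Algebra.trace L K u : L) : K) / x) := by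
    have e1 : u = (⟨x, hL.mem⟩ : L) • (h * c) := by
      rw [hu, mul_assoc]
      rfl
    have e2 : ((Algebra.trace L K u : L) : K) = x * ((Algebra.trace L K (h * c) : L) : K) := by
      rw [e1, map_smul]
      rfl
    rw [e2, mul_div_cancel_left₀ _ hx]
    exact hh c hcreg
  have hfin := trace_idem hK hL hw hureg hreg2 htr E hE
  have hupos : 0 < E.ord u := by
    have e1 : u = u / x * x := by rw [div_mul_cancel₀ _ hx]
    rw [e1, mul_comm]
    exact pos_mul hE hfin
  have hu1pos : 0 < E.ord (u - 1) := by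
    refine lt_of_lt_of_le ?_ hu1
    exact_mod_cast he
  have h3 := pos_sub hupos hu1pos
  rw [sub_sub_cancel, hone E] at h3
  exact lt_irrefl _ h3

theorem exists_dual [FiniteDimensional L K] (w : Module.Basis (Fin n) L K) :
    ∃ v : Module.Basis (Fin n) L K, ∀ i f, Algebra.trace L K (v i * f) = w.repr f i := by
  classical
  have : CharZero L := charZero_of_injective_algebraMap (algebraMap ℂ L).injective
  refine ⟨(Algebra.traceForm L K).dualBasis (traceForm_nondegenerate L K) w, fun i f => ?_⟩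
  have h1 : ∀ j, Algebra.trace L K ((Algebra.traceForm L K).dualBasis (traceForm_nondegenerate L K) w i * w j) = if j = i then 1 else 0 := by
    intro j
    have h2 := LinearMap.BilinForm.apply_dualBasis_left (B := Algebra.traceForm L K) (traceForm_nondegenerate L K) w i j
    rwa [Algebra.traceForm_apply] at h2
  conv_lhs => rw [← w.sum_repr f]
  rw [Finset.mul_sum, map_sum]
  have h3 : ∀ j, Algebra.trace L K ((Algebra.traceForm L K).dualBasis (traceForm_nondegenerate L K) w i * (w.repr f j • w j)) = w.repr f j * if j = i then 1 else 0 := by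
    intro j
    rw [mul_smul_comm, map_smul, h1 j, smul_eq_mul]
  rw [Finset.sum_congr rfl fun j _ => h3 j]
  simp

end Pool.Agent.H13.CV

end
end

section

/-!
# CV RegF: regular forms

Let `w, a` be a Birkhoff basis and `v` its dual basis for the trace form (`trace (v i * f) = w.repr f i`), `j + 2 ≤ a i`, `h = x ^ j * v i ≠ 0`.  The form `h dx` is regular at every place `E`.
Case 1: `0 ≤ ord x`: let `c` be the value of `x` (`exists_value`), `y = x - c`, `Gen L y` (`Gen.sub_const`), `0 < ord y`.  `AffB y w` (`AffB.sub_const`), so `LocB y w` (`AffB.locB`).  For `f` with `RegLoc y f`: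
`trace (h * f) = x ^ j * w.repr f i` (`x ∈ L`) is `RegLoc y` (`x = y + c` is `RegLoc y`).  So `1 - oz E y ≤ oz E h` (`tame`), and `pole_mk` for `dx y = dx x` (`dx_sub_const`).
Case 2: `ord x < 0`: `y = x⁻¹`, `Gen L y`, `0 < ord y`.  There is a `LocB y` basis (`exists_locB`).  `h' = - x ^ 2 * h`.  For `f` with `RegLoc y f`: `trace (h' * f) = - x ^ (j + 2) * w.repr f i`, and
`x ^ a i * w.repr f i` is `RegLoc y` by `Birk.inf`, so `x ^ (j + 2) * w.repr f i = y ^ (a i - j - 2) * (x ^ a i * w.repr f i)` is.  So `1 - oz E y ≤ oz E h' = 2 * oz E x + oz E h`, i.e. with `oz E y = - oz E x`: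
`0 ≤ oz E h + oz E x - 1`: `pole_mk`.
-/

set_option autoImplicit false

open Pool.Agent.H23.Fano (PrimeDivisorOver Form regularForms)
open Pool.Agent.H17LG.Variety (PoleAtMost IsLogGeneralType)

noncomputable section

namespace Pool.Agent.H13.CV

variable {K : Type} [Field K] [Algebra ℂ K] {L : IntermediateField ℂ K} {x : K} {n : ℕ}

theorem trace_pow_mul (hL : Gen L x) [FiniteDimensional L K] {w v : Module.Basis (Fin n) L K}
    (hv : ∀ i f, Algebra.trace L K (v i * f) = w.repr f i) (i : Fin n) (k : ℕ) (f : K) :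
    ((Algebra.trace L K (x ^ k * v i * f) : L) : K) = x ^ k * ((w.repr f i : L) : K) := by
  have h1 : x ^ k * v i * f = ((⟨x, hL.mem⟩ : L) ^ k) • (v i * f) := by
    rw [Algebra.smul_def, mul_assoc]
    congr 1
  rw [h1, map_smul, hv, smul_eq_mul]
  push_cast
  rfl

theorem regular_form (hK : CurveField K) (hL : Gen L x) [FiniteDimensional L K] {w : Module.Basis (Fin n) L K} {a : Fin n → ℕ} (hw : Birk x w a)
    {v : Module.Basis (Fin n) L K} (hv : ∀ i f, Algebra.trace L K (v i * f) = w.repr f i) {i : Fin n} {j : ℕ} (hj : j + 2 ≤ a i) (E : Place K) :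
    PoleAtMost 0 E 1 (x ^ j * v i) (dx x) := by
  have hx0 : x ≠ 0 := hL.ne_zero
  have hvi : v i ≠ 0 := v.ne_zero i
  have hxj : x ^ j ≠ 0 := pow_ne_zero _ hx0
  have h0 : x ^ j * v i ≠ 0 := mul_ne_zero hxj hvi
  by_cases hx : 0 ≤ E.ord x
  · obtain ⟨c, hc⟩ := exists_value hK hx
    have hLy : Gen L (x - algebraMap ℂ K c) := hL.sub_const c
    have hloc : LocB (x - algebraMap ℂ K c) w := (hw.aff.sub_const hL c).locB hK hLy
    have hh : ∀ f : K, RegLoc (x - algebraMap ℂ K c) f →
        RegLoc (x - algebraMap ℂ K c) ((Algebra.trace L K (x ^ j * v i * f) : L) : K) := by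
      intro f hf E' hE'
      rw [trace_pow_mul hL hv]
      have h2 : 0 ≤ E'.ord x := by
        have h3 : x = (x - algebraMap ℂ K c) + algebraMap ℂ K c := by ring
        rw [h3]
        exact nonneg_add hE'.le (const_nonneg E' c)
      exact nonneg_mul (nonneg_pow h2 j) ((hloc f).1 hf i E' hE')
    have ht := tame hK hLy hloc h0 hh hc
    rw [← dx_sub_const x c]
    apply pole_mk E hLy.ne_zero
    right
    push_cast
    linarith
  · have hx' : E.ord x < 0 := not_le.1 hx
    have hLy : Gen L x⁻¹ := hL.inv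
    obtain ⟨w', hw'⟩ := exists_locB hK hLy
    have hEy : 0 < E.ord x⁻¹ := (inv_pos_iff hx0).2 hx'
    have h0' : -(x ^ 2 * (x ^ j * v i)) ≠ 0 := neg_ne_zero.2 (mul_ne_zero (pow_ne_zero _ hx0) h0)
    have hh : ∀ f : K, RegLoc x⁻¹ f →
        RegLoc x⁻¹ ((Algebra.trace L K (-(x ^ 2 * (x ^ j * v i)) * f) : L) : K) := by
      intro f hf E' hE'
      have h1 : -(x ^ 2 * (x ^ j * v i)) * f = -(x ^ (j + 2) * v i * f) := by ring
      have h2 : ((Algebra.trace L K (-(x ^ 2 * (x ^ j * v i)) * f) : L) : K) =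
          -((x⁻¹) ^ (a i - (j + 2)) * (x ^ a i * ((w.repr f i : L) : K))) := by
        rw [h1, map_neg]
        push_cast
        rw [trace_pow_mul hL hv]
        have h3 : x ^ (j + 2) = (x⁻¹) ^ (a i - (j + 2)) * x ^ a i := by
          conv_rhs => rw [← Nat.sub_add_cancel hj, pow_add]
          rw [Nat.sub_add_cancel hj, ← mul_assoc, ← mul_pow, inv_mul_cancel₀ hx0, one_pow, one_mul]
        rw [h3, mul_assoc]
      rw [h2]
      have h4 : 0 ≤ E'.ord ((x⁻¹) ^ (a i - (j + 2)) * (x ^ a i * ((w.repr f i : L) : K))) :=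
        nonneg_mul (nonneg_pow hE'.le _) ((hw.inf f).1 hf i E' hE')
      rcases nonneg_iff.1 h4 with h5 | h5
      · rw [h5, neg_zero]
        exact nonneg_iff.2 (Or.inl rfl)
      · refine nonneg_iff.2 (Or.inr ?_)
        rw [oz_neg]
        exact h5
    have ht := tame hK hLy hw' h0' hh hEy
    rw [oz_neg, oz_mul E (pow_ne_zero _ hx0) h0, oz_pow, oz_inv] at ht
    apply pole_mk E hx0
    right
    push_cast at ht ⊢
    linarith

end Pool.Agent.H13.CV

end
end
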