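import Pool.Agent.H94.G5T.G4.C.PoC
import Pool.Agent.H94.G5T.M50
import Pool.Agent.H94.G5T.M51
import Pool.Agent.H94.G5T.M58
import Pool.Agent.H94.G5T.M77
import Pool.Agent.H94.G5T.M89

/-! The parts of this file: G4.C.GCb, G4.C.PVc, G4.C.PZ. -/

section

/-!
# G4 C GCb: a bound for the jet form on the boundary of a box without bad points holds in the box

For a good `s'` the function `z ↦ pval P a b Φ s' z (F z) • F z` is holomorphic near `closedBall z₀ r` (`pval_hol`), so bounded by `C` (`Complex.norm_le_of_forall_mem_frontier_norm_le`).  For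
arbitrary `s`, `|s - s₀| < δ`, and `z` off `Dt`: `pval_normCont` at `(s, z)` and good `s' → s` (`good_dense`).
-/

set_option autoImplicit false

open Topology Filter Metric

namespace Pool.Agent.G4.C

open Pool.Agent.H36.BP (EN fs wd)
open Pool.Agent.H14.PP (IsCone)
open Pool.Agent.H62.EF (MN pr)
open Pool.Agent.AD (Vd Chart Charts)
open Pool.Agent.TG (TMap Lat Str ms tl)
open Pool.Agent.G3.C

variable {N k : ℕ} {X : Set (EN N)} {Λ : AddSubgroup (Vd (k + 1))} {u : EN N → Vd (k + 1)} {ν a b c : Vd (k + 1)} {m : ℕ} {ρ : ℝ}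
  {Dt Bd : Set (ℂ × ℂ)} {Φ : ℝ → ℂ → MN N}

/-- the bound in the disc, for a good parameter -/
private theorem gcb_disc (D : SDat X Λ u a ν b Dt Bd Φ) (P : JForm X Λ u ν m) {s : ℝ} {z₀ : ℂ} {r C : ℝ}
    (hr : 0 < r) (hS : ∀ z ∈ closedBall z₀ r, Smo X Λ u a ν b Φ s z)
    (hC : ∀ z ∈ sphere z₀ r, ∀ x : EN N, x ≠ 0 → Φ s z = pr x → ‖pval P a b Φ s z x‖ * ‖x‖ ≤ C) :
    ∀ z ∈ closedBall z₀ r, ∃ x : EN N, x ≠ 0 ∧ Φ s z = pr x ∧ ‖pval P a b Φ s z x‖ * ‖x‖ ≤ C := by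
  obtain ⟨F, ⟨hFd, hFX, -⟩, hF⟩ := D.lift s
  have hF0 : ∀ z, F z ≠ 0 := fun z h0 => D.cone.zero_notMem (h0 ▸ hFX z)
  have hg : ∀ z ∈ closedBall z₀ r, DifferentiableAt ℂ (fun z => pval P a b Φ s z (F z) • F z) z := by
    intro z hz
    exact (pval_hol D.cone hFd hF0 hF (hS z hz) P).differentiableAt.smul (hFd z)
  have hd : DiffContOnCl ℂ (fun z => pval P a b Φ s z (F z) • F z) (ball z₀ r) := by
    refine DifferentiableOn.diffContOnCl fun z hz => ?_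
    rw [closure_ball z₀ hr.ne'] at hz
    exact (hg z hz).differentiableWithinAt
  intro z hz
  refine ⟨F z, hF0 z, hF z, ?_⟩
  have h1 := Complex.norm_le_of_forall_mem_frontier_norm_le isBounded_ball hd (C := C) (fun y hy => ?_) (z := z) (by rwa [closure_ball z₀ hr.ne'])
  · rwa [norm_smul] at h1
  · rw [frontier_ball z₀ hr.ne'] at hy
    rw [norm_smul]
    exact hC y hy (F y) (hF0 y) (hF y)

/-- the bound on the boundary of a box without bad points holds in the box -/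
theorem pval_box (D : SDat X Λ u a ν b Dt Bd Φ) (P : JForm X Λ u ν m) {s₀ : ℝ} {z₀ : ℂ} {r δ C : ℝ} (hr : 0 < r)
    (hsph : ∀ s : ℝ, |s - s₀| ≤ δ → ∀ z ∈ sphere z₀ r, ((s : ℂ), z) ∉ Dt) (hbd : ∀ s : ℝ, |s - s₀| ≤ δ → ∀ z ∈ closedBall z₀ r, ((s : ℂ), z) ∉ Bd)
    (hC : ∀ s : ℝ, |s - s₀| ≤ δ → ∀ z ∈ sphere z₀ r, ∀ x : EN N, x ≠ 0 → Φ s z = pr x → ‖pval P a b Φ s z x‖ * ‖x‖ ≤ C) :
    ∀ s : ℝ, |s - s₀| < δ → ∀ z ∈ ball z₀ r, ((s : ℂ), z) ∉ Dt → ∀ x : EN N, x ≠ 0 → Φ s z = pr x → ‖pval P a b Φ s z x‖ * ‖x‖ ≤ C := by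
  have hden := good_dense D hsph hbd
  intro s hs z hz hqD x hx hΦx
  have hS := D.smo s z hqD
  refine le_of_forall_pos_le_add fun ε hε => ?_
  have hev := pval_normCont D.cone hS P hx hΦx hε
  have hev2 : ∀ᶠ s' in 𝓝 s, ∀ x' : EN N, x' ≠ 0 → Φ s' z = pr x' → |‖pval P a b Φ s' z x'‖ * ‖x'‖ - ‖pval P a b Φ s z x‖ * ‖x‖| < ε := by
    have hc : Tendsto (fun s' : ℝ => ((s', z) : ℝ × ℂ)) (𝓝 s) (𝓝 (s, z)) := by
      have : Continuous fun s' : ℝ => ((s', z) : ℝ × ℂ) := by fun_prop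
      exact this.tendsto s
    exact hc.eventually hev
  obtain ⟨η, hη, hball⟩ := Metric.eventually_nhds_iff_ball.1 hev2
  obtain ⟨s', hs'1, hs'2, hs'3⟩ := hden s hs η hη
  obtain ⟨x', hx'0, hx', hx'C⟩ := gcb_disc D P hr hs'3 (fun z hz => hC s' hs'2.le z hz) z (ball_subset_closedBall hz)
  have h1 := abs_lt.1 (hball s' (by simpa [Real.dist_eq] using hs'1) x' hx'0 hx')
  linarith [h1.1]

end Pool.Agent.G4.C

end

section

/-!
# G4 C PVc: the bound for the jet form on the sheets, off the bad points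

`pT_loc0`: near a point off `D` by continuity (`BoxT.pT_norm`).  `pT_loc`: near a point of `D` which is not bad by `pval_box`.  `pT_bound`: compactness of `T` modulo `Λ ∩ E`.
-/

set_option autoImplicit false

open Topology Filter Metric

namespace Pool.Agent.G4.C

open Pool.Agent.H36.BP (EN fs wd)
open Pool.Agent.H14.PP (IsCone)
open Pool.Agent.H62.EF (MN pr)
open Pool.Agent.AD (Vd Chart Charts)
open Pool.Agent.TG (TMap Lat Str ms tl Gd gd_mono gd_notMem gd_closed gd_near)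
open Pool.Agent.G3.A (Tb)
open Pool.Agent.G3.C

variable {N k : ℕ} {X : Set (EN N)} {Λ : AddSubgroup (Vd (k + 1))} {u : EN N → Vd (k + 1)} {ν a b c : Vd (k + 1)} {m : ℕ} {ρ : ℝ} {E : Submodule ℝ (Vd (k + 1))}
  {D Bad T : Set (Vd (k + 1))} {SS : Set (Vd (k + 1) → MN N)} {φ : Vd (k + 1) → MN N} {χ : Chart (k + 2) X} {w : ℕ → Vd (k + 1) → ℂ} {y₀ : Vd (k + 1)} {r : ℝ}

/-- the bound `C` for the jet form at the point `y` -/
def BdAt (P : JForm X Λ u ν m) (a : Vd (k + 1)) (φ : Vd (k + 1) → MN N) (C : ℝ) (y : Vd (k + 1)) : Prop := ∀ x : EN N, x ≠ 0 → φ y = pr x → ‖pT P a φ y x‖ * ‖x‖ ≤ C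

theorem BdAt.mono {P : JForm X Λ u ν m} {C C' : ℝ} {y : Vd (k + 1)} (h : BdAt P a φ C y) (hC : C ≤ C') : BdAt P a φ C' y := fun x hx hφ => (h x hx hφ).trans hC

theorem TDat.add_mem (S : TDat X Λ u a ν b E D Bad SS) {y v : Vd (k + 1)} (hy : y ∈ Tb b E) (hv : v ∈ E) : y + v ∈ Tb b E := by
  show y + v - b ∈ E
  have e : y + v - b = (y - b) + v := by abel
  rw [e]
  exact E.add_mem hy hv

theorem tb_closed (b : Vd (k + 1)) (E : Submodule ℝ (Vd (k + 1))) : IsClosed (Tb b E) := by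
  have h1 : IsClosed (E : Set (Vd (k + 1))) := E.closed_of_finiteDimensional
  exact h1.preimage (continuous_id.sub continuous_const)

private theorem pT_loc0 (S : TDat X Λ u a ν b E D Bad SS) (P : JForm X Λ u ν m) (hφ : φ ∈ SS) (hy₀ : y₀ ∈ Tb b E) (hD : y₀ ∉ D) :
    ∃ C : ℝ, ∀ᶠ y in 𝓝[Tb b E] y₀, BdAt P a φ C y := by
  obtain ⟨χ, c, ρ, w, r, B⟩ := S.smo φ hφ y₀ hy₀ hD
  have hT : Tb b E ∩ ball y₀ r ∈ 𝓝[Tb b E] y₀ := inter_mem self_mem_nhdsWithin (mem_nhdsWithin_of_mem_nhds (ball_mem_nhds y₀ B.pos))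
  have hy₀' : y₀ ∈ Tb b E ∩ ball y₀ r := ⟨hy₀, mem_ball_self B.pos⟩
  have hw : ∀ j, ContinuousWithinAt (w j) (Tb b E) y₀ := fun j => by
    have h1 := (B.cont j) y₀ hy₀'
    rwa [ContinuousWithinAt, nhdsWithin_inter_of_mem' (mem_nhdsWithin_of_mem_nhds (ball_mem_nhds y₀ B.pos))] at h1
  have hq : cy c ρ (w 0 y₀) y₀ ∈ ball (0 : Vd (k + 2)) 2 := B.mem y₀ hy₀'
  have hv : ContinuousWithinAt (fun y => ((y, fun j : Fin (m + 1) => w j y) : Vd (k + 1) × (Fin (m + 1) → ℂ))) (Tb b E) y₀ :=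
    continuousWithinAt_id.prodMk (continuousWithinAt_pi.2 fun j => hw j)
  have hQ : ContinuousWithinAt (fun y => QY P χ c ρ (y, fun j : Fin (m + 1) => w j y)) (Tb b E) y₀ := by
    have h0a : AnalyticAt ℂ (QY P χ c ρ) (y₀, fun j : Fin (m + 1) => w j y₀) := QY_analytic P B.str hq
    have h1 : ContinuousAt (QY P χ c ρ) (y₀, fun j : Fin (m + 1) => w j y₀) := h0a.continuousAt
    exact ContinuousAt.comp_continuousWithinAt (g := QY P χ c ρ) (f := fun y => ((y, fun j : Fin (m + 1) => w j y) : Vd (k + 1) × (Fin (m + 1) → ℂ))) h1 hv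
  have hcy : ContinuousAt (fun p : ℂ × Vd (k + 1) => cy c ρ p.1 p.2) (w 0 y₀, y₀) := (cy_analytic analyticAt_fst analyticAt_snd).continuousAt
  have hcy' : ContinuousWithinAt (fun y => cy c ρ (w 0 y) y) (Tb b E) y₀ :=
    ContinuousAt.comp_continuousWithinAt (g := fun p : ℂ × Vd (k + 1) => cy c ρ p.1 p.2) (f := fun y => ((w 0 y, y) : ℂ × Vd (k + 1))) hcy ((hw 0).prodMk continuousWithinAt_id)
  have hσ : ContinuousWithinAt (fun y => χ.σ (cy c ρ (w 0 y) y)) (Tb b E) y₀ :=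
    ContinuousAt.comp_continuousWithinAt (g := χ.σ) (f := fun y => cy c ρ (w 0 y) y) (χ.σ_an _ hq).continuousAt hcy'
  have hG : ContinuousWithinAt (fun y => ‖QY P χ c ρ (y, fun j : Fin (m + 1) => w j y)‖ * ‖χ.σ (cy c ρ (w 0 y) y)‖) (Tb b E) y₀ := hQ.norm.mul hσ.norm
  obtain ⟨C, hC⟩ := exists_gt (‖QY P χ c ρ (y₀, fun j : Fin (m + 1) => w j y₀)‖ * ‖χ.σ (cy c ρ (w 0 y₀) y₀)‖)
  refine ⟨C, ?_⟩
  filter_upwards [hT, hG.eventually_lt_const hC] with y hy hyC x hx hφx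
  rw [B.pT_norm S.cone P (fun s z => S.tb hy.1 s z) hy.2 hx hφx]
  exact hyC.le

theorem pT_loc (S : TDat X Λ u a ν b E D Bad SS) (P : JForm X Λ u ν m) (hφ : φ ∈ SS) (hy₀ : y₀ ∈ Tb b E) (hB : y₀ ∉ Bad) :
    ∃ C : ℝ, ∀ᶠ y in 𝓝[Tb b E] y₀, y ∉ D → BdAt P a φ C y := by
  -- the radius
  have hc : Continuous fun p : Vd (k + 1) × ℂ => p.1 + p.2 • a := by fun_prop
  obtain ⟨r, hr, hrD, hrB⟩ : ∃ r : ℝ, 0 < r ∧ (∀ z ∈ sphere (0 : ℂ) r, y₀ + z • a ∉ D) ∧ ∀ z ∈ closedBall (0 : ℂ) r, y₀ + z • a ∉ Bad := by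
    obtain ⟨ε₁, hε₁, h1⟩ := Metric.eventually_nhds_iff_ball.1 (eventually_nhdsWithin_iff.1 (S.iso y₀ 0))
    have h2 : ∀ᶠ z in 𝓝 (0 : ℂ), y₀ + z • a ∉ Bad := by
      have hc0 : Continuous fun z : ℂ => y₀ + z • a := by fun_prop
      have h3 : (fun z : ℂ => y₀ + z • a) 0 ∈ Badᶜ := by
        show y₀ + (0 : ℂ) • a ∉ Bad
        rwa [zero_smul, add_zero]
      exact hc0.continuousAt.eventually (S.bad_closed.isOpen_compl.mem_nhds h3)
    obtain ⟨ε₂, hε₂, h2⟩ := Metric.eventually_nhds_iff_ball.1 h2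
    have hm : 0 < min ε₁ ε₂ := lt_min hε₁ hε₂
    refine ⟨min ε₁ ε₂ / 2, by positivity, fun z hz => ?_, fun z hz => ?_⟩
    · rw [mem_sphere] at hz
      refine h1 z (mem_ball.2 (by rw [hz]; linarith [min_le_left ε₁ ε₂])) ?_
      rintro rfl
      rw [dist_self] at hz
      linarith
    · rw [mem_closedBall] at hz
      exact h2 z (mem_ball.2 (by linarith [min_le_right ε₁ ε₂]))
  -- the bound on the sphere
  obtain ⟨C, hC⟩ : ∃ C : ℝ, ∀ᶠ y in 𝓝[Tb b E] y₀, ∀ z ∈ sphere (0 : ℂ) r, y + z • a ∉ D ∧ BdAt P a φ C (y + z • a) := by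
    refine (isCompact_sphere (0 : ℂ) r).induction_on (p := fun Z : Set ℂ => ∃ C : ℝ, ∀ᶠ y in 𝓝[Tb b E] y₀, ∀ z ∈ Z, y + z • a ∉ D ∧ BdAt P a φ C (y + z • a)) ?_ ?_ ?_ ?_
    · exact ⟨0, Eventually.of_forall fun y z hz => absurd hz (Set.notMem_empty z)⟩
    · rintro Z Z' hZ ⟨C, hC⟩
      exact ⟨C, hC.mono fun y hy z hz => hy z (hZ hz)⟩
    · rintro Z Z' ⟨C, hC⟩ ⟨C', hC'⟩
      refine ⟨max C C', ?_⟩
      filter_upwards [hC, hC'] with y h1 h2 z hz
      rcases hz with hz | hz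
      · exact ⟨(h1 z hz).1, (h1 z hz).2.mono (le_max_left _ _)⟩
      · exact ⟨(h2 z hz).1, (h2 z hz).2.mono (le_max_right _ _)⟩
    · intro z hz
      obtain ⟨C, hC⟩ := pT_loc0 S P hφ (S.add_mem hy₀ (S.a_mem z)) (hrD z hz)
      have hD' : ∀ᶠ y in 𝓝[Tb b E] (y₀ + z • a), y ∉ D := mem_nhdsWithin_of_mem_nhds (S.D_closed.isOpen_compl.mem_nhds (hrD z hz))
      have ht : Tendsto (fun p : Vd (k + 1) × ℂ => p.1 + p.2 • a) (𝓝[Tb b E] y₀ ×ˢ 𝓝 z) (𝓝[Tb b E] (y₀ + z • a)) := by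
        refine tendsto_nhdsWithin_iff.2 ⟨?_, ?_⟩
        · have h1 := hc.tendsto (y₀, z)
          rw [nhds_prod_eq] at h1
          exact h1.mono_left (Filter.prod_mono nhdsWithin_le_nhds le_rfl)
        · have h2 : ∀ᶠ p : Vd (k + 1) × ℂ in 𝓝[Tb b E] y₀ ×ˢ 𝓝 z, p.1 ∈ Tb b E := tendsto_fst.eventually self_mem_nhdsWithin
          exact h2.mono fun p hp => S.add_mem hp (S.a_mem p.2)
      obtain ⟨p1, hp1, p2, hp2, hp⟩ := Filter.eventually_prod_iff.1 (ht.eventually (hD'.and hC))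
      refine ⟨{z' | p2 z'}, mem_nhdsWithin_of_mem_nhds hp2, C, ?_⟩
      filter_upwards [hp1] with y hy z' hz'
      exact hp hy hz'
  have hB' : ∀ᶠ y in 𝓝 y₀, ∀ z ∈ closedBall (0 : ℂ) r, y + z • a ∉ Bad := by
    refine (isCompact_closedBall (0 : ℂ) r).eventually_forall_of_forall_eventually fun z hz => ?_
    have h1 : (fun p : Vd (k + 1) × ℂ => p.1 + p.2 • a) (y₀, z) ∈ Badᶜ := hrB z hz
    exact hc.continuousAt.eventually (S.bad_closed.isOpen_compl.mem_nhds h1)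
  obtain ⟨η, hη, hηP⟩ := Metric.mem_nhdsWithin_iff.1 (hC.and (mem_nhdsWithin_of_mem_nhds hB'))
  have hηP : ∀ y ∈ Tb b E, ‖y - y₀‖ < η → (∀ z ∈ sphere (0 : ℂ) r, y + z • a ∉ D ∧ BdAt P a φ C (y + z • a)) ∧ ∀ z ∈ closedBall (0 : ℂ) r, y + z • a ∉ Bad :=
    fun y hy hd => hηP ⟨by rw [mem_ball, dist_eq_norm]; exact hd, hy⟩
  refine ⟨C, ?_⟩
  have hn : 0 < ‖ν‖ + 1 := by positivity
  filter_upwards [self_mem_nhdsWithin, mem_nhdsWithin_of_mem_nhds (ball_mem_nhds y₀ (half_pos hη))] with y hyT hy hyD x hx hφx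
  rw [mem_ball, dist_eq_norm] at hy
  have hsl : ∀ s : ℝ, |s| ≤ η / (2 * (‖ν‖ + 1)) → ‖y + (s : ℂ) • ν - y₀‖ < η := by
    intro s hs
    have h1 : ‖(s : ℂ) • ν‖ ≤ η / 2 := by
      rw [norm_smul, Complex.norm_real, Real.norm_eq_abs]
      calc |s| * ‖ν‖ ≤ η / (2 * (‖ν‖ + 1)) * (‖ν‖ + 1) := by gcongr; linarith
        _ = η / 2 := by field_simp
    have h2 : y + (s : ℂ) • ν - y₀ = (y - y₀) + (s : ℂ) • ν := by abel
    rw [h2]
    exact (norm_add_le _ _).trans_lt (by linarith)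
  have hslT : ∀ s : ℝ, y + (s : ℂ) • ν ∈ Tb b E := fun s => by
    have h1 := S.tb hyT s 0
    rwa [zero_smul, add_zero] at h1
  have h0 : |(0 : ℝ) - 0| < η / (2 * (‖ν‖ + 1)) := by
    rw [sub_zero, abs_zero]
    positivity
  have e0 : y + ((0 : ℝ) : ℂ) • ν + (0 : ℂ) • a = y := by simp
  refine pval_box (S.sdat hφ hyT) P (s₀ := 0) (z₀ := 0) hr (δ := η / (2 * (‖ν‖ + 1))) (C := C) ?_ ?_ ?_ 0 h0 0 (mem_ball_self hr) ?_ x hx ?_
  · intro s hs z hz
    rw [sub_zero] at hs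
    exact ((hηP _ (hslT s) (hsl s hs)).1 z hz).1
  · intro s hs z hz
    rw [sub_zero] at hs
    exact (hηP _ (hslT s) (hsl s hs)).2 z hz
  · intro s hs z hz x' hx' hφx'
    rw [sub_zero] at hs
    obtain ⟨h1, h2⟩ := (hηP _ (hslT s) (hsl s hs)).1 z hz
    rw [pval_pT S.cone P ((S.sdat hφ hyT).smo s z h1) (S.smoS hφ (S.tb hyT s z) h1) hx' hφx']
    exact h2 x' hx' hφx'
  · show ¬ (y + ((0 : ℝ) : ℂ) • ν + (0 : ℂ) • a ∈ D)
    rwa [e0]
  · show φ (y + ((0 : ℝ) : ℂ) • ν + (0 : ℂ) • a) = pr x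
    rwa [e0]

theorem gdB_add (S : TDat X Λ u a ν b E D Bad SS) {η : ℝ} {y l : Vd (k + 1)} (hl : l ∈ Λ) (h : y ∈ Gd Bad η) : y + l ∈ Gd Bad η := by
  intro β hβ
  have h1 := h _ (S.bad_inv β hβ (-l) (Λ.neg_mem hl))
  have h2 : y - (β + -l) = y + l - β := by abel
  rwa [h2] at h1

theorem pT_bound (S : TDat X Λ u a ν b E D Bad SS) (P : JForm X Λ u ν m) {η : ℝ} (hη : 0 < η) :
    ∃ C : ℝ, ∀ φ ∈ SS, ∀ y ∈ Tb b E, y ∈ Gd Bad η → y ∉ D → BdAt P a φ C y := by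
  obtain ⟨R, hR, hRl⟩ := S.cpt
  obtain ⟨K, hKd⟩ : ∃ K : Set (Vd (k + 1)), K = (Tb b E ∩ Gd Bad η) ∩ closedBall b R := ⟨_, rfl⟩
  have hK : IsCompact K := by
    rw [hKd]
    exact (isCompact_closedBall b R).inter_left ((tb_closed b E).inter (gd_closed Bad η))
  have h1 : ∀ φ ∈ SS, ∃ C : ℝ, ∀ y ∈ K, y ∉ D → BdAt P a φ C y := by
    intro φ hφ
    refine hK.induction_on (p := fun Z => ∃ C : ℝ, ∀ y ∈ Z, y ∉ D → BdAt P a φ C y) ⟨0, fun y hy => absurd hy (Set.notMem_empty y)⟩ ?_ ?_ ?_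
    · rintro Z Z' hZ ⟨C, h⟩
      exact ⟨C, fun y hy => h y (hZ hy)⟩
    · rintro Z Z' ⟨C, h⟩ ⟨C', h'⟩
      refine ⟨max C C', fun y hy hyD => ?_⟩
      rcases hy with hy | hy
      · exact (h y hy hyD).mono (le_max_left _ _)
      · exact (h' y hy hyD).mono (le_max_right _ _)
    · intro y hy
      rw [hKd] at hy
      obtain ⟨C, hC⟩ := pT_loc S P hφ hy.1.1 (gd_notMem hη hy.1.2)
      refine ⟨{y | y ∉ D → BdAt P a φ C y}, ?_, C, fun y hy => hy⟩
      refine nhdsWithin_mono y ?_ hC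
      rw [hKd]
      exact fun y hy => hy.1.1
  choose! C hC using h1
  obtain ⟨M, hM⟩ : ∃ M : ℝ, ∀ φ ∈ SS, C φ ≤ M := by
    obtain ⟨M, hM⟩ := (S.fin.image C).bddAbove
    exact ⟨M, fun φ hφ => hM ⟨φ, hφ, rfl⟩⟩
  refine ⟨M, fun φ hφ y hy hyB hyD => ?_⟩
  obtain ⟨l, hl, hlE, hlR⟩ := hRl (y - b) hy
  obtain ⟨φ', hφ', hφ'e⟩ := S.tr φ hφ l hl hlE
  have hyl : y - l ∈ Tb b E := by
    have h2 := S.add_mem hy (E.neg_mem hlE)
    rwa [← sub_eq_add_neg] at h2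
  have hylD : y - l ∉ D := fun h2 => hyD (by
    have h3 := S.D_inv _ h2 l hl
    rwa [sub_add_cancel] at h3)
  have hylK : y - l ∈ K := by
    rw [hKd]
    refine ⟨⟨hyl, ?_⟩, ?_⟩
    · have h2 := gdB_add S (Λ.neg_mem hl) hyB
      rwa [← sub_eq_add_neg] at h2
    · rw [mem_closedBall, dist_eq_norm]
      have h3 : y - l - b = y - b - l := by abel
      rw [h3]
      exact hlR
  have h2 : BdAt P a φ' M (y - l) := (hC φ' hφ' _ hylK hylD).mono (hM φ' hφ')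
  intro x hx hφx
  have e : y - l + l = y := sub_add_cancel y l
  have h3 : φ' (y - l) = pr x := by rw [hφ'e _ hyl, e, hφx]
  have h4 := h2 x hx h3
  have h5 := pT_add S.cone P (y := y - l) (l := l) hl (φ := φ) (φ' := φ') (fun s z => hφ'e _ (S.tb hyl s z)) (by rw [e]; exact S.smoS hφ hy hyD) hx (by rw [e]; exact hφx)
  rw [e] at h5
  rwa [h5] at h4

end Pool.Agent.G4.C

end

section

/-!
# G4 C PZ: the jet form vanishes on the sheets

`φ ∈ SS`, `y ∈ T`, `F ∈ Gc X Λ u a y` the lift of `φ (y + z a)` (`S.line`), `f z = pT P a φ (y + z a) (F z) = pval P a y (sl φ a ν y) 0 z (F z)` (`pval_pT`), analytic where `y + z a ∉ D` (`pval_hol`, `(S.sdat hφ hy).smo`), locally bounded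
where `y + z a ∉ Bad` (`pT_loc`); `removable_discrete` (as in `G3/C/PZ`): `g`, holomorphic on `U = {z | y + z a ∉ Bad}`, `g = f` off `D`.  `E₀ = {z | y + z a ∈ Bad}`: closed, finite on discs (`S.hits`), `ncard` bounds from `S.few`
(base point `y + z a`, `Finset` of the translates).  `Mh` = bound for `(E₀ ∩ closedBall z 2).ncard`.
Constants: `ρ = 1/2`; `S.circ ha (η := 1/2)` gives `δ₁` (`‖a‖ = 1`: points `w` with `y + w a ∈ Gd D δ₁` have distance `≥ δ₁` from `E₀`); `δ = min (1/4) (δ₁ / 2)`; `r₀ = δ ^ (Mh + 1)`; `S.circ ha (η := r₀ / 4)` gives `δ₀`; `pT_bound` (`η := δ₀`,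
`Gd D δ₀ ⊆ Gd Bad δ₀`) gives `C₀`; `S.gr (r₀ / 4)` gives `c`, `q = exp (-c)`; `pole` gives `M'`; `C₁ = max C₀ ((4 / r₀) ^ (M' * Mh))`.  Apply `U.ustar` to `κ z = if z ∈ E₀ then 0 else ‖g z‖ * ‖F z‖`:
* `hb`: circle of radius `< r₀ / 4` around `z` over `Gd D δ₀`, no point of `E₀` inside: maximum principle for `g • F`, `BdAt` on the circle.
* `hs`: `h = g * g₁` (`g₁` the function of `hs`) holomorphic on a neighbourhood of `closedBall z (r₀ / 4)`; if `h z ≠ 0`: `log ‖h z‖ ≤ circleAverage (log ‖h‖) z (r₀ / 4)` (see `G3/C/LemmaU`, `ZCount`, `hp_zero`), and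
  `log ‖h‖ ≤ log S - log ‖F‖` on the circle, so `log ‖h z‖ ≤ log S - log ‖F z‖ - c`.
* `hm`: `H w = (∏ e ∈ E₀ ∩ ball z 1, (w - e) ^ M') • (g w * g₁ w) • F w` is bounded near the `e` (`pole`), so it extends holomorphically to `ball z 1` (removable singularities); circle of radius `r < 1/2` around `z` over `Gd D δ₁`, maximum
  principle; the factors are `≥ r₀ / 2` at `z`, `≤ 2` on the circle, at most `Mh` of them.
So `κ = 0` at distance `≥ r₀` from `E₀`, in particular near the points of the circles over `Gd D δ₁`; `U` is the complement of a countable closed set, so connected: `g = 0`, `f = 0` off `D`; `z = 0` and `pval_smul` (`x = α • F 0`).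
-/

set_option autoImplicit false

open Topology Filter Metric

namespace Pool.Agent.G4.C

open Pool.Agent.H36.BP (EN fs wd)
open Pool.Agent.H14.PP (IsCone)
open Pool.Agent.H62.EF (MN pr)
open Pool.Agent.AD (Vd Chart Charts)
open Pool.Agent.TG (TMap Lat Str ms tl Gd)
open Pool.Agent.G3.A (Tb Hc NL)
open Pool.Agent.G3.C

variable {N k : ℕ} {X : Set (EN N)} {Λ : AddSubgroup (Vd (k + 1))} {u : EN N → Vd (k + 1)} {ν a b : Vd (k + 1)} {m : ℕ} {E : Submodule ℝ (Vd (k + 1))}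
  {D Bad : Set (Vd (k + 1))} {SS : Set (Vd (k + 1) → MN N)} {φ : Vd (k + 1) → MN N}

/-- the maximum principle on a disc -/
private theorem pz_max {F : ℂ → EN N} (hF : Differentiable ℂ F) {g : ℂ → ℂ} {z : ℂ} {r C : ℝ} (hr : 0 < r) (hg : ∀ w ∈ closedBall z r, DifferentiableAt ℂ g w)
    (hC : ∀ w, dist w z = r → ‖g w‖ * ‖F w‖ ≤ C) : ‖g z‖ * ‖F z‖ ≤ C := by
  have hd1 : DiffContOnCl ℂ (fun w => g w • F w) (ball z r) := by
    refine ⟨fun w hw => ((hg w (ball_subset_closedBall hw)).smul (hF w)).differentiableWithinAt, ?_⟩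
    rw [closure_ball _ hr.ne']
    exact fun w hw => ((hg w hw).smul (hF w)).continuousAt.continuousWithinAt
  have hfr : ∀ w ∈ frontier (ball z r), ‖g w • F w‖ ≤ C := by
    intro w hw
    rw [frontier_ball _ hr.ne', mem_sphere] at hw
    rw [norm_smul]
    exact hC w hw
  have h5 := Complex.norm_le_of_forall_mem_frontier_norm_le isBounded_ball hd1 hfr (z := z) (by
    rw [closure_ball _ hr.ne']
    exact mem_closedBall_self hr.le)
  rwa [norm_smul] at h5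

/-- the strict inequality -/
private theorem pz_hs {F : ℂ → EN N} (hF : Differentiable ℂ F) (hF0 : ∀ z, F z ≠ 0) {h : ℂ → ℂ} {z : ℂ} {r c S : ℝ} (hr : 0 < r) (hh : AnalyticOnNhd ℂ h (closedBall z r))
    (hgr : Real.log ‖F z‖ + c ≤ Real.circleAverage (fun w => Real.log ‖F w‖) z r) (hS : ∀ w, dist w z = r → ‖h w‖ * ‖F w‖ ≤ S) :
    ‖h z‖ * ‖F z‖ ≤ Real.exp (-c) * S := by
  have hS0 : 0 ≤ S := by
    have h1 := hS (z + (r : ℂ)) (by rw [dist_eq_norm, add_sub_cancel_left, Complex.norm_real, Real.norm_eq_abs, abs_of_pos hr])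
    exact le_trans (by positivity) h1
  have hFp : ∀ w, 0 < ‖F w‖ := fun w => norm_pos_iff.2 (hF0 w)
  by_cases h0 : h z = 0
  · rw [h0, norm_zero, zero_mul]
    positivity
  have hcont : Continuous fun w => Real.log ‖F w‖ := hF.continuous.norm.log fun w => (hFp w).ne'
  have key : ∀ ε : ℝ, 0 < ε → ‖h z‖ * ‖F z‖ ≤ Real.exp (-c) * (S + ε) := by
    intro ε hε
    have hp : 0 < S + ε := by linarith
    have h1 := log_norm_le_avg (P := h) (c := z) (r := r) hr hh h0 (g := fun w => Real.log (S + ε) - Real.log ‖F w‖) (continuous_const.sub hcont).continuousOn (by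
      intro w hw
      rw [Real.exp_sub, Real.exp_log hp, Real.exp_log (hFp w), le_div_iff₀ (hFp w)]
      have := hS w (mem_sphere.1 hw)
      linarith)
    have h2 : Real.circleAverage (fun w => Real.log (S + ε) - Real.log ‖F w‖) z r = Real.log (S + ε) - Real.circleAverage (fun w => Real.log ‖F w‖) z r := by
      have h3 := Real.circleAverage_fun_sub (circleIntegrable_const (Real.log (S + ε)) z r) (hcont.continuousOn.circleIntegrable hr.le (f := fun w => Real.log ‖F w‖))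
      rw [h3, Real.circleAverage_const]
    rw [h2] at h1
    have h3 : Real.log (‖h z‖ * ‖F z‖) ≤ Real.log (Real.exp (-c) * (S + ε)) := by
      rw [Real.log_mul (norm_ne_zero_iff.2 h0) (hFp z).ne', Real.log_mul (Real.exp_ne_zero _) hp.ne', Real.log_exp]
      linarith
    exact (Real.log_le_log_iff (mul_pos (norm_pos_iff.2 h0) (hFp z)) (mul_pos (Real.exp_pos _) hp)).1 h3
  refine le_of_forall_pos_le_add fun ε hε => ?_
  have h1 := key (ε / Real.exp (-c)) (div_pos hε (Real.exp_pos _))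
  rw [mul_add, mul_div_cancel₀ _ (Real.exp_ne_zero _)] at h1
  exact h1

/-- the inequality near the exceptional points -/
private theorem pz_hm {E : Set ℂ} (hE : IsClosed E) (hiso : ∀ w : ℂ, ∀ᶠ z in 𝓝[≠] w, z ∉ E) (hfin : ∀ (z : ℂ) (R : ℝ), (E ∩ closedBall z R).Finite) {M : ℕ}
    (hloc : ∀ z : ℂ, (E ∩ closedBall z 2).ncard ≤ M) {F : ℂ → EN N} (hF : Differentiable ℂ F) {g g₁ : ℂ → ℂ} (hg : DifferentiableOn ℂ g Eᶜ) {z : ℂ} {r₀ r S : ℝ}
    (hr₀ : 0 < r₀) (hr₁ : r₀ ≤ 4) (hr : 0 < r) (hr' : r < 1 / 2) (hz : ∀ e ∈ E, r₀ / 2 ≤ dist z e) (hg₁ : DifferentiableOn ℂ g₁ (ball z 1))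
    (hcirc : ∀ w, dist w z = r → w ∉ E ∧ ‖g w‖ * ‖F w‖ * ‖g₁ w‖ ≤ S) {M' : ℕ} (hp : ∀ e ∈ E, ∃ C : ℝ, ∀ᶠ z in 𝓝[≠] e, ‖g z‖ * ‖z - e‖ ^ M' ≤ C) :
    ‖g z‖ * ‖F z‖ * ‖g₁ z‖ ≤ (4 / r₀) ^ (M' * M) * S := by
  classical
  have hS0 : 0 ≤ S := by
    have h1 := (hcirc (z + (r : ℂ)) (by rw [dist_eq_norm, add_sub_cancel_left, Complex.norm_real, Real.norm_eq_abs, abs_of_pos hr])).2
    exact le_trans (by positivity) h1
  have hgan : ∀ w ∉ E, DifferentiableAt ℂ g w := fun w hw => (hg w hw).differentiableAt (hE.isOpen_compl.mem_nhds hw)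
  obtain ⟨A, hA⟩ : ∃ A : Finset ℂ, ∀ e, e ∈ A ↔ e ∈ E ∧ dist e z ≤ 1 := by
    refine ⟨(hfin z 1).toFinset, fun e => ?_⟩
    rw [Set.Finite.mem_toFinset, Set.mem_inter_iff, mem_closedBall]
  have hcard : A.card ≤ M := by
    have h1 : (A : Set ℂ) ⊆ E ∩ closedBall z 2 := by
      intro e he
      rw [Finset.mem_coe, hA] at he
      exact ⟨he.1, by rw [mem_closedBall]; linarith only [hr, hr', he, he.2]⟩
    have h2 := Set.ncard_le_ncard h1 (hfin z 2)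
    rw [Set.ncard_coe_finset] at h2
    exact h2.trans (hloc z)
  obtain ⟨G, hGd⟩ : ∃ G : ℂ → ℂ, G = fun w => (∏ e ∈ A, (w - e) ^ M') * g w := ⟨_, rfl⟩
  have hGv : ∀ w, G w = (∏ e ∈ A, (w - e) ^ M') * g w := fun w => by rw [hGd]
  have hprd : ∀ B : Finset ℂ, Differentiable ℂ fun w : ℂ => ∏ e ∈ B, (w - e) ^ M' := fun B => by fun_prop
  have hGdiff : ∀ w ∉ E, DifferentiableAt ℂ G w := fun w hw => by
    rw [hGd]
    exact (hprd A w).mul (hgan w hw)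
  have hGan : ∀ w ∉ E, AnalyticAt ℂ G w := fun w hw => by
    have h1 : DifferentiableOn ℂ G Eᶜ := fun w' hw' => (hGdiff w' hw').differentiableWithinAt
    exact h1.analyticAt (hE.isOpen_compl.mem_nhds hw)
  obtain ⟨G', hG'd, hG'v⟩ := removable_discrete (U := ball z 1) (S := E) isOpen_ball (fun w _ => hiso w) (f := G) (fun w _ hw => hGan w hw) (by
    intro w hw
    by_cases hwE : w ∈ E
    · obtain ⟨C, hC⟩ := hp w hwE
      have hwA : w ∈ A := (hA w).2 ⟨hwE, (mem_ball.1 hw).le⟩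
      obtain ⟨B, hB⟩ := exists_gt ‖∏ e ∈ A.erase w, (w - e) ^ M'‖
      have h1 : ∀ᶠ z' in 𝓝 w, ‖∏ e ∈ A.erase w, (z' - e) ^ M'‖ < B := ((hprd (A.erase w)).continuous.norm.continuousAt (x := w)).eventually_lt_const hB
      refine ⟨B * C, ?_⟩
      filter_upwards [hC, h1.filter_mono nhdsWithin_le_nhds] with z' h2 h3
      rw [hGv, ← Finset.mul_prod_erase A _ hwA, norm_mul, norm_mul, norm_pow]
      have h4 : 0 ≤ ‖g z'‖ * ‖z' - w‖ ^ M' := by positivity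
      calc ‖z' - w‖ ^ M' * ‖∏ e ∈ A.erase w, (z' - e) ^ M'‖ * ‖g z'‖ = ‖∏ e ∈ A.erase w, (z' - e) ^ M'‖ * (‖g z'‖ * ‖z' - w‖ ^ M') := by ring
        _ ≤ B * C := mul_le_mul h3.le h2 h4 ((norm_nonneg _).trans h3.le)
    · obtain ⟨B, hB⟩ := exists_gt ‖G w‖
      refine ⟨B, ?_⟩
      exact (((hGdiff w hwE).continuousAt.norm.eventually_lt_const hB).filter_mono nhdsWithin_le_nhds).mono fun z' h => h.le)
  have hsub : closedBall z r ⊆ ball z 1 := closedBall_subset_ball (by linarith only [hr, hr'])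
  have h1 := pz_max hF (g := fun w => G' w * g₁ w) (z := z) (r := r) (C := (2 ^ M') ^ A.card * S) hr (fun w hw =>
    (hG'd.differentiableAt (isOpen_ball.mem_nhds (hsub hw))).mul (hg₁.differentiableAt (isOpen_ball.mem_nhds (hsub hw)))) (by
      intro w hw
      obtain ⟨h2, h3⟩ := hcirc w hw
      have h4 : w ∈ ball z 1 := by
        rw [mem_ball]
        linarith
      rw [hG'v w h4 h2, hGv, norm_mul, norm_mul, norm_prod]
      have h5 : ∏ e ∈ A, ‖(w - e) ^ M'‖ ≤ (2 ^ M') ^ A.card := by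
        rw [← Finset.prod_const]
        refine Finset.prod_le_prod (fun e _ => norm_nonneg _) fun e he => ?_
        rw [norm_pow]
        refine pow_le_pow_left₀ (norm_nonneg _) ?_ _
        rw [← dist_eq_norm]
        have h6 := ((hA e).1 he).2
        have h7 := dist_triangle w z e
        rw [dist_comm z e] at h7
        linarith only [hr, hr', hw, h6, h7]
      calc (∏ e ∈ A, ‖(w - e) ^ M'‖) * ‖g w‖ * ‖g₁ w‖ * ‖F w‖ = (∏ e ∈ A, ‖(w - e) ^ M'‖) * (‖g w‖ * ‖F w‖ * ‖g₁ w‖) := by ring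
        _ ≤ (2 ^ M') ^ A.card * S := mul_le_mul h5 h3 (by positivity) (by positivity))
  have hzE : z ∉ E := fun h => by
    have h2 := hz z h
    rw [dist_self] at h2
    linarith only [hr₀, h2]
  rw [hG'v z (mem_ball_self one_pos) hzE, hGv, norm_mul, norm_mul, norm_prod] at h1
  have h5 : ((r₀ / 2) ^ M') ^ A.card ≤ ∏ e ∈ A, ‖(z - e) ^ M'‖ := by
    rw [← Finset.prod_const]
    refine Finset.prod_le_prod (fun e _ => by positivity) fun e he => ?_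
    rw [norm_pow]
    refine pow_le_pow_left₀ (by positivity) ?_ _
    rw [← dist_eq_norm]
    exact hz e ((hA e).1 he).1
  obtain ⟨κ, hκ⟩ : ∃ κ, κ = ‖g z‖ * ‖F z‖ * ‖g₁ z‖ := ⟨_, rfl⟩
  have hκ0 : 0 ≤ κ := by
    rw [hκ]
    positivity
  have h6 : ((r₀ / 2) ^ M') ^ A.card * κ ≤ (2 ^ M') ^ A.card * S := by
    refine (mul_le_mul_of_nonneg_right h5 hκ0).trans ?_
    rw [hκ]
    refine le_trans (le_of_eq ?_) h1
    ring
  rw [← hκ]
  have h7 : (2 : ℝ) = (4 / r₀) * (r₀ / 2) := by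
    field_simp
    norm_num
  have h8 : ((2 : ℝ) ^ M') ^ A.card = ((4 / r₀) ^ M') ^ A.card * ((r₀ / 2) ^ M') ^ A.card := by
    rw [← mul_pow, ← mul_pow, ← h7]
  rw [h8] at h6
  have h9 : 0 < ((r₀ / 2) ^ M') ^ A.card := by positivity
  have h10 : κ ≤ ((4 / r₀) ^ M') ^ A.card * S := by
    refine le_of_mul_le_mul_left ?_ h9
    linarith only [h6]
  refine h10.trans (mul_le_mul_of_nonneg_right ?_ hS0)
  rw [← pow_mul]
  refine pow_le_pow_right₀ ?_ (Nat.mul_le_mul_left _ hcard)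
  rw [le_div_iff₀ hr₀]
  linarith only [hr₁]

/-- the plane part -/
private theorem pz_plane {E : Set ℂ} (hE : IsClosed E) (hiso : ∀ w : ℂ, ∀ᶠ z in 𝓝[≠] w, z ∉ E) (hfin : ∀ (z : ℂ) (R : ℝ), (E ∩ closedBall z R).Finite)
    (hfew : ∀ ε : ℝ, 0 < ε → ∃ C : ℝ, ∀ (z : ℂ) (R : ℝ), 0 ≤ R → ((E ∩ closedBall z R).ncard : ℝ) ≤ ε * R ^ 2 + C)
    {F : ℂ → EN N} (hF : Differentiable ℂ F) (hF0 : ∀ z, F z ≠ 0)
    (hgr : ∀ R₀ : ℝ, 0 < R₀ → ∃ c : ℝ, 0 < c ∧ ∀ z, Real.log ‖F z‖ + c ≤ Real.circleAverage (fun w => Real.log ‖F w‖) z R₀)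
    {g : ℂ → ℂ} (hg : DifferentiableOn ℂ g Eᶜ) {δ₁ : ℝ} (hδ₁ : 0 < δ₁) (hc : ∀ z : ℂ, ∃ r : ℝ, 0 < r ∧ r < 1 / 2 ∧ ∀ w, dist w z = r → ∀ e ∈ E, δ₁ ≤ dist w e)
    (hC : ∀ η : ℝ, 0 < η → ∃ C : ℝ, ∀ z : ℂ, ∃ r : ℝ, 0 < r ∧ r < η ∧ ∀ w, dist w z = r → w ∉ E → ‖g w‖ * ‖F w‖ ≤ C) {M' : ℕ}
    (hp : ∀ e ∈ E, ∃ C : ℝ, ∀ᶠ z in 𝓝[≠] e, ‖g z‖ * ‖z - e‖ ^ M' ≤ C) : ∀ z ∉ E, g z = 0 := by
  classical
  have hgan : ∀ w ∉ E, DifferentiableAt ℂ g w := fun w hw => (hg w hw).differentiableAt (hE.isOpen_compl.mem_nhds hw)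
  -- the number of the exceptional points in discs
  obtain ⟨M, hloc⟩ : ∃ M : ℕ, ∀ z : ℂ, (E ∩ closedBall z 2).ncard ≤ M := by
    obtain ⟨C, hC1⟩ := hfew 1 one_pos
    refine ⟨⌈1 * (2 : ℝ) ^ 2 + C⌉₊, fun z => ?_⟩
    have h1 := hC1 z 2 (by norm_num)
    exact_mod_cast h1.trans (Nat.le_ceil _)
  -- the constants
  obtain ⟨δ, hδd⟩ : ∃ δ, δ = min (1 / 4) (δ₁ / 2) := ⟨_, rfl⟩
  have hδ : 0 < δ := by
    rw [hδd]
    exact lt_min (by norm_num) (by linarith only [hδ₁])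
  have hδ4 : δ ≤ 1 / 4 := by
    rw [hδd]
    exact min_le_left _ _
  have hδ1 : 2 * δ ≤ δ₁ := by
    have : δ ≤ δ₁ / 2 := by
      rw [hδd]
      exact min_le_right _ _
    linarith only [this]
  obtain ⟨r₀, hr₀d⟩ : ∃ r₀, r₀ = δ ^ (M + 1) := ⟨_, rfl⟩
  have hr₀ : 0 < r₀ := by
    rw [hr₀d]
    positivity
  have hr₀δ : r₀ ≤ δ := by
    rw [hr₀d, pow_succ]
    have : δ ^ M ≤ 1 := pow_le_one₀ hδ.le (by linarith only [hδ, hδ4])
    nlinarith only [hδ, this]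
  have hr : r₀ / (2 * δ) * (1 / δ) ^ M ≤ 1 / 2 := by
    have h1 : δ ^ M * (1 / δ) ^ M = 1 := by
      rw [← mul_pow, mul_one_div_cancel hδ.ne', one_pow]
    refine le_of_eq ?_
    rw [hr₀d, pow_succ]
    calc δ ^ M * δ / (2 * δ) * (1 / δ) ^ M = (δ ^ M * (1 / δ) ^ M) * (δ / (2 * δ)) := by ring
      _ = 1 / 2 := by
        rw [h1]
        field_simp
  obtain ⟨C₀, hC₀⟩ := hC (r₀ / 4) (by positivity)
  obtain ⟨c, hc0, hgr0⟩ := hgr (r₀ / 4) (by positivity)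
  have hq : Real.exp (-c) < 1 := by
    rw [Real.exp_lt_one_iff]
    linarith only [hc0]
  obtain ⟨C₁, hC₁d⟩ : ∃ C₁, C₁ = max C₀ ((4 / r₀) ^ (M' * M)) := ⟨_, rfl⟩
  obtain ⟨κ, hκd⟩ : ∃ κ : ℂ → ℝ, κ = fun z => if z ∈ E then 0 else ‖g z‖ * ‖F z‖ := ⟨_, rfl⟩
  have hκv : ∀ z ∉ E, κ z = ‖g z‖ * ‖F z‖ := fun z hz => by
    rw [hκd]
    simp only
    rw [if_neg hz]
  have hκ0 : ∀ z, 0 ≤ κ z := fun z => by
    rw [hκd]
    simp only
    split_ifs
    · exact le_rfl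
    · positivity
  have hout : ∀ {z : ℂ} {t : ℝ}, 0 < t → (∀ e ∈ E, t ≤ dist z e) → z ∉ E := fun ht h hz => by
    have h1 := h _ hz
    rw [dist_self] at h1
    linarith only [ht, h1]
  have hS0 : ∀ {z : ℂ} {t S : ℝ} {f : ℂ → ℝ}, 0 < t → (∀ w, 0 ≤ f w) → (∀ w, dist w z = t → f w ≤ S) → 0 ≤ S := fun {z} {t} {S} {f} ht hf h => by
    have h1 := h (z + (t : ℂ)) (by rw [dist_eq_norm, add_sub_cancel_left, Complex.norm_real, Real.norm_eq_abs, abs_of_pos ht])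
    exact (hf _).trans h1
  have hall := Pool.Agent.G4.U.ustar hE hfin hloc (fun ε hε => by
      obtain ⟨C, hC⟩ := hfew ε hε
      exact ⟨C, fun z R hR => hC z R (by linarith)⟩) hδ hδ4 (ρ := 1 / 2) (by norm_num) le_rfl hr₀ hr hq (C₁ := C₁) hκ0
    (by
      intro z hz
      obtain ⟨r, hr1, hr2, hr3⟩ := hC₀ z
      have hball : ∀ w ∈ closedBall z r, w ∉ E := by
        intro w hw hwE
        have h1 := hz w hwE
        rw [mem_closedBall, dist_comm] at hw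
        linarith only [hr1, hr2, hw, h1]
      rw [hκv z (hball z (mem_closedBall_self hr1.le)), hC₁d]
      refine le_trans ?_ (le_max_left _ _)
      exact pz_max hF hr1 (fun w hw => hgan w (hball w hw)) fun w hw => hr3 w hw (hball w (by rw [mem_closedBall]; exact hw.le)))
    (by
      intro z hz g₁ hg₁ hg₁0 S hS
      have hball : ∀ w ∈ ball z (r₀ / 2), w ∉ E := by
        intro w hw hwE
        have h1 := hz w hwE
        rw [mem_ball, dist_comm] at hw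
        linarith
      have hsub : closedBall z (r₀ / 4) ⊆ ball z (r₀ / 2) := closedBall_subset_ball (by linarith)
      have hh : DifferentiableOn ℂ (fun w => g w * g₁ w) (ball z (r₀ / 2)) := fun w hw =>
        ((hgan w (hball w hw)).mul (hg₁.differentiableAt (isOpen_ball.mem_nhds hw))).differentiableWithinAt
      have h1 := pz_hs hF hF0 (h := fun w => g w * g₁ w) (z := z) (r := r₀ / 4) (c := c) (S := S) (by positivity)
        (fun w hw => hh.analyticAt (isOpen_ball.mem_nhds (hsub hw))) (hgr0 z) (by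
          intro w hw
          have h2 := hS w hw
          rw [hκv w (hball w (hsub (by rw [mem_closedBall]; exact hw.le)))] at h2
          rw [norm_mul]
          linarith only [h2])
      rw [hκv z (hball z (mem_ball_self (by positivity)))]
      rw [norm_mul] at h1
      linarith only [h1])
    (by
      intro z hz _ g₁ hg₁ hg₁0 S hS
      obtain ⟨r, hr1, hr2, hr3⟩ := hc z
      have hcirc : ∀ w, dist w z = r → w ∉ E ∧ ‖g w‖ * ‖F w‖ * ‖g₁ w‖ ≤ S := by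
        intro w hw
        have h1 : w ∉ E := hout hδ₁ (hr3 w hw)
        refine ⟨h1, ?_⟩
        rw [← hκv w h1]
        exact hS w (by rw [hw]; exact hr2.le) fun e he => hδ1.trans (hr3 w hw e he)
      have hSn : 0 ≤ S := hS0 (z := z) hr1 (f := fun w => ‖g w‖ * ‖F w‖ * ‖g₁ w‖) (fun w => by positivity) fun w hw => (hcirc w hw).2
      rw [hκv z (hout (show (0 : ℝ) < r₀ / 2 by positivity) hz), hC₁d]
      refine (pz_hm hE hiso hfin hloc hF hg hr₀ (by linarith only [hδ, hδ4, hr₀δ]) hr1 hr2 hz hg₁ hcirc hp).trans ?_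
      exact mul_le_mul_of_nonneg_right (le_max_right _ _) hSn)
  -- a disc without exceptional points
  obtain ⟨r, hr1, -, hr3⟩ := hc 0
  obtain ⟨z₁, hz₁⟩ : ∃ z₁ : ℂ, z₁ = (r : ℂ) := ⟨_, rfl⟩
  have hz₁d : dist z₁ 0 = r := by
    rw [hz₁, dist_zero_right, Complex.norm_real, Real.norm_eq_abs, abs_of_pos hr1]
  have hnear : ∀ w ∈ ball z₁ δ, ∀ e ∈ E, δ ≤ dist w e := by
    intro w hw e he
    have h1 := hr3 z₁ hz₁d e he
    have h2 := dist_triangle z₁ w e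
    rw [mem_ball, dist_comm] at hw
    linarith
  have hev : g =ᶠ[𝓝 z₁] 0 := by
    filter_upwards [ball_mem_nhds z₁ hδ] with w hw
    have h1 := hall w fun e he => hr₀δ.trans (hnear w hw e he)
    rw [hκv w (hout hδ (hnear w hw))] at h1
    rcases mul_eq_zero.1 h1 with h2 | h2
    · exact norm_eq_zero.1 h2
    · exact absurd (norm_eq_zero.1 h2) (hF0 w)
  have hcount : E.Countable := by
    have h1 : E = ⋃ n : ℕ, E ∩ closedBall 0 n := by
      ext e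
      constructor
      · intro he
        obtain ⟨n, hn⟩ := exists_nat_ge (dist e 0)
        exact Set.mem_iUnion.2 ⟨n, he, hn⟩
      · intro he
        obtain ⟨n, hn⟩ := Set.mem_iUnion.1 he
        exact hn.1
    rw [h1]
    exact Set.countable_iUnion fun n => (hfin 0 n).countable
  have hconn : IsPreconnected Eᶜ := by
    refine (Set.Countable.isConnected_compl_of_one_lt_rank ?_ hcount).isPreconnected
    simp
  have hz₁E : z₁ ∈ Eᶜ := hout hδ (hnear z₁ (mem_ball_self hδ))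
  have hall2 := AnalyticOnNhd.eqOn_zero_of_preconnected_of_eventuallyEq_zero (𝕜 := ℂ) (f := g) (U := Eᶜ) (fun w hw => hg.analyticAt (hE.isOpen_compl.mem_nhds hw))
    hconn hz₁E hev
  exact fun z hz => hall2 hz

/-- few bad points of the line in discs with arbitrary centres -/
private theorem pz_few (S : TDat X Λ u a ν b E D Bad SS) (y : Vd (k + 1)) (ε : ℝ) (hε : 0 < ε) :
    ∃ C : ℝ, ∀ (z : ℂ) (R : ℝ), 0 ≤ R → (({z : ℂ | y + z • a ∈ Bad} ∩ closedBall z R).ncard : ℝ) ≤ ε * R ^ 2 + C := by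
  classical
  obtain ⟨C, hC⟩ := S.few ε hε
  refine ⟨C, fun z R hR => ?_⟩
  have hfin : ({z : ℂ | y + z • a ∈ Bad} ∩ closedBall z R).Finite := (S.hits y z R).subset fun w hw => ⟨S.bad_sub hw.1, hw.2⟩
  have h1 := hC (y + z • a) R hR (hfin.toFinset.image fun e => e - z) (by
    intro w hw
    obtain ⟨e, he, rfl⟩ := Finset.mem_image.1 hw
    rw [Set.Finite.mem_toFinset] at he
    refine ⟨?_, ?_⟩
    · rw [← dist_eq_norm]
      exact mem_closedBall.1 he.2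
    · have e1 : y + z • a + (e - z) • a = y + e • a := by
        rw [sub_smul]
        abel
      rw [e1]
      exact he.1)
  rw [Finset.card_image_of_injective _ (fun e e' h => by simpa using h)] at h1
  rwa [Set.ncard_eq_toFinset_card _ hfin]

theorem pT_zero (S : TDat X Λ u a ν b E D Bad SS) (ha : ‖a‖ = 1) {P : JForm X Λ u ν m} (hA : AlgP D P) (hφ : φ ∈ SS) {y : Vd (k + 1)} (hy : y ∈ Tb b E) (hD : y ∉ D) {x : EN N} (hx : x ≠ 0)
    (hφx : φ y = pr x) : pT P a φ y x = 0 := by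
  obtain ⟨F, hF, hφF⟩ := S.line φ hφ y hy
  have hF0 : ∀ z, F z ≠ 0 := fun z h0 => S.cone.zero_notMem (h0 ▸ hF.2.1 z)
  have e0 : ∀ z : ℂ, y + ((0 : ℝ) : ℂ) • ν + z • a = y + z • a := fun z => by simp
  have hsl : ∀ z, sl φ a ν y 0 z = pr (F z) := by
    intro z
    rw [← hφF z, ← e0 z]
    rfl
  have hT : ∀ z : ℂ, y + z • a ∈ Tb b E := fun z => S.add_mem hy (S.a_mem z)
  have hsmo : ∀ z : ℂ, y + z • a ∉ D → Smo X Λ u a ν y (sl φ a ν y) 0 z := by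
    intro z hz
    refine (S.sdat hφ hy).smo 0 z ?_
    show ¬ (y + ((0 : ℝ) : ℂ) • ν + z • a ∈ D)
    rwa [e0]
  obtain ⟨f, hfd⟩ : ∃ f : ℂ → ℂ, f = fun z => pval P a y (sl φ a ν y) 0 z (F z) := ⟨_, rfl⟩
  have hfv : ∀ z, y + z • a ∉ D → f z = pT P a φ (y + z • a) (F z) := by
    intro z hz
    have h1 := pval_pT S.cone P (s := 0) (z := z) (hsmo z hz) (by rw [e0]; exact S.smoS hφ (hT z) hz) (hF0 z) (by rw [e0]; exact hφF z)
    rw [e0] at h1
    rw [hfd]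
    exact h1
  have hfan : ∀ z, y + z • a ∉ D → AnalyticAt ℂ f z := by
    intro z hz
    rw [hfd]
    exact pval_hol S.cone hF.1 hF0 hsl (hsmo z hz) P
  have hcl : Continuous fun z : ℂ => y + z • a := by fun_prop
  have hUo : IsOpen {z : ℂ | y + z • a ∉ Bad} := S.bad_closed.isOpen_compl.preimage hcl
  have hlb : ∀ z ∈ {z : ℂ | y + z • a ∉ Bad}, ∃ C : ℝ, ∀ᶠ z' in 𝓝[≠] z, ‖f z'‖ ≤ C := by
    intro z hz
    obtain ⟨C, hC⟩ := pT_loc S P hφ (hT z) hz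
    have h1 : Tendsto (fun z' : ℂ => y + z' • a) (𝓝 z) (𝓝[Tb b E] (y + z • a)) :=
      tendsto_nhdsWithin_iff.2 ⟨hcl.tendsto z, Eventually.of_forall hT⟩
    have h2 : ∀ᶠ z' in 𝓝 z, ‖F z‖ / 2 < ‖F z'‖ := by
      have h3 : ‖F z‖ / 2 < ‖F z‖ := by
        have := norm_pos_iff.2 (hF0 z)
        linarith only [this]
      exact hF.1.continuous.norm.continuousAt.eventually_const_lt h3
    refine ⟨C / (‖F z‖ / 2), ?_⟩
    filter_upwards [(h1.eventually hC).filter_mono nhdsWithin_le_nhds, h2.filter_mono nhdsWithin_le_nhds, S.iso y z] with z' a1 a2 a3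
    have h4 := a1 a3 (F z') (hF0 z') (hφF z')
    rw [← hfv z' a3] at h4
    have h5 : 0 < ‖F z‖ / 2 := by
      have := norm_pos_iff.2 (hF0 z)
      linarith
    rw [le_div_iff₀ h5]
    exact (mul_le_mul_of_nonneg_left a2.le (norm_nonneg _)).trans h4
  obtain ⟨g, hgd, hgf⟩ := removable_discrete (S := {z : ℂ | y + z • a ∈ D}) hUo (fun z _ => S.iso y z) (fun z _ hz => hfan z hz) hlb
  have hgv : ∀ z, y + z • a ∉ D → g z = f z := fun z hz => hgf z (fun h' => hz (S.bad_sub h')) hz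
  obtain ⟨δ₁, hδ₁, hcirc⟩ := S.circ ha (η := 1 / 2) (by norm_num)
  obtain ⟨M', hM'⟩ := pole S ha hA
  have hcen : ∀ z w : ℂ, y + z • a + (w - z) • a = y + w • a := fun z w => by
    rw [sub_smul]
    abel
  have hg0 : g 0 = 0 := by
    refine pz_plane (E := {z : ℂ | y + z • a ∈ Bad}) (S.bad_closed.preimage hcl) (fun w => (S.iso y w).mono fun z h1 h2 => h1 (S.bad_sub h2))
      (fun z R => (S.hits y z R).subset fun w hw => ⟨S.bad_sub hw.1, hw.2⟩) (pz_few S y) hF.1 hF0 (fun R₀ hR₀ => ?_) (g := g) hgd hδ₁ (fun z => ?_) (fun η hη => ?_)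
      (M' := M') (fun e _ => ?_) 0 (fun h0 => ?_)
    · obtain ⟨c, hc, h⟩ := S.gr R₀ hR₀
      exact ⟨c, hc, fun z => h y F hF z⟩
    · obtain ⟨r, hr, hr', h⟩ := hcirc (y + z • a)
      refine ⟨r, hr, hr', fun w hw e he => ?_⟩
      have h1 := h (w - z) (by rw [← dist_eq_norm]; exact hw) (y + e • a) (S.bad_sub he)
      rw [hcen] at h1
      have h2 : y + w • a - (y + e • a) = (w - e) • a := by
        rw [sub_smul]
        abel
      rw [h2, norm_smul, ha, mul_one, ← dist_eq_norm] at h1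
      exact h1
    · obtain ⟨δ₀, hδ₀, h⟩ := S.circ ha hη
      obtain ⟨C, hC⟩ := pT_bound S P hδ₀
      refine ⟨C, fun z => ?_⟩
      obtain ⟨r, hr, hr', h⟩ := h (y + z • a)
      refine ⟨r, hr, hr', fun w hw _ => ?_⟩
      have h1 := h (w - z) (by rw [← dist_eq_norm]; exact hw)
      rw [hcen] at h1
      have h2 : y + w • a ∉ D := Pool.Agent.TG.gd_notMem hδ₀ h1
      rw [hgv w h2, hfv w h2]
      exact hC φ hφ _ (hT w) (fun β hβ => h1 β (S.bad_sub hβ)) h2 (F w) (hF0 w) (hφF w)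
    · obtain ⟨C, hC⟩ := hM' φ hφ y hy F hF hφF e
      refine ⟨C, ?_⟩
      filter_upwards [hC, S.iso y e] with z h1 h2
      rw [hgv z h2, hfv z h2]
      exact h1
    · apply hD
      have h1 := S.bad_sub h0
      rwa [zero_smul, add_zero] at h1
  have hD0 : y + (0 : ℂ) • a ∉ D := by
    rwa [zero_smul, add_zero]
  have hf0 : pval P a y (sl φ a ν y) 0 0 (F 0) = 0 := by
    have h1 := hgv 0 hD0
    rw [hg0, hfd] at h1
    exact h1.symm
  have hpr : pr x = pr (F 0) := by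
    rw [← hφx, ← hφF 0, zero_smul, add_zero]
  obtain ⟨α, hα, hxα⟩ := (Pool.Agent.H62.EF.pr_eq_iff hx (hF0 0)).1 hpr
  unfold pT
  rw [hxα, pval_smul S.cone (S.smoS hφ hy hD) P (hF0 0) (hsl 0) hα, hf0, mul_zero]

theorem pzs (S : TDat X Λ u a ν b E D Bad SS) (ha : ‖a‖ = 1) {P : JForm X Λ u ν m} (hA : AlgP D P) (hφ : φ ∈ SS) {y : Vd (k + 1)} (hy : y ∈ Tb b E) :
    PZs P a y (Dz D a ν y) (sl φ a ν y) := by
  intro s z hsz x hx hφx
  have hy' := S.tb hy s z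
  have hD' : y + (s : ℂ) • ν + z • a ∉ D := hsz
  rw [pval_pT S.cone P ((S.sdat hφ hy).smo s z hsz) (S.smoS hφ hy' hD') hx hφx]
  exact pT_zero S ha hA hφ hy' hD' hx hφx

end Pool.Agent.G4.C

end
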