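import Pool.Agent.H94.G5T.M46
import Pool.Agent.H94.G5T.M90
import Pool.Agent.H94.G5T.M95

/-! The parts of this file: G4.C.LeafT, G4.C.UniT, G4.C.MainC. -/

section

/-!
# G4 C LeafT: every line of direction `a` meets the set where the sheets extend

`sl_stab`: there is `n ≥ 1` with `φ (y + n l) = φ y` for all `φ ∈ SS`, `l ∈ Λ ∩ E`, `y ∈ T`.
-/

set_option autoImplicit false

open Topology Filter Metric

namespace Pool.Agent.G4.C

open Pool.Agent.H36.BP (EN fs wd)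
open Pool.Agent.H14.PP (IsCone)
open Pool.Agent.H62.EF (MN pr)
open Pool.Agent.AD (Vd Chart Charts)
open Pool.Agent.TG (TMap Lat Str ms tl Gd)
open Pool.Agent.G3.A (Tb Hc NL)
open Pool.Agent.G3.C

variable {N k : ℕ} {X : Set (EN N)} {Λ : AddSubgroup (Vd (k + 1))} {u : EN N → Vd (k + 1)} {ν a b : Vd (k + 1)} {m : ℕ} {E : Submodule ℝ (Vd (k + 1))}
  {D Bad Nν : Set (Vd (k + 1))} {SS : Set (Vd (k + 1) → MN N)} {φ : Vd (k + 1) → MN N}

theorem ue_exists (S : TDat X Λ u a ν b E D Bad SS) (ha : ‖a‖ = 1) {P : JForm X Λ u ν m} (hA : AlgP D P) (hP : ThP P a Nν) (hφ : φ ∈ SS) :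
    ∃ y₁ ∈ Tb b E, y₁ ∉ D ∧ UE (𝓝[Tb b E] y₁) (fun y => sl φ a ν y) 0 0 := by
  have hb : b ∈ Tb b E := by
    show b - b ∈ E
    rw [sub_self]
    exact E.zero_mem
  have hc : Continuous fun z : ℂ => b + z • a := by fun_prop
  obtain ⟨z₀, hz₀⟩ := hP.line b
  have h1 : ∀ᶠ z in 𝓝 z₀, b + z • a ∉ Nν := hc.continuousAt.eventually (hP.closed.isOpen_compl.mem_nhds hz₀)
  obtain ⟨z, hzN, hzD⟩ := ((h1.filter_mono nhdsWithin_le_nhds).and (S.iso b z₀)).exists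
  obtain ⟨y₀, hy₀⟩ : ∃ y₀, y₀ = b + z • a := ⟨_, rfl⟩
  rw [← hy₀] at hzN hzD
  have hy₀T : y₀ ∈ Tb b E := by
    rw [hy₀]
    exact S.add_mem hb (S.a_mem z)
  obtain ⟨r, hr, hball⟩ := Metric.isOpen_iff.1 (hP.closed.isOpen_compl.inter S.D_closed.isOpen_compl) y₀ ⟨hzN, hzD⟩
  refine ue_open S hφ hy₀T hzD hr fun y hy hyr δ hδ => ?_
  obtain ⟨hyN, hyD⟩ := hball (show y ∈ ball y₀ r by rwa [mem_ball, dist_eq_norm])
  have e0 : y + ((0 : ℝ) : ℂ) • ν + (0 : ℂ) • a = y := by simp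
  obtain ⟨s₁, z₁, ε, h2, h3, h4, h5⟩ := near_EAt (S.sdat hφ hy) hP (pzs S ha hA hφ hy) (s₀ := 0) (z₀ := 0)
    (show ¬ (y + ((0 : ℝ) : ℂ) • ν + (0 : ℂ) • a ∈ D) by rwa [e0]) (by rwa [e0]) hδ
  exact ⟨s₁, z₁, ε, by rwa [sub_zero] at h2, by rwa [sub_zero] at h3, h4, h5⟩

theorem sl_stab (S : TDat X Λ u a ν b E D Bad SS) : ∃ n : ℕ, 0 < n ∧ ∀ φ ∈ SS, ∀ l ∈ Λ, l ∈ E → ∀ y ∈ Tb b E, φ (y + n • l) = φ y := by
  refine ⟨S.fin.toFinset.card.factorial, Nat.factorial_pos _, fun φ hφ l hl hlE => ?_⟩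
  have hmul : ∀ j : ℕ, j • l ∈ Λ ∧ j • l ∈ E := fun j => ⟨Λ.nsmul_mem hl j, E.nsmul_mem hlE j⟩
  have hψ : ∀ j : ℕ, ∃ ψ ∈ SS, ∀ y ∈ Tb b E, ψ y = φ (y + j • l) := fun j => S.tr φ hφ _ (hmul j).1 (hmul j).2
  choose ψ hψS hψe using hψ
  obtain ⟨i, hi, j, hj, hne, hij⟩ := Finset.exists_ne_map_eq_of_card_lt_of_maps_to (s := Finset.range (S.fin.toFinset.card + 1)) (t := S.fin.toFinset) (f := ψ)
    (by rw [Finset.card_range]; exact Nat.lt_succ_self _) (fun j _ => by rw [Finset.mem_coe, Set.Finite.mem_toFinset]; exact hψS j)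
  obtain ⟨p, hp0, hpn, hp⟩ : ∃ p : ℕ, 0 < p ∧ p ≤ S.fin.toFinset.card ∧ ∀ y ∈ Tb b E, φ (y + p • l) = φ y := by
    have key : ∀ i j : ℕ, i < j → ψ i = ψ j → ∀ y ∈ Tb b E, φ (y + (j - i) • l) = φ y := by
      intro i j hlt he y hy
      have hy' : y - i • l ∈ Tb b E := by
        have h2 := S.add_mem hy (E.neg_mem (hmul i).2)
        rwa [← sub_eq_add_neg] at h2
      have h3 := hψe i _ hy'
      have h4 := hψe j _ hy'
      rw [he, h4, sub_add_cancel] at h3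
      rw [← h3]
      congr 1
      have h5 : j • l = (j - i) • l + i • l := by rw [← add_smul, Nat.sub_add_cancel hlt.le]
      rw [h5]
      abel
    rw [Finset.mem_range] at hi hj
    rcases lt_or_gt_of_ne hne with h | h
    · exact ⟨j - i, by omega, by omega, key i j h hij⟩
    · exact ⟨i - j, by omega, by omega, key j i h hij.symm⟩
  obtain ⟨q, hq⟩ : p ∣ S.fin.toFinset.card.factorial := Nat.dvd_factorial hp0 hpn
  have hrep : ∀ q : ℕ, ∀ y ∈ Tb b E, φ (y + (p * q) • l) = φ y := by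
    intro q
    induction q with
    | zero => intro y _; rw [mul_zero, zero_smul, add_zero]
    | succ q ih =>
      intro y hy
      have h1 : y + (p * (q + 1)) • l = (y + (p * q) • l) + p • l := by
        rw [mul_add, mul_one, add_smul]
        abel
      rw [h1, hp _ (S.add_mem hy (hmul _).2), ih y hy]
  intro y hy
  rw [hq]
  exact hrep q y hy

theorem EAtB.shift {v : EN N} {Φ Φ' : ℝ → ℂ → MN N} {s₀ : ℝ} {z₀ : ℂ} {ε M : ℝ} (h : EAtB v Φ' 0 0 ε M) (he : ∀ s z, Φ' s z = Φ (s₀ + s) (z₀ + z)) : EAtB v Φ s₀ z₀ ε M := by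
  obtain ⟨F, hF, hF0, hFs⟩ := h
  have hm : ∀ p : ℂ × ℂ, p ∈ ball ((s₀ : ℂ), z₀) ε → (p.1 - s₀, p.2 - z₀) ∈ ball (((0 : ℝ) : ℂ), (0 : ℂ)) ε := by
    intro p hp
    rw [mem_ball, Prod.dist_eq] at hp ⊢
    rw [Complex.ofReal_zero]
    simpa [dist_eq_norm] using hp
  refine ⟨fun p => F (p.1 - s₀, p.2 - z₀), ?_, fun p hp => hF0 _ (hm p hp), fun s z hp => ?_⟩
  · refine hF.comp ?_ hm
    have : Differentiable ℂ fun p : ℂ × ℂ => (p.1 - (s₀ : ℂ), p.2 - z₀) := by fun_prop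
    exact this.differentiableOn
  · have h1 := hFs (s - s₀) (z - z₀) (by
      have := hm _ hp
      push_cast
      exact this)
    rw [he, add_sub_cancel, add_sub_cancel] at h1
    rw [h1]
    push_cast
    rfl

theorem ue_line (S : TDat X Λ u a ν b E D Bad SS) (ha : ‖a‖ = 1) {P : JForm X Λ u ν m} (hA : AlgP D P) (hP : ThP P a Nν) (hφ : φ ∈ SS) {y : Vd (k + 1)} (hy : y ∈ Tb b E) :
    ∃ z : ℂ, y + z • a ∉ D ∧ UE (𝓝[Tb b E] y) (fun y' => sl φ a ν y') 0 z := by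
  obtain ⟨y₁, hy₁, hy₁D, v, ε, M, hε, hev⟩ := ue_exists S ha hA hP hφ
  obtain ⟨n, hn, hstab⟩ := sl_stab S
  obtain ⟨δ, hδ, hball⟩ := Metric.mem_nhdsWithin_iff.1 (hev.and (mem_nhdsWithin_of_mem_nhds (S.D_closed.isOpen_compl.mem_nhds hy₁D)))
  have hn' : (0 : ℝ) < n := by exact_mod_cast hn
  have hnC : (n : ℂ) ≠ 0 := by exact_mod_cast hn.ne'
  have hvE : ((n : ℝ)⁻¹) • (y₁ - y) ∈ E := by
    refine E.smul_mem _ ?_
    have e : y₁ - y = (y₁ - b) - (y - b) := by abel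
    rw [e]
    exact E.sub_mem hy₁ hy
  obtain ⟨l, hl, hlE, z, hz⟩ := S.dns _ hvE (δ / (2 * n)) (by positivity)
  have hnl : (n • l) ∈ Λ ∧ n • l ∈ E := ⟨Λ.nsmul_mem hl n, E.nsmul_mem hlE n⟩
  obtain ⟨z', hz'⟩ : ∃ z' : ℂ, z' = n * z := ⟨_, rfl⟩
  have hd : ‖y + z' • a + n • l - y₁‖ < δ := by
    have e : y + z' • a + n • l - y₁ = -((n : ℝ) • (((n : ℝ)⁻¹) • (y₁ - y) - (l + z • a))) := by
      rw [smul_sub, smul_smul, mul_inv_cancel₀ hn'.ne', one_smul, smul_add, hz', mul_smul]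
      have e1 : (n : ℝ) • l = n • l := by rw [Nat.cast_smul_eq_nsmul]
      have e2 : (n : ℝ) • z • a = (n : ℂ) • z • a := by
        rw [← Complex.coe_smul]
        push_cast
        rfl
      rw [e1, e2]
      abel
    rw [e, norm_neg, norm_smul, Real.norm_of_nonneg hn'.le]
    calc (n : ℝ) * ‖((n : ℝ)⁻¹) • (y₁ - y) - (l + z • a)‖ ≤ n * (δ / (2 * n)) := by gcongr
      _ = δ / 2 := by field_simp
      _ < δ := by linarith
  have hmem : ∀ y' ∈ Tb b E, y' + z' • a + n • l ∈ Tb b E := fun y' hy' => S.add_mem (S.add_mem hy' (S.a_mem z')) hnl.2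
  have hc : Continuous fun y' : Vd (k + 1) => y' + z' • a + n • l := by fun_prop
  refine ⟨z', fun hD => ?_, v, ε, M, hε, ?_⟩
  · have h1 := hball ⟨show y + z' • a + n • l ∈ ball y₁ δ by rwa [mem_ball, dist_eq_norm], hmem y hy⟩
    exact h1.2 (S.D_inv _ hD _ hnl.1)
  · have h2 : ∀ᶠ y' in 𝓝 y, y' + z' • a + n • l ∈ ball y₁ δ :=
      hc.continuousAt.eventually (isOpen_ball.mem_nhds (by rwa [mem_ball, dist_eq_norm]))
    filter_upwards [self_mem_nhdsWithin, h2.filter_mono nhdsWithin_le_nhds] with y' hy' hyb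
    have h3 : EAtB v (sl φ a ν (y' + z' • a + n • l)) 0 0 ε M := (hball ⟨hyb, hmem y' hy'⟩).1
    refine h3.shift fun s w => ?_
    rw [zero_add]
    show φ (y' + z' • a + n • l + (s : ℂ) • ν + w • a) = φ (y' + (s : ℂ) • ν + (z' + w) • a)
    have e : y' + z' • a + n • l + (s : ℂ) • ν + w • a = (y' + (s : ℂ) • ν + (z' + w) • a) + n • l := by
      rw [add_smul]
      abel
    rw [e]
    exact hstab φ hφ l hl hlE _ (S.tb hy' s (z' + w))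

end Pool.Agent.G4.C

end

section

/-!
# G4 C UniT: the sheets extend to complex parameters, uniformly over `T ∩ Gd D δ`

`sm_cont`: near a point of `T` off `D` the sheet is continuous on `T`.  `ue_all`: `spread_u` along the line.  `eat_unif`: compactness of `T ∩ Gd D δ` modulo `Λ ∩ E`.
-/

set_option autoImplicit false

open Topology Filter Metric

namespace Pool.Agent.G4.C

open Pool.Agent.H36.BP (EN fs wd)
open Pool.Agent.H14.PP (IsCone)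
open Pool.Agent.H62.EF (MN pr continuousAt_pr)
open Pool.Agent.AD (Vd Chart Charts)
open Pool.Agent.TG (TMap Lat Str ms tl Gd gd_notMem gd_closed)
open Pool.Agent.G3.A (Tb Hc NL)
open Pool.Agent.G3.C

variable {N k : ℕ} {X : Set (EN N)} {Λ : AddSubgroup (Vd (k + 1))} {u : EN N → Vd (k + 1)} {ν a b : Vd (k + 1)} {m : ℕ} {E : Submodule ℝ (Vd (k + 1))}
  {D Bad Nν : Set (Vd (k + 1))} {SS : Set (Vd (k + 1) → MN N)} {φ : Vd (k + 1) → MN N}

/-- the sheets are continuous on `T` off `D` -/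
theorem sm_cont (S : TDat X Λ u a ν b E D Bad SS) (hφ : φ ∈ SS) {y₀ : Vd (k + 1)} (hy₀ : y₀ ∈ Tb b E) (hD : y₀ ∉ D) : ContinuousWithinAt φ (Tb b E) y₀ := by
  obtain ⟨χ, c, ρ, w, r, B⟩ := S.smo φ hφ y₀ hy₀ hD
  have hT : Tb b E ∩ ball y₀ r ∈ 𝓝[Tb b E] y₀ := inter_mem self_mem_nhdsWithin (mem_nhdsWithin_of_mem_nhds (ball_mem_nhds y₀ B.pos))
  have hy₀' : y₀ ∈ Tb b E ∩ ball y₀ r := ⟨hy₀, mem_ball_self B.pos⟩
  have hw : ContinuousWithinAt (w 0) (Tb b E) y₀ := by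
    have h1 := (B.cont 0) y₀ hy₀'
    rwa [ContinuousWithinAt, nhdsWithin_inter_of_mem' (mem_nhdsWithin_of_mem_nhds (ball_mem_nhds y₀ B.pos))] at h1
  have hq : cy c ρ (w 0 y₀) y₀ ∈ ball (0 : Vd (k + 2)) 2 := B.mem y₀ hy₀'
  have hcy : ContinuousAt (fun p : ℂ × Vd (k + 1) => cy c ρ p.1 p.2) (w 0 y₀, y₀) := (cy_analytic analyticAt_fst analyticAt_snd).continuousAt
  have hcy' : ContinuousWithinAt (fun y => cy c ρ (w 0 y) y) (Tb b E) y₀ :=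
    ContinuousAt.comp_continuousWithinAt (g := fun p : ℂ × Vd (k + 1) => cy c ρ p.1 p.2) (f := fun y => ((w 0 y, y) : ℂ × Vd (k + 1))) hcy (hw.prodMk continuousWithinAt_id)
  have hσ : ContinuousWithinAt (fun y => χ.σ (cy c ρ (w 0 y) y)) (Tb b E) y₀ :=
    ContinuousAt.comp_continuousWithinAt (g := χ.σ) (f := fun y => cy c ρ (w 0 y) y) (χ.σ_an _ hq).continuousAt hcy'
  have hne : χ.σ (cy c ρ (w 0 y₀) y₀) ≠ 0 := fun h => S.cone.zero_notMem (h ▸ (χ.σ_mem _ hq).1)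
  have hpr : ContinuousWithinAt (fun y => pr (χ.σ (cy c ρ (w 0 y) y))) (Tb b E) y₀ :=
    ContinuousAt.comp_continuousWithinAt (g := pr) (f := fun y => χ.σ (cy c ρ (w 0 y) y)) (continuousAt_pr hne) hσ
  refine hpr.congr_of_eventuallyEq ?_ (B.eq y₀ hy₀')
  filter_upwards [hT] with y hy using B.eq y hy

theorem ue_all (S : TDat X Λ u a ν b E D Bad SS) (ha : ‖a‖ = 1) {P : JForm X Λ u ν m} (hA : AlgP D P) (hP : ThP P a Nν) (hφ : φ ∈ SS) {y : Vd (k + 1)} (hy : y ∈ Tb b E) (hD : y ∉ D) :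
    UE (𝓝[Tb b E] y) (fun y' => sl φ a ν y') 0 0 := by
  obtain ⟨z₁, hz₁, hE⟩ := ue_line S ha hA hP hφ hy
  -- the families, indexed by the points of `T`
  have hfil : ∀ p : Vd (k + 1) → Prop, (∀ᶠ i : Tb b E in 𝓝 (⟨y, hy⟩ : Tb b E), p i) ↔ ∀ᶠ y' in 𝓝[Tb b E] y, p y' :=
    fun p => eventually_nhds_subtype_iff (Tb b E) ⟨y, hy⟩ p
  have hUE : ∀ z, UE (𝓝 (⟨y, hy⟩ : Tb b E)) (fun i : Tb b E => sl φ a ν i) 0 z ↔ UE (𝓝[Tb b E] y) (fun y' => sl φ a ν y') 0 z := by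
    intro z
    constructor
    · rintro ⟨v, ε, M, hε, h⟩
      exact ⟨v, ε, M, hε, (hfil fun y' => EAtB v (sl φ a ν y') 0 z ε M).1 h⟩
    · rintro ⟨v, ε, M, hε, h⟩
      exact ⟨v, ε, M, hε, (hfil fun y' => EAtB v (sl φ a ν y') 0 z ε M).2 h⟩
  have hfam : UFam (𝓝 (⟨y, hy⟩ : Tb b E)) (fun i : Tb b E => sl φ a ν i) 0 {z | y + z • a ∉ D} := by
    refine ⟨fun i s => ?_, fun z hz => ?_⟩
    · obtain ⟨F, hF, hFs⟩ := (S.sdat hφ i.2).lift s
      exact ⟨F, hF.1, fun z h0 => S.cone.zero_notMem (h0 ▸ hF.2.1 z), hFs⟩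
    · obtain ⟨y₀, hy₀⟩ : ∃ y₀, y₀ = y + z • a := ⟨_, rfl⟩
      have hy₀T : y₀ ∈ Tb b E := by
        rw [hy₀]
        exact S.add_mem hy (S.a_mem z)
      have hy₀D : y₀ ∉ D := by
        rw [hy₀]
        exact hz
      obtain ⟨F, hF, hFs⟩ := S.line φ hφ y hy
      have hF0 : F z ≠ 0 := fun h0 => S.cone.zero_notMem (h0 ▸ hF.2.1 z)
      obtain ⟨v, hv⟩ : ∃ v, v = F z := ⟨_, rfl⟩
      have hvF : (inner ℂ v (F z) : ℂ) ≠ 0 := by
        rw [hv]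
        exact inner_self_ne_zero.2 hF0
      have hφy₀ : φ y₀ = pr (F z) := by rw [hy₀, hFs]
      have hnd : nd v (φ y₀) ≠ 0 := by
        rw [hφy₀]
        exact (nd_pr_ne hF0).2 hvF
      obtain ⟨c, hc⟩ : ∃ c, c = ‖nd v (φ y₀)‖ / 2 := ⟨_, rfl⟩
      have hc0 : 0 < c := by
        rw [hc]
        exact half_pos (norm_pos_iff.2 hnd)
      have hcont : ContinuousWithinAt (fun y' => ‖nd v (φ y')‖) (Tb b E) y₀ :=
        ((nd_cont v).continuousAt.comp_continuousWithinAt (sm_cont S hφ hy₀T hy₀D)).norm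
      have hlow : ∀ᶠ y' in 𝓝[Tb b E] y₀, c < ‖nd v (φ y')‖ := by
        refine hcont.eventually_const_lt ?_
        rw [hc]
        have := norm_pos_iff.2 hnd
        linarith
      have hD' : ∀ᶠ y' in 𝓝[Tb b E] y₀, y' ∉ D := mem_nhdsWithin_of_mem_nhds (S.D_closed.isOpen_compl.mem_nhds hy₀D)
      obtain ⟨r₃, hr₃, hball⟩ := Metric.mem_nhdsWithin_iff.1 (hlow.and hD')
      have hg : Continuous fun q : Vd (k + 1) × ℝ × ℂ => q.1 + (q.2.1 : ℂ) • ν + q.2.2 • a := by fun_prop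
      obtain ⟨δ, hδ, hin⟩ := Metric.isOpen_iff.1 (isOpen_ball.preimage hg) (y, 0, z) (show y + ((0 : ℝ) : ℂ) • ν + z • a ∈ ball y₀ r₃ by
        rw [Complex.ofReal_zero, zero_smul, add_zero, ← hy₀]
        exact mem_ball_self hr₃)
      have hin' : ∀ i ∈ ball y δ, ∀ s : ℝ, |s| < δ → ∀ w ∈ ball z δ, i + (s : ℂ) • ν + w • a ∈ ball y₀ r₃ := by
        intro i hi s hs w hw
        refine hin (a := (i, s, w)) ?_
        rw [mem_ball, Prod.dist_eq, Prod.dist_eq]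
        refine max_lt hi (max_lt ?_ hw)
        rwa [Real.dist_eq, sub_zero]
      refine ⟨v, δ / 2, c, by linarith, hc0, ?_⟩
      have h5 : ∀ᶠ i : Tb b E in 𝓝 (⟨y, hy⟩ : Tb b E), (i : Vd (k + 1)) ∈ ball y δ := (hfil fun y' => y' ∈ ball y δ).2 (mem_nhdsWithin_of_mem_nhds (ball_mem_nhds y hδ))
      filter_upwards [h5] with i hi s hs w hw
      have hs' : |s| < δ := by
        rw [abs_lt]
        constructor <;> linarith [hs.1, hs.2]
      have hw' : w ∈ ball z δ := ball_subset_ball (by linarith) hw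
      have hb := hin' i hi s hs' w hw'
      have hT := S.tb i.2 s w
      obtain ⟨h6, h7⟩ := hball ⟨hb, hT⟩
      refine ⟨?_, h6.le⟩
      have h8 : Tendsto φ (𝓝[Tb b E] ((i : Vd (k + 1)) + (s : ℂ) • ν + w • a)) (𝓝 (φ ((i : Vd (k + 1)) + (s : ℂ) • ν + w • a))) := sm_cont S hφ hT h7
      have h9 : Tendsto (fun q : ℝ × ℂ => (i : Vd (k + 1)) + (q.1 : ℂ) • ν + q.2 • a) (𝓝 (s, w)) (𝓝[Tb b E] ((i : Vd (k + 1)) + (s : ℂ) • ν + w • a)) := by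
        refine tendsto_nhdsWithin_iff.2 ⟨(slc_cont a ν (i : Vd (k + 1))).tendsto (s, w), Eventually.of_forall fun q => S.tb i.2 q.1 q.2⟩
      exact h8.comp h9
  have hcon : IsPreconnected {z : ℂ | y + z • a ∉ D} := by
    obtain ⟨δ₀, h0, h⟩ := Pool.Agent.G4.A.exists_lc (S.lg ha) (ρ := 1 / 8) (by norm_num) le_rfl
    have h1 : {z : ℂ | y + z • a ∈ D}.Countable := (h δ₀ h0 le_rfl).countable y
    have h2 : IsConnected {z : ℂ | y + z • a ∈ D}ᶜ := Set.Countable.isConnected_compl_of_one_lt_rank (by simp) h1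
    exact h2.isPreconnected
  refine (hUE 0).1 (spread_u hfam hcon hz₁ ((hUE z₁).2 hE) 0 ?_)
  show y + (0 : ℂ) • a ∉ D
  rwa [zero_smul, add_zero]

theorem eat_unif (S : TDat X Λ u a ν b E D Bad SS) (ha : ‖a‖ = 1) {P : JForm X Λ u ν m} (hA : AlgP D P) (hP : ThP P a Nν) {δ : ℝ} (hδ : 0 < δ) :
    ∃ ε : ℝ, 0 < ε ∧ ∀ φ ∈ SS, ∀ y ∈ Tb b E, y ∈ Gd D δ → EAt (sl φ a ν y) 0 0 ε := by
  obtain ⟨R, hR, hRl⟩ := S.cpt
  obtain ⟨K, hKd⟩ : ∃ K : Set (Vd (k + 1)), K = (Tb b E ∩ Gd D δ) ∩ closedBall b R := ⟨_, rfl⟩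
  have hK : IsCompact K := by
    rw [hKd]
    exact (isCompact_closedBall b R).inter_left ((tb_closed b E).inter (gd_closed D δ))
  have h1 : ∀ φ ∈ SS, ∃ ε : ℝ, 0 < ε ∧ ∀ y ∈ K, EAt (sl φ a ν y) 0 0 ε := by
    intro φ hφ
    refine hK.induction_on (p := fun Z => ∃ ε : ℝ, 0 < ε ∧ ∀ y ∈ Z, EAt (sl φ a ν y) 0 0 ε) ⟨1, one_pos, fun y hy => absurd hy (Set.notMem_empty y)⟩ ?_ ?_ ?_
    · rintro Z Z' hZ ⟨C, hC, h⟩
      exact ⟨C, hC, fun y hy => h y (hZ hy)⟩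
    · rintro Z Z' ⟨C, hC, h⟩ ⟨C', hC', h'⟩
      refine ⟨min C C', lt_min hC hC', fun y hy => ?_⟩
      rcases hy with hy | hy
      · exact (h y hy).mono (min_le_left _ _)
      · exact (h' y hy).mono (min_le_right _ _)
    · intro y hy
      rw [hKd] at hy
      obtain ⟨v, ε, M, hε, hev⟩ := ue_all S ha hA hP hφ hy.1.1 (gd_notMem hδ hy.1.2)
      refine ⟨{y' | EAtB v (sl φ a ν y') 0 0 ε M}, ?_, ε, hε, fun y' hy' => EAtB.eat hy'⟩
      refine nhdsWithin_mono y ?_ hev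
      rw [hKd]
      exact fun y hy => hy.1.1
  choose! ε hε0 hε using h1
  obtain ⟨e, he, hle⟩ : ∃ e : ℝ, 0 < e ∧ ∀ φ ∈ SS, e ≤ ε φ := by
    rcases SS.eq_empty_or_nonempty with h0 | h0
    · exact ⟨1, one_pos, fun φ hφ => by rw [h0] at hφ; exact absurd hφ (Set.notMem_empty φ)⟩
    · obtain ⟨φ₀, hφ₀, hmin⟩ := Set.exists_min_image SS ε S.fin h0
      exact ⟨ε φ₀, hε0 φ₀ hφ₀, hmin⟩
  refine ⟨e, he, fun φ hφ y hy hyG => ?_⟩
  obtain ⟨l, hl, hlE, hlR⟩ := hRl (y - b) hy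
  obtain ⟨φ', hφ', hφ'e⟩ := S.tr φ hφ l hl hlE
  have hyl : y - l ∈ Tb b E := by
    have h2 := S.add_mem hy (E.neg_mem hlE)
    rwa [← sub_eq_add_neg] at h2
  have hK' : y - l ∈ K := by
    rw [hKd]
    refine ⟨⟨hyl, ?_⟩, ?_⟩
    · intro β hβ
      have h1 := hyG _ (S.D_inv β hβ l hl)
      have h2 : y - (β + l) = y - l - β := by abel
      rwa [h2] at h1
    · rw [mem_closedBall, dist_eq_norm]
      have e1 : y - l - b = y - b - l := by abel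
      rwa [e1]
  have h3 := (hε φ' hφ' _ hK').mono (hle φ' hφ')
  have e2 : sl φ a ν y = sl φ' a ν (y - l) := by
    funext s z
    show φ (y + (s : ℂ) • ν + z • a) = φ' (y - l + (s : ℂ) • ν + z • a)
    rw [hφ'e _ (S.tb hyl s z)]
    congr 1
    abel
  rwa [e2]

end Pool.Agent.G4.C

end

section

/-!
# G4 C Main: block (C)
-/

set_option autoImplicit false

open Topology Filter Metric

namespace Pool.Agent.G4.C

open Pool.Agent.H36.BP (EN fs wd)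
open Pool.Agent.H14.PP (IsCone)
open Pool.Agent.H62.EF (MN pr)
open Pool.Agent.AD (Vd Chart Charts)
open Pool.Agent.TG (TMap Lat Str ms tl Gd)
open Pool.Agent.G3.A (Tb Hc NL)
open Pool.Agent.G3.C

variable {N k : ℕ} {X : Set (EN N)} {Λ : AddSubgroup (Vd (k + 1))} {u : EN N → Vd (k + 1)} {ν a b : Vd (k + 1)} {m : ℕ} {E : Submodule ℝ (Vd (k + 1))}
  {D Bad Nν : Set (Vd (k + 1))} {SS : Set (Vd (k + 1) → MN N)} {φ : Vd (k + 1) → MN N}

private theorem mc_eat (y : Vd (k + 1)) {s₀ : ℝ} {z₀ : ℂ} {ε : ℝ} (h : EAt (sl φ a ν (y + (s₀ : ℂ) • ν + z₀ • a)) 0 0 ε) : EAt (sl φ a ν y) s₀ z₀ ε := by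
  obtain ⟨F, hF, hF0, hFs⟩ := h
  have hm : ∀ p : ℂ × ℂ, p ∈ ball ((s₀ : ℂ), z₀) ε → (p.1 - s₀, p.2 - z₀) ∈ ball (((0 : ℝ) : ℂ), (0 : ℂ)) ε := by
    intro p hp
    rw [mem_ball, Prod.dist_eq] at hp ⊢
    rw [Complex.ofReal_zero]
    simpa [dist_eq_norm] using hp
  refine ⟨fun p => F (p.1 - s₀, p.2 - z₀), ?_, fun p hp => hF0 _ (hm p hp), fun s z hp => ?_⟩
  · refine hF.comp ?_ hm
    have : Differentiable ℂ fun p : ℂ × ℂ => (p.1 - (s₀ : ℂ), p.2 - z₀) := by fun_prop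
    exact this.differentiableOn
  · have h1 := hFs (s - s₀) (z - z₀) (by
      have := hm _ hp
      push_cast
      exact this)
    have h2 := sl_add (φ := φ) (ν := ν) (a := a) y s₀ (s - s₀) z₀ (z - z₀)
    rw [add_sub_cancel, add_sub_cancel] at h2
    rw [h2, h1]
    push_cast
    rfl

theorem bc {d : ℕ} (S : TDat X Λ u a ν b E D Bad SS) (ha : ‖a‖ = 1) (hch : Charts d X) {P : JForm X Λ u ν m} (hA : AlgP D P) (hP : ThP P a Nν)
    (hex : ∀ f ∈ Hc X Λ u a b, ∃ φ ∈ SS, ∀ z : ℂ, f z = φ (b + z • a)) : Pool.Agent.G3.E.BC X Λ u a ν b := by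
  obtain ⟨δ, hδ, hcirc⟩ := S.circ ha (η := 1) one_pos
  obtain ⟨ε, hε, hE⟩ := eat_unif S ha hA hP hδ
  have hb : b ∈ Tb b E := by
    show b - b ∈ E
    rw [sub_self]
    exact E.zero_mem
  refine ⟨ε, hε, fun f hf => ?_⟩
  obtain ⟨φ, hφ, hφf⟩ := hex f hf
  have SD := S.sdat hφ hb
  have hΦ : ∀ s : ℝ, ∃ F ∈ Gc X Λ u a (b + (s : ℂ) • ν), ∀ z, sl φ a ν b s z = pr (F z) := SD.lift
  have hl : ∀ s : ℝ, ∃ F : ℂ → EN N, Differentiable ℂ F ∧ (∀ z, F z ≠ 0) ∧ ∀ z, sl φ a ν b s z = pr (F z) := fun s => by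
    obtain ⟨F, hF, hFs⟩ := hΦ s
    exact ⟨F, hF.1, fun z h0 => S.cone.zero_notMem (h0 ▸ hF.2.1 z), hFs⟩
  obtain ⟨Ψ, h1, h2, h3⟩ := glue S.cone hch S.tor S.lat hΦ hε (fun s₀ z₀ => by
    obtain ⟨r, hr, -, hcr⟩ := hcirc (b + (s₀ : ℂ) • ν + z₀ • a)
    obtain ⟨W, r₂, hr₂, hW, hWr⟩ := fill hl (s₀ := s₀) (z₀ := z₀) hr hε (fun z hz => by
      refine mc_eat b (hE φ hφ _ (S.tb hb s₀ z) ?_)
      have h4 := hcr (z - z₀) (by rw [← dist_eq_norm]; exact hz)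
      have e : b + (s₀ : ℂ) • ν + z₀ • a + (z - z₀) • a = b + (s₀ : ℂ) • ν + z • a := by
        rw [sub_smul]
        abel
      rwa [e] at h4)
    exact ⟨W, r₂, hr.trans hr₂, hW, hWr⟩)
  refine ⟨Ψ, fun z => ?_, fun ζ hζ => ?_, h3⟩
  · have h4 := h1 0 z
    rw [Complex.ofReal_zero] at h4
    rw [h4, hφf]
    show φ (b + ((0 : ℝ) : ℂ) • ν + z • a) = φ (b + z • a)
    congr 1
    simp
  · obtain ⟨F, hF, hFz⟩ := h2 ζ hζ
    exact ⟨F, hF, funext hFz⟩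

end Pool.Agent.G4.C

end
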