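import Pool.Agent.H94.G5T.G4.F.Asm
import Pool.Agent.H94.G5T.G4.F.ConJ
import Pool.Agent.H94.G5T.G4.R.SmoT
import Pool.Agent.H94.G5T.M123
import Pool.Agent.H94.G5T.M128
import Pool.Agent.H94.G5T.M152
import Pool.Agent.H94.G5T.M156
import Pool.Agent.H94.G5T.M158
import Pool.Agent.H94.G5T.M162
import Pool.Agent.H94.G5T.M96

/-! The parts of this file: G4.R.ShtF_1, G4.A.TDt, G4.E.Main, G4.M.Main_1, G4.V.Main. -/

section

/-!
# G4 R ShtF: basic facts on a finite set of sheets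

`exists_shs`: from `sht_finite`, `sht_add`.  `Shs.unif`: uniform continuity on `T ∩ Gd D δ`, `T = Tb b E` (closed: finite dimension; compactness of the bounded part, finitely many sheets, `cpt`, `tr`).
`Shs.lm`: the curves `φ (y n + z a)` converge.  `Shs.red`: translation of a point of `T` to a bounded point.
-/

set_option autoImplicit false

open Topology Filter Metric

namespace Pool.Agent.G4.R

open Pool.Agent.H36.BP (EN fs wd)
open Pool.Agent.H14.PP (IsCone CurveAt Tan)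
open Pool.Agent.H62.EF (MN pr)
open Pool.Agent.AD (Vd Chart Charts IsGerm)
open Pool.Agent.TG
open Pool.Agent.G3
open Pool.Agent.G3.R
open Pool.Agent.G3.C (Gc HP nv nd nv_pr)
open Pool.Agent.G3.A (Ba Hc Dec Sepa Tht Frm NL Lm CRL Tb ToE CE Sht)
open Pool.Agent.G4.A

variable {N k : ℕ} {X : Set (EN N)} {Λ : AddSubgroup (Vd (k + 1))} {u : EN N → Vd (k + 1)} {D B Bad : Set (Vd (k + 1))} {a b w : Vd (k + 1)} {E : Submodule ℝ (Vd (k + 1))}
  {SS : Set (Vd (k + 1) → MN N)} {Γ : AddSubgroup (Vd (k + 1))} {J rW : ℕ} {W : Fin rW → Vd (k + 1) →L[ℂ] ℂ} {α : Fin J → VForm X Λ u} {c₀ C₀ ρ δ : ℝ}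

theorem exists_shs (S : DA X Λ u D B Bad a Γ W α c₀ C₀ ρ δ) (hE : CE X Λ u a b E) : ∃ SS : Set (Vd (k + 1) → MN N), Shs X Λ u D a b E SS ∧
    ∀ ψ, Sht X Λ u D a (Tb b E) ψ → ∃ φ ∈ SS, ∀ y ∈ Tb b E, ψ y = φ y := by
  obtain ⟨SS, h1, h2, h3, -⟩ := sht_finite S hE
  refine ⟨SS, ⟨hE.mem, hE.cpt, h1, h2, fun φ hφ l hl hlE => ?_⟩, h3⟩
  obtain ⟨φ', hφ', h4⟩ := h3 _ (sht_add (h2 φ hφ) S.lg hl hlE)
  exact ⟨φ', hφ', fun y hy => (h4 y hy).symm⟩

end Pool.Agent.G4.R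

end

section

/-!
# G4 A TDt: the data of block (C), and the output for sheets over the whole space

`exists_tdat`: `TDat` for the sheets over `T = b + E`, `E` the real closure of `ℂ a` (`ToE`), `ν ∈ E`; `thin` from the local equations of `D` and `LG.iso`; `smo`: `smoT_sheet`; `str`: `reg_str`; `gr`: `gr`.
`reg_hol`: sheets over the whole space are holomorphic off `D`.
-/

set_option autoImplicit false

open Topology Filter Metric

namespace Pool.Agent.G4.A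

open Pool.Agent.H36.BP (EN fs wd)
open Pool.Agent.H14.PP (IsCone CurveAt Tan)
open Pool.Agent.H62.EF (MN pr)
open Pool.Agent.AD (Vd Chart Charts IsGerm)
open Pool.Agent.TG
open Pool.Agent.G3
open Pool.Agent.G3.A (Ba Hc Dec Sepa Tht Frm NL Lm CRL Tb ToE CE Sht reg_str)
open Pool.Agent.G3.C (Gc HP)
open Pool.Agent.G4.C (TDat cy)

variable {N k : ℕ} {X : Set (EN N)} {Λ : AddSubgroup (Vd (k + 1))} {u : EN N → Vd (k + 1)} {D B Bad : Set (Vd (k + 1))} {a : Vd (k + 1)}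
  {Γ : AddSubgroup (Vd (k + 1))} {J rW : ℕ} {W : Fin rW → Vd (k + 1) →L[ℂ] ℂ} {α : Fin J → VForm X Λ u} {c₀ C₀ ρ δ : ℝ} {E : Submodule ℝ (Vd (k + 1))} {b ν : Vd (k + 1)}

/-- one of the local equations of `D` is not identically `0` on the line -/
private theorem td_thin (hL : LG Λ D Bad a) (hD : ∀ y : Vd (k + 1), ∃ (m : ℕ) (h : Vd (k + 1) → Vd m), AnalyticAt ℂ h y ∧ ∀ᶠ z in 𝓝 y, (z ∈ D ↔ h z = 0)) (y : Vd (k + 1)) :
    ∃ h : Vd (k + 1) → ℂ, AnalyticAt ℂ h y ∧ (∀ᶠ y' in 𝓝 y, y' ∈ D → h y' = 0) ∧ ¬ ∀ᶠ z in 𝓝 (0 : ℂ), h (y + z • a) = 0 := by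
  obtain ⟨m, h, h1, h2⟩ := hD y
  by_contra hcon
  push Not at hcon
  have h3 : ∀ i : Fin m, ∀ᶠ z in 𝓝 (0 : ℂ), h (y + z • a) i = 0 := by
    intro i
    refine hcon (fun y => h y i) ?_ ?_
    · exact analyticAt_pi_iff.1 h1 i
    · filter_upwards [h2] with y' h4 h5
      rw [h4.1 h5]
      rfl
  have h4 : ∀ᶠ z in 𝓝 (0 : ℂ), ∀ i : Fin m, h (y + z • a) i = 0 := Filter.eventually_all.2 h3
  have hc : Continuous fun z : ℂ => y + z • a := by fun_prop
  have h5 : ∀ᶠ z in 𝓝 (0 : ℂ), (y + z • a ∈ D ↔ h (y + z • a) = 0) := by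
    have h6 := hc.tendsto 0
    rw [zero_smul, add_zero] at h6
    exact h6.eventually h2
  have h6 : ∀ᶠ z in 𝓝[≠] (0 : ℂ), y + z • a ∈ D := by
    refine Filter.Eventually.filter_mono nhdsWithin_le_nhds ?_
    filter_upwards [h4, h5] with z h7 h8
    exact h8.2 (funext h7)
  obtain ⟨z, h7, h8⟩ := (h6.and (hL.iso y)).exists
  exact h8 h7

theorem exists_tdat (S : DA X Λ u D B Bad a Γ W α c₀ C₀ ρ δ) (hE : ToE Λ a E) (hν : ν ∈ E) (hBc : IsClosed Bad)
    (hD : ∀ y : Vd (k + 1), ∃ (m : ℕ) (h : Vd (k + 1) → Vd m), AnalyticAt ℂ h y ∧ ∀ᶠ z in 𝓝 y, (z ∈ D ↔ h z = 0)) (b : Vd (k + 1)) :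
    ∃ SS : Set (Vd (k + 1) → MN N), TDat X Λ u a ν b E D Bad SS ∧ ∀ f ∈ Hc X Λ u a b, ∃ φ ∈ SS, ∀ z : ℂ, f z = φ (b + z • a) := by
  have hCE : CE X Λ u a b E := hE.ce4 S b
  obtain ⟨SS, hS, hall⟩ := Pool.Agent.G4.R.exists_shs S hCE
  have hbT : b ∈ Tb b E := by
    show b - b ∈ E
    rw [sub_self]
    exact E.zero_mem
  refine ⟨SS, ?_, fun f hf => ?_⟩
  · exact
      { cone := S.geo.cone
        tor := S.geo.tor
        lat := S.geo.lat
        a_mem := hE.mem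
        ν_mem := hν
        cpt := hE.cpt
        dns := hE.dns
        D_closed := S.lg.D_closed
        D_inv := S.lg.D_inv
        bad_closed := hBc
        bad_sub := S.lg.bad_sub
        bad_inv := S.lg.bad_inv
        thin := td_thin S.lg hD
        fin := hS.fin
        tr := hS.tr
        line := fun φ hφ y hy => by
          obtain ⟨F, hF1, hF2⟩ := (hS.sht φ hφ).line y hy
          exact ⟨F, hF1, fun z => congrFun hF2 z⟩
        smo := fun φ hφ y hy hyD => Pool.Agent.G4.R.smoT_sheet S hS hν hφ hy hyD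
        str := fun φ hφ y hy hyB => by
          obtain ⟨χ, c, ρ', p, h1, h2, h3, h4⟩ := reg_str S.geo ((hS.sht φ hφ).line y hy) (z := 0) fun hD' => by
            rw [zero_smul, add_zero] at hD' ⊢
            exact S.good _ hD' hyB
          rw [zero_smul, add_zero] at h3 h4
          have h5 : cy c ρ' (p 0) y = p := by
            have h6 : (ρ' : ℂ)⁻¹ • (y - c) = tl p := by
              rw [← h3]
              unfold ms
              rw [add_sub_cancel_left, smul_smul, inv_mul_cancel₀, one_smul]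
              have := h1.pos.ne'
              exact_mod_cast this
            unfold cy
            rw [h6]
            funext i
            refine Fin.cases ?_ (fun j => ?_) i
            · rfl
            · rfl
          refine ⟨χ, c, ρ', p 0, h1, ?_, ?_⟩
          · rw [h5]
            exact h2
          · rw [h5]
            exact h4
        gr := fun R₀ hR₀ => gr S.geo S.lg S.nl hR₀
        few := S.lg.few
        nl := S.nl }
  · obtain ⟨φ, hφ, h1⟩ := exists_sht S hCE hf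
    obtain ⟨ψ, hψ, h2⟩ := hall φ hφ
    refine ⟨ψ, hψ, fun z => ?_⟩
    rw [← h1 z]
    refine h2 _ ?_
    show b + z • a - b ∈ E
    rw [add_sub_cancel_left]
    exact hE.mem z

/-- sheets over the whole space are holomorphic off `D` -/
theorem reg_hol (S : DA X Λ u D B Bad a Γ W α c₀ C₀ ρ δ) (hE : CE X Λ u a b ⊤) {φ : Vd (k + 1) → MN N} (hφ : Sht X Λ u D a (Tb b ⊤) φ) {y : Vd (k + 1)} (hy : y ∉ D) :
    ∃ ψ : Vd (k + 1) → EN N, AnalyticAt ℂ ψ y ∧ ∀ᶠ z in 𝓝 y, ψ z ∈ X ∧ φ z = pr (ψ z) ∧ u (ψ z) - z ∈ Λ := by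
  obtain ⟨SS, hS, hall⟩ := Pool.Agent.G4.R.exists_shs S hE
  obtain ⟨φ', hφ', he⟩ := hall φ hφ
  have hfun : φ = φ' := funext fun z => he z (Submodule.mem_top (R := ℝ) (x := z - b))
  rw [hfun]
  exact Pool.Agent.G4.R.sheet_hol S hS hφ' hy

end Pool.Agent.G4.A

end

section

/-!
# G4 E Main: the finite set of the global sections

`a₀` a direction whose real closure is the whole space (`exists_dir`), `SS` the global sheets of the direction `a₀`: holomorphic off `D` (`reg_hol`), weakly meromorphic (`mer_top`).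
`cl_all`: every curve over a line of direction `a` is the restriction of a member of `SS`: induction on the codimension of the real closure `E` of `ℂ a`.  `E = ⊤`: `cl_of_gd`.  Otherwise there is `ν ∈ E`, `i ν ∉ E`; block (C) gives `BC` for
`a`, `ν`; a direction `a'` in the plane of `ν` and `a` has a larger real closure; `cl_plane`.
-/

set_option autoImplicit false

open Topology Filter Metric

namespace Pool.Agent.G4.E

open Pool.Agent.H36.BP (EN fs wd)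
open Pool.Agent.H14.PP (IsCone CurveAt Tan)
open Pool.Agent.H62.EF (MN pr)
open Pool.Agent.AD (Vd Chart Charts IsGerm)
open Pool.Agent.TG
open Pool.Agent.G3 (PS Cv)
open Pool.Agent.G3.A (Ba Hc Frm ToE CE Sht Tb exists_toE)
open Pool.Agent.G3.C (JForm)
open Pool.Agent.G3.E (BC Hol GD)
open Pool.Agent.G4.A (DA exists_da exists_tdat reg_hol ba_closed)
open Pool.Agent.G4.C (AlgP ThP)

variable {N k : ℕ} {X : Set (EN N)} {Λ : AddSubgroup (Vd (k + 1))} {u : EN N → Vd (k + 1)} {D B Bad : Set (Vd (k + 1))} {a ν : Vd (k + 1)}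
  {Γ : AddSubgroup (Vd (k + 1))} {J r : ℕ} {W : Fin r → Vd (k + 1) →L[ℂ] ℂ} {α : Fin J → VForm X Λ u} {c₀ C₀ ρ δ : ℝ}

theorem gd_top (S : DA X Λ u D B Bad a Γ W α c₀ C₀ ρ δ) (hE : ToE Λ a ⊤) : ∃ SS : Set (Vd (k + 1) → MN N), GD X Λ u D a SS := by
  have hCE : ∀ b, CE X Λ u a b ⊤ := fun b => hE.ce4 S b
  exact gd_of_sht S hCE fun φ hφ y hy => reg_hol S (hCE 0) hφ hy

theorem ldi_iso (hL : LDi D) : ∀ a : Vd (k + 1), a ≠ 0 → ∀ y : Vd (k + 1), ∀ᶠ z in 𝓝[≠] (0 : ℂ), y + z • a ∉ D := fun a ha y => by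
  filter_upwards [hL a ha y 0] with z hz
  have h1 : y + z • a = z • a + y := add_comm _ _
  rw [h1]
  exact hz

theorem cl_all {p : EN N → EN N → ℝ} {m : ℕ} {K : ℝ} (G : Geo X Λ u D B) (hD : ∀ y, ∃ (m : ℕ) (h : Vd (k + 1) → Fin m → ℂ), AnalyticAt ℂ h y ∧ ∀ᶠ z in 𝓝 y, (z ∈ D ↔ h z = 0))
    (hBc : IsClosed B) (hBi : ∀ β ∈ B, ∀ l ∈ Λ, β + l ∈ B) (hs : Simp Λ) (hL : LDi D) (hfew : ∀ a : Vd (k + 1), a ≠ 0 → Few (Ba D B a) a) (hP : PS X Λ u D p m K)
    (hF : Frm X Λ u D Γ W α) (hJ : ∀ ν : Vd (k + 1), ν ≠ 0 → ∃ (m : ℕ) (Ψ : JForm X Λ u ν m) (Nν : Set (Vd (k + 1))), AlgP D Ψ ∧ ∀ a : Vd (k + 1), a ≠ 0 → ThP Ψ a Nν)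
    (hne : (Dᶜ : Set (Vd (k + 1))).Nonempty) {a₀ : Vd (k + 1)} (ha₀ : ‖a₀‖ = 1) {SS : Set (Vd (k + 1) → MN N)} (hSS : GD X Λ u D a₀ SS) (n : ℕ) :
    ∀ a : Vd (k + 1), ‖a‖ = 1 → ∀ E, ToE Λ a E → Module.finrank ℝ (Vd (k + 1)) ≤ Module.finrank ℝ E + n → Cl X Λ u D SS a := by
  have hn1 : ∀ a : Vd (k + 1), ‖a‖ = 1 → a ≠ 0 := by
    rintro a ha rfl
    rw [norm_zero] at ha
    exact zero_ne_one ha
  have hiso := ldi_iso hL
  have htop : ∀ a : Vd (k + 1), ‖a‖ = 1 → ToE Λ a ⊤ → Cl X Λ u D SS a := by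
    intro a ha hE
    obtain ⟨c₀, C₀, ρ, δ, S⟩ := exists_da G hBi hL hP (Pool.Agent.GX.crs G) hF ha (hfew a (hn1 a ha))
    obtain ⟨SS', hSS'⟩ := gd_top S hE
    exact cl_of_gd G.cone G.charts G.tor G.lat G.D_closed hiso hne (hn1 _ ha₀) hSS hSS' fun φ hφ y₀ =>
      mer_top G.cone hP ha G.D_closed (hiso a (hn1 a ha)) (hSS'.hol φ hφ) (hSS'.line φ hφ) y₀
  induction n with
  | zero =>
    intro a ha E hE hle
    rw [add_zero] at hle
    have h1 : E = ⊤ := Submodule.eq_top_of_finrank_eq (le_antisymm (Submodule.finrank_le E) hle)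
    subst h1
    exact htop a ha hE
  | succ n ih =>
    intro a ha E hE hle
    rcases toE_top_or G.lat hs (hn1 a ha) hE with rfl | ⟨ν, hν, hνI⟩
    · exact htop a ha hE
    · have hν0 : ν ≠ 0 := by
        rintro rfl
        rw [smul_zero] at hνI
        exact hνI E.zero_mem
      have hind : ∀ s t : ℂ, s • ν + t • a = 0 → s = 0 ∧ t = 0 := by
        intro s t h
        have hs0 : s = 0 := by
          by_contra hs0
          have h1 : ν = (-(s⁻¹ * t)) • a := by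
            have h2 : s • ν = -(t • a) := eq_neg_of_add_eq_zero_left h
            calc ν = s⁻¹ • (s • ν) := by rw [smul_smul, inv_mul_cancel₀ hs0, one_smul]
              _ = (-(s⁻¹ * t)) • a := by rw [h2, smul_neg, smul_smul, neg_smul]
          apply hνI
          rw [h1, smul_smul]
          exact hE.mem _
        refine ⟨hs0, ?_⟩
        rw [hs0, zero_smul, zero_add, smul_eq_zero] at h
        exact h.resolve_right (hn1 a ha)
      obtain ⟨c₀, C₀, ρ, δ, S⟩ := exists_da G hBi hL hP (Pool.Agent.GX.crs G) hF ha (hfew a (hn1 a ha))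
      obtain ⟨m', Ψ, Nν, hA, hT⟩ := hJ ν hν0
      have hBC : ∀ b, BC X Λ u a ν b := by
        intro b
        obtain ⟨TS, hTS, hex⟩ := exists_tdat S hE hν (ba_closed G hBc) hD b
        exact Pool.Agent.G4.C.bc hTS ha G.charts hA (hT a (hn1 a ha)) hex
      -- the plane
      have hpl : (Submodule.span ℂ {ν, a} : Submodule ℂ (Vd (k + 1))) ≠ ⊥ := by
        intro h
        have h1 : ν ∈ (Submodule.span ℂ {ν, a} : Submodule ℂ (Vd (k + 1))) := Submodule.subset_span (by simp)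
        rw [h, Submodule.mem_bot] at h1
        exact hν0 h1
      obtain ⟨a', ha'S, ha', hE'⟩ := exists_dir G.lat _ hpl
      obtain ⟨E', hE'E⟩ := exists_toE G.lat a'
      have hsub := hE' E' hE'E
      have ha2 : ∀ z : ℂ, z • a ∈ E' := fun z => hsub _ (Submodule.smul_mem _ _ (Submodule.subset_span (by simp)))
      have hlt : E < E' := by
        refine lt_of_le_of_ne (toE_le G.lat hE hE'E ha2) ?_
        rintro rfl
        exact hνI (hsub _ (Submodule.smul_mem _ _ (Submodule.subset_span (by simp))))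
      have h1 := Submodule.finrank_lt_finrank_of_lt hlt
      have hcl := ih a' ha' E' hE'E (by omega)
      obtain ⟨s₀, t₀, hst⟩ := Submodule.mem_span_pair.1 ha'S
      rw [← hst] at hcl
      exact cl_plane S hiso hBC hind hSS.fin hSS.hol (by rw [hst]; exact hn1 _ ha') hcl

/-- **the global sections** -/
theorem end_main {p : EN N → EN N → ℝ} {m : ℕ} {K : ℝ}
    (G : Geo X Λ u D B) (hD : ∀ y, ∃ (m : ℕ) (h : Vd (k + 1) → Fin m → ℂ), AnalyticAt ℂ h y ∧ ∀ᶠ z in 𝓝 y, (z ∈ D ↔ h z = 0)) (hDu : D ≠ Set.univ)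
    (hBc : IsClosed B) (hBi : ∀ β ∈ B, ∀ l ∈ Λ, β + l ∈ B) (hs : Simp Λ) (hfew : ∀ a : Vd (k + 1), a ≠ 0 → Few (Ba D B a) a) (hP : PS X Λ u D p m K)
    {Γ : AddSubgroup (Vd (k + 1))} {J r : ℕ} {W : Fin r → Vd (k + 1) →L[ℂ] ℂ} {α : Fin J → VForm X Λ u} (hF : Frm X Λ u D Γ W α)
    (hJ : ∀ ν : Vd (k + 1), ν ≠ 0 → ∃ (m : ℕ) (Ψ : JForm X Λ u ν m) (Nν : Set (Vd (k + 1))), AlgP D Ψ ∧ ∀ a : Vd (k + 1), a ≠ 0 → ThP Ψ a Nν) :
    (∃ S, Csf X Λ u D S) ∧ LDi D := by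
  have hn1 : ∀ a : Vd (k + 1), ‖a‖ = 1 → a ≠ 0 := by
    rintro a ha rfl
    rw [norm_zero] at ha
    exact zero_ne_one ha
  obtain ⟨y₀, hy₀⟩ := (Set.ne_univ_iff_exists_notMem D).1 hDu
  have hL : LDi D := ldi_of G.lat hs (fun y _ => hD y) G.D_inv hy₀
  refine ⟨?_, hL⟩
  have hiso := ldi_iso hL
  obtain ⟨a₀, -, ha₀, hE₀⟩ := exists_dir G.lat ⊤ (by
    intro h
    have h1 : (fun _ => 1 : Vd (k + 1)) ∈ (⊤ : Submodule ℂ (Vd (k + 1))) := Submodule.mem_top
    rw [h, Submodule.mem_bot] at h1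
    exact one_ne_zero (congrFun h1 0))
  obtain ⟨E₀, hE₀E⟩ := exists_toE G.lat a₀
  have htop : E₀ = ⊤ := by
    rw [Submodule.eq_top_iff']
    exact fun v => hE₀ E₀ hE₀E v Submodule.mem_top
  subst htop
  obtain ⟨c₀, C₀, ρ, δ, S⟩ := exists_da G hBi hL hP (Pool.Agent.GX.crs G) hF ha₀ (hfew a₀ (hn1 a₀ ha₀))
  obtain ⟨SS, hSS⟩ := gd_top S hE₀E
  refine ⟨SS, ⟨hSS.fin, hSS.hol, fun Φ hΦ y => ?_, fun Φ hΦ l hl => ⟨_, hSS.tr Φ hΦ l hl, fun y _ => rfl⟩, fun a ha b F hF' => ?_⟩⟩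
  · obtain ⟨H, h1, h2, h3⟩ := mer_top G.cone hP ha₀ G.D_closed (hiso a₀ (hn1 a₀ ha₀)) (hSS.hol Φ hΦ) (hSS.line Φ hΦ) y
    exact ⟨H, h1, h2, h3.mono fun z hz _ => hz⟩
  · have hna : ‖a‖ ≠ 0 := norm_ne_zero_iff.2 ha
    have hc : (‖a‖ : ℂ) ≠ 0 := by exact_mod_cast hna
    have hn : ‖((‖a‖ : ℂ))⁻¹ • a‖ = 1 := by
      rw [norm_smul, norm_inv, Complex.norm_real, norm_norm]
      exact inv_mul_cancel₀ hna
    obtain ⟨E, hE⟩ := exists_toE G.lat (((‖a‖ : ℂ))⁻¹ • a)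
    have hcl := cl_all G hD hBc hBi hs hL hfew hP hF hJ ⟨y₀, hy₀⟩ ha₀ hSS (Module.finrank ℝ (Vd (k + 1))) _ hn E hE (by omega)
    have hmem : (fun z : ℂ => pr (F (((‖a‖ : ℂ))⁻¹ * z))) ∈ Hc X Λ u (((‖a‖ : ℂ))⁻¹ • a) b := by
      refine ⟨fun z => F (((‖a‖ : ℂ))⁻¹ * z), ⟨?_, fun z => ?_, fun z => ?_⟩, rfl⟩
      · have h1 : Differentiable ℂ F := differentiableOn_univ.1 hF'.F_diff
        exact h1.comp ((differentiable_const _).mul differentiable_id)
      · exact hF'.mem _ (Set.mem_univ _)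
      · have h1 := hF'.lift _ (Set.mem_univ (((‖a‖ : ℂ))⁻¹ * z))
        have h2 : b + z • (((‖a‖ : ℂ))⁻¹ • a) = ((((‖a‖ : ℂ))⁻¹ * z) • a + b : Vd (k + 1)) := by
          rw [smul_smul, mul_comm z, add_comm b]
        rw [h2]
        exact h1
    obtain ⟨Φ, hΦ, hΦe⟩ := hcl b _ hmem
    refine ⟨Φ, hΦ, fun z hz => ?_⟩
    have h2 : b + ((‖a‖ : ℂ) * z) • (((‖a‖ : ℂ))⁻¹ • a) = (z • a + b : Vd (k + 1)) := by
      rw [smul_smul, mul_comm (‖a‖ : ℂ) z, mul_assoc, mul_inv_cancel₀ hc, mul_one, add_comm b]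
    have h3 : ((‖a‖ : ℂ))⁻¹ * ((‖a‖ : ℂ) * z) = z := by
      rw [← mul_assoc, inv_mul_cancel₀ hc, one_mul]
    have h1 := hΦe ((‖a‖ : ℂ) * z) (by rw [h2]; exact hz)
    rw [h2] at h1
    simp only [h3] at h1
    exact h1

end Pool.Agent.G4.E

end

section

/-!
# G4 M Main: the final theorem

`X` is a smooth projective variety of dimension `k + 2`, `u` a holomorphic map to a simple complex torus `ℂ^(k+1) / Λ`.  The set `B` is replaced by `B ∩ D` (for `k = 1`, `B` finite modulo `Λ`: by `(B + Λ) ∩ D`),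
closed and invariant, with few bad points (`exists_B`; by theta functions, `RE/Sml`).  The function `p` is the negatively curved metric (`fin_of`, `ps_of_fin`).
-/

set_option autoImplicit false

open Topology Filter Metric MvPolynomial

namespace Pool.Agent.G4

open Pool.Agent.H17 (PN VanishesAt HolomorphicInto puncturedDisc)
open Pool.Agent.H62.FC (Homog)
open Pool.Agent.H17LG.Variety (FunField IsLogGeneralType)
open Pool.Agent.H17EF (projVar coneE LE mem_coneE mk_mem_projVar)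
open Pool.Agent.H36.BP (EN fs wd Sub Curve)
open Pool.Agent.H14.PP (IsCone CurveAt Tan)
open Pool.Agent.H62.EF (MN pr)
open Pool.Agent.AD (Vd Chart Charts uV IsHolomorphicTorusMap)
open Pool.Agent.TG (TMap Lat Geo Gd VForm Fb TransAt)
open Pool.Agent.TGF (Cn Over IsAnalyticSubset)
open Pool.Agent.G3 (frm_of)
open Pool.Agent.G3.A (Ba Frm)
open Pool.Agent.G3.E (BL sub_bl bl_inv bl_fin)
open Pool.Agent.G3F (HasTopForms TorusHyperbolic)
open Pool.Agent.G4F (IsSimple IsSmall IsSingularLocus HasMetric HasJetForms)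

variable {N k : ℕ}

theorem main {N k : ℕ} (P : Ideal (MvPolynomial (Fin (N + 1)) ℂ)) [P.IsPrime] (hP : Homog P)
    (hdim : ∃ z : Fin (k + 2) → FunField P, IsTranscendenceBasis ℂ z) (hsmooth : Pool.Agent.AD.NC.IsSmooth P (k + 2))
    (Λ : AddSubgroup (Cn (k + 1))) [DiscreteTopology Λ] (hspan : Submodule.span ℝ (Λ : Set (Cn (k + 1))) = ⊤) (hsimple : IsSimple Λ)
    (u : PN N → Cn (k + 1) ⧸ Λ) (hu : IsHolomorphicTorusMap (projVar P) Λ u) (D B : Set (Cn (k + 1))) (hD : IsSingularLocus (projVar P) Λ u D B)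
    (hR : ∃ (e : ℕ) (R : MvPolynomial (Fin (N + 1)) ℂ), R.IsHomogeneous e ∧ R ∉ P ∧
      ∀ x ∈ projVar P, (∃ y ∈ D, u x = (y : Cn (k + 1) ⧸ Λ)) → VanishesAt R x)
    (hE : HasTopForms (projVar P) Λ u D) (hM : HasMetric (projVar P) Λ u D) (hJ : HasJetForms (projVar P) Λ u D) :
    ∃ Q : MvPolynomial (Fin (N + 1)) ℂ, TorusHyperbolic P Λ u D Q := by
  have hs : Simp Λ := simp_of_span hsimple
  have hΛ : Lat Λ := Pool.Agent.TGF.gu_lat Λ hspan
  obtain ⟨Γ, r, J, W, α, hα⟩ := frm_of (D := D) hP hΛ hE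
  obtain ⟨B', hBc, hBi, hBD, hBB, hfew⟩ := exists_B Λ hΛ hs hD.analytic hD.proper hD.invariant
    (fun y hy hyB => by
      obtain ⟨κ, hκ, -⟩ := hD.crossing y hy hyB
      exact ⟨κ, hκ.holomorphic, hκ.point, (injective_iff_map_eq_zero _).2 hκ.immersion, hκ.mem_iff⟩) hα (H.exists_over hP hdim hR) hD.small
  obtain ⟨m, C₀, p, hfin⟩ := M.fin_of hP hM
  obtain ⟨C, hPS⟩ := M.ps_of_fin (Pool.Agent.AD.isCone_coneE hP) (Pool.Agent.TGF.gu_charts hP hdim hsmooth) (Pool.Agent.TGF.gu_tor hP hu) hΛ hfin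
  have G : Geo (coneE P) Λ (uV Λ u) D B' := M.geo_of_ps hP hdim hsmooth hspan hu hD.analytic hD.proper hD.invariant
    (fun a ha => ae_lines hΛ hBc hBi ((hfew a ha).mono fun q hq => ⟨hBD hq, Or.inl hq⟩)) hD.submersion (fun y hy hyB => hD.crossing y hy (hBB y hy hyB)) hPS
  obtain ⟨⟨T, hT⟩, hldi⟩ := E.end_main G hD.analytic hD.proper hBc hBi hs hfew hPS hα (jform_of hP hΛ hs hD.analytic hD.proper hD.invariant hJ)
  exact asm hP hdim hsmooth G hs hfew hR hα hPS hT hldi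

end Pool.Agent.G4

end

section

/-!
# G4 V Main: the final theorem, with the quasi-projective varieties which virtually dominate `X`
-/

set_option autoImplicit false

open Topology Filter MvPolynomial

namespace Pool.Agent.G4.V

open Pool.Agent.H17 (PN VanishesAt)
open Pool.Agent.H62.FC (Homog)
open Pool.Agent.H17LG.Variety (FunField IsLogGeneralType)
open Pool.Agent.H17EF (projVar)
open Pool.Agent.AD (IsHolomorphicTorusMap)
open Pool.Agent.TGF (Cn)
open Pool.Agent.G3F (HasTopForms)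
open Pool.Agent.G4F (IsSimple IsSingularLocus HasMetric HasJetForms IsHyperbolic gglo_virtual)

theorem main {N k : ℕ} (P : Ideal (MvPolynomial (Fin (N + 1)) ℂ)) [P.IsPrime] (hP : Homog P)
    (hdim : ∃ z : Fin (k + 2) → FunField P, IsTranscendenceBasis ℂ z) (hsmooth : Pool.Agent.AD.NC.IsSmooth P (k + 2))
    (Λ : AddSubgroup (Cn (k + 1))) [DiscreteTopology Λ] (hspan : Submodule.span ℝ (Λ : Set (Cn (k + 1))) = ⊤) (hsimple : IsSimple Λ)
    (u : PN N → Cn (k + 1) ⧸ Λ) (hu : IsHolomorphicTorusMap (projVar P) Λ u) (D B : Set (Cn (k + 1))) (hD : IsSingularLocus (projVar P) Λ u D B)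
    (hR : ∃ (e : ℕ) (R : MvPolynomial (Fin (N + 1)) ℂ), R.IsHomogeneous e ∧ R ∉ P ∧
      ∀ x ∈ projVar P, (∃ y ∈ D, u x = (y : Cn (k + 1) ⧸ Λ)) → VanishesAt R x)
    (hE : HasTopForms (projVar P) Λ u D) (hM : HasMetric (projVar P) Λ u D) (hJ : HasJetForms (projVar P) Λ u D) :
    ∃ Q : MvPolynomial (Fin (N + 1)) ℂ, IsHyperbolic P Λ u D Q := by
  obtain ⟨Q, hQ⟩ := Pool.Agent.G4.main P hP hdim hsmooth Λ hspan hsimple u hu D B hD hR hE hM hJ
  exact ⟨Q, hQ.form, hQ.singular, hQ.lines, hQ.brody, hQ.picard, hQ.kobayashi, hQ.ggl, fun hgt M L s s' P' _ R _ G G' q hP' hR' hG hG' hne hz' hw ⟨e⟩ hq hlg => gglo_virtual (k := k + 1) hdim (hQ.ggl hgt) hP' hz' e hR' hw hG hG' hne hlg hq⟩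

end Pool.Agent.G4.V

end
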